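import Pool.Agent.MP_5168f5_an.QA.FrDefs

/-! The Kakeya maximal estimate: frames, linear algebra. -/

namespace Pool.Agent.MP_5168f5_an.QA.Fr

open AN Finset
open C1 (Dg Hb)
open GA (Mt)
open N2 (Uni Bd low blk un bd_one blk_mul uni_un uni_iff tri)

variable {V : Type} [AddCommGroup V] [Module ℝ V] {m : ℕ} {u v g h : Mt (Fin m)}
  {e f : Fin m → V} {ν ν' : V → ℝ} {l l' ρ τ la : Fin m → ℝ} {L L' c c' : ℝ}

theorem sum_act (c : Fin m → ℝ) (u : Mt (Fin m)) (f : Fin m → V) :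
    ∑ p, c p • act u f p = ∑ q, Matrix.vecMul c u q • f q := by
  simp only [act, smul_sum, smul_smul, Matrix.vecMul, dotProduct, sum_smul]
  exact sum_comm

theorem act_mul (u v : Mt (Fin m)) (f : Fin m → V) : act (u * v) f = act u (act v f) :=
  funext fun p => (sum_act (u p) v f).symm

theorem act_one (f : Fin m → V) : act 1 f = f := funext fun p => by
  simp [act, Matrix.one_apply]

theorem act_inv (k : IsUnit g.det) (f : Fin m → V) : act g⁻¹ (act g f) = f := by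
  rw [← act_mul, Matrix.nonsing_inv_mul _ k, act_one]

theorem act_div (k : IsUnit g.det) (u : Mt (Fin m)) (f : Fin m → V) :
    act (u * g⁻¹) (act g f) = act u f := by rw [act_mul, act_inv k]

theorem Sp.act (k : Sp f) (hu : IsUnit u.det) : Sp (act u f) := fun F => (k F).elim fun c a =>
  ⟨Matrix.vecMul c u⁻¹, by
    rw [sum_act, Matrix.vecMul_vecMul, Matrix.nonsing_inv_mul _ hu, Matrix.vecMul_one, ← a]⟩

theorem Sp.top (k : Sp f) : ⊤ ≤ Submodule.span ℝ (Set.range f) := fun F _ =>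
  (Submodule.mem_span_range_iff_exists_fun ℝ).2 ((k F).imp fun _ a => a.symm)

theorem sp_of (k : ⊤ ≤ Submodule.span ℝ (Set.range f)) : Sp f := fun F =>
  ((Submodule.mem_span_range_iff_exists_fun ℝ).1 (k (Submodule.mem_top (x := F)))).imp
    fun _ a => a.symm

theorem act_inj (k : Dg ν f l L) (hν : Hb ν) (h0 : ∀ p, 0 < l p) (a : act u f = act v f) :
    u = v := by
  ext p q
  refine sub_eq_zero.1 (Fintype.linearIndependent_iff.1 (k.li hν h0) (fun q => u p q - v p q) ?_ q)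
  simp only [sub_smul, sum_sub_distrib]
  exact sub_eq_zero.2 (congrFun a p)

theorem rel (k : Dg ν f l L) (hν : Hb ν) (h0 : ∀ p, 0 < l p) (a : Sp f) (b : Sp e) :
    ∃ g : Mt (Fin m), IsUnit g.det ∧ e = act g f := by
  choose g hg using fun p => a (e p)
  choose g' hg' using fun p => b (f p)
  have h1 : e = act (Matrix.of g) f := funext hg
  have h2 : f = act (Matrix.of g') e := funext hg'
  exact ⟨_, Matrix.isUnit_det_of_left_inverse (B := Matrix.of g') (act_inj k hν h0 (by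
    rw [act_mul, ← h1, ← h2, act_one])), h1⟩

/-! ### Two sided bounds -/

theorem B2.mono (k : B2 ρ c g) (h0 : ∀ p, 0 < ρ p) (a : c ≤ c') : B2 ρ c' g :=
  ⟨k.1, k.2.1.mono h0 a, k.2.2.mono h0 a⟩

theorem b2_one (h0 : ∀ p, 0 < ρ p) : B2 ρ 1 (1 : Mt (Fin m)) :=
  ⟨by simp, bd_one h0, by rw [inv_one]; exact bd_one h0⟩

theorem B2.inv (k : B2 ρ c g) : B2 ρ c g⁻¹ :=
  ⟨Matrix.isUnit_nonsing_inv_det _ k.1, k.2.2, by
    rw [Matrix.nonsing_inv_nonsing_inv _ k.1]; exact k.2.1⟩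

theorem B2.mul (k : B2 ρ c g) (k' : B2 ρ c' h) (h0 : ∀ p, 0 < ρ p) : B2 ρ (m * c * c') (g * h) :=
  ⟨by rw [Matrix.det_mul]; exact k.1.mul k'.1, k.2.1.mul k'.2.1 h0, by
    rw [Matrix.mul_inv_rev, mul_right_comm]; exact k'.2.2.mul k.2.2 h0⟩

theorem bd_iff (h0 : ∀ p, 0 < ρ p) : Bd ρ c g ↔ ∀ p q, |g p q| * ρ q ≤ c * ρ p :=
  forall₂_congr fun p q => by rw [← mul_div_assoc, le_div_iff₀ (h0 q)]

theorem dg_b2 (k : Dg ν e l L) (hν : Hb ν) (hL : 0 ≤ L) (hc : 0 ≤ c) (h0 : ∀ p, 0 < l p)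
    (b : B2 l c u) : Dg ν (act u e) l (m * c * L) := by
  refine ⟨fun p => (k.upper hν hL ((bd_iff h0).1 b.2.1 p)).trans_eq (by simp; ring), fun d p => ?_⟩
  have e1 : d p = ∑ q, Matrix.vecMul d u q * u⁻¹ q p := by
    change _ = Matrix.vecMul (Matrix.vecMul d u) u⁻¹ p
    rw [Matrix.vecMul_vecMul, Matrix.mul_nonsing_inv _ b.1, Matrix.vecMul_one]
  rw [sum_act, e1]
  refine (mul_le_mul_of_nonneg_right (abs_sum_le_sum_abs _ _) (h0 p).le).trans ?_
  rw [sum_mul]
  refine (sum_le_card_nsmul _ _ (c * L * ν (∑ q, Matrix.vecMul d u q • e q))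
    fun q _ => ?_).trans_eq (by simp [mul_assoc])
  rw [abs_mul]
  nlinarith [mul_le_mul_of_nonneg_left ((bd_iff h0).1 b.2.2 q p) (abs_nonneg (Matrix.vecMul d u q)),
    mul_le_mul_of_nonneg_left (k.2 (Matrix.vecMul d u) q) hc]

theorem b2_dg (k : Dg ν e l L) (k' : Dg ν (act u e) l L') (hL : 0 ≤ L) (hL' : 0 ≤ L')
    (h0 : ∀ p, 0 < l p) (hu : IsUnit u.det) : B2 l (L * L') u := by
  refine ⟨hu, (bd_iff h0).2 fun p q => (k.2 (u p) q).trans ((mul_le_mul_of_nonneg_left (k'.1 p)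
    hL).trans_eq (mul_assoc _ _ _).symm), (bd_iff h0).2 fun p q => (k'.2 (u⁻¹ p) q).trans ?_⟩
  rw [show ∑ j, u⁻¹ p j • act u e j = e p from congrFun (act_inv hu e) p]
  exact (mul_le_mul_of_nonneg_left (k.1 p) hL').trans_eq (by ring)

/-- Change of the norm and of the lengths. -/
theorem dg_chg (k : Dg ν f l L) (hL : 0 ≤ L) (hc : 0 ≤ c) (hc' : 0 ≤ c')
    (a : ∀ F, ν' F ≤ c * ν F ∧ ν F ≤ c * ν' F) (b : ∀ p, l' p ≤ c' * l p ∧ l p ≤ c' * l' p) :
    Dg ν' f l' (c * c' * L) := by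
  refine ⟨fun p => (a _).1.trans ((mul_le_mul_of_nonneg_left ((k.1 p).trans
    (mul_le_mul_of_nonneg_left (b p).2 hL)) hc).trans_eq (by ring)), fun d p => ?_⟩
  have h1 := mul_le_mul_of_nonneg_left (b p).1 (abs_nonneg (d p))
  have h2 := mul_le_mul_of_nonneg_left ((k.2 d p).trans (mul_le_mul_of_nonneg_left (a _).2 hL)) hc'
  nlinarith

theorem bd_chg (k : Bd l c g) (hc : 0 ≤ c) (a : ∀ p q, l p / l q ≤ c' * (ρ p / ρ q)) :
    Bd ρ (c * c') g := fun p q =>
  (k p q).trans ((mul_le_mul_of_nonneg_left (a p q) hc).trans_eq (mul_assoc _ _ _).symm)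

/-- Two bounds give a third one. -/
theorem B2.inf (k : B2 τ c g) (k' : B2 l c g) (hc : 0 ≤ c)
    (a : ∀ p q, τ p / τ q ≤ ρ p / ρ q ∨ l p / l q ≤ ρ p / ρ q) : B2 ρ c g :=
  ⟨k.1, fun p q => (a p q).elim (fun b => (k.2.1 p q).trans (mul_le_mul_of_nonneg_left b hc))
    fun b => (k'.2.1 p q).trans (mul_le_mul_of_nonneg_left b hc),
    fun p q => (a p q).elim (fun b => (k.2.2 p q).trans (mul_le_mul_of_nonneg_left b hc))
    fun b => (k'.2.2 p q).trans (mul_le_mul_of_nonneg_left b hc)⟩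

/-- For unipotent matrices only the lower ratios matter. -/
theorem bd_uni (k : Bd l c g) (hu : Uni la g) (hc : 1 ≤ c) (h0 : ∀ p, 0 < ρ p)
    (a : ∀ p q, la q < la p → l p / l q ≤ ρ p / ρ q) : Bd ρ c g := fun p q => by
  by_cases b : la q < la p
  · exact (k p q).trans (mul_le_mul_of_nonneg_left (a p q b) (by linarith))
  · rw [hu p q b]
    exact (bd_one h0).mono h0 hc p q

/-! ### The unipotent part -/

theorem near (k : Bd ρ c u) (h0 : ∀ p, 0 < ρ p) (hc : 0 ≤ c) (a : 2 * (m + 1) * c ≤ 1) :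
    B2 ρ 2 (1 - u) := by
  have m0 : (0 : ℝ) ≤ m := Nat.cast_nonneg _
  have key : ∀ (d : Fin m → ℝ) (b : ℝ), (∀ q, |Matrix.vecMul d (1 - u) q| * ρ q ≤ b) →
      ∀ q, |d q| * ρ q ≤ 2 * b := fun d b hb p => by
    obtain ⟨q, -, hq⟩ := exists_max_image univ (fun q => |d q| * ρ q) ⟨p, mem_univ p⟩
    have h1 : |Matrix.vecMul d u q| * ρ q ≤ m * (c * (|d q| * ρ q)) := by
      rw [Matrix.vecMul, dotProduct]
      refine (mul_le_mul_of_nonneg_right (abs_sum_le_sum_abs _ _) (h0 q).le).trans ?_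
      rw [sum_mul]
      refine (sum_le_card_nsmul _ _ (c * (|d q| * ρ q)) fun r _ => ?_).trans_eq (by simp)
      rw [abs_mul]
      nlinarith [mul_le_mul_of_nonneg_left ((bd_iff h0).1 k r q) (abs_nonneg (d r)),
        mul_le_mul_of_nonneg_left (hq r (mem_univ r)) hc]
    have h2 := hb q
    rw [Matrix.vecMul_sub, Matrix.vecMul_one, Pi.sub_apply] at h2
    have h3 := mul_le_mul_of_nonneg_right (abs_sub_abs_le_abs_sub (d q) (Matrix.vecMul d u q))
      (h0 q).le
    have h4 : 0 ≤ |d q| * ρ q := mul_nonneg (abs_nonneg _) (h0 q).le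
    nlinarith [hq p (mem_univ p), mul_le_mul_of_nonneg_right a h4, mul_nonneg hc h4]
  have hu : IsUnit (1 - u).det := by
    rw [← Matrix.isUnit_iff_isUnit_det, ← Matrix.vecMul_injective_iff_isUnit]
    refine (injective_iff_map_eq_zero (1 - u).vecMulLinear).2 fun d z => funext fun p => ?_
    have := key d 0 (fun q => by rw [show Matrix.vecMul d (1 - u) = 0 from z]; simp) p
    exact abs_nonpos_iff.1 (nonpos_of_mul_nonpos_left (by linarith) (h0 p))
  refine ⟨hu, ((bd_one h0).sub k).mono h0 (by nlinarith), (bd_iff h0).2 fun p =>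
    key ((1 - u)⁻¹ p) _ fun q => ?_⟩
  rw [show Matrix.vecMul ((1 - u)⁻¹ p) (1 - u) q = ((1 - u)⁻¹ * (1 - u)) p q from rfl,
    Matrix.nonsing_inv_mul _ hu]
  simpa using (bd_iff h0).1 (bd_one h0) p q

/-- The unipotent part differs from the matrix by a bounded factor. -/
theorem b2_un {A ε : ℝ} (hu : IsUnit g.det) (hL : 1 ≤ L) (hA : 1 ≤ A) (hε : 0 ≤ ε)
    (a : ∀ p q, |g⁻¹ p q| ≤ A) (b : ∀ p q, la p = la q → |g p q| ≤ L ∧ |g⁻¹ p q| ≤ L)
    (d : ∀ p q, la p < la q → |g p q| ≤ ε) (h0 : ∀ p, 0 < ρ p)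
    (h1 : ∀ p q, la p = la q → ρ p = ρ q) (h2 : ∀ p q, ρ q ≤ A * ρ p)
    (sm : 2 * (m + 1) ^ 3 * A ^ 2 * ε ≤ 1) :
    IsUnit (low la g).det ∧ B2 ρ (m * (2 * L) * 2) (un la g * g⁻¹) := by
  have m0 : (0 : ℝ) ≤ m := Nat.cast_nonneg _
  have o1 : ∀ _ : Fin m, (0 : ℝ) < 1 := fun _ => one_pos
  have e1 : Bd (fun _ => 1) (m * ε * A) ((g - low la g) * g⁻¹) :=
    Bd.mul (fun p q => by
      by_cases k : la p < la q
      · simpa [low, k] using d p q k
      · simpa [low, k] using hε) (fun p q => by simpa using a p q) o1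
  have e2 : 1 - (g - low la g) * g⁻¹ = low la g * g⁻¹ := by
    rw [sub_mul, Matrix.mul_nonsing_inv _ hu, sub_sub_cancel]
  have p0 : 0 ≤ m * ε * A := by positivity
  have s1 : 2 * (m + 1) * (m * ε * A * A) ≤ 1 := le_trans (by
    nlinarith [mul_nonneg (mul_nonneg hε (sq_nonneg A)) (mul_nonneg m0 m0),
      mul_nonneg (mul_nonneg hε (sq_nonneg A)) m0, mul_nonneg hε (sq_nonneg A)]) sm
  have n1 := near e1 o1 p0 (le_trans (by nlinarith [mul_le_mul_of_nonneg_left hA p0]) s1)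
  have n2 := near (bd_chg e1 p0 fun p q => by
    rw [div_one, ← mul_div_assoc, one_le_div (h0 q)]; exact h2 p q) h0 (by positivity) s1
  generalize (g - low la g) * g⁻¹ = η at *
  have lu : IsUnit (low la g).det := by
    have := n1.1
    rw [e2, Matrix.det_mul] at this
    exact isUnit_of_mul_isUnit_left this
  have e3 : (low la g)⁻¹ = g⁻¹ + g⁻¹ * ((1 - η)⁻¹ * η) := by
    have : (1 - η)⁻¹ * η = (1 - η)⁻¹ - 1 := by
      have := Matrix.nonsing_inv_mul _ n1.1
      rw [mul_sub, mul_one] at this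
      exact (sub_eq_iff_eq_add'.2 (sub_eq_iff_eq_add.1 this)).symm ▸ by abel
    rw [this, mul_sub, mul_one, add_sub_cancel, e2, Matrix.mul_inv_rev,
      Matrix.nonsing_inv_nonsing_inv _ hu, Matrix.nonsing_inv_mul_cancel_left _ _ hu]
  have e4 := Bd.mul (ρ := fun _ => 1) (fun p q => by simpa using a p q) (n1.2.2.mul e1 o1) o1
  have bl : ∀ w : Mt (Fin m), (∀ p q, la p = la q → |w p q| ≤ 2 * L) → Bd ρ (2 * L) (blk la w) :=
    fun w hw p q => by
      by_cases k : la p = la q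
      · rw [blk, Matrix.of_apply, if_pos k, h1 p q k, div_self (h0 q).ne', mul_one]
        exact hw p q k
      · rw [blk, Matrix.of_apply, if_neg k, abs_zero]
        exact mul_nonneg (by linarith) (div_pos (h0 p) (h0 q)).le
  refine ⟨lu, ?_⟩
  rw [un, if_pos lu, Matrix.mul_assoc, ← e2]
  refine B2.mul ⟨Matrix.isUnit_det_of_right_inverse (blk_mul lu), bl _ fun p q k => ?_, ?_⟩ n2 h0
  · rw [e3, Matrix.add_apply]
    have := e4 p q
    simp only [div_one, mul_one] at this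
    refine (abs_add_le _ _).trans ((add_le_add (b p q k).2 (this.trans (le_trans ?_
      (sm.trans hL)))).trans_eq (by ring))
    nlinarith [mul_nonneg (mul_nonneg hε (sq_nonneg A)) (mul_nonneg m0 m0),
      mul_nonneg (mul_nonneg hε (sq_nonneg A)) m0, mul_nonneg hε (sq_nonneg A)]
  · rw [Matrix.inv_eq_right_inv (blk_mul lu)]
    exact bl _ fun p q k => (b p q k).1.trans (by linarith)

/-- The unipotent part keeps a closed pattern. -/
theorem pat_un {R : Fin m → Fin m → Prop} (k : ∀ p q, R p q → g p q = (1 : Mt (Fin m)) p q)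
    (mul : ∀ u v : Mt (Fin m), (∀ p q, R p q → u p q = (1 : Mt (Fin m)) p q) →
      (∀ p q, R p q → v p q = (1 : Mt (Fin m)) p q) → ∀ p q, R p q → (u * v) p q = (1 : Mt (Fin m)) p q)
    (inv : ∀ u : Mt (Fin m), IsUnit u.det → (∀ p q, R p q → u p q = (1 : Mt (Fin m)) p q) →
      ∀ p q, R p q → u⁻¹ p q = (1 : Mt (Fin m)) p q) :
    ∀ p q, R p q → un la g p q = (1 : Mt (Fin m)) p q := by
  have h1 : ∀ p q, R p q → low la g p q = (1 : Mt (Fin m)) p q := fun p q a => by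
    rw [low, Matrix.of_apply]
    split_ifs with b
    exacts [(Matrix.one_apply_ne fun z => b.ne (congrArg la z)).symm, k p q a]
  unfold un
  split_ifs with a
  · refine mul _ _ (fun p q b => ?_) h1
    rw [blk, Matrix.of_apply]
    split_ifs with d
    exacts [inv _ a h1 p q b, (Matrix.one_apply_ne fun z => d (congrArg la z)).symm]
  · exact fun _ _ _ => rfl

/-! ### Exchange of a row -/

theorem b2_row {o : Fin m} {d : Fin m → ℝ} (h0 : ∀ p, 0 < ρ p) (hc : 1 ≤ c) (a : 1 ≤ c * |d o|)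
    (b : ∀ q, |d q| * ρ q ≤ c * ρ o) : B2 ρ (c * c) ((1 : Mt (Fin m)).updateRow o d) := by
  have d0 : d o ≠ 0 := fun z => by simp [z] at a; linarith
  have c1 : c ≤ c * c := le_mul_of_one_le_left (by linarith) hc
  have key : ∀ w : Fin m → ℝ, (∀ q, |w q| * ρ q ≤ c * c * ρ o) →
      Bd ρ (c * c) ((1 : Mt (Fin m)).updateRow o w) := fun w hw => (bd_iff h0).2 fun p q => by
    by_cases k : p = o
    · rw [k, Matrix.updateRow_self]; exact hw q
    · rw [Matrix.updateRow_ne k]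
      exact (bd_iff h0).1 ((bd_one h0).mono h0 (hc.trans c1)) p q
  have e1 : (1 : Mt (Fin m)).updateRow o d *
      (1 : Mt (Fin m)).updateRow o (fun q => if q = o then (d o)⁻¹ else -(d q / d o)) = 1 := by
    rw [Matrix.updateRow_mul, one_mul]
    ext p q
    by_cases k : p = o
    · rw [k, Matrix.updateRow_self, Matrix.vecMul, dotProduct, ← add_sum_erase _ _ (mem_univ o),
        Matrix.updateRow_self, sum_congr rfl (g := fun r => if r = q then d r else 0) fun r hr => by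
          simp [Matrix.updateRow_ne (ne_of_mem_erase hr), Matrix.one_apply]]
      by_cases z : q = o
      · subst z; simp [d0]
      · simp [z, Matrix.one_apply_ne' z]
        field_simp
        ring
    · rw [Matrix.updateRow_ne k, Matrix.updateRow_ne k]
  refine ⟨Matrix.isUnit_det_of_right_inverse e1, key _ fun q => (b q).trans
    (mul_le_mul_of_nonneg_right c1 (h0 o).le), ?_⟩
  rw [Matrix.inv_eq_right_inv e1]
  refine key _ fun q => ?_
  have i1 : |d o|⁻¹ ≤ c := by rw [inv_le_iff_one_le_mul₀ (abs_pos.2 d0)]; exact a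
  split_ifs with z
  · rw [z, abs_inv]
    exact mul_le_mul_of_nonneg_right (i1.trans c1) (h0 o).le
  · rw [abs_neg, abs_div, div_eq_inv_mul, mul_assoc, mul_assoc]
    exact mul_le_mul i1 (b q) (mul_nonneg (abs_nonneg _) (h0 q).le) (by linarith)

theorem act_row (o : Fin m) (d : Fin m → ℝ) (f : Fin m → V) :
    act ((1 : Mt (Fin m)).updateRow o d) f = Function.update f o (∑ q, d q • f q) := by
  funext p
  by_cases k : p = o
  · simp [k, act]
  · rw [Function.update_of_ne k, ← congrFun (act_one f) p]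
    simp [act, Matrix.updateRow_ne k]

end Pool.Agent.MP_5168f5_an.QA.Fr
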