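import Pool.Agent.MP_5168f5_an.QA.AbS
import Pool.Agent.MP_5168f5_an.QA.FrAlg

/-! The base class of the local part: the marked coordinate is the height. -/

namespace Pool.Agent.MP_5168f5_an.QA.AB

open H19 H17S H17F R4 AN Filter Finset
open G39 (dl)
open GA (Mt)
open N2 (El eB eW tri Uni vec_eB vec_mem)
open Fr (act act_mul act_one)
open IsNilpotent (exp exp_eq_sum)

variable {N D m : ℕ}

/-- A row of the exponential. -/
theorem exp_row {Z : Mt (Fin m)} (hn : IsNilpotent Z) {p : Fin m} (h : ∀ q, (Z * Z) p q = 0)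
    (q : Fin m) : exp Z p q = (1 : Mt (Fin m)) p q + Z p q := by
  obtain ⟨k, hk⟩ := hn
  have e : Z ^ (k + 2) = 0 := by rw [pow_add, hk, zero_mul]
  rw [exp_eq_sum e, sum_range_succ', sum_range_succ', Matrix.add_apply, Matrix.add_apply,
    Matrix.sum_apply, sum_eq_zero fun i _ => ?_]
  · simp [add_comm]
  · rw [Matrix.smul_apply, show i + 1 + 1 = 2 + i by ring, pow_add, pow_two, Matrix.mul_apply,
      sum_eq_zero fun r _ => by rw [h r, zero_mul], smul_zero]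

variable {kk la : Fin m → ℝ} {o τ : Fin m}

theorem vec_pat0 {t : El la → ℝ} (h : t ∈ pat kk la o τ) {p q : Fin m}
    (e : ¬(kk q < kk p ∧ (p = τ → q = o))) : GA.vec (eB la) t p q = 0 := by
  by_cases k : la q < la p
  · exact (vec_eB t ⟨(p, q), k⟩).trans (h _ e)
  · exact N2.mem_F0.1 (vec_mem t) p q k

/-- The entry `(τ, o)` is additive. -/
theorem add_ent (ko : ∀ a, a ≠ o → kk o < kk a) (ne : τ ≠ o) {t : El la → ℝ}
    (h : t ∈ pat kk la o τ) {J : Mt (Fin m)} (r : ∀ q, q ≠ o → J τ q = (1 : Mt (Fin m)) τ q) :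
    (J * GA.ex (eB la) t) τ o = J τ o + GA.vec (eB la) t τ o := by
  have z0 : ∀ q, GA.vec (eB la) t o q = 0 := fun q => vec_pat0 h fun k => by
    by_cases c : q = o
    · exact lt_irrefl _ (c ▸ k.1)
    · exact (ko q c).not_gt k.1
  have z1 : ∀ q, q ≠ o → GA.vec (eB la) t τ q = 0 := fun q c => vec_pat0 h fun k => c (k.2 rfl)
  have n := (tri la).nil (vec_mem t)
  have e0 := exp_row n (p := o) (fun q => by
    rw [Matrix.mul_apply]; exact sum_eq_zero fun r _ => by rw [z0 r, zero_mul]) o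
  have e1 := exp_row n (p := τ) (fun q => by
    rw [Matrix.mul_apply]
    refine sum_eq_zero fun r _ => ?_
    by_cases c : r = o
    · rw [c, z0, mul_zero]
    · rw [z1 r c, zero_mul]) o
  rw [Matrix.mul_apply, sum_eq_add o τ ne.symm (fun q _ c => by
    rw [r q c.1, Matrix.one_apply_ne c.2.symm, zero_mul]) (by simp) (by simp), r τ ne, GA.ex, e0,
    e1, z0, Matrix.one_apply_ne ne]
  simp

/-- The entry `(τ, o)` of the position. -/
theorem ent_eq (ko : ∀ a, a ≠ o → kk o < kk a) (ne : τ ≠ o) {J : Mt (Fin m)} (u : Uni kk J)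
    (r : ∀ q, q ≠ o → J τ q = (1 : Mt (Fin m)) τ q) {E : Fin m → VD N D} (e : (E o).1 = 1)
    (y : V (N + 1)) : J τ o = MvPolynomial.eval y (E τ).1 -
      MvPolynomial.eval y (act J⁻¹ E τ).1 := by
  have a : act J (act J⁻¹ E) = E := by
    rw [← act_mul, Matrix.mul_nonsing_inv _ u.det, act_one]
  generalize act J⁻¹ E = f at a
  have a0 : E o = f o := by
    rw [← a, act, sum_eq_single o (fun q _ c => by
      rw [u o q (ko q c).not_gt, Matrix.one_apply_ne c.symm, zero_smul]) (by simp),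
      u o o (lt_irrefl _), Matrix.one_apply_eq, one_smul]
  have a1 : E τ = J τ o • f o + f τ := by
    rw [← a, act, sum_eq_add o τ ne.symm (fun q _ c => by
      rw [r q c.1, Matrix.one_apply_ne c.2.symm, zero_smul]) (by simp) (by simp), r τ ne,
      Matrix.one_apply_eq, one_smul]
  rw [a1, ← a0]
  simp [e]

/-- An atom with flat differences is spread. -/
theorem spread0 {Ω T : Type} {k : ℕ} {P : FP Ω} {Y : Ω → ℝ} {K : Ω → T} {B : ℝ}
    (h : Ht k P Y K 0 B) (hB : 3 ^ 2 ^ k * B < 1) {ω : Ω} (hω : ω ∈ P.S) :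
    ∃ v ∈ P.S, K v = K ω ∧ 1 ≤ |Y v - Y ω| := by
  obtain ⟨G, a, b⟩ := h
  by_contra c
  have s : ∀ y : ℤ, pb (cv P K (K ω)) (fun v => G v ∧ ⌊Y v⌋ = y) < 1 / 3 := fun y => by
    have := (b ω hω).low (nn_sl _ _ _) y
    rw [sl_coeff] at this
    refine lt_of_pow_lt_pow_left₀ (2 ^ k) (by norm_num) (this.trans_lt ?_)
    rw [one_div, inv_pow, ← one_div, lt_div_iff₀' (by positivity)]
    exact hB
  have t : pb (cv P K (K ω)) (fun _ => True) ≤ pb (cv P K (K ω)) (fun v =>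
      ((G v ∧ ⌊Y v⌋ = ⌊Y ω⌋ - 1) ∨ (G v ∧ ⌊Y v⌋ = ⌊Y ω⌋)) ∨ (G v ∧ ⌊Y v⌋ = ⌊Y ω⌋ + 1)) :=
    pb_mono fun v hv _ => by
      obtain ⟨h1, h2⟩ := (MX.mem_cv hω v).1 hv
      have g := good a v h1
      have d := abs_lt.1 (not_le.1 fun d => c ⟨v, h1, h2, d⟩)
      have l1 : ⌊Y v⌋ ≤ ⌊Y ω⌋ + 1 := by
        rw [← Int.floor_add_one]; exact Int.floor_mono (by linarith)
      have l2 : ⌊Y ω⌋ ≤ ⌊Y v⌋ + 1 := by
        rw [← Int.floor_add_one]; exact Int.floor_mono (by linarith)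
      simp only [g, true_and]
      omega
  rw [pb_true] at t
  have := t.trans ((pb_or _ _ _).trans (add_le_add (pb_or _ _ _) le_rfl))
  linarith [s (⌊Y ω⌋ - 1), s ⌊Y ω⌋, s (⌊Y ω⌋ + 1)]

variable {E : ℕ} {η θ β js Γ : ℝ} {kf : ℕ → ℕ} {sl : ℕ → ℝ} {X : ℕ → St N D}

theorem two_exp (k : ℕ) : (2 : ℝ) ^ k = Real.exp (lg * k) := by
  rw [mul_comm, Real.exp_nat_mul, lg, Real.exp_log two_pos]

/-- Every atom is spread in the height. -/
theorem spread (h : Ts X E η θ β js Γ kf sl) (x : ℚ) {ε : ℝ} (hε : 0 < ε) : ∀ᶠ n in UF,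
    ∀ ω ∈ (X n).P.S, ∃ v ∈ (X n).P.S, (X n).O x v = (X n).O x ω ∧
      Real.exp (-(ε * (X n).u)) ≤ |2 ^ (X n).lv x * ((X n).g.z v - (X n).g.z ω)| := by
  obtain ⟨δ, d0, d1⟩ := exists_rat_btwn (half_pos hε)
  have l0 := lg_pos
  have l1 := lg_lt_one
  filter_upwards [h.hs 1 x (x + δ) (δ * lg / 8) (by positivity),
    h.lev x (x + δ) (half_pos d0), h.big.ev ((3 ^ 2 ^ kf 1 + 1) / (δ * lg / 8))] with n a b c ω hω
  have u0 : (0 : ℝ) ≤ (X n).u := Nat.cast_nonneg _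
  push_cast at b
  obtain ⟨b1, b2⟩ := abs_le.1 b
  rw [div_le_iff₀' (by positivity)] at c
  obtain ⟨v, hv, k, s⟩ := spread0 a (by
    have t := Real.add_one_le_exp ((3 : ℝ) ^ 2 ^ kf 1)
    refine (mul_lt_mul_of_pos_right ((lt_add_one _).trans_le t) (Real.exp_pos _)).trans_le ?_
    rw [← Real.exp_add, Real.exp_le_one_iff]
    have e : δ / 2 * (X n).u * lg ≤ (((X n).lv (x + δ) : ℝ) - (X n).lv x) * lg :=
      mul_le_mul_of_nonneg_right (by linarith) l0.le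
    have : (((X n).u : ℕ) : ℝ) = uu X n := rfl
    push_cast
    nlinarith) hω
  refine ⟨v, hv, k, ?_⟩
  rw [← mul_sub, abs_mul, abs_of_pos (by positivity), two_exp] at s
  rw [abs_mul, abs_of_pos (by positivity), two_exp]
  have e : lg * (((X n).lv (x + δ) : ℝ) - (X n).lv x) ≤ ε * (X n).u := by
    have : ((X n).lv (x + δ) : ℝ) - (X n).lv x ≤ 2 * δ * (X n).u := by nlinarith
    nlinarith [mul_nonneg d0.le u0]
  calc Real.exp (-(ε * (X n).u)) ≤ Real.exp (lg * (X n).lv x - lg * (X n).lv (x + δ)) * 1 := by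
        rw [mul_one, Real.exp_le_exp]; linarith
    _ ≤ _ := by
        refine (mul_le_mul_of_nonneg_left s (Real.exp_pos _).le).trans_eq ?_
        rw [← mul_assoc, ← Real.exp_add, sub_add_cancel]

variable {S : Finset (El la)} {C L : ℝ} {F : ∀ n, Fd N D m (X n).Ω}
  {A : ∀ n, (X n).Ω → El la → El la → ℝ}

theorem MI.lt (h : MI kk la o τ X F) : la o < la τ := by
  rw [h.lo, h.lτ]; exact lg_pos

theorem MI.ne (h : MI kk la o τ X F) : τ ≠ o := fun e => lt_irrefl _ (e ▸ h.lt)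

theorem tt (h : Tq X E η θ β js Γ sl) (k : MI kk la o τ X F) (l : L1 kk la o τ S C L X F A)
    (x : ℚ) (K : ℝ) : ∀ᶠ n in UF, ∀ ω v v', Mt2 (X n) x ω v v' →
    |GA.vec (eB la) (co la (X n) (F n) x v v') τ o -
      2 ^ (X n).lv x * ((X n).g.z v' - (X n).g.z v)| ≤ dl (uu X) K n := by
  have l0 := lg_pos
  have l1 := lg_lt_one
  filter_upwards [k.fe x, k.eo, k.uj, k.row, k.ev (K + |(x : ℝ)| + 2), l.ex x, l.pat x,
    h.lev 0 x one_pos, h.big.ev 1] with n fe eo uj row ev ex pt lv u1 ω v v' g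
  obtain ⟨hv, hv', g1, g2⟩ := id g
  have a := congrFun (congrFun (ex ω v v' g) τ) o
  rw [add_ent k.ko k.ne (pt ω v v' g) (row v hv)] at a
  have b := ent_eq k.ko k.ne (uj v hv) (row v hv) (eo v hv).1 ((X n).g.tp v)
  have b' := ent_eq k.ko k.ne (uj v' hv') (row v' hv') (eo v' hv').1 ((X n).g.tp v')
  have c := ev v hv τ
  have c' := ev v' hv' τ
  obtain ⟨t, ht⟩ := (eo v hv).2
  rw [← fe v hv v' hv' (g1.trans g2.symm)] at b'
  rw [ht] at b b'
  rw [Matrix.one_apply_ne k.ne, sub_zero, Fd.f] at c c'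
  rw [← fe v hv v' hv' (g1.trans g2.symm)] at c'
  simp only [map_sub, map_mul, MvPolynomial.eval_C, MvPolynomial.eval_X, Sh.tp,
    Fin.cons_zero] at b b' c c'
  have w := vec_eB (GA.lg (eB la) ((F n).J v) ((F n).J v')) ⟨(τ, o), k.lt⟩
  have w' := vec_eB (co la (X n) (F n) x v v') ⟨(τ, o), k.lt⟩
  simp only at w w'
  rw [w', co, ← w, eW, two_exp]
  simp only [k.lo, k.lτ, sub_zero, lb, rd, dl] at c c' ⊢
  generalize MvPolynomial.eval _ (act ((F n).J v)⁻¹ ((F n).E v) τ).1 = p at b c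
  generalize MvPolynomial.eval _ (act ((F n).J v')⁻¹ ((F n).E v) τ).1 = p' at b' c'
  have z : GA.vec (eB la) (GA.lg (eB la) ((F n).J v) ((F n).J v')) τ o =
      Real.exp (lg * (F n).b) * ((X n).g.z v' - (X n).g.z v) + (p - p') := by linarith
  rw [z, mul_add, ← mul_assoc, ← Real.exp_add, ← mul_add, sub_add_cancel, add_sub_cancel_left,
    abs_mul, abs_of_pos (Real.exp_pos _)]
  refine (mul_le_mul_of_nonneg_left ((abs_sub _ _).trans (add_le_add c c'))
    (Real.exp_pos _).le).trans ?_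
  rw [← two_mul, ← Real.exp_add]
  refine (mul_le_mul_of_nonneg_left (mul_le_mul_of_nonneg_right
    (show (2 : ℝ) ≤ Real.exp 1 by linarith [Real.add_one_le_exp (1 : ℝ)]) (Real.exp_pos _).le)
    (Real.exp_pos _).le).trans ?_
  rw [← Real.exp_add, ← Real.exp_add, Real.exp_le_exp]
  have e1 : ((X n).lv x : ℝ) - (X n).lv 0 ≤ (|(x : ℝ)| + 1) * (X n).u := by
    have := (abs_le.1 lv).2
    push_cast at this
    nlinarith [le_abs_self (x : ℝ)]
  have e2 : lg * (((X n).lv x : ℝ) - (X n).lv 0) ≤ (|(x : ℝ)| + 1) * (X n).u := by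
    have : (0 : ℝ) ≤ (|(x : ℝ)| + 1) * (X n).u := by positivity
    nlinarith
  have : (((X n).u : ℕ) : ℝ) = uu X n := rfl
  rw [← this] at u1 ⊢
  nlinarith

theorem sL2 : SL2 := fun N D m E η θ β js Γ kf sl kk la o τ S C L X F A h k l => by
  refine ⟨tt h.toTq k l, fun ε hε => ?_⟩
  have e4 : 0 < ε / 4 := by positivity
  filter_upwards [spread h 0 e4, tt h.toTq k l 0 ε, l.box 0 _ e4, l.inc 0 ε,
    h.big.ev ((Fintype.card (El la) + 2) / (ε / 2))] with n a b c d u ω hω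
  obtain ⟨v, hv, g, s⟩ := a ω hω
  have g2 : Mt2 (X n) 0 ω ω v := ⟨hω, hv, rfl, g⟩
  have u0 : (0 : ℝ) ≤ (X n).u := Nat.cast_nonneg _
  by_contra z
  have z1 : ∀ a, |A n ω ⟨(τ, o), k.lt⟩ a| ≤ Real.exp (-(ε * (X n).u)) := fun a =>
    le_of_not_ge fun y => z ⟨a, y.trans_eq
      (congrArg _ (vec_eB (PA.col (A n ω) a) ⟨(τ, o), k.lt⟩).symm)⟩
  have w := vec_eB (co la (X n) (F n) 0 ω v) ⟨(τ, o), k.lt⟩
  have b1 := b ω ω v g2
  have d1 := d ω hω ω v g2 ⟨(τ, o), k.lt⟩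
  simp only at w
  rw [w] at b1
  have q : |∑ a, A n ω ⟨(τ, o), k.lt⟩ a * co la (X n) (F n) 0 ω v a| ≤
      Fintype.card (El la) * Real.exp (-(3 * ε / 4 * (X n).u)) := by
    refine (abs_sum_le_sum_abs _ _).trans ((sum_le_card_nsmul _ _ _ fun a _ => ?_).trans_eq
      (by rw [nsmul_eq_mul, card_univ]))
    rw [abs_mul]
    refine (mul_le_mul (z1 a) (c ω ω v g2 a) (abs_nonneg _) (Real.exp_pos _).le).trans_eq ?_
    rw [← Real.exp_add]; congr 1; ring
  have r : dl (uu X) ε n ≤ Real.exp (-(3 * ε / 4 * (X n).u)) :=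
    Real.exp_le_exp.2 (by show -(ε * ((X n).u : ℝ)) ≤ _; nlinarith)
  have t : Real.exp (-(ε / 4 * (X n).u)) =
      Real.exp (ε / 2 * (X n).u) * Real.exp (-(3 * ε / 4 * (X n).u)) := by
    rw [← Real.exp_add]; congr 1; ring
  rw [div_le_iff₀' (by positivity)] at u
  have y := Real.add_one_le_exp (ε / 2 * (X n).u)
  have p := Real.exp_pos (-(3 * ε / 4 * (X n).u))
  have f1 := abs_le.1 b1
  have f2 := abs_le.1 d1
  have f3 := abs_le.1 q
  have f4 : |2 ^ (X n).lv 0 * ((X n).g.z v - (X n).g.z ω)| ≤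
      (Fintype.card (El la) + 2) * Real.exp (-(3 * ε / 4 * (X n).u)) :=
    abs_le.2 ⟨by linarith, by linarith⟩
  have f5 := le_of_mul_le_mul_right (t ▸ s.trans f4) p
  have : (((X n).u : ℕ) : ℝ) = uu X n := rfl
  linarith

end Pool.Agent.MP_5168f5_an.QA.AB
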