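import Pool.Agent.MP_5168f5_an.QA.ChSpec

/-! The Kakeya maximal estimate: polynomial coordinates along an orbit, algebra. -/

namespace Pool.Agent.MP_5168f5_an.QA.Ch

open H17S AN MvPolynomial Matrix Finset IsNilpotent
open GA (Mt)
open N2 (tri mem_F0 Bd)

/-- Increasing functions of polynomial growth. -/
structure Gr (g : ℝ → ℝ) : Prop where
  le : ∀ X, 1 ≤ X → X ≤ g X
  mono : ∀ X Y, 1 ≤ X → X ≤ Y → g X ≤ g Y
  pb : ∃ C : ℕ, 1 ≤ C ∧ ∀ X, 1 ≤ X → g X ≤ (C * X) ^ C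

theorem pw_mono {C C' : ℕ} {X Y : ℝ} (h1 : 1 ≤ C) (h : C ≤ C') (hX : 1 ≤ X) (e : X ≤ Y) :
    (C * X) ^ C ≤ (C' * Y) ^ C' := by
  have a : (1 : ℝ) ≤ C := by exact_mod_cast h1
  have b : (C : ℝ) ≤ C' := by exact_mod_cast h
  exact (pow_le_pow_left₀ (by positivity) (by gcongr) _).trans
    (pow_le_pow_right₀ (by nlinarith) h)

variable {g h : ℝ → ℝ}

theorem Gr.one (a : Gr g) {X : ℝ} (hX : 1 ≤ X) : 1 ≤ g X := hX.trans (a.le X hX)

theorem gr_pw {K : ℕ} (hK : 1 ≤ K) : Gr fun X => (K * X) ^ K :=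
  ⟨fun X hX => by simpa using pw_mono le_rfl hK hX le_rfl, fun _ _ a b => pw_mono hK le_rfl a b,
    K, hK, fun _ _ => le_rfl⟩

theorem gr_id : Gr fun X => X := by simpa using gr_pw (K := 1) le_rfl

theorem Gr.mul (a : Gr g) (b : Gr h) : Gr fun X => g X * h X := by
  refine ⟨fun X hX => (a.le X hX).trans (le_mul_of_one_le_right (zero_le_one.trans (a.one hX))
    (b.one hX)), fun X Y u v => mul_le_mul (a.mono X Y u v) (b.mono X Y u v)
      (zero_le_one.trans (b.one u)) (zero_le_one.trans (a.one (u.trans v))), ?_⟩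
  obtain ⟨C, c1, c2⟩ := a.pb
  obtain ⟨D, d1, d2⟩ := b.pb
  refine ⟨C + D, by omega, fun X hX => ?_⟩
  have c0 : (0 : ℝ) ≤ C := Nat.cast_nonneg _
  have d0 : (0 : ℝ) ≤ D := Nat.cast_nonneg _
  rw [pow_add]
  refine mul_le_mul ((c2 X hX).trans ?_) ((d2 X hX).trans ?_) (zero_le_one.trans (b.one hX))
    (by positivity) <;> refine pow_le_pow_left₀ (by positivity) ?_ _ <;> push_cast <;> nlinarith

theorem Gr.pow (a : Gr g) : ∀ k : ℕ, Gr fun X => g X ^ (k + 1)
  | 0 => by simpa using a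
  | k + 1 => by simpa only [_root_.pow_succ _ (k + 1)] using (a.pow k).mul a

theorem Gr.comp (a : Gr g) (b : Gr h) : Gr fun X => g (h X) := by
  refine ⟨fun X hX => (b.le X hX).trans (a.le _ (b.one hX)),
    fun X Y u v => a.mono _ _ (b.one u) (b.mono X Y u v), ?_⟩
  obtain ⟨C, c1, c2⟩ := a.pb
  obtain ⟨k, rfl⟩ : ∃ k, C = k + 1 := ⟨C - 1, by omega⟩
  obtain ⟨D, d1, d2⟩ := (((gr_pw c1).mul b).pow k).pb
  refine ⟨D, d1, fun X hX => (c2 _ (b.one hX)).trans (le_trans ?_ (d2 X hX))⟩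
  have := b.one hX
  refine pow_le_pow_left₀ (by positivity) (mul_le_mul_of_nonneg_right ?_ (by positivity)) _
  exact (le_mul_of_one_le_right (Nat.cast_nonneg _) hX).trans
    (le_self_pow₀ (one_le_mul_of_one_le_of_one_le (by exact_mod_cast c1) hX) (by omega))

theorem gr_lin (k : ℕ) : Gr fun X => (k + 1) * X := by
  have : (0 : ℝ) ≤ k := Nat.cast_nonneg _
  refine ⟨fun X hX => by nlinarith, fun X Y _ v => by gcongr, k + 1, by omega, fun X hX => ?_⟩
  push_cast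
  exact le_self_pow₀ (by nlinarith) (by omega)

variable {m : ℕ} {kk : Fin m → ℝ} {X N : Mt (Fin m)}

/-- A bound for the entries of exponentials. -/
def eA (m : ℕ) (c : ℝ) : ℝ := (m + 1 + 1) * ((m + 1) * c) ^ (m + 1)

theorem gr_eA (m : ℕ) : Gr (eA m) := by
  have := (gr_lin (m + 1)).comp ((gr_lin m).pow m)
  rwa [Nat.cast_succ] at this

theorem exp_dec (hX : X ∈ (tri kk).F 0) {c : ℝ} (hc : 1 ≤ c) (h : ∀ p q, |X p q| ≤ c) :
    (∀ p q, |exp X p q| ≤ eA m c) ∧ (∀ p q, |(exp X - 1) p q| ≤ eA m c) ∧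
    ∃ R ∈ (tri kk).F 0, (∀ p q, |R p q| ≤ eA m c) ∧ exp X = 1 + X + R * X := by
  have m0 : (0 : ℝ) ≤ m := Nat.cast_nonneg _
  have hb : Bd (fun _ => 1) c X := fun p q => by simpa using h p q
  have h1 : 1 ≤ (m + 1) * c := by nlinarith
  have h2 := one_le_pow₀ (n := m + 1) h1
  have h3 : ∀ p q, |exp X p q| ≤ (m + 1) * ((m + 1) * c) ^ (m + 1) := fun p q => by
    have := hb.exp (fun _ => one_pos) hc hX p q
    simp only [div_one, mul_one, Nat.cast_succ] at this
    exact this.trans (mul_le_mul_of_nonneg_left (pow_le_pow_right₀ h1 m.le_succ) (by positivity))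
  refine ⟨fun p q => (h3 p q).trans (by rw [eA]; nlinarith), fun p q => ?_,
    ∑ i ∈ range m, ((i + 1 + 1).factorial : ℚ)⁻¹ • X ^ (i + 1), sum_mem fun i _ =>
      Submodule.smul_mem _ _ ((tri kk).le0 _ ((tri kk).pow_mem hX i)), fun p q => ?_, ?_⟩
  · have := N2.bd_one (m := m) (ρ := fun _ => 1) (fun _ => one_pos) p q
    rw [Matrix.sub_apply, eA]
    refine (abs_sub _ _).trans ?_
    simp only [div_one, mul_one] at this
    linarith [h3 p q]
  · rw [Matrix.sum_apply]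
    refine (abs_sum_le_sum_abs _ _).trans ((sum_le_card_nsmul _ _ (((m + 1) * c) ^ (m + 1))
      fun i hi => ?_).trans (by rw [card_range, nsmul_eq_mul, eA]; nlinarith))
    have h4 := hb.pow (fun _ => one_pos) (i + 1) p q
    simp only [div_one, mul_one] at h4
    rw [Matrix.smul_apply, Rat.smul_def, abs_mul]
    refine (mul_le_of_le_one_left (abs_nonneg _) ?_).trans (h4.trans
      ((pow_le_pow_left₀ (by positivity) (by nlinarith) _).trans
        (pow_le_pow_right₀ h1 (by have := mem_range.1 hi; omega))))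
    rw [Rat.cast_inv, abs_inv, Rat.cast_natCast, Nat.abs_cast]
    exact inv_le_one_of_one_le₀ (by exact_mod_cast (i + 1 + 1).factorial_pos)
  · rw [exp_eq_sum ((tri kk).pow_zero2 hX)]
    change ∑ i ∈ range (m + 1 + 1), _ = _
    rw [sum_range_succ', sum_range_succ', sum_mul]
    simp only [smul_mul_assoc, ← _root_.pow_succ]
    simp [add_comm, add_assoc, add_left_comm]

theorem mv_le {A δ : ℝ} {v : Fin m → ℝ} {r : Fin m} (hA : ∀ p q, |N p q| ≤ A) (h0 : 0 ≤ δ)
    (h : ∀ q, N r q ≠ 0 → |v q| ≤ δ) : |(N *ᵥ v) r| ≤ m * A * δ := by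
  change |∑ q, N r q * v q| ≤ _
  refine (abs_sum_le_sum_abs _ _).trans ((sum_le_card_nsmul _ _ (A * δ) fun q _ => ?_).trans_eq
    (by simp [mul_assoc]))
  have := (abs_nonneg _).trans (hA r q)
  by_cases e : N r q = 0
  · rw [e, zero_mul, abs_zero]; positivity
  · rw [abs_mul]; exact mul_le_mul (hA r q) (h q e) (abs_nonneg _) this

variable {rk : Fin m → ℕ}

theorem tri_le (hrk : ∀ q r, kk q < kk r → rk q < rk r) (hN : N ∈ (tri kk).F 0) {A δ : ℝ}
    {v : Fin m → ℝ} {j : ℕ} (hA : ∀ p q, |N p q| ≤ A) (h0 : 0 ≤ δ) (h : ∀ q, rk q < j → |v q| ≤ δ)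
    {r : Fin m} (hr : rk r ≤ j) : |(N *ᵥ v) r| ≤ m * A * δ :=
  mv_le hA h0 fun q e => h q ((hrk q r (not_not.1 fun z => e (mem_F0.1 hN r q z))).trans_le hr)

theorem log_le (hrk : ∀ q r, kk q < kk r → rk q < rk r) (hN : N ∈ (tri kk).F 0) {A δ : ℝ}
    {v : Fin m → ℝ} (hA : ∀ p q, |N p q| ≤ A) (hA0 : 0 ≤ A) (h0 : 0 ≤ δ) : ∀ j : ℕ,
    (∀ q, rk q < j → |v q + (N *ᵥ v) q| ≤ δ) → ∀ q, rk q < j → |v q| ≤ (1 + m * A) ^ j * δ
  | 0, _, _, h => absurd h (Nat.not_lt_zero _)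
  | j + 1, h, q, hq => by
    have h1 := one_le_pow₀ (n := j) (show 1 ≤ 1 + m * A from le_add_of_nonneg_right (by positivity))
    have h2 := tri_le hrk hN hA (by positivity)
      (log_le hrk hN hA hA0 h0 j fun r e => h r (by omega)) (Nat.lt_succ_iff.1 hq)
    have h3 := abs_sub (v q + (N *ᵥ v) q) ((N *ᵥ v) q)
    rw [add_sub_cancel_right] at h3
    rw [_root_.pow_succ]
    nlinarith [h q hq]

theorem ex_rk (kk : Fin m → ℝ) : ∃ σ : Equiv.Perm (Fin m), ∀ q r, kk q < kk r → σ q < σ r := by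
  refine ⟨(Tuple.sort kk).symm, fun q r h => not_le.1 fun e => h.not_ge ?_⟩
  simpa using Tuple.monotone_sort kk e

variable {n : ℕ}

/-- The exponential of `s • Z` applied to a vector of polynomials. -/
noncomputable def pe (Z : Mt (Fin m)) (s : MvPolynomial (Fin n) ℝ)
    (v : Fin m → MvPolynomial (Fin n) ℝ) : Fin m → MvPolynomial (Fin n) ℝ := fun r =>
  ∑ i ∈ range (m + 1 + 1), ∑ q, C ((i.factorial : ℝ)⁻¹ * (Z ^ i) r q) * (s ^ i * v q)

variable {s : MvPolynomial (Fin n) ℝ} {v : Fin m → MvPolynomial (Fin n) ℝ}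

theorem pe_deg {D : ℕ} (hs : s.totalDegree ≤ D) (hv : ∀ q, (v q).totalDegree ≤ D) (r : Fin m) :
    (pe X s v r).totalDegree ≤ (m + 1 + 1) * D := by
  refine totalDegree_finsetSum_le fun i hi => totalDegree_finsetSum_le fun q _ => ?_
  refine (totalDegree_mul _ _).trans ?_
  rw [totalDegree_C, zero_add]
  refine (totalDegree_mul _ _).trans ((add_le_add ((totalDegree_pow _ _).trans
    (Nat.mul_le_mul (Nat.lt_succ_iff.1 (mem_range.1 hi)) hs)) (hv q)).trans_eq (by ring))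

theorem exp_smul (hX : X ∈ (tri kk).F 0) (σ : ℝ) (k : ℕ) :
    exp (σ • X) = ∑ i ∈ range (m + 1 + k), ((i.factorial : ℝ)⁻¹ * σ ^ i) • X ^ i := by
  have : X ^ (m + 1) = 0 := (tri kk).pow_zero' hX
  rw [exp_eq_sum (k := m + 1 + k) (by rw [smul_pow, pow_add X, this, zero_mul, smul_zero])]
  refine sum_congr rfl fun i _ => ?_
  rw [smul_pow, mul_smul, ← Rat.cast_smul_eq_qsmul ℝ]
  simp

theorem pe_val (hX : X ∈ (tri kk).F 0) (x : V n) :
    vl (pe X s v) x = exp (eval x s • X) *ᵥ vl v x := by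
  funext r
  rw [exp_smul hX _ 1]
  simp only [vl, pe, map_sum, map_mul, eval_C, map_pow, mulVec, dotProduct, Matrix.sum_apply,
    Matrix.smul_apply, smul_eq_mul, sum_mul]
  rw [sum_comm]
  exact sum_congr rfl fun q _ => sum_congr rfl fun i _ => by ring

theorem pe_der (hX : X ∈ (tri kk).F 0) (x : V n) (l : Fin n) :
    vl (fun r => pderiv l (pe X s v r)) x =
      eval x (pderiv l s) • ((exp (eval x s • X) * X) *ᵥ vl v x) +
        exp (eval x s • X) *ᵥ vl (fun r => pderiv l (v r)) x := by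
  have e : exp (eval x s • X) * X =
      ∑ i ∈ range (m + 1 + 1), ((i.factorial : ℝ)⁻¹ * (i * eval x s ^ (i - 1))) • X ^ i := by
    rw [exp_smul hX _ 0, sum_range_succ' _ (m + 1), sum_mul]
    simp only [Nat.cast_zero, zero_mul, mul_zero, zero_smul, add_zero, smul_mul_assoc,
      ← _root_.pow_succ, Nat.add_sub_cancel]
    refine sum_congr rfl fun i _ => ?_
    rw [Nat.factorial_succ]
    congr 1
    have : (i.factorial : ℝ) ≠ 0 := by positivity
    push_cast
    field_simp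
  funext r
  rw [e, exp_smul hX _ 1]
  simp only [vl, pe, map_sum, Derivation.leibniz, pderiv_C, Derivation.leibniz_pow, smul_eq_mul,
    mul_zero, add_zero, map_add, map_mul, eval_C, map_pow, nsmul_eq_mul, map_natCast, Pi.add_apply,
    Pi.smul_apply, mulVec, dotProduct, Matrix.sum_apply, Matrix.smul_apply, sum_mul, mul_sum,
    ← sum_add_distrib]
  rw [sum_comm]
  exact sum_congr rfl fun q _ => sum_congr rfl fun i _ => by ring

end Pool.Agent.MP_5168f5_an.QA.Ch
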