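import Pool.Agent.MP_5168f5_an.QA.AbL3A
import Pool.Agent.MP_5168f5_an.QA.ChAlg
import Pool.Agent.MP_5168f5_an.AN.GAApi
import Pool.Agent.MP_5168f5_an.AN.TGRep

/-! The base class of the local part: the curve of the own frame. -/

namespace Pool.Agent.MP_5168f5_an.QA.AB

open H19 H17S H17F R4 AN Filter Finset
open G39 (dl OB dl_inv big_dl sub_dl)
open GA (Mt Neg vec neg_ev ob_const ob_mul ob_sum)
open N2 (El eB eW tri Uni)
open Matrix (mulVec)

theorem all_i {D : ℕ} {p : ℕ → ℕ → Prop} (h : ∀ i, ∀ᶠ n in UF, p n i)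
    (h' : ∀ n i, D < i → p n i) : ∀ᶠ n in UF, ∀ i, p n i :=
  ((Finset.range (D + 1)).eventually_all.2 fun i _ => h i).mono fun n a i =>
    (le_or_gt i D).elim (fun e => a i (mem_range.2 (Nat.lt_succ_of_le e))) (h' n i)

/-- Exponentially bounded sequences. -/
def EB (M : ℕ → ℕ) (a : ℕ → ℝ) : Prop := ∃ C : ℝ, ∀ᶠ n in UF, |a n| ≤ Real.exp (C * M n)

theorem EB.neg {M : ℕ → ℕ} {a b : ℕ → ℝ} (h : EB M a) (k : Neg M b) : Neg M fun n => a n * b n :=
  h.elim fun _ e => (k.mul_exp e).congr (.of_forall fun _ => mul_comm _ _)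

theorem EB.pow {M : ℕ → ℕ} {a : ℕ → ℝ} (h : EB M a) (j : ℕ) : EB M fun n => a n ^ j :=
  h.elim fun C e => ⟨j * C, e.mono fun n u => by
    rw [abs_pow, mul_assoc, Real.exp_nat_mul]; exact pow_le_pow_left₀ (abs_nonneg _) u j⟩

variable {N D m E : ℕ} {η θ β js Γ : ℝ} {sl : ℕ → ℝ} {kk la : Fin m → ℝ} {o τ : Fin m}
  {S : Finset (El la)} {C L : ℝ} {X : ℕ → St N D} {F : ∀ n, Fd N D m (X n).Ω}
  {A : ∀ n, (X n).Ω → El la → El la → ℝ}

theorem jet_top (Y : St N D) (G : Fd N D m Y.Ω) (ω : Y.Ω) {i : ℕ} (p : Fin m) (h : D < i) :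
    jet Y G ω i p = 0 := by
  rw [jet, Polynomial.coeff_eq_zero_of_natDegree_lt ((lp_deg Y ω _).trans_lt h), mul_zero]

theorem mt2_all {x : ℚ} {p : ∀ n, (X n).Ω → (X n).Ω → (X n).Ω → Prop}
    (h : ∀ ω v v' : ∀ n, (X n).Ω, (∀ n, ω n ∈ (X n).P.S ∧ Mt2 (X n) x (ω n) (v n) (v' n)) →
      ∀ᶠ n in UF, p n (ω n) (v n) (v' n)) :
    ∀ᶠ n in UF, ∀ ω ∈ (X n).P.S, ∀ v v', Mt2 (X n) x ω v v' → p n ω v v' := by
  have : ∀ n, Nonempty {z : (X n).Ω × (X n).Ω × (X n).Ω //
      z.1 ∈ (X n).P.S ∧ Mt2 (X n) x z.1 z.2.1 z.2.2} := fun n =>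
    (ex_of_pb (P := (X n).P) (E := fun _ => True) (by rw [pb_true]; exact one_pos)).elim
      fun ω a => ⟨⟨(ω, ω, ω), a.1, a.1, a.1, rfl, rfl⟩⟩
  exact (TG.Rp.ev_all (α := fun n => {z : (X n).Ω × (X n).Ω × (X n).Ω //
      z.1 ∈ (X n).P.S ∧ Mt2 (X n) x z.1 z.2.1 z.2.2}) (p := fun n z => p n z.1.1 z.1.2.1 z.1.2.2)
    fun s => h _ _ _ fun n => (s n).2).mono fun n a ω u v v' w => a ⟨(ω, v, v'), u, w⟩

section Seq

variable (t : Tq X E η θ β js Γ sl) (h : MI kk la o τ X F) (hb : ∀ n, (F n).b = (X n).lv 0)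
include t h hb

theorem jet_cf (x : ℚ) {ε : ℝ} (hε : 0 < ε) : ∀ᶠ n in UF, ∀ ω ∈ (X n).P.S, ∀ (i : ℕ) p,
    |jet (X n) (F n) ω i p| ≤
      Real.exp (ε * (X n).u - (la p - i * lg) * (((X n).lv x : ℝ) - (X n).lv 0)) := by
  obtain ⟨C, c1, hC⟩ := jet_le D
  obtain ⟨G, g1, g2⟩ := h.dg x
  filter_upwards [g2, t.loc x x 1 one_pos, g1.2 _ (half_pos hε), big_dl t.big C (half_pos hε)]
    with n a b c d ω u i p
  rw [dl_inv] at d
  refine (hC _ _ ω x p _ (b.val ω u).1 (b.val ω u).2 ((a ω u).1 p) i).trans ?_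
  have := g1.1 n
  rw [rd, lb, hb, mul_assoc, mul_assoc, ← Real.exp_add]
  refine (mul_le_mul d (mul_le_mul_of_nonneg_right c (Real.exp_pos _).le) (by positivity)
    (Real.exp_pos _).le).trans_eq ?_
  rw [← Real.exp_add, ← Real.exp_add]
  congr 1
  ring

theorem jet_bd {ε : ℝ} (hε : 0 < ε) : ∀ᶠ n in UF, ∀ ω ∈ (X n).P.S, ∀ (i : ℕ) p,
    |jet (X n) (F n) ω i p| ≤ Real.exp (ε * (X n).u) := by
  simpa using jet_cf t h hb 0 hε

theorem jet_hom (K : ℝ) : ∀ᶠ n in UF, ∀ ω ∈ (X n).P.S, ∀ (i : ℕ) p, la p ≠ i * lg →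
    |jet (X n) (F n) ω i p| ≤ dl (uu X) K n := by
  refine (all_i (D := D) (p := fun n i => ∀ p, ∀ ω ∈ (X n).P.S, la p ≠ i * lg →
    |jet (X n) (F n) ω i p| ≤ dl (uu X) K n) (fun i => eventually_all.2 fun p => ?_)
    fun n i e p ω _ _ => by rw [jet_top _ _ _ _ e, abs_zero]; exact (Real.exp_pos _).le).mono
    fun n a ω u i p => a i p ω u
  by_cases e : la p = i * lg
  · exact .of_forall fun _ _ _ z => absurd e z
  set δ := la p - i * lg with hδ
  have d0 : 0 < |δ| := abs_pos.2 (sub_ne_zero.2 e)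
  obtain ⟨x, hx⟩ := exists_rat_near ((K + 3) / δ) (inv_pos.2 d0)
  have h1 : K + 2 ≤ δ * x := by
    have := mul_le_mul_of_nonneg_left hx.le d0.le
    rw [← abs_mul, mul_sub, mul_div_cancel₀ _ (abs_pos.1 d0), mul_inv_cancel₀ d0.ne'] at this
    linarith [(abs_le.1 this).2]
  filter_upwards [jet_cf t h hb x one_pos, t.lev 0 x (inv_pos.2 d0)] with n a b ω u _
  refine (a ω u i p).trans (Real.exp_le_exp.2 ?_)
  have := mul_le_mul_of_nonneg_left b d0.le
  rw [← abs_mul, ← mul_assoc, mul_inv_cancel₀ d0.ne', Rat.cast_zero, sub_zero] at this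
  have u0 : (0 : ℝ) ≤ (X n).u := Nat.cast_nonneg _
  nlinarith [(abs_le.1 this).1]

omit t hb in
theorem rel_ev (x : ℚ) {K : ℕ} (hK : D < K) : ∀ᶠ n in UF, ∀ ω v v', Mt2 (X n) x ω v v' → ∀ i p,
    mulVec (((F n).J v)⁻¹ * (F n).J v') (jet (X n) (F n) v' i) p = ∑ j ∈ range K,
      (j.factorial : ℝ)⁻¹ * ((2 ^ (X n).lv 0 * ((X n).g.z v' - (X n).g.z v)) ^ j *
        jet (X n) (F n) v (i + j) p) := by
  filter_upwards [h.fe x, h.uj] with n a b ω v v' ⟨u, u', w, w'⟩ i p
  exact jet_rel _ _ (congrArg Prod.fst (w.trans w'.symm)) (a v u v' u' (w.trans w'.symm))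
    (b v' u').det hK i p

theorem eb_pair {x : ℚ} {ω v v' : ∀ n, (X n).Ω} (e : ∀ n, Mt2 (X n) x (ω n) (v n) (v' n)) :
    (∀ p q, EB (uu X) fun n => (((F n).J (v n))⁻¹ * (F n).J (v' n)) p q) ∧
      EB (uu X) fun n => 2 ^ (X n).lv 0 * ((X n).g.z (v' n) - (X n).g.z (v n)) := by
  have k : ∀ c : ℝ, ∀ᶠ n in UF,
      c * (((X n).lv x : ℝ) - (X n).lv 0) ≤ |c| * (|(x : ℝ)| + 1) * (X n).u := fun c =>
    (t.lev 0 x one_pos).mono fun n b => by
      rw [Rat.cast_zero, sub_zero] at b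
      have := abs_add_le (((X n).lv x : ℝ) - (X n).lv 0 - x * (X n).u) (x * (X n).u)
      rw [sub_add_cancel, abs_mul, Nat.abs_cast] at this
      refine (le_abs_self _).trans ?_
      rw [abs_mul, mul_assoc]
      exact mul_le_mul_of_nonneg_left (by linarith) (abs_nonneg _)
  refine ⟨fun p q => ?_, |-lg| * (|(x : ℝ)| + 1), (k (-lg)).mono fun n a => ?_⟩
  · obtain ⟨G, g1, g2⟩ := h.inc x
    refine ⟨1 + |la q - la p| * (|(x : ℝ)| + 1), ?_⟩
    filter_upwards [g2, g1.2 1 one_pos, k (la q - la p)] with n a b c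
    obtain ⟨u, u', w, w'⟩ := e n
    refine (a _ u _ u' (w'.trans w.symm) p q).trans ?_
    rw [rd, rd, ← Real.exp_sub, add_mul, Real.exp_add, lb, hb]
    exact mul_le_mul b (Real.exp_le_exp.2 (by linarith)) (Real.exp_pos _).le (Real.exp_pos _).le
  · exact (ht_le _ ((e n).2.2.1.trans (e n).2.2.2.symm)).trans (Real.exp_le_exp.2 (by linarith))

theorem jet_same {x : ℚ} {ω v v' : ∀ n, (X n).Ω} (e : ∀ n, Mt2 (X n) x (ω n) (v n) (v' n))
    (i : ℕ) (p : Fin m) :
    Neg (uu X) fun n => jet (X n) (F n) (v n) i p - jet (X n) (F n) (v' n) i p := by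
  classical
  have hm : ∀ w : ∀ n, (X n).Ω, (∀ n, w n ∈ (X n).P.S) → ∀ (i : ℕ) p, la p ≠ i * lg →
      Neg (uu X) fun n => jet (X n) (F n) (w n) i p := fun w u i p z K =>
    (jet_hom t h hb K).mono fun n a => a _ (u n) i p z
  by_cases z : la p = i * lg
  swap
  · exact (hm v (fun n => (e n).1) i p z).sub t.big (hm v' (fun n => (e n).2.1) i p z)
  obtain ⟨e1, e2⟩ := eb_pair t h hb e
  have a1 := Neg.sum t.big (univ.filter fun q => la q < la p) fun q u =>
    (e1 p q).neg (hm v' (fun n => (e n).2.1) i q (z ▸ (mem_filter.1 u).2.ne))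
  have a2 := Neg.sum t.big (range D) fun j _ => ((e2.pow (j + 1)).neg
    (hm v (fun n => (e n).1) (i + (j + 1)) p (by
      rw [z]; push_cast; nlinarith [lg_pos, Nat.cast_nonneg (α := ℝ) j]))).mul'
      (ob_const t.big (((j + 1).factorial : ℝ)⁻¹))
  refine (a1.sub t.big a2).congr ?_
  filter_upwards [rel_ev h x D.lt_succ_self, h.up x] with n a b
  obtain ⟨u, u', w, w'⟩ := e n
  have c := b _ u _ u' (w'.trans w.symm)
  have d := a _ _ _ (e n) i p
  rw [sum_range_succ', mulVec, dotProduct,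
    ← sum_filter_add_sum_filter_not _ (fun q => la q < la p),
    sum_eq_single (s := univ.filter fun q => ¬la q < la p) p (fun q r r' => by
      rw [c p q (mem_filter.1 r).2, Matrix.one_apply_ne' r', zero_mul]) (by simp),
    c p p (lt_irrefl _)] at d
  simp only [Matrix.one_apply_eq, one_mul, Nat.factorial_zero, Nat.cast_one, inv_one, pow_zero,
    add_zero] at d
  linarith

theorem jet_log (l1 : L1 kk la o τ S C L X F A) {ω v v' : ∀ n, (X n).Ω}
    (e : ∀ n, ω n ∈ (X n).P.S ∧ Mt2 (X n) 0 (ω n) (v n) (v' n)) (i : ℕ) (p : Fin m) :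
    Neg (uu X) fun n => mulVec (vec (eB la) (co la (X n) (F n) 0 (v n) (v' n)))
      (jet (X n) (F n) (ω n) i) p - 2 ^ (X n).lv 0 * ((X n).g.z (v' n) - (X n).g.z (v n)) *
        jet (X n) (F n) (ω n) (i + 1) p := by
  set Z := fun n => vec (eB la) (co la (X n) (F n) 0 (v n) (v' n)) with hZ
  set σ := fun n => 2 ^ (X n).lv 0 * ((X n).g.z (v' n) - (X n).g.z (v n)) with hσ
  obtain ⟨e1, e2⟩ := eb_pair t h hb fun n => (e n).2
  have oZ : ∀ p q, OB (uu X) fun n => Z n p q := fun p q => by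
    simp only [hZ, vec, Matrix.sum_apply, Matrix.smul_apply, smul_eq_mul]
    exact ob_sum t.big _ fun b _ => ob_mul t.big (fun c hc => (l1.box 0 c hc).mono fun n a => by
      rw [dl_inv]; exact a _ _ _ (e n).2 b) (ob_const t.big _)
  let U : Submodule ℝ (ℕ → ℕ → Fin m → ℝ) :=
    { carrier := {w | ∀ i p, Neg (uu X) fun n => w n i p}
      add_mem' := fun a b i p => (a i p).add t.big (b i p)
      zero_mem' := fun _ _ => GA.neg_zero
      smul_mem' := fun c _ a i p => (a i p).mul' (ob_const t.big c) }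
  let a : Module.End ℝ (ℕ → ℕ → Fin m → ℝ) :=
    { toFun := fun w n i => mulVec (Z n) (w n i)
      map_add' := fun _ _ => by funext n i; exact Matrix.mulVec_add _ _ _
      map_smul' := fun c w => by funext n i; exact Matrix.mulVec_smul (Z n) c (w n i) }
  let b : Module.End ℝ (ℕ → ℕ → Fin m → ℝ) :=
    { toFun := fun w n i => σ n • w n (i + 1)
      map_add' := fun _ _ => by funext n i; exact smul_add _ _ _
      map_smul' := fun c w => by funext n i; exact smul_comm (σ n) c (w n (i + 1)) }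
  have pa : ∀ (j : ℕ) w n i, (a ^ j) w n i = mulVec (Z n ^ j) (w n i) := fun j => by
    induction j with
    | zero => simp
    | succ j ih =>
      intro w n i
      rw [pow_succ, Module.End.mul_apply, ih, pow_succ, ← Matrix.mulVec_mulVec]
      rfl
  have pb : ∀ (j : ℕ) w n i, (b ^ j) w n i = σ n ^ j • w n (i + j) := fun j => by
    induction j with
    | zero => simp
    | succ j ih =>
      intro w n i
      rw [pow_succ, Module.End.mul_apply, ih, pow_succ, mul_smul]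
      rfl
  have mZ : ∀ n, Z n ∈ (tri la).F 0 := fun n => (N2.isFr la).mem _
  refine log_key U (a := a) (b := b) (w := fun n => jet (X n) (F n) (ω n)) (K := m + 1 + D)
    (LinearMap.ext fun w => by funext n i; exact Matrix.mulVec_smul (Z n) (σ n) (w n (i + 1)))
    (fun w u i p => Neg.sum t.big univ fun q _ => (u i q).mul' (oZ p q))
    (fun w u i p => e2.neg (u _ p)) (fun i p => neg_ev (.of_forall fun n => ?_))
    (fun i p => neg_ev (.of_forall fun n => ?_)) (fun i p => ?_) i p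
  · have : Z n ^ (m + 1) = 0 := (tri la).pow_zero' (mZ n)
    rw [pa, pow_add, this, zero_mul, Matrix.zero_mulVec, Pi.zero_apply]
  · rw [pb, Pi.smul_apply, jet_top _ _ _ _ (by omega), smul_zero]
  have a1 := Neg.sum t.big univ fun q _ => (e1 p q).neg (jet_same t h hb (x := 0) (ω := ω)
    (fun n => ⟨(e n).1, (e n).2.2.1, rfl, (e n).2.2.2.2⟩) i q)
  have a2 := Neg.sum t.big (range (m + 1 + D + 1 + 1)) fun j _ => ((e2.pow j).neg
    (jet_same t h hb (x := 0) (ω := ω) (fun n => ⟨(e n).2.1, (e n).1, (e n).2.2.2.1, rfl⟩)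
      (i + j) p)).mul' (ob_const t.big ((j.factorial : ℝ)⁻¹))
  refine (a1.add t.big a2).congr ?_
  filter_upwards [rel_ev h 0 (show D < m + 1 + D + 1 + 1 by omega), l1.ex 0, h.uj]
    with n c d f
  have c := c _ _ _ (e n).2 i p
  have k : ((F n).J (v n))⁻¹ * (F n).J (v' n) = ∑ j ∈ range (m + 1 + D + 1 + 1),
      (j.factorial : ℝ)⁻¹ • Z n ^ j := by
    have := Ch.exp_smul (mZ n) 1 (D + 1 + 1)
    simp only [one_smul, one_pow, mul_one] at this
    rw [d _ _ _ (e n).2, Matrix.nonsing_inv_mul_cancel_left _ _ (f _ (e n).2.1).det]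
    refine Eq.trans ?_ this
    refine congrArg (fun y => IsNilpotent.exp (vec (eB la) y)) (funext fun b => ?_)
    simp only [co, lb, hb, sub_self, mul_zero, Real.exp_zero, one_mul]
  have : ∑ j ∈ range (m + 1 + D + 1 + 1), (j.factorial : ℝ)⁻¹ *
      mulVec (Z n ^ j) (jet (X n) (F n) (ω n) i) p =
      mulVec (((F n).J (v n))⁻¹ * (F n).J (v' n)) (jet (X n) (F n) (ω n) i) p := by
    rw [k, Matrix.sum_mulVec, Finset.sum_apply]
    simp only [Matrix.smul_mulVec, Pi.smul_apply, smul_eq_mul]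
  simp only [Finset.sum_apply, Pi.smul_apply, LinearMap.sub_apply, Pi.sub_apply, pa, pb,
    smul_eq_mul, mul_sub, sum_sub_distrib, mulVec, dotProduct, hσ] at this c ⊢
  linarith

end Seq

theorem phi_eq (G G' : Fin m → ℝ) (p : Fin m) (y : El la → ℝ) :
    ∑ b, (mulVec (eB la b) G p - eB la b τ o * G' p) * y b =
      mulVec (vec (eB la) y) G p - vec (eB la) y τ o * G' p := by
  rw [vec, Matrix.sum_mulVec, Finset.sum_apply, Matrix.sum_apply, sum_mul, ← sum_sub_distrib]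
  refine sum_congr rfl fun b _ => ?_
  rw [Matrix.smul_mulVec, Pi.smul_apply, Matrix.smul_apply, smul_eq_mul, smul_eq_mul]
  ring

theorem sL3 : SL3 := by
  intro N D m E η θ β js Γ sl kk la o τ S C L X F A t h hb l1 l2
  have top := fun n ω i p e => jet_top (i := i) (X n) (F n) ω p e
  refine ⟨fun ε => jet_bd t h hb, top, ?_, fun K => (h.ev K).mono fun n a ω u p => ?_,
    jet_hom t h hb, fun x K => ?_, fun K => ?_⟩
  · filter_upwards [h.eo, h.uj, h.row] with n a b c ω u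
    have e : Fr.act ((F n).J ω) ((F n).f ω) = (F n).E ω := by
      rw [Fd.f, ← Fr.act_mul, Matrix.mul_nonsing_inv _ (b ω u).det, Fr.act_one]
    have ne : τ ≠ o := fun z => lg_pos.ne (by rw [← h.lτ, z, h.lo])
    have e1 := jt_act (X n) ω ((F n).J ω) ((F n).f ω) 1
    obtain ⟨a1, s, a2⟩ := a ω u
    have e2 := e1 o
    have e3 := e1 τ
    rw [e, a1, mulVec, dotProduct, sum_eq_single o (fun q _ r => by
      rw [b ω u o q (h.ko q r).not_gt, Matrix.one_apply_ne' r, zero_mul]) (by simp),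
      b ω u o o (lt_irrefl _), Matrix.one_apply_eq, one_mul] at e2
    rw [e, a2, mulVec, dotProduct, ← add_sum_erase _ _ (mem_univ o), ← e2,
      sum_congr rfl fun q r => by rw [c ω u q (ne_of_mem_erase r)], sum_eq_single τ
        (fun q _ r => by rw [Matrix.one_apply_ne' r, zero_mul]) (by simp [ne])] at e3
    rw [jet_eq]
    simp only [jt, map_one, Polynomial.coeff_one, one_ne_zero, if_false, mul_zero, zero_add,
      Matrix.one_apply_eq, one_mul, Nat.factorial_one, Nat.cast_one] at e3 ⊢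
    rw [← e3, hb, mul_comm lg, ← two_pow_eq]
    have : (2 : ℝ) ^ (X n).lv 0 ≠ 0 := by positivity
    rw [map_sub, map_mul, MvPolynomial.aeval_X, lp]
    generalize (2 : ℝ) ^ (X n).lv 0 = y at this
    simp [Sh.dv, this]
  · have := a ω u p
    rw [rd, lb, hb, sub_self, mul_zero, neg_zero, Real.exp_zero, mul_one] at this
    rwa [jet, Polynomial.coeff_zero_eq_eval_zero, lp_ev, zero_div, add_zero, ← En5.tp_eq,
      Nat.factorial_zero, Nat.cast_one, one_mul]
  · refine (mt2_all (x := x) (p := fun n _ v v' => ∀ i p,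
      |jet (X n) (F n) v i p - jet (X n) (F n) v' i p| ≤ dl (uu X) K n) fun ω v v' e =>
      all_i (D := D) (fun i => eventually_all.2 fun p =>
        jet_same t h hb (fun n => (e n).2) i p K) fun n i z p => ?_).mono
      fun n a ω v v' e => a v e.1 v v' ⟨e.1, e.2.1, rfl, e.2.2.2.trans e.2.2.1.symm⟩
    rw [top _ _ _ _ z, top _ _ _ _ z, sub_self, abs_zero]
    exact (Real.exp_pos _).le
  have k := mt2_all (x := 0) (p := fun n ω v v' => ∀ i p,
      |mulVec (vec (eB la) (co la (X n) (F n) 0 v v')) (jet (X n) (F n) ω i) p -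
        vec (eB la) (co la (X n) (F n) 0 v v') τ o * jet (X n) (F n) ω (i + 1) p| ≤
      dl (uu X) (|K| + 2) n) fun ω v v' e => all_i (D := D) (fun i => eventually_all.2 fun p =>
      ((jet_log t h hb l1 e i p).sub t.big (Neg.mul (fun T => (l2.tt 0 T).mono fun n a =>
        a _ _ _ (e n).2) (v := fun n => jet (X n) (F n) (ω n) (i + 1) p) fun c hc =>
        (jet_bd t h hb hc).mono fun n a => by rw [dl_inv]; exact a _ (e n).1 _ _)).congr
        (.of_forall fun n => by ring) _) fun n i z p => by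
      rw [show jet (X n) (F n) (ω n) i = 0 from funext fun q => top _ _ _ q z,
        top _ _ _ _ (by omega : D < i + 1)]
      simpa [dl] using (Real.exp_pos _).le
  filter_upwards [k, l1.lin 0 (|K| + 2) 1 one_pos, jet_bd t h hb one_pos,
    big_dl t.big (m + 1) one_pos] with n a b c d ω u e i p
  have u0 : (0 : ℝ) ≤ (X n).u := Nat.cast_nonneg _
  have f : ∀ b p q, |eB la b p q| ≤ 1 := fun b p q => by
    rw [eB, Matrix.single_apply]
    split_ifs <;> simp
  rw [lt, ← phi_eq]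
  refine (b ω u _ _ (fun z => ?_) le_rfl (fun v v' w => by rw [phi_eq]; exact a ω u v v' w i p)
    e).trans ?_
  · rw [dl_inv] at d
    have k1 := Ch.mv_le (r := p) (f z) (Real.exp_pos _).le fun q _ => c ω u i q
    have k2 := mul_le_mul (f z τ o) (c ω u (i + 1) p) (abs_nonneg _) zero_le_one
    refine (abs_sub _ _).trans ?_
    rw [abs_mul]
    calc _ ≤ (m + 1) * Real.exp (1 * (X n).u) := by linarith
      _ ≤ Real.exp (1 * (X n).u) * Real.exp (1 * (X n).u) :=
        mul_le_mul_of_nonneg_right d (Real.exp_pos _).le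
      _ ≤ _ := by
        rw [← Real.exp_add]
        exact Real.exp_le_exp.2 (by nlinarith [abs_nonneg K])
  · rw [dl, dl, ← Real.exp_add]
    exact Real.exp_le_exp.2 (by nlinarith [le_abs_self K])

end Pool.Agent.MP_5168f5_an.QA.AB
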