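import Pool.Agent.MP_5168f5_an.QA.CpOne

/-! The Kakeya maximal estimate: a filtered system has a chain of caps. -/

namespace Pool.Agent.MP_5168f5_an.QA.Cp

open H19 H17S H17F AN AN.GA AN.N6 Filter

variable {ι κ α : Type} [Fintype ι] [DecidableEq ι] [Fintype κ] [DecidableEq κ] [Fintype α]
  {σ : Cs ι κ α} {Y : ℕ → Pd ι κ α}

theorem ev_le' {p : ℕ → ℕ → Prop} {m : ℕ} (h : ∀ k ≤ m, ∀ᶠ n in UF, p k n) :
    ∀ᶠ n in UF, ∀ k ≤ m, p k n := (eventually_all_finite (Set.finite_Iic m)).2 h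

theorem PreG.gr (h : PreG σ Y) {ρ : ℚ} (r0 : 0 ≤ ρ) (r1 : ρ ≤ 1) {m : ℕ} (hm : m ≠ 0) {ε : ℝ}
    (hε : 0 < ε) : ∀ᶠ n in UF, (Y n).Gr σ (xk ρ m) m ε := by
  have x0 : ∀ k, 0 ≤ xk ρ m k := fun k => (xk_zero ρ m).ge.trans (xk_le r1 k.zero_le)
  have x1 : ∀ k ≤ m, xk ρ m k ≤ 1 := fun k a =>
    (xk_le r1 a).trans ((xk_top ρ hm).le.trans (by linarith))
  filter_upwards [ev_le' fun k _ => ev_le' fun k' b => eventually_imp_distrib_left.2 fun c =>
      h.nest _ _ (x0 k) (xk_le r1 (c : k ≤ k')) (x1 k' b),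
    ev_le' fun k a => h.nest _ _ (x0 k) (x1 k a) le_rfl, h.zS, h.zT, h.tS, h.tO, h.fB, h.fA,
    h.alg ε hε, h.near ε hε, h.tt ε hε, ev_le' fun k a => h.inc _ (x0 k) (x1 k a) ε hε,
    ev_le' fun k a => h.ac _ (x0 k) (x1 k a) ε hε,
    ev_le' (m := m) fun i _ => ev_le' (m := m) fun k _ => ev_le' fun k' b =>
      eventually_imp_distrib_left.2 fun c =>
        h.ht i _ _ (x0 k) (xk_le r1 (c : k ≤ k')) (x1 k' b) ε hε]
    with n a1 a2 a3 a4 a5 a6 a7 a8 a9 b1 b2 b3 b4 b5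
  exact ⟨a1, fun k a => (a2 k a).trans a3, a4, a5, a6, a7, a8, a9, b1, b2, b3, b4, b5⟩

/-- The slow grid. -/
theorem PreG.grid (h : PreG σ Y) {ρ : ℚ} (r0 : 0 < ρ) (r1 : ρ ≤ 1) : ∃ m s : ℕ → ℕ, Big m ∧
    ∀ᶠ n in UF, Nm1 σ ρ (Y n).M (m n) (s n) (1 / (m n + 1 : ℝ) ^ 4 * (Y n).M) ∧
      (Y n).Gr σ (xk ρ (m n)) (m n) (1 / (m n + 1 : ℝ) ^ 4) := by
  have r0' : (0 : ℝ) < ρ := by exact_mod_cast r0
  have r1' : (ρ : ℝ) ≤ 1 := by exact_mod_cast r1
  obtain ⟨m, bm, hm⟩ := KSA.spill (fun i n => i ≠ 0 → (Y n).Gr σ (xk ρ i) i (1 / (i + 1 : ℝ) ^ 4) ∧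
    (i + 1 : ℝ) ^ 5 ≤ (Y n).M ∧ Real.log ((Y n).M + 1) ≤ 1 / (i + 1 : ℝ) ^ 4 * (Y n).M) fun i =>
    eventually_imp_distrib_left.2 fun c => (h.gr r0.le r1 c (by positivity)).and ((h.big.ev _).and
      (((Sub.nat h.big).log (1 / (i + 1 : ℝ) ^ 4) (by positivity)).mono fun n a =>
        a.trans_eq (zero_add _)))
  refine ⟨m, fun n => ⌊(1 - ρ : ℝ) * (Y n).M / m n⌋₊, bm, ?_⟩
  filter_upwards [hm, tendsto_atTop.1 bm 3, bm.ev σ.c0, bm.ev (4 / (σ.g * ρ))] with n a b c d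
  obtain ⟨a1, a2, a3⟩ := a _ le_rfl (by omega)
  have m3 : (3 : ℝ) ≤ m n := by exact_mod_cast b
  have M0 : (0 : ℝ) ≤ (Y n).M := Nat.cast_nonneg _
  have mv : (m n + 1 : ℝ) ≤ 1 / (m n + 1 : ℝ) ^ 4 * (Y n).M := by
    rw [one_div, le_inv_mul_iff₀ (by positivity), ← pow_succ]; exact a2
  have gρ := mul_pos h.g0 r0'
  refine ⟨⟨b, rfl, mv, a3, by linarith, ?_, ?_, ?_⟩, a1⟩
  · rw [← mul_assoc]
    refine mul_le_mul_of_nonneg_right ?_ M0
    rw [div_le_iff₀ gρ] at d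
    rw [mul_one_div, div_le_iff₀ (by positivity)]
    nlinarith [mul_le_mul_of_nonneg_left (le_self_pow₀ (show (1 : ℝ) ≤ m n + 1 by linarith)
      four_ne_zero) gρ.le]
  · exact (le_div_iff₀' (by linarith)).1 (Nat.floor_le (div_nonneg
      (mul_nonneg (by linarith) M0) (by linarith)))
  · exact (div_le_iff₀' (by linarith)).1 (Nat.lt_floor_add_one _).le

theorem exists_forall_of_imp {β : Type} [Nonempty β] {p : Prop} {q : β → Prop} (h : p → ∃ y, q y) :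
    ∃ y, p → q y := ⟨Classical.epsilon q, fun a => Classical.epsilon_spec (h a)⟩

theorem sCh : SCh := by
  intro ι κ α _ _ _ _ _ σ Y h K₀
  have t0 := h.live _ h.tau
  have g0 := h.g0
  have be := h.be0
  have l0 := h.l0
  have : Nonempty κ := ⟨σ.τ⟩
  have d1 : (1 : ℝ) ≤ Fintype.card κ := by exact_mod_cast Fintype.card_pos
  have mb : 0 ≤ σ.m - σ.be := Le.num h.big
    ((Le.of_le fun n => by simpa using mi_nonneg _ _ _).trans h.top)
  have m0 : 0 < σ.m := by linarith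
  obtain ⟨ρ, r0', r1'⟩ := exists_rat_btwn (show 0 < min (1 / 2) (σ.be / (4 * σ.m)) by positivity)
  have r0 : 0 < ρ := by exact_mod_cast r0'
  have r2 : (ρ : ℝ) ≤ 1 / 2 := r1'.le.trans (min_le_left _ _)
  have r1 : ρ ≤ 1 / 2 := (Rat.cast_le (K := ℝ)).1 (by simpa using r2)
  have r3 : ρ * (4 * σ.m) ≤ σ.be := (le_div_iff₀ (by positivity)).1 (r1'.le.trans (min_le_right _ _))
  obtain ⟨K, k0, k1, k2⟩ : ∃ K : ℝ, K₀ ≤ K ∧ 0 < K ∧ σ.m / K ≤ σ.g * ρ / 8 := by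
    have p : 0 < σ.m / (σ.g * ρ / 8) := by positivity
    refine ⟨max K₀ (σ.m / (σ.g * ρ / 8)), le_max_left _ _, p.trans_le (le_max_right _ _), ?_⟩
    exact (div_le_comm₀ (p.trans_le (le_max_right _ _)) (by positivity)).2 (le_max_right _ _)
  obtain ⟨r, p0, p1⟩ : ∃ r : ℝ, 0 < r ∧ K * r = σ.be / 4 :=
    ⟨σ.be / 4 / K, by positivity, mul_div_cancel₀ _ k1.ne'⟩
  obtain ⟨c, c0, c1⟩ : ∃ c : ℝ, 0 < c ∧ c = min r (1 - ((1 - ρ : ℚ) : ℝ)) / σ.L₀ :=
    ⟨_, by push_cast; rw [sub_sub_cancel]; positivity, rfl⟩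
  obtain ⟨δ, q0, q1⟩ : ∃ δ : ℝ, 0 < δ ∧
      δ * (5 + K * ((Fintype.card κ * σ.g + 1) * (1 + 3 / c))) = σ.be / 4 :=
    ⟨σ.be / 4 / _, by positivity, div_mul_cancel₀ _ (by positivity)⟩
  obtain ⟨La, u1, u2⟩ : ∃ La : ℝ, 1 ≤ La ∧ Fintype.card κ * σ.g / La ≤ δ :=
    ⟨max 1 (Fintype.card κ * σ.g / δ), le_max_left _ _,
      (div_le_comm₀ (by positivity) q0).2 (le_max_right _ _)⟩
  obtain ⟨f, pf, hf⟩ := sd_ok σ g0 h.wt h.et t0
  obtain ⟨m, s, bm, hm⟩ := h.grid r0 (by linarith)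
  obtain ⟨v, hv⟩ : ∃ v : ℕ → ℝ, ∀ n, 1 / (m n + 1 : ℝ) ^ 4 * (Y n).M = v n := ⟨_, fun _ => rfl⟩
  simp only [hv] at hm
  have v0 : ∀ n, 0 ≤ v n := fun n => by rw [← hv]; positivity
  have sm : ∀ ε : ℝ, 0 < ε → ∀ᶠ n in UF, (m n + 1) ^ 2 * v n ≤ ε * (Y n).M := fun ε hε =>
    (bm.ev (1 / ε)).mono fun n a => by
      have : (0 : ℝ) ≤ m n := Nat.cast_nonneg _
      rw [← hv, ← mul_assoc, div_le_iff₀ hε] at *
      refine mul_le_mul_of_nonneg_right ?_ (Nat.cast_nonneg _)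
      rw [mul_one_div, div_le_iff₀ (by positivity)]
      nlinarith [mul_le_mul_of_nonneg_right (show 1 ≤ ε * (m n + 1) ^ 2 by nlinarith)
        (sq_nonneg (m n + 1 : ℝ))]
  have ve : ∀ᶠ n in UF, 16 * v n ≤ (m n + 1) ^ 2 * v n := hm.mono fun n a => by
    have : (3 : ℝ) ≤ m n := by exact_mod_cast a.1.m3
    exact mul_le_mul_of_nonneg_right (by nlinarith) (v0 n)
  have sL : ∀ U : ℕ → ℕ, (∀ ε : ℝ, 0 < ε → ∀ᶠ n in UF, 2 * v n ≤ ε * U n) →
      Sub U fun n => Real.exp (2 * v n) := fun U a =>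
    ⟨fun n => Real.one_le_exp (by linarith [v0 n]),
      fun ε hε => (a ε hε).mono fun n b => Real.exp_le_exp.2 b⟩
  have hLs : ∀ᶠ n in UF, f (Real.exp (2 * v n)) ≤ Real.exp ((m n + 1) * v n) := by
    have b : Big fun n => ⌈m n * v n⌉₊ := tendsto_atTop_mono' _ (hm.mono fun n a =>
      Nat.cast_le.1 ((le_mul_of_one_le_right (Nat.cast_nonneg _) (by
        linarith [a.1.mv, Nat.cast_nonneg (α := ℝ) (m n)])).trans (Nat.le_ceil _))) bm
    filter_upwards [(pf.2 _ _ b (sL _ fun ε hε => (bm.ev (2 / ε)).mono fun n a => by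
      rw [div_le_iff₀' hε] at a
      nlinarith [mul_le_mul_of_nonneg_left (Nat.le_ceil (m n * v n)) hε.le,
        mul_le_mul_of_nonneg_right a (v0 n)])).2 1 one_pos, hm] with n a b
    have := Nat.ceil_lt_add_one (mul_nonneg (Nat.cast_nonneg (m n)) (v0 n))
    exact a.trans (Real.exp_le_exp.2 (by linarith [b.1.mv, Nat.cast_nonneg (α := ℝ) (m n)]))
  choose y hy using fun n => exists_forall_of_imp fun a : (Nm1 σ ρ (Y n).M (m n) (s n) (v n) ∧
      (Y n).Gr σ (xk ρ (m n)) (m n) (1 / (m n + 1 : ℝ) ^ 4)) ∧ _ => hf (Y n) ρ (m n) (s n) (v n) K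
    (δ / Fintype.card κ ^ 2) La r0 r1 a.1.1 a.1.2 a.2 (by positivity) u1 k2
  replace hy := (hm.and hLs).mono hy
  have U1 : ∀ᶠ n in UF, (1 - ρ : ℝ) * (Y n).M - (m n + 1) ^ 2 * v n ≤ (m n * s n : ℕ) :=
    (hm.and ve).mono fun n a => by push_cast; linarith [a.1.1.s2, a.1.1.mv, v0 n]
  have xt : ∀ᶠ n in UF, xk ρ (m n) (m n) = 1 - ρ := hm.mono fun n a =>
    xk_top ρ (by have := a.1.m3; omega)
  have ac := h.acw (1 - ρ) r (σ.g * ρ / 2) _ (fun n => (y n).2.1 (m n)) (fun n => (y n).1 (m n)) _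
    (by linarith) (by linarith) p0 (sL _ fun ε hε => ((sm ε hε).and ve).mono fun n a => by
      linarith [a.1, a.2, v0 n])
    ((hy.and xt).mono fun n a p u q w e =>
      Sum.inr.inj (a.1.1.com _ le_rfl p u q w (congrArg Sum.inl (a.2.symm ▸ e))))
    (hy.mono fun n a => a.2.2.2.2.2.2)
    (hy.mono fun n a p u q w e => a.1.fΨ _ le_rfl p u q w (congrArg Sum.inr e))
    (hy.mono fun n a => a.1.good _ le_rfl)
  refine ⟨_, _, _, K, δ / Fintype.card κ ^ 2, La, σ.m - σ.be / 4, σ.g * ρ / 8, σ.g, fun n =>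
    (Y n).sd (Real.exp (σ.g * ρ / 2 * (Y n).M)) (Real.exp (2 * v n)) ((m n + 1) ^ 2 * v n) (m n)
      (s n) (xk ρ (m n)) (y n).1 (y n).2.1 (y n).2.2, k0,
    ⟨fun a => (h.wt a).elim (·.ge) g0.le.trans, h.et, h.live, h.tau, h.l1⟩, by positivity,
    by linarith, ⟨by linarith, by linarith⟩, by positivity, bm, fun ε hε => ?_, fun ε hε => ?_,
    hy.mono fun n a => a.1, fun w a => (h.cur w a _ (half_pos g0)).mono fun n b ω k e p =>
      exp_one (b ω k e p) ?_, fun i => ?_, fun ε hε => ?_, Le.of_ev ?_⟩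
  · filter_upwards [hm, bm.ev (4 / ε)] with n a b
    have m3 : (3 : ℝ) ≤ m n := by exact_mod_cast a.1.m3
    have e := hv n
    rw [one_div, inv_mul_eq_iff_eq_mul₀ (by positivity)] at e
    have b1 : (m n + 1 : ℝ) ^ 4 * (m n + 1) ≤ (Y n).M :=
      e ▸ mul_le_mul_of_nonneg_left a.1.mv (by positivity)
    have b2 : (m n : ℝ) * (m n) ^ 2 ≤ m n * s n := by
      have : 4 * (m n : ℝ) ^ 3 ≤ (m n + 1) ^ 4 := by
        rw [pow_succ' _ 3]; gcongr <;> linarith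
      nlinarith [a.1.s2, mul_le_mul_of_nonneg_right r2 (Nat.cast_nonneg (α := ℝ) (Y n).M)]
    have b3 := mul_le_mul_of_nonneg_left (le_of_mul_le_mul_left b2 (by linarith)) hε.le
    rw [div_le_iff₀' hε] at b
    change Real.log (m n + 1) ≤ 0 + ε * s n
    nlinarith [Real.log_le_sub_one_of_pos (show (0 : ℝ) < m n + 1 by linarith)]
  · filter_upwards [U1, sm (1 / 4) (by norm_num), sm (ε / 4) (by positivity)] with n a b c
    change (m n + 1) ^ 2 * v n ≤ 0 + ε * (m n * s n : ℕ)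
    nlinarith [mul_le_mul_of_nonneg_left (show (Y n).M / 4 ≤ ((m n * s n : ℕ) : ℝ) by
      nlinarith [mul_le_mul_of_nonneg_right r2 (Nat.cast_nonneg (α := ℝ) (Y n).M)]) hε.le]
  · nlinarith [mul_le_mul_of_nonneg_right (mul_le_mul_of_nonneg_left r2 g0.le)
      (Nat.cast_nonneg (α := ℝ) (Y n).M), mul_nonneg g0.le (Nat.cast_nonneg (α := ℝ) (Y n).M)]
  · filter_upwards [hy, hm, tendsto_atTop.1 bm i, bm.ev (4 * 2 ^ σ.kf i)] with n a b c d
    exact a.2.1 i c (by linarith [Real.add_one_le_exp (v n), b.1.mv])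
  · filter_upwards [hy, bm.ev (2 / ε)] with n a b
    refine a.2.2.1.trans ((div_le_comm₀ (by positivity) hε).2 (by linarith))
  · filter_upwards [hy, U1, ac δ q0, h.top δ q0, sm (δ / 4) (by positivity),
      sm (δ / (σ.m + 1)) (by positivity), h.big.ev (1 + Real.log ((Fintype.card κ).factorial *
        Fintype.card κ ^ Fintype.card κ))] with n a b c' d e e' g
    obtain ⟨a1, -, -, a2, a3, a4, -⟩ := a
    have fF : ∀ b, flr σ.μ (Real.exp (σ.g * ρ / 2 * (Y n).M)) b ≤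
        Real.exp (σ.g * ρ / 2 * (Y n).M) := fun b => by
      have := Real.one_le_exp (show 0 ≤ σ.g * ρ / 2 * (Y n).M by positivity)
      unfold flr; split_ifs <;> simp [this]
    have lc : 0 ≤ Real.log ((Fintype.card κ).factorial * Fintype.card κ ^ Fintype.card κ) :=
      Real.log_nonneg (one_le_mul_of_one_le_of_one_le
        (by exact_mod_cast (Fintype.card κ).factorial_pos) (one_le_pow₀ d1))
    have M0 : (0 : ℝ) < (Y n).M := by linarith
    have b1 : ch (Y n).P ((y n).2.1 (m n)) (Y n).S ≤ 3 * δ * (Y n).M := by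
      rw [mul_div_cancel₀ _ (by positivity)] at a2
      nlinarith [mul_le_mul_of_nonneg_right u2 M0.le]
    rw [← c1] at c'
    have b2 := ev_le (Y n).P _ (Y n).S (W := (Fintype.card κ * σ.g + 1) * (Y n).M)
      (mul_pos c0 M0) (by positivity) (fun ω k => (vl_bd (a1.good _ le_rfl ω k) fF).2.trans (by
        rw [Real.log_exp]
        nlinarith [mul_le_mul_of_nonneg_left (mul_le_mul_of_nonneg_right
          (mul_le_mul_of_nonneg_left r2 g0.le) M0.le) (zero_le_one.trans d1),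
          mul_nonneg (mul_nonneg g0.le M0.le) (zero_le_one.trans d1)])) (by positivity) c'
    have b3 : ch (Y n).P ((y n).2.1 (m n)) (Y n).S / (c * (Y n).M) ≤ δ * (3 / c) := by
      rw [div_le_iff₀ (mul_pos c0 M0)]
      refine b1.trans (le_of_eq ?_)
      field_simp
    have b4 := mul_le_mul_of_nonneg_left (b2.trans (add_le_add le_rfl (mul_le_mul_of_nonneg_left
      (add_le_add le_rfl b3) (by positivity)))) k1.le
    have b5 := mi_top (Y n).l (C := fun ω => (.inr ((y n).2.1 (m n) ω) : _ ⊕ _))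
      (C₀ := fun ω => (.inr ((y n).2.1 0 ω) : ((Y n).L × (Y n).Z) ⊕ _)) (S := (Y n).S)
      (fun p u q w e => a3 p u q w (Sum.inr.inj e)) fun p u q w e => congrArg _ (a4 p u q w e)
    have b6 : ch (Y n).P (fun ω => (.inr ((y n).2.1 (m n) ω) : ((Y n).L × (Y n).Z) ⊕ _)) (Y n).S ≤
        _ := (ch_mono ((Fn.comp Sum.inr _).left _)).trans b1
    have b7 := (Y n).P.E_mono (F := fun ω => K * Real.log (vl σ.μ ((y n).1 (m n) ω)) -
      K * Real.log (vl σ.μ ((y n).1 0 ω))) fun ω k => sub_le_self _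
        (mul_nonneg k1.le (vl_bd (a1.good 0 (Nat.zero_le _) ω k) fF).1)
    rw [FP.E_mul] at b7
    rw [div_mul_eq_mul_div, le_div_iff₀ (by positivity)] at e'
    have b8 := mul_le_mul_of_nonneg_left b (show 0 ≤ σ.m - σ.be / 4 by linarith)
    have b9 : K * (r * (Y n).M + (Fintype.card κ * σ.g + 1) * (Y n).M * (δ + δ * (3 / c))) =
        (σ.be / 2 - 5 * δ) * (Y n).M := by linear_combination (Y n).M * p1 + (Y n).M * q1
    refine (add_le_add (b5.trans (add_le_add d b6)) (b7.trans (b4.trans_eq b9))).trans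
      (le_trans ?_ b8)
    have e0 := mul_nonneg (sq_nonneg (m n + 1 : ℝ)) (v0 n)
    nlinarith [mul_le_mul_of_nonneg_right r3 M0.le, mul_nonneg be.le e0,
      mul_nonneg (mul_nonneg be.le r0'.le) M0.le]

end Pool.Agent.MP_5168f5_an.QA.Cp
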