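import Pool.Agent.MP_5168f5_an.QA.CpFrS

/-! The Kakeya maximal estimate: frames for the caps. -/

namespace Pool.Agent.MP_5168f5_an.QA.Cp.T2

open H19 H17S H17F R4 AN Filter Matrix Finset Real
open G39 (dl)
open C1 (Dg Hb rho)
open GA (Mt Neg neg_ev)
open N2 (Uni Bd)
open Fr (act B2 Bl Sp Sq BS DS B1 rx sq_const tr Su su_of ev_of)
open QA.Sp (mn red)

variable {κ : Type} {M : ℕ → ℕ} {m r : ℕ} [Fintype κ] [DecidableEq κ] {wt : κ → ℝ} {g0 : κ → Prop}
  {τ : κ} {sg : ℝ} {Ω : ℕ → Type} {P : ∀ n, FP (Ω n)} {N : ℕ → ℝ}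
  {S : ℚ → ∀ n, Ω n → Set (κ → ℝ)} {wm la : Fin m → ℝ} {ω ω₀ : ∀ n, Ω n}
  {f F : ℕ → Fin m → κ → ℝ}

theorem ref_of {A : Matrix κ κ ℝ} (u : IsUnit A.det) (a : ∀ p, Hg wt (wt p) (A p))
    (b : ∀ p q, g0 p → ¬g0 q → A p q = 0) (d : ∀ p, A p τ = (1 : Matrix κ κ ℝ) p τ) :
    Ref wt g0 τ A A⁻¹ := by
  refine ⟨mul_nonsing_inv _ u, fun p => ⟨a p, ?_⟩, fun p q x y => ⟨b p q x y, ?_⟩,
    fun p => ⟨d p, ?_⟩⟩
  · obtain ⟨c, h1, h2⟩ := coef a u (hg_one wt p)
    have := congrArg (· ᵥ* A⁻¹) h2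
    simp only [vecMul_vecMul, mul_nonsing_inv _ u, vecMul_one, single_one_vecMul] at this
    exact (show A⁻¹ p = c from this) ▸ h1
  · letI := A.invertibleOfIsUnitDet u
    exact blockTriangular_inv_of_blockTriangular (b := g0)
      (fun p q z => b p q (not_not.1 fun t => z.not_ge fun w => absurd w t)
        fun t => z.not_ge fun _ => t) (lt_of_not_ge fun t => y (t x))
  · rw [← nonsing_inv_mul _ u, mul_apply]
    simp [d, one_apply]

section

variable (H : FI wt g0 τ sg P M N S) (a : ∀ᶠ n in UF, ω n ∈ (P n).S)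
include H a

/-- The frame of a sample is a unitriangular image of the reference frame. -/
theorem ust (a₀ : ∀ᶠ n in UF, ω₀ n ∈ (P n).S) (h₀ : AD wt S M ω₀ wm la F)
    (h : AD wt S M ω wm la f) : (∀ᶠ n in UF, Bl wm (N2.un la (tr (f n) (F n)))) ∧
    (∀ x : ℚ, DS M 0 (nu wt S ω x) (fun n => act (N2.un la (tr (f n) (F n))) (F n)) (rx M la x)) ∧
    BS M 0 (fun _ _ => 0) fun n => N2.un la (tr (f n) (F n)) := by
  have hM := H.big
  have d0 : ∀ x : ℚ, x ≤ 0 → DS M 0 (nu wt S ω x) F (rx M la x) := fun x b => (h₀.ds x).congr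
    (((H.com x b).and (a.and a₀)).mono fun n u => congrArg (nS wt) (u.1 _ u.2.1 _ u.2.2))
    (.of_forall fun _ => rfl)
  have bs := fun x b => add_zero (0 : ℝ) ▸ (d0 x b).bs hM (h.ds x)
  have t := (d0 0 le_rfl).tr ((h.ds 0).1.mono fun _ u => u.2)
  have ds : ∀ x : ℚ, DS M 0 (nu wt S ω x) (fun n => act (N2.un la (tr (f n) (F n))) (F n))
      (rx M la x) := fun x => by
    refine (add_zero (0 : ℝ) ▸ (h.ds x).act hM (Fr.un_bs hM (bs 0 le_rfl).zero
      (by have := Fr.wd_nn la; positivity) (bs 0 le_rfl) (fun p q k => Fr.rx_eq k _)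
      (fun p q k c => ?_) (fun p q => Fr.rx_sp la x q p) fun p q k => Fr.rx_eq k.symm _)).congr
      (.of_forall fun _ => rfl) (t.mono fun n u => ?_)
    · obtain ⟨X, b⟩ := exists_nat_ge (-c / (la q - la p))
      rw [div_le_iff₀ (sub_pos.2 k)] at b
      refine zero_add c ▸ (bs (-X) (by simp)).ent (Le.of_le fun n => ?_)
      simp only [rx]
      push_cast
      nlinarith [Nat.cast_nonneg (α := ℝ) (M n)]
    · conv_rhs => enter [2]; rw [u.2]
      exact (Fr.act_div u.1 _ _).symm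
  refine ⟨?_, ds, (((d0 0 le_rfl).bs hM (ds 0)).zero.up (by simp)).congr ?_⟩
  · filter_upwards [t, h₀.hg, h.hg, (d0 0 le_rfl).inj] with n u v w i
    exact bl_un (bl_tr v (u.2 ▸ w) i)
  · filter_upwards [(d0 0 le_rfl).inj, (d0 0 le_rfl).tr ((ds 0).1.mono fun _ u => u.2)] with n i u
    exact i _ _ u.2

open Classical in
/-- The unitriangular matrices keep `g0`. -/
theorem pat {u : ℕ → Mt (Fin m)} (un : ∀ n, Uni la (u n))
    (d : ∀ x : ℚ, DS M 0 (nu wt S ω x) (fun n => act (u n) (F n)) (rx M la x))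
    (b : BS M 0 (fun _ _ => 0) u) (hr : Fintype.card {b // g0 b} = r) {J : Fin r → Fin m}
    (ij : Function.Injective J) (z : ∀ᶠ n in UF, ∀ i b, ¬g0 b → F n (J i) b = 0) (i : Fin r)
    {q : Fin m} (hq : ¬∃ j, J j = q) :
    (Neg M fun n => u n (J i) q) ∧ Neg M fun n => (u n)⁻¹ (J i) q := by
  have hM := H.big
  let Q : ℕ → Matrix (Fin r) (Fin m) ℝ := fun n => (u n)⁻¹.submatrix J id
  have m1 : ∀ n, mn (Q n) J = 1 := fun n => by
    rw [mn, det_uni (A := (Q n).submatrix id J) (l := fun i => la (J i)) fun i j k =>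
      ((un n).inv _ _ k).trans (by simp only [one_apply, ij.eq_iff]), abs_one]
  have m0 := fun n => (m1 n).trans_ne one_ne_zero
  let R : ℕ → Fin r → Fin m → ℝ := fun n i q => red (Q n) J i q - (1 : Mt (Fin m)) (J i) q
  have k1 : ∀ i q, la q ≠ la (J i) → Neg M fun n => R n i q := fun i q y =>
    (spl H a d hr (Q := Q) (z.mono fun n v => ⟨m1 n, fun i b t =>
      (congrFun (congrFun (Fr.act_inv (un n).det (F n)) (J i)) b).trans (v i b t)⟩)
      (b.inv.b0.imp (.of_forall fun n L v i q => v _ _)) y).congr (.of_forall fun n => by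
        simp only [R, one_apply_ne fun t : J i = q => y (t ▸ rfl), sub_zero])
  have e : ∀ n i q, (¬∃ j, J j = q) → u n (J i) q = -∑ p, R n i p * u n p q := fun n i q t => by
    have : (red (Q n) J * u n) i q = 0 := by
      rw [red, Matrix.mul_assoc, mul_apply]
      refine sum_eq_zero fun j _ => mul_eq_zero_of_right _ ?_
      exact (congrFun (congrFun (nonsing_inv_mul _ (un n).det) (J j)) q).trans
        (one_apply_ne fun w => t ⟨j, w⟩)
    simp only [R, sub_mul, sum_sub_distrib, ← mul_apply, this, Matrix.one_mul, zero_sub, neg_neg]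
  have ub := fun p q => (b.b0 1 one_pos).mono fun _ v => v p q
  have k2 : ∀ i q, Neg M fun n => R n i q := fun i q => by
    by_cases t : ∃ j, J j = q
    · obtain ⟨j, rfl⟩ := t
      exact neg_ev (.of_forall fun n => by
        simp only [R, QA.Sp.red_J (m0 n), one_apply, ij.eq_iff, sub_self])
    by_cases y : la q = la (J i)
    swap
    · exact k1 i q y
    refine (Neg.sum hM (univ.erase q) (f := fun p n => R n i p * u n p q)
      fun p v => ?_).neg.congr (.of_forall fun n => ?_)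
    · by_cases w : la q < la p
      · exact (k1 i p (y ▸ w.ne')).mul_exp (ub p q)
      · exact neg_ev (.of_forall fun n => by
          rw [un n p q w, one_apply_ne (ne_of_mem_erase v), mul_zero])
    · have := e n i q t
      rw [← add_sum_erase _ _ (mem_univ q), un n q q (lt_irrefl _), un n _ q (y ▸ lt_irrefl _),
        one_apply_ne fun w => t ⟨i, w⟩, one_apply_eq] at this
      linarith
  refine ⟨(Neg.sum hM univ fun p _ => (k2 i p).mul_exp (ub p q)).neg.congr
    (.of_forall fun n => e n i q hq), (Neg.sum hM univ fun j _ => (k2 j q).mul_exp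
      ((b.inv.b0 1 one_pos).mono fun _ v => v (J i) (J j))).congr (.of_forall fun n => ?_)⟩
  refine (congrFun (congrFun (QA.Sp.mul_red (m0 n)) i) q).symm.trans (mul_apply.trans
    (sum_congr rfl fun j _ => ?_))
  simp only [R, one_apply_ne fun w : J j = q => hq ⟨j, w⟩, sub_zero]
  exact mul_comm _ _

end

omit [Fintype κ] [DecidableEq κ] in
theorem dg_cg {V ι : Type} [AddCommGroup V] [Module ℝ V] {i j : Fintype ι} {ν : V → ℝ}
    {e e' : ι → V} {l l' : ι → ℝ} {L : ℝ} (h : @Dg V _ _ ι i ν e l L) (a : e' = e) (b : l' = l) :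
    @Dg V _ _ ι j ν e' l' L := by
  subst a b
  cases Subsingleton.elim i j
  exact h

theorem sFrC (hB : SBlk) : SFrC := by
  intro κ _ _ wt g0 τ sg Ω P M N S H
  classical
  have hM := H.big
  obtain ⟨v, f₀, h1, h2⟩ := hB κ wt g0 τ sg Ω P M N S H
  generalize hm : Fintype.card κ = m
  let e₀ : κ ≃ Fin m := Fintype.equivFinOfCardEq hm
  obtain ⟨wm, hw⟩ : ∃ wm : Fin m → ℝ, wm = fun p => wt (e₀.symm p) := ⟨_, rfl⟩
  obtain ⟨la, f, ad⟩ : ∃ (la : Fin m → ℝ) (f : ∀ n, Ω n → Fin m → κ → ℝ), ∀ ω : ∀ n, Ω n,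
      (∀ᶠ n in UF, ω n ∈ (P n).S) → AD wt S M ω wm la fun n => f n (ω n) := by
    refine ⟨fun p => -v (e₀.symm p), fun n ω p => f₀ n ω (e₀.symm p), fun ω a =>
      ⟨(h1.and a).mono fun n u p => hw ▸ (u.1 _ u.2).2 _, fun x => Su.ds (P := P)
        (ν := fun n ω => nS wt (S x n ω)) (f := fun n ω p => f₀ n ω (e₀.symm p))
        ((h2 x).imp fun _ k => ⟨k.1, k.2.mono fun n u ω b => ?_⟩)
        ((H.cap x).mono fun n u ω b => (u ω b).1.elim fun _ => hb_nS)
        (h1.mono fun n u ω b y => ⟨fun p => (y ᵥ* (f₀ n ω)⁻¹) (e₀.symm p), ?_⟩) a⟩⟩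
    · exact dg_cg ((u ω b).perm e₀.symm) rfl (funext fun p =>
        congrArg exp (show -(-v (e₀.symm p) * x * M n) = v (e₀.symm p) * (x * M n) by ring))
    · rw [e₀.symm.sum_comp fun p => (y ᵥ* (f₀ n ω)⁻¹) p • f₀ n ω p, ← vecMul_eq_sum, vecMul_vecMul,
        nonsing_inv_mul _ (u ω b).1, vecMul_one]
  choose ω₀ a₀ using fun n => nonempty_of_sum_ne_zero ((P n).sum_one.trans_ne one_ne_zero)
  have a₀ : ∀ᶠ n in UF, ω₀ n ∈ (P n).S := .of_forall a₀
  obtain ⟨o, F₁, l0, w0, b1, b2⟩ := chi H a₀ (ad ω₀ a₀)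
  let σ := (Fintype.equivFin {b // g0 b}).symm
  obtain ⟨J, s, F, ij, j1, b3, b4⟩ := gst H a₀ b1 σ b2
  obtain ⟨pm, p1, p2⟩ := ext_perm wt (fun b => e₀.symm
    (if h : g0 b then J (s.symm (σ.symm ⟨b, h⟩)) else o)) (univ.filter fun b => g0 b ∨ b = τ)
    (fun x u y w t => by
      have t := e₀.symm.injective t
      rcases (mem_filter.1 u).2 with i | i <;> rcases (mem_filter.1 w).2 with j | j
      · rw [dif_pos i, dif_pos j] at t
        exact congrArg Subtype.val (σ.symm.injective (s.symm.injective (ij t)))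
      · rw [dif_pos i, j, dif_neg H.tg] at t
        exact absurd t (j1 _).1
      · rw [dif_pos j, i, dif_neg H.tg] at t
        exact absurd t.symm (j1 _).1
      · exact i.trans j.symm) fun x u => by
      rcases (mem_filter.1 u).2 with u | rfl
      · simpa [dif_pos u, hw] using (j1 (s.symm (σ.symm ⟨x, u⟩))).2
      · simpa [dif_neg H.tg, hw] using w0
  obtain ⟨e, e1, e2, e3⟩ : ∃ e : κ ≃ Fin m, (∀ b, wm (e b) = wt b) ∧ e τ = o ∧
      ∀ i, e (σ (s i)) = J i := ⟨pm.trans e₀, fun b => by simpa [hw] using p1 b, by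
    simp [p2 τ (by simp), dif_neg H.tg], fun i => by
    simp [p2 (σ (s i)) (by simp [(σ (s i)).2]), dif_pos (σ (s i)).2]⟩
  have e4 : ∀ b, g0 b → ∃ i, J i = e b := fun b u =>
    ⟨s.symm (σ.symm ⟨b, u⟩), by rw [← e3]; simp⟩
  have e5 : ∀ b, ¬g0 b → ¬∃ i, J i = e b := fun b u ⟨i, w⟩ =>
    u (e.injective ((e3 i).trans w) ▸ (σ (s i)).2)
  have o1 : ∀ p q, (1 : Mt (Fin m)) (e p) (e q) = (1 : Matrix κ κ ℝ) p q := fun p q => by
    simp only [one_apply, e.injective.eq_iff]
  have tri : ∀ g : Mt (Fin m), Uni la g → Bl wm g → Tri wt (fun a => -la (e a)) (g.submatrix e e) :=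
    fun g x y p q t => ⟨not_not.1 fun w => t ((y _ _ (by rwa [e1, e1])).trans
      (one_apply_ne fun z => w (congrArg wt z)).symm),
      neg_lt_neg (not_not.1 fun w => t ((x _ _ w).trans (o1 p q)))⟩
  have us := fun ω a => ust H a a₀ b3 (ad ω a)
  refine ⟨fun a => -la (e a), fun n => of fun a => F n (e a), fun n => (of fun a => F n (e a))⁻¹,
    fun n ω => (N2.un la (tr (f n ω) (F n))).submatrix e e,
    fun n ω => (N2.un la (tr (f n ω) (F n)))⁻¹.submatrix e e,
    fun a => ⟨neg_nonneg.2 (rates H a₀ b3 _).1, (rates H a₀ b3 _).2.1⟩,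
    fun a u => neg_eq_zero.2 ((rates H a₀ b3 _).2.2 ((e1 a).trans u)), by simp only [e2, l0, neg_zero],
    ?_, ev_of fun ω a => (us ω a).1.mono fun n u => ⟨?_, tri _ N2.uni_un u,
      tri _ N2.uni_un.inv (bl_inv u N2.uni_un.det)⟩,
    fun x => su_of fun ω a => ((us ω a).2.1 x).2.imp (.of_forall fun n L u => ?_),
    su_of fun ω a => ((us ω a).2.2.b0.and (us ω a).2.2.inv.b0).imp
      (.of_forall fun n L u p q => ⟨u.1 _ _, u.2 _ _⟩),
    fun K => ev_of fun ω a => eventually_all.2 fun p => eventually_all.2 fun q =>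
      eventually_imp_distrib_left.2 fun x => eventually_imp_distrib_left.2 fun y => ?_⟩
  · filter_upwards [b3.hg, b4, (b3.ds 0).1, (b3.ds 0).2 1 one_pos] with n u w x y
    refine ref_of ((isUnit_iff_isUnit_det _).1 (linearIndependent_rows_iff_isUnit.1
      ((y.perm e).li x.1 fun _ => exp_pos _))) (fun p => e1 p ▸ u _) (fun p q i j => ?_)
      fun p => (w.1 _).trans (e2 ▸ o1 p τ)
    obtain ⟨i, k⟩ := e4 p i
    exact (congrFun (congrArg (F n) k) q).symm.trans (w.2 i q j)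
  · rw [submatrix_mul_equiv, mul_nonsing_inv _ N2.uni_un.det, submatrix_one_equiv]
  · refine dg_cg (u.perm e) ?_ (funext fun p => ?_)
    · funext p b
      exact (e.sum_comp fun q => N2.un la (tr (f n (ω n)) (F n)) (e p) q * F n q b).trans
        (act_ap _ _ _ _).symm
    · exact congrArg exp (show -la (e p) * (x * M n) = -(la (e p) * x * M n) by ring)
  · obtain ⟨i, k⟩ := e4 p x
    have := pat H a (fun _ => N2.uni_un) (us ω a).2.1 (us ω a).2.2 rfl ij
      (b4.mono fun _ u => u.2) i (e5 q y)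
    rw [k] at this
    exact (this.1 K).and (this.2 K)

end Pool.Agent.MP_5168f5_an.QA.Cp.T2
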