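import Pool.Agent.MP_5168f5_an.QA.HDefs
import Pool.Agent.MP_5168f5_an.AN.LCSpec

/-! The maximal estimate: the record of the second tangent, definitions. -/

namespace Pool.Agent.MP_5168f5_an.QA.P7

open H19 H17S H17F R4 AN Filter
open GA (Mt IsFr lg mB)
open LC (Au)
open S20 (dn)

/-- The constants. Indices with `mu a = 0` are dead. -/
structure Kc (ι κ : Type) [Fintype ι] [DecidableEq ι] : Type where
  Φ : H61Z.Filt (Mt ι)
  mu : κ → ℝ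
  la : κ → ℝ
  Pz : κ → Prop
  τ : κ
  L : ℝ
  D : ℝ
  kf : ℕ → ℕ

/-- The data on one space: every sample has its own frame `B ω`; the rows of `R ω v` are the
coordinates of the frame of `v` in the frame of `ω`. `O true` are the pieces, `O false` the
cells. -/
structure Cd (ι κ Ω Λ : Type) : Type where
  P : FP Ω
  M : ℕ
  j : Ω → Mt ι
  B : Ω → κ → Mt ι
  c : Ω → κ → κ → κ → ℝ
  R : Ω → Ω → Matrix κ κ ℝ
  O : Bool → ℚ≥0 → Ω → Λ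

variable {ι κ : Type} [Fintype ι] [DecidableEq ι] [Fintype κ] [DecidableEq κ]

/-- The live indices of rate zero. -/
def Kc.G1 (σ : Kc ι κ) (b : κ) : Prop := 0 < σ.mu b ∧ σ.la b = σ.mu b

open Classical in
/-- The relations between the constants. -/
structure Kc.Ok (σ : Kc ι κ) : Prop where
  m0 : ∀ a, 0 ≤ σ.mu a
  vt : ∀ a, σ.mu a ≤ σ.la a
  dead : ∀ a, σ.mu a = 0 → σ.la a = 0
  gap : ∀ p q p' q' : Option κ, p.elim 0 σ.la - q.elim 0 σ.la = p'.elim 0 σ.la - q'.elim 0 σ.la →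
    p.elim 0 σ.mu - q.elim 0 σ.mu = p'.elim 0 σ.mu - q'.elim 0 σ.mu
  live : ∀ a, σ.Pz a → 0 < σ.mu a
  tz : ∀ a, σ.Pz a ∧ σ.la a = σ.mu a ↔ a = σ.τ
  one : 1 ≤ σ.L
  vol : σ.D < ∑ a ∈ (Finset.univ.filter σ.Pz).erase σ.τ, σ.la a

namespace Cd

variable {Ω Λ : Type} (σ : Kc ι κ) (X : Cd ι κ Ω Λ)

/-- Two samples in one atom. -/
def At (k : Bool) (a : ℚ≥0) (ω v : Ω) : Prop := ω ∈ X.P.S ∧ v ∈ X.P.S ∧ X.O k a ω = X.O k a v

/-- The law in the atom of `ω`. -/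
noncomputable def fb (k : Bool) (a : ℚ≥0) (ω : Ω) : FP Ω := cv X.P (X.O k a) (X.O k a ω)

/-- The normalised coordinates of the increment. -/
noncomputable def zz (a : ℚ≥0) (ω v : Ω) (b : κ) : ℝ :=
  Real.exp (σ.la b * (a * X.M)) * lg (X.B ω) (X.j ω) (X.j v) b

/-- The normalised change of frame. -/
noncomputable def rr (a : ℚ≥0) (ω v : Ω) (b e : κ) : ℝ :=
  Real.exp ((σ.la e - σ.la b) * (a * X.M)) * X.R ω v b e

/-- The exact relations. All samples lie in one cell of level zero. -/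
def Fr : Prop := ∀ ω ∈ X.P.S, IsUnit (X.j ω) ∧ IsFr σ.Φ (X.B ω) (X.c ω) ∧ ∀ v ∈ X.P.S,
  X.O false 0 ω = X.O false 0 v ∧ X.j v = X.j ω * GA.ex (X.B ω) (lg (X.B ω) (X.j ω) (X.j v)) ∧
    X.B v = mB (X.R ω v) (X.B ω) ∧
    ∀ b e, X.R ω v b e ≠ (1 : Matrix κ κ ℝ) b e → σ.mu b = σ.mu e ∧ σ.la b < σ.la e

/-- The constants in the frame of `ω`, with loss `u` and range `w`. -/
structure Alg (u w : ℝ) (ω : Ω) : Prop where
  ob : ∀ a b e, |X.c ω a b e| ≤ Real.exp u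
  gr : ∀ a b e, 0 < σ.mu e → ¬(0 < σ.mu a ∧ 0 < σ.mu b ∧ σ.mu e = σ.mu a + σ.mu b ∧
    σ.la e = σ.la a + σ.la b) → |X.c ω a b e| ≤ Real.exp (-w)
  g0 : ∀ a b e, ¬σ.Pz a → ¬σ.Pz b → σ.Pz e → |X.c ω a b e| ≤ Real.exp (-w)
  chi : ∀ a b, |X.c ω a b σ.τ| ≤ Real.exp (-w)
  pat : ∀ v ∈ X.P.S, ∀ b e, ¬σ.Pz b → σ.Pz e → |X.R ω v b e| ≤ Real.exp (-w)

/-- Increments in a cell. -/
def Inc (a : ℚ≥0) (u : ℝ) : Prop := ∀ ω v, X.At false a ω v → ∀ b,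
  |X.zz σ a ω v b| ≤ Real.exp u ∧ ∀ e, |X.rr σ a ω v b e| ≤ Real.exp u

/-- Increments in a piece have rate zero. -/
def Inc1 (a : ℚ≥0) (w : ℝ) : Prop := ∀ ω v, X.At true a ω v → ∀ b, σ.la b ≠ σ.mu b →
  |X.zz σ a ω v b| ≤ Real.exp (-w)

/-- No character of rate zero is thin on the pairs of a large part of a piece. -/
def Ac (a : ℚ≥0) (u w : ℝ) : Prop := ∀ ω ∈ X.P.S, ∀ h : ℝ, h ≤ w → ∀ l : κ → ℝ,
  ∑ b, |l b| = 1 → (∀ b, l b ≠ 0 → σ.G1 b) →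
  (∀ b b', σ.G1 b → σ.G1 b' → |∑ e, X.c ω b b' e * l e| ≤ Real.exp (-h)) →
  ∀ E : Ω → Prop, (∀ v v', X.At true a ω v → X.At true a ω v' → E v → E v' →
    |∑ b, l b * X.zz σ a v v' b| ≤ Real.exp (-h)) →
  pb (X.fb true a ω) E ≤ Real.exp (u - h / σ.L)

/-- No homogeneous character is thin on the rate zero part of many samples of a cell. -/
def Rob (a : ℚ≥0) (u w : ℝ) : Prop := ∀ ω ∈ X.P.S, ∀ h : ℝ, h ≤ w → ∀ (l : κ → ℝ) (s : ℝ),
  ∑ e, |l e| = 1 → (∀ e, l e ≠ 0 → 0 < σ.mu e ∧ σ.mu e = s) →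
  (∀ b b', 0 < σ.mu b → 0 < σ.mu b' → |∑ e, X.c ω b b' e * l e| ≤ Real.exp (-h)) →
  pb (X.fb false a ω) (fun v => ∀ b, σ.G1 b → |∑ e, l e * X.rr σ a ω v b e| ≤ Real.exp (-h)) ≤
    Real.exp (u - h / σ.L)

/-- The height has flat iterated differences in the pieces. -/
def Ht (i : ℕ) (a : ℚ≥0) (u w : ℝ) : Prop := ∀ ω ∈ X.P.S, ∀ h : ℝ, 0 ≤ h → h ≤ w →
  En (σ.kf i) (sl (X.fb true a ω) (fun v => ⌊Real.exp h * X.zz σ a ω v σ.τ⌋) fun _ => True)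
    (Real.exp (u - (1 - 1 / (i + 1 : ℝ)) * h))

/-- A piece has information rate at most `σ.D` on the deeper cells. -/
def Df (a a' : ℚ≥0) (u : ℝ) : Prop := ∀ ω ∈ X.P.S,
  dn X.P (X.O false a') (X.O true a) ω ≤
    Real.exp (u + σ.D * (a' * X.M - a * X.M)) * dn X.P (X.O false a') (X.O false a) ω

end Cd

/-- The record of the second tangent. -/
structure CC {Ω Λ : ℕ → Type} (σ : Kc ι κ) (X : ∀ n, Cd ι κ (Ω n) (Λ n)) : Prop where
  ok : σ.Ok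
  big : Big fun n => (X n).M
  fr : ∀ᶠ n in UF, (X n).Fr σ
  nest : ∀ k a a', a ≤ a' → FnE (fun n => (X n).P) (fun n => (X n).O k a) fun n => (X n).O k a'
  com : ∀ a, FnE (fun n => (X n).P) (fun n => (X n).O false a) fun n => (X n).O true a
  alg : Au (fun n => (X n).M) fun n u w => ∀ ω ∈ (X n).P.S, (X n).Alg σ u w ω
  inc : ∀ a, Au (fun n => (X n).M) fun n u _ => (X n).Inc σ a u
  inc1 : ∀ a, Au (fun n => (X n).M) fun n _ w => (X n).Inc1 σ a w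
  ac : ∀ a, Au (fun n => (X n).M) fun n => (X n).Ac σ a
  rob : ∀ a, Au (fun n => (X n).M) fun n => (X n).Rob σ a
  ht : ∀ i a, Au (fun n => (X n).M) fun n => (X n).Ht σ i a
  df : ∀ a a', a ≤ a' → Au (fun n => (X n).M) fun n u _ => (X n).Df σ a a' u

/-- The record is contradictory. -/
def SCC : Prop := ∀ (ι κ : Type) [Fintype ι] [DecidableEq ι] [Fintype κ] [DecidableEq κ]
  (Ω Λ : ℕ → Type) (σ : Kc ι κ) (X : ∀ n, Cd ι κ (Ω n) (Λ n)), ¬CC σ X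

end Pool.Agent.MP_5168f5_an.QA.P7
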