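import Pool.Agent.MP_5168f5_an.QA.TopSpec
import Pool.Agent.MP_5168f5_an.QA.P7CC

/-! The Kakeya maximal estimate: the chain of caps, the window, the frames. Statements. -/

namespace Pool.Agent.MP_5168f5_an.QA.Cp

open H19 H17S H17F R4 AN Filter Matrix
open GA (Mt IsFr lg Wd br mB mC)
open LC (Au)
open S20 (dn)

/-- The data that do not depend on the level: floor `F`, constant `L`, group element, frame,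
directions. -/
structure Ba (ι κ α Ω : Type) : Type where
  P : FP Ω
  F : ℝ
  L : ℝ
  j : Ω → Mt ι
  B : Ω → κ → Mt ι
  c : Ω → κ → κ → κ → ℝ
  A : Ω → α → κ → ℝ

variable {ι κ α : Type} [Fintype ι] [DecidableEq ι] [Fintype κ] [DecidableEq κ] [Fintype α]

namespace Ba

variable {Ω Λ : Type} (σ : Cs ι κ α) (X : Ba ι κ α Ω)

/-- The data for the caps. -/
noncomputable def da (ω : Ω) : Da κ α := ⟨σ.μ, flr σ.μ X.F, X.L, hc σ.μ (X.c ω), X.A ω⟩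

/-- The logarithmic coordinates of an increment. -/
noncomputable def t (ω v : Ω) : κ → ℝ := lg (X.B ω) (X.j ω) (X.j v)

/-- Two samples in one atom. -/
def At (K : Ω → Λ) (ω v : Ω) : Prop := ω ∈ X.P.S ∧ v ∈ X.P.S ∧ K ω = K v

/-- The algebra at one point and at the depth `d`. -/
structure Alg (d : ℝ) (ω : Ω) : Prop where
  unit : IsUnit (X.j ω)
  fr : IsFr σ.Φ (X.B ω) (X.c ω)
  ob : ∀ a b e, |X.c ω a b e| ≤ X.L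
  gr : ∀ a b e, 0 < σ.μ e → ¬Hw σ.μ a b e →
    |X.c ω a b e| * Real.exp ((σ.μ e - σ.μ a - σ.μ b) * d) * X.F ≤ 1
  sub : ∀ a b e, Hw σ.μ a b e → ¬σ.pos a → ¬σ.pos b → σ.pos e → |X.c ω a b e| * X.F ≤ 1
  chi : ∀ a b, Hw σ.μ a b σ.τ → |X.c ω a b σ.τ| * X.F ≤ 1
  hg : ∀ i, Hg σ.μ (σ.η i) (X.A ω i)
  long : ∃ i, 1 ≤ X.L * |X.A ω i σ.τ|
  cur : ∀ i i' b, σ.pos b → |X.A ω i b * X.A ω i' σ.τ - X.A ω i' b * X.A ω i σ.τ| * X.F ≤ 1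

/-- The word `w` in the directions lies in the stabiliser. -/
def Cur (w : Wd α) : Prop := ∀ ω ∈ X.P.S, ∀ b, σ.pos b →
  |w.ev (br (hc σ.μ (X.c ω))) (X.A ω) b| * X.F ≤ 1

/-- Increments in a cell lie in the cap. -/
def IncC (K : Ω → Λ) (Ψ : Ω → Set (κ → ℝ)) (d u : ℝ) : Prop := ∀ ω v, X.At K ω v →
  X.j v = X.j ω * GA.ex (X.B ω) (X.t ω v) ∧
    ∀ φ ∈ Ψ ω, ∀ r, Hg σ.μ r φ → |φ ⬝ᵥ X.t ω v| ≤ Real.exp (u - r * d)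

/-- Increments in a piece follow the directions. -/
def IncO (K : Ω → Λ) (d u : ℝ) : Prop := ∀ ω v, X.At K ω v → ∃ s : α → ℝ,
  (∀ i, |s i| ≤ Real.exp (u - σ.η i * d)) ∧
    ∀ b, |X.t ω v b - ∑ i, s i * X.A ω i b| * flr σ.μ X.F b ≤ Real.exp (u - σ.μ b * d)

/-- Characters that vanish on the directions shrink by `exp (-h)` from `Ψ` to `Ψ'`. -/
def Rate (Ψ Ψ' : Ω → Set (κ → ℝ)) (h u : ℝ) : Prop := ∀ ω ∈ X.P.S, ∀ φ r, Hg σ.μ r φ →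
  (∀ y, In (Ψ ω) y → |φ ⬝ᵥ y| ≤ 1) → (X.da σ ω).Ok (Ψ ω) (Real.exp (-h - u)) φ →
  ∀ y, In (Ψ' ω) y → |φ ⬝ᵥ y| ≤ Real.exp (u - h)

/-- In the cell of `ω` a long form is seldom admissible. -/
def Rob (K : Ω → Λ) (Ψ : Ω → Set (κ → ℝ)) (La u : ℝ) (ω : Ω) : Prop := ∀ h φ r y, Hg σ.μ r φ →
  In (Ψ ω) y → Real.exp h ≤ |φ ⬝ᵥ y| →
  pb (cv X.P K (K ω)) (fun v => (X.da σ v).Ok (Ψ v) 1 φ) ≤ Real.exp (u - h / La)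

/-- Anti-concentration of pairs in a piece. -/
def Ac (K : Ω → Λ) (d u w : ℝ) : Prop := ∀ ω ∈ X.P.S, ∀ h : ℝ, h ≤ w →
  ∀ (φ : κ → ℝ) (E : Ω → Prop), (∀ b, (σ.μ b = 0 → φ b = 0) ∧ |φ b| ≤ X.F * Real.exp w) →
  (∃ i, 1 ≤ |φ ⬝ᵥ X.A ω i|) →
  (∀ v v', X.At K ω v → X.At K ω v' → E v → E v' →
    |∑ b, φ b * (Real.exp (σ.μ b * d) * X.t v v' b)| ≤ Real.exp (-h)) →
  pb (cv X.P K (K ω)) E ≤ Real.exp (u - h / σ.L₁)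

/-- The height at the resolution `exp (-(d + h))` has flat iterated differences on `G`. -/
def Ht (K : Ω → Λ) (G : Ω → Prop) (i : ℕ) (d h u : ℝ) : Prop := ∀ ω ∈ X.P.S,
  En (σ.kf i) (sl (cv X.P K (K ω)) (fun v => ⌊Real.exp (d + h) * X.t ω v σ.τ⌋) G)
    (Real.exp (u - (1 - 1 / (i + 1 : ℝ)) * h))

end Ba

/-- The relations between the constants. -/
structure Cs.Ok (σ : Cs ι κ α) : Prop where
  m0 : ∀ a, 0 ≤ σ.μ a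
  et : ∀ i, 0 < σ.η i
  live : ∀ a, σ.pos a → 0 < σ.μ a
  tau : σ.pos σ.τ
  l1 : 0 < σ.L₁

/-! ### The chain in steps -/

/-- The chain: `m` steps of depth about `s`, loss `e`, pieces `O true`, cells `O false`, caps
`Ψ`, good event `G`. -/
structure Sd (ι κ α Ω Θ Λ : Type) : Type extends Ba ι κ α Ω where
  m : ℕ
  s : ℕ
  e : ℝ
  dp : ℕ → ℝ
  l : Ω → Θ
  O : Bool → ℕ → Ω → Λ
  Ψ : ℕ → Ω → Set (κ → ℝ)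
  G : Ω → Prop

/-- The facts on one space. -/
structure Sd.Ok {Ω Θ Λ : Type} (σ : Cs ι κ α) (K ϑ La γ C : ℝ) (X : Sd ι κ α Ω Θ Λ) : Prop where
  l1 : 1 ≤ X.L
  le : X.L ≤ Real.exp X.e
  fl : X.F ≤ Real.exp (C * (X.m * X.s : ℕ))
  dp : ∀ k ≤ X.m, |X.dp k - k * X.s| ≤ X.e
  nest : ∀ b, ∀ k < X.m, Fn X.P (X.O b k) (X.O b (k + 1))
  com : ∀ k ≤ X.m, Fn X.P (X.O false k) (X.O true k)
  fl1 : ∀ k ≤ X.m, Fn X.P X.l (X.O true k)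
  fl2 : ∀ k ≤ X.m, Fn X.P (X.O true k) fun ω => (X.l ω, X.O false k ω)
  fB : Fn X.P (fun ω => (X.B ω, X.c ω)) (X.O false 0)
  fΨ : ∀ k ≤ X.m, Fn X.P (X.Ψ k) (X.O false k)
  alg : ∀ k ≤ X.m, ∀ ω ∈ X.P.S, X.Alg σ (X.dp k) ω
  good : ∀ k ≤ X.m, ∀ ω ∈ X.P.S, (X.da σ ω).Good (X.Ψ k ω)
  mono : ∀ k < X.m, ∀ ω ∈ X.P.S, X.Ψ k ω ⊆ X.Ψ (k + 1) ω
  incC : ∀ k ≤ X.m, 1 ≤ k → X.IncC σ (X.O false k) (X.Ψ k) (X.dp k) X.e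
  incO : ∀ k ≤ X.m, X.IncO σ (X.O true k) (X.dp k) X.e
  rate : ∀ k k', k ≤ k' → k' ≤ X.m →
    X.Rate σ (X.Ψ k) (X.Ψ k') (ϑ * (((k' : ℝ) - k) * X.s)) X.e
  ac : ∀ k ≤ X.m, X.Ac σ (X.O true k) (X.dp k) X.e (γ * (X.m * X.s : ℕ))
  off : ∀ ω ∈ X.P.S, vl σ.μ (X.Ψ 0 ω) * Real.exp ((σ.m / K + γ) * (X.m * X.s : ℕ)) ≤ X.F
  rob : ∀ k ≤ X.m, 1 ≤ k → ∀ ω ∈ X.P.S, X.G ω → X.Rob σ (X.O false k) (X.Ψ k) La X.e ω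

/-- The chain of caps. The unit is `m * s`. -/
structure CH {Ω Θ Λ : ℕ → Type} (σ : Cs ι κ α) (K ϑ La a γ C : ℝ)
    (X : ∀ n, Sd ι κ α (Ω n) (Θ n) (Λ n)) : Prop where
  ok : σ.Ok
  t0 : 0 < ϑ
  a0 : 0 < La
  am : 0 ≤ a ∧ a < σ.m
  g0 : 0 < γ
  big : Big fun n => (X n).m
  sm : Sm (fun n => (X n).s) fun n => Real.log ((X n).m + 1)
  se : Sm (fun n => (X n).m * (X n).s) fun n => (X n).e
  ev : ∀ᶠ n in UF, (X n).Ok σ K ϑ La γ C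
  cur : ∀ w : Wd α, 2 ≤ w.len → ∀ᶠ n in UF, (X n).Cur σ w
  ht : ∀ i, ∀ᶠ n in UF, ∀ k k', k ≤ k' → k' ≤ (X n).m → (X n).Ht σ ((X n).O true k) (X n).G i
    (σ.μ σ.τ * (X n).dp k) (σ.μ σ.τ * ((X n).dp k' - (X n).dp k)) (X n).e
  whp : Whp (fun n => (X n).P) fun n => (X n).G
  en : Le (fun n => (X n).m * (X n).s)
    (fun n => mi (X n).P (X n).l ((X n).O false (X n).m) ((X n).O false 0) + (X n).P.E fun ω =>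
      K * Real.log (vl σ.μ ((X n).Ψ (X n).m ω)) - K * Real.log (vl σ.μ ((X n).Ψ 0 ω)))
    fun n => a * ((X n).m * (X n).s : ℕ)

/-! ### The window -/

/-- The window: unit `M`, levels of both signs for the caps. -/
structure Wn (ι κ α Ω Λ : Type) : Type extends Ba ι κ α Ω where
  M : ℕ
  O : Bool → ℚ≥0 → Ω → Λ
  Ψ : ℚ → Ω → Set (κ → ℝ)

section W

variable {Ω Λ : ℕ → Type} (σ : Cs ι κ α) (X : ∀ n, Wn ι κ α (Ω n) (Λ n))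

/-- The laws. -/
abbrev wP : ∀ n, FP (Ω n) := fun n => (X n).P

/-- The units. -/
abbrev wM : ℕ → ℕ := fun n => (X n).M

/-- The observable `f` of the caps grows at the rate `r`. -/
def Lin (f : Set (κ → ℝ) → ℝ) (r : ℝ) (y : ℕ → ℝ) : Prop := ∀ (x : ℚ) (c : ℝ), 0 < c →
  ∀ᶠ n in UF, ∀ ω ∈ (X n).P.S, |f ((X n).Ψ x ω) - y n - r * (x * (X n).M)| ≤ c * (X n).M

/-- All observables grow linearly; the offsets are multiples of one long scale. -/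
def Lins {J : Type} (ob : J → Set (κ → ℝ) → ℝ) : Prop := ∃ T : ℕ → ℝ,
  (∀ R : ℝ, ∀ᶠ n in UF, R * (X n).M ≤ T n) ∧ ∀ j, ∃ r y : ℝ, Lin X (ob j) r fun n => y * T n

/-- The window. The depth of the level `a` is `a * M`; all samples lie in one cell of level
zero. -/
structure WW (ϑ La D s₀ : ℝ) : Prop where
  ok : σ.Ok
  t0 : 0 < ϑ
  a0 : 0 < La
  dm : D < σ.m
  gap : ∀ p q p' q' : Option κ,
    |p.elim 0 σ.μ - q.elim 0 σ.μ - (p'.elim 0 σ.μ - q'.elim 0 σ.μ)| ≤ 2 * s₀ →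
    p.elim 0 σ.μ - q.elim 0 σ.μ = p'.elim 0 σ.μ - q'.elim 0 σ.μ
  big : Big (wM X)
  sub : ∀ c : ℝ, 0 < c → ∀ᶠ n in UF, 1 ≤ (X n).L ∧ (X n).L ≤ Real.exp (c * (X n).M)
  bot : ∀ᶠ n in UF, ∀ ω ∈ (X n).P.S, ∀ v ∈ (X n).P.S, (X n).O false 0 ω = (X n).O false 0 v ∧
    (X n).B ω = (X n).B v ∧ (X n).c ω = (X n).c v
  neg : ∀ x : ℚ, x ≤ 0 → FnE (wP X) (fun n => (X n).Ψ x) fun _ _ => ()
  nest : ∀ k a a', a ≤ a' → FnE (wP X) (fun n => (X n).O k a) fun n => (X n).O k a'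
  com : ∀ a, FnE (wP X) (fun n => (X n).O false a) fun n => (X n).O true a
  fΨ : ∀ a : ℚ≥0, FnE (wP X) (fun n => (X n).Ψ a) fun n => (X n).O false a
  alg : ∀ᶠ n in UF, ∀ ω ∈ (X n).P.S, (X n).Alg σ 0 ω
  cur : ∀ w : Wd α, 2 ≤ w.len → ∀ᶠ n in UF, (X n).Cur σ w
  good : ∀ x, ∀ᶠ n in UF, ∀ ω ∈ (X n).P.S, ((X n).da σ ω).Good ((X n).Ψ x ω)
  mono : ∀ x x', x ≤ x' → ∀ᶠ n in UF, ∀ ω ∈ (X n).P.S, (X n).Ψ x ω ⊆ (X n).Ψ x' ω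
  off : ∀ (x : ℚ) (T : ℝ), ∀ᶠ n in UF, ∀ ω ∈ (X n).P.S,
    vl σ.μ ((X n).Ψ x ω) * Real.exp (T * (X n).M) ≤ (X n).F
  incC : ∀ a : ℚ≥0, Au (wM X) fun n u _ =>
    (X n).IncC σ ((X n).O false a) ((X n).Ψ a) (a * (X n).M) u
  incO : ∀ a : ℚ≥0, Au (wM X) fun n u _ => (X n).IncO σ ((X n).O true a) (a * (X n).M) u
  rate : ∀ x x' : ℚ, x ≤ x' → Au (wM X) fun n u _ =>
    (X n).Rate σ ((X n).Ψ x) ((X n).Ψ x') (ϑ * (((x' : ℝ) - x) * (X n).M)) u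
  rob : ∀ a : ℚ≥0, Au (wM X) fun n u _ => ∀ ω ∈ (X n).P.S,
    (X n).Rob σ ((X n).O false a) ((X n).Ψ a) La u ω
  ac : ∀ a : ℚ≥0, Au (wM X) fun n => (X n).Ac σ ((X n).O true a) (a * (X n).M)
  ht : ∀ i (a : ℚ≥0), Au (wM X) fun n u w => ∀ h, 0 ≤ h → h ≤ w →
    (X n).Ht σ ((X n).O true a) (fun _ => True) i (σ.μ σ.τ * (a * (X n).M)) h u
  df : ∀ a a' : ℚ≥0, a ≤ a' → Au (wM X) fun n u _ => ∀ ω ∈ (X n).P.S,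
    dn (X n).P ((X n).O false a') ((X n).O true a) ω ≤
      Real.exp (u + D * (a' * (X n).M - a * (X n).M)) *
        dn (X n).P ((X n).O false a') ((X n).O false a) ω
  vol : ∃ y, Lin X (fun S => Real.log (vl σ.μ S)) s₀ y

/-- Frames that are diagonal for all caps: the rows of `u ω * F` are the vectors, the columns of
`F' * u' ω` are the coordinate forms. -/
structure FR (s₀ : ℝ) (vt : κ → ℝ) (F F' : ℕ → Matrix κ κ ℝ)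
    (u u' : ∀ n, Ω n → Matrix κ κ ℝ) : Prop where
  v0 : ∀ a, 0 ≤ vt a ∧ vt a ≤ s₀
  dead : ∀ a, σ.μ a = 0 → vt a = 0
  tau : vt σ.τ = 0
  ex : ∀ᶠ n in UF, F n * F' n = 1 ∧ (∀ a b, F n a b ≠ 0 ∨ F' n a b ≠ 0 →
      σ.μ a = σ.μ b ∧ (σ.pos b → σ.pos a) ∧ (b = σ.τ → a = σ.τ)) ∧
    ∀ ω ∈ (X n).P.S, u n ω * u' n ω = 1 ∧ ∀ b e,
      u n ω b e ≠ (1 : Matrix κ κ ℝ) b e ∨ u' n ω b e ≠ (1 : Matrix κ κ ℝ) b e →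
        σ.μ b = σ.μ e ∧ vt b < vt e
  pat : ∀ T : ℝ, ∀ᶠ n in UF, ∀ ω ∈ (X n).P.S, ∀ b e, ¬σ.pos b → σ.pos e →
    |u n ω b e| ≤ Real.exp (-(T * (X n).M)) ∧ |u' n ω b e| ≤ Real.exp (-(T * (X n).M))
  ob : ∀ c : ℝ, 0 < c → ∀ᶠ n in UF, ∀ ω ∈ (X n).P.S, ∀ b e,
    |u n ω b e| ≤ Real.exp (c * (X n).M) ∧ |u' n ω b e| ≤ Real.exp (c * (X n).M)
  dia : ∀ (x : ℚ) (c : ℝ), 0 < c → ∀ᶠ n in UF, ∀ ω ∈ (X n).P.S,
    (∀ a, ∀ φ ∈ (X n).Ψ x ω, |φ ⬝ᵥ (u n ω * F n) a| ≤ Real.exp ((c + vt a * x) * (X n).M)) ∧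
    ∀ y, In ((X n).Ψ x ω) y → ∀ e,
      |(y ᵥ* (F' n * u' n ω)) e| ≤ Real.exp ((c - vt e * x) * (X n).M)

end W

/-- Monotone bounded observables of caps. -/
def Adm {J : Type} (μ : κ → ℝ) (ob : J → Set (κ → ℝ) → ℝ) : Prop := ∃ C : ℝ, ∀ j S D, 1 ≤ D →
  Fu S 1 D → (∀ φ ∈ S, ∃ r, Hg μ r φ) → |ob j S| ≤ C * (1 + Real.log D) ∧
    ∀ S', Fu S' 1 D → (∀ φ ∈ S', ∃ r, Hg μ r φ) → S ⊆ S' → ob j S ≤ ob j S' + C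

/-! ### The record of the second tangent -/

/-- The constants. -/
noncomputable def kc (σ : Cs ι κ α) (La D : ℝ) (vt : κ → ℝ) : P7.Kc ι κ :=
  ⟨σ.Φ, σ.μ, fun a => σ.μ a + vt a, σ.pos, σ.τ, max 1 (max La σ.L₁), D, σ.kf⟩

/-- The data. -/
noncomputable def cd {Ω Λ : Type} (X : Wn ι κ α Ω Λ) (F F' : Matrix κ κ ℝ)
    (u u' : Ω → Matrix κ κ ℝ) : P7.Cd ι κ Ω Λ :=
  ⟨X.P, X.M, X.j, fun ω => mB (u ω * F) (X.B ω), fun ω => mC (u ω * F) (F' * u' ω) (X.c ω),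
    fun ω v => u v * u' ω, X.O⟩

/-- A statement about a window with frames. -/
def OnW (p : ∀ (ι κ : Type) [Fintype ι] [DecidableEq ι] [Fintype κ] [DecidableEq κ]
    (Ω Λ : ℕ → Type), P7.Kc ι κ → (∀ n, P7.Cd ι κ (Ω n) (Λ n)) → Prop) : Prop :=
  ∀ (ι κ α : Type) [Fintype ι] [DecidableEq ι] [Fintype κ] [DecidableEq κ] [Fintype α]
    (Ω Λ : ℕ → Type) (σ : Cs ι κ α) (X : ∀ n, Wn ι κ α (Ω n) (Λ n)) (ϑ La D s₀ : ℝ) (vt : κ → ℝ)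
    (F F' : ℕ → Matrix κ κ ℝ) (u u' : ∀ n, Ω n → Matrix κ κ ℝ), WW σ X ϑ La D s₀ →
    FR σ X s₀ vt F F' u u' →
    p ι κ Ω Λ (kc σ La D vt) fun n => cd (X n) (F n) (F' n) (u n) (u' n)

def SCh : Prop := ∀ (ι κ α : Type) [Fintype ι] [DecidableEq ι] [Fintype κ] [DecidableEq κ]
  [Fintype α] (σ : Cs ι κ α) (Y : ℕ → Pd ι κ α), PreG σ Y → ∀ K₀ : ℝ,
  ∃ (Ω Θ Λ : ℕ → Type) (K ϑ La a γ C : ℝ) (X : ∀ n, Sd ι κ α (Ω n) (Θ n) (Λ n)),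
    K₀ ≤ K ∧ CH σ K ϑ La a γ C X

def SWin : Prop := ∀ (ι κ α J : Type) [Fintype ι] [DecidableEq ι] [Fintype κ] [DecidableEq κ]
  [Fintype α] [Fintype J] (σ : Cs ι κ α) (ob : J → Set (κ → ℝ) → ℝ), Adm σ.μ ob →
  ∃ K₀ : ℝ, ∀ (Ω Θ Λ : ℕ → Type) (K ϑ La a γ C : ℝ)
    (X : ∀ n, Sd ι κ α (Ω n) (Θ n) (Λ n)), K₀ ≤ K → CH σ K ϑ La a γ C X →
    ∃ (D s₀ : ℝ) (Z : ∀ n, Wn ι κ α (Ω n) (Λ n)), WW σ Z ϑ La D s₀ ∧ Lins Z ob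

def SFr : Prop := ∀ (ι κ α : Type) [Fintype ι] [DecidableEq ι] [Fintype κ] [DecidableEq κ]
  [Fintype α] (σ : Cs ι κ α), ∃ (J : Type) (_ : Fintype J) (ob : J → Set (κ → ℝ) → ℝ),
  Adm σ.μ ob ∧ ∀ (Ω Λ : ℕ → Type) (X : ∀ n, Wn ι κ α (Ω n) (Λ n)) (ϑ La D s₀ : ℝ),
    WW σ X ϑ La D s₀ → Lins X ob →
    ∃ vt F F' u u', FR σ X s₀ vt F F' u u'

def RTz : Prop := OnW fun _ _ _ _ _ _ _ _ σ _ => ∀ a, σ.Pz a → σ.la a = σ.mu a → a = σ.τ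
def RFr : Prop := OnW fun _ _ _ _ _ _ _ _ σ X => ∀ᶠ n in UF, (X n).Fr σ
def RAlg : Prop := OnW fun _ _ _ _ _ _ _ _ σ X =>
  Au (fun n => (X n).M) fun n u w => ∀ ω ∈ (X n).P.S, (X n).Alg σ u w ω
def RInc : Prop := OnW fun _ _ _ _ _ _ _ _ σ X =>
  ∀ a, (Au (fun n => (X n).M) fun n u _ => (X n).Inc σ a u) ∧
    Au (fun n => (X n).M) fun n _ w => (X n).Inc1 σ a w
def RAc : Prop := OnW fun _ _ _ _ _ _ _ _ σ X => ∀ a, Au (fun n => (X n).M) fun n => (X n).Ac σ a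
def RRob : Prop := OnW fun _ _ _ _ _ _ _ _ σ X => ∀ a, Au (fun n => (X n).M) fun n => (X n).Rob σ a
def RHt : Prop := OnW fun _ _ _ _ _ _ _ _ σ X =>
  ∀ i a, Au (fun n => (X n).M) fun n => (X n).Ht σ i a

theorem noPG_of (h1 : SCh) (h2 : SWin) (h3 : SFr) (r1 : RTz) (r2 : RFr) (r3 : RAlg) (r4 : RInc)
    (r5 : RAc) (r6 : RRob) (r7 : RHt) (h : P7.SCC) : NoPG := by
  intro ι κ α _ _ _ _ _ σ Y g
  obtain ⟨J, _, ob, ad, f⟩ := h3 ι κ α σ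
  obtain ⟨K₀, w⟩ := h2 ι κ α J σ ob ad
  obtain ⟨Ω, L, Λ, K, ϑ, La, a, γ, C, X, k0, c⟩ := h1 ι κ α σ Y g K₀
  obtain ⟨D, s₀, Z, z, l⟩ := w Ω L Λ K ϑ La a γ C X k0 c
  obtain ⟨vt, F, F', u, u', r⟩ := f Ω Λ Z ϑ La D s₀ z l
  have i := r4 ι κ α Ω Λ σ Z ϑ La D s₀ vt F F' u u' z r
  refine h ι κ Ω Λ (kc σ La D vt) (fun n => cd (Z n) (F n) (F' n) (u n) (u' n))
    ⟨⟨z.ok.m0, fun a => le_add_of_nonneg_right (r.v0 a).1, fun a (e : σ.μ a = 0) => ?_,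
      fun p q p' q' e => z.gap p q p' q' ?_, z.ok.live, fun a => ⟨fun e => r1 ι κ α Ω Λ σ Z ϑ La D
        s₀ vt F F' u u' z r a e.1 e.2, ?_⟩, le_max_left _ _, z.dm.trans_le ?_⟩,
    z.big, r2 ι κ α Ω Λ σ Z ϑ La D s₀ vt F F' u u' z r, z.nest, z.com,
    r3 ι κ α Ω Λ σ Z ϑ La D s₀ vt F F' u u' z r, fun a => (i a).1, fun a => (i a).2,
    r5 ι κ α Ω Λ σ Z ϑ La D s₀ vt F F' u u' z r, r6 ι κ α Ω Λ σ Z ϑ La D s₀ vt F F' u u' z r,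
    r7 ι κ α Ω Λ σ Z ϑ La D s₀ vt F F' u u' z r, z.df⟩
  · show σ.μ a + vt a = 0
    rw [e, r.dead a e, add_zero]
  · have b : ∀ p : Option κ, p.elim 0 (kc σ La D vt).la = p.elim 0 σ.μ + p.elim 0 vt ∧
        0 ≤ p.elim 0 vt ∧ p.elim 0 vt ≤ s₀ := fun p => by
      cases p with
      | none => exact ⟨by simp, le_rfl, (r.v0 σ.τ).1.trans (r.v0 σ.τ).2⟩
      | some p => exact ⟨rfl, r.v0 p⟩
    rw [(b p).1, (b q).1, (b p').1, (b q').1] at e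
    rw [abs_le]
    constructor <;> linarith [(b p).2.1, (b q).2.1, (b p').2.1, (b q').2.1, (b p).2.2, (b q).2.2,
      (b p').2.2, (b q').2.2]
  · rintro rfl
    exact ⟨z.ok.tau, by show σ.μ σ.τ + vt σ.τ = σ.μ σ.τ; rw [r.tau, add_zero]⟩
  · unfold Cs.m
    refine le_of_le_of_eq (Finset.sum_le_sum fun a _ => le_add_of_nonneg_right (r.v0 a).1)
      (Finset.sum_congr ?_ fun _ _ => rfl)
    ext a
    simp [kc, and_comm]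

end Pool.Agent.MP_5168f5_an.QA.Cp
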