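import Pool.Agent.MP_5168f5_an.QA.CpFrD
import Pool.Agent.MP_5168f5_an.QA.CpSpec

/-! The Kakeya maximal estimate: the observables of the caps and the frames of the window. -/

namespace Pool.Agent.MP_5168f5_an.QA.Cp.T2

open H19 H17S H17F AN Filter Matrix
open C1 (rho vol vol_mono rho_le le_rho' vol_nonneg)

/-- Comparison of relative volumes. -/
theorem log_rho {V : Type} [AddCommGroup V] [Module ℝ V] {ν ν' B : V → ℝ} {a d : ℝ} (k : ℕ)
    (h0 : ∀ x, 0 ≤ ν x) (h1 : ∀ x, 0 ≤ ν' x) (h2 : ∀ x, 0 ≤ B x) (a1 : 1 ≤ a) (ad : a ≤ d)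
    (e1 : ∀ x, ν x ≤ a * ν' x) (e2 : ∀ x, B x ≤ a * ν x) (e3 : ∀ x, B x ≤ a * ν' x)
    (e4 : ∀ x, ν' x ≤ d * B x) :
    Real.log (rho k ν B) ≤ Real.log (rho k ν' B) + k * Real.log a ∧
      |Real.log (rho k ν' B)| ≤ k * Real.log d := by
  have a0 : 0 < a := by linarith
  have d0 : 0 < d := by linarith
  have la := Real.log_nonneg a1
  have ld := Real.log_le_log a0 ad
  have e5 : ∀ x, ν x ≤ a * d * B x := fun x =>
    (e1 x).trans ((mul_le_mul_of_nonneg_left (e4 x) a0.le).trans_eq (mul_assoc _ _ _).symm)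
  by_cases z : ∃ v : Fin k → V, 0 < vol B v
  · obtain ⟨v, z⟩ := z
    have low : ∀ {μ : V → ℝ} {c : ℝ}, (∀ x, 0 ≤ μ x) → 0 < c → (∀ x, μ x ≤ c * B x) →
        (∀ x, B x ≤ a * μ x) → 1 ≤ a ^ k * rho k μ B := fun m0 c0 u w =>
      le_of_mul_le_mul_right ((one_mul _).trans_le ((vol_mono h2 a0 w v).trans
        ((mul_le_mul_of_nonneg_left (le_rho' m0 h2 c0 u v) (by positivity)).trans_eq
          (mul_assoc _ _ _).symm))) z
    have l1 := low h0 (mul_pos a0 d0) e5 e2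
    have l2 := low h1 d0 e4 e3
    have p1 : 0 < rho k ν B := (pos_iff_pos_of_mul_pos (one_pos.trans_le l1)).1 (by positivity)
    have p2 : 0 < rho k ν' B := (pos_iff_pos_of_mul_pos (one_pos.trans_le l2)).1 (by positivity)
    have u1 : rho k ν B ≤ rho k ν' B * a ^ k := rho_le h2 (by positivity) fun w =>
      (vol_mono h0 a0 e1 w).trans ((mul_le_mul_of_nonneg_left (le_rho' h1 h2 d0 e4 w)
        (by positivity)).trans_eq (by ring))
    have u2 := Real.log_le_log p2 (rho_le h2 (by positivity) (vol_mono h1 d0 e4))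
    have u3 := Real.log_le_log p1 u1
    have u4 := Real.log_nonneg l2
    rw [Real.log_mul (by positivity) (by positivity), Real.log_pow] at u3 u4
    rw [Real.log_pow] at u2
    exact ⟨u3, abs_le.2 ⟨by nlinarith [(Nat.cast_nonneg k : (0 : ℝ) ≤ k)], u2⟩⟩
  · have key : ∀ {μ : V → ℝ} {c : ℝ}, (∀ x, 0 ≤ μ x) → 0 < c → (∀ x, μ x ≤ c * B x) →
        rho k μ B = 0 := fun m0 c0 u => le_antisymm (rho_le h2 le_rfl fun w =>
      (vol_mono m0 c0 u w).trans_eq (by
        rw [le_antisymm (not_lt.1 fun p => z ⟨w, p⟩) (vol_nonneg h2 w), mul_zero, mul_zero]))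
      (Real.sSup_nonneg (by
        rintro _ ⟨w, rfl⟩
        exact div_nonneg (vol_nonneg m0 w) (vol_nonneg h2 w)))
    rw [key h0 (mul_pos a0 d0) e5, key h1 d0 e4, Real.log_zero, abs_zero, zero_add]
    exact ⟨by positivity, mul_nonneg (Nat.cast_nonneg _) (la.trans ld)⟩

theorem sOb : SOb := by
  intro κ _ _
  obtain ⟨c, hc⟩ : ∃ c : ℝ, c = Fintype.card κ := ⟨_, rfl⟩
  have c0 : 0 ≤ c := hc ▸ Nat.cast_nonneg _
  have a1 : 1 ≤ 2 * c ^ 2 + 1 := by nlinarith
  refine ⟨c * (Real.log (2 * c ^ 2 + 1) + 1), fun wt I k S S' D D' hk h h' _ e => ?_⟩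
  classical
  have n0 : ∀ (T : Set (κ → ℝ)) y, 0 ≤ nS wt T y := fun _ _ => norm_nonneg _
  have b0 : ∀ y : {a // I a} → ℝ, 0 ≤ nB y := fun _ => norm_nonneg _
  have lo : ∀ {T : Set (κ → ℝ)} {E : ℝ}, Fu T 1 E → ∀ y : {a // I a} → ℝ,
      nB y ≤ (2 * c ^ 2 + 1) * nS wt T (ext I y) := fun {T E} f y => by
    have u := nB_card (y := y) (t := 2 * c * nS wt T (ext I y)) fun i => by
      simpa [ext, i.2, hc] using coord_le (wt := wt) f (ext I y) i
    have w : (Fintype.card {a // I a} : ℝ) ≤ c := hc ▸ Nat.cast_le.2 (Fintype.card_subtype_le _)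
    nlinarith [n0 T (ext I y), mul_le_mul_of_nonneg_right w (mul_nonneg c0 (n0 T (ext I y)))]
  have m1 := le_max_left 1 D'
  obtain ⟨u, w⟩ := log_rho (ν := fun y => nS wt S (ext I y)) (ν' := fun y => nS wt S' (ext I y))
    (d := (2 * c ^ 2 + 1) * max 1 D') k (fun _ => n0 _ _) (fun _ => n0 _ _) b0 a1
    (le_mul_of_one_le_right (by linarith) m1)
    (fun y => (nS_mono h h' e _).trans (by rw [← hc]; nlinarith [n0 S' (ext I y)])) (lo h) (lo h')
    fun y => (nS_le (t := c * (max 1 D' * nB y)) h' fun φ p _ => by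
      refine (Finset.abs_sum_le_sum_abs _ _).trans ((Finset.sum_le_card_nsmul _ _
        (max 1 D' * nB y) fun b _ => ?_).trans_eq (by simp [hc]))
      rw [abs_mul]
      refine mul_le_mul ((h'.bd φ p b).trans (le_max_right _ _)) ?_ (abs_nonneg _) (by linarith)
      unfold ext
      split_ifs
      exacts [le_nB _ _, abs_zero.trans_le (b0 y)]).trans (by
        rw [← hc]; nlinarith [mul_nonneg (zero_le_one.trans m1) (b0 y)])
  have kc : (k : ℝ) ≤ c := hc ▸ Nat.cast_le.2 hk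
  have la := Real.log_nonneg a1
  have ld : Real.log (max 1 D') ≤ |Real.log D'| := by
    rcases le_total 1 D' with p | p
    · rw [max_eq_right p]; exact le_abs_self _
    · rw [max_eq_left p, Real.log_one]; exact abs_nonneg _
  rw [Real.log_mul (by linarith) (by linarith)] at w
  have l0 := Real.log_nonneg m1
  refine ⟨u.trans (add_le_add le_rfl (by nlinarith)), w.trans ?_⟩
  nlinarith [mul_le_mul_of_nonneg_right kc (add_nonneg la l0), mul_le_mul_of_nonneg_left ld c0,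
    mul_nonneg (mul_nonneg c0 la) (abs_nonneg (Real.log D'))]

theorem sFr_of (hF : SFrC) : Cp.SFr := by
  intro ι κ α _ _ _ _ _ σ
  obtain ⟨C, hC⟩ := sOb κ
  refine ⟨Option κ × Fin (Fintype.card κ + 1), inferInstance,
    fun j => ob σ.μ (bk σ.μ (fun a => ¬σ.pos a) j.1) j.2, ⟨C, fun j S D d f g => ⟨?_,
      fun S' f' g' e => (hC _ _ _ S S' D D (Nat.le_of_lt_succ j.2.2) f f' g' e).1⟩⟩,
    fun Ω Λ X ϑ La D s₀ w ⟨T, t1, t2⟩ => ?_⟩
  · have := (hC σ.μ (bk σ.μ (fun a => ¬σ.pos a) j.1) _ S S D D (Nat.le_of_lt_succ j.2.2) f f g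
      subset_rfl).2
    rwa [abs_of_nonneg (Real.log_nonneg d)] at this
  obtain ⟨vt, F, F', u, u', o⟩ := hF κ σ.μ (fun a => ¬σ.pos a) σ.τ s₀ Ω (wP X) (wM X) T
    (fun x n => (X n).Ψ x) ⟨w.big, t1, not_not.2 w.ok.tau,
    fun x => (w.good x).mono fun n a ω hω => ⟨⟨_, (a ω hω).fu⟩, fun φ p => ⟨(a ω hω).hg φ p,
      fun b z => (((a ω hω).ok φ p).f b).trans_eq (by simp [Ba.da, flr, z])⟩⟩,
    w.mono, fun x e => (w.neg x e).mono fun n a ω hω v hv => a ω hω v hv rfl,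
    fun x x' ε _ hε => by
      obtain ⟨y, l⟩ := w.vol
      filter_upwards [l x _ (half_pos hε), l x' _ (half_pos hε), w.good x, w.good x'] with
        n a b c d ω hω
      rw [← Real.exp_log ((c ω hω).fu.vl_pos (wt := σ.μ)),
        ← Real.exp_log ((d ω hω).fu.vl_pos (wt := σ.μ)), ← Real.exp_add, Real.exp_le_exp]
      linarith [(abs_le.1 (a ω hω)).1, (abs_le.1 (b ω hω)).2],
    fun i k hk => by
      obtain ⟨r, y, l⟩ := t2 (i, ⟨k, Nat.lt_succ_of_le hk⟩)
      exact ⟨y, r, l⟩,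
    Fr.su_eps fun ε hε => by
      filter_upwards [w.sub _ (half_pos hε), w.alg, w.good 1] with n a b c ω hω
      obtain ⟨i, p⟩ := (b ω hω).long
      have L0 : 0 < (X n).L := by linarith [a.1]
      refine ⟨(X n).L⁻¹ • (X n).A ω i, fun φ q => ?_, ?_⟩
      · rw [dotProduct_smul, smul_eq_mul, abs_mul, abs_inv, abs_of_pos L0, inv_mul_le_iff₀ L0,
          mul_comm]
        exact ((c ω hω).ok φ q).a i
      · have e : Real.exp ((0 + ε) * (X n).M) =
            Real.exp (ε / 2 * (X n).M) * Real.exp (ε / 2 * (X n).M) := by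
          rw [← Real.exp_add]; congr 1; ring
        rw [Pi.smul_apply, smul_eq_mul, abs_mul, abs_inv, abs_of_pos L0]
        refine p.trans (le_trans (le_of_eq ?_) (mul_le_mul_of_nonneg_right
          (e ▸ mul_le_mul a.2 a.2 L0.le (Real.exp_pos _).le) (by positivity)))
        field_simp⟩
  refine ⟨vt, F, F', u, u', o.v0, o.vd, o.vτ, (o.ref.and o.tri).mono fun n a => ⟨a.1.inv,
    fun p q k => ⟨(k.elim ((a.1.hg p).1 q) ((a.1.hg p).2 q)).symm, fun z => by_contra fun z' =>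
      k.elim (absurd (a.1.g0 p q z' (not_not.2 z)).1) (absurd (a.1.g0 p q z' (not_not.2 z)).2),
      fun z => by_contra fun z' => ?_⟩, fun ω hω => ⟨(a.2 ω hω).1, fun b e k =>
      k.elim ((a.2 ω hω).2.1 b e) ((a.2 ω hω).2.2 b e)⟩⟩,
    fun K => (o.pat K).mono fun n a ω hω b e p q => a ω hω b e p (not_not.2 q), fun c hc => ?_,
    fun x c hc => ?_⟩
  · rw [z, (a.1.chi p).1, (a.1.chi p).2, one_apply_ne z'] at k
    exact k.elim (· rfl) (· rfl)
  · obtain ⟨G, a, b⟩ := o.bd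
    filter_upwards [a.2 c hc, b] with n a b ω hω p q
    exact ⟨(b ω hω p q).1.trans a, (b ω hω p q).2.trans a⟩
  · obtain ⟨G, a, b⟩ := o.dg x
    have k1 : (1 : ℝ) ≤ Fintype.card κ := Nat.one_le_cast.2 (Fintype.card_pos_iff.2 ⟨σ.τ⟩)
    filter_upwards [(a.const_mul w.big (C := 2 * Fintype.card κ) (by linarith)).2 c hc, b,
      w.good x, o.ref, o.tri] with n d b g r t ω hω
    have G0 := a.pos n
    refine ⟨fun p φ q => ((g ω hω).hg φ q).elim fun _ z => (dot_le (g ω hω).fu q z _).trans ?_,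
      fun y q e => ?_⟩
    · refine (mul_le_mul_of_nonneg_left ((b ω hω).1 p) (by positivity)).trans ?_
      rw [← mul_assoc, add_mul, Real.exp_add, mul_assoc (vt p)]
      exact mul_le_mul_of_nonneg_right d (Real.exp_pos _).le
    · have z := (b ω hω).2 (y ᵥ* (F' n * u' n ω)) e
      rw [← vecMul_eq_sum, vecMul_vecMul, Matrix.mul_assoc, ← Matrix.mul_assoc (u' n ω),
        mul_eq_one_comm.1 (t ω hω).1, Matrix.one_mul, mul_eq_one_comm.1 r.inv, vecMul_one] at z
      have z' := mul_le_mul_of_nonneg_left (nS_le (wt := σ.μ) (g ω hω).fu fun φ p _ => q φ p) G0.le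
      rw [sub_mul, Real.exp_sub, le_div_iff₀ (Real.exp_pos _), mul_assoc (vt e)]
      exact z.trans (z'.trans (le_trans (by nlinarith) d))

end Pool.Agent.MP_5168f5_an.QA.Cp.T2
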