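import Pool.Agent.MP_5168f5_an.QA.CpFrB
import Pool.Agent.MP_5168f5_an.QA.CpFrC
import Pool.Agent.MP_5168f5_an.QA.CpFrO

/-! The Kakeya maximal estimate: the frames for the caps exist. -/

namespace Pool.Agent.MP_5168f5_an.QA.Cp

theorem sFr : SFr := T2.sFr_of (T2.sFrC T2.sBlk)

end Pool.Agent.MP_5168f5_an.QA.Cp
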