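import Pool.Agent.MP_5168f5_an.QA.CpAll0
import Pool.Agent.MP_5168f5_an.QA.CpFr
import Pool.Agent.MP_5168f5_an.QA.CpChain

/-! The Kakeya maximal estimate: there is no filtered system. -/

namespace Pool.Agent.MP_5168f5_an.QA.Cp

theorem noPG : NoPG := noPG_of2 sCh sFr

end Pool.Agent.MP_5168f5_an.QA.Cp
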