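import Pool.Agent.MP_5168f5_an.QA.OrbSpec
import Pool.Agent.MP_5168f5_an.QA.FrAlg

/-! The Kakeya maximal estimate: Taylor's formula in a frame. -/

namespace Pool.Agent.MP_5168f5_an.QA.Ob

open H19 H17S H17F R4 AN Filter Matrix IsNilpotent
open GA (Mt)
open Fr (act Sp)
open En (tb)

namespace OrbTayA

open MvPolynomial Finset

variable {N D m n : ℕ} {W : Type} [AddCommGroup W] [Module ℝ W] {E : Fin m → W}
  {u v : Mt (Fin m)}

theorem act_map (T : W →ₗ[ℝ] W) (u : Mt (Fin m)) (f : Fin m → W) :
    act u (fun p => T (f p)) = fun p => T (act u f p) := funext fun p => by simp [act]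

theorem inj (k : LinearIndependent ℝ E) (a : act u E = act v E) : u = v := by
  ext p q
  refine sub_eq_zero.1 (Fintype.linearIndependent_iff.1 k (fun q => u p q - v p q) ?_ q)
  simp only [sub_smul, sum_sub_distrib]
  exact sub_eq_zero.2 (congrFun a p)

theorem act_pow {T : Module.End ℝ W} (h : act u E = fun p => T (E p)) (i : ℕ) :
    act (u ^ i) E = fun p => (T ^ i) (E p) := by
  induction i with
  | zero => simpa using Fr.act_one E
  | succ i ih => rw [_root_.pow_succ, Fr.act_mul, h, act_map, ih, _root_.pow_succ']; rfl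

theorem pd_comm (i j : Fin n) (F : MvPolynomial (Fin n) ℝ) :
    pderiv i (pderiv j F) = pderiv j (pderiv i F) := by
  induction F using MvPolynomial.induction_on with
  | C a => simp
  | add p q hp hq => simp [hp, hq]
  | mul_X p k hp =>
    simp only [Derivation.leibniz, smul_eq_mul, map_add, pderiv_X, hp, Pi.single_apply]
    split_ifs <;> simp <;> ring

/-- The restriction to a line. -/
noncomputable def ln (y w : V n) : MvPolynomial (Fin n) ℝ →ₐ[ℝ] Polynomial ℝ :=
  aeval fun i => Polynomial.C (w i) * Polynomial.X + Polynomial.C (y i)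

theorem ln_ev (y w : V n) (s : ℝ) (F : MvPolynomial (Fin n) ℝ) :
    (ln y w F).eval s = eval (y + s • w) F := by
  induction F using MvPolynomial.induction_on with
  | C a => simp [ln]
  | add p q hp hq => simp [hp, hq]
  | mul_X p k hp => rw [map_mul, Polynomial.eval_mul, hp]; simp [ln, add_comm, mul_comm s]

theorem ln_der (y w : V n) (F : MvPolynomial (Fin n) ℝ) :
    Polynomial.derivative (ln y w F) = ln y w (∑ i, w i • pderiv i F) := by
  induction F using MvPolynomial.induction_on with
  | C a => simp [ln]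
  | add p q hp hq => simp [hp, hq, sum_add_distrib]
  | mul_X p k hp =>
    have : ∑ i, w i • pderiv i (p * X k) = (∑ i, w i • pderiv i p) * X k + w k • p := by
      simp [Derivation.leibniz, pderiv_X, sum_add_distrib, Pi.single_apply, mul_sum, add_comm,
        mul_comm]
    rw [this, map_mul, Polynomial.derivative_mul, hp, map_add, map_mul, map_smul]
    simp [ln, Polynomial.smul_eq_C_mul]
    ring

/-- The derivative along `w`. -/
noncomputable def dw (w : V (N + 1)) : Module.End ℝ (VD N D) := ∑ i, w i • dk i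

theorem ln_it (y w : V (N + 1)) (F : VD N D) (i : ℕ) :
    Polynomial.derivative^[i] (ln y w F.1) = ln y w ((dw w ^ i) F).1 := by
  induction i with
  | zero => rfl
  | succ i ih =>
    rw [Function.iterate_succ_apply', ih, ln_der, pow_succ', Module.End.mul_apply]
    generalize (dw w ^ i) F = G
    simp [dw, dk]

theorem ln_deg (y w : V (N + 1)) (F : VD N D) : (ln y w F.1).natDegree < D + 1 :=
  Nat.lt_succ_of_le ((aeval_natDegree_le F.1 (C1.deg_PD F) _ fun _ =>
    Polynomial.natDegree_linear_le).trans_eq (mul_one D))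

theorem dw_nil (w : V (N + 1)) (F : VD N D) : (dw w ^ (D + 1)) F = 0 :=
  Subtype.ext (MvPolynomial.funext fun y => by
    have := ln_ev y w 0 ((dw w ^ (D + 1)) F).1
    rw [← ln_it, Polynomial.iterate_derivative_eq_zero (ln_deg y w F)] at this
    simpa using this.symm)

theorem tay (y w : V (N + 1)) (F : VD N D) : eval (y + w) F.1 =
    ∑ i ∈ range (D + 1), (i.factorial : ℝ)⁻¹ * eval y ((dw w ^ i) F).1 := by
  have := ln_ev y w 1 F.1
  rw [one_smul, Polynomial.eval_eq_sum_range' (ln_deg y w F)] at this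
  refine this.symm.trans (sum_congr rfl fun i _ => ?_)
  have h := ln_ev y w 0 ((dw w ^ i) F).1
  rw [← ln_it, ← Polynomial.coeff_zero_eq_eval_zero, Polynomial.coeff_iterate_derivative,
    zero_add, Nat.descFactorial_self, zero_smul, add_zero, nsmul_eq_mul] at h
  rw [← h, one_pow, mul_one, inv_mul_cancel_left₀ (by exact_mod_cast i.factorial_ne_zero)]

end OrbTayA

open OrbTayA Finset in
theorem sTay : STay := fun N D m M E hE => by
  refine ⟨?_, fun φ h => ⟨fun u hu j => ?_, fun li => ⟨fun φ' h' => funext fun j =>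
    inj li ((h' j).trans (h j).symm), fun i j => inj li ?_, fun ξ => ?_⟩⟩⟩
  · choose c hc using fun (j : Fin N) p => hE (((2 : ℝ) ^ M)⁻¹ • dk j.succ (E p))
    exact ⟨fun j => of (c j), fun j => funext fun p => (hc j p).symm⟩
  · rw [Fr.act_div hu, Fr.act_mul, h j]
    exact act_map (((2 : ℝ) ^ M)⁻¹ • dk j.succ) u E
  · have k : ∀ i j, act (φ i * φ j) E = fun p => ((2 : ℝ) ^ M)⁻¹ • dk j.succ
        (((2 : ℝ) ^ M)⁻¹ • dk i.succ (E p)) := fun i j => by
      rw [Fr.act_mul, h j]
      exact (act_map (((2 : ℝ) ^ M)⁻¹ • dk j.succ) _ E).trans (by rw [h i]; rfl)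
    rw [k, k]
    funext p
    rw [map_smul, map_smul]
    exact congrArg _ (congrArg _ (Subtype.ext (pd_comm _ _ _)))
  · have k : act (∑ j, ξ j • φ j) E =
        fun p => dw (Fin.cons 0 (((2 : ℝ) ^ M)⁻¹ • ξ)) (E p) := funext fun p => by
      have : act (∑ j, ξ j • φ j) E p = ∑ j, ξ j • act (φ j) E p := by
        simp only [act, Matrix.sum_apply, Matrix.smul_apply, sum_smul, smul_sum, smul_assoc]
        exact sum_comm
      simp [this, h _, dw, Fin.sum_univ_succ, smul_smul, mul_comm]
    have z : (∑ j, ξ j • φ j) ^ (D + 1) = 0 := inj li (by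
      rw [act_pow k]
      funext p
      simp [dw_nil, act])
    refine ⟨z, fun a e ζ t => funext fun p => ?_⟩
    have e1 : tb M a e t (ζ + ξ) = tb M a e t ζ + Fin.cons 0 (((2 : ℝ) ^ M)⁻¹ • ξ) :=
      funext (Fin.cases (by simp [tb]) fun i => by simp [tb]; ring)
    rw [e1, exp_eq_sum z, sum_mulVec, Finset.sum_apply]
    refine (tay _ _ _).trans (sum_congr rfl fun i _ => ?_)
    rw [← congrFun (act_pow k i) p, ← Rat.cast_smul_eq_qsmul ℝ, smul_mulVec]
    simp [act, mulVec, dotProduct, Ch.vl]

end Pool.Agent.MP_5168f5_an.QA.Ob
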