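import Pool.Agent.MP_5168f5_an.QA.AbD

/-! The base class of the local part: statements about the letters. -/

namespace Pool.Agent.MP_5168f5_an.QA.AB

open H19 H17S H17F R4 AN Filter Finset
open G39 (dl)
open GA (Mt)
open N2 (El eB eW tri)

variable {N D m : ℕ}

/-- The normalised increment of a pair at the level `x`. -/
noncomputable def co (la : Fin m → ℝ) (X : St N D) (F : Fd N D m X.Ω) (x : ℚ) (ω v : X.Ω)
    (b : El la) : ℝ := Real.exp (eW la b * lb X F x) * GA.lg (eB la) (F.J ω) (F.J v) b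

/-- The line through the true point, in the unit of the level zero. -/
noncomputable def lp (X : St N D) (ω : X.Ω) (i : Fin (N + 1)) : Polynomial ℝ :=
  Polynomial.C (X.g.tp ω i) + Polynomial.C ((2 ^ X.lv 0)⁻¹ * X.g.dv ω i) * Polynomial.X

/-- The derivatives of the own frame along the line. -/
noncomputable def jet (X : St N D) (F : Fd N D m X.Ω) (ω : X.Ω) (i : ℕ) (p : Fin m) : ℝ :=
  i.factorial * (MvPolynomial.aeval (lp X ω) (F.f ω p).1).coeff i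

variable (kk la : Fin m → ℝ) (o τ : Fin m) (S : Finset (El la)) (C L : ℝ) (X : ℕ → St N D)
  (F : ∀ n, Fd N D m (X n).Ω) (A : ∀ n, (X n).Ω → El la → El la → ℝ)

/-- Two points of the atom of `ω`. -/
def Mt2 (Y : St N D) (x : ℚ) (ω v v' : Y.Ω) : Prop :=
  v ∈ Y.P.S ∧ v' ∈ Y.P.S ∧ Y.O x v = Y.O x ω ∧ Y.O x v' = Y.O x ω

/-- The linear facts. -/
structure L1 : Prop where
  mem : ∀ᶠ n in UF, ∀ ω ∈ (X n).P.S, ∀ a, lt la (A n ω) a ∈ (tri kk).F 0 ∧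
    lt la (A n ω) a ∈ (tri la).F 0 ∧ (∀ q, q ≠ o → lt la (A n ω) a τ q = 0) ∧ ∀ p q,
      |lt la (A n ω) a p q| ≤ C ∧ (lt la (A n ω) a p q ≠ 0 → a ∈ S ∧ la p - la q = eW la a)
  fn : ∀ x, FnE (PP X) A fun n => (X n).O x
  ex : ∀ x, ∀ᶠ n in UF, ∀ ω v v', Mt2 (X n) x ω v v' →
    (F n).J v' = (F n).J v * GA.ex (eB la) (GA.lg (eB la) ((F n).J v) ((F n).J v'))
  pat : ∀ x, ∀ᶠ n in UF, ∀ ω v v', Mt2 (X n) x ω v v' →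
    GA.lg (eB la) ((F n).J v) ((F n).J v') ∈ pat kk la o τ
  box : ∀ (x : ℚ) (ε : ℝ), 0 < ε → ∀ᶠ n in UF, ∀ ω v v', Mt2 (X n) x ω v v' → ∀ b,
    |co la (X n) (F n) x v v' b| ≤ Real.exp (ε * (X n).u)
  inc : ∀ (x : ℚ) (K : ℝ), ∀ᶠ n in UF, ∀ ω ∈ (X n).P.S, ∀ v v', Mt2 (X n) x ω v v' → ∀ b,
    |co la (X n) (F n) x v v' b - ∑ a, A n ω b a * co la (X n) (F n) x v v' a| ≤ dl (uu X) K n
  acf : ∀ (x : ℚ) (T ε : ℝ), 0 < ε → ∀ᶠ n in UF, ∀ ω ∈ (X n).P.S, ∀ (h : ℝ) (φ : El la → ℝ)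
    (E : (X n).Ω → Prop), h ≤ T * (X n).u → (∀ b, |φ b| ≤ Real.exp (T * (X n).u)) →
    (∃ a, 1 ≤ |∑ b, φ b * A n ω b a|) → (∀ v v', Mt2 (X n) x ω v v' → E v → E v' →
      |∑ b, φ b * co la (X n) (F n) x v v' b| ≤ Real.exp (-h)) →
    pb ((X n).fb x ω) E ≤ Real.exp (ε * (X n).u - h / L)
  lin : ∀ (x : ℚ) (T ε : ℝ), 0 < ε → ∀ᶠ n in UF, ∀ ω ∈ (X n).P.S, ∀ (φ : El la → ℝ) (r : ℝ),
    (∀ b, |φ b| ≤ Real.exp (T * (X n).u)) → dl (uu X) T n ≤ r →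
    (∀ v v', Mt2 (X n) x ω v v' → |∑ b, φ b * co la (X n) (F n) x v v' b| ≤ r) →
    ∀ a, |∑ b, φ b * A n ω b a| ≤ Real.exp (ε * (X n).u) * r

/-- The marked coordinate is the height, and some letter moves it. -/
structure L2 : Prop where
  tt : ∀ (x : ℚ) (K : ℝ), ∀ᶠ n in UF, ∀ ω v v', Mt2 (X n) x ω v v' →
    |GA.vec (eB la) (co la (X n) (F n) x v v') τ o -
      2 ^ (X n).lv x * ((X n).g.z v' - (X n).g.z v)| ≤ dl (uu X) K n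
  long : ∀ ε : ℝ, 0 < ε → ∀ᶠ n in UF, ∀ ω ∈ (X n).P.S, ∃ a,
    Real.exp (-(ε * (X n).u)) ≤ |lt la (A n ω) a τ o|

/-- The letters move the curve along itself. -/
structure L3 : Prop where
  bd : ∀ ε : ℝ, 0 < ε → ∀ᶠ n in UF, ∀ ω ∈ (X n).P.S, ∀ i p,
    |jet (X n) (F n) ω i p| ≤ Real.exp (ε * (X n).u)
  top : ∀ n ω i p, D < i → jet (X n) (F n) ω i p = 0
  one : ∀ᶠ n in UF, ∀ ω ∈ (X n).P.S, jet (X n) (F n) ω 1 τ = 1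
  zero : ∀ K : ℝ, ∀ᶠ n in UF, ∀ ω ∈ (X n).P.S, ∀ p,
    |jet (X n) (F n) ω 0 p - (1 : Mt (Fin m)) p o| ≤ dl (uu X) K n
  hom : ∀ K : ℝ, ∀ᶠ n in UF, ∀ ω ∈ (X n).P.S, ∀ (i : ℕ) p, la p ≠ i * lg →
    |jet (X n) (F n) ω i p| ≤ dl (uu X) K n
  same : ∀ (x : ℚ) (K : ℝ), ∀ᶠ n in UF, ∀ ω v v', Mt2 (X n) x ω v v' → ∀ i p,
    |jet (X n) (F n) v i p - jet (X n) (F n) v' i p| ≤ dl (uu X) K n
  r6 : ∀ K : ℝ, ∀ᶠ n in UF, ∀ ω ∈ (X n).P.S, ∀ a i p,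
    |(lt la (A n ω) a).mulVec (jet (X n) (F n) ω i) p -
      lt la (A n ω) a τ o * jet (X n) (F n) ω (i + 1) p| ≤ dl (uu X) K n

/-- The linear facts hold. -/
def SL1 : Prop := ∀ (N D m E : ℕ) (η θ β js Γ : ℝ) (sl : ℕ → ℝ) (kk la : Fin m → ℝ) (o τ : Fin m)
  (S : Finset (El la)) (C L : ℝ) (X : ℕ → St N D) (F : ∀ n, Fd N D m (X n).Ω)
  (A : ∀ n, (X n).Ω → El la → El la → ℝ), Tq X E η θ β js Γ sl → 1 ≤ L →
  FM kk la o τ S C L X F A → L1 kk la o τ S C L X F A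

/-- The height. -/
def SL2 : Prop := ∀ (N D m E : ℕ) (η θ β js Γ : ℝ) (kf : ℕ → ℕ) (sl : ℕ → ℝ) (kk la : Fin m → ℝ)
  (o τ : Fin m) (S : Finset (El la)) (C L : ℝ) (X : ℕ → St N D) (F : ∀ n, Fd N D m (X n).Ω)
  (A : ∀ n, (X n).Ω → El la → El la → ℝ), Ts X E η θ β js Γ kf sl → MI kk la o τ X F →
  L1 kk la o τ S C L X F A → L2 la o τ X F A

/-- The curve. -/
def SL3 : Prop := ∀ (N D m E : ℕ) (η θ β js Γ : ℝ) (sl : ℕ → ℝ) (kk la : Fin m → ℝ)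
  (o τ : Fin m) (S : Finset (El la)) (C L : ℝ) (X : ℕ → St N D) (F : ∀ n, Fd N D m (X n).Ω)
  (A : ∀ n, (X n).Ω → El la → El la → ℝ), Tq X E η θ β js Γ sl → MI kk la o τ X F →
  (∀ n, (F n).b = (X n).lv 0) → L1 kk la o τ S C L X F A → L2 la o τ X F A → L3 la o τ X F A

/-- The base class is not empty. -/
def SFM : Prop := ∀ (N D E : ℕ) (η θ β js Γ : ℝ) (kf : ℕ → ℕ) (sl : ℕ → ℝ) (X₀ : ℕ → St N D),
  1 ≤ D → Ts X₀ E η θ β js Γ kf sl → Sur X₀ → ∃ (kk la : Fin (dV N D) → ℝ) (o τ : Fin (dV N D))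
    (S : Finset (El la)) (C L : ℝ) (X : ℕ → St N D) (F : ∀ n, Fd N D (dV N D) (X n).Ω)
    (A : ∀ n, (X n).Ω → El la → El la → ℝ), 1 ≤ L ∧ Ts X E η θ β js Γ kf sl ∧ Sur X ∧
    FM kk la o τ S C L X F A ∧ (∀ n, (F n).b = (X n).lv 0) ∧ ∀ a, la a = sl (a + 1) - sl a

end Pool.Agent.MP_5168f5_an.QA.AB
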