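import Pool.Agent.MP_5168f5_an.QA.FlDefs

/-! The Kakeya maximal estimate: positions and stabiliser in a filtration, statements. -/

namespace Pool.Agent.MP_5168f5_an.QA.Spl

open H19 H17S H17F R4 AN Filter Finset Matrix Fl
open GA (Mt Wd vec ex br cm)
open PA (Pr sP sM)
open LC (Au)
open Cp (hc)

variable {ι κ α J : Type} [Fintype ι] [DecidableEq ι] [Fintype κ] [DecidableEq κ] [Fintype α]

/-- The row `o` vanishes, the row `τ` meets only the column `o`, in weight at most `s`. -/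
structure Pat (σ : Sg ι κ α) (o τ : ι) (s : ℝ) : Prop where
  row : ∀ a r, r ≠ o → σ.B a τ r = 0
  ro : ∀ a r, σ.B a o r = 0
  wt : ∀ a, s < σ.m a → σ.B a τ o = 0

/-- The orbit data: matrices `F` that commute with the live part, an inverse `F'` of `F j₀`, the
reference point `q`, and the jets `y` with the factors `χ`. -/
structure Od (ι α J Ω : Type) : Type where
  F : Ω → J → Mt ι
  F' : Ω → Mt ι
  q : Ω → ι → ℝ
  y : Ω → ℕ → ι → ℝ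
  χ : Ω → α → ℝ

section One

variable {Ω Θ Ξ : Type} (σ : Sg ι κ α) (b : Bd ι κ α Ω Θ Ξ) (d : Fd ι κ α Ω) (μ : κ → ℝ)
  (o τ : ι) (s : ℝ) (j₀ : J) (z : Od ι α J Ω)

/-- The letters: one of weight `s` is long, and all shift the jet of order `j`. -/
structure Jt (j : ℕ) (u w : ℝ) (ω : Ω) : Prop where
  long : ∃ i, σ.η i = s ∧ Real.exp (-u) ≤ |vec σ.B (b.H ω i) τ o|
  y0 : z.y ω 0 = Pi.single o 1
  bd : ∀ r i, |z.y ω j r| ≤ Real.exp u ∧ |z.χ ω i| ≤ Real.exp u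
  sh : ∀ i r, |(vec σ.B (b.H ω i) *ᵥ z.y ω j - z.χ ω i • z.y ω (j + 1)) r| ≤ Real.exp (-w)

/-- The point `k e_o` lies on the orbit of `q`. -/
structure Ob (u w : ℝ) (ω : Ω) : Prop where
  inv : z.F' ω * z.F ω j₀ = 1
  bd : ∀ j p r, |z.F ω j p r| ≤ Real.exp u ∧ |z.F' ω p r| ≤ Real.exp u ∧ |z.q ω r| ≤ Real.exp u
  qo : |z.q ω o - 1| ≤ Real.exp (-w)
  com : ∀ a j p r, 0 < μ a → |cm (d.B σ ω a) (z.F ω j) p r| ≤ Real.exp (-w)
  orb : ∃ t, (∀ a, |t a| ≤ Real.exp u ∧ (μ a = 0 → |t a| ≤ Real.exp (-w))) ∧ ∀ r,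
    |(ex (d.B σ ω) (d.k ω) *ᵥ Pi.single o 1 - ex (d.B σ ω) t *ᵥ (z.F ω j₀ *ᵥ z.q ω)) r| ≤
      Real.exp (-w)

variable (pos : κ → Prop) (ta : κ)

/-- The live indices outside `pos` span the stabiliser of `q`; the coordinate `ta` is the entry
`(τ, o)`; the symbols of the letters are proportional along `pos`. -/
structure Sp (w : ℝ) (ω : Ω) : Prop where
  chB : ∀ a, d.B σ ω a τ o = if a = ta then 1 else 0
  chA : ∀ i, d.A ω i ta = vec σ.B (b.H ω i) τ o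
  chi : ∀ a a', d.c σ ω a a' ta = 0
  stab : ∀ a r, 0 < μ a → ¬pos a → |(d.B σ ω a *ᵥ z.q ω) r| ≤ Real.exp (-w)
  sub : ∀ a a' e, 0 < μ a → 0 < μ a' → ¬pos a → ¬pos a' → pos e →
    |d.c σ ω a a' e| ≤ Real.exp (-w)
  cur : ∀ i i' a, pos a → |blk μ (σ.η i) (d.A ω i) a * blk μ (σ.η i') (d.A ω i') ta -
    blk μ (σ.η i') (d.A ω i') a * blk μ (σ.η i) (d.A ω i) ta| ≤ Real.exp (-w)

end One

section Seq

variable {κ' : Type} {Ω Λ Θ Ξ : ℕ → Type} (σ : Sg ι κ α) (b : ∀ n, Bd ι κ α (Ω n) (Θ n) (Ξ n))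
  (μ : κ → ℝ) (o τ : ι) (s : ℝ) (j₀ : J) (z : ∀ n, Od ι α J (Ω n))
  (X : ∀ n, Pr κ' (Ω n) (Λ n)) (d : ∀ n, Fd ι κ α (Ω n))

/-- The jets along the sequence. -/
def Jet : Prop := ∀ j, Au (sM X) fun n u w => ∀ ω ∈ (X n).P.S, Jt σ (b n) o τ s (z n) j u w ω

/-- The orbit along the sequence. -/
structure Orb : Prop where
  fq : FnE (sP X) (fun n => (z n).q) fun n => (d n).T
  ob : Au (sM X) fun n u w => ∀ ω ∈ (X n).P.S, Ob σ (d n) μ o j₀ (z n) u w ω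

/-- The splitting along the sequence. -/
structure Out (pos : κ → Prop) (ta : κ) : Prop where
  live : ∀ a, pos a → 0 < μ a
  tau : pos ta
  wt : μ ta = s
  sp : Au (sM X) fun n _ w => ∀ ω ∈ (X n).P.S, Sp σ (b n) (d n) μ o τ (z n) pos ta w ω
  cur : ∀ v : Wd α, 2 ≤ v.len → Au (sM X) fun n _ w => ∀ ω ∈ (X n).P.S, ∀ a, pos a →
    |v.ev (br (hc μ ((d n).c σ ω))) (fun i => blk μ (σ.η i) ((d n).A ω i)) a| ≤ Real.exp (-w)

end Seq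

/-- A member with an orbit gives a member with a splitting. The support shrinks, the label gets
finer and the position `G` is kept. -/
def SSpl : Prop := ∀ (ι κ α κ' J : Type) [Fintype ι] [DecidableEq ι] [Fintype κ] [DecidableEq κ]
  [Fintype α] [Fintype J] (Ω Λ Θ Ξ : ℕ → Type) (σ : Sg ι κ α)
  (b : ∀ n, Bd ι κ α (Ω n) (Θ n) (Ξ n)) (K : (∀ n, Pr κ' (Ω n) (Λ n)) → Prop) (Hs : Finset ℝ)
  (W : ℝ) (μ : κ → ℝ) (γ : κ → ℕ) (o τ : ι) (s : ℝ) (j₀ : J) (z : ∀ n, Od ι α J (Ω n))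
  (X : ∀ n, Pr κ' (Ω n) (Λ n)) (d : ∀ n, Fd ι κ α (Ω n)), σ.Ok Hs W → (∀ a, μ a ∈ Hs) → Cz K →
  Mem σ b K μ γ X d → Pat σ o τ s → Jet σ b o τ s z X → Orb σ μ o j₀ z X d →
  ∃ (γ' : κ → ℕ) (X' : ∀ n, Pr κ' (Ω n) (Λ n)) (d' : ∀ n, Fd ι κ α (Ω n)) (pos : κ → Prop)
    (ta : κ), Mem σ b K μ γ' X' d' ∧ Jet σ b o τ s z X' ∧ Orb σ μ o j₀ z X' d' ∧
    Out σ b μ o τ s z X' d' pos ta ∧ FnE (sP X') (fun n => (d n).T) (fun n => (d' n).T) ∧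
    ∀ᶠ n in UF, ∀ ω ∈ (X' n).P.S, ω ∈ (X n).P.S ∧ (d' n).G σ (b n) ω = (d n).G σ (b n) ω

end Pool.Agent.MP_5168f5_an.QA.Spl
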