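import Pool.Agent.MP_5168f5_an.QA.OrbSpec
import Pool.Agent.MP_5168f5_an.QA.AbS
import Pool.Agent.MP_5168f5_an.QA.SplD

/-! The Kakeya maximal estimate: the reference point of an orbit, statements. -/

namespace Pool.Agent.MP_5168f5_an.QA.Ob

open H19 H17S H17F R4 AN Filter Matrix IsNilpotent Fl
open GA (Mt ex cm)
open G39 (dl)
open N2 (tri El)
open N6 (Eb)
open PA (Pr sP sM sO)
open LC (Au)

section One

variable {m : ℕ} {κ α J Ω Θ Ξ W β : Type} [Fintype κ] [Fintype α] [Fintype J] (kk : Fin m → ℝ)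
  (σ : Sg (Fin m) κ α) (b : Bd (Fin m) κ α Ω Θ Ξ) (d : Fd (Fin m) κ α Ω)
  (φ : Ω → J → Mt (Fin m)) (μ : κ → ℝ) (o : Fin m)

/-- The matrices in the own frame. -/
noncomputable def ps (ω : Ω) (j : J) : Mt (Fin m) := (b.J ω)⁻¹ * φ ω j * b.J ω

/-- The matrices in the reference frame. -/
noncomputable def pe (ω : Ω) (j : J) : Mt (Fin m) := (d.E ω)⁻¹ * φ ω j * d.E ω

/-- Their triangular parts. -/
noncomputable def pf (ω : Ω) (j : J) : Mt (Fin m) := pj kk (pe d φ ω j)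

/-- The point. -/
noncomputable def pt (ω : Ω) : Fin m → ℝ := ex (d.B σ ω) (d.k ω) *ᵥ Pi.single o 1

/-- In the own frame the matrices are bounded and almost triangular; they commute. -/
structure Ow (u w : ℝ) (ω : Ω) : Prop where
  bd : ∀ j, Eb (Real.exp u) (ps b φ ω j)
  tri : ∀ j, Eb (Real.exp (-w)) (ps b φ ω j - pj kk (ps b φ ω j))
  cm : ∀ i j, φ ω i * φ ω j = φ ω j * φ ω i

/-- The live part commutes with the matrices. -/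
def Co (w : ℝ) (ω : Ω) : Prop :=
  ∀ a j, 0 < μ a → Eb (Real.exp (-w)) (cm (d.B σ ω a) (pe d φ ω j))

/-- The facts in the reference frame. -/
structure Rf (u w : ℝ) (ω : Ω) : Prop where
  al : Al kk (d.B σ ω) (d.c σ ω) (fun a => 0 < μ a) 1 (pf kk d φ ω) (Real.exp u) (Real.exp u)
    (Real.exp (-w))
  pe : ∀ j, Eb (Real.exp (-w)) (pe d φ ω j - pf kk d φ ω j)
  pk : ∀ j, Eb (Real.exp (-w))
    (ex (d.B σ ω) (d.k ω) * ps b φ ω j * ex (d.B σ ω) (-d.k ω) - pf kk d φ ω j)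
  vb : Vb (Real.exp u) (pt σ d o ω)

/-- Virtual points `y` lie on the curve of the letters; the label `V` locates them. -/
structure Vt (P : FP Ω) (Q : FP W) (π : W → Ω) (V : W → β) (y : W → Fin m → ℝ) (θ u w : ℝ) :
    Prop where
  mem : ∀ v ∈ Q.S, π v ∈ P.S
  crv : ∀ v ∈ Q.S, ∃ (ξ : J → ℝ) (s : α → ℝ), (∀ j, |ξ j| ≤ Real.exp u) ∧
    (∀ i, |s i| ≤ Real.exp u) ∧ Vb (Real.exp (-w)) ((b.J (π v))⁻¹ *ᵥ y v -
      exp (∑ j, ξ j • pj kk (ps b φ (π v) j)) *ᵥ (ex σ.B (∑ i, s i • b.H (π v) i) *ᵥ Pi.single o 1))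
  nr : ∀ v ∈ Q.S, ∀ v' ∈ Q.S, b.S (π v) = b.S (π v') → b.T (π v) = b.T (π v') → V v = V v' →
    Vb (Real.exp u * θ) ((b.J (π v))⁻¹ *ᵥ (y v - y v'))

/-- The point lies near the orbit of `q`. -/
def On (q : Ω → Fin m → ℝ) (X θ : ℝ) (ω : Ω) : Prop := Vb X (q ω) ∧
  Nb (d.B σ ω) (fun a => 0 < μ a) 1 (pf kk d φ ω) X θ (q ω) (pt σ d o ω)

end One

/-- Exponentials of close nilpotent matrices. -/
def SPrt : Prop := ∀ m D : ℕ, ∃ C : ℕ, 1 ≤ C ∧ ∀ (kk : Fin m → ℝ) (A Y : Mt (Fin m)) (L θ : ℝ),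
  A ^ (D + 1) = 0 → Y ∈ (tri kk).F 0 → 1 ≤ L → 0 ≤ θ → θ ≤ 1 → Eb L Y → Eb θ (A - Y) →
  Eb ((C * L) ^ C * θ) (exp A - exp Y)

/-- The derivatives in the own frame. -/
def SFb : Prop := ∀ (N D m E : ℕ) (η θ β js Γ : ℝ) (sl : ℕ → ℝ) (kk la : Fin m → ℝ) (o τ : Fin m)
  (S : Finset (El la)) (C L : ℝ) (X : ℕ → St N D) (F : ∀ n, AB.Fd N D m (X n).Ω)
  (A : ∀ n, (X n).Ω → El la → El la → ℝ) (ψ : ∀ n, (X n).Ω → Fin N → Mt (Fin m)),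
  Tq X E η θ β js Γ sl → Sur X → AB.MI kk la o τ X F → (∀ n, (F n).b = (X n).lv 0) →
  AB.L1 kk la o τ S C L X F A → (∀ᶠ n in UF, ∀ ω ∈ (X n).P.S, Ph (X n).M ((F n).f ω) (ψ n ω)) →
  Au (uu X) fun n u w => ∀ ω ∈ (X n).P.S, ∀ j, Eb (Real.exp u) (ψ n ω j) ∧
    Eb (Real.exp (-w)) (ψ n ω j - pj kk (ψ n ω j)) ∧
    ∀ a, Eb (Real.exp (-w)) (cm (AB.lt la (A n ω) a) (ψ n ω j))

/-- The tube of level zero lies on the curve of the letters. -/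
def SVh : Prop := ∀ (N D m E : ℕ) (η θ β js Γ : ℝ) (sl : ℕ → ℝ) (kk la : Fin m → ℝ) (o τ : Fin m)
  (S : Finset (El la)) (C L : ℝ) (X : ℕ → St N D) (F : ∀ n, AB.Fd N D m (X n).Ω)
  (A : ∀ n, (X n).Ω → El la → El la → ℝ) (ψ : ∀ n, (X n).Ω → Fin N → Mt (Fin m)),
  Tq X E η θ β js Γ sl → Sur X → AB.MI kk la o τ X F → (∀ n, (F n).b = (X n).lv 0) →
  AB.L1 kk la o τ S C L X F A → AB.L2 la o τ X F A → AB.L3 la o τ X F A →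
  (∀ᶠ n in UF, ∀ ω ∈ (X n).P.S, Ph (X n).M ((F n).f ω) (ψ n ω)) →
  Au (uu X) fun n u w => ∀ ω ∈ (X n).P.S, ∀ y ∈ seg (X n).M ((X n).lv 0) ((X n).g.l ω)
    ((X n).g.zc ((X n).lv 0) ω) 5, ∃ (ξ : Fin N → ℝ) (s : El la → ℝ), (∀ j, |ξ j| ≤ Real.exp u) ∧
    (∀ a, |s a| ≤ Real.exp u) ∧ Vb (Real.exp (-w)) (ev ((F n).f ω) y -
      exp (∑ j, ξ j • pj kk (ψ n ω j)) *ᵥ (exp (∑ a, s a • AB.lt la (A n ω) a) *ᵥ Pi.single o 1))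

/-- From the own frame to the reference frame. -/
def SAl : Prop := ∀ (m : ℕ) (κ α J : Type) [Fintype κ] [DecidableEq κ] [Fintype J]
  (kk : Fin m → ℝ) (σ : Sg (Fin m) κ α) (Hs : Finset ℝ) (W : ℝ) (μ : κ → ℝ) (γ : κ → ℕ)
  (o : Fin m), σ.Φ = tri kk → σ.Ok Hs W → (∀ a, μ a ∈ Hs) → ∃ C : ℝ, 1 ≤ C ∧
  ∀ (Ω Λ Θ Ξ : Type) (b : Bd (Fin m) κ α Ω Θ Ξ) (d : Fd (Fin m) κ α Ω) (P : FP Ω) (O : Ω → Λ)
    (φ : Ω → J → Mt (Fin m)) (R u w : ℝ), 0 ≤ R → 1 ≤ u → C * (u + R) ≤ w →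
    One σ b d P O μ γ R u w → ∀ ω ∈ P.S, Ow kk b φ u w ω → Co σ d φ μ w ω →
    Rf kk σ b d φ μ o (C * u) (w - C * (u + R)) ω

/-- The reference point on one space. -/
def SOne : Prop := ∀ (m : ℕ) (κ α J : Type) [Fintype κ] [DecidableEq κ] [Fintype α] [Fintype J]
  (kk : Fin m → ℝ) (σ : Sg (Fin m) κ α) (Hs : Finset ℝ) (W : ℝ) (μ : κ → ℝ) (γ : κ → ℕ)
  (o : Fin m), σ.Φ = tri kk → σ.Ok Hs W → (∀ a, μ a ∈ Hs) → ∃ C : ℝ, 1 ≤ C ∧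
  ∀ (Ω Λ Θ Ξ W' β : Type) (b : Bd (Fin m) κ α Ω Θ Ξ) (d : Fd (Fin m) κ α Ω) (P : FP Ω)
    (O : Ω → Λ) (φ : Ω → J → Mt (Fin m)) (Q : FP W') (π : W' → Ω) (V : W' → β)
    (y : W' → Fin m → ℝ) (R u w θ : ℝ), 0 ≤ R → 1 ≤ u → C * (u + R) ≤ w →
    Real.exp (-(w - C * (u + R))) ≤ θ → Real.exp (C * u) * θ ≤ 1 → One σ b d P O μ γ R u w →
    b.At σ P O R u w → Fn P φ b.T → (∀ ω ∈ P.S, Ow kk b φ u w ω ∧ Rf kk σ b d φ μ o u w ω) →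
    Vt kk σ b φ o P Q π V y θ u w → ∃ q : Ω → Fin m → ℝ, Fn P q O ∧
      (∀ ω ∈ P.S, On kk σ d φ μ o q (Real.exp (C * u)) (Real.exp (C * u) * θ) ω) ∧
      Det Q (fun v => q (π v)) (fun v => (b.S (π v), d.T (π v), V v)) (Real.exp (C * u))

/-- The reference point is put into the common label. -/
def SOrb : Prop := ∀ (m : ℕ) (κ α κ' J : Type) [Fintype κ] [DecidableEq κ] [Fintype α] [Fintype J]
  (Ω Λ Θ Ξ W' : ℕ → Type) (β : Type) (kk : Fin m → ℝ) (σ : Sg (Fin m) κ α)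
  (b : ∀ n, Bd (Fin m) κ α (Ω n) (Θ n) (Ξ n)) (K : (∀ n, Pr κ' (Ω n) (Λ n)) → Prop)
  (Hs : Finset ℝ) (W : ℝ) (μ : κ → ℝ) (γ : κ → ℕ) (o : Fin m) (X : ∀ n, Pr κ' (Ω n) (Λ n))
  (d : ∀ n, Fd (Fin m) κ α (Ω n)) (φ : ∀ n, Ω n → J → Mt (Fin m)) (Q : ∀ n, FP (W' n))
  (π : ∀ n, W' n → Ω n) (V : ℕ → ∀ n, W' n → β) (y : ∀ n, W' n → Fin m → ℝ),
  σ.Φ = tri kk → σ.Ok Hs W → (∀ a, μ a ∈ Hs) → Cz K → Mem σ b K μ γ X d →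
  FnE (sP X) φ (fun n => (b n).T) →
  (Au (sM X) fun n u w => ∀ ω ∈ (X n).P.S, Ow kk (b n) (φ n) u w ω ∧ Co σ (d n) (φ n) μ w ω) →
  (∀ R : ℕ, Au (sM X) fun n u w =>
    Vt kk σ (b n) (φ n) o (X n).P (Q n) (π n) (V R n) (y n) (dl (sM X) R n) u w) →
  (∀ (q : ∀ n, Ω n → Fin m → ℝ) (R : ℕ), (Sm (sM X) fun n =>
    ch (Q n) (fun v => q n (π n v)) fun v => ((b n).S (π n v), V R n v)) →
    Sm (sM X) fun n => ch (X n).P (q n) (b n).S) →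
  ∃ (G : ∀ n, Ω n → Prop) (q : ∀ n, Ω n → Fin m → ℝ), PA.Trm X G ∧
    Mem σ b K μ γ (fun n => (X n).res (G n)) (fun n => (d n).ref (q n)) ∧
    Au (sM X) fun n u w => ∀ ω ∈ (X n).P.S, Rf kk σ (b n) (d n) (φ n) μ o u w ω ∧
      On kk σ (d n) (φ n) μ o (q n) (Real.exp u) (Real.exp (-w)) ω

def OfFb : Prop := STay → SLog → SFb
def OfVh : Prop := STay → SPrt → SFb → SVh
def OfAl : Prop := SPh → SAl
def OfOne : Prop := SPg → SNet → SJoin → ROut → SOne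
def OfOrb : Prop := SAl → SOne → SOrb

end Pool.Agent.MP_5168f5_an.QA.Ob
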