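import Pool.Agent.MP_5168f5_an.QA.Vh0
import Pool.Agent.MP_5168f5_an.QA.OrbSq
import Pool.Agent.MP_5168f5_an.QA.ChAlg

/-! The Kakeya maximal estimate: the tube of level zero lies on the curve of the letters. -/

namespace Pool.Agent.MP_5168f5_an.QA.Vh

open H19 H17S H17F R4 AN AN.GA AN.N6 IsNilpotent Finset Filter Matrix
open N2 (tri)
open Lt Ob

variable {m k : ℕ} {W θ A : ℝ} {X Y : Mt (Fin m)}

theorem eb_ser {Z : ℕ → Mt (Fin m)} (hW : (2 * (m + 1) + k : ℕ) ≤ W) (hθ : 0 ≤ θ)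
    (h : ∀ i, Eb ((2 * (m + 1) * W) ^ i * θ) (Z i)) :
    Eb (W ^ (2 * k + 1) * θ) (∑ i ∈ range k, ((i.factorial : ℚ))⁻¹ • Z i) := by
  have m0 : (0 : ℝ) ≤ m := Nat.cast_nonneg _
  have k0 : (0 : ℝ) ≤ k := Nat.cast_nonneg _
  push_cast at hW
  have w1 : 1 ≤ W := by linarith
  refine eb_mono (eb_sum (r := fun _ => (W ^ 2) ^ k * θ) _ fun i hi => eb_mono (eb_rat (h i) _)
    ((mul_le_of_le_one_left (by positivity) ?_).trans (mul_le_mul_of_nonneg_right
      ((pow_le_pow_left₀ (by positivity) (by nlinarith) i).trans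
        (pow_le_pow_right₀ (one_le_pow₀ w1) (mem_range.1 hi).le)) hθ))) ?_
  · rw [Rat.cast_inv, abs_inv, Rat.cast_natCast, Nat.abs_cast]
    exact inv_le_one_of_one_le₀ (by exact_mod_cast i.factorial_pos)
  · rw [sum_const, card_range, nsmul_eq_mul, ← pow_mul, pow_succ' W, mul_assoc]
    exact mul_le_mul_of_nonneg_right (by linarith) (by positivity)

theorem one_le (hW : (2 * (m + 1) + k : ℕ) ≤ W) : 1 ≤ W :=
  le_trans (by exact_mod_cast (by omega)) hW

theorem nil_le (hW : (2 * (m + 1) + k : ℕ) ≤ W) (a : X ^ k = 0) (b : Eb W X) :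
    Eb (W ^ (2 * k + 1)) (exp X) := by
  have w1 := one_le hW
  rw [exp_eq_sum a, ← mul_one (W ^ _)]
  refine eb_ser hW zero_le_one fun i => eb_mono (b.pow w1 i) ?_
  have b0 : (0 : ℝ) ≤ (m + 1) * W := by positivity
  rw [mul_one]
  exact pow_le_pow_left₀ b0 (by linarith) i

theorem nil_prt (hW : (2 * (m + 1) + k : ℕ) ≤ W) (hθ : 0 ≤ θ) (a : X ^ k = 0) (a' : Y ^ k = 0)
    (b : Eb W X) (b' : Eb W Y) (d : Eb θ (X - Y)) : Eb (W ^ (2 * k + 1) * θ) (exp X - exp Y) := by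
  rw [exp_eq_sum a, exp_eq_sum a', ← sum_sub_distrib]
  simp only [← smul_sub]
  exact eb_ser hW hθ (pow_prt b b' d (one_le hW) hθ)

theorem nil_cm (hW : (2 * (m + 1) + k : ℕ) ≤ W) (hθ : 0 ≤ θ) (a : X ^ k = 0) (b : Eb W X)
    (d : Eb θ (cm X Y)) : Eb (W ^ (2 * k + 1) * θ) (cm Y (exp X)) := by
  have w1 := one_le hW
  have e : cm Y (exp X) = ∑ i ∈ range k, ((i.factorial : ℚ))⁻¹ • cm Y (X ^ i) := by
    simp only [exp_eq_sum a, cm, mul_sum, sum_mul, ← sum_sub_distrib, smul_sub, mul_smul_comm,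
      smul_mul_assoc]
  rw [e]
  refine eb_ser hW hθ fun i => ?_
  induction i with
  | zero => simpa [cm] using eb_zero hθ
  | succ i ih =>
    have e : cm Y (X ^ (i + 1)) = X * cm Y (X ^ i) - cm X Y * X ^ i := by
      rw [pow_succ', cm, cm, cm]; noncomm_ring
    have b0 : (0 : ℝ) ≤ (m + 1) * W := by positivity
    have k1 : ((m + 1) * W) ^ i ≤ (2 * (m + 1) * W) ^ i := pow_le_pow_left₀ b0 (by linarith) i
    have k0 : 0 ≤ (2 * (m + 1) * W) ^ i := by positivity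
    rw [e]
    refine eb_mono (eb_sub (eb_mul b ih (by linarith) (by positivity))
      (eb_mul d (eb_mono (b.pow w1 i) k1) hθ k0)) ?_
    have : 0 ≤ (m + 1) * (2 * (m + 1) * W) ^ i * θ := by positivity
    rw [pow_succ']
    nlinarith

theorem vb_mv {v : Fin m → ℝ} (h : Eb A X) (h0 : 0 ≤ θ) (k : Vb θ v) : Vb (m * A * θ) (X *ᵥ v) :=
  fun _ => Ch.mv_le (fun p q => h q p) h0 fun q _ => k q

theorem vb_mono {v : Fin m → ℝ} (k : Vb θ v) (e : θ ≤ A) : Vb A v := fun q => (k q).trans e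

theorem vb_add {v w : Fin m → ℝ} (k : Vb θ v) (k' : Vb A w) : Vb (θ + A) (v + w) :=
  fun q => (abs_add_le _ _).trans (add_le_add (k q) (k' q))

theorem vb_col (h : Eb A X) (o : Fin m) : Vb A (X *ᵥ Pi.single o 1) := fun q => by
  rw [mulVec_single_one]; exact h o q

theorem nil_of {kk : Fin m → ℝ} (h : X ∈ (tri kk).F 0) (D : ℕ) : X ^ (D + m + 1) = 0 := by
  have : X ^ (m + 1) = 0 := (tri kk).pow_zero' h
  rw [add_assoc, pow_add, this, mul_zero]

theorem sm_mem {kk : Fin m → ℝ} (h : X ∈ (tri kk).F 0) (s : ℝ) : s • X ∈ (tri kk).F 0 :=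
  N2.mem_F0.2 fun p q e => by rw [Matrix.smul_apply, N2.mem_F0.1 h p q e, smul_zero]

theorem nil_up {D : ℕ} (h : X ^ (D + 1) = 0) : X ^ (D + m + 1) = 0 :=
  pow_eq_zero_of_le (by omega) h

theorem eb_lin {J : Type} [Fintype J] {ξ : J → ℝ} {Z : J → Mt (Fin m)} {r : ℝ}
    (h : ∀ j, |ξ j| ≤ r) (k : ∀ j, Eb A (Z j)) : Eb (Fintype.card J * (r * A)) (∑ j, ξ j • Z j) :=
  eb_card fun j => eb_smul (k j) (h j)

end Pool.Agent.MP_5168f5_an.QA.Vh

namespace Pool.Agent.MP_5168f5_an.QA.Ob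

open H19 H17S H17F R4 AN AN.N6 IsNilpotent Finset Filter Matrix
open N2 (tri)
open Lt Vh

theorem sPrt : SPrt := fun m D => by
  obtain ⟨k, hk⟩ : ∃ k, k = D + m + 1 := ⟨_, rfl⟩
  refine ⟨2 * (m + 1) + k + (2 * k + 1), by omega, fun kk A Y L θ a b c d e f g => ?_⟩
  have h0 : (0 : ℝ) ≤ (2 * m + k : ℕ) := Nat.cast_nonneg _
  have h1 : L + θ ≤ (2 * (m + 1) + k : ℕ) * L := by push_cast at h0 ⊢; nlinarith
  have h2 := eb_add f g
  rw [add_sub_cancel] at h2
  refine eb_mono (nil_prt (k := k) (le_mul_of_one_le_right (Nat.cast_nonneg _) c) d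
    (hk ▸ nil_up a) (hk ▸ nil_of b D) (eb_mono h2 h1) (eb_mono f (by linarith)) g)
    (mul_le_mul_of_nonneg_right ((pow_le_pow_left₀ (by positivity) ?_ _).trans
      (pow_le_pow_right₀ (one_le_mul_of_one_le_of_one_le ?_ c) (by omega))) d)
  · exact mul_le_mul_of_nonneg_right (by exact_mod_cast (by omega)) (by linarith)
  · exact_mod_cast (by omega)

theorem ofVh : OfVh := by
  intro hT _ hF N D m E η θ β js Γ sl kk la o τ S C L X F A ψ tq su mi hb h1 h2 h3 hψ c hc T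
  classical
  obtain ⟨k, hk⟩ : ∃ k, k = D + m + 1 := ⟨_, rfl⟩
  obtain ⟨K, hK⟩ : ∃ K : ℝ, K = T + (4 * k + 5 : ℕ) * (c + 2) := ⟨_, rfl⟩
  filter_upwards [vh (T := 0) (x := 0) hT tq.big mi h1 h2 h3 K 5 hc (.of_forall fun n => by simp),
    hF N D m E η θ β js Γ sl kk la o τ S C L X F A ψ tq su mi hb h1 hψ 1 one_pos K, hψ, h1.mem,
    tq.big.ev (2 * (m + 1) + k : ℕ), tq.big.ev (N * 5 * (m + 1)), tq.big.ev C, tq.big.ev (5 / c)]
    with n a1 a2 a3 a4 a5 a6 a7 a8 ω hω y hy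
  obtain ⟨a, -, -, b⟩ := a1 ω hω
  obtain ⟨ξ, s, e, b1, b2, b3, b4, b5⟩ := b _ (a3 ω hω) y hy
  rw [zero_add] at b2
  have x5 : ∀ j, |ξ j| ≤ 5 := fun j => (norm_le_pi_norm ξ j).trans b1
  have u0 : (0 : ℝ) ≤ (X n).u := Nat.cast_nonneg _
  simp only [uu, G39.dl, one_mul] at *
  generalize ((X n).u : ℝ) = u at *
  have n0 : (0 : ℝ) ≤ N := Nat.cast_nonneg _
  have m0 : (0 : ℝ) ≤ m := Nat.cast_nonneg _
  have u1 : u ≤ Real.exp u := le_trans (by linarith) (Real.add_one_le_exp u)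
  have e1 := Real.one_le_exp u0
  have e2 := Real.one_le_exp (mul_nonneg hc.le u0)
  obtain ⟨W, hW⟩ : ∃ W, W = Real.exp (c * u) * (Real.exp u * Real.exp u) := ⟨_, rfl⟩
  have w0 : Real.exp u * Real.exp u ≤ W := hW ▸ le_mul_of_one_le_left (by positivity) e2
  have w1 : u * Real.exp u ≤ W := (mul_le_mul_of_nonneg_right u1 (by linarith)).trans w0
  have w2 : u ≤ W := (le_mul_of_one_le_right u0 e1).trans w1
  have w3 : (N : ℝ) * (5 * Real.exp u) ≤ W := le_trans (by nlinarith [mul_nonneg n0 m0]) w1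
  have w4 := a5.trans w2
  have w5 := one_le w4
  have c1 : Eb W _ := eb_mono (eb_lin x5 fun j => (a2 ω hω j).1) (by rw [Fintype.card_fin]; exact w3)
  have c2 : Eb W (∑ j, ξ j • pj kk (ψ n ω j)) := eb_mono (eb_lin x5 (A := Real.exp u) fun j q p => by
    simp only [pj, of_apply]
    split_ifs
    exacts [(a2 ω hω j).1 q p, by simpa using (Real.exp_pos u).le]) (by rw [Fintype.card_fin]; exact w3)
  have c3 := eb_lin x5 fun j => (a2 ω hω j).2.1
  simp only [smul_sub, sum_sub_distrib, Fintype.card_fin] at c3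
  have c4 : Eb W (s • AB.lt la (A n ω) a) := eb_mono (eb_smul (L := Real.exp u)
    (fun q p => ((((a4 ω hω a).2.2.2 p q).1.trans a7).trans u1)) b2)
    (hW ▸ mul_le_mul_of_nonneg_left (le_mul_of_one_le_left (by linarith) e1) (by linarith))
  have θ0 := (Real.exp_pos (-(K * u))).le
  have d1 := vb_mv (nil_le w4 (hk ▸ nil_up b4) c1) θ0 b3
  have d2 := vb_mv (nil_prt w4 (by positivity) (hk ▸ nil_up b4) (hk ▸ nil_of (Submodule.sum_mem _
    fun j _ => sm_mem (pj_mem kk _) _) D) c1 c2 c3) (by positivity)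
    (vb_col (nil_le w4 (hk ▸ nil_of (sm_mem (a4 ω hω a).1 s) D) c4) o)
  refine ⟨ξ, Pi.single a s, fun j => (x5 j).trans ?_, fun i => ?_, ?_⟩
  · rw [div_le_iff₀' hc] at a8
    linarith [Real.add_one_le_exp (c * u)]
  · rw [Pi.single_apply]
    split_ifs
    exacts [b2, by simpa using (Real.exp_pos _).le]
  · have e3 : ∑ i, (Pi.single a s : _ → ℝ) i • AB.lt la (A n ω) i = s • AB.lt la (A n ω) a := by
      rw [sum_eq_single a (fun i _ h => by simp [h]) (by simp), Pi.single_eq_same]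
    have e4 : Real.exp (-(T * u)) = W * W * W ^ (2 * k + 1) * W ^ (2 * k + 1) * W *
        Real.exp (-(K * u)) := by
      rw [← pow_two, ← pow_add, ← pow_add, ← _root_.pow_succ, hW, ← Real.exp_add, ← Real.exp_add,
        ← Real.exp_nat_mul, ← Real.exp_add, hK]
      congr 1; push_cast; ring
    rw [e3, b5, mulVec_add, add_sub_right_comm, ← sub_mulVec, e4]
    refine vb_mono (vb_add d2 d1) ?_
    have p1 := one_le_pow₀ (n := 2 * k + 1) w5
    generalize W ^ (2 * k + 1) = Q at *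
    generalize Real.exp (-(K * u)) = θ at *
    push_cast at w4
    have k0 : (0 : ℝ) ≤ k := Nat.cast_nonneg _
    have q1 : m * (N * 5) * (Q * Q * θ) ≤ W * (Q * Q * θ) :=
      mul_le_mul_of_nonneg_right (by nlinarith) (by positivity)
    have q2 : m * (Q * θ) ≤ W * (Q * Q * θ) :=
      mul_le_mul (by linarith) (by nlinarith [mul_nonneg (zero_le_one.trans p1) θ0]) (by positivity)
        (by linarith)
    have q3 : 2 * W * (Q * Q * θ) ≤ W * W * W * (Q * Q * θ) :=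
      mul_le_mul_of_nonneg_right (by nlinarith) (by positivity)
    nlinarith

end Pool.Agent.MP_5168f5_an.QA.Ob
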