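import Pool.Agent.MP_5168f5_an.QA.FlDefs

/-! The Kakeya maximal estimate: the minimal filtration, closure properties. -/

namespace Pool.Agent.MP_5168f5_an.QA.Fl

open H19 H17S H17F R4 AN Filter Finset Matrix
open GA (Mt IsFr Nr Bx Idl lg vec ex br mB mC cm)
open PA (Pr Trm sP sM sO)
open LC (Au Mo ex_le)
open Cp (Hg hc)
open S20 (dn)

section Kit

variable {Ω β β' γ : Type} {P Q : FP Ω} {Y : Ω → β} {Y' : Ω → β'} {A : Ω → γ} {N N' : ℝ}

theorem det_few : Det P Y A N ↔ S20.Few P Y A (fun _ => True) N :=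
  ⟨fun h a ha => (h a ha).imp fun _ k => ⟨k.1, fun v hv e _ => k.2 v hv e⟩,
    fun h a ha => (h a ha).imp fun _ k => ⟨k.1, fun v hv e => k.2 v hv e trivial⟩⟩

theorem det_le (h : Det P Y A N) (e : N ≤ N') : Det P Y A N' :=
  fun a ha => (h a ha).imp fun _ k => ⟨k.1.trans e, k.2⟩

theorem det_sub (h : Det P Y A N) (e : ∀ ω ∈ Q.S, ω ∈ P.S) : Det Q Y A N :=
  fun a ha => (h a (e a ha)).imp fun _ k => ⟨k.1, fun v hv => k.2 v (e v hv)⟩

theorem fn_sub (h : Fn P Y A) (e : ∀ ω ∈ Q.S, ω ∈ P.S) : Fn Q Y A :=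
  fun a ha v hv => h a (e a ha) v (e v hv)

theorem atm_eq {ω v : Ω} : atm Y ω = atm Y v ↔ Y ω = Y v :=
  ⟨fun h => (h ▸ (rfl : Y ω = Y ω) : ω ∈ atm Y v), fun h => by unfold atm; rw [h]⟩

theorem fn_atm : Fn P Y (atm Y) := fun _ _ _ _ => atm_eq.1

theorem atm_fn : Fn P (atm Y) Y := fun _ _ _ _ => atm_eq.2

/-- Two lists give a list of the common atoms. -/
theorem det_atm (h : Det P Y A N) (h' : Det P Y' (fun ω => (A ω, Y ω)) N') :
    Det P (atm fun ω => (Y ω, Y' ω)) A (N * N') :=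
  det_few.2 (((det_few.1 h).pair ((det_few.1 h').ctx fun _ _ _ _ e =>
    Prod.ext (congrArg Prod.snd e) (congrArg Prod.fst e))).fn fun _ _ _ _ e =>
      atm_eq.2 (congrArg Prod.fst e))

end Kit

section Au

variable {M : ℕ → ℕ} {ψ ψ' : ℕ → ℝ → ℝ → Prop} {u w : ℕ → ℝ}

/-- A small loss and a large accuracy. -/
structure Uw (M : ℕ → ℕ) (u w : ℕ → ℝ) : Prop where
  one : ∀ᶠ n in UF, 1 ≤ u n
  sm : ∀ c : ℝ, 0 < c → ∀ᶠ n in UF, u n ≤ c * M n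
  bg : ∀ T : ℝ, ∀ᶠ n in UF, T * M n ≤ w n

theorem ev_ex {S : ℕ → Type} {p : ∀ n, S n → Prop} (x : ∀ n, S n) (h : ∀ᶠ n in UF, ∃ y, p n y) :
    ∃ y : ∀ n, S n, ∀ᶠ n in UF, p n (y n) :=
  ⟨fun n => @Classical.epsilon _ ⟨x n⟩ (p n), h.mono fun _ a => Classical.epsilon_spec a⟩

theorem au_and (h : Au M ψ) (h' : Au M ψ') : Au M fun n u w => ψ n u w ∧ ψ' n u w :=
  fun c hc T => (h c hc T).and (h' c hc T)

theorem au_of (h : Uw M u w) (m : ∀ n, Mo (ψ n)) (e : ∀ᶠ n in UF, ψ n (u n) (w n)) : Au M ψ :=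
  fun c hc T => by
  filter_upwards [e, h.sm c hc, h.bg T] with n a b d using m n _ _ _ _ b d a

theorem au_seq (m : ∀ n, Mo (ψ n))
    (h : ∀ i : ℕ, ∀ᶠ n in UF, ψ n (M n / (i + 1)) ((i + 1) * M n)) : Au M ψ := fun c hc T => by
  obtain ⟨i, hi⟩ := exists_nat_ge (max (1 / c) T)
  refine (h i).mono fun n => m n _ _ _ _ ?_ (mul_le_mul_of_nonneg_right
    (by linarith [le_max_right (1 / c) T]) (Nat.cast_nonneg _))
  have := (div_le_iff₀ hc).1 ((le_max_left _ _).trans hi)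
  rw [div_le_iff₀ (by positivity)]
  nlinarith [Nat.cast_nonneg (α := ℝ) (M n)]

theorem au_ex (hM : Big M) (h : Au M ψ) : ∃ u w, Uw M u w ∧ ∀ᶠ n in UF, ψ n (u n) (w n) := by
  obtain ⟨k, hk, e⟩ := ks.spill (fun k n => ψ n (1 / (k + 1) * M n) ((k + 1) * M n) ∧
    (k + 1 : ℝ) ≤ M n) fun k => (h _ (by positivity) _).and (hM.ev _)
  refine ⟨fun n => 1 / (k n + 1) * M n, fun n => (k n + 1) * M n, ⟨e.mono fun n a => ?_,
    fun c hc => (K31.small hc hk).mono fun n a => mul_le_mul_of_nonneg_right a (Nat.cast_nonneg _),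
    fun T => (hk.ev T).mono fun n a => mul_le_mul_of_nonneg_right (by linarith)
      (Nat.cast_nonneg _)⟩, e.mono fun n a => (a _ le_rfl).1⟩
  rw [one_div_mul_eq_div, le_div_iff₀ (by positivity), one_mul]
  exact (a _ le_rfl).2

theorem Uw.lin (h : Uw M u w) {C : ℝ} (h1 : 1 ≤ C) :
    Uw M (fun n => C * u n) (fun n => w n - C * (u n + M n)) ∧
      ∀ᶠ n in UF, C * (u n + M n) ≤ w n := by
  have c0 := one_pos.trans_le h1
  have k : ∀ T : ℝ, ∀ᶠ n in UF, T * M n ≤ w n - C * (u n + M n) := fun T => by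
    filter_upwards [h.sm 1 one_pos, h.bg (T + 2 * C)] with n a b
    nlinarith
  refine ⟨⟨h.one.mono fun n a => one_le_mul_of_one_le_of_one_le h1 a, fun c hc => ?_, k⟩,
    (k 0).mono fun n a => by linarith⟩
  refine (h.sm (c / C) (by positivity)).mono fun n a => ?_
  rwa [div_mul_eq_mul_div, le_div_iff₀' c0] at a

/-- Constants are absorbed. -/
theorem au_lin (hM : Big M) (h : Au M ψ) (m : ∀ n, Mo (ψ' n)) {C : ℝ} (h1 : 1 ≤ C)
    (e : ∀ᶠ n in UF, ∀ u w, 1 ≤ u → C * (u + M n) ≤ w → ψ n u w →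
      ψ' n (C * u) (w - C * (u + M n))) : Au M ψ' := by
  obtain ⟨u, w, a, b⟩ := au_ex hM h
  refine au_of (a.lin h1).1 m ?_
  filter_upwards [e, a.one, (a.lin h1).2, b] with n x y z t using x _ _ y z t

end Au

variable {ι κ α : Type} [Fintype ι] [DecidableEq ι] [Fintype κ] [DecidableEq κ] [Fintype α]

section One

variable {Ω Λ Λ' Θ Ξ : Type} {σ : Sg ι κ α} {b : Bd ι κ α Ω Θ Ξ} {d : Fd ι κ α Ω} {P Q : FP Ω}
  {O : Ω → Λ} {O' : Ω → Λ'} {μ : κ → ℝ} {γ γ' : κ → ℕ} {R R' u u' w w' : ℝ} {lv : κ → Prop}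

omit [DecidableEq κ] in
theorem Bd.At.wk (h : b.At σ P O R u w) (a : u ≤ u') (a' : ∀ i, u + σ.η i * R ≤ u' + σ.η i * R')
    (e : w' ≤ w) : b.At σ P O R' u' w' :=
  ⟨h.unit, h.fT, det_le h.few (ex_le a), h.fH, fun ω x i y => ⟨(h.bH ω x i y).1.trans (ex_le a),
    fun z => ((h.bH ω x i y).2 z).trans (ex_le (neg_le_neg e))⟩,
    fun ω x v y s t => (h.near ω x v y s t).imp fun _ k => ⟨fun j => (k.1 j).trans
      (mul_le_mul_of_nonneg_right (ex_le a) zero_le_one), k.2⟩,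
    fun ω x v y s => (h.inc ω x v y s).imp fun _ k => ⟨k.1,
      fun j => (k.2.1 j).trans (ex_le (neg_le_neg e)), fun i => (k.2.2 i).trans (ex_le (a' i))⟩⟩

omit [DecidableEq κ] in
theorem mo_at : Mo (b.At σ P O R) := fun _ _ _ _ a e h => h.wk a (fun _ => by linarith) e

omit [DecidableEq κ] in
theorem Bd.At.sub (h : b.At σ P O R u w) (e : ∀ ω ∈ Q.S, ω ∈ P.S) : b.At σ Q O R u w :=
  ⟨fun ω x => h.unit ω (e ω x), fn_sub h.fT e, det_sub h.few e, fn_sub h.fH e,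
    fun ω x => h.bH ω (e ω x), fun ω x v y => h.near ω (e ω x) v (e v y),
    fun ω x v y => h.inc ω (e ω x) v (e v y)⟩

omit [Fintype α] in
theorem Cm.mono (h : Cm σ b d P O μ u) (a : u ≤ u') : Cm σ b d P O μ u' :=
  ⟨h.fT, h.f0, det_le h.few (ex_le a), h.fU, h.fk, h.inv,
    fun ω x i j => (h.bU ω x i j).imp (·.trans (ex_le a)) (·.trans (ex_le a)), h.tri,
    fun ω x i j k => (h.bc ω x i j k).trans (ex_le a), fun ω x i => (h.bk ω x i).trans (ex_le a),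
    h.ad, fun ω x i j => (h.bA ω x i j).trans (ex_le a)⟩

omit [Fintype α] in
theorem Cm.sub (h : Cm σ b d P O μ u) (e : ∀ ω ∈ Q.S, ω ∈ P.S) : Cm σ b d Q O μ u :=
  ⟨fn_sub h.fT e, fn_sub h.f0 e, det_sub h.few e, fn_sub h.fU e, fn_sub h.fk e,
    fun ω x => h.inv ω (e ω x), fun ω x => h.bU ω (e ω x), fun ω x => h.tri ω (e ω x),
    fun ω x => h.bc ω (e ω x), fun ω x => h.bk ω (e ω x), fun ω x => h.ad ω (e ω x),
    fun ω x => h.bA ω (e ω x)⟩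

omit [Fintype α] in
theorem Cm.lev (h : Cm σ b d P O μ u) (e : Fn P O O') : Cm σ b d P O' μ u :=
  { h with fT := h.fT.trans e, fk := h.fk.trans e }

omit [Fintype α] in
theorem One.wk (h : One σ b d P O μ γ R u w) (a : u ≤ u')
    (a' : ∀ i, 0 < μ i → u + μ i * R ≤ u' + μ i * R') (e : w' ≤ w) : One σ b d P O μ γ R' u' w' :=
  ⟨h.toCm.mono a, h.fE, h.uE, fun ω x i j k y => (h.fil ω x i j k y).trans (ex_le (neg_le_neg e)),
    h.fac, fun ω x i => ⟨fun y => ((h.bg ω x i).1 y).trans (ex_le (a' i y)),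
      fun y => ((h.bg ω x i).2 y).trans (ex_le (neg_le_neg e))⟩,
    fun ω x i j y => (h.low ω x i j y).trans (ex_le (neg_le_neg e))⟩

omit [Fintype α] in
theorem mo_one : Mo (One σ b d P O μ γ R) := fun _ _ _ _ a e h => h.wk a (fun _ _ => by linarith) e

omit [Fintype α] in
theorem One.sub (h : One σ b d P O μ γ R u w) (e : ∀ ω ∈ Q.S, ω ∈ P.S) : One σ b d Q O μ γ R u w :=
  ⟨h.toCm.sub e, fn_sub h.fE e, fun ω x => h.uE ω (e ω x), fun ω x => h.fil ω (e ω x),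
    fun ω x => h.fac ω (e ω x), fun ω x => h.bg ω (e ω x), fun ω x => h.low ω (e ω x)⟩

omit [Fintype α] in
theorem One.lev (h : One σ b d P O μ γ R u w) (e : Fn P O O') : One σ b d P O' μ γ R u w :=
  { h with toCm := h.toCm.lev e }

omit [Fintype α] in
/-- Only the generations of the dead indices matter, if these are below those of the live ones. -/
theorem One.gen (h : One σ b d P O μ γ R u w)
    (e : ∀ a a' e, Lw μ γ' a a' e → Lw μ γ a a' e) : One σ b d P O μ γ' R u w :=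
  { h with fil := fun ω x i j k y => h.fil ω x i j k (e i j k y) }

omit [Fintype α] in
/-- A finer label with few values. -/
theorem One.ref {β : Type} {K : Ω → β} (h : One σ b d P O μ γ R u w) (hK : Fn P K O)
    (f : Det P K (fun ω => (b.S ω, d.T ω)) (Real.exp u')) (h0 : 0 ≤ u') :
    One σ b (d.ref K) P O μ γ R (u + u') w := by
  have t : Fn P d.T (d.ref K).T := fun _ _ _ _ e => congrArg Prod.fst (atm_eq.1 e)
  have g := h.wk (R' := R) (le_add_of_nonneg_right h0) (fun _ _ => by linarith) le_rfl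
  exact ⟨⟨atm_fn.trans (h.fT.pair hK), h.f0.trans t, Real.exp_add u u' ▸ det_atm h.few f,
    h.fU.trans t, h.fk, h.inv, g.bU, h.tri, g.bc, g.bk, h.ad, g.bA⟩, h.fE.trans t, h.uE, h.fil,
    h.fac, g.bg, h.low⟩

omit [Fintype α] in
theorem Pre.wk (h : Pre σ b d P O lv μ γ u w) (a : u ≤ u') (e : w' ≤ w) :
    Pre σ b d P O lv μ γ u' w' :=
  ⟨h.toCm.mono a, fun ω x i j k y => (h.fil ω x i j k y).trans (ex_le (neg_le_neg e)),
    fun ω x i j y => (h.low ω x i j y).trans (ex_le (neg_le_neg e)),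
    fun ω x v y s i z => (h.dd ω x v y s i z).trans (ex_le (neg_le_neg e))⟩

end One

/-- The weights drop and the new label is built. -/
theorem step (hD : RDrop) (hN : RNet) {σ : Sg ι κ α} {Hs : Finset ℝ} {W : ℝ} {μ μ' : κ → ℝ}
    (γ : κ → ℕ) (ok : σ.Ok Hs W) (hμ : ∀ a, μ a ∈ Hs) (dr : Dr Hs μ μ') :
    ∃ C : ℝ, 1 ≤ C ∧ ∀ (Ω Λ Θ Ξ : Type) (b : Bd ι κ α Ω Θ Ξ) (d : Fd ι κ α Ω) (P : FP Ω)
    (O : Ω → Λ) (R R' u w w' : ℝ), 0 ≤ R → 0 ≤ R' → 1 ≤ u → C * (u + R') ≤ w' →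
    w' + C * (u + R) ≤ w → One σ b d P O μ γ R u w → b.At σ P O R' u w' →
    (∀ ω ∈ P.S, ∀ a a' e, 0 < μ a → 0 < μ a' → μ' a = μ a → μ' a' = μ a' → μ' e < μ e →
      μ e = μ a + μ a' → |d.c σ ω a a' e| ≤ Real.exp (-w')) →
    (∀ ω ∈ P.S, ∀ i e, μ' e < μ e → μ e = σ.η i → |d.A ω i e| ≤ Real.exp (-w')) →
    ∃ d', One σ b d' P O μ' (ng μ γ) R' (C * u) (w' - C * (u + R')) ∧
      Kp d P (fun a => 0 < μ a) μ' d' := by
  obtain ⟨wp, C, c1, h1⟩ := hD ι κ α σ Hs W μ μ' γ ok hμ dr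
  obtain ⟨C', c2, h2⟩ := hN ι κ α σ Hs W _ μ' _ _ ok wp
  refine ⟨C + C', by linarith, fun Ω Λ Θ Ξ b d P O R R' u w w' r r' u1 e1 e2 o a s s' => ?_⟩
  have p : 0 ≤ C * (u + R') := by positivity
  have p' : 0 ≤ C' * (u + R') := by positivity
  have p'' : 0 ≤ C' * (u + R) := by positivity
  obtain ⟨d', x, y⟩ := h2 Ω Λ Θ Ξ b d P O R' u w' r' u1 (by linarith) a
    (h1 Ω Λ Θ Ξ b d P O R u w w' r u1 (by linarith) (by linarith) o s s')
  exact ⟨d', mo_one _ _ _ _ (by nlinarith) (by linarith) x, y⟩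

section Seq

variable {κ' : Type} {Ω Λ Θ Ξ : ℕ → Type} {σ : Sg ι κ α} {b : ∀ n, Bd ι κ α (Ω n) (Θ n) (Ξ n)}
  {K : (∀ n, Pr κ' (Ω n) (Λ n)) → Prop} {μ : κ → ℝ} {γ : κ → ℕ} {X : ∀ n, Pr κ' (Ω n) (Λ n)}
  {d : ∀ n, Fd ι κ α (Ω n)} {Hs : Finset ℝ} {W : ℝ}

omit [DecidableEq κ] in
variable (σ b) in
theorem cf_bf : CF (BF (κ' := κ') (Λ := Λ) σ b) :=
  cf_all fun x : ℚ => cf_all fun _ : -1 ≤ x => cf_all fun _ : x ≤ 0 =>
    LC.cf_au (S := fun n => Pr κ' (Ω n) (Λ n)) (fun _ z => z.M)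
      (fun n z => (b n).At σ z.P (z.O x) (-(x : ℝ) * z.M)) fun _ _ => mo_at

omit [Fintype α] in
variable (σ b μ γ) in
theorem cf_fl : CF fun Z : ∀ n, Pr κ' (Ω n) (Λ n) × Fd ι κ α (Ω n) =>
    FL σ b μ γ (fun n => (Z n).1) fun n => (Z n).2 :=
  LC.cf_au (S := fun n => Pr κ' (Ω n) (Λ n) × Fd ι κ α (Ω n)) (fun _ z => z.1.M)
    (fun n z => One σ (b n) z.2 z.1.P (z.1.O (-1)) μ γ z.1.M) fun _ _ => mo_one

variable (σ b μ γ) in
theorem cf_mem (hK : CF K) : CF fun Z : ∀ n, Pr κ' (Ω n) (Λ n) × Fd ι κ α (Ω n) =>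
    Mem σ b K μ γ (fun n => (Z n).1) fun n => (Z n).2 :=
  ((hK.comp fun _ z => z.1).and (((cf_bf σ b).comp fun _ z => z.1).and (cf_fl σ b μ γ))).congr
    fun _ => ⟨fun h => ⟨h.k, h.bf, h.fl⟩, fun h => ⟨h.1, h.2.1, h.2.2⟩⟩

omit [DecidableEq κ] in
theorem BF.res (h : BF σ b X) (G : ∀ n, Ω n → Prop) : BF σ b fun n => (X n).res (G n) :=
  fun x p q c hc T => (h x p q c hc T).mono fun _ a => a.sub fun _ => cE_sub

omit [Fintype α] in
theorem FL.res (h : FL σ b μ γ X d) (G : ∀ n, Ω n → Prop) :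
    FL σ b μ γ (fun n => (X n).res (G n)) d :=
  fun c hc T => (h c hc T).mono fun _ a => a.sub fun _ => cE_sub

theorem Mem.res (hK : Cz K) (h : Mem σ b K μ γ X d) {G : ∀ n, Ω n → Prop} (g : Trm X G) :
    Mem σ b K μ γ (fun n => (X n).res (G n)) d := ⟨hK.res X G h.k g, h.bf.res G, h.fl.res G⟩

omit [Fintype α] in
/-- A finer label. -/
theorem FL.ref {β : ℕ → Type} {L : ∀ n, Ω n → β n} (h : FL σ b μ γ X d)
    (hL : FnE (sP X) L (sO X (-1))) (f : ∀ c : ℝ, 0 < c → ∀ᶠ n in UF,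
      Det (X n).P (L n) (fun ω => ((b n).S ω, (d n).T ω)) (Real.exp (c * (X n).M))) :
    FL σ b μ γ X fun n => (d n).ref (L n) := fun c hc T => by
  filter_upwards [h _ (half_pos hc) T, hL, f _ (half_pos hc)] with n x y z
  exact mo_one _ _ _ _ (by simp only [sM]; linarith) le_rfl (x.ref y z (by positivity))

omit [Fintype α] in
/-- A change of basis. -/
theorem FL.bas (hB : RBas) {U V : ∀ n, Ω n → Matrix κ κ ℝ} (h : FL σ b μ γ X d) (hM : Big (sM X))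
    (h0 : ∀ a, 0 ≤ μ a) (f : FnE (sP X) (fun n ω => (U n ω, V n ω)) fun n => (d n).T)
    (e : ∀ c : ℝ, 0 < c → ∀ᶠ n in UF, ∀ ω ∈ (X n).P.S, U n ω * V n ω = 1 ∧ ∀ a e,
      |U n ω a e| ≤ Real.exp (c * (X n).M) ∧ |V n ω a e| ≤ Real.exp (c * (X n).M) ∧
      (U n ω a e ≠ 0 → Up μ γ a e) ∧ (V n ω a e ≠ 0 → Up μ γ a e)) :
    FL σ b μ γ X fun n => (d n).bas (U n) (V n) := by
  obtain ⟨C, c1, k⟩ := hB ι κ α σ
  refine au_lin hM (au_and h (ψ' := fun n u _ => ∀ ω ∈ (X n).P.S, U n ω * V n ω = 1 ∧ ∀ a e,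
      |U n ω a e| ≤ Real.exp u ∧ |V n ω a e| ≤ Real.exp u ∧
      (U n ω a e ≠ 0 → Up μ γ a e) ∧ (V n ω a e ≠ 0 → Up μ γ a e)) fun c hc _ => e c hc)
    (fun _ => mo_one) c1 (f.mono fun n x u w u1 y z => ?_)
  have m0 : (0 : ℝ) ≤ sM X n := Nat.cast_nonneg _
  exact mo_one _ _ _ _ le_rfl (by nlinarith) (k _ _ _ _ _ _ _ _ μ γ _ u w _ _ h0 m0 u1
    (le_trans (by positivity) y) z.1 x z.2)

omit [Fintype ι] [DecidableEq ι] [Fintype κ] [DecidableEq κ] [Fintype α] in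
theorem cmp_idx (hM : Big (sM X)) (a : ℚ) {e : ℚ} (he : 0 < e) :
    Cmp (sM X) (sM fun n => (X n).idx a e) :=
  have e0 : (0 : ℝ) < e := by exact_mod_cast he
  cmp_of hM e0 (LC.eqv_floor hM e0)

omit [DecidableEq κ] in
/-- A centred zoom of the base facts. -/
theorem BF.idx (ok : σ.Ok Hs W) (hM : Big (sM X)) (h : BF σ b X) {e : ℚ} (he : 0 < e)
    (h1 : e ≤ 1) : BF σ b fun n => (X n).idx 0 e := fun x p q => by
  have c := cmp_idx hM 0 he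
  have x0 : (x : ℝ) ≤ 0 := by exact_mod_cast q
  have x1 : (-1 : ℝ) ≤ x := by exact_mod_cast p
  refine au_lin (c.big hM) ((h (0 + e * x) (by nlinarith) (by nlinarith)).unit c fun _ => mo_at)
    (fun _ => mo_at) (C := |W| + 1) (by simp) (.of_forall fun n u w u1 _ z => z.wk
      (by nlinarith [abs_nonneg W]) (fun i => ?_) (sub_le_self _ (by positivity)))
  have f : (e : ℝ) * (X n).M < (((X n).idx 0 e).M : ℝ) + 1 := Nat.lt_floor_add_one _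
  have g := ((ok.bd _ (ok.he i)).2.trans (le_abs_self W))
  have g0 := (ok.eta i).le
  have t : -(((0 + e * x : ℚ)) : ℝ) * (X n).M ≤ -(x : ℝ) * ((X n).idx 0 e).M + 1 := by
    push_cast
    nlinarith
  nlinarith [mul_le_mul_of_nonneg_left t g0, abs_nonneg W]

/-- A centred zoom by a fixed amount. -/
theorem FL.idx (hD : RDrop) (hN : RNet) (ok : σ.Ok Hs W) (hμ : ∀ a, μ a ∈ Hs) (hM : Big (sM X))
    (hb : BF σ b X) (h : FL σ b μ γ X d) {e : ℚ} (he : 0 < e) (h1 : e ≤ 1)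
    (hn : FnE (sP X) (sO X (-1)) (sO X (0 + e * -1))) :
    ∃ d', FL σ b μ (ng μ γ) (fun n => (X n).idx 0 e) d' ∧
      ∀ᶠ n in UF, Kp (d n) (X n).P (fun a => 0 < μ a) μ (d' n) := by
  obtain ⟨C, c1, k⟩ := step hD hN γ ok hμ (μ' := μ) fun a => ⟨hμ a, le_rfl, fun _ _ => le_of_lt⟩
  have c := cmp_idx hM 0 he
  obtain ⟨D, hD⟩ := id c
  obtain ⟨u, w, a, z⟩ := au_ex (c.big hM) (au_and (LC.Au.unit h c fun _ => mo_one)
    (hb.idx ok hM he h1 (-1) le_rfl (by norm_num)))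
  have c2 : 1 ≤ C * (D + 1) := one_le_mul_of_one_le_of_one_le c1 (by simp)
  obtain ⟨a1, a2⟩ := a.lin c2
  have a3 : Uw _ u _ := ⟨a.one, a.sm, a1.bg⟩
  have ex : ∀ᶠ n in UF, ∃ d', One σ (b n) d' (X n).P ((X n).O (0 + e * -1)) μ (ng μ γ)
      ((X n).idx 0 e).M (C * u n) (w n - C * (D + 1) * (u n + ((X n).idx 0 e).M) -
        C * (u n + ((X n).idx 0 e).M)) ∧ Kp (d n) (X n).P (fun a => 0 < μ a) μ d' := by
    filter_upwards [z, a.one, (a3.lin c1).2, hD, hn] with n z u1 y t s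
    have t1 : ((X n).M : ℝ) ≤ D * ((X n).idx 0 e).M := by exact_mod_cast t.1
    have m0 : (0 : ℝ) ≤ ((X n).idx 0 e).M := Nat.cast_nonneg _
    have d0 : (0 : ℝ) ≤ D := Nat.cast_nonneg _
    have p : C * (u n + (X n).M) ≤ C * (D + 1) * (u n + ((X n).idx 0 e).M) := by
      rw [mul_assoc]
      exact mul_le_mul_of_nonneg_left (by nlinarith) (by linarith)
    refine k _ _ _ _ _ _ _ _ _ _ _ (w n) _ (Nat.cast_nonneg _) m0 u1 y (by linarith) (z.1.lev s)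
      (z.2.wk le_rfl (fun i => le_of_eq ?_) (sub_le_self _ (by positivity)))
      (fun _ _ _ _ _ _ _ _ _ x => absurd x (lt_irrefl _)) fun _ _ _ _ x => absurd x (lt_irrefl _)
    push_cast
    ring
  obtain ⟨d', hd⟩ := ev_ex d ex
  exact ⟨d', au_of (a3.lin c1).1 (fun _ => mo_one) (hd.mono fun _ x => x.1),
    hd.mono fun _ x => x.2⟩

theorem Mem.idx (hD : RDrop) (hN : RNet) (ok : σ.Ok Hs W) (hμ : ∀ a, μ a ∈ Hs) (hK : Cz K)
    (h : Mem σ b K μ γ X d) {e : ℚ} (he : 0 < e) (h1 : e ≤ 1) :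
    ∃ d', Mem σ b K μ (ng μ γ) (fun n => (X n).idx 0 e) d' ∧
      ∀ᶠ n in UF, Kp (d n) (X n).P (fun a => 0 < μ a) μ (d' n) :=
  (h.fl.idx hD hN ok hμ (hK.big X h.k) h.bf he h1 (hK.nest X h.k _ _ (by linarith))).imp
    fun _ x => ⟨⟨hK.idx X e he h1 h.k, h.bf.idx ok (hK.big X h.k) he h1, x.1⟩, x.2⟩

/-- A slow centred zoom: the new unit is small against the old one and large against `u`. -/
theorem Mem.slow (hD : RDrop) (hN : RNet) (ok : σ.Ok Hs W) (hμ : ∀ a, μ a ∈ Hs) (hK : Cz K)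
    (h : Mem σ b K μ γ X d) {J : Type} [Countable J] {u : J → ℕ → ℝ} (hu : ∀ j, Sm (sM X) (u j)) :
    ∃ (k : ℕ → ℕ) (d' : ∀ n, Fd ι κ α (Ω n)), Big k ∧
      Mem σ b K μ (ng μ γ) (fun n => (X n).idx 0 (1 / (k n + 1))) d' ∧
      (∀ᶠ n in UF, Kp (d n) (X n).P (fun a => 0 < μ a) μ (d' n)) ∧
      ∀ j, Sm (sM fun n => (X n).idx 0 (1 / (k n + 1))) (u j) := by
  have e0 : ∀ k : ℕ, (0 : ℚ) < 1 / (k + 1) := fun k => by positivity
  choose d' h1 h2 using fun k : ℕ => h.idx hD hN ok hμ hK (e0 k)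
    (div_le_one_of_le₀ (by simp) (by positivity))
  let T := fun n => Pr κ' (Ω n) (Λ n) × Fd ι κ α (Ω n)
  obtain ⟨k, hk, a⟩ := cf_diag (K := fun _ (Z : ∀ n, T n) =>
      Mem σ b K μ (ng μ γ) (fun n => (Z n).1) (fun n => (Z n).2) ∧
      (∀ᶠ n in UF, Kp (d n) (X n).P (fun a => 0 < μ a) μ (Z n).2) ∧
      ∀ j, Sm (fun n => (Z n).1.M) (u j))
    (fun _ => (cf_mem σ b μ _ hK.cf).and ((cf_ev (S := T) fun n z =>
      Kp (d n) (X n).P (fun a => 0 < μ a) μ z.2).and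
      (cf_all fun j => cf_sm (S := T) (fun _ z => z.1.M) fun n _ => u j n)))
    (fun k n => ((X n).idx 0 (1 / (k + 1)), d' k n)) fun k _ _ =>
      ⟨h1 k, h2 k, fun j => (cmp_idx (hK.big X h.k) 0 (e0 k)).le (hu j)⟩
  exact ⟨k, _, hk, a 0⟩

/-- Minimal weights exist. -/
theorem ex_mn (h : Mem σ b K μ γ X d) (hμ : ∀ a, μ a ∈ Hs) :
    ∃ μ' γ' X' d', Mn σ b K Hs μ' ∧ Mem σ b K μ' γ' X' d' := by
  classical
  obtain ⟨ν, ⟨h1, γ', X', d', h2⟩, h3⟩ := Set.exists_min_image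
    {ν : κ → ℝ | (∀ a, ν a ∈ Hs) ∧ ∃ γ X d, Mem σ b K ν γ X d} (fun ν => ∑ a, ν a)
    ((Fintype.piFinset fun _ : κ => Hs).finite_toSet.subset fun ν x =>
      Fintype.mem_piFinset.2 x.1) ⟨μ, hμ, γ, X, d, h⟩
  exact ⟨ν, γ', X', d', ⟨h1, fun ν' a b c x y => h3 ν' ⟨x, a, b, c, y⟩⟩, h2⟩

end Seq

end Pool.Agent.MP_5168f5_an.QA.Fl
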