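import Pool.Agent.MP_5168f5_an.AN.N6Exp

/-! Perturbation of exponentials of nilpotent matrices. -/

namespace Pool.Agent.MP_5168f5_an.QA.Lt

open AN AN.GA AN.N6 H61Z IsNilpotent Finset

variable {m : ℕ} {L L' θ : ℝ} {X Y : Mt (Fin m)}

theorem eb_mono (h : Eb L X) (e : L ≤ L') : Eb L' X := fun q => (h q).mono e

theorem eb_add (h : Eb L X) (h' : Eb L' Y) : Eb (L + L') (X + Y) := fun q => (h q).add (h' q)

theorem eb_neg (h : Eb L X) : Eb L (-X) := fun q => (h q).neg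

theorem eb_sub (h : Eb L X) (h' : Eb L' Y) : Eb (L + L') (X - Y) := by
  rw [sub_eq_add_neg]; exact eb_add h (eb_neg h')

theorem eb_mul (h : Eb L X) (h' : Eb L' Y) (a : 0 ≤ L) (b : 0 ≤ L') :
    Eb ((m + 1) * L * L') (X * Y) := fun q => Cb.mul h (h' q) a b

theorem eb_cm (h : Eb L X) (h' : Eb L' Y) (a : 0 ≤ L) (b : 0 ≤ L') :
    Eb (2 * (m + 1) * L * L') (cm X Y) :=
  eb_mono (eb_sub (eb_mul h h' a b) (eb_mul h' h b a)) (le_of_eq (by ring))

theorem eb_smul (h : Eb L X) {t T : ℝ} (e : |t| ≤ T) : Eb (T * L) (t • X) := fun q p => by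
  rw [Matrix.smul_apply, smul_eq_mul, abs_mul]
  exact mul_le_mul e (h q p) (abs_nonneg _) ((abs_nonneg _).trans e)

theorem eb_rat (h : Eb L X) (t : ℚ) : Eb (|(t : ℝ)| * L) (t • X) := by
  rw [← Rat.cast_smul_eq_qsmul ℝ]; exact eb_smul h le_rfl

theorem eb_sum {J : Type} (T : Finset J) {Z : J → Mt (Fin m)} {r : J → ℝ}
    (h : ∀ j ∈ T, Eb (r j) (Z j)) : Eb (∑ j ∈ T, r j) (∑ j ∈ T, Z j) := fun q p => by
  rw [Matrix.sum_apply]
  exact (abs_sum_le_sum_abs _ _).trans (sum_le_sum fun j hj => h j hj q p)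

theorem eb_card {J : Type} [Fintype J] {Z : J → Mt (Fin m)} (h : ∀ j, Eb L (Z j)) :
    Eb (Fintype.card J * L) (∑ j, Z j) :=
  eb_mono (eb_sum univ fun j _ => h j) (by simp)

theorem eb_zero (h : 0 ≤ θ) : Eb θ (0 : Mt (Fin m)) := fun q p => by simpa using h

theorem pow_prt (h : Eb L X) (h' : Eb L Y) (d : Eb θ (X - Y)) (hL : 1 ≤ L) (hθ : 0 ≤ θ) (i : ℕ) :
    Eb ((2 * (m + 1) * L) ^ i * θ) (X ^ i - Y ^ i) := by
  have b : (0 : ℝ) ≤ (m + 1) * L := by positivity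
  induction i with
  | zero => simpa using eb_zero hθ
  | succ i ih =>
    have e : X ^ (i + 1) - Y ^ (i + 1) = X * (X ^ i - Y ^ i) + (X - Y) * Y ^ i := by
      rw [pow_succ', pow_succ']; noncomm_ring
    have k : ((m + 1) * L) ^ i ≤ (2 * (m + 1) * L) ^ i := pow_le_pow_left₀ b (by linarith) i
    have k0 : 0 ≤ (2 * (m + 1) * L) ^ i := by positivity
    rw [e]
    refine eb_mono (eb_add (eb_mul h ih (by linarith) (by positivity))
      (eb_mul d (eb_mono (h'.pow hL i) k) hθ k0)) ?_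
    have : 0 ≤ (m + 1) * (2 * (m + 1) * L) ^ i * θ := by positivity
    rw [pow_succ']
    nlinarith

/-- The exponential is Lipschitz. -/
theorem exp_prt (N m : ℕ) : ∃ f, PG f ∧ ∀ (Φ : Filt (Mt (Fin m))) (X Y : Mt (Fin m)) (L θ : ℝ),
    Φ.N = N → X ∈ Φ.F 0 → Y ∈ Φ.F 0 → 1 ≤ L → 0 ≤ θ → Eb L X → Eb L Y → Eb θ (X - Y) →
    Eb (f L * θ) (exp X - exp Y) := by
  refine ⟨fun L => (N + 1) * (2 * (m + 1) * L) ^ N, (pg_nat N).mul
    ((((pg_const one_le_two).mul (pg_nat m)).mul pg_id).pow N), fun Φ X Y L θ hN a b hL hθ c d e => ?_⟩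
  subst hN
  have b1 : (1 : ℝ) ≤ 2 * (m + 1) * L := by
    nlinarith [mul_nonneg (Nat.cast_nonneg (α := ℝ) m) (zero_le_one.trans hL)]
  rw [exp_eq_sum (Φ.pow_zero' a), exp_eq_sum (Φ.pow_zero' b), ← sum_sub_distrib]
  refine eb_mono (eb_sum (r := fun _ => (2 * (m + 1) * L) ^ Φ.N * θ) _ fun i hi => ?_)
    (by simp [mul_assoc])
  rw [← smul_sub]
  refine eb_mono (eb_rat (pow_prt c d e hL hθ i) _) ((mul_le_of_le_one_left (by positivity) ?_).trans
    (mul_le_mul_of_nonneg_right (pow_le_pow_right₀ b1 (Nat.lt_succ_iff.1 (mem_range.1 hi))) hθ))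
  rw [Rat.cast_inv, abs_inv, Rat.cast_natCast, Nat.abs_cast]
  exact inv_le_one_of_one_le₀ (by exact_mod_cast i.factorial_pos)

theorem wd_mem {α : Type} (Φ : Filt (Mt (Fin m))) {g : α → Mt (Fin m)} (h : ∀ i, g i ∈ Φ.F 0)
    (w : Wd α) : w.ev cm g ∈ Φ.F 0 := by
  induction w with
  | of i => exact h i
  | br u v a b => exact sub_mem (Φ.anti 0 (Φ.mul_l 0 _ _ a b)) (Φ.anti 0 (Φ.mul_l 0 _ _ b a))

theorem wd_eb {α : Type} {g : α → Mt (Fin m)} (hL : 1 ≤ L) (hθ : 0 ≤ θ) (h : ∀ i, Eb L (g i))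
    (h' : ∀ i j, Eb θ (cm (g i) (g j))) (w : Wd α) :
    Eb ((2 * (m + 1) * L) ^ (2 * w.len - 1)) (w.ev cm g) ∧
      (2 ≤ w.len → Eb ((2 * (m + 1) * L) ^ (2 * w.len - 1) * θ) (w.ev cm g)) := by
  have m0 : (0 : ℝ) ≤ m := Nat.cast_nonneg _
  have b1 : 2 * (m + 1 : ℝ) ≤ 2 * (m + 1) * L := le_mul_of_one_le_right (by positivity) hL
  have b2 : (1 : ℝ) ≤ 2 * (m + 1) * L := by linarith
  induction w with
  | of i => exact ⟨eb_mono (h i) (by show _ ≤ _ ^ 1; rw [pow_one]; nlinarith), fun k => by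
      simp [Wd.len] at k⟩
  | br u v a b =>
    rw [GABoxA.pw]
    have p1 := one_le_pow₀ (n := 2 * u.len - 1) b2
    have p2 := one_le_pow₀ (n := 2 * v.len - 1) b2
    generalize (2 * (m + 1 : ℝ) * L) ^ (2 * u.len - 1) = x at *
    generalize (2 * (m + 1 : ℝ) * L) ^ (2 * v.len - 1) = y at *
    have p3 : 1 ≤ x * y := one_le_mul_of_one_le_of_one_le p1 p2
    have p4 := mul_le_mul_of_nonneg_right b1 (zero_le_one.trans p3)
    have p5 := mul_le_mul_of_nonneg_right p4 hθ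
    refine ⟨eb_mono (eb_cm a.1 b.1 (by linarith) (by linarith)) (by linarith), fun _ => ?_⟩
    by_cases k : 2 ≤ u.len
    · exact eb_mono (eb_cm (a.2 k) b.1 (by positivity) (by linarith)) (by linarith)
    by_cases k' : 2 ≤ v.len
    · exact eb_mono (eb_cm a.1 (b.2 k') (by linarith) (by positivity)) (by linarith)
    have one : ∀ w : Wd α, ¬2 ≤ w.len → ∃ i, w = .of i := fun w e => by
      cases w with
      | of i => exact ⟨i, rfl⟩
      | br u v => exact absurd (add_le_add (GABoxA.len_pos u) (GABoxA.len_pos v)) e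
    obtain ⟨i, rfl⟩ := one u k
    obtain ⟨j, rfl⟩ := one v k'
    exact eb_mono (h' i j) (le_mul_of_one_le_left hθ (one_le_mul_of_one_le_of_one_le b2 p3))

/-- Exponentials of matrices that almost commute. -/
theorem exp_cm (N m : ℕ) : ∃ f, PG f ∧ ∀ (Φ : Filt (Mt (Fin m))) (X Y : Mt (Fin m)) (L θ : ℝ),
    Φ.N = N → X ∈ Φ.F 0 → Y ∈ Φ.F 0 → 1 ≤ L → 0 ≤ θ → θ ≤ 1 → Eb L X → Eb L Y → Eb θ (cm X Y) →
    Eb (f L * θ) (exp X * exp Y - exp (X + Y)) := by
  obtain ⟨f, hf, h⟩ := exp_prt N m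
  obtain ⟨Q, hQ⟩ : ∃ Q, Q = 1 + ∑ w ∈ (BL N).support, |(BL N w : ℝ)| := ⟨_, rfl⟩
  have q0 : 0 ≤ ∑ w ∈ (BL N).support, |(BL N w : ℝ)| := sum_nonneg fun _ _ => abs_nonneg _
  have hg : PG fun L => Q * (2 * (m + 1) * L) ^ (2 * (BL N).support.sup Wd.len) :=
    (pg_const (by linarith)).mul ((((pg_const one_le_two).mul (pg_nat m)).mul pg_id).pow _)
  refine ⟨_, (hf.comp ((pg_id.add pg_id).add hg)).mul hg, fun Φ X Y L θ hN a b hL h0 h1 c d e => ?_⟩
  have b2 : (1 : ℝ) ≤ 2 * (m + 1) * L := by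
    nlinarith [mul_nonneg (Nat.cast_nonneg (α := ℝ) m) (zero_le_one.trans hL)]
  have p1 := one_le_pow₀ (n := 2 * (BL N).support.sup Wd.len) b2
  have g1 : ∀ i : Bool, (bif i then X else Y) ∈ Φ.F 0 := fun i => by cases i <;> assumption
  have g2 : ∀ i : Bool, Eb L (bif i then X else Y) := fun i => by cases i <;> assumption
  have g3 : ∀ i j : Bool, Eb θ (cm (bif i then X else Y) (bif j then X else Y)) := fun i j => by
    cases i <;> cases j
    · simpa [cm] using eb_zero h0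
    · simpa [cm] using eb_neg e
    · exact e
    · simpa [cm] using eb_zero h0
  have s1 := eb_sum (BL N).support (r := fun w => |(BL N w : ℝ)| *
      ((2 * (m + 1) * L) ^ (2 * (BL N).support.sup Wd.len) * θ)) fun w hw =>
    eb_rat (eb_mono ((wd_eb hL h0 g2 g3 w).2 (by have := (sBch N).1 w hw; omega))
      (mul_le_mul_of_nonneg_right (pow_le_pow_right₀ b2 (by
        have := le_sup (f := Wd.len) hw; omega)) h0)) (BL N w)
  have s2 : Eb (Q * (2 * (m + 1) * L) ^ (2 * (BL N).support.sup Wd.len) * θ)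
      (ser (BL N) cm X Y - (X + Y)) := by
    have := eb_add (eb_rat e (1 / 2)) s1
    rw [← sum_mul] at this
    refine eb_mono ((congrArg _ ?_).mp this) ?_
    · simp only [GA.ser, Finsupp.sum]; abel
    · have := mul_le_mul_of_nonneg_right p1 h0
      rw [hQ, abs_of_nonneg (by positivity)]
      push_cast
      nlinarith
  have s3 : ser (BL N) cm X Y ∈ Φ.F 0 := add_mem (add_mem (add_mem a b)
    (Submodule.smul_mem _ _ (wd_mem Φ g1 (.br (.of true) (.of false)))))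
    (Submodule.sum_mem _ fun w _ => Submodule.smul_mem _ _ (wd_mem Φ g1 w))
  have g4 := hg.1 L hL
  have s4 := eb_add (eb_add c d) (eb_mono s2 (mul_le_of_le_one_right (by linarith) h1))
  rw [add_sub_cancel] at s4
  rw [(sBch N).2 _ Φ hN.le X a Y b, mul_assoc]
  exact h Φ _ _ _ _ hN s3 (add_mem a b) (by linarith) (by positivity) s4
    (eb_mono (eb_add c d) (by linarith)) s2

end Pool.Agent.MP_5168f5_an.QA.Lt
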