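import Pool.Agent.MP_5168f5_an.QA.Let
import Pool.Agent.MP_5168f5_an.QA.Prt

/-! The frame of two almost commuting families of letters. -/

namespace Pool.Agent.MP_5168f5_an.QA.Lt

open AN AN.GA AN.N6 H61Z IsNilpotent Finset
open N2 (El tri)

variable {m : ℕ} {J J' : Type} [Fintype J] [Fintype J']

theorem card_el (kk : Fin m → ℝ) : Fintype.card (El kk) ≤ m * m :=
  (Fintype.card_subtype_le _).trans_eq (by simp)

theorem comb_mem {kk : Fin m → ℝ} {Y : J → Mt (Fin m)} (h : ∀ j, Y j ∈ (tri kk).F 0) (t : J → ℝ) :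
    ∑ j, t j • Y j ∈ (tri kk).F 0 := N2.mem_F0.2 fun p q u => by
  simp [Matrix.sum_apply, fun k => N2.mem_F0.1 (h k) p q u]

theorem cm_comb (Y : J → Mt (Fin m)) (Y' : J' → Mt (Fin m)) (t : J → ℝ) (ξ : J' → ℝ) :
    cm (∑ j, t j • Y j) (∑ j, ξ j • Y' j) = ∑ j, ∑ i, (t j * ξ i) • cm (Y j) (Y' i) := by
  simp only [cm, sum_mul_sum, smul_sub, sum_sub_distrib, smul_mul_smul_comm]
  rw [sum_comm (f := fun b a => (ξ b * t a) • (Y' b * Y a))]
  simp only [mul_comm]

/-- Products of two elements of the box lie in the box. -/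
theorem mul_box (m k : ℕ) : ∃ F, PG F ∧ ∀ (J : Type) [Fintype J] (kk : Fin m → ℝ) (η W L X : ℝ)
    (Y : J → Mt (Fin m)) (s s' : El kk → ℝ), Fintype.card J ≤ k → Ap kk η W Y L → L ≤ X →
    (∀ a, |s a| ≤ X) → (∀ a, |s' a| ≤ X) →
    ∃ u, (∀ a, |u a| ≤ F X) ∧ ex (fb kk η W Y) s * ex (fb kk η W Y) s' = ex (fb kk η W Y) u := by
  obtain ⟨K, hK, bx⟩ := sBox m (m * m)
  have hg : PG fun L => ((k + m * m : ℕ) + 1) * L := (pg_nat _).mul pg_id
  refine ⟨_, (pg_box hK).comp hg, fun J _ kk η W L X Y s s' hk h hX a b => ?_⟩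
  have x1 := h.one.trans hX
  have M := sMul _ _ _ _ _ h.fr
  have c1 : (Fintype.card J + Fintype.card (El kk) : ℝ) ≤ (k + m * m : ℕ) := by
    exact_mod_cast add_le_add hk (card_el kk)
  have c0 : (0 : ℝ) ≤ (k + m * m : ℕ) := Nat.cast_nonneg _
  have i1 : Idl (fc kk η W Y) 1 1 (((k + m * m : ℕ) + 1) * X) := fun a b e => by
    simp only [Pi.one_apply, mul_one]
    exact (h.fc_le a b e).trans (mul_le_mul (by linarith) hX (by linarith [h.one]) (by linarith))
  have b1 : ∀ u : El kk → ℝ, (∀ a, |u a| ≤ X) → Bx 1 (((k + m * m : ℕ) + 1) * X) u := fun u e a => by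
    simp only [Pi.one_apply, mul_one]
    nlinarith [e a]
  exact ⟨_, fun e => by
    simpa [tri] using (bx _ _ 1 1 _ 0 s s' s s' (card_el kk) (hg.1 X x1) le_rfl
      (fun _ => ⟨zero_le_one, zero_le_one⟩) M.anti i1 i1 (b1 s a) (b1 s' b) (b1 s a) (b1 s' b)).1 e,
    M.mul s s'⟩

/-- From the two families to the frame. -/
theorem fwd (m k : ℕ) : ∃ F, PG F ∧ ∀ (J J' : Type) [Fintype J] [Fintype J'] (kk : Fin m → ℝ)
    (η W L X : ℝ) (Y : J → Mt (Fin m)) (Y' : J' → Mt (Fin m)) (U V : Mt (Fin m)) (t : J → ℝ)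
    (ξ : J' → ℝ), Fintype.card J + Fintype.card J' ≤ k → Ap kk η W (Sum.elim Y Y') L → L ≤ X →
    U ∈ (tri kk).F 0 → V ∈ (tri kk).F 0 → (∀ j, |t j| ≤ X) → (∀ j, |ξ j| ≤ X) →
    Eb (X * η) (U - ∑ j, t j • Y j) → Eb (X * η) (V - ∑ j, ξ j • Y' j) →
    ∃ u, (∀ a, |u a| ≤ F X) ∧ exp U * exp V = ex (fb kk η W (Sum.elim Y Y')) u := by
  obtain ⟨F, hF, mb⟩ := mul_box m k
  have hg : PG fun L => ((k + m * m : ℕ) + 1) * L := (pg_nat _).mul pg_id
  refine ⟨_, hF.comp hg, fun J J' _ _ kk η W L X Y Y' U V t ξ hk h hX u v a b c d => ?_⟩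
  have x0 : 0 ≤ X := by linarith [h.one]
  have c1 : (Fintype.card (J ⊕ J') + Fintype.card (El kk) : ℝ) ≤ (k + m * m : ℕ) := by
    exact_mod_cast add_le_add (by simpa using hk) (card_el kk)
  have c0 : (0 : ℝ) ≤ (k + m * m : ℕ) := Nat.cast_nonneg _
  have e1 := h.fx_le (t := Sum.elim t 0) u (by rintro (j | j); exacts [a j, by simpa using x0])
    (fun p q => by simpa [Fintype.sum_sum_type] using c q p) x0
  have e2 := h.fx_le (t := Sum.elim 0 ξ) v (by rintro (j | j); exacts [by simpa using x0, b j])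
    (fun p q => by simpa [Fintype.sum_sum_type] using d q p) x0
  rw [← h.ex_fx u, ← h.ex_fx v]
  exact mb _ kk η W L _ _ _ _ (by simpa using hk) h (by nlinarith)
    (fun e => (e1 e).trans (by nlinarith)) fun e => (e2 e).trans (by nlinarith)

/-- The vector with coordinates `s` is a combination of letters up to a small matrix. -/
theorem Ap.split {kk : Fin m → ℝ} {η W L X : ℝ} {Y : J → Mt (Fin m)} (h : Ap kk η W Y L)
    {s : El kk → ℝ} (hs : ∀ a, |s a| ≤ X) (h0 : 0 ≤ X) : ∃ t : J → ℝ, (∀ j, |t j| ≤ X) ∧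
    Eb (m * m * (X * (η * (2 * W) ^ m))) (GA.vec (fb kk η W Y) s - ∑ j, t j • Y j) := by
  classical
  have p0 : 0 ≤ X * (η * (2 * W) ^ m) := by have := h.pos; have := h.wo; positivity
  refine ⟨fun j => ∑ a, if sg kk η W Y a = .inl j then s a else 0, fun j => ?_, ?_⟩
  · beta_reduce
    by_cases k : ∃ a, sg kk η W Y a = .inl j
    · obtain ⟨a, k⟩ := k
      rw [sum_eq_single a (fun b _ e => if_neg fun u => e (h.inj (u.trans k.symm))) (by simp),
        if_pos k]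
      exact hs a
    · rw [sum_eq_zero fun b _ => if_neg fun u => k ⟨b, u⟩]
      simpa using h0
  · simp only [sum_smul, GA.vec]
    rw [sum_comm, ← sum_sub_distrib]
    refine eb_mono (eb_card fun a => ?_) (mul_le_mul_of_nonneg_right
      (by exact_mod_cast card_el kk) p0)
    rcases h.fb_or a with ⟨j, k, e⟩ | ⟨⟨j, k⟩, e⟩
    · simpa [k, e] using eb_zero p0
    · simpa [k] using eb_smul (fun q p => e p q) (hs a)

/-- From the frame to the two families. -/
theorem bwd (m k : ℕ) : ∃ F, PG F ∧ ∀ (J J' : Type) [Fintype J] [Fintype J'] (kk : Fin m → ℝ)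
    (η W L X : ℝ) (Y : J → Mt (Fin m)) (Y' : J' → Mt (Fin m)) (s : El kk → ℝ),
    Fintype.card J + Fintype.card J' ≤ k → Ap kk η W (Sum.elim Y Y') L → 1 ≤ X →
    (∀ i j, Eb η (cm (Y i) (Y' j))) → (k * X) ^ 2 * η ≤ 1 → (∀ a, |s a| ≤ X) →
    ∃ (t : J → ℝ) (ξ : J' → ℝ), (∀ j, |t j| ≤ X) ∧ (∀ j, |ξ j| ≤ X) ∧ Eb (F (W * X) * η)
      (ex (fb kk η W (Sum.elim Y Y')) s - exp (∑ j, t j • Y j) * exp (∑ j, ξ j • Y' j)) := by
  obtain ⟨f, hf, pr⟩ := exp_prt m m
  obtain ⟨g, hg, cmm⟩ := exp_cm m m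
  have h1 : PG fun L => ((2 * k + m * m : ℕ) + 1) * L := (pg_nat _).mul pg_id
  have h2 : PG fun L => ((m * m : ℕ) + 1) * (L * (2 * L) ^ m) :=
    (pg_nat _).mul (pg_id.mul (((pg_const one_le_two).mul pg_id).pow m))
  have h3 : PG fun L => ((k + 1) * L) ^ 2 := ((pg_nat k).mul pg_id).pow 2
  refine ⟨_, ((hf.comp h1).mul h2).add ((hg.comp h1).mul h3),
    fun J J' _ _ kk η W L X Y Y' s hk h hX hc hη hs => ?_⟩
  have w := h.wo
  have e0 := h.pos
  have x0 : 0 ≤ X := by linarith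
  obtain ⟨t, a, b⟩ := h.split hs x0
  rw [Fintype.sum_sum_type] at b
  simp only [Sum.elim_inl, Sum.elim_inr] at b
  refine ⟨fun j => t (.inl j), fun j => t (.inr j), fun j => a _, fun j => a _, ?_⟩
  have m1 := comb_mem (fun j => h.mem (.inl j)) fun j => t (.inl j)
  have m2 := comb_mem (fun j => h.mem (.inr j)) fun j => t (.inr j)
  have b1 := eb_card fun j => eb_smul (fun q p => h.bd (.inl j) p q) (a (.inl j))
  have b2 := eb_card fun j => eb_smul (fun q p => h.bd (.inr j) p q) (a (.inr j))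
  have b3 := eb_card fun e => eb_smul (fun q p => h.fb_le e p q) (hs e)
  simp only [Sum.elim_inl, Sum.elim_inr] at m1 m2 b1 b2
  have k1 : (Fintype.card J : ℝ) ≤ k := by exact_mod_cast (Nat.le_add_right _ _).trans hk
  have k2 : (Fintype.card J' : ℝ) ≤ k := by exact_mod_cast (Nat.le_add_left _ _).trans hk
  have k3 : (Fintype.card (El kk) : ℝ) ≤ m * m := by exact_mod_cast card_el kk
  have k0 : (0 : ℝ) ≤ k := Nat.cast_nonneg _
  have m0 : (0 : ℝ) ≤ m * m := by positivity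
  have wx : 1 ≤ W * X := one_le_mul_of_one_le_of_one_le w hX
  have xw : 0 ≤ X * W := by positivity
  have r1 := mul_le_mul_of_nonneg_right k1 xw
  have r2 := mul_le_mul_of_nonneg_right k2 xw
  have r3 := mul_le_mul_of_nonneg_right k3 xw
  have r4 := mul_nonneg k0 xw
  have r5 := mul_nonneg m0 xw
  have c1 : Eb ((k * X) ^ 2 * η) (cm (∑ j, t (.inl j) • Y j) (∑ j, t (.inr j) • Y' j)) := by
    rw [cm_comb]
    refine eb_mono (eb_card fun j => eb_card fun i => eb_smul (T := X * X) (hc j i) ?_) ?_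
    · rw [abs_mul]; exact mul_le_mul (a _) (a _) (abs_nonneg _) x0
    · calc _ = (Fintype.card J * Fintype.card J') * (X * X * η) := by ring
        _ ≤ (k * k) * (X * X * η) := by gcongr
        _ = _ := by ring
  have l1 := h1.1 _ wx
  have d1 := pr (tri kk) _ _ _ _ rfl (h.fr.mem s) (add_mem m1 m2) l1 (by positivity)
    (eb_mono b3 (by push_cast; nlinarith)) (eb_mono (eb_add b1 b2) (by push_cast; nlinarith)) b
  have d2 := cmm (tri kk) _ _ _ _ rfl m1 m2 l1 (by positivity) hη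
    (eb_mono b1 (by push_cast; nlinarith)) (eb_mono b2 (by push_cast; nlinarith)) c1
  have := eb_sub d1 d2
  rw [sub_sub_sub_cancel_right] at this
  refine eb_mono this ?_
  have x1 : X ≤ W * X := le_mul_of_one_le_left x0 w
  have w1 : W ≤ W * X := le_mul_of_one_le_right (by linarith) hX
  have f0 := hf.nn l1
  have g0 := hg.nn l1
  rw [add_mul, mul_assoc (f _), mul_assoc (g _)]
  refine add_le_add (mul_le_mul_of_nonneg_left ?_ f0) (mul_le_mul_of_nonneg_left ?_ g0)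
  · calc _ = (m * m) * (X * (2 * W) ^ m) * η := by ring
      _ ≤ _ := by push_cast; gcongr; linarith
  · gcongr; linarith

/-- The live part of a frame, rescaled, and letters that almost commute with it. -/
theorem ap_of {κ : Type} [Fintype κ] {kk : Fin m → ℝ} {B : κ → Mt (Fin m)} {c : κ → κ → κ → ℝ}
    (hB : IsFr (tri kk) B c) (lv : κ → Prop) [DecidablePred lv] {ρ : κ → ℝ} {f : J' → Mt (Fin m)}
    {η W L : ℝ} (h0 : 0 < η) (hL : 1 ≤ L) (hW : 1 ≤ W) (hs : η * (2 * W) ^ m ≤ 1)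
    (hρ : ∀ a, 0 < ρ a) (hf : ∀ j, f j ∈ (tri kk).F 0) (b1 : ∀ a, lv a → Eb W (ρ a • B a))
    (b2 : ∀ j, Eb W (f j)) (c1 : ∀ a b e, lv a → lv b → lv e → |c a b e| * ρ a * ρ b ≤ L * ρ e)
    (c2 : ∀ a b e p q, lv a → lv b → ¬lv e →
      Fintype.card κ * (|c a b e| * ρ a * ρ b * |B e p q|) ≤ η)
    (c3 : ∀ a j, lv a → Eb η (cm (ρ a • B a) (f j))) (c4 : ∀ i j, Eb η (cm (f i) (f j))) :
    Ap kk η W (Sum.elim (fun a : {a // lv a} => ρ a • B a) f) L := by
  classical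
  have mB : ∀ a, ρ a • B a ∈ (tri kk).F 0 := fun a => by
    simpa [GA.vec, Pi.single_apply] using hB.mem (Pi.single a (ρ a))
  refine ⟨h0, hL, hW, hs, ?_, ?_, ?_⟩
  · rintro (a | j)
    exacts [mB a, hf j]
  · rintro (a | j) p q
    exacts [b1 a a.2 q p, b2 j q p]
  have z : ∀ k : {a // lv a} ⊕ J', |(0 : {a // lv a} ⊕ J' → ℝ) k| ≤ L := fun k => by
    simpa using zero_le_one.trans hL
  rintro (a | i) (b | j)
  · refine ⟨Sum.elim (fun e => c a b e * ρ a * ρ b / ρ e) 0, ?_, fun p q => ?_⟩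
    · rintro (e | j)
      · simp only [Sum.elim_inl, abs_div, abs_mul, abs_of_pos (hρ _)]
        exact (div_le_iff₀ (hρ _)).2 (c1 a b e a.2 b.2 e.2)
      · exact z (.inr j)
    have e1 : cm (ρ a • B a) (ρ b • B b) = ∑ e, (c a b e * ρ a * ρ b) • B e := by
      have := hB.br a b
      simp only [cm, smul_mul_smul_comm, mul_comm (ρ b), ← smul_sub] at this ⊢
      rw [this, GA.vec, smul_sum]
      exact sum_congr rfl fun e _ => by rw [smul_smul]; congr 1; ring
    have e2 : ∀ e : {a // lv a}, (c a b e * ρ a * ρ b / ρ e) • ρ e • B e =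
        (c a b e * ρ a * ρ b) • B e := fun e => by
      rw [smul_smul, div_mul_cancel₀ _ (hρ _).ne']
    simp only [Fintype.sum_sum_type, Sum.elim_inl, Sum.elim_inr, Pi.zero_apply, zero_smul,
      sum_const_zero, add_zero, e1, e2]
    rw [← Fintype.sum_subtype_add_sum_subtype lv fun e => (c a b e * ρ a * ρ b) • B e,
      add_sub_cancel_left, Matrix.sum_apply]
    have k0 : (0 : ℝ) < Fintype.card κ := by
      exact_mod_cast Fintype.card_pos_iff.2 ⟨a.1⟩
    refine (abs_sum_le_sum_abs _ _).trans ((sum_le_card_nsmul _ _ (η / Fintype.card κ)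
      fun e _ => ?_).trans ?_)
    · rw [le_div_iff₀' k0]
      simpa [abs_mul, abs_of_pos (hρ _)] using c2 a b e p q a.2 b.2 e.2
    · rw [nsmul_eq_mul, mul_div_assoc', div_le_iff₀' k0]
      exact mul_le_mul_of_nonneg_right (by exact_mod_cast Fintype.card_subtype_le _) h0.le
  · exact ⟨0, z, fun p q => by simpa using c3 a j a.2 q p⟩
  · exact ⟨0, z, fun p q => by simpa [cm] using eb_neg (c3 b i b.2) q p⟩
  · exact ⟨0, z, fun p q => by simpa using c4 i j q p⟩

/-- The live part of a vector. -/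
theorem live_part {κ : Type} [Fintype κ] (B : κ → Mt (Fin m)) (lv : κ → Prop) [DecidablePred lv]
    {ρ : κ → ℝ} (hρ : ∀ a, 0 < ρ a) (z : κ → ℝ) {θ : ℝ} (h0 : 0 ≤ θ)
    (h : ∀ a, ¬lv a → Eb θ (z a • B a)) : Eb (Fintype.card κ * θ)
    (GA.vec B z - ∑ a : {a // lv a}, (z a / ρ a) • ρ a • B a) := by
  have e2 : ∀ e : {a // lv a}, (z e / ρ e) • ρ e • B e = z e • B e := fun e => by
    rw [smul_smul, div_mul_cancel₀ _ (hρ _).ne']
  simp only [e2, GA.vec]
  rw [← Fintype.sum_subtype_add_sum_subtype lv fun e => z e • B e, add_sub_cancel_left]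
  exact eb_mono (eb_card fun a : {a // ¬lv a} => h a a.2)
    (mul_le_mul_of_nonneg_right (by exact_mod_cast Fintype.card_subtype_le _) h0)

end Pool.Agent.MP_5168f5_an.QA.Lt
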