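import Pool.Agent.MP_5168f5_an.QA.FlDefs

/-! The Kakeya maximal estimate: increments and close pairs in the adapted basis. -/

namespace Pool.Agent.MP_5168f5_an.QA.Fl

open H19 H17S H17F R4 AN Filter Finset Matrix
open GA (Mt IsFr Nr Bx Idl lg vec ex br mB mC cm bch Ad)

namespace FlOut

theorem pw {K : ℕ} {a u : ℝ} (hu : 1 ≤ u) :
    ((K : ℝ) * Real.exp (a * u)) ^ K ≤ Real.exp (K * (K + a) * u) := by
  have h1 : (K : ℝ) ≤ Real.exp (K * u) := by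
    have := Real.add_one_le_exp (K * u)
    nlinarith [(Nat.cast_nonneg K : (0 : ℝ) ≤ K)]
  have h2 : (K : ℝ) * Real.exp (a * u) ≤ Real.exp ((K + a) * u) := by
    rw [add_mul, Real.exp_add]
    exact mul_le_mul_of_nonneg_right h1 (Real.exp_pos _).le
  refine (pow_le_pow_left₀ (by positivity) h2 K).trans_eq ?_
  rw [← Real.exp_nat_mul, mul_assoc]

theorem vm {κ : Type} [Fintype κ] {t : κ → ℝ} {V : Matrix κ κ ℝ} {x u : ℝ} (hu : 1 ≤ u)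
    (ht : ∀ a, |t a| ≤ Real.exp x) (hV : ∀ a e, |V a e| ≤ Real.exp u) (e : κ) :
    |(t ᵥ* V) e| ≤ Real.exp (x + (Fintype.card κ + 1) * u) := by
  have h1 : |(t ᵥ* V) e| ≤ ∑ _a : κ, Real.exp x * Real.exp u := by
    refine (Finset.abs_sum_le_sum_abs _ _).trans (Finset.sum_le_sum fun a _ => ?_)
    rw [abs_mul]
    exact mul_le_mul (ht a) (hV a e) (abs_nonneg _) (Real.exp_pos _).le
  rw [Finset.sum_const, card_univ, nsmul_eq_mul] at h1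
  have h2 : (Fintype.card κ : ℝ) ≤ Real.exp (Fintype.card κ * u) := by
    have := Real.add_one_le_exp (Fintype.card κ * u)
    nlinarith [(Nat.cast_nonneg (Fintype.card κ) : (0 : ℝ) ≤ Fintype.card κ)]
  refine h1.trans ((mul_le_mul_of_nonneg_right h2 (by positivity)).trans_eq ?_)
  rw [← Real.exp_add, ← Real.exp_add]
  congr 1
  ring

theorem wp {κ : Type} [Fintype κ] {μ : κ → ℝ} (γ : κ → ℕ) {W : ℝ}
    (h : ∀ a, 0 ≤ μ a ∧ μ a ≤ W) :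
    Wp (fun a => 0 < μ a) μ (ng μ γ) (univ.sup γ + 1) W := by
  refine ⟨h, fun a ha => ⟨le_antisymm (not_lt.1 ha) (h a).1, ?_⟩, fun a ha => ?_⟩
  · rw [ng, if_neg ha]
    exact Nat.lt_succ_of_le (Finset.le_sup (f := γ) (mem_univ a))
  · rw [ng, if_pos ha]

theorem lw {κ : Type} [Fintype κ] {μ : κ → ℝ} {γ : κ → ℕ} (h : ∀ a, 0 ≤ μ a) {a a' e : κ}
    (k : Lp (fun a => 0 < μ a) μ (ng μ γ) a a' e) : Lw μ γ a a' e := by
  rcases k with ⟨h1, h2, h3, h4⟩ | ⟨h1, h2, h3⟩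
  · exact Or.inl ⟨h1, h2, h4.resolve_right h3.ne'⟩
  · refine Or.inr ⟨le_antisymm (not_lt.1 h1) (h e), ?_, ?_⟩
    · by_cases ha : 0 < μ a
      · exact Or.inl ha
      · rw [ng, ng, if_neg h1, if_neg ha] at h2
        exact Or.inr h2
    · by_cases ha : 0 < μ a'
      · exact Or.inl ha
      · rw [ng, ng, if_neg h1, if_neg ha] at h3
        exact Or.inr h3

theorem id1 {κ : Type} {c : κ → κ → κ → ℝ} {L : ℝ} (h : ∀ a a' e, |c a a' e| ≤ L) :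
    Idl c 1 1 L := fun a a' e => by simpa using h a a' e

theorem bx1 {κ : Type} {t : κ → ℝ} {L : ℝ} : Bx 1 L t ↔ ∀ a, |t a| ≤ L := by
  simp [Bx]

theorem ad_lin {κ α : Type} [Fintype κ] [Fintype α] (N : ℕ) (c : κ → κ → κ → ℝ) (x t : κ → ℝ)
    (V : Matrix κ κ ℝ) (y : α → ℝ) (H : α → κ → ℝ) (a : κ) :
    Ad N c x (t ᵥ* V) a - ∑ i, y i * Ad N c x (H i ᵥ* V) a =
      Ad N c x ((fun e => t e - ∑ i, y i * H i e) ᵥ* V) a := by
  obtain ⟨h1, h2, -⟩ := GA.sLin κ ℝ N c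
  let f : (κ → ℝ) →ₗ[ℝ] (κ → ℝ) := ⟨⟨Ad N c x, h1 x⟩, h2 x⟩
  have e : (fun e => t e - ∑ i, y i * H i e) = t - ∑ i, y i • H i := by
    funext e
    simp [Finset.sum_apply]
  have e2 : (t - ∑ i, y i • H i) ᵥ* V = t ᵥ* V - ∑ i, y i • (H i ᵥ* V) := by
    rw [← Matrix.vecMulLinear_apply, map_sub, map_sum]
    simp only [map_smul, Matrix.vecMulLinear_apply]
  rw [e, e2]
  change f (t ᵥ* V) a - ∑ i, y i * f (H i ᵥ* V) a = f _ a
  rw [map_sub, map_sum]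
  simp only [map_smul, Pi.sub_apply, Finset.sum_apply, Pi.smul_apply, smul_eq_mul]

end FlOut

open FlOut in
theorem ofOut : OfOut := by
  intro hI ι κ α _ _ _ _ _ σ Hs W μ γ hσ hμ
  obtain ⟨K, hK, hB⟩ := GA.sBox σ.Φ.N (Fintype.card κ)
  obtain ⟨K', hK', hB'⟩ := GA.sBox2 σ.Φ.N (Fintype.card κ)
  have hW : 0 ≤ W := (hσ.bd 0 hσ.zero).2
  have hm : ∀ a, 0 ≤ μ a ∧ μ a ≤ W := fun a => hσ.bd _ (hμ a)
  have hK1 : (1 : ℝ) ≤ K := by exact_mod_cast hK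
  have hk0 : (0 : ℝ) ≤ Fintype.card κ := Nat.cast_nonneg _
  have hK0 : (0 : ℝ) ≤ K' := Nat.cast_nonneg _
  obtain ⟨c0, hc0⟩ : ∃ c0 : ℝ, c0 = (3 + ((univ.sup γ + 1 : ℕ) : ℝ)) * W := ⟨_, rfl⟩
  obtain ⟨c1, hc1⟩ : ∃ c1 : ℝ, c1 = K * (K + 1) := ⟨_, rfl⟩
  obtain ⟨c2, hc2⟩ : ∃ c2 : ℝ, c2 = K * (K + (Fintype.card κ + 2)) := ⟨_, rfl⟩
  obtain ⟨c3, hc3⟩ : ∃ c3 : ℝ, c3 = K * (K + c2) := ⟨_, rfl⟩
  obtain ⟨c4, hc4⟩ : ∃ c4 : ℝ, c4 = K' * (K' + 1) + (Fintype.card κ + 1) := ⟨_, rfl⟩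
  have p0 : 0 ≤ c0 := by rw [hc0]; positivity
  have p1 : 0 ≤ c1 := by rw [hc1]; positivity
  have p2 : 1 ≤ c2 := by rw [hc2]; nlinarith
  have p3 : 0 ≤ c3 := by rw [hc3]; nlinarith
  have p4 : 0 ≤ c4 := by rw [hc4]; positivity
  refine ⟨1 + c0 + c1 + c3 + c4, by linarith, ?_⟩
  intro Ω Λ Θ Ξ b d P O O' R R' u w hR hu hw h hb hO
  have fr : ∀ ω ∈ P.S, IsFr σ.Φ (d.B σ ω) (d.c σ ω) := fun ω hω =>
    ((GA.sFr ι κ σ.Φ σ.B σ.c).2 _ _ (h.inv ω hω)).1 hσ.fr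
  have mu := fun ω hω => GA.sMul ι κ _ _ _ (fr ω hω)
  have vV : ∀ ω ∈ P.S, ∀ t, vec (d.B σ ω) (t ᵥ* d.V ω) = vec σ.B t := fun ω hω t => by
    rw [Fd.B, GA.GAFrA.vec_mB, vecMul_vecMul, mul_eq_one_comm.1 (h.inv ω hω), vecMul_one]
  have eV : ∀ ω ∈ P.S, ∀ t, ex (d.B σ ω) (t ᵥ* d.V ω) = ex σ.B t := fun ω hω t => by
    rw [ex, vV ω hω, ex]
  have hG : ∀ ω ∈ P.S, d.G σ b ω = d.E ω * ex (d.B σ ω) (d.g ω) := fun ω hω => by
    rw [Fd.G, h.fac ω hω, mul_assoc, ((mu ω hω).neg _).2, mul_one]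
  have hJ : ∀ ω ∈ P.S, b.J ω = d.G σ b ω * ex (d.B σ ω) (d.k ω) := fun ω hω => by
    rw [hG ω hω, h.fac ω hω]
  have uG : ∀ ω ∈ P.S, IsUnit (d.G σ b ω) := fun ω hω => by
    rw [hG ω hω]
    exact (h.uE ω hω).mul (IsUnit.of_mul_eq_one _ ((mu ω hω).neg _).2)
  have hBe : ∀ ω ∈ P.S, ∀ v ∈ P.S, d.T ω = d.T v → d.B σ v = d.B σ ω := fun ω hω v hv e => by
    rw [Fd.B, Fd.B, show d.U ω = d.U v from (Prod.ext_iff.1 (h.fU ω hω v hv e)).1]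
  have e1 : ∀ {x y : ℝ}, x ≤ y → Real.exp (x * u) ≤ Real.exp (y * u) := fun e =>
    Real.exp_le_exp.2 (mul_le_mul_of_nonneg_right e (by linarith))
  have e2 : ∀ {y : ℝ}, 1 ≤ y → Real.exp u ≤ Real.exp (y * u) := fun e => by
    simpa using e1 e
  have e3 : ∀ {y : ℝ}, 0 ≤ y → 1 ≤ Real.exp (y * u) := fun e => by simpa using e1 e
  intro ω hω v hv
  have an := (mu ω hω).anti
  have o1 : ∀ a : κ, 0 ≤ (1 : κ → ℝ) a ∧ 0 ≤ (1 : κ → ℝ) a := fun _ => ⟨zero_le_one, zero_le_one⟩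
  have i1 : ∀ {y : ℝ}, 1 ≤ y → Idl (d.c σ ω) 1 1 (Real.exp (y * u)) := fun e =>
    id1 fun a a' e' => (h.bc ω hω a a' e').trans (e2 e)
  refine ⟨⟨uG ω hω, hG ω hω⟩, fun hT => ?_, fun hO' => ?_⟩
  · have eB := hBe ω hω v hv hT
    have hq : d.G σ b v = d.G σ b ω *
        ex (d.B σ ω) (bch σ.Φ.N (d.c σ ω) (-d.g ω) (d.g v)) := by
      rw [hG v hv, hG ω hω, ← (mu ω hω).mul, eB, ← h.fE ω hω v hv hT, mul_assoc, ← mul_assoc
        (ex _ (d.g ω)), ((mu ω hω).neg _).2, one_mul]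
    have hRW : 0 ≤ W * R := mul_nonneg hW hR
    obtain ⟨i2, -⟩ := hI κ _ μ _ _ W R w (Real.exp (1 * u)) (d.c σ ω) (wp γ hm) hW hR
      (by rw [← mul_assoc, ← hc0]; nlinarith) (e3 zero_le_one)
      (fun a a' e => (h.bc ω hω a a' e).trans (e2 le_rfl))
      fun a a' e k => h.fil ω hω a a' e (lw (fun a => (hm a).1) k)
    have r0 : ∀ a, 0 ≤ rd (fun a => 0 < μ a) μ (ng μ γ) W R w a := fun a => by
      unfold rd; split_ifs <;> exact (Real.exp_pos _).le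
    have bg : ∀ x ∈ P.S, Bx (rd (fun a => 0 < μ a) μ (ng μ γ) W R w) (Real.exp (1 * u))
        (d.g x) := fun x hx a => by
      unfold rd
      split_ifs with ha
      · rw [← Real.exp_add, one_mul]
        exact (h.bg x hx a).1 ha
      · rw [← Real.exp_add]
        refine ((h.bg x hx a).2 (le_antisymm (not_lt.1 ha) (hm a).1)).trans
          (Real.exp_le_exp.2 ?_)
        have : 0 ≤ (2 + (ng μ γ a : ℝ)) * (W * R) := by positivity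
        linarith
    have bn : Bx (rd (fun a => 0 < μ a) μ (ng μ γ) W R w) (Real.exp (1 * u)) (-d.g ω) :=
      fun a => by simpa using bg ω hω a
    have bt := (hB κ (d.c σ ω) _ _ _ 0 _ _ _ _ le_rfl (e3 zero_le_one) le_rfl
      (fun a => ⟨r0 a, r0 a⟩) an i2 i2 bn (bg v hv) bn (bg v hv)).1
    refine ⟨_, hq, fun a => ⟨fun ha => ?_, fun ha => ?_, fun hS => ?_⟩⟩
    · refine (bt a).trans ((mul_le_mul_of_nonneg_right (pw hu) (r0 a)).trans ?_)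
      rw [rd, if_pos ha, ← Real.exp_add, ← hc1]
      exact Real.exp_le_exp.2 (by nlinarith)
    · refine (bt a).trans ((mul_le_mul_of_nonneg_right (pw hu) (r0 a)).trans ?_)
      have hl : ¬0 < μ a := by rw [ha]; exact lt_irrefl _
      rw [rd, if_neg hl, ← Real.exp_add, ← hc1]
      have h1 : ((ng μ γ a : ℕ) : ℝ) ≤ ((univ.sup γ + 1 : ℕ) : ℝ) := by
        exact_mod_cast ((wp γ hm).dead a hl).2.le
      have h2 : (2 + (ng μ γ a : ℝ)) * (W * R) ≤ c0 * R := by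
        rw [hc0, mul_assoc]
        exact mul_le_mul_of_nonneg_right (by linarith) hRW
      exact Real.exp_le_exp.2 (by nlinarith)
    · obtain ⟨t, ht, hj⟩ := hb.near ω hω v hv hS (h.f0 ω hω v hv hT)
      have hq' : d.G σ b v = d.G σ b ω * ex (d.B σ ω) (bch σ.Φ.N (d.c σ ω)
          (bch σ.Φ.N (d.c σ ω) (d.k ω) (t ᵥ* d.V ω)) (-d.k v)) := by
        rw [← (mu ω hω).mul, ← (mu ω hω).mul, eV ω hω, ← mul_assoc, ← mul_assoc, ← hJ ω hω, ← hj,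
          Fd.G, eB]
      rw [(mu ω hω).inj _ _ ((uG ω hω).mul_left_cancel (hq.symm.trans hq'))]
      have q1 : (1 : ℝ) ≤ Fintype.card κ + 2 := by linarith
      have b1 : Bx 1 (Real.exp ((Fintype.card κ + 2) * u)) (d.k ω) :=
        bx1.2 fun a => (h.bk ω hω a).trans (e2 q1)
      have b2 : Bx 1 (Real.exp ((Fintype.card κ + 2) * u)) (t ᵥ* d.V ω) := bx1.2 fun a =>
        (vm hu (bx1.1 ht) (fun a e => (h.bU ω hω a e).2) a).trans_eq (by congr 1; ring)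
      have b3 : Bx 1 (Real.exp (c2 * u)) (bch σ.Φ.N (d.c σ ω) (d.k ω) (t ᵥ* d.V ω)) :=
        bx1.2 fun a => (bx1.1 (hB κ (d.c σ ω) _ _ _ 0 _ _ _ _ le_rfl (e3 (by linarith)) le_rfl
          o1 an (i1 q1) (i1 q1) b1 b2 b1 b2).1 a).trans (hc2 ▸ pw hu)
      have b4 : Bx 1 (Real.exp (c2 * u)) (-d.k v) :=
        bx1.2 fun a => by simpa using (h.bk v hv a).trans (e2 p2)
      refine (bx1.1 (hB κ (d.c σ ω) _ _ _ 0 _ _ _ _ le_rfl (e3 (by linarith)) le_rfl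
        o1 an (i1 p2) (i1 p2) b3 b4 b3 b4).1 a).trans ((pw hu).trans ?_)
      rw [← hc3]
      exact e1 (by linarith)
  · have hO1 := hO ω hω v hv hO'
    have eB := hBe ω hω v hv (h.fT ω hω v hv hO1)
    have ek : d.k ω = d.k v := (Prod.ext_iff.1 (h.fk ω hω v hv hO1)).1
    obtain ⟨t, hj, ht, -⟩ := hb.inc ω hω v hv hO'
    obtain ⟨a1, -, -, a4, -⟩ := GA.sAd ι κ _ _ _ (fr ω hω)
    have eA : ∀ i, d.A ω i = Ad σ.Φ.N (d.c σ ω) (d.k ω) (b.H ω i ᵥ* d.V ω) := fun i =>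
      (mu ω hω).inj _ _ (by rw [ex, ex, a1, vV ω hω, h.ad ω hω])
    refine ⟨Ad σ.Φ.N (d.c σ ω) (d.k ω) (t ᵥ* d.V ω), ?_, fun a => ?_⟩
    · rw [a4, eV ω hω, ← mul_assoc, ← mul_assoc, ← hJ ω hω, ← hj, Fd.G, eB, ek]
    · simp only [eA]
      rw [ad_lin]
      have b1 : Bx 1 (Real.exp (1 * u)) (d.k ω) :=
        bx1.2 fun a => (h.bk ω hω a).trans (e2 le_rfl)
      have b2 := bx1.2 (vm hu ht fun a e => (h.bU ω hω a e).2)
      refine (bx1.1 (hB' κ (d.c σ ω) _ _ _ _ _ _ _ _ le_rfl (e3 zero_le_one) (Real.exp_pos _).le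
        o1 an (i1 le_rfl) (i1 le_rfl) b1 b1 b2 b2).2.1 a).trans
        ((mul_le_mul_of_nonneg_right (pw hu) (Real.exp_pos _).le).trans ?_)
      rw [← Real.exp_add]
      refine Real.exp_le_exp.2 ?_
      have : (K' * (K' + 1) + (Fintype.card κ + 1)) * u = c4 * u := by rw [hc4]
      nlinarith

end Pool.Agent.MP_5168f5_an.QA.Fl
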