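import Pool.Agent.MP_5168f5_an.QA.OrbSpec

/-! The Kakeya maximal estimate: functions of polynomial growth are bounded by a power. -/

namespace Pool.Agent.MP_5168f5_an.QA.Ob

open H19 H17S H17F R4 AN Filter

theorem sPg : SPg := by
  intro F hF
  by_contra h
  push Not at h
  choose L l1 l2 using fun n => h (n + 1) (Nat.le_add_left 1 n)
  have l0 := fun n => Real.log_nonneg (l1 n)
  have k1 : ∀ n, L n ≤ Real.exp (⌈Real.log (L n)⌉₊ + 1 : ℕ) := fun n => by
    rw [← Real.log_le_iff_le_exp (one_pos.trans_le (l1 n))]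
    push_cast; linarith [Nat.le_ceil (Real.log (L n))]
  have hM : Big fun n => n * (⌈Real.log (L n)⌉₊ + 1) := tendsto_atTop.2 fun b =>
    (ev_ge b).mono fun n a => a.trans (Nat.le_mul_of_pos_right _ (Nat.succ_pos _))
  have s : Sub (fun n => n * (⌈Real.log (L n)⌉₊ + 1)) L := ⟨l1, fun ε hε => by
    filter_upwards [ev_ge ⌈ε⁻¹⌉₊] with n a
    refine (k1 n).trans (Real.exp_le_exp.2 ?_)
    rw [Nat.cast_mul, ← mul_assoc]
    refine le_mul_of_one_le_left (Nat.cast_nonneg _) ?_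
    rw [← inv_mul_le_iff₀ hε, mul_one]
    exact Nat.ceil_le.1 a⟩
  obtain ⟨n, a, b⟩ := (((hF.2 _ L hM s).2 1 one_pos).and (ev_ge 8)).exists
  have b' : (8 : ℝ) ≤ n := by exact_mod_cast b
  have p := one_pos.trans_le (l1 n)
  have e : Real.exp (⌈Real.log (L n)⌉₊ + 1 : ℕ) ≤ (n + 1 : ℕ) * L n := by
    calc _ ≤ Real.exp (1 + 1 + Real.log (L n)) := Real.exp_le_exp.2 (by
          push_cast; linarith [Nat.ceil_lt_add_one (l0 n)])
      _ = Real.exp 1 * Real.exp 1 * L n := by rw [Real.exp_add, Real.exp_add, Real.exp_log p]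
      _ ≤ _ := mul_le_mul_of_nonneg_right (by
          push_cast; nlinarith [Real.exp_one_lt_three, Real.exp_pos 1]) p.le
  rw [one_mul, Nat.cast_mul, Real.exp_nat_mul] at a
  refine absurd (a.trans ((pow_le_pow_left₀ (Real.exp_pos _).le e n).trans
    (pow_le_pow_right₀ ?_ n.le_succ))) (l2 n).not_ge
  exact (Real.one_le_exp (Nat.cast_nonneg _)).trans e

end Pool.Agent.MP_5168f5_an.QA.Ob
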