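import Pool.Agent.MP_5168f5_an.QA.OrbSpec
import Pool.Agent.MP_5168f5_an.QA.Prt
import Pool.Agent.MP_5168f5_an.QA.ChAlg

/-! The Kakeya maximal estimate: the matrices of the derivatives in the reference frame. -/

namespace Pool.Agent.MP_5168f5_an.QA.Ob

open AN AN.GA AN.N6 H61Z IsNilpotent Finset Lt
open N2 (tri)

namespace OrbPhA

variable {m : ℕ} {L θ : ℝ} {Y φ : Mt (Fin m)} {kk : Fin m → ℝ}

theorem cm_pow (h : Eb L Y) (d : Eb θ (cm Y φ)) (hL : 1 ≤ L) (hθ : 0 ≤ θ) (i : ℕ) :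
    Eb ((2 * (m + 1) * L) ^ i * θ) (cm (Y ^ i) φ) := by
  have b : (0 : ℝ) ≤ (m + 1) * L := by positivity
  induction i with
  | zero => simpa [cm] using eb_zero hθ
  | succ i ih =>
    have e : cm (Y ^ (i + 1)) φ = Y * cm (Y ^ i) φ + cm Y φ * Y ^ i := by
      rw [pow_succ']; unfold cm; noncomm_ring
    have k : ((m + 1) * L) ^ i ≤ (2 * (m + 1) * L) ^ i := pow_le_pow_left₀ b (by linarith) i
    have k0 : 0 ≤ (2 * (m + 1) * L) ^ i := by positivity
    rw [e]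
    refine eb_mono (eb_add (eb_mul h ih (by linarith) (by positivity))
      (eb_mul d (eb_mono (h.pow hL i) k) hθ k0)) ?_
    have : 0 ≤ (m + 1) * (2 * (m + 1) * L) ^ i * θ := by positivity
    rw [pow_succ']
    nlinarith

theorem cm_sum {J R : Type} [Monoid R] [DistribMulAction R (Mt (Fin m))]
    [IsScalarTower R (Mt (Fin m)) (Mt (Fin m))] [SMulCommClass R (Mt (Fin m)) (Mt (Fin m))]
    (T : Finset J) (t : J → R) (Z : J → Mt (Fin m)) :
    cm (∑ j ∈ T, t j • Z j) φ = ∑ j ∈ T, t j • cm (Z j) φ := by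
  simp only [cm, sum_mul, mul_sum, smul_sub, sum_sub_distrib, smul_mul_assoc, mul_smul_comm]

theorem cm_exp (hY : Y ∈ (tri kk).F 0) (h : Eb L Y) (d : Eb θ (cm Y φ)) (hL : 1 ≤ L)
    (hθ : 0 ≤ θ) : Eb ((m + 1) * (2 * (m + 1) * L) ^ m * θ) (cm (exp Y) φ) := by
  have b1 : (1 : ℝ) ≤ 2 * (m + 1) * L := by
    nlinarith [mul_nonneg (Nat.cast_nonneg (α := ℝ) m) (zero_le_one.trans hL)]
  rw [exp_eq_sum (k := m + 1) ((tri kk).pow_zero' hY), cm_sum]
  refine eb_mono (eb_sum (r := fun _ => (2 * (m + 1) * L) ^ m * θ) _ fun i hi => ?_)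
    (by simp [mul_assoc])
  refine eb_mono (eb_rat (cm_pow h d hL hθ i) _) ((mul_le_of_le_one_left (by positivity) ?_).trans
    (mul_le_mul_of_nonneg_right (pow_le_pow_right₀ b1 (Nat.lt_succ_iff.1 (mem_range.1 hi))) hθ))
  rw [Rat.cast_inv, abs_inv, Rat.cast_natCast, Nat.abs_cast]
  exact inv_le_one_of_one_le₀ (by exact_mod_cast i.factorial_pos)

theorem eb_pj (h : Eb L Y) : Eb L (pj kk Y) := fun q p => by
  rw [pj, Matrix.of_apply]
  split_ifs
  exacts [h q p, by simpa using (abs_nonneg _).trans (h q p)]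

theorem sub_pj (hY : Y ∈ (tri kk).F 0) (h : Eb θ (φ - Y)) : Eb θ (φ - pj kk φ) := fun q p => by
  have := h q p
  rw [Matrix.sub_apply] at this ⊢
  rw [pj, Matrix.of_apply]
  split_ifs with e
  · simpa using (abs_nonneg _).trans this
  · rwa [N2.mem_F0.1 hY p q e] at this

theorem conj_mem {K K' : Mt (Fin m)} (hK : K - 1 ∈ (tri kk).F 0) (hK' : K' - 1 ∈ (tri kk).F 0)
    (hY : Y ∈ (tri kk).F 0) : K * Y * K' ∈ (tri kk).F 0 := by
  have a : K * Y ∈ (tri kk).F 0 := by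
    simpa [sub_mul] using add_mem ((tri kk).anti 0 ((tri kk).mul_l 0 _ _ hK hY)) hY
  simpa [mul_sub] using add_mem ((tri kk).anti 0 ((tri kk).mul_l 0 _ _ a hK')) a

theorem eb_cj {a x : ℝ} {U U' : Mt (Fin m)} (h : Eb a U) (h' : Eb a U') (e : Eb x Y) (a0 : 0 ≤ a)
    (x0 : 0 ≤ x) : Eb ((m + 1) * ((m + 1) * a * x) * a) (U * Y * U') :=
  eb_mul (eb_mul h e a0 x0) h' (by positivity) a0

theorem eb_vec {κ : Type} [Fintype κ] {k : ℕ} (hk : Fintype.card κ ≤ k) {Z : κ → Mt (Fin m)}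
    (h0 : 0 ≤ L) (h : ∀ a, Eb L (Z a)) : Eb ((k + 1) * L) (∑ a, Z a) :=
  eb_mono (eb_card h) (mul_le_mul_of_nonneg_right (by exact_mod_cast hk.trans k.le_succ) h0)

theorem pg_cj {a x : ℝ → ℝ} (ha : PG a) (hx : PG x) (m : ℕ) :
    PG fun L => (m + 1) * ((m + 1) * a L * x L) * a L :=
  ((pg_nat m).mul (((pg_nat m).mul ha).mul hx)).mul ha

theorem ex_eb (m k : ℕ) : ∃ a, PG a ∧ ∀ (κ : Type) [Fintype κ] (kk : Fin m → ℝ)
    (B : κ → Mt (Fin m)) (c : κ → κ → κ → ℝ) (t : κ → ℝ) (L : ℝ), Fintype.card κ ≤ k →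
    IsFr (tri kk) B c → 1 ≤ L → (∀ a, Eb L (B a)) → (∀ a, |t a| ≤ L) →
    Eb (a L) (ex B t) ∧ Eb (a L) (ex B (-t)) := by
  obtain ⟨f, hf, h⟩ := exp_est m m
  have hg : PG fun L => (k + 1) * (L * L) := (pg_nat k).mul (pg_id.mul pg_id)
  refine ⟨_, hf.comp hg, fun κ _ kk B c t L hk hB hL eB ht => ?_⟩
  have v : ∀ u : κ → ℝ, (∀ a, |u a| ≤ L) → Eb (f ((k + 1) * (L * L))) (ex B u) := fun u hu =>
    (h (tri kk) _ _ rfl (hB.mem u) (hg.1 L hL)
      (eb_vec hk (by positivity) fun a => eb_smul (eB a) (hu a))).1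
  exact ⟨v t ht, v (-t) fun a => by simpa using ht a⟩

theorem one (m k : ℕ) : ∃ b e, PG b ∧ PG e ∧ ∀ (κ : Type) [Fintype κ] (kk : Fin m → ℝ)
    (B : κ → Mt (Fin m)) (c : κ → κ → κ → ℝ) (lv : κ → Prop) (g s : κ → ℝ) (ψ φ : Mt (Fin m))
    (W θ : ℝ), Fintype.card κ ≤ k → IsFr (tri kk) B c → 1 ≤ W → 0 ≤ θ → θ ≤ 1 →
    (∀ a, Eb W (B a)) → (∀ a, |s a| ≤ W) → Bo lv 1 W θ g → Eb W ψ → Eb θ (ψ - pj kk ψ) →
    φ = ex B g * ex B s * ψ * ex B (-s) * ex B (-g) → (∀ a, lv a → Eb θ (cm (B a) φ)) →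
    Eb (b W) φ ∧ Eb (e W * θ) (ex B s * ψ * ex B (-s) - φ) ∧ Eb (e W * θ) (φ - pj kk φ) := by
  obtain ⟨a, ha, h⟩ := ex_eb m k
  have hb := pg_cj ha (pg_cj ha pg_id m) m
  have h2 : PG fun _ => 2 * (m + 1 : ℝ) := (pg_const one_le_two).mul (pg_nat m)
  have hz : PG fun L => (k + 1) * (L * L) := (pg_nat k).mul (pg_id.mul pg_id)
  have h3 := ((pg_nat m).mul (((pg_nat m).mul ((h2.mul hz).pow m)).mul
    ((pg_nat k).mul ((h2.mul pg_id).mul hb)))).mul ha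
  have h4 := pg_cj ha (pg_const le_rfl) m
  refine ⟨_, _, hb, h4.add h3, fun κ _ kk B c lv g s ψ φ W θ hk hB hW h0 h1 eB hs hg eψ pψ e cφ =>
    ?_⟩
  have hg' : ∀ a, |g a| ≤ W := fun a => by
    by_cases u : lv a
    exacts [by simpa using (hg a).1 u, ((hg a).2 u).trans (h1.trans hW)]
  obtain ⟨s1, s2⟩ := h κ kk B c s W hk hB hW eB hs
  obtain ⟨g1, g2⟩ := h κ kk B c g W hk hB hW eB hg'
  have a0 := ha.nn hW
  have W0 := zero_le_one.trans hW
  have e' : φ = ex B g * (ex B s * ψ * ex B (-s)) * ex B (-g) := by simp only [e, mul_assoc]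
  have bφ := e' ▸ eb_cj g1 g2 (eb_cj s1 s2 eψ a0 W0) a0 (by positivity)
  have b1 := hb.1 W hW
  have p3 := mul_nonneg (h3.nn hW) h0
  have p4 := mul_nonneg (h4.nn hW) h0
  beta_reduce at b1 p3 p4 ⊢
  generalize (m + 1) * ((m + 1) * a W * ((m + 1) * ((m + 1) * a W * W) * a W)) * a W = b at *
  have m1 : 1 ≤ 2 * (m + 1 : ℝ) * b := one_le_mul_of_one_le_of_one_le (h2.1 W hW) b1
  have c1 : Eb ((k + 1) * (2 * (m + 1) * W * b * θ)) (cm (vec B (-g)) φ) := by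
    rw [vec, cm_sum]
    refine eb_vec hk (by positivity) fun i => ?_
    by_cases u : lv i
    · refine eb_mono (eb_smul (cφ i u) (T := W) (by simpa using hg' i)) ?_
      nlinarith [mul_nonneg W0 h0]
    · exact eb_mono (eb_smul (eb_cm (eB i) bφ W0 (by linarith)) (T := θ)
        (by simpa using (hg i).2 u)) (le_of_eq (by ring))
  have c2 := cm_exp (hB.mem (-g)) (eb_vec hk (by positivity) fun i =>
    eb_smul (eB i) (T := W) (by simpa using hg' i)) c1 (hz.1 W hW) (by positivity)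
  have c3 := eb_mul c2 g1 (by positivity) a0
  have n := ((sMul _ _ _ B c hB).neg g).1
  have e3 : cm (exp (vec B (-g))) φ * ex B g = ex B s * ψ * ex B (-s) - φ := by
    change cm (ex B (-g)) φ * _ = _
    rw [cm, sub_mul, mul_assoc φ, n, mul_one]
    congr 1
    rw [e', ← mul_assoc, ← mul_assoc, n, one_mul, mul_assoc, n, mul_one]
  rw [e3] at c3
  have c4 := eb_sub (eb_cj s1 s2 pψ a0 h0) c3
  rw [mul_sub, sub_mul, sub_sub_sub_cancel_left] at c4
  exact ⟨bφ, eb_mono c3 (by linarith), eb_mono (sub_pj (conj_mem ((tri kk).exp_sub_one (hB.mem s))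
    ((tri kk).exp_sub_one (hB.mem (-s))) (pj_mem kk ψ)) c4) (le_of_eq (by ring))⟩

end OrbPhA

open OrbPhA in
theorem ofPh : OfPh := by
  intro hP m k
  obtain ⟨a, ha, h⟩ := ex_eb m k
  obtain ⟨b, e, hb, he, h'⟩ := one m k
  have h2 : PG fun _ => 2 * (m + 1 : ℝ) := (pg_const one_le_two).mul (pg_nat m)
  obtain ⟨C, c1, c2⟩ := hP _ ((pg_cj ha pg_id m).add (pg_const le_rfl))
  obtain ⟨D, d1, d2⟩ := hP _ (((he.add he).add ((pg_const le_rfl).add ((h2.mul pg_id).mul he))).add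
    (((h2.mul he).mul hb).add ((h2.mul hb).mul he)))
  refine ⟨C + D, by omega, fun κ J _ _ kk B c lv g s ψ φ L W θ hk hB hL hLW h0 h1 eB hs hg eψ cψ
    eφ cφ j => ?_⟩
  have hW := hL.trans hLW
  have u1 := (c2 L hL).trans (Ch.pw_mono c1 (Nat.le_add_right C D) hL le_rfl)
  have u2 := mul_le_mul_of_nonneg_right
    ((d2 W hW).trans (Ch.pw_mono d1 (Nat.le_add_left D C) hW le_rfl)) h0
  have b1 := hb.1 W hW
  have e1 := he.1 W hW
  have m0 : (0 : ℝ) ≤ m := Nat.cast_nonneg _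
  have W0 := zero_le_one.trans hW
  have p1 : 0 ≤ e W * θ := by positivity
  have p2 : 0 ≤ 2 * (m + 1) * W * (e W * θ) := by positivity
  have p3 : 0 ≤ 2 * (m + 1) * (e W * θ) * b W := by positivity
  have k1 := fun j => h' κ kk B c lv g s (ψ j) (φ j) W θ hk hB hW h0 (by nlinarith)
    (fun a => eb_mono (eB a) hLW) (fun a => (hs a).trans hLW) hg (eb_mono (eψ j).1 hLW) (eψ j).2
    (eφ j) fun a => cφ a j
  obtain ⟨s1, s2⟩ := h κ kk B c s L hk hB hL eB hs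
  have n := sMul _ _ _ B c hB
  have cc : ∀ i j, φ i * φ j =
      ex B g * ex B s * (ψ i * ψ j) * ex B (-s) * ex B (-g) := fun i j => by
    rw [eφ, eφ]
    calc _ = ex B g * ex B s * ψ i * (ex B (-s) * (ex B (-g) * ex B g) * ex B s) * ψ j *
        ex B (-s) * ex B (-g) := by simp only [mul_assoc]
      _ = _ := by rw [(n.neg g).1, mul_one, (n.neg s).1, mul_one]; simp only [mul_assoc]
  refine ⟨eb_pj ?_, eb_mono (k1 j).2.2 (by linarith), ?_, fun i u => ?_, fun i => ?_⟩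
  · have := eb_sub (eb_cj s1 s2 (eψ j).1 (ha.nn hL) (by linarith)) (k1 j).2.1
    rw [sub_sub_cancel] at this
    exact eb_mono this (by linarith)
  · have := eb_add (k1 j).2.1 (k1 j).2.2
    rw [sub_add_sub_cancel] at this
    exact eb_mono this (by linarith)
  · have := eb_sub (cφ i j u) (eb_cm (eb_mono (eB i) hLW) (k1 j).2.2 W0 p1)
    exact eb_mono ((congrArg _ (by unfold cm; noncomm_ring)).mp this) (by linarith)
  · have := eb_add (eb_cm (k1 i).2.2 (k1 j).1 p1 (by linarith))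
      (eb_cm (eb_pj (kk := kk) (k1 i).1) (k1 j).2.2 (by linarith) p1)
    have z : φ i * φ j - φ j * φ i = 0 := by rw [cc, cc, cψ, sub_self]
    refine eb_mono ((congrArg _ ?_).mp (eb_neg this)) (by linarith)
    rw [← add_zero (-_), ← z]; unfold cm; noncomm_ring

end Pool.Agent.MP_5168f5_an.QA.Ob
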