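import Pool.Agent.MP_5168f5_an.QA.OrbSq
import Pool.Agent.MP_5168f5_an.QA.OrbPh
import Pool.Agent.MP_5168f5_an.QA.OrbPg
import Pool.Agent.MP_5168f5_an.QA.FlOut

/-! The Kakeya maximal estimate: the frame of a filtration and the lateral derivatives. -/

namespace Pool.Agent.MP_5168f5_an.QA.Ob

open H19 H17S H17F R4 AN Filter Matrix IsNilpotent
open GA (Mt IsFr ex cm)
open N2 (tri)
open N6 (Eb PG)
open Fl (Sg Bd Fd One)

namespace AlA

theorem le_exp {x u : ℝ} (hx : 0 ≤ x) (hu : 1 ≤ u) : x ≤ Real.exp (x * u) := by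
  nlinarith [Real.add_one_le_exp (x * u)]

/-- The adapted basis is bounded. -/
theorem bB {m : ℕ} {κ : Type} [Fintype κ] (B : κ → Mt (Fin m)) : ∃ C : ℝ, 1 ≤ C ∧
    ∀ (U : Matrix κ κ ℝ) (u : ℝ), 1 ≤ u → (∀ a e, |U a e| ≤ Real.exp u) → ∀ a,
      Eb (Real.exp (C * u)) (GA.mB U B a) := by
  have s0 : 0 ≤ ∑ e, ∑ p, ∑ q, |B e p q| := by positivity
  refine ⟨1 + ∑ e, ∑ p, ∑ q, |B e p q|, by linarith, fun U u hu h a q p => ?_⟩
  rw [GA.mB, GA.vec, Matrix.sum_apply, add_mul, one_mul, Real.exp_add]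
  refine (Finset.abs_sum_le_sum_abs _ _).trans (le_trans ?_
    (mul_le_mul_of_nonneg_left (le_exp s0 hu) (Real.exp_pos _).le))
  rw [Finset.mul_sum]
  refine Finset.sum_le_sum fun e _ => ?_
  rw [Matrix.smul_apply, smul_eq_mul, abs_mul]
  exact mul_le_mul (h a e) ((Finset.single_le_sum (f := fun q => |B e p q|)
    (fun _ _ => abs_nonneg _) (Finset.mem_univ q)).trans (Finset.single_le_sum
      (f := fun p => ∑ q, |B e p q|) (fun _ _ => by positivity) (Finset.mem_univ p)))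
    (abs_nonneg _) (Real.exp_pos _).le

end AlA

/-- The frame of a filtration together with the triangular parts of the matrices `φ`. -/
theorem al (hP : SPh) {m : ℕ} {κ α : Type} (J : Type) [Fintype κ] [DecidableEq κ] [Fintype J]
    (σ : Sg (Fin m) κ α) {kk : Fin m → ℝ} (hΦ : σ.Φ = tri kk) (fr : IsFr σ.Φ σ.B σ.c) {W : ℝ}
    (hW : 0 ≤ W) : ∃ C : ℝ, 1 ≤ C ∧ ∀ (Ω Λ Θ Ξ : Type) (b : Bd (Fin m) κ α Ω Θ Ξ)
    (d : Fd (Fin m) κ α Ω) (P : FP Ω) (O : Ω → Λ) (μ : κ → ℝ) (γ : κ → ℕ) (R u w : ℝ)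
    (φ : J → Mt (Fin m)) (ω : Ω), (∀ a, 0 ≤ μ a ∧ μ a ≤ W) → 0 ≤ R → 1 ≤ u → C * (u + R) ≤ w →
    One σ b d P O μ γ R u w → ω ∈ P.S →
    (∀ j, Eb (Real.exp u) ((b.J ω)⁻¹ * φ j * b.J ω) ∧ Eb (Real.exp (-w))
      ((b.J ω)⁻¹ * φ j * b.J ω - pj kk ((b.J ω)⁻¹ * φ j * b.J ω))) →
    (∀ i j, φ i * φ j = φ j * φ i) →
    (∀ a j, 0 < μ a → Eb (Real.exp (-w)) (cm (d.B σ ω a) ((d.E ω)⁻¹ * φ j * d.E ω))) →
    Al kk (d.B σ ω) (d.c σ ω) (fun a => 0 < μ a) 1 (fun j => pj kk ((d.E ω)⁻¹ * φ j * d.E ω))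
      (Real.exp (C * u)) (Real.exp (C * u)) (Real.exp (-(w - C * (u + R)))) ∧ ∀ j,
    Eb (Real.exp (-(w - C * (u + R))))
      ((d.E ω)⁻¹ * φ j * d.E ω - pj kk ((d.E ω)⁻¹ * φ j * d.E ω)) ∧
    Eb (Real.exp (-(w - C * (u + R)))) (ex (d.B σ ω) (d.k ω) * ((b.J ω)⁻¹ * φ j * b.J ω) *
      ex (d.B σ ω) (-d.k ω) - pj kk ((d.E ω)⁻¹ * φ j * d.E ω)) := by
  obtain ⟨K, hK, H⟩ := hP m (Fintype.card κ)
  obtain ⟨A, hA, HB⟩ := AlA.bB σ.B
  have k1 : (1 : ℝ) ≤ K := by exact_mod_cast hK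
  refine ⟨K * (K + (A + W)), by nlinarith, fun Ω Λ Θ Ξ b d P O μ γ R u w φ ω hμ hR hu hw h hω
    h1 h2 h3 => ?_⟩
  set C : ℝ := K * (K + (A + W)) with hC
  have f1 : IsFr (tri kk) (d.B σ ω) (d.c σ ω) :=
    hΦ ▸ ((GA.sFr _ _ σ.Φ σ.B σ.c).2 _ _ (h.inv ω hω)).1 fr
  have mu := GA.sMul _ _ _ _ _ f1
  have un : ∀ t, IsUnit (ex (d.B σ ω) t).det := fun t => isUnit_det_of_right_inverse (mu.neg t).2
  have iv : ∀ t, (ex (d.B σ ω) t)⁻¹ = ex (d.B σ ω) (-t) := fun t => inv_eq_right_inv (mu.neg t).2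
  have uE : IsUnit (d.E ω).det := (isUnit_iff_isUnit_det _).1 (h.uE ω hω)
  have uJ : IsUnit (b.J ω).det := by
    rw [h.fac ω hω, det_mul, det_mul]; exact (uE.mul (un _)).mul (un _)
  have a1 : u ≤ A * u := le_mul_of_one_le_left (by linarith) hA
  have a2 : A * u ≤ (A + W) * (u + R) := by nlinarith [mul_nonneg hW hR]
  have a3 : A * u ≤ C * u := mul_le_mul_of_nonneg_right (by nlinarith) (by linarith)
  have p1 := Fl.FlOut.pw (K := K) (a := A + W) (u := u + R) (by linarith)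
  have p2 : ((K : ℝ) * Real.exp (A * u)) ^ K ≤ Real.exp (C * u) :=
    (Fl.FlOut.pw hu).trans (Real.exp_le_exp.2 (mul_le_mul_of_nonneg_right (by nlinarith)
      (by linarith)))
  have p3 : ((K : ℝ) * Real.exp ((A + W) * (u + R))) ^ K * Real.exp (-w) ≤
      Real.exp (-(w - C * (u + R))) := by
    rw [neg_sub, sub_eq_add_neg, Real.exp_add]
    exact mul_le_mul_of_nonneg_right p1 (Real.exp_pos _).le
  have p4 : Real.exp (-w) ≤ Real.exp (-(w - C * (u + R))) :=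
    Real.exp_le_exp.2 (by nlinarith)
  have eu : Real.exp u ≤ Real.exp (A * u) := Real.exp_le_exp.2 a1
  have eA : Real.exp (A * u) ≤ Real.exp (C * u) := Real.exp_le_exp.2 a3
  have bB := HB (d.U ω) u hu fun a e => (h.bU ω hω a e).1
  have key := H κ J kk (d.B σ ω) (d.c σ ω) (fun a => 0 < μ a) (d.g ω) (d.k ω)
    (fun j => (b.J ω)⁻¹ * φ j * b.J ω) (fun j => (d.E ω)⁻¹ * φ j * d.E ω) (Real.exp (A * u))
    (Real.exp ((A + W) * (u + R))) (Real.exp (-w)) le_rfl f1 (Real.one_le_exp (by linarith))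
    (Real.exp_le_exp.2 a2) (Real.exp_pos _).le
    (p3.trans (Real.exp_le_one_iff.2 (by linarith))) bB (fun a => (h.bk ω hω a).trans eu)
    (fun a => ⟨fun k => ((h.bg ω hω a).1 k).trans (by
      rw [Pi.one_apply, mul_one]
      exact Real.exp_le_exp.2 (by nlinarith [(hμ a).2, mul_nonneg hW hR])),
      fun k => (h.bg ω hω a).2 (le_antisymm (not_lt.1 k) (hμ a).1)⟩)
    (fun j => ⟨Lt.eb_mono (h1 j).1 eu, (h1 j).2⟩) (fun i j => by
      simp only [mul_assoc, mul_nonsing_inv_cancel_left _ _ uJ]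
      rw [← mul_assoc (φ i), ← mul_assoc (φ j), h2])
    (fun j => by
      rw [h.fac ω hω, Matrix.mul_inv_rev, Matrix.mul_inv_rev, iv, iv]
      simp only [mul_assoc]
      rw [← mul_assoc (ex _ (d.k ω)) (ex _ (-d.k ω)), ← mul_assoc (ex _ (d.k ω)) (ex _ (-d.k ω)),
        (mu.neg _).2, one_mul, one_mul, (mu.neg _).2, mul_one, ← mul_assoc (ex _ (d.g ω)),
        (mu.neg _).2, one_mul]) h3
  refine ⟨⟨f1, Real.one_le_exp (by linarith), le_rfl, Real.exp_pos _,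
    fun a => ⟨le_rfl, Real.one_le_exp (by linarith)⟩, fun a => Lt.eb_mono (bB a) eA,
    fun a a' e => (h.bc ω hω a a' e).trans (eu.trans eA), fun a a' e _ _ _ => by
      simpa using (h.bc ω hω a a' e).trans (eu.trans eA), fun a a' e s t v =>
      (h.fil ω hω a a' e (Or.inl ⟨s, t, by linarith [not_lt.1 v]⟩)).trans p4,
    fun j => pj_mem _ _, fun j => Lt.eb_mono (key j).1 p2,
    fun a j k => Lt.eb_mono ((key j).2.2.2.1 a k) p3, fun i j => Lt.eb_mono ((key j).2.2.2.2 i) p3⟩,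
    fun j => ⟨Lt.eb_mono (key j).2.1 p3, Lt.eb_mono (key j).2.2.1 p3⟩⟩

theorem Al.mono {m : ℕ} {κ J : Type} [Fintype κ] [Fintype J] {kk : Fin m → ℝ}
    {B : κ → Mt (Fin m)} {c : κ → κ → κ → ℝ} {lv : κ → Prop} {f : J → Mt (Fin m)} {L L' θ θ' : ℝ}
    (h : Al kk B c lv 1 f L L θ) (a : L ≤ L') (b : θ ≤ θ') : Al kk B c lv 1 f L' L' θ' :=
  ⟨h.fr, h.one.trans a, le_rfl, h.pos.trans_le b, fun _ => ⟨le_rfl, h.one.trans a⟩,
    fun i => Lt.eb_mono (h.bB i) a, fun i j k => (h.bc i j k).trans a,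
    fun i j k _ _ _ => by simpa using (h.bc i j k).trans a,
    fun i j k s t v => (h.ld i j k s t v).trans b, h.mf, fun j => Lt.eb_mono (h.bf j) a,
    fun i j s => Lt.eb_mono (h.cf i j s) b, fun i j => Lt.eb_mono (h.ff i j) b⟩

theorem ofAl : OfAl := by
  intro hP m κ α J _ _ _ kk σ Hs W μ γ o hΦ ok hμ
  obtain ⟨C, hC, H⟩ := al hP J σ hΦ ok.fr (ok.bd 0 ok.zero).2
  obtain ⟨a, ha, Ha⟩ := OrbPhA.ex_eb m (Fintype.card κ)
  obtain ⟨K, hK, HK⟩ := sPg a ha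
  have k1 : (1 : ℝ) ≤ K := by exact_mod_cast hK
  have c1 : C ≤ K * (K + C) := by nlinarith
  refine ⟨K * (K + C), hC.trans c1, fun Ω Λ Θ Ξ b d P O φ R u w hR hu hw h ω hω ow co => ?_⟩
  have c2 := mul_le_mul_of_nonneg_right c1 (show 0 ≤ u + R by linarith)
  obtain ⟨h1, h2⟩ := H Ω Λ Θ Ξ b d P O μ γ R u w (φ ω) ω (fun a => ok.bd _ (hμ a)) hR hu
    (c2.trans hw) h hω (fun j => ⟨ow.bd j, ow.tri j⟩) ow.cm co
  have e1 : Real.exp (-(w - C * (u + R))) ≤ Real.exp (-(w - K * (K + C) * (u + R))) :=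
    Real.exp_le_exp.2 (by linarith)
  refine ⟨h1.mono (Real.exp_le_exp.2 (mul_le_mul_of_nonneg_right c1 (by linarith))) e1,
    fun j => Lt.eb_mono (h2 j).1 e1, fun j => Lt.eb_mono (h2 j).2 e1, fun p => ?_⟩
  rw [pt, mulVec_single_one]
  exact (((Ha κ kk _ _ (d.k ω) _ le_rfl h1.fr h1.one h1.bB fun i => (h.bk ω hω i).trans
    (Real.exp_le_exp.2 (le_mul_of_one_le_left (by linarith) hC))).1 o p).trans
      (HK _ h1.one)).trans (Fl.FlOut.pw hu)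

end Pool.Agent.MP_5168f5_an.QA.Ob
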