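import Pool.Agent.MP_5168f5_an.QA.Defs

/-! A correct datum has a bounded score; a correct datum exists. -/

namespace Pool.Agent.MP_5168f5_an.QA.BdA

open H19 H17S H17F R4 AN MvPolynomial Finset
open C1 (PD Hb Adm rho deg_PD rMul rho_pos)
open En (tb)
open Nc (Pl ev jac jm)
open Pk (cn mons kc pCnt)

variable {N D M c : ℕ} {l : Ln N} {h : ℤ}

theorem Bn_eq (F : VD N D) : Bn F = √(∑ m : mons (Fin (N + 1)) D, coeff m.1 F.1 ^ 2) := by
  rw [Bn, sum_coe_sort (mons (Fin (N + 1)) D) fun m => coeff m F.1 ^ 2]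
  exact congrArg _ (sum_subset ((pCnt.sup D F.1).1 (deg_PD F)) fun m _ hm => by
    rw [notMem_support_iff.1 hm]; simp)

theorem hb_Bn : Hb (Bn : VD N D → ℝ) := by
  refine ⟨mons (Fin (N + 1)) D, inferInstance, (WithLp.linearEquiv 2 ℝ _).symm.toLinearMap ∘ₗ
    LinearMap.pi fun m => lcoeff ℝ m.1 ∘ₗ Submodule.subtype _,
    (injective_iff_map_eq_zero _).2 fun F e => Subtype.ext (MvPolynomial.ext _ _ fun m => ?_),
    fun F => ?_⟩
  · by_cases hm : m ∈ F.1.support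
    · simpa using congrArg (fun v => v.ofLp ⟨m, (pCnt.sup D F.1).1 (deg_PD F) hm⟩) e
    · simpa using notMem_support_iff.1 hm
  · rw [Bn_eq, EuclideanSpace.norm_eq]
    simp

theorem coeff_le_Bn (F : VD N D) (m : Fin (N + 1) →₀ ℕ) : |coeff m F.1| ≤ Bn F := by
  by_cases hm : m ∈ F.1.support
  · exact Real.abs_le_sqrt (single_le_sum (f := fun m => coeff m F.1 ^ 2)
      (fun _ _ => sq_nonneg _) hm)
  · rw [notMem_support_iff.1 hm, abs_zero]; exact Real.sqrt_nonneg _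

theorem Bn_le_cn (F : VD N D) : Bn F ≤ cn F.1 :=
  Real.sqrt_le_iff.2 ⟨kc.nonneg _, by
    simpa only [sq_abs, cn] using sum_sq_le_sq_sum_of_nonneg (s := F.1.support)
      (f := fun m => |coeff m F.1|) fun _ _ => abs_nonneg _⟩

theorem cn_le_Bn (F : VD N D) : cn F.1 ≤ (mons (Fin (N + 1)) D).card * Bn F := by
  rw [kc.sup _ _ ((pCnt.sup D F.1).1 (deg_PD F))]
  simpa using sum_le_card_nsmul _ _ (Bn F) fun m _ => coeff_le_Bn F m

theorem sg_le {ν : VD N D → ℝ} (hν : Hb ν) {y : ℝ} (e : ∀ F, Bn F ≤ Real.exp y * ν F) {k : ℕ}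
    (hk : k ≤ dV N D) : sg k ν ≤ k * y := by
  have p := rho_pos hν hb_Bn rfl hk
  have a := le_mul_iff_one_le_left (rho_pos hν hν rfl hk) |>.1 (rMul _ ν ν ν k hν hν hν).1
  have b := (a.trans (rMul _ ν Bn ν k hν hb_Bn hν).1).trans (mul_le_mul_of_nonneg_left
    ((rMul _ Bn ν ν k hb_Bn hν hν).2.2 _ (Real.exp_pos y) e).1 p.le)
  have c := Real.log_nonneg b
  rw [← Real.exp_nat_mul, Real.log_mul p.ne' (Real.exp_pos _).ne', Real.log_exp] at c
  rw [sg]; linarith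

theorem le_sg {ν : VD N D → ℝ} (hν : Hb ν) {y : ℝ} (e : ∀ F, ν F ≤ Real.exp y * Bn F) {k : ℕ}
    (hk : k ≤ dV N D) : -(k * y) ≤ sg k ν := by
  rw [sg, neg_le_neg_iff, Real.log_le_iff_le_exp (rho_pos hν hb_Bn rfl hk), Real.exp_nat_mul]
  exact ((rMul _ ν Bn ν k hν hb_Bn hν).2.2 _ (Real.exp_pos y) e).1

/-- The bounds on a line and a height interval. -/
structure In (c : ℕ) (l : Ln N) (h : ℤ) : Prop where
  a : ‖l.1‖ ≤ 1
  e : ‖l.2‖ ≤ 1
  lo : 0 ≤ h
  hi : h + 1 ≤ 2 ^ c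

theorem box_in {Ω : Type} {P : FP Ω} {g : Sh N Ω} (b : g.Box P) (c : ℕ) {ω : Ω}
    (hω : ω ∈ P.S) : In c (g.l ω) (fl1 c (g.z ω)) := by
  obtain ⟨b1, b2, b3, b4⟩ := b ω hω
  refine ⟨b1, b2, Int.floor_nonneg.2 (by positivity), Int.floor_lt.2 ?_⟩
  push_cast
  exact mul_lt_of_lt_one_right (by positivity) b4

theorem norm_cons_le {t B : ℝ} {x : V N} (h1 : |t| ≤ B) (h2 : ‖x‖ ≤ B) :
    ‖(Fin.cons t x : V (N + 1))‖ ≤ B :=
  (pi_norm_le_iff_of_nonneg ((abs_nonneg _).trans h1)).2 fun i =>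
    Fin.cases h1 (fun j => (norm_le_pi_norm x j).trans h2) i

theorem In.norm (b : In c l h) {r : ℝ} {y : V (N + 1)} (hy : y ∈ seg M c l h r) :
    ‖y‖ ≤ 2 + r := by
  obtain ⟨t, ξ, t0, t1, hξ, rfl⟩ := hy
  have p : (0 : ℝ) < 2 ^ c := by positivity
  have a0 : (0 : ℝ) ≤ h := by exact_mod_cast b.lo
  have a1 : (h : ℝ) + 1 ≤ 2 ^ c := by exact_mod_cast b.hi
  have t2 : |t| ≤ 1 := abs_le.2 ⟨by nlinarith, by nlinarith⟩
  have r0 := (norm_nonneg _).trans hξ
  refine norm_cons_le (by linarith) ((norm_add₃_le).trans ?_)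
  rw [norm_smul, norm_smul, Real.norm_eq_abs, Real.norm_eq_abs,
    abs_of_pos (a := ((2 : ℝ) ^ M)⁻¹) (by positivity)]
  have := mul_le_mul (inv_le_one_of_one_le₀ (one_le_pow₀ (one_le_two (α := ℝ)) (n := M))) hξ
    (norm_nonneg _) zero_le_one
  nlinarith [b.a, mul_le_mul t2 b.e (norm_nonneg _) zero_le_one]

/-- The centre of the segment. -/
noncomputable def mid (M c : ℕ) (l : Ln N) (h : ℤ) : V (N + 1) :=
  tb M l.1 l.2 ((h + 1 / 2) / 2 ^ c) 0

theorem mid_mem {r : ℝ} (hr : 0 ≤ r) : mid M c l h ∈ seg M c l h r := by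
  have e : (2 : ℝ) ^ c * ((h + 1 / 2) / 2 ^ c) = h + 1 / 2 := by field_simp
  exact ⟨_, 0, by linarith, by linarith, by simpa using hr, rfl⟩

theorem ball_sub (hc : c ≤ M) (he : ‖l.2‖ ≤ 1) {x : V (N + 1)}
    (hx : ‖x - mid M c l h‖ ≤ 1 / 2 / 2 ^ M) : x ∈ seg M c l h 1 := by
  have p : (0 : ℝ) < 2 ^ M := by positivity
  have e : (2 : ℝ) ^ c * ((h + 1 / 2) / 2 ^ c) = h + 1 / 2 := by field_simp
  set t : ℝ := (h + 1 / 2) / 2 ^ c
  have h0 : |x 0 - t| ≤ 1 / 2 / 2 ^ M := (norm_le_pi_norm (x - mid M c l h) 0).trans hx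
  have h1 : (2 : ℝ) ^ c * |x 0 - t| ≤ 1 / 2 :=
    (mul_le_mul (pow_le_pow_right₀ one_le_two hc) h0 (abs_nonneg _) p.le).trans_eq (by field_simp)
  rw [← abs_of_pos (show (0 : ℝ) < 2 ^ c by positivity), ← abs_mul, mul_sub, abs_le] at h1
  refine ⟨x 0, (2 : ℝ) ^ M • (Fin.tail x - l.1 - x 0 • l.2), by linarith, by linarith, ?_, ?_⟩
  · refine (pi_norm_le_iff_of_nonneg zero_le_one).2 fun i => ?_
    have h2 : |x i.succ - (l.1 i + t * l.2 i)| ≤ 1 / 2 / 2 ^ M := by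
      simpa [mid, tb, t] using (norm_le_pi_norm (x - mid M c l h) i.succ).trans hx
    have h3 : |(x 0 - t) * l.2 i| ≤ 1 / 2 / 2 ^ M := by
      rw [abs_mul]
      exact (mul_le_of_le_one_right (abs_nonneg _) ((norm_le_pi_norm l.2 i).trans he)).trans h0
    have h4 := (abs_sub _ _).trans (add_le_add h2 h3)
    rw [Pi.smul_apply, norm_smul, Real.norm_eq_abs, abs_of_pos p, ← le_div_iff₀' p]
    refine le_trans (le_of_eq ?_) (h4.trans_eq (by ring))
    simp only [Real.norm_eq_abs, Pi.sub_apply, Pi.smul_apply, smul_eq_mul, Fin.tail]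
    congr 1; ring
  · rw [tb, smul_smul, inv_mul_cancel₀ p.ne', one_smul]
    simp

theorem seg_mono {r r' : ℝ} (e : r ≤ r') : seg M c l h r ⊆ seg M c l h r' :=
  fun _ ⟨t, ξ, a, b, d, f⟩ => ⟨t, ξ, a, b, d.trans e, f⟩

theorem jc_le {Φ : Ch N D} {y : V (N + 1)} {B : ℝ} (k : ∀ i j, |eval y (pderiv j (Φ i).1)| ≤ B) :
    jc Φ y ≤ (N + 1).factorial * B ^ (N + 1) := by
  rw [jc, Nc.eval_jac]
  simpa using Matrix.det_le (abv := AbsoluteValue.abs)
    (A := (jm fun i => (Φ i).1).map (eval y)) (x := B) fun i j => k i j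

/-- A norm that bounds the values on a fat segment is not too small. -/
theorem floor (N D : ℕ) : ∃ A : ℝ, 0 ≤ A ∧ ∀ (M c : ℕ) (l : Ln N) (h : ℤ) (ν : VD N D → ℝ),
    c ≤ M → In c l h → (∀ y ∈ seg M c l h 1, ∀ F : VD N D, |eval y F.1| ≤ ν F) →
    (∀ F, Bn F ≤ Real.exp (A * (M + 1)) * ν F) ∧
      ∀ Φ, Un ν Φ → ∀ y ∈ seg M c l h 5, jc Φ y ≤ Real.exp (A * (M + 1)) := by
  obtain ⟨C, hC, k⟩ := Pk.neq (N + 1) D
  obtain ⟨A, A0, hA⟩ : ∃ A : ℝ, 0 ≤ A ∧ ∀ M : ℕ, C * (9 / (1 / 2 / 2 ^ M)) ^ D ≤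
      Real.exp (A * (M + 1)) * (1 / 2 / 2 ^ M) := by
    refine ⟨Real.log (C * 18 ^ D * 2) + (D + 1), add_nonneg (Real.log_nonneg ?_) (by positivity),
      fun M => ?_⟩
    · exact one_le_mul_of_one_le_of_one_le (one_le_mul_of_one_le_of_one_le hC
        (one_le_pow₀ (by norm_num))) one_le_two
    have a1 : 0 ≤ Real.log (C * 18 ^ D * 2) := Real.log_nonneg (one_le_mul_of_one_le_of_one_le
      (one_le_mul_of_one_le_of_one_le hC (one_le_pow₀ (by norm_num))) one_le_two)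
    have a2 : ((2 : ℝ) ^ M) ^ (D + 1) ≤ Real.exp ((D + 1) * M) := by
      rw [← pow_mul]
      exact (two_pow_le_exp _).trans_eq (by push_cast; ring_nf)
    have a3 : C * 18 ^ D * 2 * Real.exp ((D + 1) * M) ≤
        Real.exp ((Real.log (C * 18 ^ D * 2) + (D + 1)) * (M + 1)) := by
      rw [← Real.exp_log (x := C * 18 ^ D * 2) (by positivity), ← Real.exp_add, Real.log_exp]
      refine Real.exp_le_exp.2 ?_
      nlinarith [Nat.cast_nonneg (α := ℝ) M, Nat.cast_nonneg (α := ℝ) D]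
    rw [← div_le_iff₀ (by positivity)]
    refine le_trans (le_of_eq ?_) ((mul_le_mul_of_nonneg_left a2 (by positivity)).trans a3)
    rw [show (9 : ℝ) / (1 / 2 / 2 ^ M) = 18 * 2 ^ M by field_simp; norm_num, mul_pow, pow_succ]
    field_simp
  refine ⟨(N + 1) * A + Real.log (N + 1).factorial, add_nonneg (by positivity)
    (Real.log_natCast_nonneg _), fun M c l h ν hc b hν => ?_⟩
  have r0 : (0 : ℝ) < 1 / 2 / 2 ^ M := by positivity
  have r1 : (1 : ℝ) / 2 / 2 ^ M ≤ 1 :=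
    (div_le_self (by norm_num) (one_le_pow₀ one_le_two)).trans (by norm_num)
  have m0 := b.norm (mid_mem (M := M) le_rfl)
  have k1 := fun F : VD N D => (k F.1 (deg_PD F)).2 (mid M c l h) _ 9 (ν F) r0 (by linarith)
    fun x hx => hν x (ball_sub hc b.e hx) F
  have n0 : ∀ F, 0 ≤ ν F := fun F => (abs_nonneg _).trans (hν _ (mid_mem zero_le_one) F)
  have l0 := Real.log_natCast_nonneg (N + 1).factorial
  have M0 := Nat.cast_nonneg (α := ℝ) M
  refine ⟨fun F => (Bn_le_cn F).trans (((k1 F).1 (by norm_num) (by linarith)).trans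
    (mul_le_mul_of_nonneg_right ((hA M).trans ((mul_le_of_le_one_right (Real.exp_pos _).le
      r1).trans (Real.exp_le_exp.2 ?_))) (n0 F))), fun Φ u y hy => (jc_le (B :=
        Real.exp (A * (M + 1))) fun i j => le_of_mul_le_mul_left ?_ r0).trans ?_⟩
  · exact mul_le_mul_of_nonneg_right (by nlinarith [Nat.cast_nonneg (α := ℝ) N]) (by positivity)
  · refine (((k1 (Φ i)).2 y ((norm_sub_le _ _).trans (by linarith [b.norm hy]))).2 j).trans ?_
    exact (mul_le_of_le_one_right (by positivity) (u i)).trans ((hA M).trans_eq (mul_comm _ _))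
  · rw [← Real.exp_nat_mul, ← Real.exp_log (x := (N + 1).factorial) (by positivity),
      ← Real.exp_add, Real.log_exp]
    refine Real.exp_le_exp.2 ?_
    push_cast
    nlinarith

/-- The score of a correct datum is bounded. -/
theorem bd (N D : ℕ) : ∃ A : ℝ, 0 ≤ A ∧ ∀ (M c : ℕ) (l : Ln N) (δ : Dc N D), c ≤ M →
    In c l δ.h → δ.Ok M c l → (∀ k ≤ dV N D, sg k δ.ν ≤ A * (M + 1)) ∧
      Real.log δ.J ≤ A * (M + 1) ∧ ∀ η, 0 ≤ η → η ≤ 1 → sco η δ ≤ A * (M + 1) := by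
  obtain ⟨A, A0, hA⟩ := floor N D
  set d : ℝ := (dV N D : ℝ)
  have d0 : 0 ≤ d := Nat.cast_nonneg _
  refine ⟨(1 + (d + 1) * d) * A, by positivity, fun M c l δ hc b k => ?_⟩
  obtain ⟨h1, h2⟩ := hA M c l δ.h δ.ν hc b fun y hy => k.bd y (seg_mono (by norm_num) hy)
  obtain ⟨Φ, u, y, hy, e⟩ := k.wit
  have q : 0 ≤ A * (M + 1) := by positivity
  have h3 : Real.log δ.J ≤ A * (M + 1) := (Real.log_le_iff_le_exp k.pos).2
    (e.trans (h2 Φ u y (seg_mono (by norm_num) hy)))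
  have h4 : ∀ j ≤ dV N D, sg j δ.ν ≤ d * (A * (M + 1)) := fun j hj =>
    (sg_le k.hb h1 hj).trans (mul_le_mul_of_nonneg_right (Nat.cast_le.2 hj) q)
  refine ⟨fun j hj => (h4 j hj).trans ?_, h3.trans ?_, fun η e0 e1 => ?_⟩
  · nlinarith [mul_nonneg (mul_nonneg d0 d0) q]
  · nlinarith [mul_nonneg (mul_nonneg d0 d0) q, mul_nonneg d0 q]
  · have := sum_le_card_nsmul (range (dV N D + 1)) (fun j => η ^ j * sg j δ.ν)
      (d * (A * (M + 1))) fun j hj => (mul_le_mul_of_nonneg_left (h4 j (Nat.lt_succ_iff.1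
        (mem_range.1 hj))) (by positivity)).trans
          (mul_le_of_le_one_left (by positivity) (pow_le_one₀ e0 e1))
    rw [card_range, nsmul_eq_mul] at this
    push_cast at this
    rw [sco, Psi]
    linarith

/-- One norm and one Jacobian are correct for all lines and all intervals. -/
theorem ex_ok (N : ℕ) (hD : 1 ≤ D) : ∃ (ν : VD N D → ℝ) (J : ℝ), ∀ (M c : ℕ) (l : Ln N) (h : ℤ),
    In c l h → (⟨ν, J, h⟩ : Dc N D).Ok M c l := by
  set K : ℝ := ((mons (Fin (N + 1)) D).card + 1) * 7 ^ D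
  have K0 : 0 < K := by positivity
  refine ⟨fun F => K * Bn F, K⁻¹ ^ (N + 1), fun M c l h b => ⟨?_, by positivity, fun y hy F => ?_,
    fun i => ⟨C K⁻¹ * X i, (mem_restrictTotalDegree _ _ _).2 ((totalDegree_mul _ _).trans
      (by simpa using hD))⟩, fun i => ?_, _, mid_mem (by norm_num), le_of_eq ?_⟩⟩
  · obtain ⟨ι, _, A, hA, e⟩ := hb_Bn (N := N) (D := D)
    exact ⟨ι, inferInstance, K • A, fun x y k => hA (smul_right_injective _ K0.ne' k), fun F => by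
      rw [LinearMap.smul_apply, norm_smul, ← e, Real.norm_eq_abs, abs_of_pos K0]⟩
  · have := hb_Bn.nonneg F
    refine (kc.val F.1 D 7 y (deg_PD F) (by norm_num) fun i => (norm_le_pi_norm y i).trans
      ((b.norm hy).trans (by norm_num))).trans ((mul_le_mul_of_nonneg_right (cn_le_Bn F)
        (by positivity)).trans ?_)
    simp only [K]
    nlinarith [show (0 : ℝ) < 7 ^ D by positivity]
  · refine (mul_le_mul_of_nonneg_left (Bn_le_cn _) K0.le).trans_eq ?_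
    dsimp only
    rw [C_mul', kc.smul, kc.var, abs_of_pos (inv_pos.2 K0), mul_one, mul_inv_cancel₀ K0.ne']
  · have : (jm fun i : Fin (N + 1) => C K⁻¹ * X i).map (eval (mid M c l h)) =
        Matrix.diagonal fun _ => K⁻¹ := by
      ext i j
      by_cases e : i = j <;> simp [jm, Matrix.diagonal, e, pderiv_X, Pi.single_apply, eq_comm]
    rw [jc, Nc.eval_jac, this]
    simp [abs_of_pos K0]

end Pool.Agent.MP_5168f5_an.QA.BdA
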