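import Pool.Agent.MP_5168f5_an.QA.FrCnt

/-! Growth of polynomials along lines and fat segments. -/

namespace Pool.Agent.MP_5168f5_an.QA

open Finset H17S MvPolynomial
open H83 (IsPoly pt)

/-- The constant of the growth bound. -/
noncomputable def cR (E : ℕ) : ℝ := (E + 1) * (2 * (E + 1)) ^ E

theorem one_le_cR (E : ℕ) : 1 ≤ cR E := by
  have h : (1 : ℝ) ≤ E + 1 := le_add_of_nonneg_left (Nat.cast_nonneg _)
  exact one_le_mul_of_one_le_of_one_le h (one_le_pow₀ (by linarith))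

theorem lineRem {E n : ℕ} {F : V n → ℝ} (hF : IsPoly E F) (b w : V n) {t0 τ L B t : ℝ}
    (τ0 : 0 < τ) (τL : τ ≤ L) (h : ∀ s, t0 ≤ s → s ≤ t0 + τ → |F (b + s • w)| ≤ B)
    (ht : |t - t0| ≤ L) : |F (b + t • w)| ≤ cR E * (L / τ) ^ E * B := by
  obtain ⟨q, q1, q2⟩ := hF.line (b + t • w) w
  have e0 : (0 : ℝ) < E + 1 := by positivity
  have L0 : 0 < L := τ0.trans_le τL
  have k0 : ∀ i : Fin (E + 1), 0 ≤ ((i : ℕ) : ℝ) * (τ / (E + 1)) ∧
      ((i : ℕ) : ℝ) * (τ / (E + 1)) ≤ τ := fun i => by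
    have : ((i : ℕ) : ℝ) + 1 ≤ E + 1 := by exact_mod_cast i.2
    refine ⟨by positivity, ?_⟩
    rw [← mul_div_assoc, div_le_iff₀ e0]
    nlinarith
  have k := (lag (L := 2 * L) q q1 (fun i => t0 + (i : ℕ) * (τ / (E + 1)) - t) (τ := τ / (E + 1))
    (by positivity) fun i i' hi => by
      rw [sub_sub_sub_cancel_right, add_sub_add_left_eq_sub, ← sub_mul, abs_mul,
        abs_of_pos (a := τ / (E + 1)) (by positivity)]
      have : (1 : ℤ) ≤ |((i : ℕ) : ℤ) - (i' : ℕ)| :=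
        Int.one_le_abs (sub_ne_zero.2 fun e => hi (Fin.ext (by exact_mod_cast e)))
      exact le_mul_of_one_le_left (by positivity) (by exact_mod_cast this)).2 fun i =>
    abs_le.2 ⟨by linarith [(k0 i).1, (abs_le.1 ht).2], by linarith [(k0 i).2, (abs_le.1 ht).1]⟩
  rw [← q2, zero_smul, add_zero] at k
  refine k.trans ((sum_le_card_nsmul _ _ ((2 * L / (τ / (E + 1))) ^ E * B) fun i _ => ?_).trans_eq ?_)
  · rw [← q2, add_assoc, ← add_smul, add_sub_cancel]
    exact mul_le_mul_of_nonneg_left (h _ (by linarith [(k0 i).1]) (by linarith [(k0 i).2]))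
      (by positivity)
  · rw [card_univ, Fintype.card_fin, nsmul_eq_mul, cR,
      show 2 * L / (τ / (E + 1)) = 2 * (E + 1) * (L / τ) by field_simp, mul_pow]
    push_cast
    ring

/-- A bound on a fat segment extends to the longer fat segment of the same radius. -/
theorem fatRem {E N : ℕ} {F : V (N + 1) → ℝ} (hF : IsPoly E F) (a e ξ : V N) {t0 τ L B t : ℝ}
    (τ0 : 0 < τ) (τL : τ ≤ L) (h : ∀ s, t0 ≤ s → s ≤ t0 + τ → |F (pt s (a + s • e + ξ))| ≤ B)
    (ht : |t - t0| ≤ L) : |F (pt t (a + t • e + ξ))| ≤ cR E * (L / τ) ^ E * B := by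
  have k : ∀ s : ℝ, pt s (a + s • e + ξ) = pt 0 (a + ξ) + s • pt 1 e := fun s => by
    rw [H83.smul_pt, H83.pt_add, mul_one, zero_add, add_right_comm]
  simp only [k] at h ⊢
  exact lineRem hF _ _ τ0 τL h ht

/-- A large value on a long fat segment gives a large value on every short part of it. -/
theorem fatRem' {E N : ℕ} {F : V (N + 1) → ℝ} (hF : IsPoly E F) (a e ξ : V N) {t0 τ L t : ℝ}
    (τ0 : 0 < τ) (τL : τ ≤ L) (ht : |t - t0| ≤ L) : ∃ s, t0 ≤ s ∧ s ≤ t0 + τ ∧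
      |F (pt t (a + t • e + ξ))| ≤ cR E * (L / τ) ^ E * |F (pt s (a + s • e + ξ))| := by
  have hc : Continuous fun s : ℝ => |F (pt s (a + s • e + ξ))| :=
    (hF.continuous.comp (H83.continuous_pt.comp
      (f := fun s : ℝ => (s, a + s • e + ξ)) (by fun_prop))).abs
  obtain ⟨s, hs, hm⟩ := (isCompact_Icc (a := t0) (b := t0 + τ)).exists_isMaxOn
    ⟨t0, le_rfl, by linarith⟩ hc.continuousOn
  exact ⟨s, hs.1, hs.2, fatRem hF a e ξ τ0 τL (fun s' h1 h2 => hm ⟨h1, h2⟩) ht⟩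

end Pool.Agent.MP_5168f5_an.QA
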