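import Pool.Agent.MP_5168f5_an.QA.Defs
import Pool.Agent.MP_5168f5_an.QA.FatRem
import Pool.Agent.MP_5168f5_an.AN.S20Nz1

/-! The count in the language of labels: lower bounds for the deficiency of the cube. -/

namespace Pool.Agent.MP_5168f5_an.QA

open H19 H17S H17F R4 AN MvPolynomial
open En (tb dm)
open Nc (Pl ev jac)
open H83 (pt)

variable {N D : ℕ} {Ω Λ : Type}

theorem seg_mono {M c : ℕ} {l : Ln N} {h : ℤ} {r r' : ℝ} (e : r ≤ r') :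
    seg M c l h r ⊆ seg M c l h r' := fun _ ⟨t, ξ, a, b, k, y⟩ => ⟨t, ξ, a, b, k.trans e, y⟩

/-- The tube with the width in absolute terms. -/
theorem mem_seg {M c : ℕ} {l : Ln N} {h : ℤ} {r : ℝ} {y : V (N + 1)} :
    y ∈ seg M c l h r ↔ ∃ (s : ℝ) (ξ : V N), h / 2 ^ c ≤ s ∧ s ≤ h / 2 ^ c + 1 / 2 ^ c ∧
      ‖ξ‖ ≤ r / 2 ^ M ∧ y = pt s (l.1 + s • l.2 + ξ) := by
  have p : (0 : ℝ) < 2 ^ c := by positivity
  have q : (0 : ℝ) < 2 ^ M := by positivity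
  constructor
  · rintro ⟨t, ξ, a, b, k, rfl⟩
    refine ⟨t, ((2 : ℝ) ^ M)⁻¹ • ξ, ?_, ?_, ?_, rfl⟩
    · rwa [div_le_iff₀' p]
    · rwa [← add_div, le_div_iff₀' p]
    · rw [norm_smul, Real.norm_of_nonneg (by positivity), inv_mul_eq_div]
      gcongr
  · rintro ⟨s, ξ, a, b, k, rfl⟩
    refine ⟨s, (2 : ℝ) ^ M • ξ, ?_, ?_, ?_, ?_⟩
    · rwa [div_le_iff₀' p] at a
    · rwa [← add_div, le_div_iff₀' p] at b
    · rwa [norm_smul, Real.norm_of_nonneg q.le, ← le_div_iff₀' q]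
    · rw [tb, inv_smul_smul₀ q.ne']
      rfl

theorem gp_bd {k J : ℕ} (a : Fin k → Fin (2 ^ J)) (i : Fin k) : 0 ≤ gp a i ∧ gp a i ≤ 1 := by
  have : ((a i : ℕ) : ℝ) ≤ 2 ^ J := by exact_mod_cast (a i).2.le
  exact ⟨by unfold gp; positivity, div_le_one_of_le₀ this (by positivity)⟩

theorem vp_mem (g : Sh N Ω) (M c J : ℕ) (v : NW Ω N J) :
    vp g M c J v ∈ seg M c (g.l v.1) (fl1 c (g.z v.1)) 1 := by
  refine ⟨_, _, ?_, ?_, (pi_norm_le_iff_of_nonneg zero_le_one).2 fun i => ?_, rfl⟩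
  · rw [mul_div_cancel₀ _ (by positivity)]
    linarith [(gp_bd v.2 0).1]
  · rw [mul_div_cancel₀ _ (by positivity)]
    linarith [(gp_bd v.2 0).2]
  · exact abs_le.2 ⟨by linarith [(gp_bd v.2 i.succ).1], (gp_bd v.2 i.succ).2⟩

theorem fl1_near (c : ℕ) (s : ℝ) :
    (fl1 c s : ℝ) / 2 ^ c ≤ s ∧ s ≤ fl1 c s / 2 ^ c + 1 / 2 ^ c := by
  have p : (0 : ℝ) < 2 ^ c := by positivity
  rw [div_le_iff₀' p, ← add_div, le_div_iff₀' p]
  exact ⟨Int.floor_le _, (Int.lt_floor_add_one _).le⟩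

/-- A point over the long interval is close in height to the short interval. -/
theorem seg_far {M c c' : ℕ} (hc : c' ≤ c) {l : Ln N} {s r : ℝ} {y : V (N + 1)}
    (hy : y ∈ seg M c' l (fl1 c' s) r) : ∃ (t : ℝ) (ξ : V N),
      |t - fl1 c s / 2 ^ c| ≤ 2 / 2 ^ c' ∧ ‖ξ‖ ≤ r / 2 ^ M ∧ y = pt t (l.1 + t • l.2 + ξ) := by
  obtain ⟨t, ξ, a, b, k, e⟩ := mem_seg.1 hy
  have h1 := fl1_near c s
  have h2 := fl1_near c' s
  have h3 : (1 : ℝ) / 2 ^ c ≤ 1 / 2 ^ c' :=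
    one_div_le_one_div_of_le (by positivity) (pow_le_pow_right₀ one_le_two hc)
  have h4 : (2 : ℝ) / 2 ^ c' = 1 / 2 ^ c' + 1 / 2 ^ c' := by ring
  have h5 : (0 : ℝ) ≤ 1 / 2 ^ c' := by positivity
  exact ⟨t, ξ, abs_le.2 ⟨by linarith [h1.1, h2.2], by linarith [h1.2, h2.1]⟩, k, e⟩

theorem log_ratio {c c' : ℕ} :
    Real.log (2 / 2 ^ c' / (1 / 2 ^ c)) = lg + ((c : ℝ) - c') * lg := by
  rw [Real.log_div (by positivity) (by positivity), Real.log_div two_ne_zero (by positivity),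
    one_div, Real.log_inv, Real.log_pow, Real.log_pow, lg]
  ring

theorem le_ratio {c c' : ℕ} (hc : c' ≤ c) : (1 : ℝ) / 2 ^ c ≤ 2 / 2 ^ c' :=
  div_le_div₀ zero_le_two one_le_two (by positivity) (pow_le_pow_right₀ one_le_two hc)

theorem fst_law (P : FP Ω) (N J : ℕ) : Law (NQ P N J) Prod.fst P id := S20.law_fst _ _

/-- The count for an arbitrary frame `Φ` that is bounded by `B` on the tube of level `c`; the
virtual point is uniform on the tube of level `c' ≤ c`. -/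
theorem gapF (N D E : ℕ) : ∃ C : ℝ, 0 ≤ C ∧ ∀ {Ω Λ : Type} (P : FP Ω) (g : Sh N Ω) (M c c' J : ℕ)
    (r : ℝ) (T : Ω → Λ) (Φ : Ω → Fin (N + 1) → Pl (N + 1)) (h : Ω → ℤ) (B lam La : Ω → ℝ)
    (u : Ω → Ch N D) (m : Ω → ℕ), 1 ≤ r → c' ≤ c → g.Box P →
    Fn P (fun ω => (Φ ω, h ω, B ω, lam ω, La ω, u ω, m ω)) (g.cx c' T) →
    (∀ ω ∈ P.S, (∀ i, (Φ ω i).totalDegree ≤ E) ∧ 0 < B ω ∧ 0 < lam ω ∧ 0 < La ω ∧
      (∃ s, h ω = fl1 c s ∧ fl1 c' s = fl1 c' (g.z ω)) ∧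
      (∀ y ∈ seg M c (g.l ω) (h ω) r, ∀ i, |eval y (Φ ω i)| ≤ B ω) ∧
      (∃ y ∈ seg M c (g.l ω) (h ω) r, lam ω ≤ |eval y (jac (Φ ω))|) ∧
      ∀ y ∈ seg M c' (g.l ω) (fl1 c' (g.z ω)) 1, ‖uc (u ω) y‖ ≤ 1 ∧ jc (u ω) y ≤ La ω) →
    P.E (fun ω => min (m ω * lg) (Real.log (lam ω) - Real.log (La ω) -
      (N + 1) * (Real.log (B ω) + (1 + ((c : ℝ) - c')) * lg))) - C ≤ gap P g M c' J T u m := by
  obtain ⟨C, C0, hC⟩ := chCntF N (D + E)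
  refine ⟨C, C0, fun {Ω Λ} P g M c c' J r T Φ h B lam La u m hr hc hb hf H => ?_⟩
  have l := fst_law P N J
  have k := hC (NQ P N J) (fun v => (Φ v.1, h v.1, B v.1, lam v.1, La v.1, u v.1, m v.1))
    (fun b => b.1) (fun b i => (b.2.2.2.2.2.1 i).1) (fun b => b.2.1 / 2 ^ c) (fun _ => 1 / 2 ^ c)
    (fun _ => 2 / 2 ^ c') (fun b => b.2.2.1) (fun b => b.2.2.2.1) (fun b => b.2.2.2.2.1)
    (fun _ => 1) (fun _ => r / 2 ^ M) (fun b => b.2.2.2.2.2.2) (vp g M c' J) fun v hv => by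
      obtain ⟨h1, h2, h3, h4, ⟨s, s1, s2⟩, h6, ⟨y, y1, y2⟩, h8⟩ := H _ (l.mem hv)
      obtain ⟨b1, b2, -⟩ := hb _ (l.mem hv)
      have w := vp_mem g M c' J v
      obtain ⟨w1, w2⟩ := h8 _ w
      refine ⟨fun i => (h1 i).trans (by omega), fun i => (C1.deg_PD _).trans (by omega),
        by positivity, le_ratio hc, h2, h3, h4, ⟨_, _, b1, b2,
          fun s ξ a b k => h6 _ (mem_seg.2 ⟨s, ξ, a, b, k, rfl⟩), ?_, ?_⟩,
        fun i => (norm_le_pi_norm _ i).trans w1, w2⟩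
      · obtain ⟨s, ξ, a, b, k, rfl⟩ := mem_seg.1 y1
        exact ⟨s, ξ, a, b, k, (det_dm _ _).symm ▸ y2⟩
      · rw [← s2] at w
        obtain ⟨t, ξ, a, b, k⟩ := seg_far hc (seg_mono hr w)
        exact ⟨t, ξ, s1 ▸ a, b, k⟩
  have k1 := (ch_anti (F := cub g M c' J u m) (l.fn hf)).trans k
  rw [l fun ω => (N + 1) * m ω * lg + max (-(m ω * lg)) ((N + 1) *
    (Real.log (2 / 2 ^ c' / (1 / 2 ^ c)) + Real.log (B ω)) + Real.log (La ω) - Real.log (lam ω)),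
    log_ratio] at k1
  have k2 : P.E (fun ω => min (m ω * lg) (Real.log (lam ω) - Real.log (La ω) -
      (N + 1) * (Real.log (B ω) + (1 + ((c : ℝ) - c')) * lg))) + P.E (fun ω =>
      (N + 1) * m ω * lg + max (-(m ω * lg)) ((N + 1) * (lg + ((c : ℝ) - c') * lg +
        Real.log (B ω)) + Real.log (La ω) - Real.log (lam ω))) =
      (N + 1) * lg * P.E fun ω => m ω := by
    rw [← P.E_add, ← P.E_mul]
    refine P.E_congr fun ω _ => ?_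
    rw [← neg_neg (min _ _), ← max_neg_neg, neg_sub,
      show (N + 1) * (Real.log (B ω) + (1 + ((c : ℝ) - c')) * lg) -
        (Real.log (lam ω) - Real.log (La ω)) = (N + 1) * (lg + ((c : ℝ) - c') * lg +
        Real.log (B ω)) + Real.log (La ω) - Real.log (lam ω) by ring]
    ring
  unfold gap
  simp only [id] at k1
  linarith

/-- The count for a datum of level `c`; the virtual point is uniform on the tube of level
`c' ≤ c`. -/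
theorem gapN (N D : ℕ) : ∃ C : ℝ, 0 ≤ C ∧ ∀ {Ω Λ : Type} (P : FP Ω) (g : Sh N Ω) (M c c' J : ℕ)
    (T : Ω → Λ) (A : Ω → Dc N D) (La : Ω → ℝ) (u : Ω → Ch N D) (m : Ω → ℕ), c' ≤ c → g.Box P →
    Fn P (fun ω => (A ω, La ω, u ω, m ω)) (g.cx c' T) →
    (∀ ω ∈ P.S, (A ω).Ok M c (g.l ω) ∧ 0 < La ω ∧ (A ω).J ≤ 2 ^ m ω * La ω ∧
      (∃ s, (A ω).h = fl1 c s ∧ fl1 c' s = fl1 c' (g.z ω)) ∧
      ∀ y ∈ seg M c' (g.l ω) (fl1 c' (g.z ω)) 1, ‖uc (u ω) y‖ ≤ 1 ∧ jc (u ω) y ≤ La ω) →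
    P.E (fun ω => Real.log (A ω).J - Real.log (La ω)) - (N + 1) * ((c : ℝ) - c') * lg - C ≤
      gap P g M c' J T u m := by
  obtain ⟨C, C0, hC⟩ := chCnt N D D
  have lg0 : 0 ≤ lg := Real.log_nonneg one_le_two
  refine ⟨C + (N + 1) * lg, by positivity, fun {Ω Λ} P g M c c' J T A La u m hc hb hf H => ?_⟩
  have l := fst_law P N J
  have k := hC (NQ P N J) (fun v => (A v.1, La v.1, u v.1, m v.1)) (fun b => b.1.ν)
    (fun b i => (b.2.2.1 i).1) (fun b => b.1.h / 2 ^ c) (fun _ => 1 / 2 ^ c)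
    (fun _ => 2 / 2 ^ c') (fun b => b.1.J) (fun b => b.2.1)
    (fun _ => 1) (fun _ => 5 / 2 ^ M) (fun b => b.2.2.2) (vp g M c' J) fun v hv => by
      obtain ⟨⟨h1, h2, h3, Φ, h4, y, y1, y2⟩, h5, h6, ⟨s, s1, s2⟩, h8⟩ := H _ (l.mem hv)
      obtain ⟨b1, b2, -⟩ := hb _ (l.mem hv)
      have w := vp_mem g M c' J v
      obtain ⟨w1, w2⟩ := h8 _ w
      refine ⟨h1, fun i => C1.deg_PD _, by positivity, le_ratio hc, h2, h5, h6, ⟨_, _, b1, b2,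
          fun s ξ a b k => h3 _ (mem_seg.2 ⟨s, ξ, a, b, k, rfl⟩), ?_, ?_⟩,
        fun i => (norm_le_pi_norm _ i).trans w1, (det_dm _ _).symm ▸ w2⟩
      · obtain ⟨s, ξ, a, b, k, rfl⟩ := mem_seg.1 (seg_mono (r' := 5) (by norm_num) y1)
        exact ⟨Φ, s, ξ, h4, a, b, k, (det_dm _ _).symm ▸ y2⟩
      · rw [← s2] at w
        obtain ⟨t, ξ, a, b, k⟩ := seg_far hc (seg_mono (r' := 5) (by norm_num) w)
        exact ⟨t, ξ, s1 ▸ a, b, k⟩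
  have k1 := (ch_anti (F := cub g M c' J u m) (l.fn hf)).trans k
  rw [l fun ω => (N + 1) * (m ω * lg + Real.log (2 / 2 ^ c' / (1 / 2 ^ c))) + Real.log (La ω) -
    Real.log (A ω).J, log_ratio] at k1
  have k2 : P.E (fun ω => Real.log (A ω).J - Real.log (La ω)) + P.E (fun ω =>
      (N + 1) * (m ω * lg + (lg + ((c : ℝ) - c') * lg)) + Real.log (La ω) - Real.log (A ω).J) =
      (N + 1) * lg * P.E (fun ω => m ω) + (N + 1) * (lg + ((c : ℝ) - c') * lg) := by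
    rw [← P.E_add, ← P.E_mul, ← P.E_const ((N + 1) * (lg + ((c : ℝ) - c') * lg)), ← P.E_add]
    exact P.E_congr fun ω _ => by ring
  unfold gap
  simp only [id] at k1
  linarith

end Pool.Agent.MP_5168f5_an.QA
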