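import Pool.Agent.MP_5168f5_an.AN.N2Tri

/-! The Kakeya maximal estimate: frames for a two sided family of norms, definitions. -/

namespace Pool.Agent.MP_5168f5_an.QA.Fr

open H19 H17S H17F AN Filter
open G39 (dl)
open C1 (Dg Hb rho)
open GA (Mt)
open N2 (Uni Bd)

variable {V : Type} [AddCommGroup V] [Module ℝ V] {m : ℕ}

/-- A matrix acts on a family. -/
noncomputable def act (u : Mt (Fin m)) (f : Fin m → V) : Fin m → V := fun p => ∑ q, u p q • f q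

/-- The family spans. -/
def Sp (f : Fin m → V) : Prop := ∀ F, ∃ c : Fin m → ℝ, F = ∑ i, c i • f i

/-- Graded bounds for a matrix and its inverse. -/
def B2 (ρ : Fin m → ℝ) (c : ℝ) (g : Mt (Fin m)) : Prop := IsUnit g.det ∧ Bd ρ c g ∧ Bd ρ c g⁻¹

variable {Ω Λ : ℕ → Type} (P : ∀ n, FP (Ω n)) (M : ℕ → ℕ)

/-- Surely, up to a subexponential factor. -/
def Su (q : ∀ n, Ω n → ℝ → Prop) : Prop := ∃ Γ, Sub M Γ ∧ ∀ᶠ n in UF, ∀ ω ∈ (P n).S, q n ω (Γ n)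

/-- The depth `b` exceeds the depth `a` by more than every multiple of the unit. -/
def Far (a b : ℕ → ℝ) : Prop := ∀ K : ℝ, ∀ᶠ n in UF, a n + K * M n ≤ b n

variable (B : V → ℝ) (ν : ℚ → ∀ n, Ω n → V → ℝ)

/-- A Lipschitz family of norms whose axes against `B` have the depths `T a + la a * x * M`;
`kk` is the rank of the cluster. -/
structure NF (T : Fin m → ℕ → ℝ) (kk la : Fin m → ℝ) (Ga : ℝ) : Prop where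
  big : Big M
  hB : Hb B
  hν : ∀ x, ∀ᶠ n in UF, ∀ ω ∈ (P n).S, Hb (ν x n ω)
  near : ∀ a b, kk a = kk b → la a = la b ∧ Sm M fun n => T a n - T b n
  far : ∀ a b, kk a < kk b → Far M (T a) (T b)
  spec : ∀ x : ℚ, Su P M fun n ω Γ => ∃ f, Sp f ∧ Dg B f (fun a => Real.exp (T a n)) Γ ∧
    Dg (ν x n ω) f (fun a => dl M (la a * x) n) Γ
  lip : ∀ x x' : ℚ, Su P M fun n ω Γ => ∀ F,
    ν x n ω F ≤ Γ * Real.exp (Ga * |(x : ℝ) - x'| * M n) * ν x' n ω F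

/-- The same with relative volumes, before the clusters are separated. -/
structure NR (m : ℕ) (sg : ℕ → ℕ → ℝ) (sl : ℕ → ℝ) (Ga : ℝ) : Prop where
  big : Big M
  rk : Module.finrank ℝ V = m
  hB : Hb B
  hν : ∀ x, ∀ᶠ n in UF, ∀ ω ∈ (P n).S, Hb (ν x n ω)
  vol : ∀ (x : ℚ) (k : ℕ) (ε : ℝ), k ≤ m → 0 < ε → ∀ᶠ n in UF, ∀ ω ∈ (P n).S,
    |Real.log (rho k (ν x n ω) B) + sg k n + sl k * x * M n| ≤ ε * M n
  lip : ∀ x x' : ℚ, Su P M fun n ω Γ => ∀ F,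
    ν x n ω F ≤ Γ * Real.exp (Ga * |(x : ℝ) - x'| * M n) * ν x' n ω F

/-- Every offset is small or huge. -/
def Dich (T : Fin m → ℕ → ℝ) : Prop := ∀ a b, (Sm M fun n => T b n - T a n) ∨ Far M (T a) (T b)

/-- The pieces `O x` of the line, the point `pt`, the derivative `dr` along the line, the
constant `one` and the height `tt`; a piece of level `x` has length `dl M (s * x) / c`. -/
structure PT (O : ℚ → ∀ n, Ω n → Λ n) (one tt : V) (pt dr : ∀ n, Ω n → V →ₗ[ℝ] ℝ) (c : ℕ → ℝ)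
    (s : ℝ) : Prop where
  pos : 0 < s ∧ ∀ n, 0 < c n
  nest : ∀ x x', x ≤ x' → FnE P (O x) (O x')
  fn : ∀ x, FnE P (ν x) (O x)
  nrm : ∀ n ω, pt n ω one = 1 ∧ dr n ω one = 0 ∧ dr n ω tt = 1
  val : ∀ x, Su P M fun n ω Γ => ∀ F, |pt n ω F| ≤ Γ * ν x n ω F
  vB : Su P M fun n ω Γ => ∀ F, |pt n ω F| ≤ Γ * B F ∧ |dr n ω F| ≤ Γ * B F
  der : Su P M fun n ω Γ => ∀ F, |dr n ω F| ≤ Γ * c n * ν 0 n ω F
  mov : ∀ x y : ℚ, x ≤ y → Su P M fun n ω Γ => ∀ v ∈ (P n).S, O y n v = O y n ω → ∀ F,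
    |pt n ω F - pt n v F| ≤ Γ * dl M (s * (y - x)) n * ν x n ω F
  n1 : ∀ x, Su P M fun n ω Γ => ν x n ω one ≤ Γ
  thin : ∀ K : ℝ, ∀ᶠ n in UF, ∀ ω ∈ (P n).S, ∀ F, ∃ r : ℝ, ν 0 n ω (F - r • one) ≤ dl M K n * B F
  ht : ∀ x : ℚ, Su P M fun n ω Γ => c n * ν x n ω (tt - pt n ω tt • one) ≤ Γ * dl M (s * x) n

/-- One frame for `B` and for all levels. -/
structure FR (T : Fin m → ℕ → ℝ) (la : Fin m → ℝ) (f : ∀ n, Ω n → Fin m → V) : Prop where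
  sp : ∀ᶠ n in UF, ∀ ω ∈ (P n).S, Sp (f n ω)
  dB : Su P M fun n ω Γ => Dg B (f n ω) (fun a => Real.exp (T a n)) Γ
  dg : ∀ x : ℚ, Su P M fun n ω Γ => Dg (ν x n ω) (f n ω) (fun a => dl M (la a * x) n) Γ

/-- The model: a common label `TT` read at the level `-X`, its reference frame `e`, and the
position `j` in the unipotent group of the clusters. -/
structure Mod (T : Fin m → ℕ → ℝ) (kk la : Fin m → ℝ) (O : ℚ → ∀ n, Ω n → Λ n) (one tt : V)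
    (pt : ∀ n, Ω n → V →ₗ[ℝ] ℝ) (c : ℕ → ℝ) (s : ℝ) (o τ : Fin m) (R : ℝ) (X : ℕ → ℕ)
    (TT e : ∀ n, Ω n → Fin m → V) (t₀ : ∀ n, Ω n → ℝ) (j : ∀ n, Ω n → Mt (Fin m)) : Prop where
  ko : ∀ a, a ≠ o → kk o < kk a
  lo : la o = 0
  lτ : la τ = s
  ft : FnE P TT fun n => O (-X n) n
  few : ∀ x : ℚ, (∀ᶠ n in UF, |x| ≤ X n) → Su P M fun n ω Γ => ∃ U : Finset (Fin m → V),
    (U.card : ℝ) ≤ Γ ∧ ∀ v ∈ (P n).S, ν x n v = ν x n ω → TT n v ∈ U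
  fe : FnE P (fun n ω => (e n ω, t₀ n ω)) TT
  eo : ∀ᶠ n in UF, ∀ ω ∈ (P n).S, e n ω o = one ∧ e n ω τ = c n • (tt - t₀ n ω • one)
  uj : ∀ᶠ n in UF, ∀ ω ∈ (P n).S, Uni kk (j n ω)
  row : ∀ᶠ n in UF, ∀ ω ∈ (P n).S, ∀ q, q ≠ o → j n ω τ q = (1 : Mt (Fin m)) τ q
  bj : Su P M fun n ω Γ => B2 (fun a => Real.exp (R * X n * kk a * M n)) Γ (j n ω)
  fr : FR P M B ν T la fun n ω => act (j n ω)⁻¹ (e n ω)
  up : ∀ᶠ n in UF, ∀ ω ∈ (P n).S, ∀ v ∈ (P n).S, O (-X n) n v = O (-X n) n ω →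
    Uni la ((j n ω)⁻¹ * j n v)
  nb : ∀ x : ℚ, (∀ᶠ n in UF, -(X n : ℚ) ≤ x) → FnE P (fun n => O (-X n) n) (O x)
  inc : ∀ x : ℚ, (∀ᶠ n in UF, -(X n : ℚ) ≤ x) → Su P M fun n ω Γ => ∀ v ∈ (P n).S,
    O x n v = O x n ω → Bd (fun a => dl M (la a * x) n) Γ ((j n ω)⁻¹ * j n v)
  ev₀ : ∀ K : ℝ, ∀ᶠ n in UF, ∀ ω ∈ (P n).S, ∀ p,
    |pt n ω (act (j n ω)⁻¹ (e n ω) p) - (1 : Mt (Fin m)) p o| ≤ dl M K n
  ev : ∀ K : ℝ, ∀ᶠ n in UF, ∀ ω ∈ (P n).S, ∀ p, |pt n ω (e n ω p) - j n ω p o| ≤ dl M K n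

/-! ### Statements -/

/-- A slow zoom separates the clusters. -/
def SDich : Prop := ∀ (m : ℕ) (M : ℕ → ℕ) (T : Fin m → ℕ → ℝ), ∃ M₀ : ℕ → ℝ, Sm M M₀ ∧
  ∀ M' : ℕ → ℕ, (Sm M fun n => (M' n : ℝ)) → Sm M' M₀ → Dich M' T

/-- From volumes to axes. -/
def SAx : Prop := ∀ (V : Type) [AddCommGroup V] [Module ℝ V] [FiniteDimensional ℝ V] (m : ℕ)
  (Ω : ℕ → Type) (P : ∀ n, FP (Ω n)) (M : ℕ → ℕ) (B : V → ℝ) (ν : ℚ → ∀ n, Ω n → V → ℝ)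
  (sg : ℕ → ℕ → ℝ) (sl : ℕ → ℝ) (Ga : ℝ), NR P M B ν m sg sl Ga →
  (Dich M fun (a : Fin m) n => sg (a + 1) n - sg a n) →
  ∃ kk, NF P M B ν (fun (a : Fin m) n => sg (a + 1) n - sg a n) kk (fun a => sl (a + 1) - sl a) Ga

/-- The frame exists. -/
def SFr : Prop := ∀ (V : Type) [AddCommGroup V] [Module ℝ V] (m : ℕ) (Ω : ℕ → Type)
  (P : ∀ n, FP (Ω n)) (M : ℕ → ℕ) (B : V → ℝ) (ν : ℚ → ∀ n, Ω n → V → ℝ) (T : Fin m → ℕ → ℝ)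
  (kk la : Fin m → ℝ) (Ga : ℝ), NF P M B ν T kk la Ga → ∃ f, FR P M B ν T la f

/-- The model exists. -/
def SMod : Prop := ∀ (V : Type) [AddCommGroup V] [Module ℝ V] (m : ℕ) (Ω Λ : ℕ → Type)
  (P : ∀ n, FP (Ω n)) (M : ℕ → ℕ) (B : V → ℝ) (ν : ℚ → ∀ n, Ω n → V → ℝ) (T : Fin m → ℕ → ℝ)
  (kk la : Fin m → ℝ) (Ga : ℝ) (O : ℚ → ∀ n, Ω n → Λ n) (one tt : V)
  (pt dr : ∀ n, Ω n → V →ₗ[ℝ] ℝ) (c : ℕ → ℝ) (s : ℝ), NF P M B ν T kk la Ga →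
  PT P M B ν O one tt pt dr c s →
  ∃ o τ R, (∀ X : ℕ, ∃ TT e t₀ j, Mod P M B ν T kk la O one tt pt c s o τ R (fun _ => X) TT e t₀ j) ∧
    ∃ X TT e t₀ j, Big X ∧ Mod P M B ν T kk la O one tt pt c s o τ R X TT e t₀ j

end Pool.Agent.MP_5168f5_an.QA.Fr
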