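import Pool.Agent.MP_5168f5_an.QA.SpecF
import Pool.Agent.MP_5168f5_an.QA.FrDefs

/-! The maximal estimate in all dimensions: sure bounds for the norms of a tangent system. -/

namespace Pool.Agent.MP_5168f5_an.QA

open H19 H17S H17F R4 AN Filter MvPolynomial
open G39 (dl)

section One

variable {N D : ℕ} {Ω : Type}

/-- The constant one. -/
noncomputable def v1 : VD N D := ⟨1, (mem_restrictTotalDegree _ _ _).2 (by simp)⟩

/-- A coordinate; the coordinate `0` is the height. -/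
noncomputable def vx (i : Fin (N + 1)) : VD N D :=
  if h : 1 ≤ D then ⟨X i, (mem_restrictTotalDegree _ _ _).2 ((totalDegree_X i).trans_le h)⟩ else 0

/-- The value at `y`. -/
noncomputable def evV (y : V (N + 1)) : VD N D →ₗ[ℝ] ℝ where
  toFun F := eval y F.1
  map_add' F G := by simp
  map_smul' c F := by simp

/-- A directional derivative. -/
noncomputable def dk (i : Fin (N + 1)) : VD N D →ₗ[ℝ] VD N D where
  toFun F := ⟨pderiv i F.1, (mem_restrictTotalDegree _ _ _).2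
    ((Pk.kc.der F.1 D i (C1.deg_PD F)).2.trans (Nat.sub_le _ _))⟩
  map_add' F G := Subtype.ext (by simp)
  map_smul' c F := Subtype.ext (by simp)

/-- The derivative at `y` along `w`. -/
noncomputable def drV (y w : V (N + 1)) : VD N D →ₗ[ℝ] ℝ := ∑ i, w i • evV y ∘ₗ dk i

/-- The true point. -/
def Sh.tp (g : Sh N Ω) (ω : Ω) : V (N + 1) := Fin.cons (g.z ω) (g.a ω + g.z ω • g.e ω)

/-- The direction of the line. -/
def Sh.dv (g : Sh N Ω) (ω : Ω) : V (N + 1) := Fin.cons 1 (g.e ω)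

end One

section Seq

variable {N D : ℕ} (X : ℕ → St N D)

/-- The norms. -/
abbrev nuX : ℚ → ∀ n, (X n).Ω → VD N D → ℝ := fun x n ω => ((X n).S x ω).ν

/-- The value at the true point. -/
noncomputable abbrev ptX : ∀ n, (X n).Ω → VD N D →ₗ[ℝ] ℝ := fun n ω => evV ((X n).g.tp ω)

/-- The derivative along the line at the true point. -/
noncomputable abbrev drX : ∀ n, (X n).Ω → VD N D →ₗ[ℝ] ℝ :=
  fun n ω => drV ((X n).g.tp ω) ((X n).g.dv ω)

/-- Sure bounds: the cells are bounded, short, small, and of width `2^{-M}` in all lateral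
directions. -/
structure Sur : Prop where
  up : ∀ (x : ℚ) (ε : ℝ), 0 < ε → ∀ᶠ n in UF, ∀ ω ∈ (X n).P.S, ∀ F,
    nuX X x n ω F ≤ Real.exp (ε * (X n).u) * Bn F
  ht : ∀ (x : ℚ) (ε : ℝ), 0 < ε → ∀ᶠ n in UF, ∀ ω ∈ (X n).P.S,
    2 ^ (X n).lv x * nuX X x n ω (vx 0 - (X n).g.z ω • v1) ≤ Real.exp (ε * (X n).u)
  thin : ∀ (x : ℚ) (K : ℝ), ∀ᶠ n in UF, ∀ ω ∈ (X n).P.S, ∀ F,
    nuX X x n ω (F - ptX X n ω F • v1) ≤ dl (uu X) K n * Bn F
  ff : ∀ (x : ℚ) (ε : ℝ), 0 < ε → ∀ᶠ n in UF, ∀ ω ∈ (X n).P.S, ∀ (k : Fin N) F,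
    nuX X x n ω (dk k.succ F) ≤ Real.exp (ε * (X n).u) * 2 ^ (X n).M * nuX X x n ω F
  hb : ∀ x : ℚ, ∀ᶠ n in UF, ∀ ω ∈ (X n).P.S, C1.Hb (nuX X x n ω)

end Seq

/-- The sure bounds give the input of the frames. -/
def SEntA : Prop := ∀ (N D : ℕ) (X : ℕ → St N D) (η θ Γ : ℝ) (sl : ℕ → ℝ), 1 ≤ D →
  Tb X Set.univ η θ (fun k x => sl k * x) → Lip X Set.univ Γ → Sur X →
  Fr.NR (PP X) (uu X) Bn (nuX X) (dV N D) (fun k n => (X n).s0 k) sl Γ ∧
    Fr.PT (PP X) (uu X) Bn (nuX X) (fun x n => (X n).O x) v1 (vx 0) (ptX X) (drX X)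
      (fun n => 2 ^ (X n).lv 0) lg

/-- The sure bounds hold on an event of high probability. -/
def SEntB : Prop := SOpG → SNLV → ∀ (N D : ℕ) (X : ℕ → St N D) (η θ : ℝ) (σ : ℕ → ℚ → ℝ), ZL N D →
  1 ≤ D → 0 < η → η ≤ 1 → 0 ≤ θ → 2 * (dV N D + 1) * θ ≤ η ^ dV N D → Tb X Set.univ η θ σ →
  ∃ G : ∀ n, (X n).Ω → Prop, Whp (PP X) G ∧ Sur fun n => (X n).pull (cE (X n).P (G n)) id

/-- The sure bounds pass to every law on the support. -/
theorem Sur.pull {N D : ℕ} {X : ℕ → St N D} (h : Sur X) {W : ℕ → Type} {Q : ∀ n, FP (W n)}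
    {π : ∀ n, W n → (X n).Ω} (e : ∀ᶠ n in UF, ∀ v ∈ (Q n).S, π n v ∈ (X n).P.S) :
    Sur fun n => (X n).pull (Q n) (π n) :=
  ⟨fun x ε a => ((h.up x ε a).and e).mono fun _ b v hv => b.1 _ (b.2 v hv),
    fun x ε a => ((h.ht x ε a).and e).mono fun _ b v hv => b.1 _ (b.2 v hv),
    fun x K => ((h.thin x K).and e).mono fun _ b v hv => b.1 _ (b.2 v hv),
    fun x ε a => ((h.ff x ε a).and e).mono fun _ b v hv => b.1 _ (b.2 v hv),
    fun x => ((h.hb x).and e).mono fun _ b v hv => b.1 _ (b.2 v hv)⟩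

end Pool.Agent.MP_5168f5_an.QA
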