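import Pool.Agent.MP_5168f5_an.QA.ChSpec
import Pool.Agent.MP_5168f5_an.QA.En5D
import Pool.Agent.MP_5168f5_an.AN.N6Exp

/-! The Kakeya maximal estimate: orbits of points under boxes, finite statements. -/

namespace Pool.Agent.MP_5168f5_an.QA.Ob

open H19 H17S H17F R4 AN Filter Matrix IsNilpotent
open GA (Mt IsFr ex cm)
open N2 (tri)
open N6 (Eb PG)
open Ch (Orb vl)
open Fr (act Sp)
open En (tb)

variable {N D m : ℕ} {κ J : Type}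

/-- All coordinates are at most `θ`. -/
def Vb (θ : ℝ) (v : Fin m → ℝ) : Prop := ∀ q, |v q| ≤ θ

/-- The values of a frame of polynomials. -/
noncomputable abbrev ev (E : Fin m → VD N D) (y : V (N + 1)) : Fin m → ℝ := vl (fun q => (E q).1) y

/-- `φ` are the matrices of the lateral derivatives in the frame `E`. -/
def Ph (M : ℕ) (E : Fin m → VD N D) (φ : Fin N → Mt (Fin m)) : Prop :=
  ∀ j, act (φ j) E = fun p => ((2 : ℝ) ^ M)⁻¹ • dk j.succ (E p)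

open Classical in
/-- The strictly triangular part. -/
noncomputable def pj (kk : Fin m → ℝ) (A : Mt (Fin m)) : Mt (Fin m) :=
  of fun p q => if kk q < kk p then A p q else 0

theorem pj_mem (kk : Fin m → ℝ) (A : Mt (Fin m)) : pj kk A ∈ (tri kk).F 0 :=
  N2.mem_F0.2 fun _ _ h => if_neg h

variable [Fintype κ] [Fintype J]

/-- An exact frame with live indices and radii, and matrices `f` that almost commute with it. -/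
structure Al (kk : Fin m → ℝ) (B : κ → Mt (Fin m)) (c : κ → κ → κ → ℝ) (lv : κ → Prop)
    (ρ : κ → ℝ) (f : J → Mt (Fin m)) (L W θ : ℝ) : Prop where
  fr : IsFr (tri kk) B c
  one : 1 ≤ L
  le : L ≤ W
  pos : 0 < θ
  rho : ∀ a, 1 ≤ ρ a ∧ ρ a ≤ W
  bB : ∀ a, Eb L (B a)
  bc : ∀ a b e, |c a b e| ≤ L
  ll : ∀ a b e, lv a → lv b → lv e → |c a b e| * ρ a * ρ b ≤ L * ρ e
  ld : ∀ a b e, lv a → lv b → ¬lv e → |c a b e| ≤ θ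
  mf : ∀ j, f j ∈ (tri kk).F 0
  bf : ∀ j, Eb L (f j)
  cf : ∀ a j, lv a → Eb θ (cm (B a) (f j))
  ff : ∀ i j, Eb θ (cm (f i) (f j))

/-- `t` lies in the box. -/
def Bo (lv : κ → Prop) (ρ : κ → ℝ) (X θ : ℝ) (t : κ → ℝ) : Prop :=
  ∀ a, (lv a → |t a| ≤ X * ρ a) ∧ (¬lv a → |t a| ≤ θ)

/-- `y` lies near the orbit of `p`. -/
def Nb (B : κ → Mt (Fin m)) (lv : κ → Prop) (ρ : κ → ℝ) (f : J → Mt (Fin m)) (X θ : ℝ)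
    (p y : Fin m → ℝ) : Prop := ∃ (t : κ → ℝ) (ξ : J → ℝ), Bo lv ρ X θ t ∧ (∀ j, |ξ j| ≤ X) ∧
  Vb θ (y - ex B t *ᵥ (exp (∑ j, ξ j • f j) *ᵥ p))

/-- Functions of polynomial growth are bounded by a power. -/
def SPg : Prop := ∀ F : ℝ → ℝ, PG F → ∃ C : ℕ, 1 ≤ C ∧ ∀ L, 1 ≤ L → F L ≤ (C * L) ^ C

/-- Taylor's formula in a frame. -/
def STay : Prop := ∀ (N D m M : ℕ) (E : Fin m → VD N D), Sp E → (∃ φ, Ph M E φ) ∧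
  ∀ φ, Ph M E φ → (∀ u : Mt (Fin m), IsUnit u.det → Ph M (act u E) fun j => u * φ j * u⁻¹) ∧
    (LinearIndependent ℝ E → (∀ φ', Ph M E φ' → φ' = φ) ∧ (∀ i j, φ i * φ j = φ j * φ i) ∧
      ∀ ξ : V N, (∑ j, ξ j • φ j) ^ (D + 1) = 0 ∧ ∀ (a e ζ : V N) (t : ℝ),
        ev E (tb M a e t (ζ + ξ)) = exp (∑ j, ξ j • φ j) *ᵥ ev E (tb M a e t ζ))

/-- Nets for an exact frame. -/
def SNet0 : Prop := ∀ m k : ℕ, ∃ C : ℕ, 1 ≤ C ∧ ∀ (κ : Type) [Fintype κ] (b : κ → Mt (Fin m))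
  (η : ℝ), ∃ Ξ : (Fin m → ℝ) → Fin m → ℝ, ∀ (kk : Fin m → ℝ) (c : κ → κ → κ → ℝ) (L : ℝ),
  Fintype.card κ ≤ k → IsFr (tri kk) b c → 1 ≤ L → 0 < η → (∀ a a' e, |c a a' e| ≤ L) →
  (∀ a, Eb L (b a)) → (∀ q, ∃ t, Orb b (Ξ q) 1 ((C * L) ^ C * η) t q) ∧
    ∀ p X, L ≤ X → ∃ T : Finset (Fin m → ℝ), (T.card : ℝ) ≤ (C * X) ^ C ∧
      ∀ q t, Orb b p X (X * η) t q → Ξ q ∈ T

/-- One exact frame for the box and the matrices `f`. -/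
def SLet : Prop := ∀ m k : ℕ, ∃ C : ℕ, 1 ≤ C ∧ ∀ (κ J : Type) [Fintype κ] [Fintype J]
  (kk : Fin m → ℝ) (B : κ → Mt (Fin m)) (c : κ → κ → κ → ℝ) (lv : κ → Prop) (ρ : κ → ℝ)
  (f : J → Mt (Fin m)) (L W θ : ℝ), Fintype.card κ + Fintype.card J ≤ k →
  Al kk B c lv ρ f L W θ → (C * W) ^ C * θ ≤ 1 →
  ∃ (b : N2.El kk → Mt (Fin m)) (c' : N2.El kk → N2.El kk → N2.El kk → ℝ), IsFr (tri kk) b c' ∧
    (∀ a a' e, |c' a a' e| ≤ C * L) ∧ (∀ a, Eb (L * W) (b a)) ∧ ∀ (p y : Fin m → ℝ) (X : ℝ),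
    L ≤ X → (Nb B lv ρ f X (X * θ) p y → ∃ s, Orb b p ((C * X) ^ C) ((C * W * X) ^ C * θ) s y) ∧
      ∀ s η, 0 ≤ η → Vb X p → (C * W * X) ^ C * θ ≤ 1 → η ≤ 1 → Orb b p X η s y →
        Nb B lv ρ f X ((C * W * X) ^ C * (θ + η)) p y

/-- Nets for the unit box. -/
def SNet : Prop := ∀ m k : ℕ, ∃ C : ℕ, 1 ≤ C ∧ ∀ (κ J : Type) [Fintype κ] [Fintype J]
  (kk : Fin m → ℝ) (B : κ → Mt (Fin m)) (c : κ → κ → κ → ℝ) (lv : κ → Prop) (f : J → Mt (Fin m))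
  (L θ : ℝ), ∃ Ξ : (Fin m → ℝ) → Fin m → ℝ, Fintype.card κ + Fintype.card J ≤ k →
  Al kk B c lv 1 f L L θ → (C * L) ^ C * θ ≤ 1 →
  (∀ q, Vb L q → Vb ((C * L) ^ C) (Ξ q) ∧ Nb B lv 1 f ((C * L) ^ C) ((C * L) ^ C * θ) (Ξ q) q) ∧
    ∀ p X, L ≤ X → ∃ T : Finset (Fin m → ℝ), (T.card : ℝ) ≤ (C * X) ^ C ∧
      ∀ q, Nb B lv 1 f X (X * θ) p q → Ξ q ∈ T

/-- Two points whose orbits almost meet. -/
def SJoin : Prop := ∀ m k : ℕ, ∃ C : ℕ, 1 ≤ C ∧ ∀ (κ J : Type) [Fintype κ] [Fintype J]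
  (kk : Fin m → ℝ) (B : κ → Mt (Fin m)) (c : κ → κ → κ → ℝ) (lv : κ → Prop) (f : J → Mt (Fin m))
  (L θ : ℝ) (p p' y y' : Fin m → ℝ) (t : κ → ℝ), Fintype.card κ + Fintype.card J ≤ k →
  Al kk B c lv 1 f L L θ → (C * L) ^ C * θ ≤ 1 → Vb L p → Nb B lv 1 f L (L * θ) p y →
  Nb B lv 1 f L (L * θ) p' y' → Bo lv 1 L (L * θ) t → Vb (L * θ) (y - ex B t *ᵥ y') →
  Nb B lv 1 f ((C * L) ^ C) ((C * L) ^ C * θ) p p'

/-- The matrices of the derivatives in the reference frame. -/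
def SPh : Prop := ∀ m k : ℕ, ∃ C : ℕ, 1 ≤ C ∧ ∀ (κ J : Type) [Fintype κ] [Fintype J]
  (kk : Fin m → ℝ) (B : κ → Mt (Fin m)) (c : κ → κ → κ → ℝ) (lv : κ → Prop) (g s : κ → ℝ)
  (ψ φ : J → Mt (Fin m)) (L W θ : ℝ), Fintype.card κ ≤ k → IsFr (tri kk) B c → 1 ≤ L → L ≤ W →
  0 ≤ θ → (C * W) ^ C * θ ≤ 1 → (∀ a, Eb L (B a)) → (∀ a, |s a| ≤ L) → Bo lv 1 W θ g →
  (∀ j, Eb L (ψ j) ∧ Eb θ (ψ j - pj kk (ψ j))) → (∀ i j, ψ i * ψ j = ψ j * ψ i) →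
  (∀ j, φ j = ex B g * ex B s * ψ j * ex B (-s) * ex B (-g)) →
  (∀ a j, lv a → Eb θ (cm (B a) (φ j))) → ∀ j, Eb ((C * L) ^ C) (pj kk (φ j)) ∧
    Eb ((C * W) ^ C * θ) (φ j - pj kk (φ j)) ∧
    Eb ((C * W) ^ C * θ) (ex B s * ψ j * ex B (-s) - pj kk (φ j)) ∧
    (∀ a, lv a → Eb ((C * W) ^ C * θ) (cm (B a) (pj kk (φ j)))) ∧
    ∀ i, Eb ((C * W) ^ C * θ) (cm (pj kk (φ i)) (pj kk (φ j)))

/-- A matrix that almost commutes with an exponential almost commutes with the logarithm. -/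
def SLog : Prop := ∀ m : ℕ, ∃ C : ℕ, 1 ≤ C ∧ ∀ (la : Fin m → ℝ) (Z φ : Mt (Fin m)) (L θ : ℝ),
  Z ∈ (tri la).F 0 → 1 ≤ L → 0 ≤ θ → Eb L Z → Eb θ (cm (exp Z) φ) → Eb ((C * L) ^ C * θ) (cm Z φ)

def OfLet : Prop := SPg → SLet
def OfNet : Prop := SNet0 → SLet → SNet
def OfJoin : Prop := SLet → SJoin
def OfPh : Prop := SPg → SPh

end Pool.Agent.MP_5168f5_an.QA.Ob
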