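import Pool.Agent.MP_5168f5_an.QA.Vh
import Pool.Agent.MP_5168f5_an.QA.OrbSpec
import Pool.Agent.MP_5168f5_an.QA.Bd
import Pool.Agent.MP_5168f5_an.QA.GapLow

/-! The values of the own frame on a tube. -/

namespace Pool.Agent.MP_5168f5_an.QA.Vh

open H19 H17S H17F R4 AN AN.GA AN.N6 IsNilpotent Finset Filter Matrix
open G39 (dl)
open N2 (El eW tri)
open En (tb)
open AB Ob

variable {N D m : ℕ}

theorem dg_li {f : Fin m → VD N D} {l : Fin m → ℝ} {L : ℝ} (k : C1.Dg Bn f l L)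
    (h0 : ∀ p, 0 < l p) : LinearIndependent ℝ f :=
  Fintype.linearIndependent_iff.2 fun c e i => by
    have := k.2 c i
    obtain ⟨ι, _, A, -, a⟩ := BdA.hb_Bn (N := N) (D := D)
    rw [e, a, map_zero, norm_zero, mul_zero] at this
    exact abs_nonpos_iff.1 (nonpos_of_mul_nonpos_left this (h0 i))

theorem lpt_eq (X : St N D) (ω : X.Ω) (t : ℝ) :
    lpt X ω (2 ^ X.lv 0 * (t - X.g.z ω)) = tb X.M (X.g.a ω) (X.g.e ω) t 0 := by
  have e : 2 ^ X.lv 0 * (t - X.g.z ω) * (2 ^ X.lv 0)⁻¹ = t - X.g.z ω := by field_simp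
  funext i
  rw [lpt, e]
  refine Fin.cases ?_ (fun j => ?_) i <;> simp [Sh.dv, Sh.tp, tb]
  ring

variable {kk la : Fin m → ℝ} {o τ : Fin m} {S : Finset (El la)} {C L : ℝ} {X : ℕ → St N D}
  {F : ∀ n, Fd N D m (X n).Ω} {A : ∀ n, (X n).Ω → El la → El la → ℝ}

/-- The line is the orbit of a long letter. -/
theorem cur (big : Big (uu X)) (h1 : L1 kk la o τ S C L X F A) (h2 : L2 la o τ X F A)
    (h3 : L3 la o τ X F A) (K T : ℝ) {ε : ℝ} (hε : 0 < ε) : ∀ᶠ n in UF, ∀ ω ∈ (X n).P.S, ∃ a,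
    Real.exp (-(ε * (X n).u)) ≤ |lt la (A n ω) a τ o| ∧ ∀ s, |s| ≤ Real.exp (T * (X n).u) →
      Vb (dl (uu X) K n) (ev ((F n).f ω) (lpt (X n) ω s) -
        exp ((s / lt la (A n ω) a τ o) • lt la (A n ω) a) *ᵥ Pi.single o 1) := by
  have t0 := abs_nonneg T
  filter_upwards [big.ev (D + m + 2 : ℕ), big.ev C, h1.mem, h2.long ε hε,
    h3.zero (K + (4 * (D + m) + 1 : ℕ) * (|T| + ε + 1)),
    h3.r6 (K + (4 * (D + m) + 1 : ℕ) * (|T| + ε + 1))] with n a1 a2 a3 a4 a5 a6 ω hω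
  obtain ⟨a, b⟩ := a4 ω hω
  refine ⟨a, b, fun s hs p => ?_⟩
  have u0 : (0 : ℝ) ≤ (X n).u := Nat.cast_nonneg _
  have w1 : ((X n).u : ℝ) ≤ Real.exp ((|T| + ε + 1) * (X n).u) :=
    le_trans (by nlinarith) (Real.add_one_le_exp _)
  have k := curve (D := D) (w := jet (X n) (F n) ω) (o := o) (s := s) (a3 ω hω a).1 (a1.trans w1)
    (Real.exp_pos _).le (fun q r => (((a3 ω hω a).2.2.2 r q).1.trans a2).trans w1)
    (le_trans (by rw [← Real.exp_add]; exact Real.one_le_exp (by nlinarith))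
      (mul_le_mul_of_nonneg_left b (Real.exp_pos _).le))
    (hs.trans (Real.exp_le_exp.2 (by nlinarith [le_abs_self T]))) (h3.top n ω) (a5 ω hω)
    (a6 ω hω a) p
  rw [← eval_jet _ _ _ (h3.top n ω), ← Real.exp_nat_mul, ← Real.exp_add] at k
  rw [Pi.sub_apply, mulVec_single_one]
  exact k.trans_eq (congrArg _ (by ring))

/-- Every point of the tube of level `x` is reached by a long letter and the lateral
derivatives. -/
theorem vh (hT : Ob.STay) (big : Big (uu X)) (mi : MI kk la o τ X F)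
    (h1 : L1 kk la o τ S C L X F A) (h2 : L2 la o τ X F A) (h3 : L3 la o τ X F A) (K r : ℝ)
    {ε T : ℝ} (hε : 0 < ε) {x : ℚ}
    (hx : ∀ᶠ n in UF, (2 : ℝ) ^ (X n).lv 0 ≤ Real.exp (T * (X n).u) * 2 ^ (X n).lv x) :
    ∀ᶠ n in UF, ∀ ω ∈ (X n).P.S, ∃ a ∈ S, eW la a = H17S.lg ∧ ∀ ψ, Ph (X n).M ((F n).f ω) ψ →
    ∀ y ∈ seg (X n).M ((X n).lv x) ((X n).g.l ω) ((X n).g.zc ((X n).lv x) ω) r,
    ∃ (ξ : V N) (s : ℝ) (e : Fin m → ℝ), ‖ξ‖ ≤ r ∧ |s| ≤ Real.exp ((T + ε) * (X n).u) ∧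
      Vb (dl (uu X) K n) e ∧ (∑ j, ξ j • ψ j) ^ (D + 1) = 0 ∧ ev ((F n).f ω) y =
        exp (∑ j, ξ j • ψ j) *ᵥ (exp (s • lt la (A n ω) a) *ᵥ Pi.single o 1 + e) := by
  obtain ⟨Γ, -, hB⟩ := mi.dB
  filter_upwards [cur big h1 h2 h3 K T hε, h1.mem, mi.sp, hB, hx] with n a1 a2 a3 a4 a5 ω hω
  obtain ⟨a, b, c⟩ := a1 ω hω
  have x0 := (Real.exp_pos _).trans_le b
  have x1 := ((a2 ω hω a).2.2.2 τ o).2 (abs_pos.1 x0)
  refine ⟨a, x1.1, by rw [← x1.2, mi.lo, mi.lτ, sub_zero], ?_⟩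
  rintro ψ hψ y ⟨t, ξ, t1, t2, k, rfl⟩
  have p : (0 : ℝ) < 2 ^ (X n).lv x := by positivity
  obtain ⟨z1, z2⟩ := fl1_near ((X n).lv x) ((X n).g.z ω)
  rw [div_le_iff₀' p] at z1
  rw [← add_div, le_div_iff₀' p] at z2
  have s0 : 2 ^ (X n).lv x * |t - (X n).g.z ω| ≤ 1 := by
    rw [← abs_of_pos p, ← abs_mul, mul_sub, abs_le]
    exact ⟨by linarith [show (fl1 ((X n).lv x) ((X n).g.z ω) : ℝ) ≤ _ from t1],
      by linarith [show _ ≤ (fl1 ((X n).lv x) ((X n).g.z ω) : ℝ) + 1 from t2]⟩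
  have s1 : |2 ^ (X n).lv 0 * (t - (X n).g.z ω)| ≤ Real.exp (T * (X n).u) := by
    rw [abs_mul, abs_of_pos (by positivity)]
    exact (mul_le_mul_of_nonneg_right a5 (abs_nonneg _)).trans (by
      rw [mul_assoc]; exact mul_le_of_le_one_right (Real.exp_pos _).le s0)
  have q := ((hT N D m _ _ (a3 ω hω)).2 ψ hψ).2 (dg_li (a4 ω hω) fun _ => Real.exp_pos _)
  refine ⟨ξ, 2 ^ (X n).lv 0 * (t - (X n).g.z ω) / lt la (A n ω) a τ o, _, k, ?_, c _ s1,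
    (q.2.2 ξ).1, ?_⟩
  · rw [abs_div, div_le_iff₀ x0]
    exact s1.trans (le_trans (by rw [← Real.exp_add]; exact le_of_eq (congrArg _ (by ring)))
      (mul_le_mul_of_nonneg_left b (Real.exp_pos _).le))
  · rw [add_sub_cancel, lpt_eq]
    have := (q.2.2 ξ).2 ((X n).g.a ω) ((X n).g.e ω) 0 t
    rwa [zero_add] at this

end Pool.Agent.MP_5168f5_an.QA.Vh
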