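import Pool.Agent.MP_5168f5_an.QA.P5OrbD
import Pool.Agent.MP_5168f5_an.QA.OrbAl
import Pool.Agent.MP_5168f5_an.QA.FlApi
import Pool.Agent.MP_5168f5_an.QA.Vh0
import Pool.Agent.MP_5168f5_an.QA.Let2
import Pool.Agent.MP_5168f5_an.QA.FrAlg

/-! The maximal estimate in all dimensions: the algebra of the unit box. -/

namespace Pool.Agent.MP_5168f5_an.QA.P5

open H19 H17S H17F R4 AN Filter Matrix IsNilpotent
open GA (Mt IsFr ex cm)
open N2 (tri)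
open N6 (Eb PG pg_id pg_const pg_nat pg_box)
open Fl (Sg Bd Fd One)
open Ob (pj Bo)
open Lt Ob.OrbPhA

namespace OaA

variable {m : ℕ}

theorem pgx {F : ℝ → ℝ} (h : PG F) {a : ℝ} (ha : 0 ≤ a) : ∃ C : ℝ, 1 ≤ C ∧ a ≤ C ∧
    ∀ x, 1 ≤ x → F (Real.exp (a * x)) ≤ Real.exp (C * x) := by
  obtain ⟨K, hK, H⟩ := Ob.sPg F h
  have k1 : (1 : ℝ) ≤ K := by exact_mod_cast hK
  exact ⟨K * (K + a), by nlinarith, by nlinarith, fun x hx =>
    (H _ (Real.one_le_exp (by positivity))).trans (Fl.FlOut.pw hx)⟩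

/-- Conjugation by an element of the live box. -/
theorem cj (m k : ℕ) : ∃ e, PG e ∧ ∀ (κ : Type) [Fintype κ] (kk : Fin m → ℝ)
    (B : κ → Mt (Fin m)) (c : κ → κ → κ → ℝ) (lv : κ → Prop) (g : κ → ℝ) (ψ : Mt (Fin m))
    (W θ : ℝ), Fintype.card κ ≤ k → IsFr (tri kk) B c → 1 ≤ W → 0 ≤ θ → θ ≤ 1 →
    (∀ a, Eb W (B a)) → Bo lv 1 W θ g → Eb W ψ → (∀ a, lv a → Eb θ (cm (B a) ψ)) →
    Eb (e W * θ) (ex B g * ψ * ex B (-g) - ψ) := by
  obtain ⟨a, ha, h⟩ := ex_eb m k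
  have h2 : PG fun _ => 2 * (m + 1 : ℝ) := (pg_const one_le_two).mul (pg_nat m)
  have hz : PG fun L => (k + 1) * (L * L) := (pg_nat k).mul (pg_id.mul pg_id)
  refine ⟨_, ((pg_nat m).mul (((pg_nat m).mul ((h2.mul hz).pow m)).mul
    ((pg_nat k).mul ((h2.mul pg_id).mul pg_id)))).mul ha,
    fun κ _ kk B c lv g ψ W θ hk hB hW h0 h1 eB hg eψ cψ => ?_⟩
  have hg' : ∀ a, |g a| ≤ W := fun a => by
    by_cases u : lv a
    exacts [by simpa using (hg a).1 u, ((hg a).2 u).trans (h1.trans hW)]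
  have W0 := zero_le_one.trans hW
  have m1 : 1 ≤ 2 * (m + 1 : ℝ) * W := one_le_mul_of_one_le_of_one_le (h2.1 W hW) hW
  have c1 : Eb ((k + 1) * (2 * (m + 1) * W * W * θ)) (cm (GA.vec B g) ψ) := by
    rw [GA.vec, cm_sum]
    refine eb_vec hk (by positivity) fun i => ?_
    by_cases u : lv i
    · refine eb_mono (eb_smul (cψ i u) (hg' i)) ?_
      nlinarith [mul_nonneg W0 h0]
    · exact eb_mono (eb_smul (eb_cm (eB i) eψ W0 W0) ((hg i).2 u)) (le_of_eq (by ring))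
  have c3 := eb_mul (cm_exp (hB.mem g) (eb_vec hk (by positivity) fun i => eb_smul (eB i) (hg' i))
    c1 (hz.1 W hW) (by positivity)) (h κ kk B c g W hk hB hW eB hg').2 (by positivity) (ha.nn hW)
  have e3 : cm (exp (GA.vec B g)) ψ * ex B (-g) = ex B g * ψ * ex B (-g) - ψ := by
    change cm (ex B g) ψ * _ = _
    rw [cm, sub_mul, mul_assoc ψ, ((GA.sMul _ _ _ B c hB).neg g).2, mul_one]
  exact eb_mono (e3 ▸ c3) (le_of_eq (by ring))

theorem conj_pow {G A : Mt (Fin m)} (h : IsUnit G.det) (i : ℕ) :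
    (G⁻¹ * A * G) ^ i = G⁻¹ * A ^ i * G := by
  induction i with
  | zero => rw [pow_zero, pow_zero, mul_one, nonsing_inv_mul _ h]
  | succ i ih =>
    rw [_root_.pow_succ, ih, _root_.pow_succ]
    simp only [mul_assoc, mul_nonsing_inv_cancel_left _ _ h]

theorem row {kk : Fin m → ℝ} {o : Fin m} (ko : ∀ a, a ≠ o → kk o < kk a) {X : Mt (Fin m)}
    (h : X ∈ (tri kk).F 0) (q : Fin m → ℝ) : (exp X *ᵥ q) o = q o := by
  have : exp X o = (1 : Mt (Fin m)) o := funext fun r => N2.uni_iff.2 ((tri kk).exp_sub_one h) o r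
    fun k => (eq_or_ne r o).elim (fun e => lt_irrefl _ (e ▸ k)) fun e => (ko r e).not_gt k
  rw [mulVec, this, ← mulVec, one_mulVec]

/-- The statement on one space. -/
theorem one (hR : Ob.SPrt) (D : ℕ) {κ α : Type} (J : Type) [Fintype κ] [DecidableEq κ] [Fintype J]
    (σ : Sg (Fin m) κ α) {kk : Fin m → ℝ} (hΦ : σ.Φ = tri kk) (fr : IsFr σ.Φ σ.B σ.c) {W : ℝ}
    (hW : 0 ≤ W) (o : Fin m) : ∃ C : ℝ, 1 ≤ C ∧ ∀ (Ω Λ Θ Ξ : Type) (b : Bd (Fin m) κ α Ω Θ Ξ)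
    (d : Fd (Fin m) κ α Ω) (P : FP Ω) (O : Ω → Λ) (μ : κ → ℝ) (γ : κ → ℕ) (R u w : ℝ)
    (φ : J → Mt (Fin m)) (ω : Ω), (∀ a, 0 ≤ μ a ∧ μ a ≤ W) → 0 ≤ R → 1 ≤ u → C * (u + R) ≤ w →
    One σ b d P O μ γ R u w → ω ∈ P.S →
    (∀ j p q, |((d.G σ b ω)⁻¹ * φ j * d.G σ b ω) p q| ≤ Real.exp u ∧
      (¬kk q < kk p → |((d.G σ b ω)⁻¹ * φ j * d.G σ b ω) p q| ≤ Real.exp (-w)) ∧ ∀ a, 0 < μ a →
        |cm (d.B σ ω a) ((d.G σ b ω)⁻¹ * φ j * d.G σ b ω) p q| ≤ Real.exp (-w)) →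
    (∀ i j, φ i * φ j = φ j * φ i) → (∀ ξ : J → ℝ, (∑ j, ξ j • φ j) ^ (D + 1) = 0) →
    Ob.Al kk (d.B σ ω) (d.c σ ω) (fun a => 0 < μ a) 1 (fun j => pj kk ((d.E ω)⁻¹ * φ j * d.E ω))
      (Real.exp (C * u)) (Real.exp (C * u)) (Real.exp (-(w - C * (u + R)))) ∧
    Ob.Vb (Real.exp (C * u)) (ex (d.B σ ω) (d.k ω) *ᵥ Pi.single o 1) ∧
    ∀ ξ : J → ℝ, (∀ j, |ξ j| ≤ Real.exp R) → Eb (Real.exp (-(w - C * (u + R))))
      (exp (∑ j, ξ j • ((d.G σ b ω)⁻¹ * φ j * d.G σ b ω)) -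
        exp (∑ j, ξ j • pj kk ((d.E ω)⁻¹ * φ j * d.E ω))) := by
  obtain ⟨K, hK, H⟩ := Ob.ofPh Ob.sPg m (Fintype.card κ)
  obtain ⟨K', hK', H'⟩ := hR m D
  obtain ⟨A, hA, HB⟩ := Ob.AlA.bB σ.B
  obtain ⟨e, he, He⟩ := cj m (Fintype.card κ)
  obtain ⟨a, ha, Ha⟩ := ex_eb m (Fintype.card κ)
  have g1 := (pg_const le_rfl).add ((((pg_const one_le_two).mul (pg_nat m)).mul pg_id).mul he)
  have g2 := (pg_box hK).mul g1
  have g3 := ((pg_nat (Fintype.card J)).mul pg_id).mul g2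
  have g0 := (pg_nat (Fintype.card J)).mul (pg_id.mul (pg_box hK))
  have g4 := ((pg_box hK').comp g0).mul g3
  obtain ⟨C₁, c1, c1', h₁⟩ := pgx g4 (a := A + W) (by linarith)
  obtain ⟨C₂, c2, c2', h₂⟩ := pgx ((pg_box hK).add ha) (a := A) (by linarith)
  refine ⟨C₁ + C₂, by linarith, fun Ω Λ Θ Ξ b d P O μ γ R u w φ ω hμ hR hu hw h hω h1 h2 h3 => ?_⟩
  have f1 : IsFr (tri kk) (d.B σ ω) (d.c σ ω) :=
    hΦ ▸ ((GA.sFr _ _ σ.Φ σ.B σ.c).2 _ _ (h.inv ω hω)).1 fr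
  have mu := GA.sMul _ _ _ _ _ f1
  have un : ∀ t, IsUnit (ex (d.B σ ω) t).det := fun t => isUnit_det_of_right_inverse (mu.neg t).2
  have uE : IsUnit (d.E ω).det := (isUnit_iff_isUnit_det _).1 (h.uE ω hω)
  have eG : d.G σ b ω = d.E ω * ex (d.B σ ω) (d.g ω) := by
    rw [Fd.G, h.fac ω hω, mul_assoc, (mu.neg _).2, mul_one]
  have uG : IsUnit (d.G σ b ω).det := by rw [eG, det_mul]; exact uE.mul (un _)
  set ψ : J → Mt (Fin m) := fun j => (d.G σ b ω)⁻¹ * φ j * d.G σ b ω with hψ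
  have eP : ∀ j, (d.E ω)⁻¹ * φ j * d.E ω = ex (d.B σ ω) (d.g ω) * ψ j * ex (d.B σ ω) (-d.g ω) :=
    fun j => by
      simp only [hψ, eG, Matrix.mul_inv_rev, inv_eq_right_inv (mu.neg _).2, mul_assoc]
      rw [(mu.neg _).2, mul_one, ← mul_assoc (ex _ (d.g ω)), (mu.neg _).2, one_mul]
  set L := Real.exp (A * u) with hL
  set X := Real.exp ((A + W) * (u + R)) with hX
  set θ := Real.exp (-w) with hθ
  have θ0 : 0 < θ := Real.exp_pos _
  have a1 : u ≤ A * u := le_mul_of_one_le_left (by linarith) hA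
  have l1 : 1 ≤ L := Real.one_le_exp (by linarith)
  have lX : L ≤ X := Real.exp_le_exp.2 (by nlinarith [mul_nonneg hW hR])
  have rX : Real.exp R ≤ X := Real.exp_le_exp.2 (by nlinarith [mul_nonneg hW hR])
  have x1 := l1.trans lX
  have eu : Real.exp u ≤ L := Real.exp_le_exp.2 a1
  have p1 := mul_le_mul_of_nonneg_right (h₁ (u + R) (by linarith)) θ0.le
  have p2 : Real.exp (C₁ * (u + R)) * θ ≤ Real.exp (-(w - (C₁ + C₂) * (u + R))) := by
    rw [← Real.exp_add]; exact Real.exp_le_exp.2 (by nlinarith)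
  have p3 : Real.exp (-(w - (C₁ + C₂) * (u + R))) ≤ 1 := Real.exp_le_one_iff.2 (by linarith)
  have p4 := (h₂ u hu).trans (Real.exp_le_exp.2 (show C₂ * u ≤ (C₁ + C₂) * u by nlinarith))
  have eA : L ≤ Real.exp ((C₁ + C₂) * u) := Real.exp_le_exp.2 (by nlinarith)
  have b1 := g1.1 X x1
  have b2 := (pg_box hK).1 X x1
  have b3 := ((pg_nat (Fintype.card J)).mul pg_id).1 X x1
  have b4 := ((pg_box hK').comp g0).1 X x1
  have b5 := (pg_box hK).1 L l1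
  have b6 := ha.1 L l1
  have b7 : ((K : ℝ) * L) ^ K ≤ (K * X) ^ K := by gcongr
  beta_reduce at p1 p4 b1 b2 b3 b4 b5
  rw [← hX] at p1
  rw [← hL] at p4
  set t₁ := (1 + 2 * (m + 1) * X * e X) * θ with ht₁
  set t₂ := ((K : ℝ) * X) ^ K * t₁ with ht₂
  set t₃ := (Fintype.card J + 1) * X * t₂ with ht₃
  have q1 : θ ≤ t₁ := le_mul_of_one_le_left θ0.le b1
  have q2 : t₁ ≤ t₂ := le_mul_of_one_le_left (by linarith) b2
  have q3 : t₂ ≤ t₃ := le_mul_of_one_le_left (by linarith) b3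
  have q4 : t₃ ≤ _ * t₃ := le_mul_of_one_le_left (by linarith) b4
  have q5 : ((K' : ℝ) * ((Fintype.card J + 1) * (X * (K * X) ^ K))) ^ K' * t₃ ≤
      Real.exp (-(w - (C₁ + C₂) * (u + R))) := le_trans (le_of_eq (by simp only [ht₃, ht₂, ht₁]; ring))
    (p1.trans p2)
  have bB : ∀ a, Eb L (d.B σ ω a) := HB (d.U ω) u hu fun a e => (h.bU ω hω a e).1
  have bg : Bo (fun a => 0 < μ a) 1 X θ (d.g ω) := fun a => ⟨fun k => ((h.bg ω hω a).1 k).trans (by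
      rw [Pi.one_apply, mul_one]
      exact Real.exp_le_exp.2 (by nlinarith [(hμ a).2, mul_nonneg hW hR])),
    fun k => (h.bg ω hω a).2 (le_antisymm (not_lt.1 k) (hμ a).1)⟩
  have bψ : ∀ j, Eb L (ψ j) := fun j q p => (h1 j p q).1.trans eu
  have key := H κ J kk (d.B σ ω) (d.c σ ω) (fun a => 0 < μ a) (d.g ω) 0 ψ
    (fun j => (d.E ω)⁻¹ * φ j * d.E ω) L X t₁ le_rfl f1 l1 lX (by linarith) (by linarith) bB
    (fun a => by simpa using zero_le_one.trans l1)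
    (fun a => ⟨(bg a).1, fun k => ((bg a).2 k).trans q1⟩)
    (fun j => ⟨bψ j, fun q p => by
      rw [Matrix.sub_apply, pj, of_apply]
      split_ifs with k
      exacts [by simpa using θ0.le.trans q1, by simpa using ((h1 j p q).2.1 k).trans q1]⟩)
    (fun i j => by
      simp only [hψ, mul_assoc, mul_nonsing_inv_cancel_left _ _ uG]
      rw [← mul_assoc (φ i), ← mul_assoc (φ j), h2])
    (fun j => by rw [neg_zero, mu.zero, mul_one, mul_one, eP]) fun a j k => by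
      have s := He κ kk _ _ _ (d.g ω) (ψ j) X θ le_rfl f1 x1 θ0.le (by linarith)
        (fun a => eb_mono (bB a) lX) bg (eb_mono (bψ j) lX) fun a k q p => (h1 j p q).2.2 a k
      have := eb_add (X := cm (d.B σ ω a) (ψ j)) (fun q p => (h1 j p q).2.2 a k)
        (eb_cm (eb_mono (bB a) lX) s (by linarith) (mul_nonneg (he.nn x1) θ0.le))
      rw [eP]
      exact eb_mono ((congrArg _ (by unfold cm; noncomm_ring)).mp this) (le_of_eq (by ring))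
  refine ⟨⟨f1, l1.trans eA, le_rfl, Real.exp_pos _, fun a => ⟨le_rfl, l1.trans eA⟩,
    fun a => eb_mono (bB a) eA, fun a a' e => (h.bc ω hω a a' e).trans (eu.trans eA),
    fun a a' e _ _ _ => by simpa using (h.bc ω hω a a' e).trans (eu.trans eA), fun a a' e s t v =>
      (h.fil ω hω a a' e (Or.inl ⟨s, t, by linarith [not_lt.1 v]⟩)).trans (by linarith),
    fun j => Ob.pj_mem _ _, fun j => eb_mono (key j).1 (by linarith),
    fun a j k => eb_mono ((key j).2.2.2.1 a k) (by linarith),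
    fun i j => eb_mono ((key j).2.2.2.2 i) (by linarith)⟩, fun p => ?_, fun ξ hξ => ?_⟩
  · rw [mulVec_single_one]
    exact ((Ha κ kk _ _ (d.k ω) _ le_rfl f1 l1 bB fun i => (h.bk ω hω i).trans eu).1 o p).trans
      (by linarith)
  refine eb_mono (H' kk _ _ _ t₃ ?_ (comb_mem (fun j => Ob.pj_mem _ _) ξ) (g0.1 X x1) (by linarith)
    (by linarith) (eb_vec le_rfl (by positivity) fun j =>
      eb_smul (eb_mono (key j).1 b7) ((hξ j).trans rX)) ?_) q5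
  · rw [show ∑ j, ξ j • ψ j = (d.G σ b ω)⁻¹ * (∑ j, ξ j • φ j) * d.G σ b ω by
      simp only [hψ, Finset.mul_sum, Finset.sum_mul, mul_smul_comm, smul_mul_assoc],
      conj_pow uG, h3, mul_zero, zero_mul]
  rw [← Finset.sum_sub_distrib, ht₃, mul_assoc]
  refine eb_vec le_rfl (mul_nonneg (by linarith) (by linarith)) fun j => ?_
  have := (key j).2.2.1
  rw [neg_zero, mu.zero, mul_one, one_mul] at this
  rw [← smul_sub]
  exact eb_smul this ((hξ j).trans rX)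

theorem li_act {V : Type} [AddCommGroup V] [Module ℝ V] {f : Fin m → V} {u : Mt (Fin m)}
    (h : LinearIndependent ℝ (Fr.act u f)) (hu : IsUnit u.det) : LinearIndependent ℝ f :=
  Fintype.linearIndependent_iff.2 fun c e i => by
    have := funext (Fintype.linearIndependent_iff.1 h (c ᵥ* u⁻¹) (by
      rw [Fr.sum_act, vecMul_vecMul, nonsing_inv_mul _ hu, vecMul_one, e]))
    rw [← vecMul_one c, ← nonsing_inv_mul _ hu, ← vecMul_vecMul, this]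
    simp [vecMul]

variable {N D : ℕ} {π : Pa m}

/-- The first frame is a basis and `φ` are the matrices of the derivatives. -/
theorem ph (hT : Ob.STay) {Y : ℕ → Bs N D π} (h : M4 Y) : ∀ᶠ n in UF, ∀ ω ∈ (Y n).X.P.S,
    Fr.Sp ((Y n).F.E ω) ∧ LinearIndependent ℝ ((Y n).F.E ω) ∧
      Ob.Ph (Y n).X.M ((Y n).F.E ω) ((Y n).φ ω) := by
  obtain ⟨Γ, -, g⟩ := h.fm.dB
  filter_upwards [g, h.fm.sp, h.fm.uj] with n a b c ω hω
  have u := (c ω hω).det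
  have s : Fr.Sp ((Y n).F.E ω) := by
    have := Fr.Sp.act (b ω hω) u
    rwa [AB.Fd.f, ← Fr.act_mul, mul_nonsing_inv _ u, Fr.act_one] at this
  obtain ⟨φ, k⟩ := (hT N D m (Y n).X.M _ s).1
  exact ⟨s, li_act (Vh.dg_li (a ω hω) fun _ => Real.exp_pos _) (c ω hω).inv.det, fun j =>
    funext fun p => (Classical.epsilon_spec (p := fun φ : Mt (Fin m) => ∀ p,
      ((2 : ℝ) ^ (Y n).X.M)⁻¹ • dk j.succ ((Y n).F.E ω p) = Fr.act φ ((Y n).F.E ω) p)
      ⟨φ j, fun p => (congrFun (k j) p).symm⟩ p).symm⟩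

end OaA

theorem ofOa : OfOa := by
  intro hT hR N D m π Hs W μ γ Z ok hμ h hc
  obtain ⟨C, hC, H⟩ := OaA.one hR D (Fin N) π.σ (kk := π.kk) rfl ok.fr (ok.bd 0 ok.zero).2 π.o
  have f := h.fl 1 one_pos 0
  refine ⟨f.mono fun n a ω x v y e => ?_, f.mono fun n a ω x v y e => ?_, ?_⟩
  · have e1 := a.fU ω x v y e
    have e2 : (Z n).F.E ω = (Z n).F.E v := a.f0 ω x v y e
    simp only [Prod.mk.injEq] at e1
    simp only [Mb.B, Fd.B, Fd.c, e1.1, e1.2, true_and, Prod.mk.injEq]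
    funext j
    simp only [Mb.pf, Ob.pf, Ob.pe, Bs.φ, a.fE ω x v y e, e2]
  · have e0 := a.fT ω x v y e
    have e1 := a.fU ω x v y e0
    have e2 := a.fk ω x v y e
    simp only [Prod.mk.injEq] at e1 e2
    simp only [Mb.pt, Mb.B, Fd.B, e0, e1.1, e2.1]
  have hf : LC.Au (uu (sX Z)) _ := h.fl
  unfold Com Al at hc
  unfold Al
  refine Fl.au_lin h.m4.ts.big (Fl.au_and hf hc) (fun n u u' w w' a b k ω x => ?_) hC ?_
  · obtain ⟨k1, k2, k3, k4, k5⟩ := k ω x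
    have e := LC.ex_le (neg_le_neg b)
    exact ⟨k1.mono (LC.ex_le a) e, fun p => (k2 p).trans (LC.ex_le a), k3, k4,
      fun ξ s => eb_mono (k5 ξ s) e⟩
  filter_upwards [OaA.ph hT h.m4] with n a u w u1 hw k ω x
  obtain ⟨t1, t2, t3⟩ := ((hT N D m _ _ (a ω x).1).2 _ (a ω x).2.2).2 (a ω x).2.1
  obtain ⟨k1, k2, k3⟩ := H _ _ _ _ (Z n).bd (Z n).d _ _ μ γ _ u w ((Z n).φ ω) ω
    (fun a => ok.bd _ (hμ a)) (Nat.cast_nonneg _) u1 hw k.1 x (k.2 ω x) t2 fun ξ => (t3 ξ).1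
  have ko := h.m4.fm.ko
  refine ⟨k1, k2, ?_, fun t ξ q => ?_, k3⟩
  · exact (OaA.row ko (k1.fr.mem _) _).trans (Pi.single_eq_same _ _)
  · exact (OaA.row ko (k1.fr.mem _) _).trans (OaA.row ko (comb_mem k1.mf ξ) q)

end Pool.Agent.MP_5168f5_an.QA.P5
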