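import Pool.Agent.MP_5168f5_an.QA.SpecF

/-! The maximal estimate in all dimensions: optimal labels of one level. -/

namespace Pool.Agent.MP_5168f5_an.QA

open H19 H17S H17F R4 AN Filter MvPolynomial
open C1 (Hb)
open K31 (Dn)

section One

variable {N D : ℕ} {Ω W : Type} {P : FP Ω} {Q : FP W} {π : W → Ω} {g : Sh N Ω} {M c : ℕ}
  {S : Ω → Dc N D} {κ e e' b : ℝ} {ν ν' : VD N D → ℝ}

theorem Val.dn (h : Val P g M c S) (d : Dn b Q π P) : Val Q (g.pull π) M c fun v => S (π v) :=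
  fun _ hv => h _ (d.mem hv)

theorem Sh.Box.dn (h : g.Box P) (d : Dn b Q π P) : (g.pull π).Box Q := fun _ hv => h _ (d.mem hv)

theorem OpG.mono (h : OpG κ P g M c S e) (k : e ≤ e') : OpG κ P g M c S e' :=
  fun W Q π b K r d v t => (h W Q π b K r d v t).trans (by linarith)

theorem OpG.dn (h : OpG κ P g M c S e) (d : Dn b Q π P) :
    OpG κ Q (g.pull π) M c (fun v => S (π v)) (e + Real.log b) := fun W' Q' π' b' K r d' v t => by
  have := h W' Q' (fun v => π (π' v)) (b' * b) K r (d'.trans d) v t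
  rw [Real.log_mul (one_pos.trans_le d'.one_le).ne' (one_pos.trans_le d.one_le).ne'] at this
  linarith

/-- The case of the law itself. -/
theorem OpG.self (h : OpG κ P g M c S e) {K : Ω → Dc N D} {r : Ω → ℝ} (v : Val P g M c K)
    (t : ∀ ω ∈ P.S, Rf (S ω).ν (K ω).ν ∧ Thin (S ω).ν (K ω).ν (r ω)) :
    P.E (fun ω => Real.log (K ω).J - Real.log (S ω).J + κ * r ω) ≤ ch P K S + e := by
  have := h Ω P id 1 K r (K31.dn_rfl P) v t
  rwa [Real.log_one, add_zero] at this

theorem bs_eq (h : Hb ν) : bs ν = (onb h).choose := dif_pos h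

theorem bs_one (h : Hb ν) (a : Fin (dV N D)) : ν (bs ν a) = 1 :=
  (congrArg (fun f => ν (f a)) (bs_eq h)).trans ((onb h).choose_spec.1 a)

theorem bs_span (h : Hb ν) (F : VD N D) :
    ∃ c : Fin (dV N D) → ℝ, F = ∑ a, c a • bs ν a ∧ ∀ a, |c a| ≤ ν F := by
  rw [bs_eq h]; exact (onb h).choose_spec.2 F

theorem eval_span {F : VD N D} {c : Fin (dV N D) → ℝ} (h : F = ∑ a, c a • bs ν a) (y : V (N + 1)) :
    eval y F.1 = ∑ a, c a * eval y (bs ν a).1 := by
  rw [h]
  simp only [AddSubmonoidClass.coe_finsetSum, SetLike.val_smul, map_sum, smul_eval]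

/-- In one cell all values are close. -/
theorem vc_near (h : Hb ν) {m : ℕ} {y y' : V (N + 1)} (e : vc ν m y = vc ν m y') (F : VD N D) :
    |eval y F.1 - eval y' F.1| ≤ dV N D * (ν F / 2 ^ m) := by
  obtain ⟨c, c1, c2⟩ := bs_span h F
  rw [eval_span c1, eval_span c1, ← Finset.sum_sub_distrib]
  refine (Finset.abs_sum_le_sum_abs _ _).trans ((Finset.sum_le_card_nsmul _ _ (ν F / 2 ^ m)
    fun a _ => ?_).trans_eq (by simp))
  rw [← mul_sub, abs_mul, div_eq_mul_inv]
  exact mul_le_mul (c2 a) (abs_sub_lt_of_fl1_eq (congrFun e a)).le (abs_nonneg _) (h.nonneg F)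

/-- The largest thinning. -/
theorem ex_thin (h : Hb ν) (h' : Hb ν') : ∃ r, 0 ≤ r ∧ Thin ν ν' r ∧
    ∀ F, ν F ≤ Real.exp r * (dV N D * ν' F) := by
  obtain ⟨a, -, ha⟩ := Finset.exists_max_image (insert none (Finset.univ.image some))
    (fun o : Option (Fin (dV N D)) => o.elim 1 fun a => ν (bs ν' a)) ⟨none, by simp⟩
  have a1 : (1 : ℝ) ≤ a.elim 1 fun a => ν (bs ν' a) := ha none (by simp)
  refine ⟨_, Real.log_nonneg a1, ?_, fun F => ?_⟩
  · cases a with
    | none => exact Or.inl (by simp)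
    | some a => refine Or.inr ⟨bs ν' a, fun e => ?_, ?_⟩
                · have := bs_one h' a
                  rw [e, ← zero_smul ℝ (0 : VD N D), h'.smul] at this
                  simp at this
                · rw [bs_one h', mul_one, Real.exp_log (one_pos.trans_le a1)]; rfl
  · obtain ⟨c, c1, c2⟩ := bs_span h' F
    rw [Real.exp_log (one_pos.trans_le a1), mul_left_comm]
    conv_lhs => rw [c1]
    refine (h.sum _ _ _).trans ((Finset.sum_le_card_nsmul _ _ _ fun i _ => ?_).trans_eq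
      (by rw [Finset.card_univ, Fintype.card_fin, nsmul_eq_mul]))
    rw [mul_comm]
    exact mul_le_mul (ha (some i) (by simp)) (c2 i) (abs_nonneg _) (zero_le_one.trans a1)

end One

theorem ofOpG : OfOpG := by
  intro h N D
  obtain ⟨C, c0, hC⟩ := h N D
  refine ⟨C, c0, fun η θ Ω P g M c S e h1 h2 h3 h4 h5 v o W Q π b K r d vK t => ?_⟩
  have a1 := o W Q π b K d vK
  have a2 := ch_tri' (P := Q) K ((g.pull π).zc c) fun v => S (π v)
  have a3 : Q.E (fun v => Psi η (S (π v)).ν + η ^ dV N D / 2 * r v + θ * dsp (K v).ν (S (π v)).ν) ≤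
      Q.E fun v => Psi η (K v).ν + C := Q.E_mono fun u hu =>
    hC η θ _ _ _ h1 h2 h3 h4 h5 (v _ (d.mem hu)).2.hb (vK u hu).2.hb (t u hu).1 (t u hu).2
  simp only [cst, sco, FP.E_add, FP.E_sub, FP.E_mul, FP.E_const] at a1 a3 ⊢
  linarith

section Seq

variable {N D : ℕ} {Ω W : ℕ → Type} {κ : ℝ} {P : ∀ n, FP (Ω n)} {g : ∀ n, Sh N (Ω n)}
  {M c u u' : ℕ → ℕ} {S : ∀ n, Ω n → Dc N D} {Q : ∀ n, FP (W n)} {π : ∀ n, W n → Ω n} {b : ℕ → ℝ}

/-- New laws and larger units. -/
theorem O1.dn (h : O1 κ P g M c u S) (d : ∀ᶠ n in UF, Dn (b n) (Q n) (π n) (P n)) (A : ℕ)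
    (hu : ∀ᶠ n in UF, u n ≤ A * u' n) (hb : Sm u' fun n => Real.log (b n)) :
    O1 κ Q (fun n => (g n).pull (π n)) M c u' fun n v => S n (π n v) where
  pos := h.pos
  big := tendsto_atTop.2 fun R => by
    filter_upwards [hu, h.big.eventually_gt_atTop (A * R)] with n a b
    exact (Nat.lt_of_mul_lt_mul_left (b.trans_le a)).le
  box := (h.box.and d).mono fun _ a => a.1.dn a.2
  val := (h.val.and d).mono fun _ a => a.1.dn a.2
  opt ε hε := by
    filter_upwards [h.opt (ε / 2 / (A + 1)) (by positivity), d, hu, hb (ε / 2) (half_pos hε)]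
      with n a1 a2 a3 a4
    refine (a1.dn a2).mono ?_
    have a5 : (u n : ℝ) ≤ (A + 1) * u' n := by
      have : (u n : ℝ) ≤ A * u' n := by exact_mod_cast a3
      linarith [Nat.cast_nonneg (α := ℝ) (u' n)]
    have a6 := mul_le_mul_of_nonneg_left a5 (show 0 ≤ ε / 2 / (A + 1) by positivity)
    rw [← mul_assoc, div_mul_cancel₀ _ (by positivity)] at a6
    linarith

theorem O1.dnS (h : O1 κ P g M c u S) (d : K31.DnS Q π P) :
    O1 κ Q (fun n => (g n).pull (π n)) M c u fun n v => S n (π n v) :=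
  let ⟨C, _, e⟩ := d
  h.dn (b := fun _ => C) e 1 (Eventually.of_forall fun _ => by simp) (h.big.sm _)

theorem O1.law (h : O1 κ P g M c u S) (d : ∀ᶠ n in UF, Law (Q n) (π n) (P n) id) :
    O1 κ Q (fun n => (g n).pull (π n)) M c u fun n v => S n (π n v) := h.dnS (K31.dnS_law d)

theorem O1.cE (h : O1 κ P g M c u S) {E : ∀ n, Ω n → Prop} (e : Pos P E) :
    O1 κ (fun n => cE (P n) (E n)) g M c u S := h.dnS (K31.dnS_cE e)

end Seq

end Pool.Agent.MP_5168f5_an.QA
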