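import Pool.Agent.MP_5168f5_an.QA.P5OrbD
import Pool.Agent.MP_5168f5_an.QA.OrbAl
import Pool.Agent.MP_5168f5_an.QA.FlApi
import Pool.Agent.MP_5168f5_an.QA.O1Api

/-! The maximal estimate in all dimensions: points of one cell seen from two samples. -/

namespace Pool.Agent.MP_5168f5_an.QA.P5

open H19 H17S H17F R4 AN Filter Matrix
open GA (Mt IsFr ex)
open G39 (dl)
open N2 (tri)
open N6 (Eb)
open LC (Au)
open Fr (act)
open Ob (Vb)

namespace P5Oc

variable {N D m : ℕ}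

theorem ev_act (u : Mt (Fin m)) (E : Fin m → VD N D) (y : V (N + 1)) :
    Ob.ev (act u E) y = u *ᵥ Ob.ev E y := funext fun p =>
  (map_sum (evV y) _ _).trans (Finset.sum_congr rfl fun _ _ => map_smul (evV y) _ _)

/-- Values in one cell. -/
theorem cell {ν : VD N D → ℝ} (h : C1.Hb ν) {f : Fin m → VD N D} {L : ℝ} (k : ∀ p, ν (f p) ≤ L)
    {R u : ℕ} {y y' : V (N + 1)} (e : vc ν (2 * R * u) y = vc ν (2 * R * u) y') :
    Vb (dV N D * L * Real.exp (-(R * u))) (Ob.ev f y - Ob.ev f y') := fun p => by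
  refine (vc_near h e (f p)).trans ?_
  have := (h.nonneg _).trans (k p)
  rw [← mul_div_assoc, div_eq_mul_inv, Real.exp_neg]
  refine mul_le_mul (mul_le_mul_of_nonneg_left (k p) (Nat.cast_nonneg _))
    (inv_anti₀ (Real.exp_pos _) (le_trans (le_of_eq ?_) (exp_le_two_pow _))) (by positivity)
    (by positivity)
  push_cast
  ring_nf

end P5Oc

open P5Oc in
theorem ofOc : OfOc := by
  intro hB hO N D m π Hs W μ γ Z R ok hμ h
  obtain ⟨C, hC, H⟩ := hO _ _ _ π.σ Hs W μ γ ok hμ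
  obtain ⟨A, hA, HA⟩ := Ob.AlA.bB π.σ.B
  obtain ⟨a, ha, Ha⟩ := Ob.OrbPhA.ex_eb m (Fintype.card π.κ)
  obtain ⟨K, hK, HK⟩ := Ob.sPg a ha
  obtain ⟨Γ, g, hg⟩ := h.m4.fm.dg 0
  have k0 : (0 : ℝ) ≤ K * (K + A) := by positivity
  have d0 : (0 : ℝ) ≤ dV N D := Nat.cast_nonneg _
  have m0 : (0 : ℝ) ≤ m := Nat.cast_nonneg _
  have h3 : Au (uu (sX Z)) fun n u _ => ∀ ω ∈ (Z n).X.P.S, ∀ p,
      ((Z n).X.S 0 ω).ν ((Z n).F.f ω p) ≤ Real.exp u := fun c hc _ => by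
    filter_upwards [hg, g.2 c hc] with n x y ω k p
    have := (x ω k).1 p
    rw [AB.rd, AB.lb, h.m4.hb n, sub_self, mul_zero, neg_zero, Real.exp_zero, mul_one] at this
    exact this.trans y
  refine Fl.au_lin (C := C + (m + 1 + K * (K + A) + (dV N D + 1))) h.m4.ts.big
    (Fl.au_and (Fl.au_and h.fl (hB N D m π _ h.m4 (-1) le_rfl (by norm_num))) h3)
    (fun n u u' w w' x y z ω k v l e p p' q => (z ω k v l e p p' q).imp fun t s =>
      ⟨fun b => ⟨fun i => ((s.1 b).1 i).trans (mul_le_mul_of_nonneg_right (LC.ex_le x) zero_le_one),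
        fun i => ((s.1 b).2 i).trans (LC.ex_le (neg_le_neg y))⟩, fun r => (s.2 r).trans
        (mul_le_mul_of_nonneg_right (LC.ex_le x) (Real.exp_pos _).le)⟩) (by linarith) ?_
  filter_upwards [h.m4.sur.hb 0, h.m4.fm.uj] with n hb uj u w hu hw ⟨⟨o, b⟩, z⟩ ω k v l e y y' q
  have M0 : (0 : ℝ) ≤ (Z n).X.u := Nat.cast_nonneg _
  have c1 : C * (u + (Z n).X.u) ≤ (C + (m + 1 + K * (K + A) + (dV N D + 1))) * (u + (Z n).X.u) :=
    mul_le_mul_of_nonneg_right (by linarith) (by linarith)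
  obtain ⟨e1, e2⟩ := Prod.ext_iff.1 e
  obtain ⟨t, t1, t2⟩ := (H _ _ _ _ _ _ _ _ _ _ _ u w M0 hu (c1.trans hw) o b (fun _ _ _ _ x => x)
    ω k v l).2.1 e2.symm
  have f1 : IsFr (tri π.kk) ((Z n).B ω) ((Z n).d.c π.σ ω) :=
    ((GA.sFr _ _ π.σ.Φ π.σ.B π.σ.c).2 _ _ (o.inv ω k)).1 ok.fr
  have mu := GA.sMul _ _ _ _ _ f1
  refine ⟨t, fun i => ⟨fun _ => ((t2 i).2.2 e1.symm).trans ?_, fun x => ((t2 i).2.1
    (le_antisymm (not_lt.1 x) (ok.bd _ (hμ i)).1)).trans (LC.ex_le (by linarith))⟩, fun p => ?_⟩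
  · rw [Pi.one_apply, mul_one]
    exact LC.ex_le (mul_le_mul_of_nonneg_right (by linarith) (by linarith))
  have e3 : (Z n).F.E v = (Z n).F.E ω := o.f0 v l ω k e2
  have e4 : ((Z n).G ω)⁻¹ = ex ((Z n).B ω) ((Z n).d.k ω) * ((Z n).F.J ω)⁻¹ := by
    rw [Mb.G, Fl.Fd.G, Matrix.mul_inv_rev, inv_eq_left_inv (mu.neg _).2]; rfl
  rw [Mb.ev, Mb.ev, ev_act, ev_act, e3, show (Z n).G v = _ from t1, Matrix.mul_inv_rev,
    inv_eq_right_inv (mu.neg t).2, mulVec_mulVec, ← mul_assoc, (mu.neg t).2, one_mul, e4,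
    ← mulVec_sub, ← mulVec_mulVec, mulVec_sub, ← ev_act, ← ev_act]
  have a1 : 1 ≤ Real.exp (A * u) := Real.one_le_exp (by positivity)
  have b1 : Eb (Real.exp (K * (K + A) * u)) (ex ((Z n).B ω) ((Z n).d.k ω)) := fun r s =>
    (((Ha _ _ _ _ _ _ le_rfl f1 a1 (HA _ u hu fun i j => (o.bU ω k i j).1) fun i =>
      (o.bk ω k i).trans (LC.ex_le (le_mul_of_one_le_left (by linarith) hA))).1 r s).trans
      (HK _ a1)).trans (Fl.FlOut.pw hu)
  refine (N6.Cb.mul (o := p) (Y := of fun r _ => _) b1 (cell (hb ω k) (z ω k) q)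
    (Real.exp_pos _).le (by positivity) p).trans ?_
  rw [← mul_assoc]
  refine mul_le_mul_of_nonneg_right ((mul_le_mul (mul_le_mul_of_nonneg_right
    (Ob.AlA.le_exp (by positivity) hu) (Real.exp_pos _).le) (mul_le_mul_of_nonneg_right
    (Ob.AlA.le_exp d0 hu) (Real.exp_pos _).le) (by positivity) (by positivity)).trans ?_)
    (Real.exp_pos _).le
  simp only [← Real.exp_add]
  exact LC.ex_le (by nlinarith)

end Pool.Agent.MP_5168f5_an.QA.P5
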