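import Pool.Agent.MP_5168f5_an.QA.Os47A
import Pool.Agent.MP_5168f5_an.QA.P5Oc
import Pool.Agent.MP_5168f5_an.QA.P5Oa
import Pool.Agent.MP_5168f5_an.QA.OrbTay
import Pool.Agent.MP_5168f5_an.QA.OrbVh

/-! The maximal estimate in all dimensions: the orbit data of the chart. -/

namespace Pool.Agent.MP_5168f5_an.QA.Os

open H19 H17S H17F R4 AN AN.N6 Filter Matrix IsNilpotent Finset P5
open GA (Mt IsFr ex)
open N2 (El tri)
open Ob (Vb Bo)
open Fr (act)
open Ch (Orb)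

theorem orb_mono {m : ℕ} {κ : Type} [Fintype κ] {b : κ → Mt (Fin m)} {p y : Fin m → ℝ}
    {X X' η η' : ℝ} {t : κ → ℝ} (h : Orb b p X η t y) (a : X ≤ X') (e : η ≤ η') :
    Orb b p X' η' t y :=
  ⟨fun i => (h.1 i).trans a, h.2.imp fun _ k => ⟨fun q => (k.1 q).trans e, k.2⟩⟩

theorem sOrbs_of (hO : SOa) : SOrbs := by
  classical
  intro N D m π Hs W μ γ Z q pos t ok hμ g v0 v1
  obtain ⟨F, pF, hF⟩ := two m (Fintype.card π.κ + Fintype.card (Fin N))
  obtain ⟨fB, -, al⟩ := hO N D m π Hs W μ γ Z ok hμ g.m5 g.com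
  have big : Big (uu (sX Z)) := g.m5.m4.ts.big
  unfold VH P5.Al at v0 v1
  obtain ⟨u₀, w, uw, H⟩ := Fl.au_ex big (Fl.au_and (Fl.au_and (Fl.au_and g.m5.fl al)
    (Fl.au_and g.orb.nb g.out.sp)) (Fl.au_and v0 v1))
  obtain ⟨u, u1, hu⟩ : ∃ u : ℕ → ℝ, (∀ n, 0 ≤ u n) ∧ ∀ᶠ n in UF, u₀ n = u n :=
    ⟨fun n => max (u₀ n) 0, fun _ => le_max_right _ _,
      uw.one.mono fun n a => (max_eq_left (zero_le_one.trans a)).symm⟩
  have sm : Sm (uu (sX Z)) u := fun c hc => by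
    filter_upwards [uw.sm c hc, hu] with n a b using by rwa [zero_add, ← b]
  have sL := Sub.exp sm u1
  have mu := fun a => ok.bd _ (hμ a)
  have W0 : 0 ≤ W := (ok.bd _ ok.zero).2
  obtain ⟨Γ, sΓ, hΓ⟩ := g.m5.m4.fm.dg 0
  obtain ⟨A, hA⟩ : ∃ A : ℝ, A = 2 ^ (Fintype.card π.κ + Fintype.card (Fin N) + m * m) +
    (Fintype.card π.κ + Fintype.card (Fin N) + m * m + m + 1) := ⟨_, rfl⟩
  have A1 : 1 ≤ A := by
    rw [hA]
    exact le_add_of_le_of_nonneg (one_le_pow₀ one_le_two) (by positivity)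
  obtain ⟨K, -, hK⟩ := Ob.sPg F pF
  have m1 : (1 : ℝ) ≤ m + 1 := by simp
  have k1 : (1 : ℝ) ≤ (Fintype.card π.κ + 1) * 2 ^ m :=
    one_le_mul_of_one_le_of_one_le (by simp) (one_le_pow₀ one_le_two)
  have s1 := (sL.mul sL).const_mul big A1
  have s2 := (sΓ.const_mul big m1).mul (pF.2 _ _ big sL)
  refine ⟨fun n ω => Tq.fd π.kk ((Z n).B ω) (fun a => 0 < μ a)
    (fun a => Real.exp (μ a * (Z n).X.u)) ((Z n).pf ω) ((Fintype.card π.κ + 1) *
      Real.exp (u n + W * (Z n).X.u) ^ 3 * Real.exp (-w n))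
    (Real.exp (u n) * Real.exp (u n + W * (Z n).X.u)) (q n ω)
    (act ((Z n).d.E ω)⁻¹ ((Z n).F.E ω)), W, W0, ?_, fun R => ⟨_, s1.add s2 big, ?_⟩⟩
  · filter_upwards [fB, g.orb.fn, H] with n a b ⟨⟨⟨o, _⟩, _⟩, _⟩ x hx y hy e
    have a1 := a x hx y hy e
    simp only [Prod.mk.injEq] at a1
    have a2 : (Z n).F.E x = (Z n).F.E y := o.f0 x hx y hy e
    simp only [a1.1, a1.2.2, b x hx y hy e, o.fE x hx y hy e, a2]
  filter_upwards [H, hu, hΓ, g.m5.m4.fm.sp, g.m5.m4.fm.uj, sm 1 one_pos, uw.bg (2 * W),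
    uw.bg (K * (K + (W + 2)) + R), uw.bg (1 + (3 + m) * (W + 2)), (big.sub k1).2 1 one_pos, big.ev 1] with n
    ⟨⟨⟨o, a⟩, b, s⟩, h0, h1⟩ e dg sp uj c1 c2 c3 c4 c5 c6 ω hω
  rw [e] at o a b h0 h1
  change _ ≤ 0 + 1 * ((Z n).X.u : ℝ) at c1
  change _ * ((Z n).X.u : ℝ) ≤ _ at c2 c3 c4
  change _ ≤ Real.exp (1 * ((Z n).X.u : ℝ)) at c5
  change _ ≤ ((Z n).X.u : ℝ) at c6
  obtain ⟨a1, a2, -, -, a3⟩ := a ω hω
  have u0 := u1 n
  have l1 := a1.one
  have wu : 0 ≤ W * (Z n).X.u := by positivity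
  have mu' : ∀ a, 0 ≤ μ a * (Z n).X.u ∧ μ a * (Z n).X.u ≤ W * (Z n).X.u := fun a =>
    ⟨mul_nonneg (mu a).1 (by linarith), mul_le_mul_of_nonneg_right (mu a).2 (by linarith)⟩
  have al : Ob.Al π.kk ((Z n).B ω) ((Z n).d.c π.σ ω) (fun a => 0 < μ a)
      (fun a => Real.exp (μ a * (Z n).X.u)) ((Z n).pf ω) (Real.exp (u n))
      (Real.exp (u n + W * (Z n).X.u)) (Real.exp (-w n)) :=
    ⟨a1.fr, l1, LC.ex_le (by linarith), a1.pos, fun a => ⟨Real.one_le_exp (mu' a).1,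
      LC.ex_le (by linarith [(mu' a).2])⟩, a1.bB, a1.bc, fun a a' e x y z => by
      rw [mul_assoc, ← Real.exp_add, ← Real.exp_add]
      by_cases k : μ e < μ a + μ a'
      · refine (mul_le_mul_of_nonneg_right (o.fil ω hω a a' e (.inl ⟨x, y, k⟩))
          (Real.exp_pos _).le).trans ?_
        rw [← Real.exp_add]
        exact LC.ex_le (by linarith [(mu' a).2, (mu' a').2, (mu' e).1])
      · refine (mul_le_mul_of_nonneg_right (a1.bc a a' e) (Real.exp_pos _).le).trans ?_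
        rw [← Real.exp_add]
        exact LC.ex_le (by nlinarith [not_lt.1 k]), a1.ld, a1.mf, a1.bf, a1.cf, a1.ff⟩
  have lw : Real.exp (u n) * Real.exp (u n + W * (Z n).X.u) ≤ Real.exp ((W + 2) * (Z n).X.u) := by
    rw [← Real.exp_add]
    exact LC.ex_le (by linarith)
  have e2 : (Fintype.card π.κ + 1) * Real.exp (u n + W * (Z n).X.u) ^ 3 * Real.exp (-w n) *
      (2 * (Real.exp (u n) * Real.exp (u n + W * (Z n).X.u))) ^ m ≤ 1 := by
    calc _ = (Fintype.card π.κ + 1) * 2 ^ m * (Real.exp (u n + W * (Z n).X.u) ^ 3 *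
          (Real.exp (u n) * Real.exp (u n + W * (Z n).X.u)) ^ m * Real.exp (-w n)) := by ring
      _ ≤ Real.exp (1 * (Z n).X.u) * (Real.exp ((W + 2) * (Z n).X.u) ^ 3 *
          Real.exp ((W + 2) * (Z n).X.u) ^ m * Real.exp (-w n)) := by
        gcongr
        linarith
      _ ≤ 1 := by
        rw [← Real.exp_nat_mul, ← Real.exp_nat_mul, ← Real.exp_add, ← Real.exp_add, ← Real.exp_add]
        refine Real.exp_le_one_iff.2 ?_
        push_cast
        linarith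
  obtain ⟨b1, b2, b3⟩ := b ω hω
  obtain ⟨g1, x, x0, x1, x2⟩ := Tq.alg_wt al le_rfl e2 (act ((Z n).d.E ω)⁻¹ ((Z n).F.E ω)) b2
    (pos := pos) (fun a k k' r => (s ω hω).stab a r k k') (X := A * (Real.exp (u n) *
      Real.exp (u n))) (by rw [hA])
  have M := GA.sMul _ _ _ _ _ a1.fr
  have p1 := (s1.pos n).le
  have p2 := (s2.pos n).le
  have f1 := pF.1 _ l1
  have γ1 := sΓ.1 n
  have p3 : F (Real.exp (u n)) ≤ A * (Real.exp (u n) * Real.exp (u n)) +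
      (m + 1) * Γ n * F (Real.exp (u n)) := le_add_of_nonneg_of_le p1
    (le_mul_of_one_le_left (by linarith) (one_le_mul_of_one_le_of_one_le m1 γ1))
  have f2 := (hK _ (one_le_mul_of_one_le_of_one_le l1 (l1.trans al.le))).trans
    ((pow_le_pow_left₀ (by positivity) (mul_le_mul_of_nonneg_left lw (Nat.cast_nonneg K)) K).trans
      (Fl.FlOut.pw c6))
  have eG : ∀ y, (Z n).ev ω y = ex ((Z n).B ω) (-(Z n).d.g ω) *ᵥ
      Ob.ev (act ((Z n).d.E ω)⁻¹ ((Z n).F.E ω)) y := fun y => by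
    rw [P5.Mb.ev, P5.Mb.G, Fl.Fd.G, o.fac ω hω, mul_assoc, (M.neg _).2, mul_one, Matrix.mul_inv_rev,
      inv_eq_right_inv (M.neg _).2, Fr.act_mul, P5Oc.ev_act]
  have key := fun ρ' y h h' => (hF _ _ _ _ _ _ _ ρ' _ ((Z n).ph ω) _ _ _ _ (q n ω) ((Z n).pt ω)
    ((Z n).ev ω y) ((Z n).d.g ω) ((Z n).d.k ω) le_rfl al le_rfl e2
    (fun a => ⟨fun k => ((o.bg ω hω a).1 k).trans_eq (Real.exp_add _ _), fun k => (o.bg ω hω a).2
      (le_antisymm (not_lt.1 k) (mu a).1)⟩) (o.bk ω hω) b2 a2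
    (fun ξ k => a3 ξ fun j => (k j).trans (LC.ex_le (by linarith)))
    (by simpa [Mb.Nb, Pi.one_def] using b3) h h').imp fun _ k => And.intro (orb_mono k.1 p3
      (show _ ≤ G39.dl (uu (sX Z)) R n from by
        refine (mul_le_mul_of_nonneg_right f2 (Real.exp_pos _).le).trans ?_
        rw [← Real.exp_add]
        exact LC.ex_le (by change _ ≤ -(R * ((Z n).X.u : ℝ)); linarith))) k.2
  simp only [eG, mulVec_mulVec, (M.neg _).2, one_mulVec] at key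
  refine ⟨⟨g1.fr, fun a a' e => (g1.bc a a' e).trans (by linarith), fun a p r =>
    (g1.bb a p r).trans ?_, fun p => (g1.bp p).trans (by linarith)⟩, fun y hy => ?_,
    fun y hy => ?_, x, x0, fun a p => (x1 a p).trans
      (mul_le_mul_of_nonneg_right (by linarith) (x0 a)), x2.trans ?_⟩
  · rw [Real.exp_add, ← mul_assoc]
    exact mul_le_mul_of_nonneg_right (le_add_of_le_of_nonneg
      (le_mul_of_one_le_left (by positivity) A1) p2) (Real.exp_pos _).le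
  · have := h1 ω hω y (seg_mono (by norm_num) hy)
    rw [Mb.Nb, eG] at this
    exact (key _ y (fun a => by simp) this).imp fun _ k => k.1
  · have := h0 ω hω y (seg_mono (by norm_num) hy)
    rw [Mb.Nb, eG] at this
    obtain ⟨r, r1, r2⟩ := key _ y (fun a => by simpa using (mu' a).1) this
    refine ⟨r, r1, fun G hG => ?_⟩
    obtain ⟨c, rfl⟩ := sp ω hω G
    refine ⟨c ᵥ* (ex ((Z n).B ω) (-(Z n).d.k ω) * ex ((Z n).B ω) (-(Z n).d.g ω)), ?_, ?_⟩
    · have eJ : ((Z n).F.J ω)⁻¹ = ex ((Z n).B ω) (-(Z n).d.k ω) * ex ((Z n).B ω) (-(Z n).d.g ω) *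
          ((Z n).d.E ω)⁻¹ := by
        rw [show (Z n).F.J ω = _ from o.fac ω hω, Matrix.mul_inv_rev, Matrix.mul_inv_rev,
          inv_eq_right_inv (M.neg _).2, inv_eq_right_inv (M.neg _).2, mul_assoc]
      rw [AB.Fd.f, eJ, Fr.act_mul, Fr.sum_act]
      rfl
    · rw [vecMul_vecMul]
      refine Tq.vb_mono (Tq.vb_vm (b := Γ n) (fun i => ?_) (r2 (by simp [Pi.one_def])) (by linarith)
        (by linarith)) (by linarith)
      have := (dg ω hω).2 c i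
      rw [AB.rd, AB.lb, g.m5.m4.hb n, sub_self, mul_zero, neg_zero, Real.exp_zero, mul_one] at this
      exact this.trans (mul_le_of_le_one_right (by linarith) hG)
  · rw [← Real.exp_sum, ← sum_mul]
    exact mul_le_mul_of_nonneg_right (by linarith) (Real.exp_pos _).le

theorem sOrbs : SOrbs := sOrbs_of (ofOa Ob.sTay Ob.sPrt)

end Pool.Agent.MP_5168f5_an.QA.Os
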