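import Pool.Agent.MP_5168f5_an.QA.PacD
import Pool.Agent.MP_5168f5_an.AN.N3WIN
import Pool.Agent.MP_5168f5_an.AN.LCTrim
import Pool.Agent.MP_5168f5_an.AN.LCTrimS
import Pool.Agent.MP_5168f5_an.AN.C1P

/-! Increments of pairs: the minimal graded subspace exists. -/

namespace Pool.Agent.MP_5168f5_an.QA.PA

open H19 H17S H17F R4 AN Filter Finset
open G39 (dl)
open LC (ex_le)
open N3 (Wn pt ex_wn pt_br ex_pt num)

section One

variable {κ Ω Λ : Type} [Fintype κ] (wt : κ → ℝ) (c : κ → κ → κ → ℝ) (S : Finset κ)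

/-- A unit form is small on the pairs of a large part of the atom of `ω`. -/
def Bad (X : Pr κ Ω Λ) (A : Ω → κ → κ → ℝ) (x : ℚ) (h g : ℝ) (ω : Ω) : Prop :=
  ∃ l E, Fm c S (A ω) (Real.exp (-h)) l ∧ ∑ b, |l b| = 1 ∧ X.Thin wt x (X.O x ω) l h E ∧
    Real.exp (-g) < pb (X.fb x ω) E

theorem one (X : Pr κ Ω Λ) (A : Ω → κ → κ → ℝ) (a : ℚ) (h g : ℝ) :
    ∃ (G : Ω → Prop) (l : Ω → κ → ℝ), Fn X.P l (X.O a) ∧
      Real.exp (-g) * pb X.P (Bad wt c S X A a h g) ≤ pb X.P G ∧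
      (Fn X.P A (X.O a) → ∀ ω ∈ X.P.S, G ω →
        Fm c S (A ω) (Real.exp (-h)) (l ω) ∧ ∑ b, |l ω b| = 1) ∧
      ∀ ω v, X.At a ω v → G ω → G v → |∑ b, l ω b * X.co wt a ω v b| ≤ Real.exp (-h) := by
  obtain ⟨ω₀, -⟩ := ex_pt X.P
  let B : Λ → Ω × (κ → ℝ) × (Ω → Prop) → Prop := fun z t => t.1 ∈ X.P.S ∧ X.O a t.1 = z ∧
    Fm c S (A t.1) (Real.exp (-h)) t.2.1 ∧ ∑ b, |t.2.1 b| = 1 ∧ X.Thin wt a z t.2.1 h t.2.2 ∧
      Real.exp (-g) < pb (cv X.P (X.O a) z) t.2.2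
  have : Nonempty (Ω × (κ → ℝ) × (Ω → Prop)) := ⟨ω₀, 0, fun _ => True⟩
  choose! t ht using fun z (e : ∃ t, B z t) => e
  let E : Λ → Ω → Prop := fun z v => B z (t z) ∧ (t z).2.2 v
  refine ⟨fun ω => E (X.O a ω) ω, fun ω => (t (X.O a ω)).2.1, fun _ _ _ _ e => by
    simp only [e], ?_, fun hA ω hω e => ⟨hA _ e.1.1 _ hω e.1.2.1 ▸ e.1.2.2.1, e.1.2.2.2.1⟩,
    fun ω v e p q => p.1.2.2.2.2.1 ω v e rfl p.2 (e.2.2 ▸ q.2)⟩
  rw [S20.pb_tot X.P (X.O a) E, G39.pb_ind, ← FP.E_mul]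
  refine X.P.E_mono fun ω hω => ?_
  by_cases e : Bad wt c S X A a h g ω
  · rw [G39.ind_pos e, mul_one]
    obtain ⟨l, F, e2⟩ := e
    have b := ht (X.O a ω) ⟨(ω, l, F), hω, rfl, e2⟩
    exact b.2.2.2.2.2.le.trans (pb_mono fun v _ d => ⟨b, d⟩)
  · rw [G39.ind_neg e, mul_zero]
    exact pb_nonneg _ _

variable {wt c S} [DecidableEq κ] {C : ℝ} {W : Submodule ℝ (κ → ℝ)} {A : κ → κ → ℝ} {l : κ → ℝ}
  {f : κ}

theorem Sh.br (h : Sh wt S C W A) (hc : ∀ a b e, c a b e ≠ 0 → wt e = wt a + wt b) (a b e : κ)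
    (k : cA c A a b e ≠ 0) : wt e = wt a + wt b := by
  obtain ⟨i, -, k⟩ := exists_ne_zero_of_sum_ne_zero k
  obtain ⟨j, -, k⟩ := exists_ne_zero_of_sum_ne_zero k
  rw [(h.gr i a (right_ne_zero_of_mul (left_ne_zero_of_mul k))).2,
    (h.gr j b (right_ne_zero_of_mul k)).2]
  exact hc i j e (left_ne_zero_of_mul (left_ne_zero_of_mul k))

/-- The projection onto the kernel of the form. -/
def cut (A : κ → κ → ℝ) (l : κ → ℝ) (f : κ) : κ → κ → ℝ := fun b a => A b a - A b f * l a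

omit [Fintype κ] in
theorem Sh.cut (h : Sh wt S C W A) (h0 : ∀ b, b ∉ S → l b = 0) (h1 : l f = 1)
    (h2 : ∀ b, wt b ≠ wt f → l b = 0) (h3 : ∀ b, |l b| ≤ 1) :
    Sh wt (S.erase f) (2 * C) W (cut A l f) := by
  refine ⟨fun b a k => ?_, fun b hb a => ?_, fun b a => ?_, fun a => ?_⟩
  · have e : a ≠ f := fun e => k (by simp [PA.cut, e, h1])
    by_cases z : A b a = 0
    · have k' : A b f * l a ≠ 0 := fun y => k (by simp [PA.cut, z, y])
      exact ⟨mem_erase.2 ⟨e, by_contra fun y => right_ne_zero_of_mul k' (h0 a y)⟩,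
        (by_contra fun y => right_ne_zero_of_mul k' (h2 a y) : wt a = wt f).trans
          (h.gr b f (left_ne_zero_of_mul k')).2⟩
    · exact ⟨mem_erase.2 ⟨e, (h.gr b a z).1⟩, (h.gr b a z).2⟩
  · obtain ⟨u, v⟩ := mem_erase.1 hb
    simp [PA.cut, h.pv b v, u.symm]
  · refine (abs_sub _ _).trans ?_
    rw [abs_mul]
    linarith [h.bd b a, h.bd b f, mul_le_of_le_one_right (abs_nonneg (A b f)) (h3 a)]
  · have : col (PA.cut A l f) a = col A a - l a • col A f := funext fun b => by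
      simp [col, PA.cut, mul_comm]
    exact this ▸ W.sub_mem (h.mem a) (W.smul_mem _ (h.mem f))

omit [DecidableEq κ] in
theorem Im.cut {y : κ → ℝ} {τ θ : ℝ} (h : Im A τ y) (hC : ∀ b a, |A b a| ≤ C)
    (k : |∑ b, l b * y b| ≤ θ) : Im (cut A l f) (τ + C * θ) y := fun b => by
  have : y b - ∑ a, PA.cut A l f b a * y a = y b - ∑ a, A b a * y a + A b f * ∑ a, l a * y a := by
    simp only [PA.cut, sub_mul, sum_sub_distrib, mul_sum, mul_assoc]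
    ring
  rw [this]
  exact (abs_add_le _ _).trans (add_le_add (h b) ((abs_mul _ _).trans_le
    (mul_le_mul (hC b f) k (abs_nonneg _) ((abs_nonneg _).trans (hC b f)))))

omit [DecidableEq κ] in
theorem four {φ : (κ → ℝ) → ℝ} (hφ : IsLinearMap ℝ φ) {τ : ℝ} (h : ∀ a b, |φ (cA c A a b)| ≤ τ)
    (h3 : ∀ b, |l b| ≤ 1) (a b : κ) : |φ (cA c (cut A l f) a b)| ≤ 4 * τ := by
  have e : cA c (cut A l f) a b =
      cA c A a b - l b • cA c A a f - l a • cA c A f b + (l a * l b) • cA c A f f := by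
    funext e
    simp only [cA, GA.br, col, PA.cut, Pi.add_apply, Pi.sub_apply, Pi.smul_apply, smul_eq_mul,
      mul_sum, ← sum_sub_distrib, ← sum_add_distrib]
    exact sum_congr rfl fun _ _ => sum_congr rfl fun _ _ => by ring
  have k : ∀ (s : ℝ) i j, |s| ≤ 1 → |s * φ (cA c A i j)| ≤ τ := fun s i j u =>
    (abs_mul _ _).trans_le ((mul_le_of_le_one_left (abs_nonneg _) u).trans (h i j))
  rw [e, hφ.map_add, hφ.map_sub, hφ.map_sub, hφ.map_smul, hφ.map_smul, hφ.map_smul]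
  have k1 := abs_le.1 (k _ a f (h3 b))
  have k2 := abs_le.1 (k _ f b (h3 a))
  have k3 := abs_le.1 (k (l a * l b) f f ((abs_mul _ _).trans_le
    (mul_le_one₀ (h3 a) (abs_nonneg _) (h3 b))))
  have k4 := abs_le.1 (h a b)
  simp only [smul_eq_mul]
  exact abs_le.2 ⟨by linarith, by linarith⟩

omit [DecidableEq κ] in
theorem lin_dot (l : κ → ℝ) : IsLinearMap ℝ fun y : κ → ℝ => ∑ b, l b * y b :=
  ⟨fun _ _ => by simp [mul_add, sum_add_distrib], fun _ _ => by simp [mul_sum, mul_left_comm]⟩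

omit [DecidableEq κ] in
theorem sb_cut {τ θ : ℝ} (h : ∀ a b, Im A τ (cA c A a b)) (hC : ∀ b a, |A b a| ≤ C)
    (k : ∀ a b, |∑ e, l e * cA c A a b e| ≤ θ) (h3 : ∀ b, |l b| ≤ 1) (a b : κ) :
    Im (cut A l f) (4 * τ + C * (4 * θ)) (cA c (cut A l f) a b) :=
  Im.cut (fun e => four (φ := fun y => y e - ∑ a, A e a * y a)
    ⟨fun x y => by rw [(lin_dot _).map_add, Pi.add_apply]; ring,
      fun s x => by rw [(lin_dot _).map_smul, Pi.smul_apply, smul_sub]⟩ (fun a b => h a b e) h3 a b)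
    hC (four (lin_dot l) k h3 a b)

end One

section Seq

variable {κ : Type} [Fintype κ] [DecidableEq κ] {Ω Λ : ℕ → Type} {wt : κ → ℝ}
  {c : κ → κ → κ → ℝ} {K : (∀ n, Pr κ (Ω n) (Λ n)) → Prop} {S : Finset κ} {C : ℝ}
  {X : ∀ n, Pr κ (Ω n) (Λ n)} {A : ∀ n, Ω n → κ → κ → ℝ}

omit [Fintype κ] [DecidableEq κ] in
theorem trim (hM : Big (sM X)) (G : ∀ n, Ω n → Prop)
    (h : ∀ c : ℝ, 0 < c → ∀ᶠ n in UF, dl (sM X) c n ≤ pb (X n).P (G n)) :
    ∃ G' : ∀ n, Ω n → Prop, (∀ n ω, G' n ω → G n ω) ∧ Trm X G' := by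
  obtain ⟨G', a, b, d⟩ := LC.lcTrimS LC.lcTrim Ω Λ (sP X) (sM X)
    (fun k a => sO X (bif k then a else -a)) G hM h
  refine ⟨G', a, fun c hc => ?_, fun x => ?_⟩
  · filter_upwards [b, h _ (half_pos hc), G39.dl_lt hM one_half_pos (half_pos hc)] with n u v w
    rw [G39.dl_half]
    nlinarith [G39.dl_pos (sM X) (c / 2) n]
  · rcases le_total 0 x with e | e
    · exact d true ⟨x, e⟩
    · simpa [Pr.fb] using d false ⟨-x, neg_nonneg.2 e⟩

variable (wt c K S C) in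
/-- The one sided class. -/
def G0 (X : ∀ n, Pr κ (Ω n) (Λ n)) (A : ∀ n, Ω n → κ → κ → ℝ) : Prop :=
  K X ∧ HI wt c S C (0 ≤ ·) X A

theorem G0.idx (hK : Cls wt K) (h : G0 wt c K S C X A) {a e : ℚ} (ha : 0 ≤ a) (he : 0 < e)
    (h1 : e ≤ 1) : G0 wt c K S C (fun n => (X n).idx a e) A :=
  ⟨hK.idx X a e he h1 h.1, h.2.idx a he fun x (b : 0 ≤ x) => by positivity⟩

theorem G0.res (hK : Cls wt K) (h : G0 wt c K S C X A) {G : ∀ n, Ω n → Prop} (g : Trm X G) :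
    G0 wt c K S C (fun n => (X n).res (G n)) A := ⟨hK.res X G h.1 g, h.2.res G⟩

theorem cf_g0 (hK : Cls wt K) : CF fun Z : ∀ n, Pr κ (Ω n) (Λ n) × (Ω n → κ → κ → ℝ) =>
    G0 wt c K S C (fun n => (Z n).1) fun n => (Z n).2 :=
  (hK.cf.comp fun _ z => z.1).and (cf_hi wt c S C _)

theorem nul (hK : Cls wt K) (hX : G0 wt c K S C X A) {L : ℝ} (h1 : 1 ≤ L)
    (hb : ∀ a η : ℚ, 0 ≤ a → 0 ≤ η → η ≤ 1 → Whp (sP X) fun n ω =>
      ¬Bad wt c S (X n) (A n) a (η * (X n).M) (η * (X n).M / L) ω) :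
    ∃ X' : ∀ n, Pr κ (Ω n) (Λ n), G0 wt c K S C X' A ∧ ∀ x, 0 ≤ x → HC wt c S L X' A x 1 := by
  have hM := hK.big X hX.1
  obtain ⟨I, i1, -, i2⟩ := C1.slow_whp (P := sP X) (fun (z : ℚ × ℚ) n ω => 0 ≤ z.1 → 0 ≤ z.2 →
    z.2 ≤ 1 → ¬Bad wt c S (X n) (A n) z.1 (z.2 * (X n).M) (z.2 * (X n).M / L) ω) (fun _ _ => True)
    (fun z => by
      by_cases e : 0 ≤ z.1 ∧ 0 ≤ z.2 ∧ z.2 ≤ 1
      · exact (hb _ _ e.1 e.2.1 e.2.2).mono (.of_forall fun _ _ _ u _ _ _ => u)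
      · exact Whp.of_ev (.of_forall fun _ _ _ u v w => absurd ⟨u, v, w⟩ e))
    fun _ => Eventually.of_forall fun _ => trivial
  obtain ⟨G, g1, g⟩ := trim hM _ fun c hc => by
    filter_upwards [i2 _ one_half_pos, G39.dl_lt hM one_half_pos hc] with n a b
    rw [pb_not] at a
    linarith
  refine ⟨_, hX.res hK g, fun a a0 ε hc => ?_⟩
  obtain ⟨q, q0, q1⟩ := exists_rat_btwn (half_pos hc)
  have q2 : 0 < q := by exact_mod_cast q0
  filter_upwards [g.mem, g.fb a _ (half_pos hc), hM.ev 1,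
    (eventually_all_finite (Set.finite_Iic ⌊1 / (q : ℝ)⌋₊)).2 fun i _ => i1 (a, i * q)]
    with n x z w s ω hω h ht l E l1 l2 l3
  obtain ⟨o1, o2⟩ := x ω hω
  have m0 : (0 : ℝ) < (X n).M := one_pos.trans_le w
  have L0 := one_pos.trans_le h1
  by_cases h0 : h ≤ 0
  · exact (pb_le_one _ _).trans (Real.one_le_exp (sub_nonneg.2
      ((div_nonpos_of_nonpos_of_nonneg h0 L0.le).trans (mul_pos hc m0).le)))
  have p0 := mul_pos q0 m0
  have f1 := Nat.floor_le (div_pos (not_le.1 h0) p0).le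
  have f2 := Nat.lt_floor_add_one (h / (q * (X n).M))
  rw [le_div_iff₀ p0] at f1
  rw [div_lt_iff₀ p0] at f2
  have e : ((⌊h / (q * (X n).M)⌋₊ * q : ℚ) : ℝ) * (X n).M =
      ⌊h / (q * (X n).M)⌋₊ * (q * (X n).M) := by
    push_cast
    rw [mul_assoc]
  have ht' : h ≤ 1 * (X n).M := ht
  have b := g1 n ω o2 _ (s _ (Nat.floor_le_floor (show h / (q * (X n).M) ≤ 1 / q by
    rw [div_le_div_iff₀ p0 q0]
    nlinarith [mul_le_mul_of_nonneg_right ht' q0.le]))) a0 (by positivity) (by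
      have : ((⌊h / (q * (X n).M)⌋₊ * q : ℚ) : ℝ) ≤ 1 :=
        le_of_mul_le_mul_right (e.trans_le (f1.trans ht')) m0
      exact_mod_cast this)
  rw [e] at b
  have f3 := ex_le (neg_le_neg f1)
  have mem : ∀ v ∈ (X n).P.S, G n v → v ∈ (cE (X n).P (G n)).S := fun v u w =>
    (mem_cE ⟨ω, o1, o2⟩ v).2 ⟨u, w⟩
  refine (pb_mono (F := fun v => G n v ∧ E v) fun v hv u => ⟨(x v (cE_sub hv)).2, u⟩).trans
    ((LC.pb_res o1 o2 (z ω o1 o2) _).trans ((mul_le_mul_of_nonneg_left (not_lt.1 fun u =>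
      b ⟨l, _, l1.mono f3, l2, fun v v' k1 k2 k3 k4 => (l3 v v' ⟨mem v k1.1 k3.1, mem v' k1.2.1 k4.1,
        k1.2.2⟩ k2 k3.2 k4.2).trans f3, u⟩) (Real.exp_pos _).le).trans ?_))
  rw [← Real.exp_add]
  refine ex_le ?_
  have f4 : (h - ⌊h / (q * (X n).M)⌋₊ * (q * (X n).M)) / L ≤ q * (X n).M :=
    (div_le_self (by linarith) h1).trans (by linarith)
  rw [sub_div] at f4
  simp only [sM]
  nlinarith

theorem fin (hK : Cls wt K) (hX : G0 wt c K S C X A) {L : ℝ}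
    (h : ∀ x, 0 ≤ x → HC wt c S L X A x 1) :
    ∃ X' : ∀ n, Pr κ (Ω n) (Λ n), K X' ∧ HA wt c S C L X' A := by
  let T := fun n => Pr κ (Ω n) (Λ n) × (Ω n → κ → κ → ℝ)
  have e0 : ∀ k : ℕ, (0 : ℚ) < 1 / (k + 1) := fun k => by positivity
  have e1 : ∀ (k i : ℕ) (x : ℚ), i ≤ k → -(i : ℚ) ≤ x → 0 ≤ 1 + 1 / (k + 1 : ℚ) * x :=
    fun k i x u v => by
    have : (i : ℚ) ≤ k := by exact_mod_cast u
    rw [one_div_mul_eq_div, add_div' _ _ _ (by positivity)]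
    exact div_nonneg (by linarith) (by positivity)
  obtain ⟨k, -, hk⟩ := cf_diag (K := fun (i : ℕ) (Y : ∀ n, T n) => K (fun n => (Y n).1) ∧
      HI wt c S C (-(i : ℚ) ≤ ·) (fun n => (Y n).1) (fun n => (Y n).2) ∧
      ∀ x : ℚ, -(i : ℚ) ≤ x → HC wt c S L (fun n => (Y n).1) (fun n => (Y n).2) x i)
    (fun i => (hK.cf.comp (S' := T) fun _ z => z.1).and ((cf_hi wt c S C _).and
      (cf_all fun x => cf_all fun _ => cf_hc wt c S L x i)))
    (fun k n => ((X n).idx 1 (1 / (k + 1)), A n)) fun k i hi =>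
      ⟨hK.idx X 1 _ (e0 k) (div_le_one_of_le₀ (by simp) (by positivity)) hX.1,
        hX.2.idx 1 (e0 k) fun x u => e1 k i x hi u, fun x u =>
        HC.idx (hK.big X hX.1) (h _ (e1 k i x hi u)) (e0 k) (Nat.cast_nonneg _) (by
          push_cast
          rw [mul_one_div]
          exact div_le_one_of_le₀ (by exact_mod_cast Nat.le_succ_of_le hi) (by positivity))⟩
  have ex : ∀ x : ℚ, -(⌈-x⌉₊ : ℚ) ≤ x := fun x => neg_le.1 (Nat.le_ceil _)
  refine ⟨_, (hk 0).1, ⟨(hk 0).2.1.sh, (hk 0).2.1.sb, fun x _ => (hk _).2.1.fn x (ex x),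
    fun x _ => (hk _).2.1.inc x (ex x)⟩, fun x T => ((hk (⌈-x⌉₊ + ⌈T⌉₊)).2.2 x ?_).mono ?_⟩
  · push_cast
    linarith [ex x, Nat.cast_nonneg (α := ℚ) ⌈T⌉₊]
  · push_cast
    linarith [Nat.le_ceil T, Nat.cast_nonneg (α := ℝ) ⌈-x⌉₊]

variable (wt c S) in
/-- One unit form in every atom of level zero. -/
structure R0 (X : ∀ n, Pr κ (Ω n) (Λ n)) (A : ∀ n, Ω n → κ → κ → ℝ) (l : ∀ n, Ω n → κ → ℝ) :
    Prop where
  fn : FnE (sP X) l (sO X 0)
  fm : ∀ᶠ n in UF, ∀ ω ∈ (X n).P.S, Fm c S (A n ω) (dl (sM X) 1 n) (l n ω) ∧ ∑ b, |l n ω b| = 1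
  hy : ∀ᶠ n in UF, (X n).Hy wt (l n) 0 (dl (sM X) 1 n)

theorem pos (hK : Cls wt K) (hX : G0 wt c K S C X A)
    (h : ∀ i : ℕ, ∃ a η : ℚ, 0 ≤ a ∧ 0 ≤ η ∧ η ≤ 1 ∧ Pos (sP X) fun n ω =>
      Bad wt c S (X n) (A n) a (η * (X n).M) (η * (X n).M / (i + 1)) ω) :
    ∃ (X' : ∀ n, Pr κ (Ω n) (Λ n)) (l : ∀ n, Ω n → κ → ℝ),
      G0 wt c K S C X' A ∧ R0 wt c S X' A l := by
  classical
  choose a η a0 η0 η1 h using h
  have e0 : ∀ i, 0 < η i := fun i => (η0 i).lt_of_ne fun e => by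
    obtain ⟨n, ω, -, l, E, -, -, -, b⟩ := (h i).ex.exists
    rw [← e, Rat.cast_zero, zero_mul, zero_div, neg_zero, Real.exp_zero] at b
    exact b.not_ge (pb_le_one _ _)
  have hY := fun i => hX.idx hK (a0 i) (e0 i) (η1 i)
  choose G l g1 g2 g3 g4 using fun i n => one wt c S ((X n).idx (a i) (η i)) (A n) 0
    (η i * (X n).M) (η i * (X n).M / (i + 1))
  let T := fun n => (Pr κ (Ω n) (Λ n) × (Ω n → κ → κ → ℝ)) × (Ω n → Prop) × (Ω n → κ → ℝ)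
  let p : ℕ → ∀ n, T n → Prop := fun i n y => Fn y.1.1.P y.2.2 (y.1.1.O 0) ∧
    (∀ ω ∈ y.1.1.P.S, y.2.1 ω → Fm c S (y.1.2 ω) (Real.exp (-(1 * y.1.1.M))) (y.2.2 ω) ∧
      ∑ b, |y.2.2 ω b| = 1) ∧
    (∀ ω v, y.1.1.At 0 ω v → y.2.1 ω → y.2.1 v →
      |∑ b, y.2.2 ω b * y.1.1.co wt 0 ω v b| ≤ Real.exp (-(1 * y.1.1.M))) ∧
    Real.exp (-(2 / (i + 1) * y.1.1.M)) ≤ pb y.1.1.P y.2.1
  obtain ⟨j, -, hj⟩ := cf_diag (K := fun i (Y : ∀ n, T n) =>
      G0 wt c K S C (fun n => (Y n).1.1) (fun n => (Y n).1.2) ∧ ∀ᶠ n in UF, p i n (Y n))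
    (fun i => ((cf_g0 hK).comp (S' := T) fun _ y => y.1).and (cf_ev (p i)))
    (fun i n => (((X n).idx (a i) (η i), A n), G i n, l i n)) fun i i' hi => ⟨hY i, by
      obtain ⟨c, c0, hc⟩ := h i
      filter_upwards [hc, (hY i).2.fn 0 le_rfl,
        (hK.big _ (hY i).1).ev (1 - (i + 1) * Real.log c)] with n b fa b2
      have f2 : η i * (X n).M < (((X n).idx (a i) (η i)).M : ℝ) + 1 := Nat.lt_floor_add_one _
      have f3 := ex_le (neg_le_neg ((one_mul _).trans_le (fl_le X (a i) (e0 i) n)))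
      refine ⟨g1 i n, fun ω o e => (g3 i n fa ω o e).imp_left fun u => u.mono f3,
        fun ω v e u w => (g4 i n ω v e u w).trans f3, le_trans ?_ (g2 i n)⟩
      have e : a i = a i + η i * 0 := by simp
      rw [e] at b
      refine le_trans ?_ (mul_le_mul_of_nonneg_left b (Real.exp_pos _).le)
      rw [← Real.exp_log c0, ← Real.exp_add]
      refine ex_le ((neg_le_neg (mul_le_mul_of_nonneg_right (div_le_div_of_nonneg_left
        zero_le_two (by positivity) (by exact_mod_cast Nat.succ_le_succ hi :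
          (i' + 1 : ℝ) ≤ i + 1)) (Nat.cast_nonneg _))).trans ?_)
      rw [div_mul_eq_mul_div, ← neg_div, ← neg_div, div_add' _ _ _ (by positivity)]
      exact div_le_div_of_nonneg_right (by
        dsimp only [sM] at b2 ⊢
        linarith [Nat.cast_nonneg (α := ℝ) ((X n).idx (a i) (η i)).M]) (by positivity)⟩
  obtain ⟨G', a1, g⟩ := trim (hK.big _ (hj 0).1.1) (fun n => G (j n) n) fun c hc => by
    obtain ⟨i, hi⟩ := exists_nat_one_div_lt (half_pos hc)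
    exact (hj i).2.mono fun n u => (ex_le (neg_le_neg (mul_le_mul_of_nonneg_right
      (by rw [div_eq_mul_one_div]; linarith) (Nat.cast_nonneg _)))).trans u.2.2.2
  exact ⟨_, fun n => l (j n) n, (hj 0).1.res hK g, FnE.cE ((hj 0).2.mono fun n u => u.1) G',
    ((hj 0).2.and g.mem).mono fun n u ω hω => u.1.2.1 ω (u.2 ω hω).1 (a1 n ω (u.2 ω hω).2),
    ((hj 0).2.and g.mem).mono fun n u ω v e => u.1.2.2.1 ω v e.res
      (a1 n ω (u.2 ω e.1).2) (a1 n v (u.2 v e.2.1).2)⟩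

variable (wt c S) in
/-- A homogeneous form for the levels up to `R`, with the accuracy `μ`. -/
structure R1 (f : κ) (R : ℚ) (μ : ℝ) (X : ∀ n, Pr κ (Ω n) (Λ n)) (A : ∀ n, Ω n → κ → κ → ℝ)
    (l : ∀ n, Ω n → κ → ℝ) : Prop where
  fn : FnE (sP X) l (sO X 0)
  fm : ∀ᶠ n in UF, ∀ ω ∈ (X n).P.S, Fm c S (A n ω) (dl (sM X) μ n) (l n ω) ∧ l n ω f = 1 ∧
    (∀ b, wt b ≠ wt f → l n ω b = 0) ∧ ∀ b, |l n ω b| ≤ 1
  hy : ∀ a, 0 ≤ a → a ≤ R → ∀ᶠ n in UF, (X n).Hy wt (l n) a (dl (sM X) μ n)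

theorem ex_q {x : ℝ} (h : 0 < x) : ∃ q : ℚ, 0 < q ∧ (q : ℝ) ≤ x :=
  (exists_rat_btwn h).imp fun _ u => ⟨by exact_mod_cast u.1, u.2.le⟩

theorem win (hK : Cls wt K) (w0 : ∀ b, 0 ≤ wt b) (hc : ∀ a b e, c a b e ≠ 0 → wt e = wt a + wt b)
    (hX : G0 wt c K S C X A) {l : ∀ n, Ω n → κ → ℝ} (r : R0 wt c S X A l) :
    ∃ (X' : ∀ n, Pr κ (Ω n) (Λ n)) (f : κ) (μ : ℝ) (l' : ∀ n, Ω n → κ → ℝ),
      0 < μ ∧ G0 wt c K S C X' A ∧ R1 wt c S f 1 μ X' A l' := by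
  classical
  have hM := hK.big X hX.1
  have : Nonempty κ := by
    by_contra c
    rw [not_nonempty_iff] at c
    obtain ⟨n, a⟩ := r.fm.exists
    obtain ⟨ω, b⟩ := ex_pt (X n).P
    simpa using (a ω b).2
  obtain ⟨W, W1, hW⟩ : ∃ W : ℝ, 1 ≤ W ∧ ∀ b, wt b ≤ W := ⟨∑ b, wt b + 1,
    le_add_of_nonneg_left (sum_nonneg fun b _ => w0 b),
    fun b => (single_le_sum (fun b _ => w0 b) (mem_univ b)).trans (lt_add_one _).le⟩
  obtain ⟨ρ, ρ0, ρ1, hρ⟩ : ∃ ρ : ℝ, 0 < ρ ∧ ρ ≤ 1 ∧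
      ∀ b b', wt b ≠ wt b' → ρ ≤ |wt b - wt b'| := by
    obtain ⟨p, hp⟩ := Finite.exists_min fun p : κ × κ =>
      if wt p.1 = wt p.2 then 1 else |wt p.1 - wt p.2|
    refine ⟨_, ?_, by simpa using hp (p.1, p.1), fun b b' e => (hp (b, b')).trans_eq (if_neg e)⟩
    split_ifs with e
    exacts [one_pos, abs_pos.2 (sub_ne_zero.2 e)]
  obtain ⟨δ, δ0, hδ⟩ := ex_q (x := 1 / (8 * W * (Fintype.card (κ × κ) + 1))) (by positivity)
  have δ1 : (0 : ℝ) < δ := by exact_mod_cast δ0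
  obtain ⟨e, e0, he⟩ := ex_q (x := ρ * δ / (4 * W)) (by positivity)
  have e1 : (0 : ℝ) < e := by exact_mod_cast e0
  rw [le_div_iff₀ (by positivity)] at hδ he
  choose ι hι using fun n ω => ex_wn wt (l n ω) (t := δ * (X n).M) (by positivity) hρ
  obtain ⟨⟨i, f⟩, p, p0, hp⟩ :=
    KSA.pig (sP X) (fun _ _ => True) ι ⟨1, one_pos, .of_forall fun n => (pb_true _).ge⟩
  obtain ⟨G, g1, g⟩ := trim hM _ fun c hc =>
    ((G39.dl_lt hM p0 hc).and hp).mono fun n a => a.1.le.trans a.2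
  have c0 : (0 : ℝ) ≤ Fintype.card (κ × κ) := Nat.cast_nonneg _
  have i0 : (0 : ℝ) ≤ (i : ℕ) := Nat.cast_nonneg _
  have i1 : ((i : ℕ) : ℝ) ≤ Fintype.card (κ × κ) + 1 := by exact_mod_cast i.2.le
  have i2 : W * (i * δ) ≤ 1 / 8 := by
    nlinarith [mul_le_mul_of_nonneg_left i1 (mul_pos δ1 (one_pos.trans_le W1)).le]
  have δ2 : (δ : ℝ) ≤ 1 / 8 := by
    nlinarith [mul_nonneg δ1.le (mul_nonneg (zero_le_one.trans W1) c0)]
  have γ0 : 0 < ρ * δ := mul_pos ρ0 δ1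
  have γ1 : ρ * δ ≤ 1 / 8 := by nlinarith
  have e2 : (e : ℝ) ≤ 1 := by nlinarith
  have fl : ∀ n, ((((X n).res (G n)).idx (i * δ) e).M : ℝ) ≤ (X n).M := fun n =>
    (fl_le (fun n => (X n).res (G n)) _ e0 n).trans (mul_le_of_le_one_left (Nat.cast_nonneg _) e2)
  have key : ∀ᶠ n in UF, ∀ ω ∈ (cE (X n).P (G n)).S,
      Wn wt (l n ω) (i * (δ * (X n).M)) (ρ * (δ * (X n).M)) f ∧
      Fm c S (A n ω) (dl (sM X) 1 n) (l n ω) ∧ ∑ b, |l n ω b| = 1 ∧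
      1 ≤ Fintype.card κ * Real.exp (W * (i * (δ * (X n).M))) * |l n ω f| := by
    filter_upwards [g.mem, r.fm] with n b c ω hω
    have h1 := b ω hω
    have h2 := hι n ω
    rw [(g1 n ω h1.2).2] at h2
    refine ⟨h2, (c ω h1.1).1, (c ω h1.1).2, (h2.low (by positivity) (by positivity) hW
      (c ω h1.1).2).trans (mul_le_mul_of_nonneg_left (mul_le_of_le_one_right (abs_nonneg _)
        (Real.exp_le_one_iff.2 (neg_nonpos.2 (mul_nonneg (w0 f) (by positivity))))) (by positivity))⟩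
  have nz : ∀ {K y : ℝ}, 1 ≤ K * |y| → y ≠ 0 := fun a z => by simp [z] at a; linarith
  have s0 : (0 : ℚ) ≤ i * δ := by positivity
  refine ⟨fun n => ((X n).res (G n)).idx (i * δ) e, f, ρ * δ / 4, fun n ω => pt wt (l n ω) f,
    by positivity, (hX.res hK g).idx hK s0 e0 (by exact_mod_cast e2), ?_, ?_, fun a a0 a1 => ?_⟩
  · exact ((r.fn.trans (hK.nest X hX.1 0 (i * δ + e * 0) (by positivity))).cE G).mono
      fun n a u hu v hv z => congrArg (pt wt · f) (a u hu v hv z)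
  · filter_upwards [key, hX.2.sh, G39.big_dl hM (2 * Fintype.card κ)
      (show 0 < ρ * δ / 4 by positivity)] with n a b k ω hω
    obtain ⟨h1, h2, -, h4⟩ := a ω hω
    have m0 : (0 : ℝ) ≤ (X n).M := Nat.cast_nonneg _
    rw [G39.dl_inv] at k
    refine ⟨⟨fun y hy => by simp [pt, h2.1 y hy], fun y z => ?_⟩, by simp [pt, nz h4],
      fun y hy => if_neg hy, h1.pt_le⟩
    have h5 := (pt_br (nz h4) ((b ω (cE_sub hω)).br hc y z)).trans (h2.2 y z)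
    refine (le_mul_of_one_le_left (abs_nonneg _) h4).trans (((mul_assoc _ _ _).trans_le
      (mul_le_mul_of_nonneg_left h5 (by positivity))).trans (le_trans ?_
      (num (u := W * (i * (δ * (X n).M))) (w := -(1 * (X n).M)) (v := -(ρ * δ / 2 * (X n).M))
        (Nat.cast_nonneg _) le_rfl (fl n) γ0.le (by rwa [mul_one]) (by nlinarith) le_rfl)))
    rw [mul_assoc]
    exact mul_le_mul_of_nonneg_left (le_add_of_nonneg_right (by positivity)) (Nat.cast_nonneg _)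
  · have a2 : (a : ℝ) ≤ 1 := by exact_mod_cast a1
    have a3 : (0 : ℝ) ≤ a := by exact_mod_cast a0
    have γ8 : 0 < ρ * δ / 8 := by positivity
    filter_upwards [key, hK.box X hX.1 (i * δ + e * a) _ γ8, r.hy,
      hK.nest X hX.1 0 (i * δ + e * a) (by positivity),
      (hK.lv X hX.1 (i * δ + e * a)).1 e e1, (hK.lv X hX.1 (i * δ + e * a)).2 e e1,
      G39.big_dl hM (2 * Fintype.card κ) γ8] with n b c d y z z' w ω v x
    have x1 : (X n).At (i * δ + e * a) ω v := Pr.At.res x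
    have m0 : (0 : ℝ) ≤ (X n).M := Nat.cast_nonneg _
    have m1 := mul_nonneg e1.le m0
    rw [G39.dl_inv] at w
    push_cast at z z'
    refine ((b ω x.1).1.hy (Δ := (X n).lv (i * δ + e * a) - (X n).lv 0) (r := 2 * e * (X n).M)
      (θ := Real.exp (-(1 * (X n).M))) (by positivity) (by positivity) w0 hW (b ω x.1).2.2.1
      (abs_le.2 ⟨by nlinarith, by nlinarith⟩) (c ω v x1) (le_trans (le_of_eq ?_)
        (d ω v ⟨x1.1, x1.2.1, y ω x1.1 v x1.2.1 x1.2.2⟩))).trans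
      (num (Nat.cast_nonneg _) (Real.one_le_exp (by positivity)) (fl n) γ0.le
        ((mul_le_mul_of_nonneg_right w (Real.exp_pos _).le).trans_eq (by
          rw [← Real.exp_add]; congr 1; ring)) (by nlinarith) (by nlinarith))
    refine congrArg _ (sum_congr rfl fun t _ => ?_)
    rw [Pr.co, Pr.co, ← mul_assoc (Real.exp _), ← Real.exp_add]
    congr 3
    ring

theorem drop (hK : Cls wt K) (hX : G0 wt c K S C X A) {l : ∀ n, Ω n → κ → ℝ} {f : κ} {μ : ℝ}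
    (μ0 : 0 < μ) (r : R1 wt c S f 1 μ X A l) : f ∈ S ∧ ∃ (X' : ∀ n, Pr κ (Ω n) (Λ n)),
      G0 wt c K (S.erase f) (2 * C) X' fun n ω => cut (A n ω) (l n ω) f := by
  refine ⟨by_contra fun z => ?_, ?_⟩
  · obtain ⟨n, a⟩ := r.fm.exists
    obtain ⟨ω, b⟩ := ex_pt (X n).P
    exact one_ne_zero ((a ω b).2.1.symm.trans ((a ω b).1.1 f z))
  let T := fun n => (Pr κ (Ω n) (Λ n) × (Ω n → κ → κ → ℝ)) × (Ω n → κ → ℝ)
  have e0 : ∀ k : ℕ, (0 : ℚ) < 1 / (k + 1) := fun k => by positivity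
  obtain ⟨k, -, hk⟩ := cf_diag (K := fun (i : ℕ) (Y : ∀ n, T n) =>
      G0 wt c K S C (fun n => (Y n).1.1) (fun n => (Y n).1.2) ∧
      R1 wt c S f i (μ * i) (fun n => (Y n).1.1) (fun n => (Y n).1.2) fun n => (Y n).2)
    (fun i => ((cf_g0 hK).comp (S' := T) fun _ y => y.1).and (CF.congr
      ((cf_ev (S := T) fun _ y => Fn y.1.1.P y.2 (y.1.1.O 0)).and ((cf_ev (S := T) fun _ y =>
        ∀ ω ∈ y.1.1.P.S, Fm c S (y.1.2 ω) (Real.exp (-(μ * i * y.1.1.M))) (y.2 ω) ∧ y.2 ω f = 1 ∧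
          (∀ b, wt b ≠ wt f → y.2 ω b = 0) ∧ ∀ b, |y.2 ω b| ≤ 1).and
        (cf_all fun a : ℚ => cf_all fun _ : 0 ≤ a => cf_all fun _ : a ≤ i => cf_ev (S := T)
          fun _ y => y.1.1.Hy wt y.2 a (Real.exp (-(μ * i * y.1.1.M))))))
      fun _ => ⟨fun h => ⟨h.fn, h.fm, h.hy⟩, fun h => ⟨h.1, h.2.1, h.2.2⟩⟩))
    (fun k n => (((X n).idx 0 (1 / (k + 1)), A n), l n)) fun k i hi => by
      have i1 : (i : ℚ) ≤ k + 1 := by exact_mod_cast Nat.le_succ_of_le hi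
      have u : ∀ n, dl (sM X) μ n ≤ dl (sM fun n => (X n).idx 0 (1 / (k + 1))) (μ * i) n :=
        fun n => ex_le (neg_le_neg ((fl_mul X 0 (e0 k) _ n).trans (mul_le_mul_of_nonneg_right (by
          rw [abs_of_nonneg (by positivity), mul_assoc]
          refine mul_le_of_le_one_right μ0.le ?_
          push_cast
          rw [mul_one_div]
          exact div_le_one_of_le₀ (by exact_mod_cast i1) (by positivity)) (Nat.cast_nonneg _))))
      exact ⟨hX.idx hK le_rfl (e0 k) (div_le_one_of_le₀ (by simp) (by positivity)),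
        r.fn.trans (hK.nest X hX.1 0 _ (by simp)),
        r.fm.mono fun n a ω hω => (a ω hω).imp_left fun b => b.mono (u n), fun a a0 a1 =>
        (r.hy (0 + 1 / (k + 1) * a) (by positivity) (by
          rw [zero_add, one_div_mul_eq_div]
          exact div_le_one_of_le₀ (a1.trans i1) (by positivity))).mono
          fun n b ω v e => (b ω v e).trans (u n)⟩
  set X' := fun n => (X n).idx 0 (1 / (k n + 1)) with hX'
  obtain ⟨⟨k1, k2⟩, k3⟩ := hk 0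
  have hM : Big (sM X') := hK.big _ k1
  have sm : ∀ (T : ℝ) (i : ℕ), T + 1 ≤ μ * i → ∀ᶠ n in UF, ∀ s : ℝ, s ≤ 4 → 0 ≤ C →
      s * Real.exp (-((T + 1) * (X' n).M)) + C * (s * dl (sM X') (μ * i) n) ≤
        Real.exp (-(T * (X' n).M)) := fun T i h =>
    (G39.dl_lt hM (K := 1 / (4 + |C| * 4)) (by positivity) one_pos).mono fun n a s s4 c0 => by
      have b := G39.dl_anti (sM X') h n
      have d : Real.exp (-((T + 1) * (X' n).M)) = dl (sM X') T n * dl (sM X') 1 n :=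
        G39.dl_add (sM X') T 1 n
      have p := G39.dl_pos (sM X') T n
      have p' := G39.dl_pos (sM X') (μ * i) n
      have p'' := G39.dl_pos (sM X') 1 n
      rw [G39.dl_add] at b
      rw [lt_div_iff₀ (by positivity), abs_of_nonneg c0] at a
      rw [d]
      change _ ≤ dl (sM X') T n
      nlinarith [mul_le_mul_of_nonneg_left a.le p.le, mul_pos p p'',
        mul_le_mul_of_nonneg_left ((mul_le_mul_of_nonneg_right s4 p'.le).trans
          (mul_le_mul_of_nonneg_left b (by norm_num))) c0]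
  have ex : ∀ (x : ℚ) (T : ℝ), ∃ i : ℕ, x ≤ i ∧ T + 1 ≤ μ * i := fun x T =>
    ⟨⌈x⌉₊ + ⌈(T + 1) / μ⌉₊, by
      push_cast
      linarith [Nat.le_ceil x, Nat.cast_nonneg (α := ℚ) ⌈(T + 1) / μ⌉₊], by
      rw [← div_le_iff₀' μ0]
      push_cast
      linarith [Nat.le_ceil ((T + 1) / μ), Nat.cast_nonneg (α := ℝ) ⌈x⌉₊]⟩
  refine ⟨X', k1, (k2.sh.and k3.fm).mono fun n a ω hω => (a.1 ω hω).cut (a.2 ω hω).1.1
    (a.2 ω hω).2.1 (a.2 ω hω).2.2.1 (a.2 ω hω).2.2.2, fun T => ?_, fun x b => ?_, fun x b T => ?_⟩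
  · obtain ⟨i, -, hi⟩ := ex 0 T
    filter_upwards [k2.sh, k2.sb (T + 1), (hk i).2.fm, sm T i hi] with n a b d e ω hω u v w
    exact (sb_cut (b ω hω) (a ω hω).bd (d ω hω).1.2 (d ω hω).2.2.2 u v w).trans
      (e 4 le_rfl ((abs_nonneg _).trans ((a ω hω).bd f f)))
  · exact ((k2.fn x b).and (k3.fn.trans (hK.nest _ k1 0 x b))).mono fun n a u hu v hv e =>
      congrArg₂ (cut · · f) (a.1 u hu v hv e) (a.2 u hu v hv e)
  · obtain ⟨i, xi, hi⟩ := ex x T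
    filter_upwards [k2.sh, k2.inc x b (T + 1), (hk i).2.hy x b xi, sm T i hi] with n a b d e ω v u w
    refine ((b ω v u).cut (a ω u.1).bd (d ω v u) w).trans ?_
    simpa only [one_mul] using e 1 (by norm_num) ((abs_nonneg _).trans ((a ω u.1).bd f f))

omit [DecidableEq κ] in
theorem Bad.mono {Ω Λ : Type} {X : Pr κ Ω Λ} {A : Ω → κ → κ → ℝ} {a : ℚ} {h g g' : ℝ} {ω : Ω}
    (e : Bad wt c S X A a h g ω) (b : g ≤ g') : Bad wt c S X A a h g' ω :=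
  let ⟨l, E, x, y, z, w⟩ := e
  ⟨l, E, x, y, z, (ex_le (neg_le_neg b)).trans_lt w⟩

end Seq

theorem pac : SPac := by
  intro κ _ _ Ω Λ wt c K S₀ C₀ X₀ A₀ w0 hc hK h1 h2
  obtain ⟨S, ⟨hS, C, X, A, hX⟩, hm⟩ := (measure Finset.card).wf.has_min
    {S | S ⊆ S₀ ∧ ∃ C X A, G0 (Ω := Ω) (Λ := Λ) wt c K S C X A} ⟨S₀, subset_rfl, C₀, X₀, A₀, h1, h2⟩
  by_cases h : ∀ i : ℕ, ∃ a η : ℚ, 0 ≤ a ∧ 0 ≤ η ∧ η ≤ 1 ∧ Pos (sP X) fun n ω =>
      Bad wt c S (X n) (A n) a (η * (X n).M) (η * (X n).M / (i + 1)) ω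
  · obtain ⟨X, l, hX, r⟩ := pos hK hX h
    obtain ⟨X, f, μ, l, μ0, hX, r⟩ := win hK w0 hc hX r
    obtain ⟨m, X, hX⟩ := drop hK hX μ0 r
    exact absurd (card_erase_lt_of_mem m) (hm _ ⟨(erase_subset f S).trans hS, _, _, _, hX⟩)
  · push Not at h
    obtain ⟨i, hi⟩ := h
    have one : (1 : ℝ) ≤ i + 1 := by simp
    obtain ⟨X, hX, a⟩ := nul hK hX one fun a η u v w => S20.whp_not (hi a η u v w)
    obtain ⟨X, b⟩ := fin hK hX a
    exact ⟨S, C, _, X, A, hS, one, b⟩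

end Pool.Agent.MP_5168f5_an.QA.PA
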