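import Pool.Agent.MP_5168f5_an.QA.AbL1
import Pool.Agent.MP_5168f5_an.QA.Pac
import Pool.Agent.MP_5168f5_an.QA.Bd
import Pool.Agent.MP_5168f5_an.AN.Cx

/-! The base class of the local part: a member with the minimal subspace exists. -/

namespace Pool.Agent.MP_5168f5_an.QA.AB

open H19 H17S H17F R4 AN Filter Finset IsNilpotent MvPolynomial
open G39 (dl)
open GA (Mt)
open N2 (Uni El eB eW tri mem_F0 vec_eB vec_mem)
open Fr (act nz act_nz)

variable {N D m : ℕ} {kk la : Fin m → ℝ} {o τ : Fin m}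

/-! ### A new base level -/

theorem sc_one (y : ℝ) (p q : Fin m) :
    Real.exp ((la p - la q) * y) * (1 : Mt (Fin m)) p q = (1 : Mt (Fin m)) p q := by
  by_cases e : p = q
  · simp [e]
  · simp [Matrix.one_apply_ne e]

/-- The normalisation is a homomorphism. -/
noncomputable def scH (la : Fin m → ℝ) (y : ℝ) : Mt (Fin m) →+* Mt (Fin m) where
  toFun := Fr.sc la y
  map_one' := Matrix.ext fun p q => sc_one y p q
  map_zero' := Matrix.ext fun p q => by simp [Fr.sc]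
  map_add' u v := Matrix.ext fun p q => by simp [Fr.sc, mul_add]
  map_mul' u v := Matrix.ext fun p q => by
    simp only [Fr.sc, Matrix.of_apply, Matrix.mul_apply, mul_sum]
    refine sum_congr rfl fun r _ => ?_
    rw [mul_mul_mul_comm, ← Real.exp_add]
    congr 3
    ring

theorem sc_inv (y : ℝ) {u : Mt (Fin m)} (h : IsUnit u.det) : (Fr.sc la y u)⁻¹ = Fr.sc la y u⁻¹ :=
  Matrix.inv_eq_left_inv (((scH la y).map_mul _ _).symm.trans
    (by rw [Matrix.nonsing_inv_mul _ h, map_one]))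

theorem sc_div (y : ℝ) {u : Mt (Fin m)} (h : IsUnit u.det) (v : Mt (Fin m)) :
    (Fr.sc la y u)⁻¹ * Fr.sc la y v = Fr.sc la y (u⁻¹ * v) := by
  rw [sc_inv y h]; exact ((scH la y).map_mul _ _).symm

theorem uni_sc (y : ℝ) {u : Mt (Fin m)} (h : Uni kk u) : Uni kk (Fr.sc la y u) := fun p q e => by
  rw [Fr.sc, Matrix.of_apply, h p q e, sc_one]

theorem lg_sc (y : ℝ) {j j' : Mt (Fin m)} (a : Uni kk j)
    (e : j' = j * GA.ex (eB la) (GA.lg (eB la) j j')) (b : El la) :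
    GA.lg (eB la) (Fr.sc la y j) (Fr.sc la y j') b = Real.exp (eW la b * y) * GA.lg (eB la) j j' b := by
  have z := vec_mem (GA.lg (eB la) j j')
  have k := lg_eq (la := la) (j := Fr.sc la y j') (Z := Fr.sc la y (GA.vec (eB la) (GA.lg (eB la) j j')))
    (uni_sc (la := la) y a).det (mem_F0.2 fun p q c => by rw [Fr.sc, Matrix.of_apply, mem_F0.1 z p q c, mul_zero])
    (by
      nth_rw 1 [e]
      exact ((scH la y).map_mul _ _).trans (congrArg _ (map_exp ((tri la).nil z) (scH la y))))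
  rw [← vec_eB (GA.lg _ _ _) b, k, Fr.sc, Matrix.of_apply, vec_eB, eW]

/-- The frames with the base level `b`. -/
noncomputable def Fd.rg {Ω : Type} (la : Fin m → ℝ) (F : Fd N D m Ω) (b : ℝ) : Fd N D m Ω :=
  ⟨b, fun a => F.T a + la a * (b - F.b), fun ω => nz la (b - F.b) (F.E ω),
    fun ω => Fr.sc la (b - F.b) (F.J ω)⟩

theorem rg_f {Ω : Type} {F : Fd N D m Ω} (b : ℝ) {ω : Ω} (h : Uni kk (F.J ω)) :
    (F.rg la b).f ω = nz la (b - F.b) (F.f ω) := by
  simp only [Fd.f, Fd.rg]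
  rw [act_nz, sc_inv _ h.det]

theorem rd_rg (X : St N D) (F : Fd N D m X.Ω) (b : ℝ) (x : ℚ) :
    rd la X (F.rg la b) x = fun a => Real.exp (la a * (b - F.b)) * rd la X F x a :=
  funext fun a => by
    simp only [rd, lb, Fd.rg]
    rw [← Real.exp_add]
    congr 1
    ring

variable {X : ℕ → St N D} {F : ∀ n, Fd N D m (X n).Ω} {E : ℕ} {η θ β js Γ : ℝ} {sl : ℕ → ℝ}
  {S : Finset (El la)} {C L : ℝ} {A : ∀ n, (X n).Ω → El la → El la → ℝ}

theorem MI.rg (h : MI kk la o τ X F) (q : Tq X E η θ β js Γ sl) (b : ℕ → ℝ) :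
    MI kk la o τ X fun n => (F n).rg la (b n) := by
  classical
  refine ⟨h.ko, h.lo, h.lτ, fun a c e => ⟨(h.near a c e).1, ?_⟩, fun a c e K => ?_,
    fun x => (h.fe x).mono fun n => (Fn.comp (nz la (b n - (F n).b)) _).trans, fun x => ?_,
    h.eo.mono fun n k ω hω => ?_, h.uj.mono fun n k ω hω => uni_sc _ (k ω hω),
    h.row.mono fun n k ω hω p e => ?_, (h.sp.and h.uj).mono fun n k ω hω G => ?_, ?_,
    fun x => ?_, fun x => ((h.up x).and h.uj).mono fun n k ω hω v hv z => ?_, fun x => ?_,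
    fun K => ((h.ev K).and h.uj).mono fun n k ω hω p => ?_⟩
  · simpa only [Fd.rg, (h.near a c e).1, add_sub_add_right_eq_sub] using (h.near a c e).2
  · refine (h.far a c e K).mono fun n k => ?_
    simp only [Fd.rg, lb] at k ⊢
    linarith
  · obtain ⟨c, k0, k⟩ := h.few x
    refine ⟨c, k0, k.mono fun n k ω hω => ?_⟩
    obtain ⟨U, u1, u2⟩ := k ω hω
    exact ⟨U.image (nz la (b n - (F n).b)), (Nat.cast_le.2 card_image_le).trans u1,
      fun v hv z => mem_image_of_mem _ (u2 v hv z)⟩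
  · obtain ⟨k1, t, k2⟩ := k ω hω
    refine ⟨by simp [Fd.rg, nz, h.lo, k1], Real.exp (lg * (b n - (F n).b)) * t, ?_⟩
    simp only [Fd.rg, nz, h.lτ, Submodule.coe_smul, k2, smul_eq_C_mul, mul_sub (MvPolynomial.C _),
      ← mul_assoc, ← C_mul, ← Real.exp_add]
    congr 4
    ring
  · exact (congrArg (_ * ·) (k ω hω p e)).trans (sc_one _ _ _)
  · obtain ⟨c, e⟩ := k.1 ω hω G
    refine ⟨fun a => c a / Real.exp (la a * (b n - (F n).b)), e.trans ?_⟩
    simp [rg_f _ (k.2 ω hω), nz, smul_smul]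
  · obtain ⟨c, k0, k⟩ := h.dB
    refine ⟨c, k0, (k.and h.uj).mono fun n k ω hω => ?_⟩
    beta_reduce
    rw [rg_f _ (k.2 ω hω)]
    simp only [Fd.rg, Real.exp_add, mul_comm (Real.exp ((F n).T _))]
    exact (k.1 ω hω).scale BdA.hb_Bn fun a => Real.exp_pos (la a * (b n - (F n).b))
  · obtain ⟨c, k0, k⟩ := h.dg x
    refine ⟨c, k0, ((k.and h.uj).and (q.loc x x 1 one_pos)).mono fun n k ω hω => ?_⟩
    beta_reduce
    rw [rg_f _ (k.1.2 ω hω), rd_rg]
    exact (k.1.1 ω hω).scale (k.2.val ω hω).2.hb fun a => Real.exp_pos _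
  · exact (sc_div _ (k.2 ω hω).det _).symm ▸ uni_sc _ (k.1 ω hω v hv z)
  · obtain ⟨c, k0, k⟩ := h.inc x
    refine ⟨c, k0, (k.and h.uj).mono fun n k ω hω v hv z p r => ?_⟩
    rw [rd_rg]
    refine ((congrArg (fun u : Mt (Fin m) => |u p r|) (sc_div _ (k.2 ω hω).det _)).trans
      (abs_mul _ _)).trans_le ((mul_le_mul_of_nonneg_left (k.1 ω hω v hv z p r)
        (abs_nonneg _)).trans (le_of_eq ?_))
    rw [Real.abs_exp, sub_mul, Real.exp_sub]
    field_simp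
  · have e : Real.exp (la p * (b n - (F n).b)) * (1 : Mt (Fin m)) p o = (1 : Mt (Fin m)) p o := by
      simpa only [h.lo, sub_zero] using sc_one (la := la) (b n - (F n).b) p o
    rw [rg_f _ (k.2 ω hω), rd_rg, nz, Submodule.coe_smul, smul_eval, ← e, ← mul_sub, abs_mul,
      Real.abs_exp, mul_left_comm]
    exact mul_le_mul_of_nonneg_left (k.1 ω hω p) (Real.exp_pos _).le

theorem FM.rg (h : FM kk la o τ S C L X F A) (q : Tq X E η θ β js Γ sl) (b : ℕ → ℝ) :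
    FM kk la o τ S C L X (fun n => (F n).rg la (b n)) A := by
  have e : ∀ x, ∀ᶠ n in UF, ∀ v v', (pr kk la o τ (X n) (F n)).At x v v' →
      (pr kk la o τ (X n) ((F n).rg la (b n))).co (eW la) x v v' =
        (pr kk la o τ (X n) (F n)).co (eW la) x v v' := fun x => by
    filter_upwards [h.toMI.pair x, h.uj] with n a c v v' z
    funext p
    simp only [PA.Pr.co, pr, Fd.rg, lb]
    rw [lg_sc _ (c v z.1) (a v z.1 v' z.2.1 z.2.2).1, ← mul_assoc, ← Real.exp_add]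
    congr 3
    ring
  exact ⟨h.toMI.rg q b, ⟨h.ha.sh, h.ha.sb, h.ha.fn, fun x p T =>
    ((h.ha.inc x p T).and (e x)).mono fun n a v v' z => (a.2 v v' z).symm ▸ a.1 v v' z⟩,
    fun x T ε hε => ((h.ha.ac x T ε hε).and (e x)).mono fun n a ω hω t ht l G l1 l2 l3 =>
      a.1 ω hω t ht l G l1 l2 fun v v' z => a.2 v v' z ▸ l3 v v' z⟩

/-! ### The start -/

open Classical in
theorem MI.start (h : MI kk la o τ X F) : PA.HI (eW la) 0 (univ.filter (Pt kk la o τ)) 1 (0 ≤ ·)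
    (fun n => pr kk la o τ (X n) (F n)) fun _ _ b a => if a = b ∧ Pt kk la o τ b then 1 else 0 := by
  refine ⟨.of_forall fun n ω _ => ⟨fun b a c => ?_, fun b hb a => ?_, fun b a => ?_,
    fun a p c => if_neg fun d => c d.2⟩, fun T => .of_forall fun n ω _ a b e => ?_,
    fun x _ => .of_forall fun _ _ _ _ _ _ => rfl,
    fun x _ T => (h.pair x).mono fun n a v v' z b => ?_⟩
  · obtain ⟨rfl, d⟩ := not_not.1 fun d => c (if_neg d)
    exact ⟨mem_filter.2 ⟨mem_univ _, d⟩, rfl⟩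
  · simp [(mem_filter.1 hb).2]
  · split_ifs <;> simp
  · simp [PA.cA, GA.br, (Real.exp_pos _).le]
  · by_cases c : Pt kk la o τ b
    · simp [c, (Real.exp_pos _).le]
    · simp [c, PA.Pr.co, pr, (a v z.1 v' z.2.1 z.2.2).2 b c, (Real.exp_pos _).le]

/-! ### The closed class of the increments -/

/-- The data of a system on a given space. -/
structure Sd (N D : ℕ) (Ω : Type) : Type where
  P : FP Ω
  g : Sh N Ω
  M : ℕ
  u : ℕ
  lv : ℚ → ℕ
  S : ℚ → Ω → Dc N D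
  s0 : ℕ → ℝ
  j0 : ℝ

/-- The system. -/
abbrev Sd.st {Ω : Type} (Y : Sd N D Ω) : St N D := ⟨Ω, Y.P, Y.g, Y.M, Y.u, Y.lv, Y.S, Y.s0, Y.j0⟩

/-- The data. -/
abbrev Sd.of (X : St N D) : Sd N D X.Ω := ⟨X.P, X.g, X.M, X.u, X.lv, X.S, X.s0, X.j0⟩

/-- The projection of a class. -/
def Pj (kk la : Fin m → ℝ) (o τ : Fin m) (K : (ℕ → St N D) → Prop) {Ω : ℕ → Type}
    (F : ∀ n, Fd N D m (Ω n)) (Z : ∀ n, PA.Pr (El la) (Ω n) (Ln N × ℤ)) : Prop :=
  ∃ Y : ∀ n, Sd N D (Ω n), (K (fun n => (Y n).st) ∧ MI kk la o τ (fun n => (Y n).st) F) ∧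
    ∀ᶠ n in UF, pr kk la o τ (Y n).st (F n) = Z n

theorem cls {K : (ℕ → St N D) → Prop} (hK : Cl0 E η θ β js Γ sl K) (F : ∀ n, Fd N D m (X n).Ω) :
    PA.Cls (eW la) (Pj kk la o τ K F) := by
  have : ∀ n, Nonempty (Sd N D (X n).Ω) := fun n => ⟨Sd.of (X n)⟩
  let T := fun n => PA.Pr (El la) (X n).Ω (Ln N × ℤ) × Sd N D (X n).Ω
  refine ⟨Cx.cf_ex (((hK.cf.comp (S' := T) fun _ z => z.2.st).and
    (cf_mi (S := T) kk la o τ (fun _ z => z.2.st) fun n _ => F n)).and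
    (cf_ev (S := T) fun n z => pr kk la o τ z.2.st (F n) = z.1)),
    fun Z a e e0 e1 ⟨Y, k, z⟩ => ⟨fun n => Sd.of ((Y n).st.idx sl js a e),
      ⟨hK.idx _ a e e0 e1 k.1, k.2.idx (hK.tq _ k.1) a e0⟩,
      z.mono fun n u => congrArg (PA.Pr.idx · a e) u⟩,
    fun Z G ⟨Y, k, z⟩ g => ⟨fun n => Sd.of ((Y n).st.res (G n)),
      ⟨hK.res (fun n => (Y n).st) G k.1 ⟨fun c hc => ?_, fun x c hc => ?_⟩, k.2.res G⟩,
      z.mono fun n u => congrArg (PA.Pr.res · (G n)) u⟩,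
    fun Z ⟨Y, k, z⟩ => (hK.tq _ k.1).big.congr' (z.mono fun n u => congrArg PA.Pr.M u),
    fun Z ⟨Y, k, z⟩ a => ⟨fun ε hε => ?_, fun ε hε => ?_⟩, fun Z ⟨Y, k, z⟩ a a' e => ?_,
    fun Z ⟨Y, k, z⟩ x c hc => ?_⟩
  · filter_upwards [g.top c hc, z] with n u v
    simp only [dl, PA.sM, ← v] at u
    exact u
  · filter_upwards [g.fb x c hc, z] with n u v
    simp only [dl, PA.sM, ← v] at u
    exact u
  · filter_upwards [(hK.tq _ k.1).lev 0 a hε, z] with n u v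
    simp only [PA.sM, ← v, pr, lb]
    push_cast at u
    linarith [abs_le.1 u]
  · filter_upwards [(hK.tq _ k.1).lev 0 a hε, z] with n u v
    simp only [PA.sM, ← v, pr, lb]
    push_cast at u
    linarith [abs_le.1 u]
  · filter_upwards [(hK.tq _ k.1).nest e, z] with n u v
    simp only [PA.sP, PA.sO, ← v]
    exact u
  · filter_upwards [k.2.box (hK.tq _ k.1).big x c hc, z] with n u v
    simp only [← v]
    exact u

theorem sAB : SAB := by
  intro N D m E η θ β js Γ sl K kk la o τ X₀ F hK k0 h0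
  obtain ⟨S, C, L, Z, A, -, hL, ⟨Y, k, z⟩, h⟩ := PA.pac _ _ _ (eW la) 0 _ _ _ _ _
    (fun b => sub_nonneg.2 b.2.le) (fun _ _ _ c => absurd rfl c) (cls hK F)
    ⟨fun n => Sd.of (X₀ n), ⟨k0, h0⟩, .of_forall fun _ => rfl⟩ h0.start
  have f : FM kk la o τ S C L (fun n => (Y n).st) F A := ⟨k.2, Cx.cf_congr
    (PA.cf_ha (eW la) 0 S C L) (x := fun n => (Z n, A n))
    (y := fun n => (pr kk la o τ (Y n).st (F n), A n)) (z.mono fun n u => by rw [u]) h⟩
  exact ⟨S, C, L, fun n => (Y n).st, _, A, hL, k.1, f.rg (hK.tq _ k.1) fun n => (Y n).lv 0, fun _ => rfl⟩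

end Pool.Agent.MP_5168f5_an.QA.AB
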