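import Pool.Agent.MP_5168f5_an.QA.FlDefs

/-! The Kakeya maximal estimate: no deep cap, in the form with sets of linear forms. -/

namespace Pool.Agent.MP_5168f5_an.QA.Fl

open H19 H17S H17F R4 AN Filter Finset Matrix
open GA (Mt IsFr Nr Bx Idl lg vec ex br mB mC cm)
open PA (Pr Trm sP sM sO)
open Cp (Hg hc)
open S20 (dn)

namespace FlAcwS

variable {κ α : Type} [Fintype κ]

/-- The seminorm of a set of forms. -/
noncomputable def nS (S : Set (κ → ℝ)) (x : κ → ℝ) : ℝ := ⨆ φ : S, |φ.1 ⬝ᵥ x|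

variable {S : Set (κ → ℝ)} {x φ : κ → ℝ} {B : ℝ}

theorem nS_le (h0 : 0 ≤ B) (h : ∀ φ ∈ S, |φ ⬝ᵥ x| ≤ B) : nS S x ≤ B :=
  Real.iSup_le (fun φ => h φ.1 φ.2) h0

theorem nS_nonneg (S : Set (κ → ℝ)) (x : κ → ℝ) : 0 ≤ nS S x :=
  Real.iSup_nonneg fun _ => abs_nonneg _

theorem nS_smul (S : Set (κ → ℝ)) (t : ℝ) (x : κ → ℝ) : nS S (t • x) = |t| * nS S x := by
  unfold nS
  rw [Real.mul_iSup_of_nonneg (abs_nonneg t)]
  simp only [dotProduct_smul, smul_eq_mul, abs_mul]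

variable [DecidableEq κ] {d : Cp.Da κ α}

theorem le_nS (g : d.Good S) (h : φ ∈ S) (x : κ → ℝ) : |φ ⬝ᵥ x| ≤ nS S x := by
  refine le_ciSup (f := fun φ : S => |φ.1 ⬝ᵥ x|) ⟨∑ b, (∑ e, d.fl e) * |x b|, ?_⟩ ⟨φ, h⟩
  rintro _ ⟨ψ, rfl⟩
  refine (abs_sum_le_sum_abs _ _).trans (sum_le_sum fun b _ => ?_)
  rw [abs_mul]
  exact mul_le_mul_of_nonneg_right (g.fu.bd _ ψ.2 b) (abs_nonneg _)

theorem low (g : d.Good S) (x : κ → ℝ) (b : κ) : |x b| ≤ nS S x := by
  simpa using le_nS g (g.one b) x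

theorem sc (g : d.Good S) (x : κ → ℝ) : ∃ y, Cp.In S y ∧ x = nS S x • y := by
  rcases (nS_nonneg S x).eq_or_lt with e | e
  · refine ⟨0, fun φ _ => by simp, funext fun b => ?_⟩
    have := low g x b
    rw [← e] at this
    simpa using this
  · refine ⟨(nS S x)⁻¹ • x, fun φ k => ?_, by rw [smul_inv_smul₀ e.ne']⟩
    rw [dotProduct_smul, smul_eq_mul, abs_mul, abs_of_pos (inv_pos.2 e), inv_mul_le_iff₀ e, mul_one]
    exact le_nS g k x

theorem cap {μ fl : κ → ℝ} {η : α → ℝ} {c : κ → κ → κ → ℝ} {A : α → κ → ℝ} {L L' : ℝ}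
    (g : (⟨μ, fl, L, hc μ c, fun i => blk μ (η i) (A i)⟩ : Cp.Da κ α).Good S) (h0 : 0 ≤ L')
    (e : L ≤ L') : Cap μ η c A L' (nS S) := by
  refine ⟨⟨fun x y => nS_le (add_nonneg (nS_nonneg _ _) (nS_nonneg _ _)) fun φ k => ?_,
    nS_smul S, fun x b _ => low g x b⟩, fun _ _ x y _ _ _ _ => ?_,
    fun i => nS_le h0 fun φ k => ((g.ok φ k).a i).trans ((one_mul _).trans_le e)⟩
  · rw [dotProduct_add]
    exact (abs_add_le _ _).trans (add_le_add (le_nS g k x) (le_nS g k y))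
  · obtain ⟨x', a, a'⟩ := sc g x
    obtain ⟨y', b, b'⟩ := sc g y
    have p := nS_nonneg S x
    have q := nS_nonneg S y
    have u : nS S (br (hc μ c) x' y') ≤ L' :=
      nS_le h0 fun φ k => ((g.ok φ k).c _ _ a b).trans ((one_mul _).trans_le e)
    generalize nS S x = s at a' p ⊢
    generalize nS S y = t at b' q ⊢
    rw [a', b', GA.br_smul_left, GA.br_smul_right, nS_smul, nS_smul, abs_of_nonneg p,
      abs_of_nonneg q]
    nlinarith [mul_le_mul_of_nonneg_left u (mul_nonneg p q)]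

theorem vol (g : d.Good S) {R F : ℝ} (h0 : 0 ≤ R) (hf : d.fl = Cp.flr d.wt F)
    (h : ∀ a, 0 < d.wt a → nS S (Pi.single a 1) ≤ Real.exp R) :
    Real.log (Cp.vl d.wt S) ≤ Real.log (Fintype.card κ).factorial + Fintype.card κ * R := by
  have k : ∀ φ ∈ S, ∀ b, |φ b| ≤ Real.exp R := fun φ u b => by
    by_cases e : 0 < d.wt b
    · simpa using (le_nS g u (Pi.single b 1)).trans (h b e)
    · have := (g.ok φ u).f b
      rw [hf, Cp.flr, if_neg e, one_mul] at this
      exact this.trans (Real.one_le_exp h0)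
  have p : (0 : ℝ) < (Fintype.card κ).factorial := by exact_mod_cast Nat.factorial_pos _
  refine (Real.log_le_log g.fu.vl_pos (g.fu.vl_le fun _ => Cp.det_bd k)).trans_eq ?_
  rw [Real.log_mul p.ne' (by positivity), Real.log_pow, Real.log_exp]

end FlAcwS

open FlAcwS in
theorem sAcw' : SAcw' := by
  intro ι κ α κ' _ _ _ _ Ω Λ Θ Ξ σ b L₀ μ X d _ hM l0 h
  have k0 : (0 : ℝ) < Fintype.card κ + 1 := by positivity
  refine ⟨(Fintype.card κ + 1) * L₀, by positivity,
    fun x r C β K Ps L x1 x0 r0 hL fK fP g => ?_⟩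
  have r1 := div_pos r0 k0
  refine Whp.mono (h x (r / (Fintype.card κ + 1)) β K (fun n ω => nS (Ps n ω)) x1 x0 r1 fK
    (fP.mono fun n e u hu v hv w => congrArg nS (e u hu v hv (congrArg Prod.fst w)))
    fun ε hε => ?_) ?_
  · filter_upwards [g, hL.2 ε hε] with n a e ω m using cap (a ω m) (Real.exp_pos _).le e
  · filter_upwards [g, hM.ev (Real.log (Fintype.card κ).factorial /
      (r / (Fintype.card κ + 1)))] with n a e ω m w
    have M0 : (0 : ℝ) ≤ (X n).M := Nat.cast_nonneg _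
    refine w.imp (fun w => (vol (a ω m) (mul_nonneg r1.le M0) rfl w).trans ?_) fun w => ?_
    · rw [div_le_iff₀ r1] at e
      have : r * (X n).M = (Fintype.card κ + 1) * (r / (Fintype.card κ + 1) * (X n).M) := by
        field_simp
      rw [this]
      change _ ≤ ((X n).M : ℝ) * _ at e
      linarith
    · have x2 : (0 : ℝ) < -x := by exact_mod_cast neg_pos.2 x0
      have := (Real.log_le_iff_le_exp (S20.dn_pos m _ _)).2 w
      refine le_trans (mul_le_mul_of_nonneg_right ?_ M0) (le_neg.1 this)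
      rw [← div_div]
      refine div_le_div_of_nonneg_right (le_min (div_le_div_of_nonneg_right (min_le_left _ _) k0.le)
        ((div_le_self (le_min r0.le x2.le) ?_).trans (min_le_right _ _))) l0.le
      linarith [Nat.cast_nonneg (α := ℝ) (Fintype.card κ)]

end Pool.Agent.MP_5168f5_an.QA.Fl
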