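import Pool.Agent.MP_5168f5_an.QA.AsD
import Pool.Agent.MP_5168f5_an.QA.FlAcwS

/-! The Kakeya maximal estimate: the last member gives the filtered system. -/

namespace Pool.Agent.MP_5168f5_an.QA.As

open H19 H17S H17F R4 AN Filter Finset Matrix
open GA (Mt Wd lg br ex IsFr)
open PA (Pr sP sM sO)
open LC (Au ex_le)
open Cp (Hw hc Cs Pd)
open Fl (Sg Bd Fd blk BF FL ACW One Lw ROut)

theorem ex_gap {J : Type} [Fintype J] (f : J → ℝ) : ∃ g, 0 < g ∧ ∀ j, 0 < f j → g ≤ f j := by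
  classical
  rcases (univ.filter fun j => 0 < f j).eq_empty_or_nonempty with e | e
  · exact ⟨1, one_pos, fun j k => absurd (e ▸ mem_filter.2 ⟨mem_univ j, k⟩) (notMem_empty j)⟩
  · obtain ⟨a, u, v⟩ := exists_min_image _ f e
    exact ⟨f a, (mem_filter.1 u).2, fun j k => v j (mem_filter.2 ⟨mem_univ j, k⟩)⟩

/-- The depths. -/
noncomputable def dpt {κ : Type} [Fintype κ] (μ : κ → ℝ) (γ : κ → ℕ) (K : ℝ) (a : κ) : ℝ :=
  if 0 < μ a then μ a else -(K * ((univ.sup γ : ℕ) + 1 - γ a))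

section Dp

variable {κ : Type} [Fintype κ] {μ : κ → ℝ} {γ : κ → ℕ} {K : ℝ}

theorem dpt_dead (hK : 0 ≤ K) {a : κ} (h : ¬0 < μ a) : dpt μ γ K a ≤ -K := by
  have : (γ a : ℝ) ≤ (univ.sup γ : ℕ) := by exact_mod_cast le_sup (f := γ) (mem_univ a)
  rw [dpt, if_neg h]
  nlinarith

theorem dpt_lw (h0 : ∀ a, 0 ≤ μ a) (hK : ∀ a, μ a < K) {a b e : κ}
    (h : dpt μ γ K e < dpt μ γ K a + dpt μ γ K b) : Lw μ γ a b e := by
  have K0 : 0 < K := (h0 a).trans_lt (hK a)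
  have lt : ∀ c, dpt μ γ K c < K := fun c => by
    by_cases u : 0 < μ c
    · rw [dpt, if_pos u]; exact hK c
    · linarith [dpt_dead (γ := γ) K0.le u]
  have key : ∀ c c', ¬0 < μ c → dpt μ γ K e < dpt μ γ K c + dpt μ γ K c' → ¬0 < μ e ∧ γ e ≤ γ c :=
    fun c c' u v => by
    have w : ¬0 < μ e := fun w => by
      rw [dpt, if_pos w] at v
      linarith [dpt_dead (γ := γ) K0.le u, lt c']
    refine ⟨w, Nat.lt_succ_iff.1 ?_⟩
    have := lt c'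
    rw [dpt, if_neg w, dpt, if_neg u] at v
    have : K * γ e < K * (γ c + 1) := by linarith
    exact_mod_cast lt_of_mul_lt_mul_left this K0.le
  have z : ¬0 < μ e → μ e = 0 := fun u => (not_lt.1 u).antisymm (h0 e)
  by_cases u : 0 < μ a <;> by_cases v : 0 < μ b
  · by_cases w : 0 < μ e
    · rw [dpt, if_pos w, dpt, if_pos u, dpt, if_pos v] at h
      exact .inl ⟨u, v, h⟩
    · exact .inr ⟨z w, .inl u, .inl v⟩
  · have := key b a v (by linarith)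
    exact .inr ⟨z this.1, .inl u, .inr this.2⟩
  · have := key a b u h
    exact .inr ⟨z this.1, .inr this.2, .inl v⟩
  · exact .inr ⟨z (key a b u h).1, .inr (key a b u h).2, .inr (key b a v (by linarith)).2⟩

end Dp

variable {ι κ α κ' : Type} [Fintype ι] [DecidableEq ι] [Fintype κ] [DecidableEq κ] [Fintype α]

theorem fr_d {Ω Λ Θ Ξ : Type} {σ : Sg ι κ α} {b : Bd ι κ α Ω Θ Ξ} {d : Fd ι κ α Ω} {P : FP Ω}
    {O : Ω → Λ} {μ : κ → ℝ} {u : ℝ} (f : IsFr σ.Φ σ.B σ.c) (h : Fl.Cm σ b d P O μ u) {ω : Ω}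
    (hω : ω ∈ P.S) : IsFr σ.Φ (d.B σ ω) (d.c σ ω) :=
  ((GA.sFr ι κ σ.Φ σ.B σ.c).2 _ _ (h.inv ω hω)).1 f

/-- Increments in logarithmic coordinates. -/
structure Lg {Ω Λ Θ Ξ : Type} (σ : Sg ι κ α) (b : Bd ι κ α Ω Θ Ξ) (d : Fd ι κ α Ω) (μ : κ → ℝ)
    (O : Ω → Λ) (R u w : ℝ) (ω v : Ω) : Prop where
  unit : IsUnit (d.G σ b ω)
  mate : d.T ω = d.T v → d.G σ b v = d.G σ b ω * ex (d.B σ ω) (lg (d.B σ ω) (d.G σ b ω) (d.G σ b v))
    ∧ ∀ a, (0 < μ a → |lg (d.B σ ω) (d.G σ b ω) (d.G σ b v) a| ≤ Real.exp (u + μ a * R)) ∧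
      (μ a = 0 → |lg (d.B σ ω) (d.G σ b ω) (d.G σ b v) a| ≤ Real.exp (-w)) ∧
      (b.S ω = b.S v → |lg (d.B σ ω) (d.G σ b ω) (d.G σ b v) a| ≤ Real.exp u)
  inc : O ω = O v → d.G σ b v = d.G σ b ω * ex (d.B σ ω) (lg (d.B σ ω) (d.G σ b ω) (d.G σ b v)) ∧
    ∀ a, |lg (d.B σ ω) (d.G σ b ω) (d.G σ b v) a - ∑ i, b.y ω v i * d.A ω i a| ≤ Real.exp (-w)

theorem lg_out (hO : ROut) {Ω Λ Θ Ξ : ℕ → Type} {σ : Sg ι κ α}
    {b : ∀ n, Bd ι κ α (Ω n) (Θ n) (Ξ n)} {Hs : Finset ℝ} {W : ℝ} {μ : κ → ℝ} {γ : κ → ℕ}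
    {X : ∀ n, Pr κ' (Ω n) (Λ n)} {d : ∀ n, Fd ι κ α (Ω n)} (ok : σ.Ok Hs W) (hμ : ∀ a, μ a ∈ Hs)
    (big : Big (sM X)) (bf : BF σ b X) (fl : FL σ b μ γ X d) {x : ℚ} (x1 : -1 ≤ x) (x0 : x ≤ 0)
    (ne : FnE (sP X) (sO X (-1)) (sO X x)) : Au (sM X) fun n u w => ∀ ω ∈ (X n).P.S,
      ∀ v ∈ (X n).P.S, Lg σ (b n) (d n) μ ((X n).O x) (X n).M u w ω v := fun ε hε K => by
  obtain ⟨C, c1, h⟩ := hO ι κ α σ Hs W μ γ ok hμ
  have c0 : 0 < C := by linarith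
  have e0 : 0 < ε / C := by positivity
  filter_upwards [fl _ e0 (|K| + ε + C), bf x x1 x0 _ e0 (|K| + ε + C), big.ev (ε / C)⁻¹, ne]
    with n a1 a2 a3 a4 ω hω v hv
  have m0 : (0 : ℝ) ≤ (X n).M := Nat.cast_nonneg _
  have e1 : C * (ε / C * (X n).M) = ε * (X n).M := by field_simp
  have k0 := mul_le_mul_of_nonneg_right (le_abs_self K) m0
  have k1 := mul_nonneg (abs_nonneg K) m0
  obtain ⟨⟨b1, -⟩, b2, b3⟩ := h _ _ _ _ (b n) (d n) (X n).P _ _ _ _ _ _ m0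
    (by rwa [inv_le_iff_one_le_mul₀' e0] at a3) (by rw [mul_add, e1]; linarith) a1 a2 a4 ω hω v hv
  have f := (GA.sMul _ _ _ _ _ (fr_d ok.fr a1.toCm hω)).lg
  refine ⟨b1, fun e => ?_, fun e => ?_⟩
  · obtain ⟨t, t1, t2⟩ := b2 e
    rw [t1, f _ t b1]
    rw [e1] at t2
    exact ⟨rfl, fun a => ⟨(t2 a).1, fun z => ((t2 a).2.1 z).trans
      (ex_le (by rw [mul_add C, e1]; linarith)), (t2 a).2.2⟩⟩
  · obtain ⟨t, t1, t2⟩ := b3 e
    rw [t1, f _ t b1]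
    exact ⟨rfl, fun a => (t2 a).trans (ex_le (by rw [e1]; nlinarith))⟩

variable {Ω L Z Θ Ξ : ℕ → Type} {σ : Sg ι κ α} {b : ∀ n, Bd ι κ α (Ω n) (Θ n) (Ξ n)} {k : Kc κ}
  {X : ∀ n, Pr κ' (Ω n) (L n × Z n)} {d : ∀ n, Fd ι κ α (Ω n)} {zt : ∀ n, Ω n → ℝ}

theorem Fin5.O (h : Fin5 σ b k X d zt) (n : ℕ) (x : ℚ) :
    (pd σ b X d zt n).O x = (X n).O (x - 1) := funext fun ω => Prod.ext (h.line n _ ω).symm rfl

theorem Fin5.ne (h : Fin5 σ b k X d zt) {x x' : ℚ} (e : x ≤ x') : FnE (sP X) (sO X x) (sO X x') :=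
  (h.nest x x' e).mono fun n a u hu v hv z => Prod.ext
    ((h.line n x u).trans ((h.line n x' u).symm.trans ((congrArg Prod.fst z).trans
      ((h.line n x' v).trans (h.line n x v).symm))))
    (a u hu v hv (congrArg Prod.snd z))

theorem as_of (hO : ROut) : SAs := fun ι κ α κ' _ _ _ _ _ Ω L Z Θ Ξ σ b k X d zt h => by
  have m0 : ∀ a, 0 ≤ k.μ a := fun a => (h.ok.bd _ (h.hμ a)).1
  obtain ⟨g, g0, hg⟩ := ex_gap (J := κ ⊕ κ × κ × κ ⊕ α × κ) (Sum.elim k.μ (Sum.elim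
    (fun p => k.μ p.2.2 - (k.μ p.1 + k.μ p.2.1)) fun p => k.μ p.2 - σ.η p.1))
  obtain ⟨L₁, l1, hA⟩ := Fl.sAcw' ι κ α κ' Ω _ Θ Ξ σ b k.L₀ k.μ X d m0 h.big h.l0 h.acw
  have mW : ∀ a, k.μ a + g ≤ k.W + g := fun a => add_le_add (h.ok.bd _ (h.hμ a)).2 le_rfl
  have O0 : ∀ n, (pd σ b X d zt n).O 0 = (X n).O (-1) := fun n => by rw [h.O, zero_sub]
  have fl := h.fl 1 one_pos 0
  have lo := fun {x : ℚ} (x1 : -1 ≤ x) (x0 : x ≤ 0) =>
    lg_out hO h.ok h.hμ h.big h.bf h.fl x1 x0 (h.ne x1)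
  have l1' := lo le_rfl (by norm_num)
  refine ⟨⟨σ.Φ, k.μ, σ.η, k.pos, k.ta, g, L₁, k.L₁, k.be, k.kf⟩, dpt k.μ k.γ (k.W + g), h.big, g0,
    l1, h.l1, h.be0, fun a => (m0 a).eq_or_lt.imp Eq.symm (hg (.inl a)), h.ok.eta, h.live, h.tau,
    fun a a' e _ _ z => ?_, fun i a z => ?_, fun a z => if_pos z, fun a a' z => ?_,
    fun x x' _ e _ => h.nest _ _ (sub_le_sub_right e 1), .of_forall fun n => ?_, ?_, ?_, ?_, ?_, ?_,
    fun ε K hε => ?_, fun v hv ε K _ => h.cur v hv K, fun ε K hε => ?_, fun x x0 x1 ε K hε => ?_,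
    fun x x0 x1 T ε hε => ?_, fun ε hε => ?_, fun i x x' x0 e x1 => ?_, h.top,
    fun x r C β K Ps R x0 x1 r0 sR f1 _ f3 gd => ?_⟩
  · have := hg (.inr (.inl (a, a', e))) (sub_pos.2 z)
    simp only [Sum.elim_inr, Sum.elim_inl] at this ⊢
    linarith
  · have := hg (.inr (.inr (i, a))) (sub_pos.2 z)
    simp only [Sum.elim_inr] at this ⊢
    linarith
  · have := dpt_dead (μ := k.μ) (γ := k.γ) (K := k.W + g) (a := a) (by linarith [mW a, m0 a])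
      (fun y => y.ne' z)
    simp only
    linarith [mW a']
  · simp only [zero_sub]
    exact Fn.snd _ _
  · simp only [sub_self]
    exact h.zS.mono fun n a => a.left _
  · filter_upwards [h.zS, h.nest (-1) 0 (by norm_num)] with n a1 a2
    exact (Fn.snd _ _).pair ((a2.trans a1).left _)
  · filter_upwards [fl] with n a
    rw [O0]
    exact a.fT.pair (Fn.comp Prod.snd _)
  · filter_upwards [fl] with n a
    exact ((Fn.comp (fun p => (GA.mB p.1 σ.B, GA.mC p.1 p.2 σ.c)) _).trans a.fU).left _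
  · filter_upwards [fl] with n a
    rw [O0]
    exact (Fn.comp Prod.snd _).trans a.fk
  · filter_upwards [h.fl ε hε K, l1' ε hε K, h.spl ε hε K] with n a1 a2 a3 ω hω
    exact ⟨(a2 ω hω ω hω).unit, fr_d h.ok.fr a1.toCm hω, a1.bc ω hω, a1.bA ω hω, (a3 ω hω).long,
      fun a a' e z => a1.fil ω hω a a' e (dpt_lw m0 (fun a => by linarith [mW a]) z),
      (a3 ω hω).sub, (a3 ω hω).chi, a1.low ω hω, (a3 ω hω).cur⟩
  · filter_upwards [l1' ε hε K] with n a ω hω v hv e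
    obtain ⟨e1, e2⟩ := Prod.mk.inj e
    obtain ⟨t1, t2⟩ := (a ω hω v hv).mate e2
    exact ⟨t1, fun a => ⟨(t2 a).2.2 e1, (t2 a).2.1⟩⟩
  · have y1 : -1 ≤ x - 1 := by linarith
    have y0 : x - 1 ≤ 0 := by linarith
    filter_upwards [lo y1 y0 ε hε K, h.bf _ y1 y0 ε hε K] with n a1 a2 ω hω v hv e
    rw [h.O] at e
    obtain ⟨t1, t2⟩ := (a1 ω hω v hv).inc e
    obtain ⟨-, -, -, t3⟩ := a2.inc ω hω v hv e
    refine ⟨t1, fun i => (t3 i).trans_eq ?_, t2⟩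
    push_cast
    rw [neg_sub]
  · filter_upwards [h.ac (x - 1) (by linarith) (by linarith) ε hε T, fl] with n a1 a2 ω hω t l E
      t1 t2 t3 t4
    rw [h.O] at t4 ⊢
    refine a1 ω hω t l E t1 (fun i z => t2 i ((fr_d h.ok.fr a2.toCm hω).inj _ ?_)) t3
      fun v hv v' hv' e e' z z' => (le_of_eq ?_).trans (t4 v hv v' hv' e e' z z')
    · rw [a2.ad ω hω, z]
      simp [GA.vec]
    · have : ∀ i, σ.η i * (((x - 1 : ℚ) : ℝ) * (X n).M) = -(σ.η i * ((1 - x) * (X n).M)) :=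
        fun i => by push_cast; ring
      simp only [this]
  · filter_upwards [h.tt ε hε] with n a ω hω v hv e
    rw [O0] at e
    exact a ω hω v hv e
  · have := h.ht i (x - 1) (x' - 1) (by linarith) (by linarith) (by linarith)
    simp only [h.O]
    push_cast at this
    simpa only [sub_sub_sub_cancel_right] using this
  · have := hA (x - 1) r C β K Ps R (by linarith) (by linarith) r0 sR
      (f1.mono fun n a => (h.O n x ▸ a : Fn (X n).P (K n) ((X n).O (x - 1)))) f3 gd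
    rwa [show -((x - 1 : ℚ) : ℝ) = 1 - x by push_cast; ring] at this

end Pool.Agent.MP_5168f5_an.QA.As
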