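import Mathlib

/-! The Kakeya maximal estimate: a determinant is bounded by a minor of the last factor. -/

namespace Pool.Agent.MP_5168f5_an.QA.Ch

open Finset

theorem det_sum {n : ℕ} {J : Type} [Fintype J] (A : Fin n → J → ℝ) (B : J → Fin n → ℝ) :
    (Matrix.of fun k l => ∑ a, A k a * B a l).det =
      ∑ τ : Fin n → J, (∏ k, A k (τ k)) * (Matrix.of fun k l => B (τ k) l).det := by
  have e : (Matrix.of fun k l => ∑ a, A k a * B a l) = fun k => ∑ a, A k a • B a := by
    ext k l; simp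
  rw [e]
  refine (Matrix.detRowAlternating.toMultilinearMap.map_sum fun k a => A k a • B a).trans
    (sum_congr rfl fun τ _ => ?_)
  exact Matrix.detRowAlternating.toMultilinearMap.map_smul_univ (fun k => A k (τ k)) fun k => B (τ k)

theorem detI (n : ℕ) {J K : Type} [Fintype J] [Fintype K] [Nonempty K] (A : Fin n → J → ℝ)
    (Y : J → K → ℝ) (Bm : K → Fin n → ℝ) (w : J → ℝ) (X : ℝ) (hX : 1 ≤ X) (hw : ∀ a, 0 ≤ w a)
    (hA : ∀ k a, |A k a| ≤ X * (1 + w a)) (hY : ∀ a i, |Y a i| ≤ X) : ∃ I : Fin n → K,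
    |(Matrix.of fun k l => ∑ a, A k a * ∑ i, Y a i * Bm i l).det| ≤
      (Fintype.card J * Fintype.card K * X ^ 2) ^ n * (∏ a, (1 + w a)) *
        |(Matrix.of fun k l => Bm (I k) l).det| := by
  classical
  obtain ⟨I, hI⟩ := Finite.exists_max fun I : Fin n → K => |(Matrix.of fun k l => Bm (I k) l).det|
  refine ⟨I, ?_⟩
  have X0 : 0 ≤ X := zero_le_one.trans hX
  have w1 : ∀ a, 1 ≤ 1 + w a := fun a => le_add_of_nonneg_right (hw a)
  have h1 : ∀ τ : Fin n → J, |(Matrix.of fun k l => ∑ i, Y (τ k) i * Bm i l).det| ≤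
      Fintype.card K ^ n * (X ^ n * |(Matrix.of fun k l => Bm (I k) l).det|) := fun τ => by
    rw [det_sum]
    refine (abs_sum_le_sum_abs _ _).trans ((sum_le_card_nsmul _ _
      (X ^ n * |(Matrix.of fun k l => Bm (I k) l).det|) fun σ _ => ?_).trans_eq (by simp))
    rw [abs_mul, abs_prod]
    exact mul_le_mul ((prod_le_prod (fun _ _ => abs_nonneg _) fun k _ => hY _ _).trans_eq (by simp))
      (hI σ) (abs_nonneg _) (by positivity)
  rw [det_sum]
  refine (abs_sum_le_sum_abs _ _).trans ((sum_le_card_nsmul _ _ (X ^ n * (∏ a, (1 + w a)) *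
    (Fintype.card K ^ n * (X ^ n * |(Matrix.of fun k l => Bm (I k) l).det|))) fun τ _ => ?_).trans_eq
    (by simp only [card_univ, Fintype.card_pi, prod_const, Fintype.card_fin, nsmul_eq_mul]
        push_cast; ring))
  have p0 : 0 ≤ ∏ a, (1 + w a) := prod_nonneg fun a _ => zero_le_one.trans (w1 a)
  rw [abs_mul]
  by_cases e : Function.Injective τ
  · refine mul_le_mul ?_ (h1 τ) (abs_nonneg _) (by positivity)
    rw [abs_prod]
    refine (prod_le_prod (fun _ _ => abs_nonneg _) fun k _ => hA k _).trans ?_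
    rw [prod_mul_distrib, prod_const, card_univ, Fintype.card_fin,
      ← prod_image (f := fun a => 1 + w a) e.injOn]
    exact mul_le_mul_of_nonneg_left (prod_le_prod_of_subset_of_one_le (subset_univ _)
      (fun a _ => zero_le_one.trans (w1 a)) fun a _ _ => w1 a) (by positivity)
  · obtain ⟨i, j, a, b⟩ := Function.not_injective_iff.1 e
    rw [Matrix.det_zero_of_row_eq b (by ext l; simp [a]), abs_zero, mul_zero]
    positivity

end Pool.Agent.MP_5168f5_an.QA.Ch
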