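import Pool.Agent.MP_5168f5_an.QA.ChRec
import Pool.Agent.MP_5168f5_an.QA.ChDet

/-! The Kakeya maximal estimate: polynomial coordinates along an orbit. -/

namespace Pool.Agent.MP_5168f5_an.QA.Ch

open H17S AN MvPolynomial Finset IsNilpotent
open Matrix hiding vec
open GA (Mt IsFr vec ex bch Ad)
open N2 (tri)

/-- The state after `j` rows. -/
def St (m k n E j : ℕ) : Prop := ∃ (g : ℝ → ℝ) (D : ℕ), Gr g ∧ ∀ {κ : Type} [Fintype κ]
  {kk : Fin m → ℝ} {b : κ → Mt (Fin m)} {c : κ → κ → κ → ℝ} {L W η : ℝ} (σ : Equiv.Perm (Fin m))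
  (p : Fin m → ℝ) (ev : Fin m → MvPolynomial (Fin n) ℝ), Da k kk b c L W →
  (∀ q r, kk q < kk r → σ q < σ r) → 0 < η → (∀ q, (ev q).totalDegree ≤ E) →
  ∃ (s v : Fin m → MvPolynomial (Fin n) ℝ) (δ : ℝ), η ≤ δ ∧ δ ≤ g W * η ∧
    (∀ r, (s r).totalDegree ≤ D ∧ (v r).totalDegree ≤ D) ∧ (∀ r, j ≤ σ r → s r = 0) ∧
    (∀ x t (e : Fin m → ℝ), (∀ a, |t a| ≤ L) → (∀ r, |e r| ≤ η) → vl ev x = ex b t *ᵥ (p + e) →
      (∀ r, |eval x (s r)| ≤ g L) ∧ ∃ t', (∀ a, |t' a| ≤ g L) ∧ vl v x = ex b t' *ᵥ (p + e) ∧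
        ∀ r, (σ r : ℕ) < j → |(vec b t' *ᵥ p) r| ≤ δ) ∧
    ∀ x (X : ℝ), L ≤ X → (∀ r, |eval x (s r)| ≤ X) → ∃ (u : κ → ℝ) (θ : Fin m → κ → ℝ),
      (∀ a, |u a| ≤ g X) ∧ (∀ r a, |θ r a| ≤ g X) ∧ vl ev x = ex b u *ᵥ vl v x ∧
      ∀ l, vl (fun r => pderiv l (ev r)) x =
        ∑ r, eval x (pderiv l (s r)) • (vec b (θ r) *ᵥ vl ev x) +
          ex b u *ᵥ vl (fun r => pderiv l (v r)) x

theorem st_zero (m k n E : ℕ) : St m k n E 0 := by
  refine ⟨_, E, gr_id, fun {κ _ kk b c L W η} σ p ev h _ h0 hE => ⟨0, ev, η, le_rfl,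
    le_mul_of_one_le_left h0.le (h.L1.trans h.LW), fun r => ⟨by simp, hE r⟩, fun _ _ => rfl,
    fun x t e ht _ u => ⟨fun r => by simpa using zero_le_one.trans h.L1, t, ht, u,
      fun _ z => absurd z (Nat.not_lt_zero _)⟩, fun x X hX _ => ?_⟩⟩
  have : 0 ≤ X := zero_le_one.trans (h.L1.trans hX)
  have e := (GA.sMul _ _ _ b c h.fr).zero
  exact ⟨0, 0, fun _ => by simpa using this, fun _ _ => by simpa using this, by simp [e],
    fun l => by simp [e]⟩

theorem st_succ {m k n E j : ℕ} (hj : j < m) (ih : St m k n E j) : St m k n E (j + 1) := by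
  obtain ⟨g, D, hg, ih⟩ := ih
  obtain ⟨β, hβ, hb⟩ := box m k
  have gT := hβ.comp ((gr_lin 2).comp hg)
  have gH := (((gr_lin m).comp ((gr_bA m k).comp gT)).pow (m + 1 + 1)).mul ((gr_lin 5).comp gT)
  refine ⟨_, (m + 1 + 1) * D, (gH.mul hg).mul gT,
    fun {κ _ kk b c L W η} σ p ev h hσ h0 hE => ?_⟩
  obtain ⟨s, v, δ, d1, d2, d3, d4, d5, d6⟩ := ih σ p ev h hσ h0 hE
  have e3 : ((2 : ℕ) : ℝ) + 1 = 3 := by norm_num
  have up : ∀ X, 1 ≤ X → β (((2 : ℕ) + 1) * g X) ≤ _ := fun X u => le_mul_of_one_le_left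
    (zero_le_one.trans (gT.one u)) ((gH.mul hg).one u)
  have lo : ∀ X, 1 ≤ X → 3 * g X ≤ β (((2 : ℕ) + 1) * g X) := fun X u => by
    rw [e3]; exact hβ.le _ (by linarith [hg.one u])
  have W1 := h.L1.trans h.LW
  have gL := hg.one h.L1
  have fr := GA.sMul _ _ _ b c h.fr
  set q := σ.symm ⟨j, hj⟩ with hq
  have hq' : (σ q : ℕ) = j := by rw [hq, σ.apply_symm_apply]
  have bL : ∀ s t : κ → ℝ, (∀ a, |s a| ≤ 3 * g L) → (∀ a, |t a| ≤ 3 * g L) →
      ∀ a, |bch m c s t a| ≤ β (((2 : ℕ) + 1) * g L) := fun s t u w => by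
    rw [e3]; exact (hb h (by linarith [hg.le L h.L1]) u w).1
  obtain ⟨z, ρ, z1, z2⟩ := h.step (T := β (((2 : ℕ) + 1) * g W)) hσ q p gL
    (le_trans (by linarith [hg.mono L W h.L1 h.LW]) (lo W W1)) (gT.le W W1) h0 d1
    fun s t u w a => (bL s t u w a).trans (gT.mono L W h.L1 h.LW)
  set s₀ : MvPolynomial (Fin n) ℝ := C ρ * (v q - C (p q)) with hs₀
  have ds : s₀.totalDegree ≤ D := (totalDegree_mul _ _).trans (by
    rw [totalDegree_C, zero_add]
    exact (totalDegree_sub _ _).trans (by simpa using (d3 q).2))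
  have hz := h.fr.mem (-z)
  have pv : ∀ x, vl (pe (vec b (-z)) s₀ v) x = ex b (eval x s₀ • -z) *ᵥ vl v x := fun x => by
    rw [pe_val hz, ex, vec_smul]
  have sq : s q = 0 := d4 q hq'.ge
  have DD : D ≤ (m + 1 + 1) * D := Nat.le_mul_of_pos_left _ (by omega)
  have H1 := gH.one W1
  refine ⟨Function.update s q s₀, pe (vec b (-z)) s₀ v, _ * δ,
    d1.trans (le_mul_of_one_le_left (h0.le.trans d1) H1), ?_, fun r => ⟨?_,
      pe_deg ds (fun r => (d3 r).2) r⟩, fun r u => ?_, fun x t e ht he u => ?_,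
    fun x X hX u => ?_⟩
  · refine (mul_le_mul_of_nonneg_left d2 (by linarith)).trans ?_
    rw [← mul_assoc]
    exact mul_le_mul_of_nonneg_right (le_mul_of_one_le_right
      (zero_le_one.trans ((gH.mul hg).one W1)) (gT.one W1)) h0.le
  · by_cases w : r = q
    · rw [w, Function.update_self]; exact ds.trans DD
    · rw [Function.update_of_ne w]; exact (d3 r).1.trans DD
  · rw [Function.update_of_ne (fun w => by rw [w] at u; omega)]
    exact d4 r (by omega)
  · obtain ⟨a1, t', a2, a3, a4⟩ := d5 x t e ht he u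
    obtain ⟨b1, b2⟩ := z2 t' e (eval x s₀) a2 he (fun r w => a4 r (hq' ▸ w))
      (by rw [← a3, hs₀]; simp [vl])
    have hs : ∀ i, |(eval x s₀ • -z) i| ≤ 3 * g L := fun i => by
      rw [Pi.smul_apply, smul_eq_mul, abs_mul, Pi.neg_apply, abs_neg]
      exact (mul_le_of_le_one_right (abs_nonneg _) (z1 i)).trans b1
    refine ⟨fun r => le_trans ?_ ((lo L h.L1).trans (up L h.L1)), _, fun a =>
      (bL _ t' hs (fun a => (a2 a).trans (by linarith)) a).trans (up L h.L1), ?_, fun r w => ?_⟩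
    · by_cases w : r = q
      · rw [w, Function.update_self]; exact b1
      · rw [Function.update_of_ne w]; linarith [a1 r]
    · rw [pv, a3, mulVec_mulVec]
      exact congrArg (· *ᵥ (p + e)) (fr.mul _ _)
    · have := b2 r (show (σ r : ℕ) ≤ σ q by omega)
      rwa [Nat.cast_ofNat]
  · have X1 := h.L1.trans hX
    have gX := hg.le X X1
    obtain ⟨u₀, θ, a1, a2, a3, a4⟩ := d6 x X hX fun r => by
      by_cases w : r = q
      · rw [w, sq]; simpa using zero_le_one.trans X1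
      · simpa only [Function.update_of_ne w] using u r
    have b1 : |eval x s₀| ≤ X := by simpa only [Function.update_self] using u q
    have b0 : L ≤ ((2 : ℕ) + 1) * g X := by rw [e3]; linarith
    have b2 : ∀ a, |u₀ a| ≤ ((2 : ℕ) + 1) * g X := fun a => by rw [e3]; linarith [a1 a]
    have b3 : ∀ a, |(-(eval x s₀ • -z)) a| ≤ ((2 : ℕ) + 1) * g X := fun a => by
      rw [Pi.neg_apply, abs_neg, Pi.smul_apply, smul_eq_mul, abs_mul, Pi.neg_apply, abs_neg, e3]
      linarith [mul_le_of_le_one_right (abs_nonneg (eval x s₀)) (z1 a)]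
    have c1 : ex b (bch m c u₀ (-(eval x s₀ • -z))) * ex b (eval x s₀ • -z) = ex b u₀ := by
      have : ex b u₀ * _ = ex b (bch m c u₀ (-(eval x s₀ • -z))) := fr.mul _ _
      rw [← this, mul_assoc, (fr.neg _).1, mul_one]
    refine ⟨_, Function.update θ q (Ad m c u₀ z), fun a => ((hb h b0 b2 b3).1 a).trans (up X X1),
      fun r a => le_trans ?_ (up X X1), by rw [pv, mulVec_mulVec, c1, a3], fun l => ?_⟩
    · by_cases w : r = q
      · rw [w, Function.update_self]
        exact (hb h b0 b2 fun a => (z1 a).trans (by rw [e3]; linarith)).2 a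
      · rw [Function.update_of_ne w]; linarith [a2 r a, lo X X1]
    · have c2 : vec b (Ad m c u₀ z) = _ := (GA.sAd _ _ _ b c h.fr).1 u₀ z
      have c3 : vec b (Ad m c u₀ z) *ᵥ vl ev x = (ex b u₀ * vec b z) *ᵥ vl v x := by
        rw [c2, a3, mulVec_mulVec, mul_assoc, (fr.neg _).1, mul_one]
      have c4 : vec b (-z) = -vec b z := by rw [← neg_one_smul ℝ z, vec_smul, neg_one_smul]
      have c5 : ∑ r, eval x (pderiv l (Function.update s q s₀ r)) •
          (vec b (Function.update θ q (Ad m c u₀ z) r) *ᵥ vl ev x) =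
          eval x (pderiv l s₀) • ((ex b u₀ * vec b z) *ᵥ vl v x) +
            ∑ r, eval x (pderiv l (s r)) • (vec b (θ r) *ᵥ vl ev x) := by
        rw [← add_sum_erase _ _ (mem_univ q), ← add_sum_erase _ (fun r => eval x (pderiv l (s r)) •
          (vec b (θ r) *ᵥ vl ev x)) (mem_univ q), sq, Function.update_self, Function.update_self,
          c3, map_zero, map_zero, zero_smul, zero_add]
        refine congrArg _ (sum_congr rfl fun r w => ?_)
        rw [Function.update_of_ne (ne_of_mem_erase w), Function.update_of_ne (ne_of_mem_erase w)]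
      rw [c5, a4, pe_der hz, ← vec_smul, ← ex, mulVec_add, mulVec_smul, mulVec_mulVec,
        mulVec_mulVec, ← mul_assoc, c1, c4, mul_neg, neg_mulVec, smul_neg]
      abel

theorem st_all (m k n E : ℕ) : ∀ j ≤ m, St m k n E j
  | 0, _ => st_zero m k n E
  | j + 1, h => st_succ h (st_all m k n E j (by omega))

theorem Gr.ev {g : ℝ → ℝ} (a : Gr g) :
    ∀ᶠ C : ℕ in Filter.atTop, ∀ X, 1 ≤ X → g X ≤ (C * X) ^ C := by
  obtain ⟨C, c1, c2⟩ := a.pb
  exact (Filter.eventually_ge_atTop C).mono fun C' h X u => (c2 X u).trans (pw_mono c1 h u le_rfl)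

theorem dot_le {m : ℕ} {u v : Fin m → ℝ} {A B : ℝ} (hu : ∀ q, |u q| ≤ A) (hv : ∀ q, |v q| ≤ B) :
    |u ⬝ᵥ v| ≤ m * (A * B) := by
  refine (abs_sum_le_sum_abs _ _).trans ((sum_le_card_nsmul _ _ (A * B) fun q _ => ?_).trans_eq
    (by simp))
  rw [abs_mul]
  exact mul_le_mul (hu q) (hv q) (abs_nonneg _) ((abs_nonneg _).trans (hu q))

theorem sChart : SChart := by
  intro m k n E
  obtain ⟨g, D, hg, H⟩ := st_all m k n E m le_rfl
  obtain ⟨β, hβ, hb⟩ := box m k
  have g1 := (gr_lin (2 * m)).comp ((gr_bA m k).comp hg)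
  have g2 := g1.mul hg
  have g3 := hβ.comp hg
  have g4 := g2.mul ((gr_lin m).comp (gr_id.mul ((gr_bA m k).comp g3)))
  have g5 := (gr_lin m).comp (gr_id.mul g3)
  have g6 := (((gr_lin (k + m)).comp gr_id).mul ((gr_lin (m + m)).comp (g5.pow 1))).pow n
  obtain ⟨K, ⟨⟨⟨⟨k1, k2⟩, k4⟩, k6⟩, k0⟩, km⟩ := (((((hg.ev.and g2.ev).and g4.ev).and g6.ev).and
    (Filter.eventually_ge_atTop 1)).and (Filter.eventually_ge_atTop m)).exists
  refine ⟨K, D, k0, fun κ _ kk b c p L W η ev hm hk fr L1 LW h0 hc hbW hp hE => ?_⟩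
  have h : Da k kk b c L W := ⟨hk, fr, L1, LW, hc, hbW⟩
  obtain ⟨σ, hσ⟩ := ex_rk kk
  obtain ⟨s, v, δ, d1, d2, d3, -, d5, d6⟩ := H σ p ev h hσ h0 hE
  have W1 := L1.trans LW
  have m0 : (0 : ℝ) ≤ m := Nat.cast_nonneg _
  have d0 := h0.trans_le d1
  have mu := GA.sMul _ _ _ b c fr
  set ζ := (((2 * m : ℕ) : ℝ) + 1) * bA m k (g W) * δ with hζ
  have z0 : 0 < ζ := mul_pos (one_pos.trans_le (g1.one W1)) d0
  have z1 : ζ ≤ (((2 * m : ℕ) : ℝ) + 1) * bA m k (g W) * g W * η := by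
    rw [mul_assoc _ (g W)]
    exact mul_le_mul_of_nonneg_left d2 (zero_le_one.trans (g1.one W1))
  set Λ : Fin m → MvPolynomial (Fin n) ℝ := fun r => C ζ⁻¹ * (v r - C (p r)) with hΛ
  have hv : ∀ x, vl v x = p + ζ • vl Λ x := fun x => by
    funext r
    simp only [vl, hΛ, Pi.add_apply, Pi.smul_apply, smul_eq_mul, map_mul, map_sub, eval_C]
    field_simp
    ring
  have hv' : ∀ x l, vl (fun r => pderiv l (v r)) x = ζ • vl (fun r => pderiv l (Λ r)) x :=
    fun x l => by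
      funext r
      simp only [vl, hΛ, Pi.smul_apply, smul_eq_mul, pderiv_C_mul, map_sub, pderiv_C, sub_zero,
        map_mul, eval_C]
      field_simp
  refine ⟨Sum.elim s Λ, ?_, ?_, ?_, ?_⟩
  · rintro (r | r)
    · exact (d3 r).1
    · refine (totalDegree_mul _ _).trans ?_
      rw [totalDegree_C, zero_add]
      exact (totalDegree_sub _ _).trans (by simpa using (d3 r).2)
  · rintro x t ⟨ht, e, he, u⟩ i
    obtain ⟨a1, t', a2, a3, a4⟩ := d5 x t e ht he u
    refine le_trans ?_ (k1 L L1)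
    rcases i with r | r
    · exact a1 r
    refine le_trans ?_ (hg.one L1)
    obtain ⟨b1, -, R, -, b2, b3⟩ := h.dec (hg.le W W1) fun a => (a2 a).trans (hg.mono L W L1 LW)
    have b4 : ζ • vl Λ x = vec b t' *ᵥ p + R *ᵥ (vec b t' *ᵥ p) + ex b t' *ᵥ e := by
      rw [← add_sub_cancel_left p (ζ • _), ← hv, a3, mulVec_add]
      nth_rewrite 1 [b3]
      simp only [add_mulVec, one_mulVec, ← mulVec_mulVec]
      abel
    have b5 := abs_add_three ((vec b t' *ᵥ p) r) ((R *ᵥ (vec b t' *ᵥ p)) r) ((ex b t' *ᵥ e) r)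
    have b6 : |(R *ᵥ (vec b t' *ᵥ p)) r| ≤ _ := mv_le b2 d0.le fun q _ => a4 q (σ q).2
    have b7 : |(ex b t' *ᵥ e) r| ≤ _ := mv_le b1 d0.le fun q _ => (he q).trans d1
    have b8 := (gr_bA m k).one (hg.one W1)
    rw [← Pi.add_apply, ← Pi.add_apply, ← b4, Pi.smul_apply, smul_eq_mul, abs_mul,
      abs_of_pos z0] at b5
    refine le_of_mul_le_mul_left (b5.trans ?_) z0
    rw [hζ]
    push_cast
    nlinarith [a4 r (σ r).2]
  · intro x X hX u
    obtain ⟨u₀, -, a1, -, a3, -⟩ := d6 x X hX fun r => u (.inl r)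
    refine ⟨u₀, fun a => (a1 a).trans (k1 X (L1.trans hX)), ζ • vl Λ x, fun q => ?_, by rw [a3, hv]⟩
    rw [Pi.smul_apply, smul_eq_mul, abs_mul, abs_of_pos z0]
    exact mul_le_mul (z1.trans (mul_le_mul_of_nonneg_right (k2 W W1) h0.le)) (u (.inr q))
      (abs_nonneg _) (by positivity)
  rintro x t X η' w f hX u ⟨ht, e, he, ue⟩ hf w0 hw c1 c2
  obtain ⟨u₀, θ, a1, a2, -, a4⟩ := d6 x X hX fun r => u (.inl r)
  have X1 := L1.trans hX
  have gX := hg.le X X1
  have bX := g3.le X X1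
  have nt : ∀ a, |(-t) a| ≤ g X := fun a => by rw [Pi.neg_apply, abs_neg]; linarith [ht a]
  have : Nonempty (Fin m ⊕ Fin m) := ⟨.inl ⟨0, hm⟩⟩
  have WX : W ≤ W * X ∧ X ≤ W * X := ⟨by nlinarith, by nlinarith⟩
  refine (detI n (J := κ ⊕ Fin m) (K := Fin m ⊕ Fin m)
    (fun i => Sum.elim (fun a => (f i ᵥ* ex b t) ⬝ᵥ (b a *ᵥ (p + e)))
      fun q => ζ * ((ex b (bch m c (-t) u₀))ᵀ *ᵥ (f i ᵥ* ex b t)) q)
    (Sum.elim (fun a => Sum.elim (fun r => Ad m c (-t) (θ r) a) 0)
      fun q => Sum.elim 0 (Pi.single q 1)) (fun i l => eval x (pderiv l (Sum.elim s Λ i)))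
    (Sum.elim w 0) _ (g5.one X1) (by rintro (a | a); exacts [w0 a, le_rfl]) ?_ ?_).imp
    fun I hI => ?_
  rotate_right
  · refine le_trans (le_of_eq ?_) (hI.trans ?_)
    · congr 2
      ext i l
      have e1 : En.dm (fun i => ∑ q, f i q • ev q) x i l =
          f i ⬝ᵥ vl (fun r => pderiv l (ev r)) x := by
        simp [En.dm, vl, dotProduct]
      have e2 : f i = (f i ᵥ* ex b t) ᵥ* ex b (-t) := by rw [vecMul_vecMul, (mu.neg t).2, vecMul_one]
      have e3 : ∀ r, f i ⬝ᵥ (vec b (θ r) *ᵥ vl ev x) =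
          ∑ a, Ad m c (-t) (θ r) a * ((f i ᵥ* ex b t) ⬝ᵥ (b a *ᵥ (p + e))) := fun r => by
        have : vec b (Ad m c (-t) (θ r)) = _ := (GA.sAd _ _ _ b c fr).1 (-t) (θ r)
        rw [neg_neg] at this
        nth_rewrite 1 [e2]
        rw [← dotProduct_mulVec, ue, mulVec_mulVec, mulVec_mulVec, ← this, vec, Matrix.sum_mulVec,
          dotProduct_sum]
        simp only [Matrix.smul_mulVec, dotProduct_smul, smul_eq_mul]
      have e4 : f i ⬝ᵥ (ex b u₀ *ᵥ vl (fun r => pderiv l (v r)) x) =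
          ∑ q, ζ * ((ex b (bch m c (-t) u₀))ᵀ *ᵥ (f i ᵥ* ex b t)) q * eval x (pderiv l (Λ q)) := by
        have : ex b (-t) * ex b u₀ = ex b (bch m c (-t) u₀) := mu.mul _ _
        nth_rewrite 1 [e2]
        rw [← dotProduct_mulVec, mulVec_mulVec, this, dotProduct_mulVec, ← mulVec_transpose, hv',
          dotProduct_smul, smul_eq_mul, dotProduct, mul_sum]
        exact sum_congr rfl fun q _ => (mul_assoc _ _ _).symm
      rw [e1, a4, dotProduct_add, dotProduct_sum, e4]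
      simp only [dotProduct_smul, e3, of_apply, Fintype.sum_sum_type, Sum.elim_inl, Sum.elim_inr,
        Pi.zero_apply, zero_mul, sum_const_zero, add_zero, zero_add, smul_eq_mul, mul_sum,
        Pi.single_apply, ite_mul, one_mul, sum_ite_eq', mem_univ, if_true]
      rw [sum_comm]
      exact congrArg (· + _) (sum_congr rfl fun a _ => sum_congr rfl fun r _ => by ring)
    · rw [Fintype.prod_sum_type]
      simp only [Sum.elim_inl, Sum.elim_inr, Pi.zero_apply, add_zero, prod_const_one, mul_one]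
      refine mul_le_mul_of_nonneg_right (mul_le_mul_of_nonneg_right (le_trans ?_ (k6 X X1))
        (prod_nonneg fun a _ => by linarith [w0 a])) (abs_nonneg _)
      have e0 := ((((gr_lin (k + m)).comp gr_id).mul ((gr_lin (m + m)).comp (g5.pow 1))).one X1)
      refine (pow_le_pow_left₀ (by positivity) ?_ _).trans (pow_le_pow_right₀ e0 n.le_succ)
      have : (Fintype.card κ : ℝ) ≤ k := by exact_mod_cast hk
      rw [mul_assoc, Fintype.card_sum, Fintype.card_sum, Fintype.card_fin]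
      have k0 : (0 : ℝ) ≤ k := Nat.cast_nonneg _
      push_cast
      exact mul_le_mul (by nlinarith) (mul_le_mul_of_nonneg_right (by linarith) (by positivity))
        (by positivity) (by positivity)
  · rintro i (a | q)
    · have e0 := (abs_nonneg _).trans (he ⟨0, hm⟩)
      have Km : (m : ℝ) ≤ K := by exact_mod_cast km
      have : ∀ r, |(b a *ᵥ (p + e)) r| ≤ X * (1 + w a) := fun r => by
        rw [mulVec_add]
        refine (abs_add_le _ _).trans ?_
        have := mv_le (r := r) (hbW a) e0 fun q _ => he q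
        nlinarith [hw a r, mul_le_mul_of_nonneg_right Km (mul_nonneg (by linarith : 0 ≤ W) e0)]
      refine (dot_le (hf i) this).trans ?_
      have w1 : 0 ≤ 1 + w a := by linarith [w0 a]
      rw [Sum.elim_inl, ← mul_assoc X, ← mul_assoc]
      refine mul_le_mul_of_nonneg_right (mul_le_mul (by linarith) ?_ (by positivity)
        (by positivity)) w1
      exact mul_le_mul_of_nonneg_left bX (by linarith)
    · have W2 := W1.trans WX.1
      obtain ⟨b1, -⟩ := h.dec (T := β (g (W * X))) (WX.1.trans (g3.le _ W2)) fun a =>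
        ((hb h (hX.trans gX) nt a1).1 a).trans (g3.mono _ _ X1 WX.2)
      have b2 := mv_le (N := (ex b (bch m c (-t) u₀))ᵀ) (r := q) (fun p q => b1 q p)
        (by linarith : 0 ≤ X) fun r _ => hf i r
      have b3 := (gr_bA m k).one (g3.one W2)
      have b4 := g2.one W2
      simp only [Sum.elim_inr, Pi.zero_apply, add_zero, mul_one]
      refine le_trans ?_ (g5.one X1)
      rw [abs_mul, abs_of_pos z0]
      rw [mul_assoc] at c1
      refine le_trans ?_ ((mul_le_mul_of_nonneg_right (k4 _ W2) h0.le).trans c1)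
      rw [mul_right_comm _ _ η]
      refine mul_le_mul (z1.trans (mul_le_mul_of_nonneg_right (g2.mono _ _ W1 WX.1) h0.le))
        (b2.trans ?_) (abs_nonneg _) (by positivity)
      rw [mul_assoc, mul_comm _ X]
      exact mul_le_mul (by linarith) (mul_le_mul_of_nonneg_right WX.2 (by linarith))
        (by positivity) (by positivity)
  · have e1 : β (g X) ≤ (m + 1) * (X * β (g X)) := by
      nlinarith [mul_nonneg m0 (by nlinarith : 0 ≤ X * β (g X))]
    have e0 : |(0 : ℝ)| ≤ (m + 1) * (X * β (g X)) := by rw [abs_zero]; linarith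
    rintro (a | q) (r | r)
    · exact ((hb h (hX.trans gX) nt (a2 r)).2 a).trans e1
    · exact e0
    · exact e0
    · simp only [Sum.elim_inr, Pi.single_apply]
      split_ifs
      · rw [abs_one]; linarith
      · exact e0

end Pool.Agent.MP_5168f5_an.QA.Ch
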