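import Pool.Agent.MP_5168f5_an.QA.FlDefs

/-! The Kakeya maximal estimate: the live part commutes with the invariant matrices. -/

namespace Pool.Agent.MP_5168f5_an.QA.Fl

open H19 H17S H17F R4 AN Filter Finset Matrix
open GA (Mt IsFr Nr Bx Idl lg vec ex br mB mC cm Ad)
open PA (Pr Trm sP sM sO)
open LC (Au Mo)
open Cp (Hg hc)
open S20 (dn)
open scoped Matrix.Norms.Operator

namespace FlComA

section Cap

variable {κ V : Type} [Fintype κ] [SeminormedAddCommGroup V] [NormedSpace ℝ V] (μ : κ → ℝ)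
  (s : ℝ → ℝ) (q : (κ → ℝ) →ₗ[ℝ] V)

/-- The graph norm. -/
noncomputable def pp (X : κ → ℝ) : ℝ := ‖X‖ + ‖q X‖

/-- Lifts of `y` above the weight `m`. -/
abbrev Lf (m : ℝ) (y : κ → ℝ) : Type := {X : κ → ℝ // ∀ b, μ b ≤ m → X b = y b}

instance (m : ℝ) (y : κ → ℝ) : Nonempty (Lf μ m y) := ⟨⟨y, fun _ _ => rfl⟩⟩

/-- The least norm of a lift. -/
noncomputable def Qm (m : ℝ) (y : κ → ℝ) : ℝ := ⨅ X : Lf μ m y, pp q X.1

/-- The seminorm of one block. -/
noncomputable def Nm (m : ℝ) (y : κ → ℝ) : ℝ := ‖y‖ + s m * Qm μ q m y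

open Classical in
/-- The seminorm. -/
noncomputable def NN (x : κ → ℝ) : ℝ :=
  ∑ m ∈ (univ.image μ).filter (0 < ·), Nm μ s q m (blk μ m x)

variable {μ s q} {m m' : ℝ} {x y X : κ → ℝ}

theorem pp_nn (X : κ → ℝ) : 0 ≤ pp q X := add_nonneg (norm_nonneg _) (norm_nonneg _)

theorem pp_add (X Y : κ → ℝ) : pp q (X + Y) ≤ pp q X + pp q Y := by
  have := norm_add_le X Y
  have := norm_add_le (q X) (q Y)
  simp only [pp, map_add]; linarith

theorem Qm_le (h : ∀ b, μ b ≤ m → X b = y b) : Qm μ q m y ≤ pp q X :=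
  ciInf_le (f := fun X : Lf μ m y => pp q X.1) ⟨0, by rintro _ ⟨X, rfl⟩; exact pp_nn _⟩ ⟨X, h⟩

theorem Qm_nn : 0 ≤ Qm μ q m y := le_ciInf fun _ => pp_nn _

theorem Qm_smul (t : ℝ) (y : κ → ℝ) : Qm μ q m (t • y) = |t| * Qm μ q m y := by
  have h : ∀ (t : ℝ) y, Qm μ q m (t • y) ≤ |t| * Qm μ q m y := fun t y => by
    rw [Qm.eq_1 μ q m y, Real.mul_iInf_of_nonneg (abs_nonneg t)]
    refine le_ciInf fun X => (Qm_le (X := t • X.1) fun b e => by simp [X.2 b e]).trans_eq ?_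
    simp only [pp, map_smul, norm_smul, Real.norm_eq_abs, mul_add]
  refine (h t y).antisymm ?_
  rcases eq_or_ne t 0 with rfl | e
  · rw [abs_zero, zero_mul]; exact Qm_nn
  have := h t⁻¹ (t • y)
  rwa [inv_smul_smul₀ e, abs_inv, le_inv_mul_iff₀ (abs_pos.2 e)] at this

theorem Nm_smul (t : ℝ) (y : κ → ℝ) : Nm μ s q m (t • y) = |t| * Nm μ s q m y := by
  rw [Nm, Nm, Qm_smul, norm_smul, Real.norm_eq_abs]; ring

theorem Nm_zero : Nm μ s q m 0 = 0 := by simpa using Nm_smul (μ := μ) (s := s) (q := q) (m := m) 0 0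

theorem NN_hg (h : Hg μ m x) (hm : 0 < m) : NN μ s q x = Nm μ s q m x := by
  classical
  have e : blk μ m x = x := funext fun b => by
    unfold blk; split_ifs with u
    exacts [rfl, (not_not.1 fun v => u (h b v)).symm]
  rw [NN, sum_eq_single m (fun m' _ u => ?_) fun u => ?_, e]
  · rw [show blk μ m' x = 0 from funext fun b => ?_, Nm_zero]
    unfold blk; split_ifs with v
    exacts [not_not.1 fun w => u (v.symm.trans (h b w)), rfl]
  · rw [e, show x = 0 from funext fun b => not_not.1 fun w => u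
      (mem_filter.2 ⟨mem_image.2 ⟨b, mem_univ _, h b w⟩, hm⟩), Nm_zero]

theorem NN_nn (hs : ∀ m, 0 ≤ s m) : 0 ≤ NN μ s q x :=
  sum_nonneg fun m _ => add_nonneg (norm_nonneg _) (mul_nonneg (hs m) Qm_nn)

theorem gg (hs : ∀ m, 0 ≤ s m) : Gg μ (NN μ s q) := by
  classical
  refine ⟨fun x y => ?_, fun t x => ?_, fun x b h => ?_⟩
  · rw [NN, NN, NN, ← sum_add_distrib]
    refine sum_le_sum fun m _ => ?_
    rw [show blk μ m (x + y) = blk μ m x + blk μ m y from funext fun b => by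
      simp only [blk, Pi.add_apply]; split_ifs <;> simp]
    have h1 := norm_add_le (blk μ m x) (blk μ m y)
    have h2 : Qm μ q m (blk μ m x + blk μ m y) ≤ Qm μ q m (blk μ m x) + Qm μ q m (blk μ m y) :=
      le_ciInf_add_ciInf fun X Y => (Qm_le (X := X.1 + Y.1) fun b e => by
        simp [X.2 b e, Y.2 b e]).trans (pp_add _ _)
    have := mul_le_mul_of_nonneg_left h2 (hs m)
    simp only [Nm]; linarith
  · rw [NN, NN, mul_sum]
    refine sum_congr rfl fun m _ => ?_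
    rw [← Nm_smul, show blk μ m (t • x) = t • blk μ m x from funext fun b => by
      simp only [blk, Pi.smul_apply]; split_ifs <;> simp]
  · refine le_trans ?_ (single_le_sum (f := fun m => Nm μ s q m (blk μ m x))
      (fun m _ => add_nonneg (norm_nonneg _) (mul_nonneg (hs m) Qm_nn))
      (mem_filter.2 ⟨mem_image.2 ⟨b, mem_univ _, rfl⟩, h⟩))
    have := norm_le_pi_norm (blk μ (μ b) x) b
    rw [blk, if_pos rfl] at this
    exact this.trans (le_add_of_nonneg_right (mul_nonneg (hs _) Qm_nn))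

/-- An approximate lift is enough. -/
theorem Qm_ap {ρ δ : ℝ} (hq : ∀ D, ‖q D‖ ≤ ρ * ‖D‖) (hρ : 0 ≤ ρ) (hδ : 0 ≤ δ)
    (h : ∀ b, μ b ≤ m → |y b - X b| ≤ δ) : Qm μ q m y ≤ pp q X + (1 + ρ) * δ := by
  classical
  have e : ‖fun b => if μ b ≤ m then y b - X b else 0‖ ≤ δ :=
    (pi_norm_le_iff_of_nonneg hδ).2 fun b => by
      split_ifs with u
      exacts [h b u, by simpa using hδ]
  refine (Qm_le (X := X + fun b => if μ b ≤ m then y b - X b else 0) fun b u => by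
    simp [u]).trans ((pp_add _ _).trans (add_le_add le_rfl ?_))
  have := (hq _).trans (mul_le_mul_of_nonneg_left e hρ)
  unfold pp; linarith

theorem sum2 {f : κ → κ → ℝ} {r : ℝ} (h : ∀ a b, |f a b| ≤ r) :
    |∑ a, ∑ b, f a b| ≤ (Fintype.card κ : ℝ) ^ 2 * r := by
  refine (abs_sum_le_sum_abs _ _).trans ?_
  rw [pow_two, mul_assoc, ← nsmul_eq_mul, ← card_univ]
  refine sum_le_card_nsmul _ _ _ fun a _ => (abs_sum_le_sum_abs _ _).trans ?_
  rw [← nsmul_eq_mul]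
  exact sum_le_card_nsmul _ _ _ fun b _ => h a b

theorem tri3 {a b c A B C : ℝ} (h : |a| ≤ A) (h' : |b| ≤ B) (h'' : |c| ≤ C) :
    |a * b * c| ≤ A * B * C := by
  have := (abs_nonneg _).trans h
  rw [abs_mul, abs_mul]
  exact mul_le_mul (mul_le_mul h h' (abs_nonneg _) this) h'' (abs_nonneg _)
    (mul_nonneg this ((abs_nonneg _).trans h'))

theorem br_le {c : κ → κ → κ → ℝ} {L : ℝ} (hL : 0 ≤ L) (h : ∀ a b e, |c a b e| ≤ L)
    (x y : κ → ℝ) : ‖br c x y‖ ≤ (Fintype.card κ : ℝ) ^ 2 * (L * ‖x‖ * ‖y‖) :=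
  (pi_norm_le_iff_of_nonneg (by positivity)).2 fun e => sum2 fun a b =>
    tri3 (h a b e) (norm_le_pi_norm x a) (norm_le_pi_norm y b)

theorem cl {c : κ → κ → κ → ℝ} {L τ β ρ : ℝ} (hs : ∀ m, 0 ≤ s m)
    (hs' : ∀ m m', s (m + m') = s m * s m') (hL : 0 ≤ L) (hτ : 0 ≤ τ) (hβ : 0 ≤ β) (hρ : 0 ≤ ρ)
    (hc1 : ∀ a b e, |c a b e| ≤ L)
    (hc2 : ∀ a b e, 0 < μ a → 0 < μ b → μ e < μ a + μ b → |c a b e| ≤ τ)
    (hq : ∀ D, ‖q D‖ ≤ ρ * ‖D‖)
    (hb : ∀ X Y, ‖q (br c X Y)‖ ≤ β * (‖X‖ * ‖q Y‖ + ‖Y‖ * ‖q X‖))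
    (sm : (1 + ρ) * ((Fintype.card κ : ℝ) ^ 2 * τ) ≤ 1) (hm : 0 < m) (hm' : 0 < m')
    (hx : Hg μ m x) (hy : Hg μ m' y) : NN μ s q (br (hc μ c) x y) ≤
      ((Fintype.card κ : ℝ) ^ 2 * L + 2 * β + 1) * NN μ s q x * NN μ s q y := by
  have hz : Hg μ (m + m') (br (hc μ c) x y) := fun e h => by
    obtain ⟨a, -, h⟩ := exists_ne_zero_of_sum_ne_zero h
    obtain ⟨b, -, h⟩ := exists_ne_zero_of_sum_ne_zero h
    have : Cp.Hw μ a b e := by_contra fun u => h (by rw [hc, if_neg u, zero_mul, zero_mul])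
    rw [this.2.2, hx a (right_ne_zero_of_mul (left_ne_zero_of_mul h)),
      hy b (right_ne_zero_of_mul h)]
  set k := (Fintype.card κ : ℝ) ^ 2
  have k0 : 0 ≤ k := sq_nonneg _
  set K := k * L + 2 * β + 1
  have K0 : 0 ≤ K := by positivity
  have h1 : ‖br (hc μ c) x y‖ ≤ k * (L * ‖x‖ * ‖y‖) := br_le hL (fun a b e => by
    unfold hc; split_ifs
    exacts [hc1 a b e, by simpa using hL]) x y
  have h2 : Qm μ q (m + m') (br (hc μ c) x y) ≤ K * Qm μ q m x * Qm μ q m' y := by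
    rw [Qm.eq_1 μ q m' y, Real.mul_iInf_of_nonneg (mul_nonneg K0 Qm_nn)]
    refine le_ciInf fun Y => ?_
    rw [mul_right_comm, Qm.eq_1 μ q m x, Real.mul_iInf_of_nonneg (mul_nonneg K0 (pp_nn _))]
    refine le_ciInf fun X => (Qm_ap (X := br c X.1 Y.1) (δ := k * (τ * ‖X.1‖ * ‖Y.1‖)) hq hρ
      (by positivity) fun e he => ?_).trans ?_
    · simp only [br, ← sum_sub_distrib]
      refine sum2 fun a b => ?_
      have z : (0 : ℝ) ≤ τ * ‖X.1‖ * ‖Y.1‖ := by positivity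
      have x0 : μ a ≠ m → x a = 0 := fun u => not_not.1 fun v => u (hx a v)
      have y0 : μ b ≠ m' → y b = 0 := fun u => not_not.1 fun v => u (hy b v)
      rcases lt_or_ge (μ a) m with u | u
      · simpa [X.2 a u.le, x0 u.ne] using z
      rcases lt_or_ge (μ b) m' with v | v
      · simpa [Y.2 b v.le, y0 v.ne] using z
      by_cases w : μ e < μ a + μ b
      · rw [hc, if_neg fun t => w.ne t.2.2, zero_mul, zero_mul, zero_sub, abs_neg]
        exact tri3 (hc2 a b e (by linarith) (by linarith) w) (norm_le_pi_norm X.1 a)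
          (norm_le_pi_norm Y.1 b)
      · rw [hc, if_pos ⟨by linarith, by linarith, by linarith⟩, X.2 a (by linarith),
          Y.2 b (by linarith), sub_self, abs_zero]
        exact z
    · have a1 := br_le hL hc1 X.1 Y.1
      have a2 := hb X.1 Y.1
      have a3 := mul_le_mul_of_nonneg_right sm (mul_nonneg (norm_nonneg X.1) (norm_nonneg Y.1))
      have p1 := mul_nonneg (norm_nonneg X.1) (norm_nonneg Y.1)
      have p2 := mul_nonneg (norm_nonneg X.1) (norm_nonneg (q Y.1))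
      have p3 := mul_nonneg (norm_nonneg Y.1) (norm_nonneg (q X.1))
      have p4 := mul_nonneg (norm_nonneg (q X.1)) (norm_nonneg (q Y.1))
      have p5 := mul_nonneg k0 hL
      simp only [pp, K]
      nlinarith [mul_nonneg p5 p2, mul_nonneg p5 p3, mul_nonneg p5 p4, mul_nonneg hβ p1,
        mul_nonneg hβ p2, mul_nonneg hβ p3, mul_nonneg hβ p4]
  rw [NN_hg hz (add_pos hm hm'), NN_hg hx hm, NN_hg hy hm', Nm, Nm, Nm, hs']
  have b1 := mul_nonneg (hs m) (Qm_nn (μ := μ) (q := q) (m := m) (y := x))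
  have b2 := mul_nonneg (hs m') (Qm_nn (μ := μ) (q := q) (m := m') (y := y))
  have b3 := mul_le_mul_of_nonneg_left h2 (mul_nonneg (hs m) (hs m'))
  have b4 := mul_nonneg (norm_nonneg x) (norm_nonneg y)
  have b5 : k * (L * ‖x‖ * ‖y‖) ≤ K * (‖x‖ * ‖y‖) := by
    simp only [K]; nlinarith [mul_nonneg hβ b4]
  nlinarith [mul_nonneg K0 (mul_nonneg (norm_nonneg x) b2),
    mul_nonneg K0 (mul_nonneg (norm_nonneg y) b1)]

theorem down [DecidableEq κ] {D : ℝ} (hD : 0 ≤ D)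
    (h : ∀ a, 0 < μ a → Qm μ q (μ a) (Pi.single a 1) < D) (i : ℕ) : ∀ a, 0 < μ a → #{b | μ a < μ b} < i →
      ‖q (Pi.single a 1)‖ ≤ D * (1 + Fintype.card κ * D) ^ i := by
  induction i with
  | zero => exact fun _ _ h => absurd h (Nat.not_lt_zero _)
  | succ i ih =>
    intro a ha hi
    obtain ⟨⟨X, hX⟩, e⟩ := exists_lt_of_ciInf_lt (h a ha)
    have e1 : ‖X‖ ≤ D := (le_add_of_nonneg_right (norm_nonneg _)).trans e.le
    have e2 : ‖q X‖ ≤ D := (le_add_of_nonneg_left (norm_nonneg _)).trans e.le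
    have p : 1 ≤ (1 + Fintype.card κ * D) ^ i := one_le_pow₀ (le_add_of_nonneg_right (by positivity))
    have : ‖q (X - Pi.single a 1)‖ ≤ Fintype.card κ * (D * (D * (1 + Fintype.card κ * D) ^ i)) := by
      rw [pi_eq_sum_univ' (X - Pi.single a 1), map_sum, ← nsmul_eq_mul, ← card_univ]
      refine (norm_sum_le _ _).trans (sum_le_card_nsmul _ _ _ fun b _ => ?_)
      rw [map_smul, norm_smul, Pi.sub_apply]
      rcases le_or_gt (μ b) (μ a) with u | u
      · rw [hX b u, sub_self, norm_zero, zero_mul]; positivity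
      rw [Pi.single_eq_of_ne (fun v => u.ne' (congrArg μ v)), sub_zero]
      refine mul_le_mul ((norm_le_pi_norm X b).trans e1) (ih b (ha.trans u)
        (lt_of_lt_of_le (card_lt_card ⟨fun e v => ?_, fun v => ?_⟩) (Nat.lt_succ_iff.1 hi)))
        (norm_nonneg _) hD
      · exact mem_filter.2 ⟨mem_univ _, u.trans (mem_filter.1 v).2⟩
      · exact lt_irrefl _ (mem_filter.1 (v (mem_filter.2 ⟨mem_univ b, u⟩))).2
    have e3 := norm_sub_le (q X) (q (X - Pi.single a 1))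
    rw [← map_sub, sub_sub_cancel] at e3
    rw [pow_succ]
    nlinarith [mul_le_mul_of_nonneg_left p hD]

end Cap

theorem ad_le {κ : Type} [Fintype κ] {μ : κ → ℝ} {c : κ → κ → κ → ℝ} {g A : κ → ℝ}
    {m G τ : ℝ} (N : ℕ) (hG : 1 ≤ G) (hτ : 0 ≤ τ) (hm : 0 < m) (h0 : ∀ a, 0 ≤ μ a)
    (hk : (Fintype.card κ : ℝ) ^ 2 ≤ G) (hN : N + 1 ≤ G) (hc1 : ∀ a b e, |c a b e| ≤ G)
    (hc2 : ∀ a b e, 0 < μ a → 0 < μ b → μ e < μ a + μ b → |c a b e| ≤ τ) (hg : ‖g‖ ≤ G)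
    (hg' : ∀ a, μ a = 0 → |g a| ≤ τ) (hA : ‖A‖ ≤ G) (hA' : ∀ a, μ a < m → |A a| ≤ τ) :
    ‖Ad N c g A‖ ≤ G ^ (3 * N + 2) ∧
      ∀ e, μ e ≤ m → |blk μ m A e - Ad N c g A e| ≤ τ * G ^ (3 * N + 2) := by
  have G0 : 0 ≤ G := zero_le_one.trans hG
  have it : ∀ j, ‖(br c g)^[j] A‖ ≤ G ^ (3 * j + 1) ∧ ∀ e, μ e < m ∨ (μ e ≤ m ∧ j ≠ 0) →
      |(br c g)^[j] A e| ≤ τ * G ^ (3 * j + 1) := fun j => by
    induction j with
    | zero => exact ⟨by simpa using hA, fun e h =>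
        (hA' e (by tauto)).trans (le_mul_of_one_le_right hτ (by simpa using hG))⟩
    | succ j ih =>
      rw [Function.iterate_succ_apply', show G ^ (3 * (j + 1) + 1) = G * (G * G * G ^ (3 * j + 1)) by
        ring]
      refine ⟨(br_le G0 hc1 _ _).trans (by gcongr; exact ih.1), fun e he => ?_⟩
      have he' : μ e ≤ m := he.elim le_of_lt And.left
      rw [mul_left_comm]
      refine (sum2 (r := τ * (G * G * G ^ (3 * j + 1))) fun a b => ?_).trans (by gcongr)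
      have u1 : |g a| ≤ G := (norm_le_pi_norm g a).trans hg
      have u2 : |(br c g)^[j] A b| ≤ G ^ (3 * j + 1) := (norm_le_pi_norm _ b).trans ih.1
      have u3 : τ * G * G ^ (3 * j + 1) ≤ τ * (G * G * G ^ (3 * j + 1)) := by
        rw [mul_assoc τ]; gcongr; exact le_mul_of_one_le_right G0 hG
      rcases (h0 a).eq_or_lt with u | u
      · exact (tri3 (hc1 a b e) (hg' a u.symm) u2).trans (by rw [mul_comm G τ]; exact u3)
      rcases lt_or_ge (μ b) m with v | v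
      · exact (tri3 (hc1 a b e) u1 (ih.2 b (.inl v))).trans_eq (by ring)
      · exact (tri3 (hc2 a b e u (by linarith) (by linarith)) u1 u2).trans u3
  have sm : ∀ (f : ℕ → ℝ) (t : ℝ), 0 ≤ t → (∀ j ≤ N, |f j| ≤ t * G ^ (3 * j + 1)) →
      |∑ j ∈ range (N + 1), f j| ≤ t * G ^ (3 * N + 2) := fun f t ht h => by
    refine (abs_sum_le_sum_abs _ _).trans ((sum_le_card_nsmul _ _ (t * G ^ (3 * N + 1))
      fun j hj => ?_).trans ?_)
    · have := Nat.lt_succ_iff.1 (mem_range.1 hj)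
      exact (h j this).trans (by gcongr)
    · rw [card_range, nsmul_eq_mul, pow_succ' G (3 * N + 1), mul_left_comm t]
      push_cast; gcongr
  have fa : ∀ (j : ℕ) (z : ℝ), |((j.factorial : ℚ))⁻¹ • z| ≤ |z| := fun j z => by
    rw [Rat.smul_def, abs_mul]
    refine mul_le_of_le_one_left (abs_nonneg _) ?_
    push_cast
    rw [abs_inv, Nat.abs_cast]
    exact inv_le_one_of_one_le₀ (by exact_mod_cast j.factorial_pos)
  refine ⟨(pi_norm_le_iff_of_nonneg (by positivity)).2 fun e => ?_, fun e he => ?_⟩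
  · rw [Ad, Finset.sum_apply, ← one_mul (G ^ _)]
    exact sm _ 1 zero_le_one fun j _ => (fa j _).trans
      ((norm_le_pi_norm _ e).trans ((it j).1.trans_eq (one_mul _).symm))
  · have : blk μ m A e = ∑ j ∈ range (N + 1), if j = 0 then blk μ m A e else 0 := by simp
    rw [Ad, Finset.sum_apply, this, ← sum_sub_distrib]
    refine sm _ τ hτ fun j _ => ?_
    split_ifs with u
    · subst u
      unfold blk; split_ifs with v
      · simp; positivity
      · rw [zero_sub, abs_neg]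
        exact (fa 0 _).trans ((it 0).2 e (.inl (he.lt_of_ne v)))
    · rw [zero_sub, abs_neg]
      exact (fa j _).trans ((it j).2 e (.inr ⟨he, u⟩))

section Mat

variable {ι κ J α : Type} [Fintype ι] [DecidableEq ι] [Fintype κ] [Fintype J]
  {Φ : H61Z.Filt (Mt ι)} {B : κ → Mt ι} {c : κ → κ → κ → ℝ}

theorem ent_le (A : Mt ι) (p q : ι) : |A p q| ≤ ‖A‖ := by
  rw [linfty_opNorm_def]
  exact_mod_cast (single_le_sum (f := fun j => ‖A p j‖₊) (fun _ _ => zero_le) (mem_univ q)).trans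
    (le_sup (f := fun i => ∑ j, ‖A i j‖₊) (mem_univ p))

theorem nrm_le {A : Mt ι} {r G : ℝ} (hr : 0 ≤ r) (hG : (Fintype.card ι : ℝ) ≤ G)
    (h : ∀ p q, |A p q| ≤ r) : ‖A‖ ≤ G * r := by
  refine le_trans ?_ (mul_le_mul_of_nonneg_right hG hr)
  lift r to NNReal using hr
  rw [linfty_opNorm_def]
  have : (univ.sup fun i => ∑ j, ‖A i j‖₊) ≤ Fintype.card ι * r := Finset.sup_le fun p _ =>
    (sum_le_card_nsmul _ _ r fun q _ => h p q).trans_eq (by rw [nsmul_eq_mul, card_univ])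
  exact_mod_cast this

theorem vec_le {r : ℝ} (h : ∀ a, ‖B a‖ ≤ r) (X : κ → ℝ) :
    ‖vec B X‖ ≤ Fintype.card κ * r * ‖X‖ := by
  rw [mul_assoc, ← nsmul_eq_mul, ← card_univ]
  refine (norm_sum_le _ _).trans (sum_le_card_nsmul _ _ _ fun a _ => ?_)
  rw [norm_smul, mul_comm r]
  exact mul_le_mul (norm_le_pi_norm X a) (h a) (norm_nonneg _) (norm_nonneg _)

theorem ex_le (fr : IsFr Φ B c) {G R : ℝ} (hN : Φ.N + 1 ≤ G) (hR : 1 ≤ R) {t : κ → ℝ}
    (h : ‖vec B t‖ ≤ R) : ‖ex B t‖ ≤ G * R ^ Φ.N := by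
  have pw : ∀ i, ‖vec B t ^ i‖ ≤ R ^ i := fun i => by
    induction i with
    | zero =>
      rw [pow_zero, pow_zero, ← diagonal_one, linfty_opNorm_diagonal]
      exact (pi_norm_le_iff_of_nonneg zero_le_one).2 fun _ => norm_one.le
    | succ i ih => rw [pow_succ, pow_succ]; exact (norm_mul_le _ _).trans (by gcongr)
  rw [ex, IsNilpotent.exp_eq_sum (Φ.pow_zero' (fr.mem t))]
  refine (norm_sum_le _ _).trans ((sum_le_card_nsmul _ _ (R ^ Φ.N) fun j hj => ?_).trans ?_)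
  · rw [← Rat.cast_smul_eq_qsmul ℝ, norm_smul]
    refine (mul_le_of_le_one_left (norm_nonneg _) ?_).trans ((pw j).trans
      (pow_le_pow_right₀ hR (Nat.lt_succ_iff.1 (mem_range.1 hj))))
    push_cast
    rw [norm_inv, Real.norm_natCast]
    exact inv_le_one_of_one_le₀ (by exact_mod_cast j.factorial_pos)
  · rw [card_range, nsmul_eq_mul]; push_cast; gcongr

theorem cm_le (X Y : Mt ι) : ‖cm X Y‖ ≤ 2 * ‖X‖ * ‖Y‖ := by
  have := norm_sub_le (X * Y) (Y * X)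
  have := norm_mul_le X Y
  have := norm_mul_le Y X
  unfold cm; linarith

/-- The commutators with the matrices `ψ`, multiplied by `Λ`. -/
noncomputable def cq (Λ : ℝ) (B : κ → Mt ι) (ψ : J → Mt ι) : (κ → ℝ) →ₗ[ℝ] J → Mt ι :=
  LinearMap.pi fun j => Λ • (LinearMap.mulRight ℝ (ψ j) - LinearMap.mulLeft ℝ (ψ j)) ∘ₗ
    Fintype.linearCombination ℝ B

theorem cq_le {Λ r : ℝ} {ψ : J → Mt ι} {X : κ → ℝ} (hΛ : 0 ≤ Λ) (hr : 0 ≤ r) :
    ‖cq Λ B ψ X‖ ≤ r ↔ ∀ j, Λ * ‖cm (vec B X) (ψ j)‖ ≤ r := by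
  rw [pi_norm_le_iff_of_nonneg hr]
  refine forall_congr' fun j => ?_
  rw [show cq Λ B ψ X j = Λ • cm (vec B X) (ψ j) from rfl, norm_smul, Real.norm_of_nonneg hΛ]

/-- The cap at one point. -/
theorem pt (fr : IsFr Φ B c) {μ : κ → ℝ} {η : α → ℝ} {A : α → κ → ℝ} {g k : κ → ℝ} {E : Mt ι}
    {H : α → Mt ι} {φ : J → Mt ι} {s : ℝ → ℝ} {L β G τ Λ : ℝ} (hs : ∀ m, 0 ≤ s m)
    (hs' : ∀ m m', s (m + m') = s m * s m') (hη : ∀ i, 0 < η i) (h0 : ∀ a, 0 ≤ μ a) (hL : 1 ≤ L)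
    (hβ : 0 ≤ β) (hτ : 0 ≤ τ) (hΛ : 1 ≤ Λ) (LG : L ≤ G) (βG : β ≤ G) (G2 : 2 ≤ G)
    (hk : (Fintype.card κ : ℝ) ^ 2 ≤ G) (hN : Φ.N + 1 ≤ G) (hι : (Fintype.card ι : ℝ) ≤ G)
    (sm : 2 * Λ * (G ^ (8 * Φ.N + 8)) ^ 2 * τ ≤ 1) (sm' : ∀ i, s (η i) * (3 * G ^ (8 * Φ.N + 8)) ≤ 1)
    (hB : ∀ X : κ → ℝ, ‖vec B X‖ ≤ β * ‖X‖) (hc1 : ∀ a b e, |c a b e| ≤ L)
    (hc2 : ∀ a b e, 0 < μ a → 0 < μ b → μ e < μ a + μ b → |c a b e| ≤ τ) (hg : ‖g‖ ≤ G)
    (hg' : ∀ a, μ a = 0 → |g a| ≤ τ) (hk' : ‖k‖ ≤ G) (hA : ∀ i, ‖A i‖ ≤ L)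
    (hA' : ∀ i a, μ a < η i → |A i a| ≤ τ) (uE : IsUnit E)
    (ad : ∀ i, vec B (A i) = ex B k * H i * ex B (-k))
    (hφ : ∀ j p q, |((E * ex B g * ex B k)⁻¹ * φ j * (E * ex B g * ex B k)) p q| ≤ L ∧
      ∀ i, |cm (H i) ((E * ex B g * ex B k)⁻¹ * φ j * (E * ex B g * ex B k)) p q| ≤ τ) :
    Cap μ η c A ((Fintype.card κ : ℝ) ^ 2 * L + 4 * β + 1 + L)
      (NN μ s (cq Λ B fun j => E⁻¹ * φ j * E)) := by
  have mu := GA.sMul ι κ Φ B c fr
  have G1 : 1 ≤ G := by linarith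
  have Λ0 : 0 ≤ Λ := by linarith
  set N := Φ.N
  have xe : ∀ t, ‖t‖ ≤ G → ‖ex B t‖ ≤ G ^ (2 * N + 1) := fun t h =>
    (ex_le fr hN (R := G * G) (by nlinarith) ((hB t).trans (by gcongr))).trans_eq (by ring)
  have cj : ∀ (Z : Mt ι) (r : ℝ), 0 ≤ r → (∀ p q, |Z p q| ≤ r) →
      ‖ex B g * ex B k * Z * (ex B (-k) * ex B (-g))‖ ≤ G ^ (8 * N + 5) * r := fun Z r hr h => by
    have a := (norm_mul_le _ _).trans (mul_le_mul (xe g hg) (xe k hk') (norm_nonneg _) (by positivity))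
    have b := (norm_mul_le _ _).trans (mul_le_mul (xe (-k) (by rwa [norm_neg]))
      (xe (-g) (by rwa [norm_neg])) (norm_nonneg _) (by positivity))
    refine (norm_mul_le _ _).trans ((mul_le_mul ((norm_mul_le _ _).trans (mul_le_mul a
      (nrm_le hr hι h) (norm_nonneg _) (by positivity))) b (norm_nonneg _)
      (by positivity)).trans_eq (by ring))
  have i1 : ex B (-k) * ex B (-g) * (ex B g * ex B k) = 1 := by
    rw [mul_assoc, ← mul_assoc (ex B (-g)), (mu.neg g).1, one_mul, (mu.neg k).1]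
  have i2 := mul_eq_one_comm.1 i1
  have eψ : ∀ j, E⁻¹ * φ j * E = ex B g * ex B k *
      ((E * ex B g * ex B k)⁻¹ * φ j * (E * ex B g * ex B k)) * (ex B (-k) * ex B (-g)) := fun j => by
    rw [mul_assoc E, inv_eq_left_inv (A := E * (ex B g * ex B k))
      (B := ex B (-k) * ex B (-g) * E⁻¹) (by
      rw [mul_assoc, nonsing_inv_mul_cancel_left _ _ ((isUnit_iff_isUnit_det E).1 uE), i1])]
    generalize ex B g * ex B k = h, ex B (-k) * ex B (-g) = h' at i2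
    calc _ = h * h' * (E⁻¹ * φ j * E) * (h * h') := by rw [i2, one_mul, mul_one]
      _ = _ := by simp only [mul_assoc]
  set P := G ^ (8 * N + 8)
  have P1 : 1 ≤ P := one_le_pow₀ G1
  have le : ∀ i, i ≤ 8 * N + 8 → G ^ i ≤ P := fun i h => pow_le_pow_right₀ G1 h
  have hq : ∀ D, ‖cq Λ B (fun j => E⁻¹ * φ j * E) D‖ ≤ Λ * P * ‖D‖ := fun D =>
    (cq_le Λ0 (by positivity)).2 fun j => by
      have := (eψ j).symm ▸ cj _ L (by linarith) fun p q => (hφ j p q).1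
      calc _ ≤ Λ * (G * (G * ‖D‖) * (G ^ (8 * N + 5) * G)) := by
            refine mul_le_mul_of_nonneg_left ((cm_le _ _).trans ?_) Λ0
            gcongr
            exacts [(hB D).trans (by gcongr), this.trans (by gcongr)]
        _ = _ := by simp only [P]; ring
  have sm2 : ∀ r, r ≤ P → (1 + Λ * P) * (r * τ) ≤ 1 := fun r h => by
    have : 1 ≤ Λ * P := by nlinarith
    calc _ ≤ (1 + Λ * P) * (P * τ) := by gcongr
      _ ≤ (Λ * P + Λ * P) * (P * τ) := by gcongr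
      _ ≤ 1 := by linarith
  have k0 : 0 ≤ (Fintype.card κ : ℝ) ^ 2 * L := by positivity
  refine ⟨gg hs, fun m m' x y hm hm' hx hy => (cl (β := 2 * β) hs hs' (by linarith) hτ
    (by linarith) (by positivity) hc1 hc2 hq (fun X Y => (cq_le Λ0 (by positivity)).2 fun j => ?_)
    (sm2 _ (hk.trans (by simpa using le 1 (by omega)))) hm hm' hx hy).trans ?_, fun i => ?_⟩
  · have u := (cq_le (B := B) (ψ := fun j => E⁻¹ * φ j * E) (X := X) Λ0 (norm_nonneg _)).1 le_rfl j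
    have v := (cq_le (B := B) (ψ := fun j => E⁻¹ * φ j * E) (X := Y) Λ0 (norm_nonneg _)).1 le_rfl j
    rw [mu.vbr, show ∀ a b z : Mt ι, cm (cm a b) z = cm a (cm b z) - cm b (cm a z) from
      fun a b z => by simp only [cm]; noncomm_ring]
    calc _ ≤ Λ * (2 * (β * ‖X‖) * ‖cm (vec B Y) (E⁻¹ * φ j * E)‖ +
          2 * (β * ‖Y‖) * ‖cm (vec B X) (E⁻¹ * φ j * E)‖) := by
          refine mul_le_mul_of_nonneg_left ((norm_sub_le _ _).trans (add_le_add
            ((cm_le _ _).trans ?_) ((cm_le _ _).trans ?_))) Λ0 <;> gcongr <;> exact hB _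
      _ = 2 * β * (‖X‖ * (Λ * ‖cm (vec B Y) (E⁻¹ * φ j * E)‖) +
          ‖Y‖ * (Λ * ‖cm (vec B X) (E⁻¹ * φ j * E)‖)) := by ring
      _ ≤ _ := by gcongr
  · exact mul_le_mul_of_nonneg_right (mul_le_mul_of_nonneg_right (by linarith) (NN_nn hs))
      (NN_nn hs)
  · obtain ⟨a1, a2⟩ := ad_le N G1 hτ (hη i) h0 hk hN (fun a b e => (hc1 a b e).trans LG) hc2 hg hg'
      ((hA i).trans LG) (hA' i)
    have b1 := Qm_ap hq (by positivity) (by positivity) a2
    have b2 := sm2 _ (le (3 * N + 2) (by omega))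
    have b3 : ‖cq Λ B (fun j => E⁻¹ * φ j * E) (Ad N c g (A i))‖ ≤ 1 :=
      (cq_le Λ0 zero_le_one).2 fun j => by
        have := cj _ τ hτ fun p q => (hφ j p q).2 i
        rw [(GA.sAd ι κ Φ B c fr).1, ad, eψ]
        generalize (E * ex B g * ex B k)⁻¹ * φ j * (E * ex B g * ex B k) = χ at this ⊢
        have e : cm (ex B g * (ex B k * H i * ex B (-k)) * ex B (-g))
            (ex B g * ex B k * χ * (ex B (-k) * ex B (-g))) =
            ex B g * ex B k * cm (H i) χ * (ex B (-k) * ex B (-g)) := by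
          rw [show ex B g * (ex B k * H i * ex B (-k)) * ex B (-g) =
            ex B g * ex B k * H i * (ex B (-k) * ex B (-g)) by simp only [mul_assoc]]
          generalize ex B g * ex B k = h, ex B (-k) * ex B (-g) = h' at i1
          simp only [cm, mul_sub, sub_mul, mul_assoc, ← mul_assoc h' h, i1, one_mul]
        rw [e]
        have := sm2 _ (le (8 * N + 5) (by omega))
        have : 0 ≤ G ^ (8 * N + 5) * τ := by positivity
        calc _ ≤ (1 + Λ * P) * (G ^ (8 * N + 5) * τ) := by gcongr; nlinarith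
          _ ≤ 1 := by assumption
    have b4 : ‖blk μ (η i) (A i)‖ ≤ L := (pi_norm_le_iff_of_nonneg (by linarith)).2 fun b => by
      unfold blk; split_ifs
      exacts [(norm_le_pi_norm _ b).trans (hA i), by simpa using zero_le_one.trans hL]
    have b5 := le (3 * N + 2) (by omega)
    have b6 : Qm μ (cq Λ B fun j => E⁻¹ * φ j * E) (η i) (blk μ (η i) (A i)) ≤ 3 * P := by
      unfold pp at b1; rw [mul_comm τ] at b1; linarith
    rw [NN_hg (m := η i) (x := blk μ (η i) (A i)) (fun b h => by_contra fun u => h (if_neg u)) (hη i), Nm]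
    linarith [mul_le_mul_of_nonneg_left b6 (hs (η i)), sm' i]

end Mat

section One

variable {ι κ α J Ω Λ Θ Ξ : Type} [Fintype ι] [DecidableEq ι] [Fintype κ] [DecidableEq κ]
  [Fintype J] {σ : Sg ι κ α} {b : Bd ι κ α Ω Θ Ξ} {d : Fd ι κ α Ω} {P : FP Ω} {O : Ω → Λ}
  {μ : κ → ℝ} {γ : κ → ℕ} {M W β p C T' e k : ℝ} {ω : Ω}

theorem pt2 {φ : J → Mt ι} (fr : IsFr σ.Φ σ.B σ.c) (hη : ∀ i, 0 < σ.η i)
    (h0 : ∀ a, 0 ≤ μ a ∧ μ a ≤ W) (W0 : 0 ≤ W) (β0 : 0 ≤ β) (hβ : ∀ e, ‖σ.B e‖ ≤ β)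
    (hp : p = (8 * σ.Φ.N + 8 : ℕ) * (W + 1)) (hC : ∀ i, p + 2 ≤ C * σ.η i) (T0 : 0 ≤ T')
    (hk : k = Fintype.card κ) (he : 0 < e) (e2 : e ≤ 1 / 2) (m1 : 1 ≤ M)
    (o : One σ b d P O μ γ M (e * M) ((T' + 2 * p + 1) * M)) (hω : ω ∈ P.S)
    (f : ∀ j p' q', |((b.J ω)⁻¹ * φ j * b.J ω) p' q'| ≤ Real.exp (e * M) ∧ ∀ i,
      |cm (vec σ.B (b.H ω i)) ((b.J ω)⁻¹ * φ j * b.J ω) p' q'| ≤
        Real.exp (-((T' + 2 * p + 1) * M)))
    (b1 : k ^ 2 + 4 * (k * (k * β)) + 2 ≤ Real.exp (e * M))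
    (b2 : k ^ 2 + k * (k * β) + σ.Φ.N + Fintype.card ι + 2 ≤ Real.exp (1 / 2 * M)) {ε : ℝ}
    (e1 : e ≤ ε / 2) : Cap μ σ.η (d.c σ ω) (d.A ω) (Real.exp (ε * M))
      (NN μ (fun m => Real.exp (-(C * m * M)))
        (cq (Real.exp (T' * M)) (d.B σ ω) fun j => (d.E ω)⁻¹ * φ j * d.E ω)) := by
  subst hk
  have p0 : 0 ≤ p := by rw [hp]; positivity
  have M0 : 0 ≤ M := by linarith
  have eM := mul_le_mul_of_nonneg_right e2 M0
  have WM := mul_nonneg W0 M0
  have L1 : 1 ≤ Real.exp (e * M) := Real.one_le_exp (by positivity)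
  have LG : Real.exp (e * M) ≤ Real.exp ((W + 1) * M) := Real.exp_le_exp.2 (by linarith)
  have hG := b2.trans (Real.exp_le_exp.2 (show _ ≤ (W + 1) * M by linarith))
  have kb : 0 ≤ (Fintype.card κ : ℝ) * (Fintype.card κ * β) := by positivity
  have k2 := sq_nonneg (Fintype.card κ : ℝ)
  have i0 : (0 : ℝ) ≤ Fintype.card ι := Nat.cast_nonneg _
  have n0 : (0 : ℝ) ≤ σ.Φ.N := Nat.cast_nonneg _
  have eP : Real.exp ((W + 1) * M) ^ (8 * σ.Φ.N + 8) = Real.exp (p * M) := by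
    rw [← Real.exp_nat_mul, hp, mul_assoc]
  have nr : ∀ {z : κ → ℝ} {r : ℝ}, (∀ a, |z a| ≤ Real.exp r) → ‖z‖ ≤ Real.exp r := fun h =>
    (pi_norm_le_iff_of_nonneg (Real.exp_pos _).le).2 h
  have w0 : 0 ≤ (T' + 2 * p + 1) * M := by positivity
  have c := pt (μ := μ) (η := σ.η) (A := d.A ω) (g := d.g ω) (k := d.k ω) (E := d.E ω)
    (H := fun i => vec σ.B (b.H ω i)) (φ := φ) (s := fun m => Real.exp (-(C * m * M)))
    (L := Real.exp (e * M)) (β := Fintype.card κ * (Fintype.card κ * β * Real.exp (e * M)))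
    (G := Real.exp ((W + 1) * M)) (τ := Real.exp (-((T' + 2 * p + 1) * M))) (Λ := Real.exp (T' * M))
    (((GA.sFr ι κ σ.Φ σ.B σ.c).2 _ _ (o.inv ω hω)).1 fr) (fun _ => (Real.exp_pos _).le)
    (fun m m' => by rw [← Real.exp_add]; ring_nf) hη (fun a => (h0 a).1) L1
    (by positivity) (Real.exp_pos _).le (Real.one_le_exp (by positivity)) LG
    (by
      calc _ = Fintype.card κ * (Fintype.card κ * β) * Real.exp (e * M) := by ring
        _ ≤ Real.exp (1 / 2 * M) * Real.exp (e * M) := by gcongr; linarith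
        _ ≤ _ := by rw [← Real.exp_add]; exact Real.exp_le_exp.2 (by linarith))
    (by linarith) (by linarith) (by linarith) (by linarith)
    (by
      rw [eP, ← Real.exp_nat_mul, mul_assoc, mul_assoc, ← Real.exp_add, ← Real.exp_add,
        show T' * M + ((2 : ℕ) * (p * M) + -((T' + 2 * p + 1) * M)) = -M by push_cast; ring,
        Real.exp_neg, mul_inv_le_iff₀ (Real.exp_pos _), one_mul]
      linarith [Real.add_one_le_exp M])
    (fun i => by
      rw [eP, mul_left_comm, ← Real.exp_add]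
      have := mul_le_mul_of_nonneg_right (hC i) M0
      refine (mul_le_mul_of_nonneg_left (Real.exp_le_exp.2 (show _ ≤ -(2 * M) by linarith))
        (by norm_num)).trans ?_
      rw [Real.exp_neg, mul_inv_le_iff₀ (Real.exp_pos _), one_mul]
      linarith [Real.add_one_le_exp (2 * M)])
    (vec_le fun a => (vec_le hβ _).trans (by gcongr; exact nr fun e => (o.bU ω hω a e).1))
    (o.bc ω hω) (fun a a' e u v w => o.fil ω hω a a' e (.inl ⟨u, v, w⟩))
    (nr fun a => (h0 a).1.eq_or_lt.elim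
      (fun u => ((o.bg ω hω a).2 u.symm).trans (Real.exp_le_exp.2 (by linarith)))
      fun u => ((o.bg ω hω a).1 u).trans (Real.exp_le_exp.2
        (by linarith [mul_le_mul_of_nonneg_right (h0 a).2 M0])))
    (fun a => (o.bg ω hω a).2) ((nr (o.bk ω hω)).trans LG) (fun i => nr (o.bA ω hω i))
    (o.low ω hω) (o.uE ω hω) (o.ad ω hω) fun j p' q' => by
      have := f j p' q'
      rwa [o.fac ω hω] at this
  have hle : (Fintype.card κ : ℝ) ^ 2 * Real.exp (e * M) +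
      4 * (Fintype.card κ * (Fintype.card κ * β * Real.exp (e * M))) + 1 + Real.exp (e * M) ≤
      Real.exp (ε * M) :=
    calc _ ≤ (Fintype.card κ ^ 2 + 4 * (Fintype.card κ * (Fintype.card κ * β)) + 2) *
          Real.exp (e * M) := by linarith
      _ ≤ Real.exp (e * M) * Real.exp (e * M) := by gcongr
      _ ≤ _ := by
        rw [← Real.exp_add]
        exact Real.exp_le_exp.2 (by linarith [mul_le_mul_of_nonneg_right e1 M0])
  refine ⟨c.toGg, fun m m' x y hm hm' hx hy => (c.cl m m' x y hm hm' hx hy).trans ?_,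
    fun i => (c.dir i).trans hle⟩
  exact mul_le_mul_of_nonneg_right (mul_le_mul_of_nonneg_right hle
    (NN_nn fun _ => (Real.exp_pos _).le)) (NN_nn fun _ => (Real.exp_pos _).le)

theorem fin {B : κ → Mt ι} {ψ : J → Mt ι} {T : ℝ} (h0 : ∀ a, 0 ≤ μ a ∧ μ a ≤ W) (W0 : 0 ≤ W)
    (C0 : 0 ≤ C) (hk : k = Fintype.card κ) (hT' : T' = |T| + (k + 2) * (C * W + 3)) (m1 : 1 ≤ M)
    (b1 : 1 + k ≤ Real.exp (1 * M)) (h : ∀ a, 0 < μ a → NN μ (fun m => Real.exp (-(C * m * M)))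
      (cq (Real.exp (T' * M)) B ψ) (Pi.single a 1) ≤ Real.exp (1 * M)) (a : κ) (j : J) (p' q' : ι)
    (ha : 0 < μ a) : |cm (B a) (ψ j) p' q'| ≤ Real.exp (-(T * M)) := by
  subst hk
  have CW : 0 ≤ C * W := mul_nonneg C0 W0
  have M0 : 0 ≤ M := by linarith
  have h1 := down (μ := μ) (q := cq (Real.exp (T' * M)) B ψ) (Real.exp_pos ((C * W + 2) * M)).le
    (fun a ha => by
      have := h a ha
      rw [NN_hg (m := μ a) (x := Pi.single a 1) (fun e u => by_contra fun v =>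
        u (Pi.single_eq_of_ne (fun w => v (congrArg μ w)) _)) ha, Nm] at this
      have h2 := (le_add_of_nonneg_left (norm_nonneg _)).trans this
      rw [Real.exp_neg, inv_mul_le_iff₀ (Real.exp_pos _), ← Real.exp_add] at h2
      refine h2.trans_lt (Real.exp_lt_exp.2 ?_)
      linarith [mul_le_mul_of_nonneg_right (mul_le_mul_of_nonneg_left (h0 a).2 C0) M0])
    (Fintype.card κ + 1) a ha (Nat.lt_succ_of_le (card_le_univ _))
  have h2 := (cq_le (Real.exp_pos _).le (by positivity)).1 h1 j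
  rw [show vec B (Pi.single a 1) = B a by simp [GA.vec, Pi.single_apply],
    ← le_inv_mul_iff₀ (Real.exp_pos _)] at h2
  refine (ent_le _ _ _).trans (h2.trans ?_)
  have D1 : 1 ≤ Real.exp ((C * W + 2) * M) := Real.one_le_exp (by positivity)
  have h3 : 1 + Fintype.card κ * Real.exp ((C * W + 2) * M) ≤ Real.exp ((C * W + 3) * M) :=
    calc _ ≤ (1 + Fintype.card κ) * Real.exp ((C * W + 2) * M) := by linarith
      _ ≤ Real.exp (1 * M) * Real.exp ((C * W + 2) * M) := by gcongr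
      _ = _ := by rw [← Real.exp_add]; ring_nf
  calc _ ≤ (Real.exp (T' * M))⁻¹ * (Real.exp ((C * W + 3) * M) *
        Real.exp ((C * W + 3) * M) ^ (Fintype.card κ + 1)) := by gcongr; norm_num
    _ ≤ _ := by
      rw [← Real.exp_nat_mul, ← Real.exp_neg, ← Real.exp_add, ← Real.exp_add, hT']
      push_cast
      exact Real.exp_le_exp.2 (by linarith [mul_le_mul_of_nonneg_right (le_abs_self T) M0])

end One

end FlComA

open FlComA in
theorem ofCom : OfCom := by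
  intro _ ι κ α κ' J _ _ _ _ _ _ Ω Λ Θ Ξ σ b Hs W L₀ μ γ X d φ ok hμ hM fl hL₀ acw fb T
  have h0 : ∀ a, 0 ≤ μ a ∧ μ a ≤ W := fun a => ok.bd _ (hμ a)
  have W0 : 0 ≤ W := (ok.bd 0 ok.zero).2
  obtain ⟨β, β0, hβ⟩ : ∃ β : ℝ, 0 ≤ β ∧ ∀ e, ‖σ.B e‖ ≤ β := ⟨∑ e, ‖σ.B e‖, by positivity, fun e =>
    single_le_sum (f := fun e => ‖σ.B e‖) (fun _ _ => norm_nonneg _) (mem_univ e)⟩
  obtain ⟨p, hp, p0⟩ : ∃ p : ℝ, p = (8 * σ.Φ.N + 8 : ℕ) * (W + 1) ∧ 0 ≤ p := ⟨_, rfl, by positivity⟩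
  obtain ⟨C, C0, hC⟩ : ∃ C : ℝ, 0 ≤ C ∧ ∀ i, p + 2 ≤ C * σ.η i := by
    have e : ∀ i, 0 ≤ (σ.η i)⁻¹ := fun i => (inv_pos.2 (ok.eta i)).le
    refine ⟨(p + 2) * ∑ i, (σ.η i)⁻¹, mul_nonneg (by linarith) (sum_nonneg fun i _ => e i),
      fun i => ?_⟩
    rw [mul_assoc]
    refine le_mul_of_one_le_right (by linarith) ?_
    rw [← inv_mul_cancel₀ (ok.eta i).ne']
    exact mul_le_mul_of_nonneg_right (single_le_sum (fun i _ => e i) (mem_univ i)) (ok.eta i).le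
  obtain ⟨k, hk⟩ : ∃ k : ℝ, k = Fintype.card κ := ⟨_, rfl⟩
  obtain ⟨T', hT', T0⟩ : ∃ T' : ℝ, T' = |T| + (k + 2) * (C * W + 3) ∧ 0 ≤ T' :=
    ⟨_, rfl, by rw [hk]; positivity⟩
  have big : ∀ K ε : ℝ, 0 < ε → ∀ᶠ n in UF, K ≤ Real.exp (ε * (X n).M) := fun K ε h =>
    ((hM.sub (le_max_right K 1)).2 ε h).mono fun n a => (le_max_left _ _).trans a
  refine (acw (-1) 1 _ (fun n => (d n).T) (fun n ω => NN μ (fun m => Real.exp (-(C * m * (X n).M)))
    (cq (Real.exp (T' * (X n).M)) ((d n).B σ ω) fun j => ((d n).E ω)⁻¹ * φ n ω j * (d n).E ω))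
    le_rfl (by norm_num) one_pos ((fl 1 one_pos 0).mono fun n o => o.fT)
    (((fl 1 one_pos 0).and fb.1).mono fun n o v hv w hw e => ?_) fun ε hε => ?_).mono ?_
  · have e' : (d n).T v = (d n).T w := congrArg Prod.fst e
    have e1 : (d n).U v = (d n).U w := congrArg Prod.fst (o.1.fU v hv w hw e')
    simp only [Fd.B, e1, o.1.fE v hv w hw e', o.2 v hv w hw (o.1.f0 v hv w hw e')]
  · have he : 0 < min (ε / 2) (1 / 2) := lt_min (half_pos hε) one_half_pos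
    filter_upwards [fl _ he (T' + 2 * p + 1), fb.2 _ he (T' + 2 * p + 1), hM.ev 1,
      big (k ^ 2 + 4 * (k * (k * β)) + 2) _ he,
      big (k ^ 2 + k * (k * β) + σ.Φ.N + Fintype.card ι + 2) _ one_half_pos] with n o f m1 b1 b2 ω hω
    exact pt2 ok.fr ok.eta h0 W0 β0 hβ hp hC T0 hk he (min_le_right _ _) m1 o hω (f ω hω) b1 b2
      (min_le_left _ _)
  filter_upwards [hM.ev 1, big (1 + k) 1 one_pos] with n m1 b1 ω hω h
  refine fin h0 W0 C0 hk hT' m1 b1 (h.resolve_right fun h => ?_)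
  have e : dn (X n).P (d n).T (fun v => ((b n).S v, (d n).T v)) ω = 1 :=
    (pb_congr fun v hv => iff_true_intro (show (d n).T v = (d n).T ω from
      congrArg Prod.snd ((S20.mem_cv hω v).1 hv).2)).trans (pb_true _)
  rw [e, Real.one_le_exp_iff] at h
  norm_num at h
  linarith [mul_pos (inv_pos.2 hL₀) (one_pos.trans_le m1)]

end Pool.Agent.MP_5168f5_an.QA.Fl
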