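import Pool.Agent.MP_5168f5_an.QA.FlAll
import Pool.Agent.MP_5168f5_an.QA.FlCom

/-! The Kakeya maximal estimate: the minimal filtration, commutation. -/

namespace Pool.Agent.MP_5168f5_an.QA.Fl

theorem sCom : SCom := ofCom rIdl

end Pool.Agent.MP_5168f5_an.QA.Fl
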