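import Pool.Agent.MP_5168f5_an.QA.FrNet

/-! The Kakeya maximal estimate: the common label and the model. -/

namespace Pool.Agent.MP_5168f5_an.QA.Fr

open H19 H17S H17F R4 AN Filter Finset Real
open G39 (dl)
open C1 (Dg Hb)
open GA (Mt netc)
open N2 (Uni Bd low blk uni_un rep rep_spec rep_congr)

variable {V : Type} [AddCommGroup V] [Module ℝ V] {m : ℕ} {Ω Λ : ℕ → Type} {P : ∀ n, FP (Ω n)}
  {M : ℕ → ℕ} {B : V → ℝ} {ν : ℚ → ∀ n, Ω n → V → ℝ} {T : Fin m → ℕ → ℝ} {kk la : Fin m → ℝ}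
  {R : ℝ} {O : ℚ → ∀ n, Ω n → Λ n} {one tt : V} {pt : ∀ n, Ω n → V →ₗ[ℝ] ℝ} {c : ℕ → ℝ}
  {o τ : Fin m} {f : ∀ n, Ω n → Fin m → V}

theorem tt0 (hM : Big M) (hB : Hb B) (hν : ∀ x, ∀ᶠ n in UF, ∀ ω ∈ (P n).S, Hb (ν x n ω))
    (near : ∀ a b, kk a = kk b → la a = la b ∧ Sm M fun n => T a n - T b n)
    (far : ∀ a b, kk a < kk b → Far M (T a) (T b)) (ko : ∀ a, a ≠ o → kk o < kk a) (lo : la o = 0)
    (ne : τ ≠ o) (nest : ∀ x x', x ≤ x' → FnE P (O x) (O x')) (fn : ∀ x, FnE P (ν x) (O x))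
    (F : FR P M B ν T la f)
    (eo : ∀ᶠ n in UF, ∀ ω ∈ (P n).S, f n ω o = one ∧ f n ω τ = c n • (tt - pt n ω tt • one))
    (ev : ∀ K, ∀ᶠ n in UF, ∀ ω ∈ (P n).S, ∀ p, |pt n ω (f n ω p) - (1 : Mt (Fin m)) p o| ≤ dl M K n)
    (hR : ∀ p q, kk q < kk p → 2 * wd la ≤ R * (kk p - kk q)) (X : ℕ)
    (up : ∀ᶠ n in UF, ∀ ω ∈ (P n).S, ∀ v ∈ (P n).S, O (-X) n v = O (-X) n ω →
      ∃ k, Uni kk k ∧ Uni la k ∧ f n ω = act k (f n v)) : ∃ TT e t₀ j d,
    Mod P M B ν T kk la O one tt pt c (la τ) o τ R (fun _ => X) TT e t₀ j ∧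
      Gau P M kk (O (-X)) o τ f e j d := by
  have ds : ∀ {ω : ∀ n, Ω n}, (∀ᶠ n in UF, ω n ∈ (P n).S) →
      DS M 0 (fun _ => B) (fun n => f n (ω n)) T ∧
      ∀ x : ℚ, DS M 0 (fun n => ν x n (ω n)) (fun n => f n (ω n)) (rx M la x) := fun a =>
    ⟨Su.ds (ν := fun _ _ => B) F.dB (.of_forall fun _ _ _ => hB) F.sp a,
      fun x => Su.ds (r := rx M la x) (F.dg x) (hν x) F.sp a⟩
  have tS : ∀ {ω v : ∀ n, Ω n}, (∀ᶠ n in UF, ω n ∈ (P n).S) → (∀ᶠ n in UF, v n ∈ (P n).S) →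
      ∀ᶠ n in UF, IsUnit (tr (f n (ω n)) (f n (v n))).det ∧
        f n (ω n) = act (tr (f n (ω n)) (f n (v n))) (f n (v n)) := fun a b =>
    (ds b).1.tr ((ds a).1.1.mono fun _ i => i.2)
  have bx : ∀ {ω v : ∀ n, Ω n} (x : ℚ), (∀ᶠ n in UF, ω n ∈ (P n).S) → (∀ᶠ n in UF, v n ∈ (P n).S) →
      (∀ᶠ n in UF, ν x n (v n) = ν x n (ω n)) →
      BS M 0 (rx M la x) fun n => tr (f n (ω n)) (f n (v n)) := fun x a b i =>
    zero_add (0 : ℝ) ▸ ((ds b).2 x).bs hM (((ds a).2 x).congr i (.of_forall fun _ => rfl))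
  have same : ∀ {ω v : ∀ n, Ω n} (x : ℚ), |x| ≤ X → (∀ᶠ n in UF, ω n ∈ (P n).S) →
      (∀ᶠ n in UF, v n ∈ (P n).S) → (∀ᶠ n in UF, ν x n (v n) = ν x n (ω n)) →
      BS M 0 (rx M kk (-(R * X))) fun n => tr (f n (ω n)) (f n (v n)) := fun x i a b j => by
    refine BS.inf (zero_add (0 : ℝ) ▸ (ds b).1.bs hM (ds a).1) (bx x a b j) fun p q => ?_
    rcases lt_trichotomy (kk p) (kk q) with l | l | l
    · exact .inl (((far p q l).le (R * X * (kk p - kk q))).of_sub (.of_forall fun n => by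
        unfold rx; linarith))
    · exact .inr (Le.of_le fun n => by simp [rx, l, (near p q l).1])
    · refine .inr ((rx_sp la x p q).of_sub (.of_forall fun n => ?_))
      have := mul_le_mul_of_nonneg_right (mul_le_mul (hR p q l) (by exact_mod_cast i : |(x : ℝ)| ≤ X)
        (abs_nonneg _) (le_trans (by linarith [wd_nn la]) (hR p q l))) (Nat.cast_nonneg (α := ℝ) (M n))
      unfold rx
      linarith
  have aX : |(-X : ℚ)| ≤ X := by simp
  choose gg hg using fun x : Fin m → V => net_rl.1 x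
  have bg : ∀ x : ℕ → Fin m → V, BS M 0 (fun _ _ => 0) fun n => gg (x n) := fun x => bs0.2
    ((sq_const hM 2).imp (.of_forall fun _ _ i => (hg _).1.mono (fun _ => one_pos) i))
  let r : ∀ n, Ω n → Ω n := fun n => rep (P n) (O (-X) n) fun _ => True
  let N : ∀ n, Ω n → Fin m → V := fun n ω => nz kk (-(R * X * M n)) (f n (r n ω))
  let TT : ∀ n, Ω n → Fin m → V := fun n ω => netc Rl (N n ω)
  let s : ∀ n, Ω n → Ω n := fun n ω => r n (rep (P n) (TT n) (fun _ => True) ω)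
  let G : ∀ n, Ω n → Mt (Fin m) := fun n ω => tr (f n (r n ω)) (f n (s n ω))
  let d : ∀ n, Ω n → Mt (Fin m) := fun n ω => blk kk (low kk (G n ω))⁻¹
  let k : ∀ n, Ω n → Mt (Fin m) := fun n ω => tr (f n ω) (f n (r n ω))
  let J : ∀ n, Ω n → Mt (Fin m) := fun n ω => d n ω * k n ω * (d n ω)⁻¹ * N2.un kk (G n ω)
  have hr : ∀ {ω : ∀ n, Ω n}, (∀ᶠ n in UF, ω n ∈ (P n).S) → (∀ᶠ n in UF, r n (ω n) ∈ (P n).S) ∧
      ∀ᶠ n in UF, O (-X) n (r n (ω n)) = O (-X) n (ω n) := fun a => rep_ev (O (-X)) a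
  have tk : ∀ {ω : ∀ n, Ω n}, (∀ᶠ n in UF, ω n ∈ (P n).S) → ∀ᶠ n in UF, IsUnit (k n (ω n)).det ∧
      f n (ω n) = act (k n (ω n)) (f n (r n (ω n))) := fun a => tS a (hr a).1
  have bk : ∀ {ω : ∀ n, Ω n}, (∀ᶠ n in UF, ω n ∈ (P n).S) →
      BS M 0 (rx M kk (-(R * X))) fun n => k n (ω n) := fun a =>
    same _ aX a (hr a).1 (fn_ev (fn _) a (hr a).1 (hr a).2)
  have key : ∀ ω : ∀ n, Ω n, (∀ᶠ n in UF, ω n ∈ (P n).S) → ∃ η : ℕ → Mt (Fin m),
      (∀ c, B1 M c η) ∧ BS M 0 (fun _ _ => 0) (fun n => d n (ω n)) ∧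
      BS M 0 (rx M kk (-(R * X))) (fun n => J n (ω n)) ∧ ∀ᶠ n in UF, s n (ω n) ∈ (P n).S ∧
        Uni kk (J n (ω n)) ∧ Rw o τ (J n (ω n)) ∧ Bl kk (d n (ω n))⁻¹ ∧
        (Rw o τ (d n (ω n)) ∧ d n (ω n) τ o = 0) ∧
        act (J n (ω n)) (f n (s n (ω n))) = act (d n (ω n) * (1 - η n)) (f n (ω n)) ∧
        act (J n (ω n)) (f n (s n (ω n))) o = f n (ω n) o ∧
        act (J n (ω n)) (f n (s n (ω n))) τ = f n (ω n) τ := fun ω a => by
    have r1 := (hr a).1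
    obtain ⟨q1, q2⟩ := rep_ev TT a
    have s1 : ∀ᶠ n in UF, s n (ω n) ∈ (P n).S := (hr q1).1
    have tG : ∀ᶠ n in UF, IsUnit (G n (ω n)).det ∧
        f n (r n (ω n)) = act (G n (ω n)) (f n (s n (ω n))) := tS r1 s1
    have b0 := zero_add (0 : ℝ) ▸ (ds s1).1.bs hM (ds r1).1
    have b1 : BS M 0 (rx M kk (-(R * X))) fun n => G n (ω n) := by
      refine (BS.sc (la := kk) (y := fun n => -(-(R * X * M n))) ((bg fun n => N n (ω n)).mul0 hM
        (bg fun n => N n (rep (P n) (TT n) (fun _ => True) (ω n))).inv) fun p n => by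
          unfold rx; ring).congr ?_
      filter_upwards [(ds s1).1.inj, tG, q2] with n i j l
      refine i _ _ (j.2.symm.trans ?_)
      have e1 := (hg (N n (rep (P n) (TT n) (fun _ => True) (ω n)))).2
      rw [← nz_neg (la := kk) (-(R * X * M n)) (f n (s n (ω n))), ← act_nz]
      refine (nz_neg _ _).symm.trans (congrArg _ ((hg (N n (ω n))).2.trans ?_))
      exact ((congrArg _ e1).trans ((act_div (hg _).1.1 _ _).trans (congrArg _ l))).symm
    obtain ⟨η, h1, h2, h3⟩ := un_sq hM b1.zero (by have := wd_nn kk; positivity) b0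
      (fun p q i => (near p q i).2.of_sub (.of_forall fun n => by linarith))
      fun p q i c => zero_add c ▸ b0.ent ((far p q i).le c)
    have e1 : ∀ᶠ n in UF, J n (ω n) = d n (ω n) * k n (ω n) * (1 - η n) * G n (ω n) := by
      filter_upwards [h3, b1.det, h2.det] with n i j l
      rw [Matrix.mul_assoc _ (1 - η n), ← Matrix.nonsing_inv_mul_cancel_left _ ((1 - η n) * _) l,
        ← Matrix.mul_assoc (blk _ _), ← i.2.2, Matrix.nonsing_inv_mul_cancel_right _ _ j,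
        ← Matrix.mul_assoc]
    refine ⟨fun n => k n (ω n) * η n * (k n (ω n))⁻¹, fun c => ?_, h2,
      ((((h2.bl (h3.mono fun n i => ⟨bl_blk _ _, i.2.1⟩) fun p q i => Le.of_le fun n => by
        simp [rx, i]).mul0 hM (bk a)).mul0 hM (bs_near hM h1 fun p q => rx_sp kk _ q p)).mul0 hM
        b1).congr e1, ?_⟩
    · have := ((bk a).zero.b0.mul hM (h1 (c - 2 * (0 + 2 * wd kk * |-(R * X)|)))).mul hM
        (bk a).inv.zero.b0
      exact this.up (by linarith)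
    filter_upwards [s1, r1, a, (hr a).2, up, tk a, tG, (ds r1).1.inj, (ds r1).1.li,
      (ds s1).1.li, h3, h2.det, e1, eo] with n s1 r1 a r2 up t1 t2 i1 l1 l2 h3 u e1 eo
    obtain ⟨k', k1, -, k3⟩ := up _ a _ r1 r2
    have k4 : Uni kk (k n (ω n)) := i1 _ _ (k3.symm.trans t1.2) ▸ k1
    have w : ∀ a ∈ (P n).S, ∀ b ∈ (P n).S, LinearIndependent ℝ (f n b) →
        f n a = act (tr (f n a) (f n b)) (f n b) → Rw o τ (tr (f n a) (f n b)) := fun a i b j l z =>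
      rw_of l (by rw [← z, (eo _ i).1, (eo _ j).1]) (c := c n * (pt n b tt - pt n a tt)) (by
        rw [← z, (eo _ i).2, (eo _ j).2, (eo _ j).1]; module)
    have w1 : Rw o τ (k n (ω n)) := w _ a _ r1 l1 t1.2
    have w2 : Rw o τ (G n (ω n)) := w _ r1 _ s1 l2 t2.2
    obtain ⟨w3, w4⟩ := w2.un (ko τ ne) h3.1
    have w5 := w3.1.inv ne u
    have z : f n (ω n) = act (k n (ω n) * G n (ω n)) (f n (s n (ω n))) := by
      rw [act_mul, ← t2.2, ← t1.2]
    refine ⟨s1, (uni_conj u (bl_blk _ _) h3.2.1 (fun _ _ => id) k4).mul uni_un,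
      ((w3.1.mul w1 ne).mul w5 ne).mul ⟨fun q => (w4 q).1.trans (w2.1 q),
        fun q i => (w4 q).2.trans (w2.2 q i)⟩ ne, h3.2.1, w3, ?_, ?_, ?_⟩
    · rw [e1, z, ← act_mul, mul_sub, mul_sub, sub_mul, sub_mul]
      simp only [Matrix.mul_assoc, mul_one, Matrix.nonsing_inv_mul_cancel_left _ _ t1.1]
    · rw [z]
      exact act_congr (fun q => (((w3.1.mul w1 ne).mul w5 ne).mo _ q).trans (by
        rw [w1.mo, (w4 q).1])) _
    · rw [z]
      refine act_congr (fun q => (((w3.1.mul w1 ne).mul w5 ne).mt ne _ q).trans ?_) _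
      rw [w1.mt ne, (w4 q).1, (w4 q).2, (w3.1.mul w1 ne).mt ne,
        w3.1.mt ne, w3.2, w5.1, h3.2.1 τ o (ko τ ne).ne']
      simp
  have ii : ∀ᶠ n in UF, ∀ ω ∈ (P n).S, (J n ω)⁻¹⁻¹ = J n ω := ev_of fun ω a =>
    (key ω a).elim fun _ i => i.2.2.1.det.mono fun _ => Matrix.nonsing_inv_nonsing_inv _
  have inc : ∀ᶠ n in UF, ∀ ω ∈ (P n).S, ∀ v ∈ (P n).S, O (-X) n v = O (-X) n ω → ∀ k,
      f n ω = act k (f n v) → (J n ω)⁻¹⁻¹ * (J n v)⁻¹ = d n ω * k * (d n ω)⁻¹ :=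
    ev_of2 fun ω v a b i => by
    obtain ⟨_, -, h2, -⟩ := key ω a
    filter_upwards [a, ii, i, tk a, tk b, (ds (hr a).1).1.inj, h2.det]
      with n a ii i t1 t2 l u k' z
    have e1 : r n (v n) = r n (ω n) := rep_congr i
    have e2 : s n (v n) = s n (ω n) := congrArg (r n) (rep_congr (by simp only [TT, N, e1]))
    have e3 : G n (v n) = G n (ω n) := by simp only [G, e1, e2]
    have e4 : k n (ω n) = k' * k n (v n) := l _ _ (t1.2.symm.trans (by
      rw [act_mul, z]; exact congrArg _ (t2.2.trans (congrArg _ (congrArg _ e1)))))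
    rw [ii _ a]
    simp only [J, d, e3, e4, Matrix.mul_inv_rev, Matrix.mul_assoc,
      Matrix.mul_nonsing_inv_cancel_left _ _ uni_un.det, Matrix.nonsing_inv_mul_cancel_left _ _ u,
      Matrix.nonsing_inv_nonsing_inv _ u, Matrix.mul_nonsing_inv_cancel_left _ _ t2.1]
  have bl : ∀ {ω : ∀ n, Ω n}, (∀ᶠ n in UF, ω n ∈ (P n).S) → ∀ x : ℝ,
      BS M 0 (rx M la x) fun n => d n (ω n) := fun a x => (key _ a).elim fun _ i =>
    i.2.1.bl (i.2.2.2.mono fun n i => ⟨bl_blk _ _, i.2.2.2.1⟩) fun p q i => Le.of_le fun n => by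
      simp [rx, (near p q i).1]
  have ev0 : ∀ ω : ∀ n, Ω n, (∀ᶠ n in UF, ω n ∈ (P n).S) → ∀ c, B1 M c fun n => Matrix.of
      fun q _ : Fin m => pt n (ω n) (act (J n (ω n)) (f n (s n (ω n))) q) - (1 : Mt (Fin m)) q o :=
    fun ω a c => by
    obtain ⟨η, h1, h2, -, h4⟩ := key ω a
    have := ((h2.mul0 hM (bs_near (r := fun _ _ => 0) hM h1 fun _ _ => le0 Le.rfl)).b0.mul hM
      (b1_dl (g := fun n => Matrix.of fun q _ : Fin m => pt n (ω n) (f n (ω n) q) -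
        (1 : Mt (Fin m)) q o) (fun K => ((ev K).and a).mono fun n i p _ => i.1 _ i.2 p) c)).add hM
      (h2.b0.mul hM (h1 c)).neg
    refine zero_add c ▸ Sq.imp this (h4.mono fun n i L j p _ => le_of_eq_of_le (congrArg _ ?_) (j p o))
    have z : d n (ω n) p o = (1 : Mt (Fin m)) p o := by
      by_cases y : p = o
      · rw [y]; exact i.2.2.2.2.1.1.1 o
      · rw [Matrix.one_apply_ne y]; exact bl_blk _ _ p o (ko p y).ne'
    beta_reduce
    rw [Matrix.add_apply, ← pt_act, Matrix.of_apply, i.2.2.2.2.2.1, ← z, mul_sub, mul_one]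
    simp only [Matrix.sub_apply, Matrix.neg_apply]
    ring
  have fT : FnE P TT (O (-X)) := .of_forall fun n a _ b _ i => by
    simp only [TT, N, show r n a = r n b from rep_congr i]
  have fs : FnE P s TT := .of_forall fun n a _ b _ i => congrArg (r n) (rep_congr i)
  have kv := fun (ω : ∀ n, Ω n) a => (key ω a).choose_spec.2.2.2
  refine ⟨TT, fun n ω => f n (s n ω), fun n ω => pt n (s n ω) tt, fun n ω => (J n ω)⁻¹, d,
    ⟨ko, lo, rfl, fT, fun x i => ?_, fs.mono fun n i a u b v j => by simp only [i a u b v j],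
      ev_of fun ω a => ((kv ω a).and eo).mono fun n i => i.2 _ i.1.1,
      ev_of fun ω a => (kv ω a).mono fun n i => i.2.1.inv,
      ev_of fun ω a => (kv ω a).mono fun n i => (i.2.2.1.inv ne i.2.1.det).2,
      su_of fun ω a => (key ω a).elim fun _ i => i.2.2.1.inv.imp (.of_forall fun n L j => by
        convert j using 3; unfold rx; ring), fr_of fun ω a => ?_, ?_,
      fun x i => nest _ _ i.exists.choose_spec, fun x i => su_of2 fun ω v a b j => ?_,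
      fun K => ev_of fun ω a => ((B1.dl (ev0 ω a) K).and (a.and ii)).mono fun n i p => by
        rw [i.2.2 _ i.2.1]; exact i.1 p p, fun K => ev_of fun ω a => ?_⟩,
    ⟨(fT.and fs).mono fun n i a u b v j => by
      simp only [d, G, show r n a = r n b from rep_congr j, i.2 a u b v (i.1 a u b v j)],
    ev_of fun ω a => (kv ω a).mono fun n i => ⟨bl_blk _ _, fun q => ⟨i.2.2.2.2.1.1.1 q, ?_⟩⟩,
    su_of fun ω a => (key ω a).elim fun _ i => bs0.1 i.2.1, inc,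
    ev_of fun ω a => ((kv ω a).and (a.and ii)).mono fun n i => by
      rw [i.2.2 _ i.2.1]; exact i.1.2.2.2.2.2.2, fun K => ev_of fun ω a => ?_⟩⟩
  · obtain ⟨Γ, g1, g2⟩ := su_of2 (P := P) (M := M) (R := fun n ω v => ν x n v = ν x n ω)
      (s := fun n ω v L => ∃ g, B2 (fun _ => 1) L g ∧ TT n v = act g (TT n ω)) fun ω v a b j => by
      refine (bs0.1 (((bg fun n => N n (v n)).inv.mul0 hM (BS.sc (la := kk)
        (y := fun n => -(R * X * M n)) (((bk b).inv.mul0 hM (same x i.exists.choose_spec b a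
          (j.mono fun _ => .symm))).mul0 hM (bk a)) fun p n => by unfold rx; ring)).mul0 hM
        (bg fun n => N n (ω n)))).imp ?_
      filter_upwards [tk a, tk b, tS b a] with n t1 t2 t3 L l
      refine ⟨_, l, ?_⟩
      rw [act_mul, ← (hg _).2, act_mul, ← act_nz, act_mul, ← t1.2, act_mul, ← t3.2]
      refine (act_inv (hg _).1.1 _).symm.trans (congrArg _ ((hg _).2.symm.trans (congrArg (nz kk _) ?_)))
      exact (act_inv t2.1 _).symm.trans (congrArg _ t2.2.symm)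
    refine ⟨_, ((g1.pow 2).const_mul hM (C := 4 * (m + 1) ^ 2 + 2)
      (by nlinarith [sq_nonneg ((m : ℝ) + 1)])).pow (m * m), g2.mono fun n j ω a => ?_⟩
    exact (cnt (TT n ω) (g1.1 n)).imp fun U l => ⟨l.1, fun v b z =>
      (j ω a v b z).elim fun g y => l.2 _ g y.1 y.2⟩
  · obtain ⟨η, h1, h2, h3, h4⟩ := key ω a
    have e1 := (a.and ii).mono fun n i => congrArg (act · (f n (s n (ω n)))) (i.2 _ i.1)
    exact ⟨(zero_add (0 : ℝ) ▸ (ds (h4.mono fun _ i => i.1)).1.act hM (h3.far far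
      (h4.mono fun _ i => i.2.1))).congr (.of_forall fun _ => rfl) e1,
      fun x => (zero_add (0 : ℝ) ▸ ((ds a).2 x).act hM ((bl a x).mul0 hM (bs_near hM h1 fun p q =>
        rx_sp la x q p))).congr (.of_forall fun _ => rfl)
        ((e1.and h4).mono fun _ i => i.1.trans i.2.2.2.2.2.2.1)⟩
  · filter_upwards [up, inc, ev_of (p := fun n ω => IsUnit (d n ω).det ∧ Bl kk (d n ω)⁻¹) fun ω a =>
      (bl a 0).det.and ((kv ω a).mono fun _ i => i.2.2.2.1)] with n i j l ω a v b z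
    obtain ⟨k, -, k2, k3⟩ := i ω a v b z
    rw [j ω a v b z k k3]
    exact uni_conj (l ω a).1 (bl_blk _ _) (l ω a).2 (fun p q y => (near p q y).1) k2
  · refine (((bl a x).mul0 hM (bx x a b (fn_ev (fn x) a b j))).mul0 hM (bl a x).inv).imp ?_
    filter_upwards [inc, a, b, fn_ev (nest _ _ i.exists.choose_spec) a b j, tS a b]
      with n i a b j t L l
    rw [i _ a _ b j _ t.2]
    exact l.2.1
  · obtain ⟨_, -, -, h3, -⟩ := key ω a
    filter_upwards [B1.dl (fun c => add_sub_cancel _ c ▸ h3.inv.zero.b0.mul hM (ev0 ω a _)) K,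
      h3.det] with n i j p
    refine le_of_eq_of_le (congrArg _ ?_) (i p o)
    rw [← pt_act, act_inv j]
  · by_cases y : q = o
    · rw [y, i.2.2.2.2.1.2, Matrix.one_apply_ne ne]
    · exact i.2.2.2.2.1.1.2 q y
  · obtain ⟨η, h1, h2, -, h4⟩ := key ω a
    filter_upwards [B1.dl (fun c => zero_add c ▸ (h2.b0.mul hM (h1 c)).neg) K, h4, a, ii]
      with n i j a ii
    exact ⟨_, i, by rw [ii _ a, j.2.2.2.2.2.1, mul_sub, mul_one, sub_eq_add_neg]⟩

theorem sTT : STT := by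
  intro V _ _ m Ω Λ P M B ν pr lv T kk la O one tt pt c o τ f h
  obtain ⟨δ, d0, hd⟩ := N2.ex_pos (fun a : {a : Fin m × Fin m // kk a.2 < kk a.1} =>
    kk a.1.1 - kk a.1.2) fun a => sub_pos.2 a.2
  have hM := h.big
  have w0 := wd_nn la
  refine ⟨2 * wd la / δ, fun X i => tt0 hM h.hB h.hν (fun a b j => ⟨(h.near a b j).1,
    (h.near a b j).2.mono (.of_forall fun n => by rw [(h.near a b j).1]; linarith)⟩) h.far h.ko h.lo
    (fun z : τ = o => h.lτ.ne' (z ▸ h.lo)) h.nest h.fn (fr_of fun ω a => ⟨(Su.ds (ν := fun _ _ => B) h.dB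
      (.of_forall fun _ _ _ => h.hB) h.sp a).nz fun _ _ => rfl, fun x => ?_⟩)
    (h.eo.mono fun n j ω a => ⟨by simp [nz, h.lo, (j ω a).1], by rw [nz, (j ω a).2, smul_smul]⟩)
    (fun K => (h.ev 0 ⌈K⌉₊).mono fun n j ω a p => le_trans (le_of_eq ?_) ((j ω a p).trans
      (G39.dl_anti M (Nat.le_ceil K) n))) (fun p q j => ?_) X
    ((h.up _ i).mono fun n j ω a v b z => (j ω a v b z).elim fun k l =>
      ⟨_, uni_sc _ l.1, uni_sc _ l.2.1, by rw [← act_nz, ← l.2.2]⟩)⟩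
  · have l : ∀ a : ℝ, Le M (fun n => a * (lv x n - lv 0 n)) fun n => a * (x * M n) := fun a => by
      rcases le_total 0 a with j | j
      · exact (h.lev x).1.smul j
      · exact ((h.lev x).2.smul (neg_nonneg.2 j)).of_sub (.of_forall fun n => by linarith)
    exact zero_add (0 : ℝ) ▸ ((Su.ds (r := fun a n => -(la a * lv x n)) (h.dg x) (h.hν x) h.sp a).nz
      (la := la) (y := lv 0) fun _ _ => rfl).len hM
      (fun p => (l (la p)).of_sub (.of_forall fun n => by unfold rx; linarith))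
      fun p => (l (-la p)).of_sub (.of_forall fun n => by unfold rx; linarith)
  · rw [← abs_exp, ← abs_mul, nz, map_smul, smul_eq_mul, sub_mul, mul_comm]
    by_cases y : p = o <;> simp [y, h.lo]
  · rw [div_mul_eq_mul_div, le_div_iff₀ d0]
    exact mul_le_mul_of_nonneg_left (hd ⟨(p, q), j⟩) (by positivity)

/-- The level of the common label goes to minus infinity. -/
theorem mod_diag {s : ℝ} {TT e : ℕ → ∀ n, Ω n → Fin m → V} {t₀ : ℕ → ∀ n, Ω n → ℝ}
    {j : ℕ → ∀ n, Ω n → Mt (Fin m)} (h : ∀ X, Mod P M B ν T kk la O one tt pt c s o τ R (fun _ => X)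
      (TT X) (e X) (t₀ X) (j X)) : ∃ X : ℕ → ℕ, Big X ∧ Mod P M B ν T kk la O one tt pt c s o τ R X
      (fun n => TT (X n) n) (fun n => e (X n) n) (fun n => t₀ (X n) n) fun n => j (X n) n := by
  have su := fun q : ℕ → ∀ n, Ω n → ℝ → Prop =>
    cf_sub (S := fun _ => ℕ) (fun n _ => M n) fun n X Γ => ∀ ω ∈ (P n).S, q X n ω Γ
  have al := fun q : ℕ → ∀ n, Ω n → Prop =>
    cf_ev (S := fun _ => ℕ) fun n X => ∀ ω ∈ (P n).S, q X n ω
  obtain ⟨X, a, z⟩ := cf_diag (fun i : ℕ =>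
    (cf_ev (S := fun _ => ℕ) fun n X => Fn (P n) (TT X n) (O (-X) n) ∧
      Fn (P n) (fun ω => (e X n ω, t₀ X n ω)) (TT X n)).and
    ((al fun X n ω => (e X n ω o = one ∧ e X n ω τ = c n • (tt - t₀ X n ω • one)) ∧
      Uni kk (j X n ω) ∧ (∀ q, q ≠ o → j X n ω τ q = (1 : Mt (Fin m)) τ q) ∧
      Sp (act (j X n ω)⁻¹ (e X n ω)) ∧
      ∀ v ∈ (P n).S, O (-X) n v = O (-X) n ω → Uni la ((j X n ω)⁻¹ * j X n v)).and
    ((su fun X n ω Γ => B2 (fun a => exp (R * X * kk a * M n)) Γ (j X n ω)).and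
    ((su fun X n ω Γ => Dg B (act (j X n ω)⁻¹ (e X n ω)) (fun a => exp (T a n)) Γ).and
    ((cf_all fun x : ℚ => su fun X n ω Γ =>
      Dg (ν x n ω) (act (j X n ω)⁻¹ (e X n ω)) (fun a => dl M (la a * x) n) Γ).and
    ((cf_all fun K : ℕ => (al fun X n ω => ∀ p,
      |pt n ω (act (j X n ω)⁻¹ (e X n ω) p) - (1 : Mt (Fin m)) p o| ≤ dl M K n).and
      (al fun X n ω => ∀ p, |pt n ω (e X n ω p) - j X n ω p o| ≤ dl M K n)).and
    (cf_all fun x : ℚ => cf_all fun _ : |x| ≤ i => (su fun X n ω Γ => ∃ U : Finset (Fin m → V),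
      (U.card : ℝ) ≤ Γ ∧ ∀ v ∈ (P n).S, ν x n v = ν x n ω → TT X n v ∈ U).and
      ((cf_ev (S := fun _ => ℕ) fun n X => Fn (P n) (O (-X) n) (O x n)).and (su fun X n ω Γ => ∀ v ∈ (P n).S,
        O x n v = O x n ω → Bd (fun a => dl M (la a * x) n) Γ ((j X n ω)⁻¹ * j X n v))))))))))
    (fun k _ => k) fun k i a => ⟨(h k).ft.and (h k).fe, by
      filter_upwards [(h k).eo, (h k).uj, (h k).row, (h k).fr.sp, (h k).up] with n h1 h2 h3 h4 h5 ω b
        using ⟨h1 ω b, h2 ω b, h3 ω b, h4 ω b, h5 ω b⟩, (h k).bj, (h k).fr.dB, (h k).fr.dg,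
      fun K => ⟨(h k).ev₀ K, (h k).ev K⟩, fun x b =>
      have d : |x| ≤ k := b.trans (by exact_mod_cast a)
      ⟨(h k).few x (.of_forall fun _ => d), (h k).nb x (.of_forall fun _ => (abs_le.1 d).1),
        (h k).inc x (.of_forall fun _ => (abs_le.1 d).1)⟩⟩
  obtain ⟨h1, h2, h3, h4, h5, h6, -⟩ := z 0
  have h7 := fun x : ℚ => (z ⌈|x|⌉₊).2.2.2.2.2.2 x (Nat.le_ceil _)
  have up := fun K n => G39.dl_anti M (Nat.le_ceil K) n
  exact ⟨X, a, (h 0).ko, (h 0).lo, (h 0).lτ, h1.mono fun _ i => i.1, fun x _ => (h7 x).1,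
    h1.mono fun _ i => i.2, h2.mono fun _ i ω b => (i ω b).1, h2.mono fun _ i ω b => (i ω b).2.1,
    h2.mono fun _ i ω b => (i ω b).2.2.1, h3, ⟨h2.mono fun _ i ω b => (i ω b).2.2.2.1, h4, h5⟩,
    h2.mono fun _ i ω b => (i ω b).2.2.2.2, fun x _ => (h7 x).2.1, fun x _ => (h7 x).2.2,
    fun K => (h6 ⌈K⌉₊).1.mono fun n i ω b p => (i ω b p).trans (up K n),
    fun K => (h6 ⌈K⌉₊).2.mono fun n i ω b p => (i ω b p).trans (up K n)⟩

theorem sMod : SMod := by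
  intro V _ _ m Ω Λ P M B ν T kk la Ga O one tt pt dr c s h k
  obtain ⟨o, τ, f, rfl, F⟩ := sF0 V m Ω Λ P M B ν T kk la Ga O one tt pt dr c s h k
  obtain ⟨R, H⟩ := sTT V m Ω Λ P M B ν _ _ T kk la O one tt pt c o τ f F
  have H' : ∀ X : ℕ, ∃ TT e t₀ j,
      Mod P M B ν T kk la O one tt pt c (la τ) o τ R (fun _ => X) TT e t₀ j := fun X => by
    obtain ⟨TT, e, t₀, j, -, a, -⟩ := H X trivial
    exact ⟨TT, e, t₀, j, by simpa using a⟩
  refine ⟨o, τ, R, H', ?_⟩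
  choose TT e t₀ j a using H'
  exact (mod_diag a).imp fun X b => ⟨_, _, _, _, b⟩

end Pool.Agent.MP_5168f5_an.QA.Fr
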