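import Pool.Agent.MP_5168f5_an.QA.P5Defs

/-! The maximal estimate in all dimensions: minimal members carry no deep cap. -/

namespace Pool.Agent.MP_5168f5_an.QA.P5

open H19 H17S H17F R4 AN Filter
open N2 (El)

variable {N D m : ℕ} {π : Pa m}

/-- The base data do not change. -/
theorem bd_sub (Y : Bs N D π) (P : FP Y.X.Ω) (u : ℕ) (lv : ℚ → ℕ) (S : ℚ → Y.X.Ω → Dc N D)
    (s : ℕ → ℝ) (j : ℝ) (h : S 0 = Y.X.S 0) : (Y.sub P u lv S s j).bd = Y.bd := by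
  simp only [Bs.bd, h]
  rfl

/-- A filtration over a member of the class of the increments is a member of the class of the
filtrations. -/
theorem unp {Y : ℕ → Bs N D π} {X : ∀ n, PA.Pr (El π.la) (Y n).X.Ω (Ln N × ℤ)}
    {P : ∀ n, FP (Y n).X.Ω} {u : ℕ → ℕ} {lv : ℕ → ℚ → ℕ} {S : ∀ n, ℚ → (Y n).X.Ω → Dc N D}
    {s : ℕ → ℕ → ℝ} {j : ℕ → ℝ} {μ : π.κ → ℝ} {γ : π.κ → ℕ}
    {d : ∀ n, Fl.Fd (Fin m) π.κ (El π.la) (Y n).X.Ω}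
    (h : M4 fun n => (Y n).sub (P n) (u n) (lv n) (S n) (s n) (j n))
    (h0 : ∀ n, S n 0 = (Y n).X.S 0)
    (e : ∀ᶠ n in UF, X n = ((Y n).sub (P n) (u n) (lv n) (S n) (s n) (j n)).pr)
    (f : Fl.FL π.σ (fun n => (Y n).bd) μ γ X d) :
    M5 μ γ fun n => (⟨(Y n).sub (P n) (u n) (lv n) (S n) (s n) (j n), d n⟩ : Mb N D π) := by
  refine ⟨h, fun c hc T => ?_⟩
  filter_upwards [f c hc T, e] with n a b
  have k := bd_sub (Y n) (P n) (u n) (lv n) (S n) (s n) (j n) (h0 n)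
  simp only [PA.sM] at a ⊢
  rw [b, ← k] at a
  exact a

/-- Minimal weights stay minimal in the class of the increments. -/
theorem mn_of {Y : ℕ → Bs N D π} {K : (∀ n, PA.Pr (El π.la) (Y n).X.Ω (Ln N × ℤ)) → Prop}
    {Hs : Finset ℝ} {μ : π.κ → ℝ} (h : Mn N D Hs μ)
    (hK : ∀ X, K X → ∃ (P : ∀ n, FP (Y n).X.Ω) (u : ℕ → ℕ) (lv : ℕ → ℚ → ℕ)
      (S : ∀ n, ℚ → (Y n).X.Ω → Dc N D) (s : ℕ → ℕ → ℝ) (j : ℕ → ℝ),
      M4 (fun n => (Y n).sub (P n) (u n) (lv n) (S n) (s n) (j n)) ∧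
      (∀ n, S n 0 = (Y n).X.S 0) ∧
      ∀ᶠ n in UF, X n = ((Y n).sub (P n) (u n) (lv n) (S n) (s n) (j n)).pr) :
    Fl.Mn π.σ (fun n => (Y n).bd) K Hs μ := by
  refine ⟨h.1, fun μ' γ X d a b => ?_⟩
  obtain ⟨P, u, lv, S, s, j, p, q, r⟩ := hK X b.k
  exact h.2 μ' γ _ a (unp p q r b.fl)

theorem sAcw_of (hB : SBr) (hF : SBF) (hA : Fl.SAcw) : SAcw := by
  intro N D m π Hs W μ γ Z ok mn h
  obtain ⟨K, cz, k0, hK⟩ := hB N D m π _ h.m4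
  exact hA _ _ _ _ _ _ _ _ π.σ _ K Hs W μ γ _ _ ok cz (mn_of mn hK) ⟨k0, hF N D m π _ h.m4, h.fl⟩

end Pool.Agent.MP_5168f5_an.QA.P5
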