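import Pool.Agent.MP_5168f5_an.QA.AbL1
import Pool.Agent.MP_5168f5_an.QA.FrAlg

/-! The frame of a pattern of elementary matrices. -/

namespace Pool.Agent.MP_5168f5_an.QA.Br

open H19 H17S H17F R4 AN Filter Finset IsNilpotent
open GA (Mt vec ex cm IsFr)
open N2 (Uni Bd El eB eW tri rk mem_F0 rk_lt)
open AB (pF)

variable {m : ℕ}

section Gen

variable (Q : Fin m × Fin m → Prop)

/-- The elementary matrices of a pattern. -/
def sB (a : Subtype Q) : Mt (Fin m) := Matrix.single a.1.1 a.1.2 1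

/-- The entries in the pattern. -/
def en (u : Mt (Fin m)) (a : Subtype Q) : ℝ := u a.1.1 a.1.2

variable {Q}

theorem sB_out (a : Subtype Q) {p q : Fin m} (h : ¬Q (p, q)) : sB Q a p q = 0 := by
  rw [sB, Matrix.single_apply_of_ne]
  exact fun k => h (k.1 ▸ k.2 ▸ a.2)

variable [Fintype (Subtype Q)]

theorem vec_in (t : Subtype Q → ℝ) (a : Subtype Q) : vec (sB Q) t a.1.1 a.1.2 = t a := by
  rw [vec, Matrix.sum_apply, sum_eq_single a (fun b _ h => ?_) (by simp)]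
  · simp [sB]
  · rw [Matrix.smul_apply, sB, Matrix.single_apply_of_ne, smul_zero]
    exact fun k => h (Subtype.ext (Prod.ext k.1 k.2))

theorem vec_out (t : Subtype Q → ℝ) {p q : Fin m} (h : ¬Q (p, q)) : vec (sB Q) t p q = 0 := by
  rw [vec, Matrix.sum_apply]
  exact sum_eq_zero fun b _ => by rw [Matrix.smul_apply, sB_out b h, smul_zero]

theorem vec_en {u : Mt (Fin m)} (h : ∀ p q, ¬Q (p, q) → u p q = 0) : vec (sB Q) (en Q u) = u := by
  ext p q
  by_cases e : Q (p, q)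
  · exact vec_in _ ⟨(p, q), e⟩
  · rw [h p q e, vec_out _ e]

end Gen

variable (kk : Fin m → ℝ) (o τ : Fin m)

/-- The pattern: lower for the clusters, and the row `τ` meets only the column `o`. -/
def PQ (a : Fin m × Fin m) : Prop := kk a.2 < kk a.1 ∧ (a.1 = τ → a.2 = o)

variable {kk o τ} (ko : ∀ a, a ≠ o → kk o < kk a)

theorem mem_pF {u : Mt (Fin m)} : u ∈ (pF τ ko).F 0 ↔ ∀ p q, ¬PQ kk o τ (p, q) → u p q = 0 :=
  ⟨fun h p q k => by
    by_cases c : kk q < kk p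
    · obtain ⟨c1, c2⟩ := Classical.not_imp.1 fun d => k ⟨c, d⟩
      exact (show p = τ from c1) ▸ h.2 _ c2
    · exact mem_F0.1 h.1 _ _ c,
  fun h => ⟨mem_F0.2 fun p q k => h p q fun d => k d.1, fun q k => h τ q fun d => k (d.2 rfl)⟩⟩

theorem sB_mem (a : Subtype (PQ kk o τ)) : sB _ a ∈ (pF τ ko).F 0 :=
  (mem_pF ko).2 fun _ _ => sB_out a

omit ko in
theorem sB_ne {Q : Fin m × Fin m → Prop} {a : Subtype Q} {p q : Fin m} (h : sB Q a p q ≠ 0) :
    a.1.1 = p ∧ a.1.2 = q := by_contra fun k => h (Matrix.single_apply_of_ne _ _ _ _ _ k)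

omit ko in
theorem mul_ne {Q : Fin m × Fin m → Prop} {a b e : Subtype Q} (h : en Q (sB Q a * sB Q b) e ≠ 0) :
    a.1.1 = e.1.1 ∧ a.1.2 = b.1.1 ∧ b.1.2 = e.1.2 := by
  rw [en, Matrix.mul_apply] at h
  obtain ⟨r, _, k⟩ := exists_ne_zero_of_sum_ne_zero h
  have k1 := sB_ne (left_ne_zero_of_mul k)
  have k2 := sB_ne (right_ne_zero_of_mul k)
  exact ⟨k1.1, k1.2.trans k2.1.symm, k2.2⟩

include ko in
/-- Weights that are multiples of the differences of the ranks, except in the row `τ`. -/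
theorem wt_gr {w : Subtype (PQ kk o τ) → ℝ} {R s : ℝ} (hs : s ≤ R) (h0 : 0 ≤ R)
    (h1 : ∀ a, a.1.1 = τ → w a = s)
    (h2 : ∀ a, a.1.1 ≠ τ → w a = R * ((rk kk a.1.1 : ℝ) - rk kk a.1.2))
    {a b e : Subtype (PQ kk o τ)} (h : en _ (cm (sB _ a) (sB _ b)) e ≠ 0) : w a + w b ≤ w e := by
  have k : ∀ {a b : Subtype (PQ kk o τ)}, en _ (sB _ a * sB _ b) e ≠ 0 → w a + w b ≤ w e :=
    fun {a b} h => by
    obtain ⟨e1, e2, e3⟩ := mul_ne h
    have n : a.1.1 ≠ τ := fun c => by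
      have := b.2.1
      rw [← e2, a.2.2 c] at this
      by_cases z : b.1.2 = o
      · exact lt_irrefl _ (z ▸ this)
      · exact lt_asymm this (ko _ z)
    rw [h2 a n, h2 e (e1 ▸ n), ← e1, ← e3, e2]
    by_cases c : b.1.1 = τ
    · have : (rk kk b.1.2 : ℝ) + 1 ≤ rk kk b.1.1 := by exact_mod_cast rk_lt.2 b.2.1
      rw [h1 b c]
      nlinarith
    · rw [h2 b c]; linarith
  by_cases c : en _ (sB _ a * sB _ b) e = 0
  · rw [add_comm]
    refine k fun d => h ?_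
    simp only [en, cm, Matrix.sub_apply] at c d ⊢
    rw [c, d, sub_zero]
  · exact k c

variable [Fintype (Subtype (PQ kk o τ))]

theorem vec_mem (t : Subtype (PQ kk o τ) → ℝ) : vec (sB _) t ∈ (pF τ ko).F 0 :=
  (mem_pF ko).2 fun _ _ => vec_out t

include ko in
/-- The elementary matrices of the pattern are a frame. -/
theorem isFr : IsFr (tri kk) (sB (PQ kk o τ)) fun a b => en _ (cm (sB _ a) (sB _ b)) :=
  ⟨fun t => (vec_mem ko t).1, fun t h => funext fun a => by rw [← vec_in t a, h]; rfl, fun a b =>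
    (vec_en ((mem_pF ko).1 (sub_mem
      ((pF τ ko).anti 0 ((pF τ ko).mul_l 0 _ _ (sB_mem ko a) (sB_mem ko b)))
      ((pF τ ko).anti 0 ((pF τ ko).mul_l 0 _ _ (sB_mem ko b) (sB_mem ko a)))))).symm⟩

omit ko in
theorem vec_pat {la : Fin m → ℝ} {t : El la → ℝ} (h : t ∈ AB.pat kk la o τ) :
    vec (sB (PQ kk o τ)) (en _ (vec (eB la) t)) = vec (eB la) t :=
  vec_en fun p q c => (AB.vec_or t p q).elim id fun ⟨_, e⟩ => e.trans (h _ c)

omit ko [Fintype (Subtype (PQ kk o τ))] in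
/-- Bounded quotients have bounded logarithms. -/
theorem near (m : ℕ) : ∃ (C : ℝ) (e : ℕ), 1 ≤ C ∧ ∀ (kk : Fin m → ℝ) (o τ : Fin m)
    [Fintype (Subtype (PQ kk o τ))] (j j' : Mt (Fin m)) (L : ℝ), (∀ a, a ≠ o → kk o < kk a) →
    1 ≤ L → Uni kk j → Uni kk j' → (∀ q, q ≠ o → j τ q = (1 : Mt (Fin m)) τ q) →
    (∀ q, q ≠ o → j' τ q = (1 : Mt (Fin m)) τ q) → Bd 1 L (j⁻¹ * j') →
    GA.Nr (sB (PQ kk o τ)) 1 (C * L ^ e) j j' := by
  obtain ⟨C, e, hC, h⟩ := AB.lg_box m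
  refine ⟨C, e, hC, fun kk o τ _ j j' L ko hL a a' b b' d => ?_⟩
  have u := a.inv.mul a'
  obtain ⟨k1, k2⟩ := AB.pair ko a a' b b' u
  refine ⟨en _ (vec (eB kk) (GA.lg (eB kk) j j')), fun p => ?_, by rw [ex, vec_pat k2]; exact k1⟩
  have := h kk kk 1 j j' L hL (fun _ => one_pos) a u d ⟨p.1, p.2.1⟩
  rw [← N2.vec_eB (GA.lg _ _ _) ⟨p.1, p.2.1⟩] at this
  simpa [en] using this

end Pool.Agent.MP_5168f5_an.QA.Br
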