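import Pool.Agent.MP_5168f5_an.QA.P5Defs
import Pool.Agent.MP_5168f5_an.QA.FlInA

/-! The maximal estimate in all dimensions: the base facts of the filtrations. -/

namespace Pool.Agent.MP_5168f5_an.QA.P5

open H19 H17S H17F R4 AN Filter Finset
open GA (Mt vec)
open N2 (El eB eW rk)
open LC (ex_le)

theorem sBF : SBF := by
  intro N D m π Y h x x0 x1 c hc T
  let _ : Fintype (Subtype (Br.PQ π.kk π.o π.τ)) := (inferInstance : Fintype π.κ)
  have f := h.fm.toMI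
  have q := h.ts.toTq
  have l := AB.sL1 _ _ _ _ _ _ _ _ _ _ _ _ _ _ _ _ _ _ _ _ q h.one.2 h.fm
  obtain ⟨C, e, hC, nr⟩ := Br.near m
  obtain ⟨Γ, s, d⟩ := f.dg 0
  obtain ⟨Γ', s', d'⟩ := f.few 0
  have w0 : ∀ i, 0 < eW π.la i := fun i => sub_pos.2 i.2
  have w1 : ∀ i, eW π.la i ≤ ∑ i, eW π.la i := fun i =>
    single_le_sum (fun i _ => (w0 i).le) (mem_univ i)
  have w2 : 0 ≤ ∑ i, eW π.la i := sum_nonneg fun i _ => (w0 i).le
  obtain ⟨ε, hε, e1⟩ : ∃ ε : ℝ, 0 < ε ∧ (∑ i, eW π.la i + 1) * ε = c :=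
    ⟨c / (∑ i, eW π.la i + 1), by positivity, mul_div_cancel₀ _ (by positivity)⟩
  have x0' : (-1 : ℝ) ≤ x := by exact_mod_cast x0
  filter_upwards [f.uj, f.row, f.fe x, d, d', s'.2 c hc,
    (((s.mul s).pow e).const_mul q.big hC).2 c hc, l.mem, l.fn x, l.ex x, l.pat x, l.box x ε hε,
    l.inc x (T + (∑ i, eW π.la i) * (1 + ε)), q.loc x 0 ε hε, big_exp q.big π.C hc]
    with n a1 a2 a3 a4 a5 a6 a7 a8 a9 b1 b2 b3 b4 b5 b6
  have u0 : (0 : ℝ) ≤ (Y n).X.u := Nat.cast_nonneg _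
  have lb : -AB.lb (Y n).X (Y n).F x ≤ -(x : ℝ) * (Y n).X.u + ε * (Y n).X.u := by
    have := b5.lev
    rw [AB.lb, h.hb n]
    push_cast at this
    linarith
  refine ⟨fun ω hω => (Matrix.isUnit_iff_isUnit_det _).2 (a1 ω hω).det, a3,
    fun ω hω => (a5 ω hω).imp fun U k => ⟨k.1.trans a6, fun v hv z => k.2 v hv (congrArg _ z)⟩,
    fun ω hω v hv z => ?_, fun ω hω i a => ⟨((a8 ω hω i).2.2.2 _ _).1.trans b6, fun z => ?_⟩,
    fun ω hω v hv z z' => ?_, fun ω hω v hv z => ?_⟩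
  · simp only [Bs.bd, a9 ω hω v hv z]
  · refine le_of_eq_of_le (abs_eq_zero.2 (not_not.1 fun k => z.not_ge ?_)) (Real.exp_pos _).le
    have k1 := (((a8 ω hω i).2.2.2 _ _).2 k).2
    change eW π.la i ≤ π.pm a
    unfold Pa.pm
    split_ifs with y
    · rw [← k1, a.2.2 y, y, f.lo, f.lτ, sub_zero]
    · have : (rk π.kk a.1.2 : ℝ) + 1 ≤ rk π.kk a.1.1 := by exact_mod_cast N2.rk_lt.2 a.2.1
      nlinarith [w1 i, lg_pos]
  · have r : AB.rd π.la (Y n).X (Y n).F 0 = 1 := funext fun a => by simp [AB.rd, AB.lb, h.hb n]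
    have k1 := a4 ω hω
    have k2 := a4 v hv
    rw [show (Y n).X.S 0 ω = (Y n).X.S 0 v from z, r, AB.Fd.f,
      show (Y n).F.E ω = (Y n).F.E v from z', ← Fr.act_div (a1 v hv).inv.det,
      Matrix.nonsing_inv_nonsing_inv _ (a1 v hv).det] at k1
    rw [r] at k2
    have g := (zero_le_one.trans (s.1 n))
    obtain ⟨t, t1, t2⟩ := nr π.kk π.o π.τ _ _ _ f.ko ((s.mul s).1 n) (a1 ω hω) (a1 v hv) (a2 ω hω)
      (a2 v hv) (Fr.b2_dg k2 k1 g g (fun _ => one_pos) ((a1 ω hω).inv.mul (a1 v hv)).det).2.1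
    exact ⟨t, fun a => (t1 a).trans (mul_le_mul_of_nonneg_right a7 zero_le_one), t2⟩
  · have M : AB.Mt2 (Y n).X x ω ω v := ⟨hω, hv, rfl, z.symm⟩
    have k : ∀ (b : El π.la) (y r : ℝ), |Real.exp (eW π.la b * AB.lb (Y n).X (Y n).F x) * y| ≤
        Real.exp r → |y| ≤ Real.exp (r + eW π.la b * (-(x : ℝ) * (Y n).X.u + ε * (Y n).X.u)) :=
      fun b y r k => by
      rw [abs_mul, Real.abs_exp, ← le_div_iff₀' (Real.exp_pos _), ← Real.exp_sub] at k
      exact k.trans (ex_le (by nlinarith [w0 b]))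
    refine ⟨Br.en _ (vec (eB π.la) ((Y n).pr.Y ω v)), (b1 ω ω v M).trans ?_, fun a => ?_,
      fun i => (k i _ _ (b3 ω ω v M i)).trans (ex_le ?_)⟩
    · exact congrArg (fun y => _ * IsNilpotent.exp y) (Br.vec_pat (b2 ω ω v M)).symm
    · change |vec _ _ a.1.1 a.1.2 - ∑ i, _ * AB.lt _ _ i a.1.1 a.1.2| ≤ _
      by_cases y : π.la a.1.2 < π.la a.1.1
      · have v1 := fun t => N2.vec_eB (la := π.la) t ⟨a.1, y⟩
        refine (k ⟨a.1, y⟩ _ _ (le_of_eq_of_le (congrArg _ ?_) (b4 ω hω ω v M ⟨a.1, y⟩))).trans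
          (ex_le ?_)
        · rw [mul_sub, mul_sum, v1]
          refine congrArg _ (sum_congr rfl fun i _ => ?_)
          by_cases g : AB.lt π.la ((Y n).A ω) i a.1.1 a.1.2 = 0
          · rw [g, ← show _ = (Y n).A ω ⟨a.1, y⟩ i from v1 (PA.col _ i), ← AB.lt, g]; ring
          · rw [AB.co, ← (((a8 ω hω i).2.2.2 _ _).2 g).2, AB.lt, v1]
            simp only [eW, PA.col, Bs.bd, AB.pr]
            ring
        · have := mul_le_mul (w1 ⟨a.1, y⟩) (show -(x : ℝ) * (Y n).X.u + ε * (Y n).X.u ≤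
            (1 + ε) * (Y n).X.u by nlinarith) (by
              have : (x : ℝ) ≤ 0 := by exact_mod_cast x1
              nlinarith) w2
          simp only [PA.sM, AB.pr, uu] at this ⊢
          linarith
      · have v0 := fun t => N2.mem_F0.1 (N2.vec_mem (la := π.la) t) _ _ y
        simp only [AB.lt, v0, mul_zero, sum_const_zero, sub_zero, abs_zero]
        positivity
    · have := mul_le_mul_of_nonneg_right (w1 i) (mul_nonneg hε.le u0)
      change _ ≤ c * (Y n).X.u + eW π.la i * (-(x : ℝ) * (Y n).X.u)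
      rw [← e1]
      linarith

end Pool.Agent.MP_5168f5_an.QA.P5
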