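import Pool.Agent.MP_5168f5_an.QA.P5Clo
import Pool.Agent.MP_5168f5_an.AN.Cx

/-! The class of the increments. -/

namespace Pool.Agent.MP_5168f5_an.QA.P5

open H19 H17S H17F R4 AN Filter Finset
open G39 (dl)
open N2 (El)

variable {N D m : ℕ} {π : Pa m}

/-- The free data over a member. -/
structure Fw (Y : Bs N D π) : Type where
  P : FP Y.X.Ω
  u : ℕ
  lv : ℚ → ℕ
  S : ℚ → Y.X.Ω → Dc N D
  s : ℕ → ℝ
  j : ℝ
  hS : S 0 = Y.X.S 0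
  hb : Y.F.b = lv 0

/-- The member with the new data. -/
abbrev Fw.bs {Y : Bs N D π} (w : Fw Y) : Bs N D π := Y.sub w.P w.u w.lv w.S w.s w.j

theorem cf_m4 {S : ℕ → Type*} (y : ∀ n, S n → Bs N D π) (hb : ∀ n z, (y n z).F.b = (y n z).X.lv 0) :
    CF fun Z : ∀ n, S n => M4 fun n => y n (Z n) :=
  ((cf_const (1 ≤ D ∧ 1 ≤ π.L)).and
    (((cf_ts π.E π.η π.θ π.β π.js π.Γ π.kf π.sl).comp fun n z => (y n z).X).and
    ((cf_sur.comp fun n z => (y n z).X).and (AB.cf_fm π.kk π.la π.o π.τ (fun n z => (y n z).X)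
      (fun n z => (y n z).F) π.S π.C π.L fun n z => (y n z).A)))).congr fun _ =>
    ⟨fun h => ⟨h.one, h.ts, h.sur, h.fm⟩, fun h => ⟨h.1, h.2.1, h.2.2.1, h.2.2.2, fun _ => hb _ _⟩⟩

theorem M4.idx {Y : ℕ → Bs N D π} (h : M4 Y) {e : ℚ} (he : 0 < e) :
    M4 fun n => ⟨(Y n).X.idx π.sl π.js 0 e, (Y n).F, (Y n).A⟩ :=
  ⟨h.one, h.ts.idx 0 he, h.sur.idx h.ts.big _ _ 0 he, h.fm.idx h.ts.toTq 0 he,
    fun n => (h.hb n).trans (by simp)⟩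

theorem sBr : SBr := by
  intro N D m π Y h
  let w₀ : ∀ n, Fw (Y n) := fun n => ⟨(Y n).X.P, (Y n).X.u, (Y n).X.lv, (Y n).X.S, (Y n).X.s0,
    (Y n).X.j0, rfl, h.hb n⟩
  have : ∀ n, Nonempty (Fw (Y n)) := fun n => ⟨w₀ n⟩
  refine ⟨fun X => ∃ w : ∀ n, Fw (Y n), M4 (fun n => (w n).bs) ∧ ∀ᶠ n in UF, X n = (w n).bs.pr,
    ⟨Cx.cf_ex (K := fun Z : ∀ n, PA.Pr (El π.la) (Y n).X.Ω (Ln N × ℤ) × Fw (Y n) =>
      M4 (fun n => (Z n).2.bs) ∧ ∀ᶠ n in UF, (Z n).1 = (Z n).2.bs.pr)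
      ((cf_m4 (fun n (z : _ × Fw (Y n)) => z.2.bs) fun _ z => z.2.hb).and
        (cf_ev fun n (z : PA.Pr _ (Y n).X.Ω _ × Fw (Y n)) => z.1 = z.2.bs.pr)),
      fun X e he _ ⟨w, a, b⟩ => ?_, fun X G ⟨w, a, b⟩ g => ?_, fun X ⟨w, a, b⟩ => ?_,
      fun X ⟨w, a, b⟩ x x' e => ?_⟩, ⟨w₀, h, .of_forall fun _ => rfl⟩,
    fun X ⟨w, a, b⟩ => ⟨_, _, _, _, _, _, a, fun n => (w n).hS, b⟩⟩
  · exact ⟨fun n => ⟨(w n).P, _, fun x => (w n).lv (0 + e * x), fun x => (w n).S (0 + e * x), _, _,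
      by simpa using (w n).hS, by simpa using (w n).hb⟩, a.idx he,
      b.mono fun n k => congrArg (PA.Pr.idx · 0 e) k⟩
  · refine ⟨fun n => ⟨cE (w n).P (G n), _, _, _, _, _, (w n).hS, (w n).hb⟩, a.res ⟨fun c hc => ?_,
      fun x c hc => ?_⟩, b.mono fun n k => congrArg (PA.Pr.res · (G n)) k⟩
    · filter_upwards [g.top c hc, b] with n k1 k2
      simp only [dl, PA.sM] at k1
      rw [k2] at k1
      exact k1
    · filter_upwards [g.fb x c hc, b] with n k1 k2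
      simp only [dl, PA.sM] at k1
      rw [k2] at k1
      exact k1
  · exact Tendsto.congr' (b.mono fun n k => by simp only [PA.sM]; rw [k]; rfl) a.ts.big
  · filter_upwards [a.ts.nest e, b] with n k1 k2
    simp only [PA.sP, PA.sO]
    rw [k2]
    exact k1

end Pool.Agent.MP_5168f5_an.QA.P5
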