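import Pool.Agent.MP_5168f5_an.QA.P5Defs
import Pool.Agent.MP_5168f5_an.QA.OrbAl
import Pool.Agent.MP_5168f5_an.QA.OrbPh
import Pool.Agent.MP_5168f5_an.QA.OrbPg
import Pool.Agent.MP_5168f5_an.QA.FlApi

/-! The maximal estimate in all dimensions: the lateral derivatives commute with the live part. -/

namespace Pool.Agent.MP_5168f5_an.QA.P5

open H19 H17S H17F R4 AN Filter Matrix
open GA (Mt ex cm IsFr)
open N2 (tri)
open N6 (Eb)
open Fl (Sg Bd Fd One)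
open Ob (pj)

namespace ComA

/-- One space: from the frame `E` to the frame `G`. -/
theorem one {m : ℕ} {κ α : Type} [Fintype κ] [DecidableEq κ] (σ : Sg (Fin m) κ α)
    {kk : Fin m → ℝ} (hΦ : σ.Φ = tri kk) (fr : IsFr σ.Φ σ.B σ.c) {W : ℝ} (hW : 0 ≤ W) :
    ∃ C : ℝ, 1 ≤ C ∧ ∀ (Ω Λ Θ Ξ : Type) (b : Bd (Fin m) κ α Ω Θ Ξ) (d : Fd (Fin m) κ α Ω)
    (P : FP Ω) (O : Ω → Λ) (μ : κ → ℝ) (γ : κ → ℕ) (R u w : ℝ) (φ : Mt (Fin m)) (ω : Ω),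
    (∀ a, 0 ≤ μ a ∧ μ a ≤ W) → 0 ≤ R → 1 ≤ u → C * (u + R) ≤ w → One σ b d P O μ γ R u w →
    ω ∈ P.S → (∀ p q, |((b.J ω)⁻¹ * φ * b.J ω) p q| ≤ Real.exp u) →
    (∀ p q, ¬kk q < kk p → |((b.J ω)⁻¹ * φ * b.J ω) p q| ≤ Real.exp (-w)) →
    (∀ a p q, 0 < μ a → |cm (d.B σ ω a) ((d.E ω)⁻¹ * φ * d.E ω) p q| ≤ Real.exp (-w)) → ∀ p q,
    |((d.G σ b ω)⁻¹ * φ * d.G σ b ω) p q| ≤ Real.exp (C * u) ∧
    (¬kk q < kk p → |((d.G σ b ω)⁻¹ * φ * d.G σ b ω) p q| ≤ Real.exp (-(w - C * (u + R)))) ∧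
    ∀ a, 0 < μ a → |cm (d.B σ ω a) ((d.G σ b ω)⁻¹ * φ * d.G σ b ω) p q| ≤
      Real.exp (-(w - C * (u + R))) := by
  obtain ⟨C, c1, H⟩ := Ob.al (Ob.ofPh Ob.sPg) Unit σ hΦ fr hW
  have m0 : (0 : ℝ) ≤ m := Nat.cast_nonneg _
  refine ⟨2 * C + 2 * (m + 1) + 1, by linarith, fun Ω Λ Θ Ξ b d P O μ γ R u w φ ω hμ hR hu hw h hω
    h1 h2 h3 p q => ?_⟩
  have cu : 0 ≤ C * u := by positivity
  have cR : 0 ≤ C * R := by positivity
  have mu : 0 ≤ (m : ℝ) * u := by positivity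
  have mR : 0 ≤ (m : ℝ) * R := by positivity
  obtain ⟨a, k⟩ := H Ω Λ Θ Ξ b d P O μ γ R u w (fun _ => φ) ω hμ hR hu (by nlinarith) h hω
    (fun _ => ⟨fun q p => h1 p q, fun q p => by
      rw [Matrix.sub_apply, pj, of_apply]
      split_ifs with e
      exacts [by simpa using (Real.exp_pos _).le, by simpa using h2 p q e]⟩)
    (fun _ _ => rfl) fun a _ e q p => h3 a p q e
  have n := (GA.sMul _ _ _ _ _ a.fr).neg (d.k ω)
  have e : (d.G σ b ω)⁻¹ * φ * d.G σ b ω =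
      ex (d.B σ ω) (d.k ω) * ((b.J ω)⁻¹ * φ * b.J ω) * ex (d.B σ ω) (-d.k ω) := by
    rw [Fd.G, Matrix.mul_inv_rev, inv_eq_right_inv n.1]
    simp only [mul_assoc]
  have k2 := (k ()).2
  rw [← e] at k2
  generalize (d.G σ b ω)⁻¹ * φ * d.G σ b ω = y at *
  have bf := a.bf ()
  have cf := fun i => a.cf i ()
  have z := N2.mem_F0.1 (a.mf ()) p q
  beta_reduce at bf cf z
  generalize pj kk ((d.E ω)⁻¹ * φ * d.E ω) = f at *
  have t1 : Real.exp (-(w - C * (u + R))) ≤ 1 := Real.exp_le_one_iff.2 (by nlinarith)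
  have x1 : 1 ≤ Real.exp (C * u) := Real.one_le_exp cu
  have x2 : 2 * (m + 1 : ℝ) + 1 ≤ Real.exp ((2 * (m + 1) + 1) * u) := Ob.AlA.le_exp (by linarith) hu
  refine ⟨?_, fun v => ?_, fun i hi => ?_⟩
  · have := Lt.eb_add k2 bf q p
    rw [sub_add_cancel] at this
    refine this.trans (le_trans ?_ (Real.exp_le_exp.2
      (show (2 * (m + 1) + 1) * u + C * u ≤ _ by nlinarith)))
    rw [Real.exp_add]
    nlinarith
  · have := k2 q p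
    rw [Matrix.sub_apply, z v, sub_zero] at this
    exact this.trans (Real.exp_le_exp.2 (by nlinarith))
  · have := Lt.eb_add (cf i hi) (Lt.eb_cm (a.bB i) k2 (Real.exp_pos _).le (Real.exp_pos _).le) q p
    rw [show cm (d.B σ ω i) f + cm (d.B σ ω i) (y - f) = cm (d.B σ ω i) y by
      unfold cm; noncomm_ring] at this
    refine this.trans (le_trans ?_ (Real.exp_le_exp.2
      (show (2 * (m + 1) + 1) * u + C * u + -(w - C * (u + R)) ≤ _ by nlinarith)))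
    rw [Real.exp_add, Real.exp_add]
    have t0 := Real.exp_pos (-(w - C * (u + R)))
    generalize Real.exp (-(w - C * (u + R))) = t at *
    have : t ≤ Real.exp (C * u) * t := le_mul_of_one_le_left t0.le x1
    have := mul_le_mul_of_nonneg_right x2 (mul_nonneg (zero_le_one.trans x1) t0.le)
    nlinarith

end ComA

/-- Sure commutation in the frame `E` gives the facts in the frame `G`. -/
theorem com_of (hF : SFb) {N D m : ℕ} {π : Pa m} {Hs : Finset ℝ} {W : ℝ} {μ : π.κ → ℝ}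
    {γ : π.κ → ℕ} {Z : ℕ → Mb N D π} (ok : π.σ.Ok Hs W) (hμ : ∀ a, μ a ∈ Hs) (h : M5 μ γ Z)
    (c : ∀ T : ℝ, ∀ᶠ n in UF, ∀ ω ∈ (Z n).X.P.S, ∀ a j p q, 0 < μ a →
      |cm ((Z n).B ω a) (((Z n).d.E ω)⁻¹ * (Z n).φ ω j * (Z n).d.E ω) p q| ≤
        Real.exp (-(T * (Z n).X.u))) : Com μ Z := by
  obtain ⟨⟨-, fb⟩, tr⟩ := hF N D m π _ h.m4
  obtain ⟨C, c1, H⟩ := ComA.one π.σ (kk := π.kk) rfl ok.fr (ok.bd 0 ok.zero).2
  unfold Com Al
  refine Fl.au_lin h.m4.ts.big (Fl.au_and h.fl (Fl.au_and fb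
    (ψ' := fun n _ w => ∀ ω ∈ (Z n).X.P.S, (∀ j p q, ¬π.kk q < π.kk p →
      |(((Z n).F.J ω)⁻¹ * (Z n).φ ω j * (Z n).F.J ω) p q| ≤ Real.exp (-w)) ∧ ∀ a j p q, 0 < μ a →
      |cm ((Z n).B ω a) (((Z n).d.E ω)⁻¹ * (Z n).φ ω j * (Z n).d.E ω) p q| ≤ Real.exp (-w))
    fun _ _ T => ((tr T).and (c T)).mono fun n x ω y => ⟨(x.1 ω y).2, x.2 ω y⟩))
    (fun n u u' w w' a b x ω y j p q => ⟨(x ω y j p q).1.trans (LC.ex_le a),
      fun e => ((x ω y j p q).2.1 e).trans (LC.ex_le (neg_le_neg b)),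
      fun i e => ((x ω y j p q).2.2 i e).trans (LC.ex_le (neg_le_neg b))⟩) c1
    (.of_forall fun n u w u1 a x ω y j => ?_)
  exact H _ _ _ _ (Z n).bd (Z n).d _ _ μ γ _ u w ((Z n).φ ω j) ω (fun a => ok.bd _ (hμ a))
    (Nat.cast_nonneg _) u1 a x.1 y (fun p q => (x.2.1 ω y j p q).1) ((x.2.2 ω y).1 j)
    fun a => (x.2.2 ω y).2 a j

theorem sCom_of (hA : SAcw) (hC : Fl.SCom) (hF : SFb) (hK : SClo) : SCom := by
  intro N D m π Hs W μ γ Z ok mn h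
  obtain ⟨L₀, l1, acw⟩ := hA N D m π Hs W μ γ Z ok mn h
  have big := h.m4.ts.big
  obtain ⟨E, e1, e2⟩ := whp_diag fun i : ℕ => hC _ _ _ _ _ _ _ _ _ π.σ (fun n => (Z n).bd) Hs W L₀
    μ γ (fun n => (Z n).pr) (fun n => (Z n).d) (fun n => (Z n).φ) ok mn.1 big h.fl
    (one_pos.trans_le l1) acw (hF N D m π _ h.m4).1 i
  obtain ⟨G, g1, -, g⟩ := ex_trm (X := sX Z) big (top_whp big e1)
  have h' := (hK N D m π μ γ Z h).1 G g
  refine ⟨_, h', com_of hF ok mn.1 h' fun T => ?_⟩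
  obtain ⟨i, hi⟩ := exists_nat_ge T
  filter_upwards [e2 i, g.mem] with n x y ω z a j p q e
  exact (x ω (g1 n ω (y ω z).2) a j p q e).trans (LC.ex_le (neg_le_neg
    (mul_le_mul_of_nonneg_right hi (Nat.cast_nonneg _))))

end Pool.Agent.MP_5168f5_an.QA.P5
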