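import Pool.Agent.MP_5168f5_an.QA.En5D
import Pool.Agent.MP_5168f5_an.QA.Bd
import Pool.Agent.MP_5168f5_an.QA.GapLow

/-! The maximal estimate in all dimensions: the input of the frames. -/

namespace Pool.Agent.MP_5168f5_an.QA.En5

open H19 H17S H17F R4 AN Filter MvPolynomial Finset
open G39 (dl)
open Pk (cn kc mons)
open C1 (Hb deg_PD)
open En (tb)
open Fr (Su)

/-- The inequality of Markov on a segment. -/
theorem mark (D : ℕ) : ∃ C : ℝ, 1 ≤ C ∧ ∀ {n : ℕ} (F : MvPolynomial (Fin n) ℝ) (b w : V n)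
    (t τ θ : ℝ), F.totalDegree ≤ D → 0 < τ →
    (∀ s, t ≤ s → s ≤ t + τ → |eval (b + s • w) F| ≤ θ) → ∀ s, t ≤ s → s ≤ t + τ →
      τ * |∑ i, w i * eval (b + s • w) (pderiv i F)| ≤ C * θ ∧ ∀ s', t ≤ s' → s' ≤ t + τ →
        τ * |eval (b + s • w) F - eval (b + s' • w) F| ≤ C * θ * |s - s'| := by
  obtain ⟨C, c1, hC⟩ := Pk.neq 1 D
  have d0 : (0 : ℝ) ≤ D := Nat.cast_nonneg _
  have p2 : (1 : ℝ) ≤ 2 ^ D := one_le_pow₀ one_le_two
  refine ⟨(D + 1) * (C * 2 ^ D), one_le_mul_of_one_le_of_one_le (by linarith)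
    (one_le_mul_of_one_le_of_one_le c1 p2), fun {n} F b w t τ θ hF τ0 h s s0 s1 => ?_⟩
  set Φ : Fin n → MvPolynomial (Fin 1) ℝ := fun i =>
    MvPolynomial.C (b i + t * w i) + MvPolynomial.C (τ * w i) * X 0 with hΦ
  have e : ∀ (H : MvPolynomial (Fin n) ℝ) (x : Fin 1 → ℝ),
      eval x (aeval Φ H) = eval (b + (t + τ * x 0) • w) H := fun H x => by
    rw [Nc.eval_aeval]
    congr 2
    funext i
    simp only [Nc.ev, hΦ, map_add, map_mul, eval_C, eval_X, Pi.add_apply, Pi.smul_apply,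
      smul_eq_mul]
    ring
  have dG : (aeval Φ F).totalDegree ≤ D := (kc.deg Φ F D 1 hF fun i =>
    (totalDegree_add _ _).trans (max_le ((totalDegree_C _).trans_le zero_le_one)
      ((totalDegree_mul _ _).trans (by rw [totalDegree_C, totalDegree_X])))).trans_eq (mul_one D)
  have θ0 : 0 ≤ θ := (abs_nonneg _).trans (h s s0 s1)
  have k := (((hC _ dG).2 (fun _ => 1 / 2) (1 / 2) 1 θ (by norm_num) (by norm_num) fun x hx => by
    have := abs_le.1 ((norm_le_pi_norm (x - fun _ => 1 / 2) 0).trans hx)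
    simp only [Pi.sub_apply] at this
    rw [e]
    exact h _ (by nlinarith) (by nlinarith)).1 le_rfl
      ((pi_norm_le_iff_of_nonneg zero_le_one).2 fun _ => by norm_num))
  rw [show (1 : ℝ) / (1 / 2) = 2 by norm_num] at k
  have u : ∀ r, t ≤ r → r ≤ t + τ → |(r - t) / τ| ≤ 1 ∧ t + τ * ((r - t) / τ) = r := fun r a c =>
    ⟨by rw [abs_div, abs_of_pos τ0, div_le_one τ0, abs_le]; constructor <;> linarith,
      by field_simp; ring⟩
  have c0 := kc.nonneg (aeval Φ F)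
  have k2 : D * cn (aeval Φ F) ≤ (D + 1) * (C * 2 ^ D) * θ := by
    rw [mul_assoc]
    exact mul_le_mul (by linarith) k c0 (by linarith)
  refine ⟨?_, fun s' a c => ?_⟩
  · have v := kc.val (pderiv 0 (aeval Φ F)) D 1 (fun _ => (s - t) / τ)
      ((kc.der _ D 0 dG).2.trans (Nat.sub_le _ _)) le_rfl fun _ => (u s s0 s1).1
    rw [one_pow, mul_one] at v
    refine le_trans (le_of_eq ?_) (v.trans ((kc.der _ D 0 dG).1.trans k2))
    rw [Nc.pderiv_aeval, map_sum, ← abs_of_pos τ0, ← abs_mul, mul_sum, abs_of_pos τ0]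
    refine congrArg _ (sum_congr rfl fun i _ => ?_)
    rw [map_mul, e, (u s s0 s1).2]
    simp [hΦ]
    ring
  · have v := kc.lip (aeval Φ F) D 1 (|s - s'| / τ) (fun _ => (s - t) / τ) (fun _ => (s' - t) / τ)
      dG le_rfl (by positivity) fun _ => ⟨(u s s0 s1).1, (u s' a c).1, by
        rw [← sub_div, abs_div, abs_of_pos τ0, sub_sub_sub_cancel_right]⟩
    rw [e, e, (u s s0 s1).2, (u s' a c).2, one_pow, mul_one, ← mul_div_assoc, le_div_iff₀' τ0] at v
    exact v.trans (mul_le_mul_of_nonneg_right k2 (abs_nonneg _))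

section One

variable {N D : ℕ} {Ω : Type}

theorem evV_eq (y : V (N + 1)) (F : VD N D) : evV y F = eval y F.1 := rfl

theorem drV_eq (y w : V (N + 1)) (F : VD N D) :
    drV y w F = ∑ i, w i * eval y (pderiv i F.1) := by
  simp only [drV, LinearMap.coe_sum, Finset.sum_apply]
  rfl

theorem vx_val (hD : 1 ≤ D) (i : Fin (N + 1)) : (vx i : VD N D).1 = X i := by
  rw [vx, dif_pos hD]

theorem evV_v1 (y : V (N + 1)) : evV y (v1 : VD N D) = 1 := by simp [evV_eq, v1]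

theorem evV_vx (hD : 1 ≤ D) (y : V (N + 1)) (i : Fin (N + 1)) : evV y (vx i : VD N D) = y i := by
  rw [evV_eq, vx_val hD, eval_X]

theorem drV_v1 (y w : V (N + 1)) : drV y w (v1 : VD N D) = 0 := by simp [drV_eq, v1]

theorem drV_vx (hD : 1 ≤ D) (y w : V (N + 1)) (i : Fin (N + 1)) :
    drV y w (vx i : VD N D) = w i := by
  classical
  simp [drV_eq, vx_val hD, pderiv_X, Pi.single_apply, apply_ite]

theorem Bn_v1 : Bn (v1 : VD N D) ≤ 1 :=
  (BdA.Bn_le_cn _).trans_eq ((kc.const (σ := Fin (N + 1)) 1).trans abs_one)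

theorem Bn_vx (hD : 1 ≤ D) (i : Fin (N + 1)) : Bn (vx i : VD N D) ≤ 1 :=
  (BdA.Bn_le_cn _).trans_eq (by rw [vx_val hD, kc.var])

/-- The point of the line at height zero. -/
def bp (g : Sh N Ω) (ω : Ω) : V (N + 1) := Fin.cons 0 (g.a ω)

theorem line_eq (g : Sh N Ω) (ω : Ω) (M : ℕ) (s : ℝ) :
    bp g ω + s • g.dv ω = tb M (g.a ω) (g.e ω) s 0 := by
  funext i
  refine Fin.cases ?_ (fun j => ?_) i <;> simp [bp, Sh.dv, tb]

theorem tp_eq (g : Sh N Ω) (ω : Ω) : g.tp ω = bp g ω + g.z ω • g.dv ω := by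
  funext i
  refine Fin.cases ?_ (fun j => ?_) i <;> simp [bp, Sh.dv, Sh.tp]

theorem line_mem (g : Sh N Ω) (ω : Ω) (M c : ℕ) {h : ℤ} {s r : ℝ} (hr : 0 ≤ r)
    (a : h / 2 ^ c ≤ s) (b : s ≤ h / 2 ^ c + 1 / 2 ^ c) :
    bp g ω + s • g.dv ω ∈ seg M c (g.l ω) h r := by
  have p : (0 : ℝ) < 2 ^ c := by positivity
  refine ⟨s, 0, ?_, ?_, by simpa using hr, line_eq g ω M s⟩
  · rwa [div_le_iff₀' p] at a
  · rwa [← add_div, le_div_iff₀' p] at b

theorem tp_mem (g : Sh N Ω) (ω : Ω) (M c : ℕ) {r : ℝ} (hr : 0 ≤ r) :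
    g.tp ω ∈ seg M c (g.l ω) (fl1 c (g.z ω)) r := by
  rw [tp_eq]
  exact line_mem g ω M c hr (fl1_near c _).1 (fl1_near c _).2

/-- Values and derivatives at bounded points. -/
theorem val_Bn (N D : ℕ) : ∃ C : ℝ, 1 ≤ C ∧ ∀ (F : VD N D) (y : V (N + 1)), ‖y‖ ≤ 7 →
    |evV y F| ≤ C * Bn F ∧ (∀ w : V (N + 1), ‖w‖ ≤ 1 → |drV y w F| ≤ C * Bn F) ∧
    ∀ y' : V (N + 1), ‖y'‖ ≤ 7 → |evV y F - evV y' F| ≤ C * Bn F * ‖y - y'‖ := by
  set k : ℝ := ((mons (Fin (N + 1)) D).card : ℝ)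
  have k0 : 0 ≤ k := Nat.cast_nonneg _
  have d0 : (0 : ℝ) ≤ D := Nat.cast_nonneg _
  have n0 : (0 : ℝ) ≤ N := Nat.cast_nonneg _
  have p7 : (1 : ℝ) ≤ 7 ^ D := one_le_pow₀ (by norm_num)
  refine ⟨(N + 1) * (D + 1) * ((k + 1) * 7 ^ D), one_le_mul_of_one_le_of_one_le (by nlinarith)
    (by nlinarith), fun F y hy => ?_⟩
  have b0 : 0 ≤ Bn F := Real.sqrt_nonneg _
  have c0 := kc.nonneg F.1
  have c1 : cn F.1 * 7 ^ D ≤ (k + 1) * 7 ^ D * Bn F := by
    have := BdA.cn_le_Bn F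
    nlinarith
  have c2 : 0 ≤ (k + 1) * 7 ^ D * Bn F := by positivity
  have c3 : D * cn F.1 * 7 ^ D ≤ (D + 1) * ((k + 1) * 7 ^ D * Bn F) := by
    rw [mul_assoc]
    exact mul_le_mul (by linarith) c1 (by positivity) (by linarith)
  have y1 : ∀ {y : V (N + 1)}, ‖y‖ ≤ 7 → ∀ i, |y i| ≤ 7 := fun a i => (norm_le_pi_norm _ i).trans a
  refine ⟨((kc.val F.1 D 7 y (deg_PD F) (by norm_num) (y1 hy)).trans c1).trans ?_,
    fun w hw => ?_, fun y' hy' => (kc.lip F.1 D 7 ‖y - y'‖ y y' (deg_PD F) (by norm_num)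
      (norm_nonneg _) fun i => ⟨y1 hy i, y1 hy' i, norm_le_pi_norm (y - y') i⟩).trans
        (mul_le_mul_of_nonneg_right (c3.trans ?_) (norm_nonneg _))⟩
  · nlinarith [mul_nonneg (mul_nonneg n0 d0) c2, mul_nonneg n0 c2, mul_nonneg d0 c2]
  · rw [drV_eq]
    refine (abs_sum_le_sum_abs _ _).trans ((sum_le_card_nsmul _ _
      ((D + 1) * ((k + 1) * 7 ^ D * Bn F)) fun i _ => ?_).trans_eq ?_)
    · rw [abs_mul]
      refine (mul_le_of_le_one_left (abs_nonneg _) ((norm_le_pi_norm w i).trans hw)).trans ?_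
      exact ((kc.val _ D 7 y ((kc.der F.1 D i (deg_PD F)).2.trans (Nat.sub_le _ _)) (by norm_num)
        (y1 hy)).trans (mul_le_mul_of_nonneg_right (kc.der F.1 D i (deg_PD F)).1
          (by positivity))).trans c3
    · simp only [card_univ, Fintype.card_fin, nsmul_eq_mul]
      push_cast
      ring
  · nlinarith [mul_nonneg n0 (mul_nonneg (add_nonneg d0 zero_le_one) c2)]

theorem pw {a b : ℕ} {r u ε : ℝ} (hε : 0 ≤ ε * u) (h : (a : ℝ) - b ≤ -r * u + ε * u) :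
    (2 : ℝ) ^ a ≤ Real.exp (ε * u) * Real.exp (-(lg * r * u)) * 2 ^ b := by
  rw [two_pow_eq, two_pow_eq, ← Real.exp_add, ← Real.exp_add]
  refine Real.exp_le_exp.2 ?_
  nlinarith [mul_le_mul_of_nonneg_right h lg_pos.le, mul_le_of_le_one_right hε lg_lt_one.le]

end One

theorem su_of {Ω : ℕ → Type} {P : ∀ n, FP (Ω n)} {M : ℕ → ℕ} {q : ∀ n, Ω n → ℝ → Prop}
    (hM : Big M) {C : ℝ} (hC : 1 ≤ C) (h : ∀ ε : ℝ, 0 < ε → ∀ᶠ n in UF, ∀ ω ∈ (P n).S,
      q n ω (C * Real.exp (ε * M n))) : Su P M q := by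
  obtain ⟨k, a, b⟩ := KSA.spill _ fun j : ℕ => h (1 / (j + 1 : ℝ)) (by positivity)
  refine ⟨fun n => C * Real.exp (1 / (k n + 1 : ℝ) * M n), Sub.const_mul ⟨fun n =>
    Real.one_le_exp (by positivity), fun ε hε => ?_⟩ hM hC, b.mono fun n c => c _ le_rfl⟩
  filter_upwards [K31.small hε a] with n c
  exact Real.exp_le_exp.2 (mul_le_mul_of_nonneg_right c (Nat.cast_nonneg _))

end En5

open H19 H17S H17F R4 AN Filter MvPolynomial Finset En5
open G39 (dl)
open C1 (Hb deg_PD)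

theorem sEntA : SEntA := by
  intro N D X η θ Γ sl hD t l s
  have I : ∀ x : ℚ, x ∈ (Set.univ : Set ℚ) := fun _ => trivial
  obtain ⟨C, c1, hC⟩ := mark D
  obtain ⟨C', c2, hC'⟩ := val_Bn N D
  have ok : ∀ x, ∀ᶠ n in UF, ∀ ω ∈ (X n).P.S, Hb (nuX X x n ω) ∧
      ∀ y ∈ seg (X n).M ((X n).lv x) ((X n).g.l ω) (fl1 ((X n).lv x) ((X n).g.z ω)) 5,
        ∀ F : VD N D, |eval y F.1| ≤ nuX X x n ω F := fun x =>
    (t.val x (I x)).mono fun n a ω hω => ⟨(a ω hω).2.hb, (a ω hω).1 ▸ (a ω hω).2.bd⟩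
  have mk := fun x => (ok x).mono fun n a ω hω (F : VD N D) =>
    hC F.1 (bp (X n).g ω) ((X n).g.dv ω) _ (1 / 2 ^ (X n).lv x) _ (deg_PD F) (by positivity)
      fun r u v => (a ω hω).2 _ (line_mem (X n).g ω _ _ (by norm_num) u v) F
  have e1 : ∀ (ε : ℝ) n, 0 < ε → 1 ≤ Real.exp (ε * (X n).u) := fun ε n a =>
    Real.one_le_exp (by positivity)
  refine ⟨⟨t.big, rfl, BdA.hb_Bn, fun x => (ok x).mono fun n a ω hω => (a ω hω).1,
    fun x k ε hk hε => (t.spec x (I x) ε hε).mono fun n a ω hω => le_trans ?_ (a ω hω),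
    fun x x' => su_of t.big le_rfl fun ε hε => (l x (I x) x' (I x') ε hε).mono
      fun n a ω hω F => (a ω hω F).1.trans_eq ?_⟩,
    ⟨⟨lg_pos, fun n => by positivity⟩, fun x x' e => (t.mono x (I x) x' (I x') e).mono
      fun n a u _ v _ k => Prod.ext (Prod.ext_iff.1 k).1 (fl1_eq_of_le a (Prod.ext_iff.1 k).2),
    fun x => (t.fn x (I x)).mono fun n a => (Fn.comp Dc.ν _).trans a,
    fun n ω => ⟨evV_v1 _, drV_v1 _ _, drV_vx hD _ _ _⟩,
    fun x => ⟨fun _ => 1, t.big.sub le_rfl, (ok x).mono fun n a ω hω F =>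
      ((a ω hω).2 _ (tp_mem _ ω _ _ (by norm_num)) F).trans_eq (one_mul _).symm⟩,
    ⟨fun _ => C', t.big.sub c2, t.box.mono fun n a ω hω F => ?_⟩,
    ⟨fun _ => C, t.big.sub c1, (mk 0).mono fun n a ω hω F => ?_⟩,
    fun x y e => su_of t.big c1 fun ε hε => ?_,
    fun x => su_of t.big le_rfl fun ε hε => (s.up x ε hε).mono fun n a ω hω =>
      (a ω hω v1).trans ((mul_le_of_le_one_right (Real.exp_pos _).le Bn_v1).trans_eq
        (one_mul _).symm),
    fun K => (s.thin 0 K).mono fun n a ω hω F => ⟨_, a ω hω F⟩,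
    fun x => su_of t.big le_rfl fun ε hε => ?_⟩⟩
  · refine le_trans (le_of_eq ?_) (single_le_sum (f := fun k => |sg k ((X n).S x ω).ν -
      (X n).cen (fun k x => sl k * x) x k|) (fun _ _ => abs_nonneg _)
        (mem_range.2 (Nat.lt_succ_of_le hk)))
    rw [← abs_neg]
    simp only [sg, St.cen]
    congr 1
    ring
  · rw [one_mul, ← Real.exp_add]
    congr 2
    ring
  · have k := hC' F _ (((BdA.box_in a 0 hω).norm (tp_mem (X n).g ω 0 0 le_rfl)).trans (by norm_num))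
    exact ⟨k.1, k.2.1 _ (BdA.norm_cons_le (by simp) (a ω hω).2.1)⟩
  · have k := (a ω hω F _ (fl1_near _ _).1 (fl1_near _ _).2).1
    rw [← tp_eq, ← drV_eq, one_div, inv_mul_le_iff₀ (by positivity)] at k
    exact k.trans_eq (by ring)
  · filter_upwards [mk x, ok x, t.mono x (I x) y (I y) e, t.lev y (I y) x (I x) ε hε]
      with n a o b c ω hω v hv k F
    have k1 : (X n).g.l v = (X n).g.l ω := congrArg Prod.fst k
    have k2 : fl1 _ ((X n).g.z v) = fl1 _ ((X n).g.z ω) := congrArg Prod.snd k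
    have k3 := fl1_near ((X n).lv x) ((X n).g.z v)
    rw [fl1_eq_of_le b k2] at k3
    have k4 := (a ω hω F _ (fl1_near _ _).1 (fl1_near _ _).2).2 _ k3.1 k3.2
    have k5 : (X n).g.tp v = bp (X n).g ω + (X n).g.z v • (X n).g.dv ω := by
      rw [tp_eq, bp, bp, Sh.dv, Sh.dv, show (X n).g.a v = (X n).g.a ω from congrArg Prod.fst k1,
        show (X n).g.e v = (X n).g.e ω from congrArg Prod.snd k1]
    rw [← tp_eq, ← k5, one_div, inv_mul_le_iff₀ (by positivity)] at k4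
    have k6 := pw (r := (y : ℝ) - x) (mul_nonneg hε.le (Nat.cast_nonneg (X n).u))
      (c.trans_eq (by ring))
    have k7 := (abs_sub_lt_of_fl1_eq k2.symm).le
    have n0 := mul_nonneg (zero_le_one.trans c1) ((o ω hω).1.nonneg F)
    refine k4.trans ((mul_le_mul k6 (mul_le_mul_of_nonneg_left k7 n0) (by positivity)
      (by positivity)).trans_eq ?_)
    simp only [dl]
    field_simp
  · filter_upwards [s.ht x _ (half_pos hε), ok x, t.lev x (I x) 0 (I 0) _ (half_pos hε)]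
      with n a o c ω hω
    have k6 := pw (r := (x : ℝ)) (mul_nonneg (half_pos hε).le (Nat.cast_nonneg (X n).u))
      (c.trans_eq (by push_cast; ring))
    rw [show ptX X n ω (vx 0) = (X n).g.z ω from evV_vx hD _ _]
    refine (mul_le_mul_of_nonneg_right k6 ((o ω hω).1.nonneg _)).trans ?_
    rw [mul_assoc]
    refine (mul_le_mul_of_nonneg_left (a ω hω) (by positivity)).trans_eq ?_
    rw [mul_right_comm, ← Real.exp_add, one_mul, dl]
    congr 2
    ring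

end Pool.Agent.MP_5168f5_an.QA
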