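import Pool.Agent.MP_5168f5_an.QA.AbD
import Pool.Agent.MP_5168f5_an.QA.FrAlg
import Pool.Agent.MP_5168f5_an.QA.En5A

/-! The model of the frames gives the model at all levels. -/

namespace Pool.Agent.MP_5168f5_an.QA.AB

open H19 H17S H17F R4 AN Filter MvPolynomial
open G39 (dl)
open Fr (dg_chg bd_chg)

/-- The true levels and the nominal levels give comparable lengths. -/
theorem len_cmp {N D m E : ℕ} {X : ℕ → St N D} {η θ β js Γ : ℝ} {sl : ℕ → ℝ}
    (t : Tq X E η θ β js Γ sl) (la : Fin m → ℝ) (x : ℚ) : ∃ G, Sub (uu X) G ∧ ∀ n a,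
      Real.exp (-(la a * ((X n).lv x - (X n).lv 0 : ℝ))) ≤ G n * dl (uu X) (la a * x) n ∧
      dl (uu X) (la a * x) n ≤ G n * Real.exp (-(la a * ((X n).lv x - (X n).lv 0 : ℝ))) := by
  have A0 : 0 ≤ ∑ a, |la a| := Finset.sum_nonneg fun _ _ => abs_nonneg _
  refine ⟨fun n => Real.exp ((∑ a, |la a|) * |((X n).lv x - (X n).lv 0 : ℝ) - x * (X n).u|),
    ⟨fun n => Real.one_le_exp (by positivity), fun ε hε => ?_⟩, fun n a => ?_⟩
  · have p : 0 < ε / (∑ a, |la a| + 1) := by positivity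
    filter_upwards [t.loc 0 x _ p, t.loc x 0 _ p] with n a b
    have k : |((X n).lv x - (X n).lv 0 : ℝ) - x * (X n).u| ≤ ε / (∑ a, |la a| + 1) * (X n).u := by
      have a := a.lev
      have b := b.lev
      push_cast at a b
      exact abs_le.2 ⟨by linarith, by linarith⟩
    refine Real.exp_le_exp.2 ((mul_le_mul (le_add_of_nonneg_right zero_le_one) k (abs_nonneg _)
      (by positivity)).trans_eq ?_)
    field_simp
  · have k := abs_le.1 ((abs_mul (la a) (((X n).lv x - (X n).lv 0 : ℝ) - x * (X n).u)).trans_le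
      (mul_le_mul_of_nonneg_right (Finset.single_le_sum (f := fun a => |la a|)
        (fun _ _ => abs_nonneg _) (Finset.mem_univ a)) (abs_nonneg _)))
    simp only [dl, ← Real.exp_add, Real.exp_le_exp]
    exact ⟨by linarith [k.1], by linarith [k.2]⟩

theorem sMI : SMI := by
  intro N D m E X η θ β js Γ Ga R sl T kk la o τ Z TT e t₀ j hD t nf h hZ
  have z1 : ∀ x : ℚ, ∀ᶠ n in UF, |x| ≤ Z n := fun x => (hZ.ev |(x : ℝ)|).mono fun n a => by
    exact_mod_cast a
  have z2 : ∀ x : ℚ, ∀ᶠ n in UF, -(Z n : ℚ) ≤ x := fun x => (z1 x).mono fun n a => (abs_le.1 a).1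
  have fe : FnE (PP X) e TT := h.fe.mono fun n a u hu v hv k => congrArg Prod.fst (a u hu v hv k)
  refine ⟨h.ko, h.lo, h.lτ, nf.near, fun a b k K => (nf.far a b k K).mono fun n c => ?_,
    fun x => (fe.trans h.ft).trans (h.nb x (z2 x)), fun x => ?_, h.eo.mono fun n a ω hω => ?_,
    h.uj, h.row, h.fr.sp, h.fr.dB, fun x => ?_,
    fun x => (h.up.and (h.nb x (z2 x))).mono fun n a ω hω v hv k => a.1 ω hω v hv (a.2 v hv ω hω k),
    fun x => ?_, fun K => (h.ev₀ K).mono fun n a ω hω p => ?_⟩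
  · simpa [lb] using c
  · classical
    obtain ⟨G, a, b⟩ := h.few x (z1 x)
    refine ⟨G, a, (b.and fe).mono fun n c ω hω => ?_⟩
    obtain ⟨U, u1, u2⟩ := c.1 ω hω
    refine ⟨U.image fun w => e n (if k : ∃ v ∈ (X n).P.S, TT n v = w then k.choose else ω),
      le_trans (Nat.cast_le.2 Finset.card_image_le) u1, fun v hv k => ?_⟩
    have k' : ∃ v' ∈ (X n).P.S, TT n v' = TT n v := ⟨v, hv, rfl⟩
    refine Finset.mem_image.2 ⟨_, u2 v hv k, ?_⟩
    rw [dif_pos k']
    exact c.2 _ k'.choose_spec.1 v hv k'.choose_spec.2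
  · refine ⟨congrArg Subtype.val (a ω hω).1, 2 ^ (X n).lv 0 * t₀ n ω,
      (congrArg Subtype.val (a ω hω).2).trans ?_⟩
    simp only [Submodule.coe_smul, Submodule.coe_sub, En5.vx_val hD, v1, two_pow_eq, smul_eq_C_mul,
      mul_comm lg, C_mul]
    ring
  · obtain ⟨G, a, b⟩ := h.fr.dg x
    obtain ⟨G', a', b'⟩ := len_cmp t la x
    refine ⟨_, a'.mul a, b.mono fun n c ω hω => ?_⟩
    have := dg_chg (c ω hω) (a.pos n).le zero_le_one (a'.pos n).le
      (fun F => ⟨(one_mul _).ge, (one_mul _).ge⟩) (b' n)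
    rwa [one_mul] at this
  · obtain ⟨G, a, b⟩ := h.inc x (z2 x)
    obtain ⟨G', a', b'⟩ := len_cmp t la x
    refine ⟨_, a.mul (a'.mul a'), b.mono fun n c ω hω v hv k =>
      bd_chg (c ω hω v hv k) (a.pos n).le fun p q => ?_⟩
    refine (div_le_div₀ (mul_pos (a'.pos n) (Real.exp_pos _)).le (b' n p).2
      (div_pos (Real.exp_pos _) (a'.pos n)) ((div_le_iff₀' (a'.pos n)).2 (b' n q).1)).trans_eq ?_
    have := (a'.pos n).ne'
    simp only [rd, lb]
    field_simp
  · exact (a ω hω p).trans_eq (by simp [rd, lb])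

end Pool.Agent.MP_5168f5_an.QA.AB
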