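import Pool.Agent.MP_5168f5_an.AN.LC1
import Pool.Agent.MP_5168f5_an.AN.LC2

/-! Increments of pairs: the minimal graded subspace, definitions and closure. -/

namespace Pool.Agent.MP_5168f5_an.QA.PA

open H19 H17S H17F R4 AN Filter Finset
open G39 (dl)
open LC (Au Mo ex_le)

/-- The data on one space: law, unit, levels, atoms, a vector for every pair of points and an
ambient subspace for every point. -/
structure Pr (κ Ω Λ : Type) : Type where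
  P : FP Ω
  M : ℕ
  lv : ℚ → ℝ
  O : ℚ → Ω → Λ
  Y : Ω → Ω → κ → ℝ
  W : Ω → Submodule ℝ (κ → ℝ)

section Alg

variable {κ : Type}

/-- A column. -/
def col (A : κ → κ → ℝ) (a : κ) : κ → ℝ := fun b => A b a

/-- A projection matrix onto a graded subspace of `W` with pivots `S`. -/
structure Sh [DecidableEq κ] (wt : κ → ℝ) (S : Finset κ) (C : ℝ) (W : Submodule ℝ (κ → ℝ))
    (A : κ → κ → ℝ) : Prop where
  gr : ∀ b a, A b a ≠ 0 → a ∈ S ∧ wt a = wt b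
  pv : ∀ b ∈ S, ∀ a, A b a = if a = b then 1 else 0
  bd : ∀ b a, |A b a| ≤ C
  mem : ∀ a, col A a ∈ W

variable [Fintype κ]

/-- The vector `y` is close to the image of `A`. -/
def Im (A : κ → κ → ℝ) (τ : ℝ) (y : κ → ℝ) : Prop := ∀ b, |y b - ∑ a, A b a * y a| ≤ τ

/-- The bracket of two columns. -/
def cA (c : κ → κ → κ → ℝ) (A : κ → κ → ℝ) (a b : κ) : κ → ℝ := GA.br c (col A a) (col A b)

/-- A form on the pivot coordinates that is at most `θ` on the brackets of the columns. -/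
def Fm (c : κ → κ → κ → ℝ) (S : Finset κ) (A : κ → κ → ℝ) (θ : ℝ) (l : κ → ℝ) : Prop :=
  (∀ b, b ∉ S → l b = 0) ∧ ∀ a b, |∑ e, l e * cA c A a b e| ≤ θ

theorem Fm.mono {c : κ → κ → κ → ℝ} {S : Finset κ} {A : κ → κ → ℝ} {θ θ' : ℝ} {l : κ → ℝ}
    (h : Fm c S A θ l) (e : θ ≤ θ') : Fm c S A θ' l := ⟨h.1, fun a b => (h.2 a b).trans e⟩

end Alg

namespace Pr

variable {κ Ω Λ : Type} (wt : κ → ℝ) (X : Pr κ Ω Λ)

/-- Shift to the level `a` and zoom by the factor `e`. -/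
noncomputable def idx (a e : ℚ) : Pr κ Ω Λ :=
  ⟨X.P, ⌊(e : ℝ) * X.M⌋₊, fun b => X.lv (a + e * b), fun b => X.O (a + e * b), X.Y, X.W⟩

/-- Condition on an event. -/
noncomputable abbrev res (G : Ω → Prop) : Pr κ Ω Λ := ⟨cE X.P G, X.M, X.lv, X.O, X.Y, X.W⟩

/-- Pull back to another space with a new law. -/
abbrev pull {Ω' : Type} (Q : FP Ω') (ρ : Ω' → Ω) : Pr κ Ω' Λ :=
  ⟨Q, X.M, X.lv, fun x v => X.O x (ρ v), fun u v => X.Y (ρ u) (ρ v), fun v => X.W (ρ v)⟩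

/-- The normalised vector of a pair at level `x`. -/
noncomputable def co (x : ℚ) (ω v : Ω) (b : κ) : ℝ := Real.exp (wt b * X.lv x) * X.Y ω v b

/-- Two points of one atom. -/
def At (x : ℚ) (ω v : Ω) : Prop := ω ∈ X.P.S ∧ v ∈ X.P.S ∧ X.O x ω = X.O x v

/-- The law in the atom of `ω`. -/
noncomputable def fb (x : ℚ) (ω : Ω) : FP Ω := cv X.P (X.O x) (X.O x ω)

/-- The vectors of the pairs are bounded. -/
def Box (x : ℚ) (u : ℝ) : Prop := ∀ ω v, X.At x ω v → ∀ b, |X.co wt x ω v b| ≤ Real.exp u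

variable [Fintype κ]

/-- The form `l` is small on the pairs. -/
def Hy (l : Ω → κ → ℝ) (x : ℚ) (θ : ℝ) : Prop :=
  ∀ ω v, X.At x ω v → |∑ b, l ω b * X.co wt x ω v b| ≤ θ

/-- The vectors of the pairs are close to the image of `A`. -/
def Inc (A : Ω → κ → κ → ℝ) (x : ℚ) (w : ℝ) : Prop :=
  ∀ ω v, X.At x ω v → Im (A ω) (Real.exp (-w)) (X.co wt x ω v)

/-- The brackets of the columns are close to the image of `A`. -/
def Sb (c : κ → κ → κ → ℝ) (A : Ω → κ → κ → ℝ) (w : ℝ) : Prop :=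
  ∀ ω ∈ X.P.S, ∀ a b, Im (A ω) (Real.exp (-w)) (cA c (A ω) a b)

/-- The form `l` is small on the pairs of points of `E` in the atom `z`. -/
def Thin (x : ℚ) (z : Λ) (l : κ → ℝ) (h : ℝ) (E : Ω → Prop) : Prop :=
  ∀ v v', X.At x v v' → X.O x v = z → E v → E v' → |∑ b, l b * X.co wt x v v' b| ≤ Real.exp (-h)

/-- No unit form that kills the brackets is small on the pairs of a large part of an atom. -/
def Ac (c : κ → κ → κ → ℝ) (S : Finset κ) (L : ℝ) (A : Ω → κ → κ → ℝ) (x : ℚ) (u w : ℝ) : Prop :=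
  ∀ ω ∈ X.P.S, ∀ h : ℝ, h ≤ w → ∀ l E, Fm c S (A ω) (Real.exp (-h)) l → ∑ b, |l b| = 1 →
    X.Thin wt x (X.O x ω) l h E → pb (X.fb x ω) E ≤ Real.exp (u - h / L)

theorem mo_ac (c : κ → κ → κ → ℝ) (S : Finset κ) (L : ℝ) (A : Ω → κ → κ → ℝ) (x : ℚ) :
    Mo (X.Ac wt c S L A x) := fun _ _ _ _ b c d ω hω h e l E f f' g =>
  (d ω hω h (e.trans c) l E f f' g).trans (ex_le (by linarith))

theorem mo_sb (c : κ → κ → κ → ℝ) (A : Ω → κ → κ → ℝ) : Mo fun _ w => X.Sb c A w :=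
  fun _ _ _ _ _ c d ω e a b i => (d ω e a b i).trans (ex_le (neg_le_neg c))

theorem mo_inc (A : Ω → κ → κ → ℝ) (x : ℚ) : Mo fun _ w => X.Inc wt A x w :=
  fun _ _ _ _ _ c d ω v e b => (d ω v e b).trans (ex_le (neg_le_neg c))

omit [Fintype κ] in
theorem At.res {X : Pr κ Ω Λ} {G : Ω → Prop} {x : ℚ} {ω v : Ω} (h : (X.res G).At x ω v) :
    X.At x ω v := ⟨cE_sub h.1, cE_sub h.2.1, h.2.2⟩

end Pr

section Seq

variable {κ : Type} {Ω Ω' Λ : ℕ → Type}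

/-- The laws. -/
abbrev sP (X : ∀ n, Pr κ (Ω n) (Λ n)) : ∀ n, FP (Ω n) := fun n => (X n).P

/-- The units. -/
abbrev sM (X : ∀ n, Pr κ (Ω n) (Λ n)) : ℕ → ℕ := fun n => (X n).M

/-- The atoms. -/
abbrev sO (X : ∀ n, Pr κ (Ω n) (Λ n)) (x : ℚ) : ∀ n, Ω n → Λ n := fun n => (X n).O x

/-- The event `G` is not power small, also in the atoms that it meets. -/
structure Trm (X : ∀ n, Pr κ (Ω n) (Λ n)) (G : ∀ n, Ω n → Prop) : Prop where
  top : ∀ c : ℝ, 0 < c → ∀ᶠ n in UF, dl (sM X) c n ≤ pb (X n).P (G n)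
  fb : ∀ (x : ℚ) (c : ℝ), 0 < c → ∀ᶠ n in UF, ∀ ω ∈ (X n).P.S, G n ω →
    dl (sM X) c n ≤ pb ((X n).fb x ω) (G n)

/-- A closed class. -/
structure Cls (wt : κ → ℝ) (K : (∀ n, Pr κ (Ω n) (Λ n)) → Prop) : Prop where
  cf : CF K
  idx : ∀ X (a e : ℚ), 0 < e → e ≤ 1 → K X → K fun n => (X n).idx a e
  res : ∀ X G, K X → Trm X G → K fun n => (X n).res (G n)
  big : ∀ X, K X → Big (sM X)
  lv : ∀ X, K X → ∀ a : ℚ,
    Eqv (sM X) (fun n => (X n).lv a - (X n).lv 0) fun n => (a : ℝ) * (X n).M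
  nest : ∀ X, K X → ∀ a a', a ≤ a' → FnE (sP X) (sO X a) (sO X a')
  box : ∀ X, K X → ∀ (x : ℚ) (c : ℝ), 0 < c → ∀ᶠ n in UF, (X n).Box wt x (c * (X n).M)

variable [Fintype κ] [DecidableEq κ] (wt : κ → ℝ) (c : κ → κ → κ → ℝ) (S : Finset κ) (C L : ℝ)

/-- The increments at the levels in `p` lie in the image of `A`, which is closed under `c`. -/
structure HI (p : ℚ → Prop) (X : ∀ n, Pr κ (Ω n) (Λ n)) (A : ∀ n, Ω n → κ → κ → ℝ) : Prop where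
  sh : ∀ᶠ n in UF, ∀ ω ∈ (X n).P.S, Sh wt S C ((X n).W ω) (A n ω)
  sb : ∀ T : ℝ, ∀ᶠ n in UF, (X n).Sb c (A n) (T * (X n).M)
  fn : ∀ x, p x → FnE (sP X) A (sO X x)
  inc : ∀ x, p x → ∀ T : ℝ, ∀ᶠ n in UF, (X n).Inc wt (A n) x (T * (X n).M)

/-- Anti-concentration of pairs at the level `x` up to the depth `T M`. -/
def HC (X : ∀ n, Pr κ (Ω n) (Λ n)) (A : ∀ n, Ω n → κ → κ → ℝ) (x : ℚ) (T : ℝ) : Prop :=
  ∀ ε : ℝ, 0 < ε → ∀ᶠ n in UF, (X n).Ac wt c S L (A n) x (ε * (X n).M) (T * (X n).M)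

/-- The subspace of the increments is minimal. -/
structure HA (X : ∀ n, Pr κ (Ω n) (Λ n)) (A : ∀ n, Ω n → κ → κ → ℝ) : Prop
    extends HI wt c S C (fun _ => True) X A where
  ac : ∀ x T, HC wt c S L X A x T

theorem cf_hi (p : ℚ → Prop) :
    CF fun Z : ∀ n, Pr κ (Ω n) (Λ n) × (Ω n → κ → κ → ℝ) =>
      HI wt c S C p (fun n => (Z n).1) fun n => (Z n).2 := by
  let T := fun n => Pr κ (Ω n) (Λ n) × (Ω n → κ → κ → ℝ)
  exact ((cf_ev (S := T) fun _ z => ∀ ω ∈ z.1.P.S, Sh wt S C (z.1.W ω) (z.2 ω)).and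
    ((LC.cf_au (S := T) (fun _ z => z.1.M) (fun _ z _ w => z.1.Sb c z.2 w)
      fun _ z => z.1.mo_sb c z.2).and
    ((cf_all fun x => cf_all fun _ : p x => cf_ev (S := T) fun _ z => Fn z.1.P z.2 (z.1.O x)).and
      (cf_all fun x => cf_all fun _ : p x => LC.cf_au (S := T) (fun _ z => z.1.M)
        (fun _ z _ w => z.1.Inc wt z.2 x w) fun _ z => z.1.mo_inc wt z.2 x)))).congr fun Z =>
    ⟨fun h => ⟨h.sh, fun _ _ => h.sb, h.fn, fun x a _ _ => h.inc x a⟩,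
      fun h => ⟨h.1, h.2.1 1 one_pos, h.2.2.1, fun x a => h.2.2.2 x a 1 one_pos⟩⟩

omit [DecidableEq κ] in
theorem cf_hc (x : ℚ) (T : ℝ) : CF fun Z : ∀ n, Pr κ (Ω n) (Λ n) × (Ω n → κ → κ → ℝ) =>
    HC wt c S L (fun n => (Z n).1) (fun n => (Z n).2) x T :=
  cf_eps (p := fun ε n (y : Pr κ (Ω n) (Λ n) × (Ω n → κ → κ → ℝ)) =>
    y.1.Ac wt c S L y.2 x (ε * y.1.M) (T * y.1.M)) fun _ _ _ y _ b =>
    y.1.mo_ac wt c S L y.2 x _ _ _ _ (mul_le_mul_of_nonneg_right b (Nat.cast_nonneg _)) le_rfl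

variable {wt c S C L} {X : ∀ n, Pr κ (Ω n) (Λ n)} {A : ∀ n, Ω n → κ → κ → ℝ} {p p' : ℚ → Prop}

omit [DecidableEq κ] in
theorem HC.mono {x : ℚ} {T T' : ℝ} (h : HC wt c S L X A x T) (e : T' ≤ T) :
    HC wt c S L X A x T' := fun ε hε => (h ε hε).mono fun n => (X n).mo_ac wt c S L _ x _ _ _ _
  le_rfl (mul_le_mul_of_nonneg_right e (Nat.cast_nonneg _))

theorem cf_ha (wt : κ → ℝ) (c : κ → κ → κ → ℝ) (S : Finset κ) (C L : ℝ) :
    CF fun Z : ∀ n, Pr κ (Ω n) (Λ n) × (Ω n → κ → κ → ℝ) =>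
      HA wt c S C L (fun n => (Z n).1) fun n => (Z n).2 := by
  have h := (cf_hi (Ω := Ω) (Λ := Λ) wt c S C fun _ => True).and
    (cf_all fun x => cf_all fun T : ℕ => cf_hc wt c S L x T)
  exact CF.congr h fun _ => ⟨fun h => ⟨h.toHI, fun x T => h.ac x T⟩,
    fun h => ⟨h.1, fun x T => (h.2 x ⌈T⌉₊).mono (Nat.le_ceil T)⟩⟩

omit [Fintype κ] [DecidableEq κ] in
theorem fl_le (X : ∀ n, Pr κ (Ω n) (Λ n)) (a : ℚ) {e : ℚ} (he : 0 < e) (n : ℕ) :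
    (((X n).idx a e).M : ℝ) ≤ e * (X n).M := Nat.floor_le (by positivity)

omit [Fintype κ] [DecidableEq κ] in
theorem fl_mul (X : ∀ n, Pr κ (Ω n) (Λ n)) (a : ℚ) {e : ℚ} (he : 0 < e) (T : ℝ) (n : ℕ) :
    T * ((X n).idx a e).M ≤ |T| * e * (X n).M := (mul_le_mul (le_abs_self T) (fl_le X a he n)
  (Nat.cast_nonneg _) (abs_nonneg _)).trans_eq (mul_assoc _ _ _).symm

theorem HI.idx (h : HI wt c S C p X A) (a : ℚ) {e : ℚ} (he : 0 < e)
    (hp : ∀ x, p' x → p (a + e * x)) : HI wt c S C p' (fun n => (X n).idx a e) A :=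
  ⟨h.sh, fun T => (h.sb (|T| * e)).mono fun n =>
    (X n).mo_sb c (A n) 0 0 _ _ le_rfl (fl_mul X a he T n), fun x b => h.fn _ (hp x b),
    fun x b T => (h.inc _ (hp x b) (|T| * e)).mono fun n =>
    (X n).mo_inc wt (A n) _ 0 0 _ _ le_rfl (fl_mul X a he T n)⟩

omit [DecidableEq κ] in
theorem HC.idx (hM : Big (sM X)) {a e x : ℚ} {T T' : ℝ} (h : HC wt c S L X A (a + e * x) T)
    (he : 0 < e) (h0 : 0 ≤ T') (h1 : T' * e ≤ T) : HC wt c S L (fun n => (X n).idx a e) A x T' :=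
  fun ε hc => by
  have e0 : (0 : ℝ) < e := by exact_mod_cast he
  filter_upwards [h (ε * (e / 2)) (by positivity), (LC.eqv_floor hM e0).2 _ (half_pos e0)]
    with n u v
  have m0 : (0 : ℝ) ≤ (X n).M := Nat.cast_nonneg _
  refine (X n).mo_ac wt c S L _ _ _ _ _ _ ?_
    ((mul_le_mul_of_nonneg_left (fl_le X a he n) h0).trans (by nlinarith)) u
  rw [mul_assoc]
  exact mul_le_mul_of_nonneg_left (by simp only [un, Pr.idx] at v ⊢; linarith) hc.le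

theorem HA.idx (hM : Big (sM X)) (h : HA wt c S C L X A) (a : ℚ) {e : ℚ} (he : 0 < e) :
    HA wt c S C L (fun n => (X n).idx a e) A :=
  ⟨h.toHI.idx a he fun _ _ => trivial, fun _ T =>
    (HC.idx hM (h.ac _ _) he (abs_nonneg T) le_rfl).mono (le_abs_self T)⟩

variable {Q : ∀ n, FP (Ω' n)} {ρ : ∀ n, Ω' n → Ω n}

theorem HI.pull (h : HI wt c S C p X A) (e : ∀ᶠ n in UF, ∀ v ∈ (Q n).S, ρ n v ∈ (X n).P.S) :
    HI wt c S C p (fun n => (X n).pull (Q n) (ρ n)) fun n v => A n (ρ n v) :=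
  ⟨(h.sh.and e).mono fun _ a v hv => a.1 _ (a.2 v hv),
    fun T => ((h.sb T).and e).mono fun _ a v hv => a.1 _ (a.2 v hv),
    fun x b => ((h.fn x b).and e).mono fun _ a u hu v hv => a.1 _ (a.2 u hu) _ (a.2 v hv),
    fun x b T => ((h.inc x b T).and e).mono fun _ a u v k =>
      a.1 _ _ ⟨a.2 u k.1, a.2 v k.2.1, k.2.2⟩⟩

omit [DecidableEq κ] in
/-- Anti-concentration passes to laws that are dominated in the atoms. -/
theorem HC.pull {x : ℚ} {T : ℝ} (h : HC wt c S L X A x T)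
    (e : ∀ᶠ n in UF, ∀ v ∈ (Q n).S, ρ n v ∈ (X n).P.S)
    (d : ∀ ε : ℝ, 0 < ε → ∀ᶠ n in UF, ∀ v ∈ (Q n).S, ∀ E : Ω n → Prop,
      pb (((X n).pull (Q n) (ρ n)).fb x v) (fun u => E (ρ n u)) ≤
        Real.exp (ε * (X n).M) * pb ((X n).fb x (ρ n v)) E) :
    HC wt c S L (fun n => (X n).pull (Q n) (ρ n)) (fun n v => A n (ρ n v)) x T := fun ε hc => by
  filter_upwards [h _ (half_pos hc), e, d _ (half_pos hc)] with n a b f v hv t ht l E l0 l1 l2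
  have := a _ (b v hv) t ht l (fun y => ∃ u ∈ (Q n).S, E u ∧ ρ n u = y) l0 l1 (by
    rintro _ _ k1 k2 ⟨u, u1, u2, rfl⟩ ⟨u', u3, u4, rfl⟩
    exact l2 u u' ⟨u1, u3, k1.2.2⟩ k2 u2 u4)
  refine (pb_mono fun u hu k => ?_).trans ((f v hv _).trans
    ((mul_le_mul_of_nonneg_left this (Real.exp_pos _).le).trans ?_))
  · exact ⟨u, cE_sub hu, k, rfl⟩
  · rw [← Real.exp_add]
    exact ex_le (by linarith)

omit [Fintype κ] [DecidableEq κ] in
theorem Trm.mem {G : ∀ n, Ω n → Prop} (g : Trm X G) :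
    ∀ᶠ n in UF, ∀ ω ∈ (cE (X n).P (G n)).S, ω ∈ (X n).P.S ∧ G n ω :=
  (g.top 1 one_pos).mono fun _ a ω => (mem_cE (ex_of_pb ((G39.dl_pos _ _ _).trans_le a)) ω).1

theorem HI.res (h : HI wt c S C p X A) (G : ∀ n, Ω n → Prop) :
    HI wt c S C p (fun n => (X n).res (G n)) A :=
  h.pull (ρ := fun _ => id) (.of_forall fun _ _ => cE_sub)

theorem HA.res (h : HA wt c S C L X A) {G : ∀ n, Ω n → Prop} (g : Trm X G) :
    HA wt c S C L (fun n => (X n).res (G n)) A :=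
  ⟨h.toHI.res G, fun x T =>
    (h.ac x T).pull (ρ := fun _ => id) (.of_forall fun _ _ => cE_sub) fun c hc =>
      (g.mem.and (g.fb x c hc)).mono fun _ a v hv E =>
        LC.pb_res (a.1 v hv).1 (a.1 v hv).2 (a.2 v (a.1 v hv).1 (a.1 v hv).2) E⟩

end Seq

/-- A closed class with a member whose increments lie in a graded subalgebra has a member with
a minimal graded subalgebra. -/
def SPac : Prop := ∀ (κ : Type) [Fintype κ] [DecidableEq κ] (Ω Λ : ℕ → Type) (wt : κ → ℝ)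
  (c : κ → κ → κ → ℝ) (K : (∀ n, Pr κ (Ω n) (Λ n)) → Prop) (S₀ : Finset κ) (C₀ : ℝ)
  (X₀ : ∀ n, Pr κ (Ω n) (Λ n)) (A₀ : ∀ n, Ω n → κ → κ → ℝ), (∀ b, 0 ≤ wt b) →
  (∀ a b e, c a b e ≠ 0 → wt e = wt a + wt b) → Cls wt K → K X₀ →
  HI wt c S₀ C₀ (0 ≤ ·) X₀ A₀ → ∃ S C L X A, S ⊆ S₀ ∧ 1 ≤ L ∧ K X ∧ HA wt c S C L X A

end Pool.Agent.MP_5168f5_an.QA.PA
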