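import Pool.Agent.MP_5168f5_an.QA.T1Cl
import Pool.Agent.MP_5168f5_an.QA.En5D
import Pool.Agent.MP_5168f5_an.QA.PacD

/-! The base class of the local part: labels, frames and the subspace of the increments. -/

namespace Pool.Agent.MP_5168f5_an.QA.AB

open H19 H17S H17F R4 AN Filter MvPolynomial
open G39 (dl)
open C1 (Dg)
open GA (Mt)
open N2 (Uni Bd El eB eW)
open Fr (act Sp Su Far)

/-- Frames: a base level, depths, the reference frame and the position. -/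
structure Fd (N D m : ℕ) (Ω : Type) : Type where
  b : ℝ
  T : Fin m → ℝ
  E : Ω → Fin m → VD N D
  J : Ω → Mt (Fin m)

variable {N D m : ℕ}

/-- The own frame. -/
noncomputable def Fd.f {Ω : Type} (F : Fd N D m Ω) (ω : Ω) : Fin m → VD N D :=
  act (F.J ω)⁻¹ (F.E ω)

/-- Pull back. -/
abbrev Fd.pull {Ω W : Type} (F : Fd N D m Ω) (π : W → Ω) : Fd N D m W :=
  ⟨F.b, F.T, fun v => F.E (π v), fun v => F.J (π v)⟩

/-- The level above the base. -/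
def lb (X : St N D) (F : Fd N D m X.Ω) (x : ℚ) : ℝ := X.lv x - F.b

/-- The lengths of the own frame at the level `x`. -/
noncomputable def rd (la : Fin m → ℝ) (X : St N D) (F : Fd N D m X.Ω) (x : ℚ) (a : Fin m) : ℝ :=
  Real.exp (-(la a * lb X F x))

/-- The pattern: lower for the clusters, and the row `τ` meets only the column `o`. -/
def Pt (kk la : Fin m → ℝ) (o τ : Fin m) (a : El la) : Prop :=
  kk a.1.2 < kk a.1.1 ∧ (a.1.1 = τ → a.1.2 = o)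

/-- The vectors with the pattern. -/
def pat (kk la : Fin m → ℝ) (o τ : Fin m) : Submodule ℝ (El la → ℝ) where
  carrier := {t | ∀ a, ¬Pt kk la o τ a → t a = 0}
  add_mem' := fun a b p h => by simp [a p h, b p h]
  zero_mem' := fun _ _ => rfl
  smul_mem' := fun c _ a p h => by simp [a p h]

/-- The increments of pairs. -/
noncomputable def pr (kk la : Fin m → ℝ) (o τ : Fin m) (X : St N D) (F : Fd N D m X.Ω) :
    PA.Pr (El la) X.Ω (Ln N × ℤ) :=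
  ⟨X.P, X.u, lb X F, X.O, fun ω v => GA.lg (eB la) (F.J ω) (F.J v), fun _ => pat kk la o τ⟩

/-- The letter: the matrix of a column. -/
noncomputable def lt (la : Fin m → ℝ) (A : El la → El la → ℝ) (a : El la) : Mt (Fin m) :=
  GA.vec (eB la) (PA.col A a)

/-- A closed class of tangent systems. -/
structure Cl0 (E : ℕ) (η θ β js Γ : ℝ) (sl : ℕ → ℝ) (K : (ℕ → St N D) → Prop) : Prop where
  cf : CF K
  idx : ∀ X (a e : ℚ), 0 < e → e ≤ 1 → K X → K fun n => (X n).idx sl js a e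
  res : ∀ X G, K X → Trm X G → K fun n => (X n).res (G n)
  tq : ∀ X, K X → Tq X E η θ β js Γ sl

variable (kk la : Fin m → ℝ) (o τ : Fin m)

/-- The model at all levels. -/
structure MI (X : ℕ → St N D) (F : ∀ n, Fd N D m (X n).Ω) : Prop where
  ko : ∀ a, a ≠ o → kk o < kk a
  lo : la o = 0
  lτ : la τ = lg
  near : ∀ a b, kk a = kk b → la a = la b ∧ Sm (uu X) fun n => (F n).T a - (F n).T b
  far : ∀ a b, kk a < kk b → Far (uu X) (fun n => (F n).T a + la a * lb (X n) (F n) 0)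
    fun n => (F n).T b + la b * lb (X n) (F n) 0
  fe : ∀ x, FnE (PP X) (fun n => (F n).E) fun n => (X n).O x
  few : ∀ x, Su (PP X) (uu X) fun n ω Γ => ∃ U : Finset (Fin m → VD N D), (U.card : ℝ) ≤ Γ ∧
    ∀ v ∈ (X n).P.S, ((X n).S x v).ν = ((X n).S x ω).ν → (F n).E v ∈ U
  eo : ∀ᶠ n in UF, ∀ ω ∈ (X n).P.S, ((F n).E ω o).1 = 1 ∧
    ∃ t : ℝ, ((F n).E ω τ).1 = C (Real.exp (lg * (F n).b)) * MvPolynomial.X 0 - C t
  uj : ∀ᶠ n in UF, ∀ ω ∈ (X n).P.S, Uni kk ((F n).J ω)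
  row : ∀ᶠ n in UF, ∀ ω ∈ (X n).P.S, ∀ q, q ≠ o → (F n).J ω τ q = (1 : Mt (Fin m)) τ q
  sp : ∀ᶠ n in UF, ∀ ω ∈ (X n).P.S, Sp ((F n).f ω)
  dB : Su (PP X) (uu X) fun n ω Γ => Dg Bn ((F n).f ω) (fun a => Real.exp ((F n).T a)) Γ
  dg : ∀ x, Su (PP X) (uu X) fun n ω Γ =>
    Dg ((X n).S x ω).ν ((F n).f ω) (rd la (X n) (F n) x) Γ
  up : ∀ x, ∀ᶠ n in UF, ∀ ω ∈ (X n).P.S, ∀ v ∈ (X n).P.S, (X n).O x v = (X n).O x ω →
    Uni la (((F n).J ω)⁻¹ * (F n).J v)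
  inc : ∀ x, Su (PP X) (uu X) fun n ω Γ => ∀ v ∈ (X n).P.S, (X n).O x v = (X n).O x ω →
    Bd (rd la (X n) (F n) x) Γ (((F n).J ω)⁻¹ * (F n).J v)
  ev : ∀ K : ℝ, ∀ᶠ n in UF, ∀ ω ∈ (X n).P.S, ∀ p,
    |eval ((X n).g.tp ω) ((F n).f ω p).1 - (1 : Mt (Fin m)) p o| ≤
      dl (uu X) K n * rd la (X n) (F n) 0 p

/-- The model together with the minimal subspace of the increments. -/
structure FM (S : Finset (El la)) (C L : ℝ) (X : ℕ → St N D) (F : ∀ n, Fd N D m (X n).Ω)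
    (A : ∀ n, (X n).Ω → El la → El la → ℝ) : Prop extends MI kk la o τ X F where
  ha : PA.HA (eW la) 0 S C L (fun n => pr kk la o τ (X n) (F n)) A

/-- The model of the frames gives the model at all levels. -/
def SMI : Prop := ∀ (N D m E : ℕ) (X : ℕ → St N D) (η θ β js Γ Ga R : ℝ) (sl : ℕ → ℝ)
  (T : Fin m → ℕ → ℝ) (kk la : Fin m → ℝ) (o τ : Fin m) (Z : ℕ → ℕ)
  (TT e : ∀ n, (X n).Ω → Fin m → VD N D) (t₀ : ∀ n, (X n).Ω → ℝ)
  (j : ∀ n, (X n).Ω → Mt (Fin m)), 1 ≤ D → Tq X E η θ β js Γ sl →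
  Fr.NF (PP X) (uu X) Bn (nuX X) T kk la Ga →
  Fr.Mod (PP X) (uu X) Bn (nuX X) T kk la (fun x n => (X n).O x) v1 (vx 0) (ptX X)
    (fun n => 2 ^ (X n).lv 0) lg o τ R Z TT e t₀ j → Big Z →
  MI kk la o τ X fun n => ⟨(X n).lv 0, fun a => T a n, e n, j n⟩

/-- A closed class with a model has a member with the minimal subspace. -/
def SAB : Prop := ∀ (N D m E : ℕ) (η θ β js Γ : ℝ) (sl : ℕ → ℝ) (K : (ℕ → St N D) → Prop)
  (kk la : Fin m → ℝ) (o τ : Fin m) (X₀ : ℕ → St N D) (F₀ : ∀ n, Fd N D m (X₀ n).Ω),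
  Cl0 E η θ β js Γ sl K → K X₀ → MI kk la o τ X₀ F₀ → ∃ (S : Finset (El la)) (C L : ℝ)
    (X : ℕ → St N D) (F : ∀ n, Fd N D m (X n).Ω) (A : ∀ n, (X n).Ω → El la → El la → ℝ),
    1 ≤ L ∧ K X ∧ FM kk la o τ S C L X F A ∧ ∀ n, (F n).b = (X n).lv 0

end Pool.Agent.MP_5168f5_an.QA.AB
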