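import Pool.Agent.MP_5168f5_an.AN.C1Rho

/-! Euclidean norms: axes, the meet, the gain of the meet, a net with short lists. -/

namespace Pool.Agent.MP_5168f5_an.QA.NJ

open Finset AN.C1

variable {V : Type} [AddCommGroup V] [Module ℝ V] {m : ℕ} {ν ν' μ B : V → ℝ}

/-- The norm with axes `b` and lengths `l`. -/
noncomputable def dn (b : Module.Basis (Fin m) ℝ V) (l : Fin m → ℝ) (x : V) : ℝ :=
  ‖(WithLp.toLp 2 fun i => l i * b.repr x i : EuclideanSpace ℝ (Fin m))‖

theorem dn_hb (b : Module.Basis (Fin m) ℝ V) {l : Fin m → ℝ} (hl : ∀ i, 0 < l i) : Hb (dn b l) :=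
  ⟨Fin m, inferInstance, (WithLp.linearEquiv 2 ℝ (Fin m → ℝ)).symm.toLinearMap ∘ₗ
    LinearMap.pi fun i => l i • b.coord i, (injective_iff_map_eq_zero _).2 fun x e =>
      b.repr.injective (by
        ext i
        have := congrArg (fun v : EuclideanSpace ℝ (Fin m) => v i) e
        simpa [(hl i).ne'] using this), fun _ => rfl⟩

theorem dn_dg (b : Module.Basis (Fin m) ℝ V) {l : Fin m → ℝ} (hl : ∀ i, 0 < l i) :
    Dg (dn b l) b l 1 := by
  classical
  refine ⟨fun i => ?_, fun c i => ?_⟩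
  · have : (WithLp.toLp 2 fun j => l j * b.repr (b i) j : EuclideanSpace ℝ (Fin m)) =
        EuclideanSpace.single i (l i) := by
      ext j
      by_cases h : j = i <;> simp [h]
    rw [dn, this, PiLp.norm_single, one_mul, Real.norm_eq_abs, abs_of_pos (hl i)]
  · have := PiLp.norm_apply_le (WithLp.toLp 2 fun j => l j * b.repr (∑ j, c j • b j) j :
      EuclideanSpace ℝ (Fin m)) i
    rw [one_mul, dn]
    refine le_trans (le_of_eq ?_) this
    rw [b.repr_sum_self, Real.norm_eq_abs, abs_mul, abs_of_pos (hl i), mul_comm]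

theorem coord {b : Module.Basis (Fin m) ℝ V} {l : Fin m → ℝ} (h : Dg ν b l 1) (x : V) (i : Fin m) :
    |b.repr x i| * l i ≤ ν x := by
  have := h.2 (b.repr x) i
  rwa [b.sum_repr, one_mul] at this

theorem upp {b : Module.Basis (Fin m) ℝ V} {l : Fin m → ℝ} (h : Dg ν b l 1) (hν : Hb ν) {x : V}
    {t : ℝ} (e : ∀ i, |b.repr x i| * l i ≤ t) : ν x ≤ m * t := by
  have := h.upper hν zero_le_one e
  rwa [b.sum_repr, mul_one, Fintype.card_fin] at this

theorem cmp {b : Module.Basis (Fin m) ℝ V} {l l' : Fin m → ℝ} (h : Dg ν b l 1) (h' : Dg ν' b l' 1)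
    (hν : Hb ν) {s : ℝ} (hs : 0 ≤ s) (e : ∀ i, l i ≤ s * l' i) (x : V) : ν x ≤ m * s * ν' x := by
  simpa using h.cmp h' hν zero_le_one hs e b.span_eq.ge x

theorem pk_succ (l : Fin m → ℝ) (i : Fin m) : pk l (i + 1) = pk l i * l i := by
  unfold pk
  rw [mul_comm, ← prod_insert (by simp)]
  congr 1
  ext j
  simp only [mem_filter, mem_univ, true_and, mem_insert, Fin.ext_iff]
  omega

theorem pk_pos {l : Fin m → ℝ} (h : ∀ i, 0 < l i) (k : ℕ) : 0 < pk l k := prod_pos fun i _ => h i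

/-- Sorted axes of `ν` against `B`. -/
structure Ax (B ν : V → ℝ) (b : Module.Basis (Fin m) ℝ V) (l : Fin m → ℝ) : Prop where
  pos : ∀ i, 0 < l i
  anti : Antitone l
  db : Dg B b (fun _ => 1) 1
  dg : Dg ν b l 1

theorem Ax.dn {b : Module.Basis (Fin m) ℝ V} {l l' : Fin m → ℝ} (h : Ax B ν b l)
    (p : ∀ i, 0 < l' i) (a : Antitone l') : Ax B (dn b l') b l' := ⟨p, a, h.db, dn_dg b p⟩

theorem top (m : ℕ) : ∃ K : ℝ, 1 ≤ K ∧ ∀ (V : Type) [AddCommGroup V] [Module ℝ V] (B ν : V → ℝ)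
    (b : Module.Basis (Fin m) ℝ V) (l : Fin m → ℝ), Hb B → Hb ν → Ax B ν b l → ∀ k ≤ m,
    Ap K (rho k ν B) (pk l k) := by
  obtain ⟨C, hC⟩ := topK m
  refine ⟨2 ^ C, one_le_pow₀ one_le_two, fun V _ _ B ν b l hB hν h k hk => ?_⟩
  simpa using hC V ν B b l (fun _ => 1) 2 hν hB le_rfl b.span_eq.ge h.pos (fun _ => one_pos)
    (h.dg.mono hν.nonneg (fun i => (h.pos i).le) one_le_two)
    (h.db.mono hB.nonneg (fun _ => zero_le_one) one_le_two) (by simpa using h.anti) k hk

variable [FiniteDimensional ℝ V]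

theorem two (rk : Module.finrank ℝ V = m) (hB : Hb B) (hν : Hb ν) :
    ∃ b : Module.Basis (Fin m) ℝ V, ∃ l, Ax B ν b l := by
  obtain ⟨e, l, l0, -, d, d'⟩ := rTwo V B ν (Fin m) (Module.finBasisOfFinrankEq ℝ V rk) hB hν
    (Module.Basis.linearIndependent _)
  let σ := Tuple.sort fun i => -l i
  have li := (d.perm σ).li hB fun _ => one_pos
  have e1 : ⇑(Module.Basis.mk li (li.span_eq_top_of_card_eq_finrank' (by simp [rk])).ge) =
    e ∘ σ := Module.Basis.coe_mk _ _
  refine ⟨Module.Basis.mk li (li.span_eq_top_of_card_eq_finrank' (by simp [rk])).ge, l ∘ σ,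
    fun _ => l0 _, fun i j h => neg_le_neg_iff.1 (Tuple.monotone_sort (fun i => -l i) h), ?_, ?_⟩
  · rw [e1]; exact d.perm σ
  · rw [e1]; exact d'.perm σ

/-- The meet of two norms. -/
theorem meet (rk : Module.finrank ℝ V = m) (h : Hb ν) (h' : Hb ν') : ∃ μ, Hb μ ∧
    (∀ x, μ x ≤ m * (m + 1) * ν x ∧ μ x ≤ m * (m + 1) * ν' x) ∧
    ∀ φ, Adm ν φ → Adm ν' φ → Adm μ φ := by
  obtain ⟨b, l, a⟩ := two rk h h'
  have p : ∀ i, 0 < (m + 1 : ℝ) * min 1 (l i) := fun i => by have := a.pos i; positivity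
  refine ⟨dn b _, dn_hb b p, fun x => ⟨cmp (dn_dg b p) a.db (dn_hb b p) (by positivity)
    (fun i => by gcongr; exact min_le_left _ _) x, cmp (dn_dg b p) a.dg (dn_hb b p) (by positivity)
    (fun i => by gcongr; exact min_le_right _ _) x⟩, fun φ u v x => ?_⟩
  have n0 := (dn_hb b p).nonneg x
  refine le_of_mul_le_mul_left ?_ (show (0 : ℝ) < m + 1 by positivity)
  conv_lhs => rw [← b.sum_repr x, map_sum]
  refine (mul_le_mul_of_nonneg_left (abs_sum_le_sum_abs _ _) (by positivity)).trans ?_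
  rw [mul_sum]
  refine (sum_le_card_nsmul _ _ _ fun i _ => le_trans ?_ (coord (dn_dg b p) x i)).trans
    (by simp only [card_univ, Fintype.card_fin, nsmul_eq_mul]; nlinarith)
  rw [map_smul, smul_eq_mul, abs_mul, mul_left_comm]
  gcongr
  exact le_min (by simpa using (u _).trans (a.db.1 i)) (by simpa using (v _).trans (a.dg.1 i))

omit [FiniteDimensional ℝ V] in
theorem le_of_adm (h : Hb ν) (e : ∀ φ, Adm ν φ → Adm μ φ) (x : V) : ν x ≤ μ x := by
  obtain ⟨φ, u, v⟩ := h.dual x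
  exact v ▸ (le_abs_self _).trans (e φ u x)

theorem le_rho1 (h : Hb ν) (h' : Hb ν') (x : V) : ν x ≤ rho 1 ν ν' * ν' x := by
  obtain ⟨φ, u, v⟩ := h.dual x
  have a1 := le_vol (ν := ν) (φ := fun _ : Fin 1 => φ) (fun _ => u) fun _ => x
  have a2 := rLe V ν ν' 1 (fun _ => x) h h'
  have a3 := vol_le_prod h'.nonneg fun _ : Fin 1 => x
  simp only [dt, Matrix.det_unique, Matrix.of_apply, v] at a1
  simp only [Nat.factorial_one, Nat.cast_one, one_mul, Fin.prod_const, pow_one] at a3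
  exact ((le_abs_self _).trans a1).trans (a2.trans
    (mul_le_mul_of_nonneg_left a3 (C1TwoA.rho_nonneg h h')))

/-- A vector that is short for `μ` and long for `ν` lowers the volume. -/
theorem gain (m : ℕ) {Γ : ℝ} (hΓ : 1 ≤ Γ) : ∃ C : ℝ, 1 ≤ C ∧ ∀ (V : Type) [AddCommGroup V]
    [Module ℝ V] [FiniteDimensional ℝ V] (B ν μ : V → ℝ) (b : Module.Basis (Fin m) ℝ V)
    (l : Fin m → ℝ) (k : Fin m) (F : V) (t : ℝ), Hb B → Hb ν → Hb μ → Ax B ν b l →
    (∀ x, μ x ≤ Γ * ν x) → 1 ≤ t → B F ≤ 1 → μ F ≤ t * l k →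
    ν F * rho k μ B ≤ C * t * l k * rho k ν B := by
  obtain ⟨K, K1, hK⟩ := top m
  obtain ⟨C, C0, hC⟩ := rho_le_top m
  refine ⟨max 1 (m * K * K * C * (m * (Γ * m)) ^ m * K * K * m), le_max_left _ _,
    fun V _ _ _ B ν μ b l k F t hB hν hμ a e t1 e1 e2 => ?_⟩
  have rk : Module.finrank ℝ V = m := by simpa using Module.finrank_eq_card_basis b
  have m1 : (1 : ℝ) ≤ m := by exact_mod_cast k.pos
  obtain ⟨g, q, c⟩ := two rk hB hμ
  have s0 := a.pos k
  have p1 : ∀ i, 0 < max (l i) (l k) := fun i => lt_max_of_lt_right s0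
  have p2 : ∀ i, 0 < max (q i) (l k) := fun i => lt_max_of_lt_right s0
  have aP := a.dn p1 fun i j h => max_le_max_right _ (a.anti h)
  have aQ := c.dn p2 fun i j h => max_le_max_right _ (c.anti h)
  set P := dn b fun i => max (l i) (l k)
  set Q := dn g fun i => max (q i) (l k)
  have hP : Hb P := dn_hb b p1
  have hQ : Hb Q := dn_hb g p2
  have u1 : ∀ x, ν x ≤ m * P x := fun x => by
    simpa using cmp a.dg aP.dg hν zero_le_one (fun i => by simp) x
  have u2 : ∀ x, l k * B x ≤ m * P x := fun x => by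
    have := cmp a.db aP.dg hB (s := (l k)⁻¹) (by positivity) (fun i => by
      rw [le_inv_mul_iff₀ s0]; simp) x
    rw [mul_comm (m : ℝ), mul_assoc, le_inv_mul_iff₀ s0] at this
    exact this
  have u3 : ∀ x y, μ x ≤ y → l k * B x ≤ y → Q x ≤ m * y := fun x y h1 h2 =>
    upp aQ.dg hQ fun i => by
      rw [mul_max_of_nonneg _ _ (abs_nonneg _)]
      refine max_le ((coord c.dg x i).trans h1) (le_trans ?_ h2)
      rw [mul_comm]
      exact mul_le_mul_of_nonneg_left (by simpa using coord c.db x i) s0.le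
  have u4 : ∀ x, Q x ≤ m * (Γ * m) * P x := fun x => by
    have := hP.nonneg x
    rw [mul_assoc, mul_assoc]
    exact u3 x _ ((e x).trans (by gcongr; exact u1 x))
      ((u2 x).trans (le_mul_of_one_le_left (by positivity) hΓ))
  have u5 : Q F ≤ m * (t * l k) := u3 F _ e2 (by nlinarith)
  have u6 := hC V P Q _ hP hQ rk (one_le_mul_of_one_le_of_one_le m1
    (one_le_mul_of_one_le_of_one_le hΓ m1)) u4 1 k.pos
  have u7 := rho_add hP hQ hB rk
  set S := ∏ i : Fin m with ¬i.val < k.val, l k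
  have S0 : 0 < S := prod_pos fun _ _ => s0
  have sp : ∀ y : Fin m → ℝ, pk y m = pk y k * ∏ i with ¬i.val < k.val, y i := fun y => by
    rw [pk, pk, prod_filter_mul_prod_filter_not, filter_true_of_mem fun i _ => i.2]
  have v1 : pk (fun i => max (l i) (l k)) m = pk l k * S := by
    rw [sp]
    congr 1
    · exact prod_congr rfl fun i hi => max_eq_left (a.anti (mem_filter.1 hi).2.le)
    · exact prod_congr rfl fun i hi => max_eq_right (a.anti (not_lt.1 (mem_filter.1 hi).2))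
  have v2 : pk q k * S ≤ pk (fun i => max (q i) (l k)) m := by
    rw [sp]
    exact mul_le_mul (prod_le_prod (fun i _ => (c.pos i).le) fun i _ => le_max_left _ _)
      (prod_le_prod (fun i _ => s0.le) fun i _ => le_max_right _ _) S0.le (pk_pos p2 _).le
  have w1 := (hK V B μ g q hB hμ c k k.2.le).1
  have w2 := (hK V B Q g _ hB hQ aQ m le_rfl).2
  have w3 := (hK V B P b _ hB hP aP m le_rfl).1
  have w4 := (hK V B ν b l hB hν a k k.2.le).2
  have r1 := C1TwoA.rho_nonneg (k := m) hQ hB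
  have r2 := C1TwoA.rho_nonneg (k := m) hP hQ
  have r3 := C1TwoA.rho_nonneg (k := k) hν hB
  have r4 := C1TwoA.rho_nonneg (k := k) hμ hB
  have r5 := hQ.nonneg F
  have r6 := hP.nonneg F
  refine le_trans (le_of_mul_le_mul_right ?_ S0)
    (by gcongr; exact le_max_right _ _ : m * K * K * C * (m * (Γ * m)) ^ m * K * K * m * t * l k *
      rho k ν B ≤ _)
  calc ν F * rho k μ B * S ≤ m * P F * (K * pk q k) * S := by gcongr; exact u1 F
    _ = m * P F * K * (pk q k * S) := by ring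
    _ ≤ m * (C * (m * (Γ * m)) ^ m * rho m P Q * (m * (t * l k))) * K * (K * rho m Q B) := by
        have := pk_pos c.pos k
        refine mul_le_mul ?_ (v2.trans w2) (by positivity) (by positivity)
        gcongr
        exact (le_rho1 hP hQ F).trans (by gcongr)
    _ = m * K * K * C * (m * (Γ * m)) ^ m * m * t * l k * rho m P B := by rw [u7]; ring
    _ ≤ m * K * K * C * (m * (Γ * m)) ^ m * m * t * l k * (K * (K * rho k ν B * S)) := by
        gcongr
        exact w3.trans (by rw [v1]; gcongr)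
    _ = _ := by ring

end Pool.Agent.MP_5168f5_an.QA.NJ
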