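import Pool.Agent.MP_5168f5_an.QA.FrAlg
import Pool.Agent.MP_5168f5_an.QA.NJA

/-! The Kakeya maximal estimate: clusters of axes. -/

namespace Pool.Agent.MP_5168f5_an.QA.Fr

open H19 H17S H17F AN Filter Finset
open G39 (dl)
open C1 (Dg Hb rho pk Ap)

theorem sDich : SDich := fun m M T => by
  classical
  refine ⟨fun n => ∑ p : Fin m × Fin m, if Sm M (fun n => T p.2 n - T p.1 n) then
    max (T p.2 n - T p.1 n) 0 else 0, Sm.sum _ fun p _ => ?_, fun M' h h' a b => ?_⟩
  · by_cases k : Sm M fun n => T p.2 n - T p.1 n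
    · simp only [if_pos k]
      exact fun ε hε => (k ε hε).mono fun n e => max_le e (by positivity)
    · simp only [if_neg k]
      exact Le.rfl
  by_cases k : Sm M fun n => T b n - T a n
  · refine Or.inl (h'.mono (Eventually.of_forall fun n => (le_max_left _ 0).trans ?_))
    have := single_le_sum (s := univ) (f := fun p : Fin m × Fin m =>
      if Sm M (fun n => T p.2 n - T p.1 n) then max (T p.2 n - T p.1 n) 0 else 0)
      (fun p _ => by split_ifs <;> simp) (mem_univ (a, b))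
    rwa [if_pos k] at this
  · refine Or.inr fun K => ?_
    obtain ⟨ε, k⟩ := not_forall.1 k
    obtain ⟨hε, k⟩ := Classical.not_imp.1 k
    have p : 0 < |K| + 1 := by positivity
    filter_upwards [not_ev.1 k, h (ε / (|K| + 1)) (by positivity)] with n u v
    have w : (|K| + 1) * (M' n : ℝ) ≤ ε * M n :=
      (mul_le_mul_of_nonneg_left v p.le).trans_eq (by field_simp; ring)
    nlinarith [le_abs_self K, Nat.cast_nonneg (α := ℝ) (M' n)]

namespace AxA

variable {M : ℕ → ℕ} {f g k : ℕ → ℝ}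

theorem tr (h : Far M f g) (h' : Far M g k) : Far M f k := fun K => by
  filter_upwards [h K, h' 0] with n u v
  linarith

theorem sm (h : Far M f g) (h' : Sm M fun n => g n - k n) : Far M f k := fun K => by
  filter_upwards [h (K + 1), h' 1 one_pos] with n u v
  linarith

theorem irr (hM : Big M) : ¬Far M f f := fun h => by
  obtain ⟨n, u, v⟩ := ((h 1).and (hM.ev 1)).exists
  linarith

theorem lg_ap {K x y : ℝ} (h : Ap K x y) (hK : 1 ≤ K) (hy : 0 < y) :
    |Real.log x - Real.log y| ≤ Real.log K := by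
  have k0 : 0 < K := by linarith
  have x0 : 0 < x := pos_of_mul_pos_left ((hy.trans_le h.2).trans_eq (mul_comm _ _)) k0.le
  have a := Real.log_le_log x0 h.1
  have b := Real.log_le_log hy h.2
  rw [Real.log_mul k0.ne' (by positivity)] at a b
  exact abs_le.2 ⟨by linarith, by linarith⟩

variable {V : Type} [AddCommGroup V] [Module ℝ V] [FiniteDimensional ℝ V] {m : ℕ} {Ω : ℕ → Type}
  {P : ∀ n, FP (Ω n)} {B : V → ℝ} {ν : ℚ → ∀ n, Ω n → V → ℝ} {sg : ℕ → ℕ → ℝ} {sl : ℕ → ℝ}
  {Ga : ℝ}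

theorem key (h : NR P M B ν m sg sl Ga) (x : ℚ) {ε : ℝ} (hε : 0 < ε) :
    ∀ᶠ n in UF, ∀ ω ∈ (P n).S, ∃ b l, NJ.Ax B (ν x n ω) b l ∧ ∀ a : Fin m,
      |Real.log (l a) + (sg (a + 1) n - sg a n) + (sl (a + 1) - sl a) * x * M n| ≤ ε * M n := by
  obtain ⟨K, K1, hK⟩ := NJ.top m
  filter_upwards [h.hν x, h.big.sm (Real.log K) _ (by positivity : 0 < ε / 4),
    eventually_all.2 fun j : Fin (m + 1) => h.vol x j (ε / 4) (Nat.lt_succ_iff.1 j.2)
      (by positivity)] with n u v w ω hω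
  obtain ⟨b, l, a⟩ := NJ.two h.rk h.hB (u ω hω)
  refine ⟨b, l, a, fun i => ?_⟩
  have t := fun j hj => abs_le.1 (lg_ap (hK V B _ b l h.hB (u ω hω) a j hj) K1 (NJ.pk_pos a.pos j))
  have t1 := t (i + 1) i.2
  have t0 := t i i.2.le
  have w1 := abs_le.1 (w i.succ ω hω)
  have w0 := abs_le.1 (w i.castSucc ω hω)
  rw [NJ.pk_succ, Real.log_mul (NJ.pk_pos a.pos i).ne' (a.pos i).ne'] at t1
  simp only [Fin.val_succ, Fin.val_castSucc] at w1 w0
  exact abs_le.2 ⟨by linarith, by linarith⟩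

theorem ord (h : NR P M B ν m sg sl Ga) {a b : Fin m} (e : a ≤ b)
    (s : Sm M fun n => sg (b + 1) n - sg b n - (sg (a + 1) n - sg a n)) :
    sl (a + 1) - sl a = sl (b + 1) - sl b := by
  have k : ∀ x : ℚ, (sl (a + 1) - sl a) * x ≤ (sl (b + 1) - sl b) * x := fun x =>
    Le.num h.big fun ε hε => by
      filter_upwards [key h x (by positivity : 0 < ε / 3), s _ (by positivity : 0 < ε / 3)]
        with n u v
      obtain ⟨ω, hω⟩ := nonempty_of_sum_ne_zero ((P n).sum_one.trans_ne one_ne_zero)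
      obtain ⟨_, l, c, d⟩ := u ω hω
      linarith [(abs_le.1 (d a)).2, (abs_le.1 (d b)).1, Real.log_le_log (c.pos b) (c.anti e)]
  have k1 := k 1
  have k2 := k (-1)
  push_cast at k1 k2
  linarith

end AxA

open AxA in
theorem sAx : SAx := fun V _ _ _ m Ω P M B ν sg sl Ga h d => by
  classical
  obtain ⟨T, hT⟩ : ∃ T : Fin m → ℕ → ℝ, T = fun (a : Fin m) n => sg (a + 1) n - sg a n := ⟨_, rfl⟩
  rw [← hT] at d ⊢
  let kk : Fin m → ℝ := fun a => ((univ.filter fun j => Far M (T j) (T a)).card : ℝ)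
  have lt : ∀ a b, Far M (T a) (T b) → kk a < kk b := fun a b e => Nat.cast_lt.2 (card_lt_card
    ⟨fun j hj => mem_filter.2 ⟨mem_univ _, tr (mem_filter.1 hj).2 e⟩,
      fun s => irr h.big (mem_filter.1 (s (mem_filter.2 ⟨mem_univ a, e⟩))).2⟩)
  have le : ∀ a b, (Sm M fun n => T a n - T b n) → kk a ≤ kk b := fun a b e => Nat.cast_le.2
    (card_le_card fun j hj => mem_filter.2 ⟨mem_univ _, sm (mem_filter.1 hj).2 e⟩)
  have ne : ∀ a b, kk a = kk b → Sm M fun n => T a n - T b n := fun a b e =>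
    (d b a).resolve_right fun s => (lt b a s).ne' e
  refine ⟨kk, h.big, h.hB, h.hν, fun a b e => ⟨?_, ne a b e⟩,
    fun a b e => (d a b).resolve_left fun s => (le b a s).not_gt e, fun x => ?_, h.lip⟩
  · rcases le_total a b with s | s
    · exact ord h s (by simpa only [hT] using ne b a e.symm)
    · exact (ord h s (by simpa only [hT] using ne a b e)).symm
  unfold Su
  refine (R4.sub_iff (p := fun n Γ => ∀ ω ∈ (P n).S, ∃ f, Sp f ∧
    Dg B f (fun a => Real.exp (T a n)) Γ ∧ Dg (ν x n ω) f _ Γ)).2 fun ε hε => ?_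
  filter_upwards [key h x hε, h.hν x] with n u v
  have G1 : 1 ≤ Real.exp (ε * M n) := Real.one_le_exp (by positivity)
  refine ⟨_, G1, le_rfl, fun ω hω => ?_⟩
  obtain ⟨b, l, c, e⟩ := u ω hω
  have p : ∀ a, 0 < Real.exp (T a n) := fun _ => Real.exp_pos _
  refine ⟨fun a => Real.exp (T a n) • b a, fun F => ⟨fun a => b.repr F a / Real.exp (T a n), ?_⟩,
    ?_, ?_⟩
  · conv_lhs => rw [← b.sum_repr F]
    exact sum_congr rfl fun a _ => by rw [smul_smul, div_mul_cancel₀ _ (p a).ne']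
  · have := c.db.scale h.hB p
    simp only [mul_one] at this
    exact this.mono h.hB.nonneg (fun a => (p a).le) G1
  · have := dg_chg (ν' := ν x n ω) (l' := fun a : Fin m => dl M ((sl (a + 1) - sl a) * x) n)
      (c.dg.scale (v ω hω) p) zero_le_one zero_le_one (zero_le_one.trans G1)
      (fun F => by simp) fun a => by
        have e1 := abs_le.1 (e a)
        rw [← Real.exp_log (c.pos a), dl, ← Real.exp_add, ← Real.exp_add, ← Real.exp_add, hT]
        exact ⟨Real.exp_le_exp.2 (by linarith), Real.exp_le_exp.2 (by linarith)⟩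
    simpa using this

end Pool.Agent.MP_5168f5_an.QA.Fr
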