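import Pool.Agent.MP_5168f5_an.QA.En5B
import Pool.Agent.MP_5168f5_an.QA.AbD
import Pool.Agent.MP_5168f5_an.QA.FrAx

/-! The maximal estimate in all dimensions: from the tangent system to the base class. -/

namespace Pool.Agent.MP_5168f5_an.QA

open H19 H17S H17F R4 AN Filter AB

variable {N D : ℕ} (E : ℕ) (η θ β js Γ : ℝ) (kf : ℕ → ℕ) (sl : ℕ → ℝ)

/-- Tangent systems with sure flatness and sure bounds. -/
def K0 (X : ℕ → St N D) : Prop := Ts X E η θ β js Γ kf sl ∧ Sur X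

theorem cl0 : Cl0 (N := N) (D := D) E η θ β js Γ sl (K0 E η θ β js Γ kf sl) :=
  ⟨(cf_ts E η θ β js Γ kf sl).and cf_sur,
    fun _ a _ e _ h => ⟨h.1.idx a e, h.2.idx h.1.big sl js a e⟩,
    fun _ G h g => ⟨h.1.res g, h.2.res G⟩, fun _ h => h.1.toTq⟩

variable {E η θ β js Γ kf sl} {X : ℕ → St N D}

theorem K0.ent (h : K0 E η θ β js Γ kf sl X) (hD : 1 ≤ D) :
    Fr.NR (PP X) (uu X) Bn (nuX X) (dV N D) (fun k n => (X n).s0 k) sl Γ ∧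
      Fr.PT (PP X) (uu X) Bn (nuX X) (fun x n => (X n).O x) v1 (vx 0) (ptX X) (drX X)
        (fun n => 2 ^ (X n).lv 0) lg :=
  sEntA N D X η θ Γ sl hD h.1.t1.tb h.1.t1.lip h.2

/-- After a slow zoom the clusters are separated. -/
theorem K0.nf (h : K0 E η θ β js Γ kf sl X) (hD : 1 ≤ D) : ∃ (X' : ℕ → St N D)
    (kk : Fin (dV N D) → ℝ), K0 E η θ β js Γ kf sl X' ∧
    Fr.NF (PP X') (uu X') Bn (nuX X') (fun a n => (X' n).s0 (a + 1) - (X' n).s0 a) kk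
      (fun a => sl (a + 1) - sl a) Γ := by
  obtain ⟨M₀, a, b⟩ := Fr.sDich (dV N D) (uu X) fun a n =>
    ((X n).idx sl js 0 1).s0 (a + 1) - ((X n).idx sl js 0 1).s0 a
  obtain ⟨e, -, c, d, f⟩ := slow (cl0 E η θ β js Γ kf sl).cf h.1.big 0
    (fun e u v => (cl0 E η θ β js Γ kf sl).idx X 0 e u v h) a
  obtain ⟨kk, k⟩ := Fr.sAx _ _ _ _ _ _ _ _ _ _ (c.ent hD).1 (b _ d f)
  exact ⟨_, kk, c, k⟩

/-- A tangent system gives a member of the base class. -/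
theorem T1.toFM (t : T1 X E η θ β js Γ kf sl) (hM : Fr.SMod) (hI : SMI) (hA : SAB) (hZ : ZL N D)
    (hD : 1 ≤ D) (e0 : 0 < η) (e1 : η ≤ 1) (t0 : 0 ≤ θ)
    (t1 : 2 * (dV N D + 1) * θ ≤ η ^ dV N D) : ∃ (kk la : Fin (dV N D) → ℝ) (o τ : Fin (dV N D))
    (S : Finset (N2.El la)) (C L : ℝ) (X' : ℕ → St N D) (F : ∀ n, Fd N D (dV N D) (X' n).Ω)
    (A : ∀ n, (X' n).Ω → N2.El la → N2.El la → ℝ), (∀ a : Fin (dV N D), la a = sl (a + 1) - sl a) ∧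
      1 ≤ L ∧ K0 E η θ β js Γ kf sl X' ∧ FM kk la o τ S C L X' F A ∧
      ∀ n, (F n).b = (X' n).lv 0 := by
  obtain ⟨G, -, -, a, b⟩ := t.ent hZ hD e0 e1 t0 t1
  obtain ⟨X', kk, c, d⟩ := K0.nf ⟨a, b⟩ hD
  obtain ⟨o, τ, R, -, Z, TT, e, t₀, j, f, g⟩ := hM _ _ _ _ _ _ _ _ _ _ _ _ _ _ _ _ _ _ _ d
    (c.ent hD).2
  obtain ⟨S, C, L, X'', F, A, k⟩ := hA N D _ E η θ β js Γ sl _ kk _ o τ X' _
    (cl0 E η θ β js Γ kf sl) c
    (hI N D _ E X' η θ β js Γ Γ R sl _ kk _ o τ Z TT e t₀ j hD c.1.toTq d g f)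
  exact ⟨kk, _, o, τ, S, C, L, X'', F, A, fun _ => rfl, k⟩

end Pool.Agent.MP_5168f5_an.QA
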