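import Pool.Agent.MP_5168f5_an.QA.P5Defs
import Pool.Agent.MP_5168f5_an.QA.En5E
import Pool.Agent.MP_5168f5_an.QA.AbMI

/-! The maximal estimate in all dimensions: the entrance of the base class. -/

namespace Pool.Agent.MP_5168f5_an.QA.P5

theorem sEnt_of (hM : Fr.SMod) (hA : AB.SAB) : SEnt := by
  intro N E E' D k
  have hD : 1 ≤ D := k.one.trans (k.le.trans k.le')
  have c : (1 : ℝ) ≤ 2 * (dV N D + 1) := by linarith [(Nat.cast_nonneg (dV N D) : (0 : ℝ) ≤ _)]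
  refine ⟨_, c, fun η θ β js Γ kf sl X p t => ?_⟩
  obtain ⟨kk, la, o, τ, S, C, L, X', F, A, -, a, b, d, e⟩ := t.toFM hM AB.sMI hA k.zl hD p.1
    ((le_mul_of_one_le_left p.1.le c).trans p.2.1) p.2.2.1 p.2.2.2
  exact ⟨_, kk, la, o, τ, S, C, L, fun n => ⟨X' n, F n, A n⟩, ⟨hD, a⟩, b.1, b.2, d, e⟩

end Pool.Agent.MP_5168f5_an.QA.P5
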