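import Pool.Agent.MP_5168f5_an.QA.HFin
import Pool.Agent.MP_5168f5_an.MX.PB

/-! Flat iterated differences: closure properties for sequences. -/

namespace Pool.Agent.MP_5168f5_an.QA

open H19 H17S H17F MX R4 R4.K31 Filter

variable {Ω W T T' T'' : ℕ → Type} {P : ∀ n, FP (Ω n)} {Q : ∀ n, FP (W n)} {X Y : ∀ n, Ω n → ℝ}
  {K : ∀ n, Ω n → T n} {K' : ∀ n, Ω n → T' n} {R R' : ℕ → ℕ} {s s' L : ℕ → ℝ} {k k' : ℕ}

theorem big_exp (hR : Big R) (C : ℝ) {η : ℝ} (hη : 0 < η) :
    ∀ᶠ n in UF, C ≤ Real.exp (η * R n) :=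
  (hR.sm C η hη).mono fun n a => by linarith [Real.add_one_le_exp (η * R n)]

/-- Transfer of the property along a rule that holds on each space. -/
theorem HT1.tr (h : HT1 k P X K R s) {Y : ∀ n, W n → ℝ} {K' : ∀ n, W n → T' n} {c : ℝ} (hc : 0 ≤ c)
    (e : ∀ η : ℝ, 0 < η → ∀ᶠ n in UF, ∀ ε B, Ht k (P n) (X n) (K n) ε B →
      Ht k' (Q n) (Y n) (K' n) (c * ε + η) (Real.exp (η * R n) * B)) : HT1 k' Q Y K' R s := by
  intro ε hε
  have d : ε / 2 / (c + 1) ≤ ε / 2 := div_le_self (by positivity) (by linarith)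
  filter_upwards [h (ε / 2 / (c + 1)) (by positivity), e _ (half_pos hε)] with n a b
  refine (b _ _ a).mono ?_ ?_
  · rw [← mul_div_assoc, ← le_sub_iff_add_le, div_le_iff₀ (by positivity)]
    nlinarith
  · rw [← Real.exp_add, Real.exp_le_exp]
    nlinarith [Nat.cast_nonneg (α := ℝ) (R n)]

theorem HT1.cf {S : ℕ → Type 1} {W T : ∀ n, S n → Type} (k : ℕ) (Q : ∀ n x, FP (W n x))
    (X : ∀ n x, W n x → ℝ) (K : ∀ n x, W n x → T n x) (m : ∀ n, S n → ℕ) (s : ∀ n, S n → ℝ) :
    CF fun x : ∀ n, S n => HT1 k (fun n => Q n (x n)) (fun n => X n (x n)) (fun n => K n (x n))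
      (fun n => m n (x n)) fun n => s n (x n) :=
  cf_eps (p := fun ε n x => Ht k (Q n x) (X n x) (K n x) ε (Real.exp (-s n x + ε * m n x)))
    fun _ _ _ _ _ a b => b.mono a (Real.exp_le_exp.2
      (add_le_add le_rfl (mul_le_mul_of_nonneg_right a (Nat.cast_nonneg _))))

theorem HT1.mono (h : HT1 k P X K R s) (e : Le R s' s) : HT1 k P X K R s' := fun ε hε => by
  filter_upwards [h _ (half_pos hε), e _ (half_pos hε)] with n a b
  exact a.mono (by linarith) (Real.exp_le_exp.2 (by linarith))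

theorem HT1.up (h : HT1 k P X K R s) (e : k ≤ k') : HT1 k' P X K R s := fun ε hε =>
  (h ε hε).mono fun _ a => a.up e

/-- A larger unit. -/
theorem HT1.unit (h : HT1 k P X K R s) (e : ∀ n, R n ≤ R' n) : HT1 k P X K R' s := fun ε hε =>
  (h ε hε).mono fun n a => a.mono le_rfl (Real.exp_le_exp.2 (add_le_add le_rfl
    (mul_le_mul_of_nonneg_left (by exact_mod_cast e n) hε.le)))

theorem HT1.frac (h : HT1 k P X K R s) (e : Frac R' R) : HT1 k P X K R' s := fun ε hε => by
  obtain ⟨-, c, hc, e⟩ := e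
  filter_upwards [h (ε * min c 1) (by positivity), e] with n a b
  have a1 := mul_le_mul_of_nonneg_right (min_le_left c 1) (Nat.cast_nonneg (α := ℝ) (R n))
  exact a.mono (mul_le_of_le_one_right hε.le (min_le_right _ _)) (Real.exp_le_exp.2 (by nlinarith))

/-- There is nothing to prove when the gain is negligible. -/
theorem ht1_sm (h : Sm R s) (k : ℕ) (P : ∀ n, FP (Ω n)) (X : ∀ n, Ω n → ℝ) (K : ∀ n, Ω n → T n) :
    HT1 k P X K R s := fun ε hε =>
  (h ε hε).mono fun n a => (ht_one _ _ _ _).mono hε.le (Real.one_le_exp (by linarith))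

theorem HT1.congr (h : HT1 k P X K R s) (e : ∀ᶠ n in UF, ∀ ω ∈ (P n).S, ⌊Y n ω⌋ = ⌊X n ω⌋) :
    HT1 k P Y K R s := fun ε hε => ((h ε hε).and e).mono fun _ a => a.1.congr a.2

theorem HT1.coarse (h : HT1 k P X K R s) (e : ∀ᶠ n in UF, Fn (P n) (K' n) (K n)) :
    HT1 k P X K' R s := fun ε hε => ((h ε hε).and e).mono fun _ a => a.1.coarse a.2

/-- Refinements: events of positive probability, extensions of the space. -/
theorem HT1.dn (h : HT1 k P X K R s) (hR : Big R) {ρ : ∀ n, W n → Ω n} (hD : DnS Q ρ P) :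
    HT1 k Q (fun n v => X n (ρ n v)) (fun n v => K n (ρ n v)) R s := by
  obtain ⟨C, a, b⟩ := hD
  refine h.tr (zero_le_one.trans a) fun η hη => ?_
  filter_upwards [b, big_exp hR ((C * η⁻¹) ^ 2 ^ k) hη] with n d e ε B g
  exact (g.dn d (inv_pos.2 hη)).mono (by rw [inv_inv]) (mul_le_mul_of_nonneg_right e g.nonneg)

theorem HT1.of_whp {E : ∀ n, Ω n → Prop} (h : HT1 k (fun n => cE (P n) (E n)) X K R s)
    (hE : Whp P E) : HT1 k P X K R s :=
  h.tr zero_le_one fun η hη => (hE η hη).mono fun n a ε B g => (g.of_cE a).mono (by linarith)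
    (le_mul_of_one_le_left g.nonneg (Real.one_le_exp (by positivity)))

theorem exp_pow (η : ℝ) (m k : ℕ) : Real.exp (η / 2 ^ k * m) ^ 2 ^ k = Real.exp (η * m) := by
  rw [← Real.exp_nat_mul]
  congr 1
  push_cast
  field_simp

/-- Side information of small entropy. -/
theorem HT1.side (h : HT1 k P X K R s) (hR : Big R) (e : Sm R fun n => ch (P n) (K' n) (K n)) :
    HT1 k P X (fun n ω => (K' n ω, K n ω)) R s := by
  refine h.tr zero_le_one fun η hη => ?_
  filter_upwards [KSA.mark P R (fun n ω => -Real.log (cm (P n) (K n) (K' n) ω)) (η / 2 ^ k) hR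
    (by positivity) (Eventually.of_forall fun n ω hω => neg_nonneg.2
      (Real.log_nonpos (cm_pos _ _ hω).le (cm_le_one _ _ _ _)))
    (e.mono (Eventually.of_forall fun n => (ch_eq_cm _ _ _).ge)) η hη] with n a ε B g
  refine (g.side (Real.exp_pos (η / 2 ^ k * R n)).le ((pb_mono fun ω hω u v => u ?_).trans a)).mono
    (by linarith) (by rw [exp_pow])
  rw [← Real.exp_log (cm_pos (K n) (K' n) hω), ← Real.exp_add]
  exact Real.one_le_exp (by linarith)

/-- Side information that carries little information about the variable. -/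
theorem HT1.info (h : HT1 k P X K R s) (hR : Big R)
    (e : Sm R fun n => mi (P n) (fun v => ⌊X n v⌋) (K' n) (K n)) :
    HT1 k P X (fun n ω => (K' n ω, K n ω)) R s := by
  refine h.tr zero_le_two fun η hη => ?_
  have key : ∀ n, ∀ ω ∈ (P n).S, 0 < cm (P n) (K n) (fun v => ⌊X n v⌋) ω ∧
      0 < cm (P n) (fun v => (K' n v, K n v)) (fun v => ⌊X n v⌋) ω := fun n ω hω =>
    ⟨cm_pos _ _ hω, cm_pos _ _ hω⟩
  filter_upwards [KSA.mark P R (fun n ω => cm (P n) (K n) (fun v => ⌊X n v⌋) ω /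
      cm (P n) (fun v => (K' n v, K n v)) (fun v => ⌊X n v⌋) ω +
    (-Real.log (cm (P n) (K n) (fun v => ⌊X n v⌋) ω) -
      -Real.log (cm (P n) (fun v => (K' n v, K n v)) (fun v => ⌊X n v⌋) ω))) (η / 2 ^ k / 2) hR
    (by positivity) (Eventually.of_forall fun n ω hω => by
      obtain ⟨a, b⟩ := key n ω hω
      have := Real.log_le_sub_one_of_pos (div_pos a b)
      rw [Real.log_div a.ne' b.ne'] at this
      linarith)
    ((e.add (hR.sm 1)).mono (Eventually.of_forall fun n => by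
      rw [FP.E_add, FP.E_sub, ← ch_eq_cm, ← ch_eq_cm]
      have := cm_ratio (P n) (K n) (fun v => ⌊X n v⌋) (K' n)
      unfold mi
      linarith)) η hη, big_exp hR 2 (η := η / 2 ^ k / 2) (by positivity)] with n a d ε B g
  refine (g.info (Real.exp_pos (η / 2 ^ k / 2 * R n)).le
    ((pb_mono fun ω hω u v => u ?_).trans a)).mono le_rfl
    (mul_le_mul_of_nonneg_right ?_ g.nonneg)
  · rw [← exp_pow η _ k]
    refine pow_le_pow_left₀ (by positivity) ((mul_le_mul_of_nonneg_right d (by positivity)).trans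
      (le_of_eq ?_)) _
    rw [← Real.exp_add]; congr 1; ring
  · obtain ⟨a, b⟩ := key n ω hω
    rw [← Real.exp_log a, ← Real.exp_add, ← Real.log_le_iff_le_exp b]
    linarith [div_pos a b]

/-- A new context that is almost a function of the old one. -/
theorem HT1.ctx (h : HT1 k P X K R s) (hR : Big R) (e : Sm R fun n => ch (P n) (K' n) (K n)) :
    HT1 k P X K' R s := (h.side hR e).coarse (Eventually.of_forall fun _ => Fn.fst _ _)

/-- Near affine images with coefficients read from the context. -/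
theorem HT1.aff (h : HT1 k P X K R s) (hR : Big R) (hL : Sub R L) {c b : ∀ n, Ω n → ℝ}
    (e : ∀ᶠ n in UF, Fn (P n) (c n) (K n) ∧ Fn (P n) (b n) (K n) ∧ ∀ ω ∈ (P n).S,
      1 ≤ L n * |c n ω| ∧ |c n ω| ≤ L n ∧ |Y n ω - c n ω * X n ω - b n ω| ≤ L n) :
    HT1 k P Y K R s := by
  have hs := (((hL.pow 2).const_mul hR (C := 6 * 2 ^ k) (one_le_mul_of_one_le_of_one_le
    (by norm_num) (one_le_pow₀ one_le_two))).add (hR.sub le_rfl) hR).2
  refine h.tr zero_le_one fun η hη => ?_
  filter_upwards [e, hs η hη] with n a d ε B g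
  exact (g.aff a.1 a.2.1 (hL.1 n) a.2.2).mono (by linarith) (mul_le_mul_of_nonneg_right d g.nonneg)

theorem HT1.affW (h : HT1 k P X K R s) (hR : Big R) (hL : Sub R L) {c b : ∀ n, Ω n → ℝ}
    (e : ∀ᶠ n in UF, Fn (P n) (c n) (K n) ∧ Fn (P n) (b n) (K n)) (e' : Whp P fun n ω =>
      1 ≤ L n * |c n ω| ∧ |c n ω| ≤ L n ∧ |Y n ω - c n ω * X n ω - b n ω| ≤ L n) :
    HT1 k P Y K R s :=
  (HT1.aff (h.dn hR (dnS_cE e'.pos)) hR hL (c := c) (b := b) ((e.and e'.pos.sure).mono fun _ a =>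
    ⟨fun u hu v hv => a.1.1 u (cE_sub hu) v (cE_sub hv),
      fun u hu v hv => a.1.2 u (cE_sub hu) v (cE_sub hv), fun ω hω => (a.2 ω hω).2⟩)).of_whp e'

/-- A variable at distance `exp (o(R))`. -/
theorem HT1.near (h : HT1 k P X K R s) (hR : Big R) (hL : Sub R L)
    (e : Whp P fun n ω => |Y n ω - X n ω| ≤ L n) : HT1 k P Y K R s :=
  h.affW hR hL (c := fun _ _ => 1) (b := fun _ _ => 0)
    (Eventually.of_forall fun _ => ⟨fun _ _ _ _ _ => rfl, fun _ _ _ _ _ => rfl⟩)
    (e.mono (Eventually.of_forall fun n ω _ a => by simpa using ⟨hL.1 n, a⟩))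

/-- The difference of two copies given `K`. -/
theorem HT1.dbl {A : ∀ n, Ω n → T' n} (h : HT1 (k + 1) P X (fun n ω => (A n ω, K n ω)) R s)
    (hR : Big R) : HT1 k (fun n => glue (P n) (P n) (K n) (K n)) (fun n v => X n v.1 - X n v.2)
      (fun n v => (A n v.1, A n v.2, K n v.1)) R s :=
  h.tr zero_le_two fun η hη => (big_exp hR (2 * 2 ^ k + 1) hη).mono fun _ a _ _ g =>
    g.dbl.mono (by linarith) (mul_le_mul_of_nonneg_right a g.nonneg)

/-- The values are light. -/
theorem HT1.out (h : HT1 k P X K R s) (hR : Big R) :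
    PB P K (fun n v => ⌊X n v⌋) R fun n => s n / 2 ^ k := fun ε hε η hη => by
  have p : (1 : ℝ) ≤ 2 ^ k := one_le_pow₀ one_le_two
  filter_upwards [h (min (η / 2) (ε / 2)) (by positivity), big_exp hR 2 (half_pos hε)] with n a d
  refine (pb_mono fun ω hω u v => u ?_).trans (a.out.trans (by linarith [min_le_left (η / 2) (ε / 2)]))
  refine (pow_le_pow_iff_left₀ (cm_pos _ _ hω).le (Real.exp_pos _).le
    (pow_pos two_pos k).ne').1 (v.trans ?_)
  refine (mul_le_mul_of_nonneg_right (pow_le_pow_left₀ zero_le_two d _) (Real.exp_pos _).le).trans ?_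
  rw [← Real.exp_nat_mul, ← Real.exp_nat_mul, ← Real.exp_add, Real.exp_le_exp]
  push_cast
  have a1 := mul_le_mul_of_nonneg_right (min_le_right (η / 2) (ε / 2)) (Nat.cast_nonneg (α := ℝ) (R n))
  have a2 : (0 : ℝ) ≤ ε / 2 * R n := by positivity
  rw [mul_sub, mul_div_cancel₀ _ (by positivity)]
  nlinarith

/-- Light values give entropy. -/
theorem pb_ch {α : ℕ → Type} {F : ∀ n, Ω n → α n} {C : ℝ} (h : PB P K F R s)
    (hs : ∀ᶠ n in UF, s n ≤ C * R n) : Le R s fun n => ch (P n) (F n) (K n) := by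
  refine Le.eps fun ε hε => (whp_small (h ε hε) hs).of_sub (Eventually.of_forall fun n => ?_)
  have a := markov (P n) (F := fun ω => -Real.log (cm (P n) (K n) (F n) ω)) (fun ω hω =>
    neg_nonneg.2 (Real.log_nonpos (cm_pos _ _ hω).le (cm_le_one _ _ _ _))) (s n - ε * R n)
  rw [← ch_eq_cm, pb_congr (F := fun ω => cm (P n) (K n) (F n) ω ≤ Real.exp (ε * R n - s n))
    fun ω hω => by rw [← Real.log_le_iff_le_exp (cm_pos _ _ hω), le_neg, neg_sub]] at a
  have := mul_le_of_le_one_right (a := ε * R n) (by positivity)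
    (pb_le_one (P n) fun ω => cm (P n) (K n) (F n) ω ≤ Real.exp (ε * R n - s n))
  linarith

theorem HT1.ent {C : ℝ} (h : HT1 k P X K R s) (hR : Big R) (hs : ∀ᶠ n in UF, s n ≤ C * R n) :
    Le R (fun n => s n / 2 ^ k) fun n => ch (P n) (fun v => ⌊X n v⌋) (K n) :=
  pb_ch (C := |C|) (h.out hR) (hs.mono fun n a => by
    have := mul_le_mul_of_nonneg_right (le_abs_self C) (Nat.cast_nonneg (α := ℝ) (R n))
    have p : (1 : ℝ) ≤ 2 ^ k := one_le_pow₀ one_le_two
    rw [div_le_iff₀ (by positivity)]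
    exact (a.trans this).trans (le_mul_of_one_le_right (by positivity) p))

/-- The variable is far from every point that is read from the context. -/
theorem HT1.far (h : HT1 k P X K R s) (hR : Big R) {c : ℝ} (hc : 0 < c)
    (hs : ∀ᶠ n in UF, c * R n ≤ s n) (hy : ∀ᶠ n in UF, Fn (P n) (Y n) (K n)) :
    Whp P fun n ω => 1 ≤ |X n ω - Y n ω| := fun η hη => by
  filter_upwards [h.out hR (c / 2 ^ k / 2) (by positivity) _ (half_pos hη), hs, hy,
    big_exp hR (6 / η) (η := c / 2 ^ k / 2) (by positivity)] with n a b d e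
  have h1 := near_le (P n) (K n) (X n) (Y n) d 0
    (Real.exp_pos (c / 2 ^ k / 2 * R n - s n / 2 ^ k)).le
  have h2 : Real.exp (c / 2 ^ k / 2 * R n - s n / 2 ^ k) ≤ η / 6 := by
    have := div_le_div_of_nonneg_right b (show (0 : ℝ) ≤ 2 ^ k by positivity)
    refine (Real.exp_le_exp.2 (show _ ≤ -(c / 2 ^ k / 2 * R n) by
      rw [mul_div_right_comm] at this; linarith)).trans ?_
    rw [Real.exp_neg, ← inv_div 6 η]
    exact inv_anti₀ (by positivity) e
  refine ((pb_mono fun ω _ u => ?_).trans (pb_or _ _ _)).trans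
    ((add_le_add h1 a).trans (by linarith))
  simpa [fl1, (not_le.1 u).le] using le_or_gt _ _

end Pool.Agent.MP_5168f5_an.QA
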