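import Pool.Agent.MP_5168f5_an.QA.HEn

/-! Flat iterated differences: fixing the value of a part of the context. -/

namespace Pool.Agent.MP_5168f5_an.QA

open H19 H17S H17F MX R4 R4.K31 Filter

section Fin

variable {Ω T T' : Type} {P : FP Ω} {X : Ω → ℝ} {K : Ω → T} {χ : Ω → T'} {k : ℕ} {ε B : ℝ}

theorem Ht.val (h : Ht k P X (fun ω => (χ ω, K ω)) ε B) {δ : ℝ} (hδ : 0 < δ) :
    pb P (fun a => ¬Ht k (cv P χ (χ a)) X K δ B) ≤ ε / δ := by
  obtain ⟨G, a, b⟩ := h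
  have m := markov P (F := fun v => pb (cv P χ (χ v)) fun u => ¬G u) (fun _ _ => pb_nonneg _ _) δ
  rw [← pb_cv P χ] at m
  rw [le_div_iff₀' hδ]
  refine (mul_le_mul_of_nonneg_left (pb_mono fun v hv c => le_of_not_gt fun d =>
    c ⟨G, d.le, fun ω hω => ?_⟩) hδ.le).trans (m.trans a)
  obtain ⟨h1, h2⟩ := (mem_cv hv ω).1 hω
  have e : cv (cv P χ (χ v)) K (K ω) = cv P (fun ω => (χ ω, K ω)) (χ ω, K ω) := by
    rw [cv, cv, cv, cE_cE (E := fun x => χ x = χ v) (E' := fun x => K x = K ω) ⟨ω, h1, h2, rfl⟩]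
    exact cE_congr fun u _ => by simp [h2]
  rw [e]; exact b ω h1

/-- From one window to a nearby window. -/
theorem Ht.interp {a b a' b' u : ℕ}
    (h : Ht k P (fun ω => 2 ^ b' * X ω) (fun ω => (fl1 a' (X ω), K ω)) ε B) (ha : a ≤ a')
    (hb : b ≤ b') (hu : b' ≤ b + u) : Ht k P (fun ω => 2 ^ b * X ω) (fun ω => (fl1 a (X ω), K ω)) ε
      ((6 * 2 ^ k * (2 ^ u) ^ 2 + 1) * B) := by
  have p : (1 : ℝ) ≤ 2 ^ u := one_le_pow₀ one_le_two
  refine (h.aff (c := fun _ => 2 ^ b / 2 ^ b') (b := fun _ => 0) (fun _ _ _ _ _ => rfl)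
    (fun _ _ _ _ _ => rfl) p fun ω _ => ?_).coarse
    (Fn.pair (fun _ _ _ _ e => fl1_eq_of_le ha (congrArg Prod.fst e)) (Fn.snd _ _))
  rw [abs_of_pos (by positivity), ← mul_div_assoc, one_le_div (by positivity), ← pow_add,
    ← mul_assoc, div_mul_cancel₀ _ (by positivity)]
  exact ⟨pow_le_pow_right₀ one_le_two (by omega), (div_le_one_of_le₀
    (pow_le_pow_right₀ one_le_two hb) (by positivity)).trans p, by simp⟩

end Fin

variable {Ω T T' : ℕ → Type} {P : ∀ n, FP (Ω n)} {X : ∀ n, Ω n → ℝ} {K : ∀ n, Ω n → T n}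
  {χ : ∀ n, Ω n → T' n} {R : ℕ → ℕ} {s : ℕ → ℝ} {k : ℕ} {θ ε : ℝ}

theorem HT1.val (h : HT1 k P X (fun n ω => (χ n ω, K n ω)) R s) (hε : 0 < ε) : Whp P fun n a =>
    Ht k (cv (P n) (χ n) (χ n a)) (X n) (K n) ε (Real.exp (-s n + ε * R n)) := fun η hη =>
  (h (ε * min η 1) (by positivity)).mono fun n a => ((a.mono (mul_le_mul_of_nonneg_left
    (min_le_left η 1) hε.le) (Real.exp_le_exp.2 (add_le_add le_rfl (mul_le_mul_of_nonneg_right
      (mul_le_of_le_one_right hε.le (min_le_right _ _)) (Nat.cast_nonneg _))))).val hε).trans_eq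
    (mul_div_cancel_left₀ _ hε.ne')

theorem HTw.val (h : HTw k θ P X (fun n ω => (χ n ω, K n ω)) R) (hR : Big R) (hε : 0 < ε) :
    Whp P fun n ω => ∀ a b : ℕ, a ≤ b → b ≤ R n → Ht k (cv (P n) (χ n) (χ n ω))
      (fun v => 2 ^ b * X n v) (fun v => (fl1 a (X n v), K n v)) ε
      (Real.exp (-((1 - θ) * (b - a) * lg) + ε * R n)) := by
  obtain ⟨N, hN⟩ := exists_nat_gt (4 * (2 + |1 - θ|) / ε)
  have N0 : (0 : ℝ) < N := lt_trans (by positivity) hN
  have N1 : 0 < N := by exact_mod_cast N0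
  let γ : ℕ → ℕ → ℕ := fun t n => min (R n) ((t + 1) * (R n / N + 1))
  have g0 : ∀ {t t'} n, t ≤ t' → γ t n ≤ γ t' n := fun n e =>
    min_le_min_left _ (Nat.mul_le_mul_right _ (by omega))
  have g1 : ∀ n c, c ≤ R n → c / (R n / N + 1) < N ∧ c ≤ γ (c / (R n / N + 1)) n ∧
      γ (c / (R n / N + 1)) n ≤ c + (R n / N + 1) := fun n c e => by
    have a1 := Nat.lt_div_mul_add (a := c) (Nat.succ_pos (R n / N))
    have a2 := Nat.div_mul_le_self c (R n / N + 1)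
    have a3 := Nat.lt_mul_div_succ (R n) N1
    refine ⟨(Nat.div_lt_iff_lt_mul (Nat.succ_pos _)).2 (e.trans_lt a3), le_min e ?_,
      (min_le_right _ _).trans ?_⟩ <;> rw [add_one_mul]
    exacts [a1.le, Nat.add_le_add_right a2 _]
  refine (Whp.all (J := Fin N × Fin N) fun t => HT1.val (χ := χ)
    (K := fun n v => (fl1 (γ (min t.1 t.2) n) (X n v), K n v)) ((h (γ (min t.1 t.2)) (γ t.2) fun n =>
      ⟨g0 n (min_le_right _ _), min_le_left _ _⟩).coarse (Eventually.of_forall fun n =>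
        ((Fn.fst _ _).right _).pair ((Fn.fst _ _).pair ((Fn.snd _ _).right _)))) (half_pos hε)).mono ?_
  filter_upwards [big_exp hR ((6 * 2 ^ k + 1) * Real.exp (2 + |1 - θ|)) (η := ε / 4)
    (by positivity)] with n c ω _ d a b hab hb
  obtain ⟨a1, a2, a3⟩ := g1 n a (hab.trans hb)
  obtain ⟨b1, b2, b3⟩ := g1 n b hb
  have e := d (⟨_, a1⟩, ⟨_, b1⟩)
  simp only [min_eq_left (Nat.div_le_div_right hab : a / (R n / N + 1) ≤ b / _)] at e
  refine (e.interp a2 b2 b3).mono (by linarith) ?_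
  have u1 : ((R n / N + 1 : ℕ) : ℝ) ≤ R n / N + 1 := by
    push_cast; linarith [@Nat.cast_div_le ℝ _ _ _ (R n) N]
  generalize R n / N + 1 = u at *
  generalize γ (a / u) n = a' at *
  generalize γ (b / u) n = b' at *
  have p : (1 : ℝ) ≤ (2 ^ u) ^ 2 := one_le_pow₀ (one_le_pow₀ one_le_two)
  have q : ((2 : ℝ) ^ u) ^ 2 ≤ Real.exp (2 * u) := by
    rw [← pow_mul]; exact (two_pow_le_exp _).trans_eq (by push_cast; ring_nf)
  have r : (6 * 2 ^ k * ((2 : ℝ) ^ u) ^ 2 + 1) ≤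
      Real.exp (ε / 4 * R n) / Real.exp (2 + |1 - θ|) * Real.exp (2 * u) :=
    le_trans (by nlinarith) (mul_le_mul ((le_div_iff₀ (Real.exp_pos _)).2 c) q (by positivity)
      (by positivity))
  refine (mul_le_mul_of_nonneg_right r (Real.exp_pos _).le).trans ?_
  rw [← Real.exp_sub, ← Real.exp_add, ← Real.exp_add, Real.exp_le_exp]
  have c1 : |(b - a - (b' - a') : ℝ) * lg| ≤ u := by
    have : (a : ℝ) ≤ a' ∧ (a' : ℝ) ≤ a + u ∧ (b : ℝ) ≤ b' ∧ (b' : ℝ) ≤ b + u := by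
      exact_mod_cast And.intro a2 (And.intro a3 (And.intro b2 b3))
    rw [abs_mul, abs_of_pos lg_pos]
    refine (mul_le_of_le_one_right (abs_nonneg _) lg_lt_one.le).trans (abs_le.2 ⟨?_, ?_⟩) <;>
      linarith [this.1, this.2.1, this.2.2.1, this.2.2.2]
  have c2 := (le_abs_self _).trans ((abs_mul (1 - θ) _).trans_le
    (mul_le_mul_of_nonneg_left c1 (abs_nonneg _)))
  have c3 := mul_le_mul_of_nonneg_left u1 (show 0 ≤ 2 + |1 - θ| by positivity)
  have c4 : (2 + |1 - θ|) * (R n / N) ≤ ε / 4 * R n := by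
    rw [div_lt_iff₀ hε] at hN
    rw [← mul_div_assoc, div_le_iff₀ N0]
    nlinarith [Nat.cast_nonneg (α := ℝ) (R n)]
  linarith

/-- Countably many events of high probability. -/
theorem whp_diag {G : ℕ → ∀ n, Ω n → Prop} (h : ∀ j, Whp P (G j)) :
    ∃ E, Whp P E ∧ ∀ j, ∀ᶠ n in UF, ∀ ω, E n ω → G j n ω := by
  obtain ⟨k, a, b⟩ := KSA.spill _ fun j =>
    Whp.all (J := Fin (j + 1)) (fun i => h i) (1 / (j + 1 : ℝ)) (by positivity)
  refine ⟨fun n ω => ∀ i : Fin (k n + 1), G i n ω, fun ε hε => ?_, fun j => ?_⟩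
  · filter_upwards [b, K31.small hε a] with n c d using (c _ le_rfl).trans d
  · filter_upwards [a.eventually_ge_atTop j] with n c ω d using d ⟨j, by omega⟩

/-- Most values of `χ` are good for all windows and all deficiencies. -/
theorem HT.val {kf : ℕ → ℕ} (h : HT kf P X (fun n ω => (χ n ω, K n ω)) R) (hR : Big R) :
    ∃ E, Whp P E ∧ ∀ a : ∀ n, Ω n, (∀ᶠ n in UF, E n (a n)) →
      HT kf (fun n => cv (P n) (χ n) (χ n (a n))) X K R := by
  obtain ⟨E, a, b⟩ := whp_diag fun j =>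
    (h j.unpair.1).val hR (ε := 1 / (j.unpair.2 + 1 : ℝ)) (by positivity)
  refine ⟨E, a, fun x e i => htw_iff.2 fun ε hε => ?_⟩
  obtain ⟨m, hm⟩ := exists_nat_one_div_lt hε
  filter_upwards [e, b (Nat.pair i m)] with n c d u v h1 h2
  have := d _ c u v h1 h2
  rw [Nat.unpair_pair] at this
  exact this.mono hm.le (Real.exp_le_exp.2
    (add_le_add le_rfl (mul_le_mul_of_nonneg_right hm.le (Nat.cast_nonneg _))))

/-- A large mean is large on many fibres. -/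
theorem pos_mean {g : ∀ n, Ω n → ℝ} {c C : ℝ} (χ : ∀ n, Ω n → T' n) (hR : Big R) (hc : 0 < c)
    (h : ∀ᶠ n in UF, (∀ ω ∈ (P n).S, g n ω ≤ C * R n) ∧ c * R n ≤ (P n).E (g n)) :
    Pos P fun n a => c / 2 * R n ≤ (cv (P n) (χ n) (χ n a)).E (g n) := by
  refine ⟨c / 2 / (|C| + 1), by positivity, ?_⟩
  filter_upwards [h, hR.ev 1] with n ⟨a, b⟩ d
  have e : (P n).E (g n) ≤ (P n).E fun a => c / 2 * R n + (|C| + 1) * R n *
      @ite ℝ (c / 2 * R n ≤ (cv (P n) (χ n) (χ n a)).E (g n)) (Classical.propDecidable _) 1 0 := by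
    refine (KEA.exp (P n) (χ n) fun _ => g n).trans_le (FP.E_mono _ fun x _ => ?_)
    split_ifs with u
    · refine ((FP.E_mono _ fun v hv => a v (cE_sub hv)).trans (FP.E_const _ _).le).trans ?_
      nlinarith [le_abs_self C]
    · linarith [not_le.1 u]
  rw [FP.E_add, FP.E_const, FP.E_mul] at e
  rw [div_le_iff₀ (by positivity)]
  unfold pb
  nlinarith

theorem ev_choice (P : ∀ n, FP (Ω n)) {p : ∀ n, Ω n → Prop} (h : ∀ᶠ n in UF, ∃ a, p n a) :
    ∃ a : ∀ n, Ω n, ∀ᶠ n in UF, p n (a n) := by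
  have : ∀ n, Nonempty (Ω n) := fun n =>
    (ex_of_pb (P := P n) (E := fun _ => True) (by rw [pb_true]; norm_num)).nonempty
  exact ⟨fun n => Classical.epsilon (p n), h.mono fun _ => Classical.epsilon_spec⟩

/-- A value of `χ` that keeps the property and half of a given mean. -/
theorem HT.pick {kf : ℕ → ℕ} {g : ∀ n, Ω n → ℝ} {c C : ℝ}
    (h : HT kf P X (fun n ω => (χ n ω, K n ω)) R) (hR : Big R) (hc : 0 < c)
    (e : ∀ᶠ n in UF, (∀ ω ∈ (P n).S, g n ω ≤ C * R n) ∧ c * R n ≤ (P n).E (g n)) :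
    ∃ a : ∀ n, Ω n, (∀ᶠ n in UF, a n ∈ (P n).S ∧ c / 2 * R n ≤ (cv (P n) (χ n) (χ n (a n))).E (g n)) ∧
      HT kf (fun n => cv (P n) (χ n) (χ n (a n))) X K R := by
  obtain ⟨E, a, b⟩ := h.val hR
  obtain ⟨x, hx⟩ := ev_choice P ((pos_mean χ hR hc e).and a).ex
  exact ⟨x, hx.mono fun _ u => ⟨u.1, u.2.1⟩, b x (hx.mono fun _ u => u.2.2)⟩

end Pool.Agent.MP_5168f5_an.QA
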