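import Pool.Agent.MP_5168f5_an.QA.Defs
import Pool.Agent.MP_5168f5_an.QA.HVal
import Pool.Agent.MP_5168f5_an.QA.HApi
import Pool.Agent.MP_5168f5_an.AN.LP1

/-! The maximal estimate in all dimensions: closure properties of the tangent system. -/

namespace Pool.Agent.MP_5168f5_an.QA

open H19 H17S H17F R4 AN Filter Finset
open K31 (Dn dn_cE)
open G39 (dl)

variable {N D : ℕ}

theorem Nr.mono {r r' : ℝ} {ν ν' : VD N D → ℝ} (h : Nr r ν ν') (a : C1.Hb ν) (b : C1.Hb ν')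
    (e : r ≤ r') : Nr r' ν ν' := fun F =>
  ⟨(h F).1.trans (mul_le_mul_of_nonneg_right (Real.exp_le_exp.2 e) (b.nonneg F)),
    (h F).2.trans (mul_le_mul_of_nonneg_right (Real.exp_le_exp.2 e) (a.nonneg F))⟩

theorem pen_cen {c c' : ℕ → ℝ} {d : ℝ} (h : ∀ k ≤ dV N D, |c' k - c k| ≤ d) (ν : VD N D → ℝ) :
    pen c' ν ≤ pen c ν + (dV N D + 1) * d := by
  refine (sum_le_sum (g := fun k => |sg k ν - c k| + d) fun k hk => ?_).trans (le_of_eq ?_)
  · have := h k (Nat.lt_succ_iff.1 (mem_range.1 hk))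
    rw [abs_sub_comm] at this
    exact (abs_sub_le _ (c k) _).trans (add_le_add le_rfl this)
  · simp [pen, sum_add_distrib]

theorem jc_nonneg (Φ : Ch N D) (y : V (N + 1)) : 0 ≤ jc Φ y := abs_nonneg _

namespace St

variable (X : St N D)

/-- A new unit, new levels and new base values. -/
abbrev re (u : ℕ) (f : ℚ → ℚ) (s : ℕ → ℝ) (j : ℝ) : St N D :=
  ⟨X.Ω, X.P, X.g, X.M, u, fun x => X.lv (f x), fun x => X.S (f x), s, j⟩

/-- Shift to the level `a` and zoom by the factor `e`. -/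
noncomputable abbrev idx (sl : ℕ → ℝ) (js : ℝ) (a e : ℚ) : St N D :=
  X.re ⌊(e : ℝ) * X.u⌋₊ (fun x => a + e * x) (fun k => X.s0 k + sl k * a * X.u)
    (X.j0 + js * a * X.u)

/-- A new law on the same space. -/
abbrev law (Q : FP X.Ω) : St N D := ⟨X.Ω, Q, X.g, X.M, X.u, X.lv, X.S, X.s0, X.j0⟩

/-- Condition on an event. -/
noncomputable abbrev res (G : X.Ω → Prop) : St N D := X.law (cE X.P G)

/-- The law in the atom of `ω`. -/
noncomputable def fb (x : ℚ) (ω : X.Ω) : FP X.Ω := cv X.P (X.O x) (X.O x ω)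

/-- All conditions at the levels `x`, `x'` on one space, with loss `r`. -/
structure Loc (E : ℕ) (η θ β js Γ : ℝ) (sl : ℕ → ℝ) (x x' : ℚ) (r : ℝ) : Prop where
  box : X.g.Box X.P
  top : X.lv x ≤ X.M
  mono : x ≤ x' → X.lv x ≤ X.lv x'
  lev : (X.lv x' : ℝ) - X.lv x ≤ ((x' : ℝ) - x) * X.u + r
  val : Val X.P X.g X.M (X.lv x) (X.S x)
  val' : Val X.P X.g X.M (X.lv x') (X.S x')
  fn : Fn X.P (X.S x) (X.O x)
  opt : Opd η θ X.P X.g X.M (X.lv x) (X.S x) r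
  spec : ∀ ω ∈ X.P.S, pen (X.cen (fun k x => sl k * x) x) (X.S x ω).ν ≤ r
  los : ∀ (W : Type) (Q : FP W) (π : W → X.Ω) (b : ℝ), Dn b Q π X.P →
    (X.pull Q π).vl η x' + (β * x - β * x') * X.u ≤ (X.pull Q π).vl η x + Real.log b + r
  jpr : ∀ ω ∈ X.P.S, |Real.log (X.S x ω).J - (X.j0 + js * x * X.u)| ≤ r
  lip : ∀ ω ∈ X.P.S, Nr (Γ * |(x : ℝ) - x'| * X.u + r) (X.S x ω).ν (X.S x' ω).ν
  tig : ∀ ω ∈ X.P.S, (X.S x ω).Tight X.M (X.lv x) (X.g.l ω) r ∧
    (X.S x ω).Low E X.M (X.lv x) (X.g.l ω) r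

/-- Flat differences of the heights in the window `[c, c']`, with exceptional mass `ε`. -/
def Hw (kf : ℕ → ℕ) (i c c' : ℕ) (ε r : ℝ) : Prop :=
  Ht (kf i) X.P (fun ω => 2 ^ c' * X.g.z ω) (X.g.O c) ε
    (Real.exp (-((1 - 1 / (i + 1 : ℝ)) * ((c' : ℝ) - c) * lg) + r))

variable {X} {E : ℕ} {η θ β js Γ : ℝ} {sl : ℕ → ℝ} {x x' : ℚ} {r r' ε ε' : ℝ} {kf : ℕ → ℕ}
  {i c c' : ℕ}

theorem Hw.mono (h : X.Hw kf i c c' ε r) (e : ε ≤ ε') (e' : r ≤ r') : X.Hw kf i c c' ε' r' :=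
  Ht.mono h e (Real.exp_le_exp.2 (add_le_add le_rfl e'))

theorem Loc.up (h : X.Loc E η θ β js Γ sl x x' r) (e : r ≤ r') : X.Loc E η θ β js Γ sl x x' r' :=
  ⟨h.box, h.top, h.mono, h.lev.trans (add_le_add le_rfl e), h.val, h.val', h.fn,
    fun W Q π b R u v => (h.opt W Q π b R u v).trans (add_le_add le_rfl e),
    fun ω hω => (h.spec ω hω).trans e,
    fun W Q π b u => (h.los W Q π b u).trans (add_le_add le_rfl e),
    fun ω hω => (h.jpr ω hω).trans e,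
    fun ω hω => (h.lip ω hω).mono (h.val ω hω).2.hb (h.val' ω hω).2.hb (add_le_add le_rfl e),
    fun ω hω => ⟨fun Φ u y v => ((h.tig ω hω).1 Φ u y v).trans (mul_le_mul_of_nonneg_right
      (Real.exp_le_exp.2 e) (h.val ω hω).2.pos.le), (h.tig ω hω).2.imp fun Φ u =>
      ⟨u.1, u.2.1, u.2.2.imp fun y v => ⟨v.1, v.2.trans (mul_le_mul_of_nonneg_right
        (Real.exp_le_exp.2 e) (jc_nonneg Φ y))⟩⟩⟩⟩

/-- Dominated laws. -/
theorem Loc.pull (h : X.Loc E η θ β js Γ sl x x' r) {W : Type} {Q : FP W} {π : W → X.Ω} {s : ℝ}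
    (d : Dn (Real.exp s) Q π X.P) : (X.pull Q π).Loc E η θ β js Γ sl x x' (r + s) := by
  have s0 : 0 ≤ s := Real.one_le_exp_iff.1 d.one_le
  have l : ∀ {W' : Type} {Q' : FP W'} {ρ : W' → W} {b : ℝ}, Dn b Q' ρ Q →
      Real.log (b * Real.exp s) = Real.log b + s := fun u => by
    rw [Real.log_mul (one_pos.trans_le u.one_le).ne' (Real.exp_pos s).ne', Real.log_exp]
  have g := h.up (le_add_of_nonneg_right s0)
  refine ⟨fun v hv => h.box _ (d.mem hv), h.top, h.mono, g.lev, fun v hv => h.val _ (d.mem hv),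
    fun v hv => h.val' _ (d.mem hv), d.fn h.fn, fun W' Q' ρ b R u v => ?_,
    fun v hv => g.spec _ (d.mem hv), fun W' Q' ρ b u => ?_, fun v hv => g.jpr _ (d.mem hv),
    fun v hv => g.lip _ (d.mem hv), fun v hv => g.tig _ (d.mem hv)⟩
  · have := h.opt W' Q' (fun w => π (ρ w)) _ R (u.trans d) v
    rw [l u] at this
    exact this.trans (le_of_eq (by ring))
  · have := h.los W' Q' (fun w => π (ρ w)) _ (u.trans d)
    rw [l u] at this
    exact this.trans (le_of_eq (by rw [add_assoc, add_assoc, add_assoc, add_comm s]))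

/-- New levels. -/
theorem Loc.re {f : ℚ → ℚ} (h : X.Loc E η θ β js Γ sl (f x) (f x') r) {u : ℕ} {s : ℕ → ℝ}
    {j d : ℝ} (m : x ≤ x' → f x ≤ f x') (e : |((f x' : ℝ) - f x) * X.u - ((x' : ℝ) - x) * u| ≤ d)
    (es : ∀ k ≤ dV N D, |s k + sl k * x * u - (X.s0 k + sl k * f x * X.u)| ≤ d)
    (ej : |j + js * x * u - (X.j0 + js * f x * X.u)| ≤ d) :
    (X.re u f s j).Loc E η θ β js Γ sl x x' (r + (dV N D + 2 + |β| + |Γ|) * d) := by
  have d0 : 0 ≤ d := (abs_nonneg _).trans e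
  have b0 := mul_nonneg (abs_nonneg β) d0
  have g0 := mul_nonneg (abs_nonneg Γ) d0
  have v0 := mul_nonneg (Nat.cast_nonneg (α := ℝ) (dV N D)) d0
  have g := h.up (r' := r + (dV N D + 2 + |β| + |Γ|) * d) (by linarith)
  refine ⟨h.box, h.top, fun a => h.mono (m a), ?_, h.val, h.val', h.fn, g.opt, fun ω hω => ?_,
    fun W Q π b a => ?_, fun ω hω => ?_, fun ω hω => ?_, g.tig⟩
  · have := h.lev
    have := (abs_le.1 e).2
    show (X.lv (f x') : ℝ) - X.lv (f x) ≤ ((x' : ℝ) - x) * u + _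
    linarith
  · exact (pen_cen (c := X.cen (fun k x => sl k * x) (f x)) es _).trans
      (by linarith [h.spec ω hω])
  · have := h.los W Q π b a
    have k := (le_abs_self _).trans ((abs_mul β _).trans_le
      (mul_le_mul_of_nonneg_left e (abs_nonneg β)))
    show (X.pull Q π).vl η (f x') + (β * x - β * x') * u ≤ (X.pull Q π).vl η (f x) + _ + _
    nlinarith
  · have := h.jpr ω hω
    rw [abs_sub_comm] at ej
    exact (abs_sub_le _ (X.j0 + js * f x * X.u) _).trans (by linarith)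
  · refine (h.lip ω hω).mono (h.val ω hω).2.hb (h.val' ω hω).2.hb ?_
    have k := (abs_abs_sub_abs_le_abs_sub _ _).trans e
    rw [abs_mul, abs_mul, Nat.abs_cast, Nat.abs_cast, abs_sub_comm (f x' : ℝ),
      abs_sub_comm (x' : ℝ)] at k
    have k' := (le_abs_self _).trans ((abs_mul Γ _).trans_le
      (mul_le_mul_of_nonneg_left k (abs_nonneg Γ)))
    show _ ≤ Γ * |(x : ℝ) - x'| * u + _
    nlinarith

/-- From one window to a nearby window. -/
theorem Hw.win {a b v : ℕ} (h : X.Hw kf i c c' ε r) (a1 : a ≤ c) (a2 : c ≤ a + v) (b1 : b ≤ c')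
    (b2 : c' ≤ b + v) : X.Hw kf i a b ε (r + 6 * 2 ^ kf i + 3 * v) := by
  refine ((Ht.interp (K := X.g.l) (Ht.coarse h ((Fn.snd _ _).pair (Fn.fst _ _))) a1 b1 b2).coarse
    ((Fn.snd _ _).pair (Fn.fst _ _))).mono le_rfl ?_
  have p : (1 : ℝ) ≤ (2 ^ v) ^ 2 := one_le_pow₀ (one_le_pow₀ one_le_two)
  have q : ((2 : ℝ) ^ v) ^ 2 ≤ Real.exp (2 * v) := by
    rw [← pow_mul]; exact (two_pow_le_exp _).trans_eq (by push_cast; ring_nf)
  have s : (6 * 2 ^ kf i * ((2 : ℝ) ^ v) ^ 2 + 1) ≤ Real.exp (6 * 2 ^ kf i) * Real.exp (2 * v) :=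
    le_trans (by nlinarith) (mul_le_mul (Real.add_one_le_exp _) q (by positivity) (by positivity))
  refine (mul_le_mul_of_nonneg_right s (Real.exp_pos _).le).trans ?_
  rw [← Real.exp_add, ← Real.exp_add, Real.exp_le_exp]
  have c1 : ((b : ℝ) - a - (c' - c)) * lg ≤ v := by
    have : (c : ℝ) ≤ a + v ∧ (b : ℝ) ≤ c' := by exact_mod_cast And.intro a2 b1
    nlinarith [lg_pos, lg_lt_one, Nat.cast_nonneg (α := ℝ) v]
  have t0 : (0 : ℝ) ≤ 1 / (i + 1 : ℝ) := by positivity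
  have t1 : 1 / (i + 1 : ℝ) ≤ 1 := by
    rw [div_le_one (by positivity)]; linarith [Nat.cast_nonneg (α := ℝ) i]
  nlinarith [mul_le_mul_of_nonneg_left c1 (sub_nonneg.2 t1), Nat.cast_nonneg (α := ℝ) v]

end St

section Classes

variable (X : ℕ → St N D) (E : ℕ) (η θ β js Γ : ℝ) (kf : ℕ → ℕ) (sl : ℕ → ℝ)

/-- The tangent system without the heights. -/
structure Tq : Prop where
  big : Big (uu X)
  drift : θ * ∑ k ∈ range (dV N D + 1), |sl k| ≤ β / 8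
  loc : ∀ (x x' : ℚ) (ε : ℝ), 0 < ε → ∀ᶠ n in UF,
    (X n).Loc E η θ β js Γ sl x x' (ε * (X n).u)

/-- The tangent system; the differences of the heights are flat in every atom. -/
structure Ts : Prop extends Tq X E η θ β js Γ sl where
  hs : ∀ (i : ℕ) (x x' : ℚ) (ε : ℝ), 0 < ε → ∀ᶠ n in UF,
    (X n).Hw kf i ((X n).lv x) ((X n).lv x') 0 (ε * (X n).u)

/-- The event `G` is not power small, also in the atoms that it meets. -/
structure Trm (G : ∀ n, (X n).Ω → Prop) : Prop where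
  top : ∀ c : ℝ, 0 < c → ∀ᶠ n in UF, dl (uu X) c n ≤ pb (X n).P (G n)
  fb : ∀ (x : ℚ) (c : ℝ), 0 < c → ∀ᶠ n in UF, ∀ ω ∈ (X n).P.S, G n ω →
    dl (uu X) c n ≤ pb ((X n).fb x ω) (G n)

theorem cf_tq : CF fun X : ℕ → St N D => Tq X E η θ β js Γ sl :=
  ((cf_big (S := fun _ => St N D) fun _ y => y.u).and ((cf_const _).and
    (cf_all fun x => cf_all fun x' => cf_eps (S := fun _ => St N D)
      (p := fun ε _ y => y.Loc E η θ β js Γ sl x x' (ε * y.u)) fun _ _ _ _ _ a b =>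
        b.up (mul_le_mul_of_nonneg_right a (Nat.cast_nonneg _))))).congr fun _ =>
    ⟨fun h => ⟨h.big, h.drift, h.loc⟩, fun h => ⟨h.1, h.2.1, h.2.2⟩⟩

theorem cf_ts : CF fun X : ℕ → St N D => Ts X E η θ β js Γ kf sl :=
  ((cf_tq E η θ β js Γ sl).and (cf_all fun i => cf_all fun x => cf_all fun x' =>
    cf_eps (S := fun _ => St N D) (p := fun ε _ y => y.Hw kf i (y.lv x) (y.lv x') 0 (ε * y.u))
      fun _ _ _ _ _ a b => b.mono le_rfl
        (mul_le_mul_of_nonneg_right a (Nat.cast_nonneg _)))).congr fun _ =>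
    ⟨fun h => ⟨h.toTq, h.hs⟩, fun h => ⟨h.1, h.2⟩⟩

variable {X E η θ β js Γ kf sl}

theorem T1.tq (h : T1 X E η θ β js Γ kf sl) : Tq X E η θ β js Γ sl :=
  ⟨h.tb.big, h.drift, fun x x' ε hε => by
    have t := h.tb
    filter_upwards [t.box, t.top x trivial, eventually_imp_distrib_left.2
      (t.mono x trivial x' trivial), t.lev x trivial x' trivial ε hε, t.val x trivial,
      t.val x' trivial, t.fn x trivial, t.opt x trivial ε hε, t.spec x trivial ε hε,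
      h.los x trivial x' trivial ε hε, h.jpr x trivial ε hε, h.lip x trivial x' trivial ε hε,
      h.tig x trivial ε hε] with n a1 a2 a3 a4 a5 a6 a7 a8 a9 b1 b2 b3 b4
    exact ⟨a1, a2, a3, a4, a5, a6, a7, a8, a9, b1, b2, by simpa only [add_mul] using b3, b4⟩⟩

theorem Tq.t1 (h : Tq X E η θ β js Γ sl) (k : Htb X Set.univ kf fun _ _ => 0) :
    T1 X E η θ β js Γ kf sl :=
  ⟨⟨⟨h.big, (h.loc 0 0 1 one_pos).mono fun _ a => a.box,
    fun x _ => (h.loc x x 1 one_pos).mono fun _ a => a.top,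
    fun x _ x' _ e => (h.loc x x' 1 one_pos).mono fun _ a => a.mono e,
    fun x _ x' _ ε e => (h.loc x x' ε e).mono fun _ a => a.lev,
    fun x _ => (h.loc x x 1 one_pos).mono fun _ a => a.val,
    fun x _ => (h.loc x x 1 one_pos).mono fun _ a => a.fn,
    fun x _ ε e => (h.loc x x ε e).mono fun _ a => a.opt,
    fun x _ ε e => (h.loc x x ε e).mono fun _ a => a.spec⟩, k,
    fun x _ x' _ ε e => (h.loc x x' ε e).mono fun _ a => a.los,
    fun x _ ε e => (h.loc x x ε e).mono fun _ a => a.jpr, h.drift⟩,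
    fun x _ x' _ ε e => (h.loc x x' ε e).mono fun _ a => by simpa only [add_mul] using a.lip,
    fun x _ ε e => (h.loc x x ε e).mono fun _ a => a.tig⟩

/-- Laws of subexponential density. -/
theorem Tq.pull (h : Tq X E η θ β js Γ sl) {W : ℕ → Type} {Q : ∀ n, FP (W n)}
    {π : ∀ n, W n → (X n).Ω}
    (d : ∀ c : ℝ, 0 < c → ∀ᶠ n in UF, Dn (Real.exp (c * (X n).u)) (Q n) (π n) (X n).P) :
    Tq (fun n => (X n).pull (Q n) (π n)) E η θ β js Γ sl :=
  ⟨h.big, h.drift, fun x x' ε hε => by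
    filter_upwards [h.loc x x' _ (half_pos hε), d _ (half_pos hε)] with n a b
    exact (a.pull b).up (le_of_eq (by ring))⟩

/-- New units, levels and base values. -/
theorem Tq.re (h : Tq X E η θ β js Γ sl) {u : ℕ → ℕ} {f : ℚ → ℚ} {s : ℕ → ℕ → ℝ} {j : ℕ → ℝ}
    {c : ℝ} (hc : 0 < c) (hu : ∀ᶠ n in UF, c * (X n).u ≤ u n) (m : Monotone f)
    (e : ∀ x x' : ℚ, Sm u fun n => |((f x' : ℝ) - f x) * (X n).u - ((x' : ℝ) - x) * u n|)
    (es : ∀ (x : ℚ) k, Sm u fun n =>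
      |s n k + sl k * x * u n - ((X n).s0 k + sl k * f x * (X n).u)|)
    (ej : ∀ x : ℚ, Sm u fun n => |j n + js * x * u n - ((X n).j0 + js * f x * (X n).u)|) :
    Tq (fun n => (X n).re (u n) f (s n) (j n)) E η θ β js Γ sl := by
  refine ⟨tendsto_atTop.2 fun K => ?_, h.drift, fun x x' ε hε => ?_⟩
  · filter_upwards [hu, h.big.ev (K / c)] with n a b
    rw [div_le_iff₀' hc] at b
    exact_mod_cast b.trans a
  · have C : (0 : ℝ) < dV N D + 2 + |β| + |Γ| := by positivity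
    have p : 0 < ε / 2 / (dV N D + 2 + |β| + |Γ|) := by positivity
    filter_upwards [h.loc (f x) (f x') (ε / 2 * c) (by positivity), hu, e x x' _ p, ej x _ p,
      (eventually_all_finite (Set.finite_Iic (dV N D))).2 fun k _ => es x k _ p] with n a b d g k
    refine (a.re (fun y => m y) d k g).up ?_
    rw [zero_add, ← mul_assoc, mul_div_cancel₀ _ C.ne', mul_assoc]
    show _ ≤ ε * u n
    nlinarith

theorem fl_idx (h : Big (uu X)) {e : ℚ} (he : 0 < e) :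
    (∀ᶠ n in UF, (e / 2 : ℝ) * (X n).u ≤ (⌊(e : ℝ) * (X n).u⌋₊ : ℕ)) ∧
    ∀ (t : ℝ) (g : ℕ → ℝ), (∀ n, g n = t * (e * (X n).u - (⌊(e : ℝ) * (X n).u⌋₊ : ℕ))) →
      Sm (fun n => ⌊(e : ℝ) * (X n).u⌋₊) fun n => |g n| := by
  have e0 : (0 : ℝ) < e := by exact_mod_cast he
  have a : ∀ᶠ n in UF, (e / 2 : ℝ) * (X n).u ≤ (⌊(e : ℝ) * (X n).u⌋₊ : ℕ) :=
    ((LC.eqv_floor h e0).2 _ (half_pos e0)).mono fun n v => by
      simp only [un] at v
      linarith
  refine ⟨a, fun t g hg => Sm.mono (Big.sm (tendsto_atTop.2 fun K => ?_) |t|)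
    (.of_forall fun n => ?_)⟩
  · filter_upwards [a, h.ev (K / (e / 2))] with n u v
    rw [div_le_iff₀' (half_pos e0)] at v
    exact_mod_cast v.trans u
  · have p : (0 : ℝ) ≤ e * (X n).u := by positivity
    rw [hg, abs_mul]
    exact mul_le_of_le_one_right (abs_nonneg t) (abs_le.2
      ⟨by linarith [Nat.floor_le p], by linarith [Nat.lt_floor_add_one ((e : ℝ) * (X n).u)]⟩)

theorem Tq.idx (h : Tq X E η θ β js Γ sl) (a : ℚ) {e : ℚ} (he : 0 < e) :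
    Tq (fun n => (X n).idx sl js a e) E η θ β js Γ sl := by
  obtain ⟨u, v⟩ := fl_idx h.big he
  exact h.re (half_pos (by exact_mod_cast he)) u (fun x y z => by gcongr)
    (fun x x' => v (x' - x) _ fun n => by push_cast; ring)
    (fun x k => v (-(sl k * x)) _ fun n => by push_cast; ring)
    fun x => v (-(js * x)) _ fun n => by push_cast; ring

theorem Tq.nest (h : Tq X E η θ β js Γ sl) {x x' : ℚ} (e : x ≤ x') :
    FnE (PP X) (fun n => (X n).O x) fun n => (X n).O x' :=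
  (h.loc x x' 1 one_pos).mono fun _ a _ _ _ _ k => Prod.ext (Prod.mk.inj k).1
    (fl1_eq_of_le (a.mono e) (Prod.mk.inj k).2)

theorem Tq.lev (h : Tq X E η θ β js Γ sl) (x x' : ℚ) {ε : ℝ} (hε : 0 < ε) : ∀ᶠ n in UF,
    |((X n).lv x' : ℝ) - (X n).lv x - ((x' : ℝ) - x) * (X n).u| ≤ ε * (X n).u := by
  filter_upwards [h.loc x x' ε hε, h.loc x' x ε hε] with n a b
  exact abs_le.2 ⟨by linarith [b.lev], by linarith [a.lev]⟩

theorem Tq.grid (h : Tq X E η θ β js Γ sl) (x x' : ℚ) {δ : ℚ} (hδ : 0 < δ) : ∃ T : Finset ℚ,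
    ∀ᶠ n in UF, ∀ c, (X n).lv x ≤ c → c ≤ (X n).lv x' →
      ∃ y ∈ T, c ≤ (X n).lv y ∧ (X n).lv y ≤ c + ⌊2 * (δ : ℝ) * (X n).u⌋₊ := by
  obtain ⟨T, hT⟩ := exists_nat_ge ((x' - x) / δ)
  rw [div_le_iff₀ hδ] at hT
  refine ⟨(range (T + 1)).image fun t : ℕ => x + t * δ, ?_⟩
  filter_upwards [h.loc x' (x + T * δ) 1 one_pos, (eventually_all_finite (Set.finite_Iic T)).2
    fun t _ => h.loc (x + t * δ) (x + (t + 1 : ℕ) * δ) δ (by exact_mod_cast hδ)] with n a b c c1 c2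
  have ex : ∃ t : ℕ, c ≤ (X n).lv (x + t * δ) := ⟨T, c2.trans (a.mono (by linarith))⟩
  have t1 : Nat.find ex ≤ T := Nat.find_le (c2.trans (a.mono (by linarith)))
  refine ⟨_, mem_image_of_mem _ (mem_range.2 (Nat.lt_succ_of_le t1)), Nat.find_spec ex, ?_⟩
  rcases e : Nat.find ex with _ | t
  · simpa using c1.trans (Nat.le_add_right _ _)
  · have k := not_le.1 (Nat.find_min ex (m := t) (by omega))
    have l := (b t (show t ≤ T by omega)).lev
    rw [← tsub_le_iff_left]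
    refine Nat.le_floor ?_
    have k' : ((X n).lv (x + t * δ) : ℝ) ≤ c := by exact_mod_cast k.le
    rcases le_total ((X n).lv (x + (t + 1 : ℕ) * δ)) c with z | z
    · rw [Nat.sub_eq_zero_of_le z, Nat.cast_zero]; positivity
    · rw [Nat.cast_sub z]
      push_cast at l ⊢
      linarith

/-- From the rational windows to all windows. -/
theorem Tq.win (h : Tq X E η θ β js Γ sl) {m : ℝ} (hm : 0 ≤ m) {i : ℕ}
    (k : ∀ (x x' : ℚ) (ε : ℝ), 0 < ε → ∀ᶠ n in UF,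
      (X n).Hw kf i ((X n).lv x) ((X n).lv x') (m * ε) (ε * (X n).u)) (x x' : ℚ) {ε : ℝ}
    (hε : 0 < ε) : ∀ᶠ n in UF, ∀ c c', (X n).lv x ≤ c → c ≤ (X n).lv x' → (X n).lv x ≤ c' →
      c' ≤ (X n).lv x' → (X n).Hw kf i c c' (m * ε) (ε * (X n).u) := by
  obtain ⟨δ, d0, d1⟩ := exists_rat_btwn (show 0 < ε / 18 by positivity)
  obtain ⟨T, hT⟩ := h.grid x x' (δ := δ) (by exact_mod_cast d0)
  filter_upwards [hT, (eventually_all_finset T).2 fun y _ => (eventually_all_finset T).2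
    fun y' _ => k y y' (ε / 3) (by positivity), h.big.sm (6 * 2 ^ kf i) (ε / 3) (by positivity)]
    with n a b d c c' c1 c2 c3 c4
  obtain ⟨y, y0, y1, y2⟩ := a c c1 c2
  obtain ⟨z, z0, z1, z2⟩ := a c' c3 c4
  refine ((b y y0 z z0).win y1 y2 z1 z2).mono (by nlinarith) ?_
  have := Nat.floor_le (show 0 ≤ 2 * (δ : ℝ) * (X n).u by positivity)
  nlinarith [Nat.cast_nonneg (α := ℝ) (X n).u]

theorem Tq.htb (h : Tq X E η θ β js Γ sl) (k : ∀ (i : ℕ) (x x' : ℚ) (ε : ℝ), 0 < ε → ∀ᶠ n in UF,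
    (X n).Hw kf i ((X n).lv x) ((X n).lv x') ε (ε * (X n).u)) : T1 X E η θ β js Γ kf sl :=
  h.t1 fun i x _ x' _ c c' e ε hε => by
    filter_upwards [e, h.win zero_le_one (by simpa only [one_mul] using k i) x x' hε] with n a b
    simpa only [St.Hw, one_mul, sub_self, zero_mul, sub_zero] using
      b _ _ a.1 (a.2.1.trans a.2.2) (a.1.trans a.2.1) a.2.2

theorem T1.hw (h : T1 X E η θ β js Γ kf sl) (i : ℕ) (x x' : ℚ) (ε : ℝ) (hε : 0 < ε) :
    ∀ᶠ n in UF, (X n).Hw kf i ((X n).lv x) ((X n).lv x') ε (ε * (X n).u) := by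
  rcases le_total x x' with e | e
  · simpa only [St.Hw, sub_self, zero_mul, sub_zero] using h.ht i x trivial x' trivial _ _
      ((h.tb.mono x trivial x' trivial e).mono fun _ a => ⟨le_rfl, a, le_rfl⟩) ε hε
  · filter_upwards [h.tb.mono x' trivial x trivial e] with n a
    refine (ht_one _ _ _ _).mono hε.le (Real.one_le_exp ?_)
    have t1 : 1 / (i + 1 : ℝ) ≤ 1 := by
      rw [div_le_one (by positivity)]; linarith [Nat.cast_nonneg (α := ℝ) i]
    have : (0 : ℝ) ≤ (X n).lv x - (X n).lv x' := sub_nonneg.2 (by exact_mod_cast a)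
    nlinarith [mul_nonneg (mul_nonneg (sub_nonneg.2 t1) this) lg_pos.le,
      mul_nonneg hε.le (Nat.cast_nonneg (α := ℝ) (X n).u)]

theorem t1_iff : T1 X E η θ β js Γ kf sl ↔ Tq X E η θ β js Γ sl ∧
    ∀ (i : ℕ) (x x' : ℚ) (ε : ℝ), 0 < ε → ∀ᶠ n in UF,
      (X n).Hw kf i ((X n).lv x) ((X n).lv x') ε (ε * (X n).u) :=
  ⟨fun h => ⟨h.tq, h.hw⟩, fun h => h.1.htb h.2⟩

theorem cf_t1 : CF fun X : ℕ → St N D => T1 X E η θ β js Γ kf sl :=
  ((cf_tq E η θ β js Γ sl).and (cf_all fun i => cf_all fun x => cf_all fun x' =>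
    cf_eps (S := fun _ => St N D) (p := fun ε _ y => y.Hw kf i (y.lv x) (y.lv x') ε (ε * y.u))
      fun _ _ _ _ _ a b => b.mono a
        (mul_le_mul_of_nonneg_right a (Nat.cast_nonneg _)))).congr fun _ => t1_iff

theorem Ts.t1 (h : Ts X E η θ β js Γ kf sl) : T1 X E η θ β js Γ kf sl :=
  h.toTq.htb fun i x x' ε hε => (h.hs i x x' ε hε).mono fun _ a => a.mono hε.le le_rfl

/-- All windows, surely. -/
theorem Ts.win (h : Ts X E η θ β js Γ kf sl) (i : ℕ) (x x' : ℚ) {ε : ℝ} (hε : 0 < ε) :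
    ∀ᶠ n in UF, ∀ c c', (X n).lv x ≤ c → c ≤ (X n).lv x' → (X n).lv x ≤ c' →
      c' ≤ (X n).lv x' → (X n).Hw kf i c c' 0 (ε * (X n).u) := by
  simpa only [zero_mul] using h.toTq.win le_rfl (by simpa only [zero_mul] using h.hs i) x x' hε

theorem ev_unit {u : ℕ → ℕ} {c ε : ℝ} (hu : ∀ᶠ n in UF, c * (X n).u ≤ u n) (hε : 0 < ε) :
    ∀ᶠ n in UF, ε * c * (X n).u ≤ ε * u n := hu.mono fun n a => by
  rw [mul_assoc]
  exact mul_le_mul_of_nonneg_left a hε.le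

theorem Ts.re (h : Ts X E η θ β js Γ kf sl) {u : ℕ → ℕ} {f : ℚ → ℚ} {s : ℕ → ℕ → ℝ} {j : ℕ → ℝ}
    {c : ℝ} (hc : 0 < c) (hu : ∀ᶠ n in UF, c * (X n).u ≤ u n)
    (k : Tq (fun n => (X n).re (u n) f (s n) (j n)) E η θ β js Γ sl) :
    Ts (fun n => (X n).re (u n) f (s n) (j n)) E η θ β js Γ kf sl :=
  ⟨k, fun i x x' ε hε => ((h.hs i (f x) (f x') (ε * c) (by positivity)).and (ev_unit hu hε)).mono
    fun _ a => St.Hw.mono a.1 le_rfl a.2⟩

/-- Shift and zoom. -/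
theorem Ts.idx (h : Ts X E η θ β js Γ kf sl) (a : ℚ) {e : ℚ} (he : 0 < e) :
    Ts (fun n => (X n).idx sl js a e) E η θ β js Γ kf sl :=
  h.re (half_pos (by exact_mod_cast he)) (fl_idx h.big he).1 (h.toTq.idx a he)

theorem T1.idx (h : T1 X E η θ β js Γ kf sl) (a : ℚ) {e : ℚ} (he : 0 < e) :
    T1 (fun n => (X n).idx sl js a e) E η θ β js Γ kf sl := by
  have e0 : (0 : ℝ) < e / 2 := half_pos (by exact_mod_cast he)
  refine (h.tq.idx a he).htb fun i x x' ε hε => ?_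
  filter_upwards [h.hw i (a + e * x) (a + e * x') (ε * min (e / 2 : ℝ) 1) (by positivity),
    ev_unit (fl_idx h.tb.big he).1 hε] with n u v
  refine St.Hw.mono u (mul_le_of_le_one_right hε.le (min_le_right _ _)) (le_trans ?_ v)
  exact mul_le_mul_of_nonneg_right (mul_le_mul_of_nonneg_left (min_le_left _ _) hε.le)
    (Nat.cast_nonneg _)

/-- New base values. -/
theorem Ts.base (h : Ts X E η θ β js Γ kf sl) {s : ℕ → ℕ → ℝ} {j : ℕ → ℝ}
    (es : ∀ k, Sm (uu X) fun n => |s n k - (X n).s0 k|) (ej : Sm (uu X) fun n => |j n - (X n).j0|) :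
    Ts (fun n => (X n).re (X n).u id (s n) (j n)) E η θ β js Γ kf sl :=
  h.re one_pos (.of_forall fun _ => (one_mul _).le) (h.toTq.re one_pos
    (.of_forall fun _ => (one_mul _).le) monotone_id
    (fun _ _ => Le.of_le fun _ => by simp)
    (fun _ k => by simpa only [id, add_sub_add_right_eq_sub] using es k)
    fun _ => by simpa only [id, add_sub_add_right_eq_sub] using ej)

/-- A slow zoom at the level `a`. -/
theorem slow {K : (ℕ → St N D) → Prop} (hK : CF K) (h : Big (uu X)) (a : ℚ)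
    (k : ∀ e : ℚ, 0 < e → e ≤ 1 → K fun n => (X n).idx sl js a e) {u₀ : ℕ → ℝ}
    (h0 : Sm (uu X) u₀) : ∃ e : ℕ → ℚ, (∀ n, 0 < e n ∧ e n ≤ 1) ∧
      K (fun n => (X n).idx sl js a (e n)) ∧
      Sm (uu X) (fun n => (((X n).idx sl js a (e n)).u : ℝ)) ∧
      Sm (uu fun n => (X n).idx sl js a (e n)) u₀ := by
  let e : ℕ → ℚ := fun k => 1 / (k + 1)
  have e0 : ∀ k, 0 < e k := fun k => by positivity
  have e2 : ∀ k, e k ≤ 1 := fun k => by
    simp only [e]; rw [div_le_one (by positivity)]; linarith [Nat.cast_nonneg (α := ℚ) k]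
  have e1 : ∀ k, (e k : ℝ) = 1 / (k + 1 : ℝ) := fun k => by simp [e]
  let T := fun _ : ℕ => St N D × ℝ
  obtain ⟨k, hk, g⟩ := cf_diag (K := fun _ (Y : ∀ n, T n) =>
      K (fun n => (Y n).1) ∧ Sm (fun n => (Y n).1.u) fun n => (Y n).2)
    (fun _ => ((hK.comp (S' := T) fun _ y => y.1).and
      (cf_sm (S := T) (fun _ y => y.1.u) fun _ y => y.2)))
    (fun k n => ((X n).idx sl js a (e k), u₀ n)) fun i _ _ => ⟨k _ (e0 i) (e2 i), fun ε hε => by
      have p : (0 : ℝ) < e i / 2 := half_pos (by exact_mod_cast e0 i)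
      filter_upwards [h0 (ε * (e i / 2)) (by positivity), ev_unit (fl_idx h (e0 i)).1 hε]
        with n u v
      exact u.trans (add_le_add le_rfl v)⟩
  refine ⟨fun n => e (k n), fun n => ⟨e0 _, e2 _⟩, (g 0).1, fun ε hε => ?_, (g 0).2⟩
  filter_upwards [K31.small hε hk] with n b
  rw [zero_add, ← e1] at *
  exact (Nat.floor_le (mul_nonneg (by exact_mod_cast (e0 _).le) (Nat.cast_nonneg _))).trans
    (mul_le_mul_of_nonneg_right b (Nat.cast_nonneg _))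

theorem Ts.zoom (h : Ts X E η θ β js Γ kf sl) (a : ℚ) {u₀ : ℕ → ℝ} (h0 : Sm (uu X) u₀) :
    ∃ e : ℕ → ℚ, (∀ n, 0 < e n ∧ e n ≤ 1) ∧
      Ts (fun n => (X n).idx sl js a (e n)) E η θ β js Γ kf sl ∧
      Sm (uu X) (fun n => (((X n).idx sl js a (e n)).u : ℝ)) ∧
      Sm (uu fun n => (X n).idx sl js a (e n)) u₀ :=
  slow (cf_ts E η θ β js Γ kf sl) h.big a (fun _ e _ => h.idx a e) h0

variable {W : ℕ → Type} {Q : ∀ n, FP (W n)} {π : ∀ n, W n → (X n).Ω}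

/-- Laws of subexponential density are tangent systems. -/
theorem Ts.dom (h : Ts X E η θ β js Γ kf sl)
    (d : ∀ c : ℝ, 0 < c → ∀ᶠ n in UF, Dn (Real.exp (c * (X n).u)) (Q n) (π n) (X n).P) :
    T1 (fun n => (X n).pull (Q n) (π n)) E η θ β js Γ kf sl := by
  refine (h.toTq.pull d).htb fun i x x' ε hε => ?_
  filter_upwards [h.hs i x x' (ε / 3) (by positivity), d (ε / 3 / 2 ^ kf i) (by positivity),
    big_exp h.big (ε⁻¹ ^ 2 ^ kf i) (η := ε / 3) (by positivity)] with n a b c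
  refine (Ht.dn a b (inv_pos.2 hε)).mono (by simp) ?_
  rw [mul_pow, exp_pow]
  refine (mul_le_mul_of_nonneg_right (mul_le_mul_of_nonneg_left c (Real.exp_pos _).le)
    (Real.exp_pos _).le).trans (le_of_eq ?_)
  rw [← Real.exp_add, ← Real.exp_add]
  congr 1
  ring

theorem Ht.sure {Ω W T : Type} {P : FP Ω} {Y : Ω → ℝ} {K : Ω → T} {k : ℕ} {B C : ℝ} {Q : FP W}
    {π : W → Ω} {G : Ω → Prop} (h : ∀ ω ∈ P.S, En k (QA.sl (cv P K (K ω)) (fun v => ⌊Y v⌋) G) B)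
    (hC : 0 ≤ C) (m : ∀ v ∈ Q.S, π v ∈ P.S ∧ G (π v))
    (d : ∀ v ∈ Q.S, ∀ F : Ω → Prop, pb (cv Q (fun w => K (π w)) (K (π v))) (fun w => F (π w)) ≤
      C * pb (cv P K (K (π v))) F) :
    Ht k Q (fun v => Y (π v)) (fun v => K (π v)) 0 (C ^ 2 ^ k * B) :=
  ⟨fun _ => True, (pb_zero fun _ _ a => a trivial).le, fun v hv =>
    (h _ (m v hv).1).le (nn_sl _ _ _) (nn_sl _ _ _) hC fun y => by
      simp only [sl_coeff]
      exact le_trans (pb_mono fun w hw e => ⟨(m w (cE_sub hw)).2, e.2⟩)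
        (d v hv fun u => G u ∧ ⌊Y u⌋ = y)⟩

theorem good {Ω : Type} {P : FP Ω} {G : Ω → Prop} (h : pb P (fun ω => ¬G ω) ≤ 0) :
    ∀ ω ∈ P.S, G ω := fun ω hω => by_contra fun c => (pb_pos _ ⟨ω, hω, c⟩).not_ge h

/-- Laws that are dominated in the atoms. -/
theorem Ts.pull (h : Ts X E η θ β js Γ kf sl)
    (d : ∀ c : ℝ, 0 < c → ∀ᶠ n in UF, Dn (Real.exp (c * (X n).u)) (Q n) (π n) (X n).P)
    (d' : ∀ (x : ℚ) (c : ℝ), 0 < c → ∀ᶠ n in UF, ∀ v ∈ (Q n).S, ∀ F : (X n).Ω → Prop,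
      pb (((X n).pull (Q n) (π n)).fb x v) (fun w => F (π n w)) ≤
        Real.exp (c * (X n).u) * pb ((X n).fb x (π n v)) F) :
    Ts (fun n => (X n).pull (Q n) (π n)) E η θ β js Γ kf sl := by
  refine ⟨h.toTq.pull d, fun i x x' ε hε => ?_⟩
  filter_upwards [h.hs i x x' (ε / 2) (by positivity), d' x (ε / 2 / 2 ^ kf i) (by positivity),
    d 1 one_pos] with n ⟨G, a, a'⟩ b c
  refine (Ht.sure a' (Real.exp_pos _).le (fun v hv => ⟨c.mem hv, good a _ (c.mem hv)⟩) b).mono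
    le_rfl (le_of_eq ?_)
  rw [exp_pow, ← Real.exp_add]
  congr 1
  ring

variable {G : ∀ n, (X n).Ω → Prop}

theorem dn_res (g : ∀ c : ℝ, 0 < c → ∀ᶠ n in UF, dl (uu X) c n ≤ pb (X n).P (G n)) (c : ℝ)
    (hc : 0 < c) : ∀ᶠ n in UF, Dn (Real.exp (c * (X n).u)) (cE (X n).P (G n)) id (X n).P :=
  (g c hc).mono fun n a => by simpa only [G39.dl_inv] using dn_cE _ (G39.dl_pos _ _ _) a

theorem Trm.mem (g : Trm X G) :
    ∀ᶠ n in UF, ∀ ω ∈ (cE (X n).P (G n)).S, ω ∈ (X n).P.S ∧ G n ω :=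
  (g.top 1 one_pos).mono fun _ a ω => (mem_cE (ex_of_pb ((G39.dl_pos _ _ _).trans_le a)) ω).1

theorem Trm.dom (g : Trm X G) (x : ℚ) (c : ℝ) (hc : 0 < c) :
    ∀ᶠ n in UF, ∀ v ∈ (cE (X n).P (G n)).S, ∀ F : (X n).Ω → Prop,
      pb (((X n).res (G n)).fb x v) F ≤ Real.exp (c * (X n).u) * pb ((X n).fb x v) F :=
  (g.mem.and (g.fb x c hc)).mono fun _ a v hv F =>
    LC.pb_res (a.1 v hv).1 (a.1 v hv).2 (a.2 v (a.1 v hv).1 (a.1 v hv).2) F

/-- Events that are dense in the atoms. -/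
theorem Ts.res (h : Ts X E η θ β js Γ kf sl) (g : Trm X G) :
    Ts (fun n => (X n).res (G n)) E η θ β js Γ kf sl :=
  h.pull (π := fun _ => id) (dn_res g.top) g.dom

theorem ex_trm (h : Big (uu X))
    (g : ∀ c : ℝ, 0 < c → ∀ᶠ n in UF, dl (uu X) c n ≤ pb (X n).P (G n)) :
    ∃ G' : ∀ n, (X n).Ω → Prop, (∀ n ω, G' n ω → G n ω) ∧
      (∀ᶠ n in UF, pb (X n).P (G n) ≤ 2 * pb (X n).P (G' n)) ∧ Trm X G' := by
  obtain ⟨G', a, b, c⟩ := LP.trim (PP X) (fun (x : ℚ) n => (X n).O x) G h g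
  refine ⟨G', a, b, fun e he => ?_, c⟩
  filter_upwards [b, g _ (half_pos he), big_exp h 2 (half_pos he)] with n u v w
  rw [G39.dl_half]
  rw [← G39.dl_inv, le_inv_comm₀ two_pos (G39.dl_pos _ _ _)] at w
  nlinarith [G39.dl_pos (uu X) (e / 2) n]

theorem top_whp (h : Big (uu X)) (g : Whp (PP X) G) (c : ℝ) (hc : 0 < c) :
    ∀ᶠ n in UF, dl (uu X) c n ≤ pb (X n).P (G n) := by
  filter_upwards [g _ one_half_pos, big_exp h 2 hc] with n u w
  rw [← G39.dl_inv, le_inv_comm₀ two_pos (G39.dl_pos _ _ _)] at w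
  rw [pb_not] at u
  linarith

/-- A tangent system is flat in every atom of a large event inside a given event. -/
theorem T1.sure (h : T1 X E η θ β js Γ kf sl) (g : Whp (PP X) G) :
    ∃ G' : ∀ n, (X n).Ω → Prop, (∀ n ω, G' n ω → G n ω) ∧
      (∀ᶠ n in UF, 1 / 4 ≤ pb (X n).P (G' n)) ∧ Trm X G' ∧
      Ts (fun n => (X n).res (G' n)) E η θ β js Γ kf sl := by
  classical
  have k : ∀ (j : ℕ × ℚ × ℚ) (m n : ℕ), ∃ F : (X n).Ω → Prop,
      (X n).Hw kf j.1 ((X n).lv j.2.1) ((X n).lv j.2.2) (1 / (m + 1)) (1 / (m + 1) * (X n).u) →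
      pb (X n).P (fun ω => ¬F ω) ≤ 1 / (m + 1) ∧ ∀ ω ∈ (X n).P.S, En (kf j.1)
        (QA.sl ((X n).fb j.2.1 ω) (fun v => ⌊2 ^ (X n).lv j.2.2 * (X n).g.z v⌋) F)
        (Real.exp (-((1 - 1 / (j.1 + 1 : ℝ)) * (((X n).lv j.2.2 : ℝ) - (X n).lv j.2.1) * lg) +
          1 / (m + 1) * (X n).u)) := fun j m n => by
    by_cases c : (X n).Hw kf j.1 ((X n).lv j.2.1) ((X n).lv j.2.2) (1 / (m + 1))
      (1 / (m + 1) * (X n).u)
    · exact c.imp fun _ a _ => a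
    · exact ⟨fun _ => True, fun a => absurd a c⟩
  choose F hF using k
  have k2 := fun j : ℕ × ℚ × ℚ => KSA.spill _ fun m : ℕ =>
    h.hw j.1 j.2.1 j.2.2 (1 / (m + 1)) (by positivity)
  choose m m1 m2 using k2
  have w : ∀ j, Whp (PP X) fun n => F j (m j n) n := fun j ε hε => by
    filter_upwards [m2 j, K31.small hε (m1 j)] with n a b
    exact (hF j _ n (a _ le_rfl)).1.trans b
  obtain ⟨f, hf⟩ := exists_surjective_nat (ℕ × ℚ × ℚ)
  obtain ⟨E₀, a, b⟩ := whp_diag fun j => w (f j)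
  obtain ⟨G', c1, c2, c3⟩ := ex_trm h.tb.big (top_whp h.tb.big (a.and g))
  refine ⟨G', fun n ω u => (c1 n ω u).2, ?_, c3,
    h.tq.pull (π := fun _ => id) (dn_res c3.top), fun i x x' ε hε => ?_⟩
  · filter_upwards [c2, (a.and g) _ one_half_pos] with n u v
    rw [pb_not] at v
    linarith
  · obtain ⟨j, hj⟩ := hf (i, x, x')
    filter_upwards [b j, c3.mem, c3.dom x (ε / 2 / 2 ^ kf i) (by positivity), m2 (i, x, x'),
      K31.small (half_pos hε) (m1 (i, x, x'))] with n u1 u2 u3 u4 u5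
    rw [hj] at u1
    refine (Ht.sure (π := id) (hF (i, x, x') _ n (u4 _ le_rfl)).2 (Real.exp_pos _).le
      (fun v hv => ⟨(u2 v hv).1, u1 v (c1 n v (u2 v hv).2).1⟩) u3).mono le_rfl ?_
    rw [exp_pow, ← Real.exp_add, Real.exp_le_exp]
    have := mul_le_mul_of_nonneg_right u5 (Nat.cast_nonneg (α := ℝ) (X n).u)
    simp only at this ⊢
    linarith

/-- An event that is not power small contains a member. -/
theorem Ts.trim (h : Ts X E η θ β js Γ kf sl)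
    (g : ∀ c : ℝ, 0 < c → ∀ᶠ n in UF, dl (uu X) c n ≤ pb (X n).P (G n)) :
    ∃ G' : ∀ n, (X n).Ω → Prop, (∀ n ω, G' n ω → G n ω) ∧
      (∀ᶠ n in UF, pb (X n).P (G n) ≤ 2 * pb (X n).P (G' n)) ∧ Trm X G' ∧
      Ts (fun n => (X n).res (G' n)) E η θ β js Γ kf sl :=
  (ex_trm h.big g).imp fun _ a => ⟨a.1, a.2.1, a.2.2, h.res a.2.2⟩

end Classes

end Pool.Agent.MP_5168f5_an.QA
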