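import Pool.Agent.MP_5168f5_an.QA.En5A
import Pool.Agent.MP_5168f5_an.QA.T1Cl

/-! The maximal estimate in all dimensions: closure of the sure bounds. -/

namespace Pool.Agent.MP_5168f5_an.QA

open H19 H17S H17F R4 AN Filter
open G39 (dl)
open LC (Au Mo ex_le)

variable {N D : ℕ}

/-- The sure bounds at one point, with loss `r` and depth `w`. -/
structure St.Sl (X : St N D) (x : ℚ) (r w : ℝ) (ω : X.Ω) : Prop where
  hb : C1.Hb (X.S x ω).ν
  up : ∀ F, (X.S x ω).ν F ≤ Real.exp r * Bn F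
  ht : 2 ^ X.lv x * (X.S x ω).ν (vx 0 - X.g.z ω • v1) ≤ Real.exp r
  thin : ∀ F, (X.S x ω).ν (F - evV (X.g.tp ω) F • v1) ≤ Real.exp (-w) * Bn F
  ff : ∀ (k : Fin N) F, (X.S x ω).ν (dk k.succ F) ≤ Real.exp r * 2 ^ X.M * (X.S x ω).ν F

theorem St.Sl.mono {X : St N D} {x : ℚ} {r r' w w' : ℝ} {ω : X.Ω} (h : X.Sl x r w ω) (a : r ≤ r')
    (b : w' ≤ w) : X.Sl x r' w' ω :=
  ⟨h.hb, fun F => (h.up F).trans (mul_le_mul_of_nonneg_right (ex_le a) (Real.sqrt_nonneg _)),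
    h.ht.trans (ex_le a),
    fun F => (h.thin F).trans (mul_le_mul_of_nonneg_right (ex_le (neg_le_neg b))
      (Real.sqrt_nonneg _)),
    fun k F => (h.ff k F).trans (mul_le_mul_of_nonneg_right
      (mul_le_mul_of_nonneg_right (ex_le a) (by positivity)) (h.hb.nonneg F))⟩

variable {X : ℕ → St N D}

theorem sur_iff : Sur X ↔ ∀ x, Au (uu X) fun n r w => ∀ ω ∈ (X n).P.S, (X n).Sl x r w ω :=
  ⟨fun h x ε hε T => by
    filter_upwards [h.hb x, h.up x ε hε, h.ht x ε hε, h.thin x T, h.ff x ε hε]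
      with n a b c d e ω hω using ⟨a ω hω, b ω hω, c ω hω, d ω hω, e ω hω⟩,
  fun h => ⟨fun x ε hε => (h x ε hε 0).mono fun _ a ω hω => (a ω hω).up,
    fun x ε hε => (h x ε hε 0).mono fun _ a ω hω => (a ω hω).ht,
    fun x K => (h x 1 one_pos K).mono fun _ a ω hω => (a ω hω).thin,
    fun x ε hε => (h x ε hε 0).mono fun _ a ω hω => (a ω hω).ff,
    fun x => (h x 1 one_pos 0).mono fun _ a ω hω => (a ω hω).hb⟩⟩

theorem cf_sur : CF fun X : ℕ → St N D => Sur X :=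
  (cf_all fun x : ℚ => cf_eps (S := fun _ => St N D)
    (p := fun ε _ X => ∀ ω ∈ X.P.S, X.Sl x (ε * X.u) (X.u / ε) ω)
      fun _ _ _ _ a b h ω hω => (h ω hω).mono (mul_le_mul_of_nonneg_right b (Nat.cast_nonneg _))
        (div_le_div_of_nonneg_left (Nat.cast_nonneg _) a b)).congr fun X => sur_iff.trans
    (forall_congr' fun x => (LC.al_iff (M := uu X)
      (ψ := fun n r w => ∀ ω ∈ (X n).P.S, (X n).Sl x r w ω)
      fun _ _ _ _ _ a b h ω hω => (h ω hω).mono a b).symm)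

/-- New comparable units, new levels. -/
theorem Sur.re (h : Sur X) {u : ℕ → ℕ} (f : ℚ → ℚ) (s : ℕ → ℕ → ℝ) (j : ℕ → ℝ) {c C : ℝ}
    (hc : 0 < c) (hu : ∀ᶠ n in UF, c * (X n).u ≤ u n) (hu' : ∀ᶠ n in UF, u n ≤ C * (X n).u) :
    Sur fun n => (X n).re (u n) f (s n) (j n) := sur_iff.2 fun x ε hε T => by
  filter_upwards [sur_iff.1 h (f x) (ε * c) (by positivity) (|T| * C), ev_unit hu hε, hu']
    with n a b d ω hω
  have k := (a ω hω).mono b (w' := T * u n) ((mul_le_mul (le_abs_self T) d (Nat.cast_nonneg _)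
    (abs_nonneg _)).trans_eq (mul_assoc _ _ _).symm)
  exact ⟨k.hb, k.up, k.ht, k.thin, k.ff⟩

/-- Shift and zoom, with any base values. -/
theorem Sur.ix (h : Sur X) (b : Big (uu X)) (a : ℚ) {e : ℚ} (he : 0 < e) (s : ℕ → ℕ → ℝ)
    (j : ℕ → ℝ) :
    Sur fun n => (X n).re ⌊(e : ℝ) * (X n).u⌋₊ (fun x => a + e * x) (s n) (j n) :=
  h.re _ s j (half_pos (by exact_mod_cast he)) (fl_idx b he).1
    (.of_forall fun _ => Nat.floor_le (by positivity))

theorem Sur.idx (h : Sur X) (b : Big (uu X)) (sl : ℕ → ℝ) (js : ℝ) (a : ℚ) {e : ℚ} (he : 0 < e) :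
    Sur fun n => (X n).idx sl js a e := h.ix b a he _ _

theorem Sur.res (h : Sur X) (G : ∀ n, (X n).Ω → Prop) : Sur fun n => (X n).res (G n) :=
  h.pull (π := fun _ => id) (.of_forall fun _ _ => cE_sub)

end Pool.Agent.MP_5168f5_an.QA
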