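import Pool.Agent.MP_5168f5_an.QA.FrAlg
import Pool.Agent.MP_5168f5_an.AN.LC1

/-! The Kakeya maximal estimate: frames with exact increments, a class closed under zooms. -/

namespace Pool.Agent.MP_5168f5_an.QA.Fr

open H19 H17S H17F R4 AN Filter
open G39 (dl)
open C1 (Dg Hb)
open GA (Mt)
open N2 (Uni Bd)

variable {V : Type} [AddCommGroup V] [Module ℝ V] {m : ℕ}

/-- The frame normalised at the level `y`. -/
noncomputable def nz (la : Fin m → ℝ) (y : ℝ) (f : Fin m → V) : Fin m → V :=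
  fun a => Real.exp (la a * y) • f a

/-- The matrix normalised at the level `y`. -/
noncomputable def sc (la : Fin m → ℝ) (y : ℝ) (k : Mt (Fin m)) : Mt (Fin m) :=
  Matrix.of fun p q => Real.exp ((la p - la q) * y) * k p q

/-- The transition matrix from `e` to `f`. -/
noncomputable def tr (f e : Fin m → V) : Mt (Fin m) := Classical.epsilon fun k => f = act k e

variable {Ω Ω' Λ : ℕ → Type} (P : ∀ n, FP (Ω n)) (M : ℕ → ℕ) (B : V → ℝ)
  (ν : ℚ → ∀ n, Ω n → V → ℝ)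

/-- Frames `e` that are never rescaled; inside an atom of a level in `pr` they differ by a matrix
that is unipotent both for the clusters and for the weights. -/
structure F0 (pr : ℚ → Prop) (lv : ℚ → ℕ → ℝ) (T : Fin m → ℕ → ℝ) (kk la : Fin m → ℝ)
    (O : ℚ → ∀ n, Ω n → Λ n) (one tt : V) (pt : ∀ n, Ω n → V →ₗ[ℝ] ℝ) (c : ℕ → ℝ) (o τ : Fin m)
    (e : ∀ n, Ω n → Fin m → V) : Prop where
  big : Big M
  hB : Hb B
  hν : ∀ x, ∀ᶠ n in UF, ∀ ω ∈ (P n).S, Hb (ν x n ω)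
  lev : ∀ x : ℚ, Eqv M (fun n => lv x n - lv 0 n) fun n => (x : ℝ) * M n
  near : ∀ a b, kk a = kk b → la a = la b ∧ Sm M fun n => T a n - T b n
  far : ∀ a b, kk a < kk b →
    Far M (fun n => T a n + la a * lv 0 n) fun n => T b n + la b * lv 0 n
  ko : ∀ a, a ≠ o → kk o < kk a
  lo : la o = 0
  lτ : 0 < la τ
  nest : ∀ x x', x ≤ x' → FnE P (O x) (O x')
  fn : ∀ x, FnE P (ν x) (O x)
  sp : ∀ᶠ n in UF, ∀ ω ∈ (P n).S, Sp (e n ω)
  dB : Su P M fun n ω Γ => Dg B (e n ω) (fun a => Real.exp (T a n)) Γ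
  dg : ∀ x, Su P M fun n ω Γ => Dg (ν x n ω) (e n ω) (fun a => Real.exp (-(la a * lv x n))) Γ
  eo : ∀ᶠ n in UF, ∀ ω ∈ (P n).S, e n ω o = one ∧ e n ω τ = c n • (tt - pt n ω tt • one)
  up : ∀ x, pr x → ∀ᶠ n in UF, ∀ ω ∈ (P n).S, ∀ v ∈ (P n).S, O x n v = O x n ω →
    ∃ k, Uni kk k ∧ Uni la k ∧ e n ω = act k (e n v)
  ev : ∀ (x : ℚ) (K : ℕ), ∀ᶠ n in UF, ∀ ω ∈ (P n).S, ∀ p,
    |pt n ω (e n ω p) - (1 : Mt (Fin m)) p o| * Real.exp (la p * lv x n) ≤ dl M K n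

/-- The gauge `d` between the frames `f` and the frames `act j⁻¹ e` of the model. -/
structure Gau (kk : Fin m → ℝ) (A : ∀ n, Ω n → Λ n) (o τ : Fin m) (f e : ∀ n, Ω n → Fin m → V)
    (j d : ∀ n, Ω n → Mt (Fin m)) : Prop where
  fd : FnE P d A
  bl : ∀ᶠ n in UF, ∀ ω ∈ (P n).S, (∀ p q, kk p ≠ kk q → d n ω p q = 0) ∧
    ∀ q, d n ω o q = (1 : Mt (Fin m)) o q ∧ d n ω τ q = (1 : Mt (Fin m)) τ q
  bd : Su P M fun n ω Γ => B2 (fun _ => 1) Γ (d n ω)
  inc : ∀ᶠ n in UF, ∀ ω ∈ (P n).S, ∀ v ∈ (P n).S, A n v = A n ω → ∀ k,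
    f n ω = act k (f n v) → (j n ω)⁻¹ * j n v = d n ω * k * (d n ω)⁻¹
  ex : ∀ᶠ n in UF, ∀ ω ∈ (P n).S, act (j n ω)⁻¹ (e n ω) o = f n ω o ∧
    act (j n ω)⁻¹ (e n ω) τ = f n ω τ
  cl : ∀ K : ℝ, ∀ᶠ n in UF, ∀ ω ∈ (P n).S, ∃ η : Mt (Fin m), (∀ p q, |η p q| ≤ dl M K n) ∧
    act (j n ω)⁻¹ (e n ω) = act (d n ω + η) (f n ω)

/-- Frames with exact increments exist. -/
def SF0 : Prop := ∀ (V : Type) [AddCommGroup V] [Module ℝ V] (m : ℕ) (Ω Λ : ℕ → Type)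
  (P : ∀ n, FP (Ω n)) (M : ℕ → ℕ) (B : V → ℝ) (ν : ℚ → ∀ n, Ω n → V → ℝ) (T : Fin m → ℕ → ℝ)
  (kk la : Fin m → ℝ) (Ga : ℝ) (O : ℚ → ∀ n, Ω n → Λ n) (one tt : V)
  (pt dr : ∀ n, Ω n → V →ₗ[ℝ] ℝ) (c : ℕ → ℝ) (s : ℝ), NF P M B ν T kk la Ga →
  PT P M B ν O one tt pt dr c s → ∃ o τ e, la τ = s ∧
    F0 P M B ν (fun _ => True) (fun x n => x * M n) T kk la O one tt pt c o τ e

/-- The common label and the model, for every member of the class. -/
def STT : Prop := ∀ (V : Type) [AddCommGroup V] [Module ℝ V] (m : ℕ) (Ω Λ : ℕ → Type)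
  (P : ∀ n, FP (Ω n)) (M : ℕ → ℕ) (B : V → ℝ) (ν : ℚ → ∀ n, Ω n → V → ℝ) (pr : ℚ → Prop)
  (lv : ℚ → ℕ → ℝ) (T : Fin m → ℕ → ℝ) (kk la : Fin m → ℝ) (O : ℚ → ∀ n, Ω n → Λ n) (one tt : V)
  (pt : ∀ n, Ω n → V →ₗ[ℝ] ℝ) (c : ℕ → ℝ) (o τ : Fin m) (f : ∀ n, Ω n → Fin m → V),
  F0 P M B ν pr lv T kk la O one tt pt c o τ f → ∃ R, ∀ X : ℕ, pr (-X) → ∃ TT e t₀ j d,
    Mod P M B ν (fun a n => T a n + la a * lv 0 n) kk la O one tt pt
      (fun n => Real.exp (la τ * lv 0 n) * c n) (la τ) o τ R (fun _ => X) TT e t₀ j ∧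
    Gau P M kk (O (-X)) o τ (fun n ω => nz la (lv 0 n) (f n ω)) e j d

variable {P M B ν} {pr pr' : ℚ → Prop} {lv : ℚ → ℕ → ℝ} {T : Fin m → ℕ → ℝ} {kk la : Fin m → ℝ}
  {O : ℚ → ∀ n, Ω n → Λ n} {one tt : V} {pt : ∀ n, Ω n → V →ₗ[ℝ] ℝ} {c : ℕ → ℝ} {o τ : Fin m}
  {e : ∀ n, Ω n → Fin m → V}

theorem tr_spec {f e : Fin m → V} {k : Mt (Fin m)} (h : f = act k e) : f = act (tr f e) e :=
  Classical.epsilon_spec (p := fun k => f = act k e) ⟨k, h⟩

theorem act_nz (y : ℝ) (k : Mt (Fin m)) (f : Fin m → V) :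
    nz la y (act k f) = act (sc la y k) (nz la y f) := funext fun p => by
  simp only [nz, act, sc, Finset.smul_sum, smul_smul, Matrix.of_apply]
  refine Finset.sum_congr rfl fun q _ => ?_
  rw [mul_right_comm, ← Real.exp_add]
  congr 3
  ring

theorem F0.mono (h : F0 P M B ν pr lv T kk la O one tt pt c o τ e) (a : ∀ x, pr' x → pr x) :
    F0 P M B ν pr' lv T kk la O one tt pt c o τ e := { h with up := fun x b => h.up x (a x b) }

/-- The increments are the transition matrices, and they lie in the box of the level. -/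
theorem F0.inc (h : F0 P M B ν pr lv T kk la O one tt pt c o τ e) {x : ℚ} (a : pr x) :
    (∀ᶠ n in UF, ∀ ω ∈ (P n).S, ∀ v ∈ (P n).S, O x n v = O x n ω → Uni kk (tr (e n ω) (e n v)) ∧
      Uni la (tr (e n ω) (e n v)) ∧ e n ω = act (tr (e n ω) (e n v)) (e n v)) ∧
    Su P M fun n ω Γ => ∀ v ∈ (P n).S, O x n v = O x n ω →
      B2 (fun a => Real.exp (-(la a * lv x n))) Γ (tr (e n ω) (e n v)) := by
  obtain ⟨Γ, s, d⟩ := h.dg x
  have k : ∀ᶠ n in UF, ∀ ω ∈ (P n).S, ∀ v ∈ (P n).S, O x n v = O x n ω →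
      Uni kk (tr (e n ω) (e n v)) ∧ Uni la (tr (e n ω) (e n v)) ∧
      e n ω = act (tr (e n ω) (e n v)) (e n v) := by
    filter_upwards [h.up x a, d, h.hν x] with n u d b ω hω v hv z
    obtain ⟨k, k1, k2, k3⟩ := u ω hω v hv z
    rw [act_inj (d v hv) (b v hv) (fun _ => Real.exp_pos _) ((tr_spec k3).symm.trans k3)]
    exact ⟨k1, k2, k3⟩
  refine ⟨k, _, s.mul s, ?_⟩
  filter_upwards [k, d, h.fn x] with n k d f ω hω v hv z
  refine b2_dg (d v hv) ?_ (s.pos n).le (s.pos n).le (fun _ => Real.exp_pos _) (k ω hω v hv z).1.det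
  rw [← (k ω hω v hv z).2.2, f v hv ω hω z]
  exact d ω hω

/-- Pull back along a map of the supports. -/
theorem F0.pull (h : F0 P M B ν pr lv T kk la O one tt pt c o τ e) {Q : ∀ n, FP (Ω' n)}
    {ρ : ∀ n, Ω' n → Ω n} (a : ∀ᶠ n in UF, ∀ v ∈ (Q n).S, ρ n v ∈ (P n).S) :
    F0 Q M B (fun x n v => ν x n (ρ n v)) pr lv T kk la (fun x n v => O x n (ρ n v)) one tt
      (fun n v => pt n (ρ n v)) c o τ fun n v => e n (ρ n v) :=
  have k : ∀ {q : ∀ n, Ω n → Prop}, (∀ᶠ n in UF, ∀ ω ∈ (P n).S, q n ω) →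
      ∀ᶠ n in UF, ∀ v ∈ (Q n).S, q n (ρ n v) := fun b =>
    (b.and a).mono fun _ d v hv => d.1 _ (d.2 v hv)
  { h with
    hν := fun x => k (h.hν x)
    nest := fun x x' b => ((h.nest x x' b).and a).mono fun _ d u hu v hv =>
      d.1 _ (d.2 u hu) _ (d.2 v hv)
    fn := fun x => ((h.fn x).and a).mono fun _ d u hu v hv => d.1 _ (d.2 u hu) _ (d.2 v hv)
    sp := k h.sp
    dB := h.dB.imp fun _ b => ⟨b.1, k b.2⟩
    dg := fun x => (h.dg x).imp fun _ b => ⟨b.1, k b.2⟩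
    eo := k h.eo
    up := fun x b => ((h.up x b).and a).mono fun _ d u hu v hv => d.1 _ (d.2 u hu) _ (d.2 v hv)
    ev := fun x K => k (h.ev x K) }

/-- Shift and zoom. -/
theorem F0.idx (h : F0 P M B ν pr lv T kk la O one tt pt c o τ e) (a : ℚ) {b : ℚ} (hb : 0 < b) :
    F0 P (fun n => ⌊(b : ℝ) * M n⌋₊) B (fun x => ν (a + b * x)) (fun x => pr (a + b * x))
      (fun x => lv (a + b * x)) T kk la (fun x => O (a + b * x)) one tt pt c o τ e := by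
  have b0 : (0 : ℝ) < b := by exact_mod_cast hb
  have e0 := LC.eqv_floor h.big b0
  have e1 : ∀ n, (⌊(b : ℝ) * M n⌋₊ : ℝ) ≤ b * M n := fun n => Nat.floor_le (by positivity)
  have e2 : ∀ᶠ n in UF, (b : ℝ) / 2 * M n ≤ ⌊(b : ℝ) * M n⌋₊ :=
    (e0.2 _ (half_pos b0)).mono fun n v => by simp only [un] at v; linarith
  have e3 : ∀ (x : ℝ) n, |x * (b * M n) - x * ⌊(b : ℝ) * M n⌋₊| ≤ |x| := fun x n => by
    rw [← mul_sub, abs_mul]
    exact mul_le_of_le_one_right (abs_nonneg _) (Nat.abs_sub_floor_le (by positivity))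
  have le : ∀ {f g : ℕ → ℝ}, Le M f g → Le (fun n => ⌊(b : ℝ) * M n⌋₊) f g := fun k ε hε => by
    filter_upwards [k (ε * (b / 2)) (by positivity), e2] with n u v
    nlinarith
  have sb : ∀ {q : ∀ n, Ω n → ℝ → Prop}, Su P M q → Su P (fun n => ⌊(b : ℝ) * M n⌋₊) q :=
    fun k => k.imp fun Γ k => ⟨⟨k.1.1, fun ε hε => by
      filter_upwards [k.1.2 (ε * (b / 2)) (by positivity), e2] with n u v
      exact u.trans (Real.exp_le_exp.2 (by nlinarith))⟩, k.2⟩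
  refine { h with
    big := tendsto_nat_floor_atTop.comp
      ((tendsto_natCast_atTop_atTop.comp h.big).const_mul_atTop b0)
    hν := fun x => h.hν _
    lev := fun x => ⟨le fun ε hε => ?_, le fun ε hε => ?_⟩
    near := fun p q k => ⟨(h.near p q k).1, le (h.near p q k).2⟩
    far := fun p q k K => ?_
    nest := fun x x' k => h.nest _ _ (by nlinarith)
    fn := fun x => h.fn _
    dB := sb h.dB
    dg := fun x => sb (h.dg _)
    up := fun x => h.up _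
    ev := fun x K => (h.ev _ ⌈K * (b : ℝ)⌉₊).mono fun n u ω hω p => (u ω hω p).trans
      (Real.exp_le_exp.2 (neg_le_neg ?_)) }
  · filter_upwards [(h.lev (a + b * x)).1 (ε / 3) (by positivity),
      (h.lev (a + b * 0)).2 (ε / 3) (by positivity), h.big.sm |(x : ℝ)| (ε / 3) (by positivity)]
      with n u v w
    push_cast at u v
    linarith [abs_le.1 (e3 x n)]
  · filter_upwards [(h.lev (a + b * x)).2 (ε / 3) (by positivity),
      (h.lev (a + b * 0)).1 (ε / 3) (by positivity), h.big.sm |(x : ℝ)| (ε / 3) (by positivity)]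
      with n u v w
    push_cast at u v
    linarith [abs_le.1 (e3 x n)]
  · filter_upwards [h.far p q k (|K| * b + |la p - la q| * (|(a : ℝ)| + 1)),
      (h.lev (a + b * 0)).1 1 one_pos, (h.lev (a + b * 0)).2 1 one_pos] with n u v w
    push_cast at v w
    have m0 : (0 : ℝ) ≤ M n := Nat.cast_nonneg _
    have t1 : |lv (a + b * 0) n - lv 0 n| ≤ (|(a : ℝ)| + 1) * M n := abs_le.2
      ⟨by nlinarith [neg_abs_le (a : ℝ)], by nlinarith [le_abs_self (a : ℝ)]⟩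
    have t2 := (le_abs_self _).trans ((abs_mul _ _).trans_le
      (mul_le_mul_of_nonneg_left t1 (abs_nonneg (la p - la q))))
    have t3 := mul_le_mul (le_abs_self K) (e1 n) (Nat.cast_nonneg _) (abs_nonneg K)
    linarith
  · exact (mul_le_mul_of_nonneg_left (e1 n) (Nat.cast_nonneg _)).trans ((mul_assoc _ _ _).symm.le.trans
      (mul_le_mul_of_nonneg_right (Nat.le_ceil _) (Nat.cast_nonneg _)))

theorem far_nat {a b : ℕ → ℝ} : Far M a b ↔ ∀ K : ℕ, ∀ᶠ n in UF, a n + K * M n ≤ b n :=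
  ⟨fun h K => h K, fun h K => (h ⌈K⌉₊).mono fun _ k => le_trans (add_le_add le_rfl
    (mul_le_mul_of_nonneg_right (Nat.le_ceil K) (Nat.cast_nonneg _))) k⟩

/-- The class is given by countably many eventual conditions. -/
theorem cf_F0 {S : ℕ → Type*} {W Λ : ∀ n, S n → Type} (P : ∀ n z, FP (W n z)) (M : ∀ n, S n → ℕ)
    (B : V → ℝ) (ν : ∀ n z, ℚ → W n z → V → ℝ) (pr : ℚ → Prop) (lv : ∀ n, S n → ℚ → ℝ)
    (T : ∀ n, S n → Fin m → ℝ) (kk la : Fin m → ℝ) (O : ∀ n z, ℚ → W n z → Λ n z) (one tt : V)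
    (pt : ∀ n z, W n z → V →ₗ[ℝ] ℝ) (c : ∀ n, S n → ℝ) (o τ : Fin m)
    (e : ∀ n z, W n z → Fin m → V) : CF fun Z : ∀ n, S n =>
      F0 (fun n => P n (Z n)) (fun n => M n (Z n)) B (fun x n => ν n (Z n) x) pr
        (fun x n => lv n (Z n) x) (fun a n => T n (Z n) a) kk la (fun x n => O n (Z n) x) one tt
        (fun n => pt n (Z n)) (fun n => c n (Z n)) o τ fun n => e n (Z n) :=
  ((cf_big M).and ((cf_const (Hb B ∧ (∀ a, a ≠ o → kk o < kk a) ∧ la o = 0 ∧ 0 < la τ)).and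
    ((cf_all fun x => cf_ev fun n z => ∀ ω ∈ (P n z).S, Hb (ν n z x ω)).and
    ((cf_all fun x : ℚ => (cf_le M (fun n z => lv n z x - lv n z 0) fun n z => x * M n z).and
      (cf_le M (fun n z => x * M n z) fun n z => lv n z x - lv n z 0)).and
    ((cf_all fun a => cf_all fun b => cf_all fun _ : kk a = kk b => (cf_const (la a = la b)).and
      (cf_sm M fun n z => T n z a - T n z b)).and
    ((cf_all fun a => cf_all fun b => cf_all fun _ : kk a < kk b => cf_all fun K : ℕ =>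
      cf_ev fun n z => T n z a + la a * lv n z 0 + K * M n z ≤ T n z b + la b * lv n z 0).and
    ((cf_all fun x => cf_all fun x' => cf_all fun _ : x ≤ x' =>
      cf_ev fun n z => Fn (P n z) (O n z x) (O n z x')).and
    ((cf_all fun x => cf_ev fun n z => Fn (P n z) (ν n z x) (O n z x)).and
    ((cf_ev fun n z => ∀ ω ∈ (P n z).S, Sp (e n z ω)).and
    ((cf_sub M fun n z Γ => ∀ ω ∈ (P n z).S, Dg B (e n z ω) (fun a => Real.exp (T n z a)) Γ).and
    ((cf_all fun x => cf_sub M fun n z Γ => ∀ ω ∈ (P n z).S,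
      Dg (ν n z x ω) (e n z ω) (fun a => Real.exp (-(la a * lv n z x))) Γ).and
    ((cf_ev fun n z => ∀ ω ∈ (P n z).S, e n z ω o = one ∧
      e n z ω τ = c n z • (tt - pt n z ω tt • one)).and
    ((cf_all fun x => cf_all fun _ : pr x => cf_ev fun n z => ∀ ω ∈ (P n z).S, ∀ v ∈ (P n z).S,
      O n z x v = O n z x ω → ∃ k, Uni kk k ∧ Uni la k ∧ e n z ω = act k (e n z v)).and
    (cf_all fun x => cf_all fun K : ℕ => cf_ev fun n z => ∀ ω ∈ (P n z).S, ∀ p,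
      |pt n z ω (e n z ω p) - (1 : Mt (Fin m)) p o| * Real.exp (la p * lv n z x) ≤
        Real.exp (-(K * M n z)))))))))))))))).congr fun _ =>
    ⟨fun h => ⟨h.big, ⟨h.hB, h.ko, h.lo, h.lτ⟩, h.hν, h.lev, h.near,
      fun a b k => far_nat.1 (h.far a b k), h.nest, h.fn, h.sp, h.dB, h.dg, h.eo, h.up, h.ev⟩,
    fun ⟨h1, h2, h3, h4, h5, h6, h7, h8, h9, ha, hb, hc, hd, he⟩ => ⟨h1, h2.1, h3, h4, h5,
      fun a b k => far_nat.2 (h6 a b k), h2.2.1, h2.2.2.1, h2.2.2.2, h7, h8, h9, ha, hb, hc, hd, he⟩⟩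

end Pool.Agent.MP_5168f5_an.QA.Fr
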