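import Pool.Agent.MP_5168f5_an.QA.AbD
import Pool.Agent.MP_5168f5_an.QA.FrZ
import Pool.Agent.MP_5168f5_an.QA.En5C

/-! The base class of the local part: closure properties. -/

namespace Pool.Agent.MP_5168f5_an.QA.AB

open H19 H17S H17F R4 AN Filter MvPolynomial
open G39 (dl)
open C1 (Dg)
open GA (Mt)
open N2 (Uni Bd El eB eW)
open Fr (act Sp Su Far far_nat)

variable {N D m : ℕ} (kk la : Fin m → ℝ) (o τ : Fin m)

/-- The conditions that hold for every depth of the common label. -/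
structure M0 (X : ℕ → St N D) (F : ∀ n, Fd N D m (X n).Ω) : Prop where
  ko : ∀ a, a ≠ o → kk o < kk a
  lo : la o = 0
  lτ : la τ = lg
  near : ∀ a b, kk a = kk b → la a = la b ∧ Sm (uu X) fun n => (F n).T a - (F n).T b
  far : ∀ a b, kk a < kk b → Far (uu X) (fun n => (F n).T a + la a * lb (X n) (F n) 0)
    fun n => (F n).T b + la b * lb (X n) (F n) 0
  eo : ∀ᶠ n in UF, ∀ ω ∈ (X n).P.S, ((F n).E ω o).1 = 1 ∧
    ∃ t : ℝ, ((F n).E ω τ).1 = C (Real.exp (lg * (F n).b)) * MvPolynomial.X 0 - C t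
  uj : ∀ᶠ n in UF, ∀ ω ∈ (X n).P.S, Uni kk ((F n).J ω)
  row : ∀ᶠ n in UF, ∀ ω ∈ (X n).P.S, ∀ q, q ≠ o → (F n).J ω τ q = (1 : Mt (Fin m)) τ q
  sp : ∀ᶠ n in UF, ∀ ω ∈ (X n).P.S, Sp ((F n).f ω)
  dB : Su (PP X) (uu X) fun n ω Γ => Dg Bn ((F n).f ω) (fun a => Real.exp ((F n).T a)) Γ
  dg : ∀ x, Su (PP X) (uu X) fun n ω Γ =>
    Dg ((X n).S x ω).ν ((F n).f ω) (rd la (X n) (F n) x) Γ
  ev : ∀ K : ℝ, ∀ᶠ n in UF, ∀ ω ∈ (X n).P.S, ∀ p,
    |eval ((X n).g.tp ω) ((F n).f ω p).1 - (1 : Mt (Fin m)) p o| ≤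
      dl (uu X) K n * rd la (X n) (F n) 0 p

/-- The conditions at the level `x`. -/
structure ML (x : ℚ) (X : ℕ → St N D) (F : ∀ n, Fd N D m (X n).Ω) : Prop where
  fe : FnE (PP X) (fun n => (F n).E) fun n => (X n).O x
  few : Su (PP X) (uu X) fun n ω Γ => ∃ U : Finset (Fin m → VD N D), (U.card : ℝ) ≤ Γ ∧
    ∀ v ∈ (X n).P.S, ((X n).S x v).ν = ((X n).S x ω).ν → (F n).E v ∈ U
  up : ∀ᶠ n in UF, ∀ ω ∈ (X n).P.S, ∀ v ∈ (X n).P.S, (X n).O x v = (X n).O x ω →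
    Uni la (((F n).J ω)⁻¹ * (F n).J v)
  inc : Su (PP X) (uu X) fun n ω Γ => ∀ v ∈ (X n).P.S, (X n).O x v = (X n).O x ω →
    Bd (rd la (X n) (F n) x) Γ (((F n).J ω)⁻¹ * (F n).J v)

theorem mi_iff {X : ℕ → St N D} {F : ∀ n, Fd N D m (X n).Ω} :
    MI kk la o τ X F ↔ M0 kk la o τ X F ∧ ∀ x, ML la x X F :=
  ⟨fun h => ⟨⟨h.ko, h.lo, h.lτ, h.near, h.far, h.eo, h.uj, h.row, h.sp, h.dB, h.dg, h.ev⟩,
    fun x => ⟨h.fe x, h.few x, h.up x, h.inc x⟩⟩,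
  fun ⟨h, k⟩ => ⟨h.ko, h.lo, h.lτ, h.near, h.far, fun x => (k x).fe, fun x => (k x).few, h.eo,
    h.uj, h.row, h.sp, h.dB, h.dg, fun x => (k x).up, fun x => (k x).inc, h.ev⟩⟩

theorem rd_pos (X : St N D) (F : Fd N D m X.Ω) (x : ℚ) (a : Fin m) : 0 < rd la X F x a :=
  Real.exp_pos _

/-- A condition for all depths. -/
theorem all_nat {M : ℕ → ℕ} {p : ℕ → ℝ → Prop} (h : ∀ n a b, a ≤ b → p n b → p n a) :
    (∀ K : ℝ, ∀ᶠ n in UF, p n (K * M n)) ↔ ∀ K : ℕ, ∀ᶠ n in UF, p n (K * M n) :=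
  ⟨fun a K => a K, fun a K => (a ⌈K⌉₊).mono fun n => h n _ _
    (mul_le_mul_of_nonneg_right (Nat.le_ceil K) (Nat.cast_nonneg _))⟩

section CF

variable {S : ℕ → Type*} (x : ∀ n, S n → St N D) (f : ∀ n z, Fd N D m (x n z).Ω)

theorem cf_m0 : CF fun Z : ∀ n, S n => M0 kk la o τ (fun n => x n (Z n)) fun n => f n (Z n) :=
  ((cf_const ((∀ a, a ≠ o → kk o < kk a) ∧ la o = 0 ∧ la τ = lg)).and
    ((cf_all fun a => cf_all fun b => cf_all fun _ : kk a = kk b => (cf_const (la a = la b)).and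
      (cf_sm (fun n z => (x n z).u) fun n z => (f n z).T a - (f n z).T b)).and
    ((cf_all fun a => cf_all fun b => cf_all fun _ : kk a < kk b => cf_all fun K : ℕ =>
      cf_ev fun n z => (f n z).T a + la a * lb (x n z) (f n z) 0 + K * (x n z).u ≤
        (f n z).T b + la b * lb (x n z) (f n z) 0).and
    ((cf_ev fun n z => ∀ ω ∈ (x n z).P.S, ((f n z).E ω o).1 = 1 ∧ ∃ t : ℝ,
      ((f n z).E ω τ).1 = C (Real.exp (lg * (f n z).b)) * MvPolynomial.X 0 - C t).and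
    ((cf_ev fun n z => ∀ ω ∈ (x n z).P.S, Uni kk ((f n z).J ω)).and
    ((cf_ev fun n z => ∀ ω ∈ (x n z).P.S, ∀ q, q ≠ o →
      (f n z).J ω τ q = (1 : Mt (Fin m)) τ q).and
    ((cf_ev fun n z => ∀ ω ∈ (x n z).P.S, Sp ((f n z).f ω)).and
    ((cf_sub (fun n z => (x n z).u) fun n z Γ => ∀ ω ∈ (x n z).P.S,
      Dg Bn ((f n z).f ω) (fun a => Real.exp ((f n z).T a)) Γ).and
    ((cf_all fun y => cf_sub (fun n z => (x n z).u) fun n z Γ => ∀ ω ∈ (x n z).P.S,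
      Dg ((x n z).S y ω).ν ((f n z).f ω) (rd la (x n z) (f n z) y) Γ).and
    (cf_all fun K : ℕ => cf_ev fun n z => ∀ ω ∈ (x n z).P.S, ∀ p,
      |eval ((x n z).g.tp ω) ((f n z).f ω p).1 - (1 : Mt (Fin m)) p o| ≤
        Real.exp (-(K * (x n z).u)) * rd la (x n z) (f n z) 0 p)))))))))).congr fun Z =>
    ⟨fun h => ⟨⟨h.ko, h.lo, h.lτ⟩, h.near, fun a b k => far_nat.1 (h.far a b k), h.eo, h.uj,
      h.row, h.sp, h.dB, h.dg, fun K => h.ev K⟩,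
    fun ⟨h1, h2, h3, h4, h5, h6, h7, h8, h9, ha⟩ => ⟨h1.1, h1.2.1, h1.2.2, h2,
      fun a b k => far_nat.2 (h3 a b k), h4, h5, h6, h7, h8, h9,
      (all_nat (p := fun n r => ∀ ω ∈ (x n (Z n)).P.S, ∀ p,
        |eval ((x n (Z n)).g.tp ω) ((f n (Z n)).f ω p).1 - (1 : Mt (Fin m)) p o| ≤
          Real.exp (-r) * rd la (x n (Z n)) (f n (Z n)) 0 p) fun _ _ _ e k ω hω p =>
        (k ω hω p).trans (mul_le_mul_of_nonneg_right (LC.ex_le (neg_le_neg e))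
          (rd_pos la _ _ _ _).le)).2 ha⟩⟩

theorem cf_ml (y : ℚ) : CF fun Z : ∀ n, S n => ML la y (fun n => x n (Z n)) fun n => f n (Z n) :=
  ((cf_ev fun n z => Fn (x n z).P (f n z).E ((x n z).O y)).and
    ((cf_sub (fun n z => (x n z).u) fun n z Γ => ∀ ω ∈ (x n z).P.S,
      ∃ U : Finset (Fin m → VD N D), (U.card : ℝ) ≤ Γ ∧ ∀ v ∈ (x n z).P.S,
        ((x n z).S y v).ν = ((x n z).S y ω).ν → (f n z).E v ∈ U).and
    ((cf_ev fun n z => ∀ ω ∈ (x n z).P.S, ∀ v ∈ (x n z).P.S, (x n z).O y v = (x n z).O y ω →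
      Uni la (((f n z).J ω)⁻¹ * (f n z).J v)).and
    (cf_sub (fun n z => (x n z).u) fun n z Γ => ∀ ω ∈ (x n z).P.S, ∀ v ∈ (x n z).P.S,
      (x n z).O y v = (x n z).O y ω →
        Bd (rd la (x n z) (f n z) y) Γ (((f n z).J ω)⁻¹ * (f n z).J v))))).congr fun _ =>
    ⟨fun h => ⟨h.fe, h.few, h.up, h.inc⟩, fun h => ⟨h.1, h.2.1, h.2.2.1, h.2.2.2⟩⟩

theorem cf_mi : CF fun Z : ∀ n, S n => MI kk la o τ (fun n => x n (Z n)) fun n => f n (Z n) :=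
  ((cf_m0 kk la o τ x f).and (cf_all fun y => cf_ml la x f y)).congr fun _ => mi_iff kk la o τ

theorem cf_ha {κ : Type} [Fintype κ] [DecidableEq κ] {W Λ : ∀ n, S n → Type} (wt : κ → ℝ)
    (c : κ → κ → κ → ℝ) (T : Finset κ) (C L : ℝ) (p : ∀ n z, PA.Pr κ (W n z) (Λ n z))
    (a : ∀ n z, W n z → κ → κ → ℝ) : CF fun Z : ∀ n, S n =>
      PA.HA wt c T C L (fun n => p n (Z n)) fun n => a n (Z n) :=
  ((cf_ev fun n z => ∀ ω ∈ (p n z).P.S, PA.Sh wt T C ((p n z).W ω) (a n z ω)).and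
    ((cf_all fun K : ℕ => cf_ev fun n z => (p n z).Sb c (a n z) (K * (p n z).M)).and
    ((cf_all fun y => cf_ev fun n z => Fn (p n z).P (a n z) ((p n z).O y)).and
    ((cf_all fun y => cf_all fun K : ℕ => cf_ev fun n z =>
      (p n z).Inc wt (a n z) y (K * (p n z).M)).and
    (cf_all fun y => cf_all fun K : ℕ => cf_eps (p := fun ε n z =>
      (p n z).Ac wt c T L (a n z) y (ε * (p n z).M) (K * (p n z).M)) fun _ _ n z _ b =>
        (p n z).mo_ac wt c T L _ y _ _ _ _ (mul_le_mul_of_nonneg_right b (Nat.cast_nonneg _))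
          le_rfl))))).congr fun Z =>
    ⟨fun h => ⟨h.sh, fun K => h.sb K, fun y => h.fn y trivial, fun y K => h.inc y trivial K,
      fun y K => h.ac y K⟩,
    fun ⟨h1, h2, h3, h4, h5⟩ => ⟨⟨h1, (all_nat (p := fun n r => (p n (Z n)).Sb c (a n (Z n)) r)
      fun n _ _ e => (p n (Z n)).mo_sb c _ 0 0 _ _ le_rfl e).2 h2, fun y _ => h3 y,
      fun y _ => (all_nat (p := fun n r => (p n (Z n)).Inc wt (a n (Z n)) y r)
        fun n _ _ e => (p n (Z n)).mo_inc wt _ y 0 0 _ _ le_rfl e).2 (h4 y)⟩,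
      fun y T => PA.HC.mono (h5 y ⌈T⌉₊) (Nat.le_ceil T)⟩⟩

theorem cf_fm (T : Finset (El la)) (C L : ℝ) (a : ∀ n z, (x n z).Ω → El la → El la → ℝ) :
    CF fun Z : ∀ n, S n =>
      FM kk la o τ T C L (fun n => x n (Z n)) (fun n => f n (Z n)) fun n => a n (Z n) :=
  ((cf_mi kk la o τ x f).and (cf_ha (eW la) 0 T C L (fun n z => pr kk la o τ (x n z) (f n z))
    a)).congr fun _ => ⟨fun h => ⟨h.toMI, h.ha⟩, fun h => ⟨h.1, h.2⟩⟩

end CF

variable {kk la o τ} {X : ℕ → St N D} {F : ∀ n, Fd N D m (X n).Ω} {E : ℕ} {η θ β js Γ : ℝ}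
  {sl : ℕ → ℝ} {S : Finset (El la)} {C L : ℝ} {A : ∀ n, (X n).Ω → El la → El la → ℝ}
  {W : ℕ → Type} {Q : ∀ n, FP (W n)} {π : ∀ n, W n → (X n).Ω}

/-- Pull back along a map of the supports. -/
theorem MI.pull (h : MI kk la o τ X F) (a : ∀ᶠ n in UF, ∀ v ∈ (Q n).S, π n v ∈ (X n).P.S) :
    MI kk la o τ (fun n => (X n).pull (Q n) (π n)) fun n => (F n).pull (π n) :=
  have k : ∀ {q : ∀ n, (X n).Ω → Prop}, (∀ᶠ n in UF, ∀ ω ∈ (X n).P.S, q n ω) →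
      ∀ᶠ n in UF, ∀ v ∈ (Q n).S, q n (π n v) := fun b =>
    (b.and a).mono fun _ d v hv => d.1 _ (d.2 v hv)
  ⟨h.ko, h.lo, h.lτ, h.near, h.far,
    fun x => ((h.fe x).and a).mono fun _ d u hu v hv => d.1 _ (d.2 u hu) _ (d.2 v hv),
    fun x => (h.few x).imp fun _ b => ⟨b.1, (b.2.and a).mono fun _ d u hu =>
      (d.1 _ (d.2 u hu)).imp fun _ e => ⟨e.1, fun v hv => e.2 _ (d.2 v hv)⟩⟩,
    k h.eo, k h.uj, k h.row, k h.sp, h.dB.imp fun _ b => ⟨b.1, k b.2⟩,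
    fun x => (h.dg x).imp fun _ b => ⟨b.1, k b.2⟩,
    fun x => ((h.up x).and a).mono fun _ d u hu v hv => d.1 _ (d.2 u hu) _ (d.2 v hv),
    fun x => (h.inc x).imp fun _ b => ⟨b.1, (b.2.and a).mono fun _ d u hu v hv =>
      d.1 _ (d.2 u hu) _ (d.2 v hv)⟩, fun K => k (h.ev K)⟩

theorem MI.res (h : MI kk la o τ X F) (G : ∀ n, (X n).Ω → Prop) :
    MI kk la o τ (fun n => (X n).res (G n)) F :=
  h.pull (π := fun _ => id) (.of_forall fun _ _ => cE_sub)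

theorem su_unit {Ω : ℕ → Type} {P : ∀ n, FP (Ω n)} {M u : ℕ → ℕ} {c : ℝ} (hc : 0 < c)
    (hu : ∀ᶠ n in UF, c * M n ≤ u n) {q : ∀ n, Ω n → ℝ → Prop} (h : Su P M q) : Su P u q :=
  h.imp fun _ k => ⟨⟨k.1.1, fun ε hε => by
    filter_upwards [k.1.2 (ε * c) (by positivity), hu] with n a b
    exact a.trans (Real.exp_le_exp.2 (by nlinarith))⟩, k.2⟩

theorem lb_sub (q : Tq X E η θ β js Γ sl) (x x' : ℚ) : ∀ᶠ n in UF,
    |lb (X n) (F n) x' - lb (X n) (F n) x| ≤ (|(x' : ℝ) - x| + 1) * (X n).u :=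
  (q.lev x x' one_pos).mono fun n a => by
    have m0 : (0 : ℝ) ≤ (X n).u := Nat.cast_nonneg _
    have := abs_le.1 a
    simp only [lb]
    exact abs_le.2 ⟨by nlinarith [neg_abs_le ((x' : ℝ) - x)],
      by nlinarith [le_abs_self ((x' : ℝ) - x)]⟩

/-- New comparable units, new levels. -/
theorem MI.re (h : MI kk la o τ X F) (q : Tq X E η θ β js Γ sl) {u : ℕ → ℕ} (f : ℚ → ℚ)
    (s : ℕ → ℕ → ℝ) (j : ℕ → ℝ) {c c' : ℝ} (hc : 0 < c) (hu : ∀ᶠ n in UF, c * (X n).u ≤ u n)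
    (hu' : ∀ᶠ n in UF, u n ≤ c' * (X n).u) :
    MI kk la o τ (fun n => (X n).re (u n) f (s n) (j n)) F := by
  have k : ∀ (K : ℝ) (w : ℝ), ∀ᶠ n in UF, K * u n + w * (lb (X n) (F n) (f 0) - lb (X n) (F n) 0) ≤
      (|K| * c' + |w| * (|(f 0 : ℝ) - (0 : ℚ)| + 1)) * (X n).u := fun K w => by
    filter_upwards [lb_sub (F := F) q 0 (f 0), hu'] with n a b
    have t2 := (le_abs_self _).trans ((abs_mul w _).trans_le
      (mul_le_mul_of_nonneg_left a (abs_nonneg w)))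
    have t3 := mul_le_mul (le_abs_self K) b (Nat.cast_nonneg _) (abs_nonneg K)
    linarith
  refine ⟨h.ko, h.lo, h.lτ, fun a b e => ⟨(h.near a b e).1, fun ε hε => ?_⟩, fun a b e K => ?_,
    fun x => h.fe _, fun x => su_unit hc hu (h.few _), h.eo, h.uj, h.row, h.sp,
    su_unit hc hu h.dB, fun x => su_unit hc hu (h.dg _), fun x => h.up _,
    fun x => su_unit hc hu (h.inc _), fun K => ?_⟩
  · filter_upwards [(h.near a b e).2 (ε * c) (by positivity), ev_unit hu hε] with n v w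
    exact v.trans (add_le_add le_rfl w)
  · filter_upwards [h.far a b e (|K| * c' + |la a - la b| * (|(f 0 : ℝ) - (0 : ℚ)| + 1)),
      k K (la a - la b)] with n v w
    show _ + la a * lb (X n) (F n) (f 0) + K * u n ≤ _ + la b * lb (X n) (F n) (f 0)
    simp only [uu] at v
    linarith
  · filter_upwards [(eventually_all_finite Set.finite_univ).2 fun p _ =>
      (h.ev (|K| * c' + |la p| * (|(f 0 : ℝ) - (0 : ℚ)| + 1))).and (k K (la p))] with n v ω hω p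
    refine ((v p trivial).1 ω hω p).trans ?_
    show Real.exp _ * Real.exp _ ≤ Real.exp (-(K * u n)) *
      Real.exp (-(la p * lb (X n) (F n) (f 0)))
    rw [← Real.exp_add, ← Real.exp_add]
    exact LC.ex_le (by simp only [uu]; linarith [(v p trivial).2])

/-- Shift and zoom. -/
theorem MI.idx (h : MI kk la o τ X F) (q : Tq X E η θ β js Γ sl) (a : ℚ) {e : ℚ} (he : 0 < e) :
    MI kk la o τ (fun n => (X n).idx sl js a e) F :=
  h.re q _ _ _ (half_pos (by exact_mod_cast he)) (fl_idx q.big he).1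
    (.of_forall fun _ => Nat.floor_le (by positivity))

theorem FM.idx (h : FM kk la o τ S C L X F A) (q : Tq X E η θ β js Γ sl) (a : ℚ) {e : ℚ}
    (he : 0 < e) : FM kk la o τ S C L (fun n => (X n).idx sl js a e) F A :=
  ⟨h.toMI.idx q a he, h.ha.idx q.big a he⟩

theorem FM.res (h : FM kk la o τ S C L X F A) {G : ∀ n, (X n).Ω → Prop} (g : Trm X G) :
    FM kk la o τ S C L (fun n => (X n).res (G n)) F A :=
  ⟨h.toMI.res G, h.ha.res ⟨g.top, g.fb⟩⟩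

/-- Laws that are dominated in the atoms. -/
theorem FM.pull (h : FM kk la o τ S C L X F A)
    (a : ∀ᶠ n in UF, ∀ v ∈ (Q n).S, π n v ∈ (X n).P.S)
    (d : ∀ (x : ℚ) (c : ℝ), 0 < c → ∀ᶠ n in UF, ∀ v ∈ (Q n).S, ∀ G : (X n).Ω → Prop,
      pb (((X n).pull (Q n) (π n)).fb x v) (fun w => G (π n w)) ≤
        Real.exp (c * (X n).u) * pb ((X n).fb x (π n v)) G) :
    FM kk la o τ S C L (fun n => (X n).pull (Q n) (π n)) (fun n => (F n).pull (π n))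
      fun n v => A n (π n v) :=
  ⟨h.toMI.pull a, h.ha.toHI.pull a, fun x T => (h.ha.ac x T).pull a (d x)⟩

/-- The tangent systems with the sure bounds form a closed class. -/
theorem cl0 (E : ℕ) (η θ β js Γ : ℝ) (kf : ℕ → ℕ) (sl : ℕ → ℝ) :
    Cl0 E η θ β js Γ sl fun X : ℕ → St N D => Ts X E η θ β js Γ kf sl ∧ Sur X :=
  ⟨(cf_ts E η θ β js Γ kf sl).and cf_sur,
    fun _ a _ he _ h => ⟨h.1.idx a he, h.2.idx h.1.big sl js a he⟩,
    fun _ G h g => ⟨h.1.res g, h.2.res G⟩, fun _ h => h.1.toTq⟩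

end Pool.Agent.MP_5168f5_an.QA.AB
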