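import Pool.Agent.MP_5168f5_an.QA.AbS
import Pool.Agent.MP_5168f5_an.QA.AbCl

/-! The base class of the local part: logarithms of the increments and the linear facts. -/

namespace Pool.Agent.MP_5168f5_an.QA.PA

open H19 H17S H17F R4 AN Filter Finset
open G39 (dl)
open LC (ex_le)

variable {κ : Type} [Fintype κ] [DecidableEq κ] {Ω Λ : ℕ → Type} {wt : κ → ℝ} {S : Finset κ}
  {C L : ℝ} {X : ∀ n, Pr κ (Ω n) (Λ n)} {A : ∀ n, Ω n → κ → κ → ℝ}

/-- Anti-concentration for all forms. -/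
theorem HA.acf (h : HA wt 0 S C L X A) (hM : Big (sM X)) (hL : 1 ≤ L) (x : ℚ) (T ε : ℝ)
    (hε : 0 < ε) : ∀ᶠ n in UF, ∀ ω ∈ (X n).P.S, ∀ (t : ℝ) (φ : κ → ℝ) (E : Ω n → Prop),
      t ≤ T * (X n).M → (∀ b, |φ b| ≤ Real.exp (T * (X n).M)) →
      (∃ a, 1 ≤ |∑ b, φ b * A n ω b a|) → (X n).Thin wt x ((X n).O x ω) φ t E →
      pb ((X n).fb x ω) E ≤ Real.exp (ε * (X n).M - t / L) := by
  filter_upwards [h.sh, h.fn x trivial, h.inc x trivial (2 * T + 1), h.ac x T _ (half_pos hε),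
    big_exp hM (Fintype.card κ) one_pos, hM.sm 1 _ (half_pos hε)]
    with n a1 a2 a3 a4 a5 a6 ω hω t φ E ht hφ ⟨a, ha⟩ th
  set l : κ → ℝ := fun a => ∑ b, φ b * A n ω b a
  have l1 : 1 ≤ ∑ a, |l a| := ha.trans (single_le_sum (f := fun a => |l a|)
    (fun _ _ => abs_nonneg _) (mem_univ a))
  have l0 : 0 < ∑ a, |l a| := one_pos.trans_le l1
  refine (a4 ω hω (t - 1) (by linarith) (fun a => l a / ∑ a, |l a|) E ⟨fun b hb => ?_,
    fun a b => ?_⟩ ?_ fun v v' k z e e' => ?_).trans (ex_le ?_)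
  · rw [div_eq_zero_iff]
    exact Or.inl (sum_eq_zero fun i _ => by
      rw [not_not.1 fun c => hb ((a1 ω hω).gr i b c).1, mul_zero])
  · simp [cA, GA.br, (Real.exp_pos _).le]
  · simp only [abs_div, abs_of_pos l0, ← sum_div, div_self l0.ne']
  · have i := a3 v v' k
    rw [a2 v k.1 ω hω z] at i
    have e1 : ∑ a, l a / (∑ a, |l a|) * (X n).co wt x v v' a = (∑ b, φ b * (X n).co wt x v v' b -
        ∑ b, φ b * ((X n).co wt x v v' b - ∑ a, A n ω b a * (X n).co wt x v v' a)) /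
          ∑ a, |l a| := by
      simp only [div_mul_eq_mul_div, ← sum_div, mul_sub, sum_sub_distrib, sub_sub_cancel, l,
        sum_mul, mul_sum, mul_assoc]
      rw [sum_comm]
    have e2 : |∑ b, φ b * ((X n).co wt x v v' b - ∑ a, A n ω b a * (X n).co wt x v v' a)| ≤
        Real.exp (-t) := by
      refine (abs_sum_le_sum_abs _ _).trans ((sum_le_card_nsmul _ _ _ fun b _ => (abs_mul _ _).trans_le
        (mul_le_mul (hφ b) (i b) (abs_nonneg _) (Real.exp_pos _).le)).trans ?_)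
      rw [nsmul_eq_mul, card_univ]
      refine (mul_le_mul_of_nonneg_right a5 (by positivity)).trans ?_
      rw [← Real.exp_add, ← Real.exp_add]
      exact ex_le (by simp only [sM]; linarith)
    rw [e1, abs_div, abs_of_pos l0]
    refine (div_le_self (abs_nonneg _) l1).trans ((abs_sub _ _).trans
      ((add_le_add (th v v' k z e e') e2).trans ?_))
    rw [neg_sub, sub_eq_add_neg 1, Real.exp_add]
    nlinarith [Real.add_one_le_exp 1, Real.exp_pos (-t)]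
  · have : 1 / L ≤ 1 := (div_le_one (by linarith)).2 hL
    simp only [sM] at a6
    rw [sub_div]
    linarith

/-- A form that is small on the pairs of an atom is small on the columns. -/
theorem HA.lin (h : HA wt 0 S C L X A) (hM : Big (sM X)) (hL : 1 ≤ L) (x : ℚ) (T ε : ℝ)
    (hε : 0 < ε) : ∀ᶠ n in UF, ∀ ω ∈ (X n).P.S, ∀ (φ : κ → ℝ) (r : ℝ),
      (∀ b, |φ b| ≤ Real.exp (T * (X n).M)) → dl (sM X) T n ≤ r →
      (∀ v v', (X n).At x v v' → (X n).O x v = (X n).O x ω →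
        |∑ b, φ b * (X n).co wt x v v' b| ≤ r) →
      ∀ a, |∑ b, φ b * A n ω b a| ≤ Real.exp (ε * (X n).M) * r := by
  have L0 : 0 < L := by linarith
  filter_upwards [h.acf hM hL x (2 * |T| + ε) (ε / L / 2) (by positivity), hM.ev 1]
    with n a1 a2 ω hω φ r hφ hr k a
  have r0 : 0 < r := (G39.dl_pos _ _ _).trans_le hr
  have s0 : 0 < Real.exp (ε * (X n).M) * r := by positivity
  simp only [sM] at a2
  have d : ∀ y : κ → ℝ, |∑ b, φ b / (Real.exp (ε * (X n).M) * r) * y b| =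
      |∑ b, φ b * y b| / (Real.exp (ε * (X n).M) * r) := fun y => by
    simp only [div_mul_eq_mul_div, ← sum_div, abs_div, abs_of_pos s0]
  by_contra c
  have := a1 ω hω (ε * (X n).M) (fun b => φ b / (Real.exp (ε * (X n).M) * r)) (fun _ => True)
    (by nlinarith [abs_nonneg T]) (fun b => ?_) ⟨a, ?_⟩ fun v v' u z _ _ => ?_
  · rw [pb_true, Real.one_le_exp_iff, mul_div_right_comm] at this
    nlinarith [div_pos hε L0]
  · rw [abs_div, abs_of_pos s0, div_le_iff₀ s0]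
    refine (hφ b).trans (le_trans ?_ (mul_le_mul_of_nonneg_left
      (mul_le_mul_of_nonneg_left hr (Real.exp_pos _).le) (Real.exp_pos _).le))
    rw [dl, ← Real.exp_add, ← Real.exp_add]
    exact ex_le (by simp only [sM]; nlinarith [le_abs_self T])
  · rw [d fun b => A n ω b a, le_div_iff₀ s0, one_mul]
    exact (not_le.1 c).le
  · rw [d, div_le_iff₀ s0, ← mul_assoc, ← Real.exp_add, neg_add_cancel, Real.exp_zero, one_mul]
    exact k v v' u z

end Pool.Agent.MP_5168f5_an.QA.PA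

namespace Pool.Agent.MP_5168f5_an.QA.AB

open H19 H17S H17F R4 AN Filter Finset IsNilpotent
open G39 (dl)
open GA (Mt)
open N2 (Uni Bd El eB eW tri mem_F0 vec_eB vec_mem vec_of uni_iff)
open H61Z (Filt)

variable {N D m : ℕ} {kk la : Fin m → ℝ} {o τ : Fin m}

/-- The intersection of two filtrations. -/
noncomputable def fI (Φ Ψ : Filt (Mt (Fin m))) : Filt (Mt (Fin m)) where
  F n := Φ.F n ⊓ Ψ.F n
  N := Φ.N
  anti n := inf_le_inf (Φ.anti n) (Ψ.anti n)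
  mul_l n x y a b := ⟨Φ.mul_l n x y a.1 b.1, Ψ.mul_l n x y a.2 b.2⟩
  mul_r n x y a b := ⟨Φ.mul_r n x y a.1 b.1, Ψ.mul_r n x y a.2 b.2⟩
  bot x a := Φ.bot x a.1

theorem row_o (ko : ∀ a, a ≠ o → kk o < kk a) {y : Mt (Fin m)} (h : y ∈ (tri kk).F 0) (q : Fin m) :
    y o q = 0 := mem_F0.1 h o q fun c => by
  by_cases e : q = o
  · exact lt_irrefl _ (e ▸ c)
  · exact lt_asymm c (ko q e)

theorem row_mul (ko : ∀ a, a ≠ o → kk o < kk a) {x y : Mt (Fin m)} (a : ∀ q, q ≠ o → x τ q = 0)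
    (h : y ∈ (tri kk).F 0) (q : Fin m) : (x * y) τ q = 0 :=
  Matrix.mul_apply.trans (sum_eq_zero fun r _ => by
    by_cases e : r = o
    · rw [e, row_o ko h, mul_zero]
    · rw [a r e, zero_mul])

/-- The filtration of the pattern. -/
noncomputable def pF (τ : Fin m) (ko : ∀ a, a ≠ o → kk o < kk a) : Filt (Mt (Fin m)) where
  F n := (tri kk).F n ⊓
    { carrier := {X | ∀ q, q ≠ o → X τ q = 0}
      add_mem' := fun a b q h => by simp [a q h, b q h]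
      zero_mem' := fun _ _ => rfl
      smul_mem' := fun c _ a q h => by simp [a q h] }
  N := m
  anti n := inf_le_inf ((tri kk).anti n) le_rfl
  mul_l n x y a b := ⟨(tri kk).mul_l n x y a.1 b.1, fun q _ =>
    row_mul ko a.2 ((tri kk).le0 n b.1) q⟩
  mul_r n x y a b := ⟨(tri kk).mul_r n x y a.1 b.1, fun q _ => row_mul ko a.2 b.1 q⟩
  bot x a := (tri kk).bot x a.1

theorem lg_eq {r j Z : Mt (Fin m)} (hr : IsUnit r.det) (hZ : Z ∈ (tri la).F 0)
    (e : j = r * exp Z) : GA.vec (eB la) (GA.lg (eB la) r j) = Z := by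
  have k : j = r * GA.ex (eB la) (GA.lg (eB la) r j) :=
    Classical.epsilon_spec (p := fun t => j = r * GA.ex (eB la) t)
      ⟨fun a => Z a.1.1 a.1.2, by rw [GA.ex, vec_of hZ, e]⟩
  refine (tri la).exp_inj (vec_mem _) hZ ?_
  rw [← Matrix.nonsing_inv_mul_cancel_left r (exp Z) hr, ← e]
  nth_rw 2 [k]
  rw [Matrix.nonsing_inv_mul_cancel_left r _ hr, GA.ex]

theorem inv_sub (Φ : Filt (Mt (Fin m))) {u : Mt (Fin m)} (h : u - 1 ∈ Φ.F 0) :
    u⁻¹ - 1 ∈ Φ.F 0 := by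
  obtain ⟨Z, hZ, rfl⟩ := Φ.exp_surj h
  rw [Matrix.inv_eq_right_inv (exp_mul_exp_neg_self (Φ.nil hZ))]
  exact Φ.exp_sub_one (neg_mem hZ)

theorem pF_mem (ko : ∀ a, a ≠ o → kk o < kk a) {j : Mt (Fin m)} (a : Uni kk j)
    (b : ∀ q, q ≠ o → j τ q = (1 : Mt (Fin m)) τ q) : j - 1 ∈ (pF τ ko).F 0 :=
  ⟨uni_iff.1 a, fun q h => sub_eq_zero.2 (b q h)⟩

/-- The logarithm of an increment. -/
theorem pair (ko : ∀ a, a ≠ o → kk o < kk a) {j j' : Mt (Fin m)} (a : Uni kk j) (a' : Uni kk j')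
    (b : ∀ q, q ≠ o → j τ q = (1 : Mt (Fin m)) τ q)
    (b' : ∀ q, q ≠ o → j' τ q = (1 : Mt (Fin m)) τ q) (u : Uni la (j⁻¹ * j')) :
    j' = j * GA.ex (eB la) (GA.lg (eB la) j j') ∧ GA.lg (eB la) j j' ∈ pat kk la o τ := by
  obtain ⟨Z, hZ, e⟩ := (fI (tri la) (pF τ ko)).exp_surj (E := j⁻¹ * j') ⟨uni_iff.1 u,
    (pF τ ko).mul_sub_one' (inv_sub _ (pF_mem ko a b)) (pF_mem ko a' b')⟩
  have e' : j' = j * exp Z := by rw [e, Matrix.mul_nonsing_inv_cancel_left _ _ a.det]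
  have k := lg_eq a.det hZ.1 e'
  refine ⟨by rw [GA.ex, k, ← e'], fun p h => ?_⟩
  rw [← vec_eB (GA.lg _ _ _) p, k]
  by_cases c : kk p.1.2 < kk p.1.1
  · obtain ⟨c1, c2⟩ := Classical.not_imp.1 fun d => h ⟨c, d⟩
    exact c1 ▸ hZ.2.2 _ c2
  · exact mem_F0.1 hZ.2.1 _ _ c

/-- The logarithm lies in the box. -/
theorem lg_box (m : ℕ) : ∃ (C : ℝ) (e : ℕ), 1 ≤ C ∧ ∀ (kk la ρ : Fin m → ℝ) (j j' : Mt (Fin m))
    (L : ℝ), 1 ≤ L → (∀ p, 0 < ρ p) → Uni kk j → Uni la (j⁻¹ * j') → Bd ρ L (j⁻¹ * j') →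
    ∀ b : El la, |GA.lg (eB la) j j' b| ≤ C * L ^ e * (ρ b.1.1 / ρ b.1.2) := by
  obtain ⟨C, e, hC, h⟩ := N2.exLog m
  refine ⟨C, e, hC, fun kk la ρ j j' L hL h0 a u d b => ?_⟩
  obtain ⟨t, t1, t2⟩ := h la ρ 1 _ L hL h0 N2.uni_one u
    (by simpa only [inv_one, one_mul, N2.Bd] using d)
  have k := lg_eq a.det (vec_mem t) (j := j')
    (by rw [← GA.ex, ← one_mul (GA.ex _ _), ← t2, Matrix.mul_nonsing_inv_cancel_left _ _ a.det])
  rw [← vec_eB (GA.lg _ _ _) b, k, vec_eB]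
  exact t1 b

theorem vec_or (t : El la → ℝ) (p q : Fin m) : GA.vec (eB la) t p q = 0 ∨
    ∃ h : la q < la p, GA.vec (eB la) t p q = t ⟨(p, q), h⟩ :=
  (em (la q < la p)).elim (fun h => Or.inr ⟨h, vec_eB t ⟨(p, q), h⟩⟩) fun h =>
    Or.inl (mem_F0.1 (vec_mem t) p q h)

theorem vec_pat {t : El la → ℝ} (h : t ∈ pat kk la o τ) :
    GA.vec (eB la) t ∈ (tri kk).F 0 ∧ ∀ q, q ≠ o → GA.vec (eB la) t τ q = 0 :=
  ⟨mem_F0.2 fun p q c => (vec_or t p q).elim id fun ⟨_, e⟩ => e.trans (h _ fun d => c d.1),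
    fun q c => (vec_or t τ q).elim id fun ⟨_, e⟩ => e.trans (h _ fun d => c (d.2 rfl))⟩

variable {X : ℕ → St N D} {F : ∀ n, Fd N D m (X n).Ω}

theorem MI.pair (h : MI kk la o τ X F) (x : ℚ) : ∀ᶠ n in UF, ∀ v ∈ (X n).P.S, ∀ v' ∈ (X n).P.S,
    (X n).O x v = (X n).O x v' →
    (F n).J v' = (F n).J v * GA.ex (eB la) (GA.lg (eB la) ((F n).J v) ((F n).J v')) ∧
      GA.lg (eB la) ((F n).J v) ((F n).J v') ∈ pat kk la o τ := by
  filter_upwards [h.uj, h.row, h.up x] with n a b c v hv v' hv' z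
  exact AB.pair h.ko (a v hv) (a v' hv') (b v hv) (b v' hv') (c v hv v' hv' z.symm)

theorem MI.box (h : MI kk la o τ X F) (hM : Big (uu X)) (x : ℚ) (ε : ℝ) (hε : 0 < ε) :
    ∀ᶠ n in UF, (pr kk la o τ (X n) (F n)).Box (eW la) x (ε * (X n).u) := by
  obtain ⟨C, e, hC, k⟩ := lg_box m
  obtain ⟨Γ, s, d⟩ := h.inc x
  filter_upwards [h.uj, h.up x, d, ((s.pow e).const_mul hM hC).2 ε hε] with n a b c g v v' z p
  have := k kk la _ _ _ _ (s.1 n) (rd_pos la (X n) (F n) x) (a v z.1) (b v z.1 v' z.2.1 z.2.2.symm)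
    (c v z.1 v' z.2.1 z.2.2.symm) p
  refine (abs_mul _ _).trans_le ((mul_le_mul_of_nonneg_left this (abs_nonneg _)).trans
    (le_trans (le_of_eq ?_) g))
  rw [abs_of_pos (Real.exp_pos _), rd, rd, ← Real.exp_sub, mul_left_comm, ← Real.exp_add]
  simp only [pr, eW]
  rw [show ∀ a b c : ℝ, (a - b) * c + (-(a * c) - -(b * c)) = 0 from fun _ _ _ => by ring,
    Real.exp_zero, mul_one]

theorem Mt2.eq {Y : St N D} {x : ℚ} {ω v v' : Y.Ω} (h : Mt2 Y x ω v v') : Y.O x v = Y.O x v' :=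
  h.2.2.1.trans h.2.2.2.symm

theorem Mt2.at {Y : St N D} {G : Fd N D m Y.Ω} {x : ℚ} {ω v v' : Y.Ω} (h : Mt2 Y x ω v v') :
    (pr kk la o τ Y G).At x v v' := ⟨h.1, h.2.1, h.eq⟩

theorem sL1 : SL1 := by
  intro N D m E η θ β js Γ sl kk la o τ S C L X F A q hL h
  refine ⟨h.ha.sh.mono fun n a ω hω b => ?_, fun x => h.ha.fn x trivial,
    fun x => (h.toMI.pair x).mono fun n a ω v v' z => (a v z.1 v' z.2.1 z.eq).1,
    fun x => (h.toMI.pair x).mono fun n a ω v v' z => (a v z.1 v' z.2.1 z.eq).2,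
    fun x ε hε => (h.toMI.box q.big x ε hε).mono fun n a ω v v' z => a v v' z.at,
    fun x K => ((h.ha.inc x trivial K).and (h.ha.fn x trivial)).mono fun n a ω hω v v' z =>
      a.2 v z.1 ω hω z.2.2.1 ▸ a.1 v v' z.at,
    fun x T ε hε => (h.ha.acf q.big hL x T ε hε).mono fun n a ω hω t φ G b c d e =>
      a ω hω t φ G b c d fun v v' u z => e v v' ⟨u.1, u.2.1, z, u.2.2.symm.trans z⟩,
    fun x T ε hε => (h.ha.lin q.big hL x T ε hε).mono fun n a ω hω φ r b c d =>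
      a ω hω φ r b c fun v v' u z => d v v' ⟨u.1, u.2.1, z, u.2.2.symm.trans z⟩⟩
  have s := a ω hω
  refine ⟨(vec_pat (s.mem b)).1, vec_mem _, (vec_pat (s.mem b)).2, fun p r => ?_⟩
  rcases vec_or (PA.col (A n ω) b) p r with e | ⟨c, e⟩ <;> rw [lt, e]
  · exact ⟨abs_zero.trans_le ((abs_nonneg _).trans (s.bd b b)), fun c => absurd rfl c⟩
  · exact ⟨s.bd _ _, fun d => ⟨(s.gr _ _ d).1, (s.gr _ _ d).2.symm⟩⟩

end Pool.Agent.MP_5168f5_an.QA.AB
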