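import Pool.Agent.MP_5168f5_an.QA.OrbSq
import Pool.Agent.MP_5168f5_an.QA.FrAlg
import Pool.Agent.MP_5168f5_an.QA.Prt
import Pool.Agent.MP_5168f5_an.QA.Bd

/-! The Kakeya maximal estimate: the lateral derivatives in the own frame. -/

namespace Pool.Agent.MP_5168f5_an.QA.Ob

open H19 H17S H17F R4 AN Filter Finset
open G39 (dl dl_pos dl_anti)
open C1 (Hb Dg)
open GA (Mt cm vec)
open N2 (Uni El eB eW tri)
open N6 (Eb)
open Fr (act)
open AB (Fd MI L1 Mt2 lb rd lt)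
open Lt

variable {N D m : ℕ}

theorem hb_lin {V : Type} [AddCommGroup V] [Module ℝ V] {ν : V → ℝ} (h : Hb ν) (T : V →ₗ[ℝ] V) :
    ∃ C, 0 ≤ C ∧ ∀ F, ν (T F) ≤ C * ν F := by
  obtain ⟨ι, _, A, hA, e⟩ := h
  obtain ⟨g, hg⟩ := A.exists_leftInverse_of_injective (LinearMap.ker_eq_bot.2 hA)
  refine ⟨_, norm_nonneg (LinearMap.toContinuousLinearMap (A ∘ₗ T ∘ₗ g)), fun F => ?_⟩
  have := (LinearMap.toContinuousLinearMap (A ∘ₗ T ∘ₗ g)).le_opNorm (A F)
  rw [e, e]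
  simpa [show g (A F) = F from LinearMap.congr_fun hg F] using this

theorem ent {ν : VD N D → ℝ} {f : Fin m → VD N D} {l : Fin m → ℝ} {L c : ℝ} {M : ℕ}
    {ψ : Fin N → Mt (Fin m)} (k : Dg ν f l L) (h : Hb ν) (hL : 0 ≤ L) (hc : 0 ≤ c) (p : Ph M f ψ)
    {j : Fin N} (d : ∀ F, ν (dk j.succ F) ≤ c * 2 ^ M * ν F) (a b : Fin m) :
    |ψ j a b| * l b ≤ L * (c * (L * l a)) := by
  refine (k.2 (ψ j a) b).trans (mul_le_mul_of_nonneg_left ?_ hL)
  rw [show ∑ q, ψ j a q • f q = _ from congrFun (p j) a, h.smul, abs_of_pos (by positivity),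
    inv_mul_le_iff₀ (by positivity)]
  exact (d _).trans ((mul_le_mul_of_nonneg_left (k.1 a) (by positivity)).trans_eq (by ring))

theorem blk {la : Fin m → ℝ} {w φ φ' : Mt (Fin m)} {L θ : ℝ} (u : Uni la w) (b : Eb L w)
    (hL : 0 ≤ L) (hθ : 0 ≤ θ) (o : ∀ p q, la p ≠ la q → |φ p q| ≤ θ ∧ |φ' p q| ≤ θ)
    (e : φ * w = w * φ') : Eb (2 * (m + 1) * (L + 1) * θ) (φ - φ') := fun q p => by
  have m0 : (0 : ℝ) ≤ m := Nat.cast_nonneg _
  have z := N2.mem_F0.1 (N2.uni_iff.1 u)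
  have bz := eb_sub b N6.eb_one
  have t : 0 ≤ (L + 1) * θ := by positivity
  by_cases k : la p = la q
  · have e1 : φ - φ' = (w - 1) * φ' - φ * (w - 1) := by
      rw [sub_mul, mul_sub, e, one_mul, mul_one]; abel
    have s : ∀ g : Fin m → ℝ, (∀ r, |g r| ≤ (L + 1) * θ) → |∑ r, g r| ≤ m * ((L + 1) * θ) :=
      fun g h => (abs_sum_le_sum_abs _ _).trans ((sum_le_card_nsmul _ _ _ fun r _ => h r).trans_eq
        (by simp))
    rw [e1, Matrix.sub_apply, Matrix.mul_apply, Matrix.mul_apply]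
    refine (abs_sub _ _).trans ((add_le_add (s _ fun r => ?_) (s _ fun r => ?_)).trans
      (by nlinarith))
    · by_cases x : la r < la p
      · rw [abs_mul]
        exact mul_le_mul (bz r p) (o r q (k ▸ x.ne)).2 (abs_nonneg _) (by linarith)
      · rwa [z p r x, zero_mul, abs_zero]
    · by_cases x : la q < la r
      · rw [abs_mul, mul_comm]
        exact mul_le_mul (bz q r) (o p r (k ▸ x.ne)).1 (abs_nonneg _) (by linarith)
      · rwa [z r q x, mul_zero, abs_zero]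
  · refine (abs_sub _ _).trans ((add_le_add (o p q k).1 (o p q k).2).trans ?_)
    nlinarith [mul_nonneg m0 t, mul_nonneg hL hθ]

theorem eb_el {la : Fin m → ℝ} {t : El la → ℝ} {L : ℝ} (hL : 0 ≤ L) (h : ∀ a, |t a| ≤ L) :
    Eb L (vec (eB la) t) := fun q p => by
  by_cases e : la q < la p
  · exact (N2.vec_eB t ⟨(p, q), e⟩).symm ▸ h _
  · rwa [N2.mem_F0.1 (N2.vec_mem t) p q e, abs_zero]

theorem cm_vec {κ : Type} [Fintype κ] (B : κ → Mt (Fin m)) (t : κ → ℝ) (φ : Mt (Fin m))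
    (p q : Fin m) : cm (vec B t) φ p q = ∑ b, cm (B b) φ p q * t b := by
  simp only [cm, vec, sum_mul, mul_sum, ← sum_sub_distrib, Matrix.sum_apply, smul_mul_assoc,
    mul_smul_comm, ← smul_sub, Matrix.smul_apply, smul_eq_mul, mul_comm]

variable {E : ℕ} {η θ β js Γ C L : ℝ} {sl : ℕ → ℝ} {kk la : Fin m → ℝ} {o τ : Fin m}
  {S : Finset (El la)} {X : ℕ → St N D} {F : ∀ n, Fd N D m (X n).Ω}
  {A : ∀ n, (X n).Ω → El la → El la → ℝ} {ψ : ∀ n, (X n).Ω → Fin N → Mt (Fin m)}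
  (t : Tq X E η θ β js Γ sl) (s : Sur X) (h : MI kk la o τ X F) (hb : ∀ n, (F n).b = (X n).lv 0)
  (p : ∀ᶠ n in UF, ∀ ω ∈ (X n).P.S, Ph (X n).M ((F n).f ω) (ψ n ω))

include s h p in
theorem lev (x : ℚ) {ε : ℝ} (hε : 0 < ε) : ∀ᶠ n in UF, ∀ ω ∈ (X n).P.S, ∀ j a b,
    |ψ n ω j a b| ≤ Real.exp (ε * (X n).u - (la a - la b) * lb (X n) (F n) x) := by
  obtain ⟨G, g, d⟩ := h.dg x
  filter_upwards [d, p, s.hb x, s.ff x _ (by positivity : 0 < ε / 3),
    g.2 _ (by positivity : 0 < ε / 3)] with n d p k f u ω hω j a b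
  have := ent (d ω hω) (k ω hω) (g.pos n).le (Real.exp_pos _).le (p ω hω) (f ω hω j) a b
  rw [rd, rd, ← le_div_iff₀ (Real.exp_pos _)] at this
  refine this.trans ((div_le_div_of_nonneg_right (mul_le_mul u (mul_le_mul_of_nonneg_left
    (mul_le_mul_of_nonneg_right u (Real.exp_pos _).le) (Real.exp_pos _).le)
    (mul_pos (Real.exp_pos _) (mul_pos (g.pos n) (Real.exp_pos _))).le (Real.exp_pos _).le)
    (Real.exp_pos _).le).trans_eq ?_)
  simp only [← Real.exp_add, ← Real.exp_sub]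
  congr 1
  ring

include s h hb p in
theorem bd {ε : ℝ} (hε : 0 < ε) : ∀ᶠ n in UF, ∀ ω ∈ (X n).P.S, ∀ j,
    Eb (Real.exp (ε * (X n).u)) (ψ n ω j) :=
  (lev s h p 0 hε).mono fun n k ω hω j b a => by simpa [lb, hb] using k ω hω j a b

include t s h hb p in
theorem off (K : ℝ) : ∀ᶠ n in UF, ∀ ω ∈ (X n).P.S, ∀ j a b, la a ≠ la b →
    |ψ n ω j a b| ≤ dl (uu X) K n := by
  have : ∀ a b, ∀ᶠ n in UF, ∀ ω ∈ (X n).P.S, ∀ j, la a ≠ la b →
      |ψ n ω j a b| ≤ dl (uu X) K n := fun a b => by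
    by_cases e : la a = la b
    · exact .of_forall fun _ _ _ _ k => absurd e k
    have d0 := abs_pos.2 (sub_ne_zero.2 e)
    obtain ⟨x, hx⟩ : ∃ x : ℚ, K + 2 ≤ (la a - la b) * x := by
      obtain ⟨y, hy⟩ := exists_rat_gt ((K + 2) / |la a - la b|)
      rw [div_lt_iff₀ d0] at hy
      rcases abs_cases (la a - la b) with k | k
      · exact ⟨y, by rw [k.1] at hy; linarith⟩
      · exact ⟨-y, by rw [k.1] at hy; push_cast; linarith⟩
    filter_upwards [lev s h p x one_pos, t.lev 0 x (inv_pos.2 d0)] with n u v ω hω j _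
    refine (u ω hω j a b).trans (Real.exp_le_exp.2 ?_)
    have w := mul_le_mul_of_nonneg_left v d0.le
    rw [← abs_mul, mul_inv_cancel_left₀ d0.ne'] at w
    have := mul_le_mul_of_nonneg_right hx (Nat.cast_nonneg (α := ℝ) (X n).u)
    simp only [lb, hb, Rat.cast_zero] at w ⊢
    nlinarith [(abs_le.1 w).1]
  exact (eventually_all.2 fun a => eventually_all.2 (this a)).mono fun _ k ω hω j a b =>
    k a b ω hω j

include t h hb p in
theorem upp (K : ℝ) : ∀ᶠ n in UF, ∀ ω ∈ (X n).P.S, ∀ j,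
    Eb (dl (uu X) K n) (ψ n ω j - pj kk (ψ n ω j)) := by
  obtain ⟨G, g, d⟩ := h.dB
  choose c c0 c1 using fun j : Fin N => hb_lin (BdA.hb_Bn (N := N) (D := D)) (dk j.succ)
  have e1 : ∀ a b, ∀ᶠ n in UF, ¬kk b < kk a → (F n).T a - (F n).T b ≤ (X n).u := fun a b => by
    rcases lt_trichotomy (kk a) (kk b) with k | k | k
    · exact (h.far a b k 0).mono fun n u _ => by
        simp only [lb, hb, sub_self, mul_zero, zero_mul, add_zero] at u
        linarith [Nat.cast_nonneg (α := ℝ) (X n).u]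
    · exact ((h.near a b k).2 1 one_pos).mono fun n u _ => by simpa using u
    · exact .of_forall fun _ u => absurd k u
  obtain ⟨x, hx⟩ := exists_rat_gt (2 * (|K| + 4) + 1)
  filter_upwards [d, p, g.2 1 one_pos, eventually_all.2 fun a => eventually_all.2 (e1 a),
    eventually_all.2 fun j => G39.big_dl t.big (c j) one_pos, t.lev 0 x one_pos,
    t.loc x x 1 one_pos] with n d p u e1 e2 e3 e4 ω hω j b a
  by_cases k : kk b < kk a
  · simpa [pj, k] using (dl_pos _ K n).le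
  have i0 : (0 : ℝ) < 2 ^ (X n).M := by positivity
  have := ent (c := c j / 2 ^ (X n).M) (d ω hω) BdA.hb_Bn (g.pos n).le (div_nonneg (c0 j) i0.le)
    (p ω hω) (fun F => by rw [div_mul_cancel₀ _ i0.ne']; exact c1 j F) a b
  have e5 := e2 j
  rw [G39.dl_inv] at e5
  have e6 : c j / 2 ^ (X n).M ≤ Real.exp (1 * (X n).u - (X n).M * lg) := by
    rw [Real.exp_sub, Real.exp_nat_mul, lg, Real.exp_log two_pos]
    exact div_le_div_of_nonneg_right e5 i0.le
  rw [← le_div_iff₀ (Real.exp_pos _)] at this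
  rw [Matrix.sub_apply, pj, Matrix.of_apply, if_neg k, sub_zero]
  refine this.trans ((div_le_div_of_nonneg_right (mul_le_mul u (mul_le_mul e6
    (mul_le_mul_of_nonneg_right u (Real.exp_pos _).le) (mul_pos (g.pos n) (Real.exp_pos _)).le
    (Real.exp_pos _).le) (mul_nonneg (div_nonneg (c0 j) i0.le) (mul_pos (g.pos n)
    (Real.exp_pos _)).le) (Real.exp_pos _).le) (Real.exp_pos _).le).trans ?_)
  simp only [← Real.exp_add, ← Real.exp_sub]
  refine Real.exp_le_exp.2 ?_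
  have u0 : (0 : ℝ) ≤ (X n).u := Nat.cast_nonneg _
  have l0 : (0 : ℝ) ≤ (X n).lv 0 := Nat.cast_nonneg _
  have a1 : ((X n).lv x : ℝ) ≤ (X n).M := by exact_mod_cast e4.top
  have a2 : (1 : ℝ) / 2 ≤ lg := by unfold lg; linarith [Real.log_two_gt_d9]
  have a3 : 2 * (|K| + 4) * (X n).u ≤ (X n).M := by
    have := (abs_le.1 e3).1
    push_cast at this
    nlinarith [mul_le_mul_of_nonneg_right hx.le u0]
  nlinarith [e1 a b k, mul_le_mul_of_nonneg_right (le_abs_self K) u0,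
    mul_le_mul_of_nonneg_left a2 (Nat.cast_nonneg (α := ℝ) (X n).M)]

include t s h hb p in
theorem com (hT : STay) (hL : SLog) (l : L1 kk la o τ S C L X F A) (K : ℝ) :
    ∀ᶠ n in UF, ∀ ω ∈ (X n).P.S, ∀ a j, Eb (dl (uu X) K n) (cm (lt la (A n ω) a) (ψ n ω j)) := by
  obtain ⟨c, c1, lo⟩ := hL m
  obtain ⟨G, g, d⟩ := h.dg 0
  obtain ⟨G', g', i⟩ := h.inc 0
  filter_upwards [d, i, g'.2 1 one_pos, p, s.hb 0, h.fe 0, h.uj, h.sp, h.up 0, bd s h hb p one_pos,
    off t s h hb p (K + 1 + (2 * c + 6)), l.ex 0, l.box 0 1 one_pos,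
    l.lin 0 (max 2 (K + 1)) 1 one_pos, G39.big_dl t.big (4 * (m + 1) + c) one_pos]
    with n d i g1 p k fe uj sp up bd off ex box lin big ω hω a j q r
  rw [G39.dl_inv] at big
  set Λ := Real.exp (1 * (X n).u) with hΛ
  set δ := dl (uu X) (K + 1 + (2 * c + 6)) n with hδ
  have m0 : (0 : ℝ) ≤ m := Nat.cast_nonneg _
  have c0 : (1 : ℝ) ≤ c := by exact_mod_cast c1
  have Λ1 : 1 ≤ Λ := by linarith
  have δ0 : 0 ≤ δ := (dl_pos _ _ n).le
  have r1 : ∀ a, rd la (X n) (F n) 0 a = 1 := fun a => by simp [rd, lb, hb]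
  have key : ∀ v v', Mt2 (X n) 0 ω v v' → Eb Λ (((F n).J v)⁻¹ * (F n).J v') ∧
      (ψ n v j * (((F n).J v)⁻¹ * (F n).J v') = ((F n).J v)⁻¹ * (F n).J v' * ψ n v' j) ∧
      Eb (Λ ^ 2 * δ) (ψ n v j - ψ n v' j) := fun v v' z => by
    have z' := z.2.2.2.trans z.2.2.1.symm
    have w := up v z.1 v' z.2.1 z'
    have e : act (((F n).J v)⁻¹ * (F n).J v') ((F n).f v') = (F n).f v := by
      rw [Fd.f, Fd.f, ← Fr.act_mul, mul_assoc, Matrix.mul_nonsing_inv _ (uj v' z.2.1).det, mul_one,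
        fe v z.1 v' z.2.1 z'.symm]
    have b : Eb Λ (((F n).J v)⁻¹ * (F n).J v') := fun q r =>
      (i v z.1 v' z.2.1 z' r q).trans (by rw [r1, r1, div_one, mul_one]; exact g1)
    have e' := congrFun ((((hT N D m _ _ (sp v z.1)).2 _ (p v z.1)).2 ((d v z.1).li (k v z.1)
      fun _ => Real.exp_pos _)).1 _ (e ▸ ((hT N D m _ _ (sp v' z.2.1)).2 _ (p v' z.2.1)).1 _ w.det)) j
    have e'' : ψ n v j * (((F n).J v)⁻¹ * (F n).J v') =
        ((F n).J v)⁻¹ * (F n).J v' * ψ n v' j := by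
      rw [← e', mul_assoc, Matrix.nonsing_inv_mul _ w.det, mul_one]
    exact ⟨b, e'', eb_mono (blk w b (by linarith) δ0 (fun a b x =>
      ⟨off v z.1 j a b x, off v' z.2.1 j a b x⟩) e'') (mul_le_mul_of_nonneg_right (by nlinarith) δ0)⟩
  have := lin ω hω (fun b => cm (eB la b) (ψ n ω j) r q) (dl (uu X) (K + 1) n) (fun b => ?_)
    (dl_anti _ (le_max_right _ _) n) (fun v v' z => ?_) a
  · rw [lt, cm_vec]
    refine this.trans_eq ?_
    rw [hΛ, dl, dl, ← Real.exp_add]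
    congr 1
    ring
  · refine (eb_cm (L := 1) (fun q r => by rw [eB, Matrix.single_apply]; split_ifs <;> simp)
      (bd ω hω j) zero_le_one (by linarith) q r).trans (le_trans (b := Λ * Λ) (by nlinarith) ?_)
    rw [hΛ, ← Real.exp_add]
    exact Real.exp_le_exp.2 (by
      nlinarith [le_max_left 2 (K + 1), Nat.cast_nonneg (α := ℝ) (X n).u])
  · obtain ⟨b1, b2, -⟩ := key v v' z
    have b3 := (key ω v' ⟨hω, z.2.1, rfl, z.2.2.2⟩).2.2
    have b4 := (key v ω ⟨z.1, hω, z.2.2.1, rfl⟩).2.2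
    have co0 : AB.co la (X n) (F n) 0 v v' = GA.lg (eB la) ((F n).J v) ((F n).J v') :=
      funext fun b => by simp [AB.co, lb, hb]
    have e : ((F n).J v)⁻¹ * (F n).J v' =
        IsNilpotent.exp (vec (eB la) (AB.co la (X n) (F n) 0 v v')) := by
      rw [co0]
      conv_lhs => rw [ex ω v v' z, ← mul_assoc, Matrix.nonsing_inv_mul _ (uj v z.1).det, one_mul]
      rfl
    have b5 : Eb (Λ ^ 4 * δ) (cm (((F n).J v)⁻¹ * (F n).J v') (ψ n ω j)) := by
      have : cm (((F n).J v)⁻¹ * (F n).J v') (ψ n ω j) = ((F n).J v)⁻¹ * (F n).J v' *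
          (ψ n ω j - ψ n v' j) + (ψ n v j - ψ n ω j) * (((F n).J v)⁻¹ * (F n).J v') := by
        rw [cm, mul_sub, sub_mul, b2]; abel
      have y : 0 ≤ Λ ^ 2 * δ := by positivity
      rw [this]
      refine eb_mono (eb_add (eb_mul b1 b3 (by linarith) y) (eb_mul b4 b1 y (by linarith))) ?_
      nlinarith [mul_nonneg (mul_nonneg (zero_le_one.trans Λ1) y) (show 0 ≤ Λ - 2 * (m + 1) by linarith)]
    rw [e] at b5
    rw [← cm_vec]
    refine (lo la _ _ Λ _ (N2.vec_mem _) Λ1 (by positivity)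
      (eb_el (by linarith) (box ω v v' z)) b5 q r).trans ?_
    refine (mul_le_mul_of_nonneg_right (pow_le_pow_left₀ (by positivity)
      (mul_le_mul_of_nonneg_right (show (c : ℝ) ≤ Λ by linarith) (by linarith)) c)
      (by positivity)).trans ?_
    rw [hΛ, hδ, dl, dl, ← Real.exp_add, ← Real.exp_nat_mul, ← Real.exp_nat_mul, ← Real.exp_add,
      ← Real.exp_add]
    exact Real.exp_le_exp.2 (by push_cast; nlinarith [Nat.cast_nonneg (α := ℝ) (X n).u])

theorem ofFb : OfFb := fun hT hL _ _ _ _ _ _ _ _ _ _ _ _ _ _ _ _ _ _ _ _ _ t s h hb l p c hc K => by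
  filter_upwards [bd s h hb p hc, upp t h hb p K, com t s h hb p hT hL l K] with n a b e ω hω j
    using ⟨a ω hω j, b ω hω j, fun i => e ω hω i j⟩

end Pool.Agent.MP_5168f5_an.QA.Ob
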