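import Pool.Agent.MP_5168f5_an.QA.OrbSpec
import Pool.Agent.MP_5168f5_an.QA.Prt
import Pool.Agent.MP_5168f5_an.QA.ChAlg

/-! A matrix that almost commutes with an exponential almost commutes with the logarithm. -/

namespace Pool.Agent.MP_5168f5_an.QA.Ob

open AN IsNilpotent Polynomial Finset Lt Ch
open GA (Mt cm)
open N2 (tri)
open N6 (Eb)

namespace OrbLogA

theorem ex_q {u : ℝ[X]} (hu : u.coeff 0 = 1) (p : ℝ[X]) :
    ∀ k : ℕ, ∃ q : ℝ[X], X ^ k ∣ p - q.comp (X * u)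
  | 0 => ⟨0, by simp⟩
  | k + 1 => by
    obtain ⟨q, r, e⟩ := ex_q hu p k
    obtain ⟨s, e'⟩ : X ∣ r - C (r.coeff 0) * u ^ k := by
      rw [X_dvd_iff, coeff_sub, mul_coeff_zero, coeff_zero_eq_eval_zero (u ^ k), eval_pow,
        ← coeff_zero_eq_eval_zero u, hu]
      simp
    refine ⟨q + C (r.coeff 0) * X ^ k, s, ?_⟩
    rw [add_comp, mul_comp, C_comp, pow_comp, X_comp, ← sub_sub, e, pow_add, pow_one, mul_assoc,
      ← e']
    ring

variable {m : ℕ} {L θ : ℝ} {N φ : Mt (Fin m)}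

theorem pow_cm (h : Eb L N) (d : Eb θ (cm N φ)) (hL : 1 ≤ L) (hθ : 0 ≤ θ) (i : ℕ) :
    Eb ((2 * (m + 1) * L) ^ i * θ) (cm (N ^ i) φ) := by
  have b : (0 : ℝ) ≤ (m + 1) * L := by positivity
  induction i with
  | zero => simpa [cm] using eb_zero hθ
  | succ i ih =>
    have e : cm (N ^ (i + 1)) φ = N * cm (N ^ i) φ + cm N φ * N ^ i := by
      simp only [cm, pow_succ']; noncomm_ring
    have k : ((m + 1) * L) ^ i ≤ (2 * (m + 1) * L) ^ i := pow_le_pow_left₀ b (by linarith) i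
    have k0 : 0 ≤ (2 * (m + 1) * L) ^ i := by positivity
    rw [e]
    refine eb_mono (eb_add (eb_mul h ih (by linarith) (by positivity))
      (eb_mul d (eb_mono (h.pow hL i) k) hθ k0)) ?_
    have : 0 ≤ (m + 1) * (2 * (m + 1) * L) ^ i * θ := by positivity
    rw [pow_succ']
    nlinarith

end OrbLogA

open OrbLogA in
theorem sLog : SLog := fun m => by
  obtain ⟨q, r, e⟩ := ex_q (u := ∑ i ∈ range (m + 1), C (((i + 1).factorial : ℝ)⁻¹) * X ^ i)
    (by simp [sum_range_succ', coeff_X_pow]) X (m + 1)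
  obtain ⟨K, hK⟩ := exists_nat_ge (∑ i ∈ range (q.natDegree + 1), |q.coeff i|)
  obtain ⟨c, c1, c2⟩ := ((gr_lin K).comp (((gr_lin (2 * m + 1)).comp (gr_eA m)).pow
    q.natDegree)).pb
  refine ⟨c, c1, fun la Z φ L θ hZ hL hθ b d => ?_⟩
  have z : Z ^ (m + 1) = 0 := (tri la).pow_zero' hZ
  have a1 := (gr_eA m).one hL
  have m0 : (0 : ℝ) ≤ m := Nat.cast_nonneg _
  have a2 : 1 ≤ 2 * (m + 1) * eA m L := by nlinarith
  have e1 : aeval Z (X * ∑ i ∈ range (m + 1), C (((i + 1).factorial : ℝ)⁻¹) * X ^ i) =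
      exp Z - 1 := by
    have := exp_smul hZ 1 1
    rw [one_smul] at this
    rw [this, sum_range_succ' _ (m + 1), mul_sum, map_sum]
    simp [Algebra.algebraMap_eq_smul_one, pow_succ']
  have e2 := congrArg (aeval Z) e
  rw [map_sub, map_mul, map_pow, aeval_X, z, zero_mul, sub_eq_zero, aeval_comp, e1,
    aeval_eq_sum_range] at e2
  have e3 : cm Z φ = ∑ i ∈ range (q.natDegree + 1), q.coeff i • cm ((exp Z - 1) ^ i) φ := by
    conv_lhs => rw [e2]
    simp only [cm, sum_mul, mul_sum, smul_mul_assoc, mul_smul_comm, smul_sub, sum_sub_distrib]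
  have d' : Eb θ (cm (exp Z - 1) φ) := by
    simpa only [cm, sub_mul, mul_sub, one_mul, mul_one, sub_sub_sub_cancel_right] using d
  rw [e3]
  refine eb_mono (eb_sum (r := fun i => |q.coeff i| *
    ((2 * (m + 1) * eA m L) ^ (q.natDegree + 1) * θ)) _ fun i hi => eb_smul (eb_mono
      (pow_cm (fun o p => (exp_dec hZ hL fun p o => b o p).2.1 p o) d' a1 hθ i)
      (mul_le_mul_of_nonneg_right (pow_le_pow_right₀ a2 (mem_range.1 hi).le) hθ)) le_rfl) ?_
  rw [← sum_mul, ← mul_assoc]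
  refine mul_le_mul_of_nonneg_right (le_trans ?_ (c2 L hL)) hθ
  refine mul_le_mul (by linarith) (le_of_eq ?_) (by positivity) (by positivity)
  push_cast
  ring

end Pool.Agent.MP_5168f5_an.QA.Ob
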