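import Pool.Agent.MP_5168f5_an.QA.P5Defs
import Pool.Agent.MP_5168f5_an.QA.OrbFb
import Pool.Agent.MP_5168f5_an.QA.OrbTay
import Pool.Agent.MP_5168f5_an.QA.OrbLog
import Pool.Agent.MP_5168f5_an.QA.AbL1

/-! The maximal estimate in all dimensions: the lateral derivatives of the base class. -/

namespace Pool.Agent.MP_5168f5_an.QA.P5

open H19 H17S H17F R4 AN Filter Finset
open GA (Mt vec)
open N2 (tri)
open Fr (act)

variable {N D m : ℕ} {π : Pa m}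

namespace FbA

theorem vec_pB {y : Mt (Fin m)} (h : y ∈ (tri π.kk).F 0) (k : ∀ q, q ≠ π.o → y π.τ q = 0) :
    vec π.pB (fun a => y a.1.1 a.1.2) = y := by
  ext p q
  rw [vec, Matrix.sum_apply]
  by_cases e : π.kk q < π.kk p ∧ (p = π.τ → q = π.o)
  · rw [sum_eq_single ⟨(p, q), e⟩ (fun b _ u => ?_) (by simp)]
    · simp [Pa.pB]
    · rw [Matrix.smul_apply, Pa.pB, Matrix.single_apply_of_ne, smul_zero]
      exact fun v => u (Subtype.ext (Prod.ext v.1 v.2))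
  · rw [sum_eq_zero fun b _ => ?_]
    · by_cases u : π.kk q < π.kk p
      · obtain ⟨rfl, v⟩ := Classical.not_imp.1 fun v => e ⟨u, v⟩
        exact (k q v).symm
      · exact (N2.mem_F0.1 h p q u).symm
    · rw [Matrix.smul_apply, Pa.pB, Matrix.single_apply_of_ne, smul_zero]
      exact fun v => e (v.1 ▸ v.2 ▸ b.2)

theorem ph_mxd {M : ℕ} {E : Fin m → VD N D} (h : Fr.Sp E) : Ob.Ph M E (mxd M E) := fun j => by
  obtain ⟨φ, k⟩ := (Ob.sTay N D m M E h).1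
  exact funext fun p => (Classical.epsilon_spec (p := fun φ => ∀ p,
    ((2 : ℝ) ^ M)⁻¹ • dk j.succ (E p) = act φ E p) ⟨φ j, fun p => (congrFun (k j) p).symm⟩ p).symm

end FbA

variable {Y : ℕ → Bs N D π}

theorem M4.l1 (h : M4 Y) : AB.L1 π.kk π.la π.o π.τ π.S π.C π.L (fun n => (Y n).X)
    (fun n => (Y n).F) fun n => (Y n).A :=
  AB.sL1 N D m _ _ _ _ _ _ _ _ _ _ _ _ _ _ _ _ _ h.ts.toTq h.one.2 h.fm

/-- The letters as matrices. -/
theorem M4.vecH (h : M4 Y) : ∀ᶠ n in UF, ∀ ω ∈ (Y n).X.P.S, ∀ i,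
    vec π.σ.B ((Y n).bd.H ω i) = AB.lt π.la ((Y n).A ω) i :=
  h.l1.mem.mono fun _ k ω hω i => FbA.vec_pB (k ω hω i).1 (k ω hω i).2.2.1

/-- The matrices of the derivatives in the first frame and in the own frame. -/
theorem M4.ph (h : M4 Y) : ∀ᶠ n in UF, ∀ ω ∈ (Y n).X.P.S, Fr.Sp ((Y n).F.E ω) ∧
    Ob.Ph (Y n).X.M ((Y n).F.E ω) ((Y n).φ ω) ∧ Ob.Ph (Y n).X.M ((Y n).F.f ω)
      fun j => ((Y n).F.J ω)⁻¹ * (Y n).φ ω j * (Y n).F.J ω := by
  filter_upwards [h.fm.sp, h.fm.uj] with n a b ω hω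
  have u := (b ω hω).det
  have s : Fr.Sp ((Y n).F.E ω) := by
    have := (a ω hω).act u
    rwa [AB.Fd.f, ← Fr.act_mul, Matrix.mul_nonsing_inv _ u, Fr.act_one] at this
  have := ((Ob.sTay N D m (Y n).X.M _ s).2 _ (FbA.ph_mxd s)).1 _
    (Matrix.isUnit_nonsing_inv_det _ u)
  rw [Matrix.nonsing_inv_nonsing_inv _ u] at this
  exact ⟨s, FbA.ph_mxd s, this⟩

theorem sFb : SFb := fun N D m π Y h => by
  have k := Ob.ofFb Ob.sTay Ob.sLog N D m _ _ _ _ _ _ _ _ _ _ _ _ _ _ _ _ _ _ h.ts.toTq h.sur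
    h.fm.toMI h.hb h.l1 (h.ph.mono fun _ a ω hω => (a ω hω).2.2)
  refine ⟨⟨.of_forall fun n ω _ v _ e => congrArg (mxd (Y n).X.M) e, fun c hc T => ?_⟩,
    fun T => ?_⟩
  · filter_upwards [k c hc T, h.vecH] with n a b ω hω j p q
    exact ⟨(a ω hω j).1 q p, fun i => (b ω hω i).symm ▸ (a ω hω j).2.2 i q p⟩
  · filter_upwards [k 1 one_pos T, h.ph] with n a b ω hω
    refine ⟨fun j p => (congrFun ((b ω hω).2.1 j) p).symm, fun j p q e => ?_⟩
    simpa [Ob.pj, e] using (a ω hω j).2.1 q p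

end Pool.Agent.MP_5168f5_an.QA.P5
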