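import Pool.Agent.MP_5168f5_an.QA.FlDefs

/-! The Kakeya maximal estimate: the boxes of the filtration are closed. -/

namespace Pool.Agent.MP_5168f5_an.QA.Fl

open H19 H17S H17F R4 AN Filter Finset Matrix
open GA (Mt IsFr Nr Bx Idl lg vec ex br mB mC cm)

namespace FlIdlA

theorem key {c x y z w L : ℝ} {p : Prop} (hL : 1 ≤ L) (h1 : |c| ≤ L) (h2 : p → |c| ≤ Real.exp (-w))
    (h : x + y ≤ z ∨ p ∧ -w + x + y ≤ z) : |c| * Real.exp x * Real.exp y ≤ L * Real.exp z := by
  rw [mul_assoc, ← Real.exp_add]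
  rcases h with h | ⟨k, h⟩
  · exact mul_le_mul h1 (Real.exp_le_exp.2 h) (Real.exp_pos _).le (by linarith)
  · refine (mul_le_mul_of_nonneg_right (h2 k) (Real.exp_pos _).le).trans ?_
    rw [← Real.exp_add]
    exact (Real.exp_le_exp.2 (by linarith)).trans (le_mul_of_one_le_left (Real.exp_pos _).le hL)

variable {κ : Type} {lv lv' : κ → Prop} {μ : κ → ℝ} {γ : κ → ℕ} {G : ℕ} {W R w L : ℝ}
  {c : κ → κ → κ → ℝ}

open Classical in
/-- The exponent of the radius. -/
noncomputable def xp (lv : κ → Prop) (μ : κ → ℝ) (γ : κ → ℕ) (W R w : ℝ) (b : κ) : ℝ :=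
  if lv b then μ b * R else -w + (2 + γ b) * (W * R)

theorem rd_eq (b : κ) : rd lv μ γ W R w b = Real.exp (xp lv μ γ W R w b) := by
  unfold rd xp
  split_ifs <;> rfl

theorem gam_le (h : Wp lv μ γ G W) (b : κ) : γ b ≤ G := by
  by_cases k : lv b
  exacts [(h.live b k).le, (h.dead b k).2.le]

theorem off (hT : 0 ≤ W * R) {b : κ} (k : ¬lv' b) {g : ℕ} (e : γ b ≤ g) :
    xp lv' μ γ W R w b ≤ -w + (2 + g) * (W * R) := by
  rw [xp, if_neg k]
  have : (γ b : ℝ) ≤ g := Nat.cast_le.2 e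
  nlinarith

theorem off' (hT : 0 ≤ W * R) {b : κ} (k : ¬lv' b) {g : ℕ} (e : γ b < g) :
    xp lv' μ γ W R w b ≤ -w + (1 + g) * (W * R) := by
  rw [xp, if_neg k]
  have : (γ b : ℝ) + 1 ≤ g := by exact_mod_cast e
  nlinarith

theorem top (h : Wp lv μ γ G W) (hW : 0 ≤ W) (hR : 0 ≤ R) (hw : (3 + G) * (W * R) ≤ w) (b : κ) :
    xp lv' μ γ W R w b ≤ W * R := by
  have hT := mul_nonneg hW hR
  by_cases k : lv' b
  · rw [xp, if_pos k]
    exact mul_le_mul_of_nonneg_right (h.bd b).2 hR
  · linarith [off (μ := μ) (w := w) hT k (gam_le h b)]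

theorem idl (h : Wp lv μ γ G W) (hW : 0 ≤ W) (hR : 0 ≤ R) (hw : (3 + G) * (W * R) ≤ w)
    (hL : 1 ≤ L) (h1 : ∀ a b e, |c a b e| ≤ L)
    (h2 : ∀ a b e, Lp lv μ γ a b e → |c a b e| ≤ Real.exp (-w)) (s : ∀ b, lv' b → lv b)
    (z : ∀ b, ¬lv' b → μ b = 0) : Idl c (rd lv μ γ W R w) (rd lv' μ γ W R w) L := by
  intro a b e
  have hT := mul_nonneg hW hR
  have hG := mul_nonneg (Nat.cast_nonneg (α := ℝ) G) hT
  have ta := top (lv' := lv) h hW hR hw a
  have tb := top (lv' := lv') h hW hR hw b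
  rw [rd_eq, rd_eq, rd_eq]
  refine key hL (h1 a b e) (h2 a b e) ?_
  by_cases ke : lv' e
  · have e1 : xp lv' μ γ W R w e = μ e * R := if_pos ke
    have e0 := mul_nonneg (h.bd e).1 hR
    by_cases ka : lv a
    · by_cases kb : lv' b
      · rcases le_or_gt (μ a + μ b) (μ e) with u | u
        · have e2 : xp lv μ γ W R w a = μ a * R := if_pos ka
          have e3 : xp lv' μ γ W R w b = μ b * R := if_pos kb
          exact Or.inl (by linarith [mul_le_mul_of_nonneg_right u hR])
        · exact Or.inr ⟨Or.inl ⟨ka, s b kb, s e ke, Or.inl u⟩, by linarith⟩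
      · exact Or.inl (by linarith [off (μ := μ) (w := w) hT kb (gam_le h b)])
    · exact Or.inl (by linarith [off (μ := μ) (w := w) hT ka (gam_le h a)])
  · have e1 : xp lv' μ γ W R w e = -w + (2 + γ e) * (W * R) := if_neg ke
    have e0 := mul_nonneg (Nat.cast_nonneg (α := ℝ) (γ e)) hT
    have nl : ∀ a, γ a < γ e → ¬lv a := fun a u k => by
      have := h.live a k
      have := gam_le h e
      omega
    rcases lt_or_ge (γ a) (γ e) with u | u
    · exact Or.inl (by linarith [off' (μ := μ) (w := w) hT (nl a u) u])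
    rcases lt_or_ge (γ b) (γ e) with v | v
    · exact Or.inl (by linarith [off' (μ := μ) (w := w) hT (fun k => nl b v (s b k)) v])
    refine Or.inr ⟨?_, by linarith⟩
    by_cases k : lv e
    · have l : ∀ a, γ e ≤ γ a → lv a := fun a u => by
        by_contra k'
        have := (h.dead a k').2
        have := h.live e k
        omega
      exact Or.inl ⟨l a u, l b v, k, Or.inr (z e ke)⟩
    · exact Or.inr ⟨k, u, v⟩

open Classical in
theorem rl_eq (h : ℝ) (b : κ) : rl μ h w b = Real.exp (if μ b < h then -w else 0) := by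
  unfold rl
  split_ifs
  exacts [rfl, Real.exp_zero.symm]

end FlIdlA

open FlIdlA in
theorem rIdl : RIdl := by
  intro κ lv μ γ G W R w L c h hW hR hw hL h1 h2
  have hT := mul_nonneg hW hR
  have hG := mul_nonneg (Nat.cast_nonneg (α := ℝ) G) hT
  have s : ∀ b, 0 < μ b → lv b := fun b u => by
    by_contra k
    exact u.ne' (h.dead b k).1
  refine ⟨idl h hW hR hw hL h1 h2 (fun _ => id) fun b k => (h.dead b k).1,
    idl h hW hR hw hL h1 h2 s fun b k => le_antisymm (not_lt.1 k) (h.bd b).1, fun a => ?_,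
    fun t ht a b e => ?_⟩
  · rw [rd_eq, rd_eq]
    refine Real.exp_le_exp.2 ?_
    by_cases k : lv a
    · by_cases k' : 0 < μ a
      · rw [xp, xp, if_pos k, if_pos k']
      · have := off (lv' := fun a => 0 < μ a) (μ := μ) (w := w) hT k' (gam_le h a)
        rw [xp.eq_1 lv, if_pos k]
        linarith [mul_nonneg (h.bd a).1 hR]
    · rw [xp, xp, if_neg k, if_neg fun k' => k (s a k')]
  · have w0 : 0 ≤ w := by linarith
    have ea : xp lv μ γ W 0 w a ≤ 0 := by
      unfold xp
      split_ifs <;> simp [w0]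
    rw [rd_eq, rl_eq, rl_eq]
    refine key hL (h1 a b e) (h2 a b e) ?_
    by_cases kb : μ b < t
    · left
      split_ifs <;> linarith
    by_cases ke : μ e < t
    · rw [if_neg kb, if_pos ke]
      have lb := s b (ht.trans_le (not_lt.1 kb))
      by_cases ka : lv a
      · refine Or.inr ⟨?_, by linarith⟩
        by_cases k : lv e
        · exact Or.inl ⟨ka, lb, k, Or.inl (by linarith [(h.bd a).1, not_lt.1 kb])⟩
        · exact Or.inr ⟨k, (h.live a ka).symm ▸ gam_le h e, (h.live b lb).symm ▸ gam_le h e⟩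
      · exact Or.inl (by simp [xp, ka])
    · rw [if_neg kb, if_neg ke]
      exact Or.inl (by linarith)

end Pool.Agent.MP_5168f5_an.QA.Fl
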