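import Pool.Agent.MP_5168f5_an.QA.P5Defs
import Pool.Agent.MP_5168f5_an.QA.FlOut
import Pool.Agent.MP_5168f5_an.QA.FlIdl
import Pool.Agent.MP_5168f5_an.QA.AbL1
import Pool.Agent.MP_5168f5_an.QA.AbL2
import Pool.Agent.MP_5168f5_an.QA.HApi

/-! The maximal estimate in all dimensions: the last member has all the required facts. -/

namespace Pool.Agent.MP_5168f5_an.QA.P5

open H19 H17S H17F R4 AN Filter Matrix Finset
open GA (Mt)
open N2 (El eW eB)
open LC (Au)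

variable {N D m : ℕ} {π : Pa m}

namespace FinA

/-- The marked entry of a letter. -/
theorem mk (h : π.kk π.o < π.kk π.τ) (u : Mt (Fin m)) :
    GA.vec π.pB (fun a => u a.1.1 a.1.2) π.τ π.o = u π.τ π.o := by
  rw [GA.vec, Matrix.sum_apply, sum_eq_single (⟨(π.τ, π.o), h, fun _ => rfl⟩ : π.κ)
    (fun b _ k => ?_) (by simp)]
  · simp [Pa.pB]
  · rw [Matrix.smul_apply, Pa.pB, Matrix.single_apply_of_ne, smul_zero]
    exact fun e => k (Subtype.ext (Prod.ext e.1 e.2))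

/-- Normalising a form. -/
theorem unit {κ : Type} [Fintype κ] {l : κ → ℝ} {s : ℝ} (hs : 0 < s) (h : ∃ i, s ≤ |l i|) :
    ∃ r : ℝ, s ≤ r ∧ ∑ b, |l b / r| = 1 := by
  obtain ⟨i, hi⟩ := h
  have a : s ≤ ∑ b, |l b| := hi.trans (single_le_sum (fun b _ => abs_nonneg (l b)) (mem_univ i))
  have b := hs.trans_le a
  refine ⟨_, a, ?_⟩
  simp only [abs_div, abs_of_pos b]
  rw [← sum_div, div_self b.ne']

variable {Y : ℕ → Bs N D π}

theorem lbx (h : M4 Y) (x : ℚ) {ε : ℝ} (hε : 0 < ε) : ∀ᶠ n in UF,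
    |AB.lb (Y n).X (Y n).F x - x * (Y n).X.u| ≤ ε * (Y n).X.u :=
  (h.ts.toTq.lev 0 x hε).mono fun n a => by simpa [AB.lb, h.hb n] using a

/-- Anti-concentration of the coefficients. -/
theorem ac (h : M4 Y) (x : ℚ) : Au (fun n => (Y n).X.u) fun n =>
    As.Ac π.σ (Y n).bd (Y n).pr π.L x := fun c hc T => by
  have w0 : 0 ≤ ∑ i, eW π.la i := sum_nonneg fun i _ => (sub_pos.2 i.2).le
  have c1 : 0 < c / 2 / (∑ i, eW π.la i + 1) := by positivity
  filter_upwards [h.fm.ha.sh, h.fm.ha.ac x T _ (half_pos hc), lbx h x c1] with n a b d ω hω t l E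
    ht h0 ⟨i, hi⟩ th
  have u0 : (0 : ℝ) ≤ (Y n).X.u := Nat.cast_nonneg _
  have e : ∀ j, |eW π.la j * (x * (Y n).X.u - AB.lb (Y n).X (Y n).F x)| ≤ c / 2 * (Y n).X.u :=
    fun j => by
    have j0 : 0 ≤ eW π.la j := (sub_pos.2 j.2).le
    have j1 : eW π.la j ≤ ∑ i, eW π.la i + 1 := (single_le_sum
      (fun i _ => (sub_pos.2 i.2).le) (mem_univ j)).trans (by linarith)
    rw [abs_mul, abs_of_nonneg j0, abs_sub_comm]
    refine (mul_le_mul j1 d (abs_nonneg _) (by linarith)).trans_eq ?_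
    field_simp
  obtain ⟨r, r1, r2⟩ := unit (l := fun j => l j *
      Real.exp (eW π.la j * (x * (Y n).X.u - AB.lb (Y n).X (Y n).F x)))
    (Real.exp_pos (-(c / 2 * (Y n).X.u))) ⟨i, by
      rw [abs_mul, Real.abs_exp]
      exact (Real.exp_le_exp.2 (abs_le.1 (e i)).1).trans
        (le_mul_of_one_le_left (Real.exp_pos _).le hi)⟩
  have r0 := (Real.exp_pos _).trans_le r1
  have p : 0 ≤ c / 2 * (Y n).X.u := by positivity
  refine (b ω hω (t - c / 2 * (Y n).X.u) ((sub_le_self _ p).trans ht) _ E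
    ⟨fun j hj => ?_, fun j k => ?_⟩ r2 fun v v' z z' ev ev' => ?_).trans (Real.exp_le_exp.2 ?_)
  · rw [h0 j (funext fun q => ?_), zero_mul, zero_div]
    have : PA.col ((Y n).A ω) j = 0 := funext fun s => by_contra fun k =>
      hj ((a ω hω).gr s j k).1
    simp [Bs.bd, AB.lt, this, GA.vec]
  · simp [PA.cA, GA.br, (Real.exp_pos _).le]
  · have k := th v z.1 v' z.2.1 z' (z.2.2.symm.trans z') ev ev'
    have q : ∑ j, l j * Real.exp (eW π.la j * (x * (Y n).X.u - AB.lb (Y n).X (Y n).F x)) / r *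
        (Y n).pr.co (eW π.la) x v v' j = (∑ j, l j * (Real.exp (π.σ.η j * (x * (Y n).pr.M)) *
          (Y n).bd.y v v' j)) / r := by
      rw [sum_div]
      refine sum_congr rfl fun j _ => ?_
      rw [mul_sub, Real.exp_sub]
      simp only [PA.Pr.co, AB.pr, Pa.σ, Bs.bd]
      field_simp
    rw [q, abs_div, abs_of_pos r0, div_le_iff₀ r0]
    refine k.trans (le_trans ?_ (mul_le_mul_of_nonneg_left r1 (Real.exp_pos _).le))
    rw [← Real.exp_add]
    exact Real.exp_le_exp.2 (by linarith)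
  · have : c / 2 * (Y n).X.u / π.L ≤ c / 2 * (Y n).X.u := div_le_self p h.one.2
    rw [sub_div]
    show c / 2 * (Y n).X.u - _ ≤ c * (Y n).X.u - _
    linarith

/-- The heights. -/
theorem ht (h : M4 Y) (i : ℕ) (x x' : ℚ) : HT1 (π.kf i) (fun n => (Y n).X.P)
    (fun n ω => Real.exp (lg * (x' * (Y n).X.u)) * (Real.exp (lg * (Y n).F.b) * (Y n).X.g.z ω))
    (fun n => (Y n).X.O x) (fun n => (Y n).X.u)
    fun n => (1 - 1 / (i + 1 : ℝ)) * (lg * ((x' - x) * (Y n).X.u)) := by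
  have t0 : (0 : ℝ) ≤ 1 / (i + 1 : ℝ) := by positivity
  have t1 : 1 / (i + 1 : ℝ) ≤ 1 := by
    rw [div_le_one (by positivity)]; linarith [Nat.cast_nonneg (α := ℝ) i]
  have h0 : HT1 (π.kf i) (fun n => (Y n).X.P) (fun n ω => 2 ^ (Y n).X.lv x' * (Y n).X.g.z ω)
      (fun n => (Y n).X.O x) (fun n => (Y n).X.u)
      fun n => (1 - 1 / (i + 1 : ℝ)) * (((Y n).X.lv x' : ℝ) - (Y n).X.lv x) * lg := fun ε hε =>
    (h.ts.hs i x x' ε hε).mono fun n a => Ht.mono a hε.le le_rfl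
  refine (h0.mono fun ε hε => (h.ts.toTq.lev x x' hε).mono fun n a => ?_).aff h.ts.big
    (L := fun n => Real.exp |AB.lb (Y n).X (Y n).F x' - x' * (Y n).X.u|)
    ⟨fun n => Real.one_le_exp (abs_nonneg _), fun ε hε =>
      (lbx h x' hε).mono fun n a => Real.exp_le_exp.2 a⟩
    (c := fun n _ => Real.exp (lg * (x' * (Y n).X.u - AB.lb (Y n).X (Y n).F x'))) (b := 0)
    (.of_forall fun n => ⟨fun _ _ _ _ _ => rfl, fun _ _ _ _ _ => rfl, fun ω _ => ?_⟩)
  · have b := (abs_le.1 a).1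
    have p : 0 ≤ ε * (Y n).X.u := by positivity
    have q : (1 - 1 / (i + 1 : ℝ)) * lg ≤ 1 := by nlinarith [lg_pos, lg_lt_one]
    have q0 : 0 ≤ (1 - 1 / (i + 1 : ℝ)) * lg := mul_nonneg (by linarith) lg_pos.le
    nlinarith [mul_le_mul_of_nonneg_left b q0, mul_le_mul_of_nonneg_right q p]
  · have e : |lg * (x' * (Y n).X.u - AB.lb (Y n).X (Y n).F x')| ≤
        |AB.lb (Y n).X (Y n).F x' - x' * (Y n).X.u| := by
      rw [abs_mul, abs_of_pos lg_pos, abs_sub_comm]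
      exact mul_le_of_le_one_left (abs_nonneg _) lg_lt_one.le
    rw [Real.abs_exp, ← Real.exp_add]
    refine ⟨Real.one_le_exp (by linarith [(abs_le.1 e).1]), Real.exp_le_exp.2 (abs_le.1 e).2, ?_⟩
    rw [AB.two_exp, ← mul_assoc (Real.exp _), ← mul_assoc (Real.exp _), ← Real.exp_add,
      ← Real.exp_add, AB.lb, show lg * (x' * (Y n).X.u - ((Y n).X.lv x' - (Y n).F.b)) +
        lg * (Y n).X.lv x' = lg * (x' * (Y n).X.u) + lg * (Y n).F.b by ring]
    simpa using (Real.exp_pos _).le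

/-- The letters move the height. -/
theorem mv (h : M4 Y) : ∀ᶠ n in UF, ∀ ω ∈ (Y n).X.P.S, ∀ v ∈ (Y n).X.P.S,
    (Y n).X.O (-1) ω = (Y n).X.O (-1) v →
    |∑ i, (Y n).pr.Y ω v i * AB.lt π.la ((Y n).A ω) i π.τ π.o -
      (Real.exp (lg * (Y n).F.b) * (Y n).X.g.z v - Real.exp (lg * (Y n).F.b) * (Y n).X.g.z ω)| ≤
      2 := by
  have l1 := AB.sL1 _ _ _ _ _ _ _ _ _ _ _ _ _ _ _ _ _ _ _ _ h.ts.toTq h.one.2 h.fm
  have l2 := AB.sL2 _ _ _ _ _ _ _ _ _ _ _ _ _ _ _ _ _ _ _ _ _ h.ts h.fm.toMI l1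
  filter_upwards [l1.inc (-1) 2, l2.tt (-1) 2, h.fm.ha.sh, lbx h (-1) one_pos] with n a b s d ω hω
    v hv e
  let β : El π.la := ⟨(π.τ, π.o), h.fm.toMI.lt⟩
  have z : AB.Mt2 (Y n).X (-1) ω ω v := ⟨hω, hv, rfl, e.symm⟩
  have wβ : eW π.la β = lg := by simp [β, eW, h.fm.lo, h.fm.lτ]
  have a1 := a ω hω ω v z β
  have b1 := b ω ω v z
  rw [N2.vec_eB _ β] at b1
  have q : ∑ i, (Y n).A ω β i * AB.co π.la (Y n).X (Y n).F (-1) ω v i =
      Real.exp (lg * AB.lb (Y n).X (Y n).F (-1)) *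
        ∑ i, (Y n).pr.Y ω v i * AB.lt π.la ((Y n).A ω) i π.τ π.o := by
    rw [mul_sum]
    refine sum_congr rfl fun i _ => ?_
    rw [AB.lt, N2.vec_eB _ β, PA.col, AB.co]
    by_cases k : (Y n).A ω β i = 0
    · simp [k]
    · rw [((s ω hω).gr β i k).2, wβ]
      simp only [AB.pr]
      ring
  have q2 : (2 : ℝ) ^ (Y n).X.lv (-1) =
      Real.exp (lg * AB.lb (Y n).X (Y n).F (-1)) * Real.exp (lg * (Y n).F.b) := by
    rw [AB.two_exp, ← Real.exp_add, AB.lb]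
    congr 1
    ring
  have q3 : G39.dl (fun n => (Y n).X.u) 2 n ≤ Real.exp (lg * AB.lb (Y n).X (Y n).F (-1)) := by
    have := (abs_le.1 d).1
    push_cast at this
    refine Real.exp_le_exp.2 ?_
    nlinarith [lg_pos, lg_lt_one, Nat.cast_nonneg (α := ℝ) (Y n).X.u]
  rw [q] at a1
  rw [q2] at b1
  refine le_of_mul_le_mul_left ?_ (Real.exp_pos (lg * AB.lb (Y n).X (Y n).F (-1)))
  rw [← Real.abs_exp, ← abs_mul, Real.abs_exp, abs_le] at *
  constructor <;> linarith [a1.1, a1.2, b1.1, b1.2]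

end FinA

open FinA in
theorem sFin_of (hB : SBF) : SFin := by
  intro N D m π Hs W L₀ μ γ Z q pos t ok hμ hβ hL G acw top
  have h := G.m5.m4
  have tq := h.ts.toTq
  have l1 := AB.sL1 _ _ _ _ _ _ _ _ _ _ _ _ _ _ _ _ _ _ _ _ tq h.one.2 h.fm
  have l2 := AB.sL2 _ _ _ _ _ _ _ _ _ _ _ _ _ _ _ _ _ _ _ _ _ h.ts h.fm.toMI l1
  have bf := hB N D m π _ h
  have ko := h.fm.ko _ h.fm.toMI.ne
  have wt : μ t = lg := G.out.wt
  refine ⟨ok, hμ, tq.big, one_pos.trans_le hL, h.one.2, half_pos hβ, G.out.live, G.out.tau,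
    fun _ _ _ => rfl, fun x x' e => (tq.loc x x' 1 one_pos).mono fun _ a _ _ _ _ k =>
      fl1_eq_of_le (a.mono e) k, (tq.loc 0 0 1 one_pos).mono fun n a u hu v hv k =>
      (a.val u hu).1.symm.trans ((congrArg Dc.h k).trans (a.val v hv).1), bf, G.m5.fl, acw,
    fun c hc T => ?_, fun v hv K => G.out.cur v hv 1 one_pos K, fun x _ _ => ac h x,
    fun ε hε => ?_, fun i x x' _ _ _ => ?_, top⟩
  · filter_upwards [G.out.sp c hc T, l2.long c hc, l1.mem] with n a b e ω hω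
    obtain ⟨i, hi⟩ := b ω hω
    have s := a ω hω
    refine ⟨⟨i, ?_, ?_⟩, fun x y z k => s.sub x y z k.1 k.2.1, fun x y _ => ?_, s.cur⟩
    · have := (((e ω hω i).2.2.2 π.τ π.o).2 fun k =>
        (Real.exp_pos _).not_ge (by simpa [k] using hi)).2
      rw [h.fm.lo, h.fm.lτ, sub_zero] at this
      exact this.symm.trans wt.symm
    · exact hi.trans_eq (congrArg abs ((s.chA i).trans (mk ko _)).symm)
    · exact (congrArg abs (s.chi x y)).trans_le (by simpa using (Real.exp_pos _).le)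
  · obtain ⟨C, hC, o⟩ := Fl.ofOut Fl.rIdl _ _ _ π.σ Hs W μ γ ok hμ
    filter_upwards [G.m5.fl 1 one_pos (2 * C), bf (-1) le_rfl (by norm_num) 1 one_pos (2 * C),
      G.out.sp 1 one_pos 0, mv h, tq.big.ev 1, big_exp tq.big 3 hε] with n a b s k u1 u3 ω hω v hv e
    have u0 : (0 : ℝ) ≤ (Z n).X.u := Nat.cast_nonneg _
    obtain ⟨⟨g, -⟩, -, g'⟩ := o _ _ _ _ _ _ _ _ _ _ _ _ _ u0 (u1.trans_eq (one_mul _).symm)
      (show C * (1 * (Z n).X.u + (Z n).X.u) ≤ 2 * C * (Z n).X.u from le_of_eq (by ring)) a b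
      (fun _ _ _ _ x => x) ω hω v hv
    obtain ⟨r, r1, r2⟩ := g' e
    have fr : GA.IsFr π.σ.Φ ((Z n).d.B π.σ ω) ((Z n).d.c π.σ ω) :=
      ((GA.sFr _ _ _ _ _).2 _ _ (a.inv ω hω)).1 ok.fr
    have r3 := (r2 t).trans (Real.exp_le_one_iff.2 (show _ ≤ (0 : ℝ) by nlinarith))
    have r4 := k ω hω v hv e
    have r5 : ∑ i, (Z n).bd.y ω v i * (Z n).d.A ω i t =
        ∑ i, (Z n).pr.Y ω v i * AB.lt π.la ((Z n).A ω) i π.τ π.o :=
      sum_congr rfl fun i _ => congrArg _ (((s ω hω).chA i).trans (mk ko _))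
    rw [r5] at r3
    rw [r1, (GA.sMul _ _ _ _ _ fr).lg _ _ g]
    exact (abs_sub_le _ _ _).trans ((add_le_add r3 r4).trans (le_trans (by norm_num) u3))
  · have := ht h i x x'
    rw [← wt] at this ⊢
    exact this

end Pool.Agent.MP_5168f5_an.QA.P5
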