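import Pool.Agent.MP_5168f5_an.QA.FlDefs

/-! The grid of weights. -/

namespace Pool.Agent.MP_5168f5_an.QA.Fl

open Finset

theorem rGrid : RGrid := by
  intro J _ f hf
  classical
  have nn : ∀ (n : J → ℕ) (j), j ∈ univ → 0 ≤ n j * f j := fun n j _ =>
    mul_nonneg (Nat.cast_nonneg _) (hf j).le
  have fin : {h | (∃ n : J → ℕ, ∑ j, n j * f j = h) ∧ h ≤ ∑ j, f j}.Finite :=
    ((Set.Finite.pi' fun j => Set.finite_Iic ⌊(∑ j, f j) / f j⌋₊).image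
      fun n : J → ℕ => ∑ j, n j * f j).subset fun h ⟨⟨n, e⟩, k⟩ => ⟨n, fun j =>
        Nat.le_floor ((le_div_iff₀ (hf j)).2
          ((single_le_sum (nn n) (mem_univ j)).trans (e.le.trans k))), e⟩
  refine ⟨fin.toFinset, ∑ j, f j, ?_, fun h k => ?_, fun h k h' k' e => ?_, fun j => ?_⟩ <;>
    simp only [Set.Finite.mem_toFinset, Set.mem_ofPred_eq] at *
  · exact ⟨⟨0, by simp⟩, sum_nonneg fun j _ => (hf j).le⟩
  · obtain ⟨⟨n, rfl⟩, k⟩ := k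
    exact ⟨sum_nonneg (nn n), k⟩
  · obtain ⟨⟨n, rfl⟩, -⟩ := k
    obtain ⟨⟨n', rfl⟩, -⟩ := k'
    exact ⟨⟨n + n', by simp [add_mul, sum_add_distrib]⟩, e⟩
  · exact ⟨⟨Pi.single j 1, by simp [Pi.single_apply]⟩,
      single_le_sum (fun j _ => (hf j).le) (mem_univ j)⟩

end Pool.Agent.MP_5168f5_an.QA.Fl
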