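import Pool.Agent.MP_5168f5_an.QA.P5Defs
import Pool.Agent.MP_5168f5_an.QA.FlGrid
import Pool.Agent.MP_5168f5_an.AN.N2Alg

/-! The maximal estimate in all dimensions: the constants of the pattern are admissible. -/

namespace Pool.Agent.MP_5168f5_an.QA.P5

open H17S AN Finset
open GA (Mt vec cm)
open N2 (El eW tri rk)

namespace Pa

variable {m : ℕ} {π : Pa m}

theorem pB_ne {a : π.κ} {p q : Fin m} (h : π.pB a p q ≠ 0) : a.1.1 = p ∧ a.1.2 = q := by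
  by_contra k
  exact h (Matrix.single_apply_of_ne _ _ _ _ _ k)

theorem vec_pB (t : π.κ → ℝ) (a : π.κ) : vec π.pB t a.1.1 a.1.2 = t a := by
  rw [vec, Matrix.sum_apply, sum_eq_single a (fun b _ h => ?_) (by simp)]
  · simp [pB]
  · rw [Matrix.smul_apply, pB, Matrix.single_apply_of_ne, smul_zero]
    exact fun k => h (Subtype.ext (Prod.ext k.1 k.2))

theorem vec_off (t : π.κ → ℝ) {p q : Fin m} (h : ¬(π.kk q < π.kk p ∧ (p = π.τ → q = π.o))) :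
    vec π.pB t p q = 0 := by
  rw [vec, Matrix.sum_apply]
  refine sum_eq_zero fun b _ => ?_
  rw [Matrix.smul_apply, pB, Matrix.single_apply_of_ne, smul_zero]
  exact fun k => h (k.1 ▸ k.2 ▸ b.2)

theorem mul_ne {a b : π.κ} {p q : Fin m} (h : (π.pB a * π.pB b) p q ≠ 0) :
    a.1.1 = p ∧ a.1.2 = b.1.1 ∧ b.1.2 = q := by
  rw [Matrix.mul_apply] at h
  obtain ⟨r, -, hr⟩ := exists_ne_zero_of_sum_ne_zero h
  have h1 := pB_ne (left_ne_zero_of_mul hr)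
  have h2 := pB_ne (right_ne_zero_of_mul hr)
  exact ⟨h1.1, h1.2.trans h2.1.symm, h2.2⟩

theorem cm_ne {a b : π.κ} {p q : Fin m} (h : cm (π.pB a) (π.pB b) p q ≠ 0) :
    (a.1.1 = p ∧ a.1.2 = b.1.1 ∧ b.1.2 = q) ∨ (b.1.1 = p ∧ b.1.2 = a.1.1 ∧ a.1.2 = q) := by
  by_contra k
  rw [not_or] at k
  refine h ?_
  rw [cm, Matrix.sub_apply, not_not.1 fun e => k.1 (mul_ne e), not_not.1 fun e => k.2 (mul_ne e),
    sub_zero]

theorem one_le_rk (a : π.κ) : (1 : ℝ) ≤ (rk π.kk a.1.1 : ℝ) - rk π.kk a.1.2 := by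
  have : (rk π.kk a.1.2 : ℝ) + 1 ≤ rk π.kk a.1.1 := by exact_mod_cast N2.rk_lt.2 a.2.1
  linarith

theorem lg_le : lg ≤ lg + ∑ i, eW π.la i :=
  le_add_of_nonneg_right (sum_nonneg fun i _ => (sub_pos.2 i.2).le)

theorem lg_le_pm (a : π.κ) : lg ≤ π.pm a := by
  unfold pm
  split_ifs
  · exact le_rfl
  · exact lg_le.trans (le_mul_of_one_le_right ((Real.log_pos one_lt_two).le.trans lg_le)
      (one_le_rk a))

theorem pm_le (a : π.κ) :
    π.pm a ≤ (lg + ∑ i, eW π.la i) * ((rk π.kk a.1.1 : ℝ) - rk π.kk a.1.2) := by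
  unfold pm
  split_ifs
  · exact lg_le.trans (le_mul_of_one_le_right ((Real.log_pos one_lt_two).le.trans lg_le)
      (one_le_rk a))
  · exact le_rfl

variable (ho : ∀ a, a ≠ π.o → π.kk π.o < π.kk a)

include ho

theorem ne_o (a : π.κ) : a.1.1 ≠ π.o := fun e => by
  have h := a.2.1
  rw [e] at h
  by_cases k : a.1.2 = π.o
  · rw [k] at h; exact lt_irrefl _ h
  · exact lt_asymm h (ho _ k)

theorem ne_tau {a b : π.κ} (h : a.1.2 = b.1.1) : a.1.1 ≠ π.τ := fun e =>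
  ne_o ho b (h ▸ a.2.2 e)

theorem isFr : GA.IsFr π.σ.Φ π.σ.B π.σ.c := by
  refine ⟨fun t => N2.mem_F0.2 fun p q h => vec_off t fun k => h k.1,
    fun t h => funext fun a => by rw [← vec_pB t a]; exact congrFun (congrFun h _) _,
    fun a b => ?_⟩
  ext p q
  by_cases e : π.kk q < π.kk p ∧ (p = π.τ → q = π.o)
  · exact (vec_pB (π.σ.c a b) ⟨(p, q), e⟩).symm
  · refine Eq.trans ?_ (vec_off _ e).symm
    by_contra k
    rcases cm_ne k with ⟨h1, h2, h3⟩ | ⟨h1, h2, h3⟩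
    · exact e ⟨h1 ▸ h3 ▸ b.2.1.trans (h2 ▸ a.2.1), fun t => absurd (h1.trans t) (ne_tau ho h2)⟩
    · exact e ⟨h1 ▸ h3 ▸ a.2.1.trans (h2 ▸ b.2.1), fun t => absurd (h1.trans t) (ne_tau ho h2)⟩

theorem gr1 {a b e : π.κ} (h1 : a.1.1 = e.1.1) (h2 : a.1.2 = b.1.1) (h3 : b.1.2 = e.1.2) :
    π.pm a + π.pm b ≤ π.pm e := by
  have he : π.pm e = (lg + ∑ i, eW π.la i) * ((rk π.kk e.1.1 : ℝ) - rk π.kk e.1.2) :=
    if_neg (h1 ▸ ne_tau ho h2)
  have ha := pm_le a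
  have hb := pm_le b
  rw [he, ← h1, ← h3]
  rw [← h2] at hb
  linarith [mul_add (lg + ∑ i, eW π.la i) ((rk π.kk a.1.1 : ℝ) - rk π.kk a.1.2)
    ((rk π.kk a.1.2 : ℝ) - rk π.kk b.1.2), show (rk π.kk a.1.1 : ℝ) - rk π.kk a.1.2 +
      ((rk π.kk a.1.2 : ℝ) - rk π.kk b.1.2) = rk π.kk a.1.1 - rk π.kk b.1.2 by ring]

theorem pat : Spl.Pat π.σ π.o π.τ lg := by
  refine ⟨fun a r h => ?_, fun a r => ?_, fun a h => ?_⟩
  · by_contra k
    have e := pB_ne k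
    exact h (e.2 ▸ a.2.2 e.1)
  · by_contra k
    exact ne_o ho a (pB_ne k).1
  · by_contra k
    exact h.ne' (if_pos (pB_ne k).1)

end Pa

/-- The constants are admissible. -/
theorem sOk : SOk := fun m π ho => by
  have hp : ∀ a, 0 < π.pm a := fun a => (Real.log_pos one_lt_two).trans_le (Pa.lg_le_pm a)
  have he : ∀ i, 0 < eW π.la i := fun i => sub_pos.2 i.2
  obtain ⟨Hs, W, h0, h1, h2, h3⟩ := Fl.rGrid (π.κ ⊕ El π.la) (Sum.elim π.pm (eW π.la))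
    (Sum.rec hp he)
  refine ⟨⟨Hs, W, Pa.isFr ho, hp, he, fun a b e h => ?_, h0, h1, h2, fun b => h3 (.inl b),
    fun i => h3 (.inr i)⟩, Pa.pat ho⟩
  rcases Pa.cm_ne h with ⟨h1, h2, h3⟩ | ⟨h1, h2, h3⟩
  · exact Pa.gr1 ho h1 h2 h3
  · exact (add_comm _ _).trans_le (Pa.gr1 ho h1 h2 h3)

end Pool.Agent.MP_5168f5_an.QA.P5
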