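import Pool.Agent.MP_5168f5_an.QA.P5Fb
import Pool.Agent.MP_5168f5_an.QA.OrbVh
import Pool.Agent.MP_5168f5_an.QA.AbL2
import Pool.Agent.MP_5168f5_an.QA.AbL3

/-! The maximal estimate in all dimensions: tubes lie on orbits. -/

namespace Pool.Agent.MP_5168f5_an.QA.P5

open H19 H17S H17F R4 AN AN.N6 IsNilpotent Finset Filter Matrix
open GA (Mt ex vec cm)
open Lt Vh Ob

namespace VhA

variable {N D m k : ℕ} {W θ : ℝ}

theorem ev_act (u : Mt (Fin m)) (f : Fin m → VD N D) (y : V (N + 1)) :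
    ev (Fr.act u f) y = u *ᵥ ev f y := funext fun p => by
  simp [Ch.vl, Fr.act, mulVec, dotProduct]

theorem exp_conj {u v a : Mt (Fin m)} (h : u * v = 1) (h' : v * u = 1) (ha : a ^ k = 0) :
    exp (u * a * v) = u * exp a * v := by
  have e : ∀ i, (u * a * v) ^ i = u * a ^ i * v := fun i => by
    induction i with
    | zero => simp [h]
    | succ i ih => rw [_root_.pow_succ, ih]; simp only [_root_.pow_succ, mul_assoc, ← mul_assoc v, h', one_mul]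
  rw [exp_eq_sum ha, exp_eq_sum (k := k) (by rw [e, ha, mul_zero, zero_mul]), mul_sum, sum_mul]
  exact sum_congr rfl fun i _ => by rw [e, mul_smul_comm, smul_mul_assoc]

theorem cm_lin (ξ : Fin N → ℝ) (ψ : Fin N → Mt (Fin m)) (s : ℝ) (Y : Mt (Fin m)) :
    cm (∑ j, ξ j • ψ j) (s • Y) = -∑ j, ξ j • s • cm Y (ψ j) := by
  simp only [cm, mul_sum, sum_mul, ← sum_sub_distrib, ← sum_neg_distrib, mul_smul_comm,
    smul_mul_assoc, smul_sub, neg_sub, smul_smul, mul_comm s, smul_sum]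

theorem core {Z U Y : Mt (Fin m)} {e : Fin m → ℝ} (o : Fin m) (hW : (2 * (m + 1) + k : ℕ) ≤ W)
    (hθ : 0 ≤ θ) (nZ : Z ^ k = 0) (nU : U ^ k = 0) (nY : Y ^ k = 0) (bZ : Eb W Z) (bU : Eb W U)
    (bY : Eb W Y) (c : Eb θ (cm U Y)) (he : Vb θ e) : Vb (W ^ (6 * k + 6) * θ)
    (exp Z *ᵥ (exp U *ᵥ (exp Y *ᵥ Pi.single o 1 + e)) - exp (exp Z * Y * exp (-Z)) *ᵥ
      (exp (exp Z * U * exp (-Z)) *ᵥ (exp Z *ᵥ Pi.single o 1))) := by
  have z1 := exp_mul_exp_neg_self (A := Mt (Fin m)) ⟨k, nZ⟩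
  have z2 := exp_neg_mul_exp_self (A := Mt (Fin m)) ⟨k, nZ⟩
  have w1 := one_le hW
  have q1 := one_le_pow₀ (n := 2 * k + 1) w1
  have e1 : exp Z *ᵥ (exp U *ᵥ (exp Y *ᵥ Pi.single o 1 + e)) - exp (exp Z * Y * exp (-Z)) *ᵥ
      (exp (exp Z * U * exp (-Z)) *ᵥ (exp Z *ᵥ Pi.single o 1)) =
      exp Z *ᵥ (cm (exp U) (exp Y) *ᵥ Pi.single o 1 + exp U *ᵥ e) := by
    rw [exp_conj z1 z2 nY, exp_conj z1 z2 nU]
    simp only [mulVec_mulVec, mulVec_add, cm, mulVec_sub, sub_mulVec, mul_assoc, z2, mul_one,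
      ← mul_assoc (exp (-Z)), one_mul]
    abel
  have e2 : W ^ (6 * k + 6) = W * W * W * (W ^ (2 * k + 1) * W ^ (2 * k + 1) * W ^ (2 * k + 1)) := by
    ring
  rw [e1, e2]
  refine vb_mono (vb_mv (nil_le hW nZ bZ) (by positivity) (vb_add (vb_col (nil_cm hW
    (by positivity) nY bY (nil_cm hW hθ nU bU c)) o) (vb_mv (nil_le hW nU bU) hθ he))) ?_
  generalize W ^ (2 * k + 1) = Q at *
  have m0 : (0 : ℝ) ≤ m := Nat.cast_nonneg _
  have k0 : (0 : ℝ) ≤ k := Nat.cast_nonneg _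
  push_cast at hW
  have a1 : Q * θ ≤ Q * (Q * θ) := le_mul_of_one_le_left (by positivity) q1
  have a2 : Q * (Q * θ) + m * Q * θ ≤ W * (Q * (Q * θ)) := by
    nlinarith [mul_le_mul_of_nonneg_left a1 m0, mul_nonneg (zero_le_one.trans q1) hθ]
  refine (mul_le_mul (mul_le_mul_of_nonneg_right (show (m : ℝ) ≤ W * W by nlinarith) (by linarith))
    a2 (by positivity) (by positivity)).trans_eq (by ring)

end VhA

theorem sVH : SVH := by
  intro N D m π Hs W₀ μ γ Z x ok _ h x1 x0 c hc T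
  obtain ⟨k, hk⟩ : ∃ k, k = D + m + 1 := ⟨_, rfl⟩
  obtain ⟨K, hK⟩ : ∃ K : ℝ, K = |T| + (6 * k + 7 : ℕ) * (c + 2) := ⟨_, rfl⟩
  have l0 : 0 < lg := Real.log_pos one_lt_two
  have l1 : lg ≤ 1 := by have := Real.log_two_lt_d9; rw [lg]; linarith
  have c3 : 0 < c / 3 := by positivity
  have tq := h.m4.ts.toTq
  have l2 := AB.sL2 N D m _ _ _ _ _ _ _ _ _ _ _ _ _ _ _ _ _ _ h.m4.ts h.m4.fm.toMI h.m4.l1
  filter_upwards [vh (T := lg * (-x + c / 3)) (x := x) sTay tq.big h.m4.fm.toMI h.m4.l1 l2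
      (AB.sL3 N D m _ _ _ _ _ _ _ _ _ _ _ _ _ _ _ _ _ tq h.m4.fm.toMI h.m4.hb h.m4.l1 l2) K 5 c3
      ((tq.lev x 0 c3).mono fun n a => by
        rw [AB.two_exp, AB.two_exp, ← Real.exp_add]
        exact Real.exp_le_exp.2 (by nlinarith [(abs_le.1 a).2])),
    (sFb N D m π _ h.m4).1.2 _ c3 K, h.fl _ c3 K, h.m4.ph, h.m4.vecH, h.m4.l1.mem,
    tq.big.ev (2 * (m + 1) + k : ℕ), tq.big.ev (N * 5), tq.big.ev π.C, tq.big.ev (5 / c),
    tq.big.ev (Fintype.card π.κ * Fintype.card π.κ)] with n a1 a2 a3 a4 a5 a6 a7 a8 a9 a10 a11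
  intro ω hω y hy
  obtain ⟨a, -, ea, b⟩ := a1 ω hω
  obtain ⟨ξ, s, e, b1, b2, b3, b4, b5⟩ := b _ (a4 ω hω).2.2 y hy
  have x5 : ∀ j, |ξ j| ≤ 5 := fun j => (norm_le_pi_norm ξ j).trans b1
  have mZ : vec ((Z n).B ω) ((Z n).d.k ω) ∈ (N2.tri π.kk).F 0 := by
    rw [Mb.B, Fl.Fd.B, GA.GAFrA.vec_mB]; exact ok.fr.mem _
  have eN : ex ((Z n).B ω) (-(Z n).d.k ω) = exp (-vec ((Z n).B ω) ((Z n).d.k ω)) := by
    simp [ex, GA.vec]
  have eG : ((Z n).G ω)⁻¹ = exp (vec ((Z n).B ω) ((Z n).d.k ω)) * ((Z n).F.J ω)⁻¹ := by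
    rw [Mb.G, Fl.Fd.G, Matrix.mul_inv_rev, eN, inv_eq_left_inv (exp_mul_exp_neg_self ⟨_, nil_of mZ 0⟩)]
    rfl
  have e1 : (Z n).ev ω y = exp (vec ((Z n).B ω) ((Z n).d.k ω)) *ᵥ ev ((Z n).F.f ω) y := by
    rw [Mb.ev, eG, Fr.act_mul, VhA.ev_act]; rfl
  have e2 : ∑ j, ξ j • (Z n).ph ω j = exp (vec ((Z n).B ω) ((Z n).d.k ω)) *
      (∑ j, ξ j • (((Z n).F.J ω)⁻¹ * (Z n).φ ω j * (Z n).F.J ω)) *
        exp (-vec ((Z n).B ω) ((Z n).d.k ω)) := by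
    rw [mul_sum, sum_mul]
    refine sum_congr rfl fun j _ => ?_
    rw [Mb.ph, eG, Mb.G, Fl.Fd.G, eN]
    simp only [mul_smul_comm, smul_mul_assoc, mul_assoc]
    rfl
  have e3 : ex ((Z n).B ω) (s • (Z n).d.A ω a) = exp (exp (vec ((Z n).B ω) ((Z n).d.k ω)) *
      (s • AB.lt π.la ((Z n).A ω) a) * exp (-vec ((Z n).B ω) ((Z n).d.k ω))) := by
    rw [mul_smul_comm, smul_mul_assoc, ← a5 ω hω, ← eN]
    refine congrArg exp (Eq.trans ?_ (congrArg (s • ·) (a3.ad ω hω a)))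
    simp [GA.vec, smul_sum, smul_smul]
  have f1 := fun j q p => (a2 ω hω j p q).1
  have f2 := fun j q p => (a2 ω hω j p q).2 a
  have f3 := a3.bk ω hω
  have f4 := fun a e => (a3.bU ω hω a e).1
  have f5 := a3.bA ω hω a
  have f6 := a3.low ω hω a
  rw [a5 ω hω] at f2
  have u0 : (0 : ℝ) ≤ (Z n).X.u := Nat.cast_nonneg _
  have x1' : (-1 : ℝ) ≤ x := by exact_mod_cast x1
  have x0' : (x : ℝ) ≤ 0 := by exact_mod_cast x0
  simp only [uu, PA.sM, AB.pr, G39.dl, Mb.Nb] at a7 a8 a9 a10 a11 b2 b3 f1 f2 f3 f4 f5 f6 ⊢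
  generalize ((Z n).X.u : ℝ) = u at *
  have n0 : (0 : ℝ) ≤ N := Nat.cast_nonneg _
  have t0 := abs_nonneg T
  have cu := mul_nonneg hc.le u0
  have u1 : u ≤ Real.exp u := le_trans (by linarith) (Real.add_one_le_exp u)
  have s1 : |s| ≤ Real.exp (lg * (-x * u) + 2 * (c / 3 * u)) :=
    b2.trans (Real.exp_le_exp.2 (by nlinarith))
  have xu : 0 ≤ -x * u := by nlinarith
  have s2 : |s| ≤ Real.exp ((c + 1) * u) := s1.trans (Real.exp_le_exp.2 (by nlinarith))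
  obtain ⟨W, hW⟩ : ∃ W, W = Real.exp ((c + 2) * u) := ⟨_, rfl⟩
  have w0 : ∀ {r v : ℝ}, r ≤ u → v ≤ (c + 1) * u → r * Real.exp v ≤ W := fun p q =>
    (mul_le_mul (p.trans u1) (Real.exp_le_exp.2 q) (Real.exp_pos _).le (Real.exp_pos _).le).trans_eq
      (by rw [hW, ← Real.exp_add]; congr 1; ring)
  have w4 : ((2 * (m + 1) + k : ℕ) : ℝ) ≤ W := by simpa using w0 (v := 0) a7 (by positivity)
  have θ0 := (Real.exp_pos (-(K * u))).le
  have g1 : Eb W (vec ((Z n).B ω) ((Z n).d.k ω)) := eb_mono (eb_lin f3 fun a => eb_lin (f4 a)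
    (A := 1) fun e q p => by
      show |Matrix.single _ _ (1 : ℝ) p q| ≤ 1
      rw [Matrix.single, of_apply]; split_ifs <;> simp) (le_trans (le_of_eq (by
        rw [Real.exp_add]; ring)) (w0 (v := c / 3 * u + c / 3 * u) a11 (by linarith)))
  have g2 : Eb W _ := eb_mono (eb_lin x5 f1) (by
    rw [Fintype.card_fin, ← mul_assoc]; exact w0 a8 (by linarith))
  have g3 : Eb W (s • AB.lt π.la ((Z n).A ω) a) := eb_mono (eb_smul (L := u)
    (fun q p => ((a6 ω hω a).2.2.2 p q).1.trans a9) s2) (mul_comm u _ ▸ w0 le_rfl le_rfl)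
  have g4 : Eb (W * Real.exp (-(K * u))) (cm (∑ j, ξ j • (((Z n).F.J ω)⁻¹ * (Z n).φ ω j *
      (Z n).F.J ω)) (s • AB.lt π.la ((Z n).A ω) a)) := by
    rw [VhA.cm_lin]
    refine eb_mono (eb_neg (eb_lin x5 fun j => eb_smul (f2 j) s2)) ?_
    rw [Fintype.card_fin, ← mul_assoc, ← mul_assoc]
    exact mul_le_mul_of_nonneg_right (w0 a8 le_rfl) θ0
  have lo : ∀ b, μ b < lg → |(s • (Z n).d.A ω a) b| ≤ Real.exp (-(|T| * u)) := fun b hb => by
    rw [Pi.smul_apply, smul_eq_mul, abs_mul]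
    refine (mul_le_mul s2 (f6 b (hb.trans_eq ea.symm)) (abs_nonneg _) (Real.exp_pos _).le).trans ?_
    have k0 : (0 : ℝ) ≤ k * ((c + 2) * u) := by positivity
    rw [← Real.exp_add, hK]
    push_cast
    exact Real.exp_le_exp.2 (by nlinarith)
  have tT : Real.exp (-(|T| * u)) ≤ Real.exp (-(T * u)) :=
    Real.exp_le_exp.2 (by nlinarith [le_abs_self T])
  refine ⟨s • (Z n).d.A ω a, ξ, fun b => ⟨fun hb => ?_, fun hb =>
    (lo b ((not_lt.1 hb).trans_lt l0)).trans tT⟩, fun j => (x5 j).trans ?_, ?_⟩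
  · rw [← Real.exp_add]
    rcases lt_or_ge (μ b) lg with p | p
    · exact (lo b p).trans (Real.exp_le_exp.2 (by nlinarith [mul_nonneg hb.le xu]))
    · rw [Pi.smul_apply, smul_eq_mul, abs_mul]
      refine (mul_le_mul s1 (f5 b) (abs_nonneg _) (Real.exp_pos _).le).trans ?_
      rw [← Real.exp_add]
      exact Real.exp_le_exp.2 (by nlinarith [mul_le_mul_of_nonneg_right p xu])
  · rw [div_le_iff₀' hc] at a10
    linarith [Real.add_one_le_exp (c * u)]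
  · rw [e1, e2, e3, b5]
    refine vb_mono (VhA.core π.o w4 (by have := one_le w4; positivity) (hk ▸ nil_of mZ D)
      (hk ▸ nil_up b4) (hk ▸ nil_of (sm_mem (a6 ω hω a).1 s) D) g1 g2 g3 g4
      (vb_mono b3 (le_mul_of_one_le_left θ0 (one_le w4)))) (le_trans (le_of_eq ?_) tT)
    rw [← mul_assoc, ← _root_.pow_succ, hW, ← Real.exp_nat_mul, ← Real.exp_add, hK]
    congr 1; push_cast; ring

end Pool.Agent.MP_5168f5_an.QA.P5
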