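import Pool.Agent.MP_5168f5_an.QA.W5D
import Pool.Agent.MP_5168f5_an.AN.GAAll

/-! The Kakeya maximal estimate: rescaling of the filtered system. -/

namespace Pool.Agent.MP_5168f5_an.QA.Cp

open H19 H17S H17F R4 AN Filter Matrix
open GA (Mt IsFr Nr Wd br sB sC)

variable {ι κ α : Type} [Fintype ι] [DecidableEq ι] [Fintype κ] [DecidableEq κ]

/-- The numerical hypotheses, with a common bound `K`. -/
structure Nm5 (σ : Cs ι κ α) (dp : κ → ℝ) (K : ℝ) : Prop where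
  g0 : 0 < σ.g
  wt : ∀ a, σ.μ a = 0 ∨ σ.g ≤ σ.μ a
  et : ∀ i, 0 < σ.η i
  live : ∀ a, σ.pos a → 0 < σ.μ a
  tau : σ.pos σ.τ
  gp : ∀ a b e, 0 < σ.μ a → 0 < σ.μ b → σ.μ a + σ.μ b < σ.μ e → σ.μ a + σ.μ b + σ.g ≤ σ.μ e
  ge : ∀ i b, σ.η i < σ.μ b → σ.η i + σ.g ≤ σ.μ b
  d1 : ∀ a, 0 < σ.μ a → dp a = σ.μ a
  d0 : ∀ a b, σ.μ a = 0 → dp a + σ.μ b + σ.g ≤ 0
  kg : σ.g ≤ K
  kd : ∀ a, -K ≤ dp a ∧ σ.μ a ≤ K
  ke : ∀ i, σ.η i ≤ K

namespace Nm5

variable {σ : Cs ι κ α} {dp : κ → ℝ} {K u M : ℝ} {X : Pd ι κ α}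

omit [Fintype κ] [DecidableEq κ] in
theorem or (h : Nm5 σ dp K) (a : κ) : σ.μ a = 0 ∨ 0 < σ.μ a := (h.wt a).imp_right h.g0.trans_le

omit [Fintype κ] [DecidableEq κ] in
theorem nn (h : Nm5 σ dp K) (a : κ) : 0 ≤ σ.μ a := (h.or a).elim Eq.ge le_of_lt

omit [Fintype κ] [DecidableEq κ] in
theorem le (h : Nm5 σ dp K) (a : κ) : dp a ≤ σ.μ a :=
  (h.or a).elim (fun e => by linarith [h.d0 a a e, h.g0]) fun e => (h.d1 a e).le

omit [Fintype κ] [DecidableEq κ] in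
theorem hw (h : Nm5 σ dp K) (c : κ → κ → κ → ℝ) {a b e : κ} (k : Hw σ.μ a b e) :
    sC (fun a => Real.exp (dp a * M)) c a b e = c a b e := by
  rw [sC, h.d1 a k.1, h.d1 b k.2.1, h.d1 e (by linarith [k.1, k.2.1, k.2.2]), k.2.2, add_mul,
    Real.exp_add]
  field_simp

omit [Fintype κ] [DecidableEq κ] in
theorem hc_sC (h : Nm5 σ dp K) (c : κ → κ → κ → ℝ) :
    hc σ.μ (sC (fun a => Real.exp (dp a * M)) c) = hc σ.μ c := by
  funext a b e
  unfold hc
  split_ifs with k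
  exacts [h.hw c k, rfl]

omit [Fintype κ] [DecidableEq κ] in
theorem abs_sC (c : κ → κ → κ → ℝ) (a b e : κ) {y z : ℝ} (k : |c a b e| ≤ Real.exp y)
    (k' : y + (dp a + dp b - dp e) * M ≤ z) :
    |sC (fun a => Real.exp (dp a * M)) c a b e| ≤ Real.exp z := by
  have e1 : sC (fun a => Real.exp (dp a * M)) c a b e =
      c a b e * Real.exp ((dp a + dp b - dp e) * M) := by
    rw [sC, sub_mul, add_mul, Real.exp_sub, Real.exp_add]; ring
  rw [e1, abs_mul, Real.abs_exp]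
  exact (mul_le_mul_of_nonneg_right k (Real.exp_pos _).le).trans
    (by rw [← Real.exp_add]; exact Real.exp_le_exp.2 k')

theorem alg (h : Nm5 σ dp K) (u0 : 0 ≤ u) {ω : X.Ω}
    (k : X.Al5 σ dp u (Real.exp (-(9 * K * X.M))) ω) : (X.scl σ dp).Alg σ u ω := by
  have M0 : (0 : ℝ) ≤ X.M := Nat.cast_nonneg _
  have g0 := h.g0
  have kg := h.kg
  have dg : Real.exp (-(9 * K * X.M)) ≤ Real.exp (u - σ.g * X.M) :=
    Real.exp_le_exp.2 (by nlinarith)
  have gr : ∀ a b e, 0 < σ.μ e → ¬Hw σ.μ a b e → |sC (fun a => Real.exp (dp a * X.M)) (X.c ω) a b e| ≤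
      Real.exp (u - max σ.g (σ.μ e - σ.μ a - σ.μ b) * X.M) := fun a b e he hn => by
    have a1 := h.le a
    have a2 := h.le b
    have a3 := h.d1 e he
    rcases lt_or_ge (dp e) (dp a + dp b) with d | d
    · have : dp a + dp b - dp e + max σ.g (σ.μ e - σ.μ a - σ.μ b) ≤ 9 * K := by
        rcases max_cases σ.g (σ.μ e - σ.μ a - σ.μ b) with m | m <;>
          linarith [(h.kd a).2, (h.kd b).2, m.1]
      exact abs_sC _ a b e (k.fil a b e d) (by nlinarith)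
    · have : dp a + dp b + σ.g ≤ σ.μ e := by
        rcases h.or a with m | m
        · linarith [h.d0 a b m]
        rcases h.or b with m' | m'
        · linarith [h.d0 b a m']
        rw [h.d1 a m, h.d1 b m'] at d ⊢
        exact h.gp a b e m m' (lt_of_le_of_ne (by linarith) fun q => hn ⟨m, m', q.symm⟩)
      have : dp a + dp b - dp e + max σ.g (σ.μ e - σ.μ a - σ.μ b) ≤ 0 := by
        rcases max_cases σ.g (σ.μ e - σ.μ a - σ.μ b) with m | m <;> linarith [m.1]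
      exact abs_sC _ a b e (k.ob a b e) (by nlinarith)
  have gr' : ∀ a b e, σ.pos e → (Hw σ.μ a b e → |X.c ω a b e| ≤ Real.exp (-(9 * K * X.M))) →
      |sC (fun a => Real.exp (dp a * X.M)) (X.c ω) a b e| ≤ Real.exp (u - σ.g * X.M) :=
    fun a b e he q => by
    by_cases w : Hw σ.μ a b e
    · rw [h.hw _ w]; exact (q w).trans dg
    · exact (gr a b e (h.live e he) w).trans (Real.exp_le_exp.2 (by
        nlinarith [le_max_left σ.g (σ.μ e - σ.μ a - σ.μ b)]))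
  refine ⟨k.unit, GA.GAFrA.fr_sB (fun _ => Real.exp_pos _) k.fr, fun a b e => ?_, gr,
    fun a b e _ _ p1 p2 p3 => gr' a b e p3 fun w => k.sub a b e w p1 p2 p3,
    fun a b => gr' a b _ h.tau (k.chi a b), fun i b q => by_contra fun q' => q (if_neg q'),
    fun i b => ?_, ?_, fun i i' b p => (k.cur i i' b p).trans dg⟩
  · rcases lt_or_ge (dp e) (dp a + dp b) with d | d
    · exact abs_sC _ a b e (k.fil a b e d) (by
        nlinarith [h.le a, h.le b, (h.kd a).2, (h.kd b).2, (h.kd e).1])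
    · exact abs_sC _ a b e (k.ob a b e) (by nlinarith)
  · change |X.ah σ ω i b| ≤ _
    unfold Pd.ah
    split_ifs
    exacts [k.bA i b, by rw [abs_zero]; positivity]
  · obtain ⟨i, a, b⟩ := k.long
    exact ⟨i, b.trans_eq (congrArg abs (if_pos a.symm).symm)⟩

theorem t_scl {δ : ℝ} {ω v : X.Ω} (k : X.Al5 σ dp u δ ω)
    (e : X.j v = X.j ω * GA.ex (X.B ω) (X.t ω v)) (b : κ) :
    (X.scl σ dp).t ω v b = X.t ω v b / Real.exp (dp b * X.M) := by
  have := ((GA.sFr ι κ σ.Φ (X.B ω) (X.c ω)).1 (fun a => Real.exp (dp a * X.M)) (fun _ => 1)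
    fun _ => Real.exp_pos _).2.2.2 k.fr (X.j ω) (X.t ω v) k.unit b
  rw [← e] at this
  exact this

theorem div_le {x y z d : ℝ} (k : |x| ≤ Real.exp y) (k' : y - d ≤ z) :
    |x / Real.exp d| ≤ Real.exp z := by
  rw [abs_div, Real.abs_exp, div_le_iff₀ (Real.exp_pos _), ← Real.exp_add]
  exact k.trans (Real.exp_le_exp.2 (by linarith))

theorem mul_le {x x' y y' : ℝ} (k : |x| ≤ Real.exp y) (k' : |x'| ≤ Real.exp y') :
    |x * x'| ≤ Real.exp (y + y') := by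
  rw [abs_mul, Real.exp_add]
  exact mul_le_mul k k' (abs_nonneg _) (Real.exp_pos _).le

theorem sum_le {β : Type} [Fintype β] {f : β → ℝ} {x y : ℝ} (c : (Fintype.card β + 1 : ℝ) ≤ Real.exp u)
    (k : |x| ≤ Real.exp y) (k' : ∀ i, |f i| ≤ Real.exp y) : |x + ∑ i, f i| ≤ Real.exp (u + y) := by
  have a := (Finset.abs_sum_le_sum_abs f Finset.univ).trans
    (Finset.sum_le_card_nsmul _ _ _ fun i _ => k' i)
  rw [nsmul_eq_mul, Finset.card_univ] at a
  rw [Real.exp_add]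
  nlinarith [abs_add_le x (∑ i, f i), Real.exp_pos y]

omit [DecidableEq κ] in
theorem near (h : Nm5 σ dp K) (u0 : 0 ≤ u) (k : X.Nr5 σ u (Real.exp (-(9 * K * X.M)))) :
    (X.scl σ dp).Near σ u := fun ω hω v hv e => by
  obtain ⟨a1, a2⟩ := k ω hω v hv e
  have M0 : (0 : ℝ) ≤ X.M := Nat.cast_nonneg _
  refine ⟨_, fun b => ?_, a1.trans (by rw [GA.GAFrA.ex_div fun a => Real.exp_pos (dp a * X.M)])⟩
  rw [← Real.exp_add]
  rcases h.or b with m | m
  · exact div_le ((a2 b).2 m) (by rw [m]; nlinarith [(h.kd b).1, h.g0, h.kg])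
  · exact div_le (a2 b).1 (by rw [h.d1 b m]; linarith)

variable [Fintype α] {Y : X.Ω → X.Ω → α → ℝ} {x : ℚ}

theorem inc (h : Nm5 σ dp K) (u0 : 0 ≤ u) (x0 : 0 ≤ x) (x1 : x ≤ 1)
    (c : (Fintype.card α + 1 : ℝ) ≤ Real.exp u) {ω v : X.Ω}
    (k : X.Al5 σ dp u (Real.exp (-(9 * K * X.M))) ω)
    (e : X.j v = X.j ω * GA.ex (X.B ω) (X.t ω v))
    (y : ∀ i, |Y ω v i| ≤ Real.exp (u + σ.η i * ((1 - x) * X.M)))
    (z : ∀ b, |X.t ω v b - ∑ i, Y ω v i * X.A ω i b| ≤ Real.exp (-(9 * K * X.M))) (b : κ) :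
    (σ.μ b = 0 → |(X.scl σ dp).t ω v b| ≤ Real.exp (3 * u)) ∧ (0 < σ.μ b →
      |(X.scl σ dp).t ω v b - ∑ i, Real.exp (-(σ.η i * ((1 - x) * X.M))) * Y ω v i *
        Real.exp (-(σ.η i * (x * X.M))) * X.ah σ ω i b| ≤
        Real.exp (3 * u - (σ.μ b * x + σ.g * (1 - x)) * X.M)) := by
  have M0 : (0 : ℝ) ≤ X.M := Nat.cast_nonneg _
  have x0' : (0 : ℝ) ≤ x := by exact_mod_cast x0
  have x1' : (x : ℝ) ≤ 1 := by exact_mod_cast x1
  have K0 := h.g0.trans_le h.kg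
  have KM := mul_nonneg K0.le M0
  have lo : ∀ i, σ.μ b < σ.η i → |Y ω v i * X.A ω i b| ≤ Real.exp (u - 8 * K * X.M) := fun i q =>
    (mul_le (y i) (k.low i b q)).trans (Real.exp_le_exp.2 (by
      nlinarith [mul_le_mul (h.ke i) (mul_le_of_le_one_left M0 (show 1 - (x : ℝ) ≤ 1 by linarith))
        (mul_nonneg (by linarith) M0) K0.le]))
  rw [t_scl k e]
  refine ⟨fun m => div_le (y := u + (u - 8 * K * X.M)) ?_ (by nlinarith [(h.kd b).1]), fun m => ?_⟩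
  · rw [← sub_add_cancel (X.t ω v b) (∑ i, Y ω v i * X.A ω i b)]
    exact sum_le c ((z b).trans (Real.exp_le_exp.2 (by linarith))) fun i => lo i (m ▸ h.et i)
  · have e1 : X.t ω v b / Real.exp (dp b * X.M) - ∑ i, Real.exp (-(σ.η i * ((1 - x) * X.M))) *
        Y ω v i * Real.exp (-(σ.η i * (x * X.M))) * X.ah σ ω i b =
        (X.t ω v b - ∑ i, Y ω v i * X.A ω i b + ∑ i, (Y ω v i * X.A ω i b -
          Y ω v i * X.ah σ ω i b)) / Real.exp (dp b * X.M) := by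
      rw [Finset.sum_sub_distrib, sub_add_sub_cancel, sub_div, Finset.sum_div]
      congr 1
      refine Finset.sum_congr rfl fun i _ => ?_
      unfold Pd.ah
      split_ifs with q
      · rw [h.d1 b m, q, eq_div_iff (Real.exp_pos _).ne', show σ.η i * X.M =
          σ.η i * ((1 - x) * X.M) + σ.η i * (x * X.M) by ring, Real.exp_add, Real.exp_neg,
          Real.exp_neg]
        field_simp
      · simp
    have p : 0 ≤ (σ.μ b - σ.g) * ((1 - x) * X.M) := mul_nonneg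
      (by linarith [(h.wt b).resolve_left m.ne']) (mul_nonneg (by linarith) M0)
    rw [e1]
    refine div_le (sum_le (y := 2 * u + (σ.μ b - σ.g) * ((1 - x) * X.M)) c
      ((z b).trans (Real.exp_le_exp.2 (by linarith))) fun i => ?_) (by rw [h.d1 b m]; linarith)
    unfold Pd.ah
    split_ifs with q
    · rw [sub_self, abs_zero]; positivity
    rw [mul_zero, sub_zero]
    rcases lt_or_gt_of_ne q with q | q
    · exact (lo i q).trans (Real.exp_le_exp.2 (by linarith))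
    · exact (mul_le (y i) (k.bA i b)).trans (Real.exp_le_exp.2 (by
        nlinarith [h.ge i b q, mul_nonneg (show 0 ≤ 1 - (x : ℝ) by linarith) M0]))

theorem ac (h : Nm5 σ dp K) (l1 : 1 ≤ σ.L₁) (u0 : 0 ≤ u) (x0 : 0 ≤ x) (x1 : x ≤ 1)
    (c : (Fintype.card α + 1 : ℝ) ≤ Real.exp u) (c' : (Fintype.card κ + 1 : ℝ) ≤ Real.exp u)
    (c2 : 2 ≤ Real.exp u) (k : ∀ ω ∈ X.P.S, X.Al5 σ dp u (Real.exp (-(9 * K * X.M))) ω)
    (fA : Fn X.P X.A (X.O x)) (k1 : X.In5 σ Y x u (Real.exp (-(9 * K * X.M))))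
    (k2 : X.Ac5 σ Y x u (σ.g * X.M)) : (X.scl σ dp).Ac σ x (5 * u) := by
  intro ω hω r φ E p1 ⟨i, p2⟩ p3
  have M0 : (0 : ℝ) ≤ X.M := Nat.cast_nonneg _
  have x0' : (0 : ℝ) ≤ x := by exact_mod_cast x0
  have q1 : |0 + ∑ b, φ b * X.ah σ ω i b| ≤ Real.exp (u + ((σ.η i * x + σ.g * (1 - x)) * X.M -
      r - 5 * u + u)) := sum_le c' (by rw [abs_zero]; positivity) fun b => by
    unfold Pd.ah
    split_ifs with q
    · exact mul_le (q ▸ (p1 b).2) ((k ω hω).bA i b)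
    · rw [mul_zero, abs_zero]; positivity
  rw [zero_add] at q1
  have q2 := Real.exp_le_exp.1 (p2.trans q1)
  have a := k2 ω hω (r - u) (fun i => Real.exp (-(σ.η i * (x * X.M))) * (φ ⬝ᵥ X.ah σ ω i)) E
    (by nlinarith [mul_nonneg h.g0.le (mul_nonneg x0' M0)])
    (fun i q => by
      have : X.ah σ ω i = 0 := funext fun b => by simp [Pd.ah, q]
      rw [this, dotProduct_zero, mul_zero])
    ⟨i, by
      rw [abs_mul, Real.abs_exp, Real.exp_neg, le_inv_mul_iff₀ (Real.exp_pos _), mul_one]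
      exact p2⟩ fun v hv v' hv' o1 o2 e1 e2 => by
    obtain ⟨b1, b2, b3⟩ := k1 v hv v' hv' (o1.trans o2.symm)
    have b4 := h.inc u0 x0 x1 c (k v hv) b1 b2 b3
    have b5 : X.ah σ v = X.ah σ ω := by
      funext i b
      rw [Pd.ah, Pd.ah, fA v hv ω hω o1]
    have e : ∑ i, Real.exp (-(σ.η i * (x * X.M))) * (φ ⬝ᵥ X.ah σ ω i) *
        (Real.exp (-(σ.η i * ((1 - x) * X.M))) * Y v v' i) = φ ⬝ᵥ (X.scl σ dp).t v v' +
        ∑ b, -φ b * ((X.scl σ dp).t v v' b - ∑ i, Real.exp (-(σ.η i * ((1 - x) * X.M))) *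
          Y v v' i * Real.exp (-(σ.η i * (x * X.M))) * X.ah σ v i b) := by
      simp only [b5, dotProduct, neg_mul, mul_sub, Finset.sum_neg_distrib, Finset.sum_sub_distrib,
        Finset.mul_sum, Finset.sum_mul]
      rw [Finset.sum_comm, sub_neg_eq_add, ← add_assoc, add_neg_cancel, zero_add]
      exact Finset.sum_congr rfl fun _ _ => Finset.sum_congr rfl fun _ _ => by ring
    rw [e, neg_sub, sub_eq_add_neg]
    refine sum_le c' (p3 v hv v' hv' o1 o2 e1 e2) fun b => ?_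
    rcases h.or b with m | m
    · rw [(p1 b).1 m, neg_zero, zero_mul, abs_zero]; positivity
    · exact (mul_le ((abs_neg _).trans_le (p1 b).2) ((b4 b).2 m)).trans
        (Real.exp_le_exp.2 (by linarith))
  refine a.trans (Real.exp_le_exp.2 ?_)
  rw [sub_div]
  linarith [div_le_self u0 l1]

end Nm5

theorem sScl : SScl := by
  intro ι κ α _ _ _ _ _ σ dp X Y h
  obtain ⟨K1, k1⟩ := Finite.exists_le fun a : κ ⊕ κ ⊕ α ⊕ Unit =>
    a.elim (fun a => -dp a) (Sum.elim σ.μ (Sum.elim σ.η fun _ => σ.g))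
  have N : Nm5 σ dp K1 := ⟨h.g0, h.wt, h.et, h.live, h.tau, h.gp, h.ge, h.d1, h.d0,
    k1 (.inr (.inr (.inr ()))), fun a => ⟨neg_le.1 (k1 (.inl a)), k1 (.inr (.inl a))⟩,
    fun i => k1 (.inr (.inr (.inl i)))⟩
  have p : ∀ {ε : ℝ}, 0 < ε → ∀ n, 0 ≤ ε * (X n).M := fun hε n => by positivity
  have cd : ∀ {ε : ℝ}, 0 < ε → ∀ C : ℕ, ∀ᶠ n in UF, (C + 1 : ℝ) ≤ Real.exp (ε * (X n).M) :=
    fun hε C => (h.big.sub (le_add_of_nonneg_left (Nat.cast_nonneg C))).2 _ hε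
  refine ⟨h.big, h.g0, h.l0, one_pos.trans_le h.l1, h.be0, h.wt, h.et, h.live, h.tau, h.nest, h.zT,
    h.zS, h.tS, h.tO, h.fB.mono fun n a ω hω v hv e => ?_, h.fA.mono fun n a ω hω v hv e => ?_,
    fun ε hε => (h.alg ε _ hε).mono fun n a ω hω => N.alg (p hε n) (a ω hω),
    fun w hw ε hε => (h.cur w hw ε σ.g hε).mono fun n a ω hω b hb => ?_,
    fun ε hε => (h.near ε _ hε).mono fun n a => N.near (p hε n) a, fun x x0 x1 ε hε => ?_,
    fun x x0 x1 ε hε => ?_, fun ε hε => ?_, fun i x x' a b c => ?_, h.top,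
    fun x r C β K Ps L a1 a2 a3 a4 a5 a6 a7 a8 => h.acw x r C β K Ps L a1 a2 a3 a4 a5 a6 a7
      (a8.mono fun n a ω hω => ?_)⟩
  · have := Prod.mk.inj (a ω hω v hv e)
    simp only [this.1, this.2]
  · funext i b
    simp only [Pd.ah, a ω hω v hv e]
  · change |w.ev (br (hc σ.μ (sC _ _))) _ b| ≤ _
    rw [N.hc_sC]
    exact (a ω hω b hb).trans (Real.exp_le_exp.2 (by linarith [p hε n]))
  · have e : 0 < ε / 3 := by positivity
    filter_upwards [h.alg _ (9 * K1) e, h.inc x x0 x1 _ (9 * K1) e, cd e (Fintype.card α)] with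
      n a b c ω hω v hv o
    obtain ⟨b1, b2, b3⟩ := b ω hω v hv o
    have b4 := N.inc (p e n) x0 x1 c (a ω hω) b1 b2 b3
    rw [show 3 * (ε / 3 * ((X n).M : ℝ)) = ε * (X n).M by ring] at b4
    refine ⟨b1.trans ?_, fun i => Real.exp (-(σ.η i * ((1 - x) * (X n).M))) * Y n ω v i,
      fun i => (Nm5.mul_le (Real.abs_exp _).le (b2 i)).trans (Real.exp_le_exp.2 ?_), b4⟩
    · rw [GA.GAFrA.ex_div fun a => Real.exp_pos (dp a * (X n).M),
        ← funext (Nm5.t_scl (a ω hω) b1)]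
    · linarith [p e n]
  · have e : 0 < ε / 5 := by positivity
    filter_upwards [h.alg _ (9 * K1) e, h.inc x x0 x1 _ (9 * K1) e, cd e (Fintype.card α),
      cd e (Fintype.card κ), cd e 1, h.ac x x0 x1 σ.g _ e, h.fA, h.nest 0 x le_rfl x0 x1] with
      n a b c c' c2 d f g
    have := N.ac h.l1 (p e n) x0 x1 c c' (by norm_num at c2; exact c2) a (fun ω hω v hv o =>
      f ω hω v hv (Prod.ext (Prod.mk.inj o).1 (g ω hω v hv (Prod.mk.inj o).2))) b d
    rwa [show 5 * (ε / 5 * ((X n).M : ℝ)) = ε * (X n).M by ring] at this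
  · filter_upwards [h.alg _ 1 hε, h.inc 0 le_rfl zero_le_one _ 1 hε, h.tt ε hε] with
      n a b c ω hω v hv o
    rw [Nm5.t_scl (a ω hω) (b ω hω v hv o).1, N.d1 _ (N.live _ N.tau), ← mul_sub, Real.exp_neg,
      inv_mul_eq_div, ← sub_div]
    exact Nm5.div_le (c ω hω v hv o) le_rfl
  · refine (congrArg (fun f => HT1 (σ.kf i) (sP X) f (fun n => (X n).O x) (sM X) _) ?_).mp
      (h.ht i x x' a b c)
    funext n ω
    change _ = _ * (Real.exp (-(σ.μ σ.τ * (X n).M)) * (X n).zt ω)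
    rw [← mul_assoc (Real.exp _), ← Real.exp_add]
    congr 2
    ring
  · have := a ω hω
    unfold Pd.da at this ⊢
    rwa [N.hc_sC] at this

end Pool.Agent.MP_5168f5_an.QA.Cp
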