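import Pool.Agent.MP_5168f5_an.QA.P5Glue
import Pool.Agent.MP_5168f5_an.QA.P5Ent
import Pool.Agent.MP_5168f5_an.QA.FrMod
import Pool.Agent.MP_5168f5_an.QA.Ab
import Pool.Agent.MP_5168f5_an.QA.P5VH
import Pool.Agent.MP_5168f5_an.QA.P5Ok
import Pool.Agent.MP_5168f5_an.QA.P5BF
import Pool.Agent.MP_5168f5_an.QA.P5Br
import Pool.Agent.MP_5168f5_an.QA.P5Acw
import Pool.Agent.MP_5168f5_an.QA.P5Com
import Pool.Agent.MP_5168f5_an.QA.P5Fb
import Pool.Agent.MP_5168f5_an.QA.P5Jt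
import Pool.Agent.MP_5168f5_an.QA.P5Fin
import Pool.Agent.MP_5168f5_an.QA.FlAll2
import Pool.Agent.MP_5168f5_an.QA.As
import Pool.Agent.MP_5168f5_an.QA.W5
import Pool.Agent.MP_5168f5_an.QA.Ch

/-! The maximal estimate in all dimensions: the closed steps towards the filtered system. -/

namespace Pool.Agent.MP_5168f5_an.QA.P5

theorem sEnt : SEnt := sEnt_of Fr.sMod AB.sAB

theorem sAs : As.SAs := As.as_of Fl.rOut

theorem sFin : SFin := sFin_of sBF

theorem sAcw : SAcw := sAcw_of sBr sBF Fl.sAcw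

theorem sCom : SCom := sCom_of sAcw Fl.sCom sFb sClo

theorem sp5_of3 (ob : SOrb) (sp : SSpl) (os : SOrbs) : SP5 :=
  sp5_of sEnt sOk sBF sClo sAcw sCom sVH ob sp sJt os sFin Fl.sStart sAs Cp.sScl Ch.sChart

end Pool.Agent.MP_5168f5_an.QA.P5
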