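import Pool.Agent.MP_5168f5_an.QA.FlDefs

/-! The Kakeya maximal estimate: homogeneous axes of a seminorm. -/

namespace Pool.Agent.MP_5168f5_an.QA.Fl

open H19 H17S H17F R4 AN Filter Finset Matrix
open Cp (Hg hc)

namespace FlAx

variable {κ : Type} {μ : κ → ℝ} {N : (κ → ℝ) → ℝ}

theorem nn (h : Gg μ N) (y : κ → ℝ) : 0 ≤ N y := by
  have h0 := h.smul 0 y
  have h1 := h.add y ((-1 : ℝ) • y)
  rw [h.smul, neg_one_smul, add_neg_cancel] at h1
  rw [zero_smul] at h0
  simp only [abs_zero, zero_mul, abs_neg, abs_one, one_mul] at h0 h1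
  linarith

/-- A normalised homogeneous vector supported in `R`. -/
def Cd (μ : κ → ℝ) (R : Finset κ) (p : κ) (x : κ → ℝ) : Prop :=
  p ∈ R ∧ x p = 1 ∧ ∀ b, |x b| ≤ 1 ∧ (x b ≠ 0 → b ∈ R ∧ μ b = μ p)

/-- The pattern of the matrices. -/
def Pt (μ : κ → ℝ) (R : Finset κ) (U : Matrix κ κ ℝ) : Prop :=
  ∀ a e, U a e ≠ 0 → a = e ∨ (a ∈ R ∧ e ∈ R ∧ μ a = μ e)

variable [Fintype κ] [DecidableEq κ]

theorem pick (h : Gg μ N) {R : Finset κ} (l : ∀ a ∈ R, 0 < μ a) (e : R.Nonempty) :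
    ∃ p x, Cd μ R p x ∧ ∀ m y, Hg μ m y → (∀ b, y b ≠ 0 → b ∈ R) → |y p| * N x ≤ 2 * N y := by
  obtain ⟨q, hq⟩ := e
  have b1 : ∀ t ∈ {t | ∃ p x, Cd μ R p x ∧ N x = t}, 1 ≤ t := by
    rintro _ ⟨p, x, c, rfl⟩
    simpa [c.2.1] using h.low x p (l p c.1)
  have ne : {t | ∃ p x, Cd μ R p x ∧ N x = t}.Nonempty :=
    ⟨_, q, Pi.single q 1, ⟨hq, by simp, fun b => by by_cases u : b = q <;> simp [u, hq]⟩, rfl⟩
  have b2 := le_csInf ne b1
  obtain ⟨_, ⟨p, x, c, rfl⟩, u⟩ := exists_lt_of_csInf_lt ne (lt_two_mul_self (one_pos.trans_le b2))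
  refine ⟨p, x, c, fun m y hy hs => ?_⟩
  by_cases z : y p = 0
  · rw [z, abs_zero, zero_mul]; linarith [nn h y]
  obtain ⟨b, -, hb⟩ := exists_max_image univ (fun b => |y b|) ⟨p, mem_univ p⟩
  have p0 : 0 < |y b| := (abs_pos.2 z).trans_le (hb p (mem_univ p))
  have p1 := abs_pos.1 p0
  have v := csInf_le ⟨1, b1⟩ ⟨b, (y b)⁻¹ • y, ⟨hs b p1, inv_mul_cancel₀ p1, fun a => ⟨by
    rw [Pi.smul_apply, smul_eq_mul, abs_mul, abs_inv, inv_mul_le_iff₀ p0, mul_one]
    exact hb a (mem_univ a), fun w => ⟨hs a (right_ne_zero_of_mul w),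
      (hy a (right_ne_zero_of_mul w)).trans (hy b p1).symm⟩⟩⟩, rfl⟩
  rw [h.smul, abs_inv] at v
  have w : N x ≤ |y b|⁻¹ * (2 * N y) := by linarith
  rw [le_inv_mul_iff₀ p0] at w
  exact (mul_le_mul_of_nonneg_right (hb p (mem_univ p)) (nn h x)).trans w

theorem vm (M : Matrix κ κ ℝ) (p : κ) (r y : κ → ℝ) :
    y ᵥ* M.updateRow p r = y ᵥ* M + y p • (r - M p) := by
  funext e
  have : ∀ a, y a * M.updateRow p r a e =
      y a * M a e + if a = p then y p * (r e - M p e) else 0 := fun a => by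
    by_cases u : a = p
    · simp [u]; ring
    · simp [u]
  simp [vecMul, dotProduct, this, sum_add_distrib]

/-- The statement of the induction. -/
structure St (μ : κ → ℝ) (N : (κ → ℝ) → ℝ) (R : Finset κ) (U V : Matrix κ κ ℝ) : Prop where
  inv : ∀ y, (y ᵥ* V) ᵥ* U = y
  hU : Pt μ R U
  hV : Pt μ R V
  bd : ∀ a e, |U a e| ≤ 1
  one : ∀ a, U a a = 1
  on' : ∀ a, a ∉ R → V a a = 1
  sup : ∀ (y : κ → ℝ) (s : ℝ), (∀ b, |y b| ≤ s) → ∀ a, |(y ᵥ* V) a| ≤ 3 ^ R.card * s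
  co : ∀ m y, Hg μ m y → (∀ b, y b ≠ 0 → b ∈ R) →
    ∀ a, |(y ᵥ* V) a| * N (U a) ≤ 3 ^ R.card * N y

omit [Fintype κ] in
theorem Pt.upd {R : Finset κ} {p : κ} {U : Matrix κ κ ℝ} {r : κ → ℝ} (h : Pt μ (R.erase p) U)
    (hp : p ∈ R) (e : ∀ b, r b ≠ 0 → b ∈ R ∧ μ b = μ p) : Pt μ R (U.updateRow p r) := by
  intro a b u
  by_cases v : a = p
  · rw [v, updateRow_self] at u
    exact Or.inr ⟨v ▸ hp, (e b u).1, v ▸ (e b u).2.symm⟩
  · rw [updateRow_ne v] at u
    exact (h a b u).imp_right fun w => ⟨mem_of_mem_erase w.1, mem_of_mem_erase w.2.1, w.2.2⟩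

theorem Pt.row {R : Finset κ} {p : κ} {U : Matrix κ κ ℝ} (h : Pt μ R U) (hp : p ∉ R)
    (o : U p p = 1) : U p = Pi.single p 1 ∧ ∀ y : κ → ℝ, (y ᵥ* U) p = y p := by
  refine ⟨funext fun b => ?_, fun y => ?_⟩
  · by_cases u : b = p
    · simp [u, o]
    · rw [Pi.single_eq_of_ne u]
      exact by_contra fun v => (h p b v).elim (fun w => u w.symm) fun w => hp w.1
  · rw [vecMul, dotProduct, sum_eq_single p (fun b _ u => ?_) (by simp), o, mul_one]
    rw [by_contra fun v => (h b p v).elim u fun w => hp w.2.1, mul_zero]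

theorem ind (h : Gg μ N) : ∀ (n : ℕ) (R : Finset κ), R.card = n → (∀ a ∈ R, 0 < μ a) →
    ∃ U V, St μ N R U V
  | 0, R, c, _ => by
    obtain rfl := card_eq_zero.1 c
    have p : Pt μ ∅ (1 : Matrix κ κ ℝ) := fun a e u => Or.inl (by_contra fun v => u (one_apply_ne v))
    refine ⟨1, 1, by simp, p, p, fun a e => ?_, by simp, by simp, by simp, fun m y _ u a => ?_⟩
    · rw [one_apply]; split_ifs <;> simp
    · rw [vecMul_one, by_contra fun v => notMem_empty a (u a v)]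
      simpa using nn h y
  | n + 1, R, c, l => by
    obtain ⟨p, x, ⟨hp, x1, x2⟩, x3⟩ := pick h l (card_pos.1 (by omega))
    have c' : (R.erase p).card = n := by rw [card_erase_of_mem hp]; omega
    obtain ⟨U, V, s⟩ := ind h n (R.erase p) c' fun a u => l a (mem_of_mem_erase u)
    have np := notMem_erase p R
    obtain ⟨u1, -⟩ := s.hU.row np (s.one p)
    obtain ⟨v1, v2⟩ := s.hV.row np (s.on' p np)
    have k : ∀ y : κ → ℝ, y ᵥ* V.updateRow p ((2 : ℝ) • Pi.single p 1 - x ᵥ* V) =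
        (y - y p • x) ᵥ* V + y p • Pi.single p 1 := fun y => by
      rw [vm, v1, sub_vecMul, smul_vecMul]; module
    have k1 : ∀ y : κ → ℝ, ((y - y p • x) ᵥ* V + y p • Pi.single p 1 : κ → ℝ) p = y p := fun y => by
      simp [v2, x1]
    have k2 : ∀ (y : κ → ℝ) a, a ≠ p → ((y - y p • x) ᵥ* V + y p • Pi.single p 1 : κ → ℝ) a =
        ((y - y p • x) ᵥ* V) a := fun y a u => by simp [u]
    have t1 : (1 : ℝ) ≤ 3 ^ n := one_le_pow₀ (by norm_num)
    refine ⟨U.updateRow p x, V.updateRow p ((2 : ℝ) • Pi.single p 1 - x ᵥ* V), fun y => ?_,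
      s.hU.upd hp fun b => (x2 b).2, s.hV.upd hp fun b u => ?_, fun a e => ?_, fun a => ?_,
      fun a u => ?_, fun y t u a => ?_, fun m y u v a => ?_⟩
    · rw [k, vm, k1, add_vecMul, s.inv, smul_vecMul, single_one_vecMul, row, u1]; module
    · by_cases v : b = p
      · exact ⟨v ▸ hp, v ▸ rfl⟩
      · have w : ∑ a, x a * V a b ≠ 0 := fun w => u (by simp [v, vecMul, dotProduct, w])
        obtain ⟨a, -, w⟩ := exists_ne_zero_of_sum_ne_zero w
        have := (x2 a).2 (left_ne_zero_of_mul w)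
        rcases s.hV a b (right_ne_zero_of_mul w) with z | z
        exacts [z ▸ this, ⟨mem_of_mem_erase z.2.1, z.2.2.symm.trans this.2⟩]
    · by_cases v : a = p
      · rw [v, updateRow_self]; exact (x2 e).1
      · rw [updateRow_ne v]; exact s.bd a e
    · by_cases v : a = p
      · rw [v, updateRow_self, x1]
      · rw [updateRow_ne v, s.one]
    · rw [updateRow_ne fun v : a = p => u (v ▸ hp)]; exact s.on' a fun v => u (mem_of_mem_erase v)
    · have t0 := (abs_nonneg _).trans (u p)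
      rw [k, c, pow_succ]
      by_cases v : a = p
      · rw [v, k1]; nlinarith [u p]
      · rw [k2 y a v, mul_assoc, ← c']
        refine s.sup _ _ (fun b => (abs_sub _ _).trans ?_) a
        rw [Pi.smul_apply, smul_eq_mul, abs_mul]
        linarith [u b, u p, mul_le_of_le_one_right (abs_nonneg (y p)) (x2 b).1]
    · have t0 := nn h y
      have t2 := x3 m y u v
      rw [k, c, pow_succ]
      by_cases w : a = p
      · rw [w, k1, updateRow_self]; nlinarith
      · have z : ∀ b, (y - y p • x) b ≠ 0 → y b ≠ 0 ∨ y p ≠ 0 ∧ x b ≠ 0 := fun b z => by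
          by_contra q
          refine z ?_
          rw [not_or, not_not, ← mul_ne_zero_iff, not_not] at q
          simp [q.1, q.2]
        rw [k2 y a w, updateRow_ne w, mul_assoc, ← c']
        refine (s.co m _ (fun b q => (z b q).elim (u b) fun q => ((x2 b).2 q.2).2.trans (u p q.1))
          (fun b q => mem_erase.2 ⟨fun e => q (by simp [e, x1]),
            (z b q).elim (v b) fun q => ((x2 b).2 q.2).1⟩) a).trans
          (mul_le_mul_of_nonneg_left ?_ (by positivity))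
        have := h.add y (-y p • x)
        rw [h.smul, abs_neg, neg_smul, ← sub_eq_add_neg] at this
        linarith

end FlAx

open FlAx in
theorem rAx : RAx := by
  intro κ _ _ μ N h
  classical
  obtain ⟨U, V, s⟩ := ind h _ (univ.filter fun a => 0 < μ a) rfl fun a u => (mem_filter.1 u).2
  have t : (3 : ℝ) ^ (univ.filter fun a => 0 < μ a).card ≤ 3 ^ Fintype.card κ :=
    pow_le_pow_right₀ (by norm_num) (card_le_univ _)
  have p : ∀ M, Pt μ (univ.filter fun a => 0 < μ a) M → ∀ a e, M a e ≠ 0 →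
      μ a = μ e ∧ (¬0 < μ a → a = e) := fun M q a e u => (q a e u).elim
    (fun v => ⟨v ▸ rfl, fun _ => v⟩) fun v => ⟨v.2.2, fun w => absurd (mem_filter.1 v.1).2 w⟩
  refine ⟨U, V, mul_eq_one_comm.1 (ext_iff_vecMul.2 fun y => ?_), p U s.hU, p V s.hV,
    fun a e => ⟨s.bd a e, ?_⟩, s.one, fun m y m0 u a => (s.co m y u (fun b v =>
      mem_filter.2 ⟨mem_univ b, u b v ▸ m0⟩) a).trans (mul_le_mul_of_nonneg_right t (nn h y))⟩
  · rw [← vecMul_vecMul, s.inv, vecMul_one]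
  · have := s.sup (Pi.single a 1) 1 (fun b => by by_cases u : b = a <;> simp [u]) e
    rw [single_one_vecMul, mul_one] at this
    exact this.trans t

end Pool.Agent.MP_5168f5_an.QA.Fl
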