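import Pool.Agent.MP_5168f5_an.QA.FlDefs

/-! The Kakeya maximal estimate: the minimal filtration, change of basis. -/

namespace Pool.Agent.MP_5168f5_an.QA.Fl

open H19 H17S H17F R4 AN Filter Finset Matrix
open GA (Mt IsFr Nr Bx Idl lg vec ex br mB mC cm)

namespace FlBas

variable {ι κ : Type} [Fintype κ] {μ : κ → ℝ} {γ : κ → ℕ}

theorem sm {f g : κ → ℝ} {x u : ℝ} (hu : 1 ≤ u) (h : ∀ e, g e ≠ 0 → |f e| ≤ Real.exp x)
    (k : ∀ e, |g e| ≤ Real.exp u) :
    |∑ e, f e * g e| ≤ Real.exp (x + (Fintype.card κ + 1) * u) := by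
  have c0 := Nat.cast_nonneg (α := ℝ) (Fintype.card κ)
  refine (abs_sum_le_sum_abs _ _).trans ((sum_le_card_nsmul _ _ (Real.exp (x + u))
    fun e _ => ?_).trans ?_)
  · by_cases q : g e = 0
    · rw [q, mul_zero, abs_zero]; positivity
    · rw [abs_mul, Real.exp_add]
      exact mul_le_mul (h e q) (k e) (abs_nonneg _) (Real.exp_pos _).le
  · rw [nsmul_eq_mul, card_univ, show x + (Fintype.card κ + 1) * u =
      Fintype.card κ * u + (x + u) by ring, Real.exp_add _ (x + u)]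
    refine mul_le_mul_of_nonneg_right ?_ (Real.exp_pos _).le
    linarith [Real.add_one_le_exp (Fintype.card κ * u), le_mul_of_one_le_right c0 hu]

theorem mC_mul (U V A A' : Matrix κ κ ℝ) (c : κ → κ → κ → ℝ) (a b e : κ) :
    mC (U * A) (A' * V) c a b e =
      ∑ e', (∑ b', (∑ a', mC A A' c a' b' e' * U a a') * U b b') * V e' e := by
  have h : ∀ f, br c ((U * A) a) ((U * A) b) f =
      ∑ b', ∑ a', br c (A a') (A b') f * U a a' * U b b' := fun f => by
    simp only [br, mul_apply, sum_mul, mul_sum]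
    simp only [← sum_product']
    exact sum_bij' (fun x _ => (x.2.2.1, x.2.2.2, x.1, x.2.1))
      (fun x _ => (x.2.2.1, x.2.2.2, x.1, x.2.1)) (by simp) (by simp) (by simp) (by simp)
      fun x _ => by ring
  rw [mC, ← vecMul_vecMul]
  refine sum_congr rfl fun e' _ => congrArg (· * _) ?_
  simp only [mC, vecMul, dotProduct, h, sum_mul]
  rw [sum_comm]
  refine sum_congr rfl fun b' _ => sum_comm.trans (sum_congr rfl fun a' _ => ?_)
  exact sum_congr rfl fun f _ => by ring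

omit [Fintype κ] in
theorem lw {a b e a' b' e' : κ} (h0 : ∀ a, 0 ≤ μ a) (h : Lw μ γ a b e) (ha : Up μ γ a a')
    (hb : Up μ γ b b') (he : Up μ γ e' e) : Lw μ γ a' b' e' := by
  have k : ∀ {a a'}, Up μ γ a a' → μ e = 0 → 0 < μ a ∨ γ e ≤ γ a → 0 < μ a' ∨ γ e' ≤ γ a' :=
    fun {a a'} u z q => (h0 a').lt_or_eq.imp_right fun y =>
      ((he.2 z).trans (q.resolve_left (y ▸ u.1).not_gt)).trans (u.2 y.symm)
  rcases h with ⟨x, y, z⟩ | ⟨x, y, z⟩
  · exact Or.inl ⟨x.trans_le ha.1, y.trans_le hb.1, by linarith [ha.1, hb.1, he.1]⟩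
  · exact Or.inr ⟨le_antisymm (x ▸ he.1) (h0 _), k ha x y, k hb x z⟩

theorem vc [DecidableEq κ] {U V : Matrix κ κ ℝ} (h : U * V = 1) (A : Matrix κ κ ℝ)
    (B : κ → Mt ι) (t : κ → ℝ) : vec (mB (U * A) B) (t ᵥ* V) = vec (mB A B) t := by
  rw [GA.GAFrA.vec_mB, GA.GAFrA.vec_mB, vecMul_vecMul, ← mul_assoc, mul_eq_one_comm.1 h, one_mul]

end FlBas

open FlBas in
theorem rBas : RBas := by
  intro ι κ α _ _ _ _ σ
  have c0 := Nat.cast_nonneg (α := ℝ) (Fintype.card κ)
  refine ⟨3 * Fintype.card κ + 4, by linarith, ?_⟩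
  intro Ω Λ Θ Ξ b d P O μ γ R u w U V h0 hR hu hw h hf hU
  have cu : 0 ≤ Fintype.card κ * u := by positivity
  have le : ∀ {x y z : ℝ}, x ≤ Real.exp y → y ≤ z → x ≤ Real.exp z := fun a b =>
    a.trans (Real.exp_le_exp.2 b)
  have v := fun ω o => vc (hU ω o).1 (d.U ω) σ.B
  have e : ∀ ω ∈ P.S, ∀ t, ex ((d.bas U V).B σ ω) (t ᵥ* V ω) = ex (d.B σ ω) t := fun ω o t =>
    congrArg IsNilpotent.exp (v ω o t)
  have bU := fun ω o a e => ((hU ω o).2 a e).1
  have bV := fun ω o a e => ((hU ω o).2 a e).2.1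
  have pU := fun ω o a e => ((hU ω o).2 a e).2.2.1
  have pV := fun ω o a e => ((hU ω o).2 a e).2.2.2
  refine ⟨⟨h.fT, h.f0, fun a o => (h.few a o).imp fun T q => ⟨le q.1 (by linarith), q.2⟩,
    fun x o y p q => ?_, fun x o y p q => ?_, fun ω o => ?_, fun ω o a e => ⟨?_, ?_⟩,
    fun ω o a e q => sum_eq_zero fun a' _ => ?_, fun ω o a a' e => ?_,
    fun ω o a => le (sm hu (fun e _ => h.bk ω o e) fun e => bV ω o e a) (by linarith),
    fun ω o i => ?_,
    fun ω o i a => le (sm hu (fun e _ => h.bA ω o i e) fun e => bV ω o e a) (by linarith)⟩,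
    h.fE, h.uE, fun ω o a a' e q => ?_, fun ω o => ?_, fun ω o a => ⟨fun _ => ?_, fun z => ?_⟩,
    fun ω o i a q => le (sm hu (fun e z => h.low ω o i e ((pV ω o e a z).1.trans_lt q))
      fun e => bV ω o e a) (by linarith)⟩
  · obtain ⟨a1, a2⟩ := Prod.mk.inj (h.fU x o y p q)
    obtain ⟨a3, a4⟩ := Prod.mk.inj (hf x o y p q)
    simp only [Fd.bas, a1, a2, a3, a4]
  · obtain ⟨a1, a2⟩ := Prod.mk.inj (h.fk x o y p q)
    obtain ⟨-, a4⟩ := Prod.mk.inj (hf x o y p (h.fT x o y p q))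
    simp only [Fd.bas, a1, a2, a4]
  · change U ω * d.U ω * (d.V ω * V ω) = 1
    rw [mul_assoc, ← mul_assoc (d.U ω), h.inv ω o, one_mul, (hU ω o).1]
  · exact le (sm hu (fun a' _ => bU ω o a a') fun a' => (h.bU ω o a' e).1) (by linarith)
  · exact le (sm hu (fun a' _ => (h.bU ω o a a').2) fun a' => bV ω o a' e) (by linarith)
  · by_cases z : U ω a a' = 0
    · exact mul_eq_zero_of_left z _
    · exact mul_eq_zero_of_right _ (h.tri ω o a' e (q.trans_le (pU ω o a a' z).1))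
  · exact le ((congrArg abs (mC_mul _ _ _ _ _ _ _ _)).trans_le (sm hu (fun e' _ => sm hu
      (fun b' _ => sm hu (fun x _ => h.bc ω o x b' e') (bU ω o a)) (bU ω o a'))
      fun e' => bV ω o e' e)) (by linarith)
  · have := e ω o (-d.k ω)
    rw [neg_vecMul] at this
    exact (v ω o _).trans ((h.ad ω o i).trans (by rw [← e ω o, ← this]; rfl))
  · exact le ((congrArg abs (mC_mul _ _ _ _ _ _ _ _)).trans_le (sm hu (fun e' z => sm hu
      (fun b' y => sm hu (fun x s => h.fil ω o x b' e' (lw h0 q (pU ω o _ _ s) (pU ω o _ _ y)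
        (pV ω o _ _ z))) (bU ω o a)) (bU ω o a')) fun e' => bV ω o e' e)) (by linarith)
  · exact (h.fac ω o).trans (by rw [← e ω o, ← e ω o (d.k ω)]; rfl)
  · have m := mul_nonneg (h0 a) hR
    refine le (sm (x := u + μ a * R) hu (fun e z => ?_) fun e => bV ω o e a) (by linarith)
    rcases (h0 e).lt_or_eq with y | y
    · exact le ((h.bg ω o e).1 y) (by linarith [mul_le_mul_of_nonneg_right (pV ω o e a z).1 hR])
    · exact le ((h.bg ω o e).2 y.symm) (by linarith)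
  · exact le (sm hu (fun e y => (h.bg ω o e).2 (le_antisymm (z ▸ (pV ω o e a y).1) (h0 e)))
      fun e => bV ω o e a) (by linarith)

end Pool.Agent.MP_5168f5_an.QA.Fl
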