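import Pool.Agent.MP_5168f5_an.QA.FlDefs

/-! The Kakeya maximal estimate: the weights of the filtration drop. -/

namespace Pool.Agent.MP_5168f5_an.QA.Fl

open H19 H17S H17F R4 AN Filter Finset Matrix
open GA (Mt IsFr Nr Bx Idl lg vec ex br mB mC cm)

namespace FlDrop

variable {κ : Type} [Fintype κ] {Hs : Finset ℝ} {W : ℝ} {μ μ' : κ → ℝ} {γ : κ → ℕ}

theorem ng_dead {b : κ} (h : ¬0 < μ b) : ng μ γ b = γ b := if_neg h

theorem wp (bd : ∀ h ∈ Hs, 0 ≤ h ∧ h ≤ W) (h : Dr Hs μ μ') :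
    Wp (fun a => 0 < μ a) μ' (ng μ γ) (univ.sup γ + 1) W :=
  ⟨fun b => bd _ (h b).1, fun b k => ⟨le_antisymm ((h b).2.1.trans (not_lt.1 k)) (bd _ (h b).1).1,
    by rw [ng_dead k]; exact Nat.lt_succ_of_le (le_sup (mem_univ b))⟩, fun _ k => if_pos k⟩

theorem lw (bd : ∀ h ∈ Hs, 0 ≤ h ∧ h ≤ W) (ad : ∀ h ∈ Hs, ∀ h' ∈ Hs, h + h' ≤ W → h + h' ∈ Hs)
    (hμ : ∀ a, μ a ∈ Hs) (h : Dr Hs μ μ') {a a' e : κ}
    (k : Lp (fun a => 0 < μ a) μ' (ng μ γ) a a' e) : Lw μ γ a a' e ∨ (0 < μ a ∧ 0 < μ a' ∧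
      μ' a = μ a ∧ μ' a' = μ a' ∧ μ' e < μ e ∧ μ e = μ a + μ a') := by
  obtain ⟨k1, k2, -, k3⟩ | ⟨k1, k2, k3⟩ := k
  · rcases lt_or_ge (μ e) (μ a + μ a') with x | x
    · exact .inl (.inl ⟨k1, k2, x⟩)
    have a1 := (h a).2.1
    have a2 := (h a').2.1
    rcases k3 with k3 | k3
    · have y : μ e ≤ μ' a + μ' a' := not_lt.1 fun y => k3.not_ge ((h e).2.2 _
        (ad _ (h a).1 _ (h a').1 (y.le.trans (bd _ (hμ e)).2)) y)
      exact .inr ⟨k1, k2, by linarith, by linarith, by linarith, by linarith⟩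
    · have := (h e).2.2 _ (hμ a) (by linarith)
      linarith
  · rw [ng_dead k1] at k2 k3
    exact .inl (.inr ⟨le_antisymm (not_lt.1 k1) (bd _ (hμ e)).1,
      or_iff_not_imp_left.2 fun x => ng_dead (γ := γ) x ▸ k2,
      or_iff_not_imp_left.2 fun x => ng_dead (γ := γ) x ▸ k3⟩)

theorem pow_le (K : ℕ) {u : ℝ} (hu : 1 ≤ u) :
    (K * Real.exp u) ^ K ≤ Real.exp (K * (K + 1) * u) := by
  have k0 : (0 : ℝ) ≤ K := Nat.cast_nonneg _
  have h : K * Real.exp u ≤ Real.exp ((K + 1) * u) := by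
    rw [add_mul, one_mul, Real.exp_add]
    exact mul_le_mul_of_nonneg_right ((by linarith [Real.add_one_le_exp (K : ℝ)] :
      (K : ℝ) ≤ Real.exp K).trans (Real.exp_le_exp.2 (by nlinarith))) (Real.exp_pos _).le
  refine (pow_le_pow_left₀ (by positivity) h K).trans_eq ?_
  rw [← Real.exp_nat_mul, mul_assoc]

end FlDrop

open FlDrop in
theorem ofDrop : OfDrop := by
  intro hI ι κ α _ _ _ _ σ Hs W μ μ' γ ok hμ dr
  obtain ⟨K, k1, hK⟩ := GA.sBox σ.Φ.N (Fintype.card κ)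
  have w0 : 0 ≤ W := (ok.bd 0 ok.zero).2
  have k2 : (1 : ℝ) ≤ K := by exact_mod_cast k1
  have dr0 : Dr Hs μ μ := fun b => ⟨hμ b, le_rfl, fun _ _ h => h.le⟩
  have wp0 := wp (γ := γ) ok.bd dr0
  refine ⟨wp ok.bd dr, ?_⟩
  generalize univ.sup γ + 1 = G at wp0
  have g0 : (0 : ℝ) ≤ (3 + G) * W := by positivity
  refine ⟨K * (K + 1) + (3 + G) * W, by nlinarith,
    fun Ω Λ Θ Ξ b d P O R u w w' hR hu hw' hw h hc hA => ?_⟩
  have e1 : K * (K + 1) * u + (3 + G) * (W * R) ≤ (K * (K + 1) + (3 + G) * W) * (u + R) := by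
    have : 0 ≤ K * (K + 1) * R := by positivity
    have : 0 ≤ (3 + G) * W * u := by positivity
    nlinarith
  have e2 : 0 ≤ K * (K + 1) * u := by positivity
  have e3 : 0 ≤ (3 + G) * (W * R) := by positivity
  have ew : Real.exp (-w) ≤ Real.exp (-w') := Real.exp_le_exp.2 (by linarith)
  refine ⟨{ h.toCm with tri := fun ω hω a e x => h.tri ω hω a e (x.trans_le (dr a).2.1) },
    fun ω hω a a' e x => (lw ok.bd ok.add hμ dr x).elim (fun y => (h.fil ω hω a a' e y).trans ew)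
      fun y => hc ω hω a a' e y.1 y.2.1 y.2.2.1 y.2.2.2.1 y.2.2.2.2.1 y.2.2.2.2.2,
    fun ω hω i a x => ?_, fun ω hω v hv x a da => ?_⟩
  · rcases lt_trichotomy (μ a) (σ.η i) with y | y | y
    · exact (h.low ω hω i a y).trans ew
    · exact hA ω hω i a (y ▸ x) y
    · exact absurd ((dr a).2.2 _ (ok.he i) y) x.not_ge
  · have m : ∀ ω ∈ P.S, GA.Mul σ.Φ (d.B σ ω) (d.c σ ω) := fun ω hω =>
      GA.sMul _ _ _ _ _ (((GA.sFr ι κ σ.Φ σ.B σ.c).2 _ _ (h.inv ω hω)).1 ok.fr)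
    have eG : ∀ ω ∈ P.S, d.G σ b ω = d.E ω * ex (d.B σ ω) (d.g ω) := fun ω hω => by
      rw [Fd.G, h.fac ω hω, mul_assoc, ((m ω hω).neg _).2, mul_one]
    have eB : d.B σ v = d.B σ ω := congrArg (mB · σ.B) (congrArg Prod.fst (h.fU ω hω v hv x)).symm
    have l1 : 1 ≤ Real.exp u := Real.one_le_exp (by linarith)
    have bx : ∀ ω ∈ P.S, Bx (rd (fun a => 0 < μ a) μ (ng μ γ) W R w) (Real.exp u) (d.g ω) :=
      fun ω hω a => by
      unfold rd
      rw [← apply_ite Real.exp, ← Real.exp_add]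
      split_ifs with y
      · exact (h.bg ω hω a).1 y
      · have : 0 ≤ (2 + ng μ γ a : ℝ) * (W * R) := by positivity
        exact ((h.bg ω hω a).2 (wp0.dead a y).1).trans (Real.exp_le_exp.2 (by linarith))
    have id := (hI κ _ μ _ G W R w _ (d.c σ ω) wp0 w0 hR (by linarith) l1 (h.bc ω hω)
      fun a a' e y => (lw ok.bd ok.add hμ dr0 y).elim (h.fil ω hω a a' e)
        fun z => absurd z.2.2.2.2.1 (lt_irrefl _)).1
    have r0 : ∀ a, 0 ≤ rd (fun a => 0 < μ a) μ (ng μ γ) W R w a := fun a => by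
      unfold rd; split_ifs <;> positivity
    have nb : Bx (rd (fun a => 0 < μ a) μ (ng μ γ) W R w) (Real.exp u) (-d.g ω) := fun a => by
      rw [Pi.neg_apply, abs_neg]; exact bx ω hω a
    have key := (hK κ (d.c σ ω) _ _ _ 0 _ _ _ _ le_rfl l1 le_rfl (fun a => ⟨r0 a, r0 a⟩)
      (m ω hω).anti id id nb (bx v hv) nb (bx v hv)).1 a
    have eV : d.G σ b v = d.G σ b ω * ex (d.B σ ω) (GA.bch σ.Φ.N (d.c σ ω) (-d.g ω) (d.g v)) := by
      rw [eG v hv, eG ω hω, eB, ← (m ω hω).mul, mul_assoc, ← mul_assoc (ex _ _),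
        ((m ω hω).neg _).2, one_mul, h.fE ω hω v hv x]
    rw [eV, (m ω hω).lg _ _ (eG ω hω ▸ (h.uE ω hω).mul (.of_mul_eq_one _ ((m ω hω).neg _).2))]
    refine key.trans ((mul_le_mul_of_nonneg_right (pow_le K hu) (r0 a)).trans ?_)
    have g1 : (ng μ γ a : ℝ) ≤ G := by exact_mod_cast (wp0.dead a da).2.le
    have g2 : (2 + ng μ γ a : ℝ) * (W * R) ≤ (3 + G) * (W * R) :=
      mul_le_mul_of_nonneg_right (by linarith) (by positivity)
    rw [rd, if_neg da, ← Real.exp_add]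
    exact Real.exp_le_exp.2 (by linarith)

end Pool.Agent.MP_5168f5_an.QA.Fl
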