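import Pool.Agent.MP_5168f5_an.QA.FlDefs

/-! The Kakeya maximal estimate: the new label of a filtration. -/

namespace Pool.Agent.MP_5168f5_an.QA.Fl

open H19 H17S H17F R4 AN Filter Finset Matrix
open GA (Mt IsFr Nr Bx Idl lg vec ex br mB mC cm bch Ad cell sMul sAd sLin)
open Real (exp)

namespace FlNetA

/-- Growth of the exponents. -/
def p (K a : ℝ) : ℝ := K * (K + a)

theorem le_p {K a : ℝ} (hK : 1 ≤ K) (ha : 0 ≤ a) : a + 1 ≤ p K a := by
  unfold p; nlinarith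

theorem ele {a a' u : ℝ} (h : a ≤ a') (hu : 1 ≤ u) : exp (a * u) ≤ exp (a' * u) :=
  Real.exp_le_exp.2 (mul_le_mul_of_nonneg_right h (by linarith))

theorem nle {x a u : ℝ} (h : x ≤ a) (ha : 0 ≤ a) (hu : 1 ≤ u) : x ≤ exp (a * u) := by
  nlinarith [Real.add_one_le_exp (a * u)]

theorem pw {K : ℕ} {K₀ a u : ℝ} (h : (K : ℝ) ≤ K₀) (ha : 0 ≤ a) (hu : 1 ≤ u) :
    (K * exp (a * u)) ^ K ≤ exp (p K₀ a * u) := by
  have h0 : (0 : ℝ) ≤ K := Nat.cast_nonneg K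
  have h1 : K * exp (a * u) ≤ exp ((K₀ + a) * u) := by
    rw [add_mul, Real.exp_add]
    exact mul_le_mul_of_nonneg_right (nle h (h0.trans h) hu) (Real.exp_pos _).le
  refine (pow_le_pow_left₀ (by positivity) h1 K).trans ?_
  rw [← Real.exp_nat_mul, ← mul_assoc]
  exact ele (mul_le_mul_of_nonneg_right h (by linarith)) hu

variable {ι κ α : Type} [Fintype ι] [DecidableEq ι] [Fintype κ] {Φ : H61Z.Filt (Mt ι)}
  {B : κ → Mt ι} {c : κ → κ → κ → ℝ} {r r' s t : κ → ℝ} {K L L' a u w : ℝ}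

omit [Fintype κ] in
theorem idl_mono (h : Idl c r r' L) (hr : ∀ a, 0 ≤ r' a) (e : L ≤ L') : Idl c r r' L' :=
  fun a b f => (h a b f).trans (mul_le_mul_of_nonneg_right e (hr f))

omit [Fintype κ] in
theorem idl_one (h : ∀ a b e, |c a b e| ≤ L) {x : ℝ} (hx : 0 ≤ x) : Idl c 1 (fun _ => x) L :=
  fun a b e => by simpa using mul_le_mul_of_nonneg_right (h a b e) hx

omit [Fintype κ] in
theorem bx_neg (h : Bx r L s) : Bx r L (-s) := fun a => by simpa using h a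

omit [Fintype κ] in
theorem bx_one (h : ∀ a, |s a| ≤ L) : Bx 1 L s := fun a => by simpa using h a

theorem vm_le {V : Matrix κ κ ℝ} {x : ℝ} (hs : ∀ a, |s a| ≤ x) (hV : ∀ a e, |V a e| ≤ L) (e : κ) :
    |(s ᵥ* V) e| ≤ Fintype.card κ * (x * L) := by
  refine (abs_sum_le_sum_abs _ _).trans ((sum_le_card_nsmul _ _ (x * L) fun a _ => ?_).trans_eq ?_)
  · rw [abs_mul]
    exact mul_le_mul (hs a) (hV a e) (abs_nonneg _) ((abs_nonneg _).trans (hs a))
  · rw [nsmul_eq_mul, card_univ]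

/-- The estimates on boxes in exponential form. -/
structure Tl (Φ : H61Z.Filt (Mt ι)) (κ : Type) [Fintype κ] (K : ℝ) : Prop where
  one : 1 ≤ K
  mul : ∀ {B : κ → Mt ι} {c r s t} {a u : ℝ}, IsFr Φ B c → 1 ≤ u → 1 ≤ a → (∀ x, 0 < r x) →
    Idl c r r (exp u) → Bx r (exp (a * u)) s → Bx r (exp (a * u)) t →
    Bx r (exp (p K a * u)) (bch Φ.N c s t)
  dif : ∀ {B : κ → Mt ι} {c r r' s s'} {u : ℝ}, IsFr Φ B c → 1 ≤ u → (∀ x, 0 < r x) →
    (∀ x, 0 < r' x) → Idl c r r (exp u) → Idl c r r' (exp u) → Bx r 1 s → Bx r 1 s' →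
    Bx r' 1 (s - s') → Bx r' (exp (p K 1 * u)) (bch Φ.N c s (-s'))
  ad : ∀ {B : κ → Mt ι} {c r r' s s'} {a u : ℝ}, IsFr Φ B c → 1 ≤ u → (∀ x, 0 < r x) →
    (∀ x, 0 < r' x) → Idl c r r (exp u) → Idl c r r' (exp u) → Bx r (exp u) s →
    Bx r' (exp (a * u)) s' → Bx r' (exp ((p K 1 + a) * u)) (Ad Φ.N c s s')
  cel : ∀ {B : κ → Mt ι} {c r} {a u : ℝ}, IsFr Φ B c → 1 ≤ u → 1 ≤ a → (∀ x, 0 < r x) →
    (∀ x, Nr B r 1 (cell B r x) x) ∧ (Idl c r r (exp u) → ∀ y, IsUnit y →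
      ∃ T : Finset (Mt ι), (T.card : ℝ) ≤ exp (p K a * u) ∧
        ∀ x, Nr B r (exp (a * u)) y x → cell B r x ∈ T)

theorem tools (Φ : H61Z.Filt (Mt ι)) (κ : Type) [Fintype κ] : ∃ K, Tl Φ κ K := by
  obtain ⟨K₁, k1, h1⟩ := GA.sBox Φ.N (Fintype.card κ)
  obtain ⟨K₂, -, h2⟩ := GA.sBox2 Φ.N (Fintype.card κ)
  obtain ⟨K₃, -, h3⟩ := GA.sCell Φ.N (Fintype.card κ)
  have e1 : (1 : ℝ) ≤ K₁ := by exact_mod_cast k1
  have e2 : (0 : ℝ) ≤ K₂ := Nat.cast_nonneg _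
  have e3 : (0 : ℝ) ≤ K₃ := Nat.cast_nonneg _
  have e : ∀ {a u : ℝ}, 1 ≤ u → 1 ≤ a → 1 ≤ exp (a * u) ∧ exp u ≤ exp (a * u) := fun hu ha =>
    ⟨Real.one_le_exp (by positivity), Real.exp_le_exp.2 (by nlinarith)⟩
  refine ⟨K₁ + K₂ + K₃, by linarith, ?_, ?_, ?_, ?_⟩
  · intro B c r s t a u f hu ha hr i hs ht
    have i' := idl_mono i (fun x => (hr x).le) (e hu ha).2
    exact GA.GABoxA.mono (h1 κ c r r _ 0 s t s t le_rfl (e hu ha).1 le_rfl
      (fun x => ⟨(hr x).le, (hr x).le⟩) (sMul _ _ _ _ _ f).anti i' i' hs ht hs ht).1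
      (fun x => (hr x).le) (pw (by linarith) (by linarith) hu)
  · intro B c r r' s s' u f hu hr hr' i i' hs hs' hd
    have l := Real.one_le_exp (show 0 ≤ u by linarith)
    have m := fun {s} (h : Bx r 1 s) => GA.GABoxA.mono h (fun x => (hr x).le) l
    have := (h1 κ c r r' _ 1 s (-s') s' (-s') le_rfl l zero_le_one
      (fun x => ⟨(hr x).le, (hr' x).le⟩) (sMul _ _ _ _ _ f).anti i i' (m hs) (bx_neg (m hs'))
      (m hs') (bx_neg (m hs'))).2 hd fun x => by simpa using (hr' x).le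
    rw [((sMul _ _ _ _ _ f).inv s').2, sub_zero, mul_one, ← one_mul u] at this
    exact GA.GABoxA.mono this (fun x => (hr' x).le) (pw (by linarith) zero_le_one hu)
  · intro B c r r' s s' a u f hu hr hr' i i' hs hs'
    refine GA.GABoxA.mono (h2 κ c r r' _ _ s s s' s' le_rfl (Real.one_le_exp (by linarith))
      (Real.exp_pos _).le (fun x => ⟨(hr x).le, (hr' x).le⟩) (sMul _ _ _ _ _ f).anti i i' hs hs hs'
      hs').2.1 (fun x => (hr' x).le) ?_
    rw [add_mul (p _ 1), Real.exp_add]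
    refine mul_le_mul_of_nonneg_right ?_ (Real.exp_pos _).le
    simpa using pw (K := K₂) (K₀ := K₁ + K₂ + K₃) (by linarith) zero_le_one hu
  · intro B c r a u f hu ha hr
    obtain ⟨a1, a2⟩ := h3 ι κ Φ B c r r _ rfl le_rfl f (e hu ha).1 fun x =>
      ⟨hr x, le_mul_of_one_le_left (hr x).le (e hu ha).1⟩
    refine ⟨a1, fun i y hy => ?_⟩
    have i' := idl_mono i (fun x => (hr x).le) (e hu ha).2
    obtain ⟨T, t1, t2⟩ := a2 i' i' y hy
    refine ⟨T, t1.trans ?_, t2⟩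
    rw [prod_eq_one fun x _ => div_self (hr x).ne', mul_one]
    exact pw (by linarith) (by linarith) hu

theorem ex_unit (f : IsFr Φ B c) (t : κ → ℝ) : IsUnit (ex B t) :=
  ⟨⟨_, _, ((sMul _ _ _ _ _ f).neg t).2, ((sMul _ _ _ _ _ f).neg t).1⟩, rfl⟩

theorem ex_neg (f : IsFr Φ B c) (s t : κ → ℝ) :
    ex B (-bch Φ.N c s t) = ex B (-t) * ex B (-s) := by
  have m := sMul _ _ _ _ _ f
  refine (ex_unit f (bch Φ.N c s t)).mul_right_cancel ?_
  rw [(m.neg _).1, ← m.mul, mul_assoc, ← mul_assoc (ex B (-s)), (m.neg _).1, one_mul, (m.neg _).1]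

/-- The factorisation through the centre of the cell. -/
theorem split (tl : Tl Φ κ K) (f : IsFr Φ B c) (hu : 1 ≤ u) (ha : 0 ≤ a) (hr : ∀ x, 0 < r x)
    (hr' : ∀ x, 0 < r' x) (i : Idl c r r (exp u)) (i' : Idl c r r' (exp u)) (le : ∀ x, r' x ≤ r x)
    {z e : κ → ℝ} (ht : Bx r 1 t) (hz : Bx r 1 z) (hd : Bx r' 1 (t - z))
    (he : Bx r' (exp (a * u)) e) : ∃ g, Bx r' (exp (p K (p K 1 + a) * u)) g ∧
      ∀ k, ex B t * ex B e * ex B k = ex B g * ex B (bch Φ.N c z k) := by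
  have m := sMul _ _ _ _ _ f
  have k1 := le_p tl.one zero_le_one
  refine ⟨_, tl.mul f hu (by linarith) hr' (fun x y e => le_trans ?_ (i' x y e))
    (GA.GABoxA.mono (tl.dif f hu hr hr' i i' ht hz hd) (fun x => (hr' x).le) (ele (by linarith) hu))
    (tl.ad f hu hr hr' i i' (GA.GABoxA.mono hz (fun x => (hr x).le)
      (Real.one_le_exp (by linarith))) he), fun k => ?_⟩
  · exact mul_le_mul_of_nonneg_right (mul_le_mul_of_nonneg_left (le x) (abs_nonneg _)) (hr' y).le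
  · rw [← m.mul _ (Ad _ _ _ _), ← m.mul t (-z), ← m.mul z k, (sAd _ _ _ _ _ f).2.2.2.1]
    simp only [mul_assoc]
    rw [← mul_assoc (ex B (-z)) (ex B z), (m.neg z).1, one_mul,
      ← mul_assoc (ex B (-z)) (ex B z), (m.neg z).1, one_mul]

/-- The increment in the adapted basis. -/
theorem incr [Fintype α] (tl : Tl Φ κ K) (f : IsFr Φ B c) (hu : 1 ≤ u)
    (hc : ∀ a b e, |c a b e| ≤ exp u) {k : κ → ℝ} (hk : ∀ a, |k a| ≤ exp u) {V : Matrix κ κ ℝ}
    (hV : ∀ a e, |V a e| ≤ exp u) {H : α → κ → ℝ} {y : α → ℝ} {n : ℝ}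
    (hn : (Fintype.card κ : ℝ) ≤ n ∧ (Fintype.card α : ℝ) ≤ n)
    (ht : ∀ a, |t a - ∑ i, y i * H i a| ≤ exp (-w)) (hr : ∀ a, exp (-w) ≤ r a)
    (hy : ∀ i a, |y i * Ad Φ.N c k (H i ᵥ* V) a| ≤ exp (2 * u) * r a) :
    Bx r (exp ((p K 1 + n + 2) * u)) (Ad Φ.N c k (t ᵥ* V)) := by
  obtain ⟨l1, l2, -⟩ := sLin κ ℝ Φ.N c
  have n0 : 0 ≤ n := (Nat.cast_nonneg _).trans hn.1
  have k1 := le_p tl.one zero_le_one
  let F : (κ → ℝ) →ₗ[ℝ] κ → ℝ := ⟨⟨Ad Φ.N c k, l1 k⟩, l2 k⟩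
  have e : Ad Φ.N c k (t ᵥ* V) = ∑ i, y i • Ad Φ.N c k (H i ᵥ* V) +
      Ad Φ.N c k ((t - ∑ i, y i • H i) ᵥ* V) := by
    have := map_sum (F ∘ₗ V.vecMulLinear) (fun i => y i • H i) univ
    simp only [map_smul] at this
    refine Eq.trans ?_ (congrArg (· + _) this)
    exact (congrArg (F ∘ₗ V.vecMulLinear) (add_sub_cancel _ t).symm).trans (map_add _ _ _)
  have h1 := tl.ad (r := 1) (r' := fun _ => exp (-w)) (s' := (t - ∑ i, y i • H i) ᵥ* V)
    (a := n + 1) f hu (fun _ => one_pos) (fun _ => Real.exp_pos _) (idl_one hc zero_le_one)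
    (idl_one hc (Real.exp_pos _).le) (bx_one hk) fun a => by
      refine (vm_le (x := exp (-w)) (fun a => by simpa using ht a) hV a).trans ?_
      rw [add_mul, one_mul, Real.exp_add, mul_assoc, mul_comm (exp u)]
      exact mul_le_mul_of_nonneg_right (nle hn.1 n0 hu) (by positivity)
  intro a
  have r0 := (Real.exp_pos _).le.trans (hr a)
  have h2 : |∑ i, y i * Ad Φ.N c k (H i ᵥ* V) a| ≤ exp ((p K 1 + (n + 1)) * u) * r a := by
    refine (abs_sum_le_sum_abs _ _).trans ((sum_le_card_nsmul _ _ _ fun i _ => hy i a).trans ?_)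
    rw [nsmul_eq_mul, card_univ, ← mul_assoc]
    refine mul_le_mul_of_nonneg_right (le_trans ?_ (ele (a := n + 2) (by linarith) hu)) r0
    rw [add_mul, Real.exp_add]
    exact mul_le_mul_of_nonneg_right (nle hn.2 n0 hu) (Real.exp_pos _).le
  have h3 := (h1 a).trans (mul_le_mul_of_nonneg_left (hr a) (Real.exp_pos _).le)
  rw [e, Pi.add_apply, Finset.sum_apply,
    show (p K 1 + n + 2) * u = u + (p K 1 + (n + 1)) * u by ring, Real.exp_add, mul_assoc]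
  refine (abs_add_le _ _).trans ((add_le_add h2 h3).trans ?_)
  rw [← two_mul]
  exact mul_le_mul_of_nonneg_right (by linarith [Real.add_one_le_exp u]) (by positivity)

omit [Fintype κ] in
theorem lp {lv : κ → Prop} {μ : κ → ℝ} {γ : κ → ℕ} {G : ℕ} {W : ℝ} (h : Wp lv μ γ G W) {a b e : κ}
    (k : Lw μ γ a b e) : Lp lv μ γ a b e := by
  have l : ∀ x, 0 < μ x → lv x := fun x v => by_contra fun z => v.ne' (h.dead x z).1
  have g : ∀ x, (0 < μ x ∨ γ e ≤ γ x) → (lv e → lv x) ∧ (¬lv e → γ e ≤ γ x) := fun x v =>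
    ⟨fun z => v.elim (l x) fun v => by_contra fun y => by
      have := h.live e z; have := (h.dead x y).2; omega,
    fun z => v.elim (fun v => by have := h.live x (l x v); have := (h.dead e z).2; omega) id⟩
  have k' : (0 < μ a ∨ γ e ≤ γ a) ∧ (0 < μ b ∨ γ e ≤ γ b) :=
    k.elim (fun k => ⟨.inl k.1, .inl k.2.1⟩) And.right
  by_cases z : lv e
  · exact .inl ⟨(g a k'.1).1 z, (g b k'.2).1 z, z, k.imp (fun k => k.2.2) And.left⟩
  · exact .inr ⟨z, (g a k'.1).2 z, (g b k'.2).2 z⟩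

theorem atm_iff {Ω β : Type} (K : Ω → β) (a b : Ω) : atm K a = atm K b ↔ K a = K b :=
  ⟨fun e => (e.subset (show a ∈ atm K a from rfl) :), fun e => by simp only [atm, e]⟩

open Classical in
/-- The part on the indices that die. -/
noncomputable def zz (lv : κ → Prop) (μ t : κ → ℝ) (a : κ) : ℝ := if lv a ∧ μ a = 0 then t a else 0

section Rd

omit [Fintype κ]

variable {lv : κ → Prop} {μ : κ → ℝ} {γ : κ → ℕ} {G : ℕ} {W R : ℝ}

theorem rd_pos (a : κ) : 0 < rd lv μ γ W R w a := by unfold rd; split_ifs <;> positivity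

theorem rd_ge (h0 : ∀ a, 0 ≤ μ a) (hW : 0 ≤ W) (hR : 0 ≤ R) (hw : W * R ≤ w) (a : κ) :
    exp (-w + W * R) ≤ rd lv μ γ W R w a ∧ (lv a → 1 ≤ rd lv μ γ W R w a) := by
  have := mul_nonneg (h0 a) hR
  have := mul_nonneg hW hR
  have := mul_nonneg (Nat.cast_nonneg (α := ℝ) (γ a)) this
  unfold rd
  split_ifs with k
  · exact ⟨Real.exp_le_exp.2 (by linarith), fun _ => Real.one_le_exp (by linarith)⟩
  · exact ⟨Real.exp_le_exp.2 (by linarith), fun z => absurd z k⟩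

theorem zz_bx (h : Wp lv μ γ G W) (ht : Bx (rd lv μ γ W R w) 1 t) :
    Bx (rd lv μ γ W R w) 1 (zz lv μ t) ∧ (∀ a, |zz lv μ t a| ≤ 1) ∧
      Bx (rd lv μ γ W 0 w) 1 (zz lv μ t) ∧ Bx (rd (0 < μ ·) μ γ W R w) 1 (t - zz lv μ t) := by
  have k : ∀ a, lv a ∧ μ a = 0 → |t a| ≤ 1 := fun a z => by simpa [rd, z] using ht a
  refine ⟨fun a => ?_, fun a => ?_, fun a => ?_, fun a => ?_⟩ <;> by_cases z : lv a ∧ μ a = 0
  · simpa [zz, z] using ht a
  · simpa [zz, z] using (rd_pos a).le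
  · simpa [zz, z] using k a z
  · simp [zz, z]
  · simpa [zz, z, rd] using k a z
  · simpa [zz, z] using (rd_pos a).le
  · simpa [zz, z] using (rd_pos a).le
  · have : lv a ↔ 0 < μ a := ⟨fun y => (h.bd a).1.lt_of_ne' fun x => z ⟨y, x⟩,
      fun y => by_contra fun x => y.ne' (h.dead a x).1⟩
    have e := ht a
    simp only [rd, this] at e
    simpa only [zz, z, if_false, Pi.sub_apply, sub_zero, rd] using e

end Rd

variable [DecidableEq κ] {Ω Λ Θ Ξ : Type} {σ : Sg ι κ α} {b : Bd ι κ α Ω Θ Ξ} {d : Fd ι κ α Ω}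
  {P : FP Ω} {O : Ω → Λ} {μ : κ → ℝ} {ω v : Ω}

theorem fr (f : IsFr σ.Φ σ.B σ.c) (h : d.U ω * d.V ω = 1) : IsFr σ.Φ (d.B σ ω) (d.c σ ω) :=
  ((GA.sFr _ _ σ.Φ σ.B σ.c).2 _ _ h).1 f

theorem vec_V (h : d.U ω * d.V ω = 1) (t : κ → ℝ) : vec (d.B σ ω) (t ᵥ* d.V ω) = vec σ.B t := by
  rw [Fd.B, GA.GAFrA.vec_mB, vecMul_vecMul, mul_eq_one_comm.1 h, vecMul_one]

theorem same (h : Cm σ b d P O μ u) (hω : ω ∈ P.S) (hv : v ∈ P.S) (e : d.T ω = d.T v) :
    d.B σ ω = d.B σ v ∧ d.c σ ω = d.c σ v := by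
  have := h.fU ω hω v hv e
  simp only [Prod.mk.injEq] at this
  simp only [Fd.B, Fd.c, this, and_self]

theorem letter (f : IsFr σ.Φ σ.B σ.c) (h : Cm σ b d P O μ u) (hω : ω ∈ P.S) (i : α) :
    Ad σ.Φ.N (d.c σ ω) (d.k ω) (b.H ω i ᵥ* d.V ω) = d.A ω i := by
  have f' := fr f (h.inv ω hω)
  refine sub_eq_zero.1 (f'.inj _ ?_)
  have e := (sAd _ _ _ _ _ f').1 (d.k ω) (b.H ω i ᵥ* d.V ω)
  rw [vec_V (h.inv ω hω), ← h.ad ω hω, ← sub_eq_zero] at e
  simpa only [GA.vec, Pi.sub_apply, sub_smul, sum_sub_distrib] using e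

/-- The reduced positions of two points with one basis. -/
theorem move (f : IsFr σ.Φ σ.B σ.c) (h : d.U ω * d.V ω = 1) (e : d.B σ ω = d.B σ v)
    (ht : b.J v = b.J ω * ex σ.B t) : d.G σ b v = d.G σ b ω * (ex (d.B σ ω) (d.k ω) *
      ex (d.B σ ω) (t ᵥ* d.V ω) * ex (d.B σ ω) (-d.k v)) := by
  have e' : ex (d.B σ ω) (t ᵥ* d.V ω) = ex σ.B t := by rw [ex, vec_V h, ex]
  rw [Fd.G, Fd.G, ht, ← e, e']
  simp only [mul_assoc]
  rw [← mul_assoc (ex _ (-d.k ω)), ((sMul _ _ _ _ _ (fr f h)).neg _).1, one_mul]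

end FlNetA

open FlNetA in
theorem ofNet : OfNet := by
  intro idl ι κ α _ _ _ _ _ σ Hs W lv μ γ G ok wp
  obtain ⟨K, tl⟩ := tools σ.Φ κ
  obtain ⟨n, hn⟩ : ∃ n : ℝ, n = Fintype.card κ + Fintype.card α := ⟨_, rfl⟩
  have n1 : (Fintype.card κ : ℝ) ≤ n ∧ (Fintype.card α : ℝ) ≤ n := by rw [hn]; simp
  have n0 : 0 ≤ n := (Nat.cast_nonneg _).trans n1.1
  have W0 : 0 ≤ W := (ok.bd 0 ok.zero).2
  have q1 := le_p tl.one zero_le_one
  obtain ⟨a2, h2⟩ : ∃ a2, a2 = p K 1 + n + 2 := ⟨_, rfl⟩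
  have q2 := le_p tl.one (show 0 ≤ p K 1 + a2 by linarith)
  have q3 := le_p tl.one (show 0 ≤ n + 2 by linarith)
  have q4 := le_p tl.one (show 0 ≤ p K (n + 2) by linarith)
  obtain ⟨a4, h4⟩ : ∃ a4, a4 = p K (p K (n + 2)) + a2 := ⟨_, rfl⟩
  have q5 := le_p tl.one (show 0 ≤ a4 by linarith)
  have q6 := le_p tl.one (show 0 ≤ p K a4 by linarith)
  have q7 : 0 ≤ (3 + G) * W := by positivity
  obtain ⟨C, hC⟩ : ∃ C, C = 1 + p K (p K a4) + p K (p K 1 + a2) + (3 + G) * W := ⟨_, rfl⟩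
  have C1 : 1 ≤ C := by linarith
  refine ⟨C, C1, fun Ω Λ Θ Ξ b d P O R u w R0 u1 hw hb hd => ?_⟩
  have w1 : (3 + G) * (W * R) ≤ C * R := by
    rw [← mul_assoc]; exact mul_le_mul_of_nonneg_right (by linarith) R0
  have w2 : 0 ≤ C * u := by positivity
  have w3 : 0 ≤ W * R := by positivity
  have w4 : 0 ≤ G * (W * R) := by positivity
  have l1 := Real.one_le_exp (show 0 ≤ u by linarith)
  have l2 : exp u ≤ exp (C * u) := by simpa using ele C1 u1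
  have I := fun ω hω => idl κ lv μ γ G W R w _ (d.c σ ω) wp W0 R0 (by linarith) l1 (hd.bc ω hω)
    (hd.fil ω hω)
  have I0 := fun ω hω => (idl κ lv μ γ G W 0 w _ (d.c σ ω) wp W0 le_rfl (by linarith) l1
    (hd.bc ω hω) (hd.fil ω hω)).1
  have I1 := fun ω hω => idl_one (hd.bc ω hω) zero_le_one
  have g1 := fun lv => rd_ge (lv := lv) (γ := γ) (w := w) (fun a => (wp.bd a).1) W0 R0 (by linarith)
  have g2 := fun lv a => (Real.exp_le_exp.2 (show -w ≤ -w + W * R by linarith)).trans (g1 lv a).1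
  have f := fun ω hω => fr ok.fr (hd.inv ω hω)
  have m := fun ω hω => sMul _ _ _ _ _ (f ω hω)
  have uG : ∀ ω ∈ P.S, IsUnit (d.G σ b ω) := fun ω hω =>
    (hb.unit ω hω).mul (ex_unit (f ω hω) _)
  obtain ⟨ρ, ρ1, ρ2⟩ : ∃ ρ : Ω → Ω, (∀ ω ∈ P.S, ρ ω ∈ P.S ∧ O (ρ ω) = O ω) ∧ Fn P ρ O :=
    ⟨fun ω => @Classical.epsilon Ω ⟨ω⟩ fun v => v ∈ P.S ∧ O v = O ω,
      fun ω hω => Classical.epsilon_spec (p := fun v => v ∈ P.S ∧ O v = O ω) ⟨ω, hω, rfl⟩,
      fun _ _ _ _ e => by simp only [e]⟩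
  have sm := fun ω hω => same hd.toCm (ρ1 ω hω).1 hω (hd.fT _ (ρ1 ω hω).1 _ hω (ρ1 ω hω).2)
  have sk := fun ω hω => Prod.ext_iff.1 (hd.fk _ (ρ1 ω hω).1 _ hω (ρ1 ω hω).2)
  have pr : ∀ ω ∈ P.S, ∃ e, Bx (rd (0 < μ ·) μ γ W R w) (exp (a2 * u)) e ∧
      d.G σ b ω = d.G σ b (ρ ω) * ex (d.B σ ω) e := fun ω hω => by
    obtain ⟨k1, k2⟩ := ρ1 ω hω
    obtain ⟨t, t1, t2, t3⟩ := hb.inc _ k1 _ hω k2
    refine ⟨_, h2 ▸ incr tl (f _ k1) u1 (hd.bc _ k1) (hd.bk _ k1) (fun a e => (hd.bU _ k1 a e).2)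
      n1 t2 (g2 _) fun i a => ?_, ?_⟩
    · rw [move ok.fr (hd.inv _ k1) (sm ω hω).1 t1, ← (sm ω hω).1, (sAd _ _ _ _ _ (f _ k1)).2.2.2.1,
        show d.k ω = d.k (ρ ω) from (sk ω hω).1.symm]
    · rw [letter ok.fr hd.toCm k1, abs_mul]
      rcases lt_or_ge (μ a) (σ.η i) with z | z
      · refine (mul_le_mul (t3 i) (hd.low _ k1 i a z) (abs_nonneg _) (Real.exp_pos _).le).trans
          (le_trans ?_ (mul_le_mul_of_nonneg_left (g1 _ a).1 (Real.exp_pos _).le))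
        rw [← Real.exp_add, ← Real.exp_add]
        have := mul_le_mul_of_nonneg_right (ok.bd _ (ok.he i)).2 R0
        exact Real.exp_le_exp.2 (by linarith)
      · refine (mul_le_mul (t3 i) (hd.bA _ k1 i a) (abs_nonneg _) (Real.exp_pos _).le).trans ?_
        rw [rd, if_pos ((ok.eta i).trans_le z), ← Real.exp_add, ← Real.exp_add]
        have := mul_le_mul_of_nonneg_right z R0
        exact Real.exp_le_exp.2 (by linarith)
  obtain ⟨E, hE⟩ : ∃ E : Ω → Mt ι, E = fun ω =>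
    cell (d.B σ (ρ ω)) (rd lv μ γ W R w) (d.G σ b (ρ ω)) := ⟨_, rfl⟩
  have fE : Fn P E O := fun x hx y hy e => by simp only [hE, ρ2 x hx y hy e]
  have cl : ∀ ω ∈ P.S, ∃ t, Bx (rd lv μ γ W R w) 1 t ∧ d.G σ b (ρ ω) = E ω * ex (d.B σ ω) t :=
    fun ω hω => by
      rw [hE, ← (sm ω hω).1]
      exact (tl.cel (f _ (ρ1 ω hω).1) u1 le_rfl rd_pos).1 _
  have uE : ∀ ω ∈ P.S, IsUnit (E ω) := fun ω hω => by
    obtain ⟨t, -, t2⟩ := cl ω hω
    exact (ex_unit (f ω hω) t).mul_right_iff.1 (t2 ▸ uG _ (ρ1 ω hω).1)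
  obtain ⟨z, hz⟩ : ∃ z : Ω → κ → ℝ, z = fun ω =>
    zz lv μ (lg (d.B σ ω) (E ω) (d.G σ b (ρ ω))) := ⟨_, rfl⟩
  have fz : Fn P z O := fun x hx y hy e => by
    simp only [hz, ρ2 x hx y hy e, fE x hx y hy e, (same hd.toCm hx hy (hd.fT x hx y hy e)).1]
  have key : ∀ ω ∈ P.S, (∀ a, |z ω a| ≤ exp u) ∧ Bx (rd lv μ γ W 0 w) (exp u) (z ω) ∧ ∃ g,
      Bx (rd (0 < μ ·) μ γ W R w) (exp (p K (p K 1 + a2) * u)) g ∧
      b.J ω = E ω * ex (d.B σ ω) g * ex (d.B σ ω) (bch σ.Φ.N (d.c σ ω) (z ω) (d.k ω)) :=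
    fun ω hω => by
      obtain ⟨t, t1, t2⟩ := cl ω hω
      obtain ⟨e, e1, e2⟩ := pr ω hω
      obtain ⟨z1, z2, z3, z4⟩ := zz_bx wp t1
      obtain ⟨g, g3, g4⟩ := split tl (f ω hω) u1 (by linarith) rd_pos rd_pos (I ω hω).1
        (I ω hω).2.1 (I ω hω).2.2.1 t1 z1 z4 e1
      simp only [hz, t2, (m ω hω).lg _ _ (uE ω hω)]
      refine ⟨fun a => (z2 a).trans l1, GA.GABoxA.mono z3 (fun a => (rd_pos a).le) l1, g, g3, ?_⟩
      rw [mul_assoc, ← g4, ← mul_assoc, ← mul_assoc, ← t2, ← e2, Fd.G, mul_assoc,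
        ((m ω hω).neg _).1, mul_one]
  choose! z1 z2 g g3 g4 using key
  have few : S20.Few P E (fun ω => (d.T ω, b.S ω)) (fun _ => True) (exp (p K (p K a4) * u)) :=
    fun ω hω => by
      obtain ⟨T, t1, t2⟩ := (tl.cel (a := p K a4) (f ω hω) u1 (by linarith) rd_pos).2 (I ω hω).1 _
        (uG ω hω)
      refine ⟨T, t1, fun v hv e _ => ?_⟩
      obtain ⟨e1, e2⟩ := Prod.ext_iff.1 e
      obtain ⟨t, t3, t4⟩ := hb.near ω hω v hv e2.symm (hd.f0 _ hω _ hv e1.symm)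
      obtain ⟨s, s1, s2⟩ := pr v hv
      have eB := (same hd.toCm hω hv e1.symm).1
      have k1 := move ok.fr (hd.inv ω hω) eB t4
      rw [(m ω hω).mul, (m ω hω).mul] at k1
      have k0 : exp u ≤ exp ((n + 2) * u) := by simpa using ele (a := 1) (by linarith) u1
      have k2 := tl.mul (f ω hω) u1 (by linarith) (fun _ => one_pos) (I1 ω hω)
        (tl.mul (a := n + 2) (f ω hω) u1 (by linarith) (fun _ => one_pos) (I1 ω hω)
          (bx_one fun a => (hd.bk ω hω a).trans k0) (bx_one (s := t ᵥ* d.V ω) fun a => by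
            refine (vm_le (x := exp u) (fun a => by simpa using t3 a)
              (fun a e => (hd.bU ω hω a e).2) a).trans ?_
            rw [add_mul, two_mul, Real.exp_add, Real.exp_add]
            exact mul_le_mul_of_nonneg_right (nle n1.1 n0 u1) (by positivity)))
        (bx_neg (bx_one fun a => ((hd.bk v hv a).trans k0).trans (ele (by linarith) u1)))
      have k3 := hd.dd ω hω v hv e1.symm
      rw [k1, (m ω hω).lg _ _ (uG ω hω)] at k3
      simp only [hE, (sm v hv).1, ← eB]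
      have k4 : d.G σ b (ρ v) = d.G σ b v * ex (d.B σ ω) (-s) := by
        rw [s2, ← eB, mul_assoc, ((m ω hω).neg _).2, mul_one]
      rw [k1, mul_assoc, (m ω hω).mul] at k4
      refine t2 _ ⟨_, tl.mul (a := a4) (f ω hω) u1 (by linarith) rd_pos (I ω hω).1
        (fun a => ?_) (bx_neg fun a => (s1 a).trans (mul_le_mul (ele (by linarith) u1)
          ((I ω hω).2.2.1 a) (rd_pos a).le (Real.exp_pos _).le)), k4⟩
      · by_cases y : lv a
        · exact (k2 a).trans (mul_le_mul (ele (by linarith) u1) ((g1 lv a).2 y) zero_le_one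
            (Real.exp_pos _).le)
        · exact ((k3 a y).trans (g2 lv a)).trans (le_mul_of_one_le_left (rd_pos a).le
            (Real.one_le_exp (mul_nonneg (by linarith) (by linarith))))
  have fT : Fn P (fun ω => (d.T ω, E ω)) (atm fun ω => (d.T ω, E ω)) :=
    fun _ _ _ _ e => (atm_iff _ _ _).1 e
  have fT' : Fn P d.T (atm fun ω => (d.T ω, E ω)) := (Fn.fst _ _).trans fT
  have lw : exp (-w) ≤ exp (-(w - C * (u + R))) := Real.exp_le_exp.2 (by nlinarith)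
  refine ⟨⟨atm fun ω => (d.T ω, E ω), d.U, d.V, E, g,
    fun ω => bch σ.Φ.N (d.c σ ω) (z ω) (d.k ω), fun ω i => Ad σ.Φ.N (d.c σ ω) (z ω) (d.A ω i)⟩,
    ⟨⟨fun x hx y hy e => (atm_iff _ _ _).2 (hd.fT.pair fE x hx y hy e), hd.f0.trans fT',
      fun ω hω => ?_, hd.fU.trans fT', fun x hx y hy e => ?_, hd.inv, fun ω hω a e =>
      (hd.bU ω hω a e).imp (·.trans l2) (·.trans l2), hd.tri, fun ω hω a a' e =>
      (hd.bc ω hω a a' e).trans l2, fun ω hω a => ?_, fun ω hω i => ?_, fun ω hω i a => ?_⟩,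
      (Fn.snd _ _).trans fT, uE, fun ω hω a a' e k => (hd.fil ω hω a a' e (lp wp k)).trans lw, g4,
      fun ω hω a => ⟨fun k => ?_, fun k => ?_⟩, fun ω hω i a k => ?_⟩,
    rfl, rfl, fT', fun k ω hω => ?_⟩
  · obtain ⟨T, t1, t2⟩ := ((S20.Few.pair (G := fun _ => True) (fun a ha => (hd.few a ha).imp
      fun _ k => ⟨k.1, fun v hv e _ => k.2 v hv e⟩) few).fn (Y' := atm fun ω => (d.T ω, E ω))
      fun _ _ _ _ e => (atm_iff _ _ _).2 (congrArg (·.1) e)) ω hω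
    refine ⟨T, t1.trans ?_, fun v hv e => t2 v hv e trivial⟩
    rw [← Real.exp_add, ← one_add_mul]
    exact ele (by linarith) u1
  · have := Prod.ext_iff.1 (hd.fk x hx y hy e)
    simp only at this
    simp only [this, fz x hx y hy e, (same hd.toCm hx hy (hd.fT x hx y hy e)).2]
  · have := tl.mul (a := 1) (f ω hω) u1 le_rfl (fun _ => one_pos) (I1 ω hω)
      (bx_one (by simpa using z1 ω hω)) (bx_one (by simpa using hd.bk ω hω)) a
    exact (this.trans_eq (mul_one _)).trans (ele (by linarith) u1)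
  · refine ((sAd _ _ _ _ _ (f ω hω)).1 _ _).trans ?_
    rw [hd.ad ω hω]
    refine Eq.trans ?_ (congrArg₂ (· * _ * ·) ((m ω hω).mul _ _) (ex_neg (f ω hω) _ _).symm)
    simp only [mul_assoc]
  · have := tl.ad (a := 1) (f ω hω) u1 (fun _ => one_pos) (fun _ => one_pos) (I1 ω hω) (I1 ω hω)
      (bx_one (z1 ω hω)) (bx_one (by simpa using hd.bA ω hω i)) a
    exact (this.trans_eq (mul_one _)).trans (ele (by linarith) u1)
  · refine (g3 ω hω a).trans ?_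
    rw [rd, if_pos k, Real.exp_add]
    exact mul_le_mul_of_nonneg_right (ele (by linarith) u1) (Real.exp_pos _).le
  · refine (g3 ω hω a).trans ?_
    rw [rd, if_neg (by simp [k]), ← Real.exp_add]
    have : (γ a : ℝ) ≤ G := by
      by_cases y : lv a
      · rw [wp.live a y]
      · exact_mod_cast (wp.dead a y).2.le
    have := mul_le_mul_of_nonneg_right this w3
    have := mul_le_mul_of_nonneg_right (show p K (p K 1 + a2) ≤ C by linarith) (zero_le_one.trans u1)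
    exact Real.exp_le_exp.2 (by linarith)
  · have := tl.ad (a := 1) (r' := rl μ (σ.η i) w) (s' := d.A ω i) (f ω hω) u1 rd_pos
      (fun a => by unfold rl; split_ifs <;> positivity) (I0 ω hω) ((I ω hω).2.2.2 _ (ok.eta i))
      (z2 ω hω) (fun a => by
        rw [rl, one_mul]
        split_ifs with y
        · exact (hd.low ω hω i a y).trans (le_mul_of_one_le_left (Real.exp_pos _).le l1)
        · simpa using hd.bA ω hω i a) a
    rw [rl, if_pos k, ← Real.exp_add] at this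
    have e := mul_le_mul_of_nonneg_right (show p K 1 + 1 ≤ C by linarith) (zero_le_one.trans u1)
    exact this.trans (Real.exp_le_exp.2 (by nlinarith))
  · have : z ω = 0 := funext fun a => by
      rw [hz]
      exact if_neg fun y => (k a y.1).ne' y.2
    simp only [this, ((m ω hω).one _).2, (sLin κ ℝ _ _).2.2.1, and_self]

end Pool.Agent.MP_5168f5_an.QA.Fl
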