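import Pool.Agent.MP_5168f5_an.QA.FlDefs

/-! The Kakeya maximal estimate: the first member of the class of filtrations. -/

namespace Pool.Agent.MP_5168f5_an.QA.Fl

open H19 H17S H17F R4 AN Filter Finset Matrix
open GA (Mt IsFr Nr Bx Idl lg vec ex br mB mC cm)
open PA (Pr Trm sP sM sO)
open LC (Au Mo ex_le)

namespace FlStart

/-- A diagonal choice. -/
theorem dgn {S : ℕ → Type} [∀ n, Nonempty (S n)] {M : ℕ → ℕ} {ψ : ∀ n, S n → ℝ → ℝ → Prop}
    (hm : ∀ n x, Mo (ψ n x))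
    (h : ∀ c : ℝ, 0 < c → ∀ T : ℝ, ∀ᶠ n in UF, ∃ x, ψ n x (c * M n) (T * M n)) :
    ∃ x : ∀ n, S n, Au M fun n => ψ n (x n) := by
  obtain ⟨k, a, e⟩ := ks.spill (fun k n => ∃ x, ψ n x (1 / (k + 1 : ℝ) * M n) (k * M n))
    fun k => h _ (by positivity) _
  refine ⟨fun n => Classical.epsilon fun x => ψ n x (1 / (k n + 1 : ℝ) * M n) (k n * M n),
    fun c hc T => ?_⟩
  filter_upwards [e, K31.small hc a, a.ev T] with n e u v
  exact hm _ _ _ _ _ _ (mul_le_mul_of_nonneg_right u (Nat.cast_nonneg _))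
    (mul_le_mul_of_nonneg_right v (Nat.cast_nonneg _)) (Classical.epsilon_spec (e _ le_rfl))

variable {ι κ α Ω Λ Θ Ξ : Type} [Fintype ι] [DecidableEq ι] [Fintype κ] [DecidableEq κ]
  {σ : Sg ι κ α} {b : Bd ι κ α Ω Θ Ξ} {d : Fd ι κ α Ω} {P : FP Ω} {O : Ω → Λ} {μ : κ → ℝ}
  {γ : κ → ℕ} {R u w W : ℝ} {Hs : Finset ℝ}

theorem mo_one : Mo (One σ b d P O μ γ R) := fun _ _ _ _ x y h =>
  have e := ex_le x
  have f := ex_le (neg_le_neg y)
  ⟨⟨h.fT, h.f0, fun ω a => (h.few ω a).imp fun _ k => ⟨k.1.trans e, k.2⟩, h.fU, h.fk, h.inv,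
    fun ω a p q => ⟨(h.bU ω a p q).1.trans e, (h.bU ω a p q).2.trans e⟩, h.tri,
    fun ω a p q r => (h.bc ω a p q r).trans e, fun ω a p => (h.bk ω a p).trans e, h.ad,
    fun ω a p q => (h.bA ω a p q).trans e⟩, h.fE, h.uE,
    fun ω a p q r s => (h.fil ω a p q r s).trans f, h.fac,
    fun ω a p => ⟨fun s => ((h.bg ω a p).1 s).trans (ex_le (by linarith)),
      fun s => ((h.bg ω a p).2 s).trans f⟩, fun ω a p q s => (h.low ω a p q s).trans f⟩

theorem mB_one (B : κ → Mt ι) : mB 1 B = B := funext fun a => by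
  simp [GA.mB, GA.vec, one_apply]

theorem mC_one (c : κ → κ → κ → ℝ) : mC 1 1 c = c := funext₂ fun a a' => funext fun e => by
  simp [GA.mC, GA.br, one_apply]

/-- The first data. -/
def d0 (b : Bd ι κ α Ω Θ Ξ) : Fd ι κ α Ω :=
  ⟨atm b.T, fun _ => 1, fun _ => 1, fun _ => 1, fun _ => 0, fun _ => 0, b.H⟩

theorem pre [Fintype α] (ok : σ.Ok Hs W) (h : b.At σ P O R u w) (hu : 0 ≤ u)
    (hc : ∀ a a' e, |σ.c a a' e| ≤ Real.exp u) :
    Pre σ b (d0 b) P O (fun _ => True) σ.m 0 u w := by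
  classical
  have e1 : ∀ a e : κ, |(1 : Matrix κ κ ℝ) a e| ≤ Real.exp u := fun a e => by
    rw [one_apply]
    split_ifs
    exacts [by simpa using hu, by simpa using (Real.exp_pos u).le]
  have e2 : ∀ ω, (d0 b).c σ ω = σ.c := fun _ => mC_one _
  refine ⟨⟨fun ω x v y z => congrArg (fun t => {v | b.T v = t}) (h.fT ω x v y z),
    fun ω _ v _ z => (z.le rfl :), fun ω x => ?_, fun _ _ _ _ _ => rfl,
    fun ω x v y z => Prod.ext rfl (h.fH ω x v y z), fun _ _ => mul_one _,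
    fun _ _ a e => ⟨e1 a e, e1 a e⟩, fun _ _ a e z => one_apply_ne fun y => z.ne (y ▸ rfl),
    fun ω _ => e2 ω ▸ hc, fun _ _ _ => abs_zero.trans_le (Real.exp_pos u).le, fun ω _ i => ?_,
    fun ω x i a => (h.bH ω x i a).1⟩, fun ω _ a a' e z => ?_, fun ω x i a => (h.bH ω x i a).2,
    fun _ _ _ _ _ _ z => absurd trivial z⟩
  · obtain ⟨T, t1, t2⟩ := h.few ω x
    exact ⟨T.image fun t => {v | b.T v = t}, le_trans (Nat.cast_le.2 card_image_le) t1,
      fun v y z => mem_image_of_mem _ (t2 v y z)⟩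
  · simp [d0, Fd.B, mB_one, GA.ex, GA.vec]
  · rw [e2, show σ.c a a' e = 0 from not_not.1 fun y => ?_, abs_zero]
    · exact (Real.exp_pos _).le
    · rcases z with ⟨-, -, -, z | z⟩ | z
      exacts [(ok.gr a a' e y).not_gt z, (ok.pos e).ne' z, z.1 trivial]

end FlStart

open FlStart in
theorem ofStart : OfStart := by
  intro net ι κ α κ' _ _ _ _ _ Ω Λ Θ Ξ σ b Hs W X ok hM bf
  obtain ⟨C, C1, hC⟩ := net ι κ α σ Hs W (fun _ => True) σ.m 0 0 ok
    ⟨fun a => ok.bd _ (ok.hm a), fun _ z => absurd trivial z, fun _ _ => rfl⟩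
  have C0 := one_pos.trans_le C1
  have : ∀ n, Nonempty (Fd ι κ α (Ω n)) := fun n => ⟨d0 (b n)⟩
  refine ⟨0, dgn (ψ := fun n d => One σ (b n) d (X n).P ((X n).O (-1)) σ.m 0 (X n).M)
    (fun _ _ => mo_one) fun c hc T => ?_⟩
  have c0 := div_pos hc C0
  filter_upwards [bf (-1) le_rfl (by norm_num) _ c0 (|T| + c + C), hM.sm 1 _ c0,
    eventually_all.2 fun a => eventually_all.2 fun a' => eventually_all.2 fun e =>
      hM.sm |σ.c a a' e| _ c0] with n x y z
  rw [Rat.cast_neg, Rat.cast_one, neg_neg, one_mul] at x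
  have m0 : (0 : ℝ) ≤ sM X n := Nat.cast_nonneg _
  have e : C * (c / C * sM X n) = c * sM X n := by field_simp
  have t := mul_le_mul_of_nonneg_right (le_abs_self T) m0
  have t' := mul_nonneg (abs_nonneg T) m0
  exact (hC _ _ _ _ _ _ _ _ _ _ _ m0 (by linarith) (by rw [mul_add, e]; linarith) x
    (pre ok x (by linarith) fun a a' e => by
      linarith [z a a' e, Real.add_one_le_exp (c / C * sM X n)])).imp fun d k =>
    mo_one _ _ _ _ e.le (by rw [mul_add, e]; linarith) k.1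

end Pool.Agent.MP_5168f5_an.QA.Fl
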