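import Pool.Agent.MP_5168f5_an.QA.FlAcw
import Pool.Agent.MP_5168f5_an.QA.FlAcwS
import Pool.Agent.MP_5168f5_an.QA.FlAx
import Pool.Agent.MP_5168f5_an.QA.FlBas
import Pool.Agent.MP_5168f5_an.QA.FlDrop
import Pool.Agent.MP_5168f5_an.QA.FlGrid
import Pool.Agent.MP_5168f5_an.QA.FlIdl
import Pool.Agent.MP_5168f5_an.QA.FlNet
import Pool.Agent.MP_5168f5_an.QA.FlOut
import Pool.Agent.MP_5168f5_an.QA.FlStart

/-! The Kakeya maximal estimate: the minimal filtration, closed statements. -/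

namespace Pool.Agent.MP_5168f5_an.QA.Fl

theorem rDrop : RDrop := ofDrop rIdl

theorem rNet : RNet := ofNet rIdl

theorem rOut : ROut := ofOut rIdl

theorem sStart : SStart := ofStart rNet

theorem sAcw : SAcw := ofAcw rAx rBas rDrop rNet

end Pool.Agent.MP_5168f5_an.QA.Fl
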