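import Pool.Agent.MP_5168f5_an.QA.OrbSpec
import Pool.Agent.MP_5168f5_an.QA.Let2
import Pool.Agent.MP_5168f5_an.QA.ChAlg

/-! The Kakeya maximal estimate: one exact frame for the box and the translations. -/

namespace Pool.Agent.MP_5168f5_an.QA.Ob

open H19 H17S H17F R4 AN Filter Matrix IsNilpotent Finset
open GA (Mt IsFr ex cm)
open N2 (tri El)
open N6 (Eb PG)
open Ch (Orb Gr gr_pw gr_id gr_lin gr_eA eA exp_dec mv_le pw_mono)
open Lt

namespace OrbLetA

theorem gev {g : ℝ → ℝ} (a : Gr g) : ∀ᶠ C : ℕ in atTop, ∀ X, 1 ≤ X → g X ≤ (C * X) ^ C := by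
  obtain ⟨C, c1, c2⟩ := a.pb
  exact (eventually_ge_atTop C).mono fun C' h X hX => (c2 X hX).trans (pw_mono c1 h hX le_rfl)

theorem ex_le {m : ℕ} {kk : Fin m → ℝ} {b : El kk → Mt (Fin m)} {c : El kk → El kk → El kk → ℝ}
    (h : IsFr (tri kk) b c) {A S δ : ℝ} (hA : 1 ≤ A * S) (bb : ∀ a p q, |b a p q| ≤ A)
    {s : El kk → ℝ} (hs : ∀ a, |s a| ≤ S) {v : Fin m → ℝ} (h0 : 0 ≤ δ) (hv : ∀ q, |v q| ≤ δ)
    (r : Fin m) : |(ex b s *ᵥ v) r| ≤ (m + 1) * eA m (((m * m : ℕ) + 1) * (A * S)) * δ := by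
  have c0 : (0 : ℝ) ≤ (m * m : ℕ) := Nat.cast_nonneg _
  have c1 : 1 ≤ (((m * m : ℕ) : ℝ) + 1) * (A * S) := by nlinarith
  refine (mv_le (exp_dec (h.mem s) c1 fun p q => ?_).1 h0 fun q _ => hv q).trans
    (mul_le_mul_of_nonneg_right (mul_le_mul_of_nonneg_right (by linarith)
      (zero_le_one.trans ((gr_eA m).one c1))) h0)
  rw [GA.vec, Matrix.sum_apply]
  refine (abs_sum_le_sum_abs _ _).trans ((sum_le_card_nsmul _ _ (A * S) fun a _ => ?_).trans ?_)
  · rw [Matrix.smul_apply, smul_eq_mul, abs_mul, mul_comm]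
    exact mul_le_mul (bb a p q) (hs a) (abs_nonneg _) ((abs_nonneg _).trans (bb a p q))
  · rw [nsmul_eq_mul, card_univ]
    have : (Fintype.card (El kk) : ℝ) ≤ (m * m : ℕ) := by exact_mod_cast card_el kk
    exact mul_le_mul_of_nonneg_right (by linarith) (by linarith)

end OrbLetA

open OrbLetA in
theorem ofLet : OfLet := fun hP m k => by
  classical
  obtain ⟨F, hF, fw⟩ := fwd m k
  obtain ⟨F', hF', bw⟩ := bwd m k
  obtain ⟨K, K1, hK⟩ := hP F hF
  obtain ⟨K', K1', hK'⟩ := hP F' hF'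
  have g0 := ((gr_lin k).mul gr_id).mul gr_id
  have g1 := g0.mul (((gr_lin 1).mul gr_id).pow m)
  have g2 := ((gr_lin m).comp ((gr_eA m).comp ((gr_lin (m * m)).comp
    ((gr_id.mul gr_id).mul (gr_pw K1))))).mul gr_id
  have g3 := ((gr_lin k).pow 1).mul g0
  have g4 := ((gr_lin m).comp (((gr_pw K1').comp (gr_id.mul gr_id)).mul g0)).mul gr_id
  obtain ⟨C, ⟨⟨⟨⟨e1, e2⟩, e3⟩, e4⟩, e5⟩, e6, e7⟩ := ((((((gev g1).and (gev g2)).and (gev g3)).and
    (gev g4)).and (eventually_ge_atTop K)).and ((eventually_ge_atTop (k + m * m)).and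
      (eventually_ge_atTop 1))).exists
  refine ⟨C, e7, fun κ J _ _ kk B c lv ρ f L W θ hk h sm => ?_⟩
  have L1 := h.one
  have W1 : 1 ≤ W := L1.trans h.le
  have t0 := h.pos
  have k0 : (0 : ℝ) ≤ k := Nat.cast_nonneg _
  have kκ : (Fintype.card κ : ℝ) ≤ k := by exact_mod_cast (Nat.le_add_right _ _).trans hk
  have hk' : Fintype.card {a // lv a} + Fintype.card J ≤ k :=
    (Nat.add_le_add_right (Fintype.card_subtype_le _) _).trans hk
  have r0 : ∀ a, 0 < ρ a := fun a => one_pos.trans_le (h.rho a).1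
  have rW : ∀ a, |ρ a| ≤ W := fun a => (abs_of_pos (r0 a)).trans_le (h.rho a).2
  obtain ⟨η, hη⟩ : ∃ η, η = (k + 1) * W * W * W * θ := ⟨_, rfl⟩
  have LW : 1 ≤ L * W := one_le_mul_of_one_le_of_one_le L1 W1
  have w3 : L * W * W ≤ W * W * W := by gcongr; exact h.le
  have w1 : W ≤ L * W * W := by nlinarith
  have n1 : L * W * W * θ * k ≤ η ∧ W * θ ≤ η := by
    rw [hη]
    constructor <;> nlinarith [mul_le_mul_of_nonneg_right w3 t0.le,
      mul_le_mul_of_nonneg_right w1 t0.le, mul_pos (mul_pos (mul_pos (one_pos.trans_le W1)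
        (one_pos.trans_le W1)) (one_pos.trans_le W1)) t0]
  have c3 : ∀ (a : κ) j, lv a → Eb η (cm (ρ a • B a) (f j)) := fun a j l => by
    have : cm (ρ a • B a) (f j) = ρ a • cm (B a) (f j) := by simp [cm, smul_sub]
    exact this ▸ eb_mono (eb_smul (h.cf a j l) (rW a)) n1.2
  have ap := ap_of (η := η) (W := L * W) h.fr lv (by rw [hη]; positivity) L1 LW (by
      refine le_trans ?_ ((mul_le_mul_of_nonneg_right (e1 W W1) t0.le).trans sm)
      have : (2 * (L * W)) ^ m ≤ ((((1 : ℕ) : ℝ) + 1) * W * W) ^ (m + 1) :=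
        (pow_le_pow_left₀ (by positivity) (by push_cast; nlinarith [h.le]) _).trans
          (pow_le_pow_right₀ (by push_cast; nlinarith) (Nat.le_succ m))
      rw [hη, mul_right_comm _ θ]
      gcongr) r0 h.mf (fun a _ => eb_mono (eb_smul (h.bB a) (rW a)) (mul_comm _ _).le)
    (fun j => eb_mono (h.bf j) (by nlinarith)) h.ll (fun a b e p q u v w => by
      refine le_trans ?_ n1.1
      rw [mul_comm]
      refine mul_le_mul (le_of_le_of_eq (mul_le_mul (mul_le_mul (mul_le_mul (h.ld a b e u v w)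
        (h.rho a).2 (r0 a).le t0.le) (h.rho b).2 (r0 b).le (by positivity)) (h.bB e q p)
        (abs_nonneg _) (by positivity)) (by ring)) kκ (Nat.cast_nonneg _) (by positivity))
    c3 fun i j => eb_mono (h.ff i j) (le_trans (by nlinarith) n1.2)
  have M := GA.sMul _ _ _ _ _ ap.fr
  refine ⟨_, _, ap.fr, fun a a' e => (ap.fc_le a a' e).trans (mul_le_mul_of_nonneg_right ?_
    (by linarith)), fun a q p => ap.fb_le a p q, fun p y X hX => ?_⟩
  · rw [Fintype.card_sum]
    exact_mod_cast (Nat.add_le_add hk' (card_el kk)).trans e6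
  have X1 : 1 ≤ X := L1.trans hX
  have Z1 : 1 ≤ W * X := one_le_mul_of_one_le_of_one_le W1 X1
  have XZ : X ≤ W * X := by nlinarith
  have WZ : W ≤ W * X := by nlinarith
  have LZ : L * W ≤ W * X * (W * X) := mul_le_mul (h.le.trans WZ) WZ (by linarith) (by linarith)
  have ηZ : η ≤ (k + 1) * (W * X) * (W * X) * (W * X) * θ := by rw [hη]; gcongr
  have bb := fun a p q => (ap.fb_le a p q).trans LZ
  have P1 : 1 ≤ (K * (W * X)) ^ K := (gr_pw K1).one Z1
  have A1 : 1 ≤ W * X * (W * X) * (K * (W * X)) ^ K :=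
    one_le_mul_of_one_le_of_one_le (LW.trans LZ) P1
  rw [mul_assoc (C : ℝ)]
  refine ⟨fun ⟨t, ξ, bt, bξ, er⟩ => ?_, fun s η' h0 hp s1 h1 ⟨bs, e, be, ey⟩ => ?_⟩
  · obtain ⟨u, bu, eu⟩ := fw {a // lv a} J kk η (L * W) L X (fun a => ρ a • B a) f (GA.vec B t) (∑ j, ξ j • f j)
      (fun a => t a / ρ a) ξ hk' ap hX (h.fr.mem t) (comb_mem h.mf ξ) (fun a => by
        rw [abs_div, abs_of_pos (r0 a), div_le_iff₀ (r0 a)]; exact (bt a).1 a.2) bξ
      (eb_mono (live_part B lv r0 t (θ := X * θ * L) (by positivity)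
        fun a l => eb_smul (h.bB a) ((bt a).2 l)) (by
          refine le_trans ?_ (mul_le_mul_of_nonneg_left n1.1 (by linarith))
          have : L ≤ L * W * W := by nlinarith
          calc _ = X * (L * θ * Fintype.card κ) := by ring
            _ ≤ _ := by gcongr))
      (by rw [sub_self]; exact eb_zero (mul_pos (by linarith) ap.pos).le)
    have bu' := fun a => (bu a).trans (hK X X1)
    have fr := ap.fr
    generalize fb kk η (L * W) (Sum.elim (fun a : {a // lv a} => ρ a • B a) f) = b at fr M bb eu ⊢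
    refine ⟨u, fun a => (bu' a).trans (pw_mono K1 e5 X1 le_rfl), ex b (-u) *ᵥ (y - ex B t *ᵥ
      (exp (∑ j, ξ j • f j) *ᵥ p)), fun q => ?_, ?_⟩
    · refine (ex_le fr A1 bb (fun a => by
        rw [Pi.neg_apply, abs_neg]; exact (bu' a).trans (pw_mono K1 le_rfl X1 XZ))
        (by positivity) er q).trans ?_
      rw [← mul_assoc]
      refine mul_le_mul_of_nonneg_right (le_trans (mul_le_mul_of_nonneg_left XZ ?_) (e2 _ Z1)) t0.le
      exact zero_le_one.trans (((gr_lin m).comp ((gr_eA m).comp (gr_lin (m * m)))).one A1)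
    · rw [mulVec_add, mulVec_mulVec _ (ex b u), (M.neg u).2, one_mulVec, ← eu, mulVec_mulVec, ex]
      abel
  · obtain ⟨t, ξ, bt, bξ, er⟩ := bw {a // lv a} J kk η (L * W) L X (fun a => ρ a • B a) f s hk' ap X1 (fun i j => c3 i j i.2)
      (by
        refine le_trans ?_ ((mul_le_mul_of_nonneg_right (e3 _ Z1) t0.le).trans s1)
        rw [mul_assoc _ _ θ]
        exact mul_le_mul (pow_le_pow_left₀ (by positivity) (by nlinarith) _) ηZ ap.pos.le
          (by positivity)) bs
    have C0 : 0 ≤ (C * (W * X)) ^ C := by positivity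
    have v : GA.vec B (fun a => if l : lv a then t ⟨a, l⟩ * ρ a else 0) =
        ∑ j : {a // lv a}, t j • ρ j • B j := by
      rw [GA.vec, ← Fintype.sum_subtype_add_sum_subtype lv, sum_eq_zero (s := univ)
        (f := fun a : {a // ¬lv a} => _) fun a _ => by rw [dif_neg a.2, zero_smul], add_zero]
      exact sum_congr rfl fun a _ => by rw [dif_pos a.2, smul_smul]
    refine ⟨fun a => if l : lv a then t ⟨a, l⟩ * ρ a else 0, ξ, fun a => ⟨fun l => ?_, fun l => ?_⟩,
      bξ, fun q => ?_⟩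
    · simp only [dif_pos l, abs_mul, abs_of_pos (r0 a)]
      exact mul_le_mul_of_nonneg_right (bt _) (r0 a).le
    · simp only [dif_neg l, abs_zero]
      positivity
    · rw [ex, v, ey, mulVec_add, mulVec_mulVec, add_sub_right_comm, ← sub_mulVec, Pi.add_apply,
        mul_add]
      refine (abs_add_le _ _).trans (add_le_add ?_ ?_)
      · refine (mv_le (fun p q => er q p) (by linarith) fun q _ => hp q).trans (le_trans ?_
          (mul_le_mul_of_nonneg_right (e4 _ Z1) t0.le))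
        have a1 : 1 ≤ L * W * X := by nlinarith
        have a2 := (hK' _ a1).trans (pw_mono K1' le_rfl a1 (show L * W * X ≤ W * X * (W * X) by
          nlinarith [mul_le_mul_of_nonneg_right (h.le.trans WZ) (zero_le_one.trans Z1)]))
        have a3 := mul_le_mul a2 ηZ ap.pos.le (by positivity)
        calc _ ≤ (m + 1) * ((K' * (W * X * (W * X))) ^ K' *
              ((k + 1) * (W * X) * (W * X) * (W * X) * θ)) * (W * X) :=
            mul_le_mul (mul_le_mul (by linarith) a3 (mul_nonneg (hF'.nn a1) ap.pos.le)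
              (by positivity)) XZ (by linarith) (by positivity)
          _ = _ := by ring
      · refine (ex_le ap.fr A1 bb (fun a => (bs a).trans (XZ.trans ((gr_pw K1).le _ Z1))) h0 be
          q).trans (mul_le_mul_of_nonneg_right (le_trans (le_mul_of_one_le_right ?_ Z1) (e2 _ Z1)) h0)
        exact zero_le_one.trans (((gr_lin m).comp ((gr_eA m).comp (gr_lin (m * m)))).one A1)

end Pool.Agent.MP_5168f5_an.QA.Ob
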