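import Pool.Agent.MP_5168f5_an.QA.OrbSpec
import Pool.Agent.MP_5168f5_an.QA.ChAlg

/-! The Kakeya maximal estimate: nets and joins of orbits. -/

namespace Pool.Agent.MP_5168f5_an.QA.Ob

open H19 H17S H17F R4 AN Filter Matrix IsNilpotent
open GA (Mt IsFr ex cm)
open N2 (tri)
open N6 (Eb)
open Ch (Orb Gr gr_pw gr_id gr_lin gr_eA eA)

namespace OrbNetA

variable {m : ℕ} {κ : Type} [Fintype κ] {b : κ → Mt (Fin m)} {θ X Y : ℝ} {p y : Fin m → ℝ}

/-- `y` lies near the orbit of `p`. -/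
def O (b : κ → Mt (Fin m)) (θ X : ℝ) (p y : Fin m → ℝ) : Prop := ∃ s, Orb b p X (X * θ) s y

theorem O.mono (h : O b θ X p y) (h0 : 0 ≤ θ) (e : X ≤ Y) : O b θ Y p y :=
  h.imp fun _ ⟨u, w, v, z⟩ => ⟨fun a => (u a).trans e, w,
    fun q => (v q).trans (mul_le_mul_of_nonneg_right e h0), z⟩

/-- A frame with bounds. -/
structure Fb (kk : Fin m → ℝ) (b : κ → Mt (Fin m)) (c : κ → κ → κ → ℝ) (X : ℝ) : Prop where
  fr : IsFr (tri kk) b c
  one : 1 ≤ X
  bc : ∀ a a' e, |c a a' e| ≤ X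
  bb : ∀ a, Eb X (b a)

theorem Fb.mono {kk : Fin m → ℝ} {c : κ → κ → κ → ℝ} (h : Fb kk b c X) (e : X ≤ Y) :
    Fb kk b c Y :=
  ⟨h.fr, h.one.trans e, fun a a' d => (h.bc a a' d).trans e, fun a q => (h.bb a q).mono e⟩

theorem frame (m k : ℕ) : ∃ g, Gr g ∧ ∀ (κ : Type) [Fintype κ] (kk : Fin m → ℝ)
    (b : κ → Mt (Fin m)) (c : κ → κ → κ → ℝ) (θ X : ℝ) (p y : Fin m → ℝ), Fintype.card κ ≤ k →
    Fb kk b c X → 0 ≤ θ → O b θ X p y → O b θ (g X) y p ∧ (∀ z, O b θ X y z → O b θ (g X) p z) ∧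
      (Vb X y → X * θ ≤ 1 → Vb (g X) p) := by
  obtain ⟨K, hK, bx⟩ := GA.sBox m k
  have g0 := (gr_lin m).comp ((gr_eA m).comp ((gr_lin k).comp (gr_id.mul gr_id)))
  refine ⟨_, (gr_lin 1).comp ((gr_id.mul g0).mul (gr_pw hK)), ?_⟩
  rintro κ _ kk b c θ X p y hk h h0 ⟨s, hs, e, he, rfl⟩
  have M := GA.sMul _ _ _ b c h.fr
  have x1 := h.one
  have a1 := g0.one x1
  have a2 := (gr_pw hK).one x1
  have mv : ∀ t : κ → ℝ, (∀ a, |t a| ≤ X) → ∀ η v, 0 ≤ η → Vb η v →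
      Vb ((m + 1) * eA m ((k + 1) * (X * X)) * η) (ex b t *ᵥ v) := fun t ht η v n u r => by
    have k1 : (1 : ℝ) ≤ (k + 1) * (X * X) := ((gr_lin k).comp (gr_id.mul gr_id)).one x1
    refine (Ch.mv_le (Ch.exp_dec (h.fr.mem t) k1 fun a d => (N6.cb_vec (θ := X * X)
      (by positivity) (fun i j => ?_) a).trans (by gcongr)).1 n fun q _ => u q).trans ?_
    · rw [abs_mul]
      exact mul_le_mul (ht i) (h.bb i d j) (abs_nonneg _) (by linarith)
    · have := (gr_eA m).one k1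
      gcongr
      linarith
  have ns : ∀ a, |(-s) a| ≤ X := fun a => by simpa using hs a
  have i1 : GA.Idl c 1 1 X := fun a a' d => by simpa using h.bc a a' d
  have b1 : ∀ t : κ → ℝ, (∀ a, |t a| ≤ X) → GA.Bx 1 X t := fun t u a => by simpa using u a
  have xθ : 0 ≤ X * θ := by positivity
  simp only [Nat.cast_one]
  generalize (m + 1 : ℝ) * eA m ((k + 1) * (X * X)) = A at *
  have w1 : X * A ≤ X * A * (K * X) ^ K := le_mul_of_one_le_right (by positivity) a2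
  have w2 : X ≤ X * A := le_mul_of_one_le_right (by positivity) a1
  have w3 : (K * X) ^ K ≤ X * A * (K * X) ^ K := le_mul_of_one_le_left (by positivity) (by linarith)
  have w4 := mul_le_mul_of_nonneg_right w1 h0
  have w5 := mul_le_mul_of_nonneg_right w2 h0
  refine ⟨⟨-s, fun a => (ns a).trans (by linarith), -(ex b s *ᵥ e), fun q => ?_, ?_⟩, ?_,
    fun u v q => ?_⟩
  · rw [Pi.neg_apply, abs_neg]
    exact (mv s hs _ e xθ he q).trans (by linarith)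
  · rw [mulVec_add (ex b s), add_neg_cancel_right, mulVec_mulVec, (M.neg s).1, one_mulVec]
  · rintro z ⟨t, ht, e', he', rfl⟩
    refine ⟨_, fun a => ((bx κ c 1 1 X 0 t s t s hk x1 le_rfl (fun _ => ⟨zero_le_one, zero_le_one⟩)
      M.anti i1 i1 (b1 t ht) (b1 s hs) (b1 t ht) (b1 s hs)).1 a).trans (by
        rw [Pi.one_apply]; linarith), e + ex b (-s) *ᵥ e', fun q => (abs_add_le _ _).trans
      ((add_le_add (he q) (mv _ ns _ e' xθ he' q)).trans (by linarith)), ?_⟩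
    rw [← add_assoc]
    refine .trans ?_ (congrArg (· *ᵥ _) (M.mul t s))
    rw [← mulVec_mulVec, mulVec_add (ex b s) (p + e), mulVec_mulVec, (M.neg s).2, one_mulVec]
  · have := mv _ ns X _ (by linarith) u q
    rw [mulVec_mulVec, (M.neg s).1, one_mulVec, Pi.add_apply] at this
    have := abs_sub (p q + e q) (e q)
    rw [add_sub_cancel_right] at this
    linarith [he q]

theorem pack (S : SLet) (m k : ℕ) : ∃ h, Gr h ∧ ∀ G, Gr G → ∃ C : ℕ, 1 ≤ C ∧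
    (∀ L, 1 ≤ L → G L ≤ (C * L) ^ C) ∧ ∀ (κ J : Type) [Fintype κ] [Fintype J] (kk : Fin m → ℝ)
    (B : κ → Mt (Fin m)) (c : κ → κ → κ → ℝ) (lv : κ → Prop) (f : J → Mt (Fin m)) (L θ : ℝ),
    Fintype.card κ + Fintype.card J ≤ k → Al kk B c lv 1 f L L θ → (C * L) ^ C * θ ≤ 1 →
    ∃ (b : N2.El kk → Mt (Fin m)) (c' : N2.El kk → N2.El kk → N2.El kk → ℝ), Fb kk b c' (h L) ∧
      (∀ p y X, L ≤ X → Nb B lv 1 f X (X * θ) p y → O b θ (h X) p y) ∧ ∀ p y, Vb (G L) p →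
        O b θ (G L) p y → Nb B lv 1 f ((C * L) ^ C) ((C * L) ^ C * θ) p y := by
  obtain ⟨C, hC, S⟩ := S m k
  refine ⟨_, (gr_pw hC).comp (gr_id.mul gr_id), fun G hG => ?_⟩
  have g1 := (gr_pw hC).comp (gr_id.mul hG)
  obtain ⟨D, hD, e⟩ := (g1.mul ((gr_lin 1).comp hG)).pb
  simp only [Nat.cast_one] at e
  have e1 : ∀ L, 1 ≤ L → (C * L * G L) ^ C * (1 + G L) ≤ (D * L) ^ D := fun L l =>
    le_trans (by rw [mul_assoc]; have := g1.one l; have := hG.one l; gcongr; linarith) (e L l)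
  have e2 : ∀ L, 1 ≤ L → G L ≤ (D * L) ^ D ∧ (C * L * G L) ^ C ≤ (D * L) ^ D := fun L l => by
    have := e1 L l
    have := g1.one l
    have := hG.one l
    rw [← mul_assoc] at *
    constructor <;> nlinarith
  refine ⟨D, hD, fun L l => (e2 L l).1, fun κ J _ _ kk B c lv f L θ hk h s => ?_⟩
  have l := h.one
  have c1 : (1 : ℝ) ≤ C := by exact_mod_cast hC
  have t0 := h.pos.le
  have l2 : L ≤ L * L := le_mul_of_one_le_right (by linarith) l
  have s1 := (mul_le_mul_of_nonneg_right (e2 L l).2 t0).trans s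
  obtain ⟨b, c', fr, bc, bb, o⟩ := S κ J kk B c lv 1 f L L θ hk h (le_trans
    (mul_le_mul_of_nonneg_right (pow_le_pow_left₀ (by positivity)
      (le_mul_of_one_le_right (by positivity) (hG.one l)) _) t0) s1)
  have p1 : C * (L * L) ≤ (C * (L * L)) ^ C := le_self_pow₀ (by nlinarith) (by omega)
  refine ⟨b, c', ⟨fr, by nlinarith, fun a a' d => (bc a a' d).trans (by nlinarith), fun a q =>
    (bb a q).mono (by nlinarith)⟩, fun p y X x n => ?_, fun p y v ⟨u, w⟩ => ?_⟩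
  · obtain ⟨u, w, r, w', z⟩ := (o p y X x).1 n
    have x1 := l.trans x
    refine ⟨u, fun a => (w a).trans (Ch.pw_mono hC le_rfl x1 (by nlinarith)), r,
      fun q => (w' q).trans ?_, z⟩
    rw [mul_assoc]
    gcongr
  · obtain ⟨t, ξ, a1, a2, a3⟩ := (o p y _ (hG.le L l)).2 u _ (mul_nonneg (by linarith [hG.one l]) t0)
      v s1 ((mul_le_mul_of_nonneg_right (e2 L l).1 t0).trans s) w
    have := mul_le_mul_of_nonneg_right (e1 L l) t0
    exact ⟨t, ξ, fun a => ⟨fun z => ((a1 a).1 z).trans (by simpa using (e2 L l).1),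
      fun z => ((a1 a).2 z).trans (by linarith)⟩, fun j => (a2 j).trans (e2 L l).1,
      fun q => (a3 q).trans (by linarith)⟩

theorem card_el (kk : Fin m → ℝ) : Fintype.card (N2.El kk) ≤ m * m :=
  (Fintype.card_subtype_le _).trans_eq (by simp)

end OrbNetA

open OrbNetA

theorem ofNet : OfNet := fun N S m k => by
  obtain ⟨h, hh, S⟩ := pack S m k
  obtain ⟨g, hg, F⟩ := frame m (m * m)
  obtain ⟨C₀, c0, N⟩ := N m (m * m)
  have g1 := (gr_pw c0).comp hh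
  obtain ⟨C, hC, e, S⟩ := S _ (hg.comp g1)
  refine ⟨C, hC, fun κ J _ _ kk B c lv f L θ => ?_⟩
  by_cases u : Fintype.card κ + Fintype.card J ≤ k ∧ Al kk B c lv 1 f L L θ ∧ (C * L) ^ C * θ ≤ 1
  swap
  · exact ⟨id, fun a b d => absurd ⟨a, b, d⟩ u⟩
  obtain ⟨b, c', fb, fw, bw⟩ := S κ J kk B c lv f L θ u.1 u.2.1 u.2.2
  obtain ⟨Ξ, N⟩ := N _ b θ
  have l := u.2.1.one
  have t0 := u.2.1.pos
  obtain ⟨n1, n2⟩ := N kk c' _ (card_el kk) fb.fr fb.one t0 fb.bc fb.bb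
  refine ⟨Ξ, fun _ _ _ => ⟨fun q v => ?_, fun p X x => ?_⟩⟩
  · have o : O b θ ((C₀ * h L) ^ C₀) (Ξ q) q := (n1 q).imp fun _ w =>
      ⟨fun a => (w.1 a).trans (g1.one l), w.2⟩
    have w := hg.le _ (g1.one l)
    have v' := (F _ kk b c' θ _ _ _ (card_el kk) (fb.mono ((gr_pw c0).le _ fb.one)) t0.le o).2.2
      (fun r => (v r).trans (g1.le L l))
      ((mul_le_mul_of_nonneg_right (w.trans (e L l)) t0.le).trans u.2.2)
    exact ⟨fun r => (v' r).trans (e L l), bw _ _ v' (o.mono t0.le w)⟩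
  · obtain ⟨T, a, d⟩ := n2 p (h X) (hh.mono _ _ l x)
    exact ⟨T, a.trans ((hg.le _ (g1.one (l.trans x))).trans (e X (l.trans x))),
      fun q n => (fw p q X x n).elim (d q)⟩

theorem ofJoin : OfJoin := fun S m k => by
  obtain ⟨h, hh, S⟩ := pack S m k
  obtain ⟨g, hg, F⟩ := frame m (m * m)
  obtain ⟨C, hC, -, S⟩ := S _ (hg.comp (hg.comp (hg.comp hh)))
  refine ⟨C, hC, fun κ J _ _ kk B c lv f L θ p p' y y' t hk a s v n n' bt vt => ?_⟩
  obtain ⟨b, c', fb, fw, bw⟩ := S κ J kk B c lv f L θ hk a s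
  have t0 := a.pos.le
  have F := fun X p y u => F _ kk b c' θ X p y (card_el kk) u t0
  have w1 := hg.le _ fb.one
  have w2 := hg.le _ (fb.mono w1).one
  have o1 := (F _ _ _ fb (fw y' y L le_rfl ⟨t, 0, bt,
    fun _ => by simpa using a.one.trans' zero_le_one, by simpa using vt⟩)).1
  exact bw _ _ (fun r => (v r).trans ((hg.comp (hg.comp (hg.comp hh))).le L a.one))
    ((F _ _ _ ((fb.mono w1).mono w2) ((F _ _ _ (fb.mono w1) ((fw p y L le_rfl n).mono t0 w1)).2.1 _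
      o1)).2.1 _ ((F _ _ _ fb (fw p' y' L le_rfl n')).1.mono t0 w2))

end Pool.Agent.MP_5168f5_an.QA.Ob
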