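import Pool.Agent.MP_5168f5_an.QA.OrbSpec
import Pool.Agent.MP_5168f5_an.QA.ChAlg
import Pool.Agent.MP_5168f5_an.AN.GACell

/-! The Kakeya maximal estimate: nets for the orbits of an exact frame. -/

namespace Pool.Agent.MP_5168f5_an.QA.Ob

open AN Matrix GA Ch
open N2 (tri)
open N6 (Eb)

namespace OrbNet0A

theorem fcnt {α ι : Type} [Fintype ι] (S : Set α) (x : α → ι → ℝ) {Y D : ℝ} (hY : 1 ≤ Y)
    (hD : 1 ≤ D) (hb : ∀ p ∈ S, ∀ i, |x p i| ≤ Y)
    (inj : ∀ p ∈ S, ∀ p' ∈ S, (∀ i, |x p i - x p' i| ≤ D⁻¹) → p = p') :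
    ∃ T : Finset α, (T.card : ℝ) ≤ (4 * (Y * D)) ^ Fintype.card ι ∧ ∀ p ∈ S, p ∈ T := by
  classical
  have d0 : 0 < D := by linarith
  have yd : 1 ≤ Y * D := one_le_mul_of_one_le_of_one_le hY hD
  let F : α → ι → ℤ := fun p i => ⌊x p i * D⌋
  let G := Fintype.piFinset fun _ : ι => Finset.Icc ⌊-(Y * D)⌋ ⌊Y * D⌋
  have mt : Set.MapsTo F S G := fun p hp =>
    Finset.mem_coe.2 (Fintype.mem_piFinset.2 fun i => by
      have h : |x p i * D| ≤ Y * D := by
        rw [abs_mul, abs_of_pos d0]; exact mul_le_mul_of_nonneg_right (hb p hp i) d0.le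
      exact Finset.mem_Icc.2 ⟨Int.floor_mono (abs_le.1 h).1, Int.floor_mono (abs_le.1 h).2⟩)
  have ij : Set.InjOn F S := fun p hp p' hp' h => inj p hp p' hp' fun i => by
    have := Int.abs_sub_lt_one_of_floor_eq_floor (congrFun h i)
    rw [← sub_mul, abs_mul, abs_of_pos d0, ← lt_div_iff₀ d0, one_div] at this
    exact this.le
  have fin := Set.Finite.of_injOn mt ij G.finite_toSet
  refine ⟨fin.toFinset, ?_, fun p hp => fin.mem_toFinset.2 hp⟩
  have c1 : fin.toFinset.card ≤ G.card := Finset.card_le_card_of_injOn F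
    (by rwa [fin.coe_toFinset]) (by rwa [fin.coe_toFinset])
  refine (Nat.cast_le.2 c1).trans ?_
  rw [Fintype.card_piFinset, Finset.prod_const, Finset.card_univ, Nat.cast_pow]
  exact pow_le_pow_left₀ (Nat.cast_nonneg _)
    ((GACellA.card_Icc (by linarith)).trans (by linarith)) _

/-- A bound for the action of a box. -/
def gg (m k : ℕ) (Y : ℝ) : ℝ := (m + 1) * eA m ((k + 1) * (Y * Y))

theorem gr_gg (m k : ℕ) : Gr (gg m k) :=
  (gr_lin m).comp ((gr_eA m).comp ((gr_lin k).comp (gr_id.mul gr_id)))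

variable {m k : ℕ} {κ : Type} [Fintype κ] {b : κ → Mt (Fin m)}

theorem act {kk : Fin m → ℝ} {c : κ → κ → κ → ℝ} {L Y δ : ℝ} (hk : Fintype.card κ ≤ k)
    (h : IsFr (tri kk) b c) (hb : ∀ a, Eb L (b a)) (hY : 1 ≤ Y) (e : L ≤ Y) {t : κ → ℝ}
    (ht : ∀ a, |t a| ≤ Y) {v : Fin m → ℝ} (h0 : 0 ≤ δ) (hv : ∀ q, |v q| ≤ δ) (r : Fin m) :
    |(ex b t *ᵥ v) r| ≤ gg m k Y * δ := by
  have k0 : (Fintype.card κ : ℝ) ≤ k := Nat.cast_le.2 hk
  have k1 : (0 : ℝ) ≤ k := Nat.cast_nonneg _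
  have y1 : 1 ≤ Y * Y := one_le_mul_of_one_le_of_one_le hY hY
  have y2 : 1 ≤ (k + 1) * (Y * Y) := by nlinarith
  have h1 := (exp_dec (h.mem t) y2 fun p q => by
    rw [GA.vec, Matrix.sum_apply]
    refine (Finset.abs_sum_le_sum_abs _ _).trans ((Finset.sum_le_card_nsmul _ _ (Y * Y)
      fun a _ => ?_).trans (by rw [nsmul_eq_mul, Finset.card_univ]; nlinarith))
    rw [Matrix.smul_apply, smul_eq_mul, abs_mul]
    exact mul_le_mul (ht a) ((hb a q p).trans e) (abs_nonneg _) (by linarith)).1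
  have h2 := (gr_eA m).one y2
  exact (mv_le h1 h0 fun q _ => hv q).trans
    (mul_le_mul_of_nonneg_right (by rw [gg]; linarith) h0)

/-- Two points that are close up to the unit box. -/
def Rl (b : κ → Mt (Fin m)) (η : ℝ) (q q' : Fin m → ℝ) : Prop := ∃ (t : κ → ℝ) (e e' : Fin m → ℝ),
  (∀ a, |t a| ≤ 1) ∧ (∀ r, |e r| ≤ η) ∧ (∀ r, |e' r| ≤ η) ∧ q' + e' = ex b t *ᵥ (q + e)

end OrbNet0A

open OrbNet0A in
theorem sNet0 : SNet0 := by
  intro m k
  obtain ⟨K, hK, H⟩ := sBox m k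
  have gA := gr_pw hK
  have gG := (gr_gg m k).comp gA
  have g1 := (gr_lin 1).comp (gr_gg m k)
  have g2 := ((gr_lin 3).comp (((gr_lin 2).comp (gG.mul gG)).mul ((gA.comp gA).mul gG))).pow (k + m)
  obtain ⟨C, hC, HC⟩ := (g1.mul g2).pb
  refine ⟨C, hC, fun κ _ b η => ⟨netc (Rl b η), fun kk c L hk h hL hη hc hb => ?_⟩⟩
  have M := sMul _ _ _ _ _ h
  have ng : ∀ {t : κ → ℝ} {Y : ℝ}, (∀ a, |t a| ≤ Y) → ∀ a, |(-t) a| ≤ Y := fun h a => by
    rw [Pi.neg_apply, abs_neg]; exact h a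
  have bk : ∀ t v, ex b t *ᵥ (ex b (-t) *ᵥ v) = v := fun t v => by
    rw [mulVec_mulVec, (M.neg t).2, one_mulVec]
  have sy : ∀ x y, Rl b η x y → Rl b η y x := by
    rintro x y ⟨t, e, e', h1, h2, h3, h4⟩
    exact ⟨-t, e', e, ng h1, h3, h2, by rw [h4, mulVec_mulVec, (M.neg t).1, one_mulVec]⟩
  obtain ⟨n1, n2⟩ := sNet _ (Rl b η) (fun x => ⟨0, 0, 0, by simp, by simpa using fun _ => hη.le,
    by simpa using fun _ => hη.le, by rw [M.zero, one_mulVec]⟩) sy
  refine ⟨fun q => ?_, fun p X hX => ?_⟩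
  · obtain ⟨t, e, e', h1, h2, h3, h4⟩ := n1 q
    refine ⟨t, h1, e - ex b (-t) *ᵥ e', fun r => ?_, by
      rw [← add_sub_assoc, mulVec_sub, bk, ← h4, add_sub_cancel_right]⟩
    have a := act hk h hb hL le_rfl (fun a => (ng h1 a).trans hL) hη.le h3 r
    have a1 := (gr_gg m k).one hL
    have a2 := (le_mul_of_one_le_right (zero_le_one.trans (g1.one hL)) (g2.one hL)).trans (HC L hL)
    push_cast at a2
    refine (abs_sub _ _).trans ?_
    nlinarith [h2 r]
  have X1 := hL.trans hX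
  have a2 := (le_mul_of_one_le_left (zero_le_one.trans (g2.one X1)) (g1.one X1)).trans (HC X X1)
  have a3 := gA.le X X1
  have id : ∀ Y, L ≤ Y → Idl c 1 1 Y := fun Y e a a' f => by simpa using (hc a a' f).trans e
  have bx : ∀ {t : κ → ℝ} {Y : ℝ}, Bx 1 Y t ↔ ∀ a, |t a| ≤ Y := by simp [Bx]
  have H1 := fun s t hs ht => bx.1 (H κ c 1 1 X 0 s t s t hk X1 le_rfl (by simp) M.anti (id X hX)
    (id X hX) hs ht hs ht).1
  push_cast at a2
  generalize (K * X) ^ K = A at *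
  have A1 := X1.trans a3
  have a4 := (gr_gg m k).le A A1
  have a5 := gA.one A1
  have ac := fun (t : κ → ℝ) v δ => act (t := t) (v := v) (δ := δ) hk h hb A1 (hX.trans a3)
  have H2 := fun s t s' t' ρ r0 => H κ c 1 1 A ρ s t s' t' hk A1 r0 (by simp) M.anti
    (id A (hX.trans a3)) (id A (hX.trans a3))
  generalize gg m k A = G at *
  generalize (K * A) ^ K = D at *
  have G1 := A1.trans a4
  have GG : G ≤ G * G := le_mul_of_one_le_left (by linarith) G1
  have DG : 1 ≤ D * G := one_le_mul_of_one_le_of_one_le a5 G1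
  have ex1 : ∀ z ∈ {z | ∃ q t, Orb b p X (X * η) t q ∧ netc (Rl b η) q = z},
      ∃ (u : κ → ℝ) (e : Fin m → ℝ), (∀ a, |u a| ≤ A) ∧ (∀ r, |e r| ≤ 3 * (G * G) * η) ∧
        z = ex b u *ᵥ (p + e) := by
    rintro _ ⟨q, t, ⟨t1, e, t2, t3⟩, rfl⟩
    obtain ⟨s, e0, e1, h1, h2, h3, h4⟩ := sy _ _ (n1 q)
    have u1 := H1 s t (bx.2 fun a => (h1 a).trans X1) (bx.2 t1)
    refine ⟨_, e + ex b (-bch m c s t) *ᵥ (ex b s *ᵥ e0 - e1), u1, fun r => ?_, ?_⟩
    · have := ac _ _ ((G + 1) * η) (ng u1) (by positivity) (fun r => (abs_sub _ _).trans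
        ((add_le_add (ac s e0 η (fun a => (h1 a).trans A1) hη.le h2 r) (h3 r)).trans_eq
          (by ring))) r
      refine (abs_add_le _ _).trans ((add_le_add (t2 r) this).trans ?_)
      nlinarith
    · rw [← add_assoc, mulVec_add, bk, show ex b (bch m c s t) = _ from (M.mul s t).symm,
        ← mulVec_mulVec, ← t3, ← add_sub_assoc, ← mulVec_add, ← h4, add_sub_cancel_right]
  choose! U E h1 h2 h3 using ex1
  obtain ⟨T, c1, c2⟩ := fcnt _ (fun z => Sum.elim (U z) fun r => E z r / η) (Y := 3 * (G * G))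
    (by linarith) DG (fun z hz i => by
      rcases i with a | r
      · exact (h1 z hz a).trans (by linarith)
      · rw [Sum.elim_inr, abs_div, abs_of_pos hη, div_le_iff₀ hη]; exact h2 z hz r)
    fun z hz z' hz' e => by
      have r0 : 0 ≤ (D * G)⁻¹ := by positivity
      have v := bx.1 ((H2 (U z) (-U z') (U z') (-U z') _ r0 (bx.2 (h1 z hz)) (bx.2 (ng (h1 z' hz')))
        (bx.2 (h1 z' hz')) (bx.2 (ng (h1 z' hz')))).2 (bx.2 fun a => e (.inl a)) (bx.2 fun a => by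
          simpa using r0))
      rw [show bch m c (U z') (-U z') = 0 from (M.inv _).2, sub_zero] at v
      have w : Rl b η z' z := ⟨_, ex b (U z') *ᵥ (E z - E z'), 0, fun a => (v a).trans (by
        rw [mul_inv, ← mul_assoc, mul_inv_cancel₀ (by linarith), one_mul]
        exact inv_le_one_of_one_le₀ G1), fun r => (ac _ _ ((D * G)⁻¹ * η) (h1 z' hz')
          (by positivity) (fun r => by
            have := e (.inr r)
            rwa [Sum.elim_inr, Sum.elim_inr, ← sub_div, abs_div, abs_of_pos hη,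
              div_le_iff₀ hη] at this) r).trans (by
          rw [← mul_assoc, mul_comm D, mul_inv, ← mul_assoc, mul_inv_cancel₀ (by linarith), one_mul]
          exact mul_le_of_le_one_left hη.le (inv_le_one_of_one_le₀ a5)),
        by simpa using fun _ => hη.le, by
          rw [add_zero, show ex b (bch m c (U z) (-U z')) = _ from (M.mul _ _).symm]
          nth_rw 1 [h3 z hz]
          nth_rw 2 [h3 z' hz']
          rw [← mulVec_add, mulVec_mulVec, mul_assoc, (M.neg _).1, mul_one]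
          congr 1
          abel⟩
      obtain ⟨q, -, -, rfl⟩ := hz
      obtain ⟨q', -, -, rfl⟩ := hz'
      exact (n2 _ _ w).symm
  refine ⟨T, c1.trans (le_trans ?_ a2), fun q t o => c2 _ ⟨q, t, o, rfl⟩⟩
  rw [Fintype.card_sum, Fintype.card_fin]
  norm_num only
  exact pow_le_pow_right₀ (by nlinarith) (by omega)

end Pool.Agent.MP_5168f5_an.QA.Ob
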