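import Pool.Agent.MP_5168f5_an.QA.P5Orb1
import Pool.Agent.MP_5168f5_an.QA.OrbLet
import Pool.Agent.MP_5168f5_an.QA.OrbNet
import Pool.Agent.MP_5168f5_an.QA.OrbNet0
import Pool.Agent.MP_5168f5_an.QA.OrbPg
import Pool.Agent.MP_5168f5_an.QA.OrbTay
import Pool.Agent.MP_5168f5_an.QA.OrbVh
import Pool.Agent.MP_5168f5_an.QA.P5Oa
import Pool.Agent.MP_5168f5_an.QA.P5Oc
import Pool.Agent.MP_5168f5_an.QA.P5BF
import Pool.Agent.MP_5168f5_an.QA.P5Clo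
import Pool.Agent.MP_5168f5_an.QA.FlAll

/-! The maximal estimate in all dimensions: the orbit step, closed. -/

namespace Pool.Agent.MP_5168f5_an.QA

theorem Ob.sLet : Ob.SLet := Ob.ofLet Ob.sPg
theorem Ob.sNet : Ob.SNet := Ob.ofNet Ob.sNet0 Ob.sLet
theorem Ob.sJoin : Ob.SJoin := Ob.ofJoin Ob.sLet

theorem P5.sOrb : P5.SOrb :=
  P5.ofOrb Ob.sNet Ob.sJoin (P5.ofOa Ob.sTay Ob.sPrt) (P5.ofOc P5.sBF Fl.rOut) P5.sClo

end Pool.Agent.MP_5168f5_an.QA
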