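import Mathlib

/-! The Kakeya maximal estimate: greedy elimination of vectors by weight. -/

namespace Pool.Agent.MP_5168f5_an.QA.Spl

open Finset

variable {κ ι : Type} [Fintype ι] (v : κ → ι → ℝ)

/-- The remainder of `v b` after subtracting a combination of the vectors in `I`. -/
noncomputable def rm (I : Finset κ) (b : κ) (t : κ → ℝ) : ι → ℝ := v b - ∑ a ∈ I, t a • v a

/-- The best coefficients. -/
noncomputable def co (I : Finset κ) (b : κ) : κ → ℝ :=
  Classical.epsilon fun t => ∀ t', ‖rm v I b t‖ ≤ ‖rm v I b t'‖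

/-- The distance of `v b` from the span of the vectors in `I`. -/
noncomputable def ds (I : Finset κ) (b : κ) : ℝ := ‖rm v I b (co v I b)‖

theorem ds_le (I : Finset κ) (b : κ) (t : κ → ℝ) : ds v I b ≤ ‖rm v I b t‖ := by
  refine Classical.epsilon_spec (p := fun t => ∀ t', ‖rm v I b t‖ ≤ ‖rm v I b t'‖) ?_ t
  let f : (κ → ℝ) →ₗ[ℝ] ι → ℝ := ∑ a ∈ I, (LinearMap.proj a).smulRight (v a)
  have e : ∀ t, f t = ∑ a ∈ I, t a • v a := fun t => by simp [f, LinearMap.sum_apply]
  obtain ⟨_, ⟨t, rfl⟩, h⟩ := (LinearMap.range f).closed_of_finiteDimensional.exists_infDist_eq_dist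
    ⟨0, zero_mem _⟩ (v b)
  refine ⟨t, fun t' => ?_⟩
  rw [rm, rm, ← e, ← e, ← dist_eq_norm, ← dist_eq_norm, ← h]
  exact Metric.infDist_le_dist_of_mem ⟨t', rfl⟩

variable {v} {rk : κ → ℕ} {L : ℝ}

/-- Vectors that are far from the span of the earlier ones are independent. -/
theorem ind [DecidableEq κ] (hr : Function.Injective rk) (hL : 1 ≤ L) (hv : ∀ a, ‖v a‖ ≤ L)
    (s : Finset κ) : (∀ b ∈ s, L⁻¹ ≤ ds v (s.filter fun a => rk a < rk b) b) →
    ∀ t : κ → ℝ, ∀ a ∈ s, |t a| ≤ (2 * L ^ 2) ^ s.card * ‖∑ a ∈ s, t a • v a‖ := by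
  induction s using Finset.induction_on_max_value rk with
  | empty => simp
  | insert b s hb hs ih =>
    intro h t a ha
    have lt : ∀ x ∈ s, rk x < rk b := fun x k =>
      (hs x k).lt_of_ne fun e => hb (hr e ▸ k)
    have L0 : 0 < L := by linarith
    have i1 := ih fun x k => by
      have := h x (mem_insert_of_mem k)
      rwa [filter_insert, if_neg (lt x k).not_gt] at this
    have i2 := h b (mem_insert_self _ _)
    rw [filter_insert, if_neg (lt_irrefl _), filter_true_of_mem lt] at i2
    rw [sum_insert hb, card_insert_of_notMem hb]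
    set w := ∑ a ∈ s, t a • v a with hw
    set η := ‖t b • v b + w‖
    have η0 : 0 ≤ η := norm_nonneg _
    have k1 : |t b| ≤ L * η := by
      rcases eq_or_ne (t b) 0 with z | z
      · rw [z, abs_zero]; positivity
      have := i2.trans (ds_le v s b fun a => -(t b)⁻¹ * t a)
      have e : t b • v b + w = t b • rm v s b fun a => -(t b)⁻¹ * t a := by
        rw [rm, smul_sub, smul_sum, hw, sub_eq_add_neg, ← sum_neg_distrib]
        refine congrArg _ (sum_congr rfl fun a _ => ?_)
        rw [smul_smul, ← neg_smul]; congr 1; field_simp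
      have e' : η = |t b| * ‖rm v s b fun a => -(t b)⁻¹ * t a‖ := by
        rw [show η = ‖t b • v b + w‖ from rfl, e, norm_smul, Real.norm_eq_abs]
      rw [inv_le_iff_one_le_mul₀ L0] at this
      nlinarith [abs_nonneg (t b)]
    have k2 : ‖w‖ ≤ 2 * L ^ 2 * η := by
      have : ‖w‖ ≤ η + ‖t b • v b‖ := by
        simpa using norm_sub_le (t b • v b + w) (t b • v b)
      rw [norm_smul, Real.norm_eq_abs] at this
      have := mul_le_mul k1 (hv b) (norm_nonneg _) (by positivity)
      nlinarith [mul_le_mul_of_nonneg_right (one_le_pow₀ hL (n := 2)) η0]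
    have p1 : (1 : ℝ) ≤ (2 * L ^ 2) ^ s.card := one_le_pow₀ (by nlinarith)
    rcases mem_insert.1 ha with rfl | ha
    · rw [pow_succ, mul_assoc]
      exact (k1.trans (mul_le_mul_of_nonneg_right (by nlinarith) η0)).trans
        (le_mul_of_one_le_left (by positivity) p1)
    · rw [pow_succ, mul_assoc]
      exact (i1 t a ha).trans (mul_le_mul_of_nonneg_left k2 (by positivity))

/-- The greedy set of a pattern. -/
theorem greedy [Fintype κ] [DecidableEq κ] (rk : κ → ℕ) (p : Finset κ → κ → Prop) :
    ∃ S : Finset κ, ∀ b, b ∈ S ↔ p (S.filter fun a => rk a < rk b) b := by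
  classical
  have : ∀ k, ∃ S : Finset κ, ∀ b, b ∈ S ↔ rk b < k ∧ p (S.filter fun a => rk a < rk b) b := by
    intro k
    induction k with
    | zero => exact ⟨∅, by simp⟩
    | succ k ih =>
      obtain ⟨S, h⟩ := ih
      let T := S ∪ univ.filter fun b => rk b = k ∧ p S b
      have e : ∀ j ≤ k, (T.filter fun a => rk a < j) = S.filter fun a => rk a < j := fun j hj => by
        ext a
        simp only [T, mem_filter, mem_union, mem_univ, true_and]
        exact ⟨fun ⟨u, w⟩ => ⟨u.resolve_right fun x => by omega, w⟩, fun ⟨u, w⟩ => ⟨.inl u, w⟩⟩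
      have e' : (S.filter fun a => rk a < k) = S := filter_true_of_mem fun a u => ((h a).1 u).1
      refine ⟨T, fun b => ⟨fun u => ?_, fun ⟨u, w⟩ => ?_⟩⟩
      · rcases mem_union.1 u with u | u
        · have := (h b).1 u
          exact ⟨by omega, by rw [e _ this.1.le]; exact this.2⟩
        · obtain ⟨-, x, y⟩ := mem_filter.1 u
          exact ⟨by omega, by rwa [x, e _ le_rfl, e']⟩
      · rw [e _ (by omega)] at w
        rcases (Nat.lt_succ_iff.1 u).lt_or_eq with x | x
        · exact mem_union_left _ ((h b).2 ⟨x, w⟩)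
        · exact mem_union_right _ (mem_filter.2 ⟨mem_univ _, x, by rwa [x, e'] at w⟩)
  obtain ⟨S, h⟩ := this (univ.sup rk + 1)
  exact ⟨S, fun b => (h b).trans (and_iff_right (Nat.lt_succ_of_le (le_sup (mem_univ b))))⟩

/-- A rank that lists the heavy indices first. -/
theorem ex_rk [Fintype κ] (μ : κ → ℝ) :
    ∃ rk : κ → ℕ, Function.Injective rk ∧ ∀ a b, rk a < rk b → μ b ≤ μ a := by
  classical
  obtain ⟨e, he⟩ := Countable.exists_injective_nat κ
  let f : κ → ℝ ×ₗ ℕ := fun a => toLex (-μ a, e a)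
  have hf : Function.Injective f := fun a b h => he (congrArg (fun x => (ofLex x).2) h)
  have m : ∀ a b, f a < f b → #{x | f x < f a} < #{x | f x < f b} := fun a b h =>
    card_lt_card ⟨fun x u => by simpa using (mem_filter.1 u).2.trans h,
      fun u => by simpa using u (mem_filter.2 ⟨mem_univ a, h⟩)⟩
  refine ⟨fun a => #{x | f x < f a}, fun a b h => hf ?_, fun a b h => ?_⟩
  · rcases lt_trichotomy (f a) (f b) with u | u | u
    exacts [((m a b u).ne h).elim, u, ((m b a u).ne' h).elim]
  · by_contra k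
    exact h.not_gt (m b a (Prod.Lex.toLex_lt_toLex.2 (.inl (by simpa using k))))

/-- The coefficients of the best approximation are bounded. -/
theorem co_le [DecidableEq κ] (hr : Function.Injective rk) (hL : 1 ≤ L) (hv : ∀ a, ‖v a‖ ≤ L)
    {s : Finset κ} (h : ∀ b ∈ s, L⁻¹ ≤ ds v (s.filter fun a => rk a < rk b) b) (k : ℕ) (b a : κ)
    (ha : a ∈ s.filter fun a => rk a < k) :
    |co v (s.filter fun a => rk a < k) b a| ≤ (2 * L ^ 2) ^ s.card * (2 * L) := by
  have := ind hr hL hv (s.filter fun a => rk a < k) (fun x u => by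
    have := h x (mem_filter.1 u).1
    rwa [filter_filter, filter_congr fun y _ => and_iff_right_of_imp fun w =>
      w.trans (mem_filter.1 u).2]) (co v (s.filter fun a => rk a < k) b) a ha
  refine this.trans (mul_le_mul (pow_le_pow_right₀ (by nlinarith) (card_filter_le _ _)) ?_
    (norm_nonneg _) (by positivity))
  have d := ds_le v (s.filter fun a => rk a < k) b 0
  have e := norm_sub_le (v b) 
    (rm v (s.filter fun a => rk a < k) b (co v (s.filter fun a => rk a < k) b))
  simp only [rm, Pi.zero_apply, zero_smul, sum_const_zero, sub_zero, ds] at d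
  simp only [rm, sub_sub_cancel] at e
  linarith [hv b]

end Pool.Agent.MP_5168f5_an.QA.Spl
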