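import Pool.Agent.MP_5168f5_an.QA.SplR
import Pool.Agent.MP_5168f5_an.AN.GAAll

/-! The Kakeya maximal estimate: the stabiliser of a point, along sequences. -/

namespace Pool.Agent.MP_5168f5_an.QA.Spl

open H17F R4 AN AN.GA G39 Matrix Finset Filter H61Z

variable {κ ι α : Type} [Fintype κ] [Fintype ι] [DecidableEq ι]

section Map

variable {R S : Type} [CommRing R] [CommRing S] (f : R →+* S)

theorem vc_map (B : κ → Matrix ι ι R) (t : κ → R) :
    f.mapMatrix (vc B t) = vc (fun a => f.mapMatrix (B a)) fun a => f (t a) := by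
  ext p r
  simp [vc, Matrix.sum_apply]

theorem mv_map (X : Matrix ι ι R) (x : ι → R) (r : ι) :
    f ((X *ᵥ x) r) = (f.mapMatrix X *ᵥ fun r => f (x r)) r := f.map_mulVec X x r

omit [Fintype κ] in
theorem pr_map (μ : κ → ℝ) (σ : ℝ) (w : κ → R) (b : κ) :
    f (pr μ σ w b) = pr μ σ (fun a => f (w a)) b := by
  unfold pr; split_ifs <;> simp

omit [Fintype κ] in
theorem hm_map (μ : κ → ℝ) (c : κ → κ → κ → R) (a b e : κ) :
    f (hm μ c a b e) = hm μ (fun a b e => f (c a b e)) a b e := by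
  unfold hm; split_ifs <;> simp

variable [Algebra ℚ R] [Algebra ℚ S]

theorem ad_map (N : ℕ) (c : κ → κ → κ → R) (x w : κ → R) (e : κ) : f (Ad N c x w e) =
    Ad N (fun a b e => f (c a b e)) (fun a => f (x a)) (fun a => f (w a)) e := by
  have : ∀ k, (fun e => f ((br c x)^[k] w e)) =
      (br (fun a b e => f (c a b e)) fun a => f (x a))^[k] fun a => f (w a) := fun k => by
    induction k with
    | zero => rfl
    | succ k ih =>
      rw [Function.iterate_succ_apply', Function.iterate_succ_apply', ← ih]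
      exact funext (sMap κ R S f N c x _).1
  simp only [Ad, Finset.sum_apply, Pi.smul_apply, map_sum, map_rat_smul, ← this]

/-- The truncated exponential. -/
noncomputable def xp (N : ℕ) (X : Matrix ι ι R) : Matrix ι ι R :=
  ∑ i ∈ range (N + 1), (i.factorial : ℚ)⁻¹ • X ^ i

theorem xp_map (N : ℕ) (X : Matrix ι ι R) : f.mapMatrix (xp N X) = xp N (f.mapMatrix X) := by
  simp only [xp, map_sum, map_rat_smul, map_pow]

end Map

section Row

variable {Φ : Filt (Mt ι)} {B : κ → Mt ι} {c : κ → κ → κ → ℝ} {o τ : ι}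

theorem ex_eq (h : IsFr Φ B c) (t : κ → ℝ) : ex B t = xp Φ.N (vc B t) :=
  IsNilpotent.exp_eq_sum (Φ.pow_zero' (h.mem t))

omit [DecidableEq ι] [Fintype ι] in
theorem vec_zero {p r : ι} (h : ∀ a, B a p r = 0) (t : κ → ℝ) : vec B t p r = 0 := by
  simp [GA.vec, Matrix.sum_apply, h]

theorem ex_row (h : IsFr Φ B c) (ro : ∀ a r, B a o r = 0) (row : ∀ a r, r ≠ o → B a τ r = 0)
    (t : κ → ℝ) (r : ι) : ex B t o r = (1 : Mt ι) o r ∧ (r ≠ o → ex B t τ r = (1 : Mt ι) τ r) := by
  have a : ∀ i r, (vc B t ^ (i + 1)) o r = 0 := fun i r => by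
    rw [pow_succ', mul_apply]
    exact sum_eq_zero fun u _ => by rw [show vc B t o u = 0 from vec_zero (ro · u) t, zero_mul]
  have b : ∀ i, r ≠ o → (vc B t ^ (i + 1)) τ r = 0 := fun i k => by
    rw [pow_succ', mul_apply]
    refine sum_eq_zero fun u _ => ?_
    by_cases e : u = o
    · cases i
      · rw [pow_zero, e, one_apply_ne k.symm, mul_zero]
      · rw [e, a, mul_zero]
    · rw [show vc B t τ u = 0 from vec_zero (row · u e) t, zero_mul]
  rw [ex_eq h, xp, sum_range_succ']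
  exact ⟨by simp [Matrix.sum_apply, a], fun k => by simp [Matrix.sum_apply, b _ k]⟩

theorem ex_conj (h : IsFr Φ B c) (ro : ∀ a r, B a o r = 0) (row : ∀ a r, r ≠ o → B a τ r = 0)
    (t t' : κ → ℝ) {H : Mt ι} (h1 : ∀ r, H o r = 0) (h2 : ∀ r, r ≠ o → H τ r = 0) :
    (ex B t * H * ex B t') τ o = H τ o := by
  have a : ∀ r, (ex B t * H) τ r = (1 * H) τ r := fun r => by
    rw [mul_apply, mul_apply]
    refine sum_congr rfl fun u _ => ?_
    by_cases e : u = o
    · rw [e, h1, mul_zero, mul_zero]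
    · rw [(ex_row h ro row t u).2 e]
  rw [mul_apply, sum_eq_single o (fun u _ e => by rw [a, one_mul, h2 u e, zero_mul]) (by simp), a,
    one_mul, (ex_row h ro row t' o).1, one_apply_eq, mul_one]

end Row

/-- The data at one point. -/
structure Dt (ι κ α : Type) : Type where
  B : κ → Mt ι
  c : κ → κ → κ → ℝ
  q : ι → ℝ
  F : Mt ι
  F' : Mt ι
  t : κ → ℝ
  k : κ → ℝ
  A : α → κ → ℝ
  H : α → Mt ι
  y : ℕ → ι → ℝ
  χ : α → ℝ

/-- The hypotheses along a sequence. -/
structure Sq (M : ℕ → ℕ) (Φ : Filt (Mt ι)) (μ : κ → ℝ) (η : α → ℝ) (pos : κ → Prop) (o τ : ι)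
    (ta : κ) (D : ℕ → Dt ι κ α) : Prop where
  big : Big M
  live : ∀ a, pos a → 0 < μ a
  eq : ∀ᶠ n in UF, IsFr Φ (D n).B (D n).c ∧ (D n).F' * (D n).F = 1 ∧ (D n).y 0 = Pi.single o 1 ∧
    (∀ i, vec (D n).B ((D n).A i) = ex (D n).B (D n).k * (D n).H i * ex (D n).B (-(D n).k)) ∧
    Ch μ (D n).B o τ ta ∧ ∀ a r, (D n).B a o r = 0
  bB : ∀ a p r, OB M fun n => (D n).B a p r
  bc : ∀ a b e, OB M fun n => (D n).c a b e
  bq : ∀ r, OB M fun n => (D n).q r
  bF : ∀ p r, OB M fun n => (D n).F p r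
  bF' : ∀ p r, OB M fun n => (D n).F' p r
  bt : ∀ a, OB M fun n => (D n).t a
  bk : ∀ a, OB M fun n => (D n).k a
  bA : ∀ i a, OB M fun n => (D n).A i a
  bH : ∀ i p r, OB M fun n => (D n).H i p r
  bj : ∀ j r, OB M fun n => (D n).y j r
  bχ : ∀ i, OB M fun n => (D n).χ i
  fil : ∀ a b e, 0 < μ a → 0 < μ b → μ e < μ a + μ b → Neg M fun n => (D n).c a b e
  stab : ∀ a r, 0 < μ a → ¬pos a → Neg M fun n => ((D n).B a *ᵥ (D n).q) r
  com : ∀ a p r, 0 < μ a → Neg M fun n => cm ((D n).B a) (D n).F p r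
  dead : ∀ a, ¬0 < μ a ∨ μ a < 0 → Neg M fun n => (D n).t a
  orb : ∀ r, Neg M fun n => (ex (D n).B (D n).k *ᵥ Pi.single o 1 -
    ex (D n).B (D n).t *ᵥ ((D n).F *ᵥ (D n).q)) r
  low : ∀ i a, ¬0 < μ a ∨ μ a < η i → Neg M fun n => (D n).A i a
  jet : ∀ i j r, Neg M fun n => ((D n).H i *ᵥ (D n).y j - (D n).χ i • (D n).y (j + 1)) r
  ind : ∀ t : ℕ → κ → ℝ, (∀ a, OB M fun n => t n a) → (∀ n a, ¬pos a → t n a = 0) →
    (∀ r, Neg M fun n => (vec (D n).B (t n) *ᵥ (D n).q) r) → ∀ a, Neg M fun n => t n a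

theorem Sq.out {M : ℕ → ℕ} {Φ : Filt (Mt ι)} {μ : κ → ℝ} {η : α → ℝ} {pos : κ → Prop} {o τ : ι}
    {ta : κ} {D : ℕ → Dt ι κ α} (h : Sq M Φ μ η pos o τ ta D) :
    (∀ a b e, 0 < μ a → 0 < μ b → ¬pos a → ¬pos b → pos e → Neg M fun n => (D n).c a b e) ∧
    (∀ i i' b, pos b → Neg M fun n => pr μ (η i) ((D n).A i) b * pr μ (η i') ((D n).A i') ta -
      pr μ (η i') ((D n).A i') b * pr μ (η i) ((D n).A i) ta) ∧
    ∀ w : Wd α, 2 ≤ w.len → ∀ b, pos b →
      Neg M fun n => w.ev (br (hm μ (D n).c)) (fun i => pr μ (η i) ((D n).A i)) b := by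
  classical
  have hM := h.big
  let _ : Algebra ℚ (OO hM) := (((Pi.constRingHom ℕ ℝ).codRestrict (OO hM)
    fun x => ob_const hM x).comp (algebraMap ℚ ℝ)).toAlgebra
  let π : OO hM →+* OO hM ⧸ ng hM := Ideal.Quotient.mk _
  let ev : ℕ → OO hM →+* ℝ := fun n => (Pi.evalRingHom (fun _ => ℝ) n).comp (OO hM).subtype
  have hz : ∀ x : OO hM, π x = 0 ↔ Neg M fun n => ev n x := fun x =>
    Ideal.Quotient.eq_zero_iff_mem
  have hq : ∀ (x y : OO hM) {u : ℕ → ℝ}, Neg M u → (∀ᶠ n in UF, ev n x - ev n y = u n) →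
      π x = π y := fun x y u a e => by
    rw [← sub_eq_zero, ← map_sub, hz]
    exact a.congr (e.mono fun n k => by rw [map_sub, k])
  have hX : ∀ X Y : Matrix ι ι (OO hM), (∀ᶠ n in UF, (ev n).mapMatrix X = (ev n).mapMatrix Y) →
      π.mapMatrix X = π.mapMatrix Y := fun X Y e => by
    ext p r
    exact hq _ _ neg_zero (e.mono fun n k => sub_eq_zero.2 (congrFun (congrFun k p) r))
  let B : κ → Matrix ι ι (OO hM) := fun a p r => ⟨_, h.bB a p r⟩
  let c : κ → κ → κ → OO hM := fun a b e => ⟨_, h.bc a b e⟩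
  let q : ι → OO hM := fun r => ⟨_, h.bq r⟩
  let F : Matrix ι ι (OO hM) := fun p r => ⟨_, h.bF p r⟩
  let F' : Matrix ι ι (OO hM) := fun p r => ⟨_, h.bF' p r⟩
  let t : κ → OO hM := fun a => ⟨_, h.bt a⟩
  let k : κ → OO hM := fun a => ⟨_, h.bk a⟩
  let A : α → κ → OO hM := fun i a => ⟨_, h.bA i a⟩
  let H : α → Matrix ι ι (OO hM) := fun i p r => ⟨_, h.bH i p r⟩
  let y : ℕ → ι → OO hM := fun j r => ⟨_, h.bj j r⟩
  let χ : α → OO hM := fun i => ⟨_, h.bχ i⟩
  have hE : ∀ n (s : κ → OO hM), IsFr Φ (D n).B (D n).c →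
      (ev n).mapMatrix (xp Φ.N (vc B s)) = ex (D n).B fun a => ev n (s a) := fun n s e => by
    rw [xp_map, vc_map, ex_eq e]; rfl
  let K := xp Φ.N (vc B k)
  let p := fun r => π ((K *ᵥ y 0) r)
  have x1 : Ex μ pos (fun a => π.mapMatrix (B a)) (fun a b e => π (c a b e)) (fun r => π (q r))
      p := by
    refine ⟨fun a b => ?_, fun a b e u v w => (hz _).2 (h.fil a b e u v w), h.live,
      fun a u v => funext fun r => ?_, fun s u v => ?_, π.mapMatrix (xp Φ.N (vc B t)),
      π.mapMatrix (xp Φ.N (vc B (-t))), π.mapMatrix F, π.mapMatrix F', Φ.N, fun a => π ((-t) a),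
      funext fun r => ?_, ?_, fun a u => ?_, fun a u => ?_, fun w => ?_⟩
    · rw [cm, ← map_mul, ← map_mul, ← map_sub, ← vc_map]
      refine hX _ _ (h.eq.mono fun n e => ?_)
      rw [map_sub, map_mul, map_mul, vc_map]
      exact e.1.br a b
    · rw [← mv_map]
      exact (hz _).2 ((h.stab a r u v).congr (.of_forall fun n => mv_map _ _ _ _))
    · choose s' hs using fun a => Ideal.Quotient.mk_surjective (s a)
      let s₁ : κ → OO hM := fun a => if pos a then s' a else 0
      have e1 : s = fun a => π (s₁ a) := funext fun a => by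
        by_cases e : pos a
        · rw [← hs, show s₁ a = s' a from if_pos e]
        · rw [u a e, show s₁ a = 0 from if_neg e, map_zero]
      rw [e1] at v ⊢
      refine funext fun a => (hz _).2 (h.ind (fun n a => ev n (s₁ a)) (fun a => (s₁ a).2)
        (fun n a e => by rw [show s₁ a = 0 from if_neg e, map_zero]) (fun r => ?_) a)
      have := congrFun v r
      rw [← vc_map, ← mv_map, Pi.zero_apply, hz] at this
      exact this.congr (.of_forall fun n => by rw [mv_map, vc_map]; rfl)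
    · rw [mulVec_mulVec, ← map_mul, ← mv_map]
      refine hq _ _ (h.orb r) (h.eq.mono fun n e => ?_)
      rw [mv_map, mv_map, map_mul, hE n _ e.1, hE n _ e.1, ← mulVec_mulVec, ← e.2.2.1]
      rfl
    · rw [← map_mul, ← map_one π.mapMatrix]
      exact hX _ _ (h.eq.mono fun n e => by rw [map_mul, map_one]; exact e.2.1)
    · exact (hz _).2 (h.dead a u).neg
    · rw [← map_mul, ← map_mul]
      ext p r
      refine hq _ _ (h.com a p r u) (.of_forall fun n => ?_)
      exact congrArg₂ _ (congrFun (congrFun (map_mul (ev n).mapMatrix _ _) p) r)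
        (congrFun (congrFun (map_mul (ev n).mapMatrix _ _) p) r)
    · choose w' hw using fun a => Ideal.Quotient.mk_surjective (w a)
      rw [show w = fun a => π (w' a) from funext fun a => (hw a).symm, ← funext (ad_map π _ _ _ _),
        ← vc_map, ← vc_map, ← map_mul, ← map_mul]
      refine hX _ _ (h.eq.mono fun n e => ?_)
      rw [map_mul, map_mul, hE n _ e.1, hE n _ e.1, vc_map, vc_map, funext (ad_map (ev n) _ _ _ _)]
      have := (sAd ι κ Φ _ _ e.1).1 (-(D n).t) fun a => ev n (w' a)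
      rw [neg_neg] at this
      exact this.symm
  have x2 : Ch μ (fun a => π.mapMatrix (B a)) o τ ta :=
    ⟨fun a r u => (hz _).2 (neg_ev (h.eq.mono fun n e => e.2.2.2.2.1.row a r u)),
      fun a => (hz _).2 (neg_ev (h.eq.mono fun n e => e.2.2.2.2.1.oo a)),
      (hq _ 1 neg_zero (h.eq.mono fun n e => sub_eq_zero.2 e.2.2.2.2.1.one)).trans (map_one π),
      fun a u v => (hz _).2 (neg_ev (h.eq.mono fun n e => e.2.2.2.2.1.zero a u v))⟩
  have x3 : Cv μ η (fun a => π.mapMatrix (B a)) (fun i a => π (A i a)) p o := by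
    refine ⟨fun i a u => (hz _).2 (h.low i a u), (hq _ 1 neg_zero (h.eq.mono fun n e => ?_)).trans
      (map_one π), fun j r => π ((K *ᵥ y j) r), fun i => π (χ i), fun _ => 1, rfl, fun i j => ?_⟩
    · rw [mv_map, hE n _ e.1, show (fun r => ev n (y 0 r)) = _ from e.2.2.1, mulVec_single_one,
        map_one, sub_eq_zero]
      exact ((ex_row (τ := o) e.1 e.2.2.2.2.2 (fun a r _ => e.2.2.2.2.2 a r) _ o).1).trans
        (one_apply_eq o)
    · have e1 : π.mapMatrix (vc B (A i) * K) = π.mapMatrix (K * H i) :=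
        hX _ _ (h.eq.mono fun n e => by
          rw [map_mul, map_mul, hE n _ e.1, vc_map]
          exact (congrArg (· * _) (e.2.2.2.1 i)).trans
            ((mul_assoc _ _ _).trans ((congrArg _ ((sMul _ _ Φ _ _ e.1).neg _).1).trans
              (mul_one _))))
      have e2 : π.mapMatrix (H i) *ᵥ (fun r => π (y j r)) = π (χ i) • fun r => π (y (j + 1) r) :=
        funext fun r => by
          rw [← mv_map, Pi.smul_apply, smul_eq_mul, ← map_mul]
          exact hq _ _ (h.jet i j r) (.of_forall fun n => by rw [mv_map, map_mul]; rfl)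
      beta_reduce
      rw [funext (mv_map π K _), funext (mv_map π K _), mulVec_mulVec, ← vc_map, ← map_mul, e1,
        map_mul, ← mulVec_mulVec, e2, mulVec_smul, mul_one]
  refine ⟨fun a b e u v w x z => (hz (c a b e)).1 (x1.sub u v w x z), fun i i' b u => ?_,
    fun w u b v => ?_⟩
  · have := x1.cur1 x2 x3 i i' b u
    simp only [← pr_map, ← map_mul, ← map_sub, hz] at this
    exact this.congr (.of_forall fun n => by simp only [map_sub, map_mul, pr_map]; rfl)
  · have := x1.cur2 x3 w u b v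
    simp only [← funext (pr_map π _ _ _), ← funext₃ (hm_map π μ c)] at this
    rw [← (sMap κ _ _ π 0 _ 0 0).2.2, hz] at this
    exact this.congr (.of_forall fun n => by
      rw [(sMap κ _ _ (ev n) 0 _ 0 0).2.2]; simp only [pr_map, hm_map]; rfl)

end Pool.Agent.MP_5168f5_an.QA.Spl
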