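import Pool.Agent.MP_5168f5_an.QA.SplA
import Pool.Agent.MP_5168f5_an.QA.SplS
import Pool.Agent.MP_5168f5_an.QA.SplE
import Pool.Agent.MP_5168f5_an.QA.FlIdl
import Pool.Agent.MP_5168f5_an.QA.FlDrop
import Pool.Agent.MP_5168f5_an.QA.FlNet

/-! The Kakeya maximal estimate: positions and stabiliser in a filtration. -/

namespace Pool.Agent.MP_5168f5_an.QA.Spl

open H19 H17S H17F R4 AN Filter Finset Matrix Fl
open GA (Mt IsFr vec ex cm br Neg Big1 ob_sum ob_mul ob_const ob_congr ob_neg neg_ev)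
open G39 (OB dl dl_inv dl_pos ob_of_le)
open PA (Pr sP sM)
open LC (Au Mo ex_le)

variable {ι κ α J : Type} [Fintype ι] [DecidableEq ι] [Fintype κ] [DecidableEq κ] [Fintype α]

section Sq

variable {M : ℕ → ℕ}

theorem ob_inv {f : ℕ → ℝ} (h : Big1 M f) : OB M fun n => (f n)⁻¹ := fun c hc =>
  (h c hc).mono fun n a => by rw [abs_inv]; exact inv_anti₀ (dl_pos M c n) a

omit [DecidableEq ι] in
theorem sq_ind (hM : Big M) {v : ℕ → κ → ι → ℝ} (hv : ∀ a r, OB M fun n => v n a r) {rk : κ → ℕ}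
    (hr : Function.Injective rk) {S : Finset κ}
    (h : ∀ b ∈ S, Big1 M fun n => ds (v n) (S.filter fun a => rk a < rk b) b) :
    (∀ k b, ∀ a ∈ S.filter fun a => rk a < k,
      OB M fun n => co (v n) (S.filter fun a => rk a < k) b a) ∧
    ∀ t : ℕ → κ → ℝ, (∀ r, Neg M fun n => (∑ a ∈ S, t n a • v n a) r) → ∀ a ∈ S,
      Neg M fun n => t n a := by
  obtain ⟨L, sL, e⟩ := GA.ob_bound hM (J := κ × ι ⊕ S) (f := fun j n => j.elim
    (fun j => v n j.1 j.2) fun b => (ds (v n) (S.filter fun a => rk a < rk b.1) b.1)⁻¹) fun j => by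
      rcases j with j | j
      exacts [hv _ _, ob_inv (h _ j.2)]
  have l1 : ∀ n a, ‖v n a‖ ≤ L n := fun n a =>
    (pi_norm_le_iff_of_nonneg (sL.pos n).le).2 fun r => e n (.inl (a, r))
  have l2 : ∀ᶠ n in UF, ∀ b ∈ S, (L n)⁻¹ ≤ ds (v n) (S.filter fun a => rk a < rk b) b :=
    (eventually_all_finset S).2 fun b hb => (h b hb 1 one_pos).mono fun n x => by
      have p := ((dl_pos M 1 n).trans_le x).trans_eq (abs_of_nonneg (norm_nonneg _))
      exact inv_le_of_inv_le₀ p ((le_abs_self _).trans (e n (.inr ⟨b, hb⟩)))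
  have s1 := ((sL.pow 2).const_mul hM one_le_two).pow S.card
  refine ⟨fun k b a ha => ob_of_le (s1.mul (sL.const_mul hM one_le_two)) (l2.mono fun n x =>
    co_le hr (sL.1 n) (l1 n) x k b a ha), fun t ht a ha => ?_⟩
  refine ((GA.Neg.sum hM univ fun r _ => (ht r).mono (.of_forall fun n => (abs_abs _).le)).mul'
    (ob_of_le s1 (.of_forall fun n => (abs_of_pos (s1.pos n)).le))).mono (l2.mono fun n x => ?_)
  refine (ind hr (sL.1 n) (l1 n) S x (t n) a ha).trans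
    ((mul_le_mul_of_nonneg_left ?_ (s1.pos n).le).trans (le_abs_self _))
  exact (pi_norm_le_iff_of_nonneg (sum_nonneg fun _ _ => abs_nonneg _)).2 fun r =>
    single_le_sum (f := fun r => |_|) (fun _ _ => abs_nonneg _) (mem_univ r)

omit [Fintype ι] [DecidableEq ι] [DecidableEq κ] in
theorem ob_vec (hM : Big M) (B : κ → Mt ι) {t : ℕ → κ → ℝ} (h : ∀ a, OB M fun n => t n a)
    (p r : ι) : OB M fun n => vec B (t n) p r := by
  simp only [GA.vec, Matrix.sum_apply, Matrix.smul_apply, smul_eq_mul]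
  exact ob_sum hM _ fun a _ => ob_mul hM (h a) (ob_const hM _)

end Sq

omit [Fintype ι] [DecidableEq ι] [DecidableEq κ] in
theorem vec_app (B : κ → Mt ι) (t : κ → ℝ) (p r : ι) : vec B t p r = ∑ a, t a * B a p r := by
  simp [GA.vec, Matrix.sum_apply]

omit [Fintype α] in
theorem pt {Ω Λ Θ Ξ : Type} {σ : Sg ι κ α} {b : Bd ι κ α Ω Θ Ξ} {d : Fd ι κ α Ω} {P : FP Ω}
    {O : Ω → Λ} {μ : κ → ℝ} {o τ : ι} {s u : ℝ} (fr : IsFr σ.Φ σ.B σ.c) (p : Pat σ o τ s)
    (h : Cm σ b d P O μ u) {ω : Ω} (x : ω ∈ P.S) : IsFr σ.Φ (d.B σ ω) (d.c σ ω) ∧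
    (∀ a r, d.B σ ω a o r = 0) ∧ (∀ a r, r ≠ o → d.B σ ω a τ r = 0) ∧
    (∀ a, s < μ a → d.B σ ω a τ o = 0) ∧
    ∀ i, vec (d.B σ ω) (d.A ω i) τ o = vec σ.B (b.H ω i) τ o := by
  have a := ((GA.sFr ι κ σ.Φ σ.B σ.c).2 _ _ (h.inv ω x)).1 fr
  have a1 : ∀ a r, d.B σ ω a o r = 0 := fun a r => vec_zero (p.ro · r) _
  have a2 : ∀ a r, r ≠ o → d.B σ ω a τ r = 0 := fun a r e => vec_zero (p.row · r e) _
  refine ⟨a, a1, a2, fun a e => (vec_app _ _ _ _).trans (sum_eq_zero fun e' _ => ?_), fun i => ?_⟩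
  · rcases lt_or_ge s (σ.m e') with k | k
    · rw [p.wt e' k, mul_zero]
    · rw [h.tri ω x a e' (k.trans_lt e), zero_mul]
  · rw [h.ad ω x i]
    exact ex_conj a a1 a2 _ _ (fun r => vec_zero (p.ro · r) _) fun r e => vec_zero (p.row · r e) _

variable {κ' : Type} {Ω Λ Θ Ξ : ℕ → Type} {σ : Sg ι κ α} {b : ∀ n, Bd ι κ α (Ω n) (Θ n) (Ξ n)}
  {K : (∀ n, Pr κ' (Ω n) (Λ n)) → Prop} {μ : κ → ℝ} {o τ : ι} {s : ℝ} {j₀ : J}
  {z : ∀ n, Od ι α J (Ω n)} {X₀ X : ∀ n, Pr κ' (Ω n) (Λ n)} {d₀ d : ∀ n, Fd ι κ α (Ω n)}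
  {γ : κ → ℕ} {Hs : Finset ℝ} {W : ℝ}

theorem Mb.obB (hM : Big (sM X)) (h : Mb σ b K μ o τ s j₀ z X₀ d₀ γ X d) {ω : ∀ n, Ω n}
    (x : ∀ᶠ n in UF, ω n ∈ (X n).P.S) (a : κ) (p r : ι) :
    OB (sM X) fun n => (d n).B σ (ω n) a p r :=
  ob_vec hM σ.B (fun e => au_ob h.mem.fl (x.mono fun _ y _ _ k => (k.bU _ y a e).1)) p r

theorem Mb.obv (hM : Big (sM X)) (h : Mb σ b K μ o τ s j₀ z X₀ d₀ γ X d) {ω : ∀ n, Ω n}
    (x : ∀ᶠ n in UF, ω n ∈ (X n).P.S) (a : κ) (r : ι) :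
    OB (sM X) fun n => ((d n).B σ (ω n) a *ᵥ (z n).q (ω n)) r :=
  ob_sum hM _ fun u _ => ob_mul hM (h.obB hM x a r u)
    (au_ob h.orb.ob (x.mono fun _ y _ _ k => ((k _ y).bd j₀ u u).2.2))

/-- The entry `(τ, o)` becomes a coordinate. -/
theorem Mb.one (hD : RDrop) (hN : RNet) (ok : σ.Ok Hs W) (hμ : ∀ a, μ a ∈ Hs) (hK : Cz K)
    (pa : Pat σ o τ s) (h : Mb σ b K μ o τ s j₀ z X₀ d₀ γ X d) : ∃ γ' X' d' ta,
    Mb σ b K μ o τ s j₀ z X₀ d₀ γ' X' d' ∧ μ ta = s ∧ 0 < s ∧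
    ∀ᶠ n in UF, ∀ ω ∈ (X' n).P.S, ∀ a, (d' n).B σ ω a τ o = if a = ta then 1 else 0 := by
  obtain ⟨γ, X, d, p, h, -, a⟩ := h.dich hD hN ok hμ hK fun (a : κ) B _ => B a τ o
  have hM := hK.big X h.mem.k
  have f := (h.mem.fl 1 one_pos 0).mono fun n x ω y => pt ok.fr pa x.toCm (ω := ω) y
  choose ω hω using fun n => ex_of_pb (P := (X n).P) (E := fun _ => True)
    (by rw [pb_true]; exact one_pos)
  have x : ∀ᶠ n in UF, ω n ∈ (X n).P.S := .of_forall fun n => (hω n).1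
  obtain ⟨ta, t1, t2⟩ : ∃ ta, μ ta = s ∧ ¬p ta := by
    by_contra c
    push Not at c
    have k : ∀ i, σ.η i = s → Neg (sM X) fun n => vec σ.B ((b n).H (ω n) i) τ o := fun i e => by
      refine (GA.Neg.sum hM univ (f := fun a n => (d n).A (ω n) i a * (d n).B σ (ω n) a τ o)
        fun a' _ => ?_).congr (f.mono fun n y => by rw [← (y _ (hω n).1).2.2.2.2, vec_app])
      rcases lt_trichotomy (μ a') s with u | u | u
      · exact (au_neg h.mem.fl (x.mono fun _ y _ _ k => k.low _ y i a' (e ▸ u))).mul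
          (h.obB hM x a' τ o)
      · exact (au_neg a (x.mono fun _ y _ _ k => (k _ y a').1 (c a' u))).mul'
          (au_ob h.mem.fl (x.mono fun _ y _ _ k => k.bA _ y i a'))
      · exact neg_ev (f.mono fun n y => by rw [(y _ (hω n).1).2.2.2.1 a' u, mul_zero])
    obtain ⟨n, ⟨y1, y2⟩, y3⟩ := (((h.jet 0 1 one_pos 0).and (eventually_all.2 fun i =>
      eventually_all.2 fun e => k i e 2)).and (hM.ev 1)).exists
    obtain ⟨i, e, y⟩ := (y1 _ (hω n).1).long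
    have := Real.exp_le_exp.1 (y.trans (y2 i e))
    linarith
  have s0 : 0 < s := by
    obtain ⟨n, y⟩ := (h.jet 0 1 one_pos 0).exists
    obtain ⟨i, e, -⟩ := (y _ (hω n).1).long
    exact e ▸ ok.eta i
  have ne : ∀ᶠ n in UF, ∀ ω ∈ (X n).P.S, (d n).B σ ω ta τ o ≠ 0 := (a 1 one_pos 0).mono
    fun n y ω u => abs_pos.1 ((Real.exp_pos _).trans_le ((y ω u ta).2 t2))
  have up : ∀ {a e : κ} {x : ℝ}, (a ≠ ta → s < μ a → x = 0) →
      ((1 : Matrix κ κ ℝ) a e + if e = ta then x else 0) ≠ 0 → Fl.Up μ γ a e :=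
    fun {a e x} u v => by
      by_cases k : a = e
      · exact k ▸ ⟨le_rfl, fun _ => le_rfl⟩
      rw [one_apply_ne k, zero_add, ite_ne_right_iff] at v
      exact v.1 ▸ ⟨t1 ▸ not_lt.1 fun w => v.2 (u (v.1 ▸ k) w), fun w => absurd (t1 ▸ w) s0.ne'⟩
  have sm : ∀ x : κ → ℝ, x ta ≠ 0 → ∀ a, ∑ e, ((1 : Matrix κ κ ℝ) a e +
      if e = ta then ((1 : Matrix κ κ ℝ) a ta - x a) * (x ta)⁻¹ else 0) * x e =
      (1 : Matrix κ κ ℝ) a ta := fun x k a => by
    simp [add_mul, sum_add_distrib, one_apply, k]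
  refine ⟨γ, X, _, ta, h.chg (fun a => (ok.bd _ (hμ a)).1) hM
    (fun B _ a e => (1 : Matrix κ κ ℝ) a e +
      if e = ta then ((1 : Matrix κ κ ℝ) a ta - B a τ o) * (B ta τ o)⁻¹ else 0)
    (fun B _ a e => (1 : Matrix κ κ ℝ) a e +
      if e = ta then B a τ o - (1 : Matrix κ κ ℝ) a ta else 0) ?_ fun ω x a' e => ?_, t1, s0, ?_⟩
  · filter_upwards [f, ne] with n y y' ω u
    refine ⟨?_, fun a e => ⟨up fun k k' => ?_, up fun k k' => ?_⟩⟩
    · ext a e
      rw [mul_apply]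
      by_cases k : e = ta
      · subst k
        simp only [if_true, add_sub_cancel]
        exact sm (fun a => (d n).B σ ω a τ o) (y' ω u) a
      · simp [k, one_apply]
    all_goals simp [one_apply_ne k, (y ω u).2.2.2.1 a k']
  · have i := ob_inv (au_big a (x.mono fun _ y _ _ k => (k _ y ta).2 t2))
    have j := ob_neg hM (h.obB hM x a' τ o)
    refine ⟨GA.ob_add hM (ob_const hM _) ?_, GA.ob_add hM (ob_const hM _) ?_⟩ <;> split_ifs
    exacts [ob_mul hM (GA.ob_add hM (ob_const hM _) j) i, ob_const hM _,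
      GA.ob_add hM (h.obB hM x a' τ o) (ob_const hM (-_)), ob_const hM _]
  · filter_upwards [ne] with n y ω u a
    rw [bas_B, GA.mB, vec_app]
    exact sm (fun a => (d n).B σ ω a τ o) (y ω u) a

/-- The stabiliser becomes a coordinate subspace. -/
theorem Mb.two (hD : RDrop) (hN : RNet) (ok : σ.Ok Hs W) (hμ : ∀ a, μ a ∈ Hs) (hK : Cz K)
    (pa : Pat σ o τ s) (h : Mb σ b K μ o τ s j₀ z X₀ d₀ γ X d) {ta : κ}
    (ch : ∀ᶠ n in UF, ∀ ω ∈ (X n).P.S, ∀ a, (d n).B σ ω a τ o = if a = ta then 1 else 0) :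
    ∃ γ' X' d', ∃ S : Finset κ, Mb σ b K μ o τ s j₀ z X₀ d₀ γ' X' d' ∧ (∀ a ∈ S, 0 < μ a) ∧
    (∀ᶠ n in UF, ∀ ω ∈ (X' n).P.S, ∀ a, (d' n).B σ ω a τ o = if a = ta then 1 else 0) ∧
    ∀ ω : ∀ n, Ω n, (∀ᶠ n in UF, ω n ∈ (X' n).P.S) → (∀ a r, 0 < μ a → ¬(a ∈ S ∨ a = ta) →
      Neg (sM X') fun n => ((d' n).B σ (ω n) a *ᵥ (z n).q (ω n)) r) ∧
      ∀ t : ℕ → κ → ℝ, (∀ a, OB (sM X') fun n => t n a) → (∀ n a, ¬(a ∈ S ∨ a = ta) → t n a = 0) →
        (∀ r, Neg (sM X') fun n => (vec ((d' n).B σ (ω n)) (t n) *ᵥ (z n).q (ω n)) r) →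
        ∀ a, Neg (sM X') fun n => t n a := by
  classical
  obtain ⟨γ, X, d, p, h, e, a⟩ := h.dich hD hN ok hμ hK
    fun (j : Finset κ × κ) B q => ds (fun a => B a *ᵥ q) j.1 j.2
  have hM := hK.big X h.mem.k
  replace ch : ∀ᶠ n in UF, ∀ ω ∈ (X n).P.S, ∀ a, (d n).B σ ω a τ o = if a = ta then 1 else 0 :=
    (ch.and e).mono fun n x ω u => (x.2 ω u).2 ▸ x.1 ω (x.2 ω u).1
  obtain ⟨rk, r1, r2⟩ := ex_rk μ
  obtain ⟨S, hS⟩ := greedy rk fun I b => 0 < μ b ∧ b ≠ ta ∧ ¬p (I, b)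
  let N : (κ → Mt ι) → (ι → ℝ) → Matrix κ κ ℝ := fun B q b a =>
    if (0 < μ b ∧ ¬(b ∈ S ∨ b = ta)) ∧ a ∈ S.filter fun a => rk a < rk b then
      co (fun a => B a *ᵥ q) (S.filter fun a => rk a < rk b) b a else 0
  have n1 : ∀ B q b a, N B q b a ≠ 0 → (0 < μ b ∧ ¬(b ∈ S ∨ b = ta)) ∧ a ∈ S ∧ rk a < rk b :=
    fun B q b a k => (ite_ne_right_iff.1 k).1.imp_right mem_filter.1
  have n2 : ∀ B q, N B q * N B q = 0 := fun B q => by
    ext a e
    refine sum_eq_zero fun x _ => ?_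
    by_contra k
    exact (n1 B q x e (right_ne_zero_of_mul k)).1.2 (.inl (n1 B q a x (left_ne_zero_of_mul k)).2.1)
  have up : ∀ B q a e, ((1 - N B q) a e ≠ 0 → Fl.Up μ γ a e) ∧
      ((1 + N B q) a e ≠ 0 → Fl.Up μ γ a e) := fun B q a e => by
    by_cases k : a = e
    · exact k ▸ ⟨fun _ => ⟨le_rfl, fun _ => le_rfl⟩, fun _ => ⟨le_rfl, fun _ => le_rfl⟩⟩
    have : N B q a e ≠ 0 → Fl.Up μ γ a e := fun k => ⟨r2 _ _ (n1 B q a e k).2.2,
      fun u => absurd u ((hS e).1 (n1 B q a e k).2.1).1.ne'⟩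
    simpa [one_apply_ne k] using this
  have sq := fun ω x => sq_ind hM (h.obv hM (ω := ω) x) r1 (S := S) fun b hb =>
    au_big a (x.mono fun _ y _ _ k => (k _ y (_, b)).2 ((hS b).1 hb).2.2)
  have nb : ∀ ω : ∀ n, Ω n, (∀ᶠ n in UF, ω n ∈ (X n).P.S) → ∀ a e,
      OB (sM X) fun n => N ((d n).B σ (ω n)) ((z n).q (ω n)) a e := fun ω x a e => by
    simp only [N]
    split_ifs with k
    exacts [(sq ω x).1 _ _ _ k.2, ob_const hM _]
  have vb : ∀ (B : κ → Mt ι) q a, GA.mB (1 - N B q) B a = B a - vec B (N B q a) := fun B q a => by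
    simp [GA.mB, GA.vec, sub_smul, one_apply]
  have v0 : ∀ (B : κ → Mt ι) q a, a ∈ S ∨ a = ta → GA.mB (1 - N B q) B a = B a := fun B q a k => by
    rw [vb, show N B q a = 0 from funext fun e => if_neg fun u => u.1.2 k]
    simp [GA.vec]
  have ts : ta ∉ S := fun k => ((hS ta).1 k).2.1 rfl
  have f := (h.mem.fl 1 one_pos 0).mono fun n x ω y => pt ok.fr pa x.toCm (ω := ω) y
  refine ⟨γ, X, _, S, h.chg (fun a => (ok.bd _ (hμ a)).1) hM (fun B q => 1 - N B q)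
    (fun B q => 1 + N B q) (.of_forall fun n ω _ => ⟨?_, up _ _⟩) fun ω x a e =>
      ⟨GA.ob_add hM (ob_const hM _) (ob_neg hM (nb ω x a e)),
        GA.ob_add hM (ob_const hM _) (nb ω x a e)⟩, fun a k => ((hS a).1 k).1,
    ch.mono fun n x ω u a => ?_, fun ω x => ⟨fun a' r u v => ?_, fun t t1 t2 t3 => ?_⟩⟩
  · rw [sub_mul, mul_add, mul_add, n2]
    simp
  · rw [bas_B, vb, Matrix.sub_apply, vec_app, x ω u a, sub_eq_self]
    refine sum_eq_zero fun e _ => ?_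
    by_contra k
    have := right_ne_zero_of_mul k
    rw [x ω u, ite_ne_right_iff] at this
    exact ts (this.1 ▸ (n1 _ _ _ _ (left_ne_zero_of_mul k)).2.1)
  · refine (au_neg a (x.mono fun _ y _ _ k => (k _ y (S.filter fun e => rk e < rk a', a')).1
      (by_contra fun c => v (.inl ((hS a').2 ⟨u, fun e => v (.inr e), c⟩))))).mono
      (.of_forall fun n => ?_)
    refine le_trans (le_of_eq ?_) ((norm_le_pi_norm _ r).trans (le_abs_self _))
    rw [bas_B, vb, sub_mulVec, show GA.vec ((d n).B σ (ω n)) = vc _ from rfl, vc_mulVec, rm,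
      Real.norm_eq_abs, ← sum_subset (subset_univ (S.filter fun e => rk e < rk a'))
      fun e _ k => by rw [show N _ _ a' e = 0 from if_neg fun c => k c.2, zero_smul],
      sum_congr rfl fun e k => by rw [show N _ _ a' e = _ from if_pos ⟨⟨u, v⟩, k⟩]]
  · have e1 : ∀ n, vec (((d n).bas (fun ω => 1 - N ((d n).B σ ω) ((z n).q ω))
        fun ω => 1 + N ((d n).B σ ω) ((z n).q ω)).B σ (ω n)) (t n) *ᵥ (z n).q (ω n) =
        t n ta • (d n).B σ (ω n) ta *ᵥ (z n).q (ω n) +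
          ∑ a ∈ S, t n a • (d n).B σ (ω n) a *ᵥ (z n).q (ω n) := fun n => by
      rw [bas_B, show GA.vec (GA.mB _ _) = vc _ from rfl, vc_mulVec, ← sum_insert
        (f := fun a => t n a • (d n).B σ (ω n) a *ᵥ (z n).q (ω n)) ts, ← sum_subset
        (subset_univ (insert ta S)) fun e _ k => by
          rw [t2 n e fun c => k (mem_insert.2 c.symm), zero_smul]]
      exact sum_congr rfl fun e k => by rw [v0 _ _ e (mem_insert.1 k).symm]
    simp only [e1] at t3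
    have e2 : Neg (sM X) fun n => t n ta := by
      refine ((t3 τ).sub hM ((au_neg h.orb.ob (x.mono fun _ y _ _ k => (k _ y).qo)).mul'
        (t1 ta))).congr ?_
      filter_upwards [x, f, ch] with n y y1 y2
      have : ∀ a, ((d n).B σ (ω n) a *ᵥ (z n).q (ω n)) τ =
          (if a = ta then 1 else 0) * (z n).q (ω n) o := fun a => by
        rw [← y2 _ y a, mulVec, dotProduct, sum_eq_single o
          (fun r _ k => by rw [(y1 _ y).2.2.1 a r k, zero_mul]) (by simp)]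
      rw [Pi.add_apply, Finset.sum_apply, sum_eq_zero fun a k => by
        rw [Pi.smul_apply, this, if_neg (ne_of_mem_of_not_mem k ts), zero_mul, smul_zero],
        Pi.smul_apply, this, if_pos rfl, smul_eq_mul]
      ring
    intro a'
    by_cases k : a' ∈ S
    · exact (sq ω x).2 t (fun r => ((t3 r).sub hM (e2.mul (h.obv hM x ta r))).congr
        (.of_forall fun n => by simp)) a' k
    by_cases k' : a' = ta
    · exact k' ▸ e2
    · exact neg_ev (.of_forall fun n => t2 n a' fun c => c.elim k k')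

theorem sSpl_of (hD : RDrop) (hN : RNet) : SSpl := by
  intro ι κ α κ' J _ _ _ _ _ _ Ω Λ Θ Ξ σ b K Hs W μ γ o τ s j₀ z X₀ d₀ ok hμ hK m pa j1 j2
  obtain ⟨γ, X, d, ta, h, t1, s0, ch⟩ := Mb.one hD hN ok hμ hK pa
    ⟨m, j1, j2, .of_forall fun _ => Fn.rfl _, .of_forall fun _ _ x => ⟨x, rfl⟩⟩
  obtain ⟨γ, X, d, S, h, lv, ch, g⟩ := h.two hD hN ok hμ hK pa ch
  have hM := hK.big X h.mem.k
  have := Di.ne_om (sP X)
  have f := (h.mem.fl 1 one_pos 0).mono fun n x ω y => pt ok.fr pa x.toCm (ω := ω) y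
  have lv' : ∀ a, a ∈ S ∨ a = ta → 0 < μ a := fun a k => k.elim (lv a) fun e => by rwa [e, t1]
  have h0 : ∀ a, ¬0 < μ a → μ a = 0 := fun a k => le_antisymm (not_lt.1 k) (ok.bd _ (hμ a)).1
  obtain ⟨u, w, a1, a2⟩ := au_ex hM h.orb.ob
  let ψ := fun n (t : Ω n → κ → ℝ) u w => ∀ ω ∈ (X n).P.S, (∀ a, |t ω a| ≤ Real.exp u ∧
    (μ a = 0 → |t ω a| ≤ Real.exp (-w))) ∧ ∀ r, |(ex ((d n).B σ ω) ((d n).k ω) *ᵥ Pi.single o 1 -
    ex ((d n).B σ ω) (t ω) *ᵥ ((z n).F ω j₀ *ᵥ (z n).q ω)) r| ≤ Real.exp (-w)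
  obtain ⟨t, ht⟩ := ev_ex (p := fun n t => ψ n t (u n) (w n)) (fun _ _ => 0) (a2.mono fun n x =>
    ⟨fun ω => Classical.epsilon _, fun ω y => Classical.epsilon_spec (x ω y).orb⟩)
  have at' : Au (sM X) fun n => ψ n (t n) :=
    au_of a1 (fun n _ _ _ _ a e x ω y => ⟨fun i => ((x ω y).1 i).imp (·.trans (ex_le a))
      fun p q => (p q).trans (ex_le (neg_le_neg e)),
      fun r => ((x ω y).2 r).trans (ex_le (neg_le_neg e))⟩) ht
  have key := fun (ω : ∀ n, Ω n) (x : ∀ᶠ n in UF, ω n ∈ (X n).P.S) => Sq.out (M := sM X)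
    (Φ := σ.Φ) (μ := μ) (η := σ.η) (pos := fun a => a ∈ S ∨ a = ta) (o := o) (τ := τ) (ta := ta)
    (D := fun n => ⟨(d n).B σ (ω n), (d n).c σ (ω n), (z n).q (ω n), (z n).F (ω n) j₀,
      (z n).F' (ω n), t n (ω n), (d n).k (ω n), (d n).A (ω n), fun i => vec σ.B ((b n).H (ω n) i),
      (z n).y (ω n), (z n).χ (ω n)⟩)
    { big := hM
      live := lv'
      eq := by
        filter_upwards [x, f, ch, a2, h.jet 0 1 one_pos 0, h.mem.fl 1 one_pos 0]
          with n y y1 y2 y3 y4 y5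
        exact ⟨(y1 _ y).1, (y3 _ y).inv, (y4 _ y).y0, y5.ad _ y, ⟨(y1 _ y).2.2.1,
          fun a => (y1 _ y).2.1 a o, (y2 _ y ta).trans (if_pos rfl),
          fun e _ k => (y2 _ y e).trans (if_neg k)⟩, (y1 _ y).2.1⟩
      bB := h.obB hM x
      bc := fun a a' e => au_ob h.mem.fl (x.mono fun _ y _ _ k => k.bc _ y a a' e)
      bq := fun r => au_ob h.orb.ob (x.mono fun _ y _ _ k => ((k _ y).bd j₀ r r).2.2)
      bF := fun p r => au_ob h.orb.ob (x.mono fun _ y _ _ k => ((k _ y).bd j₀ p r).1)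
      bF' := fun p r => au_ob h.orb.ob (x.mono fun _ y _ _ k => ((k _ y).bd j₀ p r).2.1)
      bt := fun a => au_ob at' (x.mono fun _ y _ _ k => ((k _ y).1 a).1)
      bk := fun a => au_ob h.mem.fl (x.mono fun _ y _ _ k => k.bk _ y a)
      bA := fun i a => au_ob h.mem.fl (x.mono fun _ y _ _ k => k.bA _ y i a)
      bH := fun i => ob_vec hM σ.B fun a => au_ob (h.mem.bf 0 (by norm_num) le_rfl)
        (x.mono fun _ y _ _ k => (k.bH _ y i a).1)
      bj := fun j r => au_ob (h.jet j) (x.mono fun _ y _ _ k =>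
        ((k _ y).bd r (k _ y).long.choose).1)
      bχ := fun i => au_ob (h.jet 0) (x.mono fun _ y _ _ k => ((k _ y).bd o i).2)
      fil := fun a a' e p q r => au_neg h.mem.fl (x.mono fun _ y _ _ k =>
        k.fil _ y a a' e (.inl ⟨p, q, r⟩))
      stab := (g ω x).1
      com := fun a p r q => au_neg h.orb.ob (x.mono fun _ y _ _ k => (k _ y).com a j₀ p r q)
      dead := fun a q => au_neg at' (x.mono fun _ y _ _ k => ((k _ y).1 a).2
        (h0 a fun c => q.elim (· c) c.not_gt))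
      orb := fun r => au_neg at' (x.mono fun _ y _ _ k => (k _ y).2 r)
      low := fun i a q => au_neg h.mem.fl (x.mono fun _ y _ _ k => k.low _ y i a
        (q.elim (fun c => (h0 a c).trans_lt (ok.eta i)) id))
      jet := fun i j r => au_neg (h.jet j) (x.mono fun _ y _ _ k => (k _ y).sh i r)
      ind := (g ω x).2 }
  have e1 : ∀ c : κ → κ → κ → ℝ, Cp.hc μ c = hm μ c := fun c => by
    funext a a' e
    unfold Cp.hc hm Cp.Hw
    congr
  refine ⟨γ, X, d, fun a => a ∈ S ∨ a = ta, ta, h.mem, h.jet, h.orb, ⟨lv', .inr rfl, t1,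
    fun _ _ T => ?_, fun v hv _ _ T => ?_⟩, h.fT, h.rel⟩
  · filter_upwards [f, ch, eventually_all.2 fun a => eventually_all.2 fun r => eventually_all.2
      fun p => eventually_all.2 fun q => Di.sq_neg (f := fun n ω => ((d n).B σ ω a *ᵥ (z n).q ω) r)
        (fun ω x => (g ω x).1 a r p q) T,
      eventually_all.2 fun a => eventually_all.2 fun a' => eventually_all.2 fun e =>
      eventually_all.2 fun p => eventually_all.2 fun p' => eventually_all.2 fun q =>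
      eventually_all.2 fun q' => eventually_all.2 fun r =>
        Di.sq_neg (f := fun n ω => (d n).c σ ω a a' e)
          (fun ω x => (key ω x).1 a a' e p p' q q' r) T,
      eventually_all.2 fun i => eventually_all.2 fun i' => eventually_all.2 fun a =>
      eventually_all.2 fun p => Di.sq_neg (f := fun n ω =>
        pr μ (σ.η i) ((d n).A ω i) a * pr μ (σ.η i') ((d n).A ω i') ta -
        pr μ (σ.η i') ((d n).A ω i') a * pr μ (σ.η i) ((d n).A ω i) ta)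
        (fun ω x => (key ω x).2.1 i i' a p) T]
      with n y1 y2 y3 y4 y5 ω y
    have v : ∀ t, vec ((d n).B σ ω) t τ o = t ta := fun t => by simp [vec_app, y2 ω y]
    refine ⟨y2 ω y, fun i => (v _).symm.trans ((y1 ω y).2.2.2.2 i), fun a a' => ?_,
      fun a r p q => y3 a r p q ω y, fun a a' e p p' q q' r => y4 a a' e p p' q q' r ω y,
      fun i i' a p => y5 i i' a p ω y⟩
    have m : ∀ a a', ((d n).B σ ω a * (d n).B σ ω a') τ o = 0 := fun a a' =>
      sum_eq_zero fun r _ => by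
        by_cases k : r = o
        · exact mul_eq_zero_of_right _ (k ▸ (y1 ω y).2.1 a' o)
        · exact mul_eq_zero_of_left ((y1 ω y).2.2.1 a r k) _
    rw [← v ((d n).c σ ω a a'), ← (y1 ω y).1.br, cm, Matrix.sub_apply, m, m, sub_zero]
  · filter_upwards [eventually_all.2 fun a => eventually_all.2 fun p =>
      Di.sq_neg (f := fun n ω => v.ev (br (hm μ ((d n).c σ ω)))
        (fun i => pr μ (σ.η i) ((d n).A ω i)) a) (fun ω x => (key ω x).2.2 v hv a p) T]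
      with n y ω x a p
    rw [e1]
    exact y a p ω x

theorem sSpl : SSpl := sSpl_of (ofDrop rIdl) (ofNet rIdl)

end Pool.Agent.MP_5168f5_an.QA.Spl
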