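import Pool.Agent.MP_5168f5_an.QA.P5Fb
import Pool.Agent.MP_5168f5_an.QA.P5Acw
import Pool.Agent.MP_5168f5_an.QA.OrbVh
import Pool.Agent.MP_5168f5_an.QA.Spl

/-! The maximal estimate in all dimensions: the adapted basis. -/

namespace Pool.Agent.MP_5168f5_an.QA.P5

open H19 H17S H17F R4 AN Filter Finset Matrix IsNilpotent
open GA (Mt ex vec cm)
open N6 (Eb)
open LC (Au Mo ex_le)
open PA (sP sM)
open Lt Vh Fl

variable {N D m : ℕ} {π : Pa m}

namespace SplH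

theorem pw {k : ℕ} {u w : ℝ} {ξ : Fin N → ℝ} {f : Fin N → Mt (Fin m)} (hu : 1 ≤ u)
    (a : (∑ j, ξ j • f j) ^ k = 0) (b : ∀ j, |ξ j| ≤ Real.exp u) (c : ∀ j, Eb (Real.exp u) (f j)) :
    let C : ℝ := (2 * k + 2 : ℕ) * ((2 * (m + 1) + k : ℕ) + N + 2)
    Eb (Real.exp (C * u)) (exp (∑ j, ξ j • f j)) ∧ Eb (Real.exp (C * u)) (exp (-∑ j, ξ j • f j)) ∧
      ∀ Y, (∀ j, Eb (Real.exp (-w)) (cm Y (f j))) →
        Eb (Real.exp (-(w - C * u))) (cm Y (exp (∑ j, ξ j • f j))) := by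
  intro C
  obtain ⟨W, hW⟩ : ∃ W, W = Real.exp (((2 * (m + 1) + k : ℕ) + N + 2) * u) := ⟨_, rfl⟩
  have n0 : (0 : ℝ) ≤ N := Nat.cast_nonneg _
  have k0 : (0 : ℝ) ≤ (2 * (m + 1) + k : ℕ) := Nat.cast_nonneg _
  have w1 : ((2 * (m + 1) + k : ℕ) : ℝ) ≤ W := hW ▸ le_trans (by nlinarith) (Real.add_one_le_exp _)
  have w2 : (N : ℝ) * (Real.exp u * Real.exp u) ≤ W := by
    rw [hW, ← Real.exp_add, show ((2 * (m + 1) + k : ℕ) + N + 2) * u =
      ((2 * (m + 1) + k : ℕ) + N) * u + (u + u) by ring, Real.exp_add _ (u + u)]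
    exact mul_le_mul_of_nonneg_right (le_trans (by nlinarith) (Real.add_one_le_exp _))
      (Real.exp_pos _).le
  have w3 : W ^ (2 * k + 1) * W = Real.exp (C * u) := by
    rw [← _root_.pow_succ, hW, ← Real.exp_nat_mul, ← mul_assoc]
  have w4 : W ^ (2 * k + 1) ≤ Real.exp (C * u) :=
    w3 ▸ le_mul_of_one_le_right (pow_nonneg (k0.trans w1) _) (one_le w1)
  have x : Eb W (∑ j, ξ j • f j) := eb_mono (eb_lin b c) (by rwa [Fintype.card_fin])
  refine ⟨eb_mono (nil_le w1 a x) w4, eb_mono (nil_le w1 (by rw [neg_pow, a, mul_zero]) (eb_neg x))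
    w4, fun Y y => eb_mono (nil_cm (θ := W * Real.exp (-w)) w1
      (mul_nonneg (k0.trans w1) (Real.exp_pos _).le) a x ?_)
      (by rw [← mul_assoc, w3, ← Real.exp_add]; exact ex_le (by linarith))⟩
  have : cm (∑ j, ξ j • f j) Y = -∑ j, ξ j • cm Y (f j) := by
    simp only [cm, sum_mul, mul_sum, smul_mul_assoc, mul_smul_comm, smul_sub, sum_sub_distrib,
      neg_sub]
  rw [this]
  refine eb_neg (eb_mono (eb_lin b y) ?_)
  rw [Fintype.card_fin, ← mul_assoc]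
  refine mul_le_mul_of_nonneg_right (le_trans ?_ w2) (Real.exp_pos _).le
  exact mul_le_mul_of_nonneg_left (le_mul_of_one_le_left (Real.exp_pos _).le
    (Real.one_le_exp (by linarith))) n0

/-- A class with additional sure facts. -/
theorem pay {κ' : Type} {Ω Λ : ℕ → Type} {K : (∀ n, PA.Pr κ' (Ω n) (Λ n)) → Prop} (h : Cz K)
    (ψ : ∀ n, Ω n → ℝ → ℝ → Prop) (hm : ∀ n ω, Mo (ψ n ω)) :
    Cz fun X => K X ∧ Au (sM X) fun n u w => ∀ ω ∈ (X n).P.S, ψ n ω u w :=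
  ⟨h.cf.and (LC.cf_au (S := fun n => PA.Pr κ' (Ω n) (Λ n)) (fun _ z => z.M)
      (fun n z u w => ∀ ω ∈ z.P.S, ψ n ω u w) fun n _ _ _ _ _ a b c ω x => hm n ω _ _ _ _ a b (c ω x)),
    fun X e a b c => ⟨h.idx X e a b c.1, c.2.unit (cmp_idx (h.big X c.1) 0 a)
      fun n _ _ _ _ a b c ω x => hm n ω _ _ _ _ a b (c ω x)⟩,
    fun X G c g => ⟨h.res X G c.1 g, fun e he T => (c.2 e he T).mono fun _ a ω x => a ω (cE_sub x)⟩,
    fun X c => h.big X c.1, fun X c => h.nest X c.1⟩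

end SplH

open SplH in
theorem splH_of (hB : SBr) (hF : SBF) (hO : SOk) (h2 : AB.SL2) (h3 : AB.SL3) : SSpl := by
  intro N D m π Hs W μ γ Z q ok hμ h co ob
  have big := h.m4.ts.big
  unfold Com Al at co
  have l1 := h.m4.l1
  have l2 := h2 _ _ _ _ _ _ _ _ _ _ _ _ _ _ _ _ _ _ _ _ _ h.m4.ts h.m4.fm.toMI l1
  have l3 := h3 _ _ _ _ _ _ _ _ _ _ _ _ _ _ _ _ _ _ _ _ h.m4.ts.toTq h.m4.fm.toMI h.m4.hb l1 l2
  have bf := hF N D m π _ h.m4
  obtain ⟨K, cz, k0, hK⟩ := hB N D m π _ h.m4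
  obtain ⟨u, w, a1, a2⟩ := au_ex big ob.nb
  let χ := fun n (ξ : (Z n).X.Ω → Fin N → ℝ) u w => ∀ ω ∈ (Z n).X.P.S, (∀ j, |ξ ω j| ≤ Real.exp u) ∧
    ∃ t, Ob.Bo (fun a => 0 < μ a) 1 (Real.exp u) (Real.exp (-w)) t ∧ Ob.Vb (Real.exp (-w))
      ((Z n).pt ω - ex ((Z n).B ω) t *ᵥ (exp (∑ j, ξ ω j • (Z n).ph ω j) *ᵥ q n ω))
  obtain ⟨ξ, hξ⟩ := ev_ex (p := fun n ξ => χ n ξ (u n) (w n)) (fun _ _ => 0) (a2.mono fun n x => by
    choose! t ξ b1 b2 b3 using fun ω y => (x ω y).2.2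
    exact ⟨ξ, fun ω y => ⟨b2 ω y, t ω, fun a => by simpa using b1 ω y a, b3 ω y⟩⟩)
  have aξ : Au (uu (sX Z)) fun n => χ n (ξ n) := au_of a1 (fun n _ _ _ _ a e x ω y =>
    ⟨fun j => ((x ω y).1 j).trans (ex_le a), (x ω y).2.imp fun t b => ⟨fun i =>
      ⟨fun c => ((b.1 i).1 c).trans (mul_le_mul_of_nonneg_right (ex_le a) zero_le_one),
        fun c => ((b.1 i).2 c).trans (ex_le (neg_le_neg e))⟩,
      vb_mono b.2 (ex_le (neg_le_neg e))⟩⟩) hξ
  have nil : ∀ᶠ n in UF, ∀ ω ∈ (Z n).X.P.S, (∑ j, ξ n ω j • (Z n).ph ω j) ^ (D + 1) = 0 := by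
    obtain ⟨Γ, -, dB⟩ := h.m4.fm.dB
    filter_upwards [h.m4.ph, h.m4.fm.sp, dB, h.fl 1 one_pos 0, bf 0 (by norm_num) le_rfl 1 one_pos 0]
      with n x y z f g ω s
    have e := ((((Ob.sTay N D m _ _ (y ω s)).2 _ (x ω s).2.2).2 (dg_li (z ω s)
      fun _ => Real.exp_pos _)).2.2 (ξ n ω)).1
    have i := (GA.sMul _ _ _ _ _ (((GA.sFr _ _ _ _ _).2 _ _ (f.inv ω s)).1 ok.fr)).neg ((Z n).d.k ω)
    have : ∑ j, ξ n ω j • (Z n).ph ω j = ex ((Z n).B ω) ((Z n).d.k ω) *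
        (∑ j, ξ n ω j • (((Z n).F.J ω)⁻¹ * (Z n).φ ω j * (Z n).F.J ω)) *
        ex ((Z n).B ω) (-(Z n).d.k ω) := by
      rw [mul_sum, sum_mul]
      refine sum_congr rfl fun j _ => ?_
      rw [Mb.ph, Mb.G, Fd.G, Matrix.mul_inv_rev, Matrix.inv_eq_left_inv (show ex ((Z n).B ω) _ *
        ex ((Z n).B ω) (-(Z n).d.k ω) = 1 from i.2)]
      simp only [mul_smul_comm, smul_mul_assoc, mul_assoc]
      rfl
    rw [this]
    exact (Units.conj_pow ⟨_, _, i.2, i.1⟩ _ _).trans (by rw [e, mul_zero, zero_mul])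
  let z : ∀ n, Spl.Od (Fin m) (N2.El π.la) (Option (Fin N)) (Z n).X.Ω := fun n =>
    ⟨fun ω j => j.elim (exp (∑ j, ξ n ω j • (Z n).ph ω j)) ((Z n).ph ω),
      fun ω => exp (-∑ j, ξ n ω j • (Z n).ph ω j), q n,
      fun ω j => if j = 0 then Pi.single π.o 1 else AB.jet (Z n).X (Z n).F ω j,
      fun ω i => AB.lt π.la ((Z n).A ω) i π.τ π.o⟩
  let ψ := fun n (ω : (Z n).X.Ω) (u w : ℝ) => (∀ j, |ξ n ω j| ≤ Real.exp u) ∧
    ∀ j p q, ¬π.kk q < π.kk p → |(Z n).ph ω j p q| ≤ Real.exp (-w)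
  obtain ⟨γ', X', d', pos, t, m1, -, o1, out, -, rel⟩ := Spl.sSpl _ _ _ _ _ _ _ _ _ π.σ
    (fun n => (Z n).bd) _ Hs W μ γ π.o π.τ lg none z (fun n => (Z n).pr) (fun n => (Z n).d) ok hμ
    (pay cz ψ fun n ω _ _ _ _ a e x => ⟨fun j => (x.1 j).trans (ex_le a),
      fun j p q y => (x.2 j p q y).trans (ex_le (neg_le_neg e))⟩)
    ⟨⟨k0, fun c hc T => ((aξ c hc T).and (co c hc T)).mono fun n x ω y =>
      ⟨(x.1 ω y).1, fun j p q => (x.2 ω y j p q).2.1⟩⟩, bf, h.fl⟩ (hO m π h.m4.fm.ko).2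
    (fun j c hc T => by
      filter_upwards [l1.mem, h.m4.vecH, l2.long c hc, l3.bd c hc, l3.zero (T + 1), l3.r6 (T + 1),
        G39.big_dl big π.C hc, G39.big_dl big (m * π.C + 1) one_pos] with n x y b1 b2 b3 b4 b5 b6 ω s
      have e0 : G39.dl (uu (sX Z)) (T + 1) n * (m * π.C + 1) ≤ Real.exp (-(T * (Z n).X.u)) := by
        rw [G39.dl_add, mul_assoc]
        exact mul_le_of_le_one_right (G39.dl_pos _ _ _).le
          ((le_inv_mul_iff₀ (G39.dl_pos _ _ _)).1 (by rwa [mul_one]))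
      rw [G39.dl_inv] at b5
      refine ⟨(b1 ω s).imp fun a e => ⟨?_, (y ω s a).symm ▸ e⟩, by simp [z], fun r i =>
        ⟨?_, ((x ω s i).2.2.2 _ _).1.trans b5⟩, fun i r => ?_⟩
      · have := (((x ω s a).2.2.2 _ _).2 (abs_pos.1 ((Real.exp_pos _).trans_le e))).2
        rw [h.m4.fm.lo, h.m4.fm.lτ, sub_zero] at this
        exact this.symm
      · simp only [z]
        split_ifs
        · exact le_trans (by rw [Pi.single_apply]; split_ifs <;> simp)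
            (Real.one_le_exp (by positivity))
        · exact b2 ω s j r
      · have p := G39.dl_pos (uu (sX Z)) (T + 1) n
        have c0 : 0 ≤ π.C := (abs_nonneg _).trans ((x ω s i).2.2.2 r r).1
        have c1 : 0 ≤ m * π.C := by positivity
        have := b4 ω s i j r
        simp only [z, y ω s i, if_neg j.succ_ne_zero]
        split_ifs with e
        · have k := vb_mv (fun q p => ((x ω s i).2.2.2 p q).1) p.le (v := Pi.single π.o 1 -
            AB.jet (Z n).X (Z n).F ω 0) (fun q => by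
              rw [Pi.sub_apply, abs_sub_comm, Pi.single_apply, ← one_apply]; exact b3 ω s q) r
          rw [mulVec_sub, Pi.sub_apply] at k
          subst e
          exact ((abs_sub_le _ _ _).trans (add_le_add k this)).trans (le_trans (le_of_eq (by
            rw [mul_add, mul_one, mul_comm])) e0)
        · exact this.trans (le_trans (by nlinarith) e0))
    ⟨ob.fn, au_lin big (au_and co (au_and aξ ob.nb)) (fun _ => Spl.mo_ob)
      (C := (2 * (D + 1) + 2 : ℕ) * ((2 * (m + 1) + (D + 1) : ℕ) + N + 2))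
      (one_le_mul_of_one_le_of_one_le (by exact_mod_cast (by omega)) (by
        linarith [Nat.cast_nonneg (α := ℝ) (2 * (m + 1) + (D + 1)), Nat.cast_nonneg (α := ℝ) N]))
      (nil.mono fun n x u w u1 w1 y ω s => by
        obtain ⟨b1, t, b2, b3⟩ := y.2.1 ω s
        obtain ⟨c1, c2, c3⟩ := pw (w := w) u1 (x ω s) b1 fun j q p => (y.1 ω s j p q).1
        have C1 : (1 : ℝ) ≤ (2 * (D + 1) + 2 : ℕ) * ((2 * (m + 1) + (D + 1) : ℕ) + N + 2) :=
          one_le_mul_of_one_le_of_one_le (by exact_mod_cast (by omega)) (by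
            linarith [Nat.cast_nonneg (α := ℝ) (2 * (m + 1) + (D + 1)), Nat.cast_nonneg (α := ℝ) N])
        generalize (2 * (D + 1) + 2 : ℕ) * ((2 * (m + 1) + (D + 1) : ℕ) + N + 2 : ℝ) = C at *
        have m0 : 0 ≤ C * uu (sX Z) n := by positivity
        have e1 : Real.exp u ≤ Real.exp (C * u) := ex_le (by nlinarith)
        have e2 : Real.exp (-w) ≤ Real.exp (-(w - C * (u + uu (sX Z) n))) := ex_le (by nlinarith)
        refine ⟨exp_neg_mul_exp_self ⟨_, x ω s⟩, fun j p r => ⟨?_, c2 r p,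
          ((y.2.2 ω s).2.1 r).trans e1⟩, (y.2.2 ω s).1.trans e2, fun a j p r e => ?_, t, fun a =>
          ⟨?_, fun e => ((b2 a).2 e.not_gt).trans e2⟩, fun r => (b3 r).trans e2⟩
        · cases j
          exacts [c1 r p, (y.1 ω s _ p r).1.trans e1]
        · cases j
          exacts [(c3 _ (fun j q p => (y.1 ω s j p q).2.2 a e) r p).trans
            (ex_le (neg_le_neg (sub_le_sub_left (mul_le_mul_of_nonneg_left
              (le_add_of_nonneg_right (Nat.cast_nonneg _)) (by linarith)) w))),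
            ((y.1 ω s _ p r).2.2 a e).trans e2]
        · by_cases e : 0 < μ a
          · exact (((b2 a).1 e).trans_eq (mul_one _)).trans e1
          · exact ((b2 a).2 e).trans (ex_le (by nlinarith)))⟩
  obtain ⟨P, u', lv, S, s, j, p1, p2, p3⟩ := hK X' m1.k.1
  let Z' : ℕ → Mb N D π := fun n => ⟨(Z n).toBs.sub (P n) (u' n) (lv n) (S n) (s n) (j n), d' n⟩
  have tr : ∀ {φ : ∀ n, (Z n).X.Ω → ℝ → ℝ → Prop},
      (Au (sM X') fun n u w => ∀ ω ∈ (X' n).P.S, φ n ω u w) → Al Z' φ := fun a c hc T => by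
    filter_upwards [a c hc T, p3] with n x y
    simp only [sM] at x
    rw [y] at x
    exact x
  have ph : ∀ᶠ n in UF, ∀ ω ∈ (P n).S, (Z' n).ph ω = (Z n).ph ω := by
    filter_upwards [rel, p3] with n x y ω s
    rw [y] at x
    funext j
    rw [Mb.ph, show (Z' n).G ω = (Z n).G ω from (x ω s).2]
    rfl
  refine ⟨γ', Z', q, pos, t, unp p1 p2 p3 m1.fl, fun c hc T => ?_, ⟨?_, fun c hc T => ?_⟩,
    out.live, out.tau, out.wt, fun c hc T => ?_, fun v hv => tr (out.cur v hv)⟩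
  · filter_upwards [ph, tr o1.ob c hc T, tr m1.k.2 c hc T] with n x y y' ω s j p r
    rw [x ω s]
    exact ⟨((y ω s).bd (some j) p r).1, (y' ω s).2 j p r, fun a e => (y ω s).com a (some j) p r e⟩
  · filter_upwards [o1.fq, p3] with n x y
    simp only [sP] at x
    rw [y] at x
    exact x
  · filter_upwards [ph, tr o1.ob c hc T, tr m1.k.2 c hc T] with n x y y' ω s
    obtain ⟨t, b1, b2⟩ := (y ω s).orb
    refine ⟨(y ω s).qo, fun p => ((y ω s).bd none p p).2.2, t, ξ n ω, fun a =>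
      ⟨fun _ => by simpa using (b1 a).1, fun e => (b1 a).2
        (le_antisymm (not_lt.1 e) (ok.bd _ (hμ a)).1)⟩, (y' ω s).1, ?_⟩
    rw [x ω s]
    exact b2
  · exact (tr out.sp c hc T).mono fun n x ω s =>
      let k := x ω s; ⟨k.chB, k.chA, k.chi, k.stab, k.sub, k.cur⟩

end Pool.Agent.MP_5168f5_an.QA.P5
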