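import Pool.Agent.MP_5168f5_an.QA.Main1
import Pool.Agent.MP_5168f5_an.QA.P5All
import Pool.Agent.MP_5168f5_an.QA.P5OrbAll
import Pool.Agent.MP_5168f5_an.QA.P5SplH
import Pool.Agent.MP_5168f5_an.QA.AbL2
import Pool.Agent.MP_5168f5_an.QA.AbL3
import Pool.Agent.MP_5168f5_an.QA.Os47B
import Pool.Agent.MP_5168f5_an.QA.CpAll

/-! The maximal estimate in all dimensions: the entropy statement. -/

namespace Pool.Agent.MP_5168f5_an.QA

theorem sP5 : SP5 :=
  P5.sp5_of3 P5.sOrb (P5.splH_of P5.sBr P5.sBF P5.sOk AB.sL2 AB.sL3) Os.sOrbs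

theorem muK (N : ℕ) : MX.MuK N := muK_end (end_of sP5 Cp.noPG) N

end Pool.Agent.MP_5168f5_an.QA
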