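import Pool.Agent.MP_5168f5_an.QA.HEL

/-! All blocks of the sum of independent branching variables. -/

namespace Pool.Agent.MP_5168f5_an.QA

open H19 H17S H17F MX Filter

namespace HBlA

variable {Ω : Type}

/-- The conditional mean. -/
noncomputable def hat (φ : Ω → ℤ) (e : FP Ω × (Ω → ℝ)) : FP Ω × (Ω → ℝ) :=
  (e.1, fun a => (cv e.1 φ (φ a)).E e.2)

theorem hat_E (φ : Ω → ℤ) (e : FP Ω × (Ω → ℝ)) : (hat φ e).1.E (hat φ e).2 = e.1.E e.2 :=
  (KEA.exp e.1 φ fun _ => e.2).symm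

theorem tower (φ : Ω → ℤ) (p : FP Ω × (Ω → ℝ) → Prop) (l : List (FP Ω × (Ω → ℝ))) {h g : ℝ → ℝ}
    (hp : ∀ e ∈ l, ∀ a ∈ e.1.S, p (cv e.1 φ (φ a), e.2))
    (H : ∀ l' : List (FP Ω × (Ω → ℝ)), l'.length = l.length → (∀ e ∈ l', p e) →
      EL l' h ≤ g (mn l')) : EL l h ≤ EL (l.map (hat φ)) g := by
  induction l generalizing h g with
  | nil => exact H [] rfl fun _ a => absurd a List.not_mem_nil
  | cons e l ih =>
    refine (KEA.exp e.1 φ fun _ ω => EL l fun u => h (e.2 ω + u)).trans_le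
      (e.1.E_mono fun a ha => ?_)
    rw [← EL_E]
    refine ih (fun e' b => hp e' (List.mem_cons_of_mem _ b)) fun l' b c => ?_
    rw [EL_E]
    have := H ((cv e.1 φ (φ a), e.2) :: l') (by simp [b])
      (List.forall_mem_cons.2 ⟨hp e List.mem_cons_self a ha, c⟩)
    rwa [mn_cons] at this

theorem rng (l : List (FP Ω × (Ω → ℝ))) {h : ℝ → ℝ} {w C : ℝ}
    (hw : ∀ e ∈ l, ∀ ω ∈ e.1.S, |e.2 ω - e.1.E e.2| ≤ w)
    (H : ∀ u, |u - mn l| ≤ l.length * w → h u ≤ C) : EL l h ≤ C := by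
  induction l generalizing h with
  | nil => exact H 0 (by simp [mn_nil])
  | cons e l ih =>
    refine (e.1.E_mono fun ω hω => ih (fun e' b => hw e' (List.mem_cons_of_mem _ b))
      fun u a => H _ ?_).trans_eq (e.1.E_const C)
    have b := abs_le.1 (hw e List.mem_cons_self ω hω)
    rw [mn_cons, List.length_cons, Nat.cast_succ, abs_le]
    constructor <;> linarith [b.1, b.2, (abs_le.1 a).1, (abs_le.1 a).2]

theorem mean {Q : FP Ω} {X : Ω → ℝ} {x w : ℝ} (h : ∀ b ∈ Q.S, |X b - x| ≤ w) :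
    |Q.E X - x| ≤ w := by
  have a1 := (Q.E_mono fun b hb => (abs_sub_le_iff.1 (h b hb)).1).trans_eq (Q.E_const w)
  have a2 := (Q.E_mono fun b hb => (abs_sub_le_iff.1 (h b hb)).2).trans_eq (Q.E_const w)
  rw [FP.E_sub, FP.E_const] at a1 a2
  exact abs_sub_le_iff.2 ⟨a1, a2⟩

variable (z : Ω → ℝ) (Bd : ℕ → Prop) (t m : ℕ)

/-- The law branches at the good levels. -/
def Ok (r c : ℕ) (e : FP Ω × (Ω → ℝ)) : Prop :=
  (e.2 = z ∨ e.2 = -z) ∧ ∀ i < r, ¬Bd (c + i * t ^ 2) → Br e.1 z (c + i * t ^ 2) m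

/-- The law lives on one node. -/
def Cn (c : ℕ) (Q : FP Ω) : Prop := ∀ a ∈ Q.S, ∀ b ∈ Q.S, fl1 c (z a) = fl1 c (z b)

variable {z Bd t m} {r c : ℕ} {e : FP Ω × (Ω → ℝ)} {Q : FP Ω} {a : Ω}

theorem cn_cv (ha : a ∈ Q.S) : Cn z c (cv Q (fun ω => fl1 c (z ω)) (fl1 c (z a))) :=
  fun u hu v hv => ((mem_cv ha u).1 hu).2.trans ((mem_cv ha v).1 hv).2.symm

theorem Ok.kid (h : Ok z Bd t m r c e) (ha : a ∈ e.1.S) :
    Ok z Bd t m r c (cv e.1 (fun ω => fl1 c (z ω)) (fl1 c (z a)), e.2) := by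
  refine ⟨h.1, fun i hi b v hv => ?_⟩
  obtain ⟨v1, v2⟩ := (mem_cv ha v).1 hv
  refine le_of_eq_of_le ?_ (h.2 i hi b v v1)
  exact congrArg (pb · _) ((cE_cE (E' := fun u => fl1 (c + i * t ^ 2) (z u) = _)
    ⟨v, v1, v2, rfl⟩).trans (cE_congr fun u _ =>
      and_iff_right_of_imp fun k => (fl1_eq_of_le (Nat.le_add_right _ _) k).trans v2))

theorem near {X : Ω → ℝ} (h : X = z ∨ X = -z) (k : Cn z c Q) (ha : a ∈ Q.S) :
    |X a - Q.E X| ≤ (2 ^ c)⁻¹ := (abs_sub_comm _ _).trans_le <| mean fun b hb => by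
  have := (abs_sub_lt_of_fl1_eq (k b hb a ha)).le
  rcases h with rfl | rfl
  · exact this
  · rwa [Pi.neg_apply, Pi.neg_apply, neg_sub_neg, abs_sub_comm]

open Classical in
theorem claim (hS : SSt) {κ : ℕ} (y : ℝ) (ht : 1 ≤ t) (hk : κ + m + 3 + 2 * t = t ^ 2) (r c : ℕ)
    (l : List (FP Ω × (Ω → ℝ))) (hl : l.length = 4 ^ κ)
    (h : ∀ e ∈ l, Ok z Bd t m r c e ∧ Cn z c e.1) :
    EL l (fun u => Real.exp (-(|u - y| * 2 ^ (c + r * t ^ 2) / 2 ^ κ))) ≤ (Real.exp (2 ^ κ) *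
      ∏ i ∈ Finset.range r, if Bd (c + i * t ^ 2) then (4 : ℝ) else
        2 ^ (m + 6 * t + 10) / 2 ^ t ^ 2) * Real.exp (-(|mn l - y| * 2 ^ c / 2 ^ κ)) := by
  have hw : ∀ e ∈ l, ∀ ω ∈ e.1.S, |e.2 ω - e.1.E e.2| ≤ (2 ^ c)⁻¹ := fun e he ω hω =>
    near (h e he).1.1 (h e he).2 hω
  induction r generalizing c l with
  | zero =>
    refine rng l hw fun u hu => ?_
    rw [Finset.prod_range_zero, mul_one, ← Real.exp_add, Real.exp_le_exp, zero_mul, add_zero]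
    rw [hl, ← div_eq_mul_inv, le_div_iff₀ (by positivity), show 4 ^ κ = 2 ^ κ * 2 ^ κ by
      rw [← mul_pow]; rfl, Nat.cast_mul, ← div_le_iff₀ (by positivity)] at hu
    have : |mn l - y| * 2 ^ c / 2 ^ κ ≤ (|u - mn l| + |u - y|) * 2 ^ c / 2 ^ κ := by
      gcongr; linarith [abs_sub_le (mn l) u y, abs_sub_comm u (mn l)]
    rw [add_mul, add_div] at this
    push_cast at hu
    linarith
  | succ r ih =>
    set φ : Ω → ℤ := fun ω => fl1 (c + t ^ 2) (z ω)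
    have k : ∀ i, c + (i + 1) * t ^ 2 = c + t ^ 2 + i * t ^ 2 := fun i => by ring
    rw [k, Finset.prod_range_succ', ← mul_assoc, mul_assoc, zero_mul, add_zero]
    simp only [k]
    refine (tower φ (fun e => Ok z Bd t m r (c + t ^ 2) e ∧ Cn z (c + t ^ 2) e.1) l
      (g := fun u => _ * Real.exp (-(|u - y| * 2 ^ (c + t ^ 2) / 2 ^ κ))) (fun e he a ha =>
        ⟨Ok.kid ⟨(h e he).1.1, fun i hi => k i ▸ (h e he).1.2 _ (by omega)⟩ ha, cn_cv ha⟩)
      fun l' a b => ih _ l' (a.trans hl) b fun e he _ => near (b e he).1.1 (b e he).2).trans ?_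
    rw [EL_mul]
    refine mul_le_mul_of_nonneg_left ?_ (mul_nonneg (Real.exp_pos _).le
      (Finset.prod_nonneg fun i _ => by split_ifs <;> positivity))
    have s := hS (l.map (hat φ)) (2 ^ c)⁻¹ y κ t m (by positivity) ht hk (by simpa using hl) (by
      simp only [List.forall_mem_map]
      exact fun e he ω hω => hat_E φ e ▸ mean fun b hb => hw e he b ((mem_cv hω b).1 hb).1)
    have e1 : mn (l.map (hat φ)) = mn l := by simp only [mn, List.map_map, Function.comp_def, hat_E]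
    have e2 : ∀ v : ℝ, v / (2 ^ κ * (2 ^ c)⁻¹) = v * 2 ^ c / 2 ^ κ := fun v => by field_simp
    simp only [e1, e2, mul_assoc, ← pow_add, add_comm (t ^ 2)] at s
    split_ifs with b
    · exact s.1
    · refine s.2 ?_
      simp only [List.forall_mem_map]
      intro e he x
      obtain ⟨x', hx⟩ : ∃ x', ∀ ω, |z ω - x'| = |e.2 ω - x| := by
        rcases (h e he).1.1 with q | q
        · exact ⟨x, fun ω => by rw [q]⟩
        · exact ⟨-x, fun ω => by rw [q, ← abs_neg, Pi.neg_apply]; congr 1; ring⟩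
      refine ((pb_mono fun ω hω q => ⟨?_, ?_⟩).trans (near_le e.1 (fun ω => fl1 c (z ω)) z
        (fun _ => x') (fun _ _ _ _ _ => rfl) (c + m) (by norm_num : (0 : ℝ) ≤ 1 / 8))).trans
        (by norm_num)
      · have n := near (h e he).1.1 (cn_cv (z := z) (c := c + t ^ 2) hω)
          ((mem_cv hω ω).2 ⟨hω, rfl⟩)
        have n' : ((2 : ℝ) ^ (c + t ^ 2))⁻¹ ≤ (2 ^ (c + m + 1))⁻¹ :=
          inv_anti₀ (by positivity) (pow_le_pow_right₀ one_le_two (by omega))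
        have e3 : ((2 : ℝ) ^ c)⁻¹ / 2 ^ (m + 1) = (2 ^ (c + m + 1))⁻¹ := by
          rw [add_assoc, pow_add 2 c]; field_simp
        have e4 : ((2 : ℝ) ^ (c + m))⁻¹ = 2 * (2 ^ (c + m + 1))⁻¹ := by
          rw [pow_succ]; field_simp
        rw [hx, e4]
        rw [e3] at q
        linarith [(abs_sub_le _ _ x).trans (add_le_add n q)]
      · simpa using (h e he).1.2 0 r.succ_pos (by simpa using b) ω hω

end HBlA

open HBlA

theorem rowBl : OfBl := by
  intro hS Ω z Bd κ t m r c l y ht hk hl h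
  refine (tower (fun ω => fl1 c (z ω)) (fun e => Ok z Bd t m r c e ∧ Cn z c e.1) l
    (g := fun _ => _) (fun e he a ha => ⟨Ok.kid (h e he) ha, cn_cv ha⟩) fun l' a b =>
      (claim hS y ht hk r c l' (a.trans hl) b).trans (mul_le_of_le_one_right (mul_nonneg
        (Real.exp_pos _).le (Finset.prod_nonneg fun i _ => by split_ifs <;> positivity))
        (Real.exp_le_one_iff.2 (neg_nonpos.2 (by positivity))))).trans_eq (EL_const _ _)

end Pool.Agent.MP_5168f5_an.QA
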