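import Pool.Agent.MP_5168f5_an.QA.HEL

/-! The entrance: a law that branches at most levels has flat iterated differences. -/

namespace Pool.Agent.MP_5168f5_an.QA

open H19 H17S H17F MX Filter

namespace HEnt

theorem par (m : ℕ) {θ : ℝ} (h : 0 < θ) : ∃ t κ : ℕ, 1 ≤ t ∧ κ + m + 3 + 2 * t = t ^ 2 ∧
    (m + 6 * t + 10 : ℝ) ≤ θ * t ^ 2 := by
  obtain ⟨s, hs⟩ := exists_nat_ge ((m + 16) / θ)
  rw [div_le_iff₀ h] at hs
  have m0 : (0 : ℝ) ≤ m := m.cast_nonneg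
  have s0 : (0 : ℝ) ≤ s := s.cast_nonneg
  refine ⟨s + m + 5, (s + m + 5) ^ 2 - (m + 3 + 2 * (s + m + 5)), by omega, ?_, ?_⟩
  · have : m + 3 + 2 * (s + m + 5) ≤ (s + m + 5) ^ 2 := by nlinarith
    omega
  · push_cast
    have a : (m + 16 : ℝ) ≤ θ * (s + m + 5) := by nlinarith
    nlinarith [mul_le_mul_of_nonneg_right a (show (0 : ℝ) ≤ s + m + 5 by positivity)]

theorem lst {Ω : Type} (Q : FP Ω) (s : Ω → ℤ) (D : ℝ) (H : ℝ → ℝ) (h0 : ∀ u, 0 ≤ H u) (h1 : H 0 = 1)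
    (l : List AZ) (hl : ∀ g ∈ l, g = sl Q s (fun _ => True) ∨ g = rv (sl Q s fun _ => True)) :
    ∃ l' : List (FP Ω × (Ω → ℝ)), l'.length = l.length ∧
      (∀ e ∈ l', e.1 = Q ∧ ((e.2 = fun ω => s ω / D) ∨ e.2 = -fun ω => s ω / D)) ∧
      ∀ y : ℤ, l.prod.coeff y ≤ EL l' fun u => H (u - y / D) := by
  induction l with
  | nil =>
    refine ⟨[], rfl, by simp, fun y => ?_⟩
    rw [List.prod_nil, AddMonoidAlgebra.one_def, AddMonoidAlgebra.coeff_single,
      Finsupp.single_apply, EL]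
    split_ifs with e
    · simp [← e, h1]
    · exact h0 _
  | cons g l ih =>
    obtain ⟨l', a, b, c⟩ := ih fun g hg => hl g (List.mem_cons_of_mem _ hg)
    have k : ∀ (s' : Ω → ℤ) (y : ℤ), (sl Q s' (fun _ => True) * l.prod).coeff y ≤
        EL ((Q, fun ω => s' ω / D) :: l') fun u => H (u - y / D) := fun s' y => by
      rw [sl_mul_coeff]
      refine Q.E_mono fun ω _ => ?_
      rw [if_pos trivial]
      exact (c _).trans (EL_mono _ fun u => le_of_eq (congrArg H (by push_cast; ring)))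
    rcases hl g List.mem_cons_self with rfl | rfl
    · exact ⟨_ :: l', by simp [a], List.forall_mem_cons.2 ⟨⟨rfl, .inl rfl⟩, b⟩, k s⟩
    · refine ⟨_ :: l', by simp [a], List.forall_mem_cons.2 ⟨⟨rfl, .inr ?_⟩, b⟩, fun y => by
        rw [List.prod_cons, rv_sl]; exact k (fun ω => -s ω) y⟩
      funext ω
      simp [neg_div]

theorem fl1_rn {c b : ℕ} (h : c ≤ b) (z : ℝ) : fl1 c (fl1 b z / 2 ^ b) = fl1 c z :=
  fl1_eq_of_le h (by rw [fl1, mul_div_cancel₀ _ (by positivity), Int.floor_intCast])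

theorem off (Bd : Finset ℕ) (a : ℕ) {T : ℕ} (hT : 0 < T) : ∃ o < T, ∀ r,
    (T : ℝ) * ((Finset.range r).filter fun i => a + o + i * T ∈ Bd).card ≤ Bd.card := by
  have T0 : (0 : ℝ) < T := by exact_mod_cast hT
  obtain ⟨o, ho, e⟩ := Finset.exists_card_fiber_le_of_card_le_nsmul (s := Bd) (t := Finset.range T)
    (f := fun c => (c - a) % T) (b := (Bd.card : ℝ) / T) (Finset.nonempty_range_iff.2 hT.ne')
    (by rw [Finset.card_range, nsmul_eq_mul, mul_div_cancel₀ _ T0.ne'])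
  rw [Finset.mem_range] at ho
  refine ⟨o, ho, fun r => (le_div_iff₀' T0).1 (le_trans (Nat.cast_le.2 ?_) e)⟩
  refine Finset.card_le_card_of_injOn (fun i => a + o + i * T) (fun i hi => ?_) fun i _ j _ e =>
    Nat.eq_of_mul_eq_mul_right hT (Nat.add_left_cancel e)
  refine Finset.mem_coe.2 (Finset.mem_filter.2 ⟨(Finset.mem_filter.1 hi).2, ?_⟩)
  beta_reduce
  rw [add_assoc, Nat.add_sub_cancel_left, Nat.add_mul_mod_self_right, Nat.mod_eq_of_lt ho]

theorem prod_le (p : ℕ → Prop) [DecidablePred p] (r T n : ℕ) {θ : ℝ} (h0 : 0 < θ)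
    (h : (n : ℝ) ≤ θ * T) (hT : 2 ≤ T) :
    (∏ i ∈ Finset.range r, if p i then (4 : ℝ) else 2 ^ n / 2 ^ T) ≤
      Real.exp (-((1 - θ) * (r * T) * lg) + 2 * (T * ((Finset.range r).filter p).card)) := by
  have l0 := lg_pos
  have l1 := lg_lt_one
  have T2 : (2 : ℝ) ≤ T := by exact_mod_cast hT
  have e : -((1 - θ) * (r * T) * lg) + 2 * (T * ((Finset.range r).filter p).card) =
      ∑ i ∈ Finset.range r, (-((1 - θ) * T * lg) + if p i then (2 * T : ℝ) else 0) := by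
    rw [Finset.sum_add_distrib, ← Finset.sum_filter, Finset.sum_const, Finset.sum_const,
      Finset.card_range, nsmul_eq_mul, nsmul_eq_mul]
    ring
  rw [e, Real.exp_sum]
  refine Finset.prod_le_prod (fun i _ => by split_ifs <;> positivity) fun i _ => ?_
  split_ifs
  · rw [show (4 : ℝ) = 2 ^ 2 by norm_num, two_pow_eq]
    refine Real.exp_le_exp.2 ?_
    push_cast
    nlinarith [mul_pos (mul_pos h0 (two_pos.trans_le T2)) l0]
  · rw [two_pow_eq, two_pow_eq, ← Real.exp_sub]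
    refine Real.exp_le_exp.2 ?_
    nlinarith [mul_le_mul_of_nonneg_right h l0.le]

end HEnt

open HEnt in
theorem rowEnt : OfEnt := by
  intro hB m θ hθ
  obtain ⟨t, κ, t1, t2, t3⟩ := par m hθ
  refine ⟨2 * κ, 2 ^ κ + |1 - θ| * (2 * (t ^ 2 : ℕ)), fun {Ω} Q z Bd a b hab h y => ?_⟩
  obtain ⟨o, ho, e⟩ := off Bd a (T := t ^ 2) (by omega)
  obtain ⟨r, r1, r2, r3⟩ : ∃ r, (∀ i < r, a + o + i * t ^ 2 + m ≤ b) ∧ a + r * t ^ 2 ≤ b ∧
      b ≤ a + r * t ^ 2 + 2 * t ^ 2 := by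
    have a1 := Nat.div_mul_le_self (b - (a + o)) (t ^ 2)
    have a2 := Nat.lt_div_mul_add (a := b - (a + o)) (b := t ^ 2) (by omega)
    refine ⟨(b - (a + o)) / t ^ 2, fun i hi => ?_, by omega, by omega⟩
    have a3 := Nat.mul_le_mul_right (t ^ 2) (Nat.succ_le_of_lt hi)
    rw [Nat.succ_mul] at a3
    omega
  obtain ⟨l, l1, l2, l3⟩ := db_list (2 * κ) (sl Q (fun ω => fl1 b (z ω)) fun _ => True)
  obtain ⟨l', a1, a2, a3⟩ := lst Q _ (2 ^ b)
    (fun u => Real.exp (-(|u| * 2 ^ (a + o + r * t ^ 2) / 2 ^ κ))) (fun _ => (Real.exp_pos _).le)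
    (by simp) l l2
  rw [← l3]
  refine (a3 y).trans ((hB (fun ω => fl1 b (z ω) / 2 ^ b) (· ∈ Bd) κ t m r (a + o) l' _ t1 t2
    (by rw [a1, l1, pow_mul]; rfl) fun e he => ⟨(a2 e he).2, fun i hi k => ?_⟩).trans ?_)
  · have b1 := r1 i hi
    have b2 := h _ (by omega) b1 k
    rw [(a2 e he).1]
    simpa only [Br, fl1_rn b1, fl1_rn (le_of_add_le_left b1)] using b2
  · have b1 := prod_le (fun i => a + o + i * t ^ 2 ∈ Bd) r (t ^ 2) (m + 6 * t + 10) hθ
      (by exact_mod_cast t3) (by omega)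
    refine (mul_le_mul_of_nonneg_left (le_of_eq_of_le (Finset.prod_congr rfl fun _ _ => by congr) b1)
      (Real.exp_pos _).le).trans ?_
    rw [← Real.exp_add]
    refine Real.exp_le_exp.2 ?_
    have b2 := e r
    have b3 : |(b - a - r * (t ^ 2 : ℕ) : ℝ)| ≤ 2 * (t ^ 2 : ℕ) := by
      have c1 : (a + r * (t ^ 2 : ℕ) : ℝ) ≤ b := by exact_mod_cast r2
      have c2 : (b : ℝ) ≤ a + r * (t ^ 2 : ℕ) + 2 * (t ^ 2 : ℕ) := by exact_mod_cast r3
      rw [abs_of_nonneg (by linarith)]; linarith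
    have b4 := (le_abs_self _).trans ((abs_mul (1 - θ) _).trans_le
      (mul_le_mul_of_nonneg_left b3 (abs_nonneg _)))
    have b5 := mul_le_mul b4 lg_lt_one.le lg_pos.le (by positivity)
    linarith

end Pool.Agent.MP_5168f5_an.QA
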