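import Pool.Agent.MP_5168f5_an.QA.HEL

/-! Anticoncentration of sums of independent variables. -/

namespace Pool.Agent.MP_5168f5_an.QA

open H19 H17S H17F MX Filter Finset

namespace HLo

theorem cb (n : ℕ) : n.centralBinom ^ 2 * (2 * n + 1) ≤ 16 ^ n := by
  induction n with
  | zero => simp
  | succ n ih =>
    refine Nat.le_of_mul_le_mul_left (c := (n + 1) ^ 2) ?_ (by positivity)
    calc (n + 1) ^ 2 * ((n + 1).centralBinom ^ 2 * (2 * (n + 1) + 1))
        = ((n + 1) * (n + 1).centralBinom) ^ 2 * (2 * n + 3) := by ring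
      _ = 4 * (2 * n + 1) * (2 * n + 3) * (n.centralBinom ^ 2 * (2 * n + 1)) := by
        rw [Nat.succ_mul_centralBinom_succ]; ring
      _ ≤ 16 * (n + 1) ^ 2 * 16 ^ n := Nat.mul_le_mul (by nlinarith) ih
      _ = _ := by ring

theorem mid (N : ℕ) : N.choose (N / 2) ^ 2 * (N + 1) ≤ 4 ^ N := by
  obtain ⟨n, rfl | rfl⟩ := N.even_or_odd'
  · rw [Nat.mul_div_cancel_left n two_pos, pow_mul]
    exact cb n
  · have h := cb (n + 1)
    rw [Nat.centralBinom_eq_two_mul_choose, show 2 * (n + 1) = 2 * n + 1 + 1 by ring,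
      Nat.choose_succ_succ', Nat.choose_symm_half] at h
    rw [show (2 * n + 1) / 2 = n by omega, pow_succ 4, pow_mul]
    rw [pow_succ 16] at h
    norm_num
    nlinarith

/-- The mean over all subsets. -/
noncomputable def T (s : Finset ℕ) (d : ℕ → ℝ) (h : ℝ → ℝ) : ℝ :=
  (∑ A ∈ s.powerset, h (∑ j ∈ A, d j)) / 2 ^ s.card

theorem T_insert {s : Finset ℕ} {j : ℕ} (hj : j ∉ s) (d : ℕ → ℝ) (x : ℝ) (h : ℝ → ℝ) :
    T (insert j s) (Function.update d j x) h = 1 / 2 * (T s d h + T s d fun v => h (x + v)) := by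
  have e : ∀ A ∈ s.powerset, ∑ i ∈ A, Function.update d j x i = ∑ i ∈ A, d i := fun A hA =>
    sum_update_of_notMem (fun k => hj (mem_powerset.1 hA k)) _ _
  have e' : ∀ A ∈ s.powerset, ∑ i ∈ insert j A, Function.update d j x i = x + ∑ i ∈ A, d i :=
    fun A hA => by rw [sum_insert fun k => hj (mem_powerset.1 hA k), e A hA, Function.update_self]
  rw [T, T, T, sum_powerset_insert hj, card_insert_of_notMem hj,
    sum_congr rfl fun A hA => congrArg h (e A hA), sum_congr rfl fun A hA => congrArg h (e' A hA)]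
  ring

theorem erd {s : Finset ℕ} {d : ℕ → ℝ} {L : ℝ} (hL : 0 ≤ L) (hd : ∀ j ∈ s, L < d j) (y : ℝ) :
    T s d (fun v => if |v - y| ≤ L / 2 then 1 else 0) ≤ 1 / √(s.card + 1) := by
  have h1 : IsAntichain (· ⊆ ·) (SetLike.coe (univ.filter fun B : Finset s =>
      |∑ j ∈ B, d j - y| ≤ L / 2)) := fun A hA B hB e k => by
    obtain ⟨j, j1, j2⟩ := exists_of_ssubset (k.ssubset_of_ne e)
    have a := abs_le.1 (mem_filter.1 hA).2
    have b := abs_le.1 (mem_filter.1 hB).2
    have c := sum_sdiff (f := fun j : s => d j) k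
    have := single_le_sum (f := fun j : s => d j) (fun i _ => hL.trans (hd i i.2).le)
      (mem_sdiff.2 ⟨j1, j2⟩)
    linarith [hd j j.2]
  have h2 := (card_le_card_of_injOn (s := s.powerset.filter fun A => |∑ j ∈ A, d j - y| ≤ L / 2)
    (fun A => A.subtype (· ∈ s)) (fun A hA => by
      have a := mem_filter.1 hA
      exact mem_filter.2 ⟨mem_univ _, by rw [sum_subtype_of_mem d (mem_powerset.1 a.1)]; exact a.2⟩)
    fun A hA B hB e => by
      rw [← subtype_map_of_mem (mem_powerset.1 (mem_filter.1 hA).1),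
        ← subtype_map_of_mem (mem_powerset.1 (mem_filter.1 hB).1)]
      exact congrArg _ e).trans h1.sperner
  rw [Fintype.card_coe] at h2
  have h3 := (Nat.mul_le_mul_right _ (Nat.pow_le_pow_left h2 2)).trans (mid s.card)
  rw [T, sum_boole, div_le_div_iff₀ (by positivity) (by positivity), one_mul]
  refine le_of_sq_le_sq ?_ (by positivity)
  rw [mul_pow, Real.sq_sqrt (by positivity), ← pow_mul, mul_comm s.card 2, pow_mul]
  norm_num
  exact_mod_cast h3

theorem half {x : ℝ} (h : 1 ≤ x) : 1 / √(x + 1) + (1 / √x - 1 / √(x + 1)) * (1 / 2) ≤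
    1 / √(x + 1 / 3) := by
  have e : ∀ z : ℝ, 0 ≤ z → (1 / √z) ^ 2 = 1 / z := fun z hz => by
    rw [div_pow, Real.sq_sqrt hz, one_pow]
  refine le_of_sq_le_sq ?_ (by positivity)
  have : (1 / x + 1 / (x + 1)) / 2 ≤ 1 / (x + 1 / 3) := by
    rw [div_add_div _ _ (by positivity) (by positivity), div_div,
      div_le_div_iff₀ (by positivity) (by positivity)]
    nlinarith
  nlinarith [e x (by positivity), e (x + 1) (by positivity), e (x + 1 / 3) (by positivity),
    sq_nonneg (1 / √x - 1 / √(x + 1))]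

theorem main {Ω : Type} {L : ℝ} (hL : 0 ≤ L) (l : List (FP Ω × (Ω → ℝ)))
    (hl : ∀ e ∈ l, ∀ x : ℝ, pb e.1 (fun ω => |e.2 ω - x| ≤ L) ≤ 1 / 2) (s : Finset ℕ) (d : ℕ → ℝ)
    (y : ℝ) (hd : ∀ j ∈ s, L < d j) :
    EL l (fun u => T s d fun v => if |u + v - y| ≤ L / 2 then 1 else 0) ≤
      1 / √(s.card + l.length / 3 + 1) := by
  classical
  induction l generalizing s d y with
  | nil => simpa [EL] using erd hL hd y
  | cons e l ih =>
    obtain ⟨Q, Y⟩ := e
    have ih := ih fun e k => hl e (List.mem_cons_of_mem _ k)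
    set x : ℝ := s.card + l.length / 3 + 1 with hx
    have x1 : 1 ≤ x := le_add_of_nonneg_left (by positivity)
    let F : Ω → ℝ := fun a =>
      EL l fun u => T s d fun v => if |u + v - (y - Y a)| ≤ L / 2 then 1 else 0
    have f0 : ∀ a, F a ≤ 1 / √x := fun a => ih s d _ hd
    have f1 : ∀ a b, L < Y b - Y a → 1 / 2 * (F a + F b) ≤ 1 / √(x + 1) := fun a b k => by
      obtain ⟨j, hj⟩ := Infinite.exists_notMem_finset s
      have := ih (insert j s) (Function.update d j (Y b - Y a)) (y - Y a) fun i hi => by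
        rcases eq_or_ne i j with rfl | z
        · rwa [Function.update_self]
        · rw [Function.update_of_ne z]; exact hd i ((mem_insert.1 hi).resolve_left z)
      simp only [T_insert hj, EL_mul, EL_add, card_insert_of_notMem hj,
        show ∀ u v, u + (Y b - Y a + v) - (y - Y a) = u + v - (y - Y b) from fun _ _ => by ring]
        at this
      refine this.trans_eq ?_
      rw [hx]; push_cast; ring_nf
    have f2 : 1 / √(x + 1) ≤ 1 / √x := by gcongr; linarith
    calc _ = Q.E F := Q.E_congr fun a _ => by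
          simp only [F, show ∀ u v, u + v - (y - Y a) = Y a + u + v - y from fun _ _ => by ring]
      _ = Q.E fun a => Q.E fun b => 1 / 2 * (F a + F b) := by
          simp only [FP.E_mul, FP.E_add, FP.E_const]; ring
      _ ≤ Q.E fun a => 1 / √(x + 1) + (1 / √x - 1 / √(x + 1)) * pb Q fun b => |Y b - Y a| ≤ L :=
          Q.E_mono fun a _ => by
            rw [pb, ← FP.E_mul, ← Q.E_const (1 / √(x + 1)), ← FP.E_add]
            refine Q.E_mono fun b _ => ?_
            rw [FP.E_const]
            split_ifs with k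
            · linarith [f0 a, f0 b]
            · rcases lt_abs.1 (not_le.1 k) with k | k
              · linarith [f1 a b k]
              · linarith [f1 b a (by linarith)]
      _ ≤ Q.E fun _ => 1 / √(x + 1 / 3) := Q.E_mono fun a _ => le_trans (add_le_add le_rfl
          (mul_le_mul_of_nonneg_left (hl (Q, Y) List.mem_cons_self (Y a)) (sub_nonneg.2 f2)))
          (half x1)
      _ = _ := by rw [FP.E_const, hx, List.length_cons]; push_cast; ring_nf

end HLo

theorem rowLo : SLo := fun l L y hL h => by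
  simpa [HLo.T] using HLo.main hL l h ∅ 0 y (by simp)

end Pool.Agent.MP_5168f5_an.QA
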