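import Pool.Agent.MP_5168f5_an.QA.HEL

/-! Sums of independent variables: exponential moments and one block. -/

namespace Pool.Agent.MP_5168f5_an.QA

open H19 H17S H17F MX Filter

namespace HStA

variable {Ω : Type}

theorem one (Q : FP Ω) (Y : Ω → ℝ) {w : ℝ} (t : ℝ) (h : ∀ ω ∈ Q.S, |Y ω - Q.E Y| ≤ w) :
    Q.E (fun ω => Real.exp (t * (Y ω - Q.E Y))) ≤ Real.exp (t ^ 2 * w ^ 2 / 2) := by
  calc _ ≤ Q.E fun ω => Real.sinh (t * w) / w * Y ω +
        (Real.cosh (t * w) - Real.sinh (t * w) / w * Q.E Y) := Q.E_mono fun ω hω => by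
        have a := h ω hω
        rcases ((abs_nonneg _).trans a).eq_or_lt with rfl | w0
        · simp [abs_nonpos_iff.1 a]
        · have := Real.exp_mul_le_cosh_add_mul_sinh (t := (Y ω - Q.E Y) / w)
            (by rwa [abs_div, abs_of_pos w0, div_le_one w0]) (t * w)
          rw [show (Y ω - Q.E Y) / w * (t * w) = t * (Y ω - Q.E Y) by field_simp] at this
          exact this.trans (le_of_eq (by ring))
    _ = Real.cosh (t * w) := by rw [Q.E_add, Q.E_mul, Q.E_const]; ring
    _ ≤ _ := by rw [← mul_pow]; exact Real.cosh_le_exp_half_sq _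

theorem mg (l : List (FP Ω × (Ω → ℝ))) {w : ℝ} (t : ℝ)
    (h : ∀ e ∈ l, ∀ ω ∈ e.1.S, |e.2 ω - e.1.E e.2| ≤ w) :
    EL l (fun u => Real.exp (t * (u - mn l))) ≤ Real.exp (l.length * t ^ 2 * w ^ 2 / 2) := by
  induction l with
  | nil => simp [EL, mn_nil]
  | cons a l ih =>
    have e : ∀ ω, EL l (fun u => Real.exp (t * (a.2 ω + u - mn (a :: l)))) =
        EL l (fun u => Real.exp (t * (u - mn l))) * Real.exp (t * (a.2 ω - a.1.E a.2)) := by
      intro ω
      rw [mul_comm, ← EL_mul, mn_cons]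
      congr 1
      funext u
      rw [← Real.exp_add]
      congr 1
      ring
    simp only [EL, e]
    rw [FP.E_mul, List.length_cons]
    refine (mul_le_mul (ih fun e k => h e (List.mem_cons_of_mem _ k)) (one _ _ t
      (h a List.mem_cons_self)) (a.1.E_nonneg fun _ _ => by positivity)
      (by positivity)).trans (le_of_eq ?_)
    rw [← Real.exp_add]
    congr 1
    push_cast
    ring

theorem ex (t : ℕ) : Real.exp (-(t ^ 2 : ℝ)) ≤ 1 / 2 ^ t ^ 2 := by
  rw [Real.exp_neg, one_div]
  exact inv_anti₀ (by positivity) (by exact_mod_cast two_pow_le_exp (t ^ 2))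

end HStA

theorem rowMg : SMg := fun l w t h => by
  have a := HStA.mg l t h
  have b := HStA.mg l (-t) h
  rw [neg_sq] at b
  refine (EL_mono l fun u => ?_).trans (((EL_add l _ _).trans_le (add_le_add a b)).trans_eq
    (two_mul _).symm)
  rcases abs_choice (u - mn l) with e | e <;> rw [e]
  · exact le_add_of_nonneg_right (by positivity)
  · rw [mul_neg, neg_mul]; exact le_add_of_nonneg_left (by positivity)

theorem rowSt : OfSt := by
  intro hLo hMg Ω l w y κ t m hw ht e hl hc
  set s : ℝ := 2 ^ κ * w with hs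
  have s0 : 0 < s := by positivity
  have N2 : (2 : ℝ) ≤ 2 ^ t ^ 2 := le_self_pow₀ one_le_two (by positivity)
  have hN : (2 : ℝ) ^ t ^ 2 = 2 ^ κ * 2 ^ m * 8 * 4 ^ t := by
    rw [← e, pow_add, pow_add, pow_add, pow_mul]; norm_num
  generalize hW : Real.exp (-(|mn l - y| / s)) = W
  have W0 : 0 < W := hW ▸ Real.exp_pos _
  have k0 : ∀ u, Real.exp (-(|u - y| * 2 ^ t ^ 2 / s)) ≤
      W * (Real.exp (|u - mn l| / s) * Real.exp (-(|u - y| * 2 ^ t ^ 2 / (2 * s)))) := fun u => by
    rw [← hW, ← Real.exp_add, ← Real.exp_add, Real.exp_le_exp]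
    have := abs_sub_le (mn l) u y
    rw [abs_sub_comm _ u] at this
    field_simp
    nlinarith [abs_nonneg (u - y)]
  have v1 : ∀ u : ℝ, Real.exp (-(|u - y| * 2 ^ t ^ 2 / (2 * s))) ≤ 1 := fun u =>
    Real.exp_le_one_iff.2 (neg_nonpos.2 (by positivity))
  have mg : ∀ c : ℝ, EL l (fun u => Real.exp (c * (|u - mn l| / s))) ≤ 2 * Real.exp (c ^ 2 / 2) :=
    fun c => by
      have := hMg l w (c / s) hc
      rw [hl, show ((4 ^ κ : ℕ) : ℝ) * (c / s) ^ 2 * w ^ 2 = c ^ 2 by
        rw [hs, show ((4 ^ κ : ℕ) : ℝ) = (2 ^ κ) ^ 2 by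
          rw [← pow_mul, mul_comm, pow_mul]; norm_num]
        field_simp] at this
      simpa only [div_mul_eq_mul_div, mul_div_assoc] using this
  refine ⟨?_, fun hb => ?_⟩
  · refine (EL_mono l fun u => (k0 u).trans (mul_le_mul_of_nonneg_left
      (mul_le_of_le_one_right (by positivity) (v1 u)) W0.le)).trans ?_
    rw [EL_mul, mul_comm]
    refine mul_le_mul_of_nonneg_right ?_ W0.le
    have a := mg 1
    have b : Real.exp (1 / 2) ≤ 2 := (Real.exp_bound_div_one_sub_of_interval (by norm_num)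
      (by norm_num)).trans (by norm_num)
    simp only [one_mul, one_pow] at a
    linarith
  · have lo := hLo l (w / 2 ^ (m + 1)) y (by positivity) hb
    have t0 : (0 : ℝ) ≤ t := Nat.cast_nonneg t
    have k1 : ∀ u, Real.exp (|u - mn l| / s) * Real.exp (-(|u - y| * 2 ^ t ^ 2 / (2 * s))) ≤
        8 * 8 ^ t * ((if |u - y| ≤ w / 2 ^ (m + 1) / 2 then 1 else 0) + 1 / 2 ^ t ^ 2) +
          Real.exp (-((1 + 2 * t) * (2 + 2 * t))) *
            Real.exp ((2 + 2 * t) * (|u - mn l| / s)) := fun u => by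
      rcases le_total (|u - mn l| / s) (2 + 2 * t) with a | a
      · refine le_add_of_le_of_nonneg (mul_le_mul ((Real.exp_le_exp.2 a).trans ?_) ?_
          (by positivity) (by positivity)) (by positivity)
        · have : Real.exp 2 ≤ 8 := by
            have := Real.exp_one_lt_d9
            rw [show (2 : ℝ) = 1 + 1 by norm_num, Real.exp_add]
            nlinarith [Real.exp_pos 1]
          rw [Real.exp_add, mul_comm (2 : ℝ), Real.exp_nat_mul]
          gcongr
        · split_ifs with b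
          · exact (v1 u).trans (le_add_of_nonneg_right (by positivity))
          · rw [zero_add]
            refine (Real.exp_le_exp.2 (neg_le_neg ?_)).trans (HStA.ex t)
            have c : (t : ℝ) ^ 2 ≤ 4 ^ t := by
              rw [show (4 : ℝ) ^ t = (2 ^ t) ^ 2 by rw [← pow_mul, mul_comm, pow_mul]; norm_num]
              exact pow_le_pow_left₀ t0 (by exact_mod_cast Nat.lt_two_pow_self.le) 2
            refine c.trans (le_trans (le_of_eq ?_) (div_le_div_of_nonneg_right
              (mul_le_mul_of_nonneg_right (not_le.1 b).le (by positivity)) (by positivity)))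
            rw [hN, hs]
            field_simp
            ring
      · refine le_add_of_nonneg_of_le (by positivity)
          ((mul_le_of_le_one_right (by positivity) (v1 u)).trans ?_)
        rw [← Real.exp_add, Real.exp_le_exp]
        nlinarith
    refine (EL_mono l fun u => (k0 u).trans (mul_le_mul_of_nonneg_left (k1 u) W0.le)).trans ?_
    rw [EL_mul, mul_comm, EL_add, EL_mul, EL_mul, EL_add, EL_const]
    refine mul_le_mul_of_nonneg_right ?_ W0.le
    have a : Real.exp (-((1 + 2 * t) * (2 + 2 * t))) *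
        EL l (fun u => Real.exp ((2 + 2 * t) * (|u - mn l| / s))) ≤ 2 * (1 / 2 ^ t ^ 2) := by
      refine (mul_le_mul_of_nonneg_left (mg _) (by positivity)).trans ?_
      rw [mul_left_comm, ← Real.exp_add]
      exact mul_le_mul_of_nonneg_left ((Real.exp_le_exp.2 (by nlinarith)).trans (HStA.ex t))
        zero_le_two
    have b : 1 / √(l.length / 3 + 1 : ℝ) ≤ 2 ^ m * 16 * 4 ^ t * (1 / 2 ^ t ^ 2) := by
      rw [hN, show (2 : ℝ) ^ m * 16 * 4 ^ t * (1 / (2 ^ κ * 2 ^ m * 8 * 4 ^ t)) = 1 / (2 ^ κ / 2) by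
        field_simp; norm_num]
      refine one_div_le_one_div_of_le (by positivity) (Real.le_sqrt_of_sq_le ?_)
      rw [hl, div_pow, ← pow_mul, mul_comm, pow_mul]
      push_cast
      linarith [pow_pos (show (0 : ℝ) < 4 by norm_num) κ]
    have c : (2 : ℝ) ^ (m + 6 * t + 10) = 1024 * (8 ^ t * (2 ^ m * 8 ^ t)) := by
      rw [pow_add, pow_add, pow_mul, show (2 : ℝ) ^ 6 = 8 * 8 by norm_num, mul_pow]; ring
    have d : (4 : ℝ) ^ t ≤ 8 ^ t := by gcongr; norm_num
    have d1 : (1 : ℝ) ≤ 8 ^ t := one_le_pow₀ (by norm_num)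
    have d2 : (1 : ℝ) ≤ 2 ^ m := one_le_pow₀ one_le_two
    have d3 : (1 : ℝ) ≤ 2 ^ m * 8 ^ t := one_le_mul_of_one_le_of_one_le d2 d1
    have d4 : (2 : ℝ) ^ m * 4 ^ t ≤ 2 ^ m * 8 ^ t := by gcongr
    refine (add_le_add (mul_le_mul_of_nonneg_left (add_le_add_left (lo.trans b) _) (by positivity))
      a).trans ?_
    rw [c, div_eq_mul_one_div (1024 * _ : ℝ), ← add_one_mul, ← mul_assoc, ← add_mul]
    refine mul_le_mul_of_nonneg_right ?_ (by positivity)
    nlinarith [mul_le_mul_of_nonneg_left d4 (zero_le_one.trans d1),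
      mul_le_mul_of_nonneg_left d3 (zero_le_one.trans d1)]

end Pool.Agent.MP_5168f5_an.QA
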