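import Pool.Agent.MP_5168f5_an.QA.HApi
import Pool.Agent.MP_5168f5_an.QA.HLo
import Pool.Agent.MP_5168f5_an.QA.HSt
import Pool.Agent.MP_5168f5_an.QA.HBl
import Pool.Agent.MP_5168f5_an.QA.HEnt

/-! Flat iterated differences: the entrance and the closure properties for all windows. -/

namespace Pool.Agent.MP_5168f5_an.QA

open H19 H17S H17F MX R4 R4.K31 Filter

theorem ent : SEnt := rowEnt (rowBl (rowSt rowLo rowMg))

theorem cm_cv {Ω T T' α : Type} {P : FP Ω} (K : Ω → T) (A : Ω → T') (F : Ω → α) {ω v : Ω}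
    (hω : ω ∈ P.S) (hv : v ∈ (cv P K (K ω)).S) :
    cm (cv P K (K ω)) A F v = cm P (fun u => (A u, K u)) F v := by
  obtain ⟨h1, h2⟩ := (mem_cv hω v).1 hv
  unfold cm cv
  rw [cE_cE (E := fun x => K x = K ω) (E' := fun x => A x = A v) ⟨v, h1, h2, rfl⟩,
    cE_congr (E' := fun u => (A u, K u) = (A v, K v)) fun u _ => by simp [h2, and_comm]]

theorem near_fl1 {j : ℕ} {x y : ℝ} (h : fl1 j x = fl1 j y) : |x - y| ≤ 1 / 2 ^ j := by
  rw [one_div]; exact (abs_sub_lt_of_fl1_eq h).le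

/-- The entrance for one window: a variable that branches at all levels outside `Bd`. -/
theorem ht1_ent (m : ℕ) {θ : ℝ} (hθ : 0 < θ) : ∃ k : ℕ, ∀ {Ω T : ℕ → Type} (P : ∀ n, FP (Ω n))
    (z : ∀ n, Ω n → ℝ) (K : ∀ n, Ω n → T n) (R a b : ℕ → ℕ) (Bd : ℕ → Finset ℕ), Big R →
    (∀ᶠ n in UF, a n ≤ b n ∧ ∀ c, a n ≤ c → c + m ≤ b n → c ∉ Bd n → ∀ ω ∈ (P n).S,
      cm (P n) (fun v => (fl1 c (z n v), K n v)) (fun v => fl1 (c + m) (z n v)) ω ≤ 1 / 8) →
    HT1 k P (fun n ω => 2 ^ b n * z n ω) (fun n ω => (fl1 (a n) (z n ω), K n ω)) R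
      fun n => (1 - θ) * (b n - a n) * lg - 2 * (Bd n).card := by
  obtain ⟨k, C, h⟩ := ent m θ hθ
  refine ⟨k, fun P z K R a b Bd hR e ε hε => ?_⟩
  filter_upwards [e, hR.sm C ε hε] with n d g
  refine ⟨fun _ => True, (pb_zero fun _ _ u => u trivial).trans_le hε.le, fun ω hω =>
    (h _ (z n) (Bd n) _ _ d.1 fun c c1 c2 c3 v hv => ?_).mono (Real.exp_le_exp.2 (by linarith))⟩
  rw [cm_cv (fun ω => (fl1 (a n) (z n ω), K n ω)) _ _ hω hv,
    cm_ctx (Θ' := fun v => (fl1 c (z n v), K n v)) ((Fn.fst _ _).pair (Fn.pair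
      (fun _ _ _ _ u => fl1_eq_of_le c1 (congrArg Prod.fst u)) (Fn.snd _ _)))
      ((Fn.fst _ _).pair ((Fn.snd _ _).right _)) _ (cE_sub hv)]
  exact d.2 c c1 c2 c3 v (cE_sub hv)

/-- The entrance for all windows: the exceptional levels have small density in every window. -/
theorem htw_ent (m : ℕ) {θ : ℝ} (hθ : 0 < θ) : ∃ k : ℕ, ∀ {Ω T : ℕ → Type} (P : ∀ n, FP (Ω n))
    (z : ∀ n, Ω n → ℝ) (K : ∀ n, Ω n → T n) (R : ℕ → ℕ) (Bd : ℕ → Finset ℕ), Big R →
    (∀ᶠ n in UF, ∀ c, c + m ≤ R n → c ∉ Bd n → ∀ ω ∈ (P n).S,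
      cm (P n) (fun v => (fl1 c (z n v), K n v)) (fun v => fl1 (c + m) (z n v)) ω ≤ 1 / 8) →
    (∀ a b : ℕ → ℕ, (∀ n, a n ≤ b n ∧ b n ≤ R n) →
      Le R (fun n => (Bd n ∩ Finset.Ico (a n) (b n)).card) fun n => θ / 8 * (b n - a n)) →
    HTw k θ P z K R := by
  obtain ⟨k, h⟩ := ht1_ent (m + 1) (half_pos hθ)
  refine ⟨k, fun P z K R Bd hR e e' a b hab => (h P z K R a b
    (fun n => Bd n ∩ Finset.Ico (a n) (b n)) hR (e.mono fun n d => ⟨(hab n).1,
      fun c c1 c2 c3 ω hω => ?_⟩)).mono (((e' a b hab).smul zero_le_two).of_sub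
        (Eventually.of_forall fun n => ?_))⟩
  · have := (hab n).2
    exact (cm_mono hω fun _ _ _ _ u => fl1_eq_of_le (by omega) (congrArg Prod.fst u)).trans
      (d c (by omega) (fun u => c3 (Finset.mem_inter.2 ⟨u, Finset.mem_Ico.2 ⟨c1, by omega⟩⟩)) ω hω)
  · have a1 : (0 : ℝ) ≤ b n - a n := sub_nonneg.2 (by exact_mod_cast (hab n).1)
    have a2 : 1 / 2 ≤ lg := by have := Real.log_two_gt_d9; unfold lg; linarith
    nlinarith [mul_nonneg (mul_nonneg hθ.le a1) (sub_nonneg.2 a2)]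

/-- The entrance for all deficiencies. -/
theorem ht_ent (m : ℕ → ℕ) : ∃ kf : ℕ → ℕ, ∀ {Ω T : ℕ → Type} (P : ∀ n, FP (Ω n))
    (z : ∀ n, Ω n → ℝ) (K : ∀ n, Ω n → T n) (R : ℕ → ℕ) (Bd : ℕ → ℕ → Finset ℕ), Big R →
    (∀ i, ∀ᶠ n in UF, ∀ c, c + m i ≤ R n → c ∉ Bd i n → ∀ ω ∈ (P n).S,
      cm (P n) (fun v => (fl1 c (z n v), K n v)) (fun v => fl1 (c + m i) (z n v)) ω ≤ 1 / 8) →
    (∀ (i : ℕ) (a b : ℕ → ℕ), (∀ n, a n ≤ b n ∧ b n ≤ R n) →
      Le R (fun n => (Bd i n ∩ Finset.Ico (a n) (b n)).card)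
        fun n => 1 / (i + 1 : ℝ) / 8 * (b n - a n)) → HT kf P z K R := by
  choose kf h using fun i : ℕ => htw_ent (m i) (θ := 1 / (i + 1 : ℝ)) (by positivity)
  exact ⟨kf, fun P z K R Bd hR e e' i => h i P z K R (Bd i) hR (e i) (e' i)⟩

variable {Ω W T T' : ℕ → Type} {P : ∀ n, FP (Ω n)} {Q : ∀ n, FP (W n)} {X Y : ∀ n, Ω n → ℝ}
  {K : ∀ n, Ω n → T n} {K' : ∀ n, Ω n → T' n} {R R' : ℕ → ℕ} {L : ℕ → ℝ} {k k' : ℕ} {θ θ' : ℝ}

theorem htw_iff : HTw k θ P X K R ↔ ∀ ε : ℝ, 0 < ε → ∀ᶠ n in UF, ∀ a b : ℕ, a ≤ b → b ≤ R n →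
    Ht k (P n) (fun ω => 2 ^ b * X n ω) (fun ω => (fl1 a (X n ω), K n ω)) ε
      (Real.exp (-((1 - θ) * (b - a) * lg) + ε * R n)) := by
  refine ⟨fun h ε hε => ?_, fun h a b hab ε hε => (h ε hε).mono fun n e => e _ _ (hab n).1 (hab n).2⟩
  have : ∀ n, Nonempty {p : ℕ × ℕ // p.1 ≤ p.2 ∧ p.2 ≤ R n} := fun n => ⟨⟨(0, 0), by simp⟩⟩
  exact (unif (A := fun n => {p : ℕ × ℕ // p.1 ≤ p.2 ∧ p.2 ≤ R n}) (h := fun _ _ => True)
    (p := fun n p => Ht k (P n) (fun ω => 2 ^ p.1.2 * X n ω) (fun ω => (fl1 p.1.1 (X n ω), K n ω)) ε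
      (Real.exp (-((1 - θ) * (p.1.2 - p.1.1) * lg) + ε * R n))) fun p _ =>
    h (fun n => (p n).1.1) (fun n => (p n).1.2) (fun n => (p n).2) ε hε).mono
      fun n e a b c d => e ⟨(a, b), c, d⟩ trivial

theorem HTw.cf {S : ℕ → Type 1} {W T : ∀ n, S n → Type} (k : ℕ) (θ : ℝ) (Q : ∀ n x, FP (W n x))
    (X : ∀ n x, W n x → ℝ) (K : ∀ n x, W n x → T n x) (m : ∀ n, S n → ℕ) :
    CF fun x : ∀ n, S n => HTw k θ (fun n => Q n (x n)) (fun n => X n (x n)) (fun n => K n (x n))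
      fun n => m n (x n) :=
  (cf_eps (p := fun ε n x => ∀ a b : ℕ, a ≤ b → b ≤ m n x → Ht k (Q n x) (fun ω => 2 ^ b * X n x ω)
    (fun ω => (fl1 a (X n x ω), K n x ω)) ε (Real.exp (-((1 - θ) * (b - a) * lg) + ε * m n x)))
    fun _ _ _ _ _ e h a b c d => (h a b c d).mono e (Real.exp_le_exp.2
      (add_le_add le_rfl (mul_le_mul_of_nonneg_right e (Nat.cast_nonneg _))))).congr fun _ => htw_iff

theorem HTw.mono (h : HTw k θ P X K R) (e : k ≤ k') (e' : θ ≤ θ') : HTw k' θ' P X K R :=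
  fun a b hab => ((h a b hab).up e).mono (Le.of_le fun n => mul_le_mul_of_nonneg_right
    (mul_le_mul_of_nonneg_right (by linarith) (sub_nonneg.2 (by exact_mod_cast (hab n).1))) lg_pos.le)

theorem HTw.dn (h : HTw k θ P X K R) (hR : Big R) {ρ : ∀ n, W n → Ω n} (hD : DnS Q ρ P) :
    HTw k θ Q (fun n v => X n (ρ n v)) (fun n v => K n (ρ n v)) R :=
  fun a b hab => (h a b hab).dn hR hD

theorem HTw.of_whp {E : ∀ n, Ω n → Prop} (h : HTw k θ (fun n => cE (P n) (E n)) X K R)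
    (hE : Whp P E) : HTw k θ P X K R := fun a b hab => (h a b hab).of_whp hE

theorem HTw.coarse (h : HTw k θ P X K R) (e : ∀ᶠ n in UF, Fn (P n) (K' n) (K n)) :
    HTw k θ P X K' R := fun a b hab =>
  (h a b hab).coarse (e.mono fun _ d => (Fn.fst _ _).pair (d.right _))

/-- A new context that is almost a function of the old one. -/
theorem HTw.ctx (h : HTw k θ P X K R) (hR : Big R) (e : Sm R fun n => ch (P n) (K' n) (K n)) :
    HTw k θ P X K' R := fun a b hab => (h a b hab).ctx hR (e.mono (Eventually.of_forall fun _ =>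
  ch_le (((Fn.fst _ _).right _).pair (Fn.fst _ _)) (Fn.snd _ _)))

/-- Side information that carries little information about the variable. -/
theorem HTw.info (h : HTw k θ P X K R) (hR : Big R)
    (e : Sm R fun n => mi (P n) (fun v => fl1 (R n) (X n v)) (K' n) (K n)) :
    HTw k θ P X (fun n ω => (K' n ω, K n ω)) R := fun a b hab =>
  ((h a b hab).info hR (K' := K') (e.mono (Eventually.of_forall fun n => mi_left (Fn.snd _ _)
    (Fn.pair (fun _ _ _ _ u => fl1_eq_of_le ((hab n).1.trans (hab n).2) (congrArg Prod.fst u))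
      (Fn.snd _ _)) fun _ _ _ _ u => fl1_eq_of_le (hab n).2 (congrArg Prod.fst u)))).coarse
    (Eventually.of_forall fun _ => ((Fn.fst _ _).right _).pair
      ((Fn.fst _ _).pair ((Fn.snd _ _).right _)))

/-- Near affine images with coefficients read from the context. -/
theorem HTw.aff (h : HTw k θ P X K R) (hR : Big R) (hL : Sub R L) {c b : ∀ n, Ω n → ℝ}
    (e : ∀ᶠ n in UF, Fn (P n) (c n) (K n) ∧ Fn (P n) (b n) (K n) ∧ ∀ ω ∈ (P n).S,
      1 ≤ L n * |c n ω| ∧ |c n ω| ≤ L n ∧ |Y n ω - c n ω * X n ω - b n ω| ≤ L n / 2 ^ R n) :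
    HTw k θ P Y K R := by
  intro i j hij
  have p : ∀ n {r : ℕ}, r ≤ R n → L n / 2 ^ R n ≤ L n / 2 ^ r := fun n r u =>
    div_le_div_of_nonneg_left (hL.pos n).le (by positivity) (pow_le_pow_right₀ one_le_two u)
  refine (HT1.aff (h i j hij) hR hL (c := c) (b := fun n ω => 2 ^ j n * b n ω)
    (e.mono fun n d => ⟨d.1.right _, (Fn.comp (2 ^ j n * ·) _).trans (d.2.1.right _),
      fun ω hω => ⟨(d.2.2 ω hω).1, (d.2.2 ω hω).2.1, ?_⟩⟩)).ctx hR
    ((Sm.near1 (x := Y) (j := i) (G := fun n ω => (fl1 (i n) (X n ω), K n ω)) hR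
      (hL.const_mul hR (C := 3) (by norm_num)) (e.mono fun n d u hu v hv g => ?_)).mono
      (Eventually.of_forall fun n => ch_mono ((Fn.fst _ _).pair ((Fn.snd _ _).right _))))
  · have := ((d.2.2 ω hω).2.2.trans (p n (hij n).2))
    rw [le_div_iff₀ (by positivity), ← abs_of_pos (a := (2 : ℝ) ^ j n) (by positivity),
      ← abs_mul] at this
    exact (le_of_eq (by congr 1; ring)).trans this
  · obtain ⟨g1, g2⟩ := Prod.mk.inj g
    have a1 := abs_le.1 ((d.2.2 u hu).2.2.trans (p n ((hij n).1.trans (hij n).2)))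
    have a2 := abs_le.1 ((d.2.2 v hv).2.2.trans (p n ((hij n).1.trans (hij n).2)))
    have a3 : |c n v * (X n u - X n v)| ≤ L n / 2 ^ i n := by
      rw [abs_mul, div_eq_mul_one_div]
      exact mul_le_mul (d.2.2 v hv).2.1 (near_fl1 g1) (abs_nonneg _) (hL.pos n).le
    rw [d.1 u hu v hv g2, d.2.1 u hu v hv g2] at a1
    rw [mul_div_assoc, abs_le] at *
    constructor <;> linarith [a1.1, a1.2, a2.1, a2.2, a3.1, a3.2]

/-- Zoom into a window. -/
theorem HTw.win (h : HTw k θ P X K R) {i : ℕ → ℕ} (hi : ∀ n, i n + R' n ≤ R n) (e : Frac R' R) :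
    HTw k θ P (fun n ω => 2 ^ i n * X n ω) (fun n ω => (fl1 (i n) (X n ω), K n ω)) R' := by
  intro a b hab
  have f : ∀ n (r : ℕ) (x : ℝ), (2 : ℝ) ^ r * (2 ^ i n * x) = 2 ^ (i n + r) * x := fun n r x => by
    ring
  refine ((((h (fun n => i n + a n) (fun n => i n + b n) fun n => by
    have := hab n; have := hi n; omega).frac e).mono (Le.of_le fun n => by simp)).congr
      (Eventually.of_forall fun n ω _ => by rw [f])).coarse (Eventually.of_forall fun n =>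
    Fn.pair (fun u _ v _ g => ?_) (Fn.pair (fun _ _ _ _ g =>
      fl1_eq_of_le (Nat.le_add_right _ _) (congrArg Prod.fst g)) (Fn.snd _ _)))
  unfold fl1
  rw [f, f]
  exact congrArg Prod.fst g

/-- The difference of two copies given `K`. -/
theorem HTw.dbl (h : HTw (k + 1) θ P X K R) (hR : Big R) :
    HTw k θ (fun n => glue (P n) (P n) (K n) (K n)) (fun n v => X n v.1 - X n v.2)
      (fun n v => K n v.1) R := by
  intro a b hab
  have e := (HT1.dbl (A := fun n ω => fl1 (a n) (X n ω)) (h a b hab) hR).congr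
    (Y := fun n v => 2 ^ b n * (X n v.1 - X n v.2)) (Eventually.of_forall fun n v _ => by rw [mul_sub])
  refine e.ctx hR ((Sm.near1 (x := fun n (v : Ω n × Ω n) => X n v.1 - X n v.2) (j := a) (G := fun n v =>
      (fl1 (a n) (X n v.1), fl1 (a n) (X n v.2), K n v.1)) hR (hR.sub one_le_two)
      (Eventually.of_forall fun n u _ v _ g => ?_)).mono (Eventually.of_forall fun n =>
        ch_mono ((Fn.fst _ _).pair (((Fn.snd _ _).right _).right _))))
  simp only [Prod.mk.injEq] at g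
  have a1 := abs_le.1 (near_fl1 g.1)
  have a2 := abs_le.1 (near_fl1 g.2.1)
  rw [abs_le, div_eq_mul_one_div 2]
  constructor <;> linarith [a1.1, a1.2, a2.1, a2.2]

/-- The window that starts at the top, without the integer part in the context. -/
theorem HTw.one (h : HTw k θ P X K R) {b : ℕ → ℕ} (hb : ∀ n, b n ≤ R n) :
    HT1 k P (fun n ω => 2 ^ b n * X n ω) K R fun n => (1 - θ) * b n * lg :=
  ((h (fun _ => 0) b fun n => ⟨Nat.zero_le _, hb n⟩).coarse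
    (Eventually.of_forall fun _ => Fn.snd _ _)).mono (Le.of_le fun n => by simp)

end Pool.Agent.MP_5168f5_an.QA
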