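import Pool.Agent.MP_5168f5_an.H17F.KS
import Pool.Agent.MP_5168f5_an.AN.A2

/-! Almost monotone profiles become linear after a slow zoom at a suitable level. -/

namespace Pool.Agent.MP_5168f5_an.QA

open H19 H17S H17F Filter Topology

/-- The profile is almost monotone on `[0, L]` and its increment is at most `A * L`. -/
def AM (L : ℕ → ℕ) (φ : ℕ → ℕ → ℝ) (A : ℝ) : Prop :=
  (∀ ε : ℝ, 0 < ε → ∀ᶠ n in UF, ∀ c c', c ≤ c' → c' ≤ L n → φ n c ≤ φ n c' + ε * L n) ∧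
    Le L (fun n => φ n (L n) - φ n 0) fun n => A * L n

/-- The profile is linear with slope `s` near `c₀`, in the unit `u`. -/
def LinAt (u c₀ : ℕ → ℕ) (φ : ℕ → ℕ → ℝ) (s : ℝ) : Prop := ∀ R ε : ℝ, 0 < ε →
  ∀ᶠ n in UF, ∀ c : ℕ, |(c : ℝ) - c₀ n| ≤ R * u n → |φ n c - φ n (c₀ n) - s * (c - c₀ n)| ≤ ε * u n

/-- The level `c₀` is far from both ends of `[0, L]`. -/
def Mid (L u c₀ : ℕ → ℕ) : Prop := ∀ R : ℝ, ∀ᶠ n in UF, R * u n ≤ c₀ n ∧ c₀ n + R * u n ≤ L n

namespace BlowA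

variable {L : ℕ → ℕ} {φ : ℕ → ℕ → ℝ} {A : ℝ}

/-- `f / L` tends to `s`. -/
def Tn (L : ℕ → ℕ) (f : ℕ → ℝ) (s : ℝ) : Prop :=
  ∀ t : ℝ, 0 < t → ∀ᶠ n in UF, |f n - s * L n| ≤ t * L n

theorem ex_tn (hL : Big L) {f : ℕ → ℝ} {C : ℝ} (h : ∀ᶠ n in UF, |f n| ≤ C * L n) :
    ∃ s, Tn L f s := by
  have h1 : ∀ᶠ n in UF, f n / L n ∈ Set.Icc (-C) C := by
    filter_upwards [h, hL.ev 1] with n a b
    rw [Set.mem_Icc, ← abs_le, abs_div, Nat.abs_cast, div_le_iff₀ (by linarith)]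
    exact a
  obtain ⟨s, -, hs⟩ := isCompact_Icc.ultrafilter_le_nhds
    ((hyperfilter ℕ).map fun n => f n / L n) (le_principal_iff.2 h1)
  refine ⟨s, fun t ht => ?_⟩
  have h2 : ∀ᶠ n in UF, dist (f n / L n) s < t := hs (Metric.ball_mem_nhds s ht)
  filter_upwards [h2, hL.ev 1] with n a b
  have p : (0 : ℝ) < L n := by linarith
  rw [Real.dist_eq] at a
  have e : f n - s * L n = (f n / L n - s) * L n := by field_simp
  rw [e, abs_mul, abs_of_pos p]
  exact mul_le_mul_of_nonneg_right a.le p.le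

theorem le_of_ev (hL : Big L) {a b : ℝ}
    (h : ∀ t : ℝ, 0 < t → ∀ᶠ n in UF, a * L n ≤ b * L n + t * L n) : a ≤ b :=
  le_of_forall_pos_le_add fun t ht => by
    obtain ⟨n, u, v⟩ := ((h t ht).and (hL.ev 1)).exists
    exact le_of_mul_le_mul_right (by linarith) (show (0 : ℝ) < L n by linarith)

/-- The level at the relative position `q`. -/
noncomputable def I (L : ℕ → ℕ) (q : ℝ) (n : ℕ) : ℕ := ⌊min q 1 * L n⌋₊

theorem I_le (q : ℝ) (n : ℕ) : I L q n ≤ L n :=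
  Nat.floor_le_of_le (mul_le_of_le_one_left (Nat.cast_nonneg _) (min_le_right _ _))

theorem I_mono {q q' : ℝ} (h : q ≤ q') (n : ℕ) : I L q n ≤ I L q' n :=
  Nat.floor_le_floor (mul_le_mul_of_nonneg_right (min_le_min_right _ h) (Nat.cast_nonneg _))

theorem I_tn (hL : Big L) {q : ℝ} (h0 : 0 ≤ q) (h1 : q ≤ 1) : Tn L (fun n => I L q n) q :=
  fun t ht => (hL.sm 1 t ht).mono fun n a => by
    unfold I
    rw [min_eq_left h1]
    have := Nat.abs_floor_sub_le (a := q * L n) (by positivity)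
    linarith

theorem prof (hL : Big L) (h : AM L φ A) : ∃ f : ℝ → ℝ, Monotone f ∧ f 1 - f 0 ≤ A ∧
    ∀ q, Tn L (fun n => φ n (I L q n) - φ n 0) (f q) := by
  have h1 : ∀ q, ∃ s, Tn L (fun n => φ n (I L q n) - φ n 0) s := fun q =>
    ex_tn hL (C := |A| + 2) (by
      filter_upwards [h.1 1 one_pos, h.2 1 one_pos] with n a b
      have a1 := a 0 _ (Nat.zero_le _) (I_le q n)
      have a2 := a _ _ (I_le q n) le_rfl
      have p : (0 : ℝ) ≤ L n := Nat.cast_nonneg _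
      have a3 := mul_le_mul_of_nonneg_right (le_abs_self A) p
      have a4 := mul_nonneg (abs_nonneg A) p
      rw [abs_le]; constructor <;> linarith)
  choose f hf using h1
  refine ⟨f, fun q q' e => le_of_ev hL fun t ht => ?_, ?_, hf⟩
  · filter_upwards [hf q (t / 3) (by positivity), hf q' (t / 3) (by positivity),
      h.1 (t / 3) (by positivity)] with n a b c
    linarith [c _ _ (I_mono e n) (I_le q' n), (abs_le.1 a).1, (abs_le.1 b).2]
  · refine le_of_ev hL fun t ht => ?_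
    filter_upwards [hf 1 (t / 3) (by positivity), hf 0 (t / 3) (by positivity),
      h.2 (t / 3) (by positivity)] with n a b c
    have e1 : I L 1 n = L n := by simp [I]
    have e0 : I L 0 n = 0 := by simp [I]
    rw [e1] at a
    rw [e0] at b
    linarith [(abs_le.1 a).1, (abs_le.1 b).2]

theorem near (hL : Big L) (h : AM L φ A) {f : ℝ → ℝ}
    (hf : ∀ q, Tn L (fun n => φ n (I L q n) - φ n 0) (f q)) {x s : ℝ} (x0 : 0 < x) (x1 : x < 1)
    (hd : HasDerivAt f s x) {ε : ℝ} (hε : 0 < ε) : ∃ δ : ℝ, 0 < δ ∧ ∀ ε' : ℝ, 0 < ε' →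
    ∀ᶠ n in UF, ∀ c : ℕ, |(c : ℝ) - I L x n| ≤ δ * L n →
      |φ n c - φ n (I L x n) - s * (c - I L x n)| ≤ ε * |(c : ℝ) - I L x n| + ε' * L n := by
  obtain ⟨δ₀, d0, d1⟩ := Metric.eventually_nhds_iff.1 (hd.isLittleO.def hε)
  simp only [Real.dist_eq, Real.norm_eq_abs, smul_eq_mul] at d1
  obtain ⟨δ, p0, p1, p2, p3⟩ : ∃ δ : ℝ, 0 < δ ∧ 3 * δ ≤ δ₀ ∧ 3 * δ ≤ x ∧ 3 * δ ≤ 1 - x :=
    ⟨min δ₀ (min x (1 - x)) / 3, by have := sub_pos.2 x1; positivity,
      by linarith [min_le_left δ₀ (min x (1 - x))],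
      by linarith [min_le_right δ₀ (min x (1 - x)), min_le_left x (1 - x)],
      by linarith [min_le_right δ₀ (min x (1 - x)), min_le_right x (1 - x)]⟩
  refine ⟨δ, p0, fun ε' hε' => ?_⟩
  by_contra k
  have k1 := not_ev.1 k
  have k2 : ∀ n, ∃ c : ℕ, (¬∀ c : ℕ, |(c : ℝ) - I L x n| ≤ δ * L n →
      |φ n c - φ n (I L x n) - s * (c - I L x n)| ≤ ε * |(c : ℝ) - I L x n| + ε' * L n) →
      |(c : ℝ) - I L x n| ≤ δ * L n ∧ ε * |(c : ℝ) - I L x n| + ε' * L n <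
        |φ n c - φ n (I L x n) - s * (c - I L x n)| := fun n => by
    by_cases a : ∀ c : ℕ, |(c : ℝ) - I L x n| ≤ δ * L n →
      |φ n c - φ n (I L x n) - s * (c - I L x n)| ≤ ε * |(c : ℝ) - I L x n| + ε' * L n
    · exact ⟨0, fun b => absurd a b⟩
    · push Not at a
      exact a.imp fun c b _ => b
  choose c hc using k2
  have k3 := k1.mono hc
  have hx := I_tn hL x0.le x1.le
  obtain ⟨y, hy⟩ := ex_tn hL (f := fun n => (c n : ℝ) - I L x n) (k3.mono fun n a => a.1)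
  have y1 : |y| ≤ δ := abs_le.2 ⟨le_of_ev hL fun t ht => by
      filter_upwards [hy t ht, k3] with n a b
      linarith [(abs_le.1 a).2, (abs_le.1 b.1).1], le_of_ev hL fun t ht => by
      filter_upwards [hy t ht, k3] with n a b
      linarith [(abs_le.1 a).1, (abs_le.1 b.1).2]⟩
  obtain ⟨t, t0, t1, t2⟩ : ∃ t : ℝ, 0 < t ∧ t ≤ δ ∧ t * (2 * ε + 2 * |s| + 3) ≤ ε' :=
    ⟨min δ (ε' / (2 * ε + 2 * |s| + 3)), by positivity, min_le_left _ _,
      (le_div_iff₀ (by positivity)).1 (min_le_right _ _)⟩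
  obtain ⟨y2, y3⟩ := abs_le.1 y1
  have f1 := d1 (y := x + y + t) (by rw [abs_lt]; constructor <;> linarith)
  have f2 := d1 (y := x + y - t) (by rw [abs_lt]; constructor <;> linarith)
  have g1 : |x + y + t - x| ≤ |y| + t := by
    rw [abs_le]; constructor <;> linarith [le_abs_self y, neg_abs_le y]
  have g2 : |x + y - t - x| ≤ |y| + t := by
    rw [abs_le]; constructor <;> linarith [le_abs_self y, neg_abs_le y]
  have f3 := (abs_le.1 (f1.trans (mul_le_mul_of_nonneg_left g1 hε.le))).2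
  have f4 := (abs_le.1 (f2.trans (mul_le_mul_of_nonneg_left g2 hε.le))).1
  obtain ⟨n, ⟨-, a0⟩, a1, a2, a3, a4, a5, a6⟩ := (k3.and ((hy _ (half_pos t0)).and
    ((hx _ (half_pos t0)).and ((hf (x + y + t) t t0).and ((hf (x + y - t) t t0).and
    ((hf x t t0).and (h.1 t t0))))))).exists
  have p : (0 : ℝ) ≤ L n := Nat.cast_nonneg _
  obtain ⟨b1, b2⟩ := abs_le.1 a1
  obtain ⟨b3, b4⟩ := abs_le.1 a2
  have c1 : c n ≤ I L (x + y + t) n := Nat.le_floor (by rw [min_eq_left (by linarith)]; linarith)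
  have c2 : I L (x + y - t) n ≤ c n :=
    Nat.floor_le_of_le (by rw [min_eq_left (by linarith)]; linarith)
  have m1 := a6 _ _ c1 (I_le _ n)
  have m2 := a6 _ _ c2 (c1.trans (I_le _ n))
  have s1 : |s * ((c n : ℝ) - I L x n - y * L n)| ≤ |s| * (t * L n) := by
    rw [abs_mul]
    exact mul_le_mul_of_nonneg_left (a1.trans (by nlinarith)) (abs_nonneg s)
  have s2 : |y| * L n ≤ |(c n : ℝ) - I L x n| + t * L n := by
    have e : |y| * L n = |y * L n| := by rw [abs_mul, Nat.abs_cast]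
    rw [e, abs_le]
    constructor <;> nlinarith [le_abs_self ((c n : ℝ) - I L x n), neg_abs_le ((c n : ℝ) - I L x n)]
  have s3 := mul_le_mul_of_nonneg_left s2 hε.le
  have s4 := mul_le_mul_of_nonneg_right t2 p
  have s5 := mul_le_mul_of_nonneg_right f3 p
  have s6 := mul_le_mul_of_nonneg_right f4 p
  have s7 : |s * (t * L n)| ≤ |s| * (t * L n) := by
    rw [abs_mul, abs_of_nonneg (mul_nonneg t0.le p)]
  refine absurd a0 (not_lt.2 (abs_le.2 ⟨?_, ?_⟩))
  · linarith [(abs_le.1 s1).2, (abs_le.1 s7).2, (abs_le.1 a4).1, (abs_le.1 a5).2]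
  · linarith [(abs_le.1 s1).1, (abs_le.1 s7).2, (abs_le.1 a3).2, (abs_le.1 a5).1]

end BlowA

open BlowA in
/-- The blow up. -/
theorem blow {ι : Type} [Finite ι] {L : ℕ → ℕ} {φ : ι → ℕ → ℕ → ℝ} {A : ι → ℝ} (hL : Big L)
    (h : ∀ j, AM L (φ j) (A j)) (g : ι) {η : ℝ} (hη : 0 < η) :
    ∃ (s : ι → ℝ) (c₀ : ℕ → ℕ) (M₀ : ℕ → ℝ), (∀ j, 0 ≤ s j) ∧ s g ≤ A g + η ∧ Sm L M₀ ∧
      ∀ u : ℕ → ℕ, (Sm L fun n => u n) → Sm u M₀ → Mid L u c₀ ∧ ∀ j, LinAt u c₀ (φ j) (s j) := by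
  choose f f1 f2 f3 using fun j => prof hL (h j)
  obtain ⟨x, ⟨x0, x1⟩, d, -, d1⟩ := AN.a2core (G := fun q => (A g + η) * q - f g q)
    (K := A g + η) (p := fun q => ∀ j, DifferentiableAt ℝ (f j) q) zero_lt_one
    (fun a b _ e _ => by linarith [f1 g e.le]) (by linarith [f2 g])
    (MeasureTheory.ae_all_iff.2 fun j => (f1 j).ae_differentiableAt)
  have d2 : HasDerivAt (fun q => (A g + η) * q - f g q) ((A g + η) * 1 - deriv (f g) x) x :=
    ((hasDerivAt_id x).const_mul _).sub (d g).hasDerivAt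
  rw [d2.deriv] at d1
  choose δ δ0 δ1 using fun (k : ℕ) j => near hL (h j) (f3 j) x0 x1 (d j).hasDerivAt
    (ε := 1 / (k + 1 : ℝ)) (by positivity)
  obtain ⟨m, m1, m2⟩ := KSA.spill _ fun m => (eventually_all_finite (Set.finite_Iic m)).2
    fun k _ => eventually_all.2 fun j => δ1 k j (1 / (m + 1 : ℝ)) (by positivity)
  refine ⟨fun j => deriv (f j) x, I L x, fun n => 1 / (m n + 1 : ℝ) * L n,
    fun j => (f1 j).deriv_nonneg, by linarith, fun ε hε => ?_, fun u u1 u2 => ⟨fun R => ?_,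
    fun j R ε hε => ?_⟩⟩
  · filter_upwards [m1.ev (1 / ε)] with n a
    have : 1 / (m n + 1 : ℝ) ≤ ε := by
      rw [div_le_iff₀ hε] at a
      rw [div_le_iff₀ (by positivity)]; linarith
    simpa using mul_le_mul_of_nonneg_right this (Nat.cast_nonneg (L n))
  · have t0 : 0 < min x (1 - x) / 2 := by have := sub_pos.2 x1; positivity
    filter_upwards [u1.smul (abs_nonneg R) _ t0, I_tn hL x0.le x1.le _ t0] with n a b
    have p : (0 : ℝ) ≤ L n := Nat.cast_nonneg _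
    have e := mul_le_mul_of_nonneg_right (le_abs_self R) (Nat.cast_nonneg (α := ℝ) (u n))
    have e1 := mul_le_mul_of_nonneg_right (min_le_left x (1 - x)) p
    have e2 := mul_le_mul_of_nonneg_right (min_le_right x (1 - x)) p
    constructor <;> linarith [(abs_le.1 b).1, (abs_le.1 b).2]
  · obtain ⟨k, hk⟩ := exists_nat_one_div_lt (show 0 < ε / 2 / (|R| + 1) by positivity)
    filter_upwards [u1.smul (abs_nonneg R) _ (δ0 k j), u2 _ (half_pos hε), m2,
      m1.eventually_ge_atTop k] with n a b e k1 c hc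
    have p : (0 : ℝ) ≤ u n := Nat.cast_nonneg _
    have hc' := hc.trans (mul_le_mul_of_nonneg_right (le_abs_self R) p)
    have e1 := e _ le_rfl k k1 j c (by linarith)
    have e2 := mul_le_mul hk.le hc' (abs_nonneg _) (by positivity)
    have e3 : ε / 2 / (|R| + 1) * (|R| * u n) ≤ ε / 2 * u n := by
      rw [← mul_assoc]
      refine mul_le_mul_of_nonneg_right ?_ p
      rw [div_mul_eq_mul_div, div_le_iff₀ (by positivity)]; linarith
    linarith

/-- A unit between a small quantity and the old unit. -/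
theorem ex_mid {L : ℕ → ℕ} {M₀ : ℕ → ℝ} (hL : Big L) (h : Sm L M₀) :
    ∃ u : ℕ → ℕ, Big u ∧ (Sm L fun n => u n) ∧ Sm u M₀ := by
  obtain ⟨k, k1, k2⟩ := KSA.spill (fun k n => (k + 1 : ℝ) ^ 2 * (M₀ n + 1) ≤ L n ∧
      (k + 1 : ℝ) ^ 2 ≤ L n) fun k => by
    filter_upwards [(h.add (hL.sm 1)) (1 / (k + 1 : ℝ) ^ 2) (by positivity),
      hL.ev ((k + 1 : ℝ) ^ 2)] with n a b
    refine ⟨?_, b⟩
    rw [zero_add, one_div, inv_mul_eq_div, le_div_iff₀ (by positivity)] at a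
    linarith
  have key : ∀ᶠ n in UF, (k n + 1 : ℝ) * (M₀ n + 1) ≤ ⌈(L n : ℝ) / (k n + 1)⌉₊ ∧
      (k n + 1 : ℝ) ≤ ⌈(L n : ℝ) / (k n + 1)⌉₊ := k2.mono fun n a => by
    obtain ⟨b, c⟩ := a _ le_rfl
    constructor <;> refine le_trans ?_ (Nat.le_ceil _) <;>
      rw [le_div_iff₀ (by positivity)] <;> linarith
  refine ⟨fun n => ⌈(L n : ℝ) / (k n + 1)⌉₊, tendsto_atTop.2 fun b => ?_, fun ε hε => ?_,
    fun ε hε => ?_⟩
  · filter_upwards [key, k1.ev b] with n a c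
    exact Nat.cast_le.1 (c.trans (le_trans (by linarith) a.2))
  · filter_upwards [k1.ev (2 / ε), hL.sm 1 _ (half_pos hε)] with n a b
    have c := (Nat.ceil_lt_add_one (show 0 ≤ (L n : ℝ) / (k n + 1) by positivity)).le
    have d : (L n : ℝ) / (k n + 1) ≤ ε / 2 * L n := by
      rw [div_le_iff₀ hε] at a
      rw [div_le_iff₀ (by positivity)]
      nlinarith [(Nat.cast_nonneg (L n) : (0 : ℝ) ≤ _)]
    linarith
  · filter_upwards [key, k1.ev (1 / ε)] with n a b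
    rw [div_le_iff₀ hε] at b
    have c := mul_le_mul_of_nonneg_left a.1 hε.le
    rcases le_total (M₀ n) 0 with d | d
    · exact d.trans (by positivity)
    · nlinarith

end Pool.Agent.MP_5168f5_an.QA
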