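import Pool.Agent.MP_5168f5_an.QA.SelD
import Pool.Agent.MP_5168f5_an.QA.Blow

/-! The choice of the parameters for the tangent system. -/

namespace Pool.Agent.MP_5168f5_an.QA

open H19 H17S H17F MX Filter

theorem sm_of {w g : ℕ → ℕ} {f : ℕ → ℝ} (hw : Big w)
    (h : ∀ᶠ n in UF, 0 ≤ f n ∧ w n * f n ≤ g n) : Sm g f := fun ε hε => by
  filter_upwards [h, hw.ev (1 / ε)] with n a b
  rw [div_le_iff₀ hε] at b
  nlinarith [mul_le_mul_of_nonneg_left a.2 hε.le, mul_le_mul_of_nonneg_right b a.1]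

theorem ofT1 : OfT1 := by
  intro hc hp N D e1 e2 ex nj hn
  obtain ⟨C₁, c1, hc⟩ := hc N D e1 e2 ex nj
  simp only [MuK, Le, not_forall] at hn
  obtain ⟨x, M, hx, η', h0, hn⟩ := hn
  have c0 : 0 < C₁ := by linarith
  set s := η' / 128 with hs
  have s0 : 0 < s := by positivity
  refine ⟨η' / 2 / 1000, min C₁⁻¹ (s / 2 / C₁), by positivity, by positivity,
    fun η θ₁ a1 a2 a3 => ?_⟩
  have t0 : 0 < min θ₁ (η ^ dV N D / C₁) := by positivity
  obtain ⟨I, hI⟩ := exists_nat_gt (8 * (C₁ + 2 * s) / s)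
  have I0 : (0 : ℝ) < I := lt_trans (by positivity) hI
  have v1 : 1 / (I + 1 : ℝ) ≤ 1 := div_le_one_of_le₀ (by linarith) (by positivity)
  obtain ⟨C, C0, hC⟩ := hc η _ s ⟨a1, (mul_le_mul_of_nonneg_left (a2.trans (min_le_left _ _))
    c0.le).trans_eq (mul_inv_cancel₀ c0.ne'), t0.le, (le_div_iff₀' c0).1 (min_le_right _ _)⟩ t0
    (by linarith [(le_div_iff₀' c0).1 (a2.trans (min_le_right _ _))]) (1 / (I + 1 : ℝ)) I
    (by positivity)
  obtain ⟨L₀, l1, l2, -⟩ := ex_mid (M₀ := fun _ => 0) hx.big Le.rfl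
  obtain ⟨y, L, W, Dh, hy, s1, -, s3, s4, s5, s6, s7, s8, s9⟩ :=
    sel N x M L₀ (s / (N + 1)) hx l1 (by positivity)
  obtain ⟨k, k1, k2⟩ := KSA.spill (fun k n => (k + 1) ^ (2 * I + 1) ≤ L n) fun k =>
    s1.eventually_ge_atTop _
  obtain ⟨w, hw⟩ : ∃ w : ℕ → ℕ, ∀ n, w n = k n + 1 := ⟨_, fun _ => rfl⟩
  have w0 : ∀ n, 0 < w n := fun n => hw n ▸ Nat.succ_pos _
  have w1 : ∀ n, (1 : ℝ) ≤ w n := fun n => by exact_mod_cast w0 n
  have w2 : Big w := tendsto_atTop_mono (fun n => (hw n).ge.trans' (Nat.le_succ _)) k1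
  let X : ℕ → ℕ → ℝ := fun n r => if r = 0 then 0 else (w n : ℝ) ^ (2 * r + 1)
  have x1 : ∀ n r, 0 ≤ X n r ∧ X n r ≤ (w n : ℝ) ^ (2 * r + 1) := fun n r => by
    simp only [X]; split_ifs <;> exact ⟨by positivity, by first | positivity | exact le_rfl⟩
  have x2 : ∀ n, Pen.Ok (min θ₁ (η ^ dV N D / C₁)) (1 / (I + 1 : ℝ)) (X n) := fun n =>
    ⟨t0.le, by positivity, v1, rfl, monotone_nat_of_le_succ fun r =>
      (x1 n r).2.trans (pow_le_pow_right₀ (w1 n) (by omega))⟩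
  have ch : ∀ n, ∃ Y : Chn D (y n), C ≤ w n → Y.M = M n ∧ Y.w = w n ∧
      Y.Ok η (min θ₁ (η ^ dV N D / C₁)) (1 / (I + 1 : ℝ)) s C (C₁ + 2 * s) (X n) I := fun n => by
    by_cases e : C ≤ w n
    · exact (hC (y n) (M n) (w n) (X n) (hy.box n) (hy.triv n) (hy.sep n) (w0 n) e (x2 n)).imp
        fun _ a _ => a
    · exact ⟨⟨Unit, 0, 0, fun _ _ => ⟨0, 0, 0⟩, fun _ _ => ()⟩, fun a => absurd a e⟩
  choose Y hY using ch
  have n1 : (1 : ℝ) ≤ N + 1 := by linarith [Nat.cast_nonneg (α := ℝ) N]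
  obtain ⟨θ, β, js, Γ, kf, sl, Z, b1, b2, b3⟩ := hp N D y M L w W Dh Y (η' / 2) (s / (N + 1)) η _ _
    s C (C₁ + 2 * s) X I ⟨hy, s5, s6, s7, s8, s9⟩ (by positivity) (by positivity) s0.le C0
    (by positivity) (by exact_mod_cast I0) (by
      filter_upwards [not_ev.1 hn, s4] with n a b
      have := mul_le_mul_of_nonneg_right (div_le_self s0.le n1) (Nat.cast_nonneg (α := ℝ) (M n))
      nlinarith [not_le.1 a, Nat.cast_nonneg (α := ℝ) (M n)])
    (by
      have a : 1 / (I + 1 : ℝ) ≤ 1 / I := one_div_le_one_div_of_le I0 (by linarith)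
      have b : 8 * (1 / I) * (C₁ + 2 * s) ≤ s := by
        rw [div_lt_iff₀ s0] at hI
        rw [mul_right_comm, mul_one_div, div_le_iff₀ I0]
        linarith
      rw [mul_div_cancel₀ _ (by positivity)]
      nlinarith [mul_le_mul_of_nonneg_right a (show 0 ≤ C₁ + 2 * s by positivity)])
    w2 (l2.mono (s3.mono fun n a => by exact_mod_cast a))
    (fun r hr => ⟨fun n => w n ^ (2 * r + 2), sm_of w2 (Eventually.of_forall fun n =>
        ⟨by positivity, by push_cast; rw [← pow_two]; exact pow_le_pow_right₀ (w1 n) (by omega)⟩),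
      sm_of w2 (Eventually.of_forall fun n => ⟨(x1 n r).1, by
        push_cast; rw [pow_succ' _ (2 * r + 1)]
        exact mul_le_mul_of_nonneg_left (x1 n r).2 (by positivity)⟩),
      fun A => (w2.ev (A + 1)).mono fun n a => by
        simp only [X, Nat.succ_ne_zero, if_false]
        push_cast
        rw [show 2 * (r + 1) + 1 = 2 * r + 2 + 1 by ring, pow_succ' _ (2 * r + 2)]
        exact mul_lt_mul_of_pos_right (by linarith) (by have := w1 n; positivity),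
      sm_of w2 (k2.mono fun n a => ⟨by positivity, by
        have := a _ le_rfl
        rw [← hw] at this
        exact_mod_cast le_trans (by
          rw [← pow_succ']; exact Nat.pow_le_pow_right (w0 n) (by omega)) this⟩)⟩)
    ((w2.ev C).mono fun n a => ⟨x2 n, hY n a⟩)
  exact ⟨θ, β, js, Γ, kf, sl, Z, b1, b2.trans (min_le_left _ _), b3⟩

end Pool.Agent.MP_5168f5_an.QA
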