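import Pool.Agent.MP_5168f5_an.QA.CpRob

/-! The Kakeya maximal estimate: the output of the chain of caps on one space. -/

namespace Pool.Agent.MP_5168f5_an.QA.Cp

open H19 H17S H17F AN AN.GA AN.N6 Matrix Finset H61Z

variable {ι κ α Ω Λ Λ' ζ β γ δ : Type}

/-- The union bound. -/
theorem pb_lt (P : FP Ω) (E : ℕ → Ω → Prop) (m : ℕ) {D : ℝ}
    (h : ∀ k < m, pb P (fun ω => ¬E k ω) ≤ D) : pb P (fun ω => ¬∀ k < m, E k ω) ≤ m * D := by
  induction m with
  | zero => simpa using (pb_zero (P := P) (E := fun _ => False) fun _ _ k => k).le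
  | succ m ih =>
    have h1 := ih fun k a => h k (a.trans (Nat.lt_succ_self m))
    have h2 := h m (Nat.lt_succ_self m)
    have h3 := pb_or P (fun ω => ¬∀ k < m, E k ω) fun ω => ¬E m ω
    push_cast
    refine (pb_mono fun ω _ k => ?_).trans (h3.trans (by linarith))
    by_contra c
    push Not at c
    exact k fun j a => (Nat.lt_succ_iff_lt_or_eq.1 a).elim (c.1 j) fun e => e ▸ c.2

/-- A bounded variable that is small off a rare event and off the informative cells. -/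
theorem ev_le (P : FP Ω) (K : Ω → β) (S : Ω → γ) {V : Ω → ℝ} {r c W ε : ℝ} (hc : 0 < c)
    (hr : 0 ≤ r) (hW : ∀ ω ∈ P.S, V ω ≤ W) (W0 : 0 ≤ W)
    (h : pb P (fun ω => ¬(V ω ≤ r ∨ c ≤ -Real.log (S20.dn P K S ω))) ≤ ε) :
    P.E V ≤ r + W * (ε + ch P K S / c) := by
  have h1 := G39.markov P (u := fun ω => -Real.log (S20.dn P K S ω)) (fun ω k => neg_nonneg.2
    (Real.log_nonpos (S20.dn_pos k K S).le (S20.dn_le_one _ _ _ _))) c
  rw [← S20.ch_dn, ← le_div_iff₀' hc] at h1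
  have h2 : pb P (fun ω => ¬V ω ≤ r) ≤ ε + ch P K S / c :=
    (H39F.pb_union P fun ω _ k => by tauto).trans (add_le_add h h1)
  refine le_trans ?_ (add_le_add le_rfl (mul_le_mul_of_nonneg_left h2 W0))
  rw [mul_comm, ← E_if]
  refine le_trans (P.E_mono fun ω k => ?_) ((P.E_add (fun _ => r) _).trans
    (congrArg (· + _) (P.E_const r))).le
  by_cases e : V ω ≤ r
  · rw [if_neg (not_not.2 e), add_zero]; exact e
  · rw [if_pos e]; linarith [hW ω k]

/-- The information of the last cell. -/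
theorem mi_top {P : FP Ω} (l : Ω → α) {C : Ω → β} {C₀ : Ω → β} {S : Ω → γ} {T : Ω → δ}
    (h1 : Fn P T C₀) (h3 : Fn P C₀ T) : mi P l C C₀ ≤ mi P l S T + ch P C S := by
  have a1 : ch P l C₀ ≤ ch P l T := ch_anti h1
  have a2 : ch P l (fun ω => (C ω, S ω, T ω)) ≤ ch P l fun ω => (C ω, C₀ ω) :=
    ch_anti ((Fn.fst _ _).pair (h3.trans ((Fn.snd S T).trans (Fn.snd _ _))))
  have a3 := ch_tri (P := P) l C fun ω => (S ω, T ω)
  have a4 : ch P C (fun ω => (S ω, T ω)) ≤ ch P C S := ch_anti (Fn.fst _ _)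
  unfold mi
  linarith

variable [Fintype ι] [DecidableEq ι] [Fintype κ] [DecidableEq κ] [Fintype α]

omit [Fintype α] in
theorem vl_bd {d : Da κ α} {S : Set (κ → ℝ)} (g : d.Good S) {F : ℝ} (h : ∀ b, d.fl b ≤ F) :
    0 ≤ Real.log (vl d.wt S) ∧ Real.log (vl d.wt S) ≤
      Real.log ((Fintype.card κ).factorial * Fintype.card κ ^ Fintype.card κ) +
        Fintype.card κ * Real.log F := by
  refine ⟨Real.log_nonneg (by simpa using g.fu.low (wt := d.wt)), ?_⟩
  rcases isEmpty_or_nonempty κ with e | ⟨⟨b⟩⟩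
  · simpa using Real.log_le_log g.fu.vl_pos (g.fu.up (wt := d.wt))
  have k0 : (0 : ℝ) < Fintype.card κ := by
    have : Nonempty κ := ⟨b⟩
    exact_mod_cast Fintype.card_pos
  have F0 : 0 < F := by linarith [h b, g.fl1 b]
  rw [← Real.log_pow, ← Real.log_mul (by positivity) (by positivity), mul_assoc, ← mul_pow]
  refine Real.log_le_log g.fu.vl_pos (g.fu.up.trans (mul_le_mul_of_nonneg_left (pow_le_pow_left₀
    (sum_nonneg fun e _ => by linarith [g.fl1 e]) ?_ _) (Nat.cast_nonneg _)))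
  simpa using sum_le_card_nsmul univ d.fl F fun e _ => h e

/-- Robustness at all steps and all lengths. -/
theorem rob_all {x : Sp ι κ α Ω Λ'} {Φ : Filt (Mt ι)} {O : ℕ → Ω → Λ} {Z : ℕ → Ω → ζ} {s : ℕ → ℝ}
    {m I : ℕ} {τ La ε Ls e : ℝ} {Ψ : ℕ → Ω → Set (κ → ℝ)} {C : ℕ → Ω → Ce ι κ ζ} [Nonempty κ]
    (h : ∀ k < m, x.Hy Φ (O (k + 1)) (Z (k + 1)) (s (k + 1)))
    (t : ∀ k < m, x.St (O (k + 1)) (Z (k + 1)) (s (k + 1)) τ La ε Ls (Ψ k) (Ψ (k + 1)) (C k)
      (C (k + 1))) (hΛ : 1 ≤ La) (hε : 0 < ε) (hI : ∑ b, x.d.fl b < Real.exp I) (he : 0 ≤ e) :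
    pb x.P (fun ω => ¬∀ k < m, ∀ R, 0 < R →
      x.Rb (Ψ (k + 1)) (C (k + 1)) R (Real.exp (e + 1 - Real.log R / La)) ω) ≤
      m * (I * (Real.exp (2 + Real.log Ls + Real.log (2 * Fintype.card κ) - e) +
        ε * Real.exp I)) := by
  have k1 : (1 : ℝ) ≤ Fintype.card κ := by exact_mod_cast Fintype.card_pos
  have L0 : 0 < La := by linarith
  refine pb_lt _ _ m fun k a => le_trans (pb_mono fun ω w => mt fun n' R R0 => ?_)
    (pb_lt x.P (fun i : ℕ => x.Rb (Ψ (k + 1)) (C (k + 1)) (Real.exp i) (Real.exp (e - i / La))) I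
      fun i b => ?_)
  · rcases lt_or_ge R 1 with c | c
    · refine fun _ _ _ _ _ _ => (pb_le_one _ _).trans (Real.one_le_exp ?_)
      have := div_nonpos_of_nonpos_of_nonneg (Real.log_nonpos R0.le c.le) L0.le
      linarith
    rcases le_or_gt (Real.exp I) R with c' | c'
    · exact rb_far ((t k a).nx.2 ω w).1 (Real.exp_pos _).le (hI.trans_le c')
    have l0 := Real.log_nonneg c
    refine (n' ⌊Real.log R⌋₊ ((Nat.floor_lt l0).2 ((Real.log_lt_iff_lt_exp R0).2 c'))).mono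
      ((Real.le_log_iff_exp_le R0).1 (Nat.floor_le l0)) (Real.exp_le_exp.2 ?_)
    have : Real.log R / La ≤ ⌊Real.log R⌋₊ / La + 1 := by
      rw [div_add_one L0.ne']
      exact div_le_div_of_nonneg_right (by linarith [Nat.lt_floor_add_one (Real.log R)]) L0.le
    linarith
  · have r := rob_cell (q := Real.exp (e - i / La)) (h k a) (t k a) L0 hε (Real.exp_pos (i : ℝ))
    rw [Real.log_div (Real.exp_pos _).ne' (by positivity), Real.log_exp,
      ← le_div_iff₀' (Real.exp_pos _), add_div, ← Real.exp_sub, div_eq_mul_inv ε,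
      ← Real.exp_neg] at r
    have l0 : 0 ≤ Real.log (2 * Fintype.card κ) := Real.log_nonneg (by linarith)
    have i0 : (i : ℝ) / La ≤ I := (div_le_self (Nat.cast_nonneg _) hΛ).trans (by exact_mod_cast b.le)
    refine r.trans (add_le_add (Real.exp_le_exp.2 ?_) (mul_le_mul_of_nonneg_left
      (Real.exp_le_exp.2 (by linarith)) hε.le))
    have := div_le_self (show 0 ≤ 1 + Real.log (2 * Fintype.card κ) by linarith) hΛ
    have e1 : (1 - (i - Real.log (2 * Fintype.card κ))) / La =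
      (1 + Real.log (2 * Fintype.card κ)) / La - i / La := by ring
    linarith

end Pool.Agent.MP_5168f5_an.QA.Cp
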