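import Pool.Agent.MP_5168f5_an.QA.HEL

/-! Flat iterated differences: mixed products, domination, near affine images. -/

namespace Pool.Agent.MP_5168f5_an.QA

open H19 H17S H17F MX Filter AddMonoidAlgebra

/-- Nonnegative coefficients. -/
def Nn (f : AZ) : Prop := ∀ y, 0 ≤ f.coeff y

variable {f f' g : AZ} {k : ℕ} {B C : ℝ}

theorem Nn.mul (hf : Nn f) (hg : Nn g) : Nn (f * g) := fun y => by
  rw [mul_coeff]; exact Finset.sum_nonneg fun x _ => mul_nonneg (hf _) (hg _)

theorem Nn.rv (hf : Nn f) : Nn (rv f) := fun y => by rw [rv_coeff]; exact hf _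

theorem Nn.db (hf : Nn f) : Nn (db f) := hf.mul hf.rv

theorem nn_single (x : ℤ) : Nn (single x 1) := fun y => by
  rw [coeff_single, Finsupp.single_apply]; split_ifs <;> norm_num

theorem nn_prod (l : List AZ) (h : ∀ g ∈ l, Nn g) : Nn l.prod := by
  induction l with
  | nil => exact nn_single 0
  | cons a l ih =>
    rw [List.prod_cons]
    exact (h a (by simp)).mul (ih fun g hg => h g (by simp [hg]))

theorem nn_sl {Ω : Type} (Q : FP Ω) (s : Ω → ℤ) (G : Ω → Prop) : Nn (sl Q s G) := fun y => by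
  rw [sl_coeff]; exact pb_nonneg _ _

theorem db_zero (f : AZ) : (db f).coeff 0 = ∑ x ∈ f.coeff.support, f.coeff x ^ 2 := by
  rw [db, mul_coeff]
  exact Finset.sum_congr rfl fun x _ => by rw [rv_coeff, zero_sub, neg_neg, pow_two]

theorem sq_sum_le (f : AZ) (T : Finset ℤ) : ∑ x ∈ T, f.coeff x ^ 2 ≤ (db f).coeff 0 := by
  rw [db_zero, ← Finset.sum_filter_of_ne (p := fun x => x ∈ f.coeff.support) fun x _ e =>
    Finsupp.mem_support_iff.2 fun c => e (by rw [c]; norm_num)]
  exact Finset.sum_le_sum_of_subset_of_nonneg (fun x hx => (Finset.mem_filter.1 hx).2)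
    fun _ _ _ => sq_nonneg _

theorem cs (f g : AZ) (y : ℤ) : (f * g).coeff y ^ 2 ≤ (db f).coeff 0 * (db g).coeff 0 := by
  rw [mul_coeff]
  refine (Finset.sum_mul_sq_le_sq_mul_sq _ _ _).trans (mul_le_mul (sq_sum_le f _) ?_
    (Finset.sum_nonneg fun _ _ => sq_nonneg _) ((Finset.sum_nonneg fun _ _ => sq_nonneg _).trans
      (sq_sum_le f ∅)))
  rw [← Finset.sum_image (g := fun x => y - x) (f := fun u => g.coeff u ^ 2)
    fun a _ b _ e => sub_right_injective e]
  exact sq_sum_le g _

theorem le_of_sq_le_sq {a b : ℝ} (hb : 0 ≤ b) (h : a ^ 2 ≤ b ^ 2) : a ≤ b :=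
  (le_abs_self a).trans (abs_le_of_sq_le_sq' h hb |> abs_le.2)

theorem cs' {y : ℤ} (hf : (db f).coeff 0 ≤ B) (hg : (db g).coeff 0 ≤ B) : (f * g).coeff y ≤ B := by
  have a : 0 ≤ (db f).coeff 0 := by simpa using sq_sum_le f ∅
  have b : 0 ≤ (db g).coeff 0 := by simpa using sq_sum_le g ∅
  exact le_of_sq_le_sq (a.trans hf)
    ((cs f g y).trans (by rw [pow_two]; exact mul_le_mul hf hg b (a.trans hf)))

theorem db_prod (l : List AZ) : db l.prod = (l.map db).prod := by
  induction l with
  | nil => simp [db]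
  | cons a l ih => simp [db_mul, ih]

theorem mixed (k : ℕ) (l : List AZ) (hl : l.length = 2 ^ k) (h : ∀ g ∈ l, En k g B) (y : ℤ) :
    l.prod.coeff y ≤ B := by
  induction k generalizing l y with
  | zero =>
    obtain ⟨g, rfl⟩ := List.length_eq_one_iff.1 hl
    simpa using h g (by simp) y
  | succ k ih =>
    have e : ∀ l' : List AZ, l'.length = 2 ^ k → (∀ g ∈ l', g ∈ l) → (db l'.prod).coeff 0 ≤ B :=
      fun l' a b => by
        rw [db_prod]
        refine ih _ (by simpa using a) (fun g hg => ?_) 0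
        obtain ⟨u, hu, rfl⟩ := List.mem_map.1 hg
        exact h u (b u hu)
    rw [← List.take_append_drop (2 ^ k) l, List.prod_append]
    exact cs' (e _ (by simp [hl, pow_succ]) fun g => List.mem_of_mem_take)
      (e _ (by simp [hl, pow_succ]; omega) fun g => List.mem_of_mem_drop)

theorem En.mono (h : En k f B) (e : B ≤ C) : En k f C := fun y => (h y).trans e

theorem En.rv (h : En k f B) : En k (rv f) B := by
  cases k with
  | zero => intro y; simpa [rv_coeff] using h (-y)
  | succ k => intro y; simpa [db_rv] using h y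

theorem En.shift (h : En k f B) (x : ℤ) : En k (single x 1 * f) B := by
  cases k with
  | zero =>
    intro y
    change (single x 1 * f).coeff y ≤ B
    rw [coeff_single_mul_apply, one_mul]
    exact h _
  | succ k =>
    intro y
    have : db (single x 1 * f) = db f := by
      rw [db_mul, db, rv_single, single_mul_single, add_neg_cancel, mul_one, ← one_def, one_mul]
    rw [Function.iterate_succ_apply, this]
    exact h y

theorem it_mul (k : ℕ) (f g : AZ) : db^[k] (f * g) = db^[k] f * db^[k] g := by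
  induction k generalizing f g with
  | zero => rfl
  | succ k ih => simp [db_mul, ih]

theorem En.dbl (hf : En (k + 1) f B) (hg : En (k + 1) g B) : En k (f * QA.rv g) B := fun y => by
  rw [it_mul]
  refine cs' ?_ ?_
  · rw [← Function.iterate_succ_apply' db]; exact hf 0
  · rw [← Function.iterate_succ_apply' db]; exact hg.rv 0

theorem En.low (h : En k f B) (hf : Nn f) (y : ℤ) : f.coeff y ^ 2 ^ k ≤ B := by
  induction k generalizing f y with
  | zero => simpa using h y
  | succ k ih =>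
    rw [pow_succ', pow_mul]
    exact (pow_le_pow_left₀ (sq_nonneg _) (by simpa using sq_sum_le f {y}) _).trans (ih h hf.db 0)

theorem En.nonneg (h : En k f B) (hf : Nn f) : 0 ≤ B := (pow_nonneg (hf 0) _).trans (h.low hf 0)

/-- Domination by a mixture. -/
theorem En.dom {J : Type} (s : Finset J) (p : J → ℝ) (F : J → AZ) (hp : ∀ j ∈ s, 0 ≤ p j)
    (hC : ∑ j ∈ s, p j ≤ C) (hB : 0 ≤ B) (hF : ∀ j ∈ s, Nn (F j) ∧ En k (F j) B) (hg : Nn g)
    (le : ∀ y, g.coeff y ≤ ∑ j ∈ s, p j * (F j).coeff y) : En k g (C ^ 2 ^ k * B) := by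
  have c0 : 0 ≤ C := (Finset.sum_nonneg hp).trans hC
  have key : ∀ l₁ l₂ : List AZ, (∀ u ∈ l₁, Nn u ∧ ∃ F : J → AZ,
      (∀ j ∈ s, Nn (F j) ∧ En k (F j) B) ∧ ∀ y, u.coeff y ≤ ∑ j ∈ s, p j * (F j).coeff y) →
      (∀ u ∈ l₂, Nn u ∧ En k u B) → l₁.length + l₂.length = 2 ^ k →
      ∀ y, (l₁.prod * l₂.prod).coeff y ≤ C ^ l₁.length * B := by
    intro l₁
    induction l₁ with
    | nil => intro l₂ _ b c y; simpa using mixed k l₂ (by simpa using c) (fun u hu => (b u hu).2) y
    | cons u l₁ ih =>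
      intro l₂ a b c y
      obtain ⟨-, F, h1, h2⟩ := a u (by simp)
      have a' := fun v (hv : v ∈ l₁) => a v (List.mem_cons_of_mem _ hv)
      have n : Nn (l₁.prod * l₂.prod) :=
        (nn_prod _ fun v hv => (a' v hv).1).mul (nn_prod _ fun v hv => (b v hv).1)
      have e : ∀ v : AZ, l₁.prod * (v :: l₂).prod = l₁.prod * l₂.prod * v := fun v => by
        rw [List.prod_cons]; ring
      calc ((u :: l₁).prod * l₂.prod).coeff y = (l₁.prod * l₂.prod * u).coeff y := by
            rw [List.prod_cons]; congr 2; ring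
        _ ≤ ∑ j ∈ s, p j * (l₁.prod * l₂.prod * F j).coeff y := by
            simp only [mul_coeff (l₁.prod * l₂.prod), Finset.mul_sum]
            rw [Finset.sum_comm]
            refine Finset.sum_le_sum fun x _ => (mul_le_mul_of_nonneg_left (h2 _) (n x)).trans_eq ?_
            rw [Finset.mul_sum]
            exact Finset.sum_congr rfl fun j _ => by ring
        _ ≤ ∑ j ∈ s, p j * (C ^ l₁.length * B) := Finset.sum_le_sum fun j hj =>
            mul_le_mul_of_nonneg_left (by
              rw [← e]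
              refine ih _ a' (fun v hv => ?_) (by simp at c ⊢; omega) y
              rcases List.mem_cons.1 hv with rfl | hv
              exacts [h1 j hj, b v hv]) (hp j hj)
        _ ≤ C ^ (u :: l₁).length * B := by
            rw [← Finset.sum_mul, List.length_cons, pow_succ', mul_assoc]
            exact mul_le_mul_of_nonneg_right hC (by positivity)
  obtain ⟨l, a, b, c⟩ := db_list k g
  intro y
  have := key l [] (fun u hu => ?_) (by simp) (by simpa using a) y
  · simpa [a, c] using this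
  · rcases b u hu with rfl | rfl
    · exact ⟨hg, F, hF, le⟩
    · exact ⟨hg.rv, fun j => QA.rv (F j), fun j hj => ⟨(hF j hj).1.rv, (hF j hj).2.rv⟩,
        fun y => by simpa only [rv_coeff] using le (-y)⟩

theorem En.le (h : En k f B) (hf : Nn f) (hg : Nn g) (hC : 0 ≤ C)
    (le : ∀ y, g.coeff y ≤ C * f.coeff y) : En k g (C ^ 2 ^ k * B) :=
  En.dom {()} (fun _ => C) (fun _ => f) (fun _ _ => hC) (by simp) (h.nonneg hf)
    (fun _ _ => ⟨hf, h⟩) hg (by simpa using le)

variable {Ω Ω' : Type}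

theorem En.succ {Q : FP Ω} {s : Ω → ℤ} {G : Ω → Prop} (h : En k (sl Q s G) B) :
    En (k + 1) (sl Q s G) B := by
  have n := nn_sl Q s G
  have := En.dom (k := k) (C := 1) (g := db (sl Q s G)) Q.S Q.p
    (fun ω => single (-s ω) 1 * sl Q s G) (fun ω hω => (Q.pos ω hω).le) Q.sum_one.le (h.nonneg n)
    (fun ω _ => ⟨(nn_single _).mul n, h.shift _⟩) n.db fun y => by
      rw [db, mul_comm, rv_sl, sl_mul_coeff]
      refine Q.E_mono (G := fun ω => (single (-s ω) 1 * sl Q s G).coeff y) fun ω _ => ?_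
      rw [coeff_single_mul_apply, one_mul, neg_add_eq_sub]
      split_ifs
      exacts [le_rfl, n _]
  rw [one_pow, one_mul] at this
  exact this

theorem en_one (k : ℕ) (Q : FP Ω) (s : Ω → ℤ) (G : Ω → Prop) : En k (sl Q s G) 1 := by
  induction k with
  | zero => intro y; simpa [sl_coeff] using pb_le_one _ _
  | succ k ih => exact ih.succ

theorem sl_prod (Q : FP Ω) (Q' : FP Ω') (s : Ω → ℤ) (s' : Ω' → ℤ) (G : Ω → Prop) (G' : Ω' → Prop) :
    sl (prod Q Q') (fun v => s v.1 - s' v.2) (fun v => G v.1 ∧ G' v.2) =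
      sl Q s G * rv (sl Q' s' G') := by
  ext y
  rw [sl_mul_coeff, sl_coeff, pb, prod, E_bind]
  refine Q.E_congr fun a _ => ?_
  rw [rv_coeff, sl_coeff]
  split_ifs with h
  · refine Q'.E_congr fun b _ => ?_
    have : s a - s' b = y ↔ s' b = -(y - s a) := by omega
    by_cases c : G' b ∧ s' b = -(y - s a)
    · rw [if_pos c, if_pos ⟨⟨h, c.1⟩, this.2 c.2⟩]
    · rw [if_neg c, if_neg fun d => c ⟨d.1.2, this.1 d.2⟩]
  · simp [h, FP.E_const]

theorem pb_mem (Q : FP Ω) (s : Ω → ℤ) (G : Ω → Prop) (T : Finset ℤ) :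
    pb Q (fun ω => G ω ∧ s ω ∈ T) = ∑ x ∈ T, pb Q fun ω => G ω ∧ s ω = x := by
  simp only [pb]
  rw [← FP.E_sum]
  exact Q.E_congr fun ω _ => by by_cases a : G ω <;> simp [a]

/-- Near affine images. -/
theorem En.aff (k : ℕ) : ∀ {Ω : Type} {Q : FP Ω} {s u : Ω → ℤ} {G : Ω → Prop} {c b L L' : ℝ},
    0 ≤ L → 0 ≤ L' → 1 ≤ L' * |c| → (∀ ω ∈ Q.S, G ω → |u ω - c * s ω - b| ≤ L) →
    En k (sl Q s G) B → En k (sl Q u G) ((2 * 2 ^ k * L * L' + 1) * B) := by
  induction k with
  | zero =>
    intro Ω Q s u G c b L L' h0 h0' h1 h2 h y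
    have c0 : c ≠ 0 := by rintro rfl; norm_num at h1
    have hB := h.nonneg (nn_sl _ _ _)
    simp only [En, Function.iterate_zero, id, sl_coeff] at h ⊢
    set x := (y - b) / c
    refine (pb_mono (F := fun ω => G ω ∧ s ω ∈ Finset.Icc ⌈x - L * L'⌉ ⌊x + L * L'⌋)
      fun ω hω e => ⟨e.1, ?_⟩).trans ?_
    · have a := h2 ω hω e.1
      have a1 : (u ω : ℝ) - c * s ω - b = c * (x - s ω) := by rw [e.2]; simp only [x]; field_simp; ring
      rw [a1, abs_mul] at a
      have a2 : |x - s ω| ≤ L * L' := by nlinarith [abs_nonneg (x - s ω), abs_nonneg c]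
      rw [Finset.mem_Icc, Int.ceil_le, Int.le_floor]
      constructor <;> linarith [(abs_le.1 a2).1, (abs_le.1 a2).2]
    · rw [pb_mem]
      refine (Finset.sum_le_card_nsmul _ _ B fun x _ => h x).trans ?_
      rw [nsmul_eq_mul, Int.card_Icc]
      refine mul_le_mul_of_nonneg_right ?_ hB
      have a1 := Int.floor_le (x + L * L')
      have a2 := Int.le_ceil (x - L * L')
      rcases le_total (⌊x + L * L'⌋ + 1 - ⌈x - L * L'⌉) 0 with q | q
      · rw [Int.toNat_eq_zero.2 q, Nat.cast_zero]; positivity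
      · rw [← Int.cast_natCast, Int.toNat_of_nonneg q]; push_cast; linarith
  | succ k ih =>
    intro Ω Q s u G c b L L' h0 h0' h1 h2 h
    have e : ∀ s : Ω → ℤ, ∀ B, En (k + 1) (sl Q s G) B ↔
        En k (sl (prod Q Q) (fun v => s v.1 - s v.2) fun v => G v.1 ∧ G v.2) B := fun s B => by
      rw [sl_prod]; rfl
    rw [e] at h ⊢
    refine (ih (b := 0) (L := 2 * L) (by positivity) h0' h1 (fun v hv a => ?_) h).mono
      (le_of_eq (by ring))
    have m := (mem_bind _ _ v).1 hv
    have a1 := abs_le.1 (h2 _ m.1 a.1)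
    have a2 := abs_le.1 (h2 _ m.2 a.2)
    push_cast
    rw [abs_le]; constructor <;> linarith [a1.1, a1.2, a2.1, a2.2]

end Pool.Agent.MP_5168f5_an.QA
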