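import Pool.Agent.MP_5168f5_an.QA.CpHy
import Pool.Agent.MP_5168f5_an.QA.CpFin
import Pool.Agent.MP_5168f5_an.QA.CpSpec
import Pool.Agent.MP_5168f5_an.QA.HAlg

/-! The Kakeya maximal estimate: the fields of the chain record on one space. -/

namespace Pool.Agent.MP_5168f5_an.QA.Cp

open H19 H17S H17F AN AN.GA AN.N6 Matrix Finset H61Z

variable {ι κ α Λ : Type} [Fintype ι] [DecidableEq ι] [Fintype κ] [DecidableEq κ] [Fintype α]

/-- The data that do not depend on the level. -/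
def Pd.ba (X : Pd ι κ α) (F L : ℝ) : Ba ι κ α X.Ω := ⟨X.P, F, L, X.j, X.B, X.c, X.A⟩

variable {σ : Cs ι κ α} {X : Pd ι κ α} {a u e w L F : ℝ} {x x' : ℚ} {K : X.Ω → Λ}

theorem exp_one {t p q : ℝ} (h : t ≤ Real.exp p) (e : p + q ≤ 0) : t * Real.exp q ≤ 1 := by
  simpa using exp_fl (r := 0) (L := 1) (u := 0) h (by simp) (by simpa using e)

omit [DecidableEq κ] [Fintype α] in
theorem ba_alg {ω : X.Ω} (g0 : 0 < σ.g) (x0 : 0 ≤ x) (x1 : x ≤ 1) (hL : Real.exp u ≤ L)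
    (ha : u + a * X.M ≤ σ.g * (1 - x) * X.M) (al : X.Alg σ u ω) :
    (X.ba (Real.exp (a * X.M)) L).Alg σ (x * X.M) ω := by
  have M0 : (0 : ℝ) ≤ X.M := Nat.cast_nonneg _
  have x0' : (0 : ℝ) ≤ x := by exact_mod_cast x0
  have x1' : (0 : ℝ) ≤ 1 - x := sub_nonneg.2 (by exact_mod_cast x1)
  have b : u - σ.g * X.M + a * X.M ≤ 0 := by nlinarith [mul_nonneg (mul_nonneg g0.le x0') M0]
  refine ⟨al.unit, al.fr, fun p q r => (al.ob p q r).trans hL, fun p q r h c => ?_,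
    fun p q r h h1 h2 h3 => exp_one (al.sub p q r h.1 h.2.1 h1 h2 h3) b,
    fun p q _ => exp_one (al.chi p q) b, al.hg, al.long.imp fun i h => ?_,
    fun i i' p h => exp_one (al.cur i i' p h) b⟩
  · simp only [Pd.ba, mul_assoc, ← Real.exp_add]
    refine exp_one (al.gr p q r h c) ?_
    have m3 := mul_le_mul_of_nonneg_right (le_max_left σ.g (σ.μ r - σ.μ p - σ.μ q)) x1'
    have m4 := mul_le_mul_of_nonneg_right (le_max_right σ.g (σ.μ r - σ.μ p - σ.μ q)) x0'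
    nlinarith [mul_le_mul_of_nonneg_right (add_le_add m3 m4) M0]
  · refine le_trans ?_ (mul_le_mul hL h (Real.exp_pos _).le ((Real.exp_pos _).le.trans hL))
    rw [← Real.exp_add, add_neg_cancel, Real.exp_zero]

theorem ex_rr {β : Type} {wt : β → ℝ} {t s L e : ℝ} {b : β} (h : t ≤ L * rr wt s b) (hL : L ≤ Real.exp e) :
    t ≤ Real.exp (e - wt b * s) := by
  rw [sub_eq_add_neg, Real.exp_add]
  exact h.trans (mul_le_mul_of_nonneg_right hL (Real.exp_pos _).le)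

theorem ba_incO {ζ : Type} {Z : X.Ω → ζ} {s : ℝ} (h : (X.sp σ F L).Hy σ.Φ (X.O x) Z s)
    (hL : L ≤ Real.exp e) (hK : ∀ ω v, K ω = K v ↔ X.O x ω = X.O x v) :
    (X.ba F L).IncO σ K s e := fun ω v k => by
  obtain ⟨t, c, i1, i2, i3⟩ := h.io ω k.1 v k.2.1 ((hK _ _).1 k.2.2)
  have : (X.ba F L).t ω v = t := (congrArg (lg (X.B ω) (X.j ω)) i1).trans
    ((sMul _ _ _ _ _ (h.fr ω k.1).1).lg _ _ (h.fr ω k.1).2.1)
  exact ⟨c, fun i => ex_rr (i2 i) hL, fun b => this ▸ ex_rr (i3 b) hL⟩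

omit [Fintype α] [DecidableEq κ] in
theorem ba_incC {Ψ : X.Ω → Set (κ → ℝ)} {s Ls : ℝ} (al : ∀ ω ∈ X.P.S, X.Alg σ u ω)
    (h : ∀ ω ∈ X.P.S, ∀ v ∈ X.P.S, K ω = K v → InS σ.μ (X.B ω) (Ψ ω) s Ls (X.j ω) (X.j v))
    (hL : Ls ≤ Real.exp e) : (X.ba F L).IncC σ K Ψ s e := fun ω v k => by
  obtain ⟨t, i1, i2⟩ := h ω k.1 v k.2.1 k.2.2
  have : (X.ba F L).t ω v = t := (congrArg (lg (X.B ω) (X.j ω)) i1).trans
    ((sMul _ _ _ _ _ (al ω k.1).fr).lg _ _ (al ω k.1).unit)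
  rw [this]
  exact ⟨i1, fun φ p r q => ex_rr (wt := fun _ : Unit => r) (b := ()) (i2 φ p r q) hL⟩

omit [DecidableEq κ] in
theorem ba_ac (al : ∀ ω ∈ X.P.S, X.Alg σ u ω) (h : X.Ac σ x u) (he : u ≤ e)
    (ha : u + a * X.M + 2 * w ≤ σ.g * (1 - x) * X.M) (hK : ∀ ω v, K ω = K v ↔ X.O x ω = X.O x v) :
    (X.ba (Real.exp (a * X.M)) L).Ac σ K (x * X.M) e w := fun ω k r hr φ E h1 ⟨i, h2⟩ h3 => by
  have c : cv X.P K (K ω) = cv X.P (X.O x) (X.O x ω) := by simp only [cv, hK]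
  refine le_trans (c ▸ h ω k r (fun b => φ b * Real.exp (σ.μ b * (x * X.M))) E (fun b => ⟨fun z => by
    rw [(h1 b).1 z, zero_mul], ?_⟩) ⟨i, ?_⟩ fun v p v' p' q q' y y' => ?_)
    (Real.exp_le_exp.2 (by linarith))
  · rw [abs_mul, abs_of_pos (Real.exp_pos _)]
    refine (mul_le_mul_of_nonneg_right ((h1 b).2.trans_eq (Real.exp_add _ _).symm)
      (Real.exp_pos _).le).trans ?_
    rw [← Real.exp_add]
    exact Real.exp_le_exp.2 (by linarith)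
  · have : (fun b => φ b * Real.exp (σ.μ b * (x * X.M))) ⬝ᵥ X.A ω i =
        Real.exp (σ.η i * (x * X.M)) * (φ ⬝ᵥ X.A ω i) := by
      simp only [dotProduct, mul_sum]
      refine sum_congr rfl fun b _ => ?_
      by_cases z : X.A ω i b = 0
      · simp [z]
      · rw [(al ω k).hg i b z]; ring
    rw [this, abs_mul, abs_of_pos (Real.exp_pos _)]
    exact le_mul_of_one_le_right (Real.exp_pos _).le h2
  · simp only [dotProduct, mul_assoc]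
    exact h3 v v' ⟨k, p, (hK _ _).2 q.symm⟩ ⟨k, p', (hK _ _).2 q'.symm⟩ y y'

omit [DecidableEq κ] [Fintype α] in
theorem ba_ht {G G' : X.Ω → Prop} {i : ℕ} {B : ℝ} (tt : X.Tt σ u) (f0 : Fn X.P (X.O 0) (X.O x))
    (hK : ∀ ω v, K ω = K v ↔ X.O x ω = X.O x v) (hG : ∀ ω, G' ω → G ω)
    (ha : u + σ.μ σ.τ * (x' * X.M) ≤ σ.μ σ.τ * X.M)
    (h : ∀ ω ∈ X.P.S, En (σ.kf i) (sl (cv X.P (X.O x) (X.O x ω))
      (fun v => ⌊Real.exp (σ.μ σ.τ * (x' * X.M)) * X.zt v⌋) G) B)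
    (hB : (4 * 2 ^ σ.kf i + 1) * B ≤
      Real.exp (e - (1 - 1 / (i + 1 : ℝ)) * (σ.μ σ.τ * (x' * X.M - x * X.M)))) :
    (X.ba F L).Ht σ K G' i (σ.μ σ.τ * (x * X.M)) (σ.μ σ.τ * (x' * X.M - x * X.M)) e := fun ω k => by
  have c : cv X.P K (K ω) = cv X.P (X.O x) (X.O x ω) := by simp only [cv, hK]
  have e1 : σ.μ σ.τ * (x * X.M) + σ.μ σ.τ * (x' * X.M - x * X.M) = σ.μ σ.τ * (x' * X.M) := by ring
  have h1 := (h ω k).le (g := sl (cv X.P (X.O x) (X.O x ω))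
    (fun v => ⌊Real.exp (σ.μ σ.τ * (x' * X.M)) * X.zt v⌋) G') (nn_sl _ _ _) (nn_sl _ _ _)
    zero_le_one fun y => by
      rw [one_mul, sl_coeff, sl_coeff]
      exact pb_mono fun v _ p => ⟨hG v p.1, p.2⟩
  rw [one_pow, one_mul] at h1
  change En _ (sl (cv X.P K (K ω)) (fun v => ⌊Real.exp _ * X.t ω v σ.τ⌋) G') _
  rw [c, e1]
  refine (En.aff _ (c := 1) (b := -(Real.exp (σ.μ σ.τ * (x' * X.M)) * X.zt ω)) (L := 2) (L' := 1)
    two_pos.le one_pos.le (by simp) (fun v p _ => ?_) h1).mono (le_of_eq_of_le (by ring) hB)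
  obtain ⟨p1, p2⟩ := (S20.mem_cv k v).1 p
  have t := exp_one (q := σ.μ σ.τ * (x' * X.M)) (tt ω k v p1 (f0 ω k v p1 p2.symm)) (by linarith)
  rw [← abs_of_pos (Real.exp_pos (σ.μ σ.τ * (x' * X.M))), ← abs_mul, abs_le] at t
  rw [abs_le]
  constructor <;> linarith [Int.floor_le (Real.exp (σ.μ σ.τ * (x' * X.M)) * X.zt v),
    Int.lt_floor_add_one (Real.exp (σ.μ σ.τ * (x' * X.M)) * X.zt v), t.1, t.2,
    Int.floor_le (Real.exp (σ.μ σ.τ * (x' * X.M)) * X.t ω v σ.τ),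
    Int.lt_floor_add_one (Real.exp (σ.μ σ.τ * (x' * X.M)) * X.t ω v σ.τ)]

omit [Fintype α] in
theorem ba_rate {Ψ : ℕ → X.Ω → Set (κ → ℝ)} {m k k' : ℕ} {r : ℝ} (hL : 0 ≤ L) (r0 : 0 ≤ r)
    (he : 6 * Fintype.card κ ≤ Real.exp e) (e0 : 0 ≤ e)
    (g : ∀ k ≤ m, ∀ ω ∈ X.P.S, (X.da σ F L ω).Good (Ψ k ω))
    (s : ∀ k < m, ∀ ω ∈ X.P.S,
      (X.da σ F L ω).sub (Ψ k ω) (Real.exp (-r) / (3 * Fintype.card κ)) ⊆ Ψ (k + 1) ω)
    (h : k ≤ k') (h' : k' ≤ m) :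
    (X.ba F L).Rate σ (Ψ k) (Ψ k') (((k' : ℝ) - k) * r) e := fun ω p φ μ q b o y hy => by
  obtain ⟨i, rfl⟩ := Nat.exists_eq_add_of_le h
  have k1 : (1 : ℝ) ≤ Fintype.card κ := by
    have : Nonempty κ := ⟨σ.τ⟩
    exact_mod_cast Fintype.card_pos
  have e1 : ∀ j : ℕ, (3 * Fintype.card κ * (Real.exp (-r) / (3 * Fintype.card κ))) ^ j =
      Real.exp (-(j * r)) := fun j => by
    rw [mul_div_cancel₀ _ (by positivity), ← Real.exp_nat_mul, mul_neg]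
  have e2 : ((k + i : ℕ) : ℝ) - k = i := by push_cast; ring
  rw [e2] at o ⊢
  refine (rate (d := X.da σ F L ω) hL (by positivity) ((div_le_one (by positivity)).2
    ((Real.exp_le_one_iff.2 (by linarith)).trans (by linarith))) (fun j => Ψ (k + j) ω) i
    (fun j c => g _ (by omega) ω p) (fun j c => s _ (by omega) ω p) q b o (fun j c => ?_) y
    hy).trans (by rw [e1]; exact Real.exp_le_exp.2 (by linarith))
  have c' : (j : ℝ) + 1 ≤ i := by exact_mod_cast c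
  rw [e1, div_div, div_mul_eq_mul_div, ← Real.exp_add, le_div_iff₀ (by positivity)]
  refine (mul_le_mul_of_nonneg_left (show _ ≤ Real.exp e by linarith) (Real.exp_pos _).le).trans ?_
  rw [← Real.exp_add]
  exact Real.exp_le_exp.2 (by nlinarith)

end Pool.Agent.MP_5168f5_an.QA.Cp
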