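import Pool.Agent.MP_5168f5_an.QA.CpKey

/-! The Kakeya maximal estimate: the only position of rate zero is the marked one. -/

namespace Pool.Agent.MP_5168f5_an.QA.Cp

open H19 H17S H17F R4 AN Filter Matrix Finset
open GA (Mt br mC Wd)
open G39 (dl OB OS dl_inv)
open LC (Au ex_le)

variable {ι κ α : Type} [Fintype ι] [DecidableEq ι] [Fintype κ] [DecidableEq κ] [Fintype α]
  {Ω Λ : ℕ → Type} {σ : Cs ι κ α} {X : ∀ n, Wn ι κ α (Ω n) (Λ n)}
  {ϑ La D s₀ : ℝ} {vt : κ → ℝ} {F F' : ℕ → Matrix κ κ ℝ} {u u' : ∀ n, Ω n → Matrix κ κ ℝ}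

/-- The entries of the coordinate forms are far below the floor. -/
theorem WW.ent (w : WW σ X ϑ La D s₀) (f : FR σ X s₀ vt F F' u u') (T : ℝ) :
    ∀ᶠ n in UF, ∀ ω ∈ (X n).P.S, ∀ a e,
      |(F' n * u' n ω) a e| ≤ Real.exp (-(T * (X n).M)) * (X n).F := by
  filter_upwards [f.blk, f.dia 0 1 one_pos, w.good 0, w.off 0 (T + 2),
    G39.big_dl w.big (4 * (Fintype.card κ : ℝ) ^ 2) one_pos] with n k1 k2 k3 k4 k5 ω hω a e
  rw [dl_inv] at k5
  have q := (k3 ω hω).fu.vl_pos (wt := σ.μ)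
  refine ((k3 ω hω).ent_of ((k1 ω hω).2.2.1 e) (R := Real.exp (1 * (X n).M)) (fun y v => by
    simpa [vecMul_col] using (k2 ω hω).2 y v e) a).trans (le_trans ?_
      (mul_le_mul_of_nonneg_left (k4 ω hω) (Real.exp_pos _).le))
  rw [mul_comm (vl _ _), ← mul_assoc, ← Real.exp_add]
  refine mul_le_mul_of_nonneg_right ((mul_le_mul_of_nonneg_right k5 (Real.exp_pos _).le).trans ?_)
    q.le
  rw [← Real.exp_add]
  exact ex_le (by simp only [wM]; linarith)

/-- The coordinates of the directions. -/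
theorem WW.dir (w : WW σ X ϑ La D s₀) (f : FR σ X s₀ vt F F' u u') (x : ℚ) {c : ℝ} (hc : 0 < c) :
    ∀ᶠ n in UF, ∀ ω ∈ (X n).P.S, ∀ i e,
      |((X n).A ω i ᵥ* (F' n * u' n ω)) e| ≤ Real.exp ((c - vt e * x) * (X n).M) := by
  filter_upwards [f.dia x _ (half_pos hc), w.good x, w.sub _ (half_pos hc)] with n k1 k2 k3 ω hω i e
  refine (vecMul_col _ _ e ▸ (k2 ω hω).dot_A (zero_lt_one.trans_le k3.1) (fun y v => by
    rw [← vecMul_col]; exact (k1 ω hω).2 y v e) i).trans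
      ((mul_le_mul_of_nonneg_right k3.2 (Real.exp_pos _).le).trans ?_)
  rw [← Real.exp_add]
  exact ex_le (by linarith)

theorem rTz_of (hA : RAlg) : RTz := by
  intro ι κ α _ _ _ _ _ Ω Λ σ X ϑ La D s₀ vt F F' u u' w f a pa ta
  have al := hA ι κ α Ω Λ σ X ϑ La D s₀ vt F F' u u' w f
  have hM := w.big
  choose ω hω using fun n => show ∃ ω, ω ∈ (X n).P.S from
    nonempty_of_sum_ne_zero ((X n).P.sum_one.trans_ne one_ne_zero)
  have v0 : vt a = 0 := by have : σ.μ a + vt a = σ.μ a := ta; linarith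
  have sm : ∀ᶠ n in UF, ∀ (x : κ → ℝ) b, σ.pos b → vt b = 0 → (∀ e, σ.pos e → |x e| * (X n).F ≤ 1) →
      |(x ᵥ* (F' n * u' n (ω n))) b| ≤ dl (wM X) 2 n := by
    filter_upwards [w.ent f 3, f.col, f.ex, G39.big_dl hM (Fintype.card κ) one_pos]
      with n k1 k2 k3 k4 x b p1 p2 p3
    rw [dl_inv] at k4
    refine (abs_sum_le_sum_abs _ _).trans ((sum_le_card_nsmul _ _ (Real.exp (-(3 * (X n).M)))
      fun e _ => ?_).trans ?_)
    · show |x e * (F' n * u' n (ω n)) e b| ≤ _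
      by_cases z : (F' n * u' n (ω n)) e b = 0
      · rw [z, mul_zero, abs_zero]; exact (Real.exp_pos _).le
      rw [abs_mul]
      refine (mul_le_mul_of_nonneg_left (k1 _ (hω n) e b) (abs_nonneg _)).trans ?_
      rw [mul_left_comm]
      exact mul_le_of_le_one_right (Real.exp_pos _).le
        (p3 e ((k3.2.1 e b (.inr (k2 _ (hω n) e b p2 ▸ z))).2.1 p1))
    · rw [card_univ, nsmul_eq_mul]
      refine (mul_le_mul_of_nonneg_right k4 (Real.exp_pos _).le).trans ?_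
      rw [← Real.exp_add]
      exact ex_le (by simp only [wM]; linarith)
  have ct : ∀ᶠ n in UF, ∀ x : κ → ℝ, (x ᵥ* (F' n * u' n (ω n))) σ.τ =
      x σ.τ * (F' n * u' n (ω n)) σ.τ σ.τ := by
    filter_upwards [f.col, f.ex] with n k2 k3 x
    refine sum_eq_single σ.τ (fun e _ z => mul_eq_zero_of_right _ (not_not.1 fun y => z ?_)) (by simp)
    exact (k3.2.1 e σ.τ (.inr (k2 _ (hω n) e _ f.tau ▸ y))).2.2 rfl
  have bA : ∀ i b, OB (wM X) fun n => ((X n).A (ω n) i ᵥ* (F' n * u' n (ω n))) b := fun i b c hc =>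
    (w.dir f 0 hc).mono fun n k => by simpa [dl_inv] using k _ (hω n) i b
  refine tz_of hM (μ := σ.μ) (G := fun b => 0 < σ.μ b ∧ vt b = 0)
    (Pz := fun b => σ.pos b ∧ vt b = 0) (η := σ.η)
    (c := fun n => hc σ.μ (mC (u n (ω n) * F n) (F' n * u' n (ω n)) ((X n).c (ω n))))
    (fun b v => v.1) (fun a b e c hc => (al c hc 0).mono fun n k => ?_) bA (fun i b v => ?_)
    (fun b b' e x y v => GA.Neg.os fun T => (al 1 one_pos T).mono fun n k => ?_)
    (fun ε hε => (w.noCh f al hε).mono fun n k => k _ (hω n))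
    (fun i i' b p => ⟨1, one_pos, ?_⟩) (fun z b l p => ⟨2, two_pos, ?_⟩) ⟨w.ok.tau, f.tau⟩ ?_ a
    ⟨pa, v0⟩ ⟨w.ok.live a pa, v0⟩
  · rw [dl_inv]
    unfold Cp.hc
    split_ifs
    · exact (k _ (hω n)).ob a b e
    · rw [abs_zero]; exact (Real.exp_pos _).le
  · by_cases z : σ.μ b = σ.η i
    · have p : 0 < vt b := (f.v0 b).1.lt_of_ne' fun y => v ⟨⟨z ▸ w.ok.et i, y⟩, z⟩
      exact ⟨_, half_pos p, (w.dir f 1 (half_pos p)).mono fun n k =>
        (k _ (hω n) i b).trans (ex_le (by simp only [wM]; push_cast; linarith))⟩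
    · refine GA.Neg.os (GA.neg_ev ((f.blk.and w.alg).mono fun n k => not_not.1 fun y => z ?_))
      exact ((k.2 _ (hω n)).hg i).vecMul (fun a e q => ((k.1 _ (hω n)).2.2.1 e a q).symm) b y
  · unfold Cp.hc
    split_ifs with z
    · have p : 0 < σ.μ e := by linarith [z.1, z.2.1, z.2.2]
      refine (k _ (hω n)).gr b b' e p fun q => v ⟨⟨p, ?_⟩, z.2.2⟩
      have q' : σ.μ e + vt e = σ.μ b + vt b + (σ.μ b' + vt b') := q.2.2.2
      linarith [z.2.2, x.2, y.2]
    · rw [abs_zero]; exact (G39.dl_pos _ _ _).le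
  · filter_upwards [sm, ct, w.alg, w.dir f 0 one_half_pos, w.sub _ one_half_pos]
      with n k1 k2 k3 k4 k5
    obtain ⟨j, hj⟩ := (k3 _ (hω n)).long
    have q1 := k1 (fun e => (X n).A (ω n) i e * (X n).A (ω n) i' σ.τ -
      (X n).A (ω n) i' e * (X n).A (ω n) i σ.τ) b p.1 p.2 fun e q => (k3 _ (hω n)).cur i i' e q
    have q2 := k4 _ (hω n) j σ.τ
    rw [k2, abs_mul] at q2
    have q3 : |(F' n * u' n (ω n)) σ.τ σ.τ| ≤ Real.exp (X n).M := by
      refine (le_mul_of_one_le_left (abs_nonneg _) hj).trans ?_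
      rw [mul_assoc]
      refine (mul_le_mul k5.2 q2 (by positivity) (Real.exp_pos _).le).trans ?_
      rw [← Real.exp_add]
      exact ex_le (by push_cast; linarith)
    rw [k2, k2, show ∀ a b c d e : ℝ, a * (b * e) - c * (d * e) = e * (a * b - c * d) from
      fun _ _ _ _ _ => by ring, abs_mul]
    refine (mul_le_mul q3 (le_of_eq_of_le ?_ q1) (abs_nonneg _) (Real.exp_pos _).le).trans ?_
    · simp only [vecMul, dotProduct, sum_mul, ← sum_sub_distrib]
      exact congrArg _ (sum_congr rfl fun _ _ => by ring)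
    · rw [dl, dl, ← Real.exp_add]
      exact ex_le (by simp only [wM]; linarith)
  · filter_upwards [sm, w.cur z l, f.blk] with n k1 k2 k3
    obtain ⟨e1, e2, e3, -⟩ := k3 _ (hω n)
    have : ∀ z : Wd α, z.ev (br (hc σ.μ (mC (u n (ω n) * F n) (F' n * u' n (ω n)) ((X n).c (ω n)))))
        (fun i => (X n).A (ω n) i ᵥ* (F' n * u' n (ω n))) =
        z.ev (br (hc σ.μ ((X n).c (ω n)))) ((X n).A (ω n)) ᵥ* (F' n * u' n (ω n)) := fun z => by
      induction z with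
      | of i => rfl
      | br x y hx hy => rw [Wd.ev, Wd.ev, hx, hy, br_mC e1, hc_mC e2 e3]
    rw [this]
    exact k1 _ b p.1 p.2 (k2 _ (hω n))
  · by_contra z
    push Not at z
    obtain ⟨r, r0, k⟩ := os_all z
    have r3 : 0 < r / 3 := by positivity
    obtain ⟨n, k1, k2, k3, k4, k5, k6, k7, k8⟩ := (k.and (ct.and (w.alg.and ((w.sub _ r3).and
      ((f.dia 0 _ r3).and (f.blk.and ((w.good 0).and (hM.ev 1)))))))).exists
    obtain ⟨j, hj⟩ := (k3 _ (hω n)).long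
    have q1 := k2 ((u n (ω n) * F n) σ.τ)
    rw [show (u n (ω n) * F n) σ.τ ᵥ* (F' n * u' n (ω n)) = (1 : Matrix κ κ ℝ) σ.τ from
      congrFun (k6 _ (hω n)).1 σ.τ, one_apply_eq] at q1
    have q2 := (k5 _ (hω n)).1 σ.τ _ ((k7 _ (hω n)).one σ.τ)
    rw [single_dotProduct, one_mul] at q2
    have q3 := k1 j
    rw [k2] at q3
    have q4 : |(X n).A (ω n) j σ.τ| = |(X n).A (ω n) j σ.τ * (F' n * u' n (ω n)) σ.τ σ.τ| *
        |(u n (ω n) * F n) σ.τ σ.τ| := by
      rw [← abs_mul, mul_assoc, mul_comm (_ : ℝ) ((u n (ω n) * F n) σ.τ σ.τ), ← q1, mul_one]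
    have q5 := hj.trans (mul_le_mul k4.2 (q4.trans_le (mul_le_mul q3 q2 (abs_nonneg _)
      (G39.dl_pos _ _ _).le)) (abs_nonneg _) (Real.exp_pos _).le)
    rw [dl, ← Real.exp_add, ← Real.exp_add, Real.one_le_exp_iff] at q5
    simp only [wM] at q5 k8
    push_cast at q5
    nlinarith

end Pool.Agent.MP_5168f5_an.QA.Cp
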