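import Pool.Agent.MP_5168f5_an.QA.CpSelD

/-! Selection along a chain of cells. -/

namespace Pool.Agent.MP_5168f5_an.QA.Cp

open H19 H17S H17F Filter SelA

namespace SelB

variable {Ω α Λ Λ' Λ'' : ℕ → Type} {J B : Type} {X : Sc Ω α Λ Λ' Λ'' J B} {A a η : ℝ}

/-- The gain. -/
noncomputable abbrev gn (X : Sc Ω α Λ Λ' Λ'' J B) (n k : ℕ) : Ω n → ℝ :=
  gain (X.P n) (X.l n) (X.C n) k

/-- The good event. -/
def Gd (X : Sc Ω α Λ Λ' Λ'' J B) (b : ℝ) (n : ℕ) (ω : Ω n) : Prop :=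
  (gn X n (X.m n) ω + (X.Y X.g n (X.m n) ω - X.Y X.g n 0 ω) ≤ b * (X.m n * X.s n) ∧
    ∀ k k', k ≤ k' → k' ≤ X.m n → gn X n k ω ≤ gn X n k' ω + X.s n) ∧ X.G₀ n ω

theorem s_pos (h : X.In A a) : ∀ᶠ n in UF, (1 : ℝ) ≤ X.s n := by
  filter_upwards [h.sm 1 one_pos, h.big.ev 1] with n c d
  have e := Real.log_pos (show (1 : ℝ) < X.m n + 1 by linarith)
  exact Nat.one_le_cast.2 (Nat.cast_pos.1 (show (0 : ℝ) < X.s n by linarith))

theorem whp_drop (h : X.In A a) : Whp X.P fun n ω =>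
    ∀ k k', k ≤ k' → k' ≤ X.m n → gn X n k ω ≤ gn X n k' ω + X.s n := fun ε hε => by
  filter_upwards [h.sm (1 / 3) (by norm_num), h.big.ev (1 / ε), h.cc] with n c d e
  refine (pb_drops e _).trans ?_
  have p : (0 : ℝ) < X.m n + 1 := by positivity
  have e1 : ((X.m n : ℝ) + 1) ^ 3 ≤ Real.exp (X.s n) := by
    rw [← Real.exp_log (pow_pos p 3), Real.log_pow, Real.exp_le_exp]
    push_cast
    linarith
  rw [div_le_iff₀ hε] at d
  rw [Real.exp_neg, ← div_eq_mul_inv, div_le_iff₀ (Real.exp_pos _)]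
  refine le_trans ?_ (mul_le_mul_of_nonneg_left e1 hε.le)
  nlinarith [mul_le_mul_of_nonneg_left (show 1 ≤ ε * (X.m n + 1) by linarith) (sq_nonneg (X.m n + 1 : ℝ))]

theorem pos_gd (h : X.In A a) (hη : 0 < η) : Pos X.P (Gd X (a + η / 2)) := by
  have a0 := h.a0
  refine (Pos.and ⟨η / 4 / (a + η / 2), by positivity, ?_⟩ (whp_drop h)).and h.whp
  filter_upwards [h.mrk (η / 8) (by positivity), h.big.ev (8 / η), h.big.ev 1, s_pos h, h.cc, h.nn]
    with n c d d' e f g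
  have k := pb_mark (l := X.l n) (fn_chain f (Nat.zero_le _) le_rfl)
    (fun ω hω => sub_nonneg.2 (g ω hω)) ((a + η / 2) * (X.m n * X.s n))
  rw [pb_not] at k
  rw [div_le_iff₀ hη] at d
  push_cast at c
  have p : (X.m n : ℝ) ≤ X.m n * X.s n := le_mul_of_one_le_right (by linarith) e
  have p1 := mul_le_mul_of_nonneg_right p hη.le
  rw [div_le_iff₀ (by positivity)]
  refine le_of_mul_le_mul_right ?_ (show (0 : ℝ) < X.m n * X.s n by linarith)
  linarith

/-- The observables with the gain. -/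
noncomputable def ob (X : Sc Ω α Λ Λ' Λ'' J B) (n : ℕ) : Option J → ℕ → Ω n → ℝ
  | none => gn X n
  | some j => X.Y j n

/-- The labels. -/
def lb (X : Sc Ω α Λ Λ' Λ'' J B) (n : ℕ) : (Bool ⊕ B) × ℕ → Ω n → Set (Ω n)
  | (.inl true, k) => atm (X.O n k)
  | (.inl false, k) => atm (X.C n k)
  | (.inr i, k) => atm (X.Z i n k)

theorem num {c r m : ℕ} {κ : ℝ} (hκ : 0 < κ) (h1 : (1 : ℝ) ≤ m) (h2 : (r + 1) / κ ≤ m) :
    (2 * ((m + 1) ^ 2 : ℕ) + 1 : ℝ) ^ (c * (m + 1)) * (((r * (m + 1) : ℕ) + 1) *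
      Real.exp (-((4 * (c * (m + 1)) + 2) * Real.log (m + 1)))) < κ := by
  have p : (0 : ℝ) < m + 1 := by positivity
  have e : Real.exp ((4 * (c * (m + 1)) + 2) * Real.log (m + 1)) =
      (((m : ℝ) + 1) ^ 4) ^ (c * (m + 1)) * (m + 1) ^ 2 := by
    rw [← pow_mul, ← pow_add, ← Real.exp_log (pow_pos p _), Real.log_pow]
    push_cast
    rfl
  have e1 : (2 * ((m + 1) ^ 2 : ℕ) + 1 : ℝ) ≤ ((m : ℝ) + 1) ^ 4 := by
    push_cast
    have : (4 : ℝ) ≤ (m + 1) ^ 2 := by nlinarith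
    nlinarith
  have e2 := pow_le_pow_left₀ (by positivity) e1 (c * (m + 1))
  rw [div_le_iff₀ hκ] at h2
  have e3 : ((r * (m + 1) : ℕ) + 1 : ℝ) < κ * (m + 1) ^ 2 := by
    push_cast
    nlinarith [mul_le_mul_of_nonneg_right h2 p.le, mul_pos hκ p]
  rw [Real.exp_neg, ← mul_assoc, ← div_eq_mul_inv, div_lt_iff₀ (Real.exp_pos _), e]
  refine (mul_le_mul_of_nonneg_right e2 (by positivity)).trans_lt ?_
  rw [mul_left_comm]
  exact mul_lt_mul_of_pos_left e3 (by positivity)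

theorem ex_prof [Finite J] [Finite B] (h : X.In A a) (hη : 0 < η) :
    ∃ (w : ∀ n, Ω n) (G : ∀ n, Ω n → Prop) (d : ℕ → ℝ), Sm X.m (fun n => d n / X.s n) ∧
      ∀ᶠ n in UF, w n ∈ (X.P n).S ∧ G n (w n) ∧ (∀ ω, G n ω → Gd X (a + η / 2) n ω ∧
        ∀ j, ∀ k ≤ X.m n, |ob X n j k ω - ob X n j k (w n)| ≤ X.s n) ∧
        ∀ i, ∀ k ≤ X.m n, ∀ ω ∈ (X.P n).S, G n ω →
          Real.exp (-d n) ≤ pb (cv (X.P n) (lb X n (i, k)) (lb X n (i, k) ω)) (G n) := by
  classical
  have := Fintype.ofFinite J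
  have := Fintype.ofFinite B
  obtain ⟨κ, k0, k1⟩ := pos_gd h hη
  obtain ⟨c, hc⟩ : ∃ c, c = Fintype.card (Option J) := ⟨_, rfl⟩
  obtain ⟨t, ht⟩ := Sc.ev_pick (T := fun n => Ω n × (Ω n → Prop))
    (fun n => (Sc.ne_om X.P n).elim fun ω => ⟨(ω, fun _ => True)⟩)
    (q := fun n t => t.1 ∈ (X.P n).S ∧ t.2 t.1 ∧ (∀ ω, t.2 ω → Gd X (a + η / 2) n ω ∧
        ∀ j, ∀ k ≤ X.m n, |ob X n j k ω - ob X n j k t.1| ≤ X.s n) ∧
        ∀ i, ∀ k ≤ X.m n, ∀ ω ∈ (X.P n).S, t.2 ω →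
          Real.exp (-((4 * (c * (X.m n + 1)) + 2) * Real.log (X.m n + 1))) ≤
            pb (cv (X.P n) (lb X n (i, k)) (lb X n (i, k) ω)) t.2) (by
    filter_upwards [k1, s_pos h, h.big.ev 1, h.big.ev ((Fintype.card (Bool ⊕ B) + 1) / κ),
      h.big.ev A, h.big.ev (a + η / 2), eventually_all.2 h.bd, h.nn]
      with n a1 a2 a3 a4 a5 a6 a7 a8
    obtain ⟨w, w1, G, b1, b2, b3⟩ := prof (Gd X (a + η / 2) n) (ob X n) (X.m n) ((X.m n + 1) ^ 2)
      (s := X.s n) (by linarith) (fun ω hω g j k hk => by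
        have p : 0 ≤ (X.m n : ℝ) * X.s n := by positivity
        push_cast
        cases j with
        | none =>
          have q1 := g.1.2 0 k (Nat.zero_le _) hk
          have q2 := g.1.2 k _ hk le_rfl
          have q3 := mul_le_mul_of_nonneg_right a6 p
          rw [gn, gain_zero] at q1
          change |gn X n k ω| ≤ _
          rw [abs_le]
          constructor <;> nlinarith [g.1.1, a8 ω hω]
        | some j =>
          have q3 := mul_le_mul_of_nonneg_right a5 p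
          exact (a7 j ω hω g.2 k hk).trans (by nlinarith))
      (Finset.univ ×ˢ Finset.range (X.m n + 1)) (lb X n) (Real.exp_pos _) (by
        rw [Finset.card_product, Finset.card_range, Finset.card_univ, ← hc]
        exact (num k0 a3 a4).trans_le a1)
    exact ⟨(w, G), w1, b1, b2, fun i k hk => b3 (i, k)
      (Finset.mem_product.2 ⟨Finset.mem_univ _, Finset.mem_range.2 (Nat.lt_succ_iff.2 hk)⟩)⟩)
  refine ⟨fun n => (t n).1, fun n => (t n).2, _, fun ε hε => ?_, ht⟩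
  filter_upwards [h.sm (ε / (8 * c + 2)) (by positivity), s_pos h, h.big.ev 1] with n a1 a2 a3
  have p : 0 ≤ Real.log (X.m n + 1) := Real.log_nonneg (by linarith)
  have q : (4 * (c * (X.m n + 1)) + 2 : ℝ) ≤ (8 * c + 2) * X.m n := by
    nlinarith [mul_le_mul_of_nonneg_left a3 (Nat.cast_nonneg (α := ℝ) c)]
  rw [zero_add] at a1 ⊢
  rw [div_le_iff₀ (by linarith)]
  refine (mul_le_mul q a1 p (by positivity)).trans_eq ?_
  field_simp

theorem sm_max {L : ℕ → ℕ} {f g : ℕ → ℝ} (h : Sm L f) (h' : Sm L g) :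
    Sm L fun n => max (f n) (g n) := fun ε hε =>
  ((h ε hε).and (h' ε hε)).mono fun _ c => max_le c.1 c.2

theorem slope_nonneg {L u c₀ : ℕ → ℕ} {φ : ℕ → ℕ → ℝ} {τ : ℝ} (hu : Big u) (hm : Mid L u c₀)
    (h : LinAt u c₀ φ τ) (e : ∀ᶠ n in UF, ∀ c c', c ≤ c' → c' ≤ L n → φ n c ≤ φ n c' + 1) :
    0 ≤ τ := BlowA.le_of_ev hu fun t ht => by
  filter_upwards [h 1 _ (half_pos ht), hm 1, e, hu.sm 1 _ (half_pos ht)] with n a1 a2 a3 a4
  have b1 := a1 (c₀ n + u n) (by simp)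
  have b2 := a3 (c₀ n) (c₀ n + u n) (Nat.le_add_right _ _)
    (Nat.cast_le.1 (show ((c₀ n + u n : ℕ) : ℝ) ≤ L n by push_cast; linarith [a2.2]))
  push_cast at b1
  rw [add_sub_cancel_left] at b1
  linarith [(abs_le.1 b1).2]

theorem unit {x c σ s ε u : ℝ} (hs : 0 < s) (h : |x / s - c / s - σ| ≤ ε * u) :
    |x - c - σ * s| ≤ ε * (u * s) := by
  have e : x - c - σ * s = (x / s - c / s - σ) * s := by field_simp
  rw [e, abs_mul, abs_of_pos hs, ← mul_assoc]
  exact mul_le_mul_of_nonneg_right h hs.le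

end SelB

/-- The selection, with offsets proportional to the total depth. -/
def SSelY : Prop := ∀ (Ω α Λ Λ' Λ'' : ℕ → Type) (J B : Type) [Finite J] [Finite B]
  (X : Sc Ω α Λ Λ' Λ'' J B) (A a η : ℝ), X.In A a → 0 < η →
  ∃ (u k₀ : ℕ → ℕ) (σ : J → ℝ) (τ : ℝ) (cy : J → ℝ) (G : ∀ n, Ω n → Prop),
    X.Win u k₀ σ τ (a + η) ∧
      X.Ev u k₀ σ τ (a + η) (fun j n => cy j * (X.m n * X.s n)) (fun _ => 0) G

open SelB in
theorem selY : SSelY := by
  intro Ω α Λ Λ' Λ'' J B _ _ X A a η h hη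
  obtain ⟨w, G, d, hd, hw⟩ := ex_prof h hη
  have sp := s_pos h
  have gw : ∀ᶠ n in UF, w n ∈ (X.P n).S ∧ Gd X (a + η / 2) n (w n) :=
    hw.mono fun n c => ⟨c.1, (c.2.2.1 _ c.2.1).1⟩
  obtain ⟨σ, k₀, M₀, s0, s1, m0, hb⟩ := blow (ι := Option J) (L := X.m)
    (φ := fun j n k => j.elim ((gn X n k (w n) + X.Y X.g n k (w n)) / X.s n)
      fun j => X.Y j n k (w n) / X.s n) (A := fun j => j.elim (a + η / 2) fun _ => 2 * A) h.big
    (fun j => by
      cases j with
      | none =>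
        refine ⟨fun ε hε => ?_, Le.of_ev ?_⟩
        · filter_upwards [gw, sp, h.mono X.g _ (half_pos hε), h.big.sm 1 _ (half_pos hε)]
            with n a1 a2 a3 a4 c c' e e'
          have b1 := a1.2.1.2 c c' e e'
          have b2 := a3 _ a1.1 a1.2.2 c c' e e'
          have b3 := mul_le_mul_of_nonneg_right a4 (Nat.cast_nonneg (α := ℝ) (X.s n))
          simp only [Option.elim]
          rw [div_add' _ _ _ (by linarith), div_le_div_iff_of_pos_right (by linarith)]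
          linarith
        · filter_upwards [gw, sp] with n a1 a2
          have b1 := a1.2.1.1
          simp only [Option.elim]
          rw [← sub_div, div_le_iff₀ (by linarith), gn, gn, gain_zero]
          linarith
      | some j =>
        refine ⟨fun ε hε => ?_, Le.of_ev ?_⟩
        · filter_upwards [gw, sp, h.mono j _ hε] with n a1 a2 a3 c c' e e'
          have b2 := a3 _ a1.1 a1.2.2 c c' e e'
          simp only [Option.elim]
          rw [div_add' _ _ _ (by linarith), div_le_div_iff_of_pos_right (by linarith)]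
          linarith
        · filter_upwards [gw, sp, h.bd j] with n a1 a2 a3
          have b1 := abs_le.1 (a3 _ a1.1 a1.2.2 0 (Nat.zero_le _))
          have b2 := abs_le.1 (a3 _ a1.1 a1.2.2 _ le_rfl)
          simp only [Option.elim]
          rw [← sub_div, div_le_iff₀ (by linarith)]
          linarith) none (half_pos hη)
  have he : Sm X.m fun n => X.e n / X.s n := fun ε hε => by
    filter_upwards [h.er ε hε, sp] with n a1 a2
    push_cast at a1
    rw [div_le_iff₀ (by linarith)]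
    linarith
  have k1 : ∀ᶠ n in UF, k₀ n ≤ X.m n := by
    obtain ⟨u, -, u1, u2⟩ := ex_mid h.big m0
    exact ((hb u u1 u2).1 0).mono fun n c => by simpa using c.2
  choose cy hy using fun j => BlowA.ex_tn h.big (C := A)
    (f := fun n => X.Y j n (k₀ n) (w n) / X.s n) (by
      filter_upwards [gw, sp, h.bd j, k1] with n a1 a2 a3 a4
      rw [abs_div, Nat.abs_cast, div_le_iff₀ (by linarith), mul_assoc]
      exact a3 _ a1.1 a1.2.2 _ a4)
  have := Fintype.ofFinite J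
  have hs : Sm X.m fun n => ∑ j, |X.Y j n (k₀ n) (w n) / X.s n - cy j * X.m n| :=
    Sm.sum _ fun j _ ε hε => (hy j ε hε).mono fun n c => by rwa [zero_add]
  obtain ⟨u, u0, u1, u3⟩ := ex_mid h.big (sm_max (sm_max m0 (sm_max hd he)) hs)
  have u2 := u3.mono (.of_forall fun _ => le_max_left _ _)
  have u4 := u3.mono (.of_forall fun _ => le_max_right _ _)
  obtain ⟨md, ln⟩ := hb u u1 (u2.mono (.of_forall fun _ => le_max_left _ _))
  have lg : LinAt u k₀ (fun n k => gn X n k (w n) / X.s n) (1 * σ none + -1 * σ (some X.g)) :=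
    (ln none).comb (ln (some X.g)) 1 (-1) fun n c => by simp only [Option.elim]; ring
  have dm : ∀ i (ε : ℝ), 0 < ε → ∀ᶠ n in UF, ∀ ω ∈ (X.P n).S, G n ω → ∀ k, k ≤ X.m n →
      Real.exp (-(ε * (u n * X.s n))) ≤
        pb (cv (X.P n) (lb X n (i, k)) (lb X n (i, k) ω)) (G n) := fun i ε hε => by
    filter_upwards [hw, sp, u2 ε hε] with n a1 a2 a3 ω hω g k hk
    refine le_trans (Real.exp_le_exp.2 ?_) (a1.2.2.2 i k hk ω hω g)
    have b := ((le_max_left _ _).trans (le_max_right _ _)).trans a3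
    rw [div_le_iff₀ (by linarith)] at b
    linarith
  have wi : ∀ R : ℝ, ∀ᶠ n in UF, ∀ k : ℕ, |(k : ℝ) - k₀ n| ≤ R * u n → k ≤ X.m n := fun R =>
    (md R).mono fun n c k e => Nat.cast_le.1 (show (k : ℝ) ≤ X.m n by linarith [(abs_le.1 e).2, c.2])
  refine ⟨u, k₀, fun j => σ (some j), _, cy, G,
    ⟨u0, fun ε hε => ?_, md, fun j => s0 _, slope_nonneg u0 md lg ?_, ?_⟩,
    hw.mono fun n c => ⟨_, c.1, c.2.1⟩, hw.mono fun n c ω g => (c.2.2.1 ω g).1.2,
    fun ε hε => (dm (.inl true) ε hε).mono fun n c ω hω g k _ e => ?_,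
    fun ε hε => (dm (.inl false) ε hε).mono fun n c ω hω g k _ e => ?_,
    fun i ε hε => (dm (.inr i) ε hε).mono fun n c ω hω g k _ e => ?_,
    fun j R ε hε => ?_, fun R ε hε => ?_, ?_⟩
  · filter_upwards [sp, u2 ε hε] with n a2 a3
    have b := ((le_max_right _ _).trans (le_max_right _ _)).trans a3
    rw [div_le_iff₀ (by linarith)] at b
    push_cast
    linarith
  · filter_upwards [gw, sp] with n a1 a2 c c' e e'
    rw [div_add_one (by linarith), div_le_div_iff_of_pos_right (by linarith)]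
    exact a1.2.1.2 c c' e e'
  · simp only [Option.elim] at s1
    linarith
  · exact (c ω hω g k e).trans_eq (congrArg (pb · (G n)) (cv_atm _ _ _))
  · exact (c ω hω g k e).trans_eq (congrArg (pb · (G n)) (cv_atm _ _ _))
  · exact (c ω hω g k e).trans_eq (congrArg (pb · (G n)) (cv_atm _ _ _))
  · have p : 0 < ε / 3 := by positivity
    filter_upwards [hw, sp, ln (some j) R _ p, u0.sm 1 _ p, wi R, u4 _ p]
      with n a1 a2 a3 a4 a5 a6 ω _ g k hk
    have b4 := (Finset.single_le_sum (f := fun j => |X.Y j n (k₀ n) (w n) / X.s n - cy j * X.m n|)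
      (fun _ _ => abs_nonneg _) (Finset.mem_univ j)).trans a6
    have b5 := abs_le.1 (unit (x := X.Y j n (k₀ n) (w n)) (c := 0) (σ := cy j * X.m n)
      (s := X.s n) (ε := ε / 3) (u := u n) (by linarith) (by simpa using b4))
    have b1 := abs_le.1 ((a1.2.2.1 ω g).2 (some j) k (a5 k hk))
    have b2 := abs_le.1 (unit (by linarith) (a3 k hk))
    have b3 := mul_le_mul_of_nonneg_right a4 (Nat.cast_nonneg (α := ℝ) (X.s n))
    simp only [ob] at b1
    rw [abs_le]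
    constructor <;> linarith [b1.1, b1.2, b2.1, b2.2, b5.1, b5.2]
  · have p : 0 < ε / 3 := by positivity
    filter_upwards [hw, sp, lg.two R p, u0.sm 1 _ p, wi R] with n a1 a2 a3 a4 a5 ω _ g k k' hk hk'
    have b1 := abs_le.1 ((a1.2.2.1 ω g).2 none k (a5 k hk))
    have b1' := abs_le.1 ((a1.2.2.1 ω g).2 none k' (a5 k' hk'))
    have b2 := abs_le.1 (unit (by linarith) (a3 k k' hk hk'))
    have b3 := mul_le_mul_of_nonneg_right a4 (Nat.cast_nonneg (α := ℝ) (X.s n))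
    simp only [ob, gn] at b1 b1' b2
    rw [abs_le]
    constructor <;> linarith [b1.1, b1.2, b2.1, b2.2, b1'.1, b1'.2]
  · filter_upwards [hw, h.big.sm 1 _ (half_pos hη)] with n a1 a4 ω _ g
    have b := (a1.2.2.1 ω g).1.1
    have b1 := b.2 0 _ (Nat.zero_le _) le_rfl
    have b3 := mul_le_mul_of_nonneg_right a4 (Nat.cast_nonneg (α := ℝ) (X.s n))
    rw [gn, gain_zero] at b1
    linarith [b.1]

theorem selC : SSelC := fun Ω α Λ Λ' Λ'' J B _ _ X A a η h hη => by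
  obtain ⟨u, k₀, σ, τ, cy, G, c⟩ := selY Ω α Λ Λ' Λ'' J B X A a η h hη
  exact ⟨u, k₀, σ, τ, _, G, c⟩

end Pool.Agent.MP_5168f5_an.QA.Cp
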