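import Pool.Agent.MP_5168f5_an.QA.CpSpec
import Pool.Agent.MP_5168f5_an.QA.CpSel

/-! The chain of caps as an input of the selection. -/

namespace Pool.Agent.MP_5168f5_an.QA.Cp

open H19 H17S H17F R4 AN Filter Matrix

variable {ι κ α J : Type} [Fintype ι] [DecidableEq ι] [Fintype κ] [DecidableEq κ] [Fintype α]
  {Ω Θ Λ : ℕ → Type}

/-- The observables: the volume and the given ones. -/
noncomputable def obv (μ : κ → ℝ) (ob : J → Set (κ → ℝ) → ℝ) (K : ℝ) :
    Option J → Set (κ → ℝ) → ℝ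
  | none => fun S => K * Real.log (vl μ S)
  | some j => ob j

/-- The chain as an input of the selection. -/
noncomputable def sc (σ : Cs ι κ α) (ob : J → Set (κ → ℝ) → ℝ) (K : ℝ)
    (X : ∀ n, Sd ι κ α (Ω n) (Θ n) (Λ n)) : Sc Ω Θ Λ Λ Λ (Option J) Empty where
  P n := (X n).P
  m n := (X n).m
  s n := (X n).s
  l n := (X n).l
  O n := (X n).O true
  C n := (X n).O false
  Z b := b.elim
  Y j n k ω := obv σ.μ ob K j ((X n).Ψ k ω)
  g := none
  G₀ n := (X n).G
  e n := (X n).e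

theorem Sd.Ok.sub {Ω Θ Λ : Type} {σ : Cs ι κ α} {K ϑ La γ C : ℝ} {X : Sd ι κ α Ω Θ Λ}
    (h : X.Ok σ K ϑ La γ C) {ω : Ω} (hω : ω ∈ X.P.S) {k k' : ℕ} (e : k ≤ k') (e' : k' ≤ X.m) :
    X.Ψ k ω ⊆ X.Ψ k' ω := by
  induction k', e using Nat.le_induction with
  | base => exact subset_rfl
  | succ j _ ih => exact (ih (Nat.le_of_succ_le e')).trans (h.mono j e' ω hω)

theorem Sd.Ok.fu {Ω Θ Λ : Type} {σ : Cs ι κ α} {K ϑ La γ C : ℝ} {X : Sd ι κ α Ω Θ Λ}
    (h : X.Ok σ K ϑ La γ C) {ω : Ω} (hω : ω ∈ X.P.S) {k : ℕ} (e : k ≤ X.m) :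
    Fu (X.Ψ k ω) 1 (Real.exp (|C| * (X.m * X.s))) := by
  have g := h.good k e ω hω
  refine ⟨one_pos, g.fu.one, fun φ a b => ((g.ok φ a).f b).trans ?_⟩
  rw [one_mul]
  change flr σ.μ X.F b ≤ _
  unfold flr
  split_ifs
  · refine h.fl.trans (Real.exp_le_exp.2 ?_)
    push_cast
    exact mul_le_mul_of_nonneg_right (le_abs_self C) (by positivity)
  · exact Real.one_le_exp (by positivity)

theorem adm_obv {μ : κ → ℝ} {ob : J → Set (κ → ℝ) → ℝ} (h : Adm μ ob) {K : ℝ} (hK : 0 < K) :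
    Adm μ (obv μ ob K) := by
  obtain ⟨C, h⟩ := h
  obtain ⟨c, hc⟩ : ∃ c : ℝ, c = Real.log (Fintype.card κ).factorial + Fintype.card κ := ⟨_, rfl⟩
  have f0 : 0 ≤ Real.log (Fintype.card κ).factorial := Real.log_natCast_nonneg _
  have k0 : (0 : ℝ) ≤ Fintype.card κ := Nat.cast_nonneg _
  have c0 : 0 ≤ K * c := by rw [hc]; positivity
  refine ⟨|C| + K * c, fun j S D d f g => ?_⟩
  have l0 := Real.log_nonneg d
  cases j with
  | none =>
    have p := f.vl_pos (wt := μ)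
    refine ⟨?_, fun S' f' _ e => ?_⟩
    · have a1 : 0 ≤ Real.log (vl μ S) := Real.log_nonneg (by simpa using f.low (wt := μ))
      have a2 := Real.log_le_log p (f.up (wt := μ))
      rw [Real.log_mul (by positivity) (by positivity), Real.log_pow] at a2
      have a3 : Real.log (vl μ S) ≤ c * (1 + Real.log D) := by
        rw [hc]; nlinarith [mul_nonneg f0 l0]
      change |K * Real.log (vl μ S)| ≤ _
      rw [abs_of_nonneg (by positivity)]
      nlinarith [mul_le_mul_of_nonneg_left a3 hK.le, mul_nonneg (abs_nonneg C) l0, abs_nonneg C]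
    · have := mul_le_mul_of_nonneg_left (Real.log_le_log p (f.mono f' e)) hK.le
      change K * Real.log (vl μ S) ≤ K * Real.log (vl μ S') + _
      linarith [abs_nonneg C]
  | some j =>
    obtain ⟨a, b⟩ := h j S D d f g
    exact ⟨a.trans (mul_le_mul_of_nonneg_right (by linarith [le_abs_self C]) (by linarith)),
      fun S' f' g' e => (b S' f' g' e).trans (add_le_add le_rfl (by linarith [le_abs_self C]))⟩

theorem sc_in {σ : Cs ι κ α} {ob : J → Set (κ → ℝ) → ℝ} {K ϑ La a γ C : ℝ}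
    {X : ∀ n, Sd ι κ α (Ω n) (Θ n) (Λ n)} (ad : Adm σ.μ ob) (hK : 0 < K)
    (h : CH σ K ϑ La a γ C X) : ∃ A, (sc σ ob K X).In A a := by
  obtain ⟨c, ad⟩ := adm_obv ad hK
  have sp : ∀ᶠ n in UF, (1 : ℝ) ≤ (X n).s := by
    filter_upwards [h.sm 1 one_pos, h.big.ev 1] with n c d
    have e := Real.log_pos (show (1 : ℝ) < (X n).m + 1 by linarith)
    exact Nat.one_le_cast.2 (Nat.cast_pos.1 (show (0 : ℝ) < (X n).s by linarith))
  have d1 : ∀ n, 1 ≤ Real.exp (|C| * ((X n).m * (X n).s)) := fun n =>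
    Real.one_le_exp (by positivity)
  refine ⟨|c| * (1 + |C|), h.big, h.sm, h.ev.mono fun _ o => o.com, h.ev.mono fun _ o => o.nest false,
    h.ev.mono fun _ o => o.fl1, h.ev.mono fun _ o => o.fl2, fun b => b.elim, h.whp, h.se,
    fun j ε hε => ?_, fun j => ?_, ?_, h.am.1, fun ε hε => (h.en ε hε).mono fun n e => ?_⟩
  · filter_upwards [h.ev, sp, h.big.sm c ε hε] with n o s1 s2 ω hω _ k k' e e'
    refine ((ad j _ _ (d1 n) (o.fu hω (e.trans e')) (o.good k (e.trans e') ω hω).hg).2 _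
      (o.fu hω e') (o.good k' e' ω hω).hg (o.sub hω e e')).trans (add_le_add le_rfl ?_)
    have := mul_le_mul_of_nonneg_left s1 (show 0 ≤ ε * (X n).m by positivity)
    change c ≤ ε * ((X n).m * (X n).s)
    linarith
  · filter_upwards [h.ev, sp, h.big.ev 1] with n o s1 s2 ω hω _ k e
    refine (ad j _ _ (d1 n) (o.fu hω e) (o.good k e ω hω).hg).1.trans ?_
    have p : (1 : ℝ) ≤ (X n).m * (X n).s := one_le_mul_of_one_le_of_one_le s2 s1
    rw [Real.log_exp]
    change _ ≤ |c| * (1 + |C|) * ((X n).m * (X n).s)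
    refine (mul_le_mul_of_nonneg_right (le_abs_self c) (by positivity)).trans ?_
    rw [mul_assoc]
    exact mul_le_mul_of_nonneg_left (by linarith) (abs_nonneg c)
  · filter_upwards [h.ev] with n o ω hω
    have f := o.fu hω (Nat.zero_le _)
    exact mul_le_mul_of_nonneg_left (Real.log_le_log f.vl_pos
      (f.mono (o.fu hω le_rfl) (o.sub hω (Nat.zero_le _) le_rfl))) hK.le
  · simp only [Nat.cast_mul] at e ⊢
    exact e

end Pool.Agent.MP_5168f5_an.QA.Cp
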