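import Pool.Agent.MP_5168f5_an.QA.CpWinN
import Pool.Agent.MP_5168f5_an.QA.CpWinS

/-! The Kakeya maximal estimate: from the chain to the window. -/

namespace Pool.Agent.MP_5168f5_an.QA.Cp

open H19 H17S H17F R4 AN Filter Matrix
open LC (ex_le Au)

variable {ι κ α J : Type} [Fintype ι] [DecidableEq ι] [Fintype κ] [DecidableEq κ] [Fintype α]

/-- The step of the level `x`. -/
noncomputable def kx (k₀ u : ℕ) (x : ℝ) : ℕ := ((k₀ : ℤ) + ⌊x * u⌋).toNat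

theorem kx_mono (k₀ u : ℕ) {x x' : ℝ} (h : x ≤ x') : kx k₀ u x ≤ kx k₀ u x' :=
  Int.toNat_le_toNat (by
    have := Int.floor_mono (mul_le_mul_of_nonneg_right h (Nat.cast_nonneg (α := ℝ) u)); omega)

theorem kx_zero (k₀ u : ℕ) : kx k₀ u 0 = k₀ := by simp [kx]

theorem kx_ge (k₀ u : ℕ) {x : ℝ} (h : 0 ≤ x) : k₀ ≤ kx k₀ u x :=
  (kx_zero k₀ u).symm.trans_le (kx_mono _ _ h)

theorem kx_spec {k₀ u m : ℕ} {x R : ℝ} (h1 : (R + 1) * u ≤ k₀) (h2 : k₀ + (R + 1) * u ≤ (m : ℝ))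
    (h3 : (1 : ℝ) ≤ u) (hx : |x| ≤ R) : |(kx k₀ u x : ℝ) - k₀ - x * u| ≤ 1 ∧ kx k₀ u x ≤ m ∧
      |(kx k₀ u x : ℝ) - k₀| ≤ (R + 1) * u := by
  have a1 := Int.floor_le (x * u)
  have a2 := Int.lt_floor_add_one (x * u)
  have b1 := mul_le_mul_of_nonneg_right (abs_le.1 hx).1 (Nat.cast_nonneg (α := ℝ) u)
  have b2 := mul_le_mul_of_nonneg_right (abs_le.1 hx).2 (Nat.cast_nonneg (α := ℝ) u)
  have p : (0 : ℤ) ≤ k₀ + ⌊x * u⌋ := by
    have : (0 : ℝ) ≤ k₀ + ⌊x * u⌋ := by linarith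
    exact_mod_cast this
  have e : (kx k₀ u x : ℝ) = k₀ + ⌊x * u⌋ := by
    have := congrArg (Int.cast : ℤ → ℝ) (Int.toNat_of_nonneg p)
    push_cast at this
    exact this
  refine ⟨abs_le.2 ⟨by linarith, by linarith⟩, Nat.cast_le (α := ℝ).1 (by linarith),
    abs_le.2 ⟨by linarith, by linarith⟩⟩

theorem ex_gap {I : Type} [Finite I] (f : I → ℝ) : ∃ δ : ℝ, 0 < δ ∧ ∀ i, |f i| ≤ δ → f i = 0 := by
  have : ∀ᶠ δ in nhdsWithin (0 : ℝ) (Set.Ioi 0), ∀ i, |f i| ≤ δ → f i = 0 :=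
    eventually_all.2 fun i => by
      by_cases z : f i = 0
      · exact .of_forall fun _ _ => z
      · exact ((gt_mem_nhds (abs_pos.2 z)).filter_mono nhdsWithin_le_nhds).mono
          fun _ a b => absurd b a.not_ge
  exact (this.and self_mem_nhdsWithin).exists.imp fun _ a => ⟨a.2, a.1⟩

section One

variable {Ω Θ Λ : Type} {σ : Cs ι κ α} {K ϑ La γ C : ℝ}

/-- The window. -/
noncomputable def wn (σ : Cs ι κ α) (X : Sd ι κ α Ω Θ Λ) (G : Ω → Prop) (u k₀ : ℕ) :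
    Wn ι κ α Ω Λ :=
  ⟨Ba.nw σ X.toBa G (X.dp k₀), u * X.s, fun b a => X.O b (kx k₀ u (a : ℚ)),
    fun x => X.Ψ (kx k₀ u x)⟩

/-- The facts on one space, for the levels up to `R` and the loss `c`. -/
structure Cx (σ : Cs ι κ α) (K ϑ La γ C : ℝ) (X : Sd ι κ α Ω Θ Λ) (G : Ω → Prop) (u k₀ : ℕ)
    (W R c : ℝ) : Prop where
  ok : X.Ok σ K ϑ La γ C
  tr : Ba.Tr σ X.toBa G W
  sub : ∀ ω, G ω → X.G ω
  dom : ∀ b, ∀ ω ∈ X.P.S, G ω → ∀ k, k₀ ≤ k → k ≤ X.m →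
    Real.exp (-(c * (u * X.s : ℕ))) ≤ pb (cv X.P (X.O b k) (X.O b k ω)) G
  lev : ∀ x : ℝ, |x| ≤ R → kx k₀ u x ≤ X.m ∧ |(kx k₀ u x : ℝ) - k₀| ≤ (R + 1) * u ∧
    |X.dp (kx k₀ u x) - X.dp k₀ - x * (u * X.s : ℕ)| ≤ c * (u * X.s : ℕ) ∧
    |((kx k₀ u x : ℝ) - k₀) * X.s - x * (u * X.s : ℕ)| ≤ c * (u * X.s : ℕ)
  e : X.e ≤ c * (u * X.s : ℕ)
  far : R * (u * X.s : ℕ) ≤ γ * (X.m * X.s : ℕ)
  k1 : 1 ≤ k₀ ∧ k₀ ≤ X.m
  d0 : 0 ≤ X.dp k₀
  u1 : (1 : ℝ) ≤ (u * X.s : ℕ)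

theorem fn_cE {β β' : Type} {P : FP Ω} {F : Ω → β} {F' : Ω → β'} (h : Fn P F F') (G : Ω → Prop) :
    Fn (cE P G) F F' := fun a ha b hb => h a (cE_sub ha) b (cE_sub hb)

end One

variable {Ω Θ Λ : ℕ → Type} {σ : Cs ι κ α} {K ϑ La a γ C A τ b W : ℝ}
  {X : ∀ n, Sd ι κ α (Ω n) (Θ n) (Λ n)} {ob : J → Set (κ → ℝ) → ℝ} {u k₀ : ℕ → ℕ}
  {sg : Option J → ℝ} {y : Option J → ℕ → ℝ} {G : ∀ n, Ω n → Prop}

theorem cx (h : CH σ K ϑ La a γ C X) (hi : (sc σ ob K X).In A a)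
    (w : (sc σ ob K X).Win u k₀ sg τ b) (v : (sc σ ob K X).Ev u k₀ sg τ b y k₀ G)
    (fz : ∀ n ω ω', G n ω → G n ω' → (X n).O false (k₀ n) ω = (X n).O false (k₀ n) ω')
    (w1 : ∀ a, σ.μ a ≤ W) (w2 : ∀ i, σ.η i ≤ W) (R : ℝ) {c : ℝ} (hc : 0 < c) :
    ∀ᶠ n in UF, Cx σ K ϑ La γ C (X n) (G n) (u n) (k₀ n) W R c := by
  have c4 : 0 < c / 4 := by positivity
  filter_upwards [h.ev, v.ne, v.sub, v.domO c hc, v.domC c hc, w.mid (|R| + 1),
    w.mid (|R| / γ), w.er _ c4, w.er 1 one_pos, w.big.ev 1, w.big.ev (2 / c), SelB.s_pos hi]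
    with n o ne su dO dC m1 m2 e1 e2 u1 u2 s1
  simp only [sc, zero_add, one_mul] at ne su dO dC m1 m2 e1 e2 s1
  rw [add_mul, one_mul] at m1
  have r0 := abs_nonneg R
  have r1 := mul_le_mul_of_nonneg_right (le_abs_self R) (zero_le_one.trans u1)
  have k1 : (u n : ℝ) ≤ k₀ n := by nlinarith [m1.1]
  have k2 : k₀ n ≤ (X n).m := Nat.cast_le (α := ℝ).1 (by nlinarith [m1.2])
  have k3 : 1 ≤ k₀ n := Nat.one_le_cast (α := ℝ).1 (u1.trans k1)
  have d0 := abs_le.1 (o.dp _ k2)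
  have s2 : ((X n).s : ℝ) ≤ c / 2 * (u n * (X n).s : ℕ) := by
    rw [div_le_iff₀' hc] at u2
    push_cast
    nlinarith
  obtain ⟨ω₀, p0, -⟩ := id ne
  refine ⟨o, ⟨h.ok, w1, w2, ne, ?_, o.l1, fun ω p => ?_, fun ω p ω' p' g g' =>
    (o.incC _ k2 k3 ω ω' ⟨p, p', fz n ω ω' g g'⟩).1⟩, su, fun b => ?_, fun x hx => ?_,
    by nlinarith, ?_, ⟨k3, k2⟩, ?_, ?_⟩
  · have := (o.good 0 (Nat.zero_le _) ω₀ p0).fl1 σ.τ
    simpa only [Ba.da, flr, if_pos (h.ok.live _ h.ok.tau)] using this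
  · exact ⟨(o.alg 0 (Nat.zero_le _) ω p).unit, (o.alg 0 (Nat.zero_le _) ω p).fr,
      (o.alg 0 (Nat.zero_le _) ω p).hg⟩
  · cases b
    · simpa only [Nat.cast_mul] using dC
    · simpa only [Nat.cast_mul] using dO
  · obtain ⟨a1, a2, a3⟩ := kx_spec (k₀ := k₀ n) (m := (X n).m) (R := R) (by linarith [m1.1])
      (by linarith [m1.2]) u1 hx
    have a4 : |((kx (k₀ n) (u n) x : ℝ) - k₀ n) * (X n).s - x * (u n * (X n).s : ℕ)| ≤ (X n).s := by
      rw [Nat.cast_mul, ← mul_assoc, ← sub_mul, abs_mul, Nat.abs_cast]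
      exact mul_le_of_le_one_left (Nat.cast_nonneg _) a1
    have a5 := abs_le.1 (o.dp _ a2)
    have a6 := abs_le.1 a4
    exact ⟨a2, a3, abs_le.2 ⟨by linarith [a5.1, a6.1, d0.2], by linarith [a5.2, a6.2, d0.1]⟩,
      a4.trans (by linarith)⟩
  · have g0 := h.g0
    have a1 : |R| / γ * u n ≤ (X n).m := m2.1.trans (Nat.cast_le.2 k2)
    rw [div_mul_eq_mul_div, div_le_iff₀' g0] at a1
    push_cast
    nlinarith [mul_le_mul_of_nonneg_right (r1.trans a1) (zero_le_one.trans s1)]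
  · push_cast at e2
    nlinarith [d0.1, mul_le_mul_of_nonneg_right k1 (zero_le_one.trans s1)]
  · push_cast
    nlinarith

theorem lin_wn (H : ∀ R c : ℝ, 0 < c → ∀ᶠ n in UF, Cx σ K ϑ La γ C (X n) (G n) (u n) (k₀ n) W R c)
    (v : (sc σ ob K X).Ev u k₀ sg τ b y k₀ G) (j : Option J) :
    Lin (fun n => wn σ (X n) (G n) (u n) (k₀ n)) (obv σ.μ ob K j) (sg j) (y j) := fun x c hc => by
  have c' : 0 < c / (1 + |sg j|) := by positivity
  filter_upwards [H |(x : ℝ)| _ c', v.lin j (|(x : ℝ)| + 1) _ c'] with n t l ω p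
  obtain ⟨p1, p2⟩ := t.tr.mem.1 p
  obtain ⟨-, a2, -, a4⟩ := t.lev x le_rfl
  have b1 := abs_le.1 (l ω p1 p2 _ a2)
  have b2 := abs_le.1 ((abs_mul (sg j) _).trans_le (mul_le_mul_of_nonneg_left a4 (abs_nonneg _)))
  have e : c / (1 + |sg j|) * (u n * (X n).s : ℕ) + |sg j| * (c / (1 + |sg j|) *
      (u n * (X n).s : ℕ)) = c * (u n * (X n).s : ℕ) := by field_simp
  simp only [sc, ← Nat.cast_mul] at b1
  simp only [wn]
  rw [abs_le]
  constructor <;> linarith [b1.1, b1.2, b2.1, b2.2]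

theorem small {c Q U : ℝ} (hQ : 0 < Q) : Q * (c / Q * U) = c * U := by field_simp

theorem ww (h : CH σ K ϑ La a γ C X) (hK : 0 < K) (hi : (sc σ ob K X).In A a)
    (w : (sc σ ob K X).Win u k₀ sg τ b) (v : (sc σ ob K X).Ev u k₀ sg τ b y k₀ G)
    (fz : ∀ n ω ω', G n ω → G n ω' → (X n).O false (k₀ n) ω = (X n).O false (k₀ n) ω')
    (hb : b < σ.m) (gap : ∀ p q p' q' : Option κ,
      |p.elim 0 σ.μ - q.elim 0 σ.μ - (p'.elim 0 σ.μ - q'.elim 0 σ.μ)| ≤ 2 * (sg none / K) →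
      p.elim 0 σ.μ - q.elim 0 σ.μ = p'.elim 0 σ.μ - q'.elim 0 σ.μ) :
    WW σ (fun n => wn σ (X n) (G n) (u n) (k₀ n)) ϑ La τ (sg none / K) ∧
      ∀ j, Lin (fun n => wn σ (X n) (G n) (u n) (k₀ n)) (obv σ.μ ob K j) (sg j) (y j) := by
  obtain ⟨W, w1, w2⟩ : ∃ W, (∀ a, σ.μ a ≤ W) ∧ ∀ i, σ.η i ≤ W := by
    have p := Finset.sum_nonneg fun a (_ : a ∈ Finset.univ) => h.ok.m0 a
    have q := Finset.sum_nonneg fun i (_ : i ∈ Finset.univ) => (h.ok.et i).le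
    exact ⟨∑ a, σ.μ a + ∑ i, σ.η i, fun a => (Finset.single_le_sum (fun a _ => h.ok.m0 a)
      (Finset.mem_univ a)).trans (by linarith), fun i => (Finset.single_le_sum
        (fun i _ => (h.ok.et i).le) (Finset.mem_univ i)).trans (by linarith)⟩
  have H := fun R c hc => cx h hi w v fz w1 w2 R (c := c) hc
  have t0 := h.ok.live _ h.ok.tau
  have W0 : 0 < W := t0.trans_le (w1 _)
  have l1 := h.ok.l1
  have th := h.t0
  have ta : 0 ≤ τ := w.t0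
  have bg : Big fun n => u n * (X n).s := tendsto_atTop_mono' _
    ((SelB.s_pos hi).mono fun n s => Nat.le_mul_of_pos_right _
      (Nat.cast_pos.1 (zero_lt_one.trans_le s))) w.big
  have nq : ∀ a : ℚ≥0, (0 : ℝ) ≤ (a : ℚ) := fun a => by exact_mod_cast a.2
  have two : ∀ x x' : ℝ, |x| ≤ |x| + |x'| ∧ |x'| ≤ |x| + |x'| := fun x x' =>
    ⟨le_add_of_nonneg_right (abs_nonneg _), le_add_of_nonneg_left (abs_nonneg _)⟩
  refine ⟨⟨h.ok, h.t0, h.a0, ?_, gap, bg, fun c hc => (H 0 c hc).mono fun n t =>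
    ⟨t.ok.l1, t.ok.le.trans (ex_le t.e)⟩, (H 0 1 one_pos).mono fun n t ω p ω' p' => ?_,
    fun x hx => (H 0 1 one_pos).mono fun n t ω p ω' p' _ => ?_,
    fun k a a' e => (H |((a' : ℚ) : ℝ)| 1 one_pos).mono fun n t => fn_cE (SelA.fn_chain
      (t.ok.nest k) (kx_mono _ _ (by exact_mod_cast e)) (t.lev _ le_rfl).1) _,
    fun a => (H |((a : ℚ) : ℝ)| 1 one_pos).mono fun n t => fn_cE (t.ok.com _ (t.lev _ le_rfl).1) _,
    fun a => (H |((a : ℚ) : ℝ)| 1 one_pos).mono fun n t => fn_cE (t.ok.fΨ _ (t.lev _ le_rfl).1) _,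
    (H 0 1 one_pos).mono fun n t ω p => t.tr.alg t.d0 (t.ok.alg _ t.k1.2 ω (cE_sub p)),
    fun z hz => ((H 0 1 one_pos).and (h.cur z hz)).mono fun n t => t.1.tr.cur t.2,
    fun x => (H |(x : ℝ)| 1 one_pos).mono fun n t ω p => ?_,
    fun x x' e => (H |(x' : ℝ)| 1 one_pos).mono fun n t ω p => t.ok.sub (cE_sub p)
      (kx_mono _ _ (by exact_mod_cast e)) (t.lev _ le_rfl).1,
    fun x T => ?_, fun a c hc _ => ?_, fun a c hc _ => ?_, fun x x' e c hc _ => ?_,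
    fun a c hc _ => ?_, fun a c hc T => ?_, fun i a c hc T => ?_, fun a a' e c hc _ => ?_,
    ⟨fun n => y none n / K, fun x c hc => ?_⟩⟩, lin_wn H v⟩
  · linarith [w.le, w.s0 (sc σ ob K X).g]
  · have z := fz n ω ω' (t.tr.mem.1 p).2 (t.tr.mem.1 p').2
    have f := Prod.mk.inj ((t.ok.fB.trans (SelA.fn_chain (t.ok.nest false) (Nat.zero_le _) t.k1.2))
      ω (cE_sub p) ω' (cE_sub p') z)
    refine ⟨?_, ?_, ?_⟩
    · simpa only [wn, NNRat.coe_zero, Rat.cast_zero, kx_zero] using z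
    · simp only [wn, Ba.nw, f.1]
    · simp only [wn, Ba.nw, f.2]
  · have e : kx (k₀ n) (u n) x ≤ k₀ n :=
      (kx_mono _ _ (by exact_mod_cast hx)).trans_eq (kx_zero _ _)
    exact ((t.ok.fΨ _ (e.trans t.k1.2)).trans (SelA.fn_chain (t.ok.nest false) e t.k1.2)) ω
      (cE_sub p) ω' (cE_sub p') (fz n ω ω' (t.tr.mem.1 p).2 (t.tr.mem.1 p').2)
  · simp only [wn, Ba.da_nw]
    exact t.ok.good _ (t.lev _ le_rfl).1 ω (cE_sub p)
  · filter_upwards [H (|(x : ℝ)| + |T|) 1 one_pos, v.tot] with n t z ω p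
    obtain ⟨p1, p2⟩ := t.tr.mem.1 p
    have a1 := (t.lev x (two _ _).1).1
    have f := fun k e => t.ok.fu (k := k) p1 e
    have a2 := (f _ a1).mono (wt := σ.μ) (f _ le_rfl) (t.ok.sub p1 a1 le_rfl)
    have a3 : K * Real.log (vl σ.μ ((X n).Ψ (X n).m ω)) - K * Real.log (vl σ.μ ((X n).Ψ 0 ω)) ≤
      b * ((X n).m * (X n).s) := z ω p1 p2
    have m0 : (0 : ℝ) ≤ (X n).m * (X n).s := by positivity
    have a4 : Real.log (vl σ.μ ((X n).Ψ (X n).m ω)) ≤ Real.log (vl σ.μ ((X n).Ψ 0 ω)) +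
        σ.m / K * ((X n).m * (X n).s : ℕ) := by
      rw [← sub_le_iff_le_add', div_mul_eq_mul_div, le_div_iff₀' hK, Nat.cast_mul]
      nlinarith
    rw [Real.log_le_iff_le_exp (f _ le_rfl).vl_pos, Real.exp_add,
      Real.exp_log (f _ (Nat.zero_le _)).vl_pos] at a4
    refine le_trans ?_ (t.ok.off ω p1)
    rw [add_mul, Real.exp_add, ← mul_assoc]
    refine mul_le_mul (a2.trans a4) (ex_le (le_trans ?_ t.far)) (Real.exp_pos _).le
      ((f _ a1).vl_pos.le.trans (a2.trans a4))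
    exact mul_le_mul_of_nonneg_right ((le_abs_self T).trans (two _ _).2) (Nat.cast_nonneg _)
  · have q : 0 < 1 + W := by positivity
    refine (H |((a : ℚ) : ℝ)| _ (div_pos hc q)).mono fun n t => ?_
    obtain ⟨a1, -, a3, -⟩ := t.lev _ le_rfl
    refine t.tr.incC (by simpa only [wn, Rat.cast_nnratCast] using a3) ?_
      (t.ok.incC _ a1 (t.k1.1.trans (kx_ge _ _ (nq a))))
    simp only [wM, wn]
    linarith [t.e, small (c := c) (U := (u n * (X n).s : ℕ)) q]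
  · have q : 0 < 1 + W := by positivity
    refine (H |((a : ℚ) : ℝ)| _ (div_pos hc q)).mono fun n t => ?_
    obtain ⟨a1, -, a3, -⟩ := t.lev _ le_rfl
    refine t.tr.incO (by simpa only [wn, Rat.cast_nnratCast] using a3) ?_ (t.ok.incO _ a1)
    simp only [wM, wn]
    linarith [t.e, small (c := c) (U := (u n * (X n).s : ℕ)) q]
  · have q : 0 < 1 + 2 * ϑ := by positivity
    refine (H (|(x : ℝ)| + |(x' : ℝ)|) _ (div_pos hc q)).mono fun n t => ?_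
    obtain ⟨-, -, -, a4⟩ := t.lev x (two _ _).1
    obtain ⟨b1, -, -, b4⟩ := t.lev x' (two _ _).2
    refine t.tr.rate (δ := ϑ * (2 * (c / (1 + 2 * ϑ) * (u n * (X n).s : ℕ)))) ?_ ?_
      (t.ok.rate _ _ (kx_mono _ _ (by exact_mod_cast e)) b1)
    · rw [← mul_sub, abs_mul, abs_of_pos th]
      refine mul_le_mul_of_nonneg_left (abs_le.2 ⟨?_, ?_⟩) th.le <;> simp only [wn] <;>
        linarith [(abs_le.1 a4).1, (abs_le.1 a4).2, (abs_le.1 b4).1, (abs_le.1 b4).2]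
    · simp only [wM, wn]
      linarith [t.e, small (c := c) (U := (u n * (X n).s : ℕ)) q]
  · refine (H |((a : ℚ) : ℝ)| _ (half_pos hc)).mono fun n t ω p => ?_
    obtain ⟨p1, p2⟩ := t.tr.mem.1 p
    have a1 := (t.lev _ le_rfl).1
    have a2 := kx_ge (k₀ n) (u n) (nq a)
    refine t.tr.rob p (t.dom false ω p1 p2 _ a2 a1) ?_
      (t.ok.rob _ a1 (t.k1.1.trans a2) ω p1 (t.sub ω p2))
    simp only [wM, wn]
    linarith [t.e]
  · have q : 0 < 2 + W / σ.L₁ := by positivity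
    have c' := div_pos hc q
    refine (H (|((a : ℚ) : ℝ)| + (|T| + 2 * (W * (c / (2 + W / σ.L₁))))) _ c').mono fun n t => ?_
    obtain ⟨a1, -, a3, -⟩ := t.lev ((a : ℚ) : ℝ) (le_add_of_nonneg_right (by positivity))
    refine t.tr.ac (by simpa only [wn, Rat.cast_nnratCast] using a3)
      (fun ω p g => t.dom true ω p g _ (kx_ge _ _ (nq a)) a1) ?_ (le_trans ?_ t.far) (t.ok.ac _ a1)
    · have := small (c := c) (U := (u n * (X n).s : ℕ)) q
      rw [mul_div_right_comm]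
      simp only [wM, wn]
      linarith [t.e]
    · have := mul_le_mul_of_nonneg_right ((le_abs_self T).trans (two ((a : ℚ) : ℝ) T).2)
        (zero_le_one.trans t.u1)
      simp only [wM, wn]
      linarith
  · have q : 0 < 2 + 6 * W + 2 ^ σ.kf i := by positivity
    have c' := div_pos hc q
    filter_upwards [H (|((a : ℚ) : ℝ)| + |T| / σ.μ σ.τ) _ c', h.ht i,
      big_exp bg (4 * 2 ^ σ.kf i + 1) c'] with n t z g r r0 r1
    obtain ⟨U, hU⟩ : ∃ U : ℝ, U = (u n * (X n).s : ℕ) := ⟨_, rfl⟩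
    have U1 : 1 ≤ U := hU ▸ t.u1
    have r2 : r ≤ T * U := hU ▸ r1
    have s0 : 0 ≤ r / (σ.μ σ.τ * U) := by positivity
    have s1 : r / (σ.μ σ.τ * U) ≤ |T| / σ.μ σ.τ := by
      rw [div_le_div_iff₀ (by positivity) t0]
      nlinarith [mul_le_mul_of_nonneg_right (r2.trans (mul_le_mul_of_nonneg_right (le_abs_self T)
        (zero_le_one.trans U1))) t0.le]
    obtain ⟨a1, -, a3, -⟩ := t.lev ((a : ℚ) : ℝ) (le_add_of_nonneg_right (by positivity))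
    obtain ⟨b1, -, b3, -⟩ := t.lev (((a : ℚ) : ℝ) + r / (σ.μ σ.τ * U))
      ((abs_add_le _ _).trans (by rw [abs_of_nonneg s0]; linarith))
    rw [← hU] at a3 b3 g
    obtain ⟨ε, hε⟩ : ∃ ε, ε = c / (2 + 6 * W + 2 ^ σ.kf i) * U := ⟨_, rfl⟩
    rw [← hε] at a3 b3 g
    have e0 : 0 ≤ ε := (abs_nonneg _).trans a3
    have a5 := abs_le.1 ((abs_mul (σ.μ σ.τ) _).trans_le (mul_le_mul
      ((abs_of_pos t0).trans_le (w1 _)) a3 (abs_nonneg _) W0.le))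
    have b5 := abs_le.1 ((abs_mul (σ.μ σ.τ) _).trans_le (mul_le_mul
      ((abs_of_pos t0).trans_le (w1 _)) b3 (abs_nonneg _) W0.le))
    have y0 : σ.μ σ.τ * (r / (σ.μ σ.τ * U) * U) = r := by field_simp
    have p0 : 0 ≤ W * ε := by positivity
    refine t.tr.ht (δ := 2 * (W * ε)) (ε := ε) t.sub
      (fun ω p g => hε ▸ hU ▸ t.dom true ω p g _ (kx_ge _ _ (nq a)) a1) ?_ ?_ ?_
      (z _ _ (kx_mono _ _ (le_add_of_nonneg_right s0)) b1)
    · simp only [wn, ← hU, Rat.cast_nnratCast] at b5 ⊢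
      rw [abs_le]
      constructor <;> linarith [b5.1, b5.2]
    · rw [abs_le]
      constructor <;> linarith [a5.1, a5.2, b5.1, b5.2]
    · have x1 : 1 ≤ Real.exp (2 * (W * ε)) := Real.one_le_exp (by positivity)
      have x2 : 2 * 2 ^ σ.kf i * (Real.exp (2 * (W * ε)) + 1) * Real.exp (2 * (W * ε)) + 1 ≤
          Real.exp ε * (Real.exp (2 * (W * ε)) * Real.exp (2 * (W * ε))) := by
        refine le_trans ?_ (mul_le_mul_of_nonneg_right g (by positivity))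
        have : (0 : ℝ) < 2 ^ σ.kf i := by positivity
        nlinarith [mul_le_mul_of_nonneg_left x1 this.le, mul_le_mul x1 x1 zero_le_one
          (zero_le_one.trans x1), mul_nonneg this.le (mul_nonneg (zero_le_one.trans x1)
            (sub_nonneg.2 x1))]
      refine (mul_le_mul_of_nonneg_right x2 (by positivity)).trans ?_
      rw [← Real.exp_nat_mul]
      simp only [← Real.exp_add]
      refine ex_le ?_
      have x3 := small (c := c) (U := U) q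
      have x4 : (X n).e ≤ ε := hε ▸ hU ▸ t.e
      rw [← hε] at x3
      simp only [wM, wn, ← hU]
      push_cast
      linarith
  · have q : 0 < 1 + 2 * τ := by positivity
    have c' := div_pos hc q
    filter_upwards [H (|((a : ℚ) : ℝ)| + |((a' : ℚ) : ℝ)|) _ c',
      v.df hi w.mid (|((a : ℚ) : ℝ)| + |((a' : ℚ) : ℝ)| + 1) _ c'] with n t z ω p
    obtain ⟨p1, p2⟩ := t.tr.mem.1 p
    obtain ⟨-, a2, -, a4⟩ := t.lev _ (two ((a : ℚ) : ℝ) _).1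
    obtain ⟨-, b2, -, b4⟩ := t.lev _ (two _ ((a' : ℚ) : ℝ)).2
    refine (z ω p1 p2 _ _ (kx_ge _ _ (nq a)) (kx_mono _ _ (by exact_mod_cast e)) a2 b2).trans
      (mul_le_mul_of_nonneg_right (ex_le ?_) (pb_nonneg _ _))
    have x1 := mul_le_mul_of_nonneg_left (abs_le.1 a4).1 ta
    have x2 := mul_le_mul_of_nonneg_left (abs_le.1 b4).2 ta
    have x3 := small (c := c) (U := (u n * (X n).s : ℕ)) q
    simp only [sc, wM, wn, ← Nat.cast_mul, Rat.cast_nnratCast] at x1 x2 ⊢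
    linarith
  · refine (lin_wn H v none x _ (mul_pos hK hc)).mono fun n z ω p => ?_
    have := z ω p
    rw [mul_assoc, ← div_le_iff₀' hK, ← abs_of_pos hK, ← abs_div, abs_of_pos hK] at this
    refine le_of_eq_of_le (congrArg _ ?_) this
    simp only [obv]
    field_simp

theorem sWin : SWin := by
  intro ι κ α J _ _ _ _ _ _ σ ob ad
  obtain ⟨δ, d0, d1⟩ := ex_gap fun i : Option κ × Option κ × Option κ × Option κ =>
    i.1.elim 0 σ.μ - i.2.1.elim 0 σ.μ - (i.2.2.1.elim 0 σ.μ - i.2.2.2.elim 0 σ.μ)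
  refine ⟨2 * |σ.m| / δ + 1, fun Ω Θ Λ K ϑ La a γ C X k h => ?_⟩
  have hK : 0 < K := lt_of_lt_of_le (by positivity) k
  obtain ⟨A, hi⟩ := sc_in ad hK h
  obtain ⟨u, k₀, sg, τ, cy, G, w, v⟩ := selY _ _ _ _ _ _ _ _ A a ((σ.m - a) / 2) hi
    (by linarith [h.am.2])
  obtain ⟨G', v', -, fz⟩ := v.ex_frz hi k₀
  obtain ⟨r1, r2⟩ := ww h hK hi w v' fz (by linarith [h.am.2]) fun p q p' q' e =>
    sub_eq_zero.1 (d1 (p, q, p', q') (e.trans (by
      have a1 : sg none ≤ |σ.m| := by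
        linarith [show τ + sg none ≤ _ from w.le, w.t0, h.am.2, le_abs_self σ.m]
      have a2 : 2 * |σ.m| / δ ≤ K := by linarith
      rw [div_le_iff₀ d0] at a2
      rw [← mul_div_assoc, div_le_iff₀' hK]
      linarith)))
  refine ⟨_, _, _, r1, fun n => (X n).m * (X n).s, fun R => ?_, fun j => ⟨_, _, r2 (some j)⟩⟩
  filter_upwards [w.mid R, w.mid 0] with n m1 m2
  have := mul_le_mul_of_nonneg_right (m1.1.trans (show (k₀ n : ℝ) ≤ (X n).m by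
    simpa [sc] using m2.2)) (Nat.cast_nonneg (α := ℝ) (X n).s)
  simp only [wn]
  push_cast
  linarith

end Pool.Agent.MP_5168f5_an.QA.Cp
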