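import Pool.Agent.MP_5168f5_an.QA.CpKit

/-! The Kakeya maximal estimate: the increments in the diagonal frames. -/

namespace Pool.Agent.MP_5168f5_an.QA.Cp

open H19 H17S H17F R4 AN Filter Matrix
open GA (Mt IsFr lg mB mC)
open LC (Au ex_le)

namespace IncA

theorem one {κ α : Type} [Fintype κ] [Fintype α] {φ t : κ → ℝ} {A : α → κ → ℝ} {s : α → ℝ} {δ : ℝ}
    (h : ∀ i, |s i| * |φ ⬝ᵥ A i| ≤ δ) (k : ∀ e, |φ e| * |t e - ∑ i, s i * A i e| ≤ δ) :
    |φ ⬝ᵥ t| ≤ (Fintype.card α + Fintype.card κ) * δ := by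
  have e : φ ⬝ᵥ t = ∑ i, s i * (φ ⬝ᵥ A i) + ∑ e, φ e * (t e - ∑ i, s i * A i e) := by
    simp only [dotProduct, mul_sub, Finset.sum_sub_distrib, Finset.mul_sum]
    rw [Finset.sum_comm (f := fun e i => φ e * (s i * A i e))]
    simp only [mul_left_comm (φ _), add_sub_cancel]
  rw [e, add_mul]
  refine (abs_add_le _ _).trans (add_le_add ?_ ?_) <;>
    refine (Finset.abs_sum_le_sum_abs _ _).trans
      ((Finset.sum_le_card_nsmul _ _ δ fun a _ => ?_).trans (by simp)) <;> rw [abs_mul]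
  exacts [h a, k a]

theorem kle {M : ℕ → ℕ} (hM : Big M) (x : ℝ) {c : ℝ} (hc : 0 < c) :
    ∀ᶠ n in UF, x ≤ Real.exp (c * M n) :=
  (G39.big_dl hM x hc).mono fun _ k => k.trans_eq (G39.dl_inv _ _ _)

end IncA

open IncA in
theorem rInc : RInc := by
  intro ι κ α _ _ _ _ _ Ω Λ σ X ϑ La D s₀ vt F F' u u' z r a
  have hM : Big (wM X) := z.big
  have hl : ∀ᶠ n in UF, ∀ ω ∈ (X n).P.S, ∀ v ∈ (X n).P.S,
      lg (mB (u n ω * F n) ((X n).B ω)) ((X n).j ω) ((X n).j v) =
        (X n).t ω v ᵥ* (F' n * u' n ω) := by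
    filter_upwards [z.incC 0 1 one_pos 0, z.bot, z.alg, r.blk] with n k1 k2 k3 k4 ω hω v hv
    conv_lhs => rw [(k1 ω v ⟨hω, hv, (k2 ω hω v hv).1⟩).1]
    exact lg_mB (k3 ω hω).fr (k4 ω hω).1 (k3 ω hω).unit _
  refine ⟨fun c hc _ => ?_, fun _ _ T => (eventually_all (p := fun b n => ∀ ω v,
    (X n).At ((X n).O true a) ω v → σ.μ b + vt b ≠ σ.μ b → |Real.exp ((σ.μ b + vt b) *
      (a * (X n).M)) * lg (mB (u n ω * F n) ((X n).B ω)) ((X n).j ω) ((X n).j v) b| ≤
      Real.exp (-(T * (X n).M)))).2 (fun b => ?_) |>.mono fun n k ω v e b => k b ω v e⟩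
  · have c3 : 0 < c / 3 := by positivity
    filter_upwards [hl, z.incC a _ c3 0, z.good a, r.blk, r.dia a _ c3, z.fΨ a, r.ex,
      kle hM (2 * Fintype.card κ) c3] with n k1 k2 k3 k4 k5 k6 k7 k8 ω v e b
    simp only [Rat.cast_nnratCast] at k5
    refine ⟨?_, fun f => ?_⟩
    · show |Real.exp ((σ.μ b + vt b) * (a * (X n).M)) *
        lg (mB (u n ω * F n) ((X n).B ω)) ((X n).j ω) ((X n).j v) b| ≤ _
      rw [k1 ω e.1 v e.2.1, vecMul_col, abs_mul, Real.abs_exp]
      refine (mul_le_mul_of_nonneg_left ((k3 ω e.1).dot_le ((k4 ω e.1).2.2.1 b)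
        (fun y w => by rw [← vecMul_col]; exact (k5 ω e.1).2 y w b) (Real.exp_pos _).le
        fun ψ w => (k2 ω v e).2 ψ w _) (Real.exp_pos _).le).trans ?_
      refine (mul_le_mul_of_nonneg_left (mul_le_mul_of_nonneg_right (mul_le_mul_of_nonneg_right k8
        (Real.exp_pos _).le) (Real.exp_pos _).le) (Real.exp_pos _).le).trans ?_
      simp only [← Real.exp_add]
      exact ex_le (le_of_eq (by simp only [cd]; ring))
    · show |Real.exp ((σ.μ f + vt f - (σ.μ b + vt b)) * (a * (X n).M)) * (u n v * u' n ω) b f| ≤ _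
      by_cases w : (u n v * u' n ω) b f = 0
      · rw [w, mul_zero, abs_zero]; positivity
      have := (k5 ω e.1).2 (Real.exp (-((c / 3 + vt b * a) * (X n).M)) • (u n v * F n) b)
        (fun φ y => by
          rw [dotProduct_smul, smul_eq_mul, abs_mul, Real.abs_exp, Real.exp_neg,
            inv_mul_le_iff₀ (Real.exp_pos _), mul_one]
          exact (k5 v e.2.1).1 b φ (k6 ω e.1 v e.2.1 e.2.2 ▸ y)) f
      rw [smul_vecMul, Pi.smul_apply, smul_eq_mul, abs_mul, Real.abs_exp, Real.exp_neg,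
        inv_mul_le_iff₀ (Real.exp_pos _), ← Real.exp_add, ← mul_apply_eq_vecMul, mul_assoc,
        ← mul_assoc (F n), k7.1, one_mul] at this
      rw [abs_mul, Real.abs_exp, blk_mul (fun a b w => ((k4 v e.2.1).2.2.2 a b (.inl w)).1)
        (fun a b w => ((k4 ω e.1).2.2.2 a b (.inr w)).1) b f w]
      refine (mul_le_mul_of_nonneg_left this (Real.exp_pos _).le).trans ?_
      rw [← Real.exp_add]
      have : 0 ≤ c / 3 * (X n).M := by positivity
      exact ex_le (by simp only [cd]; linarith)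
  by_cases v0 : vt b = 0
  · exact .of_forall fun n ω v _ w => absurd (by rw [v0, add_zero]) w
  have v1 := (r.v0 b).1.lt_of_ne' v0
  have m1 : 0 < σ.μ b := (z.ok.m0 b).lt_of_ne' fun w => v0 (r.dead b w)
  obtain ⟨K, hK⟩ : ∃ K, K = T + (σ.μ b + vt b) * a + 4 := ⟨_, rfl⟩
  obtain ⟨x, hx⟩ := exists_rat_gt (K / vt b)
  rw [div_lt_iff₀ v1] at hx
  filter_upwards [hl, z.incO a 1 one_pos 0, z.good x, z.good 0, r.blk, r.dia x 1 one_pos,
    r.dia 0 1 one_pos, z.off 0 K, z.sub 1 one_pos,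
    kle hM (Fintype.card α + Fintype.card κ) one_pos, kle hM (4 * (Fintype.card κ : ℝ) ^ 2) one_pos]
    with n k1 k2 k3 k4 k5 k6 k7 k8 k9 k10 k11 ω v e _
  obtain ⟨s, s1, s2⟩ := k2 ω v e
  have p : (0 : ℝ) ≤ (X n).M := Nat.cast_nonneg _
  have q : (0 : ℝ) ≤ a * (X n).M := by positivity
  simp only [wM] at *
  rw [k1 ω e.1 v e.2.1, vecMul_col, abs_mul, Real.abs_exp]
  refine (mul_le_mul_of_nonneg_left (one (A := (X n).A ω) (s := s)
    (δ := Real.exp ((3 - K) * (X n).M)) (fun i => ?_) fun f => ?_) (Real.exp_pos _).le).trans ?_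
  · have := (k3 ω e.1).dot_A (one_pos.trans_le k9.1)
      (fun y w => by rw [← vecMul_col]; exact (k6 ω e.1).2 y w b) i
    refine (mul_le_mul (s1 i) (this.trans (mul_le_mul_of_nonneg_right k9.2 (Real.exp_pos _).le))
      (abs_nonneg _) (Real.exp_pos _).le).trans ?_
    simp only [← Real.exp_add]
    exact ex_le (by nlinarith [mul_nonneg (z.ok.et i).le q, mul_le_mul_of_nonneg_right hx.le p])
  · by_cases w : (F' n * u' n ω) f b = 0
    · simp only [w, abs_zero, zero_mul]; positivity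
    have e1 := (k4 ω e.1).ent_of ((k5 ω e.1).2.2.1 b)
      (fun y w => by rw [← vecMul_col]; exact (k7 ω e.1).2 y w b) f
    have e2 := s2 f
    have e3 := (k4 ω e.1).fu.vl_pos (wt := σ.μ)
    rw [flr, if_pos ((k5 ω e.1).2.2.1 b f w ▸ m1)] at e2
    have e4 := (mul_le_mul_of_nonneg_left (k8 ω e.1) (abs_nonneg _)).trans e2
    rw [← mul_assoc, ← le_div_iff₀ (Real.exp_pos _), ← Real.exp_sub] at e4
    refine (mul_le_mul_of_nonneg_right e1 (abs_nonneg _)).trans ?_
    rw [mul_assoc, mul_assoc, mul_comm (vl _ _)]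
    refine (mul_le_mul k11 (mul_le_mul_of_nonneg_left e4 (Real.exp_pos _).le) (by positivity)
      (Real.exp_pos _).le).trans ?_
    simp only [← Real.exp_add]
    exact ex_le (by simp only [Rat.cast_zero]; nlinarith [mul_nonneg (z.ok.m0 f) q])
  · refine (mul_le_mul_of_nonneg_left (mul_le_mul_of_nonneg_right k10 (Real.exp_pos _).le)
      (Real.exp_pos _).le).trans ?_
    simp only [← Real.exp_add]
    exact ex_le (le_of_eq (by rw [hK]; ring))

end Pool.Agent.MP_5168f5_an.QA.Cp
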