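import Pool.Agent.MP_5168f5_an.QA.CpKit
import Pool.Agent.MP_5168f5_an.AN.TLTAdp

/-! The Kakeya maximal estimate: the constants in the diagonal frames. -/

namespace Pool.Agent.MP_5168f5_an.QA.Cp

open H19 H17S H17F R4 AN Filter Matrix Finset
open GA (Mt IsFr lg mB mC br)
open LC (Au)

namespace AlgA

variable {ι κ α : Type} [Fintype ι] [DecidableEq ι] [Fintype κ] [DecidableEq κ]

omit [DecidableEq κ] in
theorem s1 {f : κ → ℝ} {t E : ℝ} (k : (Fintype.card κ : ℝ) ≤ E) (ht : 0 ≤ t) (h : ∀ a, |f a| ≤ t) :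
    |∑ a, f a| ≤ E * t :=
  (abs_sum_le_sum_abs _ _).trans ((sum_le_card_nsmul _ _ t fun a _ => h a).trans
    (by simpa using mul_le_mul_of_nonneg_right k ht))

omit [DecidableEq κ] in
theorem s3 {q : κ → κ → κ → ℝ} {N N' : Matrix κ κ ℝ} {a b e : κ} {t E : ℝ}
    (k : (Fintype.card κ : ℝ) ≤ E) (ht : 0 ≤ t)
    (h : ∀ x y z, |q x y z * N a x * N b y * N' z e| ≤ t) : |mC N N' q a b e| ≤ E ^ 3 * t := by
  have e0 : 0 ≤ E := (Nat.cast_nonneg _).trans k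
  rw [GA.GAChgA.mC_eq]
  refine (s1 (t := E * (E * t)) k (by positivity) fun z => ?_).trans_eq (by ring)
  rw [sum_mul]
  refine s1 k (by positivity) fun x => ?_
  rw [sum_mul]
  exact s1 k ht fun y => h x y z

theorem m4 {a b c d A B C D : ℝ} (h1 : |a| ≤ A) (h2 : |b| ≤ B) (h3 : |c| ≤ C) (h4 : |d| ≤ D) :
    |a * b * c * d| ≤ A * B * C * D := by
  have p1 := (abs_nonneg _).trans h1
  have p2 := (abs_nonneg _).trans h2
  have p3 := (abs_nonneg _).trans h3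
  simp only [abs_mul]
  gcongr

omit [DecidableEq κ] in
/-- Small constants against forms that are far from the floor. -/
theorem tiny {q : κ → κ → κ → ℝ} {N N' : Matrix κ κ ℝ} {a b e : κ} {r s E G : ℝ}
    (k : (Fintype.card κ : ℝ) ≤ E) (g : 0 < G) (hr : 0 ≤ r) (hs : 0 ≤ s) (h : ∀ x y, |N x y| ≤ r)
    (h' : ∀ z, |N' z e| ≤ s * G)
    (hq : ∀ x y z, q x y z ≠ 0 → N a x ≠ 0 → N b y ≠ 0 → N' z e ≠ 0 → |q x y z| * G ≤ 1) :
    |mC N N' q a b e| ≤ E ^ 3 * (r * r * s) := by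
  refine s3 k (by positivity) fun x y z => ?_
  by_cases w : q x y z * N a x * N b y * N' z e = 0
  · rw [w, abs_zero]; positivity
  simp only [mul_eq_zero, not_or] at w
  refine (m4 ((le_div_iff₀ g).2 (hq x y z w.1.1.1 w.1.1.2 w.1.2 w.2)) (h a x) (h b y)
    (h' z)).trans_eq ?_
  field_simp

/-- Brackets of bounded vectors against a bounded form. -/
theorem tri {d : Da κ α} {S : Set (κ → ℝ)} (g : d.Good S) (hL : 0 < d.L) {N N' : Matrix κ κ ℝ}
    {a b e : κ} {r r' s : ℝ} (p : 0 < r) (p' : 0 < r') (h : ∀ φ ∈ S, |φ ⬝ᵥ N a| ≤ r)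
    (h' : ∀ φ ∈ S, |φ ⬝ᵥ N b| ≤ r') (k : ∀ y, In S y → |(y ᵥ* N') e| ≤ s) :
    |mC N N' d.h a b e| ≤ r * r' * d.L * s := by
  have i : ∀ {x : κ → ℝ} {t : ℝ}, 0 < t → (∀ φ ∈ S, |φ ⬝ᵥ x| ≤ t) → In S (t⁻¹ • x) :=
    fun u v φ w => by
      rw [dotProduct_smul, smul_eq_mul, abs_mul, abs_of_pos (inv_pos.2 u), inv_mul_le_iff₀ u,
        mul_one]
      exact v φ w
  have := k _ (i hL fun φ w => by simpa using (g.ok φ w).c _ _ (i p h) (i p' h'))
  rw [GA.br_smul_left, GA.br_smul_right, smul_smul, smul_smul, smul_vecMul, Pi.smul_apply,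
    smul_eq_mul, abs_mul, abs_of_pos (by positivity), ← mul_inv, ← mul_inv,
    inv_mul_le_iff₀ (by positivity)] at this
  exact this.trans_eq (by ring)

theorem ent {S : Set (κ → ℝ)} {N' : Matrix κ κ ℝ} {b e : κ} {r s : ℝ} (p : 0 < r)
    (h : ∀ φ ∈ S, |φ b| ≤ r) (k : ∀ y, In S y → |(y ᵥ* N') e| ≤ s) : |N' b e| ≤ r * s := by
  have := k (r⁻¹ • Pi.single b 1) fun φ w => by
    rw [dotProduct_smul, dotProduct_single, mul_one, smul_eq_mul, abs_mul, abs_of_pos (inv_pos.2 p),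
      inv_mul_le_iff₀ p, mul_one]
    exact h φ w
  rwa [smul_vecMul, single_one_vecMul, Pi.smul_apply, smul_eq_mul, abs_mul,
    abs_of_pos (inv_pos.2 p), inv_mul_le_iff₀ p] at this

omit [DecidableEq κ] in
theorem mC_add (N N' : Matrix κ κ ℝ) (q q' : κ → κ → κ → ℝ) (a b e : κ) :
    mC N N' (q + q') a b e = mC N N' q a b e + mC N N' q' a b e := by
  simp only [GA.GAChgA.mC_eq, Pi.add_apply, add_mul, sum_add_distrib]

/-- The facts at one sample. -/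
structure Fi {Ω : Type} (σ : Cs ι κ α) (X : Ba ι κ α Ω) (ω : Ω) (vt : κ → ℝ)
    (F F' u u' : Matrix κ κ ℝ) (S : Set (κ → ℝ)) (E δ : ℝ) : Prop where
  alg : X.Alg σ 0 ω
  good : (X.da σ ω).Good S
  m0 : ∀ a, 0 ≤ σ.μ a
  v0 : ∀ a, vt σ.τ ≤ vt a
  live : ∀ a, σ.pos a → 0 < σ.μ a
  l1 : 1 ≤ X.L
  lE : X.L ≤ E
  kE : 2 * (Fintype.card κ : ℝ) + 2 ≤ E
  d0 : 0 < δ
  off : vl σ.μ S ≤ δ * X.F
  fi : F * F' = 1
  fp : ∀ a b, F a b ≠ 0 ∨ F' a b ≠ 0 →
    σ.μ a = σ.μ b ∧ (σ.pos b → σ.pos a) ∧ (b = σ.τ → a = σ.τ)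
  ui : u * u' = 1
  up : ∀ b e, u b e ≠ (1 : Matrix κ κ ℝ) b e ∨ u' b e ≠ (1 : Matrix κ κ ℝ) b e →
    σ.μ b = σ.μ e ∧ vt b < vt e
  row : ∀ a, Hg σ.μ (σ.μ a) ((u * F) a)
  col : ∀ e, Hg σ.μ (σ.μ e) fun b => (F' * u') b e
  pat : ∀ b e, ¬σ.pos b → σ.pos e → |u b e| ≤ δ ∧ |u' b e| ≤ δ
  ob : ∀ b e, |u b e| ≤ E ∧ |u' b e| ≤ E
  d1 : ∀ a, ∀ φ ∈ S, |φ ⬝ᵥ (u * F) a| ≤ E
  d2 : ∀ y, In S y → ∀ e, |(y ᵥ* (F' * u')) e| ≤ E

namespace Fi

variable {Ω : Type} {σ : Cs ι κ α} {X : Ba ι κ α Ω} {ω : Ω} {vt : κ → ℝ}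
  {F F' u u' : Matrix κ κ ℝ} {S : Set (κ → ℝ)} {E δ : ℝ} (h : Fi σ X ω vt F F' u u' S E δ)

include h

theorem k : (Fintype.card κ : ℝ) ≤ E := by linarith [h.kE, Nat.cast_nonneg (α := ℝ) (Fintype.card κ)]

theorem e2 : 2 ≤ E := by linarith [h.kE, Nat.cast_nonneg (α := ℝ) (Fintype.card κ)]

theorem e0 : 0 < E := two_pos.trans_le h.e2

theorem f0 : 0 < X.F :=
  pos_of_mul_pos_left (((h.good.fu.vl_pos (wt := σ.μ)).trans_le h.off).trans_eq (mul_comm _ _))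
    h.d0.le

theorem pw {i j : ℕ} (e : i ≤ j) : E ^ i ≤ E ^ j := pow_le_pow_right₀ (by linarith [h.e2]) e

theorem en (φ : κ → ℝ) (w : φ ∈ S) (b : κ) : |φ b| ≤ E * δ * X.F :=
  (entry_le h.good w b).trans ((mul_le_mul (by linarith [h.kE]) h.off
    (h.good.fu.vl_pos (wt := σ.μ)).le h.e0.le).trans_eq (mul_assoc _ _ _).symm)

theorem n1 (a b : κ) : |(u * F) a b| ≤ E := by simpa using h.d1 a _ (h.good.one b)

theorem r1 (f : κ) (φ : κ → ℝ) (w : φ ∈ S) : |φ ⬝ᵥ F f| ≤ E ^ 3 := by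
  have e : F f = u' f ᵥ* (u * F) := by
    show _ = (u' * (u * F)) f
    rw [← mul_assoc, mul_eq_one_comm.1 h.ui, one_mul]
  rw [e, vecMul_eq_sum, dotProduct_sum]
  refine (s1 (t := E * E) h.k (mul_pos h.e0 h.e0).le fun g => ?_).trans_eq (by ring)
  rw [dotProduct_smul, smul_eq_mul, abs_mul]
  exact mul_le_mul (h.ob f g).2 (h.d1 g φ w) (abs_nonneg _) h.e0.le

theorem r2 (e : κ) (y : κ → ℝ) (w : In S y) : |(y ᵥ* F') e| ≤ E ^ 3 := by
  have e1 : y ᵥ* F' = y ᵥ* (F' * u') ᵥ* u := by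
    rw [vecMul_vecMul, mul_assoc, mul_eq_one_comm.1 h.ui, mul_one]
  rw [e1]
  refine (s1 (t := E * E) h.k (mul_pos h.e0 h.e0).le fun g => ?_).trans_eq (by ring)
  rw [abs_mul]
  exact mul_le_mul (h.d2 y w g) (h.ob g e).1 (abs_nonneg _) h.e0.le

/-- The part that is not homogeneous. -/
theorem rest (a b e : κ) (he : 0 < σ.μ e) :
    |mC (u * F) (F' * u') (X.c ω) a b e - mC (u * F) (F' * u') (hc σ.μ (X.c ω)) a b e| ≤
      E ^ 7 * δ := by
  have e0 := h.e0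
  have d0 := h.d0
  have f0 := h.f0
  rw [← sub_add_cancel (X.c ω) (hc σ.μ (X.c ω)), mC_add, sub_add_cancel, add_sub_cancel_right]
  refine (tiny (s := E * E * δ) h.k f0 e0.le (by positivity) h.n1 (fun z => (ent (by positivity)
    (fun φ w => h.en φ w z) fun y w => h.d2 y w e).trans_eq (by ring))
    fun x y z w _ _ v => ?_).trans_eq (by ring)
  have n : ¬Hw σ.μ x y z := fun n => w (by simp [hc, n])
  simpa [hc, n] using h.alg.gr x y z ((h.col e z v).symm ▸ he) n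

theorem nh (a b e : κ) (n : ¬Hw σ.μ a b e) :
    mC (u * F) (F' * u') (hc σ.μ (X.c ω)) a b e = 0 := by
  refine abs_nonpos_iff.1 ((s3 (t := 0) h.k le_rfl fun x y z => le_of_eq (abs_eq_zero.2 ?_)).trans_eq
    (mul_zero _))
  by_contra w
  simp only [mul_eq_zero, not_or] at w
  have : Hw σ.μ x y z := by_contra fun v => w.1.1.1 (if_neg v)
  unfold Hw at this n
  rw [h.row a x w.1.1.2, h.row b y w.1.2, h.col e z w.2] at this
  exact n this

theorem fin {x y : ℝ} {j : ℕ} (hj : j ≤ 19) (a : |x - y| ≤ E ^ 7 * δ)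
    (b : |y| ≤ E ^ j * δ) : |x| ≤ E ^ 20 * δ := by
  have p1 := mul_le_mul_of_nonneg_right (h.pw (show 7 ≤ 19 by norm_num)) h.d0.le
  have p2 := mul_le_mul_of_nonneg_right (h.pw hj) h.d0.le
  have p3 := mul_le_mul_of_nonneg_right h.e2 (mul_pos (pow_pos h.e0 19) h.d0).le
  have p4 := abs_add_le (x - y) y
  rw [sub_add_cancel] at p4
  nlinarith

theorem bd (d1 : δ ≤ 1) (a b e : κ) : |mC (u * F) (F' * u') (X.c ω) a b e| ≤ E ^ 16 := by
  have e0 := h.e0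
  rcases (h.m0 e).eq_or_lt with he | he
  · refine (s3 (t := E * E * E * E) h.k (by positivity) fun x y z => ?_).trans
      ((by ring : _ = E ^ 7).trans_le (h.pw (by norm_num)))
    by_cases v : (F' * u') z e = 0
    · rw [v, mul_zero, abs_zero]; positivity
    refine m4 ((h.alg.ob x y z).trans h.lE) (h.n1 a x) (h.n1 b y) ((ent one_pos (fun φ w => ?_)
      fun y w => h.d2 y w e).trans_eq (one_mul _))
    have n : ¬0 < σ.μ z := by rw [h.col e z v, ← he]; exact lt_irrefl _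
    simpa [Ba.da, flr, n] using (h.good.ok φ w).f z
  · have p1 := (h.rest a b e he).trans (mul_le_of_le_one_right (by positivity) d1)
    have p2 : |mC (u * F) (F' * u') (hc σ.μ (X.c ω)) a b e| ≤ E * E * X.L * E :=
      tri h.good (one_pos.trans_le h.l1) e0 e0 (h.d1 a) (h.d1 b) fun y w => h.d2 y w e
    have p3 : E * E * X.L * E ≤ E ^ 15 :=
      (show _ ≤ E * E * E * E by gcongr; exact h.lE).trans
        ((by ring : _ = E ^ 4).trans_le (h.pw (by norm_num)))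
    have p4 := abs_add_le (mC (u * F) (F' * u') (X.c ω) a b e -
      mC (u * F) (F' * u') (hc σ.μ (X.c ω)) a b e) (mC (u * F) (F' * u') (hc σ.μ (X.c ω)) a b e)
    rw [sub_add_cancel] at p4
    nlinarith [h.pw (show 7 ≤ 15 by norm_num), mul_le_mul_of_nonneg_right h.e2 (pow_pos e0 15).le]

/-- The constants in the reference frame. -/
theorem c1 (f g k : κ) : |mC F F' (hc σ.μ (X.c ω)) f g k| ≤ E ^ 10 :=
  (tri h.good (one_pos.trans_le h.l1) (pow_pos h.e0 3) (pow_pos h.e0 3) (h.r1 f) (h.r1 g)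
    (h.r2 k)).trans ((show _ ≤ E ^ 3 * E ^ 3 * E * E ^ 3 by
      have := h.e0; gcongr; exact h.lE).trans_eq (by ring))

theorem c2 (f g k : κ) (q : ∀ x y z, Hw σ.μ x y z → F f x ≠ 0 → F g y ≠ 0 → F' z k ≠ 0 →
    |X.c ω x y z| * X.F ≤ 1) : |mC F F' (hc σ.μ (X.c ω)) f g k| ≤ E ^ 13 * δ := by
  have e0 := h.e0
  have d0 := h.d0
  have f0 := h.f0
  refine (tiny (r := E ^ 3) (s := E ^ 4 * δ) h.k f0 (by positivity) (by positivity)
    (fun x y => by simpa using h.r1 x _ (h.good.one y)) (fun z => (ent (by positivity)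
    (fun φ w => h.en φ w z) (h.r2 k)).trans_eq (by ring))
    fun x y z w a b c => ?_).trans_eq (by ring)
  have n : Hw σ.μ x y z := by_contra fun v => w (if_neg v)
  simpa [hc, n] using q x y z n a b c

theorem g0 (a b e : κ) (ha : ¬σ.pos a) (hb : ¬σ.pos b) (he : σ.pos e) :
    |mC (u * F) (F' * u') (X.c ω) a b e| ≤ E ^ 20 * δ := by
  have e0 := h.e0
  have d0 := h.d0
  have p : |mC (u * F) (F' * u') (hc σ.μ (X.c ω)) a b e| ≤ E ^ 3 * (E ^ 16 * δ) := by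
    rw [← TL.TLTAdpA.mC_comp]
    refine s3 h.k (by positivity) fun x y z => ?_
    have w : E ^ 12 * δ ≤ E ^ 16 * δ := mul_le_mul_of_nonneg_right (h.pw (by norm_num)) d0.le
    by_cases n1 : σ.pos x
    · exact (m4 (h.c1 x y z) (h.pat a x ha n1).1 (h.ob b y).1 (h.ob z e).2).trans
        (le_of_eq_of_le (by ring) w)
    by_cases n2 : σ.pos y
    · exact (m4 (h.c1 x y z) (h.ob a x).1 (h.pat b y hb n2).1 (h.ob z e).2).trans
        (le_of_eq_of_le (by ring) w)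
    by_cases n3 : σ.pos z
    · exact (m4 (h.c2 x y z fun x' y' z' i j k l => h.alg.sub x' y' z' i
        (fun m => n1 ((h.fp _ _ (.inl j)).2.1 m)) (fun m => n2 ((h.fp _ _ (.inl k)).2.1 m))
        ((h.fp _ _ (.inr l)).2.1 n3)) (h.ob a x).1 (h.ob b y).1 (h.ob z e).2).trans_eq (by ring)
    · exact (m4 (h.c1 x y z) (h.ob a x).1 (h.ob b y).1 (h.pat z e n3 he).2).trans
        (le_of_eq_of_le (by ring) w)
  exact h.fin le_rfl (h.rest a b e (h.live e he)) (p.trans_eq (by ring))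

theorem chi (t : σ.pos σ.τ) (a b : κ) : |mC (u * F) (F' * u') (X.c ω) a b σ.τ| ≤ E ^ 20 * δ := by
  have e0 := h.e0
  have d0 := h.d0
  have p : |mC (u * F) (F' * u') (hc σ.μ (X.c ω)) a b σ.τ| ≤ E ^ 3 * (E ^ 16 * δ) := by
    rw [← TL.TLTAdpA.mC_comp]
    refine s3 h.k (by positivity) fun x y z => ?_
    by_cases n : z = σ.τ
    · subst n
      exact (m4 (h.c2 x y _ fun x' y' z' i _ _ l => by
        obtain rfl := (h.fp _ _ (.inr l)).2.2 rfl
        exact h.alg.chi x' y' i) (h.ob a x).1 (h.ob b y).1 (h.ob _ _).2).trans_eq (by ring)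
    · rw [show u' z σ.τ = (1 : Matrix κ κ ℝ) z σ.τ from by_contra fun v =>
        (h.up _ _ (.inr v)).2.not_ge (h.v0 z), one_apply_ne n, mul_zero, abs_zero]
      positivity
  exact h.fin le_rfl (h.rest a b _ (h.live _ t)) (p.trans_eq (by ring))

end Fi

theorem ex_rat {γ : ℝ} (h : γ ≠ 0) (R : ℝ) : ∃ x : ℚ, γ * x ≤ -R := by
  rcases h.lt_or_gt with h | h
  · obtain ⟨x, k⟩ := exists_rat_gt (-R / γ)
    exact ⟨x, by rw [div_lt_iff_of_neg h] at k; linarith⟩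
  · obtain ⟨x, k⟩ := exists_rat_lt (-R / γ)
    exact ⟨x, by rw [lt_div_iff₀ h] at k; linarith⟩

end AlgA

open AlgA in
theorem rAlg : RAlg := by
  intro ι κ α _ _ _ _ _ Ω Λ σ X ϑ La D s₀ vt F F' u u' z r c hc0 T
  have c0 : 0 < c / 20 := by positivity
  have hf : ∀ᶠ n in UF, ∀ ω ∈ (X n).P.S, Fi σ (X n).toBa ω vt (F n) (F' n) (u n ω) (u' n ω)
      ((X n).Ψ 0 ω) (Real.exp (c / 20 * (X n).M)) (Real.exp (-((|T| + c) * (X n).M))) := by
    filter_upwards [z.alg, z.good 0, z.sub _ c0, G39.big_dl z.big (2 * Fintype.card κ + 2) c0,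
      z.off 0 (|T| + c), r.ex, r.blk, r.pat (|T| + c), r.ob _ c0, r.dia 0 _ c0] with
      n k1 k2 k3 k4 k5 k6 k7 k8 k9 k10 ω hω
    refine ⟨k1 ω hω, k2 ω hω, z.ok.m0, fun a => r.tau.trans_le (r.v0 a).1, z.ok.live, k3.1, k3.2,
      k4.trans_eq (G39.dl_inv _ _ _), Real.exp_pos _, ?_, k6.1, k6.2.1, (k6.2.2 ω hω).1,
      (k6.2.2 ω hω).2, (k7 ω hω).2.1, (k7 ω hω).2.2.1, k8 ω hω, k9 ω hω,
      fun a φ w => by simpa using (k10 ω hω).1 a φ w, fun y w e => by simpa using (k10 ω hω).2 y w e⟩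
    rw [Real.exp_neg, le_inv_mul_iff₀ (Real.exp_pos _), mul_comm]
    exact k5 ω hω
  have hg : ∀ p : κ × κ × κ, ∀ᶠ n in UF, ∀ ω ∈ (X n).P.S, vt p.2.2 ≠ vt p.1 + vt p.2.1 →
      |mC (u n ω * F n) (F' n * u' n ω) (hc σ.μ ((X n).c ω)) p.1 p.2.1 p.2.2| ≤
        Real.exp (c / 20 * (X n).M) ^ 4 * Real.exp (-((|T| + c) * (X n).M)) := fun ⟨a, b, e⟩ => by
    by_cases w : vt e = vt a + vt b
    · exact .of_forall fun _ _ _ k => absurd w k
    obtain ⟨x, hx⟩ := ex_rat (γ := vt a + vt b - vt e) (sub_ne_zero.2 (Ne.symm w)) (|T| + c)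
    filter_upwards [z.good x, z.sub _ c0, r.dia x _ c0] with n k1 k2 k3 ω hω _
    refine (tri (k1 ω hω) (one_pos.trans_le k2.1) (Real.exp_pos _) (Real.exp_pos _)
      ((k3 ω hω).1 a) ((k3 ω hω).1 b) fun y v => (k3 ω hω).2 y v e).trans
      ((mul_le_mul_of_nonneg_right (mul_le_mul_of_nonneg_left k2.2 (by positivity))
        (Real.exp_pos _).le).trans ?_)
    simp only [← Real.exp_nat_mul, ← Real.exp_add]
    refine Real.exp_le_exp.2 ?_
    push_cast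
    nlinarith [mul_le_mul_of_nonneg_right hx (Nat.cast_nonneg (α := ℝ) (X n).M)]
  filter_upwards [hf, eventually_all.2 hg] with n k1 k2 ω hω
  have h := k1 ω hω
  have m0 : (0 : ℝ) ≤ (X n).M := Nat.cast_nonneg _
  have t0 := mul_le_mul_of_nonneg_right (le_abs_self T) m0
  have q : Real.exp (c / 20 * (X n).M) ^ 20 * Real.exp (-((|T| + c) * (X n).M)) ≤
      Real.exp (-(T * (X n).M)) := by
    rw [← Real.exp_nat_mul, ← Real.exp_add]
    refine Real.exp_le_exp.2 ?_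
    push_cast
    linarith
  refine ⟨fun a b e => (h.bd (Real.exp_le_one_iff.2 (neg_nonpos.2 (by positivity))) a b e).trans
      ((h.pw (show 16 ≤ 20 by norm_num)).trans_eq ?_), fun a b e he w => le_trans ?_ q,
    fun a b e i j l => (h.g0 a b e i j l).trans q, fun a b => (h.chi z.ok.tau a b).trans q,
    fun v hv b e i j => le_trans ?_ q⟩
  · rw [← Real.exp_nat_mul]
    congr 1
    push_cast
    show _ = c * (X n).M
    ring
  · refine h.fin (j := 4) (by norm_num) (h.rest a b e he) ?_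
    by_cases i : Hw σ.μ a b e
    · refine k2 (a, b, e) ω hω fun j => w ⟨i.1, i.2.1, i.2.2, ?_⟩
      show σ.μ e + vt e = σ.μ a + vt a + (σ.μ b + vt b)
      rw [i.2.2, show vt e = vt a + vt b from j]
      ring
    · rw [h.nh a b e i, abs_zero]
      positivity
  · have h' := k1 v hv
    refine (s1 (t := Real.exp (c / 20 * (X n).M) * Real.exp (-((|T| + c) * (X n).M))) h.k
      (by positivity) fun f => ?_).trans ?_
    · rw [abs_mul]
      by_cases l : σ.pos f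
      · exact (mul_le_mul (h'.pat b f i l).1 (h.ob f e).2 (abs_nonneg _) h.d0.le).trans_eq
          (mul_comm _ _)
      · exact mul_le_mul (h'.ob b f).1 (h.pat f e l j).2 (abs_nonneg _) h.e0.le
    · rw [← mul_assoc, ← pow_two]
      exact mul_le_mul_of_nonneg_right (h.pw (by norm_num)) h.d0.le

end Pool.Agent.MP_5168f5_an.QA.Cp
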