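import Pool.Agent.MP_5168f5_an.QA.CpKit

/-! The Kakeya maximal estimate: the exact relations of the diagonal frames. -/

namespace Pool.Agent.MP_5168f5_an.QA.Cp

open H19 H17S H17F R4 AN Filter Matrix
open GA (Mt IsFr lg mB mC)

/-- Unipotent matrices with a transitive pattern are closed under products. -/
theorem pat_mul {κ : Type} [Fintype κ] [DecidableEq κ] {p : κ → κ → Prop}
    (tr : ∀ a b e, p a b → p b e → p a e) {U V : Matrix κ κ ℝ}
    (h : ∀ a b, U a b ≠ (1 : Matrix κ κ ℝ) a b → p a b)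
    (k : ∀ a b, V a b ≠ (1 : Matrix κ κ ℝ) a b → p a b) (b e : κ)
    (w : (U * V) b e ≠ (1 : Matrix κ κ ℝ) b e) : p b e := by
  by_contra n
  refine w ?_
  conv_rhs => rw [← mul_one (1 : Matrix κ κ ℝ)]
  rw [mul_apply, mul_apply]
  refine Finset.sum_congr rfl fun f _ => ?_
  by_cases a : U b f = (1 : Matrix κ κ ℝ) b f
  · by_cases i : b = f
    · subst i
      rw [a, show V b e = (1 : Matrix κ κ ℝ) b e from by_contra fun x => n (k b e x)]
    · rw [a, one_apply_ne i, zero_mul, zero_mul]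
  · have i : f ≠ e := fun x => n (x ▸ h b f a)
    rw [show V f e = (1 : Matrix κ κ ℝ) f e from by_contra fun x => n (tr _ _ _ (h b f a) (k f e x)),
      one_apply_ne i, mul_zero, mul_zero]

theorem rFr : RFr := by
  intro ι κ α _ _ _ _ _ Ω Λ σ X ϑ La D s₀ vt F F' u u' z r
  filter_upwards [z.incC 0 1 one_pos 0, z.bot, z.alg, r.blk, r.ex] with n k1 k2 k3 k4 k5 ω hω
  refine ⟨(k3 ω hω).unit, fr_mB (k3 ω hω).fr (k4 ω hω).1, fun v hv => ⟨(k2 ω hω v hv).1, ?_, ?_,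
    fun b e w => ?_⟩⟩
  · refine Classical.epsilon_spec (p := fun t => (X n).j v = (X n).j ω *
      GA.ex (mB (u n ω * F n) ((X n).B ω)) t) ⟨(X n).t ω v ᵥ* (F' n * u' n ω), ?_⟩
    rw [ex_mB _ (k4 ω hω).1]
    exact (k1 ω v ⟨hω, hv, (k2 ω hω v hv).1⟩).1
  · funext a
    show GA.vec ((X n).B v) ((u n v * F n) a) =
      GA.vec (mB (u n ω * F n) ((X n).B ω)) ((u n v * u' n ω) a)
    rw [GA.GAFrA.vec_mB, (k2 ω hω v hv).2.1]
    congr 1
    show _ = (u n v * u' n ω * (u n ω * F n)) a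
    rw [mul_assoc, ← mul_assoc (u' n ω), mul_eq_one_comm.1 (k5.2.2 ω hω).1, one_mul]
  · have := pat_mul (p := fun b e => σ.μ b = σ.μ e ∧ vt b < vt e)
      (fun _ _ _ x y => ⟨x.1.trans y.1, x.2.trans y.2⟩)
      (fun a b x => (k5.2.2 v hv).2 a b (.inl x)) (fun a b x => (k5.2.2 ω hω).2 a b (.inr x)) b e w
    exact ⟨this.1, add_lt_add_of_le_of_lt this.1.le this.2⟩

end Pool.Agent.MP_5168f5_an.QA.Cp
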