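import Pool.Agent.MP_5168f5_an.QA.CpChn
import Pool.Agent.MP_5168f5_an.AN.S20Dn

/-! The Kakeya maximal estimate: robustness of the caps in most cells. -/

namespace Pool.Agent.MP_5168f5_an.QA.Cp

open H19 H17S H17F AN AN.GA AN.N6 Matrix Finset H61Z

variable {ι κ α Ω Λ Λ' ζ : Type} [Fintype ι] [DecidableEq ι] [Fintype κ] [DecidableEq κ]
  [Fintype α]

/-- In the cell of `ω` a form of length `R` is admissible with probability at most `q`. -/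
def Sp.Rb (x : Sp ι κ α Ω Λ') (Ψ : Ω → Set (κ → ℝ)) (C : Ω → Ce ι κ ζ) (R q : ℝ) (ω : Ω) : Prop :=
  ∀ φ μ y, Hg x.d.wt μ φ → In (Ψ ω) y → R ≤ |φ ⬝ᵥ y| →
    pb (cv x.P C (C ω)) (fun v => (x.D v).Ok (Ψ v) 1 φ) ≤ q

variable {x : Sp ι κ α Ω Λ'} {Φ : Filt (Mt ι)} {O : Ω → Λ} {Z : Ω → ζ} {s τ La ε Ls R q : ℝ}
  {Ψ Ψ' : Ω → Set (κ → ℝ)} {C C' : Ω → Ce ι κ ζ}

theorem solve {p r l La ε : ℝ} (hΛ : 0 < La) (hε : 0 < ε)
    (h : p * r ≤ La * (p * (1 - Real.log p + l)) + ε) :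
    p ≤ Real.exp (1 + l + (1 - r) / La) + ε := by
  by_contra n
  push Not at n
  have e := Real.exp_pos (1 + l + (1 - r) / La)
  have p0 : 0 < p := by linarith
  have h1 := Real.log_lt_log e (show _ < p by linarith)
  rw [Real.log_exp] at h1
  have h2 : 1 - r < La * (Real.log p - 1 - l) := by
    rw [mul_comm, ← div_lt_iff₀ hΛ]; linarith
  nlinarith

theorem rob_cell (h : x.Hy Φ O Z s) (t : x.St O Z s τ La ε Ls Ψ Ψ' C C') (hΛ : 0 < La)
    (hε : 0 < ε) (hR : 0 < R) : q * pb x.P (fun ω => ¬x.Rb Ψ' C' R q ω) ≤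
      Real.exp (1 + Real.log Ls + (1 - Real.log (R / (2 * Fintype.card κ))) / La) + ε := by
  classical
  let p : Ce ι κ ζ → (κ → ℝ) → Prop := fun c φ => ∃ ω ∈ x.P.S, C' ω = c ∧ ∃ μ y, Hg x.d.wt μ φ ∧
    In (Ψ' ω) y ∧ R ≤ |φ ⬝ᵥ y| ∧ q < pb (cv x.P C' c) fun v => (x.D v).Ok (Ψ' v) 1 φ
  let f : Ce ι κ ζ → κ → ℝ := fun c => Classical.epsilon (p c)
  let E : Ce ι κ ζ → Ω → Prop := fun c v => p c (f c) ∧ (x.D v).Ok (Ψ' v) 1 (f c)
  have fΨ : Fn x.P Ψ' C' := (Fn.snd _ _).trans t.fz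
  have a1 := solve hΛ hε (t.rob (fun v => E (C' v) v) (fun v => f (C' v)) R (fun a ha b hb e => by
    have e1 : x.h a = x.h b := congrArg Prod.snd (h.fb a ha b hb (h.zo a ha b hb e))
    simp only [E, Sp.D, e1, h.fa a ha b hb e, t.fo a ha b hb e, t.nx.1 a ha b hb e])
    (Fn.comp f C') hR fun v hv ⟨⟨ω, k, e, μ, y, u1, u2, u3, _⟩, u⟩ =>
      ⟨⟨μ, u1⟩, u, y, fΨ ω k v hv e ▸ u2, u3⟩)
  refine le_trans ?_ a1
  rw [S20.pb_tot x.P C' E, pb, ← FP.E_mul]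
  refine x.P.E_mono fun ω k => ?_
  by_cases e : x.Rb Ψ' C' R q ω
  · rw [if_neg (not_not.2 e), mul_zero]; exact pb_nonneg _ _
  · rw [if_pos e, mul_one]
    simp only [Sp.Rb, not_forall, not_le] at e
    obtain ⟨φ, μ, y, u1, u2, u3, u4⟩ := e
    have u : p (C' ω) (f (C' ω)) := Classical.epsilon_spec ⟨φ, ω, k, rfl, μ, y, u1, u2, u3, u4⟩
    obtain ⟨_, -, -, -, -, -, -, -, u5⟩ := id u
    exact u5.le.trans (pb_mono fun v _ w => ⟨u, w⟩)

omit [Fintype ι] [DecidableEq ι] [Fintype α] in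
theorem Sp.Rb.mono {ω : Ω} {R' q' : ℝ} (h : x.Rb Ψ C R q ω) (a : R ≤ R') (b : q ≤ q') :
    x.Rb Ψ C R' q' ω := fun φ μ y u v w => (h φ μ y u v (a.trans w)).trans b

omit [Fintype ι] [DecidableEq ι] [Fintype α] in
/-- No admissible form is longer than the floor. -/
theorem rb_far {ω : Ω} (g : (x.D ω).Good (Ψ ω)) (hq : 0 ≤ q) (hR : ∑ b, x.d.fl b < R) :
    x.Rb Ψ C R q ω := fun φ μ y _ v w => by
  refine (pb_zero fun a _ k => absurd (w.trans ((abs_sum_le_sum_abs _ _).trans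
    (sum_le_sum fun b _ => ?_))) hR.not_ge).le.trans hq
  have h1 := k.f b
  have h2 := v _ (g.one b)
  rw [single_dotProduct, one_mul] at h2
  rw [abs_mul]
  exact (mul_le_of_le_one_right (abs_nonneg _) h2).trans (by simpa using h1)

omit [Fintype α] in
/-- The entries of the forms are bounded by the volume. -/
theorem entry_le {d : Da κ α} {S : Set (κ → ℝ)} (g : d.Good S) {φ : κ → ℝ} (k : φ ∈ S) (b : κ) :
    |φ b| ≤ 2 * Fintype.card κ * vl d.wt S := by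
  have f0 : Fu (S0 κ) 1 (∑ e, d.fl e) := ⟨one_pos, fun a => ⟨a, by simp⟩, by
    rintro _ ⟨a, rfl⟩; exact g.fu.bd _ (g.one a)⟩
  obtain ⟨μ, u⟩ := g.hg φ k
  have p := g.fu.vl_pos (wt := d.wt)
  rcases (abs_nonneg (φ b)).eq_or_lt with e | e
  · rw [← e]; positivity
  · have := f0.gain g.fu (by rintro _ ⟨a, rfl⟩; exact g.one a) k u (x := Pi.single b 1)
      (in_S0.2 fun a => by simp only [Pi.single_apply]; split_ifs <;> simp) e (by simp)
    have l := f0.low (wt := d.wt)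
    rw [one_pow] at l
    nlinarith

end Pool.Agent.MP_5168f5_an.QA.Cp
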