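import Pool.Agent.MP_5168f5_an.QA.CpDefs
import Pool.Agent.MP_5168f5_an.AN.GAAll2

/-! The Kakeya maximal estimate: filtered constants with generations, the cut. -/

namespace Pool.Agent.MP_5168f5_an.QA.Fa

open AN AN.GA Matrix Finset
open Cp (Hw hc)

variable {κ : Type}

/-- The allowed triples. Indices of weight zero are dead and carry a generation. -/
def Ok (μ : κ → ℝ) (lv : κ → ℕ) (a b e : κ) : Prop := (0 < μ a → 0 < μ b → μ a + μ b ≤ μ e) ∧
  (μ e = 0 → (μ a = 0 ∧ lv a < lv e) ∨ (μ b = 0 ∧ lv b < lv e))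

/-- The constants are small outside the allowed triples. -/
def Sy (μ : κ → ℝ) (lv : κ → ℕ) (c : κ → κ → κ → ℝ) (ε : ℝ) : Prop :=
  ∀ a b e, ¬Ok μ lv a b e → |c a b e| ≤ ε

/-- A matrix that respects the filtration and the generations. -/
def Fi (μ : κ → ℝ) (lv : κ → ℕ) (A : Matrix κ κ ℝ) : Prop :=
  ∀ a b, A a b ≠ 0 → μ a ≤ μ b ∧ (μ b = 0 → lv a ≤ lv b)

/-- A locally finite monoid of weights. -/
structure Gr (G : AddSubmonoid ℝ) : Prop where
  nn : ∀ y ∈ G, 0 ≤ y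
  fin : ∀ x : ℝ, {y | y ∈ G ∧ y < x}.Finite

/-- The weights on `J` drop to the previous element of `G`. -/
structure Prev (G : AddSubmonoid ℝ) (μ : κ → ℝ) (J : Finset κ) (μ' : κ → ℝ) : Prop where
  nn : ∀ y ∈ G, 0 ≤ y
  mem : ∀ a, μ a ∈ G
  mem' : ∀ a, μ' a ∈ G
  off : ∀ a ∉ J, μ' a = μ a
  lt : ∀ e ∈ J, μ' e < μ e
  max : ∀ e ∈ J, ∀ y ∈ G, y < μ e → y ≤ μ' e

open Classical in
/-- The weights after the cut. -/
noncomputable def cut (G : AddSubmonoid ℝ) (J : Finset κ) (μ : κ → ℝ) : κ → ℝ :=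
  fun a => if a ∈ J then sSup {y | y ∈ G ∧ y < μ a} else μ a

open Classical in
/-- The generations after the cut. -/
noncomputable def nlv [Fintype κ] (J : Finset κ) (lv : κ → ℕ) : κ → ℕ :=
  fun a => if a ∈ J then univ.sup lv + 1 else lv a

/-- The potential. -/
noncomputable def pot [Fintype κ] (G : AddSubmonoid ℝ) (μ : κ → ℝ) : ℕ :=
  ∑ a, {y | y ∈ G ∧ y < μ a}.ncard

open Classical in
/-- Radii: exponents `ν` on the live indices of `μ`, tiny on the dead ones. -/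
noncomputable def rd (μ ν : κ → ℝ) (lv : κ → ℕ) (x τ W : ℝ) : κ → ℝ :=
  fun a => if 0 < μ a then Real.exp (ν a * x) else τ * W ^ lv a

open Classical in
/-- The part of `t` on the indices that die. -/
noncomputable def dy (μ μ' t : κ → ℝ) : κ → ℝ := fun a => if 0 < μ a ∧ μ' a = 0 then t a else 0

variable {G : AddSubmonoid ℝ} {μ μ' ν : κ → ℝ} {lv : κ → ℕ} {J : Finset κ} {c : κ → κ → κ → ℝ}
  {ε ε' L Γ x τ τ' θ W : ℝ} {A A' : Matrix κ κ ℝ} {a b e : κ}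

theorem Ok.symm (h : Ok μ lv a b e) : Ok μ lv b a e :=
  ⟨fun u v => by linarith [h.1 v u], fun u => (h.2 u).symm⟩

theorem Sy.mono (h : Sy μ lv c ε) (k : ε ≤ ε') : Sy μ lv c ε' := fun a b e u => (h a b e u).trans k

theorem gr_closure {α : Type} [Fintype α] {η : α → ℝ} (h : ∀ i, 0 < η i) :
    Gr (AddSubmonoid.closure (Set.range η)) := by
  classical
  refine ⟨fun y k => ?_, fun x => ?_⟩
  · obtain ⟨s, rfl⟩ := AddSubmonoid.mem_closure_range_iff_of_fintype.1 k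
    exact sum_nonneg fun i _ => nsmul_nonneg (h i).le _
  refine ((Fintype.piFinset fun i => range (⌈x / η i⌉₊ + 1)).finite_toSet.image
    fun s : α → ℕ => ∑ i, s i • η i).subset ?_
  rintro y ⟨k, u⟩
  obtain ⟨s, rfl⟩ := AddSubmonoid.mem_closure_range_iff_of_fintype.1 k
  refine ⟨s, mem_coe.2 (Fintype.mem_piFinset.2 fun i => mem_range.2 (Nat.lt_succ_of_le ?_)), rfl⟩
  have := single_le_sum (f := fun i => s i • η i) (fun i _ => nsmul_nonneg (h i).le _) (mem_univ i)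
  rw [nsmul_eq_mul] at this
  exact_mod_cast ((le_div_iff₀ (h i)).2 (this.trans u.le)).trans (Nat.le_ceil _)

theorem Gr.prev (h : Gr G) (k : ∀ a, μ a ∈ G) (hJ : ∀ j ∈ J, 0 < μ j) : Prev G μ J (cut G J μ) := by
  have z : ∀ j ∈ J, cut G J μ j ∈ {y | y ∈ G ∧ y < μ j} := fun j u => by
    rw [cut, if_pos u]
    exact Set.Nonempty.csSup_mem ⟨0, G.zero_mem, hJ j u⟩ (h.fin _)
  refine ⟨h.nn, k, fun a => ?_, fun a u => if_neg u, fun j u => (z j u).2, fun j u y v w => ?_⟩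
  · by_cases u : a ∈ J
    · exact (z a u).1
    · rw [cut, if_neg u]; exact k a
  · rw [cut, if_pos u]
    exact le_csSup (h.fin _).bddAbove ⟨v, w⟩

namespace Prev

theorem le (h : Prev G μ J μ') (a : κ) : μ' a ≤ μ a := by
  by_cases u : a ∈ J
  exacts [(h.lt a u).le, (h.off a u).le]

theorem nn0 (h : Prev G μ J μ') (a : κ) : 0 ≤ μ a := h.nn _ (h.mem a)

theorem nn1 (h : Prev G μ J μ') (a : κ) : 0 ≤ μ' a := h.nn _ (h.mem' a)

theorem ge (h : Prev G μ J μ') {y : ℝ} (u : y ∈ G) (v : y < μ e) : y ≤ μ' e := by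
  by_cases k : e ∈ J
  exacts [h.max e k y u v, (h.off e k).symm ▸ v.le]

theorem dead (h : Prev G μ J μ') (u : μ a = 0) : a ∉ J ∧ μ' a = 0 :=
  ⟨fun k => by linarith [h.lt a k, h.nn1 a], le_antisymm (u ▸ h.le a) (h.nn1 a)⟩

theorem up (h : Prev G μ J μ') (k : Ok μ lv a b e) (u : 0 < μ a) (v : 0 < μ b) : μ b ≤ μ' e :=
  h.ge (h.mem b) (by linarith [k.1 u v])

theorem pot_lt [Fintype κ] (h : Prev G μ J μ') (g : Gr G) (k : J.Nonempty) : pot G μ' < pot G μ := by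
  obtain ⟨j, u⟩ := k
  have s : ∀ a, {y | y ∈ G ∧ y < μ' a} ⊆ {y | y ∈ G ∧ y < μ a} := fun a y v =>
    ⟨v.1, v.2.trans_le (h.le a)⟩
  exact sum_lt_sum (fun a _ => Set.ncard_le_ncard (s a) (g.fin _)) ⟨j, mem_univ j,
    Set.ncard_lt_ncard ⟨s j, fun v => lt_irrefl _ (v ⟨h.mem' j, h.lt j u⟩).2⟩ (g.fin _)⟩

/-- An allowed triple stays allowed unless it is homogeneous and leaves the complement of `J`. -/
theorem ok [Fintype κ] (h : Prev G μ J μ') (k : Ok μ lv a b e) :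
    Ok μ' (nlv J lv) a b e ∨ (a ∉ J ∧ b ∉ J ∧ e ∈ J ∧ Hw μ a b e) := by
  have la := h.le a
  have lb := h.le b
  by_cases s : a ∉ J ∧ b ∉ J ∧ e ∈ J ∧ Hw μ a b e
  · exact Or.inr s
  refine Or.inl ⟨fun u v => ?_, fun u => ?_⟩
  · have w := k.1 (u.trans_le la) (v.trans_le lb)
    by_cases he : e ∈ J
    · refine h.max e he _ (G.add_mem (h.mem' a) (h.mem' b)) (lt_of_not_ge fun z => s ?_)
      exact ⟨fun y => by linarith [h.lt a y], fun y => by linarith [h.lt b y], he,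
        u.trans_le la, v.trans_le lb, by linarith⟩
    · rw [h.off e he]; linarith
  have key : ∀ d, μ d = 0 → (e ∈ J ∨ lv d < lv e) → μ' d = 0 ∧ nlv J lv d < nlv J lv e :=
    fun d v w => ⟨(h.dead v).2, by
      rw [nlv, nlv, if_neg (h.dead v).1]
      split_ifs with y
      exacts [Nat.lt_succ_of_le (le_sup (mem_univ d)), w.resolve_left y]⟩
  by_cases he : e ∈ J
  · rcases (h.nn0 a).eq_or_lt with v | v
    · exact Or.inl (key a v.symm (Or.inl he))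
    rcases (h.nn0 b).eq_or_lt with w | w
    · exact Or.inr (key b w.symm (Or.inl he))
    linarith [h.up k v w]
  · exact (k.2 (h.off e he ▸ u)).imp (fun v => key a v.1 (Or.inr v.2)) fun v =>
      key b v.1 (Or.inr v.2)

/-- A vector that is small below the weight `y` stays so after the cut. -/
theorem low (h : Prev G μ J μ') {y : ℝ} (hy : y ∈ G) {w : κ → ℝ} (u : ∀ b, μ b < y → |w b| ≤ ε)
    (v : ∀ j ∈ J, μ j = y → |w j| ≤ ε) (b : κ) (k : μ' b < y) : |w b| ≤ ε := by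
  rcases lt_trichotomy (μ b) y with s | s | s
  · exact u b s
  · exact v b (by_contra fun z => by linarith [h.off b z]) s
  · linarith [h.ge hy s]

end Prev

theorem Sy.cut [Fintype κ] (h : Sy μ lv c ε) (p : Prev G μ J μ')
    (k : ∀ a ∉ J, ∀ b ∉ J, ∀ j ∈ J, Hw μ a b j → |c a b j| ≤ ε) : Sy μ' (nlv J lv) c ε :=
  fun a b e u => by
    by_cases v : Ok μ lv a b e
    · obtain ⟨s, t, w, z⟩ := (p.ok v).resolve_left u
      exact k a s b t e w z
    · exact h a b e v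

theorem Ok.of_fi (h0 : ∀ a, 0 ≤ μ a) {a' b' e' : κ} (h : Ok μ lv a' b' e')
    (u : μ a ≤ μ a' ∧ (μ a' = 0 → lv a ≤ lv a')) (v : μ b ≤ μ b' ∧ (μ b' = 0 → lv b ≤ lv b'))
    (w : μ e' ≤ μ e ∧ (μ e = 0 → lv e' ≤ lv e)) : Ok μ lv a b e :=
  ⟨fun s t => by linarith [h.1 (s.trans_le u.1) (t.trans_le v.1)], fun s =>
    (h.2 (le_antisymm (s ▸ w.1) (h0 _))).imp
      (fun t => ⟨le_antisymm (t.1 ▸ u.1) (h0 _), ((u.2 t.1).trans_lt t.2).trans_le (w.2 s)⟩)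
      fun t => ⟨le_antisymm (t.1 ▸ v.1) (h0 _), ((v.2 t.1).trans_lt t.2).trans_le (w.2 s)⟩⟩

variable [Fintype κ]

theorem mC_eq (a b e : κ) :
    mC A A' c a b e = ∑ e', ∑ a', ∑ b', c a' b' e' * (A a a' * A b b' * A' e' e) := by
  simp only [mC, vecMul, dotProduct, br, sum_mul, mul_assoc]

theorem mC_bd (hε : 0 ≤ ε) (hA : ∀ a b, |A a b| ≤ Γ) (hA' : ∀ a b, |A' a b| ≤ Γ)
    (h : ∀ a' b' e', A a a' ≠ 0 → A b b' ≠ 0 → A' e' e ≠ 0 → |c a' b' e'| ≤ ε) :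
    |mC A A' c a b e| ≤ (Fintype.card κ * Γ) ^ 3 * ε := by
  have g : 0 ≤ Γ := (abs_nonneg _).trans (hA a a)
  have s : ∀ {f : κ → ℝ} {y : ℝ}, (∀ i, |f i| ≤ y) → |∑ i, f i| ≤ Fintype.card κ * y :=
    fun k => (abs_sum_le_sum_abs _ _).trans ((sum_le_card_nsmul _ _ _ fun i _ => k i).trans
      (by simp))
  rw [mC_eq]
  refine (s (y := Fintype.card κ * (Fintype.card κ * (ε * (Γ * Γ * Γ)))) fun e' =>
    s fun a' => s fun b' => ?_).trans_eq (by ring)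
  by_cases z : A a a' * A b b' * A' e' e = 0
  · rw [z, mul_zero, abs_zero]; positivity
  simp only [mul_eq_zero, not_or] at z
  rw [abs_mul, abs_mul, abs_mul]
  exact mul_le_mul (h _ _ _ z.1.1 z.1.2 z.2) (mul_le_mul (mul_le_mul (hA _ _) (hA _ _)
    (abs_nonneg _) g) (hA' _ _) (abs_nonneg _) (by positivity)) (by positivity) hε

/-- A filtered change of basis. -/
theorem Sy.chg (h : Sy μ lv c ε) (h0 : ∀ a, 0 ≤ μ a) (hε : 0 ≤ ε) (f : Fi μ lv A) (f' : Fi μ lv A')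
    (hA : ∀ a b, |A a b| ≤ Γ) (hA' : ∀ a b, |A' a b| ≤ Γ) :
    Sy μ lv (mC A A' c) ((Fintype.card κ * Γ) ^ 3 * ε) := fun _ _ _ k =>
  mC_bd hε hA hA' fun _ _ _ u v w => h _ _ _ fun z => k (z.of_fi h0 (f _ _ u) (f _ _ v) (f' _ _ w))

theorem mC_hc (f : ∀ a b, A a b ≠ 0 → μ a = μ b) (f' : ∀ a b, A' a b ≠ 0 → μ a = μ b)
    (k : Hw μ a b e) : mC A A' (hc μ c) a b e = mC A A' c a b e := by
  rw [mC_eq, mC_eq]
  refine sum_congr rfl fun e' _ => sum_congr rfl fun a' _ => sum_congr rfl fun b' _ => ?_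
  by_cases z : A a a' * A b b' * A' e' e = 0
  · rw [z, mul_zero, mul_zero]
  simp only [mul_eq_zero, not_or] at z
  rw [hc, if_pos]
  exact ⟨f _ _ z.1.1 ▸ k.1, f _ _ z.1.2 ▸ k.2.1, by
    rw [f' _ _ z.2, ← f _ _ z.1.1, ← f _ _ z.1.2]; exact k.2.2⟩

/-- The matrices of a cut are filtered. -/
theorem fi_gap [DecidableEq κ] (i : A * A' = 1) (f : ∀ a b, A a b ≠ 0 → μ a = μ b)
    (f' : ∀ a b, A' a b ≠ 0 → μ a = μ b) (hJ : ∀ j ∈ J, 0 < μ j)
    (k : ∀ b ∉ J, ∀ a, A' a b = (1 : Matrix κ κ ℝ) a b) : Fi μ lv A ∧ Fi μ lv A' := by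
  have k' : ∀ b ∉ J, ∀ a, A a b = (1 : Matrix κ κ ℝ) a b := fun b u a => by
    rw [← i, mul_apply]
    simp only [k b u]
    rw [← mul_apply, mul_one]
  have s : ∀ {D : Matrix κ κ ℝ}, (∀ a b, D a b ≠ 0 → μ a = μ b) →
      (∀ b ∉ J, ∀ a, D a b = (1 : Matrix κ κ ℝ) a b) → Fi μ lv D := fun u v a b w =>
    ⟨(u a b w).le, fun z => by
      rw [v b (fun y => (hJ b y).ne' z)] at w
      rw [show a = b from by_contra fun y => w (one_apply_ne y)]⟩
  exact ⟨s f k', s f' k⟩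

/-! ### Boxes -/

/-- The numerical side conditions of a box. -/
structure Nu (ν : κ → ℝ) (lv : κ → ℕ) (x τ W θ : ℝ) : Prop where
  nn : ∀ a, 0 ≤ ν a
  x0 : 0 ≤ x
  t0 : 0 < τ
  w1 : 1 ≤ W
  up : ∀ a, Real.exp (ν a * x) ≤ W
  dd : ∀ a, τ * W ^ (lv a + 1) ≤ θ
  t1 : θ ≤ 1

namespace Nu

omit [Fintype κ]

theorem dead (h : Nu ν lv x τ W θ) (u : ¬0 < μ a) : rd μ ν lv x τ W a * W ≤ θ := by
  rw [rd, if_neg u, mul_assoc, ← pow_succ]; exact h.dd a

theorem live (h : Nu ν lv x τ W θ) (u : 0 < μ a) : 1 ≤ rd μ ν lv x τ W a := by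
  rw [rd, if_pos u]; exact Real.one_le_exp (mul_nonneg (h.nn a) h.x0)

theorem tl (h : Nu ν lv x τ W θ) (a : κ) : τ ≤ θ :=
  (le_mul_of_one_le_right h.t0.le (one_le_pow₀ h.w1)).trans (h.dd a)

theorem ge (h : Nu ν lv x τ W θ) (a : κ) : τ ≤ rd μ ν lv x τ W a := by
  by_cases u : 0 < μ a
  · exact ((h.tl a).trans h.t1).trans (h.live u)
  · rw [rd, if_neg u]; exact le_mul_of_one_le_right h.t0.le (one_le_pow₀ h.w1)

theorem pos (h : Nu ν lv x τ W θ) (a : κ) : 0 < rd μ ν lv x τ W a := h.t0.trans_le (h.ge a)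

theorem dth (h : Nu ν lv x τ W θ) (u : ¬0 < μ a) : rd μ ν lv x τ W a ≤ θ :=
  (le_mul_of_one_le_right (h.pos a).le h.w1).trans (h.dead u)

theorem le (h : Nu ν lv x τ W θ) (a : κ) : rd μ ν lv x τ W a ≤ W := by
  by_cases u : 0 < μ a
  · rw [rd, if_pos u]; exact h.up a
  · exact ((h.dth u).trans h.t1).trans h.w1

theorem dm (h : Nu ν lv x τ W θ) (u : ¬0 < μ a) (b : κ) :
    rd μ ν lv x τ W a * rd μ ν lv x τ W b ≤ θ :=
  (mul_le_mul_of_nonneg_left (h.le b) (h.pos a).le).trans (h.dead u)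

theorem gen (h : Nu ν lv x τ W θ) (u : ¬0 < μ a) (v : ¬0 < μ e) (k : lv a < lv e) :
    rd μ ν lv x τ W a * W ≤ rd μ ν lv x τ W e := by
  rw [rd, rd, if_neg u, if_neg v, mul_assoc, ← pow_succ]
  exact mul_le_mul_of_nonneg_left (pow_le_pow_right₀ h.w1 k) h.t0.le

theorem sm (h : Nu ν lv x τ W θ) {y : ℝ} (k : y ≤ ε) (hε : 0 ≤ ε) (a b : κ) :
    y * rd μ ν lv x τ W a * rd μ ν lv x τ W b ≤ ε * W ^ 2 := by
  rw [sq, ← mul_assoc]
  exact mul_le_mul (mul_le_mul k (h.le a) (h.pos a).le hε) (h.le b) (h.pos b).le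
    (mul_nonneg hε (zero_le_one.trans h.w1))

end Nu

omit [Fintype κ] in
theorem Sy.idl (h : Sy μ lv c ε) (h0 : ∀ a, 0 ≤ μ a) (n : Nu ν lv x τ W θ) (hc : ∀ a b e, |c a b e| ≤ L)
    (hε : 0 ≤ ε) (k : ε * W ^ 2 ≤ L * τ)
    (f : ∀ a b e, 0 < μ a → 0 < μ b → 0 < μ e → ν e < ν a + ν b → |c a b e| ≤ ε) :
    Idl c (rd μ ν lv x τ W) (rd μ ν lv x τ W) L := fun a b e => by
  have l : 0 ≤ L := (abs_nonneg _).trans (hc a a a)
  have s : |c a b e| ≤ ε → |c a b e| * rd μ ν lv x τ W a * rd μ ν lv x τ W b ≤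
      L * rd μ ν lv x τ W e := fun u =>
    ((n.sm u hε a b).trans k).trans (mul_le_mul_of_nonneg_left (n.ge e) l)
  have t : rd μ ν lv x τ W a * rd μ ν lv x τ W b ≤ rd μ ν lv x τ W e →
      |c a b e| * rd μ ν lv x τ W a * rd μ ν lv x τ W b ≤ L * rd μ ν lv x τ W e := fun u => by
    rw [mul_assoc]; exact mul_le_mul (hc a b e) u (mul_pos (n.pos a) (n.pos b)).le l
  by_cases o : Ok μ lv a b e
  swap
  · exact s (h a b e o)
  by_cases he : 0 < μ e
  · by_cases ha : 0 < μ a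
    swap
    · exact t (((n.dm ha b).trans n.t1).trans (n.live he))
    by_cases hb : 0 < μ b
    swap
    · exact t (((mul_comm _ _).trans_le ((n.dm hb a).trans n.t1)).trans (n.live he))
    rcases lt_or_ge (ν e) (ν a + ν b) with u | u
    · exact s (f a b e ha hb he u)
    refine t ?_
    rw [rd, rd, rd, if_pos ha, if_pos hb, if_pos he, ← Real.exp_add, ← add_mul]
    exact Real.exp_le_exp.2 (mul_le_mul_of_nonneg_right u n.x0)
  rcases o.2 (le_antisymm (not_lt.1 he) (h0 e)) with u | u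
  · exact t ((mul_le_mul_of_nonneg_left (n.le b) (n.pos a).le).trans (n.gen u.1.not_gt he u.2))
  · exact t ((mul_comm _ _).trans_le
      ((mul_le_mul_of_nonneg_left (n.le a) (n.pos b).le).trans (n.gen u.1.not_gt he u.2)))

omit [Fintype κ] in
/-- The natural box is closed. -/
theorem Sy.box (h : Sy μ lv c ε) (n : Nu μ lv x τ W θ) (hc : ∀ a b e, |c a b e| ≤ L) (hε : 0 ≤ ε)
    (k : ε * W ^ 2 ≤ L * τ) : Idl c (rd μ μ lv x τ W) (rd μ μ lv x τ W) L :=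
  h.idl n.nn n hc hε k fun a b e u v _ w => h a b e fun o => (o.1 u v).not_gt w

/-- The box with the new weights and radius one on the indices that die is closed. -/
theorem Sy.box' (h : Sy μ lv c ε) (p : Prev G μ J μ') (h' : Sy μ' (nlv J lv) c ε)
    (n : Nu μ' lv x τ W θ) (hc : ∀ a b e, |c a b e| ≤ L) (hε : 0 ≤ ε) (k : ε * W ^ 2 ≤ L * τ) :
    Idl c (rd μ μ' lv x τ W) (rd μ μ' lv x τ W) L :=
  h.idl p.nn0 n hc hε k fun a b e u v _ w => by
    rcases (p.nn1 a).eq_or_lt with s | s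
    · exact h a b e fun o => by linarith [p.up o u v, p.le b]
    rcases (p.nn1 b).eq_or_lt with t | t
    · exact h a b e fun o => by linarith [p.up o.symm v u, p.le a]
    exact h' a b e fun o => (o.1 s t).not_gt w

omit [Fintype κ] in
theorem dy_le (t : κ → ℝ) (a : κ) : |dy μ μ' t a| ≤ |t a| := by
  rw [dy]; split_ifs <;> simp

omit [Fintype κ] in
theorem dy_dead (t : κ → ℝ) (u : ¬0 < μ a) : dy μ μ' t a = 0 := if_neg fun v => u v.1

omit [Fintype κ] in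
theorem dy_bd {t : κ → ℝ} (h : Bx (rd μ μ' lv x τ W) L t) (l : 0 ≤ L) (a : κ) :
    |dy μ μ' t a| ≤ L := by
  rw [dy]
  split_ifs with u
  · simpa [rd, u.1, u.2] using h a
  · simpa using l

/-- A bounded live element acts on every monotone box. -/
theorem ad_gen (N k : ℕ) : ∃ K : ℕ, 1 ≤ K ∧ ∀ (κ : Type) [Fintype κ] (μ : κ → ℝ) (lv : κ → ℕ)
    (c : κ → κ → κ → ℝ) (r z w : κ → ℝ) (ε L m U η : ℝ), Fintype.card κ ≤ k → 1 ≤ L → 0 ≤ η →
    0 ≤ ε → 0 < m → (∀ a, 0 ≤ μ a) → (∀ a b e, c a b e = -c b a e) → (∀ a b e, |c a b e| ≤ L) →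
    Sy μ lv c ε → (∀ a, m ≤ r a ∧ r a ≤ U) → ε * U ≤ L * m →
    (∀ a b e, 0 < μ a → Ok μ lv a b e → r b ≤ r e) → (∀ a, |z a| ≤ L) → (∀ a, ¬0 < μ a → z a = 0) →
    Bx r η w → Bx r ((K * L) ^ K * η) (Ad N c z w) := by
  classical
  obtain ⟨K, hK, H⟩ := sBox2 N k
  refine ⟨K, hK, fun κ _ μ lv c r z w ε L m U η hk l hη hε hm h0 an hc h b s mo hz hd hw => ?_⟩
  rcases isEmpty_or_nonempty κ with i | ⟨⟨i⟩⟩
  · exact fun a => isEmptyElim a
  have mU : m ≤ U := (b i).1.trans (b i).2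
  have U0 : 0 < U := hm.trans_le mU
  have q0 : 0 < m / U := div_pos hm U0
  have q1 : m / U ≤ 1 := (div_le_one U0).2 mU
  have l0 : 0 ≤ L := zero_le_one.trans l
  have r0 : ∀ a, 0 ≤ r a := fun a => hm.le.trans (b a).1
  have n : Nu (fun _ : κ => (0 : ℝ)) lv 0 (m / U) 1 1 :=
    ⟨fun _ => le_rfl, le_rfl, q0, le_rfl, by simp, by simpa using fun _ => q1, le_rfl⟩
  have e1 : ε * 1 ^ 2 ≤ L * (m / U) := by
    rw [one_pow, mul_one, ← mul_div_assoc, le_div_iff₀ U0]; exact s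
  have bz : Bx (rd μ (fun _ => 0) lv 0 (m / U) 1) L z := fun a => by
    by_cases u : 0 < μ a
    · exact (hz a).trans (le_mul_of_one_le_right l0 (n.live u))
    · rw [hd a u, abs_zero]; exact mul_nonneg l0 (n.pos a).le
  refine (H κ c _ r L η z z w w hk l hη (fun a => ⟨(n.pos a).le, r0 a⟩) an
    (h.idl h0 n hc hε e1 fun a b e _ _ _ u => by simp at u) (fun a d e => ?_) bz bz hw hw).2.1
  by_cases u : 0 < μ a
  · have : rd μ (fun _ => 0) lv 0 (m / U) 1 a = 1 := by simp [rd, u]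
    rw [this, mul_one]
    by_cases o : Ok μ lv a d e
    · exact mul_le_mul (hc a d e) (mo a d e u o) (r0 d) l0
    · exact ((mul_le_mul (h a d e o) (b d).2 (r0 d) hε).trans s).trans
        (mul_le_mul_of_nonneg_left (b e).1 l0)
  · have : rd μ (fun _ => 0) lv 0 (m / U) 1 a = m / U := by simp [rd, u]
    rw [this, mul_assoc]
    refine mul_le_mul (hc a d e) (le_trans ?_ (b e).1) (mul_nonneg q0.le (r0 d)) l0
    rw [div_mul_eq_mul_div, div_le_iff₀ U0]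
    exact mul_le_mul_of_nonneg_left (b d).2 hm.le

/-- The new natural box is monotone for the old live elements. -/
theorem Prev.mono (p : Prev G μ J μ') (n : Nu μ' (nlv J lv) x τ W θ) (u : 0 < μ a)
    (o : Ok μ lv a b e) : rd μ' μ' (nlv J lv) x τ W b ≤ rd μ' μ' (nlv J lv) x τ W e := by
  by_cases hb : 0 < μ' b
  · have s := (p.le b).trans (p.up o u (hb.trans_le (p.le b)))
    rw [rd, rd, if_pos hb, if_pos (hb.trans_le s)]
    exact Real.exp_le_exp.2 (mul_le_mul_of_nonneg_right s n.x0)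
  by_cases he : 0 < μ' e
  · exact ((n.dth hb).trans n.t1).trans (n.live he)
  refine (le_mul_of_one_le_right (n.pos b).le n.w1).trans (n.gen hb he ?_)
  have z : μ b = 0 := by_contra fun y =>
    he (u.trans_le (p.up o.symm (lt_of_le_of_ne (p.nn0 b) (Ne.symm y)) u))
  rw [nlv, nlv, if_neg (p.dead z).1]
  split_ifs with y
  · exact Nat.lt_succ_of_le (le_sup (mem_univ b))
  · exact ((o.2 (p.off e y ▸ le_antisymm (not_lt.1 he) (p.nn1 e))).resolve_left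
      fun v => u.ne' v.1).2

/-- The dying part keeps the smallness below a weight. -/
theorem ad_fil (N k : ℕ) : ∃ K : ℕ, 1 ≤ K ∧ ∀ (κ : Type) [Fintype κ] (G : AddSubmonoid ℝ)
    (J : Finset κ) (μ μ' : κ → ℝ) (lv : κ → ℕ) (c : κ → κ → κ → ℝ) (z w : κ → ℝ) (ε L y δ : ℝ),
    Fintype.card κ ≤ k → 1 ≤ L → 0 ≤ ε → ε ≤ δ → 0 < δ → δ ≤ 1 → 0 < y → Prev G μ J μ' →
    (∀ a b e, c a b e = -c b a e) → (∀ a b e, |c a b e| ≤ L) → Sy μ lv c ε → (∀ a, |z a| ≤ L) →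
    (∀ a, ¬0 < μ a → z a = 0) → (∀ b, |w b| ≤ L) → (∀ b, μ' b < y → |w b| ≤ L * δ) → ∀ b,
    |Ad N c z w b| ≤ (K * L) ^ K * L ∧ (μ' b < y → |Ad N c z w b| ≤ (K * L) ^ K * L * δ) := by
  classical
  obtain ⟨K, hK, H⟩ := ad_gen N k
  refine ⟨K, hK, fun κ _ G J μ μ' lv c z w ε L y δ hk l hε e d0 d1 hy p an hc h hz hd w1 w2 b => ?_⟩
  have l0 : 0 ≤ L := zero_le_one.trans l
  have := H κ μ lv c (fun b => if μ' b < y then δ else 1) z w ε L δ 1 L hk l l0 hε d0 p.nn0 an hc h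
    (fun a => by split_ifs; exacts [⟨le_rfl, d1⟩, ⟨d1, le_rfl⟩])
    (by nlinarith) (fun a b e u o => by
      by_cases s : μ' b < y
      · simp only [if_pos s]; split_ifs; exacts [le_rfl, d1]
      · have := p.up o u ((hy.trans_le (not_lt.1 s)).trans_le (p.le b))
        simp only [if_neg s, if_neg (show ¬μ' e < y by linarith [p.le b])]
        exact le_rfl) hz hd
    (fun a => by dsimp only; split_ifs with s; exacts [w2 a s, by simpa using w1 a]) b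
  refine ⟨this.trans (mul_le_of_le_one_right (by positivity) ?_), fun s => by simpa [s] using this⟩
  dsimp only; split_ifs; exacts [d1, le_rfl]

/-- The split of a group element: all coordinates that are dead after the cut become small. -/
theorem split (N k : ℕ) : ∃ K : ℕ, 1 ≤ K ∧ ∀ (κ : Type) [Fintype κ] (G : AddSubmonoid ℝ)
    (J : Finset κ) (μ μ' : κ → ℝ) (lv : κ → ℕ) (c : κ → κ → κ → ℝ) (t : κ → ℝ) (ε L x τ W θ : ℝ),
    Fintype.card κ ≤ k → 1 ≤ L → 0 ≤ ε → Prev G μ J μ' → (∀ a b e, c a b e = -c b a e) →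
    (∀ a b e, |c a b e| ≤ L) → Sy μ lv c ε → Sy μ' (nlv J lv) c ε → Nu μ' lv x τ W θ →
    ε * W ^ 2 ≤ L * τ → Bx (rd μ μ' lv x τ W) L t → ∀ a,
    (0 < μ' a → |bch N c t (-dy μ μ' t) a| ≤ (K * L) ^ K * L * Real.exp (μ' a * x)) ∧
    (¬0 < μ' a → |bch N c t (-dy μ μ' t) a| ≤ (K * L) ^ K * L * θ) := by
  classical
  obtain ⟨K₁, h₁, H₁⟩ := sBox N k
  obtain ⟨K₂, h₂, H₂⟩ := sAbel N k
  refine ⟨K₁ + K₂, by omega, fun κ _ G J μ μ' lv c t ε L x τ W θ hk l hε p an hc h h' n s ht a => ?_⟩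
  have l0 : 0 ≤ L := zero_le_one.trans l
  have mo : ∀ K' : ℕ, 1 ≤ K' → K' ≤ K₁ + K₂ →
      ((K' : ℝ) * L) ^ K' ≤ (((K₁ + K₂ : ℕ) : ℝ) * L) ^ (K₁ + K₂) := fun K' u v =>
    (pow_le_pow_left₀ (by positivity) (mul_le_mul_of_nonneg_right (Nat.cast_le.2 v) l0) _).trans
      (pow_le_pow_right₀ (one_le_mul_of_one_le_of_one_le (by exact_mod_cast u.trans v) l) v)
  have i := h.box' p h' n hc hε s
  have hz : Bx (rd μ μ' lv x τ W) L (-dy μ μ' t) := fun a => by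
    rw [Pi.neg_apply, abs_neg]; exact (dy_le t a).trans (ht a)
  have b := ((H₁ κ c _ _ L 0 t _ t _ hk l le_rfl (fun a => ⟨(n.pos a).le, (n.pos a).le⟩) an i i ht hz
    ht hz).1 a).trans (mul_le_mul_of_nonneg_right ((mo K₁ h₁ (by omega)).trans
      (le_mul_of_one_le_right (by positivity) l)) (n.pos a).le)
  refine ⟨fun u => b.trans_eq (congrArg _ (if_pos (u.trans_le (p.le a)))), fun u => ?_⟩
  by_cases v : 0 < μ a
  swap
  · exact b.trans (mul_le_mul_of_nonneg_left (n.dth v) (by positivity))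
  have u0 : μ' a = 0 := le_antisymm (not_lt.1 u) (p.nn1 a)
  have θ0 : 0 ≤ θ := n.t0.le.trans (n.tl a)
  have := (H₂ κ c _ (Pi.single a 1) L (L * θ) t _ t _ hk l (by positivity) (fun a => (n.pos a).le) i
    (fun d e => ?_) ht hz ht hz).1
  · rw [single_one_dotProduct, Pi.sub_apply, Pi.sub_apply, Pi.neg_apply, dy, if_pos ⟨v, u0⟩,
      sub_neg_eq_add, sub_add_cancel] at this
    rw [mul_assoc]
    exact this.trans (mul_le_mul_of_nonneg_right (mo K₂ h₂ (by omega)) (by positivity))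
  rw [single_one_dotProduct]
  by_cases hd : 0 < μ d
  swap
  · rw [mul_assoc]; exact mul_le_mul (hc _ _ _) (n.dm hd e) (mul_pos (n.pos d) (n.pos e)).le l0
  by_cases he : 0 < μ e
  swap
  · rw [mul_assoc]
    exact mul_le_mul (hc _ _ _) ((mul_comm _ _).trans_le (n.dm he d))
      (mul_pos (n.pos d) (n.pos e)).le l0
  exact ((n.sm (h d e a fun o => by linarith [p.up o hd he]) hε d e).trans s).trans
    (mul_le_mul_of_nonneg_left (n.tl a) l0)

/-- The new gauge: `ex t * ex s * ex (-z)` lies in the new natural box. -/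
theorem regauge (N k : ℕ) : ∃ K : ℕ, 1 ≤ K ∧ ∀ (ι κ : Type) [Fintype ι] [DecidableEq ι] [Fintype κ]
    (Φ : H61Z.Filt (Mt ι)) (B : κ → Mt ι) (G : AddSubmonoid ℝ) (J : Finset κ) (μ μ' : κ → ℝ)
    (lv : κ → ℕ) (c : κ → κ → κ → ℝ) (t s : κ → ℝ) (ε L x τ τ' W θ θ' : ℝ), Φ.N = N →
    Fintype.card κ ≤ k → IsFr Φ B c → 1 ≤ L → 0 ≤ ε → Prev G μ J μ' → (∀ a b e, |c a b e| ≤ L) →
    Sy μ lv c ε → Sy μ' (nlv J lv) c ε → Nu μ' lv x τ W θ → Nu μ' (nlv J lv) x τ' W θ' → θ ≤ τ' →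
    ε * W ^ 2 ≤ L * τ → Bx (rd μ μ' lv x τ W) L t → Bx (rd μ' μ' (nlv J lv) x τ' W) L s →
    ∃ u, Bx (rd μ' μ' (nlv J lv) x τ' W) ((K * L) ^ K) u ∧
      ex B t * ex B s * ex B (-dy μ μ' t) = ex B u := by
  classical
  obtain ⟨K₁, h₁, H₁⟩ := split N k
  obtain ⟨K₂, h₂, H₂⟩ := ad_gen N k
  obtain ⟨K₃, h₃, H₃⟩ := sBox N k
  refine ⟨(K₃ + 1) * (K₁ + K₂ + 2), by nlinarith, fun ι κ _ _ _ Φ B G J μ μ' lv c t s ε L x τ τ' W θ θ'
    hN hk fr l hε p hc h h' n n' hθ e ht hs => ?_⟩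
  have mu := sMul ι κ Φ B c fr
  have l0 : 0 ≤ L := zero_le_one.trans l
  set Q : ℕ := K₁ + K₂ + 1 with hQ
  set L' : ℝ := (((Q : ℕ) : ℝ) * L) ^ Q with hL'
  have q1 : (1 : ℝ) ≤ Q := by exact_mod_cast (by omega : 1 ≤ Q)
  have b1 : 1 ≤ (Q : ℝ) * L := one_le_mul_of_one_le_of_one_le q1 l
  have mo : ∀ K' : ℕ, K' < Q → ((K' : ℝ) * L) ^ K' * L ≤ L' := fun K' v =>
    (mul_le_mul (pow_le_pow_left₀ (by positivity) (mul_le_mul_of_nonneg_right
      (Nat.cast_le.2 v.le) l0) _) (le_mul_of_one_le_left l0 q1) l0 (by positivity)).trans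
      (by rw [← pow_succ]; exact pow_le_pow_right₀ b1 v)
  have lL : L ≤ L' := by simpa using mo 0 (by omega)
  have e' : ∀ a : κ, ε * W ^ 2 ≤ L * τ' := fun a =>
    e.trans (mul_le_mul_of_nonneg_left ((n.tl a).trans hθ) l0)
  have a1 : Bx (rd μ' μ' (nlv J lv) x τ' W) L' (bch N c t (-dy μ μ' t)) := fun a => by
    have := H₁ κ G J μ μ' lv c t ε L x τ W θ hk l hε p mu.anti hc h h' n e ht a
    by_cases u : 0 < μ' a
    · refine (this.1 u).trans ?_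
      rw [rd, if_pos u]
      exact mul_le_mul_of_nonneg_right (mo K₁ (by omega)) (Real.exp_pos _).le
    · exact (this.2 u).trans (mul_le_mul (mo K₁ (by omega)) (hθ.trans (n'.ge a))
        (n.t0.le.trans (n.tl a)) (l0.trans lL))
  have a2 : Bx (rd μ' μ' (nlv J lv) x τ' W) L' (Ad N c (dy μ μ' t) s) := fun a => by
    refine (H₂ κ μ lv c _ _ s ε L τ' W L hk l l0 hε n'.t0 p.nn0 mu.anti hc h
      (fun a => ⟨n'.ge a, n'.le a⟩) (le_trans ?_ (e' a)) (fun a b e u o => p.mono n' u o)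
      (dy_bd ht l0) (fun a => dy_dead t) hs a).trans
      (mul_le_mul_of_nonneg_right (mo K₂ (by omega)) (n'.pos a).le)
    exact mul_le_mul_of_nonneg_left (le_self_pow₀ n.w1 two_ne_zero) hε
  refine ⟨bch N c (bch N c t (-dy μ μ' t)) (Ad N c (dy μ μ' t) s), fun a => ?_, ?_⟩
  · have i : Idl c (rd μ' μ' (nlv J lv) x τ' W) (rd μ' μ' (nlv J lv) x τ' W) L' :=
      h'.box n' (fun a b e => (hc a b e).trans lL) hε
        ((e' a).trans (mul_le_mul_of_nonneg_right lL n'.t0.le))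
    refine ((H₃ κ c _ _ L' 0 _ _ _ _ hk (l.trans lL) le_rfl (fun a => ⟨(n'.pos a).le, (n'.pos a).le⟩)
      mu.anti i i a1 a2 a1 a2).1 a).trans (mul_le_mul_of_nonneg_right ?_ (n'.pos a).le)
    set R : ℕ := (K₃ + 1) * (K₁ + K₂ + 2) with hR
    have r1 : Q ≤ R := by nlinarith
    have r2 : K₃ ≤ R := by nlinarith
    have r3 : (Q : ℝ) * L ≤ R * L := mul_le_mul_of_nonneg_right (Nat.cast_le.2 r1) l0
    have r4 : (K₃ : ℝ) * L' ≤ (R * L) ^ (Q + 1) := by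
      rw [pow_succ']
      exact mul_le_mul ((Nat.cast_le.2 r2).trans (le_mul_of_one_le_right (by positivity) l))
        (pow_le_pow_left₀ (by positivity) r3 _) (by positivity) (by positivity)
    refine (pow_le_pow_left₀ (by positivity) r4 _).trans ?_
    rw [← pow_mul]
    exact pow_le_pow_right₀ (b1.trans r3) (by nlinarith)
  · subst hN
    rw [← mu.mul, ← mu.mul, (sAd ι κ Φ B c fr).2.2.2.1, ← mul_assoc, ← mul_assoc,
      mul_assoc (ex B t) (ex B (-_)), (mu.neg _).1, mul_one]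

end Pool.Agent.MP_5168f5_an.QA.Fa
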