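import Pool.Agent.MP_5168f5_an.QA.CpSpec
import Pool.Agent.MP_5168f5_an.QA.CpRob
import Pool.Agent.MP_5168f5_an.QA.FlAlg

/-! The Kakeya maximal estimate: robustness of the characters in the window. -/

namespace Pool.Agent.MP_5168f5_an.QA.Cp

open H19 H17S H17F R4 AN Filter Matrix Finset
open GA (Mt br mB mC)
open LC (Au)

namespace RR

variable {κ α : Type} [Fintype κ]

theorem sm {f : κ → ℝ} {y : ℝ} (k : ∀ i, |f i| ≤ y) : |∑ i, f i| ≤ Fintype.card κ * y :=
  (abs_sum_le_sum_abs _ _).trans ((sum_le_card_nsmul _ _ _ fun i _ => k i).trans (by simp))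

theorem ws {g l : κ → ℝ} {y : ℝ} (h : ∑ e, |l e| = 1) (k : ∀ e, l e ≠ 0 → |g e| ≤ y) :
    |∑ e, g e * l e| ≤ y := by
  refine (abs_sum_le_sum_abs _ _).trans ((sum_le_sum (g := fun e => y * |l e|) fun e _ => ?_).trans
    (by rw [← mul_sum, h, mul_one]))
  by_cases z : l e = 0
  · simp [z]
  · rw [abs_mul]; exact mul_le_mul_of_nonneg_right (k e z) (abs_nonneg _)

theorem hmul {μ : κ → ℝ} {A B : Matrix κ κ ℝ} (f : ∀ a b, A a b ≠ 0 → μ a = μ b)
    (g : ∀ a b, B a b ≠ 0 → μ a = μ b) (a b : κ) (k : (A * B) a b ≠ 0) : μ a = μ b := by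
  obtain ⟨e, -, u⟩ := exists_ne_zero_of_sum_ne_zero (s := univ) (f := fun e => A a e * B e b) k
  exact (f _ _ (left_ne_zero_of_mul u)).trans (g _ _ (right_ne_zero_of_mul u))

theorem br_chg (h : κ → κ → κ → ℝ) (N N' : Matrix κ κ ℝ) (x y : κ → ℝ) (e : κ) :
    (br h (x ᵥ* N) (y ᵥ* N) ᵥ* N') e = ∑ b, ∑ b', x b * y b' * mC N N' h b b' e := by
  have a : ∀ s t, br h (s ᵥ* N) t = ∑ p, s p • br h (N p) t := fun s t => by
    funext f
    simp only [br, vecMul, dotProduct, sum_mul, mul_sum, Finset.sum_apply, Pi.smul_apply,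
      smul_eq_mul]
    exact ((sum_congr rfl fun _ _ => sum_comm).trans sum_comm).trans (sum_congr rfl fun _ _ =>
      sum_congr rfl fun _ _ => sum_congr rfl fun _ _ => by ring)
  have b : ∀ s t, br h s (t ᵥ* N) = ∑ p, t p • br h s (N p) := fun s t => by
    funext f
    simp only [br, vecMul, dotProduct, mul_sum, Finset.sum_apply, Pi.smul_apply, smul_eq_mul]
    exact ((sum_congr rfl fun _ _ => sum_comm).trans sum_comm).trans (sum_congr rfl fun _ _ =>
      sum_congr rfl fun _ _ => sum_congr rfl fun _ _ => by ring)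
  simp only [a, b, sum_vecMul, smul_vecMul, smul_sum, Finset.sum_apply, Pi.smul_apply,
    smul_eq_mul, mC, mul_assoc]

theorem mC_hc0 {μ : κ → ℝ} {c : κ → κ → κ → ℝ} {A A' : Matrix κ κ ℝ} {a b e : κ}
    (f : ∀ a b, A a b ≠ 0 → μ a = μ b) (f' : ∀ a b, A' a b ≠ 0 → μ a = μ b) (k : ¬Hw μ a b e) :
    mC A A' (hc μ c) a b e = 0 := by
  rw [Fa.mC_eq]
  refine sum_eq_zero fun e' _ => sum_eq_zero fun a' _ => sum_eq_zero fun b' _ => ?_
  by_cases z : A a a' * A b b' * A' e' e = 0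
  · rw [z, mul_zero]
  simp only [mul_eq_zero, not_or] at z
  rw [hc, if_neg, zero_mul]
  exact fun u => k ⟨f _ _ z.1.1 ▸ u.1, f _ _ z.1.2 ▸ u.2.1, by
    rw [← f' _ _ z.2, f _ _ z.1.1, f _ _ z.1.2]; exact u.2.2⟩

/-- The form with the normalised coordinates `l`. -/
noncomputable def ph (N' : Matrix κ κ ℝ) (vt : κ → ℝ) (t : ℝ) (l : κ → ℝ) : κ → ℝ :=
  N' *ᵥ fun e => Real.exp (vt e * t) * l e

theorem ph_dot (N' : Matrix κ κ ℝ) (vt : κ → ℝ) (t : ℝ) (l y : κ → ℝ) :
    ph N' vt t l ⬝ᵥ y = ∑ e, (y ᵥ* N') e * Real.exp (vt e * t) * l e := by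
  rw [dotProduct_comm, ph, dotProduct_mulVec]
  exact sum_congr rfl fun _ _ => (mul_assoc _ _ _).symm

variable {μ vt l : κ → ℝ} {F L t q ε δ W s : ℝ} {c : κ → κ → κ → ℝ} {A : α → κ → ℝ}
  {S : Set (κ → ℝ)} {N N' Z R : Matrix κ κ ℝ}

theorem ph_hg (f' : ∀ a b, N' a b ≠ 0 → μ a = μ b) (hl : ∀ e, l e ≠ 0 → 0 < μ e ∧ μ e = s) :
    Hg μ s (ph N' vt t l) := fun b k => by
  obtain ⟨e, -, u⟩ := exists_ne_zero_of_sum_ne_zero (s := univ)
    (f := fun e => N' b e * (Real.exp (vt e * t) * l e)) k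
  exact (f' _ _ (left_ne_zero_of_mul u)).trans
    (hl e (right_ne_zero_of_mul (right_ne_zero_of_mul u))).2

variable [DecidableEq κ]

/-- The form is admissible. -/
theorem okv (g : (⟨μ, flr μ F, L, hc μ c, A⟩ : Da κ α).Good S) (L1 : 1 ≤ L) (i : N' * N = 1)
    (f : ∀ a b, N a b ≠ 0 → μ a = μ b) (f' : ∀ a b, N' a b ≠ 0 → μ a = μ b) (eq : N' = Z * R)
    (fR : ∀ a b, R a b ≠ 0 → μ a = μ b) (bR : ∀ a b, |R a b| ≤ q ^ 3)
    (hq : 2 * Fintype.card κ + 1 ≤ q) (e0 : 0 < ε) (d0 : 0 ≤ δ) (hδ : 2 * q ^ 2 * W * δ ≤ ε)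
    (hW : ∀ b, 1 ≤ Real.exp (vt b * t) ∧ Real.exp (vt b * t) ≤ W) (off : vl μ S ≤ ε * F)
    (dia : ∀ y, In S y → ∀ e, |(y ᵥ* N') e| * Real.exp (vt e * t) ≤ q)
    (hz : ∀ j b, |(A j ᵥ* Z) b| ≤ L * q ∧ (vt b ≠ 0 → |(A j ᵥ* Z) b| ≤ L * δ))
    (gr : ∀ a b e, 0 < μ e → ¬(0 < μ a ∧ 0 < μ b ∧ μ e = μ a + μ b ∧
      μ e + vt e = μ a + vt a + (μ b + vt b)) → |mC N N' c a b e| ≤ δ)
    (l1 : ∑ e, |l e| = 1) (hl : ∀ e, l e ≠ 0 → 0 < μ e ∧ μ e = s)
    (ch : ∀ b b', 0 < μ b → 0 < μ b' → |∑ e, mC N N' c b b' e * l e| ≤ ε)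
    (th : ∀ b, 0 < μ b → vt b = 0 → |∑ e, R b e * Real.exp (vt e * t) * l e| ≤ ε) :
    (⟨μ, flr μ F, L, hc μ c, A⟩ : Da κ α).Ok S (q ^ 4 * ε) (ph N' vt t l) := by
  have k0 : (0 : ℝ) ≤ Fintype.card κ := Nat.cast_nonneg _
  have q1 : 1 ≤ q := by linarith
  have q0 : 0 < q := by linarith
  have un : ∀ y, In S y → |ph N' vt t l ⬝ᵥ y| ≤ q := fun y hy => by
    rw [ph_dot]
    exact ws l1 fun e _ => by rw [abs_mul, abs_of_pos (Real.exp_pos _)]; exact dia y hy e
  refine ⟨fun b => ?_, fun j => ?_, fun x y hx hy => ?_⟩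
  · by_cases z : ph N' vt t l b = 0
    · rw [z, abs_zero]; exact mul_nonneg (by positivity) (zero_le_one.trans (g.fl1 b))
    obtain ⟨e, -, u⟩ := exists_ne_zero_of_sum_ne_zero (s := univ)
      (f := fun e => N' b e * (Real.exp (vt e * t) * l e)) z
    have p : 0 < μ b := f' _ _ (left_ne_zero_of_mul u) ▸
      (hl e (right_ne_zero_of_mul (right_ne_zero_of_mul u))).1
    have v := g.fu.vl_pos (wt := μ)
    have w := un ((q * vl μ S)⁻¹ • Pi.single b 1) fun φ hφ => by
      rw [dotProduct_smul, dotProduct_single, mul_one, smul_eq_mul, abs_mul,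
        abs_of_pos (by positivity), ← div_eq_inv_mul, div_le_one (by positivity)]
      exact (entry_le g hφ b).trans (mul_le_mul_of_nonneg_right (by linarith) v.le)
    rw [dotProduct_smul, dotProduct_single, mul_one, smul_eq_mul, abs_mul,
      abs_of_pos (by positivity), ← div_eq_inv_mul, div_le_iff₀ (by positivity)] at w
    show _ ≤ _ * flr μ F b
    rw [flr, if_pos p, mul_assoc]
    refine w.trans ((mul_assoc _ _ _).symm.trans_le (mul_le_mul ?_ off v.le (by positivity)))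
    rw [← pow_two]; exact pow_le_pow_right₀ q1 (by norm_num)
  · have a : ph N' vt t l ⬝ᵥ A j =
        ∑ b, (A j ᵥ* Z) b * ∑ e, R b e * Real.exp (vt e * t) * l e := by
      rw [ph_dot, eq, ← vecMul_vecMul]
      simp only [mul_sum]
      rw [sum_comm]
      refine sum_congr rfl fun e _ => ?_
      rw [show ∀ x : κ → ℝ, (x ᵥ* R) e = ∑ b, x b * R b e from fun _ => rfl, sum_mul, sum_mul]
      exact sum_congr rfl fun _ _ => by ring
    show |ph N' vt t l ⬝ᵥ A j| ≤ _ * L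
    rw [a]
    refine (sm (y := L * q * ε) fun b => ?_).trans ?_
    · rw [abs_mul]
      by_cases p : 0 < μ b
      · by_cases z : vt b = 0
        · exact mul_le_mul (hz j b).1 (th b p z) (abs_nonneg _) (by positivity)
        · refine (mul_le_mul ((hz j b).2 z) (ws (y := q ^ 3 * W) l1 fun e _ => ?_) (abs_nonneg _)
            (by positivity)).trans ?_
          · rw [abs_mul, abs_of_pos (Real.exp_pos _)]
            exact mul_le_mul (bR b e) (hW e).2 (Real.exp_pos _).le (by positivity)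
          · have w0 : 0 ≤ W := zero_le_one.trans ((hW b).1.trans (hW b).2)
            have : q ^ 2 * W * δ ≤ ε := by nlinarith [mul_nonneg (mul_nonneg (sq_nonneg q) w0) d0]
            calc L * δ * (q ^ 3 * W) = L * q * (q ^ 2 * W * δ) := by ring
              _ ≤ _ := mul_le_mul_of_nonneg_left this (by positivity)
      · rw [sum_eq_zero fun e _ => by
          by_contra u
          exact p (fR _ _ (left_ne_zero_of_mul (left_ne_zero_of_mul u)) ▸
            (hl e (right_ne_zero_of_mul u)).1), abs_zero, mul_zero]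
        positivity
    · have : Fintype.card κ * q ≤ q ^ 4 := (mul_le_mul_of_nonneg_right (by linarith) q0.le).trans
        ((pow_two q).symm.trans_le (pow_le_pow_right₀ q1 (by norm_num)))
      calc Fintype.card κ * (L * q * ε) = Fintype.card κ * q * (ε * L) := by ring
        _ ≤ q ^ 4 * (ε * L) := mul_le_mul_of_nonneg_right this (by positivity)
        _ = _ := by ring
  · have a : ph N' vt t l ⬝ᵥ br (hc μ c) x y = ∑ b, ∑ b', (x ᵥ* N') b * (y ᵥ* N') b' *
        ∑ e, mC N N' (hc μ c) b b' e * Real.exp (vt e * t) * l e := by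
      have x1 : x = (x ᵥ* N') ᵥ* N := by rw [vecMul_vecMul, i, vecMul_one]
      have y1 : y = (y ᵥ* N') ᵥ* N := by rw [vecMul_vecMul, i, vecMul_one]
      generalize x ᵥ* N' = x' at x1
      generalize y ᵥ* N' = y' at y1
      rw [ph_dot, x1, y1]
      simp only [br_chg, sum_mul, mul_sum]
      exact ((sum_comm.trans (sum_congr rfl fun _ _ => sum_comm))).trans (sum_congr rfl fun _ _ =>
        sum_congr rfl fun _ _ => sum_congr rfl fun _ _ => by ring)
    have b : ∀ b b', |∑ e, mC N N' (hc μ c) b b' e * Real.exp (vt e * t) * l e| ≤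
        Real.exp (vt b * t) * Real.exp (vt b' * t) * (2 * ε) := fun b b' => by
      by_cases p : 0 < μ b ∧ 0 < μ b'
      swap
      · rw [sum_eq_zero fun e _ => by
          rw [mC_hc0 f f' fun u => p ⟨u.1, u.2.1⟩, zero_mul, zero_mul], abs_zero]
        positivity
      obtain ⟨ρ, hρ⟩ : ∃ ρ, ρ = Real.exp (vt b * t) * Real.exp (vt b' * t) := ⟨_, rfl⟩
      have r1 : 1 ≤ ρ := hρ ▸ one_le_mul_of_one_le_of_one_le (hW b).1 (hW b').1
      have w1 : 1 ≤ W := (hW b).1.trans (hW b).2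
      have u := ws (y := ρ * ε) (g := fun e => mC N N' (hc μ c) b b' e * Real.exp (vt e * t) -
        ρ * mC N N' c b b' e) l1 fun e he => by
        by_cases z : Hw μ b b' e ∧ vt e = vt b + vt b'
        · rw [Fa.mC_hc f f' z.1, z.2, add_mul, Real.exp_add, ← hρ, mul_comm, sub_self, abs_zero]
          positivity
        have y1 := gr b b' e (hl e he).1 fun u => z ⟨⟨u.1, u.2.1, u.2.2.1⟩, by
          linarith [u.2.2.1, u.2.2.2]⟩
        have y2 : |mC N N' (hc μ c) b b' e| ≤ δ := by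
          by_cases z' : Hw μ b b' e
          · rwa [Fa.mC_hc f f' z']
          · rwa [mC_hc0 f f' z', abs_zero]
        refine (abs_sub _ _).trans ?_
        rw [abs_mul, abs_mul, abs_of_pos (Real.exp_pos _), abs_of_pos (one_pos.trans_le r1)]
        have y3 := mul_le_mul y2 (hW e).2 (Real.exp_pos _).le d0
        have y4 := mul_le_mul_of_nonneg_left y1 (zero_le_one.trans r1)
        have y5 : 2 * (W * δ) ≤ ε := le_trans (by
          nlinarith [mul_nonneg (zero_le_one.trans w1) d0, one_le_pow₀ (n := 2) q1]) hδ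
        nlinarith [mul_nonneg (zero_le_one.trans w1) d0, mul_nonneg (sub_nonneg.2 r1) d0,
          mul_nonneg (sub_nonneg.2 w1) d0, mul_nonneg (sub_nonneg.2 r1) (mul_nonneg (sub_nonneg.2 w1) d0)]
      have v := mul_le_mul_of_nonneg_left (ch b b' p.1 p.2) (zero_le_one.trans r1)
      simp only [sub_mul, sum_sub_distrib, mul_assoc ρ, ← mul_sum] at u
      rw [← hρ]
      have := abs_sub_abs_le_abs_sub (∑ e, mC N N' (hc μ c) b b' e * Real.exp (vt e * t) * l e)
        (ρ * ∑ e, mC N N' c b b' e * l e)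
      rw [abs_mul ρ, abs_of_pos (one_pos.trans_le r1)] at this
      linarith
    show |ph N' vt t l ⬝ᵥ br (hc μ c) x y| ≤ _ * L
    rw [a]
    refine (sm fun p => sm (y := q * q * (2 * ε)) fun p' => ?_).trans ?_
    · rw [abs_mul, abs_mul]
      refine (mul_le_mul_of_nonneg_left (b p p') (by positivity)).trans ?_
      calc _ = (|(x ᵥ* N') p| * Real.exp (vt p * t)) * (|(y ᵥ* N') p'| * Real.exp (vt p' * t)) *
            (2 * ε) := by ring
        _ ≤ _ := mul_le_mul_of_nonneg_right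
          (mul_le_mul (dia x hx p) (dia y hy p') (by positivity) q0.le) (by positivity)
    · have : 2 * (Fintype.card κ * Fintype.card κ : ℝ) ≤ q * q := by nlinarith
      calc _ = 2 * (Fintype.card κ * Fintype.card κ : ℝ) * (q * q * ε) := by ring
        _ ≤ q * q * (q * q * ε) := mul_le_mul_of_nonneg_right this (by positivity)
        _ = q ^ 4 * ε * 1 := by ring
        _ ≤ _ := mul_le_mul_of_nonneg_left L1 (by positivity)

omit [DecidableEq κ] in
theorem dir {d : Da κ α} [DecidableEq κ] (g : d.Good S) (L1 : 1 ≤ d.L) (j : α) {e : κ}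
    (h : ∀ y, In S y → |(y ᵥ* Z) e| ≤ q) : |(d.A j ᵥ* Z) e| ≤ d.L * q := by
  have p : 0 < d.L := one_pos.trans_le L1
  have := h (d.L⁻¹ • d.A j) fun φ k => by
    rw [dotProduct_smul, smul_eq_mul, abs_mul, abs_of_pos (inv_pos.2 p), ← div_eq_inv_mul,
      div_le_one p]
    simpa using (g.ok φ k).a j
  rwa [smul_vecMul, Pi.smul_apply, smul_eq_mul, abs_mul, abs_of_pos (inv_pos.2 p),
    ← div_eq_inv_mul, div_le_iff₀' p] at this

omit [Fintype κ] in
theorem hom1 {A : Matrix κ κ ℝ} (f : ∀ a b, A a b ≠ (1 : Matrix κ κ ℝ) a b → μ a = μ b) (a b : κ)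
    (k : A a b ≠ 0) : μ a = μ b := by
  by_cases e : a = b
  · rw [e]
  · exact f a b (by rwa [one_apply_ne e])

end RR

open RR in
theorem rRob_of (hA : RAlg) : RRob := by
  intro ι κ α _ _ _ _ _ Ω Λ σ X ϑ La D s₀ vt F F' u u' w r a c hc T
  have a0 := w.a0
  obtain ⟨c', c0, c1⟩ : ∃ c' : ℝ, 0 < c' ∧ c' + 6 * c' / La = c :=
    ⟨c / (1 + 6 / La), by positivity, by field_simp⟩
  obtain ⟨T', hT⟩ : ∃ T' : ℝ, T' = |T| + s₀ * a + 2 * c' + 1 := ⟨_, rfl⟩
  have z : ∀ b, ∀ᶠ n in UF, vt b ≠ 0 → ∀ v ∈ (X n).P.S, ∀ j,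
      |((X n).A v j ᵥ* (F' n * u' n v)) b| ≤ (X n).L * Real.exp (-(T' * (X n).M)) := fun b => by
    by_cases e : vt b = 0
    · exact .of_forall fun _ k => absurd e k
    have p : 0 < vt b := (r.v0 b).1.lt_of_ne' e
    obtain ⟨x, hx⟩ := exists_rat_gt ((T' + 1) / vt b)
    rw [div_lt_iff₀' p] at hx
    filter_upwards [r.dia x 1 one_pos, w.good x, w.sub 1 one_pos] with n d g l _ v hv j
    refine dir (g v hv) l.1 j fun y hy => ((d v hv).2 y hy b).trans (Real.exp_le_exp.2 ?_)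
    rw [← neg_mul]
    exact mul_le_mul_of_nonneg_right (by linarith) (Nat.cast_nonneg _)
  filter_upwards [hA ι κ α Ω Λ σ X ϑ La D s₀ vt F F' u u' w r c' c0 T', r.ex, r.ob c' c0,
    r.dia a c' c0, eventually_all.2 z, w.sub 1 one_pos, w.bot, w.fΨ a, w.good a, w.off a T,
    w.rob a c' c0 0, w.big.ev (2 * Fintype.card κ / c'), w.big.ev 1] with n al ex ob dia z l1 bot fΨ
    good off rob m1 m2 ω hω h hh l s e1 hl ch
  change ω ∈ (X n).P.S at hω
  change h ≤ T * (X n).M at hh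
  change _ ≤ Real.exp (c * (X n).M - h / max 1 (max La σ.L₁))
  change _ ≤ ((X n).M : ℝ) at m1 m2
  have m0 : (0 : ℝ) ≤ (X n).M := Nat.cast_nonneg _
  have a1 : (0 : ℝ) ≤ a := NNRat.cast_nonneg a
  rcases le_total h 0 with h0 | h0
  · refine (pb_le_one _ _).trans (Real.one_le_exp ?_)
    have := div_nonpos_of_nonpos_of_nonneg h0 (zero_le_one.trans (le_max_left 1 (max La σ.L₁)))
    nlinarith
  obtain ⟨q, hq⟩ : ∃ q, q = Real.exp (c' * (X n).M) := ⟨_, rfl⟩
  have q0 : 0 < q := hq ▸ Real.exp_pos _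
  have q2 : 2 * Fintype.card κ + 1 ≤ q := by
    rw [div_le_iff₀' c0] at m1
    linarith [Real.add_one_le_exp (c' * (X n).M)]
  have k0 : (0 : ℝ) ≤ Fintype.card κ := Nat.cast_nonneg _
  have hu : ∀ v ∈ (X n).P.S, (∀ b e, u n v b e ≠ 0 → σ.μ b = σ.μ e) ∧
      ∀ b e, u' n v b e ≠ 0 → σ.μ b = σ.μ e := fun v hv =>
    ⟨hom1 fun b e k => ((ex.2.2 v hv).2 b e (.inl k)).1,
      hom1 fun b e k => ((ex.2.2 v hv).2 b e (.inr k)).1⟩
  have f := hmul (hu ω hω).1 fun b e k => (ex.2.1 b e (.inl k)).1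
  have f' := hmul (fun b e k => (ex.2.1 b e (.inr k)).1) (hu ω hω).2
  have i : u n ω * F n * (F' n * u' n ω) = 1 := by
    rw [Matrix.mul_assoc, ← Matrix.mul_assoc (F n), ex.1, Matrix.one_mul, (ex.2.2 ω hω).1]
  simp only [Rat.cast_nnratCast] at dia
  have dd : ∀ v ∈ (X n).P.S, ∀ y, In ((X n).Ψ a v) y → ∀ e,
      |(y ᵥ* (F' n * u' n v)) e| * Real.exp (vt e * (a * (X n).M)) ≤ q := fun v hv y hy e => by
    refine (mul_le_mul_of_nonneg_right ((dia v hv).2 y hy e) (Real.exp_pos _).le).trans_eq ?_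
    rw [← Real.exp_add, hq]; congr 1; ring
  have hW : ∀ b, 1 ≤ Real.exp (vt b * (a * (X n).M)) ∧
      Real.exp (vt b * (a * (X n).M)) ≤ Real.exp (s₀ * (a * (X n).M)) := fun b =>
    ⟨Real.one_le_exp (mul_nonneg (r.v0 b).1 (by positivity)),
      Real.exp_le_exp.2 (mul_le_mul_of_nonneg_right (r.v0 b).2 (by positivity))⟩
  obtain ⟨e, he⟩ : ∃ e, 1 ≤ q * |l e| := by
    by_contra k
    have := sm (f := fun e => q * |l e|) (y := 1) fun e => by
      rw [abs_of_nonneg (by positivity)]; exact le_of_not_ge fun y => k ⟨e, y⟩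
    rw [← mul_sum, e1, mul_one, abs_of_pos q0] at this
    linarith
  have p0 : 0 < q ^ 4 * Real.exp (-h) := by positivity
  refine (pb_mono fun v hv th => ?_).trans ((rob ω hω (h - 6 * c' * (X n).M)
    ((q ^ 4 * Real.exp (-h))⁻¹ • ph (F' n * u' n ω) vt (a * (X n).M) l) s
    ((q * Real.exp (vt e * (a * (X n).M)))⁻¹ • (u n ω * F n) e) ((ph_hg f' hl).smul _)
    (fun φ k => ?_) ?_).trans (Real.exp_le_exp.2 ?_))
  · obtain ⟨hv, o⟩ := (MX.mem_cv hω v).1 hv
    have eΨ := fΨ v hv ω hω o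
    have ec := (bot v hv ω hω).2.2
    have g := good v hv
    have k := okv (N := u n ω * F n) (Z := F' n * u' n v) (R := u n v * u' n ω) (vt := vt) (l := l)
      (δ := Real.exp (-(T' * (X n).M))) (ε := Real.exp (-h)) g l1.1 (mul_eq_one_comm.1 i) f f'
      (by rw [Matrix.mul_assoc, ← Matrix.mul_assoc (u' n v), mul_eq_one_comm.1 (ex.2.2 v hv).1,
        Matrix.one_mul])
      (hmul (hu v hv).1 (hu ω hω).2) (fun b e => ?_) q2 (Real.exp_pos _) (Real.exp_pos _).le ?_ hW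
      ?_ (by rw [eΨ]; exact dd ω hω) (fun j b => ⟨dir g l1.1 j fun y hy => le_trans
        (le_mul_of_one_le_right (abs_nonneg _) (hW b).1) (dd v hv y hy b), fun y => z b y v hv j⟩)
      (by rw [ec]; exact (al ω hω).gr) e1 hl (by rw [ec]; exact ch) fun b b1 b2 => ?_
    · have := k.smul (q ^ 4 * Real.exp (-h))⁻¹
      rwa [abs_of_pos (inv_pos.2 p0), inv_mul_cancel₀ p0.ne'] at this
    · refine (sm (y := q * q) fun e' => ?_).trans (by nlinarith [mul_pos q0 q0])
      rw [abs_mul, hq]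
      exact mul_le_mul (ob v hv _ _).1 (ob ω hω _ _).2 (abs_nonneg _) (Real.exp_pos _).le
    · have : (2 : ℝ) ≤ Real.exp (X n).M := by linarith [Real.add_one_le_exp ((X n).M : ℝ)]
      refine (mul_le_mul_of_nonneg_right (mul_le_mul_of_nonneg_right (mul_le_mul_of_nonneg_right
        this (by positivity)) (Real.exp_pos _).le) (Real.exp_pos _).le).trans ?_
      rw [hq, ← Real.exp_nat_mul, ← Real.exp_add, ← Real.exp_add, ← Real.exp_add, Real.exp_le_exp,
        hT]
      push_cast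
      nlinarith [le_abs_self T]
    · have := off v hv
      rw [← le_div_iff₀ (Real.exp_pos _), div_eq_inv_mul, ← Real.exp_neg] at this
      exact this.trans (mul_le_mul_of_nonneg_right (Real.exp_le_exp.2 (neg_le_neg hh))
        (zero_le_one.trans (by simpa [Ba.da, flr, (show 0 < σ.μ e from
          (hl e fun y => by norm_num [y] at he).1)] using g.fl1 e)))
    · refine le_of_eq_of_le (congrArg _ (sum_congr rfl fun e' _ => ?_))
        (th b ⟨b1, by show σ.μ b + vt b = σ.μ b; rw [b2, add_zero]⟩)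
      show _ = l e' * (Real.exp ((σ.μ e' + vt e' - (σ.μ b + vt b)) * (a * (X n).M)) *
        (u n v * u' n ω) b e')
      by_cases y : (u n v * u' n ω) b e' = 0
      · simp [y]
      · rw [hmul (hu v hv).1 (hu ω hω).2 b e' y, b2, add_zero, add_sub_cancel_left]; ring
  · rw [dotProduct_smul, smul_eq_mul, abs_mul, abs_of_pos (by positivity), ← div_eq_inv_mul,
      div_le_one (by positivity)]
    refine ((dia ω hω).1 e φ k).trans_eq ?_
    rw [hq, ← Real.exp_add]; congr 1; ring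
  · have y : ∀ e', ((u n ω * F n) e ᵥ* (F' n * u' n ω)) e' = (1 : Matrix κ κ ℝ) e e' :=
      fun e' => congrFun (congrFun i e) e'
    rw [smul_dotProduct, dotProduct_smul, ph_dot]
    simp only [y, one_apply, ite_mul, one_mul, zero_mul, sum_ite_eq, mem_univ, if_true,
      smul_eq_mul, abs_mul]
    rw [abs_of_pos (inv_pos.2 p0), abs_of_pos (by positivity), abs_of_pos (Real.exp_pos _)]
    have y2 : Real.exp (h - 6 * c' * (X n).M) * (q ^ 6 * Real.exp (-h)) = 1 := by
      rw [hq, ← Real.exp_nat_mul, ← Real.exp_add, ← Real.exp_add, Real.exp_eq_one_iff]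
      push_cast
      ring
    rw [eq_inv_of_mul_eq_one_left y2]
    calc _ = (q ^ 6 * Real.exp (-h))⁻¹ * 1 := (mul_one _).symm
      _ ≤ (q ^ 6 * Real.exp (-h))⁻¹ * (q * |l e|) := mul_le_mul_of_nonneg_left he (by positivity)
      _ = _ := by field_simp
  · have := div_le_div_of_nonneg_left h0 a0 ((le_max_left La σ.L₁).trans (le_max_right 1 _))
    rw [← c1, sub_div]
    have y : 6 * c' * (X n).M / La = 6 * c' / La * (X n).M := by ring
    nlinarith

end Pool.Agent.MP_5168f5_an.QA.Cp
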