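import Pool.Agent.MP_5168f5_an.QA.NJB

/-! Two norms with almost the same spectrum: the meet gains, a common coarser norm loses little. -/

namespace Pool.Agent.MP_5168f5_an.QA.NJ

open Finset AN.C1 Real

variable {V : Type} [AddCommGroup V] [Module ℝ V] {m : ℕ} {ν ν' μ B : V → ℝ}

/-- The depth of the `k` longest axes. -/
noncomputable abbrev sg (B : V → ℝ) (k : ℕ) (ν : V → ℝ) : ℝ := -log (rho k ν B)

/-- The candidates for the tilted lengths. -/
noncomputable def ty (cl : ℕ → ℝ) (a : Fin m → ℕ) (i : Fin m) : ℝ :=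
  (2 * m ^ 3 + 1) * exp (cl i - cl (i + 1) + ∑ k ∈ Iic i, (a k : ℝ))

/-- The tilted lengths. -/
noncomputable def tl (cl : ℕ → ℝ) (a : Fin m → ℕ) (j : Fin m) : ℝ :=
  (Iic j).inf' ⟨j, mem_Iic.2 le_rfl⟩ (ty cl a)

variable {cl : ℕ → ℝ} {a : Fin m → ℕ} {b b' : Module.Basis (Fin m) ℝ V} {l l' : Fin m → ℝ} {D : ℝ}

theorem tl_le {i j : Fin m} (h : i ≤ j) : tl cl a j ≤ ty cl a i := inf'_le _ (mem_Iic.2 h)

theorem tl_ex (j : Fin m) : ∃ k ≤ j, tl cl a j = ty cl a k :=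
  (exists_mem_eq_inf' _ _).imp fun _ h => ⟨mem_Iic.1 h.1, h.2⟩

theorem tl_pos (j : Fin m) : 0 < tl cl a j := by
  obtain ⟨k, -, e⟩ := tl_ex (cl := cl) (a := a) j
  rw [e, ty]; positivity

theorem tl_anti : Antitone (tl cl a) := fun i j h => by
  obtain ⟨k, u, e⟩ := tl_ex (cl := cl) (a := a) i
  exact e ▸ tl_le (u.trans h)

/-- The lengths are those of the class up to `exp D`. -/
def Nr (cl : ℕ → ℝ) (l : Fin m → ℝ) (D : ℝ) : Prop :=
  ∀ i : Fin m, l i ≤ exp (cl i - cl (i + 1) + D) ∧ exp (cl i - cl (i + 1) - D) ≤ l i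

theorem a_le (a : Fin m → ℕ) {i j : Fin m} (h : i ≤ j) : (a i : ℝ) ≤ ∑ k ∈ Iic j, (a k : ℝ) :=
  single_le_sum (f := fun k => (a k : ℝ)) (fun _ _ => Nat.cast_nonneg _) (mem_Iic.2 h)

theorem A_mono (a : Fin m → ℕ) {i : Fin m} {s : Finset (Fin m)} (h : Iic i ⊆ s) :
    ∑ k ∈ Iic i, (a k : ℝ) ≤ ∑ k ∈ s, (a k : ℝ) :=
  sum_le_sum_of_subset_of_nonneg h fun _ _ _ => Nat.cast_nonneg _

theorem tl_lo (h : Ax B ν b l) (n : Nr cl l D) (hD : ∀ i, D ≤ a i) (j : Fin m) :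
    (2 * m ^ 3 + 1) * l j ≤ tl cl a j := by
  obtain ⟨k, u, e⟩ := tl_ex (cl := cl) (a := a) j
  rw [e, ty]
  gcongr
  exact (h.anti u).trans ((n k).1.trans (exp_le_exp.2 (by linarith [hD k, a_le a (le_refl k)])))

theorem tl_up (n : Nr cl l D) (hD : ∀ i, D ≤ a i) (j : Fin m) {s : Finset (Fin m)}
    (h : Iic j ⊆ s) : tl cl a j ≤ (2 * m ^ 3 + 1) * exp (2 * ∑ k ∈ s, (a k : ℝ)) * l j := by
  refine (tl_le le_rfl).trans ?_
  rw [ty, mul_assoc]
  gcongr
  refine le_trans ?_ (mul_le_mul_of_nonneg_left (n j).2 (exp_pos _).le)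
  rw [← exp_add]
  exact exp_le_exp.2 (by linarith [hD j, a_le a (le_refl j), A_mono a h])

theorem cross (h : Ax B ν b l) (h' : Ax B ν' b' l') (n : Nr cl l D)
    (e : ∀ k j, k ≤ j → ν (b' j) * exp (2 * D) ≤ exp (a k) * l k) (x : V) :
    dn b (tl cl a) x ≤ m * m * dn b' (tl cl a) x := by
  have hb := dn_hb b (tl_pos (cl := cl) (a := a))
  have k1 : ∀ j, dn b (tl cl a) (b' j) ≤ m * tl cl a j := fun j => upp (dn_dg b tl_pos) hb fun i => by
    obtain ⟨k, u, v⟩ := tl_ex (cl := cl) (a := a) j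
    rcases le_or_gt k i with c | c
    · have a1 : |b.repr (b' j) i| ≤ 1 := by simpa using (coord h.db (b' j) i).trans (h'.db.1 j)
      exact (mul_le_of_le_one_left (tl_pos i).le a1).trans (v ▸ tl_le c)
    · have a1 := coord h.dg (b' j) i
      have a2 : ∑ t ∈ Iic i, (a t : ℝ) + a k ≤ ∑ t ∈ Iic k, (a t : ℝ) := by
        rw [add_comm, ← sum_insert (f := fun t => (a t : ℝ)) (by simpa using c : k ∉ Iic i)]
        exact sum_le_sum_of_subset_of_nonneg (insert_subset (mem_Iic.2 le_rfl)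
          (Iic_subset_Iic.2 c.le)) fun _ _ _ => Nat.cast_nonneg _
      have a3 := (mul_le_mul_of_nonneg_right ((mul_le_mul_of_nonneg_left (n i).2
        (abs_nonneg _)).trans a1) (exp_pos (2 * D)).le).trans ((e k j u).trans
          (mul_le_mul_of_nonneg_left (n k).1 (exp_pos _).le))
      refine (mul_le_mul_of_nonneg_left (tl_le (le_refl i)) (abs_nonneg _)).trans ?_
      rw [v, ty, ty, mul_left_comm]
      gcongr
      rw [mul_assoc, ← exp_add, ← exp_add] at a3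
      have a4 := mul_le_mul_of_nonneg_right a3 (exp_pos (∑ t ∈ Iic i, (a t : ℝ) - D)).le
      rw [mul_assoc, ← exp_add, ← exp_add] at a4
      exact (le_of_eq (by congr 2; ring)).trans (a4.trans (exp_le_exp.2 (by linarith)))
  conv_lhs => rw [← b'.sum_repr x]
  refine (hb.sum _ _ _).trans ((sum_le_card_nsmul _ _ (m * dn b' (tl cl a) x) fun j _ => ?_).trans
    (by simp [mul_assoc]))
  refine (mul_le_mul_of_nonneg_left (k1 j) (abs_nonneg _)).trans ?_
  rw [mul_left_comm]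
  exact mul_le_mul_of_nonneg_left (coord (dn_dg b' tl_pos) x j) (Nat.cast_nonneg _)

theorem pk_le {y : Fin m → ℝ} {s : ℝ} {k : ℕ} (hs : 1 ≤ s) (h0 : ∀ i, 0 < y i) (h1 : ∀ i, 0 < l i)
    (e : ∀ i : Fin m, i.val < k → y i ≤ s * l i) : pk y k ≤ s ^ m * pk l k := by
  refine (prod_le_prod (fun i _ => (h0 i).le) fun i hi => e i (mem_filter.1 hi).2).trans ?_
  rw [prod_mul_distrib, prod_const]
  exact mul_le_mul_of_nonneg_right (pow_le_pow_right₀ hs ((card_le_univ _).trans (by simp)))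
    (pk_pos h1 k).le

theorem nr {K De : ℝ} (h : ∀ i, 0 < l i) (K1 : 1 ≤ K) (p : ∀ k ≤ m, 0 < rho k ν B)
    (t : ∀ k ≤ m, Ap K (rho k ν B) (pk l k)) (e : ∀ k ≤ m, |sg B k ν - cl k| ≤ De) :
    Nr cl l (2 * De + 2 * log K) := fun i => by
  have k1 : ∀ k ≤ m, |log (pk l k) + cl k| ≤ De + log K := fun k hk => by
    have a1 := log_le_log (p k hk) (t k hk).1
    have a2 := log_le_log (pk_pos h k) (t k hk).2
    rw [log_mul (by positivity) (pk_pos h k).ne'] at a1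
    rw [log_mul (by positivity) (p k hk).ne'] at a2
    have := abs_le.1 (e k hk)
    exact abs_le.2 ⟨by linarith, by linarith⟩
  have a1 := abs_le.1 (k1 i i.2.le)
  have a2 := abs_le.1 (k1 (i + 1) i.2)
  rw [pk_succ, log_mul (pk_pos h _).ne' (h i).ne'] at a2
  exact ⟨(log_le_iff_le_exp (h i)).1 (by linarith), (le_log_iff_exp_le (h i)).1 (by linarith)⟩

/-- The meet is not much smaller than a norm that is not much larger than the other. -/
theorem le_meet (h : Hb ν) (e : ∀ φ, Adm ν φ → Adm ν' φ → Adm μ φ) {s : ℝ} (hs : 1 ≤ s)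
    (c : ∀ x, ν x ≤ s * ν' x) (x : V) : ν x ≤ s * μ x := by
  obtain ⟨φ, u, v⟩ := h.dual x
  have s0 : 0 < s := by linarith
  have k : ∀ N : V → ℝ, (∀ y, ν y ≤ s * N y) → Adm N (s⁻¹ • φ) := fun N q y => by
    rw [LinearMap.smul_apply, smul_eq_mul, abs_mul, abs_of_pos (inv_pos.2 s0), inv_mul_le_iff₀ s0]
    exact (u y).trans (q y)
  have := e _ (k ν fun y => le_mul_of_one_le_left (h.nonneg y) hs) (k ν' c) x
  rw [LinearMap.smul_apply, smul_eq_mul, v, abs_mul, abs_of_pos (inv_pos.2 s0),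
    inv_mul_le_iff₀ s0] at this
  exact (le_abs_self _).trans this

theorem sg_le [FiniteDimensional ℝ V] (rk : Module.finrank ℝ V = m) (hB : Hb B) (h : Hb ν)
    (h' : Hb ν') {s : ℝ} (hs : 1 ≤ s) (c : ∀ x, ν x ≤ s * ν' x) {k : ℕ} (hk : k ≤ m) :
    sg B k ν' ≤ sg B k ν + m * log s := by
  have a1 := log_le_log (rho_pos h hB rk hk)
    ((rMul V ν ν' B k h h' hB).2.2 s (by linarith) c).2.1
  rw [log_mul (by positivity) (rho_pos h' hB rk hk).ne', log_pow] at a1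
  have a2 := mul_le_mul_of_nonneg_right (show (k : ℝ) ≤ m by exact_mod_cast hk) (log_nonneg hs)
  simp only [sg]; linarith

/-- What the two norms `ν`, `ν'` give: the meet `μ`, the join `T` and the index `a`. -/
structure Out (C De : ℝ) (B ν ν' μ T : V → ℝ) (a : Fin m → ℕ) : Prop where
  hm : Hb μ
  ht : Hb T
  le : ∀ x, ν x ≤ T x ∧ ν' x ≤ T x
  up : ∀ x, T x ≤ exp (C * (∑ i, (a i : ℝ) + 1)) * ν x ∧ T x ≤ exp (C * (∑ i, (a i : ℝ) + 1)) * ν' x
  mu : ∀ x, μ x ≤ C * ν x ∧ μ x ≤ C * ν' x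
  adm : ∀ φ, Adm ν φ → Adm ν' φ → Adm μ φ
  gain : ∀ k : Fin m, a k ≤ sg B k μ - sg B k ν + C * (De + 1)
  drop : ∀ k : Fin m, sg B (k + 1) ν - sg B (k + 1) T ≤ C * (∑ i ∈ Iic k, (a i : ℝ) + 1)
  size : ∀ J : ℝ, 0 ≤ J → (∀ x, ν x ≤ exp J * ν' x) → ∀ k, a k ≤ C * (J + De + 1)

theorem njLin (m : ℕ) : ∃ C : ℕ, 1 ≤ C ∧ ∀ (V : Type) [AddCommGroup V] [Module ℝ V]
    [FiniteDimensional ℝ V] (B : V → ℝ), Module.finrank ℝ V = m → Hb B →
    ∃ (R : (V → ℝ) → (ℕ → ℝ) → (Fin m → ℕ) → V → ℝ)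
      (Ls : (V → ℝ) → (ℕ → ℝ) → (Fin m → ℕ) → Finset (V → ℝ)), (∀ ν cl a, (Ls ν cl a).card ≤ C) ∧
      ∀ (ν ν' : V → ℝ) (cl : ℕ → ℝ) (De : ℝ), Hb ν → Hb ν' → 0 ≤ De →
        (∀ k ≤ m, |sg B k ν - cl k| ≤ De ∧ |sg B k ν' - cl k| ≤ De) →
        ∃ (a : Fin m → ℕ) (μ : V → ℝ), R ν' cl a ∈ Ls ν cl a ∧ Out C De B ν ν' μ (R ν' cl a) a := by
  obtain ⟨K, K1, hK⟩ := top m
  obtain ⟨Γ, hΓ⟩ : ∃ Γ : ℝ, Γ = m * (m + 1) + 1 := ⟨_, rfl⟩
  have G1 : 1 ≤ Γ := by rw [hΓ]; nlinarith [Nat.cast_nonneg (α := ℝ) m]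
  obtain ⟨C1, c1, hg⟩ := gain m G1
  obtain ⟨C2, hn⟩ := net m (m * m)
  obtain ⟨c, hc⟩ : ∃ c : ℝ, c = 2 * m ^ 3 + 1 := ⟨_, rfl⟩
  have m0 := Nat.cast_nonneg (α := ℝ) m
  have m3 : (m : ℝ) ≤ m ^ 3 ∧ (m : ℝ) * m ≤ m ^ 3 := by
    rcases m with _ | m
    · simp
    · have : (1 : ℝ) ≤ (m + 1 : ℕ) := by simp
      constructor <;> nlinarith [mul_nonneg m0 m0]
  have c0 : 1 ≤ c := by rw [hc]; linarith
  have l1 := log_nonneg K1
  have l2 := log_nonneg G1
  have l3 := log_nonneg c1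
  have l4 := log_nonneg c0
  have l5 := mul_nonneg m0 l2
  have l6 := mul_nonneg m0 l4
  obtain ⟨q, hq⟩ : ∃ q, q = 12 + log C1 + log Γ + 10 * log K + m * log Γ := ⟨_, rfl⟩
  obtain ⟨C, hC⟩ := exists_nat_ge (q + 3 + C2 + Γ + 2 * m + 2 * (m * log c) + 2 * log c)
  have n2 := Nat.cast_nonneg (α := ℝ) C2
  refine ⟨C, by exact_mod_cast (show (1 : ℝ) ≤ C by linarith), fun V _ _ _ B rk hB => ?_⟩
  obtain ⟨r, L, h1, h2⟩ := hn V rk
  have ex : ∀ ν : V → ℝ, ∃ b : Module.Basis (Fin m) ℝ V, Hb ν → ∃ l, Ax B ν b l := fun ν => by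
    by_cases h : Hb ν
    · exact (two rk hB h).imp fun _ u _ => u
    · exact ⟨Module.finBasisOfFinrankEq ℝ V rk, fun u => absurd u h⟩
  choose ax hx using ex
  refine ⟨fun ν cl a => r (dn (ax ν) (tl cl a)), fun ν cl a => L (dn (ax ν) (tl cl a)),
    fun _ _ _ => (h1 _).trans (by exact_mod_cast (show (C2 : ℝ) ≤ C by linarith)),
    fun ν ν' cl De h h' d0 e => ?_⟩
  obtain ⟨l, x⟩ := hx ν h
  obtain ⟨l', x'⟩ := hx ν' h'
  obtain ⟨μ, hm, u0, ad⟩ := meet rk h h'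
  have u : ∀ y, μ y ≤ Γ * ν y ∧ μ y ≤ Γ * ν' y := fun y => by
    rw [hΓ]; constructor <;> linarith [(u0 y).1, (u0 y).2, h.nonneg y, h'.nonneg y]
  have n := nr x.pos K1 (fun k => rho_pos h hB rk) (hK V B ν _ l hB h x) fun k hk => (e k hk).1
  have n' := nr x'.pos K1 (fun k => rho_pos h' hB rk) (hK V B ν' _ l' hB h' x')
    fun k hk => (e k hk).2
  set D := 2 * De + 2 * log K with hD
  let a : Fin m → ℕ := fun k => ⌈sg B k μ - sg B k ν + q * (De + 1)⌉₊
  have g0 : ∀ k : Fin m, sg B k ν ≤ sg B k μ + m * log Γ := fun k =>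
    sg_le rk hB hm h G1 (fun y => (u y).1) k.2.le
  have q1 : log C1 + log Γ + 5 * D + 2 * De + m * log Γ ≤ q * (De + 1) := by
    rw [hq, hD]; nlinarith
  have a1 : ∀ k : Fin m, sg B k μ - sg B k ν + q * (De + 1) ≤ a k := fun k => Nat.le_ceil _
  have a2 : ∀ k : Fin m, a k ≤ sg B k μ - sg B k ν + q * (De + 1) + 1 := fun k =>
    (Nat.ceil_lt_add_one (by linarith [g0 k])).le
  have a3 : ∀ k, D ≤ a k := fun k => by linarith [g0 k, a1 k]
  have cr : ∀ {ν ν' b b' l l'}, Hb ν → Ax B ν b l → Ax B ν' b' l' → Nr cl l D → Nr cl l' D →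
      (∀ y, μ y ≤ Γ * ν y ∧ μ y ≤ Γ * ν' y) →
      (∀ k : Fin m, sg B k μ - sg B k ν + log C1 + log Γ + 4 * D ≤ a k) →
      ∀ y, dn b (tl cl a) y ≤ m * m * dn b' (tl cl a) y := fun {ν ν' b b' l l'} h x x' n n' u w =>
    cross x x' n fun k j kj => by
      have b1 : l' k ≤ exp (2 * D) * l k := (n' k).1.trans (le_trans (by
        rw [← exp_add]; exact exp_le_exp.2 (by linarith))
        (mul_le_mul_of_nonneg_left (n k).2 (exp_pos _).le))
      have b2 := hg V B ν μ b l k (b' j) (Γ * exp (2 * D)) hB h hm x (fun y => (u y).1)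
        (one_le_mul_of_one_le_of_one_le G1 (one_le_exp (by linarith))) (by simpa using x'.db.1 j)
        ((u _).2.trans (by
          rw [mul_assoc]
          gcongr
          exact (x'.dg.1 j).trans (by simpa using (x'.anti kj).trans b1)))
      have p := rho_pos h hB rk k.2.le
      have p' := rho_pos hm hB rk k.2.le
      have b3 : C1 * (Γ * exp (2 * D)) * rho k ν B * exp (2 * D) ≤ exp (a k) * rho k μ B := by
        rw [← exp_log p, ← exp_log p', ← exp_log (show 0 < C1 by linarith),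
          ← exp_log (show 0 < Γ by linarith)]
        simp only [← exp_add]
        exact exp_le_exp.2 (by have := w k; simp only [sg] at this; linarith)
      refine le_of_mul_le_mul_right ?_ p'
      nlinarith [mul_le_mul_of_nonneg_right b2 (exp_pos (2 * D)).le,
        mul_le_mul_of_nonneg_right b3 (x.pos k).le]
  have c12 := cr h x x' n n' u fun k => by linarith [a1 k]
  have c21 := cr h' x' x n' n (fun y => (u y).symm) fun k => by
    linarith [a1 k, abs_le.1 (e k k.2.le).1, abs_le.1 (e k k.2.le).2]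
  have N1 := dn_hb (ax ν) (tl_pos (cl := cl) (a := a))
  have N2 := dn_hb (ax ν') (tl_pos (cl := cl) (a := a))
  obtain ⟨t1, t2, t3⟩ := h2 _ N2
  have lo : ∀ {ν b l}, Hb ν → Ax B ν b l → Nr cl l D → ∀ y, c * ν y ≤ m * dn b (tl cl a) y :=
    fun {ν b l} h x n y => by
      have := cmp x.dg (dn_dg b (tl_pos (cl := cl) (a := a))) h (s := c⁻¹) (by positivity)
        (fun i => by rw [le_inv_mul_iff₀ (by linarith), hc]; exact tl_lo x n a3 i) y
      rwa [mul_comm (m : ℝ), mul_assoc, le_inv_mul_iff₀ (by linarith)] at this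
  have hi : ∀ {ν b l}, Hb ν → Ax B ν b l → Nr cl l D → ∀ y,
      dn b (tl cl a) y ≤ m * (c * exp (2 * ∑ i, (a i : ℝ))) * ν y := fun {ν b l} h x n y =>
    cmp (dn_dg b tl_pos) x.dg (dn_hb b tl_pos) (by positivity)
      (fun i => hc ▸ tl_up n a3 i (subset_univ _)) y
  have s0 : (0 : ℝ) ≤ ∑ i, (a i : ℝ) := by positivity
  have ee : c * (c * exp (2 * ∑ i, (a i : ℝ))) ≤ exp (C * (∑ i, (a i : ℝ) + 1)) := by
    rw [← exp_log (show 0 < c by linarith)]
    simp only [← exp_add]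
    exact exp_le_exp.2 (by nlinarith)
  have t4 : ∀ y, r (dn (ax ν') (tl cl a)) y ≤ c * dn (ax ν) (tl cl a) y := fun y => by
    nlinarith [(t2 y).2, c21 y, N1.nonneg y]
  refine ⟨a, μ, t3 _ N1 fun y => by push_cast; exact ⟨c21 y, c12 y⟩, hm, t1, fun y => ?_,
    fun y => ?_, fun y => ?_, ad, fun k => by nlinarith [a2 k], fun k => ?_, fun J J0 w k => ?_⟩
  · have b1 := (t2 y).1
    have b2 := t1.nonneg y
    have b3 := mul_le_mul_of_nonneg_left ((c12 y).trans (mul_le_mul_of_nonneg_left b1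
      (by positivity))) m0
    constructor <;> refine le_of_mul_le_mul_left ?_ (show 0 < c by linarith)
    · nlinarith [lo h x n y]
    · nlinarith [lo h' x' n' y, mul_le_mul_of_nonneg_left b1 m0]
  · have b0 : 0 ≤ c * exp (2 * ∑ i, (a i : ℝ)) := by positivity
    constructor
    · refine le_trans ?_ (mul_le_mul_of_nonneg_right ee (h.nonneg y))
      have b1 := mul_le_mul_of_nonneg_left (hi h x n y) (mul_nonneg m0 m0)
      nlinarith [(t2 y).2, c21 y, mul_nonneg b0 (h.nonneg y)]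
    · refine le_trans ?_ (mul_le_mul_of_nonneg_right ee (h'.nonneg y))
      nlinarith [(t2 y).2, hi h' x' n' y, mul_nonneg b0 (h'.nonneg y)]
  · constructor <;> nlinarith [(u y).1, (u y).2, h.nonneg y, h'.nonneg y]
  · have b0 : (0 : ℝ) ≤ ∑ i ∈ Iic k, (a i : ℝ) := by positivity
    have b1 := sg_le rk hB t1 N1 c0 t4 (k := k + 1) k.2
    have b2 := (hK V B _ _ _ hB N1 (x.dn tl_pos tl_anti) (k + 1) k.2).1
    have b3 := pk_le (s := c * exp (2 * ∑ i ∈ Iic k, (a i : ℝ))) (k := k + 1)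
      (one_le_mul_of_one_le_of_one_le c0 (one_le_exp (by linarith))) tl_pos x.pos
      fun i hi => hc ▸ tl_up n a3 i (Iic_subset_Iic.2 (Nat.le_of_lt_succ hi))
    have b4 := (hK V B ν _ l hB h x (k + 1) k.2).2
    have b5 := log_le_log (rho_pos N1 hB rk k.2) (b2.trans (mul_le_mul_of_nonneg_left
      (b3.trans (mul_le_mul_of_nonneg_left b4 (by positivity))) (by linarith)))
    have p := rho_pos h hB rk (k := k + 1) k.2
    rw [log_mul (by positivity) (by positivity), log_mul (by positivity) (by positivity),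
      log_mul (by positivity) (by positivity), log_pow, log_mul (by positivity) (by positivity),
      log_exp] at b5
    simp only [sg] at b1 ⊢
    nlinarith
  · have b1 := sg_le rk hB h hm (one_le_exp J0) (le_meet h ad (one_le_exp J0) w) k.2.le
    rw [log_exp] at b1
    nlinarith [a2 k]

end Pool.Agent.MP_5168f5_an.QA.NJ
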