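import Pool.Agent.MP_5168f5_an.QA.NJCore
import Pool.Agent.MP_5168f5_an.QA.NJLin

/-! No jump: the potential and the absorption of the error terms. -/

namespace Pool.Agent.MP_5168f5_an.QA.NJ

open H19 H17S H17F AN.C1 Finset

variable {V : Type} [AddCommGroup V] [Module ℝ V] {n m d : ℕ}

/-- The potential. -/
noncomputable def Ψ (B : V → ℝ) (W : ℕ → ℝ) (m : ℕ) (ν : V → ℝ) : ℝ :=
  ∑ k ∈ range m, W (k + 1) * sg B (k + 1) ν

theorem sg_le' [FiniteDimensional ℝ V] {B ν ν' : V → ℝ} (hB : Hb B) (h : Hb ν) (h' : Hb ν')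
    (rk : Module.finrank ℝ V = m) {k : ℕ} (hk : k ≤ m) {C : ℝ} (hC : 0 < C)
    (e : ∀ x, ν x ≤ C * ν' x) : sg B k ν' ≤ sg B k ν + k * Real.log C := by
  have := Real.log_le_log (rho_pos h hB rk hk) ((rMul V ν ν' B k h h' hB).2.2 C hC e).2.1
  rw [Real.log_mul (by positivity) (rho_pos h' hB rk hk).ne', Real.log_pow] at this
  unfold sg
  linarith

theorem sumL {C η E : ℝ} {W r dr : ℕ → ℝ} {a : Fin m → ℕ} (C0 : 0 ≤ C) (E0 : 0 ≤ E) (η0 : 0 ≤ η)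
    (W0 : ∀ k, 0 ≤ W k) (Wa : Antitone W) (hW : ∀ k, 1 ≤ k → C * m * W (k + 1) ≤ η * W k)
    (r0 : r 0 = 0) (r1 : ∀ k ≤ m, 0 ≤ r k) (ha : ∀ k : Fin m, (a k : ℝ) ≤ r k + E)
    (hd : ∀ k : Fin m, dr (k + 1) ≤ C * (∑ i ∈ Iic k, (a i : ℝ) + 1)) :
    ∑ k ∈ range m, W (k + 1) * dr (k + 1) ≤ η * ∑ k ∈ range m, W (k + 1) * r (k + 1) +
      (∑ k ∈ range m, W (k + 1)) * (C * (m * E + 1)) ∧
    ∑ i, (a i : ℝ) ≤ ∑ k ∈ range m, r (k + 1) + m * E ∧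
    W m * ∑ k ∈ range m, r (k + 1) ≤ ∑ k ∈ range m, W (k + 1) * r (k + 1) := by
  have sh : ∀ f : ℕ → ℝ, f 0 = 0 → 0 ≤ f m → ∑ k : Fin m, f k ≤ ∑ k ∈ range m, f (k + 1) :=
    fun f a b => by
      have := sum_range_succ' f m
      rw [sum_range_succ] at this
      rw [Fin.sum_univ_eq_sum_range]
      linarith
  refine ⟨?_, ?_, ?_⟩
  · have h1 : ∀ k : Fin m, W (k + 1) * dr (k + 1) ≤
        C * ∑ i : Fin m, W (i + 1) * r i + W (k + 1) * (C * (m * E + 1)) := fun k => by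
      have a1 : W (k + 1) * ∑ i ∈ Iic k, (a i : ℝ) ≤
          ∑ i : Fin m, (W (i + 1) * r i + W (k + 1) * E) := by
        rw [mul_sum]
        refine (sum_le_sum fun i hi => ?_).trans (sum_le_sum_of_subset_of_nonneg (subset_univ _)
          fun i _ _ => add_nonneg (mul_nonneg (W0 _) (r1 i i.2.le)) (mul_nonneg (W0 _) E0))
        have b1 := mul_le_mul_of_nonneg_left (ha i) (W0 (k + 1))
        have b2 := mul_le_mul_of_nonneg_right
          (Wa (Nat.succ_le_succ (show (i : ℕ) ≤ k from (mem_Iic (a := k)).1 hi))) (r1 i i.2.le)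
        linarith
      rw [sum_add_distrib, sum_const, card_univ, Fintype.card_fin, nsmul_eq_mul] at a1
      have a2 := mul_le_mul_of_nonneg_left (hd k) (W0 (k + 1))
      have a3 := mul_le_mul_of_nonneg_left a1 C0
      linarith
    have h2 : ∑ i : Fin m, C * m * (W (i + 1) * r i) ≤ ∑ i : Fin m, η * (W i * r i) :=
      sum_le_sum fun i _ => by
        rcases Nat.eq_zero_or_pos i with e | e
        · rw [e, r0]; simp
        · have := mul_le_mul_of_nonneg_right (hW i e) (r1 i i.2.le)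
          linarith
    have h3 := mul_le_mul_of_nonneg_left (sh (fun k => W k * r k) (by simp [r0])
      (mul_nonneg (W0 m) (r1 m le_rfl))) η0
    have h4 := sum_le_sum fun k (_ : k ∈ univ) => h1 k
    rw [sum_add_distrib, sum_const, card_univ, Fintype.card_fin, nsmul_eq_mul, ← sum_mul,
      Fin.sum_univ_eq_sum_range (fun k => W (k + 1) * dr (k + 1)),
      Fin.sum_univ_eq_sum_range (fun k => W (k + 1))] at h4
    rw [← mul_sum, ← mul_sum] at h2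
    linarith
  · have := sum_le_sum fun k (_ : k ∈ univ) => ha k
    rw [sum_add_distrib, sum_const, card_univ, Fintype.card_fin, nsmul_eq_mul] at this
    linarith [sh r r0 (r1 m le_rfl)]
  · rw [mul_sum]
    exact sum_le_sum fun k hk => mul_le_mul_of_nonneg_right (Wa (mem_range.1 hk))
      (r1 _ (mem_range.1 hk))

/-- The shifted gain of the potential. -/
noncomputable def gn (B : V → ℝ) (W : ℕ → ℝ) (m : ℕ) (C : ℝ) (ν μ : V → ℝ) : ℝ :=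
  Ψ B W m μ - Ψ B W m ν + ∑ k ∈ range m, W (k + 1) * ((k + 1 : ℕ) * Real.log C)

/-- The pointwise consequences of the linear algebra. -/
theorem Out.sum [FiniteDimensional ℝ V] {B ν1 ν2 T μ : V → ℝ} {C De η : ℝ} {a : Fin m → ℕ}
    {W : ℕ → ℝ} (h : Out C De B ν1 ν2 μ T a) (hB : Hb B) (h1 : Hb ν1)
    (rk : Module.finrank ℝ V = m) (C1 : 1 ≤ C) (D0 : 0 ≤ De) (η0 : 0 ≤ η) (W0 : ∀ k, 0 ≤ W k)
    (Wa : Antitone W) (hW : ∀ k, 1 ≤ k → C * m * W (k + 1) ≤ η * W k) :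
    ∃ r : ℝ, 0 ≤ r ∧ W m * r ≤ gn B W m C ν1 μ ∧ ∑ i, (a i : ℝ) ≤ r + m * (C * (De + 1)) ∧
      Ψ B W m ν1 - Ψ B W m T ≤ η * gn B W m C ν1 μ +
        (∑ k ∈ range m, W (k + 1)) * (C * (m * (C * (De + 1)) + 1)) ∧
      gn B W m C ν1 μ ≤ Ψ B W m μ - Ψ B W m ν1 + (∑ k ∈ range m, W (k + 1)) * (m * C) ∧
      ∑ k ∈ range m, |sg B (k + 1) μ - sg B (k + 1) ν1| ≤ r + m * (m * C) ∧
      ∑ k ∈ range m, |sg B (k + 1) T - sg B (k + 1) ν1| ≤ m * (C * (∑ i, (a i : ℝ) + 1)) := by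
  have hμ := h.hm
  have hT := h.ht
  have L0 := Real.log_nonneg C1
  have L1 : ∀ k ∈ range m, ((k + 1 : ℕ) : ℝ) * Real.log C ≤ m * C := fun k hk =>
    mul_le_mul (by exact_mod_cast mem_range.1 hk) (Real.log_le_self (by linarith)) L0
      (Nat.cast_nonneg _)
  have r1 : ∀ k ≤ m, 0 ≤ sg B k μ - sg B k ν1 + k * Real.log C := fun k hk => by
    linarith [sg_le' hB hμ h1 rk hk (by linarith) fun x => (h.mu x).1]
  obtain ⟨s1, s2, s3⟩ := sumL (r := fun k => sg B k μ - sg B k ν1 + k * Real.log C)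
    (dr := fun k => sg B k ν1 - sg B k T) (a := a) (E := C * (De + 1)) (by linarith) (by positivity)
    η0 W0 Wa hW (by simp [rho_zero hμ hB, rho_zero h1 hB]) r1
    (fun k => by linarith [h.gain k, mul_nonneg (Nat.cast_nonneg (α := ℝ) k) L0]) h.drop
  have g : ∑ k ∈ range m, W (k + 1) * (sg B (k + 1) μ - sg B (k + 1) ν1 +
      (k + 1 : ℕ) * Real.log C) = gn B W m C ν1 μ := by
    simp only [gn, Ψ, mul_add, mul_sub, sum_add_distrib, sum_sub_distrib]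
  rw [g] at s1 s3
  refine ⟨_, sum_nonneg fun k hk => r1 _ (mem_range.1 hk), s3, s2, le_trans (le_of_eq ?_) s1,
    add_le_add_right ?_ _, ?_, ?_⟩
  · simp only [Ψ, mul_sub, sum_sub_distrib]
  · rw [sum_mul]
    exact sum_le_sum fun k hk => mul_le_mul_of_nonneg_left (L1 k hk) (W0 _)
  · refine (sum_le_sum (g := fun k => sg B (k + 1) μ - sg B (k + 1) ν1 + (k + 1 : ℕ) * Real.log C +
      m * C) fun k hk => ?_).trans_eq (by rw [sum_add_distrib]; simp)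
    have a1 := r1 _ (mem_range.1 hk)
    have a2 := L1 k hk
    have a3 := mul_nonneg (Nat.cast_nonneg (α := ℝ) (k + 1)) L0
    exact abs_le.2 ⟨by linarith, by linarith⟩
  · refine (sum_le_card_nsmul _ _ (C * (∑ i, (a i : ℝ) + 1)) fun k hk => ?_).trans_eq (by simp)
    have a1 := sg_le' hB h1 hT rk (mem_range.1 hk) one_pos fun x => by simpa using (h.le x).1
    have a2 := (h.drop ⟨k, mem_range.1 hk⟩).trans (mul_le_mul_of_nonneg_left (add_le_add_left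
      (sum_le_sum_of_subset_of_nonneg (subset_univ _) fun i _ _ => Nat.cast_nonneg _) 1)
      (by linarith))
    rw [Real.log_one, mul_zero, add_zero] at a1
    rw [abs_sub_comm, abs_of_nonneg (sub_nonneg.2 a1)]
    exact a2

theorem num {κ θ ε η Γ r A e Sw w G g g0 pμ pT pS pA dμ dT C m n d : ℝ} (C1 : 1 ≤ C) (m0 : 0 ≤ m)
    (n0 : 0 ≤ n) (d0 : 0 ≤ d) (κ0 : 0 ≤ κ) (θ0 : 0 ≤ θ) (ε0 : 0 ≤ ε) (η1 : η ≤ 1 / 2) (S0 : 0 ≤ Sw)
    (e1 : 1 ≤ e) (r0 : 0 ≤ r) (Γ0 : 0 ≤ Γ)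
    (hw : 4 * (1 + m * C + 5 * (4 * n + 1) * C) * (θ + ε) ≤ κ * w) (h1 : w * r ≤ Γ)
    (h2 : A ≤ r + m * (C * e)) (h3 : pS - pT ≤ η * Γ + Sw * (C * (m * (C * e) + 1)))
    (h4 : Γ ≤ pμ - pS + Sw * (m * C)) (h5 : pA - pS ≤ Sw * (2 * e)) (h6 : dμ ≤ r + m * (m * C))
    (h7 : dT ≤ m * (C * (A + 1))) (h8 : g ≤ g0 + (4 * n + 1) * (C * (A + 1)) + 2 * G + 2 * n * d + 3) :
    κ * Γ ≤ 4 * (κ * pμ - θ * dμ + (κ * pT - θ * dT) - κ * pS - κ * pA - 5 * ε * g) +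
      4 * ((m + 1) * (m * C) + 2 + (5 * (4 * n + 1) + m + 1) * (C * (m * C + 1)) + 10 * n * d + 15) *
        (κ * Sw + θ + ε) * e + 20 * ε * g0 + 40 * ε * G := by
  obtain ⟨c, hc⟩ : ∃ c, c = C * (m * C + 1) := ⟨_, rfl⟩
  have C0 : 0 ≤ C := by linarith
  have c0 : 0 ≤ c := by rw [hc]; positivity
  have u0 : 0 ≤ m * C := by positivity
  have x1 : C * (m * (C * e) + 1) ≤ c * e := by rw [hc]; nlinarith
  have x2 : C * (A + 1) ≤ C * r + c * e := by nlinarith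
  have x3 := mul_le_mul_of_nonneg_left (h7.trans (mul_le_mul_of_nonneg_left x2 m0)) θ0
  have x4 : g ≤ g0 + (4 * n + 1) * (C * r + c * e) + 2 * G + (2 * n * d + 3) * e := by
    have := mul_le_mul_of_nonneg_left x2 (show 0 ≤ 4 * n + 1 by positivity)
    have := le_mul_of_one_le_right (show 0 ≤ 2 * n * d + 3 by positivity) e1
    linarith
  have x5 := mul_le_mul_of_nonneg_left x4 ε0
  have x6 := mul_le_mul_of_nonneg_left (h6.trans (add_le_add_right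
    (le_mul_of_one_le_right (mul_nonneg m0 u0) e1) r)) θ0
  have x7 := mul_le_mul_of_nonneg_left (h3.trans (add_le_add (mul_le_mul_of_nonneg_right η1 Γ0)
    (mul_le_mul_of_nonneg_left x1 S0))) κ0
  have x8 := mul_le_mul_of_nonneg_left (h4.trans (add_le_add_right
    (le_mul_of_one_le_right (mul_nonneg S0 u0) e1) _)) κ0
  have x9 := mul_le_mul_of_nonneg_left h5 κ0
  have y1 := (mul_le_mul_of_nonneg_right hw r0).trans ((mul_assoc _ _ _).trans_le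
    (mul_le_mul_of_nonneg_left h1 κ0))
  have e0 : 0 ≤ e := by linarith
  have y2 : 0 ≤ (1 + m * C) * ε * r := by positivity
  have y3 : 0 ≤ (4 * n + 1) * C * θ * r := by positivity
  have y4 : 0 ≤ (m * (m * C) + (5 * (4 * n + 1) + m) * c + 10 * n * d + 15) * (κ * Sw) * e := by
    positivity
  have y5 : 0 ≤ (m * C + 2 + (5 * (4 * n + 1) + 1) * c + 10 * n * d + 15) * θ * e := by positivity
  have y6 : 0 ≤ ((m + 1) * (m * C) + 2 + (m + 1) * c) * ε * e := by positivity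
  rw [← hc]
  linarith

/-- No jump: the meet of an optimal label with a cheap label gains little. -/
theorem nj (m n d : ℕ) {C : ℕ} (C1 : 1 ≤ C) : ∃ C' : ℝ, 1 ≤ C' ∧ ∀ ε : ℝ, 0 < ε → ∃ K : ℝ, 0 ≤ K ∧
    ∀ {V Ω γ κ' X Λ Λ' : Type} {Ω' : ℕ → Type} [AddCommGroup V] [Module ℝ V]
      [FiniteDimensional ℝ V] (w : Lv V n Ω Ω' γ κ' X) (B : V → ℝ) (R : (V → ℝ) → (ℕ → ℝ) → (Fin m → ℕ) → V → ℝ)
      (Ls : (V → ℝ) → (ℕ → ℝ) → (Fin m → ℕ) → Finset (V → ℝ)) (W : ℕ → ℝ)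
      (dsp : (V → ℝ) → (V → ℝ) → ℝ) (η κ θ s β1 β2 Cc : ℝ) (g0 : ℕ) (S : Ω → Λ) (A : Ω → Λ')
      (νS νA : Ω → V → ℝ) (JS JA De G : Ω → ℝ) (cl : Ω → ℕ → ℝ),
      Module.finrank ℝ V = m → Module.finrank ℝ w.U = d → Hb B → (∀ ν cl a, (Ls ν cl a).card ≤ C) →
      (∀ (ν ν' : V → ℝ) (cl : ℕ → ℝ) (De : ℝ), Hb ν → Hb ν' → 0 ≤ De →
        (∀ k ≤ m, |sg B k ν - cl k| ≤ De ∧ |sg B k ν' - cl k| ≤ De) →
        ∃ a μ, R ν' cl a ∈ Ls ν cl a ∧ Out C De B ν ν' μ (R ν' cl a) a) →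
      (∀ k, 0 ≤ W k) → Antitone W → (∀ k, 1 ≤ k → C * m * W (k + 1) ≤ η * W k) → 0 ≤ η →
      η ≤ 1 / 2 → 0 ≤ κ → 0 ≤ θ → C' * (θ + ε) ≤ κ * W m →
      (∀ ν ν', Hb ν → Hb ν' → dsp ν ν' ≤ ∑ k ∈ range m, |sg B (k + 1) ν - sg B (k + 1) ν'|) →
      w.Low g0 (s - ε) (ch w.P S w.Z - w.P.E (fun ω => Real.log (JS ω)) -
        κ * w.P.E (fun ω => Ψ B W m (νS ω)) - β1) (fun ν ω => κ * Ψ B W m ν - θ * dsp ν (νS ω)) →
      w.Up (s + ε) Cc →
      Fn w.P (fun ω => (νS ω, JS ω)) (fun ω => (S ω, w.Z ω)) →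
      Fn w.P (fun ω => (νA ω, JA ω)) (fun ω => (A ω, w.Z ω)) → Fn w.P cl w.Z →
      (∀ ω ∈ w.P.S, w.Val (νS ω) ω ∧ w.Val (νA ω) ω ∧ w.VJ (νS ω) (JS ω) ω ∧ w.VJ (νA ω) (JA ω) ω ∧
        w.Tt (νS ω) (G ω) ω ∧
        ∀ k ≤ m, |sg B k (νS ω) - cl ω k| ≤ De ω ∧ |sg B k (νA ω) - cl ω k| ≤ De ω) →
      ch w.P A w.Z - w.P.E (fun ω => Real.log (JA ω)) - κ * w.P.E (fun ω => Ψ B W m (νA ω)) ≤
        ch w.P S w.Z - w.P.E (fun ω => Real.log (JS ω)) - κ * w.P.E (fun ω => Ψ B W m (νS ω)) + β2 →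
      ∃ (a : Ω → Fin m → ℕ) (μ : Ω → V → ℝ),
        Fn w.P (fun ω => (a ω, μ ω)) (fun ω => (νS ω, νA ω, cl ω)) ∧
        (∀ ω ∈ w.P.S, R (νA ω) (cl ω) (a ω) ∈ Ls (νS ω) (cl ω) (a ω) ∧
          Out C (De ω) B (νS ω) (νA ω) (μ ω) (R (νA ω) (cl ω) (a ω)) (a ω)) ∧
        κ * w.P.E (fun ω => gn B W m C (νS ω) (μ ω)) ≤ 8 * β1 + 4 * β2 + 8 * Cc + K +
          C' * (κ * ∑ k ∈ range m, W (k + 1) + θ + ε) * (w.P.E De + 1) + 20 * ε * g0 +
          40 * ε * w.P.E G := by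
  have C1' : (1 : ℝ) ≤ C := by exact_mod_cast C1
  obtain ⟨c1, h1⟩ : ∃ c : ℝ, c = 4 * (1 + m * C + 5 * (4 * n + 1) * C) := ⟨_, rfl⟩
  obtain ⟨c2, h2⟩ : ∃ c : ℝ, c = 4 * ((m + 1) * (m * C) + 2 + (5 * (4 * n + 1) + m + 1) *
    (C * (m * C + 1)) + 10 * n * (d + 2 * C) + 15) := ⟨_, rfl⟩
  have p1 : 0 ≤ c1 := by rw [h1]; positivity
  have p2 : 0 ≤ c2 := by rw [h2]; positivity
  refine ⟨1 + c1 + c2, by linarith, fun ε ε0 => ⟨8 * (C + n * d + 4) +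
    4 * (2 * ε + 4 * (m + 2) * (4 * (m + 2) / ε)), by positivity, ?_⟩⟩
  intro V Ω γ κ' X Λ Λ' Ω' _ _ _ w B R Ls W dsp η κ θ s β1 β2 Cc g0 S A νS νA JS JA De G cl rk rd hB
    hL lin W0 Wa hW η0 η1 κ0 θ0 hθ hd low up hS hA hc h hβ
  classical
  let de : (V → ℝ) × (V → ℝ) × (ℕ → ℝ) → ℝ := fun p => (range (m + 1)).sup' nonempty_range_add_one
    fun k => max |sg B k p.1 - p.2.2 k| |sg B k p.2.1 - p.2.2 k|
  have d1 : ∀ p, ∀ k ≤ m, |sg B k p.1 - p.2.2 k| ≤ de p ∧ |sg B k p.2.1 - p.2.2 k| ≤ de p :=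
    fun p k hk => max_le_iff.1 (le_sup' (fun k => max |sg B k p.1 - p.2.2 k| |sg B k p.2.1 - p.2.2 k|)
      (mem_range.2 (Nat.lt_succ_of_le hk)))
  have d0 : ∀ p, 0 ≤ de p := fun p => (abs_nonneg _).trans (d1 p 0 (Nat.zero_le _)).1
  choose! a μ k using fun p : (V → ℝ) × (V → ℝ) × (ℕ → ℝ) => fun h1 h2 =>
    lin p.1 p.2.1 p.2.2 (de p) h1 h2 (d0 p) (d1 p)
  let p : Ω → (V → ℝ) × (V → ℝ) × (ℕ → ℝ) := fun ω => (νS ω, νA ω, cl ω)
  have o : ∀ ω ∈ w.P.S, 0 ≤ De ω ∧ R (νA ω) (cl ω) (a (p ω)) ∈ Ls (νS ω) (cl ω) (a (p ω)) ∧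
      Out C (De ω) B (νS ω) (νA ω) (μ (p ω)) (R (νA ω) (cl ω) (a (p ω))) (a (p ω)) := fun ω hω => by
    obtain ⟨k1, k2, -, -, -, k6⟩ := h ω hω
    obtain ⟨u, v⟩ := k (p ω) k1.1 k2.1
    have e : de (p ω) ≤ De ω := sup'_le _ _ fun k hk =>
      max_le_iff.2 (k6 k (Nat.lt_succ_iff.1 (mem_range.1 hk)))
    exact ⟨(d0 _).trans e, u, v.hm, v.ht, v.le, v.up, v.mu, v.adm,
      fun k => (v.gain k).trans (by gcongr), v.drop, fun J a b k => (v.size J a b k).trans (by gcongr)⟩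
  refine ⟨fun ω => a (p ω), fun ω => μ (p ω), Fn.comp (fun q => (a q, μ q)) p,
    fun ω hω => (o ω hω).2, ?_⟩
  let D : Ω → ℝ := fun ω => C * (∑ i, (a (p ω) i : ℝ) + 1)
  let g : Ω → ℕ := fun ω => g0 + ⌈2 * (2 * n * (D ω + C) + G ω + n * d + 1) + D ω⌉₊
  have D0 : ∀ ω, ∑ i, (a (p ω) i : ℝ) + 1 ≤ D ω := fun ω =>
    le_mul_of_one_le_left (by positivity) C1'
  have D1 : ∀ ω, 0 ≤ D ω := fun ω => le_trans (by positivity) (D0 ω)
  have g1 : ∀ ω, 2 * (2 * n * (D ω + C) + G ω + n * d + 1) + D ω ≤ g ω := fun ω =>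
    (Nat.le_ceil _).trans (by simp only [g]; push_cast; linarith [Nat.cast_nonneg (α := ℝ) g0])
  have lC := Real.log_le_self (Nat.cast_nonneg C)
  have main := Lv.core (g := g) rd C1' low up (S := S) (A := A) (D := D) (G := G)
    (T := fun ω => R (νA ω) (cl ω) (a (p ω))) (μ := fun ω => μ (p ω)) (a := fun ω => a (p ω))
    (cL := C) hS hA (fun u hu v hv e => by
      simp only [Prod.mk.injEq] at e
      have e1 := congrArg Prod.fst (hS u hu v hv (Prod.ext e.1 e.2.2))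
      have e2 := congrArg Prod.fst (hA u hu v hv (Prod.ext e.2.1 e.2.2))
      exact congrArg μ (Prod.ext e1 (Prod.ext e2 (hc u hu v hv e.2.2))))
    ((ch_det (B := C) fun u hu => ⟨Ls (νS u) (cl u) (a (p u)), by exact_mod_cast hL _ _ _,
      fun v hv e => by
        simp only [Prod.mk.injEq] at e
        have e1 : νS v = νS u := congrArg Prod.fst (hS v hv u hu (Prod.ext e.2.1 e.2.2))
        rw [← e1, ← e.1, ← hc v hv u hu e.2.2]
        exact (o v hv).2.1⟩).trans lC)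
    ((ch_zero fun u hu v hv e => by
      simp only [Prod.mk.injEq] at e
      have e1 : νA u = νA v := congrArg Prod.fst (hA u hu v hv (Prod.ext e.2.1 e.2.2))
      simp only [e1, e.1, hc u hu v hv e.2.2]).trans_le (Nat.cast_nonneg _)) le_rfl fun ω hω => by
      obtain ⟨k1, k2, k3, k4, k5, -⟩ := h ω hω
      obtain ⟨-, -, v⟩ := o ω hω
      have G0 : 0 ≤ 2 * (2 * n * (D ω + C) + G ω + n * d + 1) := by
        have := D1 ω
        have := k5.1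
        positivity
      refine ⟨k1, k2, k3, k4, k5, v.ht, v.hm, D1 ω,
        fun x => ⟨(v.le x).1, (v.le x).2, (v.up x).1, (v.up x).2, (v.mu x).1.trans
          (mul_le_mul_of_nonneg_left (v.le x).1 (Nat.cast_nonneg _))⟩, v.adm, fun k => ?_,
        le_trans (le_add_of_nonneg_right (D1 ω)) (g1 ω), Nat.le_add_right _ _⟩
      have := single_le_sum (f := fun i => (a (p ω) i : ℝ)) (fun _ _ => Nat.cast_nonneg _)
        (mem_univ k)
      exact_mod_cast (show (a (p ω) k : ℝ) ≤ g ω by linarith [g1 ω, D0 ω])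
  have S0 : 0 ≤ ∑ k ∈ range m, W (k + 1) := sum_nonneg fun _ _ => W0 _
  have pw := w.P.E_mono fun ω hω => by
    obtain ⟨k1, k2, -, -, k5, k6⟩ := h ω hω
    obtain ⟨e0, -, v⟩ := o ω hω
    obtain ⟨r, r0, s1, s2, s3, s4, s5, s6⟩ := v.sum hB k1.1 rk C1' e0 η0 W0 Wa hW
    exact num (g := g ω) (g0 := g0) (G := G ω) (d := d + 2 * C) (n := n) (pA := Ψ B W m (νA ω)) C1'
      (Nat.cast_nonneg m) (Nat.cast_nonneg n) (by positivity) κ0 θ0 ε0.le η1 S0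
      (le_add_of_nonneg_left e0) r0 ((mul_nonneg (W0 m) r0).trans s1)
      (le_trans (mul_le_mul_of_nonneg_right (by linarith) (by linarith)) hθ) s1 s2 s3 s4
      (by
        rw [Ψ, Ψ, ← sum_sub_distrib, sum_mul]
        refine sum_le_sum fun k hk => ?_
        have b := k6 _ (mem_range.1 hk)
        rw [← mul_sub]
        exact mul_le_mul_of_nonneg_left (by linarith [abs_le.1 b.1, abs_le.1 b.2]) (W0 _))
      ((hd _ _ v.hm k1.1).trans s5) ((hd _ _ v.ht k1.1).trans s6) (by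
        have b := Nat.ceil_lt_add_one (show 0 ≤ 2 * (2 * n * (D ω + C) + G ω + n * d + 1) + D ω by
          have := D1 ω
          have := k5.1
          positivity)
        simp only [g]
        push_cast
        linarith)
  have g0' : 0 ≤ w.P.E fun ω => (g ω : ℝ) := w.P.E_nonneg fun _ _ => Nat.cast_nonneg _
  have lg : (m + 2) * (4 * Real.log (w.P.E (fun ω => (g ω : ℝ)) + 2)) ≤
      ε * w.P.E (fun ω => (g ω : ℝ)) + (2 * ε + 4 * (m + 2) * (4 * (m + 2) / ε)) := by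
    have q : (0 : ℝ) < 4 * (m + 2) / ε := by positivity
    have b1 := Real.log_le_self (show 0 ≤ (w.P.E (fun ω => (g ω : ℝ)) + 2) / (4 * (m + 2) / ε) by
      positivity)
    rw [Real.log_div (by positivity) q.ne'] at b1
    have b2 := mul_le_mul_of_nonneg_left (add_le_add b1 (Real.log_le_self q.le))
      (show (0 : ℝ) ≤ 4 * (m + 2) by positivity)
    have b3 : 4 * (m + 2) * ((w.P.E (fun ω => (g ω : ℝ)) + 2) / (4 * (m + 2) / ε)) =
        ε * (w.P.E (fun ω => (g ω : ℝ)) + 2) := by field_simp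
    rw [mul_add _ (_ / _), b3] at b2
    linarith
  have e0 : 0 ≤ w.P.E De := w.P.E_nonneg fun ω hω => (o ω hω).1
  have fin := mul_le_mul_of_nonneg_right (mul_le_mul_of_nonneg_right
    (show c2 ≤ 1 + c1 + c2 by linarith) (show 0 ≤ κ * ∑ k ∈ range m, W (k + 1) + θ + ε by positivity))
    (show 0 ≤ w.P.E De + 1 by linarith)
  rw [← h2] at pw
  simp only [w.P.E_add, w.P.E_sub, w.P.E_mul, w.P.E_const] at pw main
  linarith

end Pool.Agent.MP_5168f5_an.QA.NJ
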