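import Pool.Agent.MP_5168f5_an.QA.Spec1
import Pool.Agent.MP_5168f5_an.QA.Bd
import Pool.Agent.MP_5168f5_an.QA.NJSum

/-! An almost optimal label is close to the optimal one. -/

namespace Pool.Agent.MP_5168f5_an.QA

open H19 H17S H17F R4 AN Filter MvPolynomial Finset
open C1 (Hb Adm rho rMul rho_pos rho_zero)
open BdA (hb_Bn)

namespace NJ

variable {N D : ℕ} {Ω : Type}

/-- The value at a point. -/
noncomputable def evV (y : V (N + 1)) : VD N D →ₗ[ℝ] ℝ :=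
  (aeval y : MvPolynomial (Fin (N + 1)) ℝ →ₐ[ℝ] ℝ).toLinearMap ∘ₗ Submodule.subtype _

theorem evV_apply (y : V (N + 1)) (F : VD N D) : evV y F = eval y F.1 := rfl

/-- The Jacobian at a point as a multilinear map. -/
noncomputable def jcM (y : V (N + 1)) : MultilinearMap ℝ (fun _ : Fin (N + 1) => VD N D) ℝ :=
  Matrix.detRowAlternating.toMultilinearMap.compLinearMap fun _ => LinearMap.pi fun j =>
    (aeval y : MvPolynomial (Fin (N + 1)) ℝ →ₐ[ℝ] ℝ).toLinearMap ∘ₗ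
      (pderiv j : Derivation ℝ (MvPolynomial (Fin (N + 1)) ℝ) _).toLinearMap ∘ₗ Submodule.subtype _

theorem jcM_eq (y : V (N + 1)) (Φ : Ch N D) : |jcM y Φ| = jc Φ y := by
  rw [jc, Nc.eval_jac]; rfl

theorem jc_smul (Φ : Ch N D) (y : V (N + 1)) {s : ℝ} (hs : 0 ≤ s) :
    jc (fun i => s • Φ i) y = s ^ (N + 1) * jc Φ y := by
  rw [← jcM_eq, ← jcM_eq, (jcM y).map_smul_univ, Fin.prod_const, smul_eq_mul, abs_mul,
    abs_of_nonneg (by positivity)]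

/-- The charts of small degree. -/
noncomputable def UL (N E D : ℕ) : Submodule ℝ (VD N D) :=
  (restrictTotalDegree (Fin (N + 1)) ℝ E).comap (Submodule.subtype _)

theorem mem_UL {E : ℕ} {F : VD N D} : F ∈ UL N E D ↔ F.1.totalDegree ≤ E :=
  mem_restrictTotalDegree _ _ _

/-- The level `c`. -/
noncomputable def lvl (E D : ℕ) (P : FP Ω) (g : Sh N Ω) (M c : ℕ) :
    Lv (VD N D) (N + 1) Ω (NW Ω N) ℤ (Z (N + 1)) (V (N + 1)) where
  P := P
  Z := g.zc c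
  Q q := NQ P N q
  π _ := Prod.fst
  law _ := fun F => KGA.E_bind_fst P _ F
  y q u k v := fl k (uc u (vp g M c q v))
  seg ω x := x ∈ seg M c (g.l ω) (g.zc c ω) 5
  sj ω x := x ∈ seg M c (g.l ω) (g.zc c ω) 4
  ev := evV
  jc := jcM
  U := UL N E D
  VJ ν J ω := 0 < J ∧ ∃ Φ, (⟨ν, J, g.zc c ω⟩ : Dc N D).Wit M c (g.l ω) Φ
  pos _ _ _ h := h.1
  mk' _ _ _ Φ x _ _ _ h1 h2 h3 h4 _ := ⟨h1, Φ, h2, x, h3, jcM_eq x Φ ▸ h4⟩
  le _ _ _ _ _ _ := fun ⟨_, Φ, h2, x, h3, h4⟩ h => h4.trans (jcM_eq x Φ ▸ h Φ x h2 h3)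

theorem psi_eq (η : ℝ) {ν : VD N D → ℝ} (h : Hb ν) :
    Psi η ν = Ψ Bn (fun k => η ^ k) (dV N D) ν := by
  rw [Psi, sum_range_succ', QA.sg, rho_zero h hb_Bn]
  simp [Ψ, QA.sg]

theorem dsp_eq {ν ν' : VD N D → ℝ} (h : Hb ν) (h' : Hb ν') :
    dsp ν ν' = ∑ k ∈ range (dV N D), |sg Bn (k + 1) ν - sg Bn (k + 1) ν'| := by
  rw [dsp, pen, sum_range_succ', QA.sg, QA.sg, rho_zero h hb_Bn, rho_zero h' hb_Bn]
  simp [QA.sg]

theorem dsp_tri (ν ν' : VD N D → ℝ) (cen : ℕ → ℝ) : dsp ν ν' ≤ pen cen ν + pen cen ν' := by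
  rw [dsp, pen, pen, pen, ← sum_add_distrib]
  exact sum_le_sum fun k _ => (abs_sub_le _ (cen k) _).trans_eq (by rw [abs_sub_comm (cen k)])

/-- The gain of a refinement pays for the change of the spectrum. -/
theorem pay {η θ x : ℝ} (η0 : 0 < η) (η1 : η ≤ 1) (θ0 : 0 ≤ θ) (θ1 : θ ≤ η ^ dV N D) (x0 : 0 ≤ x)
    {ν ν' : VD N D → ℝ} (h : Hb ν) (h' : Hb ν') (e : ∀ F, ν' F ≤ Real.exp x * ν F) :
    Psi η ν + θ * dsp ν' ν ≤ Psi η ν' + 2 * (dV N D + 1) ^ 2 * x := by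
  have k : ∀ k ∈ range (dV N D + 1), η ^ k * QA.sg k ν + θ * |QA.sg k ν' - QA.sg k ν| ≤
      η ^ k * QA.sg k ν' + 2 * (dV N D + 1) * x := fun k hk => by
    have hk' := Nat.lt_succ_iff.1 (mem_range.1 hk)
    have a1 : QA.sg k ν ≤ QA.sg k ν' + k * x := by
      have := sg_le' hb_Bn h' h rfl hk' (Real.exp_pos x) e
      rwa [Real.log_exp] at this
    have a2 : (k : ℝ) * x ≤ (dV N D + 1) * x :=
      mul_le_mul_of_nonneg_right (by exact_mod_cast hk'.trans (Nat.le_succ _)) x0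
    have a3 := θ1.trans (pow_le_pow_of_le_one η0.le η1 hk')
    have a4 : η ^ k ≤ 1 := pow_le_one₀ η0.le η1
    have a5 : 0 ≤ (k : ℝ) * x := by positivity
    have a6 := mul_le_mul a3 (show |QA.sg k ν' - QA.sg k ν| ≤ QA.sg k ν' - QA.sg k ν + 2 * (k * x)
      from abs_le.2 ⟨by linarith, by linarith⟩) (abs_nonneg _) (by positivity)
    nlinarith
  have := sum_le_sum k
  rw [sum_add_distrib, sum_add_distrib, ← mul_sum, sum_const, card_range, nsmul_eq_mul] at this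
  push_cast at this
  unfold Psi dsp pen
  linarith

theorem sg_mt {ν ν' μ : VD N D → ℝ} (h : Hb ν) (h' : Hb ν') (hμ : Hb μ) {C : ℝ} (hC : 0 < C)
    (e : ∀ x, μ x ≤ C * ν x ∧ μ x ≤ C * ν' x) {k : ℕ} (hk : k ≤ dV N D) :
    QA.sg k (mt ν ν') ≤ QA.sg k μ + k * Real.log C := by
  have ne : ∀ F, {r | ∃ φ : VD N D →ₗ[ℝ] ℝ, Adm ν φ ∧ Adm ν' φ ∧ r = |φ F|}.Nonempty := fun F =>
    ⟨_, 0, fun x => by simpa using h.nonneg x, fun x => by simpa using h'.nonneg x, rfl⟩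
  have m1 : ∀ F, mt ν ν' F ≤ ν F := fun F => csSup_le (ne F) (by rintro _ ⟨φ, a, -, rfl⟩; exact a F)
  have m0 : ∀ F, 0 ≤ mt ν ν' F := fun F =>
    Real.sSup_nonneg (by rintro _ ⟨φ, -, -, rfl⟩; exact abs_nonneg _)
  have m2 : ∀ F, μ F ≤ C * mt ν ν' F := fun F => by
    obtain ⟨φ, u, v⟩ := hμ.dual F
    have k : ∀ N' : VD N D → ℝ, (∀ y, μ y ≤ C * N' y) → Adm N' (C⁻¹ • φ) := fun N' q y => by
      rw [LinearMap.smul_apply, smul_eq_mul, abs_mul, abs_of_pos (inv_pos.2 hC), inv_mul_le_iff₀ hC]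
      exact (u y).trans (q y)
    have : |(C⁻¹ • φ) F| ≤ mt ν ν' F := le_csSup ⟨ν F, by rintro _ ⟨φ, a, -, rfl⟩; exact a F⟩
      ⟨_, k ν fun y => (e y).1, k ν' fun y => (e y).2, rfl⟩
    rw [LinearMap.smul_apply, smul_eq_mul, abs_mul, abs_of_pos (inv_pos.2 hC),
      inv_mul_le_iff₀ hC, v] at this
    exact (le_abs_self _).trans this
  have r0 := C1.C1TwoA.rho_nonneg (k := 1) h hb_Bn
  have r1 : 0 ≤ rho k (mt ν ν') Bn := Real.sSup_nonneg (by
    rintro _ ⟨v, rfl⟩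
    exact div_nonneg (C1.vol_nonneg m0 v) (C1.vol_nonneg hb_Bn.nonneg v))
  have a : rho k μ Bn ≤ C ^ k * rho k (mt ν ν') Bn :=
    C1.rho_le hb_Bn.nonneg (by positivity) fun v => (C1.vol_mono hμ.nonneg hC m2 v).trans (by
      rw [mul_assoc]
      exact mul_le_mul_of_nonneg_left (C1.le_rho' m0 hb_Bn.nonneg (C := rho 1 ν Bn + 1)
        (by linarith) (fun x => ((m1 x).trans (le_rho1 h hb_Bn x)).trans
          (mul_le_mul_of_nonneg_right (by linarith) (hb_Bn.nonneg x))) v) (by positivity))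
  have p := rho_pos hμ hb_Bn rfl hk
  have b := Real.log_le_log p a
  rw [Real.log_mul (by positivity) (pos_of_mul_pos_left (p.trans_le a) (by positivity) |>
    fun _ => fun e0 => by rw [e0, mul_zero] at a; exact p.not_ge a), Real.log_pow] at b
  unfold QA.sg
  linarith

theorem gn_le {η C : ℝ} (η0 : 0 ≤ η) {ν ν' μ : VD N D → ℝ} (h : Hb ν) (h' : Hb ν') (hμ : Hb μ)
    (hC : 0 < C) (e : ∀ x, μ x ≤ C * ν x ∧ μ x ≤ C * ν' x) :
    QA.gn η ν ν' ≤ gn Bn (fun k => η ^ k) (dV N D) C ν μ := by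
  have a := sum_range_succ' (fun k => η ^ k * (QA.sg k μ - QA.sg k ν + k * Real.log C)) (dV N D)
  have b := mul_nonneg (pow_nonneg η0 (dV N D)) (show 0 ≤ QA.sg (dV N D) μ - QA.sg (dV N D) ν +
    dV N D * Real.log C by
      linarith [show QA.sg (dV N D) ν ≤ QA.sg (dV N D) μ + dV N D * Real.log C from
        sg_le' hb_Bn hμ h rfl le_rfl hC fun x => (e x).1])
  have c : QA.gn η ν ν' ≤ ∑ k ∈ range (dV N D), η ^ k * (QA.sg k μ - QA.sg k ν + k * Real.log C) :=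
    sum_le_sum fun k hk => mul_le_mul_of_nonneg_left
      (by linarith [sg_mt h h' hμ hC e (mem_range.1 hk).le]) (pow_nonneg η0 k)
  rw [sum_range_succ] at a
  simp only [QA.sg, rho_zero hμ hb_Bn, rho_zero h hb_Bn, mul_add, mul_sub, sum_add_distrib,
    sum_sub_distrib] at a b c
  simp only [gn, Ψ, sg]
  simp only [Nat.cast_zero, zero_mul, mul_zero, sub_self, add_zero] at a
  linarith

theorem ds_le {ν ν' : VD N D → ℝ} (h : Hb ν) (h' : Hb ν') {r : ℝ}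
    (e : ∀ x, ν x ≤ Real.exp r * ν' x ∧ ν' x ≤ Real.exp r * ν x) (r0 : 0 ≤ r) : ds ν ν' ≤ r := by
  have k : ∀ {a b : VD N D → ℝ}, Hb a → Hb b → (∀ x, a x ≤ Real.exp r * b x) →
      Real.log (rho 1 a b) ≤ r := fun ha hb e => by
    rcases (C1.C1TwoA.rho_nonneg (k := 1) ha hb).eq_or_lt with z | z
    · rw [← z, Real.log_zero]; exact r0
    · rw [Real.log_le_iff_le_exp z, ← pow_one (Real.exp r)]
      exact ((rMul _ _ _ _ 1 ha hb ha).2.2 _ (Real.exp_pos r) e).1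
  exact max_le (k h h' fun x => (e x).1) (k h' h fun x => (e x).2)

variable {E E' : ℕ} {P : FP Ω} {g : Sh N Ω} {M c : ℕ} {η θ e : ℝ} {S A : Ω → Dc N D}

theorem up (h : CNT N D) : ∃ C : ℝ, 0 ≤ C ∧ ∀ (Ω : Type) (P : FP Ω) (g : Sh N Ω) (M c : ℕ)
    (s : ℝ), g.Box P → (N + 1) * lg ≤ s → (lvl E D P g M c).Up s C := by
  obtain ⟨C, C0, hC⟩ := h
  refine ⟨C, C0, fun Ω P g M c s box hs q Λ T ν J u m La hf h => ?_⟩
  have := hC Ω Λ P g M c c q T (fun ω => ⟨ν ω, J ω, g.zc c ω⟩) u m La box le_rfl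
    (fun ω hω => ⟨rfl, (h ω hω).1.1, (h ω hω).2.1.1, (h ω hω).1.2, (h ω hω).2.1.2⟩)
    (fun a ha b hb e => by
      have e1 := hf a ha b hb e
      have e2 : g.zc c a = g.zc c b := congrArg Prod.snd e
      simp only [Prod.mk.injEq] at e1
      simp only [e1, e2]) fun ω hω => by
      obtain ⟨k1, -, k3, k4, k5, k6⟩ := h ω hω
      exact ⟨k4, k6, fun y hy => ⟨(pi_norm_le_iff_of_nonneg zero_le_one).2 fun i =>
        (k1.2 y (BdA.seg_mono (by norm_num) hy) _).trans (k3 i).2,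
        jcM_eq y _ ▸ k5 y (BdA.seg_mono (by norm_num) hy)⟩⟩
  have m0 := mul_le_mul_of_nonneg_right hs
    (P.E_nonneg (F := fun ω => (m ω : ℝ)) fun _ _ => Nat.cast_nonneg _)
  rw [gap, sub_self, mul_zero, zero_mul, P.E_sub] at this
  change ch (NQ P N q) (cub g M c q u m) (fun v => g.cx c T v.1) ≤ P.E _ + C
  simp only [P.E_sub, P.E_add, P.E_mul]
  linarith

theorem low (h : FILL N E E' D) {ε : ℝ} (ε0 : 0 < ε) : ∃ g0 : ℕ, ∀ (Ω : Type) (P : FP Ω)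
    (g : Sh N Ω) (M c : ℕ) (η θ e : ℝ) (S : Ω → Dc N D), 0 < η → η ≤ 1 → 0 ≤ θ → θ ≤ η ^ dV N D →
    g.Box P → Val P g M c S → Opd η θ P g M c S e →
    (lvl E D P g M c).Low g0 ((N + 1) * lg - (1 + 2 * (dV N D + 1) ^ 2) * ε) (cst η P g c S - e)
      fun ν ω => 1 * Ψ Bn (fun k => η ^ k) (dV N D) ν - θ * dsp ν (S ω).ν := by
  obtain ⟨g0, hC⟩ := h ε ε0
  refine ⟨g0, fun Ω P g M c η θ e S η0 η1 θ0 θ1 box vS opt Λ T ν u m la hf h => ?_⟩
  filter_upwards [hC Ω Λ P g M c T (fun ω => ⟨ν ω, la ω, g.zc c ω⟩) u m box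
    (fun ω hω => by
      obtain ⟨k1, k2, -, k4, x, k5, k6⟩ := h ω hω
      exact ⟨rfl, k1.1, k4, k1.2, u ω, fun i => (k2 i).2, x, k5, jcM_eq x _ ▸ k6⟩)
    (fun a ha b hb e => by
      have e1 := hf a ha b hb e
      have e2 : g.zc c a = g.zc c b := congrArg Prod.snd e
      simp only [Prod.mk.injEq] at e1
      simp only [e1, e2]) fun ω hω => by
      obtain ⟨-, k2, k3, -, x, k5, k6⟩ := h ω hω
      exact ⟨k3, fun i => mem_UL.1 (k2 i).1, fun i => (k2 i).2, x, k5, jcM_eq x _ ▸ k6⟩]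
    with q ⟨W, Q, π, K, law, vK, hK, fin⟩
  have o := opt W Q π 1 K (K31.dn_law law) vK
  have a1 : cst η Q (g.pull π) c (fun v => S (π v)) = cst η P g c S := by
    unfold cst
    rw [← law.ch_id S (g.zc c), law fun ω => sco η (S ω)]
    rfl
  have a2 : ch Q K ((g.pull π).zc c) ≤ ch Q (fun v => (K v, T (π v))) ((g.pull π).zc c) :=
    ch_mono ((Fn.fst _ _).left _)
  have a3 := Q.E_mono (F := fun v => Ψ Bn (fun k => η ^ k) (dV N D) (ν (π v)) -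
      θ * dsp (ν (π v)) (S (π v)).ν - 2 * (dV N D + 1) ^ 2 * ε * m (π v))
    (G := fun v => Psi η (K v).ν - θ * dsp (K v).ν (S (π v)).ν) fun v hv => by
      have k1 := (h _ (law.mem hv)).1.1
      have b1 := pay η0 η1 θ0 θ1 (by positivity) k1 (vK v hv).2.hb (hK v hv).2
      have b2 : dsp (K v).ν (S (π v)).ν ≤ dsp (K v).ν (ν (π v)) + dsp (ν (π v)) (S (π v)).ν := by
        unfold dsp pen
        rw [← sum_add_distrib]
        exact sum_le_sum fun k _ => abs_sub_le _ _ _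
      have b3 := mul_le_mul_of_nonneg_left b2 θ0
      rw [psi_eq η k1] at b1
      linarith
  rw [law fun ω => Ψ Bn (fun k => η ^ k) (dV N D) (ν ω) - θ * dsp (ν ω) (S ω).ν -
    2 * (dV N D + 1) ^ 2 * ε * m ω] at a3
  have a4 : ch (NQ P N q) (fun v => (T v.1, cub g M c q u m v)) (fun v => g.zc c v.1) =
      ch P T (g.zc c) + ch (NQ P N q) (cub g M c q u m) fun v => g.cx c T v.1 := by
    rw [ch_chain]
    exact congrArg (· + _) (((lvl E D P g M c).law q).ch_id T (g.zc c))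
  change _ ≤ ch (NQ P N q) (fun v => (T v.1, cub g M c q u m v)) (fun v => g.zc c v.1) - P.E _
  rw [a1, Real.log_one, cst, cst] at o
  rw [a4, cst]
  simp only [gap, sco, id, FP.E_sub, FP.E_add, FP.E_mul] at *
  linarith

/-- An almost optimal label cannot declare much less than it could. -/
theorem rais {b : ℝ} (vA : Val P g M c A) (opt : Opd η θ P g M c S e)
    (hb : cst η P g c A ≤ cst η P g c S + b) (i : Ω → ℕ)
    (hi : ∀ ω ∈ P.S, ∃ Φ, (⟨(A ω).ν, (A ω).J * Real.exp (i ω), (A ω).h⟩ : Dc N D).Wit M c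
      (g.l ω) Φ) : P.E (fun ω => (i ω : ℝ)) ≤
        2 * (b + e + θ * P.E fun ω => dsp (A ω).ν (S ω).ν) + 4 := by
  have o := opt Ω P id 1 (fun ω => ⟨(A ω).ν, (A ω).J * Real.exp (i ω), (A ω).h⟩) (K31.dn_rfl P)
    fun ω hω => ⟨(vA ω hω).1, (vA ω hω).2.hb, mul_pos (vA ω hω).2.pos (Real.exp_pos _),
      (vA ω hω).2.bd, hi ω hω⟩
  have a1 : ch P (fun ω => (⟨(A ω).ν, (A ω).J * Real.exp (i ω), (A ω).h⟩ : Dc N D)) (g.zc c) ≤
      ch P A (g.zc c) + hh P i := ((ch_mono (F' := fun ω => (A ω, i ω)) fun a _ b _ e => by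
    simp only [Prod.mk.injEq] at e; simp only [e]).trans (ch_subadd _ _ _)).trans
      (add_le_add le_rfl (ch_le_hh _ _))
  have a2 : P.E (fun ω => sco η ⟨(A ω).ν, (A ω).J * Real.exp (i ω), (A ω).h⟩) =
      P.E fun ω => sco η (A ω) + i ω := P.E_congr fun ω hω => by
    simp only [sco]
    rw [Real.log_mul (vA ω hω).2.pos.ne' (Real.exp_pos _).ne', Real.log_exp]
    ring
  have a3 := MX.hh_nat (P := P) i le_rfl
  have a4 : 0 ≤ P.E fun ω => (i ω : ℝ) := P.E_nonneg fun _ _ => Nat.cast_nonneg _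
  have a5 := Real.log_le_sub_one_of_pos (show 0 < (P.E (fun ω => (i ω : ℝ)) + 2) / 2 ^ 2 by positivity)
  rw [Real.log_div (by positivity) (by positivity), Real.log_pow] at a5
  change cst η P g c S ≤ ch P _ (g.zc c) - P.E _ + θ * P.E (fun ω => dsp (A ω).ν (S ω).ν) +
    Real.log 1 + e at o
  rw [a2, P.E_add, Real.log_one] at o
  unfold cst at hb o
  push_cast at a5
  linarith [Real.log_two_lt_d9]

end NJ

open NJ in
theorem ofNJ : OfNJ := by
  intro N E E' D _ cnt fill ⟨Ct, t1, tig⟩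
  obtain ⟨C, C1, lin⟩ := njLin (dV N D)
  obtain ⟨R, Ls, hL, lin⟩ := lin (VD N D) Bn rfl hb_Bn
  obtain ⟨Cn, n1, hn⟩ := nj (dV N D) (N + 1) (Module.finrank ℝ (UL N E D)) C1
  obtain ⟨Cc, c0, hc⟩ := up (E := E) cnt
  obtain ⟨m, hm⟩ : ∃ m : ℝ, m = dV N D := ⟨_, rfl⟩
  have m0 : 0 ≤ m := hm ▸ Nat.cast_nonneg _
  have C1' : (1 : ℝ) ≤ C := by exact_mod_cast C1
  have q1 : 0 ≤ C * m := by positivity
  have q2 : 0 ≤ Cn * m := by positivity
  refine ⟨Ct + 2 * (C * m) + 4 + Cn * (m + 2), by linarith, fun η θ par => ?_⟩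
  obtain ⟨C', c1, tig⟩ := tig η θ (par.mono (by linarith))
  obtain ⟨η0, η1, θ0, θ1⟩ := par
  have η2 : η ≤ 1 := by nlinarith
  have w0 : 0 < η ^ dV N D := by positivity
  have w1 : η ^ dV N D ≤ 1 := pow_le_one₀ η0.le η2
  have θ2 : 2 * Cn * θ ≤ η ^ dV N D := le_trans (mul_le_mul_of_nonneg_right (by linarith) θ0) θ1
  have θ3 : θ ≤ η ^ dV N D / 2 := by nlinarith
  obtain ⟨ε, hε⟩ : ∃ ε, ε = η ^ dV N D / (2 * Cn) := ⟨_, rfl⟩
  have ε0 : 0 < ε := by rw [hε]; positivity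
  have ε1 : 2 * Cn * ε = η ^ dV N D := by rw [hε]; field_simp
  have ε2 : ε ≤ 1 / 2 := by nlinarith
  obtain ⟨K, K0, hn⟩ := hn ε ε0
  obtain ⟨g0, lw⟩ := low fill (ε := ε / (1 + 2 * (dV N D + 1) ^ 2)) (by positivity)
  rw [mul_div_cancel₀ _ (by positivity)] at lw
  obtain ⟨c2, h2⟩ : ∃ c : ℝ, c = 8 + 8 * Cc + K + Cn * (m + 1) + 10 * g0 + 40 * C' := ⟨_, rfl⟩
  obtain ⟨c3, h3⟩ : ∃ c : ℝ, c = (N + 2) * (C * ((4 + Cn * (m + 1) + c2) / η ^ dV N D + m * C + 1)) +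
    C' + 7 := ⟨_, rfl⟩
  have p2 : 0 ≤ c2 := by rw [h2]; positivity
  have p3 : 0 ≤ c3 := by rw [h3]; positivity
  refine ⟨c2 + c3, by linarith, fun Ω P g M c S A cen e b box hM vS vA e0 b0 opt hb => ?_⟩
  obtain ⟨G, hG, eG⟩ := tig Ω P g M c S e box hM vS e0 opt
  have pn : ∀ (ν : VD N D → ℝ), ∀ k ≤ dV N D, |QA.sg k ν - cen k| ≤ pen cen ν := fun ν k hk =>
    single_le_sum (f := fun k => |QA.sg k ν - cen k|) (fun _ _ => abs_nonneg _)
      (mem_range.2 (Nat.lt_succ_of_le hk))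
  have p0 : ∀ ν : VD N D → ℝ, 0 ≤ pen cen ν := fun ν => sum_nonneg fun _ _ => abs_nonneg _
  have cs : ∀ A : Ω → Dc N D, Val P g M c A → cst η P g c A = ch P A (g.zc c) -
      P.E (fun ω => Real.log (A ω).J) -
      1 * P.E fun ω => Ψ Bn (fun k => η ^ k) (dV N D) (A ω).ν := fun A v => by
    rw [cst, one_mul, sub_sub, ← P.E_add]
    exact congrArg _ (P.E_congr fun ω hω => by rw [sco, psi_eq η (v ω hω).2.hb])
  have vl : ∀ A : Ω → Dc N D, Val P g M c A → ∀ ω ∈ P.S, (lvl E D P g M c).Val (A ω).ν ω ∧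
      (lvl E D P g M c).VJ (A ω).ν (A ω).J ω := fun A v ω hω => by
    obtain ⟨h1, h2, h3, h4, h5⟩ := v ω hω
    rw [h1] at h4
    unfold Dc.Wit at h5
    rw [h1] at h5
    exact ⟨⟨h2, h4⟩, h3, h5⟩
  have W0 : ∀ k : ℕ, 0 ≤ η ^ k := fun k => by positivity
  have Wa : Antitone fun k : ℕ => η ^ k := fun _ _ h => pow_le_pow_of_le_one η0.le η2 h
  have hW : ∀ k : ℕ, 1 ≤ k → (C : ℝ) * dV N D * η ^ (k + 1) ≤ C * m * η * η ^ k := fun k _ => by
    rw [hm]; exact le_of_eq (by ring)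
  obtain ⟨a, μ, -, o, fin⟩ := hn (lvl E D P g M c) Bn R Ls (fun k => η ^ k) dsp (C * m * η) 1 θ
    ((N + 1) * lg) e b Cc g0 S A (fun ω => (S ω).ν) (fun ω => (A ω).ν) (fun ω => (S ω).J)
    (fun ω => (A ω).J) (fun ω => pen cen (S ω).ν + pen cen (A ω).ν) (fun ω => 2 * G ω)
    (fun _ => cen) rfl rfl hb_Bn hL lin W0 Wa hW (by positivity) (by nlinarith) zero_le_one θ0
    (by linarith) (fun ν ν' h h' => (dsp_eq h h').le)
    (cs S vS ▸ lw Ω P g M c η θ e S η0 η2 θ0 (by linarith) box vS opt)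
    (hc Ω P g M c _ box (by linarith)) ((Fn.comp (fun δ : Dc N D => (δ.ν, δ.J)) S).left _)
    ((Fn.comp (fun δ : Dc N D => (δ.ν, δ.J)) A).left _) (fun _ _ _ _ _ => rfl) (fun ω hω => by
      obtain ⟨G0, k1, Φ, k2, k3, y, k4, k5⟩ := hG ω hω
      unfold Dc.Tight at k1
      rw [(vS ω hω).1] at k1 k4
      refine ⟨(vl S vS ω hω).1, (vl A vA ω hω).1, (vl S vS ω hω).2, (vl A vA ω hω).2,
        ⟨by linarith, Φ, y, fun i => ⟨mem_UL.2 (k2 i), k3 i⟩, k4, fun Φ' x h hx => ?_⟩,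
        fun k hk => ⟨(pn _ k hk).trans (le_add_of_nonneg_right (p0 _)),
          (pn _ k hk).trans (le_add_of_nonneg_left (p0 _))⟩⟩
      change |jcM x Φ'| ≤ _ * |jcM y Φ|
      rw [jcM_eq, jcM_eq, two_mul, Real.exp_add, mul_assoc]
      exact (k1 Φ' h x (BdA.seg_mono (by norm_num) hx)).trans
        (mul_le_mul_of_nonneg_left k5 (Real.exp_pos _).le))
    (by
      have := hb
      rw [cs S vS, cs A vA] at this
      exact this)
  change ∀ ω ∈ P.S, _ at o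
  change 1 * P.E _ ≤ _ + _ * (P.E _ + 1) + _ + _ * P.E _ at fin
  obtain ⟨De, hD⟩ : ∃ x, x = P.E fun ω => pen cen (S ω).ν + pen cen (A ω).ν := ⟨_, rfl⟩
  have D0 : 0 ≤ De := hD ▸ P.E_nonneg fun ω _ => add_nonneg (p0 _) (p0 _)
  have Sw : ∑ k ∈ range (dV N D), η ^ (k + 1) ≤ m := (sum_le_card_nsmul _ _ 1 fun k _ =>
    pow_le_one₀ η0.le η2).trans_eq (by simp [hm])
  have G0 : 0 ≤ P.E G := P.E_nonneg fun ω hω => (hG ω hω).1
  have gn1 : P.E (fun ω => NJ.gn Bn (fun k => η ^ k) (dV N D) C (S ω).ν (μ ω)) ≤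
      4 * b + Cn * (m + 1) * De + c2 * (1 + e) := by
    rw [← hD, P.E_mul] at fin
    have x1 := mul_le_mul_of_nonneg_right (mul_le_mul_of_nonneg_left (show
      1 * ∑ k ∈ range (dV N D), η ^ (k + 1) + θ + ε ≤ m + 1 by linarith) (by linarith : 0 ≤ Cn))
      (show 0 ≤ De + 1 by linarith)
    have x2 := mul_le_mul_of_nonneg_right ε2 (Nat.cast_nonneg (α := ℝ) g0)
    have x3 := mul_le_mul_of_nonneg_right ε2 G0
    have x4 : 0 ≤ (8 * Cc + K + Cn * (m + 1) + 10 * g0) * e := by positivity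
    rw [h2]
    linarith
  rw [← hD]
  constructor
  · have x1 := P.E_mono fun ω hω => gn_le η0.le (vS ω hω).2.hb (vA ω hω).2.hb (o ω hω).2.hm
      (by linarith) (o ω hω).2.mu
    have x2 : 0 ≤ (Ct + 2 * (C * m) + Cn * (m + 2)) * b := by positivity
    have x3 : 0 ≤ (Ct + 2 * (C * m) + 4 + Cn) * De := by positivity
    have x4 : 0 ≤ c3 * (1 + e) := by positivity
    linarith
  let r : Ω → ℝ := fun ω => C * (∑ i, (a ω i : ℝ) + 1)
  have r0 : ∀ ω, 0 ≤ r ω := fun ω => by positivity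
  have nr : ∀ ω ∈ P.S, ∀ x, (S ω).ν x ≤ Real.exp (r ω) * (A ω).ν x ∧
      (A ω).ν x ≤ Real.exp (r ω) * (S ω).ν x := fun ω hω x =>
    ⟨((o ω hω).2.le x).1.trans ((o ω hω).2.up x).2, ((o ω hω).2.le x).2.trans ((o ω hω).2.up x).1⟩
  have sc : ∀ {ν ν' : VD N D → ℝ} {s : ℝ} {Φ : Ch N D}, Hb ν' → (∀ x, ν' x ≤ Real.exp s * ν x) →
      Un ν Φ → Un ν' (fun i => Real.exp (-s) • Φ i) ∧ ∀ y, jc (fun i => Real.exp (-s) • Φ i) y =
        Real.exp (-((N + 1) * s)) * jc Φ y := fun {ν ν' s Φ} h e u => ⟨fun i => by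
      rw [h.smul, abs_of_pos (Real.exp_pos _), Real.exp_neg, inv_mul_le_iff₀ (Real.exp_pos _)]
      exact (e _).trans (mul_le_mul_of_nonneg_left (u i) (Real.exp_pos _).le), fun y => by
      rw [jc_smul _ _ (Real.exp_pos _).le, ← Real.exp_nat_mul]
      push_cast
      rw [mul_neg]⟩
  let i : Ω → ℕ := fun ω => ⌊Real.log (S ω).J - (N + 1) * r ω - Real.log (A ω).J⌋₊
  have ei := rais vA opt hb i fun ω hω => by
    rcases le_total 0 (Real.log (S ω).J - (N + 1) * r ω - Real.log (A ω).J) with z | z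
    · obtain ⟨Φ, u, y, hy, k⟩ := (vS ω hω).2.wit
      obtain ⟨s1, s2⟩ := sc (vA ω hω).2.hb (fun x => (nr ω hω x).2) u
      refine ⟨_, s1, y, by rwa [(vS ω hω).1, ← (vA ω hω).1] at hy, ?_⟩
      rw [s2]
      refine le_trans ?_ (mul_le_mul_of_nonneg_left k (Real.exp_pos _).le)
      change (A ω).J * _ ≤ _
      rw [← Real.exp_log (vA ω hω).2.pos, ← Real.exp_log (vS ω hω).2.pos, ← Real.exp_add,
        ← Real.exp_add, Real.exp_le_exp]
      linarith [Nat.floor_le z]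
    · simpa only [i, Nat.floor_of_nonpos z, Nat.cast_zero, Real.exp_zero, mul_one] using
        (vA ω hω).2.wit
  have x1 := P.E_mono (F := fun ω => ds (S ω).ν (A ω).ν + |Real.log (S ω).J - Real.log (A ω).J|)
    (G := fun ω => (N + 2) * (C * ((η ^ dV N D)⁻¹ *
      NJ.gn Bn (fun k => η ^ k) (dV N D) C (S ω).ν (μ ω) +
      m * C * (pen cen (S ω).ν + pen cen (A ω).ν) + (m * C + 1))) + G ω + i ω + 1) fun ω hω => by
    obtain ⟨ρ, -, s1, s2, -⟩ := (o ω hω).2.sum hb_Bn (vS ω hω).2.hb rfl C1'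
      (add_nonneg (p0 _) (p0 _)) (by positivity) W0 Wa hW
    rw [← le_inv_mul_iff₀ w0] at s1
    rw [← hm] at s2
    have y1 : r ω ≤ _ := mul_le_mul_of_nonneg_left (add_le_add_left (s2.trans (add_le_add_left s1 _)) 1)
      (Nat.cast_nonneg C)
    have y2 := mul_le_mul_of_nonneg_left y1 (show (0 : ℝ) ≤ N + 2 by positivity)
    have y3 := ds_le (vS ω hω).2.hb (vA ω hω).2.hb (nr ω hω) (r0 ω)
    have y4 := Nat.lt_floor_add_one (Real.log (S ω).J - (N + 1) * r ω - Real.log (A ω).J)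
    obtain ⟨Φ, u, y, hy, k⟩ := (vA ω hω).2.wit
    obtain ⟨t1, t2⟩ := sc (vS ω hω).2.hb (fun x => (nr ω hω x).1) u
    have y5 := (hG ω hω).2.1 _ t1 y (BdA.seg_mono (r := 4) (by norm_num)
      (by rwa [(vA ω hω).1, ← (vS ω hω).1] at hy))
    rw [t2] at y5
    have y6 := (mul_le_mul_of_nonneg_left k (Real.exp_pos _).le).trans y5
    rw [← Real.exp_log (vA ω hω).2.pos, ← Real.exp_log (vS ω hω).2.pos, ← Real.exp_add,
      ← Real.exp_add, Real.exp_le_exp] at y6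
    have y7 : |Real.log (S ω).J - Real.log (A ω).J| ≤ (N + 1) * r ω + G ω + i ω + 1 :=
      abs_le.2 ⟨by linarith [Nat.cast_nonneg (α := ℝ) (i ω)], by linarith [(hG ω hω).1]⟩
    linarith
  have x2 : θ * P.E (fun ω => dsp (A ω).ν (S ω).ν) ≤ De := by
    have := P.E_mono fun ω (_ : ω ∈ P.S) => (dsp_tri (A ω).ν (S ω).ν cen).trans_eq (add_comm _ _)
    rw [← hD] at this
    exact (mul_le_mul_of_nonneg_left this θ0).trans (mul_le_of_le_one_left D0 (by linarith))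
  simp only [P.E_add (fun ω => _ + G ω + i ω), P.E_add (fun ω => _ + G ω), P.E_add _ G, P.E_mul,
    P.E_const, P.E_add _ fun _ => m * C + 1, P.E_add fun ω => (η ^ dV N D)⁻¹ * _] at x1
  rw [← hD] at x1
  obtain ⟨X, hX⟩ : ∃ X, X = 1 + e + b + De := ⟨_, rfl⟩
  have X1 : 1 ≤ X := by linarith
  have x3 : P.E (fun ω => NJ.gn Bn (fun k => η ^ k) (dV N D) C (S ω).ν (μ ω)) ≤
      (4 + Cn * (m + 1) + c2) * X := by
    have : 0 ≤ Cn * (m + 1) := by positivity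
    rw [hX]
    nlinarith [mul_nonneg this e0, mul_nonneg this b0, mul_nonneg p2 b0, mul_nonneg p2 D0]
  have x4 : (η ^ dV N D)⁻¹ * P.E (fun ω => NJ.gn Bn (fun k => η ^ k) (dV N D) C (S ω).ν (μ ω)) +
      m * C * De + (m * C + 1) ≤ ((4 + Cn * (m + 1) + c2) / η ^ dV N D + m * C + 1) * X := by
    have := mul_le_mul_of_nonneg_left x3 (inv_pos.2 w0).le
    have u : m * C * (De + 1) ≤ m * C * X := mul_le_mul_of_nonneg_left (by linarith) (by positivity)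
    rw [div_eq_inv_mul]
    linarith
  have x5 := mul_le_mul_of_nonneg_left (mul_le_mul_of_nonneg_left x4 (Nat.cast_nonneg C))
    (show (0 : ℝ) ≤ N + 2 by positivity)
  have x6 : C' * (1 + e) ≤ C' * X := mul_le_mul_of_nonneg_left (by linarith) c1
  have x7 : 0 ≤ c2 * X := by positivity
  rw [← hX, h3]
  linarith

end Pool.Agent.MP_5168f5_an.QA
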