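import Pool.Agent.MP_5168f5_an.QA.NJA

/-! Cutting a Euclidean norm along a vector, and the gain of volume. -/

namespace Pool.Agent.MP_5168f5_an.QA

open Finset AN.C1 NJ

variable {V : Type} [AddCommGroup V] [Module ℝ V] {ν μ B : V → ℝ} {m : ℕ}

/-- The cut along `F`. -/
theorem cut (h : Hb ν) (F : V) {s : ℝ} (s0 : 0 < s) (s1 : s ≤ 1) : ∃ μ, Hb μ ∧
    (∀ x, μ x ≤ 2 * ν x) ∧ (∀ x, s * ν x ≤ μ x) ∧ μ F ≤ 2 * s * ν F ∧
    ∀ φ, Adm ν φ → |φ F| ≤ s * ν F → Adm μ φ := by
  obtain ⟨ι, _, A, hA, e⟩ := id h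
  let a : V →ₗ[ℝ] ℝ := (‖A F‖ ^ 2)⁻¹ • (innerₛₗ ℝ (A F)).comp A
  have a1 : ∀ x, inner ℝ (A F) (A x - a x • A F) = 0 := fun x => by
    by_cases h0 : A F = 0
    · simp [h0]
    · have := norm_ne_zero_iff.2 h0
      simp only [a, inner_sub_right, inner_smul_right, real_inner_self_eq_norm_sq,
        LinearMap.smul_apply, LinearMap.comp_apply, innerₛₗ_apply_apply, smul_eq_mul]
      field_simp
      ring
  have a2 : ∀ (x : V) (c : ℝ), ‖A x - a x • A F + c • A F‖ ^ 2 =
      ‖A x - a x • A F‖ ^ 2 + (|c| * ‖A F‖) ^ 2 := fun x c => by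
    rw [norm_add_sq_real, inner_smul_right, real_inner_comm, a1, norm_smul, Real.norm_eq_abs]
    ring
  let A' : V →ₗ[ℝ] EuclideanSpace ℝ ι := (2 : ℝ) • (A - (1 - s) • a.smulRight (A F))
  have b1 : ∀ x, ‖A' x‖ = 2 * ‖A x - a x • A F + (s * a x) • A F‖ := fun x => by
    have : A' x = (2 : ℝ) • (A x - a x • A F + (s * a x) • A F) := by
      simp only [A', LinearMap.smul_apply, LinearMap.sub_apply, LinearMap.smulRight_apply]
      congr 1
      module
    rw [this, norm_smul, Real.norm_eq_abs, abs_two]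
  have b2 : ∀ x, ‖A x‖ ^ 2 = ‖A x - a x • A F‖ ^ 2 + (|a x| * ‖A F‖) ^ 2 := fun x => by
    rw [← a2 x (a x), sub_add_cancel]
  have b3 : ∀ x, (‖A' x‖ / 2) ^ 2 = ‖A x - a x • A F‖ ^ 2 + (s * (|a x| * ‖A F‖)) ^ 2 :=
    fun x => by rw [b1, mul_div_cancel_left₀ _ two_ne_zero, a2, abs_mul, abs_of_pos s0, mul_assoc]
  have b4 : ∀ x, s * ‖A x‖ ≤ ‖A' x‖ / 2 := fun x =>
    abs_le_abs (a := s * ‖A x‖) (b := ‖A' x‖ / 2) (le_of_sq_le_sq (by
      rw [mul_pow, b2, b3, mul_pow s]
      nlinarith [sq_nonneg ‖A x - a x • A F‖, mul_le_one₀ s1 s0.le s1]) (by positivity))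
      (by have : 0 ≤ s * ‖A x‖ := by positivity
          have : 0 ≤ ‖A' x‖ / 2 := by positivity
          linarith) |>.trans' (le_abs_self _) |>.trans (abs_of_nonneg (by positivity)).le
  refine ⟨fun x => ‖A' x‖, ⟨ι, inferInstance, A', (injective_iff_map_eq_zero _).2 fun x k => ?_,
    fun _ => rfl⟩, fun x => ?_, fun x => ?_, ?_, fun φ u v x => ?_⟩
  · have := b4 x
    rw [k, norm_zero, zero_div] at this
    exact hA ((norm_le_zero_iff.1 (nonpos_of_mul_nonpos_right this s0)).trans (map_zero A).symm)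
  · have : ‖A' x‖ / 2 ≤ ‖A x‖ := le_of_sq_le_sq (by
      rw [b2, b3, mul_pow s]
      nlinarith [sq_nonneg (|a x| * ‖A F‖), mul_le_one₀ s1 s0.le s1]) (norm_nonneg _)
    rw [e]
    linarith
  · rw [e]
    linarith [b4 x, norm_nonneg (A' x)]
  · have k := b2 F
    by_cases h0 : A F = 0
    · have := b1 F
      simp only [h0, smul_zero, sub_zero, add_zero, norm_zero, mul_zero] at this
      simp only [this, e, h0, norm_zero, mul_zero, le_refl]
    · have := norm_ne_zero_iff.2 h0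
      have k1 : a F = 1 := by
        simp only [a, real_inner_self_eq_norm_sq, LinearMap.smul_apply, LinearMap.comp_apply,
          innerₛₗ_apply_apply, smul_eq_mul]
        field_simp
      simp only [b1, k1, one_smul, sub_self, zero_add, mul_one, norm_smul, Real.norm_eq_abs,
        abs_of_pos s0, e, mul_assoc, le_refl]
  · have k1 := u (x - a x • F)
    rw [e, map_sub, map_sub, map_smul, map_smul, smul_eq_mul] at k1
    have k2 : |a x * φ F| ≤ s * (|a x| * ‖A F‖) := by
      rw [abs_mul, mul_left_comm, ← e]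
      exact mul_le_mul_of_nonneg_left v (abs_nonneg _)
    have k3 : ‖A x - a x • A F‖ ≤ ‖A' x‖ / 2 :=
      le_of_sq_le_sq (by rw [b3]; nlinarith [sq_nonneg (s * (|a x| * ‖A F‖))]) (by positivity)
    have k4 : s * (|a x| * ‖A F‖) ≤ ‖A' x‖ / 2 :=
      le_of_sq_le_sq (by rw [b3]; nlinarith [sq_nonneg ‖A x - a x • A F‖]) (by positivity)
    have k5 := abs_add_le (φ x - a x * φ F) (a x * φ F)
    rw [sub_add_cancel] at k5
    linarith

/-- The cut along a list of vectors. -/
theorem cuts (h : Hb ν) : ∀ l : List V, ∃ μ, Hb μ ∧ (∀ x, μ x ≤ 2 ^ l.length * ν x) ∧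
    (∀ F ∈ l, μ F ≤ 2 ^ l.length) ∧ ∀ φ, Adm ν φ → (∀ F ∈ l, |φ F| ≤ 1) → Adm μ φ
  | [] => ⟨ν, h, by simp, by simp, fun _ u _ => u⟩
  | F :: l => by
    obtain ⟨μ, h1, h2, h3, h4⟩ := cuts h l
    have p : (1 : ℝ) ≤ 2 ^ l.length := one_le_pow₀ one_le_two
    have m0 : 0 < max (μ F) 1 := lt_max_of_lt_right one_pos
    obtain ⟨μ', k1, k2, -, k3, k4⟩ := cut h1 F (inv_pos.2 m0) (inv_le_one_of_one_le₀ (le_max_right _ _))
    refine ⟨μ', k1, fun x => ?_, fun G hG => ?_, fun φ u v => ?_⟩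
    · rw [List.length_cons, pow_succ]
      linarith [k2 x, h2 x]
    · rw [List.length_cons, pow_succ]
      rcases List.mem_cons.1 hG with rfl | hG
      · have : (max (μ G) 1)⁻¹ * μ G ≤ 1 := by
          rw [inv_mul_le_iff₀ m0, mul_one]
          exact le_max_left _ _
        linarith
      · linarith [k2 G, h3 G hG]
    · have u' := h4 φ u fun G hG => v G (List.mem_cons_of_mem _ hG)
      refine k4 φ u' ?_
      rcases le_total (μ F) 1 with e | e
      · rw [max_eq_right e, inv_one, one_mul]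
        exact u' F
      · rw [max_eq_left e, inv_mul_cancel₀ (by linarith)]
        exact v F List.mem_cons_self

/-- A norm that is smaller on one vector has a smaller volume. -/
theorem vol_gain (rk : Module.finrank ℝ V = m) [FiniteDimensional ℝ V] (h : Hb ν) (h' : Hb μ)
    {C s : ℝ} (C1 : 1 ≤ C) (e : ∀ x, μ x ≤ C * ν x) {F : V} (F0 : F ≠ 0) (eF : μ F ≤ s * ν F)
    (v : Fin m → V) : vol μ v ≤ m.factorial * m * C ^ m * s * vol ν v := by
  classical
  obtain ⟨b, l, a⟩ := two rk h h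
  have n0 := h.pos F0
  have s0 : 0 ≤ s := nonneg_of_mul_nonneg_left (h'.nonneg F |>.trans eF) n0
  have ne : (univ : Finset (Fin m)).Nonempty := by
    by_contra z
    exact F0 (by rw [← b.sum_repr F, not_nonempty_iff_eq_empty.1 z, sum_empty])
  obtain ⟨k, -, hk⟩ := exists_max_image univ (fun i => |b.repr F i|) ne
  have k1 : ν F ≤ m * |b.repr F k| := upp a.db h fun i => by rw [mul_one]; exact hk i (mem_univ _)
  have k2 : 0 < |b.repr F k| := by
    by_contra z
    nlinarith [not_lt.1 z, abs_nonneg (b.repr F k), Nat.cast_nonneg (α := ℝ) m]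
  have c0 : ∀ (ψ : V →ₗ[ℝ] ℝ) (x : V), ψ x = ∑ j, b.repr x j * ψ (b j) := fun ψ x => by
    conv_lhs => rw [← b.sum_repr x]
    simp only [map_sum, map_smul, smul_eq_mul]
  have c1 : dt (fun i => b.coord i) v ≤ vol ν v :=
    le_vol (fun i x => by simpa using coord a.db x i) v
  refine vol_le h'.nonneg fun φ hφ => ?_
  have e1 : dt φ v = dt φ b * dt (fun i => b.coord i) v := by
    unfold dt
    rw [← abs_mul, ← Matrix.det_mul]
    congr 2
    ext i j
    rw [Matrix.of_apply, c0]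
    simp [Matrix.mul_apply, mul_comm]
  have e2 : dt φ (Function.update b k F) = |b.repr F k| * dt φ b := by
    unfold dt
    rw [← abs_mul, ← smul_eq_mul, ← Matrix.det_updateCol_sum]
    congr 2
    ext i j
    by_cases hj : j = k
    · subst hj
      rw [Matrix.of_apply, Function.update_self, c0]
      simp
    · simp [hj]
  have e3 := dt_le hφ (Function.update b k F)
  rw [e2, ← mul_prod_erase _ _ (mem_univ k), Function.update_self] at e3
  have e4 : ∏ j ∈ univ.erase k, μ (Function.update b k F j) ≤ C ^ m := by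
    refine (prod_le_prod (g := fun _ => C) (fun _ _ => h'.nonneg _) fun j hj => ?_).trans ?_
    · rw [Function.update_of_ne (ne_of_mem_erase hj)]
      exact (e _).trans (mul_le_of_le_one_right (by linarith) (by simpa using a.db.1 j))
    · rw [prod_const]
      exact pow_le_pow_right₀ C1 ((card_le_univ _).trans_eq (Fintype.card_fin m))
  have e5 : dt φ b ≤ m.factorial * m * C ^ m * s := by
    refine le_of_mul_le_mul_left (e3.trans ?_) k2
    calc _ ≤ m.factorial * ((s * (m * |b.repr F k|)) * C ^ m) := by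
          gcongr
          · exact prod_nonneg fun _ _ => h'.nonneg _
          · exact eF.trans (mul_le_mul_of_nonneg_left k1 s0)
      _ = _ := by ring
  rw [e1]
  exact mul_le_mul e5 c1 (abs_nonneg _) (by positivity)

theorem rho_gain (rk : Module.finrank ℝ V = m) [FiniteDimensional ℝ V] (hB : Hb B) (h : Hb ν)
    (h' : Hb μ) {C s : ℝ} (C1 : 1 ≤ C) (e : ∀ x, μ x ≤ C * ν x) {F : V} (F0 : F ≠ 0)
    (eF : μ F ≤ s * ν F) : rho m μ B ≤ m.factorial * m * C ^ m * s * rho m ν B := by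
  have s0 : 0 ≤ s := nonneg_of_mul_nonneg_left (h'.nonneg F |>.trans eF) (h.pos F0)
  have r0 := (rMul V ν B B m h hB hB).2.1 rk.ge
  refine rho_le hB.nonneg (by positivity) fun v => (vol_gain rk h h' C1 e F0 eF v).trans ?_
  rw [mul_assoc _ (rho m ν B)]
  exact mul_le_mul_of_nonneg_left (rLe V ν B m v h hB) (by positivity)

end Pool.Agent.MP_5168f5_an.QA
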