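import Pool.Agent.MP_5168f5_an.QA.Bd
import Pool.Agent.MP_5168f5_an.QA.Cut
import Pool.Agent.MP_5168f5_an.QA.NJLin
import Pool.Agent.MP_5168f5_an.QA.FatRem

/-! Cutting a datum, and what optimality says about thin polynomials and large Jacobians. -/

namespace Pool.Agent.MP_5168f5_an.QA.CD

open H19 H17S H17F R4 AN Filter MvPolynomial Finset
open C1 (PD Hb Adm rho deg_PD)
open En (tb)
open Nc (Pl ev jac jm deg_jac)
open K31 (Dn)
open BdA (hb_Bn)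

variable {N D : ℕ}

/-- The value at a point. -/
noncomputable def evV (y : V (N + 1)) : VD N D →ₗ[ℝ] ℝ :=
  (aeval y : Pl (N + 1) →ₐ[ℝ] ℝ).toLinearMap ∘ₗ Submodule.subtype _

theorem evV_apply (y : V (N + 1)) (F : VD N D) : evV y F = eval y F.1 := rfl

theorem jc_smul (c : ℝ) (Φ : Ch N D) (y : V (N + 1)) :
    jc (fun i => c • Φ i) y = |c| ^ (N + 1) * jc Φ y := by
  have : (jm fun i => (c • Φ i).1) = (C c : Pl (N + 1)) • jm fun i => (Φ i).1 := by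
    ext1 i j
    simp [jm, smul_eq_C_mul]
  rw [jc, jac, this, Matrix.det_smul, map_mul, map_pow, eval_C, abs_mul, abs_pow, Fintype.card_fin]
  rfl

variable {ν μ : VD N D → ℝ} {η θ : ℝ}

theorem sg_ge (h : Hb ν) (h' : Hb μ) {C : ℝ} (C1 : 1 ≤ C) (e : ∀ x, μ x ≤ C * ν x) {k : ℕ}
    (hk : k ≤ dV N D) : sg k ν - dV N D * Real.log C ≤ sg k μ :=
  sub_le_iff_le_add.2 (NJ.sg_le rfl hb_Bn h' h C1 e hk)

/-- A smaller norm gains at least half of the reward of the total depth. -/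
theorem psi_gain (h : Hb ν) (h' : Hb μ) {C : ℝ} (C1 : 1 ≤ C) (e : ∀ x, μ x ≤ C * ν x) (η0 : 0 < η)
    (η1 : η ≤ 1) (θ0 : 0 ≤ θ) (hθ : θ ≤ η ^ dV N D / 2) :
    Psi η ν + η ^ dV N D / 2 * (sg (dV N D) μ - sg (dV N D) ν) + θ * dsp μ ν ≤
      Psi η μ + 2 * (dV N D + 1) * (dV N D * Real.log C) := by
  have l0 : 0 ≤ dV N D * Real.log C := mul_nonneg (Nat.cast_nonneg _) (Real.log_nonneg C1)
  have k : ∀ k ≤ dV N D, ∀ a : ℝ, 0 ≤ a → a ≤ η ^ k / 2 → η ^ k * sg k ν + a * (sg k μ - sg k ν) +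
      θ * |sg k μ - sg k ν| ≤ η ^ k * sg k μ + 2 * (dV N D * Real.log C) := fun k hk a a0 a1 => by
    have h1 := sg_ge h h' C1 e hk
    have h2 : η ^ dV N D ≤ η ^ k := pow_le_pow_of_le_one η0.le η1 hk
    have h3 : η ^ k ≤ 1 := pow_le_one₀ η0.le η1
    rcases le_total 0 (sg k μ - sg k ν) with u | u
    · rw [abs_of_nonneg u]
      nlinarith
    · rw [abs_of_nonpos u]
      nlinarith
  have k1 := sum_le_sum (s := range (dV N D)) fun i hi => k i (mem_range.1 hi).le 0 le_rfl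
    (by positivity)
  have k2 := k _ le_rfl _ (by positivity) le_rfl
  simp only [zero_mul, add_zero, sum_add_distrib, ← mul_sum, sum_const, card_range,
    nsmul_eq_mul] at k1
  simp only [Psi, dsp, pen, sum_range_succ]
  linarith

theorem sg_gain (h : Hb ν) (h' : Hb μ) {C r : ℝ} (C1 : 1 ≤ C) (e : ∀ x, μ x ≤ C * ν x)
    {F : VD N D} (F0 : F ≠ 0) (eF : μ F ≤ Real.exp (-r) * ν F) :
    sg (dV N D) ν + r ≤ sg (dV N D) μ +
      Real.log (((dV N D).factorial * (dV N D + 1) : ℝ) * C ^ dV N D) := by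
  have p := AN.C1.rho_pos h hb_Bn rfl (le_refl (dV N D))
  have k := Real.log_le_log (AN.C1.rho_pos h' hb_Bn rfl (le_refl (dV N D)))
    ((rho_gain (m := dV N D) rfl hb_Bn h h' C1 e F0 eF).trans (c := ((dV N D).factorial *
      (dV N D + 1) : ℝ) * C ^ dV N D * Real.exp (-r) * rho (dV N D) ν Bn) (by
        gcongr
        exact (lt_add_one _).le))
  rw [Real.log_mul (by positivity) p.ne', Real.log_mul (by positivity) (Real.exp_pos _).ne',
    Real.log_exp] at k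
  unfold sg
  linarith

/-- A value on the wide tube is bounded by a value on the narrow tube. -/
theorem seg_in {M c E : ℕ} {l : Ln N} {h : ℤ} {F : Pl (N + 1)} (hF : F.totalDegree ≤ E)
    {y : V (N + 1)} (hy : y ∈ seg M c l h 5) :
    ∃ y' ∈ seg M c l h 4, |eval y F| ≤ cR E * 2 ^ E * |eval y' F| := by
  obtain ⟨t, ξ, a, b, u, rfl⟩ := hy
  have k : ∀ s : ℝ, tb M l.1 l.2 t (s • ξ) =
      tb M l.1 l.2 t 0 + s • H83.pt 0 (((2 : ℝ) ^ M)⁻¹ • ξ) := fun s => by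
    rw [H83.smul_pt, mul_zero, smul_comm s]
    exact (by simp [tb, H83.pt] : _ = H83.pt (t + 0) _).trans (H83.pt_add _ _ _ _).symm
  have p : H83.IsPoly E fun y => eval y F := ⟨F, hF, fun _ => rfl⟩
  have hc : Continuous fun s : ℝ => |eval (tb M l.1 l.2 t (s • ξ)) F| := by
    simp only [k]
    exact (p.continuous.comp (by fun_prop)).abs
  obtain ⟨s, hs, hm⟩ := (isCompact_Icc (a := (0 : ℝ)) (b := 0 + 1 / 2)).exists_isMaxOn
    ⟨0, le_rfl, by norm_num⟩ hc.continuousOn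
  refine ⟨_, ⟨t, s • ξ, a, b, ?_, rfl⟩, ?_⟩
  · rw [norm_smul, Real.norm_eq_abs, abs_of_nonneg hs.1]
    nlinarith [hs.1, hs.2, norm_nonneg ξ]
  · have := lineRem p (tb M l.1 l.2 t 0) (H83.pt 0 (((2 : ℝ) ^ M)⁻¹ • ξ)) (t0 := 0) (τ := 1 / 2)
      (L := 1) (t := 1) (by norm_num) (by norm_num) (fun s' h1 h2 => by
        rw [← k]; exact hm ⟨h1, h2⟩) (by norm_num)
    rw [← k, one_smul] at this
    simpa using this

/-- A datum with a smaller norm and a smaller Jacobian. -/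
theorem shr {δ : Dc N D} {M c : ℕ} {l : Ln N} (h : δ.Ok M c l) (h' : Hb μ) {C : ℝ}
    (C0 : 0 < C) (e : ∀ x, μ x ≤ C * δ.ν x) (v : ∀ y ∈ seg M c l δ.h 5, Adm μ (evV y)) :
    Dc.Ok ⟨μ, δ.J / C ^ (N + 1), δ.h⟩ M c l := by
  obtain ⟨Φ, u, y, hy, k⟩ := h.wit
  refine ⟨h', div_pos h.pos (by positivity), fun y hy F => v y hy F, fun i => C⁻¹ • Φ i,
    fun i => ?_, y, hy, ?_⟩
  · change μ _ ≤ 1
    rw [h'.smul, abs_of_pos (inv_pos.2 C0), inv_mul_le_iff₀ C0]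
    exact (e _).trans (mul_le_mul_of_nonneg_left (u i) C0.le)
  · rw [jc_smul, abs_of_pos (inv_pos.2 C0), inv_pow, inv_mul_eq_div]
    exact div_le_div_of_nonneg_right k (by positivity)

/-- The cut of a datum along a thin polynomial. -/
theorem ex_cut (N D : ℕ) : ∃ (C : ℝ) (f : Dc N D → VD N D → ℝ → Dc N D), 0 ≤ C ∧
    ∀ δ F r, (f δ F r).h = δ.h ∧ ∀ M c l, δ.Ok M c l → F ≠ 0 → 0 ≤ r →
      (∀ y ∈ seg M c l δ.h 5, |eval y F.1| ≤ Real.exp (-r) * δ.ν F) → (f δ F r).Ok M c l ∧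
      (∀ G, (f δ F r).ν G ≤ 2 * δ.ν G) ∧ (f δ F r).J = δ.J / 2 ^ (N + 1) ∧
      (f δ F r).ν F ≤ 2 * Real.exp (-r) * δ.ν F ∧
      ∀ η θ : ℝ, 0 < η → η ≤ 1 → 0 ≤ θ → θ ≤ η ^ dV N D / 2 →
        sco η δ + η ^ dV N D / 2 * r + θ * dsp (f δ F r).ν δ.ν ≤ sco η (f δ F r) + C := by
  have ex : ∀ (δ : Dc N D) (F : VD N D) (r : ℝ), ∃ μ : VD N D → ℝ, Hb δ.ν → 0 ≤ r → Hb μ ∧
      (∀ x, μ x ≤ 2 * δ.ν x) ∧ μ F ≤ 2 * Real.exp (-r) * δ.ν F ∧
      ∀ φ, Adm δ.ν φ → |φ F| ≤ Real.exp (-r) * δ.ν F → Adm μ φ := fun δ F r => by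
    by_cases k : Hb δ.ν ∧ 0 ≤ r
    · obtain ⟨μ, a, b, -, c⟩ := cut k.1 F (Real.exp_pos (-r))
        (Real.exp_le_one_iff.2 (neg_nonpos.2 k.2))
      exact ⟨μ, fun _ _ => ⟨a, b, c⟩⟩
    · exact ⟨0, fun a b => absurd ⟨a, b⟩ k⟩
  choose μ hμ using ex
  have l2 := Real.log_pos one_lt_two
  have l3 : 0 ≤ Real.log (((dV N D).factorial * (dV N D + 1) : ℝ) * 2 ^ dV N D) :=
    Real.log_nonneg (one_le_mul_of_one_le_of_one_le (one_le_mul_of_one_le_of_one_le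
      (by exact_mod_cast Nat.factorial_pos _) (by simp)) (one_le_pow₀ one_le_two))
  refine ⟨(N + 1 : ℕ) * Real.log 2 + 2 * (dV N D + 1) * (dV N D * Real.log 2) +
    (Real.log (((dV N D).factorial * (dV N D + 1) : ℝ) * 2 ^ dV N D) + Real.log 2),
    fun δ F r => ⟨μ δ F r, δ.J / 2 ^ (N + 1), δ.h⟩, by positivity, fun δ F r => ⟨rfl,
      fun M c l h F0 r0 t => ?_⟩⟩
  obtain ⟨a1, a2, a3, a4⟩ := hμ δ F r h.hb r0
  refine ⟨shr h a1 two_pos a2 fun y hy => a4 _ (h.bd y hy) (t y hy), a2, rfl, a3,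
    fun η θ η0 η1 θ0 hθ => ?_⟩
  have b1 := psi_gain h.hb a1 one_le_two a2 η0 η1 θ0 hθ
  have b2 := sg_gain h.hb a1 one_le_two a2 F0 (r := r - Real.log 2) (by
    rwa [neg_sub, Real.exp_sub, Real.exp_log two_pos, div_eq_mul_inv, ← Real.exp_neg])
  have b3 : η ^ dV N D ≤ 1 := pow_le_one₀ η0.le η1
  have b4 := pow_pos η0 (dV N D)
  simp only [sco]
  rw [Real.log_div h.pos.ne' (by positivity), Real.log_pow]
  nlinarith

variable {Ω W : Type} {P : FP Ω} {g : Sh N Ω} {M c : ℕ} {S : Ω → Dc N D} {e b : ℝ} {Q : FP W}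
  {π : W → Ω}

/-- A label that is read from `S` and a further variable. -/
theorem imp (h : Opd η θ P g M c S e) (d : Dn b Q π P) {Λ : Type} {T : W → Λ}
    {R : W → Dc N D} (v : Val Q (g.pull π) M c R)
    (f : Fn Q R fun w => ((S (π w), T w), (g.pull π).zc c w)) :
    Q.E (fun w => sco η (R w) - sco η (S (π w)) - θ * dsp (R w).ν (S (π w)).ν) ≤
      ch Q T ((g.pull π).cx c fun w => S (π w)) + Real.log b + e := by
  have h1 := h W Q π b R d v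
  have h2 := (ch_mono f).trans_eq (ch_chain _ _ _)
  simp only [cst] at h1
  rw [FP.E_sub, FP.E_sub, FP.E_mul]
  change _ ≤ ch Q T (fun w => (S (π w), (g.pull π).zc c w)) + _ + _
  linarith

/-- Thin polynomials cost entropy. -/
theorem thin (N D : ℕ) : ∃ C : ℝ, 0 ≤ C ∧ ∀ {Ω W Λ : Type} {P : FP Ω} {g : Sh N Ω} {M c : ℕ}
    {S : Ω → Dc N D} {η θ e b : ℝ} {Q : FP W} {π : W → Ω} (T : W → Λ) (F : W → VD N D)
    (r : W → ℝ), 0 < η → η ≤ 1 → 0 ≤ θ → θ ≤ η ^ dV N D / 2 → Val P g M c S →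
    Opd η θ P g M c S e → Dn b Q π P →
    Fn Q (fun w => (F w, r w)) (fun w => ((S (π w), T w), (g.pull π).zc c w)) →
    (∀ w ∈ Q.S, F w ≠ 0 ∧ 0 ≤ r w ∧ ∀ y ∈ seg M c (g.l (π w)) (S (π w)).h 5,
      |eval y (F w).1| ≤ Real.exp (-r w) * (S (π w)).ν (F w)) →
    η ^ dV N D / 2 * Q.E r ≤ C + ch Q T ((g.pull π).cx c fun w => S (π w)) + Real.log b + e := by
  obtain ⟨C, f, C0, hf⟩ := ex_cut N D
  refine ⟨C, C0, fun {Ω W Λ P g M c S η θ e b Q π} T F r η0 η1 θ0 hθ v o d k t => ?_⟩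
  have a := fun w hw => (hf (S (π w)) (F w) (r w)).2 M c _ (v _ (d.mem hw)).2 (t w hw).1
    (t w hw).2.1 (t w hw).2.2
  have h1 := imp o d (T := T) (R := fun w => f (S (π w)) (F w) (r w))
    (fun w hw => ⟨(hf _ _ _).1.trans (v _ (d.mem hw)).1, (a w hw).1⟩) fun u hu w hw q => by
      have q1 := k u hu w hw q
      simp only [Prod.mk.injEq] at q q1
      simp only [q.1.1, q1.1, q1.2]
  have h2 := Q.E_mono (F := fun w => η ^ dV N D / 2 * r w - C) fun w hw =>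
    (by linarith [(a w hw).2.2.2.2 η θ η0 η1 θ0 hθ] : _ ≤ sco η (f (S (π w)) (F w) (r w)) -
      sco η (S (π w)) - θ * dsp (f (S (π w)) (F w) (r w)).ν (S (π w)).ν)
  rw [FP.E_sub, FP.E_mul, FP.E_const] at h2
  linarith

/-- Large Jacobians cost entropy. -/
theorem big (N D : ℕ) : ∃ C : ℝ, 0 ≤ C ∧ ∀ {Ω W Λ : Type} {P : FP Ω} {g : Sh N Ω} {M c : ℕ}
    {S : Ω → Dc N D} {η θ e b : ℝ} {Q : FP W} {π : W → Ω} (T : W → Λ) (r : W → ℝ),
    Val P g M c S → Opd η θ P g M c S e → Dn b Q π P →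
    Fn Q r (fun w => ((S (π w), T w), (g.pull π).zc c w)) →
    (∀ w ∈ Q.S, ∃ Φ, Un (S (π w)).ν Φ ∧ ∃ y ∈ seg M c (g.l (π w)) (S (π w)).h 5,
      Real.exp (r w) * (S (π w)).J ≤ jc Φ y) →
    Q.E r ≤ C + ch Q T ((g.pull π).cx c fun w => S (π w)) + Real.log b + e := by
  have c1 : 1 ≤ cR ((N + 1) * D) * 2 ^ ((N + 1) * D) :=
    one_le_mul_of_one_le_of_one_le (one_le_cR _) (one_le_pow₀ one_le_two)
  refine ⟨_, Real.log_nonneg c1, fun {Ω W Λ P g M c S η θ e b Q π} T r v o d k t => ?_⟩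
  have c0 := one_pos.trans_le c1
  have h1 := imp o d (T := T) (R := fun w => ⟨(S (π w)).ν, Real.exp (r w) * (S (π w)).J /
      (cR ((N + 1) * D) * 2 ^ ((N + 1) * D)), (S (π w)).h⟩)
    (fun w hw => by
      obtain ⟨v1, v2⟩ := v _ (d.mem hw)
      obtain ⟨Φ, u, y, hy, q⟩ := t w hw
      obtain ⟨y', hy', q'⟩ := seg_in (deg_jac fun i => deg_PD (Φ i)) hy
      exact ⟨v1, v2.hb, div_pos (mul_pos (Real.exp_pos _) v2.pos) c0, v2.bd, Φ, u, y', hy',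
        (div_le_iff₀' c0).2 (q.trans q')⟩)
    fun u hu w hw q => by
      have q1 := k u hu w hw q
      simp only [Prod.mk.injEq] at q
      simp only [q.1.1, q1]
  have h2 := Q.E_congr (F := fun w => r w - Real.log (cR ((N + 1) * D) * 2 ^ ((N + 1) * D)))
    (G := fun w => sco η ⟨(S (π w)).ν, Real.exp (r w) * (S (π w)).J /
      (cR ((N + 1) * D) * 2 ^ ((N + 1) * D)), (S (π w)).h⟩ - sco η (S (π w)) -
      θ * dsp (S (π w)).ν (S (π w)).ν) fun w hw => by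
    have p := (v _ (d.mem hw)).2.pos
    simp only [sco, dsp, pen, sub_self, abs_zero, sum_const_zero, mul_zero, sub_zero]
    rw [Real.log_div (by positivity) c0.ne', Real.log_mul (Real.exp_pos _).ne' p.ne', Real.log_exp]
    ring
  rw [FP.E_sub, FP.E_const] at h2
  linarith

end Pool.Agent.MP_5168f5_an.QA.CD
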