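import Pool.Agent.MP_5168f5_an.QA.QFinC
import Pool.Agent.MP_5168f5_an.AN.PAll
import Pool.Agent.MP_5168f5_an.AN.VAlg
import Pool.Agent.MP_5168f5_an.AN.GCel2

/-! The finite form of the set theorem in a chart of a polynomial image of a box. -/

namespace Pool.Agent.MP_5168f5_an.QA

open H19 H17S H17F R4 AN Filter MvPolynomial
open AN.Pk (cn)
open AN.Nc (Pl ev jac kc eval_aeval jac_comp deg_jac)

/-- The frame `Θ` in the shifted chart `u + c`. -/
noncomputable def cmp {n : ℕ} (Θ u : Fin n → Pl n) (c : V n) : Fin n → Pl n :=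
  fun i => aeval (fun j => u j + C (c j)) (Θ i)

theorem ev_sh {n : ℕ} (u : Fin n → Pl n) (c x : V n) :
    ev (fun j => u j + C (c j)) x = ev u x + c := funext fun j => by simp [ev]

theorem ev_cmp {n : ℕ} (Θ u : Fin n → Pl n) (c x : V n) :
    ev (cmp Θ u c) x = ev Θ (ev u x + c) := funext fun i => by
  rw [← ev_sh]; exact eval_aeval _ _ _

theorem jac_cmp {n : ℕ} (Θ u : Fin n → Pl n) (c x : V n) :
    eval x (jac (cmp Θ u c)) = eval (ev u x + c) (jac Θ) * eval x (jac u) := by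
  have e := Vo.alg.sft u (-c)
  simp only [Pi.neg_apply, map_neg, sub_neg_eq_add] at e
  unfold cmp
  rw [jac_comp, map_mul, eval_aeval, ev_sh, e]

theorem deg_sh {n D : ℕ} {u : Fin n → Pl n} (c : V n) (h : ∀ i, (u i).totalDegree ≤ D) (j : Fin n) :
    (u j + C (c j)).totalDegree ≤ D :=
  (totalDegree_add _ _).trans (max_le (h j) (by rw [totalDegree_C]; exact Nat.zero_le _))

theorem deg_cmp {n D D' : ℕ} {Θ u : Fin n → Pl n} (c : V n) (h : ∀ i, (u i).totalDegree ≤ D)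
    (h' : ∀ i, (Θ i).totalDegree ≤ D') (i : Fin n) : (cmp Θ u c i).totalDegree ≤ D' * D :=
  kc.deg _ _ _ _ (h' i) (deg_sh c h)

theorem val_box {k : ℕ} (f : Pl k) {q : V k} (h : ‖q‖ ≤ 1) : |eval q f| ≤ cn f := by
  simpa using kc.val f _ 1 q le_rfl le_rfl fun j => (norm_le_pi_norm q j).trans h

/-- The supremum over the box is almost multiplicative. -/
theorem sup_mul (k E : ℕ) : ∃ B : ℝ, 1 ≤ B ∧ ∀ (f g : Pl k) (q q' : V k), f.totalDegree ≤ E →
    g.totalDegree ≤ E → ‖q‖ ≤ 1 → ‖q'‖ ≤ 1 →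
    ∃ y : V k, ‖y‖ ≤ 1 ∧ |eval q f| * |eval q' g| ≤ B * |eval y f * eval y g| := by
  obtain ⟨B, B1, h⟩ := Pk.gel k E
  obtain ⟨B', B1', h'⟩ := Pk.neq k (E + E)
  refine ⟨B * B', one_le_mul_of_one_le_of_one_le B1 B1', fun f g q q' hf hg hq hq' => ?_⟩
  obtain ⟨y, y1, y2⟩ := (h' (f * g) ((totalDegree_mul _ _).trans (add_le_add hf hg))).1
  refine ⟨y, y1, ?_⟩
  rw [← map_mul, mul_assoc]
  exact (mul_le_mul (val_box f hq) (val_box g hq') (abs_nonneg _) (kc.nonneg _)).trans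
    ((h f g hf hg).trans (mul_le_mul_of_nonneg_left y2 (by linarith)))

/-- The output of one filling: the frame `K.1` in the chart `u + c` over the image of `A`. -/
structure FV {n k : ℕ} (D : ℕ) (u : Fin n → Pl n) (la : ℝ) (c : V n) (A : Fin n → Pl k)
    (K : Dat n) : Prop where
  deg : ∀ i, (K.1 i).totalDegree ≤ D
  bd : ∀ q : V k, ‖q‖ ≤ 1 → ‖ev K.1 (ev u (ev A q) + c)‖ ≤ 1
  big : ∃ q : V k, ‖q‖ ≤ 1 ∧ Real.exp K.2 ≤ |eval (ev u (ev A q) + c) (jac K.1)|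
  jc : ∃ q : V k, ‖q‖ ≤ 1 ∧ Real.exp K.2 * la ≤ |eval (ev A q) (jac (cmp K.1 u c))|

/-- Filling in a chart. -/
def FillA : Prop := ∀ n k D₀ D₁ : ℕ, ∃ D' : ℕ, ∀ ε : ℝ, 0 < ε → ∃ R : ℕ,
  ∀ (Ω Λ β : Type) (P : FP Ω) (T : Ω → Λ) (Z : Ω → β) (g : Λ → ℕ) (u : Λ → Fin n → Pl n)
    (la : Λ → ℝ) (A : Ω → Fin n → Pl k) (p : Ω → V k), Fn P T Z → Fn P A Z →
  (∀ ω ∈ P.S, R ≤ g (T ω) ∧ ‖p ω‖ ≤ 1 ∧ (∀ i, (u (T ω) i).totalDegree ≤ D₀) ∧
    (∀ i, (A ω i).totalDegree ≤ D₁) ∧ (∀ q, ‖q‖ ≤ 1 → ‖ev (u (T ω)) (ev (A ω) q)‖ ≤ 1) ∧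
    (∃ q, ‖q‖ ≤ 1 ∧ la (T ω) ≤ |eval (ev (A ω) q) (jac (u (T ω)))|) ∧
    ∀ j ≤ R * g (T ω), ∀ c, pb (cv P Z (Z ω)) (fun v => fl j (p v) = c) ≤
      Real.exp (g (T ω) / R) / (2 ^ j) ^ k) →
  ∃ (c : Λ → V n) (K : Ω → Dat n), (∀ a, ‖c a‖ ≤ 1 / 2 ^ g a) ∧
    (∀ ω ∈ P.S, FV D' (u (T ω)) (la (T ω)) (c (T ω)) (A ω) (K ω)) ∧
    ch P K T + P.E (fun ω => n * g (T ω) * lg) ≤
      ch P (fun ω => fl (g (T ω)) (ev (u (T ω)) (ev (A ω) (p ω)))) T + P.E (fun ω => (K ω).2) +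
        ε * P.E fun ω => g (T ω)

/-- A dilated frame. -/
noncomputable def dil {n : ℕ} (b r : ℝ) (Θ : Fin n → Pl n) : Fin n → Pl n :=
  fun i => C b * aeval (fun j => C r * X j : Fin n → Pl n) (Θ i)

theorem ev_dX {n : ℕ} (r : ℝ) (w : V n) : ev (fun j => C r * X j : Fin n → Pl n) w = r • w :=
  funext fun j => by simp [ev]

theorem ev_dil {n : ℕ} (b r : ℝ) (Θ : Fin n → Pl n) (w : V n) :
    ev (dil b r Θ) w = b • ev Θ (r • w) := funext fun i => by
  exact (map_mul _ _ _).trans (by rw [eval_C, eval_aeval, ev_dX]; rfl)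

theorem jac_dil {n : ℕ} (b r : ℝ) (Θ : Fin n → Pl n) (w : V n) :
    eval w (jac (dil b r Θ)) = b ^ n * r ^ n * eval (r • w) (jac Θ) := by
  unfold dil
  rw [Vo.alg.scl _ fun _ => b, jac_comp, Vo.alg.scl X fun _ => r, Cx.jac_X]
  simp only [map_mul, eval_C, eval_aeval, ev_dX, Finset.prod_const, Finset.card_univ,
    Fintype.card_fin, map_one]
  ring

theorem deg_dil {n D : ℕ} (b r : ℝ) {Θ : Fin n → Pl n} (h : ∀ i, (Θ i).totalDegree ≤ D)
    (i : Fin n) : (dil b r Θ i).totalDegree ≤ D := by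
  have a := kc.deg (fun j => C r * X j : Fin n → Pl n) _ D 1 (h i) fun j =>
    (totalDegree_mul _ _).trans (by rw [totalDegree_C, totalDegree_X])
  exact (totalDegree_mul _ _).trans (by rw [totalDegree_C]; omega)

theorem fillA (qc : QFinC) : FillA := by
  intro n k D₀ D₁
  obtain ⟨D', h⟩ := qc n k (D₀ * D₁)
  obtain ⟨B, B1, hB⟩ := Pk.neq k (D₀ * D₁)
  obtain ⟨B', B1', hB'⟩ := sup_mul k ((n * D' + n) * D₀ * D₁)
  obtain ⟨m, hm⟩ := pow_unbounded_of_one_lt B one_lt_two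
  refine ⟨D', fun ε hε => ?_⟩
  obtain ⟨η, hη⟩ : ∃ η : ℝ, η = ε / (2 * n + 3) := ⟨_, rfl⟩
  have η0 : 0 < η := by rw [hη]; positivity
  have η1 : (2 * n + 3) * η = ε := by rw [hη]; field_simp
  obtain ⟨R, h⟩ := h η η0
  refine ⟨2 * R + m + ⌈Real.log B' / η⌉₊, fun Ω Λ β P T Z g u la A p fT fA H => ?_⟩
  obtain ⟨r, hr⟩ : ∃ r : ℝ, r = ((2 : ℝ) ^ m)⁻¹ := ⟨_, rfl⟩
  have r0 : 0 < r := by rw [hr]; positivity
  have r1 : r * 2 ^ m = 1 := by rw [hr]; field_simp
  have e1 : ∀ ω q, ev (fun i => C r * aeval (A ω) (u (T ω) i)) q =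
      r • ev (u (T ω)) (ev (A ω) q) := fun ω q => funext fun i => by
    simp only [ev, map_mul, eval_C, eval_aeval, Pi.smul_apply, smul_eq_mul]
  obtain ⟨c, K, c1, k1, k2⟩ := h Ω Λ β P T (fun a => g a + m) Z
    (fun ω i => C r * aeval (A ω) (u (T ω) i)) p fT
    (fun a ha b hb e => by simp only [fT a ha b hb e, fA a ha b hb e]) fun ω hω => by
      obtain ⟨h1, h2, h3, h4, h5, -, h7⟩ := H ω hω
      refine ⟨by omega, h2, fun i => ?_, fun j hj c => ?_⟩
      · have d := kc.deg _ _ _ _ (h3 i) h4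
        refine ⟨(totalDegree_mul _ _).trans (by rw [totalDegree_C]; omega), ?_⟩
        obtain ⟨y, y1, y2⟩ := (hB _ d).1
        rw [eval_aeval] at y2
        have y3 : |eval (ev (A ω) y) (u (T ω) i)| ≤ 1 := (norm_le_pi_norm _ i).trans (h5 y y1)
        rw [C_mul', kc.smul, abs_of_pos r0]
        refine le_trans ?_ (Real.one_le_exp (by positivity))
        exact (mul_le_mul_of_nonneg_left (y2.trans ((mul_le_of_le_one_right (by linarith) y3).trans
          hm.le)) r0.le).trans r1.le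
      · rcases R.eq_zero_or_pos with rfl | R0
        · obtain rfl : j = 0 := by omega
          simpa using pb_le_one _ _
        · refine (h7 j (hj.trans (by nlinarith)) c).trans (div_le_div_of_nonneg_right
            (Real.exp_le_exp.2 (div_le_div₀ (by positivity) ?_ (by exact_mod_cast R0) ?_))
            (by positivity)) <;> norm_cast <;> omega
  have e2 : ∀ (w : V n) a, r • (w + (2 : ℝ) ^ m • c a) = r • w + c a := fun w a => by
    rw [smul_add, smul_smul, r1, one_smul]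
  refine ⟨fun a => (2 : ℝ) ^ m • c a, fun ω => (dil (Real.exp (-(η * (g (T ω) + m)))) r (K ω).1,
    (K ω).2 - n * (η * (g (T ω) + m)) - n * m * lg - Real.log B'), fun a => ?_, fun ω hω => ?_, ?_⟩
  · rw [norm_smul, norm_pow, Real.norm_ofNat]
    refine (mul_le_mul_of_nonneg_left (c1 a) (by positivity)).trans_eq ?_
    rw [pow_add]; field_simp
  · obtain ⟨-, h2, h3, h4, -, ⟨q, q1, q2⟩, -⟩ := H ω hω
    obtain ⟨a1, a2, a3⟩ := k1 ω hω
    have d := deg_dil (Real.exp (-(η * (g (T ω) + m)))) r a1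
    have a4 : Real.exp ((K ω).2 - n * (η * (g (T ω) + m)) - n * m * lg - Real.log B') * B' ≤
        |eval (ev (u (T ω)) (ev (A ω) (p ω)) + (2 : ℝ) ^ m • c (T ω))
          (jac (dil (Real.exp (-(η * (g (T ω) + m)))) r (K ω).1))| := by
      rw [jac_dil, e2, ← e1, abs_mul, abs_of_pos (by positivity)]
      refine le_of_eq_of_le ?_ (mul_le_mul_of_nonneg_left a3 (by positivity))
      have : r = Real.exp (-(m * lg)) := by
        rw [hr, Real.exp_neg, Real.exp_nat_mul, lg, Real.exp_log two_pos]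
      rw [Real.exp_sub, Real.exp_log (by linarith), div_mul_cancel₀ _ (by linarith), this,
        ← Real.exp_nat_mul, ← Real.exp_nat_mul, ← Real.exp_add, ← Real.exp_add]
      congr 1; ring
    refine ⟨d, fun q hq => ?_, ⟨p ω, h2, (le_mul_of_one_le_right (Real.exp_pos _).le B1').trans a4⟩,
      ?_⟩
    · have := a2 q hq
      rw [e1] at this
      rw [ev_dil, e2, norm_smul, Real.norm_of_nonneg (Real.exp_pos _).le, Real.exp_neg,
        inv_mul_le_iff₀ (Real.exp_pos _), mul_one]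
      exact_mod_cast this
    · obtain ⟨y, y1, y2⟩ := hB' (aeval (A ω) (aeval (fun j => u (T ω) j + C (((2 : ℝ) ^ m • c (T ω)) j))
        (jac (dil (Real.exp (-(η * (g (T ω) + m)))) r (K ω).1)))) (aeval (A ω) (jac (u (T ω)))) (p ω) q
        ((kc.deg _ _ _ _ (kc.deg _ _ _ _ (deg_jac d) (deg_sh _ h3)) h4).trans (by gcongr; omega))
        ((kc.deg _ _ _ _ (deg_jac h3) h4).trans (by gcongr; omega)) h2 q1
      simp only [eval_aeval, ev_sh] at y2
      refine ⟨y, y1, le_of_mul_le_mul_left ?_ (show 0 < B' by linarith)⟩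
      rw [jac_cmp, ← mul_assoc, mul_comm B']
      refine le_trans ?_ y2
      rcases le_total (la (T ω)) 0 with l0 | l0
      · exact (mul_nonpos_of_nonneg_of_nonpos (by positivity) l0).trans (by positivity)
      · exact mul_le_mul a4 q2 l0 (abs_nonneg _)
  · have a1 := ch_mono (P := P) (G := T) (F' := K) (F := fun ω =>
      ((dil (Real.exp (-(η * (g (T ω) + m)))) r (K ω).1,
        (K ω).2 - n * (η * (g (T ω) + m)) - n * m * lg - Real.log B') : Dat n))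
      fun a _ b _ e => by simp only [(Prod.mk.inj e).1, (Prod.mk.inj e).2]
    have a2 : (fun ω => fl (g (T ω) + m) (ev (fun i => C r * aeval (A ω) (u (T ω) i)) (p ω))) =
        fun ω => fl (g (T ω)) (ev (u (T ω)) (ev (A ω) (p ω))) := funext fun ω => by
      rw [e1]
      refine funext fun i => congrArg Int.floor ?_
      rw [Pi.smul_apply, smul_eq_mul, pow_add, mul_assoc, ← mul_assoc _ r, mul_comm _ r, r1, one_mul]
    rw [a2] at k2
    have a3 : P.E (fun ω => (K ω).2 + η * ((g (T ω) + m : ℕ) : ℝ) + n * g (T ω) * lg -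
        n * ((g (T ω) + m : ℕ) : ℝ) * lg) ≤ P.E fun ω => (K ω).2 - n * (η * (g (T ω) + m)) -
          n * m * lg - Real.log B' + ε * g (T ω) := FP.E_mono _ fun ω hω => by
      have b := (H ω hω).1
      have b1 : (m : ℝ) ≤ g (T ω) := by exact_mod_cast (by omega : m ≤ g (T ω))
      have b2 := (div_le_iff₀ η0).1 (Nat.ceil_le.1 (by omega : ⌈Real.log B' / η⌉₊ ≤ g (T ω)))
      have b3 := mul_le_mul_of_nonneg_left b1 (show 0 ≤ (n + 1) * η by positivity)
      push_cast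
      rw [← η1]
      nlinarith
    rw [FP.E_sub, FP.E_add, FP.E_add, FP.E_add, FP.E_mul, FP.E_mul] at a3
    linarith

end Pool.Agent.MP_5168f5_an.QA
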