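import Pool.Agent.MP_5168f5_an.QA.FrCnt

/-! The joint count: cubes of a chart with any number of components. -/

namespace Pool.Agent.MP_5168f5_an.QA

open MeasureTheory Finset H19 H17S MvPolynomial AN.En AN.En.EDirA
open H83 (IsPoly pt)
open AN.C1 (Hb PD deg_PD)
open scoped ENNReal

/-- The neighbourhood of the polynomial image of a bounded basic set, face by face. -/
theorem nbhdJ (α β κ : Type) [Fintype α] [Fintype β] [DecidableEq α] [DecidableEq β] [Fintype κ]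
    (d : ℕ) : ∃ M : ℕ, ∀ (p : κ → (β → ℝ) → ℝ) (ψ : α → (β → ℝ) → ℝ) (r R : ℝ)
      (T : Finset α → Set (α → ℝ)), (∀ j, IsPoly d (p j)) → (∀ a, IsPoly d (ψ a)) → 0 < r →
      (∀ x, (∀ j, 0 < p j x) → ‖x‖ ≤ R ∧ ∀ (J : Finset α) (v : α → ℝ), (∀ a, |v a| < r) →
        J.piecewise v (fun a => ψ a x) ∈ T J) →
      volume {u : α → ℝ | ∃ x, (∀ j, 0 < p j x) ∧ ∀ a, |u a - ψ a x| < r} ≤
        M * ∑ J, volume (T J) := by
  obtain ⟨M, hM⟩ := sec' α β (κ ⊕ α) (2 * (d + 1))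
  refine ⟨M, fun p ψ r R T hp hψ r0 h => ?_⟩
  have c1 : ∀ b, IsPoly 1 fun y : α ⊕ β → ℝ => y (.inr b) := fun b => H83.IsPoly.coord _
  have c2 : ∀ a, IsPoly (d + 1) fun y : α ⊕ β → ℝ => ψ a fun b => y (.inr b) := fun a =>
    ((hψ a).comp_aff c1).mono (Nat.le_succ d)
  have c3 : ∀ a, IsPoly (d + 1) fun y : α ⊕ β → ℝ => y (.inl a) - ψ a fun b => y (.inr b) :=
    fun a => ((H83.IsPoly.coord _).mono (by omega)).sub (c2 a)
  have e : ∀ y : α ⊕ β → ℝ, (∀ j, 0 < Sum.elim (fun j (y : α ⊕ β → ℝ) => p j fun b => y (.inr b))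
      (fun a y => r ^ 2 - (y (.inl a) - ψ a fun b => y (.inr b)) ^ 2) j y) ↔
      (∀ j, 0 < p j fun b => y (.inr b)) ∧ ∀ a, |y (.inl a) - ψ a fun b => y (.inr b)| < r :=
    fun y => by simp only [Sum.forall, Sum.elim_inl, Sum.elim_inr, sub_pos, sq_lt_sq, abs_of_pos r0]
  have k := hM (Finset α) (Sum.elim (fun j (y : α ⊕ β → ℝ) => p j fun b => y (.inr b))
      (fun a y => r ^ 2 - (y (.inl a) - ψ a fun b => y (.inr b)) ^ 2))
    (fun J => J.piecewise (fun a y => y (.inl a) - ψ a fun b => y (.inr b))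
      fun a y => ψ a fun b => y (.inr b)) (fun _ => 1) T
    (fun j => by
      rcases j with j | a
      · exact ((hp j).comp_aff c1).mono (by omega)
      · exact (H83.IsPoly.const _ _).sub ((c3 a).pow 2))
    (fun J a => by
      by_cases ha : a ∈ J
      · rw [piecewise_eq_of_mem _ _ _ ha]
        exact (c3 a).mono (by omega)
      · rw [piecewise_eq_of_notMem _ _ _ ha]
        exact (c2 a).mono (by omega))
    (fun _ => zero_le_one) (fun u => ⟨R, fun x hx => (h x ((e _).1 hx).1).1⟩)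
    (fun y _ L => by
      have e1 : (fun a => (Pi.single (.inl a) 1 : α ⊕ β → ℝ)) =
          (fun a => grad (fun y : α ⊕ β → ℝ => y (.inl a) - ψ a fun b => y (.inr b)) y) +
            fun a => grad (fun y : α ⊕ β → ℝ => ψ a fun b => y (.inr b)) y := by
        funext a
        have := grad_add (c3 a) (c2 a) 1 y
        simp only [one_mul, sub_add_cancel, one_smul, grad_coord] at this
        exact this
      rw [e1, det2_add]
      refine (abs_sum_le_sum_abs _ _).trans_eq (sum_congr rfl fun J _ => ?_)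
      rw [one_mul]
      congr 2
      funext a
      by_cases ha : a ∈ J <;> simp [ha])
    (fun J y hy => by
      obtain ⟨y1, y2⟩ := (e y).1 hy
      refine Set.mem_of_eq_of_mem (funext fun a => ?_) ((h _ y1).2 J _ y2)
      by_cases ha : a ∈ J <;> simp [ha])
  simp only [e, Sum.elim_inl, Sum.elim_inr, ENNReal.ofReal_one, one_mul] at k
  exact k

/-- Volume of a face. -/
theorem vol_face {α : Type} [Fintype α] (q : α → Prop) [DecidablePred q] {r : ℝ} (r0 : 0 ≤ r)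
    (S : Set ({a // ¬q a} → ℝ)) :
    volume {w : α → ℝ | (∀ a, q a → |w a| ≤ r) ∧ (fun a : {a // ¬q a} => w a.1) ∈ S} =
      ENNReal.ofReal ((2 * r) ^ Fintype.card {a // q a}) * volume S := by
  have hp := volume_preserving_piEquivPiSubtypeProd (fun _ : α => ℝ) q
  have h1 := hp.measure_preimage_equiv
    ((Set.univ.pi fun _ : {a // q a} => Set.Icc (-r) r) ×ˢ S)
  rw [Measure.volume_eq_prod, Measure.prod_prod, volume_pi_pi] at h1
  simp only [Real.volume_Icc, sub_neg_eq_add, prod_const, card_univ, ← two_mul] at h1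
  rw [ENNReal.ofReal_pow (by positivity), ← h1]
  congr 1
  ext w
  exact and_congr ⟨fun h a _ => abs_le.1 (h a.1 a.2), fun h a ha => abs_le.2 (h ⟨a, ha⟩ trivial)⟩
    Iff.rfl

theorem face_le {α : Type} [Fintype α] (q : α → Prop) [DecidablePred q] {s B : ℝ} (s1 : 1 ≤ s)
    (B0 : 0 ≤ B) {S : Set ({a // ¬q a} → ℝ)}
    (hS : volume S ≤ ENNReal.ofReal (B / s ^ Fintype.card {a // ¬q a})) :
    volume {w : α → ℝ | (∀ a, q a → |w a| ≤ 1 / s) ∧ (fun a : {a // ¬q a} => w a.1) ∈ S} ≤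
      ENNReal.ofReal (2 ^ Fintype.card α * B / s ^ Fintype.card α) := by
  have s0 : 0 < s := one_pos.trans_le s1
  rw [vol_face q (by positivity)]
  refine (mul_le_mul_right hS _).trans ?_
  rw [← ENNReal.ofReal_mul (by positivity)]
  refine ENNReal.ofReal_le_ofReal ?_
  have c2 := Fintype.card_subtype_le q
  rw [Fintype.card_subtype_compl, mul_pow, one_div_pow, mul_one_div, div_mul_div_comm, ← pow_add,
    Nat.add_sub_cancel' c2]
  gcongr
  exact one_le_two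

theorem vol_null {n : ℕ} {K : Type} [Fintype K] (Ψ : K → MvPolynomial (Fin n) ℝ) (A : Set (V n))
    (h : n < Fintype.card K) : volume ((fun x a => eval x (Ψ a)) '' A) = 0 := by
  have k1 : ContDiff ℝ 1 fun (x : V n) a => eval x (Ψ a) :=
    contDiff_pi.2 fun a => (AnalyticOnNhd.eval_mvPolynomial (Ψ a)).contDiff
  have k2 := k1.dimH_range_le
  rw [Module.finrank_fin_fun] at k2
  refine measure_mono_null (Set.image_subset_range _ _) ?_
  rw [← hausdorffMeasure_pi_real]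
  exact hausdorffMeasure_of_dimH_lt (d := (Fintype.card K : NNReal))
    (k2.trans_lt (by exact_mod_cast h))

theorem vol_le {n : ℕ} {K : Type} [Fintype K] (Ψ : K → MvPolynomial (Fin n) ℝ) {A : Set (V n)}
    (h1 : ∀ x ∈ A, ∀ a, |eval x (Ψ a)| ≤ 2) :
    volume ((fun x a => eval x (Ψ a)) '' A) ≤ ENNReal.ofReal (4 ^ Fintype.card K) := by
  refine (measure_mono (t := Set.univ.pi fun _ : K => Set.Icc (-2 : ℝ) 2) ?_).trans ?_
  · rintro _ ⟨x, hx, rfl⟩ a -
    exact abs_le.1 (h1 x hx a)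
  rw [volume_pi_pi]
  simp only [Real.volume_Icc, prod_const, card_univ]
  rw [← ENNReal.ofReal_pow (by norm_num), show (2 : ℝ) - -2 = 4 by norm_num]

theorem vol_box {n : ℕ} {K : Type} [Fintype K] (Ψ : K → MvPolynomial (Fin n) ℝ) {A : Set (V n)}
    {s : ℝ} (s1 : 1 ≤ s) (h1 : ∀ x ∈ A, ∀ a, |eval x (Ψ a)| ≤ 2) :
    volume ((fun x a => eval x (Ψ a)) '' A) ≤
      ENNReal.ofReal (4 ^ n * s ^ n / s ^ Fintype.card K) := by
  rcases le_or_gt (Fintype.card K) n with h | h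
  · refine (vol_le Ψ h1).trans (ENNReal.ofReal_le_ofReal ?_)
    rw [le_div_iff₀ (by positivity)]
    gcongr
    norm_num
  · exact (vol_null Ψ A h).trans_le zero_le

/-- Volume of the image of a set under a family of polynomials of any size. -/
theorem vol_img {n : ℕ} {K : Type} [Fintype K] [DecidableEq K] (Ψ : K → MvPolynomial (Fin n) ℝ)
    {A : Set (V n)} (hA : MeasurableSet A) {μ W s : ℝ} (μ0 : 0 ≤ μ) (W0 : 0 ≤ W) (s1 : 1 ≤ s)
    (hW : volume A ≤ ENNReal.ofReal W) (h1 : ∀ x ∈ A, ∀ a, |eval x (Ψ a)| ≤ 2)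
    (h2 : ∀ x ∈ A, ∀ I : Fin n → K, |(dm (fun i => Ψ (I i)) x).det| ≤ μ) :
    volume ((fun x a => eval x (Ψ a)) '' A) ≤
      ENNReal.ofReal (4 ^ n * (μ * W + 1 / s) * s ^ n / s ^ Fintype.card K) := by
  have s0 : 0 < s := one_pos.trans_le s1
  have k0 : 0 ≤ μ * W := mul_nonneg μ0 W0
  rcases lt_trichotomy (Fintype.card K) n with h | h | h
  · refine (vol_le Ψ h1).trans (ENNReal.ofReal_le_ofReal ?_)
    rw [le_div_iff₀ (by positivity), mul_assoc]
    refine mul_le_mul (pow_le_pow_right₀ (by norm_num) h.le) ?_ (by positivity) (by positivity)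
    have k1 : s ^ (Fintype.card K + 1) ≤ s ^ n := pow_le_pow_right₀ s1 h
    have k2 : s ^ Fintype.card K = 1 / s * s ^ (Fintype.card K + 1) := by
      rw [pow_succ]
      field_simp
    rw [k2]
    gcongr
    linarith
  · obtain ⟨e⟩ : Nonempty (K ≃ Fin n) := ⟨Fintype.equivFinOfCardEq h⟩
    have hp := volume_preserving_arrowCongr' e (MeasurableEquiv.refl ℝ) (MeasurePreserving.id _)
    have k1 := addHaar_image_le_lintegral_abs_det_fderiv volume hA
      fun x _ => (hasFDerivAt_dm (fun i => Ψ (e.symm i)) x).hasFDerivWithinAt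
    simp only [LinearMap.det_toContinuousLinearMap, LinearMap.det_toLin'] at k1
    have k2 : ∫⁻ x in A, ENNReal.ofReal |(dm (fun i => Ψ (e.symm i)) x).det| ≤
        ENNReal.ofReal (μ * W) := by
      refine (setLIntegral_mono' hA (g := fun _ => ENNReal.ofReal μ) fun x hx =>
        ENNReal.ofReal_le_ofReal (h2 x hx _)).trans ?_
      rw [setLIntegral_const, ENNReal.ofReal_mul μ0]
      gcongr
    rw [← hp.measure_preimage_equiv] at k1
    refine le_trans (measure_mono ?_) ((k1.trans k2).trans (ENNReal.ofReal_le_ofReal ?_))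
    · rintro _ ⟨x, hx, rfl⟩
      exact ⟨x, hx, rfl⟩
    · rw [h, mul_div_assoc, div_self (by positivity), mul_one]
      have k3 : (1 : ℝ) ≤ 4 ^ n := one_le_pow₀ (by norm_num)
      have k4 : 0 < 1 / s := by positivity
      nlinarith
  · exact (vol_null Ψ A h).trans_le zero_le

/-- Cubes of a chart with `m` components that meet the image of a basic set where all the minors
of the chart are at most `μ`. -/
theorem jcnt0 (n m : ℕ) (β κ : Type) [Fintype β] [DecidableEq β] [Fintype κ] (d : ℕ) :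
    ∃ C : ℝ, 1 ≤ C ∧ ∀ (p : κ → (β → ℝ) → ℝ) (π : (β → ℝ) → Fin n → ℝ)
      (Ψ : Fin m → MvPolynomial (Fin n) ℝ) (R μ W : ℝ) (g : ℕ),
      (∀ j, IsPoly d (p j)) → (∀ i, IsPoly d fun y => π y i) → (∀ i, (Ψ i).totalDegree ≤ d) →
      (∀ y, (∀ j, 0 < p j y) → ‖y‖ ≤ R) → 0 < μ → 0 ≤ W →
      volume (π '' {y | ∀ j, 0 < p j y}) ≤ ENNReal.ofReal W →
      ∃ T : Finset (Z m), (T.card : ℝ) ≤ C * (2 ^ g) ^ n * (μ * W + 1 / 2 ^ g) ∧
        ∀ y, (∀ j, 0 < p j y) → (∀ i, |eval (π y) (Ψ i)| ≤ 1) →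
          (∀ I : Fin n → Fin m, |(dm (fun i => Ψ (I i)) (π y)).det| ≤ μ) →
          fl g (fun i => eval (π y) (Ψ i)) ∈ T := by
  classical
  obtain ⟨M, hM⟩ := nbhdJ (Fin m) β (κ ⊕ (Fin n → Fin m) ⊕ Fin m) (d + 2 * ((n + 1) * d * d))
  refine ⟨1 + M * (2 ^ m * (2 ^ m * (4 ^ n * 2))), le_add_of_nonneg_right (by positivity),
    fun p π Ψ R μ W g hp hπ hΨ hR μ0 W0 hW => ?_⟩
  have q1 : ∀ i, IsPoly (d * d) fun y => eval (π y) (Ψ i) := fun i =>
    H83.IsPoly.comp (F := fun x => eval x (Ψ i)) ⟨_, hΨ i, fun _ => rfl⟩ hπ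
  have q0 : ∀ I : Fin n → Fin m, IsPoly (n * d) fun x => (dm (fun i => Ψ (I i)) x).det :=
    fun I => isPoly_det fun i => hΨ _
  have q2 : ∀ I : Fin n → Fin m, IsPoly (n * d * d) fun y => (dm (fun i => Ψ (I i)) (π y)).det :=
    fun I => (q0 I).comp hπ
  have d1 : 2 * (d * d) ≤ d + 2 * ((n + 1) * d * d) := by nlinarith [Nat.zero_le (n * d * d)]
  have d2 : 2 * (n * d * d) ≤ d + 2 * ((n + 1) * d * d) := by nlinarith [Nat.zero_le (d * d)]
  set A := toMeasurable volume (π '' {y | ∀ j, 0 < p j y}) ∩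
    ({x | ∀ I : Fin n → Fin m, |(dm (fun i => Ψ (I i)) x).det| < 2 * μ} ∩
      {x | ∀ i, |eval x (Ψ i)| < 2}) with hA
  have hAm : MeasurableSet A := by
    refine (measurableSet_toMeasurable _ _).inter (MeasurableSet.inter ?_ ?_)
    · rw [Set.ofPred_forall]
      exact MeasurableSet.iInter fun I => measurableSet_lt
        (continuous_abs.measurable.comp (q0 I).measurable) measurable_const
    · rw [Set.ofPred_forall]
      exact MeasurableSet.iInter fun i => measurableSet_lt (continuous_abs.measurable.comp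
        (H83.IsPoly.measurable ⟨_, hΨ i, fun _ => rfl⟩)) measurable_const
  have hAv : volume A ≤ ENNReal.ofReal W :=
    (measure_mono Set.inter_subset_left).trans ((measure_toMeasurable _).trans_le hW)
  have s1 : (1 : ℝ) ≤ 2 ^ g := one_le_pow₀ one_le_two
  have g0 : (0 : ℝ) < 1 / 2 ^ g := by positivity
  have m1 : 0 < 2 * μ := by positivity
  set P : κ ⊕ (Fin n → Fin m) ⊕ Fin m → (β → ℝ) → ℝ := Sum.elim p (Sum.elim
    (fun I y => (2 * μ) ^ 2 - (dm (fun i => Ψ (I i)) (π y)).det ^ 2)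
    fun i y => 2 ^ 2 - eval (π y) (Ψ i) ^ 2) with hP
  have e : ∀ y, (∀ l, 0 < P l y) ↔ (∀ j, 0 < p j y) ∧
      (∀ I : Fin n → Fin m, |(dm (fun i => Ψ (I i)) (π y)).det| < 2 * μ) ∧
      ∀ i, |eval (π y) (Ψ i)| < 2 := fun y => by
    simp only [hP, Sum.forall, Sum.elim_inl, Sum.elim_inr, sub_pos, sq_lt_sq, abs_of_pos m1,
      abs_two]
  have k := hM P (fun i y => eval (π y) (Ψ i)) (1 / 2 ^ g) R
    (fun J => {w | (∀ a, a ∈ J → |w a| ≤ 1 / 2 ^ g) ∧ (fun a : {a // ¬a ∈ J} => w a.1) ∈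
      (fun x (a : {a // ¬a ∈ J}) => eval x (Ψ a.1)) '' A})
    (fun l => by
      rcases l with l | I | i
      · exact (hp l).mono (by omega)
      · exact (H83.IsPoly.const _ _).sub (((q2 I).pow 2).mono d2)
      · exact (H83.IsPoly.const _ _).sub (((q1 i).pow 2).mono d1))
    (fun i => (q1 i).mono (by omega)) g0
    fun y hy => by
      obtain ⟨y1, y2, y3⟩ := (e y).1 hy
      refine ⟨hR y y1, fun J v hv => ⟨fun a ha => ?_, π y,
        ⟨subset_toMeasurable _ _ ⟨y, y1, rfl⟩, y2, y3⟩, funext fun a => ?_⟩⟩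
      · rw [piecewise_eq_of_mem _ _ _ ha]
        exact (hv a).le
      · exact (piecewise_eq_of_notMem J v (fun a => eval (π y) (Ψ a)) a.2).symm
  obtain ⟨B, hB⟩ : ∃ B : ℝ, B = 4 ^ n * (2 * μ * W + 1 / 2 ^ g) * (2 ^ g) ^ n := ⟨_, rfl⟩
  have B0 : 0 ≤ B := by rw [hB]; positivity
  have k1 : ∀ J : Finset (Fin m), volume {w : Fin m → ℝ | (∀ a, a ∈ J → |w a| ≤ 1 / 2 ^ g) ∧
      (fun a : {a // ¬a ∈ J} => w a.1) ∈ (fun x (a : {a // ¬a ∈ J}) => eval x (Ψ a.1)) '' A} ≤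
      ENNReal.ofReal (2 ^ m * B / (2 ^ g) ^ m) := fun J => by
    have := face_le (fun a => a ∈ J) s1 B0 (hB ▸ vol_img (fun a : {a // ¬a ∈ J} => Ψ a.1) hAm
      m1.le W0 s1 hAv (fun x hx a => (hx.2.2 _).le) fun x hx I => (hx.2.1 fun i => (I i).1).le)
    rwa [Fintype.card_fin] at this
  obtain ⟨T, hT, hT'⟩ := cells g (W := M * (2 ^ m * (2 ^ m * B / (2 ^ g) ^ m))) (by positivity)
    (k.trans (by
      rw [ENNReal.ofReal_mul (Nat.cast_nonneg _), ENNReal.ofReal_natCast]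
      gcongr
      refine (sum_le_card_nsmul _ _ _ fun J _ => k1 J).trans_eq ?_
      rw [card_univ, Fintype.card_finset, Fintype.card_fin, nsmul_eq_mul,
        ENNReal.ofReal_mul (p := 2 ^ m) (by positivity), ENNReal.ofReal_pow zero_le_two]
      simp))
  refine ⟨T, hT.trans ?_, fun y y1 y2 y3 => hT' _ ((pi_norm_le_iff_of_nonneg zero_le_one).2 y2)
    fun e' he => ⟨y, (e y).2 ⟨y1, fun I => by linarith [y3 I],
      fun i => (y2 i).trans_lt one_lt_two⟩, fun i => ?_⟩⟩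
  · have k5 : 0 ≤ μ * W := by positivity
    calc _ = M * (2 ^ m * (2 ^ m * 4 ^ n)) * (2 ^ g) ^ n * (2 * μ * W + 1 / 2 ^ g) := by
          rw [hB]
          field_simp
      _ ≤ M * (2 ^ m * (2 ^ m * 4 ^ n)) * (2 ^ g) ^ n * (2 * (μ * W + 1 / 2 ^ g)) := by
          gcongr
          linarith
      _ = M * (2 ^ m * (2 ^ m * (4 ^ n * 2))) * (2 ^ g) ^ n * (μ * W + 1 / 2 ^ g) := by ring
      _ ≤ _ := by
          gcongr
          linarith
  · have h1 := Int.abs_sub_lt_one_of_floor_eq_floor (congrFun he i)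
    rw [← mul_sub, abs_mul, abs_of_pos (by positivity)] at h1
    rw [lt_div_iff₀ (by positivity), mul_comm]
    exact h1

/-- The joint count for the fat tubes of a frame. -/
theorem jfat (N m D : ℕ) : ∃ C : ℝ, 1 ≤ C ∧
    ∀ (Φ : Fin (N + 1) → MvPolynomial (Fin (N + 1)) ℝ) (Ψ : Fin m → MvPolynomial (Fin (N + 1)) ℝ)
      (t0 τ L Λ lam μ R ρ : ℝ) (g : ℕ),
      (∀ i, (Φ i).totalDegree ≤ D) → (∀ i, (Ψ i).totalDegree ≤ D) → 0 < τ → τ ≤ L → 0 < Λ →
      0 < lam → 0 < μ → ∃ T : Finset (Z m), (T.card : ℝ) ≤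
          C * (2 ^ g) ^ (N + 1) * (μ * ((L / τ) ^ (N + 1) * Λ ^ (N + 1) / lam) + 1 / 2 ^ g) ∧
        ∀ x ∈ Fat Φ t0 τ L Λ lam R ρ, (∀ i, |eval x (Ψ i)| ≤ 1) →
          (∀ I : Fin (N + 1) → Fin m, |(dm (fun i => Ψ (I i)) x).det| ≤ μ) →
          fl g (fun i => eval x (Ψ i)) ∈ T := by
  classical
  obtain ⟨d, ι, _, K, K0, hK⟩ := fatCov N D
  obtain ⟨C, C1, hC⟩ := jcnt0 (N + 1) m (Option (Fin N ⊕ Fin N)) (Ix N) (d + D + 2)
  refine ⟨(1 + Fintype.card ι) * (C * (1 + K)), one_le_mul_of_one_le_of_one_le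
    (le_add_of_nonneg_right (by positivity)) (one_le_mul_of_one_le_of_one_le C1 (by linarith)),
    fun Φ Ψ t0 τ L Λ lam μ R ρ g hΦ hΨ τ0 τL Λ0 l0 μ0 => ?_⟩
  have L0 : 0 < L := τ0.trans_le τL
  obtain ⟨p, R', p1, p2, p3, p4⟩ := hK Φ t0 τ L Λ lam R ρ hΦ τ0 τL Λ0 l0
  choose T hT hT' using fun i => hC (p i) pnt Ψ R' μ _ g (fun j => (p1 i j).mono (by omega))
    (fun i => (isPoly_pnt i).mono (by omega)) (fun i => (hΨ i).trans (by omega)) (p2 i) μ0
    (by positivity) (p3 i)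
  refine ⟨univ.biUnion T, ?_, fun x hx x1 x2 => ?_⟩
  · calc _ ≤ ∑ i, ((T i).card : ℝ) := by exact_mod_cast card_biUnion_le
      _ ≤ Fintype.card ι * _ := (sum_le_card_nsmul _ _ _ fun i _ => hT i).trans_eq (nsmul_eq_mul _ _)
      _ ≤ (1 + (Fintype.card ι : ℝ)) * (C * (2 ^ g) ^ (N + 1) * ((1 + K) *
            (μ * ((L / τ) ^ (N + 1) * Λ ^ (N + 1) / lam) + 1 / 2 ^ g))) := by
          have k1 : 0 ≤ μ * ((L / τ) ^ (N + 1) * Λ ^ (N + 1) / lam) := by positivity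
          have k2 : (0 : ℝ) ≤ 1 / 2 ^ g := by positivity
          have k3 : (0 : ℝ) ≤ C := by linarith
          gcongr
          · linarith
          · nlinarith [mul_nonneg K0 k2]
      _ = _ := by ring
  · obtain ⟨i, y, y1, rfl⟩ := p4 x hx
    exact mem_biUnion.2 ⟨i, mem_univ _, hT' i y y1 x1 x2⟩

/-- The joint count for a cell declared by a norm. -/
theorem jnorm (N m D E : ℕ) : ∃ C : ℝ, 1 ≤ C ∧
    ∀ (ν : PD (N + 1) E → ℝ) (Ψ : Fin m → MvPolynomial (Fin (N + 1)) ℝ)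
      (t0 τ L J μ R ρ : ℝ) (g : ℕ), Hb ν → (∀ i, (Ψ i).totalDegree ≤ D) → 0 < τ → τ ≤ L → 0 < J →
      0 < μ → ∃ T : Finset (Z m), (T.card : ℝ) ≤
          C * (2 ^ g) ^ (N + 1) * (μ * (L / τ) ^ (N + 1) / J + 1 / 2 ^ g) ∧
        ∀ x ∈ FatN ν t0 τ L J R ρ, (∀ i, |eval x (Ψ i)| ≤ 1) →
          (∀ I : Fin (N + 1) → Fin m, |(dm (fun i => Ψ (I i)) x).det| ≤ μ) →
          fl g (fun i => eval x (Ψ i)) ∈ T := by
  classical
  obtain ⟨C, C1, hC⟩ := jfat N m (D + E)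
  obtain ⟨K, hK⟩ : ∃ K : ℝ, K = (Module.finrank ℝ (PD (N + 1) E) + 1) ^ (N + 1) := ⟨_, rfl⟩
  have K1 : 1 ≤ K := hK ▸ one_le_pow₀ (le_add_of_nonneg_left (Nat.cast_nonneg _))
  refine ⟨K * (C * K), one_le_mul_of_one_le_of_one_le K1 (one_le_mul_of_one_le_of_one_le C1 K1),
    fun ν Ψ t0 τ L J μ R ρ g hν hΨ τ0 τL J0 μ0 => ?_⟩
  have L0 : 0 < L := τ0.trans_le τL
  obtain ⟨f, hf⟩ := fatN_sub hν
  rw [← hK] at hf
  choose T hT hT' using fun I : Fin (N + 1) → Fin (Module.finrank ℝ (PD (N + 1) E)) =>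
    hC (fun i => (f (I i)).1) Ψ t0 τ L 1 (J / K) μ R ρ g
      (fun i => (deg_PD _).trans (by omega)) (fun i => (hΨ i).trans (by omega)) τ0 τL one_pos
      (by positivity) μ0
  refine ⟨univ.biUnion T, ?_, fun x hx x1 x2 => ?_⟩
  · calc _ ≤ ∑ I, ((T I).card : ℝ) := by exact_mod_cast card_biUnion_le
      _ ≤ _ := sum_le_card_nsmul _ _ _ fun I _ => hT I
      _ ≤ K * (C * (2 ^ g) ^ (N + 1) * (K * (μ * (L / τ) ^ (N + 1) / J + 1 / 2 ^ g))) := by
          rw [card_univ, Fintype.card_fun, Fintype.card_fin, Fintype.card_fin, nsmul_eq_mul,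
            Nat.cast_pow]
          have k2 : (0 : ℝ) ≤ 1 / 2 ^ g := by positivity
          have k3 : (0 : ℝ) ≤ C := by linarith
          have e : μ * ((L / τ) ^ (N + 1) * 1 ^ (N + 1) / (J / K)) =
              K * (μ * (L / τ) ^ (N + 1) / J) := by
            rw [one_pow]
            field_simp
          rw [e, mul_add K]
          gcongr
          · rw [hK]
            gcongr
            linarith
          · exact le_mul_of_one_le_left k2 K1
      _ = _ := by ring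
  · obtain ⟨I, hI⟩ := hf t0 τ L J R ρ J0 x hx
    exact mem_biUnion.2 ⟨I, mem_univ _, hT' I x hI x1 x2⟩

/-- The entropy form for a cell declared by a norm; all data are read from the context `G`. -/
theorem chJ (N m D E : ℕ) : ∃ C : ℝ, 0 ≤ C ∧ ∀ {Ω β : Type} (P : FP Ω) (G : Ω → β)
    (ν : β → PD (N + 1) E → ℝ) (Ψ : β → Fin m → MvPolynomial (Fin (N + 1)) ℝ)
    (t0 τ L J μ R ρ : β → ℝ) (g : β → ℕ) (x : Ω → V (N + 1)),
    (∀ ω ∈ P.S, Hb (ν (G ω)) ∧ (∀ i, (Ψ (G ω) i).totalDegree ≤ D) ∧ 0 < τ (G ω) ∧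
      τ (G ω) ≤ L (G ω) ∧ 0 < J (G ω) ∧ 0 < μ (G ω) ∧
      x ω ∈ FatN (ν (G ω)) (t0 (G ω)) (τ (G ω)) (L (G ω)) (J (G ω)) (R (G ω)) (ρ (G ω)) ∧
      (∀ i, |eval (x ω) (Ψ (G ω) i)| ≤ 1) ∧
      ∀ I : Fin (N + 1) → Fin m, |eval (x ω) (AN.Nc.jac fun i => Ψ (G ω) (I i))| ≤ μ (G ω)) →
    ch P (fun ω => fl (g (G ω)) fun i => eval (x ω) (Ψ (G ω) i)) G ≤
      C + P.E fun ω => (N + 1) * g (G ω) * lg + max (-(g (G ω) * lg))
        ((N + 1) * Real.log (L (G ω) / τ (G ω)) + Real.log (μ (G ω)) - Real.log (J (G ω))) := by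
  obtain ⟨C, C1, hC⟩ := jnorm N m D E
  refine ⟨Real.log (2 * C), Real.log_nonneg (by linarith),
    fun P G ν Ψ t0 τ L J μ R ρ g x h => ?_⟩
  refine (ch_detE (fun ω => 2 * C * (2 ^ g (G ω)) ^ (N + 1) * max (1 / 2 ^ g (G ω))
    (μ (G ω) * (L (G ω) / τ (G ω)) ^ (N + 1) / J (G ω)))
    (fun a _ b _ e => by simp only [e]) fun a ha => ?_).trans ?_
  · obtain ⟨h1, h2, h3, h4, h5, h6, -⟩ := h a ha
    obtain ⟨T, hT, hT'⟩ := hC _ _ (t0 (G a)) _ _ _ _ (R (G a)) (ρ (G a)) (g (G a)) h1 h2 h3 h4 h5 h6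
    refine ⟨T, hT.trans ?_, fun b hb e => ?_⟩
    · have k2 : 0 ≤ C * (2 ^ g (G a)) ^ (N + 1) := by positivity
      nlinarith [mul_le_mul_of_nonneg_left (add_le_add (le_max_right (1 / 2 ^ g (G a) : ℝ)
        (μ (G a) * (L (G a) / τ (G a)) ^ (N + 1) / J (G a))) (le_max_left (1 / 2 ^ g (G a) : ℝ)
        (μ (G a) * (L (G a) / τ (G a)) ^ (N + 1) / J (G a)))) k2]
    · obtain ⟨-, -, -, -, -, -, b1, b2, b3⟩ := h b hb
      rw [e] at b1 b2 b3 ⊢
      exact hT' _ b1 b2 fun I => (det_dm _ _).symm ▸ b3 I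
  · rw [← P.E_const (Real.log (2 * C)), ← FP.E_add]
    refine P.E_mono fun ω hω => ?_
    obtain ⟨-, -, h3, h4, h5, h6, -⟩ := h ω hω
    have k : 0 < L (G ω) / τ (G ω) := div_pos (h3.trans_le h4) h3
    rw [Real.log_mul (by positivity) (by positivity), Real.log_mul (by positivity) (by positivity),
      Real.log_pow, Real.log_pow, lg, add_assoc]
    push_cast
    rw [mul_assoc ((N : ℝ) + 1)]
    gcongr
    rcases max_choice (1 / 2 ^ g (G ω) : ℝ)
      (μ (G ω) * (L (G ω) / τ (G ω)) ^ (N + 1) / J (G ω)) with e | e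
    · rw [e, one_div, Real.log_inv, Real.log_pow]
      exact le_max_left _ _
    · rw [e, Real.log_div (by positivity) h5.ne', Real.log_mul h6.ne' (by positivity),
        Real.log_pow]
      refine le_trans (le_of_eq ?_) (le_max_right _ _)
      push_cast
      ring

/-- The entropy form for the fat tubes of a frame. -/
theorem chJF (N m D : ℕ) : ∃ C : ℝ, 0 ≤ C ∧ ∀ {Ω β : Type} (P : FP Ω) (G : Ω → β)
    (Φ : β → Fin (N + 1) → MvPolynomial (Fin (N + 1)) ℝ)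
    (Ψ : β → Fin m → MvPolynomial (Fin (N + 1)) ℝ)
    (t0 τ L Λ lam μ R ρ : β → ℝ) (g : β → ℕ) (x : Ω → V (N + 1)),
    (∀ ω ∈ P.S, (∀ i, (Φ (G ω) i).totalDegree ≤ D) ∧ (∀ i, (Ψ (G ω) i).totalDegree ≤ D) ∧
      0 < τ (G ω) ∧ τ (G ω) ≤ L (G ω) ∧ 0 < Λ (G ω) ∧ 0 < lam (G ω) ∧ 0 < μ (G ω) ∧
      x ω ∈ Fat (Φ (G ω)) (t0 (G ω)) (τ (G ω)) (L (G ω)) (Λ (G ω)) (lam (G ω)) (R (G ω))
        (ρ (G ω)) ∧ (∀ i, |eval (x ω) (Ψ (G ω) i)| ≤ 1) ∧
      ∀ I : Fin (N + 1) → Fin m, |eval (x ω) (AN.Nc.jac fun i => Ψ (G ω) (I i))| ≤ μ (G ω)) →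
    ch P (fun ω => fl (g (G ω)) fun i => eval (x ω) (Ψ (G ω) i)) G ≤
      C + P.E fun ω => (N + 1) * g (G ω) * lg + max (-(g (G ω) * lg))
        ((N + 1) * (Real.log (L (G ω) / τ (G ω)) + Real.log (Λ (G ω))) +
          Real.log (μ (G ω)) - Real.log (lam (G ω))) := by
  obtain ⟨C, C1, hC⟩ := jfat N m D
  refine ⟨Real.log (2 * C), Real.log_nonneg (by linarith),
    fun P G Φ Ψ t0 τ L Λ lam μ R ρ g x h => ?_⟩
  refine (ch_detE (fun ω => 2 * C * (2 ^ g (G ω)) ^ (N + 1) * max (1 / 2 ^ g (G ω))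
    (μ (G ω) * ((L (G ω) / τ (G ω)) ^ (N + 1) * Λ (G ω) ^ (N + 1) / lam (G ω))))
    (fun a _ b _ e => by simp only [e]) fun a ha => ?_).trans ?_
  · obtain ⟨h1, h2, h3, h4, h5, h6, h7, -⟩ := h a ha
    obtain ⟨T, hT, hT'⟩ := hC _ _ (t0 (G a)) _ _ _ _ _ (R (G a)) (ρ (G a)) (g (G a))
      h1 h2 h3 h4 h5 h6 h7
    refine ⟨T, hT.trans ?_, fun b hb e => ?_⟩
    · have k2 : 0 ≤ C * (2 ^ g (G a)) ^ (N + 1) := by positivity
      nlinarith [mul_le_mul_of_nonneg_left (add_le_add (le_max_right (1 / 2 ^ g (G a) : ℝ)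
        (μ (G a) * ((L (G a) / τ (G a)) ^ (N + 1) * Λ (G a) ^ (N + 1) / lam (G a))))
        (le_max_left (1 / 2 ^ g (G a) : ℝ)
        (μ (G a) * ((L (G a) / τ (G a)) ^ (N + 1) * Λ (G a) ^ (N + 1) / lam (G a))))) k2]
    · obtain ⟨-, -, -, -, -, -, -, b1, b2, b3⟩ := h b hb
      rw [e] at b1 b2 b3 ⊢
      exact hT' _ b1 b2 fun I => (det_dm _ _).symm ▸ b3 I
  · rw [← P.E_const (Real.log (2 * C)), ← FP.E_add]
    refine P.E_mono fun ω hω => ?_
    obtain ⟨-, -, h3, h4, h5, h6, h7, -⟩ := h ω hω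
    have k : 0 < L (G ω) / τ (G ω) := div_pos (h3.trans_le h4) h3
    rw [Real.log_mul (by positivity) (by positivity), Real.log_mul (by positivity) (by positivity),
      Real.log_pow, Real.log_pow, lg, add_assoc]
    push_cast
    rw [mul_assoc ((N : ℝ) + 1)]
    gcongr
    rcases max_choice (1 / 2 ^ g (G ω) : ℝ)
      (μ (G ω) * ((L (G ω) / τ (G ω)) ^ (N + 1) * Λ (G ω) ^ (N + 1) / lam (G ω))) with e | e
    · rw [e, one_div, Real.log_inv, Real.log_pow]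
      exact le_max_left _ _
    · rw [e, Real.log_mul h7.ne' (by positivity), Real.log_div (by positivity) h6.ne',
        Real.log_mul (by positivity) (by positivity), Real.log_pow, Real.log_pow]
      refine le_trans (le_of_eq ?_) (le_max_right _ _)
      push_cast
      ring

/-- The number of cubes met by a bounded polynomial image of `ℝ ^ n`. -/
theorem vcnt (n m d : ℕ) : ∃ C : ℝ, 1 ≤ C ∧ ∀ (F : Fin m → MvPolynomial (Fin n) ℝ) (R : ℝ) (g : ℕ),
    (∀ a, (F a).totalDegree ≤ d) → ∃ T : Finset (Z m), (T.card : ℝ) ≤ C * (2 ^ g) ^ n ∧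
      ∀ x : V n, ‖x‖ ≤ R → (∀ a, |eval x (F a)| ≤ 1) → fl g (fun a => eval x (F a)) ∈ T := by
  classical
  obtain ⟨M, hM⟩ := nbhdJ (Fin m) (Fin n) (Fin n ⊕ Fin m) (2 * (d + 1))
  refine ⟨1 + M * (2 ^ m * (2 ^ m * 4 ^ n)), le_add_of_nonneg_right (by positivity),
    fun F R g hF => ?_⟩
  have q1 : ∀ a, IsPoly d fun x => eval x (F a) := fun a => ⟨_, hF a, fun _ => rfl⟩
  have s1 : (1 : ℝ) ≤ 2 ^ g := one_le_pow₀ one_le_two
  have g0 : (0 : ℝ) < 1 / 2 ^ g := by positivity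
  have m1 : 0 < |R| + 1 := by positivity
  set P : Fin n ⊕ Fin m → V n → ℝ := Sum.elim (fun i y => (|R| + 1) ^ 2 - y i ^ 2)
    fun a y => 2 ^ 2 - eval y (F a) ^ 2 with hP
  have e : ∀ y, (∀ l, 0 < P l y) ↔ (∀ i, |y i| < |R| + 1) ∧ ∀ a, |eval y (F a)| < 2 := fun y => by
    simp only [hP, Sum.forall, Sum.elim_inl, Sum.elim_inr, sub_pos, sq_lt_sq, abs_of_pos m1,
      abs_two]
  have k := hM P (fun a y => eval y (F a)) (1 / 2 ^ g) (|R| + 1)
    (fun J => {w | (∀ a, a ∈ J → |w a| ≤ 1 / 2 ^ g) ∧ (fun a : {a // ¬a ∈ J} => w a.1) ∈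
      (fun x (a : {a // ¬a ∈ J}) => eval x (F a.1)) '' {x | ∀ a, |eval x (F a)| < 2}})
    (fun l => by
      rcases l with i | a
      · exact (H83.IsPoly.const _ _).sub (((H83.IsPoly.coord i).pow 2).mono (by omega))
      · exact (H83.IsPoly.const _ _).sub (((q1 a).pow 2).mono (by omega)))
    (fun a => (q1 a).mono (by omega)) g0
    fun y hy => by
      obtain ⟨y1, y2⟩ := (e y).1 hy
      refine ⟨(pi_norm_le_iff_of_nonneg m1.le).2 fun i => (y1 i).le,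
        fun J v hv => ⟨fun a ha => ?_, y, y2, funext fun a => ?_⟩⟩
      · rw [piecewise_eq_of_mem _ _ _ ha]
        exact (hv a).le
      · exact (piecewise_eq_of_notMem J v (fun a => eval y (F a)) a.2).symm
  obtain ⟨B, hB⟩ : ∃ B : ℝ, B = 4 ^ n * (2 ^ g) ^ n := ⟨_, rfl⟩
  have B0 : 0 ≤ B := by rw [hB]; positivity
  have k1 : ∀ J : Finset (Fin m), volume {w : Fin m → ℝ | (∀ a, a ∈ J → |w a| ≤ 1 / 2 ^ g) ∧
      (fun a : {a // ¬a ∈ J} => w a.1) ∈
        (fun x (a : {a // ¬a ∈ J}) => eval x (F a.1)) '' {x | ∀ a, |eval x (F a)| < 2}} ≤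
      ENNReal.ofReal (2 ^ m * B / (2 ^ g) ^ m) := fun J => by
    have := face_le (fun a => a ∈ J) s1 B0 (hB ▸ vol_box (fun a : {a // ¬a ∈ J} => F a.1)
      (A := {x | ∀ a, |eval x (F a)| < 2}) s1 fun x hx a => (hx _).le)
    rwa [Fintype.card_fin] at this
  obtain ⟨T, hT, hT'⟩ := cells g (W := M * (2 ^ m * (2 ^ m * B / (2 ^ g) ^ m))) (by positivity)
    (k.trans (by
      rw [ENNReal.ofReal_mul (Nat.cast_nonneg _), ENNReal.ofReal_natCast]
      gcongr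
      refine (sum_le_card_nsmul _ _ _ fun J _ => k1 J).trans_eq ?_
      rw [card_univ, Fintype.card_finset, Fintype.card_fin, nsmul_eq_mul,
        ENNReal.ofReal_mul (p := 2 ^ m) (by positivity), ENNReal.ofReal_pow zero_le_two]
      simp))
  refine ⟨T, hT.trans ?_, fun y y1 y2 => hT' _ ((pi_norm_le_iff_of_nonneg zero_le_one).2 y2)
    fun e' he => ⟨y, (e y).2 ⟨fun i => ?_, fun i => (y2 i).trans_lt one_lt_two⟩, fun i => ?_⟩⟩
  · calc _ = (M : ℝ) * (2 ^ m * (2 ^ m * 4 ^ n)) * (2 ^ g) ^ n := by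
          rw [hB]
          field_simp
      _ ≤ _ := by
          gcongr
          linarith
  · exact ((norm_le_pi_norm y i).trans (y1.trans (le_abs_self R))).trans_lt (lt_add_one _)
  · have h1 := Int.abs_sub_lt_one_of_floor_eq_floor (congrFun he i)
    rw [← mul_sub, abs_mul, abs_of_pos (by positivity)] at h1
    rw [lt_div_iff₀ (by positivity), mul_comm]
    exact h1

/-- The entropy form: the values of polynomials read from `G` at a point of `ℝ ^ n`. -/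
theorem chV (n m d : ℕ) : ∃ C : ℝ, 0 ≤ C ∧ ∀ {Ω β : Type} (P : FP Ω) (G : Ω → β)
    (F : β → Fin m → MvPolynomial (Fin n) ℝ) (g : β → ℕ) (x : Ω → V n),
    (∀ ω ∈ P.S, ∀ a, (F (G ω) a).totalDegree ≤ d ∧ |eval (x ω) (F (G ω) a)| ≤ 1) →
    ch P (fun ω => fl (g (G ω)) fun a => eval (x ω) (F (G ω) a)) G ≤
      C + P.E fun ω => n * g (G ω) * lg := by
  obtain ⟨C, C1, hC⟩ := vcnt n m d
  refine ⟨Real.log C, Real.log_nonneg C1, fun P G F g x h => ?_⟩
  refine (ch_detE (fun ω => C * (2 ^ g (G ω)) ^ n) (fun a _ b _ e => by simp only [e])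
    fun a ha => ?_).trans ?_
  · obtain ⟨T, hT, hT'⟩ := hC _ (∑ b ∈ P.S, ‖x b‖) (g (G a)) fun i => (h a ha i).1
    refine ⟨T, hT, fun b hb e => ?_⟩
    have k := fun i => (h b hb i).2
    rw [e] at k ⊢
    exact hT' _ (single_le_sum (f := fun b => ‖x b‖) (fun _ _ => norm_nonneg _) hb) k
  · rw [← P.E_const (Real.log C), ← FP.E_add]
    refine P.E_mono fun ω _ => le_of_eq ?_
    rw [Real.log_mul (by positivity) (by positivity), Real.log_pow, Real.log_pow, lg, mul_assoc]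

end Pool.Agent.MP_5168f5_an.QA
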