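import Pool.Agent.MP_5168f5_an.QA.O1Api
import Pool.Agent.MP_5168f5_an.QA.GapLow
import Pool.Agent.MP_5168f5_an.QA.CutD
import Pool.Agent.MP_5168f5_an.QA.JCnt
import Pool.Agent.MP_5168f5_an.QA.FillA
import Pool.Agent.MP_5168f5_an.AN.G39Val

/-! Grid points of a tube: the Remez inequality, conditioned laws, the joint count. -/

namespace Pool.Agent.MP_5168f5_an.QA.TiA

open H19 H17S H17F R4 AN MvPolynomial Finset
open C1 (PD Hb deg_PD)
open En (tb)
open Nc (Pl ev jac eval_aeval)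
open Pk (cn kc)
open K31 (Dn)

variable {N D M c J : ℕ} {l : Ln N} {h : ℤ} {Ω Λ β : Type}

/-- The point of the tube with the parameter `a`. -/
noncomputable def xp (M c : ℕ) (l : Ln N) (h : ℤ) (a : V (N + 1)) : V (N + 1) :=
  tb M l.1 l.2 ((h + a 0) / 2 ^ c) fun i => a i.succ

/-- The height as a polynomial. -/
noncomputable def pT (N c : ℕ) (h : ℤ) : Pl (N + 1) :=
  C ((h : ℝ) / 2 ^ c) + C ((1 : ℝ) / 2 ^ c) * X 0

/-- The parametrisation of the tube. -/
noncomputable def par (M c : ℕ) (l : Ln N) (h : ℤ) : Fin (N + 1) → Pl (N + 1) :=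
  Fin.cons (pT N c h) fun i => C (l.1 i) + C (l.2 i) * pT N c h + C ((1 : ℝ) / 2 ^ M) * X i.succ

theorem deg_aff {n : ℕ} (a : ℝ) {F G : Pl n} (h : F.totalDegree ≤ 1) (h' : G.totalDegree ≤ 1) :
    (F + C a * G).totalDegree ≤ 1 :=
  (totalDegree_add _ _).trans (max_le h ((G39.deg_C_mul _ _).trans h'))

theorem deg_par (i : Fin (N + 1)) : (par M c l h i).totalDegree ≤ 1 := by
  have e : (pT N c h).totalDegree ≤ 1 := deg_aff _ (by simp) (totalDegree_X _).le
  exact i.cases e fun i => deg_aff _ (deg_aff _ (by simp) e) (totalDegree_X _).le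

theorem ev_par (a : V (N + 1)) : ev (par M c l h) a = xp M c l h a := by
  funext i
  refine i.cases ?_ fun i => ?_ <;> simp [ev, par, pT, tb, xp] <;> ring

theorem xp_onto {y : V (N + 1)} (hy : y ∈ seg M c l h 5) :
    ∃ a : V (N + 1), (∀ i, |a i| ≤ 5) ∧ y = xp M c l h a := by
  obtain ⟨t, ξ, a, b, d, rfl⟩ := hy
  refine ⟨Fin.cons (2 ^ c * t - h) ξ, fun i => i.cases (abs_le.2 ⟨by simp; linarith, by
    simp; linarith⟩) fun i => (norm_le_pi_norm ξ i).trans d, ?_⟩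
  simp only [xp, Fin.cons_zero, Fin.cons_succ]
  congr 1
  field_simp
  ring

/-- The Remez inequality for the grid points of the tube. -/
theorem remS (N E : ℕ) : ∃ B : ℝ, 1 ≤ B ∧ ∀ (M c J : ℕ) (l : Ln N) (h : ℤ) (F : Pl (N + 1))
    (θ κ : ℝ), F.totalDegree ≤ E → 0 < κ → B * κ⁻¹ ^ ((N + 1) * E) ≤ 2 ^ J →
    κ ≤ pb (grid (N + 1) J) (fun a => |eval (xp M c l h (gp a)) F| ≤ θ) →
    ∀ y ∈ seg M c l h 5, |eval y F| ≤ B * κ⁻¹ ^ ((N + 1) * E) * θ := by
  obtain ⟨B, B1, hB⟩ := S20.grid_poly (N + 1) E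
  have p : (1 : ℝ) ≤ 5 ^ E := one_le_pow₀ (by norm_num)
  refine ⟨5 ^ E * (B * B ^ ((N + 1) * E)), one_le_mul_of_one_le_of_one_le p
    (one_le_mul_of_one_le_of_one_le B1 (one_le_pow₀ B1)), fun M c J l h F θ κ hF k0 k1 k2 y hy => ?_⟩
  obtain ⟨q, q1, rfl⟩ := xp_onto hy
  have d : (aeval (par M c l h) F).totalDegree ≤ E :=
    (kc.deg _ _ _ _ hF deg_par).trans_eq (mul_one E)
  have e : 5 ^ E * (B * B ^ ((N + 1) * E)) * κ⁻¹ ^ ((N + 1) * E) =
      5 ^ E * (B * (B / κ) ^ ((N + 1) * E)) := by rw [div_eq_mul_inv, mul_pow]; ring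
  rw [e] at k1 ⊢
  have := (hB J _ d).1 θ κ k0 ((le_mul_of_one_le_left (by positivity) p).trans k1)
    (by simpa only [eval_aeval, ev_par] using k2)
  rw [← ev_par, ← eval_aeval]
  exact (kc.val _ E 5 q d (by norm_num) q1).trans ((mul_le_mul_of_nonneg_right this
    (by positivity)).trans_eq (by ring))

/-- The grid is uniform on all coarser cells. -/
theorem pb_cell {n j : ℕ} (hj : j ≤ J) (cc : Z n) :
    pb (grid n J) (fun a => fl j (gp a) = cc) ≤ 1 / (2 ^ j) ^ n := by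
  classical
  obtain ⟨i, rfl⟩ := Nat.exists_eq_add_of_le hj
  have k : (({a | fl j (gp a) = cc} : Finset (Fin n → Fin (2 ^ (j + i)))).card : ℝ) ≤
      (2 ^ i) ^ n := by
    have := card_le_card_of_injOn (s := ({a | fl j (gp a) = cc} : Finset (Fin n → Fin (2 ^ (j + i)))))
      (t := (univ : Finset (Fin n → Fin (2 ^ i))))
      (fun a k => ⟨a k % 2 ^ i, Nat.mod_lt _ (by positivity)⟩) (fun _ _ => mem_univ _)
      fun a ha b hb e => funext fun k => Fin.ext (by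
        have e1 : (a k : ℕ) % 2 ^ i = b k % 2 ^ i := congrArg Fin.val (congrFun e k)
        have e2 := congrFun ((mem_filter.1 ha).2.trans (mem_filter.1 hb).2.symm) k
        have e3 : ∀ x : ℕ, ⌊(2 : ℝ) ^ j * (x / 2 ^ (j + i))⌋ = (x / 2 ^ i : ℕ) := fun x => by
          rw [show (2 : ℝ) ^ j * (x / 2 ^ (j + i)) = x / (2 ^ i : ℕ) by push_cast; field_simp; ring,
            Int.floor_div_natCast, Int.floor_natCast]
          rfl
        simp only [fl, gp, e3, Nat.cast_inj] at e2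
        rw [← Nat.div_add_mod (a k) (2 ^ i), e1, e2, Nat.div_add_mod])
    simp only [card_univ, Fintype.card_fun, Fintype.card_fin] at this
    exact_mod_cast this
  rw [pb_eq]
  refine (sum_le_card_nsmul _ _ (1 / (2 ^ (j + i)) ^ n) fun a _ => le_of_eq ?_).trans ?_
  · simp [grid, FP.unif]
  rw [nsmul_eq_mul]
  refine (mul_le_mul_of_nonneg_right (le_trans (le_of_eq ?_) k) (by positivity)).trans_eq ?_
  · congr
  · rw [pow_add, mul_pow]
    field_simp

/-- The law given an event that has a fixed share of the grid over each of its points. -/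
theorem core (P : FP Ω) (N J : ℕ) (B : NW Ω N J → Prop) {p : ℝ} (p0 : 0 < p)
    (hp : 2 * p ≤ pb (NQ P N J) B) : ∃ Q : FP (NW Ω N J), Dn p⁻¹ Q Prod.fst P ∧
      (∀ v ∈ Q.S, v ∈ (NQ P N J).S ∧ B v ∧ p ≤ pb (grid (N + 1) J) fun a => B (v.1, a)) ∧
      ∀ (β : Type) (Z : Ω → β) (R m : ℕ), R ≤ m → R * m ≤ J → p⁻¹ ≤ Real.exp (m / R) →
        Spr Q (fun v => gp v.2) (fun v => Z v.1) R fun _ => m := by
  obtain ⟨G, hG⟩ : ∃ G : Ω → Prop, G = fun ω => p ≤ pb (grid (N + 1) J) fun a => B (ω, a) :=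
    ⟨_, rfl⟩
  have a1 : p ≤ pb (NQ P N J) fun v => B v ∧ G v.1 := by
    have b1 := pb_split (NQ P N J) B fun v => G v.1
    have b2 : pb (NQ P N J) (fun v => B v ∧ ¬G v.1) ≤ p := by
      rw [S20.pb_prod, ← P.E_const p]
      refine P.E_mono fun ω _ => ?_
      by_cases k : G ω
      · exact (pb_zero fun _ _ u => u.2 k).trans_le p0.le
      · exact (pb_mono fun _ _ u => u.1).trans (not_le.1 (hG ▸ k :)).le
    linarith
  have a2 := ex_of_pb (p0.trans_le a1)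
  refine ⟨cE (NQ P N J) fun v => B v ∧ G v.1, ?_, fun v hv => ?_, fun β Z R m h1 h2 h3 v hv =>
    ⟨fun i => gp_bd v.2 i, h1, fun j hj cc => ?_⟩⟩
  · simpa using (K31.dn_cE _ p0 a1).trans (K31.dn_law (fst_law P N J))
  · obtain ⟨b1, b2, b3⟩ := (mem_cE a2 v).1 hv
    exact ⟨b1, b2, by simpa only [hG] using b3⟩
  obtain ⟨b1, b2⟩ := (mem_cE a2 v).1 hv
  have b3 : ∃ w ∈ (NQ P N J).S, (B w ∧ G w.1) ∧ Z w.1 = Z v.1 := ⟨v, b1, b2, rfl⟩
  rw [cv, cE_cE b3]
  have b4 := pb_cE (NQ P N J) (fun w => (B w ∧ G w.1) ∧ Z w.1 = Z v.1) fun w => fl j (gp w.2) = cc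
  have b5 : pb (NQ P N J) (fun w => ((B w ∧ G w.1) ∧ Z w.1 = Z v.1) ∧ fl j (gp w.2) = cc) ≤
      p⁻¹ / (2 ^ j) ^ (N + 1) * pb (NQ P N J) fun w => (B w ∧ G w.1) ∧ Z w.1 = Z v.1 := by
    rw [S20.pb_prod, S20.pb_prod, ← P.E_mul]
    refine P.E_mono fun ω _ => ?_
    by_cases k : G ω ∧ Z ω = Z v.1
    · refine ((pb_mono fun _ _ u => u.2).trans (pb_cell (hj.trans h2) cc)).trans ?_
      have : p ≤ pb (grid (N + 1) J) fun a => (B (ω, a) ∧ G ω) ∧ Z ω = Z v.1 :=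
        (hG ▸ k.1 :).trans (pb_mono fun _ _ u => ⟨⟨u, k.1⟩, k.2⟩)
      refine le_trans (le_of_eq ?_) (mul_le_mul_of_nonneg_left this (by positivity))
      field_simp
    · exact (pb_zero fun _ _ u => k ⟨u.1.1.2, u.1.2⟩).trans_le
        (mul_nonneg (by positivity) (pb_nonneg _ _))
  rw [← b4, mul_comm] at b5
  exact (le_of_mul_le_mul_right b5 (pb_pos _ b3)).trans
    (div_le_div_of_nonneg_right h3 (by positivity))

theorem jc_w (w : Fin (N + 1) → ℝ) (Φ : Ch N D) (y : V (N + 1)) :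
    |eval y (jac fun i => C (w i) * (Φ i).1)| = |∏ i, w i| * jc Φ y := by
  rw [Vo.alg.scl, map_mul, eval_C, abs_mul, jc]

/-- The joint count of the cell of all values and the cube of a chart. -/
theorem cntJ (N D : ℕ) : ∃ A : ℝ, 0 ≤ A ∧ ∀ {Ω : Type} (P : FP Ω) (g : Sh N Ω) (M c k s m D₀ : ℕ)
    (t : ℝ) (S : Ω → Dc N D) (Φ : Ω → Ch N D) (x : Ω → V (N + 1)), g.Box P → Val P g M c S →
    Fn P Φ S → k ≤ s + m → Real.exp t * 2 ^ k ≤ 2 ^ s →
    (∀ ω ∈ P.S, x ω ∈ seg M c (g.l ω) (S ω).h 4 ∧ (S ω).Tight M c (g.l ω) t ∧ Lo D₀ (Φ ω) ∧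
      Un (S ω).ν (Φ ω) ∧ ∀ Ψ, Lo D₀ Ψ → Un (S ω).ν Ψ → 2 ^ k * jc Ψ (x ω) ≤ 2 * (S ω).J) →
    ch P (fun ω => (vc (S ω).ν m (x ω), fl (s + m) (uc (Φ ω) (x ω)))) S + k * lg ≤
      (N + 1) * lg * (s + m : ℕ) + A := by
  obtain ⟨A, A0, hA⟩ := chJ N (N + 1 + dV N D) D D
  have lg0 : 0 ≤ lg := Real.log_nonneg one_le_two
  refine ⟨A + lg, by positivity, fun {Ω} P g M c k s m D₀ t S Φ x hb hv hf hk ht H => ?_⟩
  let w : Fin (N + 1 + dV N D) → ℝ := Fin.append (fun _ => 1) fun _ => (2 ^ s)⁻¹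
  let U : Dc N D × Ch N D → Fin (N + 1 + dV N D) → VD N D := fun b => Fin.append b.2 (bs b.1.ν)
  have p : (0 : ℝ) < 2 ^ s := by positivity
  have w1 : ∀ i, 0 ≤ w i ∧ w i ≤ 1 := fun i => i.addCases (fun _ => by simp [w]) fun _ => by
    simpa [w] using inv_le_one_of_one_le₀ (one_le_pow₀ (one_le_two (α := ℝ)) (n := s))
  have k1 := hA P (fun ω => (S ω, Φ ω)) (fun b => b.1.ν) (fun b i => C (w i) * (U b i).1)
    (fun b => b.1.h / 2 ^ c) (fun _ => 1 / 2 ^ c) (fun _ => 1 / 2 ^ c) (fun b => b.1.J)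
    (fun b => 2 * b.1.J / 2 ^ k) (fun _ => 1) (fun _ => 5 / 2 ^ M) (fun _ => s + m) x fun ω hω => by
      obtain ⟨-, h1, h2, h3, Ψ, h4, y, y1, y2⟩ := hv ω hω
      obtain ⟨b1, b2, -⟩ := hb ω hω
      obtain ⟨x1, x2, x3, x4, x5⟩ := H ω hω
      have x6 := seg_mono (r' := 5) (by norm_num) x1
      have u1 : ∀ i, (S ω).ν (U (S ω, Φ ω) i) ≤ 1 := fun i =>
        i.addCases (fun j => by simpa [U] using x4 j) fun a => by simpa [U] using (bs_one h1 a).le
      refine ⟨h1, fun i => (G39.deg_C_mul _ _).trans (deg_PD _), by positivity, le_rfl, h2,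
        by positivity, ⟨_, _, b1, b2, fun s ξ a b k => h3 _ (mem_seg.2 ⟨s, ξ, a, b, k, rfl⟩), ?_,
          ?_⟩, fun i => ?_, fun I => ?_⟩
      · obtain ⟨s, ξ, a, b, k, rfl⟩ := mem_seg.1 (seg_mono (r' := 5) (by norm_num) y1)
        exact ⟨Ψ, s, ξ, h4, a, b, k, (det_dm _ _).symm ▸ y2⟩
      · obtain ⟨s, ξ, a, b, k, e⟩ := mem_seg.1 x6
        exact ⟨s, ξ, abs_le.2 ⟨by linarith [show (0 : ℝ) < 1 / 2 ^ c by positivity], by linarith⟩,
          k, e⟩
      · rw [map_mul, eval_C, abs_mul, abs_of_nonneg (w1 i).1]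
        exact mul_le_one₀ (w1 i).2 (abs_nonneg _) ((h3 _ x6 _).trans (u1 i))
      rw [jc_w (fun i => w (I i)) fun i => U (S ω, Φ ω) (I i), le_div_iff₀' (by positivity),
        abs_of_nonneg (prod_nonneg fun i _ => (w1 _).1)]
      have j0 : 0 ≤ jc (fun i => U (S ω, Φ ω) (I i)) (x ω) := abs_nonneg _
      by_cases e : ∀ i, ∃ j, I i = Fin.castAdd _ j
      · choose j hj using e
        refine le_trans (mul_le_mul_of_nonneg_left (mul_le_of_le_one_left j0 (prod_le_one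
          (fun i _ => (w1 _).1) fun i _ => (w1 _).2)) (by positivity))
          (x5 _ (fun i => ?_) fun i => u1 _)
        simpa [U, hj] using x3 (j i)
      obtain ⟨i, hi⟩ := not_forall.1 e
      have e1 : w (I i) = (2 ^ s)⁻¹ := by
        revert hi
        exact (I i).addCases (fun j hi => absurd ⟨j, rfl⟩ hi) fun a _ => by simp [w]
      have e2 : ∏ i, w (I i) ≤ (2 ^ s)⁻¹ := by
        rw [← mul_prod_erase _ _ (mem_univ i), e1]
        exact mul_le_of_le_one_right (by positivity)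
          (prod_le_one (fun i _ => (w1 _).1) fun i _ => (w1 _).2)
      have e3 := mul_le_mul e2 (x2 _ (fun i => u1 (I i)) _ x6) j0 (by positivity)
      refine (mul_le_mul_of_nonneg_left e3 (by positivity)).trans ?_
      rw [← mul_assoc, ← mul_assoc]
      refine mul_le_mul_of_nonneg_right ?_ h2.le
      rw [mul_right_comm, mul_inv_le_iff₀ p]
      linarith
  have k2 := (ch_le (F := fun ω => (vc (S ω).ν m (x ω), fl (s + m) (uc (Φ ω) (x ω)))) (G := S)
    (fun a ha b hb e => ?_) ((Fn.rfl S).pair hf)).trans k1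
  · have k3 : P.E (fun ω => (N + 1) * (s + m : ℕ) * lg + max (-((s + m : ℕ) * lg))
        ((N + 1) * Real.log (1 / 2 ^ c / (1 / 2 ^ c)) + Real.log (2 * (S ω).J / 2 ^ k) -
          Real.log (S ω).J)) ≤ (N + 1) * lg * (s + m : ℕ) + lg - k * lg := by
      rw [← P.E_const ((N + 1) * lg * (s + m : ℕ) + lg - k * lg)]
      refine P.E_mono fun ω hω => ?_
      have j0 := (hv ω hω).2.pos
      have : (k : ℝ) * lg ≤ (s + m : ℕ) * lg := mul_le_mul_of_nonneg_right (Nat.cast_le.2 hk) lg0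
      rw [div_self (by positivity), Real.log_one, Real.log_div (by positivity) (by positivity),
        Real.log_mul two_ne_zero j0.ne', Real.log_pow, ← lg]
      rcases max_choice (-((s + m : ℕ) * lg)) ((N + 1 : ℝ) * 0 + (lg + Real.log (S ω).J - k * lg) -
        Real.log (S ω).J) with e | e <;> rw [e] <;> linarith
    linarith
  obtain ⟨e1, e2⟩ := Prod.mk.inj e
  refine Prod.ext (funext fun i => ?_) (funext fun i => ?_)
  · have := congrFun e1 (Fin.natAdd _ i)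
    simp only [fl, w, U, Fin.append_right, map_mul, eval_C, pow_add, mul_assoc,
      mul_left_comm ((2 : ℝ) ^ s), inv_mul_cancel_left₀ p.ne'] at this
    exact this
  · have := congrFun e1 (Fin.castAdd _ i)
    simp only [fl, w, U, Fin.append_left, map_mul, eval_C, one_mul] at this
    exact this

end Pool.Agent.MP_5168f5_an.QA.TiA
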