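import Pool.Agent.MP_5168f5_an.QA.TiE
import Pool.Agent.MP_5168f5_an.QA.TiA

/-! No thin common polynomial of the segment and the cell of values; tightness in one unit. -/

namespace Pool.Agent.MP_5168f5_an.QA.TC

open H19 H17S H17F R4 AN Filter MvPolynomial Finset
open C1 (PD Hb Adm deg_PD)
open G39 (dl dl_inv dl_pos)

variable {N D : ℕ}

theorem spr_succ {Ω β : Type} {P : FP Ω} {q : Ω → V (N + 1)} {Z : Ω → β} {R : ℕ} {m : Ω → ℕ}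
    (h : Spr P q Z (R + 1) m) : Spr P q Z R m := fun ω hω => by
  obtain ⟨a, b, c⟩ := h ω hω
  refine ⟨a, by omega, fun j hj cc => ?_⟩
  rcases Nat.eq_zero_or_pos R with rfl | r0
  · obtain rfl : j = 0 := by omega
    simpa using pb_le_one _ _
  · refine (c j (hj.trans (Nat.mul_le_mul_right _ (Nat.le_succ R))) cc).trans ?_
    gcongr
    exact Nat.le_succ R

theorem pigeon {Ω ι : Type} [Fintype ι] (P : FP Ω) (E : Ω → Prop) (f : Ω → ι) :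
    ∃ j, pb P E ≤ Fintype.card ι * pb P fun ω => E ω ∧ f ω = j := by
  obtain ⟨ω, -⟩ := Cx.ex_mem P
  obtain ⟨j, -, hj⟩ := exists_max_image univ (fun j => pb P fun ω => E ω ∧ f ω = j)
    ⟨f ω, mem_univ _⟩
  exact ⟨j, (KSA.pb_sum P E f).trans_le ((sum_le_card_nsmul _ _ _ hj).trans_eq (nsmul_eq_mul _ _))⟩

/-- The dyadic class of the best low chart. -/
theorem lowC {D₀ : ℕ} (h1 : 1 ≤ D₀) (hD : D₀ ≤ D) :
    ∃ f : (VD N D → ℝ) → (Fin (N + 1) → Fin (dV N D₀)) → Ch N D, ∀ (δ : Dc N D)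
      (s : Set (V (N + 1))) (u : ℕ), ∃ (k : Fin (5 * u + 1)) (I : Fin (N + 1) → Fin (dV N D₀)),
      Hb δ.ν → 0 < δ.J → 1 + dV N D₀ ^ (N + 1) ≤ u →
      (∃ Φ, Lo D₀ Φ ∧ Un δ.ν Φ ∧ ∃ y ∈ s, δ.J ≤ Real.exp (2 * u) * jc Φ y) →
      (∀ Φ, Lo D₀ Φ → Un δ.ν Φ → ∀ y ∈ s, Real.exp u * jc Φ y ≤ δ.J) →
      Lo D₀ (f δ.ν I) ∧ Un δ.ν (f δ.ν I) ∧
      (∃ y ∈ s, δ.J ≤ 2 ^ (k + dV N D₀ ^ (N + 1)) * jc (f δ.ν I) y) ∧
      ∀ Φ, Lo D₀ Φ → Un δ.ν Φ → ∀ y ∈ s, 2 ^ (k : ℕ) * jc Φ y ≤ 2 * δ.J := by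
  classical
  choose f hf using lowB (N := N) h1 hD
  refine ⟨fun ν I i => f ν (I i), fun δ s u => ?_⟩
  have d0 : 0 < dV N D₀ := by
    have : Nontrivial (VD N D₀) := ⟨⟨⟨1, (mem_restrictTotalDegree _ _ _).2 (by simp)⟩, 0,
      fun e => one_ne_zero (congrArg Subtype.val e)⟩⟩
    exact Module.finrank_pos
  obtain ⟨j, hj⟩ : ∃ j, j = dV N D₀ ^ (N + 1) := ⟨_, rfl⟩
  have j1 : (dV N D₀ : ℝ) ^ (N + 1) ≤ 2 ^ j := by
    exact_mod_cast (hj ▸ Nat.lt_two_pow_self.le : dV N D₀ ^ (N + 1) ≤ 2 ^ j)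
  rw [← hj]
  by_contra z
  push Not at z
  obtain ⟨a1, a2, a3, ⟨Φ, b1, b2, y, b3, b4⟩, a5, -⟩ := z 0 fun _ => ⟨0, d0⟩
  obtain ⟨f1, -, f2⟩ := hf _ a1
  have e : ∃ I : Fin (N + 1) → Fin (dV N D₀), ∃ y ∈ s,
      δ.J ≤ 2 ^ (4 * u + j) * jc (fun i => f δ.ν (I i)) y := by
    obtain ⟨I, hI⟩ := f2 Φ y b1 b2 fun z => by
      rw [z, mul_zero] at b4
      exact b4.not_gt a2
    refine ⟨I, y, b3, b4.trans ?_⟩
    rw [pow_add, mul_assoc]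
    exact mul_le_mul (le_trans (le_of_eq (by push_cast; congr 1; ring)) (exp_le_two_pow _))
      (hI.trans (mul_le_mul_of_nonneg_right j1 (abs_nonneg _))) (abs_nonneg _) (by positivity)
  have e' : ∃ k : ℕ, ∃ I : Fin (N + 1) → Fin (dV N D₀), ∃ y ∈ s,
      δ.J ≤ 2 ^ k * jc (fun i => f δ.ν (I i)) y := ⟨_, e⟩
  obtain ⟨I, y', c1, c2⟩ := Nat.find_spec e'
  have k1 := Nat.find_min' e' e
  have k2 : u ≤ Nat.find e' := by
    have c3 := (a5 (fun i => f δ.ν (I i)) (fun i => (f1 _).1) (fun i => (f1 _).2) y' c1).trans c2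
    have c4 := (mul_pos_iff_of_pos_left (by positivity)).1 (a2.trans_le c2)
    exact (pow_le_pow_iff_right₀ one_lt_two).1
      ((two_pow_le_exp u).trans (le_of_mul_le_mul_right c3 c4))
  obtain ⟨-, -, -, -, -, a6⟩ := z ⟨Nat.find e' - j, by omega⟩ I
  obtain ⟨Ψ, p1, p2, x, p3, p4⟩ := a6 (fun i => (f1 _).1) (fun i => (f1 _).2)
    ⟨y', c1, by rwa [Nat.sub_add_cancel (by omega)]⟩
  obtain ⟨I', hI⟩ := f2 Ψ x p1 p2 fun z => by
    rw [z, mul_zero] at p4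
    linarith
  refine Nat.find_min e' (m := Nat.find e' - 1) (by omega) ⟨I', x, p3, ?_⟩
  have p5 := p4.trans_le (mul_le_mul_of_nonneg_left
    (hI.trans (mul_le_mul_of_nonneg_right j1 (abs_nonneg _))) (by positivity))
  rw [← mul_assoc, ← pow_add, show Nat.find e' - j + j = Nat.find e' - 1 + 1 by omega,
    pow_succ] at p5
  change _ < _ * jc _ _ at p5
  linarith

theorem ntF {D₀ E₀ : ℕ} (h1 : 1 ≤ D₀) (hD : D₀ ≤ D) (hF : Fil N D₀ E₀ D) :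
    ∃ C : ℝ, 1 ≤ C ∧ ∀ ε : ℝ, 0 < ε → ∃ R : ℕ, 1 ≤ R ∧
    ∀ {Ω : Type} (P : FP Ω) (g : Sh N Ω) (M c J : ℕ) (S : Ω → Dc N D) (κ e p a r : ℝ) (u m : ℕ)
      (F₁ : Ln N × Dc N D → VD N D) (F₂ : Dc N D × Z (dV N D) → VD N D), 0 < κ → g.Box P →
      Val P g M c S → OpG κ P g M c S e → C ≤ u → 0 < p → 0 ≤ r →
      (∀ ω ∈ P.S, (∃ Φ, Lo D₀ Φ ∧ Un (S ω).ν Φ ∧
          ∃ y ∈ seg M c (g.l ω) (S ω).h 4, (S ω).J ≤ Real.exp (2 * u) * jc Φ y) ∧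
        ∀ Φ, Lo D₀ Φ → Un (S ω).ν Φ → ∀ y ∈ seg M c (g.l ω) (S ω).h 4,
          Real.exp u * jc Φ y ≤ (S ω).J) →
      C * (u + 1) * p ≤ pb (NQ P N J) (fun v => (F₁ (g.l v.1, S v.1) =
          F₂ (S v.1, vc (S v.1).ν m (vp g M c J v)) ∧ |eval (vp g M c J v) (F₁ (g.l v.1, S v.1)).1| <
          Real.exp (-a) * (S v.1).ν (F₁ (g.l v.1, S v.1))) ∧ (S v.1).Tight M c (g.l v.1) u) →
      C * p⁻¹ ^ ((N + 1) * D) ≤ Real.exp (a - r) → C * p⁻¹ ^ ((N + 1) * D) ≤ 2 ^ J →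
      R ≤ 7 * u + m → R * (7 * u + m) ≤ J → p⁻¹ ≤ Real.exp ((7 * u + m : ℕ) / R) →
      κ * r ≤ (κ + 1) * C + ε * (7 * u + m : ℕ) + Real.log p⁻¹ + e := by
  obtain ⟨A, A0, hA⟩ := TiA.cntJ N D
  obtain ⟨B, B1, hB⟩ := TiA.remS N D
  obtain ⟨f, hf⟩ := lowC (N := N) h1 hD
  obtain ⟨j, hj⟩ : ∃ j, j = dV N D₀ ^ (N + 1) := ⟨_, rfl⟩
  rw [← hj] at hf
  have j0 : (0 : ℝ) ≤ j := Nat.cast_nonneg _
  have n0 : (0 : ℝ) ≤ N := Nat.cast_nonneg _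
  have lg0 : 0 ≤ lg := Real.log_nonneg one_le_two
  have lg1 : lg ≤ 1 := (Real.log_le_sub_one_of_pos two_pos).trans (by norm_num)
  refine ⟨A + B + 10 * j + N + 2, by linarith, fun ε ε0 => ?_⟩
  obtain ⟨R, hR⟩ := hF ε ε0
  refine ⟨R + 1, Nat.le_add_left _ _,
    fun {Ω} P g M c J S κ e p a r u m F₁ F₂ κ0 hb hv ho hu p0 r0 H hp b1 b2 b3 b4 b5 => ?_⟩
  choose k I hk using fun ω : Ω => hf (S ω) (seg M c (g.l ω) (S ω).h 4) u
  have hk' := fun ω hω => hk ω (hv ω hω).2.hb (hv ω hω).2.pos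
    (by exact_mod_cast (by linarith : (1 : ℝ) + j ≤ u)) (H ω hω).1 (H ω hω).2
  obtain ⟨⟨k₀, I₀⟩, hq⟩ := pigeon (NQ P N J) _ fun v => (k v.1, I v.1)
  have c1 : ((5 * u + 1) * j + 1) * (2 * p) ≤ (A + B + 10 * j + N + 2) * (u + 1) * p := by
    rw [← mul_assoc]
    refine mul_le_mul_of_nonneg_right ?_ p0.le
    nlinarith [mul_nonneg (Nat.cast_nonneg (α := ℝ) u) (show 0 ≤ A + B + N + 2 by linarith)]
  have c2 : (Fintype.card (Fin (5 * u + 1) × (Fin (N + 1) → Fin (dV N D₀))) : ℝ) ≤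
      (5 * u + 1) * j + 1 := by simp [hj]
  obtain ⟨Q, q1, q2, q3⟩ := TiA.core P N J _ p0 (le_of_mul_le_mul_left (c1.trans
    ((hp.trans hq).trans (mul_le_mul_of_nonneg_right c2 (pb_nonneg _ _)))) (by positivity))
  have s0 := Real.exp_pos (-r)
  have ex : ∀ b : VD N D × Dc N D, ∃ μ : VD N D → ℝ, Hb b.2.ν → Hb μ ∧ (∀ x, μ x ≤ 2 * b.2.ν x) ∧
      μ b.1 ≤ 2 * Real.exp (-r) * b.2.ν b.1 ∧
      ∀ φ, Adm b.2.ν φ → |φ b.1| ≤ Real.exp (-r) * b.2.ν b.1 → Adm μ φ := fun b => by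
    by_cases z : Hb b.2.ν
    · obtain ⟨μ, m1, m2, -, m3⟩ := cut z b.1 s0 (Real.exp_le_one_iff.2 (neg_nonpos.2 r0))
      exact ⟨μ, fun _ => ⟨m1, m2, m3⟩⟩
    · exact ⟨0, fun k => absurd k z⟩
  choose μ' hμ using ex
  obtain ⟨U, hU⟩ : ∃ U : Dc N D → Ch N D, U = fun δ i => (2 : ℝ)⁻¹ • f δ.ν I₀ i := ⟨_, rfl⟩
  obtain ⟨T, hT⟩ : ∃ T : Ω → VD N D × Dc N D, T = fun ω => (F₁ (g.l ω, S ω), S ω) := ⟨_, rfl⟩
  have w1 : ∀ v ∈ Q.S, Lo D₀ (U (S v.1)) ∧ Un (S v.1).ν (U (S v.1)) ∧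
      Dc.Ok ⟨μ' (T v.1), (S v.1).J / 2 ^ (k₀ + j + (N + 1)), (S v.1).h⟩ M c (g.l v.1) ∧
      Dc.Wit ⟨μ' (T v.1), (S v.1).J / 2 ^ (k₀ + j + (N + 1)), (S v.1).h⟩ M c (g.l v.1)
        (U (S v.1)) ∧ (∀ F, μ' (T v.1) F ≤ 2 * (S v.1).ν F) ∧ (T v.1).1 ≠ 0 ∧
      μ' (T v.1) (T v.1).1 ≤ 2 * Real.exp (-r) * (S v.1).ν (T v.1).1 := fun v hw => by
    obtain ⟨x1, ⟨⟨⟨-, x2⟩, -⟩, x3⟩, x4⟩ := q2 v hw
    obtain ⟨v1, v2⟩ := hv _ (q1.mem hw)
    obtain ⟨y1, y2, ⟨y, y3, y4⟩, -⟩ := hk' _ (q1.mem hw)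
    obtain ⟨e1, e2⟩ := Prod.mk.inj x3
    rw [e1] at y4
    rw [e2] at y1 y2 y4
    obtain ⟨m1, m2, m3, m4⟩ := hμ (F₁ (g.l v.1, S v.1), S v.1) v2.hb
    have u1 : ∀ i, (S v.1).ν (U (S v.1) i) ≤ 2⁻¹ := fun i => by
      simp only [hU]
      rw [v2.hb.smul, abs_of_pos (by norm_num)]
      linarith [y2 i]
    have t1 : T v.1 = (F₁ (g.l v.1, S v.1), S v.1) := by rw [hT]
    rw [t1]
    have u2 : Dc.Wit ⟨μ' (F₁ (g.l v.1, S v.1), S v.1), (S v.1).J / 2 ^ (k₀ + j + (N + 1)),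
        (S v.1).h⟩ M c (g.l v.1) (U (S v.1)) := by
      refine ⟨fun i => (m2 _).trans (by linarith [u1 i]), y, y3, ?_⟩
      simp only [hU]
      rw [div_le_iff₀' (by positivity), pow_add, mul_assoc, ← jc_inv two_pos]
      exact y4
    refine ⟨fun i => hU ▸ (totalDegree_smul_le _ _).trans (y1 i), fun i => (u1 i).trans
      (by norm_num), ⟨m1, div_pos v2.pos (by positivity), fun x hx F => m4 (CD.evV x)
      (v2.bd x hx) ?_ F, _, u2⟩, u2, m2, fun z => ?_, m3⟩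
    · have n1 := mul_nonneg (Real.exp_pos (-a)).le (v2.hb.nonneg (F₁ (g.l v.1, S v.1)))
      have n2 : B * p⁻¹ ^ ((N + 1) * D) ≤ (A + B + 10 * j + N + 2) * p⁻¹ ^ ((N + 1) * D) :=
        mul_le_mul_of_nonneg_right (by linarith) (by positivity)
      refine (hB M c J _ _ _ _ p (deg_PD _) p0 (n2.trans b2) (x4.trans (pb_mono fun b _ z => ?_))
        x hx).trans ((mul_le_mul_of_nonneg_right (n2.trans b1) n1).trans_eq ?_)
      · rw [v1]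
        exact z.1.1.2.le
      · rw [← mul_assoc, ← Real.exp_add, sub_add_eq_add_sub, add_neg_cancel, zero_sub]
    · have z' : F₁ (g.l v.1, S v.1) = 0 := z
      rw [z', ← zero_smul ℝ (0 : VD N D), v2.hb.smul] at x2
      simp at x2
  obtain ⟨K, f1, f2, f3⟩ := hR _ _ Q (g.pull Prod.fst) M c (fun v => T v.1)
    (fun v => ⟨μ' (T v.1), (S v.1).J / 2 ^ (k₀ + j + (N + 1)), (S v.1).h⟩) (fun v => U (S v.1))
    (fun _ => 7 * u + m) (fun v => gp v.2) (hb.dn q1)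
    (fun x _ y _ e => by
      have e' : S x.1 = S y.1 := by simpa only [hT] using congrArg Prod.snd e
      simp only [e, e'])
    (fun v hw => ⟨(hv _ (q1.mem hw)).1, (w1 v hw).2.2.1⟩)
    (fun v hw => ⟨(w1 v hw).1, (w1 v hw).2.2.2.1⟩)
    (spr_succ (q3 _ (fun ω => (g.l ω, T ω)) _ _ b3 b4 b5))
  have o1 := ho _ _ _ _ K (fun _ => r - (N + 2) * lg) q1 f1 fun v hw => by
    obtain ⟨-, -, -, -, m2, m0, m3⟩ := w1 v hw
    have n1 := (hv _ (q1.mem hw)).2.hb.nonneg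
    refine ⟨fun F => ((f2 v hw).1 F).trans ((mul_le_mul_of_nonneg_left (m2 F)
      (by positivity)).trans ?_), Or.inr ⟨_, m0, (mul_le_mul_of_nonneg_left (((f2 v hw).1 _).trans
        (mul_le_mul_of_nonneg_left m3 (by positivity))) (Real.exp_pos _).le).trans_eq ?_⟩⟩
    · rw [← mul_assoc, ← pow_succ]
      exact mul_le_mul_of_nonneg_right (pow_le_pow_right₀ one_le_two (by omega)) (n1 F)
    · rw [← mul_assoc (2 ^ _), ← mul_assoc (2 ^ _), ← pow_succ, two_pow_eq,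
        ← Real.exp_add, ← mul_assoc, ← Real.exp_add]
      push_cast
      rw [show r - (N + 2) * lg + ((N + 1 + 1) * lg + -r) = 0 by ring, Real.exp_zero, one_mul]
  have o2 := hA Q (g.pull Prod.fst) M c k₀ (7 * u) m D₀ u (fun v => S v.1) (fun v => U (S v.1))
    (vp g M c J) (hb.dn q1) (hv.dn q1) (fun x _ y _ e => by simp only [e]) (by omega)
    (by
      rw [show 7 * u = 2 * u + 5 * u by ring, pow_add]
      exact mul_le_mul (le_trans (le_of_eq (by push_cast; congr 1; ring)) (exp_le_two_pow _))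
        (pow_le_pow_right₀ one_le_two (by omega)) (by positivity) (by positivity))
    fun v hw => by
      obtain ⟨-, ⟨⟨-, x2⟩, x3⟩, -⟩ := q2 v hw
      have x4 : vp g M c J v ∈ seg M c (g.l v.1) (S v.1).h 4 :=
        seg_mono (by norm_num) ((hv _ (q1.mem hw)).1 ▸ vp_mem g M c J v)
      refine ⟨x4, x2, (w1 v hw).1, (w1 v hw).2.1, fun Ψ a b => ?_⟩
      rw [← show k v.1 = k₀ from congrArg Prod.fst x3]
      exact (hk' _ (q1.mem hw)).2.2.2 Ψ a b _ x4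
  have o3 := ch_tri (P := Q) K (fun v => F₁ (g.l v.1, S v.1)) fun v => S v.1
  have o4 := ch_chain (P := Q) (fun v => F₁ (g.l v.1, S v.1))
    (fun v => fl (7 * u + m) (uc (U (S v.1)) (vp g M c J v))) fun v => S v.1
  have o5 : ch Q (fun v => (F₁ (g.l v.1, S v.1), fl (7 * u + m) (uc (U (S v.1)) (vp g M c J v))))
      (fun v => S v.1) ≤ ch Q (fun v => (vc (S v.1).ν m (vp g M c J v),
        fl (7 * u + m) (uc (U (S v.1)) (vp g M c J v)))) fun v => S v.1 :=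
    ch_mono fun x hx y hy e => by
      obtain ⟨e1, e2⟩ := Prod.mk.inj e
      obtain ⟨e3, e4⟩ := Prod.mk.inj e1
      refine Prod.ext (((q2 x hx).2.1.1.1.1.trans ?_).trans (q2 y hy).2.1.1.1.1.symm) e4
      rw [e3, e2]
  have o6 : Q.E (fun v => Real.log ((S v.1).J / 2 ^ (k₀ + j + (N + 1)))) =
      Q.E fun v => Real.log (S v.1).J - (k₀ + j + (N + 1)) * lg :=
    FP.E_congr _ fun v hw => by
      rw [Real.log_div (hv _ (q1.mem hw)).2.pos.ne' (by positivity), Real.log_pow, lg]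
      push_cast
      rfl
  rw [o6, vq_gp, hT] at f3
  simp only [FP.E_add, FP.E_sub, FP.E_const] at f3 o1
  nlinarith [mul_le_mul_of_nonneg_left lg1 (show 0 ≤ (j : ℝ) + (N + 1) by positivity),
    mul_le_mul_of_nonneg_left lg1 (show 0 ≤ κ * (N + 2) by positivity),
    mul_nonneg κ0.le (show 0 ≤ A + B + 10 * j by positivity)]

theorem whpT (hV : SJV) {Ω : ℕ → Type} {κ : ℝ} {P : ∀ n, FP (Ω n)} {g : ∀ n, Sh N (Ω n)}
    {M c u : ℕ → ℕ} {S : ∀ n, Ω n → Dc N D} (h : O1 κ P g M c u S) (J : ℕ → ℕ) :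
    Whp (fun n => NQ (P n) N (J n)) fun n v =>
      (S n v.1).Tight (M n) (c n) ((g n).l v.1) (u n) := fun ε ε0 => by
  obtain ⟨k, -, k1, k2⟩ := hV κ P g M c u S h
  filter_upwards [k1 ε ε0, k2, h.val, h.big.ev 1] with n a1 a2 a3 a4
  refine ((fst_law (P n) N (J n)).pb_eq fun ω =>
    ¬(S n ω).Tight (M n) (c n) ((g n).l ω) (u n)).trans_le ((pb_mono (F := fun ω =>
      (u n : ℝ) ≤ k n ω) fun ω hω z => le_of_not_ge fun y => z fun Φ b x d =>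
        (a2 ω hω Φ b x d).trans (mul_le_mul_of_nonneg_right (Real.exp_le_exp.2 y)
          (a3 ω hω).2.pos.le)).trans ?_)
  have := G39.markov (P n) (u := fun ω => (k n ω : ℝ)) (fun _ _ => Nat.cast_nonneg _) (u n)
  refine le_of_mul_le_mul_left ?_ (one_pos.trans_le a4)
  linarith

end Pool.Agent.MP_5168f5_an.QA.TC

namespace Pool.Agent.MP_5168f5_an.QA

open H19 H17S H17F R4 AN Filter TC

theorem ofTiC : OfTiC := fun hF hV N => by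
  obtain ⟨D₀, D₁, h1, h2, H⟩ := tiC_of hF N
  refine ⟨D₀, D₁, h1, h2, fun D hD Ω κ P g M c u S h hT => ?_⟩
  obtain ⟨⟨E₀, hE⟩, hN⟩ := H D hD
  obtain ⟨C, C1, hC⟩ := ntF h1 (h2.trans hD) hE
  choose R R1 hR using fun j : ℕ => hC (1 / (j + 1) ^ 2) (by positivity)
  have hL : Sub u fun n => ((u n : ℝ) + 1) ^ 2 := (Sub.nat h.big).pow 2
  obtain ⟨ρ, ρ1, ρ2⟩ := KSA.spill (fun j n => (R j : ℝ) ≤ u n ∧
    ((u n : ℝ) + 1) ^ 2 ≤ Real.exp ((R j : ℝ)⁻¹ * u n)) fun j =>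
      (h.big.ev _).and (hL.2 _ (inv_pos.2 (by exact_mod_cast R1 j)))
  have fs : Fine u fun n => ρ n * u n := fun k =>
    (tendsto_atTop.1 ρ1 k).mono fun n a => Nat.mul_le_mul_right _ a
  have fJ : Fine u fun n => R (ρ n) * (7 * u n + ρ n * u n) := fun k => (fs k).mono fun n a =>
    a.trans ((Nat.le_add_left _ _).trans (Nat.le_mul_of_pos_left _ (R1 _)))
  refine hN h hT fJ fs fun a F₁ F₂ a0 => by_contra fun z => ?_
  obtain ⟨q, q0, hq⟩ := (not_whp z).and (whpT hV h _)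
  have κ0 := h.pos
  have δ0 : 0 < κ * a / 10 := by positivity
  have hB := (hL.pow ((N + 1) * D)).const_mul h.big C1
  obtain ⟨n, a1, a2, a3, a4, a5, a6, a7, a8, a9, b1, b2, b3, b4, b5⟩ := (h.box.and (h.val.and
    ((h.opt _ δ0).and ((h.big.ev C).and (hT.and (hq.and ((h.big.ev (C / q)).and
    ((hB.2 _ (half_pos a0)).and ((hB.2 _ one_half_pos).and ((fJ 1).and (ρ2.and
    ((h.big.sm ((κ + 1) * C) _ δ0).and ((hL.log _ δ0).and
      (ρ1.ev (7 / (κ * a / 10)))))))))))))))).exists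
  obtain ⟨c1, c2⟩ := b2 _ le_rfl
  have u0 : (0 : ℝ) < u n := by linarith
  have r0 : (0 : ℝ) ≤ ρ n := Nat.cast_nonneg _
  have := hR (ρ n) (P n) (g n) (M n) (c n) _ (S n) κ _ (((u n : ℝ) + 1) ^ 2)⁻¹ (a * u n)
    (a * u n / 2) (u n) (ρ n * u n) (F₁ n) (F₂ n) κ0 a1 a2 a3 a4 (by positivity) (by positivity)
    a5 (le_trans ?_ (a6.trans (pb_mono fun v _ y => ⟨not_not.1 y.1, y.2⟩))) ?_ ?_ ?_ le_rfl ?_
  · rw [inv_inv] at this
    rw [div_le_iff₀ δ0] at b5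
    have e : 1 / ((ρ n : ℝ) + 1) ^ 2 * (7 * u n + ρ n * u n : ℕ) ≤ κ * a / 10 * u n := by
      push_cast
      rw [← add_mul, ← mul_assoc, one_div_mul_eq_div]
      refine mul_le_mul_of_nonneg_right ((div_le_iff₀ (by positivity)).2 ?_) u0.le
      nlinarith [mul_nonneg r0 δ0.le]
    nlinarith [mul_pos δ0 u0]
  · rw [div_le_iff₀ q0] at a7
    rw [pow_two, mul_inv, ← mul_assoc, mul_inv_cancel_right₀ (by positivity),
      mul_inv_le_iff₀ (by positivity)]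
    linarith
  · rw [inv_inv]
    exact a8.trans_eq (by congr 1; ring)
  · rw [inv_inv]
    refine a9.trans (le_trans (Real.exp_le_exp.2 ?_) (exp_le_two_pow _))
    have : (u n : ℝ) ≤ (R (ρ n) * (7 * u n + ρ n * u n) : ℕ) := by exact_mod_cast (by simpa using b1)
    linarith
  · have : R (ρ n) ≤ u n := by exact_mod_cast c1
    omega
  · rw [inv_inv]
    refine c2.trans (Real.exp_le_exp.2 ?_)
    rw [inv_mul_eq_div]
    exact div_le_div_of_nonneg_right (by exact_mod_cast (by omega)) (Nat.cast_nonneg _)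

end Pool.Agent.MP_5168f5_an.QA
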