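import Pool.Agent.MP_5168f5_an.QA.SpecF

/-! The maximal estimate in all dimensions: the statements of the global part. -/

namespace Pool.Agent.MP_5168f5_an.QA

open H19 H17S H17F R4 AN Filter MvPolynomial Finset
open Nc (Pl ev jac)

/-! ### Finite statements -/

/-- The cube is a label of the top level. -/
def E1 (N D : ℕ) : Prop := ∃ C : ℝ, 0 ≤ C ∧ ∀ (η : ℝ) (x : Cfg N) (M c : ℕ), 0 ≤ η → η ≤ 1 →
  x.Box → c ≤ M → ∃ K : x.Ω → Dc N D, Val x.P (shOf x) M c K ∧ Fn x.P K ((shOf x).O c) ∧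
    MX.mu x M ≤ val η x.P (shOf x) M c K + N * ((M : ℝ) - c) * lg + C ∧
    ∀ ω ∈ x.P.S, pen (fun _ => 0) (K ω).ν ≤ C * (M + 1)

/-- Labels of level zero hold few directions. -/
def E2 (N D : ℕ) : Prop := ∃ C : ℝ, 0 ≤ C ∧ ∀ (Ω : Type) (P : FP Ω) (g : Sh N Ω) (M : ℕ)
  (K : Ω → Dc N D), g.Box P → Fn P g.l (fun ω => fl M (g.e ω)) → Val P g M 0 K →
  ch P g.l K + P.E (fun ω => Real.log (K ω).J) ≤ N * M * lg + C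

/-- The count of cubes for a label of a deeper level. -/
def CNT (N D : ℕ) : Prop := ∃ C : ℝ, 0 ≤ C ∧ ∀ (Ω Λ : Type) (P : FP Ω) (g : Sh N Ω)
  (M c c' J : ℕ) (T : Ω → Λ) (A : Ω → Dc N D) (Φ : Ω → Ch N D) (m : Ω → ℕ) (μ : Ω → ℝ),
  g.Box P → c ≤ c' → Val P g M c' A → Fn P (fun ω => (A ω, Φ ω, m ω, μ ω)) (g.cx c T) →
  (∀ ω ∈ P.S, 0 < μ ω ∧ (A ω).J ≤ 2 ^ m ω * μ ω ∧
    ∀ y ∈ seg M c (g.l ω) (g.zc c ω) 1, ‖uc (Φ ω) y‖ ≤ 1 ∧ jc (Φ ω) y ≤ μ ω) →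
  P.E (fun ω => Real.log (A ω).J - Real.log (μ ω)) ≤
    gap P g M c J T Φ m + (N + 1) * ((c' : ℝ) - c) * lg + C

/-- The count of cubes for a frame of any degree. -/
def CNTF (N D : ℕ) : Prop := ∀ E : ℕ, ∃ C : ℝ, 0 ≤ C ∧ ∀ (Ω Λ : Type) (P : FP Ω) (g : Sh N Ω)
  (M c J : ℕ) (T : Ω → Λ) (Ψ : Ω → Fin (N + 1) → Pl (N + 1)) (Φ : Ω → Ch N D) (m : Ω → ℕ)
  (lam μ : Ω → ℝ), g.Box P → Fn P (fun ω => (Ψ ω, Φ ω, m ω, lam ω, μ ω)) (g.cx c T) →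
  (∀ ω ∈ P.S, 0 < lam ω ∧ 0 < μ ω ∧ (∀ i, (Ψ ω i).totalDegree ≤ E) ∧
    (∀ y ∈ seg M c (g.l ω) (g.zc c ω) 4, ‖ev (Ψ ω) y‖ ≤ 1) ∧
    (∃ y ∈ seg M c (g.l ω) (g.zc c ω) 4, lam ω ≤ |eval y (jac (Ψ ω))|) ∧
    ∀ y ∈ seg M c (g.l ω) (g.zc c ω) 1, ‖uc (Φ ω) y‖ ≤ 1 ∧ jc (Φ ω) y ≤ μ ω) →
  P.E (fun ω => min (m ω * lg) (Real.log (lam ω) - Real.log (μ ω))) ≤ gap P g M c J T Φ m + C

/-- The only use of the set theorem: a refinement of the context that fills its cell. -/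
def FILL (N E E' D : ℕ) : Prop := ∀ ε : ℝ, 0 < ε → ∃ m₀ : ℕ, ∀ (Ω Λ : Type) (P : FP Ω)
  (g : Sh N Ω) (M c : ℕ) (T : Ω → Λ) (A : Ω → Dc N D) (Φ : Ω → Ch N D) (m : Ω → ℕ),
  g.Box P → Val P g M c A → Fn P (fun ω => (A ω, Φ ω, m ω)) (g.cx c T) →
  (∀ ω ∈ P.S, m₀ ≤ m ω ∧ Lo E (Φ ω) ∧ (A ω).Wit M c (g.l ω) (Φ ω)) →
  ∀ᶠ J in atTop, ∃ (W : Type) (Q : FP W) (π : W → Ω) (K : W → Dc N D), Law Q π P id ∧
    Val Q (g.pull π) M c K ∧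
    (∀ v ∈ Q.S, (K v).Low E' M c (g.l (π v)) 0 ∧
      ∀ F, (K v).ν F ≤ Real.exp (ε * m (π v)) * (A (π v)).ν F) ∧
    ch Q (fun v => (K v, T (π v))) ((g.pull π).zc c) - Q.E (fun v => Real.log (K v).J) ≤
      ch P T (g.zc c) - gap P g M c J T Φ m - P.E (fun ω => Real.log (A ω).J) +
        ε * P.E fun ω => m ω

/-- The parameters of the potential are small. -/
def Par (N D : ℕ) (C η θ : ℝ) : Prop := 0 < η ∧ C * η ≤ 1 ∧ 0 ≤ θ ∧ C * θ ≤ η ^ dV N D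

/-- Optimal labels are tight. -/
def TIG (N E D : ℕ) : Prop := ∃ C : ℝ, 1 ≤ C ∧ ∀ η θ : ℝ, Par N D C η θ → ∃ C' : ℝ, 0 ≤ C' ∧
  ∀ (Ω : Type) (P : FP Ω) (g : Sh N Ω) (M c : ℕ) (S : Ω → Dc N D) (e : ℝ), g.Box P → c ≤ M →
  Val P g M c S → 0 ≤ e → Opd η θ P g M c S e → ∃ G : Ω → ℝ,
    (∀ ω ∈ P.S, 0 ≤ G ω ∧ (S ω).Tight M c (g.l ω) (G ω) ∧ (S ω).Low E M c (g.l ω) (G ω)) ∧
    P.E G ≤ C' * (1 + e)

/-- The sharp extension of an optimal label to a longer segment. -/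
def EXT (N D : ℕ) : Prop := ∃ C : ℝ, 1 ≤ C ∧ ∀ η θ s : ℝ, Par N D C η θ → 0 < s →
  ∃ C' : ℝ, 0 ≤ C' ∧ ∀ (Ω : Type) (P : FP Ω) (g : Sh N Ω) (M c w : ℕ) (S : Ω → Dc N D) (e : ℝ),
  g.Box P → c + w ≤ M → Val P g M (c + w) S → 0 ≤ e → Opd η θ P g M (c + w) S e →
  ∃ (W : Type) (Q : FP W) (π : W → Ω) (K : W → Dc N D), Law Q π P id ∧
    Val Q (g.pull π) M c K ∧
    cst η Q (g.pull π) c K + θ * Q.E (fun v => dsp (K v).ν (S (π v)).ν) ≤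
      cst η P g (c + w) S + ch P (g.zc (c + w)) (g.zc c) +
        ((N + 1) * lg + C * η + s) * w + C' * (1 + e)

/-- An almost optimal label is close to the optimal one. -/
def NJ (N D : ℕ) : Prop := ∃ C : ℝ, 1 ≤ C ∧ ∀ η θ : ℝ, Par N D C η θ → ∃ C' : ℝ, 0 ≤ C' ∧
  ∀ (Ω : Type) (P : FP Ω) (g : Sh N Ω) (M c : ℕ) (S A : Ω → Dc N D) (cen : ℕ → ℝ) (e b : ℝ),
  g.Box P → c ≤ M → Val P g M c S → Val P g M c A → 0 ≤ e → 0 ≤ b → Opd η θ P g M c S e →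
  cst η P g c A ≤ cst η P g c S + b →
  P.E (fun ω => gn η (S ω).ν (A ω).ν) ≤
      C * (b + P.E fun ω => pen cen (S ω).ν + pen cen (A ω).ν) + C' * (1 + e) ∧
    P.E (fun ω => ds (S ω).ν (A ω).ν + |Real.log (S ω).J - Real.log (A ω).J|) ≤
      C' * (1 + e + b + P.E fun ω => pen cen (S ω).ν + pen cen (A ω).ν)

/-- The finite tools of the local part. -/
structure Kit (N E E' D : ℕ) : Prop where
  one : 1 ≤ E
  le : E ≤ E'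
  le' : E' ≤ D
  cnt : CNT N D
  cntF : CNTF N D
  fill : FILL N E E' D
  tig : TIG N E D
  nj : NJ N D
  fil : ∃ E₀, Fil N E E₀ D
  ti : Ti N E D
  zl : ZL N D

/-! ### The blocks -/

def SE1 : Prop := ∀ N D, 1 ≤ D → E1 N D
def SE2 : Prop := ∀ N D, E2 N D
def SCnt : Prop := ∀ N D, CNT N D
def SCntF : Prop := ∀ N D, CNTF N D
def OfFill : Prop := ∀ N E E₀ D, Fil N E E₀ D → FILL N E (E + E₀ * E) D
def OfTig : Prop := SOpG → ∀ N E D, Ti N E D → TIG N E D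
def OfExt : Prop := ∀ N E E' D, E ≤ D → CNT N D → FILL N E E' D → TIG N E D → EXT N D
def OfNJ : Prop := ∀ N E E' D, E ≤ D → CNT N D → FILL N E E' D → TIG N E D → NJ N D

/-- A counterexample gives a tangent system. -/
def ToT1 : Prop := ∀ N D, E1 N D → E2 N D → EXT N D → NJ N D → ¬MX.MuK N →
  ∃ β₀ η₁ : ℝ, 0 < β₀ ∧ 0 < η₁ ∧ ∀ η θ₁ : ℝ, 0 < η → η ≤ η₁ → 0 < θ₁ →
    ∃ (θ β js Γ : ℝ) (kf : ℕ → ℕ) (sl : ℕ → ℝ) (X : ℕ → St N D), 0 ≤ θ ∧ θ ≤ θ₁ ∧ β₀ ≤ β ∧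
      T1' X η θ β js kf sl ∧ Lip X Set.univ Γ

/-- Tightness can be made sure. -/
def ToTig : Prop := ∀ N E D, TIG N E D → ∃ C : ℝ, 1 ≤ C ∧ ∀ (η θ β js Γ : ℝ) (kf : ℕ → ℕ)
  (sl : ℕ → ℝ) (X : ℕ → St N D), Par N D C η θ → T1' X η θ β js kf sl → Lip X Set.univ Γ →
  ∃ X' : ℕ → St N D, T1 X' E η θ β js Γ kf sl

/-- There is no tangent system. -/
def END : Prop := ∀ N E E' D, Kit (N + 1) E E' D → ∀ β₀ : ℝ, 0 < β₀ → ∃ C : ℝ, 1 ≤ C ∧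
  ∀ (η θ β js Γ : ℝ) (kf : ℕ → ℕ) (sl : ℕ → ℝ) (X : ℕ → St (N + 1) D), Par (N + 1) D C η θ →
  β₀ ≤ β → T1 X E η θ β js Γ kf sl → False

theorem Par.mono {N D : ℕ} {C C' η θ : ℝ} (h : Par N D C η θ) (e : C' ≤ C) : Par N D C' η θ :=
  ⟨h.1, (mul_le_mul_of_nonneg_right e h.1.le).trans h.2.1, h.2.2.1,
    (mul_le_mul_of_nonneg_right e h.2.2.1).trans h.2.2.2⟩

theorem muK_zero : MX.MuK 0 := fun x M _ ε hε => Eventually.of_forall fun n => by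
  have : MX.mu (x n) (M n) ≤ 0 := (ch_zero fun _ _ _ _ _ => Subsingleton.elim _ _).le
  have b : 0 ≤ ε * M n := by positivity
  simp only [Nat.cast_zero, zero_mul]
  linarith

theorem muK_of (e1 : SE1) (e2 : SE2) (c1 : SCnt) (c2 : SCntF) (bl : BlkF) (og : SOpG)
    (fi : OfFill) (ti : OfTig) (ex : OfExt) (nj : OfNJ) (t1 : ToT1) (tg : ToTig) (en : END)
    (N : ℕ) : MX.MuK N := by
  cases N with
  | zero => exact muK_zero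
  | succ N =>
    by_contra h
    obtain ⟨E, E₀, D₁, a1, -, a2⟩ := bl (N + 1)
    obtain ⟨D, d0, d1⟩ : ∃ D, D₁ ≤ D ∧ E + E₀ * E ≤ D := ⟨_, le_max_left _ _, le_max_right _ _⟩
    obtain ⟨a3, a4, a5⟩ := a2 D d0
    have b1 : E ≤ E + E₀ * E := Nat.le_add_right _ _
    have f := fi _ E E₀ D a3
    have t := ti og _ E D a4
    have j := nj _ E _ D (b1.trans d1) (c1 _ _) f t
    obtain ⟨β₀, η₁, p1, p2, p3⟩ := t1 _ D (e1 _ _ (a1.trans (b1.trans d1))) (e2 _ _)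
      (ex _ E _ D (b1.trans d1) (c1 _ _) f t) j h
    obtain ⟨C, q1, q2⟩ := tg _ E D t
    obtain ⟨C', r1, r2⟩ :=
      en N E _ D ⟨a1, b1, d1, c1 _ _, c2 _ _, f, t, j, ⟨E₀, a3⟩, a4, a5⟩ β₀ p1
    have k0 : 0 < C + C' := by linarith
    have h0 : 0 < min η₁ (C + C')⁻¹ := lt_min p2 (inv_pos.2 k0)
    obtain ⟨θ, β, js, Γ, kf, sl, X, s1, s2, s3, s4, s5⟩ := p3 _
      ((min η₁ (C + C')⁻¹) ^ dV (N + 1) D / (C + C')) h0 (min_le_left _ _) (by positivity)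
    have pa : Par (N + 1) D (C + C') (min η₁ (C + C')⁻¹) θ :=
      ⟨h0, (mul_le_mul_of_nonneg_left (min_le_right _ _) k0.le).trans_eq (mul_inv_cancel₀ k0.ne'),
        s1, by rwa [le_div_iff₀ k0, mul_comm] at s2⟩
    obtain ⟨X', u⟩ := q2 _ θ β js Γ kf sl X (pa.mono (by linarith)) s4 s5
    exact r2 _ θ β js Γ kf sl X' (pa.mono (by linarith)) s3 u

end Pool.Agent.MP_5168f5_an.QA
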