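import Pool.Agent.MP_5168f5_an.QA.EndB
import Pool.Agent.MP_5168f5_an.QA.Spec1

/-! The two ends of the potential. -/

namespace Pool.Agent.MP_5168f5_an.QA

open H19 H17S AN Ends

theorem sE2 : SE2 := fun N D => by
  obtain ⟨C, C0, hC⟩ := end0 N D
  refine ⟨C, C0, fun Ω P g M K hb hf hK => ?_⟩
  have a1 := hC P g M K hb hK
  have a2 : ch P g.l K ≤ ch P (fun ω => fl M (g.e ω)) K := ch_mono (hf.left _)
  linarith

theorem sE1 : SE1 := fun N D hD => by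
  obtain ⟨C, C0, hC⟩ := ballD N D hD
  obtain ⟨B, B0, hB⟩ := low N D
  obtain ⟨d, hd⟩ : ∃ d : ℝ, d = (dV N D + 1) * dV N D := ⟨_, rfl⟩
  have d0 : 0 ≤ d := by rw [hd]; positivity
  refine ⟨5 * N + C + d * (C + B), by positivity, fun η x M c h0 h1 hb hc => ?_⟩
  obtain ⟨κ, hκ⟩ := hC c
  have p0 : (0 : ℝ) < 2 ^ c := by positivity
  let w : x.Ω → ℝ := fun ω => ((2 : ℝ) ^ c)⁻¹ * fl1 c (x.z ω)
  have w1 : ∀ ω, fl1 c (w ω) = fl1 c (x.z ω) := fun ω => by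
    simp only [w, fl1, mul_inv_cancel_left₀ p0.ne', Int.floor_intCast]
  let Y : x.Ω → Z N × ℤ := fun ω => (fl c (x.a ω + w ω • x.e ω), fl1 c (x.z ω))
  have k : ∀ ω ∈ x.P.S, (κ (Y ω)).h = fl1 c (x.z ω) ∧ (κ (Y ω)).Ok M c (x.a ω, x.e ω) ∧
      |Real.log (κ (Y ω)).J - (N + 1) * c * lg| ≤ C ∧ (∀ F, (κ (Y ω)).ν F ≤ Real.exp C * Bn F) ∧
      ∀ F, Bn F ≤ Real.exp (B * (M + 1)) * (κ (Y ω)).ν F := fun ω hω => by
    obtain ⟨b1, b2, b3, b4⟩ := hb ω hω
    have f0 : (0 : ℝ) ≤ fl1 c (x.z ω) := by exact_mod_cast Int.floor_nonneg.2 (by positivity)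
    obtain ⟨a1, a2, a3, a4⟩ := hκ (x.a ω, x.e ω) (w ω) (norm_le_one_of_box b1)
      (norm_le_one_of_box b2) (by positivity) ((fl1_le c _).trans_lt b4) (κ (Y ω)) (by rw [w1])
    rw [w1] at a1
    exact ⟨a1, a2 M hc, a3, a4, hB M c (x.a ω, x.e ω) (x.z ω) _ hc (norm_le_one_of_box b1)
      (norm_le_one_of_box b2) b3 b4 (a1 ▸ (a2 M hc).bd)⟩
  refine ⟨fun ω => κ (Y ω), fun ω hω => ⟨(k ω hω).1, (k ω hω).2.1⟩, fun a _ b _ e => ?_, ?_,
    fun ω hω => ?_⟩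
  · obtain ⟨e1, e2⟩ := Prod.ext_iff.1 e
    obtain ⟨e3, e4⟩ := Prod.ext_iff.1 e1
    have e3 : x.a a = x.a b := e3
    have e4 : x.e a = x.e b := e4
    have e2 : fl1 c (x.z a) = fl1 c (x.z b) := e2
    simp only [Y, w, e2, e3, e4]
  · have q : ((2 : ℝ) ^ M)⁻¹ ≤ (2 ^ c)⁻¹ := inv_anti₀ p0 (pow_le_pow_right₀ one_le_two hc)
    have n : ∀ ω ∈ x.P.S, ‖x.a ω + w ω • x.e ω - x.pt ω‖ ≤ (2 ^ c)⁻¹ := fun ω hω => by
      have e : x.a ω + w ω • x.e ω - x.pt ω = (w ω - x.z ω) • x.e ω := by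
        rw [Cfg.pt, sub_smul]; abel
      rw [e, norm_smul]
      exact (mul_le_of_le_one_right (norm_nonneg _) (norm_le_one_of_box (hb ω hω).2.1)).trans
        (abs_sub_lt_of_fl1_eq (w1 ω)).le
    have a1 : ch x.P (fun ω => fl c (x.a ω + w ω • x.e ω))
        (fun ω => (fl M (x.pt ω), fl1 M (x.z ω), x.θ ω)) ≤ 5 * N :=
      ch_fl_near (n := 3) (by norm_num) fun a ha b hb' e => by
        have e1 := (norm_sub_lt_of_fl_eq (congrArg Prod.fst e)).le.trans q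
        have e2 : x.a a + w a • x.e a - (x.a b + w b • x.e b) = (x.a a + w a • x.e a - x.pt a) +
            (x.pt a - x.pt b) - (x.a b + w b • x.e b - x.pt b) := by abel
        rw [e2]
        refine (norm_sub_le _ _).trans ((add_le_add (norm_add_le _ _) le_rfl).trans ?_)
        have := n a ha
        have := n b hb'
        push_cast
        linarith
    have a2 := ch_tri (P := x.P) (fun ω => fl M (x.e ω)) (fun ω => fl c (x.a ω + w ω • x.e ω))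
      fun ω => (fl M (x.pt ω), fl1 M (x.z ω), x.θ ω)
    have a3 : ch x.P (fun ω => fl M (x.e ω)) (fun ω => (fl c (x.a ω + w ω • x.e ω),
        fl M (x.pt ω), fl1 M (x.z ω), x.θ ω)) ≤ ch x.P (shOf x).l fun ω => κ (Y ω) :=
      ch_le (fun a _ b _ e => congrArg (fun v => fl M v.1.2) e) fun a _ b _ e =>
        congrArg κ (Prod.ext (congrArg (·.1) e :) (fl1_eq_of_le hc (congrArg (·.2.2.1) e)))
    have a4 : (N + 1) * c * lg - C - d * C ≤ x.P.E fun ω => sco η (κ (Y ω)) := by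
      refine (x.P.E_const _).ge.trans (x.P.E_mono fun ω hω => ?_)
      obtain ⟨-, b2, b3, b4, -⟩ := k ω hω
      have b5 := psi_ge b2.hb h0 h1 C0 b4
      rw [← hd] at b5
      have := mul_le_of_le_one_left (mul_nonneg d0 C0) h1
      rw [sco]
      linarith [(abs_le.1 b3).1]
    have := mul_nonneg d0 B0
    rw [MX.mu, val]
    linarith
  · obtain ⟨-, b2, -, b4, b5⟩ := k ω hω
    have m0 : (0 : ℝ) ≤ M := Nat.cast_nonneg _
    have n0 : (0 : ℝ) ≤ N := Nat.cast_nonneg _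
    refine (pen_zero b2.hb (y := (C + B) * (M + 1)) (by positivity) fun F =>
      ⟨(b4 F).trans ?_, (b5 F).trans ?_⟩).trans ?_
    · exact mul_le_mul_of_nonneg_right (Real.exp_le_exp.2 (by nlinarith)) (hb_B.nonneg F)
    · exact mul_le_mul_of_nonneg_right (Real.exp_le_exp.2 (by nlinarith)) (b2.hb.nonneg F)
    · rw [← hd, ← mul_assoc]
      exact mul_le_mul_of_nonneg_right (by linarith) (by positivity)

end Pool.Agent.MP_5168f5_an.QA
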