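import Pool.Agent.MP_5168f5_an.QA.ChainD
import Pool.Agent.MP_5168f5_an.QA.Ends

/-! The chain of optimal labels: the two ends. -/

namespace Pool.Agent.MP_5168f5_an.QA

open H19 H17S H17F MX Filter Finset

theorem psi_le_pen {N D : ℕ} {η : ℝ} (h0 : 0 ≤ η) (h1 : η ≤ 1) (ν : VD N D → ℝ) :
    Psi η ν ≤ pen (fun _ => 0) ν := sum_le_sum fun k _ => by
  rw [sub_zero]
  exact (mul_le_mul_of_nonneg_left (le_abs_self _) (pow_nonneg h0 _)).trans
    (mul_le_of_le_one_left (abs_nonneg _) (pow_le_one₀ h0 h1))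

theorem sEnds : SEnds := by
  intro N D ⟨C₁, c1, e1⟩ _
  obtain ⟨C₂, c2, e2⟩ := Ends.end0' N D
  obtain ⟨A, A0, hA⟩ := BdA.bd N D
  have n0 := Nat.cast_nonneg (α := ℝ) N
  refine ⟨2 * C₁ + 2 * C₂ + 2 * A + N + 2, by linarith,
    fun η t p x Y cn h0 h1 t0 t1 hp hb hθ hl hw h => ?_⟩
  have bx : (shOf x).Box x.P := fun ω hω => ⟨norm_le_one_of_box (hb ω hω).1,
    norm_le_one_of_box (hb ω hω).2.1, (hb ω hω).2.2⟩
  have fl' : Fn x.P (shOf x).l fun ω => fl Y.M (x.e ω) :=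
    (Fn.comp (fun l : V N × V N × x.T => (l.1, l.2.1)) _).trans hl
  have l1 : Y.lv 0 ≤ Y.M := Nat.div_mul_le_self _ _
  have l2 : (Y.M : ℝ) - Y.lv 0 ≤ Y.w := by
    have : Y.M ≤ Y.lv 0 + Y.w := (Nat.lt_div_mul_add hw).le
    have : (Y.M : ℝ) ≤ Y.lv 0 + Y.w := by exact_mod_cast this
    linarith
  have l3 : Y.lv Y.T = 0 := by rw [Chn.lv, Nat.sub_self, zero_mul]
  obtain ⟨K, k1, k2, k3, k4⟩ := e1 η x Y.M _ h0 h1 hb l1
  obtain ⟨a, ha⟩ : x.P.S.Nonempty :=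
    nonempty_of_sum_ne_zero (by rw [x.P.sum_one]; exact one_ne_zero)
  have o := h.opt 0 (Nat.zero_le _) a ha
  rw [h.zero.2, show cv x.P (Y.χ 0) (Y.χ 0 a) = x.P from
    (cE_congr fun u hu => iff_true_intro (h.zero.1 u hu a ha rfl)).trans (cE_true _)] at o
  have o1 : cst η x.P (shOf x) (Y.lv 0) (Y.S 0) + pE p (fun _ => 0) x.P (Y.S 0) ≤
      cst η x.P (shOf x) (Y.lv 0) K + pE p (fun _ => 0) x.P K + Real.log 1 + 2 :=
    o _ x.P id 1 K (R4.K31.dn_rfl _) k1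
  have v0 := h.val 0 (Nat.zero_le _)
  have f0 : Fn x.P (Y.S 0) ((shOf x).O (Y.lv 0)) := (h.fn 0 (Nat.zero_le _)).trans
    ((Fn.rfl _).pair fun u hu v hv _ => h.zero.1 u hu v hv rfl)
  have q1 := Stp.val_eq (η := η) v0 f0
  have q2 := Stp.val_eq (η := η) k1 k2
  have q3 : pE p (fun _ => 0) x.P K ≤ t * (C₁ * (Y.M + 1)) :=
    (x.P.E_mono fun ω hω => (Stp.pn_le hp (Stp.pen_nonneg _ _)).trans
      (mul_le_mul_of_nonneg_left (k4 ω hω) t0)).trans_eq (x.P.E_const _)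
  have eψ : ∀ i, x.P.E (Y.ψ η i) = ch x.P (shOf x).l (fun v => (Y.S i v, Y.χ i v)) +
      x.P.E (fun ω => sco η (Y.S i ω)) - Y.lv i * lg := fun i => by
    rw [ch_eq_cm, ← FP.E_add, ← x.P.E_const (Y.lv i * lg), ← FP.E_sub]; rfl
  have q4 : ch x.P (shOf x).l (Y.S 0) ≤ ch x.P (shOf x).l fun v => (Y.S 0 v, Y.χ 0 v) :=
    ch_anti ((Fn.rfl _).pair fun u hu v hv _ => h.zero.1 u hu v hv rfl)
  have q5 : ch x.P (shOf x).l (fun v => (Y.S Y.T v, Y.χ Y.T v)) ≤ ch x.P (shOf x).l (Y.S Y.T) :=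
    ch_anti (Fn.fst _ _)
  have q6 := e2 x.P (shOf x) Y.M (Y.S Y.T) η h0 h1 bx fl' (l3 ▸ h.val _ le_rfl)
  have w1 : (1 : ℝ) ≤ Y.w := by exact_mod_cast hw
  have m0 := Nat.cast_nonneg (α := ℝ) Y.M
  have z1 : N * ((Y.M : ℝ) - Y.lv 0) * lg ≤ N * Y.w := by
    rw [mul_assoc]
    exact mul_le_mul_of_nonneg_left ((mul_le_mul_of_nonneg_right l2 lg_pos.le).trans
      (mul_le_of_le_one_right (by linarith) lg_lt_one.le)) n0
  have p0 : 0 ≤ pE p (fun _ => 0) x.P (Y.S 0) :=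
    x.P.E_nonneg fun _ _ => Stp.pn_nonneg hp (Stp.pen_nonneg _ _)
  rw [Real.log_one] at o1
  constructor
  · rw [eψ, eψ, l3]
    change _ + pE p (fun _ => 0) x.P (Y.S 0) ≤ _
    unfold val at q1
    have u1 := mul_nonneg h0 m0
    have u2 := mul_nonneg t0 m0
    have u3 := mul_le_of_le_one_left c1 t1
    have u4 := mul_le_of_le_one_left c2 h1
    have u5 : 0 ≤ (2 * C₁ + C₂ + 2 * A + N + 2) * (η * Y.M) +
      (C₁ + 2 * C₂ + 2 * A + N + 2) * (t * Y.M) := by positivity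
    have u6 := mul_le_mul_of_nonneg_left w1 (show 0 ≤ 2 * C₁ + 2 * C₂ + 2 by positivity)
    have u7 := mul_nonneg A0 (zero_le_one.trans w1)
    push_cast
    linarith
  · have r1 : x.P.E (fun ω => |Real.log (Y.S 0 ω).J|) ≤ x.P.E fun ω =>
        2 * (A * (Y.M + 1)) - sco η (Y.S 0 ω) + pen (fun _ => 0) (Y.S 0 ω).ν :=
      x.P.E_mono fun ω hω => by
        have := (hA _ _ _ _ l1 ((v0 ω hω).1 ▸ BdA.box_in bx _ hω) (v0 ω hω).2).2.1
        have := psi_le_pen h0 h1 (Y.S 0 ω).ν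
        have : 0 ≤ A * (Y.M + 1) := by positivity
        rw [sco, abs_le]
        constructor <;> linarith
    rw [FP.E_add, FP.E_sub, FP.E_const] at r1
    have r2 : ch x.P (shOf x).l ((shOf x).zc (Y.lv 0)) ≤ N * Y.M * lg :=
      (ch_mono (fl'.left _)).trans (by
        have := ch_fl_refine (P := x.P) (x := x.e) (G := (shOf x).zc (Y.lv 0)) (j := 0) (i := Y.M)
          fun u hu v hv _ => funext fun i => by
            simp only [fl, pow_zero, one_mul]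
            rw [Int.floor_eq_zero_iff.2 ((hb u hu).2.1 i), Int.floor_eq_zero_iff.2 ((hb v hv).2.1 i)]
        rwa [zero_add] at this)
    have r3 : 0 ≤ mu x Y.M := ch_nonneg _ _
    have r4 : 0 ≤ ch x.P (Y.S 0) ((shOf x).zc (Y.lv 0)) := ch_nonneg _ _
    have r5 : 0 ≤ x.P.E fun ω => pen (fun _ => 0) (Y.S 0 ω).ν :=
      x.P.E_nonneg fun _ _ => Stp.pen_nonneg _ _
    have r6 : t * (C₁ * (Y.M + 1)) ≤ C₁ * (Y.M + 1) := mul_le_of_le_one_left (by positivity) t1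
    have r7 : N * ((Y.M : ℝ) - Y.lv 0) * lg - (Y.lv 0 + N * Y.M) * lg + N * Y.M * lg ≤ N * Y.M := by
      have := mul_nonneg (Nat.cast_nonneg (α := ℝ) (Y.lv 0)) lg_pos.le
      have := mul_nonneg n0 this
      have := mul_le_of_le_one_right (mul_nonneg n0 m0) lg_lt_one.le
      linarith
    have u6 := mul_le_mul_of_nonneg_left w1 (show 0 ≤ 2 * C₁ + 2 * A + 2 by positivity)
    have u5 : 0 ≤ (C₁ + 2 * C₂ + 2) * Y.M + (2 * C₂ + N) * Y.w + (2 * C₁ + 2 * C₂ + 2 * A + N + 1) *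
      x.P.E fun ω => pen (fun _ => 0) (Y.S 0 ω).ν := by positivity
    unfold cst at o1 q2
    linarith

end Pool.Agent.MP_5168f5_an.QA
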