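import Pool.Agent.MP_5168f5_an.QA.ChainD

/-! The chain of optimal labels: the recursion. -/

namespace Pool.Agent.MP_5168f5_an.QA

open H19 H17S H17F MX Filter Finset

theorem ex_fix {A : Type} (G : (ℕ → A) → ℕ → A) (a : A)
    (h : ∀ f g i, (∀ j < i, f j = g j) → G f i = G g i) : ∃ f : ℕ → A, ∀ i, f i = G f i :=
  ⟨Nat.lt_wfRel.wf.fix fun i r => G (fun j => if e : j < i then r j e else a) i, fun i => by
    rw [WellFounded.fix_eq]
    exact h _ _ i fun j e => dif_pos e⟩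

theorem box_sh {N : ℕ} {x : Cfg N} (h : x.Box) : (shOf x).Box x.P := fun ω hω =>
  have k : ∀ v : Fin N → ℝ, (∀ i, 0 ≤ v i ∧ v i < 1) → ‖v‖ ≤ 1 := fun v e =>
    (pi_norm_le_iff_of_nonneg zero_le_one).2 fun i => by
      rw [Real.norm_eq_abs, abs_of_nonneg (e i).1]; exact (e i).2.le
  ⟨k _ (h ω hω).1, k _ (h ω hω).2.1, (h ω hω).2.2⟩

theorem sBs : SBs := by
  intro N D ⟨C, _, e1⟩ η t p x M w h0 h1 hp hb hw
  let cn : List (Fin (dV N D + 1) ⊕ Fin 3 → ℤ) → ℕ → ℝ := fun a k =>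
    if e : k < dV N D + 1 then w * (a.headD 0 (.inl ⟨k, e⟩) : ℤ) else 0
  have lv : ∀ i, (M / w - i) * w ≤ M := fun i =>
    (Nat.mul_le_mul_right _ (Nat.sub_le _ _)).trans (Nat.div_mul_le_self _ _)
  choose lab l1 l2 l3 using fun i (χ : x.Ω → List (Fin (dV N D + 1) ⊕ Fin 3 → ℤ)) =>
    Stp.ex_lab (g := shOf x) h0 h1 hp χ cn (box_sh hb) (lv i)
      (e1 η x M _ h0 h1 hb (lv i)).choose_spec.1
  let mk : (ℕ → x.Ω → List (Fin (dV N D + 1) ⊕ Fin 3 → ℤ)) → Chn D x := fun χ =>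
    ⟨_, M, w, fun i => lab i (χ i), χ⟩
  obtain ⟨χ, hχ⟩ := ex_fix (fun χ i => Nat.casesOn i (fun _ => [])
    fun i ω => (mk χ).ro η i ω :: χ i ω) (fun _ => []) fun f g i e => by
      cases i with
      | zero => rfl
      | succ i =>
        have a : ∀ ω, ∑ j ∈ range i, (mk f).dj j ω = ∑ j ∈ range i, (mk g).dj j ω := fun ω =>
          sum_congr rfl fun j hj => by
            have := mem_range.1 hj
            simp only [Chn.dj, mk, e j (by omega), e (j + 1) (by omega)]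
        funext ω
        unfold Chn.ro Chn.ob
        simp only [a]
        simp only [Chn.ψ, Chn.lv, Chn.T, mk, e i (by omega), e 0 (by omega)]
  have z : ∀ ω, χ 0 ω = [] := congrFun (hχ 0)
  have s : ∀ i ω, χ (i + 1) ω = (mk χ).ro η i ω :: χ i ω := fun i => congrFun (hχ (i + 1))
  refine ⟨mk χ, cn, rfl, rfl, fun i _ => l1 i _, fun i _ => l2 i _, fun i a _ b _ e => ?_,
    fun i _ a ha => (l3 i _ _).resolve_right fun k => k a ha rfl,
    ⟨fun a _ b _ _ => (z a).trans (z b).symm, fun ω => funext fun k => ?_⟩, fun i ω => ?_,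
    fun i a _ b _ e => ?_, fun i a _ b _ e => ?_⟩
  · exact (List.cons.inj ((s i a).symm.trans (e.trans (s i b)))).2
  · simp [mk, cn, z]
  · refine (sum_le_card_nsmul _ _ (w : ℝ) fun k hk => ?_).trans_eq (by simp [mk])
    have w0 : (0 : ℝ) < w := by exact_mod_cast hw
    have e : cn ((mk χ).χ (i + 1) ω) k = w * (⌊sg k ((mk χ).S i ω).ν / w⌋ : ℤ) := by
      simp only [cn, dif_pos (mem_range.1 hk)]
      rw [show (mk χ).χ (i + 1) ω = _ from s i ω]
      rfl
    have a := mul_le_mul_of_nonneg_left (Int.floor_le (sg k ((mk χ).S i ω).ν / w)) w0.le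
    have b := mul_le_mul_of_nonneg_left (Int.lt_floor_add_one (sg k ((mk χ).S i ω).ν / w)).le w0.le
    rw [mul_div_cancel₀ _ w0.ne'] at a b
    rw [e, abs_le]
    constructor <;> linarith
  · exact (List.cons.inj ((s i a).symm.trans (e.trans (s i b)))).1
  · exact (s i a).trans ((congrArg₂ _ (Prod.mk.inj e).1 (Prod.mk.inj e).2).trans (s i b).symm)

end Pool.Agent.MP_5168f5_an.QA
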