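import Pool.Agent.MP_5168f5_an.QA.ChainA
import Pool.Agent.MP_5168f5_an.QA.ChainS
import Pool.Agent.MP_5168f5_an.QA.ChainE
import Pool.Agent.MP_5168f5_an.QA.NJA

/-! The chain of optimal labels: the estimates. -/

namespace Pool.Agent.MP_5168f5_an.QA

open H19 H17S H17F MX Finset Stp Pen AN.C1

namespace Chn

variable {N D I i : ℕ} {x : Cfg N} {Y : Chn D x} {η t v : ℝ} {X : ℕ → ℝ} {p : ℝ → ℝ}
  {cn : Y.Λ → ℕ → ℝ}

theorem one_ne : (⟨1, (MvPolynomial.mem_restrictTotalDegree _ _ _).2 (by simp)⟩ : VD N D) ≠ 0 :=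
  fun h => one_ne_zero (congrArg Subtype.val h)

theorem dV_pos : 0 < dV N D := Module.finrank_pos_iff_exists_ne_zero.2 ⟨_, one_ne⟩

theorem ds_nonneg {ν ν' : VD N D → ℝ} (h : Hb ν) (h' : Hb ν') : 0 ≤ ds ν ν' := by
  have a := h.pos one_ne
  have b := h'.pos one_ne
  rcases le_total (ν _) (ν' _) with k | k
  · exact le_max_of_le_right (Real.log_nonneg
      (one_le_of_le_mul_right₀ a (k.trans (NJ.le_rho1 h' h _))))
  · exact le_max_of_le_left (Real.log_nonneg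
      (one_le_of_le_mul_right₀ b (k.trans (NJ.le_rho1 h h' _))))

theorem lv_succ0 (hi : i < Y.T) : Y.lv i = Y.lv (i + 1) + Y.w := by
  rw [lv, lv, ← Nat.succ_mul, Nat.succ_eq_add_one, show Y.T - (i + 1) + 1 = Y.T - i by omega]

theorem lv_le : Y.lv i ≤ Y.M :=
  (Nat.mul_le_mul_right _ (Nat.sub_le _ _)).trans (Nat.div_mul_le_self _ _)

theorem T_mul : (Y.T : ℝ) * Y.w ≤ Y.M := by exact_mod_cast Nat.div_mul_le_self Y.M Y.w

theorem pn_ok (h : Pen.Ok t v X) : Pn t (pn t v X I) := ⟨h.pn_zero, fun a b ha k =>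
  ⟨h.pn_mono k, (h.pn_tri ha (sub_nonneg.2 k) (by linarith)).trans
    (add_le_add le_rfl (pn_le_top _))⟩⟩

theorem box0 (hb : x.Box) : (shOf x).Box x.P := fun ω hω =>
  ⟨norm_le_one_of_box (hb ω hω).1, norm_le_one_of_box (hb ω hω).2.1, (hb ω hω).2.2⟩

theorem Bs.lk (b : Y.Bs η p cn) (hp : Pn t p) (hb : x.Box) (hi : i < Y.T) :
    Lk η t ((dV N D + 1) * Y.w) p x.P (shOf x) Y.M (Y.lv (i + 1)) Y.w (Y.S i) (Y.S (i + 1))
      (Y.χ i) (Y.χ (i + 1)) cn := by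
  refine ⟨box0 hb, ?_, ?_, b.val _ hi, ?_, b.fn _ hi, b.nest i, fun a ha => ?_, b.opt _ hi, hp,
    fun ω _ => b.cen i ω⟩ <;> rw [← lv_succ0 hi]
  exacts [lv_le, b.val i hi.le, b.fn i hi.le, opd_mono (opd_of_opt (b.opt i hi.le a ha) hp
    fun _ _ => pn_add hp) (add_zero _).le le_rfl]

theorem near {w a b : ℝ} (hw : 0 < w) (h : ⌊a / w⌋ = ⌊b / w⌋) : |a - b| ≤ w := by
  have := Int.abs_sub_lt_one_of_floor_eq_floor h
  rw [← sub_div, abs_div, abs_of_pos hw, div_lt_one hw] at this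
  exact this.le

theorem Bs.hh_le (b : Y.Bs η p cn) (n : ℕ) : hh x.P (Y.χ n) ≤ ∑ i ∈ range n, Y.hc i := by
  induction n with
  | zero => exact (hh_mono b.zero.1).trans (hh_unit.trans (sum_range_zero _).symm).le
  | succ n ih =>
    have h1 : hh x.P (Y.χ (n + 1)) ≤ _ := hh_mono (Fn.fst _ (Y.χ n))
    rw [sum_range_succ, hc, ch]
    linarith

theorem card_eq : (Fintype.card (Fin (dV N D + 1) ⊕ Fin 3) : ℝ) = dV N D + 4 := by
  simp only [Fintype.card_sum, Fintype.card_fin]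
  push_cast
  ring

theorem Bs.hc_succ (b : Y.Bs η p cn) (hw : 0 < Y.w) (i : ℕ) :
    Y.hc (i + 1) ≤ x.P.E (Y.tv η i) / Y.w + 5 * (dV N D + 4) := by
  refine (ch_mono (b.gen (i + 1))).trans ((Op.ch_vec (Nat.cast_pos.2 hw) (Y.ob η (i + 1))
    (Y.ob η i) (b.rd i)).trans_eq ?_)
  rw [card_eq, x.P.E_congr (G := Y.tv η i) fun ω _ => ?_]
  simp only [ob, Fintype.sum_sum_type, Sum.elim_inl, Sum.elim_inr, Fin.sum_univ_three,
    Matrix.cons_val, sum_range_succ, add_sub_cancel_left, sub_sub_sub_cancel_right, tv, jp, dsp,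
    pen]
  rw [Fin.sum_univ_eq_sum_range fun k => |sg k (Y.S (i + 1) ω).ν - sg k (Y.S i ω).ν|,
    sum_range_succ, abs_sub_comm (Real.log _), abs_sub_comm (Y.ψ η _ ω)]
  ring

theorem Bs.hc_zero (b : Y.Bs η p cn) (hw : 0 < Y.w) : Y.hc 0 ≤ (x.P.E (fun ω =>
    pen (fun _ => 0) (Y.S 0 ω).ν) + x.P.E fun ω => |Real.log (Y.S 0 ω).J|) / Y.w +
      5 * (dV N D + 4) := by
  refine (ch_mono (b.gen 0)).trans ((Op.ch_vec (Nat.cast_pos.2 hw) (Y.ob η 0)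
    (fun _ _ => 0) fun _ _ _ _ _ => rfl).trans_eq ?_)
  rw [card_eq, ← FP.E_add, x.P.E_congr fun ω _ => ?_]
  simp only [ob, Fintype.sum_sum_type, Sum.elim_inl, Sum.elim_inr, Fin.sum_univ_three,
    Matrix.cons_val, sum_range_zero, sub_self, abs_zero, add_zero, pen]
  rw [Fin.sum_univ_eq_sum_range fun k => |sg k (Y.S 0 ω).ν - 0|, sub_zero (Real.log _)]

theorem Bs.jp_le (b : Y.Bs η p cn) (i : ℕ) (ω : x.Ω) :
    Y.jp i ω ≤ pen (cn (Y.χ (i + 1) ω)) (Y.S (i + 1) ω).ν + (dV N D + 1) * Y.w :=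
  (dsp_le _ _ _).trans (add_le_add le_rfl (b.cen i ω))

theorem Bs.tv_le (b : Y.Bs η p cn) (hi : i < Y.T) {z : ℝ} (hz : 0 ≤ z) : x.P.E (Y.tv η i) ≤
    x.P.E (fun ω => pen (cn (Y.χ (i + 1) ω)) (Y.S (i + 1) ω).ν) + (dV N D + 1) * Y.w +
      x.P.E (fun ω => Y.dj i ω + |Real.log (Y.S i ω).J - Real.log (Y.S (i + 1) ω).J|) +
      2 * x.P.E (fun ω => max 0 (Y.ψ η i ω - Y.ψ η (i + 1) ω - z)) + 2 * z -
      (x.P.E (Y.ψ η i) - x.P.E (Y.ψ η (i + 1))) := by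
  rw [← x.P.E_const (_ * (Y.w : ℝ)), ← x.P.E_const (2 * z), ← FP.E_mul, ← FP.E_sub, ← FP.E_add,
    ← FP.E_add, ← FP.E_add, ← FP.E_add, ← FP.E_sub]
  refine x.P.E_mono fun ω hω => ?_
  have j := b.jp_le i ω
  rw [tv, abs_of_nonneg (a := Y.dj i ω)
    (ds_nonneg (b.val i hi.le ω hω).2.hb (b.val _ hi ω hω).2.hb)]
  rcases le_total 0 (Y.ψ η i ω - Y.ψ η (i + 1) ω) with k | k
  · rw [abs_of_nonneg k]
    linarith [le_max_right 0 (Y.ψ η i ω - Y.ψ η (i + 1) ω - z)]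
  · rw [abs_of_nonpos k]
    linarith [le_max_left 0 (Y.ψ η i ω - Y.ψ η (i + 1) ω - z)]

/-- The entropy of the contexts and the total variation bound each other. -/
theorem loop {n d s A K θ B G M w T H H' Δ Q Z V q y j : ℝ} (d0 : 0 ≤ d) (n0 : 0 ≤ n) (s0 : 0 ≤ s)
    (A0 : 0 ≤ A) (K0 : 0 ≤ K) (θ0 : 0 < θ) (hB : B = (1 + K + A) * ((n + s + A + K) / θ) +
      (d + 1 + K * (d + 5) + 2 * n + s + 2 * A)) (hG : G = 2 * B + 10 * (d + 4)) (M0 : 0 ≤ M)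
    (w1 : 1 ≤ w) (w2 : 2 * B ≤ w) (T0 : 0 ≤ T) (T1 : T * w ≤ M) (H1 : H' ≤ H) (H0 : 0 ≤ H)
    (y0 : 0 ≤ y) (Z0 : 0 ≤ Z) (j0 : 0 ≤ j) (s1 : Δ + Q ≤ T * (n * w) + K * (T + H'))
    (a1 : q ≤ Δ + s * M + A * w) (a2 : j ≤ A * (M + w + y)) (k0 : θ * y ≤ q) (k1 : θ * Z ≤ Q)
    (s4 : V ≤ Z + T * ((d + 1) * w) + K * (T + H' + T * ((d + 2) * w) + Z) + 2 * (K * (T + H')) +
      T * (2 * (n * w)) - Δ) (s6 : H ≤ V / w + T * (5 * (d + 4)) + ((y + j) / w + 5 * (d + 4))) :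
    H ≤ G * (M / w + 1) ∧ V ≤ B * (1 + G) * (M + w) ∧
      Q ≤ (n + s) * M + (A + K) * (1 + G) * (M / w + w) := by
  have w0 : 0 < w := one_pos.trans_le w1
  have B0 : 0 ≤ B := by rw [hB]; positivity
  have G0 : 0 ≤ G := by rw [hG]; positivity
  obtain ⟨m, hm⟩ : ∃ m : ℝ, m = M / w := ⟨_, rfl⟩
  have T2 : T ≤ m := hm ▸ (le_div_iff₀ w0).2 T1
  have m1 : m ≤ M := hm ▸ div_le_self M0 w1
  have m0 := T0.trans T2
  have q0 := (mul_nonneg θ0.le y0).trans k0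
  have s2 : q + Q ≤ (n + s) * M + A * w + K * (m + H) := by
    linarith [mul_le_mul_of_nonneg_left T1 n0, mul_le_mul_of_nonneg_left (add_le_add T2 H1) K0]
  have s3 : y + Z ≤ (n + s + A + K) / θ * (M + w + H) := by
    rw [div_mul_eq_mul_div, le_div_iff₀' θ0]
    have : 0 ≤ K * w + (n + s) * (w + H) + A * (M + H) := by positivity
    linarith [mul_le_mul_of_nonneg_left m1 K0]
  have s5 : V + (y + j) ≤ B * (M + w + H) := by
    have k1 := mul_le_mul_of_nonneg_left s3 (show 0 ≤ 1 + K + A by positivity)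
    have k2 := mul_le_mul_of_nonneg_left T1 (show 0 ≤ d + 1 + K * (d + 2) + 2 * n by positivity)
    have k3 := mul_le_mul_of_nonneg_left (add_le_add (T2.trans m1) H1) K0
    have k4 : 0 ≤ K * y + A * Z + A * M + (d + 1 + K * (d + 5) + 2 * n + s) * w +
      (d + 1 + K * (d + 2) + 2 * n + s + 2 * A) * H := by positivity
    rw [hB]
    linarith
  have s7 : H ≤ G * (m + 1) := by
    have k3 : (V + (y + j)) / w ≤ B * (m + 1) + H / 2 := by
      rw [div_le_iff₀ w0, hm, add_mul, mul_assoc, add_mul, div_mul_cancel₀ _ w0.ne']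
      linarith [mul_le_mul_of_nonneg_left w2 H0]
    rw [add_div] at k3
    rw [hG]
    linarith [mul_le_mul_of_nonneg_left T2 (show 0 ≤ d + 4 by positivity)]
  rw [← hm]
  refine ⟨s7, ?_, ?_⟩
  · have k1 : M + w + H ≤ (1 + G) * (M + w) := by
      linarith [mul_le_mul_of_nonneg_left (add_le_add m1 w1) G0]
    linarith [mul_le_mul_of_nonneg_left k1 B0]
  · have k4 : m + H ≤ (1 + G) * (m + w) := by linarith [mul_le_mul_of_nonneg_left w1 G0]
    have k5 : 0 ≤ A * m + A * G * (m + w) := by positivity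
    linarith [mul_le_mul_of_nonneg_left k4 K0]

end Chn

open Chn in
theorem ofChn : OfChn := fun sb se N D e1 e2 ex nj => by
  obtain ⟨L, L1, hL⟩ := link ex nj
  obtain ⟨A, A1, hA⟩ := se N D e1 e2
  obtain ⟨d, hd⟩ : ∃ d : ℝ, d = dV N D := ⟨_, rfl⟩
  have d0 : 0 ≤ d := hd ▸ Nat.cast_nonneg _
  have n0 := Nat.cast_nonneg (α := ℝ) N
  refine ⟨L + A + d + N + 3, by linarith, fun η t s pa t0 hs v I v0 => ?_⟩
  have η0 := pa.1
  have η1 : η ≤ 1 := by nlinarith [pa.2.1]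
  have t1 : (L + A + d + N + 3) * t ≤ η :=
    pa.2.2.2.trans (pow_le_of_le_one η0.le η1 dV_pos.ne')
  have s0 : 0 < s := lt_of_le_of_lt (by positivity) hs
  have t2 : t * (d + 1) ≤ η := by nlinarith
  have t3 : A * (η + t) ≤ s := by nlinarith
  have t4 : L * η + (s - (L + A + d + N + 3) * η) + t * (d + 1) ≤ s := by nlinarith
  have t5 : t ≤ 1 := by nlinarith
  obtain ⟨K, K0, hK⟩ := hL η t _ (pa.mono (by linarith)) (sub_pos.2 hs)
  have θ0 : 0 < th t v I := mul_pos t0 (pow_pos v0 _)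
  obtain ⟨B, hB⟩ : ∃ B, B = (1 + K + A) * ((N + 1 + s + s + A + K) / th t v I) +
    (d + 1 + K * (d + 5) + 2 * (N + 1 + s) + s + 2 * A) := ⟨_, rfl⟩
  have B0 : 0 ≤ B := by rw [hB]; positivity
  obtain ⟨G, hG⟩ : ∃ G, G = 2 * B + 10 * (d + 4) := ⟨_, rfl⟩
  have G0 : 0 ≤ G := by rw [hG]; positivity
  obtain ⟨C, hC⟩ : ∃ C, C = (1 + B + K + A + N + s) * (1 + G) := ⟨_, rfl⟩
  have c1 : 1 + G ≤ C := hC ▸ le_mul_of_one_le_left (by linarith) (by linarith)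
  have c2 : 1 + B + K + A + N + s ≤ C := hC ▸ le_mul_of_one_le_right (by linarith) (by linarith)
  have c3 : B * (1 + G) ≤ C := hC ▸ mul_le_mul_of_nonneg_right (by linarith) (by linarith)
  have c4 : (A + K) * (1 + G) ≤ C := hC ▸ mul_le_mul_of_nonneg_right (by linarith) (by linarith)
  refine ⟨C, by linarith, fun x M w X hb _ hl hw hCw ok => ?_⟩
  have hp := pn_ok (I := I) ok
  obtain ⟨Y, cn, rfl, rfl, b⟩ := sb N D e1 η t _ x M w η0.le η1 hp hb hw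
  obtain ⟨a1, a2⟩ := hA η t _ x Y cn η0.le η1 t0.le t5 hp hb ‹_› hl hw b
  have w1 : (1 : ℝ) ≤ Y.w := Nat.one_le_cast.2 hw
  have w0 : (0 : ℝ) < Y.w := one_pos.trans_le w1
  have M0 := Nat.cast_nonneg (α := ℝ) Y.M
  have m0 := div_nonneg M0 w0.le
  have h0 : ∀ i, 0 ≤ Y.hc i := fun i => ch_nonneg _ _
  have u1 := mul_le_mul_of_nonneg_right t4 w0.le
  obtain ⟨y, hy⟩ : ∃ y : ℕ → ℝ, ∀ i, y i =
    x.P.E fun ω => pen (cn (Y.χ (i + 1) ω)) (Y.S (i + 1) ω).ν := ⟨_, fun _ => rfl⟩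
  obtain ⟨q, hq⟩ : ∃ q : ℕ → ℝ, ∀ i, q i =
    x.P.E fun ω => pn t v X I (pen (cn (Y.χ (i + 1) ω)) (Y.S (i + 1) ω).ν) := ⟨_, fun _ => rfl⟩
  have yq : ∀ F : x.Ω → ℝ, (∀ ω, 0 ≤ F ω) →
      th t v I * x.P.E F ≤ x.P.E fun ω => pn t v X I (F ω) := fun F k => by
    rw [← FP.E_mul]
    exact x.P.E_mono fun ω _ => ok.le_pn (k ω)
  have key : ∀ i < Y.T, x.P.E (Y.ψ η i) - x.P.E (Y.ψ η (i + 1)) + q i ≤ (N * lg + s) * Y.w +
      ch x.P ((shOf x).zc (Y.lv i)) ((shOf x).O (Y.lv (i + 1))) + K * (1 + Y.hc i) ∧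
      x.P.E (fun ω => Y.dj i ω + |Real.log (Y.S i ω).J - Real.log (Y.S (i + 1) ω).J|) ≤
        K * (1 + Y.hc i + (d + 2) * Y.w + y i) ∧ (∀ z, (N + 1 + s) * Y.w ≤ z → x.P.E (fun ω =>
          max 0 (Y.ψ η i ω - Y.ψ η (i + 1) ω - z)) ≤ K * (1 + Y.hc i)) ∧
      ch x.P ((shOf x).zc (Y.lv i)) ((shOf x).O (Y.lv (i + 1))) ≤ Y.w := fun i hi => by
    obtain ⟨k1, k2, k3⟩ := hK _ _ _ _ _ _ _ _ _ _ _ _ _ _ (b.lk hp hb hi)
    have k4 := ((ch_anti (F := (shOf x).zc (Y.lv (i + 1) + Y.w)) (Fn.snd (shOf x).l _)).trans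
      (ch_zc (P := x.P) _ Y.w)).trans (mul_le_of_le_one_right w0.le lg_lt_one.le)
    rw [← lv_succ0 hi, ← hd] at k1 k3
    rw [← lv_succ0 hi] at k4
    rw [← hd, ← hy] at k2
    rw [← hq] at k1
    refine ⟨k1.trans ?_, k2.trans_eq (by rw [hc]; ring), fun z hz => k3 z (by linarith), k4⟩
    rw [hc]
    linarith
  have H1 : ∑ i ∈ range Y.T, Y.hc i ≤ ∑ i ∈ range (Y.T + 1), Y.hc i := by
    rw [sum_range_succ]; linarith [h0 Y.T]
  have z1 : N * lg * Y.w ≤ N * Y.w :=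
    mul_le_mul_of_nonneg_right (mul_le_of_le_one_right n0 lg_lt_one.le) w0.le
  have s1 := sum_le_sum fun i (hi : i ∈ range Y.T) => show x.P.E (Y.ψ η i) - x.P.E (Y.ψ η (i + 1)) +
    q i ≤ (N + 1 + s) * Y.w + K * (1 + Y.hc i) by
      linarith [(key i (mem_range.1 hi)).1, (key i (mem_range.1 hi)).2.2.2]
  have a3 := mul_le_mul_of_nonneg_right t3 M0
  have mu0 : 0 ≤ mu x Y.M := ch_nonneg _ _
  have s3 := sum_le_sum fun i (_ : i ∈ range Y.T) => show th t v I * y i ≤ q i by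
    rw [hy, hq]; exact yq _ fun _ => pen_nonneg _ _
  have s4 := sum_le_sum fun i (hi : i ∈ range Y.T) => show x.P.E (Y.tv η i) ≤
      y i + (d + 1) * Y.w + K * (1 + Y.hc i + (d + 2) * Y.w + y i) + 2 * (K * (1 + Y.hc i)) +
        2 * ((N + 1 + s) * Y.w) - (x.P.E (Y.ψ η i) - x.P.E (Y.ψ η (i + 1))) by
    obtain ⟨-, k2, k3, -⟩ := key i (mem_range.1 hi)
    have := b.tv_le (mem_range.1 hi) (z := (N + 1 + s) * Y.w) (by positivity)
    rw [← hy, ← hd] at this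
    linarith [k3 _ le_rfl]
  have s5 := sum_le_sum fun i (_ : i ∈ range Y.T) => b.hc_succ hw i
  have s6 := add_le_add s5 (b.hc_zero hw)
  have s7 := sum_le_sum fun i (_ : i ∈ range Y.T) => show
      x.P.E (fun ω => pn t v X I (Y.jp i ω)) ≤ q i + t * ((d + 1) * Y.w) by
    rw [← x.P.E_const (t * _), hq, ← FP.E_add, hd]
    exact x.P.E_mono fun ω _ => (ok.pn_tri (pen_nonneg _ _) (by positivity) (b.jp_le i ω)).trans
      (add_le_add le_rfl (pn_le_top _))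
  rw [← sum_range_succ', ← hd] at s6
  rw [sum_sub_distrib] at s4
  simp only [sum_add_distrib, sum_range_sub', ← mul_sum, ← sum_div, sum_const, card_range,
    nsmul_eq_mul, mul_one] at s1 s3 s4 s6 s7
  have q0 := x.P.E_nonneg fun ω _ => ok.pn_nonneg (I := I) (pen_nonneg (fun _ => 0) (Y.S 0 ω).ν)
  obtain ⟨r1, r2, r3⟩ := loop d0 (by positivity) s0.le (by linarith) K0 θ0 hB hG M0 w1 (by linarith)
    (Nat.cast_nonneg _) T_mul H1 (sum_nonneg fun i _ => h0 i)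
    (x.P.E_nonneg fun _ _ => pen_nonneg _ _)
    (sum_nonneg fun i _ => hy i ▸ x.P.E_nonneg fun _ _ => pen_nonneg _ _)
    (x.P.E_nonneg fun _ _ => abs_nonneg _) (s1.trans_eq (by ring))
    ((le_add_of_nonneg_left mu0).trans (a1.trans (add_le_add (add_le_add le_rfl a3) le_rfl))) a2
    (yq _ fun _ => pen_nonneg _ _) s3
    (s4.trans_eq (by ring)) (s6.trans_eq (by ring))
  refine ⟨Y, rfl, rfl, b.val, b.fn, b.nest, fun i hi r hr a ha => ?_, fun i _ a ha a' ha' e => ?_,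
    (b.hh_le _).trans ?_, fun i hi => ?_, fun i hi => ?_, ?_, ?_, ?_⟩
  · exact opd_mono (opd_of_opt (b₀ := t * X r) (b.opt i hi a ha) hp fun _ z k k' =>
      (ok.pn_add k k').trans (by linarith [ok.pn_le_rng hr z])) (by linarith) le_rfl
  · have k := fun j => near w0 (congrFun (b.rd i a ha a' ha' e) j)
    exact ⟨fun j hj => k (.inl ⟨j, Nat.lt_succ_of_le hj⟩), k (.inr 0), k (.inr 1), k (.inr 2)⟩
  · exact r1.trans (mul_le_mul_of_nonneg_right (by linarith) (by positivity))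
  · have : 0 ≤ q i := hq i ▸ x.P.E_nonneg fun _ _ => ok.pn_nonneg (pen_nonneg _ _)
    linarith [(key i hi).1, mul_le_mul_of_nonneg_right (show K ≤ C by linarith)
      (show 0 ≤ 1 + Y.hc i by linarith [h0 i])]
  · exact ((key i hi).2.2.1 _ (mul_le_mul_of_nonneg_right (by linarith) w0.le)).trans
      (mul_le_mul_of_nonneg_right (by linarith) (by linarith [h0 i]))
  · linarith [mul_le_mul (show A ≤ C by linarith)
      (show (Y.w : ℝ) ≤ Y.M / Y.w + Y.w by linarith) w0.le (by linarith)]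
  · exact r2.trans (mul_le_mul_of_nonneg_right c3 (by positivity))
  · have k3 : t * (d + 1) * (Y.T * Y.w) ≤ 1 * Y.M :=
      mul_le_mul (t2.trans η1) T_mul (by positivity) zero_le_one
    have k5 : 0 ≤ (L + A + d) * Y.M := by positivity
    linarith [mul_le_mul_of_nonneg_right c4 (show 0 ≤ (Y.M : ℝ) / Y.w + Y.w by positivity)]

/-- The chain exists. -/
theorem sChn : SChn := ofChn sBs sEnds

end Pool.Agent.MP_5168f5_an.QA
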