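import Pool.Agent.MP_5168f5_an.QA.SelPe

/-! The selection of the tangent system. -/

namespace Pool.Agent.MP_5168f5_an.QA

open H19 H17S H17F MX Filter Finset Pen

namespace Chn

/-- Flatness holds in all units above a small threshold. -/
theorem ht_slow {Ω T : ℕ → Type} {P : ∀ n, FP (Ω n)} {X : ∀ n, Ω n → ℝ} {K : ∀ n, Ω n → T n}
    {kf R : ℕ → ℕ} (h : HT kf P X K R) : ∃ M₀ : ℕ → ℝ, Sm R M₀ ∧ ∀ u : ℕ → ℕ, Sm u M₀ →
    ∀ (i : ℕ) (a b : ℕ → ℕ), (∀ᶠ n in UF, a n ≤ b n ∧ b n ≤ R n) →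
      HT1 (kf i) P (fun n ω => 2 ^ b n * X n ω) (fun n ω => (fl1 (a n) (X n ω), K n ω)) u
        fun n => (1 - 1 / (i + 1 : ℝ)) * (b n - a n) * lg := by
  obtain ⟨k, k1, k2⟩ := KSA.spill _ fun m : ℕ => (eventually_all_finite (Set.finite_Iic m)).2
    fun i _ => htw_iff.1 (h i) (1 / (m + 1 : ℝ)) (by positivity)
  refine ⟨fun n => 1 / (k n + 1 : ℝ) * R n, fun ε hε => (R4.K31.small hε k1).mono fun n a => ?_,
    fun u hu i a b e ε hε => ?_⟩
  · linarith [mul_le_mul_of_nonneg_right a (Nat.cast_nonneg (α := ℝ) (R n))]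
  · filter_upwards [k2, k1.eventually_ge_atTop i, R4.K31.small hε k1, hu ε hε, e] with n f g p q z
    exact (f _ le_rfl i g _ _ z.1 z.2).mono p (Real.exp_le_exp.2 (by linarith))

/-- The second zoom. -/
theorem zoom {ι : Type} [Finite ι] {u c : ℕ → ℕ} {f : ι → ℕ → ℕ → ℝ} {T φ : ℕ → ℕ → ℝ}
    {A C g δ : ℝ} (hu : Big u) (hδ : 0 < δ) (mT : ∀ n, Monotone (T n))
    (hf : ∀ j n a a', a ≤ a' → |f j n a' - f j n a| ≤ T n a' - T n a)
    (hT : ∀ᶠ n in UF, T n (c n + u n) - T n (c n) ≤ A * u n)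
    (h1 : ∀ ε : ℝ, 0 < ε → ∀ᶠ n in UF, ∀ a a', c n ≤ a → a ≤ a' → a' ≤ c n + u n →
      φ n a' - φ n a ≤ C * (a' - a) + ε * u n)
    (h2 : ∀ᶠ n in UF, g * u n ≤ φ n (c n + u n) - φ n (c n)) :
    ∃ (σ : ι → ℝ) (Γ β : ℝ) (d : ℕ → ℕ) (M₀ : ℕ → ℝ), g - δ ≤ β ∧ Sm u M₀ ∧
      ∀ u' : ℕ → ℕ, (Sm u fun n => u' n) → Sm u' M₀ → Mid u u' d ∧
        (∀ j, LinAt u' (fun n => c n + d n) (f j) (σ j)) ∧ LinAt u' (fun n => c n + d n) T Γ ∧
        LinAt u' (fun n => c n + d n) φ β := by
  obtain ⟨σ, d, M₀, -, σ1, m1, m2⟩ := blow (L := u) (ι := Option (Option ι))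
    (φ := fun j n a => j.elim (C * a - φ n (c n + a)) fun j =>
      j.elim (T n (c n + a)) fun j => f j n (c n + a) + T n (c n + a))
    (A := fun j => j.elim (C - g) fun _ => 2 * |A|) hu (fun j => by
      have p := fun n => mul_le_mul_of_nonneg_right (le_abs_self A) (Nat.cast_nonneg (α := ℝ) (u n))
      have q := fun n => mul_nonneg (abs_nonneg A) (Nat.cast_nonneg (α := ℝ) (u n))
      rcases j with _ | _ | j
      · refine ⟨fun ε hε => (h1 ε hε).mono fun n e a a' k k' => ?_, Le.of_ev (h2.mono fun n e => ?_)⟩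
        · have := e (c n + a) (c n + a') (by omega) (by omega) (by omega)
          push_cast at this
          simp only [Option.elim]
          linarith
        · simp only [Option.elim, add_zero, Nat.cast_zero]
          linarith
      · exact ⟨fun ε hε => Eventually.of_forall fun n a a' k _ =>
          (mT n (Nat.add_le_add_left k _)).trans (le_add_of_nonneg_right (by positivity)),
          Le.of_ev (hT.mono fun n e => e.trans (by simp only [Option.elim]; linarith [p n, q n]))⟩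
      · refine ⟨fun ε hε => Eventually.of_forall fun n a a' k _ => ?_,
          Le.of_ev (hT.mono fun n e => ?_)⟩
        · have := (abs_le.1 (hf j n _ _ (Nat.add_le_add_left k (c n)))).1
          have : 0 ≤ ε * u n := by positivity
          simp only [Option.elim]
          linarith
        · have := (abs_le.1 (hf j n _ _ (Nat.le_add_right (c n) (u n)))).2
          simp only [Option.elim, add_zero]
          linarith [p n]) none hδ
  refine ⟨fun j => 1 * σ (some (some j)) + -1 * σ (some none), σ (some none), C * 1 + -1 * σ none,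
    d, M₀, by simp only [Option.elim] at σ1; linarith, m1, fun u' u1 u2 => ?_⟩
  obtain ⟨d1, d2⟩ := m2 u' u1 u2
  refine ⟨d1, fun j => LinAt.shift ((d2 (some (some j))).comb (d2 (some none)) 1 (-1) fun n a => ?_)
    d1, LinAt.shift (d2 (some none)) d1,
    LinAt.shift ((linAt_id u' d).comb (d2 none) C (-1) fun n a => ?_) d1⟩ <;>
  simp only [Option.elim] <;> ring

theorem slope_le {u c : ℕ → ℕ} {K : ℕ} {f : ℕ → ℕ → ℕ → ℝ} {J : ℕ → ℕ → ℝ} {sl : ℕ → ℝ} {ρ : ℝ}
    (hu : Big u) (h : ∀ k ≤ K, LinAt u c (f k) (sl k)) (h' : LinAt u c J ρ)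
    (e : ∀ n a a', a ≤ a' → ∑ k ∈ range (K + 1), |f k n a' - f k n a| ≤ J n a' - J n a) :
    ∑ k ∈ range (K + 1), |sl k| ≤ ρ := BlowA.le_of_ev hu fun t ht => by
  have p : 0 < t / (K + 2 : ℝ) := by positivity
  filter_upwards [h' 1 _ p, (eventually_all_finite (Set.finite_Iic K)).2 fun k hk => h k hk 1 _ p]
    with n a b
  have ab : |((c n + u n : ℕ) : ℝ) - c n| ≤ 1 * u n := by simp
  have a1 := (abs_le.1 (a _ ab)).2
  have a2 : ∑ k ∈ range (K + 1), |sl k| * u n ≤ ∑ k ∈ range (K + 1),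
      (|f k n (c n + u n) - f k n (c n)| + t / (K + 2 : ℝ) * u n) := sum_le_sum fun k hk => by
    have := b k (Nat.lt_succ_iff.1 (mem_range.1 hk)) _ ab
    rw [Nat.cast_add, add_sub_cancel_left] at this
    have z := abs_sub_abs_le_abs_sub (sl k * u n) (f k n (c n + u n) - f k n (c n))
    rw [abs_mul, Nat.abs_cast, abs_sub_comm (sl k * u n)] at z
    linarith
  have a3 : (K + 2 : ℝ) * (t / (K + 2 : ℝ) * u n) = t * u n := by field_simp
  rw [← sum_mul, sum_add_distrib, sum_const, card_range, nsmul_eq_mul] at a2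
  push_cast at a1 a2
  linarith [e n _ _ (Nat.le_add_right (c n) (u n))]

end Chn

open Chn in
theorem sPk : SPk := by
  intro N D y M L w W Dh Y η₀ ε η t v s C C₀ X I pd e0 hε hs hC hC₀ hI a3 a4 hw hL h2 ok
  obtain ⟨r, hr, β₁, τ, c, u, b1, b2, hu, uw, uX, xu, un, lV, ld⟩ :=
    st1 pd e0 hε hs hC hC₀ hI a3 a4 hw hL h2 ok
  obtain ⟨kf, A, o, H, p1, p2, p3⟩ := st2 pd e0 hC hw hu uw un b1 b2 lV ld ok
  obtain ⟨M₁, m1, m2⟩ := ht_slow H
  obtain ⟨X₀, p0⟩ : ∃ X₀, Pen.Ok t v X₀ := ok.exists.elim fun _ a => ⟨_, a.1⟩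
  have θ0 := p0.th_nonneg r
  have mj := fun n => (Y n).pw_mono (a := (Y n).jp) (ω := o n) fun j => (Y n).jp_nn j _
  obtain ⟨σ, Γ, β, d, M₀, β0, m3, m4⟩ := zoom (ι := Option (Option (Fin (dV N D + 1)))) (u := u)
    (c := c) (f := fun j n a => j.elim ((Y n).pw (Y n).jp (o n) a) fun j =>
      j.elim (Real.log ((Y n).S ((Y n).ix a) (o n)).J) fun k => sg k ((Y n).S ((Y n).ix a) (o n)).ν)
    (T := fun n => (Y n).pw ((Y n).tv η) (o n)) (A := A) (C := C) (g := η₀ / 100) (δ := η₀ / 200)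
    (φ := fun n a => (Y n).ψ η ((Y n).ix a) (o n) - 8 * th t v r * (Y n).pw (Y n).jp (o n) a)
    hu (by positivity) (fun n => (Y n).pw_mono fun j => (Y n).tv_nn η j _) (fun j n a a' e => by
      rcases j with _ | _ | k
      · exact (abs_of_nonneg (sub_nonneg.2 (mj n e))).trans_le ((Y n).pw_jp η _ e)
      · exact (Y n).dom (F := fun j => Real.log ((Y n).S j (o n)).J)
          (fun j => ((Y n).jp_tv η j _).2.2) e
      · exact ((single_le_sum (f := fun k => |sg k ((Y n).S ((Y n).ix a') (o n)).ν -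
          sg k ((Y n).S ((Y n).ix a) (o n)).ν|) (fun _ _ => abs_nonneg _)
          (mem_range.2 k.2)).trans ((Y n).sg_sum _ e)).trans ((Y n).pw_jp η _ e))
    (p1.mono fun _ a => a.2.2) (fun δ hδ => by
      filter_upwards [ok, ((uw.smul hC).add p2) δ hδ, un 1, hw.ev 1] with n k f g g' a a' e1 e2 e3
      have z := (Y n).psi_le η hC (k.2.2.1 ▸ by exact_mod_cast one_pos.trans_le g') (o n) e2
        (e3.trans (k.2.1 ▸ (g.2 _ (by simp)).1))
      have mR := (Y n).pw_mono (a := (Y n).Rr η C) (ω := o n) fun _ => le_max_left _ _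
      rw [k.2.2.1] at z
      linarith [mR e1, mR e3, mul_le_mul_of_nonneg_left (mj n e2) θ0]) (by
      filter_upwards [p1, xu A] with n k f
      have le := Nat.le_add_right (c n) (u n)
      have z := ((Y n).pw_jp η (o n) le).trans_lt (k.2.2.trans_lt f)
      have z1 := k.2.1
      have z3 := (Y n).up_sub (fun j => (Y n).jp j (o n)) le
      simp only [pw, z3] at z
      have z2 := path (t := t) (v := v) _ _ (fun j _ => (Y n).jp_nn j _) z
      rw [← z3] at z2
      simp only [pw, (Y n).up_sub _ le] at z1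
      simp only [pw]
      linarith)
  obtain ⟨u', u1, u2, u3⟩ := ex_mid hu (sm_max (sm_max m1 m3) (sm_max uw (sm_max uX p3)))
  have uw' : Sm u' fun n => w n :=
    u3.mono (Eventually.of_forall fun n => le_max_of_le_right (le_max_left _ _))
  obtain ⟨d1, d2, d3, d4⟩ := m4 u' u2
    (u3.mono (Eventually.of_forall fun n => le_max_of_le_left (le_max_right _ _)))
  have l1 : ∀ k ≤ dV N D, LinAt u' (fun n => c n + d n)
      (fun n a => sg k ((Y n).S ((Y n).ix a) (o n)).ν)
      (if h : k < dV N D + 1 then σ (some (some ⟨k, h⟩)) else 0) := fun k hk => by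
    rw [dif_pos (Nat.lt_succ_of_le hk)]
    exact d2 (some (some ⟨k, _⟩))
  have s1 := slope_le u1 l1 (d2 none) fun n a a' e => (Y n).sg_sum (o n) e
  have s2 := mul_nonneg θ0 ((sum_nonneg fun _ _ => abs_nonneg _).trans s1)
  have wd : ∀ R : ℝ, ∀ᶠ n in UF, ∀ a : ℕ, ((c n + d n : ℕ) : ℝ) ≤ a + R * u' n → c n ≤ a :=
    fun R => (d1 R).mono fun n e a f => by
      push_cast at f
      exact_mod_cast (by linarith [e.1] : (c n : ℝ) ≤ a)
  have wd' : ∀ R : ℝ, ∀ᶠ n in UF, ∀ a : ℕ, (a : ℝ) ≤ (c n + d n : ℕ) + R * u' n → a ≤ c n + u n :=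
    fun R => (d1 R).mono fun n e a f => by
      push_cast at f
      exact_mod_cast (by linarith [e.2] : (a : ℝ) ≤ c n + u n)
  obtain ⟨Z, z1, z2⟩ := fin (a := fun n => (Y n).ix (c n + u n)) (b := fun n => (Y n).ix (c n - u n))
    (kf := kf) (β := 1 * β + 8 * th t v r * σ none) pd.dsk.box hr.le p0.t0 u1 uw'
    (u3.mono (Eventually.of_forall fun n => le_max_of_le_right (le_max_of_le_right
      (le_max_left _ _)))) (u3.mono (Eventually.of_forall fun n => le_max_of_le_right
      (le_max_of_le_right (le_max_right _ _)))) (by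
      filter_upwards [ok, p1, hw.ev 1] with n k f g
      exact ⟨f.1, k.2.2.1, k.2.2.1 ▸ by exact_mod_cast one_pos.trans_le g, k.2.2.2⟩)
    (fun R => (d1 R).mono fun n e => by
      push_cast
      linarith [e.1, (Nat.cast_nonneg (c n) : (0 : ℝ) ≤ _)]) (fun R => by
      filter_upwards [wd R, wd' R, ok, un 1, uw 1 one_pos, hw.ev 1] with n e e' k f g g' a h
      have f1 := e a (by linarith [(abs_le.1 h).1])
      have f2 := e' a (by linarith [(abs_le.1 h).2])
      have f3 : c n + u n ≤ (Y n).M := k.2.1 ▸ (f.2 _ (by simp)).1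
      have f4 : u n ≤ c n := by exact_mod_cast (by linarith [f.1] : (u n : ℝ) ≤ c n)
      have f5 : w n ≤ u n := by exact_mod_cast (by linarith : (w n : ℝ) ≤ u n)
      have f6 : 0 < w n := by exact_mod_cast one_pos.trans_le g'
      refine ⟨f2.trans f3, (Y n).ix_anti f2, ((Y n).ix_anti f1).trans_lt ?_⟩
      have f7 : (c n - u n) / w n + 1 ≤ c n / w n := by
        rw [← Nat.add_div_right _ f6]
        exact Nat.div_le_div_right (by omega)
      have f8 : c n / w n ≤ (Y n).M / w n := Nat.div_le_div_right (by omega)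
      simp only [ix, T, k.2.2.1]
      omega) l1 (d2 (some none)) (d4.comb (d2 none) 1 _ fun n a => by
        simp only [Option.elim]; ring) d3 (fun i R a a' e => by
      have k : ∀ᶠ n in UF, c n ≤ a n ∧ a n ≤ a' n ∧ a' n ≤ c n + u n := by
        filter_upwards [e, wd R, wd' R] with n f g g' using ⟨g _ f.1, f.2.1, g' _ f.2.2⟩
      refine (((m2 u' (u3.mono (Eventually.of_forall fun n => le_max_of_le_left (le_max_left _ _)))
        i (fun n => a n - c n) (fun n => a' n - c n) (k.mono fun n f => by omega)).coarse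
        (k.mono fun n f ω _ ω' _ z => ?_)).congr (k.mono fun n f ω _ => ?_)).mono
        (Le.of_ev (k.mono fun n f => ?_))
      · simp only [fl1_pow, Nat.add_sub_cancel' f.1, Prod.mk.injEq] at z
        exact Prod.ext z.2 z.1
      · rw [← mul_assoc, ← pow_add, Nat.sub_add_cancel (f.1.trans f.2.1)]
      · rw [Nat.cast_sub f.1, Nat.cast_sub (f.1.trans f.2.1), sub_sub_sub_cancel_right])
    (by linarith [mul_le_mul_of_nonneg_left s1 θ0])
  exact ⟨_, _, _, _, kf, _, Z, θ0, (p0.th_anti (Nat.zero_le r)).trans_eq th_zero, by linarith,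
    z1, z2⟩

end Pool.Agent.MP_5168f5_an.QA
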