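import Pool.Agent.MP_5168f5_an.QA.ToT1
import Pool.Agent.MP_5168f5_an.QA.ChainB
import Pool.Agent.MP_5168f5_an.QA.SelP

/-! A counterexample gives a tangent system. -/

namespace Pool.Agent.MP_5168f5_an.QA

theorem toT1 : ToT1 := ofT1 sChn sPk

end Pool.Agent.MP_5168f5_an.QA
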