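import Pool.Agent.MP_5168f5_an.QA.Main0
import Pool.Agent.MP_5168f5_an.QA.TiN
import Pool.Agent.MP_5168f5_an.QA.NJ
import Pool.Agent.MP_5168f5_an.QA.ToT1All

/-! The maximal estimate in all dimensions: the global part is closed. -/

namespace Pool.Agent.MP_5168f5_an.QA

theorem blkF : BlkF := blkF_of ofTiC ofZL

theorem muK_end (en : END) (N : ℕ) : MX.MuK N :=
  muK_of sE1 sE2 sCnt sCntF blkF sOpG ofFill ofTig ofExt ofNJ toT1 toTig en N

end Pool.Agent.MP_5168f5_an.QA
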