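import Pool.Agent.MP_5168f5_an.MX.TL
import Pool.Agent.MP_5168f5_an.MX.FroK
import Pool.Agent.MP_5168f5_an.R4.Api

/-! Laws whose iterated differences are flat: definitions. -/

namespace Pool.Agent.MP_5168f5_an.QA

open H19 H17S H17F MX Filter

/-- Finitely supported functions on the integers, with convolution. -/
abbrev AZ : Type := AddMonoidAlgebra ℝ ℤ

/-- Reflection. -/
noncomputable def rv : AZ →+* AZ := AddMonoidAlgebra.mapDomainRingHom ℝ (negAddMonoidHom (α := ℤ))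

/-- The law of the difference of two independent copies. -/
noncomputable def db (f : AZ) : AZ := f * rv f

/-- The alternating sum of `2 ^ k` independent copies takes each value with mass at most `B`. -/
def En (k : ℕ) (f : AZ) (B : ℝ) : Prop := ∀ y, (db^[k] f).coeff y ≤ B

open Classical in
/-- The law of `s` restricted to the event `G`. -/
noncomputable def sl {Ω : Type} (Q : FP Ω) (s : Ω → ℤ) (G : Ω → Prop) : AZ :=
  ∑ ω ∈ Q.S, AddMonoidAlgebra.single (s ω) (if G ω then Q.p ω else 0)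

/-- Off an event of probability `ε`, all conditional laws of the integer part of `X` given `K`
have flat iterated differences. -/
def Ht {Ω T : Type} (k : ℕ) (P : FP Ω) (X : Ω → ℝ) (K : Ω → T) (ε B : ℝ) : Prop :=
  ∃ G : Ω → Prop, pb P (fun ω => ¬G ω) ≤ ε ∧
    ∀ ω ∈ P.S, En k (sl (cv P K (K ω)) (fun v => ⌊X v⌋) G) B

section Seq

variable {Ω T : ℕ → Type}

/-- One resolution: the bound is `exp (-s + o(R))`. -/
def HT1 (k : ℕ) (P : ∀ n, FP (Ω n)) (X : ∀ n, Ω n → ℝ) (K : ∀ n, Ω n → T n) (R : ℕ → ℕ)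
    (s : ℕ → ℝ) : Prop :=
  ∀ ε : ℝ, 0 < ε → ∀ᶠ n in UF, Ht k (P n) (X n) (K n) ε (Real.exp (-s n + ε * R n))

/-- All dyadic windows in `[0, R]`, with deficiency `θ`. -/
def HTw (k : ℕ) (θ : ℝ) (P : ∀ n, FP (Ω n)) (X : ∀ n, Ω n → ℝ) (K : ∀ n, Ω n → T n)
    (R : ℕ → ℕ) : Prop := ∀ a b : ℕ → ℕ, (∀ n, a n ≤ b n ∧ b n ≤ R n) →
  HT1 k P (fun n ω => 2 ^ b n * X n ω) (fun n ω => (fl1 (a n) (X n ω), K n ω)) R
    fun n => (1 - θ) * (b n - a n) * lg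

/-- All deficiencies, with the modulus `kf`. -/
def HT (kf : ℕ → ℕ) (P : ∀ n, FP (Ω n)) (X : ∀ n, Ω n → ℝ) (K : ∀ n, Ω n → T n) (R : ℕ → ℕ) :
    Prop := ∀ i : ℕ, HTw (kf i) (1 / (i + 1 : ℝ)) P X K R

end Seq

/-! ### Sums of independent variables -/

/-- The mean of `h` at the sum of independent variables. -/
noncomputable def EL {Ω : Type} : List (FP Ω × (Ω → ℝ)) → (ℝ → ℝ) → ℝ
  | [], h => h 0
  | e :: l, h => e.1.E fun ω => EL l fun u => h (e.2 ω + u)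

/-- The mean of the sum. -/
noncomputable def mn {Ω : Type} (l : List (FP Ω × (Ω → ℝ))) : ℝ := (l.map fun e => e.1.E e.2).sum

/-- Anticoncentration of sums. -/
def SLo : Prop := ∀ {Ω : Type} (l : List (FP Ω × (Ω → ℝ))) (L y : ℝ), 0 ≤ L →
  (∀ e ∈ l, ∀ x : ℝ, pb e.1 (fun ω => |e.2 ω - x| ≤ L) ≤ 1 / 2) →
  EL l (fun u => if |u - y| ≤ L / 2 then 1 else 0) ≤ 1 / √(l.length / 3 + 1)

/-- Exponential moments of sums. -/
def SMg : Prop := ∀ {Ω : Type} (l : List (FP Ω × (Ω → ℝ))) (w t : ℝ),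
  (∀ e ∈ l, ∀ ω ∈ e.1.S, |e.2 ω - e.1.E e.2| ≤ w) →
  EL l (fun u => Real.exp (t * |u - mn l|)) ≤ 2 * Real.exp (l.length * t ^ 2 * w ^ 2 / 2)

/-- One block: `4 ^ κ` summands of size `w`; the resolution improves by `2 ^ (t ^ 2)`. -/
def SSt : Prop := ∀ {Ω : Type} (l : List (FP Ω × (Ω → ℝ))) (w y : ℝ) (κ t m : ℕ), 0 < w → 1 ≤ t →
  κ + m + 3 + 2 * t = t ^ 2 → l.length = 4 ^ κ →
  (∀ e ∈ l, ∀ ω ∈ e.1.S, |e.2 ω - e.1.E e.2| ≤ w) →
  EL l (fun u => Real.exp (-(|u - y| * 2 ^ t ^ 2 / (2 ^ κ * w)))) ≤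
      4 * Real.exp (-(|mn l - y| / (2 ^ κ * w))) ∧
    ((∀ e ∈ l, ∀ x : ℝ, pb e.1 (fun ω => |e.2 ω - x| ≤ w / 2 ^ (m + 1)) ≤ 1 / 2) →
      EL l (fun u => Real.exp (-(|u - y| * 2 ^ t ^ 2 / (2 ^ κ * w)))) ≤
        2 ^ (m + 6 * t + 10) / 2 ^ t ^ 2 * Real.exp (-(|mn l - y| / (2 ^ κ * w))))

/-- The node of level `c` gives mass at most `1 / 8` to every node of level `c + m`. -/
def Br {Ω : Type} (Q : FP Ω) (z : Ω → ℝ) (c m : ℕ) : Prop :=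
  ∀ v ∈ Q.S, cm Q (fun ω => fl1 c (z ω)) (fun ω => fl1 (c + m) (z ω)) v ≤ 1 / 8

open Classical in
/-- All blocks. -/
def SBl : Prop := ∀ {Ω : Type} (z : Ω → ℝ) (Bd : ℕ → Prop) (κ t m r c : ℕ)
  (l : List (FP Ω × (Ω → ℝ))) (y : ℝ), 1 ≤ t → κ + m + 3 + 2 * t = t ^ 2 → l.length = 4 ^ κ →
  (∀ e ∈ l, (e.2 = z ∨ e.2 = -z) ∧ ∀ i < r, ¬Bd (c + i * t ^ 2) → Br e.1 z (c + i * t ^ 2) m) →
  EL l (fun u => Real.exp (-(|u - y| * 2 ^ (c + r * t ^ 2) / 2 ^ κ))) ≤ Real.exp (2 ^ κ) *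
    ∏ i ∈ Finset.range r, if Bd (c + i * t ^ 2) then (4 : ℝ) else 2 ^ (m + 6 * t + 10) / 2 ^ t ^ 2

/-- The entrance: a law that branches at all levels outside `Bd`. -/
def SEnt : Prop := ∀ (m : ℕ) (θ : ℝ), 0 < θ → ∃ (k : ℕ) (C : ℝ), ∀ {Ω : Type} (Q : FP Ω)
  (z : Ω → ℝ) (Bd : Finset ℕ) (a b : ℕ), a ≤ b →
  (∀ c, a ≤ c → c + m ≤ b → c ∉ Bd → Br Q z c m) →
  En k (sl Q (fun ω => fl1 b (z ω)) fun _ => True)
    (Real.exp (-((1 - θ) * (b - a) * lg) + 2 * Bd.card + C))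

def OfSt : Prop := SLo → SMg → SSt
def OfBl : Prop := SSt → SBl
def OfEnt : Prop := SBl → SEnt

end Pool.Agent.MP_5168f5_an.QA
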