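import Pool.Agent.MP_5168f5_an.QA.HApi
import Pool.Agent.MP_5168f5_an.AN.NCH1

/-! Flat iterated differences make sums of almost independent copies full. -/

namespace Pool.Agent.MP_5168f5_an.QA

open H19 H17S H17F MX R4 Filter AddMonoidAlgebra
open H39F (pv)

namespace HtSa

variable {Ω W T Z α β : Type} {P : FP Ω} {Q : FP W} {k q : ℕ} {ε B M : ℝ}

theorem gib (P : FP Ω) (F : Ω → α) (G : Ω → β) (φ : β → α → ℝ) (h0 : ∀ ω ∈ P.S, 0 < φ (G ω) (F ω))
    (h1 : ∀ ω ∈ P.S, ∀ A : Finset α, (∀ y ∈ A, ∃ v ∈ P.S, G v = G ω ∧ F v = y) →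
      ∑ y ∈ A, φ (G ω) y ≤ 1) : ch P F G ≤ P.E fun ω => -Real.log (φ (G ω) (F ω)) := by
  classical
  have e : P.E (fun ω => φ (G ω) (F ω) / pv (cv P G (G ω)) F (F ω)) ≤ 1 := by
    rw [KEA.exp P G fun s ω => φ s (F ω) / pv (cv P G s) F (F ω)]
    refine (P.E_mono fun a ha => le_trans (le_of_eq ?_) (h1 a ha ((cv P G (G a)).S.image F)
      fun y hy => by simpa only [Finset.mem_image, mem_cv ha, and_assoc] using hy)).trans
      (P.E_const 1).le
    rw [FP.E_congr _ (G := fun ω => ∑ y ∈ (cv P G (G a)).S.image F,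
      φ (G a) y / pv (cv P G (G a)) F y * if F ω = y then 1 else 0) fun ω hω => by
        simp [Finset.mem_image_of_mem F hω], FP.E_sum]
    refine Finset.sum_congr rfl fun y hy => ?_
    obtain ⟨v, hv, rfl⟩ := Finset.mem_image.1 hy
    rw [FP.E_mul]
    exact div_mul_cancel₀ _ (H39F.pv_pos _ F hv).ne'
  have g := P.E_mono (F := fun ω => -Real.log (cm P G F ω) - -Real.log (φ (G ω) (F ω)))
    (G := fun ω => φ (G ω) (F ω) / pv (cv P G (G ω)) F (F ω) - 1) fun ω hω => by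
      have := Real.log_le_sub_one_of_pos (div_pos (h0 ω hω) (cm_pos G F hω))
      rw [Real.log_div (h0 ω hω).ne' (cm_pos G F hω).ne'] at this
      exact le_of_eq_of_le (by ring) this
  rw [FP.E_sub, FP.E_sub, FP.E_const, ← ch_eq_cm] at g
  linarith

theorem tup (g : Fin q → AZ) (hg : ∀ j, Nn (g j)) (A : Finset (Fin q → ℤ)) {y : ℤ}
    (h : ∀ s ∈ A, ∑ j, s j = y) : ∑ s ∈ A, ∏ j, (g j).coeff (s j) ≤ (∏ j, g j).coeff y := by
  have e : ∏ j, g j = ∑ s ∈ Fintype.piFinset fun j => (g j).coeff.support,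
      single (∑ j, s j) (∏ j, (g j).coeff (s j)) := by
    rw [Finset.prod_congr rfl fun j _ => (sum_coeff_single (g j)).symm]
    simp only [Finsupp.sum, Finset.prod_univ_sum, prod_single]
  rw [e, ← Finset.sum_filter_ne_zero]
  simp only [coeff_sum, Finsupp.coe_finsetSum, Finset.sum_apply, coeff_single, Finsupp.single_apply]
  rw [← Finset.sum_filter]
  refine Finset.sum_le_sum_of_subset_of_nonneg (fun s hs => ?_)
    fun s _ _ => Finset.prod_nonneg fun j _ => hg j _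
  rw [Finset.mem_filter] at hs ⊢
  exact ⟨Fintype.mem_piFinset.2 fun j => Finsupp.mem_support_iff.2
    (Finset.prod_ne_zero_iff.1 hs.2 j (Finset.mem_univ j)), h s hs.1⟩

theorem mix {s : Ω → ℤ} {G : Ω → Prop} (hB : 0 ≤ B) (l : List AZ) (hl : 2 ^ k ≤ l.length)
    (h : ∀ g ∈ l, En k g B ∧ ∃ Q : FP Ω, g = sl Q s G) (y : ℤ) : l.prod.coeff y ≤ B := by
  rcases hl.eq_or_lt with e | e
  · exact mixed k l e.symm (fun g hg => (h g hg).1) y
  · obtain _ | ⟨g, l⟩ := l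
    · simp at e
    · obtain ⟨Q, rfl⟩ := (h g List.mem_cons_self).2
      rw [List.prod_cons, sl_mul_coeff]
      refine (Q.E_mono fun ω _ => ?_).trans (Q.E_const B).le
      split_ifs
      exacts [mix hB l (Nat.le_of_lt_succ e) (fun g hg => h g (List.mem_cons_of_mem _ hg)) _, hB]

theorem tup' {s : Ω → ℤ} {G : Ω → Prop} (hq : 2 ^ k ≤ q) (hB : 0 ≤ B) (Q : Fin q → FP Ω)
    (h : ∀ j, En k (sl (Q j) s G) B) (A : Finset (Fin q → ℤ)) {y : ℤ}
    (hA : ∀ s ∈ A, ∑ j, s j = y) : ∑ u ∈ A, ∏ j, pb (Q j) (fun ω => G ω ∧ s ω = u j) ≤ B := by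
  have := tup (fun j => sl (Q j) s G) (fun j => nn_sl _ _ _) A hA
  simp only [sl_coeff] at this
  rw [← List.prod_ofFn] at this
  refine this.trans (mix (k := k) (s := s) (G := G) hB _ (by simpa using hq) (fun g hg => ?_) y)
  obtain ⟨j, rfl⟩ := List.mem_ofFn.1 hg
  exact ⟨h j, _, rfl⟩

theorem one {X : Ω → ℝ} {K : Ω → T} {ρ : W → Fin q → Ω} {z : W → Z} {b : ℝ}
    (h : Ht k P X K ε (Real.exp b)) (hq : 2 ^ k ≤ q) (hM : 0 ≤ M) (hb : 0 ≤ b + M)
    (l : ∀ j, Law Q (fun v => ρ v j) P id) (hz : Fn Q (fun v j => K (ρ v j)) z) :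
    ch Q (fun v j => ⌊X (ρ v j)⌋) z ≤ ch Q (fun v => ∑ j, ⌊X (ρ v j)⌋) z + (q + 1) * lg +
      q * ch P (fun ω => ⌊X ω⌋) K + b + q * (M * (2 * ε)) := by
  classical
  obtain ⟨G, a, e⟩ := h
  obtain ⟨G', c, d⟩ := half P (fun v => ⌊X v⌋) K G
  have h1 := gib Q (fun v j => ⌊X (ρ v j)⌋)
    (fun v => (∑ j, ⌊X (ρ v j)⌋, ∀ j, G' (ρ v j), fun j => K (ρ v j)))
    (fun u s => (∏ j, pb (cv P K (u.2.2 j)) fun ω => ⌊X ω⌋ = s j) /
      if u.2.1 then 2 ^ q * Real.exp b else 1)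
    (fun v hv => div_pos (Finset.prod_pos fun j _ => cm_pos K (fun ω => ⌊X ω⌋) ((l j).mem hv))
      (by split_ifs <;> positivity)) fun v hv A hA => by
      have m : ∀ s ∈ A, ∑ j, s j = ∑ j, ⌊X (ρ v j)⌋ ∧ ((∀ j, G' (ρ v j)) → ∀ j,
          pb (cv P K (K (ρ v j))) (fun ω => ⌊X ω⌋ = s j) ≤
            2 * pb (cv P K (K (ρ v j))) fun ω => G ω ∧ ⌊X ω⌋ = s j) := fun s hs => by
        obtain ⟨u, u1, u2, rfl⟩ := hA s hs
        simp only [Prod.mk.injEq] at u2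
        refine ⟨u2.1, fun g j => ?_⟩
        rw [← congrFun u2.2.2 j]
        exact d _ ((l j).mem u1) (u2.2.1.mpr g j)
      rw [← Finset.sum_div, div_le_one (by split_ifs <;> positivity)]
      split_ifs with g
      · refine (Finset.sum_le_sum fun s hs => Finset.prod_le_prod (fun j _ => pb_nonneg _ _)
          fun j _ => (m s hs).2 g j).trans ?_
        simp only [Finset.prod_mul_distrib, Finset.prod_const, Finset.card_univ, Fintype.card_fin,
          ← Finset.mul_sum]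
        exact mul_le_mul_of_nonneg_left (tup' hq (Real.exp_pos b).le _
          (fun j => e _ ((l j).mem hv)) _ fun s hs => (m s hs).1) (by positivity)
      · simpa using tup' (s := fun ω => ⌊X ω⌋) (G := fun _ => True) hq zero_le_one
          (fun j => cv P K (K (ρ v j))) (fun j => en_one _ _ _ _) _ fun s hs => (m s hs).1
  have h2 := Q.E_mono (F := fun v => -Real.log ((∏ j, cm P K (fun ω => ⌊X ω⌋) (ρ v j)) /
      if ∀ j, G' (ρ v j) then 2 ^ q * Real.exp b else 1))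
    (G := fun v => ∑ j, (-Real.log (cm P K (fun ω => ⌊X ω⌋) (ρ v j)) +
      M * if ¬G' (ρ v j) then 1 else 0) + (q * lg + b)) fun v hv => by
      have p := fun j => cm_pos K (fun ω => ⌊X ω⌋) ((l j).mem hv)
      have n : ∀ j ∈ Finset.univ, 0 ≤ M * if ¬G' (ρ v j) then 1 else 0 := fun j _ => by
        split_ifs <;> simp [hM]
      rw [Real.log_div (Finset.prod_pos fun j _ => p j).ne' (by split_ifs <;> positivity),
        Real.log_prod fun j _ => (p j).ne', Finset.sum_add_distrib, Finset.sum_neg_distrib]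
      split_ifs with g
      · rw [two_pow_eq, ← Real.exp_add, Real.log_exp]
        linarith [Finset.sum_nonneg n]
      · obtain ⟨j, hj⟩ := not_forall.1 g
        have := Finset.single_le_sum n (Finset.mem_univ j)
        rw [if_pos hj] at this
        rw [Real.log_one]
        nlinarith [lg_pos, Nat.cast_nonneg (α := ℝ) q]
  have h3 : ∀ j, Q.E (fun v => -Real.log (cm P K (fun ω => ⌊X ω⌋) (ρ v j)) +
      M * if ¬G' (ρ v j) then 1 else 0) ≤ ch P (fun ω => ⌊X ω⌋) K + M * (2 * ε) := fun j => by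
    refine (l j fun ω => -Real.log (cm P K (fun ω => ⌊X ω⌋) ω) +
      M * if ¬G' ω then 1 else 0).trans_le ?_
    rw [FP.E_add, FP.E_mul, ch_eq_cm]
    exact add_le_add le_rfl (mul_le_mul_of_nonneg_left (le_trans (le_of_eq (P.E_congr fun _ _ => by
      congr)) (c.trans (by linarith))) hM)
  rw [FP.E_add, FP.E_const, FP.E_sum] at h2
  replace h2 := h1.trans (le_of_eq_of_le (Q.E_congr fun _ _ => by congr) h2)
  have h4 := Finset.sum_le_sum fun j (_ : j ∈ Finset.univ) => h3 j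
  rw [Finset.sum_const, Finset.card_univ, Fintype.card_fin, nsmul_eq_mul] at h4
  have h5 := ch_mono (P := Q) (F := fun v j => ⌊X (ρ v j)⌋) (F' := fun v =>
    ((∑ j, ⌊X (ρ v j)⌋, ∀ j, G' (ρ v j)), fun j => ⌊X (ρ v j)⌋)) (G := z)
    fun _ _ _ _ e => congrArg (fun u => u.1.2) e
  have h6 := ch_chain (P := Q) (fun v => (∑ j, ⌊X (ρ v j)⌋, ∀ j, G' (ρ v j)))
    (fun v j => ⌊X (ρ v j)⌋) z
  have h7 := ch_chain (P := Q) (fun v => ∑ j, ⌊X (ρ v j)⌋) (fun v => ∀ j, G' (ρ v j)) z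
  have h8 := MX.ch_prop Q (fun v => ∀ j, G' (ρ v j)) fun v => (∑ j, ⌊X (ρ v j)⌋, z v)
  have h9 := ch_anti (P := Q) (F := fun v j => ⌊X (ρ v j)⌋)
    (G := fun v => (∑ j, ⌊X (ρ v j)⌋, ∀ j, G' (ρ v j), fun j => K (ρ v j)))
    (G' := fun v => ((∑ j, ⌊X (ρ v j)⌋, ∀ j, G' (ρ v j)), z v)) fun u hu v hv e => by
      simp only [Prod.mk.injEq] at e ⊢
      exact ⟨e.1.1, e.1.2, hz u hu v hv e.2⟩
  linarith

theorem two {a : Ω → ℝ} {K : Ω → T} {ρ : W → Fin q → Ω} {z : W → Z} {c : W → ℝ} (R : ℕ)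
    (l : ∀ j, Law Q (fun v => ρ v j) P id) (hz : Fn Q (fun v => (c v, fun j => K (ρ v j))) z) :
    ch Q (fun v j => a (ρ v j)) z + q * ch P (fun ω => ⌊2 ^ R * a ω⌋) K ≤
      ch Q (fun v j => ⌊2 ^ R * a (ρ v j)⌋) z + q * ch P a K ∧
    ch Q (fun v => ∑ j, ⌊2 ^ R * a (ρ v j)⌋) z ≤
      ch Q (fun v => fl1 R (∑ j, a (ρ v j) + c v)) z + Real.log (2 * (q + 1) + 3) := by
  constructor
  · have h1 := ch_mono (P := Q) (F := fun v j => a (ρ v j))
      (F' := fun v => (fun j => ⌊2 ^ R * a (ρ v j)⌋, fun j => a (ρ v j))) (G := z)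
      fun _ _ _ _ e => congrArg (fun u => u.1.2) e
    have h2 := ch_chain (P := Q) (fun v j => ⌊2 ^ R * a (ρ v j)⌋) (fun v j => a (ρ v j)) z
    have h3 := (AN.TB.NCHa.ch_pi (P := Q) (fun j v => a (ρ v j))
      fun v => (fun j => ⌊2 ^ R * a (ρ v j)⌋, z v)).trans (Finset.sum_le_sum fun j _ =>
        (ch_anti fun u hu v hv e => Prod.ext (congrFun (congrArg Prod.fst e) j) (congrFun
          (congrArg Prod.snd (hz u hu v hv (congrArg Prod.snd e))) j)).trans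
        ((l j).ch_id a fun ω => (⌊2 ^ R * a ω⌋, K ω)).le)
    rw [Finset.sum_const, Finset.card_univ, Fintype.card_fin, nsmul_eq_mul] at h3
    have h4 := ch_mono (P := P) (F := fun ω => (⌊2 ^ R * a ω⌋, a ω)) (F' := a) (G := K)
      fun _ _ _ _ e => congrArg (fun u => (⌊2 ^ R * u.1⌋, u.1)) e
    rw [ch_chain] at h4
    linarith [mul_le_mul_of_nonneg_left h4 (Nat.cast_nonneg q)]
  · have h1 := ch_mono (P := Q) (F := fun v => ∑ j, ⌊2 ^ R * a (ρ v j)⌋) (F' := fun v =>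
      (fl1 R (∑ j, a (ρ v j) + c v), fl1 0 (∑ j, (⌊2 ^ R * a (ρ v j)⌋ : ℝ)))) (G := z)
      fun _ _ _ _ e => by simpa [fl1, ← Int.cast_sum] using congrArg (fun u => u.1.2) e
    rw [ch_chain] at h1
    refine h1.trans (add_le_add le_rfl (ch_near1 (by positivity) fun u hu v hv e => ?_))
    have e1 := Int.abs_sub_lt_one_of_floor_eq_floor (congrArg Prod.fst e)
    have e2 : c u = c v := congrArg Prod.fst (hz u hu v hv (congrArg Prod.snd e))
    have e3 : ∀ v, ∑ j, (⌊2 ^ R * a (ρ v j)⌋ : ℝ) ≤ 2 ^ R * ∑ j, a (ρ v j) ∧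
        2 ^ R * ∑ j, a (ρ v j) ≤ ∑ j, (⌊2 ^ R * a (ρ v j)⌋ : ℝ) + q := fun v => by
      rw [Finset.mul_sum]
      exact ⟨Finset.sum_le_sum fun j _ => Int.floor_le _, (Finset.sum_le_sum fun j _ =>
        (Int.lt_floor_add_one _).le).trans_eq (by simp [Finset.sum_add_distrib])⟩
    rw [e2, abs_lt] at e1
    rw [pow_zero, div_one, abs_le]
    constructor <;> linarith [e3 u, e3 v]

end HtSa

open HtSa in
/-- The bridge to the noise step. -/
theorem hts {Ω A : ℕ → Type} {P : ∀ n, FP (Ω n)} {a : ∀ n, Ω n → ℝ} {O : ∀ n, Ω n → A n}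
    {R : ℕ → ℕ} (hR : Big R) (h : ∀ θ : ℝ, 0 < θ →
      ∃ k, HT1 k P (fun n ω => 2 ^ R n * a n ω) O R fun n => (1 - θ) * R n * lg) :
    AN.TB.HTS P a O R := fun η hη => by
  obtain ⟨k, h⟩ := h η hη
  refine (eventually_ge_atTop (2 ^ k)).mono fun q hq W Z Q ρ z c e i ε hε => ?_
  have q0 : (0 : ℝ) ≤ q := Nat.cast_nonneg q
  filter_upwards [h (ε / 3 / (2 * q + 1)) (by positivity), e, i (ε / 3) (by positivity),
    hR.sm ((q + 1) * lg + Real.log (2 * (q + 1) + 3)) (ε / 3) (by positivity)] with n u1 u2 u3 u4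
  have r0 : (0 : ℝ) ≤ R n := Nat.cast_nonneg _
  have l0 := lg_pos
  have h1 := one (M := R n) u1 hq r0 (by
    have : 0 ≤ ε / 3 / (2 * q + 1) * R n := by positivity
    nlinarith [mul_nonneg r0 (sub_nonneg.2 lg_lt_one.le), mul_nonneg (mul_nonneg hη.le r0) l0.le])
    u2.1 fun u hu v hv e => congrArg Prod.snd (u2.2 u hu v hv e)
  obtain ⟨h2, h3⟩ := two (a := a n) (R n) u2.1 u2.2
  have h4 : ε / 3 / (2 * q + 1) * R n + q * (R n * (2 * (ε / 3 / (2 * q + 1)))) = ε / 3 * R n := by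
    field_simp
    ring
  linarith

end Pool.Agent.MP_5168f5_an.QA
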