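import Pool.Agent.MP_5168f5_an.QA.AbS
import Pool.Agent.MP_5168f5_an.QA.En5A
import Pool.Agent.MP_5168f5_an.QA.FrAlg

/-! The base class of the local part: the curve of the own frame, algebra. -/

namespace Pool.Agent.MP_5168f5_an.QA.AB

open H19 H17S H17F R4 AN Filter Finset Polynomial En5
open Fr (act)

theorem log_key {W : Type} [AddCommGroup W] [Module ℝ W] (U : Submodule ℝ W)
    {a b : Module.End ℝ W} (h : Commute a b) (ha : ∀ v ∈ U, a v ∈ U) (hb : ∀ v ∈ U, b v ∈ U)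
    {w : W} {K : ℕ} (ka : (a ^ K) w ∈ U) (kb : (b ^ K) w ∈ U)
    (e : ∑ j ∈ range (K + 1 + 1), (j.factorial : ℝ)⁻¹ • (a ^ j - b ^ j) w ∈ U) :
    (a - b) w ∈ U := by
  have pw : ∀ c : Module.End ℝ W, (∀ v ∈ U, c v ∈ U) → ∀ (r : ℕ), ∀ v ∈ U, (c ^ r) v ∈ U :=
    fun c k r => by
      induction r with
      | zero => exact fun v u => u
      | succ r ih => exact fun v u => by rw [pow_succ]; exact ih _ (k v u)
  have hc : ∀ v ∈ U, (a - b) v ∈ U := fun v u => U.sub_mem (ha v u) (hb v u)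
  have P : ∀ t r s, 2 * K ≤ r + s + t → (a ^ r * b ^ s * (a - b)) w ∈ U := by
    intro t
    induction t with
    | zero =>
      intro r s u
      rcases le_total K r with v | v
      · obtain ⟨r, rfl⟩ := Nat.exists_eq_add_of_le v
        have c : Commute (a ^ K) (a ^ r * b ^ s * (a - b)) :=
          ((((Commute.refl a).pow_right r).mul_right (h.pow_right s)).mul_right
            ((Commute.refl a).sub_right h)).pow_left K
        rw [pow_add, mul_assoc (a ^ K), mul_assoc (a ^ K), c.eq]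
        exact pw a ha r _ (pw b hb s _ (hc _ ka))
      · obtain ⟨s, rfl⟩ := Nat.exists_eq_add_of_le' (show K ≤ s by omega)
        have c : Commute (b ^ K) (a - b) := (h.symm.sub_right (Commute.refl b)).pow_left K
        rw [pow_add, mul_assoc, mul_assoc, c.eq]
        exact pw a ha r _ (pw b hb s _ (hc _ kb))
    | succ t ih =>
      intro r s u
      have e1 := pw a ha r _ (pw b hb s _ e)
      rw [sum_range_succ', sum_range_succ'] at e1
      simp only [map_add, map_sum, map_smul, zero_add, pow_one, pow_zero, sub_self,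
        LinearMap.zero_apply, smul_zero, add_zero, Nat.factorial_one, Nat.cast_one,
        inv_one, one_smul] at e1
      refine (U.add_mem_iff_right (U.sum_mem fun j _ => U.smul_mem _ ?_)).1 e1
      rw [← h.geom_sum₂_mul, sum_mul, LinearMap.sum_apply, map_sum, map_sum]
      refine U.sum_mem fun i hi => ?_
      have := ih (r + i) (s + (j + 1 + 1 - 1 - i)) (by have := mem_range.1 hi; omega)
      rw [pow_add, pow_add, mul_assoc (a ^ r), ← mul_assoc (a ^ i), (h.pow_pow i s).eq] at this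
      simpa only [Module.End.mul_apply] using this
  simpa using P (2 * K) 0 0 (by omega)

/-- The derivatives at zero. -/
noncomputable def jt (P : ℝ[X]) (i : ℕ) : ℝ := i.factorial * P.coeff i

theorem jt_tay {P : ℝ[X]} {K : ℕ} (h : P.natDegree < K) (σ : ℝ) (i : ℕ) :
    jt (taylor σ P) i = ∑ j ∈ range K, (j.factorial : ℝ)⁻¹ * (σ ^ j * jt P (i + j)) := by
  rw [jt, taylor_coeff, eval_eq_sum_range'
    (((natDegree_hasseDeriv_le P i).trans (Nat.sub_le _ _)).trans_lt h), mul_sum]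
  refine sum_congr rfl fun j _ => ?_
  have : (j.factorial : ℝ) ≠ 0 := by positivity
  rw [hasseDeriv_coeff, jt, add_comm i j, ← Nat.add_choose_mul_factorial_mul_factorial j i]
  push_cast
  field_simp

theorem jt_le (D : ℕ) : ∃ C : ℝ, 1 ≤ C ∧ ∀ (P : ℝ[X]) (t τ θ : ℝ), P.natDegree ≤ D → 0 < τ →
    t ≤ 0 → 0 ≤ t + τ → (∀ s, t ≤ s → s ≤ t + τ → |P.eval s| ≤ θ) →
    ∀ i, τ ^ i * |jt P i| ≤ C * θ := by
  obtain ⟨C, c1, hC⟩ := mark D
  have ev : ∀ (P : ℝ[X]) (s : ℝ), MvPolynomial.eval ((0 : V 1) + s • (1 : V 1))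
      (aeval (MvPolynomial.X 0 : MvPolynomial (Fin 1) ℝ) P) = P.eval s := fun P s => by
    rw [← MvPolynomial.coe_aeval_eq_eval, AlgHom.coe_toRingHom, ← aeval_algHom_apply]
    simp
  have one : ∀ (P : ℝ[X]) (t τ θ : ℝ), P.natDegree ≤ D → 0 < τ →
      (∀ s, t ≤ s → s ≤ t + τ → |P.eval s| ≤ θ) →
      ∀ s, t ≤ s → s ≤ t + τ → |(derivative P).eval s| ≤ C * θ / τ := fun P t τ θ d τ0 h s a b => by
    have := (hC (aeval (MvPolynomial.X 0 : MvPolynomial (Fin 1) ℝ) P) 0 1 t τ θ (by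
      rw [aeval_eq_sum_range]
      refine MvPolynomial.totalDegree_finsetSum_le fun i hi =>
        (MvPolynomial.totalDegree_smul_le _ _).trans ?_
      rw [MvPolynomial.totalDegree_X_pow]
      have := mem_range.1 hi
      omega) τ0 (fun s a b => by rw [ev]; exact h s a b) s a b).1
    rw [Fin.sum_univ_one, Derivation.map_aeval, MvPolynomial.pderiv_X_self, smul_eq_mul, mul_one,
      ev, Pi.one_apply, one_mul] at this
    rwa [le_div_iff₀' τ0]
  refine ⟨C ^ D, one_le_pow₀ c1, fun P t τ θ d τ0 a b h i => ?_⟩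
  have θ0 := (abs_nonneg _).trans (h 0 a b)
  have it : ∀ i, ∀ s, t ≤ s → s ≤ t + τ → |(derivative^[i] P).eval s| ≤ C ^ i * θ / τ ^ i := by
    intro i
    induction i with
    | zero => simpa using h
    | succ i ih =>
      intro s u v
      rw [Function.iterate_succ_apply']
      refine (one _ t τ _ (((natDegree_iterate_derivative P i).trans (Nat.sub_le _ _)).trans d)
        τ0 ih s u v).trans_eq ?_
      field_simp
      ring
  rcases le_or_gt i D with u | u
  · have := it i 0 a b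
    rw [← coeff_zero_eq_eval_zero, coeff_iterate_derivative, zero_add, Nat.descFactorial_self,
      nsmul_eq_mul, le_div_iff₀' (by positivity)] at this
    exact this.trans (mul_le_mul_of_nonneg_right (pow_le_pow_right₀ c1 u) θ0)
  · rw [jt, coeff_eq_zero_of_natDegree_lt (d.trans_lt u), mul_zero, abs_zero, mul_zero]
    positivity

variable {N D m : ℕ} (X : St N D)

theorem lp_deg (ω : X.Ω) (F : VD N D) : (MvPolynomial.aeval (lp X ω) F.1).natDegree ≤ D :=
  (MvPolynomial.aeval_natDegree_le _ (C1.deg_PD F) _ (n := 1) fun i =>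
    (natDegree_add_le _ _).trans (max_le (by simp) ((natDegree_C_mul_le _ _).trans
      natDegree_X_le))).trans_eq (mul_one D)

theorem lp_ev (ω : X.Ω) (F : MvPolynomial (Fin (N + 1)) ℝ) (s : ℝ) :
    (MvPolynomial.aeval (lp X ω) F).eval s =
      MvPolynomial.eval (bp X.g ω + (X.g.z ω + s / 2 ^ X.lv 0) • X.g.dv ω) F := by
  rw [← coe_aeval_eq_eval, MvPolynomial.comp_aeval_apply, MvPolynomial.aeval_eq_eval]
  congr 2
  funext i
  simp only [lp, tp_eq, map_add, map_mul, aeval_C, aeval_X, Pi.add_apply, Pi.smul_apply,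
    smul_eq_mul, Algebra.algebraMap_self, RingHom.id_apply]
  ring

theorem lp_tay {ω v : X.Ω} (h : X.g.l ω = X.g.l v) (F : MvPolynomial (Fin (N + 1)) ℝ) :
    taylor (2 ^ X.lv 0 * (X.g.z v - X.g.z ω)) (MvPolynomial.aeval (lp X ω) F) =
      MvPolynomial.aeval (lp X v) F := by
  refine Polynomial.funext fun s => ?_
  obtain ⟨a, e⟩ := Prod.ext_iff.1 h
  have a : X.g.a ω = X.g.a v := a
  have e : X.g.e ω = X.g.e v := e
  rw [taylor_eval, lp_ev, lp_ev, bp, bp, Sh.dv, Sh.dv, a, e]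
  congr 4
  field_simp
  ring

theorem jt_act (ω : X.Ω) (k : GA.Mt (Fin m)) (f : Fin m → VD N D) (i : ℕ) (p : Fin m) :
    jt (MvPolynomial.aeval (lp X ω) (act k f p).1) i =
      k.mulVec (fun q => jt (MvPolynomial.aeval (lp X ω) (f q).1) i) p := by
  simp only [act, jt, Submodule.coe_sum, Submodule.coe_smul, map_sum, map_smul, finsetSum_coeff,
    coeff_smul, smul_eq_mul, Matrix.mulVec, dotProduct, mul_sum]
  exact sum_congr rfl fun q _ => by ring

variable (F : Fd N D m X.Ω)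

theorem jet_eq (ω : X.Ω) (i : ℕ) (p : Fin m) :
    jet X F ω i p = jt (MvPolynomial.aeval (lp X ω) (F.f ω p).1) i := rfl

theorem jet_rel {ω v : X.Ω} (h : X.g.l ω = X.g.l v) (e : F.E ω = F.E v) (u : IsUnit (F.J v).det)
    {K : ℕ} (hK : D < K) (i : ℕ) (p : Fin m) : ((F.J ω)⁻¹ * F.J v).mulVec (jet X F v i) p =
      ∑ j ∈ range K, (j.factorial : ℝ)⁻¹ *
        ((2 ^ X.lv 0 * (X.g.z v - X.g.z ω)) ^ j * jet X F ω (i + j) p) := by
  have : F.f ω = act ((F.J ω)⁻¹ * F.J v) (F.f v) := by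
    rw [Fd.f, Fd.f, ← Fr.act_mul, mul_assoc, Matrix.mul_nonsing_inv _ u, mul_one, e]
  simp only [jet_eq]
  rw [← jt_tay ((lp_deg X ω _).trans_lt hK), lp_tay X h, this, jt_act]
  rfl

theorem ht_le {ω v : X.Ω} {x : ℚ} (h : X.O x ω = X.O x v) :
    |2 ^ X.lv 0 * (X.g.z v - X.g.z ω)| ≤ Real.exp (-(lg * ((X.lv x : ℝ) - X.lv 0))) := by
  have e : fl1 (X.lv x) (X.g.z ω) = fl1 (X.lv x) (X.g.z v) := congrArg Prod.snd h
  have a := fl1_near (X.lv x) (X.g.z ω)
  have b := fl1_near (X.lv x) (X.g.z v)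
  rw [e] at a
  have c : |X.g.z v - X.g.z ω| ≤ 1 / 2 ^ X.lv x := abs_le.2 ⟨by linarith, by linarith⟩
  rw [abs_mul, abs_of_pos (by positivity)]
  refine (mul_le_mul_of_nonneg_left c (by positivity)).trans_eq ?_
  rw [two_pow_eq, two_pow_eq, mul_one_div, ← Real.exp_sub]
  congr 1
  ring

theorem jet_le (D : ℕ) : ∃ C : ℝ, 1 ≤ C ∧ ∀ {N m : ℕ} (X : St N D) (F : Fd N D m X.Ω) (ω : X.Ω)
    (x : ℚ) (p : Fin m) (θ : ℝ), (X.S x ω).h = fl1 (X.lv x) (X.g.z ω) →
    (X.S x ω).Ok X.M (X.lv x) (X.g.l ω) → (X.S x ω).ν (F.f ω p) ≤ θ → ∀ i : ℕ,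
    |jet X F ω i p| ≤ C * θ * Real.exp (i * lg * ((X.lv x : ℝ) - X.lv 0)) := by
  obtain ⟨C, c1, hC⟩ := jt_le D
  refine ⟨C, c1, fun {N m} X F ω x p θ e k b i => ?_⟩
  have p0 : (0 : ℝ) < 2 ^ X.lv 0 := by positivity
  have a := fl1_near (X.lv x) (X.g.z ω)
  have := hC _ (2 ^ X.lv 0 * (fl1 (X.lv x) (X.g.z ω) / 2 ^ X.lv x - X.g.z ω))
    (2 ^ X.lv 0 * (1 / 2 ^ X.lv x)) θ (lp_deg X ω (F.f ω p)) (by positivity) (by nlinarith [a.1])
    (by nlinarith [a.2]) (fun s u v => by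
      rw [lp_ev]
      refine (k.bd _ (line_mem X.g ω _ _ (by norm_num) ?_ ?_) _).trans b <;> rw [e]
      · rw [← sub_le_iff_le_add', le_div_iff₀' p0]; exact u
      · rw [← le_sub_iff_add_le', div_le_iff₀' p0]; linarith) i
  rw [two_pow_eq, two_pow_eq, mul_one_div, ← Real.exp_sub, ← Real.exp_nat_mul,
    ← le_div_iff₀' (Real.exp_pos _), div_eq_mul_inv, ← Real.exp_neg] at this
  refine this.trans_eq ?_
  congr 2
  ring

end Pool.Agent.MP_5168f5_an.QA.AB
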