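import Pool.Agent.MP_5168f5_an.QA.As
import Pool.Agent.MP_5168f5_an.QA.SplD
import Pool.Agent.MP_5168f5_an.QA.T1Cl

/-! The Kakeya maximal estimate: height and anti-concentration of the last member. -/

namespace Pool.Agent.MP_5168f5_an.QA.As

open H19 H17S H17F R4 AN Filter Finset Matrix
open GA (Mt ex IsFr)
open PA (Pr sP sM sO)
open LC (Au ex_le)
open Fl (Sg Bd Fd BF FL ROut)
open Spl (Pat)
open IsNilpotent (exp exp_eq_sum)

section Ch

variable {ι : Type} [Fintype ι] [DecidableEq ι] {o τ : ι} {Z Y Y' : Mt ι} {s s' : ℝ}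

/-- The rows `o` and `τ` are those of an elementary matrix. -/
def Rw (o τ : ι) (Y : Mt ι) (s : ℝ) : Prop :=
  Y o = Pi.single o 1 ∧ Y τ = Pi.single τ 1 + Pi.single o s

theorem Rw.mul (h : Rw o τ Y s) (h' : Rw o τ Y' s') : Rw o τ (Y * Y') (s + s') := by
  have e : ∀ p, (Y * Y') p = Y p ᵥ* Y' := fun _ => rfl
  have f : ∀ p (x : ℝ), Pi.single p x ᵥ* Y' = x • Y' p := fun p x => by
    rw [single_vecMul]; rfl
  refine ⟨by rw [e, h.1, f, one_smul, h'.1], ?_⟩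
  rw [e, h.2, add_vecMul, f, f, one_smul, h'.1, h'.2, ← Pi.single_smul, smul_eq_mul, mul_one,
    add_assoc, ← Pi.single_add, add_comm s]

theorem Rw.eq (h : Rw o τ Y s) (h' : Rw o τ Y s') : s = s' := by
  simpa using congrFun (add_left_cancel (h.2.symm.trans h'.2)) o

theorem exp_row (hn : IsNilpotent Z) {p : ι} (h : ∀ q, (Z * Z) p q = 0) :
    exp Z p = Pi.single p 1 + Z p := funext fun q => by
  obtain ⟨k, hk⟩ := hn
  have e : Z ^ (k + 2) = 0 := by rw [pow_add, hk, zero_mul]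
  rw [exp_eq_sum e, sum_range_succ', sum_range_succ', Matrix.add_apply, Matrix.add_apply,
    Matrix.sum_apply, sum_eq_zero fun i _ => ?_]
  · simp [add_comm, one_apply, Pi.single_apply, eq_comm]
  · rw [Matrix.smul_apply, show i + 1 + 1 = 2 + i by ring, pow_add, pow_two, Matrix.mul_apply,
      sum_eq_zero fun r _ => by rw [h r, zero_mul], smul_zero]

theorem rw_exp (hn : IsNilpotent Z) (h0 : ∀ r, Z o r = 0) (h1 : ∀ r, r ≠ o → Z τ r = 0) :
    Rw o τ (exp Z) (Z τ o) := by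
  refine ⟨(exp_row hn fun q => ?_).trans (by ext r; simp [h0]), (exp_row hn fun q => ?_).trans ?_⟩
  · rw [Matrix.mul_apply]; exact sum_eq_zero fun r _ => by rw [h0 r, zero_mul]
  · rw [Matrix.mul_apply]
    refine sum_eq_zero fun r _ => ?_
    by_cases c : r = o
    · rw [c, h0, mul_zero]
    · rw [h1 r c, zero_mul]
  · congr 1
    ext r
    by_cases c : r = o
    · rw [c, Pi.single_eq_same]
    · rw [h1 r c, Pi.single_eq_of_ne c]

variable {κ α : Type} [Fintype κ] [DecidableEq κ] {σ : Sg ι κ α}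

omit [DecidableEq κ] in
theorem rw_ex (f : IsFr σ.Φ σ.B σ.c) (p : Pat σ o τ s) (t : κ → ℝ) :
    Rw o τ (ex σ.B t) (GA.vec σ.B t τ o) :=
  rw_exp (σ.Φ.nil (f.mem t)) (fun r => by simp [GA.vec, Matrix.sum_apply, p.ro])
    fun r c => by simp [GA.vec, Matrix.sum_apply, p.row _ r c]

end Ch

variable {ι κ α κ' : Type} [Fintype ι] [DecidableEq ι] [Fintype κ] [DecidableEq κ] [Fintype α]
  {Ω Λ Θ Ξ : ℕ → Type} {σ : Sg ι κ α} {b : ∀ n, Bd ι κ α (Ω n) (Θ n) (Ξ n)} {Hs : Finset ℝ} {W : ℝ}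
  {μ : κ → ℝ} {γ : κ → ℕ} {d : ∀ n, Fd ι κ α (Ω n)}

/-- The marked coordinate is the height. -/
theorem tt_of (hO : ROut) {X : ∀ n, Pr κ' (Ω n) (Λ n)} {o τ : ι} {s : ℝ} {ta : κ}
    {zt : ∀ n, Ω n → ℝ} (ok : σ.Ok Hs W) (hμ : ∀ a, μ a ∈ Hs) (big : Big (sM X)) (bf : BF σ b X)
    (fl : FL σ b μ γ X d) (p : Pat σ o τ s)
    (ch : ∀ᶠ n in UF, ∀ ω ∈ (X n).P.S, ∀ a, (d n).B σ ω a τ o = if a = ta then 1 else 0)
    {ε : ℝ} (h : ∀ᶠ n in UF, ∀ ω ∈ (X n).P.S, ∀ v ∈ (X n).P.S, (X n).O (-1) ω = (X n).O (-1) v →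
      ∀ t, (b n).J v = (b n).J ω * ex σ.B t →
        |GA.vec σ.B t τ o - (zt n v - zt n ω)| ≤ Real.exp (ε * (X n).M)) :
    ∀ᶠ n in UF, ∀ ω ∈ (X n).P.S, ∀ v ∈ (X n).P.S, (X n).O (-1) ω = (X n).O (-1) v →
      |GA.lg ((d n).B σ ω) ((d n).G σ (b n) ω) ((d n).G σ (b n) v) ta - (zt n v - zt n ω)| ≤
        Real.exp (ε * (X n).M) := by
  filter_upwards [lg_out hO ok hμ big bf fl le_rfl (by norm_num) (.of_forall fun _ => Fn.rfl _) 1
    one_pos 0, fl 1 one_pos 0, bf (-1) le_rfl (by norm_num) 1 one_pos 0, ch, h]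
    with n a1 a2 a3 a4 a5 ω hω v hv e
  obtain ⟨t, t1, -⟩ := a3.inc ω hω v hv e
  refine (le_of_eq ?_).trans (a5 ω hω v hv e t t1)
  have g := ((a1 ω hω v hv).inc e).1
  generalize GA.lg ((d n).B σ ω) _ _ = t' at g ⊢
  have u1 := (Prod.mk.inj (a2.fU ω hω v hv (a2.fT ω hω v hv e))).1
  have u2 := (Prod.mk.inj (a2.fk ω hω v hv e)).1
  have r : ∀ y, Rw o τ (ex ((d n).B σ ω) y) (y ta) := fun y => by
    have := rw_ex ok.fr p (y ᵥ* (d n).U ω)
    rw [ex, ← GA.GAFrA.vec_mB] at this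
    have z : GA.vec ((d n).B σ ω) y τ o = y ta := by
      simp only [GA.vec, Matrix.sum_apply, Matrix.smul_apply, smul_eq_mul, a4 ω hω]
      simp
    exact z ▸ this
  have u3 : (d n).B σ v = (d n).B σ ω := congrArg (GA.mB · σ.B) u1.symm
  rw [Fd.G, Fd.G, t1, u3, ← u2, mul_assoc, mul_assoc, (a3.unit ω hω).mul_right_inj] at g
  have k1 := (rw_ex ok.fr p t).mul (r (-(d n).k ω))
  rw [g] at k1
  have := k1.eq ((r _).mul (r t'))
  rw [show t' ta = GA.vec σ.B t τ o by linarith]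

/-- Anti-concentration of the coefficients. -/
theorem ac_of [DecidableEq α] {X : ∀ n, Pr α (Ω n) (Λ n)} {S : Finset α} {L : ℝ}
    {A : ∀ n, Ω n → α → α → ℝ} {x : ℚ} (ok : σ.Ok Hs W) (hL : 1 ≤ L)
    (h : ∀ T, PA.HC σ.η 0 S L X A x T) (hy : ∀ n, (b n).y = (X n).Y)
    (hH : ∀ᶠ n in UF, ∀ ω ∈ (X n).P.S, ∀ i, i ∉ S → (b n).H ω i = 0)
    (lv : ∀ ε : ℝ, 0 < ε → ∀ᶠ n in UF, |(X n).lv x - x * (X n).M| ≤ ε * (X n).M) :
    Au (sM X) fun n => Ac σ (b n) (X n) L x := fun ε hε T => by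
  have W0 : 0 ≤ W := (ok.bd 0 ok.zero).2
  filter_upwards [h T _ (half_pos hε), hH, lv (ε / 2 / (W + 1)) (by positivity)]
    with n a1 a2 a3 ω hω t l E t1 t2 ⟨j, t3⟩ t4
  have m0 : (0 : ℝ) ≤ (X n).M := Nat.cast_nonneg _
  set r : α → ℝ := fun i => l i * Real.exp (σ.η i * (x * (X n).M) - σ.η i * (X n).lv x)
  set s := ∑ i, |r i|
  have s1 : Real.exp (-(ε / 2 * (X n).M)) ≤ s := by
    refine le_trans ?_ (single_le_sum (f := fun i => |r i|) (fun _ _ => abs_nonneg _) (mem_univ j))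
    rw [abs_mul, abs_of_pos (Real.exp_pos _)]
    refine (ex_le ?_).trans (le_mul_of_one_le_left (Real.exp_pos _).le t3)
    have e1 := mul_le_mul (show σ.η j ≤ W + 1 by linarith [(ok.bd _ (ok.he j)).2])
      a3 (abs_nonneg _) (by positivity)
    have e2 := mul_le_mul_of_nonneg_left (le_abs_self ((X n).lv x - x * (X n).M)) (ok.eta j).le
    rw [← mul_assoc, mul_div_cancel₀ _ (by positivity)] at e1
    linarith
  have s0 : 0 < s := (Real.exp_pos _).trans_le s1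
  refine (a1 ω hω (t - ε / 2 * (X n).M) (by nlinarith) (fun i => r i / s) E
    ⟨fun i c => by simp [r, t2 i (a2 ω hω i c)], fun _ _ => by
      simp [PA.cA, GA.br, (Real.exp_pos _).le]⟩ ?_ fun v v' c e z z' => ?_).trans (ex_le ?_)
  · simp only [abs_div, abs_of_pos s0]
    rw [← sum_div, div_self s0.ne']
  · have := t4 v c.1 v' c.2.1 e (c.2.2.symm.trans e) z z'
    rw [show ∑ i, r i / s * (X n).co σ.η x v v' i = (∑ i, l i *
      (Real.exp (σ.η i * (x * (X n).M)) * (b n).y v v' i)) / s by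
        rw [sum_div]
        refine sum_congr rfl fun i _ => ?_
        simp only [r, Pr.co, hy, Real.exp_sub]
        field_simp, abs_div, abs_of_pos s0, div_le_iff₀ s0]
    refine this.trans (le_trans (le_of_eq ?_) (mul_le_mul_of_nonneg_left s1 (Real.exp_pos _).le))
    rw [← Real.exp_add]
    congr 1
    ring
  · have := div_le_self (show 0 ≤ ε / 2 * (X n).M by positivity) hL
    rw [sub_div]
    linarith

/-- Flat heights in the unit of the level zero. -/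
theorem ht_of {N D E : ℕ} {η θ β js Γ : ℝ} {kf : ℕ → ℕ} {sl : ℕ → ℝ} {X : ℕ → St N D}
    (h : Ts X E η θ β js Γ kf sl) (i : ℕ) (x x' : ℚ) : HT1 (kf i) (PP X)
      (fun n ω => Real.exp (lg * (x' * (X n).u)) * (2 ^ (X n).lv 0 * (X n).g.z ω))
      (fun n => (X n).O x) (uu X) fun n => (1 - 1 / (i + 1 : ℝ)) * (lg * ((x' - x) * (X n).u)) := by
  have l0 := lg_pos
  have l1 := lg_lt_one
  have t0 : (0 : ℝ) ≤ 1 / (i + 1 : ℝ) := by positivity
  have t1 : 1 / (i + 1 : ℝ) ≤ 1 := by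
    rw [div_le_one (by positivity)]; linarith [Nat.cast_nonneg (α := ℝ) i]
  have a : HT1 (kf i) (PP X) (fun n ω => 2 ^ (X n).lv x' * (X n).g.z ω) (fun n => (X n).O x) (uu X)
      fun n => (1 - 1 / (i + 1 : ℝ)) * (((X n).lv x' : ℝ) - (X n).lv x) * lg :=
    fun ε hε => (h.hs i x x' ε hε).mono fun _ a => Ht.mono a hε.le le_rfl
  let y : ℕ → ℝ := fun n => lg * (x' * (X n).u + (X n).lv 0 - (X n).lv x')
  refine (a.mono fun ε hε => ?_).aff h.big (L := fun n => Real.exp |y n|)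
    ⟨fun n => Real.one_le_exp (abs_nonneg _), fun ε hε => ?_⟩ (c := fun n _ => Real.exp (y n))
    (b := fun _ _ => 0) (.of_forall fun n => ⟨fun _ _ _ _ _ => rfl, fun _ _ _ _ _ => rfl,
      fun ω _ => ⟨?_, ?_, ?_⟩⟩)
  · filter_upwards [h.lev x x' hε] with n e
    have := mul_le_mul_of_nonneg_left (abs_le.1 e).1 (mul_nonneg (sub_nonneg.2 t1) l0.le)
    have k : (1 - 1 / (i + 1 : ℝ)) * lg * (ε * (X n).u) ≤ ε * (X n).u :=
      mul_le_of_le_one_left (by positivity) (by nlinarith)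
    show _ ≤ _ + ε * (X n).u
    linarith
  · filter_upwards [h.lev 0 x' hε] with n e
    refine ex_le ?_
    rw [abs_mul, abs_of_pos l0, abs_sub_comm]
    refine (mul_le_of_le_one_left (abs_nonneg _) l1.le).trans (le_trans (le_of_eq ?_) e)
    push_cast
    congr 1
    ring
  · rw [abs_of_pos (Real.exp_pos _), ← Real.exp_add]
    exact Real.one_le_exp (by linarith [neg_abs_le (y n)])
  · rw [abs_of_pos (Real.exp_pos _)]
    exact ex_le (le_abs_self _)
  · have e : ∀ k : ℕ, (2 : ℝ) ^ k = Real.exp (lg * k) := fun k => by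
      rw [mul_comm, Real.exp_nat_mul, lg, Real.exp_log two_pos]
    rw [e, e, ← mul_assoc (Real.exp _), ← mul_assoc (Real.exp _), ← Real.exp_add, ← Real.exp_add,
      show y n + lg * (X n).lv x' = lg * (x' * (X n).u) + lg * (X n).lv 0 by simp only [y]; ring]
    simpa using (Real.exp_pos _).le

end Pool.Agent.MP_5168f5_an.QA.As
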