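import Pool.Agent.MP_5168f5_an.QA.CpDefs

/-! The Kakeya maximal estimate: the filtered system in the unscaled basis, definitions. -/

namespace Pool.Agent.MP_5168f5_an.QA.Cp

open H19 H17S H17F R4 AN Filter Matrix
open GA (Mt IsFr Nr Wd br sB sC)

variable {ι κ α : Type} [Fintype ι] [DecidableEq ι] [Fintype κ] [DecidableEq κ]

namespace Pd

variable (σ : Cs ι κ α) (X : Pd ι κ α)

open Classical in
/-- The homogeneous part of the directions. -/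
noncomputable def ah (ω : X.Ω) (i : α) (b : κ) : ℝ := if σ.μ b = σ.η i then X.A ω i b else 0

/-- The directions are replaced by their homogeneous parts. -/
noncomputable abbrev hom : Pd ι κ α := { X with A := X.ah σ }

/-- The basis is rescaled by `exp (dp * M)`. -/
noncomputable abbrev scl (dp : κ → ℝ) : Pd ι κ α :=
  { X with
    B := fun ω => sB (fun a => Real.exp (dp a * X.M)) (X.B ω)
    c := fun ω => sC (fun a => Real.exp (dp a * X.M)) (X.c ω)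
    A := X.ah σ
    zt := fun ω => Real.exp (-(σ.μ σ.τ * X.M)) * X.zt ω }

/-- The algebra at one point: bounds `exp u` and negligible terms `δ`. -/
structure Al5 (dp : κ → ℝ) (u δ : ℝ) (ω : X.Ω) : Prop where
  unit : IsUnit (X.j ω)
  fr : IsFr σ.Φ (X.B ω) (X.c ω)
  ob : ∀ a b e, |X.c ω a b e| ≤ Real.exp u
  bA : ∀ i b, |X.A ω i b| ≤ Real.exp u
  long : ∃ i, σ.η i = σ.μ σ.τ ∧ Real.exp (-u) ≤ |X.A ω i σ.τ|
  fil : ∀ a b e, dp e < dp a + dp b → |X.c ω a b e| ≤ δ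
  sub : ∀ a b e, Hw σ.μ a b e → ¬σ.pos a → ¬σ.pos b → σ.pos e → |X.c ω a b e| ≤ δ
  chi : ∀ a b, Hw σ.μ a b σ.τ → |X.c ω a b σ.τ| ≤ δ
  low : ∀ i b, σ.μ b < σ.η i → |X.A ω i b| ≤ δ
  cur : ∀ i i' b, σ.pos b →
    |X.ah σ ω i b * X.ah σ ω i' σ.τ - X.ah σ ω i' b * X.ah σ ω i σ.τ| ≤ δ

/-- The fine label locates the group element up to a unit box of the live part. -/
def Nr5 (u δ : ℝ) : Prop := ∀ ω ∈ X.P.S, ∀ v ∈ X.P.S, X.S ω = X.S v →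
  X.j v = X.j ω * GA.ex (X.B ω) (X.t ω v) ∧
    ∀ b, |X.t ω v b| ≤ Real.exp u ∧ (σ.μ b = 0 → |X.t ω v b| ≤ δ)

variable [Fintype α] (Y : X.Ω → X.Ω → α → ℝ)

/-- Increments inside a piece of depth `x`, with the coefficients `Y`. -/
def In5 (x : ℚ) (u δ : ℝ) : Prop := ∀ ω ∈ X.P.S, ∀ v ∈ X.P.S, X.O x ω = X.O x v →
  X.j v = X.j ω * GA.ex (X.B ω) (X.t ω v) ∧
    (∀ i, |Y ω v i| ≤ Real.exp (u + σ.η i * ((1 - x) * X.M))) ∧
    ∀ b, |X.t ω v b - ∑ i, Y ω v i * X.A ω i b| ≤ δ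

/-- Anti-concentration of the coefficients inside a piece of depth `x`, up to the depth `w`. -/
def Ac5 (x : ℚ) (u w : ℝ) : Prop := ∀ ω ∈ X.P.S, ∀ (h : ℝ) (l : α → ℝ) (E : X.Ω → Prop), h ≤ w →
  (∀ i, X.A ω i = 0 → l i = 0) → (∃ i, 1 ≤ |l i|) →
  (∀ v ∈ X.P.S, ∀ v' ∈ X.P.S, X.O x v = X.O x ω → X.O x v' = X.O x ω → E v → E v' →
    |∑ i, l i * (Real.exp (-(σ.η i * ((1 - x) * X.M))) * Y v v' i)| ≤ Real.exp (-h)) →
  pb (cv X.P (X.O x) (X.O x ω)) E ≤ Real.exp (u - h / σ.L₁)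

end Pd

section Seq

variable [Fintype α] (σ : Cs ι κ α) (dp : κ → ℝ) (X : ℕ → Pd ι κ α)
  (Y : ∀ n, (X n).Ω → (X n).Ω → α → ℝ)

/-- Eventually, for every loss and every negligible error. -/
def Ev2 (p : ℕ → ℝ → ℝ → Prop) : Prop := ∀ ε K : ℝ, 0 < ε →
  ∀ᶠ n in UF, p n (ε * (X n).M) (Real.exp (-(K * (X n).M)))

/-- The filtered system in the unscaled basis: the unit box is the box of depth one. The depths
`dp` extend the weights to the dead indices. -/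
structure W5 : Prop where
  big : Big (sM X)
  g0 : 0 < σ.g
  l0 : 0 < σ.L₀
  l1 : 1 ≤ σ.L₁
  be0 : 0 < σ.be
  wt : ∀ a, σ.μ a = 0 ∨ σ.g ≤ σ.μ a
  et : ∀ i, 0 < σ.η i
  live : ∀ a, σ.pos a → 0 < σ.μ a
  tau : σ.pos σ.τ
  gp : ∀ a b e, 0 < σ.μ a → 0 < σ.μ b → σ.μ a + σ.μ b < σ.μ e → σ.μ a + σ.μ b + σ.g ≤ σ.μ e
  ge : ∀ i b, σ.η i < σ.μ b → σ.η i + σ.g ≤ σ.μ b
  d1 : ∀ a, 0 < σ.μ a → dp a = σ.μ a
  d0 : ∀ a b, σ.μ a = 0 → dp a + σ.μ b + σ.g ≤ 0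
  nest : ∀ x x' : ℚ, 0 ≤ x → x ≤ x' → x' ≤ 1 →
    FnE (sP X) (fun n => (X n).z x) fun n => (X n).z x'
  zT : FnE (sP X) (fun n => (X n).z 0) fun n => (X n).T
  zS : FnE (sP X) (fun n => (X n).z 1) fun n => (X n).S
  tS : FnE (sP X) (fun n => (X n).T) fun n => (X n).S
  tO : FnE (sP X) (fun n => (X n).T) fun n => (X n).O 0
  fB : FnE (sP X) (fun n ω => ((X n).B ω, (X n).c ω)) fun n => (X n).T
  fA : FnE (sP X) (fun n => (X n).A) fun n => (X n).O 0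
  alg : Ev2 X fun n u δ => ∀ ω ∈ (X n).P.S, (X n).Al5 σ dp u δ ω
  cur : ∀ w : Wd α, 2 ≤ w.len → Ev2 X fun n _ δ => ∀ ω ∈ (X n).P.S, ∀ b, σ.pos b →
    |w.ev (br (hc σ.μ ((X n).c ω))) ((X n).ah σ ω) b| ≤ δ
  near : Ev2 X fun n => (X n).Nr5 σ
  inc : ∀ x : ℚ, 0 ≤ x → x ≤ 1 → Ev2 X fun n => (X n).In5 σ (Y n) x
  ac : ∀ x : ℚ, 0 ≤ x → x ≤ 1 → ∀ T : ℝ, Ev X fun n u => (X n).Ac5 σ (Y n) x u (T * (X n).M)
  tt : Ev X fun n u => ∀ ω ∈ (X n).P.S, ∀ v ∈ (X n).P.S, (X n).O 0 ω = (X n).O 0 v →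
    |(X n).t ω v σ.τ - ((X n).zt v - (X n).zt ω)| ≤ Real.exp u
  ht : ∀ (i : ℕ) (x x' : ℚ), 0 ≤ x → x ≤ x' → x' ≤ 1 → HT1 (σ.kf i) (sP X)
    (fun n ω => Real.exp (σ.μ σ.τ * ((x' - 1) * (X n).M)) * (X n).zt ω) (fun n => (X n).O x) (sM X)
    fun n => (1 - 1 / (i + 1 : ℝ)) * (σ.μ σ.τ * ((x' - x) * (X n).M))
  top : Le (sM X) (fun n => mi (X n).P (X n).l (X n).S (X n).T) fun n => (σ.m - σ.be) * (X n).M
  acw : Acw σ fun n => (X n).hom σ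

end Seq

/-- Rescaling gives the filtered system. -/
def SScl : Prop := ∀ (ι κ α : Type) [Fintype ι] [DecidableEq ι] [Fintype κ] [DecidableEq κ]
  [Fintype α] (σ : Cs ι κ α) (dp : κ → ℝ) (X : ℕ → Pd ι κ α)
  (Y : ∀ n, (X n).Ω → (X n).Ω → α → ℝ), W5 σ dp X Y → PreG σ fun n => (X n).scl σ dp

end Pool.Agent.MP_5168f5_an.QA.Cp
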