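import Pool.Agent.MP_5168f5_an.QA.FlDefs
import Pool.Agent.MP_5168f5_an.QA.W5D

/-! The Kakeya maximal estimate: the last member of the filtration, definitions. -/

namespace Pool.Agent.MP_5168f5_an.QA.As

open H19 H17S H17F R4 AN Filter Finset Matrix
open GA (Mt Wd lg br)
open PA (Pr sP sM sO)
open LC (Au)
open Cp (Hw hc Cs Pd)
open Fl (Sg Bd Fd blk BF FL ACW)

/-- The splitting at one point. -/
structure Sp {κ α : Type} (μ : κ → ℝ) (η : α → ℝ) (pos : κ → Prop) (ta : κ) (c : κ → κ → κ → ℝ)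
    (A : α → κ → ℝ) (u w : ℝ) : Prop where
  long : ∃ i, η i = μ ta ∧ Real.exp (-u) ≤ |A i ta|
  sub : ∀ a b e, Hw μ a b e → ¬pos a → ¬pos b → pos e → |c a b e| ≤ Real.exp (-w)
  chi : ∀ a b, Hw μ a b ta → |c a b ta| ≤ Real.exp (-w)
  cur : ∀ i i' b, pos b → |blk μ (η i) (A i) b * blk μ (η i') (A i') ta -
    blk μ (η i') (A i') b * blk μ (η i) (A i) ta| ≤ Real.exp (-w)

/-- The constants. -/
structure Kc (κ : Type) : Type where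
  Hs : Finset ℝ
  W : ℝ
  μ : κ → ℝ
  γ : κ → ℕ
  pos : κ → Prop
  ta : κ
  L₀ : ℝ
  L₁ : ℝ
  be : ℝ
  kf : ℕ → ℕ

variable {ι κ α κ' : Type} [Fintype ι] [DecidableEq ι] [Fintype κ] [DecidableEq κ] [Fintype α]

open Classical in
/-- The sum of the lateral weights. -/
noncomputable def Kc.m (k : Kc κ) : ℝ := ∑ a ∈ univ.filter fun a => k.pos a ∧ a ≠ k.ta, k.μ a

/-- Anti-concentration of the coefficients in the pieces of the level `x`. -/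
def Ac {Ω Λ Θ Ξ : Type} (σ : Sg ι κ α) (b : Bd ι κ α Ω Θ Ξ) (X : Pr κ' Ω Λ) (L : ℝ) (x : ℚ)
    (u w : ℝ) : Prop := ∀ ω ∈ X.P.S, ∀ (h : ℝ) (l : α → ℝ) (E : Ω → Prop), h ≤ w →
  (∀ i, b.H ω i = 0 → l i = 0) → (∃ i, 1 ≤ |l i|) →
  (∀ v ∈ X.P.S, ∀ v' ∈ X.P.S, X.O x v = X.O x ω → X.O x v' = X.O x ω → E v → E v' →
    |∑ i, l i * (Real.exp (σ.η i * (x * X.M)) * b.y v v' i)| ≤ Real.exp (-h)) →
  pb (X.fb x ω) E ≤ Real.exp (u - h / L)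

variable {Ω L Z Θ Ξ : ℕ → Type} (σ : Sg ι κ α) (b : ∀ n, Bd ι κ α (Ω n) (Θ n) (Ξ n)) (k : Kc κ)
  (X : ∀ n, Pr κ' (Ω n) (L n × Z n)) (d : ∀ n, Fd ι κ α (Ω n)) (zt : ∀ n, Ω n → ℝ)

/-- The last member. -/
structure Fin5 : Prop where
  ok : σ.Ok k.Hs k.W
  hμ : ∀ a, k.μ a ∈ k.Hs
  big : Big (sM X)
  l0 : 0 < k.L₀
  l1 : 1 ≤ k.L₁
  be0 : 0 < k.be
  live : ∀ a, k.pos a → 0 < k.μ a
  tau : k.pos k.ta
  line : ∀ n x ω, ((X n).O x ω).1 = ((X n).O 0 ω).1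
  nest : ∀ x x' : ℚ, x ≤ x' →
    FnE (sP X) (fun n ω => ((X n).O x ω).2) fun n ω => ((X n).O x' ω).2
  zS : FnE (sP X) (fun n ω => ((X n).O 0 ω).2) fun n => (b n).S
  bf : BF σ b X
  fl : FL σ b k.μ k.γ X d
  acw : ACW σ b k.μ k.L₀ X d
  spl : Au (sM X) fun n u w => ∀ ω ∈ (X n).P.S,
    Sp k.μ σ.η k.pos k.ta ((d n).c σ ω) ((d n).A ω) u w
  cur : ∀ v : Wd α, 2 ≤ v.len → ∀ K : ℝ, ∀ᶠ n in UF, ∀ ω ∈ (X n).P.S, ∀ e, k.pos e →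
    |v.ev (br (hc k.μ ((d n).c σ ω))) (fun i => blk k.μ (σ.η i) ((d n).A ω i)) e| ≤
      Real.exp (-(K * (X n).M))
  ac : ∀ x : ℚ, -1 ≤ x → x ≤ 0 → Au (sM X) fun n => Ac σ (b n) (X n) k.L₁ x
  tt : ∀ ε : ℝ, 0 < ε → ∀ᶠ n in UF, ∀ ω ∈ (X n).P.S, ∀ v ∈ (X n).P.S,
    (X n).O (-1) ω = (X n).O (-1) v → |lg ((d n).B σ ω) ((d n).G σ (b n) ω) ((d n).G σ (b n) v)
      k.ta - (zt n v - zt n ω)| ≤ Real.exp (ε * (X n).M)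
  ht : ∀ (i : ℕ) (x x' : ℚ), -1 ≤ x → x ≤ x' → x' ≤ 0 → HT1 (k.kf i) (sP X)
    (fun n ω => Real.exp (k.μ k.ta * (x' * (X n).M)) * zt n ω) (sO X x) (sM X)
    fun n => (1 - 1 / (i + 1 : ℝ)) * (k.μ k.ta * ((x' - x) * (X n).M))
  top : Le (sM X) (fun n => mi (X n).P (fun ω => ((X n).O 0 ω).1)
    (fun ω => ((b n).S ω, (d n).T ω)) fun ω => ((d n).T ω, ((X n).O (-1) ω).2))
    fun n => (k.m - k.be) * (X n).M

/-- The filtered system of the last member. -/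
noncomputable abbrev pd (n : ℕ) : Pd ι κ α :=
  ⟨Ω n, L n, Z n, Ξ n × Set (Ω n), Set (Ω n) × Z n, (X n).P, (X n).M, fun ω => ((X n).O 0 ω).1,
    fun x ω => ((X n).O (x - 1) ω).2, fun ω => ((b n).S ω, (d n).T ω),
    fun ω => ((d n).T ω, ((X n).O (-1) ω).2), (d n).G σ (b n), (d n).B σ, (d n).c σ, (d n).A, zt n⟩

/-- The last member gives the filtered system. -/
def SAs : Prop := ∀ (ι κ α κ' : Type) [Fintype ι] [DecidableEq ι] [Fintype κ] [DecidableEq κ]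
  [Fintype α] (Ω L Z Θ Ξ : ℕ → Type) (σ : Sg ι κ α) (b : ∀ n, Bd ι κ α (Ω n) (Θ n) (Ξ n))
  (k : Kc κ) (X : ∀ n, Pr κ' (Ω n) (L n × Z n)) (d : ∀ n, Fd ι κ α (Ω n)) (zt : ∀ n, Ω n → ℝ),
  Fin5 σ b k X d zt → ∃ (s : Cs ι κ α) (dp : κ → ℝ), Cp.W5 s dp (pd σ b X d zt) fun n => (b n).y

end Pool.Agent.MP_5168f5_an.QA.As
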