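import Pool.Agent.MP_5168f5_an.QA.ExtCov
import Pool.Agent.MP_5168f5_an.AN.C1B

/-! The sharp count for cells that are declared by a norm and a Jacobian. -/

namespace Pool.Agent.MP_5168f5_an.QA

open Finset H19 H17S MvPolynomial AN.En
open H83 (pt)
open AN.C1 (Hb PD deg_PD)

/-- An orthonormal basis for a Euclidean norm. -/
theorem onb {W : Type} [AddCommGroup W] [Module ℝ W] [FiniteDimensional ℝ W] {ν : W → ℝ}
    (h : Hb ν) : ∃ f : Fin (Module.finrank ℝ W) → W, (∀ i, ν (f i) = 1) ∧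
      ∀ F, ∃ c : Fin (Module.finrank ℝ W) → ℝ, F = ∑ i, c i • f i ∧ ∀ i, |c i| ≤ ν F := by
  obtain ⟨ι, _, A, hA, e⟩ := h
  set Q := LinearEquiv.ofInjective A hA with hQ
  set b := (stdOrthonormalBasis ℝ (LinearMap.range A)).reindex (finCongr Q.finrank_eq.symm) with hb
  have k : ∀ F, ν F = ‖Q F‖ := fun F => e F
  refine ⟨fun i => Q.symm (b i), fun i => ?_, fun F => ⟨fun i => inner ℝ (b i) (Q F), ?_, fun i => ?_⟩⟩
  · rw [k, Q.apply_symm_apply, b.orthonormal.1]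
  · simp only [← map_smul]
    rw [← map_sum, b.sum_repr', Q.symm_apply_apply]
  · refine (abs_real_inner_le_norm _ _).trans_eq ?_
    rw [b.orthonormal.1, one_mul, k]

/-- The Jacobian of combinations with bounded coefficients. -/
theorem jac_comb {n m : ℕ} (f : Fin m → MvPolynomial (Fin n) ℝ) (c : Fin n → Fin m → ℝ) {B : ℝ}
    (hc : ∀ i a, |c i a| ≤ B) (x : V n) (h : (dm (fun i => ∑ a, c i a • f a) x).det ≠ 0) :
    ∃ I : Fin n → Fin m, |(dm (fun i => ∑ a, c i a • f a) x).det| ≤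
      (m * B) ^ n * |(dm (fun i => f (I i)) x).det| := by
  classical
  have e : (dm (fun i => ∑ a, c i a • f a) x).det =
      ∑ I : Fin n → Fin m, (∏ i, c i (I i)) * (dm (fun i => f (I i)) x).det := by
    have h1 := (Matrix.detRowAlternating (n := Fin n) (R := ℝ)).toMultilinearMap.map_sum
      (fun i a => c i a • fun k => eval x (pderiv k (f a)))
    refine Eq.trans ?_ (h1.trans (sum_congr rfl fun I _ => ?_))
    · refine congrArg Matrix.det (Matrix.ext fun i k => ?_)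
      simp [dm]
    · exact MultilinearMap.map_smul_univ _ _ _
  rcases isEmpty_or_nonempty (Fin n → Fin m) with hI | hI
  · exact absurd (e.trans (sum_of_isEmpty _)) h
  obtain ⟨I, hI⟩ := Finite.exists_max fun I : Fin n → Fin m => |(dm (fun i => f (I i)) x).det|
  refine ⟨I, ?_⟩
  rw [e]
  refine (abs_sum_le_sum_abs _ _).trans ((sum_le_card_nsmul _ _
    (B ^ n * |(dm (fun i => f (I i)) x).det|) fun I' _ => ?_).trans_eq ?_)
  · rw [abs_mul, abs_prod]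
    have k := prod_le_prod (s := univ) (f := fun i => |c i (I' i)|) (g := fun _ => B)
      (fun _ _ => abs_nonneg _) fun i _ => hc i _
    rw [prod_const, card_univ, Fintype.card_fin] at k
    exact mul_le_mul k (hI I') (abs_nonneg _) ((prod_nonneg fun _ _ => abs_nonneg _).trans k)
  · rw [card_univ, Fintype.card_fun, Fintype.card_fin, Fintype.card_fin, nsmul_eq_mul, mul_pow,
      Nat.cast_pow, mul_assoc]

/-- A frame of unit polynomials can be replaced by members of one basis read from the norm. -/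
theorem jb {n E : ℕ} {ν : PD n E → ℝ} (h : Hb ν) :
    ∃ f : Fin (Module.finrank ℝ (PD n E)) → PD n E, (∀ a, ν (f a) = 1) ∧
      ∀ (Φ : Fin n → PD n E) (B : ℝ) (x : V n), (∀ i, ν (Φ i) ≤ B) →
        (dm (fun i => (Φ i).1) x).det ≠ 0 → ∃ I : Fin n → Fin (Module.finrank ℝ (PD n E)),
          |(dm (fun i => (Φ i).1) x).det| ≤
            (Module.finrank ℝ (PD n E) * B) ^ n * |(dm (fun i => (f (I i)).1) x).det| := by
  obtain ⟨f, f1, f2⟩ := onb h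
  refine ⟨f, f1, fun Φ B x hΦ h0 => ?_⟩
  choose c c1 c2 using fun i => f2 (Φ i)
  have e : (fun i => (Φ i).1) = fun i => ∑ a, c i a • (f a).1 := funext fun i => by
    rw [c1 i]
    simp
  rw [e] at h0 ⊢
  exact jac_comb _ c (fun i a => (c2 i a).trans (hΦ i)) x h0

/-- The points of the fat tubes whose short part is valid for the norm `ν` and the number `J`. -/
def FatN {N E : ℕ} (ν : PD (N + 1) E → ℝ) (t0 τ L J R ρ : ℝ) : Set (V (N + 1)) :=
  {x | ∃ a e : V N, ‖a‖ ≤ R ∧ ‖e‖ ≤ R ∧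
    (∀ (s : ℝ) (ξ : V N), t0 ≤ s → s ≤ t0 + τ → ‖ξ‖ ≤ ρ →
      ∀ F : PD (N + 1) E, |eval (pt s (a + s • e + ξ)) F.1| ≤ ν F) ∧
    (∃ (Φ : Fin (N + 1) → PD (N + 1) E) (s : ℝ) (ξ : V N), (∀ i, ν (Φ i) ≤ 1) ∧ t0 ≤ s ∧
      s ≤ t0 + τ ∧ ‖ξ‖ ≤ ρ ∧ J ≤ |(dm (fun i => (Φ i).1) (pt s (a + s • e + ξ))).det|) ∧
    ∃ (t : ℝ) (ξ : V N), |t - t0| ≤ L ∧ ‖ξ‖ ≤ ρ ∧ x = pt t (a + t • e + ξ)}

theorem fatN_sub {N E : ℕ} {ν : PD (N + 1) E → ℝ} (h : Hb ν) :
    ∃ f : Fin (Module.finrank ℝ (PD (N + 1) E)) → PD (N + 1) E, ∀ t0 τ L J R ρ : ℝ, 0 < J →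
      ∀ x ∈ FatN ν t0 τ L J R ρ, ∃ I : Fin (N + 1) → Fin (Module.finrank ℝ (PD (N + 1) E)),
        x ∈ Fat (fun i => (f (I i)).1) t0 τ L 1
          (J / (Module.finrank ℝ (PD (N + 1) E) + 1) ^ (N + 1)) R ρ := by
  obtain ⟨f, f1, f2⟩ := jb h
  refine ⟨f, ?_⟩
  rintro t0 τ L J R ρ J0 x ⟨a, e, ha, he, h1, ⟨Φ, s, ξ, p1, s0, s1, hξ, p2⟩, h3⟩
  obtain ⟨I, hI⟩ := f2 Φ 1 _ p1 (abs_pos.1 (J0.trans_le p2))
  refine ⟨I, a, e, ha, he, fun s ξ s0 s1 hξ i => (h1 s ξ s0 s1 hξ _).trans_eq (f1 _),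
    ⟨s, ξ, s0, s1, hξ, ?_⟩, h3⟩
  rw [div_le_iff₀' (by positivity)]
  refine (p2.trans hI).trans ?_
  gcongr
  linarith

/-- The sharp count for a cell declared by a norm. -/
theorem normCnt (N D E : ℕ) : ∃ C : ℝ, 1 ≤ C ∧
    ∀ (ν : PD (N + 1) E → ℝ) (Ψ : Fin (N + 1) → MvPolynomial (Fin (N + 1)) ℝ)
      (t0 τ L J μ R ρ : ℝ) (g : ℕ), Hb ν → (∀ i, (Ψ i).totalDegree ≤ D) → 0 < τ → τ ≤ L → 0 < J →
      0 < μ → ∃ T : Finset (Z (N + 1)), (T.card : ℝ) ≤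
          C * (2 ^ g) ^ (N + 1) * (μ * (L / τ) ^ (N + 1) / J + 1 / 2 ^ g) ∧
        ∀ x ∈ FatN ν t0 τ L J R ρ, (∀ i, |eval x (Ψ i)| ≤ 1) → |(dm Ψ x).det| ≤ μ →
          fl g (fun i => eval x (Ψ i)) ∈ T := by
  classical
  obtain ⟨C, C1, hC⟩ := fatCnt0 N (D + E)
  obtain ⟨K, hK⟩ : ∃ K : ℝ, K = (Module.finrank ℝ (PD (N + 1) E) + 1) ^ (N + 1) := ⟨_, rfl⟩
  have K1 : 1 ≤ K := hK ▸ one_le_pow₀ (le_add_of_nonneg_left (Nat.cast_nonneg _))
  refine ⟨K * (C * K), one_le_mul_of_one_le_of_one_le K1 (one_le_mul_of_one_le_of_one_le C1 K1),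
    fun ν Ψ t0 τ L J μ R ρ g hν hΨ τ0 τL J0 μ0 => ?_⟩
  have L0 : 0 < L := τ0.trans_le τL
  obtain ⟨f, hf⟩ := fatN_sub hν
  rw [← hK] at hf
  choose T hT hT' using fun I : Fin (N + 1) → Fin (Module.finrank ℝ (PD (N + 1) E)) =>
    hC (fun i => (f (I i)).1) Ψ t0 τ L 1 (J / K) μ R ρ g
      (fun i => (deg_PD _).trans (by omega)) (fun i => (hΨ i).trans (by omega)) τ0 τL one_pos
      (by positivity) μ0
  refine ⟨univ.biUnion T, ?_, fun x hx x1 x2 => ?_⟩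
  · calc _ ≤ ∑ I, ((T I).card : ℝ) := by exact_mod_cast card_biUnion_le
      _ ≤ _ := sum_le_card_nsmul _ _ _ fun I _ => hT I
      _ ≤ K * (C * (2 ^ g) ^ (N + 1) * (K * (μ * (L / τ) ^ (N + 1) / J + 1 / 2 ^ g))) := by
          rw [card_univ, Fintype.card_fun, Fintype.card_fin, Fintype.card_fin, nsmul_eq_mul,
            Nat.cast_pow]
          have k2 : (0 : ℝ) ≤ 1 / 2 ^ g := by positivity
          have k3 : (0 : ℝ) ≤ C := by linarith
          have e : μ * ((L / τ) ^ (N + 1) * 1 ^ (N + 1) / (J / K)) =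
              K * (μ * (L / τ) ^ (N + 1) / J) := by
            rw [one_pow]
            field_simp
          rw [e, mul_add K]
          gcongr
          · rw [hK]
            gcongr
            linarith
          · exact le_mul_of_one_le_left k2 K1
      _ = _ := by ring
  · obtain ⟨I, hI⟩ := hf t0 τ L J R ρ J0 x hx
    exact mem_biUnion.2 ⟨I, mem_univ _, hT' I x hI x1 x2⟩

/-- The entropy form: all data are read from the context `G`. -/
theorem chCnt (N D E : ℕ) : ∃ C : ℝ, 0 ≤ C ∧ ∀ {Ω β : Type} (P : FP Ω) (G : Ω → β)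
    (ν : β → PD (N + 1) E → ℝ) (Ψ : β → Fin (N + 1) → MvPolynomial (Fin (N + 1)) ℝ)
    (t0 τ L J μ R ρ : β → ℝ) (g : β → ℕ) (x : Ω → V (N + 1)),
    (∀ ω ∈ P.S, Hb (ν (G ω)) ∧ (∀ i, (Ψ (G ω) i).totalDegree ≤ D) ∧ 0 < τ (G ω) ∧
      τ (G ω) ≤ L (G ω) ∧ 0 < J (G ω) ∧ 0 < μ (G ω) ∧ J (G ω) ≤ 2 ^ g (G ω) * μ (G ω) ∧
      x ω ∈ FatN (ν (G ω)) (t0 (G ω)) (τ (G ω)) (L (G ω)) (J (G ω)) (R (G ω)) (ρ (G ω)) ∧
      (∀ i, |eval (x ω) (Ψ (G ω) i)| ≤ 1) ∧ |(dm (Ψ (G ω)) (x ω)).det| ≤ μ (G ω)) →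
    ch P (fun ω => fl (g (G ω)) fun i => eval (x ω) (Ψ (G ω) i)) G ≤
      C + P.E fun ω => (N + 1) * (g (G ω) * lg + Real.log (L (G ω) / τ (G ω))) +
        Real.log (μ (G ω)) - Real.log (J (G ω)) := by
  obtain ⟨C, C1, hC⟩ := normCnt N D E
  refine ⟨Real.log (2 * C), Real.log_nonneg (by linarith),
    fun P G ν Ψ t0 τ L J μ R ρ g x h => ?_⟩
  refine (ch_detE (fun ω => 2 * C * (2 ^ g (G ω)) ^ (N + 1) *
    (μ (G ω) * (L (G ω) / τ (G ω)) ^ (N + 1) / J (G ω))) (fun a _ b _ e => by simp only [e])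
    fun a ha => ?_).trans ?_
  · obtain ⟨h1, h2, h3, h4, h5, h6, h7, -⟩ := h a ha
    obtain ⟨T, hT, hT'⟩ := hC _ _ (t0 (G a)) _ _ _ _ (R (G a)) (ρ (G a)) (g (G a)) h1 h2 h3 h4 h5 h6
    refine ⟨T, hT.trans ?_, fun b hb e => ?_⟩
    · have k1 : 1 / 2 ^ g (G a) ≤ μ (G a) * (L (G a) / τ (G a)) ^ (N + 1) / J (G a) := by
        rw [div_le_div_iff₀ (by positivity) h5, one_mul]
        refine h7.trans ?_
        rw [mul_comm]
        gcongr
        exact le_mul_of_one_le_right h6.le (one_le_pow₀ ((one_le_div h3).2 h4))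
      have k2 : 0 ≤ C * (2 ^ g (G a)) ^ (N + 1) := by positivity
      nlinarith [mul_le_mul_of_nonneg_left k1 k2]
    · obtain ⟨-, -, -, -, -, -, -, b1, b2, b3⟩ := h b hb
      rw [e] at b1 b2 b3 ⊢
      exact hT' _ b1 b2 b3
  · rw [← P.E_const (Real.log (2 * C)), ← FP.E_add]
    refine P.E_mono fun ω hω => le_of_eq ?_
    obtain ⟨-, -, h3, h4, h5, h6, -⟩ := h ω hω
    have k : 0 < L (G ω) / τ (G ω) := div_pos (h3.trans_le h4) h3
    rw [Real.log_mul (by positivity) (by positivity), Real.log_mul (by positivity) (by positivity),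
      Real.log_div (by positivity) h5.ne', Real.log_mul h6.ne' (by positivity), Real.log_pow,
      Real.log_pow, Real.log_pow, lg]
    push_cast
    ring

end Pool.Agent.MP_5168f5_an.QA
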