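import Pool.Agent.MP_5168f5_an.AN.Spec

/-! The maximal estimate in all dimensions: the finite form of the set theorem. -/

namespace Pool.Agent.MP_5168f5_an.QA

open H19 H17S H17F R4 AN Filter MvPolynomial
open AN.Pk (cn)
open AN.Nc (Pl ev jac)

/-- A frame and the logarithm of a lower bound for its Jacobian. -/
abbrev Dat (d : ℕ) : Type := (Fin d → Pl d) × ℝ

/-- The frame is bounded on the shifted image of `Ψ` and has a large Jacobian at `p`. -/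
def QV {d k : ℕ} (D : ℕ) (B : ℝ) (c : V d) (Ψ : Fin d → Pl k) (p : V k) (K : Dat d) : Prop :=
  (∀ i, (K.1 i).totalDegree ≤ D) ∧ (∀ q : V k, ‖q‖ ≤ 1 → ‖ev K.1 (ev Ψ q + c)‖ ≤ B) ∧
    Real.exp K.2 ≤ |eval (ev Ψ p + c) (jac K.1)|

/-- The finite form of the set theorem. -/
def QFin : Prop := ∀ d k D : ℕ, ∃ D' : ℕ, ∀ ε : ℝ, 0 < ε → ∃ R : ℕ, ∀ g : ℕ, R ≤ g →
  ∀ (Ω : Type) (P : FP Ω) (Ψ : Ω → Fin d → Pl k) (p : Ω → V k),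
  (∀ ω ∈ P.S, (∀ i, (Ψ ω i).totalDegree ≤ D ∧ cn (Ψ ω i) ≤ Real.exp (g / R)) ∧ ‖p ω‖ ≤ 1) →
  (∀ j ≤ R * g, Dens P p Ψ j (fun _ => True) (Real.exp (g / R))) →
  ∃ (c : V d) (K : Ω → Dat d), ‖c‖ ≤ 1 / 2 ^ g ∧
    (∀ ω ∈ P.S, QV D' (Real.exp (ε * g)) c (Ψ ω) (p ω) (K ω)) ∧
    hh P K + d * g * lg ≤
      hh P (fun ω => fl g (ev (Ψ ω) (p ω))) + P.E (fun ω => (K ω).2) + ε * g

/-- The same in a context that declares the depth. -/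
def QFinC : Prop := ∀ d k D : ℕ, ∃ D' : ℕ, ∀ ε : ℝ, 0 < ε → ∃ R : ℕ,
  ∀ (Ω Λ β : Type) (P : FP Ω) (T : Ω → Λ) (g : Λ → ℕ) (Z : Ω → β) (Ψ : Ω → Fin d → Pl k)
    (p : Ω → V k), Fn P T Z → Fn P Ψ Z →
  (∀ ω ∈ P.S, R ≤ g (T ω) ∧ ‖p ω‖ ≤ 1 ∧
    (∀ i, (Ψ ω i).totalDegree ≤ D ∧ cn (Ψ ω i) ≤ Real.exp (g (T ω) / R)) ∧
    ∀ j ≤ R * g (T ω), ∀ c, pb (cv P Z (Z ω)) (fun v => fl j (p v) = c) ≤
      Real.exp (g (T ω) / R) / (2 ^ j) ^ k) →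
  ∃ (c : Λ → V d) (K : Ω → Dat d), (∀ a, ‖c a‖ ≤ 1 / 2 ^ g a) ∧
    (∀ ω ∈ P.S, QV D' (Real.exp (ε * g (T ω))) (c (T ω)) (Ψ ω) (p ω) (K ω)) ∧
    ch P K T + P.E (fun ω => d * g (T ω) * lg) ≤
      ch P (fun ω => fl (g (T ω)) (ev (Ψ ω) (p ω))) T + P.E (fun ω => (K ω).2) +
        ε * P.E fun ω => g (T ω)

/-- The entropy of `K` against the entropy of `Y` and the weight. -/
noncomputable def Fv {W α δ : Type} (Q : FP W) (Y : W → α) (w : δ → ℝ) (K : W → δ) : ℝ :=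
  hh Q K - hh Q Y - Q.E fun v => w (K v)

/-- Exhaustion by slowly shrinking events. -/
def QEx : Prop := ∀ {W α : ℕ → Type} {δ : Type} (P : ∀ n, FP (W n)) (M : ℕ → ℕ)
  (Y : ∀ n, W n → α n) (w : δ → ℝ) (ok : ∀ n, W n → δ → Prop) (k₀ : δ) (c : ℝ), Big M → 0 ≤ c →
  w k₀ = 0 → (∀ᶠ n in UF, ∀ v ∈ (P n).S, ok n v k₀) →
  (∀ E : ∀ n, W n → Prop, Pos P E → ∀ L : ℕ → ℝ, Tendsto L UF atTop → ∀ ε : ℝ, 0 < ε →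
    ∀ᶠ n in UF, ∃ (G : W n → Prop) (K : W n → δ), 1 ≤ L n * pb (cE (P n) (E n)) G ∧
      (∀ v ∈ (cE (cE (P n) (E n)) G).S, ok n v (K v)) ∧
      Fv (cE (cE (P n) (E n)) G) (Y n) w K + c * M n ≤ ε * M n) →
  ∀ ε : ℝ, 0 < ε → ∀ᶠ n in UF, ∃ K : W n → δ, (∀ v ∈ (P n).S, ok n v (K v)) ∧
    Fv (P n) (Y n) w K + c * M n ≤ ε * M n

/-- Fix the coins. -/
def QDer : Prop := ∀ {Ω U δ : Type} (P : FP Ω) (Q : FP U) (w : δ → ℝ) (K : Ω × U → δ),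
  ∃ u ∈ Q.S, hh P (fun ω => K (ω, u)) - P.E (fun ω => w (K (ω, u))) ≤
    hh (prod P Q) K - (prod P Q).E fun v => w (K v)

/-- One piece. -/
def QPc : Prop := ∀ d k D : ℕ, THM d 0 → ∃ D' : ℕ, 1 ≤ D' ∧ ∀ {Ω : ℕ → Type}
  (P : ∀ n, FP (Ω n)) (M J : ℕ → ℕ) (Ψ : ∀ n, Ω n → Fin d → Pl k) (p : ∀ n, Ω n → V k)
  (Γ : ℕ → ℝ) (ε₀ : ℝ), 0 < ε₀ → Big M → Fine M J → Sub M Γ →
  (∀ᶠ n in UF, ∀ ω ∈ (P n).S, (∀ i, (Ψ n ω i).totalDegree ≤ D ∧ cn (Ψ n ω i) ≤ Γ n) ∧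
    ‖p n ω‖ ≤ 1) → Full P M p Ψ →
  ∀ E : ∀ n, NΩ Ω d J n → Prop, Pos (NP P d J) E → ∀ L : ℕ → ℝ,
  Tendsto L UF atTop → ∀ ε : ℝ, 0 < ε → ∀ᶠ n in UF,
    ∃ (G : NΩ Ω d J n → Prop) (K : NΩ Ω d J n → Dat d),
      1 ≤ L n * pb (cE (NP P d J n) (E n)) G ∧
      (∀ v ∈ (cE (cE (NP P d J n) (E n)) G).S, QV D' (Real.exp (ε₀ * M n))
        (((2 : ℝ) ^ M n)⁻¹ • gp v.2) (Ψ n v.1) (p n v.1) (K v)) ∧
      Fv (cE (cE (NP P d J n) (E n)) G)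
        (fun v => fl (M n) (ev (Ψ n v.1) (p n v.1) + ((2 : ℝ) ^ M n)⁻¹ • gp v.2)) Prod.snd K +
        d * lg * M n ≤ ε * M n

def OfQFin : Prop := (∀ d, THM d 0) → QEx → QDer → QPc → QFin
def OfQFinC : Prop := QFin → QFinC

end Pool.Agent.MP_5168f5_an.QA
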