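import Pool.Agent.MP_5168f5_an.QA.Defs
import Pool.Agent.MP_5168f5_an.QA.QSpec
import Pool.Agent.MP_5168f5_an.QA.NormCnt

/-! The maximal estimate in all dimensions: filling, tightness, no leak. -/

namespace Pool.Agent.MP_5168f5_an.QA

open H19 H17S H17F R4 AN Filter MvPolynomial
open C1 (Hb)
open En (tb)
open Nc (Pl)
open K31 (Dn)

section One

variable {N D : ℕ} {Ω β : Type}

/-- The point of the tube over the interval of level `c` with the parameter `q`. -/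
noncomputable def vq (g : Sh N Ω) (M c : ℕ) (q : Ω → V (N + 1)) (ω : Ω) : V (N + 1) :=
  tb M (g.a ω) (g.e ω) ((fl1 c (g.z ω) + q ω 0) / 2 ^ c) fun i => q ω i.succ

/-- The parameter lies in the unit cube and is almost uniform given `Z`. -/
def Spr (P : FP Ω) (q : Ω → V (N + 1)) (Z : Ω → β) (R : ℕ) (m : Ω → ℕ) : Prop :=
  ∀ ω ∈ P.S, (∀ i, 0 ≤ q ω i ∧ q ω i ≤ 1) ∧ R ≤ m ω ∧ ∀ j ≤ R * m ω, ∀ cc,
    pb (cv P Z (Z ω)) (fun v => fl j (q v) = cc) ≤ Real.exp (m ω / R) / (2 ^ j) ^ (N + 1)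

/-- `ν'` is thinner than `ν` by `r` in some direction. -/
def Thin (ν ν' : VD N D → ℝ) (r : ℝ) : Prop :=
  r ≤ 0 ∨ ∃ F : VD N D, F ≠ 0 ∧ Real.exp r * ν' F ≤ ν F

/-- `ν'` refines `ν`. -/
def Rf (ν ν' : VD N D → ℝ) : Prop := ∀ F, ν' F ≤ 2 ^ (N + 3) * ν F

/-- A refinement pays for a larger Jacobian and for thin directions. -/
def OpG (κ : ℝ) (P : FP Ω) (g : Sh N Ω) (M c : ℕ) (S : Ω → Dc N D) (e : ℝ) : Prop :=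
  ∀ (W : Type) (Q : FP W) (π : W → Ω) (b : ℝ) (K : W → Dc N D) (r : W → ℝ), Dn b Q π P →
    Val Q (g.pull π) M c K →
    (∀ v ∈ Q.S, Rf (S (π v)).ν (K v).ν ∧ Thin (S (π v)).ν (K v).ν (r v)) →
    Q.E (fun v => Real.log (K v).J - Real.log (S (π v)).J + κ * r v) ≤
      ch Q K (fun v => S (π v)) + Real.log b + e

open Classical in
/-- An orthonormal basis. -/
noncomputable def bs (ν : VD N D → ℝ) : Fin (dV N D) → VD N D :=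
  if h : Hb ν then (onb h).choose else 0

/-- The cell of depth `m` of the values of all polynomials at `y`. -/
noncomputable def vc (ν : VD N D → ℝ) (m : ℕ) (y : V (N + 1)) : Z (dV N D) :=
  fl m fun a => eval y (bs ν a).1

/-- A low chart shows the Jacobian up to `exp m`, and no chart shows more than `exp m` times it. -/
def Dc.Ti (δ : Dc N D) (D₀ M c : ℕ) (l : Ln N) (Φ : Ch N D) (m : ℝ) : Prop :=
  Lo D₀ Φ ∧ Un δ.ν Φ ∧ (∃ y ∈ seg M c l δ.h 4, δ.J ≤ Real.exp m * jc Φ y) ∧ δ.Tight M c l m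

end One

/-- Optimal labels of one level in the unit `u`. -/
structure O1 {N D : ℕ} {Ω : ℕ → Type} (κ : ℝ) (P : ∀ n, FP (Ω n)) (g : ∀ n, Sh N (Ω n))
    (M c u : ℕ → ℕ) (S : ∀ n, Ω n → Dc N D) : Prop where
  pos : 0 < κ
  big : Big u
  box : ∀ᶠ n in UF, (g n).Box (P n)
  val : ∀ᶠ n in UF, Val (P n) (g n) (M n) (c n) (S n)
  opt : ∀ ε : ℝ, 0 < ε → ∀ᶠ n in UF, OpG κ (P n) (g n) (M n) (c n) (S n) (ε * u n)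

/-- Filling. -/
def Fil (N D₀ E₀ D : ℕ) : Prop := ∀ ε : ℝ, 0 < ε → ∃ R : ℕ, ∀ (Ω Λ : Type) (P : FP Ω) (g : Sh N Ω)
  (M c : ℕ) (T : Ω → Λ) (A : Ω → Dc N D) (Φ : Ω → Ch N D) (m : Ω → ℕ) (q : Ω → V (N + 1)),
  g.Box P → Fn P (fun ω => (A ω, Φ ω, m ω)) T → Val P g M c A →
  (∀ ω ∈ P.S, Lo D₀ (Φ ω) ∧ (A ω).Wit M c (g.l ω) (Φ ω)) →
  Spr P q (fun ω => (g.l ω, T ω)) R m → ∃ K : Ω → Dc N D, Val P g M c K ∧
    (∀ ω ∈ P.S, (∀ F, (K ω).ν F ≤ 2 ^ (N + 1) * (A ω).ν F) ∧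
      ∃ (Φ' : Ch N D) (H : Fin (N + 1) → Pl (N + 1)), (K ω).Wit M c (g.l ω) Φ' ∧
        ∀ i, (H i).totalDegree ≤ E₀ ∧ (Φ' i).1 = aeval (fun j => (Φ ω j).1) (H i)) ∧
    ch P K T + (N + 1) * lg * P.E (fun ω => m ω) + P.E (fun ω => Real.log (A ω).J) ≤
      ch P (fun ω => fl (m ω) (uc (Φ ω) (vq g M c q ω))) T + P.E (fun ω => Real.log (K ω).J) +
        ε * P.E fun ω => m ω

def SFil : Prop := ∀ N D₀ : ℕ, ∃ E₀ : ℕ, ∀ D, E₀ * D₀ ≤ D → Fil N D₀ E₀ D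

/-- The reward for a thin direction beats the penalty. -/
def SGain : Prop := ∀ N D : ℕ, ∃ C : ℝ, 0 ≤ C ∧ ∀ (η θ : ℝ) (ν ν' : VD N D → ℝ) (r : ℝ), 0 < η →
  η ≤ 1 → 0 ≤ θ → θ ≤ 1 → 2 * (dV N D + 1) * θ ≤ η ^ dV N D → Hb ν → Hb ν' → Rf ν ν' →
  Thin ν ν' r → Psi η ν + η ^ dV N D / 2 * r + θ * dsp ν' ν ≤ Psi η ν' + C

/-- From the least cost to the price of refinements. -/
def SOpG : Prop := ∀ N D : ℕ, ∃ C : ℝ, 0 ≤ C ∧ ∀ (η θ : ℝ) (Ω : Type) (P : FP Ω) (g : Sh N Ω)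
  (M c : ℕ) (S : Ω → Dc N D) (e : ℝ), 0 < η → η ≤ 1 → 0 ≤ θ → θ ≤ 1 →
  2 * (dV N D + 1) * θ ≤ η ^ dV N D → Val P g M c S → Opd η θ P g M c S e →
  OpG (η ^ dV N D / 2) P g M c S (e + C)

/-- No chart shows more than the declared Jacobian. -/
def SJV : Prop := ∀ {N D : ℕ} {Ω : ℕ → Type} (κ : ℝ) (P : ∀ n, FP (Ω n)) (g : ∀ n, Sh N (Ω n))
  (M c u : ℕ → ℕ) (S : ∀ n, Ω n → Dc N D), O1 κ P g M c u S → ∃ k : ∀ n, Ω n → ℕ,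
  (∀ n, Fn (P n) (k n) fun ω => ((g n).l ω, S n ω)) ∧ (Sm u fun n => (P n).E fun ω => k n ω) ∧
    ∀ᶠ n in UF, ∀ ω ∈ (P n).S, (S n ω).Tight (M n) (c n) ((g n).l ω) (k n ω)

/-- A polynomial that is read from the label is not small on the segment. -/
def SNLV : Prop := ∀ {N D : ℕ} {Ω : ℕ → Type} (κ : ℝ) (P : ∀ n, FP (Ω n)) (g : ∀ n, Sh N (Ω n))
  (M c u : ℕ → ℕ) (S : ∀ n, Ω n → Dc N D) (F : ∀ n, Ω n → VD N D), O1 κ P g M c u S →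
  (Sm u fun n => ch (P n) (F n) (S n)) → ∀ ε : ℝ, 0 < ε → Whp P fun n ω =>
    ∃ y ∈ seg (M n) (c n) ((g n).l ω) (S n ω).h 4,
      (S n ω).ν (F n ω) ≤ Real.exp (ε * u n) * |eval y (F n ω).1|

/-- Low charts cannot miss the Jacobian by one unit. -/
def TiC (N D₀ D : ℕ) : Prop := ∀ {Ω : ℕ → Type} (κ : ℝ) (P : ∀ n, FP (Ω n)) (g : ∀ n, Sh N (Ω n))
  (M c u : ℕ → ℕ) (S : ∀ n, Ω n → Dc N D), O1 κ P g M c u S →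
  (∀ᶠ n in UF, ∀ ω ∈ (P n).S, (∃ Φ, Lo D₀ Φ ∧ Un (S n ω).ν Φ ∧
      ∃ y ∈ seg (M n) (c n) ((g n).l ω) (S n ω).h 4, (S n ω).J ≤ Real.exp (2 * u n) * jc Φ y) ∧
    ∀ Φ, Lo D₀ Φ → Un (S n ω).ν Φ → ∀ y ∈ seg (M n) (c n) ((g n).l ω) (S n ω).h 4,
      Real.exp (u n) * jc Φ y ≤ (S n ω).J) → False

/-- Tightness in the mean. -/
def Ti (N D₀ D : ℕ) : Prop := ∀ {Ω : ℕ → Type} (κ : ℝ) (P : ∀ n, FP (Ω n)) (g : ∀ n, Sh N (Ω n))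
  (M c u : ℕ → ℕ) (S : ∀ n, Ω n → Dc N D), O1 κ P g M c u S →
  ∃ (Φ : ∀ n, Ω n → Ch N D) (m : ∀ n, Ω n → ℕ),
    (∀ n, Fn (P n) (fun ω => (Φ n ω, m n ω)) fun ω => ((g n).l ω, S n ω)) ∧
    (Sm u fun n => (P n).E fun ω => m n ω) ∧
    (Sm u fun n => ch (P n) (fun ω => (Φ n ω, m n ω)) (S n)) ∧
    ∀ᶠ n in UF, ∀ ω ∈ (P n).S, (S n ω).Ti D₀ (M n) (c n) ((g n).l ω) (Φ n ω) (m n ω)

/-- No leak: what the label and the cell of the virtual point know, the label knows. -/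
def ZL (N D : ℕ) : Prop := ∀ {Ω α : ℕ → Type} (κ : ℝ) (P : ∀ n, FP (Ω n)) (g : ∀ n, Sh N (Ω n))
  (M c u J : ℕ → ℕ) (S : ∀ n, Ω n → Dc N D) (Ξ : ∀ n, Ω n → α n) (R : ℕ), O1 κ P g M c u S →
  Fine u J → (Sm u fun n => ch (NQ (P n) N (J n)) (fun v => Ξ n v.1) fun v =>
    (S n v.1, vc (S n v.1).ν (R * u n) (vp (g n) (M n) (c n) (J n) v))) →
  Sm u fun n => ch (P n) (Ξ n) (S n)

def OfTiC : Prop := SFil → SJV → ∀ N, ∃ D₀ D₁ : ℕ, 1 ≤ D₀ ∧ D₀ ≤ D₁ ∧ ∀ D, D₁ ≤ D → TiC N D₀ D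
def OfTi : Prop := SJV → ∀ N D₀ D, 1 ≤ D₀ → D₀ ≤ D → TiC N D₀ D → Ti N D₀ D
def OfZL : Prop := ∀ N D₀ E₀ D, Fil N D₀ E₀ D → Ti N D₀ D → ZL N D
def OfFil : Prop := QFinC → SFil
def OfOpG : Prop := SGain → SOpG

/-- The block. -/
def BlkF : Prop := ∀ N, ∃ D₀ E₀ D₁ : ℕ, 1 ≤ D₀ ∧ D₀ ≤ D₁ ∧ ∀ D, D₁ ≤ D →
  Fil N D₀ E₀ D ∧ Ti N D₀ D ∧ ZL N D

end Pool.Agent.MP_5168f5_an.QA
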