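import Pool.Agent.MP_5168f5_an.QA.FillB
import Pool.Agent.MP_5168f5_an.QA.SpecF

/-! The filling lemma for labels. -/

namespace Pool.Agent.MP_5168f5_an.QA

open H19 H17S H17F R4 AN MvPolynomial Finset FL
open C1 (PD Hb)
open Nc (Pl ev jac kc eval_aeval deg_jac)

theorem aeval_cmp {n : ℕ} (Θ u : Fin n → Pl n) (c : V n) (i : Fin n) :
    aeval u (cmp Θ X c i) = cmp Θ u c i := by
  unfold cmp
  rw [← AlgHom.comp_apply, comp_aeval]
  simp

theorem spr_pr {W : Type} {N R R' m j : ℕ} (Q : FP W) {q : W → V (N + 1)}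
    (h1 : 2 * R' * (1 + ⌈(N + 1 : ℕ) * Real.log 13⌉₊) ≤ R) (h2 : R ≤ m) (hj : j ≤ R' * m)
    (h : ∀ j ≤ R * m, ∀ c, pb Q (fun v => fl j (q v) = c) ≤ Real.exp (m / R) / (2 ^ j) ^ (N + 1))
    (c : Z (N + 1)) :
    pb Q (fun v => fl j (pr (q v)) = c) ≤ Real.exp (m / R') / (2 ^ j) ^ (N + 1) := by
  rcases R'.eq_zero_or_pos with rfl | R0
  · obtain rfl : j = 0 := by omega
    simpa using pb_le_one _ _
  have a : 2 * R' ≤ R := le_trans (Nat.le_mul_of_pos_right _ (by omega)) h1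
  refine (pb_pr Q (by positivity) (h j (hj.trans (Nat.mul_le_mul_right _ (by omega)))) c).trans ?_
  rw [← mul_div_assoc]
  refine div_le_div_of_nonneg_right ?_ (by positivity)
  have r : (0 : ℝ) < R' := by exact_mod_cast R0
  have b : (m : ℝ) / R ≤ m / (2 * R') :=
    div_le_div_of_nonneg_left (Nat.cast_nonneg _) (by positivity) (by exact_mod_cast a)
  have d : (N + 1 : ℕ) * Real.log 13 ≤ m / (2 * R') := by
    have e : (2 * R' * (1 + ⌈(N + 1 : ℕ) * Real.log 13⌉₊) : ℝ) ≤ m := by exact_mod_cast h1.trans h2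
    rw [le_div_iff₀ (by positivity)]
    nlinarith [Nat.le_ceil ((N + 1 : ℕ) * Real.log 13)]
  rw [← Real.exp_log (show (0 : ℝ) < 13 by norm_num), ← Real.exp_nat_mul, ← Real.exp_add,
    Real.exp_le_exp, show (m : ℝ) / R' = m / (2 * R') + m / (2 * R') by field_simp; ring]
  linarith

theorem ofFil : OfFil := by
  intro qc N E
  obtain ⟨D', h⟩ := fillA qc (N + 1) (N + 1) E 1
  refine ⟨D', fun D hD ε hε => ?_⟩
  obtain ⟨R, h⟩ := h (ε / 2) (half_pos hε)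
  obtain ⟨B, B1, hB⟩ := shrink (N + 1) ((N + 1) * (D' * E) * 1)
  obtain ⟨f, hf⟩ := cutc N D
  obtain ⟨r, hr⟩ : ∃ r : ℝ, r = 2 ^ (N + 1) := ⟨_, rfl⟩
  have r0 : 0 < r := by rw [hr]; positivity
  have b0 : 0 < B * r ^ (N + 1) := by positivity
  refine ⟨2 * R * (1 + ⌈(N + 1 : ℕ) * Real.log 13⌉₊) + ⌈Real.log (B * r ^ (N + 1)) / (ε / 2)⌉₊,
    fun Ω Λ P g M c T A Φ m q _ fn val H sp => ?_⟩
  have fT : Fn P (fun ω => (T ω, A ω, Φ ω, m ω)) T := (Fn.rfl T).pair fn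
  obtain ⟨s, K, -, k1, k2⟩ := h Ω (Λ × Dc N D × Ch N D × ℕ) _ P (fun ω => (T ω, A ω, Φ ω, m ω))
    (fun ω => (g.l ω, T ω)) (fun a => a.2.2.2) (fun a i => (a.2.2.1 i).1) (fun a => a.2.1.J)
    (fun ω => bx M c (g.l ω) (A ω).h) (fun ω => pr (q ω))
    (fun a ha b hb e => fT a ha b hb (Prod.mk.inj e).2)
    (fun a ha b hb e => by
      simp only [(Prod.mk.inj e).1, (Prod.mk.inj (fn a ha b hb (Prod.mk.inj e).2)).1])
    fun ω hω => by
      obtain ⟨a1, a2, a3⟩ := sp ω hω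
      obtain ⟨b1, b2, y, b3, b4⟩ := H ω hω
      obtain ⟨x, x1, rfl⟩ := bx_onto (BdA.seg_mono (by norm_num) b3)
      refine ⟨le_trans (le_add_right (by rw [mul_add]; omega)) a2,
        norm_pr (a1 0).1 (a1 0).2 fun i => abs_le.2 ⟨by linarith [(a1 i.succ).1],
          by linarith [(a1 i.succ).2]⟩, b1, deg_bx, fun x hx => ?_, ⟨x, x1, b4⟩,
        fun j hj => spr_pr _ (Nat.le_add_right _ _) a2 hj a3⟩
      exact (pi_norm_le_iff_of_nonneg zero_le_one).2 fun i =>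
        ((val ω hω).2.bd _ (bx_mem5 hx) _).trans (b2 i)
  obtain ⟨Ψ, hΨ⟩ : ∃ Ψ : Ω → Ch N D, Ψ = fun ω i =>
    toV D (cmp (K ω).1 (fun j => (Φ ω j).1) (s (T ω, A ω, Φ ω, m ω)) i) := ⟨_, rfl⟩
  have e1 : ∀ ω ∈ P.S, (fun i => (Ψ ω i).1) =
      cmp (K ω).1 (fun j => (Φ ω j).1) (s (T ω, A ω, Φ ω, m ω)) := fun ω hω => funext fun i => by
    rw [hΨ]
    exact toV_val ((deg_cmp _ (H ω hω).1 (k1 ω hω).deg i).trans hD)
  have w : ∀ ω ∈ P.S, (⟨f (A ω).ν (Ψ ω), Real.exp (K ω).2 * (A ω).J / (B * r ^ (N + 1)),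
      (A ω).h⟩ : Dc N D).Wit M c (g.l ω) fun i => r⁻¹ • Ψ ω i := fun ω hω => by
    obtain ⟨f1, -, f3, -⟩ := hf _ (Ψ ω) (val ω hω).2.hb
    obtain ⟨x, x1, x2⟩ := (k1 ω hω).jc
    obtain ⟨y, y1, y2⟩ := hB (aeval (bx M c (g.l ω) (A ω).h) (jac _)) x
      (kc.deg _ _ _ _ (deg_jac (deg_cmp (s (T ω, A ω, Φ ω, m ω)) (H ω hω).1 (k1 ω hω).deg)) deg_bx) x1
    rw [eval_aeval, eval_aeval] at y2
    refine ⟨fun i => (f1.smul _ _).trans_le ?_, ev (bx M c (g.l ω) (A ω).h) y,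
      BdA.seg_mono (by norm_num) (bx_mem y1 (by norm_num)), ?_⟩
    · rw [abs_of_pos (inv_pos.2 r0), inv_mul_le_iff₀ r0, mul_one, hr]
      exact f3 i
    · have e2 : (fun i => (r⁻¹ • Ψ ω i).1) = fun i => C r⁻¹ * (fun i => (Ψ ω i).1) i :=
        funext fun i => C_mul'.symm
      rw [jc, e2, Vo.alg.scl _ fun _ => r⁻¹, e1 ω hω, map_mul, eval_C, prod_const, card_univ,
        Fintype.card_fin, abs_mul, abs_of_pos (by positivity), div_le_iff₀ b0]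
      refine (x2.trans y2).trans_eq ?_
      rw [inv_pow]
      field_simp
  refine ⟨fun ω => ⟨f (A ω).ν (Ψ ω), Real.exp (K ω).2 * (A ω).J / (B * r ^ (N + 1)), (A ω).h⟩,
    fun ω hω => ?_, fun ω hω => ⟨(hf _ _ (val ω hω).2.hb).2.1, _,
      fun i => C r⁻¹ * cmp (K ω).1 X (s (T ω, A ω, Φ ω, m ω)) i, w ω hω, fun i => ⟨?_, ?_⟩⟩, ?_⟩
  · obtain ⟨f1, -, -, f4⟩ := hf _ (Ψ ω) (val ω hω).2.hb
    have := (val ω hω).2.pos
    refine ⟨(val ω hω).1, f1, by positivity, fun y hy => f4 y ((val ω hω).2.bd y hy) ?_, _, w ω hω⟩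
    obtain ⟨x, x1, rfl⟩ := bx_onto hy
    rw [uc, e1 ω hω, ev_cmp]
    exact (k1 ω hω).bd x x1
  · have := deg_cmp (s (T ω, A ω, Φ ω, m ω)) (fun j => (totalDegree_X (R := ℝ) j).le)
      (k1 ω hω).deg i
    exact (totalDegree_mul _ _).trans (by rw [totalDegree_C]; omega)
  · rw [map_mul, aeval_cmp, aeval_C, ← e1 ω hω]
    exact C_mul'.symm
  · have a1 := ch_mono (P := P) (G := T) (F' := K) (F := fun ω => (⟨f (A ω).ν (Ψ ω),
        Real.exp (K ω).2 * (A ω).J / (B * r ^ (N + 1)), (A ω).h⟩ : Dc N D)) fun a ha b hb e => by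
      have := Prod.mk.inj (fn a ha b hb (Prod.mk.inj e).2)
      simp only [hΨ, (Prod.mk.inj e).1, (Prod.mk.inj e).2, this.1, (Prod.mk.inj this.2).1,
        (Prod.mk.inj this.2).2]
    have a2 : ch P K T ≤ ch P K fun ω => (T ω, A ω, Φ ω, m ω) := ch_anti fT
    have a3 : ch P (fun ω => fl (m ω) (ev (fun j => (Φ ω j).1)
        (ev (bx M c (g.l ω) (A ω).h) (pr (q ω))))) (fun ω => (T ω, A ω, Φ ω, m ω)) ≤
        ch P (fun ω => fl (m ω) (uc (Φ ω) (vq g M c q ω))) T :=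
      (ch_anti (Fn.fst _ _)).trans_eq (ch_ext (fun ω hω => by
        rw [ev_pr, (val ω hω).1]; rfl) fun _ _ => rfl)
    have a4 : P.E (fun ω => (K ω).2 + Real.log (A ω).J) ≤ P.E fun ω =>
        Real.log (Real.exp (K ω).2 * (A ω).J / (B * r ^ (N + 1))) + ε / 2 * m ω :=
      FP.E_mono _ fun ω hω => by
      have := (val ω hω).2.pos
      have b := (div_le_iff₀ (half_pos hε)).1
        (Nat.ceil_le.1 ((Nat.le_add_left _ _).trans (sp ω hω).2.1))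
      rw [Real.log_div (by positivity) b0.ne', Real.log_mul (by positivity) this.ne', Real.log_exp]
      linarith
    have a5 : P.E (fun ω => ((N + 1 : ℕ) : ℝ) * m ω * lg) = (N + 1) * lg * P.E fun ω => m ω := by
      rw [← FP.E_mul]
      exact FP.E_congr _ fun ω _ => by push_cast; ring
    rw [FP.E_add, FP.E_add, FP.E_mul] at a4
    linarith

end Pool.Agent.MP_5168f5_an.QA
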