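import Pool.Agent.MP_5168f5_an.QA.O1Api
import Pool.Agent.MP_5168f5_an.QA.CutD

/-! The reward for a thin direction beats the penalty. -/

namespace Pool.Agent.MP_5168f5_an.QA

theorem sGain : SGain := by
  intro N D
  have c1 : (1 : ℝ) ≤ 2 ^ (N + 3) := one_le_pow₀ one_le_two
  let L : ℝ := dV N D * Real.log (2 ^ (N + 3))
  let A := Real.log (((dV N D).factorial * (dV N D + 1) : ℝ) * (2 ^ (N + 3)) ^ dV N D)
  have l0 : 0 ≤ L := mul_nonneg (Nat.cast_nonneg _) (Real.log_nonneg c1)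
  refine ⟨2 * (dV N D + 1) * L + (L + |A|), by positivity,
    fun η θ ν μ r η0 η1 θ0 _ hθ h h' e t => ?_⟩
  have d0 : (0 : ℝ) ≤ dV N D := Nat.cast_nonneg _
  have k1 := CD.psi_gain h h' c1 e η0 η1 θ0 (by nlinarith)
  have k2 : r ≤ sg (dV N D) μ - sg (dV N D) ν + (L + |A|) := by
    rcases t with t | ⟨F, F0, t⟩
    · linarith [CD.sg_ge h h' c1 e le_rfl, abs_nonneg A]
    · linarith [CD.sg_gain h h' c1 e F0 (r := r) (by
        rwa [Real.exp_neg, le_inv_mul_iff₀ (Real.exp_pos _)]), le_abs_self A]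
  have k3 : η ^ dV N D ≤ 1 := pow_le_one₀ η0.le η1
  nlinarith [mul_le_mul_of_nonneg_left k2 (by positivity : 0 ≤ η ^ dV N D / 2),
    add_nonneg l0 (abs_nonneg A)]

theorem sOpG : SOpG := ofOpG sGain

end Pool.Agent.MP_5168f5_an.QA
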