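import Pool.Agent.MP_5168f5_an.MX.Flat
import Pool.Agent.MP_5168f5_an.AN.C1Rho

/-! No jump: the entropy chain in an abstract setting. -/

namespace Pool.Agent.MP_5168f5_an.QA.NJ

open H19 H17S H17F AN.C1 Finset

variable {V : Type} [AddCommGroup V] [Module ℝ V] {n : ℕ}

/-- A chart read from the norm. -/
theorem chart (U : Submodule ℝ V) [FiniteDimensional ℝ U] {d : ℕ} (rk : Module.finrank ℝ U = d)
    (ν : V → ℝ) : ∃ f : Fin d → V, Hb ν → (∀ i, f i ∈ U ∧ ν (f i) ≤ 1) ∧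
      ∀ (m : MultilinearMap ℝ (fun _ : Fin n => V) ℝ) (u : Fin n → V) (L : ℝ), 0 ≤ L →
        (∀ i, u i ∈ U ∧ ν (u i) ≤ L) → m u ≠ 0 →
        ∃ I : Fin n → Fin d, |m u| ≤ (d * L) ^ n * |m fun i => f (I i)| := by
  classical
  by_cases h : Hb ν
  swap
  · exact ⟨0, fun k => absurd k h⟩
  let b := Module.finBasisOfFinrankEq ℝ U rk
  have li : LinearIndependent ℝ fun i => (b i : V) := b.linearIndependent.map' U.subtype U.ker_subtype
  have sp : Submodule.span ℝ (Set.range fun i => (b i : V)) = U := by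
    have := congrArg (Submodule.map U.subtype) b.span_eq
    rwa [Submodule.map_span, ← Set.range_comp, Submodule.map_top, Submodule.range_subtype] at this
  obtain ⟨e, -, -, e1, e2, -⟩ := rTwo V ν ν _ _ h h li
  rw [sp] at e1
  have sp2 : Submodule.span ℝ (Set.range e) = U :=
    Submodule.eq_of_le_of_finrank_eq (Submodule.span_le.2 (by rintro _ ⟨i, rfl⟩; exact e1 i))
      (by rw [finrank_span_eq_card (e2.li h fun _ => one_pos), rk, Fintype.card_fin])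
  refine ⟨e, fun _ => ⟨fun i => ⟨e1 i, by simpa using e2.1 i⟩, fun m u L L0 hu ne => ?_⟩⟩
  choose c hc using fun i => (Submodule.mem_span_range_iff_exists_fun ℝ).1 (sp2.ge (hu i).1)
  have k1 : m u = ∑ I : Fin n → Fin d, (∏ i, c i (I i)) * m fun i => e (I i) := by
    rw [← funext hc, m.map_sum]
    exact sum_congr rfl fun I _ => m.map_smul_univ _ _
  have : Nonempty (Fin n → Fin d) := by
    by_contra k
    rw [not_nonempty_iff] at k
    exact ne (k1.trans (by simp))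
  obtain ⟨I, -, hI⟩ := exists_max_image univ (fun I : Fin n → Fin d => |m fun i => e (I i)|)
    univ_nonempty
  refine ⟨I, ?_⟩
  rw [k1]
  refine (abs_sum_le_sum_abs _ _).trans ((sum_le_card_nsmul _ _ (L ^ n * |m fun i => e (I i)|)
    fun J _ => ?_).trans_eq (by simp [mul_pow, mul_assoc]))
  rw [abs_mul, abs_prod]
  refine mul_le_mul ((prod_le_prod (fun _ _ => abs_nonneg _) fun i _ => ?_).trans_eq
    (Fin.prod_const n L)) (hI J (mem_univ J)) (abs_nonneg _) (by positivity)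
  have := e2.2 (c i) (J i)
  rw [hc, mul_one, one_mul] at this
  exact this.trans (hu i).2

theorem hb_mul {ν : V → ℝ} (h : Hb ν) {c : ℝ} (hc : 0 < c) : Hb fun x => c * ν x := by
  obtain ⟨ι, _, A, hA, e⟩ := h
  exact ⟨ι, _, c • A, fun x y k => hA (smul_right_injective _ hc.ne' k), fun v => by
    rw [LinearMap.smul_apply, norm_smul, Real.norm_eq_abs, abs_of_pos hc, ← e]⟩

theorem bin {X : Type} (s : X → Prop) (F : X → ℝ) {B : ℝ} (hB : ∀ x, s x → F x ≤ B) {x0 : X}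
    (h0 : s x0) (p : 0 < F x0) :
    ∃ j : ℤ, (∃ x, s x ∧ Real.exp j ≤ F x) ∧ ∀ x, s x → F x ≤ Real.exp (j + 1) := by
  obtain ⟨j, h1, h2⟩ := Int.exists_greatest_of_bdd (P := fun j => ∃ x, s x ∧ Real.exp j ≤ F x)
    ⟨⌈B⌉, fun j ⟨x, hx, e⟩ => by
      have := (Real.add_one_le_exp (j : ℝ)).trans (e.trans (hB x hx))
      exact_mod_cast (show (j : ℝ) ≤ ⌈B⌉ by linarith [Int.le_ceil B])⟩
    ⟨⌊Real.log (F x0)⌋, x0, h0, (Real.exp_le_exp.2 (Int.floor_le _)).trans_eq (Real.exp_log p)⟩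
  refine ⟨j, h1, fun x hx => le_of_not_gt fun k => ?_⟩
  have := h2 (j + 1) ⟨x, hx, by push_cast; exact k.le⟩
  omega

variable {Ω γ κ X Λ Λ' : Type} {Ω' : ℕ → Type} {P : FP Ω} {m d : ℕ}

theorem hh_vec (a : Ω → Fin m → ℕ) {B : ℝ} (h : ∀ k, P.E (fun ω => (a ω k : ℝ)) ≤ B) :
    hh P a ≤ m * (2 * Real.log (B + 2)) := by
  classical
  have h1 := ch_pi_le (P := P) univ (fun k ω => a ω k) 0 fun _ => ()
  simp only [mem_univ, if_true, ch_unit] at h1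
  exact h1.trans ((sum_le_card_nsmul _ _ _ fun k _ => MX.hh_nat _ (h k)).trans_eq (by simp))

theorem hh_fin {α : Type} [Fintype α] (I : Ω → α) : hh P I ≤ Real.log (Fintype.card α) := by
  rw [← ch_unit]
  exact ch_det fun _ _ => ⟨univ, le_rfl, fun _ _ _ => mem_univ _⟩

/-- The entropy of the class `j` is paid by the gain in the declared Jacobian. -/
theorem cls {A : Ω → Λ} {J : Ω → ℝ} {j : Ω → ℤ} {g : Ω → ℕ} (hJ : Fn P J A)
    (h : ∀ ω ∈ P.S, 0 < J ω ∧ J ω ≤ Real.exp (j ω + g ω)) :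
    ch P j A - P.E (fun ω => Real.log (max (J ω) (Real.exp (j ω)))) ≤
      2 * Real.log (P.E (fun ω => (g ω : ℝ)) + 2) + 3 - P.E fun ω => Real.log (J ω) := by
  let k : Ω → ℤ := fun ω => ⌊Real.log (J ω)⌋
  have h1 : ch P j A ≤ ch P (fun ω => ((k ω - j ω).toNat, (j ω - k ω).toNat)) A :=
    ch_mono fun a ha b hb e => by
      simp only [Prod.mk.injEq] at e
      have : k a = k b := by simp only [k, hJ a ha b hb e.2]
      omega
  have h2 := MX.hh_nat (P := P) (fun ω => (k ω - j ω).toNat) (B := P.E fun ω => (g ω : ℝ))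
    (P.E_mono fun ω hω => by
      have a1 := (Int.floor_le _).trans ((Real.log_le_iff_le_exp (h ω hω).1).2 (h ω hω).2)
      have a2 : k ω ≤ j ω + g ω := by exact_mod_cast a1
      exact_mod_cast (show (k ω - j ω).toNat ≤ g ω by omega))
  have h3 := MX.hh_nat (P := P) (fun ω => (j ω - k ω).toNat) le_rfl
  have h4 : P.E (fun ω => Real.log (J ω) + ((j ω - k ω).toNat : ℝ) - 1) ≤
      P.E fun ω => Real.log (max (J ω) (Real.exp (j ω))) := P.E_mono fun ω hω => by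
    have a1 := Real.log_le_log (h ω hω).1 (le_max_left (J ω) (Real.exp (j ω)))
    have a2 := Real.log_le_log (Real.exp_pos _) (le_max_right (J ω) (Real.exp (j ω)))
    have a3 := Int.lt_floor_add_one (Real.log (J ω))
    rw [Real.log_exp] at a2
    rcases le_total (j ω - k ω) 0 with e | e
    · rw [Int.toNat_eq_zero.2 e]; push_cast; linarith
    · have a4 : (((j ω - k ω).toNat : ℤ) : ℝ) = (j ω - k ω : ℤ) := by rw [Int.toNat_of_nonneg e]
      push_cast at a4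
      rw [a4]
      simp only [k]
      linarith
  rw [P.E_sub, P.E_add, P.E_const] at h4
  have h5 := (ch_subadd (P := P) (fun ω => (k ω - j ω).toNat) (fun ω => (j ω - k ω).toNat) A).trans
    (add_le_add (ch_le_hh _ _) (ch_le_hh _ _))
  have h6 : 0 ≤ P.E fun ω => ((j ω - k ω).toNat : ℝ) := P.E_nonneg fun _ _ => Nat.cast_nonneg _
  have h7 := Real.log_le_sub_one_of_pos
    (show 0 < (P.E (fun ω => ((j ω - k ω).toNat : ℝ)) + 2) / 2 by positivity)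
  rw [Real.log_div (by positivity) two_ne_zero] at h7
  linarith [Real.log_two_lt_d9]

/-- One level: a law with a context, an extension with cubes, segments, values and Jacobians. -/
structure Lv (V : Type) [AddCommGroup V] [Module ℝ V] (n : ℕ) (Ω : Type) (Ω' : ℕ → Type)
    (γ κ X : Type) where
  P : FP Ω
  Z : Ω → γ
  Q : ∀ q, FP (Ω' q)
  π : ∀ q, Ω' q → Ω
  law : ∀ q, Law (Q q) (π q) P id
  y : ∀ q, (Fin n → V) → ℕ → Ω' q → κ
  seg : Ω → X → Prop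
  sj : Ω → X → Prop
  ev : X → V →ₗ[ℝ] ℝ
  jc : X → MultilinearMap ℝ (fun _ : Fin n => V) ℝ
  U : Submodule ℝ V
  VJ : (V → ℝ) → ℝ → Ω → Prop
  pos : ∀ ν J ω, VJ ν J ω → 0 < J
  mk' : ∀ ν J ω Φ x B, ω ∈ P.S → Hb ν → 0 < J → (∀ i, ν (Φ i) ≤ 1) → sj ω x → J ≤ |jc x Φ| →
    (∀ Φ x, (∀ i, ν (Φ i) ≤ 1) → sj ω x → |jc x Φ| ≤ B) → VJ ν J ω
  le : ∀ ν J ω B, ω ∈ P.S → Hb ν → VJ ν J ω →
    (∀ Φ x, (∀ i, ν (Φ i) ≤ 1) → sj ω x → |jc x Φ| ≤ B) → J ≤ B

namespace Lv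

variable (w : Lv V n Ω Ω' γ κ X)

/-- The norm bounds the values on the segment. -/
def Val (ν : V → ℝ) (ω : Ω) : Prop := Hb ν ∧ ∀ x, w.seg ω x → Adm ν (w.ev x)

/-- A chart of small degree and norm at most one. -/
def Ch (ν : V → ℝ) (u : Fin n → V) : Prop := ∀ i, u i ∈ w.U ∧ ν (u i) ≤ 1

/-- The cube of the chart. -/
def cb (q : ℕ) (u : Ω → Fin n → V) (g : Ω → ℕ) (v : Ω' q) : κ :=
  w.y q (u (w.π q v)) (g (w.π q v)) v

/-- The lower bound given by filling and optimality. -/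
def Low (g0 : ℕ) (s c : ℝ) (φ : (V → ℝ) → Ω → ℝ) : Prop := ∀ (Λ : Type) (A : Ω → Λ)
  (ν : Ω → V → ℝ) (u : Ω → Fin n → V) (g : Ω → ℕ) (la : Ω → ℝ),
  Fn w.P (fun ω => (ν ω, u ω, g ω, la ω)) (fun ω => (A ω, w.Z ω)) →
  (∀ ω ∈ w.P.S, w.Val (ν ω) ω ∧ w.Ch (ν ω) (u ω) ∧ g0 ≤ g ω ∧ 0 < la ω ∧
    ∃ x, w.sj ω x ∧ la ω ≤ |w.jc x (u ω)|) → ∀ᶠ q in Filter.atTop,
  c ≤ ch (w.Q q) (fun v => (A (w.π q v), w.cb q u g v)) (fun v => w.Z (w.π q v)) -
    w.P.E fun ω => s * g ω + Real.log (la ω) + φ (ν ω) ω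

/-- The upper bound given by counting. -/
def Up (s C : ℝ) : Prop := ∀ (q : ℕ) (Λ : Type) (A : Ω → Λ) (ν : Ω → V → ℝ) (J : Ω → ℝ)
  (u : Ω → Fin n → V) (g : Ω → ℕ) (La : Ω → ℝ),
  Fn w.P (fun ω => (ν ω, J ω, u ω, g ω, La ω)) (fun ω => (A ω, w.Z ω)) →
  (∀ ω ∈ w.P.S, w.Val (ν ω) ω ∧ w.VJ (ν ω) (J ω) ω ∧ w.Ch (ν ω) (u ω) ∧ 0 < La ω ∧
    (∀ x, w.sj ω x → |w.jc x (u ω)| ≤ La ω) ∧ J ω ≤ 2 ^ g ω * La ω) →
  ch (w.Q q) (w.cb q u g) (fun v => (A (w.π q v), w.Z (w.π q v))) ≤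
    w.P.E (fun ω => s * g ω + Real.log (La ω) - Real.log (J ω)) + C

/-- Charts of small degree are almost optimal. -/
def Tt (ν : V → ℝ) (G : ℝ) (ω : Ω) : Prop := 0 ≤ G ∧ ∃ u x0, (∀ i, u i ∈ w.U ∧ ν (u i) ≤ 1) ∧
  w.sj ω x0 ∧ ∀ Φ x, (∀ i, ν (Φ i) ≤ 1) → w.sj ω x → |w.jc x Φ| ≤ Real.exp G * |w.jc x0 u|

variable {w}

theorem half {s C B cL : ℝ} (up : w.Up s C) (q : ℕ) {g : Ω → ℕ} {A : Ω → Λ} {ν T : Ω → V → ℝ} {J : Ω → ℝ}
    {a : Ω → Fin m → ℕ} {I : Ω → Fin n → Fin d} {j : Ω → ℤ}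
    (f : (V → ℝ) → Fin d → V) (hA : Fn w.P (fun ω => (ν ω, J ω)) fun ω => (A ω, w.Z ω))
    (hT : ch w.P T (fun ω => (a ω, A ω, w.Z ω)) ≤ cL) (hB : w.P.E (fun ω => (g ω : ℝ)) ≤ B)
    (h : ∀ ω ∈ w.P.S, w.Val (ν ω) ω ∧ w.VJ (ν ω) (J ω) ω ∧ w.VJ (ν ω) (Real.exp (j ω)) ω ∧
      w.Ch (ν ω) (fun i => f (T ω) (I ω i)) ∧ (∀ k, a ω k ≤ g ω) ∧
      (∀ x, w.sj ω x → |w.jc x fun i => f (T ω) (I ω i)| ≤ Real.exp (j ω + 1)) ∧
      J ω ≤ 2 ^ g ω * Real.exp (j ω)) :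
    ch (w.Q q) (fun v => ((A (w.π q v), T (w.π q v), a (w.π q v), I (w.π q v), j (w.π q v), g (w.π q v)),
        w.cb q (fun ω i => f (T ω) (I ω i)) g v)) (fun v => w.Z (w.π q v)) ≤
      ch w.P A w.Z - w.P.E (fun ω => Real.log (J ω)) + w.P.E (fun ω => s * g ω + j ω) +
        (C + cL + (m + 2) * (2 * Real.log (B + 2)) + n * d + 4) := by
  have e2 : ∀ k : ℕ, (2 : ℝ) ^ k ≤ Real.exp k := fun k => by
    rw [← mul_one (k : ℝ), Real.exp_nat_mul]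
    exact pow_le_pow_left₀ two_pos.le (by linarith [Real.add_one_le_exp 1]) k
  have h1 := up q _ (fun ω => (A ω, T ω, a ω, I ω, j ω, g ω)) ν
    (fun ω => max (J ω) (Real.exp (j ω))) (fun ω i => f (T ω) (I ω i)) g
    (fun ω => Real.exp (j ω + 1)) (fun p hp q hq e => by
      simp only [Prod.mk.injEq] at e
      have := hA p hp q hq (Prod.ext e.1.1 e.2)
      simp only [Prod.mk.injEq] at this
      simp only [e, this]) fun ω hω => by
      obtain ⟨k1, k2, k3, k4, -, k7, k8⟩ := h ω hω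
      refine ⟨k1, ?_, k4, Real.exp_pos _, k7, max_le (k8.trans ?_) ?_⟩
      · rcases max_choice (J ω) (Real.exp (j ω)) with e | e <;> rwa [e]
      · exact mul_le_mul_of_nonneg_left (Real.exp_le_exp.2 (by linarith)) (by positivity)
      · exact (Real.exp_le_exp.2 (by linarith)).trans
          (le_mul_of_one_le_left (Real.exp_pos _).le (one_le_pow₀ one_le_two))
  have h2 := cls (P := w.P) (A := fun ω => (A ω, w.Z ω)) (J := J) (j := j) (g := g)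
    (fun p hp q hq e => congrArg Prod.snd (hA p hp q hq e)) fun ω hω => by
      obtain ⟨-, k2, -, -, -, -, k8⟩ := h ω hω
      refine ⟨w.pos _ _ _ k2, k8.trans ?_⟩
      rw [Real.exp_add, mul_comm]
      exact mul_le_mul_of_nonneg_left (e2 _) (Real.exp_pos _).le
  have g0' : 0 ≤ w.P.E fun ω => (g ω : ℝ) := w.P.E_nonneg fun _ _ => Nat.cast_nonneg _
  have h3 := Real.log_le_log (by positivity) (add_le_add_left hB 2)
  have h4 := hh_vec a (B := B) fun k => (w.P.E_mono fun ω hω => by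
    exact_mod_cast (h ω hω).2.2.2.2.1 k).trans hB
  have h5 := hh_fin (P := w.P) I
  have h6 := MX.hh_nat g hB
  have h7 : Real.log (Fintype.card (Fin n → Fin d)) ≤ n * d := by
    rw [Fintype.card_fun, Fintype.card_fin, Fintype.card_fin, Nat.cast_pow, Real.log_pow]
    exact mul_le_mul_of_nonneg_left (Real.log_le_self (Nat.cast_nonneg _)) (Nat.cast_nonneg _)
  have c1 := ch_chain (P := w.P) A (fun ω => (T ω, a ω, I ω, j ω, g ω)) w.Z
  have c2 : ch w.P (fun ω => (T ω, a ω, I ω, j ω, g ω)) (fun ω => (A ω, w.Z ω)) ≤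
      ch w.P (fun ω => ((a ω, T ω), I ω, j ω, g ω)) fun ω => (A ω, w.Z ω) :=
    ch_mono fun p _ q _ e => by simp only [Prod.mk.injEq] at e; simp only [e]
  have c3 := ch_subadd (P := w.P) (fun ω => (a ω, T ω)) (fun ω => (I ω, j ω, g ω))
    fun ω => (A ω, w.Z ω)
  have c4 := ch_chain (P := w.P) a T fun ω => (A ω, w.Z ω)
  have c5 := ch_subadd (P := w.P) I (fun ω => (j ω, g ω)) fun ω => (A ω, w.Z ω)
  have c6 := ch_subadd (P := w.P) j g fun ω => (A ω, w.Z ω)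
  have c7 := ch_le_hh (P := w.P) a fun ω => (A ω, w.Z ω)
  have c8 := ch_le_hh (P := w.P) I fun ω => (A ω, w.Z ω)
  have c9 := ch_le_hh (P := w.P) g fun ω => (A ω, w.Z ω)
  rw [ch_chain, (w.law q).ch_id (fun ω => (A ω, T ω, a ω, I ω, j ω, g ω)) w.Z]
  simp only [Real.log_exp, w.P.E_sub, w.P.E_add, w.P.E_const] at h1 ⊢
  linarith

/-- The choice of the chart at one sample. -/
theorem pt {f : Fin d → V} {νS νA T : V → ℝ} {JS JA D G : ℝ} {g : ℕ} {ω : Ω} (hω : ω ∈ w.P.S)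
    (hf : (∀ i, f i ∈ w.U ∧ T (f i) ≤ 1) ∧
      ∀ (m : MultilinearMap ℝ (fun _ : Fin n => V) ℝ) (u : Fin n → V) (L : ℝ), 0 ≤ L →
        (∀ i, u i ∈ w.U ∧ T (u i) ≤ L) → m u ≠ 0 →
        ∃ I : Fin n → Fin d, |m u| ≤ (d * L) ^ n * |m fun i => f (I i)|)
    (vS : w.Val νS ω) (vA : w.Val νA ω) (jS : w.VJ νS JS ω) (jA : w.VJ νA JA ω) (tt : w.Tt νS G ω)
    (D0 : 0 ≤ D) (c : ∀ x, νS x ≤ T x ∧ νA x ≤ T x ∧ T x ≤ Real.exp D * νS x ∧
      T x ≤ Real.exp D * νA x) (hg : 2 * (2 * n * D + G + n * d + 1) ≤ g) :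
    ∃ (I : Fin n → Fin d) (j : ℤ), w.Ch T (fun i => f (I i)) ∧
      (∃ x, w.sj ω x ∧ Real.exp j ≤ |w.jc x fun i => f (I i)|) ∧
      (∀ x, w.sj ω x → |w.jc x fun i => f (I i)| ≤ Real.exp (j + 1)) ∧
      w.VJ νS (Real.exp j) ω ∧ w.VJ νA (Real.exp j) ω ∧
      JS ≤ 2 ^ g * Real.exp j ∧ JA ≤ 2 ^ g * Real.exp j := by
  obtain ⟨G0, u, x0, hu, s0, hG⟩ := tt
  have e1 : 1 ≤ Real.exp D := Real.one_le_exp D0
  have big : ∀ Φ x, (∀ i, νS (Φ i) ≤ Real.exp D) → w.sj ω x →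
      |w.jc x Φ| ≤ Real.exp D ^ n * (Real.exp G * |w.jc x0 u|) := fun Φ x h hx => by
    have := hG (fun i => (Real.exp D)⁻¹ • Φ i) x (fun i => by
      rw [vS.1.smul, abs_of_pos (by positivity), inv_mul_le_iff₀ (Real.exp_pos _), mul_one]
      exact h i) hx
    rwa [(w.jc x).map_smul_univ, Fin.prod_const, smul_eq_mul, abs_mul, abs_of_pos (by positivity),
      inv_pow, inv_mul_le_iff₀ (by positivity)] at this
  have bS : ∀ (Φ : Fin n → V) x, (∀ i, νS (Φ i) ≤ 1) → w.sj ω x → _ := fun Φ x h =>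
    big Φ x fun i => (h i).trans e1
  have bA : ∀ (Φ : Fin n → V) x, (∀ i, νA (Φ i) ≤ 1) → w.sj ω x → _ := fun Φ x h => big Φ x fun i =>
    ((c _).1.trans (c _).2.2.2).trans (mul_le_of_le_one_right (Real.exp_pos _).le (h i))
  have lS := w.le _ _ _ _ hω vS.1 jS bS
  have lA := w.le _ _ _ _ hω vA.1 jA bA
  have p0 : w.jc x0 u ≠ 0 := fun e => by
    rw [e, abs_zero, mul_zero, mul_zero] at lS
    exact (w.pos _ _ _ jS).not_ge lS
  obtain ⟨I, hI⟩ := hf.2 (w.jc x0) u _ (Real.exp_pos D).le (fun i => ⟨(hu i).1,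
    (c _).2.2.1.trans (mul_le_of_le_one_right (Real.exp_pos _).le (hu i).2)⟩) p0
  have uS : ∀ i, νS (f (I i)) ≤ 1 := fun i => (c _).1.trans (hf.1 _).2
  have uA : ∀ i, νA (f (I i)) ≤ 1 := fun i => (c _).2.1.trans (hf.1 _).2
  obtain ⟨j, ⟨x, hx, j1⟩, j2⟩ := bin (w.sj ω) (fun x => |w.jc x fun i => f (I i)|)
    (fun x => bS _ x uS) s0 (lt_of_le_of_ne (abs_nonneg _) fun e => by
        rw [← e, mul_zero] at hI; exact (abs_pos.2 p0).not_ge hI)
  have fin : Real.exp D ^ n * (Real.exp G * |w.jc x0 u|) ≤ 2 ^ g * Real.exp j := by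
    have a1 : (d : ℝ) ^ n ≤ Real.exp d ^ n :=
      pow_le_pow_left₀ (Nat.cast_nonneg _) (by linarith [Real.add_one_le_exp (d : ℝ)]) n
    have a2 : Real.exp (g * (1 / 2)) ≤ 2 ^ g := by
      rw [Real.exp_nat_mul]
      exact pow_le_pow_left₀ (Real.exp_pos _).le ((Real.le_log_iff_exp_le two_pos).1
        (by linarith [Real.log_two_gt_d9])) _
    calc _ ≤ Real.exp D ^ n * (Real.exp G * (Real.exp d ^ n * Real.exp D ^ n * Real.exp (j + 1))) := by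
          refine mul_le_mul_of_nonneg_left (mul_le_mul_of_nonneg_left (hI.trans ?_)
            (Real.exp_pos _).le) (by positivity)
          rw [mul_pow]
          exact mul_le_mul (mul_le_mul_of_nonneg_right a1 (by positivity)) (j2 x0 s0)
            (abs_nonneg _) (by positivity)
      _ = Real.exp (2 * n * D + G + n * d + 1) * Real.exp j := by
          simp only [← Real.exp_nat_mul, ← Real.exp_add]; congr 1; ring
      _ ≤ _ := mul_le_mul_of_nonneg_right ((Real.exp_le_exp.2 (by linarith)).trans a2)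
          (Real.exp_pos _).le
  exact ⟨I, j, fun i => hf.1 _, ⟨x, hx, j1⟩, j2,
    w.mk' _ _ _ _ x _ hω vS.1 (Real.exp_pos _) uS hx j1 bS,
    w.mk' _ _ _ _ x _ hω vA.1 (Real.exp_pos _) uA hx j1 bA, lS.trans fin, lA.trans fin⟩

/-- The entropy chain. -/
theorem core [FiniteDimensional ℝ w.U] (rk : Module.finrank ℝ w.U = d) {s s' c C B cL L : ℝ}
    (L1 : 1 ≤ L) {g0 : ℕ} {g : Ω → ℕ} {φ : (V → ℝ) → Ω → ℝ} (low : w.Low g0 s c φ)
    (up : w.Up s' C) {S : Ω → Λ} {A : Ω → Λ'}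
    {νS νA T μ : Ω → V → ℝ} {JS JA D G : Ω → ℝ} {a : Ω → Fin m → ℕ}
    (hS : Fn w.P (fun ω => (νS ω, JS ω)) fun ω => (S ω, w.Z ω))
    (hA : Fn w.P (fun ω => (νA ω, JA ω)) fun ω => (A ω, w.Z ω))
    (hμ : Fn w.P μ fun ω => (S ω, A ω, w.Z ω))
    (tS : ch w.P T (fun ω => (a ω, S ω, w.Z ω)) ≤ cL)
    (tA : ch w.P T (fun ω => (a ω, A ω, w.Z ω)) ≤ cL) (hB : w.P.E (fun ω => (g ω : ℝ)) ≤ B)
    (h : ∀ ω ∈ w.P.S, w.Val (νS ω) ω ∧ w.Val (νA ω) ω ∧ w.VJ (νS ω) (JS ω) ω ∧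
      w.VJ (νA ω) (JA ω) ω ∧ w.Tt (νS ω) (G ω) ω ∧ Hb (T ω) ∧ Hb (μ ω) ∧ 0 ≤ D ω ∧
      (∀ x, νS ω x ≤ T ω x ∧ νA ω x ≤ T ω x ∧ T ω x ≤ Real.exp (D ω) * νS ω x ∧
        T ω x ≤ Real.exp (D ω) * νA ω x ∧ μ ω x ≤ L * T ω x) ∧
      (∀ φ, Adm (νS ω) φ → Adm (νA ω) φ → Adm (μ ω) φ) ∧ (∀ k, a ω k ≤ g ω) ∧
      2 * (2 * n * (D ω + L) + G ω + n * d + 1) ≤ g ω ∧ g0 ≤ g ω) :
    2 * c + w.P.E (fun ω => φ (μ ω) ω + φ (T ω) ω) ≤
      (ch w.P S w.Z - w.P.E fun ω => Real.log (JS ω)) +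
      (ch w.P A w.Z - w.P.E fun ω => Real.log (JA ω)) + 2 * (s' - s) * w.P.E (fun ω => g ω) +
      2 * (C + cL + (m + 2) * (2 * Real.log (B + 2)) + n * d + 4) := by
  classical
  choose f hf using fun ν : V → ℝ => chart (n := n) w.U rk fun x => L * ν x
  have up1 : ∀ ω ∈ w.P.S, ∀ x, T ω x ≤ L * T ω x := fun ω hω x =>
    le_mul_of_one_le_left ((h ω hω).2.2.2.2.2.1.nonneg x) L1
  have ex : ∀ a b D : ℝ, 0 ≤ b → a ≤ Real.exp D * b → L * a ≤ Real.exp (D + L) * b :=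
    fun a b D b0 e => by
      rw [Real.exp_add, mul_comm (Real.exp D), mul_assoc]
      exact (mul_le_mul_of_nonneg_left e (by linarith)).trans (mul_le_mul_of_nonneg_right
        (by linarith [Real.add_one_le_exp L]) (by positivity))
  have k := fun ω hω => (h ω hω).elim fun k1 ⟨k2, k3, k4, k5, k6, _, k8, k9, _, _, k12, _⟩ =>
    pt hω (hf _ (hb_mul k6 (by linarith))) k1 k2 k3 k4 k5 (by linarith) (fun x =>
      ⟨(k9 x).1.trans (up1 ω hω x), (k9 x).2.1.trans (up1 ω hω x),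
        ex _ _ _ (k1.1.nonneg x) (k9 x).2.2.1, ex _ _ _ (k2.1.nonneg x) (k9 x).2.2.2.1⟩) k12
  obtain ⟨ω0, h0⟩ : ∃ ω, ω ∈ w.P.S := by
    by_contra e
    have := w.P.E_const 1
    rw [FP.E, sum_eq_zero fun ω hω => absurd ⟨ω, hω⟩ e] at this
    exact zero_ne_one this
  have : Nonempty (Fin n → Fin d) := ⟨(k ω0 h0).choose⟩
  choose! I j hI using k
  have h3 := low _ (fun ω => (T ω, a ω, I ω, j ω, g ω)) T (fun ω i => f (T ω) (I ω i)) g
    (fun ω => Real.exp (j ω)) (fun p _ q _ e => by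
      simp only [Prod.mk.injEq] at e; simp only [e]) fun ω hω => by
      obtain ⟨k1, -, -, -, -, k6, -, -, k9, -, -, -, k13⟩ := h ω hω
      exact ⟨⟨k6, fun x hx F => (k1.2 x hx F).trans (k9 F).1⟩, fun i => ⟨((hI ω hω).1 i).1,
        (up1 ω hω _).trans ((hI ω hω).1 i).2⟩, k13, Real.exp_pos _, (hI ω hω).2.1⟩
  have h4 := low _ (fun ω => (S ω, A ω, T ω, a ω, I ω, j ω, g ω)) μ
    (fun ω i => f (T ω) (I ω i)) g (fun ω => Real.exp (j ω)) (fun p hp q hq e => by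
      simp only [Prod.mk.injEq] at e
      simp only [e, hμ p hp q hq (by simp only [e])]) fun ω hω => by
      obtain ⟨k1, k2, -, -, -, -, k7, -, k9, k10, -, -, k13⟩ := h ω hω
      exact ⟨⟨k7, fun x hx => k10 _ (k1.2 x hx) (k2.2 x hx)⟩, fun i => ⟨((hI ω hω).1 i).1,
        (k9 _).2.2.2.2.trans ((hI ω hω).1 i).2⟩, k13, Real.exp_pos _, (hI ω hω).2.1⟩
  obtain ⟨q, h3, h4⟩ := (h3.and h4).exists
  have h1 := half up q f hS tS hB (I := I) (j := j) fun ω hω => by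
    obtain ⟨k1, -, k3, -, -, -, -, -, k9, -, k11, -⟩ := h ω hω
    obtain ⟨e1, -, e3, e4, -, e6, -⟩ := hI ω hω
    exact ⟨k1, k3, e4, fun i => ⟨(e1 i).1, ((k9 _).1.trans (up1 ω hω _)).trans (e1 i).2⟩,
      k11, e3, e6⟩
  have h2 := half up q f hA tA hB (I := I) (j := j) fun ω hω => by
    obtain ⟨-, k2, -, k4, -, -, -, -, k9, -, k11, -⟩ := h ω hω
    obtain ⟨e1, -, e3, -, e5, -, e7⟩ := hI ω hω
    exact ⟨k2, k4, e5, fun i => ⟨(e1 i).1, ((k9 _).2.1.trans (up1 ω hω _)).trans (e1 i).2⟩,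
      k11, e3, e7⟩
  have h5 := ch_submod (P := w.Q q) (G := fun v => w.Z (w.π q v))
    (A := fun v => ((S (w.π q v), T (w.π q v), a (w.π q v), I (w.π q v), j (w.π q v), g (w.π q v)),
        w.cb q (fun ω i => f (T ω) (I ω i)) g v))
    (B := fun v => ((A (w.π q v), T (w.π q v), a (w.π q v), I (w.π q v), j (w.π q v), g (w.π q v)),
        w.cb q (fun ω i => f (T ω) (I ω i)) g v))
    (M := fun v => ((T (w.π q v), a (w.π q v), I (w.π q v), j (w.π q v), g (w.π q v)),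
        w.cb q (fun ω i => f (T ω) (I ω i)) g v))
    (fun p _ q _ e => by simp only [Prod.mk.injEq] at e; simp only [e])
    (fun p _ q _ e => by simp only [Prod.mk.injEq] at e; simp only [e])
  have h6 := le_trans (add_le_add_left (ch_mono (F := fun v => ((S (w.π q v), A (w.π q v), T (w.π q v),
    a (w.π q v), I (w.π q v), j (w.π q v), g (w.π q v)), w.cb q (fun ω i => f (T ω) (I ω i)) g v))
    fun p _ q _ e => by simp only [Prod.mk.injEq] at e; simp only [e]) _) h5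
  simp only [Real.log_exp, w.P.E_add, w.P.E_mul] at h1 h2 h3 h4 ⊢
  linarith

end Lv

end Pool.Agent.MP_5168f5_an.QA.NJ
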