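import Pool.Agent.MP_5168f5_an.QA.O1Api
import Pool.Agent.MP_5168f5_an.QA.CutD
import Pool.Agent.MP_5168f5_an.QA.NJCore

/-! An optimal label declares the largest Jacobian and has no thin polynomial. -/

namespace Pool.Agent.MP_5168f5_an.QA.CD

open H19 H17S H17F R4 AN Filter MvPolynomial Finset
open C1 (PD Hb Adm deg_PD)
open Nc (Pl jac jm deg_jac)
open K31 (Dn)

variable {N D : ℕ}

/-- The Jacobian at a point as a multilinear function of the chart. -/
noncomputable def jM (y : V (N + 1)) : MultilinearMap ℝ (fun _ : Fin (N + 1) => VD N D) ℝ :=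
  (Matrix.detRowAlternating (n := Fin (N + 1)) (R := ℝ)).toMultilinearMap.compLinearMap fun _ =>
    LinearMap.pi fun j => (aeval y : Pl (N + 1) →ₐ[ℝ] ℝ).toLinearMap ∘ₗ
      (pderiv j : Derivation ℝ (Pl (N + 1)) (Pl (N + 1))).toLinearMap ∘ₗ Submodule.subtype _

theorem jc_eq (Φ : Ch N D) (y : V (N + 1)) : jc Φ y = |jM y Φ| := by
  rw [jc, Nc.eval_jac]
  rfl

/-- Basis charts of a subspace. -/
theorem charts (U : Submodule ℝ (VD N D)) : ∃ f : (VD N D → ℝ) → Fin (Module.finrank ℝ U) → VD N D,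
    ∀ ν, Hb ν → (∀ i, f ν i ∈ U ∧ ν (f ν i) ≤ 1) ∧ ∀ (Φ : Ch N D) (y : V (N + 1)),
      (∀ i, Φ i ∈ U) → Un ν Φ → jc Φ y ≠ 0 → ∃ I : Fin (N + 1) → Fin (Module.finrank ℝ U),
        jc Φ y ≤ (Module.finrank ℝ U : ℝ) ^ (N + 1) * jc (fun i => f ν (I i)) y := by
  choose f hf using fun ν => NJ.chart (n := N + 1) U rfl ν
  refine ⟨f, fun ν h => ⟨(hf ν h).1, fun Φ y a b c => ?_⟩⟩
  simp only [jc_eq] at c ⊢
  simpa only [mul_one] using (hf ν h).2 (jM y) Φ 1 zero_le_one (fun i => ⟨a i, b i⟩)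
    (abs_ne_zero.1 c)

theorem ex_tight {δ : Dc N D} {M c : ℕ} {l : Ln N} (b : BdA.In c l δ.h) (h : δ.Ok M c l) :
    ∃ k : ℕ, δ.Tight M c l k := by
  obtain ⟨f, hf⟩ := charts (⊤ : Submodule ℝ (VD N D))
  obtain ⟨B, hB⟩ := Finite.exists_le fun I : Fin (N + 1) → Fin (Module.finrank ℝ
    (⊤ : Submodule ℝ (VD N D))) => Pk.cn (jac fun i => (f δ.ν (I i)).1)
  let A : ℝ := (Module.finrank ℝ (⊤ : Submodule ℝ (VD N D)) : ℝ) ^ (N + 1) *
    (B * 7 ^ ((N + 1) * D))
  refine ⟨⌈A / δ.J⌉₊, fun Φ u y hy => ?_⟩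
  by_cases e : jc Φ y = 0
  · rw [e]
    exact (mul_pos (Real.exp_pos _) h.pos).le
  obtain ⟨I, hI⟩ := (hf _ h.hb).2 Φ y (fun _ => trivial) u e
  have k1 : jc (fun i => f δ.ν (I i)) y ≤ B * 7 ^ ((N + 1) * D) :=
    (Pk.kc.val _ _ 7 y (deg_jac fun i => deg_PD _) (by norm_num) fun i =>
      (norm_le_pi_norm y i).trans ((b.norm hy).trans (by norm_num))).trans
      (mul_le_mul_of_nonneg_right (hB I) (by positivity))
  refine (hI.trans (mul_le_mul_of_nonneg_left k1 (by positivity))).trans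
    ((div_le_iff₀ h.pos).1 ((Nat.le_ceil _).trans ?_))
  linarith [Real.add_one_le_exp (⌈A / δ.J⌉₊ : ℝ)]

theorem log_le {x : ℝ} (h : 0 ≤ x) {s : ℝ} (hs : 0 < s) :
    Real.log (x + 2) ≤ s * x + (2 * s - Real.log s) := by
  have := Real.log_le_sub_one_of_pos (mul_pos hs (by linarith : 0 < x + 2))
  rw [Real.log_mul hs.ne' (by linarith)] at this
  linarith

/-- The finite form of the bound for the Jacobians. -/
theorem jv (N D : ℕ) : ∃ (C : ℝ) (k : ℕ → ℕ → Ln N → Dc N D → ℕ),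
    (∀ M c l (δ : Dc N D), BdA.In c l δ.h → δ.Ok M c l → δ.Tight M c l (k M c l δ)) ∧
    ∀ {Ω : Type} {P : FP Ω} {g : Sh N Ω} {M c : ℕ} {S : Ω → Dc N D} {κ e : ℝ}, g.Box P →
      Val P g M c S → OpG κ P g M c S e →
      P.E (fun ω => k M c (g.l ω) (S ω)) ≤ C + 2 * e := by
  classical
  let K : ℝ := cR ((N + 1) * D) * 2 ^ ((N + 1) * D)
  have c1 : 1 ≤ K := one_le_mul_of_one_le_of_one_le (one_le_cR _) (one_le_pow₀ one_le_two)
  have c0 := one_pos.trans_le c1
  let k : ℕ → ℕ → Ln N → Dc N D → ℕ := fun M c l δ => sInf {k : ℕ | δ.Tight M c l k}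
  refine ⟨2 * (1 + Real.log K) + 4 * (2 * 4⁻¹ - Real.log 4⁻¹), k,
    fun M c l δ b h => Nat.sInf_mem (ex_tight b h), fun {Ω P g M c S κ e} b v o => ?_⟩
  let f : Dc N D → ℕ → Dc N D := fun δ j => ⟨δ.ν, Real.exp (j - 1) * δ.J / K, δ.h⟩
  have h1 := o.self (K := fun ω => f (S ω) (k M c (g.l ω) (S ω))) (r := fun _ => 0)
    (fun ω hω => by
      obtain ⟨v1, v2⟩ := v ω hω
      refine ⟨v1, v2.hb, div_pos (mul_pos (Real.exp_pos _) v2.pos) c0, v2.bd, ?_⟩
      rcases e : k M c (g.l ω) (S ω) with _ | j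
      · obtain ⟨Φ, u, y, hy, q⟩ := v2.wit
        refine ⟨Φ, u, y, hy, le_trans ?_ q⟩
        simp only [f]
        rw [div_le_iff₀ c0, mul_comm]
        exact mul_le_mul_of_nonneg_left ((Real.exp_le_one_iff.2 (by simp [e])).trans c1) v2.pos.le
      · have := Nat.notMem_of_lt_sInf (s := {k : ℕ | (S ω).Tight M c (g.l ω) k}) (m := j)
          (e.symm ▸ Nat.lt_succ_self j : j < k M c (g.l ω) (S ω))
        simp only [Set.mem_ofPred_eq, Dc.Tight, not_forall, not_le] at this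
        obtain ⟨Φ, u, y, hy, q⟩ := this
        obtain ⟨y', hy', q'⟩ := seg_in (deg_jac fun i => deg_PD (Φ i)) hy
        refine ⟨Φ, u, y', hy', (div_le_iff₀' c0).2 (le_trans ?_ q')⟩
        simpa [e, jc] using q.le)
    fun ω hω => ⟨fun F => le_mul_of_one_le_left ((v ω hω).2.hb.nonneg F) (one_le_pow₀ one_le_two),
      Or.inl le_rfl⟩
  have h2 : ch P (fun ω => f (S ω) (k M c (g.l ω) (S ω))) S ≤ _ :=
    (ch_mono (F' := fun ω => k M c (g.l ω) (S ω)) fun a _ b _ q => by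
      simp only [Prod.mk.injEq] at q
      rw [q.1, q.2]).trans ((ch_le_hh _ _).trans (MX.hh_nat _ le_rfl))
  rw [P.E_congr (G := fun ω => (k M c (g.l ω) (S ω) : ℝ) - (1 + Real.log K)) fun ω hω => by
    have p := (v ω hω).2.pos
    simp only [f]
    rw [Real.log_div (by positivity) c0.ne', Real.log_mul (Real.exp_pos _).ne' p.ne', Real.log_exp]
    ring, FP.E_sub, FP.E_const] at h1
  have h3 := log_le (P.E_nonneg (F := fun ω => (k M c (g.l ω) (S ω) : ℝ)) fun _ _ =>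
    Nat.cast_nonneg _) (s := 4⁻¹) (by norm_num)
  linarith

theorem sJV : SJV := by
  intro N D Ω κ P g M c u S h
  obtain ⟨C, k, k1, k2⟩ := jv N D
  refine ⟨fun n ω => k (M n) (c n) ((g n).l ω) (S n ω), fun n a _ b _ q => ?_, fun ε hε => ?_, ?_⟩
  · simp only [Prod.mk.injEq] at q
    simp only [q.1, q.2]
  · filter_upwards [h.box, h.val, h.opt (ε / 4) (by positivity), h.big.sm C (ε / 2) (half_pos hε)]
      with n a b d e
    linarith [k2 a b d]
  · filter_upwards [h.box, h.val] with n a b ω hω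
    exact k1 _ _ _ _ ((b ω hω).1 ▸ BdA.box_in a _ hω) (b ω hω).2

theorem sNLV : SNLV := by
  intro N D Ω κ P g M c u S F h hF ε hε
  by_contra k
  obtain ⟨p, p0, hp⟩ := not_whp k
  obtain ⟨C, f, -, hf⟩ := ex_cut N D
  let K : ℝ := cR D * 2 ^ D
  have c1 : 1 ≤ K := one_le_mul_of_one_le_of_one_le (one_le_cR _) (one_le_pow₀ one_le_two)
  have κ0 := h.pos
  obtain ⟨n, a1, a2, a3, a4, a5, a6, a7⟩ := (hp.and (h.val.and ((h.opt (κ * ε / 4) (by positivity)).and
    ((hF (p * (κ * ε / 4)) (by positivity)).and ((h.big.sm (Real.log K) ε hε).and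
    ((h.big.sm ((N + 1 : ℕ) * Real.log 2 + κ * (Real.log K + Real.log 2) + Real.log p⁻¹)
      (κ * ε / 4) (by positivity)).and (h.big.eventually_gt_atTop 0))))))).exists
  have d := K31.dn_cE _ p0 a1
  have ex := ex_of_pb (p0.trans_le a1)
  have key := fun w (hw : w ∈ (cE (P n) fun ω => ¬∃ y ∈ seg (M n) (c n) ((g n).l ω) (S n ω).h 4,
      (S n ω).ν (F n ω) ≤ Real.exp (ε * u n) * |eval y (F n ω).1|).S) => by
    obtain ⟨w1, w2⟩ := (mem_cE ex w).1 hw
    simp only [not_exists, not_and, not_le] at w2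
    have v := (a2 w w1).2
    have F0 : F n w ≠ 0 := fun z => by
      have := w2 _ (BdA.mid_mem (by norm_num))
      rw [z, show (S n w).ν 0 = 0 by simpa using v.hb.smul 0 0] at this
      simp at this
    exact And.intro F0 ((hf (S n w) (F n w) (ε * u n - Real.log K)).2 (M n) (c n) _ v F0
      (by linarith) fun y hy => by
        obtain ⟨y', hy', q⟩ := seg_in (deg_PD (F n w)) hy
        rw [neg_sub, Real.exp_sub, Real.exp_log (by linarith), div_mul_eq_mul_div,
          le_div_iff₀ (Real.exp_pos _)]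
        nlinarith [w2 y' hy', Real.exp_pos (ε * u n), abs_nonneg (eval y' (F n w).1)])
  have h1 := a3 _ _ id _ (fun w => f (S n w) (F n w) (ε * u n - Real.log K))
    (fun _ => ε * u n - Real.log K - Real.log 2) d
    (fun w hw => ⟨(hf _ _ _).1.trans (a2 w (cE_sub hw)).1, (key w hw).2.1⟩) fun w hw =>
    ⟨fun G => ((key w hw).2.2.1 G).trans (mul_le_mul_of_nonneg_right
      (le_self_pow₀ one_le_two (by omega)) ((a2 w (cE_sub hw)).2.hb.nonneg G)),
      Or.inr ⟨_, (key w hw).1, by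
        refine (mul_le_mul_of_nonneg_left (key w hw).2.2.2.2.1 (Real.exp_pos _).le).trans_eq ?_
        rw [Real.exp_sub _ (Real.log 2), Real.exp_log two_pos, Real.exp_neg]
        field_simp
        rfl⟩⟩
  have h2 := (ch_mono (F := fun w => f (S n w) (F n w) (ε * u n - Real.log K)) (F' := F n)
    (G := S n) fun a _ b _ q => by
      simp only [Prod.mk.injEq] at q
      simp only [q.1, q.2]).trans (d.ch_le (F n) (S n))
  rw [FP.E_congr _ (G := fun _ => -((N + 1 : ℕ) * Real.log 2) +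
    κ * (ε * u n - Real.log K - Real.log 2)) fun w hw => by
      rw [(key w hw).2.2.2.1, Real.log_div (a2 w (cE_sub hw)).2.pos.ne' (by positivity),
        Real.log_pow]
      simp only [id]
      ring, FP.E_const] at h1
  have h3 : p⁻¹ * ch (P n) (F n) (S n) ≤ κ * ε / 4 * u n := by
    rw [inv_mul_le_iff₀ p0]
    linarith
  have h4 : 0 < κ * ε * u n := by positivity
  simp only [id] at h1
  linarith

end Pool.Agent.MP_5168f5_an.QA.CD
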