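import Pool.Agent.MP_5168f5_an.QA.NormCnt
import Pool.Agent.MP_5168f5_an.AN.NcJac

/-! The entropy form of the sharp count for an arbitrary frame. -/

namespace Pool.Agent.MP_5168f5_an.QA

open Finset H19 H17S MvPolynomial AN.En
open AN.Nc (jac ev)

theorem det_dm {n : ℕ} (Φ : Fin n → MvPolynomial (Fin n) ℝ) (x : V n) :
    (dm Φ x).det = eval x (jac Φ) := by
  rw [jac, RingHom.map_det]
  rfl

/-- All data are read from the context `G`; the frame `Φ` is arbitrary. -/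
theorem chCntF (N D : ℕ) : ∃ C : ℝ, 0 ≤ C ∧ ∀ {Ω β : Type} (P : FP Ω) (G : Ω → β)
    (Φ Ψ : β → Fin (N + 1) → MvPolynomial (Fin (N + 1)) ℝ)
    (t0 τ L Λ lam μ R ρ : β → ℝ) (g : β → ℕ) (x : Ω → V (N + 1)),
    (∀ ω ∈ P.S, (∀ i, (Φ (G ω) i).totalDegree ≤ D) ∧ (∀ i, (Ψ (G ω) i).totalDegree ≤ D) ∧
      0 < τ (G ω) ∧ τ (G ω) ≤ L (G ω) ∧ 0 < Λ (G ω) ∧ 0 < lam (G ω) ∧ 0 < μ (G ω) ∧
      x ω ∈ Fat (Φ (G ω)) (t0 (G ω)) (τ (G ω)) (L (G ω)) (Λ (G ω)) (lam (G ω)) (R (G ω))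
        (ρ (G ω)) ∧
      (∀ i, |eval (x ω) (Ψ (G ω) i)| ≤ 1) ∧ |eval (x ω) (jac (Ψ (G ω)))| ≤ μ (G ω)) →
    ch P (fun ω => fl (g (G ω)) (ev (Ψ (G ω)) (x ω))) G ≤
      C + P.E fun ω => (N + 1) * g (G ω) * lg + max (-(g (G ω) * lg))
        ((N + 1) * (Real.log (L (G ω) / τ (G ω)) + Real.log (Λ (G ω))) +
          Real.log (μ (G ω)) - Real.log (lam (G ω))) := by
  obtain ⟨C, C1, hC⟩ := fatCnt0 N D
  refine ⟨Real.log (2 * C), Real.log_nonneg (by linarith),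
    fun P G Φ Ψ t0 τ L Λ lam μ R ρ g x h => ?_⟩
  refine (ch_detE (fun ω => 2 * C * (2 ^ g (G ω)) ^ (N + 1) * max (1 / 2 ^ g (G ω))
    (μ (G ω) * ((L (G ω) / τ (G ω)) ^ (N + 1) * Λ (G ω) ^ (N + 1) / lam (G ω))))
    (fun a _ b _ e => by simp only [e]) fun a ha => ?_).trans ?_
  · obtain ⟨h1, h2, h3, h4, h5, h6, h7, -⟩ := h a ha
    obtain ⟨T, hT, hT'⟩ := hC _ _ (t0 (G a)) _ _ _ _ _ (R (G a)) (ρ (G a)) (g (G a))
      h1 h2 h3 h4 h5 h6 h7
    refine ⟨T, hT.trans ?_, fun b hb e => ?_⟩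
    · have k2 : 0 ≤ C * (2 ^ g (G a)) ^ (N + 1) := by positivity
      nlinarith [mul_le_mul_of_nonneg_left (add_le_add (le_max_right (1 / 2 ^ g (G a) : ℝ)
        (μ (G a) * ((L (G a) / τ (G a)) ^ (N + 1) * Λ (G a) ^ (N + 1) / lam (G a))))
        (le_max_left (1 / 2 ^ g (G a) : ℝ)
        (μ (G a) * ((L (G a) / τ (G a)) ^ (N + 1) * Λ (G a) ^ (N + 1) / lam (G a))))) k2]
    · obtain ⟨-, -, -, -, -, -, -, b1, b2, b3⟩ := h b hb
      rw [e] at b1 b2 b3 ⊢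
      exact hT' _ b1 b2 ((det_dm _ _).symm ▸ b3)
  · rw [← P.E_const (Real.log (2 * C)), ← FP.E_add]
    refine P.E_mono fun ω hω => ?_
    obtain ⟨-, -, h3, h4, h5, h6, h7, -⟩ := h ω hω
    have k : 0 < L (G ω) / τ (G ω) := div_pos (h3.trans_le h4) h3
    rw [Real.log_mul (by positivity) (by positivity), Real.log_mul (by positivity) (by positivity),
      Real.log_pow, Real.log_pow, lg, add_assoc]
    push_cast
    rw [mul_assoc ((N : ℝ) + 1)]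
    gcongr
    rcases max_choice (1 / 2 ^ g (G ω) : ℝ)
      (μ (G ω) * ((L (G ω) / τ (G ω)) ^ (N + 1) * Λ (G ω) ^ (N + 1) / lam (G ω))) with e | e
    · rw [e, one_div, Real.log_inv, Real.log_pow]
      exact le_max_left _ _
    · rw [e, Real.log_mul h7.ne' (by positivity), Real.log_div (by positivity) h6.ne',
        Real.log_mul (by positivity) (by positivity), Real.log_pow, Real.log_pow]
      refine le_trans (le_of_eq ?_) (le_max_right _ _)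
      push_cast
      ring

end Pool.Agent.MP_5168f5_an.QA
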