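import Pool.Agent.MP_5168f5_an.QA.O1Api
import Pool.Agent.MP_5168f5_an.QA.FrCnt
import Pool.Agent.MP_5168f5_an.MX.Flat

/-! Tightness in the mean from the case of one unit. -/

namespace Pool.Agent.MP_5168f5_an.QA

open H19 H17S H17F R4 AN Filter MvPolynomial Finset
open C1 (Hb PD deg_PD)

/-- A value that is large and not rare. -/
theorem pick_val {Ω : Type} (P : FP Ω) (m : Ω → ℕ) {a : ℝ} (a0 : 0 ≤ a)
    (h : a + 2 < P.E fun ω => m ω) : ∃ v : ℕ, a < v ∧ ((v : ℝ) ^ 3)⁻¹ ≤ pb P fun ω => m ω = v := by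
  classical
  by_contra z
  push Not at z
  set T := (P.S.image m).filter fun v : ℕ => a < v with hT
  have k1 : P.E (fun ω => m ω) ≤ P.E fun ω => a + ∑ v ∈ T, (v : ℝ) * if m ω = v then 1 else 0 :=
    P.E_mono fun ω hω => by
      have k0 : ∀ v ∈ T, 0 ≤ (v : ℝ) * if m ω = v then 1 else 0 := fun v _ => by positivity
      rcases le_or_gt (m ω : ℝ) a with e | e
      · linarith [sum_nonneg k0]
      · have := single_le_sum k0 (mem_filter.2 ⟨mem_image_of_mem m hω, e⟩)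
        rw [if_pos rfl, mul_one] at this
        linarith
  have k2 : P.E (fun ω => ∑ v ∈ T, (v : ℝ) * if m ω = v then 1 else 0) =
      ∑ v ∈ T, v * pb P fun ω => m ω = v := by
    simp only [pb, FP.E, mul_sum]
    rw [sum_comm]
    exact sum_congr rfl fun v _ => sum_congr rfl fun ω _ => by split_ifs <;> ring
  have k3 : ∑ v ∈ T, (v : ℝ) * pb P (fun ω => m ω = v) ≤ ∑ v ∈ T, ((v : ℝ) ^ 2)⁻¹ :=
    sum_le_sum fun v hv => by
      have v0 : (0 : ℝ) < v := a0.trans_lt (mem_filter.1 hv).2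
      refine (mul_le_mul_of_nonneg_left (z v (mem_filter.1 hv).2).le v0.le).trans_eq ?_
      field_simp
  have k4 : ∑ v ∈ T, ((v : ℝ) ^ 2)⁻¹ ≤ ∑ v ∈ Ioo 0 (T.sup id + 1), ((v : ℝ) ^ 2)⁻¹ :=
    sum_le_sum_of_subset_of_nonneg (fun v hv => mem_Ioo.2
      ⟨by exact_mod_cast a0.trans_lt (mem_filter.1 hv).2, Nat.lt_succ_of_le (le_sup (f := id) hv)⟩)
      fun _ _ _ => by positivity
  have k5 := sum_Ioo_inv_sq_le (α := ℝ) 0 (T.sup id + 1)
  rw [FP.E_add, FP.E_const, k2] at k1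
  simp only [Nat.cast_zero, zero_add, div_one] at k5
  linarith

variable {N D D₀ : ℕ}

/-- Unit polynomials of low degree that show the Jacobian of all low charts. -/
theorem lowB (h1 : 1 ≤ D₀) (hD : D₀ ≤ D) (ν : VD N D → ℝ) : ∃ f : Fin (dV N D₀) → VD N D, Hb ν →
    (∀ a, (f a).1.totalDegree ≤ D₀ ∧ ν (f a) ≤ 1) ∧
    (∀ y, ∃ I : Fin (N + 1) → Fin (dV N D₀), 0 < jc (fun i => f (I i)) y) ∧
    ∀ (Φ : Ch N D) (y : V (N + 1)), Lo D₀ Φ → Un ν Φ → jc Φ y ≠ 0 →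
      ∃ I : Fin (N + 1) → Fin (dV N D₀), jc Φ y ≤ dV N D₀ ^ (N + 1) * jc (fun i => f (I i)) y := by
  by_cases h : Hb ν
  swap
  · exact ⟨0, fun k => absurd k h⟩
  have le : restrictTotalDegree (Fin (N + 1)) ℝ D₀ ≤ restrictTotalDegree (Fin (N + 1)) ℝ D :=
    fun F hF => (mem_restrictTotalDegree _ _ _).2 (((mem_restrictTotalDegree _ _ _).1 hF).trans hD)
  have hb : Hb fun F : VD N D₀ => ν (Submodule.inclusion le F) := by
    obtain ⟨ι, _, A, hA, e⟩ := h
    exact ⟨ι, inferInstance, A ∘ₗ Submodule.inclusion le,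
      hA.comp (Submodule.inclusion_injective le), fun v => e _⟩
  obtain ⟨f, f1, f2⟩ := jb hb
  simp only [det_dm] at f2
  refine ⟨fun a => Submodule.inclusion le (f a), fun _ => ⟨fun a => ⟨deg_PD (f a), (f1 a).le⟩,
    fun y => ?_, fun Φ y a b c => ?_⟩⟩
  · let Φ : Fin (N + 1) → VD N D₀ := fun i =>
      ⟨X i, (mem_restrictTotalDegree _ _ _).2 ((totalDegree_X i).trans_le h1)⟩
    have e : eval y (Nc.jac fun i => (Φ i).1) = 1 := by
      rw [← det_dm, ← Matrix.det_one (n := Fin (N + 1))]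
      congr 1
      ext i k
      simp [Φ, En.dm, pderiv_X, Pi.single_apply, Matrix.one_apply]
    obtain ⟨I, hI⟩ := f2 Φ _ y (fun i => single_le_sum (f := fun i => ν (Submodule.inclusion le (Φ i)))
      (fun i _ => h.nonneg _) (mem_univ i)) (e ▸ one_ne_zero)
    refine ⟨I, abs_pos.2 fun z => ?_⟩
    have z' : eval y (Nc.jac fun i => (f (I i)).1) = 0 := z
    rw [e, z'] at hI
    norm_num at hI
  · obtain ⟨I, hI⟩ := f2 (fun i => ⟨(Φ i).1, (mem_restrictTotalDegree _ _ _).2 (a i)⟩) 1 y b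
      (abs_ne_zero.1 c)
    rw [mul_one] at hI
    exact ⟨I, hI⟩

/-- The least defect of the low charts of the basis. -/
theorem lowM {ι : Type} (j : ι → V (N + 1) → ℝ) (I₀ : ι) (s : Set (V (N + 1))) (J : ℝ) :
    ∃ (k : ℕ) (I : ι), (∃ y ∈ s, ∃ I, 0 < j I y) → (∃ y ∈ s, J ≤ Real.exp k * j I y) ∧
      ∀ k' < k, ∀ I', ∀ y ∈ s, Real.exp k' * j I' y < J := by
  classical
  by_cases h : ∃ y ∈ s, ∃ I, 0 < j I y
  swap
  · exact ⟨0, I₀, fun k => absurd k h⟩
  have e : ∃ k : ℕ, ∃ I, ∃ y ∈ s, J ≤ Real.exp k * j I y := by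
    obtain ⟨y, hy, I, hI⟩ := h
    obtain ⟨k, hk⟩ := exists_nat_ge (J / j I y)
    refine ⟨k, I, y, hy, (div_le_iff₀ hI).1 (hk.trans ?_)⟩
    linarith [Real.add_one_le_exp (k : ℝ)]
  obtain ⟨I, hI⟩ := Nat.find_spec e
  exact ⟨Nat.find e, I, fun _ => ⟨hI, fun k' hk I' y hy =>
    not_le.1 fun z => Nat.find_min e hk ⟨I', y, hy, z⟩⟩⟩

theorem ofTi : OfTi := by
  intro hJ N D₀ D h1 hD hT Ω κ P g M c u S h
  obtain ⟨k, k1, k2, k3⟩ := hJ κ P g M c u S h
  choose f hf using lowB (N := N) h1 hD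
  have d0 : 0 < dV N D₀ := by
    have : Nontrivial (VD N D₀) := ⟨⟨⟨1, (mem_restrictTotalDegree _ _ _).2 (by simp)⟩, 0,
      fun e => one_ne_zero (congrArg Subtype.val e)⟩⟩
    exact Module.finrank_pos
  choose m I hm using fun (n : ℕ) (a : Ln N × Dc N D) => lowM
    (fun (I : Fin (N + 1) → Fin (dV N D₀)) y => jc (fun i => f a.2.ν (I i)) y) (fun _ => ⟨0, d0⟩)
    (seg (M n) (c n) a.1 a.2.h 4) a.2.J
  have hm' := h.val.mono fun n a ω hω => hm n ((g n).l ω, S n ω)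
    (let ⟨_, _, y, hy, _⟩ := (a ω hω).2.wit; ⟨y, hy, (hf _ (a ω hω).2.hb).2.1 y⟩)
  have key : Sm u fun n => (P n).E fun ω => m n ((g n).l ω, S n ω) := by
    by_contra z
    obtain ⟨ε, ε0, z⟩ := not_Le z
    obtain ⟨C, hC⟩ : ∃ C : ℕ, C = dV N D₀ ^ (N + 1) + 1 := ⟨_, rfl⟩
    obtain ⟨v, hv⟩ := Eventually.choice (r := fun n (v : ℕ) => ε / 2 * u n < v ∧ ((v : ℝ) ^ 3)⁻¹ ≤
        pb (P n) fun ω => m n ((g n).l ω, S n ω) = v) (l := UF) (by
      filter_upwards [z, h.big.ev (4 / ε)] with n a b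
      rw [div_le_iff₀ ε0] at b
      exact pick_val _ _ (by positivity) (by linarith))
    have v1 : ∀ᶠ n in UF, 2 * C ≤ v n := by
      filter_upwards [hv, h.big.ev (4 * C / ε)] with n a b
      rw [div_le_iff₀ ε0] at b
      have : (2 * C : ℝ) ≤ v n := by linarith [a.1]
      exact_mod_cast this
    have v2 : ∀ᶠ n in UF, u n ≤ ⌈4 / ε⌉₊ * (v n - C) := by
      filter_upwards [hv, v1] with n a b
      have b1 : (v n : ℝ) ≤ 2 * (v n - C : ℕ) := by exact_mod_cast (by omega : v n ≤ 2 * (v n - C))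
      have b2 := (div_le_iff₀ ε0).1 (Nat.le_ceil (4 / ε))
      have b3 : (0 : ℝ) ≤ (v n - C : ℕ) := Nat.cast_nonneg _
      have : (u n : ℝ) ≤ ⌈4 / ε⌉₊ * (v n - C : ℕ) :=
        le_of_mul_le_mul_left (by nlinarith [a.1]) ε0
      exact_mod_cast this
    have v3 : Big fun n => v n - C := (h.dn (Eventually.of_forall fun n => K31.dn_rfl _) _ v2
      (Le.of_le fun _ => by simp)).big
    have v4 : ∀ᶠ n in UF, (0 : ℝ) < v n := hv.mono fun n a => lt_of_le_of_lt (by positivity) a.1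
    refine hT κ _ _ M c _ _ (h.dn (b := fun n => ((v n : ℝ) ^ 3)⁻¹⁻¹) ((hv.and v4).mono
      fun n a => K31.dn_cE _ (by have := a.2; positivity) a.1.2) _ v2
      (((Sub.nat v3).pow 6).log.mono ?_)) ?_
    · filter_upwards [v1, v4] with n a b
      have b1 : (v n : ℝ) ≤ 2 * (v n - C : ℕ) := by exact_mod_cast (by omega : v n ≤ 2 * (v n - C))
      rw [inv_inv, show 6 = 2 * 3 from rfl, pow_mul]
      gcongr
      nlinarith [sq_nonneg ((v n - C : ℕ) : ℝ)]
    · filter_upwards [hv, v1, v4, hm', h.val] with n a b b0 e e' ω hω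
      obtain ⟨w1, w2⟩ := (mem_cE (ex_of_pb (lt_of_lt_of_le (by positivity) a.2)) ω).1 hω
      obtain ⟨⟨y, y1, y2⟩, y3⟩ := e ω w1
      obtain ⟨f1, -, f2⟩ := hf _ (e' ω w1).2.hb
      rw [w2] at y2 y3
      refine ⟨⟨fun i => f (S n ω).ν (I n ((g n).l ω, S n ω) i), fun i => (f1 _).1,
        fun i => (f1 _).2, y, y1, y2.trans ?_⟩, fun Φ p1 p2 y hy => ?_⟩
      · refine mul_le_mul_of_nonneg_right (Real.exp_le_exp.2 ?_) (abs_nonneg _)
        exact_mod_cast (by omega : v n ≤ 2 * (v n - C))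
      · by_cases z : jc Φ y = 0
        · rw [z, mul_zero]
          exact (e' ω w1).2.pos.le
        obtain ⟨I', hI⟩ := f2 Φ y p1 p2 z
        refine le_trans ?_ (y3 (v n - 1) (by omega) I' y hy).le
        refine (mul_le_mul_of_nonneg_left hI (Real.exp_pos _).le).trans ?_
        rw [← mul_assoc]
        refine mul_le_mul_of_nonneg_right ?_ (abs_nonneg _)
        have e1 : ((v n - 1 : ℕ) : ℝ) = (v n - C : ℕ) + dV N D₀ ^ (N + 1) := by
          exact_mod_cast (by omega : v n - 1 = v n - C + dV N D₀ ^ (N + 1))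
        rw [e1, Real.exp_add]
        gcongr
        linarith [Real.add_one_le_exp ((dV N D₀ : ℝ) ^ (N + 1))]
  have s1 : Sm u fun n => (P n).E fun ω => ((m n ((g n).l ω, S n ω) + k n ω : ℕ) : ℝ) :=
    (key.add k2).mono (Eventually.of_forall fun n => by simp only [Nat.cast_add, FP.E_add, le_refl])
  refine ⟨fun n ω i => f (S n ω).ν (I n ((g n).l ω, S n ω) i),
    fun n ω => m n ((g n).l ω, S n ω) + k n ω, fun n a ha b hb e => ?_, s1,
    ((h.big.sm (Real.log (dV N D₀ ^ (N + 1)) + 2)).add (s1.smul zero_le_two)).mono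
      (Eventually.of_forall fun n => ?_), ?_⟩
  · simp only [k1 n a ha b hb e, show (g n).l a = (g n).l b from congrArg Prod.fst e,
      show S n a = S n b from congrArg Prod.snd e]
  · refine (ch_mono (F' := fun ω => (I n ((g n).l ω, S n ω), m n ((g n).l ω, S n ω) + k n ω))
      fun a _ b _ e => ?_).trans ((ch_subadd _ _ _).trans ?_)
    · simp only [Prod.mk.injEq] at e ⊢
      exact ⟨by rw [e.1.1, e.2], e.1.2⟩
    have a1 : ch (P n) (fun ω => I n ((g n).l ω, S n ω)) (S n) ≤ Real.log (dV N D₀ ^ (N + 1)) :=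
      ch_det fun _ _ => ⟨univ, by simp, fun _ _ _ => mem_univ _⟩
    have a2 := (ch_le_hh (P := P n) (fun ω => m n ((g n).l ω, S n ω) + k n ω) (S n)).trans
      (MX.hh_nat _ le_rfl)
    have a3 : 0 ≤ (P n).E fun ω => ((m n ((g n).l ω, S n ω) + k n ω : ℕ) : ℝ) :=
      (P n).E_nonneg fun _ _ => Nat.cast_nonneg _
    have a4 := Real.log_le_sub_one_of_pos (add_pos_of_nonneg_of_pos a3 two_pos)
    linarith
  · filter_upwards [hm', h.val, k3] with n e e' t ω hω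
    obtain ⟨⟨y, y1, y2⟩, -⟩ := e ω hω
    obtain ⟨f1, -⟩ := hf _ (e' ω hω).2.hb
    refine ⟨fun i => (f1 _).1, fun i => (f1 _).2, ⟨y, y1, y2.trans ?_⟩, fun Φ p y hy =>
      (t ω hω Φ p y hy).trans ?_⟩
    · exact mul_le_mul_of_nonneg_right (Real.exp_le_exp.2 (by simp)) (abs_nonneg _)
    · exact mul_le_mul_of_nonneg_right (Real.exp_le_exp.2 (by simp)) (e' ω hω).2.pos.le

end Pool.Agent.MP_5168f5_an.QA
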