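import Pool.Agent.MP_5168f5_an.QA.QAll
import Pool.Agent.MP_5168f5_an.QA.Fil
import Pool.Agent.MP_5168f5_an.QA.Nlv
import Pool.Agent.MP_5168f5_an.QA.OfTi
import Pool.Agent.MP_5168f5_an.QA.Gain
import Pool.Agent.MP_5168f5_an.QA.Spec1

/-! The block of filling, tightness and no leak. -/

namespace Pool.Agent.MP_5168f5_an.QA

open H19 H17S H17F R4 AN Filter

theorem sFil : SFil := ofFil qFinC

theorem blkF_of (c : OfTiC) (z : OfZL) : BlkF := fun N => by
  obtain ⟨D₀, D₁, h1, h2, h3⟩ := c sFil CD.sJV N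
  obtain ⟨E₀, h4⟩ := sFil N D₀
  refine ⟨D₀, E₀, max D₁ (E₀ * D₀), h1, h2.trans (le_max_left _ _), fun D hD => ?_⟩
  have a := h4 D ((le_max_right _ _).trans hD)
  have e := (le_max_left _ _).trans hD
  have b : Ti N D₀ D := ofTi CD.sJV N D₀ D h1 (h2.trans e) (h3 D e)
  exact ⟨a, b, z N D₀ E₀ D a b⟩

end Pool.Agent.MP_5168f5_an.QA
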