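import Pool.Agent.MP_5168f5_an.QA.ChAlg

/-! The Kakeya maximal estimate: polynomial coordinates along an orbit, the recursion. -/

namespace Pool.Agent.MP_5168f5_an.QA.Ch

open H17S AN MvPolynomial Finset IsNilpotent
open Matrix hiding vec
open GA (Mt IsFr vec ex bch Ad)
open N2 (tri)

/-- The data of a lattice. -/
structure Da {m : ℕ} (k : ℕ) {κ : Type} [Fintype κ] (kk : Fin m → ℝ) (b : κ → Mt (Fin m))
    (c : κ → κ → κ → ℝ) (L W : ℝ) : Prop where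
  card : Fintype.card κ ≤ k
  fr : IsFr (tri kk) b c
  L1 : 1 ≤ L
  LW : L ≤ W
  hc : ∀ a a' e, |c a a' e| ≤ L
  hb : ∀ a q r, |b a q r| ≤ W

theorem box (m k : ℕ) : ∃ g, Gr g ∧ ∀ {κ : Type} [Fintype κ] {kk : Fin m → ℝ}
    {b : κ → Mt (Fin m)} {c : κ → κ → κ → ℝ} {L W X : ℝ} {s t : κ → ℝ}, Da k kk b c L W →
    L ≤ X → (∀ a, |s a| ≤ X) → (∀ a, |t a| ≤ X) →
    (∀ a, |bch m c s t a| ≤ g X) ∧ ∀ a, |Ad m c s t a| ≤ g X := by
  obtain ⟨K, k1, hK⟩ := GA.sBox m k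
  obtain ⟨K', k2, hK'⟩ := GA.sBox2 m k
  have g2 := (gr_pw k2).mul gr_id
  refine ⟨_, (gr_pw k1).mul g2, fun {κ _ kk b c L W X s t} h e hs ht => ?_⟩
  have hX := h.L1.trans e
  have hI : GA.Idl c (fun _ => 1) (fun _ => 1) X := fun a a' f => by
    simpa using (h.hc a a' f).trans e
  have an := (GA.sMul _ _ _ b c h.fr).anti
  have bs : GA.Bx (fun _ => 1) X s := fun a => by simpa using hs a
  have bt : GA.Bx (fun _ => 1) X t := fun a => by simpa using ht a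
  have h1 := (hK κ c _ _ X 0 s t s t h.card hX le_rfl (fun _ => ⟨zero_le_one, zero_le_one⟩) an
    hI hI bs bt bs bt).1
  have h2 := (hK' κ c _ _ X X s t t t h.card hX (by linarith)
    (fun _ => ⟨zero_le_one, zero_le_one⟩) an hI hI bs bt bt bt).2.1
  have u1 := (gr_pw k1).one hX
  have u2 := g2.one hX
  exact ⟨fun a => ((h1 a).trans_eq (mul_one _)).trans (le_mul_of_one_le_right (by linarith) u2),
    fun a => ((h2 a).trans_eq (mul_one _)).trans (le_mul_of_one_le_left (by linarith) u1)⟩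

section One

variable {m k : ℕ} {κ : Type} [Fintype κ] {kk : Fin m → ℝ} {b : κ → Mt (Fin m)}
  {c : κ → κ → κ → ℝ} {L W T : ℝ} {t : κ → ℝ}

theorem vec_smul (σ : ℝ) (z : κ → ℝ) : vec b (σ • z) = σ • vec b z := by
  simp only [vec, smul_sum, Pi.smul_apply, smul_eq_mul, mul_smul]

/-- The bound for the entries of the exponentials of a box. -/
def bA (m k : ℕ) (T : ℝ) : ℝ := eA m ((k + 1) * (T * T))

theorem gr_bA (m k : ℕ) : Gr (bA m k) := (gr_eA m).comp ((gr_lin k).comp (gr_id.mul gr_id))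

theorem Da.dec (h : Da k kk b c L W) (hW : W ≤ T) (ht : ∀ a, |t a| ≤ T) :
    (∀ p q, |ex b t p q| ≤ bA m k T) ∧ (∀ p q, |(ex b t - 1) p q| ≤ bA m k T) ∧
    ∃ R ∈ (tri kk).F 0, (∀ p q, |R p q| ≤ bA m k T) ∧ ex b t = 1 + vec b t + R * vec b t := by
  have h1 : 1 ≤ T := h.L1.trans (h.LW.trans hW)
  have k0 : (0 : ℝ) ≤ k := Nat.cast_nonneg _
  refine exp_dec (h.fr.mem t) (((gr_lin k).comp (gr_id.mul gr_id)).one h1) fun p q => ?_
  rw [vec, Matrix.sum_apply]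
  refine (abs_sum_le_sum_abs _ _).trans ((sum_le_card_nsmul _ _ (T * T) fun a _ => ?_).trans ?_)
  · rw [Matrix.smul_apply, smul_eq_mul, abs_mul]
    exact mul_le_mul (ht a) ((h.hb a p q).trans hW) (abs_nonneg _) (by linarith)
  · rw [card_univ, nsmul_eq_mul]
    have : (Fintype.card κ : ℝ) ≤ k := by exact_mod_cast h.card
    exact mul_le_mul_of_nonneg_right (by linarith) (by positivity)

theorem near_max {A : Type} (S : A → Prop) (f : A → ℝ) {a₀ : A} (h0 : S a₀) {B : ℝ}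
    (hf : ∀ a, 0 ≤ f a) (hB : ∀ a, S a → f a ≤ B) : ∃ a, S a ∧ ∀ a', S a' → f a' ≤ 2 * f a := by
  have bd : BddAbove (f '' {a | S a}) := ⟨B, fun _ ⟨a, u, v⟩ => v ▸ hB a u⟩
  have le : ∀ a, S a → f a ≤ sSup (f '' {a | S a}) := fun a u => le_csSup bd ⟨a, u, rfl⟩
  rcases ((hf a₀).trans (le a₀ h0)).eq_or_lt with e | e
  · exact ⟨a₀, h0, fun a u => by linarith [le a u, hf a₀]⟩
  · obtain ⟨_, ⟨a, u, rfl⟩, v⟩ := exists_lt_of_lt_csSup (s := f '' {a | S a}) ⟨_, a₀, h0, rfl⟩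
      (half_lt_self e)
    exact ⟨a, u, fun a' u' => by linarith [le a' u']⟩

theorem Da.step (h : Da k kk b c L W) {σ : Equiv.Perm (Fin m)}
    (hσ : ∀ q r, kk q < kk r → σ q < σ r) (q : Fin m) (p : Fin m → ℝ) {Y η δ : ℝ} (hY : 1 ≤ Y)
    (hT : 3 * Y ≤ T) (hW : W ≤ T) (h0 : 0 < η) (hδ : η ≤ δ)
    (hB : ∀ s t : κ → ℝ, (∀ a, |s a| ≤ 3 * Y) → (∀ a, |t a| ≤ 3 * Y) → ∀ a, |bch m c s t a| ≤ T) :
    ∃ (z : κ → ℝ) (ρ : ℝ), (∀ a, |z a| ≤ 1) ∧ ∀ (t : κ → ℝ) (e : Fin m → ℝ) (y : ℝ),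
      (∀ a, |t a| ≤ Y) → (∀ r, |e r| ≤ η) → (∀ r, σ r < σ q → |(vec b t *ᵥ p) r| ≤ δ) →
      y = ρ * ((ex b t *ᵥ (p + e)) q - p q) → |y| ≤ 3 * Y ∧ ∀ r, σ r ≤ σ q →
        |(vec b (bch m c (y • -z) t) *ᵥ p) r| ≤
          ((m + 1) * bA m k T) ^ (m + 1 + 1 + 1) * ((5 + 1) * T) * δ := by
  have m0 : (0 : ℝ) ≤ m := Nat.cast_nonneg _
  have T1 : 1 ≤ T := by linarith
  have A1 := (gr_bA m k).one T1
  set A := bA m k T
  set B := (m + 1) * A with hBd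
  have B1 : 1 + m * A ≤ B := by rw [hBd]; linarith
  have mA : 0 ≤ m * A := by positivity
  have d0 : 0 < δ := h0.trans_le hδ
  have hrk : ∀ q r, kk q < kk r → (σ q : ℕ) < σ r := hσ
  obtain ⟨z, ⟨z1, z2⟩, z3⟩ := near_max
    (fun z : κ → ℝ => (∀ a, |z a| ≤ 1) ∧ ∀ r, σ r < σ q → |(vec b z *ᵥ p) r| ≤ δ)
    (fun z => |(vec b z *ᵥ p) q|) (a₀ := 0) ⟨by simp, by simp [vec, d0.le]⟩
    (B := ∑ a, |(b a *ᵥ p) q|) (fun _ => abs_nonneg _) fun z u => by
      rw [vec, Matrix.sum_mulVec, Finset.sum_apply]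
      refine (abs_sum_le_sum_abs _ _).trans (sum_le_sum fun a _ => ?_)
      rw [Matrix.smul_mulVec, Pi.smul_apply, smul_eq_mul, abs_mul]
      exact mul_le_of_le_one_left (abs_nonneg _) (u.1 a)
  set c₀ := (vec b z *ᵥ p) q
  refine ⟨z, if 2 * B * δ ≤ |c₀| then c₀⁻¹ else 0, z1, fun t e y ht he hr hy => ?_⟩
  obtain ⟨a1, -, R, r1, r2, r3⟩ := h.dec hW fun a => (ht a).trans (by linarith : Y ≤ T)
  have b1 : |(vec b t *ᵥ p) q| ≤ 2 * Y * |c₀| := by
    have Y0 : 0 < Y := by linarith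
    have := z3 (Y⁻¹ • t) ⟨fun a => by
      rw [Pi.smul_apply, smul_eq_mul, abs_mul, abs_of_pos (inv_pos.2 Y0), inv_mul_le_iff₀ Y0]
      simpa using ht a, fun r u => by
      rw [vec_smul, Matrix.smul_mulVec, Pi.smul_apply, smul_eq_mul, abs_mul,
        abs_of_pos (inv_pos.2 Y0)]
      exact (mul_le_of_le_one_left (abs_nonneg _) (inv_le_one_of_one_le₀ hY)).trans (hr r u)⟩
    rw [vec_smul, Matrix.smul_mulVec, Pi.smul_apply, smul_eq_mul, abs_mul,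
      abs_of_pos (inv_pos.2 Y0), inv_mul_le_iff₀ Y0] at this
    linarith
  set a := ex b t *ᵥ p - p with ha
  have b2 : a = vec b t *ᵥ p + R *ᵥ (vec b t *ᵥ p) := by
    rw [ha, r3, add_mulVec, add_mulVec, one_mulVec, mulVec_mulVec]; abel
  have b3 : ∀ r, σ r ≤ σ q → |(R *ᵥ (vec b t *ᵥ p)) r| ≤ m * A * δ := fun r u =>
    tri_le hrk r1 r2 d0.le hr u
  have b4 : |(ex b t *ᵥ e) q| ≤ m * A * δ := mv_le a1 d0.le fun r _ => (he r).trans hδ
  have b5 : (ex b t *ᵥ (p + e)) q - p q = a q + (ex b t *ᵥ e) q := by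
    rw [ha, mulVec_add]; simp only [Pi.add_apply, Pi.sub_apply]; ring
  have b6 : |a q + (ex b t *ᵥ e) q| ≤ 2 * Y * |c₀| + 2 * B * δ := by
    have k1 := abs_add_le ((vec b t *ᵥ p) q) ((R *ᵥ (vec b t *ᵥ p)) q)
    have k2 := abs_add_le (a q) ((ex b t *ᵥ e) q)
    have k3 : a q = (vec b t *ᵥ p) q + (R *ᵥ (vec b t *ᵥ p)) q := by rw [b2]; rfl
    rw [← k3] at k1
    nlinarith [b3 q le_rfl]
  have Bδ : 0 < B * δ := by positivity
  have b7 : |y| ≤ 3 * Y ∧ |a q + (ex b t *ᵥ e) q - y * c₀| ≤ T * (2 * B * δ) := by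
    rw [hy, b5]
    split_ifs with u
    · have c0 : 0 < |c₀| := by linarith
      rw [mul_right_comm, inv_mul_cancel₀ (abs_pos.1 c0), one_mul, sub_self, abs_zero, abs_mul,
        abs_inv, inv_mul_le_iff₀ c0]
      exact ⟨by nlinarith, by positivity⟩
    · simp only [zero_mul, abs_zero, sub_zero]
      exact ⟨by linarith, by nlinarith [not_le.1 u]⟩
  refine ⟨b7.1, fun r hr' => ?_⟩
  have hs : ∀ i, |(y • -z) i| ≤ 3 * Y := fun i => by
    rw [Pi.smul_apply, smul_eq_mul, abs_mul, Pi.neg_apply, abs_neg]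
    exact (mul_le_of_le_one_right (abs_nonneg _) (z1 i)).trans b7.1
  obtain ⟨-, n2, R', s1, s2, s3⟩ := h.dec hW fun i => (hs i).trans hT
  obtain ⟨-, -, R'', u1, u2, u3⟩ := h.dec hW (hB _ t hs fun i => (ht i).trans (by linarith))
  have hU : vec b (y • -z) *ᵥ p = -(y • vec b z *ᵥ p) := by
    rw [smul_neg, ← neg_smul, vec_smul, Matrix.smul_mulVec, neg_smul]
  have c1 : ∀ r, σ r < σ q → |(vec b (y • -z) *ᵥ p) r| ≤ T * δ := fun r u => by
    rw [hU, Pi.neg_apply, abs_neg, Pi.smul_apply, smul_eq_mul, abs_mul]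
    exact mul_le_mul (b7.1.trans hT) (z2 r u) (abs_nonneg _) (by linarith)
  have c2 : ∀ r, σ r < σ q → |a r| ≤ B * δ := fun r u => by
    rw [b2, Pi.add_apply]
    refine (abs_add_le _ _).trans ?_
    nlinarith [hr r u, b3 r u.le]
  have c3 : vec b (bch m c (y • -z) t) *ᵥ p + R'' *ᵥ (vec b (bch m c (y • -z) t) *ᵥ p) =
      (vec b (y • -z) *ᵥ p + a) + R' *ᵥ (vec b (y • -z) *ᵥ p) + (ex b (y • -z) - 1) *ᵥ a := by
    have e1 : ex b (y • -z) * ex b t = ex b (bch m c (y • -z) t) :=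
      (GA.sMul _ _ _ b c h.fr).mul _ _
    have e2 : ex b (y • -z) *ᵥ (a + p) = ex b (bch m c (y • -z) t) *ᵥ p := by
      rw [ha, sub_add_cancel, mulVec_mulVec, e1]
    rw [mulVec_add, u3] at e2
    nth_rewrite 2 [s3] at e2
    simp only [add_mulVec, one_mulVec, ← mulVec_mulVec, sub_mulVec] at e2 ⊢
    linear_combination (exp := 1) -e2
  have TB : 0 < T * (B * δ) := by positivity
  have c4 : ∀ r, (σ r : ℕ) < σ q + 1 → |(vec b (bch m c (y • -z) t) *ᵥ p) r +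
      (R'' *ᵥ (vec b (bch m c (y • -z) t) *ᵥ p)) r| ≤ B * B * ((5 + 1) * T) * δ := fun r u => by
    have u' : σ r ≤ σ q := Nat.lt_succ_iff.1 u
    have d1 : _ ≤ m * A * (T * δ) := tri_le hrk s1 s2 (by positivity) c1 u'
    have d2 : |((ex b (y • -z) - 1) *ᵥ a) r| ≤ m * A * (B * δ) :=
      tri_le hrk ((tri kk).exp_sub_one (h.fr.mem _)) n2 Bδ.le c2 u'
    have d3 : |(vec b (y • -z) *ᵥ p + a) r| ≤ 3 * (T * (B * δ)) := by
      rcases u'.eq_or_lt with v | v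
      · obtain rfl := σ.injective v
        have := abs_sub (a r + (ex b t *ᵥ e) r - y * c₀) ((ex b t *ᵥ e) r)
        rw [hU, show (-(y • vec b z *ᵥ p) + a) r = a r + (ex b t *ᵥ e) r - y * c₀ -
          (ex b t *ᵥ e) r by simp only [Pi.add_apply, Pi.neg_apply, Pi.smul_apply, smul_eq_mul]; ring]
        nlinarith [b7.2]
      · refine (abs_add_le _ _).trans ?_
        have := mul_le_mul_of_nonneg_left (show δ ≤ B * δ by nlinarith) (by linarith : 0 ≤ T)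
        nlinarith [c1 r v, c2 r v]
    rw [← Pi.add_apply, c3]
    refine (abs_add_three _ _ _).trans ?_
    have f1 : m * A * (T * δ) ≤ T * (B * δ) := by nlinarith [mul_pos (by linarith : 0 < T) d0]
    have f2 : m * A * (B * δ) ≤ B * (T * (B * δ)) := by
      nlinarith [mul_le_mul_of_nonneg_left T1 (mul_pos (by linarith : 0 < B) Bδ).le]
    have f3 : T * (B * δ) ≤ B * (T * (B * δ)) := le_mul_of_one_le_left TB.le (by linarith)
    linarith
  refine (log_le hrk u1 u2 (by linarith) (by positivity) _ c4 r (Nat.lt_succ_iff.2 hr')).trans ?_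
  have : (1 + m * A) ^ ((σ q : ℕ) + 1) ≤ B ^ (m + 1) :=
    (pow_le_pow_left₀ (by linarith) B1 _).trans (pow_le_pow_right₀ (by linarith) (by omega))
  calc _ ≤ B ^ (m + 1) * (B * B * ((5 + 1) * T) * δ) :=
        mul_le_mul_of_nonneg_right this (by positivity)
    _ = _ := by ring

end One

end Pool.Agent.MP_5168f5_an.QA.Ch
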