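import Pool.Agent.MP_5168f5_an.AN.GAAll2
import Pool.Agent.MP_5168f5_an.AN.GAAll
import Pool.Agent.MP_5168f5_an.AN.N2Alg
import Pool.Agent.MP_5168f5_an.AN.SpecE

/-! The Kakeya maximal estimate: polynomial coordinates along an orbit, statement. -/

namespace Pool.Agent.MP_5168f5_an.QA.Ch

open H17S AN MvPolynomial Matrix
open GA (Mt IsFr vec ex)
open En (dm)

/-- The values of a family of polynomials. -/
noncomputable def vl {n : ℕ} {J : Type} (F : J → MvPolynomial (Fin n) ℝ) (x : V n) : J → ℝ :=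
  fun i => eval x (F i)

/-- `y` lies near the orbit of `p` under the box of size `X`. -/
def Orb {m : ℕ} {κ : Type} [Fintype κ] (b : κ → Mt (Fin m)) (p : Fin m → ℝ) (X η : ℝ)
    (t : κ → ℝ) (y : Fin m → ℝ) : Prop :=
  (∀ a, |t a| ≤ X) ∧ ∃ e : Fin m → ℝ, (∀ q, |e q| ≤ η) ∧ y = ex b t *ᵥ (p + e)

/-- Coordinates `Θ` of bounded degree: bounded near the orbit, their bounded set is near the
orbit, and some `n` of them have a large Jacobian. -/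
def SChart : Prop := ∀ m k n E : ℕ, ∃ C D : ℕ, 1 ≤ C ∧ ∀ (κ : Type) [Fintype κ]
  (kk : Fin m → ℝ) (b : κ → Mt (Fin m)) (c : κ → κ → κ → ℝ) (p : Fin m → ℝ) (L W η : ℝ)
  (ev : Fin m → MvPolynomial (Fin n) ℝ), 0 < m → Fintype.card κ ≤ k → IsFr (N2.tri kk) b c →
  1 ≤ L → L ≤ W → 0 < η → (∀ a a' e, |c a a' e| ≤ L) → (∀ a q r, |b a q r| ≤ W) → (∀ q, |p q| ≤ L) →
  (∀ q, (ev q).totalDegree ≤ E) →
  ∃ Θ : Fin m ⊕ Fin m → MvPolynomial (Fin n) ℝ, (∀ i, (Θ i).totalDegree ≤ D) ∧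
    (∀ x t, Orb b p L η t (vl ev x) → ∀ i, |eval x (Θ i)| ≤ (C * L) ^ C) ∧
    (∀ x (X : ℝ), L ≤ X → (∀ i, |eval x (Θ i)| ≤ X) →
      ∃ t, Orb b p ((C * X) ^ C) ((C * W) ^ C * η * X) t (vl ev x)) ∧
    ∀ x t (X η' : ℝ) (w : κ → ℝ) (f : Fin n → Fin m → ℝ), L ≤ X → (∀ i, |eval x (Θ i)| ≤ X) →
      Orb b p X η' t (vl ev x) → (∀ i q, |(f i ᵥ* ex b t) q| ≤ X) → (∀ a, 0 ≤ w a) →
      (∀ a q, |(b a *ᵥ p) q| ≤ X * w a) → (C * W * X) ^ C * η ≤ 1 → C * W * η' ≤ 1 →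
      ∃ I : Fin n → Fin m ⊕ Fin m, |(dm (fun i => ∑ q, f i q • ev q) x).det| ≤
        (C * X) ^ C * (∏ a, (1 + w a)) * |(dm (fun i => Θ (I i)) x).det|

end Pool.Agent.MP_5168f5_an.QA.Ch
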