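import Pool.Agent.MP_5168f5_an.QA.Step

/-! One step of the chain with contexts. -/

namespace Pool.Agent.MP_5168f5_an.QA.Stp

open H19 H17S H17F R4 AN Finset
open K31 (Dn dn_cE)
open MX (cm cm_pos cm_le_one ch_eq_cm)

variable {N D M c w : ℕ} {Ω Λ Ξ α β : Type} {P : FP Ω} {g : Sh N Ω} {η : ℝ}

theorem cm_at (χ : Ω → Λ) (S : Ω → β) (l : Ω → α) {x v : Ω} (hx : x ∈ P.S)
    (hv : v ∈ (cv P χ (χ x)).S) : cm (cv P χ (χ x)) S l v = cm P (fun v => (S v, χ v)) l v := by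
  obtain ⟨h1, h2⟩ := (MX.mem_cv hx v).1 hv
  unfold cm cv
  rw [cE_cE (E' := fun u => S u = S v) ⟨v, h1, h2, rfl⟩,
    cE_congr (E' := fun u => (S u, χ u) = (S v, χ v)) fun u _ => by simp [h2, and_comm]]

theorem dn_at {χ : Ω → Λ} {ξ : Ω → Ξ} (h : Fn P χ ξ) {x : Ω} (hx : x ∈ P.S) :
    Dn (cm P χ ξ x)⁻¹ (cv P ξ (ξ x)) id (cv P χ (χ x)) := by
  have := dn_cE (P := cv P χ (χ x)) (fun v => ξ v = ξ x) (cm_pos χ ξ hx) le_rfl
  unfold cv at this ⊢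
  rwa [cE_cE (E := fun v => χ v = χ x) (E' := fun v => ξ v = ξ x) ⟨x, hx, rfl, rfl⟩,
    cE_congr (E' := fun v => ξ v = ξ x)
      fun v hv => ⟨And.right, fun k => ⟨h v hv x hx k, k⟩⟩] at this

/-- The pointwise value in a context. -/
noncomputable def ps (η : ℝ) (P : FP Ω) (g : Sh N Ω) (c : ℕ) (S : Ω → Dc N D) (χ : Ω → Λ)
    (ω : Ω) : ℝ := -Real.log (cm P (fun v => (S v, χ v)) g.l ω) + sco η (S ω) - c * lg

theorem ps_at {χ : Ω → Λ} {ξ : Ω → Ξ} (h : Fn P χ ξ) {x : Ω} (hx : x ∈ P.S) (M c : ℕ)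
    (S : Ω → Dc N D) : val η (cv P ξ (ξ x)) g M c S + N * M * lg ≤
      (cv P ξ (ξ x)).E (ps η P g c S χ) ∧ (cv P ξ (ξ x)).E (ps η P g c S χ) ≤
        val η (cv P ξ (ξ x)) g M c S + N * M * lg - Real.log (cm P χ ξ x) := by
  have d := dn_at h hx
  have h1 : val η (cv P ξ (ξ x)) g M c S ≤ _ :=
    val_le (η := η) (g := g) (M := M) (c := c) (S := S) d
  have h2 : _ ≤ val η (cv P ξ (ξ x)) g M c S + _ :=
    le_val (η := η) (g := g) (M := M) (c := c) (S := S) d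
  have h3 : (cv P ξ (ξ x)).E (fun v => psi η (cv P χ (χ x)) g M c S v) =
      (cv P ξ (ξ x)).E fun v => ps η P g c S χ v - N * M * lg := FP.E_congr _ fun v hv => by
    rw [psi, ps, cm_at χ S g.l (v := v) hx (d.mem hv)]; ring
  rw [h3, FP.E_sub, FP.E_const] at h1 h2
  rw [Real.log_inv] at h2
  constructor <;> linarith

/-- The data of a step. -/
structure Lk (η t r : ℝ) (p : ℝ → ℝ) (P : FP Ω) (g : Sh N Ω) (M c w : ℕ) (S S' : Ω → Dc N D)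
    (χ χ' : Ω → Λ) (cn : Λ → ℕ → ℝ) : Prop where
  box : g.Box P
  le : c + w ≤ M
  v : Val P g M (c + w) S
  v' : Val P g M c S'
  f : Fn P S fun ω => (g.O (c + w) ω, χ ω)
  f' : Fn P S' fun ω => (g.O c ω, χ' ω)
  nest : Fn P χ χ'
  o : ∀ a ∈ P.S, Opd η t (cv P χ (χ a)) g M (c + w) S 2
  o' : ∀ a ∈ P.S, Opt η p (cn (χ' a)) (cv P χ' (χ' a)) g M c S' 2
  pn : Pn t p
  cen : ∀ ω ∈ P.S, pen (cn (χ' ω)) (S ω).ν ≤ r

/-- The step on every atom of a refinement of the new context. -/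
theorem atom (ex : EXT N D) (nj : NJ N D) : ∃ C : ℝ, 1 ≤ C ∧ ∀ η t s : ℝ, Par N D C η t → 0 < s →
    ∃ C' : ℝ, 0 ≤ C' ∧ ∀ (Ω Λ Ξ : Type) (P : FP Ω) (g : Sh N Ω) (M c w : ℕ) (S S' : Ω → Dc N D)
    (χ χ' : Ω → Λ) (cn : Λ → ℕ → ℝ) (p : ℝ → ℝ) (r : ℝ) (ξ : Ω → Ξ),
    Lk η t r p P g M c w S S' χ χ' cn → Fn P χ' ξ → ∃ σ : Ω → ℝ, P.E σ ≤ 2 * ch P ξ χ ∧
      ∀ x ∈ P.S, 0 ≤ σ x ∧ (cv P ξ (ξ x)).E (fun ω => ps η P g (c + w) S χ ω -
        ps η P g c S' χ' ω + p (pen (cn (χ' ω)) (S' ω).ν)) ≤ N * lg * w +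
          ch (cv P ξ (ξ x)) (g.zc (c + w)) (g.O c) + (C * η + s) * w + t * r + C' * (1 + σ x) ∧
      (cv P ξ (ξ x)).E (fun ω => ds (S ω).ν (S' ω).ν + |Real.log (S ω).J - Real.log (S' ω).J|) ≤
        C' * (1 + σ x + w + r + (cv P ξ (ξ x)).E fun ω => pen (cn (χ' ω)) (S' ω).ν) := by
  obtain ⟨C, C1, hC⟩ := step ex nj
  refine ⟨C, C1, fun η t s pa hs => ?_⟩
  obtain ⟨K, K0, hK⟩ := hC η t s pa hs
  refine ⟨3 * K + 1, by positivity, fun Ω Λ Ξ P g M c w S S' χ χ' cn p r ξ L h => ⟨fun x =>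
    -Real.log (cm P χ ξ x) + -Real.log (cm P χ' ξ x), ?_, fun x hx => ?_⟩⟩
  · rw [FP.E_add, ← ch_eq_cm, ← ch_eq_cm]
    linarith [ch_anti (F := ξ) L.nest]
  have h' := L.nest.trans h
  have d := dn_at h' hx
  have d' := dn_at h hx
  have s0 := Real.log_nonpos (cm_pos χ ξ hx).le (cm_le_one P χ ξ x)
  have s1 := Real.log_nonpos (cm_pos χ' ξ hx).le (cm_le_one P χ' ξ x)
  have m : ∀ v ∈ (cv P ξ (ξ x)).S, v ∈ P.S ∧ χ v = χ x ∧ χ' v = χ' x := fun v hv =>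
    ⟨cE_sub hv, ((MX.mem_cv hx v).1 (d.mem hv)).2, ((MX.mem_cv hx v).1 (d'.mem hv)).2⟩
  obtain ⟨a1, a2⟩ := hK Ω (cv P ξ (ξ x)) g M c w S S' p (cn (χ' x))
    (2 + (-Real.log (cm P χ ξ x) + -Real.log (cm P χ' ξ x))) r (fun v hv => L.box v (m v hv).1) L.le
    (fun v hv => L.v v (m v hv).1) (fun v hv => L.v' v (m v hv).1)
    (fun u hu v hv e => L.f u (m u hu).1 v (m v hv).1
      (Prod.ext e ((m u hu).2.1.trans (m v hv).2.1.symm)))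
    (fun u hu v hv e => L.f' u (m u hu).1 v (m v hv).1
      (Prod.ext e ((m u hu).2.2.trans (m v hv).2.2.symm))) (by linarith)
    (opd_mono (opd_dn (L.o x hx) d) (by rw [Real.log_inv]; linarith) le_rfl)
    (opt_mono (opt_dn (L.o' x hx) d') (by rw [Real.log_inv]; linarith)) L.pn
    fun v hv => (m v hv).2.2 ▸ L.cen v (m v hv).1
  have e1 : pE p (cn (χ' x)) (cv P ξ (ξ x)) S' =
      (cv P ξ (ξ x)).E fun ω => p (pen (cn (χ' ω)) (S' ω).ν) :=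
    FP.E_congr _ fun v hv => by rw [(m v hv).2.2]
  have e2 : (cv P ξ (ξ x)).E (fun ω => pen (cn (χ' x)) (S' ω).ν) =
      (cv P ξ (ξ x)).E fun ω => pen (cn (χ' ω)) (S' ω).ν :=
    FP.E_congr _ fun v hv => by rw [(m v hv).2.2]
  have b1 := (ps_at (η := η) (g := g) h' hx M (c + w) S).2
  have b2 := (ps_at (η := η) (g := g) h hx M c S').1
  have r0 := (pen_nonneg _ _).trans (L.cen x hx)
  have y0 : 0 ≤ (cv P ξ (ξ x)).E fun ω => pen (cn (χ' ω)) (S' ω).ν :=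
    FP.E_nonneg _ fun _ _ => pen_nonneg _ _
  rw [e1] at a1
  rw [e2] at a2
  refine ⟨by linarith, ?_, a2.trans ?_⟩
  · rw [FP.E_add, FP.E_sub]
    nlinarith [mul_nonneg K0 (neg_nonneg.2 s0), mul_nonneg K0 (neg_nonneg.2 s1)]
  · nlinarith [mul_nonneg K0 (neg_nonneg.2 s0), mul_nonneg K0 (neg_nonneg.2 s1), mul_nonneg K0 r0,
      mul_nonneg K0 y0, mul_nonneg K0 (Nat.cast_nonneg (α := ℝ) w), Nat.cast_nonneg (α := ℝ) w]

theorem E_at (P : FP Ω) (ξ : Ω → Ξ) (F : Ω → ℝ) : P.E F = P.E fun x => (cv P ξ (ξ x)).E F :=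
  KEA.exp P ξ fun _ => F

/-- The step in the mean and its tail. -/
theorem link (ex : EXT N D) (nj : NJ N D) : ∃ C : ℝ, 1 ≤ C ∧ ∀ η t s : ℝ, Par N D C η t → 0 < s →
    ∃ C' : ℝ, 0 ≤ C' ∧ ∀ (Ω Λ : Type) (P : FP Ω) (g : Sh N Ω) (M c w : ℕ) (S S' : Ω → Dc N D)
    (χ χ' : Ω → Λ) (cn : Λ → ℕ → ℝ) (p : ℝ → ℝ) (r : ℝ), Lk η t r p P g M c w S S' χ χ' cn →
    P.E (ps η P g (c + w) S χ) - P.E (ps η P g c S' χ') +
      P.E (fun ω => p (pen (cn (χ' ω)) (S' ω).ν)) ≤ N * lg * w +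
        ch P (g.zc (c + w)) (g.O c) + (C * η + s) * w + t * r + C' * (1 + ch P χ' χ) ∧
    P.E (fun ω => ds (S ω).ν (S' ω).ν + |Real.log (S ω).J - Real.log (S' ω).J|) ≤
      C' * (1 + ch P χ' χ + w + r + P.E fun ω => pen (cn (χ' ω)) (S' ω).ν) ∧
    ∀ y, (N + 1 + C * η + s) * w + t * r ≤ y → P.E (fun ω =>
      max 0 (ps η P g (c + w) S χ ω - ps η P g c S' χ' ω - y)) ≤ C' * (1 + ch P χ' χ) := by
  obtain ⟨C, C1, hC⟩ := atom ex nj
  refine ⟨C, C1, fun η t s pa hs => ?_⟩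
  obtain ⟨K, K0, hK⟩ := hC η t s pa hs
  refine ⟨3 * K, by positivity, fun Ω Λ P g M c w S S' χ χ' cn p r L => ?_⟩
  obtain ⟨σ, s1, s2⟩ := hK Ω Λ Λ P g M c w S S' χ χ' cn p r χ' L (Fn.rfl _)
  have c0 := mul_nonneg K0 (ch_nonneg (P := P) χ' χ)
  have c1 := mul_le_mul_of_nonneg_left s1 K0
  have w0 := Nat.cast_nonneg (α := ℝ) w
  refine ⟨?_, ?_, fun y hy => ?_⟩
  · have h1 := P.E_mono fun x hx => (s2 x hx).2.1
    have h2 : P.E (fun x => ch (cv P χ' (χ' x)) (g.zc (c + w)) (g.O c)) ≤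
        ch P (g.zc (c + w)) (g.O c) :=
      (KEA.ent P χ' (fun _ => g.zc (c + w)) fun _ => g.O c).ge.trans (ch_anti (Fn.fst _ _))
    rw [← E_at] at h1
    simp only [FP.E_add, FP.E_sub, FP.E_mul, FP.E_const] at h1
    linarith
  · have h1 := P.E_mono fun x hx => (s2 x hx).2.2
    obtain ⟨x, hx⟩ : P.S.Nonempty :=
      Finset.nonempty_of_sum_ne_zero (by rw [P.sum_one]; exact one_ne_zero)
    have r0 := mul_nonneg K0 ((pen_nonneg _ _).trans (L.cen x hx))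
    have y0 : 0 ≤ K * P.E fun ω => pen (cn (χ' ω)) (S' ω).ν :=
      mul_nonneg K0 (FP.E_nonneg _ fun _ _ => pen_nonneg _ _)
    rw [← E_at] at h1
    simp only [FP.E_add, FP.E_const, FP.E_mul, ← E_at] at h1 ⊢
    nlinarith [mul_nonneg K0 w0]
  · set F : Ω → ℝ := fun ω => ps η P g (c + w) S χ ω - ps η P g c S' χ' ω - y with hF
    obtain ⟨σ', u1, u2⟩ := hK Ω Λ (Λ × Prop) P g M c w S S' χ χ' cn p r
      (fun ω => (χ' ω, 0 ≤ F ω)) L (Fn.fst _ _)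
    have u3 : ch P (fun ω => (χ' ω, 0 ≤ F ω)) χ ≤ ch P χ' χ + lg := (ch_subadd _ _ _).trans
      (add_le_add le_rfl (ch_det fun _ _ => ⟨Finset.univ, by simp, fun _ _ _ => Finset.mem_univ _⟩))
    rw [E_at P (fun ω => (χ' ω, 0 ≤ F ω))]
    refine (P.E_mono (G := fun x => K * (1 + σ' x)) fun x hx => ?_).trans ?_
    · obtain ⟨b0, b1, -⟩ := u2 x hx
      have m : ∀ v ∈ (cv P (fun ω => (χ' ω, 0 ≤ F ω)) (χ' x, 0 ≤ F x)).S, (0 ≤ F v ↔ 0 ≤ F x) :=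
        fun v hv => (congrArg Prod.snd
          ((MX.mem_cv (Θ := fun ω => (χ' ω, 0 ≤ F ω)) hx v).1 hv).2).to_iff
      by_cases k : 0 ≤ F x
      · have z1 := ((ch_anti (F := g.zc (c + w)) (Fn.snd g.l (g.zc c))).trans
          (ch_zc (P := cv P (fun ω => (χ' ω, 0 ≤ F ω)) (χ' x, 0 ≤ F x)) (g := g) c w)).trans
            (mul_le_of_le_one_right w0 lg_lt_one.le)
        have z2 : N * lg * w ≤ N * w := mul_le_mul_of_nonneg_right
          (mul_le_of_le_one_right (Nat.cast_nonneg _) lg_lt_one.le) w0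
        refine (FP.E_mono _ (G := fun ω => ps η P g (c + w) S χ ω - ps η P g c S' χ' ω +
          p (pen (cn (χ' ω)) (S' ω).ν) - y) fun v hv => ?_).trans ?_
        · rw [max_eq_right ((m v hv).2 k)]
          linarith [pn_nonneg L.pn (pen_nonneg (cn (χ' v)) (S' v).ν)]
        · rw [FP.E_sub, FP.E_const]
          change ch _ _ (g.O c) ≤ _ at z1
          linarith
      · refine ((FP.E_congr _ fun v hv => max_eq_left
          (not_le.1 fun j => k ((m v hv).1 j)).le).trans (FP.E_const _ _)).trans_le (by positivity)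
    · rw [FP.E_mul, FP.E_add, FP.E_const]
      nlinarith [mul_le_mul_of_nonneg_left u1 K0, mul_le_mul_of_nonneg_left u3 K0,
        mul_le_mul_of_nonneg_left lg_lt_one.le K0]

end Pool.Agent.MP_5168f5_an.QA.Stp
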