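import Pool.Agent.MP_5168f5_an.MX.Rob

/-! Labels of almost minimal cost: existence, extensions, events, dominated laws. -/

namespace Pool.Agent.MP_5168f5_an.QA.Op

open H19 H17S H17F MX R4.K31

variable {Ω W A T Λ : Type} {P : FP Ω} {Q : FP W} {X : Ω → A} {a : W → A} {z : A → T}
  {V : A → Λ → Prop} {ψ : A → Λ → ℝ} {ε c : ℝ} {s : A → Λ} {ρ : W → Ω}

/-- The cost of the label `K`: its entropy given the context, plus the mean price. -/
noncomputable def cost (Q : FP W) (z : A → T) (ψ : A → Λ → ℝ) (a : W → A) (K : W → Λ) : ℝ :=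
  ch Q K (fun v => z (a v)) + Q.E fun v => ψ (a v) (K v)

/-- The label `K` is valid on the support. -/
def Val (Q : FP W) (V : A → Λ → Prop) (a : W → A) (K : W → Λ) : Prop :=
  ∀ v ∈ Q.S, V (a v) (K v)

theorem Val.cE {K : W → Λ} (h : Val Q V a K) (E : W → Prop) : Val (cE Q E) V a K :=
  fun v hv => h v (cE_sub hv)

theorem cost_law (h : Law Q a P X) (r : A → Λ) :
    cost Q z ψ a (fun v => r (a v)) = cost P z ψ X fun ω => r (X ω) := by
  unfold cost
  rw [h.ch_eq r z, h fun x => ψ x (r x)]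

theorem cost_ext {K K' : W → Λ} (h : ∀ v ∈ Q.S, K v = K' v) :
    cost Q z ψ a K = cost Q z ψ a K' := by
  unfold cost
  rw [ch_ext h fun _ _ => rfl, Q.E_congr fun v hv => by rw [h v hv]]

/-- A variable can be replaced by a function of the data without raising the cost. -/
theorem derand (Q : FP W) (z : A → T) (ψ : A → Λ → ℝ) (a : W → A) (K : W → Λ) : ∃ r : A → Λ,
    (∀ v ∈ Q.S, ∃ w ∈ Q.S, a w = a v ∧ r (a v) = K w) ∧
      cost Q z ψ a (fun v => r (a v)) ≤ cost Q z ψ a K := by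
  classical
  obtain ⟨v₀, h₀⟩ : Q.S.Nonempty :=
    Finset.nonempty_of_sum_ne_zero (by rw [Q.sum_one]; exact one_ne_zero)
  set f : W → ℝ := fun w => -Real.log (cm Q (fun v => z (a v)) K w) + ψ (a w) (K w)
  have : ∀ x : A, ∃ w ∈ Q.S, ∀ v ∈ Q.S, a v = x → a w = x ∧ f w ≤ f v := fun x => by
    by_cases h : (Q.S.filter fun v => a v = x).Nonempty
    · obtain ⟨w, hw, k⟩ := Finset.exists_min_image _ f h
      exact ⟨w, (Finset.mem_filter.1 hw).1, fun v hv e =>
        ⟨(Finset.mem_filter.1 hw).2, k v (Finset.mem_filter.2 ⟨hv, e⟩)⟩⟩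
    · exact ⟨v₀, h₀, fun v hv e => absurd ⟨v, Finset.mem_filter.2 ⟨hv, e⟩⟩ h⟩
  choose g g1 g2 using this
  refine ⟨fun x => K (g x), fun v hv => ⟨_, g1 _, (g2 _ v hv rfl).1, rfl⟩, ?_⟩
  have h1 := ch_cross (P := Q) (Q := Q) (f := fun v => g (a v)) (fun v _ => g1 _) K
    fun v => z (a v)
  rw [ch_ext (fun _ _ => rfl) (G' := fun v => z (a v)) fun v hv => by
    rw [(g2 _ v hv rfl).1]] at h1
  have h2 := Q.E_mono (F := fun v => -Real.log (cm Q (fun v => z (a v)) K (g (a v))) +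
    ψ (a v) (K (g (a v)))) (G := f) fun v hv => by
      have := g2 _ v hv rfl
      simpa only [f, this.1] using this.2
  simp only [f, FP.E_add] at h2
  unfold cost
  rw [ch_eq_cm Q _ K]
  linarith

theorem derand_val {K : W → Λ} (h : Val Q V a K) (z : A → T) (ψ : A → Λ → ℝ) : ∃ r : A → Λ,
    Val Q V a (fun v => r (a v)) ∧ cost Q z ψ a (fun v => r (a v)) ≤ cost Q z ψ a K := by
  obtain ⟨r, h1, h2⟩ := derand Q z ψ a K
  refine ⟨r, fun v hv => ?_, h2⟩
  obtain ⟨w, hw, e1, e2⟩ := h1 v hv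
  simp only [e2]
  exact e1 ▸ h w hw

/-- `s` is valid and its cost is minimal up to `ε` times the least weight of a point. -/
structure Opt (P : FP Ω) (X : Ω → A) (z : A → T) (V : A → Λ → Prop) (ψ : A → Λ → ℝ) (ε : ℝ)
    (s : A → Λ) : Prop where
  pos : 0 ≤ ε
  val : Val P V X fun ω => s (X ω)
  min : ∀ r : A → Λ, Val P V X (fun ω => r (X ω)) → ∀ ω ∈ P.S,
    cost P z ψ X (fun ω => s (X ω)) ≤ cost P z ψ X (fun ω => r (X ω)) + ε * P.p ω

theorem ex_opt (P : FP Ω) (X : Ω → A) (z : A → T) (hε : 0 < ε) (hn : ∀ ω ∈ P.S, ∃ l, V (X ω) l)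
    (hb : ∀ ω ∈ P.S, ∃ b, ∀ l, V (X ω) l → b ≤ ψ (X ω) l) : ∃ s, Opt P X z V ψ ε s := by
  classical
  have ne : P.S.Nonempty := Finset.nonempty_of_sum_ne_zero (by rw [P.sum_one]; exact one_ne_zero)
  obtain ⟨m, hm, km⟩ := Finset.exists_min_image _ P.p ne
  obtain ⟨l₀, -⟩ := hn m hm
  have : ∀ x : A, ∃ l, ∀ ω ∈ P.S, X ω = x → V x l := fun x => by
    by_cases h : ∃ ω ∈ P.S, X ω = x
    · obtain ⟨ω, h1, rfl⟩ := h
      exact (hn ω h1).imp fun _ k _ _ _ => k
    · exact ⟨l₀, fun ω h1 h2 => absurd ⟨ω, h1, h2⟩ h⟩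
  choose r₀ h₀ using this
  choose! b hb using hb
  set C : Set ℝ := {t | ∃ r : A → Λ, Val P V X (fun ω => r (X ω)) ∧
    cost P z ψ X (fun ω => r (X ω)) = t}
  have bd : BddBelow C := ⟨P.E b, by
    rintro _ ⟨r, h, rfl⟩
    exact le_add_of_nonneg_of_le (ch_nonneg _ _) (P.E_mono fun ω hω => hb ω hω _ (h ω hω))⟩
  obtain ⟨_, ⟨s, h1, rfl⟩, h2⟩ := Real.lt_sInf_add_pos (s := C)
    ⟨_, r₀, fun ω hω => h₀ _ ω hω rfl, rfl⟩ (mul_pos hε (P.pos m hm))
  exact ⟨s, hε.le, h1, fun r h ω hω => h2.le.trans (add_le_add (csInf_le bd ⟨r, h, rfl⟩)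
    (mul_le_mul_of_nonneg_left (km ω hω) hε.le))⟩

theorem p_le_pb {E : Ω → Prop} {ω : Ω} (hω : ω ∈ P.S) (h : E ω) : P.p ω ≤ pb P E := by
  classical
  rw [pb_eq]
  exact Finset.single_le_sum (f := P.p) (fun x hx => (P.pos x (Finset.mem_filter.1 hx).1).le)
    (Finset.mem_filter.2 ⟨hω, h⟩)

theorem p_le_one {ω : Ω} (hω : ω ∈ P.S) : P.p ω ≤ 1 :=
  (p_le_pb (E := fun _ => True) hω trivial).trans (pb_le_one _ _)

theorem Opt.mono {ε' : ℝ} (h : Opt P X z V ψ ε s) (e : ε ≤ ε') : Opt P X z V ψ ε' s :=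
  ⟨h.pos.trans e, h.val, fun r k ω hω => (h.min r k ω hω).trans
    (add_le_add le_rfl (mul_le_mul_of_nonneg_right e (P.pos ω hω).le))⟩

/-- Optimality against variables on extensions. -/
theorem Opt.ext (h : Opt P X z V ψ ε s) (l : Law Q a P X) {R : W → Λ} (k : Val Q V a R) {ω : Ω}
    (hω : ω ∈ P.S) : cost P z ψ X (fun ω => s (X ω)) ≤ cost Q z ψ a R + ε * P.p ω := by
  obtain ⟨r, h1, h2⟩ := derand_val k z ψ
  rw [cost_law l] at h2
  refine (h.min r (fun x hx => ?_) ω hω).trans (add_le_add h2 le_rfl)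
  obtain ⟨v, hv, e⟩ := l.symm.ex hx
  simpa only [← e] using h1 v hv

theorem Opt.law (h : Opt P X z V ψ ε s) (l : Law Q a P X) {R : W → Λ} (k : Val Q V a R) :
    cost P z ψ X (fun ω => s (X ω)) ≤ cost Q z ψ a R + ε := by
  obtain ⟨ω, hω⟩ : P.S.Nonempty :=
    Finset.nonempty_of_sum_ne_zero (by rw [P.sum_one]; exact one_ne_zero)
  exact (h.ext l k hω).trans (add_le_add le_rfl (mul_le_of_le_one_right h.pos (p_le_one hω)))

theorem E_split (Q : FP W) (E : W → Prop) (F : W → ℝ) :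
    Q.E F = pb Q E * (cE Q E).E F + (1 - pb Q E) * (cE Q fun v => ¬E v).E F := by
  classical
  rw [← pb_not, E_cE, E_cE, ← Q.E_add]
  exact Q.E_congr fun v _ => by by_cases h : E v <;> simp [h]

theorem cost_split (Q : FP W) (E : W → Prop) (K : W → Λ) :
    cost Q z ψ a K + ch Q E (fun v => (K v, z (a v))) = ch Q E (fun v => z (a v)) +
      pb Q E * cost (cE Q E) z ψ a K + (1 - pb Q E) * cost (cE Q fun v => ¬E v) z ψ a K := by
  have h1 := ch_chain (P := Q) K E fun v => z (a v)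
  have h2 := ch_chain (P := Q) E K fun v => z (a v)
  have h3 : ch Q (fun v => (K v, E v)) (fun v => z (a v)) =
      ch Q (fun v => (E v, K v)) fun v => z (a v) :=
    le_antisymm (ch_mono (((Fn.snd _ _).left _).pair ((Fn.fst _ _).left _)))
      (ch_mono (((Fn.snd _ _).left _).pair ((Fn.fst _ _).left _)))
  have h4 : ch Q K (fun v => (E v, z (a v))) = ch Q K fun v => (z (a v), E v) :=
    le_antisymm (ch_anti ((Fn.snd _ _).pair (Fn.fst _ _)))
      (ch_anti ((Fn.snd _ _).pair (Fn.fst _ _)))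
  have h5 := KEA.key Q E K fun v => z (a v)
  unfold cost
  rw [E_split Q E]
  linarith

theorem cE_mul {E : W → Prop} {F G : FP W → ℝ} (h : (∃ v ∈ Q.S, E v) → F (cE Q E) = G (cE Q E)) :
    pb Q E * F (cE Q E) = pb Q E * G (cE Q E) := by
  by_cases k : ∃ v ∈ Q.S, E v
  · rw [h k]
  · rw [pb_zero fun v a b => k ⟨v, a, b⟩, zero_mul, zero_mul]

/-- Optimality on an event of an extension. -/
theorem Opt.event (h : Opt P X z V ψ ε s) (l : Law Q a P X) (E : W → Prop) {R : W → Λ}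
    (k : ∀ v ∈ Q.S, E v → V (a v) (R v)) {ω : Ω} (hω : ω ∈ P.S) :
    pb Q E * cost (cE Q E) z ψ a (fun v => s (a v)) ≤ pb Q E * cost (cE Q E) z ψ a R +
      ch Q E (fun v => (s (a v), z (a v))) + ε * P.p ω := by
  classical
  have h1 := h.ext l (R := fun v => if E v then R v else s (a v)) (fun v hv => by
    by_cases e : E v
    · simpa only [if_pos e] using k v hv e
    · obtain ⟨x, hx, e'⟩ := l.ex hv
      simpa only [if_neg e, ← e'] using h.val x hx) hω
  have h2 := cost_split (z := z) (ψ := ψ) (a := a) Q E fun v => s (a v)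
  have h3 := cost_split (z := z) (ψ := ψ) (a := a) Q E fun v => if E v then R v else s (a v)
  have h4 := ch_nonneg (P := Q) E fun v => (if E v then R v else s (a v), z (a v))
  have h5 := cE_mul (Q := Q) (E := E)
    (F := fun U => cost U z ψ a fun v => if E v then R v else s (a v))
    (G := fun U => cost U z ψ a R) fun e => cost_ext fun v hv => if_pos ((mem_cE e v).1 hv).2
  have h6 := cE_mul (Q := Q) (E := fun v => ¬E v)
    (F := fun U => cost U z ψ a fun v => if E v then R v else s (a v))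
    (G := fun U => cost U z ψ a fun v => s (a v))
    fun e => cost_ext fun v hv => if_neg ((mem_cE e v).1 hv).2
  rw [pb_not] at h6
  rw [cost_law l] at h2
  linarith

theorem p_cE {E : Ω → Prop} (h : ∃ ω ∈ P.S, E ω) (ω : Ω) : pb P E * (cE P E).p ω = P.p ω := by
  have := (pb_pos P h).ne'
  unfold cE
  rw [dif_pos h]
  field_simp

/-- Optimality passes to every event read from the label and the context. -/
theorem Opt.cE (h : Opt P X z V ψ ε s) {E : Ω → Prop}
    (f : Fn P E fun ω => (s (X ω), z (X ω))) : Opt (cE P E) X z V ψ ε s := by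
  refine ⟨h.pos, h.val.cE E, fun r k ω hω => ?_⟩
  by_cases e : ∃ ω ∈ P.S, E ω
  · have h1 := h.event (Law.rfl X) E (R := fun ω => r (X ω))
      (fun v hv u => k v ((mem_cE e v).2 ⟨hv, u⟩)) (cE_sub hω)
    rw [ch_zero f, ← p_cE e ω] at h1
    refine le_of_mul_le_mul_left ?_ (pb_pos P e)
    linarith
  · have : H17F.cE P E = P := dif_neg e
    rw [this] at k hω ⊢
    exact h.min r k ω hω

theorem Opt.cv {B : Type} (h : Opt P X z V ψ ε s) {Y : Ω → B}
    (f : Fn P Y fun ω => (s (X ω), z (X ω))) (y : B) : Opt (cv P Y y) X z V ψ ε s :=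
  h.cE fun u hu v hv e => by simp only [f u hu v hv e]

theorem hh_ev (Q : FP W) (E : W → Prop) : hh Q E ≤ pb Q E * (1 - Real.log (pb Q E)) := by
  have e1 : H39F.pv Q E True = pb Q E := pb_congr fun _ _ => by simp
  have e2 : H39F.pv Q E False = 1 - pb Q E := (pb_congr fun _ _ => by simp).trans (pb_not Q E)
  rw [H39F.hh_eq, KEA.E_prop Q E fun t => -Real.log (H39F.pv Q E t), e1, e2]
  have := Real.negMulLog_le_one_sub_self (sub_nonneg.2 (pb_le_one Q E))
  rw [Real.negMulLog] at this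
  linarith

theorem dn_inv (h : Dn c Q ρ P) {m : Ω} (hm : m ∈ P.S) (k : ∀ ω ∈ P.S, P.p m ≤ P.p ω) :
    Dn (P.p m)⁻¹ Q ρ P := fun F hF => by
  refine (Q.E_mono fun v hv => ?_).trans_eq (Q.E_const _)
  rw [le_inv_mul_iff₀ (P.pos m hm)]
  exact (mul_le_mul_of_nonneg_right (k _ (h.mem hv)) (hF _)).trans (Finset.single_le_sum
    (f := fun ω => P.p ω * F ω) (fun x hx => mul_nonneg (P.pos x hx).le (hF x)) (h.mem hv))

/-- Optimality on dominated laws. -/
theorem Opt.dn (h : Opt P X z V ψ ε s) (d : Dn c Q ρ P) {R : W → Λ}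
    (k : Val Q V (fun v => X (ρ v)) R) :
    cost Q z ψ (fun v => X (ρ v)) (fun v => s (X (ρ v))) ≤
      cost Q z ψ (fun v => X (ρ v)) R + Real.log c + 1 + ε := by
  obtain ⟨m, hm, km⟩ := Finset.exists_min_image _ P.p
    (Finset.nonempty_of_sum_ne_zero (by rw [P.sum_one]; exact one_ne_zero) : P.S.Nonempty)
  have m0 := P.pos m hm
  wlog hc : c ≤ (P.p m)⁻¹ generalizing c
  · have := this (dn_inv d hm km) le_rfl
    linarith [Real.log_le_log (inv_pos.2 m0) (not_le.1 hc).le]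
  have c0 : 0 < c := one_pos.trans_le d.one_le
  obtain ⟨r, r1, r2⟩ := derand_val k z ψ
  obtain ⟨U, u1, u2, u3⟩ := d.split
  have ex : ∃ x ∈ U.S, x.2 = true := ex_of_pb (by rw [u2]; positivity)
  have h1 := h.event (u1.comp X) (fun x => x.2 = true) (R := fun x => r (X x.1)) (fun x hx e => by
    obtain ⟨v, hv, e'⟩ := u3.ex ((mem_cE ex x).2 ⟨hx, e⟩)
    exact e' ▸ r1 v hv) hm
  have h2 := (ch_le_hh (P := U) (fun x => x.2 = true) fun x => (s (X x.1), z (X x.1))).trans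
    (hh_ev U _)
  have h3 := fun r : A → Λ => cost_law (z := z) (ψ := ψ) (u3.comp X) r
  rw [h3, h3, u2] at h1
  rw [u2, Real.log_inv] at h2
  have h4 : ε * P.p m ≤ c⁻¹ * ε := by
    rw [mul_comm]
    exact mul_le_mul_of_nonneg_right ((le_inv_comm₀ c0 m0).1 hc) h.pos
  refine le_of_mul_le_mul_left ?_ (inv_pos.2 c0)
  nlinarith [mul_le_mul_of_nonneg_left r2 (inv_pos.2 c0).le]

end Pool.Agent.MP_5168f5_an.QA.Op
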