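import Pool.Agent.MP_5168f5_an.QA.Spec1
import Pool.Agent.MP_5168f5_an.QA.GapLow
import Pool.Agent.MP_5168f5_an.QA.Bd
import Pool.Agent.MP_5168f5_an.QA.Opt

/-! One step of the chain of optimal labels. -/

namespace Pool.Agent.MP_5168f5_an.QA.Stp

open H19 H17S H17F R4 AN MvPolynomial Finset
open K31 (Dn dn_law)
open Nc (jac)
open MX (cm ch_cross cross_ch)

variable {N D M c w : ℕ} {Ω W Γ : Type} {P : FP Ω} {Q : FP W} {π : W → Ω} {g : Sh N Ω}
  {η θ e b : ℝ} {p : ℝ → ℝ} {cen : ℕ → ℝ} {S S' : Ω → Dc N D}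

theorem seg_sub {l : Ln N} {s r : ℝ} :
    seg M (c + w) l (fl1 (c + w) s) r ⊆ seg M c l (fl1 c s) r := by
  rintro _ ⟨t, ξ, a, b, k, rfl⟩
  have p : (0 : ℝ) < 2 ^ w := by positivity
  have e : (2 : ℝ) ^ (c + w) = 2 ^ w * 2 ^ c := by ring
  have h1 : 2 ^ w * fl1 c s ≤ fl1 (c + w) s := Int.le_floor.2 (by
    push_cast
    rw [e, mul_assoc]
    exact mul_le_mul_of_nonneg_left (Int.floor_le _) p.le)
  have h2 : fl1 (c + w) s + 1 ≤ 2 ^ w * (fl1 c s + 1) := Int.floor_lt.2 (by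
    push_cast
    rw [e, mul_assoc]
    exact mul_lt_mul_of_pos_left (Int.lt_floor_add_one _) p)
  have h3 : (2 : ℝ) ^ w * fl1 c s ≤ fl1 (c + w) s := by exact_mod_cast h1
  have h4 : (fl1 (c + w) s : ℝ) + 1 ≤ 2 ^ w * (fl1 c s + 1) := by exact_mod_cast h2
  rw [e, mul_assoc] at a b
  exact ⟨t, ξ, le_of_mul_le_mul_left (h3.trans a) p, le_of_mul_le_mul_left (b.trans h4) p, k, rfl⟩

/-- A datum stays correct on a shorter interval, with a smaller Jacobian. -/
theorem dw (N D : ℕ) : ∃ C : ℝ, 0 ≤ C ∧ ∀ (M c w : ℕ) (l : Ln N) (s : ℝ) (δ : Dc N D),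
    δ.h = fl1 c s → δ.Ok M c l →
    (⟨δ.ν, δ.J * Real.exp (-(C * (w + 1))), fl1 (c + w) s⟩ : Dc N D).Ok M (c + w) l := by
  set E := (N + 1) * D
  have c1 := one_le_cR E
  have c2 := Real.log_nonneg c1
  refine ⟨Real.log (cR E) + E, by positivity, fun M c w l s δ e k => ?_⟩
  obtain ⟨Φ, u, y, hy, j⟩ := k.wit
  rw [e] at hy
  obtain ⟨t, ξ, t1, t2, rfl⟩ := seg_far (Nat.le_add_right c w) hy
  obtain ⟨s', s1, s2, s3⟩ := fatRem' (F := fun y => eval y (jac fun i => (Φ i).1))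
    ⟨_, Nc.deg_jac fun i => C1.deg_PD (Φ i), fun _ => rfl⟩ l.1 l.2 ξ (by positivity)
    (le_ratio (Nat.le_add_right c w)) t1
  refine ⟨k.hb, mul_pos k.pos (Real.exp_pos _), fun y hy => k.bd y (e ▸ seg_sub hy), Φ, u, _,
    mem_seg.2 ⟨s', ξ, s1, s2, t2, rfl⟩, ?_⟩
  rw [Real.exp_neg, ← div_eq_mul_inv, div_le_iff₀' (Real.exp_pos _)]
  refine (j.trans s3).trans (mul_le_mul_of_nonneg_right ?_ (abs_nonneg _))
  rw [show (2 : ℝ) / 2 ^ c / (1 / 2 ^ (c + w)) = 2 ^ (w + 1) by field_simp; ring, ← pow_mul,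
    add_mul (Real.log _), Real.exp_add]
  refine mul_le_mul ((Real.exp_log (one_pos.trans_le c1)).ge.trans (Real.exp_le_exp.2
    (le_mul_of_one_le_right c2 (by simp)))) ((two_pow_le_exp _).trans_eq ?_) (by positivity)
    (by positivity)
  rw [← show (N + 1) * D = E from rfl]
  push_cast
  rw [mul_comm]

theorem pen_nonneg (cen : ℕ → ℝ) (ν : VD N D → ℝ) : 0 ≤ pen cen ν :=
  sum_nonneg fun _ _ => abs_nonneg _

theorem pen_tri (cen : ℕ → ℝ) (ν ν' : VD N D → ℝ) : pen cen ν ≤ pen cen ν' + dsp ν ν' := by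
  rw [dsp, pen, pen, pen, ← sum_add_distrib]
  exact sum_le_sum fun k _ => (abs_sub_le _ (sg k ν') _).trans_eq (add_comm _ _)

theorem dsp_le (cen : ℕ → ℝ) (ν ν' : VD N D → ℝ) : dsp ν ν' ≤ pen cen ν + pen cen ν' := by
  rw [dsp, pen, pen, pen, ← sum_add_distrib]
  exact sum_le_sum fun k _ => (abs_sub_le _ (cen k) _).trans_eq (by rw [abs_sub_comm (cen k)])

theorem pn_nonneg (h : Pn θ p) {y : ℝ} (hy : 0 ≤ y) : 0 ≤ p y := h.1 ▸ (h.2 0 y le_rfl hy).1

theorem pn_le (h : Pn θ p) {y : ℝ} (hy : 0 ≤ y) : p y ≤ θ * y := by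
  simpa [h.1] using (h.2 0 y le_rfl hy).2

theorem pn_add (h : Pn θ p) {x y : ℝ} (hx : 0 ≤ x) (hy : 0 ≤ y) : p (x + y) ≤ p x + 0 + θ * y := by
  simpa using (h.2 x (x + y) hx (le_add_of_nonneg_right hy)).2

theorem val_dn (h : Val P g M c S) (d : Dn b Q π P) : Val Q (g.pull π) M c fun v => S (π v) :=
  fun _ hv => h _ (d.mem hv)

theorem box_dn (h : g.Box P) (d : Dn b Q π P) : (g.pull π).Box Q := fun _ hv => h _ (d.mem hv)

theorem log_mul_dn {W' : Type} {Q' : FP W'} {π' : W' → W} {b' : ℝ} (d : Dn b Q π P)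
    (d' : Dn b' Q' π' Q) : Real.log (b' * b) = Real.log b' + Real.log b :=
  Real.log_mul (one_pos.trans_le d'.one_le).ne' (one_pos.trans_le d.one_le).ne'

theorem opt_dn (h : Opt η p cen P g M c S e) (d : Dn b Q π P) :
    Opt η p cen Q (g.pull π) M c (fun v => S (π v)) (e + Real.log b) := fun W' Q' π' b' R d' k => by
  have := h W' Q' _ _ R (d'.trans d) k
  rw [log_mul_dn d d'] at this
  exact this.trans_eq (by ring)

theorem opd_dn (h : Opd η θ P g M c S e) (d : Dn b Q π P) :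
    Opd η θ Q (g.pull π) M c (fun v => S (π v)) (e + Real.log b) := fun W' Q' π' b' R d' k => by
  have := h W' Q' _ _ R (d'.trans d) k
  rw [log_mul_dn d d'] at this
  exact this.trans_eq (by ring)

theorem opt_mono {e' : ℝ} (h : Opt η p cen P g M c S e) (k : e ≤ e') :
    Opt η p cen P g M c S e' := fun W Q π b R d v => (h W Q π b R d v).trans (add_le_add le_rfl k)

theorem opd_mono {e' θ' : ℝ} (h : Opd η θ P g M c S e) (k : e ≤ e') (k' : θ ≤ θ') :
    Opd η θ' P g M c S e' := fun W Q π b R d v => (h W Q π b R d v).trans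
  (add_le_add (add_le_add (add_le_add le_rfl (mul_le_mul_of_nonneg_right k'
    (Q.E_nonneg fun _ _ => pen_nonneg _ _))) le_rfl) k)

/-- From the penalty to the distance of the spectra. -/
theorem opd_of_opt {t b₀ : ℝ} (h : Opt η p cen P g M c S e) (hp : Pn t p)
    (k : ∀ x y, 0 ≤ x → 0 ≤ y → p (x + y) ≤ p x + b₀ + θ * y) :
    Opd η θ P g M c S (e + b₀) := fun W Q π b R d v => by
  have h1 := h W Q π b R d v
  have h2 : pE p cen Q R ≤ Q.E fun v =>
      p (pen cen (S (π v)).ν) + b₀ + θ * dsp (R v).ν (S (π v)).ν := Q.E_mono fun v _ =>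
    (hp.2 _ _ (pen_nonneg _ _) (pen_tri cen _ _)).1.trans (k _ _ (pen_nonneg _ _) (pen_nonneg _ _))
  rw [FP.E_add, FP.E_add, FP.E_mul, FP.E_const] at h2
  unfold pE at h1 h2
  linarith

/-- An optimal label exists. -/
theorem ex_one (h0 : 0 ≤ η) (h1 : η ≤ 1) (hp : Pn θ p) (cen : ℕ → ℝ) (hb : g.Box P) (hc : c ≤ M)
    (hS : Val P g M c S) : ∃ s : Ln N × ℤ → Dc N D, Val P g M c (fun ω => s (g.O c ω)) ∧
      Opt η p cen P g M c (fun ω => s (g.O c ω)) 2 := by
  obtain ⟨A, -, hA⟩ := BdA.bd N D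
  obtain ⟨s, hs⟩ := Op.ex_opt P (g.O c) Prod.snd
    (V := fun a (δ : Dc N D) => δ.h = a.2 ∧ δ.Ok M c a.1)
    (ψ := fun _ δ => -sco η δ + p (pen cen δ.ν)) one_pos (fun ω hω => ⟨_, hS ω hω⟩)
    fun ω hω => ⟨-(A * (M + 1)), fun δ k => by
      have := (hA M c _ δ hc (k.1 ▸ BdA.box_in hb c hω) k.2).2.2 η h0 h1
      linarith [pn_nonneg hp (pen_nonneg cen δ.ν)]⟩
  refine ⟨s, hs.val, fun W Q π b R d v => ?_⟩
  have := hs.dn d (R := R) v
  simp only [Op.cost, FP.E_add, FP.E_neg] at this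
  unfold cst pE
  change ch Q _ (fun v => (g.O c (π v)).2) - _ + _ ≤
    ch Q _ (fun v => (g.O c (π v)).2) - _ + _ + _ + _
  linarith

/-- A label that is optimal on every atom of the context. -/
theorem ex_lab (h0 : 0 ≤ η) (h1 : η ≤ 1) (hp : Pn θ p) (χ : Ω → Γ) (cen : Γ → ℕ → ℝ)
    (hb : g.Box P) (hc : c ≤ M) (hS : Val P g M c S) : ∃ K : Ω → Dc N D, Val P g M c K ∧
      Fn P K (fun ω => (g.O c ω, χ ω)) ∧ ∀ a, Opt η p (cen a) (cv P χ a) g M c K 2 ∨
        ∀ ω ∈ P.S, χ ω ≠ a := by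
  choose s s1 s2 using fun a => ex_one (P := cv P χ a) h0 h1 hp (cen a)
    (fun ω hω => hb ω (cE_sub hω)) hc fun ω hω => hS ω (cE_sub hω)
  refine ⟨fun ω => s (χ ω) (g.O c ω), fun ω hω => s1 _ ω ((MX.mem_cv hω ω).2 ⟨hω, rfl⟩),
    fun u _ v _ e => by simp only [Prod.mk.injEq] at e; simp only [e.1, e.2], fun a => ?_⟩
  refine or_iff_not_imp_right.2 fun k W Q π b R d v => ?_
  push Not at k
  have e : ∀ v ∈ Q.S, s (χ (π v)) (g.O c (π v)) = s a (g.O c (π v)) := fun v hv => by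
    rw [((mem_cE k _).1 (d.mem hv)).2]
  have := s2 a W Q π b R d v
  refine le_of_eq_of_le ?_ this
  unfold cst pE
  congr 1
  · congr 1
    · exact ch_ext e fun _ _ => rfl
    · exact Q.E_congr fun v hv => by simp only [e v hv]
  · exact Q.E_congr fun v hv => by simp only [e v hv]

theorem val_eq (h : Val P g M c S) (f : Fn P S (g.O c)) :
    val η P g M c S = ch P g.l (g.zc c) - cst η P g c S - (c + N * M) * lg := by
  have h1 := ch_symm (P := P) g.l S (g.zc c)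
  have h2 : ch P S (fun ω => (g.l ω, g.zc c ω)) = 0 := ch_zero f
  have h3 : ch P g.l (fun ω => (S ω, g.zc c ω)) = ch P g.l S := le_antisymm (ch_anti (Fn.fst _ _))
    (ch_anti ((Fn.rfl _).pair fun u hu v hv e => by
      rw [Sh.zc, Sh.zc, ← (h u hu).1, ← (h v hv).1, e]))
  unfold val cst
  linarith

theorem cst_law (l : Law Q π P id) :
    cst η Q (g.pull π) c (fun v => S (π v)) = cst η P g c S := by
  unfold cst
  rw [← l.ch_id S (g.zc c), ← show _ = P.E fun ω => sco η (S ω) from l fun ω => sco η (S ω)]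
  rfl

theorem fn_zc (c w : ℕ) : Fn P (g.zc c) (g.zc (c + w)) :=
  fun _ _ _ _ h => fl1_eq_of_le (Nat.le_add_right c w) h

theorem ch_zc (c w : ℕ) : ch P (g.zc (c + w)) (g.zc c) ≤ w * lg := by
  have := ch_fl1_refine (P := P) (x := g.z) (G := g.zc c) (j := fun _ => c) (i := fun _ => w)
    (fun _ _ _ _ _ => rfl) (fun _ _ _ _ _ => rfl) (Fn.rfl _)
  rwa [FP.E_const] at this

/-- One step: the loss of value and the move of the label. -/
theorem step (ex : EXT N D) (nj : NJ N D) : ∃ C : ℝ, 1 ≤ C ∧ ∀ η t s : ℝ, Par N D C η t → 0 < s →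
    ∃ C' : ℝ, 0 ≤ C' ∧ ∀ (Ω : Type) (P : FP Ω) (g : Sh N Ω) (M c w : ℕ) (S S' : Ω → Dc N D)
    (p : ℝ → ℝ) (cen : ℕ → ℝ) (e r : ℝ), g.Box P → c + w ≤ M → Val P g M (c + w) S →
    Val P g M c S' → Fn P S (g.O (c + w)) → Fn P S' (g.O c) → 0 ≤ e → Opd η t P g M (c + w) S e →
    Opt η p cen P g M c S' e → Pn t p → (∀ ω ∈ P.S, pen cen (S ω).ν ≤ r) →
    val η P g M (c + w) S - val η P g M c S' + pE p cen P S' ≤
        N * lg * w + ch P (g.zc (c + w)) (g.O c) + (C * η + s) * w + t * r + C' * (1 + e) ∧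
      P.E (fun ω => ds (S ω).ν (S' ω).ν + |Real.log (S ω).J - Real.log (S' ω).J|) ≤
        C' * (1 + e + w + r + P.E fun ω => pen cen (S' ω).ν) := by
  obtain ⟨C₁, a1, a2⟩ := ex
  obtain ⟨C₂, b1, b2⟩ := nj
  obtain ⟨A, A0, hA⟩ := dw N D
  refine ⟨C₁ + C₂, by linarith, fun η t s pa hs => ?_⟩
  obtain ⟨K₁, k1, a3⟩ := a2 η t s (pa.mono (by linarith)) hs
  obtain ⟨K₂, k2, b3⟩ := b2 η t (pa.mono (by linarith))
  have η0 := pa.1
  have η1 : C₁ * η ≤ 1 := (pa.mono (by linarith)).2.1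
  have t1 : t ≤ 1 := by
    have := pa.2.2.2.trans (pow_le_one₀ η0.le (by nlinarith))
    nlinarith [pa.2.2.1]
  set B : ℝ := A + K₁ + N + s + 4
  have B0 : 0 ≤ B := by positivity
  refine ⟨K₁ + 1 + A + K₂ * (2 + B), by positivity,
    fun Ω P g M c w S S' p cen e r hb hc v v' f f' e0 o o' hp hr => ?_⟩
  obtain ⟨W, Q, π, K, l, vK, q⟩ := a3 Ω P g M c w S e hb hc v e0 o
  have w0 := Nat.cast_nonneg (α := ℝ) w
  have r0 : 0 ≤ r := (P.E_nonneg fun ω _ => pen_nonneg cen (S ω).ν).trans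
    ((P.E_mono hr).trans_eq (P.E_const r))
  have h1 := o' W Q π 1 K (dn_law l) vK
  have h2 : pE p cen Q K ≤ Q.E fun v => t * dsp (K v).ν (S (π v)).ν + t * r :=
    Q.E_mono fun v hv => (pn_le hp (pen_nonneg _ _)).trans (by
      have := hr _ ((dn_law l).mem hv)
      rw [← mul_add]
      exact mul_le_mul_of_nonneg_left (by linarith [pen_tri cen (K v).ν (S (π v)).ν]) pa.2.2.1)
  rw [FP.E_add, FP.E_mul, FP.E_const] at h2
  rw [cst_law l, Real.log_one, show pE p cen Q (fun v => S' (π v)) = pE p cen P S' from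
    l fun ω => p (pen cen (S' ω).ν)] at h1
  have p0 : 0 ≤ pE p cen P S' := P.E_nonneg fun _ _ => pn_nonneg hp (pen_nonneg _ _)
  have p1 : 0 ≤ P.E fun ω => pen cen (S' ω).ν := P.E_nonneg fun _ _ => pen_nonneg _ _
  constructor
  · have h3 := ch_symm (P := P) g.l (g.zc (c + w)) (g.zc c)
    have h4 : ch P g.l (fun ω => (g.zc (c + w) ω, g.zc c ω)) = ch P g.l (g.zc (c + w)) :=
      le_antisymm (ch_anti (Fn.fst _ _)) (ch_anti ((Fn.rfl _).pair (fn_zc c w)))
    have h5 : ch P (g.zc (c + w)) (fun ω => (g.l ω, g.zc c ω)) = ch P (g.zc (c + w)) (g.O c) := rfl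
    rw [val_eq v f, val_eq v' f']
    push_cast
    nlinarith [mul_nonneg (mul_nonneg (zero_le_one.trans b1) η0.le) w0,
      mul_nonneg (show 0 ≤ A + K₂ * (2 + B) by positivity) (show 0 ≤ 1 + e by positivity)]
  · set A' : Ω → Dc N D := fun ω =>
      ⟨(S' ω).ν, (S' ω).J * Real.exp (-(A * (w + 1))), fl1 (c + w) (g.z ω)⟩
    have lJ : ∀ ω ∈ P.S, Real.log (A' ω).J = Real.log (S' ω).J - A * (w + 1) := fun ω hω => by
      rw [Real.log_mul (v' ω hω).2.pos.ne' (Real.exp_pos _).ne', Real.log_exp, sub_eq_add_neg]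
    have h3 : cst η P g (c + w) A' ≤ cst η P g c S' + A * (w + 1) := by
      have u1 : ch P A' (g.zc (c + w)) ≤ ch P S' (g.zc c) := ch_le (fun x _ y _ e => by
        simp only [Prod.mk.injEq, Sh.zc] at e
        simp only [A', e.1, e.2]) (fn_zc c w)
      have u2 : P.E (fun ω => sco η (A' ω)) = P.E fun ω => sco η (S' ω) - A * (w + 1) :=
        P.E_congr fun ω hω => by rw [sco, lJ ω hω, sco]; ring
      rw [FP.E_sub, FP.E_const] at u2
      unfold cst
      linarith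
    have z1 := (ch_zc (P := P) (g := g) c w).trans (mul_le_of_le_one_right w0 lg_lt_one.le)
    have z2 : ((N + 1) * lg + C₁ * η + s) * w ≤ (N + 1 + 1 + s) * w :=
      mul_le_mul_of_nonneg_right (add_le_add (add_le_add
        (mul_le_of_le_one_right (by positivity) lg_lt_one.le) η1) le_rfl) w0
    have h4 := (b3 Ω P g M (c + w) S A' cen e (B * (1 + e + w + r)) hb hc v
      (fun ω hω => ⟨rfl, hA M c w _ _ _ (v' ω hω).1 (v' ω hω).2⟩) e0 (by positivity) o (by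
        have := mul_le_of_le_one_left r0 t1
        have : 0 ≤ A * e + A * r + K₁ * w + K₁ * r + (N + s) * (1 + e + r) := by positivity
        simp only [B]
        linarith)).2
    have h5 : P.E (fun ω => ds (S ω).ν (S' ω).ν + |Real.log (S ω).J - Real.log (S' ω).J|) ≤
        P.E (fun ω => ds (S ω).ν (A' ω).ν + |Real.log (S ω).J - Real.log (A' ω).J|) +
          A * (w + 1) := by
      rw [← P.E_const (A * (w + 1)), ← FP.E_add]
      refine P.E_mono fun ω hω => ?_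
      rw [lJ ω hω, add_assoc]
      refine add_le_add le_rfl (abs_le.2 ⟨?_, ?_⟩) <;>
        linarith [le_abs_self (Real.log (S ω).J - (Real.log (S' ω).J - A * (w + 1))),
          neg_abs_le (Real.log (S ω).J - (Real.log (S' ω).J - A * (w + 1))),
          show 0 ≤ A * (w + 1) by positivity]
    have h6 : P.E (fun ω => pen cen (S ω).ν + pen cen (A' ω).ν) ≤
        r + P.E fun ω => pen cen (S' ω).ν := by
      rw [← P.E_const r, ← FP.E_add]
      exact P.E_mono fun ω hω => add_le_add (hr ω hω) le_rfl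
    set y := P.E fun ω => pen cen (S' ω).ν
    have h7 := mul_le_mul_of_nonneg_left (show 1 + e + B * (1 + e + w + r) + P.E (fun ω =>
      pen cen (S ω).ν + pen cen (A' ω).ν) ≤ (2 + B) * (1 + e + w + r + y) by
        nlinarith [mul_nonneg B0 p1]) k2
    have : 0 ≤ (K₁ + 1) * (1 + e + w + r + y) + A * (e + r + y) := by positivity
    linarith

/-- The pointwise value. -/
noncomputable def psi (η : ℝ) (P : FP Ω) (g : Sh N Ω) (M c : ℕ) (S : Ω → Dc N D) (ω : Ω) : ℝ :=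
  -Real.log (cm P S g.l ω) + sco η (S ω) - (c + N * M) * lg

theorem val_le (d : Dn b Q π P) : val η Q (g.pull π) M c (fun v => S (π v)) ≤
    Q.E fun v => psi η P g M c S (π v) := by
  simp only [psi, FP.E_add, FP.E_sub, FP.E_const]
  exact sub_le_sub_right (add_le_add (ch_cross (fun _ hv => d.mem hv) g.l S) le_rfl) _

theorem le_val (d : Dn b Q π P) : Q.E (fun v => psi η P g M c S (π v)) ≤
    val η Q (g.pull π) M c (fun v => S (π v)) + Real.log b := by
  simp only [psi, FP.E_add, FP.E_sub, FP.E_const]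
  have : _ ≤ ch Q (g.pull π).l (fun v => S (π v)) + _ := cross_ch d g.l S
  unfold val
  linarith

end Pool.Agent.MP_5168f5_an.QA.Stp
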