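import Pool.Agent.MP_5168f5_an.MX.Flat

/-! The entropy of a rounded vector given a rounded neighbour. -/

namespace Pool.Agent.MP_5168f5_an.QA.Op

open H19 H17S H17F MX

variable {Ω β ι : Type} {P : FP Ω} {G : Ω → β} {w : ℝ}

theorem ch_int (D : Ω → ℤ) {B : ℝ} (h : P.E (fun ω => |(D ω : ℝ)|) ≤ B) (G : Ω → β) :
    ch P D G ≤ lg + 2 * Real.log (B + 2) := by
  have h1 := hh_nat (P := P) (fun ω => (D ω).natAbs) (B := B) (by simpa using h)
  have h2 : ch P (fun ω => 0 ≤ D ω) G ≤ lg :=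
    ch_det fun _ _ => ⟨Finset.univ, by simp, fun _ _ _ => Finset.mem_univ _⟩
  refine (ch_mono (F' := fun ω => (0 ≤ D ω, (D ω).natAbs)) fun a _ b _ e => ?_).trans
    ((ch_subadd _ _ G).trans (add_le_add h2 ((ch_le_hh _ _).trans h1)))
  simp only [Prod.mk.injEq, eq_iff_iff] at e
  omega

theorem abs_floor_sub (x y : ℝ) : |((⌊x⌋ - ⌊y⌋ : ℤ) : ℝ)| ≤ |x - y| + 1 := by
  push_cast
  rw [abs_le]
  constructor <;> linarith [Int.floor_le x, Int.floor_le y, Int.lt_floor_add_one x,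
    Int.lt_floor_add_one y, le_abs_self (x - y), neg_abs_le (x - y)]

theorem ch_floor (hw : 0 < w) (Y Y' : Ω → ℝ) (f : Fn P (fun ω => ⌊Y' ω / w⌋) G) :
    ch P (fun ω => ⌊Y ω / w⌋) G ≤ lg + 2 * Real.log (P.E (fun ω => |Y ω - Y' ω|) / w + 3) := by
  have h1 := ch_int (P := P) (fun ω => ⌊Y ω / w⌋ - ⌊Y' ω / w⌋)
    (B := P.E (fun ω => |Y ω - Y' ω|) / w + 1) (by
      rw [div_eq_inv_mul, ← P.E_mul, ← P.E_const 1, ← P.E_add]
      refine P.E_mono fun ω _ => (abs_floor_sub _ _).trans_eq ?_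
      rw [← sub_div, abs_div, abs_of_pos hw, div_eq_inv_mul]) G
  rw [add_assoc, show (1 : ℝ) + 2 = 3 by norm_num] at h1
  refine (ch_mono fun a ha b hb e => ?_).trans h1
  have := f a ha b hb (congrArg Prod.snd e)
  have := congrArg Prod.fst e
  simp only at *
  omega

theorem two_log_le {η x : ℝ} (hη : 0 < η) (hx : 0 ≤ x) :
    lg + 2 * Real.log (x + 3) ≤ η * x + (3 * η + 2 * Real.log (2 / η)) := by
  have := Real.log_le_sub_one_of_pos (show 0 < (x + 3) / (2 / η) by positivity)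
  rw [Real.log_div (by positivity) (by positivity),
    show (x + 3) / (2 / η) = η * (x + 3) / 2 by field_simp] at this
  linarith [lg_lt_one]

variable [Fintype ι]

theorem ch_pi {α : Type} (f : ι → Ω → α) (G : Ω → β) :
    ch P (fun ω i => f i ω) G ≤ ∑ i, ch P (f i) G := by
  classical
  obtain ⟨ω, -⟩ : P.S.Nonempty :=
    Finset.nonempty_of_sum_ne_zero (by rw [P.sum_one]; exact one_ne_zero)
  rcases isEmpty_or_nonempty ι with h | ⟨⟨i⟩⟩
  · simpa using (ch_zero fun _ _ _ _ _ => Subsingleton.elim _ _).le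
  · simpa using ch_pi_le (P := P) Finset.univ f (f i ω) G

/-- Logarithmic form. -/
theorem ch_vec_log (hw : 0 < w) (Y Y' : Ω → ι → ℝ) (f : Fn P (fun ω i => ⌊Y' ω i / w⌋) G) :
    ch P (fun ω i => ⌊Y ω i / w⌋) G ≤
      ∑ i, (lg + 2 * Real.log (P.E (fun ω => |Y ω i - Y' ω i|) / w + 3)) :=
  (ch_pi (fun i ω => ⌊Y ω i / w⌋) G).trans (Finset.sum_le_sum fun i _ =>
    ch_floor hw _ _ fun a ha b hb e => congrFun (f a ha b hb e) i)

/-- Linear form with an arbitrary small slope. -/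
theorem ch_vec_lin {η : ℝ} (hη : 0 < η) (hw : 0 < w) (Y Y' : Ω → ι → ℝ)
    (f : Fn P (fun ω i => ⌊Y' ω i / w⌋) G) : ch P (fun ω i => ⌊Y ω i / w⌋) G ≤
      η * (P.E (fun ω => ∑ i, |Y ω i - Y' ω i|) / w) +
        Fintype.card ι * (3 * η + 2 * Real.log (2 / η)) := by
  refine (ch_vec_log hw Y Y' f).trans ((Finset.sum_le_sum fun i _ => two_log_le hη
    (div_nonneg (P.E_nonneg fun _ _ => abs_nonneg _) hw.le)).trans_eq ?_)
  rw [Finset.sum_add_distrib, ← Finset.mul_sum, ← Finset.sum_div, P.E_sum]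
  simp [mul_add]

/-- Linear form with slope one. -/
theorem ch_vec (hw : 0 < w) (Y Y' : Ω → ι → ℝ) (f : Fn P (fun ω i => ⌊Y' ω i / w⌋) G) :
    ch P (fun ω i => ⌊Y ω i / w⌋) G ≤
      P.E (fun ω => ∑ i, |Y ω i - Y' ω i|) / w + 5 * Fintype.card ι := by
  have h := ch_vec_lin one_pos hw Y Y' f
  have : (Fintype.card ι : ℝ) * (3 * 1 + 2 * Real.log (2 / 1)) ≤ Fintype.card ι * 5 :=
    mul_le_mul_of_nonneg_left (by rw [div_one]; linarith [show Real.log 2 < 1 from lg_lt_one])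
      (Nat.cast_nonneg _)
  linarith

theorem fn_list {C : Type} (χ : ℕ → Ω → List C) (y : ℕ → Ω → C)
    (h : ∀ i ω, χ (i + 1) ω = y i ω :: χ i ω) (a k : ℕ) : Fn P (χ a) (χ (a + k)) := by
  induction k with
  | zero => exact Fn.rfl _
  | succ k ih =>
    refine ih.trans fun u _ v _ e => ?_
    rw [← add_assoc, h, h] at e
    exact (List.cons.inj e).2

/-- The entropy of a growing list of records. -/
theorem ch_list {C : Type} (χ : ℕ → Ω → List C) (y : ℕ → Ω → C)
    (h : ∀ i ω, χ (i + 1) ω = y i ω :: χ i ω) (G : Ω → β) (a k : ℕ) :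
    ch P (χ (a + k)) (fun ω => (χ a ω, G ω)) =
      ∑ i ∈ Finset.range k, ch P (y (a + i)) fun ω => (χ (a + i) ω, G ω) := by
  have mono := fn_list (P := P) χ y h a
  induction k with
  | zero => simpa using ch_zero (Fn.fst _ _)
  | succ k ih =>
    rw [Finset.sum_range_succ, ← ih, ← add_assoc]
    refine (ch_congr (F' := fun ω => (χ (a + k) ω, y (a + k) ω)) (fun u _ v _ e => ?_)
      (fun u _ v _ e => ?_) (Fn.rfl _) (Fn.rfl _)).trans ((ch_chain _ _ _).trans (congrArg _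
        (le_antisymm (ch_anti ((Fn.fst _ _).pair ((Fn.snd _ _).right _))) (ch_anti
          ((Fn.fst _ _).pair (((mono k).left _).pair (Fn.snd _ _)))))))
    · simp only [Prod.mk.injEq] at e
      rw [h, h, e.1.1, e.1.2]
    · have := congrArg Prod.fst e
      simp only [h, List.cons.injEq] at this
      exact Prod.ext this.2 this.1

end Pool.Agent.MP_5168f5_an.QA.Op
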