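import Pool.Agent.MP_5168f5_an.QA.SelD
import Pool.Agent.MP_5168f5_an.QA.Step
import Pool.Agent.MP_5168f5_an.QA.VecEnt

/-! The chain of optimal labels: the construction. -/

namespace Pool.Agent.MP_5168f5_an.QA

open H19 H17S H17F MX Filter Finset

namespace Chn

variable {N D : ℕ} {x : Cfg N} (Y : Chn D x)

/-- The observables. -/
noncomputable def ob (η : ℝ) (i : ℕ) (ω : x.Ω) : Fin (dV N D + 1) ⊕ Fin 3 → ℝ :=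
  Sum.elim (fun k => sg k (Y.S i ω).ν)
    ![Real.log (Y.S i ω).J, Y.ψ η i ω - Y.ψ η 0 ω, ∑ j ∈ range i, Y.dj j ω]

/-- The rounded observables. -/
noncomputable def ro (η : ℝ) (i : ℕ) (ω : x.Ω) (k : Fin (dV N D + 1) ⊕ Fin 3) : ℤ :=
  ⌊Y.ob η i ω k / Y.w⌋

/-- What the construction gives. -/
structure Bs (η : ℝ) (p : ℝ → ℝ) (cn : Y.Λ → ℕ → ℝ) : Prop where
  val : ∀ i ≤ Y.T, Val x.P (shOf x) Y.M (Y.lv i) (Y.S i)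
  fn : ∀ i ≤ Y.T, Fn x.P (Y.S i) fun ω => ((shOf x).O (Y.lv i) ω, Y.χ i ω)
  nest : ∀ i, Fn x.P (Y.χ i) (Y.χ (i + 1))
  opt : ∀ i ≤ Y.T, ∀ a ∈ x.P.S,
    Opt η p (cn (Y.χ i a)) (cv x.P (Y.χ i) (Y.χ i a)) (shOf x) Y.M (Y.lv i) (Y.S i) 2
  zero : Fn x.P (Y.χ 0) (fun _ => ()) ∧ ∀ ω, cn (Y.χ 0 ω) = fun _ => 0
  cen : ∀ i ω, pen (cn (Y.χ (i + 1) ω)) (Y.S i ω).ν ≤ (dV N D + 1) * Y.w
  rd : ∀ i, Fn x.P (Y.ro η i) (Y.χ (i + 1))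
  gen : ∀ i, Fn x.P (Y.χ (i + 1)) fun ω => (Y.ro η i ω, Y.χ i ω)

end Chn

/-- The construction. -/
def SBs : Prop := ∀ N D, E1 N D → ∀ (η t : ℝ) (p : ℝ → ℝ) (x : Cfg N) (M w : ℕ), 0 ≤ η → η ≤ 1 →
  Pn t p → x.Box → 0 < w → ∃ (Y : Chn D x) (cn : Y.Λ → ℕ → ℝ), Y.M = M ∧ Y.w = w ∧ Y.Bs η p cn

/-- The two ends. -/
def SEnds : Prop := ∀ N D, E1 N D → E2 N D → ∃ C : ℝ, 1 ≤ C ∧ ∀ (η t : ℝ) (p : ℝ → ℝ) (x : Cfg N)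
  (Y : Chn D x) (cn : Y.Λ → ℕ → ℝ), 0 ≤ η → η ≤ 1 → 0 ≤ t → t ≤ 1 → Pn t p → x.Box →
  Fn x.P x.θ (fun _ => ()) → Fn x.P x.ln (fun ω => fl Y.M (x.e ω)) → 0 < Y.w → Y.Bs η p cn →
  mu x Y.M + x.P.E (fun ω => p (pen (fun _ => 0) (Y.S 0 ω).ν)) ≤
      x.P.E (Y.ψ η 0) - x.P.E (Y.ψ η Y.T) + C * (η + t) * Y.M + C * Y.w ∧
    x.P.E (fun ω => |Real.log (Y.S 0 ω).J|) ≤
      C * (Y.M + Y.w + x.P.E fun ω => pen (fun _ => 0) (Y.S 0 ω).ν)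

def OfChn : Prop := SBs → SEnds → SChn

end Pool.Agent.MP_5168f5_an.QA
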