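import Pool.Agent.MP_5168f5_an.QA.Spec1
import Pool.Agent.MP_5168f5_an.QA.GapLow

/-! The two counts of cubes. -/

namespace Pool.Agent.MP_5168f5_an.QA

open H19 H17S H17F R4 AN MvPolynomial

theorem sCnt : SCnt := fun N D => by
  obtain ⟨C, C0, h⟩ := gapN N D
  refine ⟨C, C0, fun Ω Λ P g M c c' J T A Φ m μ hb hc hv hf H => ?_⟩
  have := h P g M c' c J T A μ Φ m hc hb (fun a ha b hb e => by
    have := hf a ha b hb e
    simp only [Prod.mk.injEq] at this ⊢
    exact ⟨this.1, this.2.2.2, this.2.1, this.2.2.1⟩) fun ω hω =>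
    ⟨(hv ω hω).2, (H ω hω).1, (H ω hω).2.1, ⟨_, (hv ω hω).1, rfl⟩, (H ω hω).2.2⟩
  linarith

theorem sCntF : SCntF := fun N D E => by
  obtain ⟨C, C0, h⟩ := gapF N D E
  have lg0 : 0 ≤ lg := Real.log_nonneg one_le_two
  refine ⟨C + (N + 1) * lg, by positivity, fun Ω Λ P g M c J T Ψ Φ m lam μ hb hf H => ?_⟩
  have k := h P g M c c J 4 T Ψ (g.zc c) (fun _ => 1) lam μ Φ m (by norm_num) le_rfl hb
    (fun a ha b hb e => by
      have := hf a ha b hb e
      simp only [Prod.mk.injEq] at this ⊢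
      exact ⟨this.1, congrArg Prod.snd e, trivial, this.2.2.2.1, this.2.2.2.2, this.2.1,
        this.2.2.1⟩) fun ω hω => by
    obtain ⟨h1, h2, h3, h4, h5, h6⟩ := H ω hω
    exact ⟨h3, one_pos, h1, h2, ⟨_, rfl, rfl⟩,
      fun y hy i => (norm_le_pi_norm (Nc.ev (Ψ ω) y) i).trans (h4 y hy), h5, h6⟩
  have k2 : P.E (fun ω => min (m ω * lg) (Real.log (lam ω) - Real.log (μ ω))) ≤
      P.E (fun ω => min (m ω * lg) (Real.log (lam ω) - Real.log (μ ω) -
        (N + 1) * (Real.log 1 + (1 + ((c : ℝ) - c)) * lg))) + (N + 1) * lg := by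
    rw [← P.E_const ((N + 1) * lg), ← P.E_add]
    refine P.E_mono fun ω _ => ?_
    have p : (0 : ℝ) ≤ (N + 1) * lg := by positivity
    rw [Real.log_one, sub_self, zero_add, add_zero, one_mul, ← min_add_add_right, sub_add_cancel]
    exact min_le_min (by linarith) le_rfl
  linarith

end Pool.Agent.MP_5168f5_an.QA
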