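import Pool.Agent.MP_5168f5_an.QA.Nbhd
import Pool.Agent.MP_5168f5_an.AN.EDir

/-! The number of chart cubes that meet a basic set, weighted by the Jacobian of the chart. -/

namespace Pool.Agent.MP_5168f5_an.QA

open MeasureTheory Finset H17S MvPolynomial AN.En AN.En.EDirA
open H83 (IsPoly pt)
open scoped ENNReal

theorem hasFDerivAt_dm {n : ℕ} (Φ : Fin n → MvPolynomial (Fin n) ℝ) (x : Fin n → ℝ) :
    HasFDerivAt (fun y k => eval y (Φ k))
      (LinearMap.toContinuousLinearMap (Matrix.toLin' (dm Φ x))) x := by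
  refine hasFDerivAt_pi'.2 fun k => (H83.IsPoly.hasFDerivAt_eval (Φ k) x).congr_fderiv ?_
  ext v
  simp [dm, Matrix.mulVec, dotProduct]

/-- Cubes of the chart `Ψ` that meet the image of a bounded basic set, sorted by the Jacobian. -/
theorem cnt (n : ℕ) (β κ : Type) [Fintype β] [DecidableEq β] [Fintype κ] (d : ℕ) :
    ∃ C : ℝ, 1 ≤ C ∧ ∀ (p : κ → (β → ℝ) → ℝ) (π : (β → ℝ) → Fin n → ℝ)
      (Ψ : Fin n → MvPolynomial (Fin n) ℝ) (R μ W : ℝ) (g : ℕ),
      (∀ j, IsPoly d (p j)) → (∀ i, IsPoly d fun y => π y i) → (∀ i, (Ψ i).totalDegree ≤ d) →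
      (∀ y, (∀ j, 0 < p j y) → ‖y‖ ≤ R) → 0 < μ → 0 ≤ W →
      volume (π '' {y | ∀ j, 0 < p j y}) ≤ ENNReal.ofReal W →
      ∃ T : ℕ → Finset (Z n),
        (∀ J, ∑ j ∈ range J, ((T j).card : ℝ) / 2 ^ j ≤ C * (2 ^ g) ^ n * (μ * W + 1 / 2 ^ g)) ∧
        ∀ y, (∀ j, 0 < p j y) → (∀ i, |eval (π y) (Ψ i)| ≤ 1) → ∀ j : ℕ,
          μ * 2 ^ j ≤ |(dm Ψ (π y)).det| → |(dm Ψ (π y)).det| < μ * 2 ^ (j + 1) →
          fl g (fun i => eval (π y) (Ψ i)) ∈ T j := by
  classical
  obtain ⟨M, hM⟩ := nbhd (Fin n) β (κ ⊕ Fin n ⊕ Bool) (d + 2 * ((n + 1) * d * d))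
  refine ⟨1 + M * (4 + 2 * 2 ^ n), by
    have : (0 : ℝ) ≤ M * (4 + 2 * 2 ^ n) := by positivity
    linarith, fun p π Ψ R μ W g hp hπ hΨ hR μ0 W0 hW => ?_⟩
  have q1 : ∀ i, IsPoly (d * d) fun y => eval (π y) (Ψ i) := fun i =>
    H83.IsPoly.comp (F := fun x => eval x (Ψ i)) ⟨_, hΨ i, fun _ => rfl⟩ hπ
  have q2 : IsPoly (n * d * d) fun y => (dm Ψ (π y)).det := (isPoly_det hΨ).comp hπ
  have d1 : 2 * (d * d) ≤ d + 2 * ((n + 1) * d * d) := by nlinarith [Nat.zero_le (n * d * d)]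
  have d2 : 2 * (n * d * d) ≤ d + 2 * ((n + 1) * d * d) := by nlinarith [Nat.zero_le (d * d)]
  set B := toMeasurable volume (π '' {y | ∀ j, 0 < p j y}) with hB
  have hBm : MeasurableSet B := measurableSet_toMeasurable _ _
  have hBv : volume B ≤ ENNReal.ofReal W := (measure_toMeasurable _).trans_le hW
  have jm : Measurable fun x => |(dm Ψ x).det| :=
    continuous_abs.measurable.comp (isPoly_det hΨ).measurable
  set A : ℕ → Set (Fin n → ℝ) := fun j =>
    B ∩ {x | μ * 2 ^ j / 2 ≤ |(dm Ψ x).det| ∧ |(dm Ψ x).det| < μ * 2 ^ j} with hA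
  have hAm : ∀ j, MeasurableSet (A j) := fun j =>
    hBm.inter ((measurableSet_le measurable_const jm).inter (measurableSet_lt jm measurable_const))
  have hAd : Pairwise (Function.onFun Disjoint A) := by
    refine pairwise_disjoint_on A |>.2 fun i j hij => Set.disjoint_left.2 fun x h1 h2 => ?_
    have k1 : (2 : ℝ) ^ (i + 1) ≤ 2 ^ j := pow_le_pow_right₀ one_le_two hij
    rw [pow_succ] at k1
    nlinarith [h1.2.2, h2.2.1]
  have hfin : ∀ j, volume (A j) ≠ ⊤ := fun j =>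
    ne_top_of_le_ne_top ENNReal.ofReal_ne_top ((measure_mono Set.inter_subset_left).trans hBv)
  have hsum : ∀ s : Finset ℕ, ∑ j ∈ s, (volume (A j)).toReal ≤ W := fun s => by
    rw [← ENNReal.toReal_sum fun j _ => hfin j]
    refine ENNReal.toReal_le_of_le_ofReal W0 ?_
    rw [← measure_biUnion_finset (fun i _ j _ h => hAd h) fun j _ => hAm j]
    exact (measure_mono (Set.iUnion₂_subset fun j _ => Set.inter_subset_left)).trans hBv
  have g0 : (0 : ℝ) < 1 / 2 ^ g := by positivity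
  have key : ∀ j : ℕ, volume {u : Fin n → ℝ | ∃ y, ((∀ j, 0 < p j y) ∧
      (∀ i, |eval (π y) (Ψ i)| < 2) ∧ μ * 2 ^ j / 2 < |(dm Ψ (π y)).det| ∧
      |(dm Ψ (π y)).det| < μ * 2 ^ (j + 1)) ∧ ∀ i, |u i - eval (π y) (Ψ i)| < 1 / 2 ^ g} ≤
      ENNReal.ofReal (M * (μ * 2 ^ (j + 1) * ((volume (A j)).toReal + (volume (A (j + 1))).toReal) +
        1 / 2 ^ g * 2 ^ n)) := fun j => by
    have m0 : 0 < μ * 2 ^ j / 2 := by positivity
    have m1 : 0 < μ * 2 ^ (j + 1) := by positivity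
    set P : κ ⊕ Fin n ⊕ Bool → (β → ℝ) → ℝ := Sum.elim p (Sum.elim
      (fun i y => 2 ^ 2 - eval (π y) (Ψ i) ^ 2) fun b y => if b then
        (dm Ψ (π y)).det ^ 2 - (μ * 2 ^ j / 2) ^ 2 else
        (μ * 2 ^ (j + 1)) ^ 2 - (dm Ψ (π y)).det ^ 2) with hP
    have e : ∀ y, (∀ l, 0 < P l y) ↔ (∀ j, 0 < p j y) ∧
        (∀ i, |eval (π y) (Ψ i)| < 2) ∧ μ * 2 ^ j / 2 < |(dm Ψ (π y)).det| ∧
        |(dm Ψ (π y)).det| < μ * 2 ^ (j + 1) := fun y => by
      simp only [hP, Sum.forall, Sum.elim_inl, Sum.elim_inr, Bool.forall_bool, if_true,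
        Bool.false_eq_true, if_false, sub_pos, sq_lt_sq, abs_of_pos m0, abs_of_pos m1, abs_two]
      tauto
    have k := hM P (fun i y => eval (π y) (Ψ i)) (1 / 2 ^ g) 2 R
      ((fun x i => eval x (Ψ i)) '' (A j ∪ A (j + 1)))
      (fun l => by
        rcases l with l | i | b
        · exact (hp l).mono (by omega)
        · exact (H83.IsPoly.const _ _).sub (((q1 i).pow 2).mono d1)
        · rcases b with _ | _
          · exact (H83.IsPoly.const _ _).sub ((q2.pow 2).mono d2)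
          · exact ((q2.pow 2).mono d2).sub (H83.IsPoly.const _ _))
      (fun i => (q1 i).mono (by omega)) g0
      (div_le_one_of_le₀ (one_le_pow₀ one_le_two) (by positivity)) one_le_two
      fun y hy => by
        obtain ⟨y1, y2, y3, y4⟩ := (e y).1 hy
        have y5 : π y ∈ B := subset_toMeasurable _ _ ⟨y, y1, rfl⟩
        refine ⟨hR y y1, fun i => (y2 i).le, π y, ?_, rfl⟩
        rcases lt_or_ge |(dm Ψ (π y)).det| (μ * 2 ^ j) with h | h
        · exact Or.inl ⟨y5, y3.le, h⟩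
        · exact Or.inr ⟨y5, by rw [pow_succ]; linarith, y4⟩
    simp only [e] at k
    refine k.trans ?_
    have k1 := addHaar_image_le_lintegral_abs_det_fderiv volume ((hAm j).union (hAm (j + 1)))
      fun x _ => (hasFDerivAt_dm Ψ x).hasFDerivWithinAt
    simp only [LinearMap.det_toContinuousLinearMap, LinearMap.det_toLin'] at k1
    have k2 : ∫⁻ x in A j ∪ A (j + 1), ENNReal.ofReal |(dm Ψ x).det| ≤
        ENNReal.ofReal (μ * 2 ^ (j + 1)) * (volume (A j) + volume (A (j + 1))) := by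
      refine (setLIntegral_mono' ((hAm j).union (hAm (j + 1)))
        (g := fun _ => ENNReal.ofReal (μ * 2 ^ (j + 1))) fun x hx =>
          ENNReal.ofReal_le_ofReal ?_).trans ?_
      · rcases hx with h | h
        · rw [pow_succ]
          nlinarith [h.2.2]
        · exact h.2.2.le
      · rw [setLIntegral_const]
        gcongr
        exact measure_union_le _ _
    rw [ENNReal.ofReal_mul (Nat.cast_nonneg _), ENNReal.ofReal_natCast,
      ENNReal.ofReal_add (by positivity) (by positivity), ENNReal.ofReal_mul m1.le,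
      ENNReal.ofReal_add ENNReal.toReal_nonneg ENNReal.toReal_nonneg,
      ENNReal.ofReal_toReal (hfin _), ENNReal.ofReal_toReal (hfin _), Fintype.card_fin] at *
    gcongr
    exact k1.trans k2
  choose T hT hT' using fun j => cells g (by positivity) (key j)
  refine ⟨T, fun J => ?_, fun y y1 y2 j y3 y4 => hT' j _ ?_ fun e' he => ⟨y, ⟨y1, fun i =>
    (y2 i).trans_lt one_lt_two, ?_, y4⟩, fun i => ?_⟩⟩
  · have k1 : ∀ j, ((T j).card : ℝ) / 2 ^ j ≤ M * (2 ^ g) ^ n * (2 * μ * (volume (A j)).toReal +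
        2 * μ * (volume (A (j + 1))).toReal + 1 / 2 ^ g * 2 ^ n * (1 / 2) ^ j) := fun j => by
      rw [div_le_iff₀ (by positivity)]
      refine (hT j).trans_eq ?_
      rw [one_div_pow]
      field_simp
      ring
    refine (sum_le_sum fun j _ => k1 j).trans ?_
    rw [← mul_sum, sum_add_distrib, sum_add_distrib, ← mul_sum, ← mul_sum, ← mul_sum]
    have k2 := hsum (range J)
    have k3 := hsum ((range J).map ⟨fun j => j + 1, add_left_injective 1⟩)
    rw [sum_map] at k3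
    have k4 := sum_geometric_two_le J
    have k5 : 0 ≤ μ * W := by positivity
    have k6 : (0 : ℝ) < 2 ^ n := by positivity
    calc _ ≤ M * (2 ^ g) ^ n * (2 * μ * W + 2 * μ * W + 1 / 2 ^ g * 2 ^ n * 2) := by
          gcongr
          exact k3
      _ ≤ M * (2 ^ g) ^ n * ((4 + 2 * 2 ^ n) * (μ * W + 1 / 2 ^ g)) := by
          gcongr
          nlinarith
      _ = M * (4 + 2 * 2 ^ n) * (2 ^ g) ^ n * (μ * W + 1 / 2 ^ g) := by ring
      _ ≤ _ := by
          gcongr
          linarith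
  · exact (pi_norm_le_iff_of_nonneg zero_le_one).2 y2
  · have : 0 < μ * 2 ^ j := by positivity
    linarith
  · have h1 := Int.abs_sub_lt_one_of_floor_eq_floor (congrFun he i)
    rw [← mul_sub, abs_mul, abs_of_pos (by positivity)] at h1
    rw [lt_div_iff₀ (by positivity), mul_comm]
    exact h1

theorem vol_slices {N : ℕ} {B : Set (V (N + 1))} (hB : MeasurableSet B) :
    volume B = ∫⁻ t, volume {z : V N | pt t z ∈ B} := by
  have hm : MeasurableSet {p : ℝ × V N | pt p.1 p.2 ∈ B} := H83.continuous_pt.measurable hB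
  have h4 := (volume_preserving_piFinSuccAbove (fun _ : Fin (N + 1) => ℝ) 0).measure_preimage
    hm.nullMeasurableSet
  rw [Measure.volume_eq_prod, Measure.prod_apply hm] at h4
  refine Eq.trans ?_ h4
  congr 1
  ext z
  simp [pt, MeasurableEquiv.piFinSuccAbove_apply]

/-- The volume swept out by the lines of a basic set over a long window. -/
theorem swept (N : ℕ) (κ : Type) [Fintype κ] (d : ℕ) : ∃ C : ℝ, 0 ≤ C ∧
    ∀ (p : κ → (Fin N ⊕ Fin N → ℝ) → ℝ) (t : Fin (N + 1) → ℝ) (τ R t0 L W : ℝ)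
      (T : Fin (N + 1) → Set (V N)), (∀ j, IsPoly d (p j)) → 0 < τ → 0 ≤ W →
      (∀ i i', i ≠ i' → τ ≤ |t i - t i'|) → (∀ i, |t i - t0| ≤ L) →
      (∀ i, volume (T i) ≤ ENNReal.ofReal W) →
      (∀ a e : V N, (∀ j, 0 < p j (Sum.elim a e)) → ‖a‖ ≤ R ∧ ‖e‖ ≤ R ∧ ∀ i, a + t i • e ∈ T i) →
      volume {x : V (N + 1) | ∃ (s : ℝ) (a e : V N), |s - t0| < 2 * L ∧
        (∀ j, 0 < p j (Sum.elim a e)) ∧ x = pt s (a + s • e)} ≤
        ENNReal.ofReal (C * L * (L / τ) ^ N * W) := by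
  obtain ⟨M, hM⟩ := jls N κ d
  refine ⟨4 * (M * 3 ^ N * (N + 1 : ℕ)), by positivity,
    fun p t τ R t0 L W T hp τ0 W0 ht hL hT h => ?_⟩
  have L0 : 0 ≤ L := (abs_nonneg _).trans (hL 0)
  have e : {x : V (N + 1) | ∃ (s : ℝ) (a e : V N), |s - t0| < 2 * L ∧
      (∀ j, 0 < p j (Sum.elim a e)) ∧ x = pt s (a + s • e)} = ⋃ e : V N,
      {x | |x 0 - t0| < 2 * L ∧ ∀ j, 0 < p j (Sum.elim (fun l => x l.succ - x 0 * e l) e)} := by
    ext x
    simp only [Set.mem_iUnion, Set.mem_ofPred_eq]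
    constructor
    · rintro ⟨s, a, e, h1, h2, rfl⟩
      exact ⟨e, h1, fun j => by simpa using h2 j⟩
    · rintro ⟨e, h1, h2⟩
      refine ⟨x 0, _, e, h1, h2, funext fun i => Fin.cases rfl (fun l => ?_) i⟩
      simp
  have ho : IsOpen {x : V (N + 1) | ∃ (s : ℝ) (a e : V N), |s - t0| < 2 * L ∧
      (∀ j, 0 < p j (Sum.elim a e)) ∧ x = pt s (a + s • e)} := by
    rw [e]
    refine isOpen_iUnion fun e => IsOpen.inter (t := {x : V (N + 1) |
      ∀ j, 0 < p j (Sum.elim (fun l => x l.succ - x 0 * e l) e)})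
      (isOpen_lt (f := fun x : V (N + 1) => |x 0 - t0|) (by fun_prop) continuous_const) ?_
    simp only [Set.ofPred_forall]
    refine isOpen_iInter_of_finite fun j => isOpen_lt continuous_const
      ((hp j).continuous.comp (continuous_pi fun s => ?_))
    rcases s with l | l
    · exact (by fun_prop : Continuous fun x : V (N + 1) => x l.succ - x 0 * e l)
    · exact continuous_const
  rw [vol_slices ho.measurableSet]
  have k : ∀ s : ℝ, volume {z : V N | pt s z ∈ {x : V (N + 1) | ∃ (s : ℝ) (a e : V N),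
      |s - t0| < 2 * L ∧ (∀ j, 0 < p j (Sum.elim a e)) ∧ x = pt s (a + s • e)}} ≤
      (Set.Icc (t0 - 2 * L) (t0 + 2 * L)).indicator
        (fun _ => ENNReal.ofReal (M * 3 ^ N * (N + 1 : ℕ) * (L / τ) ^ N * W)) s := fun s => by
    by_cases hs : |s - t0| < 2 * L
    · have s1 := abs_lt.1 hs
      rw [Set.indicator_of_mem (Set.mem_Icc.2 ⟨by linarith [s1.1], by linarith [s1.2]⟩)]
      have k1 := (hM p t τ R T hp τ0 ht h).2 s (3 * L) fun i =>
        abs_le.2 ⟨by linarith [(abs_le.1 (hL i)).1], by linarith [(abs_le.1 (hL i)).2]⟩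
      refine le_trans (measure_mono ?_) (k1.trans ?_)
      · rintro z ⟨s', a, e, -, h2, h3⟩
        obtain rfl : s = s' := congrFun h3 0
        exact ⟨a, e, h2, funext fun l => congrFun h3 l.succ⟩
      · refine (mul_le_mul_right (sum_le_card_nsmul _ _ _ fun i _ => hT i) _).trans_eq ?_
        rw [card_univ, Fintype.card_fin, nsmul_eq_mul, ← ENNReal.ofReal_natCast M,
          ← ENNReal.ofReal_natCast (N + 1), ← ENNReal.ofReal_mul (Nat.cast_nonneg _),
          ← ENNReal.ofReal_mul (Nat.cast_nonneg _), ← ENNReal.ofReal_mul (by positivity),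
          mul_div_assoc, mul_pow]
        congr 1
        ring
    · refine le_trans (measure_mono ?_) (measure_empty.trans_le zero_le)
      rintro z ⟨s', a, e, h1, -, h3⟩
      obtain rfl : s = s' := congrFun h3 0
      exact hs h1
  refine (lintegral_mono k).trans_eq ?_
  rw [lintegral_indicator_const measurableSet_Icc, Real.volume_Icc,
    ← ENNReal.ofReal_mul (by positivity)]
  congr 1
  ring

end Pool.Agent.MP_5168f5_an.QA
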