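import Pool.Agent.MP_5168f5_an.QA.CpSpec
import Pool.Agent.MP_5168f5_an.QA.HAlg
import Pool.Agent.MP_5168f5_an.AN.GAAll

/-! The Kakeya maximal estimate: the height in the diagonal frames. -/

namespace Pool.Agent.MP_5168f5_an.QA.Cp

open H19 H17S H17F R4 AN Filter Matrix
open GA (Mt IsFr lg mB)

namespace HtA

variable {ι κ : Type} [Fintype ι] [DecidableEq ι] [Fintype κ] [DecidableEq κ]

theorem lg_mB {Φ : H61Z.Filt (Mt ι)} {B : κ → Mt ι} {c : κ → κ → κ → ℝ} (h : IsFr Φ B c)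
    {N N' : Matrix κ κ ℝ} (e : N * N' = 1) {x : Mt ι} (hx : IsUnit x) (t : κ → ℝ) :
    lg (mB N B) x (x * GA.ex B t) = t ᵥ* N' := by
  have k := (GA.sFr ι κ Φ B c).2 N N' e
  rw [← (GA.sMul _ _ Φ _ _ (k.1 h)).lg x (t ᵥ* N') hx, k.2.2.1, vecMul_vecMul,
    mul_eq_one_comm.1 e, vecMul_one]

omit [DecidableEq κ] in
theorem col {A : Matrix κ κ ℝ} {τ : κ} (h : ∀ a, A a τ ≠ 0 → a = τ) (y : κ → ℝ) :
    (y ᵥ* A) τ = y τ * A τ τ :=
  Finset.sum_eq_single τ (fun a _ e => mul_eq_zero_of_right _ (not_not.1 fun k => e (h a k))) (by simp)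

end HtA

theorem rHt : RHt := by
  intro ι κ α _ _ _ _ _ Ω Λ σ X ϑ La D s₀ vt F F' u u' w f i a c hc T
  have e0 : 0 < c / 6 := by positivity
  filter_upwards [w.ht i a _ e0 T, w.sub _ e0, w.alg, w.good 0, w.incC a 1 one_pos 0, w.com a,
    f.ex, f.dia 0 _ e0, w.big.sm (Real.log (4 * 2 ^ σ.kf i + 1)) _ e0] with
    n h1 h2 h3 h4 h5 h6 h7 h8 h9 ω hω h h0 hT
  obtain ⟨x1, x2, x3⟩ := h7
  obtain ⟨x3, x4⟩ := x3 ω hω
  have v0 : ∀ b, ¬vt b < vt σ.τ := fun b => by rw [f.tau]; exact (f.v0 b).1.not_gt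
  have c1 : ∀ y : κ → ℝ, (y ᵥ* (F' n * u' n ω)) σ.τ = y σ.τ * F' n σ.τ σ.τ := fun y => by
    rw [← vecMul_vecMul, ← HtA.col (fun b e => (x2 b _ (.inr e)).2.2 rfl) y,
      ← congrFun (vecMul_one (y ᵥ* F' n)) σ.τ]
    exact Finset.sum_congr rfl fun b _ =>
      congrArg (_ * ·) (not_not.1 fun e => v0 b (x4 b _ (.inr e)).2)
  have c2 : (u n ω * F n) σ.τ σ.τ * F' n σ.τ σ.τ = 1 := by
    rw [← c1, ← mul_apply_eq_vecMul, Matrix.mul_assoc, ← Matrix.mul_assoc (F n), x1, Matrix.one_mul,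
      x3]
    exact one_apply_eq _
  obtain ⟨d1, d2⟩ := h8 ω hω
  simp only [Rat.cast_zero, mul_zero, add_zero, sub_zero] at d1 d2
  generalize hE : Real.exp (c / 6 * (X n).M) = E at *
  have E1 : 1 ≤ E := h2.1.trans h2.2
  have l0 := one_pos.trans_le h2.1
  have c3 : 1 ≤ E * |F' n σ.τ σ.τ| := by
    have := d1 σ.τ _ ((h4 ω hω).one σ.τ)
    rw [single_dotProduct, one_mul] at this
    rw [← abs_one, ← c2, abs_mul]
    exact mul_le_mul_of_nonneg_right this (abs_nonneg _)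
  have c4 : |F' n σ.τ σ.τ| ≤ E ^ 3 := by
    obtain ⟨j, hj⟩ := (h3 ω hω).long
    have := d2 ((X n).L⁻¹ • (X n).A ω j) (fun φ hφ => by
      rw [dotProduct_smul, smul_eq_mul, abs_mul, abs_of_pos (inv_pos.2 l0), inv_mul_le_iff₀ l0,
        mul_comm]
      exact ((h4 ω hω).ok φ hφ).a j) σ.τ
    rw [c1, Pi.smul_apply, smul_eq_mul, abs_mul, abs_mul, abs_of_pos (inv_pos.2 l0), mul_assoc,
      inv_mul_le_iff₀ l0] at this
    nlinarith [mul_le_mul_of_nonneg_right hj (abs_nonneg (F' n σ.τ σ.τ)),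
      mul_le_mul_of_nonneg_left this l0.le, mul_le_mul h2.2 h2.2 l0.le (by linarith)]
  refine (En.aff _ (c := F' n σ.τ σ.τ) (b := 0) (L := 2 * E ^ 3) (by positivity) (by linarith) c3
    (fun v hv _ => ?_) (h1 h h0 hT ω hω)).mono ?_
  · obtain ⟨v1, v2⟩ := (mem_cE (E := fun v => (X n).O true a v = (X n).O true a ω)
      ⟨ω, hω, rfl⟩ v).1 hv
    have e1 : (cd (X n) (F n) (F' n) (u n) (u' n)).zz (kc σ La D vt) a ω v σ.τ =
        Real.exp (σ.μ σ.τ * (a * (X n).M)) * ((X n).t ω v σ.τ * F' n σ.τ σ.τ) := by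
      rw [← c1, ← HtA.lg_mB (h3 ω hω).fr (N := u n ω * F n) (by
        rw [Matrix.mul_assoc, ← Matrix.mul_assoc (F n), x1, Matrix.one_mul, x3]) (h3 ω hω).unit,
        ← (h5 ω v ⟨hω, v1, h6 ω hω v v1 v2.symm⟩).1]
      simp [P7.Cd.zz, cd, kc, f.tau]
    change |((⌊Real.exp h * (cd (X n) (F n) (F' n) (u n) (u' n)).zz (kc σ La D vt) a ω v σ.τ⌋ : ℤ) : ℝ) -
      _ - 0| ≤ _
    rw [e1, Real.exp_add]
    generalize Real.exp (σ.μ σ.τ * (a * (X n).M)) = p, (X n).t ω v σ.τ = t, Real.exp h = q,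
      F' n σ.τ σ.τ = r at *
    rw [show ((⌊q * (p * (t * r))⌋ : ℤ) : ℝ) - r * ⌊p * q * t⌋ - 0 =
      r * Int.fract (p * q * t) - Int.fract (q * (p * (t * r))) by simp only [Int.fract]; ring]
    refine (abs_sub _ _).trans ?_
    rw [abs_mul, Int.abs_fract, Int.abs_fract]
    nlinarith [Int.fract_lt_one (p * q * t), Int.fract_lt_one (q * (p * (t * r))), abs_nonneg r,
      one_le_pow₀ (n := 3) E1]
  · have k : 4 * 2 ^ σ.kf i + 1 ≤ E := by
      rw [← hE, ← Real.log_le_iff_le_exp (by positivity)]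
      linarith
    have k2 : Real.exp (c * (X n).M) = E ^ 6 := by
      rw [← hE, ← Real.exp_nat_mul]
      congr 1
      push_cast
      ring
    change _ ≤ Real.exp (c * (X n).M - (1 - 1 / (i + 1 : ℝ)) * h)
    rw [Real.exp_sub, Real.exp_sub, hE, k2, ← mul_div_assoc]
    gcongr
    nlinarith [mul_le_mul_of_nonneg_right k (by positivity : 0 ≤ E ^ 5),
      pow_le_pow_right₀ E1 (by norm_num : 1 ≤ 5)]

end Pool.Agent.MP_5168f5_an.QA.Cp
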