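import Pool.Agent.MP_5168f5_an.QA.CpRTz

/-! The Kakeya maximal estimate: anti-concentration of the characters of rate zero. -/

namespace Pool.Agent.MP_5168f5_an.QA.Cp

open H19 H17S H17F R4 AN Filter Matrix Finset
open GA (Mt br mC)
open G39 (dl_inv)
open LC (Au ex_le)

theorem rAc_of (hA : RAlg) : RAc := by
  intro ι κ α _ _ _ _ _ Ω Λ σ X ϑ La D s₀ vt F F' u u' w f a c hc T
  classical
  have al := hA ι κ α Ω Λ σ X ϑ La D s₀ vt F F' u u' w f
  have L1 := w.ok.l1
  obtain ⟨δ, d0, d1, d2⟩ : ∃ δ : ℝ, 0 < δ ∧ 3 * δ ≤ c ∧ 6 * δ ≤ c * σ.L₁ :=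
    ⟨min (c / 3) (c * σ.L₁ / 6), by positivity, by linarith [min_le_left (c / 3) (c * σ.L₁ / 6)],
      by linarith [min_le_right (c / 3) (c * σ.L₁ / 6)]⟩
  filter_upwards [w.noCh f al (show 0 < 2 * δ by positivity), w.ac a _ (half_pos hc) |T|,
    al 1 one_pos c, f.blk, f.col, w.ent f (3 * δ), w.alg, w.bot, w.incC 0 1 one_pos 0,
    G39.big_dl w.big (2 * Fintype.card κ) d0]
    with n k1 k2 k3 k4 k5 k6 k7 k8 k9 k0 ω hω h hT l l1 l2 l3 E hE
  rw [dl_inv] at k0
  obtain ⟨e1, e2, e3, -⟩ := k4 ω hω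
  set M : ℝ := ((X n).M : ℝ)
  have M0 : 0 ≤ M := Nat.cast_nonneg _
  have m1 := mul_nonneg d0.le M0
  have m2 := mul_le_mul_of_nonneg_right d1 M0
  have m3 := mul_le_mul_of_nonneg_right d2 M0
  have G : ∀ b, l b ≠ 0 → 0 < σ.μ b ∧ vt b = 0 := fun b v =>
    ⟨(l2 b v).1, by have : σ.μ b + vt b = σ.μ b := (l2 b v).2; linarith⟩
  change pb (cv (X n).P _ _) E ≤ Real.exp (c * M - h / max 1 (max La σ.L₁))
  rcases le_or_gt h (c * M) with z | z
  · refine (pb_le_one _ _).trans (Real.one_le_exp (sub_nonneg.2 ?_))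
    rw [div_le_iff₀ (zero_lt_one.trans_le (le_max_left _ _))]
    exact z.trans (le_mul_of_one_le_right (by positivity) (le_max_left _ _))
  obtain ⟨b₀, hb⟩ : ∃ b, 1 ≤ Fintype.card κ * |l b| := by
    by_contra q
    push Not at q
    rcases isEmpty_or_nonempty κ with i | i
    · simp at l1
    have := sum_lt_sum_of_nonempty univ_nonempty fun b _ => q b
    rw [← mul_sum, l1] at this
    simp at this
  let l' : κ → ℝ := fun e => if σ.μ e = σ.μ b₀ then l e else 0
  have s1 : |l b₀| ≤ ∑ e, |l' e| := le_of_eq_of_le (by simp [l'])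
    (single_le_sum (f := fun e => |l' e|) (fun _ _ => abs_nonneg _) (mem_univ b₀))
  have s0 : 0 < ∑ e, |l' e| := lt_of_lt_of_le (abs_pos.2 fun q => by
    rw [q, abs_zero, mul_zero] at hb; linarith) s1
  have s2 : ∀ {x : ℝ}, |x| ≤ 2 * Real.exp (-(c * M)) →
      |(∑ e, |l' e|)⁻¹ * x| ≤ Real.exp (-(2 * δ * M)) := fun {x} v => by
    have q : (∑ e, |l' e|)⁻¹ ≤ Fintype.card κ := by
      rw [inv_le_iff_one_le_mul₀ s0]
      exact hb.trans (mul_le_mul_of_nonneg_left s1 (Nat.cast_nonneg _))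
    rw [abs_mul, abs_of_pos (inv_pos.2 s0)]
    refine (mul_le_mul q v (abs_nonneg _) (Nat.cast_nonneg _)).trans ?_
    rw [← mul_assoc, mul_comm _ 2]
    refine (mul_le_mul_of_nonneg_right k0 (Real.exp_pos _).le).trans ?_
    rw [← Real.exp_add]
    exact ex_le (by linarith)
  obtain ⟨i, hi⟩ := k1 ω hω (σ.μ b₀) ((∑ e, |l' e|)⁻¹ • l') (fun e v => by
      have v' : l' e ≠ 0 := right_ne_zero_of_mul v
      by_cases q : σ.μ e = σ.μ b₀
      · exact ⟨G e (by simpa [l', q] using v'), q⟩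
      · exact absurd (if_neg q) v') (by
      simp only [Pi.smul_apply, smul_eq_mul, abs_mul, abs_inv, abs_of_pos s0, ← mul_sum]
      exact inv_mul_cancel₀ s0.ne') fun b b' x y => by
    simp only [Pi.smul_apply, smul_eq_mul, mul_left_comm _ (∑ e, |l' e|)⁻¹, ← mul_sum]
    refine s2 ?_
    by_cases q : σ.μ b + σ.μ b' = σ.μ b₀
    · have q1 : |∑ e, mC (u n ω * F n) (F' n * u' n ω) ((X n).c ω) b b' e * l e| ≤ _ :=
        l3 b b' ⟨x.1, by show _ + _ = σ.μ b; rw [x.2, add_zero]⟩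
        ⟨y.1, by show _ + _ = σ.μ b'; rw [y.2, add_zero]⟩
      have q2 := l1_le (x := fun e => if σ.μ e = σ.μ b₀ then 0 else
          mC (u n ω * F n) (F' n * u' n ω) ((X n).c ω) b b' e) (Real.exp_pos (-(c * M))).le l1.le
        fun e v => by
          split_ifs with r
          · rw [abs_zero]; exact (Real.exp_pos _).le
          · exact (k3 ω hω).gr b b' e (G e v).1 fun r' => r (r'.2.2.1.trans q)
      rw [show ∑ e, Cp.hc σ.μ (mC (u n ω * F n) (F' n * u' n ω) ((X n).c ω)) b b' e * l' e =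
          ∑ e, mC (u n ω * F n) (F' n * u' n ω) ((X n).c ω) b b' e * l e -
          ∑ e, (if σ.μ e = σ.μ b₀ then 0 else
            mC (u n ω * F n) (F' n * u' n ω) ((X n).c ω) b b' e) * l e by
        rw [← sum_sub_distrib]
        refine sum_congr rfl fun e _ => ?_
        by_cases r : σ.μ e = σ.μ b₀
        · simp [l', r, Cp.hc, Hw, x.1, y.1, q]
        · simp [l', r]]
      exact (abs_sub _ _).trans (by linarith [q1.trans (ex_le (neg_le_neg z.le))])
    · rw [sum_eq_zero fun e _ => ?_, abs_zero]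
      · positivity
      · by_cases r : σ.μ e = σ.μ b₀
        · rw [Cp.hc, if_neg fun r' => q (r'.2.2.symm.trans r), zero_mul]
        · simp [l', r]
  have hg := ((k7 ω hω).hg i).vecMul (F := F' n * u' n ω) fun a e q => (e3 e a q).symm
  have h1 : Real.exp (-(3 * δ * M)) ≤ |∑ e, ((X n).A ω i ᵥ* (F' n * u' n ω)) e * l e| := by
    rw [smul_dotProduct, smul_eq_mul, abs_mul, abs_of_pos (inv_pos.2 s0)] at hi
    by_cases q : σ.η i = σ.μ b₀
    · rw [show ∑ e, ((X n).A ω i ᵥ* (F' n * u' n ω)) e * l e =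
          l' ⬝ᵥ ((X n).A ω i ᵥ* (F' n * u' n ω)) from sum_congr rfl fun e _ => by
        by_cases r : ((X n).A ω i ᵥ* (F' n * u' n ω)) e = 0
        · simp [r]
        · simp [l', (hg e r).trans q, mul_comm]]
      rw [lt_inv_mul_iff₀ s0] at hi
      refine le_trans ?_ hi.le
      rw [show -(3 * δ * M) = -(δ * M) + -(2 * δ * M) by ring, Real.exp_add]
      refine mul_le_mul_of_nonneg_right (le_trans ?_ s1) (Real.exp_pos _).le
      rw [Real.exp_neg, inv_le_iff_one_le_mul₀' (Real.exp_pos _)]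
      exact hb.trans (mul_le_mul_of_nonneg_right
        (by linarith [Nat.cast_nonneg (α := ℝ) (Fintype.card κ)]) (abs_nonneg _))
    · rw [Hg.dot (wt := σ.μ) (μ := σ.μ b₀) (fun e v => by_contra fun r => v (if_neg r)) hg
        (Ne.symm q), abs_zero, mul_zero] at hi
      exact absurd hi (Real.exp_pos _).not_gt
  have p3 := Real.exp_pos (3 * δ * M)
  have F0 : 0 ≤ (X n).F := nonneg_of_mul_nonneg_right
    ((abs_nonneg _).trans (k6 ω hω b₀ b₀)) (Real.exp_pos _)
  refine (k2 ω hω (h - 3 * δ * M) (by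
      linarith [mul_le_mul_of_nonneg_right (le_abs_self T) M0, show h ≤ T * M from hT])
    (Real.exp (3 * δ * M) • ((F' n * u' n ω) *ᵥ l)) E (fun b => ⟨fun q => ?_, ?_⟩) ⟨i, ?_⟩
    fun v v' x y ev ev' => ?_).trans (ex_le ?_)
  · refine mul_eq_zero_of_right _ (sum_eq_zero fun e _ => not_not.1 fun r => ?_)
    linarith [e3 e b (left_ne_zero_of_mul r), (G e (right_ne_zero_of_mul r)).1]
  · rw [Pi.smul_apply, smul_eq_mul, abs_mul, abs_of_pos p3]
    refine (mul_le_mul_of_nonneg_left (l1_le (by positivity) l1.le fun e _ => k6 ω hω b e)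
      p3.le).trans ?_
    rw [← mul_assoc, ← Real.exp_add, add_neg_cancel, Real.exp_zero, one_mul]
    exact le_mul_of_one_le_right F0 (Real.one_le_exp (by positivity))
  · rw [smul_dotProduct, smul_eq_mul, abs_mul, abs_of_pos p3, mulVec_dot]
    refine le_trans ?_ (mul_le_mul_of_nonneg_left h1 p3.le)
    rw [← Real.exp_add, add_neg_cancel, Real.exp_zero]
  · have q := hE v v' x y ev ev'
    have t : GA.lg (GA.mB (u n v * F n) ((X n).B v)) ((X n).j v) ((X n).j v') =
        (X n).t v v' ᵥ* (F' n * u' n v) := by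
      rw [(k9 v v' ⟨x.2.1, y.2.1, (k8 v x.2.1 v' y.2.1).1⟩).1]
      exact lg_mB (k7 v x.2.1).fr (k4 v x.2.1).1 (k7 v x.2.1).unit _
    rw [show ∑ b, (Real.exp (3 * δ * M) • ((F' n * u' n ω) *ᵥ l)) b *
        (Real.exp (σ.μ b * (a * M)) * (X n).t v v' b) = Real.exp (3 * δ * M) * ∑ e, l e *
        P7.Cd.zz (kc σ La D vt) (cd (X n) (F n) (F' n) (u n) (u' n)) a v v' e from ?_, abs_mul,
      abs_of_pos p3]
    · refine (mul_le_mul_of_nonneg_left q p3.le).trans_eq ?_
      rw [← Real.exp_add]; congr 1; ring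
    simp only [Pi.smul_apply, smul_eq_mul, mul_assoc, ← mul_sum]
    congr 1
    simp only [mulVec, dotProduct, sum_mul]
    refine sum_comm.trans (sum_congr rfl fun e _ => ?_)
    by_cases r : l e = 0
    · simp [r]
    change _ = l e * (Real.exp ((σ.μ e + vt e) * (a * M)) *
      GA.lg (GA.mB (u n v * F n) ((X n).B v)) ((X n).j v) ((X n).j v') e)
    rw [t, (G e r).2, add_zero]
    simp only [vecMul, dotProduct, mul_sum]
    refine sum_congr rfl fun b _ => ?_
    rw [k5 v x.2.1 b e (G e r).2, ← k5 ω hω b e (G e r).2]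
    by_cases r' : (F' n * u' n ω) b e = 0
    · simp [r']
    · rw [e3 e b r']; ring
  · have q1 : h / max 1 (max La σ.L₁) ≤ h / σ.L₁ := div_le_div_of_nonneg_left
      (by nlinarith) L1 ((le_max_right _ _).trans (le_max_right _ _))
    have q2 : 3 * δ * M / σ.L₁ ≤ c / 2 * M := by rw [div_le_iff₀ L1]; linarith
    rw [sub_div]
    linarith

end Pool.Agent.MP_5168f5_an.QA.Cp
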