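import Pool.Agent.MP_5168f5_an.QA.P7Core

/-! The maximal estimate: the constants of the linear model. -/

namespace Pool.Agent.MP_5168f5_an.QA.P7

open H19 H17S H17F R4 AN Filter LC Finset
open G39 (dl OB)
open GA (Mt Neg Hm cH cm)
open TG (Rm)
open P7E (rho)

variable {ι κ : Type} [Fintype ι] [DecidableEq ι] [Fintype κ] [DecidableEq κ] {m : ℕ}
  {σ : Kc ι κ} {ix : Fin m → Option κ} {o τ : Fin m} {c : κ → κ → κ → ℝ}

namespace Ix

omit [Fintype κ] [DecidableEq κ] in
theorem eq_o (i : Ix σ ix o τ) {p : Fin m} (h : ix p = none) : p = o := i.inj (h.trans i.ho.symm)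

omit [Fintype κ] [DecidableEq κ] in
theorem live (i : Ix σ ix o τ) {p : Fin m} {a : κ} (h : ix p = some a) : 0 < σ.mu a :=
  (i.rng _).1 ⟨p, h⟩ a rfl

omit [DecidableEq κ] in
/-- Sums over the model are sums over all indices if the dead terms vanish. -/
theorem sm2 (i : Ix σ ix o τ) {f : Option κ → ℝ} (h : ∀ a, ¬0 < σ.mu a → f (some a) = 0) :
    ∑ p, f (ix p) = ∑ p, f p := by
  classical
  rw [← sum_image (s := univ) (g := ix) fun _ _ _ _ e => i.inj e]
  refine sum_subset (subset_univ _) fun p _ k => by_contra fun z => k ?_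
  obtain ⟨q, e⟩ := (i.rng p).2 fun a e => by_contra fun y => z (e ▸ h a y)
  exact mem_image.2 ⟨q, mem_univ _, e⟩

theorem md_ok (i : Ix σ ix o τ) (h : σ.Ok) : (σ.md ix τ).Ok (up ix σ.la) o := by
  classical
  refine ⟨by simp [Kc.md, up, i.ho], fun p k => ?_, fun p => ?_, fun p q => ?_,
    fun ⟨a, e, _⟩ => by simp [i.ho] at e, fun p => ⟨fun ⟨⟨a, e, k⟩, l⟩ => ?_, fun e => ?_⟩,
    h.one, h.vol.trans_eq ?_⟩
  · rcases e : ix p with _ | a
    · exact absurd (i.eq_o e) k
    · simpa [Kc.md, up, e] using i.live e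
  · rcases e : ix p with _ | a <;> simp [Kc.md, up, e, h.vt]
  · have x : ∃ z : Fin m × Fin m, up ix σ.la z.1 - up ix σ.la z.2 = up ix σ.la p - up ix σ.la q :=
      ⟨(p, q), rfl⟩
    have := h.gap _ _ _ _ x.choose_spec
    simp only [Kc.md, dif_pos x]
    simp only [up] at this ⊢
    linarith
  · simp only [Kc.md, up, e, Option.elim] at l
    exact i.inj (e.trans ((congrArg some ((h.tz a).1 ⟨k, l⟩)).trans i.hτ.symm))
  · subst e
    exact ⟨⟨_, i.hτ, ((h.tz _).2 rfl).1⟩, by simpa [Kc.md, up, i.hτ] using ((h.tz _).2 rfl).2⟩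
  · have ch : ∀ a, ∃ p, σ.Pz a → ix p = some a := fun a => by
      by_cases k : σ.Pz a
      · exact ((i.rng (some a)).2 fun b e => Option.some.inj e ▸ h.live a k).imp fun _ e _ => e
      · exact ⟨o, fun z => absurd z k⟩
    choose f hf using ch
    refine sum_bij (fun a _ => f a) (fun a k => ?_) (fun a k b l e => ?_) (fun p k => ?_)
      fun a k => ?_
    · simp only [mem_erase, mem_filter, mem_univ, true_and] at k ⊢
      exact ⟨fun e => k.1 (Option.some.inj ((hf a k.2).symm.trans (e ▸ i.hτ))), a, hf a k.2, k.2⟩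
    · simp only [mem_erase, mem_filter, mem_univ, true_and] at k l
      exact Option.some.inj ((hf a k.2).symm.trans (e ▸ hf b l.2))
    · simp only [mem_erase, mem_filter, mem_univ, true_and] at k ⊢
      obtain ⟨k1, a, e, k2⟩ := k
      exact ⟨a, ⟨fun z => k1 (i.inj (e.trans (z ▸ i.hτ.symm))), k2⟩,
        i.inj ((hf a k2).trans e.symm)⟩
    · simp only [mem_erase, mem_filter, mem_univ, true_and] at k
      simp [up, hf a k.2]

end Ix

omit [Fintype κ] [DecidableEq κ] in
theorem cH_le (om : κ → ℝ × ℝ) (a b e : κ) : |cH om c a b e| ≤ |c a b e| := by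
  unfold cH; split_ifs <;> simp

theorem ce_gr (h : σ.Ok) (p q r : Fin m) (k : ce σ ix c p q r ≠ 0) :
    up ix σ.la r = up ix σ.la p + up ix σ.la q ∧ up ix σ.mu r = up ix σ.mu p + up ix σ.mu q := by
  unfold ce at k
  unfold up
  rcases e : ix p with _ | a
  · have : r = q := by_contra fun z => by simp [e, z] at k
    simp [this]
  · rcases e' : ix r with _ | f <;> rcases e'' : ix q with _ | b <;>
      simp only [e, e', e'', Option.elim, Rm, neg_zero, ne_eq, not_true, neg_eq_zero] at k ⊢
    · have : f = a := by_contra fun z => by simp [z] at k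
      simp [this]
    · have := (h.hm2 a b f).1 (by_contra fun z => k (if_neg z))
      exact ⟨this.2.2.2, this.2.2.1⟩

omit [Fintype κ] in
theorem ce_an (i : Ix σ ix o τ) (an : ∀ a b e, c a b e = -c b a e) (p q r : Fin m) :
    ce σ ix c p q r = -ce σ ix c q p r := by
  have k : ∀ {p q : Fin m} {b}, ix p = none → ix q = some b →
      ce σ ix c p q r = -ce σ ix c q p r := fun {p q b} e e' => by
    by_cases z : r = q
    · simp [ce, up, Rm, e, e', z, Kc.om]
    · rcases e'' : ix r with _ | f
      · simp [ce, Rm, e, e', e'', z]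
      · have : f ≠ b := fun y => z (i.inj (e''.trans (y ▸ e'.symm)))
        simp [ce, Rm, e, e', e'', z, this]
  rcases e : ix p with _ | a <;> rcases e' : ix q with _ | b
  · simp [ce, up, e, e']
  · exact k e e'
  · rw [k e' e, neg_neg]
  · rcases e'' : ix r with _ | f
    · simp [ce, Rm, e, e', e'']
    · have s : Hm σ.om a b f ↔ Hm σ.om b a f := by
        simp only [Hm, add_comm, and_left_comm]
      by_cases z : Hm σ.om a b f
      · simp only [ce, Rm, e, e', e'', Option.elim, cH, if_pos z, if_pos (s.1 z), neg_neg]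
        rw [an a b, neg_neg]
      · simp only [ce, Rm, e, e', e'', Option.elim, cH, if_neg z, if_neg (mt s.2 z), neg_zero]

theorem rho_sg1 (cE : Fin m → Fin m → Fin m → ℝ) (p r s : Fin m) :
    rho cE (Pi.single p 1) r s = cE p s r := by
  simp [rho, Pi.single_apply]

theorem Rm_dead (h : σ.Ok) {e : κ} (k : ¬0 < σ.mu e) (r s : Option κ) : Rm σ.om c e r s = 0 := by
  have z : σ.om e = 0 := by_contra fun y => k ((h.om_ne e).1 y)
  rcases r with _ | r <;> rcases s with _ | s <;> simp [Rm, cH, Hm, z]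

theorem Rm_col (h : σ.Ok) {e : κ} (k : ¬0 < σ.mu e) (a : κ) (r : Option κ) :
    Rm σ.om c a r (some e) = 0 := by
  have z : σ.om e = 0 := by_contra fun y => k ((h.om_ne e).1 y)
  rcases r with _ | r <;> simp [Rm, cH, Hm, z]

/-- The defect of the representation property. -/
noncomputable def jd (cE : Fin m → Fin m → Fin m → ℝ) (p q r s : Fin m) : ℝ :=
  (cm (rho cE (Pi.single p 1)) (rho cE (Pi.single q 1)) - rho cE (cE p q)) r s

theorem jd_o (i : Ix σ ix o τ) (h : σ.Ok) (q r s : Fin m) : jd (ce σ ix c) o q r s = 0 := by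
  have co : ∀ q r, ce σ ix c o q r = if r = q then up ix σ.mu q else 0 := fun q r => by
    simp [ce, i.ho]
  simp only [jd, cm, Matrix.sub_apply, Matrix.mul_apply, rho_sg1, co, ite_mul, mul_ite,
    zero_mul, mul_zero, sum_ite_eq, sum_ite_eq', mem_univ, if_true]
  simp only [rho, Matrix.of_apply, co, ite_mul, zero_mul, sum_ite_eq', mem_univ, if_true]
  by_cases z : ce σ ix c q s r = 0
  · simp [z]
  · rw [(ce_gr h q s r z).2]; ring

theorem jd_an {cE : Fin m → Fin m → Fin m → ℝ} (an : ∀ p q r, cE p q r = -cE q p r)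
    (p q r s : Fin m) : jd cE p q r s = -jd cE q p r s := by
  simp only [jd, cm, Matrix.sub_apply, rho, Matrix.of_apply, an p q, neg_mul, sum_neg_distrib]
  ring

theorem jd_eq (i : Ix σ ix o τ) (h : σ.Ok) {p q : Fin m} {a b : κ} (e : ix p = some a)
    (e' : ix q = some b) (r s : Fin m) : jd (ce σ ix c) p q r s =
      (Rm σ.om c a * Rm σ.om c b - Rm σ.om c b * Rm σ.om c a -
        ∑ f, c a b f • Rm σ.om c f) (ix r) (ix s) +
      ∑ f, (c a b f - cH σ.om c a b f) * Rm σ.om c f (ix r) (ix s) := by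
  have k1 : ∀ a b, ∑ t, Rm σ.om c a (ix r) (ix t) * Rm σ.om c b (ix t) (ix s) =
      ∑ t, Rm σ.om c a (ix r) t * Rm σ.om c b t (ix s) := fun a b =>
    i.sm2 (f := fun t => Rm σ.om c a (ix r) t * Rm σ.om c b t (ix s)) fun t k => by
      simp only [Rm_col h k, zero_mul]
  have k2 : rho (ce σ ix c) (ce σ ix c p q) r s =
      ∑ f, cH σ.om c a b f * Rm σ.om c f (ix r) (ix s) := by
    have := i.sm2 (f := fun t => t.elim 0 fun f => cH σ.om c a b f * Rm σ.om c f (ix r) (ix s))
      fun t k => by simp only [Option.elim, Rm_dead h k, mul_zero]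
    rw [Fintype.sum_option] at this
    simp only [Option.elim, zero_add] at this
    rw [← this, rho, Matrix.of_apply]
    refine sum_congr rfl fun t _ => ?_
    rcases e'' : ix t with _ | f <;> simp [ce, Rm, e, e', e'']
  simp only [jd, cm, Matrix.sub_apply, Matrix.mul_apply, rho_sg1, k2, Matrix.sum_apply,
    Matrix.smul_apply, smul_eq_mul, sub_mul, sum_sub_distrib, ← k1]
  simp only [ce, e, e', Option.elim, neg_mul_neg]
  ring

theorem sOk : SOk := by
  intro ι κ _ _ _ _ m Ω Λ σ ix o τ X ω₀ h i h0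
  have al := h.al0 h0
  have an := al.fr.mono fun n k => (GA.sMul _ _ _ _ _ k).anti
  have obR : ∀ f r s, OB (cM X) fun n => Rm σ.om ((X n).c (ω₀ n)) f r s := fun f r s => by
    rcases r with _ | r <;> rcases s with _ | s
    · exact GA.ob_const h.big 0
    · exact GA.ob_const h.big 0
    · exact GA.ob_const h.big _
    · exact GA.ob_congr (al.ob f s r) (.of_forall fun n => cH_le _ _ _ _)
  have jac : ∀ p q r s, Neg (cM X) fun n => jd (cB σ ix X ω₀ n) p q r s := fun p q r s => by
    rcases e : ix p with _ | a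
    · exact GA.neg_ev (.of_forall fun n => i.eq_o e ▸ jd_o i h.ok q r s)
    rcases e' : ix q with _ | b
    · exact GA.neg_ev (an.mono fun n k => by
        rw [jd_an (ce_an i k), i.eq_o e', jd_o i h.ok, neg_zero])
    refine (((core al).1 a b (ix r) (ix s)).add h.big (Neg.sum h.big univ fun f _ => ?_)).congr
      (.of_forall fun n => jd_eq i h.ok e e' r s)
    by_cases k : 0 < σ.mu f
    · by_cases k' : Hm σ.om a b f
      · exact GA.neg_ev (.of_forall fun n => by simp [cH, k'])
      · exact ((al.hom a b f ((h.ok.om_ne f).2 k) k').mul (obR f (ix r) (ix s))).congr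
          (.of_forall fun n => by simp only [cH, if_neg k', sub_zero])
    · exact GA.neg_ev (.of_forall fun n => by rw [Rm_dead h.ok k, mul_zero])
  refine ⟨i.md_ok h.ok, fun ε hε T => ?_⟩
  filter_upwards [an, h.alg ε hε T, eventually_all.2 fun p => eventually_all.2 fun q =>
    eventually_all.2 fun r => eventually_all.2 fun s => jac p q r s T,
    eventually_all.2 fun f => eventually_all.2 fun r => eventually_all.2 fun s => obR f r s ε hε,
    eventually_all.2 fun q => GA.ob_const h.big (up ix σ.mu q) ε hε] with n k1 k2 k3 k4 k5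
  have g := k2 _ (h0 n)
  simp only [G39.dl_inv] at k4 k5
  refine ⟨fun p q r => ?_, ce_gr h.ok, ce_an i k1, fun q r => by simp [ce, i.ho, Kc.md], k3,
    fun p q r x y ⟨f, z, w⟩ => ?_, fun p q x y => ?_⟩
  · rcases e : ix p with _ | a <;> simp only [ce, e, Option.elim, abs_neg]
    · split_ifs
      exacts [k5 q, abs_zero.trans_le (Real.exp_pos _).le]
    · exact k4 _ _ _
  · rcases e : ix p with _ | a
    · have : r ≠ q := fun v => y ⟨f, v ▸ z, w⟩
      simp [ce, e, this, (Real.exp_pos _).le]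
    rcases e' : ix q with _ | b
    · have : f ≠ a := fun v => x ⟨f, v ▸ e, w⟩
      simp [ce, Rm, e, e', z, this, (Real.exp_pos _).le]
    · simp only [ce, Rm, e, e', z, Option.elim, abs_neg]
      exact (cH_le _ _ _ _).trans (g.g0 a b f (fun v => x ⟨a, e, v⟩) (fun v => y ⟨b, e', v⟩) w)
  · rcases e : ix p with _ | a
    · exact absurd (i.eq_o e) x
    rcases e' : ix q with _ | b
    · exact absurd (i.eq_o e') y
    · simp only [ce, Rm, e, e', Kc.md, i.hτ, Option.elim, abs_neg]
      exact (cH_le _ _ _ _).trans (g.chi a b)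

end Pool.Agent.MP_5168f5_an.QA.P7
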