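import Pool.Agent.MP_5168f5_an.QA.P7Con
import Pool.Agent.MP_5168f5_an.QA.P7Ok
import Pool.Agent.MP_5168f5_an.AN.N2Alg
import Pool.Agent.MP_5168f5_an.AN.TGU

/-! The maximal estimate: characters of rate zero in the linear model. -/

namespace Pool.Agent.MP_5168f5_an.QA.P7

open H19 H17S H17F R4 AN Filter LC Matrix Finset
open G39 (dl)
open GA (Mt Hm cH)
open P7E (rho)

theorem ab_sum {α : Type} [Fintype α] {l f : α → ℝ} {A : ℝ} (h : ∀ a, l a ≠ 0 → |f a| ≤ A) :
    |∑ a, l a * f a| ≤ (∑ a, |l a|) * A := by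
  rw [sum_mul]
  refine (abs_sum_le_sum_abs _ _).trans (sum_le_sum fun a _ => ?_)
  by_cases z : l a = 0
  · simp [z]
  · rw [abs_mul]; exact mul_le_mul_of_nonneg_left (h a z) (abs_nonneg _)

/-- A character sees only the linear part of the exponential. -/
theorem ac_lin {m : ℕ} {μ : Md m} {la z l : Fin m → ℝ} {o : Fin m} (ok : μ.Ok la o)
    {cE : Fin m → Fin m → Fin m → ℝ} {u w θ : ℝ} (ce : CE μ la o cE u w) (hu : 0 ≤ u)
    (zo : z o = 0) (hz : ∀ p, |z p| ≤ Real.exp u) (hl : ∀ p, l p ≠ 0 → G1 μ la o p) (h0 : 0 ≤ θ)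
    (ch : ∀ p q, G1 μ la o p → G1 μ la o q → |∑ r, cE p q r * l r| ≤ θ) :
    |∑ p, l p * IsNilpotent.exp (rho cE (-z)) p o - ∑ p, l p * (μ.mu p * z p)| ≤
      (m : ℝ) ^ (2 * m + 3) * Real.exp ((2 * m + 1) * u) * θ := by
  have m1 : (1 : ℝ) ≤ m := by exact_mod_cast o.pos
  have g1 : 1 ≤ Real.exp u := Real.one_le_exp hu
  have m0 : ∀ p, 0 ≤ μ.mu p := fun p => by
    by_cases e : p = o
    exacts [(e ▸ ok.mo).ge, (ok.mp p e).le]
  have y0 : ∀ r q, ¬μ.mu q < μ.mu r → rho cE (-z) r q = 0 := fun r q k =>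
    (P7E.rho_apply _ _ _ _).trans <| sum_eq_zero fun p _ => by
      by_cases e : p = o
      · simp [e, zo]
      · refine mul_eq_zero_of_right _ (not_not.1 fun y => k ?_)
        linarith [(ce.gr p q r y).2, ok.mp p e]
  have nil : rho cE (-z) ^ (m + 1) = 0 := (N2.tri μ.mu).pow_zero' (N2.mem_F0.2 y0)
  have yb : ∀ r q, |rho cE (-z) r q| ≤ m * (Real.exp u * Real.exp u) := fun r q => by
    rw [P7E.rho_apply]
    refine (abs_sum_le_sum_abs _ _).trans ((sum_le_card_nsmul _ _ (Real.exp u * Real.exp u)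
      fun p _ => ?_).trans (by simp))
    rw [abs_mul, Pi.neg_apply, abs_neg]
    exact mul_le_mul (hz p) (ce.bd p q r) (abs_nonneg _) (Real.exp_pos u).le
  have lo : l o = 0 := not_not.1 fun e => (hl o e).1 rfl
  have y1 : ∀ r, rho cE (-z) r o = μ.mu r * z r := fun r => by
    simp [P7E.rho_apply, ce.an _ o, ce.co, mul_comm]
  have e1 := fun p => TG.TGUA.exp_vec nil (Pi.single o 1) p
  simp only [sum_range_succ' _ m, zero_add, pow_one, mulVec_single_one (rho cE (-z)),
    mulVec_single_one (IsNilpotent.exp _), col_apply] at e1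
  obtain ⟨D, hD⟩ : ∃ D : ℝ, D = m * (m * (Real.exp u * Real.exp u)) := ⟨_, rfl⟩
  have d1 : 1 ≤ D := hD ▸ one_le_mul_of_one_le_of_one_le m1
    (one_le_mul_of_one_le_of_one_le m1 (one_le_mul_of_one_le_of_one_le g1 g1))
  have k : ∀ i ∈ range m, |(((i + 1 + 1).factorial : ℝ))⁻¹ *
      ∑ p, l p * (rho cE (-z) ^ (i + 1 + 1) *ᵥ Pi.single o 1) p| ≤
      m * (m * (Real.exp u * D ^ m * θ)) := fun i hi => by
    rw [pow_succ', ← mulVec_mulVec]
    have wo : (rho cE (-z) ^ (i + 1) *ᵥ Pi.single o 1) o = 0 := by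
      rw [pow_succ', ← mulVec_mulVec, mulVec, dotProduct]
      exact sum_eq_zero fun q _ => mul_eq_zero_of_left (y0 o q (ok.mo ▸ (m0 q).not_gt)) _
    have wb : ∀ q, |(rho cE (-z) ^ (i + 1) *ᵥ Pi.single o 1) q| ≤ D ^ m := fun q => by
      refine (TG.TGUA.pow_bd yb (δ := 1) (fun p => ?_) _ q).trans ?_
      · rw [Pi.single_apply]; split_ifs <;> simp
      · rw [mul_one, Fintype.card_fin, ← hD]
        exact pow_le_pow_right₀ d1 (mem_range.1 hi)
    generalize rho cE (-z) ^ (i + 1) *ᵥ Pi.single o 1 = W at wo wb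
    have e : ∑ r, l r * (rho cE (-z) *ᵥ W) r = ∑ p, ∑ q, -(z p * W q) * ∑ r, cE p q r * l r := by
      simp only [mulVec, dotProduct, P7E.rho_apply, mul_sum, sum_mul, Pi.neg_apply]
      rw [sum_comm]
      refine (sum_congr rfl fun q _ => sum_comm).trans (sum_comm.trans ?_)
      exact sum_congr rfl fun p _ => sum_congr rfl fun q _ => sum_congr rfl fun r _ => by ring
    rw [e, abs_mul]
    refine (mul_le_of_le_one_left (abs_nonneg _) ?_).trans ((abs_sum_le_sum_abs _ _).trans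
      ((sum_le_card_nsmul _ _ (m * (Real.exp u * D ^ m * θ)) fun p _ => (abs_sum_le_sum_abs _ _).trans
        ((sum_le_card_nsmul _ _ (Real.exp u * D ^ m * θ) fun q _ => ?_).trans (by simp))).trans
        (by simp)))
    · rw [abs_of_nonneg (by positivity)]
      exact inv_le_one_of_one_le₀ (by exact_mod_cast Nat.factorial_pos _)
    by_cases a : p = o
    · simp only [a, zo, zero_mul, neg_zero, abs_zero]; positivity
    by_cases b : q = o
    · simp only [b, wo, zero_mul, mul_zero, neg_zero, abs_zero]; positivity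
    rw [abs_mul, abs_neg, abs_mul]
    refine mul_le_mul (mul_le_mul (hz p) (wb q) (abs_nonneg _) (Real.exp_pos u).le) ?_
      (abs_nonneg _) (by positivity)
    by_cases g : G1 μ la o p ∧ G1 μ la o q
    · exact ch p q g.1 g.2
    · rw [sum_eq_zero fun r _ => not_not.1 fun y => g ?_, abs_zero]
      · exact h0
      have a1 := ce.gr p q r (left_ne_zero_of_mul y)
      have a2 := (hl r (right_ne_zero_of_mul y)).2
      exact ⟨⟨a, by linarith [a1.1, a1.2, ok.vt p, ok.vt q]⟩, b,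
        by linarith [a1.1, a1.2, ok.vt p, ok.vt q]⟩
  have e2 : ∑ p, l p * IsNilpotent.exp (rho cE (-z)) p o - ∑ p, l p * (μ.mu p * z p) =
      ∑ i ∈ range m, (((i + 1 + 1).factorial : ℝ))⁻¹ *
        ∑ p, l p * (rho cE (-z) ^ (i + 1 + 1) *ᵥ Pi.single o 1) p := by
    simp only [e1, mul_add, sum_add_distrib, y1, mul_sum]
    rw [sum_comm]
    simp [Pi.single_apply, lo, mul_left_comm]
  rw [e2]
  refine (abs_sum_le_sum_abs _ _).trans ((sum_le_card_nsmul _ _ _ k).trans (le_of_eq ?_))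
  have : Real.exp ((2 * m + 1) * u) = Real.exp u ^ (2 * m + 1) := by
    rw [← Real.exp_nat_mul]; push_cast; rfl
  rw [this, hD, card_range, nsmul_eq_mul]
  ring

theorem sAc : SAc := by
  intro ι κ _ _ _ _ m Ω Λ σ ix o τ X ω₀ h i h0 hC hK' hK a c hc T
  have hM : Big (cM X) := h.big
  obtain ⟨C, bC⟩ := Finite.exists_le fun e : Option κ =>
    e.elim (1 : ℝ) fun b => σ.mu b + (σ.mu b)⁻¹
  have c1 : 1 ≤ C := bC none
  have c2 : ∀ b, σ.mu b ≤ C ∧ (σ.mu b)⁻¹ ≤ C := fun b => by
    have k : σ.mu b + (σ.mu b)⁻¹ ≤ C := bC (some b)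
    constructor <;> linarith [h.ok.m0 b, inv_nonneg.2 (h.ok.m0 b)]
  have p0 : (0 : ℝ) ≤ (m : ℝ) ^ (2 * m + 3) := by positivity
  have e0 : 0 < c / 4 / (2 * m + 1) := by positivity
  filter_upwards [hC _ e0 T, hK' T, hK a T, h.inc a _ e0 0, h.alg 1 one_pos T,
    h.ac a _ (half_pos hc) T, h.com a, (hM.sub (C := C * (3 * C + 2 + (m : ℝ) ^ (2 * m + 3)))
      (by nlinarith)).2 (c / 4) (by positivity)]
    with n hce co ky ic al ac cm bg ω hω t ht l l1 l2 l3 E hE
  have m0 : (0 : ℝ) ≤ cM X n := Nat.cast_nonneg _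
  have t0 := Real.exp_pos (-t)
  have dt : dl (cM X) T n ≤ Real.exp (-t) := Real.exp_le_exp.2 (neg_le_neg ht)
  have g1 : 1 ≤ Real.exp (c / 4 * cM X n) := Real.one_le_exp (by positivity)
  have g2 : Real.exp (-(t - c / 2 * cM X n)) =
      Real.exp (c / 4 * cM X n) * Real.exp (c / 4 * cM X n) * Real.exp (-t) := by
    rw [← Real.exp_add, ← Real.exp_add]; congr 1; ring
  obtain ⟨y, hy⟩ : ∃ y : κ → ℝ, y = fun b => ∑ p, if ix p = some b then l p * σ.mu b else 0 :=
    ⟨_, rfl⟩
  have y1 : ∀ f : κ → ℝ, ∑ b, y b * f b = ∑ p, l p * (up ix σ.mu p * up ix f p) := fun f => by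
    simp only [hy, sum_mul]
    rw [sum_comm]
    refine sum_congr rfl fun p _ => ?_
    rcases e : ix p with _ | b <;> simp [up, e, mul_assoc]
  have y2 : ∀ p b, ix p = some b → y b = l p * σ.mu b := fun p b e => by
    simp only [hy, ← e, i.inj.eq_iff, sum_ite_eq', mem_univ, if_true]
  have lo : ∀ p, ix p = none → l p = 0 := fun p e => not_not.1 fun z => (l2 p z).1 (i.eq_o e)
  have s1 : 1 ≤ C * ∑ b, |y b| := by
    have := i.sum h.ok.m0 (fun x => x.elim 0 fun b => |y b|) fun b z => by simp [hy, z]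
    simp only [Option.elim_none, Option.elim_some, zero_add] at this
    rw [← l1, ← this, mul_sum]
    refine sum_le_sum fun p _ => ?_
    rcases e : ix p with _ | b
    · simp [lo p e]
    · rw [Option.elim_some, y2 p b e, abs_mul, abs_of_pos (i.live e), mul_left_comm]
      exact le_mul_of_one_le_right (abs_nonneg _) ((inv_le_iff_one_le_mul₀ (i.live e)).1 (c2 b).2)
  have s0 : 0 < ∑ b, |y b| := by
    by_contra z
    nlinarith [not_lt.1 z]
  have s2 : ∀ (f : κ → ℝ) (A : ℝ), A ≤ 3 * C + 2 + (m : ℝ) ^ (2 * m + 3) →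
      |∑ p, l p * (up ix σ.mu p * up ix f p)| ≤ A * Real.exp (c / 4 * cM X n) * Real.exp (-t) →
      |∑ b, y b / (∑ b, |y b|) * f b| ≤ Real.exp (-(t - c / 2 * cM X n)) := fun f A u k => by
    simp only [div_mul_eq_mul_div (y _), ← sum_div, y1]
    rw [abs_div, abs_of_pos s0, div_le_iff₀ s0, g2]
    refine k.trans ?_
    have q := mul_pos (zero_lt_one.trans_le g1) t0
    have r : A ≤ Real.exp (c / 4 * cM X n) * ∑ b, |y b| := by
      nlinarith [mul_le_mul_of_nonneg_right bg s0.le]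
    nlinarith [mul_le_mul_of_nonneg_right r q.le]
  refine (ac ω hω (t - c / 2 * cM X n) (by nlinarith) (fun b => y b / ∑ b, |y b|) ?_
    (fun b z => ?_) (fun b b' u u' => ?_) E fun v v' u u' w w' => ?_).trans (Real.exp_le_exp.2 ?_)
  · simp only [abs_div, abs_of_pos s0, ← sum_div, div_self s0.ne']
  · have z' := (div_ne_zero_iff.1 z).1
    rw [hy] at z'
    obtain ⟨p, -, k⟩ := exists_ne_zero_of_sum_ne_zero z'
    have e : ix p = some b := not_not.1 fun e => k (if_neg e)
    have := (l2 p (left_ne_zero_of_mul ((if_pos e).symm.trans_ne k))).2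
    exact ⟨i.live e, by simpa [Kc.st, Kc.md, up, e] using this⟩
  · obtain ⟨p, e⟩ := (i.rng (some b)).2 fun _ e => Option.some.inj e ▸ u.1
    obtain ⟨q, e'⟩ := (i.rng (some b')).2 fun _ e => Option.some.inj e ▸ u'.1
    have k := l3 p q ⟨fun z => by simp [z, Kc.st, i.ho] at e, by simpa [Kc.st, Kc.md, up, e] using u.2⟩
      ⟨fun z => by simp [z, Kc.st, i.ho] at e', by simpa [Kc.st, Kc.md, up, e'] using u'.2⟩
    have k2 := ab_sum (l := l) (f := fun r => up ix σ.mu r * up ix ((X n).c ω b b') r +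
      (σ.mu b + σ.mu b') * cB σ ix X ω₀ n p q r) (A := C * Real.exp (-t)) fun r z => by
      rcases e'' : ix r with _ | f
      · exact absurd (lo r e'') z
      have f0 := i.live e''
      simp only [up, cB, ce, e, e', e'', Option.elim_some, TG.Rm, cH]
      split_ifs with x
      · rw [← (h.ok.hm.1 x).2.2.1, ← mul_add, ← sub_eq_add_neg, abs_mul, abs_of_pos f0]
        exact mul_le_mul (c2 f).1 ((co ω hω b b' f x).trans dt) (abs_nonneg _) (by linarith)
      · rw [neg_zero, mul_zero, add_zero, abs_mul, abs_of_pos f0]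
        exact mul_le_mul (c2 f).1 (((al ω hω).gr b b' f f0 fun z => x (h.ok.hm.2 z)).trans dt)
          (abs_nonneg _) (by linarith)
    simp only [mul_comm ((X n).c ω b b' _)]
    refine s2 _ (3 * C) (by linarith) ?_
    have k3 : |(σ.mu b + σ.mu b') * ∑ r, cB σ ix X ω₀ n p q r * l r| ≤ 2 * C * Real.exp (-t) := by
      rw [abs_mul, abs_of_pos (add_pos u.1 u'.1)]
      exact mul_le_mul (by linarith [(c2 b).1, (c2 b').1]) k (abs_nonneg _) (by linarith)
    simp only [l1, one_mul, mul_add (l _), sum_add_distrib, mul_left_comm (l _) (_ + _), ← mul_sum,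
      mul_comm (l _) (cB _ _ _ _ _ _ _ _)] at k2
    have := mul_le_mul_of_nonneg_right g1 (mul_pos (zero_lt_one.trans_le c1) t0).le
    rw [abs_le] at k2 k3 ⊢
    constructor <;> nlinarith [k2.1, k2.2, k3.1, k3.2]
  · have at0 : (X n).At false a v v' :=
      ⟨u.2.1, u'.2.1, cm v u.2.1 v' u'.2.1 (u.2.2.symm.trans u'.2.2)⟩
    have k : |∑ p, l p * nm (σ.st ix o) (cY σ ix X ω₀ n) a v v' p o| ≤ _ := hE v v' u u' w w'
    have k2 := ab_sum (l := l) (A := Real.exp (-t)) fun p _ => (ky v v' at0 p o).trans dt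
    have k3 := ac_lin (i.md_ok h.ok) hce (by positivity) (z := up ix ((X n).zz σ a v v'))
      (by simp [up, i.ho]) (fun p => by
        unfold up
        cases ix p
        · simpa using (Real.exp_pos _).le
        · exact (ic v v' at0 _).1) l2 t0.le l3
    have e : ∀ (N : Mt (Fin m)) R p, (N * uo ix R) p o = N p o := fun N R p => by
      rw [mul_apply, sum_eq_single o (fun q _ z => ?_) (by simp)]
      · simp [uo, i.ho]
      · rcases e : ix q with _ | b
        · exact absurd (i.eq_o e) z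
        · simp [uo, e, i.ho]
    rw [show (2 * (m : ℝ) + 1) * (c / 4 / (2 * m + 1) * cM X n) = c / 4 * cM X n by
      field_simp] at k3
    simp only [e, l1, one_mul, mul_sub, sum_sub_distrib] at k2
    refine s2 _ (2 + (m : ℝ) ^ (2 * m + 3)) (by linarith) ?_
    have := mul_le_mul_of_nonneg_right g1 t0.le
    change |∑ p, l p * em σ ix _ _ p o - ∑ p, l p * (up ix σ.mu p * _)| ≤ _ at k3
    rw [abs_le] at k k2 k3 ⊢
    constructor <;> linarith [k.1, k.2, k2.1, k2.2, k3.1, k3.2]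
  · have := div_le_self (show 0 ≤ c / 2 * cM X n by positivity) h.ok.one
    simp only [sub_div, Kc.md]
    linarith

end Pool.Agent.MP_5168f5_an.QA.P7
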