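import Pool.Agent.MP_5168f5_an.QA.P7Mod
import Pool.Agent.MP_5168f5_an.AN.TGRep
import Pool.Agent.MP_5168f5_an.AN.N2Alg

/-! The maximal estimate: the increments of the model are automorphisms. -/

namespace Pool.Agent.MP_5168f5_an.QA.P7

open H19 H17S H17F R4 AN Filter LC Matrix
open G39 (dl OB OO)
open GA (Mt Neg cm ng)
open P7E (rho Der vc)

namespace AutA

section Ring

variable {ι R S : Type} [Fintype ι] [DecidableEq ι] [CommRing R] [CommRing S]
  {c : ι → ι → ι → R} {N N' D : Matrix ι ι R}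

/-- An automorphism of the bracket. -/
def Aut (c : ι → ι → ι → R) (N : Matrix ι ι R) : Prop := ∀ y, N * rho c y = rho c (N *ᵥ y) * N

/-- The failure to be an automorphism. -/
def fR (c : ι → ι → ι → R) (p : ι) (N : Matrix ι ι R) : Matrix ι ι R :=
  N * rho c (Pi.single p 1) - rho c (fun s => N s p) * N

/-- The adjoint action as a linear map. -/
def rl (c : ι → ι → ι → R) : (ι → R) →ₗ[R] Matrix ι ι R where
  toFun := rho c
  map_add' := fun s t => by ext r q; simp [P7E.rho_apply, add_mul, Finset.sum_add_distrib]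
  map_smul' := fun x s => by ext r q; simp [P7E.rho_apply, Finset.mul_sum, mul_assoc]

omit [DecidableEq ι] in
theorem rho_map (f : R →+* S) (y : ι → R) :
    (rho c y).map f = rho (fun a b e => f (c a b e)) fun a => f (y a) := by
  ext r q; simp [P7E.rho_apply]

theorem rho_one (f : R →+* S) (p : ι) :
    (rho c (Pi.single p 1)).map f = rho (fun a b e => f (c a b e)) (Pi.single p 1) := by
  ext r q; simp [P7E.rho_single]

theorem fR_map (f : R →+* S) (p : ι) :
    (fR c p N).map f = fR (fun a b e => f (c a b e)) p (N.map f) := by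
  rw [fR, Matrix.map_sub _ (map_sub f), Matrix.map_mul, Matrix.map_mul, rho_map, rho_map, fR,
    ← rho_one, rho_map]
  rfl

theorem vc_rho (y : ι → R) : vc (fun a => rho c (Pi.single a 1)) y = rho c y := by
  ext r q; simp only [P7E.vc_apply, P7E.rho_single]; rfl

omit [DecidableEq ι] in
theorem Aut.mul (h : Aut c N) (h' : Aut c N') : Aut c (N * N') := fun y => by
  rw [mul_assoc, h', ← mul_assoc, h, mulVec_mulVec, mul_assoc]

theorem aut_iff : Aut c N ↔ ∀ p, fR c p N = 0 := by
  refine ⟨fun h p => sub_eq_zero.2 (by rw [h, mulVec_single_one]; rfl), fun h y => ?_⟩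
  have e : N *ᵥ y = ∑ p, y p • fun s => N s p := by
    funext s; simp [mulVec, dotProduct, mul_comm]
  have := map_sum (rl c) (fun p => y p • fun s => N s p) Finset.univ
  simp only [map_smul] at this
  rw [e, show rho c _ = _ from this, ← vc_rho y, vc, Finset.mul_sum, Finset.sum_mul]
  refine Finset.sum_congr rfl fun p _ => ?_
  rw [mul_smul_comm, smul_mul_assoc, sub_eq_zero.1 (h p)]
  rfl

theorem der_rho (h : ∀ p q, cm (rho c (Pi.single p 1)) (rho c (Pi.single q 1)) = rho c (c p q))
    (z : ι → R) : Der c (rho c z) := fun y => by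
  have := P7E.vc_br (B := fun a => rho c (Pi.single a 1)) (c := c)
    (fun a b => by rw [h, vc_rho]) z y
  rw [vc_rho, vc_rho, vc_rho] at this
  rw [this]
  congr 1
  funext e
  simp only [mulVec, dotProduct, P7E.rho_apply, GA.br, Finset.sum_mul]
  rw [Finset.sum_comm]
  exact Finset.sum_congr rfl fun a _ => Finset.sum_congr rfl fun b _ => by ring

theorem aut_exp [Algebra ℚ R] (h : Der c D) (n : IsNilpotent D) : Aut c (IsNilpotent.exp D) := by
  intro y
  have n1 : IsNilpotent (LinearMap.mulLeft R D) := n.map (Algebra.lmul R _)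
  obtain ⟨k, hk⟩ := n.neg
  have n2 : LinearMap.mulRight R (-D) ^ k = 0 := by simp [hk]
  have cc : Commute (LinearMap.mulLeft R D) (LinearMap.mulRight R (-D)) :=
    LinearMap.commute_mulLeft_right _ _
  have k1 := LinearMap.congr_fun (Module.End.commute_exp_left_of_commute
    (fM := toLinAlgEquiv' D) (fN := LinearMap.mulLeft R D + LinearMap.mulRight R (-D)) (g := rl c)
    (n.map _) (cc.isNilpotent_add n1 ⟨k, n2⟩) (LinearMap.ext fun x => by
      simpa [rl, cm, sub_eq_add_neg, toLinAlgEquiv'_apply] using (h x).symm)) y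
  have e1 : IsNilpotent.exp (LinearMap.mulLeft R D) = LinearMap.mulLeft R (IsNilpotent.exp D) :=
    (n.map_exp (Algebra.lmul R _)).symm
  have e2 : ∀ X, IsNilpotent.exp (LinearMap.mulRight R (-D)) X = X * IsNilpotent.exp (-D) := by
    intro X
    simp [IsNilpotent.exp_eq_sum n2, IsNilpotent.exp_eq_sum hk, Finset.mul_sum]
  rw [IsNilpotent.exp_add_of_commute cc n1 ⟨k, n2⟩, ← n.map_exp, e1] at k1
  simp only [LinearMap.comp_apply, Module.End.mul_apply, e2, LinearMap.mulLeft_apply,
    toLinAlgEquiv'_apply] at k1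
  rw [show rho c _ = _ from k1.symm, mul_assoc, mul_assoc, n.exp_neg_mul_exp_self, mul_one]
  rfl

end Ring

variable {m : ℕ}

theorem sqa {M : ℕ → ℕ} (hM : Big M) {c : ℕ → Fin m → Fin m → Fin m → ℝ} {z : ℕ → Fin m → ℝ}
    {U N : ℕ → Mt (Fin m)} {k : ℕ} (oc : ∀ p q r, OB M fun n => c n p q r)
    (oz : ∀ p, OB M fun n => z n p) (oU : ∀ p q, OB M fun n => U n p q)
    (jac : ∀ p q r s, Neg M fun n => (cm (rho (c n) (Pi.single p 1)) (rho (c n) (Pi.single q 1)) -
      rho (c n) (c n p q)) r s) (nil : ∀ᶠ n in UF, rho (c n) (z n) ^ k = 0)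
    (hU : ∀ p r q, Neg M fun n => fA (c n) p r q (U n))
    (hN : ∀ p q, Neg M fun n => N n p q - (IsNilpotent.exp (rho (c n) (z n)) * U n) p q)
    (p r q : Fin m) : Neg M fun n => fA (c n) p r q (N n) := by
  let _ : Algebra ℚ (OO hM) := ((TG.Rp.cs hM).comp (algebraMap ℚ ℝ)).toAlgebra
  let C : Fin m → Fin m → Fin m → OO hM := fun a b e => ⟨_, oc a b e⟩
  let Z : Fin m → OO hM := fun a => ⟨_, oz a⟩
  let V : Matrix (Fin m) (Fin m) (OO hM) := fun a b => ⟨_, oU a b⟩
  let Δ : Matrix (Fin m) (Fin m) (OO hM) := fun a b => ⟨_, (hN a b).ob⟩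
  let E := ∑ i ∈ Finset.range k, (i.factorial : ℚ)⁻¹ • rho C Z ^ i
  let π : OO hM →+* OO hM ⧸ ng hM := Ideal.Quotient.mk _
  have hz : ∀ (X : Matrix (Fin m) (Fin m) (OO hM)) (Y : ℕ → Mt (Fin m)),
      (∀ᶠ n in UF, Y n = X.map (TG.Rp.ev hM n)) →
      (X.map π = 0 ↔ ∀ p q, Neg M fun n => Y n p q) := fun X Y e => by
    rw [← Matrix.ext_iff]
    exact forall₂_congr fun p q => Ideal.Quotient.eq_zero_iff_mem.trans
      ⟨fun u => Neg.congr u (e.mono fun n k => by rw [k]; rfl),
        fun u => Neg.congr u (e.mono fun n k => by rw [k]; rfl)⟩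
  have hE : ∀ {S : Type} [CommRing S] [Algebra ℚ S] (f : OO hM →+* S),
      (rho C Z).map f ^ k = 0 → E.map f = IsNilpotent.exp ((rho C Z).map f) := fun f e => by
    rw [IsNilpotent.exp_eq_sum e]
    change f.mapMatrix _ = _
    simp only [E, map_sum, map_rat_smul, map_pow]
    rfl
  have hD : ∀ n, (rho C Z).map (TG.Rp.ev hM n) = rho (c n) (z n) := fun n => rho_map _ _
  have n0 : (rho C Z).map π ^ k = 0 := by
    rw [← Matrix.map_pow]
    exact (hz _ (fun _ => 0) (nil.mono fun n e => by rw [Matrix.map_pow, hD, e])).2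
      fun _ _ => GA.neg_zero
  have a1 : Aut (fun a b e => π (C a b e)) (E.map π) := by
    rw [hE π n0]
    refine aut_exp ?_ ⟨k, n0⟩
    rw [rho_map]
    refine der_rho (fun a b => sub_eq_zero.1 ?_) _
    have m1 : ∀ {S : Type} [CommRing S] (f : OO hM →+* S), (cm (rho C (Pi.single a 1))
        (rho C (Pi.single b 1)) - rho C (C a b)).map f =
        cm (rho (fun a b e => f (C a b e)) (Pi.single a 1))
          (rho (fun a b e => f (C a b e)) (Pi.single b 1)) -
        rho (fun a b e => f (C a b e)) fun e => f (C a b e) := fun f => by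
      rw [cm, Matrix.map_sub _ (map_sub f), Matrix.map_sub _ (map_sub f), Matrix.map_mul,
        Matrix.map_mul, rho_one, rho_one, rho_map, cm]
    rw [← m1]
    exact (hz _ _ (.of_forall fun n => (m1 _).symm)).2 (jac a b)
  have a2 : Aut (fun a b e => π (C a b e)) (V.map π) := aut_iff.2 fun p => by
    rw [← fR_map]
    exact (hz _ (fun n => fR (c n) p (U n)) (.of_forall fun n => (fR_map (c := C) (N := V)
      (TG.Rp.ev hM n) p).symm)).2 (hU p)
  refine (hz (fR C p (E * V + Δ)) (fun n => fR (c n) p (N n)) (nil.mono fun n e => ?_)).1 ?_ r q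
  · rw [fR_map, Matrix.map_add _ (map_add _), Matrix.map_mul, hE _ (by rw [hD, e]), hD]
    congr 1
    ext a b
    exact (add_sub_cancel _ _).symm
  · rw [fR_map, Matrix.map_add _ (map_add _), Matrix.map_mul,
      (hz Δ _ (.of_forall fun n => rfl)).2 hN, add_zero]
    exact aut_iff.1 (a1.mul a2) p

theorem fA_cj {c : Fin m → Fin m → Fin m → ℝ} {la : Fin m → ℝ}
    (h : ∀ p q r, c p q r ≠ 0 → la r = la p + la q) (t : ℝ) (N : Mt (Fin m)) (p r q : Fin m) :
    fA c p r q (fun a b => Real.exp ((la a - la b) * t) * N a b) =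
      fA c p r q N * Real.exp ((la r - la p - la q) * t) := by
  simp only [fA, Matrix.sub_apply, mul_apply, P7E.rho_single]
  simp only [P7E.rho_apply, sub_mul, Finset.sum_mul]
  congr 1
  · refine Finset.sum_congr rfl fun u _ => ?_
    by_cases z : c p q u = 0
    · simp [z]
    · rw [h _ _ _ z, mul_assoc, mul_comm]; congr 2; ring
  · refine Finset.sum_congr rfl fun s _ => Finset.sum_congr rfl fun u _ => ?_
    by_cases z : c u s r = 0
    · simp [z]
    · rw [h _ _ _ z, show (la u + la s) * t - la p * t - la q * t =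
        (la u * t - la p * t) + (la s * t - la q * t) by ring, Real.exp_add]
      ring

end AutA

open AutA in
theorem sAut : SAut := by
  intro ι κ _ _ _ _ m Ω Λ σ ix o τ X ω₀ h i h0 hc hu hk a p r q _ _ T
  have hM : Big (cM X) := h.big
  have : ∀ n, Nonempty {z : Ω n × Ω n // (X n).At false a z.1 z.2} :=
    fun n => ⟨⟨(ω₀ n, ω₀ n), h0 n, h0 n, rfl⟩⟩
  refine (TG.Rp.ev_all (α := fun n => {z : Ω n × Ω n // (X n).At false a z.1 z.2})
    (p := fun n z => |fA (cB σ ix X ω₀ n) p r q (nm (σ.st ix o) (cY σ ix X ω₀ n) a z.1.1 z.1.2)| ≤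
      dl (cM X) T n) fun s => ?_).mono fun n k ω v e => k ⟨(ω, v), e⟩
  have b1 : ∀ {f : ℕ → ℝ}, (∀ n u, 0 ≤ u → (X n).Inc σ a u → |f n| ≤ Real.exp u) → OB (cM X) f :=
    fun k c hc => (h.inc a c hc 0).mono fun n e => by
      rw [G39.dl_inv]; exact k n _ (by positivity) e
  refine sqa hM (z := fun n => -up ix ((X n).zz σ a (s n).1.1 (s n).1.2))
    (U := fun n => uo ix ((X n).rr σ a (s n).1.1 (s n).1.2)) (k := m + 1)
    (fun p q r c e => (hc c e 0).mono fun n k => by rw [G39.dl_inv]; exact k.bd p q r)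
    (fun p => b1 fun n u w e => ?_) (fun p q => b1 fun n u w e => ?_)
    (fun p q r s K => (hc 1 one_pos K).mono fun n k => k.jac p q r s)
    ((hc 1 one_pos 0).mono fun n k => (N2.tri (up ix σ.mu)).pow_zero' (N2.mem_F0.2 fun p q w =>
      (P7E.rho_apply _ _ _ _).trans (Finset.sum_eq_zero fun u _ => ?_))) (fun p r q => ?_)
    (fun p q K => (hk a K).mono fun n k => k _ _ (s n).2 p q) p r q T
  · simp only [Pi.neg_apply, up, abs_neg]
    cases ix p
    · simpa using (Real.exp_pos u).le
    · exact (e _ _ (s n).2 _).1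
  · unfold uo
    cases ix p <;> cases ix q
    · simpa using w
    · simpa using (Real.exp_pos u).le
    · simpa using (Real.exp_pos u).le
    · exact (e _ _ (s n).2 _).2 _
  · rcases e : ix u with _ | b
    · simp [up, e]
    · refine mul_eq_zero_of_right _ (not_not.1 fun z => w ?_)
      have := (k.gr _ _ _ z).2
      have l := (i.rng _).1 ⟨u, rfl⟩ b e
      simp only [Kc.md] at this
      rw [this]
      exact lt_add_of_pos_left _ (by rw [up, e]; exact l)
  · refine (Neg.mul_exp (u := fun n => fA (cB σ ix X ω₀ n) p r q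
      (uo ix ((X n).R (s n).1.1 (s n).1.2))) (C := (up ix σ.la r - up ix σ.la p - up ix σ.la q) * a)
      (v := fun n => Real.exp ((up ix σ.la r - up ix σ.la p - up ix σ.la q) * (a * (X n).M)))
      (fun K => (hu K).mono fun n k => k _ (s n).2.1 _ (s n).2.2.1 p r q)
      (.of_forall fun n => by rw [Real.abs_exp, mul_assoc])).congr
      ((hc 1 one_pos 0).mono fun n k => ?_)
    rw [← fA_cj fun p q r z => (k.gr p q r z).1]
    congr 1
    funext p q
    unfold uo up
    cases ix p <;> cases ix q <;> simp [Cd.rr]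

end Pool.Agent.MP_5168f5_an.QA.P7
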