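import Pool.Agent.MP_5168f5_an.QA.P7Mod
import Pool.Agent.MP_5168f5_an.AN.TGRep

/-! The maximal estimate: the changes of frame are automorphisms of the model. -/

namespace Pool.Agent.MP_5168f5_an.QA.P7

open H19 H17S H17F R4 AN Filter LC Matrix
open G39 (dl OB)
open GA (Mt Neg IsFr br cH Hm)
open P7E (rho)

variable {ι κ : Type} [Fintype ι] [DecidableEq ι] [Fintype κ] [DecidableEq κ] {m : ℕ}
  {σ : Kc ι κ} {ix : Fin m → Option κ} {o τ : Fin m}

omit [DecidableEq κ] in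
theorem star {Φ : H61Z.Filt (Mt ι)} {B : κ → Mt ι} {c c' : κ → κ → κ → ℝ} {R : Matrix κ κ ℝ}
    (h : IsFr Φ B c) (h' : IsFr Φ (GA.mB R B) c') (a b e : κ) :
    ∑ f, c' a b f * R f e = ∑ a', ∑ b', c a' b' e * R a a' * R b b' := by
  have k := h'.br a b
  rw [GA.GAFrA.vec_mB, GA.mB, GA.mB, ← (GA.sMul _ _ Φ B c h).vbr, ← sub_eq_zero] at k
  have := congrFun (h.inj (br c (R a) (R b) - c' a b ᵥ* R) (by
    rw [← k]; simp only [GA.vec, Pi.sub_apply, sub_smul, Finset.sum_sub_distrib])) e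
  exact (sub_eq_zero.1 this).symm

theorem Kc.Ok.hm (h : σ.Ok) {a b e : κ} : Hm σ.om a b e ↔
    0 < σ.mu a ∧ 0 < σ.mu b ∧ σ.mu e = σ.mu a + σ.mu b ∧ σ.la e = σ.la a + σ.la b := by
  have k : ∀ a, σ.om a ≠ 0 ↔ 0 < σ.mu a := fun a => by
    rw [Kc.om, Ne, Prod.mk_eq_zero]
    exact ⟨fun u => (h.m0 a).lt_of_ne' fun v => u ⟨by rw [h.dead a v, v, sub_self], v⟩,
      fun u v => u.ne' v.2⟩
  rw [Hm, k, k, Kc.om, Kc.om, Kc.om, Prod.mk_add_mk, Prod.mk.injEq]
  exact ⟨fun ⟨u, v, w, z⟩ => ⟨u, v, z, by linarith⟩, fun ⟨u, v, w, z⟩ => ⟨u, v, by linarith, w⟩⟩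

omit [DecidableEq κ] in
theorem Ix.sum (i : Ix σ ix o τ) (h : ∀ a, 0 ≤ σ.mu a) (F : Option κ → ℝ)
    (e : ∀ a, σ.mu a = 0 → F (some a) = 0) : ∑ p, F (ix p) = F none + ∑ a, F (some a) := by
  classical
  rw [← Fintype.sum_option, ← Finset.sum_image (f := F) i.inj.injOn]
  refine Finset.sum_subset (Finset.subset_univ _) fun x _ u => ?_
  rw [Finset.mem_image] at u
  simp only [Finset.mem_univ, true_and, i.rng, not_forall] at u
  obtain ⟨a, rfl, v⟩ := u
  exact e a ((h a).antisymm' (not_lt.1 v))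

/-- The change of frame on all indices. -/
def uO (R : κ → κ → ℝ) : Option κ → Option κ → ℝ
  | some e, some b => R b e
  | none, none => 1
  | _, _ => 0

/-- The bracket on all indices. -/
noncomputable def cO (σ : Kc ι κ) (c : κ → κ → κ → ℝ) (x y z : Option κ) : ℝ :=
  x.elim (if z = y then y.elim 0 σ.mu else 0) fun a => -TG.Rm σ.om c a z y

omit [Fintype κ] [DecidableEq κ] in
theorem uo_eq (R : κ → κ → ℝ) (p q : Fin m) : uo ix R p q = uO R (ix p) (ix q) := by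
  unfold uo uO
  cases ix p <;> cases ix q <;> rfl

omit [Fintype κ] in
theorem Ix.ce (i : Ix σ ix o τ) (c : κ → κ → κ → ℝ) (p q r : Fin m) :
    ce σ ix c p q r = cO σ c (ix p) (ix q) (ix r) := by
  simp only [P7.ce, cO, i.inj.eq_iff, up]

/-- The failure of the change of frame to be an automorphism. -/
theorem Ix.fA (i : Ix σ ix o τ) (h : ∀ a, 0 ≤ σ.mu a) (c : κ → κ → κ → ℝ) {R : Matrix κ κ ℝ}
    (u : ∀ b e, R b e ≠ 0 → σ.mu b = σ.mu e) (p r q : Fin m) :
    fA (P7.ce σ ix c) p r q (uo ix R) = 0 ∨ ∃ a b e, 0 < σ.mu e ∧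
      fA (P7.ce σ ix c) p r q (uo ix R) = ∑ a', ∑ b', cH σ.om c a' b' e * R a a' * R b b' -
        ∑ f, cH σ.om c a b f * R f e := by
  have l : ∀ p a, ix p = some a → 0 < σ.mu a := (fun p => (i.rng _).1 ⟨p, rfl⟩)
  have z1 : ∀ p a, σ.mu a = 0 → uO R (ix p) (some a) = 0 ∧ uO R (some a) (ix p) = 0 := by
    intro p a v
    rcases e : ix p with _ | b
    · exact ⟨rfl, rfl⟩
    · have := l p b e
      exact ⟨not_not.1 fun w => by linarith [u _ _ w], not_not.1 fun w => by linarith [u _ _ w]⟩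
  have k : P7.fA (P7.ce σ ix c) p r q (uo ix R) =
      (uO R (ix r) none * cO σ c (ix p) (ix q) none +
        ∑ s, uO R (ix r) (some s) * cO σ c (ix p) (ix q) (some s)) -
      ((uO R none (ix p) * cO σ c none none (ix r) +
        ∑ t, uO R (some t) (ix p) * cO σ c (some t) none (ix r)) * uO R none (ix q) +
      ∑ s, (uO R none (ix p) * cO σ c none (some s) (ix r) +
        ∑ t, uO R (some t) (ix p) * cO σ c (some t) (some s) (ix r)) * uO R (some s) (ix q)) := by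
    simp only [P7.fA, Matrix.sub_apply, mul_apply, P7E.rho_single]
    simp only [P7E.rho_apply, uo_eq, i.ce]
    rw [i.sum h (fun s => uO R (ix r) s * cO σ c (ix p) (ix q) s) fun a v => by
      rw [(z1 r a v).1, zero_mul]]
    rw [i.sum h (fun s => (∑ t, uO R (ix t) (ix p) * cO σ c (ix t) s (ix r)) * uO R s (ix q))
      fun a v => by rw [(z1 q a v).2, mul_zero]]
    simp only [fun s => i.sum h (fun t => uO R t (ix p) * cO σ c t s (ix r)) fun a v => by
      rw [(z1 p a v).2, zero_mul]]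
  rw [k]
  rcases e3 : ix r with _ | e
  · left
    cases ix p <;> cases ix q <;> simp [uO, cO, TG.Rm]
  have z2 : ∀ b, R b e * σ.mu b = σ.mu e * R b e := fun b => by
    by_cases w : R b e = 0
    · simp [w]
    · rw [u b e w, mul_comm]
  rcases ix p with _ | a <;> rcases ix q with _ | b
  · simp [uO, cO, TG.Rm]
  · left
    simp [uO, cO, TG.Rm, z2]
  · left
    simp [uO, cO, TG.Rm, Kc.om, z2, mul_comm]
  · refine .inr ⟨a, b, e, l r e e3, ?_⟩
    simp only [uO, cO, TG.Rm, Option.elim, zero_mul, mul_zero, zero_add, mul_neg,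
      Finset.sum_neg_distrib, neg_mul, Finset.sum_mul]
    rw [Finset.sum_comm (f := fun a' b' => cH σ.om c a' b' e * R a a' * R b b')]
    simp only [mul_comm (R _ _) (cH _ _ _ _ _)]
    ring

variable {Ω Λ : ℕ → Type} {X : ∀ n, Cd ι κ (Ω n) (Λ n)} (h : CC σ X) {ω v : ∀ n, Ω n}
  (hω : ∀ n, ω n ∈ (X n).P.S) (hv : ∀ n, v n ∈ (X n).P.S)

include h hω

theorem CC.oc (a b e : κ) : OB (cM X) fun n => (X n).c (ω n) a b e := fun c hc =>
  (h.alg c hc 0).mono fun n k => by rw [G39.dl_inv]; exact (k _ (hω n)).ob a b e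

theorem CC.ng {a b e : κ} (u : 0 < σ.mu e) (w : ¬Hm σ.om a b e) :
    Neg (cM X) fun n => (X n).c (ω n) a b e := fun T =>
  (h.alg 1 one_pos T).mono fun n k => (k _ (hω n)).gr a b e u fun z => w (h.ok.hm.2 z)

include hv

theorem CC.oR (b e : κ) : OB (cM X) fun n => (X n).R (ω n) (v n) b e := fun c hc => by
  filter_upwards [h.inc 0 c hc 0, h.fr] with n k f
  have := (k _ _ ⟨hω n, hv n, ((f _ (hω n)).2.2 _ (hv n)).1⟩ b).2 e
  rw [G39.dl_inv]
  simpa [Cd.rr] using this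

theorem CC.st : ∀ᶠ n in UF, (∀ a b e, ∑ f, (X n).c (v n) a b f * (X n).R (ω n) (v n) f e =
    ∑ a', ∑ b', (X n).c (ω n) a' b' e * (X n).R (ω n) (v n) a a' * (X n).R (ω n) (v n) b b') ∧
    ∀ b e, (X n).R (ω n) (v n) b e ≠ (1 : Matrix κ κ ℝ) b e → σ.mu b = σ.mu e ∧ σ.la b < σ.la e :=
  h.fr.mono fun n f => by
    obtain ⟨-, -, u, w⟩ := (f _ (hω n)).2.2 _ (hv n)
    exact ⟨star (f _ (hω n)).2.1 (u ▸ (f _ (hv n)).2.1), w⟩

theorem CC.con {a b e : κ} (u : Hm σ.om a b e) :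
    Neg (cM X) fun n => (X n).c (v n) a b e - (X n).c (ω n) a b e := by
  have hM := h.big
  obtain ⟨u1, u2, u3, u4⟩ := h.ok.hm.1 u
  have o1 := fun a b => GA.ob_const hM (-(1 : Matrix κ κ ℝ) a b)
  have k1 : ∀ f, Neg (cM X) fun n => (X n).c (v n) a b f *
      ((X n).R (ω n) (v n) f e + -(1 : Matrix κ κ ℝ) f e) := fun f => by
    by_cases w : σ.mu f = σ.mu e ∧ σ.la f < σ.la e
    · exact (h.ng hv (by linarith [w.1]) fun z => by linarith [(h.ok.hm.1 z).2.2.2, w.2]).mul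
        (GA.ob_add hM (h.oR hω hv f e) (o1 f e))
    · exact GA.neg_ev ((h.st hω hv).mono fun n k => by
        rw [not_not.1 fun z => w (k.2 f e z), add_neg_cancel, mul_zero])
  have k2 : ∀ a' b', Neg (cM X) fun n => (X n).c (ω n) a' b' e *
      ((X n).R (ω n) (v n) a a' * (X n).R (ω n) (v n) b b' +
        -(1 : Matrix κ κ ℝ) a a' * (1 : Matrix κ κ ℝ) b b') := fun a' b' => by
    by_cases w : σ.la a + σ.la b < σ.la a' + σ.la b'
    · exact (h.ng hω (by linarith) fun z => by linarith [(h.ok.hm.1 z).2.2.2]).mul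
        (GA.ob_add hM (GA.ob_mul hM (h.oR hω hv _ _) (h.oR hω hv _ _)) (GA.ob_const hM _))
    · refine GA.neg_ev ((h.st hω hv).mono fun n k => mul_eq_zero_of_right _ ?_)
      by_cases x : (X n).R (ω n) (v n) a a' = (1 : Matrix κ κ ℝ) a a' <;>
        by_cases y : (X n).R (ω n) (v n) b b' = (1 : Matrix κ κ ℝ) b b'
      · rw [x, y]; ring
      · rw [x, one_apply_ne fun z => by rw [z] at w; linarith [(k.2 _ _ y).2]]; ring
      · rw [y, one_apply_ne (i := b) fun z => by rw [z] at w; linarith [(k.2 _ _ x).2]]; ring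
      · linarith [(k.2 _ _ x).2, (k.2 _ _ y).2]
  refine ((GA.Neg.sum hM Finset.univ fun a' _ => GA.Neg.sum hM Finset.univ fun b' _ => k2 a' b').sub
    hM (GA.Neg.sum hM Finset.univ fun f _ => k1 f)).congr ((h.st hω hv).mono fun n k => ?_)
  simp only [mul_add, Finset.sum_add_distrib, k.1, mul_assoc]
  simp [one_apply]
  ring

theorem CC.ch {e : κ} (u : 0 < σ.mu e) (a b : κ) :
    Neg (cM X) fun n => cH σ.om ((X n).c (ω n)) a b e - (X n).c (v n) a b e := by
  unfold cH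
  split_ifs with w
  · exact h.con hv hω w
  · simpa using (h.ng hv u w).neg

omit hω hv in
theorem CC.au (i : Ix σ ix o τ) {ω₀ : ∀ n, Ω n} (h0 : ∀ n, ω₀ n ∈ (X n).P.S)
    (hω : ∀ n, ω n ∈ (X n).P.S) (hv : ∀ n, v n ∈ (X n).P.S) (T : ℝ) : ∀ᶠ n in UF, ∀ p r q,
    |fA (cB σ ix X ω₀ n) p r q (uo ix ((X n).R (ω n) (v n)))| ≤ dl (cM X) T n := by
  have hM := h.big
  have z : ∀ᶠ n in UF, ∀ b e, (X n).R (ω n) (v n) b e ≠ 0 → σ.mu b = σ.mu e :=
    (h.st hω hv).mono fun n k b e u => (em' (b = e)).elim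
      (fun w => (k.2 b e (by rwa [one_apply_ne w])).1) fun w => w ▸ rfl
  have k : ∀ a b e, 0 < σ.mu e → Neg (cM X) fun n =>
      ∑ a', ∑ b', cH σ.om ((X n).c (ω₀ n)) a' b' e * (X n).R (ω n) (v n) a a' *
        (X n).R (ω n) (v n) b b' -
      ∑ f, cH σ.om ((X n).c (ω₀ n)) a b f * (X n).R (ω n) (v n) f e := fun a b e u => by
    refine ((GA.Neg.sum hM Finset.univ fun a' _ => GA.Neg.sum hM Finset.univ fun b' _ =>
      ((h.ch h0 hω u a' b').mul (h.oR hω hv a a')).mul (h.oR hω hv b b')).sub hM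
      (GA.Neg.sum hM Finset.univ (f := fun f n => (cH σ.om ((X n).c (ω₀ n)) a b f -
        (X n).c (v n) a b f) * (X n).R (ω n) (v n) f e) fun f _ => ?_)).congr
      ((h.st hω hv).mono fun n k => ?_)
    · by_cases w : 0 < σ.mu f
      · exact (h.ch h0 hv w a b).mul (h.oR hω hv f e)
      · exact GA.neg_ev (z.mono fun n k => mul_eq_zero_of_right _
          (not_not.1 fun y => w (k f e y ▸ u)))
    · simp only [sub_mul, Finset.sum_sub_distrib, k.1]
      ring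
  filter_upwards [z, eventually_all.2 fun a => eventually_all.2 fun b => eventually_all.2 fun e =>
    eventually_all.2 fun u => k a b e u T] with n x y p r q
  rcases i.fA h.ok.m0 ((X n).c (ω₀ n)) x p r q with w | ⟨a, b, e, u, w⟩ <;> rw [w]
  · rw [abs_zero]; exact (G39.dl_pos _ _ _).le
  · exact y a b e u

omit h hω hv in
theorem sCon : SCon := by
  intro ι κ _ _ _ _ m Ω Λ σ ix o τ X ω₀ h i h0
  have : ∀ n, Nonempty {ω // ω ∈ (X n).P.S} := fun n => ⟨⟨_, h0 n⟩⟩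
  refine ⟨fun T => (TG.Rp.ev_all (α := fun n => {ω // ω ∈ (X n).P.S})
    (p := fun n ω => ∀ a b e, Hm σ.om a b e → |(X n).c ω a b e - (X n).c (ω₀ n) a b e| ≤
      dl (cM X) T n) fun s => eventually_all.2 fun a => eventually_all.2 fun b =>
      eventually_all.2 fun e => eventually_all.2 fun u => h.con h0 (fun n => (s n).2) u T).mono
      fun n k ω hω => k ⟨ω, hω⟩, fun T => (TG.Rp.ev_all
    (α := fun n => {ω // ω ∈ (X n).P.S} × {ω // ω ∈ (X n).P.S}) (p := fun n z => ∀ p r q,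
      |fA (cB σ ix X ω₀ n) p r q (uo ix ((X n).R z.1 z.2))| ≤ dl (cM X) T n) fun s =>
      h.au i h0 (fun n => (s n).1.2) (fun n => (s n).2.2) T).mono
      fun n k ω hω v hv => k (⟨ω, hω⟩, ⟨v, hv⟩)⟩

end Pool.Agent.MP_5168f5_an.QA.P7
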