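import Pool.Agent.MP_5168f5_an.QA.P7Nm
import Pool.Agent.MP_5168f5_an.AN.N2Alg

/-! The maximal estimate: unipotent matrices with bounded increments are in the light class. -/

namespace Pool.Agent.MP_5168f5_an.QA.P7

open H19 H17S H17F R4 AN Filter LC Finset
open GA (Mt)
open N6 (At)
open N2 (El eB eC eW tri Uni)

theorem li_of {m : ℕ} {la : Fin m → ℝ} {Ω Λ : ℕ → Type} {σ : St m (El la)}
    {X : ∀ n, Dt m (El la) (Ω n) (Λ n)} (cc : 0 < σ.cc) (e1 : σ.la = la) (e2 : σ.wt = eW la)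
    (e3 : σ.Φ = tri la) (eb : ∀ n, (X n).B = eB la ∧ (X n).c = eC la) (lo : la σ.o = 0)
    (lp : ∀ p, p ≠ σ.o → 0 < la p) (big : Big (sM X))
    (lv : ∀ a : ℚ≥0, Eqv (sM X) (fun n => (X n).lv a - (X n).lv 0) fun n => (a : ℝ) * (X n).M)
    (nest : ∀ k a a', a ≤ a' → FnE (sP X) (sO X k a) (sO X k a'))
    (com : ∀ a, FnE (sP X) (sO X false a) (sO X true a))
    (uni : ∀ᶠ n in UF, ∀ ω ∈ (X n).P.S, Uni la ((X n).j ω))
    (bd : ∀ a (c : ℝ), 0 < c → ∀ᶠ n in UF, ∀ ω v, At (X n) false a ω v → ∀ p q,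
      |nm σ (X n) a ω v p q| ≤ Real.exp (c * (X n).M)) : LP.LI σ (fun _ => univ) X := by
  refine ⟨cc, by rwa [e1], by rwa [e1], fun a => by rw [e2]; exact sub_pos.2 a.2, Subset.rfl, big, lv,
    uni.mono fun n u => ⟨by rw [e3, (eb n).1, (eb n).2]; exact N2.isFr la, fun a p q h => ?_,
      fun ω hω => (Matrix.isUnit_iff_isUnit_det _).2 (u ω hω).det⟩,
    fun ε hε => .of_forall fun n => ?_, fun _ _ _ _ _ e h => absurd (mem_univ e) h, nest, com,
    fun k a ε hε => ?_⟩
  · rw [(eb n).1] at h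
    rw [e1, e2]
    by_cases e : a.1.1 = p ∧ a.1.2 = q
    · rw [eW, e.1, e.2, add_sub_cancel]
    · exact absurd (Matrix.single_apply_of_ne _ _ _ _ _ e) h
  · have h1 : 1 ≤ Real.exp (ε * (X n).M) := Real.one_le_exp (by positivity)
    change (X n).Bd ε
    unfold Dt.Bd
    rw [(eb n).1]
    refine ⟨fun a p q => le_trans ?_ h1, fun u a => le_trans ?_
      (le_mul_of_one_le_left (sum_nonneg fun _ _ => sum_nonneg fun _ _ => abs_nonneg _) h1)⟩
    · rw [eB, Matrix.single_apply]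
      split_ifs <;> simp
    · rw [← N2.vec_eB u a]
      exact (single_le_sum (f := fun q => |GA.vec (eB la) u a.1.1 q|) (fun _ _ => abs_nonneg _)
        (mem_univ _)).trans (single_le_sum (f := fun p => ∑ q, |GA.vec (eB la) u p q|)
          (fun _ _ => sum_nonneg fun _ _ => abs_nonneg _) (mem_univ _))
  · obtain ⟨A, e, hA, ex⟩ := N2.exLog m
    filter_upwards [bd a (ε / 2 / (e + 1)) (by positivity), uni, com a,
      big_exp big A (half_pos hε)] with n b u f g ω hω v hv z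
    have z' : (X n).O false a ω = (X n).O false a v := by
      cases k
      exacts [z, f ω hω v hv z]
    have M0 : (0 : ℝ) ≤ (X n).M := Nat.cast_nonneg _
    have := ex la (fun p => Real.exp (-(la p * (X n).lv a))) _ _ _
      (Real.one_le_exp (show 0 ≤ ε / 2 / (e + 1) * (X n).M by positivity))
      (fun _ => Real.exp_pos _) (u ω hω) (u v hv) fun p q => by
        have w := b ω v ⟨hω, hv, z'⟩ p q
        rw [nm, abs_mul, abs_of_pos (Real.exp_pos _), e1, ← le_div_iff₀' (Real.exp_pos _)] at w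
        refine w.trans (le_of_eq ?_)
        rw [← Real.exp_sub, ← Real.exp_sub, ← Real.exp_add]
        congr 1; ring
    obtain ⟨s, s1, s2⟩ := this
    refine ⟨s, fun i => (s1 i).trans ?_, by rw [(eb n).1]; exact s2⟩
    beta_reduce
    rw [rd, if_pos (mem_univ _), mul_one, e2, eW, ← Real.exp_sub,
      show -(la i.1.1 * (X n).lv a) - -(la i.1.2 * (X n).lv a) =
        -((la i.1.1 - la i.1.2) * (X n).lv a) by ring]
    refine mul_le_mul_of_nonneg_right ((mul_le_mul_of_nonneg_right g (by positivity)).trans ?_)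
      (Real.exp_pos _).le
    rw [← Real.exp_nat_mul, ← Real.exp_add, Real.exp_le_exp]
    have : (e : ℝ) * (ε / 2 / (e + 1)) ≤ ε / 2 := by
      rw [← mul_div_assoc, div_le_iff₀ (by positivity)]; nlinarith
    nlinarith

end Pool.Agent.MP_5168f5_an.QA.P7
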