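import Pool.Agent.MP_5168f5_an.QA.P7Core
import Pool.Agent.MP_5168f5_an.QA.P7Con
import Pool.Agent.MP_5168f5_an.QA.P7Li

/-! The maximal estimate: the increments of the model. -/

namespace Pool.Agent.MP_5168f5_an.QA.P7

open H19 H17S H17F R4 AN Filter LC Matrix IsNilpotent
open G39 (dl OB)
open GA (Mt Neg IsFr Hm lg bch)
open P7E (rho)
open N2 (tri Uni)

namespace KeyA

section Mat

variable {M : ℕ → ℕ} {J : Type} [Fintype J] [DecidableEq J] {A B U : ℕ → Matrix J J ℝ}

/-- Matrices of subexponential size. -/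
def OM (M : ℕ → ℕ) (A : ℕ → Matrix J J ℝ) : Prop := ∀ p q, OB M fun n => A n p q

/-- Negligible matrices. -/
def NM (M : ℕ → ℕ) (A : ℕ → Matrix J J ℝ) : Prop := ∀ p q, Neg M fun n => A n p q

omit [DecidableEq J] in
theorem OM.mul (hM : Big M) (h : OM M A) (g : OM M B) : OM M fun n => A n * B n := fun p q =>
  GA.ob_sum hM Finset.univ fun r _ => GA.ob_mul hM (h p r) (g r q)

omit [DecidableEq J] in
theorem NM.ml (hM : Big M) (h : NM M B) (g : OM M A) : NM M fun n => A n * B n := fun p q =>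
  Neg.sum hM Finset.univ fun r _ => (h r q).mul' (g p r)

omit [DecidableEq J] in
theorem NM.mr (hM : Big M) (h : NM M A) (g : OM M B) : NM M fun n => A n * B n := fun p q =>
  Neg.sum hM Finset.univ fun r _ => (h p r).mul (g r q)

omit [Fintype J] [DecidableEq J] in
theorem NM.add (hM : Big M) (h : NM M A) (g : NM M B) : NM M fun n => A n + B n := fun p q =>
  (h p q).add hM (g p q)

omit [Fintype J] [DecidableEq J] in
theorem NM.sub (hM : Big M) (h : NM M A) (g : NM M B) : NM M fun n => A n - B n := fun p q =>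
  (h p q).sub hM (g p q)

omit [Fintype J] [DecidableEq J] in
theorem NM.congr (h : NM M A) (e : ∀ᶠ n in UF, B n = A n) : NM M B := fun p q =>
  (h p q).congr (e.mono fun _ k => by rw [k])

theorem OM.pow (hM : Big M) (h : OM M A) (k : ℕ) : OM M fun n => A n ^ k := by
  induction k with
  | zero => exact fun p q => by simpa only [pow_zero] using GA.ob_const hM _
  | succ k ih => exact fun p q => by simpa only [_root_.pow_succ] using ih.mul hM h p q

theorem ex_ap {Y : Matrix J J ℝ} {k : ℕ} (h : Y ^ k = 0) (p q : J) :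
    exp Y p q = ∑ i ∈ Finset.range k, (Y ^ i) p q * (i.factorial : ℝ)⁻¹ := by
  simp [exp_eq_sum h, Matrix.sum_apply, Rat.smul_def, mul_comm]

theorem OM.exp (hM : Big M) (h : OM M A) {k : ℕ} (e : ∀ n, A n ^ k = 0) :
    OM M fun n => exp (A n) := fun p q => by
  simp only [ex_ap (e _)]
  exact GA.ob_sum hM _ fun i _ => GA.ob_mul hM (h.pow hM i p q) (GA.ob_const hM _)

theorem NM.exp (hM : Big M) (h : NM M fun n => U n * A n - B n * U n) (a : OM M A) (b : OM M B)
    {k : ℕ} (e : ∀ n, A n ^ k = 0 ∧ B n ^ k = 0) :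
    NM M fun n => U n * exp (A n) - exp (B n) * U n := fun p q => by
  have w : ∀ i, NM M fun n => U n * A n ^ i - B n ^ i * U n := fun i => by
    induction i with
    | zero => exact fun p q => GA.neg_ev (.of_forall fun n => by simp)
    | succ i ih =>
      exact ((ih.mr hM a).add hM (h.ml hM (b.pow hM i))).congr (.of_forall fun n => by
        rw [_root_.pow_succ, _root_.pow_succ]; noncomm_ring)
  refine (Neg.sum hM (Finset.range k) fun i _ =>
    (w i p q).mul (GA.ob_const hM (i.factorial : ℝ)⁻¹)).congr (.of_forall fun n => ?_)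
  simp only [Matrix.sub_apply, mul_apply, ex_ap (e n).1, ex_ap (e n).2, Finset.mul_sum,
    Finset.sum_mul, sub_mul, Finset.sum_sub_distrib]
  rw [Finset.sum_comm, Finset.sum_comm (s := Finset.univ) (t := Finset.range k)]
  simp only [mul_assoc, mul_comm]

theorem OM.inv (hM : Big M) (h : OM M A) {k : ℕ} (e : ∀ᶠ n in UF, (1 - A n) ^ k = 0) :
    OM M fun n => (A n)⁻¹ := fun p q =>
  GA.ob_congr (GA.ob_sum hM (Finset.range k) fun i _ => OM.pow (A := fun n => 1 - A n) hM
    (fun p q => GA.ob_add hM (GA.ob_const hM _) (GA.ob_neg hM (h p q))) i p q)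
    (e.mono fun n u => by
      have := mul_neg_geom_sum (1 - A n) k
      rw [u, sub_sub_cancel, sub_zero] at this
      beta_reduce
      rw [inv_eq_right_inv this, Matrix.sum_apply])

theorem rho_lin (c : J → J → J → ℝ) (N : Matrix J J ℝ) (y : J → ℝ) (r q : J) :
    (N * rho c y - rho c (N *ᵥ y) * N) r q =
      ∑ p, y p * (N * rho c (Pi.single p 1) - rho c (fun s => N s p) * N) r q := by
  simp only [Matrix.sub_apply, mul_apply, P7E.rho_single]
  simp only [P7E.rho_apply, mulVec, dotProduct, mul_sub, Finset.sum_sub_distrib, Finset.mul_sum,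
    Finset.sum_mul]
  congr 1
  · rw [Finset.sum_comm]
    exact Finset.sum_congr rfl fun _ _ => Finset.sum_congr rfl fun _ _ => by ring
  · symm
    rw [Finset.sum_comm]
    refine Finset.sum_congr rfl fun _ _ => ?_
    rw [Finset.sum_comm]
    exact Finset.sum_congr rfl fun _ _ => Finset.sum_congr rfl fun _ _ => by ring

end Mat

variable {ι κ : Type} [Fintype ι] [DecidableEq ι] [Fintype κ] [DecidableEq κ] {m : ℕ}
  {σ : Kc ι κ} {ix : Fin m → Option κ} {o τ : Fin m} (i : Ix σ ix o τ) (k : σ.Ok)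

/-- Conjugation by a diagonal matrix. -/
noncomputable def cj (la : Fin m → ℝ) (s : ℝ) : Mt (Fin m) →+* Mt (Fin m) where
  toFun := fun N => of fun p q => Real.exp ((la p - la q) * s) * N p q
  map_one' := by
    ext p q
    by_cases e : p = q
    · subst e; simp
    · simp [e]
  map_mul' := fun A B => by
    ext p q
    simp only [of_apply, mul_apply, Finset.mul_sum]
    refine Finset.sum_congr rfl fun r _ => ?_
    rw [show (la p - la q) * s = (la p - la r) * s + (la r - la q) * s by ring, Real.exp_add]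
    ring
  map_zero' := by ext p q; simp
  map_add' := fun A B => by ext p q; simp [mul_add]

include i

omit [Fintype κ] [DecidableEq κ] in
theorem live {p : Fin m} {a : κ} (e : ix p = some a) : 0 < σ.mu a := (i.rng _).1 ⟨p, rfl⟩ a e

include k

theorem ce_gr {c : κ → κ → κ → ℝ} {p q r : Fin m} (h : ce σ ix c p q r ≠ 0) :
    up ix σ.la r = up ix σ.la p + up ix σ.la q := by
  rw [i.ce] at h
  unfold up
  revert h
  rcases ix p with _ | a <;> rcases ix q with _ | b <;> rcases ix r with _ | e <;>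
    simp +contextual [cO, TG.Rm, GA.cH, k.hm]

theorem rho_mem (c : κ → κ → κ → ℝ) (z : κ → ℝ) :
    rho (ce σ ix c) (-up ix z) ∈ (tri (up ix σ.la)).F 0 := N2.mem_F0.2 fun r q h =>
  (P7E.rho_apply ..).trans <| Finset.sum_eq_zero fun p _ => by
    by_contra u
    have := ce_gr i k (right_ne_zero_of_mul u)
    rcases e : ix p with _ | a
    · exact left_ne_zero_of_mul u (by simp [up, e])
    · have : up ix σ.la p = σ.la a := by simp [up, e]
      exact h (by linarith [live i e, k.vt a])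

theorem sub_mul {A B : Matrix (Option κ) (Option κ) ℝ}
    (h : ∀ p b, σ.mu b = 0 → A (ix p) (some b) = 0) :
    (A * B).submatrix ix ix = A.submatrix ix ix * B.submatrix ix ix := by
  ext p q
  simp only [submatrix_apply, mul_apply, Fintype.sum_option]
  exact (i.sum k.m0 (fun s => A (ix p) s * B s (ix q)) fun b u => by rw [h p b u, zero_mul]).symm

theorem em_eq (c : κ → κ → κ → ℝ) (z : κ → ℝ) :
    em σ ix c z = (TG.Em σ.om c z).submatrix ix ix ∧
      ∀ p b, σ.mu b = 0 → TG.Em σ.om c z (ix p) (some b) = 0 := by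
  obtain rfl : ‹DecidableEq κ› = fun a b => Classical.propDecidable (a = b) :=
    Subsingleton.elim _ _
  classical
  have d : ∀ x b, σ.mu b = 0 → (∑ a, z a • TG.Rm σ.om c a) x (some b) = 0 := fun x b u => by
    rw [Matrix.sum_apply]
    refine Finset.sum_eq_zero fun a _ => ?_
    cases x <;> simp [TG.Rm, GA.cH, k.hm, u]
  have e : rho (ce σ ix c) (-up ix z) = (∑ a, z a • TG.Rm σ.om c a).submatrix ix ix := by
    ext r q
    simp only [P7E.rho_apply, i.ce, submatrix_apply, Matrix.sum_apply, Pi.neg_apply, up]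
    rw [i.sum k.m0 (fun x => -x.elim 0 z * cO σ c x (ix q) (ix r)) fun a u => by
      cases ix q <;> cases ix r <;> simp [cO, TG.Rm, GA.cH, k.hm, u, Kc.om]]
    simp [cO]
  have w : ∀ j, ((∑ a, z a • TG.Rm σ.om c a) ^ j).submatrix ix ix =
      rho (ce σ ix c) (-up ix z) ^ j := fun j => by
    induction j with
    | zero => simpa only [pow_zero] using submatrix_one ix i.inj
    | succ j ih => rw [pow_succ', pow_succ', sub_mul i k fun p => d _, ih, e]
  obtain ⟨j, hj⟩ : IsNilpotent (∑ a, z a • TG.Rm σ.om c a) := (TG.Rp.fl σ.om ℝ 0).nil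
    (TG.Rp.rv_mem (fun a => ⟨sub_nonneg.2 (k.vt a), k.m0 a⟩) c (RingHom.id ℝ) 0 z)
  refine ⟨?_, fun p b u => ?_⟩
  · ext p q
    rw [em, ex_ap (k := j) (by rw [← w, hj]; rfl)]
    simp only [← w]
    exact (ex_ap hj (ix p) (ix q)).symm
  · refine (ex_ap hj _ _).trans (Finset.sum_eq_zero fun l _ => mul_eq_zero_of_left ?_ _)
    cases l with
    | zero => exact one_apply_ne fun y => (live i y).ne' u
    | succ l => rw [_root_.pow_succ, mul_apply]; simp [d _ b u]

/-- The pattern of the changes of frame. -/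
def Pt (σ : Kc ι κ) (R : Matrix κ κ ℝ) : Prop :=
  ∀ b e, R b e ≠ (1 : Matrix κ κ ℝ) b e → σ.mu b = σ.mu e ∧ σ.la b < σ.la e

variable {R : Matrix κ κ ℝ}

omit [Fintype κ] k in
theorem uo_dead (h : Pt σ R) (p : Fin m) (b : κ) (u : σ.mu b = 0) : uO R (ix p) (some b) = 0 := by
  rcases e : ix p with _ | a
  · rfl
  · have := live i e
    have w : b ≠ a := fun w => by rw [w] at u; linarith
    exact Eq.trans (not_not.1 fun y => by linarith [(h b a y).1]) (one_apply_ne w)

theorem uo_mul (h : Pt σ R) (W : Matrix κ κ ℝ) : uo ix (W * R) = uo ix R * uo ix W := by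
  ext p q
  simp only [mul_apply, uo_eq]
  rw [i.sum k.m0 (fun s => uO R (ix p) s * uO W s (ix q)) fun b u => by
    rw [uo_dead i h p b u, zero_mul]]
  cases ix p <;> cases ix q <;> simp [uO, mul_apply, mul_comm]

theorem uo_vec (h : Pt σ R) (z : κ → ℝ) : uo ix R *ᵥ (-up ix z) = -up ix (z ᵥ* R) := by
  ext p
  simp only [mulVec, dotProduct, uo_eq, Pi.neg_apply, up]
  rw [i.sum k.m0 (fun s => uO R (ix p) s * -s.elim 0 z) fun b u => by
    rw [uo_dead i h p b u, zero_mul]]
  cases ix p <;> simp [uO, vecMul, dotProduct, mul_comm]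

theorem em_uni (c : κ → κ → κ → ℝ) (z : κ → ℝ) (h : Pt σ R) :
    Uni (up ix σ.la) (em σ ix c z * uo ix R) := by
  refine (N2.uni_iff.2 ((tri _).exp_sub_one (rho_mem i k c z))).mul fun p q u => ?_
  rw [uo_eq, one_apply]
  simp only [← i.inj.eq_iff, up] at u ⊢
  revert u
  rcases ix p with _ | a <;> rcases ix q with _ | b <;> simp [uO]
  exact fun u => Eq.trans (not_not.1 fun y => by linarith [(h b a y).2])
    (by simp [one_apply, eq_comm])

theorem cj_em (c : κ → κ → κ → ℝ) (z : κ → ℝ) (s : ℝ) (R : κ → κ → ℝ) :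
    cj (up ix σ.la) s (em σ ix c z * uo ix R) =
      em σ ix c (fun b => Real.exp (σ.la b * s) * z b) *
        uo ix fun b e => Real.exp ((σ.la e - σ.la b) * s) * R b e := by
  rw [map_mul, em, ((tri _).nil (rho_mem i k c z)).map_exp, em]
  congr 1
  · congr 1
    ext r q
    simp only [cj, RingHom.coe_mk, MonoidHom.coe_mk, OneHom.coe_mk, of_apply, P7E.rho_apply,
      Finset.mul_sum, Pi.neg_apply]
    refine Finset.sum_congr rfl fun p _ => ?_
    by_cases u : ce σ ix c p q r = 0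
    · simp [u]
    · rw [ce_gr i k u, add_sub_cancel_right]
      unfold up
      cases ix p <;> simp [mul_assoc]
  · ext p q
    simp only [cj, RingHom.coe_mk, MonoidHom.coe_mk, OneHom.coe_mk, of_apply, uo_eq, up]
    cases ix p <;> cases ix q <;> simp [uO]

section Seq

variable {M : ℕ → ℕ} (hM : Big M) {c : ℕ → κ → κ → κ → ℝ} {z : ℕ → κ → ℝ}
  (hc : ∀ p q r, OB M fun n => ce σ ix (c n) p q r) (hz : ∀ a, OB M fun n => z n a)

include hM

omit [Fintype κ] [DecidableEq κ] i k in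
theorem om_uo {R : ℕ → κ → κ → ℝ} (h : ∀ a b, OB M fun n => R n a b) :
    OM M fun n => uo ix (R n) := fun p q => by
  simp only [uo_eq]
  cases ix p <;> cases ix q
  exacts [GA.ob_const hM _, GA.ob_const hM _, GA.ob_const hM _, h _ _]

include hz

omit [Fintype κ] [DecidableEq κ] i k in
theorem ob_up (p : Fin m) : OB M fun n => (-up ix (z n)) p := by
  simp only [Pi.neg_apply, up]
  cases ix p
  exacts [GA.ob_const hM (-0), GA.ob_neg hM (hz _)]

include hc

omit [Fintype κ] [DecidableEq κ] i k in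
theorem om_rho : OM M fun n => rho (ce σ ix (c n)) (-up ix (z n)) := fun _ _ =>
  GA.ob_sum hM Finset.univ fun p _ => GA.ob_mul hM (ob_up hM hz p) (hc _ _ _)

theorem om_em : OM M fun n => em σ ix (c n) (z n) :=
  (om_rho hM hc hz).exp hM fun _ => (tri _).pow_zero' (rho_mem i k _ _)

theorem key0 {y y' : ℕ → κ → ℝ} {U W : ℕ → Matrix κ κ ℝ} (hy : ∀ a, OB M fun n => y n a)
    (hU : ∀ a b, OB M fun n => U n a b) (hW : ∀ a b, OB M fun n => W n a b)
    (pt : ∀ᶠ n in UF, Pt σ (U n))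
    (au : ∀ p r q, Neg M fun n => fA (ce σ ix (c n)) p r q (uo ix (U n)))
    (co : (∀ a, OB M fun n => (z n ᵥ* U n) a) → ∀ p q, Neg M fun n => (TG.Em σ.om (c n) (y' n) -
      TG.Em σ.om (c n) (y n) * TG.Em σ.om (c n) (z n ᵥ* U n)) p q) :
    NM M fun n => (em σ ix (c n) (y n) * uo ix (U n))⁻¹ *
      (em σ ix (c n) (y' n) * uo ix (W n * U n)) - em σ ix (c n) (z n) * uo ix (W n) := by
  have u1 : OM M fun n => uo ix (U n) := om_uo hM hU
  have w1 : OM M fun n => uo ix (W n) := om_uo hM hW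
  have z2 : ∀ a, OB M fun n => (z n ᵥ* U n) a := fun a =>
    GA.ob_sum hM Finset.univ fun b _ => GA.ob_mul hM (hz b) (hU b a)
  have a1 : NM M fun n => uo ix (U n) * em σ ix (c n) (z n) -
      em σ ix (c n) (z n ᵥ* U n) * uo ix (U n) := by
    refine NM.exp hM (fun r q => ?_) (om_rho hM hc hz) (om_rho hM hc z2) fun n =>
      ⟨(tri _).pow_zero' (rho_mem i k _ _), (tri _).pow_zero' (rho_mem i k _ _)⟩
    refine (Neg.sum hM Finset.univ fun p _ => (au p r q).mul' (ob_up (ix := ix) hM hz p)).congr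
      (pt.mono fun n e => ?_)
    beta_reduce
    rw [← uo_vec i k e, rho_lin]; rfl
  have a2 : NM M fun n => em σ ix (c n) (y' n) -
      em σ ix (c n) (y n) * em σ ix (c n) (z n ᵥ* U n) := fun p q =>
    (co z2 (ix p) (ix q)).congr (.of_forall fun n => by
      simp only [(em_eq i k _ _).1, ← sub_mul i k (em_eq i k _ _).2]; rfl)
  have e1 := om_em i k hM hc hy
  have j1 := (e1.mul hM u1).inv hM (pt.mono fun n e => by
    have := (tri _).pow_zero' (neg_mem (N2.uni_iff.1 (em_uni i k (c n) (y n) e)))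
    rwa [neg_sub] at this)
  refine ((((a2.mr hM u1).sub hM (a1.ml hM e1)).mr hM w1).ml hM j1).congr (pt.mono fun n e => ?_)
  have := nonsing_inv_mul _ (em_uni i k (c n) (y n) e).det
  rw [uo_mul i k e, ← one_mul (em σ ix (c n) (z n) * _), ← this]
  noncomm_ring

end Seq

omit i k

variable {Ω Λ : ℕ → Type} {X : ∀ n, Cd ι κ (Ω n) (Λ n)} {ω₀ ω v : ∀ n, Ω n}

omit [DecidableEq κ] in
theorem fr_mul {Φ : H61Z.Filt (Mt ι)} {B : κ → Mt ι} {c : κ → κ → κ → ℝ} (h : IsFr Φ B c)
    {U V W : Matrix κ κ ℝ} (e : GA.mB V B = GA.mB W (GA.mB U B)) : V = W * U := by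
  ext a b
  have := congrFun e a
  rw [GA.mB, GA.mB, GA.GAFrA.vec_mB] at this
  exact congrFun (GA.GAMulA.inj h this) b

theorem ob_lg (h : CC σ X) (hω : ∀ n, ω n ∈ (X n).P.S) (hv : ∀ n, v n ∈ (X n).P.S) (b : κ) :
    OB (cM X) fun n => lg ((X n).B (ω n)) ((X n).j (ω n)) ((X n).j (v n)) b := fun c hc => by
  filter_upwards [h.inc 0 c hc 0, h.fr] with n k f
  have := (k _ _ ⟨hω n, hv n, ((f _ (hω n)).2.2 _ (hv n)).1⟩ b).1
  rw [G39.dl_inv]
  simpa [Cd.zz] using this

theorem key (h : CC σ X) (i : Ix σ ix o τ) (h0 : ∀ n, ω₀ n ∈ (X n).P.S)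
    (hc : ∀ p q r, OB (cM X) fun n => cB σ ix X ω₀ n p q r) (hω : ∀ n, ω n ∈ (X n).P.S)
    (hv : ∀ n, v n ∈ (X n).P.S) : NM (cM X) fun n =>
      ((cY σ ix X ω₀ n).j (ω n))⁻¹ * (cY σ ix X ω₀ n).j (v n) - em σ ix ((X n).c (ω₀ n))
        (lg ((X n).B (ω n)) ((X n).j (ω n)) ((X n).j (v n))) * uo ix ((X n).R (ω n) (v n)) := by
  refine (key0 i h.ok h.big hc (ob_lg h hω hv) (ob_lg h h0 hω) (h.oR h0 hω) (h.oR hω hv)
    ((h.st h0 hω).mono fun _ e => e.2) (fun p r q T => (h.au i h0 h0 hω T).mono fun _ e => e p r q)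
    fun z => (core (h.al0 h0)).2 _ _ fun a => ⟨ob_lg h h0 hω a, z a⟩).congr ?_
  filter_upwards [h.fr] with n f
  obtain ⟨f1, f2, f3⟩ := f _ (h0 n)
  obtain ⟨-, g1, g2, -⟩ := f3 _ (hω n)
  obtain ⟨-, -, g3, -⟩ := f3 _ (hv n)
  obtain ⟨-, g4, g5, -⟩ := (f _ (hω n)).2.2 _ (hv n)
  have l := GA.sMul _ _ _ _ _ f2
  have r1 := fr_mul f2 (g3.symm.trans (g2 ▸ g5))
  generalize lg ((X n).B (ω n)) ((X n).j (ω n)) ((X n).j (v n)) = z at g4 ⊢
  rw [GA.ex, g2, GA.GAFrA.vec_mB, ← GA.ex, g1, mul_assoc, l.mul] at g4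
  rw [← r1, ← l.lg _ (bch _ _ _ _) f1, ← g4]
  rfl

theorem keyN (h : CC σ X) (i : Ix σ ix o τ) (h0 : ∀ n, ω₀ n ∈ (X n).P.S)
    (hc : ∀ p q r, OB (cM X) fun n => cB σ ix X ω₀ n p q r) (hω : ∀ n, ω n ∈ (X n).P.S)
    (hv : ∀ n, v n ∈ (X n).P.S) (a : ℚ≥0) : NM (cM X) fun n =>
      nm (σ.st ix o) (cY σ ix X ω₀ n) a (ω n) (v n) - em σ ix ((X n).c (ω₀ n))
        ((X n).zz σ a (ω n) (v n)) * uo ix ((X n).rr σ a (ω n) (v n)) := fun p q =>
  ((key h i h0 hc hω hv p q).mul_exp (C := (up ix σ.la p - up ix σ.la q) * a)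
    (v := fun n => Real.exp ((up ix σ.la p - up ix σ.la q) * (a * (X n).M)))
    (.of_forall fun n => by rw [Real.abs_exp, mul_assoc])).congr (.of_forall fun n => by
      have := cj_em i h.ok ((X n).c (ω₀ n)) (lg ((X n).B (ω n)) ((X n).j (ω n)) ((X n).j (v n)))
        (a * (X n).M) ((X n).R (ω n) (v n))
      beta_reduce
      rw [Matrix.sub_apply, Matrix.sub_apply, _root_.sub_mul, mul_comm, mul_comm _ (Real.exp _)]
      exact congrArg₂ _ rfl (congrFun (congrFun this p) q).symm)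

end KeyA

open KeyA in
theorem sKey : SKey := by
  intro ι κ _ _ _ _ m Ω Λ σ ix o τ X ω₀ h i h0 cs _
  have hM := h.big
  have hc : ∀ p q r, OB (cM X) fun n => cB σ ix X ω₀ n p q r := fun p q r c u =>
    (cs c u 0).mono fun n e => (e.bd p q r).trans_eq (G39.dl_inv (cM X) c n).symm
  have ne : ∀ a n, Nonempty {s : Ω n × Ω n // (X n).At false a s.1 s.2} := fun a n =>
    ⟨⟨(_, _), h0 n, h0 n, rfl⟩⟩
  refine ⟨fun a T => ?_, li_of one_pos rfl rfl rfl (fun _ => ⟨rfl, rfl⟩) (by simp [Kc.st, up, i.ho])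
    (fun p u => ?_) hM (fun a => ?_) h.nest h.com (h.fr.mono fun n f ω hω =>
      em_uni i h.ok _ _ ((f _ (h0 n)).2.2 _ hω).2.2.2) fun a c u => ?_⟩
  · have := ne a
    exact (TG.Rp.ev_all (α := fun n => {s : Ω n × Ω n // (X n).At false a s.1 s.2})
      (p := fun n s => ∀ p q, |nm (σ.st ix o) (cY σ ix X ω₀ n) a s.1.1 s.1.2 p q -
        (em σ ix ((X n).c (ω₀ n)) ((X n).zz σ a s.1.1 s.1.2) * uo ix ((X n).rr σ a s.1.1 s.1.2)) p q| ≤
        dl (cM X) T n) fun s => eventually_all.2 fun p => eventually_all.2 fun q =>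
        keyN h i h0 hc (fun n => (s n).2.1) (fun n => (s n).2.2.1) a p q T).mono
      fun n e ω v w => e ⟨(ω, v), w⟩
  · rcases e : ix p with _ | a
    · exact absurd (i.inj (e.trans i.ho.symm)) u
    · simpa [up, e] using (live i e).trans_le (h.ok.vt a)
  · simpa [Cd.md] using Eqv.rfl
  · have := ne a
    refine (TG.Rp.ev_all (α := fun n => {s : Ω n × Ω n // (X n).At false a s.1 s.2})
      (p := fun n s => ∀ p q, |nm (σ.st ix o) (cY σ ix X ω₀ n) a s.1.1 s.1.2 p q| ≤
        (dl (cM X) c n)⁻¹) fun s => eventually_all.2 fun p => eventually_all.2 fun q => ?_).mono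
      fun n e ω v w p q => (e ⟨(ω, v), w⟩ p q).trans_eq (G39.dl_inv (cM X) c n)
    have x := fun c u => (h.inc a c u 0).mono fun n e => e _ _ (s n).2
    have y := (om_em i h.ok hM hc (z := fun n => (X n).zz σ a (s n).1.1 (s n).1.2) fun b c u =>
      (x c u).mono fun n e => (e b).1.trans_eq (G39.dl_inv (cM X) c n).symm).mul hM
      (om_uo (ix := ix) (R := fun n => (X n).rr σ a (s n).1.1 (s n).1.2) hM fun b b' c u =>
        (x c u).mono fun n e => ((e b).2 b').trans_eq (G39.dl_inv (cM X) c n).symm)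
    simpa using GA.ob_add hM (keyN h i h0 hc (fun n => (s n).2.1) (fun n => (s n).2.2.1) a p q).ob
      (y p q) c u

end Pool.Agent.MP_5168f5_an.QA.P7
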