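import Pool.Agent.MP_5168f5_an.QA.P7Fin
import Pool.Agent.MP_5168f5_an.AN.TPHm

/-! Flat iterated differences: from an entry of the increments to the cells of the chamber. -/

namespace Pool.Agent.MP_5168f5_an.QA.P7

open H17F hiding co
open H19 H17S R4 Filter AN AN.LC AN.LP GA GF
open G39 (dl OB OS)
open N6 (At co Bl wA tA oN sy cl_sc ex_rp atom_co co_eq fr_Bl gd1 Gy Rp)
open N6.N6AcsA (co0 ex0)
open TG.TP.TPHmA (fineS small)

variable {m : ℕ} {κ : Type} [Fintype κ] {Ω Λ : ℕ → Type} {σ : St m κ}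
  {X : ∀ n, Dt m κ (Ω n) (Λ n)}

omit [Fintype κ] in
/-- The sure form gives the form with a context. -/
theorem hs_ht {p q : Fin m} {k : ℕ} {θ r : ℝ} {a : ℚ≥0} {rp : ∀ n, Λ n → Ω n} (hr : 0 ≤ r)
    (hp : Rp X true a rp) (h : Au (sM X) fun n => Hs σ (X n) p q k θ a) :
    HT1 k (sP X) (fun n v => Real.exp (r * (X n).M) * nm σ (X n) a (rp n ((X n).O true a v)) v p q)
      (sO X true a) (sM X) fun n => (1 - θ) * r * (X n).M := fun ε hε => by
  filter_upwards [h ε hε r, hp] with n u v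
  refine ⟨fun _ => True, (pb_zero fun _ _ z => z trivial).trans_le hε.le, fun ω hω => ?_⟩
  have k1 := u _ (v ω hω).1 (r * (X n).M) (by positivity) le_rfl
  rw [Dt.fb, (v ω hω).2] at k1
  have e : sl (cv (X n).P ((X n).O true a) ((X n).O true a ω)) (fun v => ⌊Real.exp (r * (X n).M) *
      nm σ (X n) a (rp n ((X n).O true a v)) v p q⌋) (fun _ => True) = sl (cv (X n).P
      ((X n).O true a) ((X n).O true a ω)) (fun v => ⌊Real.exp (r * (X n).M) *
      nm σ (X n) a (rp n ((X n).O true a ω)) v p q⌋) fun _ => True :=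
    Finset.sum_congr rfl fun v hv => by simp only [((S20.mem_cv hω v).1 hv).2]
  exact e ▸ k1.mono (ex_le (by simp only [sM]; linarith))

/-- The increment in logarithmic coordinates. -/
theorem nm_eq {Ω Λ : Type} {X : Dt m κ Ω Λ} {a : ℚ≥0} {ω v : Ω} {s : κ → ℝ} (h : X.Fr σ)
    (hω : ω ∈ X.P.S) (e : X.j v = X.j ω * ex (Bl σ X a) s) : nm σ X a ω v = ex X.B s := by
  funext p q
  rw [nm, e, Matrix.nonsing_inv_mul_cancel_left _ _
    ((Matrix.isUnit_iff_isUnit_det _).1 (h.2.2 ω hω)), Bl, N6.conj h.1 (N6.gr_of h), ← mul_assoc,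
    ← Real.exp_add, add_neg_cancel, Real.exp_zero, one_mul]

/-- An entry of the exponential is linear if its row is negligible outside one column. -/
theorem ex_row {M : ℕ → ℕ} (hM : Big M) {Y : ℕ → Mt (Fin m)} {N : ℕ} {la : Fin m → ℝ} {p o : Fin m}
    (po : p ≠ o) (ob : ∀ r q, OB M fun n => Y n r q)
    (nil : ∀ᶠ n in UF, Y n ^ N = 0 ∧ ∀ r q, Y n r q ≠ 0 → la q < la r)
    (row : ∀ r, r ≠ o → Neg M fun n => Y n p r) :
    Neg M fun n => IsNilpotent.exp (Y n) p o - Y n p o := by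
  have o1 : ∀ i r q, OB M fun n => (Y n ^ i) r q := fun i => by
    induction i with
    | zero => exact fun r q => by simpa only [pow_zero] using ob_const hM _
    | succ i ih =>
      intro r q
      simp only [pow_succ', Matrix.mul_apply]
      exact ob_sum hM _ fun u _ => ob_mul hM (ob r u) (ih u q)
  have o2 : ∀ i, Neg M fun n => (Y n ^ (i + 1 + 1)) p o := fun i => by
    simp only [pow_succ' _ (i + 1), Matrix.mul_apply]
    refine Neg.sum hM _ fun r _ => ?_
    by_cases z : r = o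
    · refine neg_ev (nil.mono fun n y => mul_eq_zero_of_right _ (not_not.1 fun w => ?_))
      have k : ∀ i r q, (Y n ^ (i + 1)) r q ≠ 0 → la q < la r := fun i => by
        induction i with
        | zero => simpa only [zero_add, pow_one] using y.2
        | succ i ih =>
          intro r q w
          rw [pow_succ', Matrix.mul_apply] at w
          obtain ⟨u, -, w⟩ := Finset.exists_ne_zero_of_sum_ne_zero w
          exact (ih u q (right_ne_zero_of_mul w)).trans (y.2 r u (left_ne_zero_of_mul w))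
      exact lt_irrefl _ (z ▸ k i r o w)
    · exact (row r z).mul (o1 _ r o)
  refine (Neg.sum hM (Finset.range N) fun i _ => (o2 i).mul'
    (ob_const hM (((i + 1 + 1).factorial : ℚ)⁻¹ : ℚ))).congr (nil.mono fun n y => ?_)
  rw [IsNilpotent.exp_eq_sum (k := N + 1 + 1) (by rw [pow_succ, pow_succ, y.1, zero_mul, zero_mul]),
    Finset.sum_range_succ', Finset.sum_range_succ']
  simp [Matrix.sum_apply, Matrix.one_apply_ne po, Rat.smul_def]

variable [DecidableEq κ] [Ex m κ Ω Λ] {S : Bool → Finset κ} {L₀ : ℝ} {t : κ → ℝ} {pos : κ → Prop}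
  {Lm : ℕ → κ → Fin m → Fin m → ℝ} {Pz : Fin m → Prop}

/-- The marked coordinate is flat in the cells of the chamber. -/
theorem ht_of (b : Z.LB Pz σ S L₀ t pos Lm X) {τ : κ} {p q : Fin m} {kf : ℕ → ℕ} {β : ℕ → ℝ}
    (tt : t τ = σ.wt τ) (nt : ∀ a e, Neg (sM X) fun n => (X n).c a e τ) (hβ : OB (sM X) β)
    (nβ : ¬OS (sM X) β)
    (hs : ∀ (i : ℕ) a, Au (sM X) fun n => Hs σ (X n) p q (kf i) (1 / (i + 1 : ℝ)) a)
    (rel : ∀ a (T : ℝ), ∀ᶠ n in UF, ∀ ω v, At (X n) true a ω v →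
      |nm σ (X n) a ω v p q - β n * co σ (X n) a ω v τ| ≤ dl (sM X) T n)
    (i : ℕ) (x : ℚ × ℚ) (r : ℚ) (h1 : 0 ≤ x.1) (h2 : x.1 ≤ x.2) (hr : 0 ≤ r) :
    TG.TP.HtAt (sy σ X) τ kf i (dep (oN (wA σ.wt t) (tA t)) (x.1, x.2)) r := by
  obtain ⟨ca, atc, -, -⟩ := b.chamber
  have hM := b.big
  have r0 : (0 : ℝ) ≤ r := Rat.cast_nonneg.2 hr
  obtain ⟨a, a1, a2⟩ := Z.AcsA.lev b true h1 h2
  have g : Gy σ t X (dep (oN (wA σ.wt t) (tA t)) (x.1, x.2)) :=
    gd1 ⟨ca.alg.wt, ca.alg.live, ca.alg.hom, ca.alg.sub⟩ ca.tw ca.fil (Rat.cast_nonneg.2 h1)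
      (Rat.cast_le.2 h2)
  have t0 : 0 ≤ t τ := tt ▸ (b.wp τ).le
  have a3 := (a2 τ (by simp [TG.Pu, P1, oN, wA, tA, tt, b.wp τ, (b.wp τ).le])).2
  generalize dep (oN (wA σ.wt t) (tA t)) (x.1, x.2) = d at *
  have hD := cl_sc (sM X) d
  have dA : ∀ n e, |TG.sc (X n).M d e| ≤ (‖d‖ + r) * (X n).M := fun n e => by
    rw [TG.sc, abs_mul, Nat.abs_cast]
    exact mul_le_mul_of_nonneg_right ((norm_le_pi_norm d e).trans (by linarith)) (Nat.cast_nonneg _)
  obtain ⟨L1, s1, n1⟩ := Z.AcsA.nr b hD a1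
  obtain ⟨L2, s2, lp⟩ := TG.tgLip _ κ σ.Φ _ pos (sy σ X) ca.toG0 _ L1
    (GO.GOh1A.idr sIdR hM b.oc g (hD.ap hM)) ⟨_, .of_forall dA⟩ s1
  obtain ⟨K, -, ce⟩ := sCell σ.Φ.N (Fintype.card κ)
  obtain ⟨L3, -, at1⟩ := atom_co hM b.fr b.lo (b.inc true a)
  obtain ⟨L4, s4, b4⟩ := ob_bound hM (J := Unit) (f := fun _ => β) fun _ => hβ
  obtain ⟨rp, hp⟩ := ex_rp X true a
  set γ : ℕ → ℝ := fun n => TG.sc (X n).M d τ - σ.wt τ * ((X n).lv a - (X n).lv 0) with hγ
  have g1 : ∀ δ : ℝ, 0 < δ → ∀ᶠ n in UF, |γ n| ≤ δ * (X n).M := fun δ hδ =>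
    (Z.AcsA.gam b hD a hδ).mono fun n z => by simpa only [a3, sub_self, zero_mul, sub_zero] using z τ
  have s3 : Sub (sM X) fun n => Real.exp |γ n| := 
    Sub.exp (fun ε hε => (g1 ε hε).mono fun n z => by simpa using z) fun _ => abs_nonneg _
  have k1 := (hs_ht r0 hp (hs i a)).side hM (K' := fun n => (sy σ X n).Z (TG.sc (X n).M d))
    (atc true a _ d hD g a1)
  refine (fineS k1 hM ((s2.add (hM.sub le_rfl) hM).mul (s4.mul s3))
    (c := fun n => Real.exp (γ n) / β n) (b := fun n ω => Real.exp (r * (X n).M) *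
      (GA.lg (Bl σ (X n) 0) ((sy σ X n).C (TG.sc (X n).M d) ω) ((X n).j (rp n ((X n).O true a ω))) τ /
        TG.rA (TG.sc (X n).M d) τ)) ?_).coarse (.of_forall fun _ => Fn.fst _ _)
  have nb : ∀ᶠ n in UF, dl (sM X) 1 n < |β n| :=
    (Ultrafilter.eventually_not.2 fun z => nβ ⟨1, one_pos, z⟩).mono fun n => not_le.1
  filter_upwards [b.fr, n1, lp 0, at1 0, hp, nb, g1 1 one_pos, rel a (r + 2),
    eventually_all.2 fun a => eventually_all.2 fun e => nt a e (4 * (‖d‖ + r))]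
    with n fr u3 u4 u6 u7 u8 u9 u10 u11
  have m0 : (0 : ℝ) ≤ (X n).M := Nat.cast_nonneg _
  have β0 : 0 < |β n| := (G39.dl_pos _ _ _).trans u8
  have l1 := s2.1 n
  have l3 : 1 ≤ L4 n * Real.exp |γ n| := (s4.mul s3).1 n
  refine ⟨fun u _ v _ e => ?_, ?_, fun ω hω => ?_⟩
  · obtain ⟨e1, e2⟩ := Prod.mk.inj e
    simp only [(Prod.mk.inj e1).1, show (X n).O true a u = (X n).O true a v from e2]
  · rw [abs_div, abs_of_pos (Real.exp_pos _), mul_assoc]
    refine one_le_mul_of_one_le_of_one_le (by linarith) ?_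
    rw [mul_assoc, ← mul_div_assoc, ← mul_div_assoc, le_div_iff₀ β0, one_mul, ← Real.exp_add]
    exact (b4 n ()).trans (le_mul_of_one_le_right (s4.pos n).le
      (Real.one_le_exp (by linarith [neg_abs_le (γ n)])))
  have f0 := fr_Bl fr 0
  have p0 := TG.TGZmA.rA_pos (TG.sc (X n).M d)
  have av : At (X n) true a (rp n ((X n).O true a ω)) ω := ⟨(u7 ω hω).1, hω, (u7 ω hω).2⟩
  have cn := (ce _ κ σ.Φ _ _ (TG.rA (TG.sc (X n).M d)) _ 1 rfl le_rfl f0 le_rfl
    fun e => ⟨p0 e, (one_mul _).ge⟩).1 ((X n).j ω)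
  have c4 := (u4 _ _ _ (GACntA.nr_unit cn (fr.2.2 ω hω))
    (GACntA.nr_mono cn fun e => mul_le_mul_of_nonneg_right (s1.1 n) (p0 e).le)
    (u3 _ _ av.symm)).2 (Pi.single τ 1) (Real.exp (-((‖d‖ + r) * (X n).M))) (Real.exp_pos _).le
    (fun a => by by_cases z : a = τ <;> simp [z]) fun a e => by
      simp only [Pi.single_apply, mul_ite, mul_one, mul_zero, Finset.sum_ite_eq',
        Finset.mem_univ, if_true]
      exact small ((u11 a e).trans_eq (by rw [dl, mul_assoc])) (dA n)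
  simp only [Pi.single_apply, ite_mul, one_mul, zero_mul, Finset.sum_ite_eq', Finset.mem_univ,
    if_true] at c4
  have e1 : (X n).j (rp n ((X n).O true a ω)) = (X n).j ω *
      ex (Bl σ (X n) 0) (-co σ (X n) 0 (rp n ((X n).O true a ω)) ω) := by
    conv_rhs => rw [ex0 (u6 _ _ av).1 0, mul_assoc, ((sMul _ _ _ _ _ f0).neg _).2, mul_one]
  rw [(co_eq fr hω e1).2, Pi.neg_apply, neg_div, co0 _ _ a] at c4
  have c5 := u10 _ _ av
  generalize nm σ (X n) a (rp n ((X n).O true a ω)) ω p q = y1 at c5 ⊢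
  generalize co σ (X n) a (rp n ((X n).O true a ω)) ω τ = y2 at c4 c5
  have c6 : |Real.exp (r * (X n).M) * (Real.exp (γ n) / β n * (y1 - β n * y2))| ≤ 1 := by
    rw [abs_mul, abs_mul, abs_div, abs_of_pos (Real.exp_pos _), abs_of_pos (Real.exp_pos _)]
    refine (mul_le_mul_of_nonneg_left (mul_le_mul (div_le_div_of_nonneg_left (Real.exp_pos _).le
      (G39.dl_pos _ _ _) u8.le) c5 (abs_nonneg _) (by unfold dl; positivity))
      (Real.exp_pos _).le).trans ?_
    rw [dl, dl, ← Real.exp_sub, ← Real.exp_add, ← Real.exp_add, Real.exp_le_one_iff]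
    simp only [sM]
    linarith [le_abs_self (γ n)]
  have c7 := mul_le_mul_of_nonneg_left c4 (Real.exp_pos (r * (X n).M)).le
  rw [mul_left_comm, ← Real.exp_add, ← abs_of_pos (Real.exp_pos (r * (X n).M)), ← abs_mul] at c7
  have c8 : L2 n * Real.exp (r * (X n).M + -((‖d‖ + r) * (X n).M)) ≤ L2 n :=
    mul_le_of_le_one_right (by linarith) (Real.exp_le_one_iff.2 (by
      nlinarith [mul_nonneg (norm_nonneg d) m0]))
  have β1 : β n ≠ 0 := abs_pos.1 β0
  refine le_trans ?_ (le_mul_of_one_le_right (by linarith) l3)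
  refine le_trans (le_of_eq ?_) ((abs_add_le _ _).trans (add_le_add (c7.trans c8) c6))
  rw [← abs_neg]
  congr 1
  simp only [TG.TP.tX, TG.Sy.co, TG.Sy.C, hγ]
  field_simp
  ring

/-- The end of the local step from the algebraic facts on the adapted basis. -/
theorem end7 (hT : N7.TANP) (b : Z.LB Pz σ S L₀ t pos Lm X) {τ : κ} {p o : Fin m} {kf : ℕ → ℕ}
    {x : ℝ} (pz : Pz p) (oz : ¬Pz o) (tp : pos τ) (tt : t τ = σ.wt τ)
    (nβ : ¬OS (sM X) fun n => (X n).B τ p o)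
    (mx : ∀ a, pos a → a ≠ τ → 0 < t a ∧ t a < σ.wt a ∧ σ.la p ≠ σ.la o + σ.wt a)
    (row : ∀ a r, 0 ≤ t a → r ≠ o → Neg (sM X) fun n => (X n).B a p r)
    (hs : ∀ (i : ℕ) a, Au (sM X) fun n => Hs σ (X n) p o (kf i) (1 / (i + 1 : ℝ)) a)
    (df : Au (sM X) fun n u _ => Df (X n) x 0 1 u)
    (hx : x < ∑ a, GO.ind (fun a => pos a ∧ a ≠ τ) (σ.wt a) a) : False := by
  have hM := b.big
  have gr : ∀ᶠ n in UF, ∀ a r q, (X n).B a r q ≠ 0 → σ.la r = σ.la q + σ.wt a :=
    b.fr.mono fun n z => z.2.1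
  have cl : ∀ a, a ≠ τ → Neg (sM X) fun n => (X n).B a p o := fun a u => by
    by_cases z : pos a
    · exact neg_ev (gr.mono fun n y => not_not.1 fun w => (mx a z u).2.2 (y a p o w))
    · exact b.stab a p o z pz oz
  have sp : ∀ {s : ℕ → κ → ℝ}, (∀ a, OB (sM X) fun n => s n a) →
      Neg (sM X) fun n => vec (X n).B (s n) p o - (X n).B τ p o * s n τ := fun {s} u =>
    (Neg.sum hM (Finset.univ.erase τ) fun a v => (cl a (Finset.ne_of_mem_erase v)).mul' (u a)).congr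
      (.of_forall fun n => by
        simp only [vec, Matrix.sum_apply, Matrix.smul_apply, smul_eq_mul]
        rw [← Finset.add_sum_erase _ _ (Finset.mem_univ τ)]; ring)
  have nb : ∀ᶠ n in UF, dl (sM X) 1 n < |(X n).B τ p o| :=
    (Ultrafilter.eventually_not.2 fun z => nβ ⟨1, one_pos, z⟩).mono fun n => not_le.1
  have nt : ∀ a e, 0 ≤ t a → 0 ≤ t e → Neg (sM X) fun n => (X n).c a e τ := fun a e u v => by
    have k : ∀ a e, 0 ≤ t a → Neg (sM X) fun n => ((X n).B a * (X n).B e) p o := fun a e u => by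
      simp only [Matrix.mul_apply]
      refine Neg.sum hM _ fun r _ => ?_
      by_cases z : r = o
      · exact neg_ev (gr.mono fun n y => mul_eq_zero_of_right _ (not_not.1 fun w => by
          have := y e r o w
          rw [z] at this
          linarith [b.wp e]))
      · exact (row a r u z).mul (b.oB e r o)
    refine ((((k a e u).sub hM (k e a v)).sub hM (sp (b.oc a e))).mul_exp (C := 1)
      (v := fun n => ((X n).B τ p o)⁻¹) (nb.mono fun n y => ?_)).congr ?_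
    · rw [abs_inv, ← G39.dl_inv]
      exact inv_anti₀ (G39.dl_pos _ _ _) y.le
    · filter_upwards [nb, b.fr] with n y z
      have := abs_pos.1 ((G39.dl_pos _ _ _).trans y)
      rw [← z.1.br, cm, Matrix.sub_apply]
      field_simp
      ring
  refine fin hT b tp tt nt (fun a u v => ⟨(mx a u v).1, (mx a u v).2.1⟩)
    (ht_of b tt (fun a e => ?_) (b.oB τ p o) nβ hs fun a T => ?_) df hx
  · by_cases z : t a < 0 ∨ t e < 0
    · exact b.dead a e τ z (tt ▸ (b.wp τ).le)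
    · exact nt a e (not_lt.1 fun y => z (.inl y)) (not_lt.1 fun y => z (.inr y))
  obtain ⟨L, hL, c⟩ := atom_co hM b.fr b.lo (b.inc true a)
  have : ∀ n, Nonempty (Ω n × Ω n) := fun n =>
    (ex_of_pb (P := (X n).P) (E := fun _ => True) (by rw [pb_true]; exact one_pos)).elim
      fun v _ => ⟨(v, v)⟩
  refine (unif (A := fun n => Ω n × Ω n) (h := fun n y => At (X n) true a y.1 y.2)
    (p := fun n y => |nm σ (X n) a y.1 y.2 p o - (X n).B τ p o * co σ (X n) a y.1 y.2 τ| ≤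
      dl (sM X) T n) fun y hy => ?_).mono fun n z ω v => z (ω, v)
  set s : ℕ → κ → ℝ := fun n => co σ (X n) a (y n).1 (y n).2 with hs
  have o1 : ∀ e, OB (sM X) fun n => s n e := fun e c' hc => by
    filter_upwards [c 0, hy, hL.2 c' hc] with n u v w
    rw [G39.dl_inv]
    exact ((u _ _ v).2.2.1 e).trans w
  have o2 : ∀ e, e ∉ S true → Neg (sM X) fun n => s n e := fun e z K =>
    ((c K).and hy).mono fun n u => (u.1 _ _ u.2).2.2.2 e z
  have k := ex_row hM (Y := fun n => vec (X n).B (s n)) (N := σ.Φ.N + 1) (la := σ.la) (p := p) (o := o)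
    (fun z => oz (z ▸ pz)) (fun r q => ?_) ?_ fun r z => ?_
  · refine ((k.add hM (sp o1)).congr ?_) T
    filter_upwards [c 0, hy, b.fr] with n u v w
    rw [nm_eq w v.1 (u _ _ v).1, ex]
    ring
  · simp only [vec, Matrix.sum_apply, Matrix.smul_apply, smul_eq_mul]
    exact ob_sum hM _ fun e _ => ob_mul hM (o1 e) (b.oB e r q)
  · filter_upwards [b.fr] with n z
    refine ⟨σ.Φ.pow_zero' (z.1.mem _), fun r q w => ?_⟩
    simp only [vec, Matrix.sum_apply, Matrix.smul_apply, smul_eq_mul] at w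
    obtain ⟨e, -, w⟩ := Finset.exists_ne_zero_of_sum_ne_zero w
    linarith [z.2.1 e r q (right_ne_zero_of_mul w), b.wp e]
  · simp only [vec, Matrix.sum_apply, Matrix.smul_apply, smul_eq_mul]
    refine Neg.sum hM _ fun e _ => ?_
    by_cases u : e ∈ S true
    · exact (row e r ((b.st e).1 u ▸ (b.wp e).le) z).mul' (o1 e)
    · exact (o2 e u).mul (b.oB e p r)

end Pool.Agent.MP_5168f5_an.QA.P7
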