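import Pool.Agent.MP_5168f5_an.QA.P7Ok
import Pool.Agent.MP_5168f5_an.QA.P7Ht

/-! The maximal estimate: the pattern of the increments of the model. -/

namespace Pool.Agent.MP_5168f5_an.QA.P7

open H19 H17S H17F R4 AN Filter LC Matrix
open G39 (dl OB)
open GA (Mt Neg)
open P7E (rho rho_apply)

/-- An entry of the exponential is negligible if the set `S` is entered by negligible entries. -/
theorem ex_col {m : ℕ} {M : ℕ → ℕ} (hM : Big M) {Y : ℕ → Mt (Fin m)} {N : ℕ} {S : Fin m → Prop}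
    {o : Fin m} (so : ¬S o) (ob : ∀ r q, OB M fun n => Y n r q) (nil : ∀ n, Y n ^ N = 0)
    (row : ∀ p r, S p → ¬S r → Neg M fun n => Y n p r) {p : Fin m} (hp : S p) :
    Neg M fun n => IsNilpotent.exp (Y n) p o := by
  have k : ∀ i p, (OB M fun n => (Y n ^ i) p o) ∧ (S p → Neg M fun n => (Y n ^ i) p o) := by
    intro i
    induction i with
    | zero => exact fun p => ⟨by simpa only [pow_zero] using GA.ob_const hM _, fun u =>
        GA.neg_ev (.of_forall fun n => by rw [pow_zero, one_apply_ne fun e : p = o => so (e ▸ u)])⟩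
    | succ i ih =>
      intro p
      simp only [pow_succ', mul_apply]
      exact ⟨GA.ob_sum hM _ fun r _ => GA.ob_mul hM (ob p r) (ih r).1, fun u =>
        GA.Neg.sum hM _ fun r _ => (em' (S r)).elim (fun z => (row p r u z).mul (ih r).1)
          fun z => ((ih r).2 z).mul' (ob p r)⟩
  refine (GA.Neg.sum hM (Finset.range N) fun i _ => ((k i p).2 hp).mul'
    (GA.ob_const hM (((i.factorial : ℚ)⁻¹ : ℚ)))).congr (.of_forall fun n => ?_)
  rw [IsNilpotent.exp_eq_sum (nil n)]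
  simp [Matrix.sum_apply, Rat.smul_def]

variable {ι κ : Type} [Fintype ι] [DecidableEq ι] [Fintype κ] [DecidableEq κ] {m : ℕ}
  {σ : Kc ι κ} {ix : Fin m → Option κ} {o τ : Fin m}

theorem Ix.lt (i : Ix σ ix o τ) (h : σ.Ok) (c : κ → κ → κ → ℝ) (z : κ → ℝ) (r q : Fin m)
    (u : rho (ce σ ix c) (-up ix z) r q ≠ 0) : up ix σ.mu q < up ix σ.mu r := by
  rw [rho_apply] at u
  obtain ⟨p, -, k⟩ := Finset.exists_ne_zero_of_sum_ne_zero u
  have := (i.md_ok h).mp p fun e => left_ne_zero_of_mul k (by simp [e, up, i.ho])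
  linarith [(ce_gr h p q r (right_ne_zero_of_mul k)).2, show 0 < up ix σ.mu p from this]

theorem Ix.mem (i : Ix σ ix o τ) (h : σ.Ok) (c : κ → κ → κ → ℝ) (z : κ → ℝ) :
    rho (ce σ ix c) (-up ix z) ∈ (N2.tri (up ix σ.mu)).F 0 :=
  N2.mem_F0.2 fun r q u => not_not.1 fun k => u (i.lt h c z r q k)

/-- The diagonal blocks are those of the change of frame. -/
theorem Ix.dg (i : Ix σ ix o τ) (h : σ.Ok) (c : κ → κ → κ → ℝ) (z : κ → ℝ) {R : κ → κ → ℝ}
    (u : ∀ b e, R b e ≠ 0 → σ.mu b = σ.mu e) {p q : Fin m} (e : up ix σ.mu p = up ix σ.mu q) :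
    (em σ ix c z * uo ix R) p q = uo ix R p q := by
  conv_rhs => rw [← one_mul (uo ix R)]
  rw [mul_apply, mul_apply]
  refine Finset.sum_congr rfl fun r _ => ?_
  by_cases k : uo ix R r q = 0
  · rw [k, mul_zero, mul_zero]
  refine congrArg (· * _) (N2.uni_iff.2 ((N2.tri _).exp_sub_one (i.mem h c z)) p r ?_)
  rw [e]
  unfold uo at k
  unfold up
  rcases e1 : ix r with _ | a <;> rcases e2 : ix q with _ | b <;> simp only [e1, e2] at k
  exacts [lt_irrefl _, absurd trivial k, absurd trivial k, (u _ _ k).not_gt]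

omit [Fintype κ] [DecidableEq κ] in
theorem Ix.col (i : Ix σ ix o τ) (N : Mt (Fin m)) (R : κ → κ → ℝ) (p : Fin m) :
    (N * uo ix R) p o = N p o := by
  rw [mul_apply, Finset.sum_eq_single o (fun r _ k => ?_) (by simp)]
  · simp [uo, i.ho]
  · rcases e : ix r with _ | a
    exacts [absurd (i.eq_o e) k, by simp [uo, e, i.ho]]

theorem neg_rho {M : ℕ → ℕ} (hM : Big M) {c : ℕ → Fin m → Fin m → Fin m → ℝ} {y : ℕ → Fin m → ℝ}
    {p r : Fin m} (h : ∀ s, Neg M fun n => y n s * c n s r p) :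
    Neg M fun n => rho (c n) (y n) p r := GA.Neg.sum hM Finset.univ fun s _ => h s

theorem sPat : SPat := by
  intro ι κ _ _ _ _ m Ω Λ σ ix o τ X ω₀ h i h0 hc hk
  have hM : Big (cM X) := h.big
  have oc : ∀ p q r, OB (cM X) fun n => cB σ ix X ω₀ n p q r := fun p q r c u =>
    (hc c u 0).mono fun n k => by rw [G39.dl_inv]; exact k.bd p q r
  have : ∀ k a n, Nonempty {z : Ω n × Ω n // (X n).At k a z.1 z.2} :=
    fun k a n => ⟨⟨(ω₀ n, ω₀ n), h0 n, h0 n, rfl⟩⟩
  have all : ∀ k a (F : ∀ n, Ω n → Ω n → ℝ),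
      (∀ ω v : ∀ n, Ω n, (∀ n, (X n).At k a (ω n) (v n)) → Neg (cM X) fun n => F n (ω n) (v n)) → ∀ T : ℝ,
      ∀ᶠ n in UF, ∀ ω v, (X n).At k a ω v → |F n ω v| ≤ Real.exp (-(T * (X n).M)) :=
    fun k a F e T => (TG.Rp.ev_all (α := fun n => {z : Ω n × Ω n // (X n).At k a z.1 z.2})
      (p := fun n z => |F n z.1.1 z.1.2| ≤ dl (cM X) T n) fun s =>
        e _ _ (fun n => (s n).2) T).mono fun n k ω v z => k ⟨(ω, v), z⟩
  have tf : ∀ {a} {ω v : ∀ n, Ω n}, (∀ n, (X n).At true a (ω n) (v n)) →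
      ∀ᶠ n in UF, (X n).At false a (ω n) (v n) := fun {a ω v} e =>
    (h.com a).mono fun n k => ⟨(e n).1, (e n).2.1, k _ (e n).1 _ (e n).2.1 (e n).2.2⟩
  have key : ∀ {a} {ω v : ∀ n, Ω n}, (∀ᶠ n in UF, (X n).At false a (ω n) (v n)) → ∀ p q, Neg (cM X) fun n =>
      nm (σ.st ix o) (cY σ ix X ω₀ n) a (ω n) (v n) p q - (em σ ix ((X n).c (ω₀ n))
        ((X n).zz σ a (ω n) (v n)) * uo ix ((X n).rr σ a (ω n) (v n))) p q :=
    fun e p q T => ((hk _ T).and e).mono fun n k => k.1 _ _ k.2 p q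
  have oz : ∀ {a} {ω v : ∀ n, Ω n}, (∀ n, (X n).At true a (ω n) (v n)) → ∀ p, OB (cM X) fun n =>
      (-up ix ((X n).zz σ a (ω n) (v n))) p := fun {a ω v} e p c u =>
    ((h.inc a c u 0).and (tf e)).mono fun n k => by
      simp only [G39.dl_inv, Pi.neg_apply, abs_neg, up]
      rcases ix p with _ | b
      exacts [abs_zero.trans_le (Real.exp_pos _).le, (k.1 _ _ k.2 b).1]
  have oy : ∀ {a} {ω v : ∀ n, Ω n}, (∀ n, (X n).At true a (ω n) (v n)) → ∀ r q, OB (cM X) fun n =>
      rho (cB σ ix X ω₀ n) (-up ix ((X n).zz σ a (ω n) (v n))) r q := fun z r q =>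
    GA.ob_sum hM Finset.univ fun s _ => GA.ob_mul hM (oz z s) (oc s q r)
  refine ⟨fun a p q e ⟨b, e1, u⟩ w _ _ => all false a _ fun ω v z => ?_,
    fun a p u _ _ => all true a _ fun ω v z => ?_, fun j a c hc' T => ?_⟩
  · refine ((key (.of_forall z) p q).add hM (v := fun n =>
      uo ix ((X n).rr σ a (ω n) (v n)) p q) ?_).congr (h.fr.mono fun n f => ?_)
    · rcases e2 : ix q with _ | b'
      · exact GA.neg_ev (.of_forall fun n => by simp only [uo, e1, e2])
      have k : Neg (cM X) fun n => (X n).R (ω n) (v n) b' b := fun T =>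
        (h.alg 1 one_pos T).mono fun n k =>
          (k _ (z n).1).pat _ (z n).2.1 b' b (fun y => w ⟨b', e2, y⟩) u
      refine (k.mul_exp (C := (σ.la b - σ.la b') * a) (v := fun n => Real.exp
        ((σ.la b - σ.la b') * (a * (X n).M))) (.of_forall fun n => ?_)).congr
        (.of_forall fun n => ?_)
      · rw [abs_of_pos (Real.exp_pos _), mul_assoc]
      · simp only [uo, e1, e2, Cd.rr, mul_comm]
    · rw [i.dg h.ok _ _ (fun b b' y => (em' (b = b')).elim (fun s => (((f _ (z n).1).2.2 _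
        (z n).2.1).2.2.2 b b' (by
          rw [one_apply_ne s]; exact right_ne_zero_of_mul y)).1) fun s => s ▸ rfl) e,
        sub_add_cancel]
  · refine ((key (tf z) p o).add hM (ex_col hM (S := fun p => up ix σ.la p ≠ up ix σ.mu p)
      (o := o) (by simp [up, i.ho]) (oy z) (fun n => (N2.tri _).pow_zero' (i.mem h.ok _ _))
      (fun p r x y => neg_rho hM fun s => ?_) u)).congr (.of_forall fun n => ?_)
    · by_cases k : up ix σ.la s = up ix σ.mu s
      · refine GA.neg_ev (.of_forall fun n => mul_eq_zero_of_right _ (not_not.1 fun g => x ?_))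
        linarith [(ce_gr h.ok s r p g).1, (ce_gr h.ok s r p g).2, not_not.1 y]
      refine GA.Neg.mul (fun T => (h.inc1 a 1 one_pos T).mono fun n g => ?_) (oc s r p)
      rw [Pi.neg_apply, abs_neg]
      unfold up at k ⊢
      rcases e : ix s with _ | b <;> rw [e] at k
      exacts [absurd rfl k, g _ _ (z n) b k]
    · rw [i.col, em, sub_add_cancel]
  have t0 : 0 < σ.mu σ.τ := i.live i.hτ
  have c2 : 0 < c / 2 := by positivity
  have tn : τ ≠ o := fun e => by simpa [e, i.ho] using i.hτ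
  refine ((all true a (fun n ω v => nm (σ.st ix o) (cY σ ix X ω₀ n) a ω v τ o -
    σ.mu σ.τ * (X n).zz σ a ω v σ.τ) (fun ω v z => ?_) T).and ((h.ht j a _ c2 T).and
    (big_exp hM (2 * 2 ^ σ.kf j * (2 + σ.mu σ.τ) * (σ.mu σ.τ)⁻¹ + 1) c2))).mono
    fun n ⟨x, y, u⟩ ω hω t t1 ht => ?_
  swap
  · refine (En.aff _ (c := σ.mu σ.τ) (b := 0) (L := 2 + σ.mu σ.τ) (L' := (σ.mu σ.τ)⁻¹)
      (by positivity) (by positivity) (by rw [abs_of_pos t0, inv_mul_cancel₀ t0.ne'])
      (fun v hv _ => ?_) (y ω hω t t1 ht)).mono ?_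
    · have b := mul_le_mul_of_nonneg_left ((x ω v ((N6.mem_fb (X := cY σ ix X ω₀ n) hω).1 hv)).trans
        (ex_le (neg_le_neg ht))) (Real.exp_pos t).le
      rw [← Real.exp_add, add_neg_cancel, Real.exp_zero, ← abs_of_pos (Real.exp_pos t), ← abs_mul,
        mul_sub, abs_le] at b
      have b1 := mul_le_mul_of_nonneg_left (Int.floor_le (Real.exp t * (X n).zz σ a ω v σ.τ)) t0.le
      have b2 := mul_le_mul_of_nonneg_left
        (Int.lt_floor_add_one (Real.exp t * (X n).zz σ a ω v σ.τ)).le t0.le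
      rw [abs_le]
      constructor <;> linarith [b.1, b.2,
        Int.floor_le (Real.exp t * nm (σ.st ix o) (cY σ ix X ω₀ n) a ω v τ o),
        Int.lt_floor_add_one (Real.exp t * nm (σ.st ix o) (cY σ ix X ω₀ n) a ω v τ o)]
    · refine (mul_le_mul_of_nonneg_right u (Real.exp_pos _).le).trans ?_
      rw [← Real.exp_add]
      exact ex_le (by simp only [cM]; linarith)
  refine ((key (tf z) τ o).add hM (ex_row hM (la := up ix σ.mu) tn (oy z) (.of_forall fun n =>
      ⟨(N2.tri _).pow_zero' (i.mem h.ok _ _), i.lt h.ok _ _⟩)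
    fun r x => neg_rho hM fun s => ?_)).congr ((hc 1 one_pos 0).mono fun n k => ?_)
  · by_cases y : s = o
    · exact GA.neg_ev (.of_forall fun n => by simp [y, up, i.ho])
    · exact GA.Neg.mul' (fun T => (hc 1 one_pos T).mono fun n k => k.chi s r y x) (oz z s)
  · rw [i.col, em, rho_apply, Finset.sum_eq_single τ (fun s _ y => ?_) (by simp)]
    · rw [k.an τ o τ, k.co]
      simp [Kc.md, up, i.hτ]
      ring
    · rw [k.an s o τ, k.co, if_neg y.symm, neg_zero, mul_zero]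

end Pool.Agent.MP_5168f5_an.QA.P7
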