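import Pool.Agent.MP_5168f5_an.QA.P7Con
import Pool.Agent.MP_5168f5_an.AN.N2Alg

/-! The maximal estimate: the small ball bound in the cells of the model. -/

namespace Pool.Agent.MP_5168f5_an.QA.P7

open H19 H17S H17F R4 AN Filter LC Matrix
open GA (Mt cH Hm)
open P7E (rho)

variable {ι κ : Type} [Fintype ι] [DecidableEq ι] [Fintype κ] [DecidableEq κ] {m : ℕ}
  {σ : Kc ι κ} {ix : Fin m → Option κ} {o τ : Fin m}

namespace RobA

omit [Fintype κ] [DecidableEq κ] in
/-- The group elements are unipotent for the coarse weights. -/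
theorem em_uni (i : Ix σ ix o τ) {c : κ → κ → κ → ℝ} (gr : ∀ p q r, ce σ ix c p q r ≠ 0 →
    up ix σ.mu r = up ix σ.mu p + up ix σ.mu q) (z : κ → ℝ) :
    N2.Uni (up ix σ.mu) (em σ ix c z) :=
  N2.uni_iff.2 ((N2.tri _).exp_sub_one (N2.mem_F0.2 fun p q w =>
    (P7E.rho_apply _ _ _ _).trans (Finset.sum_eq_zero fun u _ => by
      rcases e : ix u with _ | b
      · simp [up, e]
      · refine mul_eq_zero_of_right _ (not_not.1 fun y => w ?_)
        rw [gr _ _ _ y]
        exact lt_add_of_pos_left _ (by rw [up, e]; exact (i.rng _).1 ⟨u, rfl⟩ b e))))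

theorem near {α : Type} [Fintype α] {l x y : α → ℝ} {h w : ℝ} (l1 : ∑ p, |l p| = 1) (hw : h ≤ w)
    (k : |∑ p, l p * x p| ≤ Real.exp (-h)) (d : ∀ p, l p ≠ 0 → |y p - x p| ≤ Real.exp (-w)) :
    |∑ p, l p * y p| ≤ Real.exp (-(h - 1)) := by
  have a : |∑ p, l p * (y p - x p)| ≤ ∑ p, |l p| * Real.exp (-h) :=
    (Finset.abs_sum_le_sum_abs _ _).trans (Finset.sum_le_sum fun p _ => by
      rw [abs_mul]
      by_cases z : l p = 0
      · simp [z]
      · exact mul_le_mul_of_nonneg_left ((d p z).trans (ex_le (neg_le_neg hw))) (abs_nonneg _))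
  simp only [mul_sub, Finset.sum_sub_distrib, ← Finset.sum_mul, l1] at a
  rw [neg_sub, sub_eq_add_neg, Real.exp_add]
  nlinarith [abs_sub_abs_le_abs_sub (∑ p, l p * y p) (∑ p, l p * x p), Real.add_one_le_exp 1,
    Real.exp_pos (-h)]

theorem one (i : Ix σ ix o τ) (h : σ.Ok) {Ω Λ : Type} {X : Cd ι κ Ω Λ} {ω₀ : Ω} {a : ℚ≥0}
    {u u' w : ℝ} (fr : X.Fr σ) (al : ∀ ω ∈ X.P.S, X.Alg σ u' w ω)
    (gr : ∀ p q r, ce σ ix (X.c ω₀) p q r ≠ 0 → up ix σ.mu r = up ix σ.mu p + up ix σ.mu q)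
    (con : ∀ ω ∈ X.P.S, ∀ a b e, Hm σ.om a b e → |X.c ω a b e - X.c ω₀ a b e| ≤ Real.exp (-w))
    (key : ∀ ω v, X.At false a ω v → ∀ p q, |nm (σ.st ix o) (X.md σ ix ω₀) a ω v p q -
      (em σ ix (X.c ω₀) (X.zz σ a ω v) * uo ix (X.rr σ a ω v)) p q| ≤ Real.exp (-w))
    (rob : X.Rob σ a u w) : Sb (σ.st ix o) (X.md σ ix ω₀) false σ.L
      (okR (ce σ ix (X.c ω₀)) (up ix σ.la) o) (G1 (σ.md ix τ) (up ix σ.la) o) a (u + 1) w := by
  rintro ω hω t ht l _ l1 ⟨rfl, ⟨s, ls⟩, lc⟩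
  obtain ⟨F, F1, F0⟩ : ∃ F : Option κ → ℝ, (∀ p, F (ix p) = l p) ∧ ∀ x, F x ≠ 0 → ∃ p, ix p = x :=
    ⟨Function.extend ix l 0, i.inj.extend_apply _ _, fun x k => by_contra fun z =>
      k (Function.extend_apply' _ _ _ z)⟩
  have Fo : F none = 0 := by rw [← i.ho, F1]; exact not_not.1 fun z => (ls o z).1 rfl
  have lv : ∀ e, F (some e) ≠ 0 → 0 < σ.mu e := fun e z => (i.rng _).1 (F0 _ z) e rfl
  have sm : ∀ g : ℝ → Option κ → ℝ, (∀ x, g 0 x = 0) →
      ∑ p, g (l p) (ix p) = ∑ e, g (F (some e)) (some e) := fun g g0 => by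
    simp only [← F1]
    rw [i.sum h.m0 (fun x => g (F x) x) fun e z => by
      rw [not_not.1 fun y => (lv e y).ne' z, g0], Fo, g0, zero_add]
  have l2 : ∑ e, |F (some e)| = 1 := (sm (fun x _ => |x|) fun _ => abs_zero).symm.trans l1
  obtain ⟨p₀, -, k0⟩ := Finset.exists_ne_zero_of_sum_ne_zero (l1.trans_ne one_ne_zero)
  have mu : ∀ p, l p ≠ 0 → up ix σ.mu p = up ix σ.mu p₀ := fun p z => sub_left_inj.1
    (h.gap (ix p) none (ix p₀) none (congrArg (· - _)
      ((ls p z).2.trans (ls p₀ (abs_ne_zero.1 k0)).2.symm)))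
  have mu' : ∀ e, F (some e) ≠ 0 → σ.mu e = up ix σ.mu p₀ := fun e z => by
    obtain ⟨p, k⟩ := F0 _ z
    rw [← mu p (by rwa [← F1, k]), up, k]; rfl
  have ne : ∀ {p b}, ix p = some b → p ≠ o := fun k z => by simp [z, i.ho] at k
  have pre : ∀ {b}, 0 < σ.mu b → ∃ p, ix p = some b := fun k =>
    (i.rng _).2 fun _ z => Option.some.inj z ▸ k
  refine (pb_mono fun v hv k b hb => ?_).trans ((rob ω hω (t - 1) (by linarith) (fun e => F (some e))
    _ l2 (fun e z => ⟨lv e z, mu' e z⟩) fun b b' hb hb' => ?_).trans (ex_le ?_))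
  · have A : X.At false a ω v := (N6.mem_fb (X := X.md σ ix ω₀) hω).1 hv
    have R : ∀ e, X.rr σ a ω v b e ≠ 0 → σ.mu b = σ.mu e := fun e z => (em' (b = e)).elim
      (fun y => (((fr ω hω).2.2 v A.2.1).2.2.2 b e (by
        rw [one_apply_ne y]; exact right_ne_zero_of_mul z)).1) fun y => y ▸ rfl
    by_cases z : σ.mu b = up ix σ.mu p₀
    · obtain ⟨q, e⟩ := pre hb.1
      have k1 := k q ⟨ne e, by simpa [Kc.md, up, e] using hb.2⟩
      rw [sub_zero] at k1
      refine le_of_eq_of_le (congrArg _ ?_) (near l1 ht k1 fun p _ => by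
        rw [abs_sub_comm]; exact key ω v A p q)
      refine (sm (fun x y => x * uO (X.rr σ a ω v) y (some b)) fun _ => zero_mul _).symm.trans
        (Finset.sum_congr rfl fun p _ => (em' (l p = 0)).elim (fun y => ?_) fun y => by simp [y])
      rw [← e, ← uo_eq, ← congrFun (congrFun (Matrix.one_mul (uo ix (X.rr σ a ω v))) p) q,
        mul_apply, mul_apply]
      refine congrArg _ (Finset.sum_congr rfl fun r _ => ?_)
      by_cases x : uo ix (X.rr σ a ω v) r q = 0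
      · rw [x, mul_zero, mul_zero]
      · rw [em_uni i gr _ p r fun j => ?_]
        rw [uo_eq, e] at x
        rw [mu p y, ← z, up] at j
        rcases f : ix r with _ | d <;> rw [f] at x j
        · exact x rfl
        · exact j.ne' (R d x)
    · rw [Finset.sum_eq_zero fun e _ => by_contra fun y => z
        ((R e (right_ne_zero_of_mul y)).trans (mu' e (left_ne_zero_of_mul y))), abs_zero]
      positivity
  · obtain ⟨p, e⟩ := pre hb
    obtain ⟨q, e'⟩ := pre hb'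
    have k := lc p q (ne e) (ne e')
    simp only [i.ce, e, e', mul_comm _ (l _)] at k
    rw [sm (fun x y => x * cO σ (X.c ω₀) (some b) (some b') y) fun _ => zero_mul _] at k
    simp only [cO, TG.Rm, Option.elim, mul_neg, Finset.sum_neg_distrib, abs_neg] at k
    simp only [mul_comm _ (F _)]
    refine near l2 ht k fun d z => ?_
    unfold cH
    split_ifs with y
    · exact con ω hω _ _ _ y
    · rw [sub_zero]
      exact (al ω hω).gr _ _ _ (lv d z) fun x => y (h.hm.2 x)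
  · rw [sub_div]
    linarith [div_le_self zero_le_one h.one]

end RobA

theorem sRob : SRob := by
  intro ι κ _ _ _ _ m Ω Λ σ ix o τ X ω₀ h i h0 hc co hk a c e T
  have e' : 0 < c / 2 := by positivity
  filter_upwards [h.fr, h.alg 1 one_pos T, hc 1 one_pos 0, co T, hk a T, h.rob a _ e' T,
    h.big.ev (2 / c)] with n k1 k2 k3 k4 k5 k6 k7
  refine mo_sb _ _ _ _ _ _ _ _ _ _ _ ?_ le_rfl
    (RobA.one i h.ok k1 k2 (fun p q r z => (k3.gr p q r z).2) k4 k5 k6)
  rw [div_le_iff₀ e] at k7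
  linarith

end Pool.Agent.MP_5168f5_an.QA.P7
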