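import Pool.Agent.MP_5168f5_an.AN.GAApi

/-! The Kakeya maximal conjecture: the algebra of the second tangent over a field. -/

namespace Pool.Agent.MP_5168f5_an.QA.P7E

open AN.GA Matrix Finset

section Ring

variable {ι κ R S : Type} [Fintype ι] [DecidableEq ι] [Fintype κ] [CommRing R] [CommRing S]

/-- The adjoint matrix of `y` for the bracket `cE`. -/
def rho (cE : ι → ι → ι → R) (y : ι → R) : Matrix ι ι R := of fun r q => ∑ p, y p * cE p q r

/-- The matrix with coordinates `t`. -/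
def vc (B : κ → Matrix ι ι R) (t : κ → R) : Matrix ι ι R := ∑ a, t a • B a

/-- The truncated exponential series. -/
noncomputable def xp (φ : ℝ →+* R) (N : ℕ) (X : Matrix ι ι R) : Matrix ι ι R :=
  ∑ i ∈ range N, φ (i.factorial : ℝ)⁻¹ • X ^ i

/-- A derivation. -/
def Der (cE : ι → ι → ι → R) (X : Matrix ι ι R) : Prop := ∀ y, rho cE (X *ᵥ y) = cm X (rho cE y)

omit [Fintype ι] [DecidableEq ι] in
theorem vc_apply (B : κ → Matrix ι ι R) (t : κ → R) (p q : ι) :
    vc B t p q = ∑ a, t a * B a p q := by simp [vc, Matrix.sum_apply]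

omit [DecidableEq ι] in
theorem rho_apply (cE : ι → ι → ι → R) (y : ι → R) (r q : ι) :
    rho cE y r q = ∑ p, y p * cE p q r := rfl

theorem rho_single (cE : ι → ι → ι → R) (p r q : ι) : rho cE (Pi.single p 1) r q = cE p q r := by
  simp [rho_apply, Pi.single_apply]

omit [Fintype ι] [DecidableEq ι] in
theorem vc_map (f : R →+* S) (B : κ → Matrix ι ι R) (t : κ → R) :
    (vc B t).map f = vc (fun a => (B a).map f) fun a => f (t a) := by
  ext p q; simp [vc_apply]

theorem xp_map (f : R →+* S) (φ : ℝ →+* R) (N : ℕ) (X : Matrix ι ι R) :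
    (xp φ N X).map f = xp (f.comp φ) N (X.map f) := by
  ext p q
  simp only [xp, map_apply, Matrix.sum_apply, Matrix.smul_apply, smul_eq_mul, map_sum, map_mul,
    RingHom.comp_apply, ← Matrix.map_pow]

theorem vc_br {B : κ → Matrix ι ι R} {c : κ → κ → κ → R}
    (h : ∀ a b, cm (B a) (B b) = vc B (c a b)) (s u : κ → R) :
    cm (vc B s) (vc B u) = vc B (br c s u) := by
  have e : cm (vc B s) (vc B u) = ∑ a, ∑ b, (s a * u b) • cm (B a) (B b) := by
    simp only [cm, vc, sum_mul_sum, smul_mul_smul_comm, smul_sub, sum_sub_distrib]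
    rw [sum_comm (f := fun a b => (u a * s b) • (B a * B b))]
    simp only [mul_comm]
  ext p q
  simp only [e, h, Matrix.sum_apply, Matrix.smul_apply, vc_apply, br, smul_eq_mul, sum_mul, mul_sum]
  rw [sum_comm (γ := κ) (f := fun e a => ∑ b, c a b e * s a * u b * B e p q)]
  refine sum_congr rfl fun a _ => ?_
  rw [sum_comm]
  exact sum_congr rfl fun e _ => sum_congr rfl fun b _ => by ring

theorem der_vc {cE : ι → ι → ι → R} {B : κ → Matrix ι ι R} {s : κ → R}
    (h : ∀ a, s a ≠ 0 → Der cE (B a)) : Der cE (vc B s) := fun y => by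
  have e : ∀ a, s a • rho cE (B a *ᵥ y) = s a • cm (B a) (rho cE y) := fun a => by
    by_cases z : s a = 0
    · simp [z]
    · rw [h a z y]
  have e2 : cm (vc B s) (rho cE y) = ∑ a, s a • cm (B a) (rho cE y) := by
    simp only [cm, vc, sum_mul, mul_sum, smul_mul_assoc, mul_smul_comm, smul_sub, sum_sub_distrib]
  rw [e2]
  simp only [← e]
  ext r q
  simp only [rho_apply, vc, sum_mulVec, smul_mulVec, Matrix.sum_apply, Matrix.smul_apply,
    Finset.sum_apply, Pi.smul_apply, smul_eq_mul, sum_mul, mul_sum, mul_assoc]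
  exact sum_comm

end Ring

theorem sum_le_of_card {α β : Type} (A : Finset α) (C : Finset β) (f : α → ℝ) (g : β → ℝ)
    (hf : ∀ a, 0 ≤ f a) (hg : ∀ b, 0 ≤ g b)
    (h : ∀ w, #{a ∈ A | f a = w} ≤ #{b ∈ C | g b = w}) : ∑ a ∈ A, f a ≤ ∑ b ∈ C, g b := by
  classical
  rw [← sum_fiberwise_of_maps_to (g := f) (t := A.image f) fun a => mem_image_of_mem f]
  refine le_trans ?_ (sum_le_sum_of_subset_of_nonneg (filter_subset (fun b => g b ∈ A.image f) C)
    fun b _ _ => hg b)
  rw [← sum_fiberwise_of_maps_to (g := g) (t := A.image f) fun b u => (mem_filter.1 u).2]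
  refine sum_le_sum fun w u => ?_
  obtain ⟨a, -, rfl⟩ := mem_image.1 u
  rw [sum_congr rfl fun x v => (mem_filter.1 v).2, sum_congr rfl fun x v => (mem_filter.1 v).2,
    sum_const, sum_const, filter_filter, nsmul_eq_mul, nsmul_eq_mul]
  refine mul_le_mul_of_nonneg_right (Nat.cast_le.2 ((h _).trans (card_le_card fun b v => ?_))) (hf a)
  exact mem_filter.2 ⟨(mem_filter.1 v).1, (mem_filter.1 v).2 ▸ u, (mem_filter.1 v).2⟩

variable {ι κ k : Type} [Fintype ι] [DecidableEq ι] [Fintype κ] [DecidableEq κ] [Field k]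

/-- The data over the residue field. -/
structure EK (φ : ℝ →+* k) (N : ℕ) (o τ : ι) (la mu : ι → ℝ) (Pz : ι → Prop) (wt t dm : κ → ℝ)
    (pos : κ → Prop) (B : κ → Matrix ι ι k) (c : κ → κ → κ → k) (cE : ι → ι → ι → k)
    (R : Matrix ι κ k) (Λ : κ → ι → ι → k) : Prop where
  lo : la o = 0
  mo : mu o = 0
  mp : ∀ p, p ≠ o → 0 < mu p
  vt : ∀ p, mu p ≤ la p
  gap : ∀ p, la p = la τ → mu p = mu τ
  po : ¬Pz o
  tz : ∀ p, Pz p ∧ la p = mu p ↔ p = τ
  wp : ∀ a, 0 < wt a
  br : ∀ a b, cm (B a) (B b) = vc B (c a b)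
  inj : ∀ s, vc B s = 0 → s = 0
  hB : ∀ a p q, B a p q ≠ 0 → la p = la q + wt a ∧ mu p = mu q + dm a
  hc : ∀ a b e, c a b e ≠ 0 → wt e = wt a + wt b
  co : ∀ q r, cE o q r = if r = q then φ (mu q) else 0
  an : ∀ p q r, cE p q r = -cE q p r
  gr : ∀ p q r, cE p q r ≠ 0 → la r = la p + la q ∧ mu r = mu p + mu q
  jac : ∀ p, Der cE (rho cE (Pi.single p 1))
  g0 : ∀ p q r, ¬Pz p → ¬Pz q → Pz r → cE p q r = 0
  hR : ∀ p, p ≠ o → vc B (R p) = rho cE (Pi.single p 1)
  R0 : R o = 0
  le : ∀ a, t a ≤ wt a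
  live : ∀ a, pos a → 0 ≤ t a
  fil : ∀ a b e, 0 ≤ t a → 0 ≤ t b → t e < t a + t b → c a b e = 0
  stab : ∀ a p q, 0 ≤ t a → ¬pos a → Pz p → ¬Pz q → B a p q = 0
  sup : ∀ a p q, Λ a p q ≠ 0 → Pz p ∧ ¬Pz q
  li : ∀ a b, pos a → pos b → ∑ p, ∑ q, Λ a p q * B b p q = if a = b then 1 else 0
  der : ∀ a, 0 ≤ t a → Der cE (B a)
  pat : ∀ a p q, 0 ≤ t a → dm a = 0 → Pz p → ¬Pz q → B a p q = 0
  col : ∀ a p, t a = wt a → la p ≠ mu p → B a p o = 0
  h1 : ∀ f : ι → k, (∀ p, f p ≠ 0 → p ≠ o ∧ la p = mu p) →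
    (∀ b b', b ≠ o → b' ≠ o → la b = mu b → la b' = mu b' → ∑ r, cE b b' r * f r = 0) →
    (∀ s, (∀ a, t a ≠ wt a → s a = 0) → ∑ p, f p * xp φ N (vc B s) p o = 0) → f = 0
  h2 : ∀ (f : ι → k) (w : ℝ), (∀ p, f p ≠ 0 → p ≠ o ∧ la p = w) →
    (∀ b b', b ≠ o → b' ≠ o → ∑ r, cE b b' r * f r = 0) →
    (∀ s, (∀ a, t a < 0 → s a = 0) → ∀ b, b ≠ o → la b = mu b →
      ∑ p, f p * xp φ N (vc B s) p b = 0) → f = 0

namespace EK

variable {φ : ℝ →+* k} {N : ℕ} {o τ : ι} {la mu : ι → ℝ} {Pz : ι → Prop} {wt t dm : κ → ℝ}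
  {pos : κ → Prop} {B : κ → Matrix ι ι k} {c : κ → κ → κ → k} {cE : ι → ι → ι → k}
  {R : Matrix ι κ k} {Λ : κ → ι → ι → k} (h : EK φ N o τ la mu Pz wt t dm pos B c cE R Λ)

include h

theorem ln (p : ι) : 0 ≤ la p := by
  by_cases e : p = o
  · rw [e, h.lo]
  · exact (h.mp p e).le.trans (h.vt p)

theorem eq {s u : κ → k} (e : vc B s = vc B u) : s = u := sub_eq_zero.1 (h.inj _ (by
  ext p q
  have := congrFun (congrFun e p) q
  simp only [vc_apply] at this
  simp [vc_apply, sub_mul, this]))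

theorem psi (y : ι → k) (r q : ι) : vc B (y ᵥ* R) r q = rho cE y r q - y o * cE o q r := by
  have e : vc B (y ᵥ* R) r q = ∑ p, y p * vc B (R p) r q := by
    simp only [vc_apply, vecMul, dotProduct, sum_mul, mul_sum, mul_assoc]
    exact sum_comm
  rw [e, rho_apply, ← add_sum_erase _ _ (mem_univ o), ← add_sum_erase _ _ (mem_univ o), h.R0,
    sum_congr rfl fun p u => by rw [h.hR p (ne_of_mem_erase u), rho_single]]
  simp [vc_apply]

theorem row (s : κ → k) (y : ι → k) : (vc B s *ᵥ y) o = 0 := by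
  refine sum_eq_zero fun q _ => ?_
  show vc B s o q * y q = 0
  rw [vc_apply, sum_eq_zero fun a _ => ?_, zero_mul]
  rw [show B a o q = 0 from not_not.1 fun u => by
    linarith [(h.hB a o q u).1, h.lo, h.ln q, h.wp a], mul_zero]

theorem psi_mul {s : κ → k} (d : Der cE (vc B s)) {y : ι → k} (e : y o = 0) :
    (vc B s *ᵥ y) ᵥ* R = AN.GA.br c s (y ᵥ* R) := by
  refine h.eq ?_
  have : vc B (y ᵥ* R) = rho cE y := by ext r q; simp [h.psi, e]
  rw [← vc_br h.br, this, ← d]
  ext r q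
  simp [h.psi, h.row]

theorem der_o {a : κ} (u : 0 ≤ t a) (p q : ι) :
    ∑ r, B a r o * cE r q p = -φ (dm a) * B a p q := by
  have := congrFun (congrFun (h.der a u (Pi.single o 1)) p) q
  simp only [cm, Matrix.sub_apply, mul_apply, rho_single, h.co, mul_ite, ite_mul, mul_zero,
    zero_mul, sum_ite_eq, sum_ite_eq', mem_univ, if_true] at this
  simp only [mulVec_single_one, rho_apply, col_apply] at this
  rw [this]
  by_cases z : B a p q = 0
  · simp [z]
  · rw [(h.hB a p q z).2, map_add]; ring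

theorem psi_o {s : κ → k} (u : ∀ a, t a < 0 → s a = 0) :
    (vc B s *ᵥ Pi.single o 1) ᵥ* R = fun a => -φ (dm a) * s a := by
  refine h.eq ?_
  ext p q
  rw [h.psi, h.row, zero_mul, sub_zero]
  simp only [mulVec_single_one, rho_apply, col_apply, vc_apply, sum_mul]
  rw [sum_comm]
  refine sum_congr rfl fun a _ => ?_
  by_cases z : t a < 0
  · simp [u a z]
  · simp only [mul_assoc, ← mul_sum, h.der_o (not_lt.1 z)]; ring

theorem psi_col (y : ι → k) (p : ι) : ∑ a, (y ᵥ* R) a * B a p o = -φ (mu p) * y p := by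
  rw [← vc_apply, h.psi, rho_apply]
  rw [sum_congr rfl fun r _ => by rw [h.an r o p, h.co], h.co, h.mo]
  simp [mul_comm]

theorem orb {s : κ → k} (d : Der cE (vc B s)) {I : κ → Prop}
    (hI : ∀ a b e, s a ≠ 0 → I b → ¬I e → c a b e = 0) {y : ι → k}
    (h0 : ∀ e, ¬I e → (y ᵥ* R) e = 0) (h1 : ∀ e, ¬I e → ((vc B s *ᵥ y) ᵥ* R) e = 0) (e : κ)
    (he : ¬I e) : ((xp φ N (vc B s) *ᵥ y) ᵥ* R) e = 0 := by
  have k1 : ∀ i e, ¬I e → ((vc B s ^ (i + 1) *ᵥ y) ᵥ* R) e = 0 := fun i => by
    induction i with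
    | zero => simpa using h1
    | succ i ih =>
      intro e u
      rw [pow_succ', ← mulVec_mulVec, h.psi_mul d (by rw [pow_succ', ← mulVec_mulVec, h.row])]
      refine sum_eq_zero fun a _ => sum_eq_zero fun b _ => ?_
      by_cases x : s a = 0
      · simp [x]
      by_cases z : I b
      · simp [hI a b e x z u]
      · rw [ih b z, mul_zero]
  simp only [xp, sum_mulVec, smul_mulVec, sum_vecMul, smul_vecMul, Finset.sum_apply, Pi.smul_apply]
  refine sum_eq_zero fun i _ => ?_
  rcases i with _ | i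
  · simp [h0 e he]
  · simp [k1 i e he]

theorem Rg (p : ι) (e : κ) (u : R p e ≠ 0) : wt e = la p := by
  classical
  by_contra z
  have po : p ≠ o := fun v => u (by rw [v, h.R0]; rfl)
  have := h.inj (fun a => if wt a = wt e then R p a else 0) (by
    ext r q
    by_cases w : la r = la q + wt e
    · have k := congrFun (congrFun (h.hR p po) r) q
      rw [rho_single, show cE p q r = 0 from not_not.1 fun v =>
        z (by linarith [(h.gr p q r v).1])] at k
      rw [Matrix.zero_apply, ← k, vc_apply, vc_apply]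
      refine sum_congr rfl fun a _ => ?_
      split_ifs with x
      · rfl
      · rw [show B a r q = 0 from not_not.1 fun v => x (by linarith [(h.hB a r q v).1]), mul_zero,
          mul_zero]
    · rw [vc_apply]
      refine sum_eq_zero fun a _ => ?_
      split_ifs with x
      · rw [show B a r q = 0 from not_not.1 fun v => w (x ▸ (h.hB a r q v).1), mul_zero]
      · rw [zero_mul])
  exact u (by simpa using congrFun this e)

theorem brk {b b' : ι} (u : b ≠ o) (v : b' ≠ o) (e : κ) :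
    ∑ r, cE b b' r * R r e = ∑ a, ∑ a', c a a' e * R b a * R b' a' := by
  have := congrFun (h.psi_mul (s := R b) (h.hR b u ▸ h.jac b) (y := Pi.single b' 1)
    (Pi.single_eq_of_ne v.symm _)) e
  rw [h.hR b u, single_one_vecMul, mulVec_single_one] at this
  simpa only [vecMul, dotProduct, col_apply, rho_single, AN.GA.br, row_apply] using this

omit h [DecidableEq κ] in
theorem wf (wt : κ → ℝ) : WellFounded fun a b => wt a < wt b :=
  haveI : IsTrans κ fun a b => wt a < wt b := ⟨fun _ _ _ => lt_trans⟩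
  haveI : Std.Irrefl fun a b : κ => wt a < wt b := ⟨fun _ => lt_irrefl _⟩
  Finite.wellFounded_of_trans_of_irrefl _

theorem pure {a b e : κ} (u : t a = wt a) (v : t b = wt b) (w : t e ≠ wt e) : c a b e = 0 := by
  by_contra z
  refine z (h.fil a b e (u ▸ (h.wp a).le) (v ▸ (h.wp b).le) ?_)
  rw [u, v, ← h.hc a b e z]
  exact (h.le e).lt_of_ne w

theorem a1 (e : κ) : t e ≠ wt e → ∀ p, la p = mu p → R p e = 0 := by
  classical
  induction e using (wf wt).induction with
  | _ e ih =>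
  intro he p hp
  have := h.h1 (fun p => if la p = mu p then R p e else 0) (fun p u => ?_) (fun b b' x x' y y' => ?_)
    fun s hs => ?_
  · simpa [hp] using congrFun this p
  · split_ifs at u with v
    · exact ⟨fun w => u (by rw [w, h.R0]; rfl), v⟩
    · exact absurd rfl u
  · rw [sum_congr rfl (g := fun r => cE b b' r * R r e) fun r _ => ?_, h.brk x x']
    · refine sum_eq_zero fun a _ => sum_eq_zero fun a' _ => ?_
      by_cases z : c a a' e = 0
      · simp [z]
      have k := h.hc a a' e z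
      by_cases z1 : t a = wt a
      · rw [ih a' (by linarith [h.wp a]) (fun z2 => z (h.pure z1 z2 he)) b' y', mul_zero]
      · rw [ih a (by linarith [h.wp a']) z1 b y, mul_zero, zero_mul]
    · by_cases z : cE b b' r = 0
      · simp [z]
      · rw [if_pos (by linarith [(h.gr _ _ _ z).1, (h.gr _ _ _ z).2])]
  have s0 : ∀ a, t a < 0 → s a = 0 := fun a u => hs a (by linarith [h.wp a])
  have k := h.orb (der_vc fun a u => h.der a (not_lt.1 (mt (s0 a) u))) (I := fun a => t a = wt a)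
    (fun a b e x y z => h.pure (not_not.1 (mt (hs a) x)) y z) (y := Pi.single o 1)
    (fun e _ => by rw [single_one_vecMul]; exact congrFun h.R0 e)
    fun e u => by rw [h.psi_o s0]; simp [hs e u]
  refine Eq.trans (sum_congr rfl fun p _ => ?_) (k e he)
  rw [mulVec_single_one, col_apply, mul_comm]
  split_ifs with x
  · rfl
  have k2 := h.psi_col (xp φ N (vc B s) *ᵥ Pi.single o 1) p
  rw [sum_eq_zero fun a _ => ?_, mulVec_single_one, col_apply, eq_comm, mul_eq_zero, neg_eq_zero,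
    map_eq_zero] at k2
  · rw [k2.resolve_left (h.mp p fun w => x (by rw [w, h.lo, h.mo])).ne', zero_mul, zero_mul]
  · by_cases z : t a = wt a
    · rw [h.col a p z x, mul_zero]
    · rw [k a z, zero_mul]

theorem a2 (e : κ) : t e ≤ 0 → ∀ p, R p e = 0 := by
  induction e using (wf wt).induction with
  | _ e ih =>
  intro he
  refine congrFun (h.h2 (fun p => R p e) (wt e)
    (fun p u => ⟨fun w => u (by rw [w, h.R0]; rfl), (h.Rg p e u).symm⟩) (fun b b' x x' => ?_)
    fun s hs b x y => ?_)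
  · rw [h.brk x x']
    refine sum_eq_zero fun a _ => sum_eq_zero fun a' _ => ?_
    by_cases z : c a a' e = 0
    · simp [z]
    have k := h.hc a a' e z
    by_cases z1 : t a ≤ 0
    · rw [ih a (by linarith [h.wp a']) z1 b, mul_zero, zero_mul]
    · rw [ih a' (by linarith [h.wp a]) (not_lt.1 fun z2 => z (h.fil a a' e (not_le.1 z1).le z2.le
        (by linarith [not_le.1 z1]))) b', mul_zero]
  have d : Der cE (vc B s) := der_vc fun a u => h.der a (not_lt.1 (mt (hs a) u))
  have hI : ∀ a b e, s a ≠ 0 → 0 < t b → ¬0 < t e → c a b e = 0 := fun a b e u v w =>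
    h.fil a b e (not_lt.1 (mt (hs a) u)) v.le (by linarith [not_lt.1 (mt (hs a) u), not_lt.1 w])
  have h0 : ∀ e, ¬0 < t e → ((Pi.single b 1 : ι → k) ᵥ* R) e = 0 := fun e u => by
    rw [single_one_vecMul]; exact h.a1 e (fun v => u (v ▸ h.wp e)) b y
  have k := h.orb d hI h0 (fun e u => by
    rw [h.psi_mul d (Pi.single_eq_of_ne x.symm _)]
    refine sum_eq_zero fun a _ => sum_eq_zero fun a' _ => ?_
    by_cases z : s a = 0
    · simp [z]
    by_cases z' : 0 < t a'
    · simp [hI a a' e z z' u]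
    · rw [h0 a' z', mul_zero]) e he.not_gt
  refine Eq.trans (sum_congr rfl fun p _ => ?_) k
  rw [mulVec_single_one, col_apply, mul_comm]

theorem dm_ne {a : κ} (u : pos a) : φ (dm a) ≠ 0 := fun z => by
  have := h.li a a u u
  rw [if_pos rfl, sum_eq_zero fun p _ => sum_eq_zero fun q _ => ?_] at this
  · exact zero_ne_one this
  by_cases w : Λ a p q = 0
  · simp [w]
  · rw [h.pat a p q (h.live a u) ((map_eq_zero φ).1 z) (h.sup a p q w).1 (h.sup a p q w).2, mul_zero]

theorem p1 {a : κ} (u : pos a) : 0 < t a ∧ (wt a = la τ → t a = wt a) := by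
  have k := congrFun (h.psi_o (s := Pi.single a 1) fun b v =>
    Pi.single_eq_of_ne (fun w : b = a => (h.live a u).not_gt (w ▸ v)) _) a
  simp only [Pi.single_eq_same, mul_one] at k
  obtain ⟨p, -, z⟩ := exists_ne_zero_of_sum_ne_zero (k.trans_ne (neg_ne_zero.2 (h.dm_ne u)))
  have z2 := right_ne_zero_of_mul z
  refine ⟨not_le.1 fun v => z2 (h.a2 a v p), fun v => not_not.1 fun w => z2 (h.a1 a w p ?_)⟩
  have := (h.Rg p a z2).symm.trans v
  rw [h.gap p this, this, ((h.tz τ).2 rfl).2]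

theorem p2 {a b : κ} (u : pos a) (v : pos b) (w : t b = wt b) :
    B b τ o * ∑ p, ∑ q, Λ a p q * cE τ q p = -φ (dm b) * if a = b then 1 else 0 := by
  rw [← h.li a b u v]
  simp only [mul_sum]
  refine sum_congr rfl fun p _ => sum_congr rfl fun q _ => ?_
  by_cases z : Λ a p q = 0
  · simp [z]
  have k := h.der_o (h.live b v) p q
  rw [sum_eq_single τ (fun r _ x => ?_) (by simp)] at k
  · linear_combination Λ a p q * k
  · by_cases y : la r = mu r
    · rw [h.g0 r q p (fun y' => x ((h.tz r).1 ⟨y', y⟩)) (h.sup a p q z).2 (h.sup a p q z).1, mul_zero]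
    · rw [h.col b r w y, zero_mul]

open Classical in
theorem p3 (w : ℝ) : #{p ∈ univ.filter Pz | la p = w} ≤ #{a ∈ univ.filter pos | wt a = w} := by
  let U : Matrix {p // Pz p ∧ la p = w} {a // pos a ∧ wt a = w} k := of fun p a => R p a
  let V : Matrix {a // pos a ∧ wt a = w} {p // Pz p ∧ la p = w} k :=
    of fun a p => B a p o * (-φ (mu p))⁻¹
  have e : U * V = 1 := by
    ext p q
    have k := h.psi_col (Pi.single p.1 1) q
    have z : -φ (mu q) ≠ 0 :=
      neg_ne_zero.2 ((map_ne_zero φ).2 (h.mp q fun v => h.po (v ▸ q.2.1)).ne')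
    rw [single_one_vecMul, ← sum_filter_of_ne (p := fun a => pos a ∧ wt a = w) fun a _ u => ?_,
      sum_subtype (p := fun a => pos a ∧ wt a = w) _ (by simp)] at k
    · simp only [mul_apply, U, V, of_apply, ← mul_assoc, ← sum_mul]
      rw [show ∑ a : {a // pos a ∧ wt a = w}, R p a * B a q o = _ from k, mul_right_comm,
        mul_inv_cancel₀ z, one_mul, one_apply, Pi.single_apply]
      simp only [Subtype.ext_iff, eq_comm]
    · have x : R p a ≠ 0 := left_ne_zero_of_mul u
      exact ⟨not_not.1 fun y => right_ne_zero_of_mul u (h.stab a q o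
        (not_le.1 fun v => x (h.a2 a v p)).le y q.2.1 h.po), (h.Rg p a x).trans p.2.2⟩
  have := (rank_mul_le_left U V).trans (rank_le_card_width U)
  rw [e, rank_one, Fintype.card_subtype, Fintype.card_subtype] at this
  simpa only [filter_filter] using this

open Classical in
/-- One pure position, all other positions are mixed, and their weights are large. -/
theorem fin : ∃ τ', pos τ' ∧ t τ' = wt τ' ∧ wt τ' = la τ ∧ B τ' τ o ≠ 0 ∧
    (∀ a, pos a → a ≠ τ' → 0 < t a ∧ t a < wt a ∧ wt a ≠ la τ) ∧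
    ∑ p ∈ (univ.filter Pz).erase τ, la p ≤ ∑ a ∈ (univ.filter pos).erase τ', wt a := by
  have tz := (h.tz τ).2 rfl
  have k := h.psi_col (Pi.single τ 1) τ
  rw [single_one_vecMul, Pi.single_eq_same, mul_one] at k
  obtain ⟨a, -, z⟩ := exists_ne_zero_of_sum_ne_zero (k.trans_ne (neg_ne_zero.2
    ((map_ne_zero φ).2 (h.mp τ fun v => h.po (v ▸ tz.1)).ne')))
  have z1 : R τ a ≠ 0 := left_ne_zero_of_mul z
  have z2 := right_ne_zero_of_mul z
  have ta : t a = wt a := not_not.1 fun v => z1 (h.a1 a v τ tz.2)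
  have pa : pos a := not_not.1 fun v => z2 (h.stab a τ o (ta ▸ (h.wp a).le) v tz.1 h.po)
  have un : ∀ b, pos b → b ≠ a → t b ≠ wt b := fun b u v w => by
    have k1 := h.p2 u u w
    have k2 := h.p2 u pa ta
    rw [if_neg v, mul_zero, mul_eq_zero] at k2
    rw [k2.resolve_left z2, mul_zero, if_pos rfl, mul_one] at k1
    exact h.dm_ne u (neg_eq_zero.1 k1.symm)
  refine ⟨a, pa, ta, h.Rg τ a z1, z2, fun b u v => ⟨(h.p1 u).1, (h.le b).lt_of_ne (un b u v),
    fun w => un b u v ((h.p1 u).2 w)⟩, ?_⟩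
  have := sum_le_of_card _ _ la wt h.ln (fun a => (h.wp a).le) h.p3
  rw [← add_sum_erase _ _ (mem_filter.2 ⟨mem_univ τ, tz.1⟩),
    ← add_sum_erase _ _ (mem_filter.2 ⟨mem_univ a, pa⟩), h.Rg τ a z1] at this
  linarith

end EK

end Pool.Agent.MP_5168f5_an.QA.P7E
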