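import Pool.Agent.MP_5168f5_an.QA.P7Nm
import Pool.Agent.MP_5168f5_an.QA.P7Ea
import Pool.Agent.MP_5168f5_an.AN.N2Defs

/-! The maximal estimate: the marked light class, definitions. -/

namespace Pool.Agent.MP_5168f5_an.QA.P7

open H19 H17S H17F R4 AN Filter LC
open GA (Mt cm)
open N6 (At)
open P7E (rho)

/-- The constants of the model: the coarse weights `mu`, the positions `Pz`, the height `τ`. -/
structure Md (m : ℕ) : Type where
  mu : Fin m → ℝ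
  df : ℝ → ℝ
  Pz : Fin m → Prop
  τ : Fin m
  L : ℝ
  D : ℝ
  kf : ℕ → ℕ

variable {m : ℕ}

/-- The indices of rate zero. -/
def G1 (μ : Md m) (la : Fin m → ℝ) (o p : Fin m) : Prop := p ≠ o ∧ la p = μ.mu p

open Classical in
/-- The relations between the constants. -/
structure Md.Ok (μ : Md m) (la : Fin m → ℝ) (o : Fin m) : Prop where
  mo : μ.mu o = 0
  mp : ∀ p, p ≠ o → 0 < μ.mu p
  vt : ∀ p, μ.mu p ≤ la p
  gap : ∀ p q, μ.mu p = μ.mu q + μ.df (la p - la q)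
  po : ¬μ.Pz o
  tz : ∀ p, μ.Pz p ∧ la p = μ.mu p ↔ p = μ.τ
  one : 1 ≤ μ.L
  vol : μ.D < ∑ p ∈ (Finset.univ.filter μ.Pz).erase μ.τ, la p

/-- The constants of the bracket, with loss `u` and range `w`. -/
structure CE (μ : Md m) (la : Fin m → ℝ) (o : Fin m) (cE : Fin m → Fin m → Fin m → ℝ) (u w : ℝ) :
    Prop where
  bd : ∀ p q r, |cE p q r| ≤ Real.exp u
  gr : ∀ p q r, cE p q r ≠ 0 → la r = la p + la q ∧ μ.mu r = μ.mu p + μ.mu q
  an : ∀ p q r, cE p q r = -cE q p r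
  co : ∀ q r, cE o q r = if r = q then μ.mu q else 0
  jac : ∀ p q r s, |(cm (rho cE (Pi.single p 1)) (rho cE (Pi.single q 1)) - rho cE (cE p q)) r s| ≤
    Real.exp (-w)
  g0 : ∀ p q r, ¬μ.Pz p → ¬μ.Pz q → μ.Pz r → |cE p q r| ≤ Real.exp (-w)
  chi : ∀ p q, p ≠ o → q ≠ o → |cE p q μ.τ| ≤ Real.exp (-w)

/-- The failure of `N` to be an automorphism. -/
def fA (cE : Fin m → Fin m → Fin m → ℝ) (p r q : Fin m) (N : Mt (Fin m)) : ℝ :=
  (N * rho cE (Pi.single p 1) - rho cE (fun s => N s p) * N) r q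

/-- The forms that are tested in the cells: homogeneous characters, centre zero. -/
def okR (cE : Fin m → Fin m → Fin m → ℝ) (la : Fin m → ℝ) (o : Fin m) (l : Fin m → ℝ)
    (c₀ θ : ℝ) : Prop := c₀ = 0 ∧ (∃ s, ∀ p, l p ≠ 0 → p ≠ o ∧ la p = s) ∧
  ∀ p q, p ≠ o → q ≠ o → |∑ r, cE p q r * l r| ≤ θ

/-- No character of rate zero is thin on the pairs of a large part of a piece. -/
def Pa {κ Ω Λ : Type} (μ : Md m) (cE : Fin m → Fin m → Fin m → ℝ) (σ : St m κ) (X : Dt m κ Ω Λ)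
    (a : ℚ≥0) (u w : ℝ) : Prop := ∀ ω ∈ X.P.S, ∀ h : ℝ, h ≤ w → ∀ l : Fin m → ℝ,
  ∑ p, |l p| = 1 → (∀ p, l p ≠ 0 → G1 μ σ.la σ.o p) →
  (∀ p q, G1 μ σ.la σ.o p → G1 μ σ.la σ.o q → |∑ r, cE p q r * l r| ≤ Real.exp (-h)) →
  ∀ E : Ω → Prop, (∀ v v', At X true a ω v → At X true a ω v' → E v → E v' →
    |∑ p, l p * nm σ X a v v' p σ.o| ≤ Real.exp (-h)) →
  pb (X.fb true a ω) E ≤ Real.exp (u - h / μ.L)

/-- The extra condition. -/
structure EE {κ : Type} [Fintype κ] {Ω Λ : ℕ → Type} (μ : Md m)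
    (cE : ℕ → Fin m → Fin m → Fin m → ℝ) (σ : St m κ) (X : ∀ n, Dt m κ (Ω n) (Λ n)) : Prop where
  ok : μ.Ok σ.la σ.o
  card : Fintype.card κ = Fintype.card (N2.El σ.la)
  ce : Au (sM X) fun n => CE μ σ.la σ.o (cE n)
  aut : ∀ a p r q, Au (sM X) fun n _ w => Zr σ (X n) false (fA (cE n) p r q) a w
  pat : ∀ a p q, μ.mu p = μ.mu q → μ.Pz p → ¬μ.Pz q →
    Au (sM X) fun n _ w => Zr σ (X n) false (fun N => N p q) a w
  col : ∀ a p, σ.la p ≠ μ.mu p → Au (sM X) fun n _ w => Zr σ (X n) true (fun N => N p σ.o) a w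
  ac0 : ∀ a, Au (sM X) fun n => Pa μ (cE n) σ (X n) a
  rob : ∀ a, Au (sM X) fun n =>
    Sb σ (X n) false μ.L (okR (cE n) σ.la σ.o) (G1 μ σ.la σ.o) a
  hts : ∀ i a, Au (sM X) fun n => Hs σ (X n) μ.τ σ.o (μ.kf i) (1 / (i + 1 : ℝ)) a
  dfc : ∀ a a', a ≤ a' → Au (sM X) fun n u _ => Df (X n) μ.D a a' u

end Pool.Agent.MP_5168f5_an.QA.P7
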