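import Pool.Agent.MP_5168f5_an.QA.P7CC
import Pool.Agent.MP_5168f5_an.QA.P7Defs
import Pool.Agent.MP_5168f5_an.AN.TGDefs

/-! The maximal estimate: the linear model of the second tangent, definitions and statements. -/

namespace Pool.Agent.MP_5168f5_an.QA.P7

open H19 H17S H17F R4 AN Filter LC
open G39 (dl)
open GA (Mt lg)
open P7E (rho)

variable {ι κ : Type} [Fintype ι] [DecidableEq ι] [Fintype κ] [DecidableEq κ] {m : ℕ}

section One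

variable (σ : Kc ι κ) (ix : Fin m → Option κ)

/-- `ix` lists the extra index and the live indices. -/
structure Ix (o τ : Fin m) : Prop where
  inj : Function.Injective ix
  rng : ∀ p : Option κ, (∃ q, ix q = p) ↔ ∀ a, p = some a → 0 < σ.mu a
  ho : ix o = none
  hτ : ix τ = some σ.τ

/-- A vector on the indices of the model. -/
def up (x : κ → ℝ) (p : Fin m) : ℝ := (ix p).elim 0 x

/-- The two weights. -/
def Kc.om (a : κ) : ℝ × ℝ := (σ.la a - σ.mu a, σ.mu a)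

/-- The bracket of the model. -/
noncomputable def ce (c : κ → κ → κ → ℝ) (p q r : Fin m) : ℝ :=
  (ix p).elim (if r = q then up ix σ.mu q else 0) fun a => -TG.Rm σ.om c a (ix r) (ix q)

/-- The change of frame in the model. -/
def uo (R : κ → κ → ℝ) : Mt (Fin m) := fun p q =>
  match ix p, ix q with
  | some e, some b => R b e
  | none, none => 1
  | _, _ => 0

/-- The group element of the model. -/
noncomputable def em (c : κ → κ → κ → ℝ) (z : κ → ℝ) : Mt (Fin m) :=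
  IsNilpotent.exp (rho (ce σ ix c) (-up ix z))

open Classical in
/-- The constants of the extra condition. -/
noncomputable def Kc.md (τ : Fin m) : Md m where
  mu := up ix σ.mu
  df := fun x => if h : ∃ z : Fin m × Fin m, up ix σ.la z.1 - up ix σ.la z.2 = x then
    up ix σ.mu h.choose.1 - up ix σ.mu h.choose.2 else 0
  Pz := fun p => ∃ a, ix p = some a ∧ σ.Pz a
  τ := τ
  L := σ.L
  D := σ.D
  kf := σ.kf

/-- The constants of the light class. -/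
noncomputable def Kc.st (o : Fin m) : St m (N2.El (up ix σ.la)) :=
  ⟨0, 0, 1, o, up ix σ.la, N2.eW _, N2.tri (up ix σ.la), fun _ => 0, fun _ _ _ => 0⟩

/-- The model with the base point `ω₀`. -/
noncomputable def Cd.md {Ω Λ : Type} (X : Cd ι κ Ω Λ) (ω₀ : Ω) : Dt m (N2.El (up ix σ.la)) Ω Λ :=
  ⟨X.P, X.M, fun a => a * X.M,
    fun ω => em σ ix (X.c ω₀) (lg (X.B ω₀) (X.j ω₀) (X.j ω)) * uo ix (X.R ω₀ ω),
    N2.eB _, N2.eC _, X.O⟩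

end One

section Seq

variable {Ω Λ : ℕ → Type} (σ : Kc ι κ) (ix : Fin m → Option κ) (o τ : Fin m)
  (X : ∀ n, Cd ι κ (Ω n) (Λ n)) (ω₀ : ∀ n, Ω n)

/-- The units. -/
abbrev cM (n : ℕ) : ℕ := (X n).M

/-- The bracket at the base point. -/
noncomputable abbrev cB (n : ℕ) : Fin m → Fin m → Fin m → ℝ := ce σ ix ((X n).c (ω₀ n))

/-- The models. -/
noncomputable abbrev cY (n : ℕ) : Dt m (N2.El (up ix σ.la)) (Ω n) (Λ n) := (X n).md σ ix (ω₀ n)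

/-- The homogeneous constants are the same in all frames. -/
def Con : Prop := ∀ T : ℝ, ∀ᶠ n in UF, ∀ ω ∈ (X n).P.S, ∀ a b e, GA.Hm σ.om a b e →
  |(X n).c ω a b e - (X n).c (ω₀ n) a b e| ≤ dl (cM X) T n

/-- The changes of frame are automorphisms. -/
def Au0 : Prop := ∀ T : ℝ, ∀ᶠ n in UF, ∀ ω ∈ (X n).P.S, ∀ v ∈ (X n).P.S, ∀ p r q,
  |fA (cB σ ix X ω₀ n) p r q (uo ix ((X n).R ω v))| ≤ dl (cM X) T n

/-- The increments of the model. -/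
def Key : Prop := ∀ (a : ℚ≥0) (T : ℝ), ∀ᶠ n in UF, ∀ ω v, (X n).At false a ω v → ∀ p q,
  |nm (σ.st ix o) (cY σ ix X ω₀ n) a ω v p q -
    (em σ ix ((X n).c (ω₀ n)) ((X n).zz σ a ω v) * uo ix ((X n).rr σ a ω v)) p q| ≤ dl (cM X) T n

/-- The constants of the bracket. -/
def Cst : Prop := Au (cM X) fun n => CE (σ.md ix τ) (up ix σ.la) o (cB σ ix X ω₀ n)

end Seq

/-- A statement about all records with a model. -/
def AllC (p : ∀ (ι κ : Type) [Fintype ι] [DecidableEq ι] [Fintype κ] [DecidableEq κ] (m : ℕ)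
    (Ω Λ : ℕ → Type), Kc ι κ → (Fin m → Option κ) → Fin m → Fin m →
    (∀ n, Cd ι κ (Ω n) (Λ n)) → (∀ n, Ω n) → Prop) : Prop :=
  ∀ (ι κ : Type) [Fintype ι] [DecidableEq ι] [Fintype κ] [DecidableEq κ] (m : ℕ) (Ω Λ : ℕ → Type)
    (σ : Kc ι κ) (ix : Fin m → Option κ) (o τ : Fin m) (X : ∀ n, Cd ι κ (Ω n) (Λ n))
    (ω₀ : ∀ n, Ω n), CC σ X → Ix σ ix o τ → (∀ n, ω₀ n ∈ (X n).P.S) →
    p ι κ m Ω Λ σ ix o τ X ω₀

def SOk : Prop := AllC fun _ _ _ _ _ _ _ _ _ σ ix o τ X ω₀ =>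
  (σ.md ix τ).Ok (up ix σ.la) o ∧ Cst σ ix o τ X ω₀

def SCon : Prop := AllC fun _ _ _ _ _ _ _ _ _ σ ix _ _ X ω₀ => Con σ X ω₀ ∧ Au0 σ ix X ω₀

def SKey : Prop := AllC fun _ _ _ _ _ _ _ _ _ σ ix o τ X ω₀ => Cst σ ix o τ X ω₀ →
  Au0 σ ix X ω₀ → Key σ ix o X ω₀ ∧ LP.LI (σ.st ix o) (fun _ => Finset.univ) (cY σ ix X ω₀)

def SAut : Prop := AllC fun _ _ _ _ _ _ _ _ _ σ ix o τ X ω₀ => Cst σ ix o τ X ω₀ →
  Au0 σ ix X ω₀ → Key σ ix o X ω₀ → ∀ a p r q, Au (cM X) fun n _ w =>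
    Zr (σ.st ix o) (cY σ ix X ω₀ n) false (fA (cB σ ix X ω₀ n) p r q) a w

def SPat : Prop := AllC fun _ _ _ _ _ _ _ _ _ σ ix o τ X ω₀ => Cst σ ix o τ X ω₀ →
  Key σ ix o X ω₀ →
  (∀ a p q, up ix σ.mu p = up ix σ.mu q → (σ.md ix τ).Pz p → ¬(σ.md ix τ).Pz q → Au (cM X)
    fun n _ w => Zr (σ.st ix o) (cY σ ix X ω₀ n) false (fun N => N p q) a w) ∧
  (∀ a p, up ix σ.la p ≠ up ix σ.mu p → Au (cM X)
    fun n _ w => Zr (σ.st ix o) (cY σ ix X ω₀ n) true (fun N => N p o) a w) ∧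
  ∀ (i : ℕ) a, Au (cM X) fun n =>
    Hs (σ.st ix o) (cY σ ix X ω₀ n) τ o (σ.kf i) (1 / (i + 1 : ℝ)) a

def SAc : Prop := AllC fun _ _ _ _ _ _ _ _ _ σ ix o τ X ω₀ => Cst σ ix o τ X ω₀ →
  Con σ X ω₀ → Key σ ix o X ω₀ → ∀ a, Au (cM X) fun n =>
    Pa (σ.md ix τ) (cB σ ix X ω₀ n) (σ.st ix o) (cY σ ix X ω₀ n) a

def SRob : Prop := AllC fun _ _ _ _ _ _ _ _ _ σ ix o τ X ω₀ => Cst σ ix o τ X ω₀ →
  Con σ X ω₀ → Key σ ix o X ω₀ → ∀ a, Au (cM X) fun n =>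
    Sb (σ.st ix o) (cY σ ix X ω₀ n) false σ.L (okR (cB σ ix X ω₀ n) (up ix σ.la) o)
      (G1 (σ.md ix τ) (up ix σ.la) o) a

/-- The marked light class is empty. -/
def SEmp : Prop := ∀ (m : ℕ) (κ : Type) [Fintype κ] (Ω Λ : ℕ → Type) (σ : St m κ)
  (S : Bool → Finset κ) (X : ∀ n, Dt m κ (Ω n) (Λ n)) (μ : Md m)
  (cE : ℕ → Fin m → Fin m → Fin m → ℝ), LP.LI σ S X → EE μ cE σ X → False

theorem scc_of (h1 : SOk) (h2 : SCon) (h3 : SKey) (h4 : SAut) (h5 : SPat) (h6 : SAc) (h7 : SRob)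
    (h8 : SEmp) : SCC := by
  intro ι κ _ _ _ _ Ω Λ σ X h
  classical
  let e := (Fintype.equivFin {p : Option κ // ∀ a, p = some a → 0 < σ.mu a}).symm
  have i : Ix σ (fun q => (e q).1) (e.symm ⟨none, by simp⟩) (e.symm ⟨some σ.τ, fun a k =>
      Option.some.inj k ▸ h.ok.live _ ((h.ok.tz _).2 rfl).1⟩) :=
    ⟨Subtype.val_injective.comp e.injective, fun p =>
      ⟨fun ⟨q, k⟩ => k ▸ (e q).2, fun k => ⟨e.symm ⟨p, k⟩, by simp⟩⟩, by simp, by simp⟩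
  choose ω₀ h0 using fun n => show ∃ ω, ω ∈ (X n).P.S from
    Finset.nonempty_of_sum_ne_zero ((X n).P.sum_one.trans_ne one_ne_zero)
  obtain ⟨a1, a2⟩ := h1 _ _ _ _ _ _ _ _ _ _ ω₀ h i h0
  obtain ⟨b1, b2⟩ := h2 _ _ _ _ _ _ _ _ _ _ ω₀ h i h0
  obtain ⟨c1, c2⟩ := h3 _ _ _ _ _ _ _ _ _ _ ω₀ h i h0 a2 b2
  obtain ⟨d1, d2, d3⟩ := h5 _ _ _ _ _ _ _ _ _ _ ω₀ h i h0 a2 c1
  exact h8 _ _ _ _ _ _ _ _ _ c2 ⟨a1, rfl, a2, h4 _ _ _ _ _ _ _ _ _ _ ω₀ h i h0 a2 b2 c1, d1, d2,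
    h6 _ _ _ _ _ _ _ _ _ _ ω₀ h i h0 a2 b1 c1, h7 _ _ _ _ _ _ _ _ _ _ ω₀ h i h0 a2 b1 c1, d3, h.df⟩

end Pool.Agent.MP_5168f5_an.QA.P7
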