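import Pool.Agent.MP_5168f5_an.QA.P7Al
import Pool.Agent.MP_5168f5_an.QA.P7Mod

/-! The maximal estimate: the marked light class is empty. -/

namespace Pool.Agent.MP_5168f5_an.QA.P7

theorem sEmp : SEmp := fun _ _ _ _ _ _ _ _ _ _ hX h => noEE hX h

end Pool.Agent.MP_5168f5_an.QA.P7
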