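import Pool.Agent.MP_5168f5_an.QA.P7Ok
import Pool.Agent.MP_5168f5_an.QA.P7Con
import Pool.Agent.MP_5168f5_an.QA.P7Key
import Pool.Agent.MP_5168f5_an.QA.P7Aut
import Pool.Agent.MP_5168f5_an.QA.P7Pat
import Pool.Agent.MP_5168f5_an.QA.P7Ac
import Pool.Agent.MP_5168f5_an.QA.P7Rob
import Pool.Agent.MP_5168f5_an.QA.P7SE

/-! The maximal estimate in all dimensions: the last class is empty. -/

namespace Pool.Agent.MP_5168f5_an.QA.P7

/-- The last class is empty. -/
theorem scc : SCC := scc_of sOk sCon sKey sAut sPat sAc sRob sEmp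

end Pool.Agent.MP_5168f5_an.QA.P7
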