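import Pool.Agent.MP_5168f5_an.QA.CpWin
import Pool.Agent.MP_5168f5_an.QA.CpRAlg
import Pool.Agent.MP_5168f5_an.QA.CpRAc
import Pool.Agent.MP_5168f5_an.QA.CpRRob
import Pool.Agent.MP_5168f5_an.QA.CpRFr
import Pool.Agent.MP_5168f5_an.QA.CpHt
import Pool.Agent.MP_5168f5_an.QA.CpInc
import Pool.Agent.MP_5168f5_an.QA.P7All

/-! The Kakeya maximal estimate: no filtered system, given the chain and the frames. -/

namespace Pool.Agent.MP_5168f5_an.QA.Cp

theorem noPG_of2 (h1 : SCh) (h3 : SFr) : NoPG :=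
  noPG_of h1 sWin h3 (rTz_of rAlg) rFr rAlg rInc (rAc_of rAlg) (rRob_of rAlg) rHt P7.scc

end Pool.Agent.MP_5168f5_an.QA.Cp
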