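import Pool.Agent.MP_5168f5_an.QA.CpSub
import Pool.Agent.MP_5168f5_an.AN.N6Exp

/-! The Kakeya maximal estimate: the cells of a cap. -/

namespace Pool.Agent.MP_5168f5_an.QA.Cp

open AN AN.GA AN.N6 Matrix Finset H61Z

variable {ι κ α : Type} [Fintype ι] [DecidableEq ι] [Fintype κ] [DecidableEq κ] [Fintype α]

/-- The radii at depth `s`. -/
noncomputable def rr (wt : κ → ℝ) (s : ℝ) (b : κ) : ℝ := Real.exp (-(wt b * s))

/-- The increment from `x` to `y` follows the directions `A` at depth `s`. -/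
def Inc (d : Da κ α) (wa : α → ℝ) (B : κ → Mt ι) (s : ℝ) (x y : Mt ι) : Prop :=
  ∃ (t : κ → ℝ) (c : α → ℝ), y = x * ex B t ∧ (∀ i, |c i| ≤ d.L * rr wa s i) ∧
    ∀ b, |t b - ∑ i, c i * d.A i b| * d.fl b ≤ d.L * rr d.wt s b

/-- The increment from `x` to `y` lies in the cap `S` at depth `s`. -/
def InS (wt : κ → ℝ) (B : κ → Mt ι) (S : Set (κ → ℝ)) (s L : ℝ) (x y : Mt ι) : Prop :=
  ∃ t, y = x * ex B t ∧ ∀ φ ∈ S, ∀ μ, Hg wt μ φ → |φ ⬝ᵥ t| ≤ L * Real.exp (-(μ * s))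

/-- The constants are homogeneous up to the floor at depth `s`. -/
structure NH (d : Da κ α) (c : κ → κ → κ → ℝ) (s : ℝ) : Prop where
  hh : ∀ a b e, d.h a b e ≠ 0 → d.wt e = d.wt a + d.wt b
  nh : ∀ a b e, |c a b e - d.h a b e| * rr d.wt s a * rr d.wt s b * d.fl e ≤ d.L * rr d.wt s e

/-- The cell of `x` for the cap `S` at depth `s`. -/
noncomputable def cel (wt : κ → ℝ) (B : κ → Mt ι) (S : Set (κ → ℝ)) (s : ℝ) : Mt ι → Mt ι :=
  cell (mB (ub wt S) B) (rr wt s)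

variable {d : Da κ α} {S : Set (κ → ℝ)} {wa : α → ℝ} {B : κ → Mt ι} {c : κ → κ → κ → ℝ}
  {s L μ μ' : ℝ} {x y : Mt ι} {Φ : Filt (Mt ι)} {u v : κ → ℝ}

omit [Fintype κ] [DecidableEq κ] in
theorem rr_pos (wt : κ → ℝ) (s : ℝ) (b : κ) : 0 < rr wt s b := Real.exp_pos _

omit [DecidableEq κ] [Fintype α] in
theorem NH.hg (h : NH d c s) (a : Hg d.wt μ u) (b : Hg d.wt μ' v) :
    Hg d.wt (μ + μ') (br d.h u v) := fun e k => by
  obtain ⟨p, -, k⟩ := exists_ne_zero_of_sum_ne_zero (s := univ) k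
  obtain ⟨q, -, k⟩ := exists_ne_zero_of_sum_ne_zero (s := univ) k
  have k1 := left_ne_zero_of_mul k
  rw [h.hh p q e (left_ne_zero_of_mul k1), a p (right_ne_zero_of_mul k1),
    b q (right_ne_zero_of_mul k)]

omit [Fintype α] in
theorem ub_le (g : d.Good S) (a b : κ) : |ub d.wt S a b| ≤ 2 := by
  have := g.fu.in_ub g.hg a _ (g.one b)
  rw [single_dotProduct, one_mul, Pi.smul_apply, smul_eq_mul, abs_mul] at this
  norm_num at this
  linarith

omit [Fintype α] in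
theorem idl (g : d.Good S) (h : NH d c s) (hL : 0 ≤ d.L) :
    Idl (mC (ub d.wt S) (fm d.wt S)ᵀ c) (rr d.wt s) (rr d.wt s)
      ((4 + 4 * Fintype.card κ ^ 3) * d.L) := fun a b e => by
  have r := (g.fu.fm (wt := d.wt)).1 e
  have e0 : mC (ub d.wt S) (fm d.wt S)ᵀ c a b e = fm d.wt S e ⬝ᵥ br d.h (ub d.wt S a) (ub d.wt S b)
      + ∑ e', ∑ a', ∑ b', (c a' b' e' - d.h a' b' e') * ub d.wt S a a' * ub d.wt S b b' *
        fm d.wt S e e' := by
    simp only [mC, vecMul, dotProduct, br, transpose_apply, ← sum_add_distrib, sum_mul, mul_sum]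
    exact sum_congr rfl fun _ _ => sum_congr rfl fun _ _ => sum_congr rfl fun _ _ => by ring
  have p := rr_pos d.wt s
  have h1 : |fm d.wt S e ⬝ᵥ br d.h (ub d.wt S a) (ub d.wt S b)| * rr d.wt s a * rr d.wt s b ≤
      4 * d.L * rr d.wt s e := by
    by_cases k : d.wt e = d.wt a + d.wt b
    · have := (g.ok _ r.1).c _ _ (g.fu.in_ub g.hg a) (g.fu.in_ub g.hg b)
      rw [br_smul_left, br_smul_right, dotProduct_smul, dotProduct_smul, smul_eq_mul, smul_eq_mul,
        abs_mul, abs_mul] at this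
      norm_num at this
      have z : rr d.wt s a * rr d.wt s b = rr d.wt s e := by
        simp only [rr, ← Real.exp_add, k]; congr 1; ring
      rw [mul_assoc, z]
      exact mul_le_mul_of_nonneg_right (by linarith) (p e).le
    · rw [r.2.dot (h.hg (g.fu.hg_ub a) (g.fu.hg_ub b)) k, abs_zero, zero_mul, zero_mul]
      have := p e
      positivity
  have h2 : ∀ e' a' b', |(c a' b' e' - d.h a' b' e') * ub d.wt S a a' * ub d.wt S b b' *
      fm d.wt S e e'| * (rr d.wt s a * rr d.wt s b) ≤ 4 * d.L * rr d.wt s e := fun e' a' b' => by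
    by_cases k : ub d.wt S a a' = 0 ∨ ub d.wt S b b' = 0 ∨ fm d.wt S e e' = 0
    · have := p e
      rcases k with k | k | k <;> simp only [k, mul_zero, zero_mul, abs_zero] <;> positivity
    · push Not at k
      have n := h.nh a' b' e'
      simp only [rr, g.fu.hg_ub a a' k.1, g.fu.hg_ub b b' k.2.1, r.2 e' k.2.2] at n
      have f := (g.ok _ r.1).f e'
      have m : |ub d.wt S a a'| * |ub d.wt S b b'| * |fm d.wt S e e'| ≤ 2 * 2 * (1 * d.fl e') :=
        mul_le_mul (mul_le_mul (ub_le g a a') (ub_le g b b') (abs_nonneg _) two_pos.le) f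
          (abs_nonneg _) (by norm_num)
      have := mul_le_mul_of_nonneg_left m (mul_nonneg (abs_nonneg (c a' b' e' - d.h a' b' e'))
        (mul_pos (p a) (p b)).le)
      simp only [abs_mul, rr] at this ⊢
      linarith
  have h3 : |∑ e', ∑ a', ∑ b', (c a' b' e' - d.h a' b' e') * ub d.wt S a a' * ub d.wt S b b' *
      fm d.wt S e e'| * (rr d.wt s a * rr d.wt s b) ≤
      Fintype.card κ ^ 3 * (4 * d.L * rr d.wt s e) := by
    refine (mul_le_mul_of_nonneg_right ((abs_sum_le_sum_abs _ _).trans (sum_le_sum fun _ _ =>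
      (abs_sum_le_sum_abs _ _).trans (sum_le_sum fun _ _ => abs_sum_le_sum_abs _ _)))
      (mul_pos (p a) (p b)).le).trans ?_
    simp only [sum_mul]
    refine (sum_le_sum fun e' _ => sum_le_sum fun a' _ => sum_le_sum fun b' _ =>
      h2 e' a' b').trans_eq ?_
    simp only [sum_const, card_univ, nsmul_eq_mul]
    ring
  rw [e0]
  have := mul_le_mul_of_nonneg_right (abs_add_le (fm d.wt S e ⬝ᵥ br d.h (ub d.wt S a)
    (ub d.wt S b)) (∑ e', ∑ a', ∑ b', (c a' b' e' - d.h a' b' e') * ub d.wt S a a' *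
      ub d.wt S b b' * fm d.wt S e e')) (mul_pos (p a) (p b)).le
  linarith

theorem nr_in (Φ : Filt (Mt ι)) (g : d.Good S) (hA : ∀ i, Hg d.wt (wa i) (d.A i)) (hL : 1 ≤ d.L)
    (h : Inc d wa B s x y) : Nr (mB (ub d.wt S) B) (rr d.wt s)
      ((Fintype.card α + Fintype.card κ) * d.L ^ 2) x y := by
  obtain ⟨t, w, rfl, h1, h2⟩ := h
  refine ⟨t ᵥ* (fm d.wt S)ᵀ, fun e => ?_, ?_⟩
  · have r := (g.fu.fm (wt := d.wt)).1 e
    have p := rr_pos d.wt s e
    have e0 : (t ᵥ* (fm d.wt S)ᵀ) e = ∑ i, w i * (fm d.wt S e ⬝ᵥ d.A i) +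
        ∑ b, fm d.wt S e b * (t b - ∑ i, w i * d.A i b) := by
      simp only [vecMul, dotProduct, transpose_apply, mul_sub, sum_sub_distrib, mul_sum]
      rw [sum_comm (s := (univ : Finset α))]
      simp only [mul_left_comm, mul_comm]
      ring
    have a1 : ∀ i, |w i * (fm d.wt S e ⬝ᵥ d.A i)| ≤ d.L ^ 2 * rr d.wt s e := fun i => by
      by_cases k : d.wt e = wa i
      · have := mul_le_mul (h1 i) ((g.ok _ r.1).a i) (abs_nonneg _)
          ((abs_nonneg _).trans (h1 i))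
        rw [abs_mul]
        refine this.trans_eq ?_
        simp only [rr, k]; ring
      · rw [r.2.dot (hA i) k, mul_zero, abs_zero]; positivity
    have a2 : ∀ b, |fm d.wt S e b * (t b - ∑ i, w i * d.A i b)| ≤ d.L ^ 2 * rr d.wt s e :=
      fun b => by
        by_cases k : fm d.wt S e b = 0
        · rw [k, zero_mul, abs_zero]; positivity
        · have a := h2 b
          have f := mul_le_mul_of_nonneg_right ((g.ok _ r.1).f b)
            (abs_nonneg (t b - ∑ i, w i * d.A i b))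
          simp only [rr, r.2 b k] at a p ⊢
          rw [abs_mul]
          nlinarith [mul_le_mul_of_nonneg_right (le_self_pow₀ hL two_ne_zero) p.le]
    rw [e0]
    refine (abs_add_le _ _).trans ((add_le_add ((abs_sum_le_sum_abs _ _).trans
      (sum_le_sum fun i _ => a1 i)) ((abs_sum_le_sum_abs _ _).trans
      (sum_le_sum fun b _ => a2 b))).trans_eq ?_)
    simp only [sum_const, card_univ, nsmul_eq_mul]
    ring
  · rw [((sFr ι κ Φ B 0).2 _ _ g.fu.inv).2.2.1, vecMul_vecMul, mul_eq_one_comm.1 g.fu.inv, vecMul_one]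

omit [Fintype α] in
theorem nr_out (g : d.Good S) (hL : 0 ≤ L) (Φ : Filt (Mt ι))
    (h : Nr (mB (ub d.wt S) B) (rr d.wt s) L x y) :
    InS d.wt B S s (Fintype.card κ * (2 * L)) x y := by
  obtain ⟨t, h1, rfl⟩ := h
  refine ⟨t ᵥ* ub d.wt S, by rw [((sFr ι κ Φ B 0).2 _ _ g.fu.inv).2.2.1], fun φ k μ u => ?_⟩
  obtain ⟨w, w1, rfl, w3⟩ := g.fu.span k u
  rw [mul_assoc]
  refine abs_dot (r := fun a => L * rr d.wt s a) (fun a => ?_) fun a => ?_
  · by_cases z : w a = 0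
    · rw [z, abs_zero, zero_mul]; positivity
    · rw [rr, w1 a z, mul_assoc]
      exact mul_le_mul_of_nonneg_right (w3 a) (by positivity)
  · rw [dotProduct_comm, dot_vecMul]
    simpa only [dotProduct_comm (ub d.wt S _), g.fu.dual, one_apply, mul_ite, mul_one, mul_zero,
      sum_ite_eq', mem_univ, if_true] using h1 a

/-- New directions. -/
abbrev Da.w (d : Da κ α) (A : α → κ → ℝ) : Da κ α := ⟨d.wt, d.fl, d.L, d.h, A⟩

/-- Admissible for homogeneous directions. -/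
def Da.Gd (d : Da κ α) (wa : α → ℝ) (S : Set (κ → ℝ)) (A : α → κ → ℝ) : Prop :=
  (d.w A).Good S ∧ ∀ i, Hg d.wt (wa i) (A i)

/-- Lists and increments for the cells of a cap. -/
theorem cells (α : Type) [Fintype α] (κ : Type) [Fintype κ] [DecidableEq κ] (Φ : Filt (Mt ι)) :
    ∃ f, PG f ∧ ∀ (d : Da κ α) (S : Set (κ → ℝ)) (wa : α → ℝ) (B : κ → Mt ι)
    (c : κ → κ → κ → ℝ) (s : ℝ) (A : α → κ → ℝ), IsFr Φ B c → d.Gd wa S A → NH d c s → 1 ≤ d.L →
    (∀ x, IsUnit x → ∃ T : Finset (Mt ι), (T.card : ℝ) ≤ f d.L ∧ ∀ A' y z, d.Gd wa S A' →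
      Inc (d.w A') wa B s x y → Inc (d.w A') wa B s y z → cel d.wt B S s z ∈ T) ∧
    ∀ A' x x' y y', d.Gd wa S A' → Inc (d.w A) wa B s x x' → Inc (d.w A') wa B s y y' →
      cel d.wt B S s x' = cel d.wt B S s y' → InS d.wt B S s (f d.L) x y := by
  obtain ⟨K, k1, hN⟩ := sNr Φ.N (Fintype.card κ)
  obtain ⟨K', k2, hC⟩ := sCell Φ.N (Fintype.card κ)
  have z1 : (0 : ℝ) ≤ Fintype.card κ ^ 3 := by positivity
  have z2 : (0 : ℝ) ≤ Fintype.card α + Fintype.card κ := by positivity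
  obtain ⟨C, hc⟩ : ∃ C : ℝ, C = 4 + 4 * Fintype.card κ ^ 3 + (Fintype.card α + Fintype.card κ) :=
    ⟨_, rfl⟩
  have c1 : 1 ≤ C := by linarith
  have p0 : PG fun L => C * L ^ 2 := (pg_const c1).mul (pg_id.pow 2)
  have p1 := (pg_box k1).comp p0
  have p2 := (pg_box k1).comp p1
  refine ⟨_, ((pg_box k2).comp p1).add ((pg_nat (Fintype.card κ)).mul
    ((pg_const one_le_two).mul p2)), fun d S wa B c s A fr g h hL => ?_⟩
  have fr' := ((sFr ι κ Φ B c).2 _ _ (g.1.fu.inv (wt := d.wt))).1 fr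
  have p := rr_pos d.wt s
  have l0 := p0.1 _ hL
  have l1 := p1.1 _ hL
  have l2 := p2.1 _ hL
  have l3 := ((pg_box k2).comp p1).1 _ hL
  have m1 : C * d.L ^ 2 ≤ (K * (C * d.L ^ 2)) ^ K := GACellA.le_box k1 l0
  have i0 : Idl (mC (ub d.wt S) (fm d.wt S)ᵀ c) (rr d.wt s) (rr d.wt s) (C * d.L ^ 2) :=
    GACellA.idl_mono (idl (d := d.w A) g.1 ⟨h.hh, h.nh⟩ (by linarith))
      (mul_le_mul (by linarith) (by nlinarith) (by linarith) (by linarith)) fun a => (p a).le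
  have i1 := GACellA.idl_mono i0 m1 fun a => (p a).le
  have n0 : ∀ A' x y, d.Gd wa S A' → Inc (d.w A') wa B s x y →
      Nr (mB (ub d.wt S) B) (rr d.wt s) (C * d.L ^ 2) x y := fun A' x y a k =>
    GACntA.nr_mono (nr_in (d := d.w A') Φ a.1 a.2 hL k) fun a => mul_le_mul_of_nonneg_right
      (mul_le_mul_of_nonneg_right (by linarith) (by positivity)) (p a).le
  have N := fun L x y z (a : 1 ≤ L) i => hN ι κ Φ _ _ (rr d.wt s) (rr d.wt s) L 0 x y z rfl le_rfl
    fr' a le_rfl (fun a => ⟨(p a).le, (p a).le⟩) i i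
  have Ce := fun L (a : 1 ≤ L) => hC ι κ Φ _ _ (rr d.wt s) (rr d.wt s) L rfl le_rfl fr' a
    fun b => ⟨p b, le_mul_of_one_le_left (p b).le a⟩
  refine ⟨fun x u => ?_, fun A' x x' y y' a k k' e => ?_⟩
  · obtain ⟨T, t1, t2⟩ := (Ce _ l1).2 i1 i1 x u
    refine ⟨T, t1.trans ?_, fun A' y z a k k' =>
      t2 z ((N _ x y z l0 i0).2.1 (n0 A' x y a k) (n0 A' y z a k'))⟩
    rw [prod_congr rfl fun a _ => div_self (p a).ne', prod_const_one, mul_one]
    exact le_add_of_nonneg_right (by positivity)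
  · have q : ∀ w, Nr (mB (ub d.wt S) B) (rr d.wt s) (C * d.L ^ 2) (cel d.wt B S s w) w := fun w =>
      GACntA.nr_mono ((Ce _ l0).1 w) fun a => mul_le_mul_of_nonneg_right l0 (p a).le
    have a1 := (N _ x x' _ l0 i0).2.1 (n0 A x x' g k) ((N _ _ x' x' l0 i0).1 (q x'))
    have a2 := (N _ _ y' y l0 i0).2.1 (q y') ((N _ y y' y l0 i0).1 (n0 A' y y' a k'))
    obtain ⟨t, t1, t2⟩ := nr_out g.1 (by linarith) Φ ((N _ x _ y l1 i1).2.1 a1 (e ▸ a2))
    refine ⟨t, t1, fun φ u μ v => (t2 φ u μ v).trans (mul_le_mul_of_nonneg_right ?_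
      (Real.exp_pos _).le)⟩
    nlinarith

end Pool.Agent.MP_5168f5_an.QA.Cp
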