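import Pool.Agent.MP_5168f5_an.QA.CpCell
import Pool.Agent.MP_5168f5_an.H39F.Kit
import Pool.Agent.MP_5168f5_an.H17F.KE

/-! The Kakeya maximal estimate: the chain of caps on one space. -/

namespace Pool.Agent.MP_5168f5_an.QA.Cp

open H19 H17S H17F AN AN.GA AN.N6 Matrix Finset H61Z

variable {ι κ α Ω Λ Λ' ζ : Type} [Fintype ι] [DecidableEq ι] [Fintype κ] [DecidableEq κ]
  [Fintype α]

/-- New bracket and directions. -/
abbrev Da.v (d : Da κ α) (h : κ → κ → κ → ℝ) (A : α → κ → ℝ) : Da κ α := ⟨d.wt, d.fl, d.L, h, A⟩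

/-- The data on one space. -/
structure Sp (ι κ α Ω Λ' : Type) : Type where
  P : FP Ω
  d : Da κ α
  wa : α → ℝ
  B : Ω → κ → Mt ι
  c : Ω → κ → κ → κ → ℝ
  h : Ω → κ → κ → κ → ℝ
  A : Ω → α → κ → ℝ
  j : Ω → Mt ι
  S : Ω → Λ'

/-- The cells. -/
abbrev Ce (ι κ ζ : Type) : Type := List (ζ × Set (κ → ℝ) × Mt ι)

/-- The coordinate forms. -/
def S0 (κ : Type) [DecidableEq κ] : Set (κ → ℝ) := Set.range fun a => Pi.single a (1 : ℝ)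

/-- The number of values of the forced step. -/
noncomputable def N1 (κ : Type) [Fintype κ] (τ : ℝ) : ℝ :=
  (8 * Fintype.card κ / τ + 2) ^ (Fintype.card κ * Fintype.card κ)

/-- A representative of the atom. -/
noncomputable def rp (P : FP Ω) (O : Ω → Λ) (ω : Ω) : Ω :=
  @Classical.epsilon Ω ⟨ω⟩ fun v => v ∈ P.S ∧ O v = O ω

namespace Sp

variable (x : Sp ι κ α Ω Λ')

/-- The data of a sample. -/
abbrev D (ω : Ω) : Da κ α := x.d.v (x.h ω) (x.A ω)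

/-- The reward. -/
noncomputable def W (Ψ : Ω → Set (κ → ℝ)) : ℝ := x.P.E fun ω => Real.log (vl x.d.wt (Ψ ω))

/-- The hypotheses at one level. -/
structure Hy (Φ : Filt (Mt ι)) (O : Ω → Λ) (Z : Ω → ζ) (s : ℝ) : Prop where
  fr : ∀ ω ∈ x.P.S, IsFr Φ (x.B ω) (x.c ω) ∧ IsUnit (x.j ω) ∧ NH (x.D ω) (x.c ω) s ∧
    ∀ i, Hg x.d.wt (x.wa i) (x.A ω i)
  zo : Fn x.P Z O
  zs : Fn x.P Z x.S
  fb : Fn x.P (fun ω => (x.B ω, x.h ω)) Z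
  fa : Fn x.P x.A O
  io : ∀ ω ∈ x.P.S, ∀ v ∈ x.P.S, O ω = O v → Inc (x.D ω) x.wa (x.B ω) s (x.j ω) (x.j v)
  is : ∀ ω ∈ x.P.S, ∀ v ∈ x.P.S, x.S ω = x.S v → ∃ t, x.j v = x.j ω * ex (x.B ω) t ∧
    ∀ b, |t b| * x.d.fl b ≤ x.d.L * rr x.d.wt s b

/-- An admissible successor. -/
def Nx (O : Ω → Λ) (τ : ℝ) (Ψ Ψ' : Ω → Set (κ → ℝ)) : Prop :=
  Fn x.P Ψ' O ∧ ∀ ω ∈ x.P.S, (x.D ω).Good (Ψ' ω) ∧ (x.D ω).sub (Ψ ω) τ ⊆ Ψ' ω

/-- The next cell. -/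
noncomputable def nc (O : Ω → Λ) (Z : Ω → ζ) (s : ℝ) (Ψ : Ω → Set (κ → ℝ)) (C : Ω → Ce ι κ ζ)
    (ω : Ω) : Ce ι κ ζ := (Z ω, Ψ ω, cel x.d.wt (x.B ω) (Ψ ω) s (x.j (rp x.P O ω))) :: C ω

/-- A long admissible form on the event `E`. -/
def Lg (Ψ : Ω → Set (κ → ℝ)) (E : Ω → Prop) (φ : Ω → κ → ℝ) (R : ℝ) : Prop :=
  ∀ ω ∈ x.P.S, E ω → (∃ μ, Hg x.d.wt μ (φ ω)) ∧ (x.D ω).Ok (Ψ ω) 1 (φ ω) ∧
    ∃ y, In (Ψ ω) y ∧ R ≤ |φ ω ⬝ᵥ y|

/-- One step. -/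
structure St (O : Ω → Λ) (Z : Ω → ζ) (s τ La ε Ls : ℝ) (Ψ Ψ' : Ω → Set (κ → ℝ))
    (C C' : Ω → Ce ι κ ζ) : Prop where
  nx : x.Nx O τ Ψ Ψ'
  fo : Fn x.P C' O
  nest : Fn x.P C C'
  fz : Fn x.P (fun ω => (Z ω, Ψ' ω)) C'
  inc : ∀ ω ∈ x.P.S, ∀ v ∈ x.P.S, C' ω = C' v →
    InS x.d.wt (x.B ω) (Ψ' ω) s Ls (x.j ω) (x.j v)
  leak : La * ch x.P C' x.S - x.W Ψ' ≤
    La * ch x.P C x.S - x.W Ψ + (La * (Real.log (N1 κ τ) + Real.log Ls) + ε)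
  rob : ∀ (E : Ω → Prop) (φ : Ω → κ → ℝ) (R : ℝ), Fn x.P E O → Fn x.P φ C' → 0 < R →
    x.Lg Ψ' E φ R → pb x.P E * Real.log (R / (2 * Fintype.card κ)) ≤
      La * (pb x.P E * (1 - Real.log (pb x.P E) + Real.log Ls)) + ε

end Sp

theorem rp_spec {P : FP Ω} (O : Ω → Λ) {ω : Ω} (h : ω ∈ P.S) :
    rp P O ω ∈ P.S ∧ O (rp P O ω) = O ω :=
  @Classical.epsilon_spec_aux Ω ⟨ω⟩ (fun v => v ∈ P.S ∧ O v = O ω) ⟨ω, h, rfl⟩

theorem rp_eq (P : FP Ω) {O : Ω → Λ} {ω v : Ω} (h : O ω = O v) : rp P O ω = rp P O v := by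
  unfold rp; rw [h]

theorem hh_ev (Q : FP Ω) (E : Ω → Prop) : hh Q E ≤ pb Q E * (1 - Real.log (pb Q E)) := by
  have e1 : H39F.pv Q E True = pb Q E := pb_congr fun _ _ => by simp
  have e2 : H39F.pv Q E False = 1 - pb Q E := (pb_congr fun _ _ => by simp).trans (pb_not Q E)
  rw [H39F.hh_eq, KEA.E_prop Q E fun t => -Real.log (H39F.pv Q E t), e1, e2]
  have := Real.negMulLog_le_one_sub_self (sub_nonneg.2 (pb_le_one Q E))
  rw [Real.negMulLog] at this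
  linarith

open Classical in
theorem E_if (Q : FP Ω) (E : Ω → Prop) (r : ℝ) :
    Q.E (fun ω => if E ω then r else 0) = pb Q E * r := by
  rw [mul_comm, pb, ← FP.E_mul]
  exact Q.E_congr fun ω _ => by split_ifs <;> simp

namespace Sp

variable {x : Sp ι κ α Ω Λ'} {Φ : Filt (Mt ι)} {O : Ω → Λ} {Z : Ω → ζ} {s τ La ε : ℝ}
  {Ψ : Ω → Set (κ → ℝ)} {C : Ω → Ce ι κ ζ}

theorem nx_sub (h : x.Hy Φ O Z s) (hL : 1 ≤ x.d.L) (h0 : 0 < τ) (h1 : τ ≤ 1) (f : Fn x.P Ψ O)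
    (g : ∀ ω ∈ x.P.S, (x.D ω).Good (Ψ ω)) : x.Nx O τ Ψ fun ω => (x.D ω).sub (Ψ ω) τ :=
  ⟨fun a ha b hb e => by
    have e1 : x.h a = x.h b := congrArg Prod.snd (h.fb a ha b hb (h.zo a ha b hb e))
    simp only [D, e1, h.fa a ha b hb e, f a ha b hb e],
   fun ω k => ⟨(g ω k).sub (by linarith) h0 h1, subset_rfl⟩⟩

omit [Fintype ι] [DecidableEq ι] [Fintype α] in
theorem ex_min {γ : Type} (G : Ω → γ) (hΛ : 0 ≤ La) (hε : 0 < ε) {Ψ₀ : Ω → Set (κ → ℝ)}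
    (h : x.Nx O τ Ψ Ψ₀) : ∃ Ψ', x.Nx O τ Ψ Ψ' ∧ ∀ Ψ'', x.Nx O τ Ψ Ψ'' →
      La * ch x.P Ψ' G - x.W Ψ' ≤ La * ch x.P Ψ'' G - x.W Ψ'' + ε := by
  have b : BddBelow {r | ∃ Ψ', x.Nx O τ Ψ Ψ' ∧ r = La * ch x.P Ψ' G - x.W Ψ'} := by
    refine ⟨-Real.log ((Fintype.card κ).factorial * (∑ e, x.d.fl e) ^ Fintype.card κ), ?_⟩
    rintro _ ⟨Ψ', k, rfl⟩
    have := (x.P.E_mono fun ω u => Real.log_le_log ((k.2 ω u).1.fu.vl_pos (wt := x.d.wt))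
      (k.2 ω u).1.fu.up).trans_eq (x.P.E_const (Real.log ((Fintype.card κ).factorial *
        (∑ e, x.d.fl e) ^ Fintype.card κ)))
    have := mul_nonneg hΛ (ch_nonneg (P := x.P) Ψ' G)
    unfold W
    linarith
  obtain ⟨_, ⟨Ψ', k, rfl⟩, u⟩ := exists_lt_of_csInf_lt (s := {r | ∃ Ψ', x.Nx O τ Ψ Ψ' ∧
    r = La * ch x.P Ψ' G - x.W Ψ'}) ⟨_, Ψ₀, h, rfl⟩ (lt_add_of_pos_right _ hε)
  exact ⟨Ψ', k, fun Ψ'' k' => u.le.trans (add_le_add_left (csInf_le b ⟨Ψ'', k', rfl⟩) ε)⟩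

end Sp

/-- The step exists. -/
theorem step (α : Type) [Fintype α] (κ : Type) [Fintype κ] [DecidableEq κ] (Φ : Filt (Mt ι)) :
    ∃ f, PG f ∧ ∀ (Ω Λ Λ' ζ : Type) (x : Sp ι κ α Ω Λ') (O : Ω → Λ) (Z : Ω → ζ) (s τ La ε : ℝ)
    (Ψ : Ω → Set (κ → ℝ)) (C : Ω → Ce ι κ ζ), x.Hy Φ O Z s → 1 ≤ x.d.L → 0 < τ → τ ≤ 1 → 0 ≤ La →
    0 < ε → Fn x.P Ψ C → Fn x.P C O → (∀ ω ∈ x.P.S, (x.D ω).Good (Ψ ω)) →
    ∃ Ψ' C', x.St O Z s τ La ε (f x.d.L) Ψ Ψ' C C' := by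
  classical
  obtain ⟨f, pf, hf⟩ := cells α κ Φ
  refine ⟨f, pf, fun Ω Λ Λ' ζ x O Z s τ La ε Ψ C h hL h0 h1 hΛ hε fΨ fC g => ?_⟩
  have n0 := Sp.nx_sub h hL h0 h1 (fΨ.trans fC) g
  obtain ⟨Ψ', n, mn⟩ := Sp.ex_min (fun ω => (C ω, x.S ω)) hΛ hε n0
  have F := fun a (ha : a ∈ x.P.S) => hf (x.D a) (Ψ' a) x.wa (x.B a) (x.c a) s (x.A a)
    (h.fr a ha).1 ⟨(n.2 a ha).1, (h.fr a ha).2.2.2⟩ (h.fr a ha).2.2.1 hL
  have tr : ∀ a ∈ x.P.S, ∀ b ∈ x.P.S, Z a = Z b → Ψ' b = Ψ' a → x.B b = x.B a ∧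
      (x.D a).Gd x.wa (Ψ' a) (x.A b) ∧
      Inc ((x.D a).w (x.A b)) x.wa (x.B a) s (x.j b) (x.j (rp x.P O b)) := fun a ha b hb e e' => by
    have e1 := Prod.ext_iff.1 (h.fb a ha b hb e)
    have k := h.io b hb _ (rp_spec O hb).1 (rp_spec O hb).2.symm
    have k' := (n.2 b hb).1
    simp only [] at e1
    simp only [Sp.D, ← e1.1, ← e1.2, e'] at k k'
    exact ⟨e1.1.symm, ⟨k', (h.fr b hb).2.2.2⟩, k⟩
  have ls : ∀ a ∈ x.P.S, ∃ T : Finset (Ce ι κ ζ), (T.card : ℝ) ≤ f x.d.L ∧ ∀ b ∈ x.P.S,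
      (Ψ' b, C b, x.S b) = (Ψ' a, C a, x.S a) → x.nc O Z s Ψ' C b ∈ T := fun a ha => by
    obtain ⟨T, t1, t2⟩ := (F a ha).1 _ (h.fr a ha).2.1
    refine ⟨T.image fun y => (Z a, Ψ' a, y) :: C a, (Nat.cast_le.2 card_image_le).trans t1,
      fun b hb e => ?_⟩
    simp only [Prod.ext_iff] at e
    have z := h.zs a ha b hb e.2.2.symm
    obtain ⟨e1, e2, e3⟩ := tr a ha b hb z e.1
    obtain ⟨t, u1, u2⟩ := h.is a ha b hb e.2.2.symm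
    refine mem_image.2 ⟨_, t2 _ _ _ e2 ⟨t, 0, u1, fun i => ?_, by simpa using u2⟩ e3, ?_⟩
    · have := rr_pos x.wa s i
      rw [Pi.zero_apply, abs_zero]
      exact mul_nonneg (zero_le_one.trans hL) this.le
    · simp only [Sp.nc, z, e.1, e.2.1, e1]
  have hd : ∀ {a b}, x.nc O Z s Ψ' C a = x.nc O Z s Ψ' C b → (Z a = Z b ∧ Ψ' a = Ψ' b ∧
      cel x.d.wt (x.B a) (Ψ' a) s (x.j (rp x.P O a)) =
        cel x.d.wt (x.B b) (Ψ' b) s (x.j (rp x.P O b))) ∧ C a = C b := fun e => by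
    simpa only [Sp.nc, List.cons.injEq, Prod.ext_iff] using e
  refine ⟨Ψ', x.nc O Z s Ψ' C, n, fun a ha b hb e => ?_, fun a _ b _ e => (hd e).2,
    fun a _ b _ e => Prod.ext (hd e).1.1 (hd e).1.2.1, fun a ha b hb e => ?_, ?_, ?_⟩
  · have z := h.zo a ha b hb e
    have e1 : x.B a = x.B b := congrArg Prod.fst (h.fb a ha b hb z)
    simp only [Sp.nc, z, n.1 a ha b hb e, fC a ha b hb e, rp_eq x.P e, e1]
  · obtain ⟨⟨e1, e2, e3⟩, -⟩ := hd e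
    obtain ⟨a1, a2, a3⟩ := tr a ha b hb e1 e2.symm
    rw [a1, ← e2] at e3
    exact (F a ha).2 _ _ _ _ _ a2 (tr a ha a ha rfl rfl).2.2 a3 e3
  · obtain ⟨T, t1, t2⟩ : ∃ T : Set (κ → ℝ) → Finset (Set (κ → ℝ)), (∀ S, ((T S).card : ℝ) ≤ N1 κ τ) ∧
        ∀ S (d : Da κ α), d.wt = x.d.wt → d.Good S → τ ≤ 1 → d.sub S τ ∈ T S := by
      choose T t1 t2 using fun S => Da.few (α := α) x.d.wt S h0
      exact ⟨T, t1, t2⟩
    have a1 := ch_tri (P := x.P) (x.nc O Z s Ψ' C) C x.S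
    have a2 := ch_tri (P := x.P) (x.nc O Z s Ψ' C) Ψ' fun ω => (C ω, x.S ω)
    have a3 := ch_det (P := x.P) (F := x.nc O Z s Ψ' C) ls
    have a4 := mn _ n0
    have a5 : ch x.P (fun ω => (x.D ω).sub (Ψ ω) τ) (fun ω => (C ω, x.S ω)) ≤ Real.log (N1 κ τ) :=
      ch_det fun a ha => ⟨T (Ψ a), t1 _, fun b hb e =>
        fΨ b hb a ha (congrArg Prod.fst e) ▸ t2 _ _ rfl (g b hb) h1⟩
    have a6 : x.W Ψ ≤ x.W fun ω => (x.D ω).sub (Ψ ω) τ := x.P.E_mono fun ω k =>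
      Real.log_le_log (g ω k).fu.vl_pos ((g ω k).fu.mono (n0.2 ω k).1.fu Set.subset_union_left)
    nlinarith [mul_le_mul_of_nonneg_left a5 hΛ, mul_le_mul_of_nonneg_left
      (a1.trans (add_le_add_right (a2.trans (add_le_add_right a3 _)) _)) hΛ]
  · intro E φ R fE fφ hR l
    have fn : Fn x.P (x.nc O Z s Ψ' C) O := fun a ha b hb e => by
      have z := h.zo a ha b hb e
      have e1 : x.B a = x.B b := congrArg Prod.fst (h.fb a ha b hb z)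
      simp only [Sp.nc, z, n.1 a ha b hb e, fC a ha b hb e, rp_eq x.P e, e1]
    have g2 : ∀ ω ∈ x.P.S, E ω → (x.D ω).Good (Ψ' ω ∪ {φ ω}) := fun ω k e =>
      (n.2 ω k).1.union fun ψ u => by rw [u]; exact ⟨(l ω k e).1, (l ω k e).2.1⟩
    have a1 := mn (fun ω => if E ω then Ψ' ω ∪ {φ ω} else Ψ' ω) ⟨fun a ha b hb e => by
      simp only [fE a ha b hb e, n.1 a ha b hb e, fφ a ha b hb (fn a ha b hb e)], fun ω k => by
        simp only []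
        split_ifs with e
        · exact ⟨g2 ω k e, (n.2 ω k).2.trans Set.subset_union_left⟩
        · exact n.2 ω k⟩
    have a2 : x.W Ψ' + pb x.P E * Real.log (R / (2 * Fintype.card κ)) ≤
        x.W fun ω => if E ω then Ψ' ω ∪ {φ ω} else Ψ' ω := by
      rw [← E_if, Sp.W, ← FP.E_add]
      refine x.P.E_mono fun ω k => ?_
      simp only []
      split_ifs with e
      · obtain ⟨⟨μ, u⟩, -, y, y1, y2⟩ := l ω k e
        have p := (n.2 ω k).1.fu.vl_pos (wt := x.d.wt)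
        have := (n.2 ω k).1.fu.gain (g2 ω k e).fu Set.subset_union_left (Or.inr rfl) u y1 hR y2
        have k0 : (0 : ℝ) < 2 * Fintype.card κ :=
          (pos_iff_pos_of_mul_pos ((mul_pos hR p).trans_le this)).2 (g2 ω k e).fu.vl_pos
        rw [← Real.log_mul p.ne' (div_pos hR k0).ne']
        refine Real.log_le_log (mul_pos p (div_pos hR k0)) ?_
        rw [← mul_div_assoc, div_le_iff₀ k0]
        linarith
      · exact (add_zero _).le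
    have a3 := ch_tri (P := x.P) (fun ω => if E ω then Ψ' ω ∪ {φ ω} else Ψ' ω) Ψ'
      fun ω => (C ω, x.S ω)
    have a4 := ch_tri (P := x.P) (fun ω => if E ω then Ψ' ω ∪ {φ ω} else Ψ' ω) E
      fun ω => (Ψ' ω, C ω, x.S ω)
    have a5 := (ch_le_hh (P := x.P) E fun ω => (Ψ' ω, C ω, x.S ω)).trans (hh_ev x.P E)
    have a6 := ch_detE (P := x.P) (F := fun ω => if E ω then Ψ' ω ∪ {φ ω} else Ψ' ω)
      (G := fun ω => (E ω, Ψ' ω, C ω, x.S ω)) (fun ω => if E ω then f x.d.L else 1)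
      (fun a _ b _ e => by simp only [show E a = E b from congrArg Prod.fst e]) fun a ha => by
        by_cases e : E a
        · obtain ⟨T, t1, t2⟩ := ls a ha
          refine ⟨T.image fun y => Ψ' a ∪ {φ (@Classical.epsilon Ω ⟨a⟩ fun v => v ∈ x.P.S ∧
            x.nc O Z s Ψ' C v = y)}, by
              rw [if_pos e]; exact (Nat.cast_le.2 card_image_le).trans t1, fun b hb k => ?_⟩
          have k1 : E b = E a ∧ (Ψ' b, C b, x.S b) = (Ψ' a, C a, x.S a) := Prod.ext_iff.1 k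
          have k2 := @Classical.epsilon_spec_aux Ω ⟨a⟩ (fun v => v ∈ x.P.S ∧
            x.nc O Z s Ψ' C v = x.nc O Z s Ψ' C b) ⟨b, hb, rfl⟩
          refine mem_image.2 ⟨_, t2 b hb k1.2, ?_⟩
          rw [fφ _ k2.1 b hb k2.2, if_pos (k1.1.symm ▸ e : E b),
            show Ψ' b = Ψ' a from congrArg Prod.fst k1.2]
        · refine ⟨{Ψ' a}, by simp [e], fun b hb k => ?_⟩
          have k1 : E b = E a ∧ (Ψ' b, C b, x.S b) = (Ψ' a, C a, x.S a) := Prod.ext_iff.1 k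
          rw [if_neg (k1.1.symm ▸ e : ¬E b)]
          exact mem_singleton.2 (Prod.ext_iff.1 k1.2).1
    rw [x.P.E_congr (G := fun ω => if E ω then Real.log (f x.d.L) else 0) fun ω _ => by
      split_ifs <;> simp, E_if] at a6
    nlinarith [mul_le_mul_of_nonneg_left (a3.trans (add_le_add_right (a4.trans
      (add_le_add a5 a6)) _)) hΛ]

end Pool.Agent.MP_5168f5_an.QA.Cp
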