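import Pool.Agent.MP_5168f5_an.QA.CpCh

/-! The Kakeya maximal estimate: existence of the chain of caps, total leak, rates. -/

namespace Pool.Agent.MP_5168f5_an.QA.Cp

open H19 H17S H17F AN AN.GA AN.N6 Matrix Finset H61Z

variable {ι κ α Ω Λ Λ' ζ : Type} [Fintype ι] [DecidableEq ι] [Fintype κ] [DecidableEq κ]
  [Fintype α]

theorem ex_seq {X : Type} (I : ℕ → X → Prop) (R : ℕ → X → X → Prop) (m : ℕ) {x₀ : X} (h0 : I 0 x₀)
    (h : ∀ k < m, ∀ x, I k x → ∃ y, I (k + 1) y ∧ R k x y) :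
    ∃ u : ℕ → X, u 0 = x₀ ∧ (∀ k ≤ m, I k (u k)) ∧ ∀ k < m, R k (u k) (u (k + 1)) := by
  classical
  let F : ℕ → X → X := fun k x => if e : ∃ y, I (k + 1) y ∧ R k x y then e.choose else x
  let u : ℕ → X := fun k => Nat.rec x₀ F k
  have s : ∀ k < m, I k (u k) → I (k + 1) (u (k + 1)) ∧ R k (u k) (u (k + 1)) := fun k a b => by
    have e := h k a _ b
    rw [show u (k + 1) = e.choose from dif_pos e]
    exact e.choose_spec
  have i : ∀ k ≤ m, I k (u k) := fun k => by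
    induction k with
    | zero => exact fun _ => h0
    | succ k ih => exact fun a => (s k a (ih (Nat.le_of_succ_le a))).1
  exact ⟨u, rfl, i, fun k a => (s k a (i k a.le)).2⟩

theorem in_S0 {x : κ → ℝ} : In (S0 κ) x ↔ ∀ a, |x a| ≤ 1 := by
  simp [In, S0]

omit [Fintype α] in
/-- The coordinate forms are admissible. -/
theorem good_S0 {d : Da κ α} (h1 : ∀ b, 1 ≤ d.fl b) (h2 : ∀ i b, |d.A i b| ≤ d.L)
    {H : ℝ} (h3 : ∀ a b e, |d.h a b e| ≤ H) (h4 : Fintype.card κ ^ 2 * H ≤ d.L) :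
    d.Good (S0 κ) := by
  refine ⟨?_, ?_, fun a => ⟨a, rfl⟩⟩
  · rintro _ ⟨a, rfl⟩; exact ⟨_, hg_one _ a⟩
  · rintro _ ⟨a, rfl⟩
    refine ⟨fun b => ?_, fun i => by simpa using h2 i a, fun x y u v => ?_⟩
    · have := h1 b
      simp only [Pi.single_apply]
      split_ifs <;> simp <;> linarith
    · have := GABoxA.bx (c := d.h) (r := 1) (r' := 1) (L := H) (X := 1) (Y := 1) le_rfl
        ((abs_nonneg _).trans (h3 a a a)) one_pos.le one_pos.le (fun _ => one_pos.le)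
        (fun a b e => by simpa using h3 a b e) (fun b => by simpa using in_S0.1 u b)
        (fun b => by simpa using in_S0.1 v b) a
      simp only [single_dotProduct, one_mul, mul_one, Pi.one_apply] at this ⊢
      exact this.trans h4

/-- The chain exists. -/
theorem chain (α : Type) [Fintype α] (κ : Type) [Fintype κ] [DecidableEq κ] (Φ : Filt (Mt ι)) :
    ∃ f, PG f ∧ ∀ (Ω Λ Λ' ζ : Type) (x : Sp ι κ α Ω Λ') (O : ℕ → Ω → Λ) (Z : ℕ → Ω → ζ)
    (s : ℕ → ℝ) (m : ℕ) (τ La ε : ℝ), (∀ k < m, x.Hy Φ (O (k + 1)) (Z (k + 1)) (s (k + 1))) →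
    (∀ k < m, Fn x.P (O k) (O (k + 1))) → Fn x.P (Z 0) (O 0) → Fn x.P (Z 0) x.S →
    (∀ ω ∈ x.P.S, (x.D ω).Good (S0 κ)) → 1 ≤ x.d.L → 0 < τ → τ ≤ 1 → 0 ≤ La → 0 < ε →
    ∃ (Ψ : ℕ → Ω → Set (κ → ℝ)) (C : ℕ → Ω → Ce ι κ ζ), (Ψ 0 = fun _ => S0 κ) ∧
      (C 0 = fun ω => [(Z 0 ω, S0 κ, 1)]) ∧
      (∀ k < m, x.St (O (k + 1)) (Z (k + 1)) (s (k + 1)) τ La ε (f x.d.L) (Ψ k) (Ψ (k + 1))
        (C k) (C (k + 1))) ∧
      ∀ k ≤ m, La * ch x.P (C k) x.S ≤
        x.W (Ψ k) + k * (La * (Real.log (N1 κ τ) + Real.log (f x.d.L)) + ε) := by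
  obtain ⟨f, pf, hf⟩ := step (ι := ι) α κ Φ
  refine ⟨f, pf, fun Ω Λ Λ' ζ x O Z s m τ La ε h n z1 z2 g hL h0 h1 hΛ hε => ?_⟩
  obtain ⟨u, u0, -, u2⟩ := ex_seq (X := (Ω → Set (κ → ℝ)) × (Ω → Ce ι κ ζ))
    (fun k y => Fn x.P y.1 y.2 ∧ Fn x.P y.2 (O k) ∧ ∀ ω ∈ x.P.S, (x.D ω).Good (y.1 ω))
    (fun k y y' => x.St (O (k + 1)) (Z (k + 1)) (s (k + 1)) τ La ε (f x.d.L) y.1 y'.1 y.2 y'.2) m
    (x₀ := (fun _ => S0 κ, fun ω => [(Z 0 ω, S0 κ, 1)]))
    ⟨fun _ _ _ _ _ => rfl, fun a ha b hb e => by simp only [z1 a ha b hb e], g⟩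
    fun k a y i => by
      obtain ⟨Ψ', C', t⟩ := hf Ω Λ Λ' ζ x _ _ _ τ La ε y.1 y.2 (h k a) hL h0 h1 hΛ hε i.1
        (i.2.1.trans (n k a)) i.2.2
      exact ⟨(Ψ', C'), ⟨(Fn.snd _ _).trans t.fz, t.fo, fun ω e => (t.nx.2 ω e).1⟩, t⟩
  refine ⟨fun k => (u k).1, fun k => (u k).2, congrArg _ u0, congrArg _ u0, u2, fun k => ?_⟩
  induction k with
  | zero =>
    intro _
    simp only []
    rw [u0, ch_zero fun a ha b hb e => by simp only [z2 a ha b hb e]]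
    have : 0 ≤ x.W fun _ => S0 κ := x.P.E_nonneg fun ω e => Real.log_nonneg (by
      simpa using (g ω e).fu.low (wt := x.d.wt))
    simpa using this
  | succ k ih =>
    intro a
    have := (u2 k a).leak
    have := ih (Nat.le_of_succ_le a)
    push_cast
    linarith

omit [Fintype α] in
/-- Characters that vanish on the directions shrink at a definite rate. -/
theorem rate {d : Da κ α} {τ t μ : ℝ} (hL : 0 ≤ d.L) (h0 : 0 < τ) (h1 : τ ≤ 1)
    (S : ℕ → Set (κ → ℝ)) (i : ℕ) (g : ∀ k ≤ i, d.Good (S k))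
    (s : ∀ k < i, d.sub (S k) τ ⊆ S (k + 1)) {φ : κ → ℝ} (u : Hg d.wt μ φ)
    (b : ∀ x, In (S 0) x → |φ ⬝ᵥ x| ≤ 1) (o : d.Ok (S 0) t φ)
    (ht : ∀ k < i, t ≤ τ / 2 * (3 * Fintype.card κ * τ) ^ k) :
    ∀ x, In (S i) x → |φ ⬝ᵥ x| ≤ (3 * Fintype.card κ * τ) ^ i := by
  rcases isEmpty_or_nonempty κ with e | e
  · intro x _
    have : φ ⬝ᵥ x = 0 := by simp [dotProduct]
    rw [this, abs_zero]
    positivity
  have k0 : (0 : ℝ) < Fintype.card κ := by exact_mod_cast Fintype.card_pos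
  have q0 : 0 < 3 * Fintype.card κ * τ := by positivity
  have mo : ∀ k ≤ i, S 0 ⊆ S k := fun k => by
    induction k with
    | zero => exact fun _ => subset_rfl
    | succ k ih => exact fun a => (ih (Nat.le_of_succ_le a)).trans
                    (Set.subset_union_left.trans (s k a))
  have key : ∀ k ≤ i, ∀ x, In (S k) x → |φ ⬝ᵥ x| ≤ (3 * Fintype.card κ * τ) ^ k := fun k => by
    induction k with
    | zero => simpa using b
    | succ k ih =>
      intro a x hx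
      have p := pow_pos q0 k
      have o' := (o.anti (mo k (Nat.le_of_succ_le a))).smul ((3 * Fintype.card κ * τ) ^ k)⁻¹
      have l : |((3 * Fintype.card κ * τ) ^ k)⁻¹| * t ≤ τ / 2 := by
        rw [abs_of_pos (inv_pos.2 p), inv_mul_le_iff₀ p, mul_comm]; exact ht k a
      have := (g k (Nat.le_of_succ_le a)).rate h0 h1 (s k a)
        (φ := ((3 * Fintype.card κ * τ) ^ k)⁻¹ • φ) ⟨⟨μ, u.smul _⟩, fun y hy => by
          rw [smul_dotProduct, smul_eq_mul, abs_mul, abs_of_pos (inv_pos.2 p), inv_mul_le_iff₀ p,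
            mul_one]
          exact ih (Nat.le_of_succ_le a) y hy,
        fun c => (o'.f c).trans (mul_le_mul_of_nonneg_right l
          (by linarith [(g 0 (Nat.zero_le _)).fl1 c])),
        fun c => (o'.a c).trans (mul_le_mul_of_nonneg_right l hL),
        fun y z v w => (o'.c y z v w).trans (mul_le_mul_of_nonneg_right l hL)⟩ hx
      rwa [smul_dotProduct, smul_eq_mul, abs_mul, abs_of_pos (inv_pos.2 p), inv_mul_le_iff₀ p,
        ← pow_succ] at this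
  exact key i le_rfl

end Pool.Agent.MP_5168f5_an.QA.Cp
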