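import Pool.Agent.MP_5168f5_an.QA.CpSub
import Pool.Agent.MP_5168f5_an.QA.HDefs
import Pool.Agent.MP_5168f5_an.AN.Defs
import Pool.Agent.MP_5168f5_an.AN.S20Dn

/-! The Kakeya maximal estimate: the filtered system before the caps, definitions. -/

namespace Pool.Agent.MP_5168f5_an.QA.Cp

open H19 H17S H17F R4 AN Filter Matrix
open GA (Mt IsFr Nr lg Wd br)
open S20 (dn)

/-- The constants. Indices of weight zero are dead. -/
structure Cs (ι κ α : Type) [Fintype ι] [DecidableEq ι] : Type where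
  Φ : H61Z.Filt (Mt ι)
  μ : κ → ℝ
  η : α → ℝ
  pos : κ → Prop
  τ : κ
  g : ℝ
  L₀ : ℝ
  L₁ : ℝ
  be : ℝ
  kf : ℕ → ℕ

/-- The data on one space: the line `l`, the windows `z`, the fine label `S`, the coarse label
`T`, the group element `j`, the frame, the directions `A` and the height `zt`. -/
structure Pd (ι κ α : Type) : Type 1 where
  Ω : Type
  L : Type
  Z : Type
  Λ : Type
  Λ' : Type
  P : FP Ω
  M : ℕ
  l : Ω → L
  z : ℚ → Ω → Z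
  S : Ω → Λ
  T : Ω → Λ'
  j : Ω → Mt ι
  B : Ω → κ → Mt ι
  c : Ω → κ → κ → κ → ℝ
  A : Ω → α → κ → ℝ
  zt : Ω → ℝ

/-- A homogeneous triple of live indices. -/
def Hw {κ : Type} (μ : κ → ℝ) (a b e : κ) : Prop := 0 < μ a ∧ 0 < μ b ∧ μ e = μ a + μ b

open Classical in
/-- The homogeneous part of the constants. -/
noncomputable def hc {κ : Type} (μ : κ → ℝ) (c : κ → κ → κ → ℝ) : κ → κ → κ → ℝ :=
  fun a b e => if Hw μ a b e then c a b e else 0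

open Classical in
/-- The floor: `F` on the live indices and one on the dead indices. -/
noncomputable def flr {κ : Type} (μ : κ → ℝ) (F : ℝ) : κ → ℝ := fun b => if 0 < μ b then F else 1

variable {ι κ α : Type} [Fintype ι] [DecidableEq ι] [Fintype κ] [DecidableEq κ]

open Classical in
/-- The sum of the lateral weights. -/
noncomputable def Cs.m (σ : Cs ι κ α) : ℝ :=
  ∑ a ∈ Finset.univ.filter fun a => σ.pos a ∧ a ≠ σ.τ, σ.μ a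

namespace Pd

variable (σ : Cs ι κ α) (X : Pd ι κ α)

/-- The pieces. -/
def O (x : ℚ) (ω : X.Ω) : X.L × X.Z := (X.l ω, X.z x ω)

/-- The logarithmic coordinates of an increment. -/
noncomputable def t (ω v : X.Ω) : κ → ℝ := lg (X.B ω) (X.j ω) (X.j v)

/-- The data for the caps. -/
noncomputable def da (F L : ℝ) (ω : X.Ω) : Da κ α :=
  ⟨σ.μ, flr σ.μ F, L, hc σ.μ (X.c ω), X.A ω⟩

/-- The algebra at one point, with the loss `u`. -/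
structure Alg (u : ℝ) (ω : X.Ω) : Prop where
  unit : IsUnit (X.j ω)
  fr : IsFr σ.Φ (X.B ω) (X.c ω)
  ob : ∀ a b e, |X.c ω a b e| ≤ Real.exp u
  gr : ∀ a b e, 0 < σ.μ e → ¬Hw σ.μ a b e →
    |X.c ω a b e| ≤ Real.exp (u - max σ.g (σ.μ e - σ.μ a - σ.μ b) * X.M)
  sub : ∀ a b e, 0 < σ.μ a → 0 < σ.μ b → ¬σ.pos a → ¬σ.pos b → σ.pos e →
    |X.c ω a b e| ≤ Real.exp (u - σ.g * X.M)
  chi : ∀ a b, |X.c ω a b σ.τ| ≤ Real.exp (u - σ.g * X.M)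
  hg : ∀ i, Hg σ.μ (σ.η i) (X.A ω i)
  bA : ∀ i b, |X.A ω i b| ≤ Real.exp u
  long : ∃ i, Real.exp (-u) ≤ |X.A ω i σ.τ|
  cur : ∀ i i' b, σ.pos b →
    |X.A ω i b * X.A ω i' σ.τ - X.A ω i' b * X.A ω i σ.τ| ≤ Real.exp (u - σ.g * X.M)

/-- The word `w` in the directions lies in the stabiliser. -/
def Cur (w : Wd α) (u : ℝ) : Prop := ∀ ω ∈ X.P.S, ∀ b, σ.pos b →
  |w.ev (br (hc σ.μ (X.c ω))) (X.A ω) b| ≤ Real.exp (u - σ.g * X.M)

/-- The fine label locates the group element at depth one. -/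
def Near (u : ℝ) : Prop := ∀ ω ∈ X.P.S, ∀ v ∈ X.P.S, X.S ω = X.S v →
  Nr (X.B ω) (fun b => Real.exp (-(σ.μ b * X.M))) (Real.exp u) (X.j ω) (X.j v)

variable [Fintype α]

/-- Increments inside a piece of depth `x`. -/
def Inc (x : ℚ) (u : ℝ) : Prop := ∀ ω ∈ X.P.S, ∀ v ∈ X.P.S, X.O x ω = X.O x v →
  X.j v = X.j ω * GA.ex (X.B ω) (X.t ω v) ∧ ∃ s : α → ℝ, (∀ i, |s i| ≤ Real.exp u) ∧ ∀ b,
    (σ.μ b = 0 → |X.t ω v b| ≤ Real.exp u) ∧ (0 < σ.μ b →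
      |X.t ω v b - ∑ i, s i * Real.exp (-(σ.η i * (x * X.M))) * X.A ω i b| ≤
        Real.exp (u - (σ.μ b * x + σ.g * (1 - x)) * X.M))

/-- Anti-concentration of pairs inside a piece of depth `x`. -/
def Ac (x : ℚ) (u : ℝ) : Prop := ∀ ω ∈ X.P.S, ∀ (h : ℝ) (φ : κ → ℝ) (E : X.Ω → Prop),
  (∀ b, (σ.μ b = 0 → φ b = 0) ∧ |φ b| ≤ Real.exp ((σ.μ b * x + σ.g * (1 - x)) * X.M - h - u)) →
  (∃ i, Real.exp (σ.η i * (x * X.M)) ≤ |φ ⬝ᵥ X.A ω i|) →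
  (∀ v ∈ X.P.S, ∀ v' ∈ X.P.S, X.O x v = X.O x ω → X.O x v' = X.O x ω → E v → E v' →
    |φ ⬝ᵥ X.t v v'| ≤ Real.exp (-h)) →
  pb (cv X.P (X.O x) (X.O x ω)) E ≤ Real.exp (u - h / σ.L₁)

/-- The marked coordinate is the height. -/
def Tt (u : ℝ) : Prop := ∀ ω ∈ X.P.S, ∀ v ∈ X.P.S, X.O 0 ω = X.O 0 v →
  |X.t ω v σ.τ - (X.zt v - X.zt ω)| ≤ Real.exp (u - σ.μ σ.τ * X.M)

end Pd

section Seq

variable [Fintype α] (σ : Cs ι κ α) (X : ℕ → Pd ι κ α)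

/-- The laws. -/
abbrev sP : ∀ n, FP (X n).Ω := fun n => (X n).P

/-- The units. -/
abbrev sM : ℕ → ℕ := fun n => (X n).M

/-- Eventually, for every loss. -/
def Ev (p : ℕ → ℝ → Prop) : Prop := ∀ ε : ℝ, 0 < ε → ∀ᶠ n in UF, p n (ε * (X n).M)

/-- A cheap label of the pieces does not carry a deep cap. -/
def Acw : Prop := ∀ (x : ℚ) (r C : ℝ) (β : ℕ → Type) (K : ∀ n, (X n).Ω → β n)
  (Ps : ∀ n, (X n).Ω → Set (κ → ℝ)) (L : ℕ → ℝ), 0 ≤ x → x < 1 → 0 < r → Sub (sM X) L →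
  FnE (sP X) K (fun n => (X n).O x) → FnE (sP X) (fun n => (X n).T) K → FnE (sP X) Ps K →
  (∀ᶠ n in UF, ∀ ω ∈ (X n).P.S, ((X n).da σ (Real.exp (C * (X n).M)) (L n) ω).Good (Ps n ω)) →
  Whp (sP X) fun n ω => Real.log (vl σ.μ (Ps n ω)) ≤ r * (X n).M ∨
    min r (1 - x) / σ.L₀ * (X n).M ≤ -Real.log (dn (X n).P (K n) (X n).S ω)

/-- The filtered system. -/
structure PreG : Prop where
  big : Big (sM X)
  g0 : 0 < σ.g
  l0 : 0 < σ.L₀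
  l1 : 0 < σ.L₁
  be0 : 0 < σ.be
  wt : ∀ a, σ.μ a = 0 ∨ σ.g ≤ σ.μ a
  et : ∀ i, 0 < σ.η i
  live : ∀ a, σ.pos a → 0 < σ.μ a
  tau : σ.pos σ.τ
  nest : ∀ x x' : ℚ, 0 ≤ x → x ≤ x' → x' ≤ 1 →
    FnE (sP X) (fun n => (X n).z x) fun n => (X n).z x'
  zT : FnE (sP X) (fun n => (X n).z 0) fun n => (X n).T
  zS : FnE (sP X) (fun n => (X n).z 1) fun n => (X n).S
  tS : FnE (sP X) (fun n => (X n).T) fun n => (X n).S
  tO : FnE (sP X) (fun n => (X n).T) fun n => (X n).O 0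
  fB : FnE (sP X) (fun n ω => ((X n).B ω, (X n).c ω)) fun n => (X n).T
  fA : FnE (sP X) (fun n => (X n).A) fun n => (X n).O 0
  alg : Ev X fun n u => ∀ ω ∈ (X n).P.S, (X n).Alg σ u ω
  cur : ∀ w : Wd α, 2 ≤ w.len → Ev X fun n => (X n).Cur σ w
  near : Ev X fun n => (X n).Near σ
  inc : ∀ x : ℚ, 0 ≤ x → x ≤ 1 → Ev X fun n => (X n).Inc σ x
  ac : ∀ x : ℚ, 0 ≤ x → x ≤ 1 → Ev X fun n => (X n).Ac σ x
  tt : Ev X fun n => (X n).Tt σ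
  ht : ∀ (i : ℕ) (x x' : ℚ), 0 ≤ x → x ≤ x' → x' ≤ 1 → HT1 (σ.kf i) (sP X)
    (fun n ω => Real.exp (σ.μ σ.τ * (x' * (X n).M)) * (X n).zt ω) (fun n => (X n).O x) (sM X)
    fun n => (1 - 1 / (i + 1 : ℝ)) * (σ.μ σ.τ * ((x' - x) * (X n).M))
  top : Le (sM X) (fun n => mi (X n).P (X n).l (X n).S (X n).T) fun n => (σ.m - σ.be) * (X n).M
  acw : Acw σ X

end Seq

end Pool.Agent.MP_5168f5_an.QA.Cp
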