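import Pool.Agent.MP_5168f5_an.QA.CpFrD
import Pool.Agent.MP_5168f5_an.QA.FrAx

/-! The Kakeya maximal estimate: one homogeneous frame for all caps. -/

namespace Pool.Agent.MP_5168f5_an.QA.Cp.T2

open H19 H17S H17F AN Filter Matrix
open G39 (dl)
open C1 (Dg rho)
open Fr (Su)

variable {κ : Type} [Fintype κ] [DecidableEq κ]

namespace BlkA

/-- Extension by zero, as a linear map. -/
noncomputable def exL (I : κ → Prop) : ({a // I a} → ℝ) →ₗ[ℝ] κ → ℝ where
  toFun := ext I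
  map_add' y z := funext fun a => by by_cases h : I a <;> simp [ext, h]
  map_smul' c y := funext fun a => by by_cases h : I a <;> simp [ext, h]

omit [Fintype κ] [DecidableEq κ] in
theorem exL_inj (I : κ → Prop) : Function.Injective (exL I) := fun y z h => funext fun a => by
  simpa [exL, ext, a.2] using congrFun h a.1

variable {wt : κ → ℝ} {S S' : Set (κ → ℝ)} {D D' E : ℝ}

theorem hb_ext (I : κ → Prop) (h : Fu S 1 D) : C1.Hb fun y => nS wt S (ext I y) :=
  hb_lin ((fm wt S).mulVecLin ∘ₗ exL I)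
    ((mulVec_injective_iff_isUnit.2 ((isUnit_iff_isUnit_det _).2 h.unit)).comp (exL_inj I))

theorem nS_up (h : Fu S 1 D) (h' : Fu S' 1 D') (hg : ∀ φ ∈ S, ∃ μ, Hg wt μ φ) (e : S ⊆ S')
    (v : vl wt S' ≤ E * vl wt S) (y : κ → ℝ) : nS wt S' y ≤
      Fintype.card κ * (2 * Fintype.card κ * E * (2 * Fintype.card κ * nS wt S y)) := by
  have p := h.vl_pos (wt := wt)
  have E0 : 0 ≤ E := nonneg_of_mul_nonneg_left (h'.vl_pos.le.trans v) p
  have t0 : 0 ≤ 2 * Fintype.card κ * nS wt S y := by have := (hb_nS (wt := wt) h).nonneg y; positivity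
  refine nS_le h' fun φ k ⟨μ, u⟩ => ?_
  rcases (abs_nonneg (φ ⬝ᵥ y)).eq_or_lt with z | z
  · rw [← z]; positivity
  rcases t0.eq_or_lt with t | t
  · have : y = 0 := funext fun b => abs_nonpos_iff.1 ((coord_le h y b).trans t.ge)
    simp [this] at z
  have i : In S ((2 * Fintype.card κ * nS wt S y)⁻¹ • y) := fun ψ a => by
    obtain ⟨r, b⟩ := hg ψ a
    rw [dotProduct_smul, smul_eq_mul, abs_mul, abs_of_pos (inv_pos.2 t), inv_mul_le_iff₀ t, mul_one]
    exact dot_le h a b y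
  have g := h.gain h' e k u i (R := (2 * Fintype.card κ * nS wt S y)⁻¹ * |φ ⬝ᵥ y|) (by positivity)
    (by rw [dotProduct_smul, smul_eq_mul, abs_mul, abs_of_pos (inv_pos.2 t)])
  have g2 := le_of_mul_le_mul_right (g.trans ((mul_le_mul_of_nonneg_left v
    (by positivity)).trans_eq (mul_assoc _ _ _).symm)) p
  rwa [inv_mul_le_iff₀ t, mul_comm] at g2

variable {g0 : κ → Prop} {τ : κ} {sg : ℝ} {Ω : ℕ → Type} {P : ∀ n, FP (Ω n)} {M : ℕ → ℕ}
  {N : ℕ → ℝ} {T : ℚ → ∀ n, Ω n → Set (κ → ℝ)}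

theorem lip (h : FI wt g0 τ sg P M N T) (x x' : ℚ) : Su P M fun n ω Γ => ∀ y, nS wt (T x n ω) y ≤
    Γ * Real.exp (|sg| * |(x : ℝ) - x'| * M n) * nS wt (T x' n ω) y := Fr.su_eps fun ε hε => by
  have k1 : (1 : ℝ) ≤ Fintype.card κ := Nat.one_le_cast.2 (Fintype.card_pos_iff.2 ⟨τ⟩)
  have c := Fr.sq_const h.big (4 * (Fintype.card κ : ℝ) ^ 3) _ (half_pos hε)
  rcases le_total x x' with e | e
  · filter_upwards [c, h.cap x, h.cap x', h.nest x x' e] with n a b b' d ω hω y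
    obtain ⟨D, f⟩ := (b ω hω).1
    obtain ⟨D', f'⟩ := (b' ω hω).1
    have p := (hb_nS (wt := wt) f').nonneg y
    refine (nS_mono f f' (d ω hω) y).trans ?_
    have q1 := (a.trans (Fr.ex_mono (by linarith : 0 + ε / 2 ≤ 0 + ε) n)).trans
      (le_mul_of_one_le_right (Real.exp_pos _).le
        (Real.one_le_exp (x := |sg| * |(x : ℝ) - x'| * M n) (by positivity)))
    refine le_trans ?_ (mul_le_mul_of_nonneg_right q1 p)
    have q2 : (Fintype.card κ : ℝ) * (2 * Fintype.card κ) ≤ 4 * (Fintype.card κ : ℝ) ^ 3 := by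
      nlinarith [mul_le_mul_of_nonneg_left k1 (sq_nonneg (Fintype.card κ : ℝ))]
    linarith [mul_le_mul_of_nonneg_right q2 p]
  · filter_upwards [c, h.cap x, h.cap x', h.nest x' x e, h.top x' x _ e (half_pos hε)]
      with n a b b' d t ω hω y
    obtain ⟨D, f⟩ := (b ω hω).1
    obtain ⟨D', f'⟩ := (b' ω hω).1
    have p := (hb_nS (wt := wt) f').nonneg y
    refine (nS_up f' f (fun φ k => ((b' ω hω).2 φ k).1) (d ω hω) (t ω hω) y).trans ?_
    have q1 : Real.exp ((0 + ε / 2) * M n) * Real.exp ((sg * (x - x') + ε / 2) * M n) ≤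
        Real.exp ((0 + ε) * M n) * Real.exp (|sg| * |(x : ℝ) - x'| * M n) := by
      rw [← Real.exp_add, ← Real.exp_add, Real.exp_le_exp, ← abs_mul]
      linarith [mul_le_mul_of_nonneg_right (le_abs_self (sg * (x - x'))) (Nat.cast_nonneg (M n))]
    have q2 := (mul_le_mul_of_nonneg_right a (Real.exp_pos _).le).trans q1
    linarith [mul_le_mul_of_nonneg_right q2 p]

omit [Fintype κ] [DecidableEq κ] in
theorem dg_eq {V ι : Type} [AddCommGroup V] [Module ℝ V] {i j : Fintype ι} {ν : V → ℝ}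
    {e e' : ι → V} {l l' : ι → ℝ} {L : ℝ} (h : @Dg V _ _ ι i ν e l L) (a : e' = e) (b : l' = l) :
    @Dg V _ _ ι j ν e' l' L := by
  subst a b
  cases Subsingleton.elim i j
  exact h

open Classical in
theorem blk (h : FI wt g0 τ sg P M N T) (i : Option κ) :
    ∃ (v : {a // bk wt g0 i a} → ℝ) (f : ∀ n, Ω n → {a // bk wt g0 i a} → {a // bk wt g0 i a} → ℝ),
      ∀ x : ℚ, Su P M fun n ω Γ => Dg (fun y => nS wt (T x n ω) (ext (bk wt g0 i) y)) (f n ω)
        (fun a => Real.exp (v a * (x * M n))) Γ := by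
  choose! c s hc using h.vol i
  obtain ⟨kk, nf⟩ := Fr.sAx _ (Fintype.card {a // bk wt g0 i a}) Ω P M nB
    (fun x n ω y => nS wt (T x n ω) (ext (bk wt g0 i) y)) (fun k n => -(c k * N n))
    (fun k => -s k) |sg|
    ⟨h.big, Module.finrank_fintype_fun_eq_card ℝ, hb_nB,
      fun x => (h.cap x).mono fun n a ω hω => (a ω hω).1.elim fun _ f => hb_ext _ f,
      fun x k ε e hε => (hc k (e.trans (Fintype.card_subtype_le _)) x ε hε).mono fun n a ω hω =>
        le_of_eq_of_le (by unfold ob; congr 1; ring) (a ω hω),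
      fun x x' => (lip h x x').imp fun Γ a => ⟨a.1, a.2.mono fun n b ω hω y => b ω hω _⟩⟩
    fun a b => by
      rcases le_or_gt (c (a + 1) - c a - (c (b + 1) - c b)) 0 with e | e
      · refine Or.inl (Le.of_ev ((h.far 0).mono fun n k => ?_))
        nlinarith [mul_nonpos_of_nonpos_of_nonneg e (by simpa using k : 0 ≤ N n)]
      · refine Or.inr fun K => (h.far (K / (c (a + 1) - c a - (c (b + 1) - c b)))).mono fun n k => ?_
        rw [div_mul_eq_mul_div, div_le_iff₀ e] at k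
        linarith
  obtain ⟨f, hf⟩ := Fr.sFr _ _ _ _ _ _ _ _ _ _ _ nf
  refine ⟨fun a => s (Fintype.equivFin _ a + 1) - s (Fintype.equivFin _ a),
    fun n ω => f n ω ∘ Fintype.equivFin _, fun x => (hf.dg x).imp fun Γ a =>
      ⟨a.1, a.2.mono fun n b ω hω => ?_⟩⟩
  refine dg_eq ((b ω hω).perm (Fintype.equivFin _)) rfl (funext fun a => ?_)
  simp only [Function.comp, dl]
  ring_nf

/-- The frame of one weight. -/
def Bk (wt : κ → ℝ) (S : Set (κ → ℝ)) (r : ℝ) (G : Matrix κ κ ℝ) (l : κ → ℝ) (Γ : ℝ) : Prop :=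
  ∀ b, wt b = r → nS wt S (G b) ≤ Γ * l b ∧ ∀ c : κ → ℝ, |c b| * l b ≤ Γ * nS wt S (c ᵥ* G)

open Classical in
/-- Extension of a frame by zero. -/
noncomputable def exM (I : κ → Prop) (f : {a // I a} → {a // I a} → ℝ) : Matrix κ κ ℝ :=
  Matrix.of fun b => if k : I b then ext I (f ⟨b, k⟩) else 0

omit [Fintype κ] [DecidableEq κ] in
theorem exM_pos {I : κ → Prop} (f : {a // I a} → {a // I a} → ℝ) (b : {a // I a}) :
    exM I f b = ext I (f b) := dif_pos b.2

omit [Fintype κ] [DecidableEq κ] in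
theorem exM_neg {I : κ → Prop} (f : {a // I a} → {a // I a} → ℝ) {b : κ} (k : ¬I b) :
    exM I f b = 0 := dif_neg k

open Classical in
theorem exM_vec {I : κ → Prop} (f : {a // I a} → {a // I a} → ℝ) (c : κ → ℝ) :
    c ᵥ* exM I f = ext I (∑ j, c j.1 • f j) := by
  change _ = exL _ _
  rw [map_sum, vecMul_eq_sum, ← Fintype.sum_subtype_add_sum_subtype I,
    Finset.sum_eq_zero (s := (Finset.univ : Finset {a // ¬I a})) fun j _ => by
      rw [exM_neg f j.2, smul_zero], add_zero]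
  exact Finset.sum_congr rfl fun j _ => by rw [exM_pos, map_smul]; rfl

open Classical in
theorem blk' (h : FI wt g0 τ sg P M N T) (r : ℝ) :
    ∃ (v : κ → ℝ) (G : ∀ n, Ω n → Matrix κ κ ℝ), (∀ n ω b, Hg wt r (G n ω b)) ∧
      (∀ n ω b, wt b ≠ r → G n ω b = 0) ∧ ∀ x : ℚ, Su P M fun n ω Γ =>
        Bk wt (T x n ω) r (G n ω) (fun a => Real.exp (v a * (x * M n))) Γ := by
  by_cases e : ∃ a, wt a = r
  · obtain ⟨a, rfl⟩ := e
    obtain ⟨v, f, hf⟩ := blk h (some a)
    refine ⟨ext _ v, fun n ω => exM _ (f n ω), fun n ω b p k => ?_, fun n ω b k => exM_neg _ k,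
      fun x => (hf x).imp fun Γ d =>
        ⟨d.1, d.2.mono fun n d ω hω b (k : bk wt g0 (some a) b) => ⟨?_, fun c => ?_⟩⟩⟩
    · by_contra z
      refine k ?_
      by_cases y : bk wt g0 (some a) b
      · exact (congrFun (exM_pos (f n ω) ⟨b, y⟩) p).trans (dif_neg z)
      · exact congrFun (exM_neg (f n ω) y) p
    · simp only [ext, dif_pos k]
      rw [exM_pos (f n ω) ⟨b, k⟩]
      exact (d ω hω).1 ⟨b, k⟩
    · simp only [ext, dif_pos k]
      rw [exM_vec]
      exact (d ω hω).2 (fun j => c j.1) ⟨b, k⟩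
  · exact ⟨0, 0, fun _ _ _ _ k => (k rfl).elim, fun _ _ _ _ => rfl, fun x =>
      ⟨_, h.big.sub le_rfl, .of_forall fun _ _ _ b k => (e ⟨b, k⟩).elim⟩⟩

theorem cut (f : Fu S 1 D) {G : ℝ → Matrix κ κ ℝ} (g : ∀ r b, Hg wt r (G r b))
    (z : ∀ r b, wt b ≠ r → G r b = 0) (r : ℝ) (c : κ → ℝ) :
    nS wt S (c ᵥ* G r) ≤ nS wt S (∑ j, c j • G (wt j) j) := nB_le fun e => by
  have u := (f.fm (wt := wt)).1 e
  change |fm wt S e ⬝ᵥ _| ≤ |fm wt S e ⬝ᵥ _|
  rw [vecMul_eq_sum, dotProduct_sum, dotProduct_sum]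
  by_cases k : wt e = r
  · refine le_of_eq (congrArg _ (Finset.sum_congr rfl fun j _ => ?_))
    by_cases y : wt j = r
    · rw [y]
    · rw [z r j y, dotProduct_smul, dotProduct_smul, dotProduct_zero,
        u.2.dot (g _ j) fun q => y (q.symm.trans k)]
  · rw [Finset.sum_eq_zero fun j _ => by rw [dotProduct_smul, u.2.dot (g r j) k, smul_zero],
      abs_zero]
    exact abs_nonneg _

end BlkA

open BlkA in
theorem sBlk : SBlk := by
  intro κ _ _ wt g0 τ sg Ω P M N T h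
  choose v G g z hG using blk' h
  have key : ∀ x : ℚ, Su P M fun n ω Γ => Dg (nS wt (T x n ω)) (fun a => G (wt a) n ω a)
      (fun a => Real.exp (v (wt a) a * (x * M n))) Γ := fun x => Fr.su_eps fun ε hε => by
    choose Γ a b using fun a => hG (wt a) x
    filter_upwards [eventually_all.2 fun j => (a j).2 ε hε, eventually_all.2 b, h.cap x]
      with n a b d ω hω
    obtain ⟨D, f⟩ := (d ω hω).1
    rw [zero_add]
    refine ⟨fun i => (b i ω hω i rfl).1.trans (mul_le_mul_of_nonneg_right (a i) (Real.exp_pos _).le),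
      fun c i => ((b i ω hω i rfl).2 c).trans ((mul_le_mul_of_nonneg_right (a i)
        ((hb_nS f).nonneg _)).trans (mul_le_mul_of_nonneg_left ?_ (Real.exp_pos _).le))⟩
    exact cut f (G := fun r => G r n ω) (fun r => g r n ω) (fun r => z r n ω) _ c
  refine ⟨fun a => v (wt a) a, fun n ω a => G (wt a) n ω a, ?_, key⟩
  obtain ⟨Γ, -, a⟩ := key 0
  filter_upwards [a, h.cap 0] with n a d ω hω
  obtain ⟨D, f⟩ := (d ω hω).1
  exact ⟨(isUnit_iff_isUnit_det _).1 (linearIndependent_rows_iff_isUnit.1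
    ((a ω hω).li (hb_nS f) fun _ => Real.exp_pos _)), fun a => g _ n ω a⟩

end Pool.Agent.MP_5168f5_an.QA.Cp.T2
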