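import Pool.Agent.MP_5168f5_an.QA.FrAlg

/-! The Kakeya maximal estimate: one unipotent matrix for a whole path. -/

namespace Pool.Agent.MP_5168f5_an.QA.Fr

open AN Finset
open GA (Mt)
open N2 (Uni Bd bd_one uni_iff tri rk uni_one)

variable {m a b : ℕ} {u v : Mt (Fin m)} {ρ kk : Fin m → ℝ} {L : ℝ}

theorem pw_mul (hL : (m : ℝ) + 2 ≤ L) (h0 : ∀ p, 0 < ρ p) (h : Bd ρ (L ^ a) u)
    (h' : Bd ρ (L ^ b) v) : Bd ρ (L ^ (a + b + 1)) (u * v) := (h.mul h' h0).mono h0 (by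
  have m0 : (0 : ℝ) ≤ m := Nat.cast_nonneg _
  have : 0 < L := by linarith
  rw [pow_succ', pow_add, mul_assoc]
  exact mul_le_mul_of_nonneg_right (by linarith) (by positivity))

theorem pw_inv (hL : (m : ℝ) + 2 ≤ L) (h0 : ∀ p, 0 < ρ p) (h : Bd ρ (L ^ a) u) (hu : Uni kk u) :
    Bd ρ (L ^ ((a + 2) * m + 1)) u⁻¹ := fun p q => by
  have z : (1 - u) ^ (m + 1) = 0 := (tri kk).pow_zero' (neg_sub u 1 ▸ neg_mem (uni_iff.1 hu))
  have e : u⁻¹ = ∑ i ∈ range (m + 1), (1 - u) ^ i := Matrix.inv_eq_left_inv (by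
    have := geom_sum_mul_neg (1 - u) (m + 1)
    rwa [sub_sub_cancel, z, sub_zero] at this)
  have m0 : (0 : ℝ) ≤ m := Nat.cast_nonneg _
  have l1 : 1 ≤ L := by linarith
  have a1 : 1 ≤ L ^ a := one_le_pow₀ l1
  rw [e, Matrix.sum_apply]
  refine (abs_sum_le_sum_abs _ _).trans ((sum_le_card_nsmul _ _
    (L ^ ((a + 2) * m) * (ρ p / ρ q)) fun i hi => ?_).trans ?_)
  · refine ((((bd_one h0).sub h).pow h0 i).mono h0 ?_) p q
    rw [pow_mul]
    refine (pow_le_pow_left₀ (by positivity) ?_ i).trans (pow_le_pow_right₀ (one_le_pow₀ l1)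
      (Nat.lt_succ_iff.1 (mem_range.1 hi)))
    rw [pow_add, mul_comm (L ^ a)]
    nlinarith [mul_le_mul_of_nonneg_left a1 m0,
      mul_le_mul_of_nonneg_right (show 2 * m ≤ L ^ 2 by nlinarith) (zero_le_one.trans a1)]
  · rw [card_range, nsmul_eq_mul, pow_succ', mul_assoc]
    exact mul_le_mul_of_nonneg_right (by push_cast; linarith)
      (mul_nonneg (by positivity) (div_pos (h0 p) (h0 q)).le)

theorem pw_b2 (hL : (m : ℝ) + 2 ≤ L) (h0 : ∀ p, 0 < ρ p) (h : Bd ρ (L ^ a) u) (hu : Uni kk u) :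
    B2 ρ (L ^ (a + ((a + 2) * m + 1))) u := by
  have l1 : 1 ≤ L := by linarith [Nat.cast_nonneg (α := ℝ) m]
  exact ⟨hu.det, h.mono h0 (pow_le_pow_right₀ l1 (by omega)),
    (pw_inv hL h0 h hu).mono h0 (pow_le_pow_right₀ l1 (by omega))⟩

theorem tele {y : ℕ → ℝ} {A : ℝ} {i j : ℕ} (e : i ≤ j)
    (h : ∀ k, i ≤ k → k < j → |y (k + 1) - y k| ≤ A) : |y j - y i| ≤ (j - i : ℝ) * A := by
  induction j, e using Nat.le_induction with
  | base => simp
  | succ j e ih =>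
    have := abs_sub_le (y (j + 1)) (y j) (y i)
    have h1 := ih fun k c d => h k c (by omega)
    push_cast
    linarith [h j e (by omega)]

theorem path0 (m n : ℕ) : ∃ K : ℕ, ∀ (kk : Fin m → ℝ) (s : ℕ) (ρ : ℕ → Fin m → ℝ)
    (g : ℕ → Mt (Fin m)) (L : ℝ), (m : ℝ) + 2 ≤ L → (s : ℝ) ≤ L → (∀ i p, 0 < ρ i p) →
    (∀ p q, (Monotone fun i => ρ i p / ρ i q) ∨ Antitone fun i => ρ i p / ρ i q) →
    (∀ i p q, ρ (i + 1) p / ρ (i + 1) q ≤ L * (ρ i p / ρ i q)) → (∀ i, Uni kk (g i)) →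
    (∀ i < s, Bd (ρ i) L (g (i + 1) * (g i)⁻¹)) → ∃ w, Uni kk w ∧ ∀ i ≤ s,
      ∃ c, c - 1 ∈ (tri kk).F n ∧ Bd (ρ i) (L ^ K) (c * w * (g i)⁻¹) := by
  induction n with
  | zero =>
    refine ⟨0, fun kk s ρ g L _ _ h0 _ _ hu _ => ⟨1, uni_one, fun i _ => ⟨g i, uni_iff.1 (hu i), ?_⟩⟩⟩
    rw [mul_one, Matrix.mul_nonsing_inv _ (hu i).det, pow_zero]
    exact bd_one (h0 i)
  | succ n ih =>
    classical
    obtain ⟨K, ih⟩ := ih
    refine ⟨K + 1 + 1 + 1 + ((K + 2) * m + 1) + 1 + 3 + K + 1,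
      fun kk s ρ g L hL hs h0 hm hr hu hg => ?_⟩
    obtain ⟨w, hw, k⟩ := ih kk s ρ g L hL hs h0 hm hr hu hg
    choose! c c1 c2 using k
    have m0 : (0 : ℝ) ≤ m := Nat.cast_nonneg _
    have l1 : 1 ≤ L := by linarith
    have cu : ∀ i ≤ s, Uni kk (c i) := fun i hi => uni_iff.2 ((tri kk).le0 n (c1 i hi))
    set K1 := K + 1 + 1 + 1 + ((K + 2) * m + 1) + 1
    have k1 : 1 ≤ L ^ K1 := one_le_pow₀ l1
    have st : ∀ p q, ¬rk kk q + (n + 1) < rk kk p → ∀ i < s,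
        |c (i + 1) p q - c i p q| ≤ L ^ (K1 + 1) * (ρ i p / ρ i q) := fun p q z i hi => by
      have e1 : c (i + 1) * w * (g (i + 1))⁻¹ * (g (i + 1) * (g i)⁻¹) * (c i * w * (g i)⁻¹)⁻¹ =
          c (i + 1) * (c i)⁻¹ := by
        rw [Matrix.mul_inv_rev, Matrix.mul_inv_rev, Matrix.nonsing_inv_nonsing_inv _ (hu i).det]
        simp only [Matrix.mul_assoc, Matrix.nonsing_inv_mul_cancel_left _ _ (hu _).det,
          Matrix.mul_nonsing_inv_cancel_left _ _ hw.det]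
      have b1 := pw_mul hL (h0 i) (pw_mul (a := K + 1) (b := 1) hL (h0 i)
        (by rw [pow_succ]; exact bd_chg (c2 _ hi) (by positivity) (hr i)) (by simpa using hg i hi))
        (pw_inv hL (h0 i) (c2 i hi.le) (((cu i hi.le).mul hw).mul (hu i).inv))
      rw [e1] at b1
      have e2 : c (i + 1) - c i = (c (i + 1) * (c i)⁻¹ - 1) +
          (c (i + 1) * (c i)⁻¹ - 1) * (c i - 1) := by
        rw [mul_sub, mul_one, sub_mul, Matrix.nonsing_inv_mul_cancel_right _ _ (cu i hi.le).det,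
          one_mul]
        abel
      have e3 := (tri kk).mul_l n _ _ (uni_iff.1 ((cu _ hi).mul (cu i hi.le).inv)) (c1 i hi.le) p q z
      rw [← Matrix.sub_apply, e2, Matrix.add_apply, e3, add_zero]
      exact ((b1.sub (bd_one (h0 i))).mono (h0 i) (by rw [pow_succ _ K1]; nlinarith)) p q
    let z : Mt (Fin m) := Matrix.of fun p q =>
      if Monotone fun i => ρ i p / ρ i q then c 0 p q else c s p q
    have z1 : z - 1 ∈ (tri kk).F n := fun p q k => by
      simp only [z, Matrix.sub_apply, Matrix.of_apply]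
      split_ifs
      exacts [c1 0 (Nat.zero_le _) p q k, c1 s le_rfl p q k]
    have zu : Uni kk z := uni_iff.2 ((tri kk).le0 n z1)
    refine ⟨z * w, zu.mul hw, fun i hi => ?_⟩
    let v : Mt (Fin m) := Matrix.of fun p q =>
      if rk kk q + (n + 1) < rk kk p then 0 else z p q - c i p q
    have v1 : v ∈ (tri kk).F n := fun p q k => by
      simp only [v, Matrix.of_apply]
      split_ifs
      · rfl
      · have := (sub_mem z1 (c1 i hi)) p q k
        rwa [sub_sub_sub_cancel_right] at this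
    have v2 : Bd (ρ i) (L ^ (K1 + 2)) v := fun p q => by
      have r0 := (div_pos (h0 i p) (h0 i q)).le
      have i0 : (0 : ℝ) ≤ i := Nat.cast_nonneg _
      have i1 : (i : ℝ) ≤ s := by exact_mod_cast hi
      simp only [v, z, Matrix.of_apply]
      split_ifs with k k'
      · rw [abs_zero]; positivity
      · rw [abs_sub_comm, pow_succ', mul_assoc]
        exact (tele (y := fun i => c i p q) (Nat.zero_le i) fun j _ d =>
          (st p q k j (by omega)).trans (mul_le_mul_of_nonneg_left (k' d.le) (by positivity))).trans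
          (mul_le_mul_of_nonneg_right (by push_cast; linarith) (by positivity))
      · rw [pow_succ', mul_assoc]
        exact (tele (y := fun i => c i p q) hi fun j d d' => (st p q k j d').trans
          (mul_le_mul_of_nonneg_left ((hm p q).resolve_left k' d) (by positivity))).trans
          (mul_le_mul_of_nonneg_right (by linarith) (by positivity))
    refine ⟨(1 + v) * c i * z⁻¹, ?_, ?_⟩
    · have x1 : (1 + v) * c i - z ∈ (tri kk).F (n + 1) := by
        rw [show (1 + v) * c i - z = (v + c i - z) + v * (c i - 1) by noncomm_ring]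
        refine add_mem (fun p q k => ?_) ((tri kk).mul_l n _ _ ((tri kk).le0 n v1) (c1 i hi))
        simp only [v, Matrix.sub_apply, Matrix.add_apply, Matrix.of_apply, if_neg k]
        ring
      rw [show (1 + v) * c i * z⁻¹ - 1 = ((1 + v) * c i - z) + ((1 + v) * c i - z) * (z⁻¹ - 1) by
        rw [mul_sub _ z⁻¹, mul_one, sub_mul _ z, Matrix.mul_nonsing_inv _ zu.det]; abel]
      exact add_mem x1 ((tri kk).anti _ ((tri kk).mul_r _ _ _ x1 (uni_iff.1 zu.inv)))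
    · rw [show (1 + v) * c i * z⁻¹ * (z * w) * (g i)⁻¹ = (1 + v) * (c i * w * (g i)⁻¹) by
        simp only [Matrix.mul_assoc, Matrix.nonsing_inv_mul_cancel_left _ _ zu.det]]
      exact pw_mul hL (h0 i) (((bd_one (h0 i)).add v2).mono (h0 i) (by
        rw [pow_succ _ (K1 + 2)]; nlinarith [one_le_pow₀ (n := K1 + 2) l1])) (c2 i hi)

/-- One unipotent matrix is adapted to all points of a path with bounded steps. -/
theorem path (m : ℕ) : ∃ K : ℕ, ∀ (kk : Fin m → ℝ) (s : ℕ) (ρ : ℕ → Fin m → ℝ)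
    (g : ℕ → Mt (Fin m)) (L : ℝ), (m : ℝ) + 2 ≤ L → (s : ℝ) ≤ L → (∀ i p, 0 < ρ i p) →
    (∀ p q, (Monotone fun i => ρ i p / ρ i q) ∨ Antitone fun i => ρ i p / ρ i q) →
    (∀ i p q, ρ (i + 1) p / ρ (i + 1) q ≤ L * (ρ i p / ρ i q)) → (∀ i, Uni kk (g i)) →
    (∀ i < s, Bd (ρ i) L (g (i + 1) * (g i)⁻¹)) →
    ∃ w, Uni kk w ∧ ∀ i ≤ s, B2 (ρ i) (L ^ K) (w * (g i)⁻¹) := by
  obtain ⟨K, h⟩ := path0 m m
  refine ⟨_, fun kk s ρ g L hL hs h0 hm hr hu hg => (h kk s ρ g L hL hs h0 hm hr hu hg).imp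
    fun w k => ⟨k.1, fun i hi => pw_b2 (a := K) hL (h0 i) ?_ (k.1.mul (hu i).inv)⟩⟩
  obtain ⟨c, c1, c2⟩ := k.2 i hi
  rwa [sub_eq_zero.1 ((tri kk).bot _ c1), one_mul] at c2

end Pool.Agent.MP_5168f5_an.QA.Fr
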