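import Pool.Agent.MP_5168f5_an.QA.FrSq
import Pool.Agent.MP_5168f5_an.QA.FrPath

/-! The Kakeya maximal estimate: one frame for all levels. -/

namespace Pool.Agent.MP_5168f5_an.QA.Fr

open H19 H17S H17F R4 AN Filter Finset Real
open G39 (dl)
open C1 (Dg Hb)
open GA (Mt)
open N2 (Uni Bd low blk uni_un)

variable {V : Type} [AddCommGroup V] [Module ℝ V] {m : ℕ}

/-- The logarithms of the lengths at the level `x`. -/
def rx (M : ℕ → ℕ) (la : Fin m → ℝ) (x : ℝ) : Fin m → ℕ → ℝ := fun p n => -(la p * x * M n)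

/-- A bound for the weights. -/
noncomputable def wd (la : Fin m → ℝ) : ℝ := ∑ p, |la p|

variable {Ω : ℕ → Type} {P : ∀ n, FP (Ω n)} {M : ℕ → ℕ} {B : V → ℝ} {ν : ℚ → ∀ n, Ω n → V → ℝ}
  {T : Fin m → ℕ → ℝ} {kk la : Fin m → ℝ} {Ga c : ℝ} {ω : ∀ n, Ω n} {e f : ℕ → Fin m → V}

theorem ev_fun {A : ℕ → Type} [∀ n, Nonempty (A n)] {p : ∀ n, Ω n → A n → Prop}
    (H : ∀ ω : ∀ n, Ω n, (∀ᶠ n in UF, ω n ∈ (P n).S) → ∃ a : ∀ n, A n, ∀ᶠ n in UF, p n (ω n) (a n)) :
    ∃ E : ∀ n, Ω n → A n, ∀ᶠ n in UF, ∀ ω ∈ (P n).S, p n ω (E n ω) :=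
  ⟨fun n ω => Classical.epsilon (p n ω), ev_of fun ω a => (H ω a).elim fun e b =>
    b.mono fun n k => Classical.epsilon_spec ⟨e n, k⟩⟩

theorem wd_nn (la : Fin m → ℝ) : 0 ≤ wd la := sum_nonneg fun _ _ => abs_nonneg _

theorem rx_le (la : Fin m → ℝ) (x y : ℝ) (p : Fin m) (n : ℕ) :
    rx M la x p n ≤ rx M la y p n + wd la * |x - y| * M n := by
  have := mul_le_mul_of_nonneg_right ((neg_le_abs _).trans ((abs_mul (la p) (x - y)).trans_le
    (mul_le_mul_of_nonneg_right (single_le_sum (f := fun p => |la p|) (fun _ _ => abs_nonneg _)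
      (mem_univ p)) (abs_nonneg _)))) (Nat.cast_nonneg (α := ℝ) (M n))
  unfold rx wd
  linarith

theorem rx_sub (la : Fin m → ℝ) (x y : ℝ) (p q : Fin m) (n : ℕ) : rx M la x p n - rx M la x q n ≤
    rx M la y p n - rx M la y q n + 2 * wd la * |x - y| * M n := by
  have := rx_le (M := M) la y x q n
  rw [abs_sub_comm] at this
  linarith [rx_le (M := M) la x y p n]

theorem rx_sp (la : Fin m → ℝ) (x : ℝ) (p q : Fin m) :
    Le M (rx M la x p) fun n => rx M la x q n + 2 * wd la * |x| * M n := Le.of_le fun n => by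
  have := rx_sub (M := M) la x 0 p q n
  simp only [rx, mul_zero, zero_mul, sub_zero] at this ⊢
  linarith

theorem rx_eq {p q : Fin m} (a : la p = la q) (x : ℝ) : Le M (rx M la x p) (rx M la x q) :=
  Le.of_le fun n => by simp [rx, a]

theorem BS.zero {x : ℝ} {g : ℕ → Mt (Fin m)} (k : BS M c (rx M la x) g) :
    BS M (c + 2 * wd la * |x|) (fun _ _ => 0) g :=
  k.len fun p q => (rx_sp la x p q).of_sub (.of_forall fun n => by linarith)

/-- Unipotent matrices of moderate size are bounded for the grading of the clusters. -/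
theorem BS.far {x : ℝ} {g : ℕ → Mt (Fin m)} (k : BS M c (rx M la x) g)
    (far : ∀ a b, kk a < kk b → Far M (T a) (T b)) (d : ∀ᶠ n in UF, Uni kk (g n)) : BS M 0 T g :=
  k.zero.uni d fun p q a => ((far q p a).le (-(c + 2 * wd la * |x|))).of_sub
    (.of_forall fun n => by linarith)

/-- The unipotent part of the transition matrix of two frames for `B`. -/
theorem un_rx (hM : Big M) (near : ∀ a b, kk a = kk b → la a = la b ∧ Sm M fun n => T a n - T b n)
    (far : ∀ a b, kk a < kk b → Far M (T a) (T b)) {g : ℕ → Mt (Fin m)} (a : BS M 0 T g) {y : ℝ}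
    (b : BS M c (rx M la y) g) (hc : 0 ≤ c) (x : ℝ) :
    BS M 0 (rx M la x) fun n => N2.un kk (g n) * (g n)⁻¹ :=
  un_bs hM b.zero (by have := wd_nn la; positivity) a
    (fun p q k => (near p q k).2.of_sub (.of_forall fun n => by linarith))
    (fun p q k c => zero_add c ▸ a.ent ((far p q k).le c)) (fun p q => rx_sp la x q p)
    fun p q k => rx_eq (near p q k).1.symm x

theorem NF.ax (h : NF P M B ν T kk la Ga) (a : ∀ᶠ n in UF, ω n ∈ (P n).S) (x : ℚ) :
    ∃ f, DS M 0 (fun _ => B) f T ∧ DS M 0 (fun n => ν x n (ω n)) f (rx M la x) := by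
  obtain ⟨Γ, s, d⟩ := h.spec x
  obtain ⟨f, k⟩ := C1.ev_ch ((d.and a).mono fun n i => i.1 _ i.2)
  have b := ((h.hν x).and a).mono fun n i => i.1 _ i.2
  refine ⟨f, ⟨k.mono fun _ i => ⟨h.hB, i.1⟩, fun ε hε => ?_⟩,
    (b.and k).mono fun _ i => ⟨i.1, i.2.1⟩, fun ε hε => ?_⟩
  · filter_upwards [k, s.2 ε hε] with n i j
    exact i.2.1.mono h.hB.nonneg (fun _ => (exp_pos _).le) (by rwa [zero_add])
  · filter_upwards [k, s.2 ε hε, b] with n i j l
    exact i.2.2.mono l.nonneg (fun _ => (exp_pos _).le) (by rwa [zero_add])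

theorem NF.lipS (h : NF P M B ν T kk la Ga) (a : ∀ᶠ n in UF, ω n ∈ (P n).S) (x y : ℚ) {δ : ℝ}
    (d : |(x : ℝ) - y| ≤ δ) (k : DS M c (fun n => ν y n (ω n)) f (rx M la y)) :
    DS M ((|Ga| + wd la) * δ + c) (fun n => ν x n (ω n)) f (rx M la x) := by
  have b := fun x => ((h.hν x).and a).mono fun n i => i.1 _ i.2
  have key : ∀ x y : ℚ, |(x : ℝ) - y| ≤ δ → Sq M (|Ga| * δ) fun n L => ∀ F,
      ν x n (ω n) F ≤ L * ν y n (ω n) F := fun x y d =>
    Sq.sh ((h.lip x y).sq a ((b y).mono fun n i L L' l j k F => (k F).trans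
      (mul_le_mul_of_nonneg_right (mul_le_mul j (ex_mono (mul_le_mul (le_abs_self _) d (abs_nonneg _)
        (abs_nonneg _)) n) (exp_pos _).le (by linarith)) (i.nonneg F))))
  have d' : |(y : ℝ) - x| ≤ δ := abs_sub_comm (x : ℝ) y ▸ d
  refine ((k.len h.big (fun p => Le.of_le (rx_le la x y p)) fun p => Le.of_le fun n =>
    abs_sub_comm (y : ℝ) x ▸ rx_le la y x p n).nrm h.big (b x) (((key x y d).and (key y x d')).imp
      (.of_forall fun _ _ i F => ⟨i.1 F, i.2 F⟩))).up ?_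
  linarith [mul_le_mul_of_nonneg_left d (wd_nn la)]

/-- One frame for an arithmetic progression of levels. -/
theorem NF.grid (h : NF P M B ν T kk la Ga) : ∃ C : ℝ, 0 ≤ C ∧ ∀ (ω : ∀ n, Ω n) (a δ : ℚ) (s : ℕ),
    (∀ᶠ n in UF, ω n ∈ (P n).S) → 0 < δ → ∃ e, DS M 0 (fun _ => B) e T ∧ ∀ k ≤ s,
      DS M (C * δ) (fun n => ν (a + k * δ) n (ω n)) e (rx M la (a + k * δ : ℚ)) := by
  obtain ⟨K, hK⟩ := path m
  have w0 := wd_nn la
  refine ⟨K * (|Ga| + 2 * wd la + 1), by positivity, fun ω a δ s hω hδ => ?_⟩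
  have d0 : (0 : ℝ) < δ := by exact_mod_cast hδ
  have hM := h.big
  choose f fB fν using fun k : ℕ => h.ax hω (a + k * δ)
  let g : ℕ → ℕ → Mt (Fin m) := fun k n => N2.un kk (tr (f k n) (f 0 n))
  have t := fun k => (fB 0).tr ((fB k).1.mono fun _ i => i.2)
  have u : ∀ k x, BS M 0 (rx M la x) fun n => g k n * (tr (f k n) (f 0 n))⁻¹ := fun k =>
    un_rx hM h.near h.far (zero_add (0 : ℝ) ▸ (fB 0).bs hM (fB k))
      ((fν 0).bs hM (h.lipS hω _ _ le_rfl (fν k))) (by positivity)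
  have v : ∀ k : ℕ, DS M 0 (fun n => ν (a + k * δ) n (ω n)) (fun n => act (g k n) (f 0 n))
      (rx M la (a + k * δ : ℚ)) := fun k =>
    (zero_add (0 : ℝ) ▸ (fν k).act hM (u k _)).congr (.of_forall fun _ => rfl)
      ((t k).mono fun n i => by rw [← act_div i.1 (g k n), ← i.2])
  have st : ∀ k : ℕ, |((a + k * δ : ℚ) : ℝ) - (a + (k + 1 : ℕ) * δ : ℚ)| ≤ δ := fun k => by
    push_cast
    rw [abs_le]
    constructor <;> linarith
  have w : ∀ k : ℕ, BS M ((|Ga| + 2 * wd la) * δ) (rx M la (a + k * δ : ℚ))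
      fun n => g (k + 1) n * (g k n)⁻¹ := fun k => by
    have i := h.lipS hω _ _ (st k) (v (k + 1))
    refine (((v k).bs hM i).congr ?_).up (by nlinarith)
    filter_upwards [(v k).inj, (v k).tr (i.1.mono fun _ j => j.2)] with n j l
    exact j _ _ ((act_div uni_un.det _ _).trans l.2)
  have z : ∀ᶠ n in UF, ∃ w, Uni kk w ∧ ∀ k ≤ s, B2 (fun p => exp (rx M la (a + k * δ : ℚ) p n))
      (exp (((|Ga| + 2 * wd la) * δ + δ) * M n) ^ K) (w * (g k n)⁻¹) := by
    have p : 0 ≤ (|Ga| + 2 * wd la) * δ := by positivity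
    filter_upwards [(eventually_all_finset (range s)).2 fun k _ => w k δ d0,
      sq_const hM (m + 2) δ d0, sq_const hM s δ d0] with n i j l
    refine hK kk s _ (fun k => g k n) _ (j.trans (ex_mono (by linarith) n))
      (l.trans (ex_mono (by linarith) n)) (fun _ _ => exp_pos _) (fun p q => ?_) (fun k p q => ?_)
      (fun _ => uni_un) fun k y => (i k (mem_range.2 y)).2.1
    · have e1 : ∀ k : ℕ, exp (rx M la (a + k * δ : ℚ) p n) / exp (rx M la (a + k * δ : ℚ) q n) =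
          exp ((la q - la p) * a * M n + (la q - la p) * (δ * M n) * k) := fun k => by
        rw [← exp_sub]; congr 1; unfold rx; push_cast; ring
      have p1 : (0 : ℝ) ≤ δ * M n := by positivity
      simp only [e1]
      exact (le_total (la p) (la q)).imp (fun y i j z => exp_le_exp.2 (add_le_add le_rfl
        (mul_le_mul_of_nonneg_left (by exact_mod_cast z) (mul_nonneg (sub_nonneg.2 y) p1))))
        fun y i j z => exp_le_exp.2 (add_le_add le_rfl (mul_le_mul_of_nonpos_left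
          (by exact_mod_cast z) (mul_nonpos_of_nonpos_of_nonneg (sub_nonpos.2 y) p1)))
    · rw [← exp_sub, ← exp_sub, ← exp_add]
      refine exp_le_exp.2 ((rx_sub la _ (a + k * δ : ℚ) p q n).trans ?_)
      rw [abs_sub_comm, add_comm]
      refine add_le_add (mul_le_mul_of_nonneg_right ?_ (Nat.cast_nonneg _)) le_rfl
      nlinarith [mul_le_mul_of_nonneg_left (st k) w0, abs_nonneg Ga]
  obtain ⟨y, z⟩ := C1.ev_ch z
  have b : ∀ k ≤ s, BS M (K * (|Ga| + 2 * wd la + 1) * δ) (rx M la (a + k * δ : ℚ))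
      fun n => y n * (g k n)⁻¹ := fun k i ε hε => z.mono fun n j =>
    (j.2 k i).mono (fun _ => exp_pos _) (by
      rw [← exp_nat_mul, ← mul_assoc]; exact ex_mono (by linarith) n)
  have d : ∀ k ≤ s, DS M (K * (|Ga| + 2 * wd la + 1) * δ) (fun n => ν (a + k * δ) n (ω n))
      (fun n => act (y n) (f 0 n)) (rx M la (a + k * δ : ℚ)) := fun k i =>
    (add_zero (K * _ * δ : ℝ) ▸ (v k).act hM (b k i)).congr (.of_forall fun _ => rfl)
      (.of_forall fun n => (act_div uni_un.det _ _).symm)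
  refine ⟨_, zero_add (0 : ℝ) ▸ (fB 0).act hM (BS.far (((fν 0).bs hM (d 0 s.zero_le)).congr ?_)
    h.far (z.mono fun _ i => i.1)), d⟩
  filter_upwards [(fν 0).inj, (fν 0).tr ((d 0 s.zero_le).1.mono fun _ j => j.2)] with n j l
  exact j _ _ l.2

theorem sFr : SFr := by
  intro V _ _ m Ω P M B ν T kk la Ga h
  obtain ⟨C, C0, H⟩ := h.grid
  have key := fun i : ℕ => ev_fun (P := P) (p := fun n ω (e : Fin m → V) => Sp e ∧
      Dg B e (fun p => exp (T p n)) (exp ((0 + 1 / (i + 1 : ℝ)) * M n)) ∧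
      ∀ k ∈ range (2 * i * (i + 1) + 1), Dg (ν (-i + k * (1 / (i + 1))) n ω) e
        (fun p => exp (rx M la (-i + k * (1 / (i + 1)) : ℚ) p n))
        (exp ((C * (1 / (i + 1) : ℚ) + 1 / (i + 1 : ℝ)) * M n))) fun ω a => by
    obtain ⟨e, b, d⟩ := H ω (-i) (1 / (i + 1)) (2 * i * (i + 1)) a (by positivity)
    refine ⟨e, ?_⟩
    filter_upwards [b.1, b.2 (1 / (i + 1 : ℝ)) (by positivity), (eventually_all_finset _).2
      fun k j => (d k (Nat.lt_succ_iff.1 (mem_range.1 j))).2 (1 / (i + 1 : ℝ)) (by positivity)]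
      with n u v w using ⟨u.2, v, w⟩
  choose E hE using key
  obtain ⟨i, z⟩ := su_diag (P := P) (M := M) (fun (x : ℚ) i n ω L => Sp (E i n ω) ∧
    Dg B (E i n ω) (fun p => exp (T p n)) L ∧
      Dg (ν x n ω) (E i n ω) (fun p => exp (rx M la x p n)) L) fun x ε hε => by
    have p : 0 < |Ga| + wd la + C + 1 := by have := wd_nn la; positivity
    filter_upwards [eventually_ge_atTop ⌈|x|⌉₊, eventually_ge_atTop ⌈(|Ga| + wd la + C + 1) / ε⌉₊]
      with i a b ω hω
    have a1 := abs_le.1 (Nat.ceil_le.1 a)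
    have b1 := Nat.ceil_le.1 b
    have i0 : (0 : ℚ) < i + 1 := by positivity
    have i1 : (0 : ℝ) < i + 1 := by positivity
    have k0 : 0 ≤ (x + i) * (i + 1) := mul_nonneg (by linarith) i0.le
    have k1 := Nat.floor_le k0
    have k2 := Nat.lt_floor_add_one ((x + i) * (i + 1))
    have k3 : ⌊(x + i) * (i + 1)⌋₊ ≤ 2 * i * (i + 1) := Nat.floor_le_of_le (by push_cast; nlinarith)
    generalize ⌊(x + i) * (i + 1)⌋₊ = k at k1 k2 k3
    have e1 := ((hE i).and hω).mono fun n j => j.1 _ j.2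
    have d : |x - (-i + k * (1 / (i + 1)))| ≤ 1 / (i + 1) := by
      rw [show x - (-i + k * (1 / (i + 1))) = ((x + i) * (i + 1) - k) / (i + 1) by field_simp; ring,
        abs_div, abs_of_pos i0]
      exact div_le_div_of_nonneg_right (abs_le.2 ⟨by linarith, by linarith⟩) i0.le
    have sm : (|Ga| + wd la + C + 1) * (1 / (i + 1 : ℝ)) ≤ ε := by
      rw [div_le_iff₀ hε] at b1
      rw [mul_one_div, div_le_iff₀ i1]
      linarith
    have q : 0 ≤ (|Ga| + wd la + C) * (1 / (i + 1 : ℝ)) := by have := wd_nn la; positivity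
    have d1 := (h.lipS hω x _ (δ := 1 / (i + 1)) (by simpa using (Rat.cast_le (K := ℝ)).2 d) (ds_of ((e1.and
      (((h.hν _).and hω).mono fun n j => j.1 _ j.2)).mono fun n j =>
      ⟨j.2, j.1.1, j.1.2.2 k (mem_range.2 (Nat.lt_succ_of_le k3))⟩))).up (c' := ε) (by
        push_cast; linarith)
    have d2 := (ds_of (ν := fun _ => B) (e1.mono fun n j => ⟨h.hB, j.1, j.2.1⟩)).up (c' := ε)
      (by linarith)
    exact (d2.2.and d1.2).imp (e1.mono fun _ j _ l => ⟨j.1, l⟩)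
  exact ⟨fun n => E (i n) n, (z 0).elim fun _ a => a.2.mono fun _ b ω j => (b ω j).1,
    (z 0).imp fun _ a => ⟨a.1, a.2.mono fun _ b ω j => (b ω j).2.1⟩,
    fun x => (z x).imp fun _ a => ⟨a.1, a.2.mono fun _ b ω j => (b ω j).2.2⟩⟩

end Pool.Agent.MP_5168f5_an.QA.Fr
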