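import Pool.Agent.MP_5168f5_an.QA.CpLin
import Pool.Agent.MP_5168f5_an.QA.FrOne

/-! The Kakeya maximal estimate: frames for the caps, definitions. -/

namespace Pool.Agent.MP_5168f5_an.QA.Cp.T2

open H19 H17S H17F AN Filter Matrix
open G39 (dl)
open C1 (Dg rho)
open Fr (Su)

variable {κ : Type} [Fintype κ] [DecidableEq κ]

open Classical in
/-- Extension by zero. -/
noncomputable def ext (I : κ → Prop) (y : {a // I a} → ℝ) : κ → ℝ :=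
  fun a => if h : I a then y ⟨a, h⟩ else 0

/-- The standard norm. -/
noncomputable def nB {ι : Type} [Fintype ι] (y : ι → ℝ) : ℝ :=
  ‖(WithLp.toLp 2 y : EuclideanSpace ℝ ι)‖

/-- The norm of a cap. -/
noncomputable def nS (wt : κ → ℝ) (S : Set (κ → ℝ)) (y : κ → ℝ) : ℝ := nB (fm wt S *ᵥ y)

open Classical in
/-- The observables: relative volumes on the coordinates in `I`. -/
noncomputable def ob (wt : κ → ℝ) (I : κ → Prop) (k : ℕ) (S : Set (κ → ℝ)) : ℝ :=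
  Real.log (rho k (fun y : {a // I a} → ℝ => nS wt S (ext I y)) nB)

/-- The blocks of equal weight, and the subspace `g0`. -/
def bk (wt : κ → ℝ) (g0 : κ → Prop) : Option κ → κ → Prop
  | none => g0
  | some a => fun b => wt b = wt a

/-- A cap. -/
def Cap (wt : κ → ℝ) (S : Set (κ → ℝ)) : Prop := (∃ D, Fu S 1 D) ∧
  ∀ φ ∈ S, (∃ μ, Hg wt μ φ) ∧ ∀ b, wt b = 0 → |φ b| ≤ 1

variable (wt : κ → ℝ) (g0 : κ → Prop) (τ : κ) (sg : ℝ) {Ω : ℕ → Type} (P : ∀ n, FP (Ω n))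
  (M : ℕ → ℕ) (N : ℕ → ℝ) (S : ℚ → ∀ n, Ω n → Set (κ → ℝ))

/-- The input: caps at all levels, common at the levels `x ≤ 0`, with linear volumes. -/
structure FI : Prop where
  big : Big M
  far : ∀ K : ℝ, ∀ᶠ n in UF, K * M n ≤ N n
  tg : ¬g0 τ
  cap : ∀ x, ∀ᶠ n in UF, ∀ ω ∈ (P n).S, Cap wt (S x n ω)
  nest : ∀ x x', x ≤ x' → ∀ᶠ n in UF, ∀ ω ∈ (P n).S, S x n ω ⊆ S x' n ω
  com : ∀ x, x ≤ 0 → ∀ᶠ n in UF, ∀ ω ∈ (P n).S, ∀ v ∈ (P n).S, S x n ω = S x n v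
  top : ∀ (x x' : ℚ) (ε : ℝ), x ≤ x' → 0 < ε → ∀ᶠ n in UF, ∀ ω ∈ (P n).S,
    vl wt (S x' n ω) ≤ Real.exp ((sg * (x' - x) + ε) * M n) * vl wt (S x n ω)
  vol : ∀ (i : Option κ) (k : ℕ), k ≤ Fintype.card κ → ∃ c s : ℝ, ∀ (x : ℚ) (ε : ℝ), 0 < ε →
    ∀ᶠ n in UF, ∀ ω ∈ (P n).S,
      |ob wt (bk wt g0 i) k (S x n ω) - c * N n - s * (x * M n)| ≤ ε * M n
  long : Su P M fun n ω Γ => ∃ y, In (S 1 n ω) y ∧ 1 ≤ Γ * |y τ|

/-- The reference frame: homogeneous, adapted to `g0` and to the coordinate `τ`. -/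
structure Ref (F F' : Matrix κ κ ℝ) : Prop where
  inv : F * F' = 1
  hg : ∀ a, Hg wt (wt a) (F a) ∧ Hg wt (wt a) (F' a)
  g0 : ∀ a b, g0 a → ¬g0 b → F a b = 0 ∧ F' a b = 0
  chi : ∀ a, F a τ = (1 : Matrix κ κ ℝ) a τ ∧ F' a τ = (1 : Matrix κ κ ℝ) a τ

/-- Unitriangular for the rates inside the blocks. -/
def Tri (vt : κ → ℝ) (u : Matrix κ κ ℝ) : Prop :=
  ∀ p q, u p q ≠ (1 : Matrix κ κ ℝ) p q → wt p = wt q ∧ vt p < vt q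

/-- The output: the frame of `ω` has the rows of `u n ω * F n`, with lengths
`exp (vt a * x * M)` for the cap of level `x`. -/
structure FO (vt : κ → ℝ) (F F' : ℕ → Matrix κ κ ℝ) (u u' : ∀ n, Ω n → Matrix κ κ ℝ) : Prop where
  v0 : ∀ a, 0 ≤ vt a ∧ vt a ≤ sg
  vd : ∀ a, wt a = 0 → vt a = 0
  vτ : vt τ = 0
  ref : ∀ᶠ n in UF, Ref wt g0 τ (F n) (F' n)
  tri : ∀ᶠ n in UF, ∀ ω ∈ (P n).S, u n ω * u' n ω = 1 ∧ Tri wt vt (u n ω) ∧ Tri wt vt (u' n ω)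
  dg : ∀ x : ℚ, Su P M fun n ω Γ =>
    Dg (nS wt (S x n ω)) (u n ω * F n) (fun a => Real.exp (vt a * (x * M n))) Γ
  bd : Su P M fun n ω Γ => ∀ p q, |u n ω p q| ≤ Γ ∧ |u' n ω p q| ≤ Γ
  pat : ∀ K : ℝ, ∀ᶠ n in UF, ∀ ω ∈ (P n).S, ∀ p q, g0 p → ¬g0 q →
    |u n ω p q| ≤ dl M K n ∧ |u' n ω p q| ≤ dl M K n

/-- One homogeneous frame for all levels. -/
def SBlk : Prop := ∀ (κ : Type) [Fintype κ] [DecidableEq κ] (wt : κ → ℝ) (g0 : κ → Prop) (τ : κ)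
  (sg : ℝ) (Ω : ℕ → Type) (P : ∀ n, FP (Ω n)) (M : ℕ → ℕ) (N : ℕ → ℝ)
  (S : ℚ → ∀ n, Ω n → Set (κ → ℝ)), FI wt g0 τ sg P M N S →
  ∃ (vt : κ → ℝ) (f : ∀ n, Ω n → Matrix κ κ ℝ),
    (∀ᶠ n in UF, ∀ ω ∈ (P n).S, IsUnit (f n ω).det ∧ ∀ a, Hg wt (wt a) (f n ω a)) ∧
    ∀ x : ℚ, Su P M fun n ω Γ =>
      Dg (nS wt (S x n ω)) (f n ω) (fun a => Real.exp (vt a * (x * M n))) Γ

/-- The frames exist. -/
def SFrC : Prop := ∀ (κ : Type) [Fintype κ] [DecidableEq κ] (wt : κ → ℝ) (g0 : κ → Prop) (τ : κ)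
  (sg : ℝ) (Ω : ℕ → Type) (P : ∀ n, FP (Ω n)) (M : ℕ → ℕ) (N : ℕ → ℝ)
  (S : ℚ → ∀ n, Ω n → Set (κ → ℝ)), FI wt g0 τ sg P M N S →
  ∃ vt F F' u u', FO wt g0 τ sg P M S vt F F' u u'

/-- The observables are monotone and bounded. -/
def SOb : Prop := ∀ (κ : Type) [Fintype κ] [DecidableEq κ], ∃ C : ℝ, ∀ (wt : κ → ℝ) (I : κ → Prop)
  (k : ℕ) (S S' : Set (κ → ℝ)) (D D' : ℝ), k ≤ Fintype.card κ → Fu S 1 D → Fu S' 1 D' →
  (∀ φ ∈ S', ∃ μ, Hg wt μ φ) → S ⊆ S' →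
  ob wt I k S ≤ ob wt I k S' + C ∧ |ob wt I k S'| ≤ C * (1 + |Real.log D'|)

/-! ### The norms -/

section Nrm

variable {ι : Type} [Fintype ι] {wt : κ → ℝ} {S S' : Set (κ → ℝ)} {D D' t : ℝ} {φ y : κ → ℝ}

theorem le_nB (y : ι → ℝ) (i : ι) : |y i| ≤ nB y :=
  PiLp.norm_apply_le (WithLp.toLp 2 y : EuclideanSpace ℝ ι) i

theorem nB_le {y z : ι → ℝ} (h : ∀ i, |y i| ≤ |z i|) : nB y ≤ nB z := by
  simp only [nB, EuclideanSpace.norm_eq, Real.norm_eq_abs]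
  exact Real.sqrt_le_sqrt (Finset.sum_le_sum fun i _ => pow_le_pow_left₀ (abs_nonneg _) (h i) 2)

theorem nB_card {y : ι → ℝ} (h : ∀ i, |y i| ≤ t) : nB y ≤ Fintype.card ι * t := by
  rw [nB, EuclideanSpace.norm_eq]
  refine (Real.sqrt_le_sqrt (Finset.sum_sq_le_sq_sum_of_nonneg fun i _ => norm_nonneg _)).trans ?_
  rw [Real.sqrt_sq (Finset.sum_nonneg fun i _ => norm_nonneg _)]
  exact (Finset.sum_le_card_nsmul _ _ t fun i _ => h i).trans_eq (by simp)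

theorem hb_lin {V : Type} [AddCommGroup V] [Module ℝ V] (A : V →ₗ[ℝ] ι → ℝ)
    (h : Function.Injective A) : C1.Hb fun y => nB (A y) :=
  ⟨ι, inferInstance, (WithLp.linearEquiv 2 ℝ (ι → ℝ)).symm.toLinearMap ∘ₗ A,
    (WithLp.linearEquiv 2 ℝ (ι → ℝ)).symm.injective.comp h, fun _ => rfl⟩

theorem hb_nB : C1.Hb (nB : (ι → ℝ) → ℝ) := hb_lin LinearMap.id Function.injective_id

theorem hb_nS (h : Fu S 1 D) : C1.Hb (nS wt S) := hb_lin (fm wt S).mulVecLin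
  (mulVec_injective_iff_isUnit.2 ((isUnit_iff_isUnit_det _).2 h.unit))

/-- The forms of the cap are bounded by the norm. -/
theorem dot_le (h : Fu S 1 D) (k : φ ∈ S) {μ : ℝ} (u : Hg wt μ φ) (y : κ → ℝ) :
    |φ ⬝ᵥ y| ≤ 2 * Fintype.card κ * nS wt S y := by
  obtain ⟨c, -, e, b⟩ := h.span k u
  rw [e, mul_comm 2, mul_assoc]
  exact abs_dot (r := fun _ => nS wt S y) (fun a => mul_le_mul_of_nonneg_right (b a)
    (norm_nonneg _)) fun a => le_nB (fm wt S *ᵥ y) a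

/-- The norm is bounded by the forms of the cap. -/
theorem nS_le (h : Fu S 1 D) (k : ∀ φ ∈ S, (∃ μ, Hg wt μ φ) → |φ ⬝ᵥ y| ≤ t) :
    nS wt S y ≤ Fintype.card κ * t :=
  nB_card fun a => k _ (h.fm.1 a).1 ⟨_, (h.fm.1 a).2⟩

theorem nS_mono (h : Fu S 1 D) (h' : Fu S' 1 D') (e : S ⊆ S') (y : κ → ℝ) :
    nS wt S y ≤ Fintype.card κ * (2 * Fintype.card κ * nS wt S' y) :=
  nS_le h fun _ k u => u.elim fun _ u => dot_le h' (e k) u y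

theorem coord_le (h : Fu S 1 D) (y : κ → ℝ) (b : κ) : |y b| ≤ 2 * Fintype.card κ * nS wt S y := by
  simpa using dot_le h (h.one b) ((hg_one wt b).smul 1) y

end Nrm

end Pool.Agent.MP_5168f5_an.QA.Cp.T2
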