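import Mathlib

/-! A row space whose volume profile is linear is graded. -/

namespace Pool.Agent.MP_5168f5_an.QA.Sp

open Matrix Finset

variable {k κ : Type} [Fintype k] [DecidableEq k]

/-- The maximal minor on the columns `J`. -/
def mn (P : Matrix k κ ℝ) (J : k → κ) : ℝ := |(P.submatrix id J).det|

/-- The reduced form for the columns `J`. -/
noncomputable def red (P : Matrix k κ ℝ) (J : k → κ) : Matrix k κ ℝ := (P.submatrix id J)⁻¹ * P

theorem mn_nn (P : Matrix k κ ℝ) (J : k → κ) : 0 ≤ mn P J := abs_nonneg _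

variable {P : Matrix k κ ℝ} {J : k → κ}

theorem unit_of (h : mn P J ≠ 0) : IsUnit (P.submatrix id J).det :=
  isUnit_iff_ne_zero.2 fun e => h (by rw [mn, e, abs_zero])

theorem mul_red (h : mn P J ≠ 0) : P.submatrix id J * red P J = P := by
  rw [red, ← Matrix.mul_assoc, mul_nonsing_inv _ (unit_of h), Matrix.one_mul]

theorem red_J (h : mn P J ≠ 0) (i i' : k) : red P J i (J i') = if i = i' then 1 else 0 := by
  have : red P J i (J i') = ((P.submatrix id J)⁻¹ * P.submatrix id J) i i' := by
    simp [red, Matrix.mul_apply]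
  rw [this, nonsing_inv_mul _ (unit_of h), one_apply]

theorem inj_J (h : mn P J ≠ 0) : Function.Injective J := fun i i' e => by
  have a := red_J h i i'
  rw [← e, red_J h, if_pos rfl] at a
  by_contra c
  rw [if_neg c] at a
  exact one_ne_zero a

/-- The rule of Cramer. -/
theorem red_mn (h : mn P J ≠ 0) (i : k) (a : κ) :
    |red P J i a| * mn P J = mn P (Function.update J i a) := by
  have e : P.submatrix id (Function.update J i a) =
      (P.submatrix id J).updateCol i fun r => P r a := by
    ext r c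
    by_cases u : c = i
    · subst u; simp
    · simp [updateCol_ne u, Function.update_of_ne u]
  have f : red P J i a = ((P.submatrix id J)⁻¹ *ᵥ fun r => P r a) i := by
    simp [red, Matrix.mul_apply, mulVec, dotProduct]
  have g := congrFun (det_smul_inv_mulVec_eq_cramer (P.submatrix id J) (fun r => P r a)
    (unit_of h)) i
  rw [cramer_apply, Pi.smul_apply, smul_eq_mul] at g
  rw [mn, mn, e, ← g, f, abs_mul, mul_comm]

theorem red_le (h : mn P J ≠ 0) {C : ℝ} (hJ : ∀ J', mn P J' ≤ C * mn P J) (i : k) (a : κ) :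
    |red P J i a| ≤ C :=
  le_of_mul_le_mul_right ((red_mn h i a).trans_le (hJ _)) ((mn_nn P J).lt_of_ne' h)

theorem prod_update (r : κ → ℝ) (i : k) (a : κ) :
    (∏ j, r (Function.update J i a j)) * r (J i) = (∏ j, r (J j)) * r a := by
  rw [← mul_prod_erase univ _ (mem_univ i), ← mul_prod_erase univ (fun j => r (J j)) (mem_univ i),
    Function.update_self, prod_congr rfl fun j hj => by
      rw [Function.update_of_ne (ne_of_mem_erase hj)]]
  ring

/-- Two boxes `r`, `r'` with `r * r' = 1` up to scaling: if the product of the volumes of the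
images is at most `L` times the square of the minor on `J`, the reduced form respects both. -/
theorem split (h : mn P J ≠ 0) {r r' : κ → ℝ} {V V' L : ℝ} (hr : ∀ a, 0 < r a)
    (hr' : ∀ a, r a * r' a = 1) (hV : ∀ J', mn P J' * ∏ j, r (J' j) ≤ V)
    (hV' : ∀ J', mn P J' * ∏ j, r' (J' j) ≤ V') (hL : V * V' ≤ L * mn P J ^ 2) (i : k) (a : κ) :
    |red P J i a| * r a ≤ L * r (J i) ∧ |red P J i a| * r (J i) ≤ L * r a := by
  have p : 0 < mn P J := (mn_nn P J).lt_of_ne' h
  have q : ∀ a, 0 < r' a := fun a => (pos_iff_pos_of_mul_pos ((hr' a).symm ▸ one_pos)).1 (hr a)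
  have key : ∀ {s s' : κ → ℝ} {W W' : ℝ}, (∀ a, 0 < s a) → (∀ a, 0 < s' a) →
      (∀ a, s a * s' a = 1) → (∀ J', mn P J' * ∏ j, s (J' j) ≤ W) →
      (∀ J', mn P J' * ∏ j, s' (J' j) ≤ W') → W * W' ≤ L * mn P J ^ 2 →
      |red P J i a| * s a ≤ L * s (J i) := by
    intro s s' W W' s0 s1 s2 a1 a2 a3
    have b1 := a1 (Function.update J i a)
    have b2 := a2 J
    have e : (∏ j, s (J j)) * ∏ j, s' (J j) = 1 := by
      rw [← prod_mul_distrib, prod_eq_one fun j _ => s2 _]
    have n1 : 0 ≤ mn P (Function.update J i a) * ∏ j, s (Function.update J i a j) :=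
      mul_nonneg (mn_nn _ _) (prod_nonneg fun j _ => (s0 _).le)
    have n2 : 0 ≤ mn P J * ∏ j, s' (J j) := mul_nonneg p.le (prod_nonneg fun j _ => (s1 _).le)
    have b := mul_le_mul_of_nonneg_right ((mul_le_mul b1 b2 n2 (n1.trans b1)).trans a3)
      (s0 (J i)).le
    rw [← red_mn h] at b
    refine le_of_mul_le_mul_right ?_ (pow_pos p 2)
    have u := prod_update (J := J) s i a
    calc |red P J i a| * s a * mn P J ^ 2
        = |red P J i a| * mn P J ^ 2 * (((∏ j, s (J j)) * s a) * ∏ j, s' (J j)) := by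
          rw [mul_right_comm (∏ j, s (J j)), e]; ring
      _ = _ := by rw [← u]; ring
      _ ≤ _ := b
      _ = _ := by ring
  refine ⟨key hr q hr' hV hV' hL, ?_⟩
  have b := key q hr (fun a => by rw [mul_comm, hr']) hV' hV (by rwa [mul_comm])
  have c := mul_le_mul_of_nonneg_right b (mul_pos (hr a) (hr (J i))).le
  calc |red P J i a| * r (J i) = |red P J i a| * r' a * (r a * r (J i)) := by
        rw [mul_assoc, ← mul_assoc (r' a), mul_comm (r' a), hr', one_mul]
    _ ≤ _ := c
    _ = L * r a * (r (J i) * r' (J i)) := by ring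
    _ = _ := by rw [hr', mul_one]

/-- The exponential form. -/
theorem split_exp (h : mn P J ≠ 0) {la : κ → ℝ} {T V V' L : ℝ} (hT : 0 ≤ T)
    (hV : ∀ J', mn P J' * Real.exp (-(T * ∑ j, la (J' j))) ≤ V)
    (hV' : ∀ J', mn P J' * Real.exp (T * ∑ j, la (J' j)) ≤ V') (hL : V * V' ≤ L * mn P J ^ 2)
    (i : k) (a : κ) : |red P J i a| ≤ L * Real.exp (-(T * |la a - la (J i)|)) := by
  obtain ⟨u, v⟩ := split h (r := fun a => Real.exp (T * la a))
    (r' := fun a => Real.exp (-(T * la a))) (fun _ => Real.exp_pos _)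
    (fun a => by rw [← Real.exp_add, add_neg_cancel, Real.exp_zero])
    (fun J' => by rw [← Real.exp_sum, ← mul_sum]; exact hV' J')
    (fun J' => by rw [← Real.exp_sum, sum_neg_distrib, ← mul_sum]; exact hV J')
    (by rwa [mul_comm]) i a
  rcases le_total (la a) (la (J i)) with e | e
  · rw [abs_of_nonpos (sub_nonpos.2 e), show -(T * -(la a - la (J i))) = T * la a - T * la (J i) by
      ring, Real.exp_sub, ← mul_div_assoc, le_div_iff₀ (Real.exp_pos _)]
    exact v
  · rw [abs_of_nonneg (sub_nonneg.2 e), show -(T * (la a - la (J i))) = T * la (J i) - T * la a by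
      ring, Real.exp_sub, ← mul_div_assoc, le_div_iff₀ (Real.exp_pos _)]
    exact u

/-- A largest minor exists. -/
theorem ex_max [Fintype κ] (P : Matrix k κ ℝ) (J0 : k → κ) :
    ∃ J, ∀ J', mn P J' ≤ mn P J := by
  classical
  obtain ⟨J, -, h⟩ := exists_max_image univ (mn P) ⟨J0, mem_univ _⟩
  exact ⟨J, fun J' => h J' (mem_univ _)⟩

end Pool.Agent.MP_5168f5_an.QA.Sp
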