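import Pool.Agent.MP_5168f5_an.QA.CpFrD
import Pool.Agent.MP_5168f5_an.QA.Split
import Pool.Agent.MP_5168f5_an.AN.C1Rho

/-! The Kakeya maximal estimate: frames for the caps, linear algebra. -/

namespace Pool.Agent.MP_5168f5_an.QA.Cp.T2

open AN Matrix Finset
open C1 (Dg Hb rho vol dt)
open GA (Mt)
open N2 (Uni Bd low blk)
open Fr (act B2 Bl Sp)
open QA.Sp (mn red)

variable {κ : Type} {m r : ℕ} {wt : κ → ℝ} {wm la ρ : Fin m → ℝ} {g h : Mt (Fin m)}
  {e f : Fin m → κ → ℝ}

/-! ### Block diagonal matrices -/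

theorem bl_inv (k : Bl wm g) (u : IsUnit g.det) : Bl wm g⁻¹ := by
  have e1 : low wm g = g := by
    ext p q
    rw [low, of_apply]
    split_ifs with a
    exacts [(k p q a.ne).symm, rfl]
  have e2 : blk wm g = g := by
    ext p q
    rw [blk, of_apply]
    split_ifs with a
    exacts [rfl, (k p q a).symm]
  have := N2.blk_mul (la := wm) (g := g) (e1.symm ▸ u)
  rw [e1, e2] at this
  rw [inv_eq_left_inv this]
  exact Fr.bl_blk _ _

theorem bl_mul (k : Bl wm g) (k' : Bl wm h) : Bl wm (g * h) := fun p q a =>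
  mul_apply.trans (sum_eq_zero fun s _ => by
    by_cases b : wm p = wm s
    · rw [k' s q (b ▸ a), mul_zero]
    · rw [k p s b, zero_mul])

theorem bl_one : Bl wm (1 : Mt (Fin m)) := fun _ _ a => one_apply_ne fun z => a (congrArg wm z)

theorem bl_un (k : Bl wm g) : Bl wm (N2.un la g) := by
  have e1 : Bl wm (low la g) := fun p q a => by
    rw [low, of_apply, k p q a, ite_self]
  unfold N2.un
  split_ifs with u
  · exact bl_mul (fun p q a => by rw [blk, of_apply, bl_inv e1 u p q a, ite_self]) e1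
  · exact bl_one

theorem act_ap (g : Mt (Fin m)) (f : Fin m → κ → ℝ) (p : Fin m) (b : κ) :
    act g f p b = ∑ q, g p q * f q b := by simp [act, Finset.sum_apply]

theorem hg_act (k : Bl wm g) (a : ∀ p, Hg wt (wm p) (f p)) (p : Fin m) :
    Hg wt (wm p) (act g f p) := fun b z => by
  rw [act_ap] at z
  obtain ⟨q, -, z⟩ := exists_ne_zero_of_sum_ne_zero z
  exact (a q b (right_ne_zero_of_mul z)).trans
    (not_not.1 fun y => left_ne_zero_of_mul z (k p q y)).symm

theorem cut {c : Fin m → ℝ} {s : ℝ} (a : ∀ p, Hg wt (wm p) (e p))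
    (b : Hg wt s (∑ q, c q • e q)) : ∑ q, (if s = wm q then c q else 0) • e q = ∑ q, c q • e q := by
  funext x
  by_cases z : wt x = s
  · simp only [Finset.sum_apply, Pi.smul_apply, smul_eq_mul]
    refine sum_congr rfl fun q _ => ?_
    split_ifs with y
    · rfl
    · rw [show e q x = 0 from not_not.1 fun w => y (z.symm.trans (a q x w)), mul_zero, mul_zero]
  · rw [show (∑ q, c q • e q) x = 0 from not_not.1 fun w => z (b x w)]
    simp only [Finset.sum_apply, Pi.smul_apply, smul_eq_mul]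
    refine sum_eq_zero fun q _ => ?_
    split_ifs with y
    · rw [show e q x = 0 from not_not.1 fun w => z ((a q x w).trans y.symm), mul_zero]
    · rw [zero_mul]

theorem bl_tr (a : ∀ p, Hg wt (wm p) (e p)) (b : ∀ p, Hg wt (wm p) (act g e p))
    (i : ∀ u v, act u e = act v e → u = v) : Bl wm g :=
  i (blk wm g) g (funext fun p => cut a (b p)) ▸ Fr.bl_blk _ _

theorem det_uni {ι : Type} [Fintype ι] [DecidableEq ι] {A : Matrix ι ι ℝ} {l : ι → ℝ}
    (k : ∀ p q, ¬l q < l p → A p q = (1 : Matrix ι ι ℝ) p q) : A.det = 1 := by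
  rw [← det_one (n := ι), det_apply, det_apply]
  refine sum_congr rfl fun s _ => congrArg _ ?_
  by_cases z : ∀ i, ¬l i < l (s i)
  · exact prod_congr rfl fun i _ => k _ _ (z i)
  obtain ⟨i, y⟩ : ∃ i, l (s i) < l i := by
    by_contra w
    push Not at w z
    exact (sum_lt_sum (fun i _ => w i) (z.imp fun i y => ⟨mem_univ i, y⟩)).ne (Equiv.sum_comp s l).symm
  have e := one_apply_ne (α := ℝ) fun w : s i = i => y.ne (congrArg l w)
  exact (prod_eq_zero (f := fun i => A (s i) i) (mem_univ i) ((k _ _ y.not_gt).trans e)).trans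
    (prod_eq_zero (f := fun i => (1 : Matrix ι ι ℝ) (s i) i) (mem_univ i) e).symm

theorem ext_perm [Fintype κ] [DecidableEq κ] (wt : κ → ℝ) (j : κ → κ) (s : Finset κ) :
    (∀ a ∈ s, ∀ b ∈ s, j a = j b → a = b) → (∀ a ∈ s, wt (j a) = wt a) →
    ∃ π : Equiv.Perm κ, (∀ a, wt (π a) = wt a) ∧ ∀ a ∈ s, π a = j a := by
  induction s using Finset.induction_on with
  | empty => exact fun _ _ => ⟨1, fun _ => rfl, by simp⟩
  | insert a s ha ih =>
    intro i w
    obtain ⟨π, p1, p2⟩ := ih (fun x u y v => i x (mem_insert_of_mem u) y (mem_insert_of_mem v))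
      fun x u => w x (mem_insert_of_mem u)
    refine ⟨Equiv.swap (π a) (j a) * π, fun x => (Equiv.apply_swap_eq_self
      ((p1 a).trans (w a (mem_insert_self _ _)).symm) _).trans (p1 x), fun x u => ?_⟩
    rcases mem_insert.1 u with rfl | v
    · exact Equiv.swap_apply_left _ _
    · have n : x ≠ a := fun z => ha (z ▸ v)
      refine (Equiv.swap_apply_of_ne_of_ne (π.injective.ne n) ?_).trans (p2 x v)
      rw [p2 x v]
      exact fun z => n (i x u a (mem_insert_self _ _) z)

/-- Exchange of a column. -/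
theorem b2_col {o : Fin m} {d : Fin m → ℝ} {c : ℝ} (h0 : ∀ p, 0 < ρ p) (hc : 1 ≤ c)
    (a : 1 ≤ c * |d o|) (b : ∀ q, |d q| * ρ o ≤ c * ρ q) :
    B2 ρ (c * c) ((1 : Mt (Fin m)).updateCol o d) := by
  have k := Fr.b2_row (ρ := fun p => (ρ p)⁻¹) (fun p => inv_pos.2 (h0 p)) hc a fun q => by
    rw [← div_eq_mul_inv, ← div_eq_mul_inv, div_le_div_iff₀ (h0 q) (h0 o)]; exact b q
  rw [← transpose_one, updateRow_transpose] at k
  have t : ∀ g : Mt (Fin m), Bd (fun p => (ρ p)⁻¹) (c * c) gᵀ → Bd ρ (c * c) g := fun g z p q => by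
    have := z q p
    rwa [inv_div_inv] at this
  exact ⟨by simpa only [det_transpose] using k.1, t _ k.2.1,
    t _ (by simpa only [transpose_nonsing_inv] using k.2.2)⟩

theorem b2_nil {c : ℝ} (h0 : ∀ p, 0 < ρ p) (z : g * g = 0) (b : Bd ρ c g) :
    B2 ρ (1 + c) (1 + g) := by
  have e : (1 + g) * (1 - g) = 1 := by rw [mul_sub, add_mul, add_mul, z]; simp
  exact ⟨isUnit_det_of_right_inverse e, (N2.bd_one h0).add b, by
    rw [inv_eq_right_inv e]; exact (N2.bd_one h0).sub b⟩

/-! ### Volumes of a coordinate subspace -/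

variable [Fintype κ] [DecidableEq κ] {I : κ → Prop} {ν ν₁ ν₂ : (κ → ℝ) → ℝ} {l : Fin m → ℝ}
  {L : ℝ} {Q : Matrix (Fin r) (Fin m) ℝ}

open Classical in
/-- Extension by zero is linear. -/
noncomputable def exL (I : κ → Prop) : ({a // I a} → ℝ) →ₗ[ℝ] κ → ℝ where
  toFun := ext I
  map_add' x y := funext fun a => by simp only [ext, Pi.add_apply]; split_ifs <;> simp
  map_smul' c x := funext fun a => by simp only [ext, Pi.smul_apply]; split_ifs <;> simp

omit [Fintype κ] [DecidableEq κ] in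
theorem ext_res {y : κ → ℝ} (k : ∀ b, ¬I b → y b = 0) : ext I (fun a => y a) = y :=
  funext fun a => by
    unfold ext
    split_ifs with z
    exacts [rfl, (k a z).symm]

omit [Fintype κ] [DecidableEq κ] in
theorem hb_ext (k : Hb ν) : Hb fun y => ν (ext I y) := by
  obtain ⟨ι, _, A, i, e⟩ := k
  refine ⟨ι, inferInstance, A ∘ₗ exL I, i.comp fun x y z => funext fun a => ?_, fun y => e _⟩
  simpa [exL, ext, a.2] using congrFun z a

omit [Fintype κ] [DecidableEq κ] in
theorem mn_le (k : Dg ν f l L) (hν : Hb ν) (s : Sp f) (hL : 0 < L) (h0 : ∀ p, 0 < l p)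
    (a : ∀ i b, ¬I b → (∑ q, Q i q • f q) b = 0) (J : Fin r → Fin m) :
    mn Q J * ∏ j, l (J j) ≤
      L ^ r * vol (fun y => ν (ext I y)) fun i (b : {a // I a}) => (∑ q, Q i q • f q) b := by
  let b := Module.Basis.mk (k.li hν h0) s.top
  have e : ⇑b = f := Module.Basis.coe_mk _ _
  have k1 := C1.C1TopA.dt_coord b (e ▸ k) hL h0 J fun i => ∑ q, Q i q • f q
  have k2 : dt (fun i => b.coord (J i)) (fun i => ∑ q, Q i q • f q) = mn Q J := by
    rw [dt, mn, ← det_transpose]
    congr 2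
    ext i j
    simp [← e, Finsupp.single_apply]
  rw [k2, mul_comm] at k1
  refine k1.trans (mul_le_mul_of_nonneg_left (C1.vol_le hν.nonneg fun φ u => le_of_eq_of_le ?_
    (C1.le_vol (φ := fun i => φ i ∘ₗ exL I) (fun i x => u i _) _)) (by positivity))
  unfold dt
  congr 2
  ext i j
  exact congrArg (φ i) (ext_res (a j)).symm

open Classical in
omit [DecidableEq κ] in
/-- A subspace with a linear volume is split by the frame. -/
theorem spl0 {T E c : ℝ} (hr : Fintype.card {a // I a} = r) (s : Sp f) (hL : 0 < L) (hT : 0 ≤ T)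
    (hE : 0 ≤ E) (h0 : Hb ν) (h1 : Hb ν₁) (h2 : Hb ν₂) (k0 : Dg ν f (fun _ => 1) L)
    (k1 : Dg ν₁ f (fun p => Real.exp (-(T * la p))) L)
    (k2 : Dg ν₂ f (fun p => Real.exp (T * la p)) L)
    (v : rho r (fun y => ν₁ (ext I y)) nB * rho r (fun y => ν₂ (ext I y)) nB ≤
      E * rho r (fun y => ν (ext I y)) nB ^ 2)
    (a : ∀ i b, ¬I b → (∑ q, Q i q • f q) b = 0) (b : ∀ i q, |Q i q| ≤ c) {J : Fin r → Fin m}
    (d : mn Q J = 1) (i : Fin r) (q : Fin m) : |red Q J i q| ≤
      E * (L ^ r * (r.factorial * (m * L * c) ^ r)) ^ 2 * Real.exp (-(T * |la q - la (J i)|)) := by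
  let B := Module.finBasisOfFinrankEq ℝ ({a // I a} → ℝ) ((Module.finrank_fintype_fun_eq_card ℝ).trans hr)
  set w : Fin r → {a // I a} → ℝ := fun i b => (∑ q, Q i q • f q) b with hw
  have t : ∀ {ν : (κ → ℝ) → ℝ}, Hb ν → vol (fun y => ν (ext I y)) w =
      |B.det w| * vol nB B * rho r (fun y => ν (ext I y)) nB := fun k => by
    rw [C1.vol_top B (hb_ext k).nonneg, ← (C1.rho_top (hb_ext k) hb_nB B).2]; ring
  have u : vol (fun y => ν (ext I y)) w ≤ r.factorial * (m * L * c) ^ r :=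
    (C1.vol_le_prod (hb_ext h0).nonneg w).trans (mul_le_mul_of_nonneg_left
      ((prod_le_prod (g := fun _ => m * L * c) (fun j _ => h0.nonneg _) fun j _ => by
        rw [hw, ext_res (a j)]
        simpa using k0.upper h0 hL.le (B := c) fun q => by simpa using b j q).trans_eq (by simp))
      (Nat.cast_nonneg _))
  refine QA.Sp.split_exp (d.trans_ne one_ne_zero) hT (V := L ^ r * vol (fun y => ν₁ (ext I y)) w)
    (V' := L ^ r * vol (fun y => ν₂ (ext I y)) w) (fun J' => ?_) (fun J' => ?_) ?_ i q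
  · have := mn_le k1 h1 s hL (fun _ => Real.exp_pos _) a J'
    rwa [← Real.exp_sum, sum_neg_distrib, ← mul_sum] at this
  · have := mn_le k2 h2 s hL (fun _ => Real.exp_pos _) a J'
    rwa [← Real.exp_sum, ← mul_sum] at this
  · have z := pow_le_pow_left₀ (C1.vol_nonneg (hb_ext h0).nonneg w) u 2
    rw [t h0, mul_pow] at z
    have y := mul_le_mul_of_nonneg_left v (sq_nonneg (|B.det w| * vol nB B))
    have x := mul_le_mul_of_nonneg_left z hE
    rw [d, t h1, t h2, mul_pow _ (_ * _)]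
    nlinarith [mul_le_mul_of_nonneg_left (y.trans_eq (mul_left_comm _ _ _)) (sq_nonneg (L ^ r)),
      mul_le_mul_of_nonneg_left x (sq_nonneg (L ^ r))]

/-- The gain of the norm is bounded by the gain of the volume. -/
theorem nS_gain {S S' : Set (κ → ℝ)} {D D' R : ℝ} (k : Fu S 1 D) (k' : Fu S' 1 D') (e : S ⊆ S')
    (hg : ∀ φ ∈ S, ∃ μ, Hg wt μ φ) (v : vl wt S' ≤ R * vl wt S) (y : κ → ℝ) :
    nS wt S' y ≤ Fintype.card κ * (2 * Fintype.card κ * R * (2 * Fintype.card κ * nS wt S y)) := by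
  refine nS_le k' fun φ a ⟨μ, b⟩ => ?_
  have p := k.vl_pos (wt := wt)
  have R0 : 0 ≤ R := (pos_of_mul_pos_left ((k'.vl_pos).trans_le v) p.le).le
  have n0 : 0 ≤ nS wt S y := norm_nonneg _
  rcases (abs_nonneg (φ ⬝ᵥ y)).eq_or_lt with z | z
  · rw [← z]; positivity
  have t : 0 < 2 * Fintype.card κ * nS wt S y := by
    by_contra w
    rw [show y = 0 from funext fun b => abs_nonpos_iff.1 ((coord_le k y b).trans (not_lt.1 w))] at z
    simp at z
  have := k.gain k' e a b (x := (2 * Fintype.card κ * nS wt S y)⁻¹ • y) (fun ψ u => by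
    rw [dotProduct_smul, smul_eq_mul, abs_mul, abs_of_pos (inv_pos.2 t), inv_mul_le_iff₀ t, mul_one]
    exact (hg ψ u).elim fun _ u' => dot_le k u u' y) (mul_pos (inv_pos.2 t) z) (by
    rw [dotProduct_smul, smul_eq_mul, abs_mul, abs_of_pos (inv_pos.2 t)])
  rw [← div_le_iff₀ t, div_eq_inv_mul]
  refine le_of_mul_le_mul_right (this.trans ?_) p
  rw [mul_assoc _ R]
  exact mul_le_mul_of_nonneg_left v (by positivity)

end Pool.Agent.MP_5168f5_an.QA.Cp.T2
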