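import Pool.Agent.MP_5168f5_an.QA.CpFrL
import Pool.Agent.MP_5168f5_an.AN.GAApi

/-! The Kakeya maximal estimate: frames for the caps, along a sequence of samples. -/

namespace Pool.Agent.MP_5168f5_an.QA.Cp.T2

open H19 H17S H17F R4 AN Filter Matrix Finset Real
open G39 (dl)
open C1 (Dg Hb rho)
open GA (Mt Neg)
open N2 (Uni Bd)
open Fr (act B2 Bl Sp Sq BS DS B1 rx sq_const tr)
open QA.Sp (mn red)

variable {κ : Type} {M : ℕ → ℕ} {m r : ℕ} {c : ℝ}

theorem sq_pow {q q' : ℕ → ℝ → Prop} (hM : Big M) (C : ℝ) (k : ℕ) (a : Sq M 0 q)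
    (H : ∀ᶠ n in UF, ∀ L L', 1 ≤ L → C * L ^ k ≤ L' → q n L → q' n L') : Sq M 0 q' := fun ε hε => by
  filter_upwards [a (ε / (k + 1)) (by positivity), sq_const hM C (ε / (k + 1)) (by positivity), H]
    with n u v w
  refine w _ _ (one_le_exp (by positivity))
    ((mul_le_mul_of_nonneg_right v (by positivity)).trans_eq ?_) u
  rw [← pow_succ', ← exp_nat_mul]
  congr 1
  push_cast
  field_simp
  ring

theorem la_cmp {ν ν' : ℕ → (κ → ℝ) → ℝ} {f : ℕ → Fin m → κ → ℝ} {s s' : Fin m → ℕ → ℝ}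
    (k : DS M 0 ν f s) (k' : DS M 0 ν' f s') {p : Fin m}
    (a : Sq M c fun n L => ν n (f n p) ≤ L * ν' n (f n p)) :
    Le M (s p) fun n => s' p n + c * M n := fun ε hε => by
  have e : 0 < ε / 3 := by positivity
  filter_upwards [k.2 _ e, k'.2 _ e, a _ e] with n u v w
  have := (u.le p).trans (mul_le_mul_of_nonneg_left (w.trans (mul_le_mul_of_nonneg_left (v.1 p)
    (exp_pos _).le)) (exp_pos _).le)
  rw [← exp_add, ← exp_add, ← exp_add, exp_le_exp] at this
  linarith

theorem neg_sq {u : ℕ → ℝ} (k : Neg M u) (c : ℝ) : Sq M c fun n L => |u n| ≤ L := fun ε _ =>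
  (k (-(c + ε))).mono fun n a => a.trans_eq (by unfold dl; congr 1; ring)

theorem sq_neg {u : ℕ → ℝ} (k : ∀ c, Sq M c fun n L => |u n| ≤ L) : Neg M u := fun K =>
  (k (-K - 1) 1 one_pos).mono fun n a => a.trans_eq (by unfold dl; congr 1; ring)

variable [Fintype κ] [DecidableEq κ] {wt : κ → ℝ} {g0 : κ → Prop} {τ : κ} {sg : ℝ} {Ω : ℕ → Type}
  {P : ∀ n, FP (Ω n)} {N : ℕ → ℝ} {S : ℚ → ∀ n, Ω n → Set (κ → ℝ)} {wm la : Fin m → ℝ}
  {ω ω₀ : ∀ n, Ω n} {f F : ℕ → Fin m → κ → ℝ}

/-- The norms along a sequence of samples. -/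
noncomputable abbrev nu (wt : κ → ℝ) (S : ℚ → ∀ n, Ω n → Set (κ → ℝ)) (ω : ∀ n, Ω n) (x : ℚ) :
    ℕ → (κ → ℝ) → ℝ := fun n => nS wt (S x n (ω n))

/-- A homogeneous frame for all levels. -/
structure AD (wt : κ → ℝ) (S : ℚ → ∀ n, Ω n → Set (κ → ℝ)) (M : ℕ → ℕ) (ω : ∀ n, Ω n)
    (wm la : Fin m → ℝ) (f : ℕ → Fin m → κ → ℝ) : Prop where
  hg : ∀ᶠ n in UF, ∀ p, Hg wt (wm p) (f n p)
  ds : ∀ x : ℚ, DS M 0 (nu wt S ω x) f (rx M la x)

theorem AD.act (h : AD wt S M ω wm la f) (hM : Big M) {g : ℕ → Mt (Fin m)}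
    (a : ∀ᶠ n in UF, Bl wm (g n)) (b : ∀ x : ℚ, BS M 0 (rx M la x) g) :
    AD wt S M ω wm la fun n => act (g n) (f n) :=
  ⟨(a.and h.hg).mono fun _ k => hg_act k.1 k.2, fun x => add_zero (0 : ℝ) ▸ (h.ds x).act hM (b x)⟩

variable (H : FI wt g0 τ sg P M N S) (a : ∀ᶠ n in UF, ω n ∈ (P n).S)
include H a

theorem FI.cp (x : ℚ) : ∀ᶠ n in UF, Cap wt (S x n (ω n)) :=
  ((H.cap x).and a).mono fun _ k => k.1 _ k.2

/-- The rates. -/
theorem rates (h : AD wt S M ω wm la f) (p : Fin m) :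
    la p ≤ 0 ∧ -la p ≤ sg ∧ (wm p = 0 → la p = 0) := by
  have k : ∀ {x y : ℚ} {c : ℝ}, (Sq M c fun n L => nu wt S ω x n (f n p) ≤ L * nu wt S ω y n (f n p)) →
      -(la p * x) ≤ -(la p * y) + c := fun k => Le.num H.big
    ((la_cmp (h.ds _) (h.ds _) k).of_sub (.of_forall fun n => by simp only [rx]; linarith))
  have n0 : ∀ x n y, 0 ≤ nu wt S ω x n y := fun _ _ _ => norm_nonneg _
  have k1 := k (x := 0) (y := 1) ((sq_const H.big (Fintype.card κ * (2 * Fintype.card κ))).imp (by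
    filter_upwards [H.cp a 0, H.cp a 1, H.nest 0 1 zero_le_one, a] with n ⟨⟨_, u⟩, _⟩ ⟨⟨_, v⟩, _⟩ w z L y
    exact (nS_mono u v (w _ z) _).trans ((mul_assoc _ _ _).symm.trans_le
      (mul_le_mul_of_nonneg_right y (n0 _ _ _)))))
  have k2 := k (x := 1) (y := 0) (c := 0 + sg) (Sq.two H.big 1
    (sq_const H.big (Fintype.card κ * (2 * Fintype.card κ) * (2 * Fintype.card κ)))
    (q' := fun n L => vl wt (S 1 n (ω n)) ≤ L * vl wt (S 0 n (ω n)))
    (fun ε hε => ((H.top 0 1 ε zero_le_one hε).and a).mono fun n u => by simpa using u.1 _ u.2) (by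
    filter_upwards [H.cp a 0, H.cp a 1, H.nest 0 1 zero_le_one, a]
      with n ⟨⟨_, u⟩, u'⟩ ⟨⟨_, v⟩, _⟩ w z L L' L'' _ l y b d
    refine (nS_gain u v (w _ z) (fun φ e => (u' φ e).1) d _).trans ?_
    nlinarith [mul_le_mul_of_nonneg_right ((mul_le_mul_of_nonneg_right b l.le).trans
      (by linarith : L * L' ≤ L'')) (n0 0 n (f n p))]))
  push_cast at k1 k2
  refine ⟨by linarith, by linarith, fun e => ?_⟩
  have k3 := k (x := 1) (y := 0)
    ((sq_const H.big (Fintype.card κ * (Fintype.card κ * (2 * Fintype.card κ)))).imp (by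
    filter_upwards [H.cp a 0, H.cp a 1, h.hg] with n ⟨⟨_, u⟩, _⟩ ⟨⟨_, v⟩, v'⟩ w L y
    refine (nS_le v (t := Fintype.card κ * (2 * Fintype.card κ * nu wt S ω 0 n (f n p)))
      fun φ b _ => (abs_sum_le_sum_abs _ _).trans ((sum_le_card_nsmul _ _
        (2 * Fintype.card κ * nu wt S ω 0 n (f n p)) fun i _ => ?_).trans_eq (by simp))).trans ?_
    · by_cases z : f n p i = 0
      · rw [z, mul_zero, abs_zero]; exact (abs_nonneg _).trans (coord_le u _ i)
      · rw [abs_mul]
        exact (mul_le_of_le_one_left (abs_nonneg _) ((v' φ b).2 i ((w p i z).trans e))).trans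
          (coord_le u _ i)
    · nlinarith [mul_le_mul_of_nonneg_right y (n0 0 n (f n p))]))
  push_cast at k3
  linarith

open Classical in
/-- The subspace `g0` is split by every frame. -/
theorem spl (d : ∀ x : ℚ, DS M 0 (nu wt S ω x) f (rx M la x))
    (hr : Fintype.card {b // g0 b} = r) {Q : ℕ → Matrix (Fin r) (Fin m) ℝ} {J : Fin r → Fin m}
    (z : ∀ᶠ n in UF, mn (Q n) J = 1 ∧ ∀ i b, ¬g0 b → (∑ q, Q n i q • f n q) b = 0)
    (b : Sq M 0 fun n L => ∀ i q, |Q n i q| ≤ L) {i : Fin r} {q : Fin m} (y : la q ≠ la (J i)) :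
    Neg M fun n => red (Q n) J i q := by
  obtain ⟨c, s, v⟩ : ∃ c s : ℝ, ∀ (x : ℚ) (ε : ℝ), 0 < ε → ∀ᶠ n in UF, ∀ ω ∈ (P n).S,
      |ob wt g0 r (S x n ω) - c * N n - s * (x * M n)| ≤ ε * M n :=
    H.vol none r (hr ▸ Fintype.card_subtype_le _)
  have y0 : 0 < |la q - la (J i)| := abs_pos.2 (sub_ne_zero.2 y)
  refine sq_neg fun c' => ?_
  obtain ⟨T, hT⟩ := exists_nat_ge (|c'| / |la q - la (J i)|)
  rw [div_le_iff₀ y0] at hT
  have rk := (Module.finrank_fintype_fun_eq_card ℝ (η := {b // g0 b})).trans hr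
  have v1 : Sq M 0 fun n E => rho r (fun y => nu wt S ω T n (ext g0 y)) nB *
      rho r (fun y => nu wt S ω (-T) n (ext g0 y)) nB ≤
      E * rho r (fun y => nu wt S ω 0 n (ext g0 y)) nB ^ 2 := fun ε hε => by
    have e : 0 < ε / 4 := by positivity
    filter_upwards [v T _ e, v (-T) _ e, v 0 _ e, a, (d T).1, (d (-T)).1, (d 0).1]
      with n u1 u2 u3 w b1 b2 b3
    have p := fun {ν} (k : Hb ν) => C1.rho_pos (hb_ext (I := g0) k) hb_nB rk le_rfl
    rw [← exp_log (p b1.1), ← exp_log (p b2.1), ← exp_log (p b3.1), ← exp_nat_mul, ← exp_add,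
      ← exp_add, exp_le_exp]
    have t1 := (abs_le.1 (u1 _ w)).2
    have t2 := (abs_le.1 (u2 _ w)).2
    have t3 := (abs_le.1 (u3 _ w)).1
    simp only [ob, nu] at t1 t2 t3 ⊢
    push_cast at t1 t2 t3 ⊢
    linarith
  refine Sq.sh (sq_pow H.big ((r.factorial * (m : ℝ) ^ r) ^ 2) (6 * r + 1)
    ((d 0).2.and ((d T).2.and ((d (-T)).2.and (v1.and b)))) ?_)
  filter_upwards [z, (d T).1, (d (-T)).1, (d 0).1] with n z b1 b2 b3 L L' l1 l2 ⟨k0, k1, k2, k3, k4⟩
  have m0 : (0 : ℝ) ≤ M n := Nat.cast_nonneg _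
  refine (spl0 (T := T * M n) (la := la) (L := L) (E := L) hr b3.2 (by linarith) (by positivity)
    (by linarith) b3.1
    b1.1 b2.1 (by simpa [rx] using k0) (by convert k1 using 3; simp only [rx]; push_cast; ring)
    (by convert k2 using 3; simp only [rx]; push_cast; ring) k3 z.2 k4 z.1 i q).trans
    (mul_le_mul (le_of_eq_of_le (by ring) l2) (exp_le_exp.2 ?_) (exp_pos _).le
      (le_trans (by positivity) l2))
  nlinarith [mul_le_mul_of_nonneg_right ((neg_le_abs c').trans hT) m0]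

/-- The coordinate `τ` becomes a coordinate of the frame. -/
theorem chi (h : AD wt S M ω wm la f) : ∃ o F, la o = 0 ∧ wm o = wt τ ∧ AD wt S M ω wm la F ∧
    ∀ᶠ n in UF, ∀ p, F n p τ = (1 : Mt (Fin m)) p o := by
  have hM := H.big
  obtain ⟨Γ, s, k⟩ := H.long
  obtain ⟨y, k⟩ := C1.ev_ch ((k.and a).mono fun n u => u.1 _ u.2)
  obtain ⟨c, e⟩ := C1.ev_ch ((h.ds 0).1.mono fun n u => u.2 (y n))
  obtain ⟨o, t⟩ := Ultrafilter.eventually_exists_iff.1 (show ∀ᶠ n in UF, ∃ o,
      1 ≤ Γ n * (m * (|c n o| * |f n o τ|)) from (k.and e).mono fun n u => by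
    by_contra z
    push Not at z
    have m0 : (0 : ℝ) < m := by
      rcases Nat.eq_zero_or_pos m with rfl | w
      · simpa [u.2, one_pos.not_ge] using u.1.2
      · exact_mod_cast w
    have := u.1.2
    rw [u.2, Finset.sum_apply] at this
    refine this.not_gt (lt_of_mul_lt_mul_left ?_ m0.le)
    refine lt_of_le_of_lt (mul_le_mul_of_nonneg_left (mul_le_mul_of_nonneg_left
      (abs_sum_le_sum_abs _ _) (s.pos n).le) m0.le) ?_
    rw [mul_sum, mul_sum]
    refine (sum_lt_sum_of_nonempty (g := fun _ => 1) ⟨⟨0, by exact_mod_cast m0⟩, mem_univ _⟩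
      fun p _ => ?_).trans_eq (by simp)
    rw [Pi.smul_apply, smul_eq_mul, abs_mul, mul_left_comm]
    exact z p)
  have up : ∀ (x : ℚ) p, Sq M 0 fun n L => |f n p τ| ≤ L * exp (rx M la x p n) := fun x p =>
    sq_pow hM (2 * Fintype.card κ) 1 (h.ds x).2 ((H.cp a x).mono fun n ⟨⟨_, u⟩, _⟩ L L' _ l v =>
      (coord_le u _ τ).trans ((mul_le_mul_of_nonneg_left (v.1 p) (by positivity)).trans (by
        nlinarith [exp_pos (rx M la x p n)])))
  have lo : Sq M 0 fun n L => exp (rx M la 1 o n) ≤ L * |f n o τ| := by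
    refine sq_pow hM (m * Fintype.card κ) 2 (q := fun n L => Γ n ≤ L ∧ _)
      (Sq.and (fun ε hε => by simpa using s.2 ε hε) (h.ds 1).2) ?_
    filter_upwards [H.cp a 1, k, e, t] with n ⟨⟨_, u⟩, _⟩ v w z L L' l1 l2 ⟨b, d⟩
    have b1 := (d.2 (c n) o).trans (mul_le_mul_of_nonneg_left (w ▸ nS_le u fun φ i _ => v.1 φ i)
      (by linarith))
    have b2 := z.trans (mul_le_mul_of_nonneg_right b (by positivity))
    push_cast at b1
    have b3 := mul_le_mul_of_nonneg_right b2 (exp_pos (rx M la 1 o n)).le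
    have b4 := mul_le_mul_of_nonneg_left b1 (show 0 ≤ L * m * |f n o τ| by positivity)
    nlinarith [mul_le_mul_of_nonneg_right l2 (abs_nonneg (f n o τ))]
  have l0 : la o = 0 := le_antisymm (rates H a h o).1 (Le.num hM fun ε hε => by
    filter_upwards [lo _ (half_pos hε), up 0 o _ (half_pos hε)] with n u v
    have := u.trans (mul_le_mul_of_nonneg_left v (exp_pos _).le)
    rw [← exp_add, ← exp_add, exp_le_exp] at this
    simp only [rx] at this
    push_cast at this
    linarith)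
  have r0 : ∀ (x : ℝ) n, exp (rx M la x o n) = 1 := fun x n => by simp [rx, l0]
  have bs : ∀ x : ℚ, BS M 0 (rx M la x) fun n => (1 : Mt (Fin m)).updateCol o fun p => f n p τ :=
    fun x => sq_pow hM 1 2 (lo.and (Sq.all (up x))) (.of_forall fun n L L' l1 l2 u =>
      (b2_col (fun _ => exp_pos _) l1 (r0 1 n ▸ u.1) fun q => by
        rw [r0, mul_one]; exact u.2 q).mono (fun _ => exp_pos _) (by linarith))
  have w0 : ∀ᶠ n in UF, wt τ = wm o := ((lo 1 one_pos).and h.hg).mono fun n u =>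
    u.2 o τ fun z => (exp_pos _).not_ge (by simpa [z] using u.1)
  refine ⟨o, _, l0, w0.exists.choose_spec.symm, h.act hM ?_ fun x => (bs x).inv, ?_⟩
  · filter_upwards [(bs 0).det, h.hg, w0] with n u v w
    refine bl_inv (fun p q z => ?_) u
    rw [updateCol_apply]
    split_ifs with i
    · exact not_not.1 fun j => z ((v p τ j).symm.trans (i ▸ w))
    · exact bl_one p q z
  · filter_upwards [(bs 0).det] with n u p
    refine (act_ap _ _ _ _).trans (Eq.trans ?_ (congrFun (congrFun (nonsing_inv_mul _ u) p) o))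
    simp [mul_apply]

open Classical in
/-- Part of the frame is moved into `g0`. -/
theorem gst (h : AD wt S M ω wm la f) (σ : Fin r ≃ {b // g0 b}) {o : Fin m}
    (z : ∀ᶠ n in UF, ∀ p, f n p τ = (1 : Mt (Fin m)) p o) :
    ∃ (J : Fin r → Fin m) (s : Equiv.Perm (Fin r)) (F : ℕ → Fin m → κ → ℝ), Function.Injective J ∧
      (∀ i, J i ≠ o ∧ wm (J i) = wt (σ (s i))) ∧ AD wt S M ω wm la F ∧ ∀ᶠ n in UF,
        (∀ p, F n p τ = (1 : Mt (Fin m)) p o) ∧ ∀ i b, ¬g0 b → F n (J i) b = 0 := by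
  have hM := H.big
  obtain ⟨Q, e⟩ := C1.ev_ch (α := fun _ => Matrix (Fin r) (Fin m) ℝ)
    (p := fun n Q => ∀ i, Pi.single (σ i : κ) 1 = ∑ q, Q i q • f n q)
    ((h.ds 0).1.mono fun n u => Classical.skolem.1 fun i => u.2 _)
  have e1 : ∀ᶠ n in UF, ∀ i q, Q n i q ≠ 0 → wm q = wt (σ i) ∧ q ≠ o := by
    filter_upwards [e, z, h.hg, (h.ds 0).1, (h.ds 0).2 1 one_pos] with n u v w x y i q t
    refine ⟨not_not.1 fun j => t ?_, fun j => t ?_⟩
    · have := Fintype.linearIndependent_iff.1 (y.li x.1 fun _ => exp_pos _)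
        (fun q => (if wt (σ i) = wm q then Q n i q else 0) - Q n i q) (by
          simp only [sub_smul, sum_sub_distrib]
          exact sub_eq_zero.2 (cut w (u i ▸ hg_one wt _))) q
      rwa [if_neg (Ne.symm j), zero_sub, neg_eq_zero] at this
    · have := congrFun (u i) τ
      rw [Pi.single_eq_of_ne fun b : τ = σ i => H.tg (b ▸ (σ i).2)] at this
      simpa [Finset.sum_apply, v, one_apply, j] using this.symm
  obtain ⟨⟨J, s⟩, k⟩ := Ultrafilter.eventually_exists_iff.1 (show ∀ᶠ n in UF,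
      ∃ x : (Fin r → Fin m) × Equiv.Perm (Fin r), mn (Q n) x.1 ≠ 0 ∧
        (∀ J', mn (Q n) J' ≤ mn (Q n) x.1) ∧ ∀ i, Q n (x.2 i) (x.1 i) ≠ 0 from e.mono fun n u => by
    obtain ⟨J0, j⟩ : ∃ J0, mn (Q n) J0 ≠ 0 := by
      by_contra t
      push Not at t
      have e : (1 : Matrix (Fin r) (Fin r) ℝ) = fun j => ∑ q, f n q (σ j) • fun i => Q n i q := by
        ext j i
        have := congrFun (u i) (σ j)
        simp only [Finset.sum_apply, Pi.smul_apply, smul_eq_mul, mul_comm (f n _ _)] at this ⊢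
        rw [← this, one_apply, Pi.single_apply]
        simp only [Subtype.val_inj, σ.injective.eq_iff]
      refine one_ne_zero ((det_one (R := ℝ) (n := Fin r)).symm.trans ?_)
      change (detRowAlternating (n := Fin r) (R := ℝ)).toMultilinearMap _ = _
      rw [e, MultilinearMap.map_sum]
      refine sum_eq_zero fun J _ => (MultilinearMap.map_smul_univ _ _ _).trans ?_
      exact smul_eq_zero_of_right _ ((det_transpose _).trans (abs_eq_zero.1 (t J)))
    obtain ⟨J, b⟩ := QA.Sp.ex_max (Q n) J0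
    have j' : mn (Q n) J ≠ 0 := (((QA.Sp.mn_nn _ _).lt_of_ne' j).trans_le (b J0)).ne'
    have := (QA.Sp.unit_of j').ne_zero
    rw [det_apply] at this
    obtain ⟨s, -, t⟩ := exists_ne_zero_of_sum_ne_zero this
    exact ⟨(J, s), j', b, fun i => prod_ne_zero_iff.1 (right_ne_zero_of_smul t) i (mem_univ i)⟩)
  dsimp only at k
  obtain ⟨n₀, k0, k1⟩ := (k.and e1).exists
  have ij := QA.Sp.inj_J k0.1
  have e2 : ∀ᶠ n in UF, (red (Q n) J).submatrix id J = 1 ∧ (∀ i q, |red (Q n) J i q| ≤ 1) ∧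
      (∀ i b, ¬g0 b → (∑ q, red (Q n) J i q • f n q) b = 0) ∧
      ∀ i q, wm (J i) ≠ wm q → red (Q n) J i q = 0 := by
    filter_upwards [k, e, e1] with n u v w
    refine ⟨Matrix.ext fun i j => (QA.Sp.red_J u.1 i j).trans (one_apply).symm,
      QA.Sp.red_le u.1 (by simpa using u.2.1), fun i b t => ?_, fun i q t => ?_⟩
    · simp only [red, mul_apply, sum_smul, mul_smul]
      rw [sum_comm]
      simp only [← smul_sum, ← v, Finset.sum_apply, Pi.smul_apply]
      exact sum_eq_zero fun j _ => by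
        rw [Pi.single_eq_of_ne fun x : b = σ j => t (x ▸ (σ j).2), smul_zero]
    · have x : (Q n).submatrix id J * (of fun i q =>
          if wm (J i) = wm q then red (Q n) J i q else 0) = Q n := by
        ext i q
        by_cases y : Q n i q = 0 ∧ wm q ≠ wt (σ i)
        · rw [y.1]
          refine mul_apply.trans (sum_eq_zero fun j _ => ?_)
          by_cases x : Q n i (J j) = 0
          · exact mul_eq_zero_of_left x _
          · exact mul_eq_zero_of_right _ (if_neg fun t => y.2 (t.symm.trans (w i _ x).1))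
        · rw [← congrFun (congrFun (QA.Sp.mul_red u.1) i) q, mul_apply, mul_apply]
          refine sum_congr rfl fun j _ => ?_
          by_cases x : Q n i (J j) = 0
          · exact (mul_eq_zero_of_left x _).trans (mul_eq_zero_of_left x _).symm
          · exact congrArg _ (if_pos ((w i _ x).1.trans (not_not.1 fun t => y
              ⟨not_not.1 fun t' => t (w i q t').1.symm, Ne.symm t⟩)))
      have y := congrArg (((Q n).submatrix id J)⁻¹ * ·) x
      simp only [nonsing_inv_mul_cancel_left _ _ (QA.Sp.unit_of u.1)] at y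
      exact (congrFun (congrFun y i) q).symm.trans (if_neg t)
  have ng : ∀ i q, la q ≠ la (J i) → Neg M fun n => red (Q n) J i q := fun i q y =>
    (spl H a h.ds (by simpa using (Fintype.card_congr σ).symm) (Q := fun n => red (Q n) J)
      (e2.mono fun n u => ⟨by rw [mn, u.1, det_one, abs_one], u.2.2.1⟩)
      ((sq_const hM 1).imp (e2.mono fun n u L l i q => (u.2.1 i q).trans l)) y).congr
      (e2.mono fun n u => by rw [red.eq_1 (red _ _), u.1, inv_one, Matrix.one_mul])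
  let g : ℕ → Mt (Fin m) := fun n => Function.extend J
    (fun i q => red (Q n) J i q - (1 : Mt (Fin m)) (J i) q) 0
  have g1 : ∀ n i q, g n (J i) q = red (Q n) J i q - (1 : Mt (Fin m)) (J i) q := fun n i q =>
    congrFun (ij.extend_apply _ _ i) q
  have g2 : ∀ n p q, (¬∃ i, J i = p) → g n p q = 0 := fun n p q t =>
    congrFun (Function.extend_apply' _ _ p t) q
  have g3 : ∀ᶠ n in UF, ∀ p i, g n p (J i) = 0 := e2.mono fun n u p i => by
    by_cases t : ∃ j, J j = p
    · obtain ⟨j, rfl⟩ := t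
      rw [g1, show red (Q n) J j (J i) = _ from congrFun (congrFun u.1 j) i, one_apply, one_apply]
      simp only [ij.eq_iff, sub_self]
    · exact g2 n p _ t
  have g4 : ∀ n i, act (1 + g n) (f n) (J i) = ∑ q, red (Q n) J i q • f n q := fun n i => by
    simp [act, g1]
  have bs : ∀ x : ℚ, BS M 0 (rx M la x) fun n => 1 + g n := fun x => by
    refine sq_pow hM 2 1 (q := fun n L => Bd (fun p => exp (rx M la x p n)) L (g n))
      (Sq.all fun p => Sq.all fun q => ?_) (g3.mono fun n u L L' l1 l2 v =>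
        (b2_nil (fun _ => exp_pos _) (Matrix.ext fun p q => mul_apply.trans (sum_eq_zero fun s _ => ?_))
          v).mono (fun _ => exp_pos _) (by linarith))
    · by_cases t : ∃ j, J j = p
      swap
      · exact fun ε _ => .of_forall fun n => (abs_eq_zero.2 (g2 n p q t)).trans_le (by positivity)
      obtain ⟨i, rfl⟩ := t
      by_cases y : la q = la (J i)
      · refine (sq_const hM 2).imp (e2.mono fun n u L l => ?_)
        simp only [g1, rx, y, div_self (exp_pos _).ne', mul_one]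
        refine (abs_sub _ _).trans (le_trans ?_ l)
        rw [one_apply]
        split_ifs <;> simp <;> linarith [u.2.1 i q]
      · intro ε hε
        filter_upwards [ng i q y ((la (J i) - la q) * x)] with n u
        rw [g1, one_apply_ne fun t : J i = q => y (t ▸ rfl), sub_zero, ← exp_sub]
        refine u.trans (le_of_eq_of_le ?_ (le_mul_of_one_le_left (exp_pos _).le
          (one_le_exp (by positivity))))
        simp only [dl, rx]
        congr 1
        ring
    · by_cases t : ∃ j, J j = s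
      · obtain ⟨j, rfl⟩ := t
        rw [u, zero_mul]
      · rw [g2 n s q t, mul_zero]
  refine ⟨J, s, _, ij, fun i => (k1 _ _ (k0.2.2 i)).symm, h.act hM (e2.mono fun n u p q t => ?_) bs,
    ?_⟩
  · rw [Matrix.add_apply, bl_one p q t, zero_add]
    by_cases y : ∃ j, J j = p
    · obtain ⟨j, rfl⟩ := y
      rw [g1, u.2.2.2 j q t, bl_one _ q t, sub_zero]
    · exact g2 n p q y
  · filter_upwards [e2, z] with n u v
    refine ⟨fun p => ?_, fun i b t => g4 n i ▸ u.2.2.1 i b t⟩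
    by_cases y : ∃ j, J j = p
    · obtain ⟨j, rfl⟩ := y
      rw [g4, u.2.2.1 j τ H.tg, one_apply_ne (k1 _ _ (k0.2.2 j)).2]
    · rw [act_ap, ← v p]
      simp [g2 n p _ y, one_apply]

end Pool.Agent.MP_5168f5_an.QA.Cp.T2
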