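import Pool.Agent.MP_5168f5_an.AN.G39Res
import Pool.Agent.MP_5168f5_an.AN.GAFlag

/-! The Kakeya maximal estimate: directions that no character kills generate the algebra. -/

namespace Pool.Agent.MP_5168f5_an.QA.Cp

open H19 H17S H17F AN G39 Filter Matrix Finset
open GA (Wd br)
open GF (brL)

variable {κ α : Type} [Fintype κ]

theorem ev_map {R S : Type} [CommRing R] [CommRing S] (f : R →+* S) (c : κ → κ → κ → R)
    (A : α → κ → R) (w : Wd α) (e : κ) :
    f (w.ev (br c) A e) = w.ev (br fun a b e => f (c a b e)) (fun i b => f (A i b)) e := by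
  induction w generalizing e with
  | of a => rfl
  | br u v hu hv => simp only [Wd.ev, br, map_sum, map_mul, hu, hv]

/-- Over a field: the words span. -/
theorem frat {K : Type} [Field K] {μ : κ → ℝ} {G : κ → Prop} {c : κ → κ → κ → K} {A : α → κ → K}
    {η : α → ℝ} (pos : ∀ b, G b → 0 < μ b) (hA : ∀ i b, A i b ≠ 0 → G b ∧ μ b = η i)
    (hc : ∀ b b' e, G b → G b' → c b b' e ≠ 0 → G e ∧ μ e = μ b + μ b')
    (no : ∀ s (ψ : κ → K), (∀ b, ψ b ≠ 0 → G b ∧ μ b = s) →
      (∀ b b', G b → G b' → ∑ e, c b b' e * ψ e = 0) → (∀ i, ψ ⬝ᵥ A i = 0) → ψ = 0)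
    {ψ : κ → K} (h : ∀ w : Wd α, ψ ⬝ᵥ w.ev (br c) A = 0) (b : κ) (hb : G b) : ψ b = 0 := by
  classical
  let V := Submodule.span K (Set.range fun w : Wd α => w.ev (br c) A)
  have cl : ∀ x ∈ V, ∀ y ∈ V, br c x y ∈ V := fun x hx y hy => by
    have h1 : ∀ u : Wd α, V ≤ V.comap (brL c (u.ev (br c) A)) := fun u =>
      Submodule.span_le.2 (by
        rintro _ ⟨v, rfl⟩; exact Submodule.subset_span ⟨Wd.br u v, rfl⟩)
    have h2 : V ≤ V.comap ((brL c).flip y) := Submodule.span_le.2 (by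
      rintro _ ⟨u, rfl⟩; exact h1 u hy)
    exact h2 hx
  have one : ∀ b, G b → Pi.single b (1 : K) ∈ V := fun b => by
    refine (Finite.wellFounded_of_trans_of_irrefl fun a b : κ => μ a < μ b).induction
      (C := fun b => G b → Pi.single b (1 : K) ∈ V) b fun b ih hb => ?_
    by_contra n
    obtain ⟨f, f1, f2⟩ := Submodule.exists_le_ker_of_notMem n
    let φ : κ → K := fun e => if G e ∧ μ e = μ b then f (Pi.single e 1) else 0
    have k : ∀ (x : κ → K) s, (∀ e, x e ≠ 0 → G e ∧ μ e = s) → (s = μ b → x ∈ V) → φ ⬝ᵥ x = 0 :=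
      fun x s hx hv => by
        by_cases u : s = μ b
        · have e1 : f x = 0 := f2 (hv u)
          rw [← e1, pi_eq_sum_univ' x, map_sum, dotProduct_sum]
          refine sum_congr rfl fun e _ => ?_
          by_cases z : x e = 0
          · simp [z]
          · simp [φ, (hx e z).1, (hx e z).2, u, mul_comm]
        · refine sum_eq_zero fun e _ => ?_
          by_cases z : x e = 0
          · simp [z]
          · simp [φ, (hx e z).2, u]
    have z := no (μ b) φ (fun e u => by_contra fun v => u (if_neg v)) (fun a a' ha ha' => by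
      have e1 : br c (Pi.single a 1) (Pi.single a' 1) = c a a' := by
        funext e; simp [br, Pi.single_apply]
      rw [← k (c a a') _ (fun e => hc a a' e ha ha') fun u => e1 ▸ cl _
        (ih a (by linarith [pos a' ha']) ha) _ (ih a' (by linarith [pos a ha]) ha'),
        dotProduct_comm]
      rfl) fun i => k _ _ (hA i) fun _ => Submodule.subset_span ⟨Wd.of i, rfl⟩
    exact f1 (by simpa [φ, hb] using congrFun z b)
  have : V ≤ LinearMap.ker (dotProductBilin K K ψ) :=
    Submodule.span_le.2 (by rintro _ ⟨w, rfl⟩; exact h w)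
  simpa using this (one b hb)

variable [Fintype α]

/-- No homogeneous character of the part `G` is thin on all directions. -/
def NoCh (μ : κ → ℝ) (G : κ → Prop) (c : κ → κ → κ → ℝ) (A : α → κ → ℝ) (t : ℝ) : Prop :=
  ∀ (s : ℝ) (l : κ → ℝ), (∀ e, l e ≠ 0 → G e ∧ μ e = s) → ∑ e, |l e| = 1 →
    (∀ b b', G b → G b' → |∑ e, c b b' e * l e| ≤ t) → ∃ i, t < |l ⬝ᵥ A i|

theorem os_all {M : ℕ → ℕ} {J : Type} [Finite J] {a : J → ℕ → ℝ} (h : ∀ j, OS M (a j)) :
    ∃ r : ℝ, 0 < r ∧ ∀ᶠ n in UF, ∀ j, |a j n| ≤ dl M r n := by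
  choose r r0 hr using h
  cases isEmpty_or_nonempty J
  · exact ⟨1, one_pos, .of_forall fun _ j => isEmptyElim j⟩
  obtain ⟨j, hj⟩ := Finite.exists_min r
  exact ⟨r j, r0 j, (eventually_all.2 hr).mono fun n u i => (u i).trans (dl_anti M (hj i) n)⟩

/-- The only position of rate zero is the marked one. -/
theorem tz_of {M : ℕ → ℕ} (hM : Big M) {μ : κ → ℝ} {G Pz : κ → Prop} {τ : κ} {η : α → ℝ}
    {c : ℕ → κ → κ → κ → ℝ} {A : ℕ → α → κ → ℝ} (pos : ∀ b, G b → 0 < μ b)
    (bc : ∀ a b e, OB M fun n => c n a b e) (bA : ∀ i b, OB M fun n => A n i b)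
    (hA : ∀ i b, ¬(G b ∧ μ b = η i) → OS M fun n => A n i b)
    (hc : ∀ b b' e, G b → G b' → ¬(G e ∧ μ e = μ b + μ b') → OS M fun n => c n b b' e)
    (no : ∀ ε : ℝ, 0 < ε → ∀ᶠ n in UF, NoCh μ G (c n) (A n) (dl M ε n))
    (cur : ∀ i i' b, Pz b → OS M fun n => A n i b * A n i' τ - A n i' b * A n i τ)
    (wd : ∀ (w : Wd α) b, 2 ≤ w.len → Pz b → OS M fun n => w.ev (br (c n)) (A n) b)
    (pt : Pz τ) (long : ∃ i, ¬OS M fun n => A n i τ) (a : κ) (ha : Pz a) (hg : G a) : a = τ := by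
  classical
  by_contra ne
  obtain ⟨i₀, h₀⟩ := long
  let co : κ → κ → κ → OO hM := fun a b e => ⟨_, bc a b e⟩
  let Ao : α → κ → OO hM := fun i b => ⟨_, bA i b⟩
  obtain ⟨s, s1, s2⟩ : ∃ s : kk hM → OO hM, (∀ x, rd hM (s x) = x) ∧ s 0 = 0 := by
    choose s hs using rd_surj (hM := hM)
    exact ⟨fun x => if x = 0 then 0 else s x, fun x => by by_cases u : x = 0 <;> simp [u, hs],
      if_pos rfl⟩
  let ψ : κ → kk hM := Pi.single a (rd hM (Ao i₀ τ)) - Pi.single τ (rd hM (Ao i₀ a))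
  have key := frat (K := kk hM) (μ := μ) (G := G) (c := fun a b e => rd hM (co a b e))
    (A := fun i b => rd hM (Ao i b)) (η := η) pos
    (fun i b u => by_contra fun v => u (rd_eq.2 (hA i b v)))
    (fun b b' e x y u => by_contra fun v => u (rd_eq.2 (hc b b' e x y v)))
    (fun t φ p1 p2 p3 => ?_) (ψ := ψ) (fun w => ?_) a hg
  · refine h₀ (rd_eq.1 (show rd hM (Ao i₀ τ) = 0 from ?_))
    simpa [ψ, Pi.single_eq_of_ne ne] using key
  · by_contra nz
    obtain ⟨e₀, he⟩ := Function.ne_iff.1 nz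
    have q1 : ∀ p : {p : κ × κ // G p.1 ∧ G p.2},
        OS M fun n => ∑ e, c n p.1.1 p.1.2 e * (s (φ e)).1 n := fun p => by
      have : ∑ e, co p.1.1 p.1.2 e * s (φ e) ∈ mm hM := rd_eq.1 (by
        simpa only [map_sum, map_mul, s1] using p2 _ _ p.2.1 p.2.2)
      refine this.imp fun r u => ⟨u.1, u.2.mono fun n v => ?_⟩
      rwa [← tm_apply, map_sum] at v
    have q2 : ∀ i, OS M fun n => (fun e => (s (φ e)).1 n) ⬝ᵥ A n i := fun i => by
      have : ∑ e, s (φ e) * Ao i e ∈ mm hM := rd_eq.1 (by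
        simpa only [map_sum, map_mul, s1, dotProduct] using p3 i)
      refine this.imp fun r u => ⟨u.1, u.2.mono fun n v => ?_⟩
      rwa [← tm_apply, map_sum] at v
    obtain ⟨r, r0, hr⟩ := os_all q1
    obtain ⟨r', r0', hr'⟩ := os_all q2
    have m0 : 0 < min r r' / 2 := by positivity
    have q3 : s (φ e₀) ∉ mm hM := fun u => he (by rw [← s1 (φ e₀)]; exact rd_eq.2 u)
    obtain ⟨n, a1, a2, a3, a4⟩ := (hr.and (hr'.and ((not_mm q3 m0).and (no _ m0)))).exists
    have d0 := dl_pos M (min r r' / 2) n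
    have b1 : dl M (min r r' / 2) n < ∑ e, |(s (φ e)).1 n| := a3.trans_le
      (single_le_sum (f := fun e => |(s (φ e)).1 n|) (fun _ _ => abs_nonneg _) (mem_univ e₀))
    have b0 := d0.trans b1
    have b2 : ∀ {x ρ : ℝ}, min r r' ≤ ρ → |x| ≤ dl M ρ n →
        |(∑ e, |(s (φ e)).1 n|)⁻¹ * x| ≤ dl M (min r r' / 2) n := fun u v => by
      have w := (v.trans (dl_anti M u n)).trans_eq (dl_half M _ n)
      rw [abs_mul, abs_inv, abs_of_pos b0, inv_mul_le_iff₀ b0]
      nlinarith
    obtain ⟨i, hi⟩ := a4 t ((∑ e, |(s (φ e)).1 n|)⁻¹ • fun e => (s (φ e)).1 n)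
      (fun e u => p1 e fun z => u (by simp [z, s2])) (by
        simp only [Pi.smul_apply, smul_eq_mul, abs_mul, abs_inv, abs_of_pos b0, ← mul_sum]
        exact inv_mul_cancel₀ b0.ne') fun b b' x y => by
        have := b2 (min_le_left _ _) (a1 ⟨(b, b'), x, y⟩)
        rw [mul_sum] at this
        simpa only [Pi.smul_apply, smul_eq_mul, mul_left_comm] using this
    rw [smul_dotProduct, smul_eq_mul] at hi
    exact hi.not_ge (b2 (min_le_right _ _) (a2 i))
  · have e1 : ∀ b, w.ev (br fun a b e => rd hM (co a b e)) (fun i b => rd hM (Ao i b)) b =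
        rd hM (w.ev (br co) Ao b) := fun b => (ev_map _ _ _ _ _).symm
    refine (sub_dotProduct _ _ _).trans ?_
    rw [single_dotProduct, single_dotProduct, e1, e1]
    cases w with
    | of i =>
      rw [← map_mul, ← map_mul, ← map_sub]
      refine rd_eq.2 ((cur i i₀ a ha).imp fun r u => ⟨u.1, u.2.mono fun n v => ?_⟩)
      show |A n i₀ τ * A n i a - A n i₀ a * A n i τ| ≤ _
      rwa [mul_comm]
    | br u v =>
      have l2 : 2 ≤ (Wd.br u v).len := by
        have : ∀ w : Wd α, 1 ≤ w.len := fun w => by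
          induction w with
          | of => exact le_rfl
          | br u v hu hv => exact hu.trans (Nat.le_add_right _ _)
        exact Nat.add_le_add (this u) (this v)
      have z : ∀ b, Pz b → rd hM ((Wd.br u v).ev (br co) Ao b) = 0 := fun b hb =>
        rd_eq.2 ((wd _ b l2 hb).imp fun r x => ⟨x.1, x.2.mono fun n y => by
          rwa [← tm_apply, ev_map]⟩)
      rw [z a ha, z τ pt, mul_zero, mul_zero, sub_zero]

end Pool.Agent.MP_5168f5_an.QA.Cp
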