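import Pool.Agent.MP_5168f5_an.QA.CpRob
import Pool.Agent.MP_5168f5_an.QA.CpDefs

/-! The Kakeya maximal estimate: the filtered system gives the hypotheses of the chain. -/

namespace Pool.Agent.MP_5168f5_an.QA.Cp

open H19 H17S H17F AN AN.GA AN.N6 Matrix Finset H61Z

variable {ι κ α : Type} [Fintype ι] [DecidableEq ι] [Fintype κ] [DecidableEq κ] [Fintype α]

/-- The data for the chain. -/
noncomputable def Pd.sp (σ : Cs ι κ α) (X : Pd ι κ α) (F L : ℝ) : Sp ι κ α X.Ω X.Λ :=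
  ⟨X.P, ⟨σ.μ, flr σ.μ F, L, 0, 0⟩, σ.η, X.B, X.c, fun ω => hc σ.μ (X.c ω), X.A, X.j, X.S⟩

variable {σ : Cs ι κ α} {X : Pd ι κ α} {a u L : ℝ} {x : ℚ}

omit [Fintype κ] [DecidableEq κ] in
theorem flr_le {μ : κ → ℝ} {b : κ} {t F r r' : ℝ} (h0 : μ b = 0 → t ≤ r)
    (h1 : 0 < μ b → t * F ≤ r') (h : μ b = 0 ∨ 0 < μ b) (e : μ b = 0 → r ≤ r') :
    t * flr μ F b ≤ r' := by
  rcases h with h | h
  · rw [flr, if_neg (by simp [h]), mul_one]; exact (h0 h).trans (e h)
  · rw [flr, if_pos h]; exact h1 h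

theorem exp_fl {t p q r L u : ℝ} (h : t ≤ Real.exp p) (hL : Real.exp u ≤ L) (e : p + q ≤ u + r) :
    t * Real.exp q ≤ L * Real.exp r :=
  (mul_le_mul_of_nonneg_right h (Real.exp_pos _).le).trans (le_trans (by
    rw [← Real.exp_add, ← Real.exp_add]; exact Real.exp_le_exp.2 e)
    (mul_le_mul_of_nonneg_right hL (Real.exp_pos r).le))

/-- The hypotheses of one step. -/
theorem Pd.hy (g0 : 0 < σ.g) (wt : ∀ b, σ.μ b = 0 ∨ σ.g ≤ σ.μ b) (et : ∀ i, 0 < σ.η i)
    (x0 : 0 ≤ x) (a0 : 0 ≤ a) (ha : a ≤ σ.g * (1 - x)) (hL : Real.exp u ≤ L)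
    (al : ∀ ω ∈ X.P.S, X.Alg σ u ω) (ne : X.Near σ u) (ic : X.Inc σ x u)
    (tO : Fn X.P X.T (X.O x)) (tS : Fn X.P X.T X.S) (zS : Fn X.P (X.z x) X.S)
    (fB : Fn X.P (fun ω => (X.B ω, X.c ω)) X.T) (fA : Fn X.P X.A (X.O x)) :
    (X.sp σ (Real.exp (a * X.M)) L).Hy σ.Φ (X.O x) (fun ω => (X.T ω, X.z x ω)) (x * X.M) := by
  have M0 : (0 : ℝ) ≤ X.M := Nat.cast_nonneg _
  have x0' : (0 : ℝ) ≤ x := by exact_mod_cast x0
  have x1 : (0 : ℝ) ≤ 1 - x := nonneg_of_mul_nonneg_right (a0.trans ha) g0 |> fun h => by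
    nlinarith
  have w : ∀ b, σ.μ b = 0 ∨ 0 < σ.μ b := fun b => (wt b).imp id g0.trans_le
  have w0 : ∀ b, 0 ≤ σ.μ b := fun b => (w b).elim (·.ge) le_of_lt
  have L0 : 0 ≤ L := (Real.exp_pos u).le.trans hL
  have r1 : ∀ b, rr σ.μ (x * X.M) b ≤ 1 := fun b => Real.exp_le_one_iff.2 (by
    have := w0 b; rw [neg_nonpos]; positivity)
  have rd : ∀ b, σ.μ b = 0 → Real.exp u ≤ L * rr σ.μ (x * X.M) b := fun b h => by
    simpa [rr, h] using hL
  refine ⟨fun ω k => ⟨(al ω k).fr, (al ω k).unit, ⟨fun p q e n => ?_, fun p q e => ?_⟩,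
    (al ω k).hg⟩, tO.pair (Fn.snd _ _), tS.pair zS, fun ω k v k' e => ?_, fA,
    fun ω k v k' e => ?_, fun ω k v k' e => ?_⟩
  · by_contra c
    exact n (if_neg fun h => c h.2.2)
  · change |X.c ω p q e - hc σ.μ (X.c ω) p q e| * rr σ.μ (x * X.M) p * rr σ.μ (x * X.M) q *
      flr σ.μ (Real.exp (a * X.M)) e ≤ L * rr σ.μ (x * X.M) e
    have pp := rr_pos σ.μ (x * X.M)
    by_cases c : Hw σ.μ p q e
    · rw [hc, if_pos c, sub_self, abs_zero, zero_mul, zero_mul, zero_mul]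
      exact mul_nonneg L0 (pp e).le
    · rw [hc, if_neg c, sub_zero]
      refine flr_le (fun _ => ?_) (fun h => ?_) (w e) (rd e)
      · exact (mul_le_of_le_one_right (mul_nonneg (abs_nonneg _) (pp p).le) (r1 q)).trans
          ((mul_le_of_le_one_right (abs_nonneg _) (r1 p)).trans ((al ω k).ob p q e))
      · simp only [rr, mul_assoc, ← Real.exp_add]
        refine exp_fl ((al ω k).gr p q e h c) hL ?_
        have m1 := le_max_left σ.g (σ.μ e - σ.μ p - σ.μ q)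
        have m2 := le_max_right σ.g (σ.μ e - σ.μ p - σ.μ q)
        have m3 := mul_le_mul_of_nonneg_right m1 x1
        have m4 := mul_le_mul_of_nonneg_right m2 x0'
        nlinarith [mul_le_mul_of_nonneg_right (show a + (σ.μ e - σ.μ p - σ.μ q) * x ≤
          max σ.g (σ.μ e - σ.μ p - σ.μ q) by linarith) M0]
  · have := fB ω k v k' (congrArg Prod.fst e)
    simp only [Prod.mk.injEq] at this
    simp only [Pd.sp, this.1, this.2]
  · obtain ⟨i1, s, i2, i3⟩ := ic ω k v k' e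
    refine ⟨X.t ω v, fun i => s i * Real.exp (-(σ.η i * (x * X.M))), i1, fun i => ?_, fun b => ?_⟩
    · rw [abs_mul, abs_of_pos (Real.exp_pos _)]
      exact mul_le_mul_of_nonneg_right ((i2 i).trans hL) (Real.exp_pos _).le
    · refine flr_le (fun h => ?_) (fun h => exp_fl ((i3 b).2 h) hL ?_) (w b) (rd b)
      · rw [sum_eq_zero fun i _ => ?_, sub_zero]
        · exact (i3 b).1 h
        · have : X.A ω i b = 0 := by
            by_contra c
            linarith [(al ω k).hg i b c, et i]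
          exact mul_eq_zero_of_right _ this
      · change _ ≤ u + -(σ.μ b * _)
        nlinarith [mul_le_mul_of_nonneg_right ha M0]
  · obtain ⟨t, t1, t2⟩ := ne ω k v k' e
    refine ⟨t, t2, fun b => flr_le (fun h => by simpa [h] using t1 b) (fun h => ?_) (w b) (rd b)⟩
    refine exp_fl ((t1 b).trans_eq (Real.exp_add _ _).symm) hL ?_
    have := mul_le_mul_of_nonneg_right ((wt b).resolve_left h.ne') x1
    change _ ≤ u + -(σ.μ b * _)
    nlinarith [mul_le_mul_of_nonneg_right (ha.trans this) M0]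

omit [Fintype α] in
/-- The coordinate forms are admissible. -/
theorem Pd.good0 {F : ℝ} {ω : X.Ω} (hF : 1 ≤ F) (hL : Fintype.card κ ^ 2 * Real.exp u ≤ L)
    (al : X.Alg σ u ω) : (X.da σ F L ω).Good (S0 κ) := by
  have k1 : (1 : ℝ) ≤ Fintype.card κ := by
    have : Nonempty κ := ⟨σ.τ⟩
    exact_mod_cast Fintype.card_pos
  refine good_S0 (fun b => ?_) (fun i b => (al.bA i b).trans (le_trans ?_ hL)) (fun p q e => ?_) hL
  · simp only [Pd.da, flr]; split_ifs <;> simp [hF]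
  · exact le_mul_of_one_le_left (Real.exp_pos _).le (one_le_pow₀ k1)
  · simp only [Pd.da, hc]
    split_ifs
    · exact al.ob p q e
    · simpa using (Real.exp_pos u).le

end Pool.Agent.MP_5168f5_an.QA.Cp
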