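import Pool.Agent.MP_5168f5_an.QA.CpKit
import Pool.Agent.MP_5168f5_an.QA.CpFrat

/-! The Kakeya maximal estimate: characters of rate zero do not vanish on the directions. -/

namespace Pool.Agent.MP_5168f5_an.QA.Cp

open H19 H17S H17F R4 AN Filter Matrix Finset
open GA (Mt br mC)
open LC (Au ex_le)

variable {ι κ α : Type} [Fintype ι] [DecidableEq ι] [Fintype κ] [DecidableEq κ]

section Alg

variable {N N' : Matrix κ κ ℝ} {μ : κ → ℝ}

omit [DecidableEq κ] in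
theorem br_vv (h : κ → κ → κ → ℝ) (N : Matrix κ κ ℝ) (s t : κ → ℝ) (e : κ) :
    br h (s ᵥ* N) (t ᵥ* N) e = ∑ a, ∑ b, br h (N a) (N b) e * s a * t b := by
  have k1 : ∀ y, br h (s ᵥ* N) y e = ∑ a, br h (N a) y e * s a := fun y => by
    simp only [br, vecMul, dotProduct, mul_sum, sum_mul]
    exact (sum_congr rfl fun _ _ => sum_comm).trans (sum_comm.trans (sum_congr rfl fun _ _ =>
      sum_congr rfl fun _ _ => sum_congr rfl fun _ _ => by ring))
  have k2 : ∀ y, br h y (t ᵥ* N) e = ∑ b, br h y (N b) e * t b := fun y => by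
    simp only [br, vecMul, dotProduct, mul_sum, sum_mul]
    exact (sum_congr rfl fun _ _ => sum_comm).trans (sum_comm.trans (sum_congr rfl fun _ _ =>
      sum_congr rfl fun _ _ => sum_congr rfl fun _ _ => by ring))
  simp only [k1, k2, sum_mul]
  exact sum_congr rfl fun _ _ => sum_congr rfl fun _ _ => by ring

theorem br_mC (e : N * N' = 1) (h : κ → κ → κ → ℝ) (x y : κ → ℝ) :
    br h x y ᵥ* N' = br (mC N N' h) (x ᵥ* N') (y ᵥ* N') := by
  have e' := mul_eq_one_comm.1 e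
  funext f
  have : br h x y = br h (x ᵥ* N' ᵥ* N) (y ᵥ* N' ᵥ* N) := by
    rw [vecMul_vecMul, vecMul_vecMul, e', vecMul_one, vecMul_one]
  rw [this]
  show ∑ g, br h _ _ g * N' g f =
    ∑ a, ∑ b, (∑ g, br h (N a) (N b) g * N' g f) * (x ᵥ* N') a * (y ᵥ* N') b
  simp only [br_vv, sum_mul]
  exact sum_comm.trans (sum_congr rfl fun _ _ => sum_comm.trans
    (sum_congr rfl fun _ _ => sum_congr rfl fun _ _ => by ring))

omit [DecidableEq κ] in
theorem hc_mC (h1 : ∀ a, Hg μ (μ a) (N a)) (h2 : ∀ e, Hg μ (μ e) fun b => N' b e)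
    (c : κ → κ → κ → ℝ) : mC N N' (hc μ c) = hc μ (mC N N' c) := by
  funext a b e
  have k : ∀ a' b' e', N a a' * N b b' * N' e' e ≠ 0 → (Hw μ a' b' e' ↔ Hw μ a b e) :=
    fun a' b' e' u => by
      have v := left_ne_zero_of_mul u
      rw [Hw, Hw, h1 _ _ (left_ne_zero_of_mul v), h1 _ _ (right_ne_zero_of_mul v),
        h2 _ _ (right_ne_zero_of_mul u)]
  have m : ∀ c : κ → κ → κ → ℝ, mC N N' c a b e =
      ∑ e', ∑ a', ∑ b', c a' b' e' * (N a a' * N b b' * N' e' e) := fun c => by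
    simp only [mC, br, vecMul, dotProduct, sum_mul, mul_assoc]
  rw [m, hc]
  split_ifs with w
  · rw [m]
    refine sum_congr rfl fun e' _ => sum_congr rfl fun a' _ => sum_congr rfl fun b' _ => ?_
    by_cases z : N a a' * N b b' * N' e' e = 0
    · rw [z, mul_zero, mul_zero]
    · rw [hc, if_pos ((k _ _ _ z).2 w)]
  · refine sum_eq_zero fun e' _ => sum_eq_zero fun a' _ => sum_eq_zero fun b' _ => ?_
    by_cases z : N a a' * N b b' * N' e' e = 0
    · rw [z, mul_zero]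
    · rw [hc, if_neg fun y => w ((k _ _ _ z).1 y), zero_mul]

omit [DecidableEq κ] in
theorem l1_le {l x : κ → ℝ} {R : ℝ} (hR : 0 ≤ R) (h : ∑ b, |l b| ≤ 1)
    (k : ∀ b, l b ≠ 0 → |x b| ≤ R) : |∑ b, x b * l b| ≤ R := by
  refine (abs_sum_le_sum_abs _ _).trans ((sum_le_sum (g := fun b => R * |l b|) fun b _ => ?_).trans ?_)
  · by_cases z : l b = 0
    · simp [z]
    · rw [abs_mul]; exact mul_le_mul_of_nonneg_right (k b z) (abs_nonneg _)
  · rw [← mul_sum]; exact mul_le_of_le_one_right hR h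

omit [DecidableEq κ] in
theorem hg_mulVec {l : κ → ℝ} {r : ℝ} (h2 : ∀ e, Hg μ (μ e) fun b => N' b e) (u : Hg μ r l) :
    Hg μ r (N' *ᵥ l) := fun b k => by
  obtain ⟨e, -, w⟩ := exists_ne_zero_of_sum_ne_zero (s := univ) (f := fun e => N' b e * l e) k
  exact (h2 e b (left_ne_zero_of_mul w)).trans (u e (right_ne_zero_of_mul w))

omit [DecidableEq κ] in
theorem mulVec_dot (N' : Matrix κ κ ℝ) (l y : κ → ℝ) :
    (N' *ᵥ l) ⬝ᵥ y = ∑ e, (y ᵥ* N') e * l e := by
  rw [dotProduct_comm, dotProduct_mulVec]; rfl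

end Alg

variable [Fintype α] {Ω Λ : ℕ → Type} {σ : Cs ι κ α} {X : ∀ n, Wn ι κ α (Ω n) (Λ n)}
  {ϑ La D s₀ : ℝ} {vt : κ → ℝ} {F F' : ℕ → Matrix κ κ ℝ} {u u' : ∀ n, Ω n → Matrix κ κ ℝ}

/-- Homogeneous characters of rate zero that are small on the directions are small. -/
theorem WW.key (w : WW σ X ϑ La D s₀) (f : FR σ X s₀ vt F F' u u')
    (al : Au (wM X) fun n p q => ∀ ω ∈ (X n).P.S,
      (cd (X n) (F n) (F' n) (u n) (u' n)).Alg (kc σ La D vt) p q ω) {c : ℝ} (hc0 : 0 < c) :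
    ∃ δ : ℝ, 0 < δ ∧ ∀ᶠ n in UF, ∀ ω ∈ (X n).P.S, ∀ (l : κ → ℝ) (r : ℝ), ∑ b, |l b| ≤ 1 →
      Hg σ.μ r l → (∀ b, l b ≠ 0 → 0 < σ.μ b ∧ vt b = 0) →
      (∀ b b', vt b = 0 → vt b' = 0 → |∑ e, hc σ.μ (mC (u n ω * F n) (F' n * u' n ω) ((X n).c ω))
        b b' e * l e| ≤ Real.exp (-(c * (X n).M))) →
      (∀ i, |∑ e, ((X n).A ω i ᵥ* (F' n * u' n ω)) e * l e| ≤ Real.exp (-(c * (X n).M))) →
      ∀ b, |l b| ≤ Real.exp (-(δ * (X n).M)) := by
  have t0 := w.t0
  obtain ⟨x, x0, x1⟩ := exists_rat_btwn (show 0 < c / 2 / ϑ by positivity)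
  rw [lt_div_iff₀ t0] at x1
  obtain ⟨δ, hδ⟩ : ∃ δ : ℝ, δ = ϑ * x / 8 := ⟨_, rfl⟩
  have d0 : 0 < δ := by rw [hδ]; positivity
  refine ⟨δ, d0, ?_⟩
  filter_upwards [f.blk, f.dia 0 δ d0, f.dia x δ d0, w.good 0, w.off 0 (10 * δ), w.sub 1 one_pos,
    w.rate 0 x (by exact_mod_cast x0.le) δ d0 0, al 1 one_pos c,
    (G39.big_dl w.big (4 * (Fintype.card κ : ℝ) ^ 2) d0).mono fun n k => G39.dl_inv _ _ n ▸ k]
    with n k1 k2 k3 k4 k5 k6 k7 k8 k9 ω hω l r l1 l2 l3 l4 l5 b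
  obtain ⟨e1, e2, e3, -⟩ := k1 ω hω
  set N := u n ω * F n
  set N' := F' n * u' n ω
  set M : ℝ := ((X n).M : ℝ)
  have M0 : 0 ≤ M := Nat.cast_nonneg _
  have m1 := mul_nonneg d0.le M0
  have m2 : 16 * (δ * M) ≤ c * M := by
    rw [← mul_assoc]; exact mul_le_mul_of_nonneg_right (by linarith) M0
  have p := Real.exp_pos (-(δ * M))
  have a1 : ∀ y, In ((X n).Ψ 0 ω) y → ∀ e, |(y ᵥ* N') e| ≤ Real.exp (δ * M) := fun y v e => by
    simpa using (k2 ω hω).2 y v e
  have g2 : Hg σ.μ r (Real.exp (-(δ * M)) • (N' *ᵥ l)) := (hg_mulVec e3 l2).smul _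
  have sc : ∀ y, |(Real.exp (-(δ * M)) • (N' *ᵥ l)) ⬝ᵥ y| =
      Real.exp (-(δ * M)) * |∑ e, (y ᵥ* N') e * l e| := fun y => by
    rw [smul_dotProduct, smul_eq_mul, abs_mul, abs_of_pos p, mulVec_dot]
  have g1 : ∀ y, In ((X n).Ψ 0 ω) y → |(Real.exp (-(δ * M)) • (N' *ᵥ l)) ⬝ᵥ y| ≤ 1 := fun y v => by
    rw [sc]
    refine (mul_le_mul_of_nonneg_left (l1_le (Real.exp_pos _).le l1 fun e _ => a1 y v e) p.le).trans ?_
    rw [← Real.exp_add, neg_add_cancel, Real.exp_zero]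
  have a2 : ∀ b b', |∑ e, hc σ.μ (mC N N' ((X n).c ω)) b b' e * l e| ≤ Real.exp (-(c * M)) := by
    intro b b'
    by_cases z : vt b = 0 ∧ vt b' = 0
    · exact l4 b b' z.1 z.2
    refine l1_le (Real.exp_pos _).le l1 fun e v => ?_
    unfold hc
    split_ifs with y
    · refine (k8 ω hω).gr b b' e (l3 e v).1 fun q => z ?_
      have q' : σ.μ e + vt e = σ.μ b + vt b + (σ.μ b' + vt b') := q.2.2.2
      constructor <;> linarith [y.2.2, (l3 e v).2, (f.v0 b).1, (f.v0 b').1]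
    · rw [abs_zero]; exact (Real.exp_pos _).le
  have tt : -(ϑ * (((x : ℝ) - (0 : ℚ)) * M)) - δ * M = -(9 * (δ * M)) := by
    rw [hδ]; push_cast; ring
  have tl : Real.exp (-(9 * (δ * M))) ≤ Real.exp (-(9 * (δ * M))) * (X n).L :=
    le_mul_of_one_le_right (Real.exp_pos _).le k6.1
  have key := k7 ω hω _ r g2 g1 (by
    rw [tt]
    refine ⟨fun a => ?_, fun i => le_trans ?_ tl, fun y z v v' => le_trans ?_ tl⟩
    · change _ ≤ _ * flr σ.μ (X n).F a
      unfold flr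
      split_ifs with q
      · refine ((k4 ω hω).ent_of g2 g1 a).trans ?_
        have q1 := (k4 ω hω).fu.vl_pos (wt := σ.μ)
        refine le_trans ?_ (mul_le_mul_of_nonneg_left (k5 ω hω) (Real.exp_pos _).le)
        rw [mul_one, mul_comm (vl _ _), ← mul_assoc, ← Real.exp_add]
        exact mul_le_mul_of_nonneg_right (k9.trans (ex_le (by linarith))) q1.le
      · rw [show (Real.exp (-(δ * M)) • (N' *ᵥ l)) a = 0 from not_not.1 fun v => ?_, abs_zero]
        · positivity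
        obtain ⟨e, -, v'⟩ := exists_ne_zero_of_sum_ne_zero (s := univ)
          (f := fun e => N' a e * l e) (right_ne_zero_of_mul v)
        exact q (e3 e a (left_ne_zero_of_mul v') ▸ (l3 e (right_ne_zero_of_mul v')).1)
    · rw [sc]
      refine (mul_le_mul_of_nonneg_left (l5 i) p.le).trans ?_
      rw [← Real.exp_add]
      exact ex_le (by linarith)
    · rw [sc]
      change _ * |∑ e, (br (hc σ.μ ((X n).c ω)) y z ᵥ* N') e * l e| ≤ _
      rw [br_mC e1, hc_mC e2 e3, show ∑ e, br (hc σ.μ (mC N N' ((X n).c ω))) (y ᵥ* N') (z ᵥ* N') e *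
          l e = ∑ b, ∑ b', (∑ e, hc σ.μ (mC N N' ((X n).c ω)) b b' e * l e) * (y ᵥ* N') b *
          (z ᵥ* N') b' by
        simp only [br, sum_mul]
        exact sum_comm.trans (sum_congr rfl fun _ _ => sum_comm.trans
          (sum_congr rfl fun _ _ => sum_congr rfl fun _ _ => by ring))]
      have q : ∀ b b', |(∑ e, hc σ.μ (mC N N' ((X n).c ω)) b b' e * l e) * (y ᵥ* N') b *
          (z ᵥ* N') b'| ≤ Real.exp (-(c * M) + δ * M + δ * M) := fun b b' => by
        rw [abs_mul, abs_mul, Real.exp_add, Real.exp_add]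
        exact mul_le_mul (mul_le_mul (a2 b b') (a1 y v b) (abs_nonneg _) (Real.exp_pos _).le)
          (a1 z v' b') (abs_nonneg _) (by positivity)
      have q2 := (abs_sum_le_sum_abs _ univ).trans (sum_le_card_nsmul _ _ _ fun b _ =>
        (abs_sum_le_sum_abs _ univ).trans (sum_le_card_nsmul _ _ _ fun b' _ => q b b'))
      rw [card_univ, nsmul_eq_mul, nsmul_eq_mul, ← mul_assoc, ← pow_two] at q2
      refine (mul_le_mul_of_nonneg_left (q2.trans (mul_le_mul_of_nonneg_right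
        (show _ ≤ Real.exp (δ * M) by nlinarith [sq_nonneg (Fintype.card κ : ℝ)])
        (Real.exp_pos _).le)) p.le).trans ?_
      rw [← Real.exp_add, ← Real.exp_add]
      exact ex_le (by linarith)) (Real.exp (-(δ * M)) • N b)
  by_cases z : l b = 0
  · rw [z, abs_zero]; exact p.le
  have q := key fun φ v => by
    have := (k3 ω hω).1 b φ v
    rw [(l3 b z).2, zero_mul, add_zero] at this
    rw [dotProduct_smul, smul_eq_mul, abs_mul, abs_of_pos p]
    refine (mul_le_mul_of_nonneg_left this p.le).trans ?_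
    rw [← Real.exp_add, neg_add_cancel, Real.exp_zero]
  rw [dotProduct_smul, smul_eq_mul, abs_mul, abs_of_pos p, sc,
    show N b ᵥ* N' = (1 : Matrix κ κ ℝ) b from congrFun e1 b] at q
  simp only [one_apply, ite_mul, one_mul, zero_mul, sum_ite_eq, mem_univ, if_true] at q
  rw [← mul_assoc, ← Real.exp_add, ← le_div_iff₀' (Real.exp_pos _), ← Real.exp_sub] at q
  refine q.trans (ex_le ?_)
  linarith

theorem WW.noCh (w : WW σ X ϑ La D s₀) (f : FR σ X s₀ vt F F' u u')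
    (al : Au (wM X) fun n p q => ∀ ω ∈ (X n).P.S,
      (cd (X n) (F n) (F' n) (u n) (u' n)).Alg (kc σ La D vt) p q ω) {c : ℝ} (hc0 : 0 < c) :
    ∀ᶠ n in UF, ∀ ω ∈ (X n).P.S, NoCh σ.μ (fun b => 0 < σ.μ b ∧ vt b = 0)
      (hc σ.μ (mC (u n ω * F n) (F' n * u' n ω) ((X n).c ω)))
      (fun i => (X n).A ω i ᵥ* (F' n * u' n ω)) (Real.exp (-(c * (X n).M))) := by
  obtain ⟨δ, d0, k⟩ := w.key f al hc0
  filter_upwards [k, G39.dl_lt w.big (K := 1 / (Fintype.card κ + 1)) (by positivity) d0]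
    with n k1 k2 ω hω s l l1 l2 l3
  by_contra z
  push Not at z
  have := sum_le_card_nsmul univ _ _ fun b _ => (k1 ω hω l s l2.le (fun b v => (l1 b v).2)
    (fun b v => (l1 b v).1) (fun b b' x y => ?_) (fun i => ?_) b).trans k2.le
  · rw [l2, card_univ, nsmul_eq_mul, mul_one_div, le_div_iff₀ (by positivity)] at this
    linarith
  · by_cases q : 0 < σ.μ b ∧ 0 < σ.μ b'
    · exact l3 b b' ⟨q.1, x⟩ ⟨q.2, y⟩
    · rw [sum_eq_zero fun e _ => by rw [hc, if_neg fun v => q ⟨v.1, v.2.1⟩, zero_mul], abs_zero]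
      exact (Real.exp_pos _).le
  · have := z i
    rwa [dotProduct_comm] at this

omit [Fintype α] in
/-- The coordinate forms of rate zero do not depend on the sample. -/
theorem FR.col (f : FR σ X s₀ vt F F' u u') : ∀ᶠ n in UF, ∀ ω ∈ (X n).P.S, ∀ a e, vt e = 0 →
    (F' n * u' n ω) a e = F' n a e :=
  f.ex.mono fun n k ω hω a e z => by
    rw [mul_apply, sum_congr rfl fun b _ => by
      rw [show u' n ω b e = (1 : Matrix κ κ ℝ) b e from not_not.1 fun v => by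
        linarith [((k.2.2 ω hω).2 b e (.inr v)).2, (f.v0 b).1]], ← mul_apply, mul_one]

end Pool.Agent.MP_5168f5_an.QA.Cp
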