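import Pool.Agent.MP_5168f5_an.QA.CpSpec
import Pool.Agent.MP_5168f5_an.QA.CpRob
import Pool.Agent.MP_5168f5_an.AN.GAAll

/-! The Kakeya maximal estimate: forms that are bounded on a cap, changes of frame. -/

namespace Pool.Agent.MP_5168f5_an.QA.Cp

open H19 H17S H17F R4 AN Filter Matrix
open GA (Mt IsFr lg mB mC)

variable {ι κ α : Type} [Fintype ι] [DecidableEq ι] [Fintype κ] [DecidableEq κ]

section Cap

variable {d : Da κ α} {S : Set (κ → ℝ)} {r R E : ℝ} {φ t : κ → ℝ}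

/-- Coordinates of a bounded form in the extremal rows. -/
theorem Da.Good.rep (g : d.Good S) (u : Hg d.wt r φ) (h : ∀ y, In S y → |φ ⬝ᵥ y| ≤ R) :
    ∃ c, Hg d.wt r c ∧ φ = c ᵥ* fm d.wt S ∧ ∀ a, |c a| ≤ 2 * R := by
  obtain ⟨c, c1, c2⟩ := coef (fun a => ((g.fu.fm (wt := d.wt)).1 a).2) g.fu.unit u
  refine ⟨c, c1, c2, fun a => ?_⟩
  have := h _ (g.fu.in_ub g.hg a)
  rw [dotProduct_smul, c2, g.fu.coord, smul_eq_mul, abs_mul] at this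
  norm_num at this
  linarith

theorem Da.Good.ok_of (g : d.Good S) (hL : 0 ≤ d.L) (u : Hg d.wt r φ)
    (h : ∀ y, In S y → |φ ⬝ᵥ y| ≤ R) : d.Ok S (2 * Fintype.card κ * R) φ := by
  obtain ⟨c, -, rfl, c3⟩ := g.rep u h
  have := g.comb hL c3
  rwa [← mul_assoc, mul_comm _ 2] at this

theorem Da.Good.dot_le (g : d.Good S) (u : Hg d.wt r φ) (h : ∀ y, In S y → |φ ⬝ᵥ y| ≤ R)
    (e : 0 ≤ E) (k : ∀ ψ ∈ S, Hg d.wt r ψ → |ψ ⬝ᵥ t| ≤ E) :
    |φ ⬝ᵥ t| ≤ 2 * Fintype.card κ * R * E := by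
  classical
  obtain ⟨c, c1, rfl, c3⟩ := g.rep u h
  have f := (g.fu.fm (wt := d.wt)).1
  refine (abs_dot (t := 2 * R * E) (r := fun a => |fm d.wt S a ⬝ᵥ t|) (fun a => ?_)
    fun a => le_rfl).trans_eq (by ring)
  have p := (abs_nonneg _).trans (c3 a)
  by_cases z : c a = 0
  · rw [z, abs_zero, zero_mul]; exact mul_nonneg p e
  · exact mul_le_mul (c3 a) (k _ (f a).1 (c1 a z ▸ (f a).2)) (abs_nonneg _) p

theorem Da.Good.ent_of (g : d.Good S) (u : Hg d.wt r φ) (h : ∀ y, In S y → |φ ⬝ᵥ y| ≤ R)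
    (b : κ) : |φ b| ≤ 4 * (Fintype.card κ : ℝ) ^ 2 * R * vl d.wt S := by
  have p := g.fu.vl_pos (wt := d.wt)
  have := g.dot_le (t := Pi.single b 1) (E := 2 * Fintype.card κ * vl d.wt S) u h (by positivity)
    fun ψ k _ => by simpa using entry_le g k b
  rw [dotProduct_single, mul_one] at this
  exact this.trans_eq (by ring)

theorem Da.Good.in_A (g : d.Good S) (hL : 0 < d.L) (i : α) : In S (d.L⁻¹ • d.A i) := fun φ k => by
  rw [dotProduct_smul, smul_eq_mul, abs_mul, abs_of_pos (inv_pos.2 hL), inv_mul_le_iff₀ hL]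
  simpa using (g.ok φ k).a i

/-- A bounded form is bounded on the directions. -/
theorem Da.Good.dot_A (g : d.Good S) (hL : 0 < d.L) (h : ∀ y, In S y → |φ ⬝ᵥ y| ≤ R) (i : α) :
    |φ ⬝ᵥ d.A i| ≤ d.L * R := by
  have := h _ (g.in_A hL i)
  rwa [dotProduct_smul, smul_eq_mul, abs_mul, abs_of_pos (inv_pos.2 hL), inv_mul_le_iff₀ hL] at this

end Cap

section Fr

variable {Φ : H61Z.Filt (Mt ι)} {B : κ → Mt ι} {c : κ → κ → κ → ℝ} {N N' : Matrix κ κ ℝ}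

theorem fr_mB (h : IsFr Φ B c) (e : N * N' = 1) : IsFr Φ (mB N B) (mC N N' c) :=
  ((GA.sFr ι κ Φ B c).2 N N' e).1 h

theorem ex_mB (B : κ → Mt ι) (e : N * N' = 1) (t : κ → ℝ) :
    GA.ex (mB N B) (t ᵥ* N') = GA.ex B t := by
  rw [GA.ex, GA.GAFrA.vec_mB, vecMul_vecMul, mul_eq_one_comm.1 e, vecMul_one, GA.ex]

theorem lg_mB (h : IsFr Φ B c) (e : N * N' = 1) {x : Mt ι} (u : IsUnit x) (t : κ → ℝ) :
    lg (mB N B) x (x * GA.ex B t) = t ᵥ* N' := by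
  rw [← ex_mB B e]; exact (GA.sMul _ _ Φ _ _ (fr_mB h e)).lg _ _ u

omit [DecidableEq κ] in
theorem blk_mul {μ : κ → ℝ} (h : ∀ a b, N a b ≠ 0 → μ a = μ b) (k : ∀ a b, N' a b ≠ 0 → μ a = μ b)
    (a b : κ) (e : (N * N') a b ≠ 0) : μ a = μ b := by
  obtain ⟨s, -, w⟩ := Finset.exists_ne_zero_of_sum_ne_zero (mul_apply (M := N) ▸ e)
  exact (h _ _ (left_ne_zero_of_mul w)).trans (k _ _ (right_ne_zero_of_mul w))

omit [DecidableEq κ] in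
theorem vecMul_col (y : κ → ℝ) (N : Matrix κ κ ℝ) (e : κ) :
    (y ᵥ* N) e = (fun b => N b e) ⬝ᵥ y := dotProduct_comm _ _

end Fr

variable [Fintype α] {Ω Λ : ℕ → Type} {σ : Cs ι κ α} {X : ∀ n, Wn ι κ α (Ω n) (Λ n)} {s₀ : ℝ}
  {vt : κ → ℝ} {F F' : ℕ → Matrix κ κ ℝ} {u u' : ∀ n, Ω n → Matrix κ κ ℝ}

omit [Fintype α] in
/-- The frames are inverse to each other and homogeneous. -/
theorem FR.blk (r : FR σ X s₀ vt F F' u u') : ∀ᶠ n in UF, ∀ ω ∈ (X n).P.S,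
    u n ω * F n * (F' n * u' n ω) = 1 ∧ (∀ a, Hg σ.μ (σ.μ a) ((u n ω * F n) a)) ∧
    (∀ e, Hg σ.μ (σ.μ e) fun b => (F' n * u' n ω) b e) ∧
    ∀ a b, u n ω a b ≠ 0 ∨ u' n ω a b ≠ 0 → σ.μ a = σ.μ b ∧ (a = b ∨ vt a < vt b) :=
  r.ex.mono fun n k ω hω => by
    have z : ∀ a b, u n ω a b ≠ 0 ∨ u' n ω a b ≠ 0 → σ.μ a = σ.μ b ∧ (a = b ∨ vt a < vt b) :=
      fun a b w => (em (a = b)).elim (fun e => ⟨e ▸ rfl, .inl e⟩) fun e =>
        ((k.2.2 ω hω).2 a b (by rwa [one_apply_ne e])).imp_right .inr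
    refine ⟨?_, fun a b w => (blk_mul (fun a b w => (z a b (.inl w)).1)
      (fun a b w => (k.2.1 a b (.inl w)).1) a b w).symm, fun e b w => blk_mul
      (fun a b w => (k.2.1 a b (.inr w)).1) (fun a b w => (z a b (.inr w)).1) b e w, z⟩
    rw [mul_assoc, ← mul_assoc (F n), k.1, one_mul, (k.2.2 ω hω).1]

end Pool.Agent.MP_5168f5_an.QA.Cp
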