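import Pool.Agent.MP_5168f5_an.AN.GADef

/-! The Kakeya maximal estimate: caps given by sets of homogeneous forms. -/

namespace Pool.Agent.MP_5168f5_an.QA.Cp

open AN AN.GA Matrix Finset

variable {κ α : Type} [Fintype κ] [DecidableEq κ]

/-- `φ` lives on the block of weight `μ`. -/
def Hg (wt : κ → ℝ) (μ : ℝ) (φ : κ → ℝ) : Prop := ∀ b, φ b ≠ 0 → wt b = μ

/-- The rows are homogeneous elements of `S`. -/
def Rows (wt : κ → ℝ) (S : Set (κ → ℝ)) (F : Matrix κ κ ℝ) : Prop :=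
  ∀ a, F a ∈ S ∧ Hg wt (wt a) (F a)

/-- The largest determinant. -/
noncomputable def vl (wt : κ → ℝ) (S : Set (κ → ℝ)) : ℝ := sSup {r | ∃ F, Rows wt S F ∧ r = |F.det|}

/-- Almost extremal rows. -/
noncomputable def fm (wt : κ → ℝ) (S : Set (κ → ℝ)) : Matrix κ κ ℝ :=
  Classical.epsilon fun F => Rows wt S F ∧ vl wt S ≤ 2 * |F.det|

/-- The dual basis, as rows. -/
noncomputable def ub (wt : κ → ℝ) (S : Set (κ → ℝ)) : Matrix κ κ ℝ := ((fm wt S)ᵀ)⁻¹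

/-- The body of `S`. -/
def In (S : Set (κ → ℝ)) (x : κ → ℝ) : Prop := ∀ φ ∈ S, |φ ⬝ᵥ x| ≤ 1

/-- A bounded set that contains multiples of the coordinate forms. -/
structure Fu (S : Set (κ → ℝ)) (δ D : ℝ) : Prop where
  pos : 0 < δ
  one : ∀ a, δ • Pi.single a (1 : ℝ) ∈ S
  bd : ∀ φ ∈ S, ∀ b, |φ b| ≤ D

variable {wt : κ → ℝ} {S S' : Set (κ → ℝ)} {δ D D' μ μ' : ℝ} {φ ψ x c : κ → ℝ} {F : Matrix κ κ ℝ}

omit [Fintype κ] [DecidableEq κ] in
theorem Hg.smul (h : Hg wt μ φ) (t : ℝ) : Hg wt μ (t • φ) := fun b k =>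
  h b fun e => k (by simp [e])

omit [Fintype κ] in
theorem hg_one (wt : κ → ℝ) (a : κ) : Hg wt (wt a) (Pi.single a (1 : ℝ)) := fun b k => by
  by_contra e
  exact k (Pi.single_eq_of_ne (fun u => e (by rw [u])) _)

omit [DecidableEq κ] in
theorem Hg.dot (h : Hg wt μ φ) (h' : Hg wt μ' ψ) (e : μ ≠ μ') : φ ⬝ᵥ ψ = 0 :=
  sum_eq_zero fun b _ => by
    by_contra k
    exact e ((h b (left_ne_zero_of_mul k)).symm.trans (h' b (right_ne_zero_of_mul k)))

omit [DecidableEq κ] in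
theorem Hg.vecMul (h : Hg wt μ c) (hF : ∀ a, Hg wt (wt a) (F a)) : Hg wt μ (c ᵥ* F) := fun b k => by
  obtain ⟨a, -, u⟩ := exists_ne_zero_of_sum_ne_zero (s := univ) (f := fun a => c a * F a b) k
  exact (hF a b (right_ne_zero_of_mul u)).trans (h a (left_ne_zero_of_mul u))

omit [DecidableEq κ] in
theorem dot_vecMul (c x : κ → ℝ) (F : Matrix κ κ ℝ) : (c ᵥ* F) ⬝ᵥ x = ∑ a, c a * (F a ⬝ᵥ x) :=
  (dotProduct_mulVec c F x).symm

omit [DecidableEq κ] in
theorem abs_dot {t : ℝ} {r : κ → ℝ} (hc : ∀ a, |c a| * r a ≤ t) (h : ∀ a, |F a ⬝ᵥ x| ≤ r a) :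
    |(c ᵥ* F) ⬝ᵥ x| ≤ Fintype.card κ * t := by
  rw [dot_vecMul]
  refine (abs_sum_le_sum_abs _ _).trans ((sum_le_card_nsmul _ _ t fun a _ => ?_).trans (by simp))
  rw [abs_mul]
  exact (mul_le_mul_of_nonneg_left (h a) (abs_nonneg _)).trans (hc a)

theorem det_bd (h : ∀ φ ∈ S, ∀ b, |φ b| ≤ D) (hF : Rows wt S F) :
    |F.det| ≤ (Fintype.card κ).factorial * D ^ Fintype.card κ := by
  have := Matrix.det_le (abv := AbsoluteValue.abs) (A := F) (x := D) fun i j => h _ (hF i).1 j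
  simpa using this

theorem Fu.le_vl (h : Fu S δ D) (hF : Rows wt S F) : |F.det| ≤ vl wt S :=
  le_csSup ⟨_, by rintro _ ⟨G, k, rfl⟩; exact det_bd h.bd k⟩ ⟨F, hF, rfl⟩

omit [Fintype κ] in
theorem Fu.rows (h : Fu S δ D) : Rows wt S (δ • (1 : Matrix κ κ ℝ)) := fun a => by
  have : (δ • (1 : Matrix κ κ ℝ)) a = δ • Pi.single a (1 : ℝ) := by
    funext b; simp [one_apply, Pi.single_apply, eq_comm]
  rw [this]
  exact ⟨h.one a, (hg_one wt a).smul δ⟩

theorem Fu.low (h : Fu S δ D) : δ ^ Fintype.card κ ≤ vl wt S := by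
  have := h.le_vl (h.rows (wt := wt))
  rwa [det_smul, det_one, mul_one, abs_of_pos (pow_pos h.pos _)] at this

theorem Fu.vl_pos (h : Fu S δ D) : 0 < vl wt S := (pow_pos h.pos _).trans_le h.low

theorem Fu.vl_le (h : Fu S δ D) {B : ℝ} (k : ∀ F, Rows wt S F → |F.det| ≤ B) : vl wt S ≤ B :=
  csSup_le ⟨_, _, h.rows, rfl⟩ (by rintro _ ⟨F, u, rfl⟩; exact k F u)

theorem Fu.up (h : Fu S δ D) : vl wt S ≤ (Fintype.card κ).factorial * D ^ Fintype.card κ :=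
  h.vl_le fun _ => det_bd h.bd

theorem Fu.mono (h : Fu S δ D) (h' : Fu S' δ D') (e : S ⊆ S') : vl wt S ≤ vl wt S' :=
  h.vl_le fun _ k => h'.le_vl fun a => ⟨e (k a).1, (k a).2⟩

theorem Fu.fm (h : Fu S δ D) : Rows wt S (fm wt S) ∧ vl wt S ≤ 2 * |(fm wt S).det| := by
  refine Classical.epsilon_spec (p := fun F => Rows wt S F ∧ vl wt S ≤ 2 * |F.det|) ?_
  obtain ⟨_, ⟨F, k, rfl⟩, u⟩ := exists_lt_of_lt_csSup
    (s := {r | ∃ F, Rows wt S F ∧ r = |F.det|}) ⟨_, _, h.rows, rfl⟩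
    (half_lt_self (h.vl_pos (wt := wt)))
  exact ⟨F, k, by unfold vl; linarith⟩

theorem Fu.det_pos (h : Fu S δ D) : 0 < |(Cp.fm wt S).det| := by
  have := h.vl_pos (wt := wt)
  have := (h.fm (wt := wt)).2
  linarith

theorem Fu.unit (h : Fu S δ D) : IsUnit (Cp.fm wt S).det :=
  isUnit_iff_ne_zero.2 (abs_pos.1 h.det_pos)

theorem Fu.inv (h : Fu S δ D) : ub wt S * (Cp.fm wt S)ᵀ = 1 :=
  nonsing_inv_mul _ (by rw [det_transpose]; exact h.unit)

theorem Fu.dual (h : Fu S δ D) (a e : κ) :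
    Cp.fm wt S e ⬝ᵥ ub wt S a = (1 : Matrix κ κ ℝ) a e := by
  rw [← h.inv (wt := wt), dotProduct_comm]; rfl

/-- Coordinates of a homogeneous form. -/
theorem coef (hF : ∀ a, Hg wt (wt a) (F a)) (u : IsUnit F.det) (h : Hg wt μ φ) :
    ∃ c, Hg wt μ c ∧ φ = c ᵥ* F := by
  classical
  obtain ⟨c, rfl⟩ : ∃ c, φ = c ᵥ* F :=
    ⟨φ ᵥ* F⁻¹, by rw [vecMul_vecMul, nonsing_inv_mul _ u, vecMul_one]⟩
  refine ⟨fun a => if wt a = μ then c a else 0, fun a k => by_contra fun e => k (if_neg e), ?_⟩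
  funext b
  by_cases e : wt b = μ
  · refine sum_congr rfl fun a _ => ?_
    by_cases k : F a b = 0
    · simp [k]
    · simp [← hF a b k, e]
  · refine (not_not.1 fun k => e (h b k)).trans (sum_eq_zero fun a _ => ?_).symm
    by_cases k : F a b = 0
    · simp [k]
    · simp [← hF a b k, e]

theorem det_upd (F : Matrix κ κ ℝ) (c : κ → ℝ) (a : κ) :
    |(F.updateRow a (c ᵥ* F)).det| = |c a| * |F.det| := by
  rw [vecMul_eq_sum, det_updateRow_sum, smul_eq_mul, abs_mul]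

omit [Fintype κ] in
theorem Rows.upd (h : Rows wt S F) (e : S ⊆ S') {a : κ} (k : φ ∈ S') (u : Hg wt (wt a) φ) :
    Rows wt S' (F.updateRow a φ) := fun b => by
  by_cases i : b = a
  · subst i; rw [updateRow_self]; exact ⟨k, u⟩
  · rw [updateRow_ne i]; exact ⟨e (h b).1, (h b).2⟩

/-- Elements of `S` have small coordinates. -/
theorem Fu.span (h : Fu S δ D) (k : φ ∈ S) (u : Hg wt μ φ) :
    ∃ c, Hg wt μ c ∧ φ = c ᵥ* Cp.fm wt S ∧ ∀ a, |c a| ≤ 2 := by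
  obtain ⟨c, h1, h2⟩ := coef (fun a => (h.fm.1 a).2) h.unit u
  refine ⟨c, h1, h2, fun a => ?_⟩
  by_cases e : c a = 0
  · simp [e]
  · have h3 := (h.le_vl (h.fm.1.upd subset_rfl k (a := a) ((h1 a e).symm ▸ u))).trans h.fm.2
    rw [h2, det_upd] at h3
    exact le_of_mul_le_mul_right h3 h.det_pos

/-- A long form increases the determinant. -/
theorem Fu.gain (h : Fu S δ D) (h' : Fu S' δ D') (e : S ⊆ S') (k : φ ∈ S') (u : Hg wt μ φ)
    (hx : In S x) {R : ℝ} (hR : 0 < R) (l : R ≤ |φ ⬝ᵥ x|) :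
    R * vl wt S ≤ 2 * Fintype.card κ * vl wt S' := by
  obtain ⟨c, h1, h2⟩ := coef (fun a => ((h.fm (wt := wt)).1 a).2) h.unit u
  obtain ⟨a, ha⟩ : ∃ a, R ≤ Fintype.card κ * |c a| := by
    by_contra n
    push Not at n
    rcases isEmpty_or_nonempty κ with i | i
    · simp [dotProduct] at l; linarith
    · obtain ⟨a, -, m⟩ := exists_max_image univ (fun a => |c a|) univ_nonempty
      have := abs_dot (c := c) (F := Cp.fm wt S) (x := x) (t := |c a|) (r := fun _ => 1)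
        (fun b => by simpa using m b (mem_univ _)) fun b => hx _ (h.fm.1 b).1
      rw [← h2] at this
      linarith [n a]
  have e0 : c a ≠ 0 := fun z => by simp [z] at ha; linarith
  have h3 := h'.le_vl (h.fm.1.upd e k (a := a) ((h1 a e0).symm ▸ u))
  rw [h2, det_upd] at h3
  have h4 := mul_le_mul ha (h.fm (wt := wt)).2 h.vl_pos.le (by positivity)
  have h5 := mul_le_mul_of_nonneg_left h3 (show (0 : ℝ) ≤ 2 * Fintype.card κ by positivity)
  nlinarith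

theorem Fu.hg_ub (h : Fu S δ D) (a : κ) : Hg wt (wt a) (ub wt S a) := fun b k => by
  obtain ⟨c, h1, h2⟩ := coef (fun a => ((h.fm (wt := wt)).1 a).2) h.unit (hg_one wt b)
  have h3 := dot_vecMul c (ub wt S a) (Cp.fm wt S)
  rw [← h2, single_dotProduct, one_mul] at h3
  simp only [h.dual, one_apply, mul_ite, mul_one, mul_zero, sum_ite_eq, mem_univ, if_true] at h3
  exact (h1 a (h3 ▸ k)).symm

/-- The dual basis lies in twice the body. -/
theorem Fu.in_ub (h : Fu S δ D) (hg : ∀ φ ∈ S, ∃ μ, Hg wt μ φ) (a : κ) :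
    In S ((1 / 2 : ℝ) • ub wt S a) := fun φ k => by
  obtain ⟨μ, u⟩ := hg φ k
  obtain ⟨c, -, h2, h3⟩ := h.span k u
  rw [dotProduct_smul, h2, dot_vecMul]
  simp only [h.dual, one_apply, mul_ite, mul_one, mul_zero, sum_ite_eq, mem_univ, if_true,
    smul_eq_mul, abs_mul]
  have := h3 a
  norm_num
  linarith

/-- Coordinates of a form are its values on the dual basis. -/
theorem Fu.coord (h : Fu S δ D) (c : κ → ℝ) (a : κ) : (c ᵥ* Cp.fm wt S) ⬝ᵥ ub wt S a = c a := by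
  rw [dot_vecMul]
  simp only [h.dual, one_apply, mul_ite, mul_one, mul_zero, sum_ite_eq, mem_univ, if_true]

end Pool.Agent.MP_5168f5_an.QA.Cp
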