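import Pool.Agent.MP_5168f5_an.QA.CpSd

/-! The Kakeya maximal estimate: the chain record on one space. -/

namespace Pool.Agent.MP_5168f5_an.QA.Cp

open H19 H17S H17F AN AN.GA AN.N6 Matrix Finset H61Z

variable {ι κ α : Type} [Fintype ι] [DecidableEq ι] [Fintype κ] [DecidableEq κ] [Fintype α]

/-- The levels. -/
def xk (ρ : ℚ) (m k : ℕ) : ℚ := k * (1 - ρ) / m

/-- The facts on a grid of levels. -/
structure Pd.Gr (σ : Cs ι κ α) (X : Pd ι κ α) (x : ℕ → ℚ) (m : ℕ) (ε : ℝ) : Prop where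
  nest : ∀ k ≤ m, ∀ k' ≤ m, k ≤ k' → Fn X.P (X.z (x k)) (X.z (x k'))
  zS : ∀ k ≤ m, Fn X.P (X.z (x k)) X.S
  zT : Fn X.P (X.z 0) X.T
  tS : Fn X.P X.T X.S
  tO : Fn X.P X.T (X.O 0)
  fB : Fn X.P (fun ω => (X.B ω, X.c ω)) X.T
  fA : Fn X.P X.A (X.O 0)
  alg : ∀ ω ∈ X.P.S, X.Alg σ (ε * X.M) ω
  near : X.Near σ (ε * X.M)
  tt : X.Tt σ (ε * X.M)
  inc : ∀ k ≤ m, X.Inc σ (x k) (ε * X.M)
  ac : ∀ k ≤ m, X.Ac σ (x k) (ε * X.M)
  ht : ∀ i ≤ m, ∀ k ≤ m, ∀ k' ≤ m, k ≤ k' → Ht (σ.kf i) X.P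
    (fun ω => Real.exp (σ.μ σ.τ * (x k' * X.M)) * X.zt ω) (X.O (x k)) ε
    (Real.exp (-((1 - 1 / (i + 1 : ℝ)) * (σ.μ σ.τ * ((x k' - x k) * X.M))) + ε * X.M))

/-- The chain record. -/
noncomputable def Pd.sd (X : Pd ι κ α) {β : Type} (F L e : ℝ) (m s : ℕ) (x : ℕ → ℚ)
    (Ψ : ℕ → X.Ω → Set (κ → ℝ)) (C : ℕ → X.Ω → β) (G : X.Ω → Prop) :
    Sd ι κ α X.Ω X.L ((X.L × X.Z) ⊕ β) :=
  ⟨X.ba F L, m, s, e, fun k => x k * X.M, X.l,
    fun b k ω => bif b then .inl (X.O (x k) ω) else .inr (C k ω), Ψ, G⟩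

/-- A constant. -/
noncomputable def Cs.c0 (σ : Cs ι κ α) : ℝ := 27 * Fintype.card κ ^ 4 + σ.g +
  Real.log ((Fintype.card κ).factorial * Fintype.card κ ^ Fintype.card κ)

/-- The relations between the numbers. -/
structure Nm1 (σ : Cs ι κ α) (ρ : ℚ) (M m s : ℕ) (v : ℝ) : Prop where
  m3 : 3 ≤ m
  vm : 1 / (m + 1 : ℝ) ^ 4 * M = v
  mv : (m + 1 : ℝ) ≤ v
  lv : Real.log (M + 1) ≤ v
  cv : σ.c0 ≤ v
  gv : 4 * v ≤ σ.g * ρ * M
  s1 : (m * s : ℝ) ≤ (1 - ρ) * M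
  s2 : (1 - ρ : ℝ) * M ≤ m * (s + 1)

theorem xk_le {ρ : ℚ} {m k k' : ℕ} (h : ρ ≤ 1) (e : k ≤ k') : xk ρ m k ≤ xk ρ m k' :=
  div_le_div_of_nonneg_right (mul_le_mul_of_nonneg_right (by exact_mod_cast e) (by linarith))
    (Nat.cast_nonneg _)

theorem xk_zero (ρ : ℚ) (m : ℕ) : xk ρ m 0 = 0 := by simp [xk]

theorem xk_top (ρ : ℚ) {m : ℕ} (h : m ≠ 0) : xk ρ m m = 1 - ρ := by
  rw [xk, mul_div_cancel_left₀ _ (by exact_mod_cast h)]

theorem log_N1 {d r : ℝ} (hd : 1 ≤ d) (hr : 0 ≤ r) :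
    Real.log (8 * d / (Real.exp (-r) / (3 * d)) + 2) ≤ 26 * d ^ 2 + r := by
  have e := Real.one_le_exp hr
  rw [Real.exp_neg, show 8 * d / ((Real.exp r)⁻¹ / (3 * d)) = 24 * d ^ 2 * Real.exp r by
    field_simp; norm_num, Real.log_le_iff_le_exp (by positivity), Real.exp_add]
  have d2 : 1 ≤ d ^ 2 := one_le_pow₀ hd
  nlinarith [mul_le_mul_of_nonneg_right (Real.add_one_le_exp (26 * d ^ 2)) (zero_le_one.trans e)]

theorem sd_ok (σ : Cs ι κ α) (g0 : 0 < σ.g) (wt : ∀ b, σ.μ b = 0 ∨ σ.g ≤ σ.μ b)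
    (et : ∀ i, 0 < σ.η i) (t0 : 0 < σ.μ σ.τ) : ∃ f, PG f ∧ ∀ (X : Pd ι κ α) (ρ : ℚ) (m s : ℕ)
    (v K ϑ La : ℝ), 0 < ρ → ρ ≤ 1 / 2 → Nm1 σ ρ X.M m s v →
    X.Gr σ (xk ρ m) m (1 / (m + 1 : ℝ) ^ 4) → f (Real.exp (2 * v)) ≤ Real.exp ((m + 1) * v) →
    0 ≤ ϑ → 1 ≤ La → σ.m / K ≤ σ.g * ρ / 8 →
    ∃ y : (ℕ → X.Ω → Set (κ → ℝ)) × (ℕ → X.Ω → Ce ι κ (X.Λ' × X.Z)) × (X.Ω → Prop),
      (X.sd (Real.exp (σ.g * ρ / 2 * X.M)) (Real.exp (2 * v)) ((m + 1) ^ 2 * v) m s (xk ρ m) y.1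
        y.2.1 y.2.2).Ok σ K ϑ La (σ.g * ρ / 8) σ.g ∧
      (∀ i ≤ m, 4 * 2 ^ σ.kf i + 1 ≤ Real.exp v → ∀ k k', k ≤ k' → k' ≤ m →
        (X.ba (Real.exp (σ.g * ρ / 2 * X.M)) (Real.exp (2 * v))).Ht σ
        (fun ω => (.inl (X.O (xk ρ m k) ω) : _ ⊕ Ce ι κ (X.Λ' × X.Z))) y.2.2 i
        (σ.μ σ.τ * (xk ρ m k * X.M)) (σ.μ σ.τ * (xk ρ m k' * X.M - xk ρ m k * X.M))
        ((m + 1) ^ 2 * v)) ∧
      pb X.P (fun ω => ¬y.2.2 ω) ≤ 2 / (m + 1) ∧
      ch X.P (y.2.1 m) X.S ≤ (Fintype.card κ * σ.g / La + Fintype.card κ ^ 2 * ϑ) * X.M +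
        4 * ((m + 1) ^ 2 * v) ∧
      Fn X.P X.T (y.2.1 0) ∧ Fn X.P (y.2.1 0) X.T ∧ Fn X.P X.T (y.2.1 m) := by
  obtain ⟨f, pf, hf⟩ := chain α κ σ.Φ
  refine ⟨f, pf, fun X ρ m s v K ϑ La r0 r1 nm gr hLs th hΛ hK => ?_⟩
  have : Nonempty κ := ⟨σ.τ⟩
  obtain ⟨m3, vm, mv, lv, cv, gv, s1, s2⟩ := nm
  have d1 : (1 : ℝ) ≤ Fintype.card κ := by exact_mod_cast Fintype.card_pos
  have M0 : (0 : ℝ) ≤ X.M := Nat.cast_nonneg _
  have m3' : (3 : ℝ) ≤ m := by exact_mod_cast m3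
  have r0' : (0 : ℝ) < ρ := by exact_mod_cast r0
  have r1' : (ρ : ℝ) ≤ 1 / 2 := by simpa using (Rat.cast_le (K := ℝ)).2 r1
  have lc : 0 ≤ Real.log ((Fintype.card κ).factorial * Fintype.card κ ^ Fintype.card κ) :=
    Real.log_nonneg (one_le_mul_of_one_le_of_one_le
      (by exact_mod_cast (Fintype.card κ).factorial_pos) (one_le_pow₀ d1))
  have d2 : (Fintype.card κ : ℝ) ≤ Fintype.card κ ^ 2 := le_self_pow₀ d1 two_ne_zero
  have d4 : (Fintype.card κ : ℝ) ^ 2 ≤ Fintype.card κ ^ 4 := pow_le_pow_right₀ d1 (by norm_num)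
  unfold Cs.c0 at cv
  have ev := Real.add_one_le_exp v
  have v0 : 0 < v := by linarith
  have ve : 16 * v ≤ (m + 1) ^ 2 * v := mul_le_mul_of_nonneg_right (by nlinarith) v0.le
  have ve' : 4 * ((m + 1) * v) ≤ (m + 1) ^ 2 * v := by nlinarith
  have vM : 4 * v ≤ X.M := by
    rw [← vm, one_div, ← mul_assoc]
    refine mul_le_of_le_one_left M0 ((mul_inv_le_iff₀ (by positivity)).2 ?_)
    nlinarith [pow_le_pow_left₀ (show (0 : ℝ) ≤ 4 by norm_num) (show (4 : ℝ) ≤ m + 1 by linarith) 4]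
  have x0 : ∀ k, 0 ≤ xk ρ m k := fun k => (xk_zero ρ m).ge.trans (xk_le (by linarith) k.zero_le)
  have x1 : ∀ k ≤ m, xk ρ m k ≤ 1 - ρ := fun k a =>
    (xk_le (by linarith) a).trans (xk_top ρ (by omega)).le
  have xg : ∀ k ≤ m, (ρ : ℝ) ≤ 1 - xk ρ m k := fun k a => by
    have : ((xk ρ m k : ℚ) : ℝ) ≤ ((1 - ρ : ℚ) : ℝ) := by exact_mod_cast x1 k a
    push_cast at this
    linarith
  have xM : ∀ k ≤ m, σ.g * ρ * X.M ≤ σ.g * (1 - xk ρ m k) * X.M := fun k a =>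
    mul_le_mul_of_nonneg_right (mul_le_mul_of_nonneg_left (xg k a) g0.le) M0
  have gρ : 0 < σ.g * ρ := mul_pos g0 r0'
  have aM : 0 ≤ σ.g * ρ / 2 * X.M := by positivity
  have F1 := Real.one_le_exp aM
  have al := gr.alg
  have oo : ∀ k ≤ m, ∀ k' ≤ m, k ≤ k' → Fn X.P (X.O (xk ρ m k)) (X.O (xk ρ m k')) :=
    fun k a k' a' b => (Fn.fst _ _).pair ((gr.nest k a k' a' b).trans (Fn.snd _ _))
  have o0 : ∀ k ≤ m, Fn X.P (X.O 0) (X.O (xk ρ m k)) := fun k a => by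
    simpa only [xk_zero] using oo 0 m.zero_le k a k.zero_le
  have L2 : Real.exp v ≤ Real.exp (2 * v) := Real.exp_le_exp.2 (by linarith)
  have Ld : Fintype.card κ ^ 2 * Real.exp v ≤ Real.exp (2 * v) := by
    rw [two_mul v, Real.exp_add]
    exact mul_le_mul_of_nonneg_right (by linarith) (Real.exp_pos _).le
  rw [vm] at al
  have hy : ∀ k ≤ m, (X.sp σ (Real.exp (σ.g * ρ / 2 * X.M)) (Real.exp (2 * v))).Hy σ.Φ
      (X.O (xk ρ m k)) (fun ω => (X.T ω, X.z (xk ρ m k) ω)) (xk ρ m k * X.M) := fun k a =>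
    Pd.hy g0 wt et (x0 k) (by positivity) (by nlinarith [xg k a]) L2 al (vm ▸ gr.near)
      (vm ▸ gr.inc k a) (gr.tO.trans (o0 k a)) gr.tS (gr.zS k a) gr.fB (gr.fA.trans (o0 k a))
  have L1 := Real.one_le_exp (show 0 ≤ 2 * v by linarith)
  have ts : 0 ≤ ϑ * s := by positivity
  let I : ℕ := ⌈σ.g * ρ / 2 * X.M⌉₊ + Fintype.card κ
  have fF : ∀ b, flr σ.μ (Real.exp (σ.g * ρ / 2 * X.M)) b ≤ Real.exp (σ.g * ρ / 2 * X.M) :=
    fun b => by unfold flr; split_ifs <;> simp [F1]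
  obtain ⟨Ψ, C, p0, c0, st, lk⟩ := hf _ _ _ _ (X.sp σ _ _) (fun k => X.O (xk ρ m k))
    (fun k ω => (X.T ω, X.z (xk ρ m k) ω)) (fun k => xk ρ m k * X.M) m
    (Real.exp (-(ϑ * s)) / (3 * Fintype.card κ)) La (Real.exp (-I - 6 * v))
    (fun k a => hy _ a) (fun k a => oo k a.le _ a k.le_succ) (hy 0 m.zero_le).zo
    (hy 0 m.zero_le).zs (fun ω k => Pd.good0 F1 Ld (al ω k)) L1 (by positivity)
    ((div_le_one (by positivity)).2 ((Real.exp_le_one_iff.2 (by linarith)).trans (by linarith)))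
    (by linarith) (Real.exp_pos _)
  have ind : ∀ p : ℕ → Prop, p 0 → (∀ k < m, p (k + 1)) → ∀ k ≤ m, p k := fun p a b k c => by
    cases k with
    | zero => exact a
    | succ k => exact b k c
  have fz : ∀ k ≤ m, Fn X.P (fun ω => ((X.T ω, X.z (xk ρ m k) ω), Ψ k ω)) (C k) :=
    ind _ (fun a _ b _ e => by
      rw [c0] at e
      simp only [List.cons.injEq, Prod.mk.injEq] at e
      simp only [p0, e.1.1.1, e.1.1.2]) fun k a => (st k a).fz
  have fo : ∀ k ≤ m, Fn X.P (C k) (X.O (xk ρ m k)) := ind _ (fun a ha b hb e => by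
    simp only [c0, (hy 0 m.zero_le).zo a ha b hb e]) fun k a => (st k a).fo
  have gd : ∀ k ≤ m, ∀ ω ∈ X.P.S,
      (X.da σ (Real.exp (σ.g * ρ / 2 * X.M)) (Real.exp (2 * v)) ω).Good (Ψ k ω) :=
    ind _ (fun ω k => p0 ▸ Pd.good0 F1 Ld (al ω k)) fun k a ω b => ((st k a).nx.2 ω b).1
  have ht : ∀ i k k' : ℕ, ∃ G : X.Ω → Prop,
      pb X.P (fun ω => ¬G ω) ≤ 1 / (m + 1 : ℝ) ^ 4 ∧ (i ≤ m → k ≤ k' → k' ≤ m →
      ∀ ω ∈ X.P.S, En (σ.kf i) (sl (H17F.cv X.P (X.O (xk ρ m k)) (X.O (xk ρ m k) ω))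
      (fun v => ⌊Real.exp (σ.μ σ.τ * (xk ρ m k' * X.M)) * X.zt v⌋) G) (Real.exp (-((1 - 1 /
        (i + 1 : ℝ)) * (σ.μ σ.τ * ((xk ρ m k' - xk ρ m k) * X.M))) + v))) := fun i k k' => by
    by_cases c : i ≤ m ∧ k ≤ k' ∧ k' ≤ m
    · obtain ⟨G, a, b⟩ := gr.ht i c.1 k (c.2.1.trans c.2.2) k' c.2.2 c.2.1
      exact ⟨G, a, fun _ _ _ => vm ▸ b⟩
    · exact ⟨fun _ => True, (pb_zero fun _ _ k => k trivial).trans_le (by positivity),
        fun a b d => absurd ⟨a, b, d⟩ c⟩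
  choose Gt hG using ht
  have Le' : Real.exp (2 * v) ≤ Real.exp ((m + 1) ^ 2 * v) := Real.exp_le_exp.2 (by linarith)
  have f1 := pf.1 _ L1
  have lf := (Real.log_le_iff_le_exp (by linarith)).2 hLs
  have U1 : ((m * s : ℕ) : ℝ) ≤ X.M := by push_cast; nlinarith
  refine ⟨(Ψ, C, fun ω => (∀ k < m, ∀ R, 0 < R → (X.sp σ (Real.exp (σ.g * ρ / 2 * X.M))
    (Real.exp (2 * v))).Rb (Ψ (k + 1)) (C (k + 1)) R
    (Real.exp ((m + 1) ^ 2 * v - 1 + 1 - Real.log R / La)) ω) ∧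
    ∀ i < m + 1, ∀ k < m + 1, ∀ k' < m + 1, Gt i k k' ω),
    ⟨L1, Le', Real.exp_le_exp.2 ?_, fun k a => ?_, fun b k a => ?_, fun k a p u q w e => ?_,
      fun k a p u q w e => congrArg Prod.fst (Sum.inl.inj e), fun k a p u q w e => ?_,
      fun p u q w e => ?_, fun k a p u q w e => ?_, fun k a ω b => ba_alg g0 (x0 k)
        ((x1 k a).trans (by linarith)) L2 (by linarith [xM k a]) (al ω b), gd,
      fun k a ω b y c => ((st k a).nx.2 ω b).2 (Or.inl c), fun k a b => ?_,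
      fun k a => ba_incO (hy k a) Le' fun _ _ => Sum.inl_injective.eq_iff, fun k k' a b => ?_,
      fun k a => ba_ac al (vm ▸ gr.ac k a) (by change v ≤ (m + 1) ^ 2 * v; linarith) ?_
        fun _ _ => Sum.inl_injective.eq_iff, fun ω b => ?_, fun k a b ω _ g h φ r y p q w => ?_⟩,
    fun i a b k k' c d => ba_ht (vm ▸ gr.tt) (o0 k (c.trans d))
      (fun _ _ => Sum.inl_injective.eq_iff) (fun ω g => g.2 i (by omega) k (by omega) k' (by omega))
      ?_ ((hG i k k').2 a c d) ?_, ?_, ?_, (Fn.fst _ _).trans ((Fn.fst _ _).trans (fz 0 m.zero_le)),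
    fun a ha b hb e => ?_, (Fn.fst _ _).trans ((Fn.fst _ _).trans (fz m le_rfl))⟩
  · change _ ≤ σ.g * (m * s : ℕ)
    push_cast
    nlinarith [mul_le_mul_of_nonneg_left (show ρ / 2 * X.M ≤ (m * s : ℝ) by nlinarith) g0.le]
  · change |(xk ρ m k : ℝ) * X.M - k * s| ≤ (m + 1) ^ 2 * v
    have a' : (k : ℝ) ≤ m := by exact_mod_cast a
    have k0 : (0 : ℝ) ≤ k := Nat.cast_nonneg _
    have e : (xk ρ m k : ℝ) * X.M - k * s = k * (((1 - ρ) * X.M - m * s) / m) := by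
      rw [xk]; push_cast; field_simp
    have b : ((1 - ρ) * X.M - m * s) / m ≤ (1 : ℝ) := (div_le_one (by linarith)).2 (by linarith)
    rw [e, abs_of_nonneg (mul_nonneg k0 (div_nonneg (by linarith) (by linarith)))]
    exact (mul_le_of_le_one_right k0 b).trans (by linarith)
  · cases b
    · exact fun p u q w e => congrArg Sum.inr ((st k a).nest p u q w (Sum.inr.inj e))
    · exact fun p u q w e => congrArg Sum.inl (oo k a.le _ a k.le_succ p u q w (Sum.inl.inj e))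
  · exact congrArg Sum.inr (fo k a p u q w (Sum.inl.inj e))
  · obtain ⟨e1, e2⟩ := Prod.mk.inj e
    exact congrArg Sum.inl (Prod.ext e1 (congrArg (·.1.2) (fz k a p u q w (Sum.inr.inj e2))))
  · exact gr.fB p u q w (congrArg (·.1.1) (fz 0 m.zero_le p u q w (Sum.inr.inj e)))
  · exact congrArg Prod.snd (fz k a p u q w (Sum.inr.inj e))
  · obtain ⟨k, rfl⟩ := Nat.exists_eq_add_of_le' b
    exact ba_incC al (fun p u q w e => (st k a).inc p u q w (Sum.inr.inj e))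
      (hLs.trans (Real.exp_le_exp.2 (by change _ ≤ (m + 1) ^ 2 * v; nlinarith)))
  · change (X.ba _ _).Rate σ (Ψ k) (Ψ k') (ϑ * ((k' - k) * s)) ((m + 1) ^ 2 * v)
    rw [mul_left_comm]
    exact ba_rate (by linarith) ts (by linarith [Real.add_one_le_exp ((m + 1) ^ 2 * v)])
      (by linarith) gd (fun k a ω b => ((st k a).nx.2 ω b).2) a b
  · change v + _ + 2 * (σ.g * ρ / 8 * (m * s : ℕ)) ≤ _
    nlinarith [xM k a, mul_le_mul_of_nonneg_left U1 gρ.le]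
  · change vl σ.μ (Ψ 0 ω) * Real.exp ((σ.m / K + σ.g * ρ / 8) * (m * s : ℕ)) ≤ Real.exp _
    have g := Pd.good0 le_rfl Ld (al ω b)
    have := (vl_bd g (F := 1) fun b => by simp [Pd.da, flr]).2
    rw [Real.log_one, mul_zero, add_zero, Real.log_le_iff_le_exp g.fu.vl_pos] at this
    rw [p0]
    refine (mul_le_mul_of_nonneg_right this (Real.exp_pos _).le).trans ?_
    rw [← Real.exp_add]
    refine Real.exp_le_exp.2 ?_
    nlinarith [mul_le_mul_of_nonneg_left U1 gρ.le,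
      mul_le_mul_of_nonneg_right hK (Nat.cast_nonneg (α := ℝ) (m * s))]
  · obtain ⟨k, rfl⟩ := Nat.exists_eq_add_of_le' b
    have := g.1 k a _ (Real.exp_pos h) φ r y p q w
    rw [Real.log_exp, sub_add_cancel] at this
    refine le_of_eq_of_le (congrArg (pb · _) ?_) this
    simp only [H17F.cv, Pd.sd, Pd.sp, Pd.ba, cond_false, Sum.inr.injEq]
  · have := mul_le_mul_of_nonneg_right (mul_le_mul ((wt _).resolve_left t0.ne') (xg k' d) r0'.le
      t0.le) M0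
    nlinarith
  · refine (mul_le_mul_of_nonneg_right b (Real.exp_pos _).le).trans ?_
    rw [← Real.exp_add, sub_mul (xk ρ m k' : ℝ)]
    exact Real.exp_le_exp.2 (by linarith)
  · have h1 := rob_all (I := I) (e := (m + 1) ^ 2 * v - 1) (O := fun k => X.O (xk ρ m k))
      (Z := fun k ω => (X.T ω, X.z (xk ρ m k) ω)) (s := fun k => xk ρ m k * X.M)
      (fun k a => hy (k + 1) a) st hΛ (Real.exp_pos _) (by
        refine (sum_le_card_nsmul univ _ _ fun b _ => fF b).trans_lt ?_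
        simp only [card_univ, nsmul_eq_mul, I, Nat.cast_add, Real.exp_add]
        rw [mul_comm]
        exact mul_lt_mul' (Real.exp_le_exp.2 (Nat.le_ceil _))
          (by linarith [Real.add_one_le_exp (Fintype.card κ : ℝ)]) (by linarith) (Real.exp_pos _))
      (by linarith)
    have h2 := pb_lt X.P (fun i ω => ∀ k < m + 1, ∀ k' < m + 1, Gt i k k' ω) (m + 1) fun i _ =>
      pb_lt X.P _ (m + 1) fun k _ => pb_lt X.P _ (m + 1) fun k' _ => (hG i k k').1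
    have h3 : (I : ℝ) ≤ Real.exp v * Real.exp v := by
      have := Nat.ceil_lt_add_one aM
      rw [Real.log_le_iff_le_exp (by linarith)] at lv
      refine le_trans ?_ (mul_le_mul (show σ.g + Fintype.card κ + 1 ≤ _ by linarith) lv
        (by linarith) (Real.exp_pos _).le)
      simp only [I, Nat.cast_add]
      nlinarith [mul_le_mul_of_nonneg_right (mul_le_mul_of_nonneg_left r1' g0.le) M0]
    have h4 : Real.log (2 * Fintype.card κ) ≤ v :=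
      (Real.log_le_iff_le_exp (by linarith)).2 (by linarith)
    have h5 := Real.exp_le_exp.2 (show 2 + Real.log (f (Real.exp (2 * v))) +
      Real.log (2 * Fintype.card κ) - ((m + 1) ^ 2 * v - 1) ≤ -(6 * v) by nlinarith)
    rw [← Real.exp_add, show -(I : ℝ) - 6 * v + I = -(6 * v) by ring] at h1
    have h6 : (m : ℝ) * (I * (Real.exp (-(6 * v)) + Real.exp (-(6 * v)))) ≤ 1 / (m + 1) := by
      have e6 : Real.exp v ^ 6 * Real.exp (-(6 * v)) = 1 := by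
        rw [← Real.exp_nat_mul, ← Real.exp_add]; simp
      have p := Real.exp_pos (-(6 * v))
      rw [le_div_iff₀ (by linarith)]
      refine le_of_le_of_eq ?_ e6
      calc _ = (m * (m + 1) * 2 * I) * Real.exp (-(6 * v)) := by ring
        _ ≤ (Real.exp v * Real.exp v * (Real.exp v * Real.exp v) * (Real.exp v * Real.exp v)) *
            Real.exp (-(6 * v)) := by
          gcongr
          · linarith
          · linarith
          · nlinarith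
        _ = _ := by ring
    refine (H39F.pb_union X.P fun ω _ k => not_and_or.1 k).trans ((add_le_add (h1.trans
      (le_trans (mul_le_mul_of_nonneg_left (mul_le_mul_of_nonneg_left (add_le_add h5 le_rfl)
        (Nat.cast_nonneg _)) (Nat.cast_nonneg _)) h6)) h2).trans (le_of_eq ?_))
    push_cast
    field_simp
    norm_num
  · have h1 := lk m le_rfl
    have h2 : (X.sp σ (Real.exp (σ.g * ρ / 2 * X.M)) (Real.exp (2 * v))).W (Ψ m) ≤ _ :=
      (X.P.E_mono fun ω k => (vl_bd (gd m le_rfl ω k) fF).2).trans_eq (X.P.E_const _)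
    have h3 := mul_le_mul_of_nonneg_left (log_N1 d1 ts) (sq_nonneg (Fintype.card κ : ℝ))
    have h4 : Real.exp (-I - 6 * v) ≤ 1 := Real.exp_le_one_iff.2 (by
      linarith [Nat.cast_nonneg (α := ℝ) I])
    rw [N1, Real.log_pow, Nat.cast_mul, ← pow_two] at h1
    rw [Real.log_exp] at h2
    refine le_of_mul_le_mul_left (h1.trans ?_) (show 0 < La by linarith)
    have e : La * ((Fintype.card κ * σ.g / La + Fintype.card κ ^ 2 * ϑ) * X.M +
        4 * ((m + 1) ^ 2 * v)) = Fintype.card κ * σ.g * X.M +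
        La * (Fintype.card κ ^ 2 * ϑ * X.M + 4 * ((m + 1) ^ 2 * v)) := by field_simp; ring
    have h5 : m * (Fintype.card κ ^ 2 * Real.log (8 * Fintype.card κ / (Real.exp (-(ϑ * s)) /
        (3 * Fintype.card κ)) + 2) + Real.log (f (Real.exp (2 * v)))) ≤
        Fintype.card κ ^ 2 * ϑ * X.M + 2 * ((m + 1) ^ 2 * v) := by
      refine (mul_le_mul_of_nonneg_left (add_le_add (h3.trans (show _ ≤ v + Fintype.card κ ^ 2 *
        (ϑ * s) by nlinarith)) lf) (Nat.cast_nonneg _)).trans ?_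
      push_cast at U1
      nlinarith [mul_le_mul_of_nonneg_left U1 (show 0 ≤ Fintype.card κ ^ 2 * ϑ by positivity)]
    have h6 := mul_le_mul_of_nonneg_left h5 (show 0 ≤ La by linarith)
    have h7 := mul_le_mul_of_nonneg_right hΛ (show 0 ≤ (m + 1) ^ 2 * v by positivity)
    have h8 : Fintype.card κ * (σ.g * ρ / 2 * X.M) ≤ Fintype.card κ * σ.g * X.M := by
      rw [mul_assoc]
      refine mul_le_mul_of_nonneg_left ?_ (by linarith)
      nlinarith [mul_le_mul_of_nonneg_right (mul_le_mul_of_nonneg_left r1' g0.le) M0]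
    rw [e]
    change _ + m * (La * (_ + Real.log (f (Real.exp (2 * v)))) + _) ≤ _
    nlinarith [mul_le_mul_of_nonneg_left h4 (show (0 : ℝ) ≤ m by linarith)]
  · simp only [c0, xk_zero, e, gr.zT a ha b hb e]

end Pool.Agent.MP_5168f5_an.QA.Cp
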