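import Pool.Agent.MP_5168f5_an.AN.LCTrim
import Pool.Agent.MP_5168f5_an.AN.N3Tail

/-! Selection along a chain of cells: one space. -/

namespace Pool.Agent.MP_5168f5_an.QA.Cp.SelA

open H19 H17S H17F Filter
open AN.S20 (dn dn_pos dn_eq pb_val)

variable {Ω α Λ Λ' : Type} {P : FP Ω}

theorem pb_any {κ : Type} (P : FP Ω) (I : Finset κ) (E : κ → Ω → Prop) {D : ℝ}
    (h : ∀ i ∈ I, pb P (E i) ≤ D) : pb P (fun ω => ∃ i ∈ I, E i ω) ≤ I.card * D := by
  classical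
  induction I using Finset.induction_on with
  | empty => simpa using (pb_zero fun _ _ k => k).le
  | insert c T hc ih =>
    have h1 := ih fun c' k => h c' (Finset.mem_insert_of_mem k)
    have h2 := h c (Finset.mem_insert_self _ _)
    have h3 := pb_or P (E c) fun v => ∃ i ∈ T, E i v
    rw [Finset.card_insert_of_notMem hc]
    push_cast
    refine (pb_mono fun v _ k => ?_).trans (h3.trans (by linarith))
    simpa using k

/-- The atom of a label. -/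
def atm (π : Ω → Λ) (ω : Ω) : Set Ω := {v | π v = π ω}

theorem atm_eq (π : Ω → Λ) (v ω : Ω) : atm π v = atm π ω ↔ π v = π ω :=
  ⟨fun h => (Set.ext_iff.1 h v).1 rfl, fun h => by simp only [atm, h]⟩

theorem cv_atm (P : FP Ω) (π : Ω → Λ) (ω : Ω) : cv P (atm π) (atm π ω) = cv P π (π ω) :=
  cE_congr fun v _ => atm_eq π v ω

/-- One value of a label with few values, and trimming. -/
theorem pick {X ι : Type} (G : Ω → Prop) (χ : Ω → X) (T : Finset X)
    (hT : ∀ ω ∈ P.S, G ω → χ ω ∈ T) (I : Finset ι) (π : ι → Ω → Λ) {δ : ℝ} (h0 : 0 < δ)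
    (h : T.card * ((I.card + 1) * δ) < pb P G) :
    ∃ w ∈ P.S, ∃ G' : Ω → Prop, G' w ∧ (∀ ω, G' ω → G ω ∧ χ ω = χ w) ∧
      ∀ i ∈ I, ∀ ω ∈ P.S, G' ω → δ ≤ pb (cv P (π i) (π i ω)) G' := by
  obtain ⟨c, hc⟩ : ∃ c, (I.card + 1) * δ < pb P fun v => G v ∧ χ v = c := by
    by_contra k
    push Not at k
    exact h.not_ge ((pb_mono fun v a b => ⟨b, hT v a b⟩).trans
      (AN.S20.pb_mem P χ G T fun c _ => k c))
  obtain ⟨G', a, b, e⟩ := AN.LC.lcTrim Ω ι Λ P I π (fun _ _ => δ) (fun v => G v ∧ χ v = c) δ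
    fun i _ => ⟨fun _ _ => h0.le, fun _ _ _ _ _ => rfl, (P.E_mono fun ω _ => by
      by_cases k : ∃ v ∈ P.S, (G v ∧ χ v = c) ∧ π i v = π i ω
      · rw [AN.G39.ind_pos k, one_mul]
      · rw [AN.G39.ind_neg k, zero_mul]; exact h0.le).trans_eq (P.E_const δ)⟩
  obtain ⟨w, w1, w2⟩ := ex_of_pb (P := P) (E := G') (by linarith)
  exact ⟨w, w1, G', w2, fun ω k => ⟨(a ω k).1, (a ω k).2.trans (a w w2).2.symm⟩, e⟩

/-- One profile. -/
theorem prof {J ι : Type} [Fintype J] (G : Ω → Prop) (Z : J → ℕ → Ω → ℝ) (m N : ℕ) {s : ℝ}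
    (hs : 0 < s) (hZ : ∀ ω ∈ P.S, G ω → ∀ j, ∀ k ≤ m, |Z j k ω| ≤ N * s)
    (I : Finset ι) (π : ι → Ω → Λ) {δ : ℝ} (h0 : 0 < δ)
    (h : (2 * N + 1 : ℝ) ^ (Fintype.card J * (m + 1)) * ((I.card + 1) * δ) < pb P G) :
    ∃ w ∈ P.S, ∃ G' : Ω → Prop, G' w ∧
      (∀ ω, G' ω → G ω ∧ ∀ j, ∀ k ≤ m, |Z j k ω - Z j k w| ≤ s) ∧
      ∀ i ∈ I, ∀ ω ∈ P.S, G' ω → δ ≤ pb (cv P (π i) (π i ω)) G' := by
  classical
  obtain ⟨w, w1, G', a, b, c⟩ := pick G (fun ω (x : J × Fin (m + 1)) => ⌊Z x.1 x.2 ω / s⌋)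
    (Fintype.piFinset fun _ => Finset.Icc (-(N : ℤ)) N) (fun ω hω g => Fintype.mem_piFinset.2
      fun x => by
        obtain ⟨p, q⟩ := abs_le.1 (hZ ω hω g x.1 x.2 (Nat.lt_succ_iff.1 x.2.2))
        rw [Finset.mem_Icc, Int.le_floor, Int.floor_le_iff, le_div_iff₀ hs, div_lt_iff₀ hs]
        push_cast
        constructor <;> linarith) I π h0 (by
      refine lt_of_eq_of_lt ?_ h
      have e : ((N : ℤ) + 1 - -(N : ℤ)).toNat = 2 * N + 1 := by omega
      rw [Fintype.card_piFinset, Finset.prod_const, Int.card_Icc, e, Finset.card_univ,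
        Fintype.card_prod, Fintype.card_fin]
      push_cast
      rfl)
  refine ⟨w, w1, G', a, fun ω g => ⟨(b ω g).1, fun j k hk => ?_⟩, c⟩
  have e := Int.abs_sub_lt_one_of_floor_eq_floor
    (congrFun (b ω g).2 (j, ⟨k, Nat.lt_succ_iff.2 hk⟩))
  rw [← sub_div, abs_div, abs_of_pos hs, div_lt_one hs] at e
  exact e.le

theorem fn_chain {C : ℕ → Ω → Λ} {m : ℕ} (h : ∀ k < m, Fn P (C k) (C (k + 1))) {k k' : ℕ}
    (e : k ≤ k') (e' : k' ≤ m) : Fn P (C k) (C k') := by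
  induction k', e using Nat.le_induction with
  | base => exact Fn.rfl _
  | succ j _ ih => exact (ih (Nat.le_of_succ_le e')).trans (h j e')

/-- The information gained on `l` up to the step `k`. -/
noncomputable def gain (P : FP Ω) (l : Ω → α) (C : ℕ → Ω → Λ) (k : ℕ) (ω : Ω) : ℝ :=
  Real.log (dn P l (C k) ω) - Real.log (dn P l (C 0) ω)

variable {l : Ω → α} {C : ℕ → Ω → Λ}

theorem exp_gain {ω : Ω} (h : ω ∈ P.S) (k k' : ℕ) :
    Real.exp (gain P l C k ω - gain P l C k' ω) = dn P l (C k) ω / dn P l (C k') ω := by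
  rw [gain, gain, sub_sub_sub_cancel_right, Real.exp_sub, Real.exp_log (dn_pos h _ _),
    Real.exp_log (dn_pos h _ _)]

theorem gain_zero (ω : Ω) : gain P l C 0 ω = 0 := sub_self _

theorem pb_drop {k k' : ℕ} (h : Fn P (C k) (C k')) (t : ℝ) :
    pb P (fun ω => ¬gain P l C k ω ≤ gain P l C k' ω + t) ≤ Real.exp (-t) := by
  have a := AN.G39.markov P (u := fun ω => dn P l (C k) ω / dn P l (C k') ω)
    (fun ω hω => (div_pos (dn_pos hω _ _) (dn_pos hω _ _)).le) (Real.exp t)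
  have b := a.trans (AN.N3.E_ratio l h)
  rw [Real.exp_neg, ← one_div, le_div_iff₀' (Real.exp_pos t)]
  refine le_trans (mul_le_mul_of_nonneg_left (pb_mono fun ω hω c => ?_) (Real.exp_pos t).le) b
  rw [← exp_gain hω, Real.exp_le_exp]
  linarith [not_le.1 c]

theorem pb_drops {m : ℕ} (h : ∀ k < m, Fn P (C k) (C (k + 1))) (t : ℝ) :
    pb P (fun ω => ¬∀ k k', k ≤ k' → k' ≤ m → gain P l C k ω ≤ gain P l C k' ω + t) ≤
      (m + 1) ^ 2 * Real.exp (-t) := by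
  have a := pb_any P (Finset.range (m + 1) ×ˢ Finset.range (m + 1))
    (fun x ω => x.1 ≤ x.2 ∧ ¬gain P l C x.1 ω ≤ gain P l C x.2 ω + t) (D := Real.exp (-t))
    fun x hx => by
      by_cases c : x.1 ≤ x.2
      · exact (pb_mono fun _ _ k => k.2).trans (pb_drop (fn_chain h c
          (Nat.lt_succ_iff.1 (Finset.mem_range.1 (Finset.mem_product.1 hx).2))) t)
      · exact (pb_zero fun _ _ k => c k.1).trans_le (Real.exp_pos _).le
  rw [Finset.card_product, Finset.card_range] at a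
  refine (pb_mono fun ω _ c => ?_).trans (a.trans_eq (by push_cast; ring))
  push Not at c
  obtain ⟨k, k', c1, c2, c3⟩ := c
  exact ⟨(k, k'), Finset.mem_product.2 ⟨Finset.mem_range.2 (by omega),
    Finset.mem_range.2 (by omega)⟩, c1, not_le.2 c3⟩

theorem pb_mark {m : ℕ} (h : Fn P (C 0) (C m)) {D : Ω → ℝ} (hD : ∀ ω ∈ P.S, 0 ≤ D ω) (t : ℝ) :
    t * pb P (fun ω => ¬gain P l C m ω + D ω ≤ t) ≤ mi P l (C m) (C 0) + P.E D + 1 := by
  have e : mi P l (C m) (C 0) = P.E (gain P l C m) := by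
    rw [mi, AN.S20.ch_dn, AN.S20.ch_dn, ← FP.E_sub]
    refine P.E_congr fun ω hω => ?_
    rw [AN.S20.dn_congr (Y' := l) (A' := C m) hω (A := fun v => (C m v, C 0 v))
      ((Fn.rfl _).pair h) (Fn.fst _ _) (Fn.fst _ _) (Fn.fst _ _), gain]
    ring
  have b := AN.N3.E_ratio l h
  rw [e, ← FP.E_add, AN.G39.pb_ind, ← FP.E_mul]
  refine le_trans (P.E_mono (G := fun ω => (gain P l C m ω + D ω) +
    dn P l (C 0) ω / dn P l (C m) ω) fun ω hω => ?_) (by rw [FP.E_add]; linarith)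
  have c := Real.add_one_le_exp (gain P l C 0 ω - gain P l C m ω)
  have p := Real.exp_pos (gain P l C 0 ω - gain P l C m ω)
  rw [exp_gain hω] at c p
  rw [gain_zero] at c
  by_cases k : gain P l C m ω + D ω ≤ t
  · rw [AN.G39.ind_neg (not_not.2 k)]; linarith [hD ω hω]
  · rw [AN.G39.ind_pos k]; linarith [not_le.1 k]

/-- The deficiency of the pieces is the gain of information. -/
theorem dn_def {O : Ω → Λ'} {k k' : ℕ} {ω : Ω} (hω : ω ∈ P.S) (h : Fn P (C k) (C k'))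
    (h1 : Fn P (C k) O) (h2 : Fn P l O) (h3 : Fn P O fun v => (l v, C k v)) :
    dn P (C k') O ω = Real.exp (gain P l C k' ω - gain P l C k ω) * dn P (C k') (C k) ω := by
  have e1 : pb P (fun v => O v = O ω ∧ C k' v = C k' ω) =
      pb P fun v => C k' v = C k' ω ∧ l v = l ω := pb_congr fun v hv =>
    ⟨fun a => ⟨a.2, h2 v hv ω hω a.1⟩, fun a => ⟨h3 v hv ω hω (Prod.ext a.2 (h v hv ω hω a.1)), a.1⟩⟩
  have e2 : pb P (fun v => O v = O ω) = pb P fun v => C k v = C k ω ∧ l v = l ω :=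
    pb_congr fun v hv => ⟨fun a => ⟨h1 v hv ω hω a, h2 v hv ω hω a⟩,
      fun a => h3 v hv ω hω (Prod.ext a.2 a.1)⟩
  have e3 : pb P (fun v => C k v = C k ω ∧ C k' v = C k' ω) = pb P fun v => C k' v = C k' ω :=
    pb_congr fun v hv => ⟨fun a => a.2, fun a => ⟨h v hv ω hω a, a⟩⟩
  have p1 := pb_val hω (C k)
  have p2 := pb_val hω (C k')
  have p3 := pb_val hω O
  rw [exp_gain hω, dn_eq hω, dn_eq hω, dn_eq hω, dn_eq hω, e1, e3, ← e2]
  field_simp

/-- The deficiency on an event. -/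
theorem dn_def_cE {O : Ω → Λ'} {k k' : ℕ} {ω : Ω} (hω : ω ∈ P.S) (h : Fn P (C k) (C k'))
    (h1 : Fn P (C k) O) (h2 : Fn P l O) (h3 : Fn P O fun v => (l v, C k v)) {G : Ω → Prop}
    (g : G ω) {d : ℝ} (a : Real.exp (-d) ≤ pb (cv P O (O ω)) G)
    (b : Real.exp (-d) ≤ pb (cv P (C k') (C k' ω)) G) :
    dn (cE P G) (C k') O ω ≤
      Real.exp (gain P l C k' ω - gain P l C k ω + 2 * d) * dn (cE P G) (C k') (C k) ω := by
  have c1 := AN.S20.dn_cE hω g (C k') O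
  have c2 := AN.Cx.dn_cE_ge (Y := C k') (B := C k) hω g
  have e : cv P (fun v => (C k' v, C k v)) (C k' ω, C k ω) = cv P (C k') (C k' ω) :=
    cE_congr fun v hv => ⟨fun x => congrArg Prod.fst x, fun x => Prod.ext x (h v hv ω hω x)⟩
  rw [e] at c2
  rw [dn_def hω h h1 h2 h3] at c1
  have p1 : 0 ≤ dn (cE P G) (C k') O ω := pb_nonneg _ _
  have p2 : 0 ≤ dn P (C k') (C k) ω := pb_nonneg _ _
  have c3 := (mul_le_mul_of_nonneg_right a p1).trans c1
  have c4 := (mul_le_mul_of_nonneg_right b p2).trans c2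
  rw [Real.exp_neg, inv_mul_le_iff₀ (Real.exp_pos d)] at c3 c4
  refine c3.trans ?_
  rw [two_mul, Real.exp_add, Real.exp_add]
  have := mul_le_mul_of_nonneg_left c4 (mul_pos (Real.exp_pos d)
    (Real.exp_pos (gain P l C k' ω - gain P l C k ω))).le
  linarith

/-- Freezing a coarser label does not change the weight in an atom. -/
theorem pb_frz {π : Ω → Λ} {K : Ω → Λ'} (h : Fn P K π) {G : Ω → Prop} {ω w : Ω} (hω : ω ∈ P.S)
    (e : K ω = K w) :
    pb (cv P π (π ω)) G ≤ pb (cv P π (π ω)) fun v => G v ∧ K v = K w :=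
  pb_mono fun v hv g => ⟨g, (h v (cE_sub hv) ω hω ((AN.S20.mem_cv hω v).1 hv).2).trans e⟩

end Pool.Agent.MP_5168f5_an.QA.Cp.SelA
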