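import Mathlib

/-! An unpaid window with a definite gain and a bounded cost. -/

namespace Pool.Agent.MP_5168f5_an.QA

/-- Windows `j < J`: gain at most `g + s` on `W`, at most `C` everywhere. -/
theorem pick0 {V D : ℕ → ℝ} {W : Finset ℕ} {J : ℕ} {g s C η A : ℝ} (hg : 0 ≤ g) (hs : 0 ≤ s)
    (hη : 0 ≤ η) (hC : 0 ≤ C) (hA : 0 < A) (hD : ∀ j < J, D j ≤ D (j + 1))
    (h1 : ∀ j < J, j ∈ W → V (j + 1) - V j ≤ g + s) (h2 : ∀ j < J, V (j + 1) - V j ≤ C)
    (h3 : g * W.card + (s + η) * J + C / A * (D J - D 0) < V J - V 0) :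
    ∃ j < J, j ∉ W ∧ η ≤ V (j + 1) - V j ∧ D (j + 1) - D j ≤ A := by
  by_contra k
  push Not at k
  refine absurd h3 (not_lt.2 ?_)
  have e : ∀ j ∈ Finset.range J, V (j + 1) - V j ≤
      g * (if j ∈ W then 1 else 0) + (s + η) + C / A * (D (j + 1) - D j) := fun j hj => by
    have a := Finset.mem_range.1 hj
    have d := mul_nonneg (div_nonneg hC hA.le) (sub_nonneg.2 (hD j a))
    split_ifs with c
    · linarith [h1 j a c]
    · by_cases u : η ≤ V (j + 1) - V j
      · have := mul_le_mul_of_nonneg_left (k j a c u).le (div_nonneg hC hA.le)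
        rw [div_mul_cancel₀ _ hA.ne'] at this
        linarith [h2 j a]
      · linarith [not_le.1 u]
  have := Finset.sum_le_sum e
  rw [Finset.sum_range_sub, Finset.sum_add_distrib, Finset.sum_add_distrib, ← Finset.mul_sum,
    ← Finset.mul_sum, Finset.sum_range_sub, Finset.sum_boole, Finset.sum_const, Finset.card_range,
    nsmul_eq_mul, mul_comm (J : ℝ)] at this
  refine this.trans (add_le_add (add_le_add (mul_le_mul_of_nonneg_left ?_ hg) le_rfl) le_rfl)
  exact_mod_cast Finset.card_le_card fun j hj => (Finset.mem_filter.1 hj).2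

/-- Windows of length `L` in `[0, M]`. -/
theorem pick {V D : ℕ → ℝ} {W : Finset ℕ} {M L : ℕ} {g s C η A A' : ℝ} (hL : 0 < L) (hg : 0 ≤ g)
    (hs : 0 ≤ s) (hη : 0 ≤ η) (hC : 0 ≤ C) (hA' : 0 < A') (hD : Monotone D)
    (hA : D M - D 0 ≤ A * M)
    (h1 : ∀ j ∈ W, (j + 1) * L ≤ M → V ((j + 1) * L) - V (j * L) ≤ (g + s) * L)
    (h2 : ∀ j, (j + 1) * L ≤ M → V ((j + 1) * L) - V (j * L) ≤ C * L)
    (h2' : V M - V (M / L * L) ≤ C * L) (h3 : g * (W.card * L) + η * M ≤ V M - V 0)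
    (h4 : C * L + (s + η / 4 + C * A / A') * M < η * M) :
    ∃ j, j ∉ W ∧ (j + 1) * L ≤ M ∧ η / 4 * L ≤ V ((j + 1) * L) - V (j * L) ∧
      D ((j + 1) * L) - D (j * L) ≤ A' * L := by
  have l0 : (0 : ℝ) < L := by exact_mod_cast hL
  have e : ∀ j < M / L, (j + 1) * L ≤ M := fun j a => (Nat.le_div_iff_mul_le hL).1 a
  have m := Nat.div_mul_le_self M L
  obtain ⟨j, a, b⟩ := pick0 (V := fun j => V (j * L)) (D := fun j => D (j * L)) (W := W)
    (J := M / L) (g := g * L) (s := s * L) (C := C * L) (η := η / 4 * L) (A := A' * L)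
    (by positivity) (by positivity) (by positivity) (by positivity) (by positivity)
    (fun j _ => hD (Nat.mul_le_mul_right _ j.le_succ))
    (fun j a c => (h1 j c (e j a)).trans_eq (add_mul _ _ _)) (fun j a => h2 j (e j a)) (by
      have a1 : ((M / L : ℕ) : ℝ) * L ≤ M := by exact_mod_cast m
      have a2 := mul_le_mul_of_nonneg_left a1 (show 0 ≤ s + η / 4 by positivity)
      have a3 := mul_le_mul_of_nonneg_left ((sub_le_sub_right (hD m) _).trans hA)
        (div_nonneg hC hA'.le)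
      rw [mul_div_mul_right _ _ l0.ne', zero_mul]
      rw [mul_div_right_comm] at h4
      linarith)
  exact ⟨j, b.1, e j a, b.2⟩

end Pool.Agent.MP_5168f5_an.QA
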