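import Pool.Agent.MP_5168f5_an.QA.Blow
import Pool.Agent.MP_5168f5_an.QA.SelPick

/-! An unpaid level at which the mean profiles are linear and the gain has a definite slope. -/

namespace Pool.Agent.MP_5168f5_an.QA

open H19 H17S H17F Filter

variable {u c₀ s L : ℕ → ℕ} {φ ψ : ℕ → ℕ → ℝ} {σ τ : ℝ}

theorem LinAt.shift (h : LinAt u c₀ (fun n c => φ n (s n + c)) σ) (m : Mid L u c₀) :
    LinAt u (fun n => s n + c₀ n) φ σ := fun R ε hε => by
  filter_upwards [h R ε hε, m R] with n a b c hc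
  push_cast at hc
  have e : s n ≤ c := by
    have : (s n : ℝ) ≤ c := by linarith [(abs_le.1 hc).1, b.1]
    exact_mod_cast this
  obtain ⟨d, rfl⟩ := Nat.exists_eq_add_of_le e
  push_cast at hc ⊢
  rw [add_sub_add_left_eq_sub] at hc ⊢
  exact a d hc

theorem LinAt.comb (h : LinAt u c₀ φ σ) (h' : LinAt u c₀ ψ τ) (a b : ℝ) {χ : ℕ → ℕ → ℝ}
    (e : ∀ n c, χ n c - χ n (c₀ n) = a * (φ n c - φ n (c₀ n)) + b * (ψ n c - ψ n (c₀ n))) :
    LinAt u c₀ χ (a * σ + b * τ) := fun R ε hε => by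
  have p : 0 < ε / (|a| + |b| + 1) := by positivity
  filter_upwards [h R _ p, h' R _ p] with n k k' c hc
  have e1 : χ n c - χ n (c₀ n) - (a * σ + b * τ) * (c - c₀ n) =
      a * (φ n c - φ n (c₀ n) - σ * (c - c₀ n)) + b * (ψ n c - ψ n (c₀ n) - τ * (c - c₀ n)) := by
    rw [e]; ring
  have q : 0 ≤ ε / (|a| + |b| + 1) * u n := by positivity
  have e2 : (|a| + |b| + 1) * (ε / (|a| + |b| + 1) * u n) = ε * u n := by field_simp
  rw [e1]
  refine (abs_add_le _ _).trans ?_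
  rw [abs_mul, abs_mul]
  linarith [mul_le_mul_of_nonneg_left (k c hc) (abs_nonneg a),
    mul_le_mul_of_nonneg_left (k' c hc) (abs_nonneg b)]

theorem linAt_id (u c₀ : ℕ → ℕ) : LinAt u c₀ (fun _ c => c) 1 := fun _ ε hε =>
  Eventually.of_forall fun n c _ => by
    rw [one_mul, sub_self, abs_zero]; positivity

/-- Increments between two levels. -/
theorem LinAt.two (h : LinAt u c₀ φ σ) (R : ℝ) {ε : ℝ} (hε : 0 < ε) : ∀ᶠ n in UF, ∀ c c' : ℕ,
    |(c : ℝ) - c₀ n| ≤ R * u n → |(c' : ℝ) - c₀ n| ≤ R * u n →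
      |φ n c' - φ n c - σ * (c' - c)| ≤ ε * u n :=
  (h R _ (half_pos hε)).mono fun n a c c' k k' => by
    have a1 := abs_le.1 (a c k)
    have a2 := abs_le.1 (a c' k')
    rw [abs_le]; constructor <;> linarith

/-- Two choices of a window. -/
theorem pick2 {V D : ℕ → ℝ} {W : Finset ℕ} {M L L₂ : ℕ} {g C η A e : ℝ} (hL : 0 < L₂)
    (hg : 0 ≤ g) (hη : 0 < η) (hC : 0 ≤ C) (hA : 0 ≤ A) (hD : Monotone D)
    (hM : D M - D 0 ≤ A * M) (he : e ≤ L₂) (l1 : (C + 1) * L₂ < η / 32 * L)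
    (l2 : (C + 1) * L < η / 4 * M) (l3 : L₂ ≤ L)
    (h1 : ∀ j ∈ W, (j + 1) * L ≤ M → V ((j + 1) * L) - V (j * L) ≤ (g + η / 4) * L)
    (h2 : ∀ c c', c ≤ c' → c' ≤ M → V c' - V c ≤ C * (c' - c) + e)
    (h3 : g * (W.card * L) + η * M ≤ V M - V 0) :
    ∃ s, s + L₂ ≤ M ∧ (∀ c, s ≤ c → c < s + L₂ → c / L ∉ W) ∧ η / 16 * L₂ ≤ V (s + L₂) - V s ∧
      D (s + L₂) - D s ≤ 128 * (C + 1) ^ 2 * (A + 1) / η ^ 2 * L₂ := by
  have k : ∀ (l : ℕ) c c', L₂ ≤ l → c ≤ c' → c' ≤ c + l → c' ≤ M → V c' - V c ≤ (C + 1) * l :=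
    fun l c c' a b d f => by
      have a1 : (L₂ : ℝ) ≤ l := by exact_mod_cast a
      have d1 : (c' : ℝ) - c ≤ l := by
        have : (c' : ℝ) ≤ c + l := by exact_mod_cast d
        linarith
      linarith [h2 c c' b f, mul_le_mul_of_nonneg_left d1 hC]
  have tl : ∀ m l : ℕ, 0 < l → m / l * l ≤ m ∧ m ≤ m / l * l + l := fun m l a =>
    ⟨Nat.div_mul_le_self m l, (Nat.lt_div_mul_add a).le⟩
  have L0 : 0 < L := hL.trans_le l3
  have m0 : (0 : ℝ) ≤ M := Nat.cast_nonneg _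
  have m1 : (0 : ℝ) ≤ L := Nat.cast_nonneg _
  obtain ⟨j, j1, j2, j3, j4⟩ := pick (V := V) (D := D) (W := W) (M := M) (L := L) (g := g)
    (s := η / 4) (C := C + 1) (η := η) (A := A) (A' := 8 * (C + 1) * (A + 1) / η) L0 hg
    (by positivity) hη.le (by positivity) (by positivity) hD hM h1
    (fun j a => k L _ _ l3 (by nlinarith) (by nlinarith) a)
    (k L _ _ l3 (tl M L L0).1 (tl M L L0).2 le_rfl) h3 (by
      have : (C + 1) * A / (8 * (C + 1) * (A + 1) / η) ≤ η / 8 := by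
        rw [div_le_iff₀ (by positivity)]
        field_simp
        nlinarith
      nlinarith [mul_le_mul_of_nonneg_right this m0])
  have j5 : (j + 1) * L = j * L + L := by ring
  rw [j5] at j2 j3 j4
  obtain ⟨i, -, i2, i3, i4⟩ := pick (V := fun c => V (j * L + c)) (D := fun c => D (j * L + c))
    (W := ∅) (M := L) (L := L₂) (g := 0) (s := 0) (C := C + 1) (η := η / 4)
    (A := 8 * (C + 1) * (A + 1) / η) (A' := 128 * (C + 1) ^ 2 * (A + 1) / η ^ 2) hL le_rfl le_rfl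
    (by positivity) (by positivity) (by positivity)
    (fun a b e => hD (Nat.add_le_add_left e _)) (by simpa using j4) (by simp)
    (fun i a => k L₂ _ _ le_rfl (by nlinarith) (by nlinarith) (by omega))
    (k L₂ _ _ le_rfl (by linarith [(tl L L₂ hL).1]) (by linarith [(tl L L₂ hL).2]) j2)
    (by simpa using j3) (by
      have : (C + 1) * (8 * (C + 1) * (A + 1) / η) / (128 * (C + 1) ^ 2 * (A + 1) / η ^ 2) =
          η / 16 := by field_simp; ring
      rw [this]; nlinarith)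
  have i5 : (i + 1) * L₂ = i * L₂ + L₂ := by ring
  rw [i5] at i2 i3 i4
  refine ⟨j * L + i * L₂, by omega, fun c a b => ?_, ?_, ?_⟩
  · rwa [show c / L = j from Nat.div_eq_of_lt_le (by omega) (by rw [j5]; omega)]
  · rw [add_assoc]; linarith
  · rw [add_assoc]; exact i4

/-- The level is inside an unpaid window. -/
def Unp (M L : ℕ → ℕ) (W : ℕ → Finset ℕ) (u c₁ : ℕ → ℕ) : Prop := ∀ R : ℝ, ∀ᶠ n in UF,
  R * u n ≤ c₁ n ∧ ∀ c : ℕ, |(c : ℝ) - c₁ n| ≤ R * u n → c ≤ M n ∧ c / L n ∉ W n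

theorem win {M L L₂ : ℕ → ℕ} {W : ℕ → Finset ℕ} {V D : ℕ → ℕ → ℝ} {e : ℕ → ℝ} {g C η A : ℝ}
    (hL : Big L₂) (l1 : Sm L fun n => L₂ n) (l2 : Sm M fun n => L n) (hg : 0 ≤ g) (hη : 0 < η)
    (hC : 0 ≤ C) (hA : 0 ≤ A) (he : Sm L₂ e) (hD : ∀ n, Monotone (D n))
    (hM : ∀ᶠ n in UF, D n (M n) - D n 0 ≤ A * M n)
    (h1 : ∀ᶠ n in UF, ∀ j ∈ W n, (j + 1) * L n ≤ M n →
      V n ((j + 1) * L n) - V n (j * L n) ≤ (g + η / 4) * L n)
    (h2 : ∀ᶠ n in UF, ∀ c c', c ≤ c' → c' ≤ M n → V n c' - V n c ≤ C * (c' - c) + e n)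
    (h3 : ∀ᶠ n in UF, g * ((W n).card * L n) + η * M n ≤ V n (M n) - V n 0) :
    ∃ (β τ : ℝ) (c₁ : ℕ → ℕ) (M₀ : ℕ → ℝ), η / 32 ≤ β ∧ 0 ≤ τ ∧ Sm L₂ M₀ ∧
      ∀ u : ℕ → ℕ, Big u → (Sm L₂ fun n => u n) → Sm u M₀ →
        Unp M L W u c₁ ∧ LinAt u c₁ V β ∧ LinAt u c₁ D τ := by
  have k : ∀ᶠ n in UF, ∃ s, s + L₂ n ≤ M n ∧ (∀ c, s ≤ c → c < s + L₂ n → c / L n ∉ W n) ∧
      η / 16 * L₂ n ≤ V n (s + L₂ n) - V n s ∧
      D n (s + L₂ n) - D n s ≤ 128 * (C + 1) ^ 2 * (A + 1) / η ^ 2 * L₂ n := by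
    filter_upwards [hM, h1, h2, h3, hL.ev 1, he 1 one_pos, l1 1 one_pos, l2 1 one_pos,
      l1.smul (c := C + 1) (by positivity) (η / 64) (by positivity),
      l2.smul (c := C + 1) (by positivity) (η / 8) (by positivity)] with n a b c d f f1 f2 f3 f4 f5
    exact pick2 (by exact_mod_cast one_pos.trans_le f) hg hη hC hA (hD n) a (by linarith)
      (by nlinarith) (by nlinarith) (by exact_mod_cast (by linarith : (L₂ n : ℝ) ≤ L n)) b c d
  obtain ⟨s, hs⟩ := k.choice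
  obtain ⟨σ, c₀, M₀, σ0, σ1, m1, m2⟩ := blow (L := L₂) (ι := Bool)
    (φ := fun b n c => cond b (C * c - V n (s n + c)) (D n (s n + c)))
    (A := fun b => cond b (C - η / 16) (128 * (C + 1) ^ 2 * (A + 1) / η ^ 2)) hL (fun b => by
      cases b
      · exact ⟨fun ε hε => Eventually.of_forall fun n c c' a _ =>
          (hD n (Nat.add_le_add_left a _)).trans (le_add_of_nonneg_right (by positivity)),
          Le.of_ev (hs.mono fun n a => a.2.2.2)⟩
      · refine ⟨fun ε hε => ?_, Le.of_ev (hs.mono fun n a => ?_)⟩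
        · filter_upwards [he ε hε, h2, hs] with n a b d c c' f f'
          have := b (s n + c) (s n + c') (by omega) (by omega)
          push_cast at this
          simp only [cond_true]
          linarith
        · simp only [cond_true, add_zero, Nat.cast_zero]
          linarith [a.2.2.1]) true (η := η / 32) (by positivity)
  refine ⟨C * 1 + -1 * σ true, σ false, fun n => s n + c₀ n, M₀, by
    simp only [cond_true] at σ1; linarith, σ0 _, m1, fun u u0 u1 u2 => ?_⟩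
  obtain ⟨d1, d2⟩ := m2 u u1 u2
  refine ⟨fun R => ?_, LinAt.shift (((linAt_id u c₀).comb (d2 true) C (-1) fun n c => ?_)) d1,
    LinAt.shift (d2 false) d1⟩
  · filter_upwards [d1 (R + 1), hs, u0.ev 1] with n a b f
    have p : (0 : ℝ) ≤ s n := Nat.cast_nonneg _
    push_cast
    refine ⟨by linarith [a.1], fun c hc => ?_⟩
    have c1 : (s n : ℝ) ≤ c := by linarith [(abs_le.1 hc).1, a.1]
    have c2 : (c : ℝ) < s n + L₂ n := by linarith [(abs_le.1 hc).2, a.2]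
    have c3 : c < s n + L₂ n := by exact_mod_cast c2
    exact ⟨by omega, b.2.1 c (by exact_mod_cast c1) c3⟩
  · simp only [cond_true]; ring

end Pool.Agent.MP_5168f5_an.QA
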