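import Pool.Agent.MP_5168f5_an.QA.CpSelA
import Pool.Agent.MP_5168f5_an.QA.SelW

/-! Selection along a chain of cells: the records. -/

namespace Pool.Agent.MP_5168f5_an.QA.Cp

open H19 H17S H17F Filter SelA
open AN.S20 (dn)

/-- A chain of cells `C`, pieces `O`, further labels `Z` and observables `Y`, in `m` steps of
depth `s`. -/
structure Sc (Ω α Λ Λ' Λ'' : ℕ → Type) (J B : Type) where
  P : ∀ n, FP (Ω n)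
  m : ℕ → ℕ
  s : ℕ → ℕ
  l : ∀ n, Ω n → α n
  O : ∀ n, ℕ → Ω n → Λ n
  C : ∀ n, ℕ → Ω n → Λ' n
  Z : B → ∀ n, ℕ → Ω n → Λ'' n
  Y : J → ∀ n, ℕ → Ω n → ℝ
  g : J
  G₀ : ∀ n, Ω n → Prop
  e : ℕ → ℝ

namespace Sc

variable {Ω α Λ Λ' Λ'' : ℕ → Type} {J B : Type} (X : Sc Ω α Λ Λ' Λ'' J B)

/-- The input of the selection. -/
structure In (A a : ℝ) : Prop where
  big : Big X.m
  sm : Sm X.s fun n => Real.log (X.m n + 1)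
  co : ∀ᶠ n in UF, ∀ k ≤ X.m n, Fn (X.P n) (X.C n k) (X.O n k)
  cc : ∀ᶠ n in UF, ∀ k < X.m n, Fn (X.P n) (X.C n k) (X.C n (k + 1))
  lo : ∀ᶠ n in UF, ∀ k ≤ X.m n, Fn (X.P n) (X.l n) (X.O n k)
  ol : ∀ᶠ n in UF, ∀ k ≤ X.m n, Fn (X.P n) (X.O n k) fun ω => (X.l n ω, X.C n k ω)
  cz : ∀ b, ∀ᶠ n in UF, ∀ k ≤ X.m n, Fn (X.P n) (X.C n k) (X.Z b n k)
  whp : Whp X.P X.G₀
  er : Sm (fun n => X.m n * X.s n) X.e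
  mono : ∀ j (ε : ℝ), 0 < ε → ∀ᶠ n in UF, ∀ ω ∈ (X.P n).S, X.G₀ n ω → ∀ k k', k ≤ k' →
    k' ≤ X.m n → X.Y j n k ω ≤ X.Y j n k' ω + ε * (X.m n * X.s n)
  bd : ∀ j, ∀ᶠ n in UF, ∀ ω ∈ (X.P n).S, X.G₀ n ω → ∀ k ≤ X.m n,
    |X.Y j n k ω| ≤ A * (X.m n * X.s n)
  nn : ∀ᶠ n in UF, ∀ ω ∈ (X.P n).S, X.Y X.g n 0 ω ≤ X.Y X.g n (X.m n) ω
  a0 : 0 ≤ a
  mrk : Le (fun n => X.m n * X.s n) (fun n => mi (X.P n) (X.l n) (X.C n (X.m n)) (X.C n 0) +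
    (X.P n).E fun ω => X.Y X.g n (X.m n) ω - X.Y X.g n 0 ω) fun n => a * (X.m n * X.s n)

/-- The selected event `G`, good from the step `kb` on; window unit `u` steps around `k₀`. -/
structure Ev (u k₀ : ℕ → ℕ) (σ : J → ℝ) (τ b : ℝ) (y : J → ℕ → ℝ) (kb : ℕ → ℕ)
    (G : ∀ n, Ω n → Prop) : Prop where
  ne : ∀ᶠ n in UF, ∃ ω ∈ (X.P n).S, G n ω
  sub : ∀ᶠ n in UF, ∀ ω, G n ω → X.G₀ n ω
  domO : ∀ ε : ℝ, 0 < ε → ∀ᶠ n in UF, ∀ ω ∈ (X.P n).S, G n ω → ∀ k, kb n ≤ k → k ≤ X.m n →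
    Real.exp (-(ε * (u n * X.s n))) ≤ pb (cv (X.P n) (X.O n k) (X.O n k ω)) (G n)
  domC : ∀ ε : ℝ, 0 < ε → ∀ᶠ n in UF, ∀ ω ∈ (X.P n).S, G n ω → ∀ k, kb n ≤ k → k ≤ X.m n →
    Real.exp (-(ε * (u n * X.s n))) ≤ pb (cv (X.P n) (X.C n k) (X.C n k ω)) (G n)
  domZ : ∀ i (ε : ℝ), 0 < ε → ∀ᶠ n in UF, ∀ ω ∈ (X.P n).S, G n ω → ∀ k, kb n ≤ k → k ≤ X.m n →
    Real.exp (-(ε * (u n * X.s n))) ≤ pb (cv (X.P n) (X.Z i n k) (X.Z i n k ω)) (G n)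
  lin : ∀ j (R ε : ℝ), 0 < ε → ∀ᶠ n in UF, ∀ ω ∈ (X.P n).S, G n ω → ∀ k : ℕ,
    |(k : ℝ) - k₀ n| ≤ R * u n →
      |X.Y j n k ω - y j n - σ j * ((k - k₀ n) * X.s n)| ≤ ε * (u n * X.s n)
  gn : ∀ R ε : ℝ, 0 < ε → ∀ᶠ n in UF, ∀ ω ∈ (X.P n).S, G n ω → ∀ k k' : ℕ,
    |(k : ℝ) - k₀ n| ≤ R * u n → |(k' : ℝ) - k₀ n| ≤ R * u n →
      |gain (X.P n) (X.l n) (X.C n) k' ω - gain (X.P n) (X.l n) (X.C n) k ω -
        τ * ((k' - k) * X.s n)| ≤ ε * (u n * X.s n)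
  tot : ∀ᶠ n in UF, ∀ ω ∈ (X.P n).S, G n ω →
    X.Y X.g n (X.m n) ω - X.Y X.g n 0 ω ≤ b * (X.m n * X.s n)

/-- The window. -/
structure Win (u k₀ : ℕ → ℕ) (σ : J → ℝ) (τ b : ℝ) : Prop where
  big : Big u
  er : Sm (fun n => u n * X.s n) X.e
  mid : Mid X.m u k₀
  s0 : ∀ j, 0 ≤ σ j
  t0 : 0 ≤ τ
  le : τ + σ X.g ≤ b

variable {X} {A a τ b : ℝ} {u k₀ kb : ℕ → ℕ} {σ : J → ℝ} {y : J → ℕ → ℝ} {G : ∀ n, Ω n → Prop}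

/-- The deficiency of the pieces under the conditioned law. -/
theorem Ev.df (h : X.Ev u k₀ σ τ b y kb G) (hX : X.In A a) (hw : Mid X.m u k₀) (R ε : ℝ)
    (hε : 0 < ε) : ∀ᶠ n in UF, ∀ ω ∈ (X.P n).S, G n ω → ∀ k k' : ℕ, kb n ≤ k → k ≤ k' →
      |(k : ℝ) - k₀ n| ≤ R * u n → |(k' : ℝ) - k₀ n| ≤ R * u n →
      dn (cE (X.P n) (G n)) (X.C n k') (X.O n k) ω ≤
        Real.exp (τ * ((k' - k) * X.s n) + ε * (u n * X.s n)) *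
          dn (cE (X.P n) (G n)) (X.C n k') (X.C n k) ω := by
  have p : 0 < ε / 3 := by positivity
  filter_upwards [h.domO _ p, h.domC _ p, h.gn R _ p, hw R, hX.co, hX.cc, hX.lo, hX.ol]
    with n a1 a2 a3 a4 c1 c2 c3 c4 ω hω g k k' e1 e2 e3 e4
  have e5 : k' ≤ X.m n := Nat.cast_le.1 (show (k' : ℝ) ≤ X.m n by linarith [(abs_le.1 e4).2, a4.2])
  have e6 := e2.trans e5
  refine (dn_def_cE hω (fn_chain c2 e2 e5) (c1 k e6) (c3 k e6) (c4 k e6) g (a1 ω hω g k e1 e6)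
    (a2 ω hω g k' (e1.trans e2) e5)).trans (mul_le_mul_of_nonneg_right (Real.exp_le_exp.2 ?_)
      (pb_nonneg _ _))
  linarith [(abs_le.1 (a3 ω hω g k k' e3 e4)).2]

/-- Freezing the cell of a step. -/
theorem Ev.frz (h : X.Ev u k₀ σ τ b y kb G) (hX : X.In A a) {kc : ℕ → ℕ}
    (hk : ∀ᶠ n in UF, kb n ≤ kc n) {w : ∀ n, Ω n} (hw : ∀ᶠ n in UF, w n ∈ (X.P n).S ∧ G n (w n)) :
    X.Ev u k₀ σ τ b y kc fun n ω => G n ω ∧ X.C n (kc n) ω = X.C n (kc n) (w n) := by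
  refine ⟨hw.mono fun n c => ⟨_, c.1, c.2, rfl⟩, h.sub.mono fun n c ω g => c ω g.1,
    fun ε hε => ?_, fun ε hε => ?_, fun i ε hε => ?_,
    fun j R ε hε => (h.lin j R ε hε).mono fun n c ω hω g => c ω hω g.1,
    fun R ε hε => (h.gn R ε hε).mono fun n c ω hω g => c ω hω g.1,
    h.tot.mono fun n c ω hω g => c ω hω g.1⟩
  · filter_upwards [h.domO ε hε, hk, hX.cc, hX.co] with n c1 c2 c3 c4 ω hω g k e1 e2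
    exact (c1 ω hω g.1 k (c2.trans e1) e2).trans
      (pb_frz ((fn_chain c3 e1 e2).trans (c4 k e2)) hω g.2)
  · filter_upwards [h.domC ε hε, hk, hX.cc] with n c1 c2 c3 ω hω g k e1 e2
    exact (c1 ω hω g.1 k (c2.trans e1) e2).trans (pb_frz (fn_chain c3 e1 e2) hω g.2)
  · filter_upwards [h.domZ i ε hε, hk, hX.cc, hX.cz i] with n c1 c2 c3 c4 ω hω g k e1 e2
    exact (c1 ω hω g.1 k (c2.trans e1) e2).trans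
      (pb_frz ((fn_chain c3 e1 e2).trans (c4 k e2)) hω g.2)

theorem ev_pick {T : ℕ → Type} (h0 : ∀ n, Nonempty (T n)) {q : ∀ n, T n → Prop}
    (h : ∀ᶠ n in UF, ∃ t, q n t) : ∃ t : ∀ n, T n, ∀ᶠ n in UF, q n (t n) :=
  ⟨fun n => @Classical.epsilon _ (h0 n) (q n), h.mono fun _ c => Classical.epsilon_spec c⟩

theorem ne_om (P : ∀ n, FP (Ω n)) (n : ℕ) : Nonempty (Ω n) :=
  (ex_of_pb (P := P n) (E := fun _ => True) (by rw [pb_true]; exact one_pos)).elim fun ω _ => ⟨ω⟩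

/-- An event on which the cell of a step is constant. -/
theorem Ev.ex_frz (h : X.Ev u k₀ σ τ b y (fun _ => 0) G) (hX : X.In A a) (kc : ℕ → ℕ) :
    ∃ G' : ∀ n, Ω n → Prop, X.Ev u k₀ σ τ b y kc G' ∧ (∀ n ω, G' n ω → G n ω) ∧
      ∀ n ω v, G' n ω → G' n v → X.C n (kc n) ω = X.C n (kc n) v := by
  obtain ⟨w, hw⟩ := ev_pick (ne_om X.P) h.ne
  exact ⟨_, h.frz hX (.of_forall fun _ => Nat.zero_le _) hw, fun _ _ g => g.1,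
    fun _ _ _ g g' => g.2.trans g'.2.symm⟩

end Sc

/-- The selection. -/
def SSelC : Prop := ∀ (Ω α Λ Λ' Λ'' : ℕ → Type) (J B : Type) [Finite J] [Finite B]
  (X : Sc Ω α Λ Λ' Λ'' J B) (A a η : ℝ), X.In A a → 0 < η →
  ∃ (u k₀ : ℕ → ℕ) (σ : J → ℝ) (τ : ℝ) (y : J → ℕ → ℝ) (G : ∀ n, Ω n → Prop),
    X.Win u k₀ σ τ (a + η) ∧ X.Ev u k₀ σ τ (a + η) y (fun _ => 0) G

end Pool.Agent.MP_5168f5_an.QA.Cp
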