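import Pool.Agent.MP_5168f5_an.QA.CpLin

/-! The Kakeya maximal estimate: admissible caps and the forced step. -/

namespace Pool.Agent.MP_5168f5_an.QA.Cp

open AN AN.GA Matrix Finset

variable {κ α : Type} [Fintype κ] [DecidableEq κ]

/-- The data of a sample: floor, constant, bracket and directions. -/
structure Da (κ α : Type) : Type where
  wt : κ → ℝ
  fl : κ → ℝ
  L : ℝ
  h : κ → κ → κ → ℝ
  A : α → κ → ℝ

namespace Da

variable (d : Da κ α)

/-- The form `φ` has size `t` against the floor, the directions and the brackets. -/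
structure Ok (S : Set (κ → ℝ)) (t : ℝ) (φ : κ → ℝ) : Prop where
  f : ∀ b, |φ b| ≤ t * d.fl b
  a : ∀ i, |φ ⬝ᵥ d.A i| ≤ t * d.L
  c : ∀ x y, In S x → In S y → |φ ⬝ᵥ br d.h x y| ≤ t * d.L

/-- An admissible cap. -/
structure Good (S : Set (κ → ℝ)) : Prop where
  hg : ∀ φ ∈ S, ∃ μ, Hg d.wt μ φ
  ok : ∀ φ ∈ S, d.Ok S 1 φ
  one : ∀ a, Pi.single a (1 : ℝ) ∈ S

/-- The forms that are thinned in the forced step. -/
def Th (S : Set (κ → ℝ)) (τ : ℝ) : Set (κ → ℝ) :=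
  {φ | (∃ μ, Hg d.wt μ φ) ∧ (∀ x, In S x → |φ ⬝ᵥ x| ≤ 1) ∧ d.Ok S (τ / 2) φ}

/-- The rounded coordinates of a spanning family. -/
noncomputable def zz (S : Set (κ → ℝ)) (τ : ℝ) (i a : κ) : ℤ :=
  ⌊(fm d.wt (d.Th S τ) i ⬝ᵥ ub d.wt S a) / (τ / (2 * Fintype.card κ))⌋

end Da

/-- The cap with the added forms. -/
noncomputable def ad (wt : κ → ℝ) (S : Set (κ → ℝ)) (z : κ → κ → ℤ) : Set (κ → ℝ) :=
  S ∪ Set.range fun i => (fun a => (z i a : ℝ) / (2 * Fintype.card κ)) ᵥ* fm wt S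

/-- The forced step. -/
noncomputable def Da.sub (d : Da κ α) (S : Set (κ → ℝ)) (τ : ℝ) : Set (κ → ℝ) :=
  ad d.wt S (d.zz S τ)

variable {d : Da κ α} {S S' : Set (κ → ℝ)} {t t' τ μ : ℝ} {φ ψ x c : κ → ℝ}

omit [DecidableEq κ] in
theorem In.anti (h : In S' x) (e : S ⊆ S') : In S x := fun φ k => h φ (e k)

namespace Da

omit [DecidableEq κ] in
theorem Ok.anti (h : d.Ok S t φ) (e : S ⊆ S') : d.Ok S' t φ :=
  ⟨h.f, h.a, fun x y a b => h.c x y (a.anti e) (b.anti e)⟩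

omit [DecidableEq κ] in
theorem Ok.add (h : d.Ok S t φ) (h' : d.Ok S t' ψ) : d.Ok S (t + t') (φ + ψ) :=
  ⟨fun b => (abs_add_le _ _).trans (by linarith [h.f b, h'.f b]), fun i => by
    rw [add_dotProduct]; exact (abs_add_le _ _).trans (by linarith [h.a i, h'.a i]),
   fun x y a b => by
    rw [add_dotProduct]; exact (abs_add_le _ _).trans (by linarith [h.c x y a b, h'.c x y a b])⟩

omit [DecidableEq κ] in
theorem Ok.smul (h : d.Ok S t φ) (s : ℝ) : d.Ok S (|s| * t) (s • φ) :=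
  ⟨fun b => by
    rw [Pi.smul_apply, smul_eq_mul, abs_mul, mul_assoc]
    exact mul_le_mul_of_nonneg_left (h.f b) (abs_nonneg _), fun i => by
    rw [smul_dotProduct, smul_eq_mul, abs_mul, mul_assoc]
    exact mul_le_mul_of_nonneg_left (h.a i) (abs_nonneg _), fun x y a b => by
    rw [smul_dotProduct, smul_eq_mul, abs_mul, mul_assoc]
    exact mul_le_mul_of_nonneg_left (h.c x y a b) (abs_nonneg _)⟩

theorem Good.fl1 (h : d.Good S) (b : κ) : 1 ≤ d.fl b := by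
  simpa using (h.ok _ (h.one b)).f b

theorem Good.bd (h : d.Good S) (k : d.Ok S t φ) (ht : t ≤ 1) (b : κ) : |φ b| ≤ ∑ e, d.fl e :=
  (k.f b).trans ((mul_le_of_le_one_left (by linarith [h.fl1 b]) ht).trans
    (single_le_sum (fun e _ => by linarith [h.fl1 e]) (mem_univ b)))

theorem Good.fu (h : d.Good S) : Fu S 1 (∑ e, d.fl e) :=
  ⟨one_pos, fun a => by simpa using h.one a, fun φ k => h.bd (h.ok φ k) le_rfl⟩

theorem Good.fuT (h : d.Good S) (h0 : 0 < τ) (h1 : τ ≤ 1) : Fu (d.Th S τ) (τ / 2) (∑ e, d.fl e) :=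
  ⟨half_pos h0, fun a => ⟨⟨_, (hg_one _ a).smul _⟩, fun x k => by
      have := k _ (h.one a)
      rw [smul_dotProduct, smul_eq_mul, abs_mul, abs_of_pos (half_pos h0)]
      nlinarith [abs_nonneg (Pi.single a (1 : ℝ) ⬝ᵥ x)], by
      simpa [abs_of_pos (half_pos h0)] using (h.ok _ (h.one a)).smul (τ / 2)⟩,
    fun φ k => h.bd k.2.2 (by linarith)⟩

/-- Adding admissible forms keeps the constants. -/
theorem Good.union (h : d.Good S) {N : Set (κ → ℝ)}
    (k : ∀ φ ∈ N, (∃ μ, Hg d.wt μ φ) ∧ d.Ok S 1 φ) : d.Good (S ∪ N) :=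
  ⟨fun φ u => u.elim (h.hg φ) fun v => (k φ v).1,
   fun φ u => (u.elim (h.ok φ) fun v => (k φ v).2).anti Set.subset_union_left,
   fun a => Or.inl (h.one a)⟩

/-- A combination of the extremal rows. -/
theorem Good.comb (h : d.Good S) (hL : 0 ≤ d.L) (hc : ∀ a, |c a| ≤ t) :
    d.Ok S (Fintype.card κ * t) (c ᵥ* fm d.wt S) := by
  have r := fun a => h.ok _ ((h.fu.fm (wt := d.wt)).1 a).1
  have m : ∀ {s : ℝ}, 0 ≤ s → ∀ a, |c a| * s ≤ t * s := fun p a =>
    mul_le_mul_of_nonneg_right (hc a) p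
  refine ⟨fun b => ?_, fun i => ?_, fun x y u v => ?_⟩
  · have := abs_dot (c := c) (F := fm d.wt S) (x := Pi.single b 1) (r := fun _ => d.fl b)
      (m (by linarith [h.fl1 b])) fun a => by simpa using (r a).f b
    rwa [dotProduct_single, mul_one, ← mul_assoc] at this
  · rw [mul_assoc]; exact abs_dot (m hL) fun a => by simpa using (r a).a i
  · rw [mul_assoc]; exact abs_dot (m hL) fun a => by simpa using (r a).c x y u v

theorem key (h : d.Good S) (h0 : 0 < τ) (h1 : τ ≤ 1) (i : κ) : ∃ y e : κ → ℝ,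
    fm d.wt (d.Th S τ) i = y ᵥ* fm d.wt S ∧ Hg d.wt (d.wt i) y ∧ (∀ a, |y a| ≤ 2) ∧
    (∀ a, |e a| ≤ τ / (2 * Fintype.card κ)) ∧
    (∀ a, d.zz S τ i a = ⌊y a / (τ / (2 * Fintype.card κ))⌋) ∧
    τ • (fun a => (d.zz S τ i a : ℝ) / (2 * Fintype.card κ)) = y + e := by
  obtain ⟨⟨-, u, -⟩, v⟩ := ((h.fuT h0 h1).fm (wt := d.wt)).1 i
  obtain ⟨y, y1, y2⟩ := coef (fun a => ((h.fu.fm (wt := d.wt)).1 a).2) h.fu.unit v
  have k0 : (0 : ℝ) < Fintype.card κ := by exact_mod_cast Fintype.card_pos_iff.2 ⟨i⟩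
  have g0 : 0 < τ / (2 * Fintype.card κ) := by positivity
  have z : ∀ a, d.zz S τ i a = ⌊y a / (τ / (2 * Fintype.card κ))⌋ := fun a => by
    rw [zz, y2, h.fu.coord]
  refine ⟨y, fun a => τ * ((d.zz S τ i a : ℝ) / (2 * Fintype.card κ)) - y a, y2, y1, fun a => ?_,
    fun a => ?_, z, by funext a; simp⟩
  · have := u _ (h.fu.in_ub h.hg a)
    rw [dotProduct_smul, y2, h.fu.coord, smul_eq_mul, abs_mul] at this
    norm_num at this
    linarith
  · have a1 := Int.floor_le (y a / (τ / (2 * Fintype.card κ)))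
    have a2 := Int.lt_floor_add_one (y a / (τ / (2 * Fintype.card κ)))
    rw [← z, le_div_iff₀ g0] at a1
    rw [← z, div_lt_iff₀ g0] at a2
    have e : τ * ((d.zz S τ i a : ℝ) / (2 * Fintype.card κ)) =
      d.zz S τ i a * (τ / (2 * Fintype.card κ)) := by ring
    simp only []
    rw [e, abs_le]
    constructor <;> linarith

omit [DecidableEq κ] in
theorem half (i : κ) (τ : ℝ) : Fintype.card κ * (τ / (2 * Fintype.card κ)) = τ / 2 := by
  have k0 : (0 : ℝ) < Fintype.card κ := by exact_mod_cast Fintype.card_pos_iff.2 ⟨i⟩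
  field_simp

/-- The forced step is admissible. -/
theorem Good.sub (h : d.Good S) (hL : 0 ≤ d.L) (h0 : 0 < τ) (h1 : τ ≤ 1) : d.Good (d.sub S τ) := by
  refine h.union ?_
  rintro _ ⟨i, rfl⟩
  obtain ⟨y, e, a1, a2, -, a4, a5, a6⟩ := key h h0 h1 i
  refine ⟨⟨d.wt i, Hg.vecMul (fun a k => a2 a fun z => k ?_)
    fun a => ((h.fu.fm (wt := d.wt)).1 a).2⟩, ?_⟩
  · simp [a5, z]
  · have b1 := (((h.fuT h0 h1).fm (wt := d.wt)).1 i).1.2.2
    have b2 := h.comb hL a4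
    rw [half i] at b2
    have b3 := (b1.add b2).smul τ⁻¹
    rw [a1, ← add_vecMul, ← a6, smul_vecMul, smul_smul, inv_mul_cancel₀ h0.ne', one_smul,
      add_halves, abs_of_pos (inv_pos.2 h0), inv_mul_cancel₀ h0.ne'] at b3
    exact b3

/-- The forced step has few values. -/
theorem few (wt : κ → ℝ) (S : Set (κ → ℝ)) (h0 : 0 < τ) : ∃ T : Finset (Set (κ → ℝ)),
    (T.card : ℝ) ≤ (8 * Fintype.card κ / τ + 2) ^ (Fintype.card κ * Fintype.card κ) ∧
    ∀ d : Da κ α, d.wt = wt → d.Good S → τ ≤ 1 → d.sub S τ ∈ T := by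
  classical
  obtain ⟨m, hm⟩ : ∃ m : ℝ, m = 4 * Fintype.card κ / τ := ⟨_, rfl⟩
  have m0 : 0 ≤ m := by rw [hm]; positivity
  refine ⟨(Fintype.piFinset fun _ : κ => Fintype.piFinset fun _ : κ => Icc ⌊-m⌋ ⌊m⌋).image
    (ad wt S), ?_, ?_⟩
  · refine (Nat.cast_le.2 card_image_le).trans ?_
    simp only [Fintype.card_piFinset, prod_const, card_univ, Nat.cast_pow]
    rw [← pow_mul]
    refine pow_le_pow_left₀ (Nat.cast_nonneg _) ?_ _
    have h : ⌊-m⌋ ≤ ⌊m⌋ + 1 := by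
      have := Int.floor_mono (show -m ≤ m by linarith); omega
    have e := congrArg (Int.cast : ℤ → ℝ) (Int.card_Icc_of_le _ _ h)
    push_cast at e
    have e' : 8 * (Fintype.card κ : ℝ) / τ = 2 * m := by rw [hm]; ring
    linarith [Int.floor_le m, Int.lt_floor_add_one (-m)]
  · rintro d rfl h h1
    refine mem_image_of_mem _ (Fintype.mem_piFinset.2 fun i => Fintype.mem_piFinset.2 fun a => ?_)
    obtain ⟨y, e, -, -, a3, -, a5, -⟩ := key h h0 h1 i
    have k0 : (0 : ℝ) < Fintype.card κ := by exact_mod_cast Fintype.card_pos_iff.2 ⟨i⟩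
    have g0 : 0 < τ / (2 * Fintype.card κ) := by positivity
    have e' : m * (τ / (2 * Fintype.card κ)) = 2 := by rw [hm]; field_simp; norm_num
    have := abs_le.1 (a3 a)
    rw [a5, mem_Icc]
    exact ⟨Int.floor_mono (by rw [le_div_iff₀ g0]; linarith),
      Int.floor_mono (by rw [div_le_iff₀ g0]; linarith)⟩

/-- After the forced step the thinned forms are small. -/
theorem Good.rate (h : d.Good S) (h0 : 0 < τ) (h1 : τ ≤ 1) (e : d.sub S τ ⊆ S')
    (k : φ ∈ d.Th S τ) (hx : In S' x) : |φ ⬝ᵥ x| ≤ 3 * Fintype.card κ * τ := by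
  obtain ⟨μ, u⟩ := k.1
  obtain ⟨c, -, c2, c3⟩ := (h.fuT h0 h1).span k u
  have hs : In S x := hx.anti (Set.subset_union_left.trans e)
  rw [c2, mul_comm 3, mul_assoc]
  refine abs_dot (r := fun _ => 3 / 2 * τ) (fun a => by nlinarith [c3 a]) fun i => ?_
  obtain ⟨y, e', a1, -, -, a4, -, a6⟩ := key h h0 h1 i
  have b1 := hx _ (e (Or.inr ⟨i, rfl⟩))
  have b2 := abs_dot (c := e') (F := fm d.wt S) (x := x) (r := fun _ => 1)
    (fun a => by simpa using a4 a) fun a => hs _ ((h.fu.fm (wt := d.wt)).1 a).1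
  rw [half i] at b2
  have b3 := congrArg (fun w => (w ᵥ* fm d.wt S) ⬝ᵥ x) a6
  simp only [smul_vecMul, smul_dotProduct, add_vecMul, add_dotProduct, smul_eq_mul] at b3
  rw [a1, eq_sub_of_add_eq b3.symm]
  refine (abs_sub _ _).trans ?_
  rw [abs_mul, abs_of_pos h0]
  nlinarith

end Da

end Pool.Agent.MP_5168f5_an.QA.Cp
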