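import Pool.Agent.MP_5168f5_an.QA.HVal
import Pool.Agent.MP_5168f5_an.AN.LCTrim

/-! Flat iterated differences without exceptional event. -/

namespace Pool.Agent.MP_5168f5_an.QA

open H19 H17S H17F MX R4 AN Filter
open G39 (dl)

section One

variable {Ω W T : Type} {P : FP Ω} {Q : FP W} {X : Ω → ℝ} {K : Ω → T} {k : ℕ} {B C : ℝ}

theorem cv_cE {G : Ω → Prop} {ω : Ω} (hω : ω ∈ P.S) (g : G ω) :
    cv (cE P G) K (K ω) = cE (cv P K (K ω)) G := by
  rw [cv, cv, cE_cE (E := G) (E' := fun x => K x = K ω) ⟨ω, hω, g, rfl⟩,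
    cE_cE (E := fun x => K x = K ω) (E' := G) ⟨ω, hω, rfl, g⟩]
  exact cE_congr fun _ _ => and_comm

/-- A new law whose fibres are dominated by the good parts of the old fibres. -/
theorem ht_dom {G : Ω → Prop} {ρ : W → Ω} (hC : 0 ≤ C)
    (h : ∀ ω ∈ P.S, En k (sl (cv P K (K ω)) (fun v => ⌊X v⌋) G) B)
    (e : ∀ v ∈ Q.S, ρ v ∈ P.S ∧ ∀ E : Ω → Prop, pb (cv Q (fun u => K (ρ u)) (K (ρ v)))
      (fun u => E (ρ u)) ≤ C * pb (cv P K (K (ρ v))) fun ω => G ω ∧ E ω) :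
    Ht k Q (fun v => X (ρ v)) (fun v => K (ρ v)) 0 (C ^ 2 ^ k * B) :=
  ⟨fun _ => True, (pb_zero fun _ _ a => a trivial).le, fun v hv =>
    (h _ (e v hv).1).le (nn_sl _ _ _) (nn_sl _ _ _) hC fun y => by
      simpa only [sl_coeff, true_and] using (e v hv).2 fun ω => ⌊X ω⌋ = y⟩

theorem Ht.pull0 (h : Ht k P X K 0 B) {ρ : W → Ω} (hC : 0 ≤ C)
    (e : ∀ v ∈ Q.S, ρ v ∈ P.S ∧ ∀ E : Ω → Prop, pb (cv Q (fun u => K (ρ u)) (K (ρ v)))
      (fun u => E (ρ u)) ≤ C * pb (cv P K (K (ρ v))) E) :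
    Ht k Q (fun v => X (ρ v)) (fun v => K (ρ v)) 0 (C ^ 2 ^ k * B) := by
  obtain ⟨G, a, b⟩ := h
  refine ht_dom hC b fun v hv => ⟨(e v hv).1, fun E => ((e v hv).2 E).trans
    (mul_le_mul_of_nonneg_left (pb_mono fun ω hω u => ⟨not_not.1 fun g => ?_, u⟩) hC)⟩
  exact a.not_gt (pb_pos P ⟨ω, cE_sub hω, g⟩)

theorem cE_dom {G : Ω → Prop} (ne : ∃ ω ∈ P.S, G ω)
    (e : ∀ ω ∈ P.S, G ω → 1 ≤ C * pb (cv P K (K ω)) G) {v : Ω} (hv : v ∈ (cE P G).S)
    (E : Ω → Prop) : pb (cv (cE P G) K (K v)) E ≤ C * pb (cv P K (K v)) fun ω => G ω ∧ E ω := by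
  obtain ⟨h1, h2⟩ := (mem_cE ne v).1 hv
  rw [cv_cE h1 h2, ← pb_cE, ← mul_assoc]
  exact le_mul_of_one_le_left (pb_nonneg _ _) (e v h1 h2)

end One

section Seq

variable {Ω W T T' : ℕ → Type} {P : ∀ n, FP (Ω n)} {Q : ∀ n, FP (W n)} {X Y : ∀ n, Ω n → ℝ}
  {K : ∀ n, Ω n → T n} {K' : ∀ n, Ω n → T' n} {R R' : ℕ → ℕ} {s s' L : ℕ → ℝ} {k k' : ℕ}
  {G : ∀ n, Ω n → Prop}

/-- One resolution, no exceptional event. -/
def Hs (k : ℕ) (P : ∀ n, FP (Ω n)) (X : ∀ n, Ω n → ℝ) (K : ∀ n, Ω n → T n) (R : ℕ → ℕ)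
    (s : ℕ → ℝ) : Prop :=
  ∀ ε : ℝ, 0 < ε → ∀ᶠ n in UF, Ht k (P n) (X n) (K n) 0 (Real.exp (-s n + ε * R n))

theorem Hs.ht (h : Hs k P X K R s) : HT1 k P X K R s := fun ε hε =>
  (h ε hε).mono fun _ a => a.mono hε.le le_rfl

theorem Hs.tr (h : Hs k P X K R s) {Y : ∀ n, W n → ℝ} {K' : ∀ n, W n → T' n}
    (e : ∀ η : ℝ, 0 < η → ∀ᶠ n in UF, ∀ B, Ht k (P n) (X n) (K n) 0 B →
      Ht k' (Q n) (Y n) (K' n) 0 (Real.exp (η * R n) * B)) : Hs k' Q Y K' R s := fun ε hε => by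
  filter_upwards [h _ (half_pos hε), e _ (half_pos hε)] with n a b
  refine (b _ a).mono le_rfl (le_of_eq ?_)
  rw [← Real.exp_add]
  congr 1
  ring

theorem Hs.cf {S : ℕ → Type 1} {W T : ∀ n, S n → Type} (k : ℕ) (Q : ∀ n x, FP (W n x))
    (X : ∀ n x, W n x → ℝ) (K : ∀ n x, W n x → T n x) (m : ∀ n, S n → ℕ) (s : ∀ n, S n → ℝ) :
    CF fun x : ∀ n, S n => Hs k (fun n => Q n (x n)) (fun n => X n (x n)) (fun n => K n (x n))
      (fun n => m n (x n)) fun n => s n (x n) :=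
  cf_eps (p := fun ε n x => Ht k (Q n x) (X n x) (K n x) 0 (Real.exp (-s n x + ε * m n x)))
    fun _ _ _ _ _ a b => b.mono le_rfl (Real.exp_le_exp.2
      (add_le_add le_rfl (mul_le_mul_of_nonneg_right a (Nat.cast_nonneg _))))

theorem Hs.mono (h : Hs k P X K R s) (e : Le R s' s) : Hs k P X K R s' := fun ε hε => by
  filter_upwards [h _ (half_pos hε), e _ (half_pos hε)] with n a b
  exact a.mono le_rfl (Real.exp_le_exp.2 (by linarith))

theorem Hs.up (h : Hs k P X K R s) (e : k ≤ k') : Hs k' P X K R s := fun ε hε =>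
  (h ε hε).mono fun _ a => a.up e

theorem Hs.unit (h : Hs k P X K R s) {c : ℝ} (hc : 0 < c) (e : ∀ᶠ n in UF, c * R n ≤ R' n) :
    Hs k P X K R' s := fun ε hε => by
  filter_upwards [h (ε * c) (by positivity), e] with n a b
  exact a.mono le_rfl (Real.exp_le_exp.2 (by nlinarith))

theorem Hs.congr (h : Hs k P X K R s) (e : ∀ᶠ n in UF, ∀ ω ∈ (P n).S, ⌊Y n ω⌋ = ⌊X n ω⌋) :
    Hs k P Y K R s := fun ε hε => ((h ε hε).and e).mono fun _ a => a.1.congr a.2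

theorem Hs.coarse (h : Hs k P X K R s) (e : ∀ᶠ n in UF, Fn (P n) (K' n) (K n)) :
    Hs k P X K' R s := fun ε hε => ((h ε hε).and e).mono fun _ a => a.1.coarse a.2

theorem Hs.aff (h : Hs k P X K R s) (hR : Big R) (hL : Sub R L) {c b : ∀ n, Ω n → ℝ}
    (e : ∀ᶠ n in UF, Fn (P n) (c n) (K n) ∧ Fn (P n) (b n) (K n) ∧ ∀ ω ∈ (P n).S,
      1 ≤ L n * |c n ω| ∧ |c n ω| ≤ L n ∧ |Y n ω - c n ω * X n ω - b n ω| ≤ L n) :
    Hs k P Y K R s := h.tr fun η hη => by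
  filter_upwards [e, (((hL.pow 2).const_mul hR (C := 6 * 2 ^ k) (by
    linarith [(one_le_pow₀ one_le_two : (1 : ℝ) ≤ 2 ^ k)])).add (hR.sub le_rfl) hR).2 η hη]
    with n a b B g
  exact (g.aff a.1 a.2.1 (hL.1 n) a.2.2).mono le_rfl (mul_le_mul_of_nonneg_right b g.nonneg)

/-- Side information that is nowhere too unlikely. -/
theorem Hs.side (h : Hs k P X K R s) (e : ∀ ε : ℝ, 0 < ε → ∀ᶠ n in UF, ∀ ω ∈ (P n).S,
      1 ≤ Real.exp (ε * R n) * cm (P n) (K n) (K' n) ω) :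
    Hs k P X (fun n ω => (K' n ω, K n ω)) R s := h.tr fun η hη => by
  filter_upwards [e (η / 2 ^ k) (by positivity)] with n a B g
  simpa only [add_zero, exp_pow] using
    g.side (Real.exp_pos _).le (pb_zero fun ω hω u => u (a ω hω)).le

/-- New laws whose fibres have density `exp (o(R))`. -/
theorem Hs.pull (h : Hs k P X K R s) {ρ : ∀ n, W n → Ω n}
    (e : ∀ ε : ℝ, 0 < ε → ∀ᶠ n in UF, ∀ v ∈ (Q n).S, ρ n v ∈ (P n).S ∧ ∀ E : Ω n → Prop,
      pb (cv (Q n) (fun u => K n (ρ n u)) (K n (ρ n v))) (fun u => E (ρ n u)) ≤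
        Real.exp (ε * R n) * pb (cv (P n) (K n) (K n (ρ n v))) E) :
    Hs k Q (fun n v => X n (ρ n v)) (fun n v => K n (ρ n v)) R s := h.tr fun η hη => by
  filter_upwards [e (η / 2 ^ k) (by positivity)] with n a B g
  simpa only [exp_pow] using g.pull0 (Real.exp_pos _).le a

theorem one_le_dl {c p : ℝ} {n : ℕ} (h : dl R c n ≤ p) : 1 ≤ Real.exp (c * R n) * p := by
  refine le_trans (le_of_eq ?_) (mul_le_mul_of_nonneg_left h (Real.exp_pos _).le)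
  rw [dl, ← Real.exp_add, add_neg_cancel, Real.exp_zero]

/-- Events that are not power small in the atoms that they meet. -/
theorem Hs.res (h : Hs k P X K R s) (ne : ∀ᶠ n in UF, ∃ ω ∈ (P n).S, G n ω)
    (e : ∀ c : ℝ, 0 < c → ∀ᶠ n in UF, ∀ ω ∈ (P n).S, G n ω →
      dl R c n ≤ pb (cv (P n) (K n) (K n ω)) (G n)) :
    Hs k (fun n => cE (P n) (G n)) X K R s :=
  h.pull (ρ := fun _ => id) fun ε hε => by
    filter_upwards [ne, e ε hε] with n a b v hv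
    exact ⟨cE_sub hv, fun E => (cE_dom a (fun ω u g => one_le_dl (b ω u g))
      hv E).trans (mul_le_mul_of_nonneg_left (pb_mono fun _ _ u => u.2) (Real.exp_pos _).le)⟩

/-- Trimming of a likely event for countably many partitions. -/
theorem trimW {J : Type} [Countable J] [Nonempty J] (O : J → ∀ n, Ω n → T n) (hR : Big R)
    (hG : Whp P G) : ∃ G' : ∀ n, Ω n → Prop, (∀ n ω, G' n ω → G n ω) ∧ Whp P G' ∧
      ∀ j (c : ℝ), 0 < c → ∀ᶠ n in UF, ∀ ω ∈ (P n).S, G' n ω →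
        dl R c n ≤ pb (cv (P n) (O j n) (O j n ω)) (G' n) := by
  obtain ⟨f, hf⟩ := exists_surjective_nat J
  choose G' a b c using fun n => LC.lcTrim (Ω n) ℕ (T n) (P n) (Finset.range (R n + 1))
    (fun i => O (f i) n) (fun _ _ => 1 / (R n + 1 : ℝ) ^ 2) (G n) (1 / (R n + 1 : ℝ) ^ 2)
    fun i _ => ⟨fun _ _ => by positivity, fun _ _ _ _ _ => rfl,
      ((P n).E_mono fun ω _ => mul_le_of_le_one_left (by positivity) (by
        unfold G39.ind; split_ifs <;> norm_num)).trans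
        (FP.E_const _ _).le⟩
  refine ⟨G', a, fun ε hε => ?_, fun j t ht => ?_⟩
  · filter_upwards [hG _ (half_pos hε), hR.ev (2 / ε)] with n u v
    have e := b n
    have e' : ((R n : ℝ) + 1) * (1 / (R n + 1 : ℝ) ^ 2) ≤ ε / 2 := by
      rw [div_le_iff₀ hε] at v
      rw [mul_one_div, div_le_iff₀ (by positivity)]
      nlinarith [Nat.cast_nonneg (α := ℝ) (R n)]
    rw [Finset.card_range] at e
    rw [pb_not] at u ⊢
    push_cast at e
    linarith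
  · obtain ⟨i, rfl⟩ := hf j
    filter_upwards [hR.eventually_ge_atTop i, ((Sub.nat hR).pow 2).2 t ht] with n u v ω hω g
    refine le_trans ?_ (c n i (Finset.mem_range.2 (by omega)) ω hω g)
    rw [dl, Real.exp_neg, ← one_div]
    exact one_div_le_one_div_of_le (by positivity) v

theorem HT1.wit (h : HT1 k P X K R s) : ∃ G, Whp P G ∧ ∀ ε : ℝ, 0 < ε → ∀ᶠ n in UF, ∀ ω ∈ (P n).S,
    En k (sl (cv (P n) (K n) (K n ω)) (fun v => ⌊X n v⌋) (G n)) (Real.exp (-s n + ε * R n)) := by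
  obtain ⟨m, a, b⟩ := KSA.spill _ fun j : ℕ => h (1 / (j + 1 : ℝ)) (by positivity)
  obtain ⟨G, c⟩ : ∃ G : ∀ n, Ω n → Prop, ∀ᶠ n in UF, pb (P n) (fun ω => ¬G n ω) ≤ 1 / (m n + 1 : ℝ) ∧
      ∀ ω ∈ (P n).S, En k (sl (cv (P n) (K n) (K n ω)) (fun v => ⌊X n v⌋) (G n))
        (Real.exp (-s n + 1 / (m n + 1 : ℝ) * R n)) :=
    ⟨fun n => Classical.epsilon _, b.mono fun n u => Classical.epsilon_spec (u _ le_rfl)⟩
  refine ⟨G, fun ε hε => ?_, fun ε hε => ?_⟩ <;> filter_upwards [c, K31.small hε a] with n u v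
  · exact u.1.trans v
  · exact fun ω hω => (u.2 ω hω).mono (Real.exp_le_exp.2
      (add_le_add le_rfl (mul_le_mul_of_nonneg_right v (Nat.cast_nonneg _))))

/-- Countably many likely statements become sure on one likely event. -/
theorem sure {J : Type} [Countable J] [Nonempty J] {k : J → ℕ} {X : J → ∀ n, Ω n → ℝ}
    {K : J → ∀ n, Ω n → T n} {s : J → ℕ → ℝ} (hR : Big R)
    (h : ∀ j, HT1 (k j) P (X j) (K j) R (s j)) : ∃ G, Whp P G ∧
      (∀ j (c : ℝ), 0 < c → ∀ᶠ n in UF, ∀ ω ∈ (P n).S, G n ω →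
        dl R c n ≤ pb (cv (P n) (K j n) (K j n ω)) (G n)) ∧
      ∀ j, Hs (k j) (fun n => cE (P n) (G n)) (X j) (K j) R (s j) := by
  obtain ⟨f, hf⟩ := exists_surjective_nat J
  choose E a b using fun j => (h j).wit
  obtain ⟨G₀, c, d⟩ := whp_diag fun i => a (f i)
  obtain ⟨G, e, g, q⟩ := trimW K hR c
  refine ⟨G, g, q, fun j ε hε => ?_⟩
  obtain ⟨i, rfl⟩ := hf j
  filter_upwards [b _ _ (half_pos hε), d i, q (f i) (ε / 2 / 2 ^ k (f i)) (by positivity),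
    g.pos.ex] with n u v w y
  refine (ht_dom (ρ := id) (Real.exp_pos _).le u fun x hx => ⟨cE_sub hx, fun F =>
    (cE_dom y (fun ω hω r => one_le_dl (w ω hω r)) hx F).trans
      (mul_le_mul_of_nonneg_left (pb_mono fun ω _ r => ⟨v ω (e n ω r.1), r.2⟩)
        (Real.exp_pos _).le)⟩).mono le_rfl (le_of_eq ?_)
  rw [exp_pow, ← Real.exp_add]
  congr 1
  ring

/-- From rational levels to all windows. -/
theorem hs_all {lv : ℕ → ℚ → ℕ} {θ : ℝ} (hR : Big R) (h0 : 0 ≤ θ) (h1 : θ ≤ 1)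
    (mono : ∀ x x', x ≤ x' → ∀ᶠ n in UF, lv n x ≤ lv n x')
    (lev : ∀ x x' : ℚ, Le R (fun n => (lv n x' : ℝ) - lv n x) fun n => ((x' : ℝ) - x) * R n)
    (h : ∀ x x', x ≤ x' → Hs k P (fun n ω => 2 ^ lv n x' * X n ω)
      (fun n ω => (K n ω, fl1 (lv n x) (X n ω))) R fun n => (1 - θ) * ((lv n x' : ℝ) - lv n x) * lg)
    (x x' : ℚ) {ε : ℝ} (hε : 0 < ε) : ∀ᶠ n in UF, ∀ c c', lv n x ≤ c → c ≤ c' → c' ≤ lv n x' →
      Ht k (P n) (fun ω => 2 ^ c' * X n ω) (fun ω => (K n ω, fl1 c (X n ω))) 0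
        (Real.exp (-((1 - θ) * ((c' : ℝ) - c) * lg) + ε * R n)) := by
  obtain ⟨δ, d0, d1⟩ := exists_rat_btwn (show 0 < ε / 8 by positivity)
  have d2 : 0 < δ := by exact_mod_cast d0
  obtain ⟨J, hJ⟩ := exists_nat_ge ((x' - x) / δ)
  rw [div_le_iff₀ d2] at hJ
  have m1 : ∀ i j : ℕ, i ≤ j → x + i * δ ≤ x + j * δ := fun i j e => by gcongr
  filter_upwards [mono x' (x + J * δ) (by linarith), big_exp hR (7 * 2 ^ k) d0,
    (eventually_all_finset (Finset.range (J + 1))).2 fun j _ =>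
      lev (x + j * δ) (x + (j + 1 : ℕ) * δ) δ d0,
    (eventually_all_finset (Finset.range (J + 1))).2 fun j _ =>
      (eventually_all_finset (Finset.range (j + 1))).2 fun i hi =>
        h _ _ (m1 i j (Nat.lt_succ_iff.1 (Finset.mem_range.1 hi))) δ d0]
    with n a1 a2 a3 a4 c c' c1 c2 c3
  have l0 : (0 : ℝ) ≤ δ * R n := by positivity
  have ex : ∀ t, t ≤ c' → ∃ j : ℕ, t ≤ lv n (x + j * δ) := fun t e => ⟨J, by omega⟩
  have le : ∀ t (e : t ≤ c'), Nat.find (ex t e) ≤ J := fun t e => Nat.find_min' _ (by omega)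
  have up : ∀ t (e : t ≤ c'), c ≤ t → (lv n (x + Nat.find (ex t e) * δ) : ℝ) ≤ t + 2 * (δ * R n) :=
    fun t e e' => by
      have b1 := le t e
      rcases hj : Nat.find (ex t e) with _ | j
      · have : (lv n x : ℝ) ≤ t := by exact_mod_cast c1.trans e'
        simp only [Nat.cast_zero, zero_mul, add_zero]
        linarith
      · have b2 : (lv n (x + j * δ) : ℝ) ≤ t := by
          exact_mod_cast (not_le.1 (Nat.find_min (ex t e) (hj.symm ▸ j.lt_succ_self : j < Nat.find (ex t e)))).le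
        have b3 := a3 j (Finset.mem_range.2 (by omega))
        push_cast at b3 ⊢
        linarith
  have b1 := Nat.find_spec (ex c c2)
  have b2 := Nat.find_spec (ex c' le_rfl)
  have b3 := up c c2 le_rfl
  have b4 := up c' le_rfl c2
  have b5 := a4 _ (Finset.mem_range.2 (Nat.lt_succ_of_le (le c' le_rfl))) _ (Finset.mem_range.2
    (Nat.lt_succ_of_le (Nat.find_min' (ex c c2) (c2.trans b2))))
  generalize lv n (x + Nat.find (ex c c2) * δ) = a at b1 b3 b5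
  generalize lv n (x + Nat.find (ex c' le_rfl) * δ) = b at b2 b4 b5
  obtain ⟨w, rfl⟩ := Nat.exists_eq_add_of_le b2
  refine (((b5.coarse ((Fn.snd _ _).pair (Fn.fst _ _))).interp b1 b2 le_rfl).coarse
    ((Fn.snd _ _).pair (Fn.fst _ _))).mono le_rfl ?_
  have e1 : ((2 : ℝ) ^ w) ^ 2 ≤ Real.exp (4 * (δ * R n)) := by
    push_cast at b4
    rw [show 4 * (δ * R n : ℝ) = (2 : ℕ) * (2 * (δ * R n)) by push_cast; ring, Real.exp_nat_mul]
    exact pow_le_pow_left₀ (by positivity)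
      ((two_pow_le_exp w).trans (Real.exp_le_exp.2 (by linarith))) 2
  have e2 : (1 : ℝ) ≤ 2 ^ k * (2 ^ w) ^ 2 := one_le_mul_of_one_le_of_one_le
    (one_le_pow₀ one_le_two) (one_le_pow₀ (one_le_pow₀ one_le_two))
  have e3 : 6 * 2 ^ k * ((2 : ℝ) ^ w) ^ 2 + 1 ≤ Real.exp (δ * R n) * Real.exp (4 * (δ * R n)) :=
    le_trans (by linarith) (mul_le_mul a2 e1 (by positivity) (Real.exp_pos _).le)
  refine (mul_le_mul_of_nonneg_right e3 (Real.exp_pos _).le).trans ?_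
  rw [← Real.exp_add, ← Real.exp_add, Real.exp_le_exp]
  have e4 : (1 - θ) * lg ≤ 1 := by nlinarith [lg_pos, lg_lt_one]
  have e5 : 0 ≤ (1 - θ) * lg := mul_nonneg (by linarith) lg_pos.le
  have e6 := mul_le_mul_of_nonneg_right d1.le (Nat.cast_nonneg (α := ℝ) (R n))
  have e7 : (0 : ℝ) ≤ w := Nat.cast_nonneg _
  push_cast
  nlinarith [mul_le_mul_of_nonneg_left b3 e5, mul_nonneg e5 e7, mul_le_mul_of_nonneg_right e4 l0]

end Seq

end Pool.Agent.MP_5168f5_an.QA
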