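import Pool.Agent.MP_5168f5_an.QA.CpSpec
import Pool.Agent.MP_5168f5_an.QA.HSure
import Pool.Agent.MP_5168f5_an.AN.GAAll

/-! The Kakeya maximal estimate: conditioning and rescaling of the data of the chain. -/

namespace Pool.Agent.MP_5168f5_an.QA.Cp

open H19 H17S H17F R4 AN Filter Matrix
open GA (Mt IsFr lg Wd br sB sC sMul)
open LC (ex_le)

variable {ι κ α : Type} [Fintype ι] [DecidableEq ι] [Fintype κ] [DecidableEq κ] [Fintype α]

omit [Fintype κ] [DecidableEq κ] in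
theorem hc_sC (μ : κ → ℝ) (D : ℝ) (c : κ → κ → κ → ℝ) :
    hc μ (sC (fun a => Real.exp (-(μ a * D))) c) = hc μ c := by
  funext a b e
  unfold hc
  split_ifs with h
  · rw [sC, h.2.2, mul_assoc, ← Real.exp_add, mul_div_assoc, ← Real.exp_sub,
      show -(μ a * D) + -(μ b * D) - -((μ a + μ b) * D) = 0 by ring, Real.exp_zero, mul_one]
  · rfl

omit [Fintype κ] [DecidableEq κ] in
theorem abs_sC (μ : κ → ℝ) (D : ℝ) (c : κ → κ → κ → ℝ) (a b e : κ) :
    |sC (fun a => Real.exp (-(μ a * D))) c a b e| =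
      |c a b e| * Real.exp ((μ e - μ a - μ b) * D) := by
  rw [sC, mul_assoc, ← Real.exp_add, mul_div_assoc, ← Real.exp_sub, abs_mul,
    abs_of_pos (Real.exp_pos _)]
  congr 2
  ring

omit [DecidableEq κ] [Fintype α] in
theorem Da.Ok.up {d : Da κ α} {S : Set (κ → ℝ)} {t t' : ℝ} {φ : κ → ℝ} (h : d.Ok S t φ)
    (e : t ≤ t') (f : ∀ b, 0 ≤ d.fl b) (l : 0 ≤ d.L) : d.Ok S t' φ :=
  ⟨fun b => (h.f b).trans (mul_le_mul_of_nonneg_right e (f b)),
    fun i => (h.a i).trans (mul_le_mul_of_nonneg_right e l),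
    fun x y a b => (h.c x y a b).trans (mul_le_mul_of_nonneg_right e l)⟩

namespace Ba

variable {Ω Λ : Type} (σ : Cs ι κ α) (X : Ba ι κ α Ω)

/-- Conditioning on `G` and rescaling at the depth `D`. -/
noncomputable def nw (G : Ω → Prop) (D : ℝ) : Ba ι κ α Ω :=
  ⟨cE X.P G, X.F, X.L, X.j, fun ω => sB (fun a => Real.exp (-(σ.μ a * D))) (X.B ω),
    fun ω => sC (fun a => Real.exp (-(σ.μ a * D))) (X.c ω), X.A⟩

/-- The hypotheses of the transfer. -/
structure Tr (G : Ω → Prop) (W : ℝ) : Prop where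
  ok : σ.Ok
  w1 : ∀ a, σ.μ a ≤ W
  w2 : ∀ i, σ.η i ≤ W
  ne : ∃ ω ∈ X.P.S, G ω
  f1 : 1 ≤ X.F
  l1 : 1 ≤ X.L
  al : ∀ ω ∈ X.P.S, IsUnit (X.j ω) ∧ IsFr σ.Φ (X.B ω) (X.c ω) ∧ ∀ i, Hg σ.μ (σ.η i) (X.A ω i)
  ex : ∀ ω ∈ X.P.S, ∀ v ∈ X.P.S, G ω → G v → X.j v = X.j ω * GA.ex (X.B ω) (X.t ω v)

variable {σ X} {G G₀ : Ω → Prop} {D W d d' δ u u' w w' h h' : ℝ} {K : Ω → Λ} {ω v : Ω}
  {Ψ Ψ' : Ω → Set (κ → ℝ)}

omit [Fintype κ] [DecidableEq κ] [Fintype α] in
theorem da_nw : (X.nw σ G D).da σ = X.da σ := by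
  funext ω
  simp only [da, nw, hc_sC]

omit [DecidableEq κ] [Fintype α] in
theorem Tr.mem (T : X.Tr σ G W) : ω ∈ (X.nw σ G D).P.S ↔ ω ∈ X.P.S ∧ G ω := mem_cE T.ne ω

omit [Fintype α] in
theorem Tr.t (T : X.Tr σ G W) (a : ω ∈ (X.nw σ G D).P.S) (b : v ∈ (X.nw σ G D).P.S) :
    ((X.nw σ G D).t ω v = fun e => Real.exp (σ.μ e * D) * X.t ω v e) ∧
      X.j v = X.j ω * GA.ex ((X.nw σ G D).B ω) ((X.nw σ G D).t ω v) := by
  obtain ⟨a1, a2⟩ := T.mem.1 a
  obtain ⟨b1, b2⟩ := T.mem.1 b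
  have p : ∀ a, 0 < Real.exp (-(σ.μ a * D)) := fun _ => Real.exp_pos _
  have e := T.ex ω a1 v b1 a2 b2
  rw [GA.GAFrA.ex_div p] at e
  have f : (X.nw σ G D).t ω v = fun e => X.t ω v e / Real.exp (-(σ.μ e * D)) := by
    show lg _ (X.j ω) (X.j v) = _
    conv_lhs => rw [e]
    exact (sMul _ _ _ _ _ (GA.GAFrA.fr_sB p (T.al ω a1).2.1)).lg _ _ (T.al ω a1).1
  refine ⟨f.trans (funext fun e => ?_), f ▸ e⟩
  rw [Real.exp_neg, div_inv_eq_mul, mul_comm]

omit [Fintype α] in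
theorem Tr.at (T : X.Tr σ G W) (a : (X.nw σ G D).At K ω v) : X.At K ω v :=
  ⟨(T.mem.1 a.1).1, (T.mem.1 a.2.1).1, a.2.2⟩

omit [DecidableEq κ] [Fintype α] in
theorem Tr.fl (T : X.Tr σ G W) (b : κ) : 0 ≤ flr σ.μ X.F b := by
  unfold flr
  split_ifs <;> linarith [T.f1]

theorem wt (e : |d - D - d'| ≤ δ) {r : ℝ} (h0 : 0 ≤ r) (h1 : r ≤ W) :
    |r * (d - D - d')| ≤ W * δ := by
  rw [abs_mul, abs_of_nonneg h0]
  exact mul_le_mul h1 e (abs_nonneg _) (h0.trans h1)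

omit [Fintype α] in
theorem Tr.alg (T : X.Tr σ G W) (hD : 0 ≤ D) (a : X.Alg σ D ω) : (X.nw σ G D).Alg σ 0 ω := by
  have hw : ∀ a b e, Hw σ.μ a b e → |(X.nw σ G D).c ω a b e| = |X.c ω a b e| := fun a b e k => by
    refine (abs_sC σ.μ D (X.c ω) a b e).trans ?_
    rw [k.2.2, show (σ.μ a + σ.μ b - σ.μ a - σ.μ b) * D = 0 by ring, Real.exp_zero, mul_one]
  refine ⟨a.unit, GA.GAFrA.fr_sB (fun _ => Real.exp_pos _) a.fr, fun p q e => ?_,
    fun p q e x y => ?_, fun p q e x y z t => ?_, fun p q x => ?_, a.hg, a.long, a.cur⟩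
  · by_cases k : Hw σ.μ p q e
    · rw [hw p q e k]; exact a.ob p q e
    refine (abs_sC σ.μ D (X.c ω) p q e).trans_le ?_
    rcases (T.ok.m0 e).eq_or_lt with z | z
    · refine (mul_le_of_le_one_right (abs_nonneg _) (Real.exp_le_one_iff.2 ?_)).trans (a.ob p q e)
      exact mul_nonpos_of_nonpos_of_nonneg (by linarith [T.ok.m0 p, T.ok.m0 q]) hD
    · exact ((le_mul_of_one_le_right (by positivity) T.f1).trans (a.gr p q e z k)).trans T.l1
  · rw [mul_zero, Real.exp_zero, mul_one]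
    exact (congrArg (· * X.F) (abs_sC σ.μ D (X.c ω) p q e)).trans_le (a.gr p q e x y)
  · rw [hw p q e x]; exact a.sub p q e x y z t
  · rw [hw p q _ x]; exact a.chi p q x

omit [Fintype α] in
theorem Tr.cur (T : X.Tr σ G W) {z : Wd α} (a : X.Cur σ z) : (X.nw σ G D).Cur σ z :=
  fun ω k b p => by
    simpa only [nw, hc_sC] using a ω (T.mem.1 k).1 b p

omit [Fintype α] in
theorem Tr.incC (T : X.Tr σ G W) (e : |d - D - d'| ≤ δ) (f : u + W * δ ≤ u')
    (a : X.IncC σ K Ψ d u) : (X.nw σ G D).IncC σ K Ψ d' u' := fun ω v k => by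
  obtain ⟨t1, t2⟩ := T.t k.1 k.2.1
  refine ⟨t2, fun φ p r g => ?_⟩
  by_cases z : φ = 0
  · rw [z, zero_dotProduct, abs_zero]; positivity
  obtain ⟨b, z⟩ := Function.ne_iff.1 z
  have y := abs_le.1 (wt e (g b z ▸ T.ok.m0 b) (g b z ▸ T.w1 b))
  have x : φ ⬝ᵥ (X.nw σ G D).t ω v = Real.exp (r * D) * (φ ⬝ᵥ X.t ω v) := by
    rw [t1, dotProduct, dotProduct, Finset.mul_sum]
    refine Finset.sum_congr rfl fun e _ => ?_
    by_cases z : φ e = 0
    · simp [z]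
    · rw [g e z]; ring
  rw [x, abs_mul, abs_of_pos (Real.exp_pos _)]
  refine (mul_le_mul_of_nonneg_left ((a ω v (T.at k)).2 φ p r g) (Real.exp_pos _).le).trans ?_
  rw [← Real.exp_add]
  exact ex_le (by linarith [y.1])

theorem Tr.incO (T : X.Tr σ G W) (e : |d - D - d'| ≤ δ) (f : u + W * δ ≤ u')
    (a : X.IncO σ K d u) : (X.nw σ G D).IncO σ K d' u' := fun ω v k => by
  obtain ⟨s, s1, s2⟩ := a ω v (T.at k)
  refine ⟨fun i => Real.exp (σ.η i * D) * s i, fun i => ?_, fun b => ?_⟩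
  · have y := abs_le.1 (wt e (T.ok.et i).le (T.w2 i))
    rw [abs_mul, abs_of_pos (Real.exp_pos _)]
    refine (mul_le_mul_of_nonneg_left (s1 i) (Real.exp_pos _).le).trans ?_
    rw [← Real.exp_add]
    exact ex_le (by linarith [y.1])
  · have y := abs_le.1 (wt e (T.ok.m0 b) (T.w1 b))
    have x : (X.nw σ G D).t ω v b - ∑ i, Real.exp (σ.η i * D) * s i * X.A ω i b =
        Real.exp (σ.μ b * D) * (X.t ω v b - ∑ i, s i * X.A ω i b) := by
      rw [(T.t k.1 k.2.1).1, mul_sub, Finset.mul_sum]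
      congr 1
      refine Finset.sum_congr rfl fun i _ => ?_
      by_cases z : X.A ω i b = 0
      · simp [z]
      · rw [(T.al ω (T.at k).1).2.2 i b z]; ring
    show |_ - ∑ i, _ * X.A ω i b| * flr σ.μ X.F b ≤ _
    rw [x, abs_mul, abs_of_pos (Real.exp_pos _), mul_assoc]
    refine (mul_le_mul_of_nonneg_left (s2 b) (Real.exp_pos _).le).trans ?_
    rw [← Real.exp_add]
    exact ex_le (by linarith [y.1])

omit [Fintype α] in
theorem Tr.rate (T : X.Tr σ G W) (e : |h - h'| ≤ δ) (f : u + δ ≤ u') (a : X.Rate σ Ψ Ψ' h u) :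
    (X.nw σ G D).Rate σ Ψ Ψ' h' u' := fun ω k φ r g b o y z => by
  rw [da_nw] at o
  have e := abs_le.1 e
  exact (a ω (T.mem.1 k).1 φ r g b (o.up (ex_le (by linarith [e.2])) T.fl (by
    show 0 ≤ X.L; linarith [T.l1])) y z).trans (ex_le (by linarith [e.1]))

omit [Fintype α] in
theorem Tr.dom (T : X.Tr σ G W) (k : ω ∈ (X.nw σ G D).P.S)
    (e : Real.exp (-δ) ≤ pb (cv X.P K (K ω)) G) (E : Ω → Prop) :
    pb (cv (X.nw σ G D).P K (K ω)) E ≤ Real.exp δ * pb (cv X.P K (K ω)) fun v => G v ∧ E v := by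
  rw [← S20.pb_cv_cE (T.mem.1 k).1 (T.mem.1 k).2, ← mul_assoc]
  refine le_mul_of_one_le_left (pb_nonneg _ _) ?_
  refine le_trans (le_of_eq ?_) (mul_le_mul_of_nonneg_left e (Real.exp_pos _).le)
  rw [← Real.exp_add, add_neg_cancel, Real.exp_zero]

omit [Fintype α] in
theorem Tr.rob (T : X.Tr σ G W) {La : ℝ} (k : ω ∈ (X.nw σ G D).P.S)
    (e : Real.exp (-δ) ≤ pb (cv X.P K (K ω)) G) (f : u + δ ≤ u') (a : X.Rob σ K Ψ La u ω) :
    (X.nw σ G D).Rob σ K Ψ La u' ω := fun h φ r y g b c => by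
  rw [da_nw]
  refine (T.dom k e _).trans ((mul_le_mul_of_nonneg_left ((pb_mono fun v _ z => z.2).trans
    (a h φ r y g b c)) (Real.exp_pos _).le).trans ?_)
  rw [← Real.exp_add]
  exact ex_le (by linarith)

omit [Fintype α] in
theorem Tr.ac (T : X.Tr σ G W) {ε : ℝ} (e : |d - D - d'| ≤ δ)
    (dm : ∀ ω ∈ X.P.S, G ω → Real.exp (-ε) ≤ pb (cv X.P K (K ω)) G)
    (f : u + ε + W * δ / σ.L₁ ≤ u') (f' : w' + 2 * (W * δ) ≤ w) (a : X.Ac σ K d u w) :
    (X.nw σ G D).Ac σ K d' u' w' := fun ω k h hh φ E b c p => by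
  have o := T.mem.1 k
  have W0 : 0 ≤ W * δ := (abs_nonneg _).trans (wt e (T.ok.m0 σ.τ) (T.w1 σ.τ))
  refine (T.dom k (dm ω o.1 o.2) _).trans ((mul_le_mul_of_nonneg_left (a ω o.1 (h - W * δ)
    (by linarith) (fun q => Real.exp (W * δ - σ.μ q * (d - D - d')) * φ q) _
    (fun q => ⟨fun z => by rw [(b q).1 z, mul_zero], ?_⟩) ?_ fun v v' x x' y y' => ?_)
    (Real.exp_pos _).le).trans ?_)
  · have y := abs_le.1 (wt e (T.ok.m0 q) (T.w1 q))
    rw [abs_mul, abs_of_pos (Real.exp_pos _)]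
    refine (mul_le_mul_of_nonneg_left (b q).2 (Real.exp_pos _).le).trans ?_
    rw [mul_left_comm, ← Real.exp_add]
    exact mul_le_mul_of_nonneg_left (ex_le (by linarith [y.1])) (zero_le_one.trans T.f1)
  · obtain ⟨i, c⟩ := c
    have y := abs_le.1 (wt e (T.ok.et i).le (T.w2 i))
    have x : (fun q => Real.exp (W * δ - σ.μ q * (d - D - d')) * φ q) ⬝ᵥ X.A ω i =
        Real.exp (W * δ - σ.η i * (d - D - d')) * (φ ⬝ᵥ X.A ω i) := by
      rw [dotProduct, dotProduct, Finset.mul_sum]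
      refine Finset.sum_congr rfl fun q _ => ?_
      by_cases z : X.A ω i q = 0
      · simp [z]
      · rw [(T.al ω o.1).2.2 i q z]; ring
    refine ⟨i, ?_⟩
    rw [x, abs_mul, abs_of_pos (Real.exp_pos _)]
    exact one_le_mul_of_one_le_of_one_le (Real.one_le_exp (by linarith [y.2])) c
  · have m := (T.mem (D := D)).2 ⟨x.2.1, y.1⟩
    have m' := (T.mem (D := D)).2 ⟨x'.2.1, y'.1⟩
    have z := p v v' ⟨k, m, x.2.2⟩ ⟨k, m', x'.2.2⟩ y.2 y'.2
    rw [(T.t m m').1] at z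
    have q : ∑ q, Real.exp (W * δ - σ.μ q * (d - D - d')) * φ q *
        (Real.exp (σ.μ q * d) * X.t v v' q) = Real.exp (W * δ) *
        ∑ q, φ q * (Real.exp (σ.μ q * d') * (Real.exp (σ.μ q * D) * X.t v v' q)) := by
      rw [Finset.mul_sum]
      refine Finset.sum_congr rfl fun q _ => ?_
      have : Real.exp (W * δ - σ.μ q * (d - D - d')) * Real.exp (σ.μ q * d) =
          Real.exp (W * δ) * (Real.exp (σ.μ q * d') * Real.exp (σ.μ q * D)) := by
        simp only [← Real.exp_add]; congr 1; ring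
      linear_combination (φ q * X.t v v' q) * this
    rw [q, abs_mul, abs_of_pos (Real.exp_pos _)]
    refine (mul_le_mul_of_nonneg_left z (Real.exp_pos _).le).trans ?_
    rw [← Real.exp_add]
    exact ex_le (by linarith)
  · rw [← Real.exp_add, sub_div]
    exact ex_le (by linarith)

omit [Fintype α] in
theorem Tr.ht (T : X.Tr σ G W) {ε : ℝ} {i : ℕ} (g : ∀ ω, G ω → G₀ ω)
    (dm : ∀ ω ∈ X.P.S, G ω → Real.exp (-ε) ≤ pb (cv X.P K (K ω)) G)
    (e : |d + h - σ.μ σ.τ * D - (d' + h')| ≤ δ) (e' : |h - h'| ≤ δ)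
    (f : (2 * 2 ^ σ.kf i * (Real.exp δ + 1) * Real.exp δ + 1) *
      (Real.exp ε ^ 2 ^ σ.kf i * Real.exp (u + δ)) ≤ Real.exp u')
    (a : X.Ht σ K G₀ i d h u) : (X.nw σ G D).Ht σ K (fun _ => True) i d' h' u' := fun ω k => by
  have o := T.mem.1 k
  have e := abs_le.1 e
  have a1 := (a ω o.1).le (g := sl (cv (X.nw σ G D).P K (K ω))
    (fun v => ⌊Real.exp (d + h) * X.t ω v σ.τ⌋) fun _ => True) (nn_sl _ _ _) (nn_sl _ _ _)
    (Real.exp_pos ε).le fun y => by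
      rw [sl_coeff, sl_coeff]
      exact (T.dom k (dm ω o.1 o.2) _).trans (mul_le_mul_of_nonneg_left
        (pb_mono fun v _ z => ⟨g v z.1, z.2.2⟩) (Real.exp_pos _).le)
  obtain ⟨c, hc⟩ : ∃ c, c = Real.exp (d' + h' + σ.μ σ.τ * D - (d + h)) := ⟨_, rfl⟩
  have c0 : 0 < c := hc ▸ Real.exp_pos _
  have c1 : c ≤ Real.exp δ := hc ▸ ex_le (by linarith [e.1])
  refine (En.aff _ (u := fun v => ⌊Real.exp (d' + h') * (X.nw σ G D).t ω v σ.τ⌋) (c := c) (b := 0)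
    (L := Real.exp δ + 1) (L' := Real.exp δ) (by positivity) (by positivity) ?_
    (fun v hv _ => ?_) a1).mono ?_
  · rw [abs_of_pos c0, hc, ← Real.exp_add]
    exact Real.one_le_exp (by linarith [e.2])
  · have x : Real.exp (d' + h') * (X.nw σ G D).t ω v σ.τ =
        c * (Real.exp (d + h) * X.t ω v σ.τ) := by
      rw [(T.t k ((S20.mem_cv k v).1 hv).1).1, hc]
      simp only [← mul_assoc, ← Real.exp_add]
      congr 2
      ring
    simp only [x]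
    have b1 := mul_le_mul_of_nonneg_left (Int.floor_le (Real.exp (d + h) * X.t ω v σ.τ)) c0.le
    have b2 := mul_le_mul_of_nonneg_left
      (Int.lt_floor_add_one (Real.exp (d + h) * X.t ω v σ.τ)).le c0.le
    rw [abs_le]
    constructor <;> linarith [Int.floor_le (c * (Real.exp (d + h) * X.t ω v σ.τ)),
      Int.lt_floor_add_one (c * (Real.exp (d + h) * X.t ω v σ.τ))]
  · have θ0 : (0 : ℝ) < 1 / (i + 1 : ℝ) := by positivity
    have θ1 : 1 / (i + 1 : ℝ) ≤ 1 := by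
      rw [div_le_one (by positivity)]; linarith [Nat.cast_nonneg (α := ℝ) i]
    have y : |(1 - 1 / (i + 1 : ℝ)) * (h - h')| ≤ δ := by
      rw [abs_mul, abs_of_nonneg (by linarith)]
      exact (mul_le_of_le_one_left (abs_nonneg _) (by linarith)).trans e'
    rw [sub_eq_add_neg u', Real.exp_add u']
    refine le_trans ?_ (mul_le_mul_of_nonneg_right f (Real.exp_pos _).le)
    rw [mul_assoc _ (_ * Real.exp (u + δ)), mul_assoc _ (Real.exp (u + δ)), ← Real.exp_add]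
    refine mul_le_mul_of_nonneg_left (mul_le_mul_of_nonneg_left (ex_le ?_) (by positivity))
      (by positivity)
    linarith [(abs_le.1 y).1]

end Ba

end Pool.Agent.MP_5168f5_an.QA.Cp
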