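import Pool.Agent.MP_5168f5_an.AN.Spec
import Pool.Agent.MP_5168f5_an.AN.C1B
import Pool.Agent.MP_5168f5_an.AN.SpecE
import Pool.Agent.MP_5168f5_an.QA.HDefs
import Pool.Agent.MP_5168f5_an.MX.RedDefs

/-! The maximal estimate in all dimensions: labels, potential, classes. -/

namespace Pool.Agent.MP_5168f5_an.QA

open H19 H17S H17F R4 AN Filter MvPolynomial Finset
open C1 (PD Hb Adm rho)
open En (tb)
open Nc (Pl ev jac)
open K31 (Dn)

/-! ### Norms on polynomials -/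

/-- Polynomials of degree at most `D` on the space of dimension `N + 1`. -/
abbrev VD (N D : ℕ) : Type := PD (N + 1) D

/-- The dimension. -/
noncomputable def dV (N D : ℕ) : ℕ := Module.finrank ℝ (VD N D)

section Norms

variable {N D : ℕ}

/-- The Euclidean norm of the coefficients. -/
noncomputable def Bn (F : VD N D) : ℝ := √(∑ m ∈ F.1.support, coeff m F.1 ^ 2)

/-- The sum of the depths of the `k` longest axes. -/
noncomputable def sg (k : ℕ) (ν : VD N D → ℝ) : ℝ := -Real.log (rho k ν Bn)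

/-- The reward for thin axes. -/
noncomputable def Psi (η : ℝ) (ν : VD N D → ℝ) : ℝ := ∑ k ∈ range (dV N D + 1), η ^ k * sg k ν

/-- The distance of the spectrum from a centre. -/
noncomputable def pen (cen : ℕ → ℝ) (ν : VD N D → ℝ) : ℝ :=
  ∑ k ∈ range (dV N D + 1), |sg k ν - cen k|

/-- The distance of two spectra. -/
noncomputable def dsp (ν ν' : VD N D → ℝ) : ℝ := pen (fun k => sg k ν') ν

/-- The class of the spectrum at accuracy `w`. -/
noncomputable def cl (w : ℕ) (ν : VD N D → ℝ) (k : ℕ) : ℤ := ⌊sg k ν / w⌋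

/-- Two norms agree up to the factor `exp r`. -/
def Nr (r : ℝ) (ν ν' : VD N D → ℝ) : Prop :=
  ∀ F, ν F ≤ Real.exp r * ν' F ∧ ν' F ≤ Real.exp r * ν F

/-- The distance of two norms. -/
noncomputable def ds (ν ν' : VD N D → ℝ) : ℝ :=
  max (Real.log (rho 1 ν ν')) (Real.log (rho 1 ν' ν))

/-- The largest norm below two norms. -/
noncomputable def mt (ν ν' : VD N D → ℝ) (F : VD N D) : ℝ :=
  sSup {r | ∃ φ : VD N D →ₗ[ℝ] ℝ, Adm ν φ ∧ Adm ν' φ ∧ r = |φ F|}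

/-- The gain of the meet, without the last axis. -/
noncomputable def gn (η : ℝ) (ν ν' : VD N D → ℝ) : ℝ :=
  ∑ k ∈ range (dV N D), η ^ k * (sg k (mt ν ν') - sg k ν)

/-- A chart. -/
abbrev Ch (N D : ℕ) : Type := Fin (N + 1) → VD N D

/-- The point in the chart. -/
noncomputable def uc (Φ : Ch N D) (y : V (N + 1)) : V (N + 1) := ev (fun i => (Φ i).1) y

/-- The Jacobian of a chart. -/
noncomputable def jc (Φ : Ch N D) (y : V (N + 1)) : ℝ := |eval y (jac fun i => (Φ i).1)|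

/-- The chart has norm at most one. -/
def Un (ν : VD N D → ℝ) (Φ : Ch N D) : Prop := ∀ i, ν (Φ i) ≤ 1

/-- The chart has degree at most `E`. -/
def Lo (E : ℕ) (Φ : Ch N D) : Prop := ∀ i, (Φ i).1.totalDegree ≤ E

end Norms

/-! ### Lines, segments, labels -/

/-- A line and a height. -/
structure Sh (N : ℕ) (Ω : Type) : Type where
  a : Ω → V N
  e : Ω → V N
  z : Ω → ℝ

/-- A line. -/
abbrev Ln (N : ℕ) : Type := V N × V N

namespace Sh

variable {N : ℕ} {Ω W : Type} (g : Sh N Ω)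

/-- The line. -/
def l (ω : Ω) : Ln N := (g.a ω, g.e ω)

/-- The height at resolution `2^{-c}`. -/
noncomputable def zc (c : ℕ) (ω : Ω) : ℤ := fl1 c (g.z ω)

/-- The line and the height at resolution `2^{-c}`. -/
noncomputable def O (c : ℕ) (ω : Ω) : Ln N × ℤ := (g.l ω, fl1 c (g.z ω))

/-- A variable together with the height at resolution `2^{-c}`. -/
noncomputable def cx {Λ : Type} (c : ℕ) (T : Ω → Λ) (ω : Ω) : Λ × ℤ := (T ω, fl1 c (g.z ω))

/-- Pull back. -/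
abbrev pull (π : W → Ω) : Sh N W := ⟨fun v => g.a (π v), fun v => g.e (π v), fun v => g.z (π v)⟩

/-- The bounds. -/
def Box (P : FP Ω) : Prop := ∀ ω ∈ P.S, ‖g.a ω‖ ≤ 1 ∧ ‖g.e ω‖ ≤ 1 ∧ 0 ≤ g.z ω ∧ g.z ω < 1

end Sh

/-- The shaded line of a configuration. -/
abbrev shOf {N : ℕ} (x : Cfg N) : Sh N x.Ω := ⟨x.a, x.e, x.z⟩

/-- The tube of width `r 2^{-M}` around `l` over the dyadic interval `h` of level `c`. -/
def seg {N : ℕ} (M c : ℕ) (l : Ln N) (h : ℤ) (r : ℝ) : Set (V (N + 1)) :=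
  {y | ∃ (t : ℝ) (ξ : V N), (h : ℝ) ≤ 2 ^ c * t ∧ 2 ^ c * t ≤ h + 1 ∧ ‖ξ‖ ≤ r ∧
    y = tb M l.1 l.2 t ξ}

/-- A declared datum: a norm, a Jacobian and a height interval. -/
structure Dc (N D : ℕ) : Type where
  ν : VD N D → ℝ
  J : ℝ
  h : ℤ

section One

variable {N D : ℕ} {Ω Λ : Type}

/-- The chart `Φ` shows the Jacobian of the datum on the line `l`. -/
def Dc.Wit (δ : Dc N D) (M c : ℕ) (l : Ln N) (Φ : Ch N D) : Prop :=
  Un δ.ν Φ ∧ ∃ y ∈ seg M c l δ.h 4, δ.J ≤ jc Φ y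

/-- The datum is correct for the line `l` at level `c`. -/
structure Dc.Ok (δ : Dc N D) (M c : ℕ) (l : Ln N) : Prop where
  hb : Hb δ.ν
  pos : 0 < δ.J
  bd : ∀ y ∈ seg M c l δ.h 5, ∀ F : VD N D, |eval y F.1| ≤ δ.ν F
  wit : ∃ Φ, δ.Wit M c l Φ

/-- The declared Jacobian is the largest one up to the factor `exp s`. -/
def Dc.Tight (δ : Dc N D) (M c : ℕ) (l : Ln N) (s : ℝ) : Prop :=
  ∀ Φ, Un δ.ν Φ → ∀ y ∈ seg M c l δ.h 5, jc Φ y ≤ Real.exp s * δ.J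

/-- A label of level `c`. -/
def Val (P : FP Ω) (g : Sh N Ω) (M c : ℕ) (A : Ω → Dc N D) : Prop :=
  ∀ ω ∈ P.S, (A ω).h = fl1 c (g.z ω) ∧ (A ω).Ok M c (g.l ω)

/-- A penalty. -/
def Pn (θ : ℝ) (p : ℝ → ℝ) : Prop :=
  p 0 = 0 ∧ ∀ x y, 0 ≤ x → x ≤ y → p x ≤ p y ∧ p y ≤ p x + θ * (y - x)

/-- The score of a datum. -/
noncomputable def sco (η : ℝ) (δ : Dc N D) : ℝ := Real.log δ.J + Psi η δ.ν

/-- The value of a label. -/
noncomputable def val (η : ℝ) (P : FP Ω) (g : Sh N Ω) (M c : ℕ) (A : Ω → Dc N D) : ℝ :=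
  ch P g.l A + P.E (fun ω => sco η (A ω)) - (c + N * M) * lg

/-- The cost of a label. -/
noncomputable def cst (η : ℝ) (P : FP Ω) (g : Sh N Ω) (c : ℕ) (A : Ω → Dc N D) : ℝ :=
  ch P A (g.zc c) - P.E fun ω => sco η (A ω)

/-- The mean penalty. -/
noncomputable def pE (p : ℝ → ℝ) (cen : ℕ → ℝ) (P : FP Ω) (A : Ω → Dc N D) : ℝ :=
  P.E fun ω => p (pen cen (A ω).ν)

/-- `S` has the least cost with penalty, up to `e`, on all laws of bounded density. -/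
def Opt (η : ℝ) (p : ℝ → ℝ) (cen : ℕ → ℝ) (P : FP Ω) (g : Sh N Ω) (M c : ℕ) (S : Ω → Dc N D)
    (e : ℝ) : Prop :=
  ∀ (W : Type) (Q : FP W) (π : W → Ω) (b : ℝ) (R : W → Dc N D), Dn b Q π P →
    Val Q (g.pull π) M c R → cst η Q (g.pull π) c (fun v => S (π v)) + pE p cen Q (fun v => S (π v))
      ≤ cst η Q (g.pull π) c R + pE p cen Q R + Real.log b + e

/-- `S` has the least cost up to `e` and `θ` times the distance of the spectra. -/
def Opd (η θ : ℝ) (P : FP Ω) (g : Sh N Ω) (M c : ℕ) (S : Ω → Dc N D) (e : ℝ) : Prop :=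
  ∀ (W : Type) (Q : FP W) (π : W → Ω) (b : ℝ) (R : W → Dc N D), Dn b Q π P →
    Val Q (g.pull π) M c R → cst η Q (g.pull π) c (fun v => S (π v)) ≤
      cst η Q (g.pull π) c R + θ * Q.E (fun v => dsp (R v).ν (S (π v)).ν) + Real.log b + e

/-- A chart of degree at most `E` shows the Jacobian of the datum up to the factor `exp s`. -/
def Dc.Low (δ : Dc N D) (E M c : ℕ) (l : Ln N) (s : ℝ) : Prop :=
  ∃ Φ, Lo E Φ ∧ Un δ.ν Φ ∧ ∃ y ∈ seg M c l δ.h 4, δ.J ≤ Real.exp s * jc Φ y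

/-- The space with a grid point. -/
abbrev NW (Ω : Type) (N J : ℕ) : Type := Ω × (Fin (N + 1) → Fin (2 ^ J))

/-- The law with a uniform grid point. -/
noncomputable abbrev NQ (P : FP Ω) (N J : ℕ) : FP (NW Ω N J) := prod P (grid (N + 1) J)

/-- The virtual point: uniform on the tube over the interval of level `c`. -/
noncomputable def vp (g : Sh N Ω) (M c J : ℕ) (v : NW Ω N J) : V (N + 1) :=
  tb M (g.a v.1) (g.e v.1) ((fl1 c (g.z v.1) + gp v.2 0) / 2 ^ c) fun i => gp v.2 i.succ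

/-- The cube of depth `m` of the virtual point in the chart. -/
noncomputable def cub (g : Sh N Ω) (M c J : ℕ) (Φ : Ω → Ch N D) (m : Ω → ℕ) (v : NW Ω N J) :
    Z (N + 1) := fl (m v.1) (uc (Φ v.1) (vp g M c J v))

/-- The deficiency of the cube given the context. -/
noncomputable def gap (P : FP Ω) (g : Sh N Ω) (M c J : ℕ) (T : Ω → Λ) (Φ : Ω → Ch N D)
    (m : Ω → ℕ) : ℝ :=
  (N + 1) * lg * P.E (fun ω => m ω) - ch (NQ P N J) (cub g M c J Φ m) fun v => g.cx c T v.1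

/-- The cost of the context `T` with the datum `A`, seen through the cube. -/
noncomputable def cof (η : ℝ) (P : FP Ω) (g : Sh N Ω) (M c J : ℕ) (T : Ω → Λ) (A : Ω → Dc N D)
    (Φ : Ω → Ch N D) (m : Ω → ℕ) : ℝ :=
  ch P T (g.zc c) - gap P g M c J T Φ m - P.E fun ω => sco η (A ω)

end One

/-! ### Systems of labels -/

/-- A law of shaded lines with the depth `M`, a unit `u`, levels, labels, a base spectrum and a
base Jacobian. -/
structure St (N D : ℕ) : Type 1 where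
  Ω : Type
  P : FP Ω
  g : Sh N Ω
  M : ℕ
  u : ℕ
  lv : ℚ → ℕ
  S : ℚ → Ω → Dc N D
  s0 : ℕ → ℝ
  j0 : ℝ

namespace St

variable {N D : ℕ} (X : St N D)

/-- The same data under a new law. -/
abbrev pull {W : Type} (Q : FP W) (π : W → X.Ω) : St N D :=
  ⟨W, Q, X.g.pull π, X.M, X.u, X.lv, fun x v => X.S x (π v), X.s0, X.j0⟩

/-- The line and the height at the level `x`. -/
noncomputable def O (x : ℚ) : X.Ω → Ln N × ℤ := X.g.O (X.lv x)

/-- The value at the level `x`. -/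
noncomputable def vl (η : ℝ) (x : ℚ) : ℝ := val η X.P X.g X.M (X.lv x) (X.S x)

/-- The centre of the spectrum at the level `x`. -/
noncomputable def cen (σ : ℕ → ℚ → ℝ) (x : ℚ) (k : ℕ) : ℝ := X.s0 k + σ k x * X.u

end St

section Classes

variable {N D : ℕ} (X : ℕ → St N D) (I : Set ℚ)

/-- The units. -/
abbrev uu : ℕ → ℕ := fun n => (X n).u

/-- The laws. -/
abbrev PP : ∀ n, FP (X n).Ω := fun n => (X n).P

/-- Optimal labels with the spectral profile `σ`. -/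
structure Tb (η θ : ℝ) (σ : ℕ → ℚ → ℝ) : Prop where
  big : Big (uu X)
  box : ∀ᶠ n in UF, (X n).g.Box (X n).P
  top : ∀ x ∈ I, ∀ᶠ n in UF, (X n).lv x ≤ (X n).M
  mono : ∀ x ∈ I, ∀ x' ∈ I, x ≤ x' → ∀ᶠ n in UF, (X n).lv x ≤ (X n).lv x'
  lev : ∀ x ∈ I, ∀ x' ∈ I,
    Le (uu X) (fun n => ((X n).lv x' : ℝ) - (X n).lv x) fun n => ((x' : ℝ) - x) * (X n).u
  val : ∀ x ∈ I, ∀ᶠ n in UF, Val (X n).P (X n).g (X n).M ((X n).lv x) ((X n).S x)
  fn : ∀ x ∈ I, FnE (PP X) (fun n => (X n).S x) fun n => (X n).O x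
  opt : ∀ x ∈ I, ∀ ε : ℝ, 0 < ε → ∀ᶠ n in UF,
    Opd η θ (X n).P (X n).g (X n).M ((X n).lv x) ((X n).S x) (ε * (X n).u)
  spec : ∀ x ∈ I, ∀ ε : ℝ, 0 < ε → ∀ᶠ n in UF, ∀ ω ∈ (X n).P.S,
    pen ((X n).cen σ x) ((X n).S x ω).ν ≤ ε * (X n).u

/-- The heights given the line have flat iterated differences, up to the bad mass `b`. -/
def Htb (kf : ℕ → ℕ) (b : ℕ → ℚ → ℝ) : Prop := ∀ i : ℕ, ∀ x ∈ I, ∀ x' ∈ I, ∀ c c' : ℕ → ℕ,
  (∀ᶠ n in UF, (X n).lv x ≤ c n ∧ c n ≤ c' n ∧ c' n ≤ (X n).lv x') →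
  HT1 (kf i) (PP X) (fun n ω => 2 ^ c' n * (X n).g.z ω) (fun n => (X n).g.O (c n)) (uu X)
    fun n => (1 - 1 / (i + 1 : ℝ)) * ((c' n : ℝ) - c n) * lg - (b i x' - b i x) * (X n).u

/-- The values have the profile `φ` under all laws of bounded density. -/
def Los (η : ℝ) (φ : ℚ → ℝ) : Prop := ∀ x ∈ I, ∀ x' ∈ I, ∀ ε : ℝ, 0 < ε → ∀ᶠ n in UF,
  ∀ (W : Type) (Q : FP W) (π : W → (X n).Ω) (b : ℝ), Dn b Q π (X n).P →
    ((X n).pull Q π).vl η x' + (φ x - φ x') * (X n).u ≤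
      ((X n).pull Q π).vl η x + Real.log b + ε * (X n).u

/-- The norms move with speed at most `Γ`. -/
def Lip (Γ : ℝ) : Prop := ∀ x ∈ I, ∀ x' ∈ I, ∀ ε : ℝ, 0 < ε → ∀ᶠ n in UF, ∀ ω ∈ (X n).P.S,
  Nr ((Γ * |(x : ℝ) - x'| + ε) * (X n).u) ((X n).S x ω).ν ((X n).S x' ω).ν

/-- The declared Jacobians have the profile `ψ`. -/
def Jpr (ψ : ℚ → ℝ) : Prop := ∀ x ∈ I, ∀ ε : ℝ, 0 < ε → ∀ᶠ n in UF, ∀ ω ∈ (X n).P.S,
  |Real.log ((X n).S x ω).J - ((X n).j0 + ψ x * (X n).u)| ≤ ε * (X n).u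

/-- The declared Jacobians are the largest ones and are shown by charts of degree `E`. -/
def Tig (E : ℕ) : Prop := ∀ x ∈ I, ∀ ε : ℝ, 0 < ε → ∀ᶠ n in UF, ∀ ω ∈ (X n).P.S,
  ((X n).S x ω).Tight (X n).M ((X n).lv x) ((X n).g.l ω) (ε * (X n).u) ∧
    ((X n).S x ω).Low E (X n).M ((X n).lv x) ((X n).g.l ω) (ε * (X n).u)

/-- The tangent system, first form. -/
structure T1' (η θ β js : ℝ) (kf : ℕ → ℕ) (sl : ℕ → ℝ) : Prop where
  tb : Tb X Set.univ η θ fun k x => sl k * x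
  ht : Htb X Set.univ kf fun _ _ => 0
  los : Los X Set.univ η fun x => β * x
  jpr : Jpr X Set.univ fun x => js * x
  drift : θ * ∑ k ∈ range (dV N D + 1), |sl k| ≤ β / 8

/-- The tangent system. -/
structure T1 (E : ℕ) (η θ β js Γ : ℝ) (kf : ℕ → ℕ) (sl : ℕ → ℝ) : Prop
    extends T1' X η θ β js kf sl where
  lip : Lip X Set.univ Γ
  tig : Tig X Set.univ E

end Classes

end Pool.Agent.MP_5168f5_an.QA
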