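import Pool.Agent.MP_5168f5_an.AN.GAApi
import Pool.Agent.MP_5168f5_an.R4.Api

/-! Dichotomies on events of positive probability, and uniform bounds from sequences. -/

namespace Pool.Agent.MP_5168f5_an.QA.Di

open H19 H17S H17F R4 AN Filter
open G39 (dl OB OS dl_pos dl_anti dl_inv)
open GA (Neg Big1)

section Ev

variable {Ω : ℕ → Type} {P : ∀ n, FP (Ω n)}

theorem whp_of_not {E : ∀ n, Ω n → Prop} (h : ¬Pos P E) : Whp P fun n ω => ¬E n ω := by
  by_contra k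
  exact h ((not_whp k).mono (.of_forall fun _ _ _ a => not_not.1 a))

/-- Countably many likely events hold together along a slow sequence. -/
theorem whp_le {E : ℕ → ∀ n, Ω n → Prop} (h : ∀ k, Whp P (E k)) :
    ∃ m : ℕ → ℕ, Tendsto m UF atTop ∧ Whp P fun n ω => ∀ k ≤ m n, E k n ω := by
  obtain ⟨m, a, b⟩ := ks.spill (fun i n => pb (P n)
    (fun ω => ¬∀ k : Fin (i + 1), E k n ω) ≤ 1 / (i + 1 : ℝ)) fun i =>
      Whp.all (fun k : Fin (i + 1) => h k) _ (by positivity)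
  refine ⟨m, a, fun ε hε => ?_⟩
  filter_upwards [b, K31.small hε a] with n c d
  refine (pb_mono fun ω _ e f => e fun k hk => ?_).trans ((c _ le_rfl).trans d)
  exact f ⟨k, Nat.lt_succ_of_le hk⟩

/-- On an event of positive probability, read from the events `E j k`, every ladder `E j` either
holds at a fixed step or fails at all steps. -/
theorem ladder {J : Type} [Finite J] (E : J → ℕ → ∀ n, Ω n → Prop) :
    ∃ (G : ∀ n, Ω n → Prop) (p : J → Prop), Pos P G ∧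
      (∀ n ω v, (∀ j k, E j k n ω ↔ E j k n v) → G n ω → G n v) ∧
      (∀ j, p j → ∃ k, ∀ n ω, G n ω → E j k n ω) ∧
      ∀ j, ¬p j → ∀ k, ∀ᶠ n in UF, ∀ ω, G n ω → ¬E j k n ω := by
  classical
  have := Fintype.ofFinite J
  have key : ∀ T : Finset J, ∃ (G : ∀ n, Ω n → Prop) (p : J → Prop), Pos P G ∧
      (∀ n ω v, (∀ j k, E j k n ω ↔ E j k n v) → G n ω → G n v) ∧
      (∀ j ∈ T, p j → ∃ k, ∀ n ω, G n ω → E j k n ω) ∧
      ∀ j ∈ T, ¬p j → ∀ k, ∀ᶠ n in UF, ∀ ω, G n ω → ¬E j k n ω := fun T => by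
    induction T using Finset.induction_on with
    | empty => exact ⟨fun _ _ => True, fun _ => True, pos_true, fun _ _ _ _ a => a, by simp, by simp⟩
    | insert a T ha ih =>
      obtain ⟨G, p, h1, h2, h3, h4⟩ := ih
      have ne : ∀ j ∈ T, j ≠ a := fun j c e => ha (e ▸ c)
      by_cases c : ∃ k, Pos P fun n ω => G n ω ∧ E a k n ω
      · obtain ⟨k, c⟩ := c
        refine ⟨_, Function.update p a True, c, fun n ω v e f => ⟨h2 n ω v e f.1, (e a k).1 f.2⟩,
          fun j hj e => ?_, fun j hj e i => ?_⟩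
        · rcases Finset.mem_insert.1 hj with rfl | hj
          · exact ⟨k, fun _ _ f => f.2⟩
          · rw [Function.update_of_ne (ne j hj)] at e
            exact (h3 j hj e).imp fun _ f n ω g => f n ω g.1
        · rcases Finset.mem_insert.1 hj with rfl | hj
          · simp at e
          · rw [Function.update_of_ne (ne j hj)] at e
            exact (h4 j hj e i).mono fun n f ω g => f ω g.1
      · obtain ⟨m, m1, m2⟩ := whp_le fun k => whp_of_not fun e => c ⟨k, e⟩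
        refine ⟨fun n ω => G n ω ∧ ∀ k ≤ m n, ¬E a k n ω, Function.update p a False,
          (h1.and m2).mono (.of_forall fun n ω _ e => ⟨e.1, fun k f g => e.2 k f ⟨e.1, g⟩⟩),
          fun n ω v e f => ⟨h2 n ω v e f.1, fun k g u => f.2 k g ((e a k).2 u)⟩,
          fun j hj e => ?_, fun j hj e i => ?_⟩
        · rcases Finset.mem_insert.1 hj with rfl | hj
          · simp at e
          · rw [Function.update_of_ne (ne j hj)] at e
            exact (h3 j hj e).imp fun _ f n ω g => f n ω g.1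
        · rcases Finset.mem_insert.1 hj with rfl | hj
          · exact (m1.eventually_ge_atTop i).mono fun n f ω g => g.2 i f
          · rw [Function.update_of_ne (ne j hj)] at e
            exact (h4 j hj e i).mono fun n f ω g => f ω g.1
  obtain ⟨G, p, h1, h2, h3, h4⟩ := key Finset.univ
  exact ⟨G, p, h1, h2, fun j => h3 j (Finset.mem_univ j), fun j => h4 j (Finset.mem_univ j)⟩

variable (P) (M : ℕ → ℕ) {J : Type} [Finite J] (c : J → ∀ n, Ω n → ℝ)

/-- Power small or of unit size. -/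
theorem dich : ∃ (G : ∀ n, Ω n → Prop) (p : J → Prop) (γ : ℝ), Pos P G ∧ 0 < γ ∧
    (∀ n ω v, (∀ j, c j n ω = c j n v) → G n ω → G n v) ∧
    (∀ j, p j → ∀ n ω, G n ω → |c j n ω| ≤ dl M γ n) ∧
    ∀ j, ¬p j → ∀ ε : ℝ, 0 < ε → ∀ᶠ n in UF, ∀ ω, G n ω → dl M ε n ≤ |c j n ω| := by
  obtain ⟨G, p, h1, h2, h3, h4⟩ := ladder (P := P)
    fun j k n ω => |c j n ω| ≤ dl M (1 / (k + 1 : ℝ)) n
  choose! k hk using h3
  obtain ⟨K, hK⟩ := (Set.finite_range k).bddAbove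
  refine ⟨G, p, 1 / (K + 1 : ℝ), h1, by positivity, fun n ω v e => h2 n ω v fun j _ => by rw [e],
    fun j e n ω g => (hk j e n ω g).trans (dl_anti M (Nat.one_div_le_one_div (hK ⟨j, rfl⟩)) n),
    fun j e ε hε => ?_⟩
  obtain ⟨i, hi⟩ := exists_nat_one_div_lt hε
  exact (h4 j e i).mono fun n a ω g => (dl_anti M hi.le n).trans (not_le.1 (a ω g)).le

/-- Negligible or at least a power. -/
theorem dichN : ∃ (G : ∀ n, Ω n → Prop) (p : J → Prop) (C : ℝ), Pos P G ∧ 0 ≤ C ∧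
    (∀ n ω v, (∀ j, c j n ω = c j n v) → G n ω → G n v) ∧
    (∀ j, p j → ∀ n ω, G n ω → dl M C n ≤ |c j n ω|) ∧
    ∀ j, ¬p j → ∀ K : ℝ, ∀ᶠ n in UF, ∀ ω, G n ω → |c j n ω| ≤ dl M K n := by
  obtain ⟨G, p, h1, h2, h3, h4⟩ := ladder (P := P) fun j k n ω => dl M k n ≤ |c j n ω|
  choose! k hk using h3
  obtain ⟨K, hK⟩ := (Set.finite_range k).bddAbove
  refine ⟨G, p, K, h1, Nat.cast_nonneg _, fun n ω v e => h2 n ω v fun j _ => by rw [e],
    fun j e n ω g => (dl_anti M (by exact_mod_cast hK ⟨j, rfl⟩) n).trans (hk j e n ω g),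
    fun j e C => ?_⟩
  exact (h4 j e ⌈C⌉₊).mono fun n a ω g =>
    (not_le.1 (a ω g)).le.trans (dl_anti M (Nat.le_ceil C) n)

end Ev

section Sq

variable {A : ℕ → Sort*} [∀ n, Nonempty (A n)] {h : ∀ n, A n → Prop} {M : ℕ → ℕ}
  {f : ∀ n, A n → ℝ}

theorem sq_neg (H : ∀ a : ∀ n, A n, (∀ᶠ n in UF, h n (a n)) → Neg M fun n => f n (a n)) (K : ℝ) :
    ∀ᶠ n in UF, ∀ a, h n a → |f n a| ≤ dl M K n := unif fun a e => H a e K

theorem sq_big (H : ∀ a : ∀ n, A n, (∀ᶠ n in UF, h n (a n)) → Big1 M fun n => f n (a n)) {ε : ℝ}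
    (hε : 0 < ε) : ∀ᶠ n in UF, ∀ a, h n a → dl M ε n ≤ |f n a| := unif fun a e => H a e ε hε

theorem sq_ob' (H : ∀ a : ∀ n, A n, (∀ᶠ n in UF, h n (a n)) → OB M fun n => f n (a n)) {ε : ℝ}
    (hε : 0 < ε) : ∀ᶠ n in UF, ∀ a, h n a → |f n a| ≤ Real.exp (ε * M n) :=
  unif fun a e => (H a e ε hε).mono fun n b => by rwa [dl_inv] at b

/-- A subexponential bound from bounds for every rate. -/
theorem sub_of {p : ℕ → ℝ → Prop} (H : ∀ ε : ℝ, 0 < ε → ∀ᶠ n in UF, p n (Real.exp (ε * M n))) :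
    ∃ L, Sub M L ∧ ∀ᶠ n in UF, p n (L n) :=
  sub_iff.2 fun ε hε => (H ε hε).mono fun n a =>
    ⟨_, Real.one_le_exp (by positivity), le_rfl, a⟩

theorem sq_ob (H : ∀ a : ∀ n, A n, (∀ᶠ n in UF, h n (a n)) → OB M fun n => f n (a n)) :
    ∃ L, Sub M L ∧ ∀ᶠ n in UF, ∀ a, h n a → |f n a| ≤ L n :=
  sub_of (p := fun n L => ∀ a, h n a → |f n a| ≤ L) fun _ hε => sq_ob' H hε

/-- A ladder that stops for every sequence stops uniformly. -/
theorem sq_ex {q : ℕ → ∀ n, A n → Prop} (hq : ∀ k k' n a, k ≤ k' → q k n a → q k' n a)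
    (H : ∀ a : ∀ n, A n, (∀ᶠ n in UF, h n (a n)) → ∃ k, ∀ᶠ n in UF, q k n (a n)) :
    ∃ k, ∀ᶠ n in UF, ∀ a, h n a → q k n a := by
  by_contra c
  obtain ⟨m, m1, m2⟩ := ks.spill (fun k n => ¬∀ a, h n a → q k n a) fun k =>
    not_ev.1 fun e => c ⟨k, e⟩
  have := unif (h := h) (p := fun n a => q (m n) n a) fun a e => by
    obtain ⟨k, g⟩ := H a e
    filter_upwards [g, m1.eventually_ge_atTop k] with n x y using hq _ _ _ _ y x
  obtain ⟨n, x, y⟩ := (this.and m2).exists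
  exact y _ le_rfl x

theorem sq_os (H : ∀ a : ∀ n, A n, (∀ᶠ n in UF, h n (a n)) → OS M fun n => f n (a n)) :
    ∃ γ : ℝ, 0 < γ ∧ ∀ᶠ n in UF, ∀ a, h n a → |f n a| ≤ dl M γ n := by
  obtain ⟨k, e⟩ := sq_ex (h := h) (q := fun k n a => |f n a| ≤ dl M (1 / (k + 1 : ℝ)) n)
    (fun k k' n a x y => y.trans (dl_anti M (Nat.one_div_le_one_div x) n)) fun a e => by
      obtain ⟨γ, g0, g⟩ := H a e
      obtain ⟨i, hi⟩ := exists_nat_one_div_lt g0
      exact ⟨i, g.mono fun n x => x.trans (dl_anti M hi.le n)⟩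
  exact ⟨_, by positivity, e⟩

omit [∀ n, Nonempty (A n)] in
theorem ob_sq {L : ℕ → ℝ} (hL : Sub M L) (H : ∀ᶠ n in UF, ∀ a, h n a → |f n a| ≤ L n)
    (a : ∀ n, A n) (e : ∀ᶠ n in UF, h n (a n)) : OB M fun n => f n (a n) := fun c hc => by
  filter_upwards [H, e, G39.sub_dl hL hc] with n x y z using (x _ y).trans z

omit [∀ n, Nonempty (A n)] in
theorem neg_sq (H : ∀ K : ℝ, ∀ᶠ n in UF, ∀ a, h n a → |f n a| ≤ dl M K n)
    (a : ∀ n, A n) (e : ∀ᶠ n in UF, h n (a n)) : Neg M fun n => f n (a n) := fun K => by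
  filter_upwards [H K, e] with n x y using x _ y

theorem os_or (M : ℕ → ℕ) (u : ℕ → ℝ) : OS M u ∨ Big1 M u := by
  refine (em (OS M u)).imp_right fun c ε hε => (not_ev.1 fun e => c ⟨ε, hε, e⟩).mono ?_
  exact fun n a => (not_le.1 a).le

end Sq

theorem ne_om {Ω : ℕ → Type} (P : ∀ n, FP (Ω n)) (n : ℕ) : Nonempty (Ω n) :=
  (ex_of_pb (P := P n) (E := fun _ => True) (by rw [pb_true]; exact one_pos)).elim fun ω _ => ⟨ω⟩

end Pool.Agent.MP_5168f5_an.QA.Di
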