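import Pool.Agent.MP_5168f5_an.QA.Nlv
import Pool.Agent.MP_5168f5_an.QA.Gain
import Pool.Agent.MP_5168f5_an.QA.Spec1

/-! Every level of a system of optimal labels is optimal in the sense of one level. -/

namespace Pool.Agent.MP_5168f5_an.QA

open H19 H17S H17F R4 AN Filter

variable {N D : ℕ} {X : ℕ → St N D} {I : Set ℚ} {η θ C : ℝ} {σ : ℕ → ℚ → ℝ} {x : ℚ}

theorem Tb.o1 (h : Tb X I η θ σ) (h0 : 0 < η) (h1 : η ≤ 1) (h2 : 0 ≤ θ)
    (h3 : 2 * (dV N D + 1) * θ ≤ η ^ dV N D) (hx : x ∈ I) :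
    O1 (η ^ dV N D / 2) (PP X) (fun n => (X n).g) (fun n => (X n).M) (fun n => (X n).lv x) (uu X)
      fun n => (X n).S x where
  pos := by positivity
  big := h.big
  box := h.box
  val := h.val x hx
  opt ε hε := by
    obtain ⟨C, -, k⟩ := sOpG N D
    have d0 : (0 : ℝ) ≤ dV N D := Nat.cast_nonneg _
    filter_upwards [h.opt x hx _ (half_pos hε), h.val x hx, h.big.sm C _ (half_pos hε)]
      with n a1 a2 a3
    exact (k η θ _ _ _ _ _ _ _ h0 h1 h2 (by nlinarith [pow_le_one₀ h0.le h1 (n := dV N D)]) h3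
      a2 a1).mono (by linarith)

theorem Tb.o1' (h : Tb X I η θ σ) (p : Par N D C η θ) (c : 2 * ((dV N D : ℝ) + 1) ≤ C)
    (hx : x ∈ I) :
    O1 (η ^ dV N D / 2) (PP X) (fun n => (X n).g) (fun n => (X n).M) (fun n => (X n).lv x) (uu X)
      fun n => (X n).S x :=
  have d0 : (0 : ℝ) ≤ dV N D := Nat.cast_nonneg _
  h.o1 p.1 (by nlinarith [p.1, p.2.1]) p.2.2.1 (p.mono c).2.2.2 hx

end Pool.Agent.MP_5168f5_an.QA
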