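import Pool.Agent.MP_5168f5_an.QA.En5C
import Pool.Agent.MP_5168f5_an.QA.TbO1

/-! The maximal estimate in all dimensions: the sure bounds hold with high probability. -/

namespace Pool.Agent.MP_5168f5_an.QA.En5

open H19 H17S H17F R4 AN Filter MvPolynomial Finset
open G39 (dl)
open C1 (Hb deg_PD)
open En (tb)

theorem shift {W : Type} [AddCommGroup W] [Module ℝ W] {ν : W → ℝ} (h : Hb ν) (F G : W)
    (a b : ℝ) : ν (F - b • G) ≤ ν (F - a • G) + |a - b| * ν G := by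
  have k := h.add (F - a • G) ((a - b) • G)
  rwa [h.smul, sub_smul, sub_add_sub_cancel] at k

section One

variable {N D : ℕ} {Ω : Type} {ν ν' : VD N D → ℝ}

theorem span_le (h : Hb ν) (h' : Hb ν') (L : VD N D →ₗ[ℝ] VD N D) {B : ℝ}
    (e : ∀ a, ν (L (bs ν' a)) ≤ B) (F : VD N D) : ν (L F) ≤ dV N D * (B * ν' F) := by
  obtain ⟨c, c1, c2⟩ := bs_span h' F
  conv_lhs => rw [c1, map_sum]
  simp only [map_smul]
  refine (h.sum _ _ _).trans ((sum_le_card_nsmul _ _ _ fun a _ => ?_).trans_eq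
    (by rw [card_univ, Fintype.card_fin, nsmul_eq_mul]))
  rw [mul_comm B]
  exact mul_le_mul (c2 a) (e a) (h.nonneg _) (h'.nonneg F)

theorem ht_near {M c : ℕ} {l : Ln N} {h : ℤ} {r : ℝ} {y : V (N + 1)} (hy : y ∈ seg M c l h r) :
    |y 0 - h / 2 ^ c| ≤ 1 / 2 ^ c := by
  obtain ⟨s, ξ, a, b, -, rfl⟩ := mem_seg.1 hy
  show |s - h / 2 ^ c| ≤ 1 / 2 ^ c
  exact abs_le.2 ⟨by linarith [show (0 : ℝ) ≤ 1 / 2 ^ c by positivity], by linarith⟩

theorem tp_near {g : Sh N Ω} {ω : Ω} {M c : ℕ} (hc : c ≤ M) (he : ‖g.e ω‖ ≤ 1) {r : ℝ}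
    {y : V (N + 1)} (hy : y ∈ seg M c (g.l ω) (fl1 c (g.z ω)) r) :
    ‖y - g.tp ω‖ ≤ (1 + r) / 2 ^ c := by
  obtain ⟨s, ξ, a, b, k, rfl⟩ := mem_seg.1 hy
  have r0 : 0 ≤ r := by
    have := (norm_nonneg _).trans k
    rwa [le_div_iff₀ (by positivity), zero_mul] at this
  have k1 : |s - g.z ω| ≤ 1 / 2 ^ c :=
    abs_le.2 ⟨by linarith [(fl1_near c (g.z ω)).2], by linarith [(fl1_near c (g.z ω)).1]⟩
  have k2 : r / 2 ^ M ≤ r / 2 ^ c :=
    div_le_div_of_nonneg_left r0 (by positivity) (pow_le_pow_right₀ one_le_two hc)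
  have k3 : (0 : ℝ) ≤ r / 2 ^ c := by positivity
  rw [add_div]
  refine (pi_norm_le_iff_of_nonneg (by positivity)).2 fun i => Fin.cases ?_ (fun j => ?_) i
  · exact k1.trans (le_add_of_nonneg_right k3)
  · have e : (H83.pt s ((g.l ω).1 + s • (g.l ω).2 + ξ) - g.tp ω) j.succ =
        (s - g.z ω) * g.e ω j + ξ j := by
      simp only [H83.pt, Sh.tp, Sh.l, Pi.sub_apply, Fin.cons_succ, Pi.add_apply, Pi.smul_apply,
        smul_eq_mul]
      ring
    rw [e]
    refine (abs_add_le _ _).trans (add_le_add ?_ (((norm_le_pi_norm ξ j).trans k).trans k2))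
    rw [abs_mul]
    exact (mul_le_of_le_one_right (abs_nonneg _) ((norm_le_pi_norm _ j).trans he)).trans k1

theorem lat (D : ℕ) : ∃ C : ℝ, 1 ≤ C ∧ ∀ {N M c : ℕ} {l : Ln N} {h : ℤ} (F : VD N D) (k : Fin N)
    (θ : ℝ), (∀ y ∈ seg M c l h 5, |eval y F.1| ≤ θ) → ∀ y ∈ seg M c l h 4,
      |eval y (dk k.succ F).1| ≤ C * 2 ^ M * θ := by
  classical
  obtain ⟨C, c1, hC⟩ := mark D
  refine ⟨C, c1, fun {N M c l h} F k θ e y ⟨t, ξ, a, b, d, f⟩ => ?_⟩
  have p : (0 : ℝ) < 2 ^ M := by positivity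
  have u := (hC F.1 y (Pi.single k.succ ((2 : ℝ) ^ M)⁻¹) 0 1 θ (deg_PD F) one_pos
    (fun s s0 s1 => e _ ⟨t, ξ + Pi.single k s, a, b, ?_, ?_⟩) 0 le_rfl (by norm_num)).1
  · rw [zero_smul, add_zero, one_mul, sum_eq_single k.succ (fun i _ hi => by
      rw [Pi.single_eq_of_ne hi, zero_mul]) (by simp), Pi.single_eq_same, abs_mul,
      abs_of_pos (inv_pos.2 p), inv_mul_le_iff₀ p] at u
    exact u.trans_eq (by ring)
  · refine (norm_add_le _ _).trans ?_
    rw [Pi.norm_single, Real.norm_of_nonneg s0]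
    linarith
  · rw [f]
    funext i
    refine Fin.cases (by simp [tb]) (fun j => ?_) i
    by_cases q : j = k
    · subst q
      simp [tb]
      ring
    · simp [tb, q]

/-- The corner of the cube of side `2^{-j}`. -/
noncomputable def cr (j : ℕ) (a : Fin (N + 1) → ℤ) : V (N + 1) := ((2 : ℝ) ^ j)⁻¹ • cz a

theorem cr_near (j : ℕ) (y : V (N + 1)) : ‖y - cr j (flv j y)‖ ≤ 1 / 2 ^ j :=
  (pi_norm_le_iff_of_nonneg (by positivity)).2 fun i => by
    have a := fl1_le j (y i)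
    have b := lt_fl1 j (y i)
    rw [one_div]
    exact abs_le.2 ⟨by simp only [cr, cz, flv, Pi.sub_apply, Pi.smul_apply, smul_eq_mul]; linarith
      [show (0 : ℝ) < ((2 : ℝ) ^ j)⁻¹ by positivity],
      by simp only [cr, cz, flv, Pi.sub_apply, Pi.smul_apply, smul_eq_mul]; linarith⟩

end One

section Seq

variable {N D : ℕ} {Ω : ℕ → Type} {κ : ℝ} {P : ∀ n, FP (Ω n)} {g : ∀ n, Sh N (Ω n)}
  {M c u : ℕ → ℕ} {S : ∀ n, Ω n → Dc N D}

theorem whp_cE {E F : ∀ n, Ω n → Prop} (hE : Whp P E) (h : Whp (fun n => cE (P n) (E n)) F) :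
    Whp P F := fun ε hε => by
  filter_upwards [hE _ (half_pos hε), h _ (half_pos hε)] with n a b
  have h1 := pb_split (P n) (fun ω => ¬F n ω) (E n)
  have h2 := pb_cE (P n) (E n) fun ω => ¬F n ω
  have h3 : pb (P n) (fun ω => ¬F n ω ∧ E n ω) = pb (P n) fun ω => E n ω ∧ ¬F n ω :=
    pb_congr fun _ _ => and_comm
  have h4 : pb (P n) (fun ω => ¬F n ω ∧ ¬E n ω) ≤ pb (P n) fun ω => ¬E n ω :=
    pb_mono fun _ _ k => k.2
  have h5 := mul_le_of_le_one_left (pb_nonneg (cE (P n) (E n)) fun ω => ¬F n ω)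
    (pb_le_one (P n) (E n))
  linarith

/-- Polynomials that are read from the label and bounded on the segment have small norm. -/
theorem nlv (hN : SNLV) (o : O1 κ P g M c u S) {J : Type} [Finite J] (F : J → ∀ n, Ω n → VD N D)
    (B : ℕ → ℝ) (hF : ∀ j, Sm u fun n => ch (P n) (F j n) (S n))
    (hB : ∀ᶠ n in UF, ∀ ω ∈ (P n).S, ∀ j, ∀ y ∈ seg (M n) (c n) ((g n).l ω) (S n ω).h 4,
      |eval y (F j n ω).1| ≤ B n) {ε : ℝ} (hε : 0 < ε) :
    Whp P fun n ω => ∀ j, (S n ω).ν (F j n ω) ≤ Real.exp (ε * u n) * B n :=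
  (Whp.all fun j => hN κ P g M c u S (F j) o (hF j) ε hε).mono (hB.mono fun _ a ω hω b j =>
    let ⟨y, y1, y2⟩ := b j
    y2.trans (mul_le_mul_of_nonneg_left (a ω hω j y y1) (Real.exp_pos _).le))

theorem sm_fn {α β : ℕ → Type} {F : ∀ n, Ω n → α n} {G : ∀ n, Ω n → β n}
    (h : ∀ n, Fn (P n) (F n) (G n)) : Sm u fun n => ch (P n) (F n) (G n) :=
  Le.of_le fun n => (ch_zero (h n)).le

theorem absorb (h : Big u) (C : ℝ) {ε : ℝ} (hε : 0 < ε) : ∀ᶠ n in UF,
    C * Real.exp (ε / 2 * u n) ≤ Real.exp (ε * u n) := by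
  filter_upwards [(h.sub (le_max_left 1 C)).2 _ (half_pos hε)] with n a
  refine (mul_le_mul_of_nonneg_right ((le_max_right 1 C).trans a) (Real.exp_pos _).le).trans_eq ?_
  rw [← Real.exp_add]
  congr 1
  ring

theorem in_seg (o : O1 κ P g M c u S) : ∀ᶠ n in UF, ∀ ω ∈ (P n).S,
    ∀ y ∈ seg (M n) (c n) ((g n).l ω) (S n ω).h 4, ‖y‖ ≤ 7 := by
  filter_upwards [o.box, o.val] with n a b ω hω y hy
  rw [(b ω hω).1] at hy
  exact ((BdA.box_in a _ hω).norm hy).trans (by norm_num)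

theorem w_up (hN : SNLV) (o : O1 κ P g M c u S) {ε : ℝ} (hε : 0 < ε) :
    Whp P fun n ω => ∀ F, (S n ω).ν F ≤ Real.exp (ε * u n) * Bn F := by
  obtain ⟨C, -, hC⟩ := val_Bn N D
  refine (nlv hN o (fun a _ _ => bs Bn a) (fun _ => C) (fun _ => sm_fn fun _ _ _ _ _ _ => rfl)
    ((in_seg o).mono fun n a ω hω j y hy => ((hC _ y (a ω hω y hy)).1.trans_eq ?_))
      (half_pos hε)).mono ?_
  · rw [bs_one BdA.hb_Bn, mul_one]
  · filter_upwards [o.val, absorb o.big (dV N D * C) hε] with n a b ω hω e F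
    exact (span_le (a ω hω).2.hb BdA.hb_Bn LinearMap.id e F).trans
      ((le_of_eq (by ring)).trans (mul_le_mul_of_nonneg_right b (Real.sqrt_nonneg _)))

theorem w_ht (hN : SNLV) (o : O1 κ P g M c u S) (hD : 1 ≤ D) {ε : ℝ} (hε : 0 < ε) :
    Whp P fun n ω => 2 ^ c n * (S n ω).ν (vx 0 - (g n).z ω • v1) ≤ Real.exp (ε * u n) := by
  refine ((nlv hN o (J := Unit) (fun _ n ω => vx 0 - (((S n ω).h : ℝ) / 2 ^ c n) • v1)
    (fun n => 1 / 2 ^ c n) (fun _ => sm_fn fun n => Fn.comp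
      (fun δ : Dc N D => vx 0 - ((δ.h : ℝ) / 2 ^ c n) • (v1 : VD N D)) _)
    (.of_forall fun n ω _ _ y hy => ?_) (half_pos hε)).and (w_up hN o (half_pos hε))).mono ?_
  · rw [← evV_eq, map_sub, map_smul, evV_vx hD, evV_v1, smul_eq_mul, mul_one]
    exact ht_near hy
  · filter_upwards [o.val, absorb o.big 2 hε] with n a b ω hω e
    have h := (a ω hω).2.hb
    have k1 := e.1 ()
    have k2 := (e.2 v1).trans (mul_le_of_le_one_right (Real.exp_pos _).le Bn_v1)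
    have k3 : |((S n ω).h : ℝ) / 2 ^ c n - (g n).z ω| ≤ 1 / 2 ^ c n := by
      rw [(a ω hω).1]
      exact abs_le.2 ⟨by linarith [(fl1_near (c n) ((g n).z ω)).2], by
        linarith [(fl1_near (c n) ((g n).z ω)).1, show (0 : ℝ) ≤ 1 / 2 ^ c n by positivity]⟩
    have k4 := shift h (vx 0) v1 (((S n ω).h : ℝ) / 2 ^ c n) ((g n).z ω)
    have k5 := mul_le_mul k3 k2 (h.nonneg _) (by positivity)
    refine (mul_le_mul_of_nonneg_left (k4.trans (add_le_add k1 k5)) (by positivity)).trans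
      (le_trans (le_of_eq ?_) b)
    field_simp
    ring

theorem w_ff (hN : SNLV) (o : O1 κ P g M c u S) {ε : ℝ} (hε : 0 < ε) :
    Whp P fun n ω => ∀ (k : Fin N) F,
      (S n ω).ν (dk k.succ F) ≤ Real.exp (ε * u n) * 2 ^ M n * (S n ω).ν F := by
  obtain ⟨C, -, hC⟩ := lat D
  refine (nlv hN o (fun (j : Fin N × Fin (dV N D)) n ω => dk j.1.succ (bs (S n ω).ν j.2))
    (fun n => C * 2 ^ M n * 1) (fun j => sm_fn fun n => Fn.comp
      (fun δ : Dc N D => dk j.1.succ (bs δ.ν j.2)) _)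
    (o.val.mono fun n a ω hω j => hC _ _ _ fun y hy => ((a ω hω).2.bd y hy _).trans_eq
      (bs_one (a ω hω).2.hb _)) (half_pos hε)).mono ?_
  filter_upwards [o.val, absorb o.big (dV N D * C) hε] with n a b ω hω e k F
  have h := (a ω hω).2.hb
  refine (span_le h h _ (fun j => e (k, j)) F).trans (le_trans (le_of_eq (by ring))
    (mul_le_mul_of_nonneg_right (mul_le_mul_of_nonneg_right b (by positivity)) (h.nonneg F)))

/-- The label knows the cube of the true point. -/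
theorem cube (hZ : ZL N D) (o : O1 κ P g M c u S) (hD : 1 ≤ D) (k : ℕ)
    (hc : ∀ᶠ n in UF, k * u n ≤ c n ∧ c n ≤ M n)
    (up : ∀ᶠ n in UF, ∀ ω ∈ (P n).S, ∀ F, (S n ω).ν F ≤ Real.exp (1 * u n) * Bn F) :
    Sm u fun n => ch (P n) (fun ω => flv (k * u n) ((g n).tp ω)) (S n) := by
  have d0 : (0 : ℝ) ≤ dV N D := Nat.cast_nonneg _
  refine hZ κ P g M c u (fun n => u n * u n) S _ (k + 2) o
    (fun R => (o.big.eventually_ge_atTop R).mono fun n a => Nat.mul_le_mul_right _ a)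
    (Sm.near (x := fun n (v : NW (Ω n) N (u n * u n)) => (g n).tp v.1) o.big
      (o.big.sub (C := dV N D + 4) (by linarith)) ?_)
  filter_upwards [hc, up, o.box, o.val] with n a b d e v hv v' hv' q
  have m := ((S20.mem_prod v).1 hv).1
  have m' := ((S20.mem_prod v').1 hv').1
  obtain ⟨q1, q2⟩ := Prod.ext_iff.1 q
  simp only at q1 q2
  rw [← q1] at q2
  have p : (2 : ℝ) / 2 ^ c n ≤ 2 / 2 ^ (k * u n) :=
    div_le_div_of_nonneg_left zero_le_two (by positivity) (pow_le_pow_right₀ one_le_two a.1)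
  have k1 := tp_near a.2 (d _ m).2.1 (vp_mem (g n) (M n) (c n) _ v)
  have k2 := tp_near a.2 (d _ m').2.1 (vp_mem (g n) (M n) (c n) _ v')
  rw [one_add_one_eq_two] at k1 k2
  have k3 : ‖vp (g n) (M n) (c n) _ v - vp (g n) (M n) (c n) _ v'‖ ≤ dV N D / 2 ^ (k * u n) := by
    refine (pi_norm_le_iff_of_nonneg (by positivity)).2 fun i => ?_
    have := vc_near (e _ m).2.hb q2 (vx i)
    rw [← evV_eq, ← evV_eq, evV_vx hD, evV_vx hD] at this
    refine this.trans ?_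
    rw [div_eq_mul_inv (dV N D : ℝ)]
    refine mul_le_mul_of_nonneg_left ?_ d0
    rw [div_le_iff₀ (by positivity), add_mul, pow_add, inv_mul_cancel_left₀ (by positivity)]
    refine ((b _ m _).trans (mul_le_of_le_one_right (Real.exp_pos _).le (Bn_vx hD i))).trans
      (le_trans (le_of_eq ?_) (exp_le_two_pow _))
    push_cast
    ring_nf
  rw [norm_sub_rev] at k1
  refine (norm_sub_le_norm_sub_add_norm_sub _ _ _).trans ((add_le_add k1
    ((norm_sub_le_norm_sub_add_norm_sub _ _ _).trans (add_le_add k3 k2))).trans ?_)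
  rw [add_div, show (4 : ℝ) / 2 ^ (k * u n) = 2 / 2 ^ (k * u n) + 2 / 2 ^ (k * u n) by ring]
  linarith

theorem w_thin (hN : SNLV) (hZ : ZL N D) (o : O1 κ P g M c u S) (hD : 1 ≤ D)
    (hc : ∀ k : ℕ, ∀ᶠ n in UF, k * u n ≤ c n ∧ c n ≤ M n) (T : ℝ) : Whp P fun n ω => ∀ F,
      (S n ω).ν (F - evV ((g n).tp ω) F • v1) ≤ Real.exp (-(T * u n)) * Bn F := by
  obtain ⟨C, c1, hC⟩ := val_Bn N D
  obtain ⟨k, hk⟩ := exists_nat_ge (2 * T + 4)
  have w := w_up hN o one_pos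
  have up := w.pos.sure
  have o' := o.cE w.pos
  have z := cube hZ o' hD k (hc k) (up.mono fun n a ω hω => (a ω hω).2)
  set p : ∀ n, Ω n → V (N + 1) := fun n ω => cr (k * u n) (flv (k * u n) ((g n).tp ω)) with hp
  have t2 : ∀ᶠ n in UF, ∀ ω ∈ (P n).S, ‖(g n).tp ω‖ ≤ 7 ∧ ‖p n ω‖ ≤ 7 := o.box.mono
    fun n a ω hω => by
      have a1 := (BdA.box_in a 0 hω).norm (tp_mem (g n) ω 0 0 le_rfl)
      have a2 := (cr_near (k * u n) ((g n).tp ω)).trans
        (div_le_self zero_le_one (one_le_pow₀ one_le_two))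
      have a3 := norm_sub_norm_le (p n ω) ((g n).tp ω)
      rw [norm_sub_rev] at a3
      exact ⟨by linarith, by linarith⟩
  refine whp_cE w ((nlv hN o' (fun a n ω => bs Bn a - evV (p n ω) (bs Bn a) • v1)
    (fun n => C * (6 / 2 ^ (k * u n))) (fun a => z.mono (.of_forall fun n => ch_mono
      ((Fn.comp (fun y => bs Bn a - evV (cr (k * u n) y) (bs Bn a) • (v1 : VD N D)) _).left _)))
    ?_ (half_pos two_pos)).mono ?_)
  · filter_upwards [up, t2, in_seg o, o.box, o.val, hc k] with n a b d e f q ω hω j y hy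
    have m := (a ω hω).1
    rw [← evV_eq, map_sub, map_smul, evV_v1, smul_eq_mul, mul_one]
    refine ((hC _ y (d ω m y hy)).2.2 _ (b ω m).2).trans ?_
    rw [bs_one BdA.hb_Bn, mul_one]
    refine mul_le_mul_of_nonneg_left ?_ (zero_le_one.trans c1)
    rw [(f ω m).1] at hy
    have k1 := (tp_near q.2 (e ω m).2.1 hy).trans (div_le_div_of_nonneg_left (by norm_num)
      (by positivity) (pow_le_pow_right₀ one_le_two q.1))
    refine (norm_sub_le_norm_sub_add_norm_sub _ _ _).trans ((add_le_add k1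
      (cr_near (k * u n) _)).trans_eq (by ring))
  · filter_upwards [up, t2, o.val, absorb o.big (dV N D * C * 6 + C) two_pos]
      with n a b f q ω hω e F
    have m := (a ω hω).1
    have h := (f ω m).2.hb
    have b0 : 0 ≤ Bn F := Real.sqrt_nonneg _
    have k1 := span_le h BdA.hb_Bn (LinearMap.id - (evV (p n ω)).smulRight v1) e F
    have k2 := ((a ω hω).2 v1).trans (mul_le_of_le_one_right (Real.exp_pos _).le Bn_v1)
    have k3 := ((hC F _ (b ω m).2).2.2 _ (b ω m).1).trans (mul_le_mul_of_nonneg_left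
      ((norm_sub_rev _ _).trans_le (cr_near (k * u n) _)) (by positivity))
    have k4 := shift h F v1 (evV (p n ω) F) (evV ((g n).tp ω) F)
    have k5 := mul_le_mul k3 k2 (h.nonneg _) (by positivity)
    have k6 : Real.exp (2 * u n) / 2 ^ (k * u n) ≤ Real.exp (-(T * u n)) := by
      rw [div_le_iff₀ (by positivity)]
      refine le_trans ?_ (mul_le_mul_of_nonneg_left (exp_le_two_pow _) (Real.exp_pos _).le)
      rw [← Real.exp_add, Real.exp_le_exp]
      push_cast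
      nlinarith [Nat.cast_nonneg (α := ℝ) (u n)]
    refine (k4.trans (add_le_add k1 k5)).trans (le_trans (le_of_eq ?_) (mul_le_mul_of_nonneg_right
      ((div_le_div_of_nonneg_right q (by positivity)).trans k6) b0))
    rw [show (2 : ℝ) / 2 = 1 by norm_num]
    ring

end Seq

end En5

open H19 H17S H17F R4 AN Filter En5

variable {N D : ℕ} {X : ℕ → St N D} {η θ : ℝ} {σ : ℕ → ℚ → ℝ}

/-- The levels are far from both ends. -/
theorem Tb.far (t : Tb X Set.univ η θ σ) (x : ℚ) (k : ℕ) :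
    ∀ᶠ n in UF, k * (X n).u ≤ (X n).lv x ∧ (X n).lv x + k * (X n).u ≤ (X n).M := by
  filter_upwards [t.lev x trivial (x - (k + 1)) trivial 1 one_pos,
    t.lev (x + (k + 1)) trivial x trivial 1 one_pos, t.top (x + (k + 1)) trivial] with n a b c
  have c' : ((X n).lv (x + (k + 1)) : ℝ) ≤ (X n).M := by exact_mod_cast c
  push_cast at a b
  constructor
  · exact_mod_cast (by linarith [Nat.cast_nonneg (α := ℝ) ((X n).lv (x - (k + 1)))] :
      (k : ℝ) * (X n).u ≤ (X n).lv x)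
  · exact_mod_cast (by linarith : ((X n).lv x : ℝ) + k * (X n).u ≤ (X n).M)

theorem sEntB : SEntB := by
  intro _ hN N D X η θ σ hZ hD e0 e1 t0 t1 t
  have o := fun x : ℚ => t.o1 e0 e1 t0 t1 (Set.mem_univ x)
  have w : ∀ (x : ℚ) (j : ℕ), Whp (PP X) fun n ω =>
      (X n).Sl x (1 / (j + 1 : ℝ) * (X n).u) (j * (X n).u) ω := fun x j => by
    have p : (0 : ℝ) < 1 / (j + 1 : ℝ) := by positivity
    refine ((w_up hN (o x) p).and ((w_ht hN (o x) hD p).and ((w_ff hN (o x) p).and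
      (w_thin hN hZ (o x) hD (fun k => (t.far x k).mono fun n a =>
        ⟨a.1, (Nat.le_add_right _ _).trans a.2⟩) j)))).mono ?_
    filter_upwards [t.val x trivial] with n a ω hω e
    exact ⟨(a ω hω).2.hb, e.1, e.2.1, e.2.2.2, e.2.2.1⟩
  obtain ⟨f, hf⟩ := exists_surjective_nat (ℚ × ℕ)
  obtain ⟨G, a, b⟩ := whp_diag fun i => w (f i).1 (f i).2
  refine ⟨G, a, sur_iff.2 fun x ε hε T => ?_⟩
  obtain ⟨m, hm⟩ := exists_nat_one_div_lt hε
  obtain ⟨i, hi⟩ := hf (x, max m ⌈T⌉₊)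
  filter_upwards [b i, a.pos.sure] with n c d ω hω
  have k := c ω (d ω hω).2
  rw [hi] at k
  have k' := k.mono (r' := ε * (X n).u) (w' := T * (X n).u) (mul_le_mul_of_nonneg_right
    ((Nat.one_div_le_one_div (le_max_left _ _)).trans hm.le) (Nat.cast_nonneg _))
    (mul_le_mul_of_nonneg_right ((Nat.le_ceil T).trans (Nat.cast_le.2 (le_max_right _ _)))
      (Nat.cast_nonneg _))
  exact ⟨k'.hb, k'.up, k'.ht, k'.thin, k'.ff⟩

/-- The entrance to the local part. -/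
theorem T1.ent {E : ℕ} {β js Γ : ℝ} {kf : ℕ → ℕ} {sl : ℕ → ℝ} (t : T1 X E η θ β js Γ kf sl)
    (hZ : ZL N D) (hD : 1 ≤ D) (e0 : 0 < η) (e1 : η ≤ 1) (t0 : 0 ≤ θ)
    (t1 : 2 * (dV N D + 1) * θ ≤ η ^ dV N D) : ∃ G : ∀ n, (X n).Ω → Prop,
    (∀ᶠ n in UF, 1 / 4 ≤ pb (X n).P (G n)) ∧ Trm X G ∧
      Ts (fun n => (X n).res (G n)) E η θ β js Γ kf sl ∧ Sur fun n => (X n).res (G n) := by
  obtain ⟨G, a, b⟩ := sEntB sOpG CD.sNLV N D X η θ _ hZ hD e0 e1 t0 t1 t.tb
  obtain ⟨G', c1, c2, c3, c4⟩ := t.sure a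
  refine ⟨G', c2, c3, c4, b.pull (π := fun _ => id) ?_⟩
  filter_upwards [c3.mem, a.pos.ex] with n u v ω hω
  exact (mem_cE v ω).2 ⟨(u ω hω).1, c1 n ω (u ω hω).2⟩

end Pool.Agent.MP_5168f5_an.QA
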