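import Pool.Agent.MP_5168f5_an.QA.En5E
import Pool.Agent.MP_5168f5_an.QA.AbS

/-! The maximal estimate in all dimensions: the base class is not empty. -/

namespace Pool.Agent.MP_5168f5_an.QA.AB

theorem sFM_of (hM : Fr.SMod) (hI : SMI) (hA : SAB) : SFM := by
  intro N D E η θ β js Γ kf sl X hD a b
  obtain ⟨X', kk, c, d⟩ := K0.nf ⟨a, b⟩ hD
  obtain ⟨o, τ, R, -, Z, TT, e, t₀, j, f, g⟩ := hM _ _ _ _ _ _ _ _ _ _ _ _ _ _ _ _ _ _ _ d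
    (c.ent hD).2
  obtain ⟨S, C, L, X'', F, A, k⟩ := hA N D _ E η θ β js Γ sl _ kk _ o τ X' _
    (QA.cl0 E η θ β js Γ kf sl) c
    (hI N D _ E X' η θ β js Γ Γ R sl _ kk _ o τ Z TT e t₀ j hD c.1.toTq d g f)
  exact ⟨kk, _, o, τ, S, C, L, X'', F, A, k.1, k.2.1.1, k.2.1.2, k.2.2.1, k.2.2.2, fun _ => rfl⟩

end Pool.Agent.MP_5168f5_an.QA.AB
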