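import Pool.Agent.MP_5168f5_an.QA.NormCnt
import Pool.Agent.MP_5168f5_an.AN.EDir

/-! The two ends of the potential: the count of directions, and the norm of a small ball. -/

namespace Pool.Agent.MP_5168f5_an.QA.Ends

open Finset H19 H17S MvPolynomial AN.En
open H83 (pt)
open AN.C1 (Hb PD deg_PD)
open AN.Pk (cn kc)

theorem pt_add {N : ℕ} (t s : ℝ) (x w : V N) : pt t (x + s • w) = pt t x + s • pt 0 w := by
  funext i
  refine Fin.cases ?_ (fun l => ?_) i <;> simp [pt]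

/-- A bound on the fat segment extends to five times the radius. -/
theorem fat5 (E : ℕ) : ∃ K : ℝ, 1 ≤ K ∧ ∀ {N : ℕ} (F : MvPolynomial (Fin (N + 1)) ℝ) (t r B : ℝ)
    (x : V N), F.totalDegree ≤ E → (∀ ξ : V N, ‖ξ‖ ≤ r → |eval (pt t (x + ξ)) F| ≤ B) →
    ∀ ξ : V N, ‖ξ‖ ≤ 5 * r → |eval (pt t (x + ξ)) F| ≤ K * B := by
  obtain ⟨c, c0, c1, hc⟩ := move E
  refine ⟨1 / c, (one_le_div c0).2 c1, fun F t r B x hF h ξ hξ => ?_⟩
  obtain ⟨s, s0, s1, k⟩ := hc (fun y => eval y F) (fun s => pt t (x + s • (5 : ℝ)⁻¹ • ξ))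
    (pt t x) (pt 0 ((5 : ℝ)⁻¹ • ξ)) (-1) 6 5 ⟨F, hF, fun _ => rfl⟩ (fun s => pt_add _ _ _ _)
    (by norm_num) (by norm_num)
  have e : (5 : ℝ) • (5 : ℝ)⁻¹ • ξ = ξ := smul_inv_smul₀ (by norm_num) ξ
  simp only [e] at k
  rw [one_div, inv_mul_eq_div, le_div_iff₀' c0]
  refine k.trans (h _ ?_)
  have : |s| ≤ 1 := abs_le.2 ⟨s0, by linarith⟩
  rw [norm_smul, norm_smul, Real.norm_eq_abs, Real.norm_eq_abs,
    abs_of_pos (by norm_num : (0 : ℝ) < 5⁻¹)]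
  have := norm_nonneg ξ
  nlinarith [abs_nonneg s]

/-- The number of directions with a valid unit segment. -/
theorem dirN (N E : ℕ) : ∃ C : ℝ, 1 ≤ C ∧ ∀ (ν : PD (N + 1) E → ℝ) (J ρ : ℝ) (M : ℕ), Hb ν →
    0 < J → 1 / 2 ^ M ≤ ρ → ρ ≤ 4 / 2 ^ M → ∃ T : Finset (Z N),
      (T.card : ℝ) ≤ C * (2 ^ M) ^ N / J ∧ ∀ a e : V N, ‖a‖ ≤ 1 → ‖e‖ ≤ 1 →
        (∀ (s : ℝ) (ξ : V N), 0 ≤ s → s ≤ 1 → ‖ξ‖ ≤ ρ →
          ∀ F : PD (N + 1) E, |eval (pt s (a + s • e + ξ)) F.1| ≤ ν F) →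
        (∃ (Φ : Fin (N + 1) → PD (N + 1) E) (s : ℝ) (ξ : V N), (∀ i, ν (Φ i) ≤ 1) ∧ 0 ≤ s ∧
          s ≤ 1 ∧ ‖ξ‖ ≤ ρ ∧ J ≤ |(dm (fun i => (Φ i).1) (pt s (a + s • e + ξ))).det|) →
        fl M e ∈ T := by
  classical
  obtain ⟨C, C1, hC⟩ := rowDirCnt N E
  obtain ⟨Λ, Λ1, hΛ⟩ := fat5 E
  obtain ⟨K, hK⟩ : ∃ K : ℝ, K = (Module.finrank ℝ (PD (N + 1) E) + 1) ^ (N + 1) := ⟨_, rfl⟩
  have K1 : 1 ≤ K := hK ▸ one_le_pow₀ (le_add_of_nonneg_left (Nat.cast_nonneg _))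
  have L1 : 1 ≤ Λ ^ (N + 1) := one_le_pow₀ Λ1
  refine ⟨K * (C * Λ ^ (N + 1) * K), one_le_mul_of_one_le_of_one_le K1
    (one_le_mul_of_one_le_of_one_le (one_le_mul_of_one_le_of_one_le C1 L1) K1),
    fun ν J ρ M hν J0 r0 r1 => ?_⟩
  obtain ⟨f, f1, f2⟩ := jb hν
  choose T hT hT' using fun I : Fin (N + 1) → Fin (Module.finrank ℝ (PD (N + 1) E)) =>
    hC (fun i => (f (I i)).1) Λ (J / K) M (fun i => deg_PD _) Λ1 (by positivity)
  have p0 : (0 : ℝ) < 2 ^ M := by positivity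
  refine ⟨univ.biUnion T, ?_, ?_⟩
  · calc _ ≤ ∑ I, ((T I).card : ℝ) := by exact_mod_cast card_biUnion_le
      _ ≤ _ := sum_le_card_nsmul _ _ _ fun I _ => hT I
      _ ≤ K * (C * Λ ^ (N + 1) / (J / K) * (2 ^ M) ^ N) := by
          rw [card_univ, Fintype.card_fun, Fintype.card_fin, Fintype.card_fin, nsmul_eq_mul,
            Nat.cast_pow]
          gcongr
          rw [hK]
          gcongr
          linarith
      _ = _ := by field_simp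
  · rintro a e ha he h1 ⟨Φ, s, ξ, p1, s0, s1, hξ, p2⟩
    obtain ⟨I, hI⟩ := f2 Φ 1 _ p1 (abs_pos.1 (J0.trans_le p2))
    refine mem_biUnion.2 ⟨I, mem_univ _, hT' I a e ha he (fun t η t0 t1 hη i => ?_)
      ⟨s, (2 : ℝ) ^ M • ξ, s0, s1, ?_, ?_⟩⟩
    · refine (hΛ _ t ρ 1 (a + t • e) (deg_PD _)
        (fun η hη => (h1 t η t0 t1 hη _).trans_eq (f1 _)) _ ?_).trans_eq (mul_one _)
      rw [norm_smul, Real.norm_eq_abs, abs_of_pos (inv_pos.2 p0), ← one_div]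
      nlinarith [norm_nonneg η, one_div_pos.2 p0]
    · rw [norm_smul, Real.norm_eq_abs, abs_of_pos p0]
      exact (le_div_iff₀' p0).1 (hξ.trans r1)
    · have e1 : tb M a e s ((2 : ℝ) ^ M • ξ) = pt s (a + s • e + ξ) := by
        rw [tb, inv_smul_smul₀ p0.ne']
        rfl
      rw [e1, div_le_iff₀' (by positivity)]
      refine (p2.trans hI).trans ?_
      rw [hK]
      gcongr
      linarith

/-- The entropy form. -/
theorem chDir (N E : ℕ) : ∃ C : ℝ, 0 ≤ C ∧ ∀ {Ω β : Type} (P : FP Ω) (G : Ω → β)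
    (ν : β → PD (N + 1) E → ℝ) (J : β → ℝ) (ρ : ℝ) (M : ℕ) (a e : Ω → V N),
    1 / 2 ^ M ≤ ρ → ρ ≤ 4 / 2 ^ M →
    (∀ ω ∈ P.S, Hb (ν (G ω)) ∧ 0 < J (G ω) ∧ ‖a ω‖ ≤ 1 ∧ ‖e ω‖ ≤ 1 ∧
      (∀ (s : ℝ) (ξ : V N), 0 ≤ s → s ≤ 1 → ‖ξ‖ ≤ ρ →
        ∀ F : PD (N + 1) E, |eval (pt s (a ω + s • e ω + ξ)) F.1| ≤ ν (G ω) F) ∧
      ∃ (Φ : Fin (N + 1) → PD (N + 1) E) (s : ℝ) (ξ : V N), (∀ i, ν (G ω) (Φ i) ≤ 1) ∧ 0 ≤ s ∧
        s ≤ 1 ∧ ‖ξ‖ ≤ ρ ∧ J (G ω) ≤ |(dm (fun i => (Φ i).1) (pt s (a ω + s • e ω + ξ))).det|) →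
    ch P (fun ω => fl M (e ω)) G + P.E (fun ω => Real.log (J (G ω))) ≤ C + N * M * lg := by
  obtain ⟨C, C1, hC⟩ := dirN N E
  refine ⟨Real.log C, Real.log_nonneg C1, fun P G ν J ρ M a e r0 r1 h => ?_⟩
  have k := ch_detE (P := P) (F := fun ω => fl M (e ω)) (G := G)
    (fun ω => C * (2 ^ M) ^ N / J (G ω)) (fun a _ b _ e => by simp only [e]) fun v hv => by
      obtain ⟨T, hT, hT'⟩ := hC _ _ ρ M (h v hv).1 (h v hv).2.1 r0 r1
      refine ⟨T, hT, fun b hb eb => ?_⟩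
      obtain ⟨-, -, b1, b2, b3, b4⟩ := h b hb
      rw [eb] at b3 b4
      exact hT' _ _ b1 b2 b3 b4
  rw [P.E_congr (G := fun ω => (Real.log C + N * M * lg) - Real.log (J (G ω))) fun ω hω => by
    rw [Real.log_div (by positivity) (h ω hω).2.1.ne', Real.log_mul (by positivity) (by positivity),
      Real.log_pow, Real.log_pow, lg, mul_assoc], FP.E_sub, FP.E_const] at k
  linarith

/-- A Euclidean norm is comparable with the coefficient norm. -/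
theorem cmp_cn {n E : ℕ} {B : PD n E → ℝ} (hB : Hb B) :
    ∃ C : ℝ, 1 ≤ C ∧ ∀ F, cn F.1 ≤ C * B F ∧ B F ≤ C * cn F.1 := by
  classical
  obtain ⟨f, -, f2⟩ := onb hB
  let m : AN.Pk.mons (Fin n) E → PD n E := fun α => ⟨monomial α.1 1,
    (mem_restrictTotalDegree _ _ _).2 ((AN.Pk.pCnt.sup E _).2 fun β hβ => by
      rw [mem_singleton.1 (support_monomial_subset hβ)]; exact α.2)⟩
  have a0 : 0 ≤ ∑ i, cn (f i).1 := sum_nonneg fun _ _ => kc.nonneg _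
  have b0 : 0 ≤ ∑ α, B (m α) := sum_nonneg fun _ _ => hB.nonneg _
  refine ⟨1 + ∑ i, cn (f i).1 + ∑ α, B (m α), by linarith, fun F => ⟨?_, ?_⟩⟩
  · obtain ⟨c, c1, c2⟩ := f2 F
    have e : F.1 = ∑ i, c i • (f i).1 := by rw [c1]; simp
    have k : cn F.1 ≤ (∑ i, cn (f i).1) * B F := by
      rw [e, sum_mul]
      refine (kc.sum _ _).trans (sum_le_sum fun i _ => ?_)
      rw [kc.smul, mul_comm]
      exact mul_le_mul_of_nonneg_left (c2 i) (kc.nonneg _)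
    nlinarith [hB.nonneg F]
  · have e : F = ∑ α : AN.Pk.mons (Fin n) E, F.1.coeff α.1 • m α := Subtype.ext (by
      simp only [Submodule.coe_sum, SetLike.val_smul, m, smul_monomial, smul_eq_mul, mul_one]
      rw [sum_coe_sort _ fun α => monomial α (F.1.coeff α)]
      refine F.1.as_sum.trans (sum_subset ((AN.Pk.pCnt.sup E _).1 (deg_PD F)) fun α _ h => ?_)
      rw [notMem_support_iff.1 h, map_zero])
    have k : B F ≤ (∑ α, B (m α)) * cn F.1 := by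
      conv_lhs => rw [e]
      rw [sum_mul]
      refine (hB.sum _ _ _).trans (sum_le_sum fun α _ => ?_)
      rw [mul_comm]
      exact mul_le_mul_of_nonneg_left (kc.coeff _ _) (hB.nonneg _)
    nlinarith [kc.nonneg F.1]

/-- Translation and dilation. -/
noncomputable def sh {n : ℕ} (E : ℕ) (y : V n) (δ : ℝ) : PD n E →ₗ[ℝ] PD n E :=
  LinearMap.codRestrict _ ((aeval fun i => C (y i) + δ • X i).toLinearMap ∘ₗ Submodule.subtype _)
    fun F => (mem_restrictTotalDegree _ _ _).2 ((kc.deg _ F.1 E 1 (deg_PD F) fun i =>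
      (totalDegree_add _ _).trans (max_le (by simp)
        ((totalDegree_smul_le _ _).trans (by simp)))).trans_eq (mul_one E))

theorem eval_sh {n E : ℕ} (y : V n) (δ : ℝ) (F : PD n E) (x : V n) :
    eval x (sh E y δ F).1 = eval (y + δ • x) F.1 := by
  refine (AN.Nc.eval_aeval _ F.1 x).trans (congrArg (fun v => eval v F.1) (funext fun i => ?_))
  simp [AN.Nc.ev]

/-- The norm of a small ball. -/
theorem ballN {n E : ℕ} {B : PD n E → ℝ} (hB : Hb B) : ∃ K : ℝ, 1 ≤ K ∧ ∀ (y : V n) (δ : ℝ),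
    ‖y‖ ≤ 3 → 0 < δ → δ ≤ 7 → ∃ ν : PD n E → ℝ, Hb ν ∧
      (∀ F x, ‖x - y‖ ≤ δ → |eval x F.1| ≤ ν F) ∧
      (∀ F, ν F ≤ K * B F ∧ δ ^ E * B F ≤ K * ν F) ∧
      ∀ F, ν F ≤ K * cn (sh E y δ F).1 := by
  obtain ⟨c, c1, hc⟩ := cmp_cn hB
  obtain ⟨q, q1, hq⟩ := AN.Pk.neq n E
  have p4 : (1 : ℝ) ≤ 10 ^ E := one_le_pow₀ (by norm_num)
  have c0 : 0 < c := by linarith
  have q0 : 0 < q := by linarith
  have k1 : 1 ≤ c * c * c * q * 10 ^ E := one_le_mul_of_one_le_of_one_le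
    (one_le_mul_of_one_le_of_one_le (one_le_mul_of_one_le_of_one_le
      (one_le_mul_of_one_le_of_one_le c1 c1) c1) q1) p4
  refine ⟨c * c * c * q * 10 ^ E, k1, fun y δ hy δ0 δ1 => ?_⟩
  have v : ∀ (F : PD n E) x, ‖x - y‖ ≤ δ → |eval x F.1| ≤ cn (sh E y δ F).1 := fun F x hx => by
    have e : x = y + δ • δ⁻¹ • (x - y) := by rw [smul_inv_smul₀ δ0.ne']; abel
    rw [e, ← eval_sh]
    refine (kc.val _ E 1 _ (deg_PD _) le_rfl fun i =>
      (norm_le_pi_norm (δ⁻¹ • (x - y)) i).trans ?_).trans_eq (by simp)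
    rw [norm_smul, Real.norm_eq_abs, abs_of_pos (inv_pos.2 δ0), inv_mul_le_iff₀ δ0, mul_one]
    exact hx
  have w : ∀ F : PD n E, δ ^ E * cn F.1 ≤ q * 10 ^ E * cn (sh E y δ F).1 := fun F => by
    have k := ((hq F.1 (deg_PD F)).2 y δ 10 _ δ0 (by linarith) (v F)).1 (by norm_num) (by linarith)
    rw [div_pow] at k
    refine (mul_le_mul_of_nonneg_left k (by positivity)).trans_eq ?_
    field_simp
  have u : ∀ F : PD n E, cn (sh E y δ F).1 ≤ cn F.1 * 10 ^ E := fun F =>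
    kc.comp _ F.1 E 10 (deg_PD F) (by norm_num) fun i => (kc.add _ _).trans (by
      rw [kc.const, kc.smul, kc.var, abs_of_pos δ0]
      linarith [(norm_le_pi_norm y i).trans hy, Real.norm_eq_abs (y i)])
  obtain ⟨ι, _, A, hA, e⟩ := id hB
  refine ⟨fun F => c * B (sh E y δ F), ⟨ι, inferInstance, c • A ∘ₗ sh E y δ,
    (injective_iff_map_eq_zero _).2 fun F h => ?_, fun F => ?_⟩,
    fun F x hx => (v F x hx).trans (hc _).1, fun F => ⟨?_, ?_⟩, fun F => ?_⟩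
  · have h1 : A (sh E y δ F) = 0 := (smul_eq_zero.1 h).resolve_left c0.ne'
    have h2 := w F
    rw [hA (h1.trans (map_zero A).symm), Submodule.coe_zero, (kc.zero _).2 rfl, mul_zero] at h2
    exact Subtype.ext ((kc.zero _).1 (le_antisymm
      (le_of_mul_le_mul_left (by simpa using h2) (pow_pos δ0 E)) (kc.nonneg _)))
  · simp [e, norm_smul, abs_of_pos c0]
  · have b0 := hB.nonneg F
    calc _ ≤ c * (c * (c * B F * 10 ^ E)) := mul_le_mul_of_nonneg_left ((hc _).2.trans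
          (mul_le_mul_of_nonneg_left ((u F).trans (by gcongr; exact (hc F).1)) c0.le)) c0.le
      _ = c * c * c * 1 * 10 ^ E * B F := by ring
      _ ≤ _ := by gcongr
  · have b0 := hB.nonneg (sh E y δ F)
    calc _ ≤ δ ^ E * (c * cn F.1) := mul_le_mul_of_nonneg_left (hc F).2 (by positivity)
      _ = c * (δ ^ E * cn F.1) := by ring
      _ ≤ c * (q * 10 ^ E * (c * B (sh E y δ F))) := mul_le_mul_of_nonneg_left ((w F).trans
          (mul_le_mul_of_nonneg_left (hc _).1 (by positivity))) c0.le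
      _ = 1 * 1 * c * q * 10 ^ E * (c * B (sh E y δ F)) := by ring
      _ ≤ _ := by gcongr
  · have b0 := kc.nonneg (sh E y δ F).1
    calc _ ≤ c * (c * cn (sh E y δ F).1) := mul_le_mul_of_nonneg_left (hc _).2 c0.le
      _ = c * c * 1 * 1 * 1 * cn (sh E y δ F).1 := by ring
      _ ≤ _ := by gcongr

end Pool.Agent.MP_5168f5_an.QA.Ends
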