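import Pool.Agent.MP_5168f5_an.QA.EndA
import Pool.Agent.MP_5168f5_an.QA.FrCnt
import Pool.Agent.MP_5168f5_an.QA.Defs

/-! The two ends of the potential, for declared data. -/

namespace Pool.Agent.MP_5168f5_an.QA.Ends

open Finset H19 H17S MvPolynomial AN AN.En
open H83 (pt)
open AN.C1 (Hb PD deg_PD rho rMul rho_pos rho_zero)
open AN.Pk (cn kc)
open AN.Nc (jac)

variable {N D : ℕ}

theorem hb_B : Hb (Bn (N := N) (D := D)) := by
  classical
  refine ⟨Pk.mons (Fin (N + 1)) D, inferInstance, (WithLp.linearEquiv 2 ℝ _).symm.toLinearMap ∘ₗ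
    LinearMap.pi fun α => lcoeff ℝ α.1 ∘ₗ Submodule.subtype _,
    (injective_iff_map_eq_zero _).2 fun F e => Subtype.ext (MvPolynomial.ext _ _ fun α => ?_),
    fun F => ?_⟩
  · by_cases h : α ∈ Pk.mons (Fin (N + 1)) D
    · simpa using congrArg (fun v : EuclideanSpace ℝ (Pk.mons (Fin (N + 1)) D) => v ⟨α, h⟩) e
    · exact notMem_support_iff.1 fun k => h ((Pk.pCnt.sup D _).1 (deg_PD F) k)
  · rw [EuclideanSpace.norm_eq, Bn]
    congr 1
    refine ((sum_subset ((Pk.pCnt.sup D _).1 (deg_PD F)) fun α _ h => by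
      rw [notMem_support_iff.1 h]; simp).trans (sum_coe_sort _ fun α => coeff α F.1 ^ 2).symm).trans
      (sum_congr rfl fun α _ => (sq_abs _).symm)

theorem sg_ge {ν : VD N D → ℝ} (h : Hb ν) {y : ℝ} (e : ∀ F, ν F ≤ Real.exp y * Bn F) {k : ℕ}
    (hk : k ≤ dV N D) : -(k * y) ≤ sg k ν := by
  rw [sg, neg_le_neg_iff, Real.log_le_iff_le_exp (rho_pos h hb_B rfl hk), Real.exp_nat_mul]
  exact ((rMul _ ν Bn ν k h hb_B h).2.2 _ (Real.exp_pos y) e).1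

theorem sg_le {ν : VD N D → ℝ} (h : Hb ν) {y : ℝ} (e : ∀ F, Bn F ≤ Real.exp y * ν F) {k : ℕ}
    (hk : k ≤ dV N D) : sg k ν ≤ k * y := by
  have p := rho_pos h hb_B rfl hk
  have a := le_mul_iff_one_le_left (rho_pos h h rfl hk) |>.1 (rMul _ ν ν ν k h h h).1
  have b := (a.trans (rMul _ ν Bn ν k h hb_B h).1).trans (mul_le_mul_of_nonneg_left
    ((rMul _ Bn ν ν k hb_B h h).2.2 _ (Real.exp_pos y) e).1 p.le)
  have c := Real.log_nonneg b
  rw [← Real.exp_nat_mul, Real.log_mul p.ne' (Real.exp_pos _).ne', Real.log_exp] at c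
  rw [sg]
  linarith

theorem wsum {η y : ℝ} (h0 : 0 ≤ η) (h1 : η ≤ 1) (hy : 0 ≤ y) (d : ℕ) :
    ∑ k ∈ range (d + 1), η ^ k * (k * y) ≤ η * ((d + 1) * d * y) := by
  refine (sum_le_card_nsmul _ _ (η * (d * y)) fun k hk => ?_).trans_eq (by
    rw [card_range, nsmul_eq_mul]; push_cast; ring)
  cases k with
  | zero => simp; positivity
  | succ k =>
    have : ((k + 1 : ℕ) : ℝ) ≤ d := by exact_mod_cast Nat.lt_succ_iff.1 (mem_range.1 hk)
    exact mul_le_mul (pow_le_of_le_one h0 h1 (Nat.succ_ne_zero k)) (by gcongr) (by positivity) h0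

theorem psi_le {ν : VD N D → ℝ} (h : Hb ν) {y η : ℝ} (h0 : 0 ≤ η) (h1 : η ≤ 1) (hy : 0 ≤ y)
    (e : ∀ F, Bn F ≤ Real.exp y * ν F) : Psi η ν ≤ η * ((dV N D + 1) * dV N D * y) :=
  (sum_le_sum fun _ hk => mul_le_mul_of_nonneg_left (sg_le h e (Nat.lt_succ_iff.1 (mem_range.1 hk)))
    (pow_nonneg h0 _)).trans (wsum h0 h1 hy _)

theorem psi_ge {ν : VD N D → ℝ} (h : Hb ν) {y η : ℝ} (h0 : 0 ≤ η) (h1 : η ≤ 1) (hy : 0 ≤ y)
    (e : ∀ F, ν F ≤ Real.exp y * Bn F) : -(η * ((dV N D + 1) * dV N D * y)) ≤ Psi η ν := by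
  refine (neg_le_neg (wsum h0 h1 hy _)).trans ?_
  rw [← sum_neg_distrib]
  exact sum_le_sum fun _ hk => by
    rw [← mul_neg]
    exact mul_le_mul_of_nonneg_left (sg_ge h e (Nat.lt_succ_iff.1 (mem_range.1 hk)))
      (pow_nonneg h0 _)

theorem pen_zero {ν : VD N D → ℝ} (h : Hb ν) {y : ℝ} (hy : 0 ≤ y)
    (e : ∀ F, ν F ≤ Real.exp y * Bn F ∧ Bn F ≤ Real.exp y * ν F) :
    pen (fun _ => 0) ν ≤ (dV N D + 1) * dV N D * y := by
  have k := wsum zero_le_one le_rfl hy (dV N D)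
  simp only [one_pow, one_mul] at k
  refine le_trans (sum_le_sum fun k hk => ?_) k
  have hk' := Nat.lt_succ_iff.1 (mem_range.1 hk)
  rw [sub_zero, abs_le]
  exact ⟨sg_ge h (fun F => (e F).1) hk', sg_le h (fun F => (e F).2) hk'⟩

theorem mem_seg {M c : ℕ} {l : Ln N} {h : ℤ} {r s : ℝ} {ξ : V N} (s0 : (h : ℝ) ≤ 2 ^ c * s)
    (s1 : 2 ^ c * s ≤ h + 1) (hξ : ‖ξ‖ ≤ r / 2 ^ M) : pt s (l.1 + s • l.2 + ξ) ∈ seg M c l h r := by
  have p0 : (0 : ℝ) < 2 ^ M := by positivity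
  refine ⟨s, (2 : ℝ) ^ M • ξ, s0, s1, ?_, ?_⟩
  · rw [norm_smul, Real.norm_eq_abs, abs_of_pos p0]
    exact (le_div_iff₀' p0).1 hξ
  · rw [tb, inv_smul_smul₀ p0.ne']
    rfl

theorem of_seg {M c : ℕ} {l : Ln N} {h : ℤ} {r : ℝ} {y : V (N + 1)} (hy : y ∈ seg M c l h r) :
    ∃ (s : ℝ) (ξ : V N), (h : ℝ) ≤ 2 ^ c * s ∧ 2 ^ c * s ≤ h + 1 ∧ ‖ξ‖ ≤ r / 2 ^ M ∧
      y = pt s (l.1 + s • l.2 + ξ) := by
  obtain ⟨t, ξ, t0, t1, hξ, rfl⟩ := hy
  have p0 : (0 : ℝ) < 2 ^ M := by positivity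
  refine ⟨t, ((2 : ℝ) ^ M)⁻¹ • ξ, t0, t1, ?_, rfl⟩
  rw [norm_smul, Real.norm_eq_abs, abs_of_pos (inv_pos.2 p0), inv_mul_eq_div]
  gcongr

/-- A valid norm is not too small. -/
theorem low (N D : ℕ) : ∃ C : ℝ, 0 ≤ C ∧ ∀ (M c : ℕ) (l : Ln N) (z : ℝ) (ν : VD N D → ℝ), c ≤ M →
    ‖l.1‖ ≤ 1 → ‖l.2‖ ≤ 1 → 0 ≤ z → z < 1 →
    (∀ y ∈ seg M c l (fl1 c z) 5, ∀ F : VD N D, |eval y F.1| ≤ ν F) →
    ∀ F, Bn F ≤ Real.exp (C * (M + 1)) * ν F := by
  obtain ⟨c, c1, hc⟩ := cmp_cn (hb_B (N := N) (D := D))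
  obtain ⟨q, q1, hq⟩ := Pk.neq (N + 1) D
  have l0 : 0 ≤ Real.log (c * q) := Real.log_nonneg (one_le_mul_of_one_le_of_one_le c1 q1)
  refine ⟨Real.log (c * q) + 3 * D, by positivity, fun M j l z ν hj h1 h2 z0 z1 h F => ?_⟩
  have p0 : (0 : ℝ) < 2 ^ M := by positivity
  have p1 : (0 : ℝ) < 2 ^ j := by positivity
  have p2 : (2 : ℝ) ^ j ≤ 2 ^ M := pow_le_pow_right₀ one_le_two hj
  have p3 : (1 : ℝ) ≤ 2 ^ j := one_le_pow₀ one_le_two
  obtain ⟨t, ht⟩ : ∃ t : ℝ, t = (fl1 j z + 1 / 2) / 2 ^ j := ⟨_, rfl⟩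
  have e1 : 2 ^ j * t = fl1 j z + 1 / 2 := by rw [ht]; field_simp
  have f0 : (0 : ℝ) ≤ fl1 j z := by exact_mod_cast Int.floor_nonneg.2 (by positivity)
  have f1 : (fl1 j z : ℝ) ≤ 2 ^ j * z := Int.floor_le _
  have t0 : 0 ≤ t := by rw [ht]; positivity
  have t1 : t ≤ 2 := by nlinarith
  obtain ⟨r, hr⟩ : ∃ r : ℝ, r = 1 / (2 * 2 ^ M) := ⟨_, rfl⟩
  have r0 : 0 < r := by rw [hr]; positivity
  have r1 : 2 ^ M * r = 1 / 2 := by rw [hr]; field_simp
  have r2 : 2 ^ j * r ≤ 1 / 2 := r1 ▸ mul_le_mul_of_nonneg_right p2 r0.le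
  have k := ((hq F.1 (deg_PD F)).2 (pt t (l.1 + t • l.2)) r 4 (ν F) r0 (by nlinarith)
    fun x hx => ?_).1 (by norm_num) ?_
  · have n0 : 0 ≤ ν F := (abs_nonneg _).trans (h _ (mem_seg (s := t) (ξ := 0) (by linarith)
      (by linarith) (by simp; positivity)) F)
    refine ((hc F).2.trans (mul_le_mul_of_nonneg_left k (by linarith))).trans ?_
    rw [← mul_assoc, ← mul_assoc]
    refine mul_le_mul_of_nonneg_right ?_ n0
    have e2 : 4 / r = 2 ^ (M + 3) := by rw [hr]; field_simp; ring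
    have e3 : ((2 : ℝ) ^ (M + 3)) ^ D ≤ Real.exp (3 * D * (M + 1)) := by
      rw [← pow_mul, ← Real.exp_log (show (0 : ℝ) < 2 ^ ((M + 3) * D) by positivity), log_two_pow,
        Real.exp_le_exp]
      push_cast
      have a1 : ((M : ℝ) + 3) * D * lg ≤ (M + 3) * D :=
        mul_le_of_le_one_right (by positivity) lg_lt_one.le
      nlinarith [mul_nonneg (Nat.cast_nonneg (α := ℝ) M) (Nat.cast_nonneg (α := ℝ) D)]
    rw [e2, add_mul, Real.exp_add]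
    refine mul_le_mul ?_ e3 (by positivity) (Real.exp_pos _).le
    conv_lhs => rw [← Real.exp_log (show 0 < c * q by positivity)]
    exact Real.exp_le_exp.2 (le_mul_of_one_le_right l0 (by simp))
  · have x0 : |x 0 - t| ≤ r := by simpa [pt] using (norm_le_pi_norm _ 0).trans hx
    have e : x = pt (x 0) (l.1 + x 0 • l.2 + (Fin.tail x - (l.1 + x 0 • l.2))) := by
      rw [add_sub_cancel, pt, Fin.cons_self_tail]
    rw [e]
    have x1 := abs_le.1 x0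
    refine h _ (mem_seg (by nlinarith) (by nlinarith) ?_) F
    rw [pi_norm_le_iff_of_nonneg (by positivity)]
    intro i
    have x2 : |x i.succ - (l.1 i + t * l.2 i)| ≤ r := by
      simpa [pt] using (norm_le_pi_norm _ i.succ).trans hx
    have x3 : |(t - x 0) * l.2 i| ≤ r := by
      rw [abs_mul, abs_sub_comm]
      exact (mul_le_of_le_one_right (abs_nonneg _) ((norm_le_pi_norm l.2 i).trans h2)).trans x0
    have x4 : (Fin.tail x - (l.1 + x 0 • l.2)) i =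
        x i.succ - (l.1 i + t * l.2 i) + (t - x 0) * l.2 i := by simp [Fin.tail]; ring
    rw [Real.norm_eq_abs, x4, le_div_iff₀' p0]
    nlinarith [abs_add_le (x i.succ - (l.1 i + t * l.2 i)) ((t - x 0) * l.2 i)]
  · rw [pi_norm_le_iff_of_nonneg (by norm_num)]
    refine Fin.cases (by simpa [pt, abs_of_nonneg t0] using t1.trans (by norm_num)) fun i => ?_
    have a1 : |l.1 i| ≤ 1 := (norm_le_pi_norm l.1 i).trans h1
    have a2 : |t * l.2 i| ≤ 2 := by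
      rw [abs_mul, abs_of_nonneg t0]
      exact (mul_le_of_le_one_right t0 ((norm_le_pi_norm l.2 i).trans h2)).trans t1
    have := abs_add_le (l.1 i) (t * l.2 i)
    simp only [pt, Fin.cons_succ, Pi.add_apply, Pi.smul_apply, smul_eq_mul, Real.norm_eq_abs]
    linarith

/-- The end at level zero, without the reward. -/
theorem end0 (N D : ℕ) : ∃ C : ℝ, 0 ≤ C ∧ ∀ {Ω : Type} (P : FP Ω) (g : Sh N Ω) (M : ℕ)
    (A : Ω → Dc N D), g.Box P → Val P g M 0 A →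
    ch P (fun ω => fl M (g.e ω)) A + P.E (fun ω => Real.log (A ω).J) ≤ C + N * M * lg := by
  obtain ⟨C, C0, hC⟩ := chDir N D
  refine ⟨C, C0, fun P g M A hb hA => hC P A Dc.ν Dc.J (4 / 2 ^ M) M g.a g.e (by gcongr; norm_num)
    le_rfl fun ω hω => ?_⟩
  obtain ⟨b1, b2, b3, b4⟩ := hb ω hω
  obtain ⟨e, k⟩ := hA ω hω
  have e0 : (A ω).h = 0 := e.trans (Int.floor_eq_iff.2 ⟨by simpa using b3, by simpa using b4⟩)
  obtain ⟨Φ, u, y, hy, hJ⟩ := k.wit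
  obtain ⟨s, ξ, s0, s1, hξ, rfl⟩ := of_seg hy
  refine ⟨k.hb, k.pos, b1, b2, fun s ξ s0 s1 hξ => k.bd _ (mem_seg (l := g.l ω)
    (by simpa [e0] using s0) (by simpa [e0] using s1) (hξ.trans (by gcongr; norm_num))),
    Φ, s, ξ, u, by simpa [e0] using s0, by simpa [e0] using s1, hξ, ?_⟩
  rw [det_dm]
  exact hJ

/-- The end at level zero. -/
theorem end0' (N D : ℕ) : ∃ C : ℝ, 0 ≤ C ∧ ∀ {Ω : Type} (P : FP Ω) (g : Sh N Ω) (M : ℕ)
    (A : Ω → Dc N D) (η : ℝ), 0 ≤ η → η ≤ 1 → g.Box P → Fn P g.l (fun ω => fl M (g.e ω)) →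
    Val P g M 0 A →
    ch P g.l A + P.E (fun ω => sco η (A ω)) ≤ N * M * lg + C + η * C * (M + 1) := by
  obtain ⟨C, C0, hC⟩ := end0 N D
  obtain ⟨B, B0, hB⟩ := low N D
  obtain ⟨K, hK⟩ : ∃ K : ℝ, K = (dV N D + 1) * dV N D * B := ⟨_, rfl⟩
  have K0 : 0 ≤ K := by rw [hK]; positivity
  refine ⟨C + K, by positivity, fun P g M A η h0 h1 hb hf hA => ?_⟩
  have a1 := hC P g M A hb hA
  have a2 : ch P g.l A ≤ ch P (fun ω => fl M (g.e ω)) A := ch_mono (hf.left _)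
  have a3 : P.E (fun ω => Psi η (A ω).ν) ≤ η * K * (M + 1) := by
    refine (P.E_mono fun ω hω => ?_).trans_eq (P.E_const _)
    obtain ⟨b1, b2, b3, b4⟩ := hb ω hω
    obtain ⟨e, k⟩ := hA ω hω
    refine (psi_le k.hb h0 h1 (by positivity)
      (hB M 0 (g.l ω) (g.z ω) _ (Nat.zero_le _) b1 b2 b3 b4 (e ▸ k.bd))).trans_eq ?_
    rw [hK]; ring
  have a4 : 0 ≤ η * C * (M + 1) := by positivity
  simp only [sco]
  rw [FP.E_add]
  nlinarith

theorem jc_ball (y : V (N + 1)) (s : ℝ) (Φ : Ch N D)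
    (h : ∀ i, (Φ i).1 = s • (X i - C (y i))) (x : V (N + 1)) : jc Φ x = |s| ^ (N + 1) := by
  have e : dm (fun i => (Φ i).1) x = s • (1 : Matrix _ _ ℝ) := by
    ext i k
    by_cases e : i = k <;> simp [dm, h, e, Pi.single_apply]
  rw [jc, ← det_dm, e]
  simp

/-- The datum of a cell of the finest level. -/
theorem ballD (N D : ℕ) (hD : 1 ≤ D) : ∃ C : ℝ, 0 ≤ C ∧ ∀ M : ℕ, ∃ κ : Z N × ℤ → Dc N D,
    ∀ (l : Ln N) (z : ℝ), ‖l.1‖ ≤ 1 → ‖l.2‖ ≤ 1 → 0 ≤ z → z < 1 →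
      ∀ δ, δ = κ (fl M (l.1 + z • l.2), fl1 M z) → δ.h = fl1 M z ∧ (∀ M', M ≤ M' → δ.Ok M' M l) ∧
        |Real.log δ.J - (N + 1) * M * lg| ≤ C ∧ ∀ F, δ.ν F ≤ Real.exp C * Bn F := by
  obtain ⟨K, K1, hK⟩ := ballN (hb_B (N := N) (D := D))
  have l0 : 0 ≤ Real.log K := Real.log_nonneg K1
  have l1 : 0 ≤ Real.log (K * 7) := Real.log_nonneg (by linarith)
  refine ⟨Real.log K + (N + 1) * Real.log (K * 7), by positivity, fun M => ?_⟩
  have p0 : (0 : ℝ) < 2 ^ M := by positivity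
  have p1 : (1 : ℝ) ≤ 2 ^ M := one_le_pow₀ one_le_two
  have d0 : (0 : ℝ) < 7 / 2 ^ M := by positivity
  choose! ν hν using fun y : V (N + 1) => fun h =>
    hK y (7 / 2 ^ M) h d0 (div_le_self (by norm_num) p1)
  let c : Z N × ℤ → V (N + 1) := fun k => pt (k.2 / 2 ^ M) fun i => k.1 i / 2 ^ M
  refine ⟨fun k => ⟨ν (c k), (2 ^ M / (K * 7)) ^ (N + 1), k.2⟩, fun l z h1 h2 z0 z1 δ e => ?_⟩
  have fz : ∀ x : ℝ, |x - ⌊2 ^ M * x⌋ / 2 ^ M| ≤ 1 / 2 ^ M := fun x => by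
    have a1 := Int.floor_le (2 ^ M * x)
    have a2 := Int.lt_floor_add_one (2 ^ M * x)
    have : x - ⌊2 ^ M * x⌋ / 2 ^ M = (2 ^ M * x - ⌊2 ^ M * x⌋) / 2 ^ M := by field_simp
    rw [this, abs_div, abs_of_pos p0]
    gcongr
    exact abs_le.2 ⟨by linarith, by linarith⟩
  have q1 : 1 / (2 : ℝ) ^ M ≤ 1 := div_le_self zero_le_one p1
  have e2 : ∀ (t : ℝ) i, |t * l.2 i| ≤ |t| := fun t i => by
    rw [abs_mul]
    exact mul_le_of_le_one_right (abs_nonneg _) ((norm_le_pi_norm l.2 i).trans h2)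
  obtain ⟨y, hy⟩ : ∃ y, y = c (fl M (l.1 + z • l.2), fl1 M z) := ⟨_, rfl⟩
  have y0 : y 0 = ⌊2 ^ M * z⌋ / 2 ^ M := by rw [hy]; rfl
  have y1 : ∀ i : Fin N, y i.succ = ⌊2 ^ M * (l.1 i + z * l.2 i)⌋ / 2 ^ M := fun i => by rw [hy]; rfl
  have y3 : ‖y‖ ≤ 3 := by
    rw [pi_norm_le_iff_of_nonneg (by norm_num)]
    refine Fin.cases ?_ fun i => ?_
    · have := abs_le.1 (fz z)
      rw [y0, Real.norm_eq_abs, abs_le]
      constructor <;> linarith
    · have a1 := abs_le.1 (fz (l.1 i + z * l.2 i))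
      have a2 := abs_le.1 ((e2 z i).trans_eq (abs_of_nonneg z0))
      have a3 : |l.1 i| ≤ 1 := (norm_le_pi_norm l.1 i).trans h1
      have a4 := abs_le.1 a3
      rw [y1, Real.norm_eq_abs, abs_le]
      constructor <;> linarith
  obtain ⟨n1, n2, n3, n4⟩ := hν y y3
  subst e
  beta_reduce
  rw [← hy]
  refine ⟨rfl, fun M' hM => ⟨n1, by positivity, fun x hx F => n2 F x ?_, fun i => ⟨(2 ^ M / (K * 7) : ℝ) •
    (X i - C (y i)), (mem_restrictTotalDegree _ _ _).2 ((totalDegree_smul_le _ _).trans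
      ((totalDegree_sub _ _).trans (max_le (by simpa using hD) (by simp))))⟩, fun i => ?_,
    _, mem_seg (s := z) (ξ := 0) (Int.floor_le _) (Int.lt_floor_add_one _).le
      (by simp; positivity), ?_⟩, ?_, fun F => (n3 F).1.trans (mul_le_mul_of_nonneg_right ?_
        (hb_B.nonneg F))⟩
  · obtain ⟨s, ξ, s0, s1, hξ, rfl⟩ := of_seg hx
    have s2 : |s - z| ≤ 1 / 2 ^ M := by
      have a1 := Int.floor_le (2 ^ M * z)
      have a2 := Int.lt_floor_add_one (2 ^ M * z)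
      have : s - z = (2 ^ M * s - 2 ^ M * z) / 2 ^ M := by field_simp
      rw [this, abs_div, abs_of_pos p0]
      gcongr
      simp only [fl1] at s0 s1
      exact abs_le.2 ⟨by linarith, by linarith⟩
    have w : (7 : ℝ) / 2 ^ M = 7 * (1 / 2 ^ M) := by ring
    have w' : (5 : ℝ) / 2 ^ M = 5 * (1 / 2 ^ M) := by ring
    have w0 : (0 : ℝ) < 1 / 2 ^ M := by positivity
    rw [pi_norm_le_iff_of_nonneg d0.le]
    refine Fin.cases ?_ fun i => ?_
    · have a1 := abs_le.1 (fz z)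
      have a2 := abs_le.1 s2
      simp only [Pi.sub_apply, pt, Fin.cons_zero, y0, Real.norm_eq_abs, abs_le]
      constructor <;> linarith
    · have a1 := abs_le.1 (fz (l.1 i + z * l.2 i))
      have a2 := abs_le.1 ((e2 (s - z) i).trans s2)
      have a3 : |ξ i| ≤ 5 / 2 ^ M := ((norm_le_pi_norm ξ i).trans hξ).trans (by
        gcongr; exact one_le_two)
      have a4 := abs_le.1 a3
      simp only [Pi.sub_apply, pt, Fin.cons_succ, y1, Real.norm_eq_abs, abs_le, Pi.add_apply,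
        Pi.smul_apply, smul_eq_mul]
      constructor <;> linarith
  · refine (n4 _).trans_eq ?_
    have e : ∀ h, (sh D y (7 / 2 ^ M) ⟨(2 ^ M / (K * 7) : ℝ) • (X i - C (y i)), h⟩).1 =
        K⁻¹ • X i := fun h => by
      simp only [sh, LinearMap.codRestrict_apply, LinearMap.comp_apply, Submodule.subtype_apply,
        AlgHom.toLinearMap_apply, map_smul, map_sub, aeval_X, aeval_C, algebraMap_eq,
        add_sub_cancel_left, smul_smul]
      congr 1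
      field_simp
    rw [e, kc.smul, kc.var, abs_of_pos (by positivity)]
    field_simp
  · rw [jc_ball y (2 ^ M / (K * 7)) _ fun _ => rfl, abs_of_pos (by positivity)]
  · rw [Real.log_pow, Real.log_div p0.ne' (by positivity), log_two_pow, abs_le]
    push_cast
    constructor <;> nlinarith [Nat.cast_nonneg (α := ℝ) N]
  · conv_lhs => rw [← Real.exp_log (show 0 < K by linarith)]
    exact Real.exp_le_exp.2 (le_add_of_nonneg_right (by positivity))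

end Pool.Agent.MP_5168f5_an.QA.Ends
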