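import Pool.Agent.MP_5168f5_an.QA.ExtA
import Pool.Agent.MP_5168f5_an.QA.VecEnt
import Pool.Agent.MP_5168f5_an.QA.Spec1

/-! The sharp extension of an optimal label to a longer segment. -/

namespace Pool.Agent.MP_5168f5_an.QA

open H19 H17S H17F AN ExtA

theorem ofExt : OfExt := by
  rintro N E E' D hE ⟨C₁, c1, cnt⟩ fill ⟨C₂, c2, tig⟩
  obtain ⟨r, K, K', f, K0, K1, dil⟩ := dil N hE
  obtain ⟨d, hd⟩ : ∃ d : ℝ, d = 3 * ((dV N D + 1) * dV N D) := ⟨_, rfl⟩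
  have d0 : 0 ≤ d := by rw [hd]; positivity
  have dK : 0 ≤ d * K := mul_nonneg d0 K0
  refine ⟨C₂ + d * K, by linarith, fun η θ s pa s0 => ?_⟩
  obtain ⟨C', c3, tg⟩ := tig η θ (pa.mono (by linarith))
  obtain ⟨h0, h1, t0, t1⟩ := pa
  have η1 : η ≤ 1 := by nlinarith
  have θ1 : θ ≤ η ^ dV N D := by nlinarith
  obtain ⟨a, ha⟩ : ∃ a : ℝ, a = s / (3 * K' + 1) := ⟨_, rfl⟩
  have a0 : 0 < a := by rw [ha]; positivity
  have a1 : a * (3 * K') ≤ s := by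
    rw [ha, div_mul_eq_mul_div, div_le_iff₀ (by positivity)]; nlinarith
  obtain ⟨ε, hε⟩ : ∃ ε : ℝ, ε = a / (1 + d) := ⟨_, rfl⟩
  have ε0 : 0 < ε := by rw [hε]; positivity
  have ε1 : ε + d * ε = a := by rw [hε]; field_simp
  obtain ⟨m₀, fi⟩ := fill ε ε0
  obtain ⟨B, hB⟩ : ∃ B : ℝ, B = |Real.log (r ^ (N + 1))| + |3 * a + 2 * Real.log (2 / a)| + 1 + C₁ +
    d * K + a * (m₀ + 1) + s := ⟨_, rfl⟩
  have B0 : 0 ≤ B := by rw [hB]; positivity
  refine ⟨B + 3 * a * C', by positivity, fun Ω P g M c w S e hb hc hS e0 op => ?_⟩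
  obtain ⟨G, G1, G2⟩ := tg Ω P g M (c + w) S e hb hc hS e0 op
  have w0 : (0 : ℝ) ≤ w := Nat.cast_nonneg _
  have : Nonempty (Fin (N + 1) → Fin r) := by
    obtain ⟨ω, hω⟩ := Cx.ex_mem P
    exact ⟨(dil M c w _ _ _ _ (hS ω hω).1 (hS ω hω).2 (G1 ω hω).1 (G1 ω hω).2.1
      (G1 ω hω).2.2).choose⟩
  choose! I j j1 j2 using fun ω hω => dil M c w _ _ _ _ (hS ω hω).1 (hS ω hω).2 (G1 ω hω).1
    (G1 ω hω).2.1 (G1 ω hω).2.2
  obtain ⟨x, hx⟩ : ∃ x : ℝ, x = K * (w + 1) := ⟨_, rfl⟩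
  have x0 : 0 ≤ x := by rw [hx]; positivity
  rw [← hx] at j2
  let Φ : Ω → Ch N D := fun ω i => Real.exp (-x) • f (S ω).ν (I ω i)
  let A : Ω → Dc N D := fun ω =>
    ⟨fun F => Real.exp x * (S ω).ν F, Real.exp (j ω), fl1 c (g.z ω)⟩
  let m : Ω → ℕ := fun ω => m₀ + ⌈2 * |j ω - Real.log (S ω).J|⌉₊
  have k := fun ω hω => j2 ω hω (Φ ω) (A ω) rfl rfl
  have fn : ∀ u ∈ P.S, ∀ v ∈ P.S, g.cx c (fun ω => (S ω, I ω, j ω)) u =
      g.cx c (fun ω => (S ω, I ω, j ω)) v →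
      S u = S v ∧ I u = I v ∧ j u = j v ∧ fl1 c (g.z u) = fl1 c (g.z v) := fun u _ v _ h => by
    simpa only [Sh.cx, Prod.mk.injEq, and_assoc] using h
  have fi' := fi Ω _ P g M c (fun ω => (S ω, I ω, j ω)) A Φ m hb
    (fun ω hω => ⟨rfl, (k ω hω).2.1⟩) (fun u hu v hv h => by
      obtain ⟨b1, b2, b3, b4⟩ := fn u hu v hv h
      simp only [A, Φ, m, b1, b2, b3, b4])
    fun ω hω => ⟨Nat.le_add_right _ _, (k ω hω).1, (k ω hω).2.2.1⟩
  obtain ⟨J, W, Q, π, L, la, vL, l1, l2⟩ := fi'.exists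
  have cn := cnt Ω _ P g M c (c + w) J (fun ω => (S ω, I ω, j ω)) S Φ m
    (fun ω => Real.exp (j ω + 1)) hb (Nat.le_add_right _ _) hS (fun u hu v hv h => by
      obtain ⟨b1, b2, b3, -⟩ := fn u hu v hv h
      simp only [Φ, m, b1, b2, b3]) fun ω hω => ⟨Real.exp_pos _, by
        rw [← Real.exp_log (hS ω hω).2.pos, ← Real.exp_log (show (0 : ℝ) < 2 ^ m ω by positivity),
          ← Real.exp_add, Real.exp_le_exp, log_two_pow]
        have b1 : 2 * |j ω - Real.log (S ω).J| ≤ m ω :=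
          (Nat.le_ceil _).trans (by exact_mod_cast Nat.le_add_left _ _)
        have b2 : 1 / 2 < lg := lt_trans (by norm_num) Real.log_two_gt_d9
        linarith only [neg_abs_le (j ω - Real.log (S ω).J), b1,
          mul_le_mul_of_nonneg_left b2.le (Nat.cast_nonneg (α := ℝ) (m ω))],
      (k ω hω).2.2.2⟩
  refine ⟨W, Q, π, L, la, vL, ?_⟩
  obtain ⟨y, hy⟩ : ∃ y : ℝ, y = P.E fun ω => |j ω - Real.log (S ω).J| := ⟨_, rfl⟩
  have y0 : 0 ≤ y := hy ▸ P.E_nonneg fun _ _ => abs_nonneg _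
  have y1 : y ≤ C' * (1 + e) + K' * (w + 1) := by
    have := P.E_mono j1
    rw [FP.E_add, FP.E_const, ← hy] at this
    linarith
  have m1 : P.E (fun ω => (m ω : ℝ)) ≤ m₀ + 1 + 2 * y := by
    rw [hy, ← FP.E_mul, ← P.E_const (m₀ + 1), ← FP.E_add]
    refine P.E_mono fun ω _ => ?_
    have := Nat.ceil_lt_add_one (show 0 ≤ 2 * |j ω - Real.log (S ω).J| by positivity)
    simp only [m]
    push_cast
    linarith
  have e1 : ch Q L ((g.pull π).zc c) ≤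
      ch Q (fun v => (L v, S (π v), I (π v), j (π v))) ((g.pull π).zc c) :=
    ch_mono ((Fn.fst _ _).left _)
  have e2 := ch_chain (P := P) S (fun ω => (I ω, j ω)) (g.zc c)
  have e3 := ch_subadd (P := P) I j fun ω => (S ω, g.zc c ω)
  have e4 : ch P I (fun ω => (S ω, g.zc c ω)) ≤ Real.log (r ^ (N + 1)) :=
    ch_det fun _ _ => ⟨Finset.univ, by simp, fun _ _ _ => Finset.mem_univ _⟩
  have e5 := Op.ch_floor (P := P) (G := fun ω => (S ω, g.zc c ω)) one_pos (fun ω => (j ω : ℝ))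
    (fun ω => Real.log (S ω).J) fun u _ v _ h =>
      congrArg (fun δ : Dc N D × ℤ => ⌊Real.log δ.1.J / 1⌋) h
  simp only [div_one, Int.floor_intCast, ← hy] at e5
  have e6 := Op.two_log_le a0 y0
  have e7 := ch_tri' (P := P) S (g.zc c) (g.zc (c + w))
  have e8 : Q.E (fun v => Psi η (S (π v)).ν + θ * dsp (L v).ν (S (π v)).ν) ≤
      Q.E fun v => Psi η (L v).ν + (d * ε * m (π v) + η * (d * x)) := Q.E_mono fun v hv => by
    have m0 : (0 : ℝ) ≤ ε * m (π v) := by positivity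
    have b := spec (hS _ (la.mem hv)).2.hb (vL v hv).2.hb (y := ε * m (π v) + x) (by positivity)
      h0.le η1 θ1 fun F => ((l1 v hv).2 F).trans_eq (by rw [Real.exp_add, mul_assoc])
    rw [← hd] at b
    linarith only [b, mul_le_of_le_one_left (mul_nonneg d0 m0) η1]
  have e9 : Q.E (fun v => Psi η (S (π v)).ν) = P.E fun ω => Psi η (S ω).ν :=
    la fun ω => Psi η (S ω).ν
  have e10 : Q.E (fun v => (m (π v) : ℝ)) = P.E fun ω => (m ω : ℝ) := la fun ω => (m ω : ℝ)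
  simp only [A, Real.log_exp, FP.E_add, FP.E_sub, FP.E_mul, FP.E_const, e9, e10] at e8 cn l2
  simp only [cst, sco, FP.E_add]
  have f1 : ε * P.E (fun ω => (m ω : ℝ)) + d * ε * P.E (fun ω => (m ω : ℝ)) ≤
      a * (m₀ + 1 + 2 * y) := by
    rw [← add_mul, ε1]
    exact mul_le_mul_of_nonneg_left m1 a0.le
  have f2 : 3 * a * y ≤ 3 * a * C' * (1 + e) + s * (w + 1) := by
    linarith only [mul_le_mul_of_nonneg_left y1 a0.le,
      mul_le_mul_of_nonneg_right a1 (show (0 : ℝ) ≤ w + 1 by positivity)]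
  have f3 : η * (d * x) ≤ (C₂ + d * K) * η * w + d * K := by
    rw [hx]
    linarith only [mul_le_of_le_one_left dK η1,
      mul_nonneg (zero_le_one.trans c2) (mul_nonneg h0.le w0)]
  have f4 : B ≤ B * (1 + e) := le_mul_of_one_le_right B0 (by linarith)
  push_cast at cn
  linarith only [le_abs_self (Real.log (r ^ (N + 1))), le_abs_self (3 * a + 2 * Real.log (2 / a)),
    e1, e2, e3, e4, e5, e6, e7, e8, cn, l2, f1, f2, f3, f4, hB]

end Pool.Agent.MP_5168f5_an.QA
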