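import Pool.Agent.MP_5168f5_an.QA.EndB
import Pool.Agent.MP_5168f5_an.QA.GapLow
import Pool.Agent.MP_5168f5_an.QA.FatRem
import Pool.Agent.MP_5168f5_an.AN.NcTay

/-! The dilate of a datum on a longer segment. -/

namespace Pool.Agent.MP_5168f5_an.QA.ExtA

open Finset H19 H17S MvPolynomial AN AN.En
open H83 (pt)
open AN.C1 (Hb PD deg_PD rho rMul rho_pos)
open AN.Nc (jac)

variable {N D : ℕ}

theorem sg_cmp {ν ν' : VD N D → ℝ} (h : Hb ν) (h' : Hb ν') {y : ℝ}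
    (e : ∀ F, ν' F ≤ Real.exp y * ν F) {k : ℕ} (hk : k ≤ dV N D) : sg k ν - k * y ≤ sg k ν' := by
  have a := ((rMul _ ν' ν Bn k h' h Ends.hb_B).2.2 _ (Real.exp_pos y) e).2.1
  have b := Real.log_le_log (rho_pos h' Ends.hb_B rfl hk) a
  rw [← Real.exp_nat_mul, Real.log_mul (Real.exp_pos _).ne' (rho_pos h Ends.hb_B rfl hk).ne',
    Real.log_exp] at b
  simp only [sg]
  linarith

/-- The reward pays for the distance of the spectra. -/
theorem spec {ν ν' : VD N D → ℝ} (h : Hb ν) (h' : Hb ν') {y η θ : ℝ} (hy : 0 ≤ y) (h0 : 0 ≤ η)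
    (h1 : η ≤ 1) (t1 : θ ≤ η ^ dV N D) (e : ∀ F, ν' F ≤ Real.exp y * ν F) :
    Psi η ν + θ * dsp ν' ν ≤ Psi η ν' + η * (3 * ((dV N D + 1) * dV N D) * y) := by
  have w := Ends.wsum h0 h1 hy (dV N D)
  have k : Psi η ν + θ * dsp ν' ν ≤
      Psi η ν' + 3 * ∑ k ∈ range (dV N D + 1), η ^ k * (k * y) := by
    simp only [Psi, dsp, pen, mul_sum, ← sum_add_distrib]
    refine sum_le_sum fun k hk => ?_
    have hk' := Nat.lt_succ_iff.1 (mem_range.1 hk)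
    have a := sg_cmp h h' e hk'
    have b : θ ≤ η ^ k := t1.trans (pow_le_pow_of_le_one h0 h1 hk')
    have c : 0 ≤ k * y := by positivity
    have d : |sg k ν' - sg k ν| ≤ sg k ν' - sg k ν + 2 * (k * y) := abs_le.2 ⟨by linarith, by linarith⟩
    have f := mul_le_mul b d (abs_nonneg _) (pow_nonneg h0 k)
    nlinarith [mul_nonneg (pow_nonneg h0 k) c]
  linarith

theorem seg_nest {M c w : ℕ} {l : Ln N} {z r : ℝ} :
    seg M (c + w) l (fl1 (c + w) z) r ⊆ seg M c l (fl1 c z) r := by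
  rintro _ ⟨t, ξ, a, b, k, rfl⟩
  have p : (0 : ℝ) < 2 ^ w := by positivity
  have e := fl1_nest (Nat.le_add_right c w) z
  rw [Nat.add_sub_cancel_left] at e
  have p' : (0 : ℤ) < 2 ^ w := by positivity
  have h1 : fl1 c z * 2 ^ w ≤ fl1 (c + w) z := e ▸ Int.ediv_mul_le _ p'.ne'
  have h2 : fl1 (c + w) z + 1 ≤ (fl1 c z + 1) * 2 ^ w := e ▸ Int.lt_ediv_add_one_mul_self _ p'
  have h3 : (fl1 c z : ℝ) * 2 ^ w ≤ fl1 (c + w) z := by exact_mod_cast h1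
  have h4 : (fl1 (c + w) z : ℝ) + 1 ≤ (fl1 c z + 1) * 2 ^ w := by exact_mod_cast h2
  rw [pow_add] at a b
  exact ⟨t, ξ, le_of_mul_le_mul_right (by linarith) p, le_of_mul_le_mul_right (by linarith) p, k, rfl⟩

/-- The inequality of Remez from a short segment to a long one. -/
theorem rem (E : ℕ) : ∃ K : ℝ, 0 ≤ K ∧ ∀ {N : ℕ} (F : MvPolynomial (Fin (N + 1)) ℝ) (M c w : ℕ)
    (l : Ln N) (z r B : ℝ), F.totalDegree ≤ E →
    (∀ y ∈ seg M (c + w) l (fl1 (c + w) z) r, |eval y F| ≤ B) →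
    ∀ y ∈ seg M c l (fl1 c z) r, |eval y F| ≤ Real.exp (K * (w + 1)) * B := by
  have l0 : 0 ≤ Real.log (cR E) := Real.log_nonneg (one_le_cR E)
  refine ⟨Real.log (cR E) + E, by positivity, fun F M c w l z r B hF h y hy => ?_⟩
  obtain ⟨t, ξ, a, b, rfl⟩ := seg_far (Nat.le_add_right c w) hy
  have k := fun s (s0 : (fl1 (c + w) z : ℝ) / 2 ^ (c + w) ≤ s) s1 =>
    h _ (mem_seg.2 ⟨s, ξ, s0, s1, b, rfl⟩)
  have B0 : 0 ≤ B := (abs_nonneg _).trans (k _ le_rfl (le_add_of_nonneg_right (by positivity)))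
  refine (fatRem (F := fun y => eval y F) ⟨F, hF, fun _ => rfl⟩ l.1 l.2 ξ (by positivity)
    (le_ratio (Nat.le_add_right c w)) k a).trans (mul_le_mul_of_nonneg_right ?_ B0)
  have e : (2 : ℝ) / 2 ^ c / (1 / 2 ^ (c + w)) = 2 ^ (w + 1) := by
    rw [pow_add, pow_succ]; field_simp
  rw [e, add_mul, Real.exp_add, ← pow_mul]
  refine mul_le_mul ?_ ?_ (by positivity) (Real.exp_pos _).le
  · conv_lhs => rw [← Real.exp_log (one_pos.trans_le (one_le_cR E))]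
    exact Real.exp_le_exp.2 (le_mul_of_one_le_right l0 (by simp))
  · rw [← Real.exp_log (show (0 : ℝ) < 2 ^ ((w + 1) * E) by positivity), log_two_pow,
      Real.exp_le_exp]
    push_cast
    rw [mul_comm (E : ℝ)]
    exact mul_le_of_le_one_right (by positivity) lg_lt_one.le

theorem hb_mul {ν : VD N D → ℝ} (h : Hb ν) {K : ℝ} (K0 : 0 < K) : Hb fun F => K * ν F := by
  obtain ⟨ι, _, A, hA, e⟩ := h
  exact ⟨ι, inferInstance, K • A, fun x y k => hA (smul_right_injective _ K0.ne' k), fun F => by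
    rw [LinearMap.smul_apply, norm_smul, ← e, Real.norm_eq_abs, abs_of_pos K0]⟩

theorem jc_smul (s : ℝ) (Φ : Ch N D) (y : V (N + 1)) :
    jc (fun i => s • Φ i) y = |s| ^ (N + 1) * jc Φ y := by
  have e : dm (fun i => (s • Φ i).1) y = s • dm (fun i => (Φ i).1) y := by
    ext i k
    simp [dm]
  rw [jc, jc, ← det_dm, ← det_dm, e, Matrix.det_smul, abs_mul, abs_pow, Fintype.card_fin]

/-- Low charts from a short list. -/
theorem lows {E : ℕ} (hE : E ≤ D) : ∃ (r : ℕ) (f : (VD N D → ℝ) → Fin r → VD N D),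
    ∀ ν, Hb ν → (∀ a, ν (f ν a) ≤ 1 ∧ (f ν a).1.totalDegree ≤ E) ∧
      ∀ Φ y, Lo E Φ → Un ν Φ → 0 < jc Φ y → ∃ I : Fin (N + 1) → Fin r,
        jc Φ y ≤ (r + 1) ^ (N + 1) * jc (fun i => f ν (I i)) y := by
  have le : restrictTotalDegree (Fin (N + 1)) ℝ E ≤ restrictTotalDegree (Fin (N + 1)) ℝ D :=
    fun F hF => (mem_restrictTotalDegree _ _ _).2 (((mem_restrictTotalDegree _ _ _).1 hF).trans hE)
  have k : ∀ ν : VD N D → ℝ, ∃ f : Fin (Module.finrank ℝ (PD (N + 1) E)) → VD N D, Hb ν →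
      (∀ a, ν (f a) ≤ 1 ∧ (f a).1.totalDegree ≤ E) ∧
      ∀ Φ y, Lo E Φ → Un ν Φ → 0 < jc Φ y → ∃ I : Fin (N + 1) → _,
        jc Φ y ≤ (Module.finrank ℝ (PD (N + 1) E) + 1) ^ (N + 1) * jc (fun i => f (I i)) y := by
    intro ν
    by_cases h : Hb ν
    · obtain ⟨ι, _, A, hA, e⟩ := h
      obtain ⟨f, f1, f2⟩ := jb (ν := fun F : PD (N + 1) E => ν (Submodule.inclusion le F))
        ⟨ι, inferInstance, A ∘ₗ Submodule.inclusion le, hA.comp (Submodule.inclusion_injective le),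
          fun F => e _⟩
      refine ⟨fun a => Submodule.inclusion le (f a), fun _ => ⟨fun a => ⟨(f1 a).le, deg_PD (f a)⟩,
        fun Φ y h1 h2 h3 => ?_⟩⟩
      rw [jc, ← det_dm] at h3
      obtain ⟨I, hI⟩ := f2 (fun i => ⟨(Φ i).1, (mem_restrictTotalDegree _ _ _).2 (h1 i)⟩) 1 y h2
        (abs_pos.1 h3)
      refine ⟨I, ?_⟩
      rw [jc, jc, ← det_dm, ← det_dm]
      refine hI.trans (mul_le_mul_of_nonneg_right ?_ (abs_nonneg _))
      gcongr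
      linarith
    · exact ⟨0, fun h' => absurd h' h⟩
  choose f hf using k
  exact ⟨_, f, hf⟩

/-- The dilated datum with its chart. -/
theorem dil (N : ℕ) {E : ℕ} (hE : E ≤ D) : ∃ (r : ℕ) (K K' : ℝ) (f : (VD N D → ℝ) → Fin r → VD N D),
    0 ≤ K ∧ 0 ≤ K' ∧ ∀ (M c w : ℕ) (l : Ln N) (z G : ℝ) (δ : Dc N D), δ.h = fl1 (c + w) z →
    δ.Ok M (c + w) l → 0 ≤ G → δ.Tight M (c + w) l G → δ.Low E M (c + w) l G →
    ∃ (I : Fin (N + 1) → Fin r) (j : ℤ), |j - Real.log δ.J| ≤ G + K' * (w + 1) ∧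
      ∀ (Φ : Ch N D) (A : Dc N D), Φ = (fun i => Real.exp (-(K * (w + 1))) • f δ.ν (I i)) →
        A = ⟨fun F => Real.exp (K * (w + 1)) * δ.ν F, Real.exp j, fl1 c z⟩ →
        Lo E Φ ∧ A.Ok M c l ∧ A.Wit M c l Φ ∧
          ∀ y ∈ seg M c l (fl1 c z) 1, ‖uc Φ y‖ ≤ 1 ∧ jc Φ y ≤ Real.exp (j + 1) := by
  obtain ⟨r, f, hf⟩ := lows (N := N) hE
  obtain ⟨K, K0, hK⟩ := rem D
  obtain ⟨L, L0, hL⟩ := rem ((N + 1) * D)
  have r0 : 0 ≤ Real.log (r + 1) := Real.log_nonneg (by simp)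
  refine ⟨r, K, L + (N + 1) * (K + Real.log (r + 1)) + 1, f, K0, by positivity,
    fun M c w l z G δ eh ok G0 ti ⟨Φ₀, l1, l2, y₀, l3, l4⟩ => ?_⟩
  obtain ⟨f1, f2⟩ := hf _ ok.hb
  obtain ⟨I, hI⟩ := f2 Φ₀ y₀ l1 l2 (pos_of_mul_pos_right (ok.pos.trans_le l4) (Real.exp_pos _).le)
  obtain ⟨x, hx⟩ : ∃ x : ℝ, x = K * (w + 1) := ⟨_, rfl⟩
  have w0 : (0 : ℝ) ≤ w := Nat.cast_nonneg _
  have x0 : 0 ≤ x := by rw [hx]; positivity
  obtain ⟨Φ, hΦ⟩ : ∃ Φ : Ch N D, Φ = fun i => Real.exp (-x) • f δ.ν (I i) := ⟨_, rfl⟩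
  have ej : ∀ y, jc Φ y = Real.exp (-((N + 1) * x)) * jc (fun i => f δ.ν (I i)) y := fun y => by
    rw [hΦ, jc_smul, abs_of_pos (Real.exp_pos _), ← Real.exp_nat_mul]
    push_cast
    rw [mul_neg]
  have up : ∀ y ∈ seg M c l (fl1 c z) 4, jc Φ y ≤ Real.exp (Real.log δ.J + (G + L * (w + 1))) :=
    fun y hy => by
      have a := hL _ M c w l z 4 _ (Nc.deg_jac fun i => deg_PD (f δ.ν (I i))) (fun y hy =>
        ti _ (fun i => (f1 (I i)).1) y (eh ▸ seg_mono (by norm_num) hy)) y hy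
      rw [ej, Real.exp_add, Real.exp_add, Real.exp_log ok.pos]
      refine (mul_le_of_le_one_left (abs_nonneg _) (Real.exp_le_one_iff.2
        (neg_nonpos.2 (by positivity)))).trans (a.trans_eq (by ring))
  have y1 : y₀ ∈ seg M c l (fl1 c z) 4 := seg_nest (eh ▸ l3)
  have lo : Real.exp (Real.log δ.J - (G + (N + 1) * (x + Real.log (r + 1)))) ≤ jc Φ y₀ := by
    have e : ((r : ℝ) + 1) ^ (N + 1) = Real.exp ((N + 1) * Real.log (r + 1)) := by
      rw [← Real.exp_log (show (0 : ℝ) < (r + 1) ^ (N + 1) by positivity), Real.log_pow]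
      push_cast
      rfl
    rw [Real.exp_sub, Real.exp_log ok.pos, div_le_iff₀' (Real.exp_pos _), ej]
    refine (l4.trans (mul_le_mul_of_nonneg_left hI (Real.exp_pos _).le)).trans_eq ?_
    rw [e, ← mul_assoc, ← mul_assoc, ← Real.exp_add, ← Real.exp_add]
    congr 2
    ring
  obtain ⟨j, ⟨y, y2, j1⟩, j2⟩ := Int.exists_greatest_of_bdd
    (P := fun j : ℤ => ∃ y ∈ seg M c l (fl1 c z) 4, Real.exp j ≤ jc Φ y)
    ⟨⌈Real.log δ.J + (G + L * (w + 1))⌉, fun j ⟨y, a, b⟩ => by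
      exact_mod_cast (Real.exp_le_exp.1 (b.trans (up y a))).trans (Int.le_ceil _)⟩
    ⟨_, y₀, y1, (Real.exp_le_exp.2 (Int.floor_le _)).trans lo⟩
  have j3 : ∀ y ∈ seg M c l (fl1 c z) 4, jc Φ y ≤ Real.exp (j + 1) := fun y hy => by
    by_contra k
    have := j2 (j + 1) ⟨y, hy, by push_cast; exact (not_le.1 k).le⟩
    omega
  have bd : ∀ y ∈ seg M c l (fl1 c z) 5, ∀ F : VD N D, |eval y F.1| ≤ Real.exp x * δ.ν F :=
    fun y hy F => hx ▸ hK _ M c w l z 5 _ (deg_PD F) (fun y hy => ok.bd y (eh ▸ hy) F) y hy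
  have un : Un (fun F => Real.exp x * δ.ν F) Φ := fun i => by
    rw [hΦ]
    beta_reduce
    rw [ok.hb.smul, abs_of_pos (Real.exp_pos _), ← mul_assoc, ← Real.exp_add, add_neg_cancel,
      Real.exp_zero, one_mul]
    exact (f1 _).1
  refine ⟨I, j, ?_, fun Φ' A e1 e2 => ?_⟩
  · have a1 := Real.exp_le_exp.1 (j1.trans (up y y2))
    have a2 := Real.exp_le_exp.1 (lo.trans (j3 y₀ y1))
    have a3 : 0 ≤ (N + 1) * (K + Real.log (r + 1)) * (w + 1) := by positivity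
    have a4 : 0 ≤ (N + 1) * Real.log (r + 1) * w := by positivity
    have a5 : 0 ≤ L * (w + 1) := by positivity
    rw [hx] at a2
    exact abs_le.2 ⟨by nlinarith, by nlinarith⟩
  · rw [← hx] at e1 e2
    rw [← hΦ] at e1
    subst e1 e2
    refine ⟨fun i => ?_, ⟨hb_mul ok.hb (Real.exp_pos _), Real.exp_pos _, bd, _, un, y, y2, j1⟩,
      ⟨un, y, y2, j1⟩, fun y hy => ⟨(pi_norm_le_iff_of_nonneg zero_le_one).2 fun i =>
        (bd y (seg_mono (by norm_num) hy) _).trans (un i), j3 y (seg_mono (by norm_num) hy)⟩⟩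
    rw [hΦ]
    exact (totalDegree_smul_le _ _).trans (f1 _).2

end Pool.Agent.MP_5168f5_an.QA.ExtA
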