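import Pool.Agent.MP_5168f5_an.QA.Count

/-! The sharp count of chart cubes met by the extensions of lines from a cell. -/

namespace Pool.Agent.MP_5168f5_an.QA

open MeasureTheory Finset H17S MvPolynomial AN.En AN.En.EDirA
open H83 (IsPoly pt)
open scoped ENNReal

/-- Lines on which `Φ` is bounded over a window of length `τ` and has somewhere a large Jacobian:
the cubes of the chart `Ψ` that they meet over a window of length `L`. -/
theorem lineCnt (N D : ℕ) : ∃ C : ℝ, 1 ≤ C ∧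
    ∀ (Φ Ψ : Fin (N + 1) → MvPolynomial (Fin (N + 1)) ℝ) (t0 τ L Λ lam μ R : ℝ) (g : ℕ),
      (∀ i, (Φ i).totalDegree ≤ D) → (∀ i, (Ψ i).totalDegree ≤ D) → 0 < τ → τ ≤ L → 0 < Λ →
      0 < lam → 0 < μ → ∃ T : ℕ → Finset (Z (N + 1)),
        (∀ J, ∑ j ∈ range J, ((T j).card : ℝ) / 2 ^ j ≤
          C * (2 ^ g) ^ (N + 1) * (μ * ((L / τ) ^ (N + 1) * Λ ^ (N + 1) / lam) + 1 / 2 ^ g)) ∧
        ∀ a e : V N, ‖a‖ ≤ R → ‖e‖ ≤ R →
          (∀ s, t0 ≤ s → s ≤ t0 + τ → ∀ i, |eval (pt s (a + s • e)) (Φ i)| ≤ Λ) →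
          (∃ s, |s - t0| ≤ 7 * τ ∧ lam ≤ |(dm Φ (pt s (a + s • e))).det|) →
          ∀ t, |t - t0| ≤ L → (∀ i, |eval (pt t (a + t • e)) (Ψ i)| ≤ 1) → ∀ j : ℕ,
            μ * 2 ^ j ≤ |(dm Ψ (pt t (a + t • e))).det| →
            |(dm Ψ (pt t (a + t • e))).det| < μ * 2 ^ (j + 1) →
            fl g (fun i => eval (pt t (a + t • e)) (Ψ i)) ∈ T j := by
  classical
  obtain ⟨d, hd⟩ : ∃ d, d = (N + 1) * D := ⟨_, rfl⟩
  obtain ⟨Q, hQ⟩ : ∃ Q, Q = d + (N + 1) := ⟨_, rfl⟩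
  have Q0 : (0 : ℝ) < Q := by rw [hQ]; positivity
  obtain ⟨c, hc⟩ : ∃ c : ℝ, c = (1 / (16 * Q) / 2) ^ d / (d + 1) := ⟨_, rfl⟩
  have c0 : 0 < c := by rw [hc]; positivity
  obtain ⟨M, hM⟩ := area_le (N + 1) D
  obtain ⟨C1, C10, hC1⟩ := swept N (Bool ⊕ Fin (N + 1) × Option (Fin (N + 1))) (2 * (d + 1))
  obtain ⟨C2, C21, hC2⟩ := cnt (N + 1) (Option (Fin N ⊕ Fin N))
    (Option (Bool ⊕ Fin (N + 1) × Option (Fin (N + 1)))) (2 * (d + 1))
  obtain ⟨K, hK⟩ : ∃ K : ℝ, K = C1 * (2 * Q) ^ (N + 1) * (M * 4 ^ (N + 1) * 2 / c) := ⟨_, rfl⟩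
  have K0 : 0 ≤ K := by rw [hK]; positivity
  have hDd : D ≤ d := by rw [hd]; nlinarith [Nat.zero_le (N * D)]
  refine ⟨(1 + (Q : ℝ) ^ (N + 1)) * (C2 * (1 + K)), one_le_mul_of_one_le_of_one_le
    (le_add_of_nonneg_right (by positivity)) (one_le_mul_of_one_le_of_one_le C21 (by linarith)),
    fun Φ Ψ t0 τ L Λ lam μ R g hΦ hΨ τ0 τL Λ0 l0 μ0 => ?_⟩
  have L0 : 0 < L := τ0.trans_le τL
  have κ0 : 0 < c * lam / 2 := by positivity
  obtain ⟨θ, hθ⟩ : ∃ θ : ℝ, θ = τ / (2 * Q) := ⟨_, rfl⟩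
  have θ0 : 0 < θ := by rw [hθ]; positivity
  have θ1 : 2 * Q * θ = τ := by rw [hθ]; field_simp
  have f1 : ∀ i, IsPoly D fun x => eval x (Φ i) := fun i => ⟨_, hΦ i, fun _ => rfl⟩
  have f2 : IsPoly d fun x => (dm Φ x).det := hd ▸ isPoly_det hΦ
  set B : Set (V (N + 1)) :=
    {x | c * lam / 2 < |(dm Φ x).det|} ∩ {x | ∀ i, |eval x (Φ i)| < 2 * Λ} with hBd
  have hB : MeasurableSet B := by
    refine (measurableSet_lt measurable_const
      (continuous_abs.measurable.comp f2.measurable)).inter ?_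
    rw [Set.ofPred_forall]
    exact MeasurableSet.iInter fun i =>
      measurableSet_lt (continuous_abs.measurable.comp (f1 i).measurable) measurable_const
  have h1 := hM Φ B (2 * Λ) _ hΦ hB (by positivity) κ0 fun x hx =>
    ⟨hx.1.le, fun i => (hx.2 i).le⟩
  choose t t1 t2 t3 using fun k : Fin Q => slice hB (t0 + 2 * (k : ℕ) * θ) θ0
  have t0' : ∀ k, t0 ≤ t k ∧ t k ≤ t0 + τ := fun k => by
    have : ((k : ℕ) : ℝ) + 1 ≤ Q := by exact_mod_cast k.2
    have k0 : (0 : ℝ) ≤ (k : ℕ) := Nat.cast_nonneg _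
    exact ⟨by nlinarith [t1 k], by nlinarith [t2 k]⟩
  have t4 : ∀ i i', i < i' → θ ≤ t i' - t i := fun i i' h => by
    have : ((i : ℕ) : ℝ) + 1 ≤ (i' : ℕ) := by exact_mod_cast h
    nlinarith [t1 i', t2 i]
  have t5 : ∀ i i', i ≠ i' → θ ≤ |t i - t i'| := fun i i' h => by
    rcases lt_or_gt_of_ne h with k | k
    · exact (t4 _ _ k).trans (by rw [abs_sub_comm]; exact le_abs_self _)
    · exact (t4 _ _ k).trans (le_abs_self _)
  obtain ⟨S, hS⟩ : ∃ S : ℝ, S = N * R ^ 2 + 1 := ⟨_, rfl⟩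
  set p : (Fin (N + 1) → Fin Q) → Bool ⊕ Fin (N + 1) × Option (Fin (N + 1)) →
      (Fin N ⊕ Fin N → ℝ) → ℝ := fun σ => Sum.elim
    (fun b y => S - ∑ l, (if b then y (.inl l) else y (.inr l)) ^ 2) fun io y =>
      io.2.elim ((dm Φ (pt (t (σ io.1)) fun l => y (.inl l) + t (σ io.1) * y (.inr l))).det ^ 2 -
          (c * lam / 2) ^ 2) fun k => (2 * Λ) ^ 2 -
        eval (pt (t (σ io.1)) fun l => y (.inl l) + t (σ io.1) * y (.inr l)) (Φ k) ^ 2 with hp
  have l1 : ∀ (s : ℝ) i, IsPoly 1 fun y : Fin N ⊕ Fin N → ℝ =>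
      pt s (fun l => y (.inl l) + s * y (.inr l)) i := fun s i =>
    Fin.cases (H83.IsPoly.const 1 s)
      (fun l => (H83.IsPoly.coord _).add ((H83.IsPoly.coord _).const_mul s)) i
  have p1 : ∀ σ j, IsPoly (2 * (d + 1)) (p σ j) := fun σ j => by
    rcases j with b | ⟨i, _ | k⟩
    · refine (H83.IsPoly.const _ _).sub (H83.IsPoly.sum _ fun l _ => ?_)
      rcases b with _ | _ <;> exact ((H83.IsPoly.coord _).pow 2).mono (by omega)
    · exact (((f2.comp_aff (l1 _)).pow 2).mono (by omega)).sub (H83.IsPoly.const _ _)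
    · exact (H83.IsPoly.const _ _).sub ((((f1 k).comp_aff (l1 _)).pow 2).mono (by omega))
  have p2 : ∀ σ (a e : V N), (∀ j, 0 < p σ j (Sum.elim a e)) ↔ ∑ l, e l ^ 2 < S ∧
      ∑ l, a l ^ 2 < S ∧ ∀ i, pt (t (σ i)) (a + t (σ i) • e) ∈ B := fun σ a e => by
    simp only [hp, hBd, Sum.forall, Prod.forall, Option.forall, Bool.forall_bool, Sum.elim_inl,
      Sum.elim_inr, Option.elim_none, Option.elim_some, if_true, Bool.false_eq_true, if_false,
      sub_pos, sq_lt_sq, abs_of_pos κ0, abs_of_pos (mul_pos two_pos Λ0), and_assoc,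
      Set.mem_inter_iff, Set.mem_ofPred_eq]
    rfl
  have nb : ∀ a : V N, ∑ l, a l ^ 2 < S → ‖a‖ ≤ S + 1 := fun a h => by
    have k0 : 0 ≤ ∑ l, a l ^ 2 := sum_nonneg fun _ _ => sq_nonneg _
    refine (pi_norm_le_iff_of_nonneg (by linarith)).2 fun k => ?_
    have k2 : a k ^ 2 ≤ ∑ l, a l ^ 2 :=
      single_le_sum (f := fun k => a k ^ 2) (fun _ _ => sq_nonneg _) (mem_univ k)
    exact abs_le.2 ⟨by nlinarith [sq_nonneg (a k + 1)], by nlinarith [sq_nonneg (a k - 1)]⟩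
  have nb' : ∀ a : V N, ‖a‖ ≤ R → ∑ l, a l ^ 2 < S := fun a h => by
    refine lt_of_le_of_lt (sum_le_card_nsmul _ _ (R ^ 2) fun k _ => ?_) ?_
    · exact sq_le_sq' (abs_le.1 ((norm_le_pi_norm _ k).trans h)).1
        (abs_le.1 ((norm_le_pi_norm _ k).trans h)).2
    · rw [card_univ, Fintype.card_fin, nsmul_eq_mul, hS]
      linarith
  obtain ⟨W, hW⟩ : ∃ W : ℝ, W = K * ((L / τ) ^ (N + 1) * Λ ^ (N + 1) / lam) := ⟨_, rfl⟩
  have W0 : 0 ≤ W := by rw [hW]; positivity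
  have key : ∀ σ : Fin (N + 1) → Fin Q, ∃ T : ℕ → Finset (Z (N + 1)),
      (∀ J, ∑ j ∈ range J, ((T j).card : ℝ) / 2 ^ j ≤
        C2 * (2 ^ g) ^ (N + 1) * (μ * W + 1 / 2 ^ g)) ∧ (Function.Injective σ →
      ∀ (a e : V N) (s : ℝ), (∀ j, 0 < p σ j (Sum.elim a e)) → |s - t0| ≤ L →
        (∀ i, |eval (pt s (a + s • e)) (Ψ i)| ≤ 1) → ∀ j : ℕ,
        μ * 2 ^ j ≤ |(dm Ψ (pt s (a + s • e))).det| →
        |(dm Ψ (pt s (a + s • e))).det| < μ * 2 ^ (j + 1) →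
        fl g (fun i => eval (pt s (a + s • e)) (Ψ i)) ∈ T j) := fun σ => by
    by_cases hσ : Function.Injective σ
    swap
    · exact ⟨fun _ => ∅, fun J => by
        simp only [card_empty, Nat.cast_zero, zero_div, sum_const_zero]
        positivity, fun h => absurd h hσ⟩
    have k1 := hC1 (p σ) (fun i => t (σ i)) θ (S + 1) t0 L
      (M * (2 * (2 * Λ)) ^ (N + 1) / (c * lam / 2) / θ) (fun i => {z | pt (t (σ i)) z ∈ B})
      (p1 σ) θ0 (by positivity) (fun i i' h => t5 _ _ (hσ.ne h))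
      (fun i => abs_le.2 ⟨by linarith [(t0' (σ i)).1], by linarith [(t0' (σ i)).2]⟩)
      (fun i => (t3 _).trans (by
        rw [ENNReal.ofReal_div_of_pos θ0]
        exact ENNReal.div_le_div_right h1 _))
      fun a e h => ⟨nb a ((p2 σ a e).1 h).2.1, nb e ((p2 σ a e).1 h).1, ((p2 σ a e).1 h).2.2⟩
    have e1 : C1 * L * (L / θ) ^ N * (M * (2 * (2 * Λ)) ^ (N + 1) / (c * lam / 2) / θ) = W := by
      rw [hW, hK, hθ, ← mul_assoc 2 2, mul_pow, show (2 : ℝ) * 2 = 4 by norm_num]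
      simp only [div_pow, mul_pow, pow_succ]
      field_simp
    rw [e1] at k1
    have e2 : ∀ y : Option (Fin N ⊕ Fin N) → ℝ, (∀ j : Option _, 0 < (j.elim
        (fun y => (2 * L) ^ 2 - (y none - t0) ^ 2) (fun j y => p σ j fun s => y (some s)) :
          (Option (Fin N ⊕ Fin N) → ℝ) → ℝ) y) ↔
        |y none - t0| < 2 * L ∧ ∀ j, 0 < p σ j fun s => y (some s) := fun y => by
      simp only [Option.forall, Option.elim_none, Option.elim_some, sub_pos, sq_lt_sq,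
        abs_of_pos (mul_pos two_pos L0)]
    have e3 : ∀ y : Option (Fin N ⊕ Fin N) → ℝ, (fun s => y (some s)) =
        Sum.elim (fun l => y (some (.inl l))) fun l => y (some (.inr l)) := fun y =>
      funext fun s => by rcases s with l | l <;> rfl
    obtain ⟨T, hT, hT'⟩ := hC2 (fun j => j.elim (fun y => (2 * L) ^ 2 - (y none - t0) ^ 2)
        fun j y => p σ j fun s => y (some s))
      (fun y => pt (y none) fun l => y (some (.inl l)) + y none * y (some (.inr l))) Ψ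
      (|t0| + 2 * L + (|S| + 1)) μ W g
      (fun j => by
        rcases j with _ | j
        · exact (H83.IsPoly.const _ _).sub
            ((((H83.IsPoly.coord _).sub (H83.IsPoly.const 1 t0)).pow 2).mono (by omega))
        · exact (p1 σ j).comp_aff fun s => H83.IsPoly.coord _)
      (fun i => Fin.cases ((H83.IsPoly.coord _).mono (by omega)) (fun l =>
        ((H83.IsPoly.coord _).mono (by omega)).add
          (((H83.IsPoly.coord _).mul (H83.IsPoly.coord _)).mono (by omega))) i)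
      (fun i => (hΨ i).trans (by omega))
      (fun y hy => by
        obtain ⟨y1, y2⟩ := (e2 y).1 hy
        rw [e3] at y2
        obtain ⟨y3, y4, -⟩ := (p2 σ _ _).1 y2
        have k2 := le_abs_self S
        have k3 := abs_nonneg t0
        have k4 := abs_nonneg S
        refine (pi_norm_le_iff_of_nonneg (by positivity)).2 fun s => ?_
        rcases s with _ | l | l
        · have := abs_add_le (y none - t0) t0
          rw [sub_add_cancel] at this
          exact this.trans (by linarith)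
        · exact ((norm_le_pi_norm (fun l => y (some (.inl l))) l).trans (nb _ y4)).trans
            (by linarith)
        · exact ((norm_le_pi_norm (fun l => y (some (.inr l))) l).trans (nb _ y3)).trans
            (by linarith)) μ0 W0
      (le_trans (measure_mono (by
        rintro _ ⟨y, hy, rfl⟩
        obtain ⟨y1, y2⟩ := (e2 y).1 hy
        rw [e3] at y2
        exact ⟨y none, _, _, y1, y2, rfl⟩)) k1)
    refine ⟨T, hT, fun _ a e s h2 h3 => ?_⟩
    exact hT' (fun o => o.elim s (Sum.elim a e)) ((e2 _).2 ⟨h3.trans_lt (by linarith), h2⟩)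
  choose T hT hT' using key
  refine ⟨fun j => univ.biUnion fun σ => T σ j, fun J => ?_, ?_⟩
  · calc _ ≤ ∑ j ∈ range J, ∑ σ, ((T σ j).card : ℝ) / 2 ^ j := by
          refine sum_le_sum fun j _ => ?_
          rw [← sum_div]
          gcongr
          exact_mod_cast card_biUnion_le
      _ ≤ (Q : ℝ) ^ (N + 1) * (C2 * (2 ^ g) ^ (N + 1) * (μ * W + 1 / 2 ^ g)) := by
          rw [sum_comm]
          refine (sum_le_card_nsmul _ _ _ fun σ _ => hT σ J).trans_eq ?_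
          rw [card_univ, Fintype.card_fun, Fintype.card_fin, Fintype.card_fin, nsmul_eq_mul,
            Nat.cast_pow]
      _ ≤ (1 + (Q : ℝ) ^ (N + 1)) * (C2 * (2 ^ g) ^ (N + 1) * ((1 + K) *
            (μ * ((L / τ) ^ (N + 1) * Λ ^ (N + 1) / lam) + 1 / 2 ^ g))) := by
          have k1 : 0 ≤ μ * ((L / τ) ^ (N + 1) * Λ ^ (N + 1) / lam) := by positivity
          have k2 : (0 : ℝ) ≤ 1 / 2 ^ g := by positivity
          have k3 : (0 : ℝ) ≤ C2 := by linarith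
          gcongr
          · linarith
          · rw [hW]
            nlinarith [mul_nonneg K0 k2]
      _ = _ := by ring
  rintro a e ha he hb ⟨y, y1, hy⟩ s s1 s2 j s3 s4
  obtain ⟨q, q1, q2⟩ := f2.line (pt t0 (a + t0 • e)) (pt (8 * τ) ((8 * τ) • e))
  have q3 : ∀ x, q.eval ((x - t0) / (8 * τ)) = (dm Φ (pt x (a + x • e))).det := fun x => by
    rw [← q2, H83.smul_pt, H83.pt_add, smul_smul, div_mul_cancel₀ _ (by positivity),
      add_sub_cancel, add_assoc, ← add_smul, add_sub_cancel]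
  obtain ⟨σ, σ1, σ2⟩ := good q q1 hQ.ge (fun k => (t k - t0) / (8 * τ)) (τ := 1 / (16 * Q))
    (y := (y - t0) / (8 * τ)) (by positivity)
    (fun i => by
      rw [← sub_div, abs_div, abs_of_pos (a := 8 * τ) (by positivity), div_le_one (by positivity)]
      have := abs_le.1 y1
      exact abs_le.2 ⟨by linarith [(t0' i).1], by linarith [(t0' i).2]⟩)
    fun i i' h => by
      rw [← sub_div, abs_div, abs_of_pos (a := 8 * τ) (by positivity), sub_sub_sub_cancel_right,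
        le_div_iff₀ (by positivity)]
      refine le_trans (le_of_eq ?_) (t5 i i' h)
      rw [hθ]
      field_simp
      norm_num
  refine mem_biUnion.2 ⟨σ, mem_univ _, hT' σ σ1 a e s ((p2 σ a e).2
    ⟨nb' e he, nb' a ha, fun i => ⟨?_, fun k => ?_⟩⟩) s1 s2 j s3 s4⟩
  · have k1 := σ2 i
    rw [q3, q3] at k1
    have k2 : c * lam ≤ |(dm Φ (pt (t (σ i)) (a + t (σ i) • e))).det| := by
      rw [hc, div_mul_eq_mul_div, div_le_iff₀ (by positivity), mul_comm _ ((d : ℝ) + 1)]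
      exact (mul_le_mul_of_nonneg_left hy (by positivity)).trans k1
    exact lt_of_lt_of_le (by linarith) k2
  · exact (hb _ (t0' _).1 (t0' _).2 k).trans_lt (by linarith)

/-- A large value of a polynomial on a line can be moved into a given third of the window. -/
theorem move (d : ℕ) : ∃ c : ℝ, 0 < c ∧ c ≤ 1 ∧ ∀ {n : ℕ} (F : V n → ℝ) (γ : ℝ → V n) (b w : V n)
    (u τ y : ℝ), IsPoly d F → (∀ s, γ s = b + s • w) → 0 < τ → |y - u| ≤ τ →
    ∃ s, u ≤ s ∧ s ≤ u + τ / 3 ∧ c * |F (γ y)| ≤ |F (γ s)| := by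
  have d0 : (0 : ℝ) < d + 1 := by positivity
  have d1 : 1 / (6 * ((d : ℝ) + 1)) / 2 ≤ 1 := by
    rw [div_le_one two_pos, div_le_iff₀ (by positivity)]
    nlinarith [Nat.cast_nonneg (α := ℝ) d]
  refine ⟨(1 / (6 * (d + 1)) / 2) ^ d / (d + 1), by positivity, ?_,
    fun F γ b w u τ y hF hγ τ0 hy => ?_⟩
  · rw [div_le_one d0]
    exact (pow_le_one₀ (by positivity) d1).trans (by linarith [Nat.cast_nonneg (α := ℝ) d])
  obtain ⟨q, q1, q2⟩ := hF.line (γ u) ((2 * τ) • w)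
  have q3 : ∀ x, q.eval x = F (γ (u + x * (2 * τ))) := fun x => by
    rw [← q2, hγ, hγ, smul_smul, add_assoc, ← add_smul]
  have k0 : ∀ i : Fin (d + 1), (0 : ℝ) ≤ (i : ℕ) / (6 * (d + 1)) ∧
      ((i : ℕ) : ℝ) / (6 * (d + 1)) ≤ 1 / 6 := fun i => by
    have : ((i : ℕ) : ℝ) + 1 ≤ d + 1 := by exact_mod_cast i.2
    refine ⟨by positivity, ?_⟩
    rw [div_le_div_iff₀ (by positivity) (by norm_num)]
    linarith
  have k1 : |(y - u) / (2 * τ)| ≤ 1 / 2 := by
    rw [abs_div, abs_of_pos (a := 2 * τ) (by positivity), div_le_iff₀ (by positivity)]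
    linarith
  obtain ⟨σ, -, σ2⟩ := good (n := 1) q q1 le_rfl (fun i : Fin (d + 1) => (i : ℕ) / (6 * (d + 1)))
    (τ := 1 / (6 * (d + 1))) (y := (y - u) / (2 * τ)) (by positivity)
    (fun i => abs_le.2 ⟨by linarith [(abs_le.1 k1).2, (k0 i).1],
      by linarith [(abs_le.1 k1).1, (k0 i).2]⟩)
    fun i i' h => by
      rw [← sub_div, abs_div, abs_of_pos (a := 6 * ((d : ℝ) + 1)) (by positivity)]
      gcongr
      have : (1 : ℤ) ≤ |((i : ℕ) : ℤ) - (i' : ℕ)| :=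
        Int.one_le_abs (sub_ne_zero.2 fun e => h (Fin.ext (by exact_mod_cast e)))
      exact_mod_cast this
  have k2 := σ2 0
  rw [q3, q3, div_mul_cancel₀ _ (by positivity), add_sub_cancel] at k2
  refine ⟨u + (σ 0 : ℕ) / (6 * (d + 1)) * (2 * τ), ?_, ?_, by
    rw [div_mul_eq_mul_div, div_le_iff₀ d0]
    exact k2.trans_eq (mul_comm _ _)⟩
  · nlinarith [(k0 (σ 0)).1]
  · nlinarith [(k0 (σ 0)).2]

/-- The same count for fat segments. -/
theorem fatCnt (N D : ℕ) : ∃ C : ℝ, 1 ≤ C ∧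
    ∀ (Φ Ψ : Fin (N + 1) → MvPolynomial (Fin (N + 1)) ℝ) (t0 τ L Λ lam μ R ρ : ℝ) (g : ℕ),
      (∀ i, (Φ i).totalDegree ≤ D) → (∀ i, (Ψ i).totalDegree ≤ D) → 0 < τ → τ ≤ L → 0 < Λ →
      0 < lam → 0 < μ → ∃ T : ℕ → Finset (Z (N + 1)),
        (∀ J, ∑ j ∈ range J, ((T j).card : ℝ) / 2 ^ j ≤
          C * (2 ^ g) ^ (N + 1) * (μ * ((L / τ) ^ (N + 1) * Λ ^ (N + 1) / lam) + 1 / 2 ^ g)) ∧
        ∀ a e : V N, ‖a‖ ≤ R → ‖e‖ ≤ R →
          (∀ (s : ℝ) (ξ : V N), t0 ≤ s → s ≤ t0 + τ → ‖ξ‖ ≤ ρ →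
            ∀ i, |eval (pt s (a + s • e + ξ)) (Φ i)| ≤ Λ) →
          (∃ (s : ℝ) (ξ : V N), t0 ≤ s ∧ s ≤ t0 + τ ∧ ‖ξ‖ ≤ ρ ∧
            lam ≤ |(dm Φ (pt s (a + s • e + ξ))).det|) →
          ∀ (t : ℝ) (ξ : V N) (x : V (N + 1)), |t - t0| ≤ L → ‖ξ‖ ≤ ρ → x = pt t (a + t • e + ξ) →
            (∀ i, |eval x (Ψ i)| ≤ 1) → ∀ j : ℕ, μ * 2 ^ j ≤ |(dm Ψ x).det| →
            |(dm Ψ x).det| < μ * 2 ^ (j + 1) → fl g (fun i => eval x (Ψ i)) ∈ T j := by
  classical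
  obtain ⟨C, C1, hC⟩ := lineCnt N D
  obtain ⟨c, c0, c1, hc⟩ := move ((N + 1) * D)
  have h12 : (1 : ℝ) ≤ 12 ^ (N + 1) / c := by
    rw [le_div_iff₀ c0, one_mul]
    exact c1.trans (one_le_pow₀ (by norm_num))
  refine ⟨2 * C * (12 ^ (N + 1) / c), one_le_mul_of_one_le_of_one_le (by linarith) h12,
    fun Φ Ψ t0 τ L Λ lam μ R ρ g hΦ hΨ τ0 τL Λ0 l0 μ0 => ?_⟩
  have L0 : 0 < L := τ0.trans_le τL
  choose T hT hT' using fun v : ℝ => hC Φ Ψ v (τ / 6) (2 * L) Λ (c * lam) μ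
    (R + ρ + (1 + |t0| + τ) * (6 / τ * (2 * ρ))) g hΦ hΨ (by positivity) (by linarith) Λ0
    (by positivity) μ0
  refine ⟨fun j => T (t0 + τ / 3) j ∪ T (t0 + τ / 2) j, fun J => ?_, ?_⟩
  · have k1 : ∀ v, ∑ j ∈ range J, ((T v j).card : ℝ) / 2 ^ j ≤ C * (12 ^ (N + 1) / c) *
        (2 ^ g) ^ (N + 1) * (μ * ((L / τ) ^ (N + 1) * Λ ^ (N + 1) / lam) + 1 / 2 ^ g) := fun v => by
      refine (hT v J).trans ?_
      have e : μ * ((2 * L / (τ / 6)) ^ (N + 1) * Λ ^ (N + 1) / (c * lam)) =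
          12 ^ (N + 1) / c * (μ * ((L / τ) ^ (N + 1) * Λ ^ (N + 1) / lam)) := by
        rw [show 2 * L / (τ / 6) = 12 * (L / τ) by field_simp; norm_num, mul_pow]
        field_simp
      have k2 : (0 : ℝ) ≤ 1 / 2 ^ g := by positivity
      rw [e, mul_right_comm C (12 ^ (N + 1) / c), mul_assoc (C * _) (12 ^ (N + 1) / c),
        mul_add (12 ^ (N + 1) / c : ℝ)]
      gcongr
      exact le_mul_of_one_le_left k2 h12
    calc _ ≤ ∑ j ∈ range J, (((T (t0 + τ / 3) j).card : ℝ) / 2 ^ j +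
            ((T (t0 + τ / 2) j).card : ℝ) / 2 ^ j) := by
          refine sum_le_sum fun j _ => ?_
          rw [← add_div]
          gcongr
          exact_mod_cast card_union_le _ _
      _ ≤ _ := by
          rw [sum_add_distrib]
          linarith [k1 (t0 + τ / 3), k1 (t0 + τ / 2)]
  rintro a e ha he hb ⟨y, η, y0, y1, hη, hy⟩ t ξ x ht hξ rfl
  have ρ0 : 0 ≤ ρ := (norm_nonneg _).trans hξ
  have R0 : 0 ≤ R := (norm_nonneg _).trans ha
  have ht' := abs_le.1 ht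
  have key : ∀ u v : ℝ, t0 ≤ u → u + τ / 3 ≤ t0 + τ → t0 + τ / 3 ≤ v → v ≤ t0 + τ / 2 →
      (∀ s, u ≤ s → s ≤ u + τ / 3 → τ / 6 ≤ |t - s| ∧ ∀ s', v ≤ s' → s' ≤ v + τ / 6 →
        0 ≤ (s' - s) * (t - s)⁻¹ ∧ (s' - s) * (t - s)⁻¹ ≤ 1) →
      (∀ i, |eval (pt t (a + t • e + ξ)) (Ψ i)| ≤ 1) → ∀ j : ℕ,
      μ * 2 ^ j ≤ |(dm Ψ (pt t (a + t • e + ξ))).det| →
      |(dm Ψ (pt t (a + t • e + ξ))).det| < μ * 2 ^ (j + 1) →
      fl g (fun i => eval (pt t (a + t • e + ξ)) (Ψ i)) ∈ T v j := by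
    intro u v u0 u1 v0 v1 hu
    obtain ⟨s, s0, s1, s2⟩ := hc (fun x => (dm Φ x).det) (fun s => pt s (a + s • e + η))
      (pt 0 (a + η)) (pt 1 e) u τ y (isPoly_det hΦ) (fun s => by
        rw [H83.smul_pt, H83.pt_add, mul_one, zero_add, add_right_comm]) τ0
      (abs_le.2 ⟨by linarith, by linarith⟩)
    obtain ⟨k1, k2⟩ := hu s s0 s1
    have k3 : t - s ≠ 0 := abs_pos.1 (lt_of_lt_of_le (by positivity) k1)
    obtain ⟨b, hb'⟩ : ∃ b, b = (t - s)⁻¹ • (ξ - η) := ⟨_, rfl⟩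
    have k4 : ‖b‖ ≤ 6 / τ * (2 * ρ) := by
      rw [hb', norm_smul, norm_inv, Real.norm_eq_abs]
      gcongr
      · rw [← inv_div]
        exact inv_anti₀ (by positivity) k1
      · linarith [norm_sub_le ξ η]
    have k5 : ∀ s' : ℝ, a + η - s • b + s' • (e + b) =
        a + s' • e + (η + ((s' - s) * (t - s)⁻¹) • (ξ - η)) := fun s' => by
      rw [mul_smul, ← hb', sub_smul, smul_add]
      abel
    have k6 : a + η - s • b + t • (e + b) = a + t • e + ξ := by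
      rw [k5, mul_inv_cancel₀ k3, one_smul, add_sub_cancel]
    have k7 : 0 ≤ 6 / τ * (2 * ρ) := by positivity
    have k8 : |s| ≤ |t0| + τ := abs_le.2
      ⟨by linarith [neg_abs_le t0], by linarith [le_abs_self t0]⟩
    have k9 : ‖s • b‖ ≤ (|t0| + τ) * (6 / τ * (2 * ρ)) := by
      rw [norm_smul, Real.norm_eq_abs]
      gcongr
    have k10 : 0 ≤ (|t0| + τ) * (6 / τ * (2 * ρ)) := by positivity
    rw [← k6]
    refine hT' v _ _ ?_ ?_ (fun s' v2 v3 => ?_) ⟨s, abs_le.2 ⟨by linarith, by linarith⟩, ?_⟩ t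
      (abs_le.2 ⟨by linarith, by linarith⟩)
    · linarith [norm_sub_le (a + η) (s • b), norm_add_le a η]
    · linarith [norm_add_le e b]
    · obtain ⟨m0, m1⟩ := k2 s' v2 v3
      rw [k5]
      refine hb s' _ (by linarith) (by linarith) ?_
      generalize (s' - s) * (t - s)⁻¹ = m at m0 m1
      have e1 : η + m • (ξ - η) = (1 - m) • η + m • ξ := by
        rw [smul_sub, sub_smul, one_smul]
        abel
      rw [e1]
      refine (norm_add_le _ _).trans ?_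
      rw [norm_smul, norm_smul, Real.norm_of_nonneg m0, Real.norm_of_nonneg (sub_nonneg.2 m1)]
      nlinarith
    · rw [k5, sub_self, zero_mul, zero_smul, add_zero]
      exact (mul_le_mul_of_nonneg_left hy c0.le).trans s2
  intro x1 j x2 x3
  rcases le_total (t0 + τ / 2) t with h | h
  · refine mem_union_left _ (key t0 (t0 + τ / 3) le_rfl (by linarith) le_rfl (by linarith)
      (fun s s0 s1 => ⟨le_trans (by linarith) (le_abs_self _), fun s' v2 v3 => ?_⟩) x1 j x2 x3)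
    have : 0 < t - s := by linarith
    rw [← div_eq_mul_inv, div_le_one this]
    exact ⟨div_nonneg (by linarith) this.le, by linarith⟩
  · refine mem_union_right _ (key (t0 + 2 * τ / 3) (t0 + τ / 2) (by linarith) (by linarith)
      (by linarith) le_rfl
      (fun s s0 s1 => ⟨le_trans (by linarith) (neg_le_abs _), fun s' v2 v3 => ?_⟩) x1 j x2 x3)
    have : t - s < 0 := by linarith
    rw [← div_eq_mul_inv, div_le_one_of_neg this]
    exact ⟨div_nonneg_of_nonpos (by linarith) this.le, by linarith⟩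

end Pool.Agent.MP_5168f5_an.QA
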