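import Pool.Agent.MP_5168f5_an.QA.ExtCnt

/-! The extensions of the fat segments of a cell are covered by boundedly many images of basic
sets of sharp volume; the number of chart cubes under an upper bound for the Jacobian. -/

namespace Pool.Agent.MP_5168f5_an.QA

open MeasureTheory Finset H17S MvPolynomial AN.En AN.En.EDirA
open H83 (IsPoly pt)
open scoped ENNReal

/-- The point of the line with parameters `y` at the height `y none`. -/
def pnt {N : ℕ} (y : Option (Fin N ⊕ Fin N) → ℝ) : V (N + 1) :=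
  pt (y none) fun l => y (some (.inl l)) + y none * y (some (.inr l))

theorem isPoly_pnt {N : ℕ} (i : Fin (N + 1)) :
    IsPoly 2 fun y : Option (Fin N ⊕ Fin N) → ℝ => pnt y i :=
  Fin.cases ((H83.IsPoly.coord _).mono (by omega)) (fun l =>
    ((H83.IsPoly.coord _).mono (by omega)).add ((H83.IsPoly.coord _).mul (H83.IsPoly.coord _))) i

/-- The index set of the inequalities. -/
abbrev Ix (N : ℕ) : Type := Option (Bool ⊕ Fin (N + 1) × Option (Fin (N + 1)))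

/-- The set `A` is covered by the images of finitely many bounded basic sets of volume `W`. -/
def Cov (N d : ℕ) (ι : Type) (W : ℝ) (A : Set (V (N + 1))) : Prop :=
  ∃ (p : ι → Ix N → (Option (Fin N ⊕ Fin N) → ℝ) → ℝ) (R : ℝ), (∀ i j, IsPoly d (p i j)) ∧
    (∀ i y, (∀ j, 0 < p i j y) → ‖y‖ ≤ R) ∧
    (∀ i, volume (pnt '' {y | ∀ j, 0 < p i j y}) ≤ ENNReal.ofReal W) ∧
    ∀ x ∈ A, ∃ i y, (∀ j, 0 < p i j y) ∧ pnt y = x

theorem lineCov (N D : ℕ) : ∃ (d Q : ℕ) (K : ℝ), 0 ≤ K ∧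
    ∀ (Φ : Fin (N + 1) → MvPolynomial (Fin (N + 1)) ℝ) (t0 τ L Λ lam R : ℝ),
      (∀ i, (Φ i).totalDegree ≤ D) → 0 < τ → τ ≤ L → 0 < Λ → 0 < lam →
      Cov N d {σ : Fin (N + 1) → Fin Q // Function.Injective σ}
        (K * ((L / τ) ^ (N + 1) * Λ ^ (N + 1) / lam))
        {x | ∃ a e : V N, ‖a‖ ≤ R ∧ ‖e‖ ≤ R ∧
          (∀ s, t0 ≤ s → s ≤ t0 + τ → ∀ i, |eval (pt s (a + s • e)) (Φ i)| ≤ Λ) ∧
          (∃ s, |s - t0| ≤ 7 * τ ∧ lam ≤ |(dm Φ (pt s (a + s • e))).det|) ∧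
          ∃ t, |t - t0| ≤ L ∧ x = pt t (a + t • e)} := by
  classical
  obtain ⟨d, hd⟩ : ∃ d, d = (N + 1) * D := ⟨_, rfl⟩
  obtain ⟨Q, hQ⟩ : ∃ Q, Q = d + (N + 1) := ⟨_, rfl⟩
  have Q0 : (0 : ℝ) < Q := by rw [hQ]; positivity
  obtain ⟨c, hc⟩ : ∃ c : ℝ, c = (1 / (16 * Q) / 2) ^ d / (d + 1) := ⟨_, rfl⟩
  have c0 : 0 < c := by rw [hc]; positivity
  obtain ⟨M, hM⟩ := area_le (N + 1) D
  obtain ⟨C1, C10, hC1⟩ := swept N (Bool ⊕ Fin (N + 1) × Option (Fin (N + 1))) (2 * (d + 1))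
  obtain ⟨K, hK⟩ : ∃ K : ℝ, K = C1 * (2 * Q) ^ (N + 1) * (M * 4 ^ (N + 1) * 2 / c) := ⟨_, rfl⟩
  have K0 : 0 ≤ K := by rw [hK]; positivity
  have hDd : D ≤ d := by rw [hd]; nlinarith [Nat.zero_le (N * D)]
  refine ⟨2 * (d + 1), Q, K, K0, fun Φ t0 τ L Λ lam R hΦ τ0 τL Λ0 l0 => ?_⟩
  have L0 : 0 < L := τ0.trans_le τL
  have κ0 : 0 < c * lam / 2 := by positivity
  obtain ⟨θ, hθ⟩ : ∃ θ : ℝ, θ = τ / (2 * Q) := ⟨_, rfl⟩
  have θ0 : 0 < θ := by rw [hθ]; positivity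
  have θ1 : 2 * Q * θ = τ := by rw [hθ]; field_simp
  have f1 : ∀ i, IsPoly D fun x => eval x (Φ i) := fun i => ⟨_, hΦ i, fun _ => rfl⟩
  have f2 : IsPoly d fun x => (dm Φ x).det := hd ▸ isPoly_det hΦ
  set B : Set (V (N + 1)) :=
    {x | c * lam / 2 < |(dm Φ x).det|} ∩ {x | ∀ i, |eval x (Φ i)| < 2 * Λ} with hBd
  have hB : MeasurableSet B := by
    refine (measurableSet_lt measurable_const
      (continuous_abs.measurable.comp f2.measurable)).inter ?_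
    rw [Set.ofPred_forall]
    exact MeasurableSet.iInter fun i =>
      measurableSet_lt (continuous_abs.measurable.comp (f1 i).measurable) measurable_const
  have h1 := hM Φ B (2 * Λ) _ hΦ hB (by positivity) κ0 fun x hx =>
    ⟨hx.1.le, fun i => (hx.2 i).le⟩
  choose t t1 t2 t3 using fun k : Fin Q => slice hB (t0 + 2 * (k : ℕ) * θ) θ0
  have t0' : ∀ k, t0 ≤ t k ∧ t k ≤ t0 + τ := fun k => by
    have : ((k : ℕ) : ℝ) + 1 ≤ Q := by exact_mod_cast k.2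
    have k0 : (0 : ℝ) ≤ (k : ℕ) := Nat.cast_nonneg _
    exact ⟨by nlinarith [t1 k], by nlinarith [t2 k]⟩
  have t4 : ∀ i i', i < i' → θ ≤ t i' - t i := fun i i' h => by
    have : ((i : ℕ) : ℝ) + 1 ≤ (i' : ℕ) := by exact_mod_cast h
    nlinarith [t1 i', t2 i]
  have t5 : ∀ i i', i ≠ i' → θ ≤ |t i - t i'| := fun i i' h => by
    rcases lt_or_gt_of_ne h with k | k
    · exact (t4 _ _ k).trans (by rw [abs_sub_comm]; exact le_abs_self _)
    · exact (t4 _ _ k).trans (le_abs_self _)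
  obtain ⟨S, hS⟩ : ∃ S : ℝ, S = N * R ^ 2 + 1 := ⟨_, rfl⟩
  set p : (Fin (N + 1) → Fin Q) → Bool ⊕ Fin (N + 1) × Option (Fin (N + 1)) →
      (Fin N ⊕ Fin N → ℝ) → ℝ := fun σ => Sum.elim
    (fun b y => S - ∑ l, (if b then y (.inl l) else y (.inr l)) ^ 2) fun io y =>
      io.2.elim ((dm Φ (pt (t (σ io.1)) fun l => y (.inl l) + t (σ io.1) * y (.inr l))).det ^ 2 -
          (c * lam / 2) ^ 2) fun k => (2 * Λ) ^ 2 -
        eval (pt (t (σ io.1)) fun l => y (.inl l) + t (σ io.1) * y (.inr l)) (Φ k) ^ 2 with hp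
  have l1 : ∀ (s : ℝ) i, IsPoly 1 fun y : Fin N ⊕ Fin N → ℝ =>
      pt s (fun l => y (.inl l) + s * y (.inr l)) i := fun s i =>
    Fin.cases (H83.IsPoly.const 1 s)
      (fun l => (H83.IsPoly.coord _).add ((H83.IsPoly.coord _).const_mul s)) i
  have p1 : ∀ σ j, IsPoly (2 * (d + 1)) (p σ j) := fun σ j => by
    rcases j with b | ⟨i, _ | k⟩
    · refine (H83.IsPoly.const _ _).sub (H83.IsPoly.sum _ fun l _ => ?_)
      rcases b with _ | _ <;> exact ((H83.IsPoly.coord _).pow 2).mono (by omega)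
    · exact (((f2.comp_aff (l1 _)).pow 2).mono (by omega)).sub (H83.IsPoly.const _ _)
    · exact (H83.IsPoly.const _ _).sub ((((f1 k).comp_aff (l1 _)).pow 2).mono (by omega))
  have p2 : ∀ σ (a e : V N), (∀ j, 0 < p σ j (Sum.elim a e)) ↔ ∑ l, e l ^ 2 < S ∧
      ∑ l, a l ^ 2 < S ∧ ∀ i, pt (t (σ i)) (a + t (σ i) • e) ∈ B := fun σ a e => by
    simp only [hp, hBd, Sum.forall, Prod.forall, Option.forall, Bool.forall_bool, Sum.elim_inl,
      Sum.elim_inr, Option.elim_none, Option.elim_some, if_true, Bool.false_eq_true, if_false,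
      sub_pos, sq_lt_sq, abs_of_pos κ0, abs_of_pos (mul_pos two_pos Λ0), and_assoc,
      Set.mem_inter_iff, Set.mem_ofPred_eq]
    rfl
  have nb : ∀ a : V N, ∑ l, a l ^ 2 < S → ‖a‖ ≤ S + 1 := fun a h => by
    have k0 : 0 ≤ ∑ l, a l ^ 2 := sum_nonneg fun _ _ => sq_nonneg _
    refine (pi_norm_le_iff_of_nonneg (by linarith)).2 fun k => ?_
    have k2 : a k ^ 2 ≤ ∑ l, a l ^ 2 :=
      single_le_sum (f := fun k => a k ^ 2) (fun _ _ => sq_nonneg _) (mem_univ k)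
    exact abs_le.2 ⟨by nlinarith [sq_nonneg (a k + 1)], by nlinarith [sq_nonneg (a k - 1)]⟩
  have nb' : ∀ a : V N, ‖a‖ ≤ R → ∑ l, a l ^ 2 < S := fun a h => by
    refine lt_of_le_of_lt (sum_le_card_nsmul _ _ (R ^ 2) fun k _ => ?_) ?_
    · exact sq_le_sq' (abs_le.1 ((norm_le_pi_norm _ k).trans h)).1
        (abs_le.1 ((norm_le_pi_norm _ k).trans h)).2
    · rw [card_univ, Fintype.card_fin, nsmul_eq_mul, hS]
      linarith
  obtain ⟨W, hW⟩ : ∃ W : ℝ, W = K * ((L / τ) ^ (N + 1) * Λ ^ (N + 1) / lam) := ⟨_, rfl⟩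
  have e2 : ∀ (σ : Fin (N + 1) → Fin Q) (y : Option (Fin N ⊕ Fin N) → ℝ), (∀ j : Ix N, 0 < (j.elim
      (fun y => (2 * L) ^ 2 - (y none - t0) ^ 2) (fun j y => p σ j fun s => y (some s)) :
        (Option (Fin N ⊕ Fin N) → ℝ) → ℝ) y) ↔
      |y none - t0| < 2 * L ∧ ∀ j, 0 < p σ j fun s => y (some s) := fun σ y => by
    simp only [Option.forall, Option.elim_none, Option.elim_some, sub_pos, sq_lt_sq,
      abs_of_pos (mul_pos two_pos L0)]
  have e3 : ∀ y : Option (Fin N ⊕ Fin N) → ℝ, (fun s => y (some s)) =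
      Sum.elim (fun l => y (some (.inl l))) fun l => y (some (.inr l)) := fun y =>
    funext fun s => by rcases s with l | l <;> rfl
  rw [← hW]
  refine ⟨fun σ j => j.elim (fun y => (2 * L) ^ 2 - (y none - t0) ^ 2)
    fun j y => p σ.1 j fun s => y (some s), |t0| + 2 * L + (|S| + 1), fun σ j => ?_,
    fun σ y hy => ?_, fun ⟨σ, hσ⟩ => ?_, ?_⟩
  · rcases j with _ | j
    · exact (H83.IsPoly.const _ _).sub
        ((((H83.IsPoly.coord _).sub (H83.IsPoly.const 1 t0)).pow 2).mono (by omega))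
    · exact (p1 σ.1 j).comp_aff fun s => H83.IsPoly.coord _
  · obtain ⟨y1, y2⟩ := (e2 σ.1 y).1 hy
    rw [e3] at y2
    obtain ⟨y3, y4, -⟩ := (p2 σ.1 _ _).1 y2
    have k2 := le_abs_self S
    have k3 := abs_nonneg t0
    have k4 := abs_nonneg S
    refine (pi_norm_le_iff_of_nonneg (by positivity)).2 fun s => ?_
    rcases s with _ | l | l
    · have := abs_add_le (y none - t0) t0
      rw [sub_add_cancel] at this
      exact this.trans (by linarith)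
    · exact ((norm_le_pi_norm (fun l => y (some (.inl l))) l).trans (nb _ y4)).trans
        (by linarith)
    · exact ((norm_le_pi_norm (fun l => y (some (.inr l))) l).trans (nb _ y3)).trans
        (by linarith)
  · have k1 := hC1 (p σ) (fun i => t (σ i)) θ (S + 1) t0 L
      (M * (2 * (2 * Λ)) ^ (N + 1) / (c * lam / 2) / θ) (fun i => {z | pt (t (σ i)) z ∈ B})
      (p1 σ) θ0 (by positivity) (fun i i' h => t5 _ _ (hσ.ne h))
      (fun i => abs_le.2 ⟨by linarith [(t0' (σ i)).1], by linarith [(t0' (σ i)).2]⟩)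
      (fun i => (t3 _).trans (by
        rw [ENNReal.ofReal_div_of_pos θ0]
        exact ENNReal.div_le_div_right h1 _))
      fun a e h => ⟨nb a ((p2 σ a e).1 h).2.1, nb e ((p2 σ a e).1 h).1, ((p2 σ a e).1 h).2.2⟩
    have e1 : C1 * L * (L / θ) ^ N * (M * (2 * (2 * Λ)) ^ (N + 1) / (c * lam / 2) / θ) = W := by
      rw [hW, hK, hθ, ← mul_assoc 2 2, mul_pow, show (2 : ℝ) * 2 = 4 by norm_num]
      simp only [div_pow, mul_pow, pow_succ]
      field_simp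
    rw [e1] at k1
    refine le_trans (measure_mono ?_) k1
    rintro _ ⟨y, hy, rfl⟩
    obtain ⟨y1, y2⟩ := (e2 σ y).1 hy
    rw [e3] at y2
    exact ⟨y none, _, _, y1, y2, rfl⟩
  rintro _ ⟨a, e, ha, he, hb, ⟨y, y1, hy⟩, s, s1, rfl⟩
  obtain ⟨q, q1, q2⟩ := f2.line (pt t0 (a + t0 • e)) (pt (8 * τ) ((8 * τ) • e))
  have q3 : ∀ x, q.eval ((x - t0) / (8 * τ)) = (dm Φ (pt x (a + x • e))).det := fun x => by
    rw [← q2, H83.smul_pt, H83.pt_add, smul_smul, div_mul_cancel₀ _ (by positivity),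
      add_sub_cancel, add_assoc, ← add_smul, add_sub_cancel]
  obtain ⟨σ, σ1, σ2⟩ := good q q1 hQ.ge (fun k => (t k - t0) / (8 * τ)) (τ := 1 / (16 * Q))
    (y := (y - t0) / (8 * τ)) (by positivity)
    (fun i => by
      rw [← sub_div, abs_div, abs_of_pos (a := 8 * τ) (by positivity), div_le_one (by positivity)]
      have := abs_le.1 y1
      exact abs_le.2 ⟨by linarith [(t0' i).1], by linarith [(t0' i).2]⟩)
    fun i i' h => by
      rw [← sub_div, abs_div, abs_of_pos (a := 8 * τ) (by positivity), sub_sub_sub_cancel_right,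
        le_div_iff₀ (by positivity)]
      refine le_trans (le_of_eq ?_) (t5 i i' h)
      rw [hθ]
      field_simp
      norm_num
  refine ⟨⟨σ, σ1⟩, fun o => o.elim s (Sum.elim a e), (e2 σ _).2 ⟨s1.trans_lt (by linarith),
    (p2 σ a e).2 ⟨nb' e he, nb' a ha, fun i => ⟨?_, fun k => ?_⟩⟩⟩, rfl⟩
  · have k1 := σ2 i
    rw [q3, q3] at k1
    have k2 : c * lam ≤ |(dm Φ (pt (t (σ i)) (a + t (σ i) • e))).det| := by
      rw [hc, div_mul_eq_mul_div, div_le_iff₀ (by positivity), mul_comm _ ((d : ℝ) + 1)]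
      exact (mul_le_mul_of_nonneg_left hy (by positivity)).trans k1
    exact lt_of_lt_of_le (by linarith) k2
  · exact (hb _ (t0' _).1 (t0' _).2 k).trans_lt (by linarith)

/-- The points of the fat tubes whose short part lies in the cell of the frame `Φ`. -/
def Fat {N : ℕ} (Φ : Fin (N + 1) → MvPolynomial (Fin (N + 1)) ℝ) (t0 τ L Λ lam R ρ : ℝ) :
    Set (V (N + 1)) :=
  {x | ∃ a e : V N, ‖a‖ ≤ R ∧ ‖e‖ ≤ R ∧
    (∀ (s : ℝ) (ξ : V N), t0 ≤ s → s ≤ t0 + τ → ‖ξ‖ ≤ ρ →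
      ∀ i, |eval (pt s (a + s • e + ξ)) (Φ i)| ≤ Λ) ∧
    (∃ (s : ℝ) (ξ : V N), t0 ≤ s ∧ s ≤ t0 + τ ∧ ‖ξ‖ ≤ ρ ∧
      lam ≤ |(dm Φ (pt s (a + s • e + ξ))).det|) ∧
    ∃ (t : ℝ) (ξ : V N), |t - t0| ≤ L ∧ ‖ξ‖ ≤ ρ ∧ x = pt t (a + t • e + ξ)}

theorem fatCov (N D : ℕ) : ∃ (d : ℕ) (ι : Type) (_ : Fintype ι) (K : ℝ), 0 ≤ K ∧
    ∀ (Φ : Fin (N + 1) → MvPolynomial (Fin (N + 1)) ℝ) (t0 τ L Λ lam R ρ : ℝ),
      (∀ i, (Φ i).totalDegree ≤ D) → 0 < τ → τ ≤ L → 0 < Λ → 0 < lam →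
      Cov N d ι (K * ((L / τ) ^ (N + 1) * Λ ^ (N + 1) / lam)) (Fat Φ t0 τ L Λ lam R ρ) := by
  classical
  obtain ⟨d, Q, K, K0, hK⟩ := lineCov N D
  obtain ⟨c, c0, c1, hc⟩ := move ((N + 1) * D)
  refine ⟨d, Bool × {σ : Fin (N + 1) → Fin Q // Function.Injective σ}, inferInstance,
    K * (12 ^ (N + 1) / c), by positivity, fun Φ t0 τ L Λ lam R ρ hΦ τ0 τL Λ0 l0 => ?_⟩
  have L0 : 0 < L := τ0.trans_le τL
  choose p R' p1 p2 p3 hT' using fun v : ℝ => hK Φ v (τ / 6) (2 * L) Λ (c * lam)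
    (R + ρ + (1 + |t0| + τ) * (6 / τ * (2 * ρ))) hΦ (by positivity) (by linarith) Λ0
    (by positivity)
  refine ⟨fun i => p (if i.1 then t0 + τ / 3 else t0 + τ / 2) i.2,
    max (R' (t0 + τ / 3)) (R' (t0 + τ / 2)), fun i j => p1 _ _ _, fun i y hy => ?_,
    fun i => (p3 _ _).trans_eq ?_, ?_⟩
  · refine (p2 _ _ y hy).trans ?_
    split_ifs
    exacts [le_max_left _ _, le_max_right _ _]
  · rw [show 2 * L / (τ / 6) = 12 * (L / τ) by field_simp; norm_num, mul_pow]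
    congr 1
    field_simp
  rintro _ ⟨a, e, ha, he, hb, ⟨y, η, y0, y1, hη, hy⟩, t, ξ, ht, hξ, rfl⟩
  have ρ0 : 0 ≤ ρ := (norm_nonneg _).trans hξ
  have R0 : 0 ≤ R := (norm_nonneg _).trans ha
  have ht' := abs_le.1 ht
  have key : ∀ u v : ℝ, t0 ≤ u → u + τ / 3 ≤ t0 + τ → t0 + τ / 3 ≤ v → v ≤ t0 + τ / 2 →
      (∀ s, u ≤ s → s ≤ u + τ / 3 → τ / 6 ≤ |t - s| ∧ ∀ s', v ≤ s' → s' ≤ v + τ / 6 →
        0 ≤ (s' - s) * (t - s)⁻¹ ∧ (s' - s) * (t - s)⁻¹ ≤ 1) →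
      ∃ i y, (∀ j, 0 < p v i j y) ∧ pnt y = pt t (a + t • e + ξ) := by
    intro u v u0 u1 v0 v1 hu
    obtain ⟨s, s0, s1, s2⟩ := hc (fun x => (dm Φ x).det) (fun s => pt s (a + s • e + η))
      (pt 0 (a + η)) (pt 1 e) u τ y (isPoly_det hΦ) (fun s => by
        rw [H83.smul_pt, H83.pt_add, mul_one, zero_add, add_right_comm]) τ0
      (abs_le.2 ⟨by linarith, by linarith⟩)
    obtain ⟨k1, k2⟩ := hu s s0 s1
    have k3 : t - s ≠ 0 := abs_pos.1 (lt_of_lt_of_le (by positivity) k1)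
    obtain ⟨b, hb'⟩ : ∃ b, b = (t - s)⁻¹ • (ξ - η) := ⟨_, rfl⟩
    have k4 : ‖b‖ ≤ 6 / τ * (2 * ρ) := by
      rw [hb', norm_smul, norm_inv, Real.norm_eq_abs]
      gcongr
      · rw [← inv_div]
        exact inv_anti₀ (by positivity) k1
      · linarith [norm_sub_le ξ η]
    have k5 : ∀ s' : ℝ, a + η - s • b + s' • (e + b) =
        a + s' • e + (η + ((s' - s) * (t - s)⁻¹) • (ξ - η)) := fun s' => by
      rw [mul_smul, ← hb', sub_smul, smul_add]
      abel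
    have k6 : a + η - s • b + t • (e + b) = a + t • e + ξ := by
      rw [k5, mul_inv_cancel₀ k3, one_smul, add_sub_cancel]
    have k7 : 0 ≤ 6 / τ * (2 * ρ) := by positivity
    have k8 : |s| ≤ |t0| + τ := abs_le.2
      ⟨by linarith [neg_abs_le t0], by linarith [le_abs_self t0]⟩
    have k9 : ‖s • b‖ ≤ (|t0| + τ) * (6 / τ * (2 * ρ)) := by
      rw [norm_smul, Real.norm_eq_abs]
      gcongr
    have k10 : 0 ≤ (|t0| + τ) * (6 / τ * (2 * ρ)) := by positivity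
    rw [← k6]
    refine hT' v _ ⟨_, _, ?_, ?_, fun s' v2 v3 => ?_,
      ⟨s, abs_le.2 ⟨by linarith, by linarith⟩, ?_⟩, t, abs_le.2 ⟨by linarith, by linarith⟩, rfl⟩
    · linarith [norm_sub_le (a + η) (s • b), norm_add_le a η]
    · linarith [norm_add_le e b]
    · obtain ⟨m0, m1⟩ := k2 s' v2 v3
      rw [k5]
      refine hb s' _ (by linarith) (by linarith) ?_
      generalize (s' - s) * (t - s)⁻¹ = m at m0 m1
      have e1 : η + m • (ξ - η) = (1 - m) • η + m • ξ := by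
        rw [smul_sub, sub_smul, one_smul]
        abel
      rw [e1]
      refine (norm_add_le _ _).trans ?_
      rw [norm_smul, norm_smul, Real.norm_of_nonneg m0, Real.norm_of_nonneg (sub_nonneg.2 m1)]
      nlinarith
    · rw [k5, sub_self, zero_mul, zero_smul, add_zero]
      exact (mul_le_mul_of_nonneg_left hy c0.le).trans s2
  rcases le_total (t0 + τ / 2) t with h | h
  · obtain ⟨i, y, h1⟩ := key t0 (t0 + τ / 3) le_rfl (by linarith) le_rfl (by linarith)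
      fun s s0 s1 => ⟨le_trans (by linarith) (le_abs_self _), fun s' v2 v3 => by
        have : 0 < t - s := by linarith
        rw [← div_eq_mul_inv, div_le_one this]
        exact ⟨div_nonneg (by linarith) this.le, by linarith⟩⟩
    exact ⟨(true, i), y, h1⟩
  · obtain ⟨i, y, h1⟩ := key (t0 + 2 * τ / 3) (t0 + τ / 2) (by linarith) (by linarith)
      (by linarith) le_rfl
      fun s s0 s1 => ⟨le_trans (by linarith) (neg_le_abs _), fun s' v2 v3 => by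
        have : t - s < 0 := by linarith
        rw [← div_eq_mul_inv, div_le_one_of_neg this]
        exact ⟨div_nonneg_of_nonpos (by linarith) this.le, by linarith⟩⟩
    exact ⟨(false, i), y, h1⟩

/-- Cubes of the chart `Ψ` that meet the image of a basic set where the Jacobian is at most `μ`. -/
theorem cnt0 (n : ℕ) (β κ : Type) [Fintype β] [DecidableEq β] [Fintype κ] (d : ℕ) :
    ∃ C : ℝ, 1 ≤ C ∧ ∀ (p : κ → (β → ℝ) → ℝ) (π : (β → ℝ) → Fin n → ℝ)
      (Ψ : Fin n → MvPolynomial (Fin n) ℝ) (R μ W : ℝ) (g : ℕ),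
      (∀ j, IsPoly d (p j)) → (∀ i, IsPoly d fun y => π y i) → (∀ i, (Ψ i).totalDegree ≤ d) →
      (∀ y, (∀ j, 0 < p j y) → ‖y‖ ≤ R) → 0 < μ → 0 ≤ W →
      volume (π '' {y | ∀ j, 0 < p j y}) ≤ ENNReal.ofReal W →
      ∃ T : Finset (Z n), (T.card : ℝ) ≤ C * (2 ^ g) ^ n * (μ * W + 1 / 2 ^ g) ∧
        ∀ y, (∀ j, 0 < p j y) → (∀ i, |eval (π y) (Ψ i)| ≤ 1) → |(dm Ψ (π y)).det| ≤ μ →
          fl g (fun i => eval (π y) (Ψ i)) ∈ T := by
  classical
  obtain ⟨M, hM⟩ := nbhd (Fin n) β (κ ⊕ Option (Fin n)) (d + 2 * ((n + 1) * d * d))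
  refine ⟨1 + M * (2 + 2 ^ n), by
    have : (0 : ℝ) ≤ M * (2 + 2 ^ n) := by positivity
    linarith, fun p π Ψ R μ W g hp hπ hΨ hR μ0 W0 hW => ?_⟩
  have q1 : ∀ i, IsPoly (d * d) fun y => eval (π y) (Ψ i) := fun i =>
    H83.IsPoly.comp (F := fun x => eval x (Ψ i)) ⟨_, hΨ i, fun _ => rfl⟩ hπ
  have q2 : IsPoly (n * d * d) fun y => (dm Ψ (π y)).det := (isPoly_det hΨ).comp hπ
  have d1 : 2 * (d * d) ≤ d + 2 * ((n + 1) * d * d) := by nlinarith [Nat.zero_le (n * d * d)]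
  have d2 : 2 * (n * d * d) ≤ d + 2 * ((n + 1) * d * d) := by nlinarith [Nat.zero_le (d * d)]
  set A := toMeasurable volume (π '' {y | ∀ j, 0 < p j y}) ∩ {x | |(dm Ψ x).det| < 2 * μ} with hA
  have hAm : MeasurableSet A := (measurableSet_toMeasurable _ _).inter (measurableSet_lt
    (continuous_abs.measurable.comp (isPoly_det hΨ).measurable) measurable_const)
  have hAv : volume A ≤ ENNReal.ofReal W :=
    (measure_mono Set.inter_subset_left).trans ((measure_toMeasurable _).trans_le hW)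
  have g0 : (0 : ℝ) < 1 / 2 ^ g := by positivity
  have m1 : 0 < 2 * μ := by positivity
  set P : κ ⊕ Option (Fin n) → (β → ℝ) → ℝ := Sum.elim p fun o => o.elim
    (fun y => (2 * μ) ^ 2 - (dm Ψ (π y)).det ^ 2) fun i y => 2 ^ 2 - eval (π y) (Ψ i) ^ 2 with hP
  have e : ∀ y, (∀ l, 0 < P l y) ↔ (∀ j, 0 < p j y) ∧ |(dm Ψ (π y)).det| < 2 * μ ∧
      ∀ i, |eval (π y) (Ψ i)| < 2 := fun y => by
    simp only [hP, Sum.forall, Sum.elim_inl, Sum.elim_inr, Option.forall, Option.elim_none,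
      Option.elim_some, sub_pos, sq_lt_sq, abs_of_pos m1, abs_two]
  have k := hM P (fun i y => eval (π y) (Ψ i)) (1 / 2 ^ g) 2 R ((fun x i => eval x (Ψ i)) '' A)
    (fun l => by
      rcases l with l | _ | i
      · exact (hp l).mono (by omega)
      · exact (H83.IsPoly.const _ _).sub ((q2.pow 2).mono d2)
      · exact (H83.IsPoly.const _ _).sub (((q1 i).pow 2).mono d1))
    (fun i => (q1 i).mono (by omega)) g0
    (div_le_one_of_le₀ (one_le_pow₀ one_le_two) (by positivity)) one_le_two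
    fun y hy => by
      obtain ⟨y1, y2, y3⟩ := (e y).1 hy
      exact ⟨hR y y1, fun i => (y3 i).le, π y, ⟨subset_toMeasurable _ _ ⟨y, y1, rfl⟩, y2⟩, rfl⟩
  have k1 := addHaar_image_le_lintegral_abs_det_fderiv volume hAm
    fun x _ => (hasFDerivAt_dm Ψ x).hasFDerivWithinAt
  simp only [LinearMap.det_toContinuousLinearMap, LinearMap.det_toLin'] at k1
  have k2 : ∫⁻ x in A, ENNReal.ofReal |(dm Ψ x).det| ≤ ENNReal.ofReal (2 * μ * W) := by
    refine (setLIntegral_mono' hAm (g := fun _ => ENNReal.ofReal (2 * μ)) fun x hx =>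
      ENNReal.ofReal_le_ofReal hx.2.le).trans ?_
    rw [setLIntegral_const, ENNReal.ofReal_mul m1.le]
    gcongr
  obtain ⟨T, hT, hT'⟩ := cells g (W := M * (2 * μ * W + 1 / 2 ^ g * 2 ^ n)) (by positivity)
    (k.trans (by
      rw [ENNReal.ofReal_mul (Nat.cast_nonneg _), ENNReal.ofReal_natCast,
        ENNReal.ofReal_add (by positivity) (by positivity), Fintype.card_fin]
      gcongr
      exact k1.trans k2))
  refine ⟨T, hT.trans ?_, fun y y1 y2 y3 => hT' _ ((pi_norm_le_iff_of_nonneg zero_le_one).2 y2)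
    fun e' he => ⟨y, (e y).2 ⟨y1, by linarith, fun i => (y2 i).trans_lt one_lt_two⟩, fun i => ?_⟩⟩
  · have k5 : 0 ≤ μ * W := by positivity
    have k6 : (0 : ℝ) < 2 ^ n := by positivity
    rw [mul_right_comm (1 + _ : ℝ)]
    refine mul_le_mul_of_nonneg_right ?_ (by positivity)
    calc _ ≤ M * ((2 + 2 ^ n) * (μ * W + 1 / 2 ^ g)) := by
          gcongr
          nlinarith
      _ ≤ _ := by
          rw [← mul_assoc]
          gcongr
          linarith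
  · have h1 := Int.abs_sub_lt_one_of_floor_eq_floor (congrFun he i)
    rw [← mul_sub, abs_mul, abs_of_pos (by positivity)] at h1
    rw [lt_div_iff₀ (by positivity), mul_comm]
    exact h1

/-- The sharp count under an upper bound for the Jacobian of the chart. -/
theorem fatCnt0 (N D : ℕ) : ∃ C : ℝ, 1 ≤ C ∧
    ∀ (Φ Ψ : Fin (N + 1) → MvPolynomial (Fin (N + 1)) ℝ) (t0 τ L Λ lam μ R ρ : ℝ) (g : ℕ),
      (∀ i, (Φ i).totalDegree ≤ D) → (∀ i, (Ψ i).totalDegree ≤ D) → 0 < τ → τ ≤ L → 0 < Λ →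
      0 < lam → 0 < μ → ∃ T : Finset (Z (N + 1)), (T.card : ℝ) ≤
          C * (2 ^ g) ^ (N + 1) * (μ * ((L / τ) ^ (N + 1) * Λ ^ (N + 1) / lam) + 1 / 2 ^ g) ∧
        ∀ x ∈ Fat Φ t0 τ L Λ lam R ρ, (∀ i, |eval x (Ψ i)| ≤ 1) → |(dm Ψ x).det| ≤ μ →
          fl g (fun i => eval x (Ψ i)) ∈ T := by
  classical
  obtain ⟨d, ι, _, K, K0, hK⟩ := fatCov N D
  obtain ⟨C, C1, hC⟩ := cnt0 (N + 1) (Option (Fin N ⊕ Fin N)) (Ix N) (d + D + 2)
  refine ⟨(1 + Fintype.card ι) * (C * (1 + K)), one_le_mul_of_one_le_of_one_le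
    (le_add_of_nonneg_right (by positivity)) (one_le_mul_of_one_le_of_one_le C1 (by linarith)),
    fun Φ Ψ t0 τ L Λ lam μ R ρ g hΦ hΨ τ0 τL Λ0 l0 μ0 => ?_⟩
  have L0 : 0 < L := τ0.trans_le τL
  obtain ⟨p, R', p1, p2, p3, p4⟩ := hK Φ t0 τ L Λ lam R ρ hΦ τ0 τL Λ0 l0
  choose T hT hT' using fun i => hC (p i) pnt Ψ R' μ _ g (fun j => (p1 i j).mono (by omega))
    (fun i => (isPoly_pnt i).mono (by omega)) (fun i => (hΨ i).trans (by omega)) (p2 i) μ0
    (by positivity) (p3 i)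
  refine ⟨univ.biUnion T, ?_, fun x hx x1 x2 => ?_⟩
  · calc _ ≤ ∑ i, ((T i).card : ℝ) := by exact_mod_cast card_biUnion_le
      _ ≤ Fintype.card ι * _ := (sum_le_card_nsmul _ _ _ fun i _ => hT i).trans_eq (nsmul_eq_mul _ _)
      _ ≤ (1 + (Fintype.card ι : ℝ)) * (C * (2 ^ g) ^ (N + 1) * ((1 + K) *
            (μ * ((L / τ) ^ (N + 1) * Λ ^ (N + 1) / lam) + 1 / 2 ^ g))) := by
          have k1 : 0 ≤ μ * ((L / τ) ^ (N + 1) * Λ ^ (N + 1) / lam) := by positivity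
          have k2 : (0 : ℝ) ≤ 1 / 2 ^ g := by positivity
          have k3 : (0 : ℝ) ≤ C := by linarith
          gcongr
          · linarith
          · nlinarith [mul_nonneg K0 k2]
      _ = _ := by ring
  · obtain ⟨i, y, y1, rfl⟩ := p4 x hx
    exact mem_biUnion.2 ⟨i, mem_univ _, hT' i y y1 x1 x2⟩

end Pool.Agent.MP_5168f5_an.QA
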