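import Pool.Agent.MP_5168f5_an.QA.FillA
import Pool.Agent.MP_5168f5_an.QA.Bd
import Pool.Agent.MP_5168f5_an.QA.Cut

/-! Tools for the filling lemma: the tube as an image of a box, the gain of a cut. -/

namespace Pool.Agent.MP_5168f5_an.QA.FL

open H19 H17S H17F R4 AN MvPolynomial Finset
open C1 (PD Hb Adm rho deg_PD rMul rho_pos)
open En (tb)
open Nc (Pl ev jac kc eval_aeval)

variable {N D M c : ℕ} {l : Ln N} {h : ℤ}

/-- The height on the box. -/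
noncomputable def ht (N c : ℕ) (h : ℤ) : Pl (N + 1) :=
  C ((h + 1 / 2) / 2 ^ c : ℝ) + C (1 / 2 / 2 ^ c : ℝ) * X 0

/-- The tube of width five as the image of the box. -/
noncomputable def bx (M c : ℕ) (l : Ln N) (h : ℤ) : Fin (N + 1) → Pl (N + 1) :=
  Fin.cons (ht N c h) fun i => C (l.1 i) + C (l.2 i) * ht N c h + C (5 / 2 ^ M : ℝ) * X i.succ

theorem deg_lin {k : ℕ} (a : ℝ) {F : Pl k} (e : F.totalDegree ≤ 1) : (C a * F).totalDegree ≤ 1 :=
  (totalDegree_mul _ _).trans (by rw [totalDegree_C]; omega)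

theorem deg_bx (i : Fin (N + 1)) : (bx M c l h i).totalDegree ≤ 1 := by
  have a : ∀ r : ℝ, (C r : Pl (N + 1)).totalDegree ≤ 1 := fun r => by rw [totalDegree_C]; omega
  have b : (ht N c h).totalDegree ≤ 1 :=
    (totalDegree_add _ _).trans (max_le (a _) (deg_lin _ (totalDegree_X _).le))
  exact Fin.cases b (fun j => (totalDegree_add _ _).trans (max_le ((totalDegree_add _ _).trans
    (max_le (a _) (deg_lin _ b))) (deg_lin _ (totalDegree_X _).le))) i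

theorem ev_bx (q : V (N + 1)) :
    ev (bx M c l h) q = tb M l.1 l.2 ((h + (q 0 + 1) / 2) / 2 ^ c) fun i => 5 * q i.succ :=
  funext fun i => by
    refine Fin.cases ?_ (fun j => ?_) i <;> simp [ev, bx, ht, tb] <;> ring

theorem bx_mem {q : V (N + 1)} {r : ℝ} (hq : ‖q‖ ≤ r) (hr : r ≤ 1) :
    ev (bx M c l h) q ∈ seg M c l h (5 * r) := by
  have a := abs_le.1 ((norm_le_pi_norm q 0).trans (hq.trans hr))
  have r0 := (norm_nonneg _).trans hq
  refine ⟨_, _, ?_, ?_, (pi_norm_le_iff_of_nonneg (by positivity)).2 fun i => ?_, ev_bx q⟩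
  · rw [mul_div_cancel₀ _ (by positivity)]; linarith
  · rw [mul_div_cancel₀ _ (by positivity)]; linarith
  · rw [norm_mul, Real.norm_ofNat]
    linarith [norm_le_pi_norm q i.succ]

theorem bx_mem5 {q : V (N + 1)} (hq : ‖q‖ ≤ 1) : ev (bx M c l h) q ∈ seg M c l h 5 := by
  simpa using bx_mem (M := M) (c := c) (l := l) (h := h) hq le_rfl

/-- The box parameter of a point of the unit cube. -/
noncomputable def pr (p : V (N + 1)) : V (N + 1) := Fin.cons (2 * p 0 - 1) fun i => p i.succ / 5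

theorem ev_pr (p : V (N + 1)) :
    ev (bx M c l h) (pr p) = tb M l.1 l.2 ((h + p 0) / 2 ^ c) fun i => p i.succ := by
  rw [ev_bx]
  congr 1
  · simp [pr]
  · funext i; simp only [pr, Fin.cons_succ]; ring

theorem norm_pr {p : V (N + 1)} (a : 0 ≤ p 0) (b : p 0 ≤ 1) (e : ∀ i : Fin N, |p i.succ| ≤ 5) :
    ‖pr p‖ ≤ 1 :=
  (pi_norm_le_iff_of_nonneg zero_le_one).2 fun i => Fin.cases
    (abs_le.2 ⟨by simp only [pr, Fin.cons_zero]; linarith, by simp only [pr, Fin.cons_zero]; linarith⟩)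
    (fun j => by
      simp only [pr, Fin.cons_succ, norm_div, Real.norm_ofNat, Real.norm_eq_abs]
      linarith [e j]) i

theorem bx_onto {y : V (N + 1)} (hy : y ∈ seg M c l h 5) :
    ∃ q : V (N + 1), ‖q‖ ≤ 1 ∧ ev (bx M c l h) q = y := by
  obtain ⟨t, ξ, a, b, e, rfl⟩ := hy
  refine ⟨pr (Fin.cons (2 ^ c * t - h) ξ), norm_pr ?_ ?_ fun i => (norm_le_pi_norm ξ i).trans e, ?_⟩
  · rw [Fin.cons_zero]; linarith
  · rw [Fin.cons_zero]; linarith
  · rw [ev_pr]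
    congr 1
    rw [Fin.cons_zero]; field_simp; ring

theorem pr_near (p p' : V (N + 1)) : ‖p - p'‖ ≤ 5 * ‖pr p - pr p'‖ :=
  (pi_norm_le_iff_of_nonneg (by positivity)).2 fun i => by
    have a := norm_le_pi_norm (pr p - pr p') i
    revert a
    refine Fin.cases ?_ (fun j => ?_) i <;>
      simp only [pr, Pi.sub_apply, Fin.cons_zero, Fin.cons_succ, Real.norm_eq_abs, abs_le] <;>
      intro a <;> constructor <;> linarith [norm_nonneg (pr p - pr p'), a.1, a.2]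

/-- Density bounds pass to a coarser or expanding variable. -/
theorem pb_near {W : Type} {k j J : ℕ} (Q : FP W) {p p' : W → V k} {L B : ℝ} (hL : 0 ≤ L)
    (B0 : 0 ≤ B) (d : ∀ c, pb Q (fun v => fl J (p v) = c) ≤ B)
    (e : ∀ v w, fl j (p' v) = fl j (p' w) → ‖p v - p w‖ ≤ L / 2 ^ J) (c : Z k) :
    pb Q (fun v => fl j (p' v) = c) ≤ (2 * L + 3) ^ k * B := by
  by_cases a : ∃ w, fl j (p' w) = c
  · obtain ⟨w, rfl⟩ := a
    obtain ⟨T, t1, t2⟩ := cells_near J (p w) hL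
    rw [Fintype.card_fin] at t1
    exact (pb_mono fun v _ k => ⟨trivial, t2 _ (e v w k)⟩).trans ((S20.pb_mem Q (fun v => fl J (p v))
      (fun _ => True) T fun c _ => (pb_mono fun _ _ k => k.2).trans (d c)).trans
      (mul_le_mul_of_nonneg_right t1 B0))
  · exact (pb_zero fun v _ k => a ⟨v, k⟩).trans_le (by positivity)

theorem pb_pr {W : Type} {j : ℕ} (Q : FP W) {p : W → V (N + 1)} {B : ℝ} (B0 : 0 ≤ B)
    (d : ∀ c, pb Q (fun v => fl j (p v) = c) ≤ B) (c : Z (N + 1)) :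
    pb Q (fun v => fl j (pr (p v)) = c) ≤ 13 ^ (N + 1) * B := by
  have := pb_near Q (L := 5) (j := j) (p' := fun v => pr (p v)) (by norm_num) B0 d
    (fun v w e => (pr_near _ _).trans (by
      rw [div_eq_mul_inv]; linarith [norm_sub_lt_of_fl_eq e])) c
  norm_num at this ⊢
  exact this

/-- A large value is seen in a smaller box. -/
theorem shrink (k E : ℕ) : ∃ B : ℝ, 1 ≤ B ∧ ∀ (f : Pl k) (q : V k), f.totalDegree ≤ E →
    ‖q‖ ≤ 1 → ∃ y : V k, ‖y‖ ≤ 4 / 5 ∧ |eval q f| ≤ B * |eval y f| := by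
  obtain ⟨B, B1, hB⟩ := Pk.neq k E
  refine ⟨B * (1 / (4 / 5)) ^ E, one_le_mul_of_one_le_of_one_le B1 (one_le_pow₀ (by norm_num)),
    fun f q hf hq => ?_⟩
  obtain ⟨y, y1, y2⟩ := (isCompact_closedBall (0 : V k) (4 / 5)).exists_isMaxOn
    ⟨0, Metric.mem_closedBall_self (by norm_num)⟩ (continuous_eval f).abs.continuousOn
  exact ⟨y, mem_closedBall_zero_iff.1 y1, (((hB f hf).2 0 (4 / 5) 1 _ (by norm_num) (by norm_num)
    fun x hx => y2 (mem_closedBall_iff_norm.2 hx)).2 q (by simpa using hq)).1⟩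

variable {ν μ : VD N D → ℝ} {B η θ : ℝ}

theorem sg_low (hν : Hb ν) (hμ : Hb μ) (B1 : 1 ≤ B) (e : ∀ F, μ F ≤ B * ν F) {k : ℕ}
    (hk : k ≤ dV N D) : sg k ν ≤ sg k μ + dV N D * Real.log B := by
  have a := Real.log_le_log (rho_pos hμ BdA.hb_Bn rfl hk)
    ((rMul _ μ ν Bn k hμ hν BdA.hb_Bn).2.2 B (by linarith) e).2.1
  rw [Real.log_mul (by positivity) (rho_pos hν BdA.hb_Bn rfl hk).ne', Real.log_pow] at a
  have b : (k : ℝ) * Real.log B ≤ dV N D * Real.log B :=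
    mul_le_mul_of_nonneg_right (by exact_mod_cast hk) (Real.log_nonneg B1)
  unfold sg
  linarith

/-- The gain of volume. -/
noncomputable def ga (B : ℝ) (ν μ : VD N D → ℝ) : ℝ :=
  sg (dV N D) μ - sg (dV N D) ν + dV N D * Real.log B

theorem ga_nonneg (hν : Hb ν) (hμ : Hb μ) (B1 : 1 ≤ B) (e : ∀ F, μ F ≤ B * ν F) :
    0 ≤ ga B ν μ := by
  unfold ga
  linarith [sg_low hν hμ B1 e le_rfl]

/-- The reward pays the penalty. -/
theorem psi_gain (hν : Hb ν) (hμ : Hb μ) (B1 : 1 ≤ B) (e : ∀ F, μ F ≤ B * ν F) (η0 : 0 ≤ η)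
    (η1 : η ≤ 1) (θ0 : 0 ≤ θ) (θ1 : 2 * θ ≤ η ^ dV N D) :
    Psi η ν + θ * dsp μ ν + η ^ dV N D / 2 * ga B ν μ ≤
      Psi η μ + (dV N D + 1) * (2 * (dV N D * Real.log B)) := by
  obtain ⟨L, hL⟩ : ∃ L, L = dV N D * Real.log B := ⟨_, rfl⟩
  have L0 : 0 ≤ L := hL ▸ mul_nonneg (Nat.cast_nonneg _) (Real.log_nonneg B1)
  have k : ∀ k ≤ dV N D, η ^ k * sg k ν + θ * |sg k μ - sg k ν| +
      η ^ dV N D / 2 * (sg k μ - sg k ν + L) ≤ η ^ k * sg k μ + 2 * L := fun k hk => by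
    have a := sg_low hν hμ B1 e hk
    have b := pow_le_pow_of_le_one η0 η1 hk
    have b' := pow_le_one₀ (n := k) η0 η1
    have d : |sg k μ - sg k ν| ≤ sg k μ - sg k ν + L + L := abs_le.2 ⟨by linarith, by linarith⟩
    nlinarith [mul_le_mul_of_nonneg_left d θ0,
      mul_nonneg (show 0 ≤ η ^ k - η ^ dV N D / 2 - θ by linarith)
        (show 0 ≤ sg k μ - sg k ν + L by linarith)]
  have s := sum_le_sum fun i (hi : i ∈ range (dV N D + 1)) => k i (Nat.lt_succ_iff.1 (mem_range.1 hi))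
  have t := single_le_sum (f := fun i => η ^ dV N D / 2 * (sg i μ - sg i ν + L))
    (s := range (dV N D + 1)) (fun i hi => mul_nonneg (by positivity) (by
      linarith [sg_low hν hμ B1 e (Nat.lt_succ_iff.1 (mem_range.1 hi))])) (self_mem_range_succ _)
  rw [sum_add_distrib, sum_add_distrib, sum_add_distrib, ← mul_sum, sum_const, card_range,
    nsmul_eq_mul] at s
  unfold Psi dsp pen ga
  rw [← hL]
  push_cast at s
  linarith

/-- The gain bounds the distance. -/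
theorem le_ga (hν : Hb ν) (hμ : Hb μ) (B1 : 1 ≤ B) (e : ∀ F, μ F ≤ B * ν F) (F : VD N D) :
    ν F ≤ (dV N D).factorial * dV N D * Real.exp (ga B ν μ) * μ F := by
  by_cases F0 : F = 0
  · rw [F0, ← zero_smul ℝ (0 : VD N D), hν.smul, hμ.smul]; simp
  have p := hν.pos F0
  have a := rho_gain (m := dV N D) rfl BdA.hb_Bn hν hμ B1 e F0 (div_mul_cancel₀ (μ F) p.ne').ge
  have p1 := rho_pos hν BdA.hb_Bn (m := dV N D) rfl le_rfl
  have p2 := rho_pos hμ BdA.hb_Bn (m := dV N D) rfl le_rfl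
  rw [ga, sg, sg, Real.exp_add, Real.exp_sub, Real.exp_neg, Real.exp_neg, Real.exp_log p1,
    Real.exp_log p2, Real.exp_nat_mul, Real.exp_log (by linarith)]
  have := mul_le_mul_of_nonneg_right a (div_pos p p2).le
  refine le_of_eq_of_le ?_ (this.trans_eq ?_) <;> field_simp

/-- A polynomial as a vector. -/
noncomputable def toV (D : ℕ) (F : Pl (N + 1)) : VD N D :=
  if e : F.totalDegree ≤ D then ⟨F, (mem_restrictTotalDegree _ _ _).2 e⟩ else 0

theorem toV_val {F : Pl (N + 1)} (e : F.totalDegree ≤ D) : (toV D F).1 = F := by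
  rw [toV, dif_pos e]

/-- The cut of a norm along a chart. -/
theorem cutc (N D : ℕ) : ∃ f : (VD N D → ℝ) → Ch N D → VD N D → ℝ, ∀ ν Φ, Hb ν →
    Hb (f ν Φ) ∧ (∀ F, f ν Φ F ≤ 2 ^ (N + 1) * ν F) ∧ (∀ i, f ν Φ (Φ i) ≤ 2 ^ (N + 1)) ∧
      ∀ y : V (N + 1), (∀ F : VD N D, |eval y F.1| ≤ ν F) → ‖uc Φ y‖ ≤ 1 →
        ∀ F : VD N D, |eval y F.1| ≤ f ν Φ F := by
  have k : ∀ (ν : VD N D → ℝ) (Φ : Ch N D), ∃ μ : VD N D → ℝ, Hb ν →
      Hb μ ∧ (∀ F, μ F ≤ 2 ^ (N + 1) * ν F) ∧ (∀ i, μ (Φ i) ≤ 2 ^ (N + 1)) ∧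
      ∀ y : V (N + 1), (∀ F : VD N D, |eval y F.1| ≤ ν F) → ‖uc Φ y‖ ≤ 1 →
        ∀ F : VD N D, |eval y F.1| ≤ μ F := fun ν Φ => by
    by_cases a : Hb ν
    · obtain ⟨μ, a1, a2, a3, a4⟩ := cuts a (List.ofFn Φ)
      rw [List.length_ofFn] at a2 a3
      refine ⟨μ, fun _ => ⟨a1, a2, fun i => a3 _ (List.mem_ofFn.2 ⟨i, rfl⟩), fun y b1 b2 =>
        a4 ((aeval y : Pl (N + 1) →ₐ[ℝ] ℝ).toLinearMap ∘ₗ Submodule.subtype _) b1 fun F hF => ?_⟩⟩
      obtain ⟨i, rfl⟩ := List.mem_ofFn.1 hF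
      exact (norm_le_pi_norm (uc Φ y) i).trans b2
    · exact ⟨ν, fun b => absurd b a⟩
  exact ⟨fun ν Φ => (k ν Φ).choose, fun ν Φ => (k ν Φ).choose_spec⟩

end Pool.Agent.MP_5168f5_an.QA.FL
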