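import Pool.Agent.MP_5168f5_an.QA.FlDefs

/-! The Kakeya maximal estimate: a deep cap gives a cut of the basis. -/

namespace Pool.Agent.MP_5168f5_an.QA.Fl

open H19 H17S H17F R4 AN Filter Finset Matrix
open GA (Mt IsFr Nr Bx Idl lg vec ex br mB mC cm)
open Cp (Hg hc Hw)

/-- The indices of `Z` are not reached by brackets from outside `Z` nor by the letters. -/
structure Gd {κ α : Type} [Fintype κ] [DecidableEq κ] (μ : κ → ℝ) (η : α → ℝ) (c : κ → κ → κ → ℝ)
    (A : α → κ → ℝ) (U V : Matrix κ κ ℝ) (t : ℝ) (Z : Finset κ) : Prop where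
  ne : Z.Nonempty
  lv : ∀ a ∈ Z, 0 < μ a
  sc : ∀ a a' e, 0 < μ a → 0 < μ a' → a ∉ Z → a' ∉ Z → e ∈ Z → μ e = μ a + μ a' →
    |mC U V c a a' e| ≤ Real.exp (-t)
  sA : ∀ i e, e ∈ Z → μ e = η i → |(A i ᵥ* V) e| ≤ Real.exp (-t)

variable {κ α : Type} [Fintype κ]

namespace CoreA

omit [Fintype κ] in
theorem nn {μ : κ → ℝ} {N : (κ → ℝ) → ℝ} (h : Gg μ N) (x : κ → ℝ) : N 0 = 0 ∧ 0 ≤ N x := by
  have h0 : N 0 = 0 := by simpa using h.smul 0 0
  have h1 := h.add x ((-1 : ℝ) • x)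
  rw [h.smul, neg_one_smul, add_neg_cancel, h0, abs_neg, abs_one] at h1
  exact ⟨h0, by linarith⟩

theorem gap (f : κ → ℝ) (q : ℕ → ℝ) (hq : Monotone q) :
    ∃ j ≤ Fintype.card κ, ∀ a, f a < q (j + 1) → f a ≤ q j := by
  by_contra k
  push Not at k
  choose g g1 g2 using fun j : Fin (Fintype.card κ + 1) => k j (Nat.lt_succ_iff.1 j.2)
  have m : StrictMono fun j => f (g j) := fun j j' e => (g1 j).trans ((hq e).trans_lt (g2 j'))
  simpa using Fintype.card_le_of_injective g fun j j' e => m.injective (congrArg f e)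

theorem fin {r n s p t : ℝ} {j : ℕ} (t0 : 0 ≤ t) (h : |r| * n ≤ p * s) (hp : p ≤ Real.exp (t / 2))
    (s0 : 0 ≤ s) (hn : Real.exp (4 ^ (j + 1) * t) ≤ n)
    (hs : s ≤ Real.exp (t / 2) * Real.exp (4 ^ j * t) * Real.exp (4 ^ j * t)) :
    |r| ≤ Real.exp (-t) := by
  refine le_of_mul_le_mul_right ((mul_le_mul_of_nonneg_left hn (abs_nonneg r)).trans (h.trans
    ((mul_le_mul hp hs s0 (Real.exp_pos _).le).trans ?_))) (Real.exp_pos _)
  simp only [← Real.exp_add, Real.exp_le_exp, pow_succ]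
  nlinarith [one_le_pow₀ (n := j) (show (1 : ℝ) ≤ 4 by norm_num)]

theorem br_mC (A A' : Matrix κ κ ℝ) (c : κ → κ → κ → ℝ) (s t : κ → ℝ) :
    br (mC A A' c) s t = br c (s ᵥ* A) (t ᵥ* A) ᵥ* A' := by
  let b : (κ → ℝ) →ₗ[ℝ] (κ → ℝ) →ₗ[ℝ] κ → ℝ := LinearMap.mk₂ ℝ (br c) (GA.br_add_left c)
    (GA.br_smul_left c) (GA.br_add_right c) (GA.br_smul_right c)
  have : br c (s ᵥ* A) (t ᵥ* A) = ∑ a, ∑ a', (s a * t a') • br c (A a) (A a') := by
    show b _ _ = ∑ a, ∑ a', (s a * t a') • b (A a) (A a')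
    rw [vecMul_eq_sum s, map_sum, LinearMap.sum_apply]
    simp only [vecMul_eq_sum, map_sum, map_smul, LinearMap.smul_apply, smul_smul, mul_comm]
  rw [this]
  funext e
  simp only [sum_vecMul, smul_vecMul, Finset.sum_apply, Pi.smul_apply, smul_eq_mul]
  exact sum_congr rfl fun a _ => sum_congr rfl fun b _ => by rw [mC]; ring

end CoreA

theorem mC_comp (U U₀ V₀ V : Matrix κ κ ℝ) (c : κ → κ → κ → ℝ) :
    mC (U * U₀) (V₀ * V) c = mC U V (mC U₀ V₀ c) := by
  funext x y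
  rw [mC, mC, CoreA.br_mC, vecMul_vecMul]; rfl

open CoreA in
theorem core [DecidableEq κ] {μ : κ → ℝ} {η : α → ℝ} {c : κ → κ → κ → ℝ} {A : α → κ → ℝ} {L : ℝ}
    {N : (κ → ℝ) → ℝ} {U V : Matrix κ κ ℝ} {t : ℝ} {a : κ} (he : ∀ i, 0 < η i)
    (h : Cap μ η c A L N) (x : Axs μ N U V) (t0 : 0 ≤ t) (hL : L ≤ Real.exp (t / 2))
    (h3 : ((Fintype.card κ : ℝ) + 1) * 3 ^ Fintype.card κ ≤ Real.exp (t / 2)) (ha : 0 < μ a)
    (hN : Real.exp (2 * 4 ^ (Fintype.card κ + 1) * t) ≤ N (Pi.single a 1)) :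
    ∃ Z, Gd μ η c A U V t Z := by
  classical
  have n0 := fun y => (nn h.toGg y).2
  have p3 : (0 : ℝ) < 3 ^ Fintype.card κ := by positivity
  have hp : (3 : ℝ) ^ Fintype.card κ ≤ Real.exp (t / 2) :=
    (le_mul_of_one_le_left p3.le (by simp)).trans h3
  have hq : Monotone fun j : ℕ => Real.exp (4 ^ j * t) := fun j j' e => Real.exp_le_exp.2
    (mul_le_mul_of_nonneg_right (pow_le_pow_right₀ (by norm_num) e) t0)
  obtain ⟨j, hj, g⟩ := gap (fun a => N (U a)) _ hq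
  obtain ⟨e₀, l₀, k₀⟩ : ∃ e, 0 < μ e ∧ Real.exp (4 ^ (Fintype.card κ + 1) * t) ≤ N (U e) := by
    by_contra k
    push Not at k
    have e : (Pi.single a 1 : κ → ℝ) = ∑ e, V a e • U e := by
      rw [← vecMul_eq_sum]
      funext b
      change _ = (V * U) a b
      simp [mul_eq_one_comm.1 x.inv, one_apply, Pi.single_apply, eq_comm]
    have h1 := (le_sum_of_subadditive N (nn h.toGg 0).1.le h.add univ fun e => V a e • U e).trans
      (sum_le_card_nsmul _ _ (3 ^ Fintype.card κ * Real.exp (4 ^ (Fintype.card κ + 1) * t))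
        fun e _ => by
          rw [h.smul]
          by_cases v : V a e = 0
          · rw [v, abs_zero, zero_mul]; positivity
          · exact mul_le_mul (x.bd a e).2 (k e ((x.hV a e v).1 ▸ ha)).le (n0 _) p3.le)
    rw [← e, card_univ, nsmul_eq_mul] at h1
    have h2 : Real.exp (t / 2) ≤ Real.exp (4 ^ (Fintype.card κ + 1) * t) := Real.exp_le_exp.2 (by
      nlinarith [one_le_pow₀ (n := Fintype.card κ + 1) (show (1 : ℝ) ≤ 4 by norm_num)])
    rw [mul_assoc, two_mul, Real.exp_add] at hN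
    nlinarith [Real.exp_pos (4 ^ (Fintype.card κ + 1) * t)]
  refine ⟨univ.filter fun a => 0 < μ a ∧ Real.exp (4 ^ (j + 1) * t) ≤ N (U a),
    ⟨e₀, mem_filter.2 ⟨mem_univ _, l₀, (hq (Nat.succ_le_succ hj)).trans k₀⟩⟩,
    fun a k => (mem_filter.1 k).2.1, fun a a' e l l' k k' z w => ?_, fun i e z w => ?_⟩
  · have s : ∀ b, 0 < μ b → b ∉ univ.filter (fun a => 0 < μ a ∧
        Real.exp (4 ^ (j + 1) * t) ≤ N (U a)) → N (U b) ≤ Real.exp (4 ^ j * t) := fun b l k =>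
      g b (not_le.1 fun u => k (mem_filter.2 ⟨mem_univ _, l, u⟩))
    have e1 : mC U V c a a' e = (br (hc μ c) (U a) (U a') ᵥ* V) e := by
      simp only [mC, vecMul, dotProduct, br, sum_mul]
      refine sum_congr rfl fun e' _ => sum_congr rfl fun b _ => sum_congr rfl fun b' _ => ?_
      by_cases u : U a b = 0 ∨ U a' b' = 0 ∨ V e' e = 0
      · rcases u with u | u | u <;> simp [u]
      · push Not at u
        have u1 := (x.hU _ _ u.1).1
        have u2 := (x.hU _ _ u.2.1).1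
        rw [hc, if_pos ⟨u1 ▸ l, u2 ▸ l', by rw [(x.hV _ _ u.2.2).1, w, u1, u2]⟩]
    have e2 : Hg μ (μ a + μ a') (br (hc μ c) (U a) (U a')) := fun b hb => by
      obtain ⟨a1, -, u⟩ := exists_ne_zero_of_sum_ne_zero hb
      obtain ⟨a2, -, u⟩ := exists_ne_zero_of_sum_ne_zero u
      have u1 : Hw μ a1 a2 b := by_contra fun v => u (by rw [hc, if_neg v, zero_mul, zero_mul])
      rw [u1.2.2, (x.hU _ _ (right_ne_zero_of_mul (left_ne_zero_of_mul u))).1,
        (x.hU _ _ (right_ne_zero_of_mul u)).1]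
    rw [e1]
    refine fin t0 (x.co _ _ (add_pos l l') e2 e) hp (n0 _) (mem_filter.1 z).2.2
      ((h.cl _ _ _ _ l l' (fun b u => (x.hU _ _ u).1.symm) fun b u => (x.hU _ _ u).1.symm).trans ?_)
    exact mul_le_mul (mul_le_mul hL (s a l k) (n0 _) (Real.exp_pos _).le) (s a' l' k') (n0 _)
      (by positivity)
  · have e1 : (A i ᵥ* V) e = (blk μ (η i) (A i) ᵥ* V) e := sum_congr rfl fun b _ => by
      by_cases u : V b e = 0
      · simp [u]
      · rw [blk, if_pos ((x.hV _ _ u).1.trans w)]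
    rw [e1]
    refine fin t0 (x.co _ _ (he i) (fun b u => by_contra fun v => u (if_neg v)) e) hp (n0 _)
      (mem_filter.1 z).2.2 ((h.dir i).trans (hL.trans ?_))
    have : 1 ≤ Real.exp (4 ^ j * t) := Real.one_le_exp (by positivity)
    rw [mul_assoc]
    exact le_mul_of_one_le_right (Real.exp_pos _).le (one_le_mul_of_one_le_of_one_le this this)

end Pool.Agent.MP_5168f5_an.QA.Fl
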