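import Pool.Agent.MP_5168f5_an.QA.FlApi
import Pool.Agent.MP_5168f5_an.QA.FlCore

/-! The Kakeya maximal estimate: members with minimal weights carry no deep cap. -/

namespace Pool.Agent.MP_5168f5_an.QA.Fl

open H19 H17S H17F R4 AN Filter Finset Matrix
open GA (Mt IsFr Nr Bx Idl lg vec ex br mB mC cm)
open PA (Pr Trm sP sM sO)
open LC (Au Mo ex_le)
open Cp (Hg hc)
open S20 (dn)

/-- The previous point of the grid. -/
theorem ex_pv {Hs : Finset ℝ} (h0 : 0 ∈ Hs) : ∃ p : ℝ → ℝ, ∀ m, 0 < m →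
    p m ∈ Hs ∧ p m < m ∧ ∀ h ∈ Hs, h < m → h ≤ p m := by
  have : ∀ m : ℝ, ∃ p, 0 < m → p ∈ Hs ∧ p < m ∧ ∀ h ∈ Hs, h < m → h ≤ p := fun m => by
    by_cases e : 0 < m
    · obtain ⟨p, a, b⟩ := exists_max_image (Hs.filter (· < m)) id ⟨0, mem_filter.2 ⟨h0, e⟩⟩
      exact ⟨p, fun _ => ⟨(mem_filter.1 a).1, (mem_filter.1 a).2,
        fun h x y => b h (mem_filter.2 ⟨x, y⟩)⟩⟩
    · exact ⟨0, fun x => absurd x e⟩
  exact Classical.skolem.1 this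

variable {ι κ α κ' : Type} [Fintype ι] [DecidableEq ι] [Fintype κ] [DecidableEq κ] [Fintype α]
  {Ω Λ Θ Ξ : ℕ → Type} {σ : Sg ι κ α} {b : ∀ n, Bd ι κ α (Ω n) (Θ n) (Ξ n)}
  {K : (∀ n, Pr κ' (Ω n) (Λ n)) → Prop} {μ : κ → ℝ} {γ : κ → ℕ} {X : ∀ n, Pr κ' (Ω n) (Λ n)}
  {d : ∀ n, Fd ι κ α (Ω n)} {Hs : Finset ℝ} {W : ℝ}

omit [Fintype α] in
/-- A deep cap on a cheap label gives axes with a deep set. -/
theorem deep (hA : RAx) (he : ∀ i, 0 < σ.η i) (hM : Big (sM X)) {L : ℝ} (h : ¬ACW σ b μ L X d) :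
    ∃ (x : ℚ) (r : ℝ) (β : ℕ → Type) (k : ∀ n, Ω n → β n) (U V : ∀ n, Ω n → Matrix κ κ ℝ)
      (Z : Finset κ), -1 ≤ x ∧ x < 0 ∧ 0 < r ∧ FnE (sP X) k (sO X x) ∧
      FnE (sP X) (fun n ω => (U n ω, V n ω)) (fun n ω => ((d n).T ω, k n ω)) ∧
      (∀ᶠ n in UF, ∀ ω ∈ (X n).P.S, ∃ N, Axs μ N (U n ω) (V n ω)) ∧ Pos (sP X) fun n ω =>
        Real.exp (-(min r (-x) / L * (X n).M)) ≤
          dn (X n).P (k n) (fun v => ((b n).S v, (d n).T v)) ω ∧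
        Gd μ σ.η ((d n).c σ ω) ((d n).A ω) (U n ω) (V n ω)
          (r / (2 * 4 ^ (Fintype.card κ + 1)) * (X n).M) Z := by
  unfold ACW at h
  push Not at h
  obtain ⟨x, r, β, k, N, x1, x0, r0, fk, fN, cp, nw⟩ := h
  have : Nonempty (Matrix κ κ ℝ) := ⟨0⟩
  choose! U V hU using hA κ μ
  by_contra c
  push Not at c
  have τ0 : 0 < r / (2 * 4 ^ (Fintype.card κ + 1)) := by positivity
  refine nw ((Whp.all fun Z => S20.whp_not (c x r β k (fun n ω => U (N n ω)) (fun n ω => V (N n ω))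
    Z x1 x0 r0 fk (fN.mono fun n a u hu v hv e => ?_)
    ((cp 1 one_pos).mono fun n a ω hω => ⟨_, hU _ (a ω hω).toGg⟩))).mono ?_)
  · simp only [a u hu v hv (Prod.ext (congrArg Prod.snd e) (congrArg Prod.fst e))]
  filter_upwards [cp _ (half_pos τ0),
    G39.big_dl hM (((Fintype.card κ : ℝ) + 1) * 3 ^ Fintype.card κ) (half_pos τ0)] with n a e ω hω z
  rw [G39.dl_inv] at e
  by_contra y
  push Not at y
  obtain ⟨⟨i, i0, i1⟩, y⟩ := y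
  obtain ⟨Z, g⟩ := core he (a ω hω) (hU _ (a ω hω).toGg)
    (t := r / (2 * 4 ^ (Fintype.card κ + 1)) * (X n).M) (by positivity)
    (ex_le (le_of_eq (by ring))) (e.trans (ex_le (le_of_eq (by ring)))) i0
    ((ex_le (le_of_eq (by field_simp))).trans i1.le)
  exact z Z ⟨y.le, g⟩

/-- The weights after the cut. -/
noncomputable def cw (p : ℝ → ℝ) (μ : κ → ℝ) (Z : Finset κ) (a : κ) : ℝ :=
  if a ∈ Z ∧ 0 < μ a then p (μ a) else μ a

/-- One cut with the precision `q`. -/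
theorem cut (hA : RAx) (hB : RBas) (hD : RDrop) (hN : RNet) (ok : σ.Ok Hs W) (hK : Cz K)
    (hμ : ∀ a, μ a ∈ Hs) (h : Mem σ b K μ γ X d) {p : ℝ → ℝ}
    (hp : ∀ m, 0 < m → p m ∈ Hs ∧ p m < m ∧ ∀ h ∈ Hs, h < m → h ≤ p m)
    (no : ∀ L, 1 ≤ L → ¬ACW σ b μ L X d) {q : ℝ} (q1 : 1 ≤ q) :
    ∃ Z : Finset κ, (∃ a ∈ Z, 0 < μ a) ∧ ∃ (Y : ∀ n, Pr κ' (Ω n) (Λ n)) (d' : ∀ n, Fd ι κ α (Ω n)),
      K Y ∧ BF σ b Y ∧ ∀ᶠ n in UF, One σ (b n) (d' n) (Y n).P ((Y n).O (-1)) (cw p μ Z) (ng μ γ)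
        (Y n).M ((Y n).M / q) (q * (Y n).M) := by
  have dr : ∀ Z, Dr Hs μ (cw p μ Z) := fun Z a => by
    unfold cw
    split_ifs with e
    exacts [⟨(hp _ e.2).1, (hp _ e.2).2.1.le, (hp _ e.2).2.2⟩, ⟨hμ a, le_rfl, fun _ _ => le_of_lt⟩]
  choose Cz c1 st using fun Z => step hD hN γ ok hμ (dr Z)
  obtain ⟨C, C1, hC⟩ : ∃ C : ℝ, 1 ≤ C ∧ ∀ Z, Cz Z ≤ C := ⟨∑ Z, Cz Z,
    (c1 ∅).trans (single_le_sum (fun Z _ => zero_le_one.trans (c1 Z)) (mem_univ _)),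
    fun Z => single_le_sum (fun Z _ => zero_le_one.trans (c1 Z)) (mem_univ Z)⟩
  obtain ⟨C', C2, bs⟩ := hB ι κ α σ
  have hM := hK.big X h.k
  obtain ⟨δ, δ0, hδ⟩ : ∃ δ : ℝ, 0 < δ ∧ 2 * q * C * C' * δ = 1 :=
    ⟨1 / (2 * q * C * C'), by positivity, by field_simp⟩
  obtain ⟨s, s0, hs⟩ : ∃ s : ℝ, 0 < s ∧ (q + 2 * C) * (2 * 4 ^ (Fintype.card κ + 1)) * s = 1 :=
    ⟨1 / ((q + 2 * C) * (2 * 4 ^ (Fintype.card κ + 1))), by positivity, by field_simp⟩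
  have p1 : 1 ≤ q * C := one_le_mul_of_one_le_of_one_le q1 C1
  have δ1 : C' * δ ≤ 1 / 2 := by nlinarith [mul_pos (one_pos.trans_le C2) δ0]
  have δ2 : δ ≤ 1 / 2 := by nlinarith
  have s1 : s ≤ 1 := by
    have : (1 : ℝ) ≤ 4 ^ (Fintype.card κ + 1) := one_le_pow₀ (by norm_num)
    have : 1 ≤ (q + 2 * C) * (2 * 4 ^ (Fintype.card κ + 1)) :=
      one_le_mul_of_one_le_of_one_le (by linarith) (by linarith)
    nlinarith
  obtain ⟨x, r, β, k, U, V, Z, x1, x0, r0, fk, fU, ax, p0, p2, ps⟩ := deep hA ok.eta hM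
    (no (4 / (δ * s)) (by rw [le_div_iff₀ (by positivity)]; nlinarith))
  have x2 : (0 : ℝ) < -x := by exact_mod_cast neg_pos.2 x0
  have x3 : -(x : ℝ) ≤ 1 := by exact_mod_cast neg_le.1 x1
  obtain ⟨ρ, hρ⟩ : ∃ ρ, ρ = min r (-x) := ⟨_, rfl⟩
  rw [← hρ] at ps
  have ρ0 : 0 < ρ := hρ ▸ lt_min r0 x2
  have ρ1 : ρ ≤ r := hρ ▸ min_le_left _ _
  have ρ2 : ρ ≤ -x := hρ ▸ min_le_right _ _
  obtain ⟨e, e1, e2⟩ := exists_rat_btwn (half_lt_self (mul_pos ρ0 s0))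
  have e3 : (0 : ℝ) < e := (half_pos (mul_pos ρ0 s0)).trans e1
  have e4 : (e : ℝ) ≤ -x := by nlinarith
  have e0 : 0 < e := by exact_mod_cast e3
  have e5 : e ≤ -x := by exact_mod_cast e4
  have e6 : e ≤ 1 := by linarith
  obtain ⟨G, g1, g⟩ := PA.trim hM _ fun c hc =>
    ((G39.dl_lt hM p2 hc).and ps).mono fun n a => a.1.le.trans a.2
  have kY := hK.idx _ e e0 e6 (hK.res X G h.k g)
  have bY := BF.idx (X := fun n => (X n).res (G n)) ok hM (h.bf.res G) e0 e6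
  have μ0 : ∀ a, 0 ≤ μ a := fun a => (ok.bd _ (hμ a)).1
  have zl : ∃ a ∈ Z, 0 < μ a := by
    obtain ⟨n, a⟩ := g.mem.exists
    obtain ⟨ω, o⟩ := N3.ex_pt (cE (X n).P (G n))
    have := (g1 n ω (a ω o).2).2
    exact this.ne.imp fun a y => ⟨y, this.lv a y⟩
  refine ⟨Z, zl, ?_⟩
  suffices ∀ᶠ n in UF, ∃ d', One σ (b n) d' (cE (X n).P (G n)) ((X n).O (0 + e * -1)) (cw p μ Z)
      (ng μ γ) (⌊(e : ℝ) * (X n).M⌋₊ : ℕ) ((⌊(e : ℝ) * (X n).M⌋₊ : ℕ) / q)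
      (q * (⌊(e : ℝ) * (X n).M⌋₊ : ℕ)) from
    (ev_ex d this).elim fun d' a => ⟨_, d', kY, bY, a⟩
  filter_upwards [h.fl (δ * (e / 2)) (by positivity) (q + 4 * C + 1), g.mem, fk, fU, ax,
    bY (-1) le_rfl (by norm_num) δ δ0 (q + 2 * C), (LC.eqv_floor hM e3).2 _ (half_pos e3),
    hK.nest X h.k (-1) (0 + e * -1) (by linarith), hK.nest X h.k x (0 + e * -1) (by linarith),
    G39.big_dl hM (3 ^ Fintype.card κ) (show 0 < δ * (e / 2) by positivity),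
    hM.ev (1 / (δ * (e / 2)))] with n o m fk fU ax bt fl n1 n2 b3 m1
  rw [G39.dl_inv] at b3
  rw [div_le_iff₀' (by positivity)] at m1
  have f1 : ((⌊(e : ℝ) * (X n).M⌋₊ : ℕ) : ℝ) ≤ e * (X n).M := Nat.floor_le (by positivity)
  simp only [un, sM, PA.Pr.idx] at fl bt m1 b3 o
  generalize ((⌊(e : ℝ) * (X n).M⌋₊ : ℕ) : ℝ) = M' at *
  have sb : ∀ ω ∈ (cE (X n).P (G n)).S, ω ∈ (X n).P.S := fun _ => cE_sub
  generalize hm : ((X n).M : ℝ) = M at *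
  have M0 : 0 ≤ M := hm ▸ Nat.cast_nonneg _
  have e7 : (e : ℝ) ≤ 1 := by linarith
  have f2 : e / 2 * M ≤ M' := by linarith
  have f3 : M' ≤ M := by nlinarith
  have f4 : δ * (e / 2) * M ≤ δ * M' := by nlinarith
  have f5 : 1 ≤ δ * M' := m1.trans f4
  have M1 : 0 ≤ M' := by nlinarith
  have f6 : ρ / (4 / (δ * s)) * M ≤ δ * M' := by
    rw [div_div_eq_mul_div]
    nlinarith [mul_le_mul_of_nonneg_right e1.le (mul_nonneg δ0.le M0)]
  have few : Det (cE (X n).P (G n)) (k n) (fun ω => ((b n).S ω, (d n).T ω)) (Real.exp (δ * M')) :=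
    det_few.2 (((S20.few_dn (X n).P (k n) _ (Real.exp_pos (-(ρ / (4 / (δ * s)) * M)))).cE
      (G n)).mono (fun v hv _ => hm ▸ (g1 n v (m v hv).2).1) (by
        rw [← Real.exp_neg, neg_neg]; exact ex_le f6))
  have o1 := (((mo_one _ _ _ _ f4 le_rfl o).sub sb).lev (fn_sub n1 sb)).ref (fn_sub (fk.trans n2) sb)
    few (by linarith)
  have o2 := bs _ _ _ _ _ _ _ _ μ γ M _ _ (U n) (V n) μ0 M0 (by linarith) (by positivity) o1
    ((fn_sub fU sb).trans fn_atm) fun ω hω => by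
      obtain ⟨N, a⟩ := ax ω (sb ω hω)
      have up : ∀ i j, (μ i = μ j ∧ (¬0 < μ i → i = j)) → Up μ γ i j := fun i j y =>
        ⟨y.1.le, fun z => (y.2 (by rw [y.1, z]; exact lt_irrefl _)) ▸ le_rfl⟩
      exact ⟨a.inv, fun i j => ⟨(a.bd i j).1.trans (Real.one_le_exp (by linarith)),
        (a.bd i j).2.trans (b3.trans (ex_le (by linarith))), fun y => up i j (a.hU i j y),
        fun y => up i j (a.hV i j y)⟩⟩
  have u1 : C * (C' * (δ * M' + δ * M')) = M' / q := by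
    rw [eq_div_iff (by positivity)]
    linear_combination M' * hδ
  have u2 : 1 ≤ C' * (δ * M' + δ * M') := one_le_mul_of_one_le_of_one_le C2 (by linarith)
  have u3 : C' * (δ * M' + δ * M') ≤ M' := by nlinarith
  have u4 : δ * M' ≤ C' * (δ * M' + δ * M') := by nlinarith
  have z0 := zero_le_one.trans (c1 Z)
  have t1 : Cz Z * (C' * (δ * M' + δ * M') + M') ≤ 2 * C * M' :=
    (mul_le_mul (hC Z) (by linarith : _ ≤ 2 * M') (by linarith) (by linarith)).trans_eq (by ring)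
  have t2 : Cz Z * (C' * (δ * M' + δ * M') + M) ≤ 2 * C * M :=
    (mul_le_mul (hC Z) (by linarith : _ ≤ 2 * M) (by linarith) (by linarith)).trans_eq (by ring)
  have t3 : (q + 2 * C) * M' ≤ (q + 2 * C) * M := mul_le_mul_of_nonneg_left f3 (by linarith)
  have t4 : (q + 2 * C) * M' ≤ r / (2 * 4 ^ (Fintype.card κ + 1)) * M := by
    have : r / (2 * 4 ^ (Fintype.card κ + 1)) = (q + 2 * C) * (r * s) := by
      rw [div_eq_iff (by positivity)]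
      linear_combination -r * hs
    rw [this, mul_assoc]
    refine mul_le_mul_of_nonneg_left (f1.trans (mul_le_mul_of_nonneg_right ?_ M0)) (by linarith)
    nlinarith
  have cz : ∀ a, 0 < μ a → cw p μ Z a = μ a → a ∉ Z := fun a y z t => by
    rw [cw, if_pos ⟨t, y⟩] at z
    exact (hp _ y).2.1.ne z
  have cz' : ∀ a, cw p μ Z a < μ a → a ∈ Z := fun a y => by_contra fun t => by
    rw [cw, if_neg fun z => t z.1] at y
    exact lt_irrefl _ y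
  obtain ⟨d', y, -⟩ := st Z _ _ _ _ _ _ _ _ M M' _ _ ((q + 2 * C) * M') M0 M1 u2 (by nlinarith)
    (by linarith) o2 (bt.wk u4 (fun i => by push_cast; linarith) le_rfl)
    (fun ω hω a a' i y y' z z' t t' => by
      have := (g1 n ω (m ω hω).2).2.sc a a' i y y' (cz a y z) (cz a' y' z') (cz' i t) t'
      rw [Fd.c, ← mC_comp, hm] at this
      exact this.trans (ex_le (neg_le_neg t4)))
    fun ω hω i a t t' => ((g1 n ω (m ω hω).2).2.sA i a (cz' a t) t').trans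
      (ex_le (neg_le_neg (hm ▸ t4)))
  exact ⟨d', mo_one _ _ _ _ (u1 ▸ mul_le_mul_of_nonneg_right (hC Z) (by linarith)) (by linarith) y⟩

theorem ofAcw : OfAcw := by
  intro hA hB hD hN ι κ α κ' _ _ _ _ _ Ω Λ Θ Ξ σ b K Hs W μ γ X d ok hK mn h
  by_contra no
  push Not at no
  obtain ⟨p, hp⟩ := ex_pv ok.zero
  let T := fun n => Pr κ' (Ω n) (Λ n) × Fd ι κ α (Ω n)
  let Q : Finset κ → ℕ → (∀ n, T n) → Prop := fun Z i Y => K (fun n => (Y n).1) ∧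
    BF σ b (fun n => (Y n).1) ∧ ∀ᶠ n in UF, One σ (b n) (Y n).2 (Y n).1.P ((Y n).1.O (-1))
      (cw p μ Z) (ng μ γ) (Y n).1.M ((Y n).1.M / (i + 1)) ((i + 1) * (Y n).1.M)
  have mo : ∀ Z i j Y, i ≤ j → Q Z j Y → Q Z i Y := fun Z i j Y e a => by
    have e' : (i + 1 : ℝ) ≤ j + 1 := by exact_mod_cast Nat.succ_le_succ e
    exact ⟨a.1, a.2.1, a.2.2.mono fun n => mo_one _ _ _ _ (div_le_div_of_nonneg_left
      (Nat.cast_nonneg _) (by positivity) e') (mul_le_mul_of_nonneg_right e' (Nat.cast_nonneg _))⟩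
  obtain ⟨Z, hZ⟩ : ∃ Z, ∀ i : ℕ, (∃ a ∈ Z, 0 < μ a) ∧ ∃ Y, Q Z i Y := by
    by_contra c
    rw [not_exists] at c
    choose j hj using fun Z => not_forall.1 (c Z)
    obtain ⟨Z, z, Y, d', a⟩ := cut hA hB hD hN ok hK mn.1 h hp no
      (q := (univ.sup j : ℕ) + 1) (by simp)
    exact hj Z ⟨z, fun n => (Y n, d' n), mo Z _ _ _ (le_sup (mem_univ Z)) a⟩
  choose Y hY using fun i => (hZ i).2
  obtain ⟨k, -, a⟩ := cf_diag (K := Q Z) (fun i => (hK.cf.comp (S' := T) fun _ z => z.1).and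
    (((cf_bf σ b).comp (S' := T) fun _ z => z.1).and (cf_ev (S := T) fun n z =>
      One σ (b n) z.2 z.1.P (z.1.O (-1)) (cw p μ Z) (ng μ γ) z.1.M (z.1.M / (i + 1))
        ((i + 1) * z.1.M)))) Y fun k i e => mo Z i k _ e (hY k)
  have le : ∀ a, cw p μ Z a ∈ Hs ∧ cw p μ Z a ≤ μ a := fun a => by
    unfold cw
    split_ifs with e
    exacts [⟨(hp _ e.2).1, (hp _ e.2).2.1.le⟩, ⟨mn.1 a, le_rfl⟩]
  obtain ⟨i, i1, i2⟩ := (hZ 0).1
  refine (mn.2 _ _ _ _ (fun a => (le a).1) ⟨(a 0).1, (a 0).2.1,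
    au_seq (fun _ => mo_one) fun i => (a i).2.2⟩).not_gt (sum_lt_sum (fun a _ => (le a).2)
      ⟨i, mem_univ i, ?_⟩)
  rw [cw, if_pos ⟨i1, i2⟩]
  exact (hp _ i2).2.1

end Pool.Agent.MP_5168f5_an.QA.Fl
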