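import Pool.Agent.MP_5168f5_an.QA.Pac
import Pool.Agent.MP_5168f5_an.QA.CpDefs
import Pool.Agent.MP_5168f5_an.AN.GAAll
import Pool.Agent.MP_5168f5_an.AN.GAAll2
import Pool.Agent.MP_5168f5_an.AN.S20Ds

/-! The Kakeya maximal estimate: the minimal filtration, definitions and statements. -/

namespace Pool.Agent.MP_5168f5_an.QA.Fl

open H19 H17S H17F R4 AN Filter Finset Matrix
open GA (Mt IsFr Nr Bx Idl lg vec ex br mB mC cm)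
open PA (Pr Trm sP sM sO)
open LC (Au Mo)
open Cp (Hg hc)
open S20 (dn)

/-- The constants: an exact frame, the first weights and the weights of the letters. -/
structure Sg (ι κ α : Type) [Fintype ι] [DecidableEq ι] : Type where
  Φ : H61Z.Filt (Mt ι)
  B : κ → Mt ι
  c : κ → κ → κ → ℝ
  m : κ → ℝ
  η : α → ℝ

/-- The base data: position, first common label, fine label, letters and their coefficients. -/
structure Bd (ι κ α Ω Θ Ξ : Type) : Type where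
  J : Ω → Mt ι
  T : Ω → Θ
  S : Ω → Ξ
  H : Ω → α → κ → ℝ
  y : Ω → Ω → α → ℝ

/-- The data of a filtration: common label, change of basis and its inverse, reference,
coordinates of the two factors and of the letters. -/
structure Fd (ι κ α Ω : Type) : Type where
  T : Ω → Set Ω
  U : Ω → Matrix κ κ ℝ
  V : Ω → Matrix κ κ ℝ
  E : Ω → Mt ι
  g : Ω → κ → ℝ
  k : Ω → κ → ℝ
  A : Ω → α → κ → ℝ

/-- The atom of a label. -/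
def atm {Ω β : Type} (K : Ω → β) (ω : Ω) : Set Ω := {v | K v = K ω}

section Wt

variable {κ : Type}

/-- The triples on which the constants are small. Weight zero is dead, `γ` is the generation. -/
def Lw (μ : κ → ℝ) (γ : κ → ℕ) (a b e : κ) : Prop :=
  (0 < μ a ∧ 0 < μ b ∧ μ e < μ a + μ b) ∨
    (μ e = 0 ∧ (0 < μ a ∨ γ e ≤ γ a) ∧ (0 < μ b ∨ γ e ≤ γ b))

/-- The same before the new label is built; `lv` are the indices that were live. -/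
def Lp (lv : κ → Prop) (μ : κ → ℝ) (γ : κ → ℕ) (a b e : κ) : Prop :=
  (lv a ∧ lv b ∧ lv e ∧ (μ e < μ a + μ b ∨ μ e = 0)) ∨ (¬lv e ∧ γ e ≤ γ a ∧ γ e ≤ γ b)

/-- The pattern of a change of basis that keeps the filtration. -/
def Up (μ : κ → ℝ) (γ : κ → ℕ) (a e : κ) : Prop := μ a ≤ μ e ∧ (μ e = 0 → γ a ≤ γ e)

/-- Weights and generations before the new label is built. -/
structure Wp (lv : κ → Prop) (μ : κ → ℝ) (γ : κ → ℕ) (G : ℕ) (W : ℝ) : Prop where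
  bd : ∀ b, 0 ≤ μ b ∧ μ b ≤ W
  dead : ∀ b, ¬lv b → μ b = 0 ∧ γ b < G
  live : ∀ b, lv b → γ b = G

open Classical in
/-- The radii of a box. -/
noncomputable def rd (lv : κ → Prop) (μ : κ → ℝ) (γ : κ → ℕ) (W R w : ℝ) (b : κ) : ℝ :=
  if lv b then Real.exp (μ b * R) else Real.exp (-w + (2 + γ b) * (W * R))

open Classical in
/-- Small below the weight `h`. -/
noncomputable def rl (μ : κ → ℝ) (h w : ℝ) (b : κ) : ℝ := if μ b < h then Real.exp (-w) else 1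

open Classical in
/-- The block of weight `m`. -/
noncomputable def blk (μ : κ → ℝ) (m : ℝ) (x : κ → ℝ) (b : κ) : ℝ := if μ b = m then x b else 0

open Classical in
/-- The live indices get a new generation. -/
noncomputable def ng [Fintype κ] (μ : κ → ℝ) (γ : κ → ℕ) (b : κ) : ℕ :=
  if 0 < μ b then univ.sup γ + 1 else γ b

/-- The weights drop at most to the previous point of the grid. -/
def Dr (Hs : Finset ℝ) (μ μ' : κ → ℝ) : Prop :=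
  ∀ b, μ' b ∈ Hs ∧ μ' b ≤ μ b ∧ ∀ h ∈ Hs, h < μ b → h ≤ μ' b

/-- A seminorm above the live coordinates. -/
structure Gg (μ : κ → ℝ) (N : (κ → ℝ) → ℝ) : Prop where
  add : ∀ x y, N (x + y) ≤ N x + N y
  smul : ∀ (t : ℝ) x, N (t • x) = |t| * N x
  low : ∀ x b, 0 < μ b → |x b| ≤ N x

variable [Fintype κ]

/-- A cap: closed under the homogeneous bracket and bounded on the letters. -/
structure Cap {α : Type} (μ : κ → ℝ) (η : α → ℝ) (c : κ → κ → κ → ℝ) (A : α → κ → ℝ) (L : ℝ)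
    (N : (κ → ℝ) → ℝ) : Prop extends Gg μ N where
  cl : ∀ m m' x y, 0 < m → 0 < m' → Hg μ m x → Hg μ m' y → N (br (hc μ c) x y) ≤ L * N x * N y
  dir : ∀ i, N (blk μ (η i) (A i)) ≤ L

variable [DecidableEq κ]

/-- Homogeneous axes of a seminorm. -/
structure Axs (μ : κ → ℝ) (N : (κ → ℝ) → ℝ) (U V : Matrix κ κ ℝ) : Prop where
  inv : U * V = 1
  hU : ∀ a e, U a e ≠ 0 → μ a = μ e ∧ (¬0 < μ a → a = e)
  hV : ∀ a e, V a e ≠ 0 → μ a = μ e ∧ (¬0 < μ a → a = e)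
  bd : ∀ a e, |U a e| ≤ 1 ∧ |V a e| ≤ 3 ^ Fintype.card κ
  one : ∀ a, U a a = 1
  co : ∀ m y, 0 < m → Hg μ m y → ∀ a, |(y ᵥ* V) a| * N (U a) ≤ 3 ^ Fintype.card κ * N y

end Wt

variable {ι κ α : Type} [Fintype ι] [DecidableEq ι] [Fintype κ] [DecidableEq κ] [Fintype α]

/-- The constants are admissible; `Hs` is a grid of weights below `W` closed under sums. -/
structure Sg.Ok (σ : Sg ι κ α) (Hs : Finset ℝ) (W : ℝ) : Prop where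
  fr : IsFr σ.Φ σ.B σ.c
  pos : ∀ b, 0 < σ.m b
  eta : ∀ i, 0 < σ.η i
  gr : ∀ a b e, σ.c a b e ≠ 0 → σ.m a + σ.m b ≤ σ.m e
  zero : 0 ∈ Hs
  bd : ∀ h ∈ Hs, 0 ≤ h ∧ h ≤ W
  add : ∀ h ∈ Hs, ∀ h' ∈ Hs, h + h' ≤ W → h + h' ∈ Hs
  hm : ∀ b, σ.m b ∈ Hs
  he : ∀ i, σ.η i ∈ Hs

section One

variable {Ω Λ Θ Ξ : Type} (σ : Sg ι κ α) (b : Bd ι κ α Ω Θ Ξ) (d : Fd ι κ α Ω) (P : FP Ω)
  (O : Ω → Λ)

/-- The adapted basis. -/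
noncomputable def Fd.B (ω : Ω) : κ → Mt ι := mB (d.U ω) σ.B

/-- Its structure constants. -/
noncomputable def Fd.c (ω : Ω) : κ → κ → κ → ℝ := mC (d.U ω) (d.V ω) σ.c

/-- The position without the bounded factor. -/
noncomputable def Fd.G (ω : Ω) : Mt ι := b.J ω * ex (d.B σ ω) (-d.k ω)

/-- A finer common label. -/
def Fd.ref {β : Type} (K : Ω → β) : Fd ι κ α Ω :=
  { d with T := atm fun ω => (d.T ω, K ω) }

/-- A change of basis. -/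
noncomputable def Fd.bas (U V : Ω → Matrix κ κ ℝ) : Fd ι κ α Ω :=
  ⟨d.T, fun ω => U ω * d.U ω, fun ω => d.V ω * V ω, d.E, fun ω => d.g ω ᵥ* V ω,
    fun ω => d.k ω ᵥ* V ω, fun ω i => d.A ω i ᵥ* V ω⟩

/-- The base facts for the pieces `O` of depth `R`, with loss `u` and accuracy `w`. -/
structure Bd.At (R u w : ℝ) : Prop where
  unit : ∀ ω ∈ P.S, IsUnit (b.J ω)
  fT : Fn P b.T O
  few : Det P b.T b.S (Real.exp u)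
  fH : Fn P b.H O
  bH : ∀ ω ∈ P.S, ∀ i a,
    |b.H ω i a| ≤ Real.exp u ∧ (σ.m a < σ.η i → |b.H ω i a| ≤ Real.exp (-w))
  near : ∀ ω ∈ P.S, ∀ v ∈ P.S, b.S ω = b.S v → b.T ω = b.T v →
    Nr σ.B 1 (Real.exp u) (b.J ω) (b.J v)
  inc : ∀ ω ∈ P.S, ∀ v ∈ P.S, O ω = O v → ∃ t, b.J v = b.J ω * ex σ.B t ∧
    (∀ a, |t a - ∑ i, b.y ω v i * b.H ω i a| ≤ Real.exp (-w)) ∧
      ∀ i, |b.y ω v i| ≤ Real.exp (u + σ.η i * R)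

/-- The label, the basis, the bounded factor and the letters. -/
structure Cm (μ : κ → ℝ) (u : ℝ) : Prop where
  fT : Fn P d.T O
  f0 : Fn P b.T d.T
  few : Det P d.T b.S (Real.exp u)
  fU : Fn P (fun ω => (d.U ω, d.V ω)) d.T
  fk : Fn P (fun ω => (d.k ω, d.A ω)) O
  inv : ∀ ω ∈ P.S, d.U ω * d.V ω = 1
  bU : ∀ ω ∈ P.S, ∀ a e, |d.U ω a e| ≤ Real.exp u ∧ |d.V ω a e| ≤ Real.exp u
  tri : ∀ ω ∈ P.S, ∀ a e, σ.m e < μ a → d.U ω a e = 0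
  bc : ∀ ω ∈ P.S, ∀ a a' e, |d.c σ ω a a' e| ≤ Real.exp u
  bk : ∀ ω ∈ P.S, ∀ a, |d.k ω a| ≤ Real.exp u
  ad : ∀ ω ∈ P.S, ∀ i, vec (d.B σ ω) (d.A ω i) =
    ex (d.B σ ω) (d.k ω) * vec σ.B (b.H ω i) * ex (d.B σ ω) (-d.k ω)
  bA : ∀ ω ∈ P.S, ∀ i a, |d.A ω i a| ≤ Real.exp u

/-- A filtration with weights `μ`; the atoms of the label lie in boxes of depth `R`. -/
structure One (μ : κ → ℝ) (γ : κ → ℕ) (R u w : ℝ) : Prop extends Cm σ b d P O μ u where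
  fE : Fn P d.E d.T
  uE : ∀ ω ∈ P.S, IsUnit (d.E ω)
  fil : ∀ ω ∈ P.S, ∀ a a' e, Lw μ γ a a' e → |d.c σ ω a a' e| ≤ Real.exp (-w)
  fac : ∀ ω ∈ P.S, b.J ω = d.E ω * ex (d.B σ ω) (d.g ω) * ex (d.B σ ω) (d.k ω)
  bg : ∀ ω ∈ P.S, ∀ a, (0 < μ a → |d.g ω a| ≤ Real.exp (u + μ a * R)) ∧
    (μ a = 0 → |d.g ω a| ≤ Real.exp (-w))
  low : ∀ ω ∈ P.S, ∀ i a, μ a < σ.η i → |d.A ω i a| ≤ Real.exp (-w)

/-- A filtration before the new label is built. -/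
structure Pre (lv : κ → Prop) (μ : κ → ℝ) (γ : κ → ℕ) (u w : ℝ) : Prop
    extends Cm σ b d P O μ u where
  fil : ∀ ω ∈ P.S, ∀ a a' e, Lp lv μ γ a a' e → |d.c σ ω a a' e| ≤ Real.exp (-w)
  low : ∀ ω ∈ P.S, ∀ i a, μ a < σ.η i → |d.A ω i a| ≤ Real.exp (-w)
  dd : ∀ ω ∈ P.S, ∀ v ∈ P.S, d.T ω = d.T v → ∀ a, ¬lv a →
    |lg (d.B σ ω) (d.G σ b ω) (d.G σ b v) a| ≤ Real.exp (-w)

/-- The new data keep the basis, and the bounded factor if no index dies. -/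
structure Kp (lv : κ → Prop) (μ : κ → ℝ) (d' : Fd ι κ α Ω) : Prop where
  U : d'.U = d.U
  V : d'.V = d.V
  T : Fn P d.T d'.T
  k : (∀ a, lv a → 0 < μ a) → ∀ ω ∈ P.S, d'.k ω = d.k ω ∧ d'.A ω = d.A ω

end One

section Seq

variable {κ' : Type} {Ω Λ Θ Ξ : ℕ → Type} (σ : Sg ι κ α)
  (b : ∀ n, Bd ι κ α (Ω n) (Θ n) (Ξ n))

/-- A class closed under limits, centred zooms and restrictions. -/
structure Cz (K : (∀ n, Pr κ' (Ω n) (Λ n)) → Prop) : Prop where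
  cf : CF K
  idx : ∀ X (e : ℚ), 0 < e → e ≤ 1 → K X → K fun n => (X n).idx 0 e
  res : ∀ X G, K X → Trm X G → K fun n => (X n).res (G n)
  big : ∀ X, K X → Big (sM X)
  nest : ∀ X, K X → ∀ a a', a ≤ a' → FnE (sP X) (sO X a) (sO X a')

/-- The base facts at all levels between `-1` and `0`. -/
def BF (X : ∀ n, Pr κ' (Ω n) (Λ n)) : Prop := ∀ x : ℚ, -1 ≤ x → x ≤ 0 →
  Au (sM X) fun n u w => (b n).At σ (X n).P ((X n).O x) (-(x : ℝ) * (X n).M) u w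

/-- A filtration along the sequence. -/
def FL (μ : κ → ℝ) (γ : κ → ℕ) (X : ∀ n, Pr κ' (Ω n) (Λ n)) (d : ∀ n, Fd ι κ α (Ω n)) : Prop :=
  Au (sM X) fun n u w => One σ (b n) (d n) (X n).P ((X n).O (-1)) μ γ (X n).M u w

/-- A member of the class. -/
structure Mem (K : (∀ n, Pr κ' (Ω n) (Λ n)) → Prop) (μ : κ → ℝ) (γ : κ → ℕ)
    (X : ∀ n, Pr κ' (Ω n) (Λ n)) (d : ∀ n, Fd ι κ α (Ω n)) : Prop where
  k : K X
  bf : BF σ b X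
  fl : FL σ b μ γ X d

/-- A cheap label of the pieces does not carry a deep cap. -/
def ACW (μ : κ → ℝ) (L₀ : ℝ) (X : ∀ n, Pr κ' (Ω n) (Λ n)) (d : ∀ n, Fd ι κ α (Ω n)) : Prop :=
  ∀ (x : ℚ) (r : ℝ) (β : ℕ → Type) (K : ∀ n, Ω n → β n) (N : ∀ n, Ω n → (κ → ℝ) → ℝ),
    -1 ≤ x → x < 0 → 0 < r → FnE (sP X) K (sO X x) →
    FnE (sP X) N (fun n ω => (K n ω, (d n).T ω)) →
    (∀ ε : ℝ, 0 < ε → ∀ᶠ n in UF, ∀ ω ∈ (X n).P.S,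
      Cap μ σ.η ((d n).c σ ω) ((d n).A ω) (Real.exp (ε * (X n).M)) (N n ω)) →
    Whp (sP X) fun n ω => (∀ a, 0 < μ a → N n ω (Pi.single a 1) ≤ Real.exp (r * (X n).M)) ∨
      dn (X n).P (K n) (fun v => ((b n).S v, (d n).T v)) ω ≤
        Real.exp (-(min r (-x) / L₀ * (X n).M))

/-- Matrices `φ` read from the first label that are bounded in the own frame and commute with
the letters. -/
def Fb {J : Type} (φ : ∀ n, Ω n → J → Mt ι) (X : ∀ n, Pr κ' (Ω n) (Λ n)) : Prop :=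
  FnE (sP X) φ (fun n => (b n).T) ∧ Au (sM X) fun n u w => ∀ ω ∈ (X n).P.S, ∀ j p q,
    |(((b n).J ω)⁻¹ * φ n ω j * (b n).J ω) p q| ≤ Real.exp u ∧ ∀ i,
      |cm (vec σ.B ((b n).H ω i)) (((b n).J ω)⁻¹ * φ n ω j * (b n).J ω) p q| ≤ Real.exp (-w)

end Seq

/-! ### Statements on one space -/

/-- The grid exists. -/
def RGrid : Prop := ∀ (J : Type) [Fintype J] (f : J → ℝ), (∀ j, 0 < f j) →
  ∃ (Hs : Finset ℝ) (W : ℝ), 0 ∈ Hs ∧ (∀ h ∈ Hs, 0 ≤ h ∧ h ≤ W) ∧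
    (∀ h ∈ Hs, ∀ h' ∈ Hs, h + h' ≤ W → h + h' ∈ Hs) ∧ ∀ j, f j ∈ Hs

/-- Axes exist. -/
def RAx : Prop := ∀ (κ : Type) [Fintype κ] [DecidableEq κ] (μ : κ → ℝ) (N : (κ → ℝ) → ℝ),
  Gg μ N → ∃ U V, Axs μ N U V

/-- The boxes are closed. -/
def RIdl : Prop := ∀ (κ : Type) (lv : κ → Prop) (μ : κ → ℝ) (γ : κ → ℕ) (G : ℕ) (W R w L : ℝ)
  (c : κ → κ → κ → ℝ), Wp lv μ γ G W → 0 ≤ W → 0 ≤ R → (3 + G) * (W * R) ≤ w → 1 ≤ L →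
  (∀ a b e, |c a b e| ≤ L) → (∀ a b e, Lp lv μ γ a b e → |c a b e| ≤ Real.exp (-w)) →
  Idl c (rd lv μ γ W R w) (rd lv μ γ W R w) L ∧
    Idl c (rd lv μ γ W R w) (rd (fun a => 0 < μ a) μ γ W R w) L ∧
    (∀ a, rd (fun a => 0 < μ a) μ γ W R w a ≤ rd lv μ γ W R w a) ∧
    ∀ h, 0 < h → Idl c (rd lv μ γ W 0 w) (rl μ h w) L

/-- Change of basis. -/
def RBas : Prop := ∀ (ι κ α : Type) [Fintype ι] [DecidableEq ι] [Fintype κ] [DecidableEq κ]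
  (σ : Sg ι κ α), ∃ C : ℝ, 1 ≤ C ∧ ∀ (Ω Λ Θ Ξ : Type) (b : Bd ι κ α Ω Θ Ξ)
  (d : Fd ι κ α Ω) (P : FP Ω) (O : Ω → Λ) (μ : κ → ℝ) (γ : κ → ℕ) (R u w : ℝ)
  (U V : Ω → Matrix κ κ ℝ), (∀ a, 0 ≤ μ a) → 0 ≤ R → 1 ≤ u → 0 ≤ w → One σ b d P O μ γ R u w →
  Fn P (fun ω => (U ω, V ω)) d.T → (∀ ω ∈ P.S, U ω * V ω = 1 ∧ ∀ a e,
    |U ω a e| ≤ Real.exp u ∧ |V ω a e| ≤ Real.exp u ∧ (U ω a e ≠ 0 → Up μ γ a e) ∧
      (V ω a e ≠ 0 → Up μ γ a e)) → One σ b (d.bas U V) P O μ γ R (C * u) (w - C * u)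

/-- The weights drop. -/
def RDrop : Prop := ∀ (ι κ α : Type) [Fintype ι] [DecidableEq ι] [Fintype κ] [DecidableEq κ]
  (σ : Sg ι κ α) (Hs : Finset ℝ) (W : ℝ) (μ μ' : κ → ℝ) (γ : κ → ℕ), σ.Ok Hs W →
  (∀ a, μ a ∈ Hs) → Dr Hs μ μ' → Wp (fun a => 0 < μ a) μ' (ng μ γ) (univ.sup γ + 1) W ∧
  ∃ C : ℝ, 1 ≤ C ∧ ∀ (Ω Λ Θ Ξ : Type) (b : Bd ι κ α Ω Θ Ξ) (d : Fd ι κ α Ω) (P : FP Ω)
    (O : Ω → Λ) (R u w w' : ℝ), 0 ≤ R → 1 ≤ u → 0 ≤ w' → w' + C * (u + R) ≤ w →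
    One σ b d P O μ γ R u w →
    (∀ ω ∈ P.S, ∀ a a' e, 0 < μ a → 0 < μ a' → μ' a = μ a → μ' a' = μ a' → μ' e < μ e →
      μ e = μ a + μ a' → |d.c σ ω a a' e| ≤ Real.exp (-w')) →
    (∀ ω ∈ P.S, ∀ i e, μ' e < μ e → μ e = σ.η i → |d.A ω i e| ≤ Real.exp (-w')) →
    Pre σ b d P O (fun a => 0 < μ a) μ' (ng μ γ) u w'

/-- The new label. -/
def RNet : Prop := ∀ (ι κ α : Type) [Fintype ι] [DecidableEq ι] [Fintype κ] [DecidableEq κ]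
  [Fintype α] (σ : Sg ι κ α) (Hs : Finset ℝ) (W : ℝ) (lv : κ → Prop) (μ : κ → ℝ) (γ : κ → ℕ)
  (G : ℕ), σ.Ok Hs W → Wp lv μ γ G W → ∃ C : ℝ, 1 ≤ C ∧ ∀ (Ω Λ Θ Ξ : Type)
    (b : Bd ι κ α Ω Θ Ξ) (d : Fd ι κ α Ω) (P : FP Ω) (O : Ω → Λ) (R u w : ℝ), 0 ≤ R → 1 ≤ u →
    C * (u + R) ≤ w → b.At σ P O R u w → Pre σ b d P O lv μ γ u w →
    ∃ d', One σ b d' P O μ γ R (C * u) (w - C * (u + R)) ∧ Kp d P lv μ d'

/-- Increments and close pairs in the adapted basis. -/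
def ROut : Prop := ∀ (ι κ α : Type) [Fintype ι] [DecidableEq ι] [Fintype κ] [DecidableEq κ]
  [Fintype α] (σ : Sg ι κ α) (Hs : Finset ℝ) (W : ℝ) (μ : κ → ℝ) (γ : κ → ℕ), σ.Ok Hs W →
  (∀ a, μ a ∈ Hs) → ∃ C : ℝ, 1 ≤ C ∧ ∀ (Ω Λ Θ Ξ : Type) (b : Bd ι κ α Ω Θ Ξ) (d : Fd ι κ α Ω)
    (P : FP Ω) (O O' : Ω → Λ) (R R' u w : ℝ), 0 ≤ R → 1 ≤ u → C * (u + R) ≤ w →
    One σ b d P O μ γ R u w → b.At σ P O' R' u w → Fn P O O' → ∀ ω ∈ P.S, ∀ v ∈ P.S,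
    (IsUnit (d.G σ b ω) ∧ d.G σ b ω = d.E ω * ex (d.B σ ω) (d.g ω)) ∧
    (d.T ω = d.T v → ∃ t, d.G σ b v = d.G σ b ω * ex (d.B σ ω) t ∧ ∀ a,
      (0 < μ a → |t a| ≤ Real.exp (C * u + μ a * R)) ∧
      (μ a = 0 → |t a| ≤ Real.exp (-(w - C * (u + R)))) ∧
      (b.S ω = b.S v → |t a| ≤ Real.exp (C * u))) ∧
    (O' ω = O' v → ∃ t, d.G σ b v = d.G σ b ω * ex (d.B σ ω) t ∧ ∀ a,
      |t a - ∑ i, b.y ω v i * d.A ω i a| ≤ Real.exp (-(w - C * u)))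

/-! ### Statements on sequences -/

/-- The first member. -/
def SStart : Prop := ∀ (ι κ α κ' : Type) [Fintype ι] [DecidableEq ι] [Fintype κ] [DecidableEq κ]
  [Fintype α] (Ω Λ Θ Ξ : ℕ → Type) (σ : Sg ι κ α) (b : ∀ n, Bd ι κ α (Ω n) (Θ n) (Ξ n))
  (Hs : Finset ℝ) (W : ℝ) (X : ∀ n, Pr κ' (Ω n) (Λ n)), σ.Ok Hs W → Big (sM X) → BF σ b X →
  ∃ γ d, FL σ b σ.m γ X d

/-- The weights are minimal. -/
def Mn {κ' : Type} {Ω Λ Θ Ξ : ℕ → Type} (σ : Sg ι κ α) (b : ∀ n, Bd ι κ α (Ω n) (Θ n) (Ξ n))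
    (K : (∀ n, Pr κ' (Ω n) (Λ n)) → Prop) (Hs : Finset ℝ) (μ : κ → ℝ) : Prop :=
  (∀ a, μ a ∈ Hs) ∧ ∀ μ' γ X d, (∀ a, μ' a ∈ Hs) → Mem σ b K μ' γ X d → ∑ a, μ a ≤ ∑ a, μ' a

/-- Members with minimal weights carry no deep cap. -/
def SAcw : Prop := ∀ (ι κ α κ' : Type) [Fintype ι] [DecidableEq ι] [Fintype κ] [DecidableEq κ]
  [Fintype α] (Ω Λ Θ Ξ : ℕ → Type) (σ : Sg ι κ α) (b : ∀ n, Bd ι κ α (Ω n) (Θ n) (Ξ n))
  (K : (∀ n, Pr κ' (Ω n) (Λ n)) → Prop) (Hs : Finset ℝ) (W : ℝ) (μ : κ → ℝ) (γ : κ → ℕ)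
  (X : ∀ n, Pr κ' (Ω n) (Λ n)) (d : ∀ n, Fd ι κ α (Ω n)), σ.Ok Hs W → Cz K → Mn σ b K Hs μ →
  Mem σ b K μ γ X d → ∃ L₀, 1 ≤ L₀ ∧ ACW σ b μ L₀ X d

/-- The live part of the algebra commutes with the matrices that commute with the letters. -/
def SCom : Prop := ∀ (ι κ α κ' J : Type) [Fintype ι] [DecidableEq ι] [Fintype κ] [DecidableEq κ]
  [Fintype α] [Fintype J] (Ω Λ Θ Ξ : ℕ → Type) (σ : Sg ι κ α)
  (b : ∀ n, Bd ι κ α (Ω n) (Θ n) (Ξ n)) (Hs : Finset ℝ) (W L₀ : ℝ) (μ : κ → ℝ) (γ : κ → ℕ)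
  (X : ∀ n, Pr κ' (Ω n) (Λ n)) (d : ∀ n, Fd ι κ α (Ω n)) (φ : ∀ n, Ω n → J → Mt ι),
  σ.Ok Hs W → (∀ a, μ a ∈ Hs) → Big (sM X) → FL σ b μ γ X d → 0 < L₀ → ACW σ b μ L₀ X d →
  Fb σ b φ X → ∀ T : ℝ, Whp (sP X) fun n ω => ∀ a j p q, 0 < μ a →
    |cm ((d n).B σ ω a) (((d n).E ω)⁻¹ * φ n ω j * (d n).E ω) p q| ≤ Real.exp (-(T * (X n).M))

/-- The form with sets of linear forms. -/
def SAcw' : Prop := ∀ (ι κ α κ' : Type) [Fintype ι] [DecidableEq ι] [Fintype κ] [DecidableEq κ]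
  (Ω Λ Θ Ξ : ℕ → Type) (σ : Sg ι κ α) (b : ∀ n, Bd ι κ α (Ω n) (Θ n) (Ξ n)) (L₀ : ℝ) (μ : κ → ℝ)
  (X : ∀ n, Pr κ' (Ω n) (Λ n)) (d : ∀ n, Fd ι κ α (Ω n)), (∀ a, 0 ≤ μ a) → Big (sM X) → 0 < L₀ →
  ACW σ b μ L₀ X d → ∃ L₁, 0 < L₁ ∧ ∀ (x : ℚ) (r C : ℝ) (β : ℕ → Type) (K : ∀ n, Ω n → β n)
    (Ps : ∀ n, Ω n → Set (κ → ℝ)) (L : ℕ → ℝ), -1 ≤ x → x < 0 → 0 < r → Sub (sM X) L →
    FnE (sP X) K (sO X x) → FnE (sP X) Ps K →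
    (∀ᶠ n in UF, ∀ ω ∈ (X n).P.S, (⟨μ, Cp.flr μ (Real.exp (C * (X n).M)), L n,
      hc μ ((d n).c σ ω), fun i => blk μ (σ.η i) ((d n).A ω i)⟩ : Cp.Da κ α).Good (Ps n ω)) →
    Whp (sP X) fun n ω => Real.log (Cp.vl μ (Ps n ω)) ≤ r * (X n).M ∨ min r (-x) / L₁ * (X n).M ≤
      -Real.log (dn (X n).P (K n) (fun v => ((b n).S v, (d n).T v)) ω)

def OfDrop : Prop := RIdl → RDrop

def OfNet : Prop := RIdl → RNet

def OfOut : Prop := RIdl → ROut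

def OfStart : Prop := RNet → SStart

def OfCom : Prop := RIdl → SCom

def OfAcw : Prop := RAx → RBas → RDrop → RNet → SAcw

end Pool.Agent.MP_5168f5_an.QA.Fl
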