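import Pool.Agent.MP_5168f5_an.QA.FrOne

/-! The Kakeya maximal estimate: centred frames. -/

namespace Pool.Agent.MP_5168f5_an.QA.Fr

open H19 H17S H17F R4 AN Filter Finset Real
open G39 (dl)
open C1 (Dg Hb)
open GA (Mt)
open N2 (Uni Bd)

variable {V : Type} [AddCommGroup V] [Module ℝ V] {m : ℕ}

/-- `a ≤ exp (o(M)) b`. -/
def Lq (M : ℕ → ℕ) (a b : ℕ → ℝ) : Prop := Sq M 0 fun n L => a n ≤ L * b n

variable {Ω Λ : ℕ → Type} {P : ∀ n, FP (Ω n)} {M : ℕ → ℕ} {B : V → ℝ} {ν : ℚ → ∀ n, Ω n → V → ℝ}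
  {T r : Fin m → ℕ → ℝ} {kk la : Fin m → ℝ} {Ga c s : ℝ} {ω : ∀ n, Ω n} {a b d a' b' : ℕ → ℝ}
  {f : ∀ n, Ω n → Fin m → V}

theorem Lq.trans (hM : Big M) (k : Lq M a b) (k' : Lq M b d) (p : ∀ᶠ n in UF, 0 ≤ d n) :
    Lq M a d := Sq.two0 hM 1 k k' (p.mono fun n p L L' L'' u _ i j l => by
  nlinarith [mul_le_mul_of_nonneg_left l u.le, mul_le_mul_of_nonneg_right i p])

theorem Lq.mul (k : Lq M a b) (p : ∀ n, 0 ≤ d n) : Lq M (fun n => a n * d n) fun n => b n * d n :=
  Sq.imp k (.of_forall fun n _ i => (mul_le_mul_of_nonneg_right i (p n)).trans_eq (mul_assoc _ _ _))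

theorem Lq.of (k : Lq M a b) (i : ∀ᶠ n in UF, a' n ≤ a n) (j : ∀ n, b n = b' n) : Lq M a' b' :=
  Sq.imp k (i.mono fun n i _ l => j n ▸ i.trans l)

theorem Lq.le (k : Lq M (fun n => exp (a n)) fun n => exp (b n)) : Le M a b := fun ε hε =>
  (k ε hε).mono fun n i => by
    have := exp_le_exp.1 (i.trans_eq (exp_add _ _).symm)
    linarith

theorem lq_le (k : Le M a b) : Lq M (fun n => exp (a n)) fun n => exp (b n) := sq_le (le0 k)

theorem lq_const (hM : Big M) (C : ℝ) (p : ∀ n, 0 ≤ b n) : Lq M (fun n => C * b n) b :=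
  (sq_const hM C).imp (.of_forall fun n _ i => mul_le_mul_of_nonneg_right i (p n))

theorem Su.lq {a b : ∀ n, Ω n → ℝ} (k : Su P M fun n ω Γ => a n ω ≤ Γ * b n ω)
    (i : ∀ᶠ n in UF, ω n ∈ (P n).S) (d : ∀ᶠ n in UF, 0 ≤ b n (ω n)) :
    Lq M (fun n => a n (ω n)) fun n => b n (ω n) :=
  k.sq i (d.mono fun _ d _ _ _ j k => k.trans (mul_le_mul_of_nonneg_right j d))

section DS

variable {μ : ℕ → V → ℝ} {e : ℕ → Fin m → V}

theorem DS.lq (k : DS M 0 μ e r) (p : Fin m) : Lq M (fun n => μ n (e n p)) fun n => exp (r p n) :=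
  k.2.imp (.of_forall fun _ _ i => i.1 p)

theorem DS.co (k : DS M 0 μ e r) {d : ℕ → Fin m → ℝ} {w : ℕ → V}
    (i : ∀ᶠ n in UF, w n = ∑ q, d n q • e n q) (p : Fin m) :
    Lq M (fun n => |d n p| * exp (r p n)) fun n => μ n (w n) :=
  k.2.imp (i.mono fun _ i _ j => (j.2 _ p).trans_eq (by rw [← i]))

theorem DS.perm (k : DS M c μ e r) (σ : Equiv.Perm (Fin m)) :
    DS M c μ (fun n => e n ∘ σ) fun p => r (σ p) :=
  ⟨k.1.mono fun _ i => ⟨i.1, sp_of (by rw [σ.surjective.range_comp]; exact i.2.top)⟩,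
    k.2.imp (.of_forall fun _ _ i => i.perm σ)⟩

theorem bs_row {o : Fin m} {d : ℕ → Fin m → ℝ} (a : Lq M (fun _ => 1) fun n => |d n o|)
    (b : ∀ q, Lq M (fun n => |d n q| * exp (r q n)) fun n => exp (r o n)) :
    BS M 0 r fun n => (1 : Mt (Fin m)).updateRow o (d n) := fun ε hε =>
  ((a.and (Sq.all b)) _ (half_pos hε)).mono fun n i => (b2_row (fun _ => exp_pos _)
    (one_le_exp (by positivity)) i.1 i.2).mono (fun _ => exp_pos _) (by
      rw [← exp_add]; exact exp_le_exp.2 (by linarith))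

theorem bs_uni (hM : Big M) {g : ℕ → Mt (Fin m)} (u : ∀ᶠ n in UF, Uni kk (g n)) (b : ∀ p q,
    kk q < kk p → Lq M (fun n => |g n p q|) fun n => exp (r p n - r q n)) : BS M 0 r g :=
  fun ε hε => by
  have p : 0 < ε / (1 + ((1 + 2) * m + 1) : ℕ) := by positivity
  filter_upwards [u, Sq.all (fun p => Sq.all fun q => Sq.all (b p q)) _ p, sq_const hM (m + 2) _ p]
    with n i j l
  refine (pw_b2 (a := 1) l (fun _ => exp_pos _) (fun p q => ?_) i).mono (fun _ => exp_pos _) ?_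
  · by_cases z : kk q < kk p
    · rw [pow_one, ← exp_sub]; exact j p q z
    · rw [i p q z, pow_one]
      exact (N2.bd_one (ρ := fun p => exp (r p n)) fun _ => exp_pos _).mono (fun _ => exp_pos _)
        (le_trans (by linarith [Nat.cast_nonneg (α := ℝ) m]) l) p q
  · rw [← exp_nat_mul, zero_add, zero_add, ← mul_assoc, mul_div_cancel₀ _ (by positivity)]

end DS

theorem FR.ds (F : FR P M B ν T la f) (h : NF P M B ν T kk la Ga) (a : ∀ᶠ n in UF, ω n ∈ (P n).S) :
    DS M 0 (fun _ => B) (fun n => f n (ω n)) T ∧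
      ∀ x : ℚ, DS M 0 (fun n => ν x n (ω n)) (fun n => f n (ω n)) (rx M la x) :=
  ⟨Su.ds (ν := fun _ _ => B) F.dB (.of_forall fun _ _ _ => h.hB) F.sp a,
    fun x => Su.ds (r := rx M la x) (F.dg x) (h.hν x) F.sp a⟩

theorem fr_of (H : ∀ ω : ∀ n, Ω n, (∀ᶠ n in UF, ω n ∈ (P n).S) →
    DS M 0 (fun _ => B) (fun n => f n (ω n)) T ∧
      ∀ x : ℚ, DS M 0 (fun n => ν x n (ω n)) (fun n => f n (ω n)) (rx M la x)) :
    FR P M B ν T la f := ⟨ev_of fun ω a => (H ω a).1.1.mono fun _ i => i.2,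
  su_of fun ω a => (H ω a).1.2, fun x => su_of fun ω a => ((H ω a).2 x).2⟩

theorem far_not (hM : Big M) (k : Far M a b) (i : Le M b a) : False :=
  i.false hM one_pos (k 1)

theorem NF.eq (h : NF P M B ν T kk la Ga) {p q : Fin m} (k : Eqv M (T p) (T q)) : kk p = kk q :=
  le_antisymm (not_lt.1 fun a => far_not h.big (h.far _ _ a) k.1)
    (not_lt.1 fun a => far_not h.big (h.far _ _ a) k.2)

/-- A vector that is normed by a functional replaces a member of the frame. -/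
theorem exch (h : NF P M B ν T kk la Ga) (F : FR P M B ν T la f) (φ : ∀ n, Ω n → V →ₗ[ℝ] ℝ)
    (w : ∀ n, Ω n → V) (γ : ℕ → ℝ) (h0 : ∀ n ω, φ n ω (w n ω) = exp (γ n))
    (H : ∀ ω : ∀ n, Ω n, (∀ᶠ n in UF, ω n ∈ (P n).S) → (∀ F : ℕ → V,
      Lq M (fun n => |φ n (ω n) (F n)|) (fun n => ν 0 n (ω n) (F n) * exp (γ n)) ∧
      Lq M (fun n => |φ n (ω n) (F n)|) fun n => B (F n)) ∧
      (∀ x : ℚ, Lq M (fun n => ν x n (ω n) (w n (ω n))) fun n => exp (-(s * x * M n))) ∧
      Lq M (fun n => B (w n (ω n))) fun n => exp (γ n)) :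
    ∃ τ f', la τ = s ∧ Eqv M (T τ) γ ∧ FR P M B ν T la f' ∧ ∀ᶠ n in UF, ∀ ω ∈ (P n).S,
      f' n ω τ = w n ω ∧ ∀ a, a ≠ τ → ∃ b, kk b = kk a ∧ f' n ω a = f n ω b := by
  have hM := h.big
  have ex : ∀ n ω, Sp (f n ω) → ∃ z : (Fin m → ℝ) × Fin m, w n ω = ∑ q, z.1 q • f n ω q ∧
      exp (γ n) ≤ m * (|φ n ω (f n ω z.2)| * |z.1 z.2|) := fun n ω i => by
    obtain ⟨d, j⟩ := i (w n ω)
    have e1 : exp (γ n) = ∑ q, φ n ω (f n ω q) * d q := by
      rw [← h0 n ω, j, map_sum]; simp [mul_comm]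
    obtain ⟨a, -, l⟩ := exists_max_image univ (fun q => |φ n ω (f n ω q) * d q|)
      (nonempty_of_sum_ne_zero (e1 ▸ (exp_pos _).ne'))
    exact ⟨(d, a), j, e1.le.trans ((sum_le_card_nsmul _ _ _ fun q _ =>
      (le_abs_self _).trans (l q (mem_univ q))).trans_eq (by simp [abs_mul]))⟩
  obtain ⟨ω₀, hω₀⟩ := exS P
  have : Nonempty ((Fin m → ℝ) × Fin m) := F.sp.exists.elim fun n i =>
    (ex n _ (i _ (hω₀ n))).elim fun z _ => ⟨z⟩
  obtain ⟨z, hz⟩ := ev_fun (P := P) (p := fun n ω (z : (Fin m → ℝ) × Fin m) =>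
    w n ω = ∑ q, z.1 q • f n ω q ∧ exp (γ n) ≤ m * (|φ n ω (f n ω z.2)| * |z.1 z.2|))
    fun ω a => C1.ev_ch ((F.sp.and a).mono fun n i => ex n _ (i.1 _ i.2))
  have e0 : ∀ n, 0 ≤ exp (γ n) := fun _ => (exp_pos _).le
  have key : ∀ ω : ∀ n, Ω n, (∀ᶠ n in UF, ω n ∈ (P n).S) → ∃ a, (∀ᶠ n in UF, (z n (ω n)).2 = a) ∧
      la a = s ∧ Eqv M (T a) γ ∧
      DS M 0 (fun _ => B) (fun n => Function.update (f n (ω n)) a (w n (ω n))) T ∧ ∀ x : ℚ,
      DS M 0 (fun n => ν x n (ω n)) (fun n => Function.update (f n (ω n)) a (w n (ω n)))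
        (rx M la x) := fun ω hω => by
    obtain ⟨a, ha⟩ := ev_ex (p := fun a n => (z n (ω n)).2 = a) (.of_forall fun _ => ⟨_, rfl⟩)
    obtain ⟨dB, dν⟩ := F.ds h hω
    obtain ⟨h1, h3, h4⟩ := H ω hω
    have z1 := (hz.and hω).mono fun n i => (i.1 _ i.2).1
    have z2 : Lq M (fun n => exp (γ n)) fun n => |φ n (ω n) (f n (ω n) a)| * |(z n (ω n)).1 a| :=
      (lq_const hM m fun _ => by positivity).of (((hz.and hω).and ha).mono fun n i =>
        i.2 ▸ (i.1.1 _ i.1.2).2) fun _ => rfl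
    have i1 := fun x q => ((dν x).co z1 q).trans hM (h3 x) (.of_forall fun _ => (exp_pos _).le)
    have i2 := fun q => (dB.co z1 q).trans hM h4 (.of_forall e0)
    have i3 := (h1 fun n => f n (ω n) a).1.trans hM (((dν 0).lq a).mul e0)
      (.of_forall fun _ => by positivity)
    have i4 := (h1 fun n => f n (ω n) a).2.trans hM (dB.lq a) (.of_forall fun _ => (exp_pos _).le)
    have i5 : Lq M (fun _ => 1) fun n => |(z n (ω n)).1 a| :=
      ((z2.trans hM (i3.mul fun _ => abs_nonneg _) (.of_forall fun _ => by positivity)).mul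
        (d := fun n => exp (-γ n)) fun _ => (exp_pos _).le).of
        (.of_forall fun n => by rw [← exp_add]; simp) fun n => by
          rw [mul_right_comm, mul_assoc (exp _), ← exp_add]; simp [rx]
    have i6 : ∀ x : ℚ, Le M (fun n => -(la a * x) * M n) fun n => -(s * x) * M n := fun x =>
      (Lq.le (((i5.mul fun n => (exp_pos (rx M la x a n)).le).trans hM (i1 x a)
        (.of_forall fun _ => (exp_pos _).le)).of (.of_forall fun _ => (one_mul _).ge)
          fun _ => rfl)).of_sub (.of_forall fun n => by unfold rx; linarith)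
    have i7 : la a = s := by
      have := (i6 1).num hM
      have := (i6 (-1)).num hM
      push_cast at *
      linarith
    have i8 : Lq M (fun n => exp (γ n)) fun n => exp (T a n) :=
      (z2.trans hM (i4.mul fun _ => abs_nonneg _) (.of_forall fun _ => by positivity)).trans hM
        (((i1 0 a).mul fun n => (exp_pos (T a n)).le).of (.of_forall fun n => by
          simp [rx, mul_comm]) fun n => by simp) (.of_forall fun _ => (exp_pos _).le)
    have up : ∀ᶠ n in UF, Function.update (f n (ω n)) a (w n (ω n)) =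
        act ((1 : Mt (Fin m)).updateRow a (z n (ω n)).1) (f n (ω n)) :=
      z1.mono fun n i => by rw [act_row, ← i]
    refine ⟨a, ha, i7, ⟨Lq.le (((i5.mul fun n => (exp_pos (T a n)).le).trans hM (i2 a)
      (.of_forall e0)).of (.of_forall fun _ => (one_mul _).ge) fun _ => rfl), i8.le⟩,
      (zero_add (0 : ℝ) ▸ dB.act hM (bs_row i5 fun q => (i2 q).trans hM i8
        (.of_forall fun _ => (exp_pos _).le))).congr (.of_forall fun _ => rfl) up,
      fun x => (zero_add (0 : ℝ) ▸ (dν x).act hM (bs_row i5 fun q => (i1 x q).of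
        (.of_forall fun _ => le_rfl) fun n => by rw [rx, i7])).congr (.of_forall fun _ => rfl) up⟩
  obtain ⟨τ, -, t1, t2, -⟩ := key ω₀ (.of_forall hω₀)
  have sw : ∀ a, Eqv M (T a) γ → ∀ p, kk (Equiv.swap a τ p) = kk p := fun a i p => by
    have := h.eq (i.trans t2.symm)
    rw [Equiv.swap_apply_def]
    split_ifs with u v
    exacts [u ▸ this.symm, v ▸ this, rfl]
  refine ⟨τ, fun n ω => Function.update (f n ω) (z n ω).2 (w n ω) ∘ Equiv.swap (z n ω).2 τ, t1, t2,
    fr_of fun ω hω => ?_, ev_of fun ω hω => ?_⟩ <;> obtain ⟨a, a1, -, a2, a3, a4⟩ := key ω hω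
  · have l := fun p => h.near _ _ (sw a a2 p)
    refine ⟨(zero_add (0 : ℝ) ▸ (a3.perm (Equiv.swap a τ)).len hM
      (fun p => (h.near _ _ (sw a a2 p).symm).2.of_sub (.of_forall fun _ => by linarith))
      fun p => (l p).2.of_sub (.of_forall fun _ => by linarith)).congr (.of_forall fun _ => rfl)
      (a1.mono fun _ i => by rw [i]), fun x => ?_⟩
    exact (zero_add (0 : ℝ) ▸ ((a4 x).perm (Equiv.swap a τ)).len hM
      (fun p => le0 (rx_eq (l p).1.symm x)) fun p => le0 (rx_eq (l p).1 x)).congr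
      (.of_forall fun _ => rfl) (a1.mono fun _ i => by rw [i])
  · refine a1.mono fun n i => ⟨by simp [i], fun b j => ⟨_, sw a a2 b, ?_⟩⟩
    beta_reduce
    rw [i, Function.comp, Function.update_of_ne fun k => j (by simpa using congrArg (Equiv.swap a τ) k)]

variable {O : ℚ → ∀ n, Ω n → Λ n} {one tt : V} {pt dr : ∀ n, Ω n → V →ₗ[ℝ] ℝ} {c : ℕ → ℝ}

theorem PT.lq (k : PT P M B ν O one tt pt dr c s) (h : NF P M B ν T kk la Ga)
    (a : ∀ᶠ n in UF, ω n ∈ (P n).S) (F : ℕ → V) :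
    (∀ x, Lq M (fun n => |pt n (ω n) (F n)|) fun n => ν x n (ω n) (F n)) ∧
      Lq M (fun n => |pt n (ω n) (F n)|) fun n => B (F n) :=
  ⟨fun x => ((k.val x).le (((h.hν x).and a).mono fun _ i => (i.1 _ i.2).nonneg) a).imp
    (.of_forall fun _ _ i => i _), k.vB.sq a (.of_forall fun _ _ _ _ i j =>
      (j _).1.trans (mul_le_mul_of_nonneg_right i (h.hB.nonneg _)))⟩

/-- Centred frames. -/
theorem cen (h : NF P M B ν T kk la Ga) (k : PT P M B ν O one tt pt dr c s) :
    ∃ o τ f, (∀ a, a ≠ o → kk o < kk a) ∧ la o = 0 ∧ la τ = s ∧ FR P M B ν T la f ∧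
      ∀ᶠ n in UF, ∀ ω ∈ (P n).S, f n ω o = one ∧ f n ω τ = c n • (tt - pt n ω tt • one) ∧
        ∀ p, pt n ω (f n ω p) = (1 : Mt (Fin m)) p o := by
  have hM := h.big
  have nn := fun (ω : ∀ n, Ω n) (a : ∀ᶠ n in UF, ω n ∈ (P n).S) x =>
    ((h.hν x).and a).mono fun _ i => i.1 _ i.2
  obtain ⟨f, F⟩ := sFr V m Ω P M B ν T kk la Ga h
  obtain ⟨o, f, lo, t0, F, e1⟩ := exch (s := 0) h F pt (fun _ _ => one) (fun _ => 0)
    (fun n ω => by rw [(k.nrm n ω).1, exp_zero]) fun ω a => ⟨fun F =>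
      ⟨((k.lq h a F).1 0).of (.of_forall fun _ => le_rfl) fun _ => by simp, (k.lq h a F).2⟩,
      fun x => (k.n1 x).sq a (.of_forall fun n _ _ _ i j => by simpa using j.trans i),
      (sq_const hM (B one)).imp (.of_forall fun _ _ i => by simpa using i)⟩
  have ko : ∀ a, a ≠ o → kk o < kk a := fun a i => by
    obtain ⟨ω, hω⟩ := exS P
    obtain ⟨dB, dν⟩ := F.ds h (.of_forall hω)
    obtain ⟨r, j⟩ := C1.ev_ch ((k.thin 1).mono fun n j => j _ (hω n) (f n (ω n) a))
    have l := (((dν 0).co (w := fun n => f n (ω n) a - r n • one)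
      (d := fun n => Pi.single a 1 - Pi.single o (r n)) (e1.mono fun n l => by
        simp [sub_smul, Pi.single_apply, (l _ (hω n)).1]) a).trans hM
        ((((dB.lq a).mul fun n => (exp_pos (-(1 * M n))).le)).of
          (j.mono fun n j => j.trans_eq (mul_comm _ _)) fun _ => (exp_add _ _).symm)
        (.of_forall fun _ => (exp_pos _).le)).of (a' := fun _ => exp 0)
        (.of_forall fun n => by simp [rx, i]) fun _ => rfl
    have z : ¬Le M (T a) (T o) := fun z => Le.false (c := 1) (g := fun n => -(1 * M n)) (l.le.of3 z t0.1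
      (.of_forall fun n => by linarith) : Le M (fun _ => 0) _) hM one_pos (.of_forall fun n => by linarith)
    exact lt_of_not_ge fun y => z (y.eq_or_lt.elim
      (fun y => (h.near _ _ y).2.of_sub (.of_forall fun _ => by linarith))
      fun y => ((h.far _ _ y).le 0).of_sub (.of_forall fun _ => by linarith))
  let u : ∀ n, Ω n → Mt (Fin m) := fun n ω => Matrix.of fun p q =>
    if p ≠ o ∧ q = o then -pt n ω (f n ω p) else (1 : Mt (Fin m)) p q
  have u1 : ∀ n ω, Uni kk (u n ω) := fun n ω p q i =>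
    if_neg fun j : p ≠ o ∧ q = o => i (j.2 ▸ ko p j.1)
  have u2 : ∀ (ω : ∀ n, Ω n) (r : Fin m → ℕ → ℝ), (∀ p, Lq M (fun n => |pt n (ω n) (f n (ω n) p)|)
      fun n => exp (r p n)) → Le M (r o) (fun _ => 0) → BS M 0 r fun n => u n (ω n) :=
    fun ω r i j => bs_uni hM (.of_forall fun n => u1 n _) fun p q l => by
      by_cases y : p ≠ o ∧ q = o
      · exact ((i p).trans hM (lq_le (j.of_sub (g := fun n => r p n - r q n) (.of_forall fun n => by
          rw [y.2]; linarith))) (.of_forall fun _ => (exp_pos _).le)).of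
          (.of_forall fun n => by simp [u, y]) fun _ => rfl
      · exact fun ε _ => .of_forall fun n => by
          simp only [u, Matrix.of_apply, if_neg y, Matrix.one_apply_ne fun z : p = q =>
            l.ne' (congrArg kk z), abs_zero]
          positivity
  have u3 : ∀ n ω p, act (u n ω) (f n ω) p =
      f n ω p - (if p = o then 0 else pt n ω (f n ω p)) • f n ω o := fun n ω p => by
    by_cases y : p = o
    · simp [act, u, y, Matrix.one_apply]
    · rw [act, ← add_sum_erase _ _ (mem_univ o), sum_eq_single_of_mem p (by simp [y])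
        fun q i j => by simp [u, ne_of_mem_erase i, Matrix.one_apply_ne' j]]
      simp [u, y, sub_eq_neg_add]
  have F' : FR P M B ν T la fun n ω => act (u n ω) (f n ω) := fr_of fun ω a => by
    obtain ⟨dB, dν⟩ := F.ds h a
    exact ⟨zero_add (0 : ℝ) ▸ dB.act hM (u2 ω T (fun p => (k.lq h a _).2.trans hM (dB.lq p)
      (.of_forall fun _ => (exp_pos _).le)) t0.1), fun x => zero_add (0 : ℝ) ▸ (dν x).act hM
      (u2 ω _ (fun p => ((k.lq h a _).1 x).trans hM ((dν x).lq p)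
        (.of_forall fun _ => (exp_pos _).le)) (Le.of_le fun n => by simp [rx, lo]))⟩
  have c0 := k.pos.2
  obtain ⟨τ, g, lτ, -, G, e2⟩ := exch (s := s) h F' dr (fun n ω => c n • (tt - pt n ω tt • one))
    (fun n => log (c n)) (fun n ω => by simp [k.nrm n ω, exp_log (c0 n)]) fun ω a => ⟨fun F =>
      ⟨k.der.sq a ((nn ω a 0).mono fun n z _ _ _ i j => (j _).trans (by
        beta_reduce
        rw [exp_log (c0 n), mul_assoc, mul_comm (c n)]
        exact mul_le_mul_of_nonneg_right i (mul_nonneg (z.nonneg _) (c0 n).le))),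
      k.vB.sq a (.of_forall fun n _ _ _ i j =>
        (j _).2.trans (mul_le_mul_of_nonneg_right i (h.hB.nonneg _)))⟩,
      fun x => (k.ht x).sq a ((nn ω a x).mono fun n z _ _ _ i j => by
        beta_reduce
        rw [z.smul, abs_of_pos (c0 n)]
        exact j.trans (mul_le_mul_of_nonneg_right i (exp_pos _).le)),
      Sq.two0 hM 1 (sq_const hM (B tt + B tt * B one)) ((sq_const hM 1).and
        (k.lq h a fun _ => tt).2) (.of_forall fun n L L' L'' _ _ i j l => by
        beta_reduce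
        rw [h.hB.smul, abs_of_pos (c0 n), exp_log (c0 n), mul_comm, sub_eq_add_neg, ← neg_smul]
        refine mul_le_mul_of_nonneg_right ((h.hB.add _ _).trans ?_) (c0 n).le
        rw [h.hB.smul, abs_neg]
        nlinarith [mul_le_mul_of_nonneg_right l.2 (h.hB.nonneg one), h.hB.nonneg tt,
          mul_le_mul_of_nonneg_right j (zero_le_one.trans l.1)])⟩
  have ne : o ≠ τ := fun z => k.pos.1.ne (by rw [← lτ, ← z, lo])
  refine ⟨o, τ, g, ko, lo, lτ, G, (e1.and e2).mono fun n i ω a => ?_⟩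
  have y : ∀ p, p ≠ τ → pt n ω (g n ω p) = (1 : Mt (Fin m)) p o ∧ (p = o → g n ω p = one) :=
    fun p j => by
    obtain ⟨b, b1, b2⟩ := (i.2 ω a).2 p j
    have b3 : b = o ↔ p = o := ⟨fun z => by_contra fun y => (ko p y).ne (z ▸ b1),
      fun z => by_contra fun y => (ko b y).ne' (z ▸ b1)⟩
    rw [b2, u3, (i.1 ω a).1]
    by_cases z : p = o
    · subst z; simp [b3.2 rfl, (i.1 ω a).1, k.nrm n ω]
    · simp [z, b3.not.2 z, k.nrm n ω]
  refine ⟨(y o ne).2 rfl, (i.2 ω a).1, fun p => ?_⟩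
  by_cases z : p = τ
  · simp [z, (i.2 ω a).1, k.nrm n ω, ne.symm]
  · exact (y p z).1

end Pool.Agent.MP_5168f5_an.QA.Fr
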