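import Pool.Agent.MP_5168f5_an.QA.FrZ
import Pool.Agent.MP_5168f5_an.AN.Cx

/-! The Kakeya maximal estimate: the model at a level that tends to minus infinity. -/

namespace Pool.Agent.MP_5168f5_an.QA.Fr

open H19 H17S H17F R4 AN Filter
open G39 (dl)
open C1 (Dg)
open GA (Mt)
open N2 (Uni Bd)

theorem cf_dl {S : ℕ → Type} (M : ℕ → ℕ) (p : ∀ n, S n → ℝ → Prop)
    (h : ∀ n z a b, a ≤ b → p n z a → p n z b) :
    CF fun Z : ∀ n, S n => ∀ K : ℝ, ∀ᶠ n in UF, p n (Z n) (dl M K n) :=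
  (cf_all fun K : ℕ => cf_ev fun n z => p n z (dl M K n)).congr fun _ => ⟨fun a K => a K,
    fun a K => (a ⌈K⌉₊).mono fun n => h n _ _ _ (Real.exp_le_exp.2 (neg_le_neg
      (mul_le_mul_of_nonneg_right (Nat.le_ceil K) (Nat.cast_nonneg _))))⟩

variable {V : Type} [AddCommGroup V] [Module ℝ V] {m : ℕ} {Ω Λ : ℕ → Type}

/-- The model is given by countably many eventual conditions. -/
theorem cf_mod (P : ∀ n, FP (Ω n)) (M : ℕ → ℕ) (B : V → ℝ) (ν : ℚ → ∀ n, Ω n → V → ℝ)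
    (T : Fin m → ℕ → ℝ) (kk la : Fin m → ℝ) (O : ℚ → ∀ n, Ω n → Λ n) (one tt : V)
    (pt : ∀ n, Ω n → V →ₗ[ℝ] ℝ) (c : ℕ → ℝ) (s : ℝ) (o τ : Fin m) (R : ℝ) {S : ℕ → Type}
    (X : ∀ n, S n → ℕ) (TT e : ∀ n, S n → Ω n → Fin m → V) (t₀ : ∀ n, S n → Ω n → ℝ)
    (j : ∀ n, S n → Ω n → Mt (Fin m)) : CF fun Z : ∀ n, S n =>
      Mod P M B ν T kk la O one tt pt c s o τ R (fun n => X n (Z n)) (fun n => TT n (Z n))
        (fun n => e n (Z n)) (fun n => t₀ n (Z n)) fun n => j n (Z n) :=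
  ((cf_const ((∀ a, a ≠ o → kk o < kk a) ∧ la o = 0 ∧ la τ = s)).and
    ((cf_ev fun n z => Fn (P n) (TT n z) (O (-X n z) n)).and
    ((cf_all fun x : ℚ => Cx.cf_imp (fun n z => |x| ≤ X n z) (cf_sub (fun n _ => M n) fun n z Γ =>
      ∀ ω ∈ (P n).S, ∃ U : Finset (Fin m → V), (U.card : ℝ) ≤ Γ ∧
        ∀ v ∈ (P n).S, ν x n v = ν x n ω → TT n z v ∈ U)).and
    ((cf_ev fun n z => Fn (P n) (fun ω => (e n z ω, t₀ n z ω)) (TT n z)).and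
    ((cf_ev fun n z => ∀ ω ∈ (P n).S, e n z ω o = one ∧
      e n z ω τ = c n • (tt - t₀ n z ω • one)).and
    ((cf_ev fun n z => ∀ ω ∈ (P n).S, Uni kk (j n z ω)).and
    ((cf_ev fun n z => ∀ ω ∈ (P n).S, ∀ q, q ≠ o → j n z ω τ q = (1 : Mt (Fin m)) τ q).and
    ((cf_sub (fun n _ => M n) fun n z Γ => ∀ ω ∈ (P n).S,
      B2 (fun a => Real.exp (R * X n z * kk a * M n)) Γ (j n z ω)).and
    ((cf_ev fun n z => ∀ ω ∈ (P n).S, Sp (act (j n z ω)⁻¹ (e n z ω))).and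
    ((cf_sub (fun n _ => M n) fun n z Γ => ∀ ω ∈ (P n).S,
      Dg B (act (j n z ω)⁻¹ (e n z ω)) (fun a => Real.exp (T a n)) Γ).and
    ((cf_all fun x : ℚ => cf_sub (fun n _ => M n) fun n z Γ => ∀ ω ∈ (P n).S,
      Dg (ν x n ω) (act (j n z ω)⁻¹ (e n z ω)) (fun a => dl M (la a * x) n) Γ).and
    ((cf_ev fun n z => ∀ ω ∈ (P n).S, ∀ v ∈ (P n).S, O (-X n z) n v = O (-X n z) n ω →
      Uni la ((j n z ω)⁻¹ * j n z v)).and
    ((cf_all fun x : ℚ => Cx.cf_imp (fun n z => -(X n z : ℚ) ≤ x)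
      (cf_ev fun n z => Fn (P n) (O (-X n z) n) (O x n))).and
    ((cf_all fun x : ℚ => Cx.cf_imp (fun n z => -(X n z : ℚ) ≤ x) (cf_sub (fun n _ => M n)
      fun n z Γ => ∀ ω ∈ (P n).S, ∀ v ∈ (P n).S, O x n v = O x n ω →
        Bd (fun a => dl M (la a * x) n) Γ ((j n z ω)⁻¹ * j n z v))).and
    ((cf_dl M (fun n z r => ∀ ω ∈ (P n).S, ∀ p,
      |pt n ω (act (j n z ω)⁻¹ (e n z ω) p) - (1 : Mt (Fin m)) p o| ≤ r)
      fun _ _ _ _ a b ω hω p => (b ω hω p).trans a).and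
    (cf_dl M (fun n z r => ∀ ω ∈ (P n).S, ∀ p, |pt n ω (e n z ω p) - j n z ω p o| ≤ r)
      fun _ _ _ _ a b ω hω p => (b ω hω p).trans a)))))))))))))))).congr fun _ =>
    ⟨fun h => ⟨⟨h.ko, h.lo, h.lτ⟩, h.ft, h.few, h.fe, h.eo, h.uj, h.row, h.bj, h.fr.sp, h.fr.dB,
      h.fr.dg, h.up, h.nb, h.inc, h.ev₀, h.ev⟩,
    fun ⟨h1, h2, h3, h4, h5, h6, h7, h8, h9, ha, hb, hc, hd, he, hf, hg⟩ =>
      ⟨h1.1, h1.2.1, h1.2.2, h2, h3, h4, h5, h6, h7, h8, ⟨h9, ha, hb⟩, hc, hd, he, hf, hg⟩⟩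

theorem sMod_of (h0 : SF0) (h1 : STT) : SMod := by
  intro V _ _ m Ω Λ P M B ν T kk la Ga O one tt pt dr c s nf p
  obtain ⟨o, τ, f, rfl, k⟩ := h0 V m Ω Λ P M B ν T kk la Ga O one tt pt dr c s nf p
  obtain ⟨R, hR⟩ := h1 V m Ω Λ P M B ν _ _ T kk la O one tt pt c o τ f k
  have a : ∀ X : ℕ, ∃ TT e t₀ j,
      Mod P M B ν T kk la O one tt pt c (la τ) o τ R (fun _ => X) TT e t₀ j := fun X => by
    obtain ⟨TT, e, t₀, j, -, u, -⟩ := hR X trivial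
    simp only [Rat.cast_zero, zero_mul, mul_zero, add_zero, Real.exp_zero, one_mul] at u
    exact ⟨TT, e, t₀, j, u⟩
  refine ⟨o, τ, R, a, ?_⟩
  choose TT e t₀ j u using a
  obtain ⟨X, b, d⟩ := cf_diag (fun _ => cf_mod P M B ν T kk la O one tt pt c (la τ) o τ R
    (S := fun _ => ℕ) (fun _ z => z) (fun n z => TT z n) (fun n z => e z n) (fun n z => t₀ z n)
    fun n z => j z n) (fun k _ => k) fun k _ _ => u k
  exact ⟨X, _, _, _, _, b, d 0⟩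

end Pool.Agent.MP_5168f5_an.QA.Fr
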