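import Pool.Agent.MP_5168f5_an.QA.FrZero
import Pool.Agent.MP_5168f5_an.AN.GANet

/-! The Kakeya maximal estimate: a net of frames, and rescaling. -/

namespace Pool.Agent.MP_5168f5_an.QA.Fr

open H19 H17S H17F R4 AN Filter Finset Real
open C1 (Dg Hb)
open GA (Mt netc gaNet)
open N2 (Uni Bd)

variable {V : Type} [AddCommGroup V] [Module ℝ V] {m : ℕ}

/-- Two close frames. -/
def Rl (f f' : Fin m → V) : Prop := ∃ g, B2 (fun _ => 1) 2 g ∧ f' = act g f

theorem net_rl : (∀ x : Fin m → V, Rl (netc Rl x) x) ∧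
    ∀ x y : Fin m → V, Rl (netc Rl x) (netc Rl y) → netc Rl x = netc Rl y :=
  gaNet _ _ (fun x => ⟨1, (b2_one fun _ => one_pos).mono (fun _ => one_pos) one_le_two,
    (act_one x).symm⟩) fun _ _ ⟨g, a, b⟩ => ⟨g⁻¹, a.inv, by rw [b, act_inv a.1]⟩

/-- The number of points of the net near a frame. -/
theorem cnt (f : Fin m → V) {L : ℝ} (hL : 1 ≤ L) : ∃ U : Finset (Fin m → V),
    (U.card : ℝ) ≤ ((4 * (m + 1) ^ 2 + 2) * L ^ 2) ^ (m * m) ∧
    ∀ x g, B2 (fun _ => 1) L g → netc Rl x = act g f → netc Rl x ∈ U := by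
  classical
  have m0 : (0 : ℝ) ≤ m := Nat.cast_nonneg _
  obtain ⟨N, hN⟩ : ∃ N : ℝ, N = 2 * (m + 1) ^ 2 * L := ⟨_, rfl⟩
  have N0 : 0 < N := by rw [hN]; positivity
  let p : (Fin m → Fin m → ℤ) → (Fin m → V) → Prop := fun z y => ∃ x g, y = netc Rl x ∧
    B2 (fun _ => 1) L g ∧ y = act g f ∧ ∀ i j, ⌊g i j * N⌋ = z i j
  refine ⟨(Fintype.piFinset fun _ => Fintype.piFinset fun _ => Icc ⌊-(L * N)⌋ ⌊L * N⌋).image
    fun z => Classical.epsilon (p z), ?_, fun x g a b => mem_image.2 ⟨fun i j => ⌊g i j * N⌋, ?_, ?_⟩⟩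
  · refine (Nat.cast_le.2 card_image_le).trans ?_
    simp only [Fintype.card_piFinset, prod_const, card_univ, Fintype.card_fin, ← pow_mul]
    rw [Nat.cast_pow]
    refine pow_le_pow_left₀ (Nat.cast_nonneg _) ?_ _
    have h1 := Int.card_Icc_of_le _ _ ((Int.floor_le_floor
      (neg_le_self (by positivity : 0 ≤ L * N))).trans (Int.lt_succ _).le)
    have h2 : ((Icc ⌊-(L * N)⌋ ⌊L * N⌋).card : ℝ) = ⌊L * N⌋ + 1 - ⌊-(L * N)⌋ := by exact_mod_cast h1
    have := Int.floor_le (L * N)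
    have := Int.lt_floor_add_one (-(L * N))
    have : L * N = 2 * (m + 1) ^ 2 * L ^ 2 := by rw [hN]; ring
    nlinarith [one_le_pow₀ hL (n := 2)]
  · refine Fintype.mem_piFinset.2 fun i => Fintype.mem_piFinset.2 fun j => ?_
    have := abs_le.1 (a.2.1 i j)
    exact mem_Icc.2 ⟨Int.floor_le_floor (by nlinarith), Int.floor_le_floor (by nlinarith)⟩
  · obtain ⟨x', g', e1, a', e2, k⟩ := Classical.epsilon_spec (p := p fun i j => ⌊g i j * N⌋)
      ⟨_, x, g, rfl, a, b, fun _ _ => rfl⟩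
    have d : Bd (fun _ => 1) (1 / N) (g' - g) := fun i j => by
      have := (Int.abs_sub_lt_one_of_floor_eq_floor (k i j)).le
      rw [← sub_mul, abs_mul, abs_of_pos N0, ← le_div_iff₀ N0] at this
      simpa using this
    have n := near (d.mul a'.2.2 fun _ => one_pos) (fun _ => one_pos) (by positivity) (by
      rw [mul_one_div, div_mul_eq_mul_div, ← mul_div_assoc, div_le_one N0, hN]
      nlinarith)
    rw [sub_mul, Matrix.mul_nonsing_inv _ a'.1, sub_sub_cancel] at n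
    rw [e1]
    exact net_rl.2 _ _ ⟨_, n, by rw [← e1, e2, act_div a'.1, b]⟩

variable {la kk : Fin m → ℝ} {g : Mt (Fin m)}

theorem nz_neg (y : ℝ) (f : Fin m → V) : nz la (-y) (nz la y f) = f := funext fun a => by
  simp [nz, smul_smul, ← exp_add]

theorem sc_mul (y : ℝ) (g h : Mt (Fin m)) : sc la y (g * h) = sc la y g * sc la y h := by
  ext p q
  simp only [sc, Matrix.of_apply, Matrix.mul_apply, mul_sum]
  refine sum_congr rfl fun r _ => ?_
  rw [mul_mul_mul_comm, ← exp_add]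
  congr 2
  ring

theorem sc_id (y : ℝ) {p q : Fin m} (k : g p q = (1 : Mt (Fin m)) p q) :
    sc la y g p q = (1 : Mt (Fin m)) p q := by
  rw [sc, Matrix.of_apply, k]
  by_cases a : p = q <;> simp [a]

theorem uni_sc (y : ℝ) (k : Uni kk g) : Uni kk (sc la y g) := fun p q a => sc_id y (k p q a)

variable {M : ℕ → ℕ} {c : ℝ} {r r' : Fin m → ℕ → ℝ} {y : ℕ → ℝ}

theorem BS.sc {g : ℕ → Mt (Fin m)} (k : BS M c r g) (a : ∀ p n, r' p n = r p n + la p * y n) :
    BS M c r' fun n => sc la (y n) (g n) := Sq.imp k (.of_forall fun n L i => by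
  have u : Fr.sc la (y n) (g n) * Fr.sc la (y n) (g n)⁻¹ = 1 := by
    rw [← sc_mul, Matrix.mul_nonsing_inv _ i.1]
    exact Matrix.ext fun _ _ => sc_id _ rfl
  have v : ∀ w : Mt (Fin m), Bd (fun p => exp (r p n)) L w →
      Bd (fun p => exp (r' p n)) L (Fr.sc la (y n) w) := fun w j p q => by
    rw [Fr.sc, Matrix.of_apply, abs_mul, abs_exp]
    refine (mul_le_mul_of_nonneg_left (j p q) (exp_pos _).le).trans_eq ?_
    beta_reduce
    rw [a, a, ← exp_sub, ← exp_sub, mul_left_comm, ← exp_add]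
    congr 2
    ring
  exact ⟨Matrix.isUnit_det_of_right_inverse u, v _ i.2.1,
    Matrix.inv_eq_right_inv u ▸ v _ i.2.2⟩)

theorem DS.nz {μ : ℕ → V → ℝ} {e : ℕ → Fin m → V} (k : DS M c μ e r)
    (a : ∀ p n, r' p n = r p n + la p * y n) : DS M c μ (fun n => nz la (y n) (e n)) r' :=
  ⟨k.1.mono fun n i => ⟨i.1, fun F => (i.2 F).elim fun d j => ⟨fun p => d p * exp (-(la p * y n)),
    by simp [Fr.nz, j, smul_smul, mul_assoc, ← exp_add]⟩⟩, k.2.imp (k.1.mono fun n i L j => by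
    simp only [a, exp_add, mul_comm (exp (r _ n))]
    exact j.scale i.1 fun p => exp_pos (la p * y n))⟩

theorem bs0 {g : ℕ → Mt (Fin m)} :
    BS M c (fun _ _ => 0) g ↔ Sq M c fun n L => B2 (fun _ => 1) L (g n) := by simp [BS]

theorem pt_act (φ : V →ₗ[ℝ] ℝ) (u : Mt (Fin m)) (f : Fin m → V) (o p : Fin m) : φ (act u f p) -
    u p o = (u * Matrix.of fun q _ : Fin m => φ (f q) - (1 : Mt (Fin m)) q o) p o := by
  simp [act, Matrix.mul_apply, mul_sub, Matrix.one_apply]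

end Pool.Agent.MP_5168f5_an.QA.Fr
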