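import Pool.Agent.MP_5168f5_an.QA.FrZ
import Pool.Agent.MP_5168f5_an.AN.N2Mod
import Pool.Agent.MP_5168f5_an.AN.C1P

/-! The Kakeya maximal estimate: frames, a calculus for sequences. -/

namespace Pool.Agent.MP_5168f5_an.QA.Fr

open H19 H17S H17F R4 AN Filter Finset Real
open G39 (dl)
open C1 (Dg Hb)
open GA (Mt)
open N2 (Uni Bd low blk un blk_mul)

variable {V : Type} [AddCommGroup V] [Module ℝ V] {m : ℕ}

/-- The property holds with the constant `exp ((c + o(1)) M)`. -/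
def Sq (M : ℕ → ℕ) (c : ℝ) (q : ℕ → ℝ → Prop) : Prop :=
  ∀ ε : ℝ, 0 < ε → ∀ᶠ n in UF, q n (exp ((c + ε) * M n))

/-- Bounded entries. -/
def B1 (M : ℕ → ℕ) (c : ℝ) (g : ℕ → Mt (Fin m)) : Prop := Sq M c fun n L => ∀ p q, |g n p q| ≤ L

/-- Graded bounds. -/
def BS (M : ℕ → ℕ) (c : ℝ) (r : Fin m → ℕ → ℝ) (g : ℕ → Mt (Fin m)) : Prop :=
  Sq M c fun n L => B2 (fun p => exp (r p n)) L (g n)

/-- Diagonal families. -/
def DS (M : ℕ → ℕ) (c : ℝ) (ν : ℕ → V → ℝ) (f : ℕ → Fin m → V) (r : Fin m → ℕ → ℝ) : Prop :=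
  (∀ᶠ n in UF, Hb (ν n) ∧ Sp (f n)) ∧ Sq M c fun n L => Dg (ν n) (f n) (fun p => exp (r p n)) L

/-- Block diagonal matrices. -/
def Bl (la : Fin m → ℝ) (d : Mt (Fin m)) : Prop := ∀ p q, la p ≠ la q → d p q = 0

variable {M : ℕ → ℕ} {c c' : ℝ} {q q' q'' : ℕ → ℝ → Prop} {r r' r'' : Fin m → ℕ → ℝ}
  {g h : ℕ → Mt (Fin m)} {ν ν' : ℕ → V → ℝ} {e f : ℕ → Fin m → V} {la la' : Fin m → ℝ}

theorem ex_mono (a : c ≤ c') (n : ℕ) : exp (c * M n) ≤ exp (c' * M n) :=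
  exp_le_exp.2 (mul_le_mul_of_nonneg_right a (Nat.cast_nonneg _))

theorem Sq.one (k : Sq M c q) (a : c ≤ c')
    (H : ∀ᶠ n in UF, ∀ L L', 0 < L → L ≤ L' → q n L → q' n L') : Sq M c' q' := fun ε hε =>
  ((k ε hε).and H).mono fun n b => b.2 _ _ (exp_pos _) (ex_mono (by linarith) n) b.1

theorem Sq.two (hM : Big M) (C : ℝ) (k : Sq M c q) (k' : Sq M c' q') (H : ∀ᶠ n in UF, ∀ L L' L'',
    0 < L → 0 < L' → C * L * L' ≤ L'' → q n L → q' n L' → q'' n L'') : Sq M (c + c') q'' :=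
  fun ε hε => by
  have p : 0 < ε / 3 := by positivity
  filter_upwards [k _ p, k' _ p, H, (hM.sub (le_max_right C 1)).2 _ p] with n a b d i
  refine d _ _ _ (exp_pos _) (exp_pos _) ((mul_le_mul_of_nonneg_right (mul_le_mul_of_nonneg_right
    ((le_max_left _ _).trans i) (exp_pos _).le) (exp_pos _).le).trans_eq ?_) a b
  rw [← exp_add, ← exp_add]
  congr 1
  ring

theorem Sq.two0 (hM : Big M) (C : ℝ) (k : Sq M 0 q) (k' : Sq M c q') (H : ∀ᶠ n in UF, ∀ L L' L'',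
    0 < L → 0 < L' → C * L * L' ≤ L'' → q n L → q' n L' → q'' n L'') : Sq M c q'' :=
  zero_add c ▸ k.two hM C k' H

theorem sq_const (hM : Big M) (C : ℝ) : Sq M 0 fun _ L => C ≤ L := fun ε hε =>
  ((hM.sub (le_max_right C 1)).2 _ hε).mono fun n a => by
    rw [zero_add]; exact (le_max_left _ _).trans a

theorem sq_le {a b : ℕ → ℝ} (k : Le M a fun n => b n + c * M n) :
    Sq M c fun n L => exp (a n) ≤ L * exp (b n) := fun ε hε => (k ε hε).mono fun n i =>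
  (exp_le_exp.2 (by linarith)).trans_eq (exp_add _ _)

theorem Sq.all {J : Sort*} [Finite J] {q : J → ℕ → ℝ → Prop} (k : ∀ j, Sq M c (q j)) :
    Sq M c fun n L => ∀ j, q j n L := fun ε hε => eventually_all.2 fun j => k j ε hε

theorem Sq.and (k : Sq M c q) (k' : Sq M c q') : Sq M c fun n L => q n L ∧ q' n L :=
  fun ε hε => (k ε hε).and (k' ε hε)

theorem Sq.imp (k : Sq M c q) (H : ∀ᶠ n in UF, ∀ L, q n L → q' n L) : Sq M c q' :=
  fun ε hε => ((k ε hε).and H).mono fun _ a => a.2 _ a.1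

theorem Sq.sh (k : Sq M 0 fun n L => q n (L * exp (c * M n))) : Sq M c q := fun ε hε =>
  (k ε hε).mono fun n a => by
    rwa [show exp ((c + ε) * M n) = exp ((0 + ε) * M n) * exp (c * M n) by
      rw [← exp_add]; congr 1; ring]

theorem Far.le {a b : ℕ → ℝ} (k : Far M a b) (c : ℝ) : Le M a fun n => b n + c * M n :=
  Le.of_ev ((k (-c)).mono fun _ i => by linarith)

/-! ### From laws to sequences and back -/

section Su

variable {Ω : ℕ → Type} {P : ∀ n, FP (Ω n)} {s : ∀ n, Ω n → ℝ → Prop} {ω : ∀ n, Ω n}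

theorem Su.sq (k : Su P M s) (a : ∀ᶠ n in UF, ω n ∈ (P n).S)
    (H : ∀ᶠ n in UF, ∀ L L', 0 < L → L ≤ L' → s n (ω n) L → q n L') : Sq M 0 q := fun ε hε => by
  obtain ⟨Γ, b, d⟩ := k
  filter_upwards [a, H, b.2 ε hε, d] with n a H i d
  exact H _ _ (b.pos n) (by rwa [zero_add]) (d _ a)

theorem exS (P : ∀ n, FP (Ω n)) : ∃ ω : ∀ n, Ω n, ∀ n, ω n ∈ (P n).S :=
  Classical.skolem.1 fun n =>
    (ex_of_pb (P := P n) (E := fun _ => True) (by rw [pb_true]; exact one_pos)).imp fun _ h => h.1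

theorem ev_of {p : ∀ n, Ω n → Prop}
    (H : ∀ ω : ∀ n, Ω n, (∀ᶠ n in UF, ω n ∈ (P n).S) → ∀ᶠ n in UF, p n (ω n)) :
    ∀ᶠ n in UF, ∀ ω ∈ (P n).S, p n ω :=
  have := fun n => N2.ne (P n)
  unif H

theorem ev_of2 {R p : ∀ n, Ω n → Ω n → Prop} (H : ∀ ω v : ∀ n, Ω n, (∀ᶠ n in UF, ω n ∈ (P n).S) →
    (∀ᶠ n in UF, v n ∈ (P n).S) → (∀ᶠ n in UF, R n (ω n) (v n)) → ∀ᶠ n in UF, p n (ω n) (v n)) :
    ∀ᶠ n in UF, ∀ ω ∈ (P n).S, ∀ v ∈ (P n).S, R n ω v → p n ω v :=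
  have := fun n => N2.ne (P n)
  ev_of fun ω a => (unif (h := fun n v => v ∈ (P n).S ∧ R n (ω n) v) fun v b =>
    H ω v a (b.mono fun _ d => d.1) (b.mono fun _ d => d.2)).mono fun _ d v i j => d v ⟨i, j⟩

theorem su_eps (H : ∀ ε : ℝ, 0 < ε → ∀ᶠ n in UF, ∀ ω ∈ (P n).S, s n ω (exp ((0 + ε) * M n))) :
    Su P M s := (sub_iff (p := fun n L => ∀ ω ∈ (P n).S, s n ω L)).2 fun ε hε =>
  (H ε hε).mono fun n a => ⟨_, one_le_exp (by positivity), by rw [zero_add], a⟩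

theorem su_of (H : ∀ ω : ∀ n, Ω n, (∀ᶠ n in UF, ω n ∈ (P n).S) → Sq M 0 fun n => s n (ω n)) :
    Su P M s := su_eps fun ε hε => ev_of fun ω a => H ω a ε hε

theorem su_of2 {R : ∀ n, Ω n → Ω n → Prop} {s : ∀ n, Ω n → Ω n → ℝ → Prop}
    (H : ∀ ω v : ∀ n, Ω n, (∀ᶠ n in UF, ω n ∈ (P n).S) → (∀ᶠ n in UF, v n ∈ (P n).S) →
      (∀ᶠ n in UF, R n (ω n) (v n)) → Sq M 0 fun n => s n (ω n) (v n)) :
    Su P M fun n ω Γ => ∀ v ∈ (P n).S, R n ω v → s n ω v Γ :=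
  su_eps fun ε hε => ev_of2 fun ω v a b d => H ω v a b d ε hε

theorem su_diag {J : Type} [Countable J] (s : J → ℕ → ∀ n, Ω n → ℝ → Prop)
    (H : ∀ j, ∀ ε : ℝ, 0 < ε → ∀ᶠ i in atTop, ∀ ω : ∀ n, Ω n, (∀ᶠ n in UF, ω n ∈ (P n).S) →
      Sq M ε fun n => s j i n (ω n)) : ∃ i : ℕ → ℕ, ∀ j, Su P M fun n => s j (i n) n := by
  obtain ⟨i, a, b⟩ := C1.slow (fun (j : J × ℕ) i n => ∀ ω ∈ (P n).S,
    s j.1 i n ω (exp ((1 / (j.2 + 1 : ℝ) + 1 / (j.2 + 1 : ℝ)) * M n))) fun j =>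
    (H j.1 _ (by positivity)).mono fun i k => ev_of fun ω a => k ω a _ (by positivity)
  refine ⟨i, fun j => (sub_iff (p := fun n L => ∀ ω ∈ (P n).S, s j (i n) n ω L)).2 fun ε hε => ?_⟩
  obtain ⟨k, d⟩ := exists_nat_one_div_lt (half_pos hε)
  exact (b i a (.of_forall fun _ => le_rfl) (j, k)).mono fun n l =>
    ⟨_, one_le_exp (by positivity), ex_mono (by linarith) n, l⟩

theorem Su.ds {ν : ∀ n, Ω n → V → ℝ} {f : ∀ n, Ω n → Fin m → V}
    (k : Su P M fun n ω Γ => Dg (ν n ω) (f n ω) (fun p => exp (r p n)) Γ)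
    (b : ∀ᶠ n in UF, ∀ ω ∈ (P n).S, Hb (ν n ω)) (d : ∀ᶠ n in UF, ∀ ω ∈ (P n).S, Sp (f n ω))
    (a : ∀ᶠ n in UF, ω n ∈ (P n).S) : DS M 0 (fun n => ν n (ω n)) (fun n => f n (ω n)) r :=
  ⟨(a.and (b.and d)).mono fun _ i => ⟨i.2.1 _ i.1, i.2.2 _ i.1⟩, k.sq a ((a.and b).mono
    fun _ i _ _ _ j k => k.mono (i.2 _ i.1).nonneg (fun _ => (exp_pos _).le) j)⟩

omit [AddCommGroup V] [Module ℝ V] in
theorem Su.le {a b : ∀ n, Ω n → V → ℝ} (k : Su P M fun n ω Γ => ∀ F, a n ω F ≤ Γ * b n ω F)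
    (d : ∀ᶠ n in UF, ∀ F, 0 ≤ b n (ω n) F) (i : ∀ᶠ n in UF, ω n ∈ (P n).S) :
    Sq M 0 fun n L => ∀ F, a n (ω n) F ≤ L * b n (ω n) F :=
  k.sq i (d.mono fun _ d _ _ _ j k F => (k F).trans (mul_le_mul_of_nonneg_right j (d F)))

end Su

/-! ### Matrices -/

theorem B1.up (k : B1 M c g) (a : c ≤ c') : B1 M c' g :=
  Sq.one k a (.of_forall fun _ _ _ _ i j p q => (j p q).trans i)

theorem B1.mul (hM : Big M) (k : B1 M c g) (k' : B1 M c' h) : B1 M (c + c') fun n => g n * h n :=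
  Sq.two hM m k k' (.of_forall fun n L L' _ _ _ i a b p q => le_trans (by
    simpa using N2.Bd.mul (ρ := fun _ => 1) (c := L) (c' := L') (fun p q => by simpa using a p q)
      (fun p q => by simpa using b p q) (fun _ => one_pos) p q) i)

theorem B1.add (hM : Big M) (k : B1 M c g) (k' : B1 M c h) : B1 M c fun n => g n + h n :=
  zero_add c ▸ Sq.two hM 1 (sq_const hM 2) (k.and k') (.of_forall fun n L L' _ _ _ i a b p q =>
    (abs_add_le _ _).trans (by nlinarith [b.1 p q, b.2 p q]))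

theorem B1.neg (k : B1 M c g) : B1 M c fun n => -g n :=
  Sq.imp k (.of_forall fun _ _ a p q => (abs_neg _).trans_le (a p q))

theorem B1.dl (k : ∀ c, B1 M c g) (K : ℝ) : ∀ᶠ n in UF, ∀ p q, |g n p q| ≤ dl M K n :=
  (k (-K - 1) 1 one_pos).mono fun n a p q => (a p q).trans_eq (by unfold G39.dl; congr 1; ring)

theorem b1_dl (k : ∀ K, ∀ᶠ n in UF, ∀ p q, |g n p q| ≤ dl M K n) (c : ℝ) : B1 M c g :=
  fun ε _ => (k (-(c + ε))).mono fun n a p q => (a p q).trans_eq (by unfold G39.dl; congr 1; ring)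

theorem BS.det (k : BS M c r g) : ∀ᶠ n in UF, IsUnit (g n).det := (k 1 one_pos).mono fun _ a => a.1

theorem BS.up (k : BS M c r g) (a : c ≤ c') : BS M c' r g :=
  Sq.one k a (.of_forall fun _ _ _ _ i j => j.mono (fun _ => exp_pos _) i)

theorem BS.congr (k : BS M c r g) (a : ∀ᶠ n in UF, h n = g n) : BS M c r h :=
  Sq.imp k (a.mono fun _ i _ j => i ▸ j)

theorem BS.inv (k : BS M c r g) : BS M c r fun n => (g n)⁻¹ :=
  Sq.imp k (.of_forall fun _ _ j => j.inv)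

theorem BS.mul (hM : Big M) (k : BS M c r g) (k' : BS M c' r h) :
    BS M (c + c') r fun n => g n * h n := Sq.two hM m k k' (.of_forall fun _ _ _ _ _ _ i a b =>
  (a.mul b fun _ => exp_pos _).mono (fun _ => exp_pos _) i)

theorem BS.mul0 (hM : Big M) (k : BS M 0 r g) (k' : BS M c r h) : BS M c r fun n => g n * h n :=
  zero_add c ▸ k.mul hM k'

theorem BS.ent (k : BS M c r g) {p q : Fin m} (a : Le M (r p) fun n => r q n + c' * M n) :
    Sq M (c + c') fun n L => |g n p q| ≤ L := fun ε hε => by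
  filter_upwards [k _ (half_pos hε), a _ (half_pos hε)] with n b d
  refine (b.2.1 p q).trans ?_
  rw [← exp_sub, ← exp_add]
  exact exp_le_exp.2 (by linarith)

/-- Bounds for the entries give graded bounds. -/
theorem bs_of (d : ∀ᶠ n in UF, IsUnit (g n).det)
    (k : ∀ p q, Sq M c fun n L => |g n p q| ≤ L * exp (r p n - r q n))
    (k' : ∀ p q, Sq M c fun n L => |(g n)⁻¹ p q| ≤ L * exp (r p n - r q n)) : BS M c r g :=
  Sq.imp ((Sq.all fun p => Sq.all (k p)).and (Sq.all fun p => Sq.all (k' p))) (d.mono fun _ a _ b =>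
    ⟨a, fun p q => exp_sub _ _ ▸ b.1 p q, fun p q => exp_sub _ _ ▸ b.2 p q⟩)

theorem BS.at (k : BS M c r g) {p q : Fin m}
    (a : Le M (fun n => r p n - r q n) fun n => r' p n - r' q n + c' * M n) :
    Sq M (c + c') fun n L => |g n p q| ≤ L * exp (r' p n - r' q n) := fun ε hε => by
  filter_upwards [k _ (half_pos hε), a _ (half_pos hε)] with n b d
  refine (b.2.1 p q).trans ?_
  rw [← exp_sub, ← exp_add, ← exp_add]
  exact exp_le_exp.2 (by linarith)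

theorem BS.len (k : BS M c r g)
    (a : ∀ p q, Le M (fun n => r p n - r q n) fun n => r' p n - r' q n + c' * M n) :
    BS M (c + c') r' g := bs_of k.det (fun p q => k.at (a p q)) fun p q => k.inv.at (a p q)

theorem le0 {a b : ℕ → ℝ} (k : Le M a b) : Le M a fun n => b n + 0 * M n := by simpa using k

theorem BS.inf (k : BS M c r g) (k' : BS M c r' g) (a : ∀ p q,
    Le M (fun n => r p n - r q n) (fun n => r'' p n - r'' q n) ∨
      Le M (fun n => r' p n - r' q n) fun n => r'' p n - r'' q n) : BS M c r'' g :=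
  add_zero c ▸ bs_of k.det (fun p q => (a p q).elim (fun b => k.at (le0 b)) fun b => k'.at (le0 b))
    fun p q => (a p q).elim (fun b => k.inv.at (le0 b)) fun b => k'.inv.at (le0 b)

theorem bs_one (hc : 0 ≤ c) : BS M c r fun _ => 1 := fun ε hε => .of_forall fun n =>
  (b2_one fun _ => exp_pos _).mono (fun _ => exp_pos _) (one_le_exp (by positivity))

/-- Matrices with a pattern. -/
theorem BS.pat (k : BS M c r g) (hc : 0 ≤ c + c') {R : Fin m → Fin m → Prop} (d : ∀ᶠ n in UF, ∀ p q,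
    ¬R p q → g n p q = (1 : Mt (Fin m)) p q ∧ (g n)⁻¹ p q = (1 : Mt (Fin m)) p q)
    (a : ∀ p q, R p q → Le M (fun n => r p n - r q n) fun n => r' p n - r' q n + c' * M n) :
    BS M (c + c') r' g := by
  have i := fun p q => add_zero (c + c') ▸
    (bs_one (M := M) (r := r') hc).at (p := p) (q := q) (le0 Le.rfl)
  refine bs_of k.det (fun p q => ?_) fun p q => ?_ <;> by_cases b : R p q
  exacts [k.at (a p q b), (i p q).imp (d.mono fun n j L l => (j p q b).1 ▸ l),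
    k.inv.at (a p q b), (i p q).imp (d.mono fun n j L l => (j p q b).2 ▸ l)]

theorem BS.uni (k : BS M c r g) (d : ∀ᶠ n in UF, Uni la (g n)) (a : ∀ p q, la q < la p →
    Le M (fun n => r p n - r q n) fun n => r' p n - r' q n + -c * M n) : BS M 0 r' g :=
  add_neg_cancel c ▸ k.pat (add_neg_cancel c).ge (d.mono fun _ i p q b => ⟨i p q b, i.inv p q b⟩) a

theorem BS.bl (k : BS M 0 r g) (d : ∀ᶠ n in UF, Bl la (g n) ∧ Bl la (g n)⁻¹)
    (a : ∀ p q, la p = la q → Le M (fun n => r p n - r q n) fun n => r' p n - r' q n) :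
    BS M 0 r' g := add_zero (0 : ℝ) ▸ k.pat (add_zero _).ge (d.mono fun _ i p q b =>
  have j := Matrix.one_apply_ne (α := ℝ) fun z : p = q => b (congrArg la z)
  ⟨(i.1 p q b).trans j.symm, (i.2 p q b).trans j.symm⟩) fun p q b => le0 (a p q b)

theorem BS.b1 (k : BS M c r g) (a : ∀ p q, Le M (r p) fun n => r q n + c' * M n) :
    B1 M (c + c') g := Sq.all fun p => Sq.all fun q => k.ent (a p q)

theorem BS.b0 (k : BS M c (fun _ _ => 0) g) : B1 M c g :=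
  add_zero c ▸ k.b1 fun _ _ => le0 Le.rfl

/-- A negligible perturbation of the identity. -/
theorem bs_near (hM : Big M) (k : ∀ c, B1 M c g)
    (a : ∀ p q, Le M (r q) fun n => r p n + c * M n) : BS M 0 r fun n => 1 - g n := fun ε hε => by
  filter_upwards [k (-c - 3) 1 one_pos, eventually_all.2 fun p => eventually_all.2 fun q =>
    a p q 1 one_pos, sq_const hM 2 ε hε, sq_const hM (2 * (m + 1)) 1 one_pos] with n b d i j
  refine (near (c := exp (-M n)) (fun p q => (b p q).trans ?_) (fun _ => exp_pos _) (exp_pos _).le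
    ?_).mono (fun _ => exp_pos _) i
  · rw [← exp_sub, ← exp_add]
    exact exp_le_exp.2 (by linarith [d p q])
  · rw [exp_neg, ← div_eq_mul_inv, div_le_one (exp_pos _)]
    simpa using j

theorem bl_blk (la : Fin m → ℝ) (g : Mt (Fin m)) : Bl la (blk la g) := fun _ _ a => if_neg a

theorem uni_conj {d k : Mt (Fin m)} (u : IsUnit d.det) (a : Bl la d) (b : Bl la d⁻¹)
    (i : ∀ p q, la p = la q → la' p = la' q) (j : Uni la' k) : Uni la' (d * k * d⁻¹) := by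
  intro p q z
  rw [← Matrix.mul_nonsing_inv _ u, Matrix.mul_apply, Matrix.mul_apply]
  refine sum_congr rfl fun s _ => ?_
  by_cases y : la s = la q
  · rw [Matrix.mul_apply, ← Matrix.mul_one d, Matrix.mul_apply, Matrix.mul_one]
    congr 1
    refine sum_congr rfl fun t _ => ?_
    by_cases x : la p = la t
    · rw [j t s (by rwa [← i p t x, i s q y])]
    · rw [a p t x, zero_mul, zero_mul]
  · rw [b s q y, mul_zero, mul_zero]

/-- The unipotent part. -/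
theorem un_sq (hM : Big M) (a : BS M c (fun _ _ => 0) g) (hc : 0 ≤ c) (b : BS M 0 r g)
    (hr : ∀ p q, la p = la q → Le M (r p) (r q))
    (d : ∀ p q, la p < la q → ∀ c, Sq M c fun n L => |g n p q| ≤ L) : ∃ η : ℕ → Mt (Fin m),
    (∀ c, B1 M c η) ∧ BS M 0 (fun _ _ => 0) (fun n => blk la (low la (g n))⁻¹) ∧ ∀ᶠ n in UF,
      IsUnit (low la (g n)).det ∧ Bl la (blk la (low la (g n))⁻¹)⁻¹ ∧
      un la (g n) * (g n)⁻¹ = blk la (low la (g n))⁻¹ * (1 - η n) := by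
  have e0 : ∀ c, B1 M c fun n => g n - low la (g n) := fun c => Sq.all fun p => Sq.all fun q => by
    by_cases k : la p < la q
    · simpa [low, k] using d p q k c
    · exact fun ε _ => .of_forall fun n => by simp [low, k, (exp_pos _).le]
  have e1 : ∀ c, B1 M c fun n => (g n - low la (g n)) * (g n)⁻¹ := fun c' =>
    sub_add_cancel c' c ▸ (e0 _).mul hM a.inv.b0
  have e2 : ∀ p q, Sq M 0 fun n L => la p = la q → |g n p q| ≤ L ∧ |(g n)⁻¹ p q| ≤ L :=
    fun p q ε hε => eventually_imp_distrib_left.2 fun k =>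
      (add_zero (0 : ℝ) ▸ (b.ent (le0 (hr p q k))).and (b.inv.ent (le0 (hr p q k)))) ε hε
  have e3 : Sq M (0 + 0) fun n L => IsUnit (low la (g n)).det ∧
      B2 (fun _ => exp 0) L (un la (g n) * (g n)⁻¹) := by
    refine Sq.two hM 1 (sq_const hM (4 * m + 1)) ((sq_const hM 1).and
      (Sq.all fun p => Sq.all (e2 p))) ?_
    filter_upwards [a.det, a.inv.b0 1 one_pos, e0 (-2 * c - 4) 1 one_pos,
      sq_const hM (2 * (m + 1) ^ 3) 1 one_pos] with n u v w y L L' L'' _ _ i j k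
    have A1 : 1 ≤ exp ((c + 1) * M n) := one_le_exp (by positivity)
    refine (b2_un u k.1 A1 (exp_pos _).le v k.2 (fun p q z => by simpa [low, z] using w p q)
      (fun _ => exp_pos _) (fun _ _ _ => rfl) (fun _ _ => by simpa using A1) ?_).imp_right
      fun z => z.mono (fun _ => exp_pos _) (by nlinarith)
    refine (mul_le_mul_of_nonneg_right (mul_le_mul_of_nonneg_right y (sq_nonneg _))
      (exp_pos _).le).trans_eq ?_
    rw [pow_two, ← exp_add, ← exp_add, ← exp_add, exp_eq_one_iff]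
    ring
  have e4 : ∀ᶠ n in UF, IsUnit (low la (g n)).det ∧ Bl la (blk la (low la (g n))⁻¹)⁻¹ ∧
      un la (g n) * (g n)⁻¹ = blk la (low la (g n))⁻¹ * (1 - (g n - low la (g n)) * (g n)⁻¹) := by
    filter_upwards [e3 1 one_pos, a.det] with n u v
    refine ⟨u.1, by rw [Matrix.inv_eq_right_inv (blk_mul u.1)]; exact bl_blk _ _, ?_⟩
    rw [sub_mul, Matrix.mul_nonsing_inv _ v, sub_sub_cancel, N2.un, if_pos u.1, Matrix.mul_assoc]
  have e5 := bs_near (r := fun _ _ => 0) hM e1 fun _ _ => le0 Le.rfl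
  refine ⟨_, e1, (BS.mul0 hM (add_zero (0 : ℝ) ▸ e3.imp (.of_forall fun _ _ k => k.2))
    e5.inv).congr ?_, e4⟩
  filter_upwards [e4, e5.det] with n u v
  rw [u.2.2, Matrix.mul_nonsing_inv_cancel_right _ _ v]

theorem un_bs (hM : Big M) (a : BS M c (fun _ _ => 0) g) (hc : 0 ≤ c) (b : BS M 0 r g)
    (hr : ∀ p q, la p = la q → Le M (r p) (r q))
    (d : ∀ p q, la p < la q → ∀ c, Sq M c fun n L => |g n p q| ≤ L)
    (i : ∀ p q, Le M (r' q) fun n => r' p n + c' * M n)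
    (j : ∀ p q, la p = la q → Le M (r' q) (r' p)) :
    BS M 0 r' fun n => un la (g n) * (g n)⁻¹ := by
  obtain ⟨η, a1, a2, a3⟩ := un_sq hM a hc b hr d
  exact (BS.mul0 hM (a2.bl (a3.mono fun n k => ⟨bl_blk _ _, k.2.1⟩) fun p q k =>
    (j p q k).of_sub (.of_forall fun n => by linarith)) (bs_near hM a1 i)).congr
    (a3.mono fun _ k => k.2.2)

/-! ### Families -/

theorem DS.up (k : DS M c ν f r) (a : c ≤ c') : DS M c' ν f r := ⟨k.1, k.2.one a
  (k.1.mono fun _ b _ _ _ i j => j.mono b.1.nonneg (fun _ => (exp_pos _).le) i)⟩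

theorem ds_of (k : ∀ᶠ n in UF, Hb (ν n) ∧ Sp (f n) ∧
    Dg (ν n) (f n) (fun p => exp (r p n)) (exp (c * M n))) : DS M c ν f r :=
  ⟨k.mono fun _ a => ⟨a.1, a.2.1⟩, fun ε hε => k.mono fun n a =>
    a.2.2.mono a.1.nonneg (fun _ => (exp_pos _).le) (ex_mono (by linarith) n)⟩

theorem DS.congr (k : DS M c ν f r) (a : ∀ᶠ n in UF, ν' n = ν n) (b : ∀ᶠ n in UF, e n = f n) :
    DS M c ν' e r := ⟨(k.1.and (a.and b)).mono fun _ i => i.2.1 ▸ i.2.2 ▸ i.1,
  k.2.imp ((a.and b).mono fun _ i _ j => i.1 ▸ i.2 ▸ j)⟩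

theorem DS.act (hM : Big M) (k : DS M c ν f r) (b : BS M c' r g) :
    DS M (c' + c) ν (fun n => act (g n) (f n)) r :=
  ⟨(k.1.and b.det).mono fun _ a => ⟨a.1.1, a.1.2.act a.2⟩, Sq.two hM m b k.2 (k.1.mono
    fun _ a _ _ _ u v i j l => (dg_b2 l a.1 v.le u.le (fun _ => exp_pos _) j).mono a.1.nonneg
      (fun _ => (exp_pos _).le) i)⟩

theorem DS.tr (k : DS M c ν e r) (a : ∀ᶠ n in UF, Sp (f n)) :
    ∀ᶠ n in UF, IsUnit (tr (f n) (e n)).det ∧ f n = Fr.act (tr (f n) (e n)) (e n) := by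
  filter_upwards [k.1, k.2 1 one_pos, a] with n u v w
  obtain ⟨g, a, b⟩ := rel v u.1 (fun _ => exp_pos _) u.2 w
  rw [act_inj v u.1 (fun _ => exp_pos _) ((tr_spec b).symm.trans b)]
  exact ⟨a, b⟩

theorem DS.inj (k : DS M c ν e r) : ∀ᶠ n in UF, ∀ u v, Fr.act u (e n) = Fr.act v (e n) → u = v :=
  (k.1.and (k.2 1 one_pos)).mono fun _ a _ _ => act_inj a.2 a.1.1 fun _ => exp_pos _

theorem DS.bs (hM : Big M) (k : DS M c ν e r) (k' : DS M c' ν f r) :
    BS M (c + c') r fun n => Fr.tr (f n) (e n) :=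
  Sq.two hM 1 k.2 k'.2 ((k.tr (k'.1.mono fun _ a => a.2)).mono fun _ a _ _ _ u v i j l =>
    (b2_dg j (a.2 ▸ l) u.le v.le (fun _ => exp_pos _) a.1).mono (fun _ => exp_pos _) (by linarith))

theorem DS.len (hM : Big M) (k : DS M c ν f r) (a : ∀ p, Le M (r' p) fun n => r p n + c' * M n)
    (b : ∀ p, Le M (r p) fun n => r' p n + c' * M n) : DS M (c' + c) ν f r' :=
  ⟨k.1, Sq.two hM 1 (Sq.all fun p => (sq_le (a p)).and (sq_le (b p))) k.2 (k.1.mono
    fun _ a _ _ _ u v i j l => (dg_chg l v.le zero_le_one u.le (fun _ => by simp) j).mono a.1.nonneg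
      (fun _ => (exp_pos _).le) i)⟩

theorem DS.nrm (hM : Big M) (k : DS M c ν f r) (d : ∀ᶠ n in UF, Hb (ν' n))
    (a : Sq M c' fun n L => ∀ F, ν' n F ≤ L * ν n F ∧ ν n F ≤ L * ν' n F) : DS M (c' + c) ν' f r :=
  ⟨(k.1.and d).mono fun _ a => ⟨a.2, a.1.2⟩, Sq.two hM 1 a k.2 (d.mono
    fun _ a _ _ _ u v i j l => (dg_chg l v.le u.le zero_le_one j fun _ => by simp).mono a.nonneg
      (fun _ => (exp_pos _).le) (by linarith))⟩

end Pool.Agent.MP_5168f5_an.QA.Fr
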