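import Pool.Agent.MP_5168f5_an.QA.FrCen

/-! The Kakeya maximal estimate: frames with exact increments exist. -/

namespace Pool.Agent.MP_5168f5_an.QA.Fr

open H19 H17S H17F R4 AN Filter Finset Real
open G39 (dl)
open C1 (Dg Hb)
open GA (Mt)
open N2 (Uni Bd low blk uni_un rep rep_spec rep_congr)

variable {V : Type} [AddCommGroup V] [Module ℝ V] {m : ℕ}

/-- The row `o` is trivial and the row `τ` meets only the column `o`. -/
def Rw (o τ : Fin m) (g : Mt (Fin m)) : Prop :=
  (∀ q, g o q = (1 : Mt (Fin m)) o q) ∧ ∀ q, q ≠ o → g τ q = (1 : Mt (Fin m)) τ q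

section Rw

variable {o τ : Fin m} {g h : Mt (Fin m)} {la : Fin m → ℝ} {e f : Fin m → V}

theorem Rw.mo (k : Rw o τ g) (h : Mt (Fin m)) (q : Fin m) : (g * h) o q = h o q := by
  simp [Matrix.mul_apply, k.1, Matrix.one_apply]

theorem Rw.mt (k : Rw o τ g) (ne : τ ≠ o) (h : Mt (Fin m)) (q : Fin m) :
    (g * h) τ q = h τ q + g τ o * h o q := by
  rw [Matrix.mul_apply, ← add_sum_erase _ _ (mem_univ o), add_comm, sum_eq_single_of_mem τ
    (by simp [ne]) fun r i j => by simp [k.2 r (ne_of_mem_erase i), Matrix.one_apply_ne' j],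
    k.2 τ ne]
  simp

theorem Rw.mul (k : Rw o τ g) (k' : Rw o τ h) (ne : τ ≠ o) : Rw o τ (g * h) :=
  ⟨fun q => (k.mo h q).trans (k'.1 q), fun q a => by
    rw [k.mt ne, k'.2 q a, k'.1 q, Matrix.one_apply_ne' a, mul_zero, add_zero]⟩

theorem Rw.inv (k : Rw o τ g) (ne : τ ≠ o) (u : IsUnit g.det) : Rw o τ g⁻¹ := by
  have a := fun q => (k.mo g⁻¹ q).symm.trans (by rw [Matrix.mul_nonsing_inv _ u])
  refine ⟨a, fun q b => ?_⟩
  rw [← Matrix.mul_nonsing_inv _ u, k.mt ne, a q, Matrix.one_apply_ne' b, mul_zero, add_zero]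

theorem rw_of (li : LinearIndependent ℝ f) (a : act g f o = f o) {c : ℝ}
    (b : act g f τ = f τ + c • f o) : Rw o τ g :=
  ⟨li.eq_coords_of_eq (a.trans (congrFun (act_one f) o).symm), fun q i => (li.eq_coords_of_eq
    (g := fun q => (1 : Mt (Fin m)) τ q + c * (1 : Mt (Fin m)) o q) (b.trans (by
      simp [add_smul, sum_add_distrib, Matrix.one_apply])) q).trans
        (by simp [Matrix.one_apply_ne' i])⟩

theorem Rw.un (k : Rw o τ g) (lt : la o < la τ) (u : IsUnit (low la g).det) :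
    (Rw o τ (blk la (low la g)⁻¹) ∧ blk la (low la g)⁻¹ τ o = 0) ∧
      ∀ q, N2.un la g o q = g o q ∧ N2.un la g τ q = g τ q := by
  have ne : τ ≠ o := fun z => lt.ne' (congrArg la z)
  have a : ∀ q, low la g o q = g o q ∧ low la g τ q = g τ q := fun q => by
    constructor <;> refine ite_eq_right_iff.2 fun z => .symm ?_
    · rw [k.1, Matrix.one_apply_ne fun y => z.ne (congrArg la y)]
    · rw [k.2 q fun y => lt.not_gt (y ▸ z), Matrix.one_apply_ne fun y => z.ne (congrArg la y)]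
  have b := Rw.inv ⟨fun q => (a q).1.trans (k.1 q), fun q i => (a q).2.trans (k.2 q i)⟩ ne u
  have c : ∀ p q, (low la g)⁻¹ p q = (1 : Mt (Fin m)) p q →
      blk la (low la g)⁻¹ p q = (1 : Mt (Fin m)) p q := fun p q i => by
    rw [← i]
    exact ite_eq_left_iff.2 fun z => by rw [i, Matrix.one_apply_ne fun y => z (congrArg la y)]
  have d : Rw o τ (blk la (low la g)⁻¹) := ⟨fun q => c _ _ (b.1 q), fun q i => c _ _ (b.2 q i)⟩
  have z : blk la (low la g)⁻¹ τ o = 0 := if_neg lt.ne'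
  refine ⟨⟨d, z⟩, fun q => ?_⟩
  rw [N2.un, if_pos u, d.mo, d.mt ne, z, zero_mul, add_zero]
  exact a q

theorem act_congr {p : Fin m} (a : ∀ q, g p q = h p q) (f : Fin m → V) : act g f p = act h f p := by
  simp only [act, a]

theorem uni_un' {kk : Fin m → ℝ} (k : Uni kk g) : Uni kk (N2.un la g) :=
  pat_un (R := fun p q => ¬kk q < kk p) k (fun _ _ => Uni.mul) fun _ _ => Uni.inv

end Rw

variable {Ω Λ : ℕ → Type} {P : ∀ n, FP (Ω n)} {M : ℕ → ℕ} {B : V → ℝ} {ν : ℚ → ∀ n, Ω n → V → ℝ}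
  {T : Fin m → ℕ → ℝ} {kk la : Fin m → ℝ} {Ga s : ℝ} {O : ℚ → ∀ n, Ω n → Λ n} {one tt : V}
  {pt dr : ∀ n, Ω n → V →ₗ[ℝ] ℝ} {c : ℕ → ℝ} {o τ : Fin m} {f : ∀ n, Ω n → Fin m → V}

theorem DS.li {μ : ℕ → V → ℝ} {e : ℕ → Fin m → V} {c : ℝ} (k : DS M c μ e T) :
    ∀ᶠ n in UF, LinearIndependent ℝ (e n) :=
  (k.1.and (k.2 1 one_pos)).mono fun _ a => a.2.li a.1.1 fun _ => exp_pos _

theorem ex_low {a : ℝ} (ha : 0 < a) (c : ℝ) (y : ℚ) : ∃ x : ℚ, x ≤ y ∧ x ≤ 0 ∧ a * x ≤ c := by
  obtain ⟨x, i⟩ := exists_rat_lt (min (min (y : ℝ) 0) (c / a))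
  simp only [lt_min_iff] at i
  exact ⟨x, by exact_mod_cast i.1.1.le, by exact_mod_cast i.1.2.le, (le_div_iff₀' ha).1 i.2.le⟩

theorem Lq.sq {a b : ℕ → ℝ} {c : ℝ} (k : Lq M a fun n => exp (b n)) (i : ∀ n, b n ≤ c * M n) :
    Sq M c fun n L => a n ≤ L := fun ε hε => (k ε hε).mono fun n j =>
  j.trans ((exp_add _ _).symm.trans_le (exp_le_exp.2 (by linarith [i n])))

/-- The points with the same label. -/
theorem rep_ev (A : ∀ n, Ω n → Λ n) {ω : ∀ n, Ω n} (a : ∀ᶠ n in UF, ω n ∈ (P n).S) :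
    (∀ᶠ n in UF, rep (P n) (A n) (fun _ => True) (ω n) ∈ (P n).S) ∧
      ∀ᶠ n in UF, A n (rep (P n) (A n) (fun _ => True) (ω n)) = A n (ω n) :=
  ⟨a.mono fun _ i => (rep_spec i trivial).1, a.mono fun _ i => (rep_spec i trivial).2.2⟩

theorem fn_ev {α β : ℕ → Type} {F : ∀ n, Ω n → α n} {G : ∀ n, Ω n → β n} (k : FnE P F G)
    {ω v : ∀ n, Ω n} (a : ∀ᶠ n in UF, ω n ∈ (P n).S) (b : ∀ᶠ n in UF, v n ∈ (P n).S)
    (i : ∀ᶠ n in UF, G n (v n) = G n (ω n)) : ∀ᶠ n in UF, F n (v n) = F n (ω n) := by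
  filter_upwards [k, a, b, i] with n k a b i using k _ b _ a i

/-- The gauge is fixed by a representative of the atom of level `y`. -/
theorem gauge (h : NF P M B ν T kk la Ga) (k : PT P M B ν O one tt pt dr c s)
    (ko : ∀ a, a ≠ o → kk o < kk a) (lo : la o = 0) (lτ : la τ = s) (F : FR P M B ν T la f)
    (e0 : ∀ᶠ n in UF, ∀ ω ∈ (P n).S, f n ω o = one ∧ f n ω τ = c n • (tt - pt n ω tt • one) ∧
      ∀ p, pt n ω (f n ω p) = (1 : Mt (Fin m)) p o) (y : ℚ) :
    ∃ e, F0 P M B ν (y ≤ ·) (fun x n => x * M n) T kk la O one tt pt c o τ e := by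
  have hM := h.big
  let r : ∀ n, Ω n → Ω n := fun n => rep (P n) (O y n) fun _ => True
  let w : ∀ n, Ω n → Mt (Fin m) := fun n ω => N2.un la (N2.un kk (tr (f n ω) (f n (r n ω))))
  have lt : la o < la τ := by rw [lo, lτ]; exact k.pos.1
  have ne : τ ≠ o := fun z => lt.ne' (congrArg la z)
  have key : ∀ ω : ∀ n, Ω n, (∀ᶠ n in UF, ω n ∈ (P n).S) →
      DS M 0 (fun _ => B) (fun n => act (w n (ω n)) (f n (r n (ω n)))) T ∧
      (∀ x : ℚ, DS M 0 (fun n => ν x n (ω n)) (fun n => act (w n (ω n)) (f n (r n (ω n))))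
        (rx M la x)) ∧ (∀ᶠ n in UF, act (w n (ω n)) (f n (r n (ω n))) o = f n (ω n) o ∧
        act (w n (ω n)) (f n (r n (ω n))) τ = f n (ω n) τ) ∧ ∀ p, la p = 0 → ∀ K, ∀ᶠ n in UF,
        |pt n (ω n) (act (w n (ω n)) (f n (r n (ω n))) p) - (1 : Mt (Fin m)) p o| ≤ dl M K n :=
    fun ω a => by
    obtain ⟨r1, r2⟩ := rep_ev (O y) a
    obtain ⟨dB, dν⟩ := F.ds h a
    obtain ⟨eB, eν⟩ := F.ds h r1
    have fν := fun x (i : x ≤ y) => (eν x).congr ((fn_ev (k.fn x) a r1
      (fn_ev (k.nest x y i) a r1 r2)).mono fun _ => .symm) (.of_forall fun _ => rfl)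
    have t := eB.tr (dB.1.mono fun _ i => i.2)
    have b0 := zero_add (0 : ℝ) ▸ eB.bs hM dB
    have b1 := fun x i => zero_add (0 : ℝ) ▸ (fν x i).bs hM (dν x)
    have b2 := un_rx hM h.near h.far b0 (b1 y le_rfl) le_rfl
    have b3 := fun x i => ((b2 _).mul0 hM (b1 x i)).congr (t.mono fun n j =>
      (Matrix.nonsing_inv_mul_cancel_right _ _ j.1).symm)
    have d3 := fun p q (i : la p < la q) (c : ℝ) => (ex_low (sub_pos.2 i) c y).elim fun x j =>
      zero_add c ▸ (b3 x j.1).ent (p := p) (q := q) (c' := c) (Le.of_le fun n => by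
        unfold rx; nlinarith [Nat.cast_nonneg (α := ℝ) (M n), j.2.2])
    have p3 : (0 : ℝ) ≤ 0 + 2 * wd la * |(y : ℝ)| := by have := wd_nn la; positivity
    have b4 := fun x => un_bs hM (b3 y le_rfl).zero p3 (b3 y le_rfl) (fun p q i => rx_eq i _) d3
      (fun p q => rx_sp la x q p) fun p q i => rx_eq i.symm x
    have b5 : BS M 0 (rx M la y) fun n => w n (ω n) := ((b4 _).mul0 hM (b3 y le_rfl)).congr
      (.of_forall fun n => (Matrix.nonsing_inv_mul_cancel_right _ _ uni_un.det).symm)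
    obtain ⟨_, -, -, u1⟩ := un_sq hM (b1 y le_rfl).zero p3 b0
      (fun p q i => (h.near p q i).2.of_sub (.of_forall fun n => by linarith))
      fun p q i c => zero_add c ▸ b0.ent ((h.far p q i).le c)
    obtain ⟨_, -, -, u2⟩ := un_sq hM (b3 y le_rfl).zero p3 (b3 y le_rfl) (fun p q i => rx_eq i _) d3
    refine ⟨zero_add (0 : ℝ) ▸ eB.act hM (b5.far h.far (.of_forall fun _ => uni_un' uni_un)),
      fun x => (zero_add (0 : ℝ) ▸ (dν x).act hM ((b4 x).mul0 hM (b2 x))).congr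
        (.of_forall fun _ => rfl) (t.mono fun n i => by
          rw [← Matrix.mul_assoc, Matrix.nonsing_inv_mul_cancel_right _ _ uni_un.det,
            ← act_div i.1 (w n (ω n)), ← i.2]), ?_, fun p z K => ?_⟩
    · filter_upwards [t, eB.li, u1, u2, e0, a, r1] with n i j l l' z a r1
      have g1 := rw_of (τ := τ) j (by rw [← i.2, (z _ a).1, (z _ r1).1])
        (c := c n * (pt n (r n (ω n)) tt - pt n (ω n) tt)) (by
          rw [← i.2, (z _ a).2.1, (z _ r1).2.1, (z _ r1).1]; module)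
      have g2 := (g1.un (ko τ ne) l.1).2
      have g3 := (Rw.un ⟨fun q => (g2 q).1.trans (g1.1 q), fun q b => (g2 q).2.trans (g1.2 q b)⟩
        lt l'.1).2
      exact ⟨(act_congr (fun q => (g3 q).1.trans (g2 q).1) _).trans (congrFun i.2 o).symm,
        (act_congr (fun q => (g3 q).2.trans (g2 q).2) _).trans (congrFun i.2 τ).symm⟩
    · have y1 : ∀ c, B1 M c fun n => Matrix.of fun q _ : Fin m => if la q ≤ 0 then
          pt n (ω n) (f n (r n (ω n)) q) - pt n (r n (ω n)) (f n (r n (ω n)) q) else 0 :=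
        fun c => Sq.all fun q => Sq.all fun _ => by
          by_cases i : la q ≤ 0
          · obtain ⟨x, x1, x2, x3⟩ := ex_low k.pos.1 (c + s * y) y
            have l : Lq M (fun n => |pt n (ω n) (f n (r n (ω n)) q) -
                pt n (r n (ω n)) (f n (r n (ω n)) q)|) fun n =>
                ν x n (ω n) (f n (r n (ω n)) q) * exp (-(s * (y - x) * M n)) :=
              (k.mov x y x1).sq a (((fν x x1).1.and (r1.and r2)).mono fun n j L L' _ l b =>
                (b _ j.2.1 j.2.2 _).trans (by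
                  rw [mul_assoc, mul_comm (dl _ _ _)]
                  exact mul_le_mul_of_nonneg_right l (mul_nonneg (j.1.1.nonneg _) (exp_pos _).le)))
            simp only [Matrix.of_apply, if_pos i]
            refine ((l.trans hM (((fν x x1).lq q).mul fun _ => (exp_pos _).le)
              (.of_forall fun _ => by positivity)).of (.of_forall fun _ => le_rfl)
              fun _ => (exp_add _ _).symm).sq fun n => ?_
            have x4 : (x : ℝ) ≤ 0 := by exact_mod_cast x2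
            unfold rx
            nlinarith [Nat.cast_nonneg (α := ℝ) (M n), mul_nonneg_of_nonpos_of_nonpos i x4]
          · exact fun ε _ => .of_forall fun n => by simp [i, (exp_pos _).le]
      filter_upwards [B1.dl (fun c => add_sub_cancel _ c ▸ b5.zero.b0.mul hM (y1 _)) K, e0, r1]
        with n i j r1
      have u : Uni la (w n (ω n)) := uni_un
      refine le_of_eq_of_le (congrArg _ ?_) (i p p)
      rw [← u p o (by simp [lo, z]), ← Matrix.mul_one (w n (ω n)), Matrix.mul_apply, Matrix.mul_one,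
        Matrix.mul_apply, act, map_sum, ← sum_sub_distrib]
      refine sum_congr rfl fun q _ => ?_
      rw [map_smul, smul_eq_mul, ← mul_sub, Matrix.of_apply, (j _ r1).2.2]
      split_ifs with l
      · rfl
      · rw [u p q (by rw [z]; exact fun b => l b.le),
          Matrix.one_apply_ne fun b : p = q => l (b ▸ z.le), zero_mul, zero_mul]
  refine ⟨fun n ω => act (w n ω) (f n (r n ω)), hM, h.hB, h.hν, fun x => by simpa using Eqv.rfl,
    h.near, fun a b i => by simpa using h.far a b i, ko, lo, lo ▸ lt, k.nest, k.fn,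
    ev_of fun ω a => (key ω a).1.1.mono fun _ i => i.2, su_of fun ω a => (key ω a).1.2,
    fun x => su_of fun ω a => by simpa only [rx, mul_assoc] using ((key ω a).2.1 x).2,
    ev_of fun ω a => ?_, fun x i => ?_, fun x K => ev_of fun ω a => eventually_all.2 fun p => ?_⟩
  · filter_upwards [(key ω a).2.2.1, e0, a] with n i j a
    exact ⟨i.1.trans (j _ a).1, i.2.trans (j _ a).2.1⟩
  · refine (k.nest y x i).mono fun n j ω a v b l => ⟨w n ω * (w n v)⁻¹,
      (uni_un' uni_un).mul (uni_un' uni_un).inv, uni_un.mul uni_un.inv, ?_⟩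
    rw [act_div uni_un.det, show r n v = r n ω from rep_congr (j v b ω a l)]
  · by_cases z : la p = 0
    · simpa [z] using (key ω a).2.2.2 p z K
    · obtain ⟨u, i⟩ : ∃ u : ℚ, la p * (x - u) ≤ -K - 1 := by
        rcases lt_or_gt_of_ne z with z | z
        · exact (ex_low (neg_pos.2 z) (-K - 1 - la p * x) 0).imp fun u i => by linarith [i.2.2]
        · exact (ex_low z (-K - 1 - la p * x) 0).elim fun u i => ⟨-u, by
            push_cast; linarith [i.2.2]⟩
      have l := ((((k.lq h a _).1 u).trans hM (((key ω a).2.1 u).lq p)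
        (.of_forall fun _ => (exp_pos _).le)).mul fun n => (exp_pos (la p * (x * M n))).le).of
        (.of_forall fun _ => le_rfl) fun _ => (exp_add _ _).symm
      refine (l.sq (c := -K - 1) (fun n => by
        unfold rx; nlinarith [Nat.cast_nonneg (α := ℝ) (M n)]) 1 one_pos).mono fun n j => ?_
      rw [Matrix.one_apply_ne fun b : p = o => z (b ▸ lo), sub_zero]
      exact j.trans_eq (by unfold dl; congr 1; ring)

theorem sF0 : SF0 := by
  intro V _ _ m Ω Λ P M B ν T kk la Ga O one tt pt dr c s h k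
  obtain ⟨o, τ, f, ko, lo, lτ, F, e0⟩ := cen h k
  choose e he using fun i : ℕ => gauge h k ko lo lτ F e0 (-i)
  obtain ⟨i, -, z⟩ := cf_diag (fun i : ℕ => cf_F0 (S := fun n => Ω n → Fin m → V) (fun n _ => P n)
    (fun n _ => M n) B (fun n _ x => ν x n) (-(i : ℚ) ≤ ·) (fun n _ x => x * M n)
    (fun n _ a => T a n) kk la (fun n _ x => O x n) one tt (fun n _ => pt n) (fun n _ => c n) o τ
    fun _ z => z) e fun j i a => (he j).mono fun x b => le_trans (neg_le_neg (by exact_mod_cast a)) b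
  exact ⟨o, τ, _, lτ, { z 0 with
    up := fun x _ => (z ⌈|x|⌉₊).up x ((neg_le_neg (Nat.le_ceil _)).trans (neg_abs_le x)) }⟩

end Pool.Agent.MP_5168f5_an.QA.Fr
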