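import Pool.Agent.MP_5168f5_an.AN.G39Val

/-! Minimal cells when the Remez inequality has a negligible floor: definitions and chains. -/

namespace Pool.Agent.MP_5168f5_an.QA.GF

open H19 H17S H17F Filter MvPolynomial
open AN.G39 hiding RG REM Cell fwd fwd1

section One

variable {Ω β : Type} {d : ℕ}

/-- Remez inequality for thresholds above the floor `fl` relative to the size `ν`. -/
def RG (P : FP Ω) (x : Ω → Fin d → ℝ) (Z : Ω → β) (ν : Ω → (Ω → ℝ) → ℝ) (G : Ω → Prop) (E C : ℕ)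
    (Γ k0 fl : ℝ) : Prop :=
  ∀ ω ∈ P.S, G ω → ∀ f, Pl x E f → ∀ θ κ : ℝ, fl * ν ω f ≤ θ → k0 ≤ κ →
    κ ≤ pb (cv P Z (Z ω)) (fun v => G v ∧ |f v| ≤ θ) → |f ω| ≤ Γ * κ⁻¹ ^ (C * E) * θ

variable {P : FP Ω} {Z : Bool → Ω → β} {x : Ω → Fin d → ℝ} {G : Ω → Prop} {E C : ℕ} {Γ k0 fl : ℝ}

theorem RG.mono {Y : Ω → β} {ν : Ω → (Ω → ℝ) → ℝ} {G' : Ω → Prop} {Γ' : ℝ}
    (h : RG P x Y ν G E C Γ k0 fl) (h0 : 0 < k0) (e : ∀ ω, G' ω → G ω) (e' : Γ ≤ Γ') :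
    RG P x Y ν G' E C Γ' k0 fl := fun ω hω g f hf θ κ l a b => by
  obtain ⟨v, -, hv⟩ := ex_of_pb ((h0.trans_le a).trans_le b)
  have h1 := (abs_nonneg _).trans hv.2
  have h2 := h0.trans_le a
  exact (h ω hω (e ω g) f hf θ κ l a (b.trans (pb_mono fun v _ k => ⟨e v k.1, k.2⟩))).trans
    (by gcongr)

theorem fwd (hR : ∀ a, RG P x (Z a) (fun _ => nu P) G E C Γ k0 fl) {f : Ω → ℝ} (hf : Pl x E f)
    {η : ℝ} (h0 : 0 ≤ η) (hη : k0 ≤ η) (q1 : 1 ≤ Γ * η⁻¹ ^ (C * E)) (l0 : 0 ≤ fl) :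
    ∀ (w : List Bool) (g : Ω → ℝ) (θ : ℝ), fl * nu P f ≤ θ → (∀ ω, 0 ≤ g ω ∧ g ω ≤ 1) →
    P.E (fun ω => g ω * tp P Z w (fun v => ¬|f v| ≤ (Γ * η⁻¹ ^ (C * E)) ^ w.length * θ) ω) ≤
      P.E (fun ω => g ω * ind (¬(G ω ∧ |f ω| ≤ θ))) + w.length * η +
        P.E fun ω => g ω * esc P Z G w ω
  | [], g, θ, _, hg => by
    simp only [List.length_nil, pow_zero, one_mul, Nat.cast_zero, zero_mul, add_zero, esc, mul_zero,
      FP.E_const, tp_nil]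
    refine P.E_mono fun ω _ => mul_le_mul_of_nonneg_left ?_ (hg ω).1
    by_cases e : |f ω| ≤ θ
    · rw [ind_neg (not_not.2 e)]; exact ind_nn _
    · rw [ind_pos e, ind_pos fun k => e k.2]
  | a :: w, g, θ, l, hg => by
    set q := Γ * η⁻¹ ^ (C * E) with hq
    set g' : Ω → ℝ := fun ω => (cv P (Z a) (Z a ω)).E g with hg'
    have b : ∀ ω, 0 ≤ g' ω ∧ g' ω ≤ 1 := fun ω => ⟨FP.E_nonneg _ fun v _ => (hg v).1,
      (FP.E_mono _ fun v _ => (hg v).2).trans_eq (FP.E_const _ 1)⟩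
    have ih := fwd hR hf h0 hη q1 l0 w g' (q * θ) (l.trans (le_mul_of_one_le_left
      ((mul_nonneg l0 (nu_nn _ _)).trans l) q1)) b
    set A : β → ℝ := fun z => ind (pb (cv P (Z a) z) (fun v => G v ∧ |f v| ≤ θ) < η) with hA
    have h1 : P.E (fun ω => g' ω * ind (¬(G ω ∧ |f ω| ≤ q * θ))) ≤
        P.E fun ω => g' ω * ind (¬G ω) + g' ω * A (Z a ω) := P.E_mono fun ω hω => by
      rw [← mul_add]
      refine mul_le_mul_of_nonneg_left ?_ (b ω).1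
      by_cases e : G ω
      · by_cases e' : pb (cv P (Z a) (Z a ω)) (fun v => G v ∧ |f v| ≤ θ) < η
        · linarith [ind_le (¬(G ω ∧ |f ω| ≤ q * θ)), ind_nn (¬G ω), show A (Z a ω) = 1 from ind_pos e']
        · rw [ind_neg (not_not.2 ⟨e, hR a ω hω e f hf θ η l hη (not_lt.1 e')⟩)]
          exact add_nonneg (ind_nn _) (ind_nn _)
      · linarith [ind_le (¬(G ω ∧ |f ω| ≤ q * θ)), ind_pos e, (ind_nn _ : 0 ≤ A (Z a ω))]
    have h2 : P.E (fun ω => g ω * A (Z a ω)) ≤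
        P.E fun ω => g ω * ind (¬(G ω ∧ |f ω| ≤ θ)) + ind (G ω ∧ |f ω| ≤ θ) * A (Z a ω) :=
      P.E_mono fun ω _ => by
        have u := hg ω
        have v : 0 ≤ A (Z a ω) ∧ A (Z a ω) ≤ 1 := ⟨ind_nn _, ind_le _⟩
        by_cases e : G ω ∧ |f ω| ≤ θ
        · rw [ind_pos e, ind_neg (not_not.2 e)]; nlinarith
        · rw [ind_neg e, ind_pos e]; nlinarith
    have h3 : P.E (fun ω => ind (G ω ∧ |f ω| ≤ θ) * A (Z a ω)) ≤ η := by
      rw [E_cv, ← P.E_const η]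
      refine P.E_mono fun ω _ => ?_
      by_cases e' : pb (cv P (Z a) (Z a ω)) (fun v => G v ∧ |f v| ≤ θ) < η
      · rw [show A (Z a ω) = 1 from ind_pos e', mul_one]; exact e'.le
      · rw [show A (Z a ω) = 0 from ind_neg e', mul_zero]; exact h0
    have h4 := E_adj P (Z a) g fun v => ind (¬G v) + esc P Z G w v
    simp only [mul_add] at h4
    rw [P.E_add] at h1 h2 h4
    rw [← E_cv P (Z a) g A] at h1
    simp only [tp_cons, List.length_cons, Nat.cast_succ, pow_succ, mul_assoc _ q θ]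
    rw [E_adj]
    have h5 : (P.E fun ω => g ω * esc P Z G (a :: w) ω) = _ := h4
    linarith

theorem fwd1 (hR : ∀ a, RG P x (Z a) (fun _ => nu P) G E C Γ k0 fl) {f : Ω → ℝ} (hf : Pl x E f)
    {η θ : ℝ} (h0 : 0 < η) (hη : k0 ≤ η) (g1 : 1 ≤ Γ) (l0 : 0 ≤ fl) (l : fl * nu P f ≤ θ)
    (w : List Bool) {S : Ω → Prop}
    (hS : ∀ ω ∈ P.S, S ω → G ω ∧ |f ω| ≤ θ ∧ esc P Z G w ω ≤ 1 / 8)
    (hp : 8 * (w.length + 1) * η ≤ pb P S) : ∃ ω ∈ P.S, S ω ∧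
      1 / 2 ≤ tp P Z w (fun v => |f v| ≤ (Γ * η⁻¹ ^ (C * E)) ^ w.length * θ) ω := by
  by_contra k
  push Not at k
  have : (0 : ℝ) ≤ w.length * η := by positivity
  have h1 := fwd hR hf h0.le hη (one_le_mul_of_one_le_of_one_le g1 (one_le_pow₀ ((one_le_inv₀ h0).2
    (by nlinarith [pb_le_one P S])))) l0 w (fun ω => ind (S ω)) θ l fun _ => ⟨ind_nn _, ind_le _⟩
  have h2 : P.E (fun ω => 1 / 2 * ind (S ω)) ≤ P.E fun ω => ind (S ω) *
      tp P Z w (fun v => ¬|f v| ≤ (Γ * η⁻¹ ^ (C * E)) ^ w.length * θ) ω := P.E_mono fun ω hω => by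
    by_cases e : S ω
    · have := k ω hω e
      rw [ind_pos e, tp, pb_not]; unfold tp at this; linarith
    · rw [ind_neg e]; simp
  have h3 : P.E (fun ω => ind (S ω) * ind (¬(G ω ∧ |f ω| ≤ θ))) ≤ P.E fun _ => 0 :=
    P.E_mono fun ω hω => by
      by_cases e : S ω
      · rw [ind_neg (not_not.2 ⟨(hS ω hω e).1, (hS ω hω e).2.1⟩), mul_zero]
      · rw [ind_neg e, zero_mul]
  have h4 : P.E (fun ω => ind (S ω) * esc P Z G w ω) ≤ P.E fun ω => 1 / 8 * ind (S ω) :=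
    P.E_mono fun ω hω => by
      by_cases e : S ω
      · rw [ind_pos e, one_mul, mul_one]; exact (hS ω hω e).2.2
      · rw [ind_neg e]; simp
  rw [P.E_mul, ← pb_ind] at h2 h4
  rw [P.E_const] at h3
  nlinarith

end One

section Seq

variable {Ω β : ℕ → Type} {d : ℕ} (P : ∀ n, FP (Ω n)) (x : ∀ n, Ω n → Fin d → ℝ) (M : ℕ → ℕ)

/-- Remez inequality in degree `E` with a negligible floor. -/
def REMe (Z : ∀ n, Ω n → β n) (ν : ∀ n, Ω n → (Ω n → ℝ) → ℝ) (C : ℕ) (K : ℝ) (E : ℕ) : Prop :=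
  ∀ R : ℕ, ∃ (G : ∀ n, Ω n → Prop) (Γ : ℕ → ℝ), Whp P G ∧ Sub M Γ ∧
    ∀ᶠ n in UF, RG (P n) (x n) (Z n) (ν n) (G n) E C (Γ n) (dl M K n) (dl M R n)

/-- One minimal cell. -/
structure Cell (Z : Bool → ∀ n, Ω n → β n) (C : ℕ) (K : ℝ) : Prop where
  big : Big M
  pos : 0 < K
  rem : ∀ a E, REMe P x M (Z a) (fun n _ => nu (P n)) C K E
  nl : NL P x M Z

end Seq

variable {Ω β : ℕ → Type} {d C : ℕ} {P : ∀ n, FP (Ω n)} {x : ∀ n, Ω n → Fin d → ℝ} {M : ℕ → ℕ}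
  {Z : Bool → ∀ n, Ω n → β n} {K : ℝ}

theorem Cell.rem2 (h : Cell P x M Z C K) (E R : ℕ) : ∃ (G : ∀ n, Ω n → Prop) (Γ : ℕ → ℝ),
    Whp P G ∧ Sub M Γ ∧ ∀ᶠ n in UF, ∀ a,
      RG (P n) (x n) (Z a n) (fun _ => nu (P n)) (G n) E C (Γ n) (dl M K n) (dl M R n) := by
  obtain ⟨G, Γ, a, b, c⟩ := h.rem true E R
  obtain ⟨G', Γ', a', b', c'⟩ := h.rem false E R
  refine ⟨_, _, a.and a', b.mul b', ?_⟩
  filter_upwards [c, c'] with n u v a
  cases a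
  · exact v.mono (dl_pos _ _ _) (fun _ k => k.2) (le_mul_of_one_le_left (b'.pos n).le (b.1 n))
  · exact u.mono (dl_pos _ _ _) (fun _ k => k.1) (le_mul_of_one_le_right (b.pos n).le (b'.1 n))

theorem Cell.back (h : Cell P x M Z C K) (E R : ℕ) : ∀ (w : List Bool) (κ : ℝ), 0 < κ →
    ∃ Γ, Sub M Γ ∧ Whp P fun n ω => ∀ f, Pl (x n) E f → ∀ θ : ℝ, dl M R n * nu (P n) f ≤ θ →
      κ ≤ tp (P n) (fun a => Z a n) w (fun v => |f v| ≤ θ) ω → |f ω| ≤ Γ n * θ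
  | [], κ, hκ => ⟨_, h.big.sub le_rfl, Whp.of_ev (Eventually.of_forall fun n ω _ f _ θ _ e => by
      by_contra k
      rw [tp_nil, ind_neg (by simpa using k)] at e
      linarith)⟩
  | a :: w, κ, hκ => by
    obtain ⟨Γ', s', w'⟩ := h.back E R w (κ / 2) (half_pos hκ)
    obtain ⟨G, Γ, g1, g2, g3⟩ := h.rem a E R
    refine ⟨_, (g2.mul (h.big.sub (le_max_right ((κ / 4)⁻¹ ^ (C * E)) 1))).mul s', ?_⟩
    refine (g1.and (whp_tp (Z := Z) (g1.and w') [a] (η := κ / 4) (by positivity))).mono ?_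
    filter_upwards [g3, dl_lt h.big (K := κ / 4) (by positivity) h.pos] with n r r' ω hω u f hf θ l e
    rw [tp_cons] at e
    have h1 := rev_markov _ (fun v _ => pb_le_one _ _) hκ.le e
    have h2 := u.2
    rw [tp_cons, FP.E_congr _ fun v _ => tp_nil _ _ _ v, ← pb_ind] at h2
    have h3 := pb_or (cv (P n) (Z a n) (Z a n ω)) (fun v => G n v ∧ |f v| ≤ Γ' n * θ) fun v =>
      ¬(G n v ∧ ∀ f, Pl (x n) E f → ∀ θ : ℝ, dl M R n * nu (P n) f ≤ θ →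
        κ / 2 ≤ tp (P n) (fun a => Z a n) w (fun v => |f v| ≤ θ) v → |f v| ≤ Γ' n * θ)
    have h4 : κ / 4 ≤ pb (cv (P n) (Z a n) (Z a n ω)) fun v => G n v ∧ |f v| ≤ Γ' n * θ := by
      have := h1.trans ((pb_mono fun v _ k => or_iff_not_imp_right.2 fun k' =>
        ⟨(not_not.1 k').1, (not_not.1 k').2 f hf θ l k⟩).trans h3)
      linarith
    obtain ⟨v, -, hv⟩ := ex_of_pb ((by positivity : 0 < κ / 4).trans_le h4)
    have h5 := (abs_nonneg _).trans hv.2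
    have h6 := (g2.pos n).le
    refine (r ω hω u.1 f hf _ _ (l.trans (le_mul_of_one_le_left
      ((mul_nonneg (dl_pos _ _ _).le (nu_nn _ _)).trans l) (s'.1 n))) r'.le h4).trans ?_
    rw [mul_assoc _ (Γ' n)]
    gcongr
    exact le_max_left _ _

theorem Cell.nu_le (h : Cell P x M Z C K) {E : ℕ} {f : ∀ n, Ω n → ℝ} (hf : ∀ n, Pl (x n) E (f n))
    {θ : ℕ → ℝ} (e : Pos P fun n ω => |f n ω| ≤ θ n) {c : ℝ} (hc : 0 < c) :
    ∀ᶠ n in UF, nu (P n) (f n) ≤ (dl M c n)⁻¹ * θ n := by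
  filter_upwards [(e.and (h.nl E c (fun _ n _ => f n) hc fun _ n _ => hf n)).ex] with n u
  obtain ⟨ω, -, a, b⟩ := u
  have p := dl_pos M c n
  rw [le_inv_mul_iff₀ p]
  by_contra k
  have k := not_le.1 k
  exact b ⟨rfl, pos_mul_left p (((abs_nonneg _).trans a).trans_lt k), a.trans k.le⟩

theorem Cell.os (h : Cell P x M Z C K) {E : ℕ} {f : ∀ n, Ω n → ℝ} (hf : ∀ n, Pl (x n) E (f n))
    {c : ℝ} (hc : 0 < c) (e : Pos P fun n ω => |f n ω| ≤ dl M c n) :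
    OS M fun n => nu (P n) (f n) := ⟨c / 2, half_pos hc, (h.nu_le hf e (half_pos hc)).mono fun n u => by
  have p := dl_pos M (c / 2) n
  rw [abs_of_nonneg (nu_nn _ _)]
  refine u.trans_eq ?_
  rw [dl_half M c]; field_simp⟩

end Pool.Agent.MP_5168f5_an.QA.GF
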