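import Pool.Agent.MP_5168f5_an.QA.GFExt
import Pool.Agent.MP_5168f5_an.AN.G39Frm

/-! Minimal labels when the Remez inequality of the kinds has a negligible floor. -/

namespace Pool.Agent.MP_5168f5_an.QA.GF

open H19 H17S H17F Filter MvPolynomial R4 AN AN.Cx
open AN.G39 (nu dl NL IND dl_pos dl_anti deg_C_mul whp_diag exists_imp_of)
open AN.Gc (sg nl_cq sel_frm fr_up ev_eq nz_cq)
open AN.Nc (Pl)
open AN.Vo (Fr vIr2)
open AN.Pk (kc)

variable {N C E : ℕ} {Ω Λ T : ℕ → Type} {β : Bool → ℕ → Type} {P : ∀ n, FP (Ω n)} {M : ℕ → ℕ}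
  {x : ∀ n, Ω n → V N} {Z : ∀ b n, Ω n → β b n} {A : ∀ n, Ω n → Λ n} {Y : ∀ n, Ω n → T n} {K : ℝ}

/-- The quadratic mean in the cell of the label. -/
noncomputable abbrev nA (P : ∀ n, FP (Ω n)) (A : ∀ n, Ω n → Λ n) (n : ℕ) (ω : Ω n) :
    (Ω n → ℝ) → ℝ := nu (cv (P n) (A n) (A n ω))

/-- The inequality without a floor is stronger. -/
theorem of_rem (h : AN.G39.REM P x M Y C K) (ν : ∀ n, Ω n → (Ω n → ℝ) → ℝ) (E : ℕ) :
    REMe P x M Y ν C K E := fun _ => (h E).imp fun _ a => a.imp fun _ a => ⟨a.1, a.2.1,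
      a.2.2.mono fun _ u ω h1 h2 f hf θ κ _ => u ω h1 h2 f hf θ κ⟩

theorem rem_sg {b : Bool} {ν : ∀ n, Ω n → (Ω n → ℝ) → ℝ} (h : REMe P x M (Z b) ν C K E) :
    REMe P x M (sg Z b) ν C K E := fun R => by
  obtain ⟨G, Γ, a, a', e⟩ := h R
  refine ⟨G, Γ, a, a', e.mono fun n u ω h1 h2 f hf θ κ l h3 h4 => u ω h1 h2 f hf θ κ l h3 ?_⟩
  rwa [cv_congr h1 (T := Z b n) (fun _ _ _ _ e => congrArg (Sigma.mk b) e)
    fun _ _ _ _ e => eq_of_heq (Sigma.mk.inj e).2] at h4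

theorem rem_cq (h : REMe P x M Y (nA P A) C K E) (hA : FnE P A Y) :
    ∀ᶠ w in lo P, REMe (Cx.cq P A w) x M Y (fun n _ => nu (Cx.cq P A w n)) C K E := lo_all fun R => by
  obtain ⟨G, Γ, a, a', e⟩ := h R
  filter_upwards [lo_whp' a A, lo_mem P] with w b c
  refine ⟨G, Γ, b, a', ?_⟩
  filter_upwards [e, hA, c] with n u v y ω h1 h2 f hf θ κ l h3 h4
  obtain ⟨h5, h6⟩ := (mem_cv y ω).1 h1
  rw [Cx.cq, ← h6, cv_fn h5 v] at h4
  exact u ω h5 h2 f hf θ κ (by rwa [nA, h6]) h3 h4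

/-- The typical cell of a minimal label is a minimal cell. -/
theorem cm_cell (hM : Big M) (hK : 0 < K) (hR : ∀ b E, REMe P x M (Z b) (nA P A) C K E)
    (h : CM P M x Z A) : ∀ᶠ w in lo P, Cell (Cx.cq P A w) x M (sg Z) C K := by
  filter_upwards [nl_cq hM h, lo_all fun E => rem_cq (hR true E) (h.com true),
    lo_all fun E => rem_cq (hR false E) (h.com false)] with w a b c
  exact ⟨hM, hK, fun s E => by cases s; exacts [rem_sg (c E), rem_sg (b E)], a⟩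

theorem rem_of_cq
    (h : ∀ᶠ w in lo P, REMe (Cx.cq P A w) x M (fun _ _ => ()) (fun n _ => nu (Cx.cq P A w n)) C K E) :
    REMe P x M A (nA P A) C K E := fun R => by
  let q : ℕ → ∀ n, Λ n → (Ω n → Prop) → Prop := fun j n a G =>
    pb (cv (P n) (A n) a) (fun ω => ¬G ω) ≤ 1 / (j + 1) ∧ RG (cv (P n) (A n) a) (x n) (fun _ => ())
      (fun _ => nu (cv (P n) (A n) a)) G E C (Real.exp (1 / (j + 1) * M n)) (dl M K n) (dl M R n)
  obtain ⟨k, k1, k2⟩ := whp_diag (G := fun j n ω => ∃ G, q j n (A n ω) G) fun j =>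
    lo_ev.1 (h.mono fun w u => by
      obtain ⟨G, Γ, a, b, c⟩ := u R
      have : (0 : ℝ) < 1 / (j + 1) := by positivity
      filter_upwards [a _ this, b.2 _ this, c] with n a b c
      exact ⟨G n, a, c.mono (dl_pos _ _ _) (fun _ e => e) b⟩)
  choose G hG using fun n a => exists_imp_of (q (k n) n a)
  have k3 := k2.mono (F := fun n ω => q (k n) n (A n ω) (G n (A n ω)))
    (Eventually.of_forall fun n ω _ u => hG n _ (u _ le_rfl))
  refine ⟨_, fun n => Real.exp (1 / (k n + 1) * M n), k3.and ((lo_whp (G := G)).1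
    ((lo_ev.2 k3).mono fun w u ε hε => ?_)), ⟨fun n => Real.one_le_exp (by positivity),
    fun ε hε => (R4.K31.small hε k1).mono fun n u => ex_le M u n⟩,
    Eventually.of_forall fun n ω h1 h2 f hf θ κ l h3 h4 => h2.1.2 ω ((mem_cv h1 ω).2 ⟨h1, rfl⟩)
      h2.2 f hf θ κ l h3 ?_⟩
  · filter_upwards [u, R4.K31.small hε k1] with n a b using a.1.trans b
  · rw [cv_unit]
    exact h4.trans (pb_mono fun v e e' => ⟨((mem_cv h1 v).1 e).2 ▸ e'.1.2, e'.2⟩)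

/-- The Remez inequality given a minimal label. -/
theorem remC {K' : ℝ} (hM : Big M) (hK : 0 < K) (hK' : K' < K)
    (hR : ∀ b E, REMe P x M (Z b) (nA P A) C K E) (h : CM P M x Z A) (E : ℕ) :
    REMe P x M A (nA P A) ((N + 1) * C) K' E :=
  rem_of_cq ((cm_cell hM hK hR h).mono fun _ a => rRemC a hK' E)

/-- A frame extends by a polynomial of bounded degree in any functions without exact relation. -/
theorem ext_ctx (C D k : ℕ) : ∃ D0 : ℕ, ∀ {N D1 : ℕ} {Ω Λ : ℕ → Type} {β : Bool → ℕ → Type}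
    {P : ∀ n, FP (Ω n)} {M : ℕ → ℕ} {x : ∀ n, Ω n → V N} {Z : ∀ b n, Ω n → β b n}
    {A : ∀ n, Ω n → Λ n} {Θ : ∀ n, Ω n → Fin k → Pl N} {y : ∀ n, Ω n → Fin (k + 1) → Pl N}, Big M →
    (∀ b E, REMe P x M (Z b) (nA P A) C 1 E) → CM P M x Z A → Frm P M x Z A Θ D1 → FnE P y A →
    (∀ n ω j, (y n ω j).totalDegree ≤ D) → NZ P (fun n => cht (y n) (x n)) A →
    ∃ Q : ∀ n, Ω n → Pl (k + 1), FnE P Q A ∧ (∀ n ω, (Q n ω).totalDegree ≤ D0) ∧
      Frm P M x Z A (fun n ω => Fin.cons (aeval (y n ω) (Q n ω)) (Θ n ω)) (max D1 (D0 * D)) := by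
  obtain ⟨D0, h0⟩ := ext_poly C D k
  refine ⟨D0, fun {N D1 Ω Λ β P M x Z A Θ y} hM hR h f hy hD hn => ?_⟩
  have : Nonempty {Q : Pl (k + 1) // Q.totalDegree ≤ D0} := ⟨⟨0, by simp⟩⟩
  obtain ⟨Q, a, b⟩ := sel_frm (B := fun _ => {Q : Pl (k + 1) // Q.totalDegree ≤ D0})
    (s := fun n ω => (Θ n ω, y n ω)) (D := max D1 (D0 * D)) hM h
    (by filter_upwards [f.fn, hy] with n u v a e a' e' z using
      Prod.ext (u a e a' e' z) (v a e a' e' z))
    (fun _ s Q => Fin.cons (aeval s.2 Q.1) s.1) (fun n ω Q i => i.cases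
      ((kc.deg _ _ _ _ Q.2 (hD n ω)).trans (le_max_right _ _))
      fun i => (f.deg n ω i).trans (le_max_left _ _)) (by
      filter_upwards [cm_cell hM one_pos hR h, frm_fr hM h f h.com, nz_cq hy hn] with w a b c
      obtain ⟨L, Ψ, l1, l2, l3, l4⟩ := vIr2.dni _ _ _ _ _ _ _ _ hM b
      obtain ⟨Q, q1, q2⟩ := h0 a l4 (fun n j => ⟨_, hD n (w n) j, fun _ => rfl⟩) (c D0)
      refine ⟨fun n => ⟨MvPolynomial.C (L n) * Q n, (deg_C_mul _ _).trans (q1 n)⟩, fr_up hM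
        (vIr2.ind _ _ _ x M _ _ _ x (fun n => Fin.cons (aeval (y n (w n)) (Q n)) (Ψ n))
          (Eventually.of_forall fun n i => i.cases
            ((kc.deg _ _ _ _ (q1 n) (hD n _)).trans (le_max_right _ _))
            fun i => (l3 n i).trans (le_max_left _ _)) ?_) l1
        (l2.mono fun n u => _root_.funext fun i => ?_)⟩
      · convert q2 using 3 with n i
        refine i.cases (ev_eq (x n) _ (Q n)) fun _ => rfl
      · refine i.cases (by simp) fun i => ?_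
        simp only [Fin.cons_succ, u]
        rw [← mul_assoc, ← map_mul, mul_inv_cancel₀ (l1.pos n).ne', map_one, one_mul])
  exact ⟨fun n ω => (Q n ω).1, a.mono fun n u v e v' e' z => congrArg _ (u v e v' e' z),
    fun n ω => (Q n ω).2, b⟩

/-- A triangular frame of bounded degree in any functions without exact relation. -/
theorem ud_ctx (N C D i : ℕ) : ∃ D0 : ℕ, ∀ {Ω Λ : ℕ → Type} {β : Bool → ℕ → Type}
    {P : ∀ n, FP (Ω n)} {M : ℕ → ℕ} {x : ∀ n, Ω n → V N} {Z : ∀ b n, Ω n → β b n}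
    {A : ∀ n, Ω n → Λ n} {y : ∀ n, Ω n → Fin i → Pl N}, Big M →
    (∀ b E, REMe P x M (Z b) (nA P A) C 1 E) → CM P M x Z A → FnE P y A →
    (∀ n ω j, (y n ω j).totalDegree ≤ D) → NZ P (fun n => cht (y n) (x n)) A →
    ∃ Φ : ∀ n, Ω n → Fin i → Pl i, FnE P Φ A ∧ (∀ n ω j, (Φ n ω j).totalDegree ≤ D0) ∧
      (∀ n ω, AN.Vo.Tri (Φ n ω)) ∧
      Frm P M x Z A (fun n ω j => aeval (y n ω) (Φ n ω j)) (D0 * D) := by
  obtain ⟨D0, h0⟩ := rUD N C D i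
  refine ⟨D0, fun {Ω Λ β P M x Z A y} hM hR h hy hD hn => ?_⟩
  have : Nonempty {Φ : Fin i → Pl i // ∀ j, (Φ j).totalDegree ≤ D0 ∧ ∀ l ∈ (Φ j).vars, l ≤ j} :=
    ⟨⟨0, by simp⟩⟩
  obtain ⟨Φ, a, b⟩ := sel_frm (B := fun _ =>
      {Φ : Fin i → Pl i // ∀ j, (Φ j).totalDegree ≤ D0 ∧ ∀ l ∈ (Φ j).vars, l ≤ j})
    (D := D0 * D) hM h hy (fun _ s Φ j => aeval s (Φ.1 j))
    (fun n ω Φ j => kc.deg _ _ _ _ (Φ.2 j).1 (hD n ω)) (by
      filter_upwards [cm_cell hM one_pos hR h, nz_cq hy hn] with w a c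
      obtain ⟨Φ, q1, q2⟩ := h0 _ _ _ _ _ _ _ _ a (fun n j => ⟨_, hD n (w n) j, fun _ => rfl⟩) (c D0)
      refine ⟨fun n => ⟨Φ n, q1 n⟩, vIr2.ind _ _ _ x M _ _ _ x _ (Eventually.of_forall fun n j =>
        kc.deg _ _ _ _ (q1 n j).1 (hD n _)) ?_⟩
      convert q2 using 3 with n j
      exact ev_eq (x n) _ (Φ n j))
  exact ⟨fun n ω => (Φ n ω).1, a.mono fun n u v e v' e' z => congrArg _ (u v e v' e' z),
    fun n ω j => ((Φ n ω).2 j).1, fun n ω j => ((Φ n ω).2 j).2, b⟩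

/-- A triangular frame in the coordinates. -/
theorem ud_tri (N C : ℕ) : ∃ D : ℕ, ∀ {Ω Λ : ℕ → Type} {β : Bool → ℕ → Type}
    {P : ∀ n, FP (Ω n)} {M : ℕ → ℕ} {x : ∀ n, Ω n → V N} {Z : ∀ b n, Ω n → β b n}
    {A : ∀ n, Ω n → Λ n}, Big M → (∀ b E, REMe P x M (Z b) (nA P A) C 1 E) → CM P M x Z A →
    NZ P x A → ∃ Θ, (∀ n ω, AN.Vo.Tri (Θ n ω)) ∧ Cel P M x Z A Θ D := by
  obtain ⟨D, h0⟩ := ud_ctx N C 1 N
  refine ⟨D * 1, fun hM hR h hn => ?_⟩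
  obtain ⟨Φ, -, -, a, b⟩ := h0 (y := fun _ _ => X) hM hR h
    (Eventually.of_forall fun _ _ _ _ _ _ => rfl) (fun _ _ _ => (totalDegree_X _).le)
    (by simpa only [AN.Gc.cht_X] using hn)
  exact ⟨Φ, a, h, by simpa using b⟩

end Pool.Agent.MP_5168f5_an.QA.GF
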