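import Pool.Agent.MP_5168f5_an.QA.GFGen

/-! Frames and the Remez inequality in a minimal cell with a floor. -/

namespace Pool.Agent.MP_5168f5_an.QA.GF

open H19 H17S H17F Filter MvPolynomial
open AN.G39 hiding RG REM Cell fwd fwd1 rExt rRemC ext_poly rUD
open AN.G39.G39DepA

variable {Ω β : ℕ → Type} {d C : ℕ} {P : ∀ n, FP (Ω n)} {x : ∀ n, Ω n → Fin d → ℝ} {M : ℕ → ℕ}
  {Z : Bool → ∀ n, Ω n → β n} {K : ℝ} {E : ℕ}

theorem Cell.fw (h : Cell P x M Z C K) {k : ℕ} {φ : ∀ n, Fin k → Ω n → ℝ} (hφ : IND P x M φ)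
    (R : ℕ) (V : ∀ n, (Ω n → ℝ) → Prop) (hV : ∀ n f, V n f → Pl (x n) E f ∧ nu (P n) f = 1)
    (hn : ∀ f : ∀ n, Ω n → ℝ, (∀ n, V n (f n) ∨ f n = fun _ => 0) →
      ¬IND P x M fun n => (Fin.cons (f n) (φ n) : Fin (k + 1) → Ω n → ℝ)) :
    ∃ Γ, Sub M Γ ∧ ∀ c, 0 < c → ∃ G, Whp P G ∧ ∀ᶠ n in UF, ∀ f, V n f →
      ∀ (S : Ω n → Prop) (θ η : ℝ), dl M R n ≤ θ → dl M K n ≤ η →
        (∀ ω ∈ (P n).S, S ω → G n ω ∧ |f ω| ≤ θ) →
        8 * (k + 2) * η ≤ pb (P n) S → dl M c n < (Γ n * η⁻¹ ^ (C * E)) ^ (k + 1) * θ := by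
  obtain ⟨G, Γ, a1, a2, a3⟩ := h.rem2 E R
  refine ⟨Γ, a2, fun c hc => ⟨_, a1.and ((whp_esc (Z := Z) a1 (alt true (k + 1))).and
    (h.gen' hφ (h.gen k φ hφ true) V hV hn hc one_half_pos)),
    a3.mono fun n u f hf S θ η l h1 h2 h3 => ?_⟩⟩
  obtain ⟨ω, e1, e2, e3⟩ := fwd1 u (hV n f hf).1 ((dl_pos _ _ _).trans_le h1) h1 (a2.1 n)
    (dl_pos _ _ _).le (by rwa [(hV n f hf).2, mul_one]) (alt true (k + 1))
    (S := S) (θ := θ) (fun ω e e' => ⟨(h2 ω e e').1.1, (h2 ω e e').2, (h2 ω e e').1.2.1⟩)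
    (by rw [alt_length]; push_cast; linarith)
  rw [alt_length] at e3
  exact not_le.1 fun z => (((h2 ω e1 e2).1.2.2 f hf).trans_le e3).not_ge
    (tp_mono _ e1 fun v _ y => y.trans z)

theorem Cell.big_of (h : Cell P x M Z C K) {f : ∀ n, Ω n → ℝ} (hf : ∀ n, Pl (x n) E (f n))
    (e : ¬OS M fun n => nu (P n) (f n)) {c : ℝ} (hc : 0 < c) :
    Whp P fun n ω => dl M c n < |f n ω| := by
  by_contra z
  exact e (h.os hf hc ((not_whp z).mono (Eventually.of_forall fun n ω _ => not_lt.1)))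

/-- One more independent function in a large space. -/
theorem rExt {k N : ℕ} {φ : ∀ n, Fin k → Ω n → ℝ} {v : ∀ n, Fin N → Ω n → ℝ} (h : Cell P x M Z C K)
    (hφ : IND P x M φ) (hv : ∀ n a, Pl (x n) E (v n a))
    (hi : ∀ᶠ n in UF, ∀ c : Fin N → ℝ, c ≠ 0 → 0 < nu (P n) fun ω => ∑ a, c a * v n a ω)
    (hN : ((k + 1) * C * E * k + 1) ^ k < N) : ∃ c : ℕ → Fin N → ℝ, IND P x M fun n =>
      (Fin.cons (fun ω => ∑ a, c n a * v n a ω) (φ n) : Fin (k + 1) → Ω n → ℝ) := by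
  by_contra hn
  have hM := h.big
  have hn1 : ∀ f : ∀ n, Ω n → ℝ, (∀ n, ∃ c : Fin N → ℝ, f n = fun ω => ∑ a, c a * v n a ω) →
      ¬IND P x M fun n => (Fin.cons (f n) (φ n) : Fin (k + 1) → Ω n → ℝ) := fun f hf => by
    choose c hc using hf
    obtain rfl : f = _ := funext hc
    exact fun z => hn ⟨c, z⟩
  have hpl : ∀ n (c : Fin N → ℝ), Pl (x n) E fun ω => ∑ a, c a * v n a ω := fun n c =>
    pl_sum _ fun a _ => (hv n a).smul _
  obtain ⟨A, A1, A2⟩ : ∃ A : ℕ → Fin N → Fin N → ℝ,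
      (∀ n a, nu (P n) (fun ω => ∑ a', A n a a' * v n a' ω) ≤ 1) ∧ ∀ᶠ n in UF, ∀ c : Fin N → ℝ,
        nu (P n) (fun ω => ∑ a, c a * ∑ a', A n a a' * v n a' ω) = √(∑ a, c a ^ 2) := by
    have : ∀ n, ∃ A : Fin N → Fin N → ℝ, (∀ a, nu (P n) (fun ω => ∑ a', A a a' * v n a' ω) ≤ 1) ∧
        ((∀ c : Fin N → ℝ, c ≠ 0 → 0 < nu (P n) fun ω => ∑ a, c a * v n a ω) → ∀ c : Fin N → ℝ,
          nu (P n) (fun ω => ∑ a, c a * ∑ a', A a a' * v n a' ω) = √(∑ a, c a ^ 2)) := fun n => by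
      by_cases e : ∀ c : Fin N → ℝ, c ≠ 0 → 0 < nu (P n) fun ω => ∑ a, c a * v n a ω
      · obtain ⟨A, hA⟩ := rOnb _ _ _ _ e
        exact ⟨A, fun a => by simpa [Pi.single_apply] using (hA (Pi.single a 1)).le, fun _ => hA⟩
      · exact ⟨0, fun a => by simp [nu, FP.E_const], fun z => (e z).elim⟩
    choose A A1 A2 using this
    exact ⟨A, A1, hi.mono A2⟩
  set b : ∀ n, Fin N → Ω n → ℝ := fun n a ω => ∑ a', A n a a' * v n a' ω with hb
  have hb1 : ∀ a n, Pl (x n) E (b n a) := fun a n => hpl n _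
  choose p p1 p2 _ using fun a => h.rel hφ (hb1 a) (fun n => A1 n a) (hn1 _ fun n => ⟨_, rfl⟩)
  obtain ⟨D, hD⟩ := hφ.pl
  choose E1 hE1 using fun a => pl_pv (hM := hM) hD (hb1 a) (p a)
  choose E2 hE2 using fun a => pl_pv (hM := hM) hD (hb1 a) (p a).derivative
  choose c0 c1 c2 using fun a => (dom_id hM).small hM (hE1 a) (p1 a)
  obtain ⟨L0, l1, l2⟩ := KSA.wsub P (fun n ω L => ∀ a,
      L⁻¹ < |pv (φ n) (b n a) (tm hM n) (p a).derivative ω|) M fun c hc _ =>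
    Whp.all fun a => (h.big_of (hE2 a) (p2 a) hc).mono (Eventually.of_forall fun n ω _ u => by
      rwa [← dl_inv, inv_inv])
  set L := (k + 1) * C * E * k with hL
  obtain ⟨ρ, r0, r1, r2⟩ : ∃ ρ : ℝ, 0 < ρ ∧ (∀ a, (L + 1 : ℕ) * ρ ≤ c0 a) ∧ (k + 1) * ρ ≤ K := by
    have e := (Finset.lt_fold_min (s := Finset.univ) (f := c0) (b := 1) 0).2
      ⟨one_pos, fun a _ => c1 a⟩
    have := h.pos
    refine ⟨min (Finset.univ.fold min 1 c0 / (L + 1 : ℕ)) (K / (k + 1)), by positivity,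
      fun a => ?_, ?_⟩
    · rw [← le_div_iff₀' (by positivity)]
      exact (min_le_left _ _).trans (div_le_div_of_nonneg_right
        ((Finset.fold_min_le _).2 (Or.inr ⟨a, Finset.mem_univ _, le_rfl⟩)) (by positivity))
    · rw [← le_div_iff₀' (by positivity)]
      exact min_le_right _ _
  obtain ⟨ε, e0, e1⟩ : ∃ ε : ℝ, 0 < ε ∧
      (1 + (k + 1) * (1 + C * E * (N + 1)) + (N + 1)) * ε = ρ / 2 :=
    ⟨ρ / 2 / (1 + (k + 1) * (1 + C * E * (N + 1)) + (N + 1)), by positivity,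
      mul_div_cancel₀ _ (by positivity)⟩
  obtain ⟨Γ, g1, g2⟩ := h.fw (E := E) hφ ⌈(L + 1 : ℕ) * ρ⌉₊ (fun n f => (∃ c : Fin N → ℝ,
    f = fun ω => ∑ a, c a * v n a ω) ∧ nu (P n) f = 1)
    (fun n f ⟨⟨c, e⟩, e'⟩ => ⟨e ▸ hpl n c, e'⟩) fun f hf => hn1 f fun n =>
      (hf n).elim And.left fun e => ⟨0, by simp [e]⟩
  obtain ⟨G, G1, G2⟩ := g2 _ (half_pos r0)
  let G' : ∀ n, Ω n → Prop := fun n ω => G n ω ∧
    (∀ a, |pv (φ n) (b n a) (tm hM n) (p a) ω| ≤ dl M (c0 a) n) ∧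
    (∀ a, (L0 n)⁻¹ < |pv (φ n) (b n a) (tm hM n) (p a).derivative ω|) ∧
    ∀ i, |Sum.elim (φ n) (b n) i ω| ≤ M n + 1
  have hG : ∀ᶠ n in UF, 1 / 2 ≤ pb (P n) (G' n) := by
    have : Whp P G' := G1.and ((Whp.all c2).and (l2.and (((whp_CG (x := x) hM D).and
      (whp_CG (x := x) hM E)).mono (Eventually.of_forall fun n ω _ u i => ?_))))
    · filter_upwards [this _ one_half_pos] with n u
      rw [pb_not] at u
      linarith
    · rcases i with i | a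
      · exact (u.1 _ (hD n i)).trans (mul_le_of_le_one_right (by positivity) (hφ.le n i))
      · exact (u.2 _ (hb1 a n)).trans (mul_le_of_le_one_right (by positivity) (A1 n a))
  have hr : ∀ c, 0 < c → ∀ n, 0 < dl M c n ∧ dl M c n ≤ M n + 1 := fun c hc n => ⟨dl_pos _ _ _,
    ((dl_anti M hc.le n).trans_eq (dl_zero M n)).trans (le_add_of_nonneg_left (Nat.cast_nonneg _))⟩
  have := fun n => fp_ne (P n)
  choose w hw using fun n => exists_imp_of fun w : Ω n => G' n w ∧ pb (P n) (G' n) ≤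
    (∏ i : Fin k ⊕ Fin N, 4 * (M n + 1 : ℝ) / Sum.elim (fun _ => dl M ρ n) (fun _ => dl M ε n) i) *
      pb (P n) fun ω => G' n ω ∧ ∀ i, |Sum.elim (φ n) (b n) i ω - Sum.elim (φ n) (b n) i w| ≤
        Sum.elim (fun _ => dl M ρ n) (fun _ => dl M ε n) i
  have hw' := hG.mono fun n u => hw n (cls (P n) (G' n) _ _
    (fun i => by rcases i with i | i; exacts [hr ρ r0 n, hr ε e0 n]) (fun ω e => e.2.2.2)
    (one_half_pos.trans_le u))
  have ob : ∀ ω : ∀ n, Ω n, (∀ᶠ n in UF, G' n (ω n)) → ∀ i,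
      (fun n => Sum.elim (φ n) (b n) i (ω n)) ∈ OO hM := fun ω e i =>
    ob_of_le (Sub.nat hM) (e.mono fun n u => u.2.2.2 i)
  have fi : ∀ (ω : ∀ n, Ω n) (e : ∀ᶠ n in UF, G' n (ω n)) a, (p a).eval₂
      (eval fun i => ⟨_, ob ω e (.inl i)⟩) ⟨_, ob ω e (.inr a)⟩ ∈ FI hM ((L + 1 : ℕ) * ρ) :=
    fun ω e a => fi_of_le (e.mono fun n u => by
      rw [tm_eval]; exact (u.2.1 a).trans (dl_anti M (r1 a) n))
  have w1 := hw'.mono fun n u => u.1
  obtain ⟨c, d1, d2⟩ := hj hN ρ p _ _ (fi w w1) fun a ⟨c, hc, e⟩ => by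
    obtain ⟨n, u1, u2, u3⟩ := (e.and (w1.and (sub_dl l1 hc))).exists
    rw [tm_eval] at u1
    exact ((u2.2.2.1 a).trans_le u1).not_ge (le_inv_of_le_inv₀ (l1.pos n) u3)
  let S : ∀ n, Ω n → Prop := fun n ω => G' n ω ∧ ∀ i,
    |Sum.elim (φ n) (b n) i ω - Sum.elim (φ n) (b n) i (w n)| ≤
      Sum.elim (fun _ => dl M ρ n) (fun _ => dl M ε n) i
  have d3 := R4.unif (h := S)
    (p := fun n ω => |∑ a, c n a * b n a ω| ≤ dl M ((L + 1 : ℕ) * ρ - ε) n) fun ω e =>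
    d2 _ _ (fun i => fi_of_le (e.mono fun n u => u.2 (.inl i)))
      (fun a => ⟨ε, e0, e.mono fun n u => u.2 (.inr a)⟩) (fi ω (e.mono fun n u => u.1)) ε e0
  have s1 := sub_dl ((((Sub.nat hM).const_mul hM (C := 4) (by norm_num)).pow (k + N)).const_mul hM
    (C := 16 * (k + 2)) (by linarith [Nat.cast_nonneg (α := ℝ) k])) e0
  obtain ⟨n, u1, u2, u3, u4, u5, u6, u7⟩ :=
    (G2.and (hG.and (hw'.and (d3.and (s1.and ((sub_dl g1 e0).and A2)))))).exists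
  have n1 : 1 ≤ √(∑ a, c n a ^ 2) := by
    obtain ⟨a, ha⟩ := (d1 n).2
    exact Real.one_le_sqrt.2 (le_trans (by simp [ha]) (Finset.single_le_sum
      (fun a _ => sq_nonneg (c n a)) (Finset.mem_univ a)))
  have n2 := one_pos.trans_le n1
  have q0 : (0 : ℝ) ≤ (k + 1) * (1 + C * E * (N + 1)) * ε := by positivity
  have := u1 (fun ω => (√(∑ a, c n a ^ 2))⁻¹ * ∑ a, c n a * b n a ω)
    ⟨⟨fun a' => (√(∑ a, c n a ^ 2))⁻¹ * ∑ a, c n a * A n a a', funext fun ω => by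
      simp only [hb, Finset.mul_sum, Finset.sum_mul, mul_assoc]; exact Finset.sum_comm⟩, by
      rw [nu_smul, u7, abs_of_pos (inv_pos.2 n2), inv_mul_cancel₀ n2.ne']⟩ (S n)
    (dl M ((L + 1 : ℕ) * ρ - ε) n) (dl M (k * ρ + N * ε + ε) n)
    (dl_anti M ((sub_le_self _ e0.le).trans (Nat.le_ceil _)) n) (dl_anti M (by linarith) n)
    (fun ω _ e => ⟨e.1.1, by
      rw [abs_mul, abs_of_pos (inv_pos.2 n2)]
      exact (mul_le_of_le_one_left (abs_nonneg _) (inv_le_one_of_one_le₀ n1)).trans (u4 ω e)⟩) (by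
      have z := u2.trans u3.2
      simp only [Fintype.prod_sum_type, Sum.elim_inl, Sum.elim_inr, Finset.prod_const,
        Finset.card_univ, Fintype.card_fin, div_pow, dl_pow, div_mul_div_comm, ← pow_add,
        ← dl_add] at z
      rw [div_mul_eq_mul_div, le_div_iff₀ (dl_pos _ _ _)] at z
      rw [le_inv_comm₀ (by positivity) (dl_pos _ _ _), ← one_div, le_div_iff₀ (by positivity)] at u5
      have y : (0 : ℝ) < (4 * (M n + 1)) ^ (k + N) := by positivity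
      rw [dl_add]
      refine le_of_mul_le_mul_left (le_trans ?_ z) y
      nlinarith [dl_pos M (k * ρ + N * ε) n])
  refine this.not_ge ((mul_le_mul_of_nonneg_right (pow_le_pow_left₀
    (mul_nonneg (g1.pos n).le (pow_nonneg (inv_pos.2 (dl_pos _ _ _)).le _))
    (mul_le_mul_of_nonneg_right u6 (pow_nonneg (inv_pos.2 (dl_pos _ _ _)).le _)) _)
    (dl_pos _ _ _).le).trans ?_)
  simp only [dl_neg, dl_pow, ← dl_add]
  refine dl_anti M ?_ n
  rw [hL]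
  push_cast
  nlinarith [show (0 : ℝ) ≤ (N + 1) * ε by positivity]

/-- A minimal cell satisfies the Remez inequality. -/
theorem rRemC {K' : ℝ} (h : Cell P x M Z C K) (hK : K' < K) (E : ℕ) :
    REMe P x M (fun _ _ => ()) (fun n _ => nu (P n)) ((d + 1) * C) K' E := by
  intro R
  have hM := h.big
  obtain ⟨k, hk, φ, hφ, hn⟩ := exists_max P x M
  obtain ⟨Γ, g1, g2⟩ := h.fw (E := E) hφ R (fun n f => Pl (x n) E f ∧ nu (P n) f = 1)
    (fun _ _ e => e) fun f _ => hn f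
  have c0 : ∀ j : ℕ, (0 : ℝ) < 1 / (j + 1) := fun j => by positivity
  choose G G1 G2 using fun j : ℕ => g2 _ (c0 j)
  obtain ⟨j, j1, j2⟩ := KSA.spill _ fun j => (G1 j _ (c0 j)).and (G2 j)
  have a1 : Whp P fun n => G (j n) n := fun ε hε => by
    filter_upwards [j2, R4.K31.small hε j1] with n u v using (u _ le_rfl).1.trans v
  have a2 : Sub M fun n => (dl M (1 / (j n + 1)) n)⁻¹ :=
    ⟨fun n => (Real.one_le_exp (by positivity)).trans_eq (dl_inv _ _ _).symm, fun ε hε =>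
      (R4.K31.small hε j1).mono fun n u => (dl_inv _ _ _).trans_le
        (Real.exp_le_exp.2 (mul_le_mul_of_nonneg_right u (Nat.cast_nonneg _)))⟩
  have k0 : (0 : ℝ) < 8 * (k + 2) := by positivity
  refine ⟨_, _, a1.and (whp_CG (x := x) hM E), (Sub.nat hM).mul (a2.mul ((g1.mul ((hM.sub
    (C := 8 * (k + 2)) (by linarith [Nat.cast_nonneg (α := ℝ) k])).pow (C * E))).pow (k + 1))), ?_⟩
  filter_upwards [j2, dl_lt hM (inv_pos.2 k0) (sub_pos.2 hK)] with n u v ω _ hω f hf θ κ l e1 e2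
  have κ0 := (dl_pos _ _ _).trans_le e1
  rw [cv, cE_congr (E' := fun _ => True) fun _ _ => by simp, cE_true] at e2
  have θ0 : 0 ≤ θ := by
    obtain ⟨w, -, hw⟩ := ex_of_pb (κ0.trans_le e2)
    exact (abs_nonneg _).trans hw.2
  have Γ0 := g1.pos n
  have d0 := dl_pos M (1 / (j n + 1)) n
  refine (hω.2 f hf).trans ?_
  rw [mul_assoc, mul_assoc]
  refine mul_le_mul_of_nonneg_left ?_ (by positivity)
  rcases (nu_nn (P n) f).eq_or_lt with ν0 | ν0
  · rw [← ν0]; positivity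
  have := (u _ le_rfl).2 (fun ω => (nu (P n) f)⁻¹ * f ω) ⟨hf.smul _, by
    rw [nu_smul, abs_of_pos (inv_pos.2 ν0), inv_mul_cancel₀ ν0.ne']⟩
    (fun v => (G (j n) n v ∧ CG (P n) (x n) E (M n + 1) v) ∧ |f v| ≤ θ) ((nu (P n) f)⁻¹ * θ)
    (κ * (8 * (k + 2 : ℝ))⁻¹) ((le_inv_mul_iff₀' ν0).2 l) (by
      rw [show K = K' + (K - K') by ring, dl_add]
      exact mul_le_mul e1 v.le (dl_pos _ _ _).le κ0.le)
    (fun v _ e => ⟨e.1.1, by
      rw [abs_mul, abs_of_pos (inv_pos.2 ν0)]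
      exact mul_le_mul_of_nonneg_left e.2 (inv_pos.2 ν0).le⟩)
    (by rw [mul_left_comm, mul_inv_cancel₀ k0.ne', mul_one]; exact e2)
  rw [mul_left_comm, lt_inv_mul_iff₀ ν0, ← lt_mul_inv_iff₀ d0, mul_inv, inv_inv,
    mul_pow κ⁻¹, mul_comm (κ⁻¹ ^ _), ← mul_assoc, mul_pow, ← pow_mul] at this
  refine this.le.trans ?_
  rw [mul_comm _ (dl M _ n)⁻¹, ← mul_assoc, ← mul_assoc, mul_assoc _ (κ⁻¹ ^ _)]
  refine mul_le_mul_of_nonneg_left (mul_le_mul_of_nonneg_right (pow_le_pow_right₀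
    ((one_le_inv₀ κ0).2 (e2.trans (pb_le_one _ _))) ?_) θ0) (by positivity)
  rw [mul_assoc (d + 1), mul_comm]
  exact Nat.mul_le_mul_right _ (by omega)

/-- An independent family of `k` functions extends by a polynomial of bounded degree in any
`k + 1` functions without exact relation. -/
theorem ext_poly (C D k : ℕ) : ∃ D0 : ℕ, ∀ {Ω β : ℕ → Type} {d : ℕ} {K : ℝ} {P : ∀ n, FP (Ω n)}
    {x : ∀ n, Ω n → Fin d → ℝ} {M : ℕ → ℕ} {Z : Bool → ∀ n, Ω n → β n}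
    {φ : ∀ n, Fin k → Ω n → ℝ} {y : ∀ n, Fin (k + 1) → Ω n → ℝ}, Cell P x M Z C K → IND P x M φ →
    (∀ n j, Pl (x n) D (y n j)) → (∀ᶠ n in UF, ∀ H : MvPolynomial (Fin (k + 1)) ℝ, H ≠ 0 →
      H.totalDegree ≤ D0 → 0 < nu (P n) (ev (y n) H)) →
    ∃ Q : ℕ → MvPolynomial (Fin (k + 1)) ℝ, (∀ n, (Q n).totalDegree ≤ D0) ∧
      IND P x M fun n => (Fin.cons (ev (y n) (Q n)) (φ n) : Fin (k + 1) → Ω n → ℝ) := by
  obtain ⟨s, hs⟩ : ∃ s, s = ((k + 1) * C * ((k + 1) * D) * k + 1) ^ k := ⟨_, rfl⟩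
  refine ⟨(k + 1) * s, fun {Ω β d K P x M Z φ y} h hφ hy h0 => ?_⟩
  let m : Fin ((s + 1) ^ (k + 1)) → Fin (k + 1) →₀ ℕ := fun a => tf (finFunctionFinEquiv.symm a)
  have m1 : ∀ a (r : ℝ), (monomial (m a) r).totalDegree ≤ (k + 1) * s := fun a r =>
    (totalDegree_monomial_le _ _).trans (by
      rw [Finsupp.sum_fintype _ _ fun _ => rfl]; exact tf_sum _)
  have m2 : ∀ c : _ → ℝ, (∑ a, monomial (m a) (c a)).totalDegree ≤ (k + 1) * s := fun c =>
    (totalDegree_finsetSum _ _).trans (Finset.sup_le fun a _ => m1 a _)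
  have m3 : ∀ n (c : _ → ℝ), (fun ω => ∑ a, c a * ev (y n) (monomial (m a) 1) ω) =
      ev (y n) (∑ a, monomial (m a) (c a)) := fun n c => funext fun ω => by
    simp [ev, eval_monomial]
  obtain ⟨c, hc⟩ := rExt (E := (k + 1) * s * D)
    (v := fun n a => ev (y n) (monomial (m a) 1)) h hφ (fun n a => pl_ev (hy n) (m1 a 1))
    (h0.mono fun n u c hc => by
      rw [m3]
      refine u _ (fun z => hc (funext fun a => ?_)) (m2 c)
      have := congrArg (coeff (m a)) z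
      rw [coeff_sum, Finset.sum_eq_single a (fun b _ e => by
        rw [coeff_monomial, if_neg fun z => e (finFunctionFinEquiv.symm.injective (tf_inj z))])
        (by simp)] at this
      simpa using this) (by
      calc _ ≤ (((k + 1) * C * ((k + 1) * D) * k + 1) * (s + 1)) ^ k :=
            Nat.pow_le_pow_left (by nlinarith [Nat.zero_le ((k + 1) * C * ((k + 1) * D) * k)]) _
        _ < (s + 1) * (s + 1) ^ k := by
            rw [mul_pow, ← hs]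
            exact Nat.mul_lt_mul_of_pos_right (Nat.lt_succ_self s) (by positivity)
        _ = _ := (pow_succ' _ _).symm)
  exact ⟨fun n => ∑ a, monomial (m a) (c n a), fun n => m2 _, by simpa only [m3] using hc⟩

/-- A triangular frame of uniformly bounded degree in any independent coordinates `y`. -/
theorem rUD (d C D i : ℕ) : ∃ D0 : ℕ, ∀ (Ω β : ℕ → Type) (K : ℝ) (P : ∀ n, FP (Ω n))
    (x : ∀ n, Ω n → Fin d → ℝ) (M : ℕ → ℕ) (Z : Bool → ∀ n, Ω n → β n) (y : ∀ n, Fin i → Ω n → ℝ),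
    Cell P x M Z C K → (∀ n j, Pl (x n) D (y n j)) →
    (∀ᶠ n in UF, ∀ H : MvPolynomial (Fin i) ℝ, H ≠ 0 → H.totalDegree ≤ D0 →
      0 < nu (P n) (ev (y n) H)) →
    ∃ Φ : ℕ → Fin i → MvPolynomial (Fin i) ℝ, (∀ n j, (Φ n j).totalDegree ≤ D0 ∧
      ∀ l ∈ (Φ n j).vars, l ≤ j) ∧ IND P x M fun n j => ev (y n) (Φ n j) := by
  suffices ∀ k (hk : k ≤ i), ∃ D0 : ℕ, ∀ (Ω β : ℕ → Type) (K : ℝ) (P : ∀ n, FP (Ω n))
      (x : ∀ n, Ω n → Fin d → ℝ) (M : ℕ → ℕ) (Z : Bool → ∀ n, Ω n → β n)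
      (y : ∀ n, Fin i → Ω n → ℝ), Cell P x M Z C K → (∀ n j, Pl (x n) D (y n j)) →
      (∀ᶠ n in UF, ∀ H : MvPolynomial (Fin i) ℝ, H ≠ 0 → H.totalDegree ≤ D0 →
        0 < nu (P n) (ev (y n) H)) →
      ∃ Φ : ℕ → Fin k → MvPolynomial (Fin i) ℝ, (∀ n j, (Φ n j).totalDegree ≤ D0 ∧
        ∀ l ∈ (Φ n j).vars, l.1 ≤ j.1) ∧ IND P x M fun n j => ev (y n) (Φ n j) from this i le_rfl
  intro k
  induction k with
  | zero => exact fun _ => ⟨0, fun _ _ _ _ _ _ _ _ _ _ _ =>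
      ⟨fun _ j => j.elim0, fun _ j => j.elim0, ind_zero _⟩⟩
  | succ k ih =>
    intro hk
    obtain ⟨D0, h0⟩ := ih (Nat.le_of_succ_le hk)
    obtain ⟨D1, h1⟩ := ext_poly C D k
    refine ⟨max D0 D1, fun Ω β K P x M Z y h hy hn => ?_⟩
    obtain ⟨Φ, a1, a2⟩ := h0 Ω β K P x M Z y h hy
      (hn.mono fun n u H e e' => u H e (e'.trans (le_max_left _ _)))
    obtain ⟨Q, b1, b2⟩ := h1 (y := fun n j => y n (Fin.castLE hk j)) h a2 (fun n j => hy n _)
      (hn.mono fun n u H e e' => by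
        rw [← ev_rename]
        exact u _ (fun z => e (rename_injective _ (Fin.castLE_injective hk)
          (z.trans (map_zero _).symm))) (((totalDegree_rename_le _ _).trans e').trans (le_max_right _ _)))
    refine ⟨fun n => Fin.snoc (Φ n) (rename (Fin.castLE hk) (Q n)), fun n j => ?_, ?_⟩
    · induction j using Fin.lastCases with
      | last =>
        simp only [Fin.snoc_last]
        refine ⟨((totalDegree_rename_le _ _).trans (b1 n)).trans (le_max_right _ _), fun l hl => ?_⟩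
        obtain ⟨l, -, rfl⟩ := mem_vars_rename _ _ hl
        exact Nat.lt_succ_iff.1 l.2
      | cast j =>
        simp only [Fin.snoc_castSucc]
        exact ⟨(a1 n j).1.trans (le_max_left _ _), (a1 n j).2⟩
    · convert b2.comp (finRotate (k + 1)).injective using 3 with n j
      simp only [Fin.snoc_eq_cons_rotate, ← ev_rename]
      exact (congrFun (Fin.comp_cons (ev (y n)) _ (Φ n)) _)

end Pool.Agent.MP_5168f5_an.QA.GF
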