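import Pool.Agent.MP_5168f5_an.QA.GFCtx
import Pool.Agent.MP_5168f5_an.AN.Api2

/-! Frames from hypotheses in bounded degree. -/

namespace Pool.Agent.MP_5168f5_an.QA.GF

open H19 H17S H17F Filter MvPolynomial R4 AN AN.Cx
open AN.G39 (nu dl NL IND dl_pos dl_anti dl_half dl_lt dl_inv whp_diag exists_imp_of)
open AN.Gc (sg com_fn ev_eq)
open AN.Nc (Pl nuP)

/-- Compactness in the degree. -/
theorem fin_gen {S : Type 1} {H : ℕ → (ℕ → S) → Prop} (hH : ∀ E, CF (S := fun _ => S) (H E))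
    {q : ℕ → S → Prop} (rs : ℕ → S → S) (h1 : ∀ j E s, H E s → H E fun n => rs j (s n))
    (h2 : ∀ j s, q 0 (rs j s) → q j s) (h : ∀ s, (∀ E, H E s) → ∀ᶠ n in UF, q 0 (s n)) :
    ∃ E1, ∀ s, (∀ E ≤ E1, H E s) → ∀ j, ∀ᶠ n in UF, q j (s n) := by
  by_contra k
  simp only [not_exists, not_forall] at k
  choose s hs j e using k
  obtain ⟨k, -, u⟩ := cf_diag (fun E => (hH E).and (cf_ev fun _ s => ¬q 0 s))
    (fun E n => rs (j E) (s E n)) fun E i hi =>
      ⟨h1 _ _ _ (hs E i hi), (not_ev.1 (e E)).mono fun n a b => a (h2 _ _ b)⟩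
  obtain ⟨n, a, b⟩ := ((h _ fun E => (u E).1).and (u 0).2).exists
  exact b a

theorem cmp_div {M : ℕ → ℕ} (hM : Big M) (j : ℕ) : Cmp M fun n => M n / (j + 1) :=
  ⟨2 * (j + 1), (hM.eventually_ge_atTop (j + 1)).mono fun n u => by
    have a := Nat.div_add_mod (M n) (j + 1)
    have b := Nat.mod_lt (M n) j.succ_pos
    have c := Nat.div_pos u j.succ_pos
    exact ⟨by nlinarith, (Nat.div_le_self _ _).trans (by nlinarith)⟩⟩

variable {N C E : ℕ}

/-- No common polynomial of degree at most `E` is `s`-thin with probability more than `ε`. -/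
def NTu {Ω : Type} {β : Bool → Type} (P : FP Ω) (x : Ω → V N) (Z : ∀ b, Ω → β b) (ν : Pl N → ℝ)
    (E : ℕ) (s ε : ℝ) : Prop := ∀ F : ∀ b, β b → Pl N, (∀ b z, (F b z).totalDegree ≤ E) →
  pb P (fun v => F true (Z true v) = F false (Z false v) ∧
    |eval (x v) (F true (Z true v))| < s * ν (F true (Z true v))) ≤ ε

variable {Ω Λ : ℕ → Type} {β : Bool → ℕ → Type} {P : ∀ n, FP (Ω n)} {M : ℕ → ℕ}
  {x : ∀ n, Ω n → V N} {Z : ∀ b n, Ω n → β b n} {A : ∀ n, Ω n → Λ n}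

variable (P M x Z) in
/-- No common polynomial of degree at most `E` is thin relative to the size `ν`. -/
def NTe (ν : ∀ n, Ω n → Pl N → ℝ) (E : ℕ) : Prop :=
  ∀ (c : ℝ) (F : ∀ b n, β b n → Pl N), 0 < c → (∀ b n z, (F b n z).totalDegree ≤ E) →
    Whp P fun n ω => ¬(F true n (Z true n ω) = F false n (Z false n ω) ∧
      |eval (x n ω) (F true n (Z true n ω))| < dl M c n * ν n ω (F true n (Z true n ω)))

theorem nt_iff {ν : ∀ n, Ω n → Pl N → ℝ} : NT P M x Z ν ↔ ∀ E, NTe P M x Z ν E := Iff.rfl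

theorem nt_cq {ν : ∀ n, Λ n → Pl N → ℝ} (hA : Com P Z A)
    (h : NTe P M x Z (fun n ω => ν n (A n ω)) E) {c ε : ℝ} (hc : 0 < c) (hε : 0 < ε) :
    ∀ᶠ w in lo P, ∀ᶠ n in UF,
      NTu (Cx.cq P A w n) (x n) (fun b => Z b n) (ν n (A n (w n))) E (dl M c n) ε := by
  let B : ∀ n, Λ n → (∀ b, β b n → Pl N) → Ω n → Prop := fun n a F v =>
    F true (Z true n v) = F false (Z false n v) ∧ |eval (x n v) (F true (Z true n v))| <
      dl M c n * ν n a (F true (Z true n v))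
  have : ∀ n, Nonempty {F : ∀ b, β b n → Pl N // ∀ b z, (F b z).totalDegree ≤ E} :=
    fun n => ⟨⟨fun _ _ => 0, fun _ _ => by simp⟩⟩
  choose F hF using fun n a => exists_imp_of
    fun F : {F : ∀ b, β b n → Pl N // ∀ b z, (F b z).totalDegree ≤ E} =>
      ε < pb (cv (P n) (A n) a) (B n a F.1)
  choose g _ hg using fun b => com_fn (hA b)
  have h1 : Whp P fun n ω => ¬B n (A n ω) (F n (A n ω)).1 ω :=
    (h c (fun b n z => (F n (g b n z)).1 b z) hc fun b n z => (F n _).2 b z).mono (by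
      filter_upwards [hg true, hg false] with n u v ω e k
      rwa [u ω e, v ω e] at k)
  filter_upwards [(lo_whp (G := fun n a ω => ¬B n a (F n a).1 ω)).2 h1] with w k
  refine (k ε hε).mono fun n u F' e => not_lt.1 fun z => (hF n _ ⟨⟨F', e⟩, z⟩).not_ge ?_
  exact (pb_mono fun _ _ => not_not.2).trans u

theorem nl_of (hM : Big M) (k : ∀ E i j : ℕ, ∀ᶠ n in UF, NTu (P n) (x n) (fun b => Z b n)
    (nuP (P n) (x n)) E (dl M (1 / (i + 1)) n) (1 / (j + 1))) : NL P x M (sg Z) := by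
  classical
  intro E c F hc hF ε hε
  obtain ⟨i, hi⟩ := exists_nat_one_div_lt (half_pos hc)
  obtain ⟨j, hj⟩ := exists_nat_one_div_lt hε
  let q : ∀ n, (Ω n → ℝ) → Pl N := fun n f => if e : AN.G39.Pl (x n) E f then e.choose else 0
  have hq : ∀ a n z, (q n (F a n z)).totalDegree ≤ E ∧
      F a n z = fun u => eval (x n u) (q n (F a n z)) := fun a n z => by
    simp only [q, dif_pos (hF a n z)]
    exact ⟨(hF a n z).choose_spec.1, _root_.funext (hF a n z).choose_spec.2⟩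
  filter_upwards [k E i j, dl_lt hM one_pos (half_pos hc)] with n u v
  refine (pb_mono fun ω _ e => ?_).trans ((u (fun b z => q n (F b n ⟨b, z⟩))
    fun b z => (hq _ _ _).1).trans hj.le)
  obtain ⟨e1, e2, e3⟩ := not_not.1 e
  refine ⟨congrArg (q n) e1, ?_⟩
  rw [nuP, ← (hq _ _ _).2, ← congrFun (hq _ _ _).2 ω]
  refine e3.trans_lt (mul_lt_mul_of_pos_right (lt_of_lt_of_le ?_ (dl_anti M hi.le n)) e2)
  rw [dl_half]
  exact mul_lt_of_lt_one_left (dl_pos _ _ _) v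

/-- One finite system. -/
structure One (N D i D0 : ℕ) : Type 1 where
  W : Type
  β : Bool → Type
  P : FP W
  m : ℕ
  x : W → V N
  Z : ∀ b, W → β b
  y : Fin i → Pl N
  hy : ∀ j, (y j).totalDegree ≤ D

/-- Triangular families of bounded degree. -/
abbrev TF (i D0 : ℕ) : Type :=
  {Φ : Fin i → Pl i // ∀ j, (Φ j).totalDegree ≤ D0 ∧ ∀ l ∈ (Φ j).vars, l ≤ j}

/-- A normalised family without relation of degree at most `E`. -/
def FrE {W : Type} {i : ℕ} (P : FP W) (x : W → V N) (Θ : Fin i → Pl N) (E : ℕ) (s : ℝ) : Prop :=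
  (∀ j, nuP P x (Θ j) ≤ 1) ∧
    ∀ H : Pl i, H.totalDegree ≤ E → ∀ m, s * |coeff m H| ≤ nuP P x (aeval Θ H)

/-- The hypotheses in degree `E`. -/
def Hy {D i D0 : ℕ} (C E : ℕ) (s : ℕ → One N D i D0) : Prop :=
  Big (fun n => (s n).m) ∧ (∀ b, REMe (fun n => (s n).P) (fun n => (s n).x) (fun n => (s n).m)
    (fun n => (s n).Z b) (fun n _ => nu (s n).P) C 1 E) ∧
  (∀ i j : ℕ, ∀ᶠ n in UF, NTu (s n).P (s n).x (s n).Z (nuP (s n).P (s n).x) E
    (Real.exp (-(1 / (i + 1) * (s n).m))) (1 / (j + 1))) ∧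
  ∀ᶠ n in UF, ∀ H : Pl i, H ≠ 0 → H.totalDegree ≤ D0 →
    0 < nuP (s n).P (s n).x (aeval (s n).y H)

theorem cf_hy {D i D0 : ℕ} (C E : ℕ) : CF (S := fun _ => One N D i D0) (Hy C E) :=
  (cf_big (S := fun _ => One N D i D0) fun _ s => s.m).and ((cf_all fun b : Bool => cf_all
    fun R : ℕ => cf_gd (S := fun _ => One N D i D0) (fun _ s => s.P) (fun _ s => s.m)
      fun _ s G Γ => RG s.P s.x (s.Z b) (fun _ => nu s.P) G E C Γ (Real.exp (-(1 * s.m)))
        (Real.exp (-((R : ℝ) * s.m)))).and ((cf_all fun i' : ℕ => cf_all fun j : ℕ =>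
      cf_ev (S := fun _ => One N D i D0) fun _ s => NTu s.P s.x s.Z (nuP s.P s.x) E
        (Real.exp (-(1 / (i' + 1) * s.m))) (1 / (j + 1))).and
      (cf_ev (S := fun _ => One N D i D0) fun _ s => ∀ H : Pl i, H ≠ 0 → H.totalDegree ≤ D0 →
        0 < nuP s.P s.x (aeval s.y H))))

theorem fin_cell (N C D i : ℕ) : ∃ D0, ∀ E0, ∃ E1, ∀ s : ℕ → One N D i D0, (∀ E ≤ E1, Hy C E s) →
    ∀ j : ℕ, ∀ᶠ n in UF, ∃ Φ : TF i D0, FrE (s n).P (s n).x (fun l => aeval (s n).y (Φ.1 l)) E0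
      (Real.exp (-(1 / (j + 1) * (s n).m))) := by
  obtain ⟨D0, h0⟩ := rUD N C D i
  refine ⟨D0, fun E0 => fin_gen (cf_hy C) (q := fun j s => ∃ Φ : TF i D0,
      FrE s.P s.x (fun l => aeval s.y (Φ.1 l)) E0 (Real.exp (-(1 / (j + 1) * s.m))))
    (fun j s => { s with m := s.m / (j + 1) })
    (fun j E s ⟨a, b, c, d⟩ => ⟨(cmp_div a j).big a, fun z R => ?_, fun i' j' => ?_, d⟩)
    (fun j s ⟨Φ, a, b⟩ => ⟨Φ, a, fun H e m => le_trans (mul_le_mul_of_nonneg_right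
      (Real.exp_le_exp.2 (neg_le_neg ?_)) (abs_nonneg _)) (b H e m)⟩) fun s h => ?_⟩
  · obtain ⟨G, Γ, g1, g2, g3⟩ := b z R
    have e : ∀ (c : ℝ) n, 0 ≤ c → dl (fun n => (s n).m) c n ≤ dl (fun n => (s n).m / (j + 1)) c n :=
      fun c n hc => Real.exp_le_exp.2 (neg_le_neg (mul_le_mul_of_nonneg_left
        (Nat.cast_le.2 (Nat.div_le_self _ _)) hc))
    exact ⟨G, Γ, g1, (cmp_div a j).sub g2, g3.mono fun n u ω h1 h2 f hf θ κ l h3 =>
      u ω h1 h2 f hf θ κ ((mul_le_mul_of_nonneg_right (e R n R.cast_nonneg)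
        (AN.G39.nu_nn _ _)).trans l) ((e 1 n zero_le_one).trans h3)⟩
  · obtain ⟨c', h1, h2⟩ := (cmp_div a j).dl (c := 1 / (i' + 1)) (by positivity)
    obtain ⟨i'', h3⟩ := exists_nat_one_div_lt h1
    filter_upwards [c i'' j', h2] with n u v F hF
    exact (pb_mono fun ω _ k => ⟨k.1, k.2.trans_le (mul_le_mul_of_nonneg_right
      (v.trans (dl_anti (fun n => (s n).m) h3.le n)) (AN.G39.nu_nn _ _))⟩).trans (u F hF)
  · simpa [div_eq_inv_mul] using Nat.cast_div_le (α := ℝ) (m := s.m) (n := j + 1)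
  · obtain ⟨Φ, q1, q2⟩ := h0 _ _ 1 (fun n => (s n).P) (fun n => (s n).x) (fun n => (s n).m)
      (sg fun b n => (s n).Z b) (fun n j v => eval ((s n).x v) ((s n).y j))
      ⟨(h 0).1, one_pos, fun a E => rem_sg ((h E).2.1 a), nl_of (h 0).1 fun E => (h E).2.2.1⟩
      (fun n j => ⟨_, (s n).hy j, fun _ => rfl⟩)
      ((h 0).2.2.2.mono fun n u H a b => (u H a b).trans_eq (congrArg (nu _) (ev_eq _ _ H)))
    filter_upwards [q2.ind E0 (1 / ((0 : ℕ) + 1)) (by positivity)] with n u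
    refine ⟨⟨Φ n, q1 n⟩, fun j => (congrArg (nu _) (ev_eq _ _ _)).trans_le (q2.le n j),
      fun H e m => (u H e m).trans_eq (congrArg (nu _) ?_)⟩
    rw [ev_eq]
    simp only [← ev_eq]

/-- A frame in degree `E0` from the hypotheses in degrees at most `E1`. -/
theorem finUD (N C D i : ℕ) : ∃ D0, ∀ E0, ∃ E1, ∀ {Ω Λ : ℕ → Type} {β : Bool → ℕ → Type}
    {P : ∀ n, FP (Ω n)} {M : ℕ → ℕ} {x : ∀ n, Ω n → V N} {Z : ∀ b n, Ω n → β b n}
    {A : ∀ n, Ω n → Λ n} {y : ∀ n, Ω n → Fin i → Pl N}, Big M →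
    (∀ b, ∀ E ≤ E1, REMe P x M (Z b) (nA P A) C 1 E) → Com P Z A →
    NTe P M x Z (fun n => nc (P n) (x n) (A n)) E1 → FnE P y A →
    (∀ n ω j, (y n ω j).totalDegree ≤ D) → (Whp P fun n ω => ∀ H : Pl i, H ≠ 0 →
      H.totalDegree ≤ D0 → 0 < nc (P n) (x n) (A n) ω (aeval (y n ω) H)) →
    ∃ Φ : ∀ n, Ω n → Fin i → Pl i, FnE P Φ A ∧ (∀ n ω j, (Φ n ω j).totalDegree ≤ D0) ∧
      (∀ n ω, AN.Vo.Tri (Φ n ω)) ∧ ∀ c, 0 < c → Whp P fun n ω =>
        FrE (cv (P n) (A n) (A n ω)) (x n) (fun l => aeval (y n ω) (Φ n ω l)) E0 (dl M c n) := by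
  obtain ⟨D0, h0⟩ := fin_cell N C D i
  refine ⟨D0, fun E0 => (h0 E0).imp fun E1 h1 Ω Λ β P M x Z A y hM hR hA hN hy hD hn => ?_⟩
  have : Nonempty (TF i D0) := ⟨⟨0, by simp⟩⟩
  let p : ℕ → ∀ n, Λ n × (Fin i → Pl N) → TF i D0 → Prop := fun j n a Φ =>
    FrE (cv (P n) (A n) a.1) (x n) (fun l => aeval a.2 (Φ.1 l)) E0 (dl M (1 / (j + 1)) n)
  obtain ⟨k, k1, k2⟩ := whp_diag (P := P) (G := fun j n ω => ∃ Φ, p j n (A n ω, y n ω) Φ) fun j =>
    lo_ev.1 (by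
      filter_upwards [lo_all fun E => (em (E ≤ E1)).elim (fun e => ((rem_cq (hR true E e)
          (hA true)).and (rem_cq (hR false E e) (hA false))).mono fun _ a (_ : E ≤ E1) => a)
          fun e => Eventually.of_forall fun _ a => absurd a e,
        lo_all fun i : ℕ => lo_all fun j : ℕ => nt_cq (ν := fun n a => nuP (cv (P n) (A n) a)
          (x n)) hA hN (c := 1 / (i + 1)) (ε := 1 / (j + 1)) (by positivity) (by positivity),
        lo_ev.2 hn] with w a b c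
      exact h1 (fun n => ⟨Ω n, fun b => β b n, Cx.cq P A w n, M n, x n, fun b => Z b n, y n (w n),
        hD n _⟩) (fun E e => ⟨hM, fun z => by cases z; exacts [(a E e).2, (a E e).1], fun i j =>
          (b i j).mono fun n u F hF => u F fun b z => (hF b z).trans e, c⟩) j)
  choose Φ hΦ using fun n a => exists_imp_of (p (k n) n a)
  refine ⟨fun n ω => (Φ n (A n ω, y n ω)).1, hy.mono fun n u v e v' e' z => by
    simp only [z, u v e v' e' z], fun n ω j => ((Φ n _).2 j).1, fun n ω j => ((Φ n _).2 j).2,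
    fun c hc => k2.mono ((K31.small hc k1).mono fun n u ω _ v => ?_)⟩
  obtain ⟨a, b⟩ := hΦ n _ (v _ le_rfl)
  exact ⟨a, fun H e m => (mul_le_mul_of_nonneg_right (dl_anti M u n) (abs_nonneg _)).trans
    (b H e m)⟩

end Pool.Agent.MP_5168f5_an.QA.GF
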