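import Pool.Agent.MP_5168f5_an.QA.GFCh
import Pool.Agent.MP_5168f5_an.AN.G39Ud

/-! Genericity in a minimal cell with a floor. -/

namespace Pool.Agent.MP_5168f5_an.QA.GF

open H19 H17S H17F Filter MvPolynomial
open AN.G39 hiding RG REM Cell fwd fwd1

variable {Ω β : ℕ → Type} {d C : ℕ} {P : ∀ n, FP (Ω n)} {x : ∀ n, Ω n → Fin d → ℝ} {M : ℕ → ℕ}
  {Z : Bool → ∀ n, Ω n → β n} {K : ℝ}

theorem Cell.nu_nm (h : Cell P x M Z C K) {σ : Type} [Finite σ] {φ : ∀ n, σ → Ω n → ℝ}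
    (hφ : IND P x M φ) (E : ℕ) (c : ℝ) : ∀ᶠ n in UF, ∀ m H, Nm E m H →
      dl M (⌈c⌉₊ + 2 : ℕ) n * nu (P n) (ev (φ n) H) ≤ dl M c n := by
  obtain ⟨D, hD⟩ := hφ.pl
  have : Nonempty {H : MvPolynomial σ ℝ // H.totalDegree ≤ E} := ⟨⟨0, by simp⟩⟩
  refine (R4.unif (A := fun _ => {H : MvPolynomial σ ℝ // H.totalDegree ≤ E})
    (h := fun _ H => ∀ m, |coeff m H.1| ≤ 1)
    (p := fun n H => nu (P n) (ev (φ n) H.1) ≤ (dl M 1 n)⁻¹ * (dl M 1 n)⁻¹) fun H e =>
      h.nu_le (fun n => pl_ev (hD n) (H n).2) ((whp_CG (x := x) h.big D).mono ?_).pos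
        one_pos).mono fun n u m H e => ?_
  · filter_upwards [e, sub_dl (((Sub.nat h.big).pow E).const_mul h.big
      (C := (TT σ E).card + 1) (by simp)) one_pos] with n u v ω _ k
    refine (ev_le (H n).2 u ((Sub.nat h.big).1 n) fun i => (k _ (hD n i)).trans
      (mul_le_of_le_one_right (by positivity) (hφ.le n i))).trans (le_trans ?_ v)
    rw [one_mul]
    exact mul_le_mul_of_nonneg_right (lt_add_one _).le (by positivity)
  · refine (mul_le_mul_of_nonneg_left (u ⟨H, e.1⟩ e.2.2) (dl_pos _ _ _).le).trans ?_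
    rw [dl_neg, ← dl_add, ← dl_add]
    exact dl_anti M (by push_cast; linarith [Nat.le_ceil c]) n

theorem Cell.nl' (h : Cell P x M Z C K) (a : Bool) {E : ℕ} {c : ℝ} (hc : 0 < c)
    {F F' : ∀ n, β n → Ω n → ℝ} (h1 : ∀ n z, Pl (x n) E (F n z)) (h2 : ∀ n z, Pl (x n) E (F' n z)) :
    Whp P fun n ω => ¬(F n (Z a n ω) = F' n (Z (!a) n ω) ∧ 0 < nu (P n) (F n (Z a n ω)) ∧
      |F n (Z a n ω) ω| ≤ dl M c n * nu (P n) (F n (Z a n ω))) := by
  cases a
  · exact (h.nl E c (fun s => cond s F' F) hc fun s => by cases s <;> assumption).mono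
      (Eventually.of_forall fun n ω _ u v => u ⟨v.1.symm, by
        have := v.2
        rw [v.1] at this
        exact this⟩)
  · exact h.nl E c (fun s => cond s F F') hc fun s => by cases s <;> assumption

theorem Cell.gen_step (h : Cell P x M Z C K) {i : ℕ} {φ : ∀ n, Fin (i + 1) → Ω n → ℝ}
    (hφ : IND P x M φ) (a : Bool) (w : List Bool)
    (ih : ∀ (j : Fin (i + 1)) E, Gen P Z M ((!a) :: w) (fun n l => φ n (j.succAbove l)) E) (E : ℕ) :
    Gen P Z M (a :: (!a) :: w) φ E := by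
  classical
  induction E using Nat.strong_induction_on with | _ E IH => ?_
  intro c0 κ hc0 hκ
  have hM := h.big
  rcases E.eq_zero_or_pos with rfl | hE
  · exact Whp.of_ev ((dl_lt hM one_pos hc0).mono fun n u _ _ => not_bad0 u hκ)
  by_contra k
  obtain ⟨D, hD⟩ := hφ.pl
  let B : ∀ n, β n → (Fin (i + 1) →₀ ℕ) → MvPolynomial (Fin (i + 1)) ℝ → Prop := fun n z m H =>
    Nm E m H ∧ κ ≤ (cv (P n) (Z a n) z).E
      (tp (P n) (fun a => Z a n) ((!a) :: w) fun v => |ev (φ n) H v| ≤ dl M c0 n)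
  obtain ⟨⟨m, hm⟩, p1⟩ := pos_ex (J := TT (Fin (i + 1)) E)
    (A := fun m n ω => ∃ H, B n (Z a n ω) m H) ((not_whp k).mono (Eventually.of_forall
      fun n ω _ u => by
        obtain ⟨m, hm, H, u1, u2⟩ := (not_not.1 u).nm
        exact ⟨⟨m, hm⟩, H, u1, u2.trans_eq (tp_cons (P n) (fun a => Z a n) a _
          (fun v => |ev (φ n) H v| ≤ dl M c0 n) ω)⟩))
  choose H hH using fun n z => exists_imp_of (B n z m)
  let S : ∀ n, Ω n → Ω n → Prop := fun n ω v => |ev (φ n) (H n (Z a n ω)) v| ≤ dl M c0 n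
  have p2 : Pos P fun n ω => B n (Z a n ω) m (H n (Z a n ω)) ∧
      κ / 2 ≤ tp (P n) (fun a => Z a n) ((!a) :: w) (S n ω) ω := by
    obtain ⟨p, hp, e⟩ := p1
    refine ⟨κ / 2 * p, by positivity, e.mono fun n u => ?_⟩
    refine (mul_le_mul_of_nonneg_left (u.trans (pb_mono fun ω _ => hH n _)) (half_pos hκ).le).trans
      (pb_fib (P n) (Z a n) (fun z => B n z m (H n z)) (fun z ω => κ / 2 ≤ tp (P n) (fun a => Z a n)
        ((!a) :: w) (fun v => |ev (φ n) (H n z) v| ≤ dl M c0 n) ω) fun ω _ v => ?_)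
    exact rev_markov _ (fun _ _ => pb_le_one _ _) hκ.le v.2
  obtain ⟨G1, g1, g1'⟩ := good_dom hM P x Z (a :: (!a) :: w)
  obtain ⟨G2, g2, g2'⟩ := good_nb (· < E) IH
  obtain ⟨G3, g3, g3'⟩ := good_dom hM P x Z ((!a) :: w)
  choose G4 g4 g4' using fun j => good_nb (fun _ => True) fun E _ => ih j E
  obtain ⟨Γ, g5, g5'⟩ := h.back (E * D) (⌈c0⌉₊ + 2) ((!a) :: w) _ (half_pos hκ)
  obtain ⟨p, hp, p3⟩ := p2.and ((g1.and (g2.and (g3.and (Whp.all g4)))).and
    (g5'.and (whp_CG (x := x) hM D)))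
  choose r hr using fun n => ovl2 (P n) (Z (!a) n)
    (fun z => H17F.bind (cv (P n) (Z (!a) n) z) (ker (P n) (fun a => Z a n) w)) _
    (fun ω t => S n ω (en w t.1 t.2)) (half_pos hκ) fun ω _ (u : (B n (Z a n ω) m (H n (Z a n ω)) ∧
      κ / 2 ≤ tp (P n) (fun a => Z a n) ((!a) :: w) (S n ω) ω) ∧ (G1 n ω ∧ G2 n ω ∧ G3 n ω ∧
      ∀ j, G4 j n ω) ∧ (∀ f, Pl (x n) (E * D) f → ∀ θ : ℝ,
        dl M (⌈c0⌉₊ + 2 : ℕ) n * nu (P n) f ≤ θ → κ / 2 ≤ tp (P n) (fun a => Z a n)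
        ((!a) :: w) (fun v => |f v| ≤ θ) ω → |f ω| ≤ Γ n * θ) ∧
      CG (P n) (x n) D (M n + 1) ω) => u.1.2
  have p4 : Pos P _ := ⟨(κ / 2) ^ 2 / 2 * p, by positivity, p3.mono fun n u =>
    (mul_le_mul_of_nonneg_left u (by positivity)).trans (hr n)⟩
  have : ∀ n, Nonempty (Ω n × Ω n) := fun n => (fp_ne (P n)).elim fun v => ⟨(v, v)⟩
  obtain ⟨c2, hc2, e2⟩ := unifC (A := fun n => Ω n × Ω n) (h := fun n v =>
      B n (Z a n v.1) m (H n (Z a n v.1)) ∧ (G1 n v.1 ∧ G2 n v.1 ∧ G3 n v.1 ∧ ∀ j, G4 j n v.1) ∧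
      Nm E m (H n (Z a n v.2)) ∧ (κ / 2) ^ 2 / 2 ≤ pb (ker (P n) (fun a => Z a n) ((!a) :: w) v.1)
        fun t => S n v.1 (en ((!a) :: w) v.1 t) ∧ S n v.2 (en ((!a) :: w) v.1 t))
      (p := fun c n v => ∀ m' ∈ TT (Fin (i + 1)) E,
        |coeff m' (H n (Z a n v.1)) - coeff m' (H n (Z a n v.2))| ≤ dl M c n)
      (fun c c' n v e u m' hm' => (u m' hm').trans (dl_anti M e n)) fun v hv => by
    obtain ⟨Q, q1, q2, q3⟩ := lift_nm (hM := hM) (hv.mono fun n u => u.1.1)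
    obtain ⟨Q', q1', q2', q3'⟩ := lift_nm (hM := hM) (hv.mono fun n u => u.2.2.1)
    have i1 := irr (hM := hM) (fun l => (g1' _ (hv.mono fun n u => u.2.1.1)).bb hM
      (fun n => hD n l) fun n => hφ.le n l) (g2' _ (hv.mono fun n u => u.2.1.2.1)) (Q := Q)
      (fun z => by simp [z] at q3) hc0 ⟨κ, hκ, by
        filter_upwards [hv, q2] with n u e
        rw [e]
        exact u.1.2.trans_eq (tp_cons (P n) (fun a => Z a n) a _ (S n (v n).1) (v n).1).symm⟩
    have i2 : E ≤ (map (rd hM) Q).totalDegree := (i1 _ 1 (mul_one _).symm).resolve_right (by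
      rw [totalDegree_one]; omega)
    have i3 := (deg_map (rd hM) Q).trans q1
    rcases rAlg1 _ _ _ _ m q3 q3' (hE.trans_le i2) (((deg_map _ _).trans q1').trans i2)
      (fun A B e => (i1 A B e).imp i3.trans i3.trans) with e | ⟨j, A, B, R, h0, e⟩
    · obtain ⟨c, hc, u⟩ := os_fin (M := M) (TT (Fin (i + 1)) E)
        (a := fun m' => (coeff m' Q - coeff m' Q').1) fun m' _ => (rd_eq (hM := hM)).1 (by
          rw [map_sub, ← coeff_map, ← coeff_map, e, sub_self])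
      refine ⟨c, hc, ?_⟩
      filter_upwards [u, q2, q2'] with n u e e' m' hm'
      rw [← e, ← e', coeff_map, coeff_map]
      exact u m' hm'
    · refine absurd (no_bez (hM := hM) (fun l => (g3' _ (hv.mono fun n u => u.2.1.2.2.1)).bb hM
        (fun n => hD n l) fun n => hφ.le n l)
        (fun E => g4' j _ (hv.mono fun n u => u.2.1.2.2.2 j) E trivial) hc0
        ⟨(κ / 2) ^ 2 / 2, by positivity, ?_⟩ e) h0
      filter_upwards [hv, q2, q2'] with n u e e'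
      rw [e, e']
      exact u.2.2.2
  obtain ⟨ρ, ρ', b1, b2⟩ := rRnd Ω β β P (Z a) (Z (!a)) _ (TT (Fin (i + 1)) E)
    (fun n z m' => coeff m' (H n z)) (fun n z m' => coeff m' (H n (Z a n (r n z)))) (dl M c2)
    (fun n ω => Nm E m (H n (Z a n ω)) ∧ |ev (φ n) (H n (Z a n ω)) ω| ≤ Γ n * dl M c0 n ∧
      ∀ l, |φ n l ω| ≤ M n + 1) (dl_pos M c2) (p4.mono ((e2.and (h.nu_nm hφ E c0)).mono fun n e ω _ u =>
      ⟨⟨u.1.1.1.1, u.1.2.2.1 _ (pl_ev (hD n) u.1.1.1.1.1) _ (e.2 _ _ u.1.1.1.1) u.1.1.2, fun l =>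
        (u.1.2.2.2 _ (hD n l)).trans (mul_le_of_le_one_right (by positivity) (hφ.le n l))⟩,
        e.1 (ω, r n (Z (!a) n ω)) ⟨u.1.1.1, u.1.2.1, u.2.1.1.1.1, u.2.2⟩⟩))
  have dg : ∀ {u : (Fin (i + 1) →₀ ℕ) → ℝ}, (ofc (TT (Fin (i + 1)) E) u).totalDegree ≤ E :=
    deg_ofc _ fun m => mem_TT.1
  have c3 : 0 < min c0 c2 / 3 := by positivity
  refine b2.not_whp ((h.nl' a c3 (F := fun n z => ev (φ n) (ofc (TT (Fin (i + 1)) E) (ρ n z)))
    (F' := fun n z => ev (φ n) (ofc (TT (Fin (i + 1)) E) (ρ' n z))) (fun n z => pl_ev (hD n) dg)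
    fun n z => pl_ev (hD n) dg).mono ?_)
  filter_upwards [hφ.ind E _ c3, dl_lt hM (K := 1 / 8) (by norm_num) hc2, sub_dl (((g5.add
    ((((Sub.nat hM).pow E).const_mul hM (C := 4) (by norm_num)).const_mul hM
      (C := (TT (Fin (i + 1)) E).card + 1) (by simp)) hM)).const_mul hM (C := 2) one_le_two) c3]
    with n e1 e2 e3 ω _ u v
  have f1 := e1 _ (dg (u := ρ n (Z a n ω))) m
  have f2 := b1 n (Z a n ω) m
  rw [coeff_ofc, if_pos hm] at f1
  rw [v.1.1.2.1] at f2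
  have f3 : 1 / 2 ≤ |ρ n (Z a n ω) m| := by linarith [(abs_le.1 f2).1, le_abs_self (ρ n (Z a n ω) m)]
  have q := dl_pos M (min c0 c2 / 3) n
  have f4 : dl M (min c0 c2 / 3) n / 2 ≤ _ := le_trans (by nlinarith) f1
  refine u ⟨by rw [ofc, ofc, Finset.sum_congr rfl fun m' hm' => by rw [v.2 m' hm']],
    (half_pos q).trans_le f4, ?_⟩
  have f5 : |ev (φ n) (ofc (TT (Fin (i + 1)) E) (ρ n (Z a n ω)) - H n (Z a n ω)) ω| ≤ _ :=
    ev_le ((totalDegree_sub _ _).trans (max_le dg v.1.1.1)) (s := 4 * dl M c2 n) (fun m' => by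
      rw [coeff_sub, coeff_ofc]
      split_ifs with e
      · exact b1 n _ m'
      · rw [coeff_zero_of v.1.1.1 e, sub_zero, abs_zero]; linarith [dl_pos M c2 n])
      ((Sub.nat hM).1 n) v.1.2.2
  have f9 : dl M (min c0 c2) n = dl M (min c0 c2 / 3) n ^ 3 := by rw [dl_pow]; congr 1; push_cast; ring
  rw [ev, map_sub] at f5
  exact fin_num q (g5.pos n).le (Nat.cast_nonneg _) (by positivity) f5 v.1.2.1
    ((dl_anti M (min_le_left c0 c2) n).trans_eq f9) ((dl_anti M (min_le_right c0 c2) n).trans_eq f9)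
    e3 f4

theorem Cell.gen (h : Cell P x M Z C K) : ∀ (i : ℕ) (φ : ∀ n, Fin i → Ω n → ℝ), IND P x M φ →
    ∀ a E, Gen P Z M (alt a (i + 1)) φ E
  | 0, _, _, _, _ => fun _ _ hc hκ => Whp.of_ev ((dl_lt h.big one_pos hc).mono
      fun _ u _ _ ⟨H, m, _, b⟩ => not_bad0 u hκ ⟨H, m, by rw [eq_C_of_isEmpty H]; simp, b⟩)
  | i + 1, _, hφ, a, E => h.gen_step hφ a _
      (fun j E => h.gen i _ (hφ.comp j.succAbove_right_injective) (!a) E) E

variable {f : ∀ n, Ω n → ℝ} {E : ℕ}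

theorem Cell.rel (h : Cell P x M Z C K) {k : ℕ} {φ : ∀ n, Fin k → Ω n → ℝ} (hφ : IND P x M φ)
    (hf : ∀ n, Pl (x n) E (f n)) (h1 : ∀ n, nu (P n) (f n) ≤ 1)
    (hn : ¬IND P x M fun n => (Fin.cons (f n) (φ n) : Fin (k + 1) → Ω n → ℝ)) :
    ∃ p : Polynomial (MvPolynomial (Fin k) (OO h.big)),
      OS M (fun n => nu (P n) (pv (φ n) (f n) (tm _ n) p)) ∧
      ¬OS M (fun n => nu (P n) (pv (φ n) (f n) (tm _ n) p.derivative)) ∧
      (¬OS M (fun n => nu (P n) (f n)) → map (rd _) (p.coeff 0) ≠ 0) := by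
  obtain ⟨D, hD⟩ := hφ.pl
  let ψ : Fin k → BB P h.big := fun i =>
    ⟨_, (dom_id h.big).bb h.big (fun n => hD n i) fun n => hφ.le n i⟩
  let g : BB P h.big := ⟨_, (dom_id h.big).bb h.big hf h1⟩
  let J := (NN P h.big).comap (Th ψ g)
  have hJ : ∀ p, p ∈ J ↔ OS M fun n => nu (P n) (pv (φ n) (f n) (tm _ n) p) := fun p => by
    obtain ⟨E', e⟩ := pl_pv hD hf p
    refine ⟨fun ⟨c, hc, u⟩ => h.os e hc (u.pos.mono (Eventually.of_forall fun n ω _ v => ?_)),
      fun u => ((dom_id h.big).small h.big e u).imp fun c v =>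
        ⟨v.1, v.2.mono (Eventually.of_forall fun n ω _ v => ?_)⟩⟩
    · rwa [Th_apply] at v
    · rwa [Th_apply]
  have : J.IsPrime := ⟨(Ideal.ne_top_iff_one _).2 fun ⟨c, hc, u⟩ => by
      obtain ⟨n, ⟨ω, -, a⟩, b⟩ := (u.pos.ex.and (dl_lt h.big one_pos hc)).exists
      rw [map_one] at a
      exact absurd (a.trans_lt b) (by simp), fun {p q} ⟨c, hc, u⟩ => by
    obtain ⟨_, e⟩ := pl_pv hD hf p
    obtain ⟨_, e'⟩ := pl_pv hD hf q
    refine (pos_or (u.pos.mono (Eventually.of_forall fun n ω _ v => ?_))).imp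
      (fun u => (hJ p).2 (h.os e (half_pos hc) u)) fun u => (hJ q).2 (h.os e' (half_pos hc) u)
    by_contra z
    push Not at z
    rw [Th_apply, pv, Polynomial.eval₂_mul, abs_mul, dl_half] at v
    exact absurd v (not_le.2 (mul_lt_mul'' z.1 z.2 (dl_pos _ _ _).le (dl_pos _ _ _).le))⟩
  let ρ := Polynomial.mapRingHom (map (σ := Fin k) (rd h.big))
  have hρ : Function.Surjective ρ := Polynomial.map_surjective _ (map_surjective _ rd_surj)
  have hk : RingHom.ker ρ ≤ J := fun p hp => by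
    rw [p.as_sum_support_C_mul_X_pow]
    refine Ideal.sum_mem _ fun i _ => Ideal.mul_mem_right _ _ ?_
    rw [Ideal.mem_comap, Th_C]
    exact evB_ker _ (by rw [← Polynomial.coeff_map]; exact congrArg (·.coeff i) hp)
  have hm : ∀ p, ρ p ∈ J.map ρ ↔ p ∈ J := fun p => by
    rw [← Ideal.mem_comap, Ideal.comap_map_of_surjective ρ hρ,
      ← RingHom.ker_eq_comap_bot, sup_eq_left.2 hk]
  obtain ⟨p, a, b, c⟩ := rAlg2 _ (J.map ρ) (Ideal.map_isPrime_of_surjective hρ hk) (fun z =>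
    hn (ind_of h.big ⟨max E D, fun n i => Fin.cases ((hf n).mono (le_max_left _ _))
      (fun i => (hD n i).mono (le_max_right _ _)) i⟩ (fun n i => Fin.cases (h1 n) (hφ.le n) i)
      fun Q h0 u => by
        have e : ∀ n, pv (φ n) (f n) (tm _ n) (finSuccEquiv _ k Q) =
            ev (Fin.cons (f n) (φ n) : Fin (k + 1) → Ω n → ℝ) (map (tm _ n) Q) := fun n => by
          funext ω
          rw [ev_map]
          refine RingHom.congr_fun (?_ : (Polynomial.eval₂RingHom (eval₂Hom (tm _ n) fun i => φ n i ω)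
            (f n ω)).comp (finSuccEquiv _ k).toRingEquiv.toRingHom = _) Q
          refine ringHom_ext (fun a => by simp [finSuccEquiv_apply]) fun i => ?_
          refine Fin.cases ?_ (fun i => ?_) i <;> simp [finSuccEquiv_apply]
        have := (hm _).2 ((hJ (finSuccEquiv _ k Q)).2 (by simpa only [e] using u))
        rw [z, Ideal.mem_bot] at this
        refine h0 (MvPolynomial.ext _ _ fun m => ?_)
        have := congrArg (fun p => coeff m.tail (Polynomial.coeff p (m 0))) this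
        simpa only [ρ, Polynomial.coe_mapRingHom, Polynomial.coeff_map, coeff_map,
          finSuccEquiv_coeff_coeff, Finsupp.cons_tail, Polynomial.coeff_zero, coeff_zero] using this))
    fun r hr => by
      obtain ⟨r, -, rfl⟩ := lift_rd r
      by_contra z
      have := (hJ _).1 ((hm (Polynomial.C r)).1 (by simpa [ρ] using hr))
      refine hφ.not_os z ?_
      convert this using 3 with n
      funext ω
      rw [pv, Polynomial.eval₂_C, ev_map]
  obtain ⟨p, rfl⟩ := hρ p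
  refine ⟨p, (hJ p).1 ((hm p).1 a), fun u => b ?_, fun u => ?_⟩
  · have := (hm _).2 ((hJ _).2 u)
    simpa only [ρ, Polynomial.coe_mapRingHom, Polynomial.derivative_map] using this
  · have := c fun v => u (by
      have := (hJ _).1 ((hm Polynomial.X).1 (by simpa [ρ] using v))
      convert this using 3 with n
      funext ω
      rw [pv, Polynomial.eval₂_X])
    simpa only [ρ, Polynomial.coe_mapRingHom, Polynomial.coeff_map] using this

theorem Cell.gen' (h : Cell P x M Z C K) {k : ℕ} {φ : ∀ n, Fin k → Ω n → ℝ} (hφ : IND P x M φ)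
    {w : List Bool} (hw : ∀ E, Gen P Z M w φ E) (V : ∀ n, (Ω n → ℝ) → Prop)
    (hV : ∀ n f, V n f → Pl (x n) E f ∧ nu (P n) f = 1)
    (hn : ∀ f : ∀ n, Ω n → ℝ, (∀ n, V n (f n) ∨ f n = fun _ => 0) →
      ¬IND P x M fun n => (Fin.cons (f n) (φ n) : Fin (k + 1) → Ω n → ℝ)) {c κ : ℝ} (hc : 0 < c)
    (hκ : 0 < κ) : Whp P fun n ω =>
      ∀ f, V n f → tp (P n) (fun a => Z a n) w (fun v => |f v| ≤ dl M c n) ω < κ := by
  classical
  by_contra z
  have hM := h.big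
  obtain ⟨D, hD⟩ := hφ.pl
  obtain ⟨G1, g1, g1'⟩ := good_dom hM P x Z w
  obtain ⟨G2, g2, g2'⟩ := good_nb (fun _ => True) fun E _ => hw E
  have : ∀ n, Nonempty (Ω n × (Ω n → ℝ)) := fun n => (fp_ne (P n)).elim fun v => ⟨(v, 0)⟩
  have e := R4.unif (A := fun n => Ω n × (Ω n → ℝ)) (h := fun n v => G1 n v.1 ∧ G2 n v.1 ∧
      V n v.2 ∧ κ ≤ tp (P n) (fun a => Z a n) w (fun u => |v.2 u| ≤ dl M c n) v.1)
      (p := fun _ _ => False) fun v hv => by
    exfalso
    let f : ∀ n, Ω n → ℝ := fun n => if V n (v n).2 then (v n).2 else fun _ => 0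
    have f0 : ∀ᶠ n in UF, f n = (v n).2 := hv.mono fun n u => if_pos u.2.2.1
    have f1 : ∀ n, V n (f n) ∨ f n = fun _ => 0 := fun n => by
      by_cases u : V n (v n).2
      · exact Or.inl (by simpa only [f, if_pos u] using u)
      · exact Or.inr (if_neg u)
    have f2 : ∀ n, Pl (x n) E (f n) := fun n => (f1 n).elim (fun u => (hV n _ u).1)
      fun u => u ▸ pl_const 0
    have f3 : ∀ n, nu (P n) (f n) ≤ 1 := fun n => (f1 n).elim (fun u => (hV n _ u).2.le)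
      fun u => by rw [u]; simp [nu, FP.E_const]
    obtain ⟨p, a, -, b⟩ := h.rel hφ f2 f3 (hn f f1)
    have b' := b fun ⟨c', hc', u⟩ => by
      obtain ⟨n, u1, u2, u3, u4⟩ := (u.and (f0.and (hv.and (dl_lt hM one_pos hc')))).exists
      simp only [u2, (hV n _ u3.2.2.1).2, abs_one] at u1
      linarith
    have hp : Pos (fun n => ker (P n) (fun a => Z a n) w (v n).1) fun n t =>
        |f n (en w (v n).1 t)| ≤ dl M c n := ⟨κ, hκ, by
      filter_upwards [hv, f0] with n u e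
      rw [e]; exact u.2.2.2⟩
    have dm : Dom P x M (fun n => cE (ker (P n) (fun a => Z a n) w (v n).1) fun t =>
        |f n (en w (v n).1 t)| ≤ dl M c n) fun n => en w (v n).1 := fun E =>
      (g1' _ (hv.mono fun n u => u.1) E).cE hp
    let ψ := fun i => (⟨_, dm.bb hM (fun n => hD n i) fun n => hφ.le n i⟩ : BB _ hM)
    let g : BB _ hM := ⟨_, dm.bb hM f2 f3⟩
    have m1 : g ∈ NN _ hM := nn_cE hp hc (Eventually.of_forall fun _ _ u => u)
    obtain ⟨E', e'⟩ := pl_pv hD f2 p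
    have m2 : Th ψ g p ∈ NN _ hM := (dm.small hM e' a).imp fun c u =>
      ⟨u.1, u.2.mono (Eventually.of_forall fun n t _ u => by rw [Th_apply]; exact u)⟩
    rw [← p.divX_mul_X_add, map_add, map_mul, Th_X, Th_C] at m2
    obtain ⟨c', hc', u⟩ := pos_cE hp ((Ideal.add_mem_iff_right _ (Ideal.mul_mem_left _ _ m1)).1 m2)
    exact (g2' _ (hv.mono fun n u => u.2.1) _ trivial).not_pos le_rfl b' hc'
      (u.mono (Eventually.of_forall fun n t _ u => by rwa [evB_apply] at u))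
  obtain ⟨n, ⟨ω, -, u1, u2⟩, u3⟩ := (((not_whp z).and (g1.and g2)).ex.and e).exists
  push Not at u1
  obtain ⟨f, u4, u5⟩ := u1
  exact u3 (ω, f) ⟨u2.1, u2.2, u4, u5⟩

end Pool.Agent.MP_5168f5_an.QA.GF
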