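import Pool.Agent.MP_5168f5_an.QA.GFFin

/-! A nice frame for a norm that has no thin common polynomial of bounded degree. -/

namespace Pool.Agent.MP_5168f5_an.QA.GF

open H19 H17S H17F Filter MvPolynomial R4 AN AN.Cx
open AN.G39 (nu dl dl_pos dl_anti dl_add dl_inv exists_imp_of big_dl)
open AN.Nc (Pl nuP ev jac NiceAt Bas nice_nu jac_ne_zero ord eval_aeval kc ex_coeff)
open AN.Vo (Wp one_le_ex)
open AN.Pk (cn mons)

variable {N C E E' : ℕ} {Ω Λ T : ℕ → Type} {β : Bool → ℕ → Type} {P : ∀ n, FP (Ω n)} {M : ℕ → ℕ}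
  {x : ∀ n, Ω n → V N} {Z : ∀ b n, Ω n → β b n} {A : ∀ n, Ω n → Λ n} {Y : ∀ n, Ω n → T n}
  {ν ν' : ∀ n, Ω n → Pl N → ℝ}

theorem NTe.mono (h : NTe P M x Z ν E) (e : E' ≤ E) : NTe P M x Z ν E' :=
  fun c F hc hF => h c F hc fun b n z => (hF b n z).trans e

theorem NTe.of_le (h : NTe P M x Z ν E)
    (e : Whp P fun n ω => ∀ F : Pl N, F.totalDegree ≤ E → ν' n ω F ≤ ν n ω F) :
    NTe P M x Z ν' E := fun c F hc hF => ((h c F hc hF).and e).mono (Eventually.of_forall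
  fun _ _ _ k u => k.1 ⟨u.1, u.2.trans_le
    (mul_le_mul_of_nonneg_left (k.2 _ (hF _ _ _)) (dl_pos _ _ _).le)⟩)

/-- A polynomial that is read from the label is not small. -/
theorem NTe.low (h : NTe P M x Z ν E) (hA : Com P Z A) {F : ∀ n, Ω n → Pl N} (e : FnE P F A)
    (hE : ∀ n ω, (F n ω).totalDegree ≤ E) :
    Wp P M fun n L ω => ν n ω (F n ω) ≤ L * |eval (x n ω) (F n ω)| := fun c hc => by
  refine (h c (fun b n z => F n (sec (P n) (Z b n) z)) hc fun _ _ _ => hE _ _).mono ?_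
  filter_upwards [fnE_trans e (hA true), fnE_trans e (hA false)] with n a b ω hω k
  rw [fn_sec a hω, fn_sec b hω] at k
  rw [← dl_inv]
  exact (le_inv_mul_iff₀ (dl_pos M c n)).2 (not_lt.1 fun u => k ⟨rfl, u⟩)

/-- The norm is at most the quadratic mean of the cell. -/
theorem NTe.le_nc (h : NTe P M x Z ν E) (hM : Big M) (hA : Com P Z A) (e : FnE P ν A) :
    Wp P M fun n L ω => ∀ F : Pl N, F.totalDegree ≤ E →
      ν n ω F ≤ L * nc (P n) (x n) (A n) ω F := fun c hc => by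
  refine (whp_all (Q := A) (T := fun _ => {F : Pl N // F.totalDegree ≤ E})
    (fun _ => ⟨⟨0, by simp⟩⟩) (p := fun n ω F => ν n ω F.1 ≤
      Real.exp (c * M n) * nc (P n) (x n) (A n) ω F.1) ?_ fun a ha => ?_).mono
    (Eventually.of_forall fun _ _ _ k F hF => k ⟨F, hF⟩)
  · exact e.mono fun n k u hu v hv z => by simp only [k u hu v hv z, fn_nc _ _ _ u hu v hv z]
  · exact wp_sq (q := fun n L ω => ν n ω (a n ω).1 ≤ L * nc (P n) (x n) (A n) ω (a n ω).1)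
      ((h.low hA (fnE_comp ha fun _ s => s.1) fun n ω => (a n ω).2).and (nc_gd hM x A E))
      (Eventually.of_forall fun n L l ω _ k => k.1.trans ((mul_le_mul_of_nonneg_left
        (k.2 _ (a n ω).2) (zero_le_one.trans l)).trans_eq (mul_assoc _ _ _).symm)) c hc

variable (P M x Y ν) in
/-- All polynomials of degree at most `E` are constant on the cells of `Y` up to a negligible
multiple of the norm. -/
def VCell (E : ℕ) : Prop := ∀ R : ℕ, ∀ᶠ n in UF, ∀ ω ∈ (P n).S, ∀ v ∈ (P n).S, Y n v = Y n ω →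
  ∀ F : Pl N, F.totalDegree ≤ E → |eval (x n ω) F - eval (x n v) F| ≤ dl M R n * ν n ω F

theorem VCell.rem (hM : Big M) (h : VCell P M x Y ν E) (e : Wp P M fun n L ω => ∀ F : Pl N,
    F.totalDegree ≤ E → ν n ω F ≤ L * nc (P n) (x n) (A n) ω F) (hE : E' ≤ E) (K : ℝ) :
    REMe P x M Y (nA P A) C K E' := fun R => by
  refine ⟨_, _, e 1 one_pos, hM.sub one_le_two, (h (R + 1)).mono
    fun n u ω h1 h2 f ⟨F, f1, f2⟩ θ κ l h3 h4 => ?_⟩
  have k0 := (dl_pos _ _ _).trans_le h3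
  obtain ⟨v, v1, v2⟩ := ex_of_pb (k0.trans_le h4)
  obtain ⟨v3, v4⟩ := (mem_cv h1 v).1 v1
  obtain rfl : f = fun ω => eval (x n ω) F := _root_.funext f2
  have a1 := (u ω h1 v v3 v4 F (f1.trans hE)).trans (mul_le_mul_of_nonneg_left
    (h2 F (f1.trans hE)) (dl_pos _ _ _).le)
  rw [← mul_assoc, ← dl_inv, Nat.cast_succ, dl_add, mul_inv_cancel_right₀ (dl_pos _ _ _).ne'] at a1
  have a2 := abs_sub_abs_le_abs_sub (eval (x n ω) F) (eval (x n v) F)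
  have a3 : 1 ≤ κ⁻¹ ^ (C * E') := one_le_pow₀ ((one_le_inv₀ k0).2 (h4.trans (pb_le_one _ _)))
  have a4 := v2.2
  have a5 : dl M R n * nc (P n) (x n) (A n) ω F ≤ θ := l
  nlinarith [abs_nonneg (eval (x n v) F)]

/-- The frame of a norm without thin common polynomial of a kind and of its cells. -/
theorem geoT (N C : ℕ) : ∃ D0, ∀ E0 E K Nb, ∃ E1, ∀ {Ω Λ : ℕ → Type} {β : Bool → ℕ → Type}
    {P : ∀ n, FP (Ω n)} {M : ℕ → ℕ} {x : ∀ n, Ω n → V N} {Z : ∀ b n, Ω n → β b n}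
    {A : ∀ n, Ω n → Λ n} {ν : ∀ n, Ω n → Pl N → ℝ}, Big M → Com P Z A → FnE P ν A →
    (∀ᶠ n in UF, ∀ ω ∈ (P n).S, Bas (ν n ω) E Nb ∧ ∀ F : Pl N, F.totalDegree ≤ E1 →
      |eval (x n ω) F| ≤ ν n ω F ∧ (F ≠ 0 → 0 < ν n ω F)) → NTe P M x Z ν E1 →
    (∀ E ≤ E1, REMe P x M (Z true) (nA P A) C 1 E) → VCell P M x (Z false) ν E1 →
    ∃ Θ : ∀ n, Ω n → Fin N → Pl N, FnE P Θ A ∧ (∀ n ω j, (Θ n ω j).totalDegree ≤ D0) ∧
      (∀ n ω, AN.Vo.Tri (Θ n ω)) ∧ Wp P M fun n L ω => (∀ j, ν n ω (Θ n ω j) ≤ L) ∧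
        (∀ H : Pl N, H.totalDegree ≤ E0 → cn H ≤ L * nc (P n) (x n) (A n) ω (aeval (Θ n ω) H)) ∧
        ∃ σ, NiceAt (Θ n ω) (ν n ω) D0 E K L (x n ω) σ := by
  classical
  obtain ⟨D0, h0⟩ := finUD N C 1 N
  refine ⟨D0, fun E0 E K Nb => ?_⟩
  obtain ⟨L, c, B, hB, hn⟩ := nice_nu N D0 E K Nb
  obtain ⟨E2, h1⟩ := h0 (E0 + L + N * ord N D0)
  refine ⟨E2 + L * D0 + D0 + E, fun {Ω Λ β P M x Z A ν} hM hA hν hs hN hR hV => ?_⟩
  have a1 := hN.le_nc hM hA hν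
  have a2 : ∀ᶠ n in UF, ∀ ω ∈ (P n).S, ∀ F : Pl N, F.totalDegree ≤ E2 + L * D0 + D0 + E →
      nc (P n) (x n) (A n) ω F ≤ ν n ω F := by
    filter_upwards [hs, hν] with n u k ω hω F hF
    exact nu_le fun v hv => k v ((mem_cv hω v).1 hv).1 ω hω ((mem_cv hω v).1 hv).2 ▸
      ((u v ((mem_cv hω v).1 hv).1).2 F hF).1
  obtain ⟨Θ, b1, b2, b3, b4⟩ := h1 (y := fun _ _ => X) hM (fun b E' e => by
      cases b
      · exact hV.rem hM a1 (by omega) 1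
      · exact hR E' (by omega)) hA ((hN.of_le (Whp.of_ev a2)).mono (by omega))
    (Eventually.of_forall fun _ _ _ _ _ _ => rfl) (fun _ _ j => (totalDegree_X j).le)
    ((a1 1 one_pos).mono (hs.mono fun n u ω hω k H e e' => by
      rw [aeval_X_left_apply]
      exact AN.G39.pos_mul_left (Real.exp_pos _)
        ((((u ω hω).2 H (by omega)).2 e).trans_le (k H (by omega)))))
  simp only [aeval_X_left_apply] at b4
  have b5 : Wp P M fun n l ω => (∀ j, nc (P n) (x n) (A n) ω (Θ n ω j) ≤ 1) ∧ ∀ H : Pl N,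
      H.totalDegree ≤ E0 + L + N * ord N D0 → ∀ m,
        |coeff m H| ≤ l * nc (P n) (x n) (A n) ω (aeval (Θ n ω) H) := fun a a0 =>
    (b4 a a0).mono (Eventually.of_forall fun n ω _ k => ⟨k.1, fun H e m => by
      rw [← dl_inv]
      exact (le_inv_mul_iff₀ (dl_pos M a n)).2 (k.2 H e m)⟩)
  have c1 : Wp P M fun n l ω => ∀ j, ν n ω (Θ n ω j) ≤ l := wp_mono (a1.and b5)
    (Eventually.of_forall fun n l l1 ω _ k j => (k.1 _ ((b2 n ω j).trans (by omega))).trans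
      (mul_le_of_le_one_right (zero_le_one.trans l1) (k.2.1 j)))
  refine ⟨Θ, b1, b2, b3, c1.and (AN.Vo.Wp.and (b5.of hM (mons (Fin N) E0).card 1
    (Eventually.of_forall fun n l l' l1 l2 ω _ k H e => ?_)) (AN.Vo.Wp.of (p' := fun n l ω =>
      ∃ σ, NiceAt (Θ n ω) (ν n ω) D0 E K (B * (l ^ 3) ^ c) (x n ω) σ) (fun a a0 => ?_) hM B (3 * c)
      (Eventually.of_forall fun n l l' k e ω _ ⟨σ, h⟩ =>
        ⟨σ, h.mono (by positivity) (by rwa [← pow_mul]) le_rfl le_rfl⟩)))⟩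
  · obtain ⟨m, hm⟩ := ex_coeff e
    refine (hm.trans (mul_le_mul_of_nonneg_left (k.2 H (by omega) m) (Nat.cast_nonneg _))).trans ?_
    rw [← mul_assoc]
    exact mul_le_mul_of_nonneg_right (by rwa [pow_one] at l2) (nc_nn _ _ _ _ _)
  obtain ⟨l, hl⟩ : ∃ l : ℕ → ℝ, l = fun n => Real.exp (a * M n) := ⟨_, rfl⟩
  have l1 : ∀ n, 1 ≤ l n := hl ▸ one_le_ex M a0
  have hex : ∀ n (s : (Fin N → Pl N) × (Pl N → ℝ)), ∃ H : Pl N, H.totalDegree ≤ L ∧
      ((∀ i, (s.1 i).totalDegree ≤ D0) → jac s.1 ≠ 0 → Bas s.2 E Nb → cn H = 1 ∧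
      ∀ ω ∈ (P n).S, ‖ev s.1 (x n ω)‖ ≤ l n ^ 3 → AN.Vo.Gd s.2 E (l n ^ 3) (x n ω) →
        (l n ^ 3)⁻¹ ≤ |eval (x n ω) (aeval s.1 H)| →
        ∃ σ, NiceAt s.1 s.2 D0 E K (B * (l n ^ 3) ^ c) (x n ω) σ) := fun n s => by
    by_cases k : (∀ i, (s.1 i).totalDegree ≤ D0) ∧ jac s.1 ≠ 0 ∧ Bas s.2 E Nb
    · obtain ⟨H, g1, g2, g3⟩ := hn s.1 s.2 (l n ^ 3) (∑ ω ∈ (P n).S, ‖x n ω‖)
        (one_le_pow₀ (l1 n)) k.1 k.2.1 k.2.2
      exact ⟨H, g2, fun _ _ _ => ⟨g1, fun ω hω k1 k2 k3 => g3 _ (Finset.single_le_sum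
        (f := fun ω => ‖x n ω‖) (fun _ _ => norm_nonneg _) hω) k1 k2 (by rwa [← eval_aeval])⟩⟩
    · exact ⟨0, by simp, fun k1 k2 k3 => absurd ⟨k1, k2, k3⟩ k⟩
  choose H g1 g2 using hex
  have dg : ∀ n ω, (aeval (Θ n ω) (H n (Θ n ω, ν n ω))).totalDegree ≤ E2 + L * D0 + D0 + E :=
    fun n ω => (kc.deg _ _ L D0 (g1 n _) (b2 n ω)).trans (by omega)
  refine ((c1 a a0).and ((b5 a a0).and (hN.low hA (by
    filter_upwards [b1, hν] with n u v y e y' e' z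
    simp only [u y e y' e' z, v y e y' e' z]) dg a a0))).mono ?_
  filter_upwards [hs, a2, big_dl hM (mons (Fin N) L).card a0] with n s1 s2 s3 ω hω ⟨k1, k2, k3⟩
  obtain ⟨c1, c2⟩ := g2 n (Θ n ω, ν n ω) (b2 n ω) (jac_ne_zero (b2 n ω) fun G hd e =>
    MvPolynomial.ext _ _ fun m => abs_nonpos_iff.1 (by
      have := k2.2 G (by omega) m
      rw [show aeval (Θ n ω) G = 0 from e] at this
      simpa [nc, nu, FP.E_const] using this)) (s1 ω hω).1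
  have p := l1 n
  rw [dl_inv] at s3
  rw [show Real.exp (a * M n) = l n by rw [hl]] at *
  have q : l n ≤ l n ^ 3 := le_self_pow₀ p (by simp)
  refine c2 ω hω ((pi_norm_le_iff_of_nonneg (by positivity)).2 fun i =>
    (((s1 ω hω).2 _ ((b2 n ω i).trans (by omega))).1.trans (k1 i)).trans q) (fun F hF => ?_) ?_
  · have := ((s1 ω hω).2 F (by omega)).1
    exact this.trans (le_mul_of_one_le_left ((abs_nonneg _).trans this) (p.trans q))
  obtain ⟨m, hm⟩ := ex_coeff (g1 n (Θ n ω, ν n ω))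
  have e1 := (k2.2 _ ((g1 n _).trans (by omega)) m).trans
    (mul_le_mul_of_nonneg_left ((s2 ω hω _ (dg n ω)).trans k3) (by positivity))
  have e2 := hm.trans (mul_le_mul s3 e1 (abs_nonneg _) (by positivity))
  rw [inv_le_iff_one_le_mul₀' (by positivity)]
  linarith

end Pool.Agent.MP_5168f5_an.QA.GF
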