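import Pool.Agent.MP_5168f5_an.QA.HDefs

/-! Sums of independent variables, and convolution: basic facts. -/

namespace Pool.Agent.MP_5168f5_an.QA

open H19 H17S H17F MX Filter

section EL

variable {Ω Ω' : Type}

theorem EL_mono (l : List (FP Ω × (Ω → ℝ))) {h h' : ℝ → ℝ} (e : ∀ u, h u ≤ h' u) :
    EL l h ≤ EL l h' := by
  induction l generalizing h h' with
  | nil => exact e 0
  | cons a l ih => exact a.1.E_mono fun ω _ => ih fun u => e _

theorem EL_const (l : List (FP Ω × (Ω → ℝ))) (c : ℝ) : EL l (fun _ => c) = c := by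
  induction l with
  | nil => rfl
  | cons a l ih => simp only [EL, ih, FP.E_const]

theorem EL_add (l : List (FP Ω × (Ω → ℝ))) (h h' : ℝ → ℝ) :
    EL l (fun u => h u + h' u) = EL l h + EL l h' := by
  induction l generalizing h h' with
  | nil => rfl
  | cons a l ih => simp only [EL, ih, FP.E_add]

theorem EL_mul (l : List (FP Ω × (Ω → ℝ))) (c : ℝ) (h : ℝ → ℝ) :
    EL l (fun u => c * h u) = c * EL l h := by
  induction l generalizing h with
  | nil => rfl
  | cons a l ih =>
    simp only [EL, ih, FP.E, Finset.mul_sum]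
    exact Finset.sum_congr rfl fun ω _ => by ring

theorem EL_sum {J : Type} (l : List (FP Ω × (Ω → ℝ))) (s : Finset J) (h : J → ℝ → ℝ) :
    EL l (fun u => ∑ j ∈ s, h j u) = ∑ j ∈ s, EL l (h j) := by
  classical
  induction s using Finset.induction_on with
  | empty => simpa using EL_const l 0
  | insert a s ha ih => simp only [Finset.sum_insert ha, EL_add, ih]

theorem EL_E (l : List (FP Ω × (Ω → ℝ))) (Q : FP Ω') (h : Ω' → ℝ → ℝ) :
    EL l (fun u => Q.E fun ω => h ω u) = Q.E fun ω => EL l (h ω) := by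
  simp only [FP.E, EL_sum, EL_mul]

theorem mn_nil : mn ([] : List (FP Ω × (Ω → ℝ))) = 0 := rfl

theorem mn_cons (a : FP Ω × (Ω → ℝ)) (l : List (FP Ω × (Ω → ℝ))) :
    mn (a :: l) = a.1.E a.2 + mn l := by simp [mn]

end EL

section Alg

open AddMonoidAlgebra

theorem rv_single (x : ℤ) (r : ℝ) : rv (single x r) = single (-x) r := mapDomain_single

theorem rv_coeff (f : AZ) (y : ℤ) : (rv f).coeff y = f.coeff (-y) := by
  induction f using AddMonoidAlgebra.induction_linear with
  | zero => simp
  | add f g a b => simp [a, b]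
  | single x r =>
    rw [rv_single]
    simp only [coeff_single, Finsupp.single_apply, neg_eq_iff_eq_neg]

theorem rv_rv (f : AZ) : rv (rv f) = f := by
  ext y; rw [rv_coeff, rv_coeff, neg_neg]

theorem db_rv (f : AZ) : db (rv f) = db f := by rw [db, db, rv_rv, mul_comm]

theorem db_mul (f g : AZ) : db (f * g) = db f * db g := by
  simp only [db, map_mul]; ring

theorem mul_coeff (f g : AZ) (y : ℤ) :
    (f * g).coeff y = ∑ x ∈ f.coeff.support, f.coeff x * g.coeff (y - x) := by
  rw [coeff_mul_apply_left]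
  exact Finset.sum_congr rfl fun x _ => by simp only [neg_add_eq_sub]

/-- The iterated difference is a product of copies and reflected copies. -/
theorem db_list (k : ℕ) (f : AZ) : ∃ l : List AZ, l.length = 2 ^ k ∧
    (∀ g ∈ l, g = f ∨ g = rv f) ∧ l.prod = db^[k] f := by
  induction k with
  | zero => exact ⟨[f], rfl, by simp, by simp⟩
  | succ k ih =>
    obtain ⟨l, a, b, c⟩ := ih
    refine ⟨l ++ l.map rv, by simp [a, pow_succ, mul_two], fun g hg => ?_, ?_⟩
    · rcases List.mem_append.1 hg with h | h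
      · exact b g h
      · obtain ⟨g', h1, rfl⟩ := List.mem_map.1 h
        rcases b g' h1 with rfl | rfl
        · exact Or.inr rfl
        · exact Or.inl (rv_rv _)
    · rw [List.prod_append, ← map_list_prod, c, Function.iterate_succ_apply', db]

variable {Ω Ω' : Type}

theorem sl_coeff (Q : FP Ω) (s : Ω → ℤ) (G : Ω → Prop) (y : ℤ) :
    (sl Q s G).coeff y = pb Q fun ω => G ω ∧ s ω = y := by
  classical
  simp only [sl, coeff_sum, coeff_single, Finsupp.coe_finsetSum, Finset.sum_apply,
    Finsupp.single_apply, pb, FP.E]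
  exact Finset.sum_congr rfl fun ω _ => by by_cases a : G ω <;> by_cases b : s ω = y <;> simp [a, b]

theorem rv_sl (Q : FP Ω) (s : Ω → ℤ) (G : Ω → Prop) : rv (sl Q s G) = sl Q (fun ω => -s ω) G := by
  simp only [sl, map_sum, rv_single]

open Classical in
theorem sl_mul_coeff (Q : FP Ω) (s : Ω → ℤ) (G : Ω → Prop) (f : AZ) (y : ℤ) :
    (sl Q s G * f).coeff y = Q.E fun ω => if G ω then f.coeff (y - s ω) else 0 := by
  simp only [sl, Finset.sum_mul, coeff_sum, Finsupp.coe_finsetSum, Finset.sum_apply,
    coeff_single_mul_apply, FP.E]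
  exact Finset.sum_congr rfl fun ω _ => by by_cases a : G ω <;> simp [a, neg_add_eq_sub]

end Alg

end Pool.Agent.MP_5168f5_an.QA
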