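import Pool.Agent.MP_5168f5_an.QA.HAlg

/-! Flat iterated differences: closure properties on one space. -/

namespace Pool.Agent.MP_5168f5_an.QA

open H19 H17S H17F MX R4.K31 Filter

variable {Ω Ω' T T' : Type} {P : FP Ω} {X Y : Ω → ℝ} {K : Ω → T} {K' : Ω → T'} {k : ℕ}
  {ε ε' B B' L L' : ℝ}

theorem pb_nand (P : FP Ω) (E F : Ω → Prop) :
    pb P (fun ω => ¬(E ω ∧ F ω)) ≤ pb P (fun ω => ¬E ω) + pb P fun ω => ¬F ω :=
  (pb_mono fun _ _ h => not_and_or.1 h).trans (pb_or _ _ _)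

theorem markov (P : FP Ω) {F : Ω → ℝ} (h : ∀ ω ∈ P.S, 0 ≤ F ω) (c : ℝ) :
    c * pb P (fun ω => c ≤ F ω) ≤ P.E F := by
  unfold pb
  rw [← FP.E_mul]
  refine P.E_mono fun ω hω => ?_
  split_ifs with a
  · simpa using a
  · simpa using h ω hω

theorem Ht.mono (h : Ht k P X K ε B) (e : ε ≤ ε') (e' : B ≤ B') : Ht k P X K ε' B' :=
  h.imp fun _ a => ⟨a.1.trans e, fun ω hω => (a.2 ω hω).mono e'⟩

theorem Ht.succ (h : Ht k P X K ε B) : Ht (k + 1) P X K ε B :=
  h.imp fun _ a => ⟨a.1, fun ω hω => (a.2 ω hω).succ⟩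

theorem Ht.up {k' : ℕ} (h : Ht k P X K ε B) (e : k ≤ k') : Ht k' P X K ε B := by
  induction e with
  | refl => exact h
  | step _ ih => exact ih.succ

theorem ht_one (k : ℕ) (P : FP Ω) (X : Ω → ℝ) (K : Ω → T) : Ht k P X K 0 1 :=
  ⟨fun _ => True, (pb_zero fun _ _ a => a trivial).le, fun _ _ => en_one _ _ _ _⟩

theorem Ht.nonneg (h : Ht k P X K ε B) : 0 ≤ B := by
  obtain ⟨G, -, a⟩ := h
  obtain ⟨ω, hω, -⟩ := ex_of_pb (P := P) (E := fun _ => True) (by rw [pb_true]; norm_num)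
  exact (a ω hω).nonneg (nn_sl _ _ _)

theorem Ht.congr (h : Ht k P X K ε B) (e : ∀ ω ∈ P.S, ⌊Y ω⌋ = ⌊X ω⌋) : Ht k P Y K ε B :=
  h.imp fun G a => ⟨a.1, fun ω hω => by
    have : sl (cv P K (K ω)) (fun v => ⌊Y v⌋) G = sl (cv P K (K ω)) (fun v => ⌊X v⌋) G :=
      Finset.sum_congr rfl fun v hv => by simp only [e v (cE_sub hv)]
    rw [this]; exact a.2 ω hω⟩

/-- A coarser context. -/
theorem Ht.coarse (h : Ht k P X K ε B) (e : Fn P K' K) : Ht k P X K' ε B := by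
  have hB := h.nonneg
  obtain ⟨G, a, b⟩ := h
  refine ⟨G, a, fun ω hω => ?_⟩
  have := En.dom (k := k) (C := 1) (g := sl (cv P K' (K' ω)) (fun v => ⌊X v⌋) G)
    (cv P K' (K' ω)).S (cv P K' (K' ω)).p (fun u => sl (cv P K (K u)) (fun v => ⌊X v⌋) G)
    (fun u hu => (FP.pos _ u hu).le) (FP.sum_one _).le hB
    (fun u hu => ⟨nn_sl _ _ _, b u (cE_sub hu)⟩) (nn_sl _ _ _) fun y => by
      simp only [sl_coeff]
      refine (pb_cv _ K _).trans_le (FP.E_mono _ fun u hu => le_of_eq ?_)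
      obtain ⟨h1, h2⟩ := (mem_cv hω u).1 hu
      rw [cv, cv, cv, cE_cE (E := fun x => K' x = K' ω) (E' := fun x => K x = K u) ⟨u, h1, h2, rfl⟩,
        cE_congr fun v hv => ⟨fun c => c.2, fun c => ⟨(e v hv u h1 c).trans h2, c⟩⟩]
  rwa [one_pow, one_mul] at this

/-- Side information that is not too unlikely. -/
theorem Ht.side (h : Ht k P X K ε B) (hL : 0 ≤ L)
    (e : pb P (fun ω => ¬1 ≤ L * cm P K K' ω) ≤ ε') :
    Ht k P X (fun ω => (K' ω, K ω)) (ε + ε') (L ^ 2 ^ k * B) := by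
  obtain ⟨G, a, b⟩ := h
  refine ⟨fun ω => G ω ∧ 1 ≤ L * cm P K K' ω, (pb_nand _ _ _).trans (add_le_add a e),
    fun ω hω => (b ω hω).le (nn_sl _ _ _) (nn_sl _ _ _) hL fun y => ?_⟩
  simp only [sl_coeff]
  by_cases c : 1 ≤ L * cm P K K' ω
  · have e1 : cv P (fun ω => (K' ω, K ω)) (K' ω, K ω) = cE (cv P K (K ω)) fun v => K' v = K' ω := by
      rw [cv, cv, cE_cE (E := fun x => K x = K ω) (E' := fun x => K' x = K' ω) ⟨ω, hω, rfl, rfl⟩]
      exact cE_congr fun v _ => by simp [and_comm]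
    have e2 := pb_cE (cv P K (K ω)) (fun v => K' v = K' ω)
      fun v => (G v ∧ 1 ≤ L * cm P K K' v) ∧ ⌊X v⌋ = y
    have e3 : pb (cv P K (K ω)) (fun v => K' v = K' ω ∧ (G v ∧ 1 ≤ L * cm P K K' v) ∧ ⌊X v⌋ = y) ≤
        pb (cv P K (K ω)) fun v => G v ∧ ⌊X v⌋ = y := pb_mono fun _ _ u => ⟨u.2.1.1, u.2.2⟩
    rw [e1]
    refine (le_mul_of_one_le_left (pb_nonneg _ _) c).trans ?_
    rw [mul_assoc]
    exact mul_le_mul_of_nonneg_left (e2.trans_le e3) hL
  · rw [pb_zero fun v hv u => c ?_]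
    · exact mul_nonneg hL (pb_nonneg _ _)
    · have := Prod.mk.inj ((mem_cv (Θ := fun ω => (K' ω, K ω)) hω v).1 hv).2
      rw [← cm_congr this.2 this.1]; exact u.1.2

/-- The points whose value and context are good with probability at least one half. -/
theorem half {α : Type} (P : FP Ω) (s : Ω → α) (K : Ω → T) (G : Ω → Prop) : ∃ G' : Ω → Prop,
    pb P (fun ω => ¬G' ω) ≤ 2 * pb P (fun ω => ¬G ω) ∧
      ∀ v ∈ P.S, G' v → cm P K s v ≤ 2 * pb (cv P K (K v)) fun u => G u ∧ s u = s v := by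
  refine ⟨fun v => 1 / 2 ≤ pb (cv P (fun u => (s u, K u)) (s v, K v)) G, ?_, fun v hv c => ?_⟩
  · have := markov P (F := fun v => pb (cv P (fun u => (s u, K u)) (s v, K v)) fun u => ¬G u)
      (fun _ _ => pb_nonneg _ _) (1 / 2)
    rw [← pb_cv P fun u => (s u, K u)] at this
    refine (pb_mono (F := fun v => 1 / 2 ≤ pb (cv P (fun u => (s u, K u)) (s v, K v)) fun u => ¬G u)
      fun v _ c => ?_).trans (by linarith)
    rw [pb_not]; linarith [not_le.1 c]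
  · have e1 : cv P (fun u => (s u, K u)) (s v, K v) = cE (cv P K (K v)) fun u => s u = s v := by
      rw [cv, cv, cE_cE (E := fun x => K x = K v) (E' := fun x => s x = s v) ⟨v, hv, rfl, rfl⟩]
      exact cE_congr fun u _ => by simp [and_comm]
    have e2 := pb_cE (cv P K (K v)) (fun u => s u = s v) G
    rw [pb_congr (F := fun u => G u ∧ s u = s v) fun _ _ => and_comm] at e2
    replace c : 1 / 2 ≤ pb (cv P (fun u => (s u, K u)) (s v, K v)) G := c
    rw [e1] at c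
    rw [← e2]
    have := mul_le_mul_of_nonneg_left c (pb_nonneg (cv P K (K v)) fun u => s u = s v)
    unfold cm
    linarith

/-- A context that changes the conditional probabilities by a bounded factor. -/
theorem Ht.info (h : Ht k P X K ε B) (hL : 0 ≤ L)
    (e : pb P (fun ω => ¬cm P (fun v => (K' v, K v)) (fun v => ⌊X v⌋) ω ≤
      L * cm P K (fun v => ⌊X v⌋) ω) ≤ ε') :
    Ht k P X (fun ω => (K' ω, K ω)) (2 * ε + ε') ((2 * L) ^ 2 ^ k * B) := by
  obtain ⟨G, a, b⟩ := h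
  obtain ⟨G', c, d⟩ := half P (fun v => ⌊X v⌋) K G
  refine ⟨fun ω => G' ω ∧ _, (pb_nand _ _ _).trans (add_le_add (by linarith) e),
    fun ω hω => (b ω hω).le (nn_sl _ _ _) (nn_sl _ _ _) (by positivity) fun y => ?_⟩
  simp only [sl_coeff]
  refine le_of_not_gt fun q => ?_
  obtain ⟨v, hv, ⟨g1, g2⟩, g3⟩ := ex_of_pb ((mul_nonneg (by positivity) (pb_nonneg _ _)).trans_lt q)
  obtain ⟨h1, h2⟩ := (mem_cv (Θ := fun ω => (K' ω, K ω)) hω v).1 hv
  have g4 := mul_le_mul_of_nonneg_left (d v h1 g1) hL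
  rw [← h2, ← g3, ← (Prod.mk.inj h2).2] at q
  refine absurd (q.trans_le (pb_mono (F := fun u => ⌊X u⌋ = ⌊X v⌋) fun _ _ u => u.2)) (not_lt.2 ?_)
  exact g2.trans (by linarith)

/-- The conditional probabilities of the values are small. -/
theorem Ht.out (h : Ht k P X K ε B) :
    pb P (fun ω => ¬cm P K (fun v => ⌊X v⌋) ω ^ 2 ^ k ≤ 2 ^ 2 ^ k * B) ≤ 2 * ε := by
  obtain ⟨G, a, b⟩ := h
  obtain ⟨G', c, d⟩ := half P (fun v => ⌊X v⌋) K G
  refine (pb_mono fun v hv u g => u ?_).trans (c.trans (by linarith))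
  have := (b v hv).low (nn_sl _ _ _) ⌊X v⌋
  rw [sl_coeff] at this
  refine (pow_le_pow_left₀ (cm_pos _ _ hv).le (d v hv g) _).trans ?_
  rw [mul_pow]
  exact mul_le_mul_of_nonneg_left this (by positivity)

/-- Refinements of the law. -/
theorem Ht.dn (h : Ht k P X K ε B) {Q : FP Ω'} {ρ : Ω' → Ω} {C : ℝ} (hD : Dn C Q ρ P)
    (hL : 0 < L) :
    Ht k Q (fun v => X (ρ v)) (fun v => K (ρ v)) (C * ε + L⁻¹) ((C * L) ^ 2 ^ k * B) := by
  classical
  obtain ⟨G, a, b⟩ := h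
  have c0 : 0 ≤ C := zero_le_one.trans hD.one_le
  have q0 : ∀ v ∈ Q.S, 0 < pb Q fun u => K (ρ u) = K (ρ v) := fun v hv => pb_pos _ ⟨v, hv, rfl⟩
  refine ⟨fun v => G (ρ v) ∧ pb P (fun u => K u = K (ρ v)) ≤ L * pb Q fun u => K (ρ u) = K (ρ v),
    (pb_nand _ _ _).trans (add_le_add ((hD.pb_le fun ω => ¬G ω).trans
      (mul_le_mul_of_nonneg_left a c0)) ?_), fun v hv =>
    (b _ (hD.mem hv)).le (nn_sl _ _ _) (nn_sl _ _ _) (by positivity) fun y => ?_⟩
  · have m := markov Q (F := fun v => pb P (fun u => K u = K (ρ v)) / pb Q fun u => K (ρ u) = K (ρ v))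
      (fun v _ => div_nonneg (pb_nonneg _ _) (pb_nonneg _ _)) L
    have e : Q.E (fun v => pb P (fun u => K u = K (ρ v)) / pb Q fun u => K (ρ u) = K (ρ v)) ≤ 1 := by
      have e1 : ∀ v, pb P (fun u => K u = K (ρ v)) / pb Q (fun u => K (ρ u) = K (ρ v)) =
          ∑ u ∈ P.S, P.p u / pb Q (fun w => K (ρ w) = K u) * if K (ρ v) = K u then 1 else 0 := by
        intro v
        rw [pb, FP.E, Finset.sum_div]
        exact Finset.sum_congr rfl fun u _ => by
          by_cases c : K u = K (ρ v)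
          · simp [c]
          · simp [c, Ne.symm c]
      simp only [e1, FP.E_sum, FP.E_mul]
      refine (Finset.sum_le_sum fun u hu => ?_).trans P.sum_one.le
      have e2 : (Q.E fun v => if K (ρ v) = K u then 1 else 0) = pb Q fun w => K (ρ w) = K u :=
        Q.E_congr fun _ _ => by congr
      rw [e2, div_mul_eq_mul_div, mul_div_assoc]
      exact mul_le_of_le_one_right (P.pos u hu).le (div_self_le_one _)
    rw [← mul_one L⁻¹, le_inv_mul_iff₀ hL]
    exact (mul_le_mul_of_nonneg_left (pb_mono fun v hv c =>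
      (le_div_iff₀ (q0 v hv)).2 (not_le.1 c).le) hL.le).trans (m.trans e)
  · simp only [sl_coeff]
    by_cases c : pb P (fun u => K u = K (ρ v)) ≤ L * pb Q fun u => K (ρ u) = K (ρ v)
    · refine le_of_mul_le_mul_left ?_ (q0 v hv)
      rw [cv, pb_cE]
      refine (pb_mono (F := fun u => K (ρ u) = K (ρ v) ∧ G (ρ u) ∧ ⌊X (ρ u)⌋ = y)
        fun _ _ u => ⟨u.1, u.2.1.1, u.2.2⟩).trans
        ((hD.pb_le fun u => K u = K (ρ v) ∧ G u ∧ ⌊X u⌋ = y).trans ?_)
      rw [← pb_cE, cv]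
      have := mul_le_mul_of_nonneg_left (mul_le_mul_of_nonneg_right c
        (pb_nonneg (cE P fun u => K u = K (ρ v)) fun u => G u ∧ ⌊X u⌋ = y)) c0
      linarith
    · rw [pb_zero fun u hu g => c ?_]
      · exact mul_nonneg (by positivity) (pb_nonneg _ _)
      · rw [← ((mem_cv (Θ := fun v => K (ρ v)) hv u).1 hu).2]; exact g.1.2

/-- From an event of large probability to the whole space. -/
theorem Ht.of_cE {E : Ω → Prop} (h : Ht k (cE P E) X K ε B) (e : pb P (fun ω => ¬E ω) ≤ ε') :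
    Ht k P X K (ε + ε') B := by
  have hB := h.nonneg
  obtain ⟨G, a, b⟩ := h
  refine ⟨fun ω => E ω ∧ G ω, ?_, fun ω hω => ?_⟩
  · have e1 := pb_cE P E fun ω => ¬G ω
    have e2 := mul_le_mul (pb_le_one P E) a (pb_nonneg _ _) zero_le_one
    refine (pb_mono (F := fun ω => (E ω ∧ ¬G ω) ∨ ¬E ω) fun _ _ u => by tauto).trans
      ((pb_or _ _ _).trans (by linarith))
  · by_cases c : ∃ v ∈ P.S, E v ∧ K v = K ω
    · obtain ⟨v, hv, c1, c2⟩ := c
      have := (b v ((mem_cE ⟨v, hv, c1⟩ v).2 ⟨hv, c1⟩)).le (C := 1) (nn_sl _ _ _)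
        (nn_sl (cv P K (K ω)) (fun v => ⌊X v⌋) fun ω => E ω ∧ G ω) zero_le_one fun y => by
          simp only [sl_coeff]
          rw [cv, cv, c2, cE_cE ⟨v, hv, c1, c2⟩, cE_congr (E' := fun u => K u = K ω ∧ E u)
            fun _ _ => and_comm, ← cE_cE ⟨v, hv, c2, c1⟩,
            pb_congr (F := fun u => E u ∧ G u ∧ ⌊X u⌋ = y) fun _ _ => and_assoc, ← pb_cE]
          exact mul_le_mul_of_nonneg_right (pb_le_one _ _) (pb_nonneg _ _)
      rwa [one_pow, one_mul] at this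
    · have := (en_one k P (fun _ => 0) E).le (C := 0) (nn_sl _ _ _)
        (nn_sl (cv P K (K ω)) (fun v => ⌊X v⌋) fun ω => E ω ∧ G ω) le_rfl fun y => by
          rw [zero_mul, sl_coeff]
          exact (pb_zero fun v hv u => c ⟨v, cE_sub hv, u.1.1, ((mem_cv hω v).1 hv).2⟩).le
      exact this.mono (by simpa using hB)

/-- Near affine images with coefficients read from the context. -/
theorem Ht.aff (h : Ht k P X K ε B) {c b : Ω → ℝ} (hc : Fn P c K) (hb : Fn P b K) (hL : 1 ≤ L)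
    (e : ∀ ω ∈ P.S, 1 ≤ L * |c ω| ∧ |c ω| ≤ L ∧ |Y ω - c ω * X ω - b ω| ≤ L) :
    Ht k P Y K ε ((6 * 2 ^ k * L ^ 2 + 1) * B) := by
  obtain ⟨G, a, d⟩ := h
  refine ⟨G, a, fun ω hω => (En.aff k (c := c ω) (b := b ω) (L := 3 * L) (L' := L) (by linarith)
    (by linarith) (e ω hω).1 (fun v hv _ => ?_) (d ω hω)).mono (le_of_eq (by ring))⟩
  obtain ⟨h1, h2⟩ := (mem_cv hω v).1 hv
  obtain ⟨-, e2, e3⟩ := e v h1
  rw [← hc v h1 ω hω h2, ← hb v h1 ω hω h2]
  have a1 : |c v * (X v - ⌊X v⌋)| ≤ L := by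
    rw [abs_mul]
    refine (mul_le_of_le_one_right (abs_nonneg _) (abs_le.2 ⟨?_, ?_⟩)).trans e2 <;>
      linarith [Int.floor_le (X v), Int.lt_floor_add_one (X v)]
  rw [abs_le] at a1 e3 ⊢
  constructor <;> linarith [Int.floor_le (Y v), Int.lt_floor_add_one (Y v), a1.1, a1.2, e3.1, e3.2]

/-- Two copies given `K`, conditioned on a function of each. -/
theorem law_glue (P : FP Ω) (K : Ω → T) (A : Ω → T') {v : Ω × Ω} (hv : v ∈ (glue P P K K).S) :
    Law (cv (glue P P K K) (fun u => (A u.1, A u.2, K u.1)) (A v.1, A v.2, K v.1)) id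
      (prod (cv P (fun u => (A u, K u)) (A v.1, K v.1)) (cv P (fun u => (A u, K u)) (A v.2, K v.2)))
      id := by
  classical
  obtain ⟨h1, h2, h3⟩ := (mem_cp P K v).1 hv
  have e1 : cv P (fun u => (A u, K u)) (A v.2, K v.2) = cE (cv P K (K v.1)) fun u => A u = A v.2 := by
    rw [cv, cv, cE_cE (E := fun x => K x = K v.1) (E' := fun x => A x = A v.2) ⟨v.2, h2, h3, rfl⟩,
      h3]
    exact cE_congr fun u _ => by simp [and_comm]
  set c := pb P (fun u => (A u, K u) = (A v.1, K v.1)) * pb (cv P K (K v.1)) fun u => A u = A v.2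
  have key : ∀ F : Ω × Ω → ℝ, pb (glue P P K K) (fun u => (A u.1, A u.2, K u.1) =
      (A v.1, A v.2, K v.1)) * (cv (glue P P K K) (fun u => (A u.1, A u.2, K u.1))
        (A v.1, A v.2, K v.1)).E F = c * (prod (cv P (fun u => (A u, K u)) (A v.1, K v.1))
          (cv P (fun u => (A u, K u)) (A v.2, K v.2))).E F := fun F => by
    rw [cv, E_cE, glue, E_bind, prod, E_bind, e1, mul_assoc, ← FP.E_mul, cv, E_cE]
    refine P.E_congr fun x _ => ?_
    split_ifs with a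
    · rw [E_cE, (Prod.mk.inj a).2]
      exact FP.E_congr _ fun y _ => by simp [(Prod.mk.inj a).1, (Prod.mk.inj a).2]
    · refine (FP.E_congr _ fun y _ => if_neg fun b => a ?_).trans (FP.E_const _ _)
      simp only [Prod.mk.injEq] at b ⊢
      exact ⟨b.1, b.2.2⟩
  have k1 := key fun _ => 1
  rw [FP.E_const, FP.E_const, mul_one, mul_one] at k1
  intro F
  refine mul_left_cancel₀ (pb_pos (glue P P K K) (E := fun u => (A u.1, A u.2, K u.1) =
    (A v.1, A v.2, K v.1)) ⟨v, hv, rfl⟩).ne' ((key F).trans ?_)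
  rw [k1]; rfl

/-- The difference of two copies. -/
theorem Ht.dbl {A : Ω → T'} (h : Ht (k + 1) P X (fun ω => (A ω, K ω)) ε B) :
    Ht k (glue P P K K) (fun v => X v.1 - X v.2) (fun v => (A v.1, A v.2, K v.1)) (2 * ε)
      ((2 * 2 ^ k + 1) * B) := by
  obtain ⟨G, a, b⟩ := h
  refine ⟨fun v => G v.1 ∧ G v.2, (pb_nand _ _ _).trans ?_, fun v hv => ?_⟩
  · have e1 := (tg.fst P P K K).pb_eq fun ω => ¬G ω
    have e2 := (tg.snd P P K K (Law.rfl _)).pb_eq fun ω => ¬G ω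
    simp only [id] at e1 e2
    linarith
  · obtain ⟨h1, h2, -⟩ := (mem_cp P K v).1 hv
    have e := (b _ h1).dbl (b _ h2)
    rw [← sl_prod] at e
    have e1 : ∀ s : Ω × Ω → ℤ, sl (cv (glue P P K K) (fun u => (A u.1, A u.2, K u.1))
        (A v.1, A v.2, K v.1)) s (fun v => G v.1 ∧ G v.2) = sl (prod (cv P (fun u => (A u, K u))
          (A v.1, K v.1)) (cv P (fun u => (A u, K u)) (A v.2, K v.2))) s fun v => G v.1 ∧ G v.2 :=
      fun s => by
        ext y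
        rw [sl_coeff, sl_coeff]
        exact (law_glue P K A hv).pb_eq fun v => (G v.1 ∧ G v.2) ∧ s v = y
    rw [e1]
    refine (En.aff k (c := 1) (b := 0) (L := 1) (L' := 1) zero_le_one zero_le_one (by simp)
      (fun u _ _ => ?_) e).mono (le_of_eq (by ring))
    push_cast
    have : (⌊X u.1 - X u.2⌋ - (⌊X u.1⌋ - ⌊X u.2⌋) : ℤ) < 1 ∧
        -2 < (⌊X u.1 - X u.2⌋ - (⌊X u.1⌋ - ⌊X u.2⌋) : ℤ) := by
      constructor <;> rify <;> linarith [Int.floor_le (X u.1), Int.floor_le (X u.2),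
        Int.floor_le (X u.1 - X u.2), Int.lt_floor_add_one (X u.1), Int.lt_floor_add_one (X u.2),
        Int.lt_floor_add_one (X u.1 - X u.2)]
    have a1 : |(⌊X u.1 - X u.2⌋ - (⌊X u.1⌋ - ⌊X u.2⌋) : ℤ)| ≤ 1 := abs_le.2 (by omega)
    simpa using (show |((⌊X u.1 - X u.2⌋ : ℝ) - (⌊X u.1⌋ - ⌊X u.2⌋))| ≤ 1 by exact_mod_cast a1)

end Pool.Agent.MP_5168f5_an.QA
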