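import Pool.Agent.MP_5168f5_an.QA.HEn

/-! A polynomial that is read from the context is not small at a spread out point. -/

namespace Pool.Agent.MP_5168f5_an.QA

open H19 H17S H17F MX R4 R4.K31 Filter Polynomial

theorem rootsC (d : ℕ) : ∀ p : ℂ[X], p.natDegree ≤ d → ∃ r : ℕ → ℝ, ∀ x y s L : ℝ, 0 < s → s ≤ L →
    |y - x| ≤ L → (∀ i < d, s ≤ |x - r i|) →
      ‖p.eval (y : ℂ)‖ * s ^ d ≤ (2 * L) ^ d * ‖p.eval (x : ℂ)‖ := by
  induction d with
  | zero =>
    intro p hp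
    refine ⟨0, fun x y _ _ _ _ _ _ => ?_⟩
    rw [eq_C_of_natDegree_le_zero hp]
    simp
  | succ d ih =>
    intro p hp
    rcases Nat.lt_or_ge d p.natDegree with h | h
    · obtain ⟨z, hz⟩ := Complex.exists_root (f := p) (natDegree_pos_iff_degree_pos.1 (by omega))
      obtain ⟨q, rfl⟩ := dvd_iff_isRoot.2 hz
      have hq : q ≠ 0 := fun e => by simp [e] at h
      rw [natDegree_mul (X_sub_C_ne_zero z) hq, natDegree_X_sub_C] at hp
      obtain ⟨r, h1⟩ := ih q (by omega)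
      refine ⟨fun i => if i = d then z.re else r i, fun x y s L a b c e => ?_⟩
      have h2 := h1 x y s L a b c fun i hi => by simpa [hi.ne] using e i (by omega)
      have h3 : s ≤ ‖(x : ℂ) - z‖ := le_trans (by simpa using e d (by omega))
        (Complex.abs_re_le_norm ((x : ℂ) - z))
      have h4 : ‖(y : ℂ) - z‖ ≤ L + ‖(x : ℂ) - z‖ := by
        have := norm_add_le ((y : ℂ) - x) ((x : ℂ) - z)
        rw [sub_add_sub_cancel, ← Complex.ofReal_sub, Complex.norm_real, Real.norm_eq_abs] at this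
        linarith
      have h5 : ‖(y : ℂ) - z‖ * s ≤ 2 * L * ‖(x : ℂ) - z‖ := by nlinarith
      simp only [eval_mul, eval_sub, eval_X, eval_C, norm_mul]
      have := mul_le_mul h5 h2 (by positivity) (le_trans (by positivity) h5)
      linarith [pow_succ s d, pow_succ (2 * L) d,
        show ‖(y : ℂ) - z‖ * s * (‖q.eval (y : ℂ)‖ * s ^ d) =
          ‖(y : ℂ) - z‖ * ‖q.eval (y : ℂ)‖ * s ^ (d + 1) by ring,
        show 2 * L * ‖(x : ℂ) - z‖ * ((2 * L) ^ d * ‖q.eval (x : ℂ)‖) =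
          (2 * L) ^ (d + 1) * (‖(x : ℂ) - z‖ * ‖q.eval (x : ℂ)‖) by ring]
    · obtain ⟨r, h1⟩ := ih p h
      refine ⟨r, fun x y s L a b c e => ?_⟩
      have := mul_le_mul (h1 x y s L a b c fun i hi => e i (by omega)) (show s ≤ 2 * L by linarith)
        a.le (by have := a.trans_le b; positivity)
      rw [pow_succ, pow_succ]
      linarith

/-- Away from `d` points a polynomial of degree `d` controls its values nearby. -/
theorem rootsR (d : ℕ) (p : ℝ[X]) : ∃ r : ℕ → ℝ, p.natDegree ≤ d → ∀ x y s L : ℝ, 0 < s → s ≤ L →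
    |y - x| ≤ L → (∀ i < d, s ≤ |x - r i|) → |p.eval y| * s ^ d ≤ (2 * L) ^ d * |p.eval x| := by
  by_cases h : p.natDegree ≤ d
  · obtain ⟨r, e⟩ := rootsC d (p.map (algebraMap ℝ ℂ)) (natDegree_map_le.trans h)
    refine ⟨r, fun _ x y s L a b c g => ?_⟩
    have k : ∀ u : ℝ, ‖(p.map (algebraMap ℝ ℂ)).eval (u : ℂ)‖ = |p.eval u| := fun u => by
      rw [← Complex.coe_algebraMap, eval_map_algebraMap, aeval_algebraMap_apply_eq_algebraMap_eval,
        Complex.coe_algebraMap, Complex.norm_real, Real.norm_eq_abs]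
    simpa only [k] using e x y s L a b c g
  · exact ⟨0, fun e => absurd e h⟩

variable {Ω T : ℕ → Type} {P : ∀ n, FP (Ω n)} {z y : ∀ n, Ω n → ℝ} {K : ∀ n, Ω n → T n}
  {R : ℕ → ℕ} {L : ℕ → ℝ} {k : ℕ} {θ β : ℝ}

theorem HTw.fro (h : HTw k θ P z K R) (hR : Big R) : Fro P K z R ((1 - θ) / 2 ^ k) :=
  fun j hj ε hε => ((h.one hj).out hR ε hε).mono (Eventually.of_forall fun _ _ _ a =>
    a.trans (le_of_eq (by congr 1; ring)))

theorem HT.fro {kf : ℕ → ℕ} (h : HT kf P z K R) (hR : Big R) : ∃ β, 0 < β ∧ Fro P K z R β :=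
  ⟨_, by norm_num, (h 1).fro hR⟩

theorem fro_far (h : Fro P K z R β) (hR : Big R) (hβ : 0 < β)
    (hy : ∀ᶠ n in UF, Fn (P n) (y n) (K n)) :
    ∃ L, Sub R L ∧ Whp P fun n ω => 1 ≤ L n * |z n ω - y n ω| := by
  classical
  obtain ⟨L, a, b⟩ := h.unit hR hβ (y := fun n ω => if Fn (P n) (y n) (K n) then y n ω else 0)
    fun n => by
      split_ifs with c
      exacts [c, fun _ _ _ _ _ => rfl]
  exact ⟨L, a, b.mono (hy.mono fun n c ω _ e => by simpa [c] using e)⟩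

/-- The value at the random point controls the values within distance `L`. -/
theorem fro_poly (h : Fro P K z R β) (hR : Big R) (hβ : 0 < β) (hL : Sub R L) {d : ℕ}
    {p : ∀ n, Ω n → ℝ[X]}
    (hp : ∀ᶠ n in UF, Fn (P n) (p n) (K n) ∧ ∀ ω ∈ (P n).S, (p n ω).natDegree ≤ d) :
    ∃ Γ, Sub R Γ ∧ Whp P fun n ω => ∀ u, |u - z n ω| ≤ L n →
      |(p n ω).eval u| ≤ Γ n * |(p n ω).eval (z n ω)| := by
  choose r hr using rootsR d
  choose G g1 g2 using fun i : Fin d => fro_far h hR hβ (y := fun n ω => r (p n ω) i)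
    (hp.mono fun n a => (Fn.comp (r · i) _).trans a.1)
  refine KSA.wsub P (fun n ω l => ∀ u, |u - z n ω| ≤ L n →
    |(p n ω).eval u| ≤ l * |(p n ω).eval (z n ω)|) R fun c hc _ => (Whp.all g2).mono ?_
  filter_upwards [hp, eventually_all.2 fun i => (g1 i).2 (c / 2 / (d + 1)) (by positivity),
    ((hL.const_mul hR one_le_two).pow d).2 _ (half_pos hc)] with n a b e ω hω g u hu
  have p0 := Real.exp_pos (c / 2 / (d + 1) * R n)
  have p1 : 1 ≤ Real.exp (c / 2 / (d + 1) * R n) := Real.one_le_exp (by positivity)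
  have := hr _ (a.2 ω hω) _ u _ _ (inv_pos.2 p0) ((inv_le_one_of_one_le₀ p1).trans (hL.1 n)) hu
    fun i hi => by
      rw [← one_mul (_ : ℝ)⁻¹, mul_inv_le_iff₀' p0]
      exact (g ⟨i, hi⟩).trans (mul_le_mul_of_nonneg_right (b _) (abs_nonneg _))
  rw [inv_pow, mul_inv_le_iff₀' (by positivity), ← mul_assoc] at this
  refine this.trans (mul_le_mul_of_nonneg_right ((mul_le_mul (pow_le_pow_right₀ p1 d.le_succ) e
    (by have := hL.pos n; positivity) (by positivity)).trans (le_of_eq ?_)) (abs_nonneg _))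
  rw [← Real.exp_nat_mul, ← Real.exp_add]
  congr 1
  push_cast
  field_simp
  ring

theorem HT.poly {kf : ℕ → ℕ} (h : HT kf P z K R) (hR : Big R) (hL : Sub R L) {d : ℕ}
    {p : ∀ n, Ω n → ℝ[X]}
    (hp : ∀ᶠ n in UF, Fn (P n) (p n) (K n) ∧ ∀ ω ∈ (P n).S, (p n ω).natDegree ≤ d) :
    ∃ Γ, Sub R Γ ∧ Whp P fun n ω => ∀ u, |u - z n ω| ≤ L n →
      |(p n ω).eval u| ≤ Γ n * |(p n ω).eval (z n ω)| :=
  let ⟨_, a, b⟩ := h.fro hR
  fro_poly b hR a hL hp

end Pool.Agent.MP_5168f5_an.QA
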