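import Pool.Agent.MP_5168f5_an.QA.Spec1

/-! The maximal estimate in all dimensions: a norm that joins two levels, statements. -/

namespace Pool.Agent.MP_5168f5_an.QA

open H19 H17S H17F R4 AN Filter MvPolynomial
open C1 (Hb)

variable {N D : ℕ}

/-- The norm `T` bounds the values on the set `A`, lies between `ν` and `exp a * ν`, and loses at
most `b` of the reward. -/
structure Jo (η a b : ℝ) (A : Set (V (N + 1))) (ν T : VD N D → ℝ) : Prop where
  hb : Hb T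
  bd : ∀ y ∈ A, ∀ F : VD N D, |eval y F.1| ≤ T F
  le : ∀ F, ν F ≤ T F
  up : ∀ F, T F ≤ Real.exp a * ν F
  dsp : dsp T ν ≤ a
  psi : Psi η ν - Psi η T ≤ b

/-- The norm `T` is valid at the level `x'` and close to the norm of the level `x`, surely. -/
def Jn (X : ℕ → St N D) (η C : ℝ) (x x' : ℚ) (T : ∀ n, (X n).Ω → VD N D → ℝ) : Prop :=
  ∀ ε : ℝ, 0 < ε → ∀ᶠ n in UF, ∀ ω ∈ (X n).P.S,
    Jo η ((C * ((x : ℝ) - x') / η ^ dV N D + ε) * (X n).u) ((C * η * ((x : ℝ) - x') + ε) * (X n).u)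
      (seg (X n).M ((X n).lv x') ((X n).g.l ω) ((X n).g.zc ((X n).lv x') ω) 5) ((X n).S x ω).ν
      (T n ω)

/-- On an event of subexponential probability a joining norm is read both from the long piece and
from the label of the short piece. -/
def JOIN (N D : ℕ) : Prop := ∃ C : ℝ, 1 ≤ C ∧ ∀ (η θ : ℝ) (σ : ℕ → ℚ → ℝ) (X : ℕ → St N D),
  Par N D C η θ → Tb X Set.univ η θ σ → ∀ x x' : ℚ, x' ≤ x →
  ∃ (G : ∀ n, (X n).Ω → Prop) (T : ∀ n, (X n).Ω → VD N D → ℝ),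
    (∀ c : ℝ, 0 < c → ∀ᶠ n in UF, G39.dl (uu X) c n ≤ pb (X n).P (G n)) ∧
    FnE (fun n => cE (X n).P (G n)) T (fun n => (X n).O x') ∧
    FnE (fun n => cE (X n).P (G n)) T (fun n => (X n).S x) ∧
    Jn (fun n => (X n).pull (cE (X n).P (G n)) id) η C x x' T

def SJoin : Prop := ∀ N D, NJ N D → JOIN N D

theorem Jo.mono {η a b a' b' : ℝ} {A : Set (V (N + 1))} {ν T : VD N D → ℝ} (h : Jo η a b A ν T)
    (k : Hb ν) (e : a ≤ a') (e' : b ≤ b') : Jo η a' b' A ν T :=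
  ⟨h.hb, h.bd, h.le, fun F => (h.up F).trans
    (mul_le_mul_of_nonneg_right (Real.exp_le_exp.2 e) (k.nonneg F)), h.dsp.trans e, h.psi.trans e'⟩

/-- The joining property passes to every law on the support. -/
theorem Jn.pull {X : ℕ → St N D} {η C : ℝ} {x x' : ℚ} {T : ∀ n, (X n).Ω → VD N D → ℝ}
    (h : Jn X η C x x' T) {W : ℕ → Type} {Q : ∀ n, FP (W n)} {π : ∀ n, W n → (X n).Ω}
    (k : ∀ᶠ n in UF, ∀ v ∈ (Q n).S, π n v ∈ (X n).P.S) :
    Jn (fun n => (X n).pull (Q n) (π n)) η C x x' fun n v => T n (π n v) := fun ε hε => by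
  filter_upwards [h ε hε, k] with n a b v hv using a _ (b v hv)

end Pool.Agent.MP_5168f5_an.QA
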