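import Pool.Agent.MP_5168f5_an.QA.ChSpec
import Pool.Agent.MP_5168f5_an.QA.GapLow
import Pool.Agent.MP_5168f5_an.QA.NJCore
import Pool.Agent.MP_5168f5_an.QA.FrDefs

/-! The maximal estimate in all dimensions: the orbit chart bounds the information at the top. -/

namespace Pool.Agent.MP_5168f5_an.QA.Tq

open H19 H17S H17F R4 AN Filter MvPolynomial Matrix
open GA (Mt IsFr ex)
open Ch (Orb vl SChart)
open Nc (Pl jac)
open G39 (dl)

/-- A frame of matrices, a base point and a frame of polynomials. -/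
structure Fd (N D m : ℕ) (κ : Type) : Type where
  kk : Fin m → ℝ
  b : κ → Mt (Fin m)
  c : κ → κ → κ → ℝ
  p : Fin m → ℝ
  E : Fin m → VD N D

namespace Fd

variable {N D m : ℕ} {κ : Type} [Fintype κ] (d : Fd N D m κ)

/-- The values of the frame of polynomials. -/
noncomputable def ev (y : V (N + 1)) : Fin m → ℝ := vl (fun q => (d.E q).1) y

/-- The frame is exact, with constants at most `L` and entries at most `W`. -/
structure Alg (L W : ℝ) : Prop where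
  fr : IsFr (N2.tri d.kk) d.b d.c
  bc : ∀ a a' e, |d.c a a' e| ≤ L
  bb : ∀ a q r, |d.b a q r| ≤ W
  bp : ∀ q, |d.p q| ≤ L

/-- The set `A₁` lies near the orbit; on `A₀` the group element also normalises the unit ball of
`ν`; the frame moves the base point in a box of volume at most `Y`. -/
structure Ob (ν : VD N D → ℝ) (A₀ A₁ : Set (V (N + 1))) (L η Y : ℝ) : Prop where
  far : ∀ y ∈ A₁, ∃ t, Orb d.b d.p L η t (d.ev y)
  own : ∀ y ∈ A₀, ∃ t, Orb d.b d.p L η t (d.ev y) ∧ ∀ F, ν F ≤ 1 →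
    ∃ f : Fin m → ℝ, F = ∑ q, f q • d.E q ∧ ∀ q, |(f ᵥ* ex d.b t) q| ≤ L
  wt : ∃ w : κ → ℝ, (∀ a, 0 ≤ w a) ∧ (∀ a q, |(d.b a *ᵥ d.p) q| ≤ L * w a) ∧ ∏ a, (1 + w a) ≤ Y

end Fd

theorem seg_lev {N M c c' : ℕ} (hc : c' ≤ c) (l : Ln N) (s r : ℝ) :
    seg M c l (fl1 c s) r ⊆ seg M c' l (fl1 c' s) r := by
  rintro y ⟨t, ξ, a, b, k, e⟩
  obtain ⟨j, rfl⟩ := Nat.exists_eq_add_of_le hc
  have p : (0 : ℝ) < 2 ^ j := by positivity
  have e1 : ∀ x : ℝ, (2 : ℝ) ^ (c' + j) * x = 2 ^ j * (2 ^ c' * x) := fun x => by ring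
  have h1 : 2 ^ j * fl1 c' s ≤ fl1 (c' + j) s := Int.le_floor.2 (by
    push_cast
    rw [e1]
    exact mul_le_mul_of_nonneg_left (Int.floor_le _) p.le)
  have h2 : fl1 (c' + j) s + 1 ≤ 2 ^ j * (fl1 c' s + 1) := Int.floor_lt.2 (by
    push_cast
    rw [e1]
    exact mul_lt_mul_of_pos_left (Int.lt_floor_add_one _) p)
  have h3 : (2 : ℝ) ^ j * fl1 c' s ≤ fl1 (c' + j) s := by exact_mod_cast h1
  have h4 : (fl1 (c' + j) s : ℝ) + 1 ≤ 2 ^ j * (fl1 c' s + 1) := by exact_mod_cast h2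
  rw [e1] at a b
  exact ⟨t, ξ, le_of_mul_le_mul_left (h3.trans a) p, le_of_mul_le_mul_left (b.trans h4) p, k, e⟩

/-- The chart `Θ` is bounded on `A₁` and sees every unit chart on `A₀`. -/
def Fd.Gd {N D m : ℕ} {κ : Type} [Fintype κ] (d : Fd N D m κ) (D' : ℕ) (L η X X' : ℝ)
    (Θ : Fin m ⊕ Fin m → Pl (N + 1)) : Prop := (∀ i, (Θ i).totalDegree ≤ D') ∧
  ∀ ν A₀ A₁ Y, d.Ob ν A₀ A₁ L η Y → (∀ y ∈ A₁, ∀ i, |eval y (Θ i)| ≤ X) ∧ ∀ Φ, Un ν Φ → ∀ y ∈ A₀,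
    ∃ I : Fin (N + 1) → Fin m ⊕ Fin m, jc Φ y ≤ X' * Y * |eval y (jac fun i => Θ (I i))|

/-- The chart is read from the frame. -/
theorem chart (hS : SChart) (N D m : ℕ) (hm : 0 < m) (κ : Type) [Fintype κ] : ∃ C D' : ℕ, 1 ≤ C ∧
    ∀ L W η : ℝ, 1 ≤ L → L ≤ W → 0 < η → (C * W * (C * L) ^ C) ^ C * η ≤ 1 →
    ∀ d : Fd N D m κ, ∃ Θ, d.Alg L W → d.Gd D' L η ((C * L) ^ C) ((C * (C * L) ^ C) ^ C) Θ := by
  obtain ⟨C, D', hC, h⟩ := hS m (Fintype.card κ) (N + 1) D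
  refine ⟨C, D', hC, fun L W η hL hW hη s d => ?_⟩
  by_cases a : d.Alg L W
  swap
  · exact ⟨0, fun k => absurd k a⟩
  obtain ⟨Θ, t1, t2, -, t3⟩ := h κ d.kk d.b d.c d.p L W η (fun q => (d.E q).1) hm le_rfl a.fr hL
    hW hη a.bc a.bb a.bp fun q => C1.deg_PD (d.E q)
  have C1 : (1 : ℝ) ≤ C := by exact_mod_cast hC
  have b1 : 1 ≤ C * L := one_le_mul_of_one_le_of_one_le C1 hL
  have b2 : L ≤ (C * L) ^ C := (le_mul_of_one_le_left (by linarith) C1).trans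
    (le_self_pow₀ b1 (by omega))
  have b3 : 1 ≤ C * W := one_le_mul_of_one_le_of_one_le C1 (hL.trans hW)
  have b4 : C * W ≤ C * W * (C * L) ^ C := le_mul_of_one_le_right (by linarith) (hL.trans b2)
  have b5 : C * W * η ≤ 1 := (mul_le_mul_of_nonneg_right
    (b4.trans (le_self_pow₀ (b3.trans b4) (by omega))) hη.le).trans s
  refine ⟨Θ, fun _ => ⟨t1, fun ν A₀ A₁ Y o => ⟨fun y hy => ?_, fun Φ u y hy => ?_⟩⟩⟩
  · obtain ⟨t, k⟩ := o.far y hy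
    exact t2 y t k
  · obtain ⟨t, k, k'⟩ := o.own y hy
    obtain ⟨w, w0, w1, w2⟩ := o.wt
    choose f f1 f2 using fun i => k' (Φ i) (u i)
    obtain ⟨I, e⟩ := t3 y t _ η w f b2 (t2 y t k) ⟨fun a => (k.1 a).trans b2, k.2⟩
      (fun i q => (f2 i q).trans b2) w0
      (fun a q => (w1 a q).trans (mul_le_mul_of_nonneg_right b2 (w0 a))) s b5
    have e' : (fun i => (Φ i).1) = fun i => ∑ q, f i q • (d.E q).1 := funext fun i => by
      rw [f1 i]; simp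
    refine ⟨I, ?_⟩
    rw [jc, e', ← det_dm, ← det_dm]
    refine e.trans (mul_le_mul_of_nonneg_right (mul_le_mul_of_nonneg_left w2 ?_) (abs_nonneg _))
    positivity

variable {N D : ℕ} (X : ℕ → St N D) (x x' : ℚ)

/-- The tube of width four over the interval of level `x`. -/
abbrev sg4 (n : ℕ) (ω : (X n).Ω) : Set (V (N + 1)) :=
  seg (X n).M ((X n).lv x) ((X n).g.l ω) ((X n).g.zc ((X n).lv x) ω) 4

/-- A bounded frame of polynomials on the long tube bounds the number of lines. -/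
def TopAt (ν' : ∀ n, (X n).Ω → VD N D → ℝ) (r : ℝ) : Prop :=
  ∀ (Λ : ℕ → Type) (T : ∀ n, (X n).Ω → Λ n) (D' : ℕ)
    (Ψ : ∀ n, (X n).Ω → Fin (N + 1) → Pl (N + 1)) (q : ℝ),
  FnE (PP X) (fun n ω => (ν' n ω, Ψ n ω)) (fun n => (X n).g.cx ((X n).lv x') (T n)) →
  (∀ ε : ℝ, 0 < ε → ∀ᶠ n in UF, ∀ ω ∈ (X n).P.S, (∀ i, (Ψ n ω i).totalDegree ≤ D') ∧
    (∀ y ∈ sg4 X x' n ω, ∀ i, |eval y (Ψ n ω i)| ≤ Real.exp (ε * (X n).u)) ∧
    ∃ y ∈ sg4 X x' n ω,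
      ((X n).S x ω).J ≤ Real.exp ((q + ε) * (X n).u) * |eval y (jac (Ψ n ω))|) →
  Le (uu X) (fun n => ch (X n).P (X n).g.l ((X n).g.cx ((X n).lv x') (T n))) fun n =>
    ch (X n).P (X n).g.l ((X n).S x) + ch (X n).P (T n) ((X n).O x') + (q - r) * (X n).u

variable {m : ℕ} {κ : Type} [Fintype κ]

/-- The orbit data at the levels `x' ≤ x`; the box has the volume `exp (q u)`. -/
def Orbs (d : ∀ n, (X n).Ω → Fd N D m κ) (K q : ℝ) : Prop := ∀ R : ℝ,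
  Fr.Su (PP X) (uu X) fun n ω Γ => (d n ω).Alg Γ (Γ * Real.exp (K * (X n).u)) ∧
    (d n ω).Ob ((X n).S x ω).ν (sg4 X x n ω) (sg4 X x' n ω) Γ (dl (uu X) R n)
      (Γ * Real.exp (q * (X n).u))

variable {X x x'} {Λ Λ' : ℕ → Type} {ν' : ∀ n, (X n).Ω → VD N D → ℝ} {r K q : ℝ}
  {d : ∀ n, (X n).Ω → Fd N D m κ} {T : ∀ n, (X n).Ω → Λ n}

/-- The chart along the sequence. -/
theorem charts (hS : SChart) (big : Big (uu X)) (hm : 0 < m) (hK : 0 ≤ K)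
    {A₀ A₁ : ∀ n, (X n).Ω → Set (V (N + 1))} (o : ∀ R : ℝ,
      Fr.Su (PP X) (uu X) fun n ω Γ => (d n ω).Alg Γ (Γ * Real.exp (K * (X n).u)) ∧
        (d n ω).Ob ((X n).S x ω).ν (A₀ n ω) (A₁ n ω) Γ (dl (uu X) R n)
          (Γ * Real.exp (q * (X n).u))) :
    ∃ (D' : ℕ) (L : ℕ → ℝ) (Θ : ℕ → Fd N D m κ → Fin m ⊕ Fin m → Pl (N + 1)), Sub (uu X) L ∧
      ∀ᶠ n in UF, ∀ ω ∈ (X n).P.S, (∀ i, (Θ n (d n ω) i).totalDegree ≤ D') ∧
        (∀ y ∈ A₁ n ω, ∀ i, |eval y (Θ n (d n ω) i)| ≤ L n) ∧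
        ∀ Φ, Un ((X n).S x ω).ν Φ → ∀ y ∈ A₀ n ω, ∃ I : Fin (N + 1) → Fin m ⊕ Fin m,
          jc Φ y ≤ L n * Real.exp (q * (X n).u) * |eval y (jac fun i => Θ n (d n ω) (I i))| := by
  obtain ⟨C, D', hC, hc⟩ := chart hS N D m hm κ
  obtain ⟨Γ, sΓ, H⟩ := o (C * K + 1)
  have C1 : (1 : ℝ) ≤ C := by exact_mod_cast hC
  have s1 := (sΓ.const_mul big C1).pow C
  have s2 := ((s1.const_mul big C1).pow C).mul sΓ
  have s3 := ((sΓ.const_mul big C1).mul s1).pow C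
  have k : ∀ (n : ℕ) (e : Fd N D m κ), ∃ Θ,
      (C * Γ n * (C * Γ n) ^ C) ^ C ≤ Real.exp (1 * (X n).u) →
      e.Alg (Γ n) (Γ n * Real.exp (K * (X n).u)) → e.Gd D' (Γ n) (dl (uu X) (C * K + 1) n)
        ((C * Γ n) ^ C) ((C * (C * Γ n) ^ C) ^ C) Θ := fun n e => by
    by_cases a : (C * Γ n * (C * Γ n) ^ C) ^ C ≤ Real.exp (1 * (X n).u)
    swap
    · exact ⟨0, fun b => absurd b a⟩
    refine (hc (Γ n) (Γ n * Real.exp (K * (X n).u)) (dl (uu X) (C * K + 1) n) (sΓ.1 n)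
      (le_mul_of_one_le_right (sΓ.pos n).le (Real.one_le_exp (by positivity))) (G39.dl_pos _ _ _)
      ?_ e).imp fun _ b _ => b
    rw [show C * (Γ n * Real.exp (K * (X n).u)) * (C * Γ n) ^ C =
      C * Γ n * (C * Γ n) ^ C * Real.exp (K * (X n).u) by ring, mul_pow, ← Real.exp_nat_mul,
      mul_assoc, dl, ← Real.exp_add]
    refine (mul_le_mul_of_nonneg_right a (Real.exp_pos _).le).trans_eq ?_
    rw [← Real.exp_add, ← Real.exp_zero]
    congr 1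
    ring
  choose Θ hΘ using k
  refine ⟨D', _, Θ, s1.mul s2, ?_⟩
  filter_upwards [H, s3.2 1 one_pos] with n a b ω hω
  obtain ⟨g1, g2⟩ := hΘ n _ b (a ω hω).1
  obtain ⟨g3, g4⟩ := g2 _ _ _ _ (a ω hω).2
  refine ⟨g1, fun y hy i => (g3 y hy i).trans (le_mul_of_one_le_right (s1.pos n).le (s2.1 n)),
    fun Φ u y hy => (g4 Φ u y hy).imp fun I e => e.trans ?_⟩
  rw [← mul_assoc]
  exact mul_le_mul_of_nonneg_right (mul_le_mul_of_nonneg_right
    (le_mul_of_one_le_left (s2.pos n).le (s1.1 n)) (Real.exp_pos _).le) (abs_nonneg _)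

omit [Fintype κ] in
/-- A bounded family with a large minor bounds the number of lines. -/
theorem lines0 (big : Big (uu X)) (h : TopAt X x x' ν' r) (hm : 0 < m)
    (fd : FnE (PP X) (fun n ω => (ν' n ω, d n ω)) fun n => (X n).g.cx ((X n).lv x') (T n))
    {D' : ℕ} {L : ℕ → ℝ} {Θ : ℕ → Fd N D m κ → Fin m ⊕ Fin m → Pl (N + 1)} (sL : Sub (uu X) L)
    (H : ∀ᶠ n in UF, ∀ ω ∈ (X n).P.S, (∀ i, (Θ n (d n ω) i).totalDegree ≤ D') ∧
      (∀ y ∈ sg4 X x' n ω, ∀ i, |eval y (Θ n (d n ω) i)| ≤ L n) ∧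
      ∃ I : Fin (N + 1) → Fin m ⊕ Fin m, ∃ y ∈ sg4 X x' n ω, ((X n).S x ω).J ≤
        L n * Real.exp (q * (X n).u) * |eval y (jac fun i => Θ n (d n ω) (I i))|) :
    Le (uu X) (fun n => ch (X n).P (X n).g.l ((X n).g.cx ((X n).lv x') (T n))) fun n =>
      ch (X n).P (X n).g.l ((X n).S x) + ch (X n).P (T n) ((X n).O x') + (q - r) * (X n).u := by
  have kI : ∀ᶠ n in UF, ∃ I : (X n).Ω → Fin (N + 1) → Fin m ⊕ Fin m, ∀ ω ∈ (X n).P.S,
      ∃ y ∈ sg4 X x' n ω, ((X n).S x ω).J ≤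
        L n * Real.exp (q * (X n).u) * |eval y (jac fun i => Θ n (d n ω) (I ω i))| := by
    filter_upwards [H] with n a
    have : Nonempty (Fin (N + 1) → Fin m ⊕ Fin m) := ⟨fun _ => Sum.inl ⟨0, hm⟩⟩
    choose! I hI using fun ω hω => (a ω hω).2.2
    exact ⟨I, hI⟩
  have : ∀ n, Nonempty ((X n).Ω → Fin (N + 1) → Fin m ⊕ Fin m) :=
    fun _ => ⟨fun _ _ => Sum.inl ⟨0, hm⟩⟩
  obtain ⟨I, hI⟩ := Filter.skolem.1 kI
  have t := h (fun n => Λ n × (Fin (N + 1) → Fin m ⊕ Fin m)) (fun n ω => (T n ω, I n ω)) D'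
    (fun n ω i => Θ n (d n ω) (I n ω i)) q
    (fd.mono fun n a u hu v hv e => by
      simp only [Sh.cx, Prod.mk.injEq] at e
      have := a u hu v hv (Prod.ext e.1.1 e.2)
      simp only [Prod.mk.injEq] at this ⊢
      exact ⟨this.1, by rw [this.2, e.1.2]⟩) fun ε hε => by
    filter_upwards [H, hI, sL.2 ε hε] with n a b c ω hω
    obtain ⟨y, hy, e⟩ := b ω hω
    refine ⟨fun i => (a ω hω).1 _, fun z hz i => ((a ω hω).2.1 z hz _).trans c, y, hy, e.trans ?_⟩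
    rw [add_mul, Real.exp_add, mul_comm (Real.exp _)]
    exact mul_le_mul_of_nonneg_right (mul_le_mul_of_nonneg_right c (Real.exp_pos _).le)
      (abs_nonneg _)
  refine t.of2 (big.sm (2 * Real.log (Fintype.card (Fin (N + 1) → Fin m ⊕ Fin m))))
    (.of_forall fun n => ?_)
  have a1 := NJ.hh_fin (P := (X n).P) (I n)
  have a2 := ch_subadd (P := (X n).P) (T n) (I n) ((X n).O x')
  have a3 := ch_le_hh (P := (X n).P) (I n) ((X n).O x')
  have a4 := ch_tri (P := (X n).P) (X n).g.l (I n) ((X n).g.cx ((X n).lv x') (T n))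
  have a5 := ch_le_hh (P := (X n).P) (I n) ((X n).g.cx ((X n).lv x') (T n))
  have a6 : ch (X n).P (X n).g.l (fun ω => (I n ω, (X n).g.cx ((X n).lv x') (T n) ω)) ≤
      ch (X n).P (X n).g.l ((X n).g.cx ((X n).lv x') fun ω => (T n ω, I n ω)) :=
    ch_anti fun a _ b _ e => by simp only [Sh.cx, Prod.mk.injEq] at e ⊢; tauto
  linarith

theorem lines (hS : SChart) (big : Big (uu X)) (mono : ∀ᶠ n in UF, (X n).lv x' ≤ (X n).lv x)
    (val : ∀ᶠ n in UF, Val (X n).P (X n).g (X n).M ((X n).lv x) ((X n).S x))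
    (h : TopAt X x x' ν' r) (hm : 0 < m) (hK : 0 ≤ K) (o : Orbs X x x' d K q)
    (fd : FnE (PP X) (fun n ω => (ν' n ω, d n ω)) fun n => (X n).g.cx ((X n).lv x') (T n)) :
    Le (uu X) (fun n => ch (X n).P (X n).g.l ((X n).g.cx ((X n).lv x') (T n))) fun n =>
      ch (X n).P (X n).g.l ((X n).S x) + ch (X n).P (T n) ((X n).O x') + (q - r) * (X n).u := by
  obtain ⟨D', L, Θ, sL, H⟩ := charts hS big hm hK o
  refine lines0 big h hm fd (D' := D') (Θ := Θ) sL ?_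
  filter_upwards [H, mono, val] with n a b4 b5 ω hω
  obtain ⟨Φ, u, y, hy, e⟩ := (b5 ω hω).2.wit
  rw [(b5 ω hω).1] at hy
  obtain ⟨I, e'⟩ := (a ω hω).2.2 Φ u y hy
  exact ⟨(a ω hω).1, (a ω hω).2.1, I, y, seg_lev b4 _ _ _ hy, e.trans e'⟩

/-- From the number of lines to the information. -/
theorem info {S : ∀ n, (X n).Ω → Λ' n} {s : ℝ}
    (h : Le (uu X) (fun n => ch (X n).P (X n).g.l ((X n).g.cx ((X n).lv x') (T n))) fun n =>
      ch (X n).P (X n).g.l ((X n).S x) + ch (X n).P (T n) ((X n).O x') + s * (X n).u)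
    (fT : FnE (PP X) T fun n => (X n).O x')
    (fz : FnE (PP X) (fun n => (X n).g.zc ((X n).lv x')) T)
    (hs : Sm (uu X) fun n => ch (X n).P (fun ω => (S n ω, T n ω)) ((X n).S x)) :
    Le (uu X) (fun n => mi (X n).P (X n).g.l (S n) (T n)) fun n => s * (X n).u := by
  refine h.of2 hs ?_
  filter_upwards [fT, fz] with n a b
  have a1 := ch_zero a
  have a2 : ch (X n).P (X n).g.l (T n) ≤ ch (X n).P (X n).g.l ((X n).g.cx ((X n).lv x') (T n)) :=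
    ch_anti ((Fn.rfl _).pair b)
  have a3 := ch_tri' (P := (X n).P) (X n).g.l ((X n).S x) fun ω => (S n ω, T n ω)
  unfold mi
  linarith

/-- The information of the fine label about the line, given the coarse label. -/
theorem top (hS : SChart) (big : Big (uu X)) (mono : ∀ᶠ n in UF, (X n).lv x' ≤ (X n).lv x)
    (val : ∀ᶠ n in UF, Val (X n).P (X n).g (X n).M ((X n).lv x) ((X n).S x))
    (h : TopAt X x x' ν' r) (hm : 0 < m) (hK : 0 ≤ K) (o : Orbs X x x' d K q)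
    (fd : FnE (PP X) (fun n ω => (ν' n ω, d n ω)) T) (fT : FnE (PP X) T fun n => (X n).O x')
    (fz : FnE (PP X) (fun n => (X n).g.zc ((X n).lv x')) T) {S : ∀ n, (X n).Ω → Λ' n}
    (hs : Sm (uu X) fun n => ch (X n).P (fun ω => (S n ω, T n ω)) ((X n).S x)) :
    Le (uu X) (fun n => mi (X n).P (X n).g.l (S n) (T n)) fun n => (q - r) * (X n).u :=
  info (lines hS big mono val h hm hK o (T := T) (fd.mono fun _ a => a.left _)) fT fz hs

end Pool.Agent.MP_5168f5_an.QA.Tq
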