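import Pool.Agent.MP_5168f5_an.QA.TopB
import Pool.Agent.MP_5168f5_an.QA.T1Cl
import Pool.Agent.MP_5168f5_an.QA.Tq
import Pool.Agent.MP_5168f5_an.QA.JnD

/-! The estimate for a foreign frame in the tangent system. -/

namespace Pool.Agent.MP_5168f5_an.QA

open H19 H17S H17F R4 AN Filter MvPolynomial Finset
open C1 (Hb)
open Nc (Pl ev jac)
open K31 (Dn)

variable {N D E E' : ℕ}

theorem jac_smul {n : ℕ} (r : ℝ) (Φ : Fin n → Pl n) (y : V n) :
    eval y (jac fun i => r • Φ i) = r ^ n * eval y (jac Φ) := by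
  have : En.dm (fun i => r • Φ i) y = r • En.dm Φ y := Matrix.ext fun i k => by simp [En.dm]
  rw [← det_dm, ← det_dm, this, Matrix.det_smul, Fintype.card_fin]

/-- The entropy of the line given a context of level `c`. -/
theorem ch_cx {Ω Λ : Type} (P : FP Ω) (g : Sh N Ω) (c : ℕ) (T : Ω → Λ) :
    ch P g.l (g.cx c T) = ch P g.l (g.zc c) - ch P T (g.zc c) + ch P T (g.O c) := by
  have := ch_symm (P := P) g.l T (g.zc c)
  change _ - ch P g.l (g.cx c T) = _ - ch P T (g.O c) at this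
  linarith

theorem cst_val {Ω : Type} {P : FP Ω} {g : Sh N Ω} {M c : ℕ} {S : Ω → Dc N D} (η : ℝ)
    (v : Val P g M c S) (f : Fn P S (g.O c)) :
    cst η P g c S = ch P g.l (g.zc c) - val η P g M c S - (c + N * M) * lg := by
  have a := ch_cx P g c S
  rw [ch_zero f, ch_congr (F' := g.l) (G := g.cx c S) (G' := S) (Fn.fst _ _) (Fn.fst _ _)
    (fun u hu w hw e => Prod.ext e ((v u hu).1.symm.trans (e ▸ (v w hw).1))) (Fn.fst _ _)] at a
  unfold cst val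
  linarith

/-- The norm `ν` lies above the norm of level `x`, is valid at the level `x'`, and the frame `Ψ`
is bounded at the level `x'` and has a large Jacobian. -/
structure St.Tp (X : St N D) (η : ℝ) (x x' : ℚ) (D' : ℕ) (a p ψ q r : ℝ)
    (ω : X.Ω) (ν : VD N D → ℝ) (Ψ : Fin (N + 1) → Pl (N + 1)) : Prop where
  hb : Hb ν
  bd : ∀ y ∈ seg X.M (X.lv x') (X.g.l ω) (X.g.zc (X.lv x') ω) 5, ∀ F, |eval y F.1| ≤ ν F
  cmp : ∀ F, (X.S x ω).ν F ≤ ν F ∧ ν F ≤ Real.exp a * (X.S x ω).ν F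
  dsp : dsp ν (X.S x ω).ν ≤ p
  psi : Psi η (X.S x ω).ν ≤ Psi η ν + ψ
  deg : ∀ i, (Ψ i).totalDegree ≤ D'
  sup : ∀ y ∈ seg X.M (X.lv x') (X.g.l ω) (X.g.zc (X.lv x') ω) 4, ∀ i,
    |eval y (Ψ i)| ≤ Real.exp r
  jac : ∃ y ∈ seg X.M (X.lv x') (X.g.l ω) (X.g.zc (X.lv x') ω) 4,
    (X.S x ω).J ≤ Real.exp q * |eval y (jac Ψ)|

/-- The estimate on one space. -/
theorem topL (hE : E ≤ D) (cn : CNTF N D) (f : FILL N E E' D) (D' : ℕ) {ε : ℝ} (hε : 0 < ε) :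
    ∃ C : ℝ, ∀ (X : St N D) (η θ β js Γ : ℝ) (sl : ℕ → ℝ) (x x' : ℚ) (a p ψ q r : ℝ) (Λ : Type)
    (T : X.Ω → Λ) (ν : X.Ω → VD N D → ℝ) (Ψ : X.Ω → Fin (N + 1) → Pl (N + 1)),
    0 ≤ η → η ≤ 1 → 0 ≤ θ → θ ≤ η ^ dV N D → x' ≤ x → 0 ≤ a → 0 ≤ r →
    X.Loc E η θ β js Γ sl x x' r → X.Loc E η θ β js Γ sl x' x r →
    Fn X.P (fun ω => (ν ω, Ψ ω)) (X.g.cx (X.lv x') T) →
    (∀ ω ∈ X.P.S, X.Tp η x x' D' a p ψ q r ω (ν ω) (Ψ ω)) →
    ch X.P X.g.l (X.g.cx (X.lv x') T) ≤ ch X.P X.g.l (X.S x) + ch X.P T (X.O x') + q -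
      (lg + β - θ * ∑ k ∈ range (dV N D + 1), |sl k|) * (((x : ℝ) - x') * X.u) + ψ + θ * p +
      (N + 8) * r + ε * (a + |q| + ((N + 1) * |Γ| + |js|) * (((x : ℝ) - x') * X.u) + (N + 5) * r) +
      C := by
  obtain ⟨C, hC⟩ := Tp.topF hE cn f D' hε
  refine ⟨C, fun X η θ β js Γ sl x x' a p ψ q r Λ T ν Ψ h1 h2 h3 h4 hx a0 r0 L L' fn H => ?_⟩
  set w : ℝ := ((x : ℝ) - x') * X.u with hw
  have hx' : (0 : ℝ) ≤ (x : ℝ) - x' := sub_nonneg.2 (by exact_mod_cast hx)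
  have w0 : 0 ≤ w := by positivity
  have n0 : (0 : ℝ) ≤ N * r := by positivity
  have g0 : (0 : ℝ) ≤ (N + 1) * |Γ| * w := by positivity
  have g1 : (0 : ℝ) ≤ |js| * w := by positivity
  have lJ : ∀ ω ∈ X.P.S, Real.exp (X.j0 + js * x * X.u - r) ≤ (X.S x ω).J := fun ω hω =>
    (Real.le_log_iff_exp_le (L.val ω hω).2.pos).1 (by linarith [(abs_le.1 (L.jpr ω hω)).1])
  have k := hC η θ r (X.j0 + js * x * X.u - 2 * r) (X.j0 + js * x * X.u - q - (N + 2) * r)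
    (a + |q| + ((N + 1) * |Γ| + |js|) * w + (N + 5) * r) _ _ X.P X.g X.M (X.lv x') (X.S x') T ν
    (fun ω i => Real.exp (-r) • Ψ ω i) h1 h2 h3 h4 (by positivity)
    (by linarith [neg_abs_le q]) L.box L'.opt
    ((Fn.comp (fun t => (t.1, fun i => Real.exp (-r) • t.2 i)) _).trans fn) fun ω hω => by
      have t := H ω hω
      obtain ⟨Φ, lo, un, y, y1, y2⟩ := (L.tig ω hω).2
      obtain ⟨z, z1, z2⟩ := t.jac
      rw [(L.val ω hω).1] at y1
      refine ⟨t.hb, t.bd, ⟨Φ, lo, fun i => (t.cmp _).2.trans ((mul_le_of_le_one_right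
        (Real.exp_pos _).le (un i)).trans (Real.exp_le_exp.2 (by linarith [abs_nonneg q]))),
        y, Tq.seg_lev (L'.mono hx) _ _ _ y1, le_of_mul_le_mul_left (le_trans ?_ y2) (Real.exp_pos r)⟩,
        fun Φ un y hy => ?_, fun i => (totalDegree_smul_le _ _).trans (t.deg i),
        fun y hy => (pi_norm_le_iff_of_nonneg zero_le_one).2 fun i => ?_, z, z1, ?_⟩
      · rw [← Real.exp_add]
        exact (Real.exp_le_exp.2 (by linarith)).trans (lJ ω hω)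
      · refine (Tp.jc_le (L'.val ω hω).2.hb (fun Φ u => (L'.tig ω hω).1 Φ u y
          ((L'.val ω hω).1 ▸ seg_mono (by norm_num) hy)) fun i => ((L.lip ω hω) _).2.trans
          (mul_le_of_le_one_right (Real.exp_pos _).le ((t.cmp _).1.trans (un i)))).trans ?_
        rw [← Real.exp_log (L'.val ω hω).2.pos, ← Real.exp_add, ← Real.exp_add, Real.exp_le_exp,
          abs_of_nonneg hx', mul_assoc Γ, ← hw]
        have b1 := mul_le_mul_of_nonneg_right (le_abs_self Γ) w0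
        have b2 := mul_le_mul_of_nonneg_right (neg_abs_le js) w0
        have b3 : (0 : ℝ) ≤ N + 1 := by positivity
        nlinarith [(abs_le.1 (L'.jpr ω hω)).2, abs_nonneg q, mul_le_mul_of_nonneg_left b1 b3]
      · change |eval y (Real.exp (-r) • Ψ ω i)| ≤ 1
        rw [smul_eval, abs_mul, abs_of_pos (Real.exp_pos _), Real.exp_neg,
          inv_mul_le_iff₀ (Real.exp_pos _), mul_one]
        exact t.sup y hy i
      · rw [jac_smul, abs_mul, abs_of_pos (by positivity), ← Real.exp_nat_mul]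
        refine le_of_mul_le_mul_left ?_ (Real.exp_pos (q + (N + 1) * r))
        rw [← mul_assoc, ← Real.exp_add, ← Real.exp_add]
        refine (Real.exp_le_exp.2 (le_of_eq (by ring))).trans (((lJ ω hω).trans z2).trans_eq ?_)
        congr 2
        push_cast
        ring
  have c1 := cst_val η L'.val L'.fn
  have c2 := ch_cx X.P X.g (X.lv x') T
  have c3 : X.vl η x' + (β * x - β * x') * X.u ≤ X.vl η x + Real.log 1 + r :=
    L.los _ X.P id 1 (K31.dn_rfl _)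
  have c4 : X.P.E (fun ω => sco η (X.S x ω)) ≤
      X.P.E fun ω => X.j0 + js * x * X.u + r + ψ + Psi η (ν ω) := X.P.E_mono fun ω hω => by
    unfold sco
    linarith [(abs_le.1 (L.jpr ω hω)).2, (H ω hω).psi]
  have c5 : X.P.E (fun ω => dsp (ν ω) (X.S x' ω).ν) ≤
      p + r + (∑ k ∈ range (dV N D + 1), |sl k|) * w + r := by
    refine (X.P.E_mono fun ω hω => le_trans ?_ (add_le_add (add_le_add (add_le_add (H ω hω).dsp
      (L.spec ω hω)) le_rfl) (L'.spec ω hω))).trans_eq (X.P.E_const _)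
    unfold dsp pen
    rw [sum_mul, ← sum_add_distrib, ← sum_add_distrib, ← sum_add_distrib]
    refine sum_le_sum fun k _ => (abs_sub_le _ (X.cen (fun k x => sl k * x) x' k) _).trans
      (add_le_add ((abs_sub_le _ (X.cen (fun k x => sl k * x) x k) _).trans
        (add_le_add (abs_sub_le _ _ _) (le_of_eq ?_))) (abs_sub_comm _ _).le)
    rw [← abs_of_nonneg w0, ← abs_mul]
    congr 1
    simp only [St.cen, hw]
    ring
  have c6 := mul_le_mul_of_nonneg_left c5 h3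
  have c7 := mul_le_mul_of_nonneg_right L.lev lg_pos.le
  have c8 := mul_le_mul_of_nonneg_left lg_lt_one.le r0
  have c9 := mul_le_mul_of_nonneg_left (h4.trans (pow_le_one₀ h1 h2)) r0
  simp only [St.vl, val, Real.log_one, FP.E_add, FP.E_const] at c1 c3 c4
  change _ = _ - _ + ch X.P T (X.O x') at c2
  simp only [hw] at *
  linarith

variable {X : ℕ → St N D} {η θ β js Γ : ℝ} {sl : ℕ → ℝ} {x x' : ℚ} {D' : ℕ} {a p ψ q b : ℝ}
  {Λ W : ℕ → Type}

/-- The estimate under a law of density at most `exp (b u)`. -/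
theorem topQ (hE : E ≤ D) (cn : CNTF N D) (f : FILL N E E' D) (h : Tq X E η θ β js Γ sl)
    (h1 : 0 ≤ η) (h2 : η ≤ 1) (h3 : 0 ≤ θ) (h4 : θ ≤ η ^ dV N D) (hx : x' ≤ x) (a0 : 0 ≤ a)
    (b0 : 0 ≤ b) {Q : ∀ n, FP (W n)} {π : ∀ n, W n → (X n).Ω}
    (d : ∀ᶠ n in UF, Dn (Real.exp (b * (X n).u)) (Q n) (π n) (X n).P) {T : ∀ n, W n → Λ n}
    {ν : ∀ n, W n → VD N D → ℝ} {Ψ : ∀ n, W n → Fin (N + 1) → Pl (N + 1)}
    (fn : FnE Q (fun n v => (ν n v, Ψ n v)) fun n => ((X n).g.pull (π n)).cx ((X n).lv x') (T n))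
    (H : ∀ ε : ℝ, 0 < ε → ∀ᶠ n in UF, ∀ v ∈ (Q n).S, ((X n).pull (Q n) (π n)).Tp η x x' D'
      (a * (X n).u) ((p + ε) * (X n).u) ((ψ + ε) * (X n).u) ((q + ε) * (X n).u)
      ((b + ε) * (X n).u) v (ν n v) (Ψ n v)) :
    Le (uu X) (fun n => ch (Q n) (fun v => (X n).g.l (π n v))
        (((X n).g.pull (π n)).cx ((X n).lv x') (T n))) fun n =>
      ch (Q n) (fun v => (X n).g.l (π n v)) (fun v => (X n).S x (π n v)) +
        ch (Q n) (T n) (fun v => (X n).O x' (π n v)) +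
        (q + ψ + θ * p + (N + 8) * b - (lg + 7 / 8 * β) * (x - x')) * (X n).u := by
  intro ε hε
  have hx' : (0 : ℝ) ≤ (x : ℝ) - x' := sub_nonneg.2 (by exact_mod_cast hx)
  set A : ℝ := a + |q| + 1 + ((N + 1) * |Γ| + |js|) * ((x : ℝ) - x') + (N + 5) * (b + 1) with hA
  have A0 : 0 ≤ A := by positivity
  set δ : ℝ := min 1 (ε / (A + N + 12)) with hδ
  have δ0 : 0 < δ := by positivity
  have δ1 : δ ≤ 1 := min_le_left _ _
  have δ2 : δ * (A + N + 12) ≤ ε := (le_div_iff₀ (by positivity)).1 (min_le_right _ _)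
  obtain ⟨C, hC⟩ := topL hE cn f D' δ0
  filter_upwards [h.loc x x' δ δ0, h.loc x' x δ δ0, d, fn, H δ δ0, h.big.sm C δ δ0]
    with n l l' d fn H c
  have u0 : (0 : ℝ) ≤ (X n).u := Nat.cast_nonneg _
  have e : δ * (X n).u + b * (X n).u = (b + δ) * (X n).u := by ring
  have k := hC ((X n).pull (Q n) (π n)) η θ β js Γ sl x x' _ _ _ _ _ _ (T n) (ν n) (Ψ n) h1 h2 h3 h4
    hx (by positivity) (by positivity) (e ▸ l.pull d) (e ▸ l'.pull d) fn H
  have k1 := mul_le_mul_of_nonneg_right h.drift (mul_nonneg hx' u0)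
  have k2 : |(q + δ) * (X n).u| ≤ (|q| + 1) * (X n).u := by
    rw [abs_mul, abs_of_nonneg u0]
    exact mul_le_mul_of_nonneg_right ((abs_add_le _ _).trans (by rw [abs_of_pos δ0]; linarith)) u0
  have k3 : a * (X n).u + |(q + δ) * (X n).u| + ((N + 1) * |Γ| + |js|) * (((x : ℝ) - x') * (X n).u) +
      (N + 5) * ((b + δ) * (X n).u) ≤ A * (X n).u := by
    have : (N + 5) * ((b + δ) * (X n).u) ≤ (N + 5) * ((b + 1) * (X n).u) := by gcongr
    rw [hA]
    linarith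
  have k4 := mul_le_mul_of_nonneg_left k3 δ0.le
  have k5 := mul_le_mul_of_nonneg_right δ2 u0
  have k6 := mul_le_mul_of_nonneg_right (h4.trans (pow_le_one₀ h1 h2)) (mul_nonneg δ0.le u0)
  change ch (Q n) (fun v => (X n).g.l (π n v)) _ ≤ ch (Q n) (fun v => (X n).g.l (π n v))
    (fun v => (X n).S x (π n v)) + ch (Q n) (T n) (fun v => (X n).O x' (π n v)) + _ - _ + _ + _ +
    _ + _ + _ at k
  simp only [uu] at c k ⊢
  linarith

/-- The estimate for a joining norm, under a law of density at most `exp (b u)`. -/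
theorem topJ (k : Kit N E E' D) {β₀ C₀ : ℝ} (hβ : 0 < β₀) (hC : 0 ≤ C₀) : ∃ C : ℝ, 1 ≤ C ∧
    ∀ {X : ℕ → St N D} {η θ β js Γ : ℝ} {sl : ℕ → ℝ} {x x' : ℚ}, Par N D C η θ → β₀ ≤ β →
    Tq X E η θ β js Γ sl → x' ≤ x → ∀ {b q : ℝ} {D' : ℕ} {W Λ : ℕ → Type} {Q : ∀ n, FP (W n)}
    {π : ∀ n, W n → (X n).Ω} {T : ∀ n, W n → Λ n} {ν : ∀ n, W n → VD N D → ℝ}
    {Ψ : ∀ n, W n → Fin (N + 1) → Pl (N + 1)}, 0 ≤ b →
    (∀ᶠ n in UF, Dn (Real.exp (b * (X n).u)) (Q n) (π n) (X n).P) →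
    Jn (fun n => (X n).pull (Q n) (π n)) η C₀ x x' ν →
    FnE Q (fun n v => (ν n v, Ψ n v)) (fun n => ((X n).g.pull (π n)).cx ((X n).lv x') (T n)) →
    (∀ ε : ℝ, 0 < ε → ∀ᶠ n in UF, ∀ v ∈ (Q n).S, (∀ i, (Ψ n v i).totalDegree ≤ D') ∧
      (∀ y ∈ Tq.sg4 X x' n (π n v), ∀ i, |eval y (Ψ n v i)| ≤ Real.exp ((b + ε) * (X n).u)) ∧
      ∃ y ∈ Tq.sg4 X x' n (π n v),
        ((X n).S x (π n v)).J ≤ Real.exp ((q + ε) * (X n).u) * |eval y (jac (Ψ n v))|) →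
    Le (uu X) (fun n => ch (Q n) (fun v => (X n).g.l (π n v))
        (((X n).g.pull (π n)).cx ((X n).lv x') (T n))) fun n =>
      ch (Q n) (fun v => (X n).g.l (π n v)) (fun v => (X n).S x (π n v)) +
        ch (Q n) (T n) (fun v => (X n).O x' (π n v)) +
        (q + (N + 8) * b - (lg + β / 2) * (x - x')) * (X n).u := by
  have c0 : 0 ≤ 6 * C₀ / β₀ := by positivity
  refine ⟨1 + 6 * C₀ / β₀, by linarith, fun {X η θ β js Γ sl x x'} pa hb h hx b q D' W Λ Q π T ν Ψ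
    b0 d j fn H => ?_⟩
  obtain ⟨p1, p2, p3, p4⟩ := pa
  have hx' : (0 : ℝ) ≤ (x : ℝ) - x' := sub_nonneg.2 (by exact_mod_cast hx)
  have p5 : 0 < η ^ dV N D := by positivity
  have e1 : C₀ * η ≤ β₀ / 6 := by
    have : 6 * C₀ / β₀ * η ≤ 1 := by nlinarith
    rw [div_mul_eq_mul_div, div_le_one hβ] at this
    linarith
  have e2 : θ * C₀ / η ^ dV N D ≤ β₀ / 6 := by
    have : 6 * C₀ / β₀ * θ ≤ η ^ dV N D := by nlinarith
    rw [div_mul_eq_mul_div, div_le_iff₀ hβ] at this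
    rw [div_le_iff₀ p5]
    linarith
  refine (topQ (a := C₀ * (x - x') / η ^ dV N D + 1) (p := C₀ * (x - x') / η ^ dV N D)
    (ψ := C₀ * η * (x - x')) (q := q) (D' := D') (k.le.trans k.le') k.cntF k.fill h p1.le
    (by nlinarith) p3 (by nlinarith) hx (by positivity) b0 d fn fun ε hε => ?_).trans
    (Le.of_le fun n => add_le_add le_rfl (mul_le_mul_of_nonneg_right ?_ (Nat.cast_nonneg _)))
  · filter_upwards [j 1 one_pos, j ε hε, H ε hε] with n a1 a2 a3 v hv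
    exact ⟨(a1 v hv).hb, (a1 v hv).bd, fun F => ⟨(a1 v hv).le F, (a1 v hv).up F⟩, (a2 v hv).dsp,
      by linarith [(a2 v hv).psi], (a3 v hv).1, (a3 v hv).2.1, (a3 v hv).2.2⟩
  · have : θ * (C₀ * (x - x') / η ^ dV N D) = θ * C₀ / η ^ dV N D * (x - x') := by ring
    nlinarith [mul_le_mul_of_nonneg_right e1 hx', mul_le_mul_of_nonneg_right e2 hx',
      mul_le_mul_of_nonneg_right hb hx', mul_nonneg hβ.le hx']

/-- The estimate for a joining norm under the law of the system. -/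
theorem topAt (k : Kit N E E' D) {β₀ C₀ : ℝ} (hβ : 0 < β₀) (hC : 0 ≤ C₀) : ∃ C : ℝ, 1 ≤ C ∧
    ∀ {X : ℕ → St N D} {η θ β js Γ : ℝ} {sl : ℕ → ℝ} {x x' : ℚ}, Par N D C η θ → β₀ ≤ β →
    Tq X E η θ β js Γ sl → x' ≤ x → ∀ {ν : ∀ n, (X n).Ω → VD N D → ℝ}, Jn X η C₀ x x' ν →
    Tq.TopAt X x x' ν ((lg + β / 2) * (x - x')) := by
  obtain ⟨C, C1, h⟩ := topJ k hβ hC
  refine ⟨C, C1, fun {X η θ β js Γ sl x x'} pa hb t hx ν j Λ T D' Ψ q fn H => ?_⟩
  have := h pa hb t hx (b := 0) (q := q) (D' := D') (Q := PP X) (π := fun _ => id) (T := T) le_rfl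
    (Eventually.of_forall fun n => by rw [zero_mul, Real.exp_zero]; exact K31.dn_rfl _) j fn
    fun ε hε => by rw [zero_add]; exact H ε hε
  rw [mul_zero, add_zero] at this
  exact this

end Pool.Agent.MP_5168f5_an.QA
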