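import Pool.Agent.MP_5168f5_an.QA.JnB
import Pool.Agent.MP_5168f5_an.QA.Top

/-! The maximal estimate in all dimensions: the joining norm on a trimmed event. -/

namespace Pool.Agent.MP_5168f5_an.QA

open H19 H17S H17F R4 AN Filter
open K31 (Dn)

variable {N D E E' : ℕ}

theorem Tq.tb {X : ℕ → St N D} {η θ β js Γ : ℝ} {sl : ℕ → ℝ} (h : Tq X E η θ β js Γ sl) :
    Tb X Set.univ η θ fun k x => sl k * x :=
  ⟨h.big, (h.loc 0 0 1 one_pos).mono fun _ a => a.box,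
    fun x _ => (h.loc x x 1 one_pos).mono fun _ a => a.top,
    fun x _ x' _ e => (h.loc x x' 1 one_pos).mono fun _ a => a.mono e,
    fun x _ x' _ ε e => (h.loc x x' ε e).mono fun _ a => a.lev,
    fun x _ => (h.loc x x 1 one_pos).mono fun _ a => a.val,
    fun x _ => (h.loc x x 1 one_pos).mono fun _ a => a.fn,
    fun x _ ε e => (h.loc x x ε e).mono fun _ a => a.opt,
    fun x _ ε e => (h.loc x x ε e).mono fun _ a => a.spec⟩

/-- The joining event can be trimmed. -/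
theorem JOIN.trm (h : JOIN N D) : ∃ C : ℝ, 1 ≤ C ∧ ∀ {η θ : ℝ} {σ : ℕ → ℚ → ℝ} {X : ℕ → St N D},
    Par N D C η θ → Tb X Set.univ η θ σ → ∀ {x x' : ℚ}, x' ≤ x →
    ∃ (G : ∀ n, (X n).Ω → Prop) (T : ∀ n, (X n).Ω → VD N D → ℝ), Trm X G ∧
      FnE (fun n => cE (X n).P (G n)) T (fun n => (X n).O x') ∧
      FnE (fun n => cE (X n).P (G n)) T (fun n => (X n).S x) ∧
      Jn (fun n => (X n).res (G n)) η C x x' T := by
  obtain ⟨C, c, h⟩ := h
  refine ⟨C, c, fun p t x x' e => ?_⟩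
  obtain ⟨G, T, a1, a2, a3, a4⟩ := h _ _ _ _ p t x x' e
  obtain ⟨G', b1, -, b2⟩ := ex_trm t.big a1
  have k := b2.mem.mono fun n a ω hω => (mem_cE ⟨ω, (a ω hω).1, b1 n ω (a ω hω).2⟩ ω).2
    ⟨(a ω hω).1, b1 n ω (a ω hω).2⟩
  refine ⟨G', T, b2, ?_, ?_, a4.pull (π := fun _ => id) k⟩
  · filter_upwards [a2, k] with n a b u hu v hv using a u (b u hu) v (b v hv)
  · filter_upwards [a3, k] with n a b u hu v hv using a u (b u hu) v (b v hv)

/-- The bound at the top holds for every law of subexponential density on the joining event. -/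
theorem joinTop (k : Kit N E E' D) {β₀ : ℝ} (hβ : 0 < β₀) : ∃ C : ℝ, 1 ≤ C ∧
    ∀ {X : ℕ → St N D} {η θ β js Γ : ℝ} {sl : ℕ → ℝ} {x x' : ℚ}, Par N D C η θ → β₀ ≤ β →
    Tq X E η θ β js Γ sl → x' ≤ x →
    ∃ (G : ∀ n, (X n).Ω → Prop) (T : ∀ n, (X n).Ω → VD N D → ℝ), Trm X G ∧
      FnE (fun n => cE (X n).P (G n)) T (fun n => (X n).O x') ∧
      FnE (fun n => cE (X n).P (G n)) T (fun n => (X n).S x) ∧
      Tq.TopAt (fun n => (X n).res (G n)) x x' T ((lg + β / 2) * (x - x')) ∧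
      ∀ (W : ℕ → Type) (Q : ∀ n, FP (W n)) (π : ∀ n, W n → (X n).Ω),
        (∀ c : ℝ, 0 < c → ∀ᶠ n in UF, Dn (Real.exp (c * (X n).u)) (Q n) (π n) (X n).P) →
        (∀ᶠ n in UF, ∀ v ∈ (Q n).S, G n (π n v)) →
        Tq.TopAt (fun n => (X n).pull (Q n) (π n)) x x' (fun n v => T n (π n v))
          ((lg + β / 2) * (x - x')) := by
  obtain ⟨C₀, c0, h⟩ := (sJoin N D k.nj).trm
  obtain ⟨C, c, h'⟩ := topAt k hβ (zero_le_one.trans c0)
  refine ⟨C₀ + C, by linarith, fun p b t e => ?_⟩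
  obtain ⟨G, T, a1, a2, a3, a4⟩ := h (p.mono (by linarith)) t.tb e
  refine ⟨G, T, a1, a2, a3, h' (p.mono (by linarith)) b (t.pull (dn_res a1.top)) e a4,
    fun W Q π d g => h' (p.mono (by linarith)) b (t.pull d) e (a4.pull ?_)⟩
  filter_upwards [d 1 one_pos, g] with n a g v hv using
    (mem_cE ⟨_, a.mem hv, g v hv⟩ _).2 ⟨a.mem hv, g v hv⟩

end Pool.Agent.MP_5168f5_an.QA
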