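import Pool.Agent.MP_5168f5_an.QA.JnD
import Pool.Agent.MP_5168f5_an.QA.ExtA
import Pool.Agent.MP_5168f5_an.QA.Step

/-! The maximal estimate in all dimensions: a copy of a label read from a longer piece. -/

namespace Pool.Agent.MP_5168f5_an.QA.JnA

open H19 H17S H17F R4 AN MvPolynomial Finset
open C1 (Hb deg_PD)
open ExtA (rem seg_nest hb_mul jc_smul sg_cmp)

variable {N D : ℕ}

/-- The dilated datum. -/
noncomputable def dil (x y : ℝ) (δ : Dc N D) (h : ℤ) : Dc N D :=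
  ⟨fun F => Real.exp x * δ.ν F, Real.exp (-y) * δ.J, h⟩

theorem sg_dil {ν : VD N D → ℝ} (h : Hb ν) {x : ℝ} (x0 : 0 ≤ x) {k : ℕ} (hk : k ≤ dV N D) :
    |sg k (fun F => Real.exp x * ν F) - sg k ν| ≤ dV N D * x := by
  have h' := hb_mul h (Real.exp_pos x)
  have a := sg_cmp h h' (fun _ => le_rfl) hk
  have b := sg_cmp (y := 0) h' h (fun F => by
    rw [Real.exp_zero, one_mul]
    exact le_mul_of_one_le_left (h.nonneg F) (Real.one_le_exp x0)) hk
  have c : (k : ℝ) * x ≤ dV N D * x := mul_le_mul_of_nonneg_right (by exact_mod_cast hk) x0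
  have d : 0 ≤ (k : ℝ) * x := by positivity
  exact abs_le.2 ⟨by linarith, by linarith⟩

theorem pen_dil {ν : VD N D → ℝ} (h : Hb ν) {x : ℝ} (x0 : 0 ≤ x) (cen : ℕ → ℝ) :
    pen cen (fun F => Real.exp x * ν F) ≤ pen cen ν + (dV N D + 1) * (dV N D * x) := by
  have : (dV N D + 1) * (dV N D * x) = ∑ _k ∈ range (dV N D + 1), dV N D * x := by simp
  rw [this, pen, pen, ← sum_add_distrib]
  exact sum_le_sum fun k hk => (abs_sub_le _ (sg k ν) _).trans (by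
    linarith [sg_dil h x0 (Nat.lt_succ_iff.1 (mem_range.1 hk))])

theorem psi_dil {ν : VD N D → ℝ} (h : Hb ν) {x η : ℝ} (x0 : 0 ≤ x) (h0 : 0 ≤ η) (h1 : η ≤ 1) :
    Psi η ν ≤ Psi η (fun F => Real.exp x * ν F) + (dV N D + 1) * (dV N D * x) := by
  have : (dV N D + 1) * (dV N D * x) = ∑ _k ∈ range (dV N D + 1), dV N D * x := by simp
  rw [this, Psi, Psi, ← sum_add_distrib]
  refine sum_le_sum fun k hk => ?_
  have a := (abs_le.1 (sg_dil h x0 (Nat.lt_succ_iff.1 (mem_range.1 hk)))).1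
  have b : η ^ k * (dV N D * x) ≤ dV N D * x :=
    mul_le_of_le_one_left (by positivity) (pow_le_one₀ h0 h1)
  nlinarith [pow_nonneg h0 k]

/-- The dilate of the datum of another point of the long piece is correct. -/
theorem copy (N D : ℕ) : ∃ K K' : ℝ, 0 ≤ K ∧ 0 ≤ K' ∧ ∀ (M c w : ℕ) (l : Ln N) (z z' : ℝ)
    (δ : Dc N D), δ.h = fl1 (c + w) z' → δ.Ok M (c + w) l → fl1 c z' = fl1 c z →
    (dil (K * (w + 1)) (K' * (w + 1)) δ (fl1 (c + w) z)).Ok M (c + w) l ∧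
      ∀ y ∈ seg M c l (fl1 c z) 5, ∀ F : VD N D, |eval y F.1| ≤ Real.exp (K * (w + 1)) * δ.ν F := by
  obtain ⟨K, K0, hK⟩ := rem D
  obtain ⟨L, L0, hL⟩ := rem ((N + 1) * D)
  refine ⟨K, (N + 1) * K + L + 1, K0, by positivity, fun M c w l z z' δ eh ok e => ?_⟩
  have bd : ∀ y ∈ seg M c l (fl1 c z) 5, ∀ F : VD N D,
      |eval y F.1| ≤ Real.exp (K * (w + 1)) * δ.ν F := fun y hy F =>
    hK _ M c w l z' 5 _ (deg_PD F) (fun y hy => ok.bd y (eh ▸ hy) F) y (e ▸ hy)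
  obtain ⟨Φ, u, y₀, h₀, j₀⟩ := ok.wit
  have y1 : y₀ ∈ seg M c l (fl1 c z) 4 := e ▸ seg_nest (eh ▸ h₀)
  have w0 : (0 : ℝ) ≤ w := Nat.cast_nonneg _
  obtain ⟨y, hy, j⟩ : ∃ y ∈ seg M (c + w) l (fl1 (c + w) z) 4,
      Real.exp (-((L + 1) * (w + 1))) * δ.J ≤ jc Φ y := by
    by_contra k
    have a := j₀.trans (hL _ M c w l z 4 _ (Nc.deg_jac fun i => deg_PD (Φ i))
      (fun y hy => (not_le.1 fun b => k ⟨y, hy, b⟩).le) y₀ y1)
    rw [← mul_assoc, ← Real.exp_add] at a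
    have b := Real.exp_lt_one_iff.2 (show L * (w + 1) + -((L + 1) * (w + 1)) < 0 by linarith)
    nlinarith [ok.pos]
  refine ⟨⟨hb_mul ok.hb (Real.exp_pos _), mul_pos (Real.exp_pos _) ok.pos,
    fun y hy => bd y (seg_nest hy), fun i => Real.exp (-(K * (w + 1))) • Φ i, fun i => ?_, y, hy,
    ?_⟩, bd⟩
  · change _ * δ.ν _ ≤ 1
    rw [ok.hb.smul, abs_of_pos (Real.exp_pos _), ← mul_assoc, ← Real.exp_add, add_neg_cancel,
      Real.exp_zero, one_mul]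
    exact u i
  · rw [jc_smul, abs_of_pos (Real.exp_pos _), ← Real.exp_nat_mul]
    refine le_trans (le_of_eq ?_) (mul_le_mul_of_nonneg_left j (Real.exp_pos _).le)
    rw [← mul_assoc, ← Real.exp_add]
    change Real.exp _ * δ.J = _
    congr 2
    push_cast
    ring

/-- An almost optimal label whose norm is read from the long piece. -/
theorem cpy (N D : ℕ) : ∃ K : ℝ, 0 ≤ K ∧ ∀ η : ℝ, 0 ≤ η → η ≤ 1 → ∀ (Ω : Type) (P : FP Ω)
    (g : Sh N Ω) (M c w : ℕ) (S : Ω → Dc N D), ∃ A : Ω → Dc N D,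
    Fn P (fun ω => (A ω).ν) (g.O c) ∧ (Val P g M (c + w) S → Val P g M (c + w) A ∧
      cst η P g (c + w) A ≤ cst η P g (c + w) S + K * (w + 1) ∧ ∀ ω ∈ P.S,
        (∀ y ∈ seg M c (g.l ω) (g.zc c ω) 5, ∀ F : VD N D, |eval y F.1| ≤ (A ω).ν F) ∧
        ∃ v ∈ P.S, ∀ cen, pen cen (A ω).ν ≤ pen cen (S v).ν + K * (w + 1)) := by
  obtain ⟨K, K', K0, K1, h⟩ := copy N D
  refine ⟨1 + K' + (dV N D + 1) * (dV N D * K), by positivity, fun η h0 h1 Ω P g M c w S => ?_⟩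
  obtain ⟨r, r1, r2⟩ := Op.derand P Prod.snd (fun _ δ => -sco η δ) (g.O c) S
  have w0 : (0 : ℝ) ≤ w := Nat.cast_nonneg _
  have x0 : 0 ≤ K * (w + 1) := by positivity
  have y0 : 0 ≤ K' * (w + 1) := by positivity
  refine ⟨fun ω => dil (K * (w + 1)) (K' * (w + 1)) (r (g.O c ω)) (g.zc (c + w) ω),
    fun u _ v _ e => by simp only [dil, e], fun hS => ?_⟩
  have k : ∀ ω ∈ P.S, ∃ v ∈ P.S, r (g.O c ω) = S v ∧ (S v).Ok M (c + w) (g.l ω) ∧
      (S v).h = fl1 (c + w) (g.z v) ∧ fl1 c (g.z v) = fl1 c (g.z ω) := fun ω hω => by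
    obtain ⟨v, a, b, d⟩ := r1 ω hω
    have e : g.l v = g.l ω := congrArg Prod.fst b
    exact ⟨v, a, d, e ▸ (hS v a).2, (hS v a).1, congrArg Prod.snd b⟩
  refine ⟨fun ω hω => ?_, ?_, fun ω hω => ?_⟩
  · obtain ⟨v, -, a, b, d, e⟩ := k ω hω
    beta_reduce
    rw [a]
    exact ⟨rfl, (h M c w _ _ _ _ d b e).1⟩
  · have a1 : ch P (fun ω => dil (K * (w + 1)) (K' * (w + 1)) (r (g.O c ω)) (g.zc (c + w) ω))
        (g.zc (c + w)) ≤ ch P (fun ω => r (g.O c ω)) (g.zc c) :=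
      ch_le (fun u _ v _ e => by
        simp only [Prod.mk.injEq] at e
        rw [e.1, e.2]) (Stp.fn_zc c w)
    have a2 := ch_tri' (P := P) S (g.zc c) (g.zc (c + w))
    have a3 := Stp.ch_zc (P := P) (g := g) c w
    have a4 : P.E (fun ω => sco η (r (g.O c ω))) ≤ P.E fun ω =>
        sco η (dil (K * (w + 1)) (K' * (w + 1)) (r (g.O c ω)) (g.zc (c + w) ω)) +
          (K' * (w + 1) + (dV N D + 1) * (dV N D * (K * (w + 1)))) := P.E_mono fun ω hω => by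
      obtain ⟨v, -, a, b, -⟩ := k ω hω
      have := psi_dil b.hb x0 h0 h1
      simp only [a, sco, dil]
      rw [Real.log_mul (Real.exp_pos _).ne' b.pos.ne', Real.log_exp]
      linarith
    rw [P.E_add, P.E_const] at a4
    have a5 : ch P (fun ω => r (g.O c ω)) (g.zc c) + P.E (fun ω => -sco η (r (g.O c ω))) ≤
      ch P S (g.zc c) + P.E fun ω => -sco η (S ω) := r2
    rw [P.E_neg, P.E_neg] at a5
    have a6 : w * lg ≤ w + 1 := by nlinarith [lg_lt_one]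
    unfold cst
    linarith
  · obtain ⟨v, hv, a, b, d, e⟩ := k ω hω
    beta_reduce
    rw [a]
    refine ⟨(h M c w _ _ _ _ d b e).2, v, hv, fun cen => (pen_dil b.hb x0 cen).trans ?_⟩
    linarith

end Pool.Agent.MP_5168f5_an.QA.JnA
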