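import Pool.Agent.MP_5168f5_an.QA.Bd
import Pool.Agent.MP_5168f5_an.QA.NJLin

/-! The joining norm at one sample. -/

namespace Pool.Agent.MP_5168f5_an.QA

open Finset AN AN.C1 Real
open BdA (hb_Bn)

variable {N D : ℕ} {ν ν' μ : VD N D → ℝ}

theorem sg_le_mt (hμ : Hb μ) {C : ℝ} (hC : 0 < C)
    (e : ∀ x, μ x ≤ C * ν x ∧ μ x ≤ C * ν' x) (ad : ∀ φ, Adm ν φ → Adm ν' φ → Adm μ φ) {k : ℕ}
    (hk : k ≤ dV N D) : sg k μ ≤ sg k (mt ν ν') := by
  have m1 : ∀ F, mt ν ν' F ≤ μ F := fun F =>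
    Real.sSup_le (by rintro _ ⟨φ, a, b, rfl⟩; exact ad φ a b F) (hμ.nonneg F)
  have m0 : ∀ F, 0 ≤ mt ν ν' F := fun F =>
    Real.sSup_nonneg (by rintro _ ⟨φ, -, -, rfl⟩; exact abs_nonneg _)
  have m2 : ∀ F, μ F ≤ C * mt ν ν' F := fun F => by
    obtain ⟨φ, u, v⟩ := hμ.dual F
    have k : ∀ N' : VD N D → ℝ, (∀ y, μ y ≤ C * N' y) → Adm N' (C⁻¹ • φ) := fun N' q y => by
      rw [LinearMap.smul_apply, smul_eq_mul, abs_mul, abs_of_pos (inv_pos.2 hC), inv_mul_le_iff₀ hC]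
      exact (u y).trans (q y)
    have : |(C⁻¹ • φ) F| ≤ mt ν ν' F := le_csSup ⟨ν F, by rintro _ ⟨φ, a, -, rfl⟩; exact a F⟩
      ⟨_, k ν fun y => (e y).1, k ν' fun y => (e y).2, rfl⟩
    rw [LinearMap.smul_apply, smul_eq_mul, abs_mul, abs_of_pos (inv_pos.2 hC),
      inv_mul_le_iff₀ hC, v] at this
    exact (le_abs_self _).trans this
  have r0 := C1TwoA.rho_nonneg (k := 1) hμ hb_Bn
  have p := rho_pos hμ hb_Bn rfl hk
  have b : rho k (mt ν ν') Bn ≤ rho k μ Bn := rho_le hb_Bn.nonneg p.le fun v =>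
    le_trans (by simpa using vol_mono m0 one_pos (by simpa using m1) v) (rLe _ μ Bn k v hμ hb_Bn)
  refine neg_le_neg (log_le_log (lt_of_not_ge fun z => p.not_ge ?_) b)
  refine rho_le hb_Bn.nonneg le_rfl fun v => (vol_mono hμ.nonneg hC m2 v).trans ?_
  rw [zero_mul]
  exact mul_nonpos_of_nonneg_of_nonpos (by positivity) ((le_rho' m0 hb_Bn.nonneg
    (C := rho 1 μ Bn + 1) (by linarith) (fun x => ((m1 x).trans (NJ.le_rho1 hμ hb_Bn x)).trans
      (mul_le_mul_of_nonneg_right (by linarith) (hb_Bn.nonneg x))) v).trans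
        (mul_nonpos_of_nonpos_of_nonneg z (vol_nonneg hb_Bn.nonneg v)))

theorem sg_up (h : Hb ν) (h' : Hb ν') {r : ℝ} (e : ∀ F, ν F ≤ exp r * ν' F) {k : ℕ}
    (hk : k ≤ dV N D) : sg k ν' ≤ sg k ν + k * r := by
  have a := log_le_log (rho_pos h hb_Bn rfl hk)
    ((rMul _ ν ν' Bn k h h' hb_Bn).2.2 _ (exp_pos r) e).2.1
  rw [log_mul (by positivity) (rho_pos h' hb_Bn rfl hk).ne', log_pow, log_exp] at a
  unfold sg
  linarith

theorem jnPt (N D : ℕ) : ∃ C : ℕ, 1 ≤ C ∧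
    ∃ (R : (VD N D → ℝ) → (ℕ → ℝ) → (Fin (dV N D) → ℕ) → VD N D → ℝ)
      (Ls : (VD N D → ℝ) → (ℕ → ℝ) → (Fin (dV N D) → ℕ) → Finset (VD N D → ℝ)),
      (∀ ν cen a, (Ls ν cen a).card ≤ C) ∧
      ∀ (ν ν' : VD N D → ℝ) (cen : ℕ → ℝ) (De η : ℝ), Hb ν → Hb ν' → 0 < η → η ≤ 1 →
        pen cen ν ≤ De → pen cen ν' ≤ De → ∃ a : Fin (dV N D) → ℕ,
          R ν' cen a ∈ Ls ν cen a ∧ Hb (R ν' cen a) ∧
          (∀ F, ν F ≤ R ν' cen a F ∧ ν' F ≤ R ν' cen a F) ∧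
          ∑ k : Fin (dV N D), η ^ (k : ℕ) * (a k : ℝ) ≤ gn η ν ν' + C * (De + 1) ∧
          (∀ r, 0 ≤ r → (∀ F, ν F ≤ exp r * ν' F) → ∀ k, (a k : ℝ) ≤ C * (r + De + 1)) ∧
          ∀ b, ∑ k : Fin (dV N D), η ^ (k : ℕ) * (a k : ℝ) ≤ b →
            (∀ k, (a k : ℝ) ≤ b / η ^ dV N D) ∧
            (∀ F, R ν' cen a F ≤ exp (C * (b / η ^ dV N D + 1)) * ν F) ∧
            dsp (R ν' cen a) ν ≤ C * (b / η ^ dV N D + 1) ∧
            pen cen (R ν' cen a) ≤ De + C * (b / η ^ dV N D + 1) ∧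
            Psi η ν - Psi η (R ν' cen a) ≤ C * η * (b + 1) := by
  obtain ⟨C, C1, hC⟩ := NJ.njLin (dV N D)
  obtain ⟨R, Ls, hL, h⟩ := hC (VD N D) Bn rfl hb_Bn
  have c1 : (1 : ℝ) ≤ C := by exact_mod_cast C1
  have d0 := Nat.cast_nonneg (α := ℝ) (dV N D)
  obtain ⟨K, hK⟩ : ∃ K : ℕ, K = C * (dV N D + 1) ^ 3 := ⟨_, rfl⟩
  have k0 : C ≤ K := hK ▸ Nat.le_mul_of_pos_right _ (by positivity)
  have k3 : (dV N D + 1 : ℝ) * (dV N D * (C * (dV N D + 1))) ≤ K := by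
    rw [hK]; push_cast; nlinarith [mul_nonneg (mul_nonneg d0 d0) (zero_le_one.trans c1)]
  have k2 : (C : ℝ) * (dV N D + 1) ≤ K := by
    rw [hK]; push_cast
    exact mul_le_mul_of_nonneg_left (le_self_pow₀ (by linarith) three_ne_zero) (by linarith)
  have k1 : (dV N D : ℝ) * C ≤ K := by linarith
  refine ⟨K, C1.trans k0, R, Ls, fun _ _ _ => (hL _ _ _).trans k0,
    fun ν ν' cen De η hν hν' η0 η1 p p' => ?_⟩
  have one : ∀ ν : VD N D → ℝ, ∀ k ≤ dV N D, |sg k ν - cen k| ≤ pen cen ν := fun ν k hk =>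
    single_le_sum (f := fun k => |sg k ν - cen k|) (fun _ _ => abs_nonneg _)
      (mem_range.2 (Nat.lt_succ_of_le hk))
  have D0 : 0 ≤ De := ((abs_nonneg _).trans (one ν 0 (Nat.zero_le _))).trans p
  obtain ⟨a, μ, hl, o⟩ := h ν ν' cen De hν hν' D0 fun k hk =>
    ⟨(one ν k hk).trans p, (one ν' k hk).trans p'⟩
  refine ⟨a, hl, o.ht, o.le, ?_, fun r r0 e k => (o.size r r0 e k).trans
    (mul_le_mul_of_nonneg_right (by exact_mod_cast k0) (by positivity)), fun b hb => ?_⟩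
  · rw [gn, ← Fin.sum_univ_eq_sum_range fun k => η ^ k * (sg k (mt ν ν') - sg k ν)]
    refine (sum_le_sum (g := fun k : Fin (dV N D) => η ^ (k : ℕ) * (sg k (mt ν ν') - sg k ν) +
      C * (De + 1)) fun k _ => ?_).trans ?_
    · have a1 : (a k : ℝ) ≤ sg k μ - sg k ν + C * (De + 1) := o.gain k
      have a2 := sg_le_mt o.hm (by linarith) o.mu o.adm k.2.le
      have a3 := mul_le_of_le_one_left (show 0 ≤ C * (De + 1) by positivity)
        (pow_le_one₀ (n := k) η0.le η1)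
      nlinarith [pow_pos η0 k]
    · rw [sum_add_distrib, sum_const, card_univ, Fintype.card_fin, nsmul_eq_mul, ← mul_assoc]
      gcongr
  generalize R ν' cen a = T at o
  have t0 : ∀ k : Fin (dV N D), 0 ≤ η ^ (k : ℕ) * (a k : ℝ) := fun k => by positivity
  have b0 : 0 ≤ b := (sum_nonneg fun k _ => t0 k).trans hb
  have q0 : 0 ≤ b / η ^ dV N D := by positivity
  have s1 : ∀ k, (a k : ℝ) ≤ b / η ^ dV N D := fun k => by
    rw [le_div_iff₀' (by positivity)]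
    exact le_trans (mul_le_mul_of_nonneg_right (pow_le_pow_of_le_one η0.le η1 k.2.le)
      (Nat.cast_nonneg _)) ((single_le_sum (fun k _ => t0 k) (mem_univ k)).trans hb)
  have s2 : C * (∑ i, (a i : ℝ) + 1) ≤ C * (dV N D + 1) * (b / η ^ dV N D + 1) := by
    have := sum_le_card_nsmul univ _ _ fun k _ => s1 k
    rw [card_univ, Fintype.card_fin, nsmul_eq_mul] at this
    rw [mul_assoc]
    exact mul_le_mul_of_nonneg_left (by nlinarith) (by linarith)
  have s3 : ∀ F, T F ≤ exp (C * (dV N D + 1) * (b / η ^ dV N D + 1)) * ν F := fun F =>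
    (o.up F).1.trans (mul_le_mul_of_nonneg_right (exp_le_exp.2 s2) (hν.nonneg F))
  have s4 : dsp T ν ≤ K * (b / η ^ dV N D + 1) := by
    unfold dsp pen
    refine (sum_le_card_nsmul _ _ (dV N D * (C * (dV N D + 1) * (b / η ^ dV N D + 1)))
      fun k hk => ?_).trans ?_
    · have hk' := Nat.lt_succ_iff.1 (mem_range.1 hk)
      have a1 := sg_up hν o.ht (r := 0) (fun F => by simpa using (o.le F).1) hk'
      have a2 := sg_up o.ht hν s3 hk'
      have a3 := mul_le_mul_of_nonneg_right (show (k : ℝ) ≤ dV N D by exact_mod_cast hk')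
        (show 0 ≤ C * (dV N D + 1) * (b / η ^ dV N D + 1) by positivity)
      have a4 : 0 ≤ dV N D * (C * (dV N D + 1) * (b / η ^ dV N D + 1)) := by positivity
      exact abs_le.2 ⟨by linarith, by linarith⟩
    · rw [card_range, nsmul_eq_mul]
      push_cast
      nlinarith [mul_le_mul_of_nonneg_right k3 (show 0 ≤ b / η ^ dV N D + 1 by positivity)]
  refine ⟨s1, fun F => (s3 F).trans (mul_le_mul_of_nonneg_right (exp_le_exp.2
    (mul_le_mul_of_nonneg_right k2 (by positivity))) (hν.nonneg F)), s4, ?_, ?_⟩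
  · refine le_trans ?_ (add_le_add p s4)
    rw [dsp, pen, pen, pen, ← sum_add_distrib]
    exact sum_le_sum fun k _ => (abs_sub_le _ (sg k ν) _).trans_eq (add_comm _ _)
  · rw [Psi, Psi, ← sum_sub_distrib, sum_range_succ', ← Fin.sum_univ_eq_sum_range
      fun k => η ^ (k + 1) * sg (k + 1) ν - η ^ (k + 1) * sg (k + 1) T]
    simp only [sg, rho_zero hν hb_Bn, rho_zero o.ht hb_Bn, sub_self, add_zero]
    refine (sum_le_card_nsmul _ _ (C * η * (b + 1)) fun k _ => ?_).trans ?_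
    · rw [← mul_sub, pow_succ', mul_assoc, mul_comm (C : ℝ), mul_assoc]
      refine mul_le_mul_of_nonneg_left ((mul_le_mul_of_nonneg_left (o.drop k)
        (by positivity)).trans ?_) η0.le
      rw [mul_left_comm, mul_add, mul_sum, mul_one]
      refine mul_le_mul_of_nonneg_left (add_le_add (le_trans ?_ hb) (pow_le_one₀ η0.le η1))
        (by linarith)
      exact (sum_le_sum fun (i : Fin (dV N D)) hi => mul_le_mul_of_nonneg_right
        (pow_le_pow_of_le_one η0.le η1 (Fin.le_def.1 (mem_Iic.1 hi)))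
          (Nat.cast_nonneg _)).trans
          (sum_le_sum_of_subset_of_nonneg (subset_univ _) fun i _ _ => t0 i)
    · rw [card_univ, Fintype.card_fin, nsmul_eq_mul, ← mul_assoc, ← mul_assoc]
      gcongr

end Pool.Agent.MP_5168f5_an.QA
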