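import Pool.Agent.MP_5168f5_an.QA.T1Cl

/-! The maximal estimate in all dimensions: fixing a variable with few values. -/

namespace Pool.Agent.MP_5168f5_an.QA

open H19 H17S H17F R4 AN Filter Finset
open G39 (dl)
open MX (cm cm_pos cm_le_one ch_eq_cm)

/-- The most likely value of `χ` on `G`. -/
theorem ex_val {Ω B : Type} (P : FP Ω) (G : Ω → Prop) (χ : Ω → B) : ∃ a, ∀ (U : Finset B)
    (A : Ω → Prop), (∀ ω ∈ P.S, G ω → A ω → χ ω ∈ U) →
      pb P (fun ω => G ω ∧ A ω) ≤ U.card * pb P fun ω => G ω ∧ χ ω = a := by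
  classical
  obtain ⟨ω₀, h₀, -⟩ := ex_of_pb (P := P) (E := fun _ => True) (by rw [pb_true]; norm_num)
  obtain ⟨v, -, k⟩ := exists_max_image P.S (fun v => pb P fun ω => G ω ∧ χ ω = χ v) ⟨ω₀, h₀⟩
  have k' : ∀ b, pb P (fun ω => G ω ∧ χ ω = b) ≤ pb P fun ω => G ω ∧ χ ω = χ v := fun b => by
    by_cases c : ∃ ω ∈ P.S, χ ω = b
    · obtain ⟨ω, a, rfl⟩ := c
      exact k ω a
    · exact (pb_zero fun ω a e => c ⟨ω, a, e.2⟩).trans_le (pb_nonneg _ _)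
  refine ⟨χ v, fun U A h => (pb_mono (F := fun ω => G ω ∧ χ ω ∈ U)
    fun ω a e => ⟨e.1, h ω a e.1 e.2⟩).trans ?_⟩
  clear h
  induction U using Finset.induction_on with
  | empty => exact (pb_zero fun ω _ e => notMem_empty _ e.2).trans_le (by simp)
  | insert b U hb ih =>
    refine (pb_mono (F := fun ω => (G ω ∧ χ ω = b) ∨ (G ω ∧ χ ω ∈ U)) fun ω _ e =>
      (mem_insert.1 e.2).imp (⟨e.1, ·⟩) (⟨e.1, ·⟩)).trans ((pb_or _ _ _).trans ?_)
    rw [card_insert_of_notMem hb]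
    push_cast
    linarith [k' b]

/-- Few values have a large probability. -/
theorem ex_heavy {Ω B : Type} (P : FP Ω) (χ : Ω → B) {δ : ℝ} (hδ : 0 < δ) : ∃ U : Finset B,
    (U.card : ℝ) ≤ δ⁻¹ ∧ ∀ ω ∈ P.S, δ ≤ pb P (fun v => χ v = χ ω) → χ ω ∈ U := by
  classical
  refine ⟨(P.S.filter fun ω => δ ≤ pb P fun v => χ v = χ ω).image χ, ?_,
    fun ω a b => mem_image_of_mem _ (mem_filter.2 ⟨a, b⟩)⟩
  set U := (P.S.filter fun ω => δ ≤ pb P fun v => χ v = χ ω).image χ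
  have s : ∑ b ∈ U, pb P (fun v => χ v = b) ≤ 1 := by
    simp only [pb, FP.E]
    rw [sum_comm]
    refine (sum_le_sum fun ω a => ?_).trans P.sum_one.le
    rw [← mul_sum]
    refine mul_le_of_le_one_right (P.pos ω a).le ?_
    rw [sum_ite_eq]
    split_ifs <;> norm_num
  rw [← mul_one δ⁻¹, le_inv_mul_iff₀ hδ, mul_comm, ← nsmul_eq_mul]
  refine (card_nsmul_le_sum U _ δ fun b hb => ?_).trans s
  obtain ⟨ω, a, rfl⟩ := mem_image.1 hb
  exact (mem_filter.1 a).2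

variable {Ω B : ℕ → Type} {P : ∀ n, FP (Ω n)} {u : ℕ → ℕ} {G : ∀ n, Ω n → Prop}
  {χ : ∀ n, Ω n → B n}

/-- A variable with few values can be fixed. -/
theorem top_list (g : ∀ c : ℝ, 0 < c → ∀ᶠ n in UF, dl u c n ≤ pb (P n) (G n))
    (h : ∀ c : ℝ, 0 < c → ∀ᶠ n in UF, ∃ U : Finset (B n), (U.card : ℝ) ≤ Real.exp (c * u n) ∧
      ∀ ω ∈ (P n).S, G n ω → χ n ω ∈ U) : ∃ a : ∀ n, B n, ∀ c : ℝ, 0 < c → ∀ᶠ n in UF,
      dl u c n ≤ pb (P n) fun ω => G n ω ∧ χ n ω = a n := by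
  choose a ha using fun n => ex_val (P n) (G n) (χ n)
  refine ⟨a, fun c hc => ?_⟩
  filter_upwards [g _ (half_pos hc), h _ (half_pos hc)] with n x ⟨U, y, z⟩
  have k := ha n U (fun _ => True) fun ω p q _ => z ω p q
  simp only [and_true] at k
  have k2 := (x.trans k).trans (mul_le_mul_of_nonneg_right y (pb_nonneg _ _))
  rwa [← G39.dl_inv, le_inv_mul_iff₀ (G39.dl_pos _ _ _), ← G39.dl_half] at k2

/-- A variable of small entropy can be fixed. -/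
theorem top_ent (hu : Big u) (g : Pos P G) (h : Sm u fun n => hh (P n) (χ n)) :
    ∃ a : ∀ n, B n, ∀ c : ℝ, 0 < c → ∀ᶠ n in UF,
      dl u c n ≤ pb (P n) fun ω => G n ω ∧ χ n ω = a n := by
  choose a ha using fun n => ex_val (P n) (G n) (χ n)
  obtain ⟨κ, k0, k1⟩ := g
  refine ⟨a, fun c hc => ?_⟩
  have w := KSA.mark P u (fun n ω => -Real.log (cm (P n) (fun _ => ()) (χ n) ω)) (c / 2) hu
    (half_pos hc) (Eventually.of_forall fun n ω hω => neg_nonneg.2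
      (Real.log_nonpos (cm_pos _ _ hω).le (cm_le_one _ _ _ _)))
    (h.mono (Eventually.of_forall fun n => by rw [← ch_eq_cm]; exact ch_le_hh _ _))
  filter_upwards [k1, w _ (half_pos k0), big_exp hu (2 / κ) (half_pos hc)] with n x y z
  obtain ⟨U, u1, u2⟩ := ex_heavy (P n) (χ n) (G39.dl_pos u (c / 2) n)
  have k := ha n U _ fun ω p _ (q : -Real.log (cm (P n) (fun _ => ()) (χ n) ω) ≤ c / 2 * u n) =>
    u2 ω p (by
      have e : cm (P n) (fun _ => ()) (χ n) ω = pb (P n) fun v => χ n v = χ n ω := by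
        rw [cm, cv, cE_congr (E' := fun _ => True) fun _ _ => by simp, cE_true]
      rw [← e, dl, ← Real.le_log_iff_exp_le (cm_pos _ _ p)]
      linarith)
  have k2 := pb_split (P n) (G n) fun ω => -Real.log (cm (P n) (fun _ => ()) (χ n) ω) ≤ c / 2 * u n
  have k3 : κ / 2 ≤ _ := le_trans (by linarith [(pb_mono (E := fun ω => G n ω ∧ _) fun _ _ e => e.2).trans y])
    (k.trans (mul_le_mul_of_nonneg_right u1 (pb_nonneg _ _)))
  rw [le_inv_mul_iff₀ (G39.dl_pos _ _ _)] at k3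
  rw [← G39.dl_inv, ← inv_div, inv_le_inv₀ (half_pos k0) (G39.dl_pos _ _ _)] at z
  rw [G39.dl_half]
  exact (mul_le_mul_of_nonneg_left z (G39.dl_pos _ _ _).le).trans k3

variable {N D : ℕ} {X : ℕ → St N D} {E : ℕ} {η θ β js Γ : ℝ} {kf : ℕ → ℕ} {sl : ℕ → ℝ}
  {G : ∀ n, (X n).Ω → Prop} {χ : ∀ n, (X n).Ω → B n}

theorem Ts.frz (h : Ts X E η θ β js Γ kf sl) (k : ∃ a : ∀ n, B n, ∀ c : ℝ, 0 < c → ∀ᶠ n in UF,
    dl (uu X) c n ≤ pb (X n).P fun ω => G n ω ∧ χ n ω = a n) :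
    ∃ (a : ∀ n, B n) (G' : ∀ n, (X n).Ω → Prop), (∀ n ω, G' n ω → G n ω ∧ χ n ω = a n) ∧
      Trm X G' ∧ Ts (fun n => (X n).res (G' n)) E η θ β js Γ kf sl :=
  k.imp fun _ a => (h.trim a).imp fun _ b => ⟨b.1, b.2.2⟩

end Pool.Agent.MP_5168f5_an.QA
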