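import Pool.Agent.MP_5168f5_an.QA.JnA
import Pool.Agent.MP_5168f5_an.QA.JnPt
import Pool.Agent.MP_5168f5_an.QA.T1Frz

/-! The maximal estimate in all dimensions: the joining norm from its pointwise form. -/

namespace Pool.Agent.MP_5168f5_an.QA

open H19 H17S H17F R4 AN Filter MvPolynomial Finset
open C1 (Hb)

namespace JnA

variable {N D : ℕ}

/-- The pointwise form. -/
def PtJ (N D : ℕ) : Prop := ∃ C : ℕ, 1 ≤ C ∧
  ∃ (R : (VD N D → ℝ) → (ℕ → ℝ) → (Fin (dV N D) → ℕ) → VD N D → ℝ)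
    (Ls : (VD N D → ℝ) → (ℕ → ℝ) → (Fin (dV N D) → ℕ) → Finset (VD N D → ℝ)),
  (∀ ν cen a, (Ls ν cen a).card ≤ C) ∧ ∀ (ν ν' : VD N D → ℝ) (cen : ℕ → ℝ) (De η : ℝ), Hb ν →
  Hb ν' → 0 < η → η ≤ 1 / 2 → pen cen ν ≤ De → pen cen ν' ≤ De → ∃ a : Fin (dV N D) → ℕ,
    R ν' cen a ∈ Ls ν cen a ∧ (∀ F, ν' F ≤ R ν' cen a F) ∧
    ∑ k, η ^ k.1 * a k ≤ gn η ν ν' + C * (De + 1) ∧ ∀ b : ℝ, ∑ k, η ^ k.1 * a k ≤ b →
      Jo η (C * (b / η ^ dV N D + 1)) (C * η * (b + 1)) ∅ ν (R ν' cen a)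

theorem ptJ (N D : ℕ) : PtJ N D := by
  obtain ⟨C, c, R, Ls, k, h⟩ := jnPt N D
  refine ⟨C, c, R, Ls, k, fun ν ν' cen De η a b η0 η1 p p' => ?_⟩
  obtain ⟨x, h1, h2, h3, h4, -, h5⟩ := h ν ν' cen De η a b η0 (by linarith) p p'
  exact ⟨x, h1, fun F => (h3 F).2, h4, fun y hy => ⟨h2, fun _ e => e.elim, fun F => (h3 F).1,
    (h5 y hy).2.1, (h5 y hy).2.2.1, (h5 y hy).2.2.2.2⟩⟩

theorem ex_idx {α : Type} (L : Finset α) : ∃ i : α → ℕ, (∀ t ∈ L, i t < L.card) ∧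
    ∀ t ∈ L, ∀ t' ∈ L, i t = i t' → t = t' := by
  classical
  refine ⟨fun t => if h : t ∈ L then L.equivFin ⟨t, h⟩ else 0, fun t h => ?_, fun t h t' h' e => ?_⟩
  · simp only [dif_pos h]
    exact Fin.is_lt _
  · simp only [dif_pos h, dif_pos h'] at e
    exact congrArg Subtype.val (L.equivFin.injective (Fin.ext e))

theorem half {Ω : Type} (P : FP Ω) {f : Ω → ℝ} (h : ∀ ω ∈ P.S, 0 ≤ f ω) :
    1 / 2 ≤ pb P fun ω => ¬2 * P.E f + 1 ≤ f ω := by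
  have a := G39.markov P h (2 * P.E f + 1)
  have b : 0 ≤ P.E f := P.E_nonneg h
  rw [pb_not]
  nlinarith [pb_nonneg P fun ω => 2 * P.E f + 1 ≤ f ω]

/-- The finite form. -/
theorem fin (hp : PtJ N D) (nj : NJ N D) : ∃ C : ℝ, 1 ≤ C ∧ ∀ η θ : ℝ, Par N D C η θ →
    ∃ C' : ℝ, 1 ≤ C' ∧ ∀ (Ω : Type) (P : FP Ω) (g : Sh N Ω) (M c w : ℕ) (S : Ω → Dc N D)
    (cen : ℕ → ℝ), ∃ (G : Ω → Prop) (T : Ω → VD N D → ℝ), ∀ e p Y : ℝ, g.Box P → c + w ≤ M →
    Val P g M (c + w) S → 0 ≤ e → Opd η θ P g M (c + w) S e → 0 ≤ p →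
    (∀ ω ∈ P.S, pen cen (S ω).ν ≤ p) → C * (w + p) + C' * (1 + e) ≤ Y →
    1 ≤ C' * (Y / η ^ dV N D + 1) ^ dV N D * pb P G ∧ Fn (cE P G) T (g.O c) ∧ Fn (cE P G) T S ∧
      ∀ ω ∈ (cE P G).S, Jo η (Y / η ^ dV N D) (η * Y) (seg M c (g.l ω) (g.zc c ω) 5) (S ω).ν
        (T ω) := by
  classical
  obtain ⟨C₁, c1, R, Ls, cL, hp⟩ := hp
  obtain ⟨C₂, c2, nj⟩ := nj
  obtain ⟨K, K0, hK⟩ := cpy N D
  have c1' : (1 : ℝ) ≤ C₁ := by exact_mod_cast c1
  obtain ⟨B, hB⟩ : ∃ B : ℝ, B = 2 * C₁ * ((C₁ + C₂) * (2 * K + 2)) := ⟨_, rfl⟩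
  have B0 : 0 ≤ B := by rw [hB]; positivity
  refine ⟨B + C₂ + 2, by linarith, fun η θ pa => ?_⟩
  obtain ⟨C₃, c3, nj⟩ := nj η θ (pa.mono (by linarith))
  have η0 := pa.1
  have η1 : η ≤ 1 / 2 := by nlinarith [pa.2.1]
  have η2 : η ≤ 1 := by linarith
  have q0 : 0 < η ^ dV N D := pow_pos η0 _
  have q1 : η ^ dV N D ≤ 1 := pow_le_one₀ η0.le η2
  refine ⟨B + 2 * C₁ * (C₁ + C₃ + 1), by nlinarith, fun Ω P g M c w S cen => ?_⟩
  obtain ⟨A, fA, hA⟩ := hK η η0.le η2 Ω P g M c w S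
  have : Nonempty (Fin (dV N D) → ℕ) := ⟨0⟩
  choose! a a1 a2 a3 a4 using fun (ω : Ω) (h : Hb (S ω).ν ∧ Hb (A ω).ν) =>
    hp (S ω).ν (A ω).ν cen (pen cen (S ω).ν + pen cen (A ω).ν) η h.1 h.2 η0 η1
      (le_add_of_nonneg_right (Stp.pen_nonneg _ _)) (le_add_of_nonneg_left (Stp.pen_nonneg _ _))
  choose i i1 i2 using ex_idx (α := VD N D → ℝ)
  obtain ⟨f, hf⟩ : ∃ f : Ω → ℝ, f = fun ω => ∑ k, η ^ k.1 * a ω k := ⟨_, rfl⟩
  have f0 : ∀ ω, 0 ≤ f ω := fun ω => by rw [hf]; positivity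
  obtain ⟨⟨a₀, i₀⟩, h₀⟩ := ex_val P (fun ω => ¬2 * P.E f + 1 ≤ f ω)
    fun ω => (a ω, i (Ls (S ω).ν cen (a ω)) (R (A ω).ν cen (a ω)))
  refine ⟨fun ω => ¬2 * P.E f + 1 ≤ f ω ∧
    (a ω, i (Ls (S ω).ν cen (a ω)) (R (A ω).ν cen (a ω))) = (a₀, i₀),
    fun ω => R (A ω).ν cen a₀, fun e p Y bx hc vS e0 op p0 pS hY => ?_⟩
  obtain ⟨vA, cA, hA⟩ := hA vS
  have w0 : (0 : ℝ) ≤ w := Nat.cast_nonneg _
  have x0 : 0 ≤ K * (w + 1) := by positivity
  have hb : ∀ ω ∈ P.S, Hb (S ω).ν ∧ Hb (A ω).ν := fun ω h => ⟨(vS ω h).2.hb, (vA ω h).2.hb⟩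
  have m1 : P.E (fun ω => pen cen (S ω).ν + pen cen (A ω).ν) ≤ 2 * p + K * (w + 1) :=
    (P.E_mono fun ω h => by
      obtain ⟨v, hv, k⟩ := (hA ω h).2
      linarith [pS ω h, pS v hv, k cen]).trans_eq (P.E_const _)
  have m2 := (nj Ω P g M (c + w) S A cen e _ bx hc vS vA e0 x0 op cA).1
  have m3 : P.E f ≤ P.E fun ω => gn η (S ω).ν (A ω).ν +
      (C₁ * (pen cen (S ω).ν + pen cen (A ω).ν) + C₁) := P.E_mono fun ω h => by
    rw [hf]
    linarith [a3 ω (hb ω h)]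
  rw [P.E_add, P.E_add, P.E_mul, P.E_const] at m3
  have m4 : C₁ * (2 * P.E f + 1 + 1) ≤ Y := by
    have n1 := mul_le_mul_of_nonneg_left m1 (show 0 ≤ (C₁ : ℝ) + C₂ by linarith)
    have n2 : (C₁ + C₂) * (2 * p + 2 * K * (w + 1)) ≤ (C₁ + C₂) * (2 * K + 2) * (w + p + 1) := by
      rw [mul_assoc (C₁ + C₂)]
      exact mul_le_mul_of_nonneg_left (by nlinarith) (by linarith)
    have n3 : P.E f ≤ (C₁ + C₂) * (2 * K + 2) * (w + p + 1) + C₁ + C₃ * (1 + e) := by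
      nlinarith
    have n4 := mul_le_mul_of_nonneg_left n3 (show 0 ≤ 2 * (C₁ : ℝ) by linarith)
    have n5 : 0 ≤ (C₂ + 2) * (w + p) := by positivity
    have n6 : 0 ≤ B * e := by positivity
    have n7 : 0 ≤ 2 * C₁ * (C₁ + 1) * e := by positivity
    refine le_trans ?_ hY
    rw [hB] at n6 ⊢
    linarith
  have E0 : 0 ≤ P.E f := P.E_nonneg fun ω _ => f0 ω
  have m5 : 2 * P.E f + 1 ≤ Y := by nlinarith
  have m6 := (half P fun ω _ => f0 ω).trans ((pb_mono fun ω _ k => And.intro k trivial).trans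
    (h₀ (Fintype.piFinset (fun _ => range (⌊Y / η ^ dV N D⌋₊ + 1)) ×ˢ range C₁) (fun _ => True)
      fun ω h k _ => mem_product.2 ⟨Fintype.mem_piFinset.2 fun j => ?_,
        mem_range.2 ((i1 _ _ (a1 ω (hb ω h))).trans_le (cL _ _ _))⟩))
  · have y0 : 0 ≤ Y / η ^ dV N D := div_nonneg (by linarith) q0.le
    rw [card_product, Fintype.card_piFinset, prod_const, card_range, card_range, card_univ,
      Fintype.card_fin] at m6
    push_cast at m6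
    have ex := ex_of_pb ((mul_pos_iff_of_pos_left (by positivity)).1 (one_half_pos.trans_le m6))
    refine ⟨?_, fun u hu v hv k => ?_, fun u hu v hv k => ?_, fun ω hω => ?_⟩
    · have n1 : ((⌊Y / η ^ dV N D⌋₊ : ℝ) + 1) ^ dV N D * C₁ * 2 ≤
          (B + 2 * C₁ * (C₁ + C₃ + 1)) * (Y / η ^ dV N D + 1) ^ dV N D := by
        rw [mul_assoc, mul_comm]
        exact mul_le_mul (by nlinarith) (pow_le_pow_left₀ (by positivity)
          (add_le_add_left (Nat.floor_le y0) 1) _) (by positivity) (by positivity)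
      refine le_trans ?_ (mul_le_mul_of_nonneg_right n1 (pb_nonneg _ _))
      linarith
    · exact congrArg (R · cen a₀) (fA u (cE_sub hu) v (cE_sub hv) k)
    · obtain ⟨u1, -, u2⟩ := (mem_cE ex u).1 hu
      obtain ⟨v1, -, v2⟩ := (mem_cE ex v).1 hv
      obtain ⟨u3, u4⟩ := Prod.mk.inj u2
      obtain ⟨v3, v4⟩ := Prod.mk.inj v2
      have u5 := a1 u (hb u u1)
      have v5 := a1 v (hb v v1)
      rw [u3] at u4 u5
      rw [v3, ← k] at v4 v5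
      exact i2 _ _ u5 _ v5 (u4.trans v4.symm)
    · obtain ⟨u1, u0, u2⟩ := (mem_cE ex ω).1 hω
      have j := a4 ω (hb ω u1) (2 * P.E f + 1) ((congrFun hf ω).ge.trans (not_le.1 u0).le)
      have j' := a2 ω (hb ω u1)
      rw [(Prod.mk.inj u2).1] at j j'
      refine Jo.mono ⟨j.hb, fun y hy F => ((hA ω u1).1 y hy F).trans (j' F), j.le, j.up, j.dsp,
        j.psi⟩ (hb ω u1).1 ?_ ?_
      · rw [div_add_one q0.ne', ← mul_div_assoc]
        exact div_le_div_of_nonneg_right (le_trans (by nlinarith) m4) q0.le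
      · rw [mul_comm _ η, mul_assoc]
        exact mul_le_mul_of_nonneg_left m4 η0.le
  · rw [mem_range, Nat.lt_succ_iff]
    refine Nat.le_floor ((le_div_iff₀' q0).2 (le_trans ?_ ((not_le.1 k).le.trans m5)))
    rw [hf]
    exact (mul_le_mul_of_nonneg_right (pow_le_pow_of_le_one η0.le η2 j.2.le)
      (Nat.cast_nonneg _)).trans (single_le_sum (f := fun k : Fin (dV N D) => η ^ k.1 * a ω k)
        (fun k _ => by positivity) (mem_univ j))

theorem join (hp : PtJ N D) (nj : NJ N D) : JOIN N D := by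
  obtain ⟨C, c1, h⟩ := fin hp nj
  refine ⟨C, c1, fun η θ σ X pa t x x' hx => ?_⟩
  obtain ⟨C', c2, h⟩ := h η θ pa
  choose G T h using fun n => h _ (X n).P (X n).g (X n).M ((X n).lv x')
    ((X n).lv x - (X n).lv x') ((X n).S x) ((X n).cen σ x)
  have η0 := pa.1
  have q0 : 0 < η ^ dV N D := pow_pos η0 _
  have η1 : η ≤ 1 := by nlinarith [pa.2.1]
  have x0 : (0 : ℝ) ≤ x - x' := sub_nonneg.2 (by exact_mod_cast hx)
  have k := fun (ε : ℝ) (hε : 0 < ε) => show ∀ᶠ n in UF, _ by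
    have p : 0 < ε / (2 * C + 2 * C') := by positivity
    filter_upwards [t.box, t.top x trivial, t.mono x' trivial x trivial hx, t.val x trivial,
      t.lev x' trivial x trivial _ p, t.opt x trivial _ p, t.spec x trivial _ p,
      t.big.sm 1 _ p] with n b1 b2 b3 b4 b5 b6 b7 b8
    have e := Nat.add_sub_of_le b3
    rw [← e] at b2 b4 b6
    refine h n _ _ ((C * (x - x') + ε) * (X n).u) b1 b2 b4 (by positivity) b6 (by positivity) b7 ?_
    rw [Nat.cast_sub b3]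
    have a1 := mul_le_mul_of_nonneg_left b5 (zero_le_one.trans c1)
    have a2 := mul_le_mul_of_nonneg_left b8 (zero_le_one.trans c2)
    have a3 : ε * (X n).u = (2 * C + 2 * C') * (ε / (2 * C + 2 * C') * (X n).u) := by field_simp
    linarith
  refine ⟨G, T, fun c hc => ?_, (k 1 one_pos).mono fun _ a => a.2.1,
    (k 1 one_pos).mono fun _ a => a.2.2.1, fun ε hε => ?_⟩
  · have p : 1 ≤ (C * (x - x') + 1) / η ^ dV N D :=
      (one_le_div q0).2 ((pow_le_one₀ η0.le η1).trans (by nlinarith))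
    filter_upwards [k 1 one_pos, (((((Sub.nat t.big).const_mul t.big p).pow
      (dV N D)).const_mul t.big c2).2 c hc)] with n a b
    rw [← inv_inv (G39.dl _ _ _), G39.dl_inv, inv_le_iff_one_le_mul₀' (Real.exp_pos _)]
    refine a.1.trans (mul_le_mul_of_nonneg_right (le_trans ?_ b) (pb_nonneg _ _))
    refine mul_le_mul_of_nonneg_left (pow_le_pow_left₀ (by positivity) ?_ _) (by linarith)
    rw [mul_div_right_comm]
    linarith
  · filter_upwards [k _ (mul_pos hε q0), t.val x trivial] with n a b ω hω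
    refine (a.2.2.2 ω hω).mono (b ω (cE_sub hω)).2.hb (le_of_eq (by field_simp)) ?_
    rw [← mul_assoc]
    refine mul_le_mul_of_nonneg_right ?_ (Nat.cast_nonneg _)
    have := mul_le_mul_of_nonneg_left (mul_le_one₀ η1 q0.le (pow_le_one₀ η0.le η1)) hε.le
    linarith

end JnA

theorem sJoin : SJoin := fun N D => JnA.join (JnA.ptJ N D)

end Pool.Agent.MP_5168f5_an.QA
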