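import Pool.Agent.MP_5168f5_an.AN.GAAll
import Pool.Agent.MP_5168f5_an.AN.N2Alg

/-! An exact frame chosen from a closed family of letters. -/

namespace Pool.Agent.MP_5168f5_an.QA.Lt

open AN AN.GA H61Z Matrix Finset
open N2 (El eB eC tri rk)

section Gen

variable {ι κ J : Type} [Fintype κ] [DecidableEq κ] [Nonempty (κ → J)] (G : J → κ → ℝ)

/-- A choice of letters with the largest determinant. -/
noncomputable def sel : κ → J := Classical.epsilon fun s =>
  ∀ s' : κ → J, |(of fun a => G (s' a)).det| ≤ |(of fun a => G (s a)).det|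

/-- The rows of the chosen letters. -/
noncomputable def mat : Matrix κ κ ℝ := of fun a => G (sel G a)

/-- The coordinates of a vector in the chosen basis. -/
noncomputable def co (y : κ → ℝ) : κ → ℝ := y ᵥ* (mat G)⁻¹

/-- The letters span. -/
def Sp : Prop := ∃ s : κ → J, (of fun a => G (s a)).det ≠ 0

variable {G} [Fintype J]

theorem sel_max (s' : κ → J) : |(of fun a => G (s' a)).det| ≤ |(mat G).det| := by
  classical
  refine Classical.epsilon_spec (p := fun s : κ → J =>
    ∀ s' : κ → J, |(of fun a => G (s' a)).det| ≤ |(of fun a => G (s a)).det|) ?_ s'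
  obtain ⟨s, -, h⟩ := exists_max_image (univ : Finset (κ → J))
    (fun s => |(of fun a => G (s a)).det|) univ_nonempty
  exact ⟨s, fun s' => h s' (mem_univ _)⟩

theorem Sp.det (h : Sp G) : IsUnit (mat G).det := by
  obtain ⟨s, h⟩ := h
  exact isUnit_iff_ne_zero.2 (abs_pos.1 ((abs_pos.2 h).trans_le (sel_max s)))

theorem Sp.inj (h : Sp G) : Function.Injective (sel G) := fun a b e => by
  by_contra k
  exact h.det.ne_zero (det_zero_of_row_eq k (show G (sel G a) = G (sel G b) by rw [e]))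

theorem Sp.co_mul (h : Sp G) (y : κ → ℝ) : co G y ᵥ* mat G = y := by
  rw [co, vecMul_vecMul, nonsing_inv_mul _ h.det, vecMul_one]

theorem Sp.co_le (h : Sp G) (j : J) (a : κ) : |co G (G j) a| ≤ 1 := by
  have e : (mat G).updateRow a (G j) = of fun b => G (Function.update (sel G) a j b) := by
    ext b e
    by_cases k : b = a
    · subst k; simp
    · simp [updateRow_ne k, Function.update_of_ne k, mat]
  have e2 : ((mat G).updateRow a (G j)).det = co G (G j) a * (mat G).det := by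
    have := det_updateRow_sum (mat G) a (co G (G j))
    rw [smul_eq_mul] at this
    rw [← this]
    congr 2
    exact (h.co_mul (G j)).symm.trans (vecMul_eq_sum _ _)
  have := sel_max (G := G) (Function.update (sel G) a j)
  rw [← e, e2, abs_mul] at this
  exact le_of_mul_le_mul_right (by rwa [one_mul]) (abs_pos.2 h.det.ne_zero)

theorem Sp.co_sum (h : Sp G) {t : J → ℝ} {X : ℝ} (ht : ∀ j, |t j| ≤ X) (a : κ) :
    |co G (∑ j, t j • G j) a| ≤ Fintype.card J * X := by
  have e : co G (∑ j, t j • G j) a = ∑ j, t j * co G (G j) a := by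
    simp only [co, sum_vecMul, smul_vecMul, Finset.sum_apply, Pi.smul_apply, smul_eq_mul]
  rw [e]
  refine (abs_sum_le_sum_abs _ _).trans ((sum_le_card_nsmul _ _ X fun j _ => ?_).trans (by simp))
  rw [abs_mul]
  exact (mul_le_of_le_one_right (abs_nonneg _) (h.co_le j a)).trans (ht j)

variable [Fintype ι] [DecidableEq ι] {Φ : Filt (Mt ι)} {B : κ → Mt ι} {c : κ → κ → κ → ℝ}

theorem Sp.fr (h : Sp G) (hB : IsFr Φ B c) :
    IsFr Φ (mB (mat G) B) (mC (mat G) (mat G)⁻¹ c) :=
  ((sFr ι κ Φ B c).2 _ _ (mul_nonsing_inv _ h.det)).1 hB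

omit [Fintype ι] [DecidableEq ι] [DecidableEq κ] [Nonempty (κ → J)] [Fintype J] in
theorem vec_mB (A : Matrix κ κ ℝ) (B : κ → Mt ι) (t : κ → ℝ) :
    GA.vec (mB A B) t = GA.vec B (t ᵥ* A) := by
  simp only [GA.vec, mB, smul_sum, smul_smul, vecMul, dotProduct, sum_smul]
  exact sum_comm

omit [Fintype ι] [DecidableEq ι] in
theorem Sp.vec (h : Sp G) (y : κ → ℝ) : GA.vec (mB (mat G) B) (co G y) = GA.vec B y := by
  rw [vec_mB, h.co_mul]

/-- The constants of the chosen frame are bounded. -/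
theorem Sp.bd (h : Sp G) {L : ℝ} (hG : ∀ i j, ∃ γ : J → ℝ, (∀ k, |γ k| ≤ L) ∧
    br c (G i) (G j) = ∑ k, γ k • G k) (a b e : κ) :
    |mC (mat G) (mat G)⁻¹ c a b e| ≤ Fintype.card J * L := by
  obtain ⟨γ, h1, h2⟩ := hG (sel G a) (sel G b)
  have := h.co_sum h1 e
  rwa [← h2] at this

end Gen

section Ap

variable {m : ℕ} {J : Type} (kk : Fin m → ℝ) (η W : ℝ) (Y : J → Mt (Fin m))

/-- The scale of an elementary matrix. -/
noncomputable def sc (e : El kk) : ℝ := η * (2 * W) ^ (rk kk e.1.1 - rk kk e.1.2)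

/-- The letters together with the scaled elementary matrices. -/
noncomputable def lm : J ⊕ El kk → Mt (Fin m) := Sum.elim Y fun e => sc kk η W e • eB kk e

/-- The entries of a matrix. -/
def en (X : Mt (Fin m)) : El kk → ℝ := fun a => X a.1.1 a.1.2

instance : Nonempty (El kk → J ⊕ El kk) := ⟨Sum.inr⟩

/-- The chosen letters. -/
noncomputable def sg : El kk → J ⊕ El kk := sel fun j => en kk (lm kk η W Y j)

/-- The frame. -/
noncomputable def fb (a : El kk) : Mt (Fin m) := lm kk η W Y (sg kk η W Y a)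

/-- Its constants. -/
noncomputable def fc : El kk → El kk → El kk → ℝ :=
  mC (mat fun j => en kk (lm kk η W Y j)) (mat fun j => en kk (lm kk η W Y j))⁻¹ (eC kk)

/-- The coordinates of a matrix in the frame. -/
noncomputable def fx (X : Mt (Fin m)) : El kk → ℝ := co (fun j => en kk (lm kk η W Y j)) (en kk X)

variable [Fintype J]

/-- A family of letters that is closed under brackets up to `η`. -/
structure Ap (L : ℝ) : Prop where
  pos : 0 < η
  one : 1 ≤ L
  wo : 1 ≤ W
  sm : η * (2 * W) ^ m ≤ 1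
  mem : ∀ j, Y j ∈ (tri kk).F 0
  bd : ∀ j p q, |Y j p q| ≤ W
  cl : ∀ i j, ∃ γ : J → ℝ, (∀ k, |γ k| ≤ L) ∧
    ∀ p q, |(cm (Y i) (Y j) - ∑ k, γ k • Y k) p q| ≤ η

variable {kk η W Y} {L : ℝ}

theorem rk_le (kk : Fin m → ℝ) (p : Fin m) : rk kk p ≤ m :=
  (Finset.card_filter_le _ _).trans_eq (by simp)

namespace Ap

variable (h : Ap kk η W Y L)
include h

theorem sc_pos (e : El kk) : 0 < sc kk η W e := mul_pos h.pos (pow_pos (by linarith [h.wo]) _)

theorem sc_le (e : El kk) : sc kk η W e ≤ η * (2 * W) ^ m := mul_le_mul_of_nonneg_left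
  (pow_le_pow_right₀ (by linarith [h.wo]) ((Nat.sub_le _ _).trans (rk_le kk _))) h.pos.le

theorem el_bd (e : El kk) (p q : Fin m) : |lm kk η W Y (.inr e) p q| ≤ η * (2 * W) ^ m := by
  have := h.sc_pos e
  simp only [lm, Sum.elim_inr, eB, Matrix.smul_apply, single_apply, smul_eq_mul]
  split_ifs
  · rw [mul_one, abs_of_pos this]; exact h.sc_le e
  · simpa using this.le.trans (h.sc_le e)

theorem lm_mem (j : J ⊕ El kk) : lm kk η W Y j ∈ (tri kk).F 0 := by
  rcases j with j | e
  · exact h.mem j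
  · exact N2.mem_F0.2 fun p q k => by
      simp [lm, N2.mem_F0.1 (N2.eB_mem e) p q k]

theorem lm_bd (j : J ⊕ El kk) (p q : Fin m) : |lm kk η W Y j p q| ≤ W := by
  rcases j with j | e
  · exact h.bd j p q
  · exact (h.el_bd e p q).trans (h.sm.trans h.wo)

theorem sp : Sp fun j => en kk (lm kk η W Y j) := by
  classical
  refine ⟨Sum.inr, ?_⟩
  have e : (of fun a => en kk (lm kk η W Y (.inr a))) = diagonal (sc kk η W) := by
    ext a b
    by_cases k : a = b
    · subst k; simp [en, lm, eB]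
    · rw [diagonal_apply_ne _ k]
      simp only [of_apply, en, lm, Sum.elim_inr, eB, Matrix.smul_apply, smul_eq_mul]
      rw [single_apply_of_ne, mul_zero]
      exact fun u => k (Subtype.ext (Prod.ext u.1 u.2))
  convert_to (diagonal (sc kk η W)).det ≠ 0
  · convert congrArg Matrix.det e
  rw [det_diagonal]
  exact (prod_pos fun a _ => h.sc_pos a).ne'

omit [Fintype J] h in
theorem fb_eq (hm : ∀ j, lm kk η W Y j ∈ (tri kk).F 0) :
    fb kk η W Y = mB (mat fun j => en kk (lm kk η W Y j)) (eB kk) :=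
  funext fun _ => (N2.vec_of (hm _)).symm

/-- A small matrix is a bounded combination of the scaled elementary matrices. -/
theorem exp_el {Z : Mt (Fin m)} {g : ℕ} {X : ℝ} (hZ : Z ∈ (tri kk).F g)
    (hb : ∀ p q, |Z p q| ≤ X * (η * (2 * W) ^ (g + 1))) :
    ∃ γ : El kk → ℝ, (∀ e, |γ e| ≤ X) ∧ en kk Z = ∑ e, γ e • en kk (lm kk η W Y (.inr e)) := by
  have w := h.wo
  refine ⟨fun e => en kk Z e / sc kk η W e, fun e => ?_, funext fun a => ?_⟩
  · have p : 0 < η * (2 * W) ^ (g + 1) := mul_pos h.pos (pow_pos (by linarith) _)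
    have x0 : 0 ≤ X := nonneg_of_mul_nonneg_left ((abs_nonneg _).trans (hb e.1.1 e.1.2)) p
    rw [abs_div, abs_of_pos (h.sc_pos e), div_le_iff₀ (h.sc_pos e)]
    by_cases k : rk kk e.1.2 + g < rk kk e.1.1
    · exact (hb _ _).trans (mul_le_mul_of_nonneg_left (mul_le_mul_of_nonneg_left
        (pow_le_pow_right₀ (by linarith) (by omega)) h.pos.le) x0)
    · rw [en, hZ _ _ k, abs_zero]; exact mul_nonneg x0 (h.sc_pos e).le
  · rw [Finset.sum_apply, sum_eq_single a (fun b _ k => ?_) (by simp)]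
    · have := (h.sc_pos a).ne'
      simp only [Pi.smul_apply, en, lm, Sum.elim_inr, eB, Matrix.smul_apply, smul_eq_mul,
        single_apply_same, mul_one]
      field_simp
    · simp only [Pi.smul_apply, en, lm, Sum.elim_inr, eB, Matrix.smul_apply, smul_eq_mul]
      rw [single_apply_of_ne, mul_zero, mul_zero]
      exact fun u => k (Subtype.ext (Prod.ext u.1 u.2))

theorem cm_el (j : J ⊕ El kk) (e : El kk) : ∃ γ : El kk → ℝ, (∀ e, |γ e| ≤ 1) ∧
    en kk (cm (lm kk η W Y j) (lm kk η W Y (.inr e))) =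
      ∑ e, γ e • en kk (lm kk η W Y (.inr e)) := by
  have r := N2.rk_lt.2 e.2
  have m1 : lm kk η W Y (.inr e) ∈ (tri kk).F (rk kk e.1.1 - rk kk e.1.2 - 1) := fun p q k => by
    simp only [lm, Sum.elim_inr, eB, Matrix.smul_apply, smul_eq_mul]
    rw [single_apply_of_ne, mul_zero]
    rintro ⟨rfl, rfl⟩
    omega
  refine h.exp_el (sub_mem ((tri kk).mul_l _ _ _ (h.lm_mem j) m1)
    ((tri kk).mul_r _ _ _ m1 (h.lm_mem j))) fun p q => ?_
  have s0 := h.sc_pos e
  have b1 : |(lm kk η W Y j * lm kk η W Y (.inr e)) p q| ≤ W * sc kk η W e := by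
    simp only [lm, Sum.elim_inr, eB, Matrix.mul_smul, Matrix.smul_apply, smul_eq_mul]
    by_cases k : q = e.1.2
    · rw [k, mul_single_apply_same, mul_one, abs_mul, abs_of_pos s0, mul_comm]
      exact mul_le_mul_of_nonneg_right (h.lm_bd j _ _) s0.le
    · rw [mul_single_apply_of_ne (hbj := k)]
      simpa using mul_nonneg (by linarith [h.wo]) s0.le
  have b2 : |(lm kk η W Y (.inr e) * lm kk η W Y j) p q| ≤ W * sc kk η W e := by
    simp only [lm, Sum.elim_inr, eB, Matrix.smul_mul, Matrix.smul_apply, smul_eq_mul]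
    by_cases k : p = e.1.1
    · rw [k, single_mul_apply_same, one_mul, abs_mul, abs_of_pos s0, mul_comm]
      exact mul_le_mul_of_nonneg_right (h.lm_bd j _ _) s0.le
    · rw [single_mul_apply_of_ne (h := k)]
      simpa using mul_nonneg (by linarith [h.wo]) s0.le
  rw [show rk kk e.1.1 - rk kk e.1.2 - 1 + 1 = rk kk e.1.1 - rk kk e.1.2 by omega, pow_succ]
  refine (abs_sub _ _).trans ((add_le_add b1 b2).trans_eq ?_)
  unfold sc; ring

theorem cls (i j : J ⊕ El kk) : ∃ γ : J ⊕ El kk → ℝ, (∀ k, |γ k| ≤ L) ∧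
    br (eC kk) (en kk (lm kk η W Y i)) (en kk (lm kk η W Y j)) =
      ∑ k, γ k • en kk (lm kk η W Y k) := by
  have l0 := h.one
  have e : ∀ i j, br (eC kk) (en kk (lm kk η W Y i)) (en kk (lm kk η W Y j)) =
      en kk (cm (lm kk η W Y i) (lm kk η W Y j)) := fun i j => funext fun a => by
    have := (sMul _ _ _ _ _ (N2.isFr kk)).vbr (en kk (lm kk η W Y i)) (en kk (lm kk η W Y j))
    rw [show GA.vec (eB kk) (en kk (lm kk η W Y i)) = _ from N2.vec_of (h.lm_mem i),
      show GA.vec (eB kk) (en kk (lm kk η W Y j)) = _ from N2.vec_of (h.lm_mem j)] at this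
    rw [← this, en, N2.vec_eB]
  have k : ∀ i e', ∃ γ : J ⊕ El kk → ℝ, (∀ k, |γ k| ≤ L) ∧
      en kk (cm (lm kk η W Y i) (lm kk η W Y (.inr e'))) = ∑ k, γ k • en kk (lm kk η W Y k) :=
    fun i e' => by
      obtain ⟨γ, a, b⟩ := h.cm_el i e'
      refine ⟨Sum.elim 0 γ, ?_, by rw [b, Fintype.sum_sum_type]; simp⟩
      rintro (k | k)
      · simpa using zero_le_one.trans l0
      · exact (a k).trans l0
  rw [e]
  rcases j with j | j
  · rcases i with i | i
    · obtain ⟨γ, a, b⟩ := h.cl i j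
      have m0 : cm (Y i) (Y j) - ∑ k, γ k • Y k ∈ (tri kk).F 0 := N2.mem_F0.2 fun p q u => by
        have := N2.mem_F0.1 (sub_mem ((tri kk).anti 0 ((tri kk).mul_l 0 _ _ (h.mem i) (h.mem j)))
          ((tri kk).anti 0 ((tri kk).mul_l 0 _ _ (h.mem j) (h.mem i)))) p q u
        rw [Matrix.sub_apply, cm, this, Matrix.sum_apply]
        simp [fun k => N2.mem_F0.1 (h.mem k) p q u]
      obtain ⟨γ', a', b'⟩ := h.exp_el (X := 1) m0 fun p q => (b p q).trans (by
        have := h.pos; have := h.wo; rw [one_mul, zero_add, pow_one]; nlinarith)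
      refine ⟨Sum.elim γ γ', ?_, ?_⟩
      · rintro (k | k)
        · exact a k
        · exact (a' k).trans l0
      · rw [Fintype.sum_sum_type]
        simp only [Sum.elim_inl, Sum.elim_inr, ← b']
        funext u
        simp [en, lm, Matrix.sum_apply]
    · obtain ⟨γ, a, b⟩ := k (.inl j) i
      refine ⟨-γ, fun u => by simpa using a u, ?_⟩
      simp only [Pi.neg_apply, neg_smul, sum_neg_distrib, ← b]
      funext u
      simp [en, cm]
  · exact k i j

/-- The frame is exact. -/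
theorem fr : IsFr (tri kk) (fb kk η W Y) (fc kk η W Y) := by
  rw [fb_eq h.lm_mem]
  exact h.sp.fr (N2.isFr kk)

theorem inj : Function.Injective (sg kk η W Y) := h.sp.inj

theorem fc_le (a b e : El kk) :
    |fc kk η W Y a b e| ≤ (Fintype.card J + Fintype.card (El kk)) * L := by
  simpa [fc] using h.sp.bd h.cls a b e

theorem fb_le (a : El kk) (p q : Fin m) : |fb kk η W Y a p q| ≤ W := h.lm_bd _ p q

theorem vec_fx {X : Mt (Fin m)} (hX : X ∈ (tri kk).F 0) :
    GA.vec (fb kk η W Y) (fx kk η W Y X) = X := by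
  rw [fb_eq h.lm_mem, fx, h.sp.vec]
  exact N2.vec_of hX

theorem ex_fx {X : Mt (Fin m)} (hX : X ∈ (tri kk).F 0) :
    ex (fb kk η W Y) (fx kk η W Y X) = IsNilpotent.exp X := by rw [ex, h.vec_fx hX]

/-- A vector of the frame is a letter or is small. -/
theorem fb_or (a : El kk) : (∃ j, sg kk η W Y a = .inl j ∧ fb kk η W Y a = Y j) ∨
    (∃ e, sg kk η W Y a = .inr e) ∧ ∀ p q, |fb kk η W Y a p q| ≤ η * (2 * W) ^ m := by
  unfold fb
  rcases sg kk η W Y a with j | e
  · exact .inl ⟨j, rfl, rfl⟩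
  · exact .inr ⟨⟨e, rfl⟩, h.el_bd e⟩

/-- A bounded combination of letters plus a small matrix has bounded coordinates. -/
theorem fx_le {Z : Mt (Fin m)} {t : J → ℝ} {X : ℝ} (hZ : Z ∈ (tri kk).F 0) (ht : ∀ j, |t j| ≤ X)
    (hb : ∀ p q, |(Z - ∑ j, t j • Y j) p q| ≤ X * η) (h0 : 0 ≤ X) (a : El kk) :
    |fx kk η W Y Z a| ≤ (Fintype.card J + Fintype.card (El kk)) * X := by
  have m0 : Z - ∑ k, t k • Y k ∈ (tri kk).F 0 := N2.mem_F0.2 fun p q u => by
    rw [Matrix.sub_apply, N2.mem_F0.1 hZ p q u, Matrix.sum_apply]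
    simp [fun k => N2.mem_F0.1 (h.mem k) p q u]
  obtain ⟨γ, a', b'⟩ := h.exp_el (X := X) m0 fun p q => (hb p q).trans
    (mul_le_mul_of_nonneg_left (by
      have := h.pos; have := h.wo; rw [zero_add, pow_one]; nlinarith) h0)
  have e : en kk Z = ∑ k, Sum.elim t γ k • en kk (lm kk η W Y k) := by
    rw [Fintype.sum_sum_type]
    simp only [Sum.elim_inl, Sum.elim_inr, ← b']
    funext u
    simp [en, lm, Matrix.sum_apply]
  have := h.sp.co_sum (t := Sum.elim t γ) (X := X) (by rintro (k | k); exacts [ht k, a' k]) a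
  rw [← e] at this
  simpa [fx] using this

/-- The product of weights over the frame. -/
theorem prod_le {w : J ⊕ El kk → ℝ} (hw : ∀ j, 0 ≤ w j) :
    ∏ a, (1 + w (sg kk η W Y a)) ≤ ∏ j, (1 + w j) := by
  classical
  rw [← prod_image (f := fun j => 1 + w j) (h.inj.injOn (s := (univ : Finset (El kk))))]
  exact prod_le_prod_of_subset_of_one_le (subset_univ _) (fun j _ => by linarith [hw j])
    fun j _ _ => by linarith [hw j]

end Ap

end Ap

end Pool.Agent.MP_5168f5_an.QA.Lt
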