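import Pool.Agent.MP_5168f5_an.QA.Nbhd
import Pool.Agent.MP_5168f5_an.AN.NcNu

/-! A function with bounded derivatives in a chart takes few values over a cube of the chart. -/

namespace Pool.Agent.MP_5168f5_an.QA

open MeasureTheory Finset MvPolynomial H83 AN.Nc
open scoped ENNReal

variable {n : ℕ}

/-- The rule of Cramer. -/
theorem Dv_eq (Φ : Fin n → Pl n) (i : Fin n) (F : Pl n) :
    Dv Φ i F = jac (Function.update Φ i F) := by
  have : jm (Function.update Φ i F) = (jm Φ).updateRow i fun j => pderiv j F := by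
    ext1 a j
    by_cases h : a = i
    · subst h; simp [jm]
    · simp [jm, h]
  rw [jac, this, ← Matrix.cramer_transpose_apply, Matrix.cramer_eq_adjugate_mulVec,
    ← Matrix.adjugate_transpose]
  simp [Dv, Matrix.mulVec, dotProduct]

theorem ints {U : Set ℝ} {W : ℕ} (h : volume U ≤ W) : ∃ T : Finset ℤ, T.card ≤ W ∧
    ∀ z : ℤ, Set.Ico (z : ℝ) (z + 1) ⊆ U → z ∈ T := by
  have k : ∀ T : Finset ℤ, (∀ z ∈ T, Set.Ico (z : ℝ) (z + 1) ⊆ U) → T.card ≤ W := fun T hT => by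
    have h1 := measure_biUnion_finset (μ := volume) (s := T)
      (f := fun z : ℤ => Set.Ico (z : ℝ) (z + 1))
      (fun a _ b _ e => Set.pairwise_disjoint_Ico_intCast ℝ e) fun _ _ => measurableSet_Ico
    have h2 := (measure_mono (Set.iUnion₂_subset hT)).trans h
    simp only [h1, Real.volume_Ico, add_sub_cancel_left, ENNReal.ofReal_one, sum_const,
      nsmul_eq_mul, mul_one] at h2
    exact_mod_cast h2
  have f : {z : ℤ | Set.Ico (z : ℝ) (z + 1) ⊆ U}.Finite := by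
    by_contra e
    obtain ⟨T, t1, t2⟩ := Set.Infinite.exists_subset_card_eq e (W + 1)
    have := k T fun z hz => t1 hz
    omega
  exact ⟨f.toFinset, k _ fun z hz => f.mem_toFinset.1 hz, fun z hz => f.mem_toFinset.2 hz⟩

theorem grad_ev (F : Pl n) (y : Unit ⊕ Fin n → ℝ) :
    grad (fun y : Unit ⊕ Fin n → ℝ => eval (fun b => y (.inr b)) F) y =
      Sum.elim (fun _ => 0) fun j => eval (fun b => y (.inr b)) (pderiv j F) := by
  have h := (IsPoly.hasFDerivAt_eval F fun b => y (.inr b)).comp y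
    (hasFDerivAt_pi.2 fun b => hasFDerivAt_apply (𝕜 := ℝ) (Sum.inr b : Unit ⊕ Fin n) y)
  have h' : fderiv ℝ (fun y : Unit ⊕ Fin n → ℝ => eval (fun b => y (.inr b)) F) y = _ := h.fderiv
  funext s
  rcases s with s | s <;> simp [grad, h', Pi.single_apply]

/-- One function. -/
theorem lst (n d : ℕ) : ∃ C : ℕ, ∀ (Φ : Fin n → Pl n) (F : Pl n) (u : V n) (r Λ R s : ℝ),
    (∀ i, (Φ i).totalDegree ≤ d) → F.totalDegree ≤ d → 0 < r → 0 < Λ → Λ * r ≤ s →
    ∃ T : Finset ℤ, T.card ≤ C ∧ ∀ x : V n, ‖x‖ ≤ R → (∀ i, |eval x (Φ i) - u i| ≤ r) →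
      eval x (jac Φ) ≠ 0 → (∀ i, |eval x (Dv Φ i F)| ≤ Λ * |eval x (jac Φ)|) →
      ⌊eval x F / s⌋ ∈ T := by
  obtain ⟨M, hM⟩ := sec' Unit (Fin n) (Option (Fin n ⊕ Fin n ⊕ Fin n) ⊕ Unit)
    (2 * (d + n * d + 1))
  refine ⟨M * (2 + 8 * n), fun Φ F u r Λ R s hΦ hF r0 Λ0 hs => ?_⟩
  have s0 : 0 < s := (mul_pos Λ0 r0).trans_le hs
  let e : Pl n → (Unit ⊕ Fin n → ℝ) → ℝ := fun G y => eval (fun b => y (.inr b)) G
  have c1 : ∀ b, IsPoly 1 fun y : Unit ⊕ Fin n → ℝ => y (.inr b) := fun b => IsPoly.coord _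
  have c2 : ∀ G : Pl n, G.totalDegree ≤ d + n * d → IsPoly (d + n * d + 1) (e G) := fun G hG =>
    (IsPoly.comp_aff (F := fun x => eval x G) ⟨_, hG, fun _ => rfl⟩ c1).mono (Nat.le_succ _)
  have c3 : IsPoly (d + n * d + 1) fun y => -s⁻¹ * e F y + y (.inl ()) :=
    ((c2 F (by omega)).const_mul _).add ((IsPoly.coord _).mono (by omega))
  let p : Option (Fin n ⊕ Fin n ⊕ Fin n) ⊕ Unit → (Unit ⊕ Fin n → ℝ) → ℝ :=
    Sum.elim (fun o => o.elim (fun y => e (jac Φ) y ^ 2) (Sum.elim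
      (fun i y => (|R| + 1) ^ 2 - y (.inr i) ^ 2) (Sum.elim
      (fun i y => (2 * r) ^ 2 - (e (Φ i) y - u i) ^ 2)
      fun i y => (2 * Λ * e (jac Φ) y) ^ 2 - e (Dv Φ i F) y ^ 2)))
      fun _ y => 1 ^ 2 - (-s⁻¹ * e F y + y (.inl ())) ^ 2
  have hp : ∀ y, (∀ j, 0 < p j y) ↔ (e (jac Φ) y ≠ 0 ∧ (∀ i, |y (.inr i)| < |R| + 1) ∧
      (∀ i, |e (Φ i) y - u i| < 2 * r) ∧ ∀ i, |e (Dv Φ i F) y| < 2 * Λ * |e (jac Φ) y|) ∧
      |-s⁻¹ * e F y + y (.inl ())| < 1 := fun y => by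
    have q1 : |(|R| + 1)| = |R| + 1 := abs_of_pos (by positivity)
    simp only [p, Sum.forall, Option.forall, Sum.elim_inl, Sum.elim_inr, Option.elim, sub_pos,
      sq_lt_sq, sq_pos_iff, q1, abs_mul, abs_two, abs_of_pos r0, abs_of_pos Λ0, abs_one,
      forall_const]
  have k := hM (Option (Fin n)) p
    (fun o _ => o.elim (fun y => -s⁻¹ * e F y + y (.inl ())) fun i => e (Φ i))
    (fun o => o.elim 1 fun _ => 2 * Λ / s)
    (fun o => Set.univ.pi fun _ => o.elim (Set.Icc (-1) 1) fun i => Set.Icc (u i - 2 * r) (u i + 2 * r))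
    (fun j => by
      rcases j with (_ | i | i | i) | _
      · exact (c2 _ ((deg_jac hΦ).trans (by omega))).pow 2
      · exact (H83.IsPoly.const _ _).sub (((c1 i).mono (by omega)).pow 2)
      · exact (H83.IsPoly.const _ _).sub (((c2 _ ((hΦ i).trans (by omega))).sub (H83.IsPoly.const _ _)).pow 2)
      · exact (((c2 _ ((deg_jac hΦ).trans (by omega))).const_mul _).pow 2).sub
          ((c2 _ ((deg_Dv hΦ i hF).trans (by omega))).pow 2)
      · exact (H83.IsPoly.const _ _).sub (c3.pow 2))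
    (fun o _ => by
      rcases o with _ | i
      · exact c3.mono (by omega)
      · exact (c2 _ ((hΦ i).trans (by omega))).mono (by omega))
    (fun o => by
      rcases o with _ | i
      · exact zero_le_one
      · exact (by positivity : 0 ≤ 2 * Λ / s))
    (fun a => ⟨|R| + 1, fun x hx => (pi_norm_le_iff_of_nonneg (by positivity)).2 fun i =>
      (((hp _).1 hx).1.2.1 i).le⟩)
    (fun y hy L => by
      obtain ⟨⟨y1, -, -, y2⟩, -⟩ := (hp y).1 hy
      let x : V n := fun b => y (.inr b)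
      let T : (Unit ⊕ Fin n → ℝ) →ₗ[ℝ] ℝ :=
        (Matrix.detRowAlternating (n := Unit ⊕ Fin n) (R := ℝ)).toMultilinearMap.toLinearMap
          (Sum.elim (fun _ => 0) L) (.inl ())
      have t : ∀ v, det2 (fun _ : Unit => v) L = T v := fun v =>
        congrArg Matrix.det (by
          funext a
          rcases a with a | a <;> simp <;> rfl)
      have e1 : (Pi.single (.inl ()) 1 : Unit ⊕ Fin n → ℝ) =
          grad (fun y => -s⁻¹ * e F y + y (.inl ())) y +
            ∑ i, (s⁻¹ * dW Φ F 1 (fun _ => i) x) • grad (e (Φ i)) y := by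
        rw [grad_add (c2 F (by omega)) (IsPoly.coord _), grad_coord]
        simp only [e, grad_ev]
        funext a
        rcases a with a | a
        · simp
        · simp [x, pderiv_eq Φ F y1 a, mul_sum, mul_assoc]
      simp only [t, Fintype.sum_option, Option.elim, one_mul]
      rw [show det2 (fun a : Unit => Pi.single (.inl a) 1) L = T (Pi.single (.inl ()) 1) from
        t (Pi.single (.inl ()) 1), e1, map_add, map_sum]
      refine (abs_add_le _ _).trans (add_le_add le_rfl ((abs_sum_le_sum_abs _ _).trans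
        (sum_le_sum fun i _ => ?_)))
      rw [map_smul, smul_eq_mul, abs_mul, abs_mul, abs_of_pos (inv_pos.2 s0), dW_one _ _ _ y1,
        abs_div, inv_mul_eq_div]
      gcongr
      exact div_le_of_le_mul₀ (abs_nonneg _) (by positivity) (y2 i).le)
    (fun o y hy _ _ => by
      obtain ⟨⟨-, -, y1, -⟩, y2⟩ := (hp y).1 hy
      rcases o with _ | i
      · exact abs_le.1 y2.le
      · exact ⟨sub_le_comm.1 (by simpa using (abs_sub_lt_iff.1 (y1 i)).2.le),
          sub_le_iff_le_add'.1 (abs_sub_lt_iff.1 (y1 i)).1.le⟩)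
  have k1 := (volume_preserving_funUnique Unit ℝ).symm.measure_preimage_equiv
    {a : Unit → ℝ | ∃ x, ∀ j, 0 < p j (Sum.elim a x)}
  obtain ⟨T, t1, t2⟩ := ints (W := M * (2 + 8 * n)) (k1.trans_le (k.trans (by
    push_cast
    gcongr
    simp only [Fintype.sum_option, Option.elim, volume_pi_pi, Real.volume_Icc, univ_unique,
      prod_singleton, ENNReal.ofReal_one, one_mul]
    refine add_le_add (by norm_num) ((sum_le_card_nsmul _ _ 8 fun i _ => ?_).trans (by
      simp [mul_comm]))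
    rw [← ENNReal.ofReal_mul (by positivity), ← ENNReal.ofReal_ofNat 8]
    refine ENNReal.ofReal_le_ofReal ?_
    rw [div_mul_eq_mul_div, div_le_iff₀ s0]
    nlinarith)))
  refine ⟨T, t1, fun x x1 x2 x3 x4 => t2 _ fun z hz => ⟨x, (hp _).2 ⟨⟨x3, fun i => ?_,
    fun i => (x2 i).trans_lt (by linarith), fun i => (x4 i).trans_lt ?_⟩, ?_⟩⟩⟩
  · exact ((norm_le_pi_norm x i).trans x1).trans_lt (by linarith [le_abs_self R])
  · exact mul_lt_mul_of_pos_right (by linarith) (abs_pos.2 x3)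
  · have a := Int.floor_le (eval x F / s)
    have b := Int.lt_floor_add_one (eval x F / s)
    change |-s⁻¹ * eval x F + z| < 1
    rw [neg_mul, inv_mul_eq_div, abs_lt]
    exact ⟨by linarith [hz.1], by linarith [hz.2]⟩

/-- A finite family of functions. -/
theorem lsts (n d m : ℕ) : ∃ C : ℕ, ∀ (Φ : Fin n → Pl n) (F : Fin m → Pl n) (u : V n)
    (r Λ R s : ℝ), (∀ i, (Φ i).totalDegree ≤ d) → (∀ a, (F a).totalDegree ≤ d) → 0 < r → 0 < Λ →
    Λ * r ≤ s → ∃ T : Finset (Fin m → ℤ), T.card ≤ C ∧ ∀ x : V n, ‖x‖ ≤ R →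
      (∀ i, |eval x (Φ i) - u i| ≤ r) → eval x (jac Φ) ≠ 0 →
      (∀ a i, |eval x (jac (Function.update Φ i (F a)))| ≤ Λ * |eval x (jac Φ)|) →
      (fun a => ⌊eval x (F a) / s⌋) ∈ T := by
  obtain ⟨C, h⟩ := lst n d
  refine ⟨C ^ m, fun Φ F u r Λ R s hΦ hF r0 Λ0 hs => ?_⟩
  choose T t1 t2 using fun a => h Φ (F a) u r Λ R s hΦ (hF a) r0 Λ0 hs
  refine ⟨Fintype.piFinset T, ?_, fun x x1 x2 x3 x4 => Fintype.mem_piFinset.2 fun a =>
    t2 a x x1 x2 x3 fun i => by rw [Dv_eq]; exact x4 a i⟩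
  rw [Fintype.card_piFinset]
  simpa using prod_le_pow_card univ _ C fun a _ => t1 a

end Pool.Agent.MP_5168f5_an.QA
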