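import Pool.Agent.MP_5168f5_an.QA.Spr
import Pool.Agent.MP_5168f5_an.QA.Spec1

/-! Filling for the uniform virtual point. -/

namespace Pool.Agent.MP_5168f5_an.QA

open H19 H17S H17F R4 AN Filter

theorem ofFill : OfFill := by
  intro N E E₀ D h ε hε
  obtain ⟨R, hR⟩ := h ε hε
  refine ⟨max R ⌈(N + 1) / ε⌉₊, fun Ω Λ P g M c T A Φ m hb hv hf H => ?_⟩
  filter_upwards [eventually_ge_atTop (R * P.S.sup m)] with J hJ
  have l := fst_law P N J
  have d := dn_fst P N J
  obtain ⟨K, k1, k2, k3⟩ := hR _ _ (NQ P N J) (g.pull Prod.fst) M c (fun v => g.cx c T v.1)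
    (fun v => A v.1) (fun v => Φ v.1) (fun v => m v.1) (fun v => gp v.2) (hb.dn d) (l.fn hf)
    (hv.dn d) (fun v a => (H _ (l.mem a)).2) (spr_gp (fun ω => (g.l ω, g.cx c T ω)) fun ω a =>
      ⟨(le_max_left _ _).trans (H ω a).1, (Nat.mul_le_mul_left R (Finset.le_sup a)).trans hJ⟩)
  refine ⟨_, _, Prod.fst, K, l, k1, fun v a => ?_, ?_⟩
  · obtain ⟨b1, Φ', H', ⟨b2, y, b3, b4⟩, b5⟩ := k2 v a
    obtain ⟨c1, c2, -⟩ := H _ (l.mem a)
    refine ⟨⟨Φ', fun i => ?_, b2, y, b3, by rwa [Real.exp_zero, one_mul]⟩, fun F => (b1 F).trans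
      (mul_le_mul_of_nonneg_right ?_ ((hv _ (l.mem a)).2.hb.nonneg F))⟩
    · rw [(b5 i).2]
      exact (Pk.kc.deg _ _ _ _ (b5 i).1 c2).trans (Nat.le_add_left _ _)
    · have e := Nat.ceil_le.1 ((le_max_right _ _).trans c1)
      rw [div_le_iff₀' hε] at e
      refine le_trans ?_ (Real.exp_le_exp.2 e)
      rw [← Nat.cast_succ, ← Real.exp_one_pow]
      exact pow_le_pow_left₀ zero_le_two (by linarith [Real.add_one_le_exp 1]) _
  · have a1 := ch_chain (P := NQ P N J) (fun v => T v.1) K ((g.pull Prod.fst).zc c)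
    have a2 := l.ch_id T (g.zc c)
    have a3 := l fun ω => (m ω : ℝ)
    have a4 := l fun ω => Real.log (A ω).J
    have a5 := ch_mono (P := NQ P N J) (F := fun v => (K v, T v.1)) (F' := fun v => (T v.1, K v))
      (G := (g.pull Prod.fst).zc c) fun _ _ _ _ e => congrArg (fun x => x.1.swap) e
    simp only [id] at a3 a4
    rw [a3, a4] at k3
    unfold gap
    change ch _ K (fun v => (T v.1, (g.pull Prod.fst).zc c v)) + _ + _ ≤
      ch _ (cub g M c J Φ m) _ + _ + _ at k3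
    change ch _ _ ((g.pull Prod.fst).zc c) = _ at a2
    linarith

end Pool.Agent.MP_5168f5_an.QA
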