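import Pool.Agent.MP_5168f5_an.QA.Spec1

/-! Tightness in the finite form from tightness along sequences. -/

namespace Pool.Agent.MP_5168f5_an.QA

open H19 H17S H17F Filter

theorem ev_geR (k : ℝ) : ∀ᶠ n : ℕ in UF, k ≤ n :=
  (tendsto_natCast_atTop_atTop.eventually_ge_atTop k).filter_mono Nat.hyperfilter_le_atTop

theorem tig_of (h0 : SOpG) {N E D : ℕ} (h : Ti N E D) : TIG N E D := by
  obtain ⟨C, C0, hC⟩ := h0 N D
  have d0 : (0 : ℝ) ≤ dV N D := Nat.cast_nonneg _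
  refine ⟨2 * (dV N D + 1), by linarith, fun η θ ⟨η0, η1, θ0, θ1⟩ => ?_⟩
  have η2 : η ≤ 1 := by nlinarith
  have θ2 : θ ≤ 1 := by nlinarith [pow_le_one₀ η0.le η2 (n := dV N D)]
  by_contra z
  push Not at z
  choose Ω P g M c S e a1 a2 a3 a4 a5 a6 using fun n : ℕ => z n (Nat.cast_nonneg n)
  have u1 : ∀ n : ℕ, n * (1 + e n) ≤ (⌈n * (1 + e n)⌉₊ : ℝ) := fun n => Nat.le_ceil _
  have u2 : ∀ n : ℕ, (n : ℝ) ≤ n * (1 + e n) := fun n =>
    le_mul_of_one_le_right (Nat.cast_nonneg n) (by linarith [a4 n])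
  obtain ⟨Φ, m, -, b1, -, b2⟩ := h (η ^ dV N D / 2) P g M c (fun n => ⌈n * (1 + e n)⌉₊) S
    ⟨by positivity, tendsto_atTop_mono (fun n => by exact_mod_cast (u2 n).trans (u1 n))
      (tendsto_id.mono_left Nat.hyperfilter_le_atTop), Eventually.of_forall a1,
      Eventually.of_forall a3, fun ε ε0 => (ev_geR ((1 + C) / ε)).mono
        fun n k W Q π b K r c1 c2 c3 => (hC η θ _ (P n) (g n) (M n) (c n) (S n) (e n) η0 η2 θ0 θ2
          θ1 (a3 n) (a5 n) W Q π b K r c1 c2 c3).trans (by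
            rw [div_le_iff₀ ε0] at k
            nlinarith [mul_le_mul_of_nonneg_left (u1 n) ε0.le, a4 n,
              mul_le_mul_of_nonneg_right k (show 0 ≤ 1 + e n by linarith [a4 n])])⟩
  obtain ⟨n, k1, k2, k3⟩ := ((b1 (1 / 2) one_half_pos).and (b2.and (ev_geR 1))).exists
  have k4 := a6 n (fun ω => m n ω) fun ω hω => ⟨Nat.cast_nonneg _, (k2 ω hω).2.2.2, _,
    (k2 ω hω).1, (k2 ω hω).2.1, (k2 ω hω).2.2.1⟩
  have k5 := Nat.ceil_lt_add_one ((Nat.cast_nonneg n).trans (u2 n))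
  linarith [u2 n]

theorem ofTig : OfTig := fun h0 _ _ _ h => tig_of h0 h

end Pool.Agent.MP_5168f5_an.QA
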