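import Pool.Agent.MP_5168f5_an.QA.Spec1
import Pool.Agent.MP_5168f5_an.QA.HApi
import Pool.Agent.MP_5168f5_an.QA.O1Api
import Pool.Agent.MP_5168f5_an.AN.G39Ch

/-! The maximal estimate in all dimensions: heredity of the classes, sure tightness. -/

namespace Pool.Agent.MP_5168f5_an.QA

open H19 H17S H17F R4 Filter
open K31 (Dn DnS dnS_cE)

section One

variable {N D E M c : ℕ} {Ω W : Type} {P : FP Ω} {Q : FP W} {π : W → Ω} {g : Sh N Ω}
  {S : Ω → Dc N D} {η θ e e' b s s' : ℝ} {δ : Dc N D} {l : Ln N}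

theorem Dc.Tight.mono (h : δ.Tight M c l s) (h0 : 0 ≤ δ.J) (e : s ≤ s') : δ.Tight M c l s' :=
  fun Φ a y b => (h Φ a y b).trans (mul_le_mul_of_nonneg_right (Real.exp_le_exp.2 e) h0)

theorem Dc.Low.mono (h : δ.Low E M c l s) (e : s ≤ s') : δ.Low E M c l s' :=
  h.imp fun _ a => ⟨a.1, a.2.1, a.2.2.imp fun _ b => ⟨b.1, b.2.trans
    (mul_le_mul_of_nonneg_right (Real.exp_le_exp.2 e) (abs_nonneg _))⟩⟩

theorem log_dn {W' : Type} {R : FP W'} {ρ : W' → W} {b' : ℝ} (d' : Dn b' R ρ Q) (d : Dn b Q π P) :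
    Real.log (b' * b) = Real.log b' + Real.log b :=
  Real.log_mul (one_pos.trans_le d'.one_le).ne' (one_pos.trans_le d.one_le).ne'

theorem Opd.mono (h : Opd η θ P g M c S e) (k : e ≤ e') : Opd η θ P g M c S e' :=
  fun W Q π b R d v => (h W Q π b R d v).trans (add_le_add le_rfl k)

theorem Opd.dn (h : Opd η θ P g M c S e) (d : Dn b Q π P) :
    Opd η θ Q (g.pull π) M c (fun v => S (π v)) (Real.log b + e) := fun W' R ρ b' K d' v => by
  have := h W' R _ _ K (d'.trans d) v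
  rw [log_dn d' d] at this
  exact this.trans_eq (by ring)

end One

section Seq

variable {N D E : ℕ} {X : ℕ → St N D} {I : Set ℚ} {W : ℕ → Type} {Q : ∀ n, FP (W n)}
  {π : ∀ n, W n → (X n).Ω} {η θ β js Γ : ℝ} {kf : ℕ → ℕ} {sl : ℕ → ℝ}

/-- The system under new laws. -/
abbrev pls (X : ℕ → St N D) {W : ℕ → Type} (Q : ∀ n, FP (W n)) (π : ∀ n, W n → (X n).Ω) :
    ℕ → St N D := fun n => (X n).pull (Q n) (π n)

/-- The system on events. -/
noncomputable abbrev cnd (X : ℕ → St N D) (G : ∀ n, (X n).Ω → Prop) : ℕ → St N D :=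
  pls X (fun n => cE (X n).P (G n)) fun _ => id

theorem dn_mem (d : DnS Q π (PP X)) : ∀ᶠ n in UF, ∀ v ∈ (Q n).S, π n v ∈ (X n).P.S :=
  d.elim fun _ a => a.2.mono fun _ b _ hv => b.mem hv

theorem Tb.dn {σ : ℕ → ℚ → ℝ} (h : Tb X I η θ σ) (d : DnS Q π (PP X)) : Tb (pls X Q π) I η θ σ := by
  have m := dn_mem d
  obtain ⟨C, -, d⟩ := d
  refine ⟨h.big, (h.box.and d).mono fun _ a => a.1.dn a.2, h.top, h.mono, h.lev,
    fun x hx => ((h.val x hx).and d).mono fun _ a => a.1.dn a.2,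
    fun x hx => (Eventually.and (h.fn x hx) d).mono fun _ a => a.2.fn a.1, fun x hx ε hε => ?_,
    fun x hx ε hε => ((h.spec x hx ε hε).and m).mono fun _ a v hv => a.1 _ (a.2 v hv)⟩
  filter_upwards [h.opt x hx _ (half_pos hε), d, h.big.sm (Real.log C) _ (half_pos hε)] with n a b c
  exact (a.dn b).mono (by linarith)

theorem Htb.dn {b : ℕ → ℚ → ℝ} (h : Htb X I kf b) (hu : Big (uu X)) (d : DnS Q π (PP X)) :
    Htb (pls X Q π) I kf b := fun i x hx x' hx' c c' e => (h i x hx x' hx' c c' e).dn hu d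

theorem Los.dn {φ : ℚ → ℝ} (h : Los X I η φ) (hu : Big (uu X)) (d : DnS Q π (PP X)) :
    Los (pls X Q π) I η φ := fun x hx x' hx' ε hε => by
  obtain ⟨C, -, d⟩ := d
  filter_upwards [h x hx x' hx' _ (half_pos hε), d, hu.sm (Real.log C) _ (half_pos hε)]
    with n a b c W' R ρ b' d'
  have := a W' R _ _ (d'.trans b)
  rw [log_dn d' b] at this
  exact this.trans (by linarith)

theorem Lip.dn (h : Lip X I Γ) (d : DnS Q π (PP X)) : Lip (pls X Q π) I Γ :=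
  fun x hx x' hx' ε hε => ((h x hx x' hx' ε hε).and (dn_mem d)).mono fun _ a v hv => a.1 _ (a.2 v hv)

theorem Jpr.dn {ψ : ℚ → ℝ} (h : Jpr X I ψ) (d : DnS Q π (PP X)) : Jpr (pls X Q π) I ψ :=
  fun x hx ε hε => ((h x hx ε hε).and (dn_mem d)).mono fun _ a v hv => a.1 _ (a.2 v hv)

theorem Tig.dn (h : Tig X I E) (d : DnS Q π (PP X)) : Tig (pls X Q π) I E :=
  fun x hx ε hε => ((h x hx ε hε).and (dn_mem d)).mono fun _ a v hv => a.1 _ (a.2 v hv)

theorem T1'.dn (h : T1' X η θ β js kf sl) (d : DnS Q π (PP X)) : T1' (pls X Q π) η θ β js kf sl :=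
  ⟨h.tb.dn d, h.ht.dn h.tb.big d, h.los.dn h.tb.big d, h.jpr.dn d, h.drift⟩

theorem T1.dn (h : T1 X E η θ β js Γ kf sl) (d : DnS Q π (PP X)) :
    T1 (pls X Q π) E η θ β js Γ kf sl := ⟨h.toT1'.dn d, h.lip.dn d, h.tig.dn d⟩

/-- Countably many likely properties with slack `ε u` are sure on a likely event. -/
theorem ex_sure {Ω : ℕ → Type} {P : ∀ n, FP (Ω n)} {J : Type} [Countable J]
    {p : J → ℝ → ∀ n, Ω n → Prop} (h : ∀ j ε, 0 < ε → Whp P (p j ε))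
    (m : ∀ j ε ε', ε ≤ ε' → ∀ᶠ n in UF, ∀ ω ∈ (P n).S, p j ε n ω → p j ε' n ω) :
    ∃ G, Whp P G ∧ ∀ j ε, 0 < ε → ∀ᶠ n in UF, ∀ ω ∈ (cE (P n) (G n)).S, p j ε n ω := by
  obtain ⟨f, hf⟩ := Countable.exists_injective_nat (J × ℕ)
  obtain ⟨k, hk, w⟩ := AN.G39.whp_diag (P := P)
    (G := fun i n ω => ∀ a : J × ℕ, f a = i → p a.1 (1 / (a.2 + 1 : ℝ)) n ω) fun i => by
      by_cases c : ∃ a, f a = i
      · obtain ⟨a, rfl⟩ := c
        exact (h a.1 _ (by positivity)).mono (Eventually.of_forall fun _ _ _ u b e => hf e ▸ u)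
      · exact Whp.of_ev (Eventually.of_forall fun _ _ _ a e => absurd ⟨a, e⟩ c)
  refine ⟨_, w, fun j ε hε => ?_⟩
  obtain ⟨i, hi⟩ := exists_nat_one_div_lt hε
  filter_upwards [w.pos.sure, tendsto_atTop.1 hk (f (j, i)), m j _ _ hi.le] with n a b c ω hω
  exact c ω (a ω hω).1 ((a ω hω).2 _ b (j, i) rfl)

/-- A nonnegative variable with mean `o(u)` is likely small. -/
theorem whp_of_mean {Ω : ℕ → Type} {P : ∀ n, FP (Ω n)} {u : ℕ → ℕ} {p : ℝ → ∀ n, Ω n → Prop}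
    (hu : Big u) {C : ℝ} (h0 : 0 ≤ C) (h : ∀ ε : ℝ, 0 < ε → ∀ᶠ n in UF, ∃ G : Ω n → ℝ,
      (∀ ω ∈ (P n).S, 0 ≤ G ω ∧ ∀ s, G ω ≤ s * u n → p s n ω) ∧ (P n).E G ≤ C * (1 + ε * u n))
    {s : ℝ} (hs : 0 < s) : Whp P (p s) := fun κ hκ => by
  have e0 : 0 < κ * s / (2 * (C + 1)) := by positivity
  filter_upwards [h _ e0, hu.ev (κ * s / (2 * (C + 1)))⁻¹, hu.ev 1] with n ⟨G, a, b⟩ c d
  have k := markov (P n) (fun ω hω => (a ω hω).1) (s * u n)
  rw [inv_le_iff_one_le_mul₀' e0] at c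
  have k2 : C * (1 + κ * s / (2 * (C + 1)) * u n) ≤ s * u n * κ := by
    calc _ ≤ (C + 1) * (2 * (κ * s / (2 * (C + 1)) * u n)) :=
          mul_le_mul (by linarith) (by linarith) (by linarith) (by linarith)
      _ = _ := by field_simp
  refine (pb_mono fun ω hω v => ?_).trans (le_of_mul_le_mul_left (k.trans (b.trans k2))
    (by positivity))
  exact (not_le.1 fun z => v ((a ω hω).2 s z)).le

end Seq

theorem toTig : ToTig := by
  intro N E D ⟨C, hC, t⟩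
  refine ⟨C, hC, fun η θ β js Γ kf sl X pa h l => ?_⟩
  obtain ⟨C', c0, t⟩ := t η θ pa
  obtain ⟨G, g, e⟩ := ex_sure (P := PP X) (p := fun (x : ℚ) s n ω =>
    ((X n).S x ω).Tight (X n).M ((X n).lv x) ((X n).g.l ω) (s * (X n).u) ∧
      ((X n).S x ω).Low E (X n).M ((X n).lv x) ((X n).g.l ω) (s * (X n).u))
    (fun x s hs => whp_of_mean (p := fun s n ω =>
      ((X n).S x ω).Tight (X n).M ((X n).lv x) ((X n).g.l ω) (s * (X n).u) ∧
        ((X n).S x ω).Low E (X n).M ((X n).lv x) ((X n).g.l ω) (s * (X n).u))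
      h.tb.big c0 (fun ε hε => by
      filter_upwards [h.tb.box, h.tb.top x trivial, h.tb.val x trivial, h.tb.opt x trivial ε hε]
        with n a b c d
      exact (t _ _ _ _ _ _ _ a b c (by positivity) d).imp fun G k => ⟨fun ω hω => ⟨(k.1 ω hω).1,
        fun s z => ⟨(k.1 ω hω).2.1.mono (c ω hω).2.pos.le z, (k.1 ω hω).2.2.mono z⟩⟩, k.2⟩) hs)
    fun x s s' k => (h.tb.val x trivial).mono fun n c ω hω z =>
      have := mul_le_mul_of_nonneg_right k (X n).u.cast_nonneg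
      ⟨z.1.mono (c ω hω).2.pos.le this, z.2.mono this⟩
  exact ⟨cnd X G, h.dn (dnS_cE g.pos), l.dn (dnS_cE g.pos), fun x _ => e x⟩

end Pool.Agent.MP_5168f5_an.QA
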