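import Pool.Agent.MP_5168f5_an.QA.TopSpec
import Pool.Agent.MP_5168f5_an.QA.P7CC

/-! The maximal estimate in all dimensions: from the filtered system to the second tangent. -/

namespace Pool.Agent.MP_5168f5_an.QA

open Cp (Cs Pd PreG)

/-- There is a second tangent. -/
def ExCC : Prop := ∃ (ι κ : Type) (_ : Fintype ι) (_ : DecidableEq ι) (_ : Fintype κ)
  (_ : DecidableEq κ) (Ω Λ : ℕ → Type) (σ : P7.Kc ι κ) (X : ∀ n, P7.Cd ι κ (Ω n) (Λ n)), P7.CC σ X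

/-- A filtered system gives a second tangent. -/
def SP6 : Prop := ∀ (ι κ α : Type) [Fintype ι] [DecidableEq ι] [Fintype κ] [DecidableEq κ]
  [Fintype α] (σ : Cs ι κ α) (Y : ℕ → Pd ι κ α), PreG σ Y → ExCC

theorem noPG_of (h6 : SP6) (h7 : P7.SCC) : NoPG := fun ι κ α _ _ _ _ _ σ Y h => by
  obtain ⟨ι', κ', _, _, _, _, Ω, Λ, σ', X, k⟩ := h6 ι κ α σ Y h
  exact h7 ι' κ' Ω Λ σ' X k

theorem end_of3 (h5 : SP5) (h6 : SP6) (h7 : P7.SCC) : END := end_of h5 (noPG_of h6 h7)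

end Pool.Agent.MP_5168f5_an.QA
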