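import Pool.Agent.MP_5168f5_an.QA.O1Api
import Pool.Agent.MP_5168f5_an.QA.JCnt
import Pool.Agent.MP_5168f5_an.QA.GapLow
import Pool.Agent.MP_5168f5_an.AN.GNZ0

/-! The maximal estimate in all dimensions: no leak. -/

namespace Pool.Agent.MP_5168f5_an.QA

open H19 H17S H17F R4 AN Filter MvPolynomial
open C1 (Hb)
open K31 (Dn)

namespace ZLA

variable {N D : ℕ} {Ω β α : Type}

theorem pb_cell {n J t : ℕ} (h : t ≤ J) (c : Z n) :
    pb (grid n J) (fun a => fl t (gp a) = c) ≤ 1 / (2 ^ t) ^ n := by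
  classical
  have p : 0 < 2 ^ (J - t) := by positivity
  have := Finset.card_le_card_of_injOn (t := Finset.univ)
    (s := Finset.univ.filter fun b : Fin n → Fin (2 ^ J) => fl t (gp b) = c)
    (fun b i => (⟨b i % 2 ^ (J - t), Nat.mod_lt _ p⟩ : Fin (2 ^ (J - t))))
    (fun _ _ => Finset.mem_univ _) fun a ha b hb e => funext fun i => Fin.ext (by
      have k := congrFun ((Finset.mem_filter.1 ha).2.trans (Finset.mem_filter.1 hb).2.symm) i
      rw [fl_apply, fl_apply, fl1_nest h, fl1_nest h, S20.fl_gp, S20.fl_gp] at k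
      exact Nat.ext_div_mod (by exact_mod_cast k) (congrArg Fin.val (congrFun e i)))
  rw [Nz.pb_grid, div_le_div_iff₀ (by positivity) (by positivity), one_mul]
  simp only [Finset.card_univ, Fintype.card_pi, Fintype.card_fin, Finset.prod_const] at this
  calc _ ≤ ((2 ^ (J - t)) ^ n : ℕ) * ((2 : ℝ) ^ t) ^ n :=
        mul_le_mul_of_nonneg_right (Nat.cast_le.2 (by convert this)) (by positivity)
    _ = _ := by push_cast; rw [← mul_pow, ← pow_add, Nat.sub_add_cancel h]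

theorem spr (P : FP Ω) (Y : Ω → β) {J R G : ℕ} (h : R ≤ G) (h' : R * G ≤ J) :
    Spr (NQ P N J) (fun v => gp v.2) (fun v => Y v.1) R fun _ => G := fun v hv =>
  ⟨gp_bd v.2, h, fun j hj cc => by
    rw [S20.cv_prod ((S20.mem_prod v).1 hv).1, (S20.law_snd _ _).pb_eq fun a => fl j (gp a) = cc]
    exact (pb_cell (hj.trans h') cc).trans
      (div_le_div_of_nonneg_right (Real.one_le_exp (by positivity)) (by positivity))⟩

theorem jc_smul (s : ℝ) (Φ : Ch N D) (y : V (N + 1)) :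
    jc (fun i => s • Φ i) y = |s| ^ (N + 1) * jc Φ y := by
  have e : (Nc.jm fun i => (s • Φ i).1).map (eval y) =
      s • (Nc.jm fun i => (Φ i).1).map (eval y) := Matrix.ext fun i j => by simp [Nc.jm]
  rw [jc, jc, Nc.eval_jac, Nc.eval_jac, e, Matrix.det_smul, abs_mul, abs_pow, Fintype.card_fin]

/-- A larger Jacobian than the tight one needs a thin direction. -/
theorem thin {S K : Dc N D} {M c : ℕ} {l : Ln N} {m : ℝ} (s : S.Ok M c l) (k : K.Ok M c l)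
    (e : K.h = S.h) (t : S.Tight M c l m) :
    Thin S.ν K.ν ((Real.log K.J - Real.log S.J - m) / (N + 1) - 1) := by
  obtain ⟨Φ, u, y, hy, hJ⟩ := k.wit
  generalize hr : (Real.log K.J - Real.log S.J - m) / (N + 1) - 1 = r
  by_contra h
  have h1 : ∀ i, S.ν (Φ i) ≤ Real.exp r := fun i => by
    by_cases z : Φ i = 0
    · rw [z, ← zero_smul ℝ (0 : VD N D), s.hb.smul, abs_zero, zero_mul]
      positivity
    · exact (not_le.1 fun a => h (Or.inr ⟨_, z, a⟩)).le.trans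
        (mul_le_of_le_one_right (Real.exp_pos r).le (u i))
  have h2 := t (fun i => Real.exp (-r) • Φ i) (fun i => by
    rw [s.hb.smul, abs_of_pos (Real.exp_pos _), Real.exp_neg, inv_mul_le_iff₀ (Real.exp_pos r),
      mul_one]
    exact h1 i) y (seg_mono (by norm_num) (e ▸ hy))
  rw [jc_smul, abs_of_pos (Real.exp_pos _)] at h2
  have h3 := Real.log_le_log (mul_pos (by positivity) k.pos)
    ((mul_le_mul_of_nonneg_left hJ (by positivity)).trans h2)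
  rw [Real.log_mul (by positivity) k.pos.ne', Real.log_mul (by positivity) s.pos.ne', Real.log_pow,
    Real.log_exp, Real.log_exp, ← hr] at h3
  push_cast at h3
  rw [mul_neg, mul_sub, mul_div_cancel₀ _ (by positivity)] at h3
  linarith [Nat.cast_nonneg (α := ℝ) N]

theorem dv {a b m : ℝ} (h : a ≤ Real.exp m * b) : a * Real.exp (-m) ≤ b := by
  rwa [Real.exp_neg, ← div_eq_mul_inv, div_le_iff₀' (Real.exp_pos _)]

/-- One level. -/
theorem core (N D : ℕ) : ∃ C : ℝ, ∀ {D₀ E₀ : ℕ}, Fil N D₀ E₀ D → ∀ ε : ℝ, 0 < ε → ∃ R : ℕ,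
    ∀ {Ω α : Type} (P : FP Ω) (g : Sh N Ω) (M c J G : ℕ) (S : Ω → Dc N D) (Ξ : Ω → α)
    (Φ : Ω → Ch N D) (m : Ω → ℕ) (κ t : ℝ), 0 < κ → g.Box P → Val P g M c S → OpG κ P g M c S t →
    (∀ ω ∈ P.S, (S ω).Ti D₀ M c (g.l ω) (Φ ω) (m ω)) → R ≤ G → R * G ≤ J → C + κ ≤ t →
    ε * G ≤ t → P.E (fun ω => m ω) ≤ t → ch P (fun ω => (Φ ω, m ω)) S ≤ t →
    ch (NQ P N J) (fun v => Ξ v.1) (fun v => (S v.1, vc (S v.1).ν G (vp g M c J v))) ≤ t →
    ch P Ξ S ≤ (5 + 6 * ((N + 1) / κ)) * t := by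
  obtain ⟨C, C0, hC⟩ := chV (N + 1) (dV N D) D
  refine ⟨C + (N + 1 : ℕ) * Real.log (2 * dV N D + 3), fun hF ε hε => ?_⟩
  obtain ⟨R, hR⟩ := hF ε hε
  refine ⟨R, fun {Ω α} P g M c J G S Ξ Φ m κ t k0 bx vl op ti r1 r2 t1 t2 t3 t4 t5 => ?_⟩
  have l := fst_law P N J
  have d := K31.dn_law l
  obtain ⟨K, vK, hK, f1⟩ := hR _ _ (NQ P N J) (g.pull Prod.fst) M c
    (fun v => (S v.1, (Φ v.1, m v.1), Ξ v.1))
    (fun v => ⟨(S v.1).ν, (S v.1).J * Real.exp (-m v.1), (S v.1).h⟩) (fun v => Φ v.1) (fun _ => G)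
    (fun v => gp v.2) (bx.dn d) (fun a _ b _ e => by simp only [Prod.mk.injEq] at e; simp only [e])
    (fun v hv => by
      obtain ⟨a1, a2⟩ := vl _ (l.mem hv)
      obtain ⟨-, b2, ⟨y, b3, b4⟩, -⟩ := ti _ (l.mem hv)
      exact ⟨a1, a2.hb, mul_pos a2.pos (Real.exp_pos _), a2.bd, _, b2, y, b3, dv b4⟩)
    (fun v hv => by
      obtain ⟨b1, b2, ⟨y, b3, b4⟩, -⟩ := ti _ (l.mem hv)
      exact ⟨b1, b2, y, b3, dv b4⟩)
    (spr P (fun ω => (g.l ω, S ω, (Φ ω, m ω), Ξ ω)) r1 r2)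
  have f2 := op _ (NQ P N J) Prod.fst 1 K
    (fun v => (Real.log (K v).J - Real.log (S v.1).J - m v.1) / (N + 1) - 1) d vK fun v hv => by
      obtain ⟨a1, a2⟩ := vl _ (l.mem hv)
      refine ⟨fun F => ((hK v hv).1 F).trans (mul_le_mul_of_nonneg_right ?_ (a2.hb.nonneg F)),
        thin a2 (vK v hv).2 ((vK v hv).1.trans a1.symm) (ti _ (l.mem hv)).2.2.2⟩
      exact pow_le_pow_right₀ one_le_two (by omega)
  have f3 := ch_tri' (P := NQ P N J) K (fun v => S v.1) fun v => (S v.1, (Φ v.1, m v.1), Ξ v.1)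
  have f4 : ch (NQ P N J) (fun v => (S v.1, (Φ v.1, m v.1), Ξ v.1)) (fun v => S v.1) ≤
      ch P (fun ω => ((Φ ω, m ω), Ξ ω)) S := (l.ch_id (fun ω => (S ω, (Φ ω, m ω), Ξ ω)) S).trans_le
    (ch_mono ((Fn.snd _ _).pair (Fn.fst _ _)))
  have f0 := ch_subadd (P := P) (fun ω => (Φ ω, m ω)) Ξ S
  have f5 := ch_symm (P := NQ P N J) (fun v => Ξ v.1)
    (fun v => vc (S v.1).ν G (vp g M c J v)) fun v => S v.1
  have f6 : ch (NQ P N J) (fun v => Ξ v.1)
      (fun v => (vc (S v.1).ν G (vp g M c J v), S v.1)) ≤ t :=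
    (ch_anti ((Fn.snd _ _).pair (Fn.fst _ _))).trans t5
  have f7 : ch (NQ P N J) (fun v => vc (S v.1).ν G (vp g M c J v)) (fun v => S v.1) ≤ _ :=
    hC (NQ P N J) (fun v => S v.1) (fun δ a => (bs δ.ν a).1) (fun _ => G) (vp g M c J)
      fun v hv a => by
        obtain ⟨a1, a2⟩ := vl _ (l.mem hv)
        exact ⟨C1.deg_PD _, (a2.bd _ (seg_mono (by norm_num) (a1 ▸ vp_mem g M c J v)) _).trans_eq
          (bs_one a2.hb a)⟩
  have f8 := ch_tri (P := NQ P N J) (fun v => fl G (uc (Φ v.1) (vp g M c J v)))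
    (fun v => vc (S v.1).ν G (vp g M c J v)) fun v => (S v.1, (Φ v.1, m v.1), Ξ v.1)
  have f9 : ch (NQ P N J) (fun v => vc (S v.1).ν G (vp g M c J v))
      (fun v => (S v.1, (Φ v.1, m v.1), Ξ v.1)) ≤ ch (NQ P N J) _ fun v => (Ξ v.1, S v.1) :=
    ch_anti (((Fn.snd _ _).right _).pair (Fn.fst _ _))
  have f10 : ch (NQ P N J) (fun v => fl G (uc (Φ v.1) (vp g M c J v))) (fun v =>
      (vc (S v.1).ν G (vp g M c J v), S v.1, (Φ v.1, m v.1), Ξ v.1)) ≤ _ :=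
    ch_near (Nat.cast_nonneg (dV N D)) fun a ha b hb e => by
      simp only [Prod.mk.injEq] at e
      obtain ⟨e1, e2, ⟨e3, -⟩, -⟩ := e
      rw [← e2] at e1
      rw [← e3]
      refine (pi_norm_le_iff_of_nonneg (by positivity)).2 fun i =>
        (vc_near (vl _ (l.mem ha)).2.hb e1 (Φ a.1 i)).trans ?_
      rw [← mul_div_assoc]
      exact div_le_div_of_nonneg_right (mul_le_of_le_one_right (Nat.cast_nonneg _)
        ((ti _ (l.mem ha)).2.1 i)) (by positivity)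
  have g1 : (NQ P N J).E (fun v => Real.log ((S v.1).J * Real.exp (-m v.1))) =
      (NQ P N J).E fun v => Real.log (S v.1).J - m v.1 := FP.E_congr _ fun v hv => by
    rw [Real.log_mul (vl _ (l.mem hv)).2.pos.ne' (Real.exp_pos _).ne', Real.log_exp, sub_eq_add_neg]
  have g2 : (NQ P N J).E (fun v => m v.1) ≤ t := (l fun ω => m ω).trans_le t3
  have g3 := ch_nonneg (P := NQ P N J) K fun v => (S v.1, (Φ v.1, m v.1), Ξ v.1)
  rw [l.ch_id Ξ S] at f5
  rw [Fintype.card_fin] at f10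
  simp only [g1, div_eq_inv_mul, FP.E_add, FP.E_sub, FP.E_mul, FP.E_const, Real.log_one] at f1 f2 f7
  change _ ≤ ch _ (fun v => fl G (uc (Φ v.1) (vp g M c J v))) _ + _ + _ at f1
  push_cast at f7 f10 t1
  have g4 : κ * (((N : ℝ) + 1)⁻¹ * ((NQ P N J).E (fun v => Real.log (K v).J) -
      (NQ P N J).E (fun v => Real.log (S v.1).J) - (NQ P N J).E fun v => m v.1)) ≤ 6 * t := by
    linarith
  rw [← mul_assoc, ← le_div_iff₀' (by positivity), ← div_eq_mul_inv, div_div_eq_mul_div,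
    mul_div_assoc] at g4
  linarith

end ZLA

theorem ofZL : OfZL := by
  intro N D₀ E₀ D hF hT Ω α κ P g M c u J S Ξ R o fi h δ hδ
  obtain ⟨C, hC⟩ := ZLA.core N D
  obtain ⟨Φ, m, -, t1, t2, t3⟩ := hT κ P g M c u S o
  have k0 := o.pos
  obtain ⟨ε, e0, e1⟩ : ∃ ε : ℝ, 0 < ε ∧ (5 + 6 * ((N + 1) / κ)) * ε = δ :=
    ⟨δ / _, by positivity, mul_div_cancel₀ _ (by positivity)⟩
  obtain ⟨R₀, hR⟩ := hC hF (ε / (R + 1)) (by positivity)
  filter_upwards [o.box, o.val, o.opt ε e0, t3, o.big.eventually_ge_atTop R₀, fi (R₀ * (R + 1)),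
    o.big.sm (C + κ) ε e0, t1 ε e0, t2 ε e0, h ε e0] with n a1 a2 a3 a4 a5 a6 a7 a8 a9 a10
  rw [zero_add] at a7 a8 a9 a10 ⊢
  rw [← e1, mul_assoc]
  refine hR _ _ _ _ (J n) ((R + 1) * u n) _ _ _ _ κ _ k0 a1 a2 a3 a4
    (a5.trans (Nat.le_mul_of_pos_left _ R.succ_pos)) (by rwa [← mul_assoc]) a7 (le_of_eq ?_) a8 a9
    ((ch_anti fun a _ b _ e => ?_).trans a10)
  · push_cast
    field_simp
  · simp only [Prod.mk.injEq] at e ⊢
    exact ⟨e.1, fl_eq_of_le (Nat.mul_le_mul_right _ R.le_succ) e.2⟩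

end Pool.Agent.MP_5168f5_an.QA
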