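import Pool.Agent.MP_5168f5_an.QA.Ends
import Pool.Agent.MP_5168f5_an.QA.Cnt
import Pool.Agent.MP_5168f5_an.QA.Blk
import Pool.Agent.MP_5168f5_an.QA.ZL
import Pool.Agent.MP_5168f5_an.QA.OfFill
import Pool.Agent.MP_5168f5_an.QA.Tig
import Pool.Agent.MP_5168f5_an.QA.Ext
import Pool.Agent.MP_5168f5_an.QA.ToT1
import Pool.Agent.MP_5168f5_an.QA.ToTig
import Pool.Agent.MP_5168f5_an.QA.TopS6

/-! The maximal estimate in all dimensions: the global part, assembled. -/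

namespace Pool.Agent.MP_5168f5_an.QA

theorem muK_if (c : OfTiC) (nj : OfNJ) (ch : SChn) (pk : SPk) (en : END) (N : ℕ) : MX.MuK N :=
  muK_of sE1 sE2 sCnt sCntF (blkF_of c ofZL) sOpG ofFill ofTig ofExt nj (ofT1 ch pk) toTig en N

end Pool.Agent.MP_5168f5_an.QA
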