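import Pool.Agent.MP_5168f5_an.QA.NJA

/-! Euclidean norms: a net with short lists. -/

namespace Pool.Agent.MP_5168f5_an.QA.NJ

open Finset AN.C1

variable {V : Type}

/-- Two norms agree up to the factor `K`. -/
def Cl (K : ℝ) (ν ν' : V → ℝ) : Prop := ∀ x, ν x ≤ K * ν' x ∧ ν' x ≤ K * ν x

theorem Cl.symm {K : ℝ} {ν ν' : V → ℝ} (h : Cl K ν ν') : Cl K ν' ν := fun x => (h x).symm

theorem Cl.trans {K K' : ℝ} {ν ν' μ : V → ℝ} (h : Cl K ν ν') (h' : Cl K' ν' μ) (a : 0 ≤ K)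
    (b : 0 ≤ K') : Cl (K * K') ν μ := fun x =>
  ⟨(h x).1.trans (by rw [mul_assoc]; exact mul_le_mul_of_nonneg_left (h' x).1 a),
    (h' x).2.trans (by rw [mul_comm K, mul_assoc]; exact mul_le_mul_of_nonneg_left (h x).2 b)⟩

variable [AddCommGroup V] [Module ℝ V] {m : ℕ}

/-- The values on a grid. -/
noncomputable def code (b : Module.Basis (Fin m) ℝ V) (G : ℕ) (ν : V → ℝ)
    (z : Fin m → Icc (-G : ℤ) G) : ℤ := ⌊G * ν (∑ i, ((z i : ℤ) / G : ℝ) • b i)⌋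

theorem code_le {b : Module.Basis (Fin m) ℝ V} {l : ℝ} {K G : ℕ} {ν ν' μ : V → ℝ} (hν : Hb ν)
    (hν' : Hb ν') (d : Dg μ b (fun _ => 1) 1) (K0 : 0 < K) (hG : G = (2 * m * K + 1) * K)
    (h : Cl K ν μ) (h' : Cl K ν' μ) (e : code b G ν = code b G ν') (x : V)
    (hl : ∀ i, |b.repr x i| ≤ l) (j : Fin m) (hj : |b.repr x j| = l) (l0 : 0 < l) :
    ν x ≤ 2 * ν' x := by
  have k0 : (0 : ℝ) < K := by exact_mod_cast K0
  have g0 : (0 : ℝ) < G := by rw [hG]; positivity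
  let z : Fin m → Icc (-G : ℤ) G := fun i => ⟨⌊b.repr x i / l * G⌋, by
    have := abs_le.1 ((abs_div _ l).trans_le ((div_le_one (abs_pos.2 l0.ne')).2
      ((hl i).trans (le_abs_self l))))
    exact mem_Icc.2 ⟨Int.le_floor.2 (by push_cast; nlinarith),
      Int.floor_le_iff.2 (by push_cast; nlinarith)⟩⟩
  set y := ∑ i, ((z i : ℤ) / G : ℝ) • b i with hy
  have e1 : ⌊G * ν y⌋ = ⌊G * ν' y⌋ := congrFun e z
  have e2 := abs_lt.1 (Int.abs_sub_lt_one_of_floor_eq_floor e1)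
  have hx : l⁻¹ • x - y = ∑ i, (b.repr x i / l - (z i : ℤ) / G) • b i := by
    conv_lhs => rw [← b.sum_repr x, smul_sum, hy, ← sum_sub_distrib]
    exact sum_congr rfl fun i _ => by rw [smul_smul, sub_smul, div_eq_inv_mul _ l]
  have key : ∀ N : V → ℝ, Hb N → Cl K N μ → G * N (l⁻¹ • x - y) ≤ m * K := fun N a c => by
    rw [hx, ← le_div_iff₀' g0]
    refine (a.sum _ _ _).trans ((sum_le_card_nsmul _ _ ((1 : ℝ) / G * K) fun i _ => ?_).trans
      (le_of_eq (by simp; ring)))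
    refine mul_le_mul ?_ ((c _).1.trans (by simpa [k0] using d.1 i)) (a.nonneg _) (by positivity)
    have a1 := Int.floor_le (b.repr x i / l * G)
    have a2 := Int.lt_floor_add_one (b.repr x i / l * G)
    rw [show b.repr x i / l - (z i : ℤ) / G = (b.repr x i / l * G - ⌊b.repr x i / l * G⌋) / G by
      simp only [z]; field_simp, abs_div, abs_of_pos g0]
    gcongr
    exact abs_le.2 ⟨by linarith, by linarith⟩
  have a1 := hν.add (l⁻¹ • x - y) y
  have a2 := hν'.add (l⁻¹ • x) ((-1 : ℝ) • (l⁻¹ • x - y))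
  rw [hν'.smul (-1), show l⁻¹ • x + (-1 : ℝ) • (l⁻¹ • x - y) = y by simp] at a2
  rw [sub_add_cancel] at a1
  have a3 := key ν hν h
  have a4 := key ν' hν' h'
  have a5 : l ≤ K * ν' x := by simpa [hj] using (coord d x j).trans (h' x).2
  rw [hν.smul, abs_of_pos (inv_pos.2 l0)] at a1
  rw [hν'.smul, abs_of_pos (inv_pos.2 l0), abs_neg, abs_one, one_mul] at a2
  have a6 : 1 ≤ K * (l⁻¹ * ν' x) := by rwa [mul_left_comm, le_inv_mul_iff₀ l0, mul_one]
  have a7 : (G : ℝ) * (l⁻¹ * ν' x) = (2 * m * K + 1) * (K * (l⁻¹ * ν' x)) := by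
    rw [hG]; push_cast; ring
  have a8 := mul_le_mul_of_nonneg_left a6 (show (0 : ℝ) ≤ 2 * m * K + 1 by positivity)
  have a9 : G * (l⁻¹ * ν x) ≤ G * (l⁻¹ * (2 * ν' x)) := by
    nlinarith [mul_le_mul_of_nonneg_left a1 g0.le, mul_le_mul_of_nonneg_left a2 g0.le]
  exact le_of_mul_le_mul_left (le_of_mul_le_mul_left a9 g0) (inv_pos.2 l0)

theorem code_cl {b : Module.Basis (Fin m) ℝ V} {K G : ℕ} {ν ν' μ : V → ℝ} (hν : Hb ν)
    (hν' : Hb ν') (d : Dg μ b (fun _ => 1) 1) (K0 : 0 < K) (hG : G = (2 * m * K + 1) * K)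
    (h : Cl K ν μ) (h' : Cl K ν' μ) (e : code b G ν = code b G ν') (x : V) : ν x ≤ 2 * ν' x := by
  by_cases c : ∀ i, b.repr x i = 0
  · have : x = (0 : ℝ) • x := by rw [zero_smul, ← b.sum_repr x]; simp [c]
    rw [this, hν.smul, hν'.smul]; simp
  · obtain ⟨i, hi⟩ := not_forall.1 c
    obtain ⟨j, -, hj⟩ := exists_max_image univ (fun i => |b.repr x i|) ⟨i, mem_univ _⟩
    exact code_le hν hν' d K0 hG h h' e x (fun i => hj i (mem_univ _)) j rfl
      ((abs_pos.2 hi).trans_le (hj i (mem_univ _)))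

/-- A rounding of norms: close norms have few roundings. -/
theorem net (m K : ℕ) : ∃ C : ℕ, ∀ (V : Type) [AddCommGroup V] [Module ℝ V]
    [FiniteDimensional ℝ V], Module.finrank ℝ V = m →
    ∃ (r : (V → ℝ) → V → ℝ) (L : (V → ℝ) → Finset (V → ℝ)), (∀ ν, (L ν).card ≤ C) ∧
      ∀ ν, Hb ν → Hb (r ν) ∧ Cl 2 ν (r ν) ∧ ∀ μ, Hb μ → Cl K ν μ → r ν ∈ L μ := by
  classical
  obtain ⟨K', hK⟩ : ∃ K', K' = 2 * (K + 1) := ⟨_, rfl⟩
  obtain ⟨G, hG⟩ : ∃ G, G = (2 * m * K' + 1) * K' := ⟨_, rfl⟩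
  let T := Fintype.piFinset fun _ : Fin m → Icc (-G : ℤ) G => Icc (0 : ℤ) (G * (K' * m))
  refine ⟨T.card, fun V _ _ _ rk => ?_⟩
  obtain ⟨F, hF⟩ := zorn_subset {S : Set (V → ℝ) | (∀ ν ∈ S, Hb ν) ∧ S.Pairwise fun a b =>
    ¬Cl 2 a b} fun c hc ch => ⟨⋃₀ c, ⟨fun ν ⟨s, a, b⟩ => (hc a).1 ν b,
      (Set.pairwise_sUnion ch.directedOn).2 fun s a => (hc a).2⟩, fun s a => Set.subset_sUnion_of_mem a⟩
  have ex : ∀ ν, ∃ ν', Hb ν → ν' ∈ F ∧ Cl 2 ν ν' := fun ν => by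
    by_contra c
    push Not at c
    have h := (c ν).1
    have := hF.2 (y := insert ν F) ⟨fun a ha => ha.elim (fun e => e ▸ h) (hF.1.1 a),
      hF.1.2.insert fun a ha _ => ⟨(c a).2 ha, fun v => (c a).2 ha v.symm⟩⟩
      (Set.subset_insert _ _) (Set.mem_insert _ _)
    exact (c ν).2 this fun x => ⟨by linarith [h.nonneg x], by linarith [h.nonneg x]⟩
  choose r hr using ex
  have ls : ∀ μ : V → ℝ, ∃ L : Finset (V → ℝ), L.card ≤ T.card ∧
      (Hb μ → ∀ ν ∈ F, Cl K' ν μ → ν ∈ L) := fun μ => by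
    by_cases h : Hb μ
    swap
    · exact ⟨∅, by simp, fun a => absurd a h⟩
    obtain ⟨b, l, a⟩ := two rk h h
    have inj : Set.InjOn (code b G) {ν ∈ F | Cl K' ν μ} := fun ν u ν' v e => by
      by_contra c
      exact hF.1.2 u.1 v.1 c fun x =>
        ⟨code_cl (hF.1.1 _ u.1) (hF.1.1 _ v.1) a.db (by omega) hG u.2 v.2 e x,
          code_cl (hF.1.1 _ v.1) (hF.1.1 _ u.1) a.db (by omega) hG v.2 u.2 e.symm x⟩
    have mp : Set.MapsTo (code b G) {ν ∈ F | Cl K' ν μ} T := fun ν u =>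
      mem_coe.2 (Fintype.mem_piFinset.2 fun z => mem_Icc.2 ⟨Int.floor_nonneg.2
        (mul_nonneg (Nat.cast_nonneg _) ((hF.1.1 _ u.1).nonneg _)), Int.floor_le_iff.2 (by
          have g0 : (0 : ℝ) < G := by rw [hG, hK]; positivity
          have a1 := (u.2 (∑ i, ((z i : ℤ) / G : ℝ) • b i)).1.trans (mul_le_mul_of_nonneg_left
            (upp a.db h (t := 1) fun i => by
              rw [b.repr_sum_self, mul_one, abs_div, abs_of_pos g0, div_le_one g0]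
              exact_mod_cast abs_le.2 (mem_Icc.1 (z i).2)) (Nat.cast_nonneg _))
          push_cast
          nlinarith)⟩)
    have fin := Set.Finite.of_injOn mp inj T.finite_toSet
    exact ⟨fin.toFinset, card_le_card_of_injOn _ (by simpa using mp) (by simpa using inj),
      fun _ ν u v => fin.mem_toFinset.2 ⟨u, v⟩⟩
  choose L h1 h2 using ls
  refine ⟨r, L, h1, fun ν h => ⟨hF.1.1 _ (hr ν h).1, (hr ν h).2, fun μ a c => h2 μ a _ (hr ν h).1 ?_⟩⟩
  have c' : Cl (K + 1) ν μ := fun x => ⟨by nlinarith [(c x).1, a.nonneg x],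
    by nlinarith [(c x).2, h.nonneg x]⟩
  simpa [hK] using (hr ν h).2.symm.trans c' zero_le_two (by positivity)

end Pool.Agent.MP_5168f5_an.QA.NJ
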