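import Pool.Agent.MP_5168f5_an.QA.Sec

/-! Neighbourhoods of polynomial images of basic sets, and lines seen at another height. -/

namespace Pool.Agent.MP_5168f5_an.QA

open MeasureTheory Metric Finset Matrix H83
open scoped ENNReal

variable {α β : Type} [Fintype α] [Fintype β] [DecidableEq α] [DecidableEq β]

/-- The section lemma with an arbitrary finite set of inequalities. -/
theorem sec' (α β κ : Type) [Fintype α] [Fintype β] [DecidableEq α] [DecidableEq β] [Fintype κ]
    (d : ℕ) : ∃ M : ℕ, ∀ (ι : Type) [Fintype ι] (p : κ → (α ⊕ β → ℝ) → ℝ)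
      (θ : ι → α → (α ⊕ β → ℝ) → ℝ) (c : ι → ℝ) (T : ι → Set (α → ℝ)),
      (∀ j, IsPoly d (p j)) → (∀ i a, IsPoly d (θ i a)) → (∀ i, 0 ≤ c i) →
      (∀ u, ∃ R, ∀ x, (∀ j, 0 < p j (Sum.elim u x)) → ‖x‖ ≤ R) →
      (∀ y, (∀ j, 0 < p j y) → ∀ L : β → α ⊕ β → ℝ,
        |det2 (fun a => Pi.single (.inl a) 1) L| ≤
          ∑ i, c i * |det2 (fun a => grad (θ i a) y) L|) →
      (∀ i y, (∀ j, 0 < p j y) → (fun a => θ i a y) ∈ T i) →
      volume {u : α → ℝ | ∃ x, ∀ j, 0 < p j (Sum.elim u x)} ≤
        M * ∑ i, ENNReal.ofReal (c i) * volume (T i) := by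
  obtain ⟨M, hM⟩ := sec α β d (Fintype.card κ)
  refine ⟨M, fun ι _ p θ c T hp hθ hc hR hd hT => ?_⟩
  have e : ∀ y, (∀ j, 0 < p ((Fintype.equivFin κ).symm j) y) ↔ ∀ j, 0 < p j y := fun y =>
    (Fintype.equivFin κ).symm.forall_congr_right (q := fun j => 0 < p j y)
  have h := hM ι (fun j => p ((Fintype.equivFin κ).symm j)) θ c T (fun j => hp _) hθ hc
  simp only [e] at h
  exact h hR hd hT

/-- The determinant as a multilinear function of the upper rows. -/
noncomputable def rows (α β : Type) [Fintype α] [Fintype β] [DecidableEq α] [DecidableEq β] :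
    MultilinearMap ℝ (fun _ : α => α ⊕ β → ℝ) (MultilinearMap ℝ (fun _ : β => α ⊕ β → ℝ) ℝ) :=
  MultilinearMap.currySum (ι := α) (ι' := β) (N := fun _ => α ⊕ β → ℝ)
    Matrix.detRowAlternating.toMultilinearMap

theorem det2_eq (A : α → α ⊕ β → ℝ) (L : β → α ⊕ β → ℝ) : det2 A L = rows α β A L := rfl

theorem det2_add (A B : α → α ⊕ β → ℝ) (L : β → α ⊕ β → ℝ) :
    det2 (A + B) L = ∑ J : Finset α, det2 (J.piecewise A B) L := by
  simp only [det2_eq]
  rw [MultilinearMap.map_add_univ, MultilinearMap.sum_apply]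

theorem det2_smul (J : Finset α) (s : ℝ) (A B : α → α ⊕ β → ℝ) (L : β → α ⊕ β → ℝ) :
    det2 (J.piecewise (s • A) B) L = s ^ J.card * det2 (J.piecewise A B) L := by
  have h := (rows α β).map_piecewise_smul (fun _ => s) (J.piecewise A B) J
  have e : J.piecewise (fun i => s • J.piecewise A B i) (J.piecewise A B) =
      J.piecewise (s • A) B := by
    funext i
    by_cases hi : i ∈ J <;> simp [hi]
  simp only [det2_eq]
  rw [← e, h, prod_const, MultilinearMap.smul_apply, smul_eq_mul]

theorem poly_rows (A B : α → α ⊕ β → ℝ) (L : β → α ⊕ β → ℝ) : ∃ P : Polynomial ℝ,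
    P.natDegree ≤ Fintype.card α ∧ P.coeff (Fintype.card α) = det2 A L ∧
      ∀ s, P.eval s = det2 (s • A + B) L := by
  refine ⟨∑ J : Finset α, Polynomial.monomial J.card (det2 (J.piecewise A B) L), ?_, ?_, fun s => ?_⟩
  · exact Polynomial.natDegree_sum_le_of_forall_le _ _ fun J _ =>
      (Polynomial.natDegree_monomial_le _).trans (card_le_univ J)
  · rw [Polynomial.finsetSum_coeff, sum_eq_single univ]
    · simp
    · intro J _ hJ
      rw [Polynomial.coeff_monomial, if_neg fun h => hJ ((card_eq_iff_eq_univ J).1 h)]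
    · simp
  · rw [det2_add, Polynomial.eval_finsetSum]
    exact sum_congr rfl fun J _ => by rw [Polynomial.eval_monomial, det2_smul, mul_comm]

theorem grad_add {σ : Type} [Fintype σ] [DecidableEq σ] {d e : ℕ} {F G : (σ → ℝ) → ℝ}
    (hF : IsPoly d F) (hG : IsPoly e G) (c : ℝ) (y : σ → ℝ) :
    grad (fun y => c * F y + G y) y = c • grad F y + grad G y := by
  funext s
  have h := ((hF.differentiable y).hasFDerivAt.const_mul c).add (hG.differentiable y).hasFDerivAt
  have h' : fderiv ℝ (fun y => c * F y + G y) y = _ := h.fderiv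
  simp [grad, h']

/-- Lagrange interpolation at separated nodes. -/
theorem lag {N : ℕ} (P : Polynomial ℝ) (hP : P.natDegree ≤ N) (t : Fin (N + 1) → ℝ) {τ L : ℝ}
    (hτ : 0 < τ) (ht : ∀ i i', i ≠ i' → τ ≤ |t i - t i'|) :
    |P.coeff N| ≤ ∑ i, 1 / τ ^ N * |P.eval (t i)| ∧
      ((∀ i, |t i| ≤ L) → |P.eval 0| ≤ ∑ i, (L / τ) ^ N * |P.eval (t i)|) := by
  have h4 : Set.InjOn t (univ : Finset (Fin (N + 1))) := fun i _ i' _ e => by
    by_contra h
    have := ht i i' h
    rw [e, sub_self, abs_zero] at this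
    linarith
  have h1 : P.degree < (univ : Finset (Fin (N + 1))).card := by
    rw [card_univ, Fintype.card_fin]
    exact Polynomial.degree_le_natDegree.trans_lt (by exact_mod_cast Nat.lt_succ_of_le hP)
  constructor
  · have h5 := Lagrange.coeff_eq_sum h4 h1
    rw [card_univ, Fintype.card_fin, Nat.add_sub_cancel] at h5
    rw [h5]
    refine (abs_sum_le_sum_abs _ _).trans (sum_le_sum fun i _ => ?_)
    have h6 : τ ^ N ≤ |∏ j ∈ univ.erase i, (t i - t j)| := by
      rw [abs_prod]
      have := prod_le_prod (s := univ.erase i) (f := fun _ => τ) (g := fun j => |t i - t j|)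
        (fun _ _ => hτ.le) fun j hj => ht i j (ne_of_mem_erase hj).symm
      simpa using this
    rw [abs_div, one_div_mul_eq_div]
    exact div_le_div_of_nonneg_left (abs_nonneg _) (by positivity) h6
  · intro hL
    have h5 := congrArg (Polynomial.eval 0) (Lagrange.eq_interpolate h4 h1)
    rw [h5, Lagrange.interpolate_apply, Polynomial.eval_finsetSum]
    refine (abs_sum_le_sum_abs _ _).trans (sum_le_sum fun i _ => ?_)
    rw [Polynomial.eval_mul, Polynomial.eval_C, abs_mul, mul_comm]
    refine mul_le_mul_of_nonneg_right ?_ (abs_nonneg _)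
    rw [Lagrange.basis, Polynomial.eval_prod, abs_prod]
    have := prod_le_prod (s := univ.erase i) (g := fun _ => L / τ)
      (f := fun j => |(Lagrange.basisDivisor (t i) (t j)).eval 0|) (fun _ _ => abs_nonneg _)
      fun j hj => by
        simp only [Lagrange.basisDivisor, Polynomial.eval_mul, Polynomial.eval_C,
          Polynomial.eval_sub, Polynomial.eval_X, zero_sub, abs_mul, abs_neg, abs_inv]
        rw [inv_mul_eq_div]
        exact div_le_div₀ ((abs_nonneg _).trans (hL j)) (hL j) hτ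
          (ht i j (ne_of_mem_erase hj).symm)
    rw [prod_const, card_erase_of_mem (mem_univ _), card_univ, Fintype.card_fin,
      Nat.add_sub_cancel] at this
    exact this

/-- The neighbourhood of the polynomial image of a bounded basic set. -/
theorem nbhd (α β κ : Type) [Fintype α] [Fintype β] [DecidableEq α] [DecidableEq β] [Fintype κ]
    (d : ℕ) : ∃ M : ℕ, ∀ (p : κ → (β → ℝ) → ℝ) (ψ : α → (β → ℝ) → ℝ) (r Λ R : ℝ)
      (T : Set (α → ℝ)), (∀ j, IsPoly d (p j)) → (∀ a, IsPoly d (ψ a)) → 0 < r → r ≤ 1 → 1 ≤ Λ →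
      (∀ x, (∀ j, 0 < p j x) → ‖x‖ ≤ R ∧ (∀ a, |ψ a x| ≤ Λ) ∧ (fun a => ψ a x) ∈ T) →
      volume {u : α → ℝ | ∃ x, (∀ j, 0 < p j x) ∧ ∀ a, |u a - ψ a x| < r} ≤
        M * (volume T + ENNReal.ofReal (r * Λ ^ Fintype.card α)) := by
  obtain ⟨M, hM⟩ := sec' α β (κ ⊕ α) (2 * (d + 1))
  refine ⟨M * (1 + (2 * 2) ^ Fintype.card α), fun p ψ r Λ R T hp hψ r0 r1 hΛ h => ?_⟩
  have c1 : ∀ b, IsPoly 1 fun y : α ⊕ β → ℝ => y (.inr b) := fun b => IsPoly.coord _
  have c2 : ∀ a, IsPoly (d + 1) fun y : α ⊕ β → ℝ => ψ a fun b => y (.inr b) := fun a =>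
    ((hψ a).comp_aff c1).mono (Nat.le_succ d)
  have c3 : ∀ a, IsPoly (d + 1) fun y : α ⊕ β → ℝ => y (.inl a) - ψ a fun b => y (.inr b) :=
    fun a => ((IsPoly.coord _).mono (by omega)).sub (c2 a)
  have e : ∀ y : α ⊕ β → ℝ, (∀ j, 0 < Sum.elim (fun j (y : α ⊕ β → ℝ) => p j fun b => y (.inr b))
      (fun a y => r ^ 2 - (y (.inl a) - ψ a fun b => y (.inr b)) ^ 2) j y) ↔
      (∀ j, 0 < p j fun b => y (.inr b)) ∧ ∀ a, |y (.inl a) - ψ a fun b => y (.inr b)| < r :=
    fun y => by simp only [Sum.forall, Sum.elim_inl, Sum.elim_inr, sub_pos, sq_lt_sq, abs_of_pos r0]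
  have k := hM (Finset α) (Sum.elim (fun j (y : α ⊕ β → ℝ) => p j fun b => y (.inr b))
      (fun a y => r ^ 2 - (y (.inl a) - ψ a fun b => y (.inr b)) ^ 2))
    (fun J => J.piecewise (fun a y => y (.inl a) - ψ a fun b => y (.inr b))
      fun a y => ψ a fun b => y (.inr b)) (fun _ => 1)
    (fun J => if J = ∅ then T else Set.univ.pi fun a =>
      Set.Icc (-(J.piecewise (fun _ => r) (fun _ => Λ) a)) (J.piecewise (fun _ => r) (fun _ => Λ) a))
    (fun j => by
      rcases j with j | a
      · exact ((hp j).comp_aff c1).mono (by omega)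
      · exact (H83.IsPoly.const _ _).sub ((c3 a).pow 2))
    (fun J a => by
      by_cases ha : a ∈ J
      · rw [piecewise_eq_of_mem _ _ _ ha]
        exact (c3 a).mono (by omega)
      · rw [piecewise_eq_of_notMem _ _ _ ha]
        exact (c2 a).mono (by omega))
    (fun _ => zero_le_one) (fun u => ⟨R, fun x hx => (h x ((e _).1 hx).1).1⟩)
    (fun y _ L => by
      have e1 : (fun a => (Pi.single (.inl a) 1 : α ⊕ β → ℝ)) =
          (fun a => grad (fun y : α ⊕ β → ℝ => y (.inl a) - ψ a fun b => y (.inr b)) y) +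
            fun a => grad (fun y : α ⊕ β → ℝ => ψ a fun b => y (.inr b)) y := by
        funext a
        have := grad_add (c3 a) (c2 a) 1 y
        simp only [one_mul, sub_add_cancel, one_smul, grad_coord] at this
        exact this
      rw [e1, det2_add]
      refine (abs_sum_le_sum_abs _ _).trans_eq (sum_congr rfl fun J _ => ?_)
      rw [one_mul]
      congr 2
      funext a
      by_cases ha : a ∈ J <;> simp [ha])
    (fun J y hy => by
      obtain ⟨y1, y2⟩ := (e y).1 hy
      split_ifs with hJ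
      · subst hJ
        exact (h _ y1).2.2
      · intro a _
        by_cases ha : a ∈ J
        · simp only [piecewise_eq_of_mem _ _ _ ha]
          exact abs_le.1 (y2 a).le
        · simp only [piecewise_eq_of_notMem _ _ _ ha]
          exact abs_le.1 ((h _ y1).2.1 a))
  simp only [e, Sum.elim_inl, Sum.elim_inr, ENNReal.ofReal_one, one_mul] at k
  refine k.trans ?_
  rw [Nat.cast_mul, mul_assoc]
  gcongr
  have k2 : ∀ J : Finset α, volume (if J = ∅ then T else Set.univ.pi fun a =>
      Set.Icc (-(J.piecewise (fun _ => r) (fun _ => Λ) a)) (J.piecewise (fun _ => r) (fun _ => Λ) a))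
      ≤ (if J = ∅ then volume T else 0) +
        2 ^ Fintype.card α * ENNReal.ofReal (r * Λ ^ Fintype.card α) := fun J => by
    split_ifs with hJ
    · exact le_self_add
    obtain ⟨a0, ha0⟩ := nonempty_iff_ne_empty.2 hJ
    rw [zero_add, volume_pi_pi]
    simp only [Real.volume_Icc, sub_neg_eq_add]
    have k3 : ∀ a, 0 ≤ J.piecewise (fun _ => r) (fun _ => Λ) a ∧
        J.piecewise (fun _ => r) (fun _ => Λ) a ≤ Λ := fun a => by
      by_cases ha : a ∈ J
      · rw [piecewise_eq_of_mem _ _ _ ha]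
        exact ⟨r0.le, r1.trans hΛ⟩
      · rw [piecewise_eq_of_notMem _ _ _ ha]
        exact ⟨zero_le_one.trans hΛ, le_rfl⟩
    rw [← ENNReal.ofReal_prod_of_nonneg fun a _ => add_nonneg (k3 a).1 (k3 a).1,
      ← ENNReal.ofReal_ofNat 2, ← ENNReal.ofReal_pow zero_le_two,
      ← ENNReal.ofReal_mul (by positivity)]
    refine ENNReal.ofReal_le_ofReal ?_
    simp only [← two_mul]
    rw [prod_mul_distrib, prod_const, card_univ, ← mul_prod_erase _ _ (mem_univ a0),
      piecewise_eq_of_mem _ _ _ ha0]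
    gcongr
    refine (prod_le_prod (g := fun _ => Λ) (fun a _ => (k3 a).1) fun a _ => (k3 a).2).trans ?_
    rw [prod_const]
    exact pow_le_pow_right₀ hΛ (card_le_univ _)
  refine (sum_le_sum fun J _ => k2 J).trans ?_
  rw [sum_add_distrib, sum_ite_eq', if_pos (mem_univ _), sum_const, card_univ, Fintype.card_finset,
    nsmul_eq_mul, mul_add]
  push_cast
  rw [← mul_assoc, ← mul_pow, show (2 : ℝ≥0∞) * 2 = 4 by norm_num]
  exact add_le_add (le_mul_of_one_le_left' le_self_add) (mul_le_mul_left le_add_self _)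

/-- Lines of a bounded basic set: the volume of the directions and of the points at any height is
bounded by the volumes at separated heights. -/
theorem jls (N : ℕ) (κ : Type) [Fintype κ] (d : ℕ) : ∃ M : ℕ,
    ∀ (p : κ → (Fin N ⊕ Fin N → ℝ) → ℝ) (t : Fin (N + 1) → ℝ) (τ R : ℝ) (T : Fin (N + 1) → Set (V N)),
      (∀ j, IsPoly d (p j)) → 0 < τ → (∀ i i', i ≠ i' → τ ≤ |t i - t i'|) →
      (∀ a e : V N, (∀ j, 0 < p j (Sum.elim a e)) → ‖a‖ ≤ R ∧ ‖e‖ ≤ R ∧ ∀ i, a + t i • e ∈ T i) →
      volume {e : V N | ∃ a : V N, ∀ j, 0 < p j (Sum.elim a e)} ≤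
        M * ENNReal.ofReal (1 / τ ^ N) * ∑ i, volume (T i) ∧
      ∀ s L : ℝ, (∀ i, |t i - s| ≤ L) →
        volume {u : V N | ∃ a e : V N, (∀ j, 0 < p j (Sum.elim a e)) ∧ u = a + s • e} ≤
          M * ENNReal.ofReal ((L / τ) ^ N) * ∑ i, volume (T i) := by
  obtain ⟨M, hM⟩ := sec' (Fin N) (Fin N) κ (d + 1)
  refine ⟨M, fun p t τ R T hp hτ ht h => ⟨?_, fun s L hL => ?_⟩⟩
  · have k := hM (Fin (N + 1))
      (fun j y => p j (Sum.elim (fun l => y (.inr l)) fun l => y (.inl l)))
      (fun i l y => t i * y (.inl l) + y (.inr l)) (fun _ => 1 / τ ^ N) T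
      (fun j => ((hp j).comp_aff fun s => by
        rcases s with l | l <;> exact IsPoly.coord _).mono (by omega))
      (fun i l => (((IsPoly.coord _).const_mul _).add (IsPoly.coord _)).mono (by omega))
      (fun _ => by positivity) (fun u => ⟨R, fun x hx => (h x u hx).1⟩)
      (fun y _ L => by
        obtain ⟨P, p1, p2, p3⟩ := poly_rows (fun l : Fin N => Pi.single (.inl l) 1)
          (fun l => Pi.single (.inr l) 1) L
        rw [Fintype.card_fin] at p1 p2
        rw [← p2]
        refine (lag (L := 0) P p1 t hτ ht).1.trans_eq (sum_congr rfl fun i _ => ?_)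
        simp only [p3, grad_add (IsPoly.coord _) (IsPoly.coord _), grad_coord]
        rfl)
      (fun i y hy => by
        have := (h _ _ hy).2.2 i
        rwa [add_comm] at this)
    rw [mul_assoc, mul_sum]
    exact k
  · have L0 : 0 ≤ L := (abs_nonneg _).trans (hL 0)
    have k := hM (Fin (N + 1))
      (fun j y => p j (Sum.elim (fun l => y (.inl l) - s * y (.inr l)) fun l => y (.inr l)))
      (fun i l y => (t i - s) * y (.inr l) + y (.inl l)) (fun _ => (L / τ) ^ N) T
      (fun j => ((hp j).comp_aff fun s => by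
        rcases s with l | l
        · exact (IsPoly.coord _).sub ((IsPoly.coord _).const_mul _)
        · exact IsPoly.coord _).mono (by omega))
      (fun i l => (((IsPoly.coord _).const_mul _).add (IsPoly.coord _)).mono (by omega))
      (fun _ => by positivity) (fun u => ⟨R, fun x hx => (h _ x hx).2.1⟩)
      (fun y _ L' => by
        obtain ⟨P, p1, -, p3⟩ := poly_rows (fun l : Fin N => Pi.single (.inr l) 1)
          (fun l => Pi.single (.inl l) 1) L'
        rw [Fintype.card_fin] at p1
        have := (lag P p1 (fun i => t i - s) hτ (fun i i' hi => by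
          rw [sub_sub_sub_cancel_right]; exact ht i i' hi)).2 hL
        rw [p3, zero_smul, zero_add] at this
        refine this.trans_eq (sum_congr rfl fun i _ => ?_)
        simp only [p3, grad_add (IsPoly.coord _) (IsPoly.coord _), grad_coord]
        rfl)
      (fun i y hy => by
        have := (h _ _ hy).2.2 i
        refine Set.mem_of_eq_of_mem (funext fun l => ?_) this
        simp only [Pi.add_apply, Pi.smul_apply, smul_eq_mul]
        ring)
    rw [mul_assoc, mul_sum]
    refine le_trans (measure_mono ?_) k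
    rintro u ⟨a, e, h1, rfl⟩
    refine ⟨e, fun j => ?_⟩
    simpa using h1 j

end Pool.Agent.MP_5168f5_an.QA
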