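import Pool.Agent.MP_5168f5_an.QA.OrbPh
import Pool.Agent.MP_5168f5_an.QA.ChAlg
import Pool.Agent.MP_5168f5_an.AN.S20Dn

/-! The Kakeya maximal estimate: the reference point of an orbit on one space. -/

namespace Pool.Agent.MP_5168f5_an.QA.Ob

open H19 H17S H17F R4 AN Filter Matrix IsNilpotent
open GA (Mt IsFr ex)
open N2 (tri)
open N6 (Eb PG pg_id pg_nat pg_const)
open Ch (gr_pw mv_le)

variable {m : ℕ} {κ J : Type} [Fintype κ] [Fintype J] {kk : Fin m → ℝ} {B : κ → Mt (Fin m)}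
  {c : κ → κ → κ → ℝ} {lv : κ → Prop} {ρ : κ → ℝ} {f : J → Mt (Fin m)} {L L' θ θ' : ℝ}
  {p y : Fin m → ℝ}

theorem Vb.wk (h : Vb θ p) (e : θ ≤ θ') : Vb θ' p := fun q => (h q).trans e

theorem Vb.mv {A : Mt (Fin m)} (h : Vb θ p) (a : Eb L A) (h0 : 0 ≤ θ) (l0 : 0 ≤ L) :
    Vb ((m + 1) * L * θ) (A *ᵥ p) := fun q =>
  (mv_le (fun p q => a q p) h0 fun q _ => h q).trans (by nlinarith [mul_nonneg l0 h0])

omit [Fintype κ] in
theorem Bo.wk {t : κ → ℝ} (h : Bo lv ρ L θ t) (r : ∀ a, 0 ≤ ρ a) (e : L ≤ L') (e' : θ ≤ θ') :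
    Bo lv ρ L' θ' t := fun a => ⟨fun u => ((h a).1 u).trans (mul_le_mul_of_nonneg_right e (r a)),
  fun u => ((h a).2 u).trans e'⟩

theorem Nb.wk (h : Nb B lv ρ f L θ p y) (r : ∀ a, 0 ≤ ρ a) (e : L ≤ L') (e' : θ ≤ θ') :
    Nb B lv ρ f L' θ' p y :=
  let ⟨t, ξ, a, b, d⟩ := h
  ⟨t, ξ, a.wk r e e', fun j => (b j).trans e, d.wk e'⟩

omit [Fintype J] in
theorem Al.wk (h : Al kk B c lv 1 f L L θ) (e : L ≤ L') (e' : θ ≤ θ') :
    Al kk B c lv 1 f L' L' θ' :=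
  ⟨h.fr, h.one.trans e, le_rfl, h.pos.trans_le e', fun _ => ⟨le_rfl, h.one.trans e⟩,
    fun a => Lt.eb_mono (h.bB a) e, fun a b d => (h.bc a b d).trans e,
    fun a b d u v w => (h.ll a b d u v w).trans (mul_le_mul_of_nonneg_right e zero_le_one),
    fun a b d u v w => (h.ld a b d u v w).trans e', h.mf, fun j => Lt.eb_mono (h.bf j) e,
    fun a j u => Lt.eb_mono (h.cf a j u) e', fun i j => Lt.eb_mono (h.ff i j) e'⟩

/-- Exchange of the commuting matrices. -/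
theorem conv (m k : ℕ) : ∃ F, PG F ∧ ∀ (κ J : Type) [Fintype κ] [Fintype J] (kk : Fin m → ℝ)
    (B : κ → Mt (Fin m)) (c : κ → κ → κ → ℝ) (lv : κ → Prop) (f f' : J → Mt (Fin m)) (L θ : ℝ)
    (p y : Fin m → ℝ), Fintype.card κ ≤ k → IsFr (tri kk) B c → 1 ≤ L → 0 ≤ θ → θ ≤ L →
    (∀ a, Eb L (B a)) → Vb L p → (∀ ξ : J → ℝ, (∀ j, |ξ j| ≤ L) →
      Eb θ (exp (∑ j, ξ j • f j) - exp (∑ j, ξ j • f' j))) → Nb B lv 1 f L θ p y →
    Nb B lv 1 f' L (F L * θ) p y := by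
  obtain ⟨a, ha, h⟩ := OrbPhA.ex_eb m k
  have hF := (pg_const le_rfl).add (((pg_nat m).mul ha).mul ((pg_nat m).mul pg_id))
  refine ⟨_, hF, fun κ J _ _ kk B c lv f f' L θ p y hk fr l1 t0 t1 bB vp cl ⟨t, ξ, b1, b2, b3⟩ =>
    ⟨t, ξ, b1.wk (fun _ => zero_le_one) le_rfl (le_mul_of_one_le_left t0 (hF.1 L l1)), b2,
      fun q => ?_⟩⟩
  have e1 := (h κ kk B c t L hk fr l1 bB fun a => by
    by_cases u : lv a
    exacts [by simpa using (b1 a).1 u, ((b1 a).2 u).trans t1]).1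
  have e2 := ((vp.mv (cl ξ b2) (by linarith) t0).mv e1 (by positivity) (ha.nn l1)) q
  have e3 : y - ex B t *ᵥ (exp (∑ j, ξ j • f' j) *ᵥ p) =
      y - ex B t *ᵥ (exp (∑ j, ξ j • f j) *ᵥ p) +
        ex B t *ᵥ ((exp (∑ j, ξ j • f j) - exp (∑ j, ξ j • f' j)) *ᵥ p) := by
    rw [sub_mulVec, mulVec_sub]; abel
  rw [e3]
  exact (abs_add_le _ _).trans ((add_le_add (b3 q) e2).trans_eq (by ring))

/-- The net point is read from the point and has few values on a cell. -/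
theorem np (hN : SNet) (hJ : SJoin) (m k : ℕ) : ∃ C : ℕ, 1 ≤ C ∧ ∀ (κ J Ω W Λ β : Type)
    [Fintype κ] [Fintype J] (kk : Fin m → ℝ) (lv : κ → Prop) (P : FP Ω) (Q : FP W) (π : W → Ω)
    (O : Ω → Λ) (V : W → β) (D : Ω → (κ → Mt (Fin m)) × (κ → κ → κ → ℝ) × (J → Mt (Fin m)))
    (p : Ω → Fin m → ℝ) (Y : W → Fin m → ℝ) (L θ : ℝ), Fintype.card κ + Fintype.card J ≤ k →
    1 ≤ L → 0 ≤ θ → (C * L) ^ C * θ ≤ 1 → Fn P (fun ω => (D ω, p ω)) O →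
    (∀ ω ∈ P.S, Al kk (D ω).1 (D ω).2.1 lv 1 (D ω).2.2 L L θ ∧ Vb L (p ω)) →
    (∀ v ∈ Q.S, π v ∈ P.S ∧ Nb (D (π v)).1 lv 1 (D (π v)).2.2 L (L * θ) (p (π v)) (Y v)) →
    (∀ v ∈ Q.S, ∀ v' ∈ Q.S, V v' = V v → D (π v') = D (π v) ∧
      ∃ t, Bo lv 1 L (L * θ) t ∧ Vb (L * θ) (Y v - ex (D (π v)).1 t *ᵥ Y v')) →
    ∃ q : Ω → Fin m → ℝ, Fn P q O ∧ (∀ ω ∈ P.S, Vb ((C * L) ^ C) (q ω) ∧
      Nb (D ω).1 lv 1 (D ω).2.2 ((C * L) ^ C) ((C * L) ^ C * θ) (q ω) (p ω)) ∧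
      Det Q (fun v => q (π v)) V ((C * L) ^ C) := by
  obtain ⟨C₁, c1, hN⟩ := hN m k
  obtain ⟨C₂, c2, hJ⟩ := hJ m k
  obtain ⟨C, c3, hC⟩ := ((gr_pw c1).comp (gr_pw c2)).pb
  refine ⟨C, c3, fun κ J Ω W Λ β _ _ kk lv P Q π O V D p Y L θ hk l1 t0 s fn al nb mt => ?_⟩
  have g0 := (gr_pw c2).le L l1
  have g1 := ((gr_pw c1).mono _ _ l1 g0).trans (hC L l1)
  have g2 := ((gr_pw c1).le _ (l1.trans g0)).trans (hC L l1)
  choose Ξ hΞ using fun d : (κ → Mt (Fin m)) × (κ → κ → κ → ℝ) × (J → Mt (Fin m)) =>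
    hN κ J kk d.1 d.2.1 lv d.2.2 L θ
  have k1 := fun ω hω => hΞ (D ω) hk (al ω hω).1 ((mul_le_mul_of_nonneg_right g1 t0).trans s)
  refine ⟨fun ω => Ξ (D ω) (p ω), (Fn.comp (fun z => Ξ z.1 z.2) _).trans fn, fun ω hω => ?_,
    fun v hv => ?_⟩
  · obtain ⟨a, b⟩ := (k1 ω hω).1 _ (al ω hω).2
    exact ⟨a.wk g1, b.wk (fun _ => zero_le_one) g1 (mul_le_mul_of_nonneg_right g1 t0)⟩
  · obtain ⟨T, a, b⟩ := (k1 _ (nb v hv).1).2 (p (π v)) _ g0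
    refine ⟨T, a.trans (hC L l1), fun v' hv' e => ?_⟩
    obtain ⟨e1, t, e2, e3⟩ := mt v hv v' hv' e
    have e4 := (nb v' hv').2
    beta_reduce
    rw [e1] at e4 ⊢
    exact b _ (hJ κ J kk _ _ lv _ L θ _ _ _ _ t hk (al _ (nb v hv).1).1
      ((mul_le_mul_of_nonneg_right g2 t0).trans s) (al _ (nb v hv).1).2 (nb v hv).2 e4 e2 e3)

/-- Small entropy gives short lists on an event of probability one half. -/
theorem ent_few {Ω α β : Type} (P : FP Ω) (q : Ω → α) (S : Ω → β) : ∃ G : Ω → Prop,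
    1 / 2 ≤ pb P G ∧ S20.Few P q S G (Real.exp (2 * ch P q S + 1)) := by
  have h0 := ch_nonneg (P := P) q S
  refine ⟨fun v => Real.exp (-(2 * ch P q S + 1)) ≤ S20.dn P q S v, ?_, ?_⟩
  · have a := G39.markov P (u := fun ω => -Real.log (MX.cm P S q ω)) (fun ω hω => neg_nonneg.2
      (Real.log_nonpos (MX.cm_pos _ _ hω).le (MX.cm_le_one _ _ _ _))) (2 * ch P q S + 1)
    rw [← MX.ch_eq_cm] at a
    have b := pb_mono (P := P) (E := fun v => ¬Real.exp (-(2 * ch P q S + 1)) ≤ S20.dn P q S v)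
      (F := fun ω => 2 * ch P q S + 1 ≤ -Real.log (MX.cm P S q ω)) fun ω hω u =>
        le_neg.1 ((Real.log_le_iff_le_exp (MX.cm_pos _ _ hω)).2 (not_le.1 u).le)
    rw [pb_not] at b
    nlinarith
  · simpa only [Real.exp_neg, inv_inv] using S20.few_dn P q S (Real.exp_pos (-(2 * ch P q S + 1)))

end Pool.Agent.MP_5168f5_an.QA.Ob
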