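import Pool.Agent.MP_5168f5_an.QA.OrbAl

/-! The Kakeya maximal estimate: the reference point of an orbit on one space. -/

namespace Pool.Agent.MP_5168f5_an.QA.Ob

open H19 H17S H17F R4 AN Filter Matrix IsNilpotent Lt Finset
open GA (Mt IsFr ex cm)
open N2 (tri)
open N6 (Eb PG pg_nat pg_id pg_const)
open Fl (Sg Bd Fd One)
open OrbPhA

namespace OneA

variable {m : ℕ} {x y T : ℝ} {X Y : Mt (Fin m)} {v v' : Fin m → ℝ} {kk : Fin m → ℝ}

theorem vb_mono (h : Vb x v) (e : x ≤ y) : Vb y v := fun q => (h q).trans e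

theorem vb_add (h : Vb x v) (h' : Vb y v') : Vb (x + y) (v + v') := fun q =>
  (abs_add_le _ _).trans (add_le_add (h q) (h' q))

theorem vb_mul (h : Eb x X) (h' : Vb y v) (x0 : 0 ≤ x) (y0 : 0 ≤ y) :
    Vb ((m + 1) * x * y) (X *ᵥ v) := fun p => by
  change |∑ r, X p r * v r| ≤ _
  refine (abs_sum_le_sum_abs _ _).trans ((sum_le_card_nsmul _ _ (x * y) fun r _ => ?_).trans ?_)
  · rw [abs_mul]; exact mul_le_mul (h r p) (h' r) (abs_nonneg _) x0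
  · simp only [card_univ, Fintype.card_fin, nsmul_eq_mul]
    nlinarith [mul_nonneg x0 y0]

theorem sum_mem {J : Type} [Fintype J] {Z : J → Mt (Fin m)} (h : ∀ j, Z j ∈ (tri kk).F 0)
    (ξ : J → ℝ) : ∑ j, ξ j • Z j ∈ (tri kk).F 0 := N2.mem_F0.2 fun p q e => by
  simp [Matrix.sum_apply, N2.mem_F0.1 (h _) p q e]

theorem cm_neg (h : Eb x (cm X Y)) : Eb x (cm Y X) := by
  have := eb_neg h
  rwa [cm, neg_sub] at this

theorem sumT {J : Type} [Fintype J] (hJ : (Fintype.card J : ℝ) ≤ T) {Z : J → Mt (Fin m)}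
    (x0 : 0 ≤ x) (h : ∀ j, Eb x (Z j)) : Eb (T * x) (∑ j, Z j) :=
  eb_mono (eb_card h) (mul_le_mul_of_nonneg_right hJ x0)

theorem absT {J : Type} [Fintype J] (hJ : (Fintype.card J : ℝ) ≤ T) {s z : J → ℝ} (x0 : 0 ≤ x)
    (y0 : 0 ≤ y) (h : ∀ j, |s j| ≤ x) (h' : ∀ j, |z j| ≤ y) : |∑ j, s j * z j| ≤ T * (x * y) :=
  (abs_sum_le_sum_abs _ _).trans ((sum_le_card_nsmul _ _ (x * y) fun r _ => by
    rw [abs_mul]; exact mul_le_mul (h r) (h' r) (abs_nonneg _) x0).trans (by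
      rw [card_univ, nsmul_eq_mul]; exact mul_le_mul_of_nonneg_right hJ (by positivity)))

theorem vec_sum {κ J : Type} [Fintype κ] [Fintype J] (B : κ → Mt (Fin m)) (s : J → ℝ)
    (z : J → κ → ℝ) : GA.vec B (∑ j, s j • z j) = ∑ j, s j • GA.vec B (z j) := by
  simp only [GA.vec, Finset.sum_apply, Pi.smul_apply, smul_eq_mul, sum_smul, smul_sum, mul_smul]
  exact sum_comm

theorem exp_cj {K K' : Mt (Fin m)} (h : K * K' = 1) (h' : K' * K = 1) (a : IsNilpotent X) :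
    exp (K * X * K') = K * exp X * K' :=
  (map_exp a ({
    toFun := fun x => K * x * K'
    map_one' := by rw [mul_one, h]
    map_mul' := fun x y => by
      calc K * (x * y) * K' = K * x * (K' * K) * y * K' := by rw [h']; noncomm_ring
        _ = _ := by noncomm_ring
    map_zero' := by simp
    map_add' := fun x y => by noncomm_ring } : Mt (Fin m) →+* Mt (Fin m))).symm

/-- The curve in the reference frame. -/
theorem core (m : ℕ) : ∃ F, PG F ∧ ∀ (kk : Fin m → ℝ) (K K' Ψ Φ A₀ : Mt (Fin m))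
    (z e : Fin m → ℝ) (L θ : ℝ), 1 ≤ L → 0 ≤ θ → K * K' = 1 → K' * K = 1 →
    K - 1 ∈ (tri kk).F 0 → K' - 1 ∈ (tri kk).F 0 → Ψ ∈ (tri kk).F 0 → Φ ∈ (tri kk).F 0 →
    A₀ ∈ (tri kk).F 0 → Eb L K → Eb L (K * Ψ * K') → Eb L Φ → Eb L (K * A₀ * K') →
    Eb θ (K * Ψ * K' - Φ) → Eb θ (cm (K * A₀ * K') Φ) → Vb L (K *ᵥ e) →
    Vb θ (z - exp Ψ *ᵥ (exp A₀ *ᵥ e)) →
    Vb (F L * θ) (K *ᵥ z - exp (K * A₀ * K') *ᵥ (exp Φ *ᵥ (K *ᵥ e))) := by
  obtain ⟨f, hf, h⟩ := exp_prt m m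
  obtain ⟨g, hg, h'⟩ := N6.exp_est m m
  have hc : PG fun L => (m + 1) * (2 * (m + 1) * L) ^ m :=
    (pg_nat m).mul ((((pg_const one_le_two).mul (pg_nat m)).mul pg_id).pow m)
  refine ⟨_, (((pg_nat m).mul pg_id).add (((pg_nat m).mul hf).mul
    (((pg_nat m).mul hg).mul pg_id))).add (((pg_nat m).mul (hc.mul hc)).mul pg_id),
    fun kk K K' Ψ Φ A₀ z e L θ hL h0 i1 i2 m1 m2 m3 m4 m5 b1 b2 b3 b4 d1 d2 v1 v2 => ?_⟩
  have L0 := zero_le_one.trans hL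
  have f0 := hf.nn hL
  have g0 := hg.nn hL
  have c0 := hc.nn hL
  have mA := conj_mem m1 m2 m5
  have a1 := vb_mul b1 v2 L0 h0
  have a2 := vb_mul (h (tri kk) _ _ L θ rfl (conj_mem m1 m2 m3) m4 hL h0 b2 b3 d1)
    (vb_mul (h' (tri kk) _ L rfl mA hL b4).1 v1 g0 L0) (by positivity) (by positivity)
  have a3 := vb_mul (cm_exp m4 b3 (cm_neg (cm_exp mA b4 d2 hL h0)) hL (by positivity)) v1
    (by positivity) L0
  refine vb_mono ((congrArg _ ?_).mp (vb_add (vb_add a1 a2) a3)) (le_of_eq (by ring))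
  have e1 : exp (K * Ψ * K') *ᵥ (exp (K * A₀ * K') *ᵥ (K *ᵥ e)) =
      K *ᵥ (exp Ψ *ᵥ (exp A₀ *ᵥ e)) := by
    rw [exp_cj i1 i2 ((tri kk).nil m3), exp_cj i1 i2 ((tri kk).nil m5)]
    simp only [mulVec_mulVec, mul_assoc]
    rw [i2, mul_one, ← mul_assoc K', i2, one_mul]
  rw [mulVec_sub, sub_mulVec, e1, cm, sub_mulVec, ← mulVec_mulVec, ← mulVec_mulVec]
  abel

theorem nb_mono {κ J : Type} [Fintype κ] [Fintype J] {B : κ → Mt (Fin m)} {lv : κ → Prop}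
    {f : J → Mt (Fin m)} {θ θ' : ℝ} (h : Nb B lv 1 f x θ v v') (a : x ≤ y) (b : θ ≤ θ') :
    Nb B lv 1 f y θ' v v' :=
  let ⟨t, ξ, h1, h2, h3⟩ := h
  ⟨t, ξ, fun i => ⟨fun u => ((h1 i).1 u).trans (mul_le_mul_of_nonneg_right a zero_le_one),
    fun u => ((h1 i).2 u).trans b⟩, fun j => (h2 j).trans a, vb_mono h3 b⟩

/-- A point of the curve lies near the orbit of the true point. -/
theorem near (m : ℕ) (κ α J : Type) [Fintype κ] [DecidableEq κ] [Fintype α] [Fintype J] :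
    ∃ H, PG H ∧ ∀ (kk : Fin m → ℝ) (σ : Sg (Fin m) κ α) (μ : κ → ℝ) (γ : κ → ℕ) (o : Fin m)
    (Ω Λ Θ Ξ : Type) (b : Bd (Fin m) κ α Ω Θ Ξ) (d : Fd (Fin m) κ α Ω) (P : FP Ω) (O : Ω → Λ)
    (φ : Ω → J → Mt (Fin m)) (R u w : ℝ) (ω : Ω), IsFr (tri kk) σ.B σ.c → (∀ i, 0 < σ.η i) →
    One σ b d P O μ γ R u w → ω ∈ P.S → Ow kk b φ u w ω → Rf kk σ b d φ μ o u w ω →
    (∀ (z : Fin m → ℝ) (θ : ℝ), 0 ≤ θ → Vb (Real.exp u * θ) z →
      Vb (H (Real.exp u) * θ) (ex (d.B σ ω) (d.k ω) *ᵥ z)) ∧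
    ∀ (z : Fin m → ℝ) (ξ : J → ℝ) (s : α → ℝ), (∀ j, |ξ j| ≤ Real.exp u) →
      (∀ i, |s i| ≤ Real.exp u) → Vb (Real.exp (-w)) (z - exp (∑ j, ξ j • pj kk (ps b φ ω j)) *ᵥ
        (ex σ.B (∑ i, s i • b.H ω i) *ᵥ Pi.single o 1)) →
      Nb (d.B σ ω) (fun a => 0 < μ a) 1 (pf kk d φ ω) (H (Real.exp u))
        (H (Real.exp u) * Real.exp (-w)) (pt σ d o ω) (ex (d.B σ ω) (d.k ω) *ᵥ z) := by
  obtain ⟨F, hF, hc⟩ := core m
  obtain ⟨a, ha, he⟩ := ex_eb m (Fintype.card κ)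
  set n : ℝ := 2 * (m + 1) + Fintype.card κ + Fintype.card α + Fintype.card J with hn
  have n0 : (0 : ℝ) ≤ m ∧ (0 : ℝ) ≤ Fintype.card κ ∧ (0 : ℝ) ≤ Fintype.card α ∧
      (0 : ℝ) ≤ Fintype.card J := ⟨by positivity, by positivity, by positivity, by positivity⟩
  have n2 : 2 ≤ n := by linarith
  have hT : PG fun L => (n * L * a L) ^ 8 :=
    (((pg_const (by linarith)).mul pg_id).mul ha).pow 8
  refine ⟨_, (hF.comp hT).mul hT, fun kk σ μ γ o Ω Λ Θ Ξ b d P O φ R u w ω fr eta h hω ow rf => ?_⟩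
  set L := Real.exp u with hL
  set ε := Real.exp (-w) with hε
  have L1 : 1 ≤ L := rf.al.one
  have e0 : 0 ≤ ε := (Real.exp_pos _).le
  have a1 := ha.1 L L1
  obtain ⟨k1, k2⟩ := he κ kk _ _ (d.k ω) L le_rfl rf.al.fr L1 rf.al.bB (h.bk ω hω)
  have t1 : n ≤ n * L * a L ∧ L ≤ n * L * a L ∧ a L ≤ n * L * a L := by
    have : 1 ≤ L * a L := one_le_mul_of_one_le_of_one_le L1 a1
    exact ⟨by nlinarith, by nlinarith, by nlinarith⟩
  have F1 := hF.1 _ (hT.1 L L1)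
  beta_reduce at F1 ⊢
  generalize n * L * a L = T at *
  have T2 : 2 ≤ T := n2.trans t1.1
  have T0 : 0 ≤ T := by linarith
  have pw : ∀ i ≤ 8, T ^ i ≤ T ^ 8 := fun i => pow_le_pow_right₀ (by linarith)
  have up : T ^ 8 ≤ F (T ^ 8) * T ^ 8 := le_mul_of_one_le_left (by positivity) F1
  have mT : (m + 1 : ℝ) ≤ T := by linarith [t1.1]
  replace k1 := eb_mono k1 t1.2.2
  replace k2 := eb_mono k2 t1.2.2
  refine ⟨fun z θ θ0 hz => vb_mono (vb_mul k1 hz T0 (by positivity)) ?_, fun z ξ s hξ hs hz => ?_⟩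
  · refine le_trans ?_ (mul_le_mul_of_nonneg_right ((pw 3 (by norm_num)).trans up) θ0)
    calc _ ≤ T * T * (T * θ) := by gcongr; exact t1.2.1
      _ = _ := by ring
  have cκ : (Fintype.card κ : ℝ) ≤ T := by linarith [t1.1]
  have cα : (Fintype.card α : ℝ) ≤ T := by linarith [t1.1]
  have cJ : (Fintype.card J : ℝ) ≤ T := by linarith [t1.1]
  have m2 : 2 * (m + 1 : ℝ) ≤ T := by linarith [t1.1]
  have mu := GA.sMul _ _ _ _ _ rf.al.fr
  have ξT := fun j => (hξ j).trans t1.2.1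
  have sT := fun j => (hs j).trans t1.2.1
  have eA : ex (d.B σ ω) (d.k ω) * GA.vec σ.B (∑ i, s i • b.H ω i) * ex (d.B σ ω) (-d.k ω) =
      GA.vec (d.B σ ω) fun a => ∑ i, s i * d.A ω i a := by
    rw [show (fun a => ∑ i, s i * d.A ω i a) = ∑ i, s i • d.A ω i from funext fun a => by simp,
      vec_sum, vec_sum, mul_sum, sum_mul]
    exact sum_congr rfl fun i _ => by rw [h.ad ω hω i, mul_smul_comm, smul_mul_assoc]
  have tb := fun a => absT cα T0 T0 sT fun i => (h.bA ω hω i a).trans t1.2.1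
  have td := fun a (u : ¬0 < μ a) => absT cα T0 e0 sT fun i =>
    h.low ω hω i a ((not_lt.1 u).trans_lt (eta i))
  have bΦ : Eb (T * (T * T)) (∑ j, ξ j • pf kk d φ ω j) :=
    sumT cJ (by positivity) fun j => eb_smul (eb_mono (rf.al.bf j) t1.2.1) (ξT j)
  have cj : ∀ {x : ℝ} {Y : Mt (Fin m)}, 0 ≤ x → Eb x Y →
      Eb (T ^ 4 * x) (ex (d.B σ ω) (d.k ω) * Y * ex (d.B σ ω) (-d.k ω)) := fun x0 e =>
    eb_mono (eb_cj k1 k2 e T0 x0) (le_trans (by gcongr) (le_of_eq (by ring :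
      T * (T * T * _) * T = _)))
  have hT7 : ∀ i ≤ 8, T ^ i * ε ≤ T ^ 8 * ε := fun i hi => mul_le_mul_of_nonneg_right (pw i hi) e0
  have mk := fun t => (tri kk).exp_sub_one (rf.al.fr.mem t)
  have key := hc kk _ _ _ _ _ z (Pi.single o 1) (T ^ 8) (T ^ 8 * ε) (one_le_pow₀ (by linarith))
    (by positivity) (mu.neg _).2 (mu.neg _).1 (mk _) (mk _) (sum_mem (fun j => pj_mem kk _) ξ)
    (sum_mem rf.al.mf ξ) (fr.mem _) (eb_mono k1 ((pow_one T).symm.trans_le (pw 1 (by norm_num))))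
    (eb_mono (cj (by positivity) (sumT cJ (by positivity) fun j => eb_smul (eb_pj
      (eb_mono (ow.bd j) t1.2.1)) (ξT j))) ((le_of_eq (by ring)).trans (pw 7 (by norm_num))))
    (eb_mono bΦ ((le_of_eq (by ring)).trans (pw 3 (by norm_num))))
    (eA ▸ eb_mono (sumT cκ (by positivity) fun a => eb_smul (eb_mono (rf.al.bB a) t1.2.1) (tb a))
      ((le_of_eq (by ring)).trans (pw 5 (by norm_num)))) ?_ ?_
    (vb_mono rf.vb (t1.2.1.trans ((pow_one T).symm.trans_le (pw 1 (by norm_num)))))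
    (vb_mono hz (le_mul_of_one_le_left e0 (one_le_pow₀ (by linarith))))
  · rw [eA] at key
    refine ⟨_, ξ, fun a => ⟨fun _ => (tb a).trans ?_, fun u => (td a u).trans ?_⟩,
      fun j => (ξT j).trans ((pow_one T).symm.trans_le ((pw 1 (by norm_num)).trans up)),
      vb_mono key (mul_assoc _ _ _).ge⟩
    · exact (le_of_eq (by ring)).trans (((pw 3 (by norm_num)).trans up).trans_eq (mul_one _).symm)
    · exact (le_of_eq (by ring)).trans ((hT7 2 (by norm_num)).trans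
        (mul_le_mul_of_nonneg_right up e0))
  · rw [mul_sum, sum_mul, ← sum_sub_distrib]
    refine eb_mono (sumT (x := T * (ε + T ^ 4 * ε)) cJ (by positivity) fun j => ?_) (le_trans ?_
      (hT7 7 (by norm_num)))
    · rw [mul_smul_comm, smul_mul_assoc, ← smul_sub]
      refine eb_smul ((congrArg _ ?_).mp (eb_sub (rf.pk j) (cj e0 (ow.tri j)))) (ξT j)
      noncomm_ring
    · have a2 : T ^ 2 * ε ≤ T ^ 6 * ε :=
        mul_le_mul_of_nonneg_right (pow_le_pow_right₀ (by linarith) (by norm_num)) e0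
      nlinarith [mul_le_mul_of_nonneg_right T2 (show 0 ≤ T ^ 6 * ε by positivity)]
  · rw [eA, GA.vec, cm_sum]
    refine eb_mono (sumT (x := T ^ 7 * ε) cκ (by positivity) fun a => ?_) (le_of_eq (by ring))
    by_cases u : 0 < μ a
    · refine eb_mono (eb_smul (cm_neg (x := T * (T * ε)) ?_) (tb a)) ((le_of_eq (by ring)).trans
        (mul_le_mul_of_nonneg_right (pow_le_pow_right₀ (by linarith) (by norm_num : 5 ≤ 7)) e0))
      rw [cm_sum]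
      exact sumT cJ (by positivity) fun j => eb_smul (cm_neg (rf.al.cf a j u)) (ξT j)
    · refine eb_mono (eb_smul (eb_cm (eb_mono (rf.al.bB a) t1.2.1) bΦ T0 (by positivity)) (td a u))
        (le_trans (by gcongr) (le_of_eq (by ring : T * (T * ε) * (T * T * (T * (T * T))) = _)))

end OneA

open OneA in
theorem ofOne : OfOne := by
  intro hP hN hJ hO m κ α J _ _ _ _ kk σ Hs W μ γ o hΦ ok hμ
  obtain ⟨C₁, c1, n1⟩ := hN m (Fintype.card κ + Fintype.card J)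
  obtain ⟨C₂, c2, n2⟩ := hJ m (Fintype.card κ + Fintype.card J)
  obtain ⟨C₃, c3, n3⟩ := hO (Fin m) κ α σ Hs W μ γ ok hμ
  obtain ⟨H, hH, n4⟩ := near m κ α J
  obtain ⟨K, c4, n5⟩ := hP H hH
  have d1 : (1 : ℝ) ≤ C₁ := by exact_mod_cast c1
  have d2 : (1 : ℝ) ≤ C₂ := by exact_mod_cast c2
  set C₀ : ℝ := K * (K + 1) + C₃ with h0
  have k0 : (0 : ℝ) ≤ K * (K + 1) := by positivity
  set C₄ : ℝ := C₂ * (C₂ + C₀) with h4
  have k4 : C₀ ≤ C₄ := by nlinarith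
  have k5 : C₄ ≤ C₁ * (C₁ + C₄) := by nlinarith
  refine ⟨C₁ * (C₁ + C₄), by linarith, fun Ω Λ Θ Ξ W' β b d P O φ Q π V y R u w θ hR hu hw t1 t2 h
    ba fφ H' vt => ?_⟩
  set C : ℝ := C₁ * (C₁ + C₄) with hC
  have u0 : 0 ≤ u := by linarith
  have θ0 : 0 < θ := (Real.exp_pos _).trans_le t1
  have ex' : ∀ {a b : ℝ}, a ≤ b → Real.exp (a * u) ≤ Real.exp (b * u) := fun e =>
    Real.exp_le_exp.2 (mul_le_mul_of_nonneg_right e u0)
  have cw := mul_le_mul_of_nonneg_right (show C₃ ≤ C by linarith) (show 0 ≤ u + R by linarith)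
  have c30 : 0 ≤ C₃ * (u + R) := by positivity
  have e3 : Real.exp (-(w - C₃ * (u + R))) ≤ θ := (Real.exp_le_exp.2 (by linarith)).trans t1
  have e0 : Real.exp (-w) ≤ θ := (Real.exp_le_exp.2 (by linarith)).trans e3
  set L := Real.exp (C₀ * u) with hL
  have L1 : 1 ≤ L := Real.one_le_exp (by nlinarith)
  have uL : Real.exp u ≤ L := by simpa only [one_mul] using ex' (show 1 ≤ C₀ by linarith)
  have HL : H (Real.exp u) ≤ L := (n5 _ (Real.one_le_exp u0)).trans (by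
    simpa only [one_mul] using (Fl.FlOut.pw (K := K) (a := 1) hu).trans (ex' (by linarith)))
  have x2 : ((C₂ : ℝ) * L) ^ C₂ ≤ Real.exp (C₄ * u) := Fl.FlOut.pw hu
  have x3 : L ≤ ((C₂ : ℝ) * L) ^ C₂ := by simpa using Ch.pw_mono le_rfl c2 L1 le_rfl
  have x4 : ((C₁ : ℝ) * ((C₂ : ℝ) * L) ^ C₂) ^ C₁ ≤ Real.exp (C * u) :=
    (Ch.pw_mono c1 le_rfl (L1.trans x3) x2).trans (Fl.FlOut.pw hu)
  have x1 : ((C₁ : ℝ) * L) ^ C₁ ≤ Real.exp (C * u) := (Ch.pw_mono c1 le_rfl L1 x3).trans x4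
  have al := fun ω hω => (H' ω hω).2.al.mono uL e0
  choose Xi hXi using fun B c f => n1 κ J kk B c (fun a => 0 < μ a) f L θ
  have g1 := fun ω hω => hXi _ _ _ le_rfl (al ω hω)
    ((mul_le_mul_of_nonneg_right x1 θ0.le).trans t2)
  have eq : ∀ a ∈ P.S, ∀ a' ∈ P.S, d.T a = d.T a' →
      d.B σ a = d.B σ a' ∧ d.c σ a = d.c σ a' ∧ pf kk d φ a = pf kk d φ a' := fun a ha a' ha' e => by
    have e1 := Prod.mk.inj (h.fU a ha a' ha' e)
    exact ⟨by rw [Fd.B, Fd.B, e1.1], by rw [Fd.c, Fd.c, e1.1, e1.2], funext fun j => by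
      rw [pf, pf, pe, pe, h.fE a ha a' ha' e, fφ a ha a' ha' (h.f0 a ha a' ha' e)]⟩
  refine ⟨fun ω => Xi (d.B σ ω) (d.c σ ω) (pf kk d φ ω) (pt σ d o ω), fun a ha a' ha' e => ?_,
    fun ω hω => ?_, fun v hv => ?_⟩
  · obtain ⟨e1, e2, e3⟩ := eq a ha a' ha' (h.fT a ha a' ha' e)
    simp only [pt, e1, e2, e3, (Prod.mk.inj (h.fk a ha a' ha' e)).1]
  · obtain ⟨a1, a2⟩ := (g1 ω hω).1 _ (vb_mono (H' ω hω).2.vb uL)
    exact ⟨vb_mono a1 x1, nb_mono a2 x1 (mul_le_mul_of_nonneg_right x1 θ0.le)⟩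
  have hω := vt.mem v hv
  obtain ⟨U, U1, U2⟩ := (g1 _ hω).2 (pt σ d o (π v)) _ x3
  refine ⟨U, U1.trans x4, fun v' hv' e => ?_⟩
  have hω' := vt.mem v' hv'
  simp only [Prod.mk.injEq] at e
  obtain ⟨e1, e2, e4⟩ := eq _ hω' _ hω e.2.1
  have nb : ∀ v ∈ Q.S, Nb (d.B σ (π v)) (fun a => 0 < μ a) 1 (pf kk d φ (π v)) L (L * θ)
      (pt σ d o (π v)) (ex (d.B σ (π v)) (d.k (π v)) *ᵥ ((b.J (π v))⁻¹ *ᵥ y v)) := fun v hv => by
    obtain ⟨ξ, s, s1, s2, s3⟩ := vt.crv v hv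
    exact nb_mono ((n4 kk σ μ γ o Ω Λ Θ Ξ b d P O φ R u w _ (hΦ ▸ ok.fr) ok.eta h (vt.mem v hv)
      (H' _ (vt.mem v hv)).1 (H' _ (vt.mem v hv)).2).2 _ ξ s s1 s2 s3) HL
      (mul_le_mul HL e0 (Real.exp_pos _).le (by linarith))
  obtain ⟨t, t3, t4⟩ := (n3 Ω Λ Θ Ξ b d P O O R R u w hR hu (cw.trans hw) h ba (Fn.rfl _) _ hω _
    hω').2.1 e.2.1.symm
  have nb' := nb v' hv'
  rw [e1, e4] at nb'
  beta_reduce
  rw [e1, e2, e4]
  refine U2 _ (n2 κ J kk _ _ _ _ L θ _ _ _ _ t le_rfl (al _ hω)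
    ((mul_le_mul_of_nonneg_right (x2.trans (ex' k5)) θ0.le).trans t2) (vb_mono (H' _ hω).2.vb uL)
    (nb v hv) nb' (fun a => ⟨fun _ => ((t4 a).2.2 e.1.symm).trans ((ex' (by linarith)).trans_eq
      (mul_one _).symm), fun k => ((t4 a).2.1 (le_antisymm (not_lt.1 k) (ok.bd _ (hμ a)).1)).trans
      (e3.trans (le_mul_of_one_le_left θ0.le L1))⟩) ?_)
  have mu := GA.sMul _ _ _ _ _ (H' _ hω).2.al.fr
  have k := vb_mono ((n4 kk σ μ γ o Ω Λ Θ Ξ b d P O φ R u w _ (hΦ ▸ ok.fr) ok.eta h hω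
    (H' _ hω).1 (H' _ hω).2).1 _ θ θ0.le (vt.nr v hv v' hv' e.1.symm
      (h.f0 _ hω _ hω' e.2.1.symm) e.2.2.symm)) (mul_le_mul_of_nonneg_right HL θ0.le)
  refine (congrArg _ ?_).mp k
  rw [mulVec_sub, mulVec_sub]
  congr 1
  simp only [mulVec_mulVec]
  congr 1
  rw [Fd.G, Fd.G, e1] at t3
  have j1 : b.J (π v') = b.J (π v) * ex (d.B σ (π v)) (-d.k (π v)) * ex (d.B σ (π v)) t *
      ex (d.B σ (π v)) (d.k (π v')) := by rw [← t3, mul_assoc, (mu.neg _).1, mul_one]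
  have iv : ∀ t, (ex (d.B σ (π v)) t)⁻¹ = ex (d.B σ (π v)) (-t) := fun t =>
    Matrix.inv_eq_left_inv (mu.neg t).1
  rw [j1, Matrix.mul_inv_rev, Matrix.mul_inv_rev, Matrix.mul_inv_rev, iv, iv, iv, neg_neg,
    ← mul_assoc (ex _ (d.k (π v'))), (mu.neg _).2, one_mul, ← mul_assoc (ex _ t), (mu.neg _).2,
    one_mul]

end Pool.Agent.MP_5168f5_an.QA.Ob
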