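import Pool.Agent.MP_5168f5_an.QA.Tq3

/-! The maximal estimate in all dimensions: two steps along an orbit in one frame. -/

namespace Pool.Agent.MP_5168f5_an.QA.Os

open H19 H17S H17F R4 AN AN.N6 Matrix IsNilpotent Finset Lt Tq
open GA (Mt IsFr ex cm sMul)
open N2 (El tri)
open Ob (Vb Al Bo Nb)
open Ch (Orb)

open Classical in
theorem two (m n : ℕ) : ∃ F, PG F ∧ ∀ (κ J : Type) [Fintype κ] [Fintype J] (kk : Fin m → ℝ)
    (B : κ → Mt (Fin m)) (c : κ → κ → κ → ℝ) (lv : κ → Prop) (ρ ρ' : κ → ℝ)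
    (f φ : J → Mt (Fin m)) (L W θ η : ℝ) (q p y : Fin m → ℝ) (g k : κ → ℝ),
    Fintype.card κ + Fintype.card J ≤ n → Al kk B c lv ρ f L W θ →
    (Fintype.card κ + 1) * W ^ 3 * θ ≤ η → η * (2 * (L * W)) ^ m ≤ 1 → Bo lv ρ L θ g →
    (∀ a, |k a| ≤ L) → Vb L q → Vb L p →
    (∀ ξ : J → ℝ, (∀ j, |ξ j| ≤ L) → Eb θ (exp (∑ j, ξ j • φ j) - exp (∑ j, ξ j • f j))) →
    Nb B lv 1 φ L θ q p → (∀ a, ρ' a ≤ ρ a) → Nb B lv ρ' φ L θ p y →
    ∃ s, Orb (fb kk η (L * W) (lt B lv ρ f)) q (F L) (F (L * W) * θ) s (ex B g *ᵥ y) ∧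
      (ρ' = 1 → Eb (F L) (ex B (-k) * ex B (-g) * ex (fb kk η (L * W) (lt B lv ρ f)) s)) := by
  obtain ⟨f₁, p1, h1⟩ := fwd m n
  obtain ⟨f₂, p2, h2⟩ := mul_box m n
  obtain ⟨f₃, p3, h3⟩ := exp_est m m
  have p4 : PG fun L => f₃ ((n + 1) * (L * L)) + L :=
    (p3.comp ((pg_nat n).mul (pg_id.mul pg_id))).add pg_id
  have p5 : PG fun L => (m + 1) * (f₃ ((n + 1) * (L * L)) + L) := (pg_nat m).mul p4
  have p6 : PG fun L => L + f₁ L + f₂ (L + f₁ L) :=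
    (pg_id.add p1).add (p2.comp (pg_id.add p1))
  refine ⟨fun L => f₂ (L + f₁ L + f₂ (L + f₁ L)) +
      4 * ((m + 1) * (f₃ ((n + 1) * (L * L)) + L)) ^ 5,
    (p2.comp p6).add ((pg_const (by norm_num)).mul (p5.pow 5)),
    fun κ J _ _ kk B c lv ρ ρ' f φ L W θ η q p y g k hn h e1 e2 bg bk bq bp pr
      ⟨t, ζ, bt, bζ, e3⟩ hρ ⟨r, ξ, br, bξ, e4⟩ => ?_⟩
  have ap := ap h e1 e2
  have l1 := h.one
  have w1 := h.one.trans h.le
  have t0 := h.pos
  have k0 : (0 : ℝ) ≤ Fintype.card κ := Nat.cast_nonneg _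
  have M := sMul _ _ _ _ _ h.fr
  have r0 : ∀ a, 0 < ρ a := fun a => one_pos.trans_le (h.rho a).1
  have hn' : Fintype.card {a // lv a} + Fintype.card J ≤ n :=
    (add_le_add (Fintype.card_subtype_le _) le_rfl).trans hn
  have n1 : (Fintype.card κ : ℝ) ≤ n + 1 := by exact_mod_cast (by omega : _ ≤ n + 1)
  have n2 : (Fintype.card J : ℝ) ≤ n + 1 := by exact_mod_cast (by omega : _ ≤ n + 1)
  have lw : L ≤ L * W := le_mul_of_one_le_right (by linarith) w1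
  have w3 : 1 ≤ W ^ 3 := one_le_pow₀ w1
  have u1 : ∀ z (ξ : J → ℝ), Bo lv ρ L θ z → (∀ j, |ξ j| ≤ L) →
      ∃ u, (∀ a, |u a| ≤ L + f₁ L) ∧ ex B z * exp (∑ j, ξ j • f j) =
        ex (fb kk η (L * W) (lt B lv ρ f)) u := fun z ξ x v => by
    obtain ⟨u, b1, b2⟩ := h1 {a // lv a} J kk η (L * W) L L _ f _ _ (fun a => z a / ρ a) ξ hn' ap
      le_rfl
      (h.fr.mem z) (comb_mem h.mf ξ) (fun a => by
        rw [abs_div, abs_of_pos (r0 _), div_le_iff₀ (r0 _)]; exact (x a).1 a.2) v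
      (eb_mono (live_part B lv r0 z (θ := θ * L) (by positivity) fun a e =>
        eb_smul (h.bB a) ((x a).2 e)) (by
          have : (Fintype.card κ : ℝ) * θ ≤ η := le_trans (by gcongr; nlinarith) e1
          nlinarith))
      (by rw [sub_self]; exact eb_zero (by have := ap.pos; positivity))
    exact ⟨u, fun a => (b1 a).trans (by linarith), b2⟩
  have u2 : ∀ X, L ≤ X → ∀ z : κ → ℝ, (∀ a, |z a| ≤ X) →
      Eb (f₃ ((n + 1) * (X * X)) + X) (ex B z) := fun X a z x =>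
    eb_mono (h3 _ _ _ rfl (h.fr.mem z) (one_le_mul_of_one_le_of_one_le (by simp) (by nlinarith))
      (eb_mono (eb_card fun b => eb_smul (eb_mono (h.bB b) a) (x b))
      (mul_le_mul_of_nonneg_right n1 (by nlinarith)))).1 (by linarith)
  have u3 : ∀ X, L ≤ X → ∀ ξ : J → ℝ, (∀ j, |ξ j| ≤ X) →
      Eb (f₃ ((n + 1) * (X * X)) + X) (exp (∑ j, ξ j • f j)) ∧
      Eb (f₃ ((n + 1) * (X * X)) + X) (exp (-∑ j, ξ j • f j)) := fun X a ξ x => by
    have b0 : 1 ≤ (n + 1 : ℝ) * (X * X) := one_le_mul_of_one_le_of_one_le (by simp) (by nlinarith)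
    have b1 : Eb ((n + 1) * (X * X)) (∑ j, ξ j • f j) :=
      eb_mono (eb_card fun j => eb_smul (eb_mono (h.bf j) a) (x j))
        (mul_le_mul_of_nonneg_right n2 (by nlinarith))
    exact ⟨eb_mono (h3 _ _ _ rfl (comb_mem h.mf ξ) b0 b1).1 (by linarith),
      eb_mono (h3 _ _ _ rfl (neg_mem (comb_mem h.mf ξ)) b0 (eb_neg b1)).1 (by linarith)⟩
  have θ1 : θ ≤ L := by
    have : η ≤ 1 := (le_mul_of_one_le_right ap.pos.le (one_le_pow₀ (by linarith [ap.wo]))).trans e2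
    have : θ ≤ η := le_trans (le_mul_of_one_le_left t0.le (by nlinarith)) e1
    linarith
  have bo : ∀ {z} {ρ'' : κ → ℝ} {X}, Bo lv ρ'' L θ z → 1 ≤ X → (∀ a, ρ'' a ≤ X) →
      ∀ b, |z b| ≤ L * X := fun a b d e => by
    by_cases x : lv e
    · exact ((a e).1 x).trans (mul_le_mul_of_nonneg_left (d e) (by linarith))
    · exact ((a e).2 x).trans (θ1.trans (le_mul_of_one_le_right (by linarith) b))
  have bt' : ∀ b, |t b| ≤ L := by simpa using bo bt le_rfl fun _ => le_rfl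
  have br' := bo br w1 fun a => (hρ a).trans (h.rho a).2
  obtain ⟨s₀, b0, g0⟩ := u1 g 0 bg fun _ => by simpa using zero_le_one.trans l1
  obtain ⟨s₁, b1, g1⟩ := u1 r ξ (fun b => ⟨fun x => ((br b).1 x).trans
    (mul_le_mul_of_nonneg_left (hρ b) (by linarith)), (br b).2⟩) bξ
  obtain ⟨s₂, b2, g2⟩ := u1 t ζ (fun b => ⟨fun x => (bt' b).trans
    (le_mul_of_one_le_right (by linarith) (h.rho b).1), (bt b).2⟩) bζ
  have f1 := p1.1 L l1
  have f2 := p2.1 (L + f₁ L) (by linarith)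
  obtain ⟨s₃, b3, g3⟩ := h2 _ kk η (L * W) L (L + f₁ L) _ s₁ s₂ (by simpa using hn') ap
    (by linarith) b1 b2
  obtain ⟨s, b4, g4⟩ := h2 _ kk η (L * W) L (L + f₁ L + f₂ (L + f₁ L)) _ s₀ s₃
    (by simpa using hn') ap (by linarith) (fun a => (b0 a).trans (by linarith))
    fun a => (b3 a).trans (by linarith)
  simp only [Pi.zero_apply, zero_smul, sum_const_zero, exp_zero, mul_one] at g0
  rw [← g0, ← g3, ← g1, ← g2] at g4
  have x3 := exp_mul_exp_neg_self ((tri kk).nil (comb_mem h.mf ξ))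
  have z3 := exp_mul_exp_neg_self ((tri kk).nil (comb_mem h.mf ζ))
  have x2 := (u3 _ lw ξ fun j => (bξ j).trans lw).2
  have z2 := (u3 _ lw ζ fun j => (bζ j).trans lw).2
  have t2 := u2 _ lw (-t) (by simpa using fun b => (bt' b).trans lw)
  have r2 := u2 _ lw (-r) (by simpa using br')
  have x1 := (u3 _ le_rfl ξ bξ).1
  have z1 := (u3 _ le_rfl ζ bζ).1
  have t1 := u2 _ le_rfl t bt'
  have k2 := u2 _ le_rfl (-k) (by simpa using bk)
  have r1 : ρ' = 1 → _ := fun e => u2 _ le_rfl r (by simpa using bo br le_rfl fun _ => by simp [e])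
  have d1 := pr ξ bξ
  have d2 := pr ζ bζ
  have f3 := p4.1 L l1
  have f5 := p5.1 L l1
  have f3' := p3.1 ((n + 1) * (L * W * (L * W)))
    (one_le_mul_of_one_le_of_one_le (by simp) (by nlinarith))
  have f5' := p5.1 _ (l1.trans lw)
  have f6 := p2.1 _ (p6.1 L l1)
  have f6' := p2.1 _ (p6.1 _ (l1.trans lw))
  beta_reduce at f3 f5 f5' f6 f6' ⊢
  have bq' := vb_mono bq (show L ≤ f₃ ((n + 1) * (L * W * (L * W))) + L * W by linarith)
  have bp' := vb_mono bp (show L ≤ f₃ ((n + 1) * (L * W * (L * W))) + L * W by linarith)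
  have y1 : 0 ≤ f₃ ((n + 1) * (L * W * (L * W))) + L * W := by linarith
  generalize f₃ ((n + 1) * (L * W * (L * W))) + L * W = Y' at *
  generalize f₃ ((n + 1) * (L * L)) + L = Y at *
  generalize exp (∑ j, ξ j • f j) = U at *
  generalize exp (-∑ j, ξ j • f j) = U' at *
  generalize exp (∑ j, ζ j • f j) = V at *
  generalize exp (-∑ j, ζ j • f j) = V' at *
  generalize exp (∑ j, ξ j • φ j) = U₁ at *
  generalize exp (∑ j, ζ j • φ j) = V₁ at *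
  have y0 : 0 ≤ Y := by linarith
  have y4 : 0 ≤ ((m + 1) * Y) ^ 5 := by positivity
  refine ⟨s, ⟨fun b => (b4 b).trans (by linarith),
    V' *ᵥ (ex B (-t) *ᵥ (p - ex B t *ᵥ (V₁ *ᵥ q)) + (V₁ - V) *ᵥ q + ex B (-t) *ᵥ (U' *ᵥ
      (ex B (-r) *ᵥ (y - ex B r *ᵥ (U₁ *ᵥ p)) + (U₁ - U) *ᵥ p))), ?_, ?_⟩, fun e => ?_⟩
  · refine vb_mono (vb_mv z2 (vb_add (vb_add (vb_mv t2 e3 y1 t0.le) (vb_mv d2 bq' t0.le y1))
      (vb_mv t2 (vb_mv x2 (vb_add (vb_mv r2 e4 y1 t0.le) (vb_mv d1 bp' t0.le y1)) y1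
        (by positivity)) y1 (by positivity))) y1 (by positivity)) ?_
    have a2 : ((m + 1) * Y') ^ 2 ≤ ((m + 1) * Y') ^ 5 := pow_le_pow_right₀ f5' (by norm_num)
    have a3 : ((m + 1) * Y') ^ 4 ≤ ((m + 1) * Y') ^ 5 := pow_le_pow_right₀ f5' (by norm_num)
    calc _ = (2 * ((m + 1) * Y') ^ 2 + 2 * ((m + 1) * Y') ^ 4) * θ := by ring
      _ ≤ _ := mul_le_mul_of_nonneg_right (by linarith) t0.le
  · have i1 : ∀ (z : κ → ℝ) v, ex B z *ᵥ (ex B (-z) *ᵥ v) = v := fun z v => by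
      rw [mulVec_mulVec, (M.neg z).2, one_mulVec]
    have i2 : ∀ v, V *ᵥ (V' *ᵥ v) = v := fun v => by rw [mulVec_mulVec, z3, one_mulVec]
    have i3 : ∀ v, U *ᵥ (U' *ᵥ v) = v := fun v => by rw [mulVec_mulVec, x3, one_mulVec]
    rw [← g4]
    simp only [← mulVec_mulVec, mulVec_add, i1, i2, i3, sub_mulVec, mulVec_sub]
    abel
  · rw [← g4, show ex B (-k) * ex B (-g) * (ex B g * (ex B r * U * (ex B t * V))) =
      ex B (-k) * (ex B (-g) * ex B g) * (ex B r * U * (ex B t * V)) by simp only [mul_assoc],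
      (M.neg g).1, mul_one]
    refine eb_mono (eb_mul k2 (eb_mul (eb_mul (r1 e) x1 y0 y0) (eb_mul t1 z1 y0 y0) (by positivity)
      (by positivity)) y0 (by positivity)) ?_
    have m0 : (0 : ℝ) ≤ m := Nat.cast_nonneg _
    have : (m + 1) * Y * ((m + 1) * ((m + 1) * Y * Y) * ((m + 1) * Y * Y)) * (m + 1) =
      ((m + 1) * Y) ^ 5 := by ring
    nlinarith [mul_nonneg (show 0 ≤ (m + 1) * Y * ((m + 1) * ((m + 1) * Y * Y) *
      ((m + 1) * Y * Y)) by positivity) m0]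

end Pool.Agent.MP_5168f5_an.QA.Os
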