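import Pool.Agent.MP_5168f5_an.QA.P5Defs
import Pool.Agent.MP_5168f5_an.QA.FlApi
import Pool.Agent.MP_5168f5_an.QA.AbCl

/-! The maximal estimate in all dimensions: restriction to an event and refinement of the label. -/

namespace Pool.Agent.MP_5168f5_an.QA.P5

open H19 H17S H17F R4 AN Filter Matrix

variable {N D m : ℕ} {π : Pa m} {μ : π.κ → ℝ} {γ : π.κ → ℕ} {Z : ℕ → Mb N D π}

theorem M4.res {Y : ℕ → Bs N D π} (h : M4 Y) {G : ∀ n, (Y n).X.Ω → Prop}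
    (g : Trm (fun n => (Y n).X) G) : M4 fun n => (Y n).res (G n) :=
  ⟨h.one, h.ts.res g, h.sur.res G, h.fm.res g, h.hb⟩

theorem M5.res (h : M5 μ γ Z) {G : ∀ n, (Z n).X.Ω → Prop} (g : Trm (sX Z) G) :
    M5 μ γ fun n => (Z n).res (G n) :=
  ⟨h.m4.res g, h.fl.res G⟩

theorem M5.ref (h : M5 μ γ Z) {β : ℕ → Type} {K : ∀ n, (Z n).X.Ω → β n}
    (k : FnE (PP (sX Z)) K fun n => (Z n).X.O (-1))
    (f : ∀ ε : ℝ, 0 < ε → ∀ᶠ n in UF, Det (Z n).X.P (K n) (Z n).S (Real.exp (ε * (Z n).X.u))) :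
    M5 μ γ fun n => (Z n).ref (K n) :=
  ⟨h.m4, h.fl.ref k f⟩

theorem sClo : SClo := fun _ _ _ _ _ _ _ h => ⟨fun _ g => h.res g, fun _ _ k f => h.ref k f⟩

theorem Al.res {p : ∀ n, (Z n).X.Ω → ℝ → ℝ → Prop} (h : Al Z p) (G : ∀ n, (Z n).X.Ω → Prop) :
    Al (fun n => (Z n).res (G n)) p :=
  fun c hc T => (h c hc T).mono fun _ a ω x => a ω (cE_sub x)

theorem Com.res (h : Com μ Z) (G : ∀ n, (Z n).X.Ω → Prop) : Com μ fun n => (Z n).res (G n) :=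
  Al.res h G

theorem Com.ref (h : Com μ Z) {β : ℕ → Type} (K : ∀ n, (Z n).X.Ω → β n) :
    Com μ fun n => (Z n).ref (K n) := h

theorem VH.res {x : ℚ} (h : VH μ Z x) (G : ∀ n, (Z n).X.Ω → Prop) :
    VH μ (fun n => (Z n).res (G n)) x :=
  Al.res h G

theorem VH.ref {x : ℚ} (h : VH μ Z x) {β : ℕ → Type} (K : ∀ n, (Z n).X.Ω → β n) :
    VH μ (fun n => (Z n).ref (K n)) x := h

/-- The finer label knows the coarser one. -/
theorem fn_ref {β : ℕ → Type} (K : ∀ n, (Z n).X.Ω → β n) :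
    FnE (PP (sX Z)) (sT Z) (sT fun n => (Z n).ref (K n)) ∧
      FnE (PP (sX Z)) K (sT fun n => (Z n).ref (K n)) :=
  ⟨.of_forall fun _ _ _ _ _ e => congrArg Prod.fst (Fl.atm_eq.1 e),
    .of_forall fun _ _ _ _ _ e => congrArg Prod.snd (Fl.atm_eq.1 e)⟩

variable {q : ∀ n, (Z n).X.Ω → Fin m → ℝ}

theorem Orb.res (h : Orb μ Z q) (G : ∀ n, (Z n).X.Ω → Prop) :
    Orb μ (fun n => (Z n).res (G n)) q :=
  ⟨h.fn.mono fun _ a => Fl.fn_sub a fun _ => cE_sub, Al.res h.nb G⟩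

theorem Orb.ref (h : Orb μ Z q) {β : ℕ → Type} (K : ∀ n, (Z n).X.Ω → β n) :
    Orb μ (fun n => (Z n).ref (K n)) q :=
  ⟨(h.fn.and (fn_ref K).1).mono fun _ a => a.1.trans a.2, h.nb⟩

variable {pos : π.κ → Prop} {t : π.κ}

theorem Geo.res (h : Geo μ γ Z q pos t) {G : ∀ n, (Z n).X.Ω → Prop} (g : Trm (sX Z) G) :
    Geo μ γ (fun n => (Z n).res (G n)) q pos t :=
  ⟨h.m5.res g, h.com.res G, h.orb.res G, h.out.live, h.out.tau, h.out.wt,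
    fun c hc T => (h.out.sp c hc T).mono fun _ a ω x => a ω (cE_sub x),
    fun v hv c hc T => (h.out.cur v hv c hc T).mono fun _ a ω x => a ω (cE_sub x)⟩

theorem Geo.ref (h : Geo μ γ Z q pos t) {β : ℕ → Type} {K : ∀ n, (Z n).X.Ω → β n}
    (k : FnE (PP (sX Z)) K fun n => (Z n).X.O (-1))
    (f : ∀ ε : ℝ, 0 < ε → ∀ᶠ n in UF, Det (Z n).X.P (K n) (Z n).S (Real.exp (ε * (Z n).X.u))) :
    Geo μ γ (fun n => (Z n).ref (K n)) q pos t :=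
  ⟨h.m5.ref k f, h.com.ref K, h.orb.ref K, h.out.live, h.out.tau, h.out.wt,
    fun c hc T => (h.out.sp c hc T).mono fun _ a ω x =>
      ⟨(a ω x).chB, (a ω x).chA, (a ω x).chi, (a ω x).stab, (a ω x).sub, (a ω x).cur⟩, h.out.cur⟩

end Pool.Agent.MP_5168f5_an.QA.P5
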