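import Pool.Agent.MP_5168f5_an.QA.Spec1
import Pool.Agent.MP_5168f5_an.QA.CpDefs

/-! The maximal estimate in all dimensions: the two halves of the local part. -/

namespace Pool.Agent.MP_5168f5_an.QA

open Cp (Cs Pd PreG)

/-- There is a filtered system. -/
def ExPG : Prop := ∃ (ι κ α : Type) (_ : Fintype ι) (_ : DecidableEq ι) (_ : Fintype κ)
  (_ : DecidableEq κ) (_ : Fintype α) (σ : Cs ι κ α) (Y : ℕ → Pd ι κ α), PreG σ Y

/-- A tangent system gives a filtered system. -/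
def SP5 : Prop := ∀ N E E' D, Kit (N + 1) E E' D → ∀ β₀ : ℝ, 0 < β₀ → ∃ C : ℝ, 1 ≤ C ∧
  ∀ (η θ β js Γ : ℝ) (kf : ℕ → ℕ) (sl : ℕ → ℝ) (X : ℕ → St (N + 1) D), Par (N + 1) D C η θ →
  β₀ ≤ β → T1 X E η θ β js Γ kf sl → ExPG

/-- There is no filtered system. -/
def NoPG : Prop := ∀ (ι κ α : Type) [Fintype ι] [DecidableEq ι] [Fintype κ] [DecidableEq κ]
  [Fintype α] (σ : Cs ι κ α) (Y : ℕ → Pd ι κ α), ¬PreG σ Y

theorem end_of (h5 : SP5) (h6 : NoPG) : END := fun N E E' D k β₀ hβ => by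
  obtain ⟨C, a, b⟩ := h5 N E E' D k β₀ hβ
  refine ⟨C, a, fun η θ β js Γ kf sl X p q r => ?_⟩
  obtain ⟨ι, κ, α, _, _, _, _, _, σ, Y, h⟩ := b η θ β js Γ kf sl X p q r
  exact h6 ι κ α σ Y h

end Pool.Agent.MP_5168f5_an.QA
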