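import Pool.Agent.MP_5168f5_an.QA.AbS
import Pool.Agent.MP_5168f5_an.QA.SplD
import Pool.Agent.MP_5168f5_an.QA.AsD
import Pool.Agent.MP_5168f5_an.QA.OrbSpec
import Pool.Agent.MP_5168f5_an.QA.Tq
import Pool.Agent.MP_5168f5_an.QA.TopSpec

/-! The maximal estimate in all dimensions: from the tangent system to the filtered system,
definitions and statements. -/

namespace Pool.Agent.MP_5168f5_an.QA.P5

open H19 H17S H17F R4 AN Filter Matrix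
open GA (Mt ex vec cm Wd br)
open N2 (El eW tri rk)
open LC (Au)
open Fr (act)

/-- The constants. -/
structure Pa (m : ℕ) : Type where
  E : ℕ
  η : ℝ
  θ : ℝ
  β : ℝ
  js : ℝ
  Γ : ℝ
  kf : ℕ → ℕ
  sl : ℕ → ℝ
  kk : Fin m → ℝ
  la : Fin m → ℝ
  o : Fin m
  τ : Fin m
  S : Finset (El la)
  C : ℝ
  L : ℝ

variable {N D m : ℕ}

namespace Pa

variable (π : Pa m)

/-- The entries of the pattern. -/
abbrev κ : Type := {a : Fin m × Fin m // π.kk a.2 < π.kk a.1 ∧ (a.1 = π.τ → a.2 = π.o)}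

/-- The elementary matrices of the pattern. -/
def pB (a : π.κ) : Mt (Fin m) := Matrix.single a.1.1 a.1.2 1

/-- The first weights. -/
noncomputable def pm (a : π.κ) : ℝ :=
  if a.1.1 = π.τ then lg else (lg + ∑ i, eW π.la i) * ((rk π.kk a.1.1 : ℝ) - rk π.kk a.1.2)

/-- The constants of the filtrations. -/
noncomputable def σ : Fl.Sg (Fin m) π.κ (El π.la) :=
  ⟨tri π.kk, π.pB, fun a b e => cm (π.pB a) (π.pB b) e.1.1 e.1.2, π.pm, eW π.la⟩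

end Pa

/-- Labels, frames and the subspace of the increments. -/
structure Bs (N D : ℕ) (π : Pa m) : Type 1 where
  X : St N D
  F : AB.Fd N D m X.Ω
  A : X.Ω → El π.la → El π.la → ℝ

/-- The same with a filtration. -/
structure Mb (N D : ℕ) (π : Pa m) : Type 1 extends Bs N D π where
  d : Fl.Fd (Fin m) π.κ (El π.la) X.Ω

/-- The matrix of the lateral derivative `2^{-M} ∂_j` in the frame `E`. -/
noncomputable def mxd (M : ℕ) (E : Fin m → VD N D) (j : Fin N) : Mt (Fin m) :=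
  Classical.epsilon fun φ => ∀ p, ((2 : ℝ) ^ M)⁻¹ • dk j.succ (E p) = act φ E p

variable {π : Pa m}

namespace Bs

variable (Y : Bs N D π)

/-- The increments of pairs. -/
noncomputable abbrev pr : PA.Pr (El π.la) Y.X.Ω (Ln N × ℤ) := AB.pr π.kk π.la π.o π.τ Y.X Y.F

/-- The base data of the filtrations. -/
noncomputable def bd : Fl.Bd (Fin m) π.κ (El π.la) Y.X.Ω (Fin m → VD N D) (Dc N D) :=
  ⟨Y.F.J, Y.F.E, Y.X.S 0, fun ω i a => AB.lt π.la (Y.A ω) i a.1.1 a.1.2, Y.pr.Y⟩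

/-- The lateral derivatives in the first frame. -/
noncomputable def φ (ω : Y.X.Ω) : Fin N → Mt (Fin m) := mxd Y.X.M (Y.F.E ω)

/-- Condition on an event. -/
noncomputable abbrev res (G : Y.X.Ω → Prop) : Bs N D π := ⟨Y.X.res G, Y.F, Y.A⟩

/-- A new law, a new unit, new levels and new labels over the same lines and frames. -/
abbrev sub (P : FP Y.X.Ω) (u : ℕ) (lv : ℚ → ℕ) (S : ℚ → Y.X.Ω → Dc N D) (s : ℕ → ℝ) (j : ℝ) :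
    Bs N D π := ⟨⟨Y.X.Ω, P, Y.X.g, Y.X.M, u, lv, S, s, j⟩, Y.F, Y.A⟩

end Bs

namespace Mb

variable (Z : Mb N D π)

/-- The adapted basis. -/
noncomputable abbrev B : Z.X.Ω → π.κ → Mt (Fin m) := Z.d.B π.σ

/-- The position without the bounded factor. -/
noncomputable abbrev G : Z.X.Ω → Mt (Fin m) := Z.d.G π.σ Z.bd

/-- The lateral derivatives in the frame of `G`. -/
noncomputable def ph (ω : Z.X.Ω) (j : Fin N) : Mt (Fin m) := (Z.G ω)⁻¹ * Z.φ ω j * Z.G ω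

/-- The true point in the frame of `G`. -/
noncomputable def pt (ω : Z.X.Ω) : Fin m → ℝ := ex (Z.B ω) (Z.d.k ω) *ᵥ Pi.single π.o 1

/-- The values at `y` in the frame of `G`. -/
noncomputable def ev (ω : Z.X.Ω) (y : V (N + 1)) : Fin m → ℝ :=
  Ob.ev (act (Z.G ω)⁻¹ (Z.F.E ω)) y

/-- `y` lies near the orbit of `q` under the live box of depth `R` and the translations. -/
def Nb (μ : π.κ → ℝ) (ω : Z.X.Ω) (R u w : ℝ) (q y : Fin m → ℝ) : Prop :=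
  Ob.Nb (Z.B ω) (fun a => 0 < μ a) (fun a => Real.exp (μ a * R)) (Z.ph ω) (Real.exp u)
    (Real.exp (-w)) q y

/-- Condition on an event. -/
noncomputable abbrev res (G : Z.X.Ω → Prop) : Mb N D π := ⟨Z.toBs.res G, Z.d⟩

/-- A finer common label. -/
abbrev ref {β : Type} (K : Z.X.Ω → β) : Mb N D π := ⟨Z.toBs, Z.d.ref K⟩

/-- The fine label. -/
abbrev S (ω : Z.X.Ω) : Dc N D × Set Z.X.Ω := (Z.X.S 0 ω, Z.d.T ω)

/-- The coarse label. -/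
noncomputable abbrev T : Z.X.Ω → Set Z.X.Ω × ℤ := Z.X.g.cx (Z.X.lv (-1)) Z.d.T

end Mb

/-- The base class. -/
structure M4 (Y : ℕ → Bs N D π) : Prop where
  one : 1 ≤ D ∧ 1 ≤ π.L
  ts : Ts (fun n => (Y n).X) π.E π.η π.θ π.β π.js π.Γ π.kf π.sl
  sur : Sur fun n => (Y n).X
  fm : AB.FM π.kk π.la π.o π.τ π.S π.C π.L (fun n => (Y n).X) (fun n => (Y n).F) fun n => (Y n).A
  hb : ∀ n, (Y n).F.b = (Y n).X.lv 0

section Seq

variable (μ : π.κ → ℝ) (γ : π.κ → ℕ) (Z : ℕ → Mb N D π)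

/-- The systems of labels. -/
abbrev sX : ℕ → St N D := fun n => (Z n).X

/-- The common labels. -/
abbrev sT : ∀ n, (Z n).X.Ω → Set (Z n).X.Ω := fun n => (Z n).d.T

/-- Surely, with bounds `exp u` and negligible terms `exp (-w)`. -/
def Al (p : ∀ n, (Z n).X.Ω → ℝ → ℝ → Prop) : Prop :=
  Au (uu (sX Z)) fun n u w => ∀ ω ∈ (Z n).X.P.S, p n ω u w

/-- The class of the filtrations. -/
structure M5 : Prop where
  m4 : M4 fun n => (Z n).toBs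
  fl : Fl.FL π.σ (fun n => (Z n).bd) μ γ (fun n => (Z n).pr) fun n => (Z n).d

/-- The lateral derivatives are bounded, triangular and commute with the live part. -/
def Com : Prop := Al Z fun n ω u w => ∀ j p q, |(Z n).ph ω j p q| ≤ Real.exp u ∧
  (¬π.kk q < π.kk p → |(Z n).ph ω j p q| ≤ Real.exp (-w)) ∧
  ∀ a, 0 < μ a → |cm ((Z n).B ω a) ((Z n).ph ω j) p q| ≤ Real.exp (-w)

/-- The tube of level `x` lies on the orbit of the true point. -/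
def VH (x : ℚ) : Prop := Al Z fun n ω u w => ∀ y ∈ seg (Z n).X.M ((Z n).X.lv x) ((Z n).X.g.l ω)
  ((Z n).X.g.zc ((Z n).X.lv x) ω) 5,
    (Z n).Nb μ ω (-(x : ℝ) * (Z n).X.u) u w ((Z n).pt ω) ((Z n).ev ω y)

/-- The common label knows the orbit of the true point. -/
structure Orb (q : ∀ n, (Z n).X.Ω → Fin m → ℝ) : Prop where
  fn : FnE (PP (sX Z)) q (sT Z)
  nb : Al Z fun n ω u w => |q n ω π.o - 1| ≤ Real.exp (-w) ∧ (∀ p, |q n ω p| ≤ Real.exp u) ∧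
    (Z n).Nb μ ω 0 u w (q n ω) ((Z n).pt ω)

/-- All geometric facts. -/
structure Geo (q : ∀ n, (Z n).X.Ω → Fin m → ℝ) (pos : π.κ → Prop) (t : π.κ) : Prop where
  m5 : M5 μ γ Z
  com : Com μ Z
  orb : Orb μ Z q
  out : Spl.Out (J := Unit) π.σ (fun n => (Z n).bd) μ π.o π.τ lg (fun n => ⟨0, 0, q n, 0, 0⟩)
    (fun n => (Z n).pr) (fun n => (Z n).d) pos t

end Seq

/-- The weights are minimal. -/
def Mn (N D : ℕ) (Hs : Finset ℝ) (μ : π.κ → ℝ) : Prop := (∀ a, μ a ∈ Hs) ∧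
  ∀ μ' γ (Z : ℕ → Mb N D π), (∀ a, μ' a ∈ Hs) → M5 μ' γ Z → ∑ a, μ a ≤ ∑ a, μ' a

/-! ### Entrance and closure -/

/-- A tangent system gives a member of the base class. -/
def SEnt : Prop := ∀ N E E' D, Kit N E E' D → ∃ C₀ : ℝ, 1 ≤ C₀ ∧ ∀ (η θ β js Γ : ℝ) (kf : ℕ → ℕ)
  (sl : ℕ → ℝ) (X : ℕ → St N D), Par N D C₀ η θ → T1 X E η θ β js Γ kf sl →
  ∃ (m : ℕ) (kk la : Fin m → ℝ) (o τ : Fin m) (S : Finset (El la)) (C L : ℝ)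
    (Y : ℕ → Bs N D ⟨E, η, θ, β, js, Γ, kf, sl, kk, la, o, τ, S, C, L⟩), M4 Y

/-- The constants are admissible. -/
def SOk : Prop := ∀ (m : ℕ) (π : Pa m), (∀ a, a ≠ π.o → π.kk π.o < π.kk a) →
  (∃ Hs W, π.σ.Ok Hs W) ∧ Spl.Pat π.σ π.o π.τ lg

/-- The base facts. -/
def SBF : Prop := ∀ (N D m : ℕ) (π : Pa m) (Y : ℕ → Bs N D π), M4 Y →
  Fl.BF π.σ (fun n => (Y n).bd) fun n => (Y n).pr

/-- The lateral derivatives in the own frame. -/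
def SFb : Prop := ∀ (N D m : ℕ) (π : Pa m) (Y : ℕ → Bs N D π), M4 Y →
  Fl.Fb π.σ (fun n => (Y n).bd) (fun n => (Y n).φ) (fun n => (Y n).pr) ∧
  ∀ T : ℝ, ∀ᶠ n in UF, ∀ ω ∈ (Y n).X.P.S,
    (∀ j p, ((2 : ℝ) ^ (Y n).X.M)⁻¹ • dk j.succ ((Y n).F.E ω p) =
      act ((Y n).φ ω j) ((Y n).F.E ω) p) ∧ ∀ j p q, ¬π.kk q < π.kk p →
      |(((Y n).F.J ω)⁻¹ * (Y n).φ ω j * (Y n).F.J ω) p q| ≤ Real.exp (-(T * (Y n).X.u))

/-- The class of the increments over a fixed member. -/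
def SBr : Prop := ∀ (N D m : ℕ) (π : Pa m) (Y : ℕ → Bs N D π), M4 Y →
  ∃ K : (∀ n, PA.Pr (El π.la) (Y n).X.Ω (Ln N × ℤ)) → Prop, Fl.Cz K ∧ K (fun n => (Y n).pr) ∧
    ∀ X, K X → ∃ (P : ∀ n, FP (Y n).X.Ω) (u : ℕ → ℕ) (lv : ℕ → ℚ → ℕ)
      (S : ∀ n, ℚ → (Y n).X.Ω → Dc N D) (s : ℕ → ℕ → ℝ) (j : ℕ → ℝ),
      M4 (fun n => (Y n).sub (P n) (u n) (lv n) (S n) (s n) (j n)) ∧
      (∀ n, S n 0 = (Y n).X.S 0) ∧
      ∀ᶠ n in UF, X n = ((Y n).sub (P n) (u n) (lv n) (S n) (s n) (j n)).pr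

/-- Restriction to an event and refinement of the label. -/
def SClo : Prop := ∀ (N D m : ℕ) (π : Pa m) (μ : π.κ → ℝ) (γ : π.κ → ℕ) (Z : ℕ → Mb N D π),
  M5 μ γ Z → (∀ G, Trm (sX Z) G → M5 μ γ fun n => (Z n).res (G n)) ∧
  ∀ (β : ℕ → Type) (K : ∀ n, (Z n).X.Ω → β n), FnE (PP (sX Z)) K (fun n => (Z n).X.O (-1)) →
    (∀ ε : ℝ, 0 < ε → ∀ᶠ n in UF, Det (Z n).X.P (K n) (Z n).S (Real.exp (ε * (Z n).X.u))) →
    M5 μ γ fun n => (Z n).ref (K n)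

/-- Minimal members carry no deep cap. -/
def SAcw : Prop := ∀ (N D m : ℕ) (π : Pa m) (Hs : Finset ℝ) (W : ℝ) (μ : π.κ → ℝ) (γ : π.κ → ℕ)
  (Z : ℕ → Mb N D π), π.σ.Ok Hs W → Mn N D Hs μ → M5 μ γ Z → ∃ L₀, 1 ≤ L₀ ∧
    Fl.ACW π.σ (fun n => (Z n).bd) μ L₀ (fun n => (Z n).pr) fun n => (Z n).d

/-! ### The geometric steps -/

/-- Commutation can be made sure. -/
def SCom : Prop := ∀ (N D m : ℕ) (π : Pa m) (Hs : Finset ℝ) (W : ℝ) (μ : π.κ → ℝ) (γ : π.κ → ℕ)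
  (Z : ℕ → Mb N D π), π.σ.Ok Hs W → Mn N D Hs μ → M5 μ γ Z →
  ∃ Z' : ℕ → Mb N D π, M5 μ γ Z' ∧ Com μ Z'

/-- Tubes lie on orbits. -/
def SVH : Prop := ∀ (N D m : ℕ) (π : Pa m) (Hs : Finset ℝ) (W : ℝ) (μ : π.κ → ℝ) (γ : π.κ → ℕ)
  (Z : ℕ → Mb N D π) (x : ℚ), π.σ.Ok Hs W → (∀ a, μ a ∈ Hs) → M5 μ γ Z → -1 ≤ x → x ≤ 0 →
  VH μ Z x

/-- The orbit goes into the common label. -/
def SOrb : Prop := ∀ (N D m : ℕ) (π : Pa m) (Hs : Finset ℝ) (W : ℝ) (μ : π.κ → ℝ) (γ : π.κ → ℕ)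
  (Z : ℕ → Mb N D π), ZL N D → Par N D (2 * (dV N D + 1)) π.η π.θ → π.σ.Ok Hs W →
  (∀ a, μ a ∈ Hs) → M5 μ γ Z → Com μ Z → VH μ Z 0 →
  ∃ (Z' : ℕ → Mb N D π) (q : _), M5 μ γ Z' ∧ Com μ Z' ∧ Orb μ Z' q

/-- The basis can be adapted. -/
def SSpl : Prop := ∀ (N D m : ℕ) (π : Pa m) (Hs : Finset ℝ) (W : ℝ) (μ : π.κ → ℝ) (γ : π.κ → ℕ)
  (Z : ℕ → Mb N D π) (q : _), π.σ.Ok Hs W → (∀ a, μ a ∈ Hs) → M5 μ γ Z → Com μ Z → Orb μ Z q →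
  ∃ (γ' : π.κ → ℕ) (Z' : ℕ → Mb N D π) (q' : _) (pos : π.κ → Prop) (t : π.κ),
    Geo μ γ' Z' q' pos t

/-- The joined norm and the bound at the top. -/
def SJt : Prop := ∀ N E E' D, Kit N E E' D → ∀ β₀ : ℝ, 0 < β₀ → ∃ C₀ : ℝ, 1 ≤ C₀ ∧
  ∀ (η θ β js Γ : ℝ) (kf : ℕ → ℕ) (sl : ℕ → ℝ) (X : ℕ → St N D), Par N D C₀ η θ → β₀ ≤ β →
  Ts X E η θ β js Γ kf sl → ∃ (G : ∀ n, (X n).Ω → Prop) (ν' : ∀ n, (X n).Ω → VD N D → ℝ),
    Trm X G ∧ FnE (PP fun n => (X n).res (G n)) ν' (fun n => (X n).O (-1)) ∧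
    FnE (PP fun n => (X n).res (G n)) ν' (fun n => (X n).S 0) ∧
    Tq.TopAt (fun n => (X n).res (G n)) 0 (-1) ν' (lg + β / 2)

open Classical in
/-- The orbit data of the chart. -/
def SOrbs : Prop := ∀ (N D m : ℕ) (π : Pa m) (Hs : Finset ℝ) (W : ℝ) (μ : π.κ → ℝ) (γ : π.κ → ℕ)
  (Z : ℕ → Mb N D π) (q : _) (pos : π.κ → Prop) (t : π.κ), π.σ.Ok Hs W → (∀ a, μ a ∈ Hs) →
  Geo μ γ Z q pos t → VH μ Z 0 → VH μ Z (-1) →
  ∃ (d : ∀ n, (Z n).X.Ω → Tq.Fd N D m (El π.kk)) (K : ℝ), 0 ≤ K ∧ FnE (PP (sX Z)) d (sT Z) ∧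
    Tq.Orbs (sX Z) 0 (-1) d K (∑ a ∈ Finset.univ.filter pos, μ a)

/-- The last member. -/
def SFin : Prop := ∀ (N D m : ℕ) (π : Pa m) (Hs : Finset ℝ) (W L₀ : ℝ) (μ : π.κ → ℝ)
  (γ : π.κ → ℕ) (Z : ℕ → Mb N D π) (q : _) (pos : π.κ → Prop) (t : π.κ), π.σ.Ok Hs W →
  (∀ a, μ a ∈ Hs) → 0 < π.β → 1 ≤ L₀ → Geo μ γ Z q pos t →
  Fl.ACW π.σ (fun n => (Z n).bd) μ L₀ (fun n => (Z n).pr) (fun n => (Z n).d) →
  (Le (uu (sX Z)) (fun n => mi (Z n).X.P (Z n).X.g.l (Z n).S (Z n).T) fun n =>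
    ((⟨Hs, W, μ, γ, pos, t, L₀, π.L, π.β / 2, π.kf⟩ : As.Kc π.κ).m - π.β / 2) * (Z n).X.u) →
  As.Fin5 π.σ (fun n => (Z n).bd) ⟨Hs, W, μ, γ, pos, t, L₀, π.L, π.β / 2, π.kf⟩
    (fun n => (Z n).pr) (fun n => (Z n).d) fun n ω => Real.exp (lg * (Z n).F.b) * (Z n).X.g.z ω

end Pool.Agent.MP_5168f5_an.QA.P5
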