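import Pool.Agent.MP_5168f5_an.QA.P5Defs
import Pool.Agent.MP_5168f5_an.QA.FlApi

/-! The maximal estimate in all dimensions: from the tangent system to the filtered system. -/

namespace Pool.Agent.MP_5168f5_an.QA.P5

open H19 H17S H17F R4 AN Filter Matrix

variable {N D m : ℕ} {π : Pa m} {μ : π.κ → ℝ} {γ : π.κ → ℕ} {Z : ℕ → Mb N D π}

/-- Minimal weights exist. -/
theorem ex_mn {Hs : Finset ℝ} (h : M5 μ γ Z) (hμ : ∀ a, μ a ∈ Hs) :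
    ∃ (μ' : π.κ → ℝ) (γ' : π.κ → ℕ) (Z' : ℕ → Mb N D π), Mn N D Hs μ' ∧ M5 μ' γ' Z' := by
  classical
  obtain ⟨μ', a, b⟩ := Finset.exists_min_image ((Fintype.piFinset fun _ : π.κ => Hs).filter
    fun ν => ∃ (γ : π.κ → ℕ) (Z : ℕ → Mb N D π), M5 ν γ Z) (fun ν => ∑ a, ν a)
    ⟨μ, Finset.mem_filter.2 ⟨Fintype.mem_piFinset.2 hμ, γ, Z, h⟩⟩
  obtain ⟨c, γ', Z', e⟩ := Finset.mem_filter.1 a
  exact ⟨μ', γ', Z', ⟨Fintype.mem_piFinset.1 c, fun ν γ Z u v =>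
    b ν (Finset.mem_filter.2 ⟨Fintype.mem_piFinset.2 u, γ, Z, v⟩)⟩, e⟩

/-- The geometric facts pass to an event and to a finer label. -/
theorem Geo.rr {q : ∀ n, (Z n).X.Ω → Fin m → ℝ} {pos : π.κ → Prop} {t : π.κ} {β : ℕ → Type}
    (h : Geo μ γ Z q pos t) (G : ∀ n, (Z n).X.Ω → Prop) (K : ∀ n, (Z n).X.Ω → β n)
    (m5 : M5 μ γ fun n => ((Z n).res (G n)).ref (K n)) :
    Geo μ γ (fun n => ((Z n).res (G n)).ref (K n)) q pos t :=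
  ⟨m5, fun c hc T => (h.com c hc T).mono fun _ a ω hω => a ω (cE_sub hω),
    ⟨h.orb.fn.mono fun _ a u hu v hv e =>
      a u (cE_sub hu) v (cE_sub hv) (congrArg Prod.fst (Fl.atm_eq.1 e)),
      fun c hc T => (h.orb.nb c hc T).mono fun _ a ω hω => a ω (cE_sub hω)⟩,
    h.out.live, h.out.tau, h.out.wt,
    fun c hc T => (h.out.sp c hc T).mono fun _ a ω hω =>
      let k := a ω (cE_sub hω); ⟨k.chB, k.chA, k.chi, k.stab, k.sub, k.cur⟩,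
    fun v hv c hc T => (h.out.cur v hv c hc T).mono fun _ a ω hω => a ω (cE_sub hω)⟩

/-- The pair of labels is cheap over the datum of level zero. -/
theorem M5.cheap (h : M5 μ γ Z) :
    Sm (uu (sX Z)) fun n => ch (Z n).X.P (fun ω => ((Z n).S ω, (Z n).T ω)) ((Z n).X.S 0) :=
  fun ε hε => by
  filter_upwards [h.fl ε hε 0, h.m4.ts.loc (-1) 0 1 one_pos] with n a b
  have k := ch_det a.few
  rw [Real.log_exp] at k
  refine (ch_mono (F' := (Z n).d.T) fun u hu v hv e => ?_).trans (k.trans_eq (zero_add _).symm)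
  have e1 : (Z n).d.T u = (Z n).d.T v := congrArg Prod.fst e
  have e2 : (Z n).X.S 0 u = (Z n).X.S 0 v := congrArg Prod.snd e
  have e3 := congrArg Dc.h e2
  rw [(b.val' u hu).1, (b.val' v hv).1] at e3
  exact Prod.ext (Prod.ext e2 e1) (Prod.ext e1 (fl1_eq_of_le (b.mono (by norm_num)) e3))

open Classical in
theorem sum_pos {κ : Type} [Fintype κ] [DecidableEq κ] (k : As.Kc κ) (h : k.pos k.ta) :
    ∑ a ∈ Finset.univ.filter k.pos, k.μ a = k.m + k.μ k.ta := by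
  rw [← Finset.sum_erase_add _ _ (a := k.ta) (by simpa using h), As.Kc.m]
  congr 2
  ext a
  simp [and_comm]

theorem sp5_of (en : SEnt) (ok : SOk) (bf : SBF) (cl : SClo) (ac : SAcw) (co : SCom) (vh : SVH)
    (ob : SOrb) (sp : SSpl) (jt : SJt) (os : SOrbs) (fi : SFin) (st : Fl.SStart) (as : As.SAs)
    (sc : Cp.SScl) (hS : Ch.SChart) : SP5 := fun N E E' D k β₀ hβ => by
  obtain ⟨C₁, c1, e1⟩ := en _ E E' D k
  obtain ⟨C₂, c2, e2⟩ := jt _ E E' D k β₀ hβ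
  have c3 : (0 : ℝ) ≤ dV (N + 1) D := Nat.cast_nonneg _
  refine ⟨C₁ + C₂ + 2 * (dV (N + 1) D + 1), by linarith, fun η θ β js Γ kf sl X pa hb t1 => ?_⟩
  obtain ⟨m, kk, la, o, τ, S, C, L, Y, y⟩ := e1 η θ β js Γ kf sl X (pa.mono (by linarith)) t1
  obtain ⟨Hs, W, a⟩ := (ok m _ y.fm.ko).1
  obtain ⟨γ₀, d₀, f₀⟩ := st _ _ _ _ _ _ _ _ _ _ Hs W _ a y.ts.big (bf _ _ _ _ Y y)
  obtain ⟨μ, γ₁, Z₁, mn, z1⟩ := ex_mn (Z := fun n => ⟨Y n, d₀ n⟩) ⟨y, f₀⟩ a.hm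
  obtain ⟨Z₂, z2, h2⟩ := co _ _ _ _ Hs W μ γ₁ Z₁ a mn z1
  obtain ⟨Z₃, q₃, z3, h3, o3⟩ := ob _ _ _ _ Hs W μ γ₁ Z₂ k.zl (pa.mono (by linarith)) a mn.1 z2 h2
    (vh _ _ _ _ Hs W μ γ₁ Z₂ 0 a mn.1 z2 (by norm_num) le_rfl)
  obtain ⟨γ, Z, q, pos, t, g⟩ := sp _ _ _ _ Hs W μ γ₁ Z₃ q₃ a mn.1 z3 h3 o3
  obtain ⟨G, ν, tr, n1, n2, tp⟩ := e2 η θ β js Γ kf sl (sX Z) (pa.mono (by linarith)) hb g.m5.m4.ts
  have z5 := (cl _ _ _ _ μ γ _ ((cl _ _ _ _ μ γ Z g.m5).1 G tr)).2 _ ν n1 fun ε hε =>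
    n2.mono fun n b u hu => ⟨{ν n u}, by simpa using Real.one_le_exp (by positivity),
      fun v hv e => Finset.mem_singleton.2 (b v hv u hu (congrArg Prod.fst e))⟩
  have g5 := g.rr G ν z5
  let Z₅ := fun n => ((Z n).res (G n)).ref (ν n)
  obtain ⟨d, K, hK, fd, od⟩ := os _ _ _ _ Hs W μ γ Z₅ q pos t a mn.1 g5
    (vh _ _ _ _ Hs W μ γ Z₅ 0 a mn.1 z5 (by norm_num) le_rfl)
    (vh _ _ _ _ Hs W μ γ Z₅ (-1) a mn.1 z5 le_rfl (by norm_num))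
  obtain ⟨L₀, l0, aw⟩ := ac _ _ _ _ Hs W μ γ Z₅ a mn z5
  have top := Tq.top (X := sX Z₅) hS z5.m4.ts.big
    ((z5.m4.ts.loc (-1) 0 1 one_pos).mono fun _ b => b.mono (by norm_num))
    ((z5.m4.ts.loc (-1) 0 1 one_pos).mono fun _ b => b.val') tp o.pos hK od
    (T := fun n => (Z₅ n).T)
    (fd.mono fun n b u hu v hv e => Prod.ext
      (congrArg Prod.snd (Fl.atm_eq.1 (congrArg Prod.fst e))) (b u hu v hv (congrArg Prod.fst e)))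
    ((z5.fl 1 one_pos 0).mono fun n b u hu v hv e =>
      Prod.ext (b.fT u hu v hv e) (congrArg (·.2) e))
    (.of_forall fun n u _ v _ e => congrArg Prod.snd e) z5.cheap
  have w := sum_pos ⟨Hs, W, μ, γ, pos, t, L₀, L, β / 2, kf⟩ g.out.tau
  obtain ⟨s, dp, w5⟩ := as _ _ _ _ _ _ _ _ _ _ _ _ _ _ _ (fi _ _ _ _ Hs W L₀ μ γ Z₅ q pos t a mn.1
    (hβ.trans_le hb) l0 g5 aw fun ε hε => (top ε hε).mono fun n b => b.trans_eq (by
      simp only at w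
      rw [w, g.out.wt, add_comm _ lg, add_sub_add_left_eq_sub]))
  exact ⟨_, _, _, _, _, _, _, _, s, _, sc _ _ _ s dp _ _ w5⟩

end Pool.Agent.MP_5168f5_an.QA.P5
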