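import Pool.Agent.MP_5168f5_an.QA.P5Defs
import Pool.Agent.MP_5168f5_an.QA.Jn

/-! The maximal estimate in all dimensions: the joined norm of a member. -/

namespace Pool.Agent.MP_5168f5_an.QA.P5

theorem sJt : SJt := fun N E E' D k β₀ hβ => by
  obtain ⟨C, c, h⟩ := joinTop k hβ
  refine ⟨C, c, fun η θ β js Γ kf sl X p b t => ?_⟩
  obtain ⟨G, T, a1, a2, a3, a4, -⟩ := h p b t.toTq (show (-1 : ℚ) ≤ 0 by norm_num)
  exact ⟨G, T, a1, a2, a3, by simpa using a4⟩

end Pool.Agent.MP_5168f5_an.QA.P5
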