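import Pool.Agent.MP_5168f5_an.QA.P5OrbD
import Pool.Agent.MP_5168f5_an.QA.OrbNp
import Pool.Agent.MP_5168f5_an.QA.TbO1
import Pool.Agent.MP_5168f5_an.QA.FlApi
import Pool.Agent.MP_5168f5_an.AN.S20Nz1

/-! The maximal estimate in all dimensions: the orbit of the true point goes into the label. -/

namespace Pool.Agent.MP_5168f5_an.QA.P5

open H19 H17S H17F R4 AN Filter Matrix
open G39 (dl dl_pos)
open LC (ex_le)
open Fl (au_and au_ex ev_ex)

namespace OrbA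

variable {N D m : ℕ} {π : Pa m} {μ : π.κ → ℝ} {γ : π.κ → ℕ}

/-- The point `q` is a good reference point. -/
def Gq (μ : π.κ → ℝ) (Z : Mb N D π) (q : Z.X.Ω → Fin m → ℝ) (ω : Z.X.Ω) (u w : ℝ) : Prop :=
  |q ω π.o - 1| ≤ Real.exp (-w) ∧ (∀ p, |q ω p| ≤ Real.exp u) ∧ Z.Nb μ ω 0 u w (q ω) (Z.pt ω)

theorem Gq.wk {Z : Mb N D π} {q : Z.X.Ω → Fin m → ℝ} {ω : Z.X.Ω} {u w u' w' : ℝ}
    (h : Gq μ Z q ω u w) (e : u ≤ u') (e' : w' ≤ w) : Gq μ Z q ω u' w' :=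
  ⟨h.1.trans (ex_le (neg_le_neg e')), fun p => (h.2.1 p).trans (ex_le e),
    Ob.Nb.wk h.2.2 (fun _ => (Real.exp_pos _).le) (ex_le e) (ex_le (neg_le_neg e'))⟩

theorem rho {x : ℝ} (e : x = 0) : (fun a => Real.exp (μ a * x)) = 1 := funext fun _ => by simp [e]

variable {Z : ℕ → Mb N D π} {Hs : Finset ℝ} {W : ℝ}

/-- One accuracy. -/
theorem step (hN : Ob.SNet) (hJ : Ob.SJoin) (ha : SOa) (hc : SOc) (hZ : ZL N D)
    (pa : Par N D (2 * (dV N D + 1)) π.η π.θ) (ok : π.σ.Ok Hs W) (hμ : ∀ a, μ a ∈ Hs)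
    (h : M5 μ γ Z) (co : Com μ Z) (vh : VH μ Z 0) (R : ℕ) :
    ∃ q : ∀ n, (Z n).X.Ω → Fin m → ℝ, FnE (PP (sX Z)) q (fun n => (Z n).X.O (-1)) ∧
      (Sm (uu (sX Z)) fun n => ch (Z n).X.P (q n) ((Z n).X.S 0)) ∧ ∀ c : ℝ, 0 < c → ∀ᶠ n in UF,
        ∀ ω ∈ (Z n).X.P.S, Gq μ (Z n) (q n) ω (c * (Z n).X.u) (R * (Z n).X.u) := by
  have hB : Big (uu (sX Z)) := h.m4.ts.big
  obtain ⟨f1, f2, a1⟩ := ha N D m π Hs W μ γ Z ok hμ h co
  have a3 := hc N D m π Hs W μ γ Z (R + 1) ok hμ h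
  have a4 := h.fl
  unfold VH at vh
  unfold Al at a1 a3 vh
  unfold Fl.FL at a4
  obtain ⟨a, w, uw, H⟩ := au_ex hB (au_and (au_and a1 vh) (au_and a3 a4))
  obtain ⟨F, hF, cv⟩ := Ob.conv m (Fintype.card π.κ)
  obtain ⟨C, c1, np⟩ := Ob.np hN hJ m (Fintype.card π.κ + Fintype.card (Fin N))
  have s0 : Sub (uu (sX Z)) fun n => Real.exp |a n| := ⟨fun _ => Real.one_le_exp (abs_nonneg _),
    fun c e => ((uw.sm c e).and uw.one).mono fun n k => ex_le (by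
      rw [abs_of_nonneg (zero_le_one.trans k.2)]; exact k.1)⟩
  have s1 := (hF.2 _ _ hB s0).mul s0
  have s2 := GA.sub_box hB s1 c1
  have s3 := (hF.2 _ _ hB s2).mul s2
  let y : ∀ n, NW (Z n).X.Ω N ((Z n).X.u * (Z n).X.u) → V (N + 1) := fun n =>
    vp (Z n).X.g (Z n).X.M ((Z n).X.lv 0) _
  obtain ⟨q, hq⟩ := ev_ex (p := fun n (q : (Z n).X.Ω → Fin m → ℝ) =>
      Fn (Z n).X.P q ((Z n).X.O (-1)) ∧ (∀ ω ∈ (Z n).X.P.S, ∀ u, (C * (F (Real.exp |a n|) *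
        Real.exp |a n|)) ^ C ≤ Real.exp u → Gq μ (Z n) q ω u (R * (Z n).X.u)) ∧
      Det (NQ (Z n).X.P N _) (fun v => q v.1) (fun v => ((Z n).d.T v.1, (Z n).X.S 0 v.1,
        vc ((Z n).X.S 0 v.1).ν (2 * (R + 1) * (Z n).X.u) (y n v)))
        ((C * (F (Real.exp |a n|) * Real.exp |a n|)) ^ C)) (fun _ => 0) (by
    filter_upwards [H, f1, f2, s0.2 1 one_pos, s2.2 1 one_pos, s3.2 1 one_pos,
      uw.bg (R + 1 : ℕ)] with n ⟨⟨b1, b2⟩, b3, _⟩ g1 g2 l0 l2 l3 w1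
    have k0 := s0.1 n
    have k1 := s1.1 n
    have k2 := s2.1 n
    have f0 := hF.1 _ k0
    have f2 := hF.1 _ k2
    have t0 := dl_pos (uu (sX Z)) (R + 1 : ℕ) n
    have t1 : Real.exp (-w n) ≤ dl (uu (sX Z)) (R + 1 : ℕ) n := ex_le (neg_le_neg w1)
    have t2 : Real.exp (1 * (Z n).X.u) * dl (uu (sX Z)) (R + 1 : ℕ) n =
        Real.exp (-(R * (Z n).X.u)) := by
      rw [dl, ← Real.exp_add]; congr 1; push_cast; ring
    have t3 : Real.exp (-(R * (Z n).X.u : ℝ)) ≤ 1 :=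
      Real.exp_le_one_iff.2 (neg_nonpos.2 (by positivity))
    have t4 : dl (uu (sX Z)) (R + 1 : ℕ) n ≤ 1 :=
      Real.exp_le_one_iff.2 (neg_nonpos.2 (by positivity))
    have e0 : Real.exp (a n) ≤ Real.exp |a n| := ex_le (le_abs_self _)
    simp only [one_mul] at l0
    beta_reduce at k0 k1 k2 f0 f2
    generalize Real.exp |a n| = L at *
    generalize dl (uu (sX Z)) (R + 1 : ℕ) n = θ at *
    have p0 := Real.exp_pos (-w n)
    have e1 : L ≤ F L * L := le_mul_of_one_le_left (by linarith) f0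
    have e2 : Real.exp (-w n) ≤ F L * L * θ := t1.trans (le_mul_of_one_le_left t0.le k1)
    have mem := fun v (hv : v ∈ (NQ (Z n).X.P N ((Z n).X.u * (Z n).X.u)).S) =>
      ((S20.mem_prod v).1 hv).1
    obtain ⟨q, q1, q2, q3⟩ := np π.κ (Fin N) _ _ _ _ π.kk (fun a => 0 < μ a) (Z n).X.P
      (NQ (Z n).X.P N _) Prod.fst ((Z n).X.O (-1)) (fun v => ((Z n).d.T v.1, (Z n).X.S 0 v.1,
        vc ((Z n).X.S 0 v.1).ν (2 * (R + 1) * (Z n).X.u) (y n v)))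
      (fun ω => ((Z n).B ω, (Z n).d.c π.σ ω, (Z n).pf ω)) (Z n).pt
      (fun v => (Z n).ev v.1 (y n v)) (F L * L) θ le_rfl k1 t0.le
      (((mul_le_mul_of_nonneg_right l2 t0.le).trans_eq t2).trans t3)
      ((g1.trans ((Fn.fst _ _).trans g2)).pair ((Fn.snd _ _).trans g2))
      (fun ω hω => ⟨(b1 ω hω).1.wk (e0.trans e1) t1, (b1 ω hω).2.1.wk (e0.trans e1)⟩)
      (fun v hv => ⟨mem v hv, by
        obtain ⟨u1, u2, -, -, u3⟩ := b1 _ (mem v hv)
        have u4 := b2 _ (mem v hv) _ (seg_mono (by norm_num) (vp_mem _ _ _ _ v))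
        rw [Mb.Nb, rho (by simp)] at u4
        exact (cv _ _ _ _ _ _ _ _ L _ _ _ le_rfl u1.fr k0 p0.le (by linarith)
          (fun a => Lt.eb_mono (u1.bB a) e0) (u2.wk e0) (fun ξ e => u3 ξ fun j => (e j).trans l0)
          (u4.wk (fun _ => zero_le_one) e0 le_rfl)).wk (fun _ => zero_le_one) e1
          (mul_le_mul (le_mul_of_one_le_right (by linarith) k0) t1 p0.le (by linarith))⟩)
      fun v hv v' hv' e => by
        have u1 := congrArg Prod.fst e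
        have u2 := congrArg (fun z => z.2.1) e
        have u3 := congrArg (fun z => z.2.2) e
        dsimp only at u1 u2 u3
        rw [u2] at u3
        obtain ⟨t, u4, u5⟩ := b3 _ (mem v hv) _ (mem v' hv') (Prod.ext u2 u1) _ _ u3.symm
        exact ⟨g1 _ (mem v' hv') _ (mem v hv) u1, t, u4.wk (fun _ => zero_le_one) (e0.trans e1) e2,
          u5.wk (mul_le_mul_of_nonneg_right (e0.trans e1) t0.le)⟩
    refine ⟨q, q1, fun ω hω u hu => ?_, q3⟩
    obtain ⟨u1, -, u2, u3, u4⟩ := b1 ω hω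
    obtain ⟨v1, v2⟩ := q2 ω hω
    have e3 := (Ch.gr_pw c1).le _ k1
    rw [one_mul] at l2
    generalize (C * (F L * L)) ^ C = L₂ at *
    have e4 : F L₂ * (L₂ * θ) ≤ Real.exp (-(R * (Z n).X.u)) := by
      rw [← mul_assoc]; exact (mul_le_mul_of_nonneg_right l3 t0.le).trans_eq t2
    refine ⟨?_, fun p => (v1 p).trans hu, ?_⟩
    · obtain ⟨t, ξ, -, -, z⟩ := v2
      have := z π.o
      rw [Pi.sub_apply, u2, u3, abs_sub_comm] at this
      exact this.trans ((le_mul_of_one_le_left (by positivity) f2).trans e4)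
    · rw [Mb.Nb, rho rfl]
      exact (cv _ _ _ _ _ _ _ _ L₂ _ _ _ le_rfl u1.fr k2 (by positivity)
        (mul_le_of_le_one_right (by linarith) t4) (fun a => Lt.eb_mono (u1.bB a) (by linarith)) v1
        (fun ξ e => neg_sub (α := GA.Mt (Fin m)) _ _ ▸ Lt.eb_neg (Lt.eb_mono
          (u4 ξ fun j => (e j).trans l2) (t1.trans (le_mul_of_one_le_left t0.le k2)))) v2).wk
        (fun _ => zero_le_one) hu e4)
  refine ⟨q, hq.mono fun _ k => k.1, hZ _ _ _ _ _ (fun n => (Z n).X.u) (fun n => (Z n).X.u * (Z n).X.u) _ q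
    (2 * (R + 1)) (h.m4.ts.t1.tb.o1' pa le_rfl (Set.mem_univ 0)) (fun K => (hB.ev K).mono
      fun n e => Nat.mul_le_mul_right _ (by exact_mod_cast e)) fun c e => ?_, fun c e => ?_⟩
  · filter_upwards [hq, H, uw.sm _ (half_pos e), s2.log _ (half_pos e)] with n k ⟨_, _, b⟩ u v
    have m1 := fun v (hv : v ∈ (NQ (Z n).X.P N ((Z n).X.u * (Z n).X.u)).S) =>
      ((S20.mem_prod v).1 hv).1
    have z1 := ch_det k.2.2
    have z2 := ch_det (P := NQ (Z n).X.P N _) (F := fun v => (Z n).d.T v.1) (G := fun v =>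
      ((Z n).X.S 0 v.1, vc ((Z n).X.S 0 v.1).ν (2 * (R + 1) * (Z n).X.u) (y n v)))
      fun v hv => (b.few _ (m1 v hv)).imp fun _ k =>
        ⟨k.1, fun v' hv' z => k.2 _ (m1 v' hv') (congrArg Prod.fst z)⟩
    rw [Real.log_exp] at z2
    have z3 := (ch_tri _ _ _).trans (add_le_add z2 z1)
    exact z3.trans (by linarith)
  · filter_upwards [hq, s2.2 c e] with n k u ω hω using k.2.1 ω hω _ u

end OrbA

open OrbA in
theorem ofOrb : OfOrb := by
  intro hN hJ ha hc cl N D m π Hs W μ γ Z hZ pa ok hμ h co vh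
  have hB : Big (uu (sX Z)) := h.m4.ts.big
  choose q q1 q2 q3 using step hN hJ ha hc hZ pa ok hμ h co vh
  obtain ⟨k, hk, e⟩ := ks.spill (fun k n => Fn (Z n).X.P (q k n) ((Z n).X.O (-1)) ∧
    ch (Z n).X.P (q k n) ((Z n).X.S 0) ≤ 0 + 1 / (k + 1) * (Z n).X.u ∧ ∀ ω ∈ (Z n).X.P.S,
      Gq μ (Z n) (q k n) ω (1 / (k + 1) * (Z n).X.u) (k * (Z n).X.u)) fun k =>
    (q1 k).and ((q2 k _ (by positivity)).and (q3 k _ (by positivity)))
  replace e := e.mono fun n a => a _ le_rfl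
  choose G g1 g2 using fun n => Ob.ent_few (Z n).X.P (q (k n) n) ((Z n).X.S 0)
  obtain ⟨G', i1, -, i2⟩ := ex_trm (X := sX Z) (G := G) hB fun c hc =>
    (G39.dl_lt hB one_half_pos hc).mono fun n a => a.le.trans (g1 n)
  have sm := fun {c : ℝ} (hc : 0 < c) => (K31.small hc hk).mono fun n a =>
    mul_le_mul_of_nonneg_right a (Nat.cast_nonneg (α := ℝ) (Z n).X.u)
  refine ⟨fun n => ((Z n).res (G' n)).ref (q (k n) n), fun n => q (k n) n,
    (cl N D m π μ γ _ ((cl N D m π μ γ Z h).1 G' i2)).2 _ _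
      (e.mono fun _ a => Fl.fn_sub a.1 fun _ => cE_sub) fun c hc => ?_,
    fun c hc T => (co c hc T).mono fun _ a ω hω => a ω (cE_sub hω),
    Eventually.of_forall fun _ => (Fn.snd _ _).trans Fl.fn_atm, fun c hc T => ?_⟩
  · filter_upwards [e, i2.mem, sm (show 0 < c / 4 by positivity), hB.ev (2 / c)] with n a b u v ω hω
    obtain ⟨U, u1, u2⟩ := g2 n ω (b ω hω).1
    refine ⟨U, u1.trans (ex_le ?_), fun z hz y => u2 z (b z hz).1 (congrArg Prod.fst y)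
      (i1 _ _ (b z hz).2)⟩
    rw [div_le_iff₀ hc] at v
    linarith [a.2.1]
  · filter_upwards [e, sm hc, hk.ev T] with n a u v ω hω
    exact (a.2.2 ω (cE_sub hω)).wk u (mul_le_mul_of_nonneg_right v (Nat.cast_nonneg _))

end Pool.Agent.MP_5168f5_an.QA.P5
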