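import Pool.Agent.MP_5168f5_an.QA.P5Defs
import Pool.Agent.MP_5168f5_an.QA.OrbSq

/-! The maximal estimate in all dimensions: the orbit of the true point, statements. -/

namespace Pool.Agent.MP_5168f5_an.QA.P5

open H19 H17S H17F R4 AN Filter Matrix IsNilpotent
open GA (Mt ex)
open G39 (dl)
open N6 (Eb)

variable {N D m : ℕ} {π : Pa m}

/-- The triangular parts of the lateral derivatives in the reference frame. -/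
noncomputable def Mb.pf (Z : Mb N D π) : Z.X.Ω → Fin N → Mt (Fin m) := Ob.pf π.kk Z.d Z.φ

/-- The algebra of the unit box. -/
def SOa : Prop := ∀ (N D m : ℕ) (π : Pa m) (Hs : Finset ℝ) (W : ℝ) (μ : π.κ → ℝ) (γ : π.κ → ℕ)
  (Z : ℕ → Mb N D π), π.σ.Ok Hs W → (∀ a, μ a ∈ Hs) → M5 μ γ Z → Com μ Z →
  FnE (PP (sX Z)) (fun n ω => ((Z n).B ω, (Z n).d.c π.σ ω, (Z n).pf ω)) (sT Z) ∧
  FnE (PP (sX Z)) (fun n ω => ((Z n).d.T ω, (Z n).pt ω)) (fun n => (Z n).X.O (-1)) ∧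
  Al Z fun n ω u w => Ob.Al π.kk ((Z n).B ω) ((Z n).d.c π.σ ω) (fun a => 0 < μ a) 1 ((Z n).pf ω)
    (Real.exp u) (Real.exp u) (Real.exp (-w)) ∧ Ob.Vb (Real.exp u) ((Z n).pt ω) ∧
    (Z n).pt ω π.o = 1 ∧ (∀ t (ξ : Fin N → ℝ) q,
      (ex ((Z n).B ω) t *ᵥ (exp (∑ j, ξ j • (Z n).pf ω j) *ᵥ q)) π.o = q π.o) ∧ ∀ ξ : Fin N → ℝ, (∀ j, |ξ j| ≤ Real.exp (Z n).X.u) → Eb (Real.exp (-w))
        (exp (∑ j, ξ j • (Z n).ph ω j) - exp (∑ j, ξ j • (Z n).pf ω j))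

/-- Points of one cell, seen from two samples with the same labels. -/
def SOc : Prop := ∀ (N D m : ℕ) (π : Pa m) (Hs : Finset ℝ) (W : ℝ) (μ : π.κ → ℝ) (γ : π.κ → ℕ)
  (Z : ℕ → Mb N D π) (R : ℕ), π.σ.Ok Hs W → (∀ a, μ a ∈ Hs) → M5 μ γ Z →
  Al Z fun n ω u w => ∀ v ∈ (Z n).X.P.S, (Z n).S v = (Z n).S ω → ∀ y y',
    vc ((Z n).X.S 0 ω).ν (2 * R * (Z n).X.u) y = vc ((Z n).X.S 0 ω).ν (2 * R * (Z n).X.u) y' →
    ∃ t, Ob.Bo (fun a => 0 < μ a) 1 (Real.exp u) (Real.exp (-w)) t ∧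
      Ob.Vb (Real.exp u * dl (uu (sX Z)) R n)
        ((Z n).ev ω y - ex ((Z n).B ω) t *ᵥ (Z n).ev v y')

def OfOa : Prop := Ob.STay → Ob.SPrt → SOa
def OfOc : Prop := SBF → Fl.ROut → SOc
def OfOrb : Prop := Ob.SNet → Ob.SJoin → SOa → SOc → SClo → SOrb

end Pool.Agent.MP_5168f5_an.QA.P5
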