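import Pool.Agent.MP_5168f5_an.QA.Tq3
import Pool.Agent.MP_5168f5_an.QA.OrbPh
import Pool.Agent.MP_5168f5_an.QA.OrbVh

/-! The maximal estimate in all dimensions: the data of the orbit chart, finite part. -/

namespace Pool.Agent.MP_5168f5_an.QA.Tq

open H19 H17S H17F R4 AN AN.N6 Matrix IsNilpotent Finset Lt
open GA (Mt IsFr ex cm sMul)
open N2 (El tri)
open Ob (Vb Al Bo Nb pj pj_mem)
open Ob.OrbPhA
open Ch (Orb)
open Fr (act)

/-- Conjugation by an element of the box. -/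
theorem conj (m k : ℕ) : ∃ e, PG e ∧ ∀ (κ : Type) [Fintype κ] (kk : Fin m → ℝ)
    (B : κ → Mt (Fin m)) (c : κ → κ → κ → ℝ) (lv : κ → Prop) (g : κ → ℝ) (ψ : Mt (Fin m))
    (W θ : ℝ), Fintype.card κ ≤ k → IsFr (tri kk) B c → 1 ≤ W → 0 ≤ θ → θ ≤ 1 →
    (∀ a, Eb W (B a)) → Bo lv 1 W θ g → Eb W ψ → (∀ a, lv a → Eb θ (cm (B a) ψ)) →
    Eb (e W * θ) (ex B g * ψ * ex B (-g) - ψ) := by
  obtain ⟨a, ha, h⟩ := ex_eb m k
  have h2 : PG fun _ => 2 * (m + 1 : ℝ) := (pg_const one_le_two).mul (pg_nat m)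
  have hz : PG fun L => (k + 1) * (L * L) := (pg_nat k).mul (pg_id.mul pg_id)
  refine ⟨_, ((pg_nat m).mul (((pg_nat m).mul ((h2.mul hz).pow m)).mul
    ((pg_nat k).mul ((h2.mul pg_id).mul pg_id)))).mul ha,
    fun κ _ kk B c lv g ψ W θ hk hB hW h0 h1 eB hg eψ cψ => ?_⟩
  have hg' : ∀ a, |g a| ≤ W := fun a => by
    by_cases u : lv a
    exacts [by simpa using (hg a).1 u, ((hg a).2 u).trans (h1.trans hW)]
  have a0 := ha.nn hW
  have W0 := zero_le_one.trans hW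
  have m1 := (h2.mul pg_id).1 W hW
  have c1 : Eb ((k + 1) * (2 * (m + 1) * W * W * θ)) (cm (GA.vec B g) ψ) := by
    rw [GA.vec, cm_sum]
    refine eb_vec hk (by positivity) fun i => ?_
    by_cases u : lv i
    · exact eb_mono (eb_smul (cψ i u) (hg' i)) (by nlinarith [mul_nonneg W0 h0])
    · exact eb_mono (eb_smul (eb_cm (eB i) eψ W0 W0) ((hg i).2 u)) (le_of_eq (by ring))
  have c3 := eb_mul (cm_exp (hB.mem g) (eb_vec hk (by positivity) fun i => eb_smul (eB i) (hg' i))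
    c1 (hz.1 W hW) (by positivity)) (h κ kk B c g W hk hB hW eB hg').2 (by positivity) a0
  rw [cm, sub_mul, mul_assoc ψ, show exp (GA.vec B g) * ex B (-g) = 1 from
    ((sMul _ _ _ B c hB).neg g).2, mul_one] at c3
  exact eb_mono c3 (le_of_eq (by ring))

/-- A change of the matrices in an orbit. -/
theorem nb_chg (m k D : ℕ) : ∃ e, PG e ∧ ∀ (κ J : Type) [Fintype κ] [Fintype J] (kk : Fin m → ℝ)
    (B : κ → Mt (Fin m)) (c : κ → κ → κ → ℝ) (lv : κ → Prop) (ψ f : J → Mt (Fin m)) (L W θ : ℝ),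
    Fintype.card κ + Fintype.card J ≤ k → IsFr (tri kk) B c → 1 ≤ L → L ≤ W → 0 ≤ θ →
    e W * θ ≤ 1 → (∀ a, Eb W (B a)) → (∀ j, f j ∈ (tri kk).F 0 ∧ Eb W (f j) ∧ Eb θ (ψ j - f j)) →
    (∀ ξ : J → ℝ, (∑ j, ξ j • ψ j) ^ (D + 1) = 0) → ∀ (r : κ → ℝ) (p y : Fin m → ℝ),
    (∀ a, L * r a ≤ W) → Vb W p → Nb B lv r ψ L θ p y → Nb B lv r f L (e W * θ) p y := by
  obtain ⟨a, ha, h⟩ := ex_eb m k
  obtain ⟨C, hC, H⟩ := Ob.sPrt m D
  have hz : PG fun L => (k + 1) * (L * L) := (pg_nat k).mul (pg_id.mul pg_id)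
  have h2 := ((pg_nat m).mul ha).mul (((pg_nat m).mul (((pg_box hC).comp hz).mul hz)).mul pg_id)
  refine ⟨_, hz.add h2, fun κ J _ _ kk B c lv ψ f L W θ hk hB hL lw h0 h1 eB hf nil r p y hr hp
    ⟨t, ξ, bt, bξ, e⟩ => ?_⟩
  have hW := hL.trans lw
  have W0 := zero_le_one.trans hW
  have z1 := mul_le_mul_of_nonneg_right (hz.1 W hW) h0
  have z2 := mul_nonneg (h2.nn hW) h0
  have kJ : Fintype.card J ≤ k := by omega
  have k0 : (0 : ℝ) ≤ k + 1 := by positivity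
  have s1 := eb_vec kJ (by positivity) fun j => eb_smul (hf j).2.2 ((bξ j).trans lw)
  simp only [smul_sub, sum_sub_distrib] at s1
  have s2 := H kk _ _ _ ((k + 1) * (W * W) * θ) (nil ξ) (comb_mem (fun j => (hf j).1) ξ)
    (hz.1 W hW) (by positivity) (by linarith)
    (eb_vec kJ (by positivity) fun j => eb_smul (hf j).2.1 ((bξ j).trans lw)) (eb_mono s1 (by
      nlinarith [mul_le_mul_of_nonneg_left hW (mul_nonneg k0 (mul_nonneg W0 h0))]))
  have s3 := (h κ kk B c t W (by omega) hB hW eB fun i => by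
    by_cases u : lv i
    exacts [((bt i).1 u).trans (hr i), ((bt i).2 u).trans (by linarith)]).1
  refine ⟨t, ξ, fun i => ⟨(bt i).1, fun u => ((bt i).2 u).trans (by linarith)⟩, bξ, ?_⟩
  have := vb_add e (vb_mv s3 (vb_mv s2 hp (by positivity) W0) (ha.nn hW) (by positivity))
  rw [sub_mulVec, mulVec_sub, sub_add_sub_cancel] at this
  exact vb_mono this (by linarith)

variable {N D m : ℕ} {κ J : Type} [Fintype κ] [Fintype J]

/-- Commuting nilpotent matrices, almost triangular, that almost commute with the live part. -/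
structure Lat (kk : Fin m → ℝ) (B : κ → Mt (Fin m)) (lv : κ → Prop) (ψ : J → Mt (Fin m)) (D : ℕ)
    (L θ : ℝ) : Prop where
  bd : ∀ j, Eb L (ψ j) ∧ Eb θ (ψ j - pj kk (ψ j))
  cf : ∀ a j, lv a → Eb θ (cm (B a) (ψ j))
  cc : ∀ i j, ψ i * ψ j = ψ j * ψ i
  nil : ∀ ξ : J → ℝ, (∑ j, ξ j • ψ j) ^ (D + 1) = 0

/-- The points of two sets lie near the orbits of `p`, and `p` lies near the orbit of `q`. -/
structure Pts (B : κ → Mt (Fin m)) (lv : κ → Prop) (ρ : κ → ℝ) (f : J → Mt (Fin m)) (L θ : ℝ)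
    (q p : Fin m → ℝ) (g : κ → ℝ) (pos : κ → Prop) (E : Fin m → VD N D) (ν : VD N D → ℝ)
    (A₀ A₁ : Set (V (N + 1))) : Prop where
  bg : Bo lv ρ L θ g
  bq : Vb L q
  bp : Vb L p
  st : ∀ a, lv a → ¬pos a → Vb θ (B a *ᵥ q)
  orb : Nb B lv 1 f L θ q p
  far : ∀ y ∈ A₁, Nb B lv ρ f L θ p (ex B (-g) *ᵥ Ob.ev E y)
  own : ∀ y ∈ A₀, Nb B lv 1 f L θ p (ex B (-g) *ᵥ Ob.ev E y)
  nrm : ∀ F, ν F ≤ 1 → ∃ φ, Vb L φ ∧ F = ∑ r, φ r • act (ex B (-g)) E r

theorem nb_mono {B : κ → Mt (Fin m)} {lv : κ → Prop} {r : κ → ℝ} {f : J → Mt (Fin m)}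
    {L L' θ θ' : ℝ} {p y : Fin m → ℝ} (h : Nb B lv r f L θ p y) (hr : ∀ a, 0 ≤ r a) (a : L ≤ L')
    (b : θ ≤ θ') : Nb B lv r f L' θ' p y :=
  h.imp fun _ => Exists.imp fun _ u => ⟨fun i => ⟨fun x => ((u.1 i).1 x).trans
    (mul_le_mul_of_nonneg_right a (hr i)), fun x => ((u.1 i).2 x).trans b⟩,
    fun j => (u.2.1 j).trans a, vb_mono u.2.2 b⟩

/-- The triangular parts of the conjugated matrices. -/
theorem toF (N D m k : ℕ) : ∃ e, PG e ∧ ∀ (κ J : Type) [Fintype κ] [Fintype J] (kk : Fin m → ℝ)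
    (B : κ → Mt (Fin m)) (c : κ → κ → κ → ℝ) (lv pos : κ → Prop) (ρ g : κ → ℝ)
    (ψ : J → Mt (Fin m)) (L W θ : ℝ) (q p : Fin m → ℝ) (E : Fin m → VD N D) (ν : VD N D → ℝ)
    (A₀ A₁ : Set (V (N + 1))), Fintype.card κ + Fintype.card J ≤ k →
    Al kk B c lv ρ (0 : J → Mt (Fin m)) L W θ → Lat kk B lv ψ D L θ →
    Pts B lv ρ ψ L θ q p g pos E ν A₀ A₁ → e W * θ ≤ 1 →
    Al kk B c lv ρ (fun j => pj kk (ex B g * ψ j * ex B (-g))) (2 * L) (2 * W) (e W * θ) ∧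
      Pts B lv ρ (fun j => pj kk (ex B g * ψ j * ex B (-g))) (2 * L) (e W * θ) q p g pos E ν A₀
        A₁ := by
  obtain ⟨a, ha, h1⟩ := conj m k
  obtain ⟨b, hb, h2⟩ := nb_chg m k D
  have hw : PG fun W => 2 * (W * W) := (pg_const one_le_two).mul (pg_id.mul pg_id)
  have p1 := (pg_const le_rfl).add (ha.comp hw)
  have p2 := ((hb.comp hw).add (((pg_const (by norm_num : (1 : ℝ) ≤ 8)).mul (pg_nat m)).mul pg_id))
  refine ⟨_, p2.mul p1, fun κ J _ _ kk B c lv pos ρ g ψ L W θ q p E ν A₀ A₁ hk al la pt sm => ?_⟩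
  have l1 := al.one
  have lw := al.le
  have w1 := l1.trans lw
  have t0 := al.pos
  have m0 : (0 : ℝ) ≤ m := Nat.cast_nonneg _
  have a1 := ha.1 _ (hw.1 W w1)
  have b1 := hb.1 _ (hw.1 W w1)
  have r0 : ∀ i, 0 ≤ ρ i := fun i => zero_le_one.trans (al.rho i).1
  have w2 : 2 * W ≤ 2 * (W * W) := by nlinarith
  have w3 : ∀ i, L * ρ i ≤ 2 * (W * W) := fun i =>
    (mul_le_mul lw (al.rho i).2 (r0 i) (by linarith)).trans (by nlinarith)
  rw [mul_assoc] at sm ⊢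
  obtain ⟨θ', e⟩ : ∃ θ', θ' = (1 + a (2 * (W * W))) * θ := ⟨_, rfl⟩
  rw [← e] at sm ⊢
  have t1 : θ ≤ θ' := by nlinarith
  have t2 : 0 ≤ (m + 1) * W * θ' := mul_nonneg (by positivity) (by linarith)
  have t3 : θ' ≤ b (2 * (W * W)) * θ' := le_mul_of_one_le_left (by linarith) b1
  have t4 : (m + 1) * L * θ' ≤ (m + 1) * W * θ' :=
    mul_le_mul_of_nonneg_right (by gcongr) (by linarith)
  have d1 : ∀ j, Eb θ' (ψ j - pj kk (ex B g * ψ j * ex B (-g))) := fun j => by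
    have := eb_sub (la.bd j).2 (eb_pj (kk := kk) (h1 κ kk B c lv g (ψ j) _ θ (by omega) al.fr
      (hw.1 W w1) t0.le (by linarith) (fun i => eb_mono (al.bB i) (by linarith))
      (fun i => ⟨fun x => ((pt.bg i).1 x).trans (by simpa using w3 i), (pt.bg i).2⟩)
      (eb_mono (la.bd j).1 (by linarith)) fun i => la.cf i j))
    refine eb_mono ((congrArg _ ?_).mp this) (by linarith)
    ext r s
    simp only [pj, Matrix.sub_apply, of_apply]
    split_ifs <;> ring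
  obtain ⟨f, hf⟩ : ∃ f, f = fun j => pj kk (ex B g * ψ j * ex B (-g)) := ⟨_, rfl⟩
  have mf : ∀ j, f j ∈ (tri kk).F 0 := fun j => hf ▸ pj_mem kk _
  replace d1 : ∀ j, Eb θ' (ψ j - f j) := hf ▸ d1
  rw [← hf]
  have d2 : ∀ j, Eb (2 * L) (f j) := fun j => by
    have := eb_sub (la.bd j).1 (d1 j)
    rw [sub_sub_cancel] at this
    exact eb_mono this (by linarith)
  have d3 := fun r p y (u : ∀ i, L * r i ≤ 2 * (W * W)) (v : Vb L p) (x : ∀ i, 0 ≤ r i)
    (z : Nb B lv r ψ L θ p y) => nb_mono (h2 κ J kk B c lv ψ f L _ θ' hk al.fr l1 (by linarith)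
      (by linarith) (by linarith) (fun i => eb_mono (al.bB i) (by linarith))
      (fun j => ⟨mf j, eb_mono (d2 j) (by linarith), d1 j⟩) la.nil r p y u
      (vb_mono v (by linarith)) (nb_mono z x le_rfl t1)) x (by linarith : L ≤ 2 * L)
      (by linarith : _ ≤ (b (2 * (W * W)) + 8 * (m + 1) * W) * θ')
  have w4 : ∀ i, L * (1 : κ → ℝ) i ≤ 2 * (W * W) := fun i => by simp only [Pi.one_apply]; linarith
  refine ⟨⟨al.fr, by linarith, by linarith, by linarith, fun i => ⟨(al.rho i).1, by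
    linarith [(al.rho i).2]⟩, fun i => eb_mono (al.bB i) (by linarith),
    fun i j k => (al.bc i j k).trans (by linarith), fun i j k x y z => (al.ll i j k x y z).trans
      (mul_le_mul_of_nonneg_right (by linarith) (r0 k)),
    fun i j k x y z => (al.ld i j k x y z).trans (by linarith), mf, d2, fun i j x => ?_,
    fun i j => ?_⟩, fun i => ⟨fun x => ((pt.bg i).1 x).trans
      (mul_le_mul_of_nonneg_right (by linarith) (r0 i)), fun x => ((pt.bg i).2 x).trans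
      (by linarith)⟩, vb_mono pt.bq (by linarith), vb_mono pt.bp (by linarith),
    fun i x y => vb_mono (pt.st i x y) (by linarith),
    d3 _ _ _ w4 pt.bq (fun _ => zero_le_one) pt.orb,
    fun y x => d3 _ _ _ w3 pt.bp r0 (pt.far y x),
    fun y x => d3 _ _ _ w4 pt.bp (fun _ => zero_le_one) (pt.own y x),
    fun F x => (pt.nrm F x).imp fun _ u => ⟨vb_mono u.1 (by linarith), u.2⟩⟩
  · have := eb_sub (la.cf i j x) (eb_cm (al.bB i) (d1 j) (by linarith) (by linarith))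
    exact eb_mono ((congrArg _ (by unfold cm; noncomm_ring)).mp this) (by linarith)
  · have := eb_add (eb_cm (d1 i) (la.bd j).1 (by linarith) (by linarith))
      (eb_cm (d2 i) (d1 j) (by linarith) (by linarith))
    have z : ψ i * ψ j - ψ j * ψ i = 0 := by rw [la.cc, sub_self]
    refine eb_mono ((congrArg _ ?_).mp (eb_neg this)) (by linarith)
    rw [← add_zero (-_), ← z]; unfold cm; noncomm_ring

open Classical in
/-- The data of the chart. -/
theorem ofF (N D m k : ℕ) : ∃ F, PG F ∧ ∀ (κ J : Type) [Fintype κ] [Fintype J] (kk : Fin m → ℝ)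
    (B : κ → Mt (Fin m)) (c : κ → κ → κ → ℝ) (lv pos : κ → Prop) (ρ g : κ → ℝ)
    (f : J → Mt (Fin m)) (L W θ η η' W' : ℝ) (q p : Fin m → ℝ) (E : Fin m → VD N D)
    (ν : VD N D → ℝ) (A₀ A₁ : Set (V (N + 1))), Fintype.card κ + Fintype.card J ≤ k →
    Al kk B c lv ρ f L W θ → Pts B lv ρ f L θ q p g pos E ν A₀ A₁ →
    (Fintype.card κ + 1) * W ^ 3 * θ ≤ η → η * (2 * (L * W)) ^ m ≤ 1 → F L * F W * θ ≤ η' →
    L * W ≤ W' → (fd kk B lv ρ f η (L * W) q E).Alg (F L) W' ∧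
      (fd kk B lv ρ f η (L * W) q E).Ob ν A₀ A₁ (F L) η' (F L * ∏ a with pos a, ρ a) := by
  obtain ⟨G, hG, H⟩ := own m k
  have p1 : PG fun L => (2 ^ (k + m * m) + (k + m * m + m + 1 : ℝ)) * (L * L) :=
    (((pg_const one_le_two).pow _).add (pg_const (by
      linarith [show (0 : ℝ) ≤ k + m * m + m by positivity]))).mul (pg_id.mul pg_id)
  have p2 := ((pg_nat m).mul pg_id).mul hG
  have p3 := hG.comp (pg_id.mul pg_id)
  have p4 := (p1.add p2).add p3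
  refine ⟨_, p4, fun κ J _ _ kk B c lv pos ρ g f L W θ η η' W' q p E ν A₀ A₁ hk al pt e1 e2 e3
    e4 => ?_⟩
  have l1 := al.one
  have lw := al.le
  have w1 := l1.trans lw
  have t0 := al.pos
  have a1 := p1.nn l1
  have a2 := p2.nn l1
  have a3 := p3.nn l1
  have a4 := p1.nn w1
  have a5 := p2.nn w1
  have a6 := mul_le_mul (p4.1 L l1) (show G (W * W) ≤ _ + _ + G (W * W) from
    le_add_of_nonneg_left (add_nonneg a4 a5)) (p3.nn w1) (p4.nn l1)
  have a7 : G L ≤ (m + 1) * L * G L := le_mul_of_one_le_left (hG.nn l1)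
    (((pg_nat m).mul pg_id).1 L l1)
  have a8 := le_mul_of_one_le_right (p4.nn l1) (p4.1 W w1)
  have k1 : (Fintype.card κ + Fintype.card J : ℝ) ≤ k := by exact_mod_cast hk
  have M := sMul _ _ _ _ _ al.fr
  beta_reduce at a1 a2 a3 a4 a5 a6 a8 e3 ⊢
  obtain ⟨u1, u2⟩ := alg_wt al e1 e2 E pt.bq pt.st (X := (2 ^ (k + m * m) + (k + m * m + m + 1)) *
    (L * L) + (m + 1) * L * G L + G (L * L)) (le_trans (mul_le_mul_of_nonneg_right (add_le_add
      (pow_le_pow_right₀ one_le_two (Nat.add_le_add_right hk _))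
      (by linarith : _ ≤ (k + m * m + m + 1 : ℝ))) (by positivity)) (by linarith))
  have om : ∀ {X r : ℝ} {s y}, Orb (fb kk η (L * W) (lt B lv ρ f)) q (G L) (r * θ) s
      (ex B g *ᵥ (ex B (-g) *ᵥ y)) → G L ≤ X → r * θ ≤ η' →
      Orb (fb kk η (L * W) (lt B lv ρ f)) q X η' s y := fun x y z => by
    rw [mulVec_mulVec, (M.neg g).2, one_mulVec] at x
    exact ⟨fun i => (x.1 i).trans y, x.2.imp fun _ u => ⟨vb_mono u.1 z, u.2⟩⟩
  refine ⟨⟨u1.fr, u1.bc, fun i r s => (u1.bb i r s).trans e4, u1.bp⟩, fun y x => ?_, fun y x => ?_,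
    u2⟩
  · obtain ⟨s, v, -⟩ := H κ J kk B c lv ρ ρ f L W (W * W) θ η q p _ g hk al e1 e2 pt.bg
      (by nlinarith) (fun i => ⟨le_rfl, mul_le_mul lw (al.rho i).2 (by linarith [(al.rho i).1])
        (by linarith)⟩) pt.orb (pt.far y x)
    exact ⟨s, om v (by linarith) ((mul_le_mul_of_nonneg_right (by linarith) t0.le).trans e3)⟩
  · obtain ⟨s, v, v'⟩ := H κ J kk B c lv ρ 1 f L W L θ η q p _ g hk al e1 e2 pt.bg le_rfl
      (fun i => ⟨(al.rho i).1, (mul_one L).le⟩) pt.orb (pt.own y x)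
    refine ⟨s, om v (by linarith) ((mul_le_mul_of_nonneg_right (by linarith) t0.le).trans e3),
      fun F z => ?_⟩
    obtain ⟨φ, b1, b2⟩ := pt.nrm F z
    refine ⟨φ ᵥ* ex B (-g), b2.trans (Fr.sum_act _ _ _), ?_⟩
    rw [vecMul_vecMul]
    exact vb_mono (vb_vm b1 v' (by linarith) (hG.nn l1)) (by linarith)

end Pool.Agent.MP_5168f5_an.QA.Tq
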