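import Pool.Agent.MP_5168f5_an.QA.P5Oa
import Pool.Agent.MP_5168f5_an.QA.P5Oc
import Pool.Agent.MP_5168f5_an.QA.OrbTay
import Pool.Agent.MP_5168f5_an.QA.Tq4

/-! The maximal estimate in all dimensions: the orbit data of the chart. -/

namespace Pool.Agent.MP_5168f5_an.QA.P5

open H19 H17S H17F R4 AN AN.N6 Filter Matrix
open GA (Mt IsFr ex cm mB)
open G39 (dl)
open N2 (tri El)
open LC (Au ex_le)
open Fr (act)
open Ob (Vb pj)
open Fl (au_and)

namespace P5Orbs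

/-- Polynomial growth at an exponential scale. -/
theorem ng {M : ℕ → ℕ} {u w : ℕ → ℝ} (hM : Big M) (h : Fl.Uw M u w) {G : ℝ → ℝ} (hG : PG G)
    {a : ℝ} (ha : 0 ≤ a) (R : ℝ) :
    ∀ᶠ n in UF, G (Real.exp (a * M n)) * Real.exp (-w n) ≤ dl M R n := by
  obtain ⟨C, -, k⟩ := Ob.sPg G hG
  filter_upwards [hM.ev 1, h.bg (C * (C + a) + R)] with n x y
  refine (mul_le_mul_of_nonneg_right ((k _ (Real.one_le_exp (by positivity))).trans
    (Fl.FlOut.pw x)) (Real.exp_pos _).le).trans ?_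
  rw [← Real.exp_add]
  exact ex_le (by linarith)

variable {N D m : ℕ} {π : Pa m}

/-- The data of the chart, read from the basis, the reference, the frame and the point. -/
noncomputable def od (μ : π.κ → ℝ) (M : ℕ) (R η V : ℝ) (U : Matrix π.κ π.κ ℝ) (E : Mt (Fin m))
    (F : Fin m → VD N D) (q : Fin m → ℝ) : Tq.Fd N D m (El π.kk) :=
  Tq.fd π.kk (mB U π.σ.B) (fun a => 0 < μ a) (fun a => Real.exp (μ a * R))
    (fun j => pj π.kk (E⁻¹ * mxd M F j * E)) η V q (act E⁻¹ F)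

end P5Orbs

open P5Orbs in
theorem sOrbs : SOrbs := by
  intro N D m π Hs W μ γ Z q pos t ok hμ geo v0 v1
  classical
  obtain ⟨e, he, H1⟩ := Tq.toF N D m (Fintype.card π.κ + Fintype.card (Fin N))
  obtain ⟨F, hF, H2⟩ := Tq.ofF N D m (Fintype.card π.κ + Fintype.card (Fin N))
  obtain ⟨A, hA, HA⟩ := Ob.AlA.bB π.σ.B
  obtain ⟨a, ha, Ha⟩ := Ob.OrbPhA.ex_eb m (Fintype.card π.κ)
  obtain ⟨Γ, g, hg⟩ := geo.m5.m4.fm.dg 0
  have big := geo.m5.m4.ts.big
  have w0 := (ok.bd 0 ok.zero).2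
  have hf : Au (uu (sX Z)) _ := geo.m5.fl
  have hs : Au (uu (sX Z)) _ := geo.out.sp
  have hc := geo.com
  have ho := geo.orb.nb
  unfold Com Al at hc
  unfold VH Al at v0 v1
  unfold Al at ho
  obtain ⟨u, w, uw, hz⟩ := Fl.au_ex big (au_and (au_and (au_and hf hc) (au_and v0 v1))
    (au_and (au_and ho hs) (ψ' := fun n u _ => Γ n ≤ Real.exp u) fun c hc _ => g.2 c hc))
  have p1 := ((pg_nat m).mul pg_id).mul ha
  have p2 : PG fun x => 2 * x := (pg_const one_le_two).mul pg_id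
  have s0 : Sub (uu (sX Z)) fun n => Real.exp (A * |u n|) :=
    ⟨fun n => Real.one_le_exp (by positivity), fun ε hε => by
      filter_upwards [uw.one, uw.sm (ε / A) (by positivity)] with n x y
      rw [div_mul_eq_mul_div, le_div_iff₀' (by linarith)] at y
      exact ex_le (by rwa [abs_of_pos (by linarith)])⟩
  obtain ⟨L, hL⟩ : ∃ L : ℕ → ℝ, L = fun n => (m + 1) * Real.exp (A * |u n|) *
    a (Real.exp (A * |u n|)) := ⟨_, rfl⟩
  have s1 : Sub (uu (sX Z)) L := hL ▸ p1.2 _ _ big s0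
  have s2 := (hF.comp p2).2 _ _ big s1
  obtain ⟨V, hV⟩ : ∃ V : ℕ → ℝ, V = fun n => Real.exp ((W + 1) * (Z n).X.u) := ⟨_, rfl⟩
  refine ⟨fun n ω => od μ (Z n).X.M (Z n).X.u ((Fintype.card π.κ + 1) * (2 * V n) ^ 3 *
    (e (V n) * Real.exp (-w n))) (2 * L n * (2 * V n)) ((Z n).d.U ω) ((Z n).d.E ω) ((Z n).F.E ω)
    (q n ω), W + 2, by linarith, ?_, fun R => ⟨_, s2, ?_⟩⟩
  · filter_upwards [hf 1 one_pos 0, geo.orb.fn] with n x y ω k v l z
    have e1 : (Z n).F.E ω = (Z n).F.E v := x.f0 ω k v l z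
    have e2 : (Z n).d.U ω = (Z n).d.U v := congrArg Prod.fst (x.fU ω k v l z)
    simp only [e1, e2, x.fE ω k v l z, y ω k v l z]
  have n1 := ng big uw he (a := W + 1) (by linarith) 0
  have n2 := ng big uw ((((pg_nat (Fintype.card π.κ)).mul (p2.pow 3)).mul he).mul
    ((p2.comp (pg_id.mul p2)).pow m)) (a := W + 1) (by linarith) 0
  have n3 := ng big uw ((pg_id.mul (hF.comp p2)).mul he) (a := W + 1) (by linarith) R
  filter_upwards [hz, uw.one, uw.bg (2 * W), n1, n2, n3,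
    (p2.2 _ _ big (p2.2 _ _ big s1)).2 1 one_pos, s2.2 1 one_pos, hg,
    geo.m5.m4.fm.sp, OaA.ph Ob.sTay geo.m5.m4]
    with n ⟨⟨⟨o, hc⟩, x0, x1⟩, ⟨nb, sp⟩, ga⟩ u1 u2 n1 n2 n3 l1 l2 dg sf ph ω k
  have M0 : (0 : ℝ) ≤ (Z n).X.u := Nat.cast_nonneg _
  have m0 : (0 : ℝ) ≤ m := Nat.cast_nonneg _
  have f1 : IsFr (tri π.kk) ((Z n).B ω) ((Z n).d.c π.σ ω) :=
    ((GA.sFr _ _ π.σ.Φ π.σ.B π.σ.c).2 _ _ (o.inv ω k)).1 ok.fr
  have mu := GA.sMul _ _ _ _ _ f1
  have uE : IsUnit ((Z n).d.E ω).det := (isUnit_iff_isUnit_det _).1 (o.uE ω k)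
  have e1 : (Z n).G ω = (Z n).d.E ω * ex ((Z n).B ω) ((Z n).d.g ω) :=
    (congrArg (· * _) (o.fac ω k)).trans (by rw [mul_assoc, (mu.neg _).2, mul_one])
  have uG : IsUnit ((Z n).G ω).det := by
    rw [e1, det_mul]; exact uE.mul (isUnit_det_of_right_inverse (mu.neg _).2)
  have e2 : ((Z n).G ω)⁻¹ = ex ((Z n).B ω) (-(Z n).d.g ω) * ((Z n).d.E ω)⁻¹ := by
    rw [e1, Matrix.mul_inv_rev, inv_eq_right_inv (mu.neg _).2]
  have e3 : ((Z n).F.J ω)⁻¹ = ex ((Z n).B ω) (-(Z n).d.k ω) * ((Z n).G ω)⁻¹ := by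
    rw [show (Z n).F.J ω = _ from o.fac ω k, ← e1, Matrix.mul_inv_rev,
      inv_eq_right_inv (mu.neg _).2]
  have e4 : ∀ y, (Z n).ev ω y = ex ((Z n).B ω) (-(Z n).d.g ω) *ᵥ
      Ob.ev (act ((Z n).d.E ω)⁻¹ ((Z n).F.E ω)) y := fun y => by
    rw [Mb.ev, e2, Fr.act_mul, P5Oc.ev_act]
  have e5 : (fun j => pj π.kk (ex ((Z n).B ω) ((Z n).d.g ω) * (Z n).ph ω j *
      ex ((Z n).B ω) (-(Z n).d.g ω))) = fun j =>
      pj π.kk (((Z n).d.E ω)⁻¹ * mxd (Z n).X.M ((Z n).F.E ω) j * (Z n).d.E ω) := funext fun j => by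
    rw [Mb.ph, e2, e1]
    simp only [← mul_assoc]
    rw [(mu.neg _).2, one_mul, mul_assoc _ (ex _ _), (mu.neg _).2, mul_one]; rfl
  obtain ⟨s3, s4, s5⟩ := ph ω k
  have s6 := ((Ob.sTay N D m _ _ s3).2 _ s5).1 _ (isUnit_nonsing_inv_det _ uG)
  rw [nonsing_inv_nonsing_inv _ uG] at s6
  obtain ⟨-, s7, s8⟩ := ((Ob.sTay N D m _ _ (s3.act (isUnit_nonsing_inv_det _ uG))).2 _ s6).2
    (OaA.li_act (by rwa [← Fr.act_mul, mul_nonsing_inv _ uG, Fr.act_one]) uG)
  have a0 : u n ≤ A * u n := le_mul_of_one_le_left (by linarith) hA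
  have a1 : 1 ≤ Real.exp (A * u n) := Real.one_le_exp (by linarith)
  have a2 := ha.1 _ a1
  have a3 := ex_le a0
  have bB := HA _ _ u1 fun i j => (o.bU ω k i j).1
  obtain ⟨b1, b2⟩ := Ha _ _ _ _ _ _ le_rfl f1 a1 bB fun i => (o.bk ω k i).trans a3
  have l0 : L n = (m + 1) * Real.exp (A * u n) * a (Real.exp (A * u n)) := by
    simp only [hL, abs_of_pos (one_pos.trans_le u1)]
  have l3 : Real.exp (A * u n) * a (Real.exp (A * u n)) ≤ L n := by
    rw [l0, mul_assoc]; exact le_mul_of_one_le_left (by positivity) (by linarith)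
  have l4 : Real.exp (A * u n) ≤ L n := (le_mul_of_one_le_right (by linarith) a2).trans l3
  have l5 : a (Real.exp (A * u n)) ≤ L n := (le_mul_of_one_le_left (by linarith) a1).trans l3
  have l6 := a3.trans l4
  have l7 := s1.1 n
  have v2 : V n = Real.exp ((W + 1) * (Z n).X.u) := congrFun hV n
  have v3 : Real.exp (1 * (Z n).X.u) ≤ V n := v2 ▸ ex_le (by nlinarith)
  have r1 : ∀ i, 0 ≤ μ i * (Z n).X.u ∧ μ i * (Z n).X.u ≤ W * (Z n).X.u := fun i =>
    ⟨mul_nonneg (ok.bd _ (hμ i)).1 M0, mul_le_mul_of_nonneg_right (ok.bd _ (hμ i)).2 M0⟩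
  have t0 := Real.exp_pos (-w n)
  simp only [uu, dl, ← v2, zero_mul, neg_zero, Real.exp_zero] at n1 n2 n3 l1 l2 u2
  obtain ⟨al, pt⟩ := H1 _ _ π.kk _ _ (fun i => 0 < μ i) pos (fun i => Real.exp (μ i * (Z n).X.u))
    ((Z n).d.g ω) ((Z n).ph ω) (L n) (V n) (Real.exp (-w n)) (q n ω) ((Z n).pt ω)
    (act ((Z n).d.E ω)⁻¹ ((Z n).F.E ω)) ((Z n).X.S 0 ω).ν (Tq.sg4 (sX Z) 0 n ω)
    (Tq.sg4 (sX Z) (-1) n ω) le_rfl
    ⟨f1, l7, by linarith, t0, fun i => ⟨Real.one_le_exp (r1 i).1, v2 ▸ ex_le (by linarith [r1 i])⟩,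
      fun i => Lt.eb_mono (bB i) l4, fun i j l => (o.bc ω k i j l).trans l6,
      fun i j l x y z => by
        rw [mul_assoc, ← Real.exp_add]
        by_cases c : μ l < μ i + μ j
        · refine (mul_le_mul_of_nonneg_right (o.fil ω k i j l (.inl ⟨x, y, c⟩))
            (Real.exp_pos _).le).trans (le_trans ?_ (le_mul_of_one_le_left (Real.exp_pos _).le l7))
          rw [← Real.exp_add]
          exact ex_le (by linarith [r1 i, r1 j, r1 l])
        · exact mul_le_mul ((o.bc ω k i j l).trans l6) (ex_le (by nlinarith)) (Real.exp_pos _).le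
            (by linarith),
      fun i j l x y z => o.fil ω k i j l (.inl ⟨x, y, by linarith [not_lt.1 z]⟩),
      fun _ => zero_mem _, fun _ => Lt.eb_zero (by linarith),
      fun _ _ _ => by simpa [cm] using Lt.eb_zero t0.le,
      fun _ _ => by simpa [cm] using Lt.eb_zero t0.le⟩
    ⟨fun j => ⟨fun r s => (hc ω k j s r).1.trans l6, fun r s => by
        simp only [pj, Matrix.sub_apply, of_apply]
        split_ifs with c
        exacts [by simpa using t0.le, by simpa using (hc ω k j s r).2.1 c]⟩,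
      fun i j x r s => (hc ω k j s r).2.2 i x, s7, fun ξ => (s8 ξ).1⟩
    ⟨fun i => ⟨fun x => ((o.bg ω k i).1 x).trans (by
        rw [Real.exp_add]; exact mul_le_mul_of_nonneg_right l6 (Real.exp_pos _).le),
        fun x => (o.bg ω k i).2 (le_antisymm (not_lt.1 x) (ok.bd _ (hμ i)).1)⟩,
      fun r => ((nb ω k).2.1 r).trans l6, Tq.vb_mono (Vh.vb_col b1 _) l5,
      fun i x y r => (sp ω k).stab i r x y, by
        have := (nb ω k).2.2
        simp only [Mb.Nb, mul_zero, Real.exp_zero] at this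
        exact Tq.nb_mono this (fun _ => zero_le_one) l6 le_rfl,
      fun y x => by
        have := x1 ω k y (seg_mono (by norm_num) x)
        simp only [Mb.Nb, Rat.cast_neg, Rat.cast_one, neg_neg, one_mul, e4] at this
        exact Tq.nb_mono this (fun _ => (Real.exp_pos _).le) l6 le_rfl,
      fun y x => by
        have := x0 ω k y (seg_mono (by norm_num) x)
        simp only [Mb.Nb, Rat.cast_zero, neg_zero, zero_mul, mul_zero, Real.exp_zero, e4] at this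
        exact Tq.nb_mono this (fun _ => zero_le_one) l6 le_rfl,
      fun G x => by
        obtain ⟨c, rfl⟩ := sf ω k G
        refine ⟨c ᵥ* ex ((Z n).B ω) (-(Z n).d.k ω), l0 ▸ Tq.vb_vm (fun r => ?_) b2 (by linarith)
          (by linarith), by rw [AB.Fd.f, e3, Fr.act_mul, Fr.sum_act, e2, Fr.act_mul]⟩
        have := (dg ω k).2 c r
        rw [AB.rd, AB.lb, geo.m5.m4.hb n, sub_self, mul_zero, neg_zero, Real.exp_zero,
          mul_one] at this
        exact this.trans ((mul_le_of_le_one_right (g.pos n).le x).trans (ga.trans a3))⟩ n1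
  rw [e5] at al pt
  have f2 := (hF.comp p2).1 _ l7
  have f3 := (hF.comp p2).nn (l7.trans (by linarith : L n ≤ V n))
  have f4 := he.nn (l7.trans (by linarith : L n ≤ V n))
  have key := H2 _ _ _ _ _ _ _ _ _ _ _ _ _ _ (Real.exp (-(R * (Z n).X.u)))
    (F (2 * L n) * Real.exp ((W + 2) * (Z n).X.u)) _ _ _ _ _ _ le_rfl al pt le_rfl
    (le_trans (by
      rw [mul_right_comm _ _ (Real.exp (-w n)), mul_assoc (_ * _) (e _)]
      have : 2 * L n ≤ V n := by linarith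
      have : 0 ≤ V n := by linarith
      gcongr) n2)
    (le_trans (by rw [mul_assoc (_ * _) (e _)]; gcongr; linarith) n3)
    (le_trans (by
      rw [show (W + 2) * ((Z n).X.u : ℝ) = 1 * (Z n).X.u + (W + 1) * (Z n).X.u by ring,
        Real.exp_add, ← v2]
      nlinarith) (le_mul_of_one_le_left (Real.exp_pos _).le f2))
  rwa [← Real.exp_sum, ← Finset.sum_mul] at key

end Pool.Agent.MP_5168f5_an.QA.P5
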