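import Pool.Agent.MP_5168f5_an.AN.N6Spec

/-! The maximal estimate: bases adapted to the stabiliser of a coordinate subspace, definitions. -/

namespace Pool.Agent.MP_5168f5_an.QA.P7

open H19 H17S H17F AN G39 Filter H61Z GA GF
open N6 (Gr Sw)

variable {m : ℕ} {κ : Type} [Fintype κ] [DecidableEq κ]

/-- A graded left inverse, on the positions, of the entries `(p, q)` with `Pz p` and `¬Pz q`. -/
structure LIz (la : Fin m → ℝ) (Pz : Fin m → Prop) (wt : κ → ℝ) (pos : κ → Prop)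
    (B : κ → Mt (Fin m)) (Λ : κ → Fin m → Fin m → ℝ) : Prop where
  sup : ∀ a p q, Λ a p q ≠ 0 → pos a ∧ Pz p ∧ ¬Pz q ∧ la p = la q + wt a
  inv : ∀ a b, pos a → pos b → ∑ p, ∑ q, Λ a p q * B b p q = if a = b then 1 else 0

/-- An adapted frame; the stabiliser is that of the span of the basis vectors outside `Pz`. -/
structure Adz (Sz : (ℕ → ℝ) → Prop) (M : ℕ → ℕ) (la : Fin m → ℝ) (Pz : Fin m → Prop)
    (wt t : κ → ℝ) (pos : κ → Prop) (B : ℕ → κ → Mt (Fin m)) (c : ℕ → κ → κ → κ → ℝ)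
    (Λ : ℕ → κ → Fin m → Fin m → ℝ) : Prop where
  le : ∀ a, t a ≤ wt a
  live : ∀ a, pos a → 0 ≤ t a
  fil : ∀ a b e, 0 ≤ t a → 0 ≤ t b → t e < t a + t b → Sz fun n => c n a b e
  sub : ∀ a b e, 0 ≤ t a → 0 ≤ t b → ¬pos a → ¬pos b → pos e → Sz fun n => c n a b e
  gen : ∀ e, 0 < t e → t e < wt e → ∃ lam : ℕ → κ → κ → ℝ, (∀ a b, OB M fun n => lam n a b) ∧
    ∀ e', Sz fun n => ∑ a, ∑ b, lam n a b * cg (c n) t a b e' - if e' = e then 1 else 0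
  stab : ∀ a p q, 0 ≤ t a → ¬pos a → Pz p → ¬Pz q → Sz fun n => B n a p q
  ob : ∀ a p q, OB M fun n => Λ n a p q
  li : ∀ᶠ n in UF, LIz la Pz wt pos (B n) (Λ n)

/-- The adapted basis over the ring of subexponential sequences. -/
def OAz : Prop := ∀ (κ : Type) [Fintype κ] [DecidableEq κ] (m : ℕ) (M : ℕ → ℕ)
  (Φ : Filt (Mt (Fin m))) (la : Fin m → ℝ) (Pz : Fin m → Prop) (wt : κ → ℝ)
  (B : ℕ → κ → Mt (Fin m)) (c : ℕ → κ → κ → κ → ℝ) (S : Bool → κ → Prop), Big M →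
  (∀ a, 0 < wt a) → (∀ᶠ n in UF, IsFr Φ (B n) (c n) ∧ Gr la wt (B n) (c n)) →
  (∀ a p q, OB M fun n => B n a p q) → (∀ a b e, OB M fun n => c n a b e) →
  (∀ a, S true a → S false a) → (∀ i a b e, S i a → S i b → ¬S i e → OS M fun n => c n a b e) →
  ∃ (A A' : ℕ → Matrix κ κ ℝ) (t : κ → ℝ) (pos : κ → Prop) (Λ : ℕ → κ → Fin m → Fin m → ℝ),
    (∀ᶠ n in UF, A n * A' n = 1 ∧ Pat wt 0 (A n) ∧ Pat wt 0 (A' n)) ∧
    (∀ a e, OB M (fun n => A n a e) ∧ OB M fun n => A' n a e) ∧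
    Adz (OS M) M la Pz wt t pos (fun n => mB (A n) (B n)) (fun n => mC (A n) (A' n) (c n)) Λ ∧
    Sw M A A' (S true) (fun a => t a = wt a) ∧ Sw M A A' (S false) fun a => 0 ≤ t a

end Pool.Agent.MP_5168f5_an.QA.P7
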