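import Pool.Agent.MP_5168f5_an.AN.N6Oa
import Pool.Agent.MP_5168f5_an.AN.N6Fld
import Pool.Agent.MP_5168f5_an.QA.P7Ad

/-! The maximal estimate: the basis adapted to the stabiliser of a coordinate subspace. -/

namespace Pool.Agent.MP_5168f5_an.QA.P7

open H19 H17S H17F AN G39 Filter H61Z GA GF Matrix
open N6

open Classical in
theorem fldJ (k κ J : Type) [Field k] [Fintype κ] [DecidableEq κ] [Fintype J] (la : J → ℝ)
    (wt : κ → ℝ) (c : κ → κ → κ → k) (β : Matrix κ J k) (S : Bool → κ → Prop)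
    (h1 : ∀ a, 0 < wt a) (h2 : ∀ a b e, c a b e ≠ 0 → wt e = wt a + wt b)
    (h3 : ∀ a p, β a p ≠ 0 → la p = wt a) (h4 : ∀ a, S true a → S false a)
    (h5 : ∀ i a b e, S i a → S i b → c a b e ≠ 0 → S i e)
    (h6 : ∀ u v, u ᵥ* β = 0 → v ᵥ* β = 0 → br c u v ᵥ* β = 0) :
    ∃ (A A' : Matrix κ κ k) (t : κ → ℝ) (pos : κ → Prop) (Λ : Matrix κ J k),
    A * A' = 1 ∧ Pat wt 0 A ∧ Pat wt 0 A' ∧ (∀ a, t a ≤ wt a) ∧ (∀ a, pos a → 0 ≤ t a) ∧
    (∀ a e, A a e ≠ 0 → (t a = wt a → S true e) ∧ (0 ≤ t a → S false e)) ∧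
    (∀ e a, A' e a ≠ 0 → (S true e → t a = wt a) ∧ (S false e → 0 ≤ t a)) ∧
    (∀ a b e, nc c A A' a b e ≠ 0 → 0 ≤ t a → 0 ≤ t b →
      t a + t b ≤ t e ∧ (¬pos a → ¬pos b → ¬pos e)) ∧
    (∀ e, 0 < t e → t e < wt e → ∃ lam : κ → κ → k, ∀ e',
      ∑ a, ∑ b, lam a b * cg (nc c A A') t a b e' = if e' = e then 1 else 0) ∧
    (∀ a p, 0 ≤ t a → ¬pos a → (A * β) a p = 0) ∧
    (∀ a p, Λ a p ≠ 0 → pos a ∧ la p = wt a) ∧
    ∀ a b, pos a → pos b → ∑ p, Λ a p * (A * β) b p = if a = b then 1 else 0 := by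
  let e := Fintype.equivFin J
  have z : ∀ u : κ → k, u ᵥ* β.submatrix id e.symm = 0 ↔ u ᵥ* β = 0 := fun u =>
    ⟨fun h => funext fun p => by simpa [vecMul, dotProduct] using congrFun h (e p),
      fun h => funext fun p => congrFun h (e.symm p)⟩
  obtain ⟨A, A', t, pos, Λ, a1, a2, a3, a4, a5, a6, a7, a8, a9, b1, b2, b3⟩ := n6Fld k κ _
    (fun i => la (e.symm i)) wt c (β.submatrix id e.symm) S h1 h2 (fun a p => h3 a _) h4 h5
    fun u v x y => (z _).2 (h6 u v ((z _).1 x) ((z _).1 y))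
  refine ⟨A, A', t, pos, Λ.submatrix id e, a1, a2, a3, a4, a5, a6, a7, a8, a9, fun a p x y => ?_,
    fun a p x => by simpa using b2 a (e p) x, fun a b x y => ?_⟩
  · simpa [mul_apply] using b1 a (e p) x y
  · rw [← b3 a b x y, ← e.sum_comp]
    simp [mul_apply]

open N6OaA GO.GOv1A in
theorem oaz : OAz := by
  intro κ _ _ m M Φ la Pz wt B c S hM hw hG hB hc hS hs
  classical
  let co : κ → κ → κ → OO hM := fun a b e => ⟨_, hc a b e⟩
  let Bo : κ → Matrix (Fin m) (Fin m) (OO hM) := fun a => of fun p q => ⟨_, hB a p q⟩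
  let β : Matrix κ (Fin m × Fin m) (OO hM) := of fun a p =>
    if Pz p.1 ∧ ¬Pz p.2 then Bo a p.1 p.2 else 0
  have hβ : ∀ {n a p}, tm hM n (β a p) ≠ 0 → (Pz p.1 ∧ ¬Pz p.2) ∧ B n a p.1 p.2 ≠ 0 :=
    fun {n a p} u => by
      by_cases z : Pz p.1 ∧ ¬Pz p.2
      · simp only [β, of_apply, if_pos z] at u
        exact ⟨z, u⟩
      · exact absurd (by simp only [β, of_apply, if_neg z, map_zero]) u
  obtain ⟨s, s1, s2⟩ : ∃ s : kk hM → OO hM, (∀ x, rd hM (s x) = x) ∧ s 0 = 0 := by
    choose s hs using rd_surj (hM := hM)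
    exact ⟨fun x => if x = 0 then 0 else s x, fun x => by by_cases u : x = 0 <;> simp [u, hs],
      if_pos rfl⟩
  have s3 : ∀ {n x}, tm hM n (s x) ≠ 0 → x ≠ 0 := fun u z => u (by rw [z, s2, map_zero])
  obtain ⟨A, A', t, pos, Λ, h1, h2, h3, h4, h5, h6, h7, h8, h9, h10, h11, h12⟩ := fldJ (kk hM) κ _
    (fun p : Fin m × Fin m => la p.1 - la p.2) wt (fun a b e => rd hM (co a b e)) (β.map (rd hM)) S hw
    (fun a b e u => by_contra fun z => u (ev0 (hG.mono fun n v =>
      by_contra fun w => z (v.2.hc a b e w))))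
    (fun a p u => by_contra fun z => u (ev0 (hG.mono fun n v =>
      by_contra fun w => z (sub_eq_iff_eq_add'.2 (v.2.hB a p.1 p.2 (hβ w).2))))) hS
    (fun i a b e u v w => by_contra fun z => w (rd_eq.2 (hs i a b e u v z))) fun u v hu hv => by
      let X : (κ → OO hM) → Matrix (Fin m) (Fin m) (OO hM) := fun U => ∑ a, U a • Bo a
      have k : ∀ U p q, Pz p → ¬Pz q → rd hM (X U p q) =
          ((fun a => rd hM (U a)) ᵥ* β.map (rd hM)) (p, q) := fun U p q x y => by
        simp only [X, Matrix.sum_apply, Matrix.smul_apply, smul_eq_mul, map_sum, map_mul, vecMul,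
          dotProduct, map_apply, β, of_apply, if_pos (And.intro x y)]
        rfl
      have k0 : ∀ u, u ᵥ* β.map (rd hM) = 0 → ∀ p q, Pz p → ¬Pz q → rd hM (X (s ∘ u) p q) = 0 :=
        fun u hu p q x y => by
          simp only [k _ p q x y, Function.comp, s1]; exact congrFun hu (p, q)
      have k1 : ∀ u v, u ᵥ* β.map (rd hM) = 0 → v ᵥ* β.map (rd hM) = 0 → ∀ p q, Pz p → ¬Pz q →
          rd hM ((X (s ∘ u) * X (s ∘ v)) p q) = 0 := fun u v hu hv p q x y => by
        rw [mul_apply, map_sum]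
        refine Finset.sum_eq_zero fun r _ => ?_
        by_cases w : Pz r
        · rw [map_mul, k0 v hv r q w y, mul_zero]
        · rw [map_mul, k0 u hu p r x w, zero_mul]
      funext ⟨p, o⟩
      by_cases w : Pz p ∧ ¬Pz o
      swap
      · simp only [vecMul, dotProduct, map_apply, β, of_apply, if_neg w, map_zero, mul_zero,
          Finset.sum_const_zero, Pi.zero_apply]
      have z : rd hM ((X (br co (s ∘ u) (s ∘ v)) - cm (X (s ∘ u)) (X (s ∘ v))) p o) = 0 :=
        ev0 (hG.mono fun n h => by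
          have := congrFun (congrFun ((sMul _ _ Φ _ _ h.1).vbr (fun a => tm hM n (s (u a)))
            fun a => tm hM n (s (v a))) p) o
          simp only [X, GA.vec, cm, br, Matrix.sum_apply, mul_apply, Matrix.sub_apply, map_sum,
            Matrix.smul_apply, smul_eq_mul, map_sub, map_mul, sub_eq_zero] at this ⊢
          exact this)
      simp only [cm, Matrix.sub_apply, map_sub, k1 u v hu hv p o w.1 w.2, k1 v u hv hu p o w.1 w.2,
        sub_zero, k _ p o w.1 w.2, map_sum, map_mul, br, Function.comp, s1] at z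
      exact z
  have a1 : (A.map s).map (rd hM) = A := by ext; simp [s1]
  obtain ⟨C, a2, hC⟩ := lift_inv (A.map s) (a1.symm ▸ h1 : (A.map s).map (rd hM) * A' = 1)
  have pA : ∀ n, Pat wt 0 ((A.map s).map (tm hM n)) := fun n a e w => h2 a e (s3 w)
  have e1 : ∀ n a a' e, mC ((A.map s).map (tm hM n)) (C.map (tm hM n)) (c n) a a' e =
      tm hM n (nc co (A.map s) C a a' e) := fun n a a' e => (nc_map (tm hM n) co _ _ a a' e).symm
  have e2 : ∀ a a' e, rd hM (nc co (A.map s) C a a' e) =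
      nc (fun a b e => rd hM (co a b e)) A A' a a' e := fun a a' e => by rw [nc_map, a1, a2]
  have e3 : ∀ n a p q, Pz p ∧ ¬Pz q → GA.mB ((A.map s).map (tm hM n)) (B n) a p q =
      tm hM n ((A.map s * β) a (p, q)) := fun n a p q w => by
    simp only [GA.mB, GA.vec, Matrix.sum_apply, mul_apply, map_sum, map_mul, β, of_apply, if_pos w]
    rfl
  have e5 : ∀ a p q, ¬(Pz p ∧ ¬Pz q) → (A.map s * β) a (p, q) = 0 := fun a p q w => by
    simp only [mul_apply, β, of_apply, if_neg w, mul_zero, Finset.sum_const_zero]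
  have e4 : ∀ a p, rd hM ((A.map s * β) a p) = (A * β.map (rd hM)) a p := fun a p => by
    rw [← map_apply (f := rd hM), Matrix.map_mul, a1]; rfl
  let N : Matrix κ κ (OO hM) := of fun e b =>
    if pos b then ∑ p, s (Λ e p) * (A.map s * β) b p else (1 : Matrix κ κ (OO hM)) e b
  obtain ⟨N', -, hN⟩ := lift_inv N (N₁ := 1) (by
    ext e b
    simp only [mul_one, N, map_apply, of_apply, one_apply, apply_ite (rd hM), map_sum, map_mul, s1,
      e4, map_one, map_zero]
    split_ifs with u v v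
    · rw [h12 e b (v ▸ u) u, if_pos v]
    · by_cases w : pos e
      · rw [h12 e b w u, if_neg v]
      · exact Finset.sum_eq_zero fun p _ => by
          rw [show Λ e p = 0 from by_contra fun z => w (h11 e p z).1, zero_mul]
    all_goals rfl)
  have c0 : ∀ {e a}, A' e a = 0 → OS M fun n => C.map (tm hM n) e a := fun u =>
    os_of ((congrFun (congrFun a2 _) _).trans u) fun _ => rfl
  have c1 : ∀ {a e}, A a e = 0 → OS M fun n => (A.map s).map (tm hM n) a e := fun u =>
    os_of ((s1 _).trans u) fun _ => rfl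
  refine ⟨fun n => (A.map s).map (tm hM n), fun n => C.map (tm hM n), t, pos,
    fun n a p q => tm hM n (if pos a ∧ Pz p ∧ ¬Pz q then (N' * Λ.map s) a (p, q) else 0),
    hC.mono fun n u => ⟨u, pA n, pat_inv (pA n) u⟩, fun a e => ⟨(s (A a e)).2, (C a e).2⟩,
    ⟨h4, h5, fun a b e u v w => os_of ((e2 a b e).trans (by_contra fun z =>
      w.not_ge (h8 a b e z u v).1)) fun n => e1 n a b e, fun a b e u v x y w => os_of
      ((e2 a b e).trans (by_contra fun z => (h8 a b e z u v).2 x y w)) fun n => e1 n a b e,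
      fun e u v => ?_, fun a p q u v x y => os_of ((e4 a (p, q)).trans (h10 a _ u v))
        fun n => e3 n a p q ⟨x, y⟩,
      fun a p q => (if pos a ∧ Pz p ∧ ¬Pz q then (N' * Λ.map s) a (p, q) else 0).2, ?_⟩,
    ⟨fun a e u v => c1 (by_contra fun z => v ((h6 a e z).1 u)), fun e a u v =>
      c0 (by_contra fun z => v ((h7 e a z).1 u)),
      card_eq h1 (fun a e z => (h6 a e z).1) fun e a z => (h7 e a z).1⟩,
    ⟨fun a e u v => c1 (by_contra fun z => v ((h6 a e z).2 u)), fun e a u v =>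
      c0 (by_contra fun z => v ((h7 e a z).2 u)),
      card_eq h1 (fun a e z => (h6 a e z).2) fun e a z => (h7 e a z).2⟩⟩
  · obtain ⟨lam, hl⟩ := h9 e u v
    refine ⟨fun n a a' => tm hM n (s (lam a a')), fun a a' => (s _).2, fun e' => os_of
      (a := ∑ a, ∑ a', s (lam a a') * (if 0 ≤ t a ∧ 0 ≤ t a' ∧ t e' = t a + t a' then
        nc co (A.map s) C a a' e' else 0) - if e' = e then 1 else 0) ?_ fun n => ?_⟩
    · simp only [map_sub, map_sum, map_mul, apply_ite (rd hM), map_one, map_zero, s1, e2]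
      exact sub_eq_zero.2 (hl e')
    · simp only [cg, e1, map_sub, map_sum, map_mul, apply_ite (tm hM n), map_one, map_zero]
  filter_upwards [hG, hN] with n g u
  have pN : Pat wt 0 (N.map (tm hM n)) := fun e b z => by
    simp only [N, map_apply, of_apply, apply_ite (tm hM n), map_sum, map_mul, mul_apply] at z
    split_ifs at z with w
    · obtain ⟨p, -, y⟩ := Finset.exists_ne_zero_of_sum_ne_zero z
      obtain ⟨a, -, x⟩ := Finset.exists_ne_zero_of_sum_ne_zero (right_ne_zero_of_mul y)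
      have k1 := (h11 e p (s3 (left_ne_zero_of_mul y))).2
      have k2 := (h2 b a (s3 (left_ne_zero_of_mul x))).1
      have k3 := g.2.hB a p.1 p.2 (hβ (right_ne_zero_of_mul x)).2
      exact ⟨by linarith, le_rfl⟩
    · exact pat_one e b fun y => z (by rw [y, map_zero])
  refine ⟨fun a p q z => ?_, fun a b x y => ?_⟩
  · split_ifs at z with w
    · rw [mul_apply, map_sum] at z
      obtain ⟨e, -, y⟩ := Finset.exists_ne_zero_of_sum_ne_zero z
      rw [map_mul] at y
      have k1 := (h11 e (p, q) (s3 (right_ne_zero_of_mul y))).2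
      have k2 := (pat_inv pN u a e (left_ne_zero_of_mul y)).1
      exact ⟨w.1, w.2.1, w.2.2, by dsimp only at k1; linarith⟩
    · exact absurd (map_zero _) z
  · rw [← one_apply, ← mul_eq_one_comm.1 u, mul_apply, ← Fintype.sum_prod_type',
      Finset.sum_congr rfl (g := fun p : Fin m × Fin m => tm hM n ((N' * Λ.map s) a p) *
        tm hM n ((A.map s * β) b p)) fun p _ => by
        by_cases w : Pz p.1 ∧ ¬Pz p.2
        · rw [if_pos ⟨x, w⟩, e3 n b _ _ w]
        · rw [if_neg fun z => w z.2, e5 b p.1 p.2 w, map_zero, zero_mul, mul_zero]]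
    simp only [N, map_apply, of_apply, if_pos y, mul_apply (M := N'), map_sum, map_mul,
      Finset.sum_mul, Finset.mul_sum, mul_assoc]
    exact Finset.sum_comm

end Pool.Agent.MP_5168f5_an.QA.P7
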