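import Pool.Agent.MP_5168f5_an.QA.P7Ex
import Pool.Agent.MP_5168f5_an.QA.P7Ht
import Pool.Agent.MP_5168f5_an.QA.P7Oa

/-! The maximal estimate: the marked light class is empty. -/

namespace Pool.Agent.MP_5168f5_an.QA.P7

open H19 H17S H17F R4 Filter AN AN.LC AN.LP
open G39 (OS)
open GA (Mt Neg)
open N6 (IND)

open Classical in
/-- The algebraic facts on an adapted basis of a member of the marked class. -/
def AlgE : Prop := ∀ (m : ℕ) (κ : Type) [Fintype κ] [DecidableEq κ] (Ω Λ : ℕ → Type) [Ex m κ Ω Λ]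
  (μ : Md m) (c : ℕ → Fin m → Fin m → Fin m → ℝ) (σ : St m κ) (S : Bool → Finset κ) (L₀ : ℝ)
  (t : κ → ℝ) (pos : κ → Prop) (Lm : ℕ → κ → Fin m → Fin m → ℝ) (X : ∀ n, Dt m κ (Ω n) (Λ n)),
  Z.LA μ.Pz σ S L₀ t pos Lm X → IND σ S X → EE μ c σ X → ∃ τ, pos τ ∧ t τ = σ.wt τ ∧
    (¬OS (sM X) fun n => (X n).B τ μ.τ σ.o) ∧
    (∀ a, pos a → a ≠ τ → 0 < t a ∧ t a < σ.wt a ∧ σ.wt a ≠ σ.la μ.τ) ∧
    ∑ p ∈ (Finset.univ.filter μ.Pz).erase μ.τ, σ.la p ≤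
      ∑ a ∈ (Finset.univ.filter pos).erase τ, σ.wt a ∧
    ∀ a r, 0 ≤ t a → r ≠ σ.o → Neg (sM X) fun n => (X n).B a μ.τ r

variable {m : ℕ} {κ : Type} [Fintype κ] {Ω Λ : ℕ → Type} {μ : Md m}
  {c : ℕ → Fin m → Fin m → Fin m → ℝ} {σ : St m κ} {S : Bool → Finset κ}
  {X : ∀ n, Dt m κ (Ω n) (Λ n)}

/-- No member of the light class satisfies the extra condition. -/
theorem emp (hT : N7.TANP) (hA : AlgE) (hX : LI σ S X) (h : EE μ c σ X) : False := by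
  classical
  letI : Ex m κ Ω Λ := exE μ c
  obtain ⟨S, L₀, t, pos, Lm, X, a, i⟩ := Z.ex_la (S := S) oaz μ.Pz ⟨hX, h⟩
  have e : EE μ c σ X := a.l.ex
  obtain ⟨τ, tp, tt, nb, mx, vol, row⟩ := hA m κ Ω Λ μ c σ S L₀ t pos Lm X a i e
  obtain ⟨x, -, b⟩ := Z.n6Res m κ Ω Λ σ μ.Pz S L₀ t pos Lm X a i
  have eb : EE μ c σ fun n => N6.N6ResA.nw t (x n) (X n) := b.ex
  have sB : ∀ a p q, 0 ≤ t a → (fun n => (N6.N6ResA.nw t (x n) (X n)).B a p q) =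
      fun n => (X n).B a p q := fun a p q u => funext fun n =>
    congrFun (congrFun (N6.N6ResA.sB_al u) p) q
  refine end7 hT b ((e.ok.tz _).2 rfl).1 e.ok.po tp tt ?_ (fun a u v => ⟨(mx a u v).1,
    (mx a u v).2.1, ?_⟩) (fun a r u v => ?_) eb.hts (eb.dfc 0 1 zero_le_one) (e.ok.vol.trans_le ?_)
  · rw [sB τ _ _ (a.ad.live τ tp)]
    exact nb
  · rw [hX.lo, zero_add]
    exact (mx a u v).2.2.symm
  · rw [sB a _ _ u]
    exact row a r u v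
  · refine vol.trans_eq ?_
    rw [← Finset.filter_ne', Finset.filter_filter, Finset.sum_filter]
    refine Finset.sum_congr rfl fun a _ => ?_
    simp only [GO.ind]
    congr

end Pool.Agent.MP_5168f5_an.QA.P7
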