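import Pool.Agent.MP_5168f5_an.QA.P7In
import Pool.Agent.MP_5168f5_an.QA.P7Emp
import Pool.Agent.MP_5168f5_an.AN.N7All

/-! The maximal estimate: the algebraic facts on the adapted basis. -/

namespace Pool.Agent.MP_5168f5_an.QA.P7

open H17F hiding co
open H19 H17S R4 Filter AN AN.LC AN.LP GA G39 Matrix Finset
open P7E (rho vc xp Der EK vc_apply rho_apply rho_single vc_map xp_map)

theorem der_of {ι R : Type} [Fintype ι] [DecidableEq ι] [CommRing R] {c : ι → ι → ι → R} {X : Matrix ι ι R}
    (h : ∀ p r q, ∑ u, X r u * c p q u - (∑ s, c p s r * X s q + ∑ u, X u p * c u q r) = 0) :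
    Der c X := fun y => by
  ext r q
  have : ∑ p, y p * (∑ u, X r u * c p q u - (∑ s, c p s r * X s q + ∑ u, X u p * c u q r)) = 0 :=
    sum_eq_zero fun p _ => by rw [h, mul_zero]
  simp only [mul_sub, mul_add, mul_sum, sum_sub_distrib, sum_add_distrib] at this
  simp only [cm, Matrix.sub_apply, mul_apply, rho_apply, mulVec, dotProduct, sum_mul, mul_sum]
  rw [sum_comm, sum_comm (f := fun u p => X r u * (y p * c p q u)),
    sum_comm (f := fun s p => y p * c p s r * X s q)]
  simp only [mul_assoc, mul_left_comm _ (y _)]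
  linear_combination -this

variable {M : ℕ → ℕ} {hM : Big M}

/-- The constant sequences. -/
def cq (hM : Big M) : ℝ →+* OO hM := (Pi.constRingHom ℕ ℝ).codRestrict _ fun x => ob_const hM x

theorem rd_os {x : OO hM} {u : ℕ → ℝ} (h : OS M u) (e : ∀ᶠ n in UF, tm hM n x = u n) : rd hM x = 0 :=
  rd_eq.2 (h.imp fun _ k => ⟨k.1, (k.2.and e).mono fun _ a => (congrArg abs a.2).trans_le a.1⟩)

theorem os_rd {x : OO hM} {u : ℕ → ℝ} (h : rd hM x = 0) (e : ∀ᶠ n in UF, u n = tm hM n x) : OS M u :=
  (rd_eq.1 h).imp fun _ k => ⟨k.1, (k.2.and e).mono fun _ a => (congrArg abs a.2).trans_le a.1⟩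

theorem rd_ev {x y : OO hM} (e : ∀ᶠ n in UF, tm hM n x = tm hM n y) : rd hM x = rd hM y :=
  sub_eq_zero.1 ((map_sub _ _ _).symm.trans (rd_os GA.neg_zero.os
    (e.mono fun n a => by rw [map_sub, a, sub_self])))

theorem rd_ne0 {x : OO hM} {p : Prop} (h : rd hM x ≠ 0) (e : ∀ᶠ n in UF, tm hM n x ≠ 0 → p) : p :=
  by_contra fun z => h (rd_os GA.neg_zero.os (e.mono fun _ a => not_not.1 fun w => z (a w)))

theorem algE : AlgE := by
  intro m κ _ _ Ω Λ _ μ c σ S L₀ t pos Lm X a i e
  classical
  have l := a.l.toLI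
  have hM := l.big
  have ok := e.ok
  obtain ⟨R, r1, r2, r3⟩ := spans l e
  let Bo : κ → Matrix (Fin m) (Fin m) (OO hM) := fun a => of fun p q => ⟨_, obB l a p q⟩
  let co : κ → κ → κ → OO hM := fun x y z => ⟨_, ob_c a.l x y z⟩
  let eo : Fin m → Fin m → Fin m → OO hM := fun p q r => ⟨_, e.oc p q r⟩
  let Ro : Fin m → κ → OO hM := fun p x => ⟨_, r1 p x⟩
  let Lo : κ → Fin m → Fin m → OO hM := fun x p q => ⟨_, a.ad.ob x p q⟩
  have tB : ∀ n x p q, tm hM n (Bo x p q) = (X n).B x p q := fun _ _ _ _ => rfl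
  have tc : ∀ n x y z, tm hM n (co x y z) = (X n).c x y z := fun _ _ _ _ => rfl
  have te : ∀ n p q r, tm hM n (eo p q r) = c n p q r := fun _ _ _ _ => rfl
  have tR : ∀ n p x, tm hM n (Ro p x) = R n p x := fun _ _ _ => rfl
  have tL : ∀ n x p q, tm hM n (Lo x p q) = Lm n x p q := fun _ _ _ _ => rfl
  have tq : ∀ n x, tm hM n (cq hM x) = x := fun _ _ => rfl
  obtain ⟨s, s1, s2⟩ : ∃ s : kk hM → OO hM, (∀ x, rd hM (s x) = x) ∧ s 0 = 0 := by
    choose s hs using rd_surj (hM := hM)
    exact ⟨fun x => if x = 0 then 0 else s x, fun x => by by_cases u : x = 0 <;> simp [u, hs],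
      if_pos rfl⟩
  have s3 : ∀ {n x}, tm hM n (s x) ≠ 0 → x ≠ 0 := fun u z => u (by rw [z, s2, map_zero])
  have ce := e.ce 1 one_pos 0
  have ng : ∀ {u : ℕ → ℝ}, (∀ n x w, CE μ σ.la σ.o (c n) x w → |u n| ≤ Real.exp (-w)) →
      GA.Neg (sM X) u := fun z K => (e.ce 1 one_pos K).mono fun n y => z n _ _ y
  have gr := l.fr.mono fun n z => N6.gr_of z
  have d0 : μ.df 0 = 0 := by simpa using ok.gap μ.τ μ.τ
  have gm : ∀ {x p q}, σ.la p = σ.la q + σ.wt x → μ.mu p = μ.mu q + μ.df (σ.wt x) :=
    fun {x p q} z => by rw [ok.gap p q, z, add_sub_cancel_left]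
  have va : ∀ (k : Bool) (f : Fin m → kk hM) (q : Fin m) (y : ℕ → κ → ℝ)
      (oy : ∀ x, OB (sM X) fun n => y n x), ∑ p, f p * xp ((rd hM).comp (cq hM)) (σ.Φ.N + 1)
        (vc (fun x => (Bo x).map (rd hM)) fun x => rd hM ⟨_, oy x⟩) p q = 0 →
      OS (sM X) fun n => ∑ p, tm hM n (s (f p)) * ex (X n).B (y n) p q := fun k f q y oy z => by
    rw [← vc_map, ← xp_map] at z
    refine os_rd (hM := hM) (x := ∑ p, s (f p) * xp (cq hM) (σ.Φ.N + 1) (vc Bo fun x => ⟨_, oy x⟩) p q)
      (by simpa only [map_sum, map_mul, s1, map_apply] using z) (l.fr.mono fun n w => ?_)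
    simp only [map_sum, map_mul]
    refine sum_congr rfl fun p _ => congrArg _ ?_
    rw [← map_apply (f := tm hM n), xp_map, vc_map, ex,
      IsNilpotent.exp_eq_sum (σ.Φ.pow_zero' (w.1.mem _)), xp, Matrix.sum_apply, Matrix.sum_apply]
    refine sum_congr rfl fun j _ => ?_
    simp only [Matrix.smul_apply, RingHom.comp_apply, tq, Rat.smul_def, smul_eq_mul]
    push_cast
    rfl
  have K : EK ((rd hM).comp (cq hM)) (σ.Φ.N + 1) σ.o μ.τ σ.la μ.mu μ.Pz σ.wt t
      (fun x => μ.df (σ.wt x)) pos (fun x => (Bo x).map (rd hM)) (fun x y z => rd hM (co x y z))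
      (fun p q r => rd hM (eo p q r)) (of fun p x => rd hM (Ro p x))
      fun x p q => rd hM (Lo x p q) := by
    refine ⟨l.lo, ok.mo, ok.mp, ok.vt, fun p z => by rw [ok.gap p μ.τ, z, sub_self, d0, add_zero],
      ok.po, ok.tz, l.wp, fun x y => ?_, fun y z => ?_, fun x p q z => ?_,
      fun x y z w => rd_ne0 w (gr.mono fun n v => v.hc x y z), fun q r => ?_, fun p q r => ?_,
      fun p q r z => rd_ne0 z (ce.mono fun n v => v.gr p q r), fun p => der_of fun p' r q => ?_,
      fun p q r x y z => rd_os (ng fun n _ _ w => w.g0 p q r x y z).os (.of_forall fun _ => rfl),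
      fun p z => ?_, ?_, a.ad.le, a.ad.live,
      fun x y z u v w => rd_os (a.ad.fil x y z u v w).os (.of_forall fun _ => rfl),
      fun x p q u v w z => rd_os (a.ad.stab x p q u v w z).os (.of_forall fun _ => rfl),
      fun x p q z => rd_ne0 z (a.ad.li.mono fun n v w => ⟨(v.sup x p q w).2.1, (v.sup x p q w).2.2.1⟩),
      fun x y u v => ?_, fun x u => der_of fun p r q => ?_, fun x p q u v w z => ?_,
      fun x p u v => rd_os (ind_en l i (e.col 0 p v) ((a.st x).2 u)).os (.of_forall fun _ => rfl),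
      fun f u v w => ?_, fun f x u v w => ?_⟩
    · ext p q
      simp only [cm, Matrix.sub_apply, mul_apply, vc_apply, map_apply, ← map_mul, ← map_sum, ← map_sub]
      refine rd_ev (l.fr.mono fun n z => ?_)
      simpa only [map_sub, map_sum, map_mul, tB, tc, cm, Matrix.sub_apply, mul_apply, GA.vec,
        Matrix.sum_apply, Matrix.smul_apply, smul_eq_mul] using congrFun (congrFun (z.1.br x y) p) q
    · funext x
      have k1 : ∀ p q, OS (sM X) fun n => vec (X n).B (fun x => tm hM n (s (y x))) p q := fun p q =>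
        os_rd (hM := hM) (x := ∑ x, s (y x) * Bo x p q) (by
          simpa only [map_sum, map_mul, s1, vc_apply, map_apply, Matrix.zero_apply] using congrFun (congrFun z p) q)
          (.of_forall fun n => by simp [GA.vec, Matrix.sum_apply, tB])
      obtain ⟨η, hη, k2⟩ := os_fin univ fun (y : Fin m × Fin m) _ => k1 y.1 y.2
      rw [← s1 (y x)]
      refine rd_eq.2 ⟨η / 3, by positivity, ?_⟩
      filter_upwards [k2, l.bd (η / 3) (by positivity), big_exp hM (m * m) (η := η / 3) (by positivity)]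
        with n u v w
      refine (v.2 (fun x => tm hM n (s (y x))) x).trans ((mul_le_mul_of_nonneg_left
        ((sum_le_sum fun p _ => sum_le_sum fun q _ => u (p, q) (mem_univ _)).trans (?_ :
          _ ≤ Real.exp (η / 3 * (X n).M) * dl (sM X) η n)) (Real.exp_pos _).le).trans (le_of_eq ?_))
      · simp only [sum_const, card_univ, Fintype.card_fin, nsmul_eq_mul, ← mul_assoc]
        exact mul_le_mul_of_nonneg_right w (dl_pos _ _ _).le
      · rw [dl, dl, ← Real.exp_add, ← Real.exp_add]
        congr 1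
        simp only [sM]; ring
    · have := rd_ne0 z (gr.mono fun n v => v.hB x p q)
      exact ⟨this, gm this⟩
    · refine (rd_ev (y := if r = q then cq hM (μ.mu q) else 0) (ce.mono fun n v => ?_)).trans ?_
      · rw [te, v.co]; split_ifs <;> rfl
      · split_ifs
        exacts [rfl, map_zero _]
    · rw [← map_neg]
      exact rd_ev (ce.mono fun n v => by rw [map_neg, te, te, v.an])
    · simp only [rho_single, ← map_mul, ← map_sum, ← map_add, ← map_sub]
      refine rd_os (ng fun n _ _ w => w.jac p p' r q).os (.of_forall fun n => ?_)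
      simp only [map_sub, map_add, map_sum, map_mul, te, cm, Matrix.sub_apply, mul_apply, rho_single]
      rw [rho_apply]
      ring
    · ext r q
      simp only [vc_apply, rho_single, of_apply, map_apply, ← map_mul, ← map_sum]
      refine rd_ev (r3.mono fun n v => ?_)
      simpa only [map_sum, map_mul, tB, tR, te, GA.vec, Matrix.sum_apply, Matrix.smul_apply,
        smul_eq_mul] using v p z r q
    · funext x
      exact rd_os GA.neg_zero.os (.of_forall fun n => congrFun (r2 n) x)
    · simp only [map_apply, ← map_mul, ← map_sum]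
      refine (rd_ev (y := if x = y then 1 else 0) (a.ad.li.mono fun n w => ?_)).trans ?_
      · simp only [map_sum, map_mul, tL, tB, w.inv x y u v]
        split_ifs <;> rfl
      · split_ifs
        exacts [map_one _, map_zero _]
    · simp only [map_apply, ← map_mul, ← map_sum, ← map_add, ← map_sub]
      refine rd_os (ind_der l i e ((a.sf x).2 u) p r q).os (.of_forall fun n => ?_)
      simp only [map_sub, map_add, map_sum, map_mul, te, tB]
    · by_contra y
      have := gm (rd_ne0 y (gr.mono fun n v => v.hB x p q))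
      exact y (rd_os (ind_en l i (e.pat 0 p q (by rwa [v, add_zero] at this) w z)
        ((a.sf x).2 u)).os (.of_forall fun _ => rfl))
    · funext p
      rw [← s1 (f p)]
      refine rd_eq.2 (thin1 l e (F := fun n p => tm hM n (s (f p))) (fun n p z => u p (s3 z))
        (fun p q x y => os_rd (hM := hM) (x := ∑ r, eo p q r * s (f r)) (by
          simpa only [map_sum, map_mul, s1] using v p q x.1 y.1 x.2 y.2)
          (.of_forall fun n => by simp only [map_sum, map_mul, te]))
        (fun y oy ny => va true f _ y oy (w _ fun x z =>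
          rd_os (ny x (mt (a.st x).1 z)).os (.of_forall fun _ => rfl))) p)
    · funext p
      rw [← s1 (f p)]
      refine rd_eq.2 (thin2 l e (F := fun n p => tm hM n (s (f p))) (fun n p z => u p (s3 z))
        (fun p q x y => os_rd (hM := hM) (x := ∑ r, eo p q r * s (f r)) (by
          simpa only [map_sum, map_mul, s1] using v p q x y)
          (.of_forall fun n => by simp only [map_sum, map_mul, te]))
        (fun y oy ny q hq => va false f _ y oy (w _ (fun x z =>
          rd_os (ny x (mt (a.sf x).1 z.not_ge)).os (.of_forall fun _ => rfl)) q hq.1 hq.2)) p)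
  obtain ⟨τ, k1, k2, -, k4, k5, k6⟩ := K.fin
  refine ⟨τ, k1, k2, fun z => k4 (rd_os z (.of_forall fun _ => rfl)), k5, k6, fun x r u v => ?_⟩
  have tz := ((ok.tz _).2 rfl).2
  by_cases z : μ.mu r = μ.mu μ.τ
  · exact neg_ev (gr.mono fun n w => not_not.1 fun y => by
      linarith [w.hB x _ _ y, l.wp x, ok.vt r])
  have n1 : GA.Neg (sM X) fun n => ∑ u, (X n).B x u σ.o * c n u r μ.τ := Neg.sum hM _ fun p _ => by
    by_cases y : p = σ.o
    · exact neg_ev (gr.mono fun n w => mul_eq_zero_of_left (not_not.1 fun y' => by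
        have := w.hB x _ _ y'
        rw [y] at this
        linarith [l.wp x]) _)
    · exact (ng fun n _ _ w => w.chi p r y v).mul' (obB l x p σ.o)
  refine (((ind_der l i e ((a.sf x).2 u) σ.o μ.τ r).add hM n1).mul
    (ob_const hM (μ.mu r - μ.mu μ.τ)⁻¹)).congr (ce.mono fun n w => ?_)
  have := sub_ne_zero.2 z
  simp only [w.co, mul_ite, ite_mul, mul_zero, zero_mul, sum_ite_eq, sum_ite_eq', mem_univ, if_true]
  field_simp
  ring

/-- The marked light class is empty. -/
theorem noEE {m : ℕ} {κ : Type} [Fintype κ] {Ω Λ : ℕ → Type} {μ : Md m}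
    {c : ℕ → Fin m → Fin m → Fin m → ℝ} {σ : St m κ} {S : Bool → Finset κ}
    {X : ∀ n, Dt m κ (Ω n) (Λ n)} (hX : LI σ S X) (h : EE μ c σ X) : False :=
  emp N7.tanPlus algE hX h

end Pool.Agent.MP_5168f5_an.QA.P7
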