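import Pool.Agent.MP_5168f5_an.QA.P7Mod
import Pool.Agent.MP_5168f5_an.AN.TGRep

/-! The maximal estimate: the extended adjoint action is almost a representation. -/

namespace Pool.Agent.MP_5168f5_an.QA.P7

section

open H19 H17S H17F AN G39 GA Filter H61Z IsNilpotent TG TG.Rp

/-- Frames whose constants are homogeneous up to negligible terms. -/
structure Al0 {ι κ : Type} [Fintype ι] [DecidableEq ι] [Fintype κ] (M : ℕ → ℕ) (Φ : Filt (Mt ι))
    (om : κ → ℝ × ℝ) (B : ℕ → κ → Mt ι) (c : ℕ → κ → κ → κ → ℝ) : Prop where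
  big : Big M
  fr : ∀ᶠ n in UF, IsFr Φ (B n) (c n)
  wt : ∀ a, 0 ≤ (om a).1 ∧ 0 ≤ (om a).2
  ob : ∀ a b e, OB M fun n => c n a b e
  hom : ∀ a b e, om e ≠ 0 → ¬Hm om a b e → Neg M fun n => c n a b e

open Classical in
theorem core {ι κ : Type} [Fintype ι] [DecidableEq ι] [Fintype κ] {Φ : Filt (Mt ι)}
    {om : κ → ℝ × ℝ} {M : ℕ → ℕ} {B : ℕ → κ → Mt ι} {c : ℕ → κ → κ → κ → ℝ}
    (h : Al0 M Φ om B c) :
    (∀ a b p q, Neg M fun n => (Rm om (c n) a * Rm om (c n) b - Rm om (c n) b * Rm om (c n) a -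
      ∑ e, c n a b e • Rm om (c n) e) p q) ∧
    ∀ s u : ℕ → κ → ℝ, (∀ a, OB M (fun n => s n a) ∧ OB M fun n => u n a) → ∀ p q,
      Neg M fun n => (Em om (c n) (bch Φ.N (c n) (s n) (u n)) -
        Em om (c n) (s n) * Em om (c n) (u n)) p q := by
  have hM := h.big
  let _ : Algebra ℚ (OO hM) := ((Rp.cs hM).comp (algebraMap ℚ ℝ)).toAlgebra
  let C : κ → κ → κ → OO hM := fun a b e => ⟨fun n => c n a b e, h.ob a b e⟩
  let π : OO hM →+* OO hM ⧸ ng hM := Ideal.Quotient.mk _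
  have hz : ∀ x : OO hM, π x = 0 ↔ Neg M x.1 := fun x => Ideal.Quotient.eq_zero_iff_mem
  have hq : ∀ x y : OO hM, (∀ᶠ n in UF, ev hM n x = ev hM n y) → π x = π y := fun x y e => by
    rw [← sub_eq_zero, ← map_sub, hz]
    exact neg_ev (e.mono fun n k => sub_eq_zero.2 k)
  have hm := h.fr.mono fun n k => sMul _ _ Φ _ _ k
  have hx : Ex om fun a b e => π (C a b e) := by
    refine ⟨fun a b e k k' => (hz _).2 (h.hom a b e k k'), fun a b e => ?_, fun a b g f => ?_⟩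
    · rw [← map_neg]
      exact hq _ _ (hm.mono fun n k => by rw [map_neg]; exact k.anti a b e)
    · simp only [← map_mul, ← map_sum, ← map_sub]
      refine hq _ _ (hm.mono fun n k => ?_)
      have := congrFun (k.jac (Pi.single a 1) (Pi.single b 1) (Pi.single g 1)) f
      simp only [br_single] at this
      simp only [br, Pi.single_apply, Pi.sub_apply, mul_ite, mul_one, mul_zero, ite_mul, zero_mul,
        Finset.sum_ite_eq', Finset.mem_univ, if_true, Finset.sum_ite_irrel, Finset.sum_const_zero]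
        at this
      simp only [map_sum, map_sub, map_mul]
      change ∑ e, c n a b e * c n e g f = ∑ u, c n a u f * c n b g u - ∑ u, c n b u f * c n a g u
      rw [← this]
      exact Finset.sum_congr rfl fun e _ => mul_comm _ _
  have ht : ∀ (X : Matrix (Option κ) (Option κ) (OO hM)) (Y : ℕ → Matrix (Option κ) (Option κ) ℝ),
      π.mapMatrix X = 0 → (∀ᶠ n in UF, Y n = (ev hM n).mapMatrix X) → ∀ p q,
      Neg M fun n => Y n p q := fun X Y e e' p q =>
    ((hz (X p q)).1 (congrFun (congrFun e p) q)).congr (e'.mono fun n k => by rw [k]; rfl)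
  have hr : ∀ n a, (ev hM n).mapMatrix (rm om C (Rp.cs hM) a) = Rm om (c n) a := fun n a => by
    rw [rm_map]; rfl
  have hn : ∀ z, IsNilpotent (Rp.rv om C (Rp.cs hM) z) := fun z =>
    (fl om _ 0).nil (rv_mem h.wt C _ 0 z)
  have he : ∀ n z, (ev hM n).mapMatrix (exp (Rp.rv om C (Rp.cs hM) z)) =
      Em om (c n) fun a => ev hM n (z a) := fun n z => by
    rw [(hn z).map_exp, rv_map]; rfl
  refine ⟨fun a b => ht (rm om C (Rp.cs hM) a * rm om C (Rp.cs hM) b - rm om C (Rp.cs hM) b *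
    rm om C (Rp.cs hM) a - ∑ e, C a b e • rm om C (Rp.cs hM) e) _ ?_
    (Eventually.of_forall fun n => ?_), fun s u hs => ?_⟩
  · simp only [map_sub, map_mul, map_sum, sm_map, rm_map]
    rw [comm h.wt hx, sub_self]
  · simp only [map_sub, map_mul, map_sum, sm_map, hr]
    rfl
  · let s' : κ → OO hM := fun a => ⟨fun n => s n a, (hs a).1⟩
    let u' : κ → OO hM := fun a => ⟨fun n => u n a, (hs a).2⟩
    refine ht (exp (Rp.rv om C (Rp.cs hM) (bch (Φ.N + Fintype.card (Option κ)) C s' u')) -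
      exp (Rp.rv om C (Rp.cs hM) s') * exp (Rp.rv om C (Rp.cs hM) u')) _ ?_ (h.fr.mono fun n k => ?_)
    · simp only [map_sub, map_mul, (hn _).map_exp, rv_map, (sMap κ _ _ π _ C s' u').2.1]
      exact sub_eq_zero.2 (rep h.wt hx _ Φ.N _ _)
    · simp only [map_sub, map_mul, he, (sMap κ _ _ (ev hM n) _ C s' u').2.1]
      rw [bch_eq k (Fintype.card (Option κ))]
      rfl

end

open H19 H17S H17F R4 AN Filter LC
open G39 (dl OB)
open GA (Mt Neg Hm)

variable {ι κ : Type} [Fintype ι] [DecidableEq ι] [Fintype κ] [DecidableEq κ] {σ : Kc ι κ}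

theorem Kc.Ok.om_ne (h : σ.Ok) (a : κ) : σ.om a ≠ 0 ↔ 0 < σ.mu a :=
  ⟨fun k => (h.m0 a).lt_of_ne' fun z => k (by simp [Kc.om, z, h.dead a z]),
    fun k z => k.ne' (congrArg Prod.snd z)⟩

theorem Kc.Ok.hm2 (h : σ.Ok) (a b e : κ) : Hm σ.om a b e ↔ 0 < σ.mu a ∧ 0 < σ.mu b ∧
    σ.mu e = σ.mu a + σ.mu b ∧ σ.la e = σ.la a + σ.la b := by
  rw [Hm, h.om_ne, h.om_ne, Prod.ext_iff]
  simp only [Kc.om, Prod.fst_add, Prod.snd_add]
  exact and_congr_right fun _ => and_congr_right fun _ =>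
    ⟨fun k => ⟨k.2, by linarith [k.1, k.2]⟩, fun k => ⟨by linarith [k.1, k.2], k.1⟩⟩

variable {Ω Λ : ℕ → Type} {X : ∀ n, Cd ι κ (Ω n) (Λ n)}

/-- The frames along a sequence of samples. -/
theorem CC.al0 (h : CC σ X) {ω : ∀ n, Ω n} (hω : ∀ n, ω n ∈ (X n).P.S) :
    Al0 (cM X) σ.Φ σ.om (fun n => (X n).B (ω n)) fun n => (X n).c (ω n) :=
  ⟨h.big, h.fr.mono fun n k => (k _ (hω n)).2.1,
    fun a => ⟨sub_nonneg.2 (h.ok.vt a), h.ok.m0 a⟩,
    fun a b e ε hε => (h.alg ε hε 0).mono fun n k =>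
      ((k _ (hω n)).ob a b e).trans_eq (G39.dl_inv (cM X) ε n).symm,
    fun a b e x y K => (h.alg 1 one_pos K).mono fun n k =>
      (k _ (hω n)).gr a b e ((h.ok.om_ne e).1 x) (mt (h.ok.hm2 a b e).2 y)⟩

end Pool.Agent.MP_5168f5_an.QA.P7
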