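import Pool.Agent.MP_5168f5_an.AN.LPAll
import Pool.Agent.MP_5168f5_an.QA.HApi

/-! Conditions on normalised increments that are stable under the moves of the light class. -/

namespace Pool.Agent.MP_5168f5_an.QA.P7

open H19 H17S H17F R4 Filter AN AN.LC AN.LP
open G39 (dl OB)
open GA (Mt Nr Neg)
open S20 (dn mem_cv)
open N6 (At mem_fb)

section One

variable {m : ℕ} {κ Ω Λ : Type} (σ : St m κ) (X : Dt m κ Ω Λ)

/-- The normalised increment from `ω` to `v` at level `a`. -/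
noncomputable def nm (a : ℚ≥0) (ω v : Ω) : Mt (Fin m) := fun p q =>
  Real.exp ((σ.la p - σ.la q) * X.lv a) * ((X.j ω)⁻¹ * X.j v) p q

/-- The function `F` of the increments is small in the atoms. -/
def Zr (k : Bool) (F : Mt (Fin m) → ℝ) (a : ℚ≥0) (w : ℝ) : Prop :=
  ∀ ω v, At X k a ω v → |F (nm σ X a ω v)| ≤ Real.exp (-w)

/-- A small ball bound for unit forms on the columns in `Q`. -/
def Sb (k : Bool) (L : ℝ) (ok : (Fin m → ℝ) → ℝ → ℝ → Prop) (Q : Fin m → Prop) (a : ℚ≥0)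
    (u w : ℝ) : Prop := ∀ ω ∈ X.P.S, ∀ h : ℝ, h ≤ w → ∀ (l : Fin m → ℝ) (c₀ : ℝ),
  ∑ p, |l p| = 1 → ok l c₀ (Real.exp (-h)) →
  pb (X.fb k a ω) (fun v => ∀ q, Q q → |∑ p, l p * nm σ X a ω v p q - c₀| ≤ Real.exp (-h)) ≤
    Real.exp (u - h / L)

/-- The entry `(p, q)` has flat iterated differences in the pieces. -/
def Hs (p q : Fin m) (k : ℕ) (θ : ℝ) (a : ℚ≥0) (u w : ℝ) : Prop :=
  ∀ ω ∈ X.P.S, ∀ h : ℝ, 0 ≤ h → h ≤ w →
    En k (sl (X.fb true a ω) (fun v => ⌊Real.exp h * nm σ X a ω v p q⌋) fun _ => True)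
      (Real.exp (u - (1 - θ) * h))

/-- A piece has information rate at most `x` on the deeper cells. -/
def Df (x : ℝ) (a a' : ℚ≥0) (u : ℝ) : Prop := ∀ ω ∈ X.P.S,
  dn X.P (X.O false a') (X.O true a) ω ≤
    Real.exp (u + x * (X.lv a' - X.lv a)) * dn X.P (X.O false a') (X.O false a) ω

theorem mo_zr (k : Bool) (F : Mt (Fin m) → ℝ) (a : ℚ≥0) : Mo fun _ w => Zr σ X k F a w :=
  fun _ _ _ _ _ b c ω v z => (c ω v z).trans (ex_le (neg_le_neg b))

theorem mo_sb (k : Bool) (L : ℝ) (ok : (Fin m → ℝ) → ℝ → ℝ → Prop) (Q : Fin m → Prop) (a : ℚ≥0) :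
    Mo (Sb σ X k L ok Q a) := fun _ _ _ _ b c d ω hω h e l c₀ f g =>
  (d ω hω h (e.trans c) l c₀ f g).trans (ex_le (by linarith))

theorem mo_hs (p q : Fin m) (k : ℕ) (θ : ℝ) (a : ℚ≥0) : Mo (Hs σ X p q k θ a) :=
  fun _ _ _ _ b c d ω hω h e f => (d ω hω h e (f.trans c)).mono (ex_le (by linarith))

theorem mo_df (x : ℝ) (a a' : ℚ≥0) : Mo fun u _ => Df X x a a' u := fun _ _ _ _ b _ d ω hω =>
  (d ω hω).trans (mul_le_mul_of_nonneg_right (ex_le (by linarith)) (pb_nonneg _ _))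

/-- The same weights seen from the column `q`. -/
def so (q : Fin m) : St m κ := { σ with o := q, la := fun p => σ.la p - σ.la q }

end One

/-! ### Functions of polynomial type -/

section Lp

variable {m : ℕ} {M : ℕ → ℕ} {F G : ℕ → Mt (Fin m) → ℝ}

/-- Bounded and Lipschitz on exponential balls. -/
def Lp (M : ℕ → ℕ) (F : ℕ → Mt (Fin m) → ℝ) : Prop := ∃ C : ℝ, ∀ᶠ n in UF,
  ∀ (N N' : Mt (Fin m)) (δ : ℝ), 0 ≤ δ → (∀ p q, |N p q| ≤ Real.exp (M n)) →
    (∀ p q, |N' p q| ≤ Real.exp (M n)) → (∀ p q, |N' p q - N p q| ≤ δ) →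
    |F n N| ≤ Real.exp (C * M n) ∧ |F n N'| ≤ Real.exp (C * M n) ∧
      |F n N' - F n N| ≤ Real.exp (C * M n) * δ

theorem lp_ent (p q : Fin m) : Lp M fun _ N => N p q :=
  ⟨1, .of_forall fun n N N' δ a b c d => by
    rw [one_mul]
    exact ⟨b p q, c p q, (d p q).trans (le_mul_of_one_le_left a (Real.one_le_exp (by positivity)))⟩⟩

theorem lp_ob {a : ℕ → ℝ} (h : OB M a) : Lp M fun n (_ : Mt (Fin m)) => a n :=
  ⟨1, (h 1 one_pos).mono fun n e N N' δ b _ _ _ => by
    rw [G39.dl_inv] at e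
    exact ⟨e, e, by rw [sub_self, abs_zero]; positivity⟩⟩

theorem two_le (hM : Big M) : ∀ᶠ n in UF, (2 : ℝ) ≤ Real.exp (M n) :=
  (hM.ev 1).mono fun n a => by linarith [Real.add_one_le_exp (M n : ℝ)]

theorem ex_mx (A B : ℝ) (k : ℕ) : Real.exp (A * k) ≤ Real.exp (max A B * k) ∧
    Real.exp (B * k) ≤ Real.exp (max A B * k) :=
  ⟨ex_le (mul_le_mul_of_nonneg_right (le_max_left _ _) (Nat.cast_nonneg _)),
    ex_le (mul_le_mul_of_nonneg_right (le_max_right _ _) (Nat.cast_nonneg _))⟩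

theorem Lp.add (hM : Big M) (h : Lp M F) (g : Lp M G) : Lp M fun n N => F n N + G n N := by
  obtain ⟨A, h⟩ := h
  obtain ⟨B, g⟩ := g
  refine ⟨1 + max A B, ?_⟩
  filter_upwards [h, g, two_le hM] with n x y z N N' δ a b c d
  obtain ⟨x1, x2, x3⟩ := x N N' δ a b c d
  obtain ⟨y1, y2, y3⟩ := y N N' δ a b c d
  obtain ⟨e1, e2⟩ := ex_mx A B (M n)
  have e : 2 * Real.exp (max A B * M n) ≤ Real.exp ((1 + max A B) * M n) := by
    rw [add_mul, one_mul, Real.exp_add]
    exact mul_le_mul_of_nonneg_right z (Real.exp_pos _).le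
  refine ⟨(abs_add_le _ _).trans (by linarith), (abs_add_le _ _).trans (by linarith), ?_⟩
  rw [add_sub_add_comm]
  refine (abs_add_le _ _).trans ?_
  nlinarith [mul_le_mul_of_nonneg_right e a, mul_le_mul_of_nonneg_right e1 a,
    mul_le_mul_of_nonneg_right e2 a]

theorem Lp.mul (hM : Big M) (h : Lp M F) (g : Lp M G) : Lp M fun n N => F n N * G n N := by
  obtain ⟨A, h⟩ := h
  obtain ⟨B, g⟩ := g
  refine ⟨1 + (A + B), ?_⟩
  filter_upwards [h, g, two_le hM] with n x y z N N' δ a b c d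
  obtain ⟨x1, x2, x3⟩ := x N N' δ a b c d
  obtain ⟨y1, y2, y3⟩ := y N N' δ a b c d
  have p := (Real.exp_pos (A * M n)).le
  have q := (Real.exp_pos (B * M n)).le
  have e : 2 * (Real.exp (A * M n) * Real.exp (B * M n)) ≤ Real.exp ((1 + (A + B)) * M n) := by
    rw [add_mul, one_mul, Real.exp_add, add_mul, Real.exp_add]
    exact mul_le_mul_of_nonneg_right z (by positivity)
  have r := mul_nonneg p q
  refine ⟨?_, ?_, ?_⟩
  · rw [abs_mul]; linarith [mul_le_mul x1 y1 (abs_nonneg _) p]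
  · rw [abs_mul]; linarith [mul_le_mul x2 y2 (abs_nonneg _) p]
  rw [show F n N' * G n N' - F n N * G n N =
    (F n N' - F n N) * G n N' + F n N * (G n N' - G n N) by ring]
  refine (abs_add_le _ _).trans ?_
  rw [abs_mul, abs_mul]
  nlinarith [mul_le_mul x3 y2 (abs_nonneg _) (mul_nonneg p a),
    mul_le_mul x1 y3 (abs_nonneg _) p, mul_le_mul_of_nonneg_right e a]

theorem Lp.neg (h : Lp M F) : Lp M fun n N => -F n N :=
  h.imp fun _ h => h.mono fun n x N N' δ a b c d => by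
    obtain ⟨x1, x2, x3⟩ := x N N' δ a b c d
    rw [abs_neg, abs_neg, neg_sub_neg, abs_sub_comm]
    exact ⟨x1, x2, x3⟩

theorem Lp.sub (hM : Big M) (h : Lp M F) (g : Lp M G) : Lp M fun n N => F n N - G n N := by
  simpa only [sub_eq_add_neg] using h.add hM g.neg

theorem lp_sum (hM : Big M) {J : Type} (s : Finset J) {F : J → ℕ → Mt (Fin m) → ℝ}
    (h : ∀ i ∈ s, Lp M (F i)) : Lp M fun n N => ∑ i ∈ s, F i n N := by
  classical
  induction s using Finset.induction_on with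
  | empty => simpa using lp_ob (m := m) (GA.ob_const hM 0)
  | insert a s ha ih =>
    simp only [Finset.sum_insert ha]
    exact (h a (Finset.mem_insert_self _ _)).add hM (ih fun i hi => h i (Finset.mem_insert_of_mem hi))

end Lp

section Seq

variable {m : ℕ} {κ : Type} [Fintype κ] {Ω Λ : ℕ → Type} {σ : St m κ} {S : Bool → Finset κ}
  {X : ∀ n, Dt m κ (Ω n) (Λ n)} {G : ∀ n, Ω n → Prop} {j : ∀ n, Ω n → Mt (Fin m)}
  {w : ∀ n, Ω n → ℝ}

open LCPertA in
/-- Size and perturbation of the increments. -/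
theorem nm_est (hX : LI σ S X) (hj : Cls σ X (sP X) j) (k : Bool) (a : ℚ≥0) {c : ℝ} (hc : 0 < c)
    (T : ℝ) : ∀ᶠ n in UF, ∀ ω v, At (X n) k a ω v → ∀ p q,
      |nm σ (X n) a ω v p q| ≤ Real.exp (c * (X n).M) ∧
      |nm σ ((X n).chg (X n).P (j n)) a ω v p q - nm σ (X n) a ω v p q| ≤ dl (sM X) T n := by
  have h := lu_iff.1 hX
  have key : ∀ q, ∀ᶠ n in UF, ∀ ω v, At (X n) k a ω v → ∀ p,
      |nm σ (X n) a ω v p q| ≤ Real.exp (c * (X n).M) ∧
      |nm σ ((X n).chg (X n).P (j n)) a ω v p q - nm σ (X n) a ω v p q| ≤ dl (sM X) T n := by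
    intro q
    obtain ⟨K, hK, h1⟩ := lcPs2 m κ (so σ q) (sub_self _)
    have k0 : (0 : ℝ) < K := by exact_mod_cast hK
    have e : 0 < c / (2 * K) := by positivity
    filter_upwards [h.inc k a _ e 0, h.bd _ e 0, h.fr, pw h.big hK hc,
      cls_lv h hj a (|T| + c)] with n i b f r s ω v z p
    have t := h1 (X n).B (X n).c ((X n).lv a) _ (Real.exp (-((|T| + c) * (X n).M))) _ _
      (j n ω) (j n v) f.1 (fun a p p' x => by have := f.2.1 a p p' x; simp only [so]; linarith) b.1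
      (Real.one_le_exp (by positivity)) (Real.exp_pos _).le
      (Real.exp_le_one_iff.2 (neg_nonpos.2 (by positivity))) (f.2.2 ω z.1)
      (of_rd (by simp) (Real.exp_pos _).le (i ω z.1 v z.2.1 z.2.2))
    refine ⟨((norm_le_pi_norm _ p).trans t.1).trans r,
      ((norm_le_pi_norm _ p).trans (t.2 (s ω z.1) (s v z.2.1))).trans
        ((mul_le_mul_of_nonneg_right r (Real.exp_pos _).le).trans ?_)⟩
    unfold dl
    rw [← Real.exp_add]
    refine ex_le ?_
    have := mul_le_mul_of_nonneg_right (le_abs_self T) (Nat.cast_nonneg (α := ℝ) (X n).M)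
    dsimp only [sM]
    linarith
  exact (eventually_all.2 key).mono fun n x ω v z p q => x q ω v z p

theorem nm_bd (hX : LI σ S X) (k : Bool) (a : ℚ≥0) {c : ℝ} (hc : 0 < c) :
    ∀ᶠ n in UF, ∀ ω v, At (X n) k a ω v → ∀ p q, |nm σ (X n) a ω v p q| ≤ Real.exp (c * (X n).M) :=
  (nm_est hX (cls_rfl hX) k a hc 0).mono fun _ x ω v z p q => (x ω v z p q).1

theorem zr_mv (hX : LI σ S X) (h : Mv σ X G j w) {k : Bool} {F : ℕ → Mt (Fin m) → ℝ}
    (hF : Lp (sM X) F) {a : ℚ≥0} (e : Au (sM X) fun n _ w => Zr σ (X n) k (F n) a w) :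
    Au (sM X) fun n _ w => Zr σ ((X n).chg (cE (X n).P (G n)) (j n)) k (F n) a w := by
  intro c hc T
  obtain ⟨C, hF⟩ := hF
  filter_upwards [hF, e c hc (T + 1), nm_est hX h.cls k a one_half_pos (|C + T| + 1),
    two_le hX.big, hX.big.ev 2] with n f x y t u ω v z
  have z' : At (X n) k a ω v := ⟨cE_sub z.1, cE_sub z.2.1, z.2.2⟩
  have m0 : (0 : ℝ) ≤ (X n).M := Nat.cast_nonneg _
  have d1 : dl (sM X) (|C + T| + 1) n ≤ 1 :=
    Real.exp_le_one_iff.2 (neg_nonpos.2 (by positivity))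
  have e1 : Real.exp (1 / 2 * (X n).M) + 1 ≤ Real.exp (X n).M := by
    have a1 : (2 : ℝ) ≤ Real.exp (1 / 2 * (X n).M) := by
      linarith [Real.add_one_le_exp (1 / 2 * (X n).M : ℝ), show (2 : ℝ) ≤ (X n).M from u]
    have a2 : Real.exp (X n).M = Real.exp (1 / 2 * (X n).M) * Real.exp (1 / 2 * (X n).M) := by
      rw [← Real.exp_add]; congr 1; ring
    nlinarith
  have g := (f _ (nm σ ((X n).chg (X n).P (j n)) a ω v) _ (G39.dl_pos _ _ _).le
    (fun p q => (y ω v z' p q).1.trans (by simp only [sM]; linarith))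
    (fun p q => by
      have := abs_sub_abs_le_abs_sub (nm σ ((X n).chg (X n).P (j n)) a ω v p q)
        (nm σ (X n) a ω v p q)
      simp only [sM]
      linarith [(y ω v z' p q).1, (y ω v z' p q).2]) fun p q => (y ω v z' p q).2).2.2
  have g1 := x ω v z'
  have g2 : Real.exp (C * (X n).M) * dl (sM X) (|C + T| + 1) n ≤ Real.exp (-((T + 1) * (X n).M)) := by
    unfold dl
    rw [← Real.exp_add]
    refine ex_le ?_
    have := mul_le_mul_of_nonneg_right (le_abs_self (C + T)) m0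
    dsimp only [sM]
    linarith
  have g3 : 2 * Real.exp (-((T + 1) * (X n).M)) ≤ Real.exp (-(T * (X n).M)) := by
    rw [show -(T * ((X n).M : ℝ)) = (X n).M + -((T + 1) * (X n).M) by ring, Real.exp_add]
    exact mul_le_mul_of_nonneg_right t (Real.exp_pos _).le
  have g4 := abs_sub_abs_le_abs_sub (F n (nm σ ((X n).chg (X n).P (j n)) a ω v))
    (F n (nm σ (X n) a ω v))
  show |F n (nm σ ((X n).chg (X n).P (j n)) a ω v)| ≤ Real.exp (-(T * (X n).M))
  simp only [sM] at g g1 g2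
  linarith

theorem sb_mv (hX : LI σ S X) (h : Mv σ X G j w) {k : Bool} {L : ℝ} (hL : 1 ≤ L)
    {ok : ℕ → (Fin m → ℝ) → ℝ → ℝ → Prop}
    (hk : ∀ n l c θ θ', θ ≤ θ' → ok n l c θ → ok n l c θ') {Q : Fin m → Prop} {a : ℚ≥0}
    (e : Au (sM X) fun n => Sb σ (X n) k L (ok n) Q a) :
    Au (sM X) fun n => Sb σ ((X n).chg (cE (X n).P (G n)) (j n)) k L (ok n) Q a := by
  intro c hc T
  have c3 : 0 < c / 3 := by positivity
  have dom : ∀ᶠ n in UF, ∀ ω ∈ (cE (X n).P (G n)).S, ∀ F : Mt (Fin m) → Prop,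
      pb (((X n).chg (cE (X n).P (G n)) (j n)).fb k a ω) (fun v => F (j n v)) ≤
        Real.exp (c / 3 * (X n).M) * pb ((X n).fb k a ω) fun v => F (j n v) := by
    cases k
    · exact (h.cell a a c3).mono fun n x ω hω F => x ω hω _ fun u _ v _ e => by
        rw [(Prod.mk.inj e).1]
    · exact (h.piece hX a c3).mono fun n x ω hω F => x ω hω _
  filter_upwards [dom, e _ c3 T, nm_est hX h.cls k a one_pos T, hX.big.ev (3 / c)]
    with n d x y u ω hω t ht l c₀ l1 l2
  have o := cE_sub hω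
  have two : 2 * Real.exp (-t) ≤ Real.exp (-(t - 1)) := by
    rw [show -(t - 1) = 1 + -t by ring, Real.exp_add]
    exact mul_le_mul_of_nonneg_right (by linarith [Real.add_one_le_exp (1 : ℝ)]) (Real.exp_pos _).le
  have e0 := Real.exp_pos (-t)
  refine (d ω hω fun Y => ∀ q, Q q → |∑ p, l p * (Real.exp ((σ.la p - σ.la q) * (X n).lv a) *
    ((j n ω)⁻¹ * Y) p q) - c₀| ≤ Real.exp (-t)).trans ((mul_le_mul_of_nonneg_left
      ((pb_mono fun v hv g q hq => ?_).trans (x ω o (t - 1) (by linarith) l c₀ l1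
        (hk n l c₀ _ _ (by linarith) l2))) (Real.exp_pos _).le).trans ?_)
  · have z := (mem_fb o).1 hv
    have b : |∑ p, l p * nm σ ((X n).chg (X n).P (j n)) a ω v p q -
        ∑ p, l p * nm σ (X n) a ω v p q| ≤ Real.exp (-t) := by
      rw [← Finset.sum_sub_distrib]
      refine (Finset.abs_sum_le_sum_abs _ _).trans ((Finset.sum_le_sum fun p _ => ?_).trans
        (by rw [← Finset.sum_mul, l1, one_mul] :
          ∑ p, |l p| * Real.exp (-t) = Real.exp (-t)).le)
      rw [← mul_sub, abs_mul]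
      exact mul_le_mul_of_nonneg_left ((y ω v z p q).2.trans (ex_le (neg_le_neg ht))) (abs_nonneg _)
    have g' : |∑ p, l p * nm σ ((X n).chg (X n).P (j n)) a ω v p q - c₀| ≤ Real.exp (-t) := g q hq
    rw [abs_le] at b g' ⊢
    constructor <;> linarith [b.1, b.2, g'.1, g'.2]
  · rw [← Real.exp_add]
    refine ex_le ?_
    rw [div_le_iff₀' hc] at u
    have : 1 / L ≤ 1 := div_le_one_of_le₀ hL (by linarith)
    rw [sub_div]
    simp only [sM] at u ⊢
    linarith

theorem hs_mv (hX : LI σ S X) (h : Mv σ X G j w) {p q : Fin m} {k : ℕ} {θ : ℝ} {a : ℚ≥0}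
    (e : Au (sM X) fun n => Hs σ (X n) p q k θ a) :
    Au (sM X) fun n => Hs σ ((X n).chg (cE (X n).P (G n)) (j n)) p q k θ a := by
  intro c hc T
  have c3 : 0 < c / 3 := by positivity
  filter_upwards [h.piece hX a (show 0 < c / 3 / 2 ^ k by positivity), e _ c3 T,
    nm_est hX h.cls true a one_pos T, big_exp hX.big (2 * 2 ^ k * 2 * 1 + 1) c3]
    with n d x y u ω hω t t0 ht
  have o := cE_sub hω
  have a1 := En.aff k (u := fun v => ⌊Real.exp t * nm σ ((X n).chg (X n).P (j n)) a ω v p q⌋)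
    (c := 1) (b := 0) (L := 2) (L' := 1) zero_le_two zero_le_one (by simp) (fun v hv _ => by
      have b := mul_le_mul_of_nonneg_left ((y ω v ((mem_fb o).1 hv) p q).2.trans
        (ex_le (neg_le_neg ht))) (Real.exp_pos t).le
      rw [← Real.exp_add, add_neg_cancel, Real.exp_zero, ← abs_of_pos (Real.exp_pos t), ← abs_mul,
        mul_sub, abs_le] at b
      rw [abs_le]
      constructor <;> linarith [b.1, b.2,
        Int.floor_le (Real.exp t * nm σ ((X n).chg (X n).P (j n)) a ω v p q),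
        Int.lt_floor_add_one (Real.exp t * nm σ ((X n).chg (X n).P (j n)) a ω v p q),
        Int.floor_le (Real.exp t * nm σ (X n) a ω v p q),
        Int.lt_floor_add_one (Real.exp t * nm σ (X n) a ω v p q)]) (x ω o t t0 ht)
  refine (a1.le (nn_sl _ _ _) (nn_sl _ _ _) (Real.exp_pos (c / 3 / 2 ^ k * (X n).M)).le
    fun y => ?_).mono ?_
  · rw [sl_coeff, sl_coeff]
    exact d ω hω _
  · rw [exp_pow]
    refine (mul_le_mul_of_nonneg_left (mul_le_mul_of_nonneg_right u (Real.exp_pos _).le)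
      (Real.exp_pos _).le).trans ?_
    rw [← Real.exp_add, ← Real.exp_add]
    exact ex_le (by simp only [sM]; linarith)

theorem df_mv (hX : LI σ S X) (h : Mv σ X G j w) {x : ℝ} {a a' : ℚ≥0} (ha : a ≤ a')
    (e : Au (sM X) fun n u _ => Df (X n) x a a' u) :
    Au (sM X) fun n u _ => Df ((X n).chg (cE (X n).P (G n)) (j n)) x a a' u := by
  intro c hc T
  have c3 : 0 < c / 3 := by positivity
  filter_upwards [h.piece hX a c3, h.low hX ha c3, e _ c3 T] with n d l y ω hω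
  refine (d ω hω _).trans ((mul_le_mul_of_nonneg_left ((y ω (cE_sub hω)).trans
    (mul_le_mul_of_nonneg_left (l ω hω) (Real.exp_pos _).le)) (Real.exp_pos _).le).trans ?_)
  rw [← mul_assoc, ← mul_assoc, ← Real.exp_add, ← Real.exp_add]
  exact mul_le_mul_of_nonneg_right (ex_le (by simp only [sM]; linarith)) (pb_nonneg _ _)

end Seq

end Pool.Agent.MP_5168f5_an.QA.P7
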