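import Pool.Agent.MP_5168f5_an.QA.P7Ea
import Pool.Agent.MP_5168f5_an.QA.P7Nm
import Pool.Agent.MP_5168f5_an.AN.PCn1

/-! The Kakeya maximal conjecture: from the increments to the residue rings. -/

namespace Pool.Agent.MP_5168f5_an.QA.P7E

open H17F hiding co
open H19 H17S R4 Filter AN AN.LC AN.LP AN.G39 AN.GA MvPolynomial P7 TrivSqZeroExt
open N6 (At co IND mem_fb)

/-- Constant sequences. -/
def cs {M : ℕ → ℕ} (hM : Big M) : ℝ →+* OO hM :=
  (Pi.constRingHom ℕ ℝ).codRestrict _ fun x => ob_const hM x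

theorem ex_max {T : ℕ → Type} (s : ∀ n, Finset (T n)) (h : ∀ n, (s n).Nonempty)
    (g : ∀ n, T n → ℝ) : ∃ y : ∀ n, T n, ∀ n, y n ∈ s n ∧ ∀ x ∈ s n, |g n x| ≤ |g n (y n)| := by
  choose y hy using fun n => (s n).exists_max_image (fun x => |g n x|) (h n)
  exact ⟨y, hy⟩

theorem ne_S {Ω : Type} (P : FP Ω) : P.S.Nonempty :=
  let ⟨v, h, _⟩ := ex_of_pb (P := P) (E := fun _ => True) (by rw [pb_true]; exact one_pos)
  ⟨v, h⟩

theorem ex_xp {m : ℕ} {κ : Type} [Fintype κ] {Φ : H61Z.Filt (Mt (Fin m))} {B : κ → Mt (Fin m)}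
    {c : κ → κ → κ → ℝ} (h : IsFr Φ B c) (s : κ → ℝ) :
    ex B s = xp (RingHom.id ℝ) (Φ.N + 2) (vc B s) := by
  rw [ex, IsNilpotent.exp_eq_sum (Φ.pow_zero2 (h.mem s))]
  refine Finset.sum_congr rfl fun i _ => ?_
  ext p q
  simp [Rat.smul_def, vec, vc]

theorem xp_hom {ι κ R A : Type} [Fintype ι] [DecidableEq ι] [Fintype κ] [CommRing R] [CommRing A]
    (f : R →+* A) {φ : ℝ →+* R} {ψ : ℝ →+* A} {B : κ → Matrix ι ι R} {B' : κ → Matrix ι ι A}
    {s : κ → R} {s' : κ → A} (h1 : ∀ r, f (φ r) = ψ r) (h2 : ∀ a p q, f (B a p q) = B' a p q)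
    (h3 : ∀ a, f (s a) = s' a) (N : ℕ) (p q : ι) :
    f (xp φ N (vc B s) p q) = xp ψ N (vc B' s') p q := by
  have := congrFun (congrFun (xp_map f φ N (vc B s)) p) q
  rw [vc_map, show f.comp φ = ψ from RingHom.ext h1, funext h3,
    show (fun a => (B a).map f) = B' from funext fun a => Matrix.ext (h2 a)] at this
  exact this

theorem xp_sq {ι R : Type} [Fintype ι] [DecidableEq ι] [CommRing R] (φ : ℝ →+* R) (N : ℕ)
    {Y : Matrix ι ι R} (h : Y * Y = 0) : xp φ (N + 2) Y = 1 + Y := by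
  simp [xp, Finset.sum_range_succ', pow_succ, mul_assoc, h, add_comm]

theorem snd_aeval {σ R : Type} [DecidableEq σ] [CommRing R] (a : σ) (F : MvPolynomial σ R) :
    (aeval (fun b => (inr (if b = a then 1 else 0) : DualNumber R)) F).snd =
      coeff (Finsupp.single a 1) F ∧
    (aeval (fun b => (inr (if b = a then 1 else 0) : DualNumber R)) F).fst = coeff 0 F := by
  induction F using MvPolynomial.induction_on with
  | C r => simp [coeff_C, (Finsupp.single_ne_zero.2 one_ne_zero).symm, algebraMap_eq_inl]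
  | add p q hp hq => simp only [map_add, snd_add, fst_add, coeff_add, hp, hq, and_self]
  | mul_X p i hp =>
    simp only [map_mul, aeval_X, snd_mul, fst_mul, fst_inr, snd_inr, hp.2, coeff_mul_X']
    by_cases e : i = a
    · simp [e]
    · simp [e]

theorem gen_lin {ι κ R : Type} [Fintype ι] [DecidableEq ι] [Fintype κ] [DecidableEq κ] [CommRing R]
    (φ : ℝ →+* R) (B : κ → Matrix ι ι R) (S : Finset κ) (N : ℕ) (G : MvPolynomial (ι × ι) R) :
    ∃ F : MvPolynomial {b // b ∈ S} R, (∀ a (ha : a ∈ S), coeff (Finsupp.single ⟨a, ha⟩ 1) F =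
      (aeval (fun x => (inl ((1 : Matrix ι ι R) x.1 x.2) + inr (B a x.1 x.2) : DualNumber R))
        G).snd) ∧ ∀ (I : Ideal R) (s : κ → R), (∀ b, b ∉ S → s b ∈ I) →
      eval (fun y => xp φ (N + 2) (vc B s) y.1 y.2) G ∈ I → eval (fun b => s b.1) F ∈ I := by
  let x : κ → MvPolynomial {b // b ∈ S} R := fun b =>
    if h : b ∈ S then MvPolynomial.X ⟨b, h⟩ else 0
  let F := aeval (fun y : ι × ι => xp (C.comp φ) (N + 2) (vc (fun b => (B b).map C) x) y.1 y.2) G
  have hom : ∀ (A : Type) [CommRing A] [Algebra R A] (u : {b // b ∈ S} → A),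
      aeval u F = aeval (fun y : ι × ι => xp ((algebraMap R A).comp φ) (N + 2)
        (vc (fun b => (B b).map (algebraMap R A))
          fun b => if h : b ∈ S then u ⟨b, h⟩ else 0) y.1 y.2) G := fun A _ _ u => by
    rw [← AlgHom.comp_apply, comp_aeval]
    congr 2
    funext y
    exact xp_hom (aeval (R := R) u).toRingHom (fun r => by simp) (fun b p q => by simp)
      (fun b => by simp only [x]; split_ifs <;> simp) _ _ _
  refine ⟨F, fun a ha => ?_, fun I s s2 e2 => ?_⟩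
  · have v : ∀ p q, vc (fun b => (B b).map (algebraMap R (DualNumber R))) (fun b =>
        if h : b ∈ S then (inr (if (⟨b, h⟩ : {b // b ∈ S}) = ⟨a, ha⟩ then 1 else 0) :
          DualNumber R) else 0) p q = inr (B a p q) := fun p q => by
      rw [vc_apply, Finset.sum_eq_single a (fun b _ u => by simp [u]) (by simp)]
      ext <;> simp [ha, algebraMap_eq_inl]
    rw [← (snd_aeval ⟨a, ha⟩ F).1, hom, xp_sq _ _ (Matrix.ext fun p q => by
      simp only [Matrix.mul_apply, v, inr_mul_inr, Finset.sum_const_zero, Matrix.zero_apply])]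
    congr 3
    funext y
    rw [Matrix.add_apply, v, Matrix.one_apply, Matrix.one_apply]
    split_ifs <;> simp
  let π := Ideal.Quotient.mkₐ R I
  rw [← Ideal.Quotient.eq_zero_iff_mem] at e2 ⊢
  rw [← e2, ← coe_aeval_eq_eval, ← coe_aeval_eq_eval]
  show (π.comp (aeval _)) F = (π.comp (aeval _)) G
  rw [comp_aeval, comp_aeval, hom]
  congr 2
  funext y
  refine (xp_hom π.toRingHom (fun _ => rfl) (fun _ _ _ => rfl) (fun b => ?_) _ _ _).symm
  split_ifs with u
  · rfl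
  · exact Ideal.Quotient.eq_zero_iff_mem.2 (s2 b u)

variable {m : ℕ} {κ : Type} [Fintype κ] [DecidableEq κ] {Ω Λ : ℕ → Type} [Ex m κ Ω Λ] {σ : St m κ}
  {S : Bool → Finset κ} {X : ∀ n, Dt m κ (Ω n) (Λ n)} (hX : LP.L σ S X)

/-- The basis over the ring of sequences. -/
def Bo (a : κ) : Matrix (Fin m) (Fin m) (OO hX.big) := Matrix.of fun p q => ⟨_, LP.ob_B hX a p q⟩

omit [DecidableEq κ] in
/-- A sequence of pairs in atoms of level zero, over the ring of sequences. -/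
theorem pair (k : Bool) (ω v : ∀ n, Ω n) (h : ∀ᶠ n in UF, At (X n) k 0 (ω n) (v n)) :
    ∃ s : κ → OO hX.big, (∀ b n, (s b).1 n = co σ (X n) 0 (ω n) (v n) b) ∧
      (∀ b, b ∉ S k → s b ∈ ng hX.big) ∧ ∀ᶠ n in UF,
        (xp (cs hX.big) (σ.Φ.N + 2) (vc (Bo hX) s)).map (tm hX.big n) =
          nm σ (X n) 0 (ω n) (v n) := by
  obtain ⟨L, hL, e⟩ := N6.atom_co hX.big hX.fr hX.lo (hX.inc k 0)
  refine ⟨fun b => ⟨_, ob_of_le hL (((e 0).and h).mono fun n x => (x.1 _ _ x.2).2.2.1 b)⟩,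
    fun _ _ => rfl, fun b u T => ((e T).and h).mono fun n x => (x.1 _ _ x.2).2.2.2 b u, ?_⟩
  filter_upwards [e 0, h, hX.fr] with n x y z
  rw [xp_map, vc_map]
  refine Eq.trans (ex_xp z.1 (co σ (X n) 0 (ω n) (v n))).symm ?_
  ext p q
  rw [nm, (x _ _ y).1, Matrix.nonsing_inv_mul_cancel_left _ _
    ((Matrix.isUnit_iff_isUnit_det _).1 (z.2.2 _ y.1)), N6.Bl, N6.conj z.1 (N6.gr_of z),
    ← mul_assoc, ← Real.exp_add, add_neg_cancel, Real.exp_zero, one_mul]

/-- The linear part of a polynomial condition on the increments. -/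
theorem lin (hI : IND σ S X) {k : Bool} (G : MvPolynomial (Fin m × Fin m) (OO hX.big))
    (hz : Au (sM X) fun n _ w =>
      Zr σ (X n) k (fun N => eval (fun x => N x.1 x.2) (map (tm hX.big n) G)) 0 w)
    {a : κ} (ha : a ∈ S k) :
    (aeval (fun x => (inl ((1 : Matrix _ _ (OO hX.big)) x.1 x.2) + inr (Bo hX a x.1 x.2) :
      DualNumber (OO hX.big))) G).snd ∈ ng hX.big := by
  obtain ⟨F, f1, f2⟩ := gen_lin (cs hX.big) (Bo hX) (S k) σ.Φ.N G
  rw [← f1 a ha]
  obtain ⟨r, hr⟩ := N6.ex_rp X k 0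
  obtain ⟨ω, hω⟩ := ex_max (fun n => (X n).P.S) (fun n => ne_S _) fun n ω =>
    eval (fun b => co σ (X n) 0 (r n ((X n).O k 0 ω)) ω b.1) (map (tm hX.big n) F)
  have at0 : ∀ᶠ n in UF, At (X n) k 0 (r n ((X n).O k 0 (ω n))) (ω n) :=
    hr.mono fun n u => ⟨(u _ (hω n).1).1, (hω n).1, (u _ (hω n).1).2⟩
  obtain ⟨s, s1, s2, s3⟩ := pair hX k _ ω at0
  have e2 : eval (fun y : Fin m × Fin m =>
      xp (cs hX.big) (σ.Φ.N + 2) (vc (Bo hX) s) y.1 y.2) G ∈ ng hX.big := fun T => by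
    filter_upwards [hz 1 one_pos T, s3, at0] with n u v w
    have := u _ _ w
    rw [← v] at this
    rwa [← tm_apply, MvPolynomial.map_eval]
  have e3 := f2 _ s s2 e2
  obtain ⟨c, c0, hc⟩ := (hI k 0 F.totalDegree 1 r (fun n _ => map (tm hX.big n) F) one_pos hr
    fun n _ => deg_map _ _).pos
  intro T
  filter_upwards [hc, e3 (T + 1)] with n u v
  obtain ⟨w, w1, w2⟩ := ex_of_pb (c0.trans_le u)
  have k1 := (hω n).2 w w1
  rw [← tm_apply, MvPolynomial.map_eval, dl_add, mul_comm] at v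
  have k2 := (w2.trans k1).trans (le_of_eq_of_le (by
    congr 3; funext b; exact (s1 b.1 n).symm) v)
  refine le_trans ?_ (le_of_mul_le_mul_left k2 (dl_pos _ _ _))
  rw [← tm_apply, ← coeff_map]
  exact Pk.PCn1A.coe _ _

omit [DecidableEq κ] in
/-- A form that is power small on all increments and on the brackets is power small. -/
theorem small {k : Bool} {L : ℝ} (hL : 0 < L) {Q : Fin m → Prop} {J : Type} [Finite J]
    {f : Fin m → OO hX.big} {g : J → OO hX.big} (hg : ∀ j, g j ∈ mm hX.big)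
    (hq : ∀ q, Q q → ∀ s : κ → OO hX.big, (∀ b, b ∉ S k → s b ∈ ng hX.big) →
      ∑ p, f p * xp (cs hX.big) (σ.Φ.N + 2) (vc (Bo hX) s) p q ∈ mm hX.big)
    (H : Au (sM X) fun n u w => ∀ h ≤ w, ∀ x : ℝ, ∑ p, |x * (f p).1 n| = 1 →
      (∀ j, |x * (g j).1 n| ≤ Real.exp (-h)) → (∀ v v', At (X n) k 0 v v' → ∀ q, Q q →
        |∑ p, x * (f p).1 n * nm σ (X n) 0 v v' p q| ≤ Real.exp (-h)) → 1 ≤ Real.exp (u - h / L))
    (p : Fin m) : f p ∈ mm hX.big := by
  classical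
  by_contra hp
  have un : ∀ q, ∃ c : ℝ, 0 < c ∧ ∀ᶠ n in UF, Q q → ∀ v v', At (X n) k 0 v v' →
      |∑ p, (f p).1 n * nm σ (X n) 0 v v' p q| ≤ dl (sM X) c n := fun q => by
    by_cases z : Q q
    swap
    · exact ⟨1, one_pos, .of_forall fun n u => absurd u z⟩
    have me : ∀ {n} {y : Ω n × Ω n}, y ∈ ((X n).P.S ×ˢ (X n).P.S).filter
        (fun y => (X n).O k 0 y.1 = (X n).O k 0 y.2) ↔ At (X n) k 0 y.1 y.2 := by
      simp [At, and_assoc]
    obtain ⟨v, hv⟩ := ex_max _ (fun n => let ⟨v, u⟩ := ne_S (X n).P; ⟨(v, v), me.2 ⟨u, u, rfl⟩⟩)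
      fun n v => ∑ p, (f p).1 n * nm σ (X n) 0 v.1 v.2 p q
    obtain ⟨s, -, s2, s3⟩ := pair hX k _ _ (.of_forall fun n => me.1 (hv n).1)
    obtain ⟨c, c0, hc⟩ := hq q z s s2
    refine ⟨c, c0, ?_⟩
    filter_upwards [hc, s3] with n x y _ u u' w
    refine ((hv n).2 (u, u') (me.2 w)).trans (le_of_eq_of_le ?_ x)
    rw [← y, ← tm_apply, map_sum]
    simp only [map_mul, tm_apply, Matrix.map_apply]
  choose c c0 hc using un
  choose c' c0' hc' using hg
  have : Nonempty (Fin m ⊕ J) := ⟨.inl p⟩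
  obtain ⟨q, hd⟩ := Finite.exists_min (Sum.elim c c')
  have d0 : 0 < Sum.elim c c' q := by cases q; exacts [c0 _, c0' _]
  generalize Sum.elim c c' q = d at hd d0
  obtain ⟨n, x1, x2, x3, x4, x5⟩ := ((eventually_all.2 hc).and ((eventually_all.2 hc').and
    ((not_mm hp (half_pos d0)).and ((H (d / 4 / L) (by positivity) (d / 2)).and
      (hX.big.ev 1))))).exists
  have k0 : dl (sM X) (d / 2) n < ∑ p, |(f p).1 n| :=
    x3.trans_le (Finset.single_le_sum (f := fun p => |(f p).1 n|) (fun _ _ => abs_nonneg _)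
      (Finset.mem_univ p))
  have k1 := (dl_pos _ _ _).trans k0
  have k2 : ∀ y e, d ≤ e → |y| ≤ dl (sM X) e n →
      |(∑ p, |(f p).1 n|)⁻¹ * y| ≤ dl (sM X) (d / 2) n := fun y e u v => by
    rw [abs_mul, abs_of_pos (inv_pos.2 k1), inv_mul_le_iff₀ k1]
    exact (v.trans (dl_anti _ u n)).trans ((dl_half _ d n).trans_le
      (mul_le_mul_of_nonneg_right k0.le (dl_pos _ _ _).le))
  have k3 := x4 _ le_rfl (∑ p, |(f p).1 n|)⁻¹
    (by simp only [abs_mul, abs_of_pos (inv_pos.2 k1), ← Finset.mul_sum, inv_mul_cancel₀ k1.ne'])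
    (fun j => k2 _ _ (hd (.inr j)) (x2 j)) fun v v' u q w => by
      simp only [mul_assoc, ← Finset.mul_sum]
      exact k2 _ _ (hd (.inl q)) (x1 q w v v' u)
  have m0 : (1 : ℝ) ≤ (X n).M := x5
  have : d / 4 / L * (X n).M - d / 2 * (X n).M / L < 0 := by
    rw [div_mul_eq_mul_div, ← sub_div]
    exact div_neg_of_neg_of_pos (by nlinarith) hL
  exact (Real.exp_lt_one_iff.2 this).not_ge k3

end Pool.Agent.MP_5168f5_an.QA.P7E
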