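import Pool.Agent.MP_5168f5_an.QA.P7Eb
import Pool.Agent.MP_5168f5_an.QA.P7Emp

/-! The Kakeya maximal conjecture: the positions of a minimal member of the marked class. -/

namespace Pool.Agent.MP_5168f5_an.QA.P7E

open H17F hiding co
open H19 H17S R4 Filter AN AN.LC AN.LP AN.G39 AN.GA MvPolynomial P7 TrivSqZeroExt
open N6 (At co IND mem_fb)

theorem der_of {ι R : Type} [Fintype ι] [DecidableEq ι] [CommRing R] {cE : ι → ι → ι → R}
    {Y : Matrix ι ι R} (h : ∀ p r q, cm Y (rho cE (Pi.single p 1)) r q = rho cE (fun s => Y s p) r q) :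
    Der cE Y := fun y => by
  ext r q
  have e : cm Y (rho cE y) r q = ∑ p, y p * cm Y (rho cE (Pi.single p 1)) r q := by
    simp only [cm, Matrix.sub_apply, Matrix.mul_apply, rho_single, mul_sub, Finset.sum_sub_distrib,
      Finset.mul_sum]
    simp only [rho_apply, Finset.mul_sum, Finset.sum_mul]
    congr 1 <;> rw [Finset.sum_comm] <;>
      exact Finset.sum_congr rfl fun _ _ => Finset.sum_congr rfl fun _ _ => by ring
  simp only [e, h, rho_apply, Matrix.mulVec, dotProduct, Finset.mul_sum, Finset.sum_mul]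
  rw [Finset.sum_comm]
  exact Finset.sum_congr rfl fun _ _ => Finset.sum_congr rfl fun _ _ => by ring

theorem span {m : ℕ} {κ : Type} [Fintype κ] {σ : St m κ} {Ω Λ : Type} {X : Dt m κ Ω Λ}
    (h : X.Fr σ) (wp : ∀ a, 0 < σ.wt a) (hc : Fintype.card κ = Fintype.card (N2.El σ.la))
    (Y : Mt (Fin m)) (hY : ∀ p q, Y p q ≠ 0 → σ.la q < σ.la p) : ∃ t, vec X.B t = Y := by
  let f : (κ → ℝ) →ₗ[ℝ] N2.El σ.la → ℝ :=
    { toFun := fun t e => vec X.B t e.1.1 e.1.2
      map_add' := fun s t => by funext e; simp [vec, add_smul, Finset.sum_add_distrib]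
      map_smul' := fun r t => by
        funext e; simp [vec, Matrix.sum_apply, Finset.mul_sum, mul_assoc] }
  have z : ∀ t p q, ¬σ.la q < σ.la p → vec X.B t p q = 0 := fun t p q u => by
    rw [vec, Matrix.sum_apply]
    refine Finset.sum_eq_zero fun a _ => ?_
    rw [Matrix.smul_apply, show X.B a p q = 0 from not_not.1 fun v =>
      u (by linarith [h.2.1 a p q v, wp a]), smul_zero]
  obtain ⟨t, ht⟩ := (LinearMap.injective_iff_surjective_of_finrank_eq_finrank (f := f)
    (by simpa using hc)).1 (LinearMap.ker_eq_bot.1 (LinearMap.ker_eq_bot'.2 fun t u => h.1.inj t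
      (Matrix.ext fun p q => by
        by_cases v : σ.la q < σ.la p
        exacts [congrFun u ⟨(p, q), v⟩, z t p q v]))) fun e => Y e.1.1 e.1.2
  refine ⟨t, Matrix.ext fun p q => ?_⟩
  by_cases v : σ.la q < σ.la p
  exacts [congrFun ht ⟨(p, q), v⟩, (z t p q v).trans (not_not.1 fun w => v (hY p q w)).symm]

variable {m : ℕ} {κ : Type} [Fintype κ] [DecidableEq κ] {Ω Λ : ℕ → Type} [Ex m κ Ω Λ] {σ : St m κ}
  {S : Bool → Finset κ} {X : ∀ n, Dt m κ (Ω n) (Λ n)}

omit [DecidableEq κ] in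
theorem bd_co (hX : LP.L σ S X) {s : ℕ → κ → ℝ} (Y : Matrix (Fin m) (Fin m) (OO hX.big))
    (h : ∀ᶠ n in UF, vec (X n).B (s n) = Y.map (tm hX.big n)) (a : κ) :
    OB (sM X) (fun n => s n a) ∧ ((∀ p q, Y p q ∈ mm hX.big) → OS (sM X) fun n => s n a) := by
  let A : OO hX.big → OO hX.big := fun x =>
    ⟨fun n => |x.1 n|, ob_congr x.2 (.of_forall fun n => (abs_abs _).le)⟩
  have k : ∀ c : ℝ, 0 < c → ∀ᶠ n in UF,
      |s n a| ≤ |(dl (sM X) c n)⁻¹ * (∑ p, ∑ q, A (Y p q)).1 n| := fun c hc => by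
    filter_upwards [hX.bd c hc, h] with n x y
    refine (x.2 (s n) a).trans (le_of_eq_of_le ?_ (le_abs_self _))
    rw [dl_inv, y, ← tm_apply]
    simp only [map_sum]
    rfl
  have b : ∀ c n, |(dl (sM X) c n)⁻¹| ≤ (dl (sM X) c n)⁻¹ := fun c n =>
    (abs_of_pos (inv_pos.2 (dl_pos _ _ _))).le
  refine ⟨fun c hc => ?_, fun u => ?_⟩
  · filter_upwards [k _ (half_pos hc), (∑ p, ∑ q, A (Y p q)).2 _ (half_pos hc)] with n x y
      using x.trans (mulB (b _ n) y)
  obtain ⟨c, hc, w⟩ : ∑ p, ∑ q, A (Y p q) ∈ mm hX.big :=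
    Ideal.sum_mem _ fun p _ => Ideal.sum_mem _ fun q _ => (u p q).imp fun c v =>
      ⟨v.1, v.2.mono fun n z => (abs_abs _).trans_le z⟩
  exact ⟨c / 2, half_pos hc, ((k _ (half_pos hc)).and w).mono fun n x => x.1.trans (mulS (b _ n) x.2)⟩

open Classical in
/-- One pure position, all other positions are mixed, and their weights are large. -/
theorem fin {μ : Md m} {cE : ℕ → Fin m → Fin m → Fin m → ℝ} {L₀ : ℝ} {t : κ → ℝ} {pos : κ → Prop}
    {Lm : ℕ → κ → Fin m → Fin m → ℝ} (A : Z.LA μ.Pz σ S L₀ t pos Lm X) (hI : IND σ S X)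
    (e : EE μ cE σ X) : ∃ τ', pos τ' ∧ t τ' = σ.wt τ' ∧
      (¬OS (sM X) fun n => (X n).B τ' μ.τ σ.o) ∧
      (∀ a, pos a → a ≠ τ' → 0 < t a ∧ t a < σ.wt a ∧ σ.wt a ≠ σ.la μ.τ) ∧
      ∑ p ∈ (Finset.univ.filter μ.Pz).erase μ.τ, σ.la p ≤
        ∑ a ∈ (Finset.univ.filter pos).erase τ', σ.wt a ∧
      ∀ a r, 0 ≤ t a → r ≠ σ.o → Neg (sM X) fun n => (X n).B a μ.τ r := by
  have hX := A.l
  have hM := hX.big
  have ok := e.ok
  have ce := e.ce 1 one_pos
  let E : Fin m → Fin m → Fin m → OO hX.big := fun p q r =>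
    ⟨fun n => cE n p q r, fun c hc => (e.ce c hc 0).mono fun n x => dl_inv _ c n ▸ x.bd p q r⟩
  let c : κ → κ → κ → OO hX.big := fun a b d => ⟨_, LP.ob_c hX a b d⟩
  have hR : ∀ n p, ∃ s : κ → ℝ, (p = σ.o → s = 0) ∧ ((X n).Fr σ →
      CE μ σ.la σ.o (cE n) (1 * sM X n) (0 * sM X n) → p ≠ σ.o →
        vec (X n).B s = rho (cE n) (Pi.single p 1)) := fun n p => by
    by_cases z : (X n).Fr σ ∧ CE μ σ.la σ.o (cE n) (1 * sM X n) (0 * sM X n) ∧ p ≠ σ.o
    · refine (span z.1 hX.wp e.card (rho (cE n) (Pi.single p 1)) fun r q u => ?_).imp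
        fun s u => ⟨fun v => absurd v z.2.2, fun _ _ _ => u⟩
      rw [rho_single] at u
      linarith [(z.2.1.gr p q r u).1, hX.lp p z.2.2]
    · exact ⟨0, fun _ => rfl, fun x y w => absurd ⟨x, y, w⟩ z⟩
  choose R R0 hR using hR
  have mp : ∀ {A' : Type} [CommRing A'] (f : OO hX.big →+* A') (y : Fin m → OO hX.big),
      (rho E y).map f = rho (fun p q r => f (E p q r)) fun p => f (y p) := fun f y => by
    ext r q; simp [rho_apply]
  have sg : ∀ {A' : Type} [CommRing A'] (f : OO hX.big →+* A') (p : Fin m),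
      (fun q => f ((Pi.single p 1 : Fin m → OO hX.big) q)) = Pi.single p 1 := fun f p => by
    funext q; simp [Pi.single_apply, apply_ite f]
  have hR' : ∀ p, p ≠ σ.o → ∀ᶠ n in UF,
      vec (X n).B (R n p) = (rho E (Pi.single p 1)).map (tm hX.big n) := fun p u => by
    filter_upwards [hX.fr, ce 0] with n x y
    rw [mp, sg]; exact hR n p x y u
  let Ro : Matrix (Fin m) κ (OO hX.big) := Matrix.of fun p a => ⟨fun n => R n p a, by
    by_cases z : p = σ.o
    · exact ob_congr (ob_const hM 0) (.of_forall fun n => by rw [R0 n p z]; rfl)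
    · exact (bd_co hX _ (hR' p z) a).1⟩
  have z0 : ∀ {x : OO hX.big}, Neg (sM X) x.1 → rd hX.big x = 0 := fun u => rd_eq.2 u.os
  have z1 : ∀ {x y : OO hX.big}, (∀ᶠ n in UF, tm hX.big n x = tm hX.big n y) →
      rd hX.big x = rd hX.big y := fun {x y} u => by
    rw [← sub_eq_zero, ← map_sub]
    exact rd_eq.2 (mm_of_ev (u.mono fun n v => by rw [← tm_apply, map_sub, v, sub_self]))
  have z2 : ∀ {x : OO hX.big} {p : Prop}, (∀ᶠ n in UF, x.1 n ≠ 0 → p) → rd hX.big x ≠ 0 → p :=
    fun u v => by_contra fun w => v (rd_eq.2 (mm_of_ev (u.mono fun n y => not_not.1 (mt y w))))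
  have ent : ∀ {k p q a}, (Au (sM X) fun n _ w => Zr σ (X n) k (fun N => N p q) 0 w) → a ∈ S k →
      rd hX.big (Bo hX a p q) = 0 := fun {k p q a} u v =>
    z0 (show _ ∈ ng hX.big by simpa using lin hX hI (MvPolynomial.X (p, q)) (by simpa using u) v)
  have dN : ∀ a p r q, 0 ≤ t a → (cm (Bo hX a) (rho E (Pi.single p 1)) r q -
      rho E (fun s => Bo hX a s p) r q) ∈ ng hX.big := fun a p r q u => by
    have := lin hX hI (∑ s, MvPolynomial.X (r, s) * C (E p q s) -
      ∑ s, (∑ f, MvPolynomial.X (f, p) * C (E f s r)) * MvPolynomial.X (s, q))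
      (by
        refine fun c hc T => (e.aut 0 p r q c hc T).mono fun n x ω v z => le_of_eq_of_le ?_ (x ω v z)
        simp only [fA, Matrix.sub_apply, Matrix.mul_apply, rho_single]
        simp [rho_apply, tm_apply, E]) ((A.sf a).2 u)
    convert this using 1
    simp only [cm, Matrix.sub_apply, Matrix.mul_apply, rho_single]
    simp [rho_apply, snd_sum, fst_sum, algebraMap_eq_inl, Matrix.one_apply, Finset.sum_add_distrib,
      mul_comm, sub_sub]
    exact add_comm _ _
  obtain ⟨sc, s1, s2⟩ : ∃ s : kk hX.big → OO hX.big, (∀ x, rd hX.big (s x) = x) ∧ s 0 = 0 := by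
    choose s hs using rd_surj (hM := hX.big)
    exact ⟨fun x => if x = 0 then 0 else s x, fun x => by by_cases u : x = 0 <;> simp [u, hs],
      if_pos rfl⟩
  have s3 : ∀ {x n} {y : ℝ}, y * (sc x).1 n ≠ 0 → x ≠ 0 := fun u z => u (by rw [z, s2]; simp)
  have xm : ∀ (f : Fin m → kk hX.big) (s : κ → OO hX.big) q,
      ∑ p, f p * xp ((rd hX.big).comp (cs hX.big)) (σ.Φ.N + 2)
        (vc (fun a => (Bo hX a).map (rd hX.big)) fun a => rd hX.big (s a)) p q = 0 →
      ∑ p, sc (f p) * xp (cs hX.big) (σ.Φ.N + 2) (vc (Bo hX) s) p q ∈ mm hX.big := fun f s q u => by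
    rw [← rd_eq, ← u, map_sum]
    refine Finset.sum_congr rfl fun p _ => ?_
    rw [map_mul, s1]
    exact congrArg _ (xp_hom (rd hX.big) (fun _ => rfl) (fun _ _ _ => rfl) (fun _ => rfl) _ _ _)
  have bm : ∀ (f : Fin m → kk hX.big) b b', ∑ r, rd hX.big (E b b' r) * f r = 0 →
      ∑ r, E b b' r * sc (f r) ∈ mm hX.big := fun f b b' u => by
    rw [← rd_eq, ← u]; simp only [map_sum, map_mul, s1]
  have bv : ∀ (f : Fin m → kk hX.big) b b' n (x : ℝ), ∑ r, cE n b b' r * (x * (sc (f r)).1 n) =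
      x * (∑ r, E b b' r * sc (f r)).1 n := fun f b b' n x => by
    rw [← tm_apply, map_sum, Finset.mul_sum]
    exact Finset.sum_congr rfl fun r _ => mul_left_comm _ _ _
  have K : EK ((rd hX.big).comp (cs hX.big)) (σ.Φ.N + 2) σ.o μ.τ σ.la μ.mu μ.Pz σ.wt t
      (fun a => μ.df (σ.wt a)) pos (fun a => (Bo hX a).map (rd hX.big))
      (fun a b d => rd hX.big (c a b d)) (fun p q r => rd hX.big (E p q r)) (Ro.map (rd hX.big))
      fun a p q => rd hX.big ⟨_, A.ad.ob a p q⟩ := by
    refine ⟨hX.lo, ok.mo, ok.mp, ok.vt, fun p u => ?_, ok.po, ok.tz, hX.wp, fun a b => ?_,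
      fun s u => ?_, fun a p q u => ?_, fun a b d => z2 (hX.fr.mono fun n x => (N6.gr_of x).hc a b d),
      fun q r => ?_, fun p q r => ?_, fun p q r => z2 ((ce 0).mono fun n x => x.gr p q r),
      fun p => der_of fun q r s => ?_, fun p q r x y z => z0 fun T => (ce T).mono fun n u =>
        u.g0 p q r x y z, fun p u => ?_, funext fun a => rd_eq.2 (mm_of_ev (.of_forall fun n =>
        congrFun (R0 n _ rfl) a)), A.ad.le, A.ad.live, fun a b d x y z => z0 (A.ad.fil a b d x y z),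
      fun a p q x y z w => z0 (A.ad.stab a p q x y z w), fun a p q =>
        z2 (A.ad.li.mono fun n x y => ⟨(x.sup a p q y).2.1, (x.sup a p q y).2.2.1⟩),
      fun a b x y => ?_, fun a u => der_of fun p r q => ?_,
      fun a p q x y z w => ?_, fun a p x y => ent (e.col 0 p y) ((A.st a).2 x),
      fun f x y z => funext fun p => ?_, fun f w x y z => funext fun p => ?_⟩
    · have := ok.gap μ.τ μ.τ
      rw [ok.gap p μ.τ, u, ← this]
    · ext p q
      have := z1 (x := cm (Bo hX a) (Bo hX b) p q) (y := vc (Bo hX) (c a b) p q)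
        (hX.fr.mono fun n x => by
          have := congrFun (congrFun (x.1.br a b) p) q
          simpa [cm, Matrix.mul_apply, vec, vc, Matrix.sum_apply, tm_apply, Bo, c] using this)
      simpa [cm, Matrix.mul_apply, vc_apply] using this
    · funext a
      rw [← s1 (s a)]
      refine rd_eq.2 ((bd_co hX (s := fun n a => (sc (s a)).1 n) (vc (Bo hX) fun a => sc (s a))
        (.of_forall fun n => by rw [vc_map]; rfl) a).2 fun p q => ?_)
      rw [← rd_eq, ← Matrix.map_apply (f := rd hX.big), vc_map]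
      simp only [s1, u, Matrix.zero_apply]
    · have k := z2 (hX.fr.mono fun n x => x.2.1 a p q) u
      exact ⟨k, by rw [ok.gap p q, k, add_sub_cancel_left]⟩
    · rw [z1 (y := if r = q then cs hX.big (μ.mu q) else 0) ((ce 0).mono fun n x => by
        rw [apply_ite (tm hX.big n), map_zero]; exact x.co q r), apply_ite (rd hX.big), map_zero]
      rfl
    · rw [← map_neg]
      exact z1 ((ce 0).mono fun n x => by rw [map_neg]; exact x.an p q r)
    · have := z0 (x := (cm (rho E (Pi.single p 1)) (rho E (Pi.single q 1)) - rho E (E p q)) r s)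
        fun T => (ce T).mono fun n x => le_of_eq_of_le (by
          rw [← tm_apply]
          simp only [cm, Matrix.sub_apply, Matrix.mul_apply, rho_single]
          simp [rho_apply, tm_apply, E]) (x.jac p q r s)
      simp only [cm, Matrix.sub_apply, Matrix.mul_apply, rho_single] at this ⊢
      simpa [rho_apply, sub_eq_zero] using this
    · ext r q
      have := z1 (x := vc (Bo hX) (Ro p) r q) (y := rho E (Pi.single p 1) r q)
        ((hR' p u).mono fun n x => by
          rw [← Matrix.map_apply (f := tm hX.big n), vc_map]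
          exact congrFun (congrFun x r) q)
      rw [rho_single] at this ⊢
      simpa [vc_apply] using this
    · have := z1 (x := ∑ p, ∑ q, ⟨_, A.ad.ob a p q⟩ * Bo hX b p q) (y := if a = b then 1 else 0)
        (A.ad.li.mono fun n z => by
          simp only [map_sum, map_mul, apply_ite (tm hX.big n), map_one, map_zero]
          exact z.inv a b x y)
      simpa [apply_ite (rd hX.big)] using this
    · have := z0 (dN a p r q u)
      simp only [cm, Matrix.sub_apply, Matrix.mul_apply, rho_single] at this ⊢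
      simpa [rho_apply, sub_eq_zero] using this
    · by_cases v : σ.la p = σ.la q + σ.wt a
      · exact ent (e.pat 0 p q (by rw [ok.gap p q, v, add_sub_cancel_left, y, add_zero]) z w)
          ((A.sf a).2 x)
      · exact not_not.1 fun u => v (z2 (hX.fr.mono fun n x => x.2.1 a p q) u)
    · rw [← s1 (f p)]
      refine rd_eq.2 (small hX (k := true) (one_pos.trans_le ok.one) (Q := fun q => q = σ.o)
        (f := fun p => sc (f p)) (g := fun j : {j : Fin m × Fin m // G1 μ σ.la σ.o j.1 ∧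
          G1 μ σ.la σ.o j.2} => ∑ r, E j.1.1 j.1.2 r * sc (f r))
        (fun j => bm f _ _ (y _ _ j.2.1.1 j.2.2.1 j.2.1.2 j.2.2.2))
        (fun q u s v => u ▸ xm f s _ (z _ fun a w => z0 (v a (mt (A.st a).1 w))))
        (fun c hc T => (e.ac0 0 c hc T).mono fun n u h v1 r v2 v3 v4 => ?_) p)
      obtain ⟨ω, o⟩ := ne_S (X n).P
      exact (pb_true _).symm.trans_le (u ω o h v1 _ v2 (fun p w => x p (s3 w))
        (fun p q w w' => bv f p q n r ▸ v3 ⟨(p, q), w, w'⟩) (fun _ => True)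
        fun v v' w w' _ _ => v4 v v' (w.symm.trans w') _ rfl)
    · rw [← s1 (f p)]
      refine rd_eq.2 (small hX (k := false) (one_pos.trans_le ok.one) (Q := G1 μ σ.la σ.o)
        (f := fun p => sc (f p)) (g := fun j : {j : Fin m × Fin m // j.1 ≠ σ.o ∧ j.2 ≠ σ.o} =>
          ∑ r, E j.1.1 j.1.2 r * sc (f r)) (fun j => bm f _ _ (y _ _ j.2.1 j.2.2))
        (fun q u s v => xm f s _ (z _ (fun a w => z0 (v a (mt (A.sf a).1 w.not_ge))) q u.1 u.2))
        (fun c hc T => (e.rob 0 c hc T).mono fun n u h v1 r v2 v3 v4 => ?_) p)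
      obtain ⟨ω, o⟩ := ne_S (X n).P
      refine (pb_true _).symm.trans_le ((pb_mono fun v hv _ q hq => ?_).trans (u ω o h v1 _ 0 v2
        ⟨rfl, ⟨w, fun p w => x p (s3 w)⟩, fun p q w w' => bv f p q n r ▸ v3 ⟨(p, q), w, w'⟩⟩))
      rw [sub_zero]
      exact v4 ω v ((mem_fb o).1 hv) q hq
  obtain ⟨τ', k1, k2, -, k4, k5, k6⟩ := K.fin
  refine ⟨τ', k1, k2, fun u => k4 (rd_eq.2 u), k5, k6, fun a r x y => ?_⟩
  · have tz := ((ok.tz μ.τ).2 rfl).2
    by_cases z : μ.mu r = μ.mu μ.τ
    · exact neg_ev (hX.fr.mono fun n u => not_not.1 fun v => by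
        linarith [u.2.1 a _ r v, hX.wp a, ok.vt r])
    have k : Neg (sM X) fun n => ∑ f, (X n).B a f σ.o * cE n f r μ.τ := Neg.sum hM _ fun f _ => by
      by_cases w : f = σ.o
      · exact neg_ev (hX.fr.mono fun n u => by
          rw [w, show (X n).B a σ.o σ.o = 0 from not_not.1 fun v => by
            linarith [u.2.1 a _ _ v, hX.wp a], zero_mul])
      · exact Neg.mul' (fun T => (ce T).mono fun n u => u.chi f r w y) (LP.ob_B hX a f σ.o)
    refine ((Neg.add hM (dN a σ.o μ.τ r x) k).mul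
      (ob_const hM (μ.mu r - μ.mu μ.τ)⁻¹)).congr ((ce 0).mono fun n u => ?_)
    rw [← tm_apply, eq_mul_inv_iff_mul_eq₀ (sub_ne_zero.2 z)]
    simp only [cm, Matrix.sub_apply, Matrix.mul_apply, rho_single]
    simp [rho_apply, tm_apply, E, Bo, u.co, sub_mul, mul_comm]

theorem algE : AlgE := fun _ _ _ _ _ _ _ _ _ _ _ _ _ _ _ _ a i e => fin a i e

end Pool.Agent.MP_5168f5_an.QA.P7E
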