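import Pool.Agent.MP_5168f5_an.QA.P7Defs

/-! The maximal estimate: the extra condition is stable under the moves of the light class. -/

namespace Pool.Agent.MP_5168f5_an.QA.P7

open H19 H17S H17F R4 Filter AN AN.LC AN.LP
open G39 (dl OB)
open GA (Mt Neg)
open N6 (At mem_fb)

variable {m : ℕ} {κ : Type} {μ : Md m}

theorem mo_ce (la : Fin m → ℝ) (o : Fin m) (c : Fin m → Fin m → Fin m → ℝ) : Mo (CE μ la o c) :=
  fun _ _ _ _ a b h => have e := ex_le (neg_le_neg b)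
    ⟨fun p q r => (h.bd p q r).trans (ex_le a), h.gr, h.an, h.co,
      fun p q r s => (h.jac p q r s).trans e, fun p q r x y z => (h.g0 p q r x y z).trans e,
      fun p q x y => (h.chi p q x y).trans e⟩

theorem mo_pa {Ω Λ : Type} (c : Fin m → Fin m → Fin m → ℝ) (σ : St m κ) (X : Dt m κ Ω Λ)
    (a : ℚ≥0) : Mo (Pa μ c σ X a) := fun _ _ _ _ b d e ω hω h f l x y z E g =>
  (e ω hω h (f.trans d) l x y z E g).trans (ex_le (by linarith))

theorem lp_fA {M : ℕ → ℕ} (hM : Big M) {c : ℕ → Fin m → Fin m → Fin m → ℝ}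
    (h : ∀ p q r, OB M fun n => c n p q r) (p r q : Fin m) : Lp M fun n => fA (c n) p r q := by
  have := (lp_sum hM Finset.univ fun u _ => (lp_ent r u).mul hM (lp_ob (h p q u))).sub hM
    (lp_sum hM Finset.univ fun s _ => (lp_sum hM Finset.univ fun u _ =>
      (lp_ent u p).mul hM (lp_ob (h u s r))).mul hM (lp_ent s q))
  convert this using 3
  simp only [fA, Matrix.sub_apply, Matrix.mul_apply, P7E.rho_single]
  rfl

variable [Fintype κ] {Ω Λ : ℕ → Type} {c : ℕ → Fin m → Fin m → Fin m → ℝ} {σ : St m κ}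
  {S : Bool → Finset κ} {X : ∀ n, Dt m κ (Ω n) (Λ n)} {G : ∀ n, Ω n → Prop}
  {j : ∀ n, Ω n → Mt (Fin m)} {w : ∀ n, Ω n → ℝ}

theorem pa_mv (hX : LI σ S X) (h : Mv σ X G j w) (hL : 1 ≤ μ.L) {a : ℚ≥0}
    (e : Au (sM X) fun n => Pa μ (c n) σ (X n) a) :
    Au (sM X) fun n => Pa μ (c n) σ ((X n).chg (cE (X n).P (G n)) (j n)) a := by
  intro c' hc T
  have c3 : 0 < c' / 3 := by positivity
  filter_upwards [h.piece hX a c3, e _ c3 T, nm_est hX h.cls true a one_pos T, hX.big.ev (3 / c')]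
    with n d x y u ω hω t ht l l1 l2 l3 E l4
  have o := cE_sub hω
  have two : 2 * Real.exp (-t) ≤ Real.exp (-(t - 1)) := by
    rw [show -(t - 1) = 1 + -t by ring, Real.exp_add]
    exact mul_le_mul_of_nonneg_right (by linarith [Real.add_one_le_exp (1 : ℝ)]) (Real.exp_pos _).le
  have e0 := Real.exp_pos (-t)
  refine (pb_mono (F := fun v => E v ∧ v ∈ (cE (X n).P (G n)).S) fun v hv g =>
    ⟨g, ((mem_fb hω).1 hv).2.1⟩).trans ((d ω hω _).trans ((mul_le_mul_of_nonneg_left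
      (x ω o (t - 1) (by linarith) l l1 l2 (fun p q r s => (l3 p q r s).trans (by linarith)) _
        fun v v' z z' g g' => ?_) (Real.exp_pos _).le).trans ?_))
  · have b : |∑ p, l p * nm σ ((X n).chg (X n).P (j n)) a v v' p σ.o -
        ∑ p, l p * nm σ (X n) a v v' p σ.o| ≤ Real.exp (-t) := by
      rw [← Finset.sum_sub_distrib]
      refine (Finset.abs_sum_le_sum_abs _ _).trans ((Finset.sum_le_sum fun p _ => ?_).trans
        (by rw [← Finset.sum_mul, l1, one_mul] :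
          ∑ p, |l p| * Real.exp (-t) = Real.exp (-t)).le)
      rw [← mul_sub, abs_mul]
      exact mul_le_mul_of_nonneg_left ((y v v' (z.symm.trans z') p σ.o).2.trans
        (ex_le (neg_le_neg ht))) (abs_nonneg _)
    have k : |∑ p, l p * nm σ ((X n).chg (X n).P (j n)) a v v' p σ.o| ≤ Real.exp (-t) :=
      l4 v v' ⟨hω, g.2, z.2.2⟩ ⟨hω, g'.2, z'.2.2⟩ g.1 g'.1
    rw [abs_le] at b k ⊢
    constructor <;> linarith [b.1, b.2, k.1, k.2]
  · rw [← Real.exp_add]
    refine ex_le ?_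
    rw [div_le_iff₀' hc] at u
    have : 1 / μ.L ≤ 1 := div_le_one_of_le₀ hL (by linarith)
    rw [sub_div]
    simp only [sM] at u ⊢
    linarith

theorem EE.oc (h : EE μ c σ X) (p q r : Fin m) : OB (sM X) fun n => c n p q r := fun c' hc =>
  (h.ce c' hc 0).mono fun n z => by rw [G39.dl_inv]; exact z.bd p q r

theorem cf_ee (σ : St m κ) : CF (EE (Ω := Ω) (Λ := Λ) μ c σ) := by
  let T := fun n => Dt m κ (Ω n) (Λ n)
  have zr := fun k (F : ℕ → Mt (Fin m) → ℝ) a => cf_au (S := T) (fun _ y => y.M)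
    (fun n y _ w => Zr σ y k (F n) a w) fun n y => mo_zr σ y k (F n) a
  have h1 := cf_const (S := T) (μ.Ok σ.la σ.o ∧ Fintype.card κ = Fintype.card (N2.El σ.la))
  have h2 := cf_au (S := T) (fun _ y => y.M) (fun n _ => CE μ σ.la σ.o (c n)) fun _ _ => mo_ce _ _ _
  have h3 := cf_all fun a => cf_all fun p => cf_all fun r => cf_all fun q =>
    zr false (fun n => fA (c n) p r q) a
  have h4 := cf_all fun a => cf_all fun p => cf_all fun q => cf_all fun _ : μ.mu p = μ.mu q =>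
    cf_all fun _ : μ.Pz p => cf_all fun _ : ¬μ.Pz q => zr false (fun _ N => N p q) a
  have h5 := cf_all fun a => cf_all fun p => cf_all fun _ : σ.la p ≠ μ.mu p =>
    zr true (fun _ N => N p σ.o) a
  have h6 := cf_all fun a => cf_au (S := T) (fun _ y => y.M) (fun n y => Pa μ (c n) σ y a)
    fun _ y => mo_pa _ σ y a
  have h7 := cf_all fun a => cf_au (S := T) (fun _ y => y.M)
    (fun n y => Sb σ y false μ.L (okR (c n) σ.la σ.o) (G1 μ σ.la σ.o) a) fun _ y => mo_sb σ y _ _ _ _ a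
  have h8 := cf_all fun i : ℕ => cf_all fun a => cf_au (S := T) (fun _ y => y.M)
    (fun _ y => Hs σ y μ.τ σ.o (μ.kf i) (1 / (i + 1 : ℝ)) a) fun _ y => mo_hs σ y _ _ _ _ a
  have h9 := cf_all fun a => cf_all fun a' => cf_all fun _ : a ≤ a' => cf_au (S := T)
    (fun _ y => y.M) (fun _ y u _ => Df y μ.D a a' u) fun _ y => mo_df y _ a a'
  exact (h1.and (h2.and (h3.and (h4.and (h5.and (h6.and (h7.and (h8.and h9)))))))).congr fun _ =>
    ⟨fun h => ⟨⟨h.ok, h.card⟩, h.ce, h.aut, h.pat, h.col, h.ac0, h.rob, h.hts, h.dfc⟩,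
      fun ⟨a, b, d, e, f, g, i, k, l⟩ => ⟨a.1, a.2, b, d, e, f, g, i, k, l⟩⟩

theorem EE.idx (h : EE μ c σ X) (hM : Big (sM X)) (a : ℚ≥0) {e : ℚ≥0} (he : 0 < e) :
    EE μ c σ fun n => (X n).idx a e :=
  have k := cmp_idx hM a he
  ⟨h.ok, h.card, h.ce.unit k fun _ => mo_ce _ _ _,
    fun b p r q => (h.aut (a + e * b) p r q).unit k fun n => mo_zr σ (X n) _ _ _,
    fun b p q u v w => (h.pat (a + e * b) p q u v w).unit k fun n => mo_zr σ (X n) _ _ _,
    fun b p u => (h.col (a + e * b) p u).unit k fun n => mo_zr σ (X n) _ _ _,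
    fun b => (h.ac0 (a + e * b)).unit k fun n => mo_pa _ σ (X n) _,
    fun b => (h.rob (a + e * b)).unit k fun n => mo_sb σ (X n) _ _ _ _ _,
    fun i b => (h.hts i (a + e * b)).unit k fun n => mo_hs σ (X n) _ _ _ _ _,
    fun b b' d => (h.dfc (a + e * b) (a + e * b') (by gcongr)).unit k fun n => mo_df (X n) _ _ _⟩

theorem EE.mv (h : EE μ c σ X) (hX : LI σ S X) (v : Mv σ X G j w) :
    EE μ c σ fun n => (X n).chg (cE (X n).P (G n)) (j n) :=
  ⟨h.ok, h.card, h.ce, fun a p r q => zr_mv hX v (lp_fA hX.big h.oc p r q) (h.aut a p r q),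
    fun a p q x y z => zr_mv hX v (lp_ent p q) (h.pat a p q x y z),
    fun a p x => zr_mv hX v (lp_ent p σ.o) (h.col a p x), fun a => pa_mv hX v h.ok.one (h.ac0 a),
    fun a => sb_mv hX v h.ok.one
      (fun _ _ _ _ _ x y => ⟨y.1, y.2.1, fun b b' u u' => (y.2.2 b b' u u').trans x⟩) (h.rob a),
    fun i a => hs_mv hX v (h.hts i a), fun a a' d => df_mv hX v d (h.dfc a a' d)⟩

theorem EE.bas (h : EE μ c σ X) (B : ℕ → κ → Mt (Fin m)) (c' : ℕ → κ → κ → κ → ℝ) :
    EE μ c σ fun n => (X n).bas (B n) (c' n) :=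
  ⟨h.ok, h.card, h.ce, h.aut, h.pat, h.col, h.ac0, h.rob, h.hts, h.dfc⟩

/-- The marked light class. -/
abbrev exE (μ : Md m) (c : ℕ → Fin m → Fin m → Fin m → ℝ) : Ex m κ Ω Λ where
  E := EE μ c
  cf := cf_ee
  idx _ _ _ a _ he l h := h.idx l.big a he
  mv _ _ _ _ _ _ l v h := h.mv l v
  bas _ _ B c' h := h.bas B c'

end Pool.Agent.MP_5168f5_an.QA.P7
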