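import Pool.Agent.MP_5168f5_an.AN.LPAll
import Pool.Agent.MP_5168f5_an.QA.P7Ad

/-! The light class with positions given by a set of indices: from a member to the chamber. -/

namespace Pool.Agent.MP_5168f5_an.AN.LP.Z

open QA.P7 (Adz OAz)

section

open H19 H17S H17F G39 Filter H61Z GA GF R4 LC
open N6

section Seq

variable {m : ℕ} {κ : Type} [Fintype κ] {Ω Λ : ℕ → Type} [DecidableEq κ] [Ex m κ Ω Λ]

/-- A member of the class in an adapted basis. -/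
structure LA (Pz : Fin m → Prop) (σ : St m κ) (S : Bool → Finset κ) (L₀ : ℝ) (t : κ → ℝ) (pos : κ → Prop)
    (Lm : ℕ → κ → Fin m → Fin m → ℝ) (X : ∀ n, Dt m κ (Ω n) (Λ n)) : Prop where
  l : L σ S X
  ac : AC σ S L₀ X
  one : 1 ≤ L₀
  st : ∀ a, a ∈ S true ↔ t a = σ.wt a
  sf : ∀ a, a ∈ S false ↔ 0 ≤ t a
  ad : Adz (Neg (sM X)) (sM X) σ.la Pz σ.wt t pos (fun n => (X n).B) (fun n => (X n).c) Lm

/-- The same after the outer basis vectors (`t a < 0`) have been made negligibly short. -/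
structure LB (Pz : Fin m → Prop) (σ : St m κ) (S : Bool → Finset κ) (L₀ : ℝ) (t : κ → ℝ) (pos : κ → Prop)
    (Lm : ℕ → κ → Fin m → Fin m → ℝ) (X : ∀ n, Dt m κ (Ω n) (Λ n)) : Prop where
  cc : 0 < σ.cc
  lo : σ.la σ.o = 0
  wp : ∀ a, 0 < σ.wt a
  big : Big (sM X)
  lv : ∀ a : ℚ≥0, Eqv (sM X) (fun n => (X n).lv a - (X n).lv 0) fun n => (a : ℝ) * (X n).M
  fr : ∀ᶠ n in UF, (X n).Fr σ
  oB : ∀ a p q, OB (sM X) fun n => (X n).B a p q
  oc : ∀ a b e, OB (sM X) fun n => (X n).c a b e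
  nest : ∀ k a a', a ≤ a' → FnE (sP X) (sO X k a) (sO X k a')
  com : ∀ a, FnE (sP X) (sO X false a) (sO X true a)
  inc : ∀ k a, Al (fun _ Y => Y.Inc σ (S k) k a) X
  ex : Ex.E σ X
  ac : AC σ S L₀ X
  one : 1 ≤ L₀
  st : ∀ a, a ∈ S true ↔ t a = σ.wt a
  sf : ∀ a, a ∈ S false ↔ 0 ≤ t a
  ad : Adz (Neg (sM X)) (sM X) σ.la Pz σ.wt t pos (fun n => (X n).B) (fun n => (X n).c) Lm
  ind : IND σ S X
  dead : ∀ a b e, t a < 0 ∨ t b < 0 → 0 ≤ t e → Neg (sM X) fun n => (X n).c a b e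
  stab : ∀ a p q, ¬pos a → Pz p → ¬Pz q → Neg (sM X) fun n => (X n).B a p q

end Seq

def PREP : Prop := ∀ (m : ℕ) (κ : Type) [Fintype κ] [DecidableEq κ] (Ω Λ : ℕ → Type) [Ex m κ Ω Λ]
  (σ : St m κ) (Pz : Fin m → Prop)
  (S : Bool → Finset κ) (X : ∀ n, Dt m κ (Ω n) (Λ n)) (L₀ : ℝ), 1 ≤ L₀ → L σ S X →
 AC σ S L₀ X → ∃ (S' : Bool → Finset κ) (t : κ → ℝ) (pos : κ → Prop)
    (Lm : ℕ → κ → Fin m → Fin m → ℝ) (X' : ∀ n, Dt m κ (Ω n) (Λ n)), LA Pz σ S' L₀ t pos Lm X'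

def OfPREP : Prop := OAz → SZoom → CHG → CHA → PREP

def RESC : Prop := ∀ (m : ℕ) (κ : Type) [Fintype κ] [DecidableEq κ] (Ω Λ : ℕ → Type) [Ex m κ Ω Λ]
  (σ : St m κ) (Pz : Fin m → Prop)
  (S : Bool → Finset κ) (L₀ : ℝ) (t : κ → ℝ) (pos : κ → Prop) (Lm : ℕ → κ → Fin m → Fin m → ℝ)
  (X : ∀ n, Dt m κ (Ω n) (Λ n)), LA Pz σ S L₀ t pos Lm X → IND σ S X →
  ∃ x : ℕ → ℝ, (∀ n, 0 ≤ x n) ∧ LB Pz σ S L₀ t pos Lm fun n => N6ResA.nw t (x n) (X n)

def AllB (p : ∀ (m : ℕ) (κ : Type) [Fintype κ] [DecidableEq κ] (Ω Λ : ℕ → Type), St m κ →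
    (Bool → Finset κ) → ℝ → (κ → ℝ) → (κ → Prop) → (∀ n, Dt m κ (Ω n) (Λ n)) → Prop) : Prop :=
  ∀ (m : ℕ) (κ : Type) [Fintype κ] [DecidableEq κ] (Ω Λ : ℕ → Type) [Ex m κ Ω Λ] (σ : St m κ)
    (Pz : Fin m → Prop) (S : Bool → Finset κ) (L₀ : ℝ) (t : κ → ℝ) (pos : κ → Prop)
    (Lm : ℕ → κ → Fin m → Fin m → ℝ) (X : ∀ n, Dt m κ (Ω n) (Λ n)), LB Pz σ S L₀ t pos Lm X →
    p m κ Ω Λ σ S L₀ t pos X

def SAlg : Prop := AllB fun _ _ _ _ _ _ σ _ _ t pos X => CA σ.Φ (wA σ.wt t) (tA t) pos (sy σ X)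

def SAtc : Prop := AllB fun _ _ _ _ _ _ σ S _ t pos X =>
  CA σ.Φ (wA σ.wt t) (tA t) pos (sy σ X) → ATC σ S t X ∧ CEL σ t X

def SAcs : Prop := AllB fun _ _ _ _ _ _ σ S L₀ t pos X =>
  CA σ.Φ (wA σ.wt t) (tA t) pos (sy σ X) → ATC σ S t X → ACS σ L₀ t X

end

section

open H17F hiding co
open H19 H17S G39 Filter H61Z GA GF R4 LC S20 MvPolynomial
open Pk (cn)
open N6

theorem n6Prep : OfPREP := by
  intro hO hZ hC hA m κ _ _ Ω Λ _ σ Pz S X L₀ h1 h ac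
  obtain ⟨A, A', t, pos, Lm, i1, i2, ad, s1, s2⟩ := hO κ m (sM X) σ.Φ σ.la Pz σ.wt
    (fun n => (X n).B) (fun n => (X n).c) (fun i a => a ∈ S i) h.big h.wp
    (h.fr.mono fun n z => ⟨z.1, gr_of z⟩) (ob_B h) (ob_c h) (fun a k => h.ss k)
    fun i a b e x y z => (h.sub i a x b y e z).os
  have hg : ∀ e, ∃ lam : ℕ → κ → κ → ℝ, (∀ a b, OB (sM X) fun n => lam n a b) ∧ (0 < t e →
      t e < σ.wt e → ∀ e', OS (sM X) fun n => ∑ a, ∑ b, lam n a b *
        cg (mC (A n) (A' n) (X n).c) t a b e' - if e' = e then 1 else 0) := fun e => by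
    by_cases k : 0 < t e ∧ t e < σ.wt e
    · exact (ad.gen e k.1 k.2).imp fun _ k => ⟨k.1, fun _ _ => k.2⟩
    · exact ⟨0, fun _ _ => ob_const h.big 0, fun k1 k2 => absurd ⟨k1, k2⟩ k⟩
  choose lam l1 l2 using hg
  obtain ⟨L, hL, hb⟩ := ob_bound h.big (J := (κ × κ) ⊕ (κ × κ) ⊕ (κ × Fin m × Fin m) ⊕ κ × κ × κ)
    (f := fun j n => j.elim (fun x => A n x.1 x.2) (Sum.elim (fun x => A' n x.1 x.2)
      (Sum.elim (fun x => Lm n x.1 x.2.1 x.2.2) fun x => lam x.1 n x.2.1 x.2.2))) fun j => by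
    rcases j with x | x | x | x
    exacts [(i2 _ _).1, (i2 _ _).2, ad.ob _ _ _, l1 _ _ _]
  obtain ⟨e, z1, z2, z3, z4⟩ := hZ m κ Ω Λ σ S X _ L₀ h hL.log
  have ob := fun j => GO.GOv2A.ob hL z4 (.of_forall fun n => hb n j)
  have ng : ∀ {u : ℕ → ℝ}, OS (sM X) u → Neg (sM fun n => (X n).idx 0 (e n)) u :=
    fun k => neg_of_os k z3
  obtain ⟨S', st, sf⟩ : ∃ S' : Bool → Finset κ, (∀ a, a ∈ S' true ↔ t a = σ.wt a) ∧
      ∀ a, a ∈ S' false ↔ 0 ≤ t a :=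
    ⟨fun k => bif k then Finset.univ.filter fun a => t a = σ.wt a else
      Finset.univ.filter fun a => 0 ≤ t a, fun a => by simp, fun a => by simp⟩
  have ch : Chg σ (sM fun n => (X n).idx 0 (e n)) S S' A A' := by
    refine ⟨i1, fun a b => ⟨ob (.inl (a, b)), ob (.inr (.inl (a, b)))⟩, fun k a b x y => ng ?_,
      fun k b a x y => ng ?_, fun a x => (sf a).2 (((st a).1 x).ge.trans' (h.wp a).le)⟩
    · cases k
      exacts [s2.row a b ((sf a).1 x) y, s1.row a b ((st a).1 x) y]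
    · cases k
      exacts [s2.col b a x (mt (sf a).2 y), s1.col b a x (mt (st a).2 y)]
  exact ⟨S', t, pos, Lm, _, hC m κ Ω Λ σ S S' _ A A' z1 ch,
    hA m κ Ω Λ σ S S' _ A A' L₀ z1 ch h1 (z2 ac), h1, st, sf, ad.le, ad.live,
    fun a b c x y z => ng (ad.fil a b c x y z), fun a b c x y z u v => ng (ad.sub a b c x y z u v),
    fun c x y => ⟨lam c, fun a b => ob (.inr (.inr (.inr (c, a, b)))), fun d => ng (l2 c x y d)⟩,
    fun a p q x y u v => ng (ad.stab a p q x y u v),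
    fun a p q => ob (.inr (.inr (.inl (a, p, q)))), ad.li⟩


end

section

open H17F hiding co
open H19 H17S G39 Filter H61Z GA GF R4 LC S20 MvPolynomial
open N6 N6.N6ResA

theorem n6Res : RESC := by
  intro m κ _ _ Ω Λ _ σ Pz S L₀ t pos Lm X h hI
  have l := h.l
  have hS : ∀ k, ∀ b ∈ S k, 0 ≤ t b := fun k b hb => (h.sf b).1 (by
    cases k
    exacts [hb, l.ss hb])
  obtain ⟨T, hT, H⟩ := TG.tgDg (Bool × ℚ≥0) (fun i K n =>
    (X n).Inc σ (S i.1) i.1 i.2 (1 / (2 * K + 1)) ∧ ∀ a b e, 0 ≤ t a → 0 ≤ t b → t e < 0 →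
      |(X n).c a b e| ≤ dl (sM X) (2 * K) n) fun i => .of_forall fun K =>
    (l.inc i.1 i.2 _ (by positivity)).and (eventually_all.2 fun a => eventually_all.2 fun b =>
      eventually_all.2 fun e => eventually_imp_distrib_left.2 fun ha =>
        eventually_imp_distrib_left.2 fun hb => eventually_imp_distrib_left.2 fun he =>
          h.ad.fil a b e ha hb (by linarith) _)
  have x0 : ∀ n, (0 : ℝ) ≤ T n * (X n).M := fun n => by positivity
  have hN := neg_exp (M := sM X) hT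
  have out : ∀ a b e, 0 ≤ t a → 0 ≤ t b → t e < 0 →
      Neg (sM X) fun n => sC (rho t (T n * (X n).M)) (X n).c a b e := fun a b e ha hb he =>
    hN.mono ((H (true, 0)).mono fun n z => sC_out ha hb he
      ((z.2 a b e ha hb he).trans (le_of_eq (by rw [dl, mul_assoc]))))
  refine ⟨fun n => T n * (X n).M, x0, l.cc, l.lo, l.wp, l.big, l.lv,
    l.fr.mono fun n z => fr_nw z, fun a p q => ?_, fun a b e => ?_, l.nest, l.com,
    fun k a ε hε => ?_, Ex.bas σ X _ _ l.ex, fun k a ε hε => ?_, h.one, h.st, h.sf,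
    ⟨h.ad.le, h.ad.live, fun a b e ha hb he => ?_, fun a b e ha hb u v w => ?_, fun e u v => ?_,
      fun a p q ha hp u v => ?_, h.ad.ob, h.ad.li.mono fun n z => ⟨z.sup, fun a b ha hb => ?_⟩⟩,
    fun k a E η r F hη hr hF => ?_, fun a b e u v => ?_, fun a p q hp u v => ?_⟩
  · refine ob_congr (ob_B l a p q) (.of_forall fun n => ?_)
    show |rho t _ a * _| ≤ _
    rw [abs_mul, abs_of_pos (rho_pos _ _ _)]
    exact mul_le_of_le_one_left (abs_nonneg _) (rho_le (x0 n) a)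
  · by_cases z : (t a < 0 ∨ t b < 0) ∨ 0 ≤ t e
    · exact ob_congr (ob_c l a b e) (.of_forall fun n => sC_le (x0 n) z)
    · push Not at z
      exact (out a b e z.1.1 z.1.2 z.2).ob
  · filter_upwards [H (k, a),
      ((tendsto_natCast_atTop_atTop (R := ℝ)).comp hT).eventually_ge_atTop (1 / ε)] with n u v
    exact inc_nw (hS k) hε v u.1
  · filter_upwards [H (k, a), l.fr, h.ac k a ε hε] with n u v w
    exact ac_nw (hS k) v u.1 w
  · rcases le_or_gt 0 (t e) with z | z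
    · exact (h.ad.fil a b e ha hb he).congr (.of_forall fun n => sC_al ha hb z)
    · exact out a b e ha hb z
  · exact (h.ad.sub a b e ha hb u v w).congr (.of_forall fun n => sC_al ha hb (h.ad.live e w))
  · obtain ⟨lam, y, z⟩ := h.ad.gen e u v
    exact ⟨lam, y, fun e' => (z e').congr (.of_forall fun n => by simp only [cg_sC])⟩
  · exact (h.ad.stab a p q ha hp u v).congr (.of_forall fun n => by simp only [sB_al ha])
  · simpa only [sB_al (h.ad.live b hb)] using z.inv a b ha hb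
  · refine (hI k a E η r F hη hr hF).mono ?_
    filter_upwards [H (k, a), l.fr, hr] with n u v w ω hω z
    refine z.trans (le_of_eq (congrArg (fun s => |eval s _|) (funext fun b => ?_)))
    exact congrArg (Real.exp _ * ·)
      (lg_nw v u.1 ⟨(w ω hω).1, hω, (w ω hω).2⟩ (hS k b.1 b.2)).symm
  · exact (hN.mul (ob_c l a b e)).mono (.of_forall fun n => sC_dd (x0 n) u v)
  · rcases le_or_gt 0 (t a) with z | z
    · exact (h.ad.stab a p q z hp u v).congr (.of_forall fun n => by simp only [sB_al z])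
    · exact (hN.mul (ob_B l a p q)).congr (.of_forall fun n => by
        show rho t _ a * _ = _
        rw [rho_dd z])


end

section

open H17F hiding co
open H19 H17S G39 Filter GA GF LC
open N6 N6.N6AlgA

theorem n6Alg : SAlg := by
  intro m κ _ _ Ω Λ _ σ Pz S L₀ t pos Lm X h
  have or : ∀ a b, (t a < 0 ∨ t b < 0) ∨ 0 ≤ t a ∧ 0 ≤ t b := fun a b =>
    (lt_or_ge (t a) 0).elim (fun k => .inl (.inl k)) fun k =>
      (lt_or_ge (t b) 0).elim (fun k => .inl (.inr k)) fun k' => .inr ⟨k, k'⟩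
  refine ⟨⟨⟨h.big, h.fr.mono fun n k => fr_Bl k 0, fun a => ⟨le_rfl, ?_⟩,
    fun a k => (alive h.wp).2 (h.ad.live a k), h.oc, fun a b e u v => ?_, fun a b e u v w => ?_,
    fun e k => (lt_irrefl _ k.1).elim⟩, h.fr.mono fun n k => k.2.2⟩,
    fun a => ⟨le_max_right _ _, ?_⟩, fun a b e u v => ?_, fun e u v => ?_⟩
  · show 0 ≤ ite _ _ _
    split_ifs
    exacts [(h.wp a).le, le_rfl]
  · have h3 := (alive h.wp).1 u
    exact (or a b).elim (fun k => h.dead a b e k h3) fun k => neg_ev (h.fr.mono fun n z =>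
      by_contra fun y => v ((hm_iff h.wp).2 ⟨k.1, k.2, h3, (gr_of z).hc a b e y⟩))
  · exact (or a b).elim (fun k => h.dead a b e k (h.ad.live e w)) fun k =>
      h.ad.sub a b e k.1 k.2 u v w
  · by_cases k : 0 ≤ t a
    · rw [tA_pos k, wA_pos k]; exact h.ad.le a
    · exact (max_eq_right (not_le.1 k).le).trans_le (if_neg k).ge
  · obtain ⟨h1, h2, h3, -⟩ := (hm_iff h.wp).1 u
    exact h.ad.fil a b e h1 h2 (by rwa [tA_pos h1, tA_pos h2, tA_pos h3] at v)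
  · have h1 : 0 < t e := (lt_max_iff.1 u).resolve_right (lt_irrefl _)
    obtain ⟨lam, l1, l2⟩ := h.ad.gen e h1 (by rwa [tA_pos h1.le, wA_pos h1.le] at v)
    refine ⟨lam, l1, fun e' => (l2 e').congr (h.fr.mono fun n z => ?_)⟩
    simp only [cG_eq h.wp (gr_of z).hc]
    congr


end

section

open H19 H17S H17F G39 Filter H61Z GA GF R4 LC S20
open N6
open N6.N6AtcA (co_le)

namespace AtcA

variable {m : ℕ} {κ : Type} [Fintype κ]

variable [DecidableEq κ] {Ω Λ : ℕ → Type} [Ex m κ Ω Λ] {σ : St m κ} {S : Bool → Finset κ} {L₀ : ℝ}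
  {t : κ → ℝ} {pos : κ → Prop} {Lm : ℕ → κ → Fin m → Fin m → ℝ} {Pz : Fin m → Prop}
  {X : ∀ n, Dt m κ (Ω n) (Λ n)}

theorem lv (h : LB Pz σ S L₀ t pos Lm X) (a : ℚ≥0) {ε : ℝ} (hε : 0 < ε) : ∀ᶠ n in UF, ∀ b,
    σ.wt b * ((X n).lv a - (X n).lv 0) ≤ σ.wt b * (a * (X n).M) + ε * (X n).M ∧
    σ.wt b * (a * (X n).M) ≤ σ.wt b * ((X n).lv a - (X n).lv 0) + ε * (X n).M :=
  eventually_all.2 fun b =>
    ((h.lv a).1.smul (h.wp b).le ε hε).and ((h.lv a).2.smul (h.wp b).le ε hε)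

/-- Two points of an atom are near at every depth that is not deeper. -/
theorem nr (h : LB Pz σ S L₀ t pos Lm X) (k : Bool) (a : ℚ≥0) {D : ℕ → κ → ℝ} {d : κ → ℝ}
    (hD : Cl (sM X) D d) (hd : ∀ b ∈ S k, d b ≤ σ.wt b * a) :
    ∃ L, Sub (sM X) L ∧ ∀ᶠ n in UF, ∀ ω v, At (X n) k a ω v →
      Nr (Bl σ (X n) 0) (TG.rA (D n)) (L n) ((X n).j ω) ((X n).j v) := by
  obtain ⟨L, hL, c⟩ := atom_co h.big h.fr h.lo (h.inc k a)
  obtain ⟨K, hK⟩ := hD
  refine (sub_iff (M := sM X) (p := fun n L => ∀ ω v, At (X n) k a ω v →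
    Nr (Bl σ (X n) 0) (TG.rA (D n)) L ((X n).j ω) ((X n).j v))).2 fun ε hε => ?_
  have p : 0 < ε / 3 := by positivity
  filter_upwards [c (∑ b, |d b|), hL.2 _ p, lv h a p, hK, h.big.sm K _ p] with n c l y z w
  refine ⟨_, Real.one_le_exp (by positivity), le_rfl, fun ω v i => ⟨co σ (X n) 0 ω v, fun b => ?_,
    (c ω v i).1.trans (congrArg _ ((ex_Bl a _).trans (ex_Bl 0 _).symm))⟩⟩
  have m0 : (0 : ℝ) ≤ (X n).M := Nat.cast_nonneg _
  have z1 := (abs_le.1 (z b)).2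
  have y1 := (y b).2
  rw [TG.rA, ← Real.exp_add]
  by_cases e : b ∈ S k
  · have := mul_le_mul_of_nonneg_right (hd b e) m0
    exact co_le (((c ω v i).2.2.1 b).trans l) (by linarith)
  · have s := mul_le_mul_of_nonneg_right ((le_abs_self _).trans (Finset.single_le_sum
      (f := fun b => |d b|) (fun _ _ => abs_nonneg _) (Finset.mem_univ b))) m0
    have := mul_nonneg (h.wp b).le (mul_nonneg (NNRat.cast_nonneg (α := ℝ) a) m0)
    have := mul_nonneg p.le m0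
    exact co_le ((c ω v i).2.2.2 b e) (by linarith)

end AtcA

open AtcA in
theorem n6Atc : SAtc := by
  intro m κ _ _ Ω Λ _ σ Pz S L₀ t pos Lm X h _
  have fr : ∀ᶠ n in UF, IsFr σ.Φ (Bl σ (X n) 0) (X n).c := h.fr.mono fun n y => fr_Bl y 0
  refine ⟨fun k a D d hD g hd => ?_, fun k a d ε g hε => ?_⟩
  · obtain ⟨L1, hL, c⟩ := nr h k a hD hd
    obtain ⟨r, hr⟩ := ex_rp X k a
    have c' : ∀ᶠ n in UF, ∀ ω ∈ (X n).P.S, Nr (Bl σ (X n) 0) (TG.rA (D n)) (L1 n)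
        ((X n).j (r n ((X n).O k a ω))) ((X n).j ω) := by
      filter_upwards [c, hr] with n c hr ω hω
      exact c _ _ ⟨(hr ω hω).1, hω, (hr ω hω).2⟩
    have s := sDet (Fin m) κ (sM X) σ.Φ (fun n => Bl σ (X n) 0) (fun n => (X n).c) Ω Λ (sP X)
      (fun n ω => (X n).j (r n ((X n).O k a ω))) (fun n => (X n).j) (sO X k a)
      (fun n z => (X n).j (r n z)) (fun n => TG.rA (D n)) L1 h.big fr
      (GO.GOh1A.idr sIdR h.big h.oc g (hD.ap h.big)) ⟨1, zero_le_one, ?_⟩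
      (.of_forall fun n _ _ _ _ e => congrArg (fun z => (X n).j (r n z)) e) hL (Whp.of_ev c')
    · refine s.mono ?_
      filter_upwards [h.nest false 0 a zero_le, h.com a] with n y z
      have f : Fn (X n).P ((X n).O false 0) fun ω => ((sy σ X n).C (D n) ω, (X n).O k a ω) :=
        fun u hu v hv e => y u hu v hv (by
          have e2 : (X n).O k a u = (X n).O k a v := congrArg Prod.snd e
          cases k
          exacts [e2, z u hu v hv e2])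
      exact ((ch_chain ((sy σ X n).C (D n)) ((X n).O false 0) ((X n).O k a)).trans
        (by rw [ch_zero f, add_zero]; rfl)).le
    · filter_upwards [c', hr, h.fr, hL.2 1 one_pos] with n c hr y z ω hω
      exact ⟨y.2.2 _ (hr ω hω).1, (c ω hω).imp fun s u => ⟨fun b => (u.1 b).trans
        (mul_le_mul_of_nonneg_right z (Real.exp_pos _).le), u.2⟩⟩
  · obtain ⟨L1, hL, c⟩ := GO.GOh1A.same sNr sCell h.big fr
      (GO.GOh1A.idr sIdR h.big h.oc g ((cl_sc (sM X) d).ap h.big))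
    filter_upwards [c, hL.2 _ (half_pos hε), lv h a (half_pos hε), h.fr] with n c l y z v u i e b
    obtain ⟨s, s1, s2⟩ := (c _).2 _ e
    have s3 := (s1 b).trans (mul_le_mul_of_nonneg_right l (Real.exp_pos _).le)
    rw [← (co_eq z i.1 s2).1, TG.rA, ← Real.exp_add] at s3
    refine co_le s3 ?_
    have := (y b).1
    unfold TG.sc
    linarith


end

section

open H19 H17S H17F G39 Filter H61Z GA GF R4 LC S20 Finset
open N6
open N6.N6AcsA (co0 ex0 par)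

namespace AcsA

variable {m : ℕ} {κ : Type} [Fintype κ] [DecidableEq κ] {Ω Λ : ℕ → Type} [Ex m κ Ω Λ] {σ : St m κ}
  {S : Bool → Finset κ} {L₀ : ℝ} {t : κ → ℝ} {pos : κ → Prop}
  {Lm : ℕ → κ → Fin m → Fin m → ℝ} {Pz : Fin m → Prop}
  {X : ∀ n, Dt m κ (Ω n) (Λ n)} {D : ℕ → κ → ℝ} {d : κ → ℝ}

/-- The level that belongs to a point of the chamber. -/
theorem lev (b : LB Pz σ S L₀ t pos Lm X) (k : Bool) {x : ℚ × ℚ} (h1 : 0 ≤ x.1) (h2 : x.1 ≤ x.2) :
    ∃ a : ℚ≥0, (∀ e ∈ S k, dep (oN (wA σ.wt t) (tA t)) (x.1, x.2) e ≤ σ.wt e * a) ∧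
      ∀ e, TG.Pu (oN (wA σ.wt t) (tA t)) k e →
        e ∈ S k ∧ dep (oN (wA σ.wt t) (tA t)) (x.1, x.2) e = σ.wt e * a := by
  have h3 : (x.1 : ℝ) ≤ x.2 := by exact_mod_cast h2
  have al : ∀ e, 0 ≤ t e → oN (wA σ.wt t) (tA t) e = (t e, σ.wt e - t e) := fun e u => by
    simp [oN, wA, tA, u]
  have dd : ∀ e, ¬0 ≤ t e → oN (wA σ.wt t) (tA t) e = (0, 0) := fun e u => by
    simp [oN, wA, tA, u, (not_le.1 u).le]
  cases k
  · refine ⟨⟨x.2, h1.trans h2⟩, fun e u => ?_, fun e u => ?_⟩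
    · have z := (b.sf e).1 u
      simp only [dep, al e z, NNRat.cast_mk]
      nlinarith [mul_le_mul_of_nonneg_left h3 z]
    · have z : 0 ≤ t e := by_contra fun z => by simp [TG.Pu, P2, dd e z] at u
      simp only [TG.Pu, cond, P2, al e z] at u
      refine ⟨(b.sf e).2 z, ?_⟩
      simp only [dep, al e z, NNRat.cast_mk, u.1]; ring
  · have k1 : ∀ e, t e = σ.wt e → dep (oN (wA σ.wt t) (tA t)) (x.1, x.2) e =
        σ.wt e * ((⟨x.1, h1⟩ : ℚ≥0) : ℝ) := fun e u => by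
      simp only [dep, al e (u ▸ (b.wp e).le), u, sub_self, zero_mul, add_zero]
    refine ⟨⟨x.1, h1⟩, fun e u => (k1 e ((b.st e).1 u)).le, fun e u => ?_⟩
    have z : 0 ≤ t e := by_contra fun z => by simp [TG.Pu, P1, dd e z] at u
    simp only [TG.Pu, cond, P1, al e z] at u
    have y : t e = σ.wt e := by linarith [u.2]
    exact ⟨(b.st e).2 y, k1 e y⟩

theorem gam (b : LB Pz σ S L₀ t pos Lm X) (hD : Cl (sM X) D d) (a : ℚ≥0) {δ : ℝ} (hδ : 0 < δ) :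
    ∀ᶠ n in UF, ∀ e, |D n e - σ.wt e * ((X n).lv a - (X n).lv 0) - (d e - σ.wt e * a) * (X n).M| ≤
      δ * (X n).M := by
  obtain ⟨K, hK⟩ := hD
  refine eventually_all.2 fun e => ?_
  have w := b.wp e
  filter_upwards [hK, b.big.sm K _ (half_pos hδ), (b.lv a).1 (δ / 2 / σ.wt e) (by positivity),
    (b.lv a).2 (δ / 2 / σ.wt e) (by positivity)] with n u v y z
  have y1 := mul_le_mul_of_nonneg_left y w.le
  have z1 := mul_le_mul_of_nonneg_left z w.le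
  rw [mul_add, ← mul_assoc _ (δ / 2 / σ.wt e), mul_div_cancel₀ _ w.ne'] at y1 z1
  have := abs_le.1 (u e)
  exact abs_le.2 ⟨by linarith [this.1], by linarith [this.2]⟩

/-- An atom lies in a box. -/
theorem nr (b : LB Pz σ S L₀ t pos Lm X) (hD : Cl (sM X) D d) {k : Bool} {a : ℚ≥0}
    (h : ∀ e ∈ S k, d e ≤ σ.wt e * a) : ∃ L, Sub (sM X) L ∧ ∀ᶠ n in UF, ∀ ω v, At (X n) k a ω v →
      Nr (Bl σ (X n) 0) (TG.rA (D n)) (L n) ((X n).j ω) ((X n).j v) := by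
  obtain ⟨L, hL, k1⟩ := atom_co b.big b.fr b.lo (b.inc k a)
  refine (sub_iff (p := fun n L => ∀ ω v, At (X n) k a ω v →
    Nr (Bl σ (X n) 0) (TG.rA (D n)) L ((X n).j ω) ((X n).j v))).2 fun ε hε => ?_
  filter_upwards [k1 (‖d‖ + ε), gam b hD a (half_pos hε), hL.2 _ (half_pos hε)] with n x y z
  have m0 : (0 : ℝ) ≤ (X n).M := Nat.cast_nonneg _
  refine ⟨_, Real.one_le_exp (by positivity), le_rfl, fun ω v u =>
    ⟨_, fun e => ?_, ex0 (x ω v u).1 0⟩⟩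
  have p := TG.TGZmA.rA_pos (D n) e
  have y1 := (abs_le.1 (y e)).2
  rw [← div_le_iff₀ p, ← abs_of_pos p, ← abs_div, co0 _ _ a, abs_mul, abs_of_pos (Real.exp_pos _)]
  by_cases c : e ∈ S k
  · refine (mul_le_mul_of_nonneg_left (((x ω v u).2.2.1 e).trans z) (Real.exp_pos _).le).trans ?_
    rw [← Real.exp_add, Real.exp_le_exp]
    nlinarith [mul_le_mul_of_nonneg_right (h e c) m0]
  · refine (mul_le_mul_of_nonneg_left ((x ω v u).2.2.2 e c) (Real.exp_pos _).le).trans ?_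
    rw [dl, ← Real.exp_add, Real.exp_le_exp]
    have q : d e - σ.wt e * a ≤ ‖d‖ := by
      linarith [(le_abs_self _).trans (norm_le_pi_norm d e),
        mul_nonneg (b.wp e).le (NNRat.cast_nonneg (α := ℝ) a)]
    nlinarith [mul_le_mul_of_nonneg_right q m0]

end AcsA

open AcsA in
theorem n6Acs : SAcs := by
  intro m κ _ _ Ω Λ _ σ Pz S L₀ t pos Lm X b ca atc k x D η ρ ε h1 h2 g hD hη hρ hε
  obtain ⟨a, a1, a2⟩ := lev b k h1 h2
  obtain ⟨L1, s1, n1⟩ := nr b hD a1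
  obtain ⟨δ, d0, d1, d2, d3⟩ := par (ρ := ρ) b.one hη hε
  obtain ⟨L2, s2, lp⟩ := TG.tgLip _ κ σ.Φ _ pos (sy σ X) ca.toG0 D L1
    (GO.GOh1A.idr sIdR b.big b.oc g (hD.ap b.big)) (by
      obtain ⟨K, hK⟩ := hD
      refine ⟨‖dep (oN (wA σ.wt t) (tA t)) (x.1, x.2)‖ + 1, ?_⟩
      filter_upwards [hK, b.big.ev K] with n u v e
      have y := mul_le_mul_of_nonneg_right (norm_le_pi_norm
        (dep (oN (wA σ.wt t) (tA t)) (x.1, x.2)) e) (Nat.cast_nonneg (α := ℝ) (X n).M)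
      have z := abs_sub_abs_le_abs_sub (D n e)
        (dep (oN (wA σ.wt t) (tA t)) (x.1, x.2) e * (X n).M)
      rw [abs_mul, Nat.abs_cast] at z
      rw [Real.norm_eq_abs] at y
      linarith [u e]) s1
  obtain ⟨K, -, ce⟩ := sCell σ.Φ.N (Fintype.card κ)
  obtain ⟨L3, -, at1⟩ := atom_co b.big b.fr b.lo (b.inc k a)
  filter_upwards [atc k a D _ hD g a1 δ d0, b.ac k a δ d0, b.fr, n1, lp 0, gam b hD a d0, at1 0,
    ((b.big.sub le_rfl).add s2 b.big).2 _ (show 0 < 2 * δ by positivity), b.big.sm lg δ d0,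
    b.big.ev 1] with n u1 u2 fr u3 u4 u5 u6 u7 u8 u9
  have m0 : (0 : ℝ) < (X n).M := by linarith
  have f0 := fr_Bl fr 0
  have mu := sMul _ _ _ _ _ f0
  have r0 := TG.TGZmA.rA_pos (D n)
  refine ac_mono (TG.ac_atom (sy σ X n) (D n) _ _ (ρ * (X n).M)
    (((η - 3 * δ) / L₀ - δ) * (X n).M) _ ((X n).O k a) (mul_pos d2 m0) u1 fun ω hω l c0 ht => ?_)
    le_rfl le_rfl (le_trans ?_ d3)
  swap
  · rw [div_le_div_iff₀ (mul_pos d2 m0) d2]
    nlinarith [mul_le_mul_of_nonneg_right u8 d2.le]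
  set γ : κ → ℝ := fun e => Real.exp (D n e - σ.wt e * ((X n).lv a - (X n).lv 0)) with hγ
  have γ0 : ∀ e, 0 < γ e := fun e => Real.exp_pos _
  have γ1 : ∀ e ∈ S k, γ e ≤ Real.exp (δ * (X n).M) := fun e c => Real.exp_le_exp.2 (by
    nlinarith [mul_le_mul_of_nonneg_right (a1 e c) m0.le, (abs_le.1 (u5 e)).2])
  set ν := ∑ e, |l e * γ e| with hν
  have ν1 : Real.exp (-(δ * (X n).M)) ≤ ν := by
    obtain ⟨e, he⟩ := ht.one
    have c := a2 e (by_contra fun z => by simp [ht.sup e z] at he)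
    refine le_trans ?_ (single_le_sum (f := fun e => |l e * γ e|) (fun _ _ => abs_nonneg _)
      (mem_univ e))
    rw [abs_mul, he, one_mul, abs_of_pos (γ0 e), Real.exp_le_exp]
    have := (abs_le.1 (u5 e)).1
    rw [c.2] at this
    linarith
  have ν0 : 0 < ν := (Real.exp_pos _).trans_le ν1
  have nu : ∀ y : ℝ, |y| ≤ Real.exp (2 * δ * (X n).M) * Real.exp (-(η * (X n).M)) →
      |y / ν| ≤ Real.exp (-((η - 3 * δ) * (X n).M)) := fun y z => by
    rw [abs_div, abs_of_pos ν0, div_le_iff₀ ν0]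
    refine z.trans (le_trans (le_of_eq ?_) (mul_le_mul_of_nonneg_left ν1 (Real.exp_pos _).le))
    rw [← Real.exp_add, ← Real.exp_add]; congr 1; ring
  have cn := (ce _ κ σ.Φ _ _ (TG.rA (D n)) (TG.rA (D n)) 1 rfl le_rfl f0 le_rfl
    fun e => ⟨r0 e, (one_mul _).ge⟩).1 ((X n).j ω)
  have k1 := u2 ω hω ((η - 3 * δ) * (X n).M) (by rw [le_div_iff₀ d0]; nlinarith)
    (fun e => l e * γ e / ν) ((c0 - ∑ e, l e * (lg (Bl σ (X n) 0) ((sy σ X n).C (D n) ω)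
      ((X n).j ω) e / TG.rA (D n) e)) / ν)
    (fun e c => by rw [ht.sup e fun z => c (a2 e z).1, zero_mul, zero_div])
    (by simp only [abs_div, abs_of_pos ν0]; rw [← sum_div, div_self ν0.ne']) fun i hi j hj => by
      have e1 : ∑ e, l e * γ e / ν * (X n).c i j e =
          γ i * γ j * (∑ e, sC (TG.rA (D n)) (X n).c i j e * l e) / ν := by
        rw [mul_sum, sum_div]
        refine sum_congr rfl fun e _ => ?_
        by_cases c : (X n).c i j e = 0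
        · simp [sC, c]
        · have : γ e = γ i * γ j * (TG.rA (D n) i * TG.rA (D n) j / TG.rA (D n) e) := by
            simp only [hγ, TG.rA, ← Real.exp_add, ← Real.exp_sub, (gr_of fr).hc i j e c]
            congr 1; ring
          rw [this, sC]; ring
      rw [e1]
      refine nu _ ?_
      rw [abs_mul, abs_of_pos (mul_pos (γ0 i) (γ0 j))]
      refine mul_le_mul ((mul_le_mul (γ1 i hi) (γ1 j hj) (γ0 j).le (Real.exp_pos _).le).trans
        (le_of_eq ?_)) (ht.kill i j) (abs_nonneg _) (Real.exp_pos _).le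
      rw [← Real.exp_add]; congr 1; ring
  refine ((pb_mono fun v hv z => ?_).trans k1).trans (le_of_eq (by congr 1; ring))
  have av : At (X n) k a ω v := (mem_fb hω).1 hv
  obtain ⟨s, bs, es⟩ := cn
  have up : IsUnit ((sy σ X n).C (D n) ω) := by
    have := fr.2.2 ω hω
    rw [es, Matrix.isUnit_iff_isUnit_det, Matrix.det_mul] at this
    exact (Matrix.isUnit_iff_isUnit_det _).2 (isUnit_of_mul_isUnit_left this)
  have q := (u4 _ ((X n).j ω) ((X n).j v) up ⟨s, fun e => (bs e).trans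
    (mul_le_mul_of_nonneg_right (s1.1 n) (r0 e).le), es⟩ (u3 ω v av)).2 l _ (Real.exp_pos _).le
    ht.le ht.kill
  have e2 : ∑ e, l e * γ e / ν * co σ (X n) a ω v e =
      (∑ e, l e * (lg (Bl σ (X n) 0) ((X n).j ω) ((X n).j v) e / TG.rA (D n) e)) / ν := by
    rw [(co_eq fr hω (ex0 (u6 ω v av).1 0)).2, sum_div]
    exact sum_congr rfl fun e _ => by rw [co0 _ _ a]; ring
  refine (congrArg (|· - _|) e2).trans_le ?_
  rw [← sub_div]
  refine nu _ (le_trans ?_ (mul_le_mul_of_nonneg_right u7 (Real.exp_pos _).le))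
  have z1 := abs_le.1 z
  have q1 := abs_le.1 q
  simp only [TG.Sy.co] at z1
  exact abs_le.2 ⟨by linarith, by linarith⟩


end

section

open H19 H17S H17F R4 Filter LC
open GA (Mt)
open N6 (CA ATC CEL ACS IND wA tA sy)

variable {m : ℕ} {κ : Type} [Fintype κ] [DecidableEq κ] {Ω Λ : ℕ → Type} [Ex m κ Ω Λ] {σ : St m κ}
  {S : Bool → Finset κ} {X : ∀ n, Dt m κ (Ω n) (Λ n)}

/-- A nonempty class has a member in an adapted basis. -/
theorem ex_la (hO : OAz) (Pz : Fin m → Prop) (hX : L σ S X) : ∃ (S : Bool → Finset κ) (L₀ : ℝ)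
    (t : κ → ℝ) (pos : κ → Prop) (Lm : ℕ → κ → Fin m → Fin m → ℝ)
    (X : ∀ n, Dt m κ (Ω n) (Λ n)), LA Pz σ S L₀ t pos Lm X ∧ IND σ S X := by
  obtain ⟨S, L₀, X, h1, h2, h3, -⟩ := LP.ex_ac hX
  obtain ⟨S, t, pos, Lm, X, a⟩ := n6Prep hO LP.sZoom LP.n6Chg LP.n6Cha m κ Ω Λ σ Pz S X L₀ h1 h2 h3
  exact ⟨S, L₀, t, pos, Lm, X, a, LP.sInd m κ Ω Λ σ S X L₀ h1 a.l a.ac⟩

/-- From the adapted basis to the chamber; only the basis changes. -/
theorem LB.chamber {Pz : Fin m → Prop} {L₀ : ℝ} {t : κ → ℝ} {pos : κ → Prop}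
    {Lm : ℕ → κ → Fin m → Fin m → ℝ} (b : LB Pz σ S L₀ t pos Lm X) :
    CA σ.Φ (wA σ.wt t) (tA t) pos (sy σ X) ∧ ATC σ S t X ∧ CEL σ t X ∧ ACS σ L₀ t X := by
  have ca := n6Alg m κ Ω Λ σ Pz S L₀ t pos Lm X b
  obtain ⟨a1, a2⟩ := n6Atc m κ Ω Λ σ Pz S L₀ t pos Lm X b ca
  exact ⟨ca, a1, a2, n6Acs m κ Ω Λ σ Pz S L₀ t pos Lm X b ca a1⟩

end

end Pool.Agent.MP_5168f5_an.AN.LP.Z
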