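import Pool.Agent.MP_5168f5_an.QA.P7Nm
import Pool.Agent.MP_5168f5_an.QA.P7Lz
import Pool.Agent.MP_5168f5_an.AN.N7Spec

/-! The maximal estimate: the information bound of the chamber against the deficiency. -/

namespace Pool.Agent.MP_5168f5_an.QA.P7

open H19 H17S H17F R4 Filter AN AN.LC AN.LP GA
open N6 (ATC CA Cl Gy wA tA oN o0 sy gd1)
open S20 (dn ch_dn dn_pos)

/-- Data processing for the conditional information. -/
theorem mi_dp {Ω α β γ α' β' γ' : Type} (P : FP Ω) (A : Ω → α) (B : Ω → β) (C : Ω → γ)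
    (A' : Ω → α') (B' : Ω → β') (Z : Ω → γ') :
    mi P A B (fun ω => (C ω, Z ω)) ≤ ch P B' Z - ch P B' A' + ch P (fun ω => (A ω, Z ω)) A' +
      ch P (fun ω => (B ω, Z ω)) B' + ch P (fun ω => (C ω, Z ω)) Z := by
  have h1 := ch_tri' (P := P) A (fun ω => (B' ω, C ω, Z ω)) fun ω => (B ω, C ω, Z ω)
  have h2 : ch P (fun ω => (B ω, C ω, Z ω)) (fun ω => (B' ω, C ω, Z ω)) ≤
      ch P (fun ω => (B ω, Z ω)) B' :=
    ch_le (((Fn.fst _ _).left _).pair (((Fn.snd _ _).right _))) (Fn.fst _ _)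
  have h3 := mi_symm (P := P) A B' fun ω => (C ω, Z ω)
  have h4 : ch P B' (fun ω => (C ω, Z ω)) ≤ ch P B' Z := ch_anti (Fn.snd _ _)
  have h5 := ch_tri' (P := P) B' A' fun ω => (A ω, C ω, Z ω)
  have h6 := ch_tri (P := P) (fun ω => (A ω, C ω, Z ω)) (fun ω => (A ω, Z ω)) A'
  have h7 : ch P (fun ω => (A ω, C ω, Z ω)) (fun ω => ((A ω, Z ω), A' ω)) ≤
      ch P (fun ω => (C ω, Z ω)) Z :=
    ch_le (((((Fn.fst _ _).left _)).right _).pair (Fn.fst _ _)) ((Fn.snd _ _).left _)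
  unfold mi at *
  linarith

variable {m : ℕ} {κ : Type} {x : ℝ}

theorem df_ch {Ω Λ : Type} {X : Dt m κ Ω Λ} {a a' : ℚ≥0} {u : ℝ} (h : Df X x a a' u) :
    ch X.P (X.O false a') (X.O false a) - ch X.P (X.O false a') (X.O true a) ≤
      u + x * (X.lv a' - X.lv a) := by
  rw [ch_dn, ch_dn, ← FP.E_sub, ← X.P.E_const (u + _)]
  refine X.P.E_mono fun ω hω => ?_
  have := Real.log_le_log (dn_pos hω _ _) (h ω hω)
  rw [Real.log_mul (Real.exp_ne_zero _) (dn_pos hω _ _).ne', Real.log_exp] at this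
  linarith

variable [Fintype κ] [DecidableEq κ] {Ω Λ : ℕ → Type} {σ : St m κ} {S : Bool → Finset κ}
  {X : ∀ n, Dt m κ (Ω n) (Λ n)} {t : κ → ℝ} {pos : κ → Prop} {τ : κ} {kf : ℕ → ℕ} {L₀ : ℝ}
  {Pz : Fin m → Prop} {Lm : ℕ → κ → Fin m → Fin m → ℝ} [Ex m κ Ω Λ]

/-- The end of the proof. -/
theorem fin (hT : N7.TANP) (b : Z.LB Pz σ S L₀ t pos Lm X) (tp : pos τ) (tt : t τ = σ.wt τ)
    (nt : ∀ a e, 0 ≤ t a → 0 ≤ t e → Neg (sM X) fun n => (X n).c a e τ)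
    (mx : ∀ a, pos a → a ≠ τ → 0 < t a ∧ t a < σ.wt a)
    (ht : ∀ (i : ℕ) (y : ℚ × ℚ) (r : ℚ), 0 ≤ y.1 → y.1 ≤ y.2 → 0 ≤ r →
      TG.TP.HtAt (sy σ X) τ kf i (dep (oN (wA σ.wt t) (tA t)) (y.1, y.2)) r)
    (df : Au (sM X) fun n u _ => Df (X n) x 0 1 u)
    (hx : x < ∑ a, GO.ind (fun a => pos a ∧ a ≠ τ) (σ.wt a) a) : False := by
  obtain ⟨ca, atc, -, acs⟩ := b.chamber
  have hA : GO.Ab (o0 (wA σ.wt t)) pos (GO.Ng (sM X) fun n => (X n).c) :=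
    ⟨ca.alg.wt, ca.alg.live, ca.alg.hom, ca.alg.sub⟩
  have g : ∀ y : ℝ × ℝ, 0 ≤ y.1 → y.1 ≤ y.2 → Gy σ t X (dep (oN (wA σ.wt t) (tA t)) y) :=
    fun y u v => gd1 hA ca.tw ca.fil u v
  have e1 : ∀ a, 0 ≤ t a → wA σ.wt t a = σ.wt a ∧ tA t a = t a := fun a h =>
    ⟨if_pos h, max_eq_left h⟩
  have cl : ∀ d : κ → ℝ, Cl (sM X) (fun n => TG.sc (X n).M d) d := fun d =>
    ⟨0, .of_forall fun n a => by simp [TG.sc]⟩
  obtain ⟨r, r0, H⟩ := hT _ κ σ.Φ _ _ pos τ kf L₀ (sy σ X) ⟨ca, b.one,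
    fun k y D η ρ ε u v => acs k y D η ρ ε u v (g _ (Rat.cast_nonneg.2 u) (Rat.cast_le.2 v)), tp,
    by rw [(e1 τ (b.ad.live τ tp)).1, (e1 τ (b.ad.live τ tp)).2, tt],
    fun a e => (em (0 ≤ t a ∧ 0 ≤ t e)).elim (fun c => nt a e c.1 c.2) fun c =>
      b.dead a e τ (by simpa only [not_and_or, not_le] using c) (b.ad.live τ tp),
    fun a u v => by rw [(e1 a (b.ad.live a u)).1, (e1 a (b.ad.live a u)).2]; exact mx a u v, ht⟩
    1 one_pos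
  have a1 := atc true 0 _ _ (cl _) (g (0, r) le_rfl (Rat.cast_nonneg.2 r0)) fun a h => by
    have k := (b.st a).1 h
    have := e1 a (k ▸ (b.wp a).le)
    simp [dep, oN, this.1, this.2, k]
  have a2 := atc false 1 _ _ (cl _) (g (1, 1) zero_le_one le_rfl) fun a h => by
    simp [dep, oN, (e1 a ((b.sf a).1 h)).1]
  have a3 := atc false 0 _ 0 (cl _) GO.gd_zero fun a _ => by simp
  have a4 : Le (sM X) (fun n => ch (X n).P ((X n).O false 1) ((X n).O false 0) -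
      ch (X n).P ((X n).O false 1) ((X n).O true 0)) fun n => x * ((X n).lv 1 - (X n).lv 0) :=
    fun ε hε => (df ε hε 0).mono fun n a => by linarith [df_ch a]
  have a5 := GO.le_cmul (b.lv 1) x
  rw [show (∑ a, GO.ind (fun a => pos a ∧ a ≠ τ) (wA σ.wt t a) a) =
      ∑ a, GO.ind (fun a => pos a ∧ a ≠ τ) (σ.wt a) a from Finset.sum_congr rfl fun a _ => by
    unfold GO.ind; split_ifs with c
    exacts [(e1 a (b.ad.live a c.1)).1, rfl]] at H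
  refine hx.not_ge (Le.num b.big (Le.of4 H ((a1.add a2).add a3) a4 a5 (.of_forall fun n => ?_)))
  have := mi_dp (X n).P
    ((sy σ X n).C (TG.sc (X n).M (dep (oN (wA σ.wt t) (tA t)) (0, r))))
    ((sy σ X n).C (TG.sc (X n).M (dep (oN (wA σ.wt t) (tA t)) (1, 1))))
    ((sy σ X n).C (TG.sc (X n).M 0)) ((X n).O true 0) ((X n).O false 1) ((X n).O false 0)
  change mi _ _ _ ((sy σ X n).Z _) ≤ _ + ch _ ((sy σ X n).Z _) _ + ch _ ((sy σ X n).Z _) _ +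
    ch _ ((sy σ X n).Z _) _ at this
  simp only [NNRat.cast_one, one_mul, mul_one]
  linarith

end Pool.Agent.MP_5168f5_an.QA.P7
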