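import Pool.Agent.MP_5168f5_an.QA.P7Th

/-! The maximal estimate: linear terms of relations that hold on the increments. -/

namespace Pool.Agent.MP_5168f5_an.QA.P7

open H17F hiding co
open H19 H17S R4 Filter AN AN.LC AN.LP GA MvPolynomial
open G39 (dl OB OS dl_pos)
open N6 (At co atom_co IND ex_rp)
open Pk (cn)

section Jet

variable {J : Type} {E E' : ℕ} {g h : (J → ℝ) → ℝ} {g' h' : J → ℝ}

/-- A polynomial function `g` of degree at most `E` with gradient `g'` at the origin. -/
def Jt (E : ℕ) (g : (J → ℝ) → ℝ) (g' : J → ℝ) : Prop := ∃ F : MvPolynomial J ℝ,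
  F.totalDegree ≤ E ∧ (∀ s, eval s F = g s) ∧ ∀ a, eval 0 (pderiv a F) = g' a

theorem jt_const (x : ℝ) : Jt E (fun _ : J → ℝ => x) 0 := ⟨C x, by simp, by simp, by simp⟩

theorem Jt.of (u : Jt E g g') (e : E ≤ E') (v : ∀ s, h s = g s) (w : ∀ a, h' a = g' a) :
    Jt E' h h' := u.imp fun _ z => ⟨z.1.trans e, fun s => (z.2.1 s).trans (v s).symm,
      fun a => (z.2.2 a).trans (w a).symm⟩

theorem Jt.add (u : Jt E g g') (v : Jt E h h') : Jt E (fun s => g s + h s) fun a => g' a + h' a := by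
  obtain ⟨F, a, b, c⟩ := u
  obtain ⟨G, a', b', c'⟩ := v
  exact ⟨F + G, (totalDegree_add _ _).trans (max_le a a'), by simp [b, b'],
    fun i => by rw [map_add, map_add, c, c']⟩

theorem Jt.mul (u : Jt E g g') (v : Jt E' h h') :
    Jt (E + E') (fun s => g s * h s) fun a => g 0 * h' a + g' a * h 0 := by
  obtain ⟨F, a, b, c⟩ := u
  obtain ⟨G, a', b', c'⟩ := v
  refine ⟨F * G, (totalDegree_mul _ _).trans (add_le_add a a'), by simp [b, b'], fun i => ?_⟩
  simp only [Derivation.leibniz, smul_eq_mul, map_add, map_mul, b, b', c, c']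
  ring

theorem Jt.smul (u : Jt E g g') (x : ℝ) : Jt E (fun s => g s * x) fun a => g' a * x :=
  (u.mul (jt_const (E := 0) x)).of le_rfl (fun _ => rfl) fun a => by simp

theorem jt_sum {I : Type} (T : Finset I) {g : I → (J → ℝ) → ℝ} {g' : I → J → ℝ}
    (u : ∀ i ∈ T, Jt E (g i) (g' i)) : Jt E (fun s => ∑ i ∈ T, g i s) fun a => ∑ i ∈ T, g' i a := by
  induction T using Finset.cons_induction with
  | empty => exact jt_const 0
  | cons i T hi ih =>
    simp only [Finset.sum_cons]
    exact (u i (by simp)).add (ih fun j hj => u j (by simp [hj]))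

variable [Fintype J] {m : ℕ} {B : J → Mt (Fin m)}

theorem jt_vec (p q : Fin m) : Jt 1 (fun s => vec B s p q) fun a => B a p q := by
  classical
  refine (jt_sum Finset.univ fun b _ => Jt.smul (g := fun s => s b)
    (g' := fun a => if a = b then 1 else 0) ⟨X b, by simp, by simp, fun a => ?_⟩ (B b p q)).of le_rfl
    (fun s => by simp [vec, Matrix.sum_apply]) fun a => by simp
  by_cases z : a = b
  · simp [z]
  · simp [z, pderiv_X_of_ne (Ne.symm z)]

theorem jt_ex {N : ℕ} (nil : ∀ s, vec B s ^ N = 0) (p q : Fin m) :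
    Jt (N + 1) (fun s => ex B s p q) fun a => B a p q := by
  have k : ∀ i p q, Jt (i + 1) (fun s => (vec B s ^ (i + 1)) p q)
      fun a => if i = 0 then B a p q else 0 := fun i => by
    induction i with
    | zero => exact fun p q => (jt_vec (B := B) p q).of le_rfl (by simp) (by simp)
    | succ i ih =>
      exact fun p q => (jt_sum Finset.univ fun r _ => (jt_vec p r).mul (ih r q)).of (by omega)
        (fun s => by rw [pow_succ', Matrix.mul_apply]) fun a => by simp [vec]
  refine ((jt_sum (Finset.range (N + 1)) fun i hi => ((k i p q).smul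
    (((i + 1).factorial : ℚ)⁻¹ : ℚ)).of (Finset.mem_range.1 hi) (fun _ => rfl) fun _ => rfl).add
    (jt_const ((1 : Mt (Fin m)) p q))).of le_rfl (fun s => ?_) fun a => by simp
  rw [ex, IsNilpotent.exp_eq_sum (k := N + 1 + 1) (by rw [pow_succ, pow_succ, nil, zero_mul, zero_mul]),
    Finset.sum_range_succ']
  simp [Matrix.sum_apply, Rat.smul_def, mul_comm]

end Jet

section Seq

variable {m : ℕ} {M : ℕ → ℕ} {Y Y' : ℕ → Mt (Fin m)}

theorem exp_cong (hM : Big M) {N : ℕ} (nil : ∀ᶠ n in UF, Y n ^ N = 0 ∧ Y' n ^ N = 0)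
    (ob : ∀ p q, OB M fun n => Y n p q) (d : ∀ p q, Neg M fun n => Y' n p q - Y n p q) (p q : Fin m) :
    OB M (fun n => IsNilpotent.exp (Y n) p q) ∧
      Neg M fun n => IsNilpotent.exp (Y' n) p q - IsNilpotent.exp (Y n) p q := by
  have ob' : ∀ p q, OB M fun n => Y' n p q := fun p q => by
    simpa using ob_add hM (d p q).ob (ob p q)
  have k : ∀ i p q, OB M (fun n => (Y n ^ i) p q) ∧
      Neg M fun n => (Y' n ^ i) p q - (Y n ^ i) p q := fun i => by
    induction i with
    | zero => exact fun p q => ⟨by simpa only [pow_zero] using ob_const hM _, by simpa using neg_zero⟩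
    | succ i ih =>
      intro p q
      simp only [pow_succ', Matrix.mul_apply, ← Finset.sum_sub_distrib]
      exact ⟨ob_sum hM _ fun r _ => ob_mul hM (ob p r) (ih r q).1, Neg.sum hM _ fun r _ =>
        (((ih r q).2.mul' (ob' p r)).add hM ((d p r).mul (ih r q).1)).congr
          (.of_forall fun n => by ring)⟩
  refine ⟨ob_congr (ob_sum hM (Finset.range N) fun i _ =>
    ob_mul hM (ob_const hM ((i.factorial : ℚ)⁻¹ : ℚ)) (k i p q).1) (nil.mono fun n z => le_of_eq ?_),
    (Neg.sum hM (Finset.range N) fun i _ => (k i p q).2.mul'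
      (ob_const hM ((i.factorial : ℚ)⁻¹ : ℚ))).congr (nil.mono fun n z => ?_)⟩
  · simp [IsNilpotent.exp_eq_sum z.1, Matrix.sum_apply, Rat.smul_def]
  · simp [IsNilpotent.exp_eq_sum z.1, IsNilpotent.exp_eq_sum z.2, Matrix.sum_apply, Rat.smul_def,
      mul_sub]

theorem Lp.ng (hM : Big M) {G : ℕ → Mt (Fin m) → ℝ} (h : Lp M G) (ob : ∀ p q, OB M fun n => Y n p q)
    (d : ∀ p q, Neg M fun n => Y' n p q - Y n p q) : Neg M fun n => G n (Y' n) - G n (Y n) := by
  obtain ⟨C, h⟩ := h
  have ob' : ∀ p q, OB M fun n => Y' n p q := fun p q => by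
    simpa using ob_add hM (d p q).ob (ob p q)
  intro K
  filter_upwards [h, eventually_all.2 fun p => eventually_all.2 fun q =>
    (ob p q 1 one_pos).and ((ob' p q 1 one_pos).and (d p q (K + C)))] with n u v
  simp only [G39.dl_inv, one_mul] at v
  refine (u _ _ _ (dl_pos _ _ _).le (fun p q => (v p q).1) (fun p q => (v p q).2.1)
    fun p q => (v p q).2.2).2.2.trans (le_of_eq ?_)
  rw [dl, dl, ← Real.exp_add]
  congr 1; ring

variable {κ : Type} [Fintype κ] [DecidableEq κ] {μ : Md m} {Ω Λ : ℕ → Type}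
  {c : ℕ → Fin m → Fin m → Fin m → ℝ} {σ : St m κ} {S : Bool → Finset κ}
  {X : ∀ n, Dt m κ (Ω n) (Λ n)}

omit [DecidableEq κ] in
theorem obB (h : LI σ S X) (a : κ) (p q : Fin m) : OB (sM X) fun n => (X n).B a p q := fun c hc =>
  (h.bd c hc).mono fun n k => by rw [G39.dl_inv]; exact k.1 a p q

/-- The linear term of a relation is negligible. -/
theorem ind_jt (hX : LI σ S X) (i : IND σ S X) (k : Bool) {G : ℕ → Mt (Fin m) → ℝ}
    (hG : Lp (sM X) G) {E : ℕ} {g' : ℕ → {b // b ∈ S k} → ℝ}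
    (hj : ∀ᶠ n in UF, Jt E (fun s => G n (ex (fun b : {b // b ∈ S k} => (X n).B b) s)) (g' n))
    (z : Au (sM X) fun n _ w => Zr σ (X n) k (G n) 0 w) (a : {b // b ∈ S k}) :
    Neg (sM X) fun n => g' n a := by
  have hM := hX.big
  have : ∀ n, ∃ F : MvPolynomial {b // b ∈ S k} ℝ, F.totalDegree ≤ E ∧
      (Jt E (fun s => G n (ex (fun b : {b // b ∈ S k} => (X n).B b) s)) (g' n) →
        (∀ s, eval s F = G n (ex (fun b : {b // b ∈ S k} => (X n).B b) s)) ∧
          ∀ a, eval 0 (pderiv a F) = g' n a) := fun n => by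
    by_cases u : Jt E (fun s => G n (ex (fun b : {b // b ∈ S k} => (X n).B b) s)) (g' n)
    · exact u.imp fun _ v => ⟨v.1, fun _ => v.2⟩
    · exact ⟨0, by simp, fun v => absurd v u⟩
  choose F f1 f2 using this
  obtain ⟨r, hr⟩ := ex_rp X k 0
  obtain ⟨L, hL, co1⟩ := atom_co hM hX.fr hX.lo (hX.inc k 0)
  have w := i k 0 E 1 r (fun n _ => F n) one_pos hr fun n _ => f1 n
  have : ∀ n, ∃ ω : Ω n, pb (X n).P (fun ω => ¬dl (sM X) 1 n * cn (F n) ≤
      |eval (fun b => co σ (X n) 0 (r n ((X n).O k 0 ω)) ω b.1) (F n)|) ≤ 1 / 2 →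
      ω ∈ (X n).P.S ∧ dl (sM X) 1 n * cn (F n) ≤
        |eval (fun b => co σ (X n) 0 (r n ((X n).O k 0 ω)) ω b.1) (F n)| := fun n => by
    by_contra! y
    obtain ⟨v, -⟩ := ex_of_pb (P := (X n).P) (E := fun _ => True) (by rw [pb_true]; exact one_pos)
    have := ((pb_true (X n).P).ge.trans (pb_mono fun ω hω _ => (y ω).2 hω)).trans (y v).1
    norm_num at this
  choose ω hω using this
  have w1 := (w _ one_half_pos).mono hω
  have av : ∀ᶠ n in UF, At (X n) k 0 (r n ((X n).O k 0 (ω n))) (ω n) := by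
    filter_upwards [w1, hr] with n u v using ⟨(v _ u.1).1, u.1, (v _ u.1).2⟩
  set s : ℕ → κ → ℝ := fun n => co σ (X n) 0 (r n ((X n).O k 0 (ω n))) (ω n) with hs
  have o1 : ∀ e, OB (sM X) fun n => s n e := fun e =>
    G39.ob_of_le hL (((co1 0).and av).mono fun n u => (u.1 _ _ u.2).2.2.1 e)
  have e1 : ∀ n, vec (fun b : {b // b ∈ S k} => (X n).B b) (fun b => s n b) =
      vec (X n).B fun b => if b ∈ S k then s n b else 0 := fun n => by
    simp only [vec, ite_smul, zero_smul, Finset.sum_ite_mem, Finset.univ_inter]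
    exact Finset.sum_coe_sort (S k) fun b => s n b • (X n).B b
  have k1 := exp_cong hM (Y := fun n => vec (X n).B (s n))
    (Y' := fun n => vec (X n).B fun b => if b ∈ S k then s n b else 0) (N := σ.Φ.N + 1)
    (hX.fr.mono fun n y => ⟨σ.Φ.pow_zero' (y.1.mem _), σ.Φ.pow_zero' (y.1.mem _)⟩)
    (fun p q => by
      simp only [vec, Matrix.sum_apply, Matrix.smul_apply, smul_eq_mul]
      exact ob_sum hM _ fun e _ => ob_mul hM (o1 e) (obB hX e p q)) fun p q => by
      simp only [vec, Matrix.sum_apply, Matrix.smul_apply, smul_eq_mul, ← Finset.sum_sub_distrib,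
        ← sub_mul]
      refine Neg.sum hM _ fun e _ => Neg.mul ?_ (obB hX e p q)
      by_cases y : e ∈ S k
      · simpa [y] using GA.neg_zero
      · simp only [if_neg y, zero_sub]
        exact GA.Neg.neg fun K => ((co1 K).and av).mono fun n u => (u.1 _ _ u.2).2.2.2 e y
  have k2 : Neg (sM X) fun n => G n (IsNilpotent.exp (vec (X n).B (s n))) := fun K => by
    filter_upwards [z 1 one_pos K, av, co1 0, hX.fr] with n u v w f
    have := u _ _ v
    rwa [nm_eq f v.1 (w _ _ v).1] at this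
  refine (((hG.ng hM (fun p q => (k1 p q).1) fun p q => (k1 p q).2).add hM k2).mul_exp (C := 1)
    (v := fun n => (dl (sM X) 1 n)⁻¹) (.of_forall fun n => ?_)).mono ?_
  · rw [G39.dl_inv, abs_of_pos (Real.exp_pos _)]
  filter_upwards [w1, hj] with n u v
  have p := dl_pos (sM X) 1 n
  rw [sub_add_cancel, abs_mul, abs_inv, abs_of_pos p, ← div_eq_mul_inv, le_div_iff₀' p, ← e1,
    ← (f2 n v).2 a]
  refine le_trans (mul_le_mul_of_nonneg_left ?_ p.le) (u.2.trans_eq (by rw [(f2 n v).1]; rfl))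
  rw [show (0 : {b // b ∈ S k} → ℝ) = fun _ => 0 from rfl, eval_zero', constantCoeff_eq,
    coeff_pderiv]
  simp only [Finsupp.coe_zero, Pi.zero_apply, Nat.cast_zero, zero_add, mul_one]
  by_cases y : Finsupp.single a 1 ∈ (F n).support
  · exact Finset.single_le_sum (f := fun α => |(F n).coeff α|) (fun _ _ => abs_nonneg _) y
  · rw [notMem_support_iff.1 y, abs_zero]
    exact Finset.sum_nonneg fun _ _ => abs_nonneg _

omit [DecidableEq κ] in
theorem jt_en (hX : LI σ S X) (k : Bool) : ∀ᶠ n in UF, ∀ p q, Jt (σ.Φ.N + 1 + 1)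
    (fun s => ex (fun b : {b // b ∈ S k} => (X n).B b) s p q) fun a => (X n).B a p q := by
  classical
  refine hX.fr.mono fun n y => jt_ex fun s => σ.Φ.pow_zero' (sum_mem fun b _ => ?_)
  simpa [vec, Pi.single_apply] using y.1.mem (Pi.single b.1 (s b))

/-- An entry that is small on the increments is small on the algebra. -/
theorem ind_en (hX : LI σ S X) (i : IND σ S X) {k : Bool} {p q : Fin m}
    (z : Au (sM X) fun n _ w => Zr σ (X n) k (fun N => N p q) 0 w) {a : κ} (ha : a ∈ S k) :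
    Neg (sM X) fun n => (X n).B a p q :=
  ind_jt hX i k (lp_ent p q) ((jt_en hX k).mono fun _ y => y p q) z ⟨a, ha⟩

/-- The algebra of the cells consists of derivations. -/
theorem ind_der (hX : LI σ S X) (i : IND σ S X) (e : EE μ c σ X) {a : κ} (ha : a ∈ S false)
    (p r q : Fin m) : Neg (sM X) fun n => ∑ u, (X n).B a r u * c n p q u -
      (∑ s, c n p s r * (X n).B a s q + ∑ u, (X n).B a u p * c n u q r) := by
  refine ind_jt hX i false (lp_fA hX.big e.oc p r q) (E := σ.Φ.N + 1 + 1 + (σ.Φ.N + 1 + 1))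
    (g' := fun n a => ∑ u, (X n).B a r u * c n p q u -
      (∑ s, c n p s r * (X n).B a s q + ∑ u, (X n).B a u p * c n u q r))
    (((jt_en hX false).and hX.fr).mono fun n y => ?_) (e.aut 0 p r q) ⟨a, ha⟩
  refine (((jt_sum Finset.univ fun u _ => (y.1 r u).smul (c n p q u)).of (Nat.le_add_right _ _)
    (fun _ => rfl) fun _ => rfl).add ((jt_sum Finset.univ fun s _ => (jt_sum Finset.univ fun u _ =>
      (y.1 u p).smul (c n u s r)).mul (y.1 s q)).smul (-1))).of le_rfl (fun s => ?_) fun a => ?_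
  · simp only [fA, Matrix.sub_apply, Matrix.mul_apply, P7E.rho_single, mul_neg_one, sub_eq_add_neg]
    rfl
  · simp [ex, vec, Matrix.one_apply, Finset.sum_add_distrib, sub_eq_add_neg]

omit [DecidableEq κ] in
/-- The adjoint matrices lie in the ambient algebra. -/
theorem spans (hX : LI σ S X) (e : EE μ c σ X) : ∃ R : ℕ → Fin m → κ → ℝ,
    (∀ p a, OB (sM X) fun n => R n p a) ∧ (∀ n, R n σ.o = 0) ∧
      ∀ᶠ n in UF, ∀ p, p ≠ σ.o → ∀ r q, vec (X n).B (R n p) r q = c n p q r := by
  have key : ∀ᶠ n in UF, ∀ p, p ≠ σ.o → ∃ t, ∀ r q, vec (X n).B t r q = c n p q r := by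
    filter_upwards [hX.fr, e.ce 1 one_pos 0] with n f g p hp
    have z : ∀ t r q, ¬σ.la q < σ.la r → vec (X n).B t r q = 0 := fun t r q u => by
      simp only [vec, Matrix.sum_apply, Matrix.smul_apply, smul_eq_mul]
      exact Finset.sum_eq_zero fun a _ => mul_eq_zero_of_right _ (not_not.1 fun w => u (by
        linarith [f.2.1 a r q w, hX.wp a]))
    let φ : (κ → ℝ) →ₗ[ℝ] (N2.El σ.la → ℝ) :=
      { toFun := fun t i => vec (X n).B t i.1.1 i.1.2
        map_add' := fun s t => funext fun i => by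
          simp [vec, Matrix.sum_apply, add_mul, Finset.sum_add_distrib]
        map_smul' := fun x t => funext fun i => by
          simp [vec, Matrix.sum_apply, Finset.mul_sum, mul_assoc] }
    obtain ⟨t, ht⟩ := (LinearMap.injective_iff_surjective_of_finrank_eq_finrank (f := φ)
      (by simpa using e.card)).1 ((injective_iff_map_eq_zero φ).2 fun t u => f.1.inj t (by
        ext r q
        by_cases y : σ.la q < σ.la r
        exacts [congrFun u ⟨(r, q), y⟩, z t r q y])) fun i => c n p i.1.2 i.1.1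
    refine ⟨t, fun r q => ?_⟩
    by_cases y : σ.la q < σ.la r
    · exact congrFun ht ⟨(r, q), y⟩
    · rw [z t r q y]
      exact not_not.1 fun w => y (by linarith [(g.gr p q r (Ne.symm w)).1, hX.lp p hp])
  have : ∀ n p, ∃ t : κ → ℝ, (p = σ.o → t = 0) ∧ (p ≠ σ.o → (∃ t, ∀ r q,
      vec (X n).B t r q = c n p q r) → ∀ r q, vec (X n).B t r q = c n p q r) := fun n p => by
    by_cases y : p ≠ σ.o ∧ ∃ t, ∀ r q, vec (X n).B t r q = c n p q r
    · exact y.2.imp fun t u => ⟨fun w => absurd w y.1, fun _ _ => u⟩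
    · exact ⟨0, fun _ => rfl, fun u v => absurd ⟨u, v⟩ y⟩
  choose R r1 r2 using this
  refine ⟨R, fun p a => ?_, fun n => r1 n _ rfl, key.mono fun n u p hp => r2 n p hp (u p hp)⟩
  by_cases y : p = σ.o
  · simpa only [r1 _ p y, Pi.zero_apply] using ob_const hX.big 0
  have o1 := ob_sum hX.big Finset.univ fun r _ => ob_sum hX.big Finset.univ fun q _ =>
    ob_congr (v := fun n => |c n p q r|) (e.oc p q r) (.of_forall fun n => (abs_abs _).le)
  intro ε hε
  filter_upwards [o1 _ (half_pos hε), hX.bd _ (half_pos hε), key] with n u v w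
  rw [G39.dl_inv] at u ⊢
  have := v.2 (R n p) a
  simp only [r2 n p y (w p y)] at this
  refine this.trans ((mul_le_mul_of_nonneg_left ((le_abs_self _).trans u)
    (Real.exp_pos _).le).trans (le_of_eq ?_))
  rw [← Real.exp_add]
  congr 1
  simp only [sM]; ring

end Seq

end Pool.Agent.MP_5168f5_an.QA.P7
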