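import Pool.Agent.MP_5168f5_an.QA.P7Ex
import Pool.Agent.MP_5168f5_an.QA.P7Ht
import Pool.Agent.MP_5168f5_an.AN.G39Val

/-! The maximal estimate: a character that vanishes on the orbit of the algebra is small. -/

namespace Pool.Agent.MP_5168f5_an.QA.P7

open H17F hiding co
open H19 H17S R4 Filter AN AN.LC AN.LP GA
open G39 (dl OB OS unifC os_fin dl_pos dl_add dl_anti)
open N6 (At co atom_co mem_fb)

variable {m : ℕ} {κ : Type} [Fintype κ] {μ : Md m} {Ω Λ : ℕ → Type}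
  {c : ℕ → Fin m → Fin m → Fin m → ℝ} {σ : St m κ} {S : Bool → Finset κ}
  {X : ∀ n, Dt m κ (Ω n) (Λ n)} {F : ℕ → Fin m → ℝ}

/-- The normalised form is uniformly small on the pairs of an atom. -/
theorem thin (hX : LI σ S X) (k : Bool) {J : Type} [Fintype J] {A : J → ℕ → ℝ} {Q : Fin m → Prop}
    {p : Fin m} (h0 : ¬OS (sM X) fun n => F n p) (br : ∀ i, OS (sM X) (A i))
    (va : ∀ s : ℕ → κ → ℝ, (∀ a, OB (sM X) fun n => s n a) →
      (∀ a, a ∉ S k → Neg (sM X) fun n => s n a) → ∀ q, Q q →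
      OS (sM X) fun n => ∑ p, F n p * ex (X n).B (s n) p q) :
    ∃ η : ℝ, 0 < η ∧ ∀ᶠ n in UF, ∃ ν : ℝ, ∑ p, |F n p / ν| = 1 ∧
      (∀ i, |A i n / ν| ≤ Real.exp (-(η * (X n).M))) ∧ ∀ ω v, At (X n) k 0 ω v → ∀ q, Q q →
        |∑ p, F n p / ν * nm σ (X n) 0 ω v p q| ≤ Real.exp (-(η * (X n).M)) := by
  classical
  obtain ⟨L, hL, co1⟩ := atom_co hX.big hX.fr hX.lo (hX.inc k 0)
  have : ∀ n, Nonempty (Ω n × Ω n) := fun n =>
    (ex_of_pb (P := (X n).P) (E := fun _ => True) (by rw [pb_true]; exact one_pos)).elim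
      fun v _ => ⟨(v, v)⟩
  obtain ⟨c1, p1, e1⟩ := os_fin Finset.univ fun i _ => br i
  obtain ⟨c2, p2, e2⟩ := unifC (A := fun n => Ω n × Ω n) (h := fun n y => At (X n) k 0 y.1 y.2)
    (p := fun e n y => ∀ q ∈ Finset.univ.filter Q,
      |∑ p, F n p * nm σ (X n) 0 y.1 y.2 p q| ≤ dl (sM X) e n)
    (fun e e' n y u v q z => (v q z).trans (dl_anti _ u n)) fun y hy => by
      obtain ⟨e, p, z⟩ := os_fin (Finset.univ.filter Q) fun q u =>
        va (fun n => co σ (X n) 0 (y n).1 (y n).2) (fun a => G39.ob_of_le hL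
          (((co1 0).and hy).mono fun n u => (u.1 _ _ u.2).2.2.1 a))
          (fun a z K => ((co1 K).and hy).mono fun n u => (u.1 _ _ u.2).2.2.2 a z) q
          (Finset.mem_filter.1 u).2
      refine ⟨e, p, ?_⟩
      filter_upwards [z, co1 0, hy, hX.fr] with n u v w f
      rwa [nm_eq f w.1 (v _ _ w).1]
  have p3 : 0 < min c1 c2 / 2 := by positivity
  refine ⟨_, p3, ?_⟩
  filter_upwards [e1, e2, Ultrafilter.eventually_not.2 fun z => h0 ⟨_, p3, z⟩] with n u v w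
  have n1 : dl (sM X) (min c1 c2 / 2) n ≤ (∑ p, |F n p|) := (not_le.1 w).le.trans
    (Finset.single_le_sum (f := fun p => |F n p|) (fun _ _ => abs_nonneg _) (Finset.mem_univ p))
  have n0 := (dl_pos _ _ _).trans_le n1
  have nu : ∀ y : ℝ, |y| ≤ dl (sM X) (min c1 c2) n →
      |y / (∑ p, |F n p|)| ≤ Real.exp (-(min c1 c2 / 2 * (X n).M)) := fun y z => by
    rw [abs_div, abs_of_pos n0, div_le_iff₀ n0]
    refine z.trans (le_trans (le_of_eq ?_) (mul_le_mul_of_nonneg_left n1 (Real.exp_pos _).le))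
    rw [← add_halves (min c1 c2), dl_add, add_halves]
    rfl
  refine ⟨∑ p, |F n p|, ?_, fun i => nu _ ((u i (Finset.mem_univ i)).trans
    (dl_anti _ (min_le_left _ _) n)), fun ω y z q e => ?_⟩
  · simp only [abs_div, abs_of_pos n0]
    rw [← Finset.sum_div, div_self n0.ne']
  · simp only [div_mul_eq_mul_div (F n _), ← Finset.sum_div]
    exact nu _ ((v (ω, y) z q (by simpa using e)).trans (dl_anti _ (min_le_right _ _) n))

theorem no_one {M : ℕ → ℕ} (hM : Big M) {η L : ℝ} (hη : 0 < η) (hL : 1 ≤ L) :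
    ∀ᶠ n in UF, Real.exp (η / L / 2 * M n - η * M n / L) < 1 :=
  (hM.ev 1).mono fun n z => Real.exp_lt_one_iff.2 (by
    have : 0 < η / L * M n := by positivity
    rw [mul_div_right_comm]
    linarith)

/-- Characters of rate zero. -/
theorem thin1 (hX : LI σ S X) (e : EE μ c σ X) (sup : ∀ n p, F n p ≠ 0 → G1 μ σ.la σ.o p)
    (br : ∀ p q, G1 μ σ.la σ.o p → G1 μ σ.la σ.o q → OS (sM X) fun n => ∑ r, c n p q r * F n r)
    (va : ∀ s : ℕ → κ → ℝ, (∀ a, OB (sM X) fun n => s n a) →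
      (∀ a, a ∉ S true → Neg (sM X) fun n => s n a) →
      OS (sM X) fun n => ∑ p, F n p * ex (X n).B (s n) p σ.o) (p : Fin m) :
    OS (sM X) fun n => F n p := by
  classical
  by_contra h0
  obtain ⟨η, hη, z⟩ := thin hX true (J := {p // G1 μ σ.la σ.o p} × {p // G1 μ σ.la σ.o p})
    (Q := fun q => q = σ.o) h0 (fun i => br i.1 i.2 i.1.2 i.2.2) fun s u v q w => w ▸ va s u v
  have hL := e.ok.one
  obtain ⟨n, ⟨ν, z1, z2, z3⟩, u, v⟩ := (z.and ((e.ac0 0 (η / μ.L / 2) (by positivity) η).and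
    (no_one hX.big hη hL))).exists
  obtain ⟨ω, hω, -⟩ := ex_of_pb (P := (X n).P) (E := fun _ => True) (by rw [pb_true]; exact one_pos)
  have := u ω hω _ le_rfl _ z1 (fun p y => sup n p (div_ne_zero_iff.1 y).1) (fun p q x y => by
    simpa only [← mul_div_assoc, ← Finset.sum_div] using z2 (⟨p, x⟩, ⟨q, y⟩)) (fun _ => True)
    fun v v' x y _ _ => z3 v v' (x.symm.trans y) _ rfl
  rw [pb_true] at this
  exact (this.trans_lt v).false

/-- Homogeneous characters. -/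
theorem thin2 (hX : LI σ S X) (e : EE μ c σ X) {w : ℝ}
    (sup : ∀ n p, F n p ≠ 0 → p ≠ σ.o ∧ σ.la p = w)
    (br : ∀ p q, p ≠ σ.o → q ≠ σ.o → OS (sM X) fun n => ∑ r, c n p q r * F n r)
    (va : ∀ s : ℕ → κ → ℝ, (∀ a, OB (sM X) fun n => s n a) →
      (∀ a, a ∉ S false → Neg (sM X) fun n => s n a) → ∀ q, G1 μ σ.la σ.o q →
      OS (sM X) fun n => ∑ p, F n p * ex (X n).B (s n) p q) (p : Fin m) :
    OS (sM X) fun n => F n p := by
  classical
  by_contra h0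
  obtain ⟨η, hη, z⟩ := thin hX false (J := {p // p ≠ σ.o} × {p // p ≠ σ.o}) h0
    (fun i => br i.1 i.2 i.1.2 i.2.2) va
  have hL := e.ok.one
  obtain ⟨n, ⟨ν, z1, z2, z3⟩, u, v⟩ := (z.and ((e.rob 0 (η / μ.L / 2) (by positivity) η).and
    (no_one hX.big hη hL))).exists
  obtain ⟨ω, hω, -⟩ := ex_of_pb (P := (X n).P) (E := fun _ => True) (by rw [pb_true]; exact one_pos)
  have := u ω hω _ le_rfl _ 0 z1 ⟨rfl, ⟨w, fun p y => sup n p (div_ne_zero_iff.1 y).1⟩,
    fun p q x y => by simpa only [← mul_div_assoc, ← Finset.sum_div] using z2 (⟨p, x⟩, ⟨q, y⟩)⟩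
  refine (((pb_true (P := (X n).fb false 0 ω)).ge.trans ((pb_mono fun y hy _ q x => ?_).trans this)).trans_lt v).false
  rw [sub_zero]
  exact z3 ω y ((mem_fb hω).1 hy) q x

end Pool.Agent.MP_5168f5_an.QA.P7
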