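import Pool.Agent.MP_5168f5_an.H19.Ent

/-! A concave penalty with lacunary slopes. -/

namespace Pool.Agent.MP_5168f5_an.QA.Pen

open H19 Finset

/-- The slopes. -/
noncomputable def th (t v : ℝ) (i : ℕ) : ℝ := t * v ^ i

/-- The offsets. -/
noncomputable def bb (t v : ℝ) (X : ℕ → ℝ) : ℕ → ℝ
  | 0 => 0
  | i + 1 => bb t v X i + (th t v i - th t v (i + 1)) * X (i + 1)

/-- The penalty. -/
noncomputable def pn (t v : ℝ) (X : ℕ → ℝ) (I : ℕ) (y : ℝ) : ℝ :=
  (range (I + 1)).inf' ⟨0, by simp⟩ fun i => bb t v X i + th t v i * y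

/-- Admissible data. -/
structure Ok (t v : ℝ) (X : ℕ → ℝ) : Prop where
  t0 : 0 ≤ t
  v0 : 0 ≤ v
  v1 : v ≤ 1
  x0 : X 0 = 0
  mono : Monotone X

variable {t v : ℝ} {X : ℕ → ℝ} {I i j : ℕ} {y z : ℝ}

theorem th_zero : th t v 0 = t := by simp [th]

theorem th_succ : th t v (i + 1) = v * th t v i := by simp only [th, pow_succ]; ring

theorem Ok.th_nonneg (h : Ok t v X) (i : ℕ) : 0 ≤ th t v i := mul_nonneg h.t0 (pow_nonneg h.v0 _)

theorem Ok.th_anti (h : Ok t v X) (hij : i ≤ j) : th t v j ≤ th t v i :=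
  mul_le_mul_of_nonneg_left (pow_le_pow_of_le_one h.v0 h.v1 hij) h.t0

theorem Ok.x_nonneg (h : Ok t v X) (i : ℕ) : 0 ≤ X i := h.x0 ▸ h.mono (Nat.zero_le i)

theorem Ok.bb_sub (h : Ok t v X) (hij : i ≤ j) :
    (th t v i - th t v j) * X (i + 1) ≤ bb t v X j - bb t v X i := by
  induction j, hij using Nat.le_induction with
  | base => simp
  | succ k hk ih =>
    have a := sub_nonneg.2 (h.th_anti (Nat.le_succ k))
    have b := mul_le_mul_of_nonneg_left (h.mono (Nat.succ_le_succ hk)) a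
    simp only [bb]
    nlinarith

theorem Ok.bb_nonneg (h : Ok t v X) (i : ℕ) : 0 ≤ bb t v X i := by
  have a := h.bb_sub (Nat.zero_le i)
  have b := mul_nonneg (sub_nonneg.2 (h.th_anti (Nat.zero_le i))) (h.x_nonneg (0 + 1))
  simp only [bb, sub_zero] at a
  linarith

theorem Ok.bb_le' (h : Ok t v X) (i : ℕ) : bb t v X i ≤ (t - th t v i) * X i := by
  induction i with
  | zero => simp [bb, th]
  | succ k ih =>
    have a : 0 ≤ t - th t v k := by
      have := h.th_anti (Nat.zero_le k)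
      rw [th_zero] at this
      linarith
    have b := mul_le_mul_of_nonneg_left (h.mono (Nat.le_succ k)) a
    simp only [bb]
    nlinarith

theorem Ok.bb_le (h : Ok t v X) (i : ℕ) : bb t v X i ≤ t * X i := by
  have a := h.bb_le' i
  have b := mul_nonneg (h.th_nonneg i) (h.x_nonneg i)
  nlinarith

theorem pn_le (hi : i ≤ I) (y : ℝ) : pn t v X I y ≤ bb t v X i + th t v i * y :=
  inf'_le (fun i => bb t v X i + th t v i * y) (mem_range.2 (Nat.lt_succ_of_le hi))

theorem pn_eq (t v : ℝ) (X : ℕ → ℝ) (I : ℕ) (y : ℝ) :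
    ∃ i ≤ I, pn t v X I y = bb t v X i + th t v i * y := by
  obtain ⟨i, hi, e⟩ := exists_mem_eq_inf' (s := range (I + 1)) ⟨0, by simp⟩
    fun i => bb t v X i + th t v i * y
  exact ⟨i, Nat.lt_succ_iff.1 (mem_range.1 hi), e⟩

/-- The largest slope. -/
theorem pn_le_top (y : ℝ) : pn t v X I y ≤ t * y := by
  simpa [bb, th] using pn_le (t := t) (v := v) (X := X) (Nat.zero_le I) y

/-- The slope of a range, with the offset. -/
theorem Ok.pn_le_rng (h : Ok t v X) (hi : i ≤ I) (y : ℝ) :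
    pn t v X I y ≤ t * X i + th t v i * y :=
  (pn_le hi y).trans (by linarith [h.bb_le i])

/-- The smallest slope. -/
theorem Ok.le_pn (h : Ok t v X) (hy : 0 ≤ y) : th t v I * y ≤ pn t v X I y := by
  obtain ⟨i, hi, e⟩ := pn_eq t v X I y
  have := mul_le_mul_of_nonneg_right (h.th_anti hi) hy
  linarith [h.bb_nonneg i]

theorem Ok.pn_nonneg (h : Ok t v X) (hy : 0 ≤ y) : 0 ≤ pn t v X I y :=
  (mul_nonneg (h.th_nonneg I) hy).trans (h.le_pn hy)

theorem Ok.pn_zero (h : Ok t v X) : pn t v X I 0 = 0 :=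
  le_antisymm (by simpa using pn_le_top (t := t) (v := v) (X := X) (I := I) 0) (h.pn_nonneg le_rfl)

theorem Ok.pn_mono (h : Ok t v X) (hyz : y ≤ z) : pn t v X I y ≤ pn t v X I z := by
  obtain ⟨i, hi, e⟩ := pn_eq t v X I z
  have := mul_le_mul_of_nonneg_left hyz (h.th_nonneg i)
  linarith [pn_le (t := t) (v := v) (X := X) hi y]

/-- Subadditivity. -/
theorem Ok.pn_add (h : Ok t v X) (hy : 0 ≤ y) (hz : 0 ≤ z) :
    pn t v X I (y + z) ≤ pn t v X I y + pn t v X I z := by
  obtain ⟨i, hi, e⟩ := pn_eq t v X I y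
  obtain ⟨j, hj, e'⟩ := pn_eq t v X I z
  rcases le_total i j with a | a
  · have := mul_le_mul_of_nonneg_right (h.th_anti a) hy
    have b := pn_le (t := t) (v := v) (X := X) hj (y + z)
    nlinarith [h.bb_nonneg i]
  · have := mul_le_mul_of_nonneg_right (h.th_anti a) hz
    have b := pn_le (t := t) (v := v) (X := X) hi (y + z)
    nlinarith [h.bb_nonneg j]

/-- The triangle inequality. -/
theorem Ok.pn_tri (h : Ok t v X) {x : ℝ} (hy : 0 ≤ y) (hz : 0 ≤ z) (hx : x ≤ y + z) :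
    pn t v X I x ≤ pn t v X I y + pn t v X I z :=
  (h.pn_mono hx).trans (h.pn_add hy hz)

/-- Below the next break point. -/
theorem Ok.mid (h : Ok t v X) (hy : 0 ≤ y) (hX : y ≤ X (i + 1)) : th t v i * y ≤ pn t v X I y := by
  obtain ⟨j, -, e⟩ := pn_eq t v X I y
  rcases le_total j i with a | a
  · have := mul_le_mul_of_nonneg_right (h.th_anti a) hy
    linarith [h.bb_nonneg j]
  · have b := h.bb_sub a
    have c := mul_le_mul_of_nonneg_left hX (sub_nonneg.2 (h.th_anti a))
    nlinarith [h.bb_nonneg i]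

/-- Below the break point. -/
theorem Ok.low (h : Ok t v X) (hy : 0 ≤ y) (hX : y ≤ X i) : th t v i * y ≤ v * pn t v X I y := by
  cases i with
  | zero =>
    have : y = 0 := le_antisymm (h.x0 ▸ hX) hy
    simp [this, h.pn_zero]
  | succ k =>
    rw [th_succ, mul_assoc]
    exact mul_le_mul_of_nonneg_left (h.mid hy hX) h.v0

/-- The drift caused by a jump of size `y` in the range `i`. -/
noncomputable def dr (t v : ℝ) (X : ℕ → ℝ) (i : ℕ) (y : ℝ) : ℝ :=
  if y < X (i + 1) then th t v i * y else 0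

theorem Ok.dr_nonneg (h : Ok t v X) (hy : 0 ≤ y) : 0 ≤ dr t v X i y := by
  unfold dr
  split_ifs
  exacts [mul_nonneg (h.th_nonneg i) hy, le_rfl]

theorem dr_eq (hy : y < X (i + 1)) : dr t v X i y = th t v i * y := if_pos hy

/-- The part of the penalty in the range `i`. -/
noncomputable def md (t v : ℝ) (X : ℕ → ℝ) (I i : ℕ) (y : ℝ) : ℝ :=
  if X i ≤ y ∧ y < X (i + 1) then pn t v X I y else 0

theorem Ok.dr_le (h : Ok t v X) (hy : 0 ≤ y) :
    dr t v X i y ≤ v * pn t v X I y + md t v X I i y := by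
  have a := mul_nonneg h.v0 (h.pn_nonneg (I := I) hy)
  unfold dr md
  by_cases b : y < X (i + 1)
  · by_cases c : X i ≤ y
    · rw [if_pos b, if_pos ⟨c, b⟩]
      linarith [h.mid (I := I) hy b.le]
    · rw [if_pos b, if_neg fun e => c e.1]
      linarith [h.low (I := I) hy (not_le.1 c).le]
  · rw [if_neg b, if_neg fun e => b e.2]
    linarith

theorem Ok.md_sum' (h : Ok t v X) (hy : 0 ≤ y) (J : ℕ) :
    ∑ i ∈ range J, md t v X I i y ≤ if y < X J then pn t v X I y else 0 := by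
  have p := h.pn_nonneg (I := I) hy
  induction J with
  | zero => rw [sum_range_zero]; split_ifs <;> linarith
  | succ k ih =>
    rw [sum_range_succ]
    by_cases a : y < X k
    · rw [if_pos a] at ih
      have e : md t v X I k y = 0 := if_neg fun e => absurd a (not_lt.2 e.1)
      rw [if_pos (a.trans_le (h.mono (Nat.le_succ k))), e]
      linarith
    · rw [if_neg a] at ih
      unfold md at ih ⊢
      by_cases b : y < X (k + 1)
      · rw [if_pos b, if_pos ⟨not_lt.1 a, b⟩]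
        linarith
      · rw [if_neg b, if_neg fun e => b e.2]
        linarith

theorem Ok.md_sum (h : Ok t v X) (hy : 0 ≤ y) (J : ℕ) :
    ∑ i ∈ range J, md t v X I i y ≤ pn t v X I y :=
  (h.md_sum' hy J).trans (by split_ifs; exacts [le_rfl, h.pn_nonneg hy])

/-- Selection of the range: the total drift is a small part of the total penalty. -/
theorem Ok.pick (h : Ok t v X) (hI : 0 < I) {Ω ι : Type} (P : FP Ω) (s : Finset ι)
    (y : ι → Ω → ℝ) (hy : ∀ c ∈ s, ∀ ω ∈ P.S, 0 ≤ y c ω) : ∃ i < I,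
    ∑ c ∈ s, P.E (fun ω => dr t v X i (y c ω)) ≤
      (v + 1 / I) * ∑ c ∈ s, P.E fun ω => pn t v X I (y c ω) := by
  set A := ∑ c ∈ s, P.E fun ω => pn t v X I (y c ω) with hA
  have hI' : (0 : ℝ) < I := by exact_mod_cast hI
  have tot : ∑ i ∈ range I, ∑ c ∈ s, P.E (fun ω => md t v X I i (y c ω)) ≤
      ∑ _i ∈ range I, 1 / (I : ℝ) * A := by
    rw [sum_const, card_range, nsmul_eq_mul, ← mul_assoc, mul_one_div_cancel hI'.ne', one_mul,
      sum_comm]
    refine sum_le_sum fun c hc => ?_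
    rw [← P.E_sum]
    exact P.E_mono fun ω hω => h.md_sum (hy c hc ω hω) I
  obtain ⟨i, hi, e⟩ := exists_le_of_sum_le (nonempty_range_iff.2 hI.ne') tot
  refine ⟨i, mem_range.1 hi, ?_⟩
  have b : ∑ c ∈ s, P.E (fun ω => dr t v X i (y c ω)) ≤
      v * A + ∑ c ∈ s, P.E fun ω => md t v X I i (y c ω) := by
    rw [hA, mul_sum, ← sum_add_distrib]
    refine sum_le_sum fun c hc => ?_
    rw [← P.E_mul, ← P.E_add]
    exact P.E_mono fun ω hω => h.dr_le (hy c hc ω hω)
  linarith

/-- A short path has no long jump, so that the slope times the length is the drift. -/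
theorem path {ι : Type} (s : Finset ι) (y : ι → ℝ) (hy : ∀ c ∈ s, 0 ≤ y c)
    (hs : ∑ c ∈ s, y c < X (i + 1)) :
    th t v i * ∑ c ∈ s, y c = ∑ c ∈ s, dr t v X i (y c) := by
  rw [mul_sum]
  exact sum_congr rfl fun c hc => (dr_eq ((single_le_sum hy hc).trans_lt hs)).symm

end Pool.Agent.MP_5168f5_an.QA.Pen
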