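import Pool.Agent.MP_5168f5_an.QA.QSpec
import Pool.Agent.MP_5168f5_an.H17F.KG
import Pool.Agent.MP_5168f5_an.H29N.Glue

/-! Fixing the coins. -/

namespace Pool.Agent.MP_5168f5_an.QA

open H19 H17S H17F

theorem qDer : QDer := by
  intro Ω U δ P Q w K
  let f : Ω × U → ℝ := fun v => -Real.log (H29N.prv (prod P Q) K (K v)) - w (K v)
  obtain ⟨u, hu, h⟩ : ∃ u ∈ Q.S, P.E (fun ω => f (ω, u)) ≤ Q.E fun u => P.E fun ω => f (ω, u) := by
    by_contra h
    push Not at h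
    exact (Finset.sum_lt_sum_of_nonempty (Finset.nonempty_of_sum_ne_zero
      (Q.sum_one.trans_ne one_ne_zero)) fun u hu =>
        mul_lt_mul_of_pos_left (h u hu) (Q.pos u hu)).ne (Q.E_const _)
  refine ⟨u, hu, ?_⟩
  rw [← KGA.E_swap P Q fun ω u => f (ω, u), ← E_bind P (fun _ => Q) f] at h
  simp only [f, FP.E_sub] at h
  rw [H29N.hh_eq (prod P Q)]
  exact (sub_le_sub_right (H29N.gibbs_law P (fun ω => K (ω, u)) (prod P Q) K fun ω hω =>
    H29N.prv_pos _ K ((mem_bind _ _ (ω, u)).2 ⟨hω, hu⟩)) _).trans h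

end Pool.Agent.MP_5168f5_an.QA
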