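import Pool.Agent.MP_5168f5_an.QA.QSpec
import Pool.Agent.MP_5168f5_an.H17F.KE
import Pool.Agent.MP_5168f5_an.H17F.Sq2

/-! The maximal estimate in all dimensions: exhaustion by slowly shrinking events. -/

namespace Pool.Agent.MP_5168f5_an.QA

open H19 H17S H17F Filter

namespace QExA

variable {W α δ : Type} {Y : W → α} {w : δ → ℝ}

theorem fv_congr {Q : FP W} {K K' : W → δ} (h : ∀ v ∈ Q.S, K v = K' v) :
    Fv Q Y w K = Fv Q Y w K' := by
  unfold Fv
  rw [← ch_unit K, ← ch_unit K', ch_ext h fun _ _ => rfl,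
    Q.E_congr fun v hv => congrArg w (h v hv)]

theorem fv_split (Q : FP W) (E : W → Prop) (K : W → δ) : Fv Q Y w K ≤
    lg + pb Q E * Fv (cE Q E) Y w K + (1 - pb Q E) * Fv (cE Q fun v => ¬E v) Y w K := by
  classical
  have h1 := rowKE.le Q E K fun _ => ()
  have h2 := rowKE.ge Q E Y fun _ => ()
  simp only [ch_unit] at h1 h2
  have h3 := E_cE Q E fun v => w (K v)
  have h4 := E_cE Q (fun v => ¬E v) fun v => w (K v)
  rw [pb_not] at h4
  have h5 : Q.E (fun v => w (K v)) = pb Q E * (cE Q E).E (fun v => w (K v)) +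
      (1 - pb Q E) * (cE Q fun v => ¬E v).E fun v => w (K v) := by
    rw [h3, h4, ← Q.E_add]
    exact Q.E_congr fun v _ => by by_cases h : E v <;> simp [h]
  unfold Fv
  rw [h5]; linarith

/-- The unnormalised value. -/
noncomputable def Φ (P : FP W) (Y : W → α) (w : δ → ℝ) (E : W → Prop) (K : W → δ) : ℝ :=
  pb P E * Fv (cE P E) Y w K

theorem Φ_cE (P : FP W) (U E : W → Prop) (K : W → δ) :
    pb P U * Φ (cE P U) Y w E K = Φ P Y w (fun v => U v ∧ E v) K := by
  unfold Φ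
  rw [← mul_assoc, pb_cE]
  by_cases h : ∃ v ∈ P.S, U v ∧ E v
  · rw [cE_cE h]
  · rw [pb_zero fun v hv e => h ⟨v, hv, e⟩, zero_mul, zero_mul]

theorem Φ_congr {P : FP W} {E E' : W → Prop} {K K' : W → δ} (h : ∀ v ∈ P.S, E v ↔ E' v)
    (h' : ∀ v ∈ P.S, E v → K v = K' v) : Φ P Y w E K = Φ P Y w E' K' := by
  unfold Φ
  rw [← pb_congr h, ← cE_congr h]
  by_cases k : ∃ v ∈ P.S, E v
  · rw [fv_congr fun v hv => h' v ((mem_cE k v).1 hv).1 ((mem_cE k v).1 hv).2]
  · rw [pb_zero fun v hv e => k ⟨v, hv, e⟩, zero_mul, zero_mul]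

theorem Φ_split (P : FP W) (U E : W → Prop) (K : W → δ) : Φ P Y w U K ≤
    lg + Φ P Y w (fun v => U v ∧ E v) K + Φ P Y w (fun v => U v ∧ ¬E v) K := by
  have h1 := mul_le_mul_of_nonneg_left (fv_split (Y := Y) (w := w) (cE P U) E K) (pb_nonneg P U)
  rw [← Φ_cE, ← Φ_cE]
  have h2 := mul_le_mul_of_nonneg_right (pb_le_one P U) lg_pos.le
  unfold Φ
  rw [pb_not]
  linarith

/-- An event that is already covered. -/
def Gd (P : FP W) (Y : W → α) (w : δ → ℝ) (ok : W → δ → Prop) (r : ℝ) (E : W → Prop) : Prop :=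
  ∃ K : W → δ, (∀ v ∈ P.S, E v → ok v (K v)) ∧ Φ P Y w E K + pb P E * r ≤ 0

theorem ex_max (P : FP W) (Y : W → α) (w : δ → ℝ) (ok : W → δ → Prop) (r : ℝ) (k₀ : δ) :
    ∃ E, Gd P Y w ok r E ∧ ∀ E', Gd P Y w ok r E' → pb P E' ≤ pb P E := by
  classical
  have h0 : Gd P Y w ok r fun v => v ∈ (∅ : Finset W) := ⟨fun _ => k₀, by simp, by
    unfold Φ; rw [pb_zero fun v _ => by simp]; simp⟩
  obtain ⟨U, hU, hm⟩ := Finset.exists_max_image
    (P.S.powerset.filter fun U => Gd P Y w ok r fun v => v ∈ U) (fun U => pb P fun v => v ∈ U)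
    ⟨∅, Finset.mem_filter.2 ⟨by simp, h0⟩⟩
  refine ⟨_, (Finset.mem_filter.1 hU).2, fun E' ⟨K, h1, h2⟩ => ?_⟩
  have e : ∀ v ∈ P.S, E' v ↔ v ∈ P.S.filter E' := fun v hv => by simp [hv]
  rw [pb_congr e]
  refine hm _ (Finset.mem_filter.2 ⟨Finset.mem_powerset.2 (Finset.filter_subset _ _),
    K, fun v hv k => h1 v hv ((e v hv).2 k), ?_⟩)
  rw [← Φ_congr e fun _ _ _ => rfl, ← pb_congr e]; exact h2

theorem grow {P : FP W} {ok : W → δ → Prop} {r s : ℝ} {E G : W → Prop} {K : W → δ}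
    (hE : Gd P Y w ok r E) (hq : 0 < pb P fun v => ¬E v ∧ G v)
    (h1 : ∀ v ∈ (cE (cE P fun v => ¬E v) G).S, ok v (K v))
    (h2 : Fv (cE (cE P fun v => ¬E v) G) Y w K + r ≤ -s)
    (h3 : lg ≤ pb P (fun v => ¬E v ∧ G v) * s) :
    Gd P Y w ok r (fun v => E v ∨ G v) ∧ pb P E < pb P fun v => E v ∨ G v := by
  classical
  obtain ⟨K₁, k1, k2⟩ := hE
  have hx := ex_of_pb hq
  rw [cE_cE hx] at h1 h2
  have hp : pb P (fun v => E v ∨ G v) = pb P E + pb P fun v => ¬E v ∧ G v := by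
    rw [pb_split P (fun v => E v ∨ G v) E]
    congr 1 <;> exact pb_congr fun v _ => by tauto
  refine ⟨⟨fun v => if E v then K₁ v else K v, fun v hv e => ?_, ?_⟩, by linarith⟩
  · by_cases h : E v
    · simpa [h] using k1 v hv h
    · simpa [h] using h1 v ((mem_cE hx v).2 ⟨hv, h, e.resolve_left h⟩)
  · have h4 := Φ_split (Y := Y) (w := w) P (fun v => E v ∨ G v) E
      fun v => if E v then K₁ v else K v
    rw [Φ_congr (E := fun v => (E v ∨ G v) ∧ E v) (E' := E) (K' := K₁) (fun v _ => by tauto)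
        (fun v _ e => by simp [e.2]),
      Φ_congr (E := fun v => (E v ∨ G v) ∧ ¬E v) (E' := fun v => ¬E v ∧ G v) (K' := K)
        (fun v _ => by tauto) (fun v _ e => by simp [e.2])] at h4
    have h5 := mul_le_mul_of_nonneg_left h2 hq.le
    rw [hp]
    unfold Φ at h4 k2 ⊢
    linarith

theorem fin {P : FP W} {ok : W → δ → Prop} {r : ℝ} {E : W → Prop} {k₀ : δ}
    (hE : Gd P Y w ok r E) (hw : w k₀ = 0) (h0 : ∀ v ∈ P.S, ok v k₀) :
    ∃ K : W → δ, (∀ v ∈ P.S, ok v (K v)) ∧ Fv P Y w K + pb P E * r ≤ lg := by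
  classical
  obtain ⟨K₁, k1, k2⟩ := hE
  refine ⟨fun v => if E v then K₁ v else k₀, fun v hv => ?_, ?_⟩
  · by_cases h : E v
    · simpa [h] using k1 v hv h
    · simpa [h] using h0 v hv
  · have h4 := Φ_split (Y := Y) (w := w) P (fun _ => True) E fun v => if E v then K₁ v else k₀
    rw [Φ_congr (E := fun v => True ∧ E v) (E' := E) (K' := K₁) (fun v _ => by tauto)
        (fun v _ e => by simp [e.2]),
      Φ_congr (E := fun v => True ∧ ¬E v) (E' := fun v => ¬E v) (K' := fun _ => k₀)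
        (fun v _ => by tauto) (fun v _ e => by simp [e.2])] at h4
    have h5 : Fv (cE P fun v => ¬E v) Y w (fun _ => k₀) ≤ 0 := by
      unfold Fv
      have a := hh_nonneg (P := cE P fun v => ¬E v) Y
      have b : hh (cE P fun v => ¬E v) (fun _ => k₀) ≤ 0 := by
        rw [← ch_unit]; exact (ch_zero fun _ _ _ _ _ => rfl).le
      rw [FP.E_const, hw]; linarith
    have h6 := mul_nonpos_of_nonneg_of_nonpos (pb_nonneg P fun v => ¬E v) h5
    unfold Φ at h4 k2
    rw [pb_true, cE_true] at h4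
    linarith

end QExA

open QExA in
theorem qEx : QEx := by
  intro W α δ P M Y w ok k₀ c hM hc hw h0 H ε hε
  choose E hE hm using fun n => ex_max (P n) (Y n) w (ok n) (c * M n - ε / 2 * M n) k₀
  have hl := lg_pos
  by_cases hW : Whp P E
  · filter_upwards [h0, hW (ε / 4 / (c + 1)) (by positivity), hM.ev (4 * lg / ε)] with n a b d
    obtain ⟨K, k1, k2⟩ := fin (hE n) hw a
    refine ⟨K, k1, ?_⟩
    rw [pb_not, le_div_iff₀ (by positivity)] at b
    rw [div_le_iff₀ hε] at d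
    have p0 := pb_nonneg (P n) (E n)
    have p1 := pb_le_one (P n) (E n)
    have m0 : (0 : ℝ) ≤ M n := Nat.cast_nonneg _
    have e1 : (1 - pb (P n) (E n)) * c * M n ≤ ε / 4 * M n :=
      mul_le_mul_of_nonneg_right (by nlinarith) m0
    have e2 : pb (P n) (E n) * (ε / 2 * M n) ≤ 1 * (ε / 2 * M n) :=
      mul_le_mul_of_nonneg_right p1 (by positivity)
    nlinarith
  · obtain ⟨κ, hκ, h1⟩ := not_whp hW
    have hL : Tendsto (fun n => κ * ε / (4 * lg) * (M n : ℝ)) UF atTop :=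
      (tendsto_natCast_atTop_atTop.comp hM).const_mul_atTop (by positivity)
    have h2 := H (fun n v => ¬E n v) ⟨κ, hκ, h1⟩ _ hL (ε / 4) (by positivity)
    exfalso
    obtain ⟨n, ⟨G, K, k1, k2, k3⟩, a⟩ := (h2.and h1).exists
    have q := pb_cE (P n) (fun v => ¬E n v) G
    have g0 := pb_nonneg (cE (P n) fun v => ¬E n v) G
    have m0 : (0 : ℝ) ≤ M n := Nat.cast_nonneg _
    have q1 : κ * pb (cE (P n) fun v => ¬E n v) G ≤ pb (P n) fun v => ¬E n v ∧ G v :=
      q ▸ mul_le_mul_of_nonneg_right a g0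
    have q2 : lg ≤ κ * pb (cE (P n) fun v => ¬E n v) G * (ε / 4 * M n) := by
      have := mul_le_mul_of_nonneg_left k1 hl.le
      calc lg = lg * 1 := (mul_one _).symm
        _ ≤ _ := this
        _ = _ := by field_simp
    have q3 : lg ≤ pb (P n) (fun v => ¬E n v ∧ G v) * (ε / 4 * M n) :=
      q2.trans (mul_le_mul_of_nonneg_right q1 (by positivity))
    have q4 : 0 < pb (P n) fun v => ¬E n v ∧ G v :=
      lt_of_le_of_ne (pb_nonneg _ _) fun e => by rw [← e, zero_mul] at q3; linarith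
    obtain ⟨u1, u2⟩ := grow (hE n) q4 k2 (by linarith) q3
    exact absurd (hm n _ u1) (not_le.2 u2)

end Pool.Agent.MP_5168f5_an.QA
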