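import Pool.Agent.MP_5168f5_an.QA.QSpec
import Pool.Agent.MP_5168f5_an.H17F.KE

/-! The finite form of the set theorem in a context. -/

namespace Pool.Agent.MP_5168f5_an.QA

open H19 H17S H17F R4 AN Filter MvPolynomial
open AN.Pk (cn)
open AN.Nc (Pl ev jac)

theorem cv_fine {Ω α β : Type} {P : FP Ω} {T : Ω → α} {Z : Ω → β} (e : Fn P T Z) {a b : Ω}
    (ha : a ∈ P.S) (hb : b ∈ (cv P T (T a)).S) : cv (cv P T (T a)) Z (Z b) = cv P Z (Z b) := by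
  obtain ⟨b1, b2⟩ := (S20.mem_cv ha b).1 hb
  unfold cv
  rw [cE_cE (E := fun v => T v = T a) (E' := fun v => Z v = Z b) ⟨b, b1, b2, rfl⟩]
  exact cE_congr fun v hv => ⟨fun k => k.2, fun k => ⟨(e v hv b b1 k).trans b2, k⟩⟩

theorem ofQFinC : OfQFinC := by
  intro h d k D
  obtain ⟨D', h⟩ := h d k D
  refine ⟨D', fun ε hε => ?_⟩
  obtain ⟨R, h⟩ := h ε hε
  refine ⟨R, fun Ω Λ β P T g Z Ψ p fT fΨ H => ?_⟩
  have key : ∀ a : Λ, ∃ (c : V d) (K : Ω → Dat d), ‖c‖ ≤ 1 / 2 ^ g a ∧ ∀ ω ∈ P.S, T ω = a →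
      (∀ v ∈ (cv P T a).S, QV D' (Real.exp (ε * g a)) c (Ψ v) (p v) (K v)) ∧
      hh (cv P T a) K + d * g a * lg ≤ hh (cv P T a) (fun v => fl (g a) (ev (Ψ v) (p v))) +
        (cv P T a).E (fun v => (K v).2) + ε * g a := fun a => by
    by_cases e : ∃ ω ∈ P.S, T ω = a
    · obtain ⟨ω, hω, rfl⟩ := e
      have m := fun v => S20.mem_cv (A := T) hω v
      obtain ⟨c, K, h1, h2⟩ := h (g (T ω)) (H ω hω).1 Ω (cv P T (T ω)) Ψ p
        (fun v hv => by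
          obtain ⟨v1, v2⟩ := (m v).1 hv
          exact ⟨v2 ▸ (H v v1).2.2.1, (H v v1).2.1⟩)
        (fun j hj => S20.DB.ctx (Y := fun v => fl j (p v)) (A' := Z) (fun v hv c => by
          obtain ⟨v1, v2⟩ := (m v).1 hv
          rw [cv_fine fT hω hv, ← v2]
          exact (pb_mono fun _ _ k => k.2).trans ((H v v1).2.2.2 j (v2 ▸ hj) c)) (fn_cE fΨ _))
      exact ⟨c, K, h1, fun _ _ _ => h2⟩
    · exact ⟨0, fun _ => (0, 0), by rw [norm_zero]; positivity,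
        fun ω hω k => absurd ⟨ω, hω, k⟩ e⟩
  choose c K h1 h2 using key
  refine ⟨c, fun ω => K (T ω) ω, h1, fun ω hω =>
    (h2 _ ω hω rfl).1 ω ((S20.mem_cv hω ω).2 ⟨hω, rfl⟩), ?_⟩
  rw [rowKE.ent1 P T K, rowKE.ent1 P T fun a v => fl (g a) (ev (Ψ v) (p v)),
    rowKE.exp P T fun a v => (K a v).2, ← FP.E_mul, ← FP.E_add, ← FP.E_add, ← FP.E_add]
  exact FP.E_mono _ fun ω hω => (h2 _ ω hω rfl).2

end Pool.Agent.MP_5168f5_an.QA
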