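import Pool.Agent.MP_5168f5_an.QA.QSpec
import Pool.Agent.MP_5168f5_an.AN.S20Nz1

/-! The finite form of the set theorem from one piece. -/

namespace Pool.Agent.MP_5168f5_an.QA

open H19 H17S H17F R4 AN Filter MvPolynomial
open AN.Pk (cn)
open AN.Nc (Pl ev jac jm kc)

theorem hh_blur {Ω U : Type} {d : ℕ} (P : FP Ω) (Q : FP U) (x : Ω → V d) (ξ : U → V d) (g : ℕ)
    (h : ∀ u, ‖ξ u‖ ≤ 1) : hh (prod P Q) (fun v => fl g (x v.1 + ((2 : ℝ) ^ g)⁻¹ • ξ v.2)) ≤
      hh P (fun ω => fl g (x ω)) + d * Real.log (2 * 3 + 3) := by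
  have a := ch_tri' (P := prod P Q) (fun v => fl g (x v.1 + ((2 : ℝ) ^ g)⁻¹ • ξ v.2))
    (fun _ => ()) fun v => fl g (x v.1)
  have b := (S20.law_fst P Q).ch_id (fun ω => fl g (x ω)) fun _ => ()
  have c := ch_near (P := prod P Q) (x := fun v => x v.1 + ((2 : ℝ) ^ g)⁻¹ • ξ v.2)
    (G := fun v => fl g (x v.1)) (j := g) (L := 3) (by norm_num) fun v _ w _ e => by
      have e1 := norm_sub_lt_of_flv_eq e
      have e2 : ∀ u, ‖((2 : ℝ) ^ g)⁻¹ • ξ u‖ ≤ ((2 : ℝ) ^ g)⁻¹ := fun u => by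
        rw [norm_smul, norm_inv, norm_pow, Real.norm_ofNat]
        exact mul_le_of_le_one_right (by positivity) (h u)
      rw [add_sub_add_comm, div_eq_mul_inv]
      have := norm_add_le (x v.1 - x w.1) (((2 : ℝ) ^ g)⁻¹ • ξ v.2 - ((2 : ℝ) ^ g)⁻¹ • ξ w.2)
      have := norm_sub_le (((2 : ℝ) ^ g)⁻¹ • ξ v.2) (((2 : ℝ) ^ g)⁻¹ • ξ w.2)
      linarith [e2 v.2, e2 w.2]
  rw [Fintype.card_fin] at c
  rw [ch_unit, ch_unit] at a b
  exact a.trans (by rw [add_comm]; exact add_le_add b.le c)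

theorem ofQFin : OfQFin := by
  intro thm qex qder qpc d k D
  obtain ⟨D', D1, pc⟩ := qpc d k D (thm d)
  refine ⟨D', fun ε hε => by_contra fun h => ?_⟩
  simp only [not_exists, not_forall] at h
  choose M hM Ω P Ψ p h1 h2 h using h
  have bg : Big M := tendsto_atTop.2 fun b => (ev_ge b).mono fun n a => a.trans (hM n)
  have sb : Sub M fun n => Real.exp (M n / n) :=
    ⟨fun n => Real.one_le_exp (by positivity), fun c hc => by
      filter_upwards [ev_ge ⌈c⁻¹⌉₊, ev_ge 1] with n a b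
      have b' : (0 : ℝ) < n := by exact_mod_cast b
      have := mul_le_mul_of_nonneg_left (Nat.ceil_le.1 a) hc.le
      rw [mul_inv_cancel₀ hc.ne'] at this
      rw [Real.exp_le_exp, div_le_iff₀ b']
      nlinarith [Nat.cast_nonneg (α := ℝ) (M n)]⟩
  have fu : Full P M p Ψ := fun K => ⟨fun _ _ => True, _, Whp.of_ev (.of_forall fun _ _ _ => trivial),
    sb, (ev_ge K).mono fun n a => h2 n _ (Nat.mul_le_mul_right _ a)⟩
  have nc : ∀ n (u : Fin d → Fin (2 ^ (M n * M n))), ‖((2 : ℝ) ^ M n)⁻¹ • gp u‖ ≤ 1 / 2 ^ M n :=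
    fun n u => by
    rw [norm_smul, norm_inv, norm_pow, Real.norm_ofNat, one_div]
    exact mul_le_of_le_one_right (by positivity) (S20.gp_norm u)
  have key := qex (NP P d fun n => M n * M n) M
    (fun n v => fl (M n) (ev (Ψ n v.1) (p n v.1) + ((2 : ℝ) ^ M n)⁻¹ • gp v.2)) Prod.snd
    (fun n v K => QV D' (Real.exp (ε * M n)) (((2 : ℝ) ^ M n)⁻¹ • gp v.2) (Ψ n v.1) (p n v.1) K)
    (X, 0) (d * lg) bg (mul_nonneg (Nat.cast_nonneg _) lg_pos.le) rfl
    (by
      filter_upwards [(sb.add (bg.sub le_rfl) bg).2 ε hε] with n a v hv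
      have b := h1 n v.1 ((S20.mem_prod v).1 hv).1
      refine ⟨fun i => (totalDegree_X (R := ℝ) i).trans_le D1, fun q hq => ?_, ?_⟩
      · have e : ∀ y : V d, ev X y = y := fun y => funext fun i => eval_X i
        rw [e]
        refine (norm_add_le _ _).trans ((add_le_add ?_ ((nc n _).trans ?_)).trans a)
        · refine (pi_norm_le_iff_of_nonneg (Real.exp_pos _).le).2 fun i => ?_
          have := kc.val _ D 1 q (b.1 i).1 le_rfl fun j => (norm_le_pi_norm q j).trans hq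
          rw [one_pow, mul_one] at this
          exact this.trans (b.1 i).2
        · exact (div_le_one (by positivity)).2 (one_le_pow₀ one_le_two)
      · have e : jm (X : Fin d → Pl d) = 1 := by
          ext1 i j
          simp [jm, Matrix.one_apply, Pi.single_apply]
        simp [jac, e])
    (fun E hE L hL c hc => pc P M (fun n => M n * M n) Ψ p _ ε hε bg
      (fun R => (bg.eventually_ge_atTop R).mono fun n a => Nat.mul_le_mul_right _ a) sb
      (.of_forall h1) fu E hE L hL c hc) (ε / 2) (half_pos hε)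
  obtain ⟨n, ⟨K, k1, k2⟩, k3⟩ :=
    (key.and (bg.sm (d * Real.log (2 * 3 + 3)) _ (half_pos hε))).exists
  obtain ⟨u, hu, k4⟩ := qder (P n) (grid d (M n * M n)) Prod.snd K
  refine h n _ (fun ω => K (ω, u)) ⟨nc n u, fun ω hω => k1 (ω, u) ((S20.mem_prod _).2 ⟨hω, hu⟩), ?_⟩
  have k5 := hh_blur (P n) (grid d (M n * M n)) (fun ω => ev (Ψ n ω) (p n ω)) gp (M n) S20.gp_norm
  unfold Fv at k2
  linarith

end Pool.Agent.MP_5168f5_an.QA
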