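import Pool.Agent.MP_5168f5_an.QA.QPc
import Pool.Agent.MP_5168f5_an.QA.QEx
import Pool.Agent.MP_5168f5_an.QA.QDer
import Pool.Agent.MP_5168f5_an.QA.QOf
import Pool.Agent.MP_5168f5_an.QA.QFinC
import Pool.Agent.MP_5168f5_an.AN.All

/-! The maximal estimate in all dimensions: the finite form of the set theorem, assembled. -/

namespace Pool.Agent.MP_5168f5_an.QA

open AN

theorem thm_of (st : OfSteep) (lo : OfLoc) (p2 : ∀ d mm, SteepF (d + 1) mm → Pair2 (d + 1) mm)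
    (c2 : ∀ d mm, Low (d + 1) → Pair2 (d + 1) mm → LOC (d + 1) mm → Core2 (d + 1) mm)
    (oc : ∀ d mm, Core2 (d + 1) mm → Core (d + 1) mm) (N : ℕ) : THM N 0 :=
  ind long1 (fun d mm o l t => ofCore her1 her2 fullApi _ mm o
    (oc d mm (c2 d mm l (p2 d mm (st d mm l t)) (lo d mm l (st d mm l t))))) _

open LC N2 in
theorem thmAll (N : ℕ) : THM N 0 :=
  thm_of ofSteep (ofLoc2 kOp sGC sG7P sSlope sInc sCrv sNgv sBg sGs LC.sWhp
      (LC.emp LC.sCut (N6.sEnd N4.sInd TG.TA.thmG')))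
    (ofPair2 her1 her2 fullApi cel1 cel2 rel (ofAcc fullApi cel2))
    (fun d mm l => ofFin fullApi kOp cel1 cel2 rel (ofAcc fullApi cel2) a2q d mm
      (ofSt3 her1 her2 fullApi kOp (rc cel1) nzs nsy Gc.udc cel1 cel2 (ncel nzs)
        (ul Gc.udc nsy St.g7) (slVol cel1 cel2) (slDn her1 fullApi) d (l d d.lt_succ_self)))
    (ofCore2 (slVol cel1 cel2) her1 her2 fullApi rlf kOp nzs Gc.udc cel1 cel2) N

theorem qFin : QFin := ofQFin thmAll qEx qDer qPc

theorem qFinC : QFinC := ofQFinC qFin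

end Pool.Agent.MP_5168f5_an.QA
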