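import Pool.Agent.MP_5168f5_an.QA.QSpec
import Pool.Agent.MP_5168f5_an.AN.StLat2
import Pool.Agent.MP_5168f5_an.AN.GSteep
import Pool.Agent.MP_5168f5_an.AN.GPG7l
import Pool.Agent.MP_5168f5_an.AN.GCel2

/-! The maximal estimate in all dimensions: one filled piece. -/

namespace Pool.Agent.MP_5168f5_an.QA

open H19 H17S H17F R4 AN Filter MvPolynomial AN.S20
open AN.Pk (cn kc)
open AN.Nc (Pl ev jac)

namespace QPcA

theorem fin {W α β δ : Type} (Q : FP W) (Y : W → α) (S : W → β) (w : δ → ℝ) (K : W → δ)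
    (G : W → Prop) (a : ℝ) (hG : pb Q (fun v => ¬G v) ≤ 1 / 4) (h1 : Fn Q K S) (h2 : Fn Q S Y)
    (h : ∀ v ∈ Q.S, G v → dn Q Y S v ≤ Real.exp (w (K v) + a)) : ∃ G' : W → Prop,
    1 / 4 ≤ pb Q G' ∧ (∀ v, G' v → G v) ∧ Fv (cE Q G') Y w K ≤ lg + a := by
  let G' : W → Prop := fun v => G v ∧ ¬pb (cv Q S (S v)) G ≤ 1 / 2
  have e1 : 1 / 4 ≤ pb Q G' := by
    have := pb_split Q G fun v => pb (cv Q S (S v)) G ≤ 1 / 2
    have := rare Q S G (θ := 1 / 2) (by norm_num)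
    rw [pb_not] at hG
    linarith
  have ex := ex_of_pb (lt_of_lt_of_le (by norm_num) e1)
  refine ⟨G', e1, fun _ u => u.1, ?_⟩
  have e2 : hh (cE Q G') K ≤ hh (cE Q G') S := hh_mono (fn_cE h1 _)
  have e3 : hh (cE Q G') (fun v => (Y v, S v)) = hh (cE Q G') Y :=
    hh_congr ((Fn.rfl _).pair (fn_cE h2 _)) (Fn.fst _ _)
  have e4 : (cE Q G').E (fun v => -(lg + a) - w (K v)) ≤ ch (cE Q G') Y S := by
    rw [ch_dn]
    refine FP.E_mono _ fun v hv => ?_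
    obtain ⟨v1, v2⟩ := (mem_cE ex v).1 hv
    have c1 := dn_cE v1 v2 Y S
    have c2 : pb (cv Q S (S v)) G' = pb (cv Q S (S v)) G := pb_congr fun u hu =>
      ⟨fun k => k.1, fun k => ⟨k, by rw [((mem_cv v1 u).1 hu).2]; exact v2.2⟩⟩
    have c3 := dn_pos hv Y S
    have c4 : dn (cE Q G') Y S v ≤ 2 * Real.exp (w (K v) + a) := by
      have := h v v1 v2.1
      have := not_le.1 v2.2
      rw [c2] at c1
      nlinarith
    have c5 := Real.log_le_log c3 c4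
    rw [Real.log_mul two_ne_zero (Real.exp_pos _).ne', Real.log_exp] at c5
    unfold lg
    linarith
  rw [FP.E_sub, FP.E_const] at e4
  unfold Fv
  unfold ch at e4
  linarith

variable {d k D : ℕ}

open Classical in
/-- Forget families of large degree. -/
noncomputable def tr (D : ℕ) (z : Fin d → Pl k) : Fin d → Pl k :=
  if ∀ i, (z i).totalDegree ≤ D then z else 0

theorem tr_deg (z : Fin d → Pl k) (i : Fin d) : (tr D z i).totalDegree ≤ D := by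
  unfold tr; split_ifs with h
  exacts [h i, by simp]

theorem tr_eq {z : Fin d → Pl k} (h : ∀ i, (z i).totalDegree ≤ D) : tr D z = z := if_pos h

open St.Lat in
theorem out (th : THM d 0) (C : ℕ) : ∃ D₀ : ℕ, ∀ {W : ℕ → Type} (P : ∀ n, FP (W n)) (M : ℕ → ℕ)
    (y : ∀ n, W n → V d) (κ : ∀ n, Kd k (W n)) (F : ∀ n, (κ n).T → Fin d → Pl k) (ε₀ : ℝ),
    0 < ε₀ → Big M → Sure P M y → Kind P M y κ C 0 →
    Kind P M y (cellK y (fun _ _ => ()) M) C 0 → (A1.Floor P M y fun n => (κ n).Z) →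
    (∀ n z i, (F n z i).totalDegree ≤ D) →
    (∀ᶠ n in UF, ∀ v ∈ (P n).S, y n v = ev (F n ((κ n).Z v)) ((κ n).p v)) → ∀ L : ℕ → ℝ,
    Tendsto L UF atTop → ∀ ε : ℝ, 0 < ε → ∀ᶠ n in UF, ∃ (G : W n → Prop) (K : W n → Dat d),
      1 ≤ L n * pb (P n) G ∧ (∀ v ∈ (cE (P n) G).S, (∀ i, ((K v).1 i).totalDegree ≤ D₀ ∧
        cn (aeval (F n ((κ n).Z v)) ((K v).1 i)) ≤ Real.exp (ε₀ * M n)) ∧
        Real.exp (K v).2 ≤ |eval (y n v) (jac (K v).1)|) ∧
      Fv (cE (P n) G) (fun v => fl (M n) (y n v)) Prod.snd K + d * lg * M n ≤ ε * M n := by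
  obtain ⟨D₀, hD⟩ := St.fill d C th
  refine ⟨D₀, fun {W} P M y κ F ε₀ h0 hM su k1 k2 flr hF eq L hL ε hε => ?_⟩
  obtain ⟨Λ, G, S, Θ, g, sy, -, cel, -, f⟩ := hD _ (fun _ => Unit) (fun b => cond b k d)
    (fun _ => 0) P M y (fun n => two (κ n) (cellK y (fun _ _ => ()) M n)) (fun _ _ => ())
    ⟨hM, su.bdd, by rintro (_ | _); exacts [k2, k1]⟩ su
    (fun _ => fnE_of fun _ _ _ _ => rfl) flr (fun n => L n / 4) (hL.atTop_div_const (by norm_num))
  have s1 : Kind (fun n => cE (P n) (G n)) M y κ C 0 := sy.kd true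
  have c1 : FnE (fun n => cE (P n) (G n)) S fun n => (κ n).Z := cel.cm.com true
  have c2 : FnE (fun n => cE (P n) (G n)) S fun n v => (fl (M n) (y n v), ()) := cel.cm.com false
  have i1 := cel1.irr hM cel.cm (F := fun n v => jac (Θ n v))
    (cel.frm.fn.mono fun _ a u hu v hv e => congrArg jac (a u hu v hv e))
    fun n v => Nc.deg_jac (cel.frm.deg n v)
  have i3 := cel2.up hM cel (su.cE G) (lin_rfl M) f
  have fn := cel.frm.fn
  have dg := cel.frm.deg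
  have bd := cel.frm.bd
  have eq' : ∀ᶠ n in UF, ∀ v ∈ (cE (P n) (G n)).S, y n v = ev (F n ((κ n).Z v)) ((κ n).p v) :=
    eq.mono fun n a v hv => a v (cE_sub hv)
  clear cel sy f k1 k2 flr hD
  obtain ⟨Q, hQ⟩ : ∃ Q : ∀ n, FP (W n), Q = fun n => cE (P n) (G n) := ⟨_, rfl⟩
  have hQ' : ∀ n, cE (P n) (G n) = Q n := fun n => by rw [hQ]
  simp only [hQ'] at s1 c1 c2 i1 i3 fn bd eq'
  obtain ⟨Γ₁, s1', a1⟩ := gp_iff.1 i1
  obtain ⟨Γ₂, s2, a2⟩ := gp_iff.1 (cel1.up (P := Q) y S (d * D₀) hM)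
  obtain ⟨Γ₃, s3, a3⟩ := gp_iff.1 i3
  have f1 : FnE Q Θ fun n => (κ n).Z := fn.trans c1
  choose θ θ1 θ2 using fun n => En.fn_ex (Q n) (Θ n) (κ n).Z
    (q := fun F => ∀ i, (F i).totalDegree ≤ D₀) (dg n) (a := 0) (by simp)
  have pk : En.PK Q M (chs Θ y) κ (fun n z i => aeval (F n z) (θ n z i)) (D₀ * D) :=
    ⟨hM, s1.bd, s1.den, fun n z i => kc.deg _ _ _ _ (θ1 n z i) (hF n z), Whp.of_ev (by
      filter_upwards [f1, eq'] with n a b v hv
      funext i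
      simp only [ev, cht]
      rw [Nc.eval_aeval, ← b v hv, ← θ2 n a v hv])⟩
  obtain ⟨Γ₄, s4, a4⟩ := gp_iff.1 (En.rowPKcn _ _ _ _ _ _ pk bd).1
  filter_upwards [g, ((a1.and a2).and (a3.and a4)) (1 / 4) (by norm_num), fn, c2, f1,
    s1'.log (ε / 4) (by positivity), s2.log (ε / 4) (by positivity),
    s3.log (ε / 4) (by positivity), s4.2 ε₀ h0, hM.sm lg (ε / 4) (by positivity)]
    with n g1 g2 g3 g4 g5 l1 l2 l3 l4 l5
  have p1 := s1'.pos n
  have p2 := s2.pos n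
  have p3 := s3.pos n
  obtain ⟨K, hK⟩ : ∃ K : W n → Dat d, ∀ v, K v =
    (Θ n v, Real.log (nc (Q n) (y n) (S n) v (jac (Θ n v)) / Γ₁ n)) := ⟨_, fun _ => rfl⟩
  have key : ∀ v ∈ (Q n).S, |eval (y n v) (jac (Θ n v))| ≤ Γ₂ n * nc (Q n) (y n) (S n) v
      (jac (Θ n v)) → dn (Q n) (fun u => fl (M n) (y n u)) (S n) v ≤
      Γ₃ n * (|eval (y n v) (jac (Θ n v))| / (2 ^ M n) ^ d) →
      0 < nc (Q n) (y n) (S n) v (jac (Θ n v)) := fun v hv c1 c2 => by
    have c3 := (dn_pos hv _ _).trans_le c2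
    rw [mul_pos_iff_of_pos_left p3, div_pos_iff_of_pos_right (by positivity)] at c3
    exact (mul_pos_iff_of_pos_left p2).1 (c3.trans_le c1)
  obtain ⟨G', b1, b2, b3⟩ := fin (Q n) (fun u => fl (M n) (y n u)) (S n) Prod.snd K _
    (Real.log (Γ₁ n) + Real.log (Γ₂ n) + Real.log (Γ₃ n) - d * lg * M n) g2
    (fun u hu v hv e => by simp only [hK, nc, e, g3 u hu v hv e])
    (fun u hu v hv e => g4 u hu v hv (Prod.ext e rfl)) fun v hv c => by
      have c1 := c.1.2 _ (Nc.deg_jac (dg n v))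
      have c2 := key v hv c1 c.2.1
      refine c.2.1.trans ((mul_le_mul_of_nonneg_left (div_le_div_of_nonneg_right c1
        (by positivity)) p3.le).trans_eq ?_)
      have e : ((2 : ℝ) ^ M n) ^ d = Real.exp (d * lg * M n) := by
        rw [← pow_mul, ← Real.exp_log (x := 2) two_pos, ← Real.exp_nat_mul]
        congr 1; push_cast; unfold lg; ring
      simp only [hK]
      rw [e, Real.exp_add, Real.exp_sub, Real.exp_add, Real.exp_add, Real.exp_log p1,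
        Real.exp_log p2, Real.exp_log p3, Real.exp_log (div_pos c2 p1)]
      field_simp
  have b4 := pb_cE (P n) (G n) G'
  rw [hQ'] at b4
  have b5 : 1 ≤ L n * pb (P n) fun v => G n v ∧ G' v := by
    have z := pb_nonneg (P n) (G n)
    have l0 : 0 ≤ L n := by
      by_contra c
      nlinarith [not_le.1 c]
    rw [← b4]
    nlinarith [mul_le_mul_of_nonneg_left b1 (mul_nonneg l0 z)]
  have ex : ∃ v ∈ (P n).S, G n v ∧ G' v := ex_of_pb (by
    by_contra c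
    rw [le_antisymm (not_lt.1 c) (pb_nonneg _ _)] at b5
    linarith)
  refine ⟨fun v => G n v ∧ G' v, K, b5, ?_⟩
  rw [← cE_cE ex, hQ']
  refine ⟨fun v hv => ?_, by linarith⟩
  obtain ⟨v1, v2⟩ := (mem_cE (ex_of_pb (lt_of_lt_of_le (by norm_num) b1)) v).1 hv
  have c := b2 v v2
  simp only [hK]
  refine ⟨fun i => ⟨dg n v i, ?_⟩, ?_⟩
  · rw [θ2 n g5 v v1]
    exact (c.2.2 i).trans l4
  · rw [Real.exp_log (div_pos (key v v1 (c.1.2 _ (Nc.deg_jac (dg n v))) c.2.1) p1),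
      div_le_iff₀' p1]
    exact c.1.1

end QPcA

open QPcA St.Lat GP.GPG7lA in
theorem qPc : QPc := by
  intro d k D th
  obtain ⟨D₀, hD⟩ := out (k := k + d) (D := max D 1) th (k * D + d)
  refine ⟨max D₀ 1, le_max_right _ _, fun {Ω} P M J Ψ p Γ₀ ε₀ h0 hM hJ hΓ hb hf E hE L hL ε hε => ?_⟩
  have su : Sure P M fun n ω => ev (Ψ n ω) (p n ω) := ⟨Γ₀, hΓ, hb.mono fun n a ω hω =>
    (pi_norm_le_iff_of_nonneg (by linarith [hΓ.1 n])).2 fun i => by
      have := kc.val (Ψ n ω i) D 1 (p n ω) ((a ω hω).1 i).1 le_rfl fun l =>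
        (norm_le_pi_norm (p n ω) l).trans (a ω hω).2
      rw [one_pow, mul_one] at this
      exact this.trans ((a ω hω).1 i).2⟩
  have kd := En.ek.kind (x := fun n ω => ev (Ψ n ω) (p n ω))
    (κ := fun n => ⟨Fin d → Pl k, Ψ n, fun _ => 0, p n⟩) (Ψ := fun _ z => tr D z)
    ⟨hM, gp_of_sub (AN.sub_one M) (hb.mono fun n a ω hω => (a ω hω).2), hf,
      fun _ z i => tr_deg z i, Whp.of_ev (hb.mono fun n a ω hω => by
        simp only [tr_eq fun i => ((a ω hω).1 i).1])⟩ su.bdd (fun _ _ => rfl) le_rfl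
  have su' := sure_nz (J := J) (j := M) hM su
  have mem : ∀ n, ∀ v ∈ (cE (NP P d J n) (E n)).S, v.1 ∈ (P n).S := fun n v hv =>
    ((mem_prod v).1 (cE_sub hv)).1
  filter_upwards [hb, hD _ M _ _ (fun n z => ps (M n) (tr D z)) ε₀ h0 hM (su'.cE E)
    (kind_cE hM (kind_nz hM hJ kd) hE) (kind_cE hM (kind_cell hM su'.bdd (Nat.le_add_left _ _)
      (full_fr (q := fun _ _ => ()) hM hJ)) hE)
    (her1.flr (K31.dnS_cE hE) hM (floor_mono (Nz.nz_flr (t := fun _ => 0) hM hJ (lin_rfl M)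
      ⟨0, by simp⟩ su.bdd) (fnE_of fun n _ _ e => congrArg (fun s => Ψ n s.1) e)))
    (fun n z => ps_deg _ (tr_deg z)) (hb.mono fun n a v hv => by
      change _ = ev (ps (M n) (tr D (Ψ n v.1))) (Fin.append (p n v.1) (gp v.2))
      rw [ps_ev, tr_eq fun i => ((a _ (mem n v hv)).1 i).1]
      rfl) L hL ε hε] with n a ⟨G, K, b1, b2, b3⟩
  refine ⟨G, K, b1, fun v hv => ⟨fun i => ((b2 v hv).1 i).1.trans (le_max_left _ _), fun q hq =>
    (pi_norm_le_iff_of_nonneg (Real.exp_pos _).le).2 fun i => ?_, (b2 v hv).2⟩, b3⟩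
  have c1 := kc.val _ (D₀ * max D 1) 1 (Fin.append q (gp v.2))
    (kc.deg (ps (M n) (Ψ n v.1)) _ _ _ ((b2 v hv).1 i).1
      (ps_deg _ fun i => ((a _ (mem n v (cE_sub hv))).1 i).1)) le_rfl
    fun l => (norm_le_pi_norm _ l).trans (norm_append _ _ zero_le_one hq (gp_norm v.2))
  rw [one_pow, mul_one, Nc.eval_aeval, ps_ev] at c1
  have c2 : cn (aeval (ps (M n) (tr D (Ψ n v.1))) ((K v).1 i)) ≤ _ := ((b2 v hv).1 i).2
  rw [tr_eq fun i => ((a _ (mem n v (cE_sub hv))).1 i).1] at c2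
  exact c1.trans c2

end Pool.Agent.MP_5168f5_an.QA
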