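import Pool.Agent.MP_5168f5_an.H83.AREA

/-! The section lemma: the volume of a projection of a basic open set is bounded by the volumes
of polynomial images whose differentials dominate the projection. -/

namespace Pool.Agent.MP_5168f5_an.QA

open MeasureTheory Metric Finset Matrix H83
open scoped ENNReal

/-- The area formula with multiplicity on an arbitrary finite index type. -/
theorem area_gen (σ : Type) [Fintype σ] [DecidableEq σ] (d : ℕ) :
    ∃ M : ℕ, ∀ (N : σ → (σ → ℝ) → ℝ) (B : (σ → ℝ) → ℝ)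
      (D : (σ → ℝ) → (σ → ℝ) →L[ℝ] (σ → ℝ)) (s T : Set (σ → ℝ)),
      (∀ k, IsPoly d (N k)) → IsPoly d B → MeasurableSet s → MeasurableSet T →
      (∀ x ∈ s, B x ≠ 0 ∧ HasFDerivAt (fun y k => N k y / B y) (D x) x ∧
        (fun k => N k x / B x) ∈ T) →
      ∫⁻ x in s, ENNReal.ofReal |(D x).det| ≤ M * volume T := by
  obtain ⟨M, hM⟩ := area (Fintype.card σ) d
  refine ⟨M, fun N B D s T hN hB hs hT h => ?_⟩
  set e := Fintype.equivFin σ with he
  set Λ : (σ → ℝ) ≃L[ℝ] V (Fintype.card σ) :=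
    (LinearEquiv.funCongrLeft ℝ ℝ e.symm).toContinuousLinearEquiv with hΛ
  have hΛ1 : ∀ y k, Λ y k = y (e.symm k) := fun y k => rfl
  have hΛ2 : ∀ y k, Λ.symm y k = y (e k) := fun y k => rfl
  set E := MeasurableEquiv.arrowCongr' e (MeasurableEquiv.refl ℝ) with hE
  have hE1 : ∀ y, E y = Λ y := fun y => rfl
  have hE2 : ∀ y, E.symm y = Λ.symm y := fun y => rfl
  have hp : MeasurePreserving E := volume_preserving_arrowCongr' e _ (MeasurePreserving.id _)
  have hq : MeasurePreserving E.symm := hp.symm _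
  have hc : ∀ i, IsPoly 1 fun y : V (Fintype.card σ) => Λ.symm y i := fun i => IsPoly.coord (e i)
  have k := hM (fun k y => N (e.symm k) (Λ.symm y)) (fun y => B (Λ.symm y))
    (fun y => (Λ : (σ → ℝ) →L[ℝ] V _).comp ((D (Λ.symm y)).comp (Λ.symm : V _ →L[ℝ] (σ → ℝ))))
    (E.symm ⁻¹' s) (E.symm ⁻¹' T) (fun k => (hN _).comp_aff hc) (hB.comp_aff hc)
    (E.symm.measurable hs) (E.symm.measurable hT) fun x hx => by
      obtain ⟨h1, h2, h3⟩ := h _ hx
      refine ⟨h1, ?_, ?_⟩
      · exact Λ.hasFDerivAt.comp x (HasFDerivAt.comp x h2 Λ.symm.hasFDerivAt)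
      · have : E.symm (fun k => N (e.symm k) (Λ.symm x) / B (Λ.symm x)) =
            fun k => N k (E.symm x) / B (E.symm x) := by
          funext k
          rw [hE2, hΛ2, Equiv.symm_apply_apply]
          rfl
        rw [Set.mem_preimage, this]
        exact h3
  rw [hq.measure_preimage hT.nullMeasurableSet] at k
  refine le_trans (le_of_eq ?_) k
  rw [← hq.setLIntegral_comp_preimage_emb E.symm.measurableEmbedding
    (fun x => ENNReal.ofReal |(D x).det|) s]
  refine lintegral_congr fun x => ?_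
  congr 2
  have := LinearMap.det_conj (D (Λ.symm x)).toLinearMap Λ.toLinearEquiv
  exact this.symm

/-- Volume of a product set in a sum of index types. -/
theorem vol_sum {α β : Type} [Fintype α] [Fintype β] (A : Set (α → ℝ)) (B : Set (β → ℝ)) :
    volume {y : α ⊕ β → ℝ | (fun a => y (.inl a)) ∈ A ∧ (fun b => y (.inr b)) ∈ B} =
      volume A * volume B := by
  have hp := volume_measurePreserving_sumPiEquivProdPi (fun _ : α ⊕ β => ℝ)
  rw [← Measure.prod_prod, ← Measure.volume_eq_prod,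
    ← hp.measure_preimage_equiv (A ×ˢ B)]
  rfl

namespace Sec

variable {α β : Type} [Fintype α] [Fintype β] [DecidableEq α] [DecidableEq β] {d k : ℕ}
  {p : Fin k → (α ⊕ β → ℝ) → ℝ}

/-- The barrier. -/
def bar (p : Fin k → (α ⊕ β → ℝ) → ℝ) (y : α ⊕ β → ℝ) : ℝ := ∏ j, p j y

/-- The numerator of the logarithmic derivative. -/
noncomputable def num (p : Fin k → (α ⊕ β → ℝ) → ℝ) (l : β) (y : α ⊕ β → ℝ) : ℝ :=
  fderiv ℝ (bar p) y (Pi.single (.inr l) 1)

/-- The logarithmic gradient in the fibre variables. -/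
noncomputable def psi (p : Fin k → (α ⊕ β → ℝ) → ℝ) (y : α ⊕ β → ℝ) (l : β) : ℝ :=
  num p l y / bar p y

omit [Fintype α] [Fintype β] [DecidableEq α] [DecidableEq β] in
theorem isPoly_bar (hp : ∀ j, IsPoly d (p j)) : IsPoly (k * d) (bar p) := by
  have h := IsPoly.prod (univ : Finset (Fin k)) (d := fun _ => d) (f := p) fun j _ => hp j
  rw [sum_const, card_univ, Fintype.card_fin, smul_eq_mul] at h
  exact h

omit [Fintype α] [Fintype β] [DecidableEq α] [DecidableEq β] in
theorem isOpen_U (hp : ∀ j, IsPoly d (p j)) : IsOpen {y | ∀ j, 0 < p j y} := by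
  simp only [Set.ofPred_forall]
  exact isOpen_iInter_of_finite fun j => isOpen_lt continuous_const (hp j).continuous

omit [Fintype α] [Fintype β] [DecidableEq α] [DecidableEq β] in
theorem bar_pos {y : α ⊕ β → ℝ} (hy : ∀ j, 0 < p j y) : 0 < bar p y := prod_pos fun j _ => hy j

theorem diff_psi (hp : ∀ j, IsPoly d (p j)) {y : α ⊕ β → ℝ} (hy : ∀ j, 0 < p j y) (l : β) :
    DifferentiableAt ℝ (fun y => psi p y l) y := by
  simp only [psi, div_eq_mul_inv]
  exact (((isPoly_bar hp).fderiv _).differentiable y).mul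
    (((isPoly_bar hp).differentiable y).inv (bar_pos hy).ne')

theorem measurable_psi (hp : ∀ j, IsPoly d (p j)) : Measurable (psi p) :=
  measurable_pi_lambda _ fun _ =>
    ((isPoly_bar hp).fderiv _).measurable.div (isPoly_bar hp).measurable

omit [Fintype α] [Fintype β] [DecidableEq α] [DecidableEq β] in
theorem cont_elim (u : α → ℝ) : Continuous fun x : β → ℝ => Sum.elim u x :=
  continuous_pi fun s => by
    rcases s with a | b
    · exact continuous_const
    · exact continuous_apply b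

theorem onto (hp : ∀ j, IsPoly d (p j)) {u : α → ℝ} {R : ℝ}
    (hR : ∀ x, (∀ j, 0 < p j (Sum.elim u x)) → ‖x‖ ≤ R) {x0 : β → ℝ}
    (h0 : ∀ j, 0 < p j (Sum.elim u x0)) (s : β → ℝ) :
    ∃ x, (∀ j, 0 < p j (Sum.elim u x)) ∧ psi p (Sum.elim u x) = s := by
  set S : Set (β → ℝ) := {x | ∀ j, 0 < p j (Sum.elim u x)} with hS
  have hSo : IsOpen S := (isOpen_U hp).preimage (cont_elim u)
  have hb : Bornology.IsBounded S := (isBounded_closedBall (x := 0) (r := R)).subset
    fun a ha => mem_closedBall_zero_iff.2 (hR a ha)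
  set f : (β → ℝ) → ℝ := fun a => bar p (Sum.elim u a) * Real.exp (-∑ l, s l * a l) with hf
  have hc : Continuous f := ((isPoly_bar hp).continuous.comp (cont_elim u)).mul (by fun_prop)
  obtain ⟨a, ha, hmax⟩ := hb.isCompact_closure.exists_isMaxOn ⟨x0, subset_closure h0⟩
    hc.continuousOn
  have h1 : 0 < f a := lt_of_lt_of_le (mul_pos (bar_pos h0) (Real.exp_pos _))
    (hmax (subset_closure h0))
  have h2 : bar p (Sum.elim u a) ≠ 0 := fun h => by simp [hf, h] at h1
  have h3 : a ∈ S := fun j => by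
    have k1 : a ∈ {a : β → ℝ | 0 ≤ p j (Sum.elim u a)} :=
      closure_minimal (fun b hb => (hb j).le)
        (isClosed_le continuous_const ((hp j).continuous.comp (cont_elim u))) ha
    exact lt_of_le_of_ne k1 fun h => h2 (prod_eq_zero (mem_univ j) h.symm)
  have h4 : IsLocalMax f a := hmax.isLocalMax
    (Filter.mem_of_superset (hSo.mem_nhds h3) subset_closure)
  refine ⟨a, h3, funext fun l => ?_⟩
  have h5 : IsLocalMax (f ∘ fun r : ℝ => a + r • (Pi.single l 1 : β → ℝ)) 0 :=
    IsLocalMax.comp_continuous (by simpa using h4) (by fun_prop)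
  have h6 : HasDerivAt (fun r : ℝ => bar p (Sum.elim u a + r • Pi.single (.inr l) 1))
      (num p l (Sum.elim u a)) 0 := by
    have k1 : HasDerivAt (fun r : ℝ => Sum.elim u a + r • (Pi.single (.inr l) 1 : α ⊕ β → ℝ))
        (Pi.single (.inr l) 1) 0 := by
      simpa using ((hasDerivAt_id (0 : ℝ)).smul_const
        (Pi.single (.inr l) 1 : α ⊕ β → ℝ)).const_add (Sum.elim u a)
    exact ((isPoly_bar hp).differentiable _).hasFDerivAt.comp_hasDerivAt_of_eq 0 k1 (by simp)
  have h7 : HasDerivAt (fun r : ℝ => Real.exp (-∑ l, s l * a l - s l * r))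
      (Real.exp (-∑ l, s l * a l) * (-s l)) 0 := by
    simpa using (((hasDerivAt_id (0 : ℝ)).const_mul (s l)).const_sub (-∑ l, s l * a l)).exp
  have h8 : (f ∘ fun r : ℝ => a + r • (Pi.single l 1 : β → ℝ)) = fun r : ℝ =>
      bar p (Sum.elim u a + r • Pi.single (.inr l) 1) * Real.exp (-∑ l, s l * a l - s l * r) := by
    funext r
    have k1 : Sum.elim u (a + r • (Pi.single l 1 : β → ℝ)) =
        Sum.elim u a + r • Pi.single (.inr l) 1 := by
      funext i
      rcases i with i | i <;> simp [Pi.single_apply]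
    have k2 : ∑ i, s i * (a + r • (Pi.single l 1 : β → ℝ)) i = ∑ i, s i * a i + s l * r := by
      simp [mul_add, sum_add_distrib, Pi.single_apply]
    simp only [Function.comp, hf, k1, k2]
    rw [neg_add, ← sub_eq_add_neg]
  rw [h8] at h5
  have h9 := h5.hasDerivAt_eq_zero (h6.mul h7)
  simp only [zero_smul, add_zero, mul_zero, sub_zero] at h9
  have h10 := Real.exp_pos (-∑ l, s l * a l)
  rw [psi, div_eq_iff h2]
  have : Real.exp (-∑ l, s l * a l) * (num p l (Sum.elim u a) - s l * bar p (Sum.elim u a)) = 0 := by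
    linarith
  have := (mul_eq_zero.1 this).resolve_left h10.ne'
  linarith

end Sec

/-- The gradient of `F` at `y` as a row. -/
noncomputable def grad {σ : Type} [Fintype σ] [DecidableEq σ] (F : (σ → ℝ) → ℝ) (y : σ → ℝ) :
    σ → ℝ := fun s => fderiv ℝ F y (Pi.single s 1)

/-- The determinant with the given upper rows and lower rows. -/
noncomputable def det2 {α β : Type} [Fintype α] [Fintype β] [DecidableEq α] [DecidableEq β]
    (A : α → α ⊕ β → ℝ) (L : β → α ⊕ β → ℝ) : ℝ := (Matrix.of (Sum.elim A L)).det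

theorem det_pi {σ : Type} [Fintype σ] [DecidableEq σ] (F : σ → (σ → ℝ) → ℝ) (y : σ → ℝ) :
    (ContinuousLinearMap.pi fun s => fderiv ℝ (F s) y).det =
      (Matrix.of fun s => grad (F s) y).det := by
  rw [ContinuousLinearMap.det, ← LinearMap.det_toMatrix']
  refine congrArg _ (Matrix.ext fun i j => ?_)
  simp only [LinearMap.toMatrix'_apply, ContinuousLinearMap.coe_coe, ContinuousLinearMap.pi_apply,
    Matrix.of_apply, grad]

theorem grad_coord {σ : Type} [Fintype σ] [DecidableEq σ] (i : σ) (y : σ → ℝ) :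
    grad (fun y => y i) y = Pi.single i 1 := by
  funext s
  have : fderiv ℝ (fun y : σ → ℝ => y i) y = ContinuousLinearMap.proj (R := ℝ) (φ := fun _ => ℝ) i :=
    (ContinuousLinearMap.proj (R := ℝ) (φ := fun _ : σ => ℝ) i).fderiv
  simp [grad, this, Pi.single_apply, eq_comm]

open Sec in
/-- The section lemma. -/
theorem sec (α β : Type) [Fintype α] [Fintype β] [DecidableEq α] [DecidableEq β] (d k : ℕ) :
    ∃ M : ℕ, ∀ (ι : Type) [Fintype ι] (p : Fin k → (α ⊕ β → ℝ) → ℝ)
      (θ : ι → α → (α ⊕ β → ℝ) → ℝ) (c : ι → ℝ) (T : ι → Set (α → ℝ)),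
      (∀ j, IsPoly d (p j)) → (∀ i a, IsPoly d (θ i a)) → (∀ i, 0 ≤ c i) →
      (∀ u, ∃ R, ∀ x, (∀ j, 0 < p j (Sum.elim u x)) → ‖x‖ ≤ R) →
      (∀ y, (∀ j, 0 < p j y) → ∀ L : β → α ⊕ β → ℝ,
        |det2 (fun a => Pi.single (.inl a) 1) L| ≤
          ∑ i, c i * |det2 (fun a => grad (θ i a) y) L|) →
      (∀ i y, (∀ j, 0 < p j y) → (fun a => θ i a y) ∈ T i) →
      volume {u : α → ℝ | ∃ x, ∀ j, 0 < p j (Sum.elim u x)} ≤
        M * ∑ i, ENNReal.ofReal (c i) * volume (T i) := by
  obtain ⟨M, hM⟩ := area_gen (α ⊕ β) (d + k * d)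
  refine ⟨M, fun ι _ p θ c T hp hθ hc hR hdet hT => ?_⟩
  set Z : Set (α ⊕ β → ℝ) := {y | ∀ j, 0 < p j y} ∩ psi p ⁻¹' Set.Icc 0 1 with hZ
  have hZm : MeasurableSet Z :=
    (isOpen_U hp).measurableSet.inter (measurable_psi hp measurableSet_Icc)
  have hvol : volume (Set.Icc (0 : β → ℝ) 1) = 1 := by simp [Real.volume_Icc_pi]
  set F : (α → (α ⊕ β → ℝ) → ℝ) → α ⊕ β → (α ⊕ β → ℝ) → ℝ :=
    fun A => Sum.elim A fun l y => psi p y l with hF
  have hFd : ∀ A : α → (α ⊕ β → ℝ) → ℝ, (∀ a, Differentiable ℝ (A a)) → ∀ y ∈ Z,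
      HasFDerivAt (fun y s => F A s y) (ContinuousLinearMap.pi fun s => fderiv ℝ (F A s) y) y :=
    fun A hA y hy => hasFDerivAt_pi.2 fun s => by
      rcases s with a | l
      · exact (hA a y).hasFDerivAt
      · exact (diff_psi hp hy.1 l).hasFDerivAt
  have hdt : ∀ (A : α → (α ⊕ β → ℝ) → ℝ) y,
      (ContinuousLinearMap.pi fun s => fderiv ℝ (F A s) y).det =
        det2 (fun a => grad (A a) y) fun l => grad (fun y => psi p y l) y := fun A y => by
    rw [det_pi, det2]
    refine congrArg _ (Matrix.ext fun i j => ?_)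
    rcases i with a | l <;> rfl
  have hm : ∀ A : α → (α ⊕ β → ℝ) → ℝ, Measurable fun y =>
      ENNReal.ofReal |(ContinuousLinearMap.pi fun s => fderiv ℝ (F A s) y).det| := fun A => by
    refine ENNReal.measurable_ofReal.comp (continuous_abs.measurable.comp ?_)
    simp only [det_pi, Matrix.det_apply', Matrix.of_apply, grad]
    exact Finset.measurable_sum _ fun σ _ => measurable_const.mul
      (Finset.measurable_prod _ fun s _ => measurable_fderiv_apply_const ℝ _ _)
  have h1 := addHaar_image_le_lintegral_abs_det_fderiv volume hZm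
    fun y hy => (hFd (fun a y => y (.inl a)) (fun a => by fun_prop) y hy).hasFDerivWithinAt
  have h2 : ∀ i, ∫⁻ y in Z, ENNReal.ofReal
      |(ContinuousLinearMap.pi fun s => fderiv ℝ (F (θ i) s) y).det| ≤ M * volume (T i) := by
    intro i
    have k1 := hM (Sum.elim (fun a y => θ i a y * bar p y) (num p)) (bar p)
      (fun y => ContinuousLinearMap.pi fun s => fderiv ℝ (F (θ i) s) y) Z
      {y | (fun a => y (.inl a)) ∈ toMeasurable volume (T i) ∧ (fun b => y (.inr b)) ∈ Set.Icc 0 1}
      (fun s => by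
        rcases s with a | l
        · exact (hθ i a).mul (isPoly_bar hp)
        · exact ((isPoly_bar hp).fderiv _).mono (Nat.le_add_left _ _))
      ((isPoly_bar hp).mono (Nat.le_add_left _ _)) hZm
      (((by fun_prop : Measurable fun (y : α ⊕ β → ℝ) a => y (.inl a))
        (measurableSet_toMeasurable _ _)).inter
        ((by fun_prop : Measurable fun (y : α ⊕ β → ℝ) b => y (.inr b)) measurableSet_Icc))
      fun y hy => by
        refine ⟨(bar_pos hy.1).ne', ?_, ?_, hy.2⟩
        · refine (hFd (θ i) (fun a => (hθ i a).differentiable) y hy).congr_of_eventuallyEq ?_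
          filter_upwards [(isOpen_U hp).mem_nhds hy.1] with z hz
          funext s
          rcases s with a | l
          · exact mul_div_cancel_right₀ _ (bar_pos hz).ne'
          · rfl
        · have : (fun a => θ i a y * bar p y / bar p y) = fun a => θ i a y :=
            funext fun a => mul_div_cancel_right₀ _ (bar_pos hy.1).ne'
          refine subset_toMeasurable _ _ ?_
          simp only [Sum.elim_inl, this]
          exact hT i y hy.1
    rwa [vol_sum, hvol, mul_one, measure_toMeasurable] at k1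
  calc volume {u : α → ℝ | ∃ x, ∀ j, 0 < p j (Sum.elim u x)}
      = volume {y : α ⊕ β → ℝ | (fun a => y (.inl a)) ∈ {u : α → ℝ | ∃ x, ∀ j, 0 < p j (Sum.elim u x)}
          ∧ (fun b => y (.inr b)) ∈ Set.Icc 0 1} := by rw [vol_sum, hvol, mul_one]
    _ ≤ _ := le_trans (measure_mono ?_) h1
    _ ≤ ∫⁻ y in Z, ∑ i, ENNReal.ofReal (c i) * ENNReal.ofReal
          |(ContinuousLinearMap.pi fun s => fderiv ℝ (F (θ i) s) y).det| := by
        refine setLIntegral_mono' hZm fun y hy => ?_
        simp only [hdt, grad_coord]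
        refine (ENNReal.ofReal_le_ofReal (hdet y hy.1 _)).trans_eq ?_
        rw [ENNReal.ofReal_sum_of_nonneg fun i _ => mul_nonneg (hc i) (abs_nonneg _)]
        exact sum_congr rfl fun i _ => ENNReal.ofReal_mul (hc i)
    _ = ∑ i, ENNReal.ofReal (c i) * ∫⁻ y in Z, ENNReal.ofReal
          |(ContinuousLinearMap.pi fun s => fderiv ℝ (F (θ i) s) y).det| := by
        rw [lintegral_finsetSum _ fun i _ => (hm (θ i)).const_mul _]
        exact sum_congr rfl fun i _ => lintegral_const_mul' _ _ ENNReal.ofReal_ne_top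
    _ ≤ ∑ i, ENNReal.ofReal (c i) * (M * volume (T i)) := by
        gcongr with i
        exact h2 i
    _ = _ := by
        rw [mul_sum]
        exact sum_congr rfl fun i _ => mul_left_comm _ _ _
  rintro w ⟨⟨x0, h0⟩, hw⟩
  obtain ⟨R, hR'⟩ := hR fun a => w (.inl a)
  obtain ⟨x, k1, k2⟩ := onto hp hR' h0 fun b => w (.inr b)
  refine ⟨Sum.elim (fun a => w (.inl a)) x, ⟨k1, by rw [Set.mem_preimage, k2]; exact hw⟩, ?_⟩
  funext s
  rcases s with a | l
  · rfl
  · exact congrFun k2 l

end Pool.Agent.MP_5168f5_an.QA
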