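import Pool.Agent.MP_5168f5_an.R4.Api

/-! Levels of small growth: a cover by long intervals and one monotone profile for the rest. -/

namespace Pool.Agent.MP_5168f5_an.QA

open H19 H17S H17F R4 Filter Finset

/-- An interval of length at least `m` with growth rate at most `ε` starts at `c`. -/
def Bad (ε : ℝ) (F : ℕ → ℝ) (M m c : ℕ) : Prop :=
  ∃ r, m ≤ r ∧ c + r ≤ M ∧ F (c + r) - F c ≤ ε * r

theorem Bad.mono {ε : ℝ} {F : ℕ → ℝ} {M m m' c : ℕ} (h : Bad ε F M m c) (e : m' ≤ m) :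
    Bad ε F M m' c := h.imp fun _ u => ⟨e.trans u.1, u.2⟩

theorem sum_win {F : ℕ → ℝ} {g : ℝ} (hF : ∀ c, F c ≤ F (c + 1) ∧ F (c + 1) ≤ F c + g) {L : ℕ}
    (hL : 0 < L) {a b : ℕ} (h : a ≤ b) :
    ∑ j ∈ Icc (a / L) (b / L), (F ((j + 1) * L) - F (j * L)) ≤ F b - F a + 2 * g * L := by
  have hg : 0 ≤ g := by linarith [(hF 0).1, (hF 0).2]
  have c1 := Nat.div_add_mod' a L
  have c2 := Nat.mod_lt a hL
  have c3 := Nat.div_add_mod' b L
  have c4 := Nat.mod_lt b hL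
  have c5 : (b / L + 1) * L = b / L * L + L := by ring
  have a1 := step_le (fun c => (hF c).2) (a := a / L * L) (b := a) (by omega)
  have a2 := step_le (fun c => (hF c).2) (a := b) (b := (b / L + 1) * L) (by omega)
  have a3 : (a : ℝ) ≤ (a / L * L : ℕ) + L := by exact_mod_cast (by omega : a ≤ a / L * L + L)
  have a4 : (((b / L + 1) * L : ℕ) : ℝ) ≤ b + L := by
    exact_mod_cast (by omega : (b / L + 1) * L ≤ b + L)
  rw [← Ico_add_one_right_eq_Icc, sum_Ico_sub (fun j => F (j * L))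
    (Nat.le_add_right_of_le (k := 1) (Nat.div_le_div_right (c := L) h))]
  nlinarith

theorem cover {F : ℕ → ℝ} {g ε : ℝ} (hF : ∀ c, F c ≤ F (c + 1) ∧ F (c + 1) ≤ F c + g) {M T L : ℕ}
    (hT : 0 < T) (hL : 0 < L) (d : ℕ) : ∀ s, s + d = M → ∃ (W : Finset ℕ) (l : ℕ),
      (∀ c, s ≤ c → Bad ε F M T c → c / L ∈ W) ∧ F M - F s ≤ g * d - (g - ε) * l ∧
      W.card * L * T ≤ l * (T + 2 * L) ∧ l ≤ d ∧
      (∑ j ∈ W, (F ((j + 1) * L) - F (j * L))) * T ≤ l * (ε * T + 2 * g * L) := by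
  induction d using Nat.strong_induction_on with
  | _ d ih =>
  intro s hs
  by_cases h : Bad ε F M T s
  · obtain ⟨r, r1, r2, r3⟩ := h
    obtain ⟨d', rfl⟩ : ∃ d', d = r + d' := ⟨d - r, by omega⟩
    obtain ⟨W, l, h1, h2, h3, h4, h5⟩ := ih d' (by omega) (s + r) (by omega)
    refine ⟨W ∪ Icc (s / L) ((s + r) / L), l + r, fun c c1 c2 => ?_, by push_cast; linarith, ?_,
      by omega, ?_⟩
    · by_cases e : s + r ≤ c
      · exact mem_union_left _ (h1 c e c2)
      · exact mem_union_right _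
          (mem_Icc.2 ⟨Nat.div_le_div_right c1, Nat.div_le_div_right (by omega)⟩)
    · have a1 := card_union_le W (Icc (s / L) ((s + r) / L))
      have a2 : (s + r) / L ≤ s / L + r / L + 1 := Nat.add_div_le_div_add_div_add_one _ _ _
      have a3 : (W ∪ Icc (s / L) ((s + r) / L)).card ≤ W.card + (r / L + 2) := by
        rw [Nat.card_Icc] at a1
        generalize s / L = u, r / L = v, (s + r) / L = w at a1 a2 ⊢
        exact a1.trans (by omega)
      have a4 := Nat.div_mul_le_self r L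
      calc _ ≤ (W.card + (r / L + 2)) * L * T := by gcongr
        _ = W.card * L * T + (r / L * L * T + 2 * L * T) := by ring
        _ ≤ l * (T + 2 * L) + (r * T + 2 * L * r) := by gcongr
        _ = _ := by ring
    · have hg : 0 ≤ g := by linarith [(hF 0).1, (hF 0).2]
      have a1 := sum_union_inter (s₁ := W) (s₂ := Icc (s / L) ((s + r) / L))
        (f := fun j => F ((j + 1) * L) - F (j * L))
      have a2 : 0 ≤ ∑ j ∈ W ∩ Icc (s / L) ((s + r) / L), (F ((j + 1) * L) - F (j * L)) :=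
        sum_nonneg fun j _ => sub_nonneg.2 (monotone_nat_of_le_succ (fun c => (hF c).1)
          (Nat.mul_le_mul_right L j.le_succ))
      have a3 := sum_win hF hL (Nat.le_add_right s r)
      have a4 : (T : ℝ) ≤ r := Nat.cast_le.2 r1
      have a5 : (0 : ℝ) ≤ T := Nat.cast_nonneg _
      have a6 := mul_le_mul_of_nonneg_right (a3.trans (add_le_add_left r3 _)) a5
      have a7 := mul_le_mul_of_nonneg_left a4 (by positivity : (0 : ℝ) ≤ 2 * g * L)
      push_cast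
      nlinarith [mul_nonneg a2 a5]
  · rcases d with _ | d
    · refine ⟨∅, 0, fun c c1 ⟨r, r1, r2, _⟩ => by omega, by simp [← hs], by simp, le_rfl, by simp⟩
    · obtain ⟨W, l, h1, h2, h3, h4, h5⟩ := ih d (by omega) (s + 1) (by omega)
      refine ⟨W, l, fun c c1 c2 => h1 c ?_ c2, by push_cast; linarith [(hF s).2], h3, by omega, h5⟩
      exact c1.lt_of_ne fun e => h (e ▸ c2)

open Classical in
/-- The number of levels below `c` with the property `p`. -/
noncomputable def ct (p : ℕ → Prop) (c : ℕ) : ℝ := ((range c).filter p).card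

theorem ct_nonneg (p : ℕ → Prop) (c : ℕ) : 0 ≤ ct p c := Nat.cast_nonneg _

theorem ct_le (p : ℕ → Prop) (c : ℕ) : ct p c ≤ c := by
  classical
  unfold ct
  exact_mod_cast (card_filter_le _ _).trans (card_range c).le

theorem ct_mono {p q : ℕ → Prop} (h : ∀ c, p c → q c) {a b : ℕ} (e : a ≤ b) : ct p a ≤ ct q b := by
  unfold ct
  refine Nat.cast_le.2 (card_le_card fun c hc => ?_)
  simp only [mem_filter, mem_range] at hc ⊢
  exact ⟨by omega, h c hc.2⟩

theorem ct_split (p q : ℕ → Prop) (c : ℕ) :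
    ct (fun x => p x ∧ q x) c + ct (fun x => p x ∧ ¬q x) c = ct p c := by
  classical
  unfold ct
  rw [← Nat.cast_add, ← card_filter_add_card_filter_not (s := (range c).filter p) q, filter_filter,
    filter_filter]
  congr

open Classical in
theorem ct_sub (p : ℕ → Prop) {a b : ℕ} (e : a ≤ b) :
    (((Ico a b).filter p).card : ℝ) = ct p b - ct p a := by
  unfold ct
  rw [eq_sub_iff_add_eq', ← Nat.cast_add, ← card_union_of_disjoint, ← filter_union,
    range_eq_Ico, range_eq_Ico, Ico_union_Ico_eq_Ico (Nat.zero_le a) e]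
  exact disjoint_filter_filter (by rw [range_eq_Ico]; exact Ico_disjoint_Ico_consecutive 0 a b)

theorem thin {M : ℕ → ℕ} (hM : Big M) (p : ℕ → ℕ → ℕ → Prop)
    (hp : ∀ n m m' c, m' ≤ m → p n m c → p n m' c) (m₀ : ℕ) {δ : ℝ} (hδ : 0 < δ) :
    ∃ m, m₀ ≤ m ∧ ∀ t, ∀ᶠ n in UF, ct (fun c => p n m c ∧ ¬p n t c) (M n) ≤ δ * M n := by
  have hb : ∀ t, Bd1 M fun n => ct (p n t) (M n) := fun t => ⟨1, Eventually.of_forall fun n => by
    rw [abs_of_nonneg (ct_nonneg _ _), one_mul]; exact ct_le _ _⟩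
  have h0 : BddBelow (Set.range fun t => rt M fun n => ct (p n t) (M n)) :=
    ⟨0, by
      rintro _ ⟨t, rfl⟩
      exact Le.num hM ((Le.of_le fun n => by simpa using ct_nonneg _ _).trans ((hb t).eqv hM).1)⟩
  obtain ⟨t₀, h1⟩ := exists_lt_of_ciInf_lt (lt_add_of_pos_right
    (⨅ t, rt M fun n => ct (p n t) (M n)) (half_pos hδ))
  refine ⟨max m₀ t₀, le_max_left _ _, fun t => ?_⟩
  have h2 := ciInf_le h0 t
  filter_upwards [((hb t₀).eqv hM).1 (δ / 4) (by positivity),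
    ((hb t).eqv hM).2 (δ / 4) (by positivity)] with n a1 a2
  have l : (0 : ℝ) ≤ M n := Nat.cast_nonneg _
  by_cases e : t ≤ max m₀ t₀
  · exact (ct_mono (q := fun _ => False) (fun c u => u.2 (hp n _ _ c e u.1))
      (Nat.le_refl _)).trans (by simpa [ct] using mul_nonneg hδ.le l)
  · have a3 := ct_split (p n (max m₀ t₀)) (p n t) (M n)
    have a4 := ct_mono (q := fun x => p n (max m₀ t₀) x ∧ p n t x)
      (fun c u => ⟨hp n _ _ c (not_le.1 e).le u, u⟩) (Nat.le_refl (M n))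
    have a5 := ct_mono (fun c => hp n _ _ c (le_max_right m₀ t₀)) (Nat.le_refl (M n))
    nlinarith

theorem sel_real {M L₀ : ℕ → ℕ} (hM : Big M) (hL : Big L₀) (F : ℕ → ℕ → ℝ) {g ε : ℝ}
    (h0 : 0 ≤ ε) (hg : ε ≤ g) (hF : ∀ n c, F n c ≤ F n (c + 1) ∧ F n (c + 1) ≤ F n c + g) (m₀ : ℕ) :
    ∃ (m L : ℕ → ℕ) (W : ℕ → Finset ℕ) (D : ℕ → ℕ → ℝ), (∀ i, m₀ ≤ m i) ∧ Big L ∧
      (∀ n, 0 < L n) ∧ (∀ᶠ n in UF, L n ≤ L₀ n) ∧
      (∀ n, (g - ε) * ((W n).card * L n * L n) ≤ (g * M n - (F n (M n) - F n 0)) * (L n + 2)) ∧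
      (∀ n, (∑ j ∈ W n, (F n ((j + 1) * L n) - F n (j * L n))) * L n ≤ M n * (ε * L n + 2 * g)) ∧
      (∀ n, Monotone (D n) ∧ D n 0 = 0) ∧ (∀ᶠ n in UF, D n (M n) ≤ 4 * M n) ∧
      ∀ n i a b, i ≤ L n → a ≤ b → (∀ c, a ≤ c → c < b → c / L n ∉ W n) → ∃ B : Finset ℕ,
        2 ^ i * (B.card : ℝ) ≤ D n b - D n a ∧
        ∀ c, a ≤ c → c < b → c ∉ B → ¬Bad ε (F n) (M n) (m i) c := by
  choose m h1 h2 using fun i : ℕ => thin hM (fun n => Bad ε (F n) (M n))
    (fun _ _ _ _ e u => u.mono e) m₀ (δ := 2 * (1 / 4) ^ i) (by positivity)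
  obtain ⟨k, k1, k2⟩ := KSA.spill (fun j n => ∀ i ∈ range (j + 1), ct (fun c =>
    Bad ε (F n) (M n) (m i) c ∧ ¬Bad ε (F n) (M n) (j * j) c) (M n) ≤ 2 * (1 / 4) ^ i * M n)
    fun j => (eventually_all_finset _).2 fun i _ => h2 i _
  obtain ⟨L, hL'⟩ : ∃ L : ℕ → ℕ, ∀ n, L n = max 1 (min (k n) (L₀ n)) := ⟨_, fun _ => rfl⟩
  have l0 : ∀ n, 0 < L n := fun n => by rw [hL']; omega
  have l1 : ∀ᶠ n in UF, L n ≤ k n ∧ L n ≤ L₀ n := by
    filter_upwards [k1.eventually_ge_atTop 1, hL.eventually_ge_atTop 1] with n a1 a2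
    rw [hL']; omega
  choose W l w1 w2 w3 w4 w5 using fun n => cover (ε := ε) (hF n) (M := M n)
    (Nat.mul_pos (l0 n) (l0 n)) (l0 n) (M n) 0 (zero_add _)
  refine ⟨m, L, W, fun n c => ∑ i ∈ range (L n + 1), 2 ^ i * ct (fun c =>
    Bad ε (F n) (M n) (m i) c ∧ ¬Bad ε (F n) (M n) (L n * L n) c) c, h1, ?_, l0,
    l1.mono fun _ u => u.2, fun n => ?_, fun n => ?_, fun n => ⟨fun a b e => sum_le_sum fun i _ =>
      mul_le_mul_of_nonneg_left (ct_mono (fun _ u => u) e) (by positivity), by simp [ct]⟩, ?_,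
    fun n i a b hi hab h => ?_⟩
  · refine tendsto_atTop.2 fun t => ?_
    filter_upwards [k1.eventually_ge_atTop t, hL.eventually_ge_atTop t] with n a1 a2
    rw [hL']; omega
  · have a1 : (W n).card * L n * L n ≤ l n * (L n + 2) :=
      Nat.le_of_mul_le_mul_right (by nlinarith [w3 n]) (l0 n)
    have a2 : (((W n).card * L n * L n : ℕ) : ℝ) ≤ (l n * (L n + 2) : ℕ) := Nat.cast_le.2 a1
    push_cast at a2
    refine (mul_le_mul_of_nonneg_left a2 (sub_nonneg.2 hg)).trans ?_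
    rw [← mul_assoc]
    exact mul_le_mul_of_nonneg_right (by linarith [w2 n]) (by positivity)
  · have a1 : (0 : ℝ) < L n := Nat.cast_pos.2 (l0 n)
    have a2 := w5 n
    have a3 := mul_le_mul_of_nonneg_right (Nat.cast_le.2 (w4 n) : (l n : ℝ) ≤ M n)
      (mul_nonneg (add_nonneg (mul_nonneg h0 a1.le) (by linarith : 0 ≤ 2 * g)) a1.le)
    push_cast at a2
    exact le_of_mul_le_mul_right (by linarith) a1
  · filter_upwards [k2, l1] with n a1 a2
    refine (sum_le_sum (g := fun i => (1 / 2) ^ i * (2 * M n : ℝ)) fun i hi => ?_).trans ?_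
    · refine (mul_le_mul_of_nonneg_left (a1 _ a2.1 i hi) (by positivity)).trans_eq ?_
      rw [show (1 / 2 : ℝ) = 2 * (1 / 4) by norm_num, mul_pow]
      ring
    · rw [← sum_mul]
      nlinarith [sum_geometric_two_le (L n + 1), (Nat.cast_nonneg (M n) : (0 : ℝ) ≤ M n)]
  · classical
    refine ⟨(Ico a b).filter fun c =>
      Bad ε (F n) (M n) (m i) c ∧ ¬Bad ε (F n) (M n) (L n * L n) c, ?_, fun c c1 c2 c3 u =>
        c3 (mem_filter.2 ⟨mem_Ico.2 ⟨c1, c2⟩, u, fun v => h c c1 c2 (w1 n c c.zero_le v)⟩)⟩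
    have a1 := ct_sub (fun c =>
      Bad ε (F n) (M n) (m i) c ∧ ¬Bad ε (F n) (M n) (L n * L n) c) hab
    rw [← sum_sub_distrib]
    refine le_trans (le_of_eq ?_) (single_le_sum (fun j _ => sub_nonneg.2
      (mul_le_mul_of_nonneg_left (ct_mono (fun _ u => u) hab) (by positivity)))
      (mem_range.2 (Nat.lt_succ_of_le hi)))
    rw [← mul_sub, ← a1]
    congr

end Pool.Agent.MP_5168f5_an.QA
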