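import Pool.Agent.MP_5168f5_an.QA.SelUni
import Pool.Agent.MP_5168f5_an.QA.SelCov
import Pool.Agent.MP_5168f5_an.QA.HEn
import Pool.Agent.MP_5168f5_an.MX.RedDefs

/-! The selection: paid windows, and flat heights in the other windows. -/

namespace Pool.Agent.MP_5168f5_an.QA

open H19 H17S H17F MX R4 Filter

variable {N : ℕ}

/-- The configuration conditioned on an event. -/
noncomputable def cnE (c : Cfg N) (E : c.Ω → Prop) : Cfg N := { c with P := cE c.P E }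

theorem dsk_cnE {x : ℕ → Cfg N} {M : ℕ → ℕ} (h : DSK x M) (E : ∀ n, (x n).Ω → Prop) :
    DSK (fun n => cnE (x n) (E n)) M :=
  ⟨h.big, fun n ω hω => h.box n ω (cE_sub hω), fun n => fn_cE (h.triv n) _,
    fun n => fn_cE (h.sep n) _, fun n => fn_cE (h.grid n) _⟩

theorem fn_zero {c : Cfg N} (h : c.Box) : Fn c.P (fun v => fl1 0 (c.z v)) c.ln :=
  fun a ha b hb _ => (fl1_zero_of_box (h a ha).2.2.1 (h a ha).2.2.2).trans
    (fl1_zero_of_box (h b hb).2.2.1 (h b hb).2.2.2).symm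

theorem uni_cfg (c : Cfg N) (h : c.Box) (M : ℕ) {m : ℕ} (hm : 0 < m) : ∃ E : c.Ω → Prop,
    mu c M - N * df c M ≤ mu (cnE c E) M - N * df (cnE c E) M + (N + 1) *
      (2 * Real.log (M + 1) + M / m * Real.log (m + 1) + 3 * Real.log (m + 2)) ∧
    Uni (2 + 2 * m) (cnE c E).P (cnE c E).ln (cnE c E).z M := by
  obtain ⟨Λ, h1, h2⟩ := uni_label c.P c.ln c.z (M / m + 1) hm (fn_zero h)
  obtain ⟨a, ha, h3⟩ := H39F.ex_ge c.P fun ω =>
    mu (cnE c fun v => Λ v = Λ ω) M - N * df (cnE c fun v => Λ v = Λ ω) M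
  have c1 := Nat.div_add_mod' M m
  have c2 := Nat.mod_lt M hm
  have c3 : (M / m + 1) * m = M / m * m + m := by ring
  refine ⟨fun v => Λ v = Λ a, ?_, fun u v huv hv => h2 a ha u v huv (by omega)⟩
  have a1 := ch_le_cv (P := c.P) (fun ω => fl M (c.e ω))
    (fun ω => (fl M (c.pt ω), fl1 M (c.z ω), c.θ ω)) Λ
  have a2 := ch_le_cv (P := c.P) (fun ω => fl1 M (c.z ω)) c.ln Λ
  have a3 : c.P.E (fun ω => mu (cnE c fun v => Λ v = Λ ω) M -
      N * df (cnE c fun v => Λ v = Λ ω) M) = c.P.E (fun ω => ch (cv c.P Λ (Λ ω))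
        (fun ω => fl M (c.e ω)) fun ω => (fl M (c.pt ω), fl1 M (c.z ω), c.θ ω)) - N * (M * lg -
        c.P.E fun ω => ch (cv c.P Λ (Λ ω)) (fun ω => fl1 M (c.z ω)) c.ln) := by
    rw [FP.E_sub, FP.E_mul]
    congr 2
    exact (FP.E_sub _ _ _).trans (by rw [FP.E_const]; rfl)
  have l0 : (0 : ℝ) ≤ N := Nat.cast_nonneg _
  have l1 : (0 : ℝ) ≤ M := Nat.cast_nonneg _
  have l2 : (0 : ℝ) < m := Nat.cast_pos.2 hm
  have b1 : (((M / m + 1 : ℕ) : ℝ)) ≤ M / m + 1 := by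
    push_cast; linarith [Nat.cast_div_le (α := ℝ) (m := M) (n := m)]
  have b2 : Real.log (((M / m + 1 : ℕ) : ℝ) * m + 2) ≤ Real.log (M + 1) + Real.log (m + 2) := by
    rw [← Real.log_mul (by positivity) (by positivity)]
    refine Real.log_le_log (by positivity) ?_
    have := mul_le_mul_of_nonneg_right b1 l2.le
    rw [add_mul, div_mul_cancel₀ _ l2.ne'] at this
    nlinarith
  have b3 : Real.log (m + 1) ≤ Real.log (m + 2) := Real.log_le_log (by positivity) (by linarith)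
  have b4 := mul_le_mul_of_nonneg_right b1 (Real.log_nonneg (by linarith : (1 : ℝ) ≤ m + 1))
  have b5 : hh c.P Λ ≤
      2 * Real.log (M + 1) + M / m * Real.log (m + 1) + 3 * Real.log (m + 2) := by linarith
  have b6 := mul_le_mul_of_nonneg_left (a2.trans (add_le_add_right b5 _)) l0
  rw [a3] at h3
  unfold mu df at h3 ⊢
  linarith

/-- The selection. Windows have length `L`; those with index in `W` are paid. -/
def SSel (N : ℕ) : Prop := ∀ (x : ℕ → Cfg N) (M L₀ : ℕ → ℕ) (ε : ℝ), DSK x M → Big L₀ → 0 < ε →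
  ∃ (y : ℕ → Cfg N) (L : ℕ → ℕ) (W : ℕ → Finset ℕ) (D : ℕ → ℕ → ℝ), DSK y M ∧ Big L ∧
    (∀ n, 0 < L n) ∧ (∀ᶠ n in UF, L n ≤ L₀ n) ∧
    (∀ᶠ n in UF, mu (x n) (M n) - N * df (x n) (M n) ≤
      mu (y n) (M n) - N * df (y n) (M n) + ε * M n) ∧
    (∀ᶠ n in UF, (W n).card * L n * lg ≤ (1 + ε) * df (y n) (M n)) ∧
    (∀ᶠ n in UF, ∑ j ∈ W n, ch (y n).P (fun ω => fl1 ((j + 1) * L n) ((y n).z ω))
      (fun ω => (fl1 (j * L n) ((y n).z ω), (y n).ln ω)) ≤ ε * M n) ∧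
    (∀ n, Monotone (D n) ∧ D n 0 = 0) ∧ (∀ᶠ n in UF, D n (M n) ≤ 4 * M n) ∧
    ∀ A : ℝ, ∃ kf : ℕ → ℕ, ∀ (i : ℕ) (a b u : ℕ → ℕ), Big u →
      (∀ᶠ n in UF, a n ≤ b n ∧ b n ≤ M n ∧ ∀ c, a n ≤ c → c < b n → c / L n ∉ W n) →
      Le u (fun n => D n (b n) - D n (a n)) (fun n => A * (b n - a n)) →
      HT1 (kf i) (fun n => (y n).P) (fun n ω => 2 ^ b n * (y n).z ω)
        (fun n ω => (fl1 (a n) ((y n).z ω), (y n).ln ω)) u
        fun n => (1 - 1 / (i + 1 : ℝ)) * (b n - a n) * lg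

theorem ch_win {Ω T : Type} (P : FP Ω) (K : Ω → T) (z : Ω → ℝ) {a b : ℕ} (h : a ≤ b) :
    ch P (fun v => fl1 b (z v)) (fun v => (fl1 a (z v), K v)) =
      ch P (fun v => fl1 b (z v)) K - ch P (fun v => fl1 a (z v)) K := by
  rw [eq_sub_iff_add_eq', ← ch_chain]
  exact ch_congr (((fn_fl1 P z h).left _).pair (Fn.fst _ _)) ((Fn.snd _ _).left _) (Fn.rfl _)
    (Fn.rfl _)

theorem ex_block {η : ℝ} (h : 0 < η) : ∃ m : ℕ, 0 < m ∧ Real.log (m + 1) ≤ η * m := by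
  have hb : Big id := tendsto_atTop.2 ev_ge
  obtain ⟨m, h1, h2⟩ := ((ev_ge 1).and ((Sub.nat hb).log η h)).exists
  exact ⟨m, h1, by simpa using h2⟩

theorem sel (N : ℕ) : SSel N := by
  intro x M L₀ ε hx hL hε
  have l0 : (0 : ℝ) < N + 1 := by positivity
  obtain ⟨m, hm, hm'⟩ := ex_block (η := ε / 3 / (N + 1)) (by positivity)
  choose E e1 e2 using fun n => uni_cfg (x n) (hx.box n) (M n) hm
  have hy := dsk_cnE hx E
  obtain ⟨y, ey⟩ : ∃ y : ℕ → Cfg N, ∀ n, cnE (x n) (E n) = y n := ⟨_, fun _ => rfl⟩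
  simp only [ey] at e1 hy
  replace e2 : ∀ n, Uni (2 + 2 * m) (y n).P (y n).ln (y n).z (M n) := fun n => ey n ▸ e2 n
  obtain ⟨δ, d0, d1, d2, d3⟩ : ∃ δ : ℝ, 0 < δ ∧ δ < 1 ∧ 1 + δ = (1 + ε) * (1 - δ) ∧ δ ≤ ε / 2 :=
    ⟨ε / (2 + ε), by positivity, (div_lt_one (by positivity)).2 (by linarith), by field_simp; ring,
      div_le_div_of_nonneg_left hε.le two_pos (by linarith)⟩
  have l1 := lg_pos
  obtain ⟨m₀, h0⟩ := exists_nat_ge ((2 + 2 * m + 3 * lg) / (δ * lg))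
  rw [div_le_iff₀ (by positivity)] at h0
  have tri : ∀ n c d, ch (y n).P (fun v => fl1 d ((y n).z v)) (y n).ln ≤
      ch (y n).P (fun v => fl1 c ((y n).z v)) (y n).ln +
      ch (y n).P (fun v => fl1 d ((y n).z v))
        fun v => (fl1 c ((y n).z v), (y n).ln v) := fun n c d => ch_tri _ _ _
  obtain ⟨q, L, W, D, s1, s2, s3, s4, s5, s9, s6, s7, s8⟩ := sel_real hx.big hL (fun n c =>
    ch (y n).P (fun v => fl1 c ((y n).z v)) (y n).ln) (g := lg)
    (ε := δ * lg) (by positivity) (by nlinarith) (fun n c =>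
      ⟨ch_mono ((fn_fl1 _ _ c.le_succ).left _), (tri n c (c + 1)).trans (add_le_add_right
        ((ch_gap _ _ _ (d := 1) le_rfl).trans_eq (by simp)) _)⟩) m₀
  refine ⟨y, L, W, D, hy, s2, s3, s4, ?_, ?_, ?_, s6, s7, fun A => ?_⟩
  · filter_upwards [(Sub.nat hx.big).log (ε / 3 / (N + 1) / 2) (by positivity),
      hx.big.sm (3 * Real.log (m + 2)) (ε / 3 / (N + 1)) (by positivity)] with n a1 a2
    refine (e1 n).trans (add_le_add_right ?_ _)
    have l2 : (0 : ℝ) < m := Nat.cast_pos.2 hm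
    have a3 : (M n : ℝ) / m * Real.log (m + 1) ≤ ε / 3 / (N + 1) * M n := by
      rw [div_mul_eq_mul_div, div_le_iff₀ l2]
      nlinarith [(Nat.cast_nonneg (M n) : (0 : ℝ) ≤ M n)]
    rw [← le_div_iff₀' l0, show ε * M n / (N + 1) = 3 * (ε / 3 / (N + 1) * M n) by ring]
    linarith
  · filter_upwards [s2.ev (2 / δ)] with n a1
    have a2 := s5 n
    have l2 : (0 : ℝ) < L n := Nat.cast_pos.2 (s3 n)
    have a3 : ch (y n).P (fun v => fl1 0 ((y n).z v)) (y n).ln = 0 :=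
      ch_zero (fn_zero (hy.box n))
    rw [a3, sub_zero, mul_comm lg] at a2
    change _ ≤ df (y n) (M n) * _ at a2
    rw [div_le_iff₀ d0] at a1
    have a4 : 0 ≤ df (y n) (M n) := nonneg_of_mul_nonneg_left
      ((mul_nonneg (by nlinarith) (by positivity)).trans a2) (by positivity)
    refine le_of_mul_le_mul_left (le_of_mul_le_mul_right ?_ l2) (sub_pos.2 d1)
    calc _ = (lg - δ * lg) * ((W n).card * L n * L n) := by ring
      _ ≤ df (y n) (M n) * ((1 + δ) * L n) :=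
        a2.trans (mul_le_mul_of_nonneg_left (by linarith) a4)
      _ = _ := by rw [d2]; ring
  · filter_upwards [s2.ev (4 / ε)] with n a1
    have l2 : (0 : ℝ) < L n := Nat.cast_pos.2 (s3 n)
    rw [div_le_iff₀ hε] at a1
    refine le_of_mul_le_mul_right (le_trans (le_of_eq ?_) ((s9 n).trans ?_)) l2
    · exact congrArg (· * _) (Finset.sum_congr rfl fun j _ =>
        ch_win _ _ _ (Nat.mul_le_mul_right _ j.le_succ))
    · rw [mul_comm ε, mul_assoc (M n : ℝ)]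
      refine mul_le_mul_of_nonneg_left ?_ (Nat.cast_nonneg (α := ℝ) (M n))
      nlinarith [lg_lt_one, mul_pos d0 l2, mul_le_mul_of_nonneg_right d3 l2.le]
  · have pj : ∀ i : ℕ, ∃ j : ℕ, 2 * |A| ≤ 2 ^ j * (1 / (i + 1 : ℝ) / 2 * lg) := fun i => by
      obtain ⟨j, hj⟩ := pow_unbounded_of_one_lt (2 * |A| / (1 / (i + 1 : ℝ) / 2 * lg)) one_lt_two
      exact ⟨j, ((div_lt_iff₀ (by positivity)).1 hj).le⟩
    choose j hj using pj
    choose kf hk using fun i : ℕ =>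
      ht1_ent (q (j i)) (θ := 1 / (i + 1 : ℝ) / 2) (by positivity)
    refine ⟨kf, fun i a b u hu h1 h2 => ?_⟩
    have ex : ∀ n, ∃ B : Finset ℕ, j i ≤ L n → a n ≤ b n →
        (∀ c, a n ≤ c → c < b n → c / L n ∉ W n) → 2 ^ j i * (B.card : ℝ) ≤ D n (b n) - D n (a n) ∧
        ∀ c, a n ≤ c → c < b n → c ∉ B → ¬Bad (δ * lg) (fun c => ch (y n).P
          (fun v => fl1 c ((y n).z v)) (y n).ln) (M n) (q (j i)) c := fun n => by
      by_cases e : j i ≤ L n ∧ a n ≤ b n ∧ ∀ c, a n ≤ c → c < b n → c / L n ∉ W n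
      · exact (s8 n _ _ _ e.1 e.2.1 e.2.2).imp fun B u _ _ _ => u
      · exact ⟨∅, fun u v w => (e ⟨u, v, w⟩).elim⟩
    choose B hB using ex
    have hB' := (h1.and (s2.eventually_ge_atTop (j i))).mono
      fun n v => hB n v.2 v.1.1 v.1.2.2
    have q0 : (m₀ : ℝ) ≤ q (j i) := Nat.cast_le.2 (s1 _)
    have q1 : 2 + 2 * m + 3 * lg ≤ δ * lg * q (j i) := by nlinarith [mul_pos d0 l1]
    have q2 : 0 < q (j i) := Nat.pos_of_ne_zero fun e => by
      rw [e, Nat.cast_zero, mul_zero] at q1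
      exact q1.not_gt (by positivity)
    refine (hk i _ _ _ u a b B hu ?_).mono fun η hη => ?_
    · filter_upwards [h1, hB'] with n a1 a2
      refine ⟨a1.1, fun c c1 c2 c3 ω hω => (e2 n c _ (by omega) (by omega) ω hω).trans ?_⟩
      have a3 := not_le.1 fun v => a2.2 c c1 (by omega) c3 ⟨_, le_rfl, by omega, v⟩
      have a4 := tri n c (c + q (j i))
      rw [show (1 / 8 : ℝ) = Real.exp (-(3 * lg)) by
        rw [Real.exp_neg, ← Nat.cast_ofNat (n := 3), ← two_pow_eq]; norm_num]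
      exact Real.exp_le_exp.2 (by linarith)
    · filter_upwards [h1, hB', h2 (η / 2) (half_pos hη)] with n a1 a2 a3
      have l2 : (0 : ℝ) ≤ b n - a n := sub_nonneg.2 (Nat.cast_le.2 a1.1)
      have l3 : (1 : ℝ) ≤ 2 ^ j i := one_le_pow₀ one_le_two
      have l4 : (0 : ℝ) ≤ η * u n := by positivity
      have a4 : 2 ^ j i * (2 * (B n).card : ℝ) ≤
          2 ^ j i * (1 / (i + 1 : ℝ) / 2 * lg * (b n - a n) + η * u n) := by
        nlinarith [a2.1, mul_le_mul_of_nonneg_right (hj i) l2,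
          mul_le_mul_of_nonneg_right (le_abs_self A) l2]
      have a5 := le_of_mul_le_mul_left a4 (by positivity)
      linarith

end Pool.Agent.MP_5168f5_an.QA
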