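import Pool.Agent.MP_5168f5_an.QA.Spec1
import Pool.Agent.MP_5168f5_an.QA.Pen
import Pool.Agent.MP_5168f5_an.QA.Sel

/-! The chain of optimal labels and the selection of a tangent system: statements. -/

namespace Pool.Agent.MP_5168f5_an.QA

open H19 H17S H17F MX Filter Finset Pen

/-- Labels `S i` of the levels `(M / w - i) * w` with contexts `χ i`. -/
structure Chn {N : ℕ} (D : ℕ) (x : Cfg N) : Type 1 where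
  Λ : Type
  M : ℕ
  w : ℕ
  S : ℕ → x.Ω → Dc N D
  χ : ℕ → x.Ω → Λ

namespace Chn

variable {N D : ℕ} {x : Cfg N} (Y : Chn D x)

/-- The number of steps. -/
def T : ℕ := Y.M / Y.w

/-- The level of a step. -/
def lv (i : ℕ) : ℕ := (Y.T - i) * Y.w

/-- The pointwise value. -/
noncomputable def ψ (η : ℝ) (i : ℕ) (ω : x.Ω) : ℝ :=
  -Real.log (cm x.P (fun v => (Y.S i v, Y.χ i v)) (shOf x).l ω) + sco η (Y.S i ω) - Y.lv i * lg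

/-- The entropy of the new context. -/
noncomputable def hc (i : ℕ) : ℝ := ch x.P (Y.χ (i + 1)) (Y.χ i)

/-- The jump of the spectrum. -/
noncomputable def jp (i : ℕ) (ω : x.Ω) : ℝ := dsp (Y.S (i + 1) ω).ν (Y.S i ω).ν

/-- The jump of the norm. -/
noncomputable def dj (i : ℕ) (ω : x.Ω) : ℝ := ds (Y.S i ω).ν (Y.S (i + 1) ω).ν

/-- All jumps. -/
noncomputable def tv (η : ℝ) (i : ℕ) (ω : x.Ω) : ℝ := Y.jp i ω + |Y.dj i ω| +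
  |Real.log (Y.S i ω).J - Real.log (Y.S (i + 1) ω).J| + |Y.ψ η i ω - Y.ψ η (i + 1) ω|

/-- The properties of the chain. -/
structure Ok (η t v s C C₀ : ℝ) (X : ℕ → ℝ) (I : ℕ) : Prop where
  val : ∀ i ≤ Y.T, Val x.P (shOf x) Y.M (Y.lv i) (Y.S i)
  fn : ∀ i ≤ Y.T, Fn x.P (Y.S i) fun ω => ((shOf x).O (Y.lv i) ω, Y.χ i ω)
  nest : ∀ i, Fn x.P (Y.χ i) (Y.χ (i + 1))
  opt : ∀ i ≤ Y.T, ∀ r ≤ I, ∀ ω ∈ x.P.S, Opd η (th t v r) (cv x.P (Y.χ i) (Y.χ i ω)) (shOf x)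
    Y.M (Y.lv i) (Y.S i) (t * X r + C)
  obs : ∀ i ≤ Y.T, ∀ ω ∈ x.P.S, ∀ ω' ∈ x.P.S, Y.χ (i + 1) ω = Y.χ (i + 1) ω' →
    (∀ k ≤ dV N D, |sg k (Y.S i ω).ν - sg k (Y.S i ω').ν| ≤ Y.w) ∧
    |Real.log (Y.S i ω).J - Real.log (Y.S i ω').J| ≤ Y.w ∧
    |Y.ψ η i ω - Y.ψ η 0 ω - (Y.ψ η i ω' - Y.ψ η 0 ω')| ≤ Y.w ∧
    |∑ j ∈ range i, Y.dj j ω - ∑ j ∈ range i, Y.dj j ω'| ≤ Y.w
  ent : hh x.P (Y.χ (Y.T + 1)) ≤ C * (Y.M / Y.w + 1)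
  step : ∀ i < Y.T, x.P.E (Y.ψ η i) - x.P.E (Y.ψ η (i + 1)) ≤ (N * lg + s) * Y.w +
    ch x.P ((shOf x).zc (Y.lv i)) ((shOf x).O (Y.lv (i + 1))) + C * (1 + Y.hc i)
  tail : ∀ i < Y.T, x.P.E (fun ω => max 0 (Y.ψ η i ω - Y.ψ η (i + 1) ω - C * Y.w)) ≤
    C * (1 + Y.hc i)
  tot : mu x Y.M ≤ x.P.E (Y.ψ η 0) - x.P.E (Y.ψ η Y.T) + s * Y.M + C * (Y.M / Y.w + Y.w)
  tv : ∑ i ∈ range Y.T, x.P.E (Y.tv η i) ≤ C * (Y.M + Y.w)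
  drf : ∑ i ∈ range Y.T, x.P.E (fun ω => pn t v X I (Y.jp i ω)) ≤
    C₀ * Y.M + C * (Y.M / Y.w + Y.w)

end Chn

/-- The chain exists. -/
def SChn : Prop := ∀ N D, E1 N D → E2 N D → EXT N D → NJ N D → ∃ C₁ : ℝ, 1 ≤ C₁ ∧
  ∀ η t s : ℝ, Par N D C₁ η t → 0 < t → C₁ * η < s → ∀ (v : ℝ) (I : ℕ), 0 < v → ∃ C : ℝ, 0 ≤ C ∧
  ∀ (x : Cfg N) (M w : ℕ) (X : ℕ → ℝ), x.Box → Fn x.P x.θ (fun _ => ()) →
    Fn x.P x.ln (fun ω => fl M (x.e ω)) → 0 < w → C ≤ w → Pen.Ok t v X →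
    ∃ Y : Chn D x, Y.M = M ∧ Y.w = w ∧ Y.Ok η t v s C (C₁ + 2 * s) X I

/-- The data of the selection of paid windows. -/
structure Pd {N : ℕ} (y : ℕ → Cfg N) (M L : ℕ → ℕ) (W : ℕ → Finset ℕ) (Dh : ℕ → ℕ → ℝ)
    (ε : ℝ) : Prop where
  dsk : DSK y M
  card : ∀ᶠ n in UF, (W n).card * L n * lg ≤ (1 + ε) * df (y n) (M n)
  paid : ∀ᶠ n in UF, ∑ j ∈ W n, ch (y n).P (fun ω => fl1 ((j + 1) * L n) ((y n).z ω))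
    (fun ω => (fl1 (j * L n) ((y n).z ω), (y n).ln ω)) ≤ ε * M n
  mono : ∀ n, Monotone (Dh n) ∧ Dh n 0 = 0
  top : ∀ᶠ n in UF, Dh n (M n) ≤ 4 * M n
  ht : ∀ A : ℝ, ∃ kf : ℕ → ℕ, ∀ (i : ℕ) (a b u : ℕ → ℕ), Big u →
    (∀ᶠ n in UF, a n ≤ b n ∧ b n ≤ M n ∧ ∀ c, a n ≤ c → c < b n → c / L n ∉ W n) →
    Le u (fun n => Dh n (b n) - Dh n (a n)) (fun n => A * (b n - a n)) →
    HT1 (kf i) (fun n => (y n).P) (fun n ω => 2 ^ b n * (y n).z ω)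
      (fun n ω => (fl1 (a n) ((y n).z ω), (y n).ln ω)) u
      fun n => (1 - 1 / (i + 1 : ℝ)) * (b n - a n) * lg

/-- The selection of the tangent system. -/
def SPk : Prop := ∀ (N D : ℕ) (y : ℕ → Cfg N) (M L w : ℕ → ℕ) (W : ℕ → Finset ℕ)
  (Dh : ℕ → ℕ → ℝ) (Y : ∀ n, Chn D (y n)) (η₀ ε η t v s C C₀ : ℝ) (X : ℕ → ℕ → ℝ) (I : ℕ),
  Pd y M L W Dh ε → 0 < η₀ → 0 ≤ ε → 0 ≤ s → 0 ≤ C → 0 ≤ C₀ → 0 < I →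
  (∀ᶠ n in UF, N * df (y n) (M n) + η₀ * M n ≤ mu (y n) (M n)) →
  (N + 1) * ε + s + 8 * (v + 1 / I) * C₀ ≤ η₀ / 16 → Big w → (Sm M fun n => L n) →
  (∀ r < I, ∃ L₂ : ℕ → ℕ, (Sm L₂ fun n => w n) ∧ (Sm L₂ fun n => X n r) ∧
    (∀ A : ℝ, ∀ᶠ n in UF, A * L₂ n < X n (r + 1)) ∧ Sm L fun n => L₂ n) →
  (∀ᶠ n in UF, Pen.Ok t v (X n) ∧ (Y n).M = M n ∧ (Y n).w = w n ∧
    (Y n).Ok η t v s C C₀ (X n) I) →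
  ∃ (θ β js Γ : ℝ) (kf : ℕ → ℕ) (sl : ℕ → ℝ) (Z : ℕ → St N D), 0 ≤ θ ∧ θ ≤ t ∧ η₀ / 1000 ≤ β ∧
    T1' Z η θ β js kf sl ∧ Lip Z Set.univ Γ

/-- The choice of the parameters. -/
def OfT1 : Prop := SChn → SPk → ToT1

end Pool.Agent.MP_5168f5_an.QA
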