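import Pool.Agent.MP_5168f5_an.QA.SelD
import Pool.Agent.MP_5168f5_an.QA.SelW

/-! The chain of optimal labels: profiles as functions of the level. -/

namespace Pool.Agent.MP_5168f5_an.QA

open H19 H17S H17F MX Filter Finset Pen

namespace Chn

variable {N D : ℕ} {x : Cfg N} (Y : Chn D x) {c c' : ℕ}

/-- The step of a level. -/
def ix (c : ℕ) : ℕ := Y.T - c / Y.w

/-- The sum over all steps above a level, with a sign. -/
noncomputable def up (a : ℕ → ℝ) (c : ℕ) : ℝ := -∑ j ∈ range (Y.ix c), a j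

theorem ix_le (c : ℕ) : Y.ix c ≤ Y.T := Nat.sub_le _ _

theorem ix_anti (h : c ≤ c') : Y.ix c' ≤ Y.ix c := Nat.sub_le_sub_left (Nat.div_le_div_right h) _

theorem ix_zero : Y.ix 0 = Y.T := by simp [ix]

theorem ix_top : Y.ix Y.M = 0 := Nat.sub_self _

theorem lv_ix (h : c ≤ Y.M) : Y.lv (Y.ix c) = c / Y.w * Y.w := by
  unfold lv ix
  rw [Nat.sub_sub_self (show c / Y.w ≤ Y.T from Nat.div_le_div_right h)]

theorem lv_ix_le (h : c ≤ Y.M) : Y.lv (Y.ix c) ≤ c := (Y.lv_ix h).trans_le (Nat.div_mul_le_self _ _)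

theorem le_lv_ix (hw : 0 < Y.w) (h : c ≤ Y.M) : c ≤ Y.lv (Y.ix c) + Y.w := by
  rw [Y.lv_ix h]; exact (Nat.lt_div_mul_add hw).le

theorem lv_anti {i j : ℕ} (h : i ≤ j) : Y.lv j ≤ Y.lv i :=
  Nat.mul_le_mul_right _ (Nat.sub_le_sub_left h _)

theorem lv_succ {i : ℕ} (h : i < Y.T) : (Y.lv i : ℝ) = Y.lv (i + 1) + Y.w := by
  have : Y.lv i = Y.lv (i + 1) + Y.w := by
    unfold lv
    rw [show Y.T - i = Y.T - (i + 1) + 1 by omega, Nat.succ_mul]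
  exact_mod_cast this

theorem up_sub (a : ℕ → ℝ) (h : c ≤ c') :
    Y.up a c' - Y.up a c = ∑ j ∈ Ico (Y.ix c') (Y.ix c), a j := by
  unfold up
  rw [sum_Ico_eq_sub _ (Y.ix_anti h)]; ring

theorem up_le {a b : ℕ → ℝ} (e : ∀ j < Y.T, a j ≤ b j) (h : c ≤ c') :
    Y.up a c' - Y.up a c ≤ Y.up b c' - Y.up b c := by
  rw [Y.up_sub a h, Y.up_sub b h]
  exact sum_le_sum fun j hj => e j ((mem_Ico.1 hj).2.trans_le (Y.ix_le c))

theorem up_mono {a : ℕ → ℝ} (e : ∀ j < Y.T, 0 ≤ a j) : Monotone (Y.up a) := fun c c' h => by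
  have := Y.up_le (a := fun _ => 0) e h
  simp only [up, sum_const_zero, sub_self] at this ⊢
  linarith

theorem up_tot (a : ℕ → ℝ) : Y.up a Y.M - Y.up a 0 = ∑ j ∈ range Y.T, a j := by
  simp [up, ix_top, ix_zero]

theorem tele {f a : ℕ → ℝ} (e : ∀ j < Y.T, f j - f (j + 1) ≤ a j) (h : c ≤ c') :
    f (Y.ix c') - f (Y.ix c) ≤ Y.up a c' - Y.up a c := by
  have := Y.up_le e h
  simp only [up, sum_range_sub'] at this ⊢
  linarith

theorem E_up (a : ℕ → x.Ω → ℝ) (c : ℕ) :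
    x.P.E (fun ω => Y.up (fun j => a j ω) c) = Y.up (fun j => x.P.E (a j)) c := by
  unfold up
  rw [FP.E_neg, FP.E_sum]

/-- The entropy of the height given the line. -/
noncomputable def Hz (x : Cfg N) (c : ℕ) : ℝ := ch x.P ((shOf x).zc c) (shOf x).l

theorem ch_O (h : c ≤ c') : ch x.P ((shOf x).zc c') ((shOf x).O c) = Hz x c' - Hz x c :=
  (ch_congr (Fn.fst _ _) (Fn.fst _ _) ((Fn.snd _ _).pair (Fn.fst _ _))
    ((Fn.snd _ _).pair (Fn.fst _ _))).trans (ch_win x.P (shOf x).l x.z h)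

theorem Hz_mono : Monotone (Hz x) := fun _ _ h => sub_nonneg.1 (ch_O h ▸ ch_nonneg _ _)

theorem Hz_le {d : ℕ} (h : c' ≤ c + d) : Hz x c' - Hz x c ≤ d * lg := by
  rcases le_total c c' with e | e
  · exact (ch_win x.P (shOf x).l x.z e).ge.trans (ch_gap x.P _ x.z h)
  · exact (sub_nonpos.2 (Hz_mono e)).trans (mul_nonneg (Nat.cast_nonneg _) lg_pos.le)

/-- The paid entropy below a level. -/
noncomputable def Hp (x : Cfg N) (L : ℕ) (W : Finset ℕ) (c : ℕ) : ℝ :=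
  ∑ j ∈ W.filter fun j => (j + 1) * L ≤ c, (Hz x ((j + 1) * L) - Hz x (j * L))

theorem Hp_nn (L j : ℕ) : 0 ≤ Hz x ((j + 1) * L) - Hz x (j * L) :=
  sub_nonneg.2 (Hz_mono (Nat.mul_le_mul_right _ (Nat.le_succ j)))

theorem Hp_mono (L : ℕ) (W : Finset ℕ) : Monotone (Hp x L W) := fun _ _ h =>
  sum_le_sum_of_subset_of_nonneg (fun _ hj => mem_filter.2
    ⟨(mem_filter.1 hj).1, (mem_filter.1 hj).2.trans h⟩) fun j _ _ => Hp_nn L j

theorem Hp_paid {L j : ℕ} {W : Finset ℕ} (hL : 0 < L) (hj : j ∈ W) :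
    Hz x ((j + 1) * L) - Hz x (j * L) ≤ Hp x L W ((j + 1) * L) - Hp x L W (j * L) := by
  have a : j ∉ W.filter fun i => (i + 1) * L ≤ j * L := fun e => by
    have := (mem_filter.1 e).2
    nlinarith
  rw [le_sub_iff_add_le, Hp, ← sum_insert (f := fun j => Hz x ((j + 1) * L) - Hz x (j * L)) a]
  refine sum_le_sum_of_subset_of_nonneg (fun i hi => mem_filter.2 ?_) fun j _ _ => Hp_nn L j
  rcases mem_insert.1 hi with rfl | e
  · exact ⟨hj, le_rfl⟩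
  · exact ⟨(mem_filter.1 e).1, (mem_filter.1 e).2.trans (Nat.mul_le_mul_right _ (Nat.le_succ j))⟩

theorem Hp_tot (L : ℕ) (W : Finset ℕ) (c : ℕ) :
    Hp x L W c - Hp x L W 0 ≤ ∑ j ∈ W, (Hz x ((j + 1) * L) - Hz x (j * L)) := by
  have a : 0 ≤ Hp x L W 0 := sum_nonneg fun j _ => Hp_nn L j
  have b : Hp x L W c ≤ _ :=
    sum_le_sum_of_subset_of_nonneg (filter_subset _ _) fun j _ _ => Hp_nn (x := x) L j
  linarith

/-- The information of the last context about the height. -/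
noncomputable def Inf (c : ℕ) : ℝ := mi x.P ((shOf x).zc c) (Y.χ (Y.T + 1)) (shOf x).l

theorem Inf_mono : Monotone Y.Inf := fun _ _ h => mi_mono' ((fn_fl1 x.P x.z h).left _)

theorem Inf_sub (h : c ≤ c') : mi x.P ((shOf x).zc c') (Y.χ (Y.T + 1))
    (fun ω => ((shOf x).zc c ω, (shOf x).l ω)) = Y.Inf c' - Y.Inf c := by
  have a := mi_chain (P := x.P) (Y.χ (Y.T + 1)) ((shOf x).zc c) ((shOf x).zc c') (shOf x).l
  have b : mi x.P (Y.χ (Y.T + 1)) (fun ω => ((shOf x).zc c ω, (shOf x).zc c' ω)) (shOf x).l =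
      mi x.P (Y.χ (Y.T + 1)) ((shOf x).zc c') (shOf x).l :=
    le_antisymm (mi_mono (((fn_fl1 x.P x.z h).left _).pair (Fn.fst _ _)))
      (mi_mono ((Fn.snd _ _).left _))
  unfold Inf
  rw [mi_symm, mi_symm ((shOf x).zc c'), mi_symm ((shOf x).zc c)]
  linarith

/-- The mean gain. -/
noncomputable def mV (η t v C : ℝ) (X : ℕ → ℝ) (r L : ℕ) (W : Finset ℕ) (c : ℕ) : ℝ :=
  x.P.E (Y.ψ η (Y.ix c)) - 8 * Y.up (fun j => x.P.E fun ω => dr t v X r (Y.jp j ω)) c -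
    C * Y.up (fun j => 1 + Y.hc j) c - Hp x L W c

/-- The mean cost. -/
noncomputable def mD (η : ℝ) (Dh : ℕ → ℝ) (c : ℕ) : ℝ :=
  Dh c + Y.up (fun j => x.P.E (Y.tv η j)) c + Y.w * Y.up (fun j => 1 + Y.hc j) c + Y.w * Y.Inf c

theorem jp_nn (j : ℕ) (ω : x.Ω) : 0 ≤ Y.jp j ω := by
  unfold jp dsp pen
  exact sum_nonneg fun _ _ => abs_nonneg _

theorem tv_nn (η : ℝ) (j : ℕ) (ω : x.Ω) : 0 ≤ Y.tv η j ω := by
  have := Y.jp_nn j ω
  unfold tv; positivity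

theorem utv_mono (η : ℝ) : Monotone (Y.up fun j => x.P.E (Y.tv η j)) :=
  Y.up_mono fun j _ => x.P.E_nonneg fun ω _ => Y.tv_nn η j ω

theorem uhc_mono : Monotone (Y.up fun j => 1 + Y.hc j) :=
  Y.up_mono fun _ _ => add_nonneg zero_le_one (ch_nonneg _ _)

theorem mD_parts (η : ℝ) {Dh : ℕ → ℝ} (hD : Monotone Dh) (h : c ≤ c') :
    Dh c' - Dh c ≤ Y.mD η Dh c' - Y.mD η Dh c ∧
    Y.up (fun j => x.P.E (Y.tv η j)) c' - Y.up (fun j => x.P.E (Y.tv η j)) c ≤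
      Y.mD η Dh c' - Y.mD η Dh c ∧
    Y.w * (Y.up (fun j => 1 + Y.hc j) c' - Y.up (fun j => 1 + Y.hc j) c) ≤
      Y.mD η Dh c' - Y.mD η Dh c ∧ Y.w * (Y.Inf c' - Y.Inf c) ≤ Y.mD η Dh c' - Y.mD η Dh c := by
  have a1 := hD h
  have a2 := Y.utv_mono η h
  have a3 := mul_le_mul_of_nonneg_left (Y.uhc_mono h) (Nat.cast_nonneg (α := ℝ) Y.w)
  have a4 := mul_le_mul_of_nonneg_left (Y.Inf_mono h) (Nat.cast_nonneg (α := ℝ) Y.w)
  unfold mD
  refine ⟨?_, ?_, ?_, ?_⟩ <;> linarith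

theorem mD_mono (η : ℝ) {Dh : ℕ → ℝ} (hD : Monotone Dh) : Monotone (Y.mD η Dh) := fun _ _ h => by
  linarith [(Y.mD_parts η hD h).1, hD h]

variable {Y} {η t v s C C₀ : ℝ} {X : ℕ → ℝ} {I r L : ℕ} {W : Finset ℕ}

theorem Ok.nest' (h : Y.Ok η t v s C C₀ X I) {i j : ℕ} (e : i ≤ j) : Fn x.P (Y.χ i) (Y.χ j) := by
  induction j, e using Nat.le_induction with
  | base => exact Fn.rfl _
  | succ k _ ih => exact ih.trans (h.nest k)

theorem Ok.ch_sum (h : Y.Ok η t v s C C₀ X I) {i j : ℕ} (e : i ≤ j) :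
    ch x.P (Y.χ j) (Y.χ i) = ∑ k ∈ Ico i j, Y.hc k := by
  have a : ∀ a b, a ≤ b → ch x.P (Y.χ b) (Y.χ a) = hh x.P (Y.χ b) - hh x.P (Y.χ a) :=
    fun a b e => congrArg (· - _) (hh_congr ((Fn.rfl _).pair (h.nest' e)) (Fn.fst _ _))
  simp only [hc, a _ _ (Nat.le_succ _)]
  rw [a _ _ e, sum_Ico_sub (fun k => hh x.P (Y.χ k)) e]

theorem Ok.uhc (h : Y.Ok η t v s C C₀ X I) (hw : 0 < Y.w) :
    Y.w * ∑ j ∈ range Y.T, (1 + Y.hc j) ≤ Y.M + C * (Y.M + Y.w) := by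
  have w0 : (0 : ℝ) < Y.w := by exact_mod_cast hw
  have a : (Y.T : ℝ) * Y.w ≤ Y.M := by exact_mod_cast Nat.div_mul_le_self Y.M Y.w
  have b := ((h.ch_sum (Nat.zero_le Y.T)).ge.trans (ch_le_hh _ _)).trans
    ((hh_mono (h.nest _)).trans h.ent)
  rw [← range_eq_Ico] at b
  have d := mul_le_mul_of_nonneg_left b w0.le
  have e : Y.w * (C * (Y.M / Y.w + 1)) = C * (Y.M + Y.w) := by field_simp
  rw [sum_add_distrib, sum_const, card_range, nsmul_eq_mul]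
  linarith

theorem Ok.mD_tot (h : Y.Ok η t v s C C₀ X I) (hw : 0 < Y.w) (Dh : ℕ → ℝ) :
    Y.mD η Dh Y.M - Y.mD η Dh 0 ≤ Dh Y.M - Dh 0 + Y.M + 3 * C * (Y.M + Y.w) := by
  have w0 : (0 : ℝ) < Y.w := by exact_mod_cast hw
  have a1 := Y.up_tot fun j => x.P.E (Y.tv η j)
  have a2 := congrArg ((Y.w : ℝ) * ·) (Y.up_tot fun j => 1 + Y.hc j)
  have a3 : Y.Inf Y.M ≤ _ := ((mi_symm _ _ _).trans_le ((mi_le _ _ _).trans (ch_le_hh _ _))).trans
    h.ent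
  have a4 := mul_le_mul_of_nonneg_left a3 w0.le
  have a5 := mul_nonneg w0.le (show 0 ≤ Y.Inf 0 from mi_nonneg _ _ _)
  have e : Y.w * (C * (Y.M / Y.w + 1)) = C * (Y.M + Y.w) := by field_simp
  unfold mD
  linarith [h.tv, h.uhc hw]

theorem Ok.mV_step (h : Y.Ok η t v s C C₀ X I) (p : Pen.Ok t v X) (hs : 0 ≤ s) (hw : 0 < Y.w)
    (e : c ≤ c') (e' : c' ≤ Y.M) : Y.mV η t v C X r L W c' - Y.mV η t v C X r L W c ≤
      (N * lg + s) * (c' - c + Y.w) + (Hz x c' - Hz x c) + Y.w * lg -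
        (Hp x L W c' - Hp x L W c) := by
  have a1 := Y.tele (f := fun j => x.P.E (Y.ψ η j) - (N * lg + s) * Y.lv j - Hz x (Y.lv j))
    (a := fun j => C * (1 + Y.hc j)) (fun j hj => by
      have := h.step j hj
      rw [ch_O (Y.lv_anti (Nat.le_succ j))] at this
      rw [Y.lv_succ hj]; linarith) e
  have a2 : ∀ c, Y.up (fun j => C * (1 + Y.hc j)) c = C * Y.up (fun j => 1 + Y.hc j) c :=
    fun c => by simp only [up, ← mul_sum, mul_neg]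
  have a3 := Y.up_mono (a := fun j => x.P.E fun ω => dr t v X r (Y.jp j ω))
    (fun j _ => x.P.E_nonneg fun ω _ => p.dr_nonneg (Y.jp_nn j ω)) e
  have b1 := Y.lv_ix_le e'
  have b2 := Y.le_lv_ix hw (e.trans e')
  have b3 := Hz_mono (x := x) b1
  have b4 := Hz_le (x := x) b2
  have b5 : (Y.lv (Y.ix c') : ℝ) - Y.lv (Y.ix c) ≤ c' - c + Y.w := by
    have u1 : (Y.lv (Y.ix c') : ℝ) ≤ c' := by exact_mod_cast b1
    have u2 : (c : ℝ) ≤ Y.lv (Y.ix c) + Y.w := by exact_mod_cast b2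
    linarith
  have b6 := mul_le_mul_of_nonneg_left b5
    (add_nonneg (mul_nonneg (Nat.cast_nonneg N) lg_pos.le) hs)
  rw [a2, a2] at a1
  unfold mV
  linarith

theorem Ok.mV_tot (h : Y.Ok η t v s C C₀ X I) :
    mu x Y.M - s * Y.M - C * (Y.M / Y.w + Y.w) -
      8 * ∑ j ∈ range Y.T, (x.P.E fun ω => dr t v X r (Y.jp j ω)) -
      C * ∑ j ∈ range Y.T, (1 + Y.hc j) - ∑ j ∈ W, (Hz x ((j + 1) * L) - Hz x (j * L)) ≤
      Y.mV η t v C X r L W Y.M - Y.mV η t v C X r L W 0 := by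
  have a1 := Y.up_tot fun j => x.P.E fun ω => dr t v X r (Y.jp j ω)
  have a2 := congrArg (C * ·) (Y.up_tot fun j => 1 + Y.hc j)
  have a3 := Hp_tot (x := x) L W Y.M
  unfold mV
  rw [ix_top, ix_zero]
  linarith [h.tot]

end Chn

end Pool.Agent.MP_5168f5_an.QA
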