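import Pool.Agent.MP_5168f5_an.QA.SelPa

/-! The chain of optimal labels: a window with linear mean profiles. -/

namespace Pool.Agent.MP_5168f5_an.QA

open H19 H17S H17F MX Filter Finset Pen

namespace Chn

theorem ln_l {N : ℕ} {x : Cfg N} (h : Fn x.P x.θ fun _ => ()) : Fn x.P x.ln (shOf x).l :=
  fun a ha b hb e => by
    simp only [Sh.l, Prod.mk.injEq] at e
    simp only [Cfg.ln, e.1, e.2, h a ha b hb rfl]

theorem l_ln {N : ℕ} (x : Cfg N) : Fn x.P (shOf x).l x.ln := fun a _ b _ e => by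
  simp only [Cfg.ln, Prod.mk.injEq] at e
  simp only [Sh.l, e.1, e.2.1]

theorem sm_max {M : ℕ → ℕ} {f g : ℕ → ℝ} (h : Sm M f) (h' : Sm M g) :
    Sm M fun n => max (f n) (g n) := fun ε hε =>
  ((h ε hε).and (h' ε hε)).mono fun _ a => max_le a.1 a.2

theorem Ok.gain {N D : ℕ} {x : Cfg N} {Y : Chn D x} {η t v s C C₀ η₀ ε δ : ℝ} {X : ℕ → ℝ}
    {I r L : ℕ} {W : Finset ℕ} (h : Y.Ok η t v s C C₀ X I) (p : Pen.Ok t v X) (hI : 0 < I)
    (hε : 0 ≤ ε) (hC : 0 ≤ C) (tr : Fn x.P x.θ fun _ => ())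
    (a1 : W.card * L * lg ≤ (1 + ε) * df x Y.M)
    (a2 : ∑ j ∈ W, ch x.P (fun ω => fl1 ((j + 1) * L) (x.z ω))
      (fun ω => (fl1 (j * L) (x.z ω), x.ln ω)) ≤ ε * Y.M)
    (a3 : N * df x Y.M + η₀ * Y.M ≤ mu x Y.M)
    (a4 : (N + 1) * ε + s + 8 * (v + 1 / I) * C₀ ≤ η₀ / 16)
    (a5 : ∑ j ∈ range Y.T, (x.P.E fun ω => dr t v X r (Y.jp j ω)) ≤
      (v + 1 / I) * ∑ j ∈ range Y.T, x.P.E fun ω => pn t v X I (Y.jp j ω))
    (d0 : 0 < δ) (d1 : 1 ≤ δ * Y.w) (d2 : (Y.w : ℝ) ≤ δ * Y.M) (d3 : 1 ≤ δ * Y.M)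
    (d4 : (35 * C + 2 * C ^ 2) * δ ≤ η₀ / 4) (e0 : 0 ≤ η₀) :
    N * lg * (W.card * L) + η₀ / 2 * Y.M ≤ Y.mV η t v C X r L W Y.M - Y.mV η t v C X r L W 0 := by
  have w0 : (0 : ℝ) < Y.w := (pos_iff_pos_of_mul_pos (one_pos.trans_le d1)).1 d0
  have m0 : (0 : ℝ) ≤ Y.M := Nat.cast_nonneg _
  have n0 : (0 : ℝ) ≤ N := Nat.cast_nonneg _
  have b1 : (Y.M : ℝ) / Y.w ≤ δ * Y.M := by
    rw [div_le_iff₀ w0]; nlinarith
  have b2 : ∑ j ∈ range Y.T, (1 + Y.hc j) ≤ δ * Y.M + C * (δ * Y.M + δ * Y.M) := by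
    have := h.uhc (by exact_mod_cast w0)
    rw [← le_div_iff₀' w0, add_div, mul_div_assoc, add_div, div_self w0.ne'] at this
    exact this.trans (add_le_add b1 (mul_le_mul_of_nonneg_left (add_le_add b1 d3) hC))
  have b3 : ∑ j ∈ W, (Hz x ((j + 1) * L) - Hz x (j * L)) ≤ ε * Y.M :=
    (sum_le_sum fun j _ => (ch_win x.P (shOf x).l x.z (Nat.mul_le_mul_right _
      (Nat.le_succ j))).ge.trans (ch_anti ((Fn.fst _ _).pair ((ln_l tr).right _)))).trans a2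
  have b4 : df x Y.M ≤ Y.M := by
    have := ch_nonneg (P := x.P) (fun ω => fl1 Y.M (x.z ω)) x.ln
    have l1 : lg ≤ 1 := Real.log_two_lt_d9.le.trans (by norm_num)
    have := mul_le_mul_of_nonneg_left l1 m0
    unfold df; linarith
  have i1 : (1 : ℝ) ≤ I := by exact_mod_cast hI
  have i2 : 1 / (I : ℝ) ≤ 1 := (div_le_one (by linarith)).2 i1
  have i3 : 0 ≤ v + 1 / (I : ℝ) := add_nonneg p.v0 (by positivity)
  have b5 := mul_le_mul_of_nonneg_left (add_le_add b1 d2) hC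
  have b6 := a5.trans (mul_le_mul_of_nonneg_left (h.drf.trans (add_le_add le_rfl b5)) i3)
  have b7 := mul_le_mul_of_nonneg_right (show v + 1 / (I : ℝ) ≤ 2 by linarith [p.v1])
    (show 0 ≤ C * (δ * Y.M + δ * Y.M) by positivity)
  have b8 := mul_le_mul_of_nonneg_left a1 n0
  have b9 := mul_le_mul_of_nonneg_left b4 (mul_nonneg n0 hε)
  linarith [h.mV_tot (r := r) (L := L) (W := W), mul_le_mul_of_nonneg_left b2 hC,
    mul_le_mul_of_nonneg_right a4 m0, mul_le_mul_of_nonneg_right d4 m0, mul_nonneg e0 m0]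

variable {N D : ℕ} {y : ℕ → Cfg N} {M L w : ℕ → ℕ} {W : ℕ → Finset ℕ} {Dh X : ℕ → ℕ → ℝ}
  {Y : ∀ n, Chn D (y n)} {η₀ ε η t v s C C₀ : ℝ} {I : ℕ}

/-- The first zoom. -/
theorem st1 (pd : Pd y M L W Dh ε) (e0 : 0 < η₀) (hε : 0 ≤ ε) (hs : 0 ≤ s) (hC : 0 ≤ C)
    (hC₀ : 0 ≤ C₀) (hI : 0 < I) (a3 : ∀ᶠ n in UF, N * df (y n) (M n) + η₀ * M n ≤ mu (y n) (M n))
    (a4 : (N + 1) * ε + s + 8 * (v + 1 / I) * C₀ ≤ η₀ / 16) (hw : Big w) (hL : Sm M fun n => L n)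
    (h2 : ∀ r < I, ∃ L₂ : ℕ → ℕ, (Sm L₂ fun n => w n) ∧ (Sm L₂ fun n => X n r) ∧
      (∀ A : ℝ, ∀ᶠ n in UF, A * L₂ n < X n (r + 1)) ∧ Sm L fun n => L₂ n)
    (ok : ∀ᶠ n in UF, Pen.Ok t v (X n) ∧ (Y n).M = M n ∧ (Y n).w = w n ∧
      (Y n).Ok η t v s C C₀ (X n) I) :
    ∃ r < I, ∃ (β τ : ℝ) (c₁ u : ℕ → ℕ), η₀ / 64 ≤ β ∧ 0 ≤ τ ∧ Big u ∧ (Sm u fun n => w n) ∧
      (Sm u fun n => X n r) ∧ (∀ A : ℝ, ∀ᶠ n in UF, A * u n < X n (r + 1)) ∧ Unp M L W u c₁ ∧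
      LinAt u c₁ (fun n => (Y n).mV η t v C (X n) r (L n) (W n)) β ∧
      LinAt u c₁ (fun n => (Y n).mD η (Dh n)) τ := by
  obtain ⟨⟨r, hr⟩, a5⟩ := ev_ex (J := Fin I) (p := fun r n =>
    ∑ j ∈ range (Y n).T, ((y n).P.E fun ω => dr t v (X n) r ((Y n).jp j ω)) ≤
      (v + 1 / I) * ∑ j ∈ range (Y n).T, (y n).P.E fun ω => pn t v (X n) I ((Y n).jp j ω))
    (ok.mono fun n a => (a.1.pick hI _ _ _ fun j _ ω _ => (Y n).jp_nn j ω).elim fun i b =>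
      ⟨⟨i, b.1⟩, b.2⟩)
  obtain ⟨L₂, l1, l2, l3, l4⟩ := h2 r hr
  have k1 : ∀ᶠ n in UF, (w n : ℝ) ≤ L₂ n := (l1 1 one_pos).mono fun n a => by linarith
  have k2 : Sm L fun n => w n := l4.mono k1
  have k3 : Sm M fun n => w n := hL.mono ((k2 1 one_pos).mono fun n a => by linarith)
  have k4 : Big L₂ := tendsto_atTop_mono' _ (k1.mono fun n a => by exact_mod_cast a) hw
  have v0 : 0 ≤ v := ok.exists.elim fun _ a => a.1.v0
  have s1 : s ≤ η₀ / 16 := by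
    have : 0 ≤ (N + 1) * ε + 8 * (v + 1 / I) * C₀ := by positivity
    linarith
  have g0 := lg_pos
  have d0 : 0 < η₀ / 4 / (35 * C + 2 * C ^ 2 + 1) := by positivity
  obtain ⟨β, τ, c₁, M₀, b1, b2, b3, b4⟩ := win (M := M) (L := L) (L₂ := L₂) (W := W)
    (V := fun n => (Y n).mV η t v C (X n) r (L n) (W n)) (D := fun n => (Y n).mD η (Dh n))
    (e := fun n => ((N + 1) * lg + s) * w n) (g := N * lg) (C := (N + 1) * lg + s) (η := η₀ / 2)
    (A := 5 + 6 * C) k4 l4 hL (by positivity) (by positivity) (by positivity) (by positivity)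
    (l1.smul (by positivity)) (fun n => (Y n).mD_mono η (pd.mono n).1) (by
      filter_upwards [ok, pd.top, k3 1 one_pos, hw.ev 1] with n ⟨_, a, b, c⟩ d e f
      have := c.mD_tot (b ▸ by exact_mod_cast one_pos.trans_le f) (Dh n)
      rw [a, b, (pd.mono n).2] at this
      nlinarith) (by
      filter_upwards [ok, k2.smul (c := (N + 1) * lg + s) (by positivity) (η₀ / 16) (by positivity),
        hw.ev 1, k2 1 one_pos] with n ⟨p, a, b, c⟩ d e f j hj k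
      have := c.mV_step (r := r) (L := L n) (W := W n) p hs (b ▸ by
        exact_mod_cast one_pos.trans_le e) (Nat.mul_le_mul_right (L n) (Nat.le_succ j)) (a ▸ k)
      have z := Hp_paid (x := y n) (L := L n) (by exact_mod_cast (by linarith : (0 : ℝ) < L n)) hj
      rw [b] at this
      push_cast at this
      nlinarith [mul_le_mul_of_nonneg_right s1 (Nat.cast_nonneg (α := ℝ) (L n))]) (by
      filter_upwards [ok, hw.ev 1] with n ⟨p, a, b, c⟩ e c₁ c₂ k k'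
      have := c.mV_step (r := r) (L := L n) (W := W n) p hs
        (b ▸ by exact_mod_cast one_pos.trans_le e) k (a ▸ k')
      have z := Hz_le (x := y n) (c := c₁) (c' := c₂) (d := c₂ - c₁) (by omega)
      rw [Nat.cast_sub k] at z
      rw [b] at this
      linarith [Hp_mono (x := y n) (L n) (W n) k]) (by
      filter_upwards [ok, pd.card, pd.paid, a3, a5, hw.sm 1 _ d0, k3 _ d0, pd.dsk.big.sm 1 _ d0]
        with n ⟨p, a, b, c⟩ f1 f2 f3 f4 f5 f6 f7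
      rw [← a] at f1 f2 f3 f6 f7 ⊢
      rw [← b] at f5 f6
      refine c.gain p hI hε hC (pd.dsk.triv n) f1 f2 f3 a4 f4 d0 (by linarith) (by linarith)
        (by linarith) ?_ e0.le
      rw [← mul_div_assoc, div_le_iff₀ (by positivity)]
      linarith)
  obtain ⟨u, u1, u2, u3⟩ := ex_mid k4 (sm_max b3 (sm_max l1 l2))
  refine ⟨r, hr, β, τ, c₁, u, by linarith, b2, u1, u3.mono (Eventually.of_forall fun n =>
    le_max_of_le_right (le_max_left _ _)), u3.mono (Eventually.of_forall fun n =>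
    le_max_of_le_right (le_max_right _ _)), fun A => ?_,
    b4 u u1 u2 (u3.mono (Eventually.of_forall fun n => le_max_left _ _))⟩
  filter_upwards [l3 |A|, u2 1 one_pos] with n a b
  exact (mul_le_mul (le_abs_self A) (by linarith) (Nat.cast_nonneg _) (abs_nonneg _)).trans_lt a

end Chn

end Pool.Agent.MP_5168f5_an.QA
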