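import Pool.Agent.MP_5168f5_an.QA.SelPb
import Pool.Agent.MP_5168f5_an.QA.HVal

/-! The chain of optimal labels: the choice of a path. -/

namespace Pool.Agent.MP_5168f5_an.QA

open H19 H17S H17F MX Filter Finset Pen

namespace Chn

theorem fl1_pow (j k : ℕ) (s : ℝ) : fl1 k (2 ^ j * s) = fl1 (j + k) s := by
  unfold fl1
  rw [pow_add]; congr 1; ring

theorem sm_div {u w : ℕ → ℕ} {f : ℕ → ℝ} {A : ℝ} (hw : Big w)
    (h : ∀ᶠ n in UF, w n * f n ≤ A * u n) : Sm u f := fun ε hε => by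
  filter_upwards [h, hw.sm A ε hε, hw.ev 1] with n a b c
  refine le_of_mul_le_mul_left (a.trans ?_) (one_pos.trans_le c)
  linarith [mul_le_mul_of_nonneg_right b (Nat.cast_nonneg (α := ℝ) (u n))]

theorem sel {Ω : Type} (P : FP Ω) {G T : Ω → ℝ} {E : Ω → Prop} {K a g : ℝ} (hg : 0 ≤ g)
    (ha : 0 ≤ a) (h : ∀ ω ∈ P.S, G ω ≤ K ∧ 0 ≤ T ω)
    (e : g < P.E G - a * P.E T - K * pb P fun ω => ¬E ω) :
    ∃ ω ∈ P.S, E ω ∧ g < G ω ∧ a * T ω ≤ K := by
  by_contra k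
  push Not at k
  unfold pb at e
  rw [← FP.E_mul, ← FP.E_mul, ← FP.E_sub, ← FP.E_sub] at e
  refine e.not_ge ((P.E_mono fun ω hω => ?_).trans_eq (P.E_const g))
  have := mul_nonneg ha (h ω hω).2
  by_cases c : E ω
  · rw [if_neg (not_not.2 c)]
    rcases le_or_gt (G ω) g with d | d
    · linarith
    · linarith [k ω hω c d, (h ω hω).1]
  · rw [if_pos c]
    linarith [(h ω hω).1]

section One

variable {N D : ℕ} {x : Cfg N} (Y : Chn D x) {c c' : ℕ}

/-- The excess of a step. -/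
noncomputable def Rr (η C : ℝ) (j : ℕ) (ω : x.Ω) : ℝ :=
  max 0 (Y.ψ η j ω - Y.ψ η (j + 1) ω - C * Y.w)

/-- The sum along one path. -/
noncomputable def pw (a : ℕ → x.Ω → ℝ) (ω : x.Ω) (c : ℕ) : ℝ := Y.up (fun j => a j ω) c

theorem pw_mono {a : ℕ → x.Ω → ℝ} {ω : x.Ω} (e : ∀ j, 0 ≤ a j ω) : Monotone (Y.pw a ω) :=
  Y.up_mono fun j _ => e j

theorem E_pw (a : ℕ → x.Ω → ℝ) (c c' : ℕ) : x.P.E (fun ω => Y.pw a ω c' - Y.pw a ω c) =
    Y.up (fun j => x.P.E (a j)) c' - Y.up (fun j => x.P.E (a j)) c := by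
  rw [FP.E_sub, ← Y.E_up, ← Y.E_up]; rfl

theorem psi_le (η : ℝ) {C : ℝ} (hC : 0 ≤ C) (hw : 0 < Y.w) (ω : x.Ω) (e : c ≤ c') (e' : c' ≤ Y.M) :
    Y.ψ η (Y.ix c') ω - Y.ψ η (Y.ix c) ω ≤
      C * (c' - c + Y.w) + (Y.pw (Y.Rr η C) ω c' - Y.pw (Y.Rr η C) ω c) := by
  have a := Y.tele (f := fun j => Y.ψ η j ω - C * Y.lv j) (a := fun j => Y.Rr η C j ω)
    (fun j hj => le_max_of_le_right (by rw [Y.lv_succ hj]; linarith)) e
  have u1 : (Y.lv (Y.ix c') : ℝ) ≤ c' := by exact_mod_cast Y.lv_ix_le e'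
  have u2 : (c : ℝ) ≤ Y.lv (Y.ix c) + Y.w := by exact_mod_cast Y.le_lv_ix hw (e.trans e')
  unfold pw
  linarith [mul_le_mul_of_nonneg_left u1 hC, mul_le_mul_of_nonneg_left u2 hC]

variable {Y} {η t v s C C₀ : ℝ} {X : ℕ → ℝ} {I : ℕ}

theorem Ok.E_Rr (h : Y.Ok η t v s C C₀ X I) (e : c ≤ c') :
    x.P.E (fun ω => Y.pw (Y.Rr η C) ω c' - Y.pw (Y.Rr η C) ω c) ≤
      C * (Y.up (fun j => 1 + Y.hc j) c' - Y.up (fun j => 1 + Y.hc j) c) := by
  rw [E_pw, Y.up_sub _ e, Y.up_sub _ e, mul_sum]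
  exact sum_le_sum fun j hj => h.tail j ((mem_Ico.1 hj).2.trans_le (Y.ix_le c))

theorem Ok.E_sur (h : Y.Ok η t v s C C₀ X I) (e : c ≤ c') :
    x.P.E (fun ω => -Real.log (cm x.P (Y.χ (Y.ix c')) (Y.χ (Y.ix c)) ω)) ≤
      Y.up (fun j => 1 + Y.hc j) c' - Y.up (fun j => 1 + Y.hc j) c := by
  rw [← ch_eq_cm, h.ch_sum (Y.ix_anti e), Y.up_sub _ e]
  exact sum_le_sum fun j _ => by linarith

end One

variable {N D : ℕ} {y : ℕ → Cfg N} {M L w c u : ℕ → ℕ} {W : ℕ → Finset ℕ} {Dh X : ℕ → ℕ → ℝ}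
  {Y : ∀ n, Chn D (y n)} {η₀ ε η t v s C C₀ β τ : ℝ} {I r : ℕ}

theorem lin_le {φ : ℕ → ℕ → ℝ} (h : LinAt u c φ τ) {ε : ℝ} (hε : 0 < ε) : ∀ᶠ n in UF, ∀ a a' : ℕ,
    c n ≤ a + u n → a ≤ a' → a' ≤ c n + u n → φ n a' - φ n a ≤ τ * (a' - a) + ε * u n :=
  (h.two 1 hε).mono fun n k a a' e1 e2 e3 => by
    have f1 : (c n : ℝ) ≤ a + u n := by exact_mod_cast e1
    have f2 : (a : ℝ) ≤ a' := by exact_mod_cast e2
    have f3 : (a' : ℝ) ≤ c n + u n := by exact_mod_cast e3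
    have := k a a' (abs_le.2 ⟨by linarith, by linarith⟩) (abs_le.2 ⟨by linarith, by linarith⟩)
    linarith [(abs_le.1 this).2]

/-- The heights stay flat given the context. -/
theorem ht0 (pd : Pd y M L W Dh ε) (hw : Big w) (hu : Big u) (un : Unp M L W u c) (hτ : 0 ≤ τ)
    (ld : LinAt u c (fun n => (Y n).mD η (Dh n)) τ)
    (ok : ∀ᶠ n in UF, (Y n).w = w n ∧ (Y n).Ok η t v s C C₀ (X n) I) (b : ℕ → ℕ) :
    ∃ kf, HT kf (fun n => (y n).P) (fun n ω => 2 ^ c n * (y n).z ω)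
      (fun n ω => ((Y n).χ ((Y n).ix (b n)) ω, (shOf (y n)).l ω)) u := by
  obtain ⟨kf, hk⟩ := pd.ht τ
  refine ⟨kf, fun i a a' h => ?_⟩
  have k : ∀ δ : ℝ, 0 < δ → ∀ᶠ n in UF, (Y n).mD η (Dh n) (c n + a' n) -
      (Y n).mD η (Dh n) (c n + a n) ≤ τ * (a' n - a n) + δ * u n := fun δ hδ =>
    (lin_le ld hδ).mono fun n e => by
      simpa using e (c n + a n) (c n + a' n) (by omega) (by linarith [h n]) (by linarith [h n])
  have p := fun n => (Y n).mD_parts η (pd.mono n).1 (Nat.add_le_add_left (h n).1 (c n))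
  have H := hk i (fun n => c n + a n) (fun n => c n + a' n) u hu ((un 1).mono fun n e => by
      have f : ∀ d, c n + a n ≤ d → d ≤ c n + a' n → |(d : ℝ) - c n| ≤ 1 * u n := fun d f1 f2 => by
        have g1 : (c n : ℝ) ≤ d := by exact_mod_cast (by omega : c n ≤ d)
        have g2 : (d : ℝ) ≤ c n + u n := by exact_mod_cast (by linarith [h n] : d ≤ c n + u n)
        exact abs_le.2 ⟨by linarith, by linarith⟩
      exact ⟨by linarith [h n], (e.2 _ (f _ (by linarith [h n]) le_rfl)).1,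
        fun d f1 f2 => (e.2 _ (f d f1 f2.le)).2⟩)
    fun δ hδ => (k δ hδ).mono fun n e => by
      push_cast
      linarith [(p n).1]
  have H1 := (H.coarse (K' := fun n ω => ((shOf (y n)).zc (c n + a n) ω, (shOf (y n)).l ω))
    (Eventually.of_forall fun n => (Fn.fst _ _).pair ((l_ln _).right _))).info
    (K' := fun n => (Y n).χ ((Y n).T + 1)) hu (sm_div (A := τ + 1) hw (by
      filter_upwards [k 1 one_pos, ok] with n e o
      have f : (a' n : ℝ) - a n ≤ u n := by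
        have : (a' n : ℝ) ≤ u n := by exact_mod_cast (h n).2
        linarith [(Nat.cast_nonneg (a n) : (0 : ℝ) ≤ _)]
      have g := (Y n).Inf_sub (Nat.add_le_add_left (h n).1 (c n))
      have g' := (p n).2.2.2
      rw [← g, o.1] at g'
      exact g'.trans (by linarith [mul_le_mul_of_nonneg_left f hτ])))
  refine ((H1.coarse (ok.mono fun n o => Fn.pair (fun _ _ _ _ e => ?_) (Fn.pair
    ((o.2.nest' (((Y n).ix_le _).trans (Nat.le_succ _))).left _)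
    ((Fn.snd _ _).right _)))).congr (Eventually.of_forall fun n ω _ => ?_)).mono
    (Le.of_le fun n => le_of_eq (by push_cast; ring))
  · rw [fl1_pow, fl1_pow]
    exact congrArg (·.2.1) e
  · rw [pow_add]; congr 1; ring

/-- The choice of the path. -/
theorem st2 (pd : Pd y M L W Dh ε) (e0 : 0 < η₀) (hC : 0 ≤ C) (hw : Big w) (hu : Big u)
    (uw : Sm u fun n => w n) (un : Unp M L W u c) (hβ : η₀ / 64 ≤ β) (hτ : 0 ≤ τ)
    (lV : LinAt u c (fun n => (Y n).mV η t v C (X n) r (L n) (W n)) β)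
    (ld : LinAt u c (fun n => (Y n).mD η (Dh n)) τ)
    (ok : ∀ᶠ n in UF, Pen.Ok t v (X n) ∧ (Y n).M = M n ∧ (Y n).w = w n ∧
      (Y n).Ok η t v s C C₀ (X n) I) :
    ∃ (kf : ℕ → ℕ) (A : ℝ) (o : ∀ n, (y n).Ω),
      HT kf (fun n => cv (y n).P ((Y n).χ ((Y n).ix (c n - u n)))
        ((Y n).χ ((Y n).ix (c n - u n)) (o n))) (fun n ω => 2 ^ c n * (y n).z ω)
        (fun n => (shOf (y n)).l) u ∧
      (∀ᶠ n in UF, o n ∈ (y n).P.S ∧ η₀ / 100 * u n ≤ (Y n).ψ η ((Y n).ix (c n + u n)) (o n) -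
        (Y n).ψ η ((Y n).ix (c n)) (o n) -
        8 * ((Y n).pw (fun j ω => dr t v (X n) r ((Y n).jp j ω)) (o n) (c n + u n) -
          (Y n).pw (fun j ω => dr t v (X n) r ((Y n).jp j ω)) (o n) (c n)) ∧
        (Y n).pw ((Y n).tv η) (o n) (c n + u n) - (Y n).pw ((Y n).tv η) (o n) (c n) ≤ A * u n) ∧
      (Sm u fun n => (Y n).pw ((Y n).Rr η C) (o n) (c n + u n) -
        (Y n).pw ((Y n).Rr η C) (o n) (c n)) ∧
      Sm u fun n => -Real.log (cm (y n).P ((Y n).χ ((Y n).ix (c n + u n)))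
        ((Y n).χ ((Y n).ix (c n - u n))) (o n)) := by
  obtain ⟨kf, hk⟩ := ht0 pd hw hu un hτ ld (ok.mono fun _ a => a.2.2) fun n => c n - u n
  obtain ⟨E, e1, e2⟩ := hk.val hu
  have k : ∀ a : ℕ → ℕ, (∀ n, c n ≤ a n + u n ∧ a n ≤ c n) → Sm u fun n =>
      (Y n).up (fun j => 1 + (Y n).hc j) (c n + u n) - (Y n).up (fun j => 1 + (Y n).hc j) (a n) :=
    fun a h => sm_div (A := 2 * τ + 1) hw (by
      filter_upwards [lin_le ld one_pos, ok] with n e o
      have f := e (a n) (c n + u n) (h n).1 (by linarith [h n]) le_rfl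
      have g := ((Y n).mD_parts η (pd.mono n).1 (c := a n) (c' := c n + u n)
        (by linarith [h n])).2.2.1
      have f1 : (c n : ℝ) ≤ a n + u n := by exact_mod_cast (h n).1
      push_cast at f
      rw [o.2.2.1] at g
      nlinarith)
  obtain ⟨E', f1, f2⟩ := whp_diag fun j : ℕ => (KSA.mark (fun n => (y n).P) u
    (fun n ω => (Y n).pw ((Y n).Rr η C) ω (c n + u n) - (Y n).pw ((Y n).Rr η C) ω (c n))
    (1 / (j + 1 : ℝ)) hu (by positivity) (Eventually.of_forall fun n ω _ => sub_nonneg.2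
      ((Y n).pw_mono (fun _ => le_max_left _ _) (Nat.le_add_right _ _)))
    (((k c fun n => ⟨Nat.le_add_right _ _, le_rfl⟩).smul hC).mono
      (ok.mono fun n o => o.2.2.2.E_Rr (Nat.le_add_right _ _)))).and (KSA.mark (fun n => (y n).P) u
    (fun n ω => -Real.log (cm (y n).P ((Y n).χ ((Y n).ix (c n + u n)))
      ((Y n).χ ((Y n).ix (c n - u n))) ω)) (1 / (j + 1 : ℝ)) hu (by positivity)
    (Eventually.of_forall fun n ω hω => neg_nonneg.2
      (Real.log_nonpos (cm_pos _ _ hω).le (cm_le_one _ _ _ _)))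
    ((k (fun n => c n - u n) fun n => ⟨by omega, by omega⟩).mono
      (ok.mono fun n o => o.2.2.2.E_sur (by omega))))
  have a0 : 0 < η₀ / 1000 / (τ + 1) := by positivity
  obtain ⟨o, ho⟩ := ev_choice (fun n => (y n).P) (p := fun n ω => ω ∈ (y n).P.S ∧
    (E n ω ∧ E' n ω) ∧ η₀ / 100 * u n < (Y n).ψ η ((Y n).ix (c n + u n)) ω -
      (Y n).ψ η ((Y n).ix (c n)) ω -
      8 * ((Y n).pw (fun j ω => dr t v (X n) r ((Y n).jp j ω)) ω (c n + u n) -
        (Y n).pw (fun j ω => dr t v (X n) r ((Y n).jp j ω)) ω (c n)) -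
      ((Y n).pw ((Y n).Rr η C) ω (c n + u n) - (Y n).pw ((Y n).Rr η C) ω (c n)) ∧
    η₀ / 1000 / (τ + 1) * ((Y n).pw ((Y n).tv η) ω (c n + u n) -
      (Y n).pw ((Y n).tv η) ω (c n)) ≤ 2 * C * u n) (by
    filter_upwards [ok, e1.and f1 (η₀ / 1000 / (2 * C + 1)) (by positivity), lin_le ld one_pos,
      lV 1 (η₀ / 1000) (by positivity), un 1, hu.ev 1, hw.ev 1, uw 1 one_pos]
      with n ⟨p, m1, m2, o⟩ g1 g2 g3 g4 g5 g6 g7
    have le := Nat.le_add_right (c n) (u n)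
    have ab : |((c n + u n : ℕ) : ℝ) - c n| ≤ 1 * u n := by simp
    refine sel _ (by positivity) a0.le (fun ω _ => ⟨?_, sub_nonneg.2
      ((Y n).pw_mono (fun j => (Y n).tv_nn η j ω) le)⟩) ?_
    · have := (Y n).psi_le η hC (m2 ▸ by exact_mod_cast one_pos.trans_le g6) ω le
        (m1 ▸ (g4.2 _ ab).1)
      have z := (Y n).pw_mono (a := fun j ω => dr t v (X n) r ((Y n).jp j ω)) (ω := ω)
        (fun j => p.dr_nonneg ((Y n).jp_nn j ω)) le
      rw [m2] at this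
      push_cast at this
      nlinarith
    · rw [FP.E_sub, FP.E_sub, FP.E_sub, FP.E_mul, E_pw, E_pw _ ((Y n).tv η)]
      have z1 := o.E_Rr le
      have z2 := (abs_le.1 (g3 _ ab)).1
      have z3 := ((Y n).mD_parts η (pd.mono n).1 le).2.1.trans (g2 _ _ le le le_rfl)
      have z4 := mul_le_mul_of_nonneg_left z3 a0.le
      have z5 := mul_le_mul_of_nonneg_left g1 (show 0 ≤ 2 * C * u n by positivity)
      have z6 : 2 * C * u n * (η₀ / 1000 / (2 * C + 1)) ≤ η₀ / 1000 * u n := by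
        rw [← mul_div_assoc, div_le_iff₀ (by positivity)]
        nlinarith
      have z7 : η₀ / 1000 / (τ + 1) * (τ * (((c n + u n : ℕ) : ℝ) - c n) + 1 * u n) =
          η₀ / 1000 * u n := by push_cast; field_simp; ring
      have z8 := Hp_mono (x := y n) (L n) (W n) le
      have z9 := mul_le_mul_of_nonneg_right hβ (Nat.cast_nonneg (α := ℝ) (u n))
      simp only [mV, Nat.cast_add, add_sub_cancel_left] at z2
      nlinarith)
  refine ⟨kf, 2 * C / (η₀ / 1000 / (τ + 1)), o, e2 o (ho.mono fun _ a => a.2.1.1),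
    ho.mono fun n a => ⟨a.1, ?_, ?_⟩, fun δ hδ => ?_, fun δ hδ => ?_⟩
  · linarith [a.2.2.1, (Y n).pw_mono (a := (Y n).Rr η C) (ω := o n) (fun _ => le_max_left _ _)
      (Nat.le_add_right (c n) (u n))]
  · rw [div_mul_eq_mul_div, le_div_iff₀' a0]
    exact a.2.2.2
  all_goals
    obtain ⟨j, hj⟩ := exists_nat_one_div_lt hδ
    filter_upwards [ho, f2 j] with n a b
    have := mul_le_mul_of_nonneg_right hj.le (Nat.cast_nonneg (α := ℝ) (u n))
    linarith [(b _ a.2.1.2).1, (b _ a.2.1.2).2]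

end Chn

end Pool.Agent.MP_5168f5_an.QA
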