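import Pool.Agent.MP_5168f5_an.QA.SelPc
import Pool.Agent.MP_5168f5_an.QA.Step
import Pool.Agent.MP_5168f5_an.QA.NJA

/-! The chain of optimal labels: one atom of the context. -/

namespace Pool.Agent.MP_5168f5_an.QA

open H19 H17S H17F MX Filter Finset Pen
open R4.K31 (Dn dn_cE)
open AN.C1 (Hb)

namespace Chn

variable {N D : ℕ} {x : Cfg N} {c c' : ℕ}

theorem box (h : x.Box) : (shOf x).Box x.P := fun ω hω =>
  ⟨(pi_norm_le_iff_of_nonneg zero_le_one).2 fun i => abs_le.2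
      ⟨by linarith [((h ω hω).1 i).1], ((h ω hω).1 i).2.le⟩,
    (pi_norm_le_iff_of_nonneg zero_le_one).2 fun i => abs_le.2
      ⟨by linarith [((h ω hω).2.1 i).1], ((h ω hω).2.1 i).2.le⟩, (h ω hω).2.2⟩

theorem nr_mono {r r' : ℝ} {ν ν' : VD N D → ℝ} (h : Nr r ν ν') (a : Hb ν) (b : Hb ν')
    (e : r ≤ r') : Nr r' ν ν' := fun F =>
  ⟨(h F).1.trans (mul_le_mul_of_nonneg_right (Real.exp_le_exp.2 e) (b.nonneg F)),
    (h F).2.trans (mul_le_mul_of_nonneg_right (Real.exp_le_exp.2 e) (a.nonneg F))⟩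

theorem nr_ds {ν ν' : VD N D → ℝ} (a : Hb ν) (b : Hb ν') : Nr (ds ν ν') ν ν' := fun F =>
  ⟨(NJ.le_rho1 a b F).trans (mul_le_mul_of_nonneg_right ((Real.le_exp_log _).trans
      (Real.exp_le_exp.2 (le_max_left _ _))) (b.nonneg F)),
    (NJ.le_rho1 b a F).trans (mul_le_mul_of_nonneg_right ((Real.le_exp_log _).trans
      (Real.exp_le_exp.2 (le_max_right _ _))) (a.nonneg F))⟩

theorem nr_trans {r r' : ℝ} {ν ν' μ : VD N D → ℝ} (h : Nr r ν ν') (h' : Nr r' ν' μ) :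
    Nr (r + r') ν μ := fun F => by
  rw [Real.exp_add]
  exact ⟨(h F).1.trans ((mul_le_mul_of_nonneg_left (h' F).1 (Real.exp_pos _).le).trans_eq
    (by ring)), (h' F).2.trans ((mul_le_mul_of_nonneg_left (h F).2
      (Real.exp_pos _).le).trans_eq (by ring))⟩

variable (Y : Chn D x)

theorem dom {F a : ℕ → ℝ} (h : ∀ j, |F j - F (j + 1)| ≤ a j) (e : c ≤ c') :
    |F (Y.ix c') - F (Y.ix c)| ≤ Y.up a c' - Y.up a c := by
  have a1 := Y.tele (f := F) (fun j _ => (abs_le.1 (h j)).2) e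
  have a2 := Y.tele (f := fun j => -F j) (a := a) (fun j _ => by linarith [(abs_le.1 (h j)).1]) e
  exact abs_le.2 ⟨by linarith, a1⟩

theorem jp_tv (η : ℝ) (j : ℕ) (ω : x.Ω) : Y.jp j ω ≤ Y.tv η j ω ∧ |Y.dj j ω| ≤ Y.tv η j ω ∧
    |Real.log (Y.S j ω).J - Real.log (Y.S (j + 1) ω).J| ≤ Y.tv η j ω := by
  have := Y.jp_nn j ω
  have := abs_nonneg (Y.dj j ω)
  have := abs_nonneg (Real.log (Y.S j ω).J - Real.log (Y.S (j + 1) ω).J)
  have := abs_nonneg (Y.ψ η j ω - Y.ψ η (j + 1) ω)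
  unfold tv
  refine ⟨?_, ?_, ?_⟩ <;> linarith

theorem sg_sum (ω : x.Ω) (e : c ≤ c') : ∑ k ∈ range (dV N D + 1),
    |sg k (Y.S (Y.ix c') ω).ν - sg k (Y.S (Y.ix c) ω).ν| ≤ Y.pw Y.jp ω c' - Y.pw Y.jp ω c := by
  refine (sum_le_sum fun k _ => Y.dom (F := fun j => sg k (Y.S j ω).ν)
    (fun j => (abs_sub_comm _ _).le) e).trans (le_of_eq ?_)
  simp only [pw, Y.up_sub _ e]
  exact sum_comm

theorem pw_jp (η : ℝ) (ω : x.Ω) (e : c ≤ c') :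
    Y.pw Y.jp ω c' - Y.pw Y.jp ω c ≤ Y.pw (Y.tv η) ω c' - Y.pw (Y.tv η) ω c :=
  Y.up_le (fun j _ => (Y.jp_tv η j ω).1) e

/-- The law on one atom of the context of the step `b`. -/
noncomputable def atom (b : ℕ) (o : x.Ω) : FP x.Ω := cv x.P (Y.χ b) (Y.χ b o)

variable {Y} {η t v s C C₀ : ℝ} {X : ℕ → ℝ} {I a b i i' r : ℕ} {o ω : x.Ω}

theorem Ok.mem (h : Y.Ok η t v s C C₀ X I) (ho : o ∈ x.P.S) (hω : ω ∈ (Y.atom b o).S)
    (e : i ≤ b) : ω ∈ x.P.S ∧ Y.χ i ω = Y.χ i o :=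
  ⟨cE_sub hω, h.nest' e _ (cE_sub hω) _ ho ((mem_cv ho ω).1 hω).2⟩

theorem Ok.dn (h : Y.Ok η t v s C C₀ X I) (ho : o ∈ x.P.S) (e : a ≤ i) (e' : i ≤ b) :
    Dn (cm x.P (Y.χ a) (Y.χ b) o)⁻¹ (Y.atom b o) id (Y.atom i o) := by
  have k : ∀ j ≤ b, ∀ ω ∈ x.P.S, (Y.χ j ω = Y.χ j o ∧ Y.χ b ω = Y.χ b o) ↔ Y.χ b ω = Y.χ b o :=
    fun j hj ω hω => ⟨And.right, fun z => ⟨h.nest' hj _ hω _ ho z, z⟩⟩
  have k1 : Y.atom b o = cE (Y.atom i o) fun ω => Y.χ b ω = Y.χ b o := by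
    unfold atom cv
    rw [cE_cE (E := fun ω => Y.χ i ω = Y.χ i o) (E' := fun ω => Y.χ b ω = Y.χ b o)
      ⟨o, ho, rfl, rfl⟩, cE_congr (k i e')]
  rw [k1]
  refine dn_cE _ (cm_pos _ _ ho) (le_of_mul_le_mul_left ?_
    (pb_pos x.P (E := fun ω => Y.χ a ω = Y.χ a o) ⟨o, ho, rfl⟩))
  refine (pb_cE _ _ _).trans_le ?_
  rw [pb_congr (k a (e.trans e')), ← pb_congr (k i e'), ← pb_cE]
  exact mul_le_mul_of_nonneg_right (pb_mono fun ω hω z => h.nest' e _ hω _ ho z) (pb_nonneg _ _)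

theorem Ok.opd (h : Y.Ok η t v s C C₀ X I) (ho : o ∈ x.P.S) (e : a ≤ i) (e' : i ≤ b)
    (hi : i ≤ Y.T) (hr : r ≤ I) : Opd η (th t v r) (Y.atom b o) (shOf x) Y.M (Y.lv i) (Y.S i)
      (t * X r + C - Real.log (cm x.P (Y.χ a) (Y.χ b) o)) := by
  have := Stp.opd_dn (h.opt i hi r hr o ho) (h.dn ho e e')
  rwa [Real.log_inv] at this

theorem psi_eq (η : ℝ) (ho : o ∈ x.P.S) (hω : ω ∈ (Y.atom i o).S) :
    Stp.psi η (Y.atom i o) (shOf x) Y.M (Y.lv i) (Y.S i) ω = Y.ψ η i ω - N * Y.M * lg := by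
  unfold Stp.psi ψ atom
  rw [QA.cm_cv _ _ _ ho hω]; ring

theorem Ok.los (h : Y.Ok η t v s C C₀ X I) (ho : o ∈ x.P.S) (e : a ≤ i ∧ i < b ∧ i ≤ Y.T)
    (e' : a ≤ i' ∧ i' < b ∧ i' ≤ Y.T) {W : Type} {Q : FP W} {π : W → x.Ω} {B : ℝ}
    (d : Dn B Q π (Y.atom b o)) :
    QA.val η Q ((shOf x).pull π) Y.M (Y.lv i') (fun z => Y.S i' (π z)) ≤
      QA.val η Q ((shOf x).pull π) Y.M (Y.lv i) (fun z => Y.S i (π z)) + Real.log B +
        (Y.ψ η i' o - Y.ψ η i o + 2 * Y.w - Real.log (cm x.P (Y.χ a) (Y.χ b) o)) := by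
  have d1 := h.dn ho e.1 e.2.1.le
  have d2 := h.dn ho e'.1 e'.2.1.le
  have a1 := Stp.le_val (η := η) (g := shOf x) (M := Y.M) (c := Y.lv i) (S := Y.S i) (d.trans d1)
  have a2 := Stp.val_le (η := η) (g := shOf x) (M := Y.M) (c := Y.lv i') (S := Y.S i') (d.trans d2)
  rw [Stp.log_mul_dn d1 d, Real.log_inv] at a1
  have a3 : Q.E (fun z => Stp.psi η (Y.atom i' o) (shOf x) Y.M (Y.lv i') (Y.S i') (π z)) ≤
      Q.E fun z => Stp.psi η (Y.atom i o) (shOf x) Y.M (Y.lv i) (Y.S i) (π z) +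
        (Y.ψ η i' o - Y.ψ η i o + 2 * Y.w) := Q.E_mono fun z hz => by
    have m := d.mem hz
    have b1 := h.mem ho m e.2.1
    have b2 := h.mem ho m e'.2.1
    rw [psi_eq η ho (show π z ∈ _ from d1.mem m), psi_eq η ho (show π z ∈ _ from d2.mem m)]
    linarith [(abs_le.1 (h.obs i e.2.2 _ b1.1 _ ho b1.2).2.2.1).1,
      (abs_le.1 (h.obs i' e'.2.2 _ b2.1 _ ho b2.2).2.2.1).2]
  rw [FP.E_add, FP.E_const] at a3
  exact a2.trans (a3.trans (by simp only [id] at a1; linarith))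

theorem Ok.nr (h : Y.Ok η t v s C C₀ X I) (hω : ω ∈ x.P.S) (e : i ≤ i') (hi : i' ≤ Y.T) :
    Nr (∑ j ∈ Ico i i', Y.dj j ω) (Y.S i ω).ν (Y.S i' ω).ν := by
  induction i', e using Nat.le_induction with
  | base => intro F; simp
  | succ k hk ih =>
    rw [sum_Ico_succ_top hk]
    exact nr_trans (ih (by omega)) (nr_ds (h.val k (by omega) ω hω).2.hb (h.val _ hi ω hω).2.hb)

theorem Ok.lip (h : Y.Ok η t v s C C₀ X I) (ho : o ∈ x.P.S) (hω : ω ∈ (Y.atom b o).S)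
    (e : c ≤ c') (e' : Y.ix c < b) : Nr (Y.pw (Y.tv η) o c' - Y.pw (Y.tv η) o c + 2 * Y.w)
      (Y.S (Y.ix c') ω).ν (Y.S (Y.ix c) ω).ν := by
  have k := Y.ix_anti e
  have b1 := h.mem ho hω e'
  have b2 := h.mem ho hω (k.trans_lt e')
  refine nr_mono (h.nr b1.1 k (Y.ix_le c)) (h.val _ (Y.ix_le _) ω b1.1).2.hb
    (h.val _ (Y.ix_le _) ω b1.1).2.hb ?_
  have a := Y.up_le (a := fun j => Y.dj j o)
    (fun j _ => (le_abs_self _).trans (Y.jp_tv η j o).2.1) e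
  rw [sum_Ico_eq_sub _ k]
  simp only [pw, up] at a ⊢
  linarith [(abs_le.1 (h.obs _ (Y.ix_le c) _ b1.1 _ ho b1.2).2.2.2).2,
    (abs_le.1 (h.obs _ (Y.ix_le c') _ b2.1 _ ho b2.2).2.2.2).1]

end Chn

end Pool.Agent.MP_5168f5_an.QA
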