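import Pool.Agent.MP_5168f5_an.QA.SelPd

/-! The chain of optimal labels: the tangent system at a level with linear profiles. -/

namespace Pool.Agent.MP_5168f5_an.QA

open H19 H17S H17F MX Filter Finset Pen

namespace Chn

/-- The level at the relative position `x`. -/
noncomputable def lx (u d : ℕ → ℕ) (x : ℚ) (n : ℕ) : ℕ := ((d n : ℤ) + ⌊(x : ℝ) * u n⌋).toNat

variable {u d : ℕ → ℕ}

theorem lx_mono {x x' : ℚ} (h : x ≤ x') (n : ℕ) : lx u d x n ≤ lx u d x' n :=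
  Int.toNat_le_toNat (add_le_add le_rfl (Int.floor_mono
    (mul_le_mul_of_nonneg_right (by exact_mod_cast h) (Nat.cast_nonneg _))))

theorem lx_near (hu : Big u) (m : ∀ R : ℝ, ∀ᶠ n in UF, R * u n ≤ d n) (x : ℚ) : ∀ᶠ n in UF,
    |(lx u d x n : ℝ) - d n - x * u n| ≤ 1 ∧ |(lx u d x n : ℝ) - d n| ≤ (|(x : ℝ)| + 1) * u n := by
  filter_upwards [m (|(x : ℝ)| + 1), hu.ev 1] with n a b
  have f1 := Int.floor_le ((x : ℝ) * u n)
  have f2 := Int.lt_floor_add_one ((x : ℝ) * u n)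
  have f3 := mul_le_mul_of_nonneg_right (neg_abs_le (x : ℝ)) (Nat.cast_nonneg (α := ℝ) (u n))
  have f4 := mul_le_mul_of_nonneg_right (le_abs_self (x : ℝ)) (Nat.cast_nonneg (α := ℝ) (u n))
  have e : 0 ≤ (d n : ℤ) + ⌊(x : ℝ) * u n⌋ := by
    have : (0 : ℝ) ≤ (d n : ℝ) + ⌊(x : ℝ) * u n⌋ := by linarith
    exact_mod_cast this
  have e1 : (lx u d x n : ℝ) = d n + ⌊(x : ℝ) * u n⌋ := by
    have := congrArg (Int.cast (R := ℝ)) (Int.toNat_of_nonneg e)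
    rwa [Int.cast_natCast, Int.cast_add, Int.cast_natCast] at this
  rw [e1, abs_le, abs_le]
  refine ⟨⟨?_, ?_⟩, ?_, ?_⟩ <;> linarith

theorem lin_lx {φ : ℕ → ℕ → ℝ} {σ ε : ℝ} (h : LinAt u d φ σ) (hu : Big u)
    (m : ∀ R : ℝ, ∀ᶠ n in UF, R * u n ≤ d n) (x : ℚ) (hε : 0 < ε) :
    ∀ᶠ n in UF, |φ n (lx u d x n) - (φ n (d n) + σ * x * u n)| ≤ ε * u n := by
  filter_upwards [lx_near hu m x, h _ _ (half_pos hε), hu.sm |σ| _ (half_pos hε)] with n a b c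
  have e := abs_le.1 (b _ a.2)
  have f : |σ * ((lx u d x n : ℝ) - d n - x * u n)| ≤ |σ| := by
    rw [abs_mul]; exact mul_le_of_le_one_right (abs_nonneg _) a.1
  rw [abs_le] at f ⊢
  constructor <;> linarith

variable {N D : ℕ} {y : ℕ → Cfg N} {w a b kf : ℕ → ℕ} {X : ℕ → ℕ → ℝ} {Y : ∀ n, Chn D (y n)}
  {η t v s C C₀ β js Γ : ℝ} {I r : ℕ} {sl : ℕ → ℝ} {o : ∀ n, (y n).Ω}

theorem fin (bx : ∀ n, (y n).Box) (hr : r ≤ I) (ht : 0 ≤ t) (hu : Big u) (uw : Sm u fun n => w n)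
    (uX : Sm u fun n => X n r)
    (hs : Sm u fun n => -Real.log (cm (y n).P ((Y n).χ (a n)) ((Y n).χ (b n)) (o n)))
    (ok : ∀ᶠ n in UF, o n ∈ (y n).P.S ∧ (Y n).w = w n ∧ 0 < (Y n).w ∧
      (Y n).Ok η t v s C C₀ (X n) I)
    (m : ∀ R : ℝ, ∀ᶠ n in UF, R * u n ≤ d n)
    (wn : ∀ R : ℝ, ∀ᶠ n in UF, ∀ c : ℕ, |(c : ℝ) - d n| ≤ R * u n →
      c ≤ (Y n).M ∧ a n ≤ (Y n).ix c ∧ (Y n).ix c < b n)
    (l1 : ∀ k ≤ dV N D, LinAt u d (fun n c => sg k ((Y n).S ((Y n).ix c) (o n)).ν) (sl k))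
    (l2 : LinAt u d (fun n c => Real.log ((Y n).S ((Y n).ix c) (o n)).J) js)
    (l3 : LinAt u d (fun n c => (Y n).ψ η ((Y n).ix c) (o n)) β)
    (l4 : LinAt u d (fun n => (Y n).pw ((Y n).tv η) (o n)) Γ)
    (hh : ∀ (i : ℕ) (R : ℝ) (c c' : ℕ → ℕ),
      (∀ᶠ n in UF, (d n : ℝ) ≤ c n + R * u n ∧ c n ≤ c' n ∧ (c' n : ℝ) ≤ d n + R * u n) →
      HT1 (kf i) (fun n => (Y n).atom (b n) (o n)) (fun n ω => 2 ^ c' n * (y n).z ω)
        (fun n => (shOf (y n)).O (c n)) u fun n => (1 - 1 / (i + 1 : ℝ)) * (c' n - c n) * lg)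
    (dr : th t v r * ∑ k ∈ range (dV N D + 1), |sl k| ≤ β / 8) :
    ∃ Z : ℕ → St N D, T1' Z η (th t v r) β js kf sl ∧ Lip Z Set.univ |Γ| := by
  have K : ∀ x : ℚ, ∀ᶠ n in UF, |(lx u d x n : ℝ) - d n - x * u n| ≤ 1 ∧ lx u d x n ≤ (Y n).M ∧
      a n ≤ (Y n).ix (lx u d x n) ∧ (Y n).ix (lx u d x n) < b n ∧
      ((Y n).lv ((Y n).ix (lx u d x n)) : ℝ) ≤ lx u d x n ∧
      (lx u d x n : ℝ) ≤ (Y n).lv ((Y n).ix (lx u d x n)) + w n := fun x => by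
    filter_upwards [lx_near hu m x, wn (|(x : ℝ)| + 1), ok] with n e f g
    obtain ⟨f1, f2, f3⟩ := f _ e.2
    exact ⟨e.1, f1, f2, f3, by exact_mod_cast (Y n).lv_ix_le f1,
      by exact_mod_cast g.2.1 ▸ (Y n).le_lv_ix g.2.2.1 f1⟩
  refine ⟨fun n => ⟨(y n).Ω, (Y n).atom (b n) (o n), shOf (y n), (Y n).M, u n,
    fun x => (Y n).lv ((Y n).ix (lx u d x n)), fun x => (Y n).S ((Y n).ix (lx u d x n)),
    fun k => sg k ((Y n).S ((Y n).ix (d n)) (o n)).ν, Real.log ((Y n).S ((Y n).ix (d n)) (o n)).J⟩,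
    ⟨⟨hu, Eventually.of_forall fun n ω hω => box (bx n) ω (cE_sub hω),
      fun x _ => (K x).mono fun n e => ((Y n).lv_ix_le e.2.1).trans e.2.1,
      fun x _ x' _ e => Eventually.of_forall fun n => (Y n).lv_anti ((Y n).ix_anti (lx_mono e n)),
      fun x _ x' _ => (Le.of_sub (uw.add (hu.sm 2)) ?_),
      fun x _ => ok.mono fun n e ω hω => e.2.2.2.val _ ((Y n).ix_le _) ω (cE_sub hω),
      fun x _ => (ok.and (K x)).mono fun n e ω hω ω' hω' z => ?_, fun x _ ε hε => ?_,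
      fun x _ ε hε => ?_⟩, fun i x _ x' _ c c' e => ?_, fun x _ x' _ ε hε => ?_,
      fun x _ ε hε => ?_, dr⟩, ?_⟩
  · filter_upwards [K x, K x'] with n e e'
    linarith [(abs_le.1 e.1).1, (abs_le.1 e'.1).2, e.2.2.2.2.2, e'.2.2.2.2.1]
  · have b1 := e.1.2.2.2.mem e.1.1 hω e.2.2.2.2.1.le
    have b2 := e.1.2.2.2.mem e.1.1 hω' e.2.2.2.2.1.le
    exact e.1.2.2.2.fn _ ((Y n).ix_le _) ω b1.1 ω' b2.1 (Prod.ext z (b1.2.trans b2.2.symm))
  · filter_upwards [ok, K x, (((uX.smul ht).add (hu.sm C)).add hs) ε hε] with n e f g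
    exact Stp.opd_mono (e.2.2.2.opd e.1 f.2.2.1 f.2.2.2.1.le ((Y n).ix_le _) hr) (by linarith) le_rfl
  · have p : 0 < ε / 2 / (dV N D + 1 : ℝ) := by positivity
    filter_upwards [ok, K x, uw _ p, (eventually_all_finite (Set.finite_Iic (dV N D))).2
      fun k hk => lin_lx (l1 k hk) hu m x p] with n e f g g' ω hω
    have b1 := e.2.2.2.mem e.1 hω f.2.2.2.1
    refine (sum_le_card_nsmul _ _ (2 * (ε / 2 / (dV N D + 1 : ℝ) * u n)) fun k hk => ?_).trans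
      (le_of_eq (by rw [card_range, nsmul_eq_mul]; push_cast; field_simp))
    have k1 := Nat.lt_succ_iff.1 (mem_range.1 hk)
    have z := (e.2.2.2.obs _ ((Y n).ix_le _) _ b1.1 _ e.1 b1.2).1 k k1
    rw [e.2.1] at z
    exact (abs_sub_le _ _ _).trans ((add_le_add z (g' k k1)).trans (by linarith))
  · refine (hh i (|(x : ℝ)| + |(x' : ℝ)| + 2) c c' ?_).mono (Le.of_le fun n => by simp)
    filter_upwards [e, K x, K x', uw 1 one_pos, hu.ev 1] with n f g g' k k'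
    have f1 : ((Y n).lv ((Y n).ix (lx u d x n)) : ℝ) ≤ c n := by exact_mod_cast f.1
    have f2 : (c' n : ℝ) ≤ (Y n).lv ((Y n).ix (lx u d x' n)) := by exact_mod_cast f.2.2
    have p := Nat.cast_nonneg (α := ℝ) (u n)
    refine ⟨?_, f.2.1, ?_⟩ <;> linarith [(abs_le.1 g.1).1, (abs_le.1 g'.1).2, g.2.2.2.2.2,
      g'.2.2.2.2.1, mul_le_mul_of_nonneg_right (neg_abs_le (x : ℝ)) p,
      mul_le_mul_of_nonneg_right (le_abs_self (x' : ℝ)) p, mul_nonneg (abs_nonneg (x : ℝ)) p,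
      mul_nonneg (abs_nonneg (x' : ℝ)) p]
  · have p : 0 < ε / 3 := by positivity
    filter_upwards [ok, K x, K x', ((uw.smul zero_le_two).add hs) _ p, lin_lx l3 hu m x p,
      lin_lx l3 hu m x' p] with n e f f' g k k' W Q π B h
    have z := e.2.2.2.los e.1 ⟨f.2.2.1, f.2.2.2.1, (Y n).ix_le _⟩
      ⟨f'.2.2.1, f'.2.2.2.1, (Y n).ix_le _⟩ h
    rw [e.2.1] at z
    simp only [St.vl]
    linarith [(abs_le.1 k).1, (abs_le.1 k').2]
  · filter_upwards [ok, K x, uw _ (half_pos hε), lin_lx l2 hu m x (half_pos hε)]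
      with n e f g g' ω hω
    have b1 := e.2.2.2.mem e.1 hω f.2.2.2.1
    have z := (e.2.2.2.obs _ ((Y n).ix_le _) _ b1.1 _ e.1 b1.2).2.1
    rw [e.2.1] at z
    exact (abs_sub_le _ _ _).trans ((add_le_add z g').trans (by linarith))
  · have key : ∀ x x' : ℚ, x ≤ x' → ∀ ε : ℝ, 0 < ε → ∀ᶠ n in UF,
        ∀ ω ∈ ((Y n).atom (b n) (o n)).S, Nr ((|Γ| * |(x' : ℝ) - x| + ε) * u n)
          ((Y n).S ((Y n).ix (lx u d x' n)) ω).ν ((Y n).S ((Y n).ix (lx u d x n)) ω).ν := by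
      intro x x' h ε hε
      have p : 0 < ε / 3 := by positivity
      filter_upwards [ok, K x, (uw.smul zero_le_two) _ p, lin_lx l4 hu m x p,
        lin_lx l4 hu m x' p] with n e f g k k' ω hω
      have v0 := fun i hi => (e.2.2.2.val i hi ω (cE_sub hω)).2.hb
      refine nr_mono (e.2.2.2.lip e.1 hω (lx_mono h n) f.2.2.2.1) (v0 _ ((Y n).ix_le _))
        (v0 _ ((Y n).ix_le _)) ?_
      have z := mul_le_mul_of_nonneg_right ((le_abs_self _).trans_eq (abs_mul Γ ((x' : ℝ) - x)))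
        (Nat.cast_nonneg (α := ℝ) (u n))
      rw [e.2.1]
      linarith [(abs_le.1 k).1, (abs_le.1 k').2]
    intro x _ x' _ ε hε
    rcases le_total x x' with h | h
    · rw [abs_sub_comm]
      exact (key x x' h ε hε).mono fun n e ω hω F => (e ω hω F).symm
    · exact key x' x h ε hε

end Chn

end Pool.Agent.MP_5168f5_an.QA
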