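import Pool.Agent.MP_5168f5_an.MX.PB
import Pool.Agent.MP_5168f5_an.MX.Flat

/-! Mass labels: a law on a tree becomes uniform after a label of small entropy is fixed. -/

namespace Pool.Agent.MP_5168f5_an.QA

open H19 H17S H17F MX

variable {Ω T T' α : Type} {P : FP Ω} {K : Ω → T} {Z : ℕ → Ω → α}

/-- The list of the first `i` mass labels, from the leaves up. -/
noncomputable def lab (P : FP Ω) (K : Ω → T) (Z : ℕ → Ω → α) : ℕ → Ω → List ℕ
  | 0 => fun _ => []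
  | i + 1 => fun ω => ⌊-Real.log (cm P K (fun v => (Z i v, lab P K Z i v)) ω)⌋₊ :: lab P K Z i ω

/-- The mass of the node of height `i`, counted with equal labels. -/
noncomputable def ms (P : FP Ω) (K : Ω → T) (Z : ℕ → Ω → α) (i : ℕ) (ω : Ω) : ℝ :=
  cm P K (fun v => (Z i v, lab P K Z i v)) ω

/-- The mass label of height `i`. -/
noncomputable def lam (P : FP Ω) (K : Ω → T) (Z : ℕ → Ω → α) (i : ℕ) (ω : Ω) : ℕ :=
  ⌊-Real.log (ms P K Z i ω)⌋₊

theorem lab_succ (i : ℕ) (ω : Ω) : lab P K Z (i + 1) ω = lam P K Z i ω :: lab P K Z i ω := rfl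

theorem lab_down {i j : ℕ} (h : i ≤ j) {v w : Ω} (e : lab P K Z j v = lab P K Z j w) :
    lab P K Z i v = lab P K Z i w := by
  induction j, h using Nat.le_induction with
  | base => exact e
  | succ j _ ih => exact ih (List.cons.inj e).2

theorem lam_eq {i j : ℕ} (h : i < j) {v w : Ω} (e : lab P K Z j v = lab P K Z j w) :
    lam P K Z i v = lam P K Z i w := (List.cons.inj (lab_down (i := i + 1) h e)).1

theorem z_up (hZ : ∀ i, Fn P (Z (i + 1)) (Z i)) {i j : ℕ} (h : i ≤ j) : Fn P (Z j) (Z i) := by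
  induction j, h using Nat.le_induction with
  | base => exact Fn.rfl _
  | succ j _ ih => exact (hZ j).trans ih

theorem lab_up (hZ : ∀ i, Fn P (Z (i + 1)) (Z i)) {i j : ℕ} (h : i ≤ j) {v w : Ω} (hv : v ∈ P.S)
    (hw : w ∈ P.S) (e1 : K v = K w) (e2 : Z i v = Z i w) (e : lab P K Z i v = lab P K Z i w) :
    lab P K Z j v = lab P K Z j w := by
  induction j, h using Nat.le_induction with
  | base => exact e
  | succ j hj ih =>
    have : ms P K Z j v = ms P K Z j w := cm_congr e1 (Prod.ext (z_up hZ hj v hv w hw e2) ih)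
    simp only [lab_succ, lam, this, ih]

theorem ms_pos (i : ℕ) {ω : Ω} (h : ω ∈ P.S) : 0 < ms P K Z i ω := cm_pos _ _ h

theorem lam_le (i : ℕ) (ω : Ω) (h : ω ∈ P.S) : (lam P K Z i ω : ℝ) ≤ -Real.log (ms P K Z i ω) :=
  Nat.floor_le (neg_nonneg.2 (Real.log_nonpos (cm_pos _ _ h).le (cm_le_one _ _ _ _)))

theorem lt_lam (i : ℕ) (ω : Ω) : -Real.log (ms P K Z i ω) < lam P K Z i ω + 1 :=
  Nat.lt_floor_add_one _

theorem ms_le (i : ℕ) {ω : Ω} (h : ω ∈ P.S) : ms P K Z i ω ≤ Real.exp (-lam P K Z i ω) := by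
  rw [← Real.log_le_iff_le_exp (ms_pos i h)]
  linarith [lam_le (K := K) (Z := Z) i ω h]

theorem ms_mono (hZ : ∀ i, Fn P (Z (i + 1)) (Z i)) (i : ℕ) {ω : Ω} (h : ω ∈ P.S) :
    ms P K Z i ω ≤ ms P K Z (i + 1) ω := cm_mono h fun v hv w hw e => by
  simp only [Prod.mk.injEq] at e ⊢
  exact ⟨hZ i v hv w hw e.1.1, lab_up hZ (Nat.le_succ i) hv hw e.2 e.1.1 e.1.2⟩

theorem ms_succ {B : ℝ} (hB : ∀ i, Det P (Z i) (Z (i + 1)) B) (i : ℕ) {ω : Ω} (h : ω ∈ P.S) :
    ms P K Z (i + 1) ω ≤ B * Real.exp (-lam P K Z i ω) := by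
  obtain ⟨S, h1, h2⟩ := hB i ω h
  refine (H39F.count (cv P K (K ω)) (fun v => (Z i v, lab P K Z i v)) _ (S ×ˢ {lab P K Z i ω})
    (m := Real.exp (-lam P K Z i ω)) (Real.exp_pos _).le fun v hv e => ?_).trans
    (mul_le_mul_of_nonneg_right (by simpa using h1) (Real.exp_pos _).le)
  obtain ⟨h3, h4⟩ := (mem_cv h v).1 hv
  simp only [Prod.mk.injEq] at e
  refine ⟨by simpa using ⟨h2 v h3 e.1, lab_down (Nat.le_succ i) e.2.symm⟩, ?_⟩
  rw [← lam_eq (Nat.lt_succ_self i) e.2, ← h4]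
  exact ms_le i h3

theorem ch_lam {m : ℕ} (hZ : ∀ i, Fn P (Z (i + 1)) (Z i))
    (hB : ∀ i, Det P (Z i) (Z (i + 1)) (Real.exp m)) (i : ℕ) :
    ch P (lam P K Z (i + 1)) (lab P K Z (i + 1)) ≤ Real.log (m + 1) := by
  refine ch_det fun a _ => ⟨Finset.Icc (lam P K Z i a - m) (lam P K Z i a), ?_, fun b hb e => ?_⟩
  · rw [Nat.card_Icc]
    exact_mod_cast (by omega : lam P K Z i a + 1 - (lam P K Z i a - m) ≤ m + 1)
  · rw [← lam_eq (Nat.lt_succ_self i) e, Finset.mem_Icc]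
    have a1 := Real.log_le_log (ms_pos (K := K) i hb) (ms_mono hZ i hb)
    have a2 := Real.log_le_log (ms_pos (K := K) (i + 1) hb) (ms_succ hB i hb)
    rw [← Real.exp_add, Real.log_exp] at a2
    refine ⟨?_, Nat.floor_le_floor (by linarith)⟩
    have a3 : (lam P K Z i b : ℝ) < lam P K Z (i + 1) b + m + 1 := by
      linarith [lt_lam (P := P) (K := K) (Z := Z) (i + 1) b]
    have a4 : lam P K Z i b < lam P K Z (i + 1) b + m + 1 := by exact_mod_cast a3
    omega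

theorem hh_lab {m : ℕ} (hZ : ∀ i, Fn P (Z (i + 1)) (Z i))
    (hB : ∀ i, Det P (Z i) (Z (i + 1)) (Real.exp m)) (J : ℕ) :
    hh P (lab P K Z (J + 1)) ≤ 2 * Real.log (ch P (Z 0) K + 2) + J * Real.log (m + 1) := by
  induction J with
  | zero =>
    have a1 : hh P (lab P K Z 1) ≤ hh P (lam P K Z 0) :=
      hh_mono fun a _ b _ e => by rw [lab_succ, lab_succ 0 b, e]; rfl
    have a2 : P.E (fun ω => (lam P K Z 0 ω : ℝ)) ≤ ch P (Z 0) K := by
      have : ch P (Z 0) K = ch P (fun v => (Z 0 v, lab P K Z 0 v)) K :=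
        ch_congr ((Fn.fst _ _).left _) (fun a _ b _ e => by
          simp only [Prod.mk.injEq] at e ⊢; exact ⟨e.1, rfl⟩) (Fn.rfl _) (Fn.rfl _)
      rw [this, ch_eq_cm]
      exact P.E_mono fun ω h => lam_le 0 ω h
    simpa using a1.trans (hh_nat _ a2)
  | succ J ih =>
    have a1 : hh P (lab P K Z (J + 1 + 1)) ≤
        hh P fun ω => (lam P K Z (J + 1) ω, lab P K Z (J + 1) ω) :=
      hh_mono fun a _ b _ e => by
        simp only [Prod.mk.injEq] at e
        rw [lab_succ, lab_succ (J + 1) b, e.1, e.2]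
    have a2 := ch_lam (K := K) hZ hB J
    unfold ch at a2
    push_cast
    linarith

theorem pb_lab (hZ : ∀ i, Fn P (Z (i + 1)) (Z i)) {i j : ℕ} (h : i ≤ j) {ω : Ω} (hω : ω ∈ P.S) :
    pb P (fun v => lab P K Z j v = lab P K Z j ω ∧ (Z i v, K v) = (Z i ω, K ω)) =
      pb P (fun v => K v = K ω) * ms P K Z i ω := by
  rw [ms, cm_eq]
  refine pb_congr fun v hv => ?_
  simp only [Prod.mk.injEq]
  exact ⟨fun e => ⟨e.2.2, e.2.1, lab_down h e.1⟩,
    fun e => ⟨lab_up hZ h hv hω e.1 e.2.1 e.2.2, e.2.1, e.1⟩⟩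

theorem cm_lab (hZ : ∀ i, Fn P (Z (i + 1)) (Z i)) {i k j : ℕ} (h : i ≤ k) (h' : k ≤ j) {a ω : Ω}
    (ha : a ∈ P.S) (hω : ω ∈ (cv P (lab P K Z j) (lab P K Z j a)).S) :
    ms P K Z k ω * cm (cv P (lab P K Z j) (lab P K Z j a)) (fun v => (Z k v, K v)) (Z i) ω =
      ms P K Z i ω := by
  obtain ⟨h1, h2⟩ := (mem_cv ha ω).1 hω
  have a1 := cm_eq (P := cv P (lab P K Z j) (lab P K Z j a)) (fun v => (Z k v, K v)) (Z i) ω
  have a2 := pb_cE P (fun v => lab P K Z j v = lab P K Z j a) fun v => (Z k v, K v) = (Z k ω, K ω)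
  have a3 := pb_cE P (fun v => lab P K Z j v = lab P K Z j a)
    fun v => (Z k v, K v) = (Z k ω, K ω) ∧ Z i v = Z i ω
  have a4 : pb P (fun v => lab P K Z j v = lab P K Z j a ∧
      (Z k v, K v) = (Z k ω, K ω) ∧ Z i v = Z i ω) = pb P (fun v => K v = K ω) * ms P K Z i ω := by
    rw [← pb_lab hZ (h.trans h') h1, ← h2]
    refine pb_congr fun v hv => and_congr_right fun _ => ?_
    simp only [Prod.mk.injEq]
    exact ⟨fun e => ⟨e.2, e.1.2⟩, fun e => ⟨⟨z_up hZ h v hv ω h1 e.1, e.2⟩, e.1⟩⟩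
  rw [← h2, pb_lab hZ h' h1, h2] at a2
  rw [a4] at a3
  refine mul_left_cancel₀ (pb_val_pos K h1).ne' ?_
  rw [← mul_assoc, ← a2, ← a3, mul_assoc]
  exact congrArg _ a1

theorem uni_blk (hZ : ∀ i, Fn P (Z (i + 1)) (Z i)) {i k j : ℕ} (h : i ≤ k) (h' : k < j) {a ω : Ω}
    (ha : a ∈ P.S) (hω : ω ∈ (cv P (lab P K Z j) (lab P K Z j a)).S) :
    cm (cv P (lab P K Z j) (lab P K Z j a)) (fun v => (Z k v, K v)) (Z i) ω ≤
      Real.exp (2 - ch (cv P (lab P K Z j) (lab P K Z j a)) (Z i) fun v => (Z k v, K v)) := by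
  have key : ∀ v ∈ (cv P (lab P K Z j) (lab P K Z j a)).S,
      |-Real.log (cm (cv P (lab P K Z j) (lab P K Z j a)) (fun v => (Z k v, K v)) (Z i) v) -
        (lam P K Z i a - lam P K Z k a)| ≤ 1 := fun v hv => by
    obtain ⟨h1, h2⟩ := (mem_cv ha v).1 hv
    have a1 := congrArg Real.log (cm_lab hZ h h'.le ha hv)
    rw [Real.log_mul (ms_pos k h1).ne' (cm_pos _ _ hv).ne'] at a1
    rw [← lam_eq (h.trans_lt h') h2, ← lam_eq h' h2, abs_le]
    have b1 := lam_le (K := K) (Z := Z) i v h1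
    have b2 := lam_le (K := K) (Z := Z) k v h1
    have b3 := lt_lam (P := P) (K := K) (Z := Z) i v
    have b4 := lt_lam (P := P) (K := K) (Z := Z) k v
    constructor <;> linarith
  rw [← Real.log_le_iff_le_exp (cm_pos _ _ hω), ch_eq_cm]
  have a1 := (cv P (lab P K Z j) (lab P K Z j a)).E_mono
    (G := fun _ => (lam P K Z i a - lam P K Z k a : ℝ) + 1)
    fun v hv => sub_le_iff_le_add'.1 (abs_le.1 (key v hv)).2
  rw [FP.E_const] at a1
  linarith [(abs_le.1 (key ω hω)).1]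

theorem cm_ctx_le {Θ : Ω → T} {Θ' : Ω → T'} {X : Ω → α} (h : Fn P Θ Θ')
    (h' : Fn P Θ' fun v => (X v, Θ v)) {ω : Ω} (hω : ω ∈ P.S) : cm P Θ X ω ≤ cm P Θ' X ω := by
  refine le_of_mul_le_mul_left ?_ (pb_val_pos Θ hω)
  rw [cm_eq]
  refine le_trans ?_ (mul_le_mul_of_nonneg_right
    (pb_mono (E := fun v => Θ' v = Θ' ω) fun v hv e => h v hv ω hω e) (cm_pos Θ' X hω).le)
  rw [cm_eq]
  exact pb_mono fun v hv e => ⟨h' v hv ω hω (Prod.ext e.2 e.1), e.2⟩

/-- In every window below the level `M` all masses are at most `exp (C - entropy)`. -/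
def Uni (C : ℝ) (P : FP Ω) (K : Ω → T) (z : Ω → ℝ) (M : ℕ) : Prop := ∀ a b, a ≤ b → b ≤ M →
  ∀ ω ∈ P.S, cm P (fun v => (fl1 a (z v), K v)) (fun v => fl1 b (z v)) ω ≤
    Real.exp (C - ch P (fun v => fl1 b (z v)) fun v => (fl1 a (z v), K v))

theorem fn_fl1 (P : FP Ω) (z : Ω → ℝ) {a b : ℕ} (h : a ≤ b) :
    Fn P (fun v => fl1 a (z v)) fun v => fl1 b (z v) := fun _ _ _ _ e => fl1_eq_of_le h e

theorem ch_gap (P : FP Ω) (K : Ω → T) (z : Ω → ℝ) {a b d : ℕ} (h : b ≤ a + d) :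
    ch P (fun v => fl1 b (z v)) (fun v => (fl1 a (z v), K v)) ≤ d * lg :=
  (ch_mono ((fn_fl1 P z h).left _)).trans (ch_rf d (Fn.fst _ _))

theorem uni_all {z : Ω → ℝ} {m J : ℕ} (hm : 0 < m) (h : ∀ a b, a ≤ b → b ≤ J → ∀ ω ∈ P.S,
    cm P (fun v => (fl1 (a * m) (z v), K v)) (fun v => fl1 (b * m) (z v)) ω ≤ Real.exp
      (2 - ch P (fun v => fl1 (b * m) (z v)) fun v => (fl1 (a * m) (z v), K v))) :
    Uni (2 + 2 * m) P K z (J * m) := by
  intro a b hab hb ω hω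
  have l1 := lg_lt_one
  have l2 : (0 : ℝ) ≤ m := Nat.cast_nonneg m
  have c1 := Nat.div_add_mod' a m
  have c2 := Nat.mod_lt a hm
  have c3 := Nat.div_add_mod' b m
  have c4 := Nat.mod_lt b hm
  have c5 : (a / m + 1) * m = a / m * m + m := by ring
  by_cases e : a / m + 1 ≤ b / m
  · have e' := Nat.mul_le_mul_right m e
    have a1 := h _ _ e (Nat.div_le_of_le_mul (by rwa [mul_comm])) ω hω
    refine (cm_mono (Y := fun v => fl1 (b / m * m) (z v)) hω
      ((fn_fl1 P z (by omega)).left _)).trans ((cm_ctx_le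
        (Θ' := fun v => (fl1 ((a / m + 1) * m) (z v), K v))
        (((fn_fl1 P z (by omega)).left _).pair (Fn.snd _ _))
        (((fn_fl1 P z e').left _).pair ((Fn.snd _ _).right _)) hω).trans (a1.trans ?_))
    have b1 := ch_tri' (P := P) (fun v => fl1 b (z v)) (fun v => (fl1 a (z v), K v))
      fun v => (fl1 (b / m * m) (z v), K v)
    have b2 := ch_tri' (P := P) (fun v => (fl1 (b / m * m) (z v), K v))
      (fun v => (fl1 a (z v), K v)) fun v => (fl1 ((a / m + 1) * m) (z v), K v)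
    have b3 := ch_gap P K z (a := b / m * m) (b := b) (d := m) (by omega)
    have b4 := ch_gap P K z (a := a) (b := (a / m + 1) * m) (d := m) (by omega)
    have b5 : ch P (fun v => (fl1 (b / m * m) (z v), K v))
        (fun v => (fl1 ((a / m + 1) * m) (z v), K v)) ≤ ch P (fun v => fl1 (b / m * m) (z v))
        fun v => (fl1 ((a / m + 1) * m) (z v), K v) :=
      ch_mono ((Fn.fst _ _).pair ((Fn.snd _ _).right _))
    have b6 : ch P (fun v => (fl1 ((a / m + 1) * m) (z v), K v)) (fun v => (fl1 a (z v), K v)) ≤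
        ch P (fun v => fl1 ((a / m + 1) * m) (z v)) fun v => (fl1 a (z v), K v) :=
      ch_mono ((Fn.fst _ _).pair ((Fn.snd _ _).right _))
    exact Real.exp_le_exp.2 (by nlinarith)
  · have e' := Nat.mul_le_mul_right m (not_le.1 e).le
    have b3 := ch_gap P K z (a := a) (b := b) (d := 2 * m) (by omega)
    push_cast at b3
    exact (cm_le_one _ _ _ _).trans (Real.one_le_exp (by nlinarith))

/-- A label of small entropy whose fibres are uniform. -/
theorem uni_label (P : FP Ω) (K : Ω → T) (z : Ω → ℝ) {m : ℕ} (J : ℕ) (hm : 0 < m)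
    (h0 : Fn P (fun v => fl1 0 (z v)) K) : ∃ Λ : Ω → List ℕ,
      hh P Λ ≤ 2 * Real.log (J * m + 2) + J * Real.log (m + 1) ∧
      ∀ a ∈ P.S, Uni (2 + 2 * m) (cv P Λ (Λ a)) K z (J * m) := by
  have hZ : ∀ i, Fn P (fun v => fl1 ((J - (i + 1)) * m) (z v)) fun v => fl1 ((J - i) * m) (z v) :=
    fun i => fn_fl1 P z (Nat.mul_le_mul_right m (by omega))
  have hB : ∀ i, Det P (fun v => fl1 ((J - i) * m) (z v))
      (fun v => fl1 ((J - (i + 1)) * m) (z v)) (Real.exp m) := fun i a ha => by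
    obtain ⟨S, h1, h2⟩ := det_rf (P := P) (x := z) (j := (J - (i + 1)) * m) m (Fn.rfl _) a ha
    classical
    refine ⟨S.image fun t => t / 2 ^ ((J - (i + 1)) * m + m - (J - i) * m), ?_, fun b hb e => ?_⟩
    · exact le_trans (by exact_mod_cast Finset.card_image_le) (h1.trans (two_pow_le_exp m))
    · refine Finset.mem_image.2 ⟨_, h2 b hb e, (fl1_nest ?_ _).symm⟩
      rw [← add_one_mul]
      exact Nat.mul_le_mul_right m (by omega)
  refine ⟨lab P K (fun i v => fl1 ((J - i) * m) (z v)) (J + 1), (hh_lab hZ hB J).trans ?_,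
    fun a ha => uni_all hm fun c d hcd hd ω hω => ?_⟩
  · have a1 := ch_rf (P := P) (x := z) (G := K) (J * m) h0
    have a2 := ch_nonneg (P := P) (fun v => fl1 (J * m) (z v)) K
    have a3 : (0 : ℝ) ≤ J * m := by positivity
    simp only [zero_add, Nat.sub_zero, Nat.cast_mul] at a1 ⊢
    gcongr
    nlinarith [lg_lt_one]
  · have a1 := uni_blk (K := K) hZ (i := J - d) (k := J - c) (j := J + 1) (by omega) (by omega) ha hω
    simpa only [Nat.sub_sub_self hd, Nat.sub_sub_self (hcd.trans hd)] using a1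

end Pool.Agent.MP_5168f5_an.QA
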