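import Pool.Agent.MP_5168f5_an.QA.SplD
import Pool.Agent.MP_5168f5_an.QA.FlApi
import Pool.Agent.MP_5168f5_an.QA.FlBas
import Pool.Agent.MP_5168f5_an.QA.Dich

/-! The Kakeya maximal estimate: positions and stabiliser, zooms and changes of basis. -/

namespace Pool.Agent.MP_5168f5_an.QA.Spl

open H19 H17S H17F R4 AN Filter Finset Matrix Fl
open GA (Mt vec ex cm Neg Big1)
open G39 (OB dl dl_inv)
open PA (Pr sP sM)
open LC (Au Mo ex_le)

section Au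

variable {M : ℕ → ℕ} {ψ : ℕ → ℝ → ℝ → Prop} {f : ℕ → ℝ}

theorem au_ob (h : Au M ψ) (e : ∀ᶠ n in UF, ∀ u w, ψ n u w → |f n| ≤ Real.exp u) : OB M f :=
  fun c hc => by filter_upwards [h c hc 0, e] with n a b using dl_inv M c n ▸ b _ _ a

theorem au_neg (h : Au M ψ) (e : ∀ᶠ n in UF, ∀ u w, ψ n u w → |f n| ≤ Real.exp (-w)) : Neg M f :=
  fun K => by filter_upwards [h 1 one_pos K, e] with n a b using b _ _ a

theorem au_big (h : Au M ψ) (e : ∀ᶠ n in UF, ∀ u w, ψ n u w → Real.exp (-u) ≤ |f n|) : Big1 M f :=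
  fun c hc => by filter_upwards [h c hc 0, e] with n a b using b _ _ a

end Au

variable {ι κ α J : Type} [Fintype ι] [DecidableEq ι] [Fintype κ] [DecidableEq κ] [Fintype α]

section One

variable {Ω Θ Ξ : Type} {σ : Sg ι κ α} {b : Bd ι κ α Ω Θ Ξ} {d d' : Fd ι κ α Ω} {μ : κ → ℝ}
  {o τ : ι} {s : ℝ} {j₀ : J} {z : Od ι α J Ω} {S : Ω → Prop} {ω : Ω} {u w : ℝ}

omit [DecidableEq κ] [Fintype α] in
theorem mo_jt {j : ℕ} : Mo fun u w => ∀ ω, S ω → Jt σ b o τ s z j u w ω :=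
  fun _ _ _ _ a e h ω x => ⟨(h ω x).long.imp fun _ k => ⟨k.1, (ex_le (neg_le_neg a)).trans k.2⟩,
    (h ω x).y0, fun r i => ((h ω x).bd r i).imp (·.trans (ex_le a)) (·.trans (ex_le a)),
    fun i r => ((h ω x).sh i r).trans (ex_le (neg_le_neg e))⟩

omit [DecidableEq κ] [Fintype α] in
theorem Ob.wk {u' w' : ℝ} (h : Ob σ d μ o j₀ z u w ω) (a : u ≤ u') (e : w' ≤ w) :
    Ob σ d μ o j₀ z u' w' ω :=
  have a := ex_le a
  have e := ex_le (neg_le_neg e)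
  ⟨h.inv, fun j p r => (h.bd j p r).imp (·.trans a) (·.imp (·.trans a) (·.trans a)), h.qo.trans e,
    fun i j p r x => (h.com i j p r x).trans e, h.orb.imp fun _ k =>
      ⟨fun i => (k.1 i).imp (·.trans a) fun x y => (x y).trans e, fun r => (k.2 r).trans e⟩⟩

omit [DecidableEq κ] [Fintype α] in
theorem mo_ob : Mo fun u w => ∀ ω, S ω → Ob σ d μ o j₀ z u w ω :=
  fun _ _ _ _ a e h ω x => (h ω x).wk a e

omit [DecidableEq κ] [Fintype α] in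
theorem Ob.congr (h : Ob σ d μ o j₀ z u w ω) (e : d'.B σ ω = d.B σ ω) (e' : d'.k ω = d.k ω) :
    Ob σ d' μ o j₀ z u w ω := ⟨h.inv, h.bd, h.qo, e ▸ h.com, e ▸ e' ▸ h.orb⟩

omit [DecidableEq κ] [Fintype α] in
theorem bas_B (U V : Ω → Matrix κ κ ℝ) (ω : Ω) : (d.bas U V).B σ ω = GA.mB (U ω) (d.B σ ω) :=
  funext fun a => (GA.GAFrA.vec_mB (d.U ω) (U ω a)).symm

omit [Fintype α] in
theorem Ob.bas {U V : Ω → Matrix κ κ ℝ} {γ : κ → ℕ} (h : Ob σ d μ o j₀ z u w ω) (hu : 1 ≤ u)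
    (h0 : ∀ a, 0 ≤ μ a) (i : U ω * V ω = 1) (e : ∀ a e, |U ω a e| ≤ Real.exp u ∧
      |V ω a e| ≤ Real.exp u ∧ (U ω a e ≠ 0 → Up μ γ a e) ∧ (V ω a e ≠ 0 → Up μ γ a e)) :
    Ob σ (d.bas U V) μ o j₀ z ((Fintype.card κ + 2) * u) (w - (Fintype.card κ + 2) * u) ω := by
  have c : 0 ≤ Fintype.card κ * u := by positivity
  have g := h.wk (u' := (Fintype.card κ + 2) * u) (w' := w - (Fintype.card κ + 2) * u)
    (by linarith) (by linarith)
  have x : ∀ t, ex ((d.bas U V).B σ ω) (t ᵥ* V ω) = ex (d.B σ ω) t := fun t =>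
    congrArg IsNilpotent.exp (FlBas.vc i _ _ t)
  obtain ⟨t, t1, t2⟩ := h.orb
  refine ⟨h.inv, g.bd, g.qo, fun a j p r y => ?_, t ᵥ* V ω, fun a => ⟨?_, fun y => ?_⟩,
    fun r => ?_⟩
  · have : cm ((d.bas U V).B σ ω a) (z.F ω j) p r =
        ∑ e, cm (d.B σ ω e) (z.F ω j) p r * U ω a e := by
      rw [bas_B]
      simp only [cm, GA.mB, GA.vec, sum_mul, mul_sum, smul_mul_assoc, mul_smul_comm, Matrix.sub_apply,
        Matrix.sum_apply, Matrix.smul_apply, smul_eq_mul, ← sum_sub_distrib]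
      exact sum_congr rfl fun _ _ => by ring
    rw [this]
    exact (FlBas.sm hu (fun e' k => h.com e' j p r (y.trans_le ((e a e').2.2.1 k).1))
      fun e' => (e a e').1).trans (ex_le (by linarith))
  · exact (FlBas.sm hu (fun e' _ => (t1 e').1) fun e' => (e e' a).2.1).trans (ex_le (by linarith))
  · exact (FlBas.sm hu (fun e' k => (t1 e').2 (le_antisymm (y ▸ ((e e' a).2.2.2 k).1) (h0 e')))
      fun e' => (e e' a).2.1).trans (ex_le (by linarith))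
  · rw [x, show (d.bas U V).k ω = d.k ω ᵥ* V ω from rfl, x]
    exact (t2 r).trans (ex_le (by linarith))

end One

variable {κ' : Type} {Ω Λ Θ Ξ : ℕ → Type} (σ : Sg ι κ α) (b : ∀ n, Bd ι κ α (Ω n) (Θ n) (Ξ n))
  (K : (∀ n, Pr κ' (Ω n) (Λ n)) → Prop) (μ : κ → ℝ) (o τ : ι) (s : ℝ) (j₀ : J)
  (z : ∀ n, Od ι α J (Ω n)) (X₀ : ∀ n, Pr κ' (Ω n) (Λ n)) (d₀ : ∀ n, Fd ι κ α (Ω n))

/-- A member with jets and orbit that comes from `X₀`. -/
structure Mb (γ : κ → ℕ) (X : ∀ n, Pr κ' (Ω n) (Λ n)) (d : ∀ n, Fd ι κ α (Ω n)) : Prop where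
  mem : Mem σ b K μ γ X d
  jet : Jet σ b o τ s z X
  orb : Orb σ μ o j₀ z X d
  fT : FnE (sP X) (fun n => (d₀ n).T) fun n => (d n).T
  rel : ∀ᶠ n in UF, ∀ ω ∈ (X n).P.S, ω ∈ (X₀ n).P.S ∧ (d n).G σ (b n) ω = (d₀ n).G σ (b n) ω

variable {σ b K μ o τ s j₀ z X₀ d₀} {γ : κ → ℕ} {X : ∀ n, Pr κ' (Ω n) (Λ n)}
  {d : ∀ n, Fd ι κ α (Ω n)} {Hs : Finset ℝ} {W : ℝ}

/-- After a restriction and a slow zoom, finitely many numbers are negligible or of unit size. -/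
theorem Mb.dich (hD : RDrop) (hN : RNet) (ok : σ.Ok Hs W) (hμ : ∀ a, μ a ∈ Hs) (hK : Cz K)
    (h : Mb σ b K μ o τ s j₀ z X₀ d₀ γ X d) {I : Type} [Finite I]
    (c : I → (κ → Mt ι) → (ι → ℝ) → ℝ) : ∃ γ' X' d', ∃ p : I → Prop,
    Mb σ b K μ o τ s j₀ z X₀ d₀ γ' X' d' ∧
    (∀ᶠ n in UF, ∀ ω ∈ (X' n).P.S, ω ∈ (X n).P.S ∧ (d' n).B σ ω = (d n).B σ ω) ∧
    Au (sM X') fun n u w => ∀ ω ∈ (X' n).P.S, ∀ j,
      (p j → |c j ((d' n).B σ ω) ((z n).q ω)| ≤ Real.exp (-w)) ∧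
      (¬p j → Real.exp (-u) ≤ |c j ((d' n).B σ ω) ((z n).q ω)|) := by
  have hM := hK.big X h.mem.k
  obtain ⟨G, p, g, ⟨c0, c1, g1⟩, g0, -, g2, g3⟩ := Di.dich (sP X) (sM X)
    fun j n ω => c j ((d n).B σ ω) ((z n).q ω)
  obtain ⟨G', g4, tr⟩ := PA.trim hM G fun e he => by
    filter_upwards [g1, G39.dl_lt hM c1 he] with n x y using y.le.trans x
  have a : Au (sM X) fun n u w => (∀ ω ∈ (X n).P.S, Ob σ (d n) μ o j₀ (z n) u w ω) ∧ ∀ j, ¬p j →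
      ∀ ω, G n ω → Real.exp (-u) ≤ |c j ((d n).B σ ω) ((z n).q ω)| := au_and h.orb.ob
    fun e he _ => eventually_all.2 fun j => eventually_all.2 fun x => g3 j x e he
  obtain ⟨u, w, a1, a2⟩ := au_ex hM a
  choose u' w' a3 a4 using fun j => au_ex hM (h.jet j)
  obtain ⟨k, d', hk, m, kp, sm⟩ := (h.mem.res hK tr).slow hD hN ok hμ hK
    (u := fun j : Option ℕ => j.elim u u') fun j e he => by
      cases j
      exacts [(a1.sm e he).mono fun _ x => by simpa using x,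
        ((a3 _).sm e he).mono fun _ x => by simpa using x]
  have le : ∀ e : ℝ, 0 < e → ∀ T : ℝ, ∀ᶠ n in UF,
      T * (((X n).res (G' n)).idx 0 (1 / (k n + 1))).M ≤ e * (X n).M := fun e he T => by
    filter_upwards [K31.small (ε := e / (|T| + 1)) (by positivity) hk] with n x
    refine (PA.fl_mul (fun _ => (X n).res (G' n)) 0 (by positivity) T 0).trans
      (mul_le_mul_of_nonneg_right ?_ (Nat.cast_nonneg _))
    push_cast
    rw [le_div_iff₀ (by positivity)] at x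
    nlinarith [show (0 : ℝ) < 1 / (k n + 1) by positivity]
  have uw : ∀ {u w}, Uw (sM X) u w → Sm (sM fun n => ((X n).res (G' n)).idx 0 (1 / (k n + 1))) u →
      Uw (sM fun n => ((X n).res (G' n)).idx 0 (1 / (k n + 1))) u w := fun x y =>
    ⟨x.one, fun e he => (y e he).mono fun _ t => by simpa using t,
      fun T => ((le 1 one_pos T).and (x.bg 1)).mono fun _ t => t.1.trans t.2⟩
  have kb : ∀ᶠ n in UF, ∀ ω ∈ (cE (X n).P (G' n)).S, (d' n).B σ ω = (d n).B σ ω ∧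
      (d' n).k ω = (d n).k ω := kp.mono fun n x ω y =>
    ⟨by rw [Fd.B, x.U]; rfl, (x.k (fun _ t => t) ω y).1⟩
  refine ⟨_, _, d', p, ⟨m, fun j => au_of (uw (a3 j) (sm (some j))) (fun _ => mo_jt)
    ((a4 j).mono fun n x ω y => x ω (cE_sub y)), ⟨?_, au_of (uw a1 (sm none)) (fun _ => mo_ob) ?_⟩,
    ?_, ?_⟩, kb.mono fun n x ω y => ⟨cE_sub y, (x ω y).1⟩, fun e he T => ?_⟩
  · filter_upwards [kp, h.orb.fq] with n x y using (fn_sub y fun _ => cE_sub).trans x.T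
  · filter_upwards [kb, a2] with n x y ω t using (y.1 ω (cE_sub t)).congr (x ω t).1 (x ω t).2
  · filter_upwards [kp, h.fT] with n x y using (fn_sub y fun _ => cE_sub).trans x.T
  · filter_upwards [kb, h.rel] with n x y ω t
    refine ⟨(y ω (cE_sub t)).1, Eq.trans ?_ (y ω (cE_sub t)).2⟩
    rw [Fd.G, (x ω t).1, (x ω t).2, Fd.G]
  · filter_upwards [kb, a2, tr.mem, le g g0 T, (uw a1 (sm none)).sm e he] with n x y t v v' ω r j
    rw [(x ω r).1]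
    exact ⟨fun q => (g2 j q n ω (g4 n ω (t ω r).2)).trans (ex_le (neg_le_neg v)),
      fun q => (ex_le (neg_le_neg v')).trans (y.2 j q ω (g4 n ω (t ω r).2))⟩

/-- A change of basis that is read from the basis and the reference point. -/
theorem Mb.chg (h0 : ∀ a, 0 ≤ μ a) (hM : Big (sM X)) (h : Mb σ b K μ o τ s j₀ z X₀ d₀ γ X d)
    (U V : (κ → Mt ι) → (ι → ℝ) → Matrix κ κ ℝ)
    (e : ∀ᶠ n in UF, ∀ ω ∈ (X n).P.S, U ((d n).B σ ω) ((z n).q ω) * V ((d n).B σ ω) ((z n).q ω) = 1 ∧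
      ∀ a e, (U ((d n).B σ ω) ((z n).q ω) a e ≠ 0 → Up μ γ a e) ∧
        (V ((d n).B σ ω) ((z n).q ω) a e ≠ 0 → Up μ γ a e))
    (f : ∀ ω : ∀ n, Ω n, (∀ᶠ n in UF, ω n ∈ (X n).P.S) → ∀ a e,
      OB (sM X) (fun n => U ((d n).B σ (ω n)) ((z n).q (ω n)) a e) ∧
      OB (sM X) fun n => V ((d n).B σ (ω n)) ((z n).q (ω n)) a e) :
    Mb σ b K μ o τ s j₀ z X₀ d₀ γ X fun n => (d n).bas (fun ω => U ((d n).B σ ω) ((z n).q ω))
      fun ω => V ((d n).B σ ω) ((z n).q ω) := by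
  have := Di.ne_om (sP X)
  have a : Au (sM X) fun n u _ => ∀ ω ∈ (X n).P.S,
      U ((d n).B σ ω) ((z n).q ω) * V ((d n).B σ ω) ((z n).q ω) = 1 ∧ ∀ a e,
      |U ((d n).B σ ω) ((z n).q ω) a e| ≤ Real.exp u ∧
      |V ((d n).B σ ω) ((z n).q ω) a e| ≤ Real.exp u ∧
      (U ((d n).B σ ω) ((z n).q ω) a e ≠ 0 → Up μ γ a e) ∧
      (V ((d n).B σ ω) ((z n).q ω) a e ≠ 0 → Up μ γ a e) := fun c hc _ => by
    filter_upwards [e, eventually_all.2 fun a => eventually_all.2 fun e =>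
      (Di.sq_ob' (f := fun n ω => U ((d n).B σ ω) ((z n).q ω) a e) (fun ω x => (f ω x a e).1)
        hc).and (Di.sq_ob' (f := fun n ω => V ((d n).B σ ω) ((z n).q ω) a e)
        (fun ω x => (f ω x a e).2) hc)] with n x y ω t
    exact ⟨(x ω t).1, fun a e => ⟨(y a e).1 ω t, (y a e).2 ω t, (x ω t).2 a e⟩⟩
  refine ⟨⟨h.mem.k, h.mem.bf, h.mem.fl.bas rBas hM h0 ?_ fun c hc => a c hc 0⟩, h.jet,
    ⟨h.orb.fq, au_lin hM (au_and h.orb.ob a) (fun _ => mo_ob) (C := Fintype.card κ + 2)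
      (by linarith [Nat.cast_nonneg (α := ℝ) (Fintype.card κ)]) (.of_forall
        fun n u w u1 _ x ω t => ?_)⟩, h.fT, ?_⟩
  · filter_upwards [h.mem.fl 1 one_pos 0, h.orb.fq] with n x y ω t v t' r
    simp only [Fd.B, (Prod.mk.inj (x.fU ω t v t' r)).1, show (z n).q ω = _ from y ω t v t' r]
  · exact ((x.1 ω t).bas u1 h0 (x.2 ω t).1 (x.2 ω t).2).wk le_rfl (by
      have : (0 : ℝ) ≤ (Fintype.card κ + 2) * sM X n := by positivity
      linarith)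
  · filter_upwards [h.rel, e] with n x y ω t
    refine ⟨(x ω t).1, Eq.trans (congrArg (_ * IsNilpotent.exp ·) ?_) (x ω t).2⟩
    exact (congrArg _ (neg_vecMul _ _).symm).trans (FlBas.vc (y ω t).1 _ _ _)

end Pool.Agent.MP_5168f5_an.QA.Spl
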