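import Pool.Agent.MP_5168f5_an.AN.GAAll2

/-! The Kakeya maximal estimate: the stabiliser of a point, exact algebra over a ring. -/

namespace Pool.Agent.MP_5168f5_an.QA.Spl

open AN AN.GA Matrix Finset

variable {κ ι α R : Type} [Fintype κ] [Fintype ι] [DecidableEq ι] [CommRing R]

/-- The matrix with coordinates `t`. -/
def vc (B : κ → Matrix ι ι R) (t : κ → R) : Matrix ι ι R := ∑ a, t a • B a

/-- Live vectors that vanish below the weight `σ`. -/
def Up (μ : κ → ℝ) (σ : ℝ) (w : κ → R) : Prop := ∀ b, ¬0 < μ b ∨ μ b < σ → w b = 0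

open Classical in
/-- The part of weight `σ`. -/
noncomputable def pr (μ : κ → ℝ) (σ : ℝ) (w : κ → R) : κ → R := fun b => if μ b = σ then w b else 0

open Classical in
/-- The homogeneous part of the constants. -/
noncomputable def hm (μ : κ → ℝ) (c : κ → κ → κ → R) : κ → κ → κ → R :=
  fun a b e => if 0 < μ a ∧ 0 < μ b ∧ μ e = μ a + μ b then c a b e else 0

/-- A filtered frame, a point `q` whose stabiliser is spanned by the indices outside `pos`, and
a point `p` on the orbit of `q`. -/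
structure Ex [Algebra ℚ R] (μ : κ → ℝ) (pos : κ → Prop) (B : κ → Matrix ι ι R)
    (c : κ → κ → κ → R) (q p : ι → R) : Prop where
  br : ∀ a b, cm (B a) (B b) = vc B (c a b)
  fil : ∀ a b e, 0 < μ a → 0 < μ b → μ e < μ a + μ b → c a b e = 0
  live : ∀ a, pos a → 0 < μ a
  stab : ∀ a, 0 < μ a → ¬pos a → B a *ᵥ q = 0
  ind : ∀ t : κ → R, (∀ a, ¬pos a → t a = 0) → vc B t *ᵥ q = 0 → t = 0
  orb : ∃ (G G' F F' : Matrix ι ι R) (N : ℕ) (x : κ → R), p = G *ᵥ (F *ᵥ q) ∧ F' * F = 1 ∧
    Up μ 0 x ∧ (∀ a, 0 < μ a → B a * F = F * B a) ∧ ∀ w, G' * vc B w * G = vc B (Ad N c x w)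

variable {μ : κ → ℝ} {pos : κ → Prop} {B : κ → Matrix ι ι R} {c : κ → κ → κ → R}
  {q p : ι → R} {σ σ' : ℝ} {w w' : κ → R}

omit [DecidableEq ι] in
theorem vc_mulVec (w : κ → R) (q : ι → R) : vc B w *ᵥ q = ∑ a, w a • B a *ᵥ q := by
  simp only [vc, sum_mulVec, smul_mulVec]

theorem vc_br (h : ∀ a b, cm (B a) (B b) = vc B (c a b)) (s t : κ → R) :
    vc B (br c s t) = cm (vc B s) (vc B t) := by
  have e : cm (vc B s) (vc B t) = ∑ a, ∑ b, (s a * t b) • cm (B a) (B b) := by
    simp only [cm, vc, sum_mul, mul_sum, smul_mul_smul_comm, smul_sub, sum_sub_distrib]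
    rw [sum_comm]
    exact congrArg _ (sum_congr rfl fun a _ => sum_congr rfl fun b _ => by rw [mul_comm])
  rw [e]
  simp only [h, vc, br, sum_smul, smul_sum, smul_smul]
  rw [sum_comm]
  refine sum_congr rfl fun a _ => ?_
  rw [sum_comm]
  exact sum_congr rfl fun b _ => sum_congr rfl fun e _ => by ring_nf

omit [Fintype κ] in
theorem Up.mono (h : Up μ σ w) (e : σ' ≤ σ) : Up μ σ' w := fun b k =>
  h b (k.imp_right fun u => u.trans_le e)

theorem Up.br (f : ∀ a b e, 0 < μ a → 0 < μ b → μ e < μ a + μ b → c a b e = 0) (h : Up μ σ w)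
    (h' : Up μ σ' w') : Up μ (σ + σ') (br c w w') := fun e k =>
  sum_eq_zero fun a _ => sum_eq_zero fun b _ => by
    by_cases u : ¬0 < μ a ∨ μ a < σ
    · rw [h a u, mul_zero, zero_mul]
    by_cases v : ¬0 < μ b ∨ μ b < σ'
    · rw [h' b v, mul_zero]
    push Not at u v
    rw [f a b e u.1 v.1 (k.elim (fun x => by linarith [not_lt.1 x, u.1, v.1]) fun x => by
      linarith [u.2, v.2]), zero_mul, zero_mul]

theorem pr_br (f : ∀ a b e, 0 < μ a → 0 < μ b → μ e < μ a + μ b → c a b e = 0) (h : Up μ σ w)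
    (h' : Up μ σ' w') : br (hm μ c) (pr μ σ w) (pr μ σ' w') = pr μ (σ + σ') (br c w w') := by
  funext e
  have : pr μ (σ + σ') (br c w w') e =
      ∑ a, ∑ b, if μ e = σ + σ' then c a b e * w a * w' b else 0 := by
    unfold pr GA.br; split_ifs <;> simp
  rw [this]
  refine sum_congr rfl fun a _ => sum_congr rfl fun b _ => ?_
  by_cases u : ¬0 < μ a ∨ μ a < σ
  · simp [pr, h a u]
  by_cases v : ¬0 < μ b ∨ μ b < σ'
  · simp [pr, h' b v]
  push Not at u v
  unfold hm pr
  by_cases x : μ a = σ ∧ μ b = σ'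
  · simp [x.1, x.2, x.1 ▸ u.1, x.2 ▸ v.1]
  have y : σ + σ' < μ a + μ b := by
    rcases not_and_or.1 x with y | y
    exacts [by linarith [u.2.lt_of_ne' y, v.2], by linarith [v.2.lt_of_ne' y, u.2]]
  have z : (if μ a = σ then w a else 0) * (if μ b = σ' then w' b else 0) = 0 := by
    rcases not_and_or.1 x with y | y <;> simp [y]
  rw [mul_assoc, z, mul_zero]
  split_ifs with k
  · rw [f a b e u.1 v.1 (k ▸ y), zero_mul, zero_mul]
  · rfl

variable [Algebra ℚ R]

namespace Ex

theorem kill (h : Ex μ pos B c q p) (hw : Up μ σ w) (e : vc B w *ᵥ q = 0) (b : κ) (hb : pos b) :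
    w b = 0 := by
  classical
  have := h.ind (fun a => if pos a then w a else 0) (fun a k => if_neg k) (by
    rw [← e, vc_mulVec, vc_mulVec]
    refine sum_congr rfl fun a _ => ?_
    split_ifs with k
    · rfl
    by_cases u : 0 < μ a
    · rw [h.stab a u k, smul_zero, smul_zero]
    · rw [hw a (.inl u)])
  simpa [hb] using congrFun this b

theorem sub (h : Ex μ pos B c q p) {a b e : κ} (ha : 0 < μ a) (hb : 0 < μ b) (ka : ¬pos a)
    (kb : ¬pos b) (ke : pos e) : c a b e = 0 := by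
  refine h.kill (σ := 0) (fun e k => h.fil a b e ha hb ?_) ?_ e ke
  · rcases k with k | k <;> linarith [not_lt.1 (show ¬0 < μ e from by
      first | exact k | exact k.not_gt)]
  · rw [← h.br, cm, sub_mulVec, ← mulVec_mulVec, ← mulVec_mulVec, h.stab a ha ka,
      h.stab b hb kb, mulVec_zero, mulVec_zero, sub_zero]

/-- The symbol of an element that kills `p` has no component along the positions. -/
theorem tr (h : Ex μ pos B c q p) (hw : Up μ σ w) (e : vc B w *ᵥ p = 0) (b : κ) (hb : pos b)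
    (k : μ b ≤ σ) : w b = 0 := by
  obtain ⟨G, G', F, F', N, x, rfl, f, hx, cf, ad⟩ := h.orb
  obtain ⟨γ, γ0, hγ⟩ : ∃ γ : ℝ, 0 < γ ∧ ∀ a, 0 < μ a → γ ≤ μ a := by
    obtain ⟨a, u, v⟩ := exists_min_image (univ.filter fun a => 0 < μ a) μ
      ⟨b, by simpa using h.live b hb⟩
    exact ⟨μ a, by simpa using u, fun a' k => v a' (by simpa using k)⟩
  let V : ℝ → Submodule ℚ (κ → R) := fun s =>
    { carrier := {w | Up μ s w}
      add_mem' := fun u v b k => by rw [Pi.add_apply, u b k, v b k, add_zero]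
      zero_mem' := fun _ _ => rfl
      smul_mem' := fun _ _ u b k => by rw [Pi.smul_apply, u b k, smul_zero] }
  have d : Up μ (γ + σ) (Ad N c x w - w) := ((sLin κ R N c).2.2.2.2.2 V γ σ x w
    (fun _ _ i _ u => Up.mono u i) (fun _ _ _ u _ v => Up.br h.fil u v) γ0.le
    (fun a k => hx a (.inl fun u => k.elim (· u) fun v => (hγ a u).not_gt v)) hw).1
  have d' : Up μ σ (Ad N c x w) := fun a k => by
    have := d.mono (σ' := σ) (by linarith) a k
    rwa [Pi.sub_apply, hw a k, sub_zero] at this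
  have cm' : vc B (Ad N c x w) * F = F * vc B (Ad N c x w) := by
    simp only [vc, sum_mul, mul_sum, smul_mul_assoc, mul_smul_comm]
    refine sum_congr rfl fun a _ => ?_
    by_cases u : 0 < μ a
    · rw [cf a u]
    · rw [d' a (.inl u), zero_smul, zero_smul]
  have z : vc B (Ad N c x w) *ᵥ q = 0 := by
    have : F' *ᵥ (G' *ᵥ (vc B w *ᵥ (G *ᵥ (F *ᵥ q)))) = 0 := by rw [e, mulVec_zero, mulVec_zero]
    rwa [mulVec_mulVec _ (vc B w), mulVec_mulVec _ G', ← mul_assoc, ad, mulVec_mulVec _ _ F, cm',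
      mulVec_mulVec, ← mul_assoc, f, one_mul] at this
  have := d b (.inr (by linarith))
  rwa [Pi.sub_apply, h.kill d' z b hb, zero_sub, neg_eq_zero] at this

end Ex

/-- The entry `(τ, o)` is a character and equals the coordinate `ta` on the live indices. -/
structure Ch (μ : κ → ℝ) (B : κ → Matrix ι ι R) (o τ : ι) (ta : κ) : Prop where
  row : ∀ a r, r ≠ o → B a τ r = 0
  oo : ∀ a, B a o o = 0
  one : B ta τ o = 1
  zero : ∀ e, 0 < μ e → e ≠ ta → B e τ o = 0

variable {o τ : ι} {ta : κ}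

omit [Fintype ι] [DecidableEq ι] [Algebra ℚ R] in
theorem Ch.vc (h : Ch μ B o τ ta) (hw : Up μ σ w) : vc B w τ o = w ta := by
  simp only [Spl.vc, Matrix.sum_apply, Matrix.smul_apply, smul_eq_mul]
  rw [sum_eq_single ta (fun e _ k => ?_) (by simp), h.one, mul_one]
  by_cases u : 0 < μ e
  · rw [h.zero e u k, mul_zero]
  · rw [hw e (.inl u), zero_mul]

omit [DecidableEq ι] [Algebra ℚ R] in
theorem Ch.act (h : Ch μ B o τ ta) (hw : Up μ σ w) (p : ι → R) :
    (Spl.vc B w *ᵥ p) τ = w ta * p o := by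
  rw [← h.vc hw, mulVec, dotProduct, sum_eq_single o (fun r _ k => ?_) (by simp)]
  simp [Spl.vc, Matrix.sum_apply, h.row _ r k]

theorem Ex.chi (h : Ex μ pos B c q p) (k : Ch μ B o τ ta) {a b : κ} (ha : 0 < μ a)
    (hb : 0 < μ b) : c a b ta = 0 := by
  have m : ∀ a b, (B a * B b) τ o = 0 := fun a b => by
    rw [mul_apply, sum_eq_single o (fun r _ u => by rw [k.row a r u, zero_mul]) (by simp), k.oo,
      mul_zero]
  rw [← k.vc (σ := 0) (w := c a b) fun e u => h.fil a b e ha hb (by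
    rcases u with u | u <;> linarith [not_lt.1 (show ¬0 < μ e from by
      first | exact u | exact u.not_gt)]), ← h.br, cm, Matrix.sub_apply, m, m, sub_zero]

/-- The directions act on the jets `y` of the curve through `p` by shifts. -/
structure Cv (μ : κ → ℝ) (η : α → ℝ) (B : κ → Matrix ι ι R) (A : α → κ → R) (p : ι → R) (o : ι) :
    Prop where
  up : ∀ i, Up μ (η i) (A i)
  po : p o = 1
  jet : ∃ (y : ℕ → ι → R) (χ : α → R) (s : ℕ → R), y 0 = p ∧
    ∀ i j, vc B (A i) *ᵥ y j = (χ i * s j) • y (j + 1)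

variable {η : α → ℝ} {A : α → κ → R}

theorem Ex.cur1 (h : Ex μ pos B c q p) (k : Ch μ B o τ ta) (v : Cv μ η B A p o) (i i' : α)
    (b : κ) (hb : pos b) : pr μ (η i) (A i) b * pr μ (η i') (A i') ta -
      pr μ (η i') (A i') b * pr μ (η i) (A i) ta = 0 := by
  obtain ⟨y, χ, s, y0, hy⟩ := v.jet
  have t : ∀ i, A i ta = χ i * s 0 * y 1 τ := fun i => by
    have := congrFun (hy i 0) τ
    rwa [y0, k.act (v.up i), v.po, mul_one] at this
  have z : ∀ i i', vc B (A i' ta • A i - A i ta • A i') *ᵥ p = 0 := fun i i' => by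
    have e : vc B (A i' ta • A i - A i ta • A i') = A i' ta • vc B (A i) - A i ta • vc B (A i') := by
      simp only [vc, Pi.sub_apply, Pi.smul_apply, smul_eq_mul, sub_smul, sum_sub_distrib, smul_sum,
        smul_smul]
    rw [e, sub_mulVec, smul_mulVec, smul_mulVec, ← y0, hy, hy, t, t, smul_smul, smul_smul,
      ← sub_smul]
    convert zero_smul R _ using 2
    ring
  have key : ∀ i i', μ b = η i → μ ta = η i' → A i b * A i' ta - A i' b * A i ta = 0 ∧
      (μ b ≠ η i' → A i' b * A i ta = 0) := fun i i' e e' => by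
    rcases le_or_gt (η i) (η i') with u | u
    · have := h.tr (σ := η i) (fun a x => by
        rw [Pi.sub_apply, Pi.smul_apply, Pi.smul_apply, v.up i a x, (v.up i').mono u a x,
          smul_zero, smul_zero, sub_zero]) (z i i') b hb e.le
      refine ⟨by simpa [mul_comm] using this, fun x => ?_⟩
      rw [v.up i' b (.inr (by rw [e]; exact u.lt_of_ne (e ▸ x))), zero_mul]
    · have a0 : A i ta = 0 := v.up i ta (.inr (e' ▸ u))
      have := h.tr (σ := η i) (fun a x => by
        rw [Pi.sub_apply, Pi.smul_apply, Pi.smul_apply, v.up i a x, a0, smul_zero, zero_smul,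
          sub_zero]) (z i i') b hb e.le
      exact ⟨by simpa [mul_comm] using this, fun _ => by rw [a0, mul_zero]⟩
  have one : ∀ i i', ¬(μ b = η i' ∧ μ ta = η i) →
      pr μ (η i) (A i) b * pr μ (η i') (A i') ta = 0 := fun i i' x => by
    unfold pr
    split_ifs with e e' <;> try simp
    have := key i i' e e'
    by_cases u : μ b = η i'
    · exact (x ⟨u, by rw [e', ← u, e]⟩).elim
    · simpa [this.2 u] using this.1
  by_cases x : μ b = η i' ∧ μ ta = η i
  · by_cases x' : μ b = η i ∧ μ ta = η i'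
    · simp only [pr, if_pos x.1, if_pos x.2, if_pos x'.1, if_pos x'.2]
      exact (key i i' x'.1 x'.2).1
    · rw [one i' i x', sub_zero]
      unfold pr
      rcases not_and_or.1 x' with u | u <;> simp [u]
  · rw [one i i' x, zero_sub, neg_eq_zero]
    unfold pr
    rcases not_and_or.1 x with u | u <;> simp [u]

theorem Ex.cur2 (h : Ex μ pos B c q p) (v : Cv μ η B A p o) (w : Wd α) (hw : 2 ≤ w.len) (b : κ)
    (hb : pos b) : w.ev (GA.br (hm μ c)) (fun i => pr μ (η i) (A i)) b = 0 := by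
  obtain ⟨y, χ, s, y0, hy⟩ := v.jet
  have key : ∀ w : Wd α, ∃ (σ : ℝ) (x : R), Up μ σ (w.ev (GA.br c) A) ∧
      w.ev (GA.br (hm μ c)) (fun i => pr μ (η i) (A i)) = pr μ σ (w.ev (GA.br c) A) ∧
      (2 ≤ w.len → x = 0) ∧ ∀ j, vc B (w.ev (GA.br c) A) *ᵥ y j = (x * s j) • y (j + 1) := by
    intro w
    induction w with
    | of i => exact ⟨η i, χ i, v.up i, rfl, fun k => by simp [Wd.len] at k, hy i⟩
    | br u u' ih ih' =>
      obtain ⟨σ, x, a1, a2, -, a3⟩ := ih
      obtain ⟨σ', x', b1, b2, -, b3⟩ := ih'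
      refine ⟨σ + σ', 0, a1.br h.fil b1, by rw [Wd.ev, a2, b2, pr_br h.fil a1 b1]; rfl,
        fun _ => rfl, fun j => ?_⟩
      rw [Wd.ev, vc_br h.br, cm, sub_mulVec, ← mulVec_mulVec, ← mulVec_mulVec, a3, b3,
        mulVec_smul, mulVec_smul, a3, b3, smul_smul, smul_smul, ← sub_smul, zero_mul, zero_smul,
        show x' * s j * (x * s (j + 1)) - x * s j * (x' * s (j + 1)) = 0 by ring, zero_smul]
  obtain ⟨σ, x, a1, a2, a3, a4⟩ := key w
  rw [a2, pr]
  split_ifs with e
  · exact h.tr a1 (by rw [← y0, a4, a3 hw, zero_mul, zero_smul]) b hb e.le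
  · rfl

end Pool.Agent.MP_5168f5_an.QA.Spl
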