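import Pool.Agent.MP_5168f5_an.QA.O1Api
import Pool.Agent.MP_5168f5_an.QA.GapLow
import Pool.Agent.MP_5168f5_an.AN.GNZ0

/-! The grid point is spread out. -/

namespace Pool.Agent.MP_5168f5_an.QA

open H19 H17S H17F R4 AN

theorem grid_up {k J t : ℕ} (h : t ≤ J) (c : Z k) :
    pb (grid k J) (fun b => fl t (gp b) = c) ≤ 1 / (2 ^ t) ^ k := by
  classical
  have p : 0 < 2 ^ (J - t) := by positivity
  have := Finset.card_le_card_of_injOn (t := Finset.univ)
    (s := Finset.univ.filter fun b : Fin k → Fin (2 ^ J) => fl t (gp b) = c)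
    (fun b i => (⟨(b i : ℕ) % 2 ^ (J - t), Nat.mod_lt _ p⟩ : Fin (2 ^ (J - t))))
    (fun _ _ => Finset.mem_coe.2 (Finset.mem_univ _)) fun a ha b hb e => funext fun i => by
      have h1 := congrFun ((Finset.mem_filter.1 ha).2.trans (Finset.mem_filter.1 hb).2.symm) i
      rw [fl_apply, fl_apply, fl1_nest h, fl1_nest h, S20.fl_gp, S20.fl_gp] at h1
      norm_cast at h1
      refine Fin.ext ?_
      rw [← Nat.div_add_mod (a i) (2 ^ (J - t)), ← Nat.div_add_mod (b i) (2 ^ (J - t)), h1,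
        show (a i : ℕ) % _ = (b i : ℕ) % _ from congrArg Fin.val (congrFun e i)]
  rw [Nz.pb_grid, div_le_div_iff₀ (by positivity) (by positivity), one_mul]
  simp only [Finset.card_univ, Fintype.card_pi, Fintype.card_fin, Finset.prod_const] at this
  calc _ ≤ ((2 ^ (J - t)) ^ k : ℕ) * ((2 : ℝ) ^ t) ^ k :=
        mul_le_mul_of_nonneg_right (Nat.cast_le.2 (by convert this)) (by positivity)
    _ = _ := by push_cast; rw [← mul_pow, ← pow_add, Nat.sub_add_cancel h]

variable {N D J : ℕ} {Ω β : Type} {P : FP Ω}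

/-- The grid point is uniform given the first coordinate. -/
theorem spr_gp (Z : Ω → β) {R : ℕ} {m : Ω → ℕ} (h : ∀ ω ∈ P.S, R ≤ m ω ∧ R * m ω ≤ J) :
    Spr (NQ P N J) (fun v => gp v.2) (fun v => Z v.1) R fun v => m v.1 := fun v hv => by
  have k := ((S20.mem_prod v).1 hv).1
  refine ⟨gp_bd v.2, (h _ k).1, fun j hj cc => ?_⟩
  rw [S20.cv_prod k, (S20.law_snd _ _).pb_eq fun b => fl j (gp b) = cc]
  exact (grid_up (hj.trans (h _ k).2) cc).trans
    (div_le_div_of_nonneg_right (Real.one_le_exp (by positivity)) (by positivity))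

theorem vq_gp (g : Sh N Ω) (M c J : ℕ) :
    vq (g.pull Prod.fst) M c (fun v : NW Ω N J => gp v.2) = vp g M c J := rfl

theorem dn_fst (P : FP Ω) (N J : ℕ) : K31.Dn 1 (NQ P N J) Prod.fst P := K31.dn_law (fst_law P N J)

end Pool.Agent.MP_5168f5_an.QA
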