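import Pool.Agent.MP_5168f5_an.QA.Spr
import Pool.Agent.MP_5168f5_an.QA.FillB
import Pool.Agent.MP_5168f5_an.QA.OfTi
import Pool.Agent.MP_5168f5_an.QA.GFTight
import Pool.Agent.MP_5168f5_an.AN.PRem

/-! The virtual point of a tube: inequalities of Remez and the frame of an optimal label. -/

namespace Pool.Agent.MP_5168f5_an.QA.TC

open H19 H17S H17F R4 AN Filter MvPolynomial Finset
open C1 (PD Hb deg_PD)
open En (tb)
open Nc (Pl ev jac kc eval_aeval Bas deg_jac)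
open G39 (dl dl_inv dl_pos big_dl dl_add)
open Vo (Wp one_le_ex)
open Pk (cn)
open FL (toV toV_val deg_lin)

variable {N D M c : ℕ} {l : Ln N} {h : ℤ}

/-- The height on the unit cube. -/
noncomputable def hq (N c : ℕ) (h : ℤ) : Pl (N + 1) :=
  C (h / 2 ^ c : ℝ) + C (1 / 2 ^ c : ℝ) * X 0

/-- The tube as the image of the unit cube. -/
noncomputable def tq (M c : ℕ) (l : Ln N) (h : ℤ) : Fin (N + 1) → Pl (N + 1) :=
  Fin.cons (hq N c h) fun i => C (l.1 i) + C (l.2 i) * hq N c h + C (1 / 2 ^ M : ℝ) * X i.succ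

theorem deg_tq (i : Fin (N + 1)) : (tq M c l h i).totalDegree ≤ 1 := by
  have a : ∀ r : ℝ, (C r : Pl (N + 1)).totalDegree ≤ 1 := fun r => by rw [totalDegree_C]; omega
  have b : (hq N c h).totalDegree ≤ 1 :=
    (totalDegree_add _ _).trans (max_le (a _) (deg_lin _ (totalDegree_X _).le))
  exact Fin.cases b (fun j => (totalDegree_add _ _).trans (max_le ((totalDegree_add _ _).trans
    (max_le (a _) (deg_lin _ b))) (deg_lin _ (totalDegree_X _).le))) i

theorem ev_tq (q : V (N + 1)) :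
    ev (tq M c l h) q = tb M l.1 l.2 ((h + q 0) / 2 ^ c) fun i => q i.succ :=
  funext fun i => by
    refine Fin.cases ?_ (fun j => ?_) i <;> simp [ev, tq, hq, tb] <;> ring

theorem tq_onto {y : V (N + 1)} (hy : y ∈ seg M c l h 5) :
    ∃ q : V (N + 1), (∀ i, |q i| ≤ 5) ∧ ev (tq M c l h) q = y := by
  obtain ⟨t, ξ, a, b, e, rfl⟩ := hy
  refine ⟨Fin.cons (2 ^ c * t - h) ξ, fun i => Fin.cases (by
    rw [Fin.cons_zero, abs_le]
    constructor <;> linarith) (fun j => (norm_le_pi_norm ξ j).trans e) i, ?_⟩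
  rw [ev_tq]
  congr 1
  rw [Fin.cons_zero]; field_simp; ring

/-- The value at the virtual point is rarely small. -/
theorem tube_pb (N E : ℕ) : ∃ C : ℝ, 1 ≤ C ∧ ∀ {Ω : Type} (P : FP Ω) (g : Sh N Ω) (M c J : ℕ)
    (F : Ω → Pl (N + 1)) (μ : ℝ), (∀ ω ∈ P.S, (F ω).totalDegree ≤ E) → 0 < μ →
    C ≤ μ ^ ((N + 1) * E) * 2 ^ J → pb (NQ P N J) (fun v => ¬∀ y ∈ seg M c (g.l v.1) (g.zc c v.1) 5,
      μ ^ ((N + 1) * E) * |eval y (F v.1)| ≤ C * |eval (vp g M c J v) (F v.1)|) ≤ C * μ := by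
  obtain ⟨C, C1, hC⟩ := S20.grid_poly (N + 1) E
  have p5 : (1 : ℝ) ≤ 5 ^ E := one_le_pow₀ (by norm_num)
  have c1 : C ≤ C * 5 ^ E := le_mul_of_one_le_right (by linarith) p5
  refine ⟨C * 5 ^ E, C1.trans c1, fun P g M c J F μ hF μ0 hJ => ?_⟩
  rw [S20.pb_prod, ← P.E_const (C * 5 ^ E * μ)]
  refine P.E_mono fun ω hω => ?_
  have d := (kc.deg (tq M c (g.l ω) (g.zc c ω)) (F ω) E 1 (hF ω hω) deg_tq).trans_eq (mul_one E)
  refine le_trans (pb_mono fun a _ k => ?_) (((hC J _ d).2.1 μ μ0 (c1.trans hJ)).trans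
    (mul_le_mul_of_nonneg_right c1 μ0.le))
  by_contra z
  refine k fun y hy => ?_
  obtain ⟨q, q1, rfl⟩ := tq_onto hy
  have k1 := kc.val _ _ 5 q d (by norm_num) q1
  rw [not_lt, eval_aeval, ev_tq] at z
  rw [eval_aeval] at k1
  refine (mul_le_mul_of_nonneg_left k1 (by positivity)).trans ?_
  rw [← mul_assoc, mul_right_comm C]
  exact mul_le_mul_of_nonneg_right z (by positivity)

/-- The extension of a norm to all polynomials has a basis in low degree. -/
theorem bas_toV {ν : VD N D → ℝ} (h : Hb ν) {E : ℕ} (hE : E ≤ D) :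
    Bas (fun F => ν (toV D F)) E (dV N E) := by
  have le : restrictTotalDegree (Fin (N + 1)) ℝ E ≤ restrictTotalDegree (Fin (N + 1)) ℝ D :=
    fun F hF => (mem_restrictTotalDegree _ _ _).2 (((mem_restrictTotalDegree _ _ _).1 hF).trans hE)
  have hb : Hb fun F : VD N E => ν (Submodule.inclusion le F) := by
    obtain ⟨ι, _, A, hA, e⟩ := h
    exact ⟨ι, inferInstance, A ∘ₗ Submodule.inclusion le,
      hA.comp (Submodule.inclusion_injective le), fun v => e _⟩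
  have e : ∀ F : VD N E, toV D F.1 = Submodule.inclusion le F := fun F =>
    Subtype.ext (toV_val ((deg_PD F).trans hE))
  obtain ⟨f, f1, f2⟩ := onb hb
  refine ⟨fun a => (f a).1, fun a => ⟨deg_PD _, (congrArg ν (e _)).trans_le (f1 a).le⟩,
    fun G hG => ⟨h.nonneg _, ?_⟩⟩
  obtain ⟨k, k1, k2⟩ := f2 ⟨G, (mem_restrictTotalDegree _ _ _).2 hG⟩
  refine ⟨k, (congrArg Subtype.val k1).trans ?_, fun a => (k2 a).trans_eq (congrArg ν (e _).symm)⟩
  simp only [AddSubmonoidClass.coe_finsetSum, SetLike.val_smul, smul_eq_C_mul]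
  rfl

section Seq

variable {Ω : ℕ → Type} {P : ∀ n, FP (Ω n)} {g : ∀ n, Sh N (Ω n)} {M c u J s : ℕ → ℕ}
  {S : ∀ n, Ω n → Dc N D} {κ : ℝ}

theorem Fine.big (hu : Big u) (hJ : Fine u J) : Big J :=
  tendsto_atTop_mono' _ ((hJ 1).mono fun n a => by simpa using a) hu

/-- A polynomial that is read from the first coordinate is large at the virtual point. -/
theorem tube_wp (hu : Big u) (hJ : Fine u J) {E : ℕ} {F : ∀ n, Ω n → Pl (N + 1)}
    (hF : ∀ᶠ n in UF, ∀ ω ∈ (P n).S, (F n ω).totalDegree ≤ E) :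
    Wp (fun n => NQ (P n) N (J n)) u fun n L v =>
      ∀ y ∈ seg (M n) (c n) ((g n).l v.1) ((g n).zc (c n) v.1) 5,
        |eval y (F n v.1)| ≤ L * |eval (vp (g n) (M n) (c n) (J n) v) (F n v.1)| := by
  intro a a0 ε ε0
  obtain ⟨C, C1, hC⟩ := tube_pb N E
  have C0 : 0 < C := by linarith
  have p : 0 < (ε / C) ^ ((N + 1) * E) := by positivity
  filter_upwards [hF, (Fine.big hu hJ).ev (C / (ε / C) ^ ((N + 1) * E)),
    big_dl hu (C / (ε / C) ^ ((N + 1) * E)) a0] with n k1 k2 k3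
  rw [dl_inv] at k3
  have k4 : (J n : ℝ) ≤ 2 ^ J n := by exact_mod_cast Nat.lt_two_pow_self.le
  have k5 := (hC (P n) (g n) (M n) (c n) (J n) (F n) (ε / C) k1 (by positivity)
    ((div_le_iff₀' p).1 (k2.trans k4))).trans_eq (mul_div_cancel₀ _ C0.ne')
  refine le_trans (pb_mono ?_) k5
  refine fun v _ k z => k fun y hy => ?_
  refine le_trans ?_ (mul_le_mul_of_nonneg_right k3 (abs_nonneg _))
  rw [div_mul_eq_mul_div, le_div_iff₀' p]
  exact z y hy

/-- The inequality of Remez for the virtual point given the line and the label. -/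
theorem rem_vp (hu : Big u) (hJ : Fine u J) (hv : ∀ᶠ n in UF, Val (P n) (g n) (M n) (c n) (S n))
    (K : ℝ) : G39.REM (fun n => NQ (P n) N (J n)) (fun n => vp (g n) (M n) (c n) (J n)) u
      (fun n v => ((g n).l v.1, S n v.1)) ((N + 1) * 1) K := by
  refine Pk.rem_poly hu (fun A => ⟨fun _ _ => True, fun n v => gp v.2,
    fun n z => tq (M n) (c n) z.1 z.2.h, fun _ => 1, fun n => 2 * ⌈A⌉₊ * u n,
    Whp.of_ev (Eventually.of_forall fun _ _ _ => trivial), hu.sub le_rfl, ?_⟩) K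
  filter_upwards [hJ (2 * ⌈A⌉₊), hv] with n a b
  refine ⟨?_, fun v hv _ => ⟨S20.gp_norm _, fun i => ⟨deg_tq i, ?_⟩, fun cc => ?_⟩⟩
  · rw [dl_inv]
    refine le_trans (Real.exp_le_exp.2 ?_) (exp_le_two_pow _)
    push_cast
    nlinarith [Nat.le_ceil A, Nat.cast_nonneg (α := ℝ) (u n)]
  · have := congrFun (ev_tq (M := M n) (c := c n) (l := (g n).l v.1) (h := (S n v.1).h) (gp v.2)) i
    rw [(b _ ((S20.mem_prod v).1 hv).1).1] at this ⊢
    exact this.symm
  · rw [S20.cv_prod ((S20.mem_prod v).1 hv).1 _ fun ω => ((g n).l ω, S n ω),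
      (S20.law_snd _ _).pb_eq fun b => True ∧ flv (2 * ⌈A⌉₊ * u n) (gp b) = cc]
    exact (pb_mono fun _ _ k => k.2).trans (grid_up a cc)

variable (P g M c u J s S) in
/-- No thin common polynomial of the segment and the cell of values. -/
def NTS : Prop := ∀ (a : ℝ) (F₁ : ℕ → Ln N × Dc N D → VD N D)
  (F₂ : ℕ → Dc N D × Z (dV N D) → VD N D), 0 < a → Whp (fun n => NQ (P n) N (J n)) fun n v =>
    ¬(F₁ n ((g n).l v.1, S n v.1) =
        F₂ n (S n v.1, vc (S n v.1).ν (s n) (vp (g n) (M n) (c n) (J n) v)) ∧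
      |eval (vp (g n) (M n) (c n) (J n) v) (F₁ n ((g n).l v.1, S n v.1)).1| <
        dl u a n * (S n v.1).ν (F₁ n ((g n).l v.1, S n v.1)))

theorem wp_fst {p : ∀ n, ℝ → Ω n → Prop}
    (h : Wp (fun n => NQ (P n) N (J n)) u fun n L v => p n L v.1) : Wp P u p :=
  fun a a0 ε ε0 => (h a a0 ε ε0).mono fun n k =>
    ((fst_law (P n) N (J n)).pb_eq fun ω => ¬p n (Real.exp (a * u n)) ω).symm.trans_le k

end Seq

/-- The frame of an optimal label. -/
theorem geoS (N : ℕ) : ∃ D₀, 1 ≤ D₀ ∧ ∀ E₀, ∃ E₁, D₀ ≤ E₁ ∧ ∀ D, E₁ ≤ D → ∀ {Ω : ℕ → Type}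
    {P : ∀ n, FP (Ω n)} {g : ∀ n, Sh N (Ω n)} {M c u J s : ℕ → ℕ} {S : ∀ n, Ω n → Dc N D},
    Big u → (∀ᶠ n in UF, Val (P n) (g n) (M n) (c n) (S n)) → Fine u J → Fine u s →
    NTS P g M c u J s S → ∃ Θ : ℕ → Dc N D → Ch N D, (∀ n δ, Lo D₀ (Θ n δ)) ∧
      Wp P u fun n L ω => (∀ j, (S n ω).ν (Θ n (S n ω) j) ≤ L) ∧
        (∀ (H : Pl (N + 1)) (F : VD N D), H.totalDegree ≤ E₀ →
          F.1 = aeval (fun j => (Θ n (S n ω) j).1) H → cn H ≤ L * (S n ω).ν F) ∧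
        ∀ Φ, Lo D₀ Φ → Un (S n ω).ν Φ → ∀ y ∈ seg (M n) (c n) ((g n).l ω) (S n ω).h 5,
          ∃ y' ∈ seg (M n) (c n) ((g n).l ω) (S n ω).h 4, jc Φ y ≤ L * jc (Θ n (S n ω)) y' := by
  obtain ⟨D0, h0⟩ := GF.geoT (N + 1) ((N + 1) * 1)
  refine ⟨D0 + 1, Nat.le_add_left _ _, fun E₀ => ?_⟩
  obtain ⟨E1, h1⟩ := h0 E₀ (D0 + 1) 1 (dV N (D0 + 1))
  refine ⟨E1 + (D0 + 1), Nat.le_add_left _ _, fun D hD {Ω P g M c u J s S} hu hv hJ hs hN => ?_⟩
  have hv' : ∀ᶠ n in UF, ∀ v ∈ (NQ (P n) N (J n)).S, Hb (S n v.1).ν ∧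
      (S n v.1).h = (g n).zc (c n) v.1 ∧
      vp (g n) (M n) (c n) (J n) v ∈ seg (M n) (c n) ((g n).l v.1) (S n v.1).h 1 ∧
      ∀ F : VD N D, |eval (vp (g n) (M n) (c n) (J n) v) F.1| ≤ (S n v.1).ν F :=
    hv.mono fun n a v k => by
      obtain ⟨b1, b2⟩ := a _ ((S20.mem_prod v).1 k).1
      have b3 := b1 ▸ vp_mem (g n) (M n) (c n) (J n) v
      exact ⟨b2.hb, b1, b3, b2.bd _ (seg_mono (by norm_num) b3)⟩
  obtain ⟨Θ, a1, a2, -, a3⟩ := h1 (P := fun n => NQ (P n) N (J n))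
    (β := fun b _ => cond b (Ln N × Dc N D) (Dc N D × Z (dV N D)))
    (x := fun n => vp (g n) (M n) (c n) (J n)) (A := fun n v => S n v.1)
    (Z := fun b => Bool.rec (motive := fun b => ∀ n, NW (Ω n) N (J n) →
        cond b (Ln N × Dc N D) (Dc N D × Z (dV N D)))
      (fun n v => (S n v.1, vc (S n v.1).ν (s n) (vp (g n) (M n) (c n) (J n) v)))
      (fun n v => ((g n).l v.1, S n v.1)) b)
    (ν := fun n v F => (S n v.1).ν (toV D F)) hu
    (fun b => Eventually.of_forall fun n _ _ _ _ e => by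
      cases b
      exacts [congrArg Prod.fst e, congrArg Prod.snd e])
    (Eventually.of_forall fun n _ _ _ _ e => by simp only [e])
    (hv'.mono fun n a v k => ⟨bas_toV (a v k).1 (by omega), fun F hF => by
      have e := toV_val (D := D) (F := F) (by omega)
      exact ⟨by have := (a v k).2.2.2 (toV D F); rwa [e] at this, fun z => (a v k).1.pos fun z' => z (by rw [← e, z']; rfl)⟩⟩)
    (fun a F a0 hF => (hN a (fun n z => toV D (F true n z)) (fun n z => toV D (F false n z)) a0).mono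
      (Eventually.of_forall fun n v _ k z => k ⟨congrArg (toV D) z.1, by
        rw [toV_val ((hF _ _ _).trans (by omega))]
        exact z.2⟩))
    (fun E _ => GF.of_rem (rem_vp hu hJ hv 1) _ E)
    (fun R => by
      filter_upwards [hv', hs (2 * (R + 1)), big_dl hu (dV N D) one_pos] with n a b b' v k w _ e F hF
      have e1 : S n w.1 = S n v.1 := congrArg Prod.fst e
      have e2 := congrArg Prod.snd e
      simp only [e1] at e2
      have e3 := vc_near (a v k).1 e2.symm (toV D F)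
      rw [toV_val (by omega)] at e3
      refine e3.trans ?_
      rw [div_eq_inv_mul, ← mul_assoc]
      refine mul_le_mul_of_nonneg_right ?_ ((a v k).1.nonneg _)
      have e4 : (dl u (R + 1) n)⁻¹ ≤ 2 ^ s n := by
        rw [dl_inv]
        refine le_trans (Real.exp_le_exp.2 ?_) (exp_le_two_pow _)
        have : ((2 * (R + 1) * u n : ℕ) : ℝ) ≤ s n := by exact_mod_cast b
        push_cast at this
        linarith
      rw [mul_inv_le_iff₀ (by positivity)]
      refine b'.trans (le_trans (le_of_eq ?_) (mul_le_mul_of_nonneg_left e4 (dl_pos _ _ _).le))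
      rw [dl_add, mul_inv, mul_inv_cancel_left₀ (dl_pos _ _ _).ne'])
  choose f hf using lowB (N := N) (D := D) (Nat.le_add_left 1 D0) (by omega)
  have b1 := Cx.wp_fin fun I : Fin (N + 1) → Fin (dV N (D0 + 1)) => tube_wp (P := P) (g := g)
    (M := M) (c := c) hu hJ (F := fun n ω => jac fun i => (f (S n ω).ν (I i)).1)
    (Eventually.of_forall fun n ω _ => deg_jac fun i => deg_PD _)
  have dg : ∀ n v j, (toV D (Θ n v j)).1 = Θ n v j := fun n v j =>
    toV_val ((a2 n v j).trans (by omega))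
  refine ⟨fun n δ j => toV D (Θ n (Cx.sec (NQ (P n) N (J n)) (fun v => S n v.1) δ) j),
    fun n δ j => by rw [dg]; exact (a2 _ _ _).trans (Nat.le_succ _), wp_fst (J := J)
      ((a3.and b1).of hu (1 + dV N (D0 + 1) ^ (N + 1) * (N + 1).factorial) (N + 2) ?_)⟩
  filter_upwards [hv', a1] with n a b L L' l1 l2 v k ⟨⟨c1, c2, σ, c3⟩, c4⟩
  have l0 : 0 < L := one_pos.trans_le l1
  have l3 : L ≤ L' := by
    have : (0 : ℝ) ≤ dV N (D0 + 1) ^ (N + 1) * (N + 1).factorial * L ^ (N + 2) := by positivity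
    nlinarith [le_self_pow₀ l1 (show N + 2 ≠ 0 by omega)]
  simp only [Cx.fn_sec b k, dg]
  refine ⟨fun j => (c1 j).trans l3, fun H F hH e => (c2 H hH).trans (mul_le_mul l3
    (Cx.nu_le fun w hw => ?_) (Real.sqrt_nonneg _) (l0.le.trans l3)), fun Φ p1 p2 y hy =>
      ⟨_, seg_mono (by norm_num) (a v k).2.2.1, ?_⟩⟩
  · obtain ⟨w1, w2⟩ := (Cx.mem_cv k w).1 hw
    rw [← e, ← show S n w.1 = S n v.1 from w2]
    exact (a w w1).2.2.2 F
  obtain ⟨f1, -, f2⟩ := hf _ (a v k).1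
  by_cases z : jc Φ y = 0
  · rw [z]
    exact mul_nonneg (l0.le.trans l3) (abs_nonneg _)
  obtain ⟨I, hI⟩ := f2 Φ y p1 p2 z
  have d1 := c4 I y ((a v k).2.1 ▸ hy)
  have d2 := c3.jac_le l0 le_rfl (Ψ := fun i => (f (S n v.1).ν (I i)).1) (fun i => ⟨(f1 _).1, by
    rw [show toV D (f (S n v.1).ν (I i)).1 = f (S n v.1).ν (I i) from
      Subtype.ext (toV_val (deg_PD _))]
    exact (f1 _).2⟩) (Metric.mem_ball_self (inv_pos.2 l0))
  rw [c3.base] at d2
  have d3 := hI.trans (mul_le_mul_of_nonneg_left (d1.trans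
    (mul_le_mul_of_nonneg_left d2 l0.le)) (by positivity))
  simp only [jc, dg] at d3 ⊢
  refine d3.trans ?_
  rw [← mul_assoc, ← mul_assoc, ← mul_assoc]
  refine mul_le_mul_of_nonneg_right (le_trans ?_ l2) (abs_nonneg _)
  rw [add_mul, pow_succ' L (N + 1)]
  nlinarith [mul_pos l0 (pow_pos l0 (N + 1))]

end Pool.Agent.MP_5168f5_an.QA.TC
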