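import Pool.Agent.MP_5168f5_an.QA.TiCA
import Pool.Agent.MP_5168f5_an.QA.CutD

/-! The end of the proof of tightness: filling in the frame of the label. -/

namespace Pool.Agent.MP_5168f5_an.QA.TC

open H19 H17S H17F R4 AN Filter MvPolynomial Finset
open C1 (PD Hb deg_PD)
open Nc (Pl ev jac jm kc eval_aeval jac_comp)
open Vo (Wp one_le_ex)
open Pk (cn)

variable {N D : ℕ}

/-- The Jacobian of a chart that is a bounded polynomial in another chart. -/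
theorem jac_bd {Θ Φ : Ch N D} {H : Fin (N + 1) → Pl (N + 1)} {y : V (N + 1)} {E : ℕ} {L B : ℝ}
    (l1 : 1 ≤ L) (h1 : ∀ j, |eval y (Θ j).1| ≤ L) (h2 : ∀ i, (H i).totalDegree ≤ E ∧ cn (H i) ≤ B ∧
      (Φ i).1 = aeval (fun j => (Θ j).1) (H i)) :
    jc Φ y ≤ (N + 1).factorial * (E * B * L ^ E) ^ (N + 1) * jc Θ y := by
  rw [jc, funext fun i => (h2 i).2.2, jac_comp, map_mul, abs_mul, eval_aeval]
  refine mul_le_mul_of_nonneg_right ?_ (abs_nonneg _)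
  rw [Nc.eval_jac]
  simpa using Matrix.det_le (abv := AbsoluteValue.abs)
    (A := (jm H).map (eval (ev (fun j => (Θ j).1) y))) (x := E * B * L ^ E) fun i j =>
      (kc.val _ E L _ ((kc.der _ E j (h2 i).1).2.trans (Nat.sub_le _ _)) l1 h1).trans
        (mul_le_mul_of_nonneg_right ((kc.der _ E j (h2 i).1).1.trans
          (mul_le_mul_of_nonneg_left (h2 i).2.1 (Nat.cast_nonneg _))) (by positivity))

theorem jc_inv {L : ℝ} (l0 : 0 < L) (Θ : Ch N D) (y : V (N + 1)) :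
    jc Θ y = L ^ (N + 1) * jc (fun j => L⁻¹ • Θ j) y := by
  rw [CD.jc_smul, abs_of_pos (inv_pos.2 l0), inv_pow, mul_inv_cancel_left₀ (by positivity)]

/-- A large Jacobian needs a thin direction. -/
theorem ptw {Θ Φ : Ch N D} {G : Fin (N + 1) → Pl (N + 1)} {y : V (N + 1)} {E₀ : ℕ}
    {ν : VD N D → ℝ} {a r w J J' : ℝ} (a0 : 0 ≤ a) (j1 : 0 < J') (j0 : 0 < J) (p2 : J' ≤ jc Φ y)
    (q1 : ∀ j, |eval y (Θ j).1| ≤ Real.exp a)
    (q2 : ∀ (H : Pl (N + 1)) (F : VD N D), H.totalDegree ≤ E₀ →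
      F.1 = aeval (fun j => (Θ j).1) H → cn H ≤ Real.exp a * ν F)
    (p3 : ∀ i, (G i).totalDegree ≤ E₀ ∧
      (Φ i).1 = aeval (fun j => ((Real.exp a)⁻¹ • Θ j).1) (G i) ∧ ν (Φ i) ≤ Real.exp r * dV N D)
    (b2 : Real.exp w * jc (fun j => (Real.exp a)⁻¹ • Θ j) y ≤ J) :
    Real.log J' - Real.log J ≤ (N + 1).factorial * (E₀ * dV N D) ^ (N + 1) +
      (N + 1) * (E₀ + 2) * a - w + (N + 1) * r := by
  have l0 := Real.exp_pos a
  have e0 := Real.exp_pos r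
  obtain ⟨C₂, hC₂⟩ : ∃ C₂ : ℝ, C₂ = (N + 1).factorial * (E₀ * dV N D) ^ (N + 1) := ⟨_, rfl⟩
  have b1 := jac_bd (Θ := Θ) (Φ := Φ) (E := E₀) (B := Real.exp a * (Real.exp r * dV N D))
    (H := fun i => aeval (fun j => C (Real.exp a)⁻¹ * X j) (G i)) (Real.one_le_exp a0) q1 fun i => by
      have d := (kc.deg _ _ E₀ 1 (p3 i).1 fun j =>
        FL.deg_lin (Real.exp a)⁻¹ (totalDegree_X j).le).trans_eq (mul_one _)
      have e : (Φ i).1 = aeval (fun j => (Θ j).1)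
          (aeval (fun j => C (Real.exp a)⁻¹ * X j) (G i) : Pl (N + 1)) := by
        rw [(p3 i).2.1, comp_aeval_apply]
        simp [smul_eq_C_mul]
      exact ⟨d, (q2 _ _ d e).trans (mul_le_mul_of_nonneg_left (p3 i).2.2 l0.le), e⟩
  rw [← le_inv_mul_iff₀ (Real.exp_pos w), ← Real.exp_neg w] at b2
  rw [jc_inv l0 Θ] at b1
  have b3 := (p2.trans b1).trans (mul_le_mul_of_nonneg_left
    (mul_le_mul_of_nonneg_left b2 (by positivity)) (by positivity))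
  rw [← hC₂, sub_le_iff_le_add, ← Real.log_exp (_ + _ * r),
    ← Real.log_mul (Real.exp_pos _).ne' j0.ne']
  refine Real.log_le_log j1 (b3.trans ?_)
  have b4 : C₂ ≤ Real.exp C₂ := by linarith [Real.add_one_le_exp C₂]
  have b5 : Real.exp (C₂ + (N + 1) * (E₀ + 2) * a - w + (N + 1) * r) = Real.exp C₂ *
      ((Real.exp a ^ (E₀ + 2)) ^ (N + 1) * Real.exp (-w) * Real.exp r ^ (N + 1)) := by
    simp only [← Real.exp_nat_mul, ← Real.exp_add]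
    congr 1
    push_cast
    ring
  rw [b5]
  refine le_trans (le_of_eq ?_) (mul_le_mul_of_nonneg_right
    (mul_le_mul_of_nonneg_right b4 (by positivity)) j0.le)
  rw [hC₂]
  simp only [mul_pow, pow_add (Real.exp a) E₀ 2, pow_two]
  ring

theorem endF {D₀ E₀ : ℕ} (hF : Fil N D₀ E₀ D) : ∃ C : ℝ, 0 ≤ C ∧ ∀ ε : ℝ, 0 < ε → ∃ R : ℕ,
    ∀ {Ω : Type} (P : FP Ω) (g : Sh N Ω) (M c : ℕ) (S : Ω → Dc N D) (Θ : Dc N D → Ch N D)
      (κ e a w : ℝ) (m J I : ℕ), 0 < κ → 0 ≤ a → 0 ≤ w → g.Box P → Val P g M c S →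
      OpG κ P g M c S e → (∀ δ, Lo D₀ (Θ δ)) → Real.exp I ≤ 2 ^ m → R ≤ m → R * m ≤ J →
      (∀ ω ∈ P.S, (∀ j, (S ω).ν (Θ (S ω) j) ≤ Real.exp a) ∧
        (∀ (H : Pl (N + 1)) (F : VD N D), H.totalDegree ≤ E₀ →
          F.1 = aeval (fun j => (Θ (S ω) j).1) H → cn H ≤ Real.exp a * (S ω).ν F) ∧
        (∃ y ∈ seg M c (g.l ω) (S ω).h 4,
          (S ω).J ≤ Real.exp I * jc (fun j => (Real.exp a)⁻¹ • Θ (S ω) j) y) ∧
        ∀ Φ, Lo D₀ Φ → Un (S ω).ν Φ → ∀ y ∈ seg M c (g.l ω) (S ω).h 4,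
          Real.exp w * jc Φ y ≤ (S ω).J) →
      κ * w ≤ κ * (C + (N + 1) * (E₀ + 2) * a + ε * m) +
        (N + 1) * (C + ε * m + Real.log (I + 1) + e) := by
  obtain ⟨C₁, c1, hC⟩ := gapN N D
  obtain ⟨C₂, hC₂⟩ : ∃ C₂ : ℝ, C₂ = (N + 1).factorial * (E₀ * dV N D) ^ (N + 1) := ⟨_, rfl⟩
  have c2 : 0 ≤ C₂ := by rw [hC₂]; positivity
  refine ⟨1 + C₁ + C₂, by positivity, fun ε ε0 => ?_⟩
  obtain ⟨R, hR⟩ := hF ε ε0
  refine ⟨R, fun {Ω} P g M c S Θ κ e a w m J I κ0 a0 w0 hb hv ho hΘ hI r1 r2 H => ?_⟩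
  have l0 := Real.exp_pos a
  have l1 := Real.one_le_exp a0
  obtain ⟨U, hU⟩ : ∃ U : Dc N D → Ch N D, U = fun δ j => (Real.exp a)⁻¹ • Θ δ j := ⟨_, rfl⟩
  have u1 : ∀ δ, Lo D₀ (U δ) := fun δ j => hU ▸ (totalDegree_smul_le _ _).trans (hΘ δ j)
  have u2 : ∀ ω ∈ P.S, Un (S ω).ν (U (S ω)) := fun ω hω j => by
    simp only [hU]
    rw [(hv ω hω).2.hb.smul, abs_of_pos (inv_pos.2 l0), inv_mul_le_iff₀ l0, mul_one]
    exact (H ω hω).1 j
  choose k _ hk using fun ω : Ω =>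
    lowM (fun (_ : Unit) y => jc (U (S ω)) y) () (seg M c (g.l ω) (S ω).h 4) (S ω).J
  have k1 : ∀ ω ∈ P.S, (∃ y ∈ seg M c (g.l ω) (S ω).h 4,
      (S ω).J * Real.exp (-(k ω : ℝ)) ≤ jc (U (S ω)) y) ∧ k ω ≤ I ∧
      ∀ y ∈ seg M c (g.l ω) (S ω).h 4,
        jc (U (S ω)) y ≤ (S ω).J * Real.exp (1 - k ω) := fun ω hω => by
    obtain ⟨y, y1, y2⟩ := (H ω hω).2.2.1
    have j0 := (hv ω hω).2.pos
    have y3 : (S ω).J ≤ Real.exp I * jc (U (S ω)) y := hU ▸ y2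
    obtain ⟨⟨y', b1, b2⟩, b3⟩ := hk ω
      ⟨y, y1, (), (mul_pos_iff_of_pos_left (Real.exp_pos _)).1 (j0.trans_le y3)⟩
    refine ⟨⟨y', b1, ?_⟩, not_lt.1 fun z => (b3 I z () y y1).not_ge y3, fun x hx => ?_⟩
    · rw [Real.exp_neg, mul_inv_le_iff₀' (Real.exp_pos _)]
      exact b2
    · rcases Nat.eq_zero_or_pos (k ω) with z | z
      · have := (H ω hω).2.2.2 _ (u1 _) (u2 ω hω) x hx
        have j1 : 0 ≤ jc (U (S ω)) x := abs_nonneg _
        rw [z, Nat.cast_zero, sub_zero]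
        nlinarith [Real.one_le_exp w0, Real.one_le_exp zero_le_one]
      · have := (b3 _ (Nat.sub_lt z one_pos) () x hx).le
        rw [Nat.cast_pred z] at this
        rw [← neg_sub, Real.exp_neg, le_mul_inv_iff₀' (Real.exp_pos _)]
        exact this
  have lw := fst_law P N J
  have g1 := hC P g M c c J (fun ω => (S ω, k ω)) S
    (fun ω => (S ω).J * Real.exp (1 - k ω)) (fun ω => U (S ω)) (fun _ => m) le_rfl hb
    (fun x _ y _ e => by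
      simp only [Sh.cx, Prod.mk.injEq] at e
      simp only [e.1.2, e.1.1]) fun ω hω => by
      obtain ⟨v1, v2⟩ := hv ω hω
      have j0 := v2.pos
      refine ⟨v2, by positivity, ?_, ⟨_, v1, rfl⟩, fun y hy => ⟨(pi_norm_le_iff_of_nonneg
        zero_le_one).2 fun i => (v2.bd y (seg_mono (by norm_num) (v1 ▸ hy)) _).trans (u2 ω hω i),
        (k1 ω hω).2.2 y (seg_mono (by norm_num) (v1 ▸ hy))⟩⟩
      rw [mul_left_comm]
      refine le_mul_of_one_le_right j0.le (le_trans ?_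
        (mul_le_mul_of_nonneg_right hI (Real.exp_pos _).le))
      rw [← Real.exp_add]
      have : (k ω : ℝ) ≤ I := by exact_mod_cast (k1 ω hω).2.1
      exact Real.one_le_exp (by linarith)
  obtain ⟨K, f1, f2, f3⟩ := hR _ _ (NQ P N J) (g.pull Prod.fst) M c
    (fun v => g.cx c (fun ω => (S ω, k ω)) v.1)
    (fun v => ⟨(S v.1).ν, (S v.1).J * Real.exp (-(k v.1 : ℝ)), (S v.1).h⟩)
    (fun v => U (S v.1)) (fun _ => m) (fun v => gp v.2) (hb.dn (dn_fst P N J))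
    (fun x _ y _ e => by
      simp only [Sh.cx, Prod.mk.injEq] at e
      simp only [e.1.2, e.1.1])
    (fun v hw => by
      obtain ⟨v1, v2⟩ := hv _ (lw.mem hw)
      exact ⟨v1, v2.hb, mul_pos v2.pos (Real.exp_pos _), v2.bd, _, u2 _ (lw.mem hw),
        (k1 _ (lw.mem hw)).1⟩)
    (fun v hw => ⟨u1 _, u2 _ (lw.mem hw), (k1 _ (lw.mem hw)).1⟩)
    (spr_gp (fun ω => (g.l ω, g.cx c (fun ω => (S ω, k ω)) ω)) (m := fun _ => m)
      fun _ _ => ⟨r1, r2⟩)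
  choose! r t1 t2 t3 using fun v (hw : v ∈ (NQ P N J).S) =>
    ex_thin (hv _ (lw.mem hw)).2.hb (f1 v hw).2.hb
  have o1 := ho _ _ _ _ K r (dn_fst P N J) f1 fun v hw => ⟨fun F => ((f2 v hw).1 F).trans
    (mul_le_mul_of_nonneg_right (pow_le_pow_right₀ one_le_two (by omega))
      ((hv _ (lw.mem hw)).2.hb.nonneg F)), t2 v hw⟩
  have o2 := ch_tri' (P := NQ P N J) K (fun v => S v.1)
    fun v => g.cx c (fun ω => (S ω, k ω)) v.1
  have o3 : ch (NQ P N J) (fun v => g.cx c (fun ω => (S ω, k ω)) v.1)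
      (fun v => S v.1) ≤ Real.log (I + 1) := by
    refine (lw.ch_id (g.cx c fun ω => (S ω, k ω)) S).trans_le (le_trans (ch_mono (F' := k)
      fun x hx y hy e => ?_) (ch_label (fun v hw => (k1 v hw).2.1) _))
    obtain ⟨e1, e2⟩ := Prod.mk.inj e
    exact Prod.ext (Prod.ext e2 e1) ((hv x hx).1.symm.trans ((congrArg Dc.h e2).trans (hv y hy).1))
  have o4 : (NQ P N J).E (fun v => Real.log (K v).J - Real.log (S v.1).J) ≤
      (NQ P N J).E fun v => C₂ + (N + 1) * (E₀ + 2) * a - w + (N + 1) * r v :=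
    FP.E_mono _ fun v hw => by
      obtain ⟨Φ, G, ⟨p1, y, y1, p2⟩, p3⟩ := (f2 v hw).2
      obtain ⟨v1, v2⟩ := hv _ (lw.mem hw)
      obtain ⟨q1, q2, -, q3⟩ := H _ (lw.mem hw)
      have y2 : y ∈ seg M c (g.l v.1) (S v.1).h 4 := by rw [v1, ← (f1 v hw).1]; exact y1
      rw [hC₂]
      exact ptw a0 (f1 v hw).2.pos v2.pos p2 (fun j => (v2.bd y (seg_mono (by norm_num) y2) _).trans
        (q1 j)) q2 (fun i => ⟨(p3 i).1, by rw [(p3 i).2, hU], (t3 v hw _).trans (by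
          gcongr
          exact mul_le_of_le_one_right (Nat.cast_nonneg _) (p1 i))⟩)
        (by have := q3 _ (u1 _) (u2 _ (lw.mem hw)) y y2; rwa [hU] at this)
  have o5 : 0 ≤ ch (NQ P N J) K fun v => g.cx c (fun ω => (S ω, k ω)) v.1 :=
    ch_nonneg _ _
  have o6 : P.E (fun ω => Real.log (S ω).J -
      Real.log ((S ω).J * Real.exp (1 - k ω))) = P.E fun ω => k ω - 1 :=
    P.E_congr fun ω hω => by
      rw [Real.log_mul (hv ω hω).2.pos.ne' (Real.exp_pos _).ne', Real.log_exp]; ring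
  have o7 : (NQ P N J).E (fun v => Real.log ((S v.1).J * Real.exp (-(k v.1 : ℝ)))) =
      (NQ P N J).E (fun v => Real.log (S v.1).J) - P.E fun ω => k ω := by
    rw [show P.E (fun ω => (k ω : ℝ)) = _ from
      (lw fun ω => (k ω : ℝ)).symm, ← FP.E_sub]
    exact FP.E_congr _ fun v hw => by
      rw [Real.log_mul (hv _ (lw.mem hw)).2.pos.ne' (Real.exp_pos _).ne', Real.log_exp]; ring
  rw [o6, gap] at g1
  rw [o7] at f3
  simp only [FP.E_add, FP.E_sub, FP.E_mul, FP.E_const, Real.log_one, sub_self] at g1 f3 o1 o4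
  have f4 : ch (NQ P N J) (fun v => fl m (uc (U (S v.1))
      (vq (g.pull Prod.fst) M c (fun v => gp v.2) v)))
      (fun v => g.cx c (fun ω => (S ω, k ω)) v.1) = ch (NQ P N J)
      (cub g M c J (fun ω => U (S ω)) fun _ => m)
      fun v => g.cx c (fun ω => (S ω, k ω)) v.1 := rfl
  rw [f4] at f3
  have n0 : (0 : ℝ) ≤ N + 1 := by positivity
  have z1 : κ * (NQ P N J).E r ≤ 1 + C₁ + C₂ + ε * m + Real.log (I + 1) + e := by linarith
  have z2 : w ≤ 1 + C₁ + C₂ + (N + 1) * (E₀ + 2) * a + ε * m + (N + 1) * (NQ P N J).E r := by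
    linarith
  nlinarith [mul_le_mul_of_nonneg_left z1 n0, mul_le_mul_of_nonneg_left z2 κ0.le]

/-- The frame of the label shows its Jacobian. -/
theorem endS {D₀ E₀ : ℕ} (hF : Fil N D₀ E₀ D) {Ω : ℕ → Type} {κ : ℝ} {P : ∀ n, FP (Ω n)}
    {g : ∀ n, Sh N (Ω n)} {M c u : ℕ → ℕ} {S : ∀ n, Ω n → Dc N D} (h : O1 κ P g M c u S)
    (hT : ∀ᶠ n in UF, ∀ ω ∈ (P n).S, (∃ Φ, Lo D₀ Φ ∧ Un (S n ω).ν Φ ∧
        ∃ y ∈ seg (M n) (c n) ((g n).l ω) (S n ω).h 4, (S n ω).J ≤ Real.exp (2 * u n) * jc Φ y) ∧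
      ∀ Φ, Lo D₀ Φ → Un (S n ω).ν Φ → ∀ y ∈ seg (M n) (c n) ((g n).l ω) (S n ω).h 4,
        Real.exp (u n) * jc Φ y ≤ (S n ω).J)
    {Θ : ℕ → Dc N D → Ch N D} (hΘ : ∀ n δ, Lo D₀ (Θ n δ))
    (hG : Wp P u fun n L ω => (∀ j, (S n ω).ν (Θ n (S n ω) j) ≤ L) ∧
      (∀ (H : Pl (N + 1)) (F : VD N D), H.totalDegree ≤ E₀ →
        F.1 = aeval (fun j => (Θ n (S n ω) j).1) H → cn H ≤ L * (S n ω).ν F) ∧
      ∀ Φ, Lo D₀ Φ → Un (S n ω).ν Φ → ∀ y ∈ seg (M n) (c n) ((g n).l ω) (S n ω).h 5,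
        ∃ y' ∈ seg (M n) (c n) ((g n).l ω) (S n ω).h 4, jc Φ y ≤ L * jc (Θ n (S n ω)) y') :
    False := by
  obtain ⟨C, C0, hC⟩ := endF hF
  have κ0 := h.pos
  obtain ⟨α, hα⟩ : ∃ α : ℝ, α = 1 / (4 * ((N + 1) * (E₀ + 2))) := ⟨_, rfl⟩
  obtain ⟨ε, hε⟩ : ∃ ε : ℝ, ε = κ / (4 * (κ + (N + 1))) := ⟨_, rfl⟩
  have α0 : 0 < α := by rw [hα]; positivity
  have ε0 : 0 < ε := by rw [hε]; positivity
  have α1 : (N + 1) * (E₀ + 2) * α = 1 / 4 := by rw [hα]; field_simp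
  have α2 : α ≤ 1 := by
    nlinarith [mul_nonneg (Nat.cast_nonneg (α := ℝ) N) (Nat.cast_nonneg (α := ℝ) E₀),
      Nat.cast_nonneg (α := ℝ) N, Nat.cast_nonneg (α := ℝ) E₀]
  have ε1 : (κ + (N + 1)) * ε = κ / 4 := by rw [hε]; field_simp
  obtain ⟨R, hR⟩ := hC (ε / (2 * (N + 4))) (by positivity)
  have p := (hG α α0).pos
  have h' := h.cE p
  have s1 := ((Sub.nat h.big).const_mul h.big (C := N + 4)
    (by linarith [Nat.cast_nonneg (α := ℝ) N])).log (ε / 4) (by positivity)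
  obtain ⟨n, a1, a2, a3, a4, a5, a6, a7, a8⟩ := (h'.box.and (h'.val.and ((h'.opt (ε / 4)
    (by positivity)).and (hT.and (p.sure.and (s1.and ((h.big.eventually_ge_atTop
      (R * (2 * (N + 4)) + 1)).and (h.big.ev (4 * C / ε))))))))).exists
  have u0 : (1 : ℝ) ≤ u n := by exact_mod_cast le_of_add_le_right a7
  have k := hR _ (g n) (M n) (c n) (S n) (Θ n) κ _ (α * u n) (u n) (2 * (N + 4) * u n)
    (u n * u n) ((N + 4) * u n) κ0 (by positivity) (by positivity) a1 a2 a3 (hΘ n)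
    (le_trans (le_of_eq (by push_cast; congr 1; ring)) (exp_le_two_pow _))
    (by nlinarith [Nat.zero_le (R * N), Nat.zero_le (N * u n)])
    (by rw [← mul_assoc]; exact Nat.mul_le_mul_right _ (le_of_add_le_left a7)) fun ω hω => by
      obtain ⟨w1, b1, b2, b3⟩ := a5 ω hω
      obtain ⟨⟨Φ, c1, c2, y, c3, c4⟩, c5⟩ := a4 ω w1
      obtain ⟨y', d1, d2⟩ := b3 Φ c1 c2 y (seg_mono (by norm_num) c3)
      refine ⟨b1, b2, ⟨y', d1, c4.trans ((mul_le_mul_of_nonneg_left d2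
        (Real.exp_pos _).le).trans ?_)⟩, c5⟩
      rw [jc_inv (Real.exp_pos (α * u n)) (Θ n (S n ω)), ← mul_assoc, ← mul_assoc,
        ← Real.exp_nat_mul, ← Real.exp_add, ← Real.exp_add]
      refine mul_le_mul_of_nonneg_right (Real.exp_le_exp.2 ?_) (abs_nonneg _)
      push_cast
      nlinarith [mul_le_mul_of_nonneg_right α2 (show (0 : ℝ) ≤ (N + 2) * u n by positivity)]
  have e1 : ε / (2 * (N + 4)) * (2 * (N + 4) * u n : ℕ) = ε * u n := by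
    push_cast
    field_simp
  have e2 : Real.log (((N + 4) * u n : ℕ) + 1) ≤ Real.log ((N + 4) * ((u n : ℝ) + 1)) :=
    Real.log_le_log (by positivity) (by
      push_cast
      linarith [Nat.cast_nonneg (α := ℝ) N])
  rw [e1, ← mul_assoc _ α, α1] at k
  rw [div_le_iff₀ ε0] at a8
  have n0 : (0 : ℝ) ≤ N + 1 := by positivity
  have e3 : (κ + (N + 1)) * (ε * u n) = κ / 4 * u n := by rw [← mul_assoc, ε1]
  have e4 := mul_le_mul_of_nonneg_left (e2.trans a6) n0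
  have e5 := mul_le_mul_of_nonneg_left a8 (add_nonneg κ0.le n0)
  nlinarith [mul_pos κ0 (one_pos.trans_le u0), mul_pos κ0 (mul_pos ε0 (one_pos.trans_le u0))]

/-- Tightness in one unit from the absence of thin common polynomials. -/
theorem tiC_of (hF : SFil) (N : ℕ) : ∃ D₀ D₁ : ℕ, 1 ≤ D₀ ∧ D₀ ≤ D₁ ∧ ∀ D, D₁ ≤ D →
    (∃ E₀, Fil N D₀ E₀ D) ∧ ∀ {Ω : ℕ → Type} {κ : ℝ} {P : ∀ n, FP (Ω n)} {g : ∀ n, Sh N (Ω n)}
      {M c u J s : ℕ → ℕ} {S : ∀ n, Ω n → Dc N D}, O1 κ P g M c u S →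
      (∀ᶠ n in UF, ∀ ω ∈ (P n).S, (∃ Φ, Lo D₀ Φ ∧ Un (S n ω).ν Φ ∧
        ∃ y ∈ seg (M n) (c n) ((g n).l ω) (S n ω).h 4, (S n ω).J ≤ Real.exp (2 * u n) * jc Φ y) ∧
      ∀ Φ, Lo D₀ Φ → Un (S n ω).ν Φ → ∀ y ∈ seg (M n) (c n) ((g n).l ω) (S n ω).h 4,
        Real.exp (u n) * jc Φ y ≤ (S n ω).J) → Fine u J → Fine u s → ¬NTS P g M c u J s S := by
  obtain ⟨D₀, a1, a2⟩ := geoS N
  obtain ⟨E₀, b⟩ := hF N D₀
  obtain ⟨E₁, a3, a4⟩ := a2 E₀
  refine ⟨D₀, E₁ + E₀ * D₀, a1, by omega, fun D hD => ⟨⟨E₀, b D (by omega)⟩,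
    fun h hT hJ hs hN => ?_⟩⟩
  obtain ⟨Θ, c1, c2⟩ := a4 D (by omega) h.big h.val hJ hs hN
  exact endS (b D (by omega)) h hT c1 c2

end Pool.Agent.MP_5168f5_an.QA.TC
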