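import Pool.Agent.MP_5168f5_an.QA.Cnt
import Pool.Agent.MP_5168f5_an.QA.Bd
import Pool.Agent.MP_5168f5_an.QA.NJCore

/-! Filling against optimality, and the finite form of the estimate for a foreign frame. -/

namespace Pool.Agent.MP_5168f5_an.QA.Tp

open H19 H17S H17F R4 AN Filter MvPolynomial Finset
open C1 (Hb rMul rho_pos)
open Nc (Pl ev jac)
open K31 (Dn)

variable {N D E : ℕ} {ν ν' ν'' : VD N D → ℝ} {η θ r : ℝ}

theorem jc_eq (Φ : Ch N D) (y : V (N + 1)) : jc Φ y = |(En.dm (fun i => (Φ i).1) y).det| := by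
  rw [det_dm, jc]

theorem jc_smul (r : ℝ) (Φ : Ch N D) (y : V (N + 1)) :
    jc (fun i => r • Φ i) y = |r| ^ (N + 1) * jc Φ y := by
  have : En.dm (fun i => (r • Φ i).1) y = r • En.dm (fun i => (Φ i).1) y :=
    Matrix.ext fun i k => by simp [En.dm]
  rw [jc_eq, jc_eq, this, Matrix.det_smul, abs_mul, abs_pow, Fintype.card_fin]

/-- A bound for unit charts gives a bound for bounded charts. -/
theorem jc_le (h : Hb ν) {y : V (N + 1)} {G : ℝ} (k : ∀ Φ, Un ν Φ → jc Φ y ≤ G) {Φ : Ch N D}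
    (e : ∀ i, ν (Φ i) ≤ Real.exp r) : jc Φ y ≤ Real.exp ((N + 1) * r) * G := by
  have p := Real.exp_pos r
  have := k (fun i => (Real.exp r)⁻¹ • Φ i) fun i => by
    rw [h.smul, abs_of_pos (inv_pos.2 p), inv_mul_le_iff₀ p, mul_one]; exact e i
  rw [jc_smul, abs_of_pos (inv_pos.2 p), inv_pow, inv_mul_le_iff₀ (by positivity),
    ← Real.exp_nat_mul] at this
  exact_mod_cast this

/-- Charts of small degree can be taken from a family that is read from the norm. -/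
theorem lowb (hE : E ≤ D) (ν : VD N D → ℝ) : ∃ f : Fin (dV N E) → VD N D, Hb ν →
    (∀ a, ν (f a) ≤ 1 ∧ (f a).1.totalDegree ≤ E) ∧ ∀ (Φ : Ch N D) (B : ℝ) (y : V (N + 1)),
      Lo E Φ → (∀ i, ν (Φ i) ≤ B) → 0 < jc Φ y → ∃ I : Fin (N + 1) → Fin (dV N E),
        jc Φ y ≤ (dV N E * B) ^ (N + 1) * jc (fun i => f (I i)) y := by
  have le : restrictTotalDegree (Fin (N + 1)) ℝ E ≤ restrictTotalDegree (Fin (N + 1)) ℝ D :=
    fun p hp => (mem_restrictTotalDegree _ _ _).2 (((mem_restrictTotalDegree _ _ _).1 hp).trans hE)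
  by_cases h : Hb ν
  swap
  · exact ⟨0, fun k => absurd k h⟩
  obtain ⟨ι, _, A, hA, e⟩ := h
  obtain ⟨f, f1, f2⟩ := jb (ν := fun F => ν (Submodule.inclusion le F))
    ⟨ι, inferInstance, A ∘ₗ Submodule.inclusion le, hA.comp (Submodule.inclusion_injective le),
      fun F => e _⟩
  refine ⟨fun a => Submodule.inclusion le (f a), fun _ => ⟨fun a => ⟨(f1 a).le, C1.deg_PD (f a)⟩,
    fun Φ B y lo hB p => ?_⟩⟩
  rw [jc_eq] at p
  simp only [jc_eq]
  exact f2 (fun i => ⟨(Φ i).1, (mem_restrictTotalDegree _ _ _).2 (lo i)⟩) B y hB (abs_pos.1 p)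

theorem sg_mono (h : Hb ν) (h' : Hb ν') (e : ∀ F, ν F ≤ Real.exp r * ν' F) {k : ℕ}
    (hk : k ≤ dV N D) : sg k ν' ≤ sg k ν + k * r := by
  have a := Real.log_le_log (rho_pos h BdA.hb_Bn rfl hk)
    ((rMul _ ν ν' Bn k h h' BdA.hb_Bn).2.2 _ (Real.exp_pos r) e).2.1
  rw [Real.log_mul (by positivity) (rho_pos h' BdA.hb_Bn rfl hk).ne', Real.log_pow,
    Real.log_exp] at a
  unfold sg
  linarith

/-- The reward for thin axes pays for the distance of the spectra. -/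
theorem psi_dsp (h : Hb ν) (h' : Hb ν') (e : ∀ F, ν F ≤ Real.exp r * ν' F) (r0 : 0 ≤ r)
    (h1 : 0 ≤ η) (h2 : η ≤ 1) (h3 : 0 ≤ θ) (h4 : θ ≤ η ^ dV N D) (cen : ℕ → ℝ) :
    Psi η ν' + θ * pen cen ν ≤ Psi η ν + θ * pen cen ν' + 2 * (dV N D + 1) * dV N D * r := by
  have : ∑ k ∈ range (dV N D + 1), (η ^ k * sg k ν' + θ * |sg k ν - cen k|) ≤
      ∑ k ∈ range (dV N D + 1), (η ^ k * sg k ν + θ * |sg k ν' - cen k| + 2 * dV N D * r) :=
    sum_le_sum fun k hk => by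
      have hk' := Nat.lt_succ_iff.1 (mem_range.1 hk)
      have a := sg_mono h h' e hk'
      have b : θ ≤ η ^ k := h4.trans (pow_le_pow_of_le_one h1 h2 hk')
      have c : η ^ k ≤ 1 := pow_le_one₀ h1 h2
      have d : (k : ℝ) * r ≤ dV N D * r := by gcongr
      have d0 : 0 ≤ (k : ℝ) * r := by positivity
      have f : |sg k ν - cen k| ≤ |sg k ν' - cen k| + (sg k ν + k * r - sg k ν') + k * r :=
        abs_le.2 ⟨by linarith [neg_abs_le (sg k ν' - cen k)],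
          by linarith [le_abs_self (sg k ν' - cen k)]⟩
      nlinarith [mul_le_mul_of_nonneg_left f h3, mul_le_mul_of_nonneg_right b (sub_nonneg.2 a),
        mul_le_mul_of_nonneg_right c d0, mul_le_mul_of_nonneg_right (b.trans c) d0]
  simp only [sum_add_distrib, ← mul_sum, sum_const, card_range, nsmul_eq_mul] at this
  push_cast at this
  unfold Psi pen
  linarith

theorem opd_dn {Ω W : Type} {P : FP Ω} {Q : FP W} {π : W → Ω} {g : Sh N Ω} {M c : ℕ}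
    {S : Ω → Dc N D} {e b : ℝ} (h : Opd η θ P g M c S e) (d : Dn b Q π P) :
    Opd η θ Q (g.pull π) M c (fun v => S (π v)) (e + Real.log b) := fun W' Q' π' b' K d' v => by
  have := h W' Q' (fun v => π (π' v)) (b' * b) K (d'.trans d) v
  rw [Real.log_mul (one_pos.trans_le d'.one_le).ne' (one_pos.trans_le d.one_le).ne'] at this
  linarith

/-- Filling against optimality. -/
theorem low {E' : ℕ} (f : FILL N E E' D) {ε : ℝ} (hε : 0 < ε) : ∃ m₀ : ℕ, ∀ (η θ e : ℝ)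
    (Ω Λ : Type) (P : FP Ω) (g : Sh N Ω) (M c : ℕ) (S : Ω → Dc N D) (T : Ω → Λ) (A : Ω → Dc N D)
    (Φ : Ω → Ch N D) (m : Ω → ℕ), 0 ≤ η → η ≤ 1 → 0 ≤ θ → θ ≤ η ^ dV N D → g.Box P →
    Opd η θ P g M c S e → Val P g M c A → Fn P (fun ω => (A ω, Φ ω, m ω)) (g.cx c T) →
    (∀ ω ∈ P.S, m₀ ≤ m ω ∧ Lo E (Φ ω) ∧ (A ω).Wit M c (g.l ω) (Φ ω)) → ∀ᶠ J in atTop,
    cst η P g c S ≤ ch P T (g.zc c) - gap P g M c J T Φ m - P.E (fun ω => sco η (A ω)) +
      θ * P.E (fun ω => dsp (A ω).ν (S ω).ν) + e + ε * P.E fun ω => m ω := by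
  set K : ℝ := 2 * (dV N D + 1) * dV N D with hK
  have K0 : 0 ≤ K := by positivity
  obtain ⟨m₀, h⟩ := f (ε / (K + 1)) (by positivity)
  refine ⟨m₀, fun η θ e Ω Λ P g M c S T A Φ m h1 h2 h3 h4 hb o v fn H => ?_⟩
  filter_upwards [h Ω Λ P g M c T A Φ m hb v fn H] with J ⟨W, Q, π, R, l, vR, k1, k2⟩
  have a1 := o W Q π 1 R (K31.dn_law l) vR
  have a2 : ch Q R ((g.pull π).zc c) ≤ ch Q (fun v => (R v, T (π v))) ((g.pull π).zc c) :=
    ch_mono ((Fn.fst _ _).left _)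
  have a3 : Q.E (fun v => Psi η (A (π v)).ν + θ * dsp (R v).ν (S (π v)).ν) ≤ Q.E fun v =>
      Psi η (R v).ν + θ * dsp (A (π v)).ν (S (π v)).ν + K * (ε / (K + 1)) * m (π v) :=
    Q.E_mono fun u hu => (psi_dsp (vR u hu).2.hb (v _ (l.mem hu)).2.hb (k1 u hu).2
      (by positivity) h1 h2 h3 h4 _).trans_eq (by rw [mul_assoc K]; rfl)
  have a4 : ch Q (fun v => S (π v)) ((g.pull π).zc c) = ch P S (g.zc c) := l.ch_eq S (g.zc c)
  have a5 : ε * P.E (fun ω => (m ω : ℝ)) = (K * (ε / (K + 1)) + ε / (K + 1)) * P.E fun ω => m ω := by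
    congr 1; field_simp
  simp only [cst, sco, FP.E_add, FP.E_mul, Real.log_one, a4] at a1 a3 ⊢
  rw [l fun ω => Real.log (S ω).J, l fun ω => Psi η (S ω).ν] at a1
  rw [l fun ω => Psi η (A ω).ν, l fun ω => dsp (A ω).ν (S ω).ν, l fun ω => (m ω : ℝ)] at a3
  simp only [id] at a1 a3
  linarith

end Pool.Agent.MP_5168f5_an.QA.Tp
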