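import Pool.Agent.MP_5168f5_an.QA.TopA

/-! The finite form of the estimate for a foreign frame. -/

namespace Pool.Agent.MP_5168f5_an.QA.Tp

open H19 H17S H17F R4 AN Filter MvPolynomial Finset
open C1 (Hb)
open Nc (Pl ev jac)

variable {N D E E' : ℕ}

theorem dV_pos (N E : ℕ) : 0 < dV N E := Module.finrank_pos_iff_exists_ne_zero.2
  ⟨⟨1, by simp [mem_restrictTotalDegree]⟩, fun e => one_ne_zero (congrArg Subtype.val e)⟩

/-- A context that knows a norm and a frame with a large Jacobian is expensive. -/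
theorem topF (hE : E ≤ D) (cn : CNTF N D) (f : FILL N E E' D) (D' : ℕ) {ε : ℝ} (hε : 0 < ε) :
    ∃ C : ℝ, ∀ (η θ e j₀ la R : ℝ) (Ω Λ : Type) (P : FP Ω) (g : Sh N Ω) (M c : ℕ)
    (S : Ω → Dc N D) (T : Ω → Λ) (ν : Ω → VD N D → ℝ) (Ψ : Ω → Fin (N + 1) → Pl (N + 1)),
    0 ≤ η → η ≤ 1 → 0 ≤ θ → θ ≤ η ^ dV N D → 0 ≤ R → la ≤ j₀ + R → g.Box P →
    Opd η θ P g M c S e → Fn P (fun ω => (ν ω, Ψ ω)) (g.cx c T) →
    (∀ ω ∈ P.S, Hb (ν ω) ∧ (∀ y ∈ seg M c (g.l ω) (g.zc c ω) 5, ∀ F, |eval y F.1| ≤ ν ω F) ∧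
      (∃ Φ, Lo E Φ ∧ (∀ i, ν ω (Φ i) ≤ Real.exp R) ∧
        ∃ y ∈ seg M c (g.l ω) (g.zc c ω) 4, Real.exp j₀ ≤ jc Φ y) ∧
      (∀ Φ, Un (ν ω) Φ → ∀ y ∈ seg M c (g.l ω) (g.zc c ω) 4, jc Φ y ≤ Real.exp (j₀ + R)) ∧
      (∀ i, (Ψ ω i).totalDegree ≤ D') ∧
      (∀ y ∈ seg M c (g.l ω) (g.zc c ω) 4, ‖ev (Ψ ω) y‖ ≤ 1) ∧
      ∃ y ∈ seg M c (g.l ω) (g.zc c ω) 4, Real.exp la ≤ |eval y (jac (Ψ ω))|) →
    cst η P g c S ≤ ch P T (g.zc c) - la - P.E (fun ω => Psi η (ν ω)) +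
      θ * P.E (fun ω => dsp (ν ω) (S ω).ν) + e + ε * R + C := by
  obtain ⟨C, -, hC⟩ := cn D'
  set δ : ℝ := ε / (4 * (N + 2)) with hδ
  have δ0 : 0 < δ := by positivity
  obtain ⟨m₀, hm⟩ := low f δ0
  choose b hb using lowb (N := N) hE
  set d : ℝ := (N + 1) * dV N E with hd
  have d0 : 0 ≤ d := by positivity
  refine ⟨C + 1 + Real.log (Fintype.card (Fin (N + 1) → Fin (dV N E))) + δ * (m₀ + 2 * d + 1) +
    2 * (δ * (d + 4) - Real.log δ),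
    fun η θ e j₀ la R Ω Λ P g M c S T ν Ψ h1 h2 h3 h4 R0 hl bx o fn H => ?_⟩
  set K : ℝ := d + (N + 2) * R with hK
  have K0 : 0 ≤ K := by positivity
  have key : ∀ ω, ∃ (I : Fin (N + 1) → Fin (dV N E)) (j : ℤ), ω ∈ P.S →
      (∃ y ∈ seg M c (g.l ω) (g.zc c ω) 4, Real.exp j ≤ jc (fun i => b (ν ω) (I i)) y) ∧
      (∀ y ∈ seg M c (g.l ω) (g.zc c ω) 4, jc (fun i => b (ν ω) (I i)) y ≤ Real.exp (j + 1)) ∧
      j₀ + R ≤ j + 1 + K ∧ j ≤ j₀ + R := fun ω => by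
    by_cases hω : ω ∈ P.S
    swap
    · exact ⟨fun _ => ⟨0, dV_pos N E⟩, 0, fun k => absurd k hω⟩
    obtain ⟨k1, -, ⟨Φ, lo, k2, y, y1, y2⟩, k3, -⟩ := H ω hω
    obtain ⟨b1, b2⟩ := hb _ k1
    obtain ⟨I, hI⟩ := b2 Φ _ y lo k2 ((Real.exp_pos _).trans_le y2)
    have u := k3 (fun i => b (ν ω) (I i)) fun i => (b1 _).1
    obtain ⟨j, ⟨x, x1, x2⟩, j2⟩ := NJ.bin (· ∈ seg M c (g.l ω) (g.zc c ω) 4) _ u y1
      (pos_of_mul_pos_right ((Real.exp_pos _).trans_le (y2.trans hI)) (by positivity))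
    refine ⟨I, j, fun _ => ⟨⟨x, x1, x2⟩, j2, ?_, Real.exp_le_exp.1 (x2.trans (u x x1))⟩⟩
    have p : ((dV N E : ℝ) * Real.exp R) ^ (N + 1) ≤ Real.exp (d + (N + 1) * R) := by
      rw [hd, ← mul_add, ← Nat.cast_succ, Real.exp_nat_mul, Real.exp_add]
      gcongr
      linarith [Real.add_one_le_exp (dV N E : ℝ)]
    have := (y2.trans hI).trans (mul_le_mul p (j2 y y1) (abs_nonneg _) (Real.exp_pos _).le)
    rw [← Real.exp_add, Real.exp_le_exp] at this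
    linarith
  choose I j hj using key
  set m : ℕ := m₀ + ⌈2 * K⌉₊ with hm'
  have fn' : Fn P (fun ω => (ν ω, Ψ ω, I ω, j ω, g.zc c ω)) (g.cx c fun ω => (T ω, I ω, j ω)) :=
    fun u hu v hv e => by
      simp only [Sh.cx, Prod.mk.injEq] at e
      have := fn u hu v hv (Prod.ext e.1.1 e.2)
      simp only [Prod.mk.injEq] at this ⊢
      exact ⟨this.1, this.2, e.1.2.1, e.1.2.2, e.2⟩
  obtain ⟨J, a1⟩ := (hm η θ e Ω _ P g M c S (fun ω => (T ω, I ω, j ω))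
    (fun ω => ⟨ν ω, Real.exp (j ω), g.zc c ω⟩) (fun ω i => b (ν ω) (I ω i)) (fun _ => m) h1 h2 h3 h4
    bx o (fun ω hω => ⟨rfl, (H ω hω).1, Real.exp_pos _, (H ω hω).2.1, _,
      fun i => ((hb _ (H ω hω).1).1 _).1, (hj ω hω).1⟩)
    ((Fn.comp (fun t => ((⟨t.1, Real.exp t.2.2.2.1, t.2.2.2.2⟩ : Dc N D),
      fun i => b t.1 (t.2.2.1 i), m)) _).trans fn') fun ω hω => ⟨Nat.le_add_right _ _, fun i => ((hb _ (H ω hω).1).1 _).2,
      fun i => ((hb _ (H ω hω).1).1 _).1, (hj ω hω).1⟩).exists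
  have a2 := hC Ω _ P g M c J (fun ω => (T ω, I ω, j ω)) Ψ (fun ω i => b (ν ω) (I ω i))
    (fun _ => m) (fun _ => Real.exp la) (fun ω => Real.exp (j ω + 1)) bx
    ((Fn.comp (fun t => (t.2.1, fun i => b t.1 (t.2.2.1 i), m, Real.exp la,
      Real.exp (t.2.2.2.1 + 1))) _).trans fn') fun ω hω => by
      obtain ⟨k1, k2, -, -, k3, k4, k5⟩ := H ω hω
      exact ⟨Real.exp_pos _, Real.exp_pos _, k3, k4, k5, fun y hy =>
        ⟨(pi_norm_le_iff_of_nonneg zero_le_one).2 fun i => (k2 y (seg_mono (by norm_num) hy) _).trans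
          ((hb _ k1).1 _).1, (hj ω hω).2.1 y (seg_mono (by norm_num) hy)⟩⟩
  have m1 : 2 * K ≤ m := (Nat.le_ceil _).trans (by exact_mod_cast Nat.le_add_left _ _)
  have m2 : (m : ℝ) ≤ m₀ + 2 * K + 1 := by
    rw [hm']; push_cast; linarith [Nat.ceil_lt_add_one (show 0 ≤ 2 * K by positivity)]
  have l2 : 1 / 2 ≤ lg := by unfold lg; linarith [Real.log_two_gt_d9]
  rw [P.E_congr (G := fun ω => la - 1 - j ω) fun ω hω => by
    rw [Real.log_exp, Real.log_exp, min_eq_right (by nlinarith [(hj ω hω).2.2.1])]; ring] at a2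
  have a3 := ch_subadd (P := P) T (fun ω => (I ω, j ω)) (g.zc c)
  have a4 := ch_subadd (P := P) I j (g.zc c)
  have a5 := (ch_le_hh (P := P) I (g.zc c)).trans (NJ.hh_fin I)
  have a6 : hh P j ≤ 2 * Real.log (K + 2 + 2) :=
    (hh_mono (g := fun ω => (⌊j₀ + R⌋ - j ω).toNat) fun u hu v hv e => by
      have := Int.le_floor.2 (hj u hu).2.2.2
      have := Int.le_floor.2 (hj v hv).2.2.2
      simp only at e
      omega).trans (MX.hh_nat _ ((P.E_mono fun ω hω => by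
        have := Int.le_floor.2 (hj ω hω).2.2.2
        rw [← Int.cast_natCast, Int.toNat_of_nonneg (by omega)]
        push_cast
        linarith [Int.floor_le (j₀ + R), (hj ω hω).2.2.1]).trans_eq (P.E_const _)))
  have a7 := Real.log_le_sub_one_of_pos (show 0 < δ * (K + 2 + 2) by positivity)
  rw [Real.log_mul δ0.ne' (by positivity)] at a7
  have a8 := ch_le_hh (P := P) j (g.zc c)
  have a9 : ε * R = 4 * (δ * ((N + 2) * R)) := by rw [hδ]; field_simp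
  simp only [sco, Real.log_exp, FP.E_add, FP.E_sub, FP.E_const] at a1 a2
  nlinarith [mul_le_mul_of_nonneg_left m2 δ0.le]

end Pool.Agent.MP_5168f5_an.QA.Tp
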