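import Pool.Agent.MP_5168f5_an.QA.Tq
import Pool.Agent.MP_5168f5_an.QA.T1Cl
import Pool.Agent.MP_5168f5_an.QA.HPoly
import Pool.Agent.MP_5168f5_an.QA.Dich
import Pool.Agent.MP_5168f5_an.AN.PCnt
import Pool.Agent.MP_5168f5_an.AN.NcTay

/-! The maximal estimate in all dimensions: the orbit chart from the true points. -/

namespace Pool.Agent.MP_5168f5_an.QA.Tq

open H19 H17S H17F R4 AN Filter MvPolynomial Matrix
open Ch (SChart)
open Nc (Pl jac)
open G39 (dl)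
open En (tb)

/-- Light values leave room outside a small set. -/
theorem ex_out {Ω Λ : Type} {P : FP Ω} {X : Ω → ℝ} {K : Ω → Λ} {k : ℕ} {b : ℝ}
    (h : Ht k P X K 0 (b ^ 2 ^ k)) (hb : 0 ≤ b) (T : Finset ℤ) (hT : T.card * b < 1) {ω : Ω}
    (hω : ω ∈ P.S) : ∃ v ∈ P.S, K v = K ω ∧ ⌊X v⌋ ∉ T := by
  obtain ⟨G, a, e⟩ := h
  by_contra c
  push Not at c
  have g : ∀ v ∈ P.S, G v := fun v hv => by
    by_contra u
    exact (pb_pos P (E := fun ω => ¬G ω) ⟨v, hv, u⟩).not_ge a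
  have h1 : pb (cv P K (K ω)) (fun v => G v ∧ ⌊X v⌋ ∈ T) = 1 := pb_one fun v hv =>
    ⟨g v ((MX.mem_cv hω v).1 hv).1, c v ((MX.mem_cv hω v).1 hv).1 ((MX.mem_cv hω v).1 hv).2⟩
  rw [pb_mem] at h1
  refine hT.not_ge (h1.ge.trans ((Finset.sum_le_card_nsmul _ _ b fun y _ => ?_).trans (by simp)))
  rw [← sl_coeff]
  exact (pow_le_pow_iff_left₀ (nn_sl _ _ _ y) hb (pow_pos two_pos k).ne').1
    ((e ω hω).low (nn_sl _ _ _) y)

/-- A polynomial on the interval is controlled by its value at some true height. -/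
theorem ex_ht {Ω Λ : Type} {P : FP Ω} {z : Ω → ℝ} {K : Ω → Λ} {k c c' d : ℕ} {b : ℝ} (hc : c ≤ c')
    (h : Ht k P (fun ω => 2 ^ c' * z ω) K 0 (b ^ 2 ^ k)) (hb : 0 ≤ b) (hd : 3 * d * b < 1)
    (p : Polynomial ℝ) (hp : p.natDegree ≤ d) {ω : Ω} (hω : ω ∈ P.S) : ∃ v ∈ P.S, K v = K ω ∧
      ∀ t, |t - z v| ≤ 1 / 2 ^ c → |p.eval t| ≤ (2 * 2 ^ (c' - c)) ^ d * |p.eval (z v)| := by
  obtain ⟨r, hr⟩ := rootsR d p
  obtain ⟨v, hv, e, o⟩ := ex_out h hb ((Finset.range d).biUnion fun i =>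
    Finset.Icc (⌊2 ^ c' * r i⌋ - 1) (⌊2 ^ c' * r i⌋ + 1)) (lt_of_le_of_lt (by
      refine mul_le_mul_of_nonneg_right ?_ hb
      have := Finset.card_biUnion_le_card_mul (Finset.range d) (fun i =>
        Finset.Icc (⌊2 ^ c' * r i⌋ - 1) (⌊2 ^ c' * r i⌋ + 1)) 3 fun i _ => by simp; omega
      rw [Finset.card_range, mul_comm] at this
      exact_mod_cast this) hd) hω
  have p1 : (0 : ℝ) < 2 ^ c' := by positivity
  refine ⟨v, hv, e, fun t ht => ?_⟩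
  have := hr hp (z v) t (1 / 2 ^ c') (1 / 2 ^ c) (by positivity)
    (one_div_le_one_div_of_le (by positivity) (pow_le_pow_right₀ one_le_two hc)) ht fun i hi => by
      simp only [Finset.mem_biUnion, Finset.mem_range, Finset.mem_Icc, not_exists, not_and,
        not_le] at o
      have a1 := Int.floor_le (2 ^ c' * z v)
      have a2 := Int.lt_floor_add_one (2 ^ c' * z v)
      have a3 := Int.floor_le (2 ^ c' * r i)
      have a4 := Int.lt_floor_add_one (2 ^ c' * r i)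
      rw [div_le_iff₀ p1, ← abs_of_pos p1, ← abs_mul, le_abs]
      by_cases u : ⌊2 ^ c' * r i⌋ - 1 ≤ ⌊2 ^ c' * z v⌋
      · have : (⌊2 ^ c' * r i⌋ : ℝ) + 1 + 1 ≤ ⌊2 ^ c' * z v⌋ := by exact_mod_cast o i hi u
        exact .inl (by linarith)
      · have : (⌊2 ^ c' * z v⌋ : ℝ) + 1 + 1 ≤ ⌊2 ^ c' * r i⌋ := by
          have : ⌊2 ^ c' * z v⌋ + 1 + 1 ≤ ⌊2 ^ c' * r i⌋ := by omega
          exact_mod_cast this
        exact .inr (by linarith)
  have e2 : (2 * (1 / 2 ^ c) : ℝ) = 2 * 2 ^ (c' - c) * (1 / 2 ^ c') := by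
    obtain ⟨j, rfl⟩ := Nat.exists_eq_add_of_le hc
    rw [Nat.add_sub_cancel_left, pow_add]
    field_simp
  rw [e2, mul_pow, mul_right_comm] at this
  exact le_of_mul_le_mul_right this (by positivity)

variable {N D : ℕ} (X : ℕ → St N D) (x : ℚ)

/-- The point at the true height with the lateral parameter `ξ`. -/
noncomputable def fp (n : ℕ) (ω : (X n).Ω) (ξ : V N) : V (N + 1) :=
  tb (X n).M ((X n).g.a ω) ((X n).g.e ω) ((X n).g.z ω) ξ

/-- The fibre of the tube at the true height. -/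
def fib (n : ℕ) (ω : (X n).Ω) : Set (V (N + 1)) := {y | ∃ ξ, ‖ξ‖ ≤ 4 ∧ y = fp X n ω ξ}

/-- Polynomials on the tube are controlled on the fibres of the piece. -/
def PH : Prop := ∀ (d : ℕ) (ε : ℝ), 0 < ε → ∀ᶠ n in UF, ∀ ω ∈ (X n).P.S, ∀ F : Pl (N + 1),
  F.totalDegree ≤ d → ∀ y ∈ sg4 X x n ω, ∃ v ∈ (X n).P.S, (X n).O x v = (X n).O x ω ∧
    ∃ y' ∈ fib X n v, |eval y F| ≤ Real.exp (ε * (X n).u) * |eval y' F|

variable {X x}

theorem ph {E : ℕ} {η θ β js Γ : ℝ} {kf : ℕ → ℕ} {sl : ℕ → ℝ} (h : Ts X E η θ β js Γ kf sl)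
    (x : ℚ) : PH X x := fun d ε hε => by
  obtain ⟨δ, d0, d1⟩ := exists_rat_btwn (show 0 < ε / (3 * (d + 1)) by positivity)
  have d2 : (0 : ℝ) < δ := d0
  have l0 := lg_pos
  have l1 := lg_lt_one
  have p2 : (0 : ℝ) < 2 ^ kf 1 := by positivity
  filter_upwards [h.hs 1 x (x + δ) (δ * lg / 8) (by positivity),
    h.toTq.lev x (x + δ) (half_pos d2), h.toTq.loc x (x + δ) 1 one_pos,
    big_exp h.big (3 * d + 1) (η := δ * lg / 8 / 2 ^ kf 1) (by positivity),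
    big_exp h.big 2 d2] with n a b c e f ω hω F hF y hy
  obtain ⟨t, ξ, t1, t2, k, rfl⟩ := hy
  have hc := c.mono (by exact_mod_cast (le_add_iff_nonneg_right (x : ℝ)).2 d2.le)
  have u0 : (0 : ℝ) ≤ (X n).u := Nat.cast_nonneg _
  obtain ⟨b1, b2⟩ := abs_le.1 b
  push_cast at b1 b2
  obtain ⟨p, p1, p3⟩ := Pk.PCntA.line d F (tb (X n).M ((X n).g.a ω) ((X n).g.e ω) 0 ξ)
    (Fin.cons 1 ((X n).g.e ω)) hF
  have p4 : ∀ s, eval (tb (X n).M ((X n).g.a ω) ((X n).g.e ω) s ξ) F = p.eval s := fun s => by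
    rw [← p3]
    congr 2
    funext i
    refine Fin.cases ?_ (fun i => ?_) i <;> simp [tb]
    ring
  obtain ⟨v, hv, e1, e2⟩ := ex_ht (b := Real.exp (-(δ * lg / 8 / 2 ^ kf 1 * (X n).u))) hc
    (Ht.mono a le_rfl (by
      rw [neg_mul_eq_neg_mul (δ * lg / 8 / 2 ^ kf 1), neg_div', exp_pow, Real.exp_le_exp]
      have := mul_le_mul_of_nonneg_right (show δ / 2 * (X n).u ≤
        ((X n).lv (x + δ) : ℝ) - (X n).lv x by linarith) l0.le
      push_cast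
      linarith)) (Real.exp_pos _).le (by
      rw [Real.exp_neg, mul_inv_lt_iff₀ (Real.exp_pos _)]
      linarith) p p1 hω
  have e3 : (X n).g.a v = (X n).g.a ω := congrArg (fun o => o.1.1) e1
  have e4 : (X n).g.e v = (X n).g.e ω := congrArg (fun o => o.1.2) e1
  have e5 : fl1 ((X n).lv x) ((X n).g.z v) = (X n).g.zc ((X n).lv x) ω := congrArg Prod.snd e1
  refine ⟨v, hv, e1, _, ⟨ξ, k, rfl⟩, ?_⟩
  rw [fp, e3, e4]
  simp only [Sh.l]
  rw [p4, p4]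
  have p5 : (0 : ℝ) < 2 ^ (X n).lv x := by positivity
  refine (e2 t ?_).trans (mul_le_mul_of_nonneg_right ?_ (abs_nonneg _))
  · have a1 := Int.floor_le (2 ^ (X n).lv x * (X n).g.z v)
    have a2 := Int.lt_floor_add_one (2 ^ (X n).lv x * (X n).g.z v)
    rw [← e5, fl1] at t1 t2
    rw [le_div_iff₀ p5, ← abs_of_pos p5, ← abs_mul, abs_le]
    constructor <;> linarith
  · have a1 : (2 : ℝ) ^ ((X n).lv (x + δ) - (X n).lv x) ≤ Real.exp (2 * δ * (X n).u) := by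
      rw [← Real.exp_log (show (0 : ℝ) < 2 ^ ((X n).lv (x + δ) - (X n).lv x) by positivity),
        log_two_pow, Real.exp_le_exp, Nat.cast_sub hc]
      have : (0 : ℝ) ≤ δ * (X n).u := by positivity
      have : ((X n).lv x : ℝ) ≤ (X n).lv (x + δ) := by exact_mod_cast hc
      nlinarith
    refine (pow_le_pow_left₀ (by positivity) (mul_le_mul f a1 (by positivity) (by positivity))
      d).trans ?_
    rw [← Real.exp_add, ← Real.exp_nat_mul, Real.exp_le_exp]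
    rw [lt_div_iff₀ (by positivity)] at d1
    nlinarith [mul_le_mul_of_nonneg_right d1.le u0, mul_nonneg d2.le u0]

theorem fib_sub {n : ℕ} {ω : (X n).Ω} : fib X n ω ⊆ sg4 X x n ω := by
  rintro _ ⟨ξ, k, rfl⟩
  exact ⟨_, ξ, Int.floor_le _, (Int.lt_floor_add_one _).le, k, rfl⟩

variable {m : ℕ} {κ : Type} [Fintype κ]

variable (X x) in
/-- The orbit data on the fibres at the true heights. -/
def Orb0 (d : ∀ n, (X n).Ω → Fd N D m κ) (K q : ℝ) : Prop := ∀ R : ℝ,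
  Fr.Su (PP X) (uu X) fun n ω Γ => (d n ω).Alg Γ (Γ * Real.exp (K * (X n).u)) ∧
    (d n ω).Ob ((X n).S x ω).ν (fib X n ω) (fib X n ω) Γ (dl (uu X) R n)
      (Γ * Real.exp (q * (X n).u))

variable {x' : ℚ} {Λ Λ' : ℕ → Type} {ν' : ∀ n, (X n).Ω → VD N D → ℝ} {r K q : ℝ}
  {d : ∀ n, (X n).Ω → Fd N D m κ} {T : ∀ n, (X n).Ω → Λ n}

/-- The information of the fine label about the line, given the coarse label. -/
theorem top0 (hS : SChart) {E : ℕ} {η θ β js Γ : ℝ} {kf : ℕ → ℕ} {sl : ℕ → ℝ}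
    (k : Ts X E η θ β js Γ kf sl) (hx : x' ≤ x) (h : TopAt X x x' ν' r) (hm : 0 < m) (hK : 0 ≤ K)
    (o : Orb0 X x d K q) (fd : FnE (PP X) (fun n ω => (ν' n ω, d n ω)) T)
    (fT : FnE (PP X) T fun n => (X n).O x')
    (fz : FnE (PP X) (fun n => (X n).g.zc ((X n).lv x')) T) {S : ∀ n, (X n).Ω → Λ' n}
    (hs : Sm (uu X) fun n => ch (X n).P (fun ω => (S n ω, T n ω)) ((X n).S x)) :
    Le (uu X) (fun n => mi (X n).P (X n).g.l (S n) (T n)) fun n => (q - r) * (X n).u := by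
  obtain ⟨D', L, Θ, sL, H⟩ := charts hS k.big hm hK o
  obtain ⟨L₁, s1, H1⟩ := Di.sub_of (p := fun n L => ∀ ω ∈ (X n).P.S, ∀ F : Pl (N + 1),
    F.totalDegree ≤ D' → ∀ y ∈ sg4 X x' n ω, ∃ v ∈ (X n).P.S, (X n).O x' v = (X n).O x' ω ∧
      ∃ y' ∈ fib X n v, |eval y F| ≤ L * |eval y' F|) (ph k x' D')
  obtain ⟨L₂, s2, H2⟩ := Di.sub_of (p := fun n L => ∀ ω ∈ (X n).P.S, ∀ F : Pl (N + 1),
    F.totalDegree ≤ (N + 1) * D → ∀ y ∈ sg4 X x n ω, ∃ v ∈ (X n).P.S, (X n).O x v = (X n).O x ω ∧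
      ∃ y' ∈ fib X n v, |eval y F| ≤ L * |eval y' F|) (ph k x _)
  refine info (lines0 k.big h hm (fd.mono fun _ a => a.left _) (D' := D') (Θ := Θ)
    ((s1.mul s2).mul sL) ?_) fT fz hs
  filter_upwards [H, H1, H2, k.toTq.loc x' x 1 one_pos, k.toTq.loc x x 1 one_pos, fd, fT,
    k.toTq.nest hx] with n a a1 a2 b b' f1 f2 f3 ω hω
  have ed : ∀ v ∈ (X n).P.S, (X n).O x' v = (X n).O x' ω → d n v = d n ω := fun v hv e =>
    congrArg Prod.snd (f1 v hv ω hω (f2 v hv ω hω e))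
  refine ⟨(a ω hω).1, fun y hy i => ?_, ?_⟩
  · obtain ⟨v, hv, e, y', hy', e'⟩ := a1 ω hω _ ((a ω hω).1 i) y hy
    have := (a v hv).2.1 y' hy' i
    rw [ed v hv e] at this
    exact e'.trans (mul_le_mul (le_mul_of_one_le_right (s1.pos n).le (s2.1 n)) this (abs_nonneg _)
      ((s1.mul s2).pos n).le)
  · obtain ⟨Φ, u, y, hy, e⟩ := (b'.val ω hω).2.wit
    rw [(b'.val ω hω).1] at hy
    obtain ⟨v, hv, e1, y', hy', e'⟩ := a2 ω hω _ (Nc.deg_jac fun i => C1.deg_PD (Φ i)) y hy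
    have e2 := f3 v hv ω hω e1
    obtain ⟨I, e3⟩ := (a v hv).2.2 Φ (by rwa [b'.fn v hv ω hω e1]) y' hy'
    rw [ed v hv e2] at e3
    have e4 : sg4 X x' n v = sg4 X x' n ω := by
      rw [sg4, sg4, show (X n).g.l v = (X n).g.l ω from congrArg Prod.fst e2,
        show (X n).g.zc ((X n).lv x') v = (X n).g.zc ((X n).lv x') ω from congrArg Prod.snd e2]
    refine ⟨I, y', e4 ▸ fib_sub hy', (e.trans e').trans
      ((mul_le_mul_of_nonneg_left e3 (s2.pos n).le).trans ?_)⟩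
    rw [← mul_assoc, ← mul_assoc]
    refine mul_le_mul_of_nonneg_right (mul_le_mul_of_nonneg_right (mul_le_mul_of_nonneg_right
      (le_mul_of_one_le_left (s2.pos n).le (s1.1 n)) (sL.pos n).le) (Real.exp_pos _).le)
      (abs_nonneg _)

end Pool.Agent.MP_5168f5_an.QA.Tq
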