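import Pool.Agent.MP_5168f5_an.QA.Tq
import Pool.Agent.MP_5168f5_an.QA.Let2
import Pool.Agent.MP_5168f5_an.QA.OrbSpec
import Pool.Agent.MP_5168f5_an.QA.FrAlg

/-! The maximal estimate in all dimensions: the frame of the orbit chart, finite part. -/

namespace Pool.Agent.MP_5168f5_an.QA.Tq

open H19 H17S H17F R4 AN AN.N6 Matrix IsNilpotent Finset Lt
open GA (Mt IsFr ex cm sMul)
open N2 (El tri)
open Ob (Vb Al Bo)
open Ch (Orb)
open Fr (act)

variable {N D m : ℕ} {κ J : Type}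

theorem vb_mono {a b : ℝ} {v : Fin m → ℝ} (h : Vb a v) (e : a ≤ b) : Vb b v :=
  fun q => (h q).trans e

theorem vb_add {a b : ℝ} {v w : Fin m → ℝ} (h : Vb a v) (h' : Vb b w) : Vb (a + b) (v + w) :=
  fun q => (abs_add_le _ _).trans (add_le_add (h q) (h' q))

theorem vb_mv {a b : ℝ} {A : Mt (Fin m)} {v : Fin m → ℝ} (h : Eb a A) (h' : Vb b v) (a0 : 0 ≤ a)
    (b0 : 0 ≤ b) : Vb ((m + 1) * a * b) (A *ᵥ v) := fun p =>
  Cb.mul (o := p) (Y := of fun q _ => v q) h h' a0 b0 p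

theorem vb_vm {a b : ℝ} {A : Mt (Fin m)} {v : Fin m → ℝ} (h' : Vb b v) (h : Eb a A) (b0 : 0 ≤ b)
    (a0 : 0 ≤ a) : Vb ((m + 1) * b * a) (v ᵥ* A) := fun p =>
  Cb.mul (o := p) (X := of fun _ q => v q) (fun q _ => h' q) (h p) b0 a0 p

theorem vb_one (o : Fin m) : Vb 1 (Pi.single o 1) := fun q => by
  rw [Pi.single_apply]; split_ifs <;> simp

variable [Fintype κ] [Fintype J] (kk : Fin m → ℝ) (B : κ → Mt (Fin m)) (lv : κ → Prop)
  (ρ : κ → ℝ) (f : J → Mt (Fin m))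

/-- The letters: the live part of the box and the matrices `f`. -/
noncomputable def lt : {a // lv a} ⊕ J → Mt (Fin m) := Sum.elim (fun a => ρ a • B a) f

open Classical in
/-- The frame of the chart. -/
noncomputable def fd (η W : ℝ) (q : Fin m → ℝ) (E : Fin m → VD N D) : Fd N D m (El kk) :=
  ⟨kk, fb kk η W (lt B lv ρ f), fc kk η W (lt B lv ρ f), q, E⟩

variable {kk B lv ρ f} {c : κ → κ → κ → ℝ} {L W θ η : ℝ}

open Classical in
theorem ap (h : Al kk B c lv ρ f L W θ) (e1 : (Fintype.card κ + 1) * W ^ 3 * θ ≤ η)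
    (e2 : η * (2 * (L * W)) ^ m ≤ 1) : Ap kk η (L * W) (lt B lv ρ f) L := by
  have w1 := h.one.trans h.le
  have l1 := h.one
  have t0 := h.pos
  have k0 : (0 : ℝ) ≤ Fintype.card κ := Nat.cast_nonneg _
  have w3 : W ≤ W ^ 3 := le_self_pow₀ w1 (by norm_num)
  have a0 : W ^ 3 * θ ≤ η := by nlinarith [mul_nonneg k0 (show 0 ≤ W ^ 3 * θ by positivity)]
  have a1 : W * θ ≤ η := (mul_le_mul_of_nonneg_right w3 t0.le).trans a0
  have a2 : θ ≤ η := (le_mul_of_one_le_left t0.le w1).trans a1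
  have r0 : ∀ a, 0 < ρ a := fun a => one_pos.trans_le (h.rho a).1
  have r1 : ∀ a, |ρ a| ≤ W := fun a => (abs_of_pos (r0 a)).trans_le (h.rho a).2
  refine ap_of h.fr lv (t0.trans_le a2) l1 (one_le_mul_of_one_le_of_one_le l1 w1) e2 r0 h.mf
    (fun a _ => eb_mono (eb_smul (h.bB a) (r1 a)) (mul_comm _ _).le)
    (fun j => eb_mono (h.bf j) (le_mul_of_one_le_right (by linarith) w1)) h.ll
    (fun a b e p q x y z => ?_) (fun a j x => ?_) fun i j => eb_mono (h.ff i j) a2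
  · have : |c a b e| * ρ a * ρ b * |B e p q| ≤ θ * W * W * W :=
      mul_le_mul (mul_le_mul (mul_le_mul (h.ld a b e x y z) (h.rho a).2 (r0 a).le t0.le)
        (h.rho b).2 (r0 b).le (by positivity)) ((h.bB e q p).trans h.le) (abs_nonneg _)
        (by positivity)
    refine (mul_le_mul_of_nonneg_left this k0).trans (le_trans ?_ e1)
    nlinarith [show 0 ≤ W ^ 3 * θ by positivity]
  · rw [show cm (ρ a • B a) (f j) = ρ a • cm (B a) (f j) by
      simp only [cm, smul_mul_assoc, mul_smul_comm, smul_sub]]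
    exact eb_mono (eb_smul (h.cf a j x) (r1 a)) a1

open Classical in
/-- The frame is exact and moves the base point in a box of the volume of the positions. -/
theorem alg_wt (h : Al kk B c lv ρ f L W θ) (e1 : (Fintype.card κ + 1) * W ^ 3 * θ ≤ η)
    (e2 : η * (2 * (L * W)) ^ m ≤ 1) {q : Fin m → ℝ} (E : Fin m → VD N D) (bq : Vb L q)
    {pos : κ → Prop} (st : ∀ a, lv a → ¬pos a → Vb θ (B a *ᵥ q)) {X : ℝ}
    (hX : (2 ^ (Fintype.card κ + Fintype.card J + m * m) + (Fintype.card κ + Fintype.card J +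
      m * m + m + 1)) * (L * L) ≤ X) :
    (fd kk B lv ρ f η (L * W) q E).Alg X (L * W) ∧ ∃ w : El kk → ℝ, (∀ a, 0 ≤ w a) ∧
      (∀ a p, |((fd kk B lv ρ f η (L * W) q E).b a *ᵥ q) p| ≤ X * w a) ∧
      ∏ a, (1 + w a) ≤ X * ∏ a with pos a, ρ a := by
  have k := ap h e1 e2
  have l1 := h.one
  have w1 := h.one.trans h.le
  have t0 := h.pos
  have m0 : (0 : ℝ) ≤ m := Nat.cast_nonneg _
  have k0 : (0 : ℝ) ≤ Fintype.card κ := Nat.cast_nonneg _
  have j0 : (0 : ℝ) ≤ Fintype.card J := Nat.cast_nonneg _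
  have c1 : Fintype.card ({a // lv a} ⊕ J) + Fintype.card (El kk) ≤
      Fintype.card κ + Fintype.card J + m * m := by
    rw [Fintype.card_sum]
    exact add_le_add (add_le_add (Fintype.card_subtype_le _) le_rfl) (card_el kk)
  have c2 : (Fintype.card ({a // lv a} ⊕ J) + Fintype.card (El kk) : ℝ) ≤
      Fintype.card κ + Fintype.card J + m * m := by exact_mod_cast c1
  have l2 : L ≤ L * L := le_mul_of_one_le_right (by linarith) l1
  have p2 : (1 : ℝ) ≤ 2 ^ (Fintype.card κ + Fintype.card J + m * m) := one_le_pow₀ one_le_two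
  have mm : (0 : ℝ) ≤ m * m := by positivity
  have x1 : (m + 1) * L * L ≤ X := le_trans (by
    rw [mul_assoc]; exact mul_le_mul_of_nonneg_right (by linarith) (by linarith)) hX
  have x2 : (Fintype.card κ + Fintype.card J + m * m) * L ≤ X :=
    le_trans (mul_le_mul (by linarith) l2 (by linarith) (by linarith)) hX
  have x3 : L ≤ X := le_trans (by nlinarith) x1
  have x4 : (2 : ℝ) ^ (Fintype.card κ + Fintype.card J + m * m) ≤ X :=
    le_trans ((le_mul_of_one_le_right (by linarith) (l1.trans l2)).trans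
      (mul_le_mul_of_nonneg_right (by linarith) (by linarith))) hX
  have r0 : ∀ a, 0 < ρ a := fun a => one_pos.trans_le (h.rho a).1
  refine ⟨⟨k.fr, fun a b e => (k.fc_le a b e).trans
    ((mul_le_mul_of_nonneg_right c2 (by linarith)).trans x2), k.fb_le,
    fun p => (bq p).trans x3⟩, ?_⟩
  let w : ({a // lv a} ⊕ J) ⊕ El kk → ℝ :=
    Sum.elim (Sum.elim (fun a => if pos a then ρ a else 1) 1) 1
  have w0 : ∀ j, 1 ≤ w j := by
    rintro ((a | j) | e)
    · simp only [w, Sum.elim_inl]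
      split_ifs
      exacts [(h.rho a).1, le_rfl]
    all_goals exact le_rfl
  refine ⟨fun a => w (Lt.sg kk η (L * W) (lt B lv ρ f) a), fun a => zero_le_one.trans (w0 _),
    fun a p => ?_, (k.prod_le fun j => zero_le_one.trans (w0 j)).trans ?_⟩
  · rcases k.fb_or a with ⟨b | j, u, v⟩ | ⟨⟨e, u⟩, v⟩
    · simp only [fd, u, v]
      simp only [w, Sum.elim_inl, lt, smul_mulVec, Pi.smul_apply, smul_eq_mul, abs_mul,
        abs_of_pos (r0 _)]
      split_ifs with z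
      · rw [mul_comm X]
        exact mul_le_mul_of_nonneg_left ((vb_mv (h.bB b) bq (by linarith) (by linarith) p).trans x1)
          (r0 _).le
      · have : η ≤ 1 := (le_mul_of_one_le_right k.pos.le
          (one_le_pow₀ (by linarith [k.wo]))).trans e2
        have w3 : W ≤ W ^ 3 := le_self_pow₀ w1 (by norm_num)
        have := mul_le_mul (h.rho b).2 (st b b.2 z p) (abs_nonneg _) (by linarith)
        nlinarith [mul_nonneg k0 (show 0 ≤ W ^ 3 * θ by positivity),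
          mul_le_mul_of_nonneg_right w3 t0.le]
    · simp only [fd, u, v]
      simp only [w, Sum.elim_inl, Sum.elim_inr, lt, Pi.one_apply, mul_one]
      exact (vb_mv (h.bf j) bq (by linarith) (by linarith) p).trans x1
    · simp only [fd, u, w, Sum.elim_inr, Pi.one_apply, mul_one]
      exact (vb_mv (a := L) (fun q p => (v p q).trans (e2.trans l1)) bq (by linarith)
        (by linarith) p).trans x1
  · have : ∏ j, (1 + w j) ≤ ∏ j, 2 * w j :=
      prod_le_prod (fun j _ => by linarith [w0 j]) fun j _ => by linarith [w0 j]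
    refine this.trans ?_
    rw [prod_mul_distrib, prod_const, card_univ, Fintype.card_sum]
    refine mul_le_mul ((pow_le_pow_right₀ one_le_two c1).trans x4) ?_
      (prod_nonneg fun j _ => zero_le_one.trans (w0 j)) (by linarith)
    simp only [w, Fintype.prod_sum_type, Sum.elim_inl, Sum.elim_inr, Pi.one_apply, prod_const_one,
      mul_one]
    rw [prod_filter, ← Fintype.prod_subtype_mul_prod_subtype lv fun a => if pos a then ρ a else 1]
    refine le_mul_of_one_le_right (prod_nonneg fun a _ => ?_) (one_le_prod fun a _ => ?_) <;>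
      split_ifs
    exacts [(r0 _).le, zero_le_one, (h.rho _).1, le_rfl]

open Classical in
/-- The point lies near the orbit, and the group element is `g` times a bounded matrix. -/
theorem own (m n : ℕ) : ∃ F, PG F ∧ ∀ (κ J : Type) [Fintype κ] [Fintype J] (kk : Fin m → ℝ)
    (B : κ → Mt (Fin m)) (c : κ → κ → κ → ℝ) (lv : κ → Prop) (ρ r : κ → ℝ) (f : J → Mt (Fin m))
    (L W X θ η : ℝ) (q p y : Fin m → ℝ) (g : κ → ℝ),
    Fintype.card κ + Fintype.card J ≤ n → Al kk B c lv ρ f L W θ →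
    (Fintype.card κ + 1) * W ^ 3 * θ ≤ η → η * (2 * (L * W)) ^ m ≤ 1 → Bo lv ρ L θ g → L ≤ X →
    (∀ a, r a ≤ ρ a ∧ L * r a ≤ X) → Ob.Nb B lv 1 f L θ q p → Ob.Nb B lv r f L θ p y →
    ∃ s, Orb (fb kk η (L * W) (lt B lv ρ f)) q (F L) (F X * θ) s (ex B g *ᵥ y) ∧
      Eb (F X) (ex B (-g) * ex (fb kk η (L * W) (lt B lv ρ f)) s) := by
  obtain ⟨f₁, p1, h1⟩ := fwd m n
  obtain ⟨f₂, p2, h2⟩ := mul_box m n
  obtain ⟨f₃, p3, h3⟩ := exp_est m m
  have p4 : PG fun L => f₃ ((n + 1) * (L * L)) := p3.comp ((pg_nat n).mul (pg_id.mul pg_id))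
  have p5 : PG fun L => (m + 1) * f₃ ((n + 1) * (L * L)) := (pg_nat m).mul p4
  have p6 := p2.comp ((pg_id.add p1).add (p2.comp (pg_id.add p1)))
  have p7 := (pg_const one_le_two).mul (p5.pow 4)
  refine ⟨_, p6.add p7, fun κ J _ _ kk B c lv ρ r f L W X θ η q p y g hn h e1 e2 bg lx hr
    ⟨t, ζ, bt, bζ, e3⟩ ⟨z, ξ, bz, bξ, e4⟩ => ?_⟩
  have ap := ap h e1 e2
  have l1 := h.one
  have x0 := l1.trans lx
  have w1 := h.one.trans h.le
  have t0 := h.pos
  have k0 : (0 : ℝ) ≤ Fintype.card κ := Nat.cast_nonneg _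
  have M := sMul _ _ _ _ _ h.fr
  have r0 : ∀ a, 0 < ρ a := fun a => one_pos.trans_le (h.rho a).1
  have hn' : Fintype.card {a // lv a} + Fintype.card J ≤ n :=
    (add_le_add (Fintype.card_subtype_le _) le_rfl).trans hn
  have n1 : (Fintype.card κ : ℝ) ≤ n + 1 := by exact_mod_cast (by omega : _ ≤ n + 1)
  have n2 : (Fintype.card J : ℝ) ≤ n + 1 := by exact_mod_cast (by omega : _ ≤ n + 1)
  have b0 : 1 ≤ (n + 1 : ℝ) * (X * X) := ((pg_nat n).mul (pg_id.mul pg_id)).1 X x0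
  have w3 : 1 ≤ W ^ 3 := one_le_pow₀ w1
  have u1 : ∀ z (ξ : J → ℝ), Bo lv ρ L θ z → (∀ j, |ξ j| ≤ L) →
      ∃ u, (∀ a, |u a| ≤ L + f₁ L) ∧ ex B z * exp (∑ j, ξ j • f j) =
        ex (fb kk η (L * W) (lt B lv ρ f)) u := fun z ξ x v => by
    obtain ⟨u, b1, b2⟩ := h1 {a // lv a} J kk η (L * W) L L _ f _ _ (fun a => z a / ρ a) ξ hn' ap
      le_rfl
      (h.fr.mem z) (comb_mem h.mf ξ) (fun a => by
        rw [abs_div, abs_of_pos (r0 _), div_le_iff₀ (r0 _)]; exact (x a).1 a.2) v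
      (eb_mono (live_part B lv r0 z (θ := θ * L) (by positivity) fun a e =>
        eb_smul (h.bB a) ((x a).2 e)) (by
          have : (Fintype.card κ : ℝ) * θ ≤ η := le_trans (by gcongr; nlinarith) e1
          nlinarith))
      (by rw [sub_self]; exact eb_zero (by have := ap.pos; positivity))
    exact ⟨u, fun a => (b1 a).trans (by linarith), b2⟩
  have u2 : ∀ z : κ → ℝ, (∀ a, |z a| ≤ X) → Eb (f₃ ((n + 1) * (X * X))) (ex B z) := fun z x =>
    (h3 _ _ _ rfl (h.fr.mem z) b0 (eb_mono (eb_card fun a => eb_smul (h.bB a) (x a))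
      (by gcongr))).1
  have u3 : ∀ ξ : J → ℝ, (∀ j, |ξ j| ≤ L) →
      Eb (f₃ ((n + 1) * (X * X))) (exp (∑ j, ξ j • f j)) ∧
      Eb (f₃ ((n + 1) * (X * X))) (exp (-∑ j, ξ j • f j)) ∧
      exp (∑ j, ξ j • f j) * exp (-∑ j, ξ j • f j) = 1 := fun ξ x => by
    have b1 : Eb ((n + 1) * (X * X)) (∑ j, ξ j • f j) :=
      eb_mono (eb_card fun j => eb_smul (h.bf j) (x j)) (by gcongr)
    exact ⟨(h3 _ _ _ rfl (comb_mem h.mf ξ) b0 b1).1,
      (h3 _ _ _ rfl (neg_mem (comb_mem h.mf ξ)) b0 (eb_neg b1)).1,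
      exp_mul_exp_neg_self ((tri kk).nil (comb_mem h.mf ξ))⟩
  have u4 : ∀ (z r : κ → ℝ), Bo lv r L θ z → (∀ a, L * r a ≤ X) → ∀ b, |z b| ≤ X :=
    fun z r u v b => by
    by_cases x : lv b
    · exact ((u b).1 x).trans (v b)
    · have : η ≤ 1 := (le_mul_of_one_le_right ap.pos.le
        (one_le_pow₀ (by linarith [ap.wo]))).trans e2
      have : θ ≤ η := le_trans (le_mul_of_one_le_left t0.le (by nlinarith)) e1
      linarith [(u b).2 x]
  have u5 : ∀ (z r : κ → ℝ), Bo lv r L θ z → (∀ a, r a ≤ ρ a) → Bo lv ρ L θ z := fun z r u v b =>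
    ⟨fun x => ((u b).1 x).trans (mul_le_mul_of_nonneg_left (v b) (by linarith)), (u b).2⟩
  obtain ⟨s₀, b0, g0⟩ := u1 g 0 bg fun _ => by simpa using zero_le_one.trans l1
  obtain ⟨s₁, b1, g1⟩ := u1 z ξ (u5 z r bz fun a => (hr a).1) bξ
  obtain ⟨s₂, b2, g2⟩ := u1 t ζ (u5 t 1 bt fun a => (h.rho a).1) bζ
  have f1 := p1.1 L l1
  have f2 := p2.1 (L + f₁ L) (by linarith)
  obtain ⟨s₃, b3, g3⟩ := h2 _ kk η (L * W) L (L + f₁ L) _ s₁ s₂ (by simpa using hn') ap
    (by linarith) b1 b2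
  obtain ⟨s, b4, g4⟩ := h2 _ kk η (L * W) L (L + f₁ L + f₂ (L + f₁ L)) _ s₀ s₃ (by simpa using hn')
    ap (by linarith) (fun a => (b0 a).trans (by linarith)) fun a => (b3 a).trans (by linarith)
  simp only [Pi.zero_apply, zero_smul, sum_const_zero, exp_zero, mul_one] at g0
  rw [← g0, ← g3, ← g1, ← g2] at g4
  obtain ⟨x1, x2, x3⟩ := u3 ξ bξ
  obtain ⟨z1, z2, z3⟩ := u3 ζ bζ
  have a1 := u4 t 1 bt fun _ => by simpa using lx
  have a2 := u4 z r bz fun a => (hr a).2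
  have t1 := u2 t a1
  have t2 := u2 (-t) (by simpa using a1)
  have t3 := u2 z a2
  have t4 := u2 (-z) (by simpa using a2)
  have f3 := p4.1 X x0
  have f5 := p5.1 X x0
  have f6 := p6.nn x0
  have f7 := p7.nn l1
  beta_reduce at f3 f5 f6 f7 ⊢
  generalize f₃ ((n + 1) * (X * X)) = Y at *
  generalize exp (∑ j, ξ j • f j) = U at *
  generalize exp (-∑ j, ξ j • f j) = U' at *
  generalize exp (∑ j, ζ j • f j) = V at *
  generalize exp (-∑ j, ζ j • f j) = V' at *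
  have y0 : 0 ≤ Y := by linarith
  have y4 : 0 ≤ ((m + 1) * Y) ^ 4 := by positivity
  refine ⟨s, ⟨fun b => (b4 b).trans (by linarith), V' *ᵥ (ex B (-t) *ᵥ (p - ex B t *ᵥ (V *ᵥ q) +
    U' *ᵥ (ex B (-z) *ᵥ (y - ex B z *ᵥ (U *ᵥ p))))), ?_, ?_⟩, ?_⟩
  · refine vb_mono (vb_mv z2 (vb_mv t2 (vb_add e3 (vb_mv x2 (vb_mv t4 e4 y0 t0.le) y0
      (by positivity))) y0 (by positivity)) y0 (by positivity)) ?_
    generalize (m + 1) * Y = Z at *
    have a2 : Z ^ 2 ≤ Z ^ 4 := pow_le_pow_right₀ f5 (by norm_num)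
    calc _ = (Z ^ 2 + Z ^ 4) * θ := by ring
      _ ≤ _ := mul_le_mul_of_nonneg_right (by linarith) t0.le
  · have i : ∀ {A A' : Mt (Fin m)}, A * A' = 1 → ∀ v, A *ᵥ (A' *ᵥ v) = v := fun e v => by
      rw [mulVec_mulVec, e, one_mulVec]
    rw [← g4]
    simp only [← mulVec_mulVec, mulVec_add (ex B t), mulVec_add V, i z3, i (M.neg t).2]
    rw [← add_assoc, add_sub_cancel, mulVec_add U, i x3, mulVec_add (ex B z), i (M.neg z).2,
      add_sub_cancel]
  · rw [← g4, ← mul_assoc, (M.neg g).1, one_mul]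
    refine eb_mono (eb_mul (eb_mul t3 x1 y0 y0) (eb_mul t1 z1 y0 y0) (by positivity)
      (by positivity)) ?_
    have : (m + 1) * ((m + 1) * Y * Y) * ((m + 1) * Y * Y) * (m + 1) = ((m + 1) * Y) ^ 4 := by ring
    have m0 : (0 : ℝ) ≤ m := Nat.cast_nonneg _
    nlinarith [mul_nonneg (show 0 ≤ (m + 1) * ((m + 1) * Y * Y) * ((m + 1) * Y * Y) by positivity)
      m0]

end Pool.Agent.MP_5168f5_an.QA.Tq
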