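import Pool.Agent.MP_5168f5_an.R4.Api

/-! From sequences of points to events of positive probability. -/

namespace Pool.Agent.MP_5168f5_an.QA

open H19 H17S H17F R4 Filter Finset

variable {Ω : ℕ → Type} {P : ∀ n, FP (Ω n)}

theorem pb_rng {W : Type} (Q : FP W) (E : ℕ → W → Prop) (k : ℕ)
    (h : ∀ i < k, pb Q (E i) ≤ (1 / 2) ^ (i + 2)) :
    pb Q (fun ω => ∃ i < k, E i ω) ≤ 1 / 2 - (1 / 2) ^ (k + 1) := by
  induction k with
  | zero => exact (pb_zero fun ω _ a => by simp at a).trans_le (by norm_num)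
  | succ k ih =>
    have a := pb_split Q (fun ω => ∃ i < k + 1, E i ω) (E k)
    have b : pb Q (fun ω => (∃ i < k + 1, E i ω) ∧ E k ω) ≤ pb Q (E k) := pb_mono fun _ _ u => u.2
    have c : pb Q (fun ω => (∃ i < k + 1, E i ω) ∧ ¬E k ω) ≤ pb Q fun ω => ∃ i < k, E i ω :=
      pb_mono fun ω _ ⟨⟨i, u, v⟩, w⟩ =>
        ⟨i, lt_of_le_of_ne (Nat.lt_succ_iff.1 u) fun e => w (e ▸ v), v⟩
    have d := ih fun i hi => h i (hi.trans k.lt_succ_self)
    have e := h k k.lt_succ_self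
    have f : ((1 : ℝ) / 2) ^ (k + 1) = 2 * (1 / 2) ^ (k + 1 + 1) := by ring
    linarith

theorem uniN (G : ℕ → ℕ → ∀ n, Ω n → Prop) (hm : ∀ i T T' n ω, T ≤ T' → G i T' n ω → G i T n ω)
    (h : ∀ ω : ∀ n, Ω n, (∀ n, ω n ∈ (P n).S) → ∃ i, ∀ T, ∀ᶠ n in UF, G i T n (ω n)) :
    ∃ (i : ℕ) (t : ℕ → ℕ), Big t ∧ Pos P fun n ω => G i (t n) n ω := by
  by_cases H : ∃ (i : ℕ) (c : ℝ), 0 < c ∧ ∀ T, ∀ᶠ n in UF, c ≤ pb (P n) (G i T n)
  · obtain ⟨i, c, hc, a⟩ := H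
    obtain ⟨t, h1, h2⟩ := ks.spill _ a
    exact ⟨i, t, h1, c, hc, h2.mono fun n b => b _ le_rfl⟩
  · exfalso
    have H' : ∀ i : ℕ, ∃ T, ∀ᶠ n in UF, pb (P n) (G i T n) ≤ (1 / 2) ^ (i + 2) := fun i => by
      by_contra c
      exact H ⟨i, (1 / 2) ^ (i + 2), by positivity, fun T =>
        (not_ev.1 fun d => c ⟨T, d⟩).mono fun _ a => (not_le.1 a).le⟩
    choose T hT using H'
    obtain ⟨k, h1, h2⟩ := ks.spill (fun k n => ∀ i < k, pb (P n) (G i (T i) n) ≤ (1 / 2) ^ (i + 2))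
      fun k => (eventually_all_finite (Set.finite_Iio k)).2 fun i _ => hT i
    have key : ∀ n, ∃ ω ∈ (P n).S, (∀ i < k n, pb (P n) (G i (T i) n) ≤ (1 / 2) ^ (i + 2)) →
        ∀ i < k n, ¬G i (T i) n ω := fun n => by
      by_contra c
      push Not at c
      have s : ∃ ω, ω ∈ (P n).S := by
        by_contra d
        have := pb_zero (P := P n) (E := fun _ => True) fun ω u _ => d ⟨ω, u⟩
        rw [pb_true] at this
        exact one_ne_zero this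
      obtain ⟨ω, u⟩ := s
      have a := pb_rng (P n) (fun i => G i (T i) n) (k n) (c ω u).1
      have b := pb_mono (P := P n) (E := fun _ => True)
        (F := fun ω => ∃ i < k n, G i (T i) n ω) fun v w _ => (c v w).2
      rw [pb_true] at b
      have : (0 : ℝ) < (1 / 2) ^ (k n + 1) := by positivity
      linarith
    choose ω h3 h4 using key
    obtain ⟨i, a⟩ := h ω h3
    obtain ⟨n, ⟨b, c⟩, d⟩ := (((a (T i)).and h2).and (h1.eventually_gt_atTop i)).exists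
    exact h4 n (c _ le_rfl) i d b

/-- If every sequence of points has a type, then one type holds uniformly on an event of positive
probability. -/
theorem uni {J : Type} [Countable J] (G : J → ℕ → ∀ n, Ω n → Prop)
    (hm : ∀ j T T' n ω, T ≤ T' → G j T' n ω → G j T n ω)
    (h : ∀ ω : ∀ n, Ω n, (∀ n, ω n ∈ (P n).S) → ∃ j, ∀ T, ∀ᶠ n in UF, G j T n (ω n)) :
    ∃ (j : J) (t : ℕ → ℕ), Big t ∧ Pos P fun n ω => G j (t n) n ω := by
  obtain ⟨e, he⟩ := Countable.exists_injective_nat J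
  obtain ⟨i, t, h1, c, hc, h2⟩ := uniN (P := P) (fun i T n ω => ∃ j, e j = i ∧ G j T n ω)
    (fun _ _ _ _ _ a ⟨j, b, c⟩ => ⟨j, b, hm _ _ _ _ _ a c⟩) fun ω hω =>
      (h ω hω).elim fun j a => ⟨e j, fun T => (a T).mono fun _ b => ⟨j, rfl, b⟩⟩
  obtain ⟨n, a⟩ := h2.exists
  obtain ⟨j, rfl⟩ : ∃ j, e j = i := by
    by_contra d
    rw [pb_zero fun ω _ ⟨j, b, _⟩ => d ⟨j, b⟩] at a
    exact absurd hc (not_lt.2 a)
  exact ⟨j, t, h1, c, hc, h2.mono fun n b => b.trans (pb_mono fun ω _ ⟨j', u, v⟩ => he u ▸ v)⟩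

/-- The same with data that are read from the label `K`. -/
theorem uniF {J : Type} [Countable J] {Λ β : ℕ → Type} [∀ n, Nonempty (β n)]
    (K : ∀ n, Ω n → Λ n) (G : J → ℕ → ∀ n, Λ n → β n → Prop)
    (hm : ∀ j T T' n a b, T ≤ T' → G j T' n a b → G j T n a b)
    (h : ∀ ω : ∀ n, Ω n, (∀ n, ω n ∈ (P n).S) →
      ∃ (j : J) (b : ∀ n, β n), ∀ T, ∀ᶠ n in UF, G j T n (K n (ω n)) (b n)) :
    ∃ (j : J) (E : ∀ n, Λ n → Prop) (b : ∀ n, Λ n → β n), (Pos P fun n ω => E n (K n ω)) ∧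
      ∀ T, ∀ᶠ n in UF, ∀ a, E n a → G j T n a (b n a) := by
  obtain ⟨j, t, h1, h2⟩ := uni (P := P) (fun j T n ω => ∃ b, G j T n (K n ω) b)
    (fun _ _ _ _ _ a ⟨b, c⟩ => ⟨b, hm _ _ _ _ _ _ a c⟩) fun ω hω =>
      (h ω hω).elim fun j ⟨b, a⟩ => ⟨j, fun T => (a T).mono fun n c => ⟨b n, c⟩⟩
  exact ⟨j, fun n a => ∃ b, G j (t n) n a b, fun n a => Classical.epsilon (G j (t n) n a), h2,
    fun T => (h1.eventually_ge_atTop T).mono fun n u a v =>
      hm _ _ _ _ _ _ u (Classical.epsilon_spec v)⟩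

end Pool.Agent.MP_5168f5_an.QA
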