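import Pool.Agent.MP_5168f5_an.QA.AbS
import Pool.Agent.MP_5168f5_an.QA.Prt

/-! The line is an orbit of a letter. -/

namespace Pool.Agent.MP_5168f5_an.QA.Vh

open H19 H17S H17F R4 AN AN.GA AN.N6 H61Z IsNilpotent Finset Filter
open G39 (dl)
open N2 (El eW tri)
open Lt AB

theorem cb_smul {m : ℕ} {o : Fin m} {θ t T : ℝ} {X : Mt (Fin m)} (h : Cb o θ X) (e : |t| ≤ T) :
    Cb o (T * θ) (t • X) := fun p => by
  rw [Matrix.smul_apply, smul_eq_mul, abs_mul]
  exact mul_le_mul e (h p) (abs_nonneg _) ((abs_nonneg _).trans e)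

/-- Vectors that are shifted by a nilpotent matrix give its exponential. -/
theorem curve {m D : ℕ} {kk : Fin m → ℝ} {Y : Mt (Fin m)} {w : ℕ → Fin m → ℝ} {o : Fin m}
    {χ W θ s : ℝ} (hY : Y ∈ (tri kk).F 0) (hD : (D + m + 2 : ℕ) ≤ W) (hθ : 0 ≤ θ) (eY : Eb W Y)
    (hχ : 1 ≤ W * |χ|) (hs : |s| ≤ W) (top : ∀ i p, D < i → w i p = 0)
    (z : ∀ p, |w 0 p - (1 : Mt (Fin m)) p o| ≤ θ)
    (r : ∀ i p, |Y.mulVec (w i) p - χ * w (i + 1) p| ≤ θ) (p : Fin m) :
    |∑ i ∈ range (D + 1), w i p / i.factorial * s ^ i - exp ((s / χ) • Y) p o| ≤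
      W ^ (4 * (D + m) + 1) * θ := by
  have m0 : (0 : ℝ) ≤ m := Nat.cast_nonneg _
  have d0 : (0 : ℝ) ≤ D := Nat.cast_nonneg _
  push_cast at hD
  have hW : 1 ≤ W := by linarith
  have x0 : χ ≠ 0 := fun k => by rw [k] at hχ; norm_num at hχ
  have x1 : |χ⁻¹| ≤ W := by
    rw [abs_inv, inv_le_iff_one_le_mul₀ (abs_pos.2 x0)]; exact hχ
  have g1 : 1 ≤ W ^ 3 := one_le_pow₀ hW
  have key : ∀ i, Cb o ((W ^ 3) ^ i * θ)
      (Matrix.of (fun p _ => w i p) - (χ⁻¹ • Y) ^ i) := fun i => by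
    induction i with
    | zero => exact fun p => by simpa using z p
    | succ i ih =>
      have e : Matrix.of (fun p _ => w (i + 1) p) - (χ⁻¹ • Y) ^ (i + 1) =
          -(χ⁻¹ • (Y * Matrix.of (fun p _ => w i p) - χ • Matrix.of fun p _ => w (i + 1) p)) +
            (χ⁻¹ • Y) * (Matrix.of (fun p _ => w i p) - (χ⁻¹ • Y) ^ i) := by
        rw [smul_sub, smul_smul, inv_mul_cancel₀ x0, one_smul, mul_sub, ← pow_succ', smul_mul_assoc]
        abel
      have a1 : Cb o θ (Y * Matrix.of (fun p _ => w i p) - χ • Matrix.of fun p _ => w (i + 1) p) :=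
        fun p => r i p
      have p1 := one_le_pow₀ (n := i) g1
      rw [e]
      refine ((cb_smul a1 x1).neg.add (Cb.mul (eb_smul eY x1) ih (by positivity)
        (by positivity))).mono ?_
      rw [pow_succ' (W ^ 3)]
      generalize (W ^ 3) ^ i = x at *
      have a2 : W * θ ≤ W * W * (x * θ) := mul_le_mul (by nlinarith) (by nlinarith) hθ (by positivity)
      have a3 : (m + 2) * (W * W * (x * θ)) ≤ W * (W * W * (x * θ)) :=
        mul_le_mul_of_nonneg_right (by linarith) (by positivity)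
      nlinarith
  have n1 : ((s / χ) • Y) ^ (D + m + 1) = 0 := by
    have : Y ^ (m + 1) = 0 := (tri kk).pow_zero' hY
    rw [smul_pow, add_assoc, pow_add Y, this, mul_zero, smul_zero]
  have e1 : ∑ i ∈ range (D + 1), w i p / i.factorial * s ^ i =
      ∑ i ∈ range (D + m + 1), w i p / i.factorial * s ^ i :=
    sum_subset (range_mono (by omega)) fun i _ k => by
      rw [top i p (by simpa using k), zero_div, zero_mul]
  have b1 : 1 ≤ W * W ^ 3 := one_le_mul_of_one_le_of_one_le hW g1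
  rw [e1, exp_eq_sum n1, Matrix.sum_apply, ← sum_sub_distrib]
  refine (abs_sum_le_sum_abs _ _).trans ((sum_le_card_nsmul _ _
    ((W * W ^ 3) ^ (D + m) * θ) fun i hi => ?_).trans ?_)
  swap
  · rw [card_range, nsmul_eq_mul, ← pow_succ', ← pow_mul, pow_succ' W (4 * (D + m)), mul_assoc]
    exact mul_le_mul_of_nonneg_right (by push_cast; linarith) (by positivity)
  have e2 : w i p / i.factorial * s ^ i - (((i.factorial : ℚ))⁻¹ • ((s / χ) • Y) ^ i) p o =
      (i.factorial : ℝ)⁻¹ * (s ^ i * (Matrix.of (fun p _ => w i p) - (χ⁻¹ • Y) ^ i : Mt (Fin m)) p o) := by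
    rw [div_eq_mul_inv s, mul_smul, smul_pow s]
    simp only [Matrix.smul_apply, Rat.smul_def, Matrix.sub_apply, Matrix.of_apply, smul_eq_mul]
    push_cast
    ring
  rw [e2, abs_mul, abs_mul, abs_pow]
  refine (mul_le_of_le_one_left (by positivity) ?_).trans ((mul_le_mul
    (pow_le_pow_left₀ (abs_nonneg _) hs i) (key i p) (abs_nonneg _) (by positivity)).trans ?_)
  · rw [abs_inv, Nat.abs_cast]
    exact inv_le_one_of_one_le₀ (by exact_mod_cast i.factorial_pos)
  · rw [← mul_assoc, ← mul_pow]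
    exact mul_le_mul_of_nonneg_right (pow_le_pow_right₀ b1 (Nat.lt_succ_iff.1 (mem_range.1 hi))) hθ

variable {N D m : ℕ}

/-- The point of the line at the normalised height `s`. -/
noncomputable def lpt (X : St N D) (ω : X.Ω) (s : ℝ) : V (N + 1) :=
  X.g.tp ω + (s * (2 ^ X.lv 0)⁻¹) • X.g.dv ω

theorem eval_jet (X : St N D) (F : Fd N D m X.Ω) (ω : X.Ω) (h : ∀ i p, D < i → jet X F ω i p = 0)
    (s : ℝ) (p : Fin m) : MvPolynomial.eval (lpt X ω s) (F.f ω p).1 =
      ∑ i ∈ range (D + 1), jet X F ω i p / i.factorial * s ^ i := by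
  have e : MvPolynomial.eval (lpt X ω s) (F.f ω p).1 =
      (MvPolynomial.aeval (AB.lp X ω) (F.f ω p).1).eval s := by
    rw [← Polynomial.coe_aeval_eq_eval, ← AlgHom.comp_apply, MvPolynomial.comp_aeval]
    refine congrArg (fun y => MvPolynomial.eval y (F.f ω p).1) (funext fun i => ?_)
    simp only [AB.lp, lpt, map_add, map_mul, Polynomial.aeval_C, Polynomial.aeval_X, Pi.add_apply,
      Pi.smul_apply, smul_eq_mul, Algebra.algebraMap_self, RingHom.id_apply]
    ring
  have f0 : ∀ i : ℕ, (i.factorial : ℝ) ≠ 0 := fun i => by exact_mod_cast i.factorial_ne_zero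
  rw [e, Polynomial.eval_eq_sum_range' (n := D + 1) (Nat.lt_succ_of_le
    (Polynomial.natDegree_le_iff_coeff_eq_zero.2 fun i k =>
      (mul_eq_zero.1 (h i p k)).resolve_left (f0 i)))]
  exact sum_congr rfl fun i _ => by rw [jet, mul_div_cancel_left₀ _ (f0 i)]

end Pool.Agent.MP_5168f5_an.QA.Vh
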